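import Mathlib
import Pool.Agent.PFlow.Sol

/-! Parts: PFlow.StmtsK, PFlow.K.KJET, PFlow.K.KLIM, PFlow.K.KLIMU, PFlow.K.KPOS -/

section

/-!
# Block K: the regularised coefficients

Definitions and statements of the modules on the coefficients of the regularised equation
`div A(x, ∇u) + B(x, ∇u) = F`. Sketches in `K.md`. All statements are independent of the PDE
modules.
-/

open MeasureTheory Filter Topology
open scoped ContDiff

namespace Pool.Agent.PFlow

open Pool.Agent.PenroseSph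

/-! ### Definitions -/

/-- The data of the PDE block: `g` is a smooth metric and `h` a smooth symmetric tensor on `E3`,
and `g = δ`, `h = 0` for `|x| ≥ r`. -/
structure GData (g h : TensorField) (r : ℝ) : Prop where
  met : MetricOn Set.univ g
  ten : TensorOn Set.univ h
  flat : ∀ x : E3, r ≤ ‖x‖ → g x = 1 ∧ h x = 0

/-- A covector as an element of `E3`. -/
noncomputable abbrev vec (p : Cov) : E3 := WithLp.toLp 2 p

/-- `|p|_g²` -/
noncomputable def lsq (g : TensorField) (x : E3) (p : Cov) : ℝ := ev (g x)⁻¹ p p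

/-- `α(s) = (s + δ²)^((ε-1)/2) + κ`; the regularised weight is `a(t) = α(t²)`. -/
noncomputable def regA (ε δ κ s : ℝ) : ℝ := (s + δ ^ 2) ^ ((ε - 1) / 2) + κ

/-- `2 α'(s) = (ε-1) (s + δ²)^((ε-3)/2)`, which is `a'(t)/t` for `s = t²`. -/
noncomputable def regD (ε δ s : ℝ) : ℝ := (ε - 1) * (s + δ ^ 2) ^ ((ε - 3) / 2)

/-- `A^i(x, ξ) = √g a(|ξ|_g) g^{ij} ξ_j` -/
noncomputable def cA (ε δ κ : ℝ) (g : TensorField) (x ξ : E3) : E3 :=
  vec fun i => volDen g x * regA ε δ κ (lsq g x ξ) * raise g x ξ i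

/-- `B(x, ξ) = √g (|ξ|²+δ²)^((ε-2)/2) (|ξ|² tr h - (1-ε) h(ξ^♯, ξ^♯))` -/
noncomputable def cB (ε δ : ℝ) (g h : TensorField) (x ξ : E3) : ℝ :=
  volDen g x * (lsq g x ξ + δ ^ 2) ^ ((ε - 2) / 2) *
    (lsq g x ξ * trg g x (h x) - (1 - ε) * ev (h x) (raise g x ξ) (raise g x ξ))

/-- The limit `A_0^i(x, ξ) = √g |ξ|_g^(ε-1) g^{ij} ξ_j` (zero for `ξ = 0`). -/
noncomputable def cA0 (ε : ℝ) (g : TensorField) (x ξ : E3) : E3 :=
  vec fun i => volDen g x * len g x ξ ^ (ε - 1) * raise g x ξ i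

/-- The limit `B_0(x, ξ) = √g |ξ|^ε (tr h - (1-ε) h(n, n))`. -/
noncomputable def cB0 (ε : ℝ) (g h : TensorField) (x ξ : E3) : ℝ :=
  volDen g x * (len g x ξ ^ ε * beps ε g x ξ (h x))

/-- The 2-jet form of `div A(x, ∇f)`: `√g (a tr ∇²f + (a'/t) ∇²f(∇f, ∇f))`. -/
noncomputable def opL (ε δ κ : ℝ) (g : TensorField) (x : E3) (p : Cov) (M : Bil) : ℝ :=
  volDen g x * (regA ε δ κ (lsq g x p) * trg g x (cHess g x p M) +
    regD ε δ (lsq g x p) * ev (cHess g x p M) (raise g x p) (raise g x p))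

/-- The structure used by the PDE modules: smooth coefficients, strongly monotone and Lipschitz in
`ξ`, `A(x,0) = 0`, `B(x,0) = 0`, and `B = 0` for `|x| ≥ r`. -/
structure Coef (A : E3 → E3 → E3) (B : E3 → E3 → ℝ) (c L r : ℝ) : Prop where
  smoothA : ContDiff ℝ ∞ (fun q : E3 × E3 => A q.1 q.2)
  smoothB : ContDiff ℝ ∞ (fun q : E3 × E3 => B q.1 q.2)
  A0 : ∀ x, A x 0 = 0
  B0 : ∀ x, B x 0 = 0
  mono : ∀ x ξ η, c * ‖ξ - η‖ ^ 2 ≤ inner ℝ (A x ξ - A x η) (ξ - η)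
  lipA : ∀ x ξ η, ‖A x ξ - A x η‖ ≤ L * ‖ξ - η‖
  lipB : ∀ x ξ η, |B x ξ - B x η| ≤ L * ‖ξ - η‖
  lipX : ∀ x y ξ, ‖A x ξ - A y ξ‖ ≤ L * ‖x - y‖ * ‖ξ‖
  supp : ∀ x ξ, r ≤ ‖x‖ → B x ξ = 0

/-! ### The metric -/

/-- KSM: smoothness of the inverse metric, the volume density and the Christoffel symbols. -/
def KSM : Prop := ∀ (g h : TensorField) (r : ℝ), GData g h r →
  (∀ i j, ContDiff ℝ ∞ (fun x => (g x)⁻¹ i j)) ∧ ContDiff ℝ ∞ (volDen g) ∧
    ∀ k i j, ContDiff ℝ ∞ (christoffel g k i j)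

/-- The bounds of the metric, with a constant `C`. -/
structure GBound (g h : TensorField) (C : ℝ) : Prop where
  one : 1 ≤ C
  up : ∀ (x : E3) (p : Cov), lsq g x p ≤ C * ‖vec p‖ ^ 2
  low : ∀ (x : E3) (p : Cov), ‖vec p‖ ^ 2 ≤ C * lsq g x p
  volUp : ∀ x, volDen g x ≤ C
  volLow : ∀ x, 1 ≤ C * volDen g x
  inv : ∀ x i j, |(g x)⁻¹ i j| ≤ C
  raise : ∀ (x : E3) (p : Cov), ‖vec (raise g x p)‖ ≤ C * ‖vec p‖
  chr : ∀ x k i j, |christoffel g k i j x| ≤ C
  hh : ∀ x i j, |h x i j| ≤ C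
  tr : ∀ x (M : Bil), |trg g x M| ≤ C * ∑ i, ∑ j, |M i j|
  dinv : ∀ x i j k, |pd k (fun y => (g y)⁻¹ i j) x| ≤ C
  dvol : ∀ x k, |pd k (volDen g) x| ≤ C
  nsqUp : ∀ x (M : Bil), nsq g x M ≤ C * ∑ i, ∑ j, M i j ^ 2
  nsqLow : ∀ x (M : Bil), ∑ i, ∑ j, M i j ^ 2 ≤ C * nsq g x M

/-- KBND: the bounds of the metric (`g = δ`, `h = 0` outside a compact set). -/
def KBND : Prop := ∀ (g h : TensorField) (r : ℝ), GData g h r → ∃ C, GBound g h C

/-- KIDV: derivatives of the inverse metric and of the volume density, on an open set. -/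
def KIDV : Prop := ∀ (U : Set E3) (g : TensorField), IsOpen U → MetricOn U g → ∀ x ∈ U,
  (∀ i j k, pd k (fun y => (g y)⁻¹ i j) x =
    -∑ m, (christoffel g i k m x * (g x)⁻¹ m j + christoffel g j k m x * (g x)⁻¹ i m)) ∧
  (∀ k, pd k (volDen g) x = volDen g x * ∑ m, christoffel g m m k x) ∧
  ∀ j, ∑ i, pd i (fun y => volDen g y * (g y)⁻¹ i j) x =
    -(volDen g x * ∑ k, ∑ l, (g x)⁻¹ k l * christoffel g j k l x)

/-- KTN: linear algebra of a positive definite matrix `G` (the metric at a point). -/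
def KTN : Prop := ∀ (g : TensorField) (x : E3), (g x).PosDef → ∀ p : Cov,
  0 ≤ lsq g x p ∧ (p ≠ 0 → 0 < lsq g x p) ∧ len g x p ^ 2 = lsq g x p ∧
  (∀ q : Cov, ∑ i, raise g x p i * q i = ev (g x)⁻¹ p q) ∧
  (∀ q : Cov, (ev (g x)⁻¹ p q) ^ 2 ≤ lsq g x p * lsq g x q) ∧
  (∀ B : Bil, (ev B (raise g x p) (raise g x p)) ^ 2 ≤ lsq g x p ^ 2 * nsq g x B) ∧
  (∀ B : Bil, 0 ≤ nsq g x B) ∧
  (p ≠ 0 → ∀ B : Bil, bnn g x p B = ev B (raise g x p) (raise g x p) / lsq g x p)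

/-! ### The structure `Coef` -/

/-- KSMO: joint smoothness and the values at `ξ = 0` and outside the ball. -/
def KSMO : Prop := ∀ (ε δ κ : ℝ) (g h : TensorField) (r : ℝ), 0 < ε → ε < 1 → 0 < δ → 0 < κ →
  GData g h r →
  ContDiff ℝ ∞ (fun q : E3 × E3 => cA ε δ κ g q.1 q.2) ∧
  ContDiff ℝ ∞ (fun q : E3 × E3 => cB ε δ g h q.1 q.2) ∧
  (∀ x, cA ε δ κ g x 0 = 0) ∧ (∀ x, cB ε δ g h x 0 = 0) ∧
  ∀ x ξ, r ≤ ‖x‖ → cB ε δ g h x ξ = 0

/-- KMON: strong monotonicity. -/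
def KMON : Prop := ∀ (ε δ κ : ℝ) (g h : TensorField) (r : ℝ), 0 < ε → ε < 1 → 0 < δ → 0 < κ →
  GData g h r → ∃ c : ℝ, 0 < c ∧ ∀ x ξ η,
    c * ‖ξ - η‖ ^ 2 ≤ inner ℝ (cA ε δ κ g x ξ - cA ε δ κ g x η) (ξ - η)

/-- KLIP: Lipschitz bounds. -/
def KLIP : Prop := ∀ (ε δ κ : ℝ) (g h : TensorField) (r : ℝ), 0 < ε → ε < 1 → 0 < δ → 0 < κ →
  GData g h r → ∃ L : ℝ,
    (∀ x ξ η, ‖cA ε δ κ g x ξ - cA ε δ κ g x η‖ ≤ L * ‖ξ - η‖) ∧
    (∀ x ξ η, |cB ε δ g h x ξ - cB ε δ g h x η| ≤ L * ‖ξ - η‖) ∧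
    ∀ x y ξ, ‖cA ε δ κ g x ξ - cA ε δ κ g y ξ‖ ≤ L * ‖x - y‖ * ‖ξ‖

/-- KCOEF: the regularised coefficients satisfy `Coef`. -/
def KCOEF : Prop := ∀ (ε δ κ : ℝ) (g h : TensorField) (r : ℝ), 0 < ε → ε < 1 → 0 < δ → 0 < κ →
  GData g h r → ∃ c L : ℝ, 0 < c ∧ Coef (cA ε δ κ g) (cB ε δ g h) c L r

/-! ### The second order operator -/

/-- KJET: `div_x A(x,p) + D_ξ A(x,p) : M` is `opL`. -/
def KJET : Prop := ∀ (ε δ κ : ℝ) (g h : TensorField) (r : ℝ), 0 < ε → ε < 1 → 0 < δ → 0 < κ →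
  GData g h r → ∀ (x : E3) (p : Cov) (M : Bil),
    ∑ i, pd i (fun y => cA ε δ κ g y (vec p) i) x +
      ∑ i, ∑ j, M i j * pd j (fun ξ => cA ε δ κ g x ξ i) (vec p) = opL ε δ κ g x p M

/-- KDIV: `div A(x, ∇f) = opL(∇f, ∇²f)` for functions of class `C²`. -/
def KDIV : Prop := ∀ (ε δ κ : ℝ) (g h : TensorField) (r : ℝ), 0 < ε → ε < 1 → 0 < δ → 0 < κ →
  GData g h r → ∀ (f : E3 → ℝ) (x : E3), ContDiffAt ℝ 2 f x →
    ∑ i, pd i (fun y => cA ε δ κ g y (vec (grad f y)) i) x =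
      opL ε δ κ g x (grad f x) (hess2 f x)

/-- KCOR: the Cordes inequality, uniformly in `δ, κ ∈ (0, 1]`. -/
def KCOR : Prop := ∀ (ε : ℝ) (g h : TensorField) (r : ℝ), 0 < ε → ε < 1 → GData g h r →
  ∃ C : ℝ, 0 ≤ C ∧ ∀ δ κ : ℝ, 0 < δ → δ ≤ 1 → 0 < κ → κ ≤ 1 →
    ∀ (x : E3) (p : Cov) (M : Bil) (F : ℝ),
      opL ε δ κ g x p M + cB ε δ g h x (vec p) = F →
      trg g x (cHess g x p M) ^ 2 ≤ (1 - ε) * nsq g x (cHess g x p M) +
        C * (‖vec p‖ ^ 2 + F ^ 2 * (1 + ‖vec p‖ ^ 2))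

/-- KLIMJ: convergence of the second order operator at jets with `p ≠ 0`. -/
def KLIMJ : Prop := ∀ (ε : ℝ) (g h : TensorField) (r : ℝ), 0 < ε → ε < 1 → GData g h r →
  ∀ (K : Set E3) (f : E3 → ℝ), IsCompact K → (∀ x ∈ K, ContDiffAt ℝ 2 f x) →
    (∀ x ∈ K, grad f x ≠ 0) → ∀ η : ℝ, 0 < η → ∃ δ₀ : ℝ, 0 < δ₀ ∧
      ∀ δ κ : ℝ, 0 < δ → δ ≤ δ₀ → 0 < κ → κ ≤ δ₀ → ∀ x ∈ K,
        |opL ε δ κ g x (grad f x) (hess2 f x) + cB ε δ g h x (vec (grad f x)) -
          volDen g x * len g x (grad f x) ^ (ε - 1) * opN ε g h f x| ≤ η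

/-- KPOS: strict subsolutions and supersolutions of the limit equation are strict for the
regularised equation. -/
def KPOS : Prop := ∀ (ε : ℝ) (g h : TensorField) (r : ℝ), 0 < ε → ε < 1 → GData g h r →
  ∀ (K : Set E3) (f : E3 → ℝ), IsCompact K → (∀ x ∈ K, ContDiffAt ℝ 2 f x) →
    ((∀ x ∈ K, grad f x ≠ 0 ∧ 0 < opN ε g h f x) → ∃ σ δ₀ : ℝ, 0 < σ ∧ 0 < δ₀ ∧
      ∀ δ κ : ℝ, 0 < δ → δ ≤ δ₀ → 0 < κ → κ ≤ δ₀ → ∀ x ∈ K,
        σ ≤ opL ε δ κ g x (grad f x) (hess2 f x) + cB ε δ g h x (vec (grad f x))) ∧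
    ((∀ x ∈ K, grad f x ≠ 0 ∧ opN ε g h f x < 0) → ∃ σ δ₀ : ℝ, 0 < σ ∧ 0 < δ₀ ∧
      ∀ δ κ : ℝ, 0 < δ → δ ≤ δ₀ → 0 < κ → κ ≤ δ₀ → ∀ x ∈ K,
        opL ε δ κ g x (grad f x) (hess2 f x) + cB ε δ g h x (vec (grad f x)) ≤ -σ)

/-- KEXP: the function `exp (α x_0)` is a strict subsolution of all the operators, uniformly in
`δ, κ` (and of the limit operator); its negative is a strict supersolution. -/
def KEXP : Prop := ∀ (ε : ℝ) (g h : TensorField) (r : ℝ), 0 < ε → ε < 1 → GData g h r →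
  ∃ α : ℝ, 0 < α ∧ ∀ (x : E3) (τ : ℝ), τ ≠ 0 →
    grad (fun y => τ * Real.exp (α * y 0)) x ≠ 0 ∧
    0 < τ * opN ε g h (fun y => τ * Real.exp (α * y 0)) x ∧
    ∀ δ κ : ℝ, 0 < δ → 0 < κ →
      0 < τ * (opL ε δ κ g x (grad (fun y => τ * Real.exp (α * y 0)) x)
        (hess2 (fun y => τ * Real.exp (α * y 0)) x) +
      cB ε δ g h x (vec (grad (fun y => τ * Real.exp (α * y 0)) x)))

/-- KBAR: uniform bound of the operators on functions with `|D²f| ≤ C |Df|^(1-ε)`. -/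
def KBAR : Prop := ∀ (ε : ℝ) (g h : TensorField) (r C₁ : ℝ), 0 < ε → ε < 1 → GData g h r →
  ∃ C : ℝ, ∀ (δ κ : ℝ), 0 < δ → δ ≤ 1 → 0 < κ → κ ≤ 1 → ∀ (x : E3) (p : Cov) (M : Bil),
    ‖vec p‖ ≤ C₁ → (∀ i j, |M i j| ≤ C₁ * ‖vec p‖ ^ (1 - ε)) →
    |opL ε δ κ g x p M| + |cB ε δ g h x (vec p)| ≤ C

/-- KCUT: cut-off functions satisfying the hypothesis of KBAR. -/
def KCUT : Prop := ∀ (ε r₁ r₂ : ℝ), 0 < ε → ε < 1 → 0 < r₁ → r₁ < r₂ →
  ∃ (f : E3 → ℝ) (C₁ : ℝ), ContDiff ℝ 2 f ∧ (∀ x, 0 ≤ f x ∧ f x ≤ 1) ∧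
    (∀ x, ‖x‖ ≤ r₁ → f x = 1) ∧ (∀ x, r₂ ≤ ‖x‖ → f x = 0) ∧
    (∀ x, ‖vec (grad f x)‖ ≤ C₁) ∧
    ∀ x i j, |hess2 f x i j| ≤ C₁ * ‖vec (grad f x)‖ ^ (1 - ε)

/-! ### Limits of the coefficients -/

/-- KLIM: growth and convergence of the coefficients. -/
def KLIM : Prop := ∀ (ε : ℝ) (g h : TensorField) (r : ℝ), 0 < ε → ε < 1 → GData g h r →
  (∃ C : ℝ, 0 ≤ C ∧ ∀ δ κ : ℝ, 0 < δ → δ ≤ 1 → 0 < κ → κ ≤ 1 → ∀ x ξ : E3,
    ‖cA ε δ κ g x ξ‖ ≤ C * (‖ξ‖ ^ ε + κ * ‖ξ‖) ∧ |cB ε δ g h x ξ| ≤ C * ‖ξ‖ ^ ε) ∧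
  ∀ (x : E3) (δ κ : ℕ → ℝ) (ξ : ℕ → E3) (ξ₀ : E3), (∀ n, 0 < δ n) → (∀ n, 0 < κ n) →
    Tendsto δ atTop (𝓝 0) → Tendsto κ atTop (𝓝 0) → Tendsto ξ atTop (𝓝 ξ₀) →
    Tendsto (fun n => cA ε (δ n) (κ n) g x (ξ n)) atTop (𝓝 (cA0 ε g x ξ₀)) ∧
    Tendsto (fun n => cB ε (δ n) g h x (ξ n)) atTop (𝓝 (cB0 ε g h x ξ₀))

/-- KLIMU: convergence of the nondivergence coefficients: for `ξ_n → ξ ≠ 0` the normalised operator
converges, and it is always bounded. -/
def KLIMU : Prop := ∀ (ε : ℝ) (g h : TensorField) (r : ℝ), 0 < ε → ε < 1 → GData g h r →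
  (∃ C : ℝ, 0 ≤ C ∧ ∀ δ κ : ℝ, 0 < δ → δ ≤ 1 → 0 < κ → κ ≤ 1 → ∀ (x ξ : E3) (M : Bil),
    |opL ε δ κ g x ξ M / regA ε δ κ (lsq g x ξ)| ≤ C * (‖ξ‖ + ∑ i, ∑ j, |M i j|) ∧
    |cB ε δ g h x ξ / regA ε δ κ (lsq g x ξ)| ≤ C * ‖ξ‖ ∧
    1 / regA ε δ κ (lsq g x ξ) ≤ C * (1 + ‖ξ‖)) ∧
  ∀ (x : E3) (δ κ : ℕ → ℝ) (ξ : ℕ → E3) (ξ₀ : E3), (∀ n, 0 < δ n) → (∀ n, 0 < κ n) →
    Tendsto δ atTop (𝓝 0) → Tendsto κ atTop (𝓝 0) → Tendsto ξ atTop (𝓝 ξ₀) → ξ₀ ≠ 0 →
    (∀ M : Bil, Tendsto (fun n => opL ε (δ n) (κ n) g x (ξ n) M /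
        regA ε (δ n) (κ n) (lsq g x (ξ n))) atTop
      (𝓝 (volDen g x * beps ε g x ξ₀ (cHess g x ξ₀ M)))) ∧
    Tendsto (fun n => cB ε (δ n) g h x (ξ n) / regA ε (δ n) (κ n) (lsq g x (ξ n))) atTop
      (𝓝 (volDen g x * (len g x ξ₀ * beps ε g x ξ₀ (h x))))

end Pool.Agent.PFlow


end

section

/-!
# KJET: the second order operator in terms of the 2-jet
-/

open scoped ContDiff

namespace Pool.Agent.PFlow

open Pool.Agent.PenroseSph

namespace KJET

/-! ### Partial derivatives -/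

lemma pd_mul {f k : E3 → ℝ} {x : E3} (hf : DifferentiableAt ℝ f x)
    (hk : DifferentiableAt ℝ k x) (i : Fin 3) :
    pd i (fun y => f y * k y) x = f x * pd i k x + k x * pd i f x := by
  have h := (hf.hasFDerivAt.mul hk.hasFDerivAt).fderiv
  have h2 : (fun y => f y * k y) = f * k := rfl
  unfold pd
  rw [h2, h]
  simp

lemma pd_const_mul (c : ℝ) {f : E3 → ℝ} {x : E3} (hf : DifferentiableAt ℝ f x) (i : Fin 3) :
    pd i (fun y => c * f y) x = c * pd i f x := by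
  have h := (hf.hasFDerivAt.const_mul c).fderiv
  unfold pd
  rw [h]
  simp

lemma pd_sum {ι : Type} (s : Finset ι) {f : ι → E3 → ℝ} {x : E3}
    (hf : ∀ a ∈ s, DifferentiableAt ℝ (f a) x) (i : Fin 3) :
    pd i (fun y => ∑ a ∈ s, f a y) x = ∑ a ∈ s, pd i (f a) x := by
  have h := (HasFDerivAt.fun_sum fun a ha => (hf a ha).hasFDerivAt).fderiv
  unfold pd
  rw [h]
  simp

lemma pd_comp {φ : ℝ → ℝ} {φ' : ℝ} {f : E3 → ℝ} {x : E3} (hφ : HasDerivAt φ φ' (f x))
    (hf : DifferentiableAt ℝ f x) (i : Fin 3) :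
    pd i (fun y => φ (f y)) x = φ' * pd i f x := by
  have h := (hφ.comp_hasFDerivAt x hf.hasFDerivAt).fderiv
  unfold pd
  have h2 : (fun y => φ (f y)) = φ ∘ f := rfl
  rw [h2, h]
  simp

lemma diff_mul {f k : E3 → ℝ} {x : E3} (hf : DifferentiableAt ℝ f x)
    (hk : DifferentiableAt ℝ k x) : DifferentiableAt ℝ (fun y => f y * k y) x := hf.mul hk

lemma diff_comp {φ : ℝ → ℝ} {φ' : ℝ} {f : E3 → ℝ} {x : E3} (hφ : HasDerivAt φ φ' (f x))
    (hf : DifferentiableAt ℝ f x) : DifferentiableAt ℝ (fun y => φ (f y)) x :=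
  (hφ.comp_hasFDerivAt x hf.hasFDerivAt).differentiableAt

lemma hasFDerivAt_coord (l : Fin 3) (x : E3) :
    HasFDerivAt (fun ξ : E3 => ξ l) (EuclideanSpace.proj l : E3 →L[ℝ] ℝ) x :=
  (EuclideanSpace.proj l : E3 →L[ℝ] ℝ).hasFDerivAt

lemma diff_coord (l : Fin 3) (x : E3) : DifferentiableAt ℝ (fun ξ : E3 => ξ l) x :=
  (hasFDerivAt_coord l x).differentiableAt

lemma pd_coord (j l : Fin 3) (x : E3) :
    pd j (fun ξ : E3 => ξ l) x = if l = j then 1 else 0 := by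
  unfold pd
  rw [(hasFDerivAt_coord l x).fderiv]
  simp

lemma regA_deriv (ε δ κ s : ℝ) (hs : 0 < s + δ ^ 2) :
    HasDerivAt (regA ε δ κ) (regD ε δ s / 2) s := by
  have h1 : HasDerivAt (fun t : ℝ => t + δ ^ 2) 1 s := (hasDerivAt_id s).add_const _
  have h2 := (h1.rpow_const (p := (ε - 1) / 2) (Or.inl hs.ne')).add_const κ
  have h3 : regD ε δ s / 2 = 1 * ((ε - 1) / 2) * (s + δ ^ 2) ^ ((ε - 1) / 2 - 1) := by
    unfold regD
    rw [show (ε - 1) / 2 - 1 = (ε - 3) / 2 by ring]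
    ring
  rw [h3]
  exact h2

lemma lsq_nonneg {g : TensorField} {x : E3} (hg : (g x).PosDef) (p : Cov) : 0 ≤ lsq g x p := by
  have h := hg.inv.posSemidef.dotProduct_mulVec_nonneg p
  have h2 : star p ⬝ᵥ ((g x)⁻¹.mulVec p) = lsq g x p := by
    simp only [lsq, ev, dotProduct, Matrix.mulVec, Pi.star_apply, star_trivial, Finset.mul_sum]
    refine Finset.sum_congr rfl fun i _ => Finset.sum_congr rfl fun j _ => ?_
    ring
  rwa [h2] at h

lemma inv_symm {g : TensorField} {x : E3} (hg : (g x).PosDef) (i j : Fin 3) :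
    (g x)⁻¹ i j = (g x)⁻¹ j i := by
  have h := hg.inv.isHermitian.apply i j
  simpa using h.symm

end KJET

open KJET in
theorem KJET_thm (h1 : KSM) (h2 : KIDV) : KJET := by
  intro ε δ κ g h r _ _ hδ _ hd x p M
  obtain ⟨hG, hV, -⟩ := h1 g h r hd
  obtain ⟨hI, -, hD⟩ := h2 Set.univ g isOpen_univ hd.met x (Set.mem_univ x)
  have hpd : (g x).PosDef := hd.met.posDef x (Set.mem_univ x)
  have hs0 : 0 < lsq g x p + δ ^ 2 := by
    have := lsq_nonneg hpd p
    positivity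
  have hGd : ∀ i j, DifferentiableAt ℝ (fun y => (g y)⁻¹ i j) x := fun i j =>
    ((hG i j).differentiable (by simp)) x
  have hVd : DifferentiableAt ℝ (volDen g) x := (hV.differentiable (by simp)) x
  have hsy : ∀ i j, (g x)⁻¹ i j = (g x)⁻¹ j i := inv_symm hpd
  -- the derivatives in x
  have hVG : ∀ i j, DifferentiableAt ℝ (fun y => volDen g y * (g y)⁻¹ i j) x := fun i j =>
    hVd.mul (hGd i j)
  have hSd : DifferentiableAt ℝ (fun y => lsq g y p) x := by
    unfold lsq ev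
    exact DifferentiableAt.fun_sum fun i _ => DifferentiableAt.fun_sum fun j _ =>
      ((hGd i j).mul_const _).mul_const _
  have hS : ∀ i, pd i (fun y => lsq g y p) x =
      -(2 * ∑ m, ∑ k, christoffel g k i m x * p k * raise g x p m) := by
    intro i
    have e1 : (fun y => lsq g y p) = fun y => ∑ k, ∑ l, (p k * p l) * (g y)⁻¹ k l := by
      funext y
      unfold lsq ev
      refine Finset.sum_congr rfl fun k _ => Finset.sum_congr rfl fun l _ => ?_
      ring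
    rw [e1, pd_sum _ (fun k _ => DifferentiableAt.fun_sum fun l _ => (hGd k l).const_mul _)]
    have e2 : ∀ k, pd i (fun y => ∑ l, (p k * p l) * (g y)⁻¹ k l) x =
        ∑ l, (p k * p l) * -∑ m, (christoffel g k i m x * (g x)⁻¹ m l +
          christoffel g l i m x * (g x)⁻¹ k m) := by
      intro k
      rw [pd_sum _ (fun l _ => (hGd k l).const_mul _)]
      refine Finset.sum_congr rfl fun l _ => ?_
      rw [pd_const_mul _ (hGd k l), hI]
    rw [Finset.sum_congr rfl fun k _ => e2 k]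
    have s10 := hsy 1 0
    have s20 := hsy 2 0
    have s21 := hsy 2 1
    simp only [raise, Fin.sum_univ_three, s10, s20, s21]
    ring
  have hF : ∀ i, pd i (fun y => cA ε δ κ g y (vec p) i) x =
      regA ε δ κ (lsq g x p) * ∑ j, p j * pd i (fun y => volDen g y * (g y)⁻¹ i j) x +
      (volDen g x * raise g x p i) * (regD ε δ (lsq g x p) / 2 * pd i (fun y => lsq g y p) x) := by
    intro i
    have e1 : (fun y => cA ε δ κ g y (vec p) i) = fun y => regA ε δ κ (lsq g y p) *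
        ∑ j, p j * (volDen g y * (g y)⁻¹ i j) := by
      funext y
      show volDen g y * regA ε δ κ (lsq g y p) * raise g y p i = _
      unfold raise
      rw [Finset.mul_sum, Finset.mul_sum]
      refine Finset.sum_congr rfl fun j _ => ?_
      ring
    have hsum : DifferentiableAt ℝ (fun y => ∑ j, p j * (volDen g y * (g y)⁻¹ i j)) x :=
      DifferentiableAt.fun_sum fun j _ => (hVG i j).const_mul _
    have hφ := regA_deriv ε δ κ (lsq g x p) hs0
    have hcomp : DifferentiableAt ℝ (fun y => regA ε δ κ (lsq g y p)) x :=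
      diff_comp (f := fun y => lsq g y p) hφ hSd
    rw [e1, pd_mul hcomp hsum, pd_comp (f := fun y => lsq g y p) hφ hSd, pd_sum _ (fun j _ => (hVG i j).const_mul _)]
    congr 1
    · congr 1
      exact Finset.sum_congr rfl fun j _ => pd_const_mul _ (hVG i j) i
    · congr 1
      unfold raise
      rw [Finset.mul_sum]
      refine Finset.sum_congr rfl fun j _ => ?_
      ring
  -- the derivatives in ξ
  have hlin : ∀ i, DifferentiableAt ℝ (fun ξ : E3 => volDen g x * raise g x ξ i) (vec p) := by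
    intro i
    unfold raise
    exact (DifferentiableAt.fun_sum fun l _ => (diff_coord l _).const_mul _).const_mul _
  have hraise : ∀ i j, pd j (fun ξ : E3 => volDen g x * raise g x ξ i) (vec p) =
      volDen g x * (g x)⁻¹ i j := by
    intro i j
    have hr : DifferentiableAt ℝ (fun ξ : E3 => raise g x ξ i) (vec p) := by
      unfold raise
      exact DifferentiableAt.fun_sum fun l _ => (diff_coord l _).const_mul _
    rw [pd_const_mul _ hr]
    congr 1
    unfold raise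
    rw [pd_sum _ (fun l _ => (diff_coord l _).const_mul _)]
    have e2 : ∀ l, pd j (fun ξ : E3 => (g x)⁻¹ i l * ξ l) (vec p) =
        (g x)⁻¹ i l * if l = j then 1 else 0 := by
      intro l
      rw [pd_const_mul _ (diff_coord l _), pd_coord]
    rw [Finset.sum_congr rfl fun l _ => e2 l]
    simp
  have hlsd : DifferentiableAt ℝ (fun ξ : E3 => lsq g x ξ) (vec p) := by
    unfold lsq ev
    exact DifferentiableAt.fun_sum fun k _ => DifferentiableAt.fun_sum fun l _ =>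
      ((diff_coord k _).const_mul _).mul (diff_coord l _)
  have hd2 : ∀ k l, DifferentiableAt ℝ (fun ξ : E3 => (g x)⁻¹ k l * ξ k * ξ l) (vec p) :=
    fun k l => diff_mul ((diff_coord k _).const_mul _) (diff_coord l _)
  have hls : ∀ j, pd j (fun ξ : E3 => lsq g x ξ) (vec p) = 2 * raise g x p j := by
    intro j
    unfold lsq ev
    rw [pd_sum _ (fun k _ => DifferentiableAt.fun_sum fun l _ => hd2 k l)]
    have e2 : ∀ k, pd j (fun ξ : E3 => ∑ l, (g x)⁻¹ k l * ξ k * ξ l) (vec p) =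
        ∑ l, ((g x)⁻¹ k l * p k * (if l = j then 1 else 0) +
          p l * ((g x)⁻¹ k l * if k = j then 1 else 0)) := by
      intro k
      rw [pd_sum _ (fun l _ => hd2 k l)]
      refine Finset.sum_congr rfl fun l _ => ?_
      rw [pd_mul ((diff_coord k _).const_mul _) (diff_coord l _), pd_coord,
        pd_const_mul _ (diff_coord k _), pd_coord]
    rw [Finset.sum_congr rfl fun k _ => e2 k]
    have s10 := hsy 1 0
    have s20 := hsy 2 0
    have s21 := hsy 2 1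
    fin_cases j <;> simp [raise, Fin.sum_univ_three, s10, s20, s21] <;> ring
  have hXi : ∀ i j, pd j (fun ξ => cA ε δ κ g x ξ i) (vec p) =
      volDen g x * (regA ε δ κ (lsq g x p) * (g x)⁻¹ i j +
        regD ε δ (lsq g x p) * raise g x p i * raise g x p j) := by
    intro i j
    have e1 : (fun ξ : E3 => cA ε δ κ g x ξ i) = fun ξ : E3 => regA ε δ κ (lsq g x ξ) *
        (volDen g x * raise g x ξ i) := by
      funext ξ
      show volDen g x * regA ε δ κ (lsq g x ξ) * raise g x ξ i = _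
      ring
    have hφ := regA_deriv ε δ κ (lsq g x p) hs0
    have hcomp : DifferentiableAt ℝ (fun ξ : E3 => regA ε δ κ (lsq g x ξ)) (vec p) :=
      diff_comp (f := fun ξ : E3 => lsq g x ξ) (x := vec p) hφ hlsd
    rw [e1, pd_mul hcomp (hlin i), hraise,
      pd_comp (f := fun ξ : E3 => lsq g x ξ) (x := vec p) hφ hlsd, hls]
    show regA ε δ κ (lsq g x p) * (volDen g x * (g x)⁻¹ i j) +
      volDen g x * raise g x p i * (regD ε δ (lsq g x p) / 2 * (2 * raise g x p j)) = _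
    ring
  -- the sum
  have hdiv : ∑ i, pd i (fun y => cA ε δ κ g y (vec p) i) x =
      regA ε δ κ (lsq g x p) * ∑ j, p j *
        -(volDen g x * ∑ k, ∑ l, (g x)⁻¹ k l * christoffel g j k l x) +
      ∑ i, (volDen g x * raise g x p i) * (regD ε δ (lsq g x p) / 2 *
        -(2 * ∑ m, ∑ k, christoffel g k i m x * p k * raise g x p m)) := by
    rw [Finset.sum_congr rfl fun i _ => hF i, Finset.sum_add_distrib, ← Finset.mul_sum,
      Finset.sum_comm]
    congr 1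
    · congr 1
      refine Finset.sum_congr rfl fun j _ => ?_
      rw [← Finset.mul_sum, hD]
    · exact Finset.sum_congr rfl fun i _ => by rw [hS]
  rw [hdiv]
  simp only [hXi]
  unfold opL trg cHess ev
  simp only [Matrix.of_apply]
  generalize regA ε δ κ (lsq g x p) = α
  generalize regD ε δ (lsq g x p) = β
  generalize volDen g x = V
  generalize raise g x p = u
  simp only [Fin.sum_univ_three]
  ring

end Pool.Agent.PFlow


end

section

/-!
# KLIM: growth and convergence of the coefficients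
-/

open MeasureTheory Filter Topology
open scoped ContDiff

namespace Pool.Agent.PFlow

open Pool.Agent.PenroseSph

namespace KLIM

lemma cA_eq (ε δ κ : ℝ) (g : TensorField) (x ξ : E3) :
    cA ε δ κ g x ξ = (volDen g x * regA ε δ κ (lsq g x ξ)) • vec (raise g x ξ) := by
  ext i
  simp [cA, vec]

lemma cA0_eq (ε : ℝ) (g : TensorField) (x ξ : E3) :
    cA0 ε g x ξ = (volDen g x * len g x ξ ^ (ε - 1)) • vec (raise g x ξ) := by
  ext i
  simp [cA0, vec]

lemma vol_nonneg (g : TensorField) (x : E3) : 0 ≤ volDen g x := Real.sqrt_nonneg _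

lemma abs_le_vec (p : Cov) (i : Fin 3) : |p i| ≤ ‖vec p‖ := by
  have h := PiLp.norm_apply_le (vec p) i
  simpa [vec] using h

lemma vec_coe (ξ : E3) : vec ξ = ξ := rfl

/-- bound of a bilinear form -/
lemma ev_bound {B : Bil} {C : ℝ} (hB : ∀ i j, |B i j| ≤ C) (v : Cov) :
    |ev B v v| ≤ 9 * C * ‖vec v‖ ^ 2 := by
  have hC : 0 ≤ C := (abs_nonneg _).trans (hB 0 0)
  unfold ev
  have h1 : ∀ i j, |B i j * v i * v j| ≤ C * ‖vec v‖ ^ 2 := by
    intro i j
    rw [abs_mul, abs_mul, mul_assoc, sq]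
    exact mul_le_mul (hB i j) (mul_le_mul (abs_le_vec v i) (abs_le_vec v j) (abs_nonneg _)
      (norm_nonneg _)) (by positivity) hC
  calc |∑ i, ∑ j, B i j * v i * v j| ≤ ∑ i, |∑ j, B i j * v i * v j| :=
        Finset.abs_sum_le_sum_abs _ _
    _ ≤ ∑ i : Fin 3, ∑ j : Fin 3, |B i j * v i * v j| :=
        Finset.sum_le_sum fun i _ => Finset.abs_sum_le_sum_abs _ _
    _ ≤ ∑ _i : Fin 3, ∑ _j : Fin 3, C * ‖vec v‖ ^ 2 :=
        Finset.sum_le_sum fun i _ => Finset.sum_le_sum fun j _ => h1 i j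
    _ = 9 * C * ‖vec v‖ ^ 2 := by
        simp only [Finset.sum_const, Finset.card_univ, Fintype.card_fin, nsmul_eq_mul]
        push_cast
        ring

/-- the power of the regularised length -/
lemma rpow_bound {C s t δ q : ℝ} (hC : 1 ≤ C) (ht : 0 < t) (hst : t ^ 2 ≤ C * s) (hq : q ≤ 0)
    (hq2 : -1 ≤ q) : (s + δ ^ 2) ^ q ≤ C * t ^ (2 * q) := by
  have hC0 : 0 < C := by linarith
  have hs : t ^ 2 / C ≤ s + δ ^ 2 := by
    rw [div_le_iff₀ hC0]
    nlinarith [mul_nonneg hC0.le (sq_nonneg δ)]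
  have h0 : 0 < t ^ 2 / C := by positivity
  calc (s + δ ^ 2) ^ q ≤ (t ^ 2 / C) ^ q := Real.rpow_le_rpow_of_nonpos h0 hs hq
    _ = t ^ (2 * q) * C ^ (-q) := by
        rw [Real.div_rpow (by positivity) hC0.le, Real.rpow_neg hC0.le, div_eq_mul_inv]
        congr 1
        rw [Real.rpow_mul ht.le]
        norm_num
    _ ≤ t ^ (2 * q) * C := by
        refine mul_le_mul_of_nonneg_left ?_ (Real.rpow_nonneg ht.le _)
        calc C ^ (-q) ≤ C ^ (1 : ℝ) := Real.rpow_le_rpow_of_exponent_le hC (by linarith)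
          _ = C := Real.rpow_one C
    _ = C * t ^ (2 * q) := mul_comm _ _

lemma raise_zero (g : TensorField) (x : E3) (i : Fin 3) : raise g x ((0 : E3) : Cov) i = 0 := by
  simp [raise]

lemma growth {ε : ℝ} {g h : TensorField} {C : ℝ} (h0 : 0 < ε) (h1 : ε < 1)
    (hC : GBound g h C) (hT : ∀ x, (g x).PosDef) (h2 : KTN) (δ κ : ℝ) (hκ : 0 < κ) (x ξ : E3) :
    ‖cA ε δ κ g x ξ‖ ≤ (18 * C ^ 5) * (‖ξ‖ ^ ε + κ * ‖ξ‖) ∧
      |cB ε δ g h x ξ| ≤ (18 * C ^ 5) * ‖ξ‖ ^ ε := by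
  have c1 := hC.one
  have c0 : 0 < C := by linarith
  have hC3 : C ^ 3 ≤ 18 * C ^ 5 := by
    have : C ^ 3 ≤ C ^ 5 := pow_le_pow_right₀ c1 (by norm_num)
    have : 0 ≤ C ^ 5 := by positivity
    linarith
  by_cases hξ : ξ = 0
  · rw [hξ]
    have e1 : cA ε δ κ g x 0 = 0 := by
      rw [cA_eq]
      have e3 : (vec (raise g x ((0 : E3) : Cov)) : E3) = 0 := by
        ext i
        simp [vec, raise]
      rw [e3, smul_zero]
    have e2 : cB ε δ g h x 0 = 0 := by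
      have : lsq g x ((0 : E3) : Cov) = 0 := by simp [lsq, ev]
      unfold cB
      rw [this]
      have : ev (h x) (raise g x ((0 : E3) : Cov)) (raise g x ((0 : E3) : Cov)) = 0 := by
        unfold ev
        refine Finset.sum_eq_zero fun i _ => Finset.sum_eq_zero fun j _ => ?_
        rw [raise_zero]
        ring
      rw [this]
      ring
    rw [e1, e2, norm_zero, abs_zero, Real.zero_rpow h0.ne']
    constructor <;> simp
  · have hn : 0 < ‖ξ‖ := norm_pos_iff.mpr hξ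
    have hlow : ‖ξ‖ ^ 2 ≤ C * lsq g x ξ := hC.low x ξ
    have hup : lsq g x ξ ≤ C * ‖ξ‖ ^ 2 := hC.up x ξ
    have hs : 0 ≤ lsq g x ξ := (h2 g x (hT x) ξ).1
    have hr : ‖vec (raise g x ξ)‖ ≤ C * ‖ξ‖ := hC.raise x ξ
    have hv := hC.volUp x
    have hv0 := vol_nonneg g x
    constructor
    · rw [cA_eq, norm_smul, Real.norm_eq_abs]
      have hb := rpow_bound (δ := δ) c1 hn hlow (q := (ε - 1) / 2) (by linarith) (by linarith)
      have hb' : 2 * ((ε - 1) / 2) = ε - 1 := by ring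
      rw [hb'] at hb
      have hreg0 : 0 ≤ regA ε δ κ (lsq g x ξ) := by
        unfold regA
        have : 0 ≤ (lsq g x ξ + δ ^ 2) ^ ((ε - 1) / 2) := Real.rpow_nonneg (by positivity) _
        linarith
      rw [abs_of_nonneg (mul_nonneg hv0 hreg0)]
      have hreg : regA ε δ κ (lsq g x ξ) ≤ C * ‖ξ‖ ^ (ε - 1) + κ := by
        unfold regA
        linarith
      have hpow : ‖ξ‖ ^ (ε - 1) * ‖ξ‖ = ‖ξ‖ ^ ε := by
        rw [Real.rpow_sub_one hn.ne']
        field_simp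
      calc volDen g x * regA ε δ κ (lsq g x ξ) * ‖vec (raise g x ξ)‖
          ≤ C * (C * ‖ξ‖ ^ (ε - 1) + κ) * (C * ‖ξ‖) := by
            refine mul_le_mul (mul_le_mul hv hreg hreg0 c0.le) hr (norm_nonneg _) ?_
            have : 0 ≤ ‖ξ‖ ^ (ε - 1) := Real.rpow_nonneg hn.le _
            positivity
        _ = C ^ 3 * (‖ξ‖ ^ (ε - 1) * ‖ξ‖) + C ^ 2 * (κ * ‖ξ‖) := by ring
        _ ≤ C ^ 3 * (‖ξ‖ ^ (ε - 1) * ‖ξ‖) + C ^ 3 * (κ * ‖ξ‖) := by
            have : C ^ 2 ≤ C ^ 3 := pow_le_pow_right₀ c1 (by norm_num)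
            have h3 : 0 ≤ κ * ‖ξ‖ := by positivity
            have := mul_le_mul_of_nonneg_right this h3
            linarith
        _ = C ^ 3 * (‖ξ‖ ^ ε + κ * ‖ξ‖) := by rw [hpow]; ring
        _ ≤ (18 * C ^ 5) * (‖ξ‖ ^ ε + κ * ‖ξ‖) := by
            refine mul_le_mul_of_nonneg_right hC3 ?_
            have : 0 ≤ ‖ξ‖ ^ ε := Real.rpow_nonneg hn.le _
            positivity
    · have hb := rpow_bound (δ := δ) c1 hn hlow (q := (ε - 2) / 2) (by linarith) (by linarith)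
      have hb' : 2 * ((ε - 2) / 2) = ε - 2 := by ring
      rw [hb'] at hb
      have hb0 : 0 ≤ (lsq g x ξ + δ ^ 2) ^ ((ε - 2) / 2) := Real.rpow_nonneg (by positivity) _
      have htr : |trg g x (h x)| ≤ 9 * C ^ 2 := by
        refine (hC.tr x (h x)).trans ?_
        have h3 : ∑ i : Fin 3, ∑ j : Fin 3, |h x i j| ≤ ∑ _i : Fin 3, ∑ _j : Fin 3, C :=
          Finset.sum_le_sum fun i _ => Finset.sum_le_sum fun j _ => hC.hh x i j
        have h4 : ∑ _i : Fin 3, ∑ _j : Fin 3, C = 9 * C := by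
          simp only [Finset.sum_const, Finset.card_univ, Fintype.card_fin, nsmul_eq_mul]
          push_cast
          ring
        rw [h4] at h3
        calc C * ∑ i : Fin 3, ∑ j : Fin 3, |h x i j| ≤ C * (9 * C) :=
              mul_le_mul_of_nonneg_left h3 c0.le
          _ = 9 * C ^ 2 := by ring
      have hev : |ev (h x) (raise g x ξ) (raise g x ξ)| ≤ 9 * C ^ 3 * ‖ξ‖ ^ 2 := by
        refine (ev_bound (hC.hh x) _).trans ?_
        calc 9 * C * ‖vec (raise g x ξ)‖ ^ 2 ≤ 9 * C * (C * ‖ξ‖) ^ 2 := by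
              refine mul_le_mul_of_nonneg_left ?_ (by positivity)
              exact pow_le_pow_left₀ (norm_nonneg _) hr 2
          _ = 9 * C ^ 3 * ‖ξ‖ ^ 2 := by ring
      have hin : |lsq g x ξ * trg g x (h x) -
          (1 - ε) * ev (h x) (raise g x ξ) (raise g x ξ)| ≤ 18 * C ^ 3 * ‖ξ‖ ^ 2 := by
        calc |lsq g x ξ * trg g x (h x) - (1 - ε) * ev (h x) (raise g x ξ) (raise g x ξ)|
            ≤ |lsq g x ξ * trg g x (h x)| +
              |(1 - ε) * ev (h x) (raise g x ξ) (raise g x ξ)| := abs_sub _ _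
          _ ≤ C * ‖ξ‖ ^ 2 * (9 * C ^ 2) + 1 * (9 * C ^ 3 * ‖ξ‖ ^ 2) := by
              rw [abs_mul, abs_mul, abs_of_nonneg hs]
              refine add_le_add ?_ ?_
              · exact mul_le_mul hup htr (abs_nonneg _) (by positivity)
              · refine mul_le_mul ?_ hev (abs_nonneg _) (by norm_num)
                rw [abs_of_nonneg (by linarith)]
                linarith
          _ = 18 * C ^ 3 * ‖ξ‖ ^ 2 := by ring
      have hpow : ‖ξ‖ ^ (ε - 2) * ‖ξ‖ ^ 2 = ‖ξ‖ ^ ε := by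
        rw [Real.rpow_sub hn]
        norm_num
        field_simp
      unfold cB
      rw [abs_mul, abs_mul, abs_of_nonneg hv0, abs_of_nonneg hb0]
      calc volDen g x * (lsq g x ξ + δ ^ 2) ^ ((ε - 2) / 2) *
            |lsq g x ξ * trg g x (h x) - (1 - ε) * ev (h x) (raise g x ξ) (raise g x ξ)|
          ≤ C * (C * ‖ξ‖ ^ (ε - 2)) * (18 * C ^ 3 * ‖ξ‖ ^ 2) := by
            refine mul_le_mul (mul_le_mul hv hb hb0 c0.le) hin (abs_nonneg _) ?_
            have : 0 ≤ ‖ξ‖ ^ (ε - 2) := Real.rpow_nonneg hn.le _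
            positivity
        _ = 18 * C ^ 5 * (‖ξ‖ ^ (ε - 2) * ‖ξ‖ ^ 2) := by ring
        _ = 18 * C ^ 5 * ‖ξ‖ ^ ε := by rw [hpow]

lemma raise_cont (g : TensorField) (x : E3) (i : Fin 3) :
    Continuous (fun ξ : E3 => raise g x ξ i) := by
  unfold raise
  fun_prop

lemma lsq_cont (g : TensorField) (x : E3) : Continuous (fun ξ : E3 => lsq g x ξ) := by
  unfold lsq ev
  fun_prop

lemma evr_cont (g h : TensorField) (x : E3) :
    Continuous (fun ξ : E3 => ev (h x) (raise g x ξ) (raise g x ξ)) := by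
  unfold ev
  refine continuous_finset_sum _ fun i _ => continuous_finset_sum _ fun j _ => ?_
  exact (continuous_const.mul (raise_cont g x i)).mul (raise_cont g x j)

lemma vec_cont (g : TensorField) (x : E3) :
    Continuous (fun ξ : E3 => (vec (raise g x ξ) : E3)) := by
  refine (PiLp.continuous_toLp 2 _).comp ?_
  exact continuous_pi fun i => raise_cont g x i

end KLIM

open KLIM in
/-- KLIM: growth and convergence of the coefficients. -/
theorem KLIM_thm (h1 : KBND) (h2 : KTN) : KLIM := by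
  intro ε g h r hε0 hε1 hG
  obtain ⟨C, hC⟩ := h1 g h r hG
  have c1 := hC.one
  have hT : ∀ x, (g x).PosDef := fun x => hG.met.posDef x trivial
  refine ⟨⟨18 * C ^ 5, by positivity, ?_⟩, ?_⟩
  · intro δ κ _ _ hκ _ x ξ
    exact growth hε0 hε1 hC hT h2 δ κ hκ x ξ
  · intro x δ κ ξ ξ₀ hδ hκ hδ0 hκ0 hξ
    by_cases h0 : ξ₀ = 0
    · rw [h0] at hξ ⊢
      have hn : Tendsto (fun n => ‖ξ n‖) atTop (𝓝 0) := by
        have := hξ.norm
        rwa [norm_zero] at this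
      have hn2 : Tendsto (fun n => ‖ξ n‖ ^ ε) atTop (𝓝 0) := by
        have := hn.rpow_const (p := ε) (Or.inr hε0.le)
        rwa [Real.zero_rpow hε0.ne'] at this
      have e1 : cA0 ε g x 0 = 0 := by
        rw [cA0_eq]
        have e3 : (vec (raise g x ((0 : E3) : Cov)) : E3) = 0 := by
          ext i
          simp [vec, raise]
        rw [e3, smul_zero]
      have e2 : cB0 ε g h x 0 = 0 := by
        have : len g x ((0 : E3) : Cov) = 0 := by simp [len, ev]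
        unfold cB0
        rw [this, Real.zero_rpow hε0.ne']
        ring
      rw [e1, e2]
      constructor
      · rw [tendsto_zero_iff_norm_tendsto_zero]
        refine squeeze_zero (fun n => norm_nonneg _)
          (fun n => (growth hε0 hε1 hC hT h2 (δ n) (κ n) (hκ n) x (ξ n)).1) ?_
        have := ((hn2.add (hκ0.mul hn)).const_mul (18 * C ^ 5))
        simpa using this
      · rw [tendsto_zero_iff_norm_tendsto_zero]
        refine squeeze_zero (fun n => norm_nonneg _)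
          (fun n => (growth hε0 hε1 hC hT h2 (δ n) (κ n) (hκ n) x (ξ n)).2) ?_
        have := hn2.const_mul (18 * C ^ 5)
        simpa using this
    · have hp0 : (ξ₀ : Cov) ≠ 0 := by
        intro h3
        apply h0
        ext i
        exact congrFun h3 i
      obtain ⟨k1, k2, k3, _, _, _, _, k8⟩ := h2 g x (hT x) (ξ₀ : Cov)
      have hs0 := k2 hp0
      have hs : Tendsto (fun n => lsq g x (ξ n)) atTop (𝓝 (lsq g x ξ₀)) :=
        ((lsq_cont g x).tendsto ξ₀).comp hξ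
      have hsd : Tendsto (fun n => lsq g x (ξ n) + δ n ^ 2) atTop (𝓝 (lsq g x ξ₀)) := by
        have := hs.add (hδ0.pow 2)
        simpa using this
      have hpow : ∀ q : ℝ, Tendsto (fun n => (lsq g x (ξ n) + δ n ^ 2) ^ q) atTop
          (𝓝 (lsq g x ξ₀ ^ q)) := fun q => hsd.rpow_const (Or.inl hs0.ne')
      have hlen : len g x ξ₀ = lsq g x ξ₀ ^ (1 / 2 : ℝ) := by
        unfold len lsq
        rw [Real.sqrt_eq_rpow]
      constructor
      · have e1 : (fun n => cA ε (δ n) (κ n) g x (ξ n)) = fun n =>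
            (volDen g x * regA ε (δ n) (κ n) (lsq g x (ξ n))) • vec (raise g x (ξ n)) := by
          funext n
          exact cA_eq _ _ _ _ _ _
        rw [e1, cA0_eq]
        have hreg : Tendsto (fun n => regA ε (δ n) (κ n) (lsq g x (ξ n))) atTop
            (𝓝 (len g x ξ₀ ^ (ε - 1))) := by
          have e2 : len g x ξ₀ ^ (ε - 1) = lsq g x ξ₀ ^ ((ε - 1) / 2) + 0 := by
            rw [hlen, ← Real.rpow_mul hs0.le, add_zero]
            congr 1
            ring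
          rw [e2]
          unfold regA
          exact (hpow _).add hκ0
        exact (hreg.const_mul _).smul (((vec_cont g x).tendsto ξ₀).comp hξ)
      · have e2 : cB0 ε g h x ξ₀ = volDen g x * lsq g x ξ₀ ^ ((ε - 2) / 2) *
            (lsq g x ξ₀ * trg g x (h x) -
              (1 - ε) * ev (h x) (raise g x ξ₀) (raise g x ξ₀)) := by
          unfold cB0 beps
          rw [k8 hp0, hlen, ← Real.rpow_mul hs0.le]
          have e3 : lsq g x ξ₀ ^ (1 / 2 * ε) = lsq g x ξ₀ ^ ((ε - 2) / 2) * lsq g x ξ₀ := by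
            rw [← Real.rpow_add_one hs0.ne']
            congr 1
            ring
          rw [e3]
          field_simp
        rw [e2]
        unfold cB
        refine ((hpow _).const_mul _).mul ?_
        refine (hs.mul_const _).sub (Tendsto.const_mul _ ?_)
        exact ((evr_cont g h x).tendsto ξ₀).comp hξ

end Pool.Agent.PFlow


end

section

/-!
# KLIMU: bounds and limits of the nondivergence coefficients
-/

open MeasureTheory Filter Topology
open scoped ContDiff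

namespace Pool.Agent.PFlow

open Pool.Agent.PenroseSph

namespace KLIMU

/-! ### The weights -/

theorem regA_pos {ε δ κ s : ℝ} (hs : 0 ≤ s) (hδ : 0 < δ) (hκ : 0 < κ) : 0 < regA ε δ κ s := by
  unfold regA
  have h1 : 0 < s + δ ^ 2 := by positivity
  have h2 := Real.rpow_pos_of_pos h1 ((ε - 1) / 2)
  linarith

theorem rpow_mul_self {t : ℝ} (ht : 0 < t) (ε : ℝ) :
    t ^ ((ε - 3) / 2) * t = t ^ ((ε - 1) / 2) := by
  conv_lhs =>
    rw [← Real.rpow_one t]
  rw [Real.rpow_one, ← Real.rpow_add_one ht.ne']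
  congr 1
  ring

theorem D_bound {ε δ κ s : ℝ} (h0 : 0 < ε) (h1 : ε < 1) (hs : 0 ≤ s) (hδ : 0 < δ) (hκ : 0 < κ) :
    |regD ε δ s| * s ≤ regA ε δ κ s := by
  have ht : 0 < s + δ ^ 2 := by positivity
  have h2 := rpow_mul_self ht ε
  have h3 : 0 < (s + δ ^ 2) ^ ((ε - 3) / 2) := Real.rpow_pos_of_pos ht _
  have h4 : 0 < (s + δ ^ 2) ^ ((ε - 1) / 2) := Real.rpow_pos_of_pos ht _
  unfold regD regA
  rw [abs_mul, abs_of_pos h3, abs_of_nonpos (by linarith)]
  have h5 : (s + δ ^ 2) ^ ((ε - 3) / 2) * s ≤ (s + δ ^ 2) ^ ((ε - 1) / 2) := by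
    rw [← h2]
    exact mul_le_mul_of_nonneg_left (by nlinarith) h3.le
  have h6 : 0 ≤ (s + δ ^ 2) ^ ((ε - 3) / 2) * s := by positivity
  nlinarith

/-- `(s+δ²)^((ε-2)/2) s ≤ √s α(s)` -/
theorem B_bound {ε δ κ s : ℝ} (hs : 0 ≤ s) (hδ : 0 < δ) (hκ : 0 < κ) :
    (s + δ ^ 2) ^ ((ε - 2) / 2) * s ≤ Real.sqrt s * regA ε δ κ s := by
  have ht : 0 < s + δ ^ 2 := by positivity
  have h4 : 0 < (s + δ ^ 2) ^ ((ε - 1) / 2) := Real.rpow_pos_of_pos ht _
  have h3 : 0 < (s + δ ^ 2) ^ ((ε - 2) / 2) := Real.rpow_pos_of_pos ht _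
  have h5 : (s + δ ^ 2) ^ ((ε - 2) / 2) * Real.sqrt (s + δ ^ 2) = (s + δ ^ 2) ^ ((ε - 1) / 2) := by
    rw [Real.sqrt_eq_rpow, ← Real.rpow_add ht]
    congr 1
    ring
  have h6 : Real.sqrt s * Real.sqrt s = s := Real.mul_self_sqrt hs
  have h7 : Real.sqrt s ≤ Real.sqrt (s + δ ^ 2) := Real.sqrt_le_sqrt (by nlinarith)
  have h8 := Real.sqrt_nonneg s
  calc (s + δ ^ 2) ^ ((ε - 2) / 2) * s
      = Real.sqrt s * ((s + δ ^ 2) ^ ((ε - 2) / 2) * Real.sqrt s) := by
        rw [mul_left_comm, h6]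
    _ ≤ Real.sqrt s * ((s + δ ^ 2) ^ ((ε - 2) / 2) * Real.sqrt (s + δ ^ 2)) := by
        apply mul_le_mul_of_nonneg_left _ h8
        exact mul_le_mul_of_nonneg_left h7 h3.le
    _ = Real.sqrt s * (s + δ ^ 2) ^ ((ε - 1) / 2) := by rw [h5]
    _ ≤ Real.sqrt s * regA ε δ κ s := by
        apply mul_le_mul_of_nonneg_left _ h8
        unfold regA
        linarith

/-- `1/α ≤ 2 + √s` -/
theorem inv_bound {ε δ κ s : ℝ} (h0 : 0 < ε) (h1 : ε < 1) (hs : 0 ≤ s) (hδ : 0 < δ) (hδ1 : δ ≤ 1)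
    (hκ : 0 < κ) : 1 / regA ε δ κ s ≤ 2 + Real.sqrt s := by
  have ht : 0 < s + δ ^ 2 := by positivity
  have h4 : 0 < (s + δ ^ 2) ^ ((ε - 1) / 2) := Real.rpow_pos_of_pos ht _
  have h5 : 1 / regA ε δ κ s ≤ 1 / (s + δ ^ 2) ^ ((ε - 1) / 2) := by
    apply one_div_le_one_div_of_le h4
    unfold regA
    linarith
  have h6 : 1 / (s + δ ^ 2) ^ ((ε - 1) / 2) = (s + δ ^ 2) ^ ((1 - ε) / 2) := by
    rw [one_div, ← Real.rpow_neg ht.le]
    congr 1
    ring
  have h7 : (s + δ ^ 2) ^ ((1 - ε) / 2) ≤ (s + 2) ^ ((1 - ε) / 2) := by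
    apply Real.rpow_le_rpow ht.le _ (by linarith)
    nlinarith
  have h8 : (s + 2) ^ ((1 - ε) / 2) ≤ (s + 2) ^ ((1 : ℝ) / 2) := by
    apply Real.rpow_le_rpow_of_exponent_le (by linarith)
    linarith
  have h9 : (s + 2) ^ ((1 : ℝ) / 2) ≤ 2 + Real.sqrt s := by
    rw [← Real.sqrt_eq_rpow]
    apply Real.sqrt_le_iff.2
    have h10 := Real.sqrt_nonneg s
    have h11 := Real.mul_self_sqrt hs
    constructor
    · linarith
    · nlinarith
  rw [h6] at h5
  linarith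

/-! ### Matrices -/

theorem entry_le (B : Bil) (i j : Fin 3) : |B i j| ≤ ∑ i, ∑ j, |B i j| := by
  have h1 : |B i j| ≤ ∑ j, |B i j| :=
    Finset.single_le_sum (f := fun j => |B i j|) (fun j _ => abs_nonneg _) (Finset.mem_univ j)
  have h2 : ∑ j, |B i j| ≤ ∑ i, ∑ j, |B i j| :=
    Finset.single_le_sum (f := fun i => ∑ j, |B i j|)
      (fun i _ => Finset.sum_nonneg fun j _ => abs_nonneg _) (Finset.mem_univ i)
  linarith

theorem sum_nonneg' (B : Bil) : 0 ≤ ∑ i, ∑ j, |B i j| :=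
  Finset.sum_nonneg fun i _ => Finset.sum_nonneg fun j _ => abs_nonneg _

theorem sum_sq_le (B : Bil) : ∑ i, ∑ j, B i j ^ 2 ≤ (∑ i, ∑ j, |B i j|) ^ 2 := by
  have h1 : ∀ i j, B i j ^ 2 ≤ |B i j| * ∑ i, ∑ j, |B i j| := by
    intro i j
    rw [← sq_abs, pow_two]
    exact mul_le_mul_of_nonneg_left (entry_le B i j) (abs_nonneg _)
  calc ∑ i, ∑ j, B i j ^ 2 ≤ ∑ i, ∑ j, |B i j| * ∑ i, ∑ j, |B i j| :=
        Finset.sum_le_sum fun i _ => Finset.sum_le_sum fun j _ => h1 i j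
    _ = (∑ i, ∑ j, |B i j|) ^ 2 := by
        simp only [← Finset.sum_mul]
        ring

section pt

variable {g h : TensorField} {C : ℝ}

theorem ev_le (h2 : KTN) (hB : GBound g h C) {x : E3} (hx : (g x).PosDef) (p : Cov) (B : Bil) :
    |ev B (raise g x p) (raise g x p)| ≤ lsq g x p * (C * ∑ i, ∑ j, |B i j|) := by
  obtain ⟨k1, -, -, -, -, k6, -, -⟩ := h2 g x hx p
  have hC := hB.one
  have hS := sum_nonneg' B
  apply abs_le_of_sq_le_sq _ (mul_nonneg k1 (mul_nonneg (by linarith) hS))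
  have h3 := k6 B
  have h4 := hB.nsqUp x B
  have h5 := sum_sq_le B
  have h6 : nsq g x B ≤ (C * ∑ i, ∑ j, |B i j|) ^ 2 := by
    have h7 : C * ∑ i, ∑ j, B i j ^ 2 ≤ C * (∑ i, ∑ j, |B i j|) ^ 2 :=
      mul_le_mul_of_nonneg_left h5 (by linarith)
    have h8 : C * (∑ i, ∑ j, |B i j|) ^ 2 ≤ C ^ 2 * (∑ i, ∑ j, |B i j|) ^ 2 :=
      mul_le_mul_of_nonneg_right (by nlinarith) (sq_nonneg _)
    rw [mul_pow]
    linarith
  rw [mul_pow]
  exact h3.trans (mul_le_mul_of_nonneg_left h6 (sq_nonneg _))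

theorem coord_le (ξ : E3) (k : Fin 3) : |ξ k| ≤ ‖ξ‖ := by
  have := PiLp.norm_apply_le ξ k
  rwa [Real.norm_eq_abs] at this

theorem cHess_le (hB : GBound g h C) (x ξ : E3) (M : Bil) :
    ∑ i, ∑ j, |cHess g x ξ M i j| ≤ (∑ i, ∑ j, |M i j|) + 27 * C * ‖ξ‖ := by
  have hC := hB.one
  have h1 : ∀ i j, |cHess g x ξ M i j| ≤ |M i j| + 3 * C * ‖ξ‖ := by
    intro i j
    have h2 : cHess g x ξ M i j = M i j - ∑ k, christoffel g k i j x * ξ k := rfl
    rw [h2]
    have h3 : |∑ k, christoffel g k i j x * ξ k| ≤ 3 * C * ‖ξ‖ := by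
      have h4 : ∀ k ∈ (Finset.univ : Finset (Fin 3)), |christoffel g k i j x * ξ k| ≤ C * ‖ξ‖ := by
        intro k _
        rw [abs_mul]
        exact mul_le_mul (hB.chr x k i j) (coord_le ξ k) (abs_nonneg _) (by linarith)
      refine (Finset.abs_sum_le_sum_abs _ _).trans ((Finset.sum_le_sum h4).trans ?_)
      simp
      linarith
    exact (abs_sub _ _).trans (by linarith)
  refine (Finset.sum_le_sum fun i _ => Finset.sum_le_sum fun j _ => h1 i j).trans ?_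
  simp only [Finset.sum_add_distrib]
  simp
  linarith

theorem h_le (hB : GBound g h C) (x : E3) : ∑ i, ∑ j, |h x i j| ≤ 9 * C := by
  refine (Finset.sum_le_sum fun i _ => Finset.sum_le_sum fun j _ => hB.hh x i j).trans ?_
  simp
  linarith

theorem sqrt_le (hB : GBound g h C) (x ξ : E3) :
    Real.sqrt (lsq g x ξ) ≤ C * ‖ξ‖ := by
  have hC := hB.one
  have h3 : lsq g x ξ ≤ C * ‖ξ‖ ^ 2 := hB.up x ξ
  apply Real.sqrt_le_iff.2
  constructor
  · positivity
  · have h4 : 0 ≤ ‖ξ‖ ^ 2 := sq_nonneg _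
    nlinarith

end pt

end KLIMU

open KLIMU in
theorem KLIMU_thm (h1 : KBND) (h2 : KTN) : KLIMU := by
  intro ε g h r hε0 hε1 hG
  obtain ⟨C, hB⟩ := h1 g h r hG
  have hC := hB.one
  have hpd : ∀ x, (g x).PosDef := fun x => hG.met.posDef x (Set.mem_univ x)
  have hC3 : 1 ≤ C ^ 3 := one_le_pow₀ hC
  have hC34 : C ^ 3 ≤ C ^ 4 := by
    rw [pow_succ C 3]
    nlinarith
  refine ⟨⟨54 * C ^ 4, by positivity, ?_⟩, ?_⟩
  · intro δ κ hδ hδ1 hκ hκ1 x ξ M
    have hs : 0 ≤ lsq g x ξ := (h2 g x (hpd x) ξ).1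
    have hA := regA_pos (ε := ε) hs hδ hκ
    have hvol0 : 0 ≤ volDen g x := Real.sqrt_nonneg _
    have hvol := hB.volUp x
    have hn := norm_nonneg ξ
    have hM := sum_nonneg' M
    refine ⟨?_, ?_, ?_⟩
    · set H := cHess g x ξ M with hH
      have hSH := cHess_le hB x ξ M
      rw [← hH] at hSH
      have hSH0 := sum_nonneg' H
      have e1 : opL ε δ κ g x ξ M / regA ε δ κ (lsq g x ξ) = volDen g x * (trg g x H +
          regD ε δ (lsq g x ξ) / regA ε δ κ (lsq g x ξ) * ev H (raise g x ξ) (raise g x ξ)) := by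
        unfold opL
        rw [← hH]
        field_simp
      have e2 : |regD ε δ (lsq g x ξ) / regA ε δ κ (lsq g x ξ) *
          ev H (raise g x ξ) (raise g x ξ)| ≤ C * ∑ i, ∑ j, |H i j| := by
        rw [abs_mul, abs_div, abs_of_pos hA, div_mul_eq_mul_div, div_le_iff₀ hA]
        have e3 := ev_le h2 hB (hpd x) ξ H
        have e4 := D_bound hε0 hε1 hs hδ hκ
        calc |regD ε δ (lsq g x ξ)| * |ev H (raise g x ξ) (raise g x ξ)|
            ≤ |regD ε δ (lsq g x ξ)| * (lsq g x ξ * (C * ∑ i, ∑ j, |H i j|)) :=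
              mul_le_mul_of_nonneg_left e3 (abs_nonneg _)
          _ = (|regD ε δ (lsq g x ξ)| * lsq g x ξ) * (C * ∑ i, ∑ j, |H i j|) := by ring
          _ ≤ regA ε δ κ (lsq g x ξ) * (C * ∑ i, ∑ j, |H i j|) :=
              mul_le_mul_of_nonneg_right e4 (mul_nonneg (by linarith) hSH0)
          _ = _ := by ring
      have e5 := hB.tr x H
      rw [e1, abs_mul, abs_of_nonneg hvol0]
      have e6 : |trg g x H + regD ε δ (lsq g x ξ) / regA ε δ κ (lsq g x ξ) *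
          ev H (raise g x ξ) (raise g x ξ)| ≤ 2 * (C * ∑ i, ∑ j, |H i j|) :=
        (abs_add_le _ _).trans (by linarith)
      calc volDen g x * |trg g x H + regD ε δ (lsq g x ξ) / regA ε δ κ (lsq g x ξ) *
          ev H (raise g x ξ) (raise g x ξ)| ≤ C * (2 * (C * ∑ i, ∑ j, |H i j|)) :=
            mul_le_mul hvol e6 (abs_nonneg _) (by linarith)
        _ ≤ C * (2 * (C * ((∑ i, ∑ j, |M i j|) + 27 * C * ‖ξ‖))) := by gcongr
        _ = 54 * C ^ 3 * ‖ξ‖ + 2 * C ^ 2 * ∑ i, ∑ j, |M i j| := by ring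
        _ ≤ 54 * C ^ 4 * ‖ξ‖ + 54 * C ^ 4 * ∑ i, ∑ j, |M i j| := by
            have e7 : 2 * C ^ 2 ≤ 54 * C ^ 4 := by nlinarith [sq_nonneg C]
            gcongr
        _ = _ := by ring
    · have hS := h_le hB x
      have hS0 := sum_nonneg' (h x)
      have e3 := ev_le h2 hB (hpd x) ξ (h x)
      have e5 := hB.tr x (h x)
      have e8 := B_bound (ε := ε) hs hδ hκ
      have ht : 0 < lsq g x ξ + δ ^ 2 := by positivity
      have h3 : 0 < (lsq g x ξ + δ ^ 2) ^ ((ε - 2) / 2) := Real.rpow_pos_of_pos ht _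
      have e4 : |lsq g x ξ * trg g x (h x) - (1 - ε) * ev (h x) (raise g x ξ) (raise g x ξ)| ≤
          lsq g x ξ * (2 * (C * (9 * C))) := by
        refine (abs_sub _ _).trans ?_
        rw [abs_mul, abs_mul, abs_of_nonneg hs, abs_of_nonneg (by linarith : 0 ≤ 1 - ε)]
        have e6 : C * ∑ i, ∑ j, |h x i j| ≤ C * (9 * C) :=
          mul_le_mul_of_nonneg_left hS (by linarith)
        have e7 : lsq g x ξ * |trg g x (h x)| ≤ lsq g x ξ * (C * (9 * C)) :=
          mul_le_mul_of_nonneg_left (e5.trans e6) hs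
        have e9 : (1 - ε) * |ev (h x) (raise g x ξ) (raise g x ξ)| ≤
            lsq g x ξ * (C * (9 * C)) := by
          have e10 := mul_le_mul_of_nonneg_left e6 hs
          have e11 := abs_nonneg (ev (h x) (raise g x ξ) (raise g x ξ))
          nlinarith
        linarith
      have e12 := sqrt_le hB x ξ
      rw [abs_div, abs_of_pos hA, div_le_iff₀ hA]
      unfold cB
      rw [abs_mul, abs_mul, abs_of_nonneg hvol0, abs_of_pos h3]
      calc volDen g x * (lsq g x ξ + δ ^ 2) ^ ((ε - 2) / 2) *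
          |lsq g x ξ * trg g x (h x) - (1 - ε) * ev (h x) (raise g x ξ) (raise g x ξ)|
          ≤ C * (lsq g x ξ + δ ^ 2) ^ ((ε - 2) / 2) * (lsq g x ξ * (2 * (C * (9 * C)))) := by
            gcongr
        _ = 18 * C ^ 3 * ((lsq g x ξ + δ ^ 2) ^ ((ε - 2) / 2) * lsq g x ξ) := by ring
        _ ≤ 18 * C ^ 3 * (Real.sqrt (lsq g x ξ) * regA ε δ κ (lsq g x ξ)) := by gcongr
        _ ≤ 18 * C ^ 3 * (C * ‖ξ‖ * regA ε δ κ (lsq g x ξ)) := by gcongr
        _ = 18 * (C ^ 4 * ‖ξ‖ * regA ε δ κ (lsq g x ξ)) := by ring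
        _ ≤ 54 * (C ^ 4 * ‖ξ‖ * regA ε δ κ (lsq g x ξ)) := by
            have e13 : 0 ≤ C ^ 4 * ‖ξ‖ * regA ε δ κ (lsq g x ξ) := by positivity
            linarith
        _ = _ := by ring
    · have e1 := inv_bound hε0 hε1 hs hδ hδ1 hκ
      have e2 := sqrt_le hB x ξ
      have e3 : C ≤ C ^ 4 := by
        have : C * 1 ≤ C * C ^ 3 := mul_le_mul_of_nonneg_left hC3 (by linarith)
        nlinarith
      have e4 : C * ‖ξ‖ ≤ C ^ 4 * ‖ξ‖ := mul_le_mul_of_nonneg_right e3 hn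
      nlinarith
  · intro x δ κ ξ ξ₀ hδ hκ hδ0 hκ0 hξ hξ0
    have hξ0' : (ξ₀ : Cov) ≠ 0 := by
      intro h0
      apply hξ0
      ext i
      exact congrFun h0 i
    obtain ⟨-, k2, k3, -, -, -, -, k8⟩ := h2 g x (hpd x) ξ₀
    have hs0 := k2 hξ0'
    have hbn := k8 hξ0'
    -- continuity in `ξ`
    have c1 : Tendsto (fun n => lsq g x (ξ n)) atTop (𝓝 (lsq g x ξ₀)) := by
      have : Continuous fun ξ : E3 => lsq g x ξ := by
        unfold lsq ev
        fun_prop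
      exact (this.tendsto ξ₀).comp hξ
    have c2 : ∀ B : E3 → Bil, (∀ i j, Continuous fun ξ => B ξ i j) →
        Tendsto (fun n => ev (B (ξ n)) (raise g x (ξ n)) (raise g x (ξ n))) atTop
          (𝓝 (ev (B ξ₀) (raise g x ξ₀) (raise g x ξ₀))) := by
      intro B hBc
      have : Continuous fun ξ : E3 => ev (B ξ) (raise g x ξ) (raise g x ξ) := by
        unfold ev raise
        fun_prop
      exact (this.tendsto ξ₀).comp hξ
    have c3 : ∀ M : Bil, ∀ i j, Continuous fun ξ : E3 => cHess g x ξ M i j := by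
      intro M i j
      have e : (fun ξ : E3 => cHess g x ξ M i j) =
          fun ξ : E3 => M i j - ∑ k, christoffel g k i j x * ξ k := rfl
      rw [e]
      fun_prop
    have c4 : ∀ M : Bil, Tendsto (fun n => trg g x (cHess g x (ξ n) M)) atTop
        (𝓝 (trg g x (cHess g x ξ₀ M))) := by
      intro M
      have hc := c3 M
      have : Continuous fun ξ : E3 => trg g x (cHess g x ξ M) := by
        unfold trg
        fun_prop
      exact (this.tendsto ξ₀).comp hξ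
    have c5 : Tendsto (fun n => lsq g x (ξ n) + δ n ^ 2) atTop (𝓝 (lsq g x ξ₀)) := by
      have := c1.add (hδ0.pow 2)
      simpa using this
    have c6 : ∀ q : ℝ, Tendsto (fun n => (lsq g x (ξ n) + δ n ^ 2) ^ q) atTop
        (𝓝 (lsq g x ξ₀ ^ q)) := fun q => c5.rpow_const (Or.inl hs0.ne')
    have c7 : Tendsto (fun n => regA ε (δ n) (κ n) (lsq g x (ξ n))) atTop
        (𝓝 (lsq g x ξ₀ ^ ((ε - 1) / 2))) := by
      have := (c6 ((ε - 1) / 2)).add hκ0
      simpa [regA] using this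
    have c8 : Tendsto (fun n => regD ε (δ n) (lsq g x (ξ n))) atTop
        (𝓝 ((ε - 1) * lsq g x ξ₀ ^ ((ε - 3) / 2))) := (c6 ((ε - 3) / 2)).const_mul (ε - 1)
    have hA0 : 0 < lsq g x ξ₀ ^ ((ε - 1) / 2) := Real.rpow_pos_of_pos hs0 _
    have hmul := rpow_mul_self hs0 ε
    refine ⟨?_, ?_⟩
    · intro M
      have c9 := ((((c7.mul (c4 M)).add (c8.mul (c2 (fun ξ => cHess g x ξ M) (c3 M)))).const_mul
        (volDen g x)).div c7 hA0.ne')
      have e : volDen g x * (lsq g x ξ₀ ^ ((ε - 1) / 2) * trg g x (cHess g x ξ₀ M) +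
          (ε - 1) * lsq g x ξ₀ ^ ((ε - 3) / 2) *
            ev (cHess g x ξ₀ M) (raise g x ξ₀) (raise g x ξ₀)) / lsq g x ξ₀ ^ ((ε - 1) / 2) =
          volDen g x * beps ε g x ξ₀ (cHess g x ξ₀ M) := by
        unfold beps
        rw [hbn, ← hmul]
        have hD0 : 0 < lsq g x ξ₀ ^ ((ε - 3) / 2) := Real.rpow_pos_of_pos hs0 _
        field_simp
        ring
      rw [← e]
      exact c9
    · have c9 := ((((c6 ((ε - 2) / 2)).const_mul (volDen g x)).mul
        ((c1.mul_const (trg g x (h x))).sub ((c2 (fun _ => h x)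
          (fun i j => continuous_const)).const_mul (1 - ε)))).div c7 hA0.ne')
      have e : volDen g x * lsq g x ξ₀ ^ ((ε - 2) / 2) * (lsq g x ξ₀ * trg g x (h x) -
          (1 - ε) * ev (h x) (raise g x ξ₀) (raise g x ξ₀)) / lsq g x ξ₀ ^ ((ε - 1) / 2) =
          volDen g x * (len g x ξ₀ * beps ε g x ξ₀ (h x)) := by
        unfold beps
        rw [hbn]
        have h5 : lsq g x ξ₀ ^ ((ε - 2) / 2) * len g x ξ₀ = lsq g x ξ₀ ^ ((ε - 1) / 2) := by
          have : len g x ξ₀ = lsq g x ξ₀ ^ ((1 : ℝ) / 2) := Real.sqrt_eq_rpow _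
          rw [this, ← Real.rpow_add hs0]
          congr 1
          ring
        have hl0 : 0 < len g x ξ₀ := Real.sqrt_pos.2 hs0
        have hD0 : 0 < lsq g x ξ₀ ^ ((ε - 2) / 2) := Real.rpow_pos_of_pos hs0 _
        rw [← h5]
        field_simp
        rw [← k3]
        ring
      rw [← e]
      exact c9

end Pool.Agent.PFlow


end

section

/-!
# KPOS: strict subsolutions and supersolutions of the limit equation
-/

open MeasureTheory Filter Topology
open scoped ContDiff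

namespace Pool.Agent.PFlow

open Pool.Agent.PenroseSph

namespace KPOS

lemma cat_sum {ι : Type} {s : Finset ι} {f : ι → E3 → ℝ} {x : E3}
    (h : ∀ i ∈ s, ContinuousAt (f i) x) : ContinuousAt (fun y => ∑ i ∈ s, f i y) x :=
  tendsto_finsetSum _ h

lemma cat_ev {B : E3 → Bil} {v w : E3 → Cov} {x : E3}
    (hB : ∀ i j, ContinuousAt (fun y => B y i j) x) (hv : ∀ i, ContinuousAt (fun y => v y i) x)
    (hw : ∀ i, ContinuousAt (fun y => w y i) x) :
    ContinuousAt (fun y => ev (B y) (v y) (w y)) x :=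
  cat_sum fun i _ => cat_sum fun j _ => ((hB i j).mul (hv i)).mul (hw j)

lemma cat_pd {f : E3 → ℝ} {x : E3} (hf : ContDiffAt ℝ 1 f x) (i : Fin 3) :
    ContinuousAt (fun y => pd i f y) x := by
  have h1 : ContDiffAt ℝ 0 (fderiv ℝ f) x := hf.fderiv_right (by norm_num)
  exact h1.continuousAt.clm_apply continuousAt_const

lemma cdat_pd {f : E3 → ℝ} {x : E3} (hf : ContDiffAt ℝ 2 f x) (i : Fin 3) :
    ContDiffAt ℝ 1 (fun y => pd i f y) x := by
  have h1 : ContDiffAt ℝ 1 (fderiv ℝ f) x := hf.fderiv_right (by norm_num)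
  exact h1.clm_apply contDiffAt_const

/-- Continuity of the limit expression. -/
lemma cat_limit {ε : ℝ} {g h : TensorField} {r : ℝ} (hd : GData g h r) (h1 : KTN) (h2 : KSM)
    {f : E3 → ℝ} {x : E3} (hf : ContDiffAt ℝ 2 f x) (hg : grad f x ≠ 0) :
    0 < len g x (grad f x) ∧
    ContinuousAt (fun y => volDen g y * len g y (grad f y) ^ (ε - 1) * opN ε g h f y) x := by
  obtain ⟨hG, hV, hC⟩ := h2 g h r hd
  have cG : ∀ i j, ContinuousAt (fun y => (g y)⁻¹ i j) x := fun i j =>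
    (hG i j).continuous.continuousAt
  have cV : ContinuousAt (volDen g) x := hV.continuous.continuousAt
  have cC : ∀ k i j, ContinuousAt (christoffel g k i j) x := fun k i j =>
    (hC k i j).continuous.continuousAt
  have ch : ∀ i j, ContinuousAt (fun y => h y i j) x := fun i j =>
    (contDiffOn_univ.1 (hd.ten.smooth i j)).continuous.continuousAt
  have cp : ∀ i, ContinuousAt (fun y => grad f y i) x := fun i =>
    cat_pd (hf.of_le (by norm_num)) i
  have cM : ∀ i j, ContinuousAt (fun y => hess2 f y i j) x := fun i j =>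
    cat_pd (cdat_pd hf j) i
  have cH : ∀ i j, ContinuousAt (fun y => cHess g y (grad f y) (hess2 f y) i j) x := fun i j =>
    (cM i j).sub (cat_sum fun k _ => (cC k i j).mul (cp k))
  have cR : ∀ i, ContinuousAt (fun y => raise g y (grad f y) i) x := fun i =>
    cat_sum fun j _ => (cG i j).mul (cp j)
  have cL : ContinuousAt (fun y => len g y (grad f y)) x := (cat_ev cG cp cp).sqrt
  obtain ⟨-, hpos, hsq, -⟩ := h1 g x (hd.met.posDef x (Set.mem_univ x)) (grad f x)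
  have hL : 0 < len g x (grad f x) := by
    have h3 := hpos hg
    rw [← hsq] at h3
    have h4 : 0 ≤ len g x (grad f x) := Real.sqrt_nonneg _
    rcases h4.eq_or_lt with h5 | h5
    · rw [← h5] at h3
      norm_num at h3
    · exact h5
  have cN : ∀ i, ContinuousAt (fun y => nrm g y (grad f y) i) x := fun i =>
    (cR i).div cL hL.ne'
  have cB : ∀ B : E3 → Bil, (∀ i j, ContinuousAt (fun y => B y i j) x) →
      ContinuousAt (fun y => beps ε g y (grad f y) (B y)) x := fun B hB =>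
    (cat_sum fun i _ => cat_sum fun j _ => (cG i j).mul (hB i j)).sub
      (continuousAt_const.mul (cat_ev hB cN cN))
  refine ⟨hL, (cV.mul (cL.rpow_const (Or.inl hL.ne'))).mul ?_⟩
  exact (cB _ cH).add (cL.mul (cB h ch))

lemma volDen_pos {g h : TensorField} {r : ℝ} (hd : GData g h r) (x : E3) : 0 < volDen g x :=
  Real.sqrt_pos.2 (hd.met.posDef x (Set.mem_univ x)).det_pos

end KPOS

open KPOS in
/-- Strict subsolutions and supersolutions of the limit equation are strict for the regularised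
equation. -/
theorem KPOS_thm (h1 : KTN) (h2 : KSM) (h3 : KLIMJ) : KPOS := by
  intro ε g h r hε hε1 hd K f hK hf
  rcases K.eq_empty_or_nonempty with hne | hne
  · constructor
    · intro _
      refine ⟨1, 1, one_pos, one_pos, fun δ κ _ _ _ _ x hx => ?_⟩
      rw [hne] at hx
      exact absurd hx (Set.notMem_empty x)
    · intro _
      refine ⟨1, 1, one_pos, one_pos, fun δ κ _ _ _ _ x hx => ?_⟩
      rw [hne] at hx
      exact absurd hx (Set.notMem_empty x)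
  constructor
  · intro hs
    have hc : ContinuousOn
        (fun y => volDen g y * len g y (grad f y) ^ (ε - 1) * opN ε g h f y) K := fun x hx =>
      (cat_limit hd h1 h2 (hf x hx) (hs x hx).1).2.continuousWithinAt
    obtain ⟨x₀, hx₀, hmin⟩ := hK.exists_isMinOn hne hc
    have hpos : 0 < volDen g x₀ * len g x₀ (grad f x₀) ^ (ε - 1) * opN ε g h f x₀ :=
      mul_pos (mul_pos (volDen_pos hd x₀)
        (Real.rpow_pos_of_pos (cat_limit (ε := ε) hd h1 h2 (hf x₀ hx₀) (hs x₀ hx₀).1).1 _))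
        (hs x₀ hx₀).2
    obtain ⟨δ₀, hδ₀, hlim⟩ := h3 ε g h r hε hε1 hd K f hK hf (fun x hx => (hs x hx).1)
      (volDen g x₀ * len g x₀ (grad f x₀) ^ (ε - 1) * opN ε g h f x₀ / 2) (half_pos hpos)
    refine ⟨volDen g x₀ * len g x₀ (grad f x₀) ^ (ε - 1) * opN ε g h f x₀ / 2, δ₀,
      half_pos hpos, hδ₀, fun δ κ hδ hδ' hκ hκ' x hx => ?_⟩
    have h4 := (abs_le.1 (hlim δ κ hδ hδ' hκ hκ' x hx)).1
    have h5 := isMinOn_iff.1 hmin x hx
    linarith
  · intro hs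
    have hc : ContinuousOn
        (fun y => volDen g y * len g y (grad f y) ^ (ε - 1) * opN ε g h f y) K := fun x hx =>
      (cat_limit hd h1 h2 (hf x hx) (hs x hx).1).2.continuousWithinAt
    obtain ⟨x₀, hx₀, hmax⟩ := hK.exists_isMaxOn hne hc
    have hneg : volDen g x₀ * len g x₀ (grad f x₀) ^ (ε - 1) * opN ε g h f x₀ < 0 :=
      mul_neg_of_pos_of_neg (mul_pos (volDen_pos hd x₀)
        (Real.rpow_pos_of_pos (cat_limit (ε := ε) hd h1 h2 (hf x₀ hx₀) (hs x₀ hx₀).1).1 _))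
        (hs x₀ hx₀).2
    have hpos : 0 < -(volDen g x₀ * len g x₀ (grad f x₀) ^ (ε - 1) * opN ε g h f x₀) :=
      neg_pos.2 hneg
    obtain ⟨δ₀, hδ₀, hlim⟩ := h3 ε g h r hε hε1 hd K f hK hf (fun x hx => (hs x hx).1)
      (-(volDen g x₀ * len g x₀ (grad f x₀) ^ (ε - 1) * opN ε g h f x₀) / 2) (half_pos hpos)
    refine ⟨-(volDen g x₀ * len g x₀ (grad f x₀) ^ (ε - 1) * opN ε g h f x₀) / 2, δ₀,
      half_pos hpos, hδ₀, fun δ κ hδ hδ' hκ hκ' x hx => ?_⟩
    have h4 := (abs_le.1 (hlim δ κ hδ hδ' hκ hκ' x hx)).2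
    have h5 := isMaxOn_iff.1 hmax x hx
    linarith

end Pool.Agent.PFlow


end
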