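import Mathlib
import Pool.Agent.PFlow.StmtsE3
import Pool.Agent.PenroseM.C01

/-! Parts: PFlow.K.KLIP, PFlow.E.XWO -/

section

/-!
# KLIP: the regularised coefficients are Lipschitz
-/

open MeasureTheory Filter Topology
open scoped ContDiff

namespace Pool.Agent.PFlow

open Pool.Agent.PenroseSph

namespace KLIP

/-! ### Powers -/

/-- the tangent line inequality of `t ^ q` for `q ≤ 0` -/
theorem pow_sub {q a b : ℝ} (hq : q ≤ 0) (ha : 0 < a) (hab : a ≤ b) :
    0 ≤ a ^ q - b ^ q ∧ a ^ q - b ^ q ≤ -q * a ^ (q - 1) * (b - a) := by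
  have hb : 0 < b := ha.trans_le hab
  constructor
  · exact sub_nonneg.2 (Real.rpow_le_rpow_of_nonpos ha hab hq)
  · have h1 : 1 + q * (b / a - 1) ≤ (b / a) ^ q := by
      have h2 : 0 < b / a := div_pos hb ha
      rw [Real.rpow_def_of_pos h2]
      have h3 := Real.add_one_le_exp (Real.log (b / a) * q)
      have h4 := Real.log_le_sub_one_of_pos h2
      nlinarith
    have h5 : (b / a) ^ q * a ^ q = b ^ q := by
      rw [← Real.mul_rpow (div_pos hb ha).le ha.le, div_mul_cancel₀ _ ha.ne']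
    have h6 : 0 < a ^ q := Real.rpow_pos_of_pos ha q
    have h7 : a ^ (q - 1) = a ^ q / a := Real.rpow_sub_one ha.ne' q
    have h8 := mul_le_mul_of_nonneg_right h1 h6.le
    rw [h5] at h8
    have h9 : -q * a ^ (q - 1) * (b - a) = - (q * (b / a - 1) * a ^ q) := by
      rw [h7]
      field_simp
    rw [h9]
    nlinarith

/-- `(s + δ²)^(p/2)` as a power of the square root -/
theorem pow_sqrt {S p : ℝ} (hS : 0 ≤ S) : S ^ (p / 2) = Real.sqrt S ^ p := by
  rw [Real.sqrt_eq_rpow, ← Real.rpow_mul hS]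
  congr 1
  ring

/-- the scalar estimate behind the Lipschitz bounds in `ξ` -/
theorem core {F : Type*} [NormedAddCommGroup F] [NormedSpace ℝ F] {ε δ m M K a b d : ℝ} {u v : F}
    (hε0 : 0 < ε) (hε : ε < 1) (hδ : 0 < δ) (hm1 : 1 ≤ m) (hm2 : m ≤ 2) (hM : 0 ≤ M)
    (ha : δ ≤ a) (hb : a ≤ b) (hu : ‖u‖ ≤ M * a ^ m) (huv : ‖u - v‖ ≤ M * b ^ (m - 1) * d)
    (hab : b - a ≤ K * d) (hd : 0 ≤ d) :
    ‖a ^ (ε - m) • u - b ^ (ε - m) • v‖ ≤ (2 * M * K + M) * δ ^ (ε - 1) * d := by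
  have ha0 : 0 < a := hδ.trans_le ha
  have hb0 : 0 < b := ha0.trans_le hb
  have hD : 0 < δ ^ (ε - 1) := Real.rpow_pos_of_pos hδ _
  have hDa : a ^ (ε - 1) ≤ δ ^ (ε - 1) := Real.rpow_le_rpow_of_nonpos hδ ha (by linarith)
  have hDb : b ^ (ε - 1) ≤ δ ^ (ε - 1) :=
    Real.rpow_le_rpow_of_nonpos hδ (ha.trans hb) (by linarith)
  have h1 : a ^ (ε - m) • u - b ^ (ε - m) • v =
      (a ^ (ε - m) - b ^ (ε - m)) • u + b ^ (ε - m) • (u - v) := by
    rw [sub_smul, smul_sub]
    abel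
  have hp := pow_sub (q := ε - m) (by linarith) ha0 hb
  have h2 : ‖(a ^ (ε - m) - b ^ (ε - m)) • u‖ ≤ 2 * M * K * δ ^ (ε - 1) * d := by
    rw [norm_smul, Real.norm_of_nonneg hp.1]
    have e1 : a ^ (ε - m - 1) * a ^ m = a ^ (ε - 1) := by
      rw [← Real.rpow_add ha0]
      congr 1
      ring
    calc (a ^ (ε - m) - b ^ (ε - m)) * ‖u‖
        ≤ (-(ε - m) * a ^ (ε - m - 1) * (b - a)) * (M * a ^ m) :=
          mul_le_mul hp.2 hu (norm_nonneg _) (hp.1.trans hp.2)
      _ = (m - ε) * M * (a ^ (ε - m - 1) * a ^ m) * (b - a) := by ring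
      _ = (m - ε) * M * a ^ (ε - 1) * (b - a) := by rw [e1]
      _ ≤ 2 * M * δ ^ (ε - 1) * (b - a) := by
          have e2 : (m - ε) * M ≤ 2 * M := by nlinarith
          have e3 : 0 ≤ a ^ (ε - 1) := (Real.rpow_pos_of_pos ha0 _).le
          have e4 : (m - ε) * M * a ^ (ε - 1) ≤ 2 * M * δ ^ (ε - 1) :=
            mul_le_mul e2 hDa e3 (by linarith)
          exact mul_le_mul_of_nonneg_right e4 (by linarith)
      _ ≤ 2 * M * δ ^ (ε - 1) * (K * d) :=
          mul_le_mul_of_nonneg_left hab (by positivity)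
      _ = 2 * M * K * δ ^ (ε - 1) * d := by ring
  have h3 : ‖b ^ (ε - m) • (u - v)‖ ≤ M * δ ^ (ε - 1) * d := by
    have e0 : 0 ≤ b ^ (ε - m) := (Real.rpow_pos_of_pos hb0 _).le
    rw [norm_smul, Real.norm_of_nonneg e0]
    have e1 : b ^ (ε - m) * b ^ (m - 1) = b ^ (ε - 1) := by
      rw [← Real.rpow_add hb0]
      congr 1
      ring
    calc b ^ (ε - m) * ‖u - v‖ ≤ b ^ (ε - m) * (M * b ^ (m - 1) * d) :=
          mul_le_mul_of_nonneg_left huv e0
      _ = M * (b ^ (ε - m) * b ^ (m - 1)) * d := by ring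
      _ = M * b ^ (ε - 1) * d := by rw [e1]
      _ ≤ M * δ ^ (ε - 1) * d :=
          mul_le_mul_of_nonneg_right (mul_le_mul_of_nonneg_left hDb hM) hd
  rw [h1]
  calc _ ≤ ‖(a ^ (ε - m) - b ^ (ε - m)) • u‖ + ‖b ^ (ε - m) • (u - v)‖ := norm_add_le _ _
    _ ≤ 2 * M * K * δ ^ (ε - 1) * d + M * δ ^ (ε - 1) * d := add_le_add h2 h3
    _ = _ := by ring

/-- the scalar estimate behind the Lipschitz bound in `x`, one order -/
theorem pow_rel1 {q S T W s0 : ℝ} (hq : q ≤ 0) (h0 : 0 < s0) (hS : s0 ≤ S) (hST : S ≤ T)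
    (h : T - S ≤ W * S) : |S ^ q - T ^ q| ≤ -q * s0 ^ q * W := by
  have hS0 : 0 < S := h0.trans_le hS
  have hp := pow_sub hq hS0 hST
  rw [abs_of_nonneg hp.1]
  have h1 : S ^ (q - 1) = S ^ q / S := Real.rpow_sub_one hS0.ne' q
  have h2 : S ^ q ≤ s0 ^ q := Real.rpow_le_rpow_of_nonpos h0 hS hq
  have h3 : 0 ≤ S ^ (q - 1) := (Real.rpow_pos_of_pos hS0 _).le
  have hW : 0 ≤ W := by
    by_contra hW
    nlinarith
  calc S ^ q - T ^ q ≤ -q * S ^ (q - 1) * (T - S) := hp.2
    _ ≤ -q * S ^ (q - 1) * (W * S) := mul_le_mul_of_nonneg_left h (by nlinarith)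
    _ = -q * S ^ q * W := by
        rw [h1]
        field_simp
    _ ≤ -q * s0 ^ q * W :=
        mul_le_mul_of_nonneg_right (mul_le_mul_of_nonneg_left h2 (by linarith)) hW

/-- the scalar estimate behind the Lipschitz bound in `x` -/
theorem pow_rel {q S T W s0 : ℝ} (hq : q ≤ 0) (h0 : 0 < s0) (hS : s0 ≤ S) (hT : s0 ≤ T)
    (h : |T - S| ≤ W * S) (h' : |T - S| ≤ W * T) : |S ^ q - T ^ q| ≤ -q * s0 ^ q * W := by
  rcases le_total S T with hST | hST
  · exact pow_rel1 hq h0 hS hST ((le_abs_self _).trans h)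
  · rw [abs_sub_comm]
    refine pow_rel1 hq h0 hT hST (le_trans ?_ h')
    rw [abs_sub_comm]
    exact le_abs_self _

/-! ### Vectors -/

theorem norm_sq (p : Cov) : ‖vec p‖ ^ 2 = ∑ i, p i ^ 2 := by
  rw [EuclideanSpace.real_norm_sq_eq]

theorem abs_le_norm (p : Cov) (i : Fin 3) : |p i| ≤ ‖vec p‖ := by
  have h1 : p i ^ 2 ≤ ‖vec p‖ ^ 2 := by
    rw [norm_sq]
    exact Finset.single_le_sum (f := fun j => p j ^ 2) (fun j _ => sq_nonneg _)
      (Finset.mem_univ i)
  exact abs_le_of_sq_le_sq h1 (norm_nonneg _)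

theorem norm_le_of_abs (p : Cov) {B : ℝ} (hB : 0 ≤ B) (h : ∀ i, |p i| ≤ B) :
    ‖vec p‖ ≤ 3 * B := by
  have h1 : ‖vec p‖ ^ 2 ≤ (3 * B) ^ 2 := by
    rw [norm_sq, Fin.sum_univ_three]
    have h2 : ∀ i, p i ^ 2 ≤ B ^ 2 := fun i => by
      rw [← sq_abs (p i)]
      exact pow_le_pow_left₀ (abs_nonneg _) (h i) 2
    nlinarith [h2 0, h2 1, h2 2, sq_nonneg B]
  exact abs_le_of_sq_le_sq' h1 (by linarith) |>.2

theorem ev_le {B : Bil} {c : ℝ} (hB : ∀ i j, |B i j| ≤ c) (p q : Cov) :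
    |ev B p q| ≤ 9 * c * ‖vec p‖ * ‖vec q‖ := by
  have hc : 0 ≤ c := (abs_nonneg _).trans (hB 0 0)
  unfold ev
  calc |∑ i, ∑ j, B i j * p i * q j| ≤ ∑ i, |∑ j, B i j * p i * q j| :=
        Finset.abs_sum_le_sum_abs _ _
    _ ≤ ∑ i : Fin 3, ∑ j : Fin 3, |B i j * p i * q j| :=
        Finset.sum_le_sum fun i _ => Finset.abs_sum_le_sum_abs _ _
    _ ≤ ∑ i : Fin 3, ∑ j : Fin 3, c * ‖vec p‖ * ‖vec q‖ := by
        refine Finset.sum_le_sum fun i _ => Finset.sum_le_sum fun j _ => ?_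
        rw [abs_mul, abs_mul]
        have e1 := hB i j
        have e2 := abs_le_norm p i
        have e3 := abs_le_norm q j
        exact mul_le_mul (mul_le_mul e1 e2 (abs_nonneg _) hc) e3 (abs_nonneg _)
          (mul_nonneg hc (norm_nonneg _))
    _ = 9 * c * ‖vec p‖ * ‖vec q‖ := by
        simp only [Finset.sum_const, Finset.card_univ, Fintype.card_fin, nsmul_eq_mul]
        push_cast
        ring

theorem ev_sub (B : Bil) (p q : Cov) : ev B q q - ev B p p = ev B (q - p) q + ev B p (q - p) := by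
  unfold ev
  rw [← Finset.sum_sub_distrib, ← Finset.sum_add_distrib]
  refine Finset.sum_congr rfl fun i _ => ?_
  rw [← Finset.sum_sub_distrib, ← Finset.sum_add_distrib]
  refine Finset.sum_congr rfl fun j _ => ?_
  simp only [Pi.sub_apply]
  ring

theorem ev_diff {B : Bil} {c : ℝ} (hB : ∀ i j, |B i j| ≤ c) (p q : Cov) :
    |ev B q q - ev B p p| ≤ 9 * c * ‖vec (q - p)‖ * (‖vec p‖ + ‖vec q‖) := by
  rw [ev_sub]
  have h1 := ev_le hB (q - p) q
  have h2 := ev_le hB p (q - p)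
  calc |ev B (q - p) q + ev B p (q - p)| ≤ |ev B (q - p) q| + |ev B p (q - p)| := abs_add_le _ _
    _ ≤ 9 * c * ‖vec (q - p)‖ * ‖vec q‖ + 9 * c * ‖vec p‖ * ‖vec (q - p)‖ := add_le_add h1 h2
    _ = _ := by ring

/-! ### Lipschitz functions on `E3` -/

theorem fderiv_bound {f : E3 → ℝ} {x : E3} {c : ℝ} (h : ∀ k, |pd k f x| ≤ c) :
    ‖fderiv ℝ f x‖ ≤ 3 * c := by
  have hc : 0 ≤ c := (abs_nonneg _).trans (h 0)
  refine ContinuousLinearMap.opNorm_le_bound _ (by linarith) fun v => ?_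
  have hv : v = ∑ k, v k • (EuclideanSpace.single k (1 : ℝ) : E3) := by
    ext i
    simp [Fin.sum_univ_three]
    fin_cases i <;> simp
  have h1 : fderiv ℝ f x v = ∑ k, v k * pd k f x := by
    conv_lhs => rw [hv]
    rw [map_sum]
    refine Finset.sum_congr rfl fun k _ => ?_
    rw [map_smul, smul_eq_mul]
    rfl
  rw [h1, Real.norm_eq_abs]
  calc |∑ k, v k * pd k f x| ≤ ∑ k, |v k * pd k f x| := Finset.abs_sum_le_sum_abs _ _
    _ ≤ ∑ _k : Fin 3, ‖v‖ * c := by
        refine Finset.sum_le_sum fun k _ => ?_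
        rw [abs_mul]
        exact mul_le_mul (abs_le_norm v k) (h k) (abs_nonneg _) (norm_nonneg _)
    _ = 3 * c * ‖v‖ := by
        simp only [Finset.sum_const, Finset.card_univ, Fintype.card_fin, nsmul_eq_mul]
        push_cast
        ring

theorem lip {f : E3 → ℝ} (hf : ContDiff ℝ ∞ f) {c : ℝ} (h : ∀ x k, |pd k f x| ≤ c) (x y : E3) :
    |f x - f y| ≤ 3 * c * ‖x - y‖ := by
  have hd : Differentiable ℝ f := hf.differentiable (by simp)
  have := Convex.norm_image_sub_le_of_norm_fderiv_le (𝕜 := ℝ) (f := f) (C := 3 * c)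
    (s := Set.univ) (x := y) (y := x) (fun z _ => hd z) (fun z _ => fderiv_bound (h z))
    convex_univ (Set.mem_univ _) (Set.mem_univ _)
  rwa [Real.norm_eq_abs] at this

end KLIP

open KLIP in
theorem KLIP_thm (h1 : KSM) (_h2 : KSMO) (h3 : KBND) (_h4 : KTN) (_h5 : KIDV) : KLIP := by
  intro ε δ κ g h r hε0 hε hδ hκ hG
  obtain ⟨hinv, hvol, -⟩ := h1 g h r hG
  obtain ⟨C, hC⟩ := h3 g h r hG
  have hC1 : 1 ≤ C := hC.one
  have hC0 : 0 ≤ C := by linarith
  have hD : 0 < δ ^ (ε - 1) := Real.rpow_pos_of_pos hδ _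
  obtain ⟨D, hDdef⟩ : ∃ D, D = δ ^ (ε - 1) := ⟨_, rfl⟩
  rw [← hDdef] at hD
  -- basic facts at a point
  have hls : ∀ x (p : Cov), 0 ≤ lsq g x p := fun x p => by
    have := hC.low x p
    have h0 := sq_nonneg ‖vec p‖
    by_contra hn
    push Not at hn
    nlinarith
  have hv0 : ∀ x, 0 ≤ volDen g x := fun x => Real.sqrt_nonneg _
  have hA : ∀ x (p : Cov), δ ≤ Real.sqrt (lsq g x p + δ ^ 2) := fun x p => by
    apply Real.le_sqrt_of_sq_le
    linarith [hls x p]
  have hA2 : ∀ x (p : Cov), Real.sqrt (lsq g x p + δ ^ 2) ^ 2 = lsq g x p + δ ^ 2 := fun x p =>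
    Real.sq_sqrt (by have := hls x p; positivity)
  have hA3 : ∀ x (p : Cov), ‖vec p‖ ≤ C * Real.sqrt (lsq g x p + δ ^ 2) := fun x p => by
    have e1 := hC.low x p
    have e2 := hA2 x p
    have e3 := hA x p
    have e4 := hls x p
    refine abs_le_of_sq_le_sq' ?_ (by positivity) |>.2
    rw [mul_pow, e2]
    nlinarith [sq_nonneg δ, mul_nonneg hC0 e4, mul_nonneg (sub_nonneg.2 hC1) e4,
      mul_nonneg (mul_nonneg hC0 (sub_nonneg.2 hC1)) e4, mul_nonneg (mul_nonneg hC0 hC0) (sq_nonneg δ)]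
  have hA4 : ∀ x (p q : Cov), Real.sqrt (lsq g x p + δ ^ 2) ≤ Real.sqrt (lsq g x q + δ ^ 2) →
      Real.sqrt (lsq g x q + δ ^ 2) - Real.sqrt (lsq g x p + δ ^ 2) ≤
        9 * C ^ 2 * ‖vec (p - q)‖ := fun x p q hpq => by
    obtain ⟨a, ha⟩ : ∃ a, a = Real.sqrt (lsq g x p + δ ^ 2) := ⟨_, rfl⟩
    obtain ⟨b, hb⟩ : ∃ b, b = Real.sqrt (lsq g x q + δ ^ 2) := ⟨_, rfl⟩
    have e1 := hA2 x p
    have e2 := hA2 x q
    have e3 := hA x p
    have e4 := hA3 x p
    have e5 := hA3 x q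
    rw [← ha] at e1 e3 e4 hpq ⊢
    rw [← hb] at e2 e5 hpq ⊢
    have e6 := (le_abs_self _).trans (ev_diff (hC.inv x) p q)
    have e7 : ‖vec (q - p)‖ = ‖vec (p - q)‖ := by
      have : vec (q - p) = - vec (p - q) := by
        rw [← WithLp.toLp_neg, neg_sub]
      rw [this, norm_neg]
    rw [e7] at e6
    have e8 : (b - a) * (a + b) ≤ 9 * C ^ 2 * ‖vec (p - q)‖ * (a + b) := by
      have e9 : (b - a) * (a + b) = ev (g x)⁻¹ q q - ev (g x)⁻¹ p p := by
        have f1 : lsq g x q = ev (g x)⁻¹ q q := rfl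
        have f2 : lsq g x p = ev (g x)⁻¹ p p := rfl
        rw [← f1, ← f2]
        linarith
      rw [e9]
      refine e6.trans ?_
      have f3 : ‖vec p‖ + ‖vec q‖ ≤ C * (a + b) := by linarith
      have f4 : 0 ≤ 9 * C * ‖vec (p - q)‖ := by positivity
      have := mul_le_mul_of_nonneg_left f3 f4
      linarith
    have e10 : 0 < a + b := by linarith
    exact le_of_mul_le_mul_right e8 e10
  have hrs : ∀ x (p q : Cov), raise g x p - raise g x q = raise g x (p - q) := fun x p q => by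
    funext i
    simp only [raise, Pi.sub_apply]
    rw [← Finset.sum_sub_distrib]
    refine Finset.sum_congr rfl fun j _ => ?_
    ring
  -- Lipschitz in ξ, for A, ordered
  have hA5 : ∀ x (p q : Cov), Real.sqrt (lsq g x p + δ ^ 2) ≤ Real.sqrt (lsq g x q + δ ^ 2) →
      ‖cA ε δ κ g x (vec p) - cA ε δ κ g x (vec q)‖ ≤
        C * ((2 * C ^ 2 * (9 * C ^ 2) + C ^ 2) * D + κ * C) * ‖vec (p - q)‖ := by
    intro x p q hpq
    have e0 : ∀ p : Cov, cA ε δ κ g x (vec p) =
        volDen g x • (Real.sqrt (lsq g x p + δ ^ 2) ^ (ε - 1) • vec (raise g x p) +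
          κ • vec (raise g x p)) := by
      intro p
      rw [← pow_sqrt (by have := hls x p; positivity)]
      ext i
      simp only [cA, regA, vec, PiLp.smul_apply, PiLp.add_apply, smul_eq_mul]
      ring
    have e1 := core (u := vec (raise g x p)) (v := vec (raise g x q)) (M := C ^ 2)
      (K := 9 * C ^ 2) (d := ‖vec (p - q)‖) hε0 hε hδ (le_refl (1 : ℝ)) (by norm_num)
      (by positivity) (hA x p) hpq
      (by
        rw [Real.rpow_one]
        calc ‖vec (raise g x p)‖ ≤ C * ‖vec p‖ := hC.raise x p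
          _ ≤ C * (C * Real.sqrt (lsq g x p + δ ^ 2)) :=
            mul_le_mul_of_nonneg_left (hA3 x p) hC0
          _ = _ := by ring)
      (by
        rw [sub_self, Real.rpow_zero, mul_one]
        rw [← WithLp.toLp_sub, hrs]
        calc ‖vec (raise g x (p - q))‖ ≤ C * ‖vec (p - q)‖ := hC.raise x _
          _ ≤ C ^ 2 * ‖vec (p - q)‖ :=
            mul_le_mul_of_nonneg_right (by nlinarith) (norm_nonneg _))
      (hA4 x p q hpq) (norm_nonneg _)
    rw [← hDdef] at e1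
    have e2 : ‖κ • (vec (raise g x p) - vec (raise g x q))‖ ≤ κ * C * ‖vec (p - q)‖ := by
      rw [norm_smul, Real.norm_of_nonneg hκ.le, ← WithLp.toLp_sub, hrs, mul_assoc]
      exact mul_le_mul_of_nonneg_left (hC.raise x _) hκ.le
    rw [e0 p, e0 q, ← smul_sub, norm_smul, Real.norm_of_nonneg (hv0 x)]
    have e3 : Real.sqrt (lsq g x p + δ ^ 2) ^ (ε - 1) • vec (raise g x p) +
          κ • vec (raise g x p) - (Real.sqrt (lsq g x q + δ ^ 2) ^ (ε - 1) • vec (raise g x q) +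
          κ • vec (raise g x q)) =
        (Real.sqrt (lsq g x p + δ ^ 2) ^ (ε - 1) • vec (raise g x p) -
          Real.sqrt (lsq g x q + δ ^ 2) ^ (ε - 1) • vec (raise g x q)) +
          κ • (vec (raise g x p) - vec (raise g x q)) := by
      rw [smul_sub]
      abel
    rw [e3, mul_assoc]
    refine mul_le_mul (hC.volUp x) ?_ (norm_nonneg _) hC0
    refine (norm_add_le _ _).trans ?_
    rw [add_mul]
    exact add_le_add e1 e2
  -- the quadratic form of B
  obtain ⟨Q, hQ⟩ : ∃ Q : E3 → Cov → ℝ, ∀ x p, Q x p = lsq g x p * trg g x (h x) -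
      (1 - ε) * ev (h x) (raise g x p) (raise g x p) := ⟨_, fun _ _ => rfl⟩
  have htr : ∀ x, |trg g x (h x)| ≤ 9 * C ^ 2 := fun x => by
    refine (hC.tr x (h x)).trans ?_
    have : ∑ i : Fin 3, ∑ j : Fin 3, |h x i j| ≤ ∑ _i : Fin 3, ∑ _j : Fin 3, C :=
      Finset.sum_le_sum fun i _ => Finset.sum_le_sum fun j _ => hC.hh x i j
    have e2 : ∑ _i : Fin 3, ∑ _j : Fin 3, C = 9 * C := by
      simp only [Finset.sum_const, Finset.card_univ, Fintype.card_fin, nsmul_eq_mul]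
      push_cast
      ring
    rw [e2] at this
    nlinarith
  have hQ1 : ∀ x p, |Q x p| ≤ 90 * C ^ 3 * ‖vec p‖ ^ 2 := fun x p => by
    rw [hQ]
    have e1 : |lsq g x p * trg g x (h x)| ≤ (C * ‖vec p‖ ^ 2) * (9 * C ^ 2) := by
      rw [abs_mul, abs_of_nonneg (hls x p)]
      exact mul_le_mul (hC.up x p) (htr x) (abs_nonneg _) (by positivity)
    have e2 : |(1 - ε) * ev (h x) (raise g x p) (raise g x p)| ≤
        9 * C * (C * ‖vec p‖) * (C * ‖vec p‖) := by
      rw [abs_mul, abs_of_nonneg (by linarith)]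
      have e3 := ev_le (hC.hh x) (raise g x p) (raise g x p)
      have e4 := hC.raise x p
      have e5 : 9 * C * ‖vec (raise g x p)‖ * ‖vec (raise g x p)‖ ≤
          9 * C * (C * ‖vec p‖) * (C * ‖vec p‖) :=
        mul_le_mul (mul_le_mul_of_nonneg_left e4 (by positivity)) e4 (norm_nonneg _)
          (by positivity)
      have e6 := abs_nonneg (ev (h x) (raise g x p) (raise g x p))
      nlinarith
    have e7 := abs_sub (lsq g x p * trg g x (h x)) ((1 - ε) * ev (h x) (raise g x p) (raise g x p))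
    have e8 : 0 ≤ C ^ 3 * ‖vec p‖ ^ 2 := by positivity
    nlinarith
  have hQ2 : ∀ x p q, |Q x p - Q x q| ≤ 90 * C ^ 4 * ‖vec (p - q)‖ * (‖vec p‖ + ‖vec q‖) := by
    intro x p q
    rw [hQ, hQ]
    have e1 : |(lsq g x p - lsq g x q) * trg g x (h x)| ≤
        (9 * C * ‖vec (p - q)‖ * (‖vec q‖ + ‖vec p‖)) * (9 * C ^ 2) := by
      rw [abs_mul]
      exact mul_le_mul (ev_diff (hC.inv x) q p) (htr x) (abs_nonneg _) (by positivity)
    have e2 : |(1 - ε) * (ev (h x) (raise g x p) (raise g x p) -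
        ev (h x) (raise g x q) (raise g x q))| ≤
        9 * C * (C * ‖vec (p - q)‖) * (C * (‖vec q‖ + ‖vec p‖)) := by
      rw [abs_mul, abs_of_nonneg (by linarith)]
      have e3 := ev_diff (hC.hh x) (raise g x q) (raise g x p)
      rw [hrs] at e3
      have e4 := hC.raise x (p - q)
      have e4' : ‖vec (raise g x q)‖ + ‖vec (raise g x p)‖ ≤ C * (‖vec q‖ + ‖vec p‖) := by
        have := hC.raise x p
        have := hC.raise x q
        linarith
      have e5 : 9 * C * ‖vec (raise g x (p - q))‖ * (‖vec (raise g x q)‖ + ‖vec (raise g x p)‖) ≤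
          9 * C * (C * ‖vec (p - q)‖) * (C * (‖vec q‖ + ‖vec p‖)) :=
        mul_le_mul (mul_le_mul_of_nonneg_left e4 (by positivity)) e4' (by positivity)
          (by positivity)
      have e6 := abs_nonneg (ev (h x) (raise g x p) (raise g x p) -
        ev (h x) (raise g x q) (raise g x q))
      nlinarith
    have e7 : lsq g x p * trg g x (h x) - (1 - ε) * ev (h x) (raise g x p) (raise g x p) -
        (lsq g x q * trg g x (h x) - (1 - ε) * ev (h x) (raise g x q) (raise g x q)) =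
        (lsq g x p - lsq g x q) * trg g x (h x) - (1 - ε) * (ev (h x) (raise g x p) (raise g x p) -
          ev (h x) (raise g x q) (raise g x q)) := by ring
    rw [e7]
    refine (abs_sub _ _).trans ?_
    refine (add_le_add e1 e2).trans ?_
    have e8 : 0 ≤ ‖vec (p - q)‖ * (‖vec p‖ + ‖vec q‖) := by positivity
    have e9 : (9 * C * ‖vec (p - q)‖ * (‖vec q‖ + ‖vec p‖)) * (9 * C ^ 2) +
        9 * C * (C * ‖vec (p - q)‖) * (C * (‖vec q‖ + ‖vec p‖)) =
        90 * C ^ 3 * (‖vec (p - q)‖ * (‖vec p‖ + ‖vec q‖)) := by ring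
    have e10 : 90 * C ^ 4 * ‖vec (p - q)‖ * (‖vec p‖ + ‖vec q‖) =
        C * (90 * C ^ 3 * (‖vec (p - q)‖ * (‖vec p‖ + ‖vec q‖))) := by ring
    rw [e9, e10]
    have e11 : 0 ≤ 90 * C ^ 3 * (‖vec (p - q)‖ * (‖vec p‖ + ‖vec q‖)) := by positivity
    nlinarith
  -- Lipschitz in ξ, for B, ordered
  have hB5 : ∀ x (p q : Cov), Real.sqrt (lsq g x p + δ ^ 2) ≤ Real.sqrt (lsq g x q + δ ^ 2) →
      |cB ε δ g h x (vec p) - cB ε δ g h x (vec q)| ≤
        C * ((2 * (180 * C ^ 5) * (9 * C ^ 2) + 180 * C ^ 5) * D) * ‖vec (p - q)‖ := by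
    intro x p q hpq
    have e0 : ∀ p : Cov, cB ε δ g h x (vec p) =
        volDen g x * (Real.sqrt (lsq g x p + δ ^ 2) ^ (ε - 2) • Q x p) := by
      intro p
      rw [← pow_sqrt (by have := hls x p; positivity), hQ, smul_eq_mul]
      simp only [cB]
      ring
    have hb0 : 0 < Real.sqrt (lsq g x q + δ ^ 2) := hδ.trans_le (hA x q)
    have e1 := core (u := Q x p) (v := Q x q) (M := 180 * C ^ 5)
      (K := 9 * C ^ 2) (d := ‖vec (p - q)‖) hε0 hε hδ (one_le_two : (1 : ℝ) ≤ 2) (le_refl (2 : ℝ))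
      (by positivity) (hA x p) hpq
      (by
        rw [Real.norm_eq_abs, Real.rpow_two]
        have f1 := hQ1 x p
        have f2 := hA3 x p
        have f3 : ‖vec p‖ ^ 2 ≤ (C * Real.sqrt (lsq g x p + δ ^ 2)) ^ 2 :=
          pow_le_pow_left₀ (norm_nonneg _) f2 2
        calc |Q x p| ≤ 90 * C ^ 3 * ‖vec p‖ ^ 2 := f1
          _ ≤ 90 * C ^ 3 * (C * Real.sqrt (lsq g x p + δ ^ 2)) ^ 2 :=
            mul_le_mul_of_nonneg_left f3 (by positivity)
          _ = 90 * C ^ 5 * Real.sqrt (lsq g x p + δ ^ 2) ^ 2 := by ring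
          _ ≤ 180 * C ^ 5 * Real.sqrt (lsq g x p + δ ^ 2) ^ 2 := by
            have : 0 ≤ C ^ 5 * Real.sqrt (lsq g x p + δ ^ 2) ^ 2 := by positivity
            nlinarith)
      (by
        rw [Real.norm_eq_abs]
        have f0 : (2 : ℝ) - 1 = 1 := by norm_num
        rw [f0, Real.rpow_one]
        have f1 := hQ2 x p q
        have f2 := hA3 x p
        have f3 := hA3 x q
        have f4 : ‖vec p‖ + ‖vec q‖ ≤ 2 * C * Real.sqrt (lsq g x q + δ ^ 2) := by nlinarith
        calc |Q x p - Q x q| ≤ 90 * C ^ 4 * ‖vec (p - q)‖ * (‖vec p‖ + ‖vec q‖) := f1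
          _ ≤ 90 * C ^ 4 * ‖vec (p - q)‖ * (2 * C * Real.sqrt (lsq g x q + δ ^ 2)) :=
            mul_le_mul_of_nonneg_left f4 (by positivity)
          _ = _ := by ring)
      (hA4 x p q hpq) (norm_nonneg _)
    rw [← hDdef, Real.norm_eq_abs] at e1
    rw [e0 p, e0 q, ← mul_sub, abs_mul, abs_of_nonneg (hv0 x), mul_assoc]
    exact mul_le_mul (hC.volUp x) e1 (abs_nonneg _) hC0
  -- Lipschitz in x
  obtain ⟨al, hal⟩ : ∃ al : ℝ → ℝ, ∀ s, al s = regA ε δ κ s := ⟨_, fun _ => rfl⟩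
  have hal1 : ∀ x (p : Cov), 0 ≤ regA ε δ κ (lsq g x p) ∧ regA ε δ κ (lsq g x p) ≤ D + κ := by
    intro x p
    have e1 := hls x p
    have e2 : 0 < lsq g x p + δ ^ 2 := by positivity
    constructor
    · unfold regA
      have := Real.rpow_nonneg e2.le ((ε - 1) / 2)
      linarith
    · unfold regA
      have e3 : (lsq g x p + δ ^ 2) ^ ((ε - 1) / 2) ≤ D := by
        rw [pow_sqrt e2.le, hDdef]
        exact Real.rpow_le_rpow_of_nonpos hδ (hA x p) (by linarith)
      linarith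
  have hlx : ∀ x y (p : Cov), |lsq g x p - lsq g y p| ≤ 27 * C * ‖x - y‖ * ‖vec p‖ ^ 2 := by
    intro x y p
    have e1 : lsq g x p - lsq g y p = ev ((g x)⁻¹ - (g y)⁻¹) p p := by
      simp only [lsq, ev, Matrix.sub_apply]
      rw [← Finset.sum_sub_distrib]
      refine Finset.sum_congr rfl fun i _ => ?_
      rw [← Finset.sum_sub_distrib]
      refine Finset.sum_congr rfl fun j _ => ?_
      ring
    rw [e1]
    have e2 := ev_le (B := (g x)⁻¹ - (g y)⁻¹) (c := 3 * C * ‖x - y‖)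
      (fun i j => by
        rw [Matrix.sub_apply]
        exact _root_.Pool.Agent.PFlow.KLIP.lip (hinv i j) (fun z k => hC.dinv z i j k) x y) p p
    refine e2.trans (le_of_eq ?_)
    ring
  have hal2 : ∀ x y (p : Cov), |regA ε δ κ (lsq g x p) - regA ε δ κ (lsq g y p)| ≤
      27 * C ^ 2 * D * ‖x - y‖ := by
    intro x y p
    have e1 := hls x p
    have e2 := hls y p
    have e3 : δ ^ 2 ≤ lsq g x p + δ ^ 2 := by linarith
    have e4 : δ ^ 2 ≤ lsq g y p + δ ^ 2 := by linarith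
    have e5 : regA ε δ κ (lsq g x p) - regA ε δ κ (lsq g y p) =
        (lsq g x p + δ ^ 2) ^ ((ε - 1) / 2) - (lsq g y p + δ ^ 2) ^ ((ε - 1) / 2) := by
      unfold regA
      ring
    have e6 : |lsq g y p + δ ^ 2 - (lsq g x p + δ ^ 2)| ≤ 27 * C * ‖x - y‖ * ‖vec p‖ ^ 2 := by
      have : lsq g y p + δ ^ 2 - (lsq g x p + δ ^ 2) = -(lsq g x p - lsq g y p) := by ring
      rw [this, abs_neg]
      exact hlx x y p
    have e7 : ∀ z, 27 * C * ‖x - y‖ * ‖vec p‖ ^ 2 ≤
        (27 * C ^ 2 * ‖x - y‖) * (lsq g z p + δ ^ 2) := by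
      intro z
      have f1 : ‖vec p‖ ^ 2 ≤ C * (lsq g z p + δ ^ 2) := by
        have := hC.low z p
        nlinarith [sq_nonneg δ, mul_nonneg hC0 (sq_nonneg δ)]
      have f2 : 0 ≤ 27 * C * ‖x - y‖ := by positivity
      calc _ ≤ 27 * C * ‖x - y‖ * (C * (lsq g z p + δ ^ 2)) := mul_le_mul_of_nonneg_left f1 f2
        _ = _ := by ring
    rw [e5]
    have e8 := pow_rel (q := (ε - 1) / 2) (s0 := δ ^ 2) (W := 27 * C ^ 2 * ‖x - y‖)
      (by linarith) (by positivity) e3 e4 (e6.trans (e7 x)) (e6.trans (e7 y))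
    refine e8.trans ?_
    have e9 : (δ ^ 2) ^ ((ε - 1) / 2) = D := by
      rw [pow_sqrt (sq_nonneg δ), Real.sqrt_sq hδ.le, hDdef]
    rw [e9]
    have e10 : 0 ≤ 27 * C ^ 2 * D * ‖x - y‖ := by positivity
    nlinarith
  have hrx : ∀ x y (p : Cov) i, |raise g x p i - raise g y p i| ≤ 9 * C * ‖x - y‖ * ‖vec p‖ := by
    intro x y p i
    have e1 : raise g x p i - raise g y p i = ∑ j, ((g x)⁻¹ i j - (g y)⁻¹ i j) * p j := by
      simp only [raise]
      rw [← Finset.sum_sub_distrib]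
      refine Finset.sum_congr rfl fun j _ => ?_
      ring
    rw [e1]
    calc |∑ j, ((g x)⁻¹ i j - (g y)⁻¹ i j) * p j|
        ≤ ∑ j, |((g x)⁻¹ i j - (g y)⁻¹ i j) * p j| := Finset.abs_sum_le_sum_abs _ _
      _ ≤ ∑ _j : Fin 3, (3 * C * ‖x - y‖) * ‖vec p‖ := by
          refine Finset.sum_le_sum fun j _ => ?_
          rw [abs_mul]
          exact mul_le_mul (_root_.Pool.Agent.PFlow.KLIP.lip (hinv i j) (fun z k => hC.dinv z i j k) x y) (abs_le_norm p j)
            (abs_nonneg _) (by positivity)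
      _ = _ := by
          simp only [Finset.sum_const, Finset.card_univ, Fintype.card_fin, nsmul_eq_mul]
          push_cast
          ring
  have hcx : ∀ x y (p : Cov), ‖cA ε δ κ g x (vec p) - cA ε δ κ g y (vec p)‖ ≤
      3 * (3 * C ^ 2 * (D + κ) + 27 * C ^ 4 * D + 9 * C ^ 2 * (D + κ)) * ‖x - y‖ * ‖vec p‖ := by
    intro x y p
    have e0 : cA ε δ κ g x (vec p) - cA ε δ κ g y (vec p) =
        vec (fun i => volDen g x * regA ε δ κ (lsq g x p) * raise g x p i -
          volDen g y * regA ε δ κ (lsq g y p) * raise g y p i) := by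
      rw [cA, cA, ← WithLp.toLp_sub]
      rfl
    rw [e0]
    have hk : 0 ≤ D + κ := by linarith
    refine (norm_le_of_abs _ (B := (3 * C ^ 2 * (D + κ) + 27 * C ^ 4 * D + 9 * C ^ 2 * (D + κ)) *
      ‖x - y‖ * ‖vec p‖) (by positivity) fun i => ?_).trans (le_of_eq (by ring))
    have e1 : volDen g x * regA ε δ κ (lsq g x p) * raise g x p i -
          volDen g y * regA ε δ κ (lsq g y p) * raise g y p i =
        (volDen g x - volDen g y) * regA ε δ κ (lsq g x p) * raise g x p i +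
        volDen g y * (regA ε δ κ (lsq g x p) - regA ε δ κ (lsq g y p)) * raise g x p i +
        volDen g y * regA ε δ κ (lsq g y p) * (raise g x p i - raise g y p i) := by ring
    have r1 : |raise g x p i| ≤ C * ‖vec p‖ :=
      (abs_le_norm (raise g x p) i).trans (hC.raise x p)
    have r2 := hrx x y p i
    have v1 := _root_.Pool.Agent.PFlow.KLIP.lip hvol (fun z k => hC.dvol z k) x y
    have a1 := hal1 x p
    have a2 := hal1 y p
    have a3 := hal2 x y p
    have t1 : |(volDen g x - volDen g y) * regA ε δ κ (lsq g x p) * raise g x p i| ≤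
        (3 * C * ‖x - y‖) * (D + κ) * (C * ‖vec p‖) := by
      rw [abs_mul, abs_mul, abs_of_nonneg a1.1]
      exact mul_le_mul (mul_le_mul v1 a1.2 a1.1 (by positivity)) r1 (abs_nonneg _) (by positivity)
    have t2 : |volDen g y * (regA ε δ κ (lsq g x p) - regA ε δ κ (lsq g y p)) * raise g x p i| ≤
        C * (27 * C ^ 2 * D * ‖x - y‖) * (C * ‖vec p‖) := by
      rw [abs_mul, abs_mul, abs_of_nonneg (hv0 y)]
      exact mul_le_mul (mul_le_mul (hC.volUp y) a3 (abs_nonneg _) hC0) r1 (abs_nonneg _)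
        (by positivity)
    have t3 : |volDen g y * regA ε δ κ (lsq g y p) * (raise g x p i - raise g y p i)| ≤
        C * (D + κ) * (9 * C * ‖x - y‖ * ‖vec p‖) := by
      rw [abs_mul, abs_mul, abs_of_nonneg (hv0 y), abs_of_nonneg a2.1]
      exact mul_le_mul (mul_le_mul (hC.volUp y) a2.2 a2.1 hC0) r2 (abs_nonneg _)
        (by positivity)
    rw [e1]
    refine (abs_add_three _ _ _).trans ((add_le_add (add_le_add t1 t2) t3).trans (le_of_eq ?_))
    ring
  -- the constant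
  obtain ⟨L1, hL1⟩ : ∃ L1, L1 = C * ((2 * C ^ 2 * (9 * C ^ 2) + C ^ 2) * D + κ * C) := ⟨_, rfl⟩
  obtain ⟨L2, hL2⟩ : ∃ L2, L2 = C * ((2 * (180 * C ^ 5) * (9 * C ^ 2) + 180 * C ^ 5) * D) :=
    ⟨_, rfl⟩
  obtain ⟨L3, hL3⟩ : ∃ L3, L3 = 3 * (3 * C ^ 2 * (D + κ) + 27 * C ^ 4 * D +
    9 * C ^ 2 * (D + κ)) := ⟨_, rfl⟩
  have hL10 : 0 ≤ L1 := by rw [hL1]; positivity
  have hL20 : 0 ≤ L2 := by rw [hL2]; positivity
  have hL30 : 0 ≤ L3 := by rw [hL3]; have : 0 ≤ D + κ := by linarith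
                           positivity
  have hsw : ∀ p q : Cov, ‖vec (q - p)‖ = ‖vec (p - q)‖ := fun p q => by
    have : vec (q - p) = - vec (p - q) := by
      rw [← WithLp.toLp_neg, neg_sub]
    rw [this, norm_neg]
  refine ⟨L1 + L2 + L3, ?_, ?_, ?_⟩
  · intro x ξ η
    have e1 : ‖cA ε δ κ g x ξ - cA ε δ κ g x η‖ ≤ L1 * ‖ξ - η‖ := by
      have hn : ‖ξ - η‖ = ‖vec (ξ.ofLp - η.ofLp)‖ := rfl
      rw [hn, hL1]
      rcases le_total (Real.sqrt (lsq g x ξ + δ ^ 2)) (Real.sqrt (lsq g x η + δ ^ 2)) with hh | hh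
      · exact hA5 x ξ.ofLp η.ofLp hh
      · rw [norm_sub_rev, ← hsw]
        exact hA5 x η.ofLp ξ.ofLp hh
    refine e1.trans (mul_le_mul_of_nonneg_right (by linarith) (norm_nonneg _))
  · intro x ξ η
    have e1 : |cB ε δ g h x ξ - cB ε δ g h x η| ≤ L2 * ‖ξ - η‖ := by
      have hn : ‖ξ - η‖ = ‖vec (ξ.ofLp - η.ofLp)‖ := rfl
      rw [hn, hL2]
      rcases le_total (Real.sqrt (lsq g x ξ + δ ^ 2)) (Real.sqrt (lsq g x η + δ ^ 2)) with hh | hh
      · exact hB5 x ξ.ofLp η.ofLp hh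
      · rw [abs_sub_comm, ← hsw]
        exact hB5 x η.ofLp ξ.ofLp hh
    refine e1.trans (mul_le_mul_of_nonneg_right (by linarith) (norm_nonneg _))
  · intro x y ξ
    have e1 := hcx x y ξ.ofLp
    rw [← hL3] at e1
    have e2 : L3 * ‖x - y‖ * ‖ξ‖ ≤ (L1 + L2 + L3) * ‖x - y‖ * ‖ξ‖ :=
      mul_le_mul_of_nonneg_right (mul_le_mul_of_nonneg_right (by linarith) (norm_nonneg _))
        (norm_nonneg _)
    exact e1.trans e2

end Pool.Agent.PFlow


end

section

/-!
# Module XWO: the cubic integral over the outer windows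
-/

open MeasureTheory Filter Topology
open scoped ContDiff ENNReal

namespace Pool.Agent.PFlow

open Pool.Agent.PenroseSph

namespace XWOm

/-! ## The flat metric -/

lemma isOpen_Ann (a b : ℝ) : IsOpen (Ann a b) :=
  (isOpen_lt continuous_const continuous_norm).inter (isOpen_lt continuous_norm continuous_const)

lemma christoffel_flat {g : TensorField} {x : E3} (h : ∀ᶠ y in 𝓝 x, g y = 1) (k i j : Fin 3) :
    christoffel g k i j x = 0 := by
  have h1 : ∀ a b c : Fin 3, pd c (fun y => g y a b) x = 0 := by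
    intro a b c
    have h2 : (fun y => g y a b) =ᶠ[𝓝 x] fun _ => (1 : Bil) a b := by
      filter_upwards [h] with y hy
      rw [hy]
    unfold pd
    rw [h2.fderiv_eq]
    simp
  simp [christoffel, h1]

lemma cHess_flat {g : TensorField} {x : E3} (h : ∀ᶠ y in 𝓝 x, g y = 1) (p : Cov) (M : Bil) :
    cHess g x p M = M := by
  ext i j
  simp [cHess, christoffel_flat h]

lemma len_flat {g : TensorField} {x : E3} (h : g x = 1) (p : Cov) : len g x p = vsz p := by
  simp only [len, vsz, h, inv_one, ev]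
  congr 1
  refine Finset.sum_congr rfl fun i _ => ?_
  rw [Finset.sum_eq_single i]
  · rw [Matrix.one_apply_eq]
    ring
  · intro j _ hj
    rw [Matrix.one_apply_ne (Ne.symm hj)]
    ring
  · intro h
    exact absurd (Finset.mem_univ i) h

lemma volDen_flat {g : TensorField} {x : E3} (h : g x = 1) : volDen g x = 1 := by
  simp [volDen, h]

lemma trg_flat {g : TensorField} {x : E3} (h : g x = 1) (B : Bil) : trg g x B = ∑ i, B i i := by
  simp only [trg, h, inv_one]
  refine Finset.sum_congr rfl fun i _ => ?_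
  rw [Finset.sum_eq_single i]
  · rw [Matrix.one_apply_eq, one_mul]
  · intro j _ hj
    rw [Matrix.one_apply_ne (Ne.symm hj), zero_mul]
  · intro h
    exact absurd (Finset.mem_univ i) h

lemma raise_flat {g : TensorField} {x : E3} (h : g x = 1) (p : Cov) : raise g x p = p := by
  funext i
  simp only [raise, h, inv_one]
  rw [Finset.sum_eq_single i]
  · rw [Matrix.one_apply_eq, one_mul]
  · intro j _ hj
    rw [Matrix.one_apply_ne (Ne.symm hj), zero_mul]
  · intro h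
    exact absurd (Finset.mem_univ i) h

lemma vsz_sq (p : Cov) : vsz p ^ 2 = ∑ i, p i ^ 2 :=
  Real.sq_sqrt (Finset.sum_nonneg fun i _ => sq_nonneg _)

lemma msz_sq (B : Bil) : msz B ^ 2 = ∑ i, ∑ j, B i j ^ 2 :=
  Real.sq_sqrt (Finset.sum_nonneg fun i _ => Finset.sum_nonneg fun j _ => sq_nonneg _)

lemma vsz_nonneg (p : Cov) : 0 ≤ vsz p := Real.sqrt_nonneg _

lemma msz_nonneg (B : Bil) : 0 ≤ msz B := Real.sqrt_nonneg _

lemma vsz_pos {p : Cov} (h : p ≠ 0) : 0 < vsz p := by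
  apply Real.sqrt_pos.mpr
  by_contra h1
  apply h
  have h2 : ∑ i, p i ^ 2 = 0 :=
    le_antisymm (not_lt.mp h1) (Finset.sum_nonneg fun i _ => sq_nonneg _)
  rw [Finset.sum_eq_zero_iff_of_nonneg (fun i _ => sq_nonneg _)] at h2
  funext i
  have h3 := h2 i (Finset.mem_univ i)
  exact pow_eq_zero_iff (two_ne_zero) |>.mp h3

lemma vsz_smul (c : ℝ) (p : Cov) : vsz (fun i => c * p i) = |c| * vsz p := by
  have h1 : ∑ i, (c * p i) ^ 2 = c ^ 2 * ∑ i, p i ^ 2 := by
    rw [Finset.mul_sum]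
    exact Finset.sum_congr rfl fun i _ => by ring
  simp only [vsz]
  rw [h1, Real.sqrt_mul (sq_nonneg c), Real.sqrt_sq_eq_abs]

/-- Cauchy-Schwarz. -/
lemma abs_ev_le (B : Bil) (n : Cov) (hn : ∑ i, n i ^ 2 = 1) : |ev B n n| ≤ msz B := by
  have h1 : ev B n n = ∑ i, n i * ∑ j, B i j * n j := by
    simp only [ev]
    refine Finset.sum_congr rfl fun i _ => ?_
    rw [Finset.mul_sum]
    exact Finset.sum_congr rfl fun j _ => by ring
  have h2 : ev B n n ^ 2 ≤ msz B ^ 2 := by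
    rw [h1, msz_sq]
    refine (Finset.sum_mul_sq_le_sq_mul_sq _ _ _).trans ?_
    rw [hn, one_mul]
    refine Finset.sum_le_sum fun i _ => ?_
    refine (Finset.sum_mul_sq_le_sq_mul_sq _ _ _).trans ?_
    rw [hn, mul_one]
  exact abs_le_of_sq_le_sq h2 (msz_nonneg B)

lemma bnn_flat {g : TensorField} {x : E3} (h : g x = 1) {p : Cov} (hp : p ≠ 0) (B : Bil) :
    |bnn g x p B| ≤ msz B := by
  refine abs_ev_le B _ ?_
  have h1 : ∀ i, nrm g x p i ^ 2 = p i ^ 2 / vsz p ^ 2 := by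
    intro i
    simp only [nrm, raise_flat h, len_flat h]
    rw [div_pow]
  rw [Finset.sum_congr rfl (fun i _ => h1 i), ← Finset.sum_div, ← vsz_sq]
  exact div_self (pow_ne_zero 2 (vsz_pos hp).ne')

lemma H2On_mono {U V : Set E3} {w : E3 → ℝ} {G : E3 → Cov} {M : E3 → Bil} (h : H2On U w G M)
    (hV : V ⊆ U) : H2On V w G M :=
  ⟨h.cont.mono hV, fun K hK hKV => h.memG K hK (hKV.trans hV),
    fun K hK hKV => h.memM K hK (hKV.trans hV), fun K hK hKV => h.approx K hK (hKV.trans hV)⟩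

end XWOm

open XWOm in
/-- **(XWO)** The cubic integral over the outer windows. -/
theorem XWO (hSETW : Stmt_SETW) (hLE : Stmt_LE) : Stmt_XWO := by
  intro P
  by_cases hP : 0 < P.eps ∧ P.eps ≤ 1 / 2 ∧ 0 < P.gam
  swap
  · exact ⟨1, one_pos, fun D S => absurd ⟨S.eps_pos, S.eps_le, S.gam_pos⟩ hP⟩
  obtain ⟨hε, hε2, hγ⟩ := hP
  have h2ε : 0 < 2 - P.eps := by linarith
  set a := Real.exp (-P.gam / (2 - P.eps)) with ha
  set b := Real.exp ((1 + P.gam) / (2 - P.eps)) with hb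
  have ha0 : 0 < a := Real.exp_pos _
  have hb0 : 0 < b := Real.exp_pos _
  have hab : a < b := by
    apply Real.exp_lt_exp.mpr
    exact (div_lt_div_iff_of_pos_right h2ε).mpr (by linarith)
  obtain ⟨C, hC, hLE'⟩ := hLE P.eps 0 (a / 2) a b (2 * b) hε (by linarith) le_rfl
    (by linarith) (by linarith) hab (by linarith)
  refine ⟨P.eps ^ 3 * C * Real.exp ((1 + 2 * P.gam + (2 - P.eps) * Real.log 2) / P.eps) ^ 3,
    by positivity, ?_⟩
  intro D S s hs hs1
  obtain ⟨-, -, -, -, -, -, hmeas, -, -, hR2, h4l, -⟩ := hSETW P D S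
  have hl : 4 ≤ D.l := S.l_ge
  have hR : 16 * D.l ≤ D.R := by
    have h1 := S.R_ge'
    have h2 : 16 * D.l ≤ 2 * D.l / P.kap := by
      rw [le_div_iff₀ S.kap_pos]
      nlinarith [S.kap_le]
    linarith
  have hR0 : 0 < D.R := by linarith
  have hRi : 1 / D.R ≤ 1 := by
    rw [div_le_one hR0]
    linarith
  set ρ := Real.exp (s / (2 - P.eps)) with hρ
  have hρ0 : 0 < ρ := Real.exp_pos _
  have haρ : a * ρ = Real.exp ((s - P.gam) / (2 - P.eps)) := by
    rw [ha, hρ, ← Real.exp_add]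
    congr 1
    ring
  have hbρ : b * ρ = Real.exp ((s + 1 + P.gam) / (2 - P.eps)) := by
    rw [hb, hρ, ← Real.exp_add]
    congr 1
    ring
  have h4 : 4 * D.l ≤ a * ρ := by
    rw [haρ, ← Real.log_le_iff_le_exp (by linarith), le_div_iff₀ h2ε]
    have h1 : D.s2 P = (2 - P.eps) * Real.log (4 * D.l) + P.gam := rfl
    rw [h1] at hs
    linarith
  have hbR : b * ρ ≤ D.R / 2 := by
    rw [hbρ, ← Real.le_log_iff_exp_le (by linarith), div_le_iff₀ h2ε]
    have h1 : D.sM P = (2 - P.eps) * Real.log (D.R / 2) - P.gam := rfl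
    rw [h1] at hs1
    linarith
  -- the big annulus
  have hbig : ∀ x ∈ Ann (a / 2 * ρ) (2 * b * ρ), 2 * D.l < ‖x‖ ∧ ‖x‖ < D.R := by
    intro x hx
    constructor
    · have h1 := hx.1
      nlinarith
    · have h1 := hx.2
      nlinarith
  have hsub : Ann (a / 2 * ρ) (2 * b * ρ) ⊆ Ann (1 / D.R) D.R := by
    intro x hx
    obtain ⟨h1, h2⟩ := hbig x hx
    exact ⟨by linarith, h2⟩
  have hflat : ∀ x : E3, 2 * D.l < ‖x‖ → ∀ᶠ y in 𝓝 x, D.g' y = 1 := by
    intro x hx
    filter_upwards [(isOpen_lt continuous_const continuous_norm).mem_nhds hx] with y hy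
    exact S.modified.flat y (le_of_lt hy)
  have hh0 : ∀ x : E3, 2 * D.l < ‖x‖ → D.h' x = 0 := by
    intro x hx
    exact S.modified.supp x (by linarith)
  have hsol := S.sol
  have hloc := S.located
  -- the bound for `u`
  set T := Real.exp ((2 * P.gam + (2 - P.eps) * Real.log 2 - s) / P.eps) with hT
  have hT0 : 0 < T := Real.exp_pos _
  have hub : ∀ x ∈ Ann (a / 2 * ρ) (2 * b * ρ), |D.u x| ≤ T := by
    intro x hx
    obtain ⟨h1, h2⟩ := hbig x hx
    have hu : 0 < D.u x := hloc.pos x (hsub hx)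
    rw [abs_of_pos hu, hT, ← Real.log_le_iff_le_exp hu, le_div_iff₀ hε]
    have h3 := hloc.outer_low x (by linarith) h2
    have h5 : wOf P.eps D.u x = -P.eps * Real.log (D.u x) := rfl
    rw [h5] at h3
    have hx0 : 0 < ‖x‖ := by linarith
    have h6 : (s - P.gam) / (2 - P.eps) - Real.log 2 ≤ Real.log ‖x‖ := by
      rw [Real.le_log_iff_exp_le hx0, Real.exp_sub, Real.exp_log two_pos, ← haρ]
      have h7 := hx.1
      linarith
    have h7 : (2 - P.eps) * ((s - P.gam) / (2 - P.eps) - Real.log 2)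
        = s - P.gam - (2 - P.eps) * Real.log 2 := by
      field_simp
    have h8 := mul_le_mul_of_nonneg_left h6 h2ε.le
    rw [h7] at h8
    linarith
  -- the equation in the flat region
  have heq : ∀ᵐ x ∂(volume.restrict (Ann (a / 2 * ρ) (2 * b * ρ))),
      |∑ i, D.M x i i| ≤ (1 - P.eps) * msz (D.M x) + 0 / ρ * vsz (D.G x) := by
    have h1 : ∀ᵐ x ∂(volume.restrict (Ann (a / 2 * ρ) (2 * b * ρ))), _ :=
      ae_restrict_of_ae_restrict_of_subset hsub hsol.eq
    filter_upwards [h1, ae_restrict_mem (isOpen_Ann _ _).measurableSet] with x hx hxA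
    obtain ⟨h2, -⟩ := hbig x hxA
    have hg := hflat x h2
    have hg1 : D.g' x = 1 := hg.self_of_nhds
    rw [zero_div, zero_mul, add_zero]
    by_cases hG : D.G x = 0
    · rw [hx.2 hG]
      simp only [Matrix.zero_apply, Finset.sum_const_zero, abs_zero]
      exact mul_nonneg (by linarith) (msz_nonneg _)
    · have h3 := hx.1 hG
      rw [cHess_flat hg, hh0 x h2] at h3
      have h5 : beps P.eps D.g' x (D.G x) (0 : Bil) = 0 := by
        simp [beps, trg, bnn, ev]
      rw [h5, mul_zero, add_zero, beps, trg_flat hg1] at h3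
      have h6 : ∑ i, D.M x i i = (1 - P.eps) * bnn D.g' x (D.G x) (D.M x) := by linarith
      rw [h6, abs_mul, abs_of_nonneg (by linarith : (0 : ℝ) ≤ 1 - P.eps)]
      exact mul_le_mul_of_nonneg_left (bnn_flat hg1 hG _) (by linarith)
  obtain ⟨hint, hle⟩ := hLE' ρ T D.u D.G D.M hρ0 hT0.le (H2On_mono hsol.h2 hsub) hub heq
  -- the window
  set Wn : Set E3 := D.Om ∩ {x | s < D.w P x ∧ D.w P x < s + 1} with hWn
  have hWm : MeasurableSet Wn := by
    refine (isOpen_Ann _ _).measurableSet.inter ?_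
    exact (measurableSet_lt measurable_const hmeas).inter (measurableSet_lt hmeas measurable_const)
  have hWsub : Wn ⊆ cAnn (a * ρ) (b * ρ) := by
    rintro x ⟨hxO, hx1, hx2⟩
    have h1 := hR2 x hxO (by linarith)
    have h2 := h4l x hxO (by linarith)
    have h3 := abs_le.mp (hloc.outer x (by linarith) h1.le)
    have h5 : D.w P x = wOf P.eps D.u x := rfl
    rw [← h5] at h3
    have hx0 : 0 < ‖x‖ := by linarith
    constructor
    · rw [haρ, ← Real.le_log_iff_exp_le hx0, div_le_iff₀ h2ε]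
      linarith [h3.2]
    · rw [hbρ, ← Real.log_le_iff_le_exp hx0, le_div_iff₀ h2ε]
      linarith [h3.1]
  set k := P.eps * Real.exp ((s + 1) / P.eps) with hk
  have hk0 : 0 < k := by positivity
  have hpt : ∀ x ∈ Wn, D.X P x ^ 3 * D.vol x ≤ k ^ 3 * vsz (D.G x) ^ 3 := by
    intro x hxW
    obtain ⟨hxO, hx1, hx2⟩ := id hxW
    have h2 := h4l x hxO (by linarith)
    have hg1 : D.g' x = 1 := (hflat x (by linarith)).self_of_nhds
    have hu : 0 < D.u x := hloc.pos x hxO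
    have h3 : D.vol x = 1 := volDen_flat hg1
    have h5 : D.X P x = P.eps / D.u x * vsz (D.G x) := by
      have h6 : D.X P x = vsz (D.Gw P x) := len_flat hg1 _
      have h7 : D.Gw P x = fun i => -(P.eps / D.u x) * D.G x i := by
        funext i
        change -P.eps * (D.G x i / D.u x) = _
        ring
      rw [h6, h7, vsz_smul, abs_neg, abs_of_pos (by positivity)]
    have h6 : P.eps / D.u x ≤ k := by
      rw [hk, div_eq_mul_inv]
      refine mul_le_mul_of_nonneg_left ?_ hε.le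
      have h7 : Real.exp (-((s + 1) / P.eps)) ≤ D.u x := by
        rw [← Real.le_log_iff_exp_le hu]
        have h8 : D.w P x = -P.eps * Real.log (D.u x) := rfl
        rw [h8] at hx2
        have h9 : -((s + 1) / P.eps) * P.eps = -(s + 1) := by
          field_simp
        have h10 : -((s + 1) / P.eps) * P.eps ≤ Real.log (D.u x) * P.eps := by
          rw [h9]
          linarith
        exact le_of_mul_le_mul_right h10 hε
      have h8 := inv_anti₀ (Real.exp_pos _) h7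
      rwa [Real.exp_neg, inv_inv] at h8
    rw [h3, mul_one, ← mul_pow, h5]
    refine pow_le_pow_left₀ (mul_nonneg (by positivity) (vsz_nonneg _)) ?_ 3
    exact mul_le_mul_of_nonneg_right h6 (vsz_nonneg _)
  have hnn : ∀ x ∈ Wn, 0 ≤ D.X P x ^ 3 * D.vol x := by
    intro x _
    have h1 : 0 ≤ D.X P x := Real.sqrt_nonneg _
    have h2 : 0 ≤ D.vol x := Real.sqrt_nonneg _
    positivity
  have hI : IntegrableOn (fun x => k ^ 3 * vsz (D.G x) ^ 3) (cAnn (a * ρ) (b * ρ)) :=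
    hint.const_mul _
  have h1 : ∫ x in Wn, D.X P x ^ 3 * D.vol x ≤ ∫ x in Wn, k ^ 3 * vsz (D.G x) ^ 3 := by
    refine integral_mono_of_nonneg ?_ (hI.mono_set hWsub) ?_
    · exact ae_restrict_of_forall_mem hWm hnn
    · exact ae_restrict_of_forall_mem hWm hpt
  have h2 : ∫ x in Wn, k ^ 3 * vsz (D.G x) ^ 3
      ≤ ∫ x in cAnn (a * ρ) (b * ρ), k ^ 3 * vsz (D.G x) ^ 3 := by
    refine setIntegral_mono_set hI ?_ (HasSubset.Subset.eventuallyLE hWsub)
    refine Filter.Eventually.of_forall fun x => ?_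
    have h3 := vsz_nonneg (D.G x)
    change 0 ≤ k ^ 3 * vsz (D.G x) ^ 3
    positivity
  refine h1.trans (h2.trans ?_)
  rw [integral_const_mul]
  refine (mul_le_mul_of_nonneg_left hle (by positivity)).trans (le_of_eq ?_)
  have h3 : Real.exp ((1 + 2 * P.gam + (2 - P.eps) * Real.log 2) / P.eps)
      = Real.exp ((s + 1) / P.eps) * T := by
    rw [hT, ← Real.exp_add]
    congr 1
    ring
  rw [h3, hk]
  ring

end Pool.Agent.PFlow


end
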