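import Mathlib
import Pool.Agent.PFlow.DefsE

/-! Parts: PFlow.StmtsE1, PFlow.E.AFD, PFlow.E.HSM2, PFlow.E.CUTM, PFlow.E.KAP -/

section

/-!
# Statements of the modules of the energy block, part 1: the modified data
-/

open MeasureTheory Filter Topology
open scoped ContDiff ENNReal

namespace Pool.Agent.PFlow

open Pool.Agent.PenroseSph

/-- AFD: uniform constants for both ends, from radius one on. -/
def Stmt_AFD : Prop :=
  ∀ g h : TensorField, TwoEnded g h → ∃ C : ℝ, 0 < C ∧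
    DecayFrom C 1 g h ∧ DecayFrom C 1 (inverted g) (inverted h) ∧
    (∀ x : E3, 1 ≤ ‖x‖ → ∀ v : Cov,
      (∑ i, v i ^ 2) ≤ C * ev (g x) v v ∧ ev (g x) v v ≤ C * ∑ i, v i ^ 2) ∧
    (∀ x : E3, 1 ≤ ‖x‖ → ∀ v : Cov,
      (∑ i, v i ^ 2) ≤ C * ev (inverted g x) v v ∧ ev (inverted g x) v v ≤ C * ∑ i, v i ^ 2)

/-- HATA: if all sums of two eigenvalues of `B` are nonnegative then `|B|² ≤ 3 (tr B)²`. -/
def Stmt_HATA : Prop :=
  ∀ (g : TensorField) (x : E3) (B : Bil), (g x).PosDef → B.IsSymm →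
    (∀ v : Cov, ev (g x) v v = 1 → ev B v v ≤ trg g x B) →
    0 ≤ trg g x B ∧ nsq g x B ≤ 3 * trg g x B ^ 2

/-- HATB: smoothness, 2-nonnegativity and size of `ĥ`. -/
def Stmt_HATB : Prop :=
  ∀ (g h : TensorField) (η : ℝ), 0 < η → MetricOn {0}ᶜ g → TensorOn {0}ᶜ h → PlaneSign g h →
    TensorOn {0}ᶜ (hat η g h) ∧ TwoNonneg {0}ᶜ g (hat η g h) ∧
    (∀ x : E3, x ≠ 0 → nsq g x (hat η g h x) ≤ nsq g x (h x)) ∧
    (∀ (x : E3) (i j : Fin 3), |hat η g h x i j| ≤ |h x i j|)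

/-- JPROD: the momentum density of `f h`. -/
def Stmt_JPROD : Prop :=
  ∀ (U : Set E3) (g h : TensorField) (f : E3 → ℝ), IsOpen U → MetricOn U g → TensorOn U h →
    ContDiffOn ℝ ∞ f U → ∀ x ∈ U,
    (∀ j, momentumDensity g (fun y => f y • h y) j x = f x * momentumDensity g h j x
      + ∑ i, ∑ k, (g x)⁻¹ i k * pd k f x * (h x i j - trg g x (h x) * g x i j)) ∧
    jlen g (fun y => f y • h y) x ≤ |f x| * jlen g h x
      + Real.sqrt (nsq g x (h x) + trg g x (h x) ^ 2) * len g x (grad f x)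

/-- HATC: the surplus of `ĥ`. -/
def Stmt_HATC : Prop :=
  ∀ (g h : TensorField) (η : ℝ), 0 < η → MetricOn {0}ᶜ g → TensorOn {0}ᶜ h → PlaneSign g h →
    ∀ x : E3, x ≠ 0 → surplus g h x - eEta η g h x ≤ surplus g (hat η g h) x ∧
      jlen g (hat η g h) x ≤ jlen g h x + eEta η g h x

/-- EETA: the defect is continuous, nonnegative and small in `L^q` for small `η`. -/
def Stmt_EETA : Prop :=
  ∀ g h : TensorField, MetricOn {0}ᶜ g → TensorOn {0}ᶜ h →
    (∀ η : ℝ, 0 < η → ContinuousOn (eEta η g h) {0}ᶜ ∧ ∀ x : E3, x ≠ 0 → 0 ≤ eEta η g h x) ∧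
    ∀ r₀ l q τ : ℝ, 0 < r₀ → 1 ≤ q → 0 < τ → ∃ η : ℝ, 0 < η ∧ η ≤ 1 ∧
      ∫ x in cAnn r₀ l, eEta η g h x ^ q ≤ τ

/-- KAP: the cut-off function. -/
def Stmt_KAP : Prop :=
  ContDiff ℝ ∞ kap ∧ (∀ s, 0 ≤ kap s ∧ kap s ≤ 1) ∧ (∀ s, s ≤ 1 → kap s = 1) ∧
    (∀ s, 2 ≤ s → kap s = 0) ∧
    (∃ C : ℝ, 0 < C ∧ ∀ l : ℝ, 0 < l → ∀ x : E3,
      (∀ k, |pd k (fun y => kap (‖y‖ / l)) x| ≤ C / l) ∧
      (∀ k m, |pd k (pd m (fun y => kap (‖y‖ / l))) x| ≤ C / l ^ 2)) ∧
    (∀ l : ℝ, 0 < l → ContDiff ℝ ∞ (fun y : E3 => kap (‖y‖ / l))) ∧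
    (∀ R : ℝ, 0 < R → ContDiff ℝ ∞ (kin R))

/-- CUTM: the modified metric and tensor. -/
def Stmt_CUTM : Prop :=
  ∀ (g h : TensorField) (η l R : ℝ), 0 < η → 1 ≤ l → 4 * l ≤ R → MetricOn {0}ᶜ g →
    TensorOn {0}ᶜ h → PlaneSign g h →
    MetricOn Set.univ (modG l R g) ∧ TensorOn Set.univ (modH η l R g h) ∧
    TwoNonneg Set.univ (modG l R g) (modH η l R g h) ∧
    (∀ x : E3, 1 / (16 * R) < ‖x‖ → ‖x‖ < l → modG l R g x = g x) ∧
    (∀ x : E3, 2 * l ≤ ‖x‖ → modG l R g x = 1) ∧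
    (∀ x : E3, l ≤ ‖x‖ → modH η l R g h x = 0) ∧
    (∀ x : E3, 1 / (8 * R) ≤ ‖x‖ → ‖x‖ ≤ l / 2 → modH η l R g h x = hat η g h x)

/-- CUTD: uniform decay and ellipticity of the modified metric for `|x| ≥ 1`. -/
def Stmt_CUTD : Prop :=
  ∀ (g h : TensorField) (C : ℝ), MetricOn {0}ᶜ g → DecayFrom C 1 g h →
    (∀ x : E3, 1 ≤ ‖x‖ → ∀ v : Cov,
      (∑ i, v i ^ 2) ≤ C * ev (g x) v v ∧ ev (g x) v v ≤ C * ∑ i, v i ^ 2) →
    ∃ C' : ℝ, 0 < C' ∧ ∀ l R : ℝ, 1 ≤ l → 4 * l ≤ R →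
      DecayFrom C' 1 (modG l R g) 0 ∧
      (∀ x : E3, 1 ≤ ‖x‖ → ∀ v : Cov, (∑ i, v i ^ 2) ≤ C' * ev (modG l R g x) v v ∧
        ev (modG l R g x) v v ≤ C' * ∑ i, v i ^ 2)

/-- SHELL: the surplus in the region `ℓ/2 ≤ |x| ≤ ℓ` where the tensor is cut off. -/
def Stmt_SHELL : Prop :=
  ∀ (g h : TensorField) (C : ℝ), MetricOn {0}ᶜ g → TensorOn {0}ᶜ h → PlaneSign g h →
    DominantEnergy 0 g h → DecayFrom C 1 g h →
    (∀ x : E3, 1 ≤ ‖x‖ → ∀ v : Cov,
      (∑ i, v i ^ 2) ≤ C * ev (g x) v v ∧ ev (g x) v v ≤ C * ∑ i, v i ^ 2) →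
    ∃ C' : ℝ, 0 < C' ∧ ∀ η l R : ℝ, 0 < η → 2 ≤ l → 4 * l ≤ R → ∀ x : E3, l / 2 < ‖x‖ → ‖x‖ < l →
      -eEta η g h x - C' * (msz (h x) / l + msz (h x) ^ 2)
        ≤ surplus (modG l R g) (modH η l R g h) x

/-- SCAL: the scalar curvature in the linear approximation. -/
def Stmt_SCAL : Prop :=
  ∀ C : ℝ, ∃ C' r₀ : ℝ, 0 < C' ∧ 1 ≤ r₀ ∧ ∀ (g : TensorField) (x : E3), r₀ ≤ ‖x‖ →
    (∀ᶠ y in 𝓝 x, (g y).IsSymm) → (∀ i j, ContDiffAt ℝ ∞ (fun y => g y i j) x) →
    (∀ i j, |g x i j - (1 : Bil) i j| ≤ C / ‖x‖ ∧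
      (∀ k, |pd k (fun y => g y i j) x| ≤ C / ‖x‖ ^ 2) ∧
      (∀ k l, |pd k (pd l (fun y => g y i j)) x| ≤ C / ‖x‖ ^ 3)) →
    |scalarCurvature g x * volDen g x - linR g x| ≤ C' / ‖x‖ ^ 4 ∧ |linR g x| ≤ C' / ‖x‖ ^ 3

/-- DIVG: the divergence theorem on an annulus. -/
def Stmt_DIVG : Prop :=
  ∀ (V : E3 → Fin 3 → ℝ) (a b : ℝ), 0 < a → a ≤ b →
    (∀ x ∈ cAnn a b, ∀ i, ContDiffAt ℝ 1 (fun y => V y i) x) →
    ∫ x in cAnn a b, ∑ i, pd i (fun y => V y i) x
      = (∫ θ : Metric.sphere (0 : E3) 1, (∑ i, V (b • (θ : E3)) i * (θ : E3) i) * b ^ 2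
          ∂((volume : Measure E3).toSphere))
        - ∫ θ : Metric.sphere (0 : E3) 1, (∑ i, V (a • (θ : E3)) i * (θ : E3) i) * a ^ 2
          ∂((volume : Measure E3).toSphere)

/-- DIVA: the divergence theorem on the annulus `l ≤ |x| ≤ 2l` for the mass integrand. -/
def Stmt_DIVA : Prop :=
  ∀ (g : TensorField) (l : ℝ), 0 < l →
    (∀ x : E3, l / 2 < ‖x‖ → ∀ i j, ContDiffAt ℝ ∞ (fun y => g y i j) x) →
    (∀ x : E3, 2 * l ≤ ‖x‖ → g x = 1) →
    ∫ x in cAnn l (2 * l), linR g x = -(16 * Real.pi * massIntegral g l)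

/-- RADN: the operator on radial functions. -/
def Stmt_RADN : Prop :=
  ∀ (ε : ℝ) (g h : TensorField) (F : ℝ → ℝ) (x : E3), x ≠ 0 → (g x).PosDef →
    ContDiffAt ℝ 2 F ‖x‖ → deriv F ‖x‖ < 0 →
    grad (fun y => F ‖y‖) x ≠ 0 ∧ 0 < len g x (grad rad x) ∧
    opN ε g h (fun y => F ‖y‖) x = len g x (grad rad x) ^ 2 *
      (ε * deriv (deriv F) ‖x‖ + barB ε g h x * deriv F ‖x‖)

/-- BARA: the coefficient of the radial equation at the special end. -/
def Stmt_BARA : Prop :=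
  ∀ C : ℝ, ∃ C' : ℝ, 0 < C' ∧ ∀ (g h : TensorField) (x : E3), 1 ≤ ‖x‖ →
    (∀ i j, ContDiffAt ℝ ∞ (fun y => g y i j) x) → (g x).PosDef → (h x).IsSymm →
    (∀ v : Cov, (∑ i, v i ^ 2) ≤ C * ev (g x) v v ∧ ev (g x) v v ≤ C * ∑ i, v i ^ 2) →
    (∀ i j, |g x i j - (1 : Bil) i j| ≤ C / ‖x‖ ∧
      (∀ k, |pd k (fun y => g y i j) x| ≤ C / ‖x‖ ^ 2) ∧ |h x i j| ≤ C / ‖x‖ ^ 2) →
    ∀ ε : ℝ, 0 < ε → ε ≤ 1 → |barB ε g h x - 2 / ‖x‖| ≤ C' / ‖x‖ ^ 2

/-- BARB: the coefficient of the radial equation at the other end. -/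
def Stmt_BARB : Prop :=
  ∀ C : ℝ, ∃ C' : ℝ, 0 < C' ∧ ∀ (g h : TensorField) (x : E3), x ≠ 0 → ‖x‖ ≤ 1 →
    MetricOn {0}ᶜ g → (h x).IsSymm → DecayFrom C 1 (inverted g) 0 →
    (∀ y : E3, 1 ≤ ‖y‖ → ∀ v : Cov,
      (∑ i, v i ^ 2) ≤ C * ev (inverted g y) v v ∧ ev (inverted g y) v v ≤ C * ∑ i, v i ^ 2) →
    nsq g x (h x) ≤ C * ‖x‖ ^ 4 →
    ∀ ε : ℝ, 0 < ε → ε ≤ 1 → |barB ε g h x + 2 * (1 - ε) / ‖x‖| ≤ C'

/-- HSM2: the size of `h` at the other end. -/
def Stmt_HSM2 : Prop :=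
  ∀ (g h : TensorField) (C : ℝ), MetricOn {0}ᶜ g → TensorOn {0}ᶜ h →
    DecayFrom C 1 (inverted g) (inverted h) →
    (∀ y : E3, 1 ≤ ‖y‖ → ∀ v : Cov,
      (∑ i, v i ^ 2) ≤ C * ev (inverted g y) v v ∧ ev (inverted g y) v v ≤ C * ∑ i, v i ^ 2) →
    ∃ C' : ℝ, 0 < C' ∧ ∀ x : E3, x ≠ 0 → ‖x‖ ≤ 1 → nsq g x (h x) ≤ C' * ‖x‖ ^ 4

/-- MOD: existence of the modified data. -/
def Stmt_MOD : Prop :=
  ∀ g h : TensorField, TwoEnded g h → DominantEnergy 0 g h → PlaneSign g h →
    ∃ C l₀ : ℝ, 0 < C ∧ 2 ≤ l₀ ∧ ∀ l R : ℝ, l₀ ≤ l → 4 * l ≤ R →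
      ∀ r₀ q τ : ℝ, 0 < r₀ → 1 ≤ q → 0 < τ →
        ∃ (g' h' : TensorField) (e : E3 → ℝ), Modified g h C l R g' h' e ∧
          ∫ x in cAnn r₀ l, e x ^ q ≤ τ

/-- LIMK: the mean of `|h|` over large shells tends to zero faster than the inverse square. -/
def Stmt_LIMK : Prop :=
  ∀ (g h : TensorField) (m : ℝ), TwoEnded g h → DominantEnergy 0 g h → PureTraceOrFast g h →
    IsTotalMass g m →
    Tendsto (fun l : ℝ => ∫ x in cAnn (l / 2) l, msz (h x) / l) atTop (𝓝 0)

end Pool.Agent.PFlow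


end

section

/-!
# Module AFD: uniform constants for both ends, from radius one on
-/

open MeasureTheory Filter Topology
open scoped ContDiff ENNReal

namespace Pool.Agent.PFlow.AFDaux

open Pool.Agent.PenroseSph Pool.Agent.PFlow

/-! ### Smoothness of the inversion -/

theorem isOpen_compl_zero : IsOpen ({0}ᶜ : Set E3) := isOpen_compl_singleton

theorem contDiffOn_normSq_inv : ContDiffOn ℝ ∞ (fun x : E3 => (‖x‖ ^ 2)⁻¹) {0}ᶜ := by
  have h1 : ContDiffOn ℝ ∞ (fun x : E3 => ‖x‖ ^ 2) {0}ᶜ := (contDiff_norm_sq ℝ).contDiffOn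
  refine h1.inv ?_
  intro x hx
  have : x ≠ 0 := by simpa using hx
  positivity

theorem contDiffOn_inversion : ContDiffOn ℝ ∞ inversion {0}ᶜ := by
  unfold inversion
  exact contDiffOn_normSq_inv.smul contDiffOn_id

theorem inversion_ne_zero {x : E3} (hx : x ≠ 0) : inversion x ≠ 0 := by
  unfold inversion
  refine smul_ne_zero ?_ hx
  positivity

theorem mapsTo_inversion : Set.MapsTo inversion ({0}ᶜ : Set E3) {0}ᶜ := by
  intro x hx
  have : x ≠ 0 := by simpa using hx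
  simpa using inversion_ne_zero this

theorem contDiffOn_coord (i : Fin 3) : ContDiffOn ℝ ∞ (fun x : E3 => x i) {0}ᶜ := by
  have : (fun y : E3 => y i) = fun y => (EuclideanSpace.proj i : E3 →L[ℝ] ℝ) y := rfl
  rw [this]
  exact (ContinuousLinearMap.contDiff _).contDiffOn

theorem contDiffOn_jac (a i : Fin 3) :
    ContDiffOn ℝ ∞ (fun x : E3 => inversionJac x a i) {0}ᶜ := by
  have h : (fun x : E3 => inversionJac x a i) = fun x : E3 =>
      ((if a = i then 1 else 0) - 2 * x a * x i * (‖x‖ ^ 2)⁻¹) * (‖x‖ ^ 2)⁻¹ := by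
    funext x
    simp only [inversionJac, Matrix.of_apply, div_eq_mul_inv]
  rw [h]
  refine ContDiffOn.mul (ContDiffOn.sub contDiffOn_const ?_) contDiffOn_normSq_inv
  exact ((contDiffOn_const.mul (contDiffOn_coord a)).mul (contDiffOn_coord i)).mul
    contDiffOn_normSq_inv

theorem inverted_apply (g : TensorField) (y : E3) (i j : Fin 3) :
    inverted g y i j = ∑ b, (∑ a, inversionJac y a i * g (inversion y) a b) * inversionJac y b j := by
  simp only [inverted, Matrix.mul_apply, Matrix.transpose_apply]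

theorem inverted_smooth (g : TensorField)
    (hg : ∀ i j, ContDiffOn ℝ ∞ (fun x => g x i j) {0}ᶜ) (i j : Fin 3) :
    ContDiffOn ℝ ∞ (fun x => inverted g x i j) {0}ᶜ := by
  have h : (fun x => inverted g x i j) = fun y =>
      ∑ b, (∑ a, inversionJac y a i * g (inversion y) a b) * inversionJac y b j := by
    funext y; exact inverted_apply g y i j
  rw [h]
  refine ContDiffOn.sum fun b _ => ContDiffOn.mul (ContDiffOn.sum fun a _ => ?_)
    (contDiffOn_jac b j)
  refine (contDiffOn_jac a i).mul ?_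
  exact (hg a b).comp contDiffOn_inversion mapsTo_inversion

/-! ### The inverted fields -/

theorem normSq_eq3 (x : E3) : ‖x‖ ^ 2 = x 0 ^ 2 + x 1 ^ 2 + x 2 ^ 2 := by
  rw [EuclideanSpace.norm_sq_eq, Fin.sum_univ_three]
  simp

theorem jac_sq {y : E3} (hy : y ≠ 0) :
    inversionJac y * inversionJac y = ((‖y‖ ^ 2)⁻¹ ^ 2) • (1 : Bil) := by
  have hn : ‖y‖ ^ 2 ≠ 0 := by positivity
  have hs := normSq_eq3 y
  ext i j
  simp only [Matrix.mul_apply, inversionJac, Matrix.of_apply, Matrix.smul_apply, smul_eq_mul,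
    Fin.sum_univ_three, Matrix.one_apply]
  generalize hN : ‖y‖ ^ 2 = N at *
  have hN' : N ≠ 0 := hn
  fin_cases i <;> fin_cases j <;> simp <;> field_simp <;> rw [hs] <;> ring

theorem jac_transpose (y : E3) : (inversionJac y).transpose = inversionJac y := by
  ext i j
  simp only [Matrix.transpose_apply, inversionJac, Matrix.of_apply, eq_comm]
  congr 2
  ring

theorem inverted_posDef {g : TensorField} {y : E3} (hy : y ≠ 0)
    (hg : (g (inversion y)).PosDef) : (inverted g y).PosDef := by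
  have hJ : Function.Injective (inversionJac y).mulVec := by
    intro v w hvw
    have h1 : (inversionJac y).mulVec ((inversionJac y).mulVec v)
        = (inversionJac y).mulVec ((inversionJac y).mulVec w) := congrArg _ hvw
    simp only [Matrix.mulVec_mulVec, jac_sq hy, Matrix.smul_mulVec, Matrix.one_mulVec] at h1
    have hn : ((‖y‖ ^ 2)⁻¹ ^ 2) ≠ 0 := by positivity
    exact smul_right_injective _ hn h1
  have h2 := hg.conjTranspose_mul_mul_same hJ
  have h3 : (inversionJac y).conjTranspose = (inversionJac y).transpose := by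
    ext i j
    simp [Matrix.conjTranspose_apply, Matrix.transpose_apply]
  rw [h3] at h2
  exact h2

theorem inverted_metric {g : TensorField} (hg : MetricOn {0}ᶜ g) : MetricOn {0}ᶜ (inverted g) where
  smooth := inverted_smooth g hg.smooth
  posDef := by
    intro x hx
    have hx0 : x ≠ 0 := by simpa using hx
    exact inverted_posDef hx0 (hg.posDef _ (mapsTo_inversion hx))

theorem inverted_tensor {h : TensorField} (hh : TensorOn {0}ᶜ h) : TensorOn {0}ᶜ (inverted h) where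
  smooth := inverted_smooth h hh.smooth
  symm := by
    intro x hx
    have h1 := hh.symm _ (mapsTo_inversion hx)
    unfold Matrix.IsSymm at h1 ⊢
    simp only [inverted, Matrix.transpose_mul, Matrix.transpose_transpose, h1, Matrix.mul_assoc]

/-! ### Continuity of the partial derivatives off the origin -/

theorem contDiffOn_pd {f : E3 → ℝ} (hf : ContDiffOn ℝ ∞ f {0}ᶜ) (k : Fin 3) :
    ContDiffOn ℝ ∞ (pd k f) {0}ᶜ := by
  have h1 : ContDiffOn ℝ ∞ (fderiv ℝ f) {0}ᶜ :=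
    hf.fderiv_of_isOpen isOpen_compl_zero (by simp)
  unfold pd
  exact h1.clm_apply contDiffOn_const

/-- The closed annulus is compact. -/
theorem isCompact_cAnn (a b : ℝ) : IsCompact (cAnn a b) := by
  have h1 : cAnn a b = Metric.closedBall (0 : E3) b ∩ {x : E3 | a ≤ ‖x‖} := by
    ext x
    simp only [cAnn, Set.mem_ofPred_eq, Set.mem_inter_iff, Metric.mem_closedBall, dist_zero_right]
    exact and_comm
  rw [h1]
  exact (isCompact_closedBall _ _).inter_right (isClosed_le continuous_const continuous_norm)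

theorem cAnn_subset {a b : ℝ} (ha : 0 < a) : cAnn a b ⊆ ({0}ᶜ : Set E3) := by
  intro x hx
  have h1 : a ≤ ‖x‖ := hx.1
  simp only [Set.mem_compl_iff, Set.mem_singleton_iff]
  rintro rfl
  simp at h1
  linarith

/-- A finite family of continuous functions on the punctured space is bounded on annuli. -/
theorem bound_family {ι : Type} [Fintype ι] (F : ι → E3 → ℝ)
    (hF : ∀ i, ContinuousOn (F i) {0}ᶜ) (R : ℝ) :
    ∃ M : ℝ, 0 < M ∧ ∀ i, ∀ x ∈ cAnn 1 R, |F i x| ≤ M := by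
  have h1 : ∀ i, ∃ M : ℝ, ∀ x ∈ cAnn 1 R, |F i x| ≤ M := by
    intro i
    obtain ⟨M, hM⟩ := (isCompact_cAnn 1 R).exists_bound_of_continuousOn
      ((hF i).mono (cAnn_subset one_pos))
    exact ⟨M, fun x hx => by simpa [Real.norm_eq_abs] using hM x hx⟩
  choose M hM using h1
  refine ⟨1 + ∑ i, |M i|, by positivity, fun i x hx => ?_⟩
  have h2 : |M i| ≤ ∑ j, |M j| :=
    Finset.single_le_sum (f := fun j => |M j|) (fun j _ => abs_nonneg _) (Finset.mem_univ i)
  have h3 := hM i x hx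
  have h4 := le_abs_self (M i)
  linarith

/-! ### Decay from radius one -/

theorem decay_mono {C C' R : ℝ} {g h : TensorField} (hd : DecayFrom C R g h) (hR : 0 < R)
    (hC : C ≤ C') : DecayFrom C' R g h := by
  intro x hx i j
  have hxp : 0 < ‖x‖ := lt_of_lt_of_le hR hx
  obtain ⟨h1, h2, h3, h4, h5⟩ := hd x hx i j
  have hm : ∀ n : ℕ, C / ‖x‖ ^ n ≤ C' / ‖x‖ ^ n := fun n =>
    div_le_div_of_nonneg_right hC (by positivity)
  have hm1 : C / ‖x‖ ≤ C' / ‖x‖ := by simpa using hm 1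
  exact ⟨h1.trans hm1, fun k => (h2 k).trans (hm 2), fun k l => (h3 k l).trans (hm 3),
    h4.trans (hm 2), fun k => (h5 k).trans (hm 3)⟩

theorem decay_one {g h : TensorField}
    (hg : ∀ i j, ContDiffOn ℝ ∞ (fun x => g x i j) {0}ᶜ)
    (hh : ∀ i j, ContDiffOn ℝ ∞ (fun x => h x i j) {0}ᶜ)
    (hd : ∃ C R : ℝ, DecayFrom C R g h) : ∃ C : ℝ, 0 < C ∧ DecayFrom C 1 g h := by
  obtain ⟨C, R, hd⟩ := hd
  obtain ⟨M0, hM0, b0⟩ := bound_family (ι := Fin 3 × Fin 3)
    (fun p x => g x p.1 p.2 - (1 : Bil) p.1 p.2)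
    (fun p => ((hg p.1 p.2).continuousOn).sub continuousOn_const) (max R 1)
  obtain ⟨M1, hM1, b1⟩ := bound_family (ι := Fin 3 × Fin 3 × Fin 3)
    (fun p x => pd p.2.2 (fun y => g y p.1 p.2.1) x)
    (fun p => (contDiffOn_pd (hg p.1 p.2.1) p.2.2).continuousOn) (max R 1)
  obtain ⟨M2, hM2, b2⟩ := bound_family (ι := Fin 3 × Fin 3 × Fin 3 × Fin 3)
    (fun p x => pd p.2.2.1 (pd p.2.2.2 (fun y => g y p.1 p.2.1)) x)
    (fun p => (contDiffOn_pd (contDiffOn_pd (hg p.1 p.2.1) p.2.2.2) p.2.2.1).continuousOn)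
    (max R 1)
  obtain ⟨N0, hN0, c0⟩ := bound_family (ι := Fin 3 × Fin 3)
    (fun p x => h x p.1 p.2) (fun p => (hh p.1 p.2).continuousOn) (max R 1)
  obtain ⟨N1, hN1, c1⟩ := bound_family (ι := Fin 3 × Fin 3 × Fin 3)
    (fun p x => pd p.2.2 (fun y => h y p.1 p.2.1) x)
    (fun p => (contDiffOn_pd (hh p.1 p.2.1) p.2.2).continuousOn) (max R 1)
  set Q : ℝ := max R 1 with hQ
  have hQ1 : 1 ≤ Q := le_max_right _ _
  have hQR : R ≤ Q := le_max_left _ _
  set M : ℝ := M0 + M1 + M2 + N0 + N1 with hM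
  have hMp : 0 < M := by positivity
  refine ⟨|C| + M * Q ^ 3, by positivity, ?_⟩
  intro x hx i j
  have hxp : 0 < ‖x‖ := by linarith
  by_cases hxR : R ≤ ‖x‖
  · obtain ⟨h1, h2, h3, h4, h5⟩ := hd x hxR i j
    have hCC : C ≤ |C| + M * Q ^ 3 := by
      have : 0 ≤ M * Q ^ 3 := by positivity
      have := le_abs_self C
      linarith
    have hm : ∀ n : ℕ, C / ‖x‖ ^ n ≤ (|C| + M * Q ^ 3) / ‖x‖ ^ n := fun n =>
      div_le_div_of_nonneg_right hCC (by positivity)
    have hm1 : C / ‖x‖ ≤ (|C| + M * Q ^ 3) / ‖x‖ := by simpa using hm 1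
    exact ⟨h1.trans hm1, fun k => (h2 k).trans (hm 2), fun k l => (h3 k l).trans (hm 3),
      h4.trans (hm 2), fun k => (h5 k).trans (hm 3)⟩
  · have hxQ : ‖x‖ ≤ Q := by linarith [not_le.mp hxR]
    have hmem : x ∈ cAnn 1 Q := ⟨hx, hxQ⟩
    have hm : ∀ n : ℕ, n ≤ 3 → ∀ t : ℝ, t ≤ M → t ≤ (|C| + M * Q ^ 3) / ‖x‖ ^ n := by
      intro n hn t ht
      rw [le_div_iff₀ (by positivity)]
      have e1 : ‖x‖ ^ n ≤ Q ^ n := pow_le_pow_left₀ hxp.le hxQ n
      have e2 : Q ^ n ≤ Q ^ 3 := pow_le_pow_right₀ hQ1 hn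
      have e3 : t * ‖x‖ ^ n ≤ M * ‖x‖ ^ n := mul_le_mul_of_nonneg_right ht (by positivity)
      have e4 : M * ‖x‖ ^ n ≤ M * Q ^ 3 := mul_le_mul_of_nonneg_left (e1.trans e2) hMp.le
      have := abs_nonneg C
      linarith
    have hm1 : ∀ t : ℝ, t ≤ M → t ≤ (|C| + M * Q ^ 3) / ‖x‖ := by
      intro t ht
      simpa using hm 1 (by norm_num) t ht
    refine ⟨hm1 _ ?_, fun k => hm 2 (by norm_num) _ ?_, fun k l => hm 3 le_rfl _ ?_,
      hm 2 (by norm_num) _ ?_, fun k => hm 3 le_rfl _ ?_⟩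
    · have := b0 (i, j) x hmem
      simp only at this
      linarith
    · have := b1 (i, j, k) x hmem
      simp only at this
      linarith
    · have := b2 (i, j, k, l) x hmem
      simp only at this
      linarith
    · have := c0 (i, j) x hmem
      simp only at this
      linarith
    · have := c1 (i, j, k) x hmem
      simp only at this
      linarith

/-! ### Ellipticity -/

theorem ev_smul (B : Bil) (s : ℝ) (v : Cov) : ev B (s • v) (s • v) = s ^ 2 * ev B v v := by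
  simp only [ev, Fin.sum_univ_three, Pi.smul_apply, smul_eq_mul]
  ring

theorem ev_posDef {B : Bil} (hB : B.PosDef) {v : Cov} (hv : v ≠ 0) : 0 < ev B v v := by
  have h1 := hB.dotProduct_mulVec_pos hv
  have h2 : ev B v v = star v ⬝ᵥ B.mulVec v := by
    simp only [ev, dotProduct, Matrix.mulVec, Fin.sum_univ_three, Pi.star_apply, star_trivial]
    ring
  rw [h2]
  exact h1

/-- The unit sphere of covectors. -/
def unitCov : Set Cov := {v : Cov | ∑ i, v i ^ 2 = 1}

theorem isCompact_unitCov : IsCompact unitCov := by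
  refine Metric.isCompact_of_isClosed_isBounded ?_ ?_
  · refine isClosed_eq ?_ continuous_const
    exact continuous_finsetSum _ fun i _ => (continuous_apply i).pow 2
  · refine (Metric.isBounded_closedBall (x := (0 : Cov)) (r := 1)).subset ?_
    intro v hv
    have hv' : ∑ i, v i ^ 2 = 1 := hv
    rw [mem_closedBall_zero_iff, pi_norm_le_iff_of_nonneg zero_le_one]
    intro i
    have h1 : v i ^ 2 ≤ ∑ j, v j ^ 2 :=
      Finset.single_le_sum (f := fun j => v j ^ 2) (fun j _ => sq_nonneg _) (Finset.mem_univ i)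
    rw [hv'] at h1
    rw [Real.norm_eq_abs]
    exact abs_le_of_sq_le_sq' (by simpa using h1) zero_le_one |> abs_le.mpr

theorem elliptic_annulus {g : TensorField} (hg : MetricOn {0}ᶜ g) (R : ℝ) :
    ∃ C : ℝ, 0 < C ∧ ∀ x ∈ cAnn 1 R, ∀ v : Cov,
      (∑ i, v i ^ 2) ≤ C * ev (g x) v v ∧ ev (g x) v v ≤ C * ∑ i, v i ^ 2 := by
  have hcomp : IsCompact (cAnn 1 R ×ˢ unitCov) := (isCompact_cAnn 1 R).prod isCompact_unitCov
  have hcont : ContinuousOn (fun p : E3 × Cov => ev (g p.1) p.2 p.2) (cAnn 1 R ×ˢ unitCov) := by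
    unfold ev
    refine continuousOn_finsetSum _ fun i _ => continuousOn_finsetSum _ fun j _ => ?_
    refine (ContinuousOn.mul ?_ ?_).mul ?_
    · exact ((hg.smooth i j).continuousOn.mono (cAnn_subset one_pos)).comp continuousOn_fst
        (fun p hp => hp.1)
    · exact ((continuous_apply i).comp continuous_snd).continuousOn
    · exact ((continuous_apply j).comp continuous_snd).continuousOn
  have hpos : ∀ p ∈ cAnn 1 R ×ˢ unitCov, 0 < ev (g p.1) p.2 p.2 := by
    intro p hp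
    refine ev_posDef (hg.posDef _ (cAnn_subset one_pos hp.1)) ?_
    intro h0
    have h1 : ∑ i, p.2 i ^ 2 = 1 := hp.2
    rw [h0] at h1
    simp at h1
  obtain ⟨M, hM⟩ := hcomp.exists_bound_of_continuousOn hcont
  obtain ⟨N, hN⟩ := hcomp.exists_bound_of_continuousOn
    (hcont.inv₀ fun p hp => (hpos p hp).ne')
  refine ⟨1 + |M| + |N|, by positivity, ?_⟩
  intro x hx v
  by_cases hv : v = 0
  · subst hv
    simp [ev]
  have hs : 0 < ∑ i, v i ^ 2 := by
    obtain ⟨i, hi⟩ := Function.ne_iff.mp hv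
    have h1 : v i ^ 2 ≤ ∑ j, v j ^ 2 :=
      Finset.single_le_sum (f := fun j => v j ^ 2) (fun j _ => sq_nonneg _) (Finset.mem_univ i)
    have h2 : 0 < v i ^ 2 := by
      have : v i ≠ 0 := by simpa using hi
      positivity
    linarith
  set s : ℝ := Real.sqrt (∑ i, v i ^ 2) with hsdef
  have hsp : 0 < s := Real.sqrt_pos.mpr hs
  have hs2 : s ^ 2 = ∑ i, v i ^ 2 := Real.sq_sqrt hs.le
  have hw : (s⁻¹ • v) ∈ unitCov := by
    show ∑ i, (s⁻¹ • v) i ^ 2 = 1
    have : ∑ i, (s⁻¹ • v) i ^ 2 = (s⁻¹) ^ 2 * ∑ i, v i ^ 2 := by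
      rw [Finset.mul_sum]
      refine Finset.sum_congr rfl fun i _ => ?_
      simp only [Pi.smul_apply, smul_eq_mul]
      ring
    rw [this, ← hs2]
    field_simp
  have hmem : (x, s⁻¹ • v) ∈ cAnn 1 R ×ˢ unitCov := ⟨hx, hw⟩
  have hev : ev (g x) v v = s ^ 2 * ev (g x) (s⁻¹ • v) (s⁻¹ • v) := by
    rw [ev_smul]
    field_simp
  have hp := hpos _ hmem
  have h1 := hM _ hmem
  have h2 := hN _ hmem
  simp only [Real.norm_eq_abs, Pi.inv_apply] at h1 h2 hp
  set E : ℝ := ev (g x) (s⁻¹ • v) (s⁻¹ • v) with hE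
  rw [← hs2, hev]
  rw [abs_of_pos hp] at h1
  rw [abs_of_pos (inv_pos.mpr hp)] at h2
  have h3 : E ≤ 1 + |M| + |N| := by
    have := le_abs_self M
    have := abs_nonneg N
    linarith
  have h4 : 1 ≤ (1 + |M| + |N|) * E := by
    have h5 : E⁻¹ ≤ 1 + |M| + |N| := by
      have := le_abs_self N
      have := abs_nonneg M
      linarith
    calc (1 : ℝ) = E⁻¹ * E := by field_simp
      _ ≤ (1 + |M| + |N|) * E := mul_le_mul_of_nonneg_right h5 hp.le
  constructor
  · nlinarith [sq_nonneg s]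
  · nlinarith [sq_nonneg s]

theorem ev_near_one {B : Bil} {δ : ℝ} (hδ : δ ≤ 1 / 6)
    (hB : ∀ i j, |B i j - (1 : Bil) i j| ≤ δ) (v : Cov) :
    (∑ i, v i ^ 2) ≤ 2 * ev B v v ∧ ev B v v ≤ 2 * ∑ i, v i ^ 2 := by
  have hδ0 : 0 ≤ δ := (abs_nonneg _).trans (hB 0 0)
  have h1 : ev B v v = (∑ i, v i ^ 2) + ∑ i, ∑ j, (B i j - (1 : Bil) i j) * v i * v j := by
    simp only [ev, Fin.sum_univ_three, Matrix.one_apply]
    simp
    ring
  have h2 : |∑ i, ∑ j, (B i j - (1 : Bil) i j) * v i * v j| ≤ 3 * δ * ∑ i, v i ^ 2 := by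
    have e1 : |∑ i, ∑ j, (B i j - (1 : Bil) i j) * v i * v j|
        ≤ ∑ i, ∑ j, δ * (|v i| * |v j|) := by
      refine (Finset.abs_sum_le_sum_abs _ _).trans (Finset.sum_le_sum fun i _ => ?_)
      refine (Finset.abs_sum_le_sum_abs _ _).trans (Finset.sum_le_sum fun j _ => ?_)
      rw [abs_mul, abs_mul, mul_assoc]
      exact mul_le_mul_of_nonneg_right (hB i j) (by positivity)
    refine e1.trans ?_
    simp only [Fin.sum_univ_three]
    have q0 := sq_abs (v 0)
    have q1 := sq_abs (v 1)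
    have q2 := sq_abs (v 2)
    have k1 := mul_nonneg hδ0 (sq_nonneg (|v 0| - |v 1|))
    have k2 := mul_nonneg hδ0 (sq_nonneg (|v 0| - |v 2|))
    have k3 := mul_nonneg hδ0 (sq_nonneg (|v 1| - |v 2|))
    rw [← q0, ← q1, ← q2]
    nlinarith
  have h3 : 0 ≤ ∑ i, v i ^ 2 := Finset.sum_nonneg fun i _ => sq_nonneg _
  have h4 := abs_le.mp h2
  have h5 : 3 * δ * ∑ i, v i ^ 2 ≤ (1 / 2) * ∑ i, v i ^ 2 :=
    mul_le_mul_of_nonneg_right (by linarith) h3
  constructor
  · rw [h1]; linarith [h4.1]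
  · rw [h1]; linarith [h4.2]

theorem elliptic_one {g h : TensorField} {C : ℝ} (hg : MetricOn {0}ᶜ g)
    (hd : DecayFrom C 1 g h) :
    ∃ C' : ℝ, 0 < C' ∧ ∀ x : E3, 1 ≤ ‖x‖ → ∀ v : Cov,
      (∑ i, v i ^ 2) ≤ C' * ev (g x) v v ∧ ev (g x) v v ≤ C' * ∑ i, v i ^ 2 := by
  obtain ⟨A, hA, hA2⟩ := elliptic_annulus hg (max 1 (6 * C))
  have hpos : ∀ x : E3, 1 ≤ ‖x‖ → ∀ v : Cov, 0 ≤ ev (g x) v v := by
    intro x hx v
    by_cases hv : v = 0
    · subst hv; simp [ev]
    · refine (ev_posDef (hg.posDef x ?_) hv).le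
      simp only [Set.mem_compl_iff, Set.mem_singleton_iff]
      rintro rfl
      simp at hx
      linarith
  refine ⟨A + 2, by positivity, ?_⟩
  intro x hx v
  have hn : 0 ≤ ∑ i, v i ^ 2 := Finset.sum_nonneg fun i _ => sq_nonneg _
  have he := hpos x hx v
  by_cases hxR : ‖x‖ ≤ max 1 (6 * C)
  · obtain ⟨h1, h2⟩ := hA2 x ⟨hx, hxR⟩ v
    constructor
    · nlinarith
    · nlinarith
  · have hx6 : 6 * C < ‖x‖ := lt_of_le_of_lt (le_max_right _ _) (not_le.mp hxR)
    have hxp : 0 < ‖x‖ := by linarith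
    have hδ : C / ‖x‖ ≤ 1 / 6 := by
      rw [div_le_iff₀ hxp]
      linarith
    obtain ⟨h1, h2⟩ := ev_near_one hδ (fun i j => (hd x hx i j).1) v
    constructor
    · nlinarith
    · nlinarith

end Pool.Agent.PFlow.AFDaux

namespace Pool.Agent.PFlow

open Pool.Agent.PenroseSph AFDaux

theorem AFD : Stmt_AFD := by
  intro g h hT
  have hg' := inverted_metric hT.metric
  have hh' := inverted_tensor hT.tensor
  obtain ⟨C1, hC1, d1⟩ := decay_one hT.metric.smooth hT.tensor.smooth hT.end_one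
  obtain ⟨C2, hC2, d2⟩ := decay_one hg'.smooth hh'.smooth hT.end_two
  obtain ⟨C3, hC3, e1⟩ := elliptic_one hT.metric d1
  obtain ⟨C4, hC4, e2⟩ := elliptic_one hg' d2
  refine ⟨C1 + C2 + C3 + C4, by positivity, decay_mono d1 one_pos (by linarith),
    decay_mono d2 one_pos (by linarith), ?_, ?_⟩
  · intro x hx v
    obtain ⟨h1, h2⟩ := e1 x hx v
    have hn : 0 ≤ ∑ i, v i ^ 2 := Finset.sum_nonneg fun i _ => sq_nonneg _
    have he : 0 ≤ ev (g x) v v := by
      by_contra hneg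
      nlinarith
    constructor
    · nlinarith
    · nlinarith
  · intro x hx v
    obtain ⟨h1, h2⟩ := e2 x hx v
    have hn : 0 ≤ ∑ i, v i ^ 2 := Finset.sum_nonneg fun i _ => sq_nonneg _
    have he : 0 ≤ ev (inverted g x) v v := by
      by_contra hneg
      nlinarith
    constructor
    · nlinarith
    · nlinarith

end Pool.Agent.PFlow


end

section

/-!
# The size of `h` at the other end

The squared length of a tensor does not depend on the coordinates; in the inverted coordinates the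
metric is uniformly elliptic and the tensor is bounded by `C / |y|²`.
-/

open MeasureTheory Filter Topology
open scoped ContDiff ENNReal

namespace Pool.Agent.PFlow

open Pool.Agent.PenroseSph

namespace HSM2

/-- The squared length as a function of two matrices. -/
noncomputable def q (A B : Bil) : ℝ :=
  ∑ i, ∑ j, ∑ k, ∑ l, A i k * A j l * B i j * B k l

theorem q_eq (A B : Bil) : q A B = (B.transpose * (A * B * A.transpose)).trace := by
  have h1 : q A B = ∑ i, ∑ j, B i j * (A * B * A.transpose) i j := by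
    unfold q
    refine Finset.sum_congr rfl fun i _ => Finset.sum_congr rfl fun j _ => ?_
    simp only [Matrix.mul_apply, Matrix.transpose_apply, Finset.mul_sum, Finset.sum_mul]
    rw [Finset.sum_comm]
    refine Finset.sum_congr rfl fun k _ => Finset.sum_congr rfl fun l _ => ?_
    ring
  rw [h1]
  unfold Matrix.trace
  simp only [Matrix.diag_apply, Matrix.mul_apply (M := B.transpose), Matrix.transpose_apply]
  rw [Finset.sum_comm]

/-- Invariance of the squared length. -/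
theorem q_congr (A B J : Bil) : q (J * A * J.transpose) B = q A (J.transpose * B * J) := by
  rw [q_eq, q_eq]
  simp only [Matrix.transpose_mul, Matrix.transpose_transpose]
  have h1 : B.transpose * (J * A * J.transpose * B * (J * (A.transpose * J.transpose)))
      = (B.transpose * J * A * J.transpose * B * J * A.transpose) * J.transpose := by
    simp only [Matrix.mul_assoc]
  have h2 : J.transpose * (B.transpose * J) * (A * (J.transpose * B * J) * A.transpose)
      = J.transpose * (B.transpose * J * A * J.transpose * B * J * A.transpose) := by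
    simp only [Matrix.mul_assoc]
  rw [h1, h2, Matrix.trace_mul_comm]

theorem q_le (A B : Bil) (a b : ℝ) (ha : 0 ≤ a) (hb : 0 ≤ b) (hA : ∀ i j, |A i j| ≤ a)
    (hB : ∀ i j, |B i j| ≤ b) : q A B ≤ 81 * (a ^ 2 * b ^ 2) := by
  have hs : ∀ i j k l : Fin 3, A i k * A j l * B i j * B k l ≤ a ^ 2 * b ^ 2 := by
    intro i j k l
    calc A i k * A j l * B i j * B k l ≤ |A i k * A j l * B i j * B k l| := le_abs_self _
      _ = |A i k| * |A j l| * |B i j| * |B k l| := by rw [abs_mul, abs_mul, abs_mul]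
      _ ≤ a * a * b * b := by
          gcongr
          · exact hA i k
          · exact hA j l
          · exact hB i j
          · exact hB k l
      _ = a ^ 2 * b ^ 2 := by ring
  unfold q
  calc ∑ i, ∑ j, ∑ k, ∑ l, A i k * A j l * B i j * B k l
      ≤ ∑ i : Fin 3, ∑ j : Fin 3, ∑ k : Fin 3, ∑ l : Fin 3, a ^ 2 * b ^ 2 :=
        Finset.sum_le_sum fun i _ => Finset.sum_le_sum fun j _ => Finset.sum_le_sum fun k _ =>
          Finset.sum_le_sum fun l _ => hs i j k l
    _ = 81 * (a ^ 2 * b ^ 2) := by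
        simp only [Finset.sum_const, Finset.card_univ, Fintype.card_fin, nsmul_eq_mul]
        push_cast
        ring

theorem ev_eq (M : Bil) (v : Cov) : ev M v v = ∑ i, v i * (M.mulVec v) i := by
  unfold ev
  refine Finset.sum_congr rfl fun i _ => ?_
  simp only [Matrix.mulVec, dotProduct, Finset.mul_sum]
  refine Finset.sum_congr rfl fun j _ => ?_
  ring

/-- An elliptic matrix has a bounded inverse. -/
theorem inv_bound (M : Bil) (C : ℝ) (hC : 0 ≤ C)
    (h : ∀ v : Cov, (∑ i, v i ^ 2) ≤ C * ev M v v) (hM : IsUnit M.det) (i j : Fin 3) :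
    |M⁻¹ i j| ≤ C := by
  set v : Cov := M⁻¹.mulVec (Pi.single j 1) with hv
  have hvi : ∀ i, v i = M⁻¹ i j := by
    intro i
    rw [hv, Matrix.mulVec_single_one]
    rfl
  have hMv : M.mulVec v = Pi.single j 1 := by
    rw [hv, Matrix.mulVec_mulVec, Matrix.mul_nonsing_inv M hM, Matrix.one_mulVec]
  have h1 : (∑ i, v i ^ 2) ≤ C * v j := by
    have h2 := h v
    rw [ev_eq, hMv] at h2
    have h3 : ∑ i, v i * (Pi.single j (1 : ℝ) : Cov) i = v j := by
      rw [Finset.sum_eq_single j]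
      · simp
      · intro b _ hb
        simp [hb]
      · intro hb
        exact absurd (Finset.mem_univ _) hb
    rwa [h3] at h2
  have h4 : ∀ k, v k ^ 2 ≤ C * v j := fun k =>
    (Finset.single_le_sum (fun m _ => sq_nonneg (v m)) (Finset.mem_univ k)).trans h1
  have h5 : v j ≤ C := by
    by_contra hcon
    push Not at hcon
    have h6 := h4 j
    have h7 : 0 < v j := lt_of_le_of_lt hC hcon
    nlinarith
  have h6 : v i ^ 2 ≤ C ^ 2 := by
    calc v i ^ 2 ≤ C * v j := h4 i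
      _ ≤ C * C := mul_le_mul_of_nonneg_left h5 hC
      _ = C ^ 2 := by ring
  rw [← hvi i]
  exact abs_le_of_sq_le_sq h6 hC

/-- The Jacobian of the inversion squares to a multiple of the identity. -/
theorem jac_sq (y : E3) (hy : y ≠ 0) :
    inversionJac y * inversionJac y = ((‖y‖ ^ 2)⁻¹ ^ 2) • (1 : Bil) := by
  have hn : ‖y‖ ≠ 0 := norm_ne_zero_iff.mpr hy
  have hs : ‖y‖ ^ 2 = y 0 ^ 2 + y 1 ^ 2 + y 2 ^ 2 := by
    rw [EuclideanSpace.norm_sq_eq]
    simp [Fin.sum_univ_three]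
  have hs0 : y 0 ^ 2 + y 1 ^ 2 + y 2 ^ 2 ≠ 0 := by
    rw [← hs]
    positivity
  ext i j
  simp only [inversionJac, Matrix.mul_apply, Matrix.of_apply, Fin.sum_univ_three,
    Matrix.smul_apply, Matrix.one_apply, smul_eq_mul, hs]
  fin_cases i <;> fin_cases j <;> simp <;> field_simp <;> ring

theorem jac_unit (y : E3) (hy : y ≠ 0) : IsUnit (inversionJac y).det := by
  have hn : 0 < ‖y‖ := norm_pos_iff.mpr hy
  have h := congrArg Matrix.det (jac_sq y hy)
  rw [Matrix.det_mul, Matrix.det_smul, Matrix.det_one] at h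
  rw [isUnit_iff_ne_zero]
  intro h0
  rw [h0] at h
  have : (0 : ℝ) < ((‖y‖ ^ 2)⁻¹ ^ 2) ^ Fintype.card (Fin 3) * 1 := by positivity
  rw [← h] at this
  simp at this

theorem inversion_ne (x : E3) (hx : x ≠ 0) : inversion x ≠ 0 := by
  unfold inversion
  have hn : 0 < ‖x‖ := norm_pos_iff.mpr hx
  exact smul_ne_zero (by positivity) hx

theorem norm_inversion (x : E3) (hx : x ≠ 0) : ‖inversion x‖ = ‖x‖⁻¹ := by
  unfold inversion
  have hn : 0 < ‖x‖ := norm_pos_iff.mpr hx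
  rw [norm_smul, norm_inv, norm_pow, norm_norm]
  field_simp

theorem inversion_inversion (x : E3) (hx : x ≠ 0) : inversion (inversion x) = x := by
  have hn : 0 < ‖x‖ := norm_pos_iff.mpr hx
  have h1 : inversion (inversion x) = (‖inversion x‖ ^ 2)⁻¹ • inversion x := rfl
  rw [h1, norm_inversion x hx]
  unfold inversion
  rw [smul_smul]
  have : ((‖x‖⁻¹ ^ 2)⁻¹ * (‖x‖ ^ 2)⁻¹) = 1 := by field_simp
  rw [this, one_smul]

/-- The squared length in the inverted coordinates. -/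
theorem nsq_eq (g h : TensorField) (x : E3) (hx : x ≠ 0) :
    nsq g x (h x) = q (inverted g (inversion x))⁻¹ (inverted h (inversion x)) := by
  have hJ := jac_unit (inversion x) (inversion_ne x hx)
  set J := inversionJac (inversion x) with hJdef
  have hinv : ∀ k : TensorField, inverted k (inversion x) = J.transpose * k x * J := by
    intro k
    unfold inverted
    rw [inversion_inversion x hx]
  have h1 : nsq g x (h x) = q (g x)⁻¹ (h x) := rfl
  have hJt : IsUnit J.transpose.det := by rwa [Matrix.det_transpose]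
  have h2 : (g x)⁻¹ = J * (inverted g (inversion x))⁻¹ * J.transpose := by
    rw [hinv g, Matrix.mul_inv_rev, Matrix.mul_inv_rev]
    calc (g x)⁻¹ = (J * J⁻¹) * (g x)⁻¹ * (J.transpose⁻¹ * J.transpose) := by
          rw [Matrix.mul_nonsing_inv J hJ, Matrix.nonsing_inv_mul _ hJt, Matrix.one_mul,
            Matrix.mul_one]
      _ = J * (J⁻¹ * ((g x)⁻¹ * J.transpose⁻¹)) * J.transpose := by
          simp only [Matrix.mul_assoc]
  rw [h1, h2, q_congr, ← hinv h]

end HSM2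

theorem HSM2 : Stmt_HSM2 := by
  intro g h C hg _ hdec hell
  have hC : 0 ≤ C := by
    have h1 : ∃ y : E3, (1 : ℝ) ≤ ‖y‖ ∧ y ≠ 0 := by
      refine ⟨EuclideanSpace.single 0 1, ?_, ?_⟩
      · simp
      · intro h0
        have := congrArg norm h0
        simp at this
    obtain ⟨y, hy, hy0⟩ := h1
    have h2 := (hdec y hy 0 0).2.2.2.1
    have h3 : 0 ≤ C / ‖y‖ ^ 2 := (abs_nonneg _).trans h2
    have hn : 0 < ‖y‖ := lt_of_lt_of_le one_pos hy
    by_contra hcon
    push Not at hcon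
    have : C / ‖y‖ ^ 2 < 0 := div_neg_of_neg_of_pos hcon (by positivity)
    linarith
  refine ⟨81 * C ^ 4 + 1, by positivity, ?_⟩
  intro x hx hx1
  have hn : 0 < ‖x‖ := norm_pos_iff.mpr hx
  have hy : 1 ≤ ‖inversion x‖ := by
    rw [HSM2.norm_inversion x hx]
    exact (one_le_inv₀ hn).mpr hx1
  rw [HSM2.nsq_eq g h x hx]
  have hJ := HSM2.jac_unit (inversion x) (HSM2.inversion_ne x hx)
  have hunit : IsUnit (inverted g (inversion x)).det := by
    unfold inverted
    rw [HSM2.inversion_inversion x hx, Matrix.det_mul, Matrix.det_mul, Matrix.det_transpose]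
    have hgx : IsUnit (g x).det := by
      rw [isUnit_iff_ne_zero]
      exact (hg.posDef x hx).det_pos.ne'
    exact (hJ.mul hgx).mul hJ
  have h1 := HSM2.q_le (inverted g (inversion x))⁻¹ (inverted h (inversion x)) C (C * ‖x‖ ^ 2)
    hC (by positivity)
    (HSM2.inv_bound _ C hC (fun v => (hell _ hy v).1) hunit)
    (by
      intro i j
      have h2 := (hdec _ hy i j).2.2.2.1
      rw [HSM2.norm_inversion x hx] at h2
      refine h2.trans (le_of_eq ?_)
      field_simp)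
  refine h1.trans ?_
  have h3 : 81 * (C ^ 2 * (C * ‖x‖ ^ 2) ^ 2) = 81 * C ^ 4 * ‖x‖ ^ 4 := by ring
  rw [h3]
  have h4 : 0 ≤ ‖x‖ ^ 4 := by positivity
  nlinarith

end Pool.Agent.PFlow


end

section

/-!
# CUTM: the modified metric and tensor
-/

open MeasureTheory Filter Topology
open scoped ContDiff ENNReal

namespace Pool.Agent.PFlow

open Pool.Agent.PenroseSph

namespace CUTM

lemma kap_nonneg (h : Stmt_KAP) (s : ℝ) : 0 ≤ kap s := (h.2.1 s).1

lemma kap_le_one (h : Stmt_KAP) (s : ℝ) : kap s ≤ 1 := (h.2.1 s).2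

lemma kin_nonneg (h : Stmt_KAP) (R : ℝ) (x : E3) : 0 ≤ kin R x := by
  unfold kin
  linarith [kap_le_one h (32 * R * ‖x‖)]

lemma kin_le_one (h : Stmt_KAP) (R : ℝ) (x : E3) : kin R x ≤ 1 := by
  unfold kin
  linarith [kap_nonneg h (32 * R * ‖x‖)]

lemma kin_zero (h : Stmt_KAP) {R : ℝ} (hR : 0 < R) {x : E3} (hx : ‖x‖ ≤ 1 / (32 * R)) :
    kin R x = 0 := by
  unfold kin
  rw [h.2.2.1 _ ?_, sub_self]
  rw [le_div_iff₀ (by positivity)] at hx
  linarith

lemma kin_one (h : Stmt_KAP) {R : ℝ} (hR : 0 < R) {x : E3} (hx : 1 / (16 * R) ≤ ‖x‖) :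
    kin R x = 1 := by
  unfold kin
  rw [h.2.2.2.1 _ ?_, sub_zero]
  rw [div_le_iff₀ (by positivity)] at hx
  linarith

lemma ne_zero_of_norm {x : E3} {a : ℝ} (ha : 0 < a) (h : a ≤ ‖x‖) : x ≠ 0 := by
  rintro rfl
  rw [norm_zero] at h
  linarith

/-- A smooth function times a function smooth off the origin, if the factor vanishes near the
origin. -/
lemma smooth_of {c f : E3 → ℝ} {a : ℝ} (ha : 0 < a) (hc : ContDiff ℝ ∞ c)
    (h0 : ∀ x : E3, ‖x‖ ≤ a → c x = 0) (hf : ContDiffOn ℝ ∞ f {0}ᶜ) :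
    ContDiff ℝ ∞ (fun x => c x * f x) := by
  rw [contDiff_iff_contDiffAt]
  intro x
  by_cases hx : ‖x‖ < a
  · have : (fun x => c x * f x) =ᶠ[𝓝 x] fun _ => (0 : ℝ) := by
      have ho : IsOpen {y : E3 | ‖y‖ < a} := isOpen_lt continuous_norm continuous_const
      filter_upwards [ho.mem_nhds hx] with y hy
      rw [h0 y (le_of_lt hy), zero_mul]
    exact contDiffAt_const.congr_of_eventuallyEq this
  · have hx0 : x ≠ 0 := ne_zero_of_norm ha (not_lt.1 hx)
    exact hc.contDiffAt.mul (hf.contDiffAt (isOpen_compl_singleton.mem_nhds hx0))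

/-- Convex combinations with the identity matrix are positive definite. -/
lemma posDef_comb {G : Bil} (hG : G.PosDef) {c : ℝ} (h0 : 0 ≤ c) (h1 : c ≤ 1) :
    (1 + c • (G - 1) : Bil).PosDef := by
  have e : (1 + c • (G - 1) : Bil) = (1 - c) • (1 : Bil) + c • G := by
    rw [smul_sub, sub_smul, one_smul]
    abel
  rw [e]
  rcases eq_or_lt_of_le h0 with h | h
  · subst h
    simpa using (Matrix.PosDef.one : (1 : Bil).PosDef)
  · exact Matrix.PosDef.posSemidef_add ((Matrix.PosSemidef.one).smul (sub_nonneg.2 h1)) (hG.smul h)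

end CUTM

open CUTM in
theorem CUTM (hHATB : Stmt_HATB) (hKAP : Stmt_KAP) : Stmt_CUTM := by
  intro g h η l R hη hl hR hg hh hps
  obtain ⟨hT, hTN, -, -⟩ := hHATB g h η hη hg hh hps
  have hl0 : 0 < l := by linarith
  have hR0 : 0 < R := by linarith
  have hR2 : 0 < R / 2 := by linarith
  have hkl : ContDiff ℝ ∞ (fun y : E3 => kap (‖y‖ / l)) := hKAP.2.2.2.2.2.1 l hl0
  have hkl2 : ContDiff ℝ ∞ (fun y : E3 => kap (2 * ‖y‖ / l)) := by
    have := hKAP.2.2.2.2.2.1 (l / 2) (by linarith)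
    have e : (fun y : E3 => kap (2 * ‖y‖ / l)) = fun y : E3 => kap (‖y‖ / (l / 2)) := by
      funext y
      congr 1
      field_simp
    rw [e]
    exact this
  have hkin : ∀ R : ℝ, 0 < R → ContDiff ℝ ∞ (kin R) := hKAP.2.2.2.2.2.2
  -- the factors
  let c : E3 → ℝ := fun x => kap (‖x‖ / l) * kin R x
  let c' : E3 → ℝ := fun x => kap (2 * ‖x‖ / l) * kin (R / 2) x
  have hc : ContDiff ℝ ∞ c := hkl.mul (hkin R hR0)
  have hc' : ContDiff ℝ ∞ c' := hkl2.mul (hkin (R / 2) hR2)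
  have hcz : ∀ x : E3, ‖x‖ ≤ 1 / (32 * R) → c x = 0 := by
    intro x hx
    show kap (‖x‖ / l) * kin R x = 0
    rw [kin_zero hKAP hR0 hx, mul_zero]
  have hcz' : ∀ x : E3, ‖x‖ ≤ 1 / (16 * R) → c' x = 0 := by
    intro x hx
    show kap (2 * ‖x‖ / l) * kin (R / 2) x = 0
    rw [kin_zero hKAP hR2 (by convert hx using 2; ring), mul_zero]
  have hc0 : ∀ x, 0 ≤ c x := fun x => mul_nonneg (kap_nonneg hKAP _) (kin_nonneg hKAP _ _)
  have hc1 : ∀ x, c x ≤ 1 := fun x =>
    mul_le_one₀ (kap_le_one hKAP _) (kin_nonneg hKAP _ _) (kin_le_one hKAP _ _)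
  have hc0' : ∀ x, 0 ≤ c' x := fun x => mul_nonneg (kap_nonneg hKAP _) (kin_nonneg hKAP _ _)
  have hcl : ∀ x : E3, l ≤ ‖x‖ → c' x = 0 := by
    intro x hx
    show kap (2 * ‖x‖ / l) * kin (R / 2) x = 0
    rw [hKAP.2.2.2.1 _ ?_, zero_mul]
    rw [le_div_iff₀ hl0]
    linarith
  have hGsame : ∀ x : E3, 1 / (16 * R) < ‖x‖ → ‖x‖ < l → modG l R g x = g x := by
    intro x h1 h2
    show 1 + (kap (‖x‖ / l) * kin R x) • (g x - 1) = g x
    rw [kin_one hKAP hR0 h1.le, hKAP.2.2.1 _ ?_, one_mul, one_smul, add_sub_cancel]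
    rw [div_le_one hl0]
    exact h2.le
  refine ⟨⟨?_, ?_⟩, ⟨?_, ?_⟩, ?_, hGsame, ?_, ?_, ?_⟩
  · -- smoothness of the metric
    intro i j
    have h1 : ContDiff ℝ ∞ (fun x => c x * (g x i j - (1 : Bil) i j)) :=
      smooth_of (a := 1 / (32 * R)) (by positivity) hc hcz ((hg.smooth i j).sub contDiffOn_const)
    exact (contDiff_const.add h1).contDiffOn
  · -- positivity
    intro x _
    by_cases hx : x = 0
    · have e : modG l R g x = 1 := by
        show 1 + c x • (g x - 1) = 1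
        rw [hcz x (by rw [hx, norm_zero]; positivity), zero_smul, add_zero]
      rw [e]
      exact Matrix.PosDef.one
    · exact posDef_comb (hg.posDef x hx) (hc0 x) (hc1 x)
  · -- smoothness of the tensor
    intro i j
    have h1 : ContDiff ℝ ∞ (fun x => c' x * hat η g h x i j) :=
      smooth_of (a := 1 / (16 * R)) (by positivity) hc' hcz' (hT.smooth i j)
    exact h1.contDiffOn
  · intro x _
    by_cases hx : x = 0
    · have e : modH η l R g h x = 0 := by
        show c' x • hat η g h x = 0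
        rw [hcz' x (by rw [hx, norm_zero]; positivity), zero_smul]
      rw [e]
      exact Matrix.isSymm_zero
    · exact (hT.symm x hx).smul (c' x)
  · -- 2-nonnegative
    intro x _ v hv
    have ev_smul : ∀ (a : ℝ) (B : Bil), ev (a • B) v v = a * ev B v v := by
      intro a B
      simp only [ev, Matrix.smul_apply, smul_eq_mul, Finset.mul_sum]
      refine Finset.sum_congr rfl fun i _ => Finset.sum_congr rfl fun j _ => ?_
      ring
    have tr_smul : ∀ (G : TensorField) (a : ℝ) (B : Bil), trg G x (a • B) = a * trg G x B := by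
      intro G a B
      simp only [trg, Matrix.smul_apply, smul_eq_mul, Finset.mul_sum]
      refine Finset.sum_congr rfl fun i _ => Finset.sum_congr rfl fun j _ => ?_
      ring
    show ev (c' x • hat η g h x) v v ≤ trg (modG l R g) x (c' x • hat η g h x)
    rw [ev_smul, tr_smul]
    by_cases h0 : c' x = 0
    · rw [h0, zero_mul, zero_mul]
    · have h1 : 1 / (16 * R) < ‖x‖ := by
        by_contra hcon
        exact h0 (hcz' x (not_lt.1 hcon))
      have h2 : ‖x‖ < l := by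
        by_contra hcon
        exact h0 (hcl x (not_lt.1 hcon))
      have h3 := hGsame x h1 h2
      have hx0 : x ∈ ({0}ᶜ : Set E3) := ne_zero_of_norm (by positivity) h1.le
      rw [h3] at hv
      have h4 : trg (modG l R g) x (hat η g h x) = trg g x (hat η g h x) := by
        unfold trg
        rw [h3]
      rw [h4]
      exact mul_le_mul_of_nonneg_left (hTN x hx0 v hv) (hc0' x)
  · intro x hx
    show 1 + (kap (‖x‖ / l) * kin R x) • (g x - 1) = 1
    rw [hKAP.2.2.2.1 _ ?_, zero_mul, zero_smul, add_zero]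
    rw [le_div_iff₀ hl0]
    linarith
  · intro x hx
    show c' x • hat η g h x = 0
    rw [hcl x hx, zero_smul]
  · intro x h1 h2
    show (kap (2 * ‖x‖ / l) * kin (R / 2) x) • hat η g h x = hat η g h x
    rw [kin_one hKAP hR2 (by convert h1 using 2; ring), hKAP.2.2.1 _ ?_, one_mul, one_smul]
    rw [div_le_one hl0]
    linarith

end Pool.Agent.PFlow


end

section

/-!
# The cut-off functions of the energy block
-/

open MeasureTheory Filter Topology
open scoped ContDiff ENNReal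

namespace Pool.Agent.PFlow

open Pool.Agent.PenroseSph

namespace KAPm

theorem kap_smooth : ContDiff ℝ ∞ kap := by
  unfold kap
  exact Real.smoothTransition.contDiff.comp (contDiff_const.sub contDiff_id)

theorem kap_one {s : ℝ} (hs : s ≤ 1) : kap s = 1 := by
  unfold kap
  exact Real.smoothTransition.one_of_one_le (by linarith)

theorem kap_zero {s : ℝ} (hs : 2 ≤ s) : kap s = 0 := by
  unfold kap
  exact Real.smoothTransition.zero_of_nonpos (by linarith)

/-- the radial cut-off -/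
noncomputable def phi (x : E3) : ℝ := kap ‖x‖

theorem phi_smooth : ContDiff ℝ ∞ phi := by
  rw [contDiff_iff_contDiffAt]
  intro x
  by_cases hx : ‖x‖ < 1
  · have h : phi =ᶠ[𝓝 x] fun _ => 1 := by
      filter_upwards [continuous_norm.continuousAt.eventually (gt_mem_nhds hx)] with y hy
      exact kap_one hy.le
    exact contDiffAt_const.congr_of_eventuallyEq h
  · have hx0 : x ≠ 0 := by
      intro h
      apply hx
      rw [h, norm_zero]
      exact one_pos
    have h1 : ContDiffAt ℝ ∞ (fun y : E3 => ‖y‖) x := contDiffAt_norm ℝ hx0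
    exact kap_smooth.contDiffAt.comp x h1

theorem phi_compact : HasCompactSupport phi := by
  apply HasCompactSupport.intro (isCompact_closedBall (0 : E3) 2)
  intro x hx
  rw [Metric.mem_closedBall, dist_zero_right, not_le] at hx
  exact kap_zero hx.le

theorem pd_smooth {f : E3 → ℝ} (hf : ContDiff ℝ ∞ f) (k : Fin 3) : ContDiff ℝ ∞ (pd k f) := by
  have h : ContDiff ℝ ∞ (fderiv ℝ f) := hf.fderiv_right (by simp)
  exact h.clm_apply contDiff_const

theorem pd_compact {f : E3 → ℝ} (hf : HasCompactSupport f) (k : Fin 3) :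
    HasCompactSupport (pd k f) := by
  have h := hf.fderiv (𝕜 := ℝ)
  exact h.comp_left (g := fun L : E3 →L[ℝ] ℝ => L (EuclideanSpace.single k 1)) rfl

theorem pd_scale {f : E3 → ℝ} (hf : ContDiff ℝ ∞ f) (k : Fin 3) (c : ℝ) (x : E3) :
    pd k (fun y => f (c • y)) x = c * pd k f (c • x) := by
  have hd : HasFDerivAt f (fderiv ℝ f (c • x)) (c • x) :=
    ((hf.differentiable (by simp)) (c • x)).hasFDerivAt
  have h1 : HasFDerivAt (fun y : E3 => c • y) (c • ContinuousLinearMap.id ℝ E3) x :=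
    (hasFDerivAt_id x).const_smul c
  have h2 : HasFDerivAt (fun y => f (c • y))
      ((fderiv ℝ f (c • x)).comp (c • ContinuousLinearMap.id ℝ E3)) x := hd.comp x h1
  unfold pd
  rw [h2.fderiv]
  simp

theorem pd_const_mul {f : E3 → ℝ} {x : E3} (hf : DifferentiableAt ℝ f x) (k : Fin 3) (c : ℝ) :
    pd k (fun y => c * f y) x = c * pd k f x := by
  unfold pd
  rw [(hf.hasFDerivAt.const_mul c).fderiv]
  simp

theorem scale_eq {l : ℝ} (hl : 0 < l) : (fun y : E3 => kap (‖y‖ / l)) = fun y => phi (l⁻¹ • y) := by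
  funext y
  unfold phi
  rw [norm_smul, norm_inv, Real.norm_of_nonneg hl.le]
  congr 1
  rw [div_eq_inv_mul]

theorem phi_scale_smooth (c : ℝ) : ContDiff ℝ ∞ fun y : E3 => phi (c • y) :=
  phi_smooth.comp (contDiff_const_smul c)

theorem bounded {f : E3 → ℝ} (hf : ContDiff ℝ ∞ f) (hc : HasCompactSupport f) :
    ∃ C : ℝ, ∀ x, |f x| ≤ C := hc.exists_bound_of_continuous hf.continuous

end KAPm

theorem KAP : Stmt_KAP := by
  refine ⟨KAPm.kap_smooth, ?_, fun s hs => KAPm.kap_one hs, fun s hs => KAPm.kap_zero hs, ?_, ?_, ?_⟩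
  · intro s
    exact ⟨Real.smoothTransition.nonneg _, Real.smoothTransition.le_one _⟩
  · have h1 : ∀ k : Fin 3, ∃ C : ℝ, ∀ x, |pd k KAPm.phi x| ≤ C := fun k =>
      KAPm.bounded (KAPm.pd_smooth KAPm.phi_smooth k) (KAPm.pd_compact KAPm.phi_compact k)
    have h2 : ∀ p : Fin 3 × Fin 3, ∃ C : ℝ, ∀ x, |pd p.1 (pd p.2 KAPm.phi) x| ≤ C := fun p =>
      KAPm.bounded (KAPm.pd_smooth (KAPm.pd_smooth KAPm.phi_smooth p.2) p.1)
        (KAPm.pd_compact (KAPm.pd_compact KAPm.phi_compact p.2) p.1)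
    choose A hA using h1
    choose B hB using h2
    obtain ⟨C1, hC1⟩ := (Set.finite_range A).bddAbove
    obtain ⟨C2, hC2⟩ := (Set.finite_range B).bddAbove
    refine ⟨max (max C1 C2) 1, lt_max_of_lt_right one_pos, ?_⟩
    intro l hl x
    have hinv : 0 < l⁻¹ := inv_pos.mpr hl
    rw [KAPm.scale_eq hl]
    constructor
    · intro k
      rw [KAPm.pd_scale KAPm.phi_smooth, abs_mul, abs_of_pos hinv, div_eq_inv_mul]
      apply mul_le_mul_of_nonneg_left _ hinv.le
      exact ((hA k _).trans (hC1 ⟨k, rfl⟩)).trans ((le_max_left _ _).trans (le_max_left _ _))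
    · intro k m
      have e1 : pd m (fun y : E3 => KAPm.phi (l⁻¹ • y)) =
          fun y => l⁻¹ * (fun z : E3 => pd m KAPm.phi (l⁻¹ • z)) y := by
        funext y
        exact KAPm.pd_scale KAPm.phi_smooth m l⁻¹ y
      have hsm := KAPm.pd_smooth KAPm.phi_smooth m
      have e2 : pd k (pd m (fun y : E3 => KAPm.phi (l⁻¹ • y))) x =
          l⁻¹ * (l⁻¹ * pd k (pd m KAPm.phi) (l⁻¹ • x)) := by
        rw [e1, KAPm.pd_const_mul, KAPm.pd_scale hsm]
        exact ((hsm.comp (contDiff_const_smul l⁻¹)).differentiable (by simp)) x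
      rw [e2, abs_mul, abs_mul, abs_of_pos hinv]
      have e3 : max (max C1 C2) 1 / l ^ 2 = l⁻¹ * (l⁻¹ * max (max C1 C2) 1) := by
        field_simp
      rw [e3]
      apply mul_le_mul_of_nonneg_left _ hinv.le
      apply mul_le_mul_of_nonneg_left _ hinv.le
      exact ((hB (k, m) _).trans (hC2 ⟨(k, m), rfl⟩)).trans
        ((le_max_right _ _).trans (le_max_left _ _))
  · intro l hl
    rw [KAPm.scale_eq hl]
    exact KAPm.phi_scale_smooth _
  · intro R hR
    have h : kin R = fun x => 1 - KAPm.phi ((32 * R) • x) := by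
      funext x
      unfold kin KAPm.phi
      rw [norm_smul, Real.norm_of_nonneg (by positivity)]
    rw [h]
    exact contDiff_const.sub (KAPm.phi_scale_smooth _)

end Pool.Agent.PFlow


end
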