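import Mathlib
import Pool.Agent.PFlow.StmtsE3
import Pool.Agent.PFlow.StmtsM
import Pool.Agent.PenroseM.C01
import Pool.Agent.PenroseM.C03

/-! Parts: PFlow.K.KTN, PFlow.E.HATC, PFlow.E.XWI -/

section

/-!
# KTN: linear algebra of a positive definite matrix
-/

open Matrix

namespace Pool.Agent.PFlow

open Pool.Agent.PenroseSph

namespace KTN

/-- A positive definite real matrix has a symmetric square root. -/
lemma exists_sqrt {G : Bil} (hG : G.PosSemidef) : ∃ S : Bil, Sᵀ = S ∧ S * S = G := by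
  open scoped MatrixOrder in
  have h0 : (0 : Bil) ≤ G := Matrix.nonneg_iff_posSemidef.2 hG
  refine ⟨CFC.sqrt G, ?_, CFC.sqrt_mul_sqrt_self G h0⟩
  have h1 : (0 : Bil) ≤ CFC.sqrt G := CFC.sqrt_nonneg G
  have h2 := (Matrix.nonneg_iff_posSemidef.1 h1).isHermitian
  rwa [Matrix.IsHermitian, Matrix.conjTranspose_eq_transpose_of_trivial] at h2

/-- the bilinear form on matrices -/
def bin (G B C : Bil) : ℝ := (Bᵀ * (G * C * G)).trace

lemma bin_eq (G B C : Bil) (hG : Gᵀ = G) :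
    bin G B C = ∑ i, ∑ j, ∑ k, ∑ l, G i k * G j l * B i j * C k l := by
  have hs : ∀ i j, G i j = G j i := fun i j => by
    conv_lhs => rw [← hG]
    rfl
  unfold bin
  simp only [Matrix.trace, Matrix.diag_apply, Matrix.mul_apply, Matrix.transpose_apply,
    Finset.mul_sum, Finset.sum_mul]
  rw [Finset.sum_comm]
  refine Finset.sum_congr rfl fun i _ => Finset.sum_congr rfl fun j _ => ?_
  rw [Finset.sum_comm]
  refine Finset.sum_congr rfl fun k _ => Finset.sum_congr rfl fun l _ => ?_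
  rw [hs j l]
  ring

lemma bin_self_nonneg {G : Bil} (hG : G.PosSemidef) (B : Bil) : 0 ≤ bin G B B := by
  obtain ⟨S, hS, hSS⟩ := exists_sqrt hG
  have h1 : bin G B B = ((S * B * S)ᵀ * (S * B * S)).trace := by
    unfold bin
    rw [← hSS]
    simp only [Matrix.transpose_mul, hS]
    have : Bᵀ * (S * S * B * (S * S)) = (Bᵀ * S * (S * B * S)) * S := by
      simp only [Matrix.mul_assoc]
    rw [this, Matrix.trace_mul_comm]
    congr 1
    simp only [Matrix.mul_assoc]
  rw [h1]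
  simp only [Matrix.trace, Matrix.diag_apply, Matrix.mul_apply, Matrix.transpose_apply]
  exact Finset.sum_nonneg fun i _ => Finset.sum_nonneg fun j _ => mul_self_nonneg _

lemma bin_symm (G B C : Bil) (hG : Gᵀ = G) : bin G B C = bin G C B := by
  unfold bin
  have h1 : (Bᵀ * (G * C * G))ᵀ = (G * Cᵀ * G) * B := by
    simp only [Matrix.transpose_mul, Matrix.transpose_transpose, hG, Matrix.mul_assoc]
  have h2 : (G * Cᵀ * G) * B = G * (Cᵀ * (G * B)) := by
    simp only [Matrix.mul_assoc]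
  rw [← Matrix.trace_transpose, h1, h2, Matrix.trace_mul_comm]
  simp only [Matrix.mul_assoc]

/-- Cauchy-Schwarz for a symmetric nonnegative form, abstract version -/
lemma cs (a b c : ℝ) (h : ∀ t : ℝ, 0 ≤ a - 2 * t * b + t ^ 2 * c) (hc : 0 ≤ c) :
    b ^ 2 ≤ a * c := by
  rcases hc.lt_or_eq with h1 | h1
  · have := h (b / c)
    have e : a - 2 * (b / c) * b + (b / c) ^ 2 * c = a - b ^ 2 / c := by
      field_simp
      ring
    rw [e, sub_nonneg, div_le_iff₀ h1] at this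
    exact this
  · subst h1
    have hb : b = 0 := by
      by_contra hb
      have := h ((a + 1) / (2 * b))
      have e : a - 2 * ((a + 1) / (2 * b)) * b + ((a + 1) / (2 * b)) ^ 2 * 0 = -1 := by
        field_simp
        ring
      rw [e] at this
      linarith
    rw [hb]
    simp

lemma bin_expand (G B C : Bil) (hG : Gᵀ = G) (t : ℝ) : bin G (B - t • C) (B - t • C) =
    bin G B B - 2 * t * bin G B C + t ^ 2 * bin G C C := by
  have h := bin_symm G C B hG
  unfold bin at *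
  simp only [Matrix.transpose_sub, Matrix.transpose_smul, Matrix.mul_sub, Matrix.sub_mul,
    Matrix.mul_smul, Matrix.smul_mul, Matrix.trace_sub, Matrix.trace_smul, smul_eq_mul]
  rw [h]
  ring

lemma bin_cs {G : Bil} (hG : G.PosSemidef) (B C : Bil) :
    bin G B C ^ 2 ≤ bin G B B * bin G C C := by
  have hs : Gᵀ = G := by
    have := hG.isHermitian
    rwa [Matrix.IsHermitian, Matrix.conjTranspose_eq_transpose_of_trivial] at this
  apply cs _ _ _ _ (bin_self_nonneg hG C)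
  intro t
  rw [← bin_expand G B C hs t]
  exact bin_self_nonneg hG _

lemma bin_outer (G B : Bil) (hG : Gᵀ = G) (p : Cov) :
    bin G B (Matrix.of fun i j => p i * p j) =
      ev B (fun i => ∑ j, G i j * p j) (fun i => ∑ j, G i j * p j) := by
  rw [bin_eq _ _ _ hG]
  simp only [ev, Matrix.of_apply, Finset.mul_sum, Finset.sum_mul]
  refine Finset.sum_congr rfl fun i _ => Finset.sum_congr rfl fun j _ => ?_
  rw [Finset.sum_comm]
  refine Finset.sum_congr rfl fun k _ => Finset.sum_congr rfl fun l _ => ?_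
  ring

lemma ev_raise (G : Bil) (hG : Gᵀ = G) (p q : Cov) :
    ∑ i, (∑ j, G i j * p j) * q i = ev G p q := by
  have hs : ∀ i j, G i j = G j i := fun i j => by
    conv_lhs => rw [← hG]
    rfl
  simp only [ev, Finset.sum_mul]
  rw [Finset.sum_comm]
  refine Finset.sum_congr rfl fun i _ => Finset.sum_congr rfl fun j _ => ?_
  rw [hs j i]

end KTN

open KTN in
theorem KTN_thm : KTN := by
  intro g x hg p
  have hG : (g x)⁻¹.PosDef := hg.inv
  set G : Bil := (g x)⁻¹ with hGdef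
  have hs : Gᵀ = G := by
    have := hG.isHermitian
    rwa [Matrix.IsHermitian, Matrix.conjTranspose_eq_transpose_of_trivial] at this
  have hpos : ∀ q : Cov, q ≠ 0 → 0 < ev G q q := by
    intro q hq
    have := hG.dotProduct_mulVec_pos hq
    have e : star q ⬝ᵥ (G *ᵥ q) = ev G q q := by
      simp only [dotProduct, Matrix.mulVec, ev, star_trivial, Finset.mul_sum]
      refine Finset.sum_congr rfl fun i _ => Finset.sum_congr rfl fun j _ => ?_
      ring
    rwa [e] at this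
  have hev0 : ev G 0 0 = 0 := by simp [ev]
  have hnn : ∀ q : Cov, 0 ≤ ev G q q := by
    intro q
    by_cases hq : q = 0
    · rw [hq, hev0]
    · exact (hpos q hq).le
  have hlen : len g x p ^ 2 = lsq g x p := Real.sq_sqrt (hnn p)
  have hnsq : ∀ B : Bil, nsq g x B = bin G B B := fun B => (bin_eq G B B hs).symm
  have hraise : raise g x p = fun i => ∑ j, G i j * p j := rfl
  have houter : bin G (Matrix.of fun i j => p i * p j) (Matrix.of fun i j => p i * p j) =
      lsq g x p ^ 2 := by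
    rw [bin_outer G _ hs]
    have h1 : ev (Matrix.of fun i j => p i * p j : Bil) (fun i => ∑ j, G i j * p j)
        (fun i => ∑ j, G i j * p j) = (∑ i, (∑ j, G i j * p j) * p i) ^ 2 := by
      simp only [ev, Matrix.of_apply]
      rw [pow_two, Finset.sum_mul_sum]
      refine Finset.sum_congr rfl fun i _ => Finset.sum_congr rfl fun j _ => ?_
      ring
    rw [h1, ev_raise G hs]
    rfl
  refine ⟨hnn p, hpos p, hlen, ?_, ?_, ?_, ?_, ?_⟩
  · intro q
    exact ev_raise G hs p q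
  · intro q
    have h2 : ∀ t : ℝ, ev G (p - t • q) (p - t • q) =
        ev G p p - 2 * t * ev G p q + t ^ 2 * ev G q q := by
      intro t
      have h3 : ev G q p = ev G p q := by
        rw [← ev_raise G hs p q]
        simp only [ev, Finset.sum_mul]
        refine Finset.sum_congr rfl fun i _ => Finset.sum_congr rfl fun j _ => ?_
        ring
      have h4 : ev G (p - t • q) (p - t • q) =
          ev G p p - t * ev G p q - t * ev G q p + t ^ 2 * ev G q q := by
        simp only [ev, Pi.sub_apply, Pi.smul_apply, smul_eq_mul, Finset.mul_sum,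
          ← Finset.sum_sub_distrib, ← Finset.sum_add_distrib]
        refine Finset.sum_congr rfl fun i _ => Finset.sum_congr rfl fun j _ => ?_
        ring
      rw [h4, h3]
      ring
    exact cs (ev G p p) (ev G p q) (ev G q q) (fun t => by rw [← h2 t]; exact hnn _) (hnn q)
  · intro B
    have h1 := bin_cs hG.posSemidef B (Matrix.of fun i j => p i * p j)
    rw [houter, bin_outer G B hs, ← hnsq] at h1
    rw [mul_comm]
    exact h1
  · intro B
    rw [hnsq]
    exact bin_self_nonneg hG.posSemidef B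
  · intro hp B
    have h0 : 0 < len g x p := Real.sqrt_pos.2 (hpos p hp)
    rw [← hlen]
    simp only [bnn, ev, nrm]
    rw [Finset.sum_div]
    refine Finset.sum_congr rfl fun i _ => ?_
    rw [Finset.sum_div]
    refine Finset.sum_congr rfl fun j _ => ?_
    field_simp

end Pool.Agent.PFlow


end

section

/-!
# HATC: the surplus of the tensor with changed sign
-/

open scoped ContDiff

namespace Pool.Agent.PFlow

open Pool.Agent.PenroseSph

namespace HATC

lemma det_smooth {U : Set E3} {g : TensorField} (hg : ∀ i j, ContDiffOn ℝ ∞ (fun x => g x i j) U) :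
    ContDiffOn ℝ ∞ (fun x => (g x).det) U := by
  simp only [Matrix.det_fin_three]
  fun_prop

lemma adj_smooth {U : Set E3} {g : TensorField} (hg : ∀ i j, ContDiffOn ℝ ∞ (fun x => g x i j) U)
    (i j : Fin 3) : ContDiffOn ℝ ∞ (fun x => (g x).adjugate i j) U := by
  simp only [Matrix.adjugate_fin_three]
  fin_cases i <;> fin_cases j <;> simp <;> fun_prop

lemma inv_smooth {U : Set E3} {g : TensorField} (hg : MetricOn U g) (i j : Fin 3) :
    ContDiffOn ℝ ∞ (fun x => (g x)⁻¹ i j) U := by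
  have h1 : (fun x => (g x)⁻¹ i j) = fun x => ((g x).det)⁻¹ * (g x).adjugate i j := by
    funext x
    rw [Matrix.inv_def, Matrix.smul_apply, Ring.inverse_eq_inv', smul_eq_mul]
  rw [h1]
  exact ((det_smooth hg.smooth).inv fun x hx => (hg.posDef x hx).det_pos.ne').mul
    (adj_smooth hg.smooth i j)

lemma trg_smooth {U : Set E3} {g h : TensorField} (hg : MetricOn U g) (hh : TensorOn U h) :
    ContDiffOn ℝ ∞ (fun x => trg g x (h x)) U := by
  unfold trg
  exact ContDiffOn.sum fun i _ => ContDiffOn.sum fun j _ => (inv_smooth hg i j).mul (hh.smooth i j)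

variable {η : ℝ}

lemma den_pos (hη : 0 < η) (t : ℝ) : 0 < t ^ 2 + η ^ 2 := by positivity

lemma sq_pos (hη : 0 < η) (t : ℝ) : 0 < Real.sqrt (t ^ 2 + η ^ 2) :=
  Real.sqrt_pos.mpr (den_pos hη t)

lemma sq_sq (hη : 0 < η) (t : ℝ) : Real.sqrt (t ^ 2 + η ^ 2) ^ 2 = t ^ 2 + η ^ 2 :=
  Real.sq_sqrt (den_pos hη t).le

lemma hatF_smooth (hη : 0 < η) : ContDiff ℝ ∞ (hatF η) := by
  unfold hatF
  refine contDiff_id.div ?_ fun t => (sq_pos hη t).ne'
  exact ((contDiff_id.pow 2).add contDiff_const).sqrt fun t => (den_pos hη t).ne'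

lemma hatF_deriv (hη : 0 < η) (t : ℝ) :
    HasDerivAt (hatF η) (η ^ 2 / Real.sqrt (t ^ 2 + η ^ 2) ^ 3) t := by
  have h1 : HasDerivAt (fun s : ℝ => s ^ 2 + η ^ 2) (2 * t) t := by
    have := ((hasDerivAt_id t).pow 2).add_const (η ^ 2)
    simpa using this
  have h2 := h1.sqrt (den_pos hη t).ne'
  have h3 := (hasDerivAt_id t).div h2 (sq_pos hη t).ne'
  have hs := sq_pos hη t
  have hss := sq_sq hη t
  have h4 : η ^ 2 / Real.sqrt (t ^ 2 + η ^ 2) ^ 3
      = (1 * Real.sqrt (t ^ 2 + η ^ 2) - id t * (2 * t / (2 * Real.sqrt (t ^ 2 + η ^ 2))))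
        / Real.sqrt (t ^ 2 + η ^ 2) ^ 2 := by
    set S := Real.sqrt (t ^ 2 + η ^ 2) with hS
    simp only [id]
    have e : η ^ 2 = S ^ 2 - t ^ 2 := by rw [hss]; ring
    rw [e]
    field_simp
  rw [h4]
  exact h3

lemma hatF_sq (hη : 0 < η) (t : ℝ) : (1 - hatF η t ^ 2) * t ^ 2 ≤ η ^ 2 := by
  unfold hatF
  rw [div_pow, sq_sq hη]
  have h := den_pos hη t
  have e : (1 - t ^ 2 / (t ^ 2 + η ^ 2)) * t ^ 2 = η ^ 2 * (t ^ 2 / (t ^ 2 + η ^ 2)) := by
    field_simp
    ring
  rw [e]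
  have h2 : t ^ 2 / (t ^ 2 + η ^ 2) ≤ 1 := by
    rw [div_le_one h]
    nlinarith [sq_nonneg η]
  nlinarith [sq_nonneg η]

lemma hatF_sq_le (hη : 0 < η) (t : ℝ) : hatF η t ^ 2 ≤ 1 := by
  unfold hatF
  rw [div_pow, sq_sq hη, div_le_one (den_pos hη t)]
  nlinarith [sq_nonneg η]

lemma abs_hatF_le (hη : 0 < η) (t : ℝ) : |hatF η t| ≤ 1 := by
  have h := hatF_sq_le hη t
  rw [← sq_abs] at h
  nlinarith [abs_nonneg (hatF η t)]

lemma grad_comp (hη : 0 < η) {f : E3 → ℝ} {x : E3} (hf : DifferentiableAt ℝ f x) :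
    grad (fun y => hatF η (f y)) x
      = fun i => η ^ 2 / Real.sqrt (f x ^ 2 + η ^ 2) ^ 3 * grad f x i := by
  funext i
  unfold grad pd
  have h1 := (hatF_deriv hη (f x)).hasFDerivAt.comp x hf.hasFDerivAt
  have h2 : fderiv ℝ (fun y => hatF η (f y)) x = _ := h1.fderiv
  rw [h2]
  simp
  ring

lemma len_smul (g : TensorField) (x : E3) (c : ℝ) (hc : 0 ≤ c) (p : Cov) :
    len g x (fun i => c * p i) = c * len g x p := by
  unfold len
  have h : ev (g x)⁻¹ (fun i => c * p i) (fun i => c * p i) = c ^ 2 * ev (g x)⁻¹ p p := by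
    unfold ev
    rw [Finset.mul_sum]
    refine Finset.sum_congr rfl fun i _ => ?_
    rw [Finset.mul_sum]
    refine Finset.sum_congr rfl fun j _ => ?_
    ring
  rw [h, Real.sqrt_mul (sq_nonneg c), Real.sqrt_sq hc]

lemma trg_smul (g : TensorField) (x : E3) (c : ℝ) (B : Bil) :
    trg g x (c • B) = c * trg g x B := by
  unfold trg
  rw [Finset.mul_sum]
  refine Finset.sum_congr rfl fun i _ => ?_
  rw [Finset.mul_sum]
  refine Finset.sum_congr rfl fun j _ => ?_
  rw [Matrix.smul_apply, smul_eq_mul]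
  ring

lemma nsq_smul (g : TensorField) (x : E3) (c : ℝ) (B : Bil) :
    nsq g x (c • B) = c ^ 2 * nsq g x B := by
  unfold nsq
  simp only [Finset.mul_sum, Matrix.smul_apply, smul_eq_mul]
  refine Finset.sum_congr rfl fun i _ => Finset.sum_congr rfl fun j _ =>
    Finset.sum_congr rfl fun k _ => Finset.sum_congr rfl fun l _ => ?_
  ring

lemma ev_smul (c : ℝ) (B : Bil) (v w : Cov) : ev (c • B) v w = c * ev B v w := by
  unfold ev
  simp only [Finset.mul_sum, Matrix.smul_apply, smul_eq_mul]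
  refine Finset.sum_congr rfl fun i _ => Finset.sum_congr rfl fun j _ => ?_
  ring

lemma energy_eq (g h : TensorField) (x : E3) :
    energyDensity g h x = (1 / 2) * (scalarCurvature g x - nsq g x (h x) + trg g x (h x) ^ 2) := rfl

lemma nsq_le (hHATA : Stmt_HATA) {g h : TensorField} (hg : MetricOn {0}ᶜ g)
    (hh : TensorOn {0}ᶜ h) (hp : PlaneSign g h) {x : E3} (hx : x ≠ 0) :
    nsq g x (h x) ≤ 3 * trg g x (h x) ^ 2 := by
  rcases hp x hx with h1 | h1
  · exact (hHATA g x (h x) (hg.posDef x hx) (hh.symm x hx) h1).2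
  · have h2 := (hHATA g x ((-1 : ℝ) • h x) (hg.posDef x hx) ?_ ?_).2
    · rw [nsq_smul, trg_smul] at h2
      nlinarith
    · have := hh.symm x hx
      unfold Matrix.IsSymm at this ⊢
      rw [Matrix.transpose_smul, this]
    · intro v hv
      rw [ev_smul, trg_smul]
      have := h1 v hv
      linarith

end HATC

open HATC in
/-- HATC: the surplus of `ĥ`. -/
theorem HATC (hHATA : Stmt_HATA) (_hHATB : Stmt_HATB) (hJPROD : Stmt_JPROD) : Stmt_HATC := by
  intro g h η hη hg hh hp x hx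
  have hxU : x ∈ ({0}ᶜ : Set E3) := hx
  have hUo : IsOpen ({0}ᶜ : Set E3) := isOpen_compl_singleton
  have htr := trg_smooth hg hh
  have hf : ContDiffOn ℝ ∞ (fun y => hatF η (trg g y (h y))) {0}ᶜ :=
    (hatF_smooth hη).comp_contDiffOn htr
  have hJ := (hJPROD {0}ᶜ g h (fun y => hatF η (trg g y (h y))) hUo hg hh hf x hxU).2
  have hdt : DifferentiableAt ℝ (fun y => trg g y (h y)) x :=
    (htr.contDiffAt (hUo.mem_nhds hxU)).differentiableAt (by simp)
  rw [grad_comp hη hdt, len_smul g x _ (by positivity)] at hJ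
  have hn := nsq_le hHATA hg hh hp hx
  have hn0 : 0 ≤ nsq g x (h x) := (KTN_thm g x (hg.posDef x hx) 0).2.2.2.2.2.2.1 (h x)
  set t := trg g x (h x) with ht
  set S := Real.sqrt (t ^ 2 + η ^ 2) with hS
  have hS0 : 0 < S := sq_pos hη t
  set L := len g x (grad (fun y => trg g y (h y)) x) with hL
  have hL0 : 0 ≤ L := Real.sqrt_nonneg _
  have hjl : 0 ≤ jlen g h x := Real.sqrt_nonneg _
  have hsq : Real.sqrt (nsq g x (h x) + t ^ 2) ≤ 2 * |t| := by
    have e : 2 * |t| = Real.sqrt ((2 * |t|) ^ 2) := by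
      rw [Real.sqrt_sq (by positivity)]
    rw [e]
    apply Real.sqrt_le_sqrt
    rw [mul_pow, sq_abs]
    linarith
  have hJ2 : jlen g (hat η g h) x ≤ jlen g h x + 2 * η ^ 2 * |t| * L / S ^ 3 := by
    have e1 : jlen g (hat η g h) x ≤ |hatF η t| * jlen g h x
        + Real.sqrt (nsq g x (h x) + t ^ 2) * (η ^ 2 / S ^ 3 * L) := hJ
    have e2 : |hatF η t| * jlen g h x ≤ 1 * jlen g h x :=
      mul_le_mul_of_nonneg_right (abs_hatF_le hη t) hjl
    have e3 : Real.sqrt (nsq g x (h x) + t ^ 2) * (η ^ 2 / S ^ 3 * L)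
        ≤ 2 * |t| * (η ^ 2 / S ^ 3 * L) :=
      mul_le_mul_of_nonneg_right hsq (by positivity)
    have e4 : 2 * |t| * (η ^ 2 / S ^ 3 * L) = 2 * η ^ 2 * |t| * L / S ^ 3 := by ring
    linarith
  have hE : eEta η g h x = η ^ 2 / 2 + 2 * η ^ 2 * |t| * L / S ^ 3 := rfl
  constructor
  · unfold surplus
    rw [hE, energy_eq, energy_eq]
    have e5 : nsq g x (hat η g h x) = hatF η t ^ 2 * nsq g x (h x) := nsq_smul g x _ _
    have e6 : trg g x (hat η g h x) = hatF η t * t := trg_smul g x _ _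
    rw [e5, e6, ← ht]
    have e7 := hatF_sq hη t
    have e8 := hatF_sq_le hη t
    have e9 : 0 ≤ (1 - hatF η t ^ 2) * nsq g x (h x) := mul_nonneg (by linarith) hn0
    nlinarith
  · rw [hE]
    nlinarith [sq_nonneg η]

end Pool.Agent.PFlow


end

section

/-!
# XWI: the flux density over the inner window
-/

open MeasureTheory Filter Topology
open scoped ContDiff ENNReal Matrix

namespace Pool.Agent.PFlow

open Pool.Agent.PenroseSph

namespace XWI

/-! ### Linear algebra at a point -/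

lemma trg_sq_le {g : TensorField} {x : E3} (hg : (g x).PosDef) (B : Bil) :
    trg g x B ^ 2 ≤ 3 * nsq g x B := by
  have hG : (g x)⁻¹.PosDef := hg.inv
  have hs : ((g x)⁻¹)ᵀ = (g x)⁻¹ := by
    have := hG.isHermitian
    rwa [Matrix.IsHermitian, Matrix.conjTranspose_eq_transpose_of_trivial] at this
  have hi : (g x)⁻¹ * g x = 1 := Matrix.nonsing_inv_mul _ hg.det_pos.ne'.isUnit
  have hi' : g x * (g x)⁻¹ = 1 := Matrix.mul_nonsing_inv _ hg.det_pos.ne'.isUnit
  have hgs : (g x)ᵀ = g x := by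
    have := hg.isHermitian
    rwa [Matrix.IsHermitian, Matrix.conjTranspose_eq_transpose_of_trivial] at this
  have h := KTN.bin_cs hG.posSemidef B (g x)
  have e1 : KTN.bin (g x)⁻¹ B (g x) = trg g x B := by
    unfold KTN.bin trg
    rw [hi, Matrix.one_mul]
    simp only [Matrix.trace, Matrix.diag_apply, Matrix.mul_apply, Matrix.transpose_apply]
    rw [Finset.sum_comm]
    refine Finset.sum_congr rfl fun i _ => Finset.sum_congr rfl fun j _ => ?_
    ring
  have e2 : KTN.bin (g x)⁻¹ (g x) (g x) = 3 := by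
    unfold KTN.bin
    rw [hi, Matrix.one_mul, hgs, hi']
    simp
  have e3 : KTN.bin (g x)⁻¹ B B = nsq g x B := by
    rw [KTN.bin_eq _ _ _ hs]
    rfl
  rw [e1, e2, e3] at h
  linarith

lemma nsq_nonneg {g : TensorField} {x : E3} (hg : (g x).PosDef) (B : Bil) : 0 ≤ nsq g x B :=
  (KTN_thm g x hg 0).2.2.2.2.2.2.1 B

lemma trg_abs {g : TensorField} {x : E3} (hg : (g x).PosDef) (B : Bil) :
    |trg g x B| ≤ 2 * Real.sqrt (nsq g x B) := by
  have h := trg_sq_le hg B
  have h0 := nsq_nonneg hg B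
  apply abs_le_of_sq_le_sq _ (by positivity)
  rw [mul_pow, Real.sq_sqrt h0]
  linarith

lemma bnn_abs {g : TensorField} {x : E3} (hg : (g x).PosDef) (p : Cov) (B : Bil) :
    |bnn g x p B| ≤ Real.sqrt (nsq g x B) := by
  obtain ⟨h1, h2, h3, h4, h5, h6, h7, h8⟩ := KTN_thm g x hg p
  by_cases hp : p = 0
  · have : bnn g x p B = 0 := by
      unfold bnn ev nrm raise
      rw [hp]
      simp
    rw [this, abs_zero]
    exact Real.sqrt_nonneg _
  · have hl := h2 hp
    apply abs_le_of_sq_le_sq _ (Real.sqrt_nonneg _)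
    rw [Real.sq_sqrt (h7 B), h8 hp B, div_pow, div_le_iff₀ (by positivity)]
    linarith [h6 B]

lemma hterm_abs {g : TensorField} {x : E3} (hg : (g x).PosDef) {ε : ℝ} (h0 : 0 < ε) (h1 : ε < 1)
    (p : Cov) (B : Bil) :
    |2 / (2 - ε) * beps ε g x p B - btan g x p B| ≤ 9 * Real.sqrt (nsq g x B) := by
  have ht := trg_abs hg B
  have hb := bnn_abs hg p B
  unfold beps btan
  set q := Real.sqrt (nsq g x B)
  have hq : 0 ≤ q := Real.sqrt_nonneg _
  have hc : 2 / (2 - ε) ≤ 2 := by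
    rw [div_le_iff₀ (by linarith)]
    linarith
  have hc0 : 0 ≤ 2 / (2 - ε) := div_nonneg (by norm_num) (by linarith)
  have h3 : |trg g x B - (1 - ε) * bnn g x p B| ≤ 3 * q := by
    calc |trg g x B - (1 - ε) * bnn g x p B| ≤ |trg g x B| + |(1 - ε) * bnn g x p B| := abs_sub _ _
      _ ≤ 2 * q + 1 * q := by
        refine add_le_add ht ?_
        rw [abs_mul]
        refine mul_le_mul ?_ hb (abs_nonneg _) zero_le_one
        rw [abs_le]
        constructor <;> linarith
      _ = 3 * q := by ring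
  have h4 : |trg g x B - bnn g x p B| ≤ 3 * q := by
    calc |trg g x B - bnn g x p B| ≤ |trg g x B| + |bnn g x p B| := abs_sub _ _
      _ ≤ 3 * q := by linarith
  calc |2 / (2 - ε) * (trg g x B - (1 - ε) * bnn g x p B) - (trg g x B - bnn g x p B)|
      ≤ |2 / (2 - ε) * (trg g x B - (1 - ε) * bnn g x p B)| + |trg g x B - bnn g x p B| :=
        abs_sub _ _
    _ ≤ 2 * (3 * q) + 3 * q := by
        refine add_le_add ?_ h4
        rw [abs_mul, abs_of_nonneg hc0]
        exact mul_le_mul hc h3 (abs_nonneg _) (by norm_num)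
    _ = 9 * q := by ring

lemma len_smul (g : TensorField) (x : E3) (c : ℝ) (p : Cov) :
    len g x (fun i => c * p i) = |c| * len g x p := by
  unfold len
  have h : ev (g x)⁻¹ (fun i => c * p i) (fun i => c * p i) = c ^ 2 * ev (g x)⁻¹ p p := by
    unfold ev
    simp only [Finset.mul_sum]
    refine Finset.sum_congr rfl fun i _ => Finset.sum_congr rfl fun j _ => ?_
    ring
  rw [h, Real.sqrt_mul (sq_nonneg c), Real.sqrt_sq_eq_abs]

/-! ### The volume density -/

lemma det_le {B : Bil} {C : ℝ} (hC : 0 < C) (hB : Bᵀ = B)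
    (h : ∀ v : Cov, (∑ i, v i ^ 2) ≤ C * ev B v v ∧ ev B v v ≤ C * ∑ i, v i ^ 2) :
    B.det ≤ 6 * C ^ 3 := by
  have hs : ∀ i j, B i j = B j i := fun i j => by
    conv_lhs => rw [← hB]
    rfl
  have hn : ∀ v : Cov, 0 ≤ ev B v v := by
    intro v
    have h1 := (h v).1
    have h2 : 0 ≤ ∑ i, v i ^ 2 := Finset.sum_nonneg fun i _ => sq_nonneg _
    have h3 : 0 ≤ C * ev B v v := h2.trans h1
    exact nonneg_of_mul_nonneg_right h3 hC
  have d0 := (h ![1, 0, 0]).2
  have d1 := (h ![0, 1, 0]).2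
  have d2 := (h ![0, 0, 1]).2
  have n0 := hn ![1, 0, 0]
  have n1 := hn ![0, 1, 0]
  have n2 := hn ![0, 0, 1]
  have p01 := hn ![1, 1, 0]
  have m01 := hn ![1, -1, 0]
  have p02 := hn ![1, 0, 1]
  have m02 := hn ![1, 0, -1]
  have p12 := hn ![0, 1, 1]
  have m12 := hn ![0, 1, -1]
  simp [ev, Fin.sum_univ_three] at d0 d1 d2 n0 n1 n2 p01 m01 p02 m02 p12 m12
  have s10 := hs 1 0
  have s20 := hs 2 0
  have s21 := hs 2 1
  have a0 : |B 0 0| ≤ C := by rw [abs_le]; constructor <;> linarith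
  have a1 : |B 1 1| ≤ C := by rw [abs_le]; constructor <;> linarith
  have a2 : |B 2 2| ≤ C := by rw [abs_le]; constructor <;> linarith
  have a01 : |B 0 1| ≤ C := by rw [abs_le]; constructor <;> linarith
  have a02 : |B 0 2| ≤ C := by rw [abs_le]; constructor <;> linarith
  have a12 : |B 1 2| ≤ C := by rw [abs_le]; constructor <;> linarith
  have key : ∀ a b c : ℝ, |a| ≤ C → |b| ≤ C → |c| ≤ C → |a * b * c| ≤ C ^ 3 := by
    intro a b c ha hb hc
    rw [abs_mul, abs_mul]
    calc |a| * |b| * |c| ≤ C * C * C := by gcongr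
      _ = C ^ 3 := by ring
  rw [Matrix.det_fin_three, s10, s20, s21]
  have k1 := (abs_le.1 (key _ _ _ a0 a1 a2)).2
  have k2 := (abs_le.1 (key _ _ _ a0 a12 a12)).1
  have k3 := (abs_le.1 (key _ _ _ a01 a01 a2)).1
  have k4 := (abs_le.1 (key _ _ _ a01 a12 a02)).2
  have k5 := (abs_le.1 (key _ _ _ a02 a01 a12)).2
  have k6 := (abs_le.1 (key _ _ _ a02 a1 a02)).1
  linarith

lemma vol_le {g : TensorField} {C : ℝ} (hC : 0 < C) {x : E3} (hx : x ≠ 0) (hx1 : ‖x‖ ≤ 1)
    (hg : (g x).PosDef)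
    (h : ∀ y : E3, 1 ≤ ‖y‖ → ∀ v : Cov, (∑ i, v i ^ 2) ≤ C * ev (inverted g y) v v ∧
      ev (inverted g y) v v ≤ C * ∑ i, v i ^ 2) :
    volDen g x ≤ Real.sqrt (6 * C ^ 3) * (‖x‖⁻¹) ^ 6 := by
  set y := inversion x with hy
  have hn : 0 < ‖x‖ := norm_pos_iff.2 hx
  have hy0 : y ≠ 0 := HSM2.inversion_ne x hx
  have hyn : ‖y‖ = ‖x‖⁻¹ := HSM2.norm_inversion x hx
  have hyx : inversion y = x := HSM2.inversion_inversion x hx
  have hy1 : 1 ≤ ‖y‖ := by
    rw [hyn]
    exact (one_le_inv₀ hn).2 hx1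
  have hP : (inverted g y).PosDef := AFDaux.inverted_posDef hy0 (by rw [hyx]; exact hg)
  have hPs : (inverted g y)ᵀ = inverted g y := by
    have := hP.isHermitian
    rwa [Matrix.IsHermitian, Matrix.conjTranspose_eq_transpose_of_trivial] at this
  have hd := det_le hC hPs (h y hy1)
  have hJ : (inversionJac y).det ^ 2 = ((‖y‖ ^ 2)⁻¹ ^ 2) ^ 3 := by
    have h1 := congrArg Matrix.det (AFDaux.jac_sq hy0)
    rw [Matrix.det_mul, Matrix.det_smul] at h1
    simp only [Fintype.card_fin, Matrix.det_one, mul_one] at h1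
    rw [sq, h1]
  have h2 : (inverted g y).det = (inversionJac y).det ^ 2 * (g x).det := by
    unfold inverted
    rw [hyx, Matrix.det_mul, Matrix.det_mul, Matrix.det_transpose]
    ring
  have hyp : 0 < ‖y‖ := norm_pos_iff.2 hy0
  have h3 : (g x).det = (‖y‖ ^ 6) ^ 2 * (inverted g y).det := by
    rw [h2, hJ]
    field_simp
  unfold volDen
  rw [h3, Real.sqrt_mul (by positivity), Real.sqrt_sq (by positivity), ← hyn, mul_comm]
  exact mul_le_mul_of_nonneg_right (Real.sqrt_le_sqrt hd) (by positivity)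

/-! ### Restriction of the hypotheses -/

lemma h2_mono {U V : Set E3} {w : E3 → ℝ} {G : E3 → Cov} {M : E3 → Bil} (h : H2On U w G M)
    (hV : V ⊆ U) : H2On V w G M where
  cont := h.cont.mono hV
  memG := fun K hK hKV => h.memG K hK (hKV.trans hV)
  memM := fun K hK hKV => h.memM K hK (hKV.trans hV)
  approx := fun K hK hKV => h.approx K hK (hKV.trans hV)

lemma equ_mono {U V : Set E3} {ε : ℝ} {g h : TensorField} {G : E3 → Cov} {M : E3 → Bil}
    (H : EqU U ε g h G M) (hV : V ⊆ U) : EqU V ε g h G M :=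
  ae_mono (Measure.restrict_mono hV le_rfl) H

lemma vsz4 {U : Set E3} {w : E3 → ℝ} {G : E3 → Cov} {M : E3 → Bil} (h : H2s U w G M)
    {K : Set E3} (hK : IsCompact K) (hKU : K ⊆ U) : IntegrableOn (fun x => vsz (G x) ^ 4) K := by
  have h1 : ∀ i, MemLp (fun x => G x i ^ 2) 2 (volume.restrict K) := by
    intro i
    have h2 := (h.memG K hK hKU i).norm_rpow_div 2
    have e : (4 : ℝ≥0∞) / 2 = 2 := by
      rw [show (4 : ℝ≥0∞) = 2 * 2 by norm_num, mul_div_assoc, ENNReal.div_self (by norm_num)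
        (by norm_num), mul_one]
    rw [e] at h2
    refine h2.congr_norm ?_ ?_
    · exact (h.memG K hK hKU i).aestronglyMeasurable.pow 2
    · refine Filter.Eventually.of_forall fun x => ?_
      simp
  have h3 : MemLp (fun x => ∑ i, G x i ^ 2) 2 (volume.restrict K) :=
    memLp_finsetSum _ fun i _ => h1 i
  have h4 := h3.integrable_sq
  refine h4.congr (Filter.Eventually.of_forall fun x => ?_)
  simp only [vsz]
  have h5 : 0 ≤ ∑ i, G x i ^ 2 := Finset.sum_nonneg fun i _ => sq_nonneg _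
  rw [show (4 : ℕ) = 2 * 2 by norm_num, pow_mul, Real.sq_sqrt h5]

/-! ### The volume of the region -/

lemma meas_cAnn (a b : ℝ) : MeasurableSet (cAnn a b) :=
  (AFDaux.isCompact_cAnn a b).isClosed.measurableSet

lemma vol_cAnn {a b : ℝ} (hb : 0 ≤ b) : volume.real (cAnn a b) ≤ 5 * b ^ 3 := by
  have h1 : cAnn a b ⊆ Metric.closedBall (0 : E3) b := by
    intro x hx
    simpa using hx.2
  have h2 : volume.real (cAnn a b) ≤ volume.real (Metric.closedBall (0 : E3) b) :=
    measureReal_mono h1 (isCompact_closedBall _ _).measure_lt_top.ne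
  refine h2.trans ?_
  rw [Measure.real, EuclideanSpace.volume_closedBall_fin_three, ENNReal.toReal_mul,
    ENNReal.toReal_pow, ENNReal.toReal_ofReal hb, ENNReal.toReal_ofReal (by positivity)]
  have := Real.pi_lt_d2
  have hb3 : 0 ≤ b ^ 3 := by positivity
  nlinarith

lemma isOpen_Ann (a b : ℝ) : IsOpen (Ann a b) :=
  (isOpen_lt continuous_const continuous_norm).inter (isOpen_lt continuous_norm continuous_const)

/-- Bound of an integral by the integral of a majorant over the region where the function lives. -/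
lemma bound_T {Om T : Set E3} (hOm : MeasurableSet Om) (hT : MeasurableSet T) (hTO : T ⊆ Om)
    {f F : E3 → ℝ} (hF : IntegrableOn F T) (h : ∀ x ∈ Om, x ∉ T → f x = 0)
    (h' : ∀ x ∈ T, |f x| ≤ F x) : |∫ x in Om, f x| ≤ ∫ x in T, F x := by
  have h1 : ∫ x in Om, f x = ∫ x in T, f x :=
    setIntegral_eq_of_subset_of_forall_sdiff_eq_zero hOm hTO fun x hx => h x hx.1 hx.2
  rw [h1]
  have h2 : ‖∫ x in T, f x‖ ≤ ∫ x in T, F x :=
    norm_integral_le_of_norm_le hF ((ae_restrict_iff' hT).2 (Filter.Eventually.of_forall h'))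
  exact h2

lemma vol_continuous {g : TensorField} (hg : MetricOn Set.univ g) : Continuous (volDen g) := by
  have h1 : ∀ i j, Continuous (fun x => g x i j) := fun i j =>
    continuousOn_univ.1 (hg.smooth i j).continuousOn
  have h2 : Continuous fun x => g x := continuous_matrix fun i j => h1 i j
  exact h2.matrix_det.sqrt

lemma pe_ge {ε : ℝ} (h0 : 0 < ε) (h1 : ε ≤ 1 / 2) : 3 ≤ pe ε := by
  unfold pe
  have : 4 ≤ 2 / ε := by
    rw [le_div_iff₀ h0]
    linarith
  linarith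

lemma rpow_lm {l p : ℝ} (hl : 0 < l) : l ^ (-(2 * p + 1)) = 1 / ((l ^ p) ^ 2 * l) := by
  rw [Real.rpow_neg hl.le, Real.rpow_add_one hl.ne', mul_comm 2 p, Real.rpow_mul hl.le]
  norm_num

/-- `1 - u` near the inner window. -/
lemma one_sub_le {P : Par} {D : Dat} (hS : Setup P D) {x : E3}
    (hx : x ∈ Ann (P.kap / (2 * D.l)) (2 * (1 / 4) / D.l)) :
    |1 - D.u x| ≤ (P.C2 + 1) * (D.l ^ pe P.eps)⁻¹ := by
  have hl4 := hS.l_ge
  have hl : 0 < D.l := by linarith
  have hk := hS.kap_pos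
  have hk8 := hS.kap_le
  have he := hS.eps_pos
  have hR : 0 < D.R := lt_of_lt_of_le (by positivity) hS.R_ge'
  have hR1 : 1 / D.R ≤ P.kap / (2 * D.l) := by
    have h1 := one_div_le_one_div_of_le (by positivity) hS.R_ge'
    rwa [one_div_div] at h1
  have hRl : D.l ≤ D.R := by
    refine le_trans ?_ hS.R_ge'
    rw [le_div_iff₀ hk]
    nlinarith
  have hx1 : ‖x‖ ≤ D.l⁻¹ := by
    have h1 := hx.2
    have h2 : 2 * (1 / 4) / D.l = (1 / 2) * D.l⁻¹ := by
      rw [div_eq_mul_inv]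
      norm_num
    have h3 : 0 < D.l⁻¹ := by positivity
    rw [h2] at h1
    linarith
  have hl1 : D.l⁻¹ ≤ 1 := inv_le_one_of_one_le₀ (by linarith)
  have hxO : x ∈ Ann (1 / D.R) D.R := ⟨lt_of_le_of_lt hR1 hx.1, by linarith⟩
  have hxp : 0 < ‖x‖ := lt_trans (by positivity) hx.1
  have hu1 := hS.sol.le_one x
  have hu0 := hS.located.pos x hxO
  have ht : 0 < D.l ^ pe P.eps := Real.rpow_pos_of_pos hl _
  have hpe := pe_ge he hS.eps_le
  rw [abs_of_nonneg (by linarith)]
  by_cases hc : P.kap / D.l ≤ ‖x‖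
  · have h1 := hS.located.inner x hc (hx1.trans hl1)
    have h2 : ‖x‖ ^ pe P.eps ≤ (D.l ^ pe P.eps)⁻¹ := by
      rw [← Real.inv_rpow hl.le]
      exact Real.rpow_le_rpow hxp.le hx1 (by linarith)
    have h3 : 0 < (D.l ^ pe P.eps)⁻¹ := by positivity
    have h4 := hS.C2_pos
    nlinarith
  · have h1 : wOf P.eps D.u x < sbE P.eps P.c D.l / 4 := by
      by_contra h2
      exact hc (hS.located.low' x hxO (not_lt.1 h2))
    unfold wOf sbE at h1
    have h2 := Real.log_le_sub_one_of_pos hu0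
    have h3 : (4 * D.l) ^ (-pe P.eps) ≤ (D.l ^ pe P.eps)⁻¹ := by
      rw [← Real.rpow_neg hl.le]
      exact Real.rpow_le_rpow_of_nonpos hl (by linarith) (by linarith)
    have h4 : -Real.log (D.u x) < P.c * (4 * D.l) ^ (-pe P.eps) / 4 := by
      have h5 : P.eps * (-Real.log (D.u x)) < P.eps * (P.c * (4 * D.l) ^ (-pe P.eps) / 4) := by
        nlinarith
      exact lt_of_mul_lt_mul_left h5 he.le
    have h5 : 0 ≤ (4 * D.l) ^ (-pe P.eps) := by positivity
    have h6 : P.c * (4 * D.l) ^ (-pe P.eps) ≤ 1 * (4 * D.l) ^ (-pe P.eps) :=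
      mul_le_mul_of_nonneg_right hS.c_le h5
    have h7 := hS.C2_pos
    have h8 : 0 < (D.l ^ pe P.eps)⁻¹ := by positivity
    nlinarith

end XWI

open XWI in
theorem XWI (hSETW : Stmt_SETW) (hLEY : Stmt_LEY) (hXID : Stmt_XID) (hL4 : Stmt_L4) :
    Stmt_XWI := by
  intro P
  by_cases hP : 0 < P.eps ∧ P.eps ≤ 1 / 2 ∧ 0 < P.C ∧ 0 < P.kap ∧ P.kap ≤ 1 / 8 ∧ 0 < P.C2
  swap
  · refine ⟨1, 1, one_pos, le_rfl, ?_⟩
    intro D hS
    exact absurd ⟨hS.eps_pos, hS.eps_le, hS.C_pos, hS.kap_pos, hS.kap_le, hS.C2_pos⟩ hP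
  obtain ⟨he, he2, hC, hk, hk8, hC2⟩ := hP
  obtain ⟨C', l₀, hC', hl₀, hley⟩ := hLEY P.eps P.C P.kap (1 / 4) he he2 hC hk (by linarith)
  set S0 : ℝ := P.C2 + 1 with hS0
  have hS0p : 0 < S0 := by positivity
  set Cv : ℝ := Real.sqrt (6 * P.C ^ 3) * (P.kap⁻¹) ^ 6 with hCv
  have hCvp : 0 < Cv := by positivity
  have hsC : 0 < Real.sqrt P.C := Real.sqrt_pos.2 hC
  refine ⟨2 * (C' * S0 ^ 3) + 9 * Real.sqrt P.C * (C' * S0 ^ 3 + Cv), l₀, by positivity, hl₀, ?_⟩
  intro D hS hlD ψ A hψ hψc hψs hA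
  obtain ⟨hmet, hten, -, hH2, hEqW, -, -, -, -, -, -, -, -, -, hK, hsb, hsb1, -, hs2, hsM, -, -⟩ :=
    hSETW P D hS
  have hl4 := hS.l_ge
  have hl : 0 < D.l := by linarith
  have hR : 0 < D.R := lt_of_lt_of_le (by positivity) hS.R_ge'
  have hR1 : 1 / D.R ≤ P.kap / (2 * D.l) := by
    have h1 := one_div_le_one_div_of_le (by positivity) hS.R_ge'
    rwa [one_div_div] at h1
  have hRl : D.l ≤ D.R := by
    refine le_trans ?_ hS.R_ge'
    rw [le_div_iff₀ hk]
    nlinarith
  have hA0 : 0 ≤ A := (abs_nonneg _).trans (hA 0).1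
  -- the region
  set T : Set E3 := cAnn (P.kap / D.l) (1 / 4 / D.l) with hTdef
  have hTm : MeasurableSet T := meas_cAnn _ _
  have hTc : IsCompact T := AFDaux.isCompact_cAnn _ _
  have hq : (1 / 4 : ℝ) / D.l = (1 / 4) * D.l⁻¹ := by rw [div_eq_mul_inv]
  have hli : 0 < D.l⁻¹ := by positivity
  have hli1 : D.l⁻¹ ≤ 1 := inv_le_one_of_one_le₀ (by linarith)
  have hkl : P.kap / (2 * D.l) < P.kap / D.l := by
    apply div_lt_div_of_pos_left hk hl
    linarith
  have hTA : T ⊆ Ann (P.kap / (2 * D.l)) (2 * (1 / 4) / D.l) := by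
    intro x hx
    refine ⟨lt_of_lt_of_le hkl hx.1, lt_of_le_of_lt hx.2 ?_⟩
    rw [div_lt_div_iff_of_pos_right hl]
    norm_num
  have hAO : Ann (P.kap / (2 * D.l)) (2 * (1 / 4) / D.l) ⊆ D.Om := by
    intro x hx
    refine ⟨lt_of_le_of_lt hR1 hx.1, lt_of_lt_of_le hx.2 ?_⟩
    have : 2 * (1 / 4) / D.l = (1 / 2) * D.l⁻¹ := by
      rw [div_eq_mul_inv]
      norm_num
    rw [this]
    linarith
  have hTO : T ⊆ D.Om := hTA.trans hAO
  have hOm : MeasurableSet D.Om := (isOpen_Ann _ _).measurableSet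
  -- small facts on T
  have hxn : ∀ x ∈ T, 0 < ‖x‖ := fun x hx => lt_of_lt_of_le (by positivity) hx.1
  have hxl : ∀ x ∈ T, ‖x‖ ≤ D.l⁻¹ := by
    intro x hx
    have h1 := hx.2
    rw [hq] at h1
    linarith
  have hlow : ∀ x ∈ D.Om, D.w P x ∈ tsupport ψ → x ∈ T := by
    intro x hx hw
    have h1 := hψs hw
    refine ⟨hS.located.low' x hx h1.1.le, ?_⟩
    have h2 := hS.located.low x hx h1.2.le
    rwa [show (1 / 4 : ℝ) / D.l = 1 / (4 * D.l) by rw [div_div]]
  -- LEY
  have hAm : ∀ x ∈ Ann (P.kap / (2 * D.l)) (2 * (1 / 4) / D.l), ‖x‖ ≤ 1 := by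
    intro x hx
    have h1 := hx.2
    have : 2 * (1 / 4) / D.l = (1 / 2) * D.l⁻¹ := by
      rw [div_eq_mul_inv]
      norm_num
    rw [this] at h1
    linarith
  have h16 : 1 / (16 * D.R) ≤ P.kap / (2 * D.l) := by
    refine le_trans ?_ hR1
    apply one_div_le_one_div_of_le hR
    linarith
  have h8 : 1 / (8 * D.R) ≤ P.kap / (2 * D.l) := by
    refine le_trans ?_ hR1
    apply one_div_le_one_div_of_le hR
    linarith
  have hsame : ∀ x ∈ Ann (P.kap / (2 * D.l)) (2 * (1 / 4) / D.l), D.g' x = D.g x := by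
    intro x hx
    refine hS.modified.same x (lt_of_le_of_lt h16 hx.1) ?_
    linarith [hAm x hx]
  have hnsq : ∀ x ∈ Ann (P.kap / (2 * D.l)) (2 * (1 / 4) / D.l),
      nsq D.g' x (D.h' x) ≤ P.C * ‖x‖ ^ 4 := by
    intro x hx
    exact hS.modified.hsmall2 x (h8.trans hx.1.le) (hAm x hx)
  have ht : 0 < D.l ^ pe P.eps := Real.rpow_pos_of_pos hl _
  obtain ⟨hint, hle⟩ := hley D.l (S0 * (D.l ^ pe P.eps)⁻¹) D.g D.g' D.h' D.u D.G D.M hlD
    (by positivity) hS.metric0 hS.modified.decay2 hS.ell2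
    (fun x hx => ⟨hsame x hx, hS.modified.tensor.symm x (Set.mem_univ x), by
      have h1 := hnsq x hx
      have h2 : nsq D.g x (D.h' x) = nsq D.g' x (D.h' x) := by
        unfold nsq
        rw [hsame x hx]
      rw [h2]
      exact h1⟩)
    (h2_mono hS.sol.h2 hAO) (equ_mono hS.sol.eq hAO) (fun x hx => one_sub_le hS hx)
  -- volume
  have hvc : Continuous (volDen D.g') := vol_continuous hS.modified.metric
  have hvi : IntegrableOn (volDen D.g') T := hvc.continuousOn.integrableOn_compact hTc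
  have hvn : ∀ x, 0 ≤ volDen D.g' x := fun x => Real.sqrt_nonneg _
  have hvb : ∀ x ∈ T, volDen D.g' x ≤ Cv * D.l ^ 6 := by
    intro x hx
    have hx0 : x ≠ 0 := norm_pos_iff.1 (hxn x hx)
    have h1 : volDen D.g' x = volDen D.g x := by
      unfold volDen
      rw [hsame x (hTA hx)]
    rw [h1]
    refine (vol_le hC hx0 (hAm x (hTA hx)) (hS.metric0.posDef x hx0) hS.ell2).trans ?_
    have h2 : ‖x‖⁻¹ ≤ P.kap⁻¹ * D.l := by
      have h3 := inv_anti₀ (by positivity) hx.1
      rw [inv_div] at h3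
      calc ‖x‖⁻¹ ≤ D.l / P.kap := h3
        _ = P.kap⁻¹ * D.l := by rw [div_eq_mul_inv, mul_comm]
    calc Real.sqrt (6 * P.C ^ 3) * ‖x‖⁻¹ ^ 6 ≤ Real.sqrt (6 * P.C ^ 3) * (P.kap⁻¹ * D.l) ^ 6 := by
          gcongr
      _ = Cv * D.l ^ 6 := by
          rw [hCv]
          ring
  have hvI : ∫ x in T, volDen D.g' x ≤ Cv * D.l ^ 3 := by
    have h1 : ‖∫ x in T, volDen D.g' x‖ ≤ Cv * D.l ^ 6 * volume.real T := by
      refine norm_setIntegral_le_of_norm_le_const hTc.measure_lt_top fun x hx => ?_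
      rw [Real.norm_eq_abs, abs_of_nonneg (hvn x)]
      exact hvb x hx
    have h2 : volume.real T ≤ 5 * (1 / 4 / D.l) ^ 3 := vol_cAnn (by positivity)
    have h3 : (1 / 4 / D.l) ^ 3 = (1 / 64) * (1 / D.l ^ 3) := by
      field_simp
      norm_num
    calc ∫ x in T, volDen D.g' x ≤ ‖∫ x in T, volDen D.g' x‖ := Real.le_norm_self _
      _ ≤ Cv * D.l ^ 6 * volume.real T := h1
      _ ≤ Cv * D.l ^ 6 * (5 * (1 / 4 / D.l) ^ 3) := by gcongr
      _ = (5 / 64) * (Cv * D.l ^ 3) := by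
          rw [h3]
          field_simp
      _ ≤ Cv * D.l ^ 3 := by nlinarith [mul_pos hCvp (pow_pos hl 3)]
  -- pointwise bound of X
  have hX : ∀ x ∈ T, 0 ≤ len D.g' x (D.Gw P x) ∧ len D.g' x (D.Gw P x) ≤ len D.g' x (D.G x) := by
    intro x hx
    refine ⟨Real.sqrt_nonneg _, ?_⟩
    have hu : 1 / 2 ≤ D.u x := by
      refine hS.located.inner_half x hx.1 ?_
      rw [one_div]
      exact hxl x hx
    have h1 : D.Gw P x = fun i => (-P.eps / D.u x) * D.G x i := by
      funext i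
      unfold Dat.Gw gOf
      ring
    rw [h1, len_smul, abs_div, abs_neg, abs_of_pos he, abs_of_pos (by linarith : 0 < D.u x)]
    have h2 : P.eps / D.u x ≤ 1 := by
      rw [div_le_one (by linarith)]
      linarith
    have h3 : 0 ≤ len D.g' x (D.G x) := Real.sqrt_nonneg _
    nlinarith
  -- XID
  obtain ⟨s, hs, hs'⟩ : ∃ s, D.sb P / 4 < s ∧ ∀ t ∈ tsupport ψ, s ≤ t := by
    rcases (tsupport ψ).eq_empty_or_nonempty with h0 | h0
    · exact ⟨D.sb P, by linarith, fun t ht' => by rw [h0] at ht'; exact absurd ht' (by simp)⟩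
    · obtain ⟨m, hm, hm'⟩ := hψc.isCompact.exists_isLeast h0
      exact ⟨m, (hψs hm).1, fun t ht' => hm' ht'⟩
  obtain ⟨K, hKc, hKO, hKs⟩ := hK s (D.sb P) hs (by linarith [hS.gam_pos])
  have hR64 : 1 < D.R := by linarith
  have hRR : 1 / D.R < D.R := by
    rw [div_lt_iff₀ hR]
    nlinarith
  have hxid := hXID P.eps (1 / D.R) D.R D.g' D.h' (D.w P) (D.Gw P) (D.Mw P) he (by linarith)
    (by positivity) hRR hmet hten hH2 hEqW
    (fun K' hK' hK'O => vsz4 (hL4 _ _ _ _ (isOpen_Ann _ _) hH2) hK' hK'O) ψ K hψ hKc hKO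
    (fun x hx hw => hKs ⟨hx, hs' _ hw, (hψs hw).2.le⟩)
  have hL : ∫ x in D.Om, ψ (D.w P x) * D.Phi P x * D.vol x
      = 1 / (2 - P.eps) * (∫ x in D.Om, (ψ (D.w P x) + P.eps * deriv ψ (D.w P x)) *
          len D.g' x (D.Gw P x) ^ 3 * volDen D.g' x)
        + ∫ x in D.Om, ψ (D.w P x) * len D.g' x (D.Gw P x) ^ 2
            * (2 / (2 - P.eps) * beps P.eps D.g' x (D.Gw P x) (D.h' x)
              - btan D.g' x (D.Gw P x) (D.h' x)) * volDen D.g' x := hxid
  -- the two estimates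
  have hz : ∀ x ∈ D.Om, x ∉ T → ψ (D.w P x) = 0 ∧ deriv ψ (D.w P x) = 0 := by
    intro x hx hxT
    have h1 : D.w P x ∉ tsupport ψ := fun h => hxT (hlow x hx h)
    exact ⟨image_eq_zero_of_notMem_tsupport h1, by
      by_contra h2
      exact h1 (support_deriv_subset h2)⟩
  have hI1 : |∫ x in D.Om, (ψ (D.w P x) + P.eps * deriv ψ (D.w P x)) *
      len D.g' x (D.Gw P x) ^ 3 * volDen D.g' x|
      ≤ ∫ x in T, 2 * A * (len D.g' x (D.G x) ^ 3 * volDen D.g' x) := by
    refine bound_T hOm hTm hTO (hint.const_mul _) ?_ ?_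
    · intro x hx hxT
      obtain ⟨h1, h2⟩ := hz x hx hxT
      rw [h1, h2]
      ring
    · intro x hx
      obtain ⟨h1, h2⟩ := hX x hx
      have h3 : |ψ (D.w P x) + P.eps * deriv ψ (D.w P x)| ≤ 2 * A := by
        calc |ψ (D.w P x) + P.eps * deriv ψ (D.w P x)|
            ≤ |ψ (D.w P x)| + |P.eps * deriv ψ (D.w P x)| := abs_add_le _ _
          _ ≤ A + 1 * A := by
              refine add_le_add (hA _).1 ?_
              rw [abs_mul, abs_of_pos he]
              exact mul_le_mul (by linarith) (hA _).2 (abs_nonneg _) zero_le_one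
          _ = 2 * A := by ring
      rw [abs_mul, abs_mul, abs_of_nonneg (hvn x), abs_of_nonneg (pow_nonneg h1 3), mul_assoc]
      have h4 : len D.g' x (D.Gw P x) ^ 3 ≤ len D.g' x (D.G x) ^ 3 := pow_le_pow_left₀ h1 h2 3
      exact mul_le_mul h3 (mul_le_mul_of_nonneg_right h4 (hvn x))
        (mul_nonneg (pow_nonneg h1 3) (hvn x)) (by positivity)
  set lam : ℝ := D.l * D.l ^ pe P.eps with hlam
  have hlamp : 0 < lam := by positivity
  have hI2 : |∫ x in D.Om, ψ (D.w P x) * len D.g' x (D.Gw P x) ^ 2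
            * (2 / (2 - P.eps) * beps P.eps D.g' x (D.Gw P x) (D.h' x)
              - btan D.g' x (D.Gw P x) (D.h' x)) * volDen D.g' x|
      ≤ ∫ x in T, (9 * A * Real.sqrt P.C * D.l⁻¹ ^ 2) *
          (lam * (len D.g' x (D.G x) ^ 3 * volDen D.g' x) + lam⁻¹ ^ 2 * volDen D.g' x) := by
    refine bound_T hOm hTm hTO (((hint.const_mul _).add (hvi.const_mul _)).const_mul _) ?_ ?_
    · intro x hx hxT
      obtain ⟨h1, h2⟩ := hz x hx hxT
      rw [h1]
      ring
    · intro x hx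
      obtain ⟨h1, h2⟩ := hX x hx
      have hpd : (D.g' x).PosDef := hS.modified.metric.posDef x (Set.mem_univ x)
      have h3 := hterm_abs hpd he (by linarith) (D.Gw P x) (D.h' x)
      have h4 : Real.sqrt (nsq D.g' x (D.h' x)) ≤ Real.sqrt P.C * D.l⁻¹ ^ 2 := by
        calc Real.sqrt (nsq D.g' x (D.h' x)) ≤ Real.sqrt (P.C * (‖x‖ ^ 2) ^ 2) := by
              apply Real.sqrt_le_sqrt
              have h5 := hnsq x (hTA hx)
              calc nsq D.g' x (D.h' x) ≤ P.C * ‖x‖ ^ 4 := h5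
                _ = P.C * (‖x‖ ^ 2) ^ 2 := by ring
          _ = Real.sqrt P.C * ‖x‖ ^ 2 := by
              rw [Real.sqrt_mul hC.le, Real.sqrt_sq (by positivity)]
          _ ≤ Real.sqrt P.C * D.l⁻¹ ^ 2 := by
              gcongr
              exact hxl x hx
      have h5 : len D.g' x (D.Gw P x) ^ 2 ≤ len D.g' x (D.G x) ^ 2 := pow_le_pow_left₀ h1 h2 2
      have h6 : 0 ≤ len D.g' x (D.G x) := Real.sqrt_nonneg _
      have h7 : len D.g' x (D.G x) ^ 2 ≤ lam * len D.g' x (D.G x) ^ 3 + lam⁻¹ ^ 2 := by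
        generalize len D.g' x (D.G x) = t at *
        by_cases h8 : 1 ≤ lam * t
        · have : t ^ 2 * 1 ≤ t ^ 2 * (lam * t) := mul_le_mul_of_nonneg_left h8 (by positivity)
          have h9 : 0 < lam⁻¹ ^ 2 := by positivity
          nlinarith
        · have h9 : t ≤ lam⁻¹ := by
            rw [← one_div, le_div_iff₀ hlamp]
            linarith
          have h10 : t ^ 2 ≤ lam⁻¹ ^ 2 := pow_le_pow_left₀ h6 h9 2
          have h11 : 0 ≤ lam * t ^ 3 := by positivity
          linarith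
      rw [abs_mul, abs_mul, abs_mul, abs_of_nonneg (hvn x), abs_of_nonneg (pow_nonneg h1 2)]
      calc |ψ (D.w P x)| * len D.g' x (D.Gw P x) ^ 2
            * |2 / (2 - P.eps) * beps P.eps D.g' x (D.Gw P x) (D.h' x)
              - btan D.g' x (D.Gw P x) (D.h' x)| * volDen D.g' x
          ≤ A * (lam * len D.g' x (D.G x) ^ 3 + lam⁻¹ ^ 2)
            * (9 * (Real.sqrt P.C * D.l⁻¹ ^ 2)) * volDen D.g' x := by
            refine mul_le_mul_of_nonneg_right ?_ (hvn x)
            refine mul_le_mul (mul_le_mul (hA _).1 (h5.trans h7) (pow_nonneg h1 2) hA0)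
              (h3.trans (by linarith)) (abs_nonneg _) (by positivity)
        _ = _ := by ring
  rw [integral_const_mul] at hI1
  rw [integral_const_mul, integral_add (hint.const_mul _) (hvi.const_mul _), integral_const_mul,
    integral_const_mul] at hI2
  have hI3 : ∫ x in T, len D.g' x (D.G x) ^ 3 * volDen D.g' x
      ≤ C' * (S0 * (D.l ^ pe P.eps)⁻¹) ^ 3 := hle
  rw [hL, rpow_lm hl]
  have hc0 : 0 ≤ 1 / (2 - P.eps) := div_nonneg zero_le_one (by linarith)
  have hc1 : 1 / (2 - P.eps) ≤ 1 := by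
    rw [div_le_one (by linarith)]
    linarith
  have hlt : D.l ≤ D.l ^ pe P.eps := by
    calc D.l = D.l ^ (1 : ℝ) := (Real.rpow_one _).symm
      _ ≤ D.l ^ pe P.eps := Real.rpow_le_rpow_of_exponent_le (by linarith)
          (by linarith [pe_ge he he2])
  generalize (∫ x in D.Om, (ψ (D.w P x) + P.eps * deriv ψ (D.w P x)) *
      len D.g' x (D.Gw P x) ^ 3 * volDen D.g' x) = I1 at *
  generalize (∫ x in D.Om, ψ (D.w P x) * len D.g' x (D.Gw P x) ^ 2
            * (2 / (2 - P.eps) * beps P.eps D.g' x (D.Gw P x) (D.h' x)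
              - btan D.g' x (D.Gw P x) (D.h' x)) * volDen D.g' x) = I2 at *
  generalize (∫ x in T, len D.g' x (D.G x) ^ 3 * volDen D.g' x) = J at *
  generalize (∫ x in T, volDen D.g' x) = V at *
  generalize D.l ^ pe P.eps = t at *
  have hg1 : |1 / (2 - P.eps) * I1 + I2| ≤ 1 * |I1| + |I2| := by
    refine (abs_add_le _ _).trans (add_le_add ?_ le_rfl)
    rw [abs_mul, abs_of_nonneg hc0]
    exact mul_le_mul_of_nonneg_right hc1 (abs_nonneg _)
  have hg2 : |I1| ≤ 2 * A * (C' * (S0 * t⁻¹) ^ 3) :=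
    hI1.trans (mul_le_mul_of_nonneg_left hI3 (by positivity))
  have hg3 : |I2| ≤ 9 * A * Real.sqrt P.C * D.l⁻¹ ^ 2 *
      (lam * (C' * (S0 * t⁻¹) ^ 3) + lam⁻¹ ^ 2 * (Cv * D.l ^ 3)) := by
    refine hI2.trans (mul_le_mul_of_nonneg_left ?_ (by positivity))
    exact add_le_add (mul_le_mul_of_nonneg_left hI3 hlamp.le)
      (mul_le_mul_of_nonneg_left hvI (by positivity))
  have hg4 : 9 * A * Real.sqrt P.C * D.l⁻¹ ^ 2 *
      (lam * (C' * (S0 * t⁻¹) ^ 3) + lam⁻¹ ^ 2 * (Cv * D.l ^ 3))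
      = 9 * Real.sqrt P.C * (C' * S0 ^ 3 + Cv) * (1 / (t ^ 2 * D.l)) * A := by
    rw [hlam]
    field_simp
  have hg5 : 2 * A * (C' * (S0 * t⁻¹) ^ 3) ≤ 2 * (C' * S0 ^ 3) * (1 / (t ^ 2 * D.l)) * A := by
    have h1 : 2 * A * (C' * (S0 * t⁻¹) ^ 3) = 2 * (C' * S0 ^ 3) * (1 / (t ^ 2 * t)) * A := by
      field_simp
    rw [h1]
    have h2 : 1 / (t ^ 2 * t) ≤ 1 / (t ^ 2 * D.l) := by
      apply one_div_le_one_div_of_le (by positivity)
      exact mul_le_mul_of_nonneg_left hlt (by positivity)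
    gcongr
  calc |1 / (2 - P.eps) * I1 + I2| ≤ 1 * |I1| + |I2| := hg1
    _ ≤ 2 * (C' * S0 ^ 3) * (1 / (t ^ 2 * D.l)) * A
        + 9 * Real.sqrt P.C * (C' * S0 ^ 3 + Cv) * (1 / (t ^ 2 * D.l)) * A := by
        rw [one_mul]
        exact add_le_add (hg2.trans hg5) (hg3.trans hg4.le)
    _ = (2 * (C' * S0 ^ 3) + 9 * Real.sqrt P.C * (C' * S0 ^ 3 + Cv))
        * (1 / (t ^ 2 * D.l)) * A := by ring

end Pool.Agent.PFlow


end
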