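import Mathlib
import Pool.Agent.PenroseSph.Defs

/-! Parts: PenroseSph.Calc, PenroseSph.Geom -/

section

/-! Calculus of partial derivatives. -/

open MeasureTheory Filter Topology

namespace Pool.Agent.PenroseSph

variable {f f' : E3 → ℝ} {x : E3} {i j : Fin 3}

theorem pd_congr (h : f =ᶠ[𝓝 x] f') : pd i f x = pd i f' x := by
  unfold pd; rw [h.fderiv_eq]

theorem pd_add (hf : DifferentiableAt ℝ f x) (hg : DifferentiableAt ℝ f' x) :
    pd i (fun y => f y + f' y) x = pd i f x + pd i f' x := by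
  unfold pd; rw [fderiv_fun_add hf hg]; rfl

theorem pd_sub (hf : DifferentiableAt ℝ f x) (hg : DifferentiableAt ℝ f' x) :
    pd i (fun y => f y - f' y) x = pd i f x - pd i f' x := by
  unfold pd; rw [fderiv_fun_sub hf hg]; rfl

theorem pd_mul (hf : DifferentiableAt ℝ f x) (hg : DifferentiableAt ℝ f' x) :
    pd i (fun y => f y * f' y) x = f x * pd i f' x + f' x * pd i f x := by
  unfold pd; rw [fderiv_fun_mul hf hg]; rfl

theorem pd_const_mul (c : ℝ) (hf : DifferentiableAt ℝ f x) :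
    pd i (fun y => c * f y) x = c * pd i f x := by
  unfold pd; rw [fderiv_const_mul hf]; rfl

theorem pd_mul_const (c : ℝ) (hf : DifferentiableAt ℝ f x) :
    pd i (fun y => f y * c) x = pd i f x * c := by
  have := pd_const_mul (i := i) c hf
  simp only [mul_comm c] at this
  exact this

theorem pd_const (c : ℝ) : pd i (fun _ => c) x = 0 := by
  unfold pd; simp

theorem pd_sum {ι : Type*} (s : Finset ι) (F : ι → E3 → ℝ)
    (hF : ∀ a ∈ s, DifferentiableAt ℝ (F a) x) :
    pd i (fun y => ∑ a ∈ s, F a y) x = ∑ a ∈ s, pd i (F a) x := by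
  unfold pd
  rw [fderiv_fun_sum hF]
  simp

theorem differentiableAt_coord (j : Fin 3) : DifferentiableAt ℝ (fun y : E3 => y j) x := by
  fun_prop

theorem pd_coord : pd i (fun y => y j) x = if i = j then 1 else 0 := by
  unfold pd
  have : (fun y : E3 => y j) = fun y => (EuclideanSpace.proj j : E3 →L[ℝ] ℝ) y := rfl
  rw [this, ContinuousLinearMap.fderiv]
  simp [eq_comm]

theorem hasFDerivAt_norm (hx : x ≠ 0) :
    HasFDerivAt (fun y : E3 => ‖y‖) (‖x‖⁻¹ • (innerSL ℝ x)) x := by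
  have h1 : HasFDerivAt (fun y : E3 => ‖y‖ ^ 2) (2 • (innerSL ℝ x)) x :=
    (hasStrictFDerivAt_norm_sq x).hasFDerivAt
  have hx2 : ‖x‖ ^ 2 ≠ 0 := by positivity
  have h2 := h1.sqrt hx2
  have h3 : (fun y : E3 => Real.sqrt (‖y‖ ^ 2)) = fun y => ‖y‖ := by
    funext y; exact Real.sqrt_sq (norm_nonneg y)
  rw [h3] at h2
  refine h2.congr_fderiv ?_
  ext v
  simp only [ContinuousLinearMap.smul_apply, nsmul_eq_mul, smul_eq_mul]
  rw [Real.sqrt_sq (norm_nonneg x)]
  have : ‖x‖ ≠ 0 := by positivity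
  simp
  field_simp

theorem differentiableAt_norm (hx : x ≠ 0) : DifferentiableAt ℝ (fun y : E3 => ‖y‖) x :=
  (hasFDerivAt_norm hx).differentiableAt

theorem pd_radial {F : ℝ → ℝ} {F' : ℝ} (hx : x ≠ 0) (hF : HasDerivAt F F' ‖x‖) :
    pd i (fun y => F ‖y‖) x = F' * (x i / ‖x‖) := by
  unfold pd
  have h1 : HasFDerivAt (fun y : E3 => F ‖y‖) (F' • (‖x‖⁻¹ • (innerSL ℝ x))) x :=
    hF.comp_hasFDerivAt x (hasFDerivAt_norm hx)
  rw [h1.fderiv]
  simp [EuclideanSpace.inner_single_right]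
  left
  ring

theorem differentiableAt_radial {F : ℝ → ℝ} {F' : ℝ} (hx : x ≠ 0) (hF : HasDerivAt F F' ‖x‖) :
    DifferentiableAt ℝ (fun y : E3 => F ‖y‖) x :=
  (hF.comp_hasFDerivAt x (hasFDerivAt_norm hx)).differentiableAt

theorem norm_sq_eq (x : E3) : ‖x‖ ^ 2 = x 0 ^ 2 + x 1 ^ 2 + x 2 ^ 2 := by
  rw [EuclideanSpace.norm_sq_eq, Fin.sum_univ_three]
  simp

end Pool.Agent.PenroseSph


end

section

/-! Geometry of a radial conformally flat metric. -/

open MeasureTheory Filter Topology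

namespace Pool.Agent.PenroseSph

/-- Kronecker delta. -/
noncomputable def dl (i j : Fin 3) : ℝ := if i = j then 1 else 0

/-- gradient of the conformal exponent -/
noncomputable def gr (u1 : ℝ → ℝ) (i : Fin 3) (x : E3) : ℝ := u1 ‖x‖ * (x i / ‖x‖)

section

variable {ρ₁ : ℝ} {u u1 u2 : ℝ → ℝ} {g h : TensorField} (h0 : 0 ≤ ρ₁)
  (hu : ∀ ρ, ρ₁ < ρ → HasDerivAt u (u1 ρ) ρ) (hu1 : ∀ ρ, ρ₁ < ρ → HasDerivAt u1 (u2 ρ) ρ)
  (hg : ∀ x : E3, ρ₁ < ‖x‖ → g x = Real.exp (2 * u ‖x‖) • (1 : Matrix (Fin 3) (Fin 3) ℝ))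
  {x : E3} (hx : ρ₁ < ‖x‖)

include h0 hx in
theorem ne_zero_of_lt : x ≠ 0 := norm_pos_iff.1 (lt_of_le_of_lt h0 hx)

include hg hx in
theorem metric_apply (i j : Fin 3) : g x i j = Real.exp (2 * u ‖x‖) * dl i j := by
  rw [hg x hx]
  simp [Matrix.smul_apply, Matrix.one_apply, dl]

include hg hx in
theorem metric_inv : (g x)⁻¹ = Real.exp (-(2 * u ‖x‖)) • (1 : Matrix (Fin 3) (Fin 3) ℝ) := by
  apply Matrix.inv_eq_right_inv
  rw [hg x hx, Matrix.smul_mul, Matrix.mul_smul, Matrix.one_mul, smul_smul, ← Real.exp_add]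
  simp

include hg hx in
theorem metric_inv_apply (i j : Fin 3) : (g x)⁻¹ i j = Real.exp (-(2 * u ‖x‖)) * dl i j := by
  rw [metric_inv hg hx]
  simp [Matrix.smul_apply, Matrix.one_apply, dl]

include hx in
theorem eventually_lt_norm : ∀ᶠ y in 𝓝 x, ρ₁ < ‖y‖ :=
  (isOpen_lt continuous_const continuous_norm).mem_nhds hx

include h0 hu hg hx in
theorem pd_metric (k i j : Fin 3) :
    pd k (fun y => g y i j) x = 2 * Real.exp (2 * u ‖x‖) * gr u1 k x * dl i j := by
  have hx0 := ne_zero_of_lt h0 hx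
  have h1 : (fun y => g y i j) =ᶠ[𝓝 x] fun y => Real.exp (2 * u ‖y‖) * dl i j := by
    filter_upwards [eventually_lt_norm hx] with y hy
    exact metric_apply hg hy i j
  have hF : HasDerivAt (fun ρ => Real.exp (2 * u ρ)) (Real.exp (2 * u ‖x‖) * (2 * u1 ‖x‖)) ‖x‖ :=
    ((hu ‖x‖ hx).const_mul 2).exp
  rw [pd_congr h1, pd_mul_const _ (differentiableAt_radial hx0 hF), pd_radial hx0 hF]
  unfold gr
  ring

theorem sum_dl (k : Fin 3) (F : Fin 3 → ℝ) : ∑ l, dl k l * F l = F k := by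
  unfold dl
  simp

theorem sum_dl' (k : Fin 3) (F : Fin 3 → ℝ) : ∑ l, dl l k * F l = F k := by
  unfold dl
  simp

theorem dl_symm (i j : Fin 3) : dl i j = dl j i := by
  unfold dl
  simp [eq_comm]

include h0 hu hg hx in
theorem christoffel_eq (k i j : Fin 3) :
    christoffel g k i j x = dl k i * gr u1 j x + dl k j * gr u1 i x - dl i j * gr u1 k x := by
  unfold christoffel
  simp only [pd_metric h0 hu hg hx, metric_inv_apply hg hx]
  have e : Real.exp (-(2 * u ‖x‖)) * Real.exp (2 * u ‖x‖) = 1 := by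
    rw [← Real.exp_add]; simp
  set E := Real.exp (-(2 * u ‖x‖))
  set G := Real.exp (2 * u ‖x‖)
  have h1 : ∀ l, E * dl k l * (2 * G * gr u1 i x * dl j l + 2 * G * gr u1 j x * dl i l
      - 2 * G * gr u1 l x * dl i j)
      = dl k l * (2 * (gr u1 i x * dl j l + gr u1 j x * dl i l - gr u1 l x * dl i j)) := by
    intro l
    linear_combination (2 * dl k l * (gr u1 i x * dl j l + gr u1 j x * dl i l
      - gr u1 l x * dl i j)) * e
  rw [Finset.sum_congr rfl fun l _ => h1 l, sum_dl]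
  rw [dl_symm k i, dl_symm k j]
  ring

theorem differentiableAt_nu (hx : x ≠ 0) (i : Fin 3) :
    DifferentiableAt ℝ (fun y : E3 => y i / ‖y‖) x := by
  have hn := norm_pos_iff.2 hx
  have hF : HasDerivAt (fun ρ : ℝ => ρ⁻¹) (-(‖x‖ ^ 2)⁻¹) ‖x‖ := hasDerivAt_inv hn.ne'
  have h1 : (fun y : E3 => y i / ‖y‖) = fun y => y i * ‖y‖⁻¹ := by
    funext y; rw [div_eq_mul_inv]
  rw [h1]
  exact (differentiableAt_coord i).mul (differentiableAt_radial hx hF)

include h0 hu1 hx in
theorem differentiableAt_gr (i : Fin 3) : DifferentiableAt ℝ (gr u1 i) x := by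
  have hx0 := ne_zero_of_lt h0 hx
  have h1 : DifferentiableAt ℝ (fun y : E3 => u1 ‖y‖) x := differentiableAt_radial hx0 (hu1 _ hx)
  exact h1.mul (differentiableAt_nu hx0 i)

theorem pd_nu (hx : x ≠ 0) (i j : Fin 3) : pd i (fun y => y j / ‖y‖) x
    = (dl i j - (x i / ‖x‖) * (x j / ‖x‖)) / ‖x‖ := by
  have hn := norm_pos_iff.2 hx
  have hF : HasDerivAt (fun ρ : ℝ => ρ⁻¹) (-(‖x‖ ^ 2)⁻¹) ‖x‖ := hasDerivAt_inv hn.ne'
  have h1 : (fun y : E3 => y j / ‖y‖) = fun y => y j * ‖y‖⁻¹ := by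
    funext y; rw [div_eq_mul_inv]
  rw [h1, pd_mul (differentiableAt_coord j) (differentiableAt_radial hx hF), pd_radial hx hF,
    pd_coord]
  unfold dl
  field_simp
  ring

theorem sum_nu_sq (hx : x ≠ 0) : ∑ i, (x i / ‖x‖) * (x i / ‖x‖) = 1 := by
  have hn := norm_pos_iff.2 hx
  have := norm_sq_eq x
  rw [Fin.sum_univ_three]
  field_simp
  linarith

include h0 hu1 hx in
theorem pd_gr (i j : Fin 3) : pd i (gr u1 j) x
    = u2 ‖x‖ * (x i / ‖x‖) * (x j / ‖x‖)
      + u1 ‖x‖ * ((dl i j - (x i / ‖x‖) * (x j / ‖x‖)) / ‖x‖) := by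
  have hx0 := ne_zero_of_lt h0 hx
  have h1 : DifferentiableAt ℝ (fun y : E3 => u1 ‖y‖) x := differentiableAt_radial hx0 (hu1 _ hx)
  have h2 := differentiableAt_nu hx0 j
  have h3 : pd i (gr u1 j) x = pd i (fun y => u1 ‖y‖ * (y j / ‖y‖)) x := rfl
  rw [h3, pd_mul h1 h2, pd_radial hx0 (hu1 _ hx), pd_nu hx0]
  ring

include h0 hu hu1 hg hx in
theorem pd_christoffel (m k i j : Fin 3) :
    pd m (christoffel g k i j) x = dl k i * pd m (gr u1 j) x + dl k j * pd m (gr u1 i) x
      - dl i j * pd m (gr u1 k) x := by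
  have h1 : christoffel g k i j =ᶠ[𝓝 x]
      fun y => dl k i * gr u1 j y + dl k j * gr u1 i y - dl i j * gr u1 k y := by
    filter_upwards [eventually_lt_norm hx] with y hy
    exact christoffel_eq h0 hu hg hy k i j
  have d := fun i => differentiableAt_gr h0 hu1 hx i
  have d1 : DifferentiableAt ℝ (fun y => dl k i * gr u1 j y + dl k j * gr u1 i y) x :=
    ((d j).const_mul _).add ((d i).const_mul _)
  rw [pd_congr h1, pd_sub d1 ((d k).const_mul _),
    pd_add ((d j).const_mul _) ((d i).const_mul _), pd_const_mul _ (d j), pd_const_mul _ (d i),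
    pd_const_mul _ (d k)]

include h0 hu hu1 hg hx in
theorem scalarCurvature_eq' : scalarCurvature g x = Real.exp (-(2 * u ‖x‖)) *
    (-4 * (∑ i, pd i (gr u1 i) x) - 2 * ∑ i, gr u1 i x ^ 2) := by
  unfold scalarCurvature ricci
  simp only [pd_christoffel h0 hu hu1 hg hx, christoffel_eq h0 hu hg hx, metric_inv_apply hg hx,
    Fin.sum_univ_three]
  simp only [dl, Fin.isValue, ↓reduceIte, Fin.reduceEq, zero_ne_one, one_ne_zero]
  ring

include h0 hu hu1 hg hx in
theorem scalarCurvature_eq : scalarCurvature g x = -Real.exp (-(2 * u ‖x‖)) *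
    (4 * u2 ‖x‖ + 8 * u1 ‖x‖ / ‖x‖ + 2 * u1 ‖x‖ ^ 2) := by
  have hn := lt_of_le_of_lt h0 hx
  rw [scalarCurvature_eq' h0 hu hu1 hg hx]
  simp only [pd_gr h0 hu1 hx, Fin.sum_univ_three]
  simp only [dl, Fin.isValue, ↓reduceIte, gr]
  have h1 := norm_sq_eq x
  field_simp
  have h2 : x 0 ^ 2 = ‖x‖ ^ 2 - x 1 ^ 2 - x 2 ^ 2 := by linarith
  rw [h2]
  ring

include hg hx in
theorem traceWith_eq : traceWith g h x = Real.exp (-(2 * u ‖x‖)) * ∑ i, h x i i := by
  unfold traceWith
  simp only [metric_inv_apply hg hx, Fin.sum_univ_three]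
  simp only [dl, Fin.isValue, ↓reduceIte, Fin.reduceEq, zero_ne_one, one_ne_zero]
  ring

include hg hx in
theorem normSqWith_eq : normSqWith g h x =
    Real.exp (-(2 * u ‖x‖)) ^ 2 * ∑ i, ∑ j, h x i j ^ 2 := by
  unfold normSqWith
  simp only [metric_inv_apply hg hx, Fin.sum_univ_three]
  simp only [dl, Fin.isValue, ↓reduceIte, Fin.reduceEq, zero_ne_one, one_ne_zero]
  ring

include hg hx in
theorem tensor_eq (i j : Fin 3) : (h x - traceWith g h x • g x) i j
    = h x i j - (∑ l, h x l l) * dl i j := by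
  rw [Matrix.sub_apply, Matrix.smul_apply, metric_apply hg hx, traceWith_eq hg hx]
  have e : Real.exp (-(2 * u ‖x‖)) * Real.exp (2 * u ‖x‖) = 1 := by
    rw [← Real.exp_add]; simp
  simp only [smul_eq_mul]
  linear_combination (-(∑ l, h x l l) * dl i j) * e

variable (hh : ∀ i j, DifferentiableAt ℝ (fun y => h y i j) x)

include hg hx hh in
theorem pd_tensor (k i j : Fin 3) : pd k (fun y => (h y - traceWith g h y • g y) i j) x
    = pd k (fun y => h y i j) x - (∑ l, pd k (fun y => h y l l) x) * dl i j := by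
  have h1 : (fun y => (h y - traceWith g h y • g y) i j) =ᶠ[𝓝 x]
      fun y => h y i j - (∑ l, h y l l) * dl i j := by
    filter_upwards [eventually_lt_norm hx] with y hy
    exact tensor_eq hg hy i j
  have d1 : DifferentiableAt ℝ (fun y => ∑ l, h y l l) x :=
    DifferentiableAt.fun_sum fun l _ => hh l l
  rw [pd_congr h1, pd_sub (hh i j) (d1.mul_const _), pd_mul_const _ d1,
    pd_sum _ (fun l y => h y l l) fun l _ => hh l l]

include h0 hu hg hx hh in
theorem momentumDensity_eq (hs : (h x).IsSymm) (j : Fin 3) :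
    momentumDensity g h j x = Real.exp (-(2 * u ‖x‖)) *
      ((∑ i, pd i (fun y => h y i j) x) - (∑ l, pd j (fun y => h y l l) x)
        + (∑ l, gr u1 l x * h x l j) + (∑ l, h x l l) * gr u1 j x) := by
  have s01 : h x 1 0 = h x 0 1 := hs.apply 0 1
  have s02 : h x 2 0 = h x 0 2 := hs.apply 0 2
  have s12 : h x 2 1 = h x 1 2 := hs.apply 1 2
  unfold momentumDensity divergence covDeriv
  simp only [pd_tensor hg hx hh, christoffel_eq h0 hu hg hx, metric_inv_apply hg hx,
    tensor_eq hg hx, Fin.sum_univ_three]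
  fin_cases j
  all_goals
    simp only [dl, Fin.isValue, ↓reduceIte, Fin.reduceEq, zero_ne_one, one_ne_zero,
      Fin.zero_eta, Fin.mk_one, Fin.reduceFinMk]
    rw [s01, s02, s12]
    ring

include h0 hx hh in
theorem differentiableAt_radialPart : DifferentiableAt ℝ (radialPart h) x := by
  have hx0 := ne_zero_of_lt h0 hx
  have : radialPart h = fun y => ∑ i, ∑ j, h y i j * (y i / ‖y‖) * (y j / ‖y‖) := rfl
  rw [this]
  exact DifferentiableAt.fun_sum fun i _ => DifferentiableAt.fun_sum fun j _ =>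
    ((hh i j).mul (differentiableAt_nu hx0 i)).mul (differentiableAt_nu hx0 j)

include h0 hx hh in
theorem differentiableAt_tangentialTrace : DifferentiableAt ℝ (tangentialTrace h) x := by
  have : tangentialTrace h = fun y => (∑ i, h y i i) - radialPart h y := rfl
  rw [this]
  exact (DifferentiableAt.fun_sum fun i _ => hh i i).sub (differentiableAt_radialPart h0 hx hh)

include h0 hx hh in
theorem pd_tangentialTrace (k : Fin 3) : pd k (tangentialTrace h) x =
    (∑ l, pd k (fun y => h y l l) x) - pd k (radialPart h) x := by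
  have : tangentialTrace h = fun y => (∑ i, h y i i) - radialPart h y := rfl
  rw [this, pd_sub (DifferentiableAt.fun_sum fun i _ => hh i i) (differentiableAt_radialPart h0 hx hh),
    pd_sum _ (fun l y => h y l l) fun l _ => hh l l]

include h0 hx hh in
theorem fluxDivergence_eq : fluxDivergence h x =
    tangentialTrace h x / ‖x‖ + (∑ i, ∑ j, (x j / ‖x‖) * pd i (fun y => h y i j) x)
      - 2 * radialPart h x / ‖x‖ - ∑ i, (x i / ‖x‖) * pd i (radialPart h) x := by
  have hx0 := ne_zero_of_lt h0 hx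
  have h1 : ∀ i, pd i (tangentialFlux h i) x =
      (∑ j, (h x i j * ((dl i j - (x i / ‖x‖) * (x j / ‖x‖)) / ‖x‖)
        + (x j / ‖x‖) * pd i (fun y => h y i j) x))
      - (radialPart h x * ((dl i i - (x i / ‖x‖) * (x i / ‖x‖)) / ‖x‖)
        + (x i / ‖x‖) * pd i (radialPart h) x) := by
    intro i
    have e : tangentialFlux h i =
      fun y => (∑ j, h y i j * (y j / ‖y‖)) - radialPart h y * (y i / ‖y‖) := rfl
    have d1 : ∀ j, DifferentiableAt ℝ (fun y => h y i j * (y j / ‖y‖)) x := fun j =>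
      (hh i j).mul (differentiableAt_nu hx0 j)
    have d2 := differentiableAt_radialPart h0 hx hh
    have d3 : DifferentiableAt ℝ (fun y => radialPart h y * (y i / ‖y‖)) x :=
      d2.mul (differentiableAt_nu hx0 i)
    rw [e, pd_sub (DifferentiableAt.fun_sum fun j _ => d1 j) d3,
      pd_sum _ (fun j y => h y i j * (y j / ‖y‖)) fun j _ => d1 j,
      pd_mul d2 (differentiableAt_nu hx0 i), pd_nu hx0]
    congr 1
    refine Finset.sum_congr rfl fun j _ => ?_
    rw [pd_mul (hh i j) (differentiableAt_nu hx0 j), pd_nu hx0]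
  unfold fluxDivergence
  simp only [h1]
  have h2 := sum_nu_sq hx0
  have hη : radialPart h x = ∑ i, ∑ j, h x i j * (x i / ‖x‖) * (x j / ‖x‖) := rfl
  have hκ : tangentialTrace h x = (∑ i, h x i i) - radialPart h x := rfl
  rw [hκ]
  have e1 : ∑ i, ∑ j, h x i j * ((dl i j - (x i / ‖x‖) * (x j / ‖x‖)) / ‖x‖)
      = ((∑ i, h x i i) - radialPart h x) / ‖x‖ := by
    rw [hη]
    simp only [Fin.sum_univ_three, dl, Fin.isValue, ↓reduceIte, Fin.reduceEq, zero_ne_one,
      one_ne_zero]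
    ring
  have e2 : ∑ i, radialPart h x * ((dl i i - (x i / ‖x‖) * (x i / ‖x‖)) / ‖x‖)
      = 2 * radialPart h x / ‖x‖ := by
    have : ∀ i, radialPart h x * ((dl i i - (x i / ‖x‖) * (x i / ‖x‖)) / ‖x‖)
        = radialPart h x / ‖x‖ * (dl i i - (x i / ‖x‖) * (x i / ‖x‖)) := fun i => by ring
    simp only [this]
    rw [← Finset.mul_sum, Finset.sum_sub_distrib, h2]
    simp only [Fin.sum_univ_three, dl, ↓reduceIte]
    ring
  rw [Finset.sum_sub_distrib, Finset.sum_add_distrib, e2]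
  have e3 : ∑ i, ∑ j, (h x i j * ((dl i j - (x i / ‖x‖) * (x j / ‖x‖)) / ‖x‖)
        + (x j / ‖x‖) * pd i (fun y => h y i j) x)
      = ((∑ i, h x i i) - radialPart h x) / ‖x‖
        + ∑ i, ∑ j, (x j / ‖x‖) * pd i (fun y => h y i j) x := by
    simp only [Finset.sum_add_distrib]
    rw [e1]
  rw [e3]
  ring

/-- Radial derivative. -/
noncomputable def rd (f : E3 → ℝ) (x : E3) : ℝ := ∑ i, (x i / ‖x‖) * pd i f x

include h0 hu hg hx hh in
theorem radial_momentum (hs : (h x).IsSymm) :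
    ∑ j, (x j / ‖x‖) * momentumDensity g h j x = Real.exp (-(2 * u ‖x‖)) *
      (fluxDivergence h x + (2 * radialPart h x - tangentialTrace h x) / ‖x‖
        - rd (tangentialTrace h) x
        + u1 ‖x‖ * (2 * radialPart h x + tangentialTrace h x)) := by
  have hx0 := ne_zero_of_lt h0 hx
  rw [fluxDivergence_eq h0 hx hh]
  unfold rd
  simp only [momentumDensity_eq h0 hu hg hx hh hs, pd_tangentialTrace h0 hx hh]
  have hκ : ∑ i, h x i i = tangentialTrace h x + radialPart h x := by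
    unfold tangentialTrace; ring
  rw [hκ]
  have hη : radialPart h x = ∑ i, ∑ j, h x i j * (x i / ‖x‖) * (x j / ‖x‖) := rfl
  have h2 := sum_nu_sq hx0
  simp only [gr]
  simp only [Fin.sum_univ_three] at hη h2 ⊢
  linear_combination (-Real.exp (-(2 * u ‖x‖)) * u1 ‖x‖) * hη
    + (Real.exp (-(2 * u ‖x‖)) * u1 ‖x‖ * (tangentialTrace h x + radialPart h x)) * h2

theorem abs_radial_le (hx : x ≠ 0) (J : Fin 3 → ℝ) :
    |∑ j, (x j / ‖x‖) * J j| ≤ Real.sqrt (∑ i, J i ^ 2) := by
  apply Real.abs_le_sqrt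
  have := Finset.sum_mul_sq_le_sq_mul_sq Finset.univ (fun j => x j / ‖x‖) J
  have h2 := sum_nu_sq hx
  have h3 : ∑ i, (x i / ‖x‖) ^ 2 = 1 := by rw [← h2]; exact Finset.sum_congr rfl fun i _ => sq _
  rw [h3, one_mul] at this
  exact this

include h0 hg hx in
theorem sqrt_momentum_ge : Real.exp (-u ‖x‖) * |∑ j, (x j / ‖x‖) * momentumDensity g h j x| ≤
    Real.sqrt (∑ i, ∑ j, (g x)⁻¹ i j * momentumDensity g h i x * momentumDensity g h j x) := by
  have e : ∑ i, ∑ j, (g x)⁻¹ i j * momentumDensity g h i x * momentumDensity g h j x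
      = Real.exp (-u ‖x‖) ^ 2 * ∑ i, momentumDensity g h i x ^ 2 := by
    simp only [metric_inv_apply hg hx, Fin.sum_univ_three]
    simp only [dl, Fin.isValue, ↓reduceIte, Fin.reduceEq, zero_ne_one, one_ne_zero]
    have : Real.exp (-(2 * u ‖x‖)) = Real.exp (-u ‖x‖) ^ 2 := by
      rw [← Real.exp_nat_mul]; push_cast; ring_nf
    rw [this]
    ring
  rw [e, Real.sqrt_mul (by positivity), Real.sqrt_sq (Real.exp_pos _).le]
  exact mul_le_mul_of_nonneg_left (abs_radial_le (ne_zero_of_lt h0 hx) _) (Real.exp_pos _).le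

/-- Lower bound for the squared norm of a symmetric matrix. -/
theorem normSq_ge (hx : x ≠ 0) :
    radialPart h x ^ 2 + tangentialTrace h x ^ 2 / 2 ≤ ∑ i, ∑ j, h x i j ^ 2 := by
  have h2 := sum_nu_sq hx
  have hη : radialPart h x = ∑ i, ∑ j, h x i j * (x i / ‖x‖) * (x j / ‖x‖) := rfl
  have hκ : ∑ i, h x i i = tangentialTrace h x + radialPart h x := by
    unfold tangentialTrace; ring
  have id : ∀ A B : ℝ, ∑ i, ∑ j, (h x i j - A * ((x i / ‖x‖) * (x j / ‖x‖)) - B * dl i j) ^ 2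
      = (∑ i, ∑ j, h x i j ^ 2) - 2 * A * (∑ i, ∑ j, h x i j * (x i / ‖x‖) * (x j / ‖x‖))
        - 2 * B * (∑ i, h x i i) + A ^ 2 * (∑ i, (x i / ‖x‖) * (x i / ‖x‖)) ^ 2
        + 2 * A * B * (∑ i, (x i / ‖x‖) * (x i / ‖x‖)) + 3 * B ^ 2 := by
    intro A B
    simp only [Fin.sum_univ_three, dl, Fin.isValue, ↓reduceIte, Fin.reduceEq, zero_ne_one,
      one_ne_zero]
    ring
  have h3 : 0 ≤ ∑ i, ∑ j, (h x i j
      - (radialPart h x - tangentialTrace h x / 2) * ((x i / ‖x‖) * (x j / ‖x‖))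
      - (tangentialTrace h x / 2) * dl i j) ^ 2 := by positivity
  rw [id, ← hη, hκ, h2] at h3
  nlinarith

theorem shearSq_nonneg (hx : x ≠ 0) : 0 ≤ shearSq h x := by
  unfold shearSq
  have := normSq_ge (h := h) hx
  linarith

include hg hx in
theorem energyDensity_eq : energyDensity g h x = scalarCurvature g x / 2
    + Real.exp (-(2 * u ‖x‖)) ^ 2 * (radialPart h x * tangentialTrace h x
      + tangentialTrace h x ^ 2 / 4 - shearSq h x / 2) := by
  unfold energyDensity shearSq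
  rw [normSqWith_eq hg hx, traceWith_eq hg hx]
  have hκ : ∑ i, h x i i = tangentialTrace h x + radialPart h x := by
    unfold tangentialTrace; ring
  rw [hκ]
  ring

include h0 hu hu1 hg hx hh in
/-- The radial component of the dominant energy condition. -/
theorem dec_radial (hs : (h x).IsSymm)
    (hdec : Real.sqrt (∑ i, ∑ j, (g x)⁻¹ i j * momentumDensity g h i x * momentumDensity g h j x)
      ≤ energyDensity g h x) :
    Real.exp (-(3 * u ‖x‖)) * |rd (tangentialTrace h) x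
        - u1 ‖x‖ * (2 * radialPart h x + tangentialTrace h x)
        - (2 * radialPart h x - tangentialTrace h x) / ‖x‖ - fluxDivergence h x| ≤
      -Real.exp (-(2 * u ‖x‖)) * (2 * u2 ‖x‖ + 4 * u1 ‖x‖ / ‖x‖ + u1 ‖x‖ ^ 2)
      + Real.exp (-(4 * u ‖x‖)) * (radialPart h x * tangentialTrace h x
        + tangentialTrace h x ^ 2 / 4 - shearSq h x / 2) := by
  have h1 := sqrt_momentum_ge (h := h) h0 hg hx
  have h2 := energyDensity_eq (h := h) hg hx
  rw [radial_momentum h0 hu hg hx hh hs, abs_mul, abs_of_pos (Real.exp_pos _)] at h1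
  rw [scalarCurvature_eq h0 hu hu1 hg hx] at h2
  have e3 : Real.exp (-(3 * u ‖x‖)) = Real.exp (-u ‖x‖) * Real.exp (-(2 * u ‖x‖)) := by
    rw [← Real.exp_add]; ring_nf
  have e4 : Real.exp (-(4 * u ‖x‖)) = Real.exp (-(2 * u ‖x‖)) ^ 2 := by
    rw [← Real.exp_nat_mul]; push_cast; ring_nf
  rw [e3, e4, mul_assoc]
  have e5 : |rd (tangentialTrace h) x
        - u1 ‖x‖ * (2 * radialPart h x + tangentialTrace h x)
        - (2 * radialPart h x - tangentialTrace h x) / ‖x‖ - fluxDivergence h x|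
      = |fluxDivergence h x + (2 * radialPart h x - tangentialTrace h x) / ‖x‖
        - rd (tangentialTrace h) x
        + u1 ‖x‖ * (2 * radialPart h x + tangentialTrace h x)| := by
    rw [← abs_neg]; congr 1; ring
  rw [e5]
  refine le_trans h1 (le_trans hdec (h2.le.trans (le_of_eq ?_)))
  ring

end

end Pool.Agent.PenroseSph


end
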