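import Mathlib
import Pool.Agent.PFlow.Defs

/-! Parts: PFlow.PDefs, PFlow.StmtsP, PFlow.P.Base, PFlow.P.API1, PFlow.P.CCpt, PFlow.P.CGlo, PFlow.P.Cpt, PFlow.P.DQ -/

section

/-!
# Block P (existence of the function `u`): definitions

Everything is on the whole space `E3`. `H1 f G`: the function `f` belongs to `H¹(ℝ³)` and has the
gradient `G` (closure of the test functions). `H2 u G M`: `u` belongs to `H²(ℝ³)`, `M i` is the
gradient of the component `G i`.
-/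

open MeasureTheory Filter Topology Set
open scoped ContDiff RealInnerProductSpace

namespace Pool.Agent.PFlow.PB

open Pool.Agent.PenroseSph Pool.Agent.PFlow

/-- The unit vector in the direction `i`. -/
noncomputable def ee (i : Fin 3) : E3 := EuclideanSpace.single i 1

/-- The gradient of a differentiable function, as a vector of `E3`. -/
noncomputable def gr (φ : E3 → ℝ) (x : E3) : E3 := WithLp.toLp 2 (fun i => pd i φ x)

/-- The rows of the matrix of second derivatives of a function: `hs f i x = ∇(∂_i f)(x)`. -/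
noncomputable def hs (f : E3 → ℝ) (i : Fin 3) (x : E3) : E3 := gr (pd i f) x

/-- The square of the `L²` norm of a function. -/
noncomputable def sq (f : E3 → ℝ) : ℝ := ∫ x, f x ^ 2

/-- The square of the `L²` norm of a vector field. -/
noncomputable def sqv (G : E3 → E3) : ℝ := ∫ x, ‖G x‖ ^ 2

/-- Test functions. -/
structure Test (φ : E3 → ℝ) : Prop where
  smooth : ContDiff ℝ ∞ φ
  cpt : HasCompactSupport φ

/-- `G` is the weak gradient of `f`. -/
def WGrad (f : E3 → ℝ) (G : E3 → E3) : Prop :=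
  ∀ φ : E3 → ℝ, Test φ → ∀ i, ∫ x, f x * pd i φ x = - ∫ x, G x i * φ x

/-- `f ∈ H¹(ℝ³)` with the gradient `G`. -/
structure H1 (f : E3 → ℝ) (G : E3 → E3) : Prop where
  memf : MemLp f 2
  memG : MemLp G 2
  approx : ∃ φ : ℕ → E3 → ℝ, (∀ n, Test (φ n)) ∧
    Tendsto (fun n => sq (fun x => φ n x - f x)) atTop (𝓝 0) ∧
    Tendsto (fun n => sqv (fun x => gr (φ n) x - G x)) atTop (𝓝 0)

/-- `u ∈ H²(ℝ³)` with the gradient `G`, and `M i` is the gradient of `G i`. -/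
structure H2 (u : E3 → ℝ) (G : E3 → E3) (M : Fin 3 → E3 → E3) : Prop where
  h1 : H1 u G
  h2 : ∀ i, H1 (fun x => G x i) (M i)

/-- The divergence of a vector field. -/
noncomputable def dv (X : E3 → E3) (x : E3) : ℝ := ∑ i, (fderiv ℝ X x (ee i)) i

/-- The structure conditions on the coefficients of the equation
`div A(x, ∇u) + B(x, ∇u) = Θ u - θ`. -/
structure PCoef (A : E3 → E3 → E3) (B : E3 → E3 → ℝ) (c L r : ℝ) : Prop where
  c_pos : 0 < c
  c_le : c ≤ L
  r_pos : 0 < r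
  smoothA : ContDiff ℝ ∞ (fun z : E3 × E3 => A z.1 z.2)
  smoothB : ContDiff ℝ ∞ (fun z : E3 × E3 => B z.1 z.2)
  A_zero : ∀ x, A x 0 = 0
  B_zero : ∀ x, B x 0 = 0
  mono : ∀ x ξ η, c * ‖ξ - η‖ ^ 2 ≤ ⟪A x ξ - A x η, ξ - η⟫
  lipA : ∀ x ξ η, ‖A x ξ - A x η‖ ≤ L * ‖ξ - η‖
  lipB : ∀ x ξ η, |B x ξ - B x η| ≤ L * ‖ξ - η‖
  lipx : ∀ x y ξ, ‖A x ξ - A y ξ‖ ≤ L * ‖x - y‖ * ‖ξ‖
  suppB : ∀ x ξ, r ≤ ‖x‖ → B x ξ = 0

/-- The conditions on the penalty `Θ u - θ`: `0 ≤ θ ≤ Θ ≤ T`, and `θ = 0`, `Θ ≥ t₀ > 0` outside a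
ball. -/
structure Pen (Θ θ : E3 → ℝ) (T t₀ r : ℝ) : Prop where
  contΘ : Continuous Θ
  contθ : Continuous θ
  nonneg : ∀ x, 0 ≤ θ x
  le : ∀ x, θ x ≤ Θ x
  bdd : ∀ x, Θ x ≤ T
  t₀_pos : 0 < t₀
  outΘ : ∀ x, r ≤ ‖x‖ → t₀ ≤ Θ x
  outθ : ∀ x, r ≤ ‖x‖ → θ x = 0

/-- `div A(x, ∇f) ` at `x` for a function with gradient `ξ` and rows of second derivatives `M i`. -/
noncomputable def opA (A : E3 → E3 → E3) (x ξ : E3) (M : Fin 3 → E3) : ℝ :=
  ∑ i, (fderiv ℝ (fun y => A y ξ) x (ee i)) i + ∑ i, (fderiv ℝ (A x) ξ (M i)) i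

/-- The weak form of `div A(x, ∇u) + B(x, ∇u) = Θ u - θ`. -/
def WSol (A : E3 → E3 → E3) (B : E3 → E3 → ℝ) (Θ θ : E3 → ℝ) (u : E3 → ℝ) (G : E3 → E3) : Prop :=
  H1 u G ∧ ∀ φ Φ, H1 φ Φ →
    ∫ x, ⟪A x (G x), Φ x⟫ = ∫ x, (B x (G x) - Θ x * u x + θ x) * φ x

/-- The weak form of `div A(x, ∇u) + B(x, ∇u) = Θ u - θ + m (u - v)`. -/
def StepEq (A : E3 → E3 → E3) (B : E3 → E3 → ℝ) (Θ θ : E3 → ℝ) (m : ℝ) (v u : E3 → ℝ)
    (G : E3 → E3) : Prop :=
  H1 u G ∧ ∀ φ Φ, H1 φ Φ →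
    ∫ x, ⟪A x (G x), Φ x⟫
      = ∫ x, (B x (G x) - Θ x * u x + θ x - m * (u x - v x)) * φ x

/-- A sequence of mollifications. -/
structure Mollifier (J : ℕ → (E3 → ℝ) → E3 → ℝ) : Prop where
  smooth : ∀ n f, MemLp f 2 → ContDiff ℝ ∞ (J n f)
  mem : ∀ n f, MemLp f 2 → MemLp (J n f) 2
  contr : ∀ n f, MemLp f 2 → sq (J n f) ≤ sq f
  tend : ∀ f, MemLp f 2 → Tendsto (fun n => sq (fun x => J n f x - f x)) atTop (𝓝 0)
  grad : ∀ f G, MemLp f 2 → MemLp G 2 → WGrad f G →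
    ∀ n x i, gr (J n f) x i = J n (fun y => G y i) x
  cpt : ∀ n f, MemLp f 2 → HasCompactSupport f → HasCompactSupport (J n f)
  unif : ∀ f, MemLp f 2 → Continuous f → ∀ K : Set E3, IsCompact K →
    TendstoUniformlyOn (fun n => J n f) f atTop K

end Pool.Agent.PFlow.PB


end

section

/-!
# Block P: statements of the modules (general part)

Proofs in `PDE.md`. Every statement is a `Prop`; a module proves one of them and takes the ones it
needs as hypotheses.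
-/

open MeasureTheory Filter Topology Set
open scoped ContDiff RealInnerProductSpace

namespace Pool.Agent.PFlow.PB

open Pool.Agent.PenroseSph Pool.Agent.PFlow

/-! ### T: the space `H¹(ℝ³)` -/

/-- T1 (API1): algebra and closedness. -/
structure API1 : Prop where
  gr_apply : ∀ (φ : E3 → ℝ) x i, gr φ x i = pd i φ x
  gr_inner : ∀ (φ : E3 → ℝ) x v, ⟪gr φ x, v⟫ = fderiv ℝ φ x v
  gr_cont : ∀ φ : E3 → ℝ, ContDiff ℝ 1 φ → Continuous (gr φ)
  ofTest : ∀ φ, Test φ → H1 φ (gr φ)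
  congr : ∀ f f' G G', H1 f G → f =ᵐ[volume] f' → G =ᵐ[volume] G' → H1 f' G'
  add : ∀ f F g G, H1 f F → H1 g G → H1 (fun x => f x + g x) (fun x => F x + G x)
  sub : ∀ f F g G, H1 f F → H1 g G → H1 (fun x => f x - g x) (fun x => F x - G x)
  smul : ∀ (a : ℝ) f F, H1 f F → H1 (fun x => a * f x) (fun x => a • F x)
  wgrad : ∀ f G, H1 f G → WGrad f G
  unique : ∀ f G G', H1 f G → H1 f G' → G =ᵐ[volume] G'
  closed : ∀ f G (fn : ℕ → E3 → ℝ) (Gn : ℕ → E3 → E3), (∀ n, H1 (fn n) (Gn n)) →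
    MemLp f 2 → MemLp G 2 → Tendsto (fun n => sq (fun x => fn n x - f x)) atTop (𝓝 0) →
    Tendsto (fun n => sqv (fun x => Gn n x - G x)) atTop (𝓝 0) → H1 f G
  /-- completeness of `L²` for sequences that are Cauchy in the sense of `sq`, `sqv` -/
  complete : ∀ fn : ℕ → E3 → ℝ, (∀ n, MemLp (fn n) 2) →
    (∀ ε > 0, ∃ N, ∀ m ≥ N, ∀ n ≥ N, sq (fun x => fn m x - fn n x) < ε) →
    ∃ f, MemLp f 2 ∧ Tendsto (fun n => sq (fun x => fn n x - f x)) atTop (𝓝 0)
  completev : ∀ Gn : ℕ → E3 → E3, (∀ n, MemLp (Gn n) 2) →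
    (∀ ε > 0, ∃ N, ∀ m ≥ N, ∀ n ≥ N, sqv (fun x => Gn m x - Gn n x) < ε) →
    ∃ G, MemLp G 2 ∧ Tendsto (fun n => sqv (fun x => Gn n x - G x)) atTop (𝓝 0)

/-- T2 (API2): products, translations, integration by parts. -/
structure API2 : Prop where
  ofC1 : ∀ φ : E3 → ℝ, ContDiff ℝ 1 φ → HasCompactSupport φ → H1 φ (gr φ)
  mul : ∀ f G (ζ : E3 → ℝ) (C : ℝ), H1 f G → ContDiff ℝ 1 ζ → (∀ x, |ζ x| ≤ C) →
    (∀ x, ‖gr ζ x‖ ≤ C) → H1 (fun x => ζ x * f x) (fun x => ζ x • G x + f x • gr ζ x)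
  shift : ∀ f G, H1 f G → ∀ h : E3, H1 (fun x => f (x + h)) (fun x => G (x + h))
  trans : ∀ f G, H1 f G → ∀ h : E3, sq (fun x => f (x + h) - f x) ≤ ‖h‖ ^ 2 * sqv G
  ibp : ∀ f F g G, H1 f F → H1 g G → ∀ i, ∫ x, f x * G x i = - ∫ x, F x i * g x
  ibpv : ∀ (X : E3 → E3), ContDiff ℝ 1 X → HasCompactSupport X → ∀ φ Φ, H1 φ Φ →
    ∫ x, ⟪X x, Φ x⟫ = - ∫ x, dv X x * φ x

/-- T3 (MOLL): mollifications exist. -/
def MOLL : Prop := ∃ J, Mollifier J

/-- T4 (WH): a function with a weak gradient in `L²` belongs to `H¹`. -/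
def WH : Prop := ∀ f G, MemLp f 2 → MemLp G 2 → WGrad f G → H1 f G

/-- T5 (DENS): test functions are dense in `H²`; if `u` is continuous they converge uniformly on
compact sets. -/
def DENS : Prop := ∀ u G M, H2 u G M → ∃ φ : ℕ → E3 → ℝ, (∀ n, Test (φ n)) ∧
  Tendsto (fun n => sq (fun x => φ n x - u x)) atTop (𝓝 0) ∧
  Tendsto (fun n => sqv (fun x => gr (φ n) x - G x)) atTop (𝓝 0) ∧
  (∀ i, Tendsto (fun n => sqv (fun x => hs (φ n) i x - M i x)) atTop (𝓝 0)) ∧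
  (Continuous u → ∀ K : Set E3, IsCompact K → TendstoUniformlyOn φ u atTop K)

/-- T6 (CHAIN): the chain rule. -/
structure CHAIN : Prop where
  lip : ∀ f G (Ψ : ℝ → ℝ) (C : ℝ), H1 f G → ContDiff ℝ 1 Ψ → Ψ 0 = 0 → (∀ t, |deriv Ψ t| ≤ C) →
    H1 (fun x => Ψ (f x)) (fun x => deriv Ψ (f x) • G x)
  bdd : ∀ f G (Ψ : ℝ → ℝ) (T : ℝ), H1 f G → (∀ᵐ x, |f x| ≤ T) → ContDiff ℝ 1 Ψ → Ψ 0 = 0 →
    H1 (fun x => Ψ (f x)) (fun x => deriv Ψ (f x) • G x)
  zero : ∀ f G, H1 f G → ∀ᵐ x, f x = 0 → G x = 0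

/-- T7 (SYMM): the second derivatives are symmetric, and they vanish where the gradient does. -/
def SYMM : Prop := ∀ u G M, H2 u G M →
  (∀ᵐ x, ∀ i j, M i x j = M j x i) ∧ (∀ᵐ x, G x = 0 → ∀ i, M i x = 0)

/-! ### E: existence for the regularised equation -/

/-- E1 (ZAR): strongly monotone Lipschitz operators are onto. -/
def ZAR : Prop := ∀ (H : Type) [NormedAddCommGroup H] [InnerProductSpace ℝ H] [CompleteSpace H]
  (T : H → H) (c L : ℝ), 0 < c → (∀ x y, c * ‖x - y‖ ^ 2 ≤ ⟪T x - T y, x - y⟫) →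
  (∀ x y, ‖T x - T y‖ ≤ L * ‖x - y‖) → ∀ b, ∃ x, T x = b

/-- E2 (STEP): the problem with the additional term `m (u - v)`. -/
def STEP : Prop := ∀ A B c L r Θ θ T t₀, PCoef A B c L r → Pen Θ θ T t₀ r →
  ∀ m, L ^ 2 / c + 1 ≤ m → ∀ v, MemLp v 2 → ∃ u G, StepEq A B Θ θ m v u G

/-- E3 (ORDER): comparison for the problem with the additional term. -/
structure ORDER : Prop where
  mono : ∀ A B c L r Θ θ T t₀, PCoef A B c L r → Pen Θ θ T t₀ r → ∀ m, L ^ 2 / c + 1 ≤ m →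
    ∀ v₁ v₂ u₁ u₂ G₁ G₂, MemLp v₁ 2 → MemLp v₂ 2 → StepEq A B Θ θ m v₁ u₁ G₁ →
    StepEq A B Θ θ m v₂ u₂ G₂ → (∀ᵐ x, v₁ x ≤ v₂ x) → ∀ᵐ x, u₁ x ≤ u₂ x
  nonneg : ∀ A B c L r Θ θ T t₀, PCoef A B c L r → Pen Θ θ T t₀ r → ∀ m, L ^ 2 / c + 1 ≤ m →
    ∀ v u G, MemLp v 2 → StepEq A B Θ θ m v u G → (∀ᵐ x, 0 ≤ v x) → ∀ᵐ x, 0 ≤ u x
  le_one : ∀ A B c L r Θ θ T t₀, PCoef A B c L r → Pen Θ θ T t₀ r → ∀ m, L ^ 2 / c + 1 ≤ m →
    ∀ v u G, MemLp v 2 → StepEq A B Θ θ m v u G → (∀ᵐ x, v x ≤ 1) → ∀ᵐ x, u x ≤ 1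

/-- E4 (LIPS): the solution depends on `v` in a Lipschitz way. -/
def LIPS : Prop := ∀ A B c L r Θ θ T t₀, PCoef A B c L r → Pen Θ θ T t₀ r →
  ∀ m, L ^ 2 / c + 1 ≤ m → ∃ C, ∀ v₁ v₂ u₁ u₂ G₁ G₂, MemLp v₁ 2 → MemLp v₂ 2 →
    StepEq A B Θ θ m v₁ u₁ G₁ → StepEq A B Θ θ m v₂ u₂ G₂ →
    sq (fun x => u₁ x - u₂ x) + sqv (fun x => G₁ x - G₂ x) ≤ C * sq (fun x => v₁ x - v₂ x)

/-- E5 (BDD): an `L²` bound along increasing sequences. -/
def BDD : Prop := ∀ A B c L r Θ θ T t₀, PCoef A B c L r → Pen Θ θ T t₀ r →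
  ∃ C, ∀ m, 0 ≤ m → ∀ v u G, MemLp v 2 → StepEq A B Θ θ m v u G → (∀ᵐ x, v x ≤ u x) →
    (∀ᵐ x, 0 ≤ u x) → (∀ᵐ x, u x ≤ 1) → sq u ≤ C

/-- E6 (EXI): existence for the regularised equation. -/
def EXI : Prop := ∀ A B c L r Θ θ T t₀, PCoef A B c L r → Pen Θ θ T t₀ r →
  ∃ u G, WSol A B Θ θ u G ∧ ∀ᵐ x, 0 ≤ u x ∧ u x ≤ 1

/-! ### R: second derivatives -/

/-- R1 (DQ): difference quotients. -/
def DQ : Prop := ∀ A B c L r, PCoef A B c L r → ∀ u G f, H1 u G → MemLp f 2 →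
  (∀ φ Φ, H1 φ Φ → ∫ x, ⟪A x (G x), Φ x⟫ = ∫ x, f x * φ x) →
  ∀ h : E3, sqv (fun x => G (x + h) - G x) ≤ (2 * L ^ 2 * sqv G + 2 * sq f) / c ^ 2 * ‖h‖ ^ 2

/-- R2 (DQR): a function with bounded difference quotients belongs to `H¹`. -/
def DQR : Prop := ∀ (f : E3 → ℝ) (C : ℝ), MemLp f 2 →
  (∀ h : E3, sq (fun x => f (x + h) - f x) ≤ C * ‖h‖ ^ 2) → ∃ G, H1 f G

/-- R3 (HTWO): solutions belong to `H²`. -/
def HTWO : Prop := ∀ A B c L r Θ θ T t₀, PCoef A B c L r → Pen Θ θ T t₀ r → ∀ u G,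
  WSol A B Θ θ u G → ∃ M, H2 u G M

/-- R4 (NDIV): the equation in nondivergence form. -/
def NDIV : Prop := ∀ A B c L r Θ θ T t₀, PCoef A B c L r → Pen Θ θ T t₀ r → ∀ u G M,
  WSol A B Θ θ u G → H2 u G M →
  ∀ᵐ x, opA A x (G x) (fun i => M i x) + B x (G x) = Θ x * u x - θ x

/-! ### S: continuity -/

/-- S1 (SUPB): pointwise bound by the `H²` norm, with a scale. -/
def SUPB : Prop := ∃ C > 0, ∀ φ, Test φ → ∀ r > 0, ∀ x,
  |φ x| ≤ C * (r ^ (-(3 / 2) : ℝ) * √(sq φ) + r ^ (1 / 2 : ℝ) * √(∑ i, sqv (hs φ i)))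

/-- S2 (CONT): functions of class `H²` are continuous. -/
def CONT : Prop := ∃ C > 0, ∀ u G M, H2 u G M → ∃ w : E3 → ℝ, w =ᵐ[volume] u ∧
  (∀ x, |w x| ≤ C * √(sq u + sqv G + ∑ i, sqv (M i))) ∧
  (∀ x y, ‖x - y‖ ≤ 1 →
    |w x - w y| ≤ C * √(sq u + sqv G + ∑ i, sqv (M i)) * ‖x - y‖ ^ (1 / 4 : ℝ))

/-! ### U: estimates for the second derivatives -/

/-- U1 (INTP): `‖∇u‖² ≤ √3 ‖u‖ ‖D²u‖`. -/
def INTP : Prop := ∀ u G M, H2 u G M → sqv G ≤ √3 * √(sq u) * √(∑ i, sqv (M i))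

/-- U2 (CID): integration by parts for the quadratic form of second derivatives. The coefficients
`q i k j l` are of class `C¹`, bounded with bounded derivatives. -/
def CID : Prop := ∀ (q : Fin 3 → Fin 3 → Fin 3 → Fin 3 → E3 → ℝ) (C : ℝ),
  (∀ i k j l, ContDiff ℝ 1 (q i k j l)) → (∀ i k j l x, |q i k j l x| ≤ C) →
  (∀ i k j l x, ‖gr (q i k j l) x‖ ≤ C) → ∀ u G M, H2 u G M →
  ∫ x, ∑ i, ∑ k, ∑ j, ∑ l, q i k j l x * (M i x j * M k x l - M i x k * M j x l)
    = - ∫ x, ∑ i, ∑ k, ∑ j, ∑ l,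
      (pd j (q i k j l) x * G x i * M k x l - pd k (q i k j l) x * G x i * M j x l)

/-! ### L: compactness -/

/-- L0 (WEAKL): bounded sequences in `L²` that converge on test functions converge weakly. -/
def WEAKL : Prop := ∀ (h : ℕ → E3 → ℝ) (C : ℝ), (∀ n, MemLp (h n) 2) → (∀ n, sq (h n) ≤ C) →
  (∀ ψ, Test ψ → ∃ l, Tendsto (fun n => ∫ x, ψ x * h n x) atTop (𝓝 l)) →
  ∃ g : E3 → ℝ, MemLp g 2 ∧ sq g ≤ C ∧
    ∀ ψ : E3 → ℝ, MemLp ψ 2 → Tendsto (fun n => ∫ x, ψ x * h n x) atTop (𝓝 (∫ x, ψ x * g x))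

/-- L1a (CPTU): Arzelà-Ascoli. -/
def CPTU : Prop := ∀ (u : ℕ → E3 → ℝ) (C : ℝ), (∀ n x, |u n x| ≤ C) →
  (∀ n x y, ‖x - y‖ ≤ 1 → |u n x - u n y| ≤ C * ‖x - y‖ ^ (1 / 4 : ℝ)) →
  ∃ (s : ℕ → ℕ) (v : E3 → ℝ), StrictMono s ∧ Continuous v ∧
    ∀ K : Set E3, IsCompact K → TendstoUniformlyOn (fun n => u (s n)) v atTop K

/-- L1b (CPTG): the gradients are a Cauchy sequence in `L²_loc`. -/
def CPTG : Prop := ∀ (u : ℕ → E3 → ℝ) (G : ℕ → E3 → E3) (M : ℕ → Fin 3 → E3 → E3) (C : ℝ)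
  (v : E3 → ℝ), (∀ n, H2 (u n) (G n) (M n)) →
  (∀ n, sq (u n) + sqv (G n) + ∑ i, sqv (M n i) ≤ C) →
  (∀ K : Set E3, IsCompact K → TendstoUniformlyOn u v atTop K) →
  ∀ K : Set E3, IsCompact K → ∀ ε > 0, ∃ N, ∀ m ≥ N, ∀ n ≥ N,
    ∫ x in K, ‖G m x - G n x‖ ^ 2 < ε

/-- L1c (CPTA): a Cauchy sequence in `L²_loc`, bounded in `L²`, converges, and a subsequence
converges almost everywhere. -/
def CPTA : Prop := ∀ (G : ℕ → E3 → E3) (C : ℝ), (∀ n, MemLp (G n) 2) → (∀ n, sqv (G n) ≤ C) →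
  (∀ K : Set E3, IsCompact K → ∀ ε > 0, ∃ N, ∀ m ≥ N, ∀ n ≥ N,
    ∫ x in K, ‖G m x - G n x‖ ^ 2 < ε) →
  ∃ (F : E3 → E3) (s : ℕ → ℕ), MemLp F 2 ∧ StrictMono s ∧
    (∀ K : Set E3, IsCompact K → Tendsto (fun n => ∫ x in K, ‖G n x - F x‖ ^ 2) atTop (𝓝 0)) ∧
    ∀ᵐ x, Tendsto (fun n => G (s n) x) atTop (𝓝 (F x))

/-- L1 (CPT): bounded sequences in `H²`. -/
def CPT : Prop := ∀ (u : ℕ → E3 → ℝ) (G : ℕ → E3 → E3) (M : ℕ → Fin 3 → E3 → E3) (C : ℝ),
  (∀ n, H2 (u n) (G n) (M n)) → (∀ n, Continuous (u n)) →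
  (∀ n, sq (u n) + sqv (G n) + ∑ i, sqv (M n i) ≤ C) →
  ∃ (s : ℕ → ℕ) (v : E3 → ℝ) (F : E3 → E3) (N : Fin 3 → E3 → E3), StrictMono s ∧ H2 v F N ∧
    Continuous v ∧
    (∀ K : Set E3, IsCompact K → TendstoUniformlyOn (fun n => u (s n)) v atTop K) ∧
    (∀ K : Set E3, IsCompact K →
      Tendsto (fun n => ∫ x in K, ‖G (s n) x - F x‖ ^ 2) atTop (𝓝 0)) ∧
    (∀ᵐ x, Tendsto (fun n => G (s n) x) atTop (𝓝 (F x))) ∧
    (∀ ψ : E3 → ℝ, MemLp ψ 2 → ∀ i j,
      Tendsto (fun n => ∫ x, ψ x * M (s n) i x j) atTop (𝓝 (∫ x, ψ x * N i x j)))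

/-- L2 (LIMEQ): the equation passes to the limit. `α`, `β` are the coefficients of the equation
in nondivergence form. -/
def LIMEQ : Prop := ∀ (U : Set E3) (G : ℕ → E3 → E3) (M : ℕ → Fin 3 → E3 → E3) (F : E3 → E3)
    (N : Fin 3 → E3 → E3) (α : ℕ → E3 → E3 → Fin 3 → Fin 3 → ℝ) (β : ℕ → E3 → E3 → ℝ)
    (α₀ : E3 → E3 → Fin 3 → Fin 3 → ℝ) (β₀ : E3 → E3 → ℝ) (C : ℝ), IsOpen U →
  (∀ n i, MemLp (M n i) 2) → (∀ i, MemLp (N i) 2) → (∀ n, MemLp (G n) 2) → MemLp F 2 →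
  (∀ n, ∑ i, sqv (M n i) ≤ C) → (∀ n, sqv (G n) ≤ C) →
  (∀ᵐ x, Tendsto (fun n => G n x) atTop (𝓝 (F x))) →
  (∀ ψ : E3 → ℝ, MemLp ψ 2 → ∀ i j,
    Tendsto (fun n => ∫ x, ψ x * M n i x j) atTop (𝓝 (∫ x, ψ x * N i x j))) →
  (∀ n, ∀ᵐ x, x ∈ U → (∑ i, ∑ j, α n x (G n x) i j * M n i x j) + β n x (G n x) = 0) →
  (∀ n i j, Measurable fun z : E3 × E3 => α n z.1 z.2 i j) →
  (∀ n, Measurable fun z : E3 × E3 => β n z.1 z.2) →
  (∀ n x ξ i j, |α n x ξ i j| ≤ C) → (∀ n x ξ, |β n x ξ| ≤ C * ‖ξ‖) →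
  (∀ x ξ (p : ℕ → E3), ξ ≠ 0 → Tendsto p atTop (𝓝 ξ) →
    (∀ i j, Tendsto (fun n => α n x (p n) i j) atTop (𝓝 (α₀ x ξ i j))) ∧
    Tendsto (fun n => β n x (p n)) atTop (𝓝 (β₀ x ξ))) →
  ∀ᵐ x, x ∈ U → F x ≠ 0 → (∑ i, ∑ j, α₀ x (F x) i j * N i x j) + β₀ x (F x) = 0

/-- L3 (LIMW): the weak form passes to the limit. -/
def LIMW : Prop := ∀ (G : ℕ → E3 → E3) (F : E3 → E3) (A : ℕ → E3 → E3 → E3)
    (B : ℕ → E3 → E3 → ℝ) (A₀ : E3 → E3 → E3) (B₀ : E3 → E3 → ℝ) (C : ℝ),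
  (∀ n, MemLp (G n) 2) → MemLp F 2 →
  (∀ K : Set E3, IsCompact K → Tendsto (fun n => ∫ x in K, ‖G n x - F x‖ ^ 2) atTop (𝓝 0)) →
  (∀ᵐ x, Tendsto (fun n => G n x) atTop (𝓝 (F x))) →
  (∀ n, Measurable fun z : E3 × E3 => A n z.1 z.2) →
  (∀ n, Measurable fun z : E3 × E3 => B n z.1 z.2) →
  (∀ n x ξ, ‖A n x ξ‖ ≤ C * (1 + ‖ξ‖)) → (∀ n x ξ, |B n x ξ| ≤ C * (1 + ‖ξ‖)) →
  (∀ x ξ (p : ℕ → E3), Tendsto p atTop (𝓝 ξ) →
    Tendsto (fun n => A n x (p n)) atTop (𝓝 (A₀ x ξ)) ∧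
    Tendsto (fun n => B n x (p n)) atTop (𝓝 (B₀ x ξ))) →
  ∀ χ : E3 → ℝ, ContDiff ℝ 1 χ → HasCompactSupport χ →
  (∀ n, ∫ x, ⟪A n x (G n x), gr χ x⟫ = ∫ x, B n x (G n x) * χ x) →
  ∫ x, ⟪A₀ x (F x), gr χ x⟫ = ∫ x, B₀ x (F x) * χ x

/-! ### C: comparison -/

/-- C1 (CKEY): the main comparison lemma; `s = 1` (lower) or `s = -1` (upper). -/
def CKEY : Prop := ∀ A B c L r Θ θ T t₀, PCoef A B c L r → Pen Θ θ T t₀ r → ∀ u G,
  WSol A B Θ θ u G → ∀ s : ℝ, (s = 1 ∨ s = -1) →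
  ∀ f : E3 → ℝ, ContDiff ℝ 2 f → HasCompactSupport (gr f) →
  ∀ v V, H1 v V → ∀ T' : ℝ, (∀ᵐ x, |v x| ≤ T') →
  (∀ᵐ x, 0 < v x → V x = s • (gr f x - G x)) → ∀ σ > 0,
  (∀ᵐ x, 0 < v x →
    σ ≤ s * (opA A x (gr f x) (fun i => hs f i x) + B x (gr f x) - (Θ x * u x - θ x))) →
  ∀ᵐ x, v x ≤ 0

/-- C2 (CCPT): comparison on a compact set. -/
def CCPT : Prop := ∀ A B c L r Θ θ T t₀, PCoef A B c L r → Pen Θ θ T t₀ r → ∀ u G,
  WSol A B Θ θ u G → Continuous u → ∀ s : ℝ, (s = 1 ∨ s = -1) →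
  ∀ (K : Set E3) (f : E3 → ℝ), IsCompact K → (∀ x ∈ K, ContDiffAt ℝ 2 f x) →
  ∀ σ > 0, (∀ x ∈ K, 0 < s * (f x - u x) →
    σ ≤ s * (opA A x (gr f x) (fun i => hs f i x) + B x (gr f x) - (Θ x * u x - θ x))) →
  (∀ x ∈ frontier K, s * (f x - u x) ≤ 0) → ∀ x ∈ K, s * (f x - u x) ≤ 0

/-- C3 (CGLO): comparison on the whole space with `f` equal to a constant `c₁` outside a compact
set, `s c₁ ≤ 0`. -/
def CGLO : Prop := ∀ A B c L r Θ θ T t₀, PCoef A B c L r → Pen Θ θ T t₀ r → ∀ u G,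
  WSol A B Θ θ u G → Continuous u → (∀ x, 0 ≤ u x ∧ u x ≤ 1) → ∀ s : ℝ, (s = 1 ∨ s = -1) →
  ∀ (f : E3 → ℝ) (c₁ : ℝ), ContDiff ℝ 2 f → HasCompactSupport (fun x => f x - c₁) → s * c₁ ≤ 0 →
  ∀ σ > 0, (∀ x, 0 < s * (f x - u x) →
    σ ≤ s * (opA A x (gr f x) (fun i => hs f i x) + B x (gr f x) - (Θ x * u x - θ x))) →
  ∀ x, s * (f x - u x) ≤ 0

end Pool.Agent.PFlow.PB


end

section

/-!
# Block P: elementary facts on `L²` norms
-/

open MeasureTheory Filter Topology Set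
open scoped ContDiff RealInnerProductSpace ENNReal

namespace Pool.Agent.PFlow.PB

open Pool.Agent.PenroseSph Pool.Agent.PFlow

section general
variable {F : Type*} [NormedAddCommGroup F]

theorem eLpNorm_two (f : E3 → F) (hf : MemLp f 2) :
    eLpNorm f 2 volume = ENNReal.ofReal (√(∫ x, ‖f x‖ ^ 2)) := by
  rw [hf.eLpNorm_eq_integral_rpow_norm (by norm_num) (by norm_num)]
  congr 1
  rw [Real.sqrt_eq_rpow]
  norm_num

theorem sqrt_add_le' (f g : E3 → F) (hf : MemLp f 2) (hg : MemLp g 2) :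
    √(∫ x, ‖f x + g x‖ ^ 2) ≤ √(∫ x, ‖f x‖ ^ 2) + √(∫ x, ‖g x‖ ^ 2) := by
  have h := eLpNorm_add_le hf.1 hg.1 (show (1 : ℝ≥0∞) ≤ 2 by norm_num)
  have h3 : eLpNorm (f + g) 2 volume = ENNReal.ofReal (√(∫ x, ‖f x + g x‖ ^ 2)) :=
    eLpNorm_two _ (hf.add hg)
  rw [h3, eLpNorm_two f hf, eLpNorm_two g hg, ← ENNReal.ofReal_add (Real.sqrt_nonneg _)
    (Real.sqrt_nonneg _)] at h
  exact (ENNReal.ofReal_le_ofReal_iff (by positivity)).1 h

theorem tend_iff (f : E3 → F) (fn : ℕ → E3 → F) (hf : MemLp f 2) (hn : ∀ n, MemLp (fn n) 2) :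
    Tendsto (fun n => ∫ x, ‖fn n x - f x‖ ^ 2) atTop (𝓝 0) ↔
      Tendsto (fun n => eLpNorm (fn n - f) 2 volume) atTop (𝓝 0) := by
  have e : ∀ n, eLpNorm (fn n - f) 2 volume = ENNReal.ofReal (√(∫ x, ‖fn n x - f x‖ ^ 2)) :=
    fun n => eLpNorm_two _ ((hn n).sub hf)
  simp only [e]
  constructor
  · intro h
    have := (Real.continuous_sqrt.tendsto 0).comp h
    rw [Real.sqrt_zero] at this
    simpa using ENNReal.tendsto_ofReal this
  · intro h
    have h1 : Tendsto (fun n => √(∫ x, ‖fn n x - f x‖ ^ 2)) atTop (𝓝 0) := by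
      have := (ENNReal.tendsto_toReal ENNReal.zero_ne_top).comp h
      simpa [Function.comp_def, ENNReal.toReal_ofReal (Real.sqrt_nonneg _)] using this
    have h2 := h1.pow 2
    simp only [ne_eq, OfNat.ofNat_ne_zero, not_false_eq_true, zero_pow] at h2
    refine h2.congr fun n => Real.sq_sqrt ?_
    exact integral_nonneg fun x => by positivity

/-- integrability of squares -/
theorem int_sq (f : E3 → F) (hf : MemLp f 2) : Integrable (fun x => ‖f x‖ ^ 2) :=
  (memLp_two_iff_integrable_sq_norm hf.1).1 hf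

end general

theorem sq_eq (f : E3 → ℝ) : sq f = ∫ x, ‖f x‖ ^ 2 := by
  unfold sq
  congr 1
  ext x
  rw [Real.norm_eq_abs, sq_abs]

theorem sqv_eq (G : E3 → E3) : sqv G = ∫ x, ‖G x‖ ^ 2 := rfl

theorem sq_nonneg' (f : E3 → ℝ) : 0 ≤ sq f := integral_nonneg fun x => by positivity

theorem sqv_nonneg' (G : E3 → E3) : 0 ≤ sqv G := integral_nonneg fun x => by positivity

theorem sq_add_le (f g : E3 → ℝ) (hf : MemLp f 2) (hg : MemLp g 2) :
    √(sq (fun x => f x + g x)) ≤ √(sq f) + √(sq g) := by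
  simpa only [sq_eq] using sqrt_add_le' f g hf hg

theorem sqv_add_le (f g : E3 → E3) (hf : MemLp f 2) (hg : MemLp g 2) :
    √(sqv (fun x => f x + g x)) ≤ √(sqv f) + √(sqv g) := by
  simpa only [sqv_eq] using sqrt_add_le' f g hf hg

theorem sq_sub_comm (f g : E3 → ℝ) : sq (fun x => f x - g x) = sq (fun x => g x - f x) := by
  unfold sq
  congr 1
  ext x
  ring

theorem sqv_sub_comm (f g : E3 → E3) : sqv (fun x => f x - g x) = sqv (fun x => g x - f x) := by
  unfold sqv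
  congr 1
  ext x
  rw [norm_sub_rev]

/-- the Cauchy-Schwarz inequality for vector fields -/
theorem csv (F G : E3 → E3) (hF : MemLp F 2) (hG : MemLp G 2) :
    |∫ x, ⟪F x, G x⟫| ≤ √(sqv F) * √(sqv G) := by
  have h1 : ∫ x, ⟪F x, G x⟫ = ⟪hF.toLp F, hG.toLp G⟫ := by
    rw [L2.inner_def]
    apply integral_congr_ae
    filter_upwards [hF.coeFn_toLp, hG.coeFn_toLp] with x h1 h2
    rw [h1, h2]
  rw [h1]
  refine (abs_real_inner_le_norm _ _).trans ?_
  rw [Lp.norm_toLp, Lp.norm_toLp, eLpNorm_two F hF, eLpNorm_two G hG,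
    ENNReal.toReal_ofReal (Real.sqrt_nonneg _), ENNReal.toReal_ofReal (Real.sqrt_nonneg _)]
  rfl

/-- the Cauchy-Schwarz inequality -/
theorem cs (f g : E3 → ℝ) (hf : MemLp f 2) (hg : MemLp g 2) :
    |∫ x, f x * g x| ≤ √(sq f) * √(sq g) := by
  have h1 : ∫ x, f x * g x = ⟪hf.toLp f, hg.toLp g⟫ := by
    rw [L2.inner_def]
    apply integral_congr_ae
    filter_upwards [hf.coeFn_toLp, hg.coeFn_toLp] with x h1 h2
    rw [h1, h2]
    simp [mul_comm]
  rw [h1]
  refine (abs_real_inner_le_norm _ _).trans ?_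
  rw [Lp.norm_toLp, Lp.norm_toLp, eLpNorm_two f hf, eLpNorm_two g hg,
    ENNReal.toReal_ofReal (Real.sqrt_nonneg _), ENNReal.toReal_ofReal (Real.sqrt_nonneg _),
    sq_eq, sq_eq]

theorem int_mul (f g : E3 → ℝ) (hf : MemLp f 2) (hg : MemLp g 2) :
    Integrable (fun x => f x * g x) := by
  have := hf.integrable_mul hg
  exact this

/-- limits of integrals of products -/
theorem tend_mul (f g : E3 → ℝ) (fn : ℕ → E3 → ℝ) (hf : MemLp f 2) (hn : ∀ n, MemLp (fn n) 2)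
    (hg : MemLp g 2) (h : Tendsto (fun n => sq (fun x => fn n x - f x)) atTop (𝓝 0)) :
    Tendsto (fun n => ∫ x, fn n x * g x) atTop (𝓝 (∫ x, f x * g x)) := by
  rw [tendsto_iff_norm_sub_tendsto_zero]
  have h1 : Tendsto (fun n => √(sq (fun x => fn n x - f x)) * √(sq g)) atTop (𝓝 0) := by
    have := ((Real.continuous_sqrt.tendsto 0).comp h).mul_const (√(sq g))
    simpa using this
  refine squeeze_zero (fun n => norm_nonneg _) (fun n => ?_) h1
  rw [← integral_sub (int_mul _ _ (hn n) hg) (int_mul _ _ hf hg), Real.norm_eq_abs]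
  have e : (fun x => fn n x * g x - f x * g x) = fun x => (fn n x - f x) * g x := by
    ext x
    ring
  rw [e]
  exact cs _ _ ((hn n).sub hf) hg

theorem memLp_comp (G : E3 → E3) (hG : MemLp G 2) (i : Fin 3) : MemLp (fun x => G x i) 2 := by
  have h : MemLp (fun x => (EuclideanSpace.proj i : E3 →L[ℝ] ℝ) (G x)) 2 :=
    (EuclideanSpace.proj i : E3 →L[ℝ] ℝ).comp_memLp' hG
  exact h

theorem abs_comp_le (v : E3) (i : Fin 3) : |v i| ≤ ‖v‖ := by
  have := PiLp.norm_apply_le v i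
  simpa using this

theorem sq_comp_le (G : E3 → E3) (hG : MemLp G 2) (i : Fin 3) : sq (fun x => G x i) ≤ sqv G := by
  refine integral_mono ?_ (int_sq G hG) fun x => ?_
  · have := int_sq _ (memLp_comp G hG i)
    simpa [Real.norm_eq_abs, sq_abs] using this
  · have := abs_comp_le (G x) i
    have h2 := abs_nonneg (G x i)
    calc (G x i) ^ 2 = |G x i| ^ 2 := (sq_abs _).symm
      _ ≤ ‖G x‖ ^ 2 := by gcongr

theorem norm_sq_eq (v : E3) : ‖v‖ ^ 2 = ∑ i, v i ^ 2 := by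
  rw [EuclideanSpace.norm_sq_eq]
  simp

theorem ee_apply (i j : Fin 3) : (ee i) j = if j = i then 1 else 0 := by
  simp [ee]

theorem pd_eq (i : Fin 3) (f : E3 → ℝ) (x : E3) : pd i f x = fderiv ℝ f x (ee i) := rfl

theorem gr_apply (φ : E3 → ℝ) (x : E3) (i : Fin 3) : gr φ x i = pd i φ x := rfl

theorem sum_ee (v : E3) : v = ∑ i, v i • ee i := by
  ext j
  simp [ee_apply, Fin.sum_univ_three]
  fin_cases j <;> simp

theorem gr_inner (φ : E3 → ℝ) (x v : E3) : ⟪gr φ x, v⟫ = fderiv ℝ φ x v := by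
  conv_rhs => rw [sum_ee v]
  rw [map_sum, PiLp.inner_apply]
  refine Finset.sum_congr rfl fun i _ => ?_
  rw [map_smul]
  simp [gr_apply, pd_eq]

theorem gr_cont (φ : E3 → ℝ) (h : ContDiff ℝ 1 φ) : Continuous (gr φ) := by
  unfold gr
  refine (PiLp.continuous_toLp 2 _).comp (continuous_pi fun i => ?_)
  exact (h.continuous_fderiv (by norm_num)).clm_apply continuous_const

theorem gr_cpt (φ : E3 → ℝ) (hc : HasCompactSupport φ) : HasCompactSupport (gr φ) := by
  refine (hc.fderiv (𝕜 := ℝ)).mono ?_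
  intro x hx
  rw [Function.mem_support] at hx ⊢
  intro h0
  apply hx
  ext i
  simp [gr_apply, pd_eq, h0]

theorem gr_memLp (φ : E3 → ℝ) (h : ContDiff ℝ 1 φ) (hc : HasCompactSupport φ) :
    MemLp (gr φ) 2 := (gr_cont φ h).memLp_of_hasCompactSupport (gr_cpt φ hc)

theorem test_memLp (φ : E3 → ℝ) (h : Test φ) : MemLp φ 2 :=
  h.smooth.continuous.memLp_of_hasCompactSupport h.cpt

theorem Test.one {φ : E3 → ℝ} (h : Test φ) : ContDiff ℝ 1 φ := h.smooth.of_le (by exact_mod_cast le_top)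

end Pool.Agent.PFlow.PB


end

section

/-!
# Block P, module API1: algebra and closedness of `H1`
-/

open MeasureTheory Filter Topology Set
open scoped ContDiff RealInnerProductSpace ENNReal

namespace Pool.Agent.PFlow.PB

open Pool.Agent.PenroseSph Pool.Agent.PFlow

theorem a1_congr (f f' : E3 → ℝ) (G G' : E3 → E3) (h : H1 f G) (hf : f =ᵐ[volume] f')
    (hG : G =ᵐ[volume] G') : H1 f' G' := by
  obtain ⟨φ, h1, h2, h3⟩ := h.approx
  refine ⟨(memLp_congr_ae hf).1 h.memf, (memLp_congr_ae hG).1 h.memG, φ, h1, ?_, ?_⟩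
  · refine h2.congr fun n => ?_
    unfold sq
    apply integral_congr_ae
    filter_upwards [hf] with x hx
    rw [hx]
  · refine h3.congr fun n => ?_
    unfold sqv
    apply integral_congr_ae
    filter_upwards [hG] with x hx
    rw [hx]

theorem gr_add (f g : E3 → ℝ) (x : E3) (hf : DifferentiableAt ℝ f x) (hg : DifferentiableAt ℝ g x) :
    gr (fun x => f x + g x) x = gr f x + gr g x := by
  ext i
  simp [gr_apply, pd_eq, fderiv_fun_add hf hg]

theorem gr_smul (a : ℝ) (f : E3 → ℝ) (x : E3) (hf : DifferentiableAt ℝ f x) :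
    gr (fun x => a * f x) x = a • gr f x := by
  ext i
  simp [gr_apply, pd_eq, fderiv_const_mul hf]

theorem Test.diff {φ : E3 → ℝ} (h : Test φ) (x : E3) : DifferentiableAt ℝ φ x :=
  (h.one.differentiable (by norm_num)) x

theorem Test.add {φ ψ : E3 → ℝ} (h : Test φ) (h' : Test ψ) : Test (fun x => φ x + ψ x) :=
  ⟨h.smooth.add h'.smooth, h.cpt.add h'.cpt⟩

theorem Test.smul {φ : E3 → ℝ} (a : ℝ) (h : Test φ) : Test (fun x => a * φ x) :=
  ⟨contDiff_const.mul h.smooth, h.cpt.mul_left⟩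

theorem tend_add_sq (f g : E3 → ℝ) (fn gn : ℕ → E3 → ℝ) (hf : MemLp f 2) (hg : MemLp g 2)
    (hfn : ∀ n, MemLp (fn n) 2) (hgn : ∀ n, MemLp (gn n) 2)
    (h1 : Tendsto (fun n => sq (fun x => fn n x - f x)) atTop (𝓝 0))
    (h2 : Tendsto (fun n => sq (fun x => gn n x - g x)) atTop (𝓝 0)) :
    Tendsto (fun n => sq (fun x => (fn n x + gn n x) - (f x + g x))) atTop (𝓝 0) := by
  have h3 : Tendsto (fun n => (√(sq (fun x => fn n x - f x)) + √(sq (fun x => gn n x - g x))) ^ 2)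
      atTop (𝓝 0) := by
    have := (((Real.continuous_sqrt.tendsto 0).comp h1).add
      ((Real.continuous_sqrt.tendsto 0).comp h2)).pow 2
    simpa using this
  refine squeeze_zero (fun n => sq_nonneg' _) (fun n => ?_) h3
  have h4 := sq_add_le (fun x => fn n x - f x) (fun x => gn n x - g x) ((hfn n).sub hf)
    ((hgn n).sub hg)
  have e : (fun x => (fn n x + gn n x) - (f x + g x))
      = fun x => (fn n x - f x) + (gn n x - g x) := by
    ext x
    ring
  rw [e]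
  calc sq (fun x => (fn n x - f x) + (gn n x - g x))
      = (√(sq (fun x => (fn n x - f x) + (gn n x - g x)))) ^ 2 := (Real.sq_sqrt (sq_nonneg' _)).symm
    _ ≤ _ := by gcongr

theorem tend_add_sqv (f g : E3 → E3) (fn gn : ℕ → E3 → E3) (hf : MemLp f 2) (hg : MemLp g 2)
    (hfn : ∀ n, MemLp (fn n) 2) (hgn : ∀ n, MemLp (gn n) 2)
    (h1 : Tendsto (fun n => sqv (fun x => fn n x - f x)) atTop (𝓝 0))
    (h2 : Tendsto (fun n => sqv (fun x => gn n x - g x)) atTop (𝓝 0)) :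
    Tendsto (fun n => sqv (fun x => (fn n x + gn n x) - (f x + g x))) atTop (𝓝 0) := by
  have h3 : Tendsto (fun n => (√(sqv (fun x => fn n x - f x)) + √(sqv (fun x => gn n x - g x))) ^ 2)
      atTop (𝓝 0) := by
    have := (((Real.continuous_sqrt.tendsto 0).comp h1).add
      ((Real.continuous_sqrt.tendsto 0).comp h2)).pow 2
    simpa using this
  refine squeeze_zero (fun n => sqv_nonneg' _) (fun n => ?_) h3
  have h4 := sqv_add_le (fun x => fn n x - f x) (fun x => gn n x - g x) ((hfn n).sub hf)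
    ((hgn n).sub hg)
  have e : (fun x => (fn n x + gn n x) - (f x + g x))
      = fun x => (fn n x - f x) + (gn n x - g x) := by
    ext x
    simp
    ring
  rw [e]
  calc sqv (fun x => (fn n x - f x) + (gn n x - g x))
      = (√(sqv (fun x => (fn n x - f x) + (gn n x - g x)))) ^ 2 :=
        (Real.sq_sqrt (sqv_nonneg' _)).symm
    _ ≤ _ := by gcongr

theorem a1_add (f : E3 → ℝ) (F : E3 → E3) (g : E3 → ℝ) (G : E3 → E3) (h : H1 f F) (h' : H1 g G) :
    H1 (fun x => f x + g x) (fun x => F x + G x) := by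
  obtain ⟨φ, h1, h2, h3⟩ := h.approx
  obtain ⟨ψ, h1', h2', h3'⟩ := h'.approx
  refine ⟨h.memf.add h'.memf, h.memG.add h'.memG, fun n x => φ n x + ψ n x,
    fun n => (h1 n).add (h1' n), ?_, ?_⟩
  · exact tend_add_sq f g φ ψ h.memf h'.memf (fun n => test_memLp _ (h1 n))
      (fun n => test_memLp _ (h1' n)) h2 h2'
  · have := tend_add_sqv F G (fun n => gr (φ n)) (fun n => gr (ψ n)) h.memG h'.memG
      (fun n => gr_memLp _ (h1 n).one (h1 n).cpt)
      (fun n => gr_memLp _ (h1' n).one (h1' n).cpt) h3 h3'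
    refine this.congr fun n => ?_
    congr 1
    ext1 x
    rw [gr_add _ _ _ ((h1 n).diff x) ((h1' n).diff x)]

theorem a1_smul (a : ℝ) (f : E3 → ℝ) (F : E3 → E3) (h : H1 f F) :
    H1 (fun x => a * f x) (fun x => a • F x) := by
  obtain ⟨φ, h1, h2, h3⟩ := h.approx
  refine ⟨h.memf.const_mul a, h.memG.const_smul a, fun n x => a * φ n x,
    fun n => (h1 n).smul a, ?_, ?_⟩
  · have := h2.const_mul (a ^ 2)
    rw [mul_zero] at this
    refine this.congr fun n => ?_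
    unfold sq
    rw [← integral_const_mul]
    congr 1
    ext x
    ring
  · have := h3.const_mul (a ^ 2)
    rw [mul_zero] at this
    refine this.congr fun n => ?_
    unfold sqv
    rw [← integral_const_mul]
    congr 1
    ext x
    show a ^ 2 * ‖gr (φ n) x - F x‖ ^ 2 = ‖gr (fun x => a * φ n x) x - a • F x‖ ^ 2
    rw [gr_smul _ _ _ ((h1 n).diff x), ← smul_sub, norm_smul, mul_pow, Real.norm_eq_abs, sq_abs]

theorem a1_sub (f : E3 → ℝ) (F : E3 → E3) (g : E3 → ℝ) (G : E3 → E3) (h : H1 f F) (h' : H1 g G) :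
    H1 (fun x => f x - g x) (fun x => F x - G x) := by
  have := a1_add f F _ _ h (a1_smul (-1) g G h')
  have e1 : (fun x => f x + -1 * g x) = fun x => f x - g x := by ext x; ring
  have e2 : (fun x => F x + (-1 : ℝ) • G x) = fun x => F x - G x := by
    ext1 x
    rw [neg_one_smul, sub_eq_add_neg]
  rwa [e1, e2] at this

theorem pd_cont (φ : E3 → ℝ) (h : ContDiff ℝ 1 φ) (i : Fin 3) : Continuous (pd i φ) :=
  (h.continuous_fderiv (by norm_num)).clm_apply continuous_const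

theorem pd_cpt (φ : E3 → ℝ) (hc : HasCompactSupport φ) (i : Fin 3) : HasCompactSupport (pd i φ) := by
  refine (hc.fderiv (𝕜 := ℝ)).mono ?_
  intro x hx
  rw [Function.mem_support] at hx ⊢
  intro h0
  apply hx
  simp [pd_eq, h0]

theorem pd_memLp (φ : E3 → ℝ) (h : ContDiff ℝ 1 φ) (hc : HasCompactSupport φ) (i : Fin 3) :
    MemLp (pd i φ) 2 := (pd_cont φ h i).memLp_of_hasCompactSupport (pd_cpt φ hc i)

/-- integration by parts for two `C¹` functions, one of them with compact support -/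
theorem ibp_C1 (φ ψ : E3 → ℝ) (h : ContDiff ℝ 1 φ) (h' : ContDiff ℝ 1 ψ)
    (hc : HasCompactSupport ψ) (i : Fin 3) :
    ∫ x, φ x * pd i ψ x = - ∫ x, pd i φ x * ψ x := by
  have := integral_mul_fderiv_eq_neg_fderiv_mul_of_integrable (𝕜 := ℝ) (μ := (volume : Measure E3))
    (f := φ) (g := ψ) (v := ee i) ?_ ?_ ?_ (fun x _ => h.differentiable (by norm_num) x)
    (fun x _ => h'.differentiable (by norm_num) x)
  · exact this
  · exact ((pd_cont φ h i).mul h'.continuous).integrable_of_hasCompactSupport hc.mul_left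
  · exact (h.continuous.mul (pd_cont ψ h' i)).integrable_of_hasCompactSupport
      (pd_cpt ψ hc i).mul_left
  · exact (h.continuous.mul h'.continuous).integrable_of_hasCompactSupport hc.mul_left

theorem tend_comp (G : E3 → E3) (Gn : ℕ → E3 → E3) (hG : MemLp G 2) (hn : ∀ n, MemLp (Gn n) 2)
    (h : Tendsto (fun n => sqv (fun x => Gn n x - G x)) atTop (𝓝 0)) (i : Fin 3) :
    Tendsto (fun n => sq (fun x => Gn n x i - G x i)) atTop (𝓝 0) := by
  refine squeeze_zero (fun n => sq_nonneg' _) (fun n => ?_) h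
  exact sq_comp_le (fun x => Gn n x - G x) ((hn n).sub hG) i

theorem a1_wgrad (f : E3 → ℝ) (G : E3 → E3) (h : H1 f G) : WGrad f G := by
  obtain ⟨φ, h1, h2, h3⟩ := h.approx
  intro ψ hψ i
  have t1 := tend_mul f (pd i ψ) φ h.memf (fun n => test_memLp _ (h1 n))
    (pd_memLp ψ hψ.one hψ.cpt i) h2
  have t2 := tend_mul (fun x => G x i) ψ (fun n x => gr (φ n) x i) (memLp_comp G h.memG i)
    (fun n => memLp_comp _ (gr_memLp _ (h1 n).one (h1 n).cpt) i) (test_memLp ψ hψ)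
    (tend_comp G (fun n => gr (φ n)) h.memG (fun n => gr_memLp _ (h1 n).one (h1 n).cpt) h3 i)
  refine tendsto_nhds_unique t1 (t2.neg.congr fun n => ?_)
  exact (ibp_C1 (φ n) ψ (h1 n).one hψ.one hψ.cpt i).symm

theorem a1_unique (f : E3 → ℝ) (G G' : E3 → E3) (h : H1 f G) (h' : H1 f G') :
    G =ᵐ[volume] G' := by
  have hw := a1_wgrad f G h
  have hw' := a1_wgrad f G' h'
  have key : ∀ i : Fin 3, ∀ᵐ x, G x i - G' x i = 0 := by
    intro i
    have hi := memLp_comp G h.memG i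
    have hi' := memLp_comp G' h'.memG i
    have hl : LocallyIntegrable (fun x => G x i - G' x i) volume :=
      (hi.sub hi').locallyIntegrable (by norm_num)
    refine ae_eq_zero_of_integral_contDiff_smul_eq_zero hl fun ψ hψ hc => ?_
    have e1 := hw ψ ⟨hψ, hc⟩ i
    have e2 := hw' ψ ⟨hψ, hc⟩ i
    have hm := test_memLp ψ ⟨hψ, hc⟩
    have e3 : ∫ x, ψ x • (G x i - G' x i) = (∫ x, G x i * ψ x) - ∫ x, G' x i * ψ x := by
      rw [← integral_sub (int_mul _ _ hi hm) (int_mul _ _ hi' hm)]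
      congr 1
      ext x
      simp only [smul_eq_mul]
      ring
    rw [e3]
    linarith
  filter_upwards [key 0, key 1, key 2] with x h0 h1 h2
  ext i
  fin_cases i
  · exact sub_eq_zero.1 h0
  · exact sub_eq_zero.1 h1
  · exact sub_eq_zero.1 h2

theorem a1_closed (f : E3 → ℝ) (G : E3 → E3) (fn : ℕ → E3 → ℝ) (Gn : ℕ → E3 → E3)
    (h : ∀ n, H1 (fn n) (Gn n)) (hf : MemLp f 2) (hG : MemLp G 2)
    (h1 : Tendsto (fun n => sq (fun x => fn n x - f x)) atTop (𝓝 0))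
    (h2 : Tendsto (fun n => sqv (fun x => Gn n x - G x)) atTop (𝓝 0)) : H1 f G := by
  have hc : ∀ n : ℕ, ∃ φ : E3 → ℝ, Test φ ∧ sq (fun x => φ x - fn n x) < 1 / ((n : ℝ) + 1) ∧
      sqv (fun x => gr φ x - Gn n x) < 1 / ((n : ℝ) + 1) := by
    intro n
    obtain ⟨φ, a1, a2, a3⟩ := (h n).approx
    have hp : (0 : ℝ) < 1 / ((n : ℝ) + 1) := by positivity
    have e1 := (tendsto_order.1 a2).2 _ hp
    have e2 := (tendsto_order.1 a3).2 _ hp
    obtain ⟨m, hm⟩ := (e1.and e2).exists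
    exact ⟨φ m, a1 m, hm.1, hm.2⟩
  choose φ a1 a2 a3 using hc
  have h0 : Tendsto (fun n : ℕ => 1 / ((n : ℝ) + 1)) atTop (𝓝 0) :=
    tendsto_one_div_add_atTop_nhds_zero_nat
  have b2 : Tendsto (fun n => sq (fun x => φ n x - fn n x)) atTop (𝓝 0) :=
    squeeze_zero (fun n => sq_nonneg' _) (fun n => (a2 n).le) h0
  have b3 : Tendsto (fun n => sqv (fun x => gr (φ n) x - Gn n x)) atTop (𝓝 0) :=
    squeeze_zero (fun n => sqv_nonneg' _) (fun n => (a3 n).le) h0
  refine ⟨hf, hG, φ, a1, ?_, ?_⟩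
  · have := tend_add_sq (fun _ => 0) (fun _ => 0) (fun n x => φ n x - fn n x)
      (fun n x => fn n x - f x) (MemLp.zero') (MemLp.zero')
      (fun n => (test_memLp _ (a1 n)).sub (h n).memf) (fun n => (h n).memf.sub hf)
      (by simpa using b2) (by simpa using h1)
    simpa using this
  · have := tend_add_sqv (fun _ => 0) (fun _ => 0) (fun n x => gr (φ n) x - Gn n x)
      (fun n x => Gn n x - G x) (MemLp.zero') (MemLp.zero')
      (fun n => (gr_memLp _ (a1 n).one (a1 n).cpt).sub (h n).memG) (fun n => (h n).memG.sub hG)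
      (by simpa using b3) (by simpa using h2)
    simpa using this

section complete
variable {F : Type*} [NormedAddCommGroup F] [CompleteSpace F]

theorem complete_gen (fn : ℕ → E3 → F) (hm : ∀ n, MemLp (fn n) 2)
    (hc : ∀ ε > 0, ∃ N, ∀ m ≥ N, ∀ n ≥ N, (∫ x, ‖fn m x - fn n x‖ ^ 2) < ε) :
    ∃ f, MemLp f 2 ∧ Tendsto (fun n => ∫ x, ‖fn n x - f x‖ ^ 2) atTop (𝓝 0) := by
  have hC : CauchySeq (fun n => (hm n).toLp (fn n)) := by
    rw [Metric.cauchySeq_iff]
    intro ε hε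
    obtain ⟨N, hN⟩ := hc (ε ^ 2) (by positivity)
    refine ⟨N, fun m hm' n hn' => ?_⟩
    rw [dist_eq_norm, ← MemLp.toLp_sub, Lp.norm_toLp]
    have e : eLpNorm (fn m - fn n) 2 volume = ENNReal.ofReal (√(∫ x, ‖fn m x - fn n x‖ ^ 2)) :=
      eLpNorm_two _ ((hm m).sub (hm n))
    rw [e, ENNReal.toReal_ofReal (Real.sqrt_nonneg _)]
    rw [Real.sqrt_lt' hε]
    exact hN m hm' n hn'
  obtain ⟨g, hg⟩ := cauchySeq_tendsto_of_complete hC
  refine ⟨g, Lp.memLp g, ?_⟩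
  rw [tend_iff _ _ (Lp.memLp g) hm]
  rw [Lp.tendsto_Lp_iff_tendsto_eLpNorm'] at hg
  refine hg.congr fun n => ?_
  apply eLpNorm_congr_ae
  filter_upwards [(hm n).coeFn_toLp] with x hx
  simp [hx]

end complete

theorem api1_thm : API1 where
  gr_apply := gr_apply
  gr_inner := gr_inner
  gr_cont := gr_cont
  ofTest φ h := by
    refine ⟨test_memLp φ h, gr_memLp φ h.one h.cpt, fun _ => φ, fun _ => h, ?_, ?_⟩
    · simp [sq]
    · simp [sqv]
  congr := a1_congr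
  add := a1_add
  sub := a1_sub
  smul := a1_smul
  wgrad := a1_wgrad
  unique := a1_unique
  closed := a1_closed
  complete fn hm hc := by
    obtain ⟨f, h1, h2⟩ := complete_gen fn hm (by simpa only [sq_eq] using hc)
    exact ⟨f, h1, by simpa only [sq_eq] using h2⟩
  completev fn hm hc := complete_gen fn hm hc

end Pool.Agent.PFlow.PB


end

section

/-!
# Block P: comparison on a compact set
-/

open MeasureTheory Filter Topology Set
open scoped ContDiff RealInnerProductSpace Manifold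

namespace Pool.Agent.PFlow.PB

open Pool.Agent.PenroseSph Pool.Agent.PFlow

namespace CCpt

/-- Smooth cutoff functions. -/
lemma cutoff {S O : Set E3} (hS : IsClosed S) (hO : IsOpen O) (hSO : S ⊆ O) :
    ∃ ζ : E3 → ℝ, ContDiff ℝ ∞ ζ ∧ (∀ x ∈ S, ∀ᶠ y in 𝓝 x, ζ y = 1) ∧ tsupport ζ ⊆ O ∧
      ∀ x, 0 ≤ ζ x ∧ ζ x ≤ 1 := by
  obtain ⟨ζ, h0, h1, h2⟩ := exists_contMDiffMap_zero_one_nhds_of_isClosed (n := ⊤)
    (𝓘(ℝ, E3)) hO.isClosed_compl hS (by
      rw [Set.disjoint_left]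
      exact fun x hx hxS => hx (hSO hxS))
  refine ⟨ζ, ζ.contMDiff.contDiff, fun x hx => ?_, fun x hx => ?_, fun x => h2 x⟩
  · exact h1.filter_mono (nhds_le_nhdsSet hx)
  · by_contra hxO
    have h3 : ∀ᶠ y in 𝓝 x, ζ y = 0 := h0.filter_mono (nhds_le_nhdsSet hxO)
    exact (notMem_tsupport_iff_eventuallyEq.2 h3) hx

lemma pd_congr {f g : E3 → ℝ} {x : E3} (h : f =ᶠ[𝓝 x] g) (i : Fin 3) :
    pd i f =ᶠ[𝓝 x] pd i g := by
  filter_upwards [h.fderiv (𝕜 := ℝ)] with y hy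
  unfold pd
  rw [hy]

lemma gr_congr {f g : E3 → ℝ} {x : E3} (h : f =ᶠ[𝓝 x] g) : gr f x = gr g x := by
  unfold gr
  congr 1
  funext i
  exact (pd_congr h i).eq_of_nhds

lemma hs_congr {f g : E3 → ℝ} {x : E3} (h : f =ᶠ[𝓝 x] g) (i : Fin 3) : hs f i x = hs g i x :=
  gr_congr (pd_congr h i)

lemma gr_const {f : E3 → ℝ} {x : E3} {c : ℝ} (h : ∀ᶠ y in 𝓝 x, f y = c) : gr f x = 0 := by
  have h1 : f =ᶠ[𝓝 x] fun _ => c := h
  rw [gr_congr h1]
  unfold gr pd
  ext i
  simp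

lemma gr_cpt {f : E3 → ℝ} {K : Set E3} (hK : IsCompact K) (h : tsupport f ⊆ K) :
    HasCompactSupport (gr f) := by
  refine HasCompactSupport.intro hK fun x hx => ?_
  exact gr_const (c := 0) (notMem_tsupport_iff_eventuallyEq.1 fun h' => hx (h h'))

end CCpt

theorem ccpt_thm (h1 : API1) (h2 : API2) (hk : CKEY) : CCPT := by
  intro A B c L r Θ θ T t₀ hP hPen u G hW hu s hs K f hK hf σ hσ hineq hfr
  by_contra hcon
  push Not at hcon
  obtain ⟨x₀, hx₀K, hx₀⟩ := hcon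
  set m : ℝ := s * (f x₀ - u x₀) / 2 with hm
  have hm0 : 0 < m := by rw [hm]; linarith
  have hfK : ContinuousOn f K := fun x hx => (hf x hx).continuousAt.continuousWithinAt
  -- the set where the difference is large
  set S : Set E3 := K ∩ (fun x => s * (f x - u x)) ⁻¹' Set.Ici m with hS
  have hScl : IsClosed S := by
    refine ContinuousOn.preimage_isClosed_of_isClosed ?_ hK.isClosed isClosed_Ici
    exact continuousOn_const.mul (hfK.sub hu.continuousOn)
  have hSint : S ⊆ interior K := by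
    intro x hx
    by_contra hxi
    have h3 : x ∈ frontier K := by
      rw [hK.isClosed.frontier_eq]
      exact ⟨hx.1, hxi⟩
    have h4 := hfr x h3
    have h5 : m ≤ s * (f x - u x) := hx.2
    linarith
  obtain ⟨ζ, hζ, hζ1, hζt, hζ01⟩ := CCpt.cutoff hScl isOpen_interior hSint
  obtain ⟨ζ₂, hζ₂, hζ₂1, hζ₂t, -⟩ := CCpt.cutoff (isClosed_tsupport ζ) isOpen_interior hζt
  set F : E3 → ℝ := fun x => ζ₂ x * f x with hF
  have hζK : tsupport ζ ⊆ K := hζt.trans interior_subset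
  have hζ₂K : tsupport ζ₂ ⊆ K := hζ₂t.trans interior_subset
  have hζc : HasCompactSupport ζ := hK.of_isClosed_subset (isClosed_tsupport _) hζK
  have hFt : tsupport F ⊆ K := (tsupport_mul_subset_left).trans hζ₂K
  have hFc : HasCompactSupport F := hK.of_isClosed_subset (isClosed_tsupport _) hFt
  have hFs : ContDiff ℝ 2 F := by
    rw [contDiff_iff_contDiffAt]
    intro x
    by_cases hx : x ∈ tsupport ζ₂
    · exact (hζ₂.contDiffAt.of_le (WithTop.coe_le_coe.2 le_top)).mul (hf x (hζ₂K hx))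
    · have h3 : ∀ᶠ y in 𝓝 x, ζ₂ y = 0 := notMem_tsupport_iff_eventuallyEq.1 hx
      have h4 : F =ᶠ[𝓝 x] fun _ => (0 : ℝ) := by
        filter_upwards [h3] with y hy
        rw [hF]
        simp only [hy, zero_mul]
      exact contDiffAt_const.congr_of_eventuallyEq h4
  have hFf : ∀ x ∈ tsupport ζ, F =ᶠ[𝓝 x] f := by
    intro x hx
    filter_upwards [hζ₂1 x hx] with y hy
    rw [hF]
    simp only [hy, one_mul]
  -- the test function
  set v : E3 → ℝ := fun x => ζ x * (s * (F x - u x)) - m * ζ x with hv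
  set V : E3 → E3 := fun x => (ζ x • (s • (gr F x - G x)) + (s * (F x - u x)) • gr ζ x) -
    m • gr ζ x with hV
  have hgc : Continuous (gr ζ) := h1.gr_cont ζ (hζ.of_le (by simp))
  obtain ⟨C, hC⟩ := (CCpt.gr_cpt hK hζK).exists_bound_of_continuous hgc
  have hTζ : Test ζ := ⟨hζ, hζc⟩
  have hH : H1 v V := by
    have a1 := h2.ofC1 F (hFs.of_le (by norm_num)) hFc
    have a2 := h1.smul s _ _ (h1.sub _ _ _ _ a1 hW.1)
    have a3 := h2.mul _ _ ζ (max C 1) a2 (hζ.of_le (by simp))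
      (fun x => by
        rw [abs_of_nonneg (hζ01 x).1]
        exact (hζ01 x).2.trans (le_max_right _ _))
      (fun x => (hC x).trans (le_max_left _ _))
    exact h1.sub _ _ _ _ a3 (h1.smul m _ _ (h1.ofTest ζ hTζ))
  have hvc : Continuous v :=
    (hζ.continuous.mul (continuous_const.mul (hFs.continuous.sub hu))).sub
      (continuous_const.mul hζ.continuous)
  have hvcs : HasCompactSupport v := by
    refine HasCompactSupport.intro hK fun x hx => ?_
    have : ζ x = 0 := image_eq_zero_of_notMem_tsupport fun h' => hx (hζK h')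
    rw [hv]
    simp only [this, zero_mul, mul_zero, sub_zero]
  obtain ⟨T', hT'⟩ := hvcs.exists_bound_of_continuous hvc
  -- where `v` is positive
  have hpos : ∀ x, 0 < v x → x ∈ S ∧ x ∈ tsupport ζ := by
    intro x hx
    have h3 : ζ x * (s * (F x - u x) - m) = v x := by rw [hv]; ring
    rw [← h3] at hx
    have hζ0 : 0 < ζ x := by
      rcases (hζ01 x).1.eq_or_lt with h4 | h4
      · rw [← h4, zero_mul] at hx
        exact absurd hx (lt_irrefl 0)
      · exact h4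
    have h5 : 0 < s * (F x - u x) - m := (mul_pos_iff_of_pos_left hζ0).1 hx
    have h6 : x ∈ tsupport ζ := subset_tsupport _ hζ0.ne'
    have h7 : F x = f x := (hFf x h6).eq_of_nhds
    rw [h7] at h5
    exact ⟨⟨hζK h6, show m ≤ s * (f x - u x) by linarith⟩, h6⟩
  have hle := hk A B c L r Θ θ T t₀ hP hPen u G hW s hs F hFs (CCpt.gr_cpt hK hFt) v V hH T'
    (Eventually.of_forall hT')
    (Eventually.of_forall fun x hx => by
      obtain ⟨h3, -⟩ := hpos x hx
      have h4 := hζ1 x h3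
      rw [hV]
      simp only [CCpt.gr_const h4, h4.self_of_nhds, one_smul, smul_zero, add_zero, sub_zero])
    σ hσ
    (Eventually.of_forall fun x hx => by
      obtain ⟨h3, h4⟩ := hpos x hx
      have h5 := hFf x h4
      have h6 : 0 < s * (f x - u x) := lt_of_lt_of_le hm0 h3.2
      have h7 := hineq x h3.1 h6
      rw [CCpt.gr_congr h5]
      have h8 : (fun i => PB.hs F i x) = fun i => PB.hs f i x :=
        funext fun i => CCpt.hs_congr h5 i
      rw [h8]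
      exact h7)
  -- contradiction at `x₀`
  have hx₀S : x₀ ∈ S := ⟨hx₀K, show m ≤ s * (f x₀ - u x₀) by linarith⟩
  have hx₀ζ : ζ x₀ = 1 := (hζ1 x₀ hx₀S).self_of_nhds
  have hx₀t : x₀ ∈ tsupport ζ := subset_tsupport _ (by
    rw [Function.mem_support, hx₀ζ]; exact one_ne_zero)
  have hx₀F : F x₀ = f x₀ := (hFf x₀ hx₀t).eq_of_nhds
  have hvx₀ : 0 < v x₀ := by
    rw [hv]
    simp only [hx₀ζ, hx₀F]
    linarith
  have hopen : IsOpen {x | 0 < v x} := isOpen_lt continuous_const hvc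
  have hmeas := hopen.measure_pos volume ⟨x₀, hvx₀⟩
  have hzero : volume {x | 0 < v x} = 0 := by
    have h9 : {x | 0 < v x} = {x | ¬ v x ≤ 0} := by
      ext x
      simp
    rw [h9]
    exact hle
  rw [hzero] at hmeas
  exact absurd hmeas (lt_irrefl _)

end Pool.Agent.PFlow.PB


end

section

set_option autoImplicit false

open MeasureTheory Filter Topology Set
open scoped ContDiff RealInnerProductSpace

namespace Pool.Agent.PFlow.PB

open Pool.Agent.PenroseSph Pool.Agent.PFlow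

/-- The truncation. -/
private theorem cglo_psi (m : ℝ) (hm : 0 ≤ m) : ∃ Ψ : ℝ → ℝ, ContDiff ℝ 1 Ψ ∧ Ψ 0 = 0 ∧
    (∀ t, m < t → Ψ t = t - m ∧ deriv Ψ t = 1) ∧ (∀ t, t ≤ m → Ψ t ≤ 0) := by
  rcases hm.eq_or_lt with h0 | h0
  · subst h0
    refine ⟨id, contDiff_id, rfl, ?_, ?_⟩
    · intro t _
      refine ⟨by simp, ?_⟩
      exact deriv_id t
    · intro t ht
      exact ht
  · refine ⟨fun t => Real.smoothTransition (4 * t / m - 1) * (t - m), ?_, ?_, ?_, ?_⟩
    · refine ContDiff.mul ?_ (contDiff_id.sub contDiff_const)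
      refine (Real.smoothTransition.contDiff (n := 1)).comp ?_
      exact ((contDiff_const.mul contDiff_id).div_const m).sub contDiff_const
    · have : Real.smoothTransition (4 * 0 / m - 1) = 0 := by
        apply Real.smoothTransition.zero_of_nonpos
        simp
      show Real.smoothTransition (4 * 0 / m - 1) * (0 - m) = 0
      rw [this, zero_mul]
    · intro t ht
      have h1 : ∀ y, m / 2 < y → Real.smoothTransition (4 * y / m - 1) = 1 := by
        intro y hy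
        apply Real.smoothTransition.one_of_one_le
        rw [le_sub_iff_add_le, le_div_iff₀ h0]
        linarith
      refine ⟨?_, ?_⟩
      · show Real.smoothTransition (4 * t / m - 1) * (t - m) = t - m
        rw [h1 t (by linarith), one_mul]
      · have h2 : (fun y => Real.smoothTransition (4 * y / m - 1) * (y - m)) =ᶠ[𝓝 t]
            fun y => y - m := by
          filter_upwards [lt_mem_nhds (show m / 2 < t by linarith)] with y hy
          rw [h1 y hy, one_mul]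
        rw [h2.deriv_eq]
        simp
    · intro t ht
      exact mul_nonpos_of_nonneg_of_nonpos (Real.smoothTransition.nonneg _) (by linarith)

theorem cglo_thm (h1 : API1) (h2 : API2) (hc : CHAIN) (hk : CKEY) : CGLO := by
  intro A B c L r Θ θ T t₀ hP hPen u G hsol hu hu01 s hs f c₁ hf hfc hsc σ hσ hop
  have hs2 : s * s = 1 := by rcases hs with rfl | rfl <;> norm_num
  have hsabs : |s| = 1 := by rcases hs with rfl | rfl <;> norm_num
  have hf1 : ContDiff ℝ 1 f := hf.of_le (by norm_num)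
  have hfc1 : ContDiff ℝ 1 (fun x => f x - c₁) := hf1.sub contDiff_const
  have hgr : gr (fun x => f x - c₁) = gr f := by
    funext x
    unfold gr pd
    congr 1
    funext i
    rw [fderiv_sub_const]
  have hH1 : H1 (fun x => f x - c₁) (gr f) := by
    have := h2.ofC1 _ hfc1 hfc
    rwa [hgr] at this
  have hH2 : H1 (fun x => s * (f x - c₁) - s * u x) (fun x => s • gr f x - s • G x) :=
    h1.sub _ _ _ _ (h1.smul s _ _ hH1) (h1.smul s _ _ hsol.1)
  obtain ⟨Ψ, hΨ, hΨ0, hΨ1, hΨ2⟩ := cglo_psi (-(s * c₁)) (by linarith)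
  -- bounds
  obtain ⟨C, hC⟩ := hfc.exists_bound_of_continuous hfc1.continuous
  have hbd : ∀ x, |s * (f x - c₁) - s * u x| ≤ C + 1 := by
    intro x
    have h3 := hC x
    rw [Real.norm_eq_abs] at h3
    have h4 : |u x| ≤ 1 := by
      rw [abs_le]
      have := hu01 x
      constructor <;> linarith [this.1, this.2]
    calc |s * (f x - c₁) - s * u x| ≤ |s * (f x - c₁)| + |s * u x| := abs_sub _ _
      _ = |f x - c₁| + |u x| := by rw [abs_mul, abs_mul, hsabs, one_mul, one_mul]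
      _ ≤ C + 1 := add_le_add h3 h4
  have hV := hc.bdd _ _ Ψ (C + 1) hH2 (Eventually.of_forall hbd) hΨ hΨ0
  obtain ⟨T', hT'⟩ := (isCompact_Icc (a := -(C + 1)) (b := C + 1)).exists_bound_of_continuousOn
    hΨ.continuous.continuousOn
  have hiff : ∀ x, 0 < Ψ (s * (f x - c₁) - s * u x) → -(s * c₁) < s * (f x - c₁) - s * u x := by
    intro x hx
    by_contra hcon
    push Not at hcon
    exact absurd (hΨ2 _ hcon) (not_le.2 hx)
  have key := hk A B c L r Θ θ T t₀ hP hPen u G hsol s hs f hf (by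
      rw [← hgr]
      have h5 : tsupport (gr (fun x => f x - c₁)) ⊆ tsupport (fun x => f x - c₁) := by
        apply closure_minimal _ (isClosed_tsupport _)
        intro x hx
        by_contra hcon
        apply hx
        have h6 : (fun x => f x - c₁) =ᶠ[𝓝 x] fun _ => 0 := by
          have := (isClosed_tsupport (fun x => f x - c₁)).isOpen_compl.mem_nhds hcon
          filter_upwards [this] with y hy
          exact image_eq_zero_of_notMem_tsupport (f := fun x => f x - c₁) hy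
        have h7 : ∀ i, pd i (fun x => f x - c₁) x = 0 := by
          intro i
          unfold pd
          rw [h6.fderiv_eq]
          simp
        unfold gr
        simp only [h7]
        rfl
      exact HasCompactSupport.intro' hfc (isClosed_tsupport _) (fun x hx => by
        by_contra h8
        exact hx (h5 (subset_closure h8))))
    (fun x => Ψ (s * (f x - c₁) - s * u x)) _ hV T' (Eventually.of_forall fun x => by
      have := hT' _ (abs_le.1 (hbd x))
      rwa [Real.norm_eq_abs] at this)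
    (Eventually.of_forall fun x hx => by
      have h9 := (hΨ1 _ (hiff x hx)).2
      show deriv Ψ (s * (f x - c₁) - s * u x) • (s • gr f x - s • G x) = s • (gr f x - G x)
      rw [h9, one_smul, smul_sub])
    σ hσ
    (Eventually.of_forall fun x hx => by
      apply hop x
      have := hiff x hx
      linarith)
  -- continuity
  have hcont : Continuous (fun x => Ψ (s * (f x - c₁) - s * u x)) := by
    refine hΨ.continuous.comp ?_
    exact (continuous_const.mul (hf.continuous.sub continuous_const)).sub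
      (continuous_const.mul hu)
  intro x
  by_contra hcon
  push Not at hcon
  have h10 : -(s * c₁) < s * (f x - c₁) - s * u x := by linarith
  have h11 : 0 < Ψ (s * (f x - c₁) - s * u x) := by
    rw [(hΨ1 _ h10).1]
    linarith
  have hopen : IsOpen {y | 0 < Ψ (s * (f y - c₁) - s * u y)} := isOpen_lt continuous_const hcont
  have hpos : 0 < volume {y | 0 < Ψ (s * (f y - c₁) - s * u y)} :=
    hopen.measure_pos volume ⟨x, h11⟩
  have hzero : volume {y | 0 < Ψ (s * (f y - c₁) - s * u y)} = 0 := by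
    have := ae_iff.1 key
    simp only [not_le] at this
    exact this
  exact absurd hzero hpos.ne'

end Pool.Agent.PFlow.PB


end

section

/-!
# Block P: bounded sequences in `H²` (CPT)
-/

open MeasureTheory Filter Topology Set
open scoped ContDiff RealInnerProductSpace

namespace Pool.Agent.PFlow.PB

open Pool.Agent.PenroseSph Pool.Agent.PFlow

namespace CptAux

lemma loc_tend (G : ℕ → E3 → E3) (F : E3 → E3) (hG : ∀ n, MemLp (G n) 2) (hF : MemLp F 2)
    (hK : ∀ K : Set E3, IsCompact K →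
      Tendsto (fun n => ∫ x in K, ‖G n x - F x‖ ^ 2) atTop (𝓝 0))
    (ψ : E3 → ℝ) (hψ : Continuous ψ) (hc : HasCompactSupport ψ) (i : Fin 3) :
    Tendsto (fun n => ∫ x, G n x i * ψ x) atTop (𝓝 (∫ x, F x i * ψ x)) := by
  have hψ2 : MemLp ψ 2 := hψ.memLp_of_hasCompactSupport hc
  set K := tsupport ψ with hKd
  have hKm : MeasurableSet K := (isClosed_tsupport ψ).measurableSet
  rw [tendsto_iff_norm_sub_tendsto_zero]
  have h1 : Tendsto (fun n => √(∫ x in K, ‖G n x - F x‖ ^ 2) * √(sq ψ)) atTop (𝓝 0) := by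
    have := ((Real.continuous_sqrt.tendsto 0).comp (hK K hc)).mul_const (√(sq ψ))
    simpa using this
  refine squeeze_zero (fun n => norm_nonneg _) (fun n => ?_) h1
  have hd : MemLp (fun x => G n x - F x) 2 := (hG n).sub hF
  have hdi : MemLp (fun x => G n x i - F x i) 2 := (memLp_comp _ (hG n) i).sub (memLp_comp _ hF i)
  have hind : MemLp (K.indicator fun x => G n x i - F x i) 2 := hdi.indicator hKm
  have e1 : (∫ x, G n x i * ψ x) - ∫ x, F x i * ψ x
      = ∫ x, K.indicator (fun x => G n x i - F x i) x * ψ x := by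
    rw [← integral_sub (int_mul _ _ (memLp_comp _ (hG n) i) hψ2)
      (int_mul _ _ (memLp_comp _ hF i) hψ2)]
    refine integral_congr_ae (Filter.Eventually.of_forall fun x => ?_)
    simp only []
    by_cases hx : x ∈ K
    · rw [Set.indicator_of_mem hx]
      ring
    · rw [Set.indicator_of_notMem hx, image_eq_zero_of_notMem_tsupport hx]
      ring
  rw [e1, Real.norm_eq_abs]
  refine (cs _ _ hind hψ2).trans ?_
  refine mul_le_mul_of_nonneg_right (Real.sqrt_le_sqrt ?_) (Real.sqrt_nonneg _)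
  have e2 : sq (K.indicator fun x => G n x i - F x i) = ∫ x in K, (G n x i - F x i) ^ 2 := by
    unfold sq
    rw [← integral_indicator hKm]
    refine integral_congr_ae (Filter.Eventually.of_forall fun x => ?_)
    simp only []
    by_cases hx : x ∈ K
    · rw [Set.indicator_of_mem hx, Set.indicator_of_mem hx]
    · rw [Set.indicator_of_notMem hx, Set.indicator_of_notMem hx]
      ring
  rw [e2]
  refine integral_mono (hdi.integrable_sq.integrableOn) ((int_sq _ hd).integrableOn) fun x => ?_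
  have := abs_comp_le (G n x - F x) i
  have h3 : (G n x - F x) i = G n x i - F x i := rfl
  rw [h3] at this
  have h4 : (G n x i - F x i) ^ 2 = |G n x i - F x i| ^ 2 := (sq_abs _).symm
  simp only []
  rw [h4]
  exact pow_le_pow_left₀ (abs_nonneg _) this 2

lemma bdd_tend (u : ℕ → E3 → ℝ) (v : E3 → ℝ) (C : ℝ) (hu : ∀ n x, |u n x| ≤ C)
    (huc : ∀ n, Continuous (u n)) (hp : ∀ x, Tendsto (fun n => u n x) atTop (𝓝 (v x)))
    (ψ : E3 → ℝ) (hψ : Continuous ψ) (hc : HasCompactSupport ψ) :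
    Tendsto (fun n => ∫ x, u n x * ψ x) atTop (𝓝 (∫ x, v x * ψ x)) := by
  refine tendsto_integral_of_dominated_convergence (fun x => C * ‖ψ x‖) ?_ ?_ ?_ ?_
  · exact fun n => ((huc n).mul hψ).aestronglyMeasurable
  · exact (hψ.integrable_of_hasCompactSupport hc).norm.const_mul C
  · intro n
    refine Filter.Eventually.of_forall fun x => ?_
    rw [norm_mul, Real.norm_eq_abs (u n x)]
    exact mul_le_mul_of_nonneg_right (hu n x) (norm_nonneg _)
  · exact Filter.Eventually.of_forall fun x => (hp x).mul_const _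

lemma holder_cont {w : E3 → ℝ} {K : ℝ}
    (h : ∀ x y, ‖x - y‖ ≤ 1 → |w x - w y| ≤ K * ‖x - y‖ ^ (1 / 4 : ℝ)) : Continuous w := by
  rw [continuous_iff_continuousAt]
  intro x
  unfold ContinuousAt
  rw [tendsto_iff_norm_sub_tendsto_zero]
  have h1 : Tendsto (fun y => K * ‖y - x‖ ^ (1 / 4 : ℝ)) (𝓝 x) (𝓝 0) := by
    have h2 : Tendsto (fun y : E3 => ‖y - x‖) (𝓝 x) (𝓝 0) := by
      have : Continuous fun y : E3 => ‖y - x‖ := by fun_prop
      have := this.tendsto x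
      simpa using this
    have h3 := (h2.rpow_const (p := (1 / 4 : ℝ)) (Or.inr (by norm_num))).const_mul K
    have e : K * (0 : ℝ) ^ (1 / 4 : ℝ) = 0 := by
      rw [Real.zero_rpow (by norm_num), mul_zero]
    rw [e] at h3
    exact h3
  refine squeeze_zero' (Filter.Eventually.of_forall fun y => norm_nonneg _) ?_ h1
  have h4 : ∀ᶠ y in 𝓝 x, ‖y - x‖ ≤ 1 := by
    filter_upwards [Metric.ball_mem_nhds x one_pos] with y hy
    rw [Metric.mem_ball, dist_eq_norm] at hy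
    exact hy.le
  filter_upwards [h4] with y hy
  exact h y x hy

lemma memLp_vec (N : Fin 3 → E3 → ℝ) (h : ∀ j, MemLp (N j) 2) :
    MemLp (fun x => (WithLp.toLp 2 (fun j => N j x) : E3)) 2 := by
  have e : (fun x => (WithLp.toLp 2 (fun j => N j x) : E3)) = fun x => ∑ j, N j x • ee j := by
    funext x
    exact sum_ee _
  rw [e]
  refine memLp_finsetSum _ fun j _ => ?_
  exact (ContinuousLinearMap.toSpanSingleton ℝ (ee j)).comp_memLp' (h j)

end CptAux

open CptAux in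
/-- CPT: bounded sequences in `H²`. -/
theorem cpt_thm (_h1 : API1) (hc : CONT) (hu : CPTU) (hg : CPTG) (ha : CPTA) (hk : WEAKL)
    (hw : WH) : CPT := by
  intro u G M C hH hcont hC
  -- the single bounds
  have hsq : ∀ n, sq (u n) ≤ C := by
    intro n
    have h2 := sqv_nonneg' (G n)
    have h3 : 0 ≤ ∑ i, sqv (M n i) := Finset.sum_nonneg fun i _ => sqv_nonneg' _
    linarith [hC n]
  have hsqG : ∀ n, sqv (G n) ≤ C := by
    intro n
    have h2 := sq_nonneg' (u n)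
    have h3 : 0 ≤ ∑ i, sqv (M n i) := Finset.sum_nonneg fun i _ => sqv_nonneg' _
    linarith [hC n]
  have hsqM : ∀ n i, sqv (M n i) ≤ C := by
    intro n i
    have h2 := sq_nonneg' (u n)
    have h3 := sqv_nonneg' (G n)
    have h4 : sqv (M n i) ≤ ∑ i, sqv (M n i) :=
      Finset.single_le_sum (f := fun i => sqv (M n i)) (fun i _ => sqv_nonneg' _)
        (Finset.mem_univ i)
    linarith [hC n]
  have hGm : ∀ n, MemLp (G n) 2 := fun n => (hH n).h1.memG
  have hMm : ∀ n i, MemLp (M n i) 2 := fun n i => ((hH n).h2 i).memG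
  -- pointwise bounds
  obtain ⟨C0, hC0, hcont0⟩ := hc
  set C1 := C0 * √C with hC1
  have hb : ∀ n, (∀ x, |u n x| ≤ C1) ∧
      ∀ x y, ‖x - y‖ ≤ 1 → |u n x - u n y| ≤ C1 * ‖x - y‖ ^ (1 / 4 : ℝ) := by
    intro n
    obtain ⟨w, hwu, hw1, hw2⟩ := hcont0 (u n) (G n) (M n) (hH n)
    have hle : C0 * √(sq (u n) + sqv (G n) + ∑ i, sqv (M n i)) ≤ C1 :=
      mul_le_mul_of_nonneg_left (Real.sqrt_le_sqrt (hC n)) hC0.le
    have hwc : Continuous w := holder_cont hw2
    have heq : w = u n := (Continuous.ae_eq_iff_eq volume hwc (hcont n)).mp hwu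
    rw [heq] at hw1 hw2
    refine ⟨fun x => (hw1 x).trans hle, fun x y hxy => (hw2 x y hxy).trans ?_⟩
    exact mul_le_mul_of_nonneg_right hle (Real.rpow_nonneg (norm_nonneg _) _)
  obtain ⟨s1, v, hs1, hvc, hv⟩ := hu u C1 (fun n => (hb n).1) (fun n => (hb n).2)
  have hcau := hg (fun n => u (s1 n)) (fun n => G (s1 n)) (fun n => M (s1 n)) C v
    (fun n => hH (s1 n)) (fun n => hC (s1 n)) hv
  obtain ⟨F, s2, hF, hs2, hFl, hFa⟩ := ha (fun n => G (s1 n)) C (fun n => hGm (s1 n))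
    (fun n => hsqG (s1 n)) hcau
  set s : ℕ → ℕ := fun n => s1 (s2 n) with hs
  have hsm : StrictMono s := hs1.comp hs2
  -- convergence along the subsequence
  have hvU : ∀ K : Set E3, IsCompact K → TendstoUniformlyOn (fun n => u (s n)) v atTop K := by
    intro K hK
    have h := hv K hK
    intro W hW
    exact hs2.tendsto_atTop.eventually (h W hW)
  have hvp : ∀ x, Tendsto (fun n => u (s n) x) atTop (𝓝 (v x)) := fun x =>
    (hvU {x} isCompact_singleton).tendsto_at (Set.mem_singleton x)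
  have hFl' : ∀ K : Set E3, IsCompact K →
      Tendsto (fun n => ∫ x in K, ‖G (s n) x - F x‖ ^ 2) atTop (𝓝 0) := fun K hK =>
    (hFl K hK).comp hs2.tendsto_atTop
  have hGt : ∀ ψ : E3 → ℝ, Continuous ψ → HasCompactSupport ψ → ∀ i,
      Tendsto (fun n => ∫ x, G (s n) x i * ψ x) atTop (𝓝 (∫ x, F x i * ψ x)) :=
    fun ψ hψ hψc i => loc_tend _ F (fun n => hGm (s n)) hF hFl' ψ hψ hψc i
  -- the second derivatives
  have hweak : ∀ i j, ∃ g : E3 → ℝ, MemLp g 2 ∧ sq g ≤ C ∧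
      ∀ ψ : E3 → ℝ, MemLp ψ 2 →
        Tendsto (fun n => ∫ x, ψ x * M (s n) i x j) atTop (𝓝 (∫ x, ψ x * g x)) := by
    intro i j
    refine hk (fun n x => M (s n) i x j) C (fun n => memLp_comp _ (hMm (s n) i) j)
      (fun n => (sq_comp_le _ (hMm (s n) i) j).trans (hsqM (s n) i)) ?_
    intro ψ hψ
    refine ⟨-∫ x, F x i * pd j ψ x, ?_⟩
    have h2 := (hGt (pd j ψ) (pd_cont ψ hψ.one j) (pd_cpt ψ hψ.cpt j) i).neg
    refine h2.congr fun n => ?_
    have h3 := a1_wgrad _ _ ((hH (s n)).h2 i) ψ hψ j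
    rw [h3, neg_neg]
    refine integral_congr_ae (Filter.Eventually.of_forall fun x => ?_)
    simp only []
    ring
  choose Nij hN1 hN2 hN3 using hweak
  refine ⟨s, v, F, fun i x => WithLp.toLp 2 (fun j => Nij i j x), hsm, ?_, hvc, hvU, hFl', hFa, ?_⟩
  · have hvm : MemLp v 2 := by
      refine ⟨hvc.aestronglyMeasurable, ?_⟩
      have h2 := Lp.eLpNorm_lim_le_liminf_eLpNorm (p := 2) (μ := (volume : Measure E3))
        (fun n => (hcont (s n)).aestronglyMeasurable) v (Filter.Eventually.of_forall hvp)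
      refine lt_of_le_of_lt h2 ?_
      have h3 : ∀ n, eLpNorm (u (s n)) 2 volume ≤ ENNReal.ofReal (√C) := by
        intro n
        rw [eLpNorm_two _ (hH (s n)).h1.memf, ← sq_eq]
        exact ENNReal.ofReal_le_ofReal (Real.sqrt_le_sqrt (hsq (s n)))
      have h4 : Filter.liminf (fun n => eLpNorm (u (s n)) 2 volume) atTop
          ≤ ENNReal.ofReal (√C) := by
        have := Filter.liminf_le_liminf (f := atTop)
          (u := fun n => eLpNorm (u (s n)) 2 (volume : Measure E3))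
          (v := fun _ => ENNReal.ofReal (√C)) (Filter.Eventually.of_forall h3)
        simpa using this
      exact lt_of_le_of_lt h4 ENNReal.ofReal_lt_top
    refine ⟨hw v F hvm hF ?_, fun i => hw _ _ (memLp_comp F hF i)
      (memLp_vec (Nij i) (hN1 i)) ?_⟩
    · intro φ hφ i
      have t1 := bdd_tend (fun n => u (s n)) v C1 (fun n => (hb (s n)).1) (fun n => hcont (s n)) hvp
        (pd i φ) (pd_cont φ hφ.one i) (pd_cpt φ hφ.cpt i)
      have t2 := (hGt φ hφ.one.continuous hφ.cpt i).neg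
      refine tendsto_nhds_unique t1 (t2.congr fun n => ?_)
      exact (a1_wgrad _ _ (hH (s n)).h1 φ hφ i).symm
    · intro φ hφ j
      have t1 := hGt (pd j φ) (pd_cont φ hφ.one j) (pd_cpt φ hφ.cpt j) i
      have t2 := (hN3 i j φ (hφ.one.continuous.memLp_of_hasCompactSupport hφ.cpt)).neg
      have e : (-∫ x, φ x * Nij i j x) = -∫ x, (WithLp.toLp 2 (fun j => Nij i j x) : E3) j * φ x := by
        congr 1
        refine integral_congr_ae (Filter.Eventually.of_forall fun x => ?_)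
        simp only []
        ring
      rw [e] at t2
      refine tendsto_nhds_unique t1 (t2.congr fun n => ?_)
      rw [a1_wgrad _ _ ((hH (s n)).h2 i) φ hφ j]
      congr 1
      refine integral_congr_ae (Filter.Eventually.of_forall fun x => ?_)
      simp only []
      ring
  · intro ψ hψ i j
    exact hN3 i j ψ hψ

end Pool.Agent.PFlow.PB


end

section

/-!
# Difference quotients on the whole space (module DQ)
-/

open MeasureTheory Filter Topology Set
open scoped ContDiff RealInnerProductSpace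

namespace Pool.Agent.PFlow.PB

open Pool.Agent.PenroseSph Pool.Agent.PFlow

namespace DQm

theorem int_inner {F D : E3 → E3} (hF : MemLp F 2) (hD : MemLp D 2) :
    Integrable (fun x => ⟪F x, D x⟫) := by
  have h1 : Integrable (fun x => ‖F x‖ * ‖D x‖) := hF.norm.integrable_mul hD.norm
  refine h1.mono' (hF.aestronglyMeasurable.inner hD.aestronglyMeasurable)
    (Eventually.of_forall fun x => ?_)
  exact norm_inner_le_norm _ _

theorem memLp_shift {E : Type*} [NormedAddCommGroup E] {F : E3 → E} (hF : MemLp F 2) (h : E3) :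
    MemLp (fun x => F (x + h)) 2 :=
  hF.comp_measurePreserving (measurePreserving_add_right volume h)

theorem int_sq {F : E3 → E3} (hF : MemLp F 2) : Integrable (fun x => ‖F x‖ ^ 2) :=
  hF.integrable_norm_pow (by norm_num)

end DQm

open DQm

theorem dq_thm (h1 : API1) (h2 : API2) : DQ := by
  intro A B c L r hC u G f hu hf heq h
  by_cases hh : h = 0
  · subst hh
    simp [sqv]
  have hc := hC.c_pos
  have hL : 0 < L := lt_of_lt_of_le hc hC.c_le
  have hhn : 0 < ‖h‖ := norm_pos_iff.2 hh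
  set D : E3 → ℝ := fun x => u (x + h) - u x with hDdef
  set DG : E3 → E3 := fun x => G (x + h) - G x with hDGdef
  have hD : H1 D DG := h1.sub _ _ _ _ (h2.shift u G hu h) hu
  have hDs : H1 (fun x => D (x + -h)) (fun x => DG (x + -h)) := h2.shift D DG hD (-h)
  have hφ : H1 (fun x => D (x + -h) - D x) (fun x => DG (x + -h) - DG x) :=
    h1.sub _ _ _ _ hDs hD
  have key := heq _ _ hφ
  have tr := h2.trans D DG hD (-h)
  rw [norm_neg] at tr
  -- the function A x (G x)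
  have hAn : ∀ x ξ, ‖A x ξ‖ ≤ L * ‖ξ‖ := by
    intro x ξ
    have := hC.lipA x ξ 0
    rw [hC.A_zero x, sub_zero, sub_zero] at this
    exact this
  have hAc : Continuous (fun z : E3 × E3 => A z.1 z.2) := hC.smoothA.continuous
  have mG := hu.memG
  have mA : MemLp (fun x => A x (G x)) 2 := by
    refine mG.of_le_mul (c := L) ?_ (Eventually.of_forall fun x => hAn x (G x))
    exact hAc.comp_aestronglyMeasurable
      (aestronglyMeasurable_id.prodMk mG.aestronglyMeasurable)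
  have mGs : MemLp (fun x => G (x + h)) 2 := memLp_shift mG h
  have mAs : MemLp (fun x => A (x + h) (G (x + h))) 2 := memLp_shift mA h
  have mAm : MemLp (fun x => A x (G (x + h))) 2 := by
    refine mGs.of_le_mul (c := L) ?_ (Eventually.of_forall fun x => hAn x _)
    exact hAc.comp_aestronglyMeasurable
      (aestronglyMeasurable_id.prodMk mGs.aestronglyMeasurable)
  have mDG : MemLp DG 2 := hD.memG
  -- the left side
  have e1 : ∫ x, ⟪A x (G x), DG (x + -h) - DG x⟫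
      = ∫ x, ⟪A (x + h) (G (x + h)) - A x (G x), DG x⟫ := by
    have f1 : ∫ x, ⟪A x (G x), DG (x + -h) - DG x⟫
        = (∫ x, ⟪A x (G x), DG (x + -h)⟫) - ∫ x, ⟪A x (G x), DG x⟫ := by
      rw [← integral_sub (int_inner mA hDs.memG) (int_inner mA mDG)]
      refine integral_congr_ae (Eventually.of_forall fun x => ?_)
      exact inner_sub_right _ _ _
    have f2 : ∫ x, ⟪A x (G x), DG (x + -h)⟫ = ∫ x, ⟪A (x + h) (G (x + h)), DG x⟫ := by
      rw [← integral_add_right_eq_self (fun x => ⟪A x (G x), DG (x + -h)⟫) h]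
      refine integral_congr_ae (Eventually.of_forall fun x => ?_)
      simp only [add_neg_cancel_right]
    rw [f1, f2, ← integral_sub (int_inner mAs mDG) (int_inner mA mDG)]
    refine integral_congr_ae (Eventually.of_forall fun x => ?_)
    exact (inner_sub_left _ _ _).symm
  rw [e1] at key
  -- lower bound of the left side
  have iDG : Integrable (fun x => ‖DG x‖ ^ 2) := _root_.Pool.Agent.PFlow.PB.DQm.int_sq mDG
  have iGs : Integrable (fun x => ‖G (x + h)‖ ^ 2) := _root_.Pool.Agent.PFlow.PB.DQm.int_sq mGs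
  have low : ∀ x, (3 * c / 4) * ‖DG x‖ ^ 2 - (L ^ 2 * ‖h‖ ^ 2 / c) * ‖G (x + h)‖ ^ 2
      ≤ ⟪A (x + h) (G (x + h)) - A x (G x), DG x⟫ := by
    intro x
    have s1 : A (x + h) (G (x + h)) - A x (G x)
        = (A (x + h) (G (x + h)) - A x (G (x + h))) + (A x (G (x + h)) - A x (G x)) := by abel
    rw [s1, inner_add_left]
    have m1 := hC.mono x (G (x + h)) (G x)
    have m2 : -(‖A (x + h) (G (x + h)) - A x (G (x + h))‖ * ‖DG x‖)
        ≤ ⟪A (x + h) (G (x + h)) - A x (G (x + h)), DG x⟫ := by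
      have := abs_real_inner_le_norm (A (x + h) (G (x + h)) - A x (G (x + h))) (DG x)
      have h3 := neg_abs_le ⟪A (x + h) (G (x + h)) - A x (G (x + h)), DG x⟫
      linarith
    have m3 : ‖A (x + h) (G (x + h)) - A x (G (x + h))‖ ≤ L * ‖h‖ * ‖G (x + h)‖ := by
      have := hC.lipx (x + h) x (G (x + h))
      rwa [add_sub_cancel_left] at this
    have m4 : ‖A (x + h) (G (x + h)) - A x (G (x + h))‖ * ‖DG x‖
        ≤ (L * ‖h‖ * ‖G (x + h)‖) * ‖DG x‖ := mul_le_mul_of_nonneg_right m3 (norm_nonneg _)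
    have m5 : (L * ‖h‖ * ‖G (x + h)‖) * ‖DG x‖
        ≤ (L ^ 2 * ‖h‖ ^ 2 / c) * ‖G (x + h)‖ ^ 2 + (c / 4) * ‖DG x‖ ^ 2 := by
      have q : 0 ≤ (L * ‖h‖ * ‖G (x + h)‖ - c / 2 * ‖DG x‖) ^ 2 / c := by positivity
      have q2 : (L * ‖h‖ * ‖G (x + h)‖ - c / 2 * ‖DG x‖) ^ 2 / c
          = (L ^ 2 * ‖h‖ ^ 2 / c) * ‖G (x + h)‖ ^ 2 - (L * ‖h‖ * ‖G (x + h)‖) * ‖DG x‖
            + (c / 4) * ‖DG x‖ ^ 2 := by
        field_simp
        ring
      rw [q2] at q
      linarith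
    have m6 : c * ‖DG x‖ ^ 2 ≤ ⟪A x (G (x + h)) - A x (G x), DG x⟫ := m1
    linarith
  have lowi : (3 * c / 4) * sqv DG - (L ^ 2 * ‖h‖ ^ 2 / c) * sqv G
      ≤ ∫ x, ⟪A (x + h) (G (x + h)) - A x (G x), DG x⟫ := by
    have g1 : sqv G = ∫ x, ‖G (x + h)‖ ^ 2 :=
      (integral_add_right_eq_self (fun x => ‖G x‖ ^ 2) h).symm
    rw [g1]
    unfold sqv
    rw [← integral_const_mul, ← integral_const_mul,
      ← integral_sub (iDG.const_mul _) (iGs.const_mul _)]
    exact integral_mono ((iDG.const_mul _).sub (iGs.const_mul _))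
      (int_inner (mAs.sub mA) mDG) low
  -- upper bound of the right side
  have mφ : MemLp (fun x => D (x + -h) - D x) 2 := hφ.memf
  have ifs : Integrable (fun x => f x ^ 2) := hf.integrable_sq
  have iφs : Integrable (fun x => (D (x + -h) - D x) ^ 2) := mφ.integrable_sq
  have upi : ∫ x, f x * (D (x + -h) - D x) ≤ (‖h‖ ^ 2 / c) * sq f + (c / 4) * sqv DG := by
    have g1 : ∫ x, f x * (D (x + -h) - D x)
        ≤ ∫ x, ((‖h‖ ^ 2 / c) * f x ^ 2 + (c / (4 * ‖h‖ ^ 2)) * (D (x + -h) - D x) ^ 2) := by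
      refine integral_mono (hf.integrable_mul mφ) ((ifs.const_mul _).add (iφs.const_mul _)) ?_
      intro x
      simp only
      have q : 0 ≤ (‖h‖ ^ 2 * f x - c / 2 * (D (x + -h) - D x)) ^ 2 / (c * ‖h‖ ^ 2) := by
        positivity
      have q2 : (‖h‖ ^ 2 * f x - c / 2 * (D (x + -h) - D x)) ^ 2 / (c * ‖h‖ ^ 2)
          = (‖h‖ ^ 2 / c) * f x ^ 2 - f x * (D (x + -h) - D x)
            + (c / (4 * ‖h‖ ^ 2)) * (D (x + -h) - D x) ^ 2 := by
        field_simp
        ring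
      rw [q2] at q
      linarith
    rw [integral_add (ifs.const_mul _) (iφs.const_mul _), integral_const_mul,
      integral_const_mul] at g1
    have g2 : (c / (4 * ‖h‖ ^ 2)) * (∫ x, (D (x + -h) - D x) ^ 2)
        ≤ (c / (4 * ‖h‖ ^ 2)) * (‖h‖ ^ 2 * sqv DG) :=
      mul_le_mul_of_nonneg_left tr (by positivity)
    have g3 : (c / (4 * ‖h‖ ^ 2)) * (‖h‖ ^ 2 * sqv DG) = (c / 4) * sqv DG := by
      field_simp
    rw [g3] at g2
    exact g1.trans (add_le_add le_rfl g2)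
  rw [key] at lowi
  have fin : (c / 2) * sqv DG ≤ (‖h‖ ^ 2 / c) * (L ^ 2 * sqv G + sq f) := by
    have e2 : (L ^ 2 * ‖h‖ ^ 2 / c) * sqv G = (‖h‖ ^ 2 / c) * (L ^ 2 * sqv G) := by ring
    rw [e2] at lowi
    have := lowi.trans upi
    linarith
  have e3 : (2 * L ^ 2 * sqv G + 2 * sq f) / c ^ 2 * ‖h‖ ^ 2
      = (2 / c) * ((‖h‖ ^ 2 / c) * (L ^ 2 * sqv G + sq f)) := by
    field_simp
  have e4 : sqv DG = (2 / c) * ((c / 2) * sqv DG) := by
    field_simp
  change sqv DG ≤ _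
  rw [e3, e4]
  exact mul_le_mul_of_nonneg_left fin (by positivity)

end Pool.Agent.PFlow.PB


end
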