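import Mathlib
import Pool.Agent.PFlow.StmtsE2
import Pool.Agent.PFlow.StmtsM
import Pool.Agent.PenroseM.C01
import Pool.Agent.PenroseM.C05
import Pool.Agent.PenroseM.C06

/-! Parts: PFlow.K.KCUT, PFlow.P.Cont, PFlow.M_L4, PFlow.M_MO, PFlow.E.LE2 -/

section

/-!
# KCUT: cut-off functions
-/

open MeasureTheory Filter Topology
open scoped ContDiff

namespace Pool.Agent.PFlow

open Pool.Agent.PenroseSph

namespace KCUT

/-- the function `(t_+)^m` -/
noncomputable def sp (m : ℕ) (t : ℝ) : ℝ := (max t 0) ^ m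

lemma sp_of_nonpos {m : ℕ} (hm : m ≠ 0) {t : ℝ} (ht : t ≤ 0) : sp m t = 0 := by
  rw [sp, max_eq_right ht, zero_pow hm]

lemma sp_of_nonneg {m : ℕ} {t : ℝ} (ht : 0 ≤ t) : sp m t = t ^ m := by
  rw [sp, max_eq_left ht]

lemma sp_nonneg (m : ℕ) (t : ℝ) : 0 ≤ sp m t := pow_nonneg (le_max_right _ _) _

lemma continuous_sp (m : ℕ) : Continuous (sp m) := by
  unfold sp
  fun_prop

lemma hasDerivAt_sp {m : ℕ} (hm : 2 ≤ m) (t : ℝ) :
    HasDerivAt (sp m) (m * sp (m - 1) t) t := by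
  rcases lt_trichotomy t 0 with ht | ht | ht
  · rw [sp_of_nonpos (by omega) ht.le, mul_zero]
    refine (hasDerivAt_const t (0 : ℝ)).congr_of_eventuallyEq ?_
    filter_upwards [eventually_lt_nhds ht] with s hs
    exact sp_of_nonpos (by omega) hs.le
  · subst ht
    rw [sp_of_nonpos (by omega) le_rfl, mul_zero, hasDerivAt_iff_isLittleO_nhds_zero]
    have h1 : (fun h : ℝ => sp m (0 + h) - sp m 0 - h • (0 : ℝ)) = fun h => sp m h := by
      funext h
      rw [zero_add, sp_of_nonpos (by omega) (le_refl (0 : ℝ)), sub_zero, smul_zero, sub_zero]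
    rw [h1]
    have h2 : (fun h : ℝ => sp m h) =O[𝓝 0] (fun h : ℝ => h ^ m) := by
      refine Asymptotics.IsBigO.of_bound 1 (Eventually.of_forall fun h => ?_)
      rw [one_mul, Real.norm_eq_abs, Real.norm_eq_abs, abs_of_nonneg (sp_nonneg m h), abs_pow, sp]
      refine pow_le_pow_left₀ (le_max_right _ _) ?_ m
      exact max_le (le_abs_self h) (abs_nonneg h)
    exact h2.trans_isLittleO (Asymptotics.isLittleO_pow_id (by omega))
  · rw [sp_of_nonneg ht.le]
    refine (hasDerivAt_pow m t).congr_of_eventuallyEq ?_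
    filter_upwards [eventually_gt_nhds ht] with s hs
    exact sp_of_nonneg hs.le

section

variable (m : ℕ) (a b : ℝ)

/-- the weight -/
noncomputable def wt (t : ℝ) : ℝ := sp m ((t - a) / (b - a)) * sp m ((b - t) / (b - a))

/-- the derivative of the weight -/
noncomputable def wt' (t : ℝ) : ℝ :=
  m / (b - a) * (sp (m - 1) ((t - a) / (b - a)) * sp m ((b - t) / (b - a)) -
    sp m ((t - a) / (b - a)) * sp (m - 1) ((b - t) / (b - a)))

variable {m a b}

lemma continuous_wt : Continuous (wt m a b) := by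
  unfold wt
  have := continuous_sp m
  fun_prop

lemma continuous_wt' : Continuous (wt' m a b) := by
  unfold wt'
  have := continuous_sp m
  have := continuous_sp (m - 1)
  fun_prop

lemma hasDerivAt_wt (hm : 2 ≤ m) (t : ℝ) : HasDerivAt (wt m a b) (wt' m a b t) t := by
  have h1 : HasDerivAt (fun t : ℝ => (t - a) / (b - a)) (1 / (b - a)) t :=
    ((hasDerivAt_id t).sub_const a).div_const (b - a)
  have h2 : HasDerivAt (fun t : ℝ => (b - t) / (b - a)) (-1 / (b - a)) t :=
    ((hasDerivAt_id t).const_sub b).div_const (b - a)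
  have h3 := (hasDerivAt_sp hm ((t - a) / (b - a))).comp t h1
  have h4 := (hasDerivAt_sp hm ((b - t) / (b - a))).comp t h2
  have h5 := h3.mul h4
  refine h5.congr_deriv ?_
  simp only [wt', Function.comp]
  ring

lemma wt_nonneg (t : ℝ) : 0 ≤ wt m a b t := mul_nonneg (sp_nonneg _ _) (sp_nonneg _ _)

lemma wt_of_le (hm : m ≠ 0) (hab : a < b) {t : ℝ} (ht : t ≤ a) : wt m a b t = 0 := by
  rw [wt, sp_of_nonpos hm (div_nonpos_of_nonpos_of_nonneg (by linarith) (by linarith)), zero_mul]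

lemma wt_of_ge (hm : m ≠ 0) (hab : a < b) {t : ℝ} (ht : b ≤ t) : wt m a b t = 0 := by
  rw [wt, sp_of_nonpos hm (t := (b - t) / (b - a))
    (div_nonpos_of_nonpos_of_nonneg (by linarith) (by linarith)), mul_zero]

lemma wt'_of_le (hm : 2 ≤ m) (hab : a < b) {t : ℝ} (ht : t ≤ a) : wt' m a b t = 0 := by
  have h : (t - a) / (b - a) ≤ 0 := div_nonpos_of_nonpos_of_nonneg (by linarith) (by linarith)
  rw [wt', sp_of_nonpos (by omega) h, sp_of_nonpos (by omega) h]
  ring

lemma wt'_of_ge (hm : 2 ≤ m) (hab : a < b) {t : ℝ} (ht : b ≤ t) : wt' m a b t = 0 := by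
  have h : (b - t) / (b - a) ≤ 0 := div_nonpos_of_nonpos_of_nonneg (by linarith) (by linarith)
  rw [wt', sp_of_nonpos (by omega) h, sp_of_nonpos (by omega) h]
  ring

/-- the weight and its derivative inside the interval -/
lemma inside (hm : 2 ≤ m) {t : ℝ} (h1 : a < t) (h2 : t < b) :
    ∃ p : ℝ, 0 < p ∧ p ≤ 1 ∧ wt m a b t = p ^ m ∧ |wt' m a b t| ≤ m / (b - a) * p ^ (m - 1) := by
  have hba : 0 < b - a := by linarith
  set u := (t - a) / (b - a) with hu
  set v := (b - t) / (b - a) with hv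
  have hu0 : 0 < u := div_pos (by linarith) hba
  have hv0 : 0 < v := div_pos (by linarith) hba
  have huv : u + v = 1 := by
    rw [hu, hv]; field_simp; ring
  refine ⟨u * v, mul_pos hu0 hv0, ?_, ?_, ?_⟩
  · nlinarith
  · rw [wt, ← hu, ← hv, sp_of_nonneg hu0.le, sp_of_nonneg hv0.le, mul_pow]
  · have e : wt' m a b t = m / (b - a) * (u * v) ^ (m - 1) * (v - u) := by
      rw [wt', ← hu, ← hv, sp_of_nonneg hu0.le, sp_of_nonneg hv0.le, sp_of_nonneg hu0.le,
        sp_of_nonneg hv0.le]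
      obtain ⟨k, rfl⟩ : ∃ k, m = k + 1 := ⟨m - 1, by omega⟩
      rw [Nat.add_sub_cancel, pow_succ u k, pow_succ v k, mul_pow]
      ring
    rw [e, abs_mul, abs_of_nonneg (by positivity)]
    have h3 : |v - u| ≤ 1 := by
      rw [abs_le]; constructor <;> linarith
    calc (m : ℝ) / (b - a) * (u * v) ^ (m - 1) * |v - u|
        ≤ (m : ℝ) / (b - a) * (u * v) ^ (m - 1) * 1 :=
          mul_le_mul_of_nonneg_left h3 (by positivity)
      _ = _ := mul_one _

/-- the total mass -/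
noncomputable def tot (m : ℕ) (a b : ℝ) : ℝ := ∫ s in a..b, wt m a b s

lemma tot_pos (hm : 2 ≤ m) (hab : a < b) : 0 < tot m a b := by
  refine intervalIntegral.intervalIntegral_pos_of_pos_on
    (continuous_wt.intervalIntegrable _ _) ?_ hab
  intro t ht
  obtain ⟨p, hp, -, h, -⟩ := inside hm ht.1 ht.2
  rw [h]
  positivity

/-- the profile -/
noncomputable def phi (m : ℕ) (a b t : ℝ) : ℝ := (∫ s in t..b, wt m a b s) / tot m a b

lemma hasDerivAt_phi (t : ℝ) : HasDerivAt (phi m a b) (-wt m a b t / tot m a b) t := by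
  have h : HasDerivAt (fun u => ∫ s in u..b, wt m a b s) (-wt m a b t) t :=
    intervalIntegral.integral_hasDerivAt_left (continuous_wt.intervalIntegrable _ _)
      (continuous_wt.stronglyMeasurableAtFilter _ _) continuous_wt.continuousAt
  exact h.div_const _

lemma phi_of_le (hm : 2 ≤ m) (hab : a < b) {t : ℝ} (ht : t ≤ a) : phi m a b t = 1 := by
  have h1 : (∫ s in t..b, wt m a b s) = (∫ s in t..a, wt m a b s) + ∫ s in a..b, wt m a b s :=
    (intervalIntegral.integral_add_adjacent_intervals (continuous_wt.intervalIntegrable _ _)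
      (continuous_wt.intervalIntegrable _ _)).symm
  have h2 : (∫ s in t..a, wt m a b s) = 0 := by
    have : (∫ s in t..a, wt m a b s) = ∫ s in t..a, (0 : ℝ) := by
      refine intervalIntegral.integral_congr fun s hs => ?_
      rw [Set.uIcc_of_le ht] at hs
      exact wt_of_le (by omega) hab hs.2
    rw [this, intervalIntegral.integral_zero]
  rw [phi, h1, h2, zero_add]
  exact div_self (tot_pos hm hab).ne'

lemma phi_of_ge (hm : 2 ≤ m) (hab : a < b) {t : ℝ} (ht : b ≤ t) : phi m a b t = 0 := by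
  have h2 : (∫ s in t..b, wt m a b s) = 0 := by
    have : (∫ s in t..b, wt m a b s) = ∫ s in t..b, (0 : ℝ) := by
      refine intervalIntegral.integral_congr fun s hs => ?_
      rw [Set.uIcc_of_ge ht] at hs
      exact wt_of_ge (by omega) hab hs.1
    rw [this, intervalIntegral.integral_zero]
  rw [phi, h2, zero_div]

lemma phi_mem (hm : 2 ≤ m) (hab : a < b) (t : ℝ) : 0 ≤ phi m a b t ∧ phi m a b t ≤ 1 := by
  have hI := tot_pos hm hab
  rcases le_or_gt t a with h | h
  · rw [phi_of_le hm hab h]; norm_num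
  · rcases le_or_gt b t with h' | h'
    · rw [phi_of_ge hm hab h']; norm_num
    · have h1 : 0 ≤ ∫ s in t..b, wt m a b s :=
        intervalIntegral.integral_nonneg h'.le fun s _ => wt_nonneg s
      have h2 : 0 ≤ ∫ s in a..t, wt m a b s :=
        intervalIntegral.integral_nonneg h.le fun s _ => wt_nonneg s
      have h3 : tot m a b = (∫ s in a..t, wt m a b s) + ∫ s in t..b, wt m a b s :=
        (intervalIntegral.integral_add_adjacent_intervals (continuous_wt.intervalIntegrable _ _)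
          (continuous_wt.intervalIntegrable _ _)).symm
      refine ⟨div_nonneg h1 hI.le, ?_⟩
      rw [phi, div_le_one hI]
      linarith

lemma deriv_phi : deriv (phi m a b) = fun t => -wt m a b t / tot m a b := by
  funext t
  exact (hasDerivAt_phi t).deriv

lemma contDiff_wt (hm : 2 ≤ m) : ContDiff ℝ 1 (wt m a b) := by
  rw [contDiff_one_iff_deriv]
  refine ⟨fun t => (hasDerivAt_wt hm t).differentiableAt, ?_⟩
  have : deriv (wt m a b) = wt' m a b := by
    funext t
    exact (hasDerivAt_wt hm t).deriv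
  rw [this]
  exact continuous_wt'

lemma contDiff_phi (hm : 2 ≤ m) : ContDiff ℝ 2 (phi m a b) := by
  have h : ContDiff ℝ (1 + 1) (phi m a b) := by
    rw [contDiff_succ_iff_deriv]
    refine ⟨fun t => (hasDerivAt_phi t).differentiableAt, ?_, ?_⟩
    · intro h
      exact absurd h (by decide)
    · rw [deriv_phi]
      exact (contDiff_wt hm).neg.div_const _
  have e : ((1 : WithTop ℕ∞) + 1) = 2 := one_add_one_eq_two
  rwa [e] at h

end

/-! ### The function on the space -/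

lemma inner_single (x : E3) (i : Fin 3) : inner ℝ x (EuclideanSpace.single i (1 : ℝ)) = x i := by
  rw [EuclideanSpace.inner_single_right]
  simp

lemma pd_comp_sq {F : ℝ → ℝ} {F' : ℝ} (x : E3) (i : Fin 3) (hF : HasDerivAt F F' (‖x‖ ^ 2)) :
    pd i (fun y : E3 => F (‖y‖ ^ 2)) x = F' * (2 * x i) := by
  have h1 : HasFDerivAt (fun y : E3 => ‖y‖ ^ 2) (2 • innerSL ℝ x) x :=
    (hasStrictFDerivAt_norm_sq x).hasFDerivAt
  have h2 := hF.comp_hasFDerivAt x h1
  have h3 : (fun y : E3 => F (‖y‖ ^ 2)) = F ∘ fun y : E3 => ‖y‖ ^ 2 := rfl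
  rw [pd, h3, h2.fderiv]
  simp only [ContinuousLinearMap.smul_apply, innerSL_apply_apply, inner_single, smul_eq_mul,
    nsmul_eq_mul, Nat.cast_ofNat]

lemma norm_vec_sq (p : Cov) : ‖vec p‖ ^ 2 = ∑ i, p i ^ 2 := by
  rw [EuclideanSpace.norm_sq_eq]
  refine Finset.sum_congr rfl fun i _ => ?_
  rw [Real.norm_eq_abs, sq_abs]

lemma norm_vec_smul (c : ℝ) (x : E3) : ‖vec (fun i => c * x i)‖ = |c| * ‖x‖ := by
  have h : vec (fun i => c * x i) = c • x := by
    ext i
    rfl
  rw [h, norm_smul, Real.norm_eq_abs]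

lemma abs_coord_le (x : E3) (i : Fin 3) : |x i| ≤ ‖x‖ := by
  rw [← Real.norm_eq_abs]
  exact PiLp.norm_apply_le x i

lemma pd_coord_mul {G : E3 → ℝ} (x : E3) (i j : Fin 3) (hG : DifferentiableAt ℝ G x) :
    pd i (fun y : E3 => G y * (2 * y j)) x =
      pd i G x * (2 * x j) + G x * (2 * if i = j then 1 else 0) := by
  have h1 : HasFDerivAt (fun y : E3 => 2 * y j)
      ((2 : ℝ) • (EuclideanSpace.proj j : E3 →L[ℝ] ℝ)) x := by
    have := (EuclideanSpace.proj j : E3 →L[ℝ] ℝ).hasFDerivAt (x := x)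
    exact this.const_mul 2
  have h2 : HasFDerivAt (fun y : E3 => G y * (2 * y j))
      (G x • ((2 : ℝ) • (EuclideanSpace.proj j : E3 →L[ℝ] ℝ)) + (2 * x j) • fderiv ℝ G x) x :=
    hG.hasFDerivAt.mul h1
  rw [pd, h2.fderiv]
  show G x * (2 * (EuclideanSpace.single i (1 : ℝ) : E3) j) +
    (2 * x j) * fderiv ℝ G x (EuclideanSpace.single i 1) =
    fderiv ℝ G x (EuclideanSpace.single i 1) * (2 * x j) + G x * (2 * if i = j then 1 else 0)
  by_cases h : i = j
  · subst h
    have : (EuclideanSpace.single i (1 : ℝ) : E3) i = 1 := by simp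
    rw [this, if_pos rfl]
    ring
  · have : (EuclideanSpace.single i (1 : ℝ) : E3) j = 0 := by
      simp [Ne.symm h]
    rw [this, if_neg h]
    ring

end KCUT

open KCUT in
theorem KCUT_thm : KCUT := by
  intro ε r₁ r₂ hε hε1 hr₁ hr₂
  obtain ⟨m, hm2, hmε⟩ : ∃ m : ℕ, 2 ≤ m ∧ 1 ≤ m * ε := by
    obtain ⟨k, hk⟩ := exists_nat_ge (1 / ε)
    refine ⟨k + 2, by omega, ?_⟩
    rw [div_le_iff₀ hε] at hk
    push_cast
    nlinarith
  set a : ℝ := r₁ ^ 2 with ha
  set b : ℝ := r₂ ^ 2 with hb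
  have hab : a < b := by
    rw [ha, hb]
    exact pow_lt_pow_left₀ hr₂ hr₁.le two_ne_zero
  have hba : 0 < b - a := by linarith
  set I := tot m a b with hI
  have hIpos : 0 < I := tot_pos hm2 hab
  have hgrad : ∀ x : E3, grad (fun y : E3 => phi m a b (‖y‖ ^ 2)) x =
      fun i => (-wt m a b (‖x‖ ^ 2) / I * 2) * x i := by
    intro x
    funext i
    rw [grad, pd_comp_sq x i (hasDerivAt_phi _)]
    ring
  have hnorm : ∀ x : E3, ‖vec (grad (fun y : E3 => phi m a b (‖y‖ ^ 2)) x)‖ =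
      2 * (wt m a b (‖x‖ ^ 2) / I) * ‖x‖ := by
    intro x
    rw [hgrad x, norm_vec_smul]
    congr 1
    have h1 : -wt m a b (‖x‖ ^ 2) / I * 2 = -(2 * (wt m a b (‖x‖ ^ 2) / I)) := by ring
    rw [h1, abs_neg, abs_of_nonneg]
    have := wt_nonneg (m := m) (a := a) (b := b) (‖x‖ ^ 2)
    positivity
  have hhess : ∀ (x : E3) (i j : Fin 3), hess2 (fun y : E3 => phi m a b (‖y‖ ^ 2)) x i j =
      -wt' m a b (‖x‖ ^ 2) / I * (2 * x i) * (2 * x j) +
        -wt m a b (‖x‖ ^ 2) / I * (2 * if i = j then 1 else 0) := by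
    intro x i j
    have h1 : pd j (fun y : E3 => phi m a b (‖y‖ ^ 2)) =
        fun y : E3 => (fun z : E3 => -wt m a b (‖z‖ ^ 2) / I) y * (2 * y j) := by
      funext y
      rw [pd_comp_sq y j (hasDerivAt_phi _)]
    have h2 : HasDerivAt (fun t => -wt m a b t / I) (-wt' m a b (‖x‖ ^ 2) / I) (‖x‖ ^ 2) :=
      ((hasDerivAt_wt hm2 _).neg).div_const I
    have h3 : DifferentiableAt ℝ (fun z : E3 => -wt m a b (‖z‖ ^ 2) / I) x := by
      have h4 : HasFDerivAt (fun y : E3 => ‖y‖ ^ 2) (2 • innerSL ℝ x) x :=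
        (hasStrictFDerivAt_norm_sq x).hasFDerivAt
      exact (h2.comp_hasFDerivAt x h4).differentiableAt
    show pd i (pd j (fun y : E3 => phi m a b (‖y‖ ^ 2))) x = _
    rw [h1, pd_coord_mul x i j h3, pd_comp_sq x i h2]
  -- the constants
  set M : ℝ := 4 * b * (m / (b - a)) / I + 2 / I with hM
  have hM0 : 0 ≤ M := by
    rw [hM]
    have : 0 < b := lt_of_le_of_lt (by positivity) hab
    positivity
  set c : ℝ := (2 * (r₁ / I)) ^ (1 - ε) with hc
  have hc0 : 0 < c := Real.rpow_pos_of_pos (by positivity) _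
  have hMc : 0 ≤ M / c := by positivity
  have hr2I : 0 ≤ 2 * (1 / I) * r₂ := by
    have : 0 < r₂ := hr₁.trans hr₂
    positivity
  refine ⟨fun y : E3 => phi m a b (‖y‖ ^ 2), 2 * (1 / I) * r₂ + M / c, ?_, ?_, ?_, ?_, ?_, ?_⟩
  · exact (contDiff_phi hm2).comp (contDiff_norm_sq ℝ)
  · intro x
    exact phi_mem hm2 hab _
  · intro x hx
    exact phi_of_le hm2 hab (pow_le_pow_left₀ (norm_nonneg x) hx 2)
  · intro x hx
    exact phi_of_ge hm2 hab (pow_le_pow_left₀ (hr₁.trans hr₂).le hx 2)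
  · intro x
    rw [hnorm x]
    rcases le_or_gt (‖x‖ ^ 2) a with h | h
    · rw [wt_of_le (by omega) hab h, zero_div, mul_zero, zero_mul]
      linarith
    · rcases le_or_gt b (‖x‖ ^ 2) with h' | h'
      · rw [wt_of_ge (by omega) hab h', zero_div, mul_zero, zero_mul]
        linarith
      · obtain ⟨p, hp0, hp1, hw, -⟩ := inside hm2 h h'
        have h1 : wt m a b (‖x‖ ^ 2) ≤ 1 := by
          rw [hw]
          exact pow_le_one₀ hp0.le hp1
        have h2 : ‖x‖ ≤ r₂ := by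
          have : ‖x‖ ^ 2 ≤ r₂ ^ 2 := h'.le
          exact (pow_le_pow_iff_left₀ (norm_nonneg x) (hr₁.trans hr₂).le two_ne_zero).1 this
        have h3 : 2 * (wt m a b (‖x‖ ^ 2) / I) * ‖x‖ ≤ 2 * (1 / I) * r₂ := by
          have h0 := wt_nonneg (m := m) (a := a) (b := b) (‖x‖ ^ 2)
          gcongr
        linarith
  · intro x i j
    rw [hhess x i j, hnorm x]
    rcases le_or_gt (‖x‖ ^ 2) a with h | h
    · rw [wt_of_le (by omega) hab h, wt'_of_le hm2 hab h]
      simp only [neg_zero, zero_div, zero_mul, add_zero, abs_zero, mul_zero]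
      have : (0 : ℝ) ≤ 0 ^ (1 - ε) := Real.rpow_nonneg le_rfl _
      positivity
    · rcases le_or_gt b (‖x‖ ^ 2) with h' | h'
      · rw [wt_of_ge (by omega) hab h', wt'_of_ge hm2 hab h']
        simp only [neg_zero, zero_div, zero_mul, add_zero, abs_zero, mul_zero]
        have : (0 : ℝ) ≤ 0 ^ (1 - ε) := Real.rpow_nonneg le_rfl _
        positivity
      · obtain ⟨p, hp0, hp1, hw, hw'⟩ := inside hm2 h h'
        have hwpos : 0 < wt m a b (‖x‖ ^ 2) := by rw [hw]; positivity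
        have hr : r₁ ≤ ‖x‖ := by
          have : r₁ ^ 2 ≤ ‖x‖ ^ 2 := h.le
          exact (pow_le_pow_iff_left₀ hr₁.le (norm_nonneg x) two_ne_zero).1 this
        -- `p^(m-1)` and `p^m` are at most `w^(1-ε)`
        set w := wt m a b (‖x‖ ^ 2) with hwdef
        have hw1 : w ≤ 1 := by
          rw [hw]
          exact pow_le_one₀ hp0.le hp1
        have e1 : p ^ (m - 1) ≤ w ^ (1 - ε) := by
          rw [hw, ← Real.rpow_natCast p m, ← Real.rpow_mul hp0.le, ← Real.rpow_natCast p (m - 1)]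
          refine Real.rpow_le_rpow_of_exponent_ge hp0 hp1 ?_
          rw [Nat.cast_sub (by omega)]
          push_cast
          nlinarith
        have e2 : w ≤ w ^ (1 - ε) := by
          conv_lhs => rw [← Real.rpow_one w]
          exact Real.rpow_le_rpow_of_exponent_ge hwpos hw1 (by linarith)
        have e3 : c * w ^ (1 - ε) ≤ (2 * (w / I) * ‖x‖) ^ (1 - ε) := by
          rw [hc, ← Real.mul_rpow (by positivity) hwpos.le]
          refine Real.rpow_le_rpow (by positivity) ?_ (by linarith)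
          calc 2 * (r₁ / I) * w = 2 * (w / I) * r₁ := by ring
            _ ≤ 2 * (w / I) * ‖x‖ := by gcongr
        have e4 : |(-wt' m a b (‖x‖ ^ 2) / I * (2 * x i) * (2 * x j) +
            -w / I * (2 * if i = j then 1 else 0))| ≤ M * w ^ (1 - ε) := by
          have f1 : |x i| * |x j| ≤ b := by
            calc |x i| * |x j| ≤ ‖x‖ * ‖x‖ :=
                  mul_le_mul (abs_coord_le x i) (abs_coord_le x j) (abs_nonneg _) (norm_nonneg x)
              _ = ‖x‖ ^ 2 := by ring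
              _ ≤ b := h'.le
          have f2 : |(-wt' m a b (‖x‖ ^ 2) / I * (2 * x i) * (2 * x j))| ≤
              4 * b * (m / (b - a)) / I * w ^ (1 - ε) := by
            have f3 : |(-wt' m a b (‖x‖ ^ 2) / I * (2 * x i) * (2 * x j))| =
                4 / I * |wt' m a b (‖x‖ ^ 2)| * (|x i| * |x j|) := by
              rw [abs_mul, abs_mul, abs_div, abs_neg, abs_mul, abs_mul, abs_of_pos hIpos,
                abs_of_pos (by norm_num : (0 : ℝ) < 2)]
              ring
            rw [f3]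
            calc 4 / I * |wt' m a b (‖x‖ ^ 2)| * (|x i| * |x j|)
                ≤ 4 / I * (m / (b - a) * p ^ (m - 1)) * b := by gcongr
              _ ≤ 4 / I * (m / (b - a) * w ^ (1 - ε)) * b := by
                  have : 0 < b := lt_of_le_of_lt (by positivity) hab
                  gcongr
              _ = _ := by ring
          have f4 : |(-w / I * (2 * if i = j then (1 : ℝ) else 0))| ≤ 2 / I * w ^ (1 - ε) := by
            have f5 : |(2 * if i = j then (1 : ℝ) else 0)| ≤ 2 := by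
              split_ifs <;> norm_num
            rw [abs_mul, abs_div, abs_neg, abs_of_pos hwpos, abs_of_pos hIpos]
            calc w / I * |(2 * if i = j then (1 : ℝ) else 0)| ≤ w / I * 2 := by gcongr
              _ = 2 / I * w := by ring
              _ ≤ 2 / I * w ^ (1 - ε) := by gcongr
          calc _ ≤ |(-wt' m a b (‖x‖ ^ 2) / I * (2 * x i) * (2 * x j))| +
                |(-w / I * (2 * if i = j then (1 : ℝ) else 0))| := abs_add_le _ _
            _ ≤ 4 * b * (m / (b - a)) / I * w ^ (1 - ε) + 2 / I * w ^ (1 - ε) :=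
                add_le_add f2 f4
            _ = _ := by rw [hM]; ring
        refine e4.trans ?_
        have hx0 : 0 ≤ (2 * (w / I) * ‖x‖) ^ (1 - ε) := by positivity
        calc M * w ^ (1 - ε) = M / c * (c * w ^ (1 - ε)) := by
              field_simp
          _ ≤ M / c * (2 * (w / I) * ‖x‖) ^ (1 - ε) := by gcongr
          _ ≤ (2 * (1 / I) * r₂ + M / c) * (2 * (w / I) * ‖x‖) ^ (1 - ε) := by
              apply mul_le_mul_of_nonneg_right _ hx0
              linarith

end Pool.Agent.PFlow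


end

section

/-!
# Block P: functions of class `H²` are continuous (CONT)
-/

open MeasureTheory Filter Topology Set
open scoped ContDiff RealInnerProductSpace ENNReal

namespace Pool.Agent.PFlow.PB

open Pool.Agent.PenroseSph Pool.Agent.PFlow

namespace ContAux

/-! ### Convergence in `L²` -/

section general
variable {F : Type*} [NormedAddCommGroup F]

theorem tend_norm (f : E3 → F) (fn : ℕ → E3 → F) (hf : MemLp f 2) (hn : ∀ n, MemLp (fn n) 2)
    (h : Tendsto (fun n => ∫ x, ‖fn n x - f x‖ ^ 2) atTop (𝓝 0)) :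
    Tendsto (fun n => ∫ x, ‖fn n x‖ ^ 2) atTop (𝓝 (∫ x, ‖f x‖ ^ 2)) := by
  have hs : Tendsto (fun n => √(∫ x, ‖fn n x - f x‖ ^ 2)) atTop (𝓝 0) := by
    have := (Real.continuous_sqrt.tendsto 0).comp h
    rwa [Real.sqrt_zero] at this
  have key : Tendsto (fun n => √(∫ x, ‖fn n x‖ ^ 2)) atTop (𝓝 (√(∫ x, ‖f x‖ ^ 2))) := by
    rw [tendsto_iff_norm_sub_tendsto_zero]
    refine squeeze_zero (fun n => norm_nonneg _) (fun n => ?_) hs
    rw [Real.norm_eq_abs, abs_le]
    have h1 := sqrt_add_le' (fun x => fn n x - f x) f ((hn n).sub hf) hf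
    have h2 := sqrt_add_le' (fun x => f x - fn n x) (fn n) (hf.sub (hn n)) (hn n)
    have e1 : (fun x => ‖fn n x - f x + f x‖ ^ 2) = fun x => ‖fn n x‖ ^ 2 := by
      ext x; simp
    have e2 : (fun x => ‖f x - fn n x + fn n x‖ ^ 2) = fun x => ‖f x‖ ^ 2 := by
      ext x; simp
    have e3 : (fun x => ‖f x - fn n x‖ ^ 2) = fun x => ‖fn n x - f x‖ ^ 2 := by
      ext x; rw [norm_sub_rev]
    rw [e1] at h1
    rw [e2, e3] at h2
    constructor
    · linarith
    · linarith
  have h2 := key.pow 2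
  rw [Real.sq_sqrt (integral_nonneg fun x => by positivity)] at h2
  refine h2.congr fun n => Real.sq_sqrt ?_
  exact integral_nonneg fun x => by positivity

theorem exists_ae (f : E3 → F) (fn : ℕ → E3 → F) (hf : MemLp f 2) (hn : ∀ n, MemLp (fn n) 2)
    (h : Tendsto (fun n => ∫ x, ‖fn n x - f x‖ ^ 2) atTop (𝓝 0)) :
    ∃ s : ℕ → ℕ, StrictMono s ∧ ∀ᵐ x, Tendsto (fun n => fn (s n) x) atTop (𝓝 (f x)) := by
  have h1 := (tend_iff f fn hf hn).1 h
  have h2 : TendstoInMeasure volume fn atTop f :=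
    tendstoInMeasure_of_tendsto_eLpNorm (by norm_num) (fun n => (hn n).1) hf.1 h1
  exact h2.exists_seq_tendsto_ae

end general

/-! ### Derivatives of translates and differences -/

theorem pd_shift (φ : E3 → ℝ) (h : E3) (i : Fin 3) :
    pd i (fun x => φ (x + h)) = fun x => pd i φ (x + h) := by
  funext x
  unfold pd
  rw [fderiv_comp_add_right]

theorem gr_shift (φ : E3 → ℝ) (h : E3) : gr (fun x => φ (x + h)) = fun x => gr φ (x + h) := by
  funext x
  ext i
  simp only [gr_apply, pd_shift]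

theorem hs_shift (φ : E3 → ℝ) (h : E3) (i : Fin 3) :
    hs (fun x => φ (x + h)) i = fun x => hs φ i (x + h) := by
  funext x
  unfold hs
  rw [pd_shift, gr_shift]

theorem pd_sub' {f g : E3 → ℝ} (hf : ContDiff ℝ 1 f) (hg : ContDiff ℝ 1 g) (i : Fin 3) :
    pd i (fun x => f x - g x) = fun x => pd i f x - pd i g x := by
  funext x
  exact pd_sub (hf.differentiable (by norm_num) x) (hg.differentiable (by norm_num) x)

theorem gr_sub' {f g : E3 → ℝ} (hf : ContDiff ℝ 1 f) (hg : ContDiff ℝ 1 g) :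
    gr (fun x => f x - g x) = fun x => gr f x - gr g x := by
  funext x
  ext i
  simp only [gr_apply, pd_sub' hf hg, PiLp.sub_apply]

theorem pd_one {f : E3 → ℝ} (hf : Test f) (i : Fin 3) : ContDiff ℝ 1 (pd i f) := by
  have h1 : ContDiff ℝ 1 (fderiv ℝ f) :=
    hf.smooth.fderiv_right (m := 1) (by
      rw [one_add_one_eq_two]
      exact WithTop.coe_le_coe.2 le_top)
  exact h1.clm_apply contDiff_const

theorem pd_cpt {f : E3 → ℝ} (hf : Test f) (i : Fin 3) : HasCompactSupport (pd i f) :=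
  hf.cpt.fderiv_apply (𝕜 := ℝ) _

theorem hs_sub {f g : E3 → ℝ} (hf : Test f) (hg : Test g) (i : Fin 3) :
    hs (fun x => f x - g x) i = fun x => hs f i x - hs g i x := by
  funext x
  unfold hs
  rw [pd_sub' hf.one hg.one, gr_sub' (pd_one hf i) (pd_one hg i)]

theorem hs_memLp {f : E3 → ℝ} (hf : Test f) (i : Fin 3) : MemLp (hs f i) 2 :=
  gr_memLp (pd i f) (pd_one hf i) (pd_cpt hf i)

theorem test_sub {f g : E3 → ℝ} (hf : Test f) (hg : Test g) : Test (fun x => f x - g x) :=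
  ⟨hf.smooth.sub hg.smooth, hf.cpt.sub hg.cpt⟩

theorem test_shift {f : E3 → ℝ} (hf : Test f) (h : E3) : Test (fun x => f (x + h)) := by
  refine ⟨hf.smooth.comp (contDiff_id.add contDiff_const), ?_⟩
  exact hf.cpt.comp_homeomorph (Homeomorph.addRight h)

theorem memLp_shift {F : Type*} [NormedAddCommGroup F] {G : E3 → F} (hG : MemLp G 2) (h : E3) :
    MemLp (fun x => G (x + h)) 2 :=
  hG.comp_measurePreserving (measurePreserving_add_right volume h)

theorem sqv_shift (G : E3 → E3) (h : E3) : sqv (fun x => G (x + h)) = sqv G := by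
  unfold sqv
  exact integral_add_right_eq_self (fun x => ‖G x‖ ^ 2) h

theorem sqv_sub_le {F G : E3 → E3} (hF : MemLp F 2) (hG : MemLp G 2) :
    sqv (fun x => F x - G x) ≤ 2 * sqv F + 2 * sqv G := by
  unfold sqv
  rw [← integral_const_mul, ← integral_const_mul, ← integral_add ((int_sq F hF).const_mul 2)
    ((int_sq G hG).const_mul 2)]
  refine integral_mono (int_sq _ (hF.sub hG)) (((int_sq F hF).const_mul 2).add
    ((int_sq G hG).const_mul 2)) fun x => ?_
  have h1 := norm_sub_le (F x) (G x)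
  have h2 := norm_nonneg (F x - G x)
  show ‖F x - G x‖ ^ 2 ≤ 2 * ‖F x‖ ^ 2 + 2 * ‖G x‖ ^ 2
  nlinarith [sq_nonneg (‖F x‖ - ‖G x‖), norm_nonneg (F x), norm_nonneg (G x)]

theorem sq_sub_le {f g : E3 → ℝ} (hf : MemLp f 2) (hg : MemLp g 2) :
    sq (fun x => f x - g x) ≤ 2 * sq f + 2 * sq g := by
  have i1 : Integrable (fun x => f x ^ 2) := by
    simpa [Real.norm_eq_abs, sq_abs] using int_sq f hf
  have i2 : Integrable (fun x => g x ^ 2) := by
    simpa [Real.norm_eq_abs, sq_abs] using int_sq g hg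
  have i3 : Integrable (fun x => (f x - g x) ^ 2) := by
    simpa [Real.norm_eq_abs, sq_abs] using int_sq _ (hf.sub hg)
  unfold sq
  rw [← integral_const_mul, ← integral_const_mul, ← integral_add (i1.const_mul 2)
    (i2.const_mul 2)]
  refine integral_mono i3 ((i1.const_mul 2).add (i2.const_mul 2)) fun x => ?_
  show (f x - g x) ^ 2 ≤ 2 * f x ^ 2 + 2 * g x ^ 2
  nlinarith [sq_nonneg (f x + g x)]

/-- The square of the `H²` norm. -/
noncomputable def En (u : E3 → ℝ) (G : E3 → E3) (M : Fin 3 → E3 → E3) : ℝ :=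
  sq u + sqv G + ∑ i, sqv (M i)

theorem sum_nonneg' (M : Fin 3 → E3 → E3) : 0 ≤ ∑ i, sqv (M i) :=
  Finset.sum_nonneg fun _ _ => sqv_nonneg' _

/-- The bounds for test functions. -/
theorem bound_sup {C : ℝ} (hC : 0 < C)
    (hS : ∀ φ, Test φ → ∀ r > 0, ∀ x,
      |φ x| ≤ C * (r ^ (-(3 / 2) : ℝ) * √(sq φ) + r ^ (1 / 2 : ℝ) * √(∑ i, sqv (hs φ i))))
    {φ : E3 → ℝ} (hφ : Test φ) (x : E3) :
    |φ x| ≤ 3 * C * √(En φ (gr φ) (hs φ)) := by
  have h := hS φ hφ 1 one_pos x
  rw [Real.one_rpow, Real.one_rpow, one_mul, one_mul] at h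
  have a1 := sq_nonneg' φ
  have a2 := sqv_nonneg' (gr φ)
  have a3 := sum_nonneg' (hs φ)
  have h1 : √(sq φ) ≤ √(En φ (gr φ) (hs φ)) := Real.sqrt_le_sqrt (by unfold En; linarith)
  have h2 : √(∑ i, sqv (hs φ i)) ≤ √(En φ (gr φ) (hs φ)) :=
    Real.sqrt_le_sqrt (by unfold En; linarith)
  have h3 := Real.sqrt_nonneg (En φ (gr φ) (hs φ))
  nlinarith

theorem bound_holder {C : ℝ} (hC : 0 < C) (h1 : API1) (h2 : API2)
    (hS : ∀ φ, Test φ → ∀ r > 0, ∀ x,
      |φ x| ≤ C * (r ^ (-(3 / 2) : ℝ) * √(sq φ) + r ^ (1 / 2 : ℝ) * √(∑ i, sqv (hs φ i))))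
    {φ : E3 → ℝ} (hφ : Test φ) (x y : E3) :
    |φ x - φ y| ≤ 3 * C * √(En φ (gr φ) (hs φ)) * ‖x - y‖ ^ (1 / 4 : ℝ) := by
  rcases eq_or_ne x y with rfl | hne
  · simp
  obtain ⟨h, rfl⟩ : ∃ h, x = y + h := ⟨x - y, by abel⟩
  have hh : h ≠ 0 := fun h0 => hne (by rw [h0, add_zero])
  have hpos : 0 < ‖h‖ := norm_pos_iff.2 hh
  rw [add_sub_cancel_left]
  have ht : Test (fun x => φ (x + h) - φ x) := test_sub (test_shift hφ h) hφ
  have hb := hS _ ht (‖h‖ ^ (1 / 2 : ℝ)) (by positivity) y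
  have e1 : √(sq (fun x => φ (x + h) - φ x)) ≤ ‖h‖ * √(En φ (gr φ) (hs φ)) := by
    have h3 := h2.trans φ (gr φ) (h1.ofTest φ hφ) h
    calc √(sq (fun x => φ (x + h) - φ x)) ≤ √(‖h‖ ^ 2 * sqv (gr φ)) := Real.sqrt_le_sqrt h3
      _ = ‖h‖ * √(sqv (gr φ)) := by
        rw [Real.sqrt_mul (by positivity), Real.sqrt_sq hpos.le]
      _ ≤ ‖h‖ * √(En φ (gr φ) (hs φ)) := by
        refine mul_le_mul_of_nonneg_left (Real.sqrt_le_sqrt ?_) hpos.le
        have a1 := sq_nonneg' φ
        have a3 := sum_nonneg' (hs φ)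
        unfold En
        linarith
  have e2 : √(∑ i, sqv (hs (fun x => φ (x + h) - φ x) i)) ≤ 2 * √(En φ (gr φ) (hs φ)) := by
    have h3 : ∑ i, sqv (hs (fun x => φ (x + h) - φ x) i) ≤ 2 ^ 2 * ∑ i, sqv (hs φ i) := by
      rw [Finset.mul_sum]
      refine Finset.sum_le_sum fun i _ => ?_
      rw [hs_sub (test_shift hφ h) hφ, hs_shift]
      have h4 := sqv_sub_le (memLp_shift (hs_memLp hφ i) h) (hs_memLp hφ i)
      rw [sqv_shift] at h4
      linarith
    calc √(∑ i, sqv (hs (fun x => φ (x + h) - φ x) i)) ≤ √(2 ^ 2 * ∑ i, sqv (hs φ i)) :=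
        Real.sqrt_le_sqrt h3
      _ = 2 * √(∑ i, sqv (hs φ i)) := by
        rw [Real.sqrt_mul (by positivity), Real.sqrt_sq (by norm_num)]
      _ ≤ 2 * √(En φ (gr φ) (hs φ)) := by
        refine mul_le_mul_of_nonneg_left (Real.sqrt_le_sqrt ?_) (by norm_num)
        have a1 := sq_nonneg' φ
        have a2 := sqv_nonneg' (gr φ)
        unfold En
        linarith
  have e3 : (‖h‖ ^ (1 / 2 : ℝ)) ^ (-(3 / 2) : ℝ) * ‖h‖ = ‖h‖ ^ (1 / 4 : ℝ) := by
    rw [← Real.rpow_mul hpos.le]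
    nth_rewrite 2 [← Real.rpow_one ‖h‖]
    rw [← Real.rpow_add hpos]
    norm_num
  have e4 : (‖h‖ ^ (1 / 2 : ℝ)) ^ (1 / 2 : ℝ) = ‖h‖ ^ (1 / 4 : ℝ) := by
    rw [← Real.rpow_mul hpos.le]
    norm_num
  rw [e4] at hb
  have p1 : 0 ≤ (‖h‖ ^ (1 / 2 : ℝ)) ^ (-(3 / 2) : ℝ) := by positivity
  have p2 : 0 ≤ ‖h‖ ^ (1 / 4 : ℝ) := by positivity
  calc |φ (y + h) - φ y| ≤ _ := hb
    _ ≤ C * ((‖h‖ ^ (1 / 2 : ℝ)) ^ (-(3 / 2) : ℝ) * (‖h‖ * √(En φ (gr φ) (hs φ)))
        + ‖h‖ ^ (1 / 4 : ℝ) * (2 * √(En φ (gr φ) (hs φ)))) := by gcongr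
    _ = 3 * C * √(En φ (gr φ) (hs φ)) * ‖h‖ ^ (1 / 4 : ℝ) := by
      rw [← mul_assoc (_ ^ (-(3 / 2) : ℝ)), e3]
      ring

end ContAux

open ContAux

/-- **(CONT)** Functions of class `H²` are continuous. -/
theorem cont_thm (h1 : API1) (h2 : API2) (hd : DENS) (hs : SUPB) : CONT := by
  obtain ⟨C, hC, hS⟩ := hs
  refine ⟨3 * C, by positivity, ?_⟩
  intro u G M hu
  obtain ⟨φ, hφ, t0, t1, t2, -⟩ := hd u G M hu
  have mu : MemLp u 2 := hu.h1.memf
  have mG : MemLp G 2 := hu.h1.memG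
  have mM : ∀ i, MemLp (M i) 2 := fun i => (hu.h2 i).memG
  have mφ : ∀ n, MemLp (φ n) 2 := fun n => test_memLp _ (hφ n)
  have mg : ∀ n, MemLp (gr (φ n)) 2 := fun n => gr_memLp _ (hφ n).one (hφ n).cpt
  have mh : ∀ n i, MemLp (PB.hs (φ n) i) 2 := fun n i => hs_memLp (hφ n) i
  -- convergence of the norms
  have c0 : Tendsto (fun n => sq (φ n)) atTop (𝓝 (sq u)) := by
    simp only [sq_eq] at t0 ⊢
    exact tend_norm u φ mu mφ t0
  have c1 : Tendsto (fun n => sqv (gr (φ n))) atTop (𝓝 (sqv G)) :=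
    tend_norm G (fun n => gr (φ n)) mG mg t1
  have c2 : ∀ i, Tendsto (fun n => sqv (PB.hs (φ n) i)) atTop (𝓝 (sqv (M i))) := fun i =>
    tend_norm (M i) (fun n => PB.hs (φ n) i) (mM i) (fun n => mh n i) (t2 i)
  have cE : Tendsto (fun n => √(En (φ n) (gr (φ n)) (PB.hs (φ n)))) atTop
      (𝓝 (√(sq u + sqv G + ∑ i, sqv (M i)))) := by
    unfold En
    exact (Real.continuous_sqrt.tendsto _).comp
      ((c0.add c1).add (tendsto_finsetSum _ fun i _ => c2 i))
  -- pointwise Cauchy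
  have hdiff : ∀ n m, En (fun x => φ n x - φ m x) (gr (fun x => φ n x - φ m x))
      (PB.hs (fun x => φ n x - φ m x)) ≤
      2 * (sq (fun x => φ n x - u x) + sqv (fun x => gr (φ n) x - G x)
          + ∑ i, sqv (fun x => PB.hs (φ n) i x - M i x))
      + 2 * (sq (fun x => φ m x - u x) + sqv (fun x => gr (φ m) x - G x)
          + ∑ i, sqv (fun x => PB.hs (φ m) i x - M i x)) := by
    intro n m
    have b0 : sq (fun x => φ n x - φ m x)
        ≤ 2 * sq (fun x => φ n x - u x) + 2 * sq (fun x => φ m x - u x) := by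
      have := sq_sub_le ((mφ n).sub mu) ((mφ m).sub mu)
      have e : (fun x => (φ n - u) x - (φ m - u) x) = fun x => φ n x - φ m x := by
        ext x
        simp
      rw [e] at this
      exact this
    have b1 : sqv (gr (fun x => φ n x - φ m x))
        ≤ 2 * sqv (fun x => gr (φ n) x - G x) + 2 * sqv (fun x => gr (φ m) x - G x) := by
      rw [gr_sub' (hφ n).one (hφ m).one]
      have := sqv_sub_le ((mg n).sub mG) ((mg m).sub mG)
      have e : (fun x => (gr (φ n) - G) x - (gr (φ m) - G) x)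
          = fun x => gr (φ n) x - gr (φ m) x := by
        ext x
        simp
      rw [e] at this
      exact this
    have b2 : ∀ i, sqv (PB.hs (fun x => φ n x - φ m x) i)
        ≤ 2 * sqv (fun x => PB.hs (φ n) i x - M i x)
          + 2 * sqv (fun x => PB.hs (φ m) i x - M i x) := by
      intro i
      rw [hs_sub (hφ n) (hφ m)]
      have := sqv_sub_le ((mh n i).sub (mM i)) ((mh m i).sub (mM i))
      have e : (fun x => (PB.hs (φ n) i - M i) x - (PB.hs (φ m) i - M i) x)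
          = fun x => PB.hs (φ n) i x - PB.hs (φ m) i x := by
        ext x
        simp
      rw [e] at this
      exact this
    have b3 := Finset.sum_le_sum fun i (_ : i ∈ Finset.univ) => b2 i
    rw [Finset.sum_add_distrib, ← Finset.mul_sum, ← Finset.mul_sum] at b3
    unfold En
    linarith
  have tE : Tendsto (fun n => sq (fun x => φ n x - u x) + sqv (fun x => gr (φ n) x - G x)
          + ∑ i, sqv (fun x => PB.hs (φ n) i x - M i x)) atTop (𝓝 0) := by
    have := (t0.add t1).add (tendsto_finsetSum Finset.univ fun i _ => t2 i)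
    simpa using this
  have hcau : ∀ x, CauchySeq (fun n => φ n x) := by
    intro x
    rw [Metric.cauchySeq_iff']
    intro ε hε
    have hδ : 0 < (ε / (3 * C)) ^ 2 / 4 := by positivity
    obtain ⟨N, hN⟩ := eventually_atTop.1 (tE.eventually (gt_mem_nhds hδ))
    refine ⟨N, fun n hn => ?_⟩
    rw [Real.dist_eq]
    have hb := bound_sup hC hS (test_sub (hφ n) (hφ N)) x
    refine hb.trans_lt ?_
    have h3 := hdiff n N
    have h4 := hN n hn
    have h5 := hN N le_rfl
    have h6 : √(En (fun x => φ n x - φ N x) (gr (fun x => φ n x - φ N x))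
      (PB.hs (fun x => φ n x - φ N x))) < ε / (3 * C) := by
      rw [Real.sqrt_lt' (by positivity)]
      linarith
    calc 3 * C * _ < 3 * C * (ε / (3 * C)) := by gcongr
      _ = ε := by field_simp
  choose w hw using fun x => cauchySeq_tendsto_of_complete (hcau x)
  refine ⟨w, ?_, ?_, ?_⟩
  · have t0' : Tendsto (fun n => ∫ x, ‖φ n x - u x‖ ^ 2) atTop (𝓝 0) := by
      simpa only [sq_eq] using t0
    obtain ⟨s, hs1, hs2⟩ := exists_ae u φ mu mφ t0'
    filter_upwards [hs2] with x hx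
    exact tendsto_nhds_unique ((hw x).comp hs1.tendsto_atTop) hx
  · intro x
    exact le_of_tendsto_of_tendsto' (hw x).abs (cE.const_mul (3 * C))
      fun n => bound_sup hC hS (hφ n) x
  · intro x y _
    exact le_of_tendsto_of_tendsto' ((hw x).sub (hw y)).abs
      ((cE.const_mul (3 * C)).mul_const _) fun n => bound_holder hC h1 h2 hS (hφ n) x y

end Pool.Agent.PFlow.PB


end

section

/-!
# Gradients in `L⁴` (module L4)
-/

open MeasureTheory Filter Topology
open scoped ContDiff ENNReal Manifold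

namespace Pool.Agent.PFlow

open Pool.Agent.PenroseSph

namespace ML4

theorem contDiff_pd {f : E3 → ℝ} (h : ContDiff ℝ ∞ f) (i : Fin 3) : ContDiff ℝ ∞ (pd i f) := by
  have h1 : ContDiff ℝ ∞ (fderiv ℝ f) := h.fderiv_right (m := ∞) (by simp)
  exact h1.clm_apply contDiff_const

/-- Symmetry of the second derivatives. -/
theorem pd_comm {f : E3 → ℝ} {x : E3} (h : ContDiffAt ℝ ∞ f x) (i j : Fin 3) :
    pd i (pd j f) x = pd j (pd i f) x := by
  have hs : IsSymmSndFDerivAt ℝ f x := h.isSymmSndFDerivAt (by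
    rw [minSmoothness_of_isRCLikeNormedField]
    exact WithTop.coe_le_coe.2 le_top)
  have hd : DifferentiableAt ℝ (fderiv ℝ f) x :=
    (h.fderiv_right (m := ∞) (by simp)).differentiableAt (by simp)
  have key : ∀ v w : E3, fderiv ℝ (fun y => fderiv ℝ f y v) x w = fderiv ℝ (fderiv ℝ f) x w v := by
    intro v w
    have h1 : HasFDerivAt (fun y => fderiv ℝ f y v)
        ((ContinuousLinearMap.apply ℝ ℝ v).comp (fderiv ℝ (fderiv ℝ f) x)) x :=
      (ContinuousLinearMap.apply ℝ ℝ v).hasFDerivAt.comp x hd.hasFDerivAt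
    rw [h1.fderiv]
    rfl
  unfold pd
  rw [key, key]
  exact hs _ _

theorem pd_pow {f : E3 → ℝ} {x : E3} (h : DifferentiableAt ℝ f x) (i : Fin 3) (n : ℕ) :
    pd i (fun y => f y ^ n) x = n * f x ^ (n - 1) * pd i f x := by
  unfold pd
  rw [(h.hasFDerivAt.pow n).fderiv]
  simp [smul_eq_mul, mul_assoc]

theorem quart (y b : ℝ) (hy : 0 ≤ y) (hb : 0 ≤ b) :
    4 * y ^ 3 * b ≤ y ^ 4 / 4 + 1728 * b ^ 4 := by
  have h : y ^ 4 / 4 + 1728 * b ^ 4 - 4 * y ^ 3 * b
      = (1 / 4) * (y - 12 * b) ^ 2 * (y ^ 2 + 8 * y * b + 48 * b ^ 2) := by ring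
  have : 0 ≤ (1 / 4) * (y - 12 * b) ^ 2 * (y ^ 2 + 8 * y * b + 48 * b ^ 2) := by positivity
  linarith

theorem young (f φ a m S u : ℝ) (hS : 0 ≤ S) (hu : f ≠ 0 → |u| ≤ S) :
    -((4 * f ^ 3 * φ * a ^ 3 + 3 * f ^ 4 * a ^ 2 * m) * u)
      ≤ f ^ 4 * a ^ 4 / 2 + 9 * S ^ 2 * (f ^ 4 * m ^ 2) + 1728 * S ^ 4 * φ ^ 4 := by
  by_cases hf : f = 0
  · subst hf
    have : 0 ≤ 1728 * S ^ 4 * φ ^ 4 := by positivity
    simpa using this
  have hu' := hu hf
  have h1 : -(4 * f ^ 3 * φ * a ^ 3 * u) ≤ f ^ 4 * a ^ 4 / 4 + 1728 * S ^ 4 * φ ^ 4 := by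
    have e1 : |4 * f ^ 3 * φ * a ^ 3 * u| = 4 * |f * a| ^ 3 * (|u| * |φ|) := by
      simp only [abs_mul, abs_pow, Nat.abs_ofNat]
      ring
    have e2 : 4 * |f * a| ^ 3 * (|u| * |φ|) ≤ 4 * |f * a| ^ 3 * (S * |φ|) := by gcongr
    have e3 := quart |f * a| (S * |φ|) (abs_nonneg _) (by positivity)
    have e4 : |f * a| ^ 4 = f ^ 4 * a ^ 4 := by
      rw [show |f * a| ^ 4 = (|f * a| ^ 2) ^ 2 by ring, sq_abs]; ring
    have e5 : (S * |φ|) ^ 4 = S ^ 4 * φ ^ 4 := by
      rw [mul_pow, show |φ| ^ 4 = (|φ| ^ 2) ^ 2 by ring, sq_abs]; ring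
    rw [e4, e5] at e3
    have e6 := neg_le_abs (4 * f ^ 3 * φ * a ^ 3 * u)
    rw [e1] at e6
    linarith
  have h2 : -(3 * f ^ 4 * a ^ 2 * m * u) ≤ f ^ 4 * a ^ 4 / 4 + 9 * S ^ 2 * (f ^ 4 * m ^ 2) := by
    have e1 : |3 * f ^ 4 * a ^ 2 * m * u| = f ^ 4 * (3 * |u| * |m| * a ^ 2) := by
      simp only [abs_mul, abs_pow, Nat.abs_ofNat, sq_abs]
      rw [show |f| ^ 4 = (|f| ^ 2) ^ 2 by ring, sq_abs]
      ring
    have hf4 : 0 ≤ f ^ 4 := by positivity
    have e2 : 3 * |u| * |m| * a ^ 2 ≤ 3 * S * |m| * a ^ 2 := by gcongr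
    have e3 : 3 * S * |m| * a ^ 2 ≤ a ^ 4 / 4 + 9 * S ^ 2 * m ^ 2 := by
      have : 0 ≤ (a ^ 2 / 2 - 3 * S * |m|) ^ 2 := sq_nonneg _
      have e4 : (a ^ 2 / 2 - 3 * S * |m|) ^ 2
          = a ^ 4 / 4 - 3 * S * |m| * a ^ 2 + 9 * S ^ 2 * |m| ^ 2 := by ring
      rw [e4, sq_abs] at this
      linarith
    have e5 : f ^ 4 * (3 * |u| * |m| * a ^ 2) ≤ f ^ 4 * (a ^ 4 / 4 + 9 * S ^ 2 * m ^ 2) :=
      mul_le_mul_of_nonneg_left (e2.trans e3) hf4
    have e6 := neg_le_abs (3 * f ^ 4 * a ^ 2 * m * u)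
    rw [e1] at e6
    nlinarith
  nlinarith

theorem key {f v : E3 → ℝ} (hf : ContDiff ℝ ∞ f) (hfc : HasCompactSupport f)
    (hv : ContDiff ℝ ∞ v) {S : ℝ} (hS0 : 0 ≤ S) (hS : ∀ x, f x ≠ 0 → |v x| ≤ S) (i : Fin 3) :
    ∫ x, f x ^ 4 * pd i v x ^ 4 ≤ 18 * S ^ 2 * (∫ x, f x ^ 4 * pd i (pd i v) x ^ 2)
      + 3456 * S ^ 4 * ∫ x, pd i f x ^ 4 := by
  set a : E3 → ℝ := pd i v with ha
  set m : E3 → ℝ := pd i a with hm
  set φ : E3 → ℝ := pd i f with hφ
  have hac : ContDiff ℝ ∞ a := contDiff_pd hv i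
  have hmc : ContDiff ℝ ∞ m := contDiff_pd hac i
  have hφc : ContDiff ℝ ∞ φ := contDiff_pd hf i
  have hφs : HasCompactSupport φ := by
    have h1 : HasCompactSupport (fderiv ℝ f) := hfc.fderiv (𝕜 := ℝ)
    exact h1.comp_left (g := fun L : E3 →L[ℝ] ℝ => L (EuclideanSpace.single i 1)) (by simp)
  have hf4 : HasCompactSupport (fun x => f x ^ 4) :=
    hfc.comp_left (g := fun t : ℝ => t ^ 4) (by simp)
  have hφ4 : HasCompactSupport (fun x => φ x ^ 4) :=
    hφs.comp_left (g := fun t : ℝ => t ^ 4) (by simp)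
  set F : E3 → ℝ := fun x => f x ^ 4 * a x ^ 3 with hF
  have hFc : ContDiff ℝ ∞ F := (hf.pow 4).mul (hac.pow 3)
  have hFs : HasCompactSupport F := hf4.mul_right
  have hpF : ∀ x, pd i F x = 4 * f x ^ 3 * φ x * a x ^ 3 + 3 * f x ^ 4 * a x ^ 2 * m x := by
    intro x
    have d1 : DifferentiableAt ℝ f x := hf.differentiable (by simp) x
    have d2 : DifferentiableAt ℝ a x := hac.differentiable (by simp) x
    rw [hF, pd_mul (f := fun y => f y ^ 4) (f' := fun y => a y ^ 3) (d1.fun_pow 4) (d2.fun_pow 3),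
      pd_pow d1 i 4, pd_pow d2 i 3]
    push_cast
    ring
  have hpFs : HasCompactSupport (pd i F) := by
    have h1 : HasCompactSupport (fderiv ℝ F) := hFs.fderiv (𝕜 := ℝ)
    exact h1.comp_left (g := fun L : E3 →L[ℝ] ℝ => L (EuclideanSpace.single i 1)) (by simp)
  have hpFc : Continuous (pd i F) := (contDiff_pd hFc i).continuous
  have hparts : ∫ x, F x * a x = -∫ x, pd i F x * v x := by
    refine integral_mul_fderiv_eq_neg_fderiv_mul_of_integrable (f := F) (g := v)
      (v := EuclideanSpace.single i 1) ?_ ?_ ?_ ?_ ?_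
    · exact (hpFc.mul hv.continuous).integrable_of_hasCompactSupport hpFs.mul_right
    · exact (hFc.continuous.mul hac.continuous).integrable_of_hasCompactSupport hFs.mul_right
    · exact (hFc.continuous.mul hv.continuous).integrable_of_hasCompactSupport hFs.mul_right
    · exact fun x _ => hFc.differentiable (by simp) x
    · exact fun x _ => hv.differentiable (by simp) x
  have i1 : Integrable (fun x => f x ^ 4 * a x ^ 4) :=
    ((hf.continuous.pow 4).mul (hac.continuous.pow 4)).integrable_of_hasCompactSupport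
      hf4.mul_right
  have i2 : Integrable (fun x => f x ^ 4 * m x ^ 2) :=
    ((hf.continuous.pow 4).mul (hmc.continuous.pow 2)).integrable_of_hasCompactSupport
      hf4.mul_right
  have i3 : Integrable (fun x => φ x ^ 4) :=
    (hφc.continuous.pow 4).integrable_of_hasCompactSupport hφ4
  have i4 : Integrable (fun x => -(pd i F x * v x)) :=
    ((hpFc.mul hv.continuous).integrable_of_hasCompactSupport hpFs.mul_right).neg
  have e0 : ∫ x, f x ^ 4 * a x ^ 4 = ∫ x, -(pd i F x * v x) := by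
    rw [integral_neg, ← hparts]
    refine integral_congr_ae (Eventually.of_forall fun x => ?_)
    simp only [hF]; ring
  have e1 : ∫ x, -(pd i F x * v x) ≤ ∫ x, (f x ^ 4 * a x ^ 4 / 2 + 9 * S ^ 2 * (f x ^ 4 * m x ^ 2)
      + 1728 * S ^ 4 * φ x ^ 4) := by
    refine integral_mono i4 (((i1.div_const 2).add (i2.const_mul _)).add (i3.const_mul _)) ?_
    intro x
    simp only
    rw [hpF x]
    exact young (f x) (φ x) (a x) (m x) S (v x) hS0 (hS x)
  have e2 : ∫ x, (f x ^ 4 * a x ^ 4 / 2 + 9 * S ^ 2 * (f x ^ 4 * m x ^ 2)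
      + 1728 * S ^ 4 * φ x ^ 4) = (∫ x, f x ^ 4 * a x ^ 4) / 2
        + 9 * S ^ 2 * (∫ x, f x ^ 4 * m x ^ 2) + 1728 * S ^ 4 * ∫ x, φ x ^ 4 := by
    rw [integral_add (f := fun x => f x ^ 4 * a x ^ 4 / 2 + 9 * S ^ 2 * (f x ^ 4 * m x ^ 2))
        (g := fun x => 1728 * S ^ 4 * φ x ^ 4) ((i1.div_const 2).add (i2.const_mul _))
        (i3.const_mul _),
      integral_add (f := fun x => f x ^ 4 * a x ^ 4 / 2)
        (g := fun x => 9 * S ^ 2 * (f x ^ 4 * m x ^ 2)) (i1.div_const 2) (i2.const_mul _),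
      integral_div, integral_const_mul, integral_const_mul]
  linarith

theorem main {K K' : Set E3} (hK : IsCompact K) (hK' : IsCompact K') (hKK : K ⊆ interior K') :
    ∃ C : ℝ, 0 ≤ C ∧ ∀ v : E3 → ℝ, ContDiff ℝ ∞ v → ∀ S : ℝ, 0 ≤ S → (∀ x ∈ K', |v x| ≤ S) →
      ∀ i, ∫ x in K, pd i v x ^ 4
        ≤ 18 * S ^ 2 * (∫ x in K', pd i (pd i v) x ^ 2) + C * S ^ 4 := by
  obtain ⟨f, h1, h0, hf01⟩ := exists_contMDiffMap_one_nhds_of_subset_interior (𝓘(ℝ, E3))
    (n := ⊤) hK.isClosed hKK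
  have hfs : ContDiff ℝ ∞ f := f.contMDiff.contDiff
  have hone : ∀ x ∈ K, f x = 1 := fun x hx =>
    ((eventually_nhdsSet_iff_forall.1 h1) x hx).self_of_nhds
  have hfc : HasCompactSupport (fun x => f x) := by
    refine HasCompactSupport.of_support_subset_isCompact hK' ?_
    intro x hx
    by_contra hxK
    exact hx (h0 x hxK)
  have hf4 : HasCompactSupport (fun x => f x ^ 4) :=
    hfc.comp_left (g := fun t : ℝ => t ^ 4) (by simp)
  refine ⟨3456 * ∑ i, ∫ x, pd i (fun x => f x) x ^ 4, ?_, ?_⟩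
  · have : ∀ i, 0 ≤ ∫ x, pd i (fun x => f x) x ^ 4 := fun i =>
      integral_nonneg (fun x => by positivity)
    have := Finset.sum_nonneg (fun i (_ : i ∈ Finset.univ) => this i)
    positivity
  intro v hv S hS0 hS i
  have hk := key (f := fun x => f x) hfs hfc hv hS0 (fun x hx => hS x (by
    by_contra hxK; exact hx (h0 x hxK))) i
  have i1 : Integrable (fun x => f x ^ 4 * pd i v x ^ 4) :=
    ((hfs.continuous.pow 4).mul ((contDiff_pd hv i).continuous.pow 4)).integrable_of_hasCompactSupport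
      hf4.mul_right
  have e1 : ∫ x in K, pd i v x ^ 4 ≤ ∫ x, f x ^ 4 * pd i v x ^ 4 := by
    have : ∫ x in K, pd i v x ^ 4 = ∫ x in K, f x ^ 4 * pd i v x ^ 4 := by
      refine setIntegral_congr_fun hK.measurableSet (fun x hx => ?_)
      simp only [hone x hx]; ring
    rw [this]
    exact setIntegral_le_integral i1 (Eventually.of_forall fun x => by positivity)
  have e2 : ∫ x, f x ^ 4 * pd i (pd i v) x ^ 2 ≤ ∫ x in K', pd i (pd i v) x ^ 2 := by
    have hc : Continuous (fun x => pd i (pd i v) x ^ 2) :=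
      (contDiff_pd (contDiff_pd hv i) i).continuous.pow 2
    have : ∫ x, f x ^ 4 * pd i (pd i v) x ^ 2 = ∫ x in K', f x ^ 4 * pd i (pd i v) x ^ 2 := by
      symm
      refine setIntegral_eq_integral_of_forall_compl_eq_zero (fun x hx => ?_)
      rw [h0 x hx]; ring
    rw [this]
    refine setIntegral_mono_on ?_ ?_ hK'.measurableSet (fun x hx => ?_)
    · exact (((hfs.continuous.pow 4).mul hc).continuousOn).integrableOn_compact hK'
    · exact hc.continuousOn.integrableOn_compact hK'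
    · have h3 : f x ^ 4 ≤ 1 := pow_le_one₀ (hf01 x).1 (hf01 x).2
      have h4 : 0 ≤ pd i (pd i v) x ^ 2 := sq_nonneg _
      nlinarith
  have e3 : ∫ x, pd i (fun x => f x) x ^ 4 ≤ ∑ i, ∫ x, pd i (fun x => f x) x ^ 4 :=
    Finset.single_le_sum (f := fun i => ∫ x, pd i (fun x => f x) x ^ 4)
      (fun j _ => integral_nonneg (fun x => by positivity)) (Finset.mem_univ i)
  have e4 : 18 * S ^ 2 * (∫ x, f x ^ 4 * pd i (pd i v) x ^ 2)
      ≤ 18 * S ^ 2 * (∫ x in K', pd i (pd i v) x ^ 2) :=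
    mul_le_mul_of_nonneg_left e2 (by positivity)
  have e5 : 3456 * S ^ 4 * (∫ x, pd i (fun x => f x) x ^ 4)
      ≤ 3456 * S ^ 4 * ∑ i, ∫ x, pd i (fun x => f x) x ^ 4 :=
    mul_le_mul_of_nonneg_left e3 (by positivity)
  have e6 : 3456 * S ^ 4 * ∑ i, ∫ x, pd i (fun x => f x) x ^ 4
      = (3456 * ∑ i, ∫ x, pd i (fun x => f x) x ^ 4) * S ^ 4 := by ring
  linarith

theorem memLp_cont {K : Set E3} (hK : IsCompact K) {f : E3 → ℝ} (hf : Continuous f) (p : ℝ≥0∞) :
    MemLp f p (volume.restrict K) := by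
  have : IsFiniteMeasure (volume.restrict K) := ⟨by simpa using hK.measure_lt_top⟩
  obtain ⟨C, hC⟩ := hK.exists_bound_of_continuousOn hf.continuousOn
  exact MemLp.of_bound hf.aestronglyMeasurable C
    ((ae_restrict_iff' hK.measurableSet).2 (Eventually.of_forall hC))

theorem eLp2 {μ : Measure E3} {f : E3 → ℝ} (hf : MemLp f 2 μ) :
    eLpNorm f 2 μ = ENNReal.ofReal (Real.sqrt (∫ x, f x ^ 2 ∂μ)) := by
  rw [hf.eLpNorm_eq_integral_rpow_norm (by norm_num) (by norm_num)]
  congr 1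
  rw [Real.sqrt_eq_rpow]
  simp only [ENNReal.toReal_ofNat, Real.rpow_two, Real.norm_eq_abs, sq_abs, one_div]

theorem eLp4 {μ : Measure E3} {f : E3 → ℝ} (hf : MemLp f 4 μ) :
    eLpNorm f 4 μ = ENNReal.ofReal ((∫ x, f x ^ 4 ∂μ) ^ (1 / 4 : ℝ)) := by
  rw [hf.eLpNorm_eq_integral_rpow_norm (by norm_num) (by norm_num)]
  congr 1
  simp only [ENNReal.toReal_ofNat, Real.norm_eq_abs, one_div]
  congr 1
  refine integral_congr_ae (Eventually.of_forall fun x => ?_)
  simp only
  rw [show (4 : ℝ) = ((4 : ℕ) : ℝ) by norm_num, Real.rpow_natCast]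
  rw [show |f x| ^ 4 = (|f x| ^ 2) ^ 2 by ring, sq_abs]; ring

theorem tend2 {μ : Measure E3} {F : ℕ → E3 → ℝ} (hF : ∀ n, MemLp (F n) 2 μ)
    (h : Tendsto (fun n => ∫ x, F n x ^ 2 ∂μ) atTop (𝓝 0)) :
    Tendsto (fun n => eLpNorm (F n) 2 μ) atTop (𝓝 0) := by
  have h1 : (fun n => eLpNorm (F n) 2 μ)
      = fun n => ENNReal.ofReal (Real.sqrt (∫ x, F n x ^ 2 ∂μ)) := funext fun n => eLp2 (hF n)
  rw [h1]
  have h2 : Tendsto (fun t : ℝ => ENNReal.ofReal (Real.sqrt t)) (𝓝 0) (𝓝 0) := by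
    have : Continuous (fun t : ℝ => ENNReal.ofReal (Real.sqrt t)) :=
      ENNReal.continuous_ofReal.comp Real.continuous_sqrt
    have h3 := this.tendsto 0
    simpa using h3
  exact h2.comp h

end ML4

open ML4

theorem L4 : Stmt_L4 := by
  intro U w G M hU hw
  -- the main step
  have step : ∀ K : Set E3, IsCompact K → K ⊆ U →
      (∀ i, MemLp (fun x => G x i) 4 (volume.restrict K)) ∧
      (∀ᵐ x ∂(volume.restrict K), (M x).IsSymm) ∧ ∃ v : ℕ → E3 → ℝ,
      (∀ n, ContDiff ℝ ∞ (v n)) ∧ TendstoUniformlyOn v w atTop K ∧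
      (∀ i, Tendsto (fun n => eLpNorm (fun x => pd i (v n) x - G x i) 4 (volume.restrict K))
        atTop (𝓝 0)) ∧
      (∀ i j, Tendsto (fun n => eLpNorm (fun x => pd i (pd j (v n)) x - M x i j) 2
        (volume.restrict K)) atTop (𝓝 0)) := by
    intro K hK hKU
    obtain ⟨K', hK', hKK, hK'U⟩ := exists_compact_between hK hU hKU
    have hsub : K ⊆ K' := hKK.trans interior_subset
    obtain ⟨v, hv, hvu, hvG, hvM⟩ := hw.approx K' hK' hK'U
    obtain ⟨C, hC0, hC⟩ := main hK hK' hKK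
    have hmono : volume.restrict K ≤ volume.restrict K' := Measure.restrict_mono hsub le_rfl
    have hG2 : ∀ i n, MemLp (fun x => pd i (v n) x - G x i) 2 (volume.restrict K') := fun i n =>
      (memLp_cont hK' (contDiff_pd (hv n) i).continuous 2).sub (hw.memG K' hK' hK'U i)
    have hM2 : ∀ i j n, MemLp (fun x => pd i (pd j (v n)) x - M x i j) 2 (volume.restrict K') :=
      fun i j n => (memLp_cont hK' (contDiff_pd (contDiff_pd (hv n) j) i).continuous 2).sub
        (hw.memM K' hK' hK'U i j)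
    have tM : ∀ i j, Tendsto (fun n => eLpNorm (fun x => pd i (pd j (v n)) x - M x i j) 2
        (volume.restrict K)) atTop (𝓝 0) := by
      intro i j
      have h1 := tend2 (fun n => hM2 i j n) (hvM i j)
      exact tendsto_of_tendsto_of_tendsto_of_le_of_le tendsto_const_nhds h1
        (fun n => zero_le) (fun n => eLpNorm_mono_measure _ hmono)
    have tG : ∀ i, Tendsto (fun n => eLpNorm (fun x => pd i (v n) x - G x i) 2
        (volume.restrict K)) atTop (𝓝 0) := by
      intro i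
      have h1 := tend2 (fun n => hG2 i n) (hvG i)
      exact tendsto_of_tendsto_of_tendsto_of_le_of_le tendsto_const_nhds h1
        (fun n => zero_le) (fun n => eLpNorm_mono_measure _ hmono)
    -- a subsequence converges almost everywhere
    have hsubseq : ∀ i, ∃ ns : ℕ → ℕ, StrictMono ns ∧ ∀ᵐ x ∂(volume.restrict K),
        Tendsto (fun k => pd i (v (ns k)) x) atTop (𝓝 (G x i)) := by
      intro i
      have h1 : TendstoInMeasure (volume.restrict K) (fun n => pd i (v n)) atTop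
          (fun x => G x i) := by
        refine tendstoInMeasure_of_tendsto_eLpNorm (p := 2) (by norm_num)
          (fun n => (contDiff_pd (hv n) i).continuous.aestronglyMeasurable)
          (hw.memG K hK hKU i).aestronglyMeasurable ?_
        exact tG i
      exact h1.exists_seq_tendsto_ae
    -- the Cauchy property
    have hcau : ∀ i, ∀ ε : ℝ≥0∞, 0 < ε → ∃ N, ∀ n ≥ N, ∀ k ≥ N,
        eLpNorm (fun x => pd i (v n) x - pd i (v k) x) 4 (volume.restrict K) ≤ ε := by
      intro i ε hε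
      have hcont : Tendsto (fun δ : ℝ => ENNReal.ofReal
          ((18 * (2 * δ) ^ 2 * 4 + C * (2 * δ) ^ 4) ^ (1 / 4 : ℝ))) (𝓝[>] 0) (𝓝 0) := by
        have h1 : Continuous (fun δ : ℝ => ENNReal.ofReal
          ((18 * (2 * δ) ^ 2 * 4 + C * (2 * δ) ^ 4) ^ (1 / 4 : ℝ))) := by
          refine ENNReal.continuous_ofReal.comp ?_
          refine Continuous.rpow_const (by fun_prop) (fun x => Or.inr (by norm_num))
        have h2 := h1.tendsto 0
        have h3 : ENNReal.ofReal ((18 * (2 * (0 : ℝ)) ^ 2 * 4 + C * (2 * 0) ^ 4) ^ (1 / 4 : ℝ))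
            = 0 := by
          have : (18 * (2 * (0 : ℝ)) ^ 2 * 4 + C * (2 * 0) ^ 4) = 0 := by ring
          rw [this, Real.zero_rpow (by norm_num), ENNReal.ofReal_zero]
        rw [h3] at h2
        exact h2.mono_left nhdsWithin_le_nhds
      have hev : ∀ᶠ δ : ℝ in 𝓝[>] 0, ENNReal.ofReal
          ((18 * (2 * δ) ^ 2 * 4 + C * (2 * δ) ^ 4) ^ (1 / 4 : ℝ)) ≤ ε :=
        (ENNReal.tendsto_nhds_zero.1 hcont) ε hε
      obtain ⟨δ, hδ, hδ0⟩ := (hev.and self_mem_nhdsWithin).exists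
      have hδ0' : 0 < δ := hδ0
      obtain ⟨N1, hN1⟩ := eventually_atTop.1 ((Metric.tendstoUniformlyOn_iff.1 hvu) δ hδ0')
      obtain ⟨N2, hN2⟩ := eventually_atTop.1 ((hvM i i).eventually (gt_mem_nhds one_pos))
      refine ⟨max N1 N2, fun n hn k hk => ?_⟩
      have hd : ∀ x, pd i (fun y => v n y - v k y) x = pd i (v n) x - pd i (v k) x := fun x =>
        pd_sub ((hv n).differentiable (by simp) x) ((hv k).differentiable (by simp) x)
      have hdf : pd i (fun y => v n y - v k y) = fun x => pd i (v n) x - pd i (v k) x :=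
        funext hd
      have hdd : ∀ x, pd i (pd i (fun y => v n y - v k y)) x
          = pd i (pd i (v n)) x - pd i (pd i (v k)) x := by
        intro x
        rw [hdf]
        exact pd_sub ((contDiff_pd (hv n) i).differentiable (by simp) x)
          ((contDiff_pd (hv k) i).differentiable (by simp) x)
      have hS : ∀ x ∈ K', |v n x - v k x| ≤ 2 * δ := by
        intro x hx
        have a1 := hN1 n (le_trans (le_max_left _ _) hn) x hx
        have a2 := hN1 k (le_trans (le_max_left _ _) hk) x hx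
        rw [Real.dist_eq] at a1 a2
        have a3 : v n x - v k x = (w x - v k x) - (w x - v n x) := by ring
        rw [a3]
        have a4 := abs_sub (w x - v k x) (w x - v n x)
        linarith
      have hI : ∫ x in K', pd i (pd i (fun y => v n y - v k y)) x ^ 2 ≤ 4 := by
        have b1 := hN2 n (le_trans (le_max_right _ _) hn)
        have b2 := hN2 k (le_trans (le_max_right _ _) hk)
        have j1 : IntegrableOn (fun x => (pd i (pd i (v n)) x - M x i i) ^ 2) K' :=
          (hM2 i i n).integrable_sq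
        have j2 : IntegrableOn (fun x => (pd i (pd i (v k)) x - M x i i) ^ 2) K' :=
          (hM2 i i k).integrable_sq
        have j3 : ∫ x in K', pd i (pd i (fun y => v n y - v k y)) x ^ 2
            ≤ ∫ x in K', (2 * (pd i (pd i (v n)) x - M x i i) ^ 2
              + 2 * (pd i (pd i (v k)) x - M x i i) ^ 2) := by
          refine setIntegral_mono_on ?_ ((j1.const_mul 2).add (j2.const_mul 2))
            hK'.measurableSet (fun x _ => ?_)
          · have hs : ContDiff ℝ ∞ (fun y => v n y - v k y) := (hv n).sub (hv k)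
            exact ((contDiff_pd (contDiff_pd hs i) i).continuous.pow
              2).continuousOn.integrableOn_compact hK'
          · rw [hdd x]
            nlinarith [sq_nonneg ((pd i (pd i (v n)) x - M x i i)
              + (pd i (pd i (v k)) x - M x i i))]
        rw [integral_add (j1.const_mul 2) (j2.const_mul 2), integral_const_mul,
          integral_const_mul] at j3
        linarith
      have hfin := hC (fun y => v n y - v k y) ((hv n).sub (hv k)) (2 * δ) (by positivity) hS i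
      have hmem : MemLp (fun x => pd i (v n) x - pd i (v k) x) 4 (volume.restrict K) :=
        memLp_cont hK (((contDiff_pd (hv n) i).continuous).sub
          ((contDiff_pd (hv k) i).continuous)) 4
      rw [eLp4 hmem]
      refine le_trans (ENNReal.ofReal_le_ofReal ?_) hδ
      refine Real.rpow_le_rpow (integral_nonneg (fun x => by positivity)) ?_ (by norm_num)
      rw [hdf] at hfin
      refine hfin.trans ?_
      rw [← hdf]
      have : 18 * (2 * δ) ^ 2 * (∫ x in K', pd i (pd i (fun y => v n y - v k y)) x ^ 2)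
          ≤ 18 * (2 * δ) ^ 2 * 4 := mul_le_mul_of_nonneg_left hI (by positivity)
      linarith
    have t4 : ∀ i, Tendsto (fun n => eLpNorm (fun x => pd i (v n) x - G x i) 4
        (volume.restrict K)) atTop (𝓝 0) := by
      intro i
      obtain ⟨ns, hns, hae⟩ := hsubseq i
      rw [ENNReal.tendsto_nhds_zero]
      intro ε hε
      obtain ⟨N, hN⟩ := hcau i ε hε
      filter_upwards [eventually_ge_atTop N] with n hn
      refine Lp.eLpNorm_le_of_ae_tendsto (u := atTop)
        (f := fun k x => pd i (v n) x - pd i (v (ns k)) x) ?_ ?_ ?_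
      · filter_upwards [hns.tendsto_atTop.eventually_ge_atTop N] with k hk
        exact hN n hn (ns k) hk
      · intro k
        exact (((contDiff_pd (hv n) i).continuous).sub
          ((contDiff_pd (hv (ns k)) i).continuous)).aestronglyMeasurable
      · filter_upwards [hae] with x hx
        exact tendsto_const_nhds.sub hx
    refine ⟨?_, ?_, v, hv, hvu.mono hsub, t4, tM⟩
    · intro i
      obtain ⟨N, hN⟩ := eventually_atTop.1 ((ENNReal.tendsto_nhds_zero.1 (t4 i)) 1 one_pos)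
      have h1 : MemLp (fun x => pd i (v N) x - G x i) 4 (volume.restrict K) :=
        ⟨(contDiff_pd (hv N) i).continuous.aestronglyMeasurable.sub
          (hw.memG K hK hKU i).aestronglyMeasurable, lt_of_le_of_lt (hN N le_rfl) (by simp)⟩
      have h2 : MemLp (pd i (v N)) 4 (volume.restrict K) :=
        memLp_cont hK (contDiff_pd (hv N) i).continuous 4
      have h3 := h2.sub h1
      refine h3.congr_norm (hw.memG K hK hKU i).aestronglyMeasurable
        (Eventually.of_forall fun x => ?_)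
      simp
    · have hij : ∀ i j, ∀ᵐ x ∂(volume.restrict K), M x i j = M x j i := by
        intro i j
        have hm1 := (hw.memM K hK hKU i j).aestronglyMeasurable
        have hm2 := (hw.memM K hK hKU j i).aestronglyMeasurable
        have h0 : eLpNorm (fun x => M x i j - M x j i) 2 (volume.restrict K) = 0 := by
          have hle : ∀ n, eLpNorm (fun x => M x i j - M x j i) 2 (volume.restrict K)
              ≤ eLpNorm (fun x => pd j (pd i (v n)) x - M x j i) 2 (volume.restrict K)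
                + eLpNorm (fun x => pd i (pd j (v n)) x - M x i j) 2 (volume.restrict K) := by
            intro n
            have e1 : (fun x => M x i j - M x j i)
                = (fun x => pd j (pd i (v n)) x - M x j i)
                  - (fun x => pd i (pd j (v n)) x - M x i j) := by
              funext x
              simp only [Pi.sub_apply]
              rw [pd_comm ((hv n).contDiffAt) i j]
              ring
            rw [e1]
            exact eLpNorm_sub_le
              ((contDiff_pd (contDiff_pd (hv n) i) j).continuous.aestronglyMeasurable.sub hm2)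
              ((contDiff_pd (contDiff_pd (hv n) j) i).continuous.aestronglyMeasurable.sub hm1)
              (by norm_num)
          have hlim := (tM j i).add (tM i j)
          rw [add_zero] at hlim
          exact le_antisymm (ge_of_tendsto' hlim hle) (zero_le)
        have h1 := (eLpNorm_eq_zero_iff (hm1.sub hm2) (by norm_num)).1 h0
        filter_upwards [h1] with x hx
        have : M x i j - M x j i = 0 := hx
        linarith
      have hall : ∀ᵐ x ∂(volume.restrict K), ∀ i j, M x i j = M x j i := by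
        rw [ae_all_iff]; intro i
        rw [ae_all_iff]; intro j
        exact hij i j
      filter_upwards [hall] with x hx
      exact Matrix.IsSymm.ext (fun i j => hx j i)
  refine ⟨hw.cont, fun K hK hKU => (step K hK hKU).1, hw.memM, ?_,
    fun K hK hKU => (step K hK hKU).2.2⟩
  rw [ae_restrict_iff' hU.measurableSet, ae_iff]
  refine measure_null_of_locally_null _ (fun x hx => ?_)
  have hxU : x ∈ U := by
    by_contra h
    exact hx (fun h' => absurd h' h)
  obtain ⟨K, hK, hxK, hKU⟩ := exists_compact_subset hU hxU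
  refine ⟨K ∩ {y | ¬ (M y).IsSymm}, ?_, ?_⟩
  · rw [mem_nhdsWithin]
    refine ⟨interior K, isOpen_interior, hxK, ?_⟩
    rintro y ⟨hy1, hy2⟩
    refine ⟨interior_subset hy1, ?_⟩
    intro h
    exact hy2 (fun _ => h)
  · have h1 := (step K hK hKU).2.1
    rw [ae_restrict_iff' hK.measurableSet, ae_iff] at h1
    refine measure_mono_null ?_ h1
    rintro y ⟨hy1, hy2⟩
    simp only [Set.mem_ofPred_eq, not_forall]
    exact ⟨hy1, hy2⟩

end Pool.Agent.PFlow


end

section

/-!
# MO: almost every linear perturbation of a smooth function has finitely many critical points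
-/

open MeasureTheory Filter Topology
open scoped ContDiff

namespace Pool.Agent.PFlow

open Pool.Agent.PenroseSph

namespace MMO

theorem contDiff_pd (i : Fin 3) {v : E3 → ℝ} (hv : ContDiff ℝ ∞ v) : ContDiff ℝ ∞ (pd i v) := by
  unfold pd
  have h : ContDiff ℝ ∞ (fderiv ℝ v) := hv.fderiv_right (m := ∞) (by simp)
  exact h.clm_apply contDiff_const

/-- minus the gradient, as a vector field -/
noncomputable def F (v : E3 → ℝ) (x : E3) : E3 := WithLp.toLp 2 (fun i => - pd i v x)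

theorem F_apply (v : E3 → ℝ) (x : E3) (i : Fin 3) : F v x i = - pd i v x := rfl

theorem contDiff_F {v : E3 → ℝ} (hv : ContDiff ℝ ∞ v) : ContDiff ℝ ∞ (F v) := by
  rw [contDiff_euclidean]
  intro i
  exact (contDiff_pd i hv).neg

theorem F_eq_iff (v : E3 → ℝ) (x a : E3) : F v x = a ↔ ∀ i, pd i v x + a i = 0 := by
  constructor
  · rintro rfl i
    rw [F_apply, add_neg_cancel]
  · intro h
    ext i
    rw [F_apply]
    have := h i
    linarith

end MMO

theorem MO : Stmt_MO := by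
  intro v K hv hK
  have hF := MMO.contDiff_F hv
  have hd : Differentiable ℝ (MMO.F v) := hF.differentiable (by simp)
  have h0 : volume (MMO.F v '' {x | (fderiv ℝ (MMO.F v) x).det = 0}) = 0 :=
    addHaar_image_eq_zero_of_det_fderivWithin_eq_zero volume
      (fun x _ => (hd x).hasFDerivAt.hasFDerivWithinAt) (fun x hx => hx)
  have h1 : ∀ᵐ a : E3, a ∉ MMO.F v '' {x | (fderiv ℝ (MMO.F v) x).det = 0} :=
    measure_eq_zero_iff_ae_notMem.mp h0
  filter_upwards [h1] with a ha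
  by_contra hinf
  have hT : {x | x ∈ K ∧ ∀ i, pd i v x + a i = 0} = K ∩ (MMO.F v) ⁻¹' {a} := by
    ext x
    simp only [Set.mem_ofPred_eq, Set.mem_inter_iff, Set.mem_preimage, Set.mem_singleton_iff,
      MMO.F_eq_iff]
  rw [hT] at hinf
  have hc : IsCompact (K ∩ (MMO.F v) ⁻¹' {a}) :=
    hK.inter_right (isClosed_singleton.preimage hF.continuous)
  obtain ⟨z, hz, hz2⟩ := exists_nhds_ne_inf_principal_neBot hc hinf
  have hza : MMO.F v z = a := hz.2
  have hdet : (fderiv ℝ (MMO.F v) z).det ≠ 0 := fun h => ha ⟨z, h, hza⟩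
  have h2 : ∀ᶠ y in 𝓝[≠] z, MMO.F v y ≠ a := by
    refine (hd z).hasFDerivAt.eventually_ne ?_
    exact ⟨_, (ContinuousLinearMap.toContinuousLinearEquivOfDetNeZero _ hdet).antilipschitz⟩
  have h3 : ∀ᶠ y in 𝓝[≠] z ⊓ 𝓟 (K ∩ (MMO.F v) ⁻¹' {a}), False := by
    have h4 : ∀ᶠ y in 𝓝[≠] z ⊓ 𝓟 (K ∩ (MMO.F v) ⁻¹' {a}), y ∈ K ∩ (MMO.F v) ⁻¹' {a} :=
      mem_inf_of_right (mem_principal_self _)
    filter_upwards [h4, h2.filter_mono inf_le_left] with y hy1 hy2
    exact hy2 hy1.2
  obtain ⟨y, hy⟩ := h3.exists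
  exact hy

end Pool.Agent.PFlow


end

section

/-!
# Local `L⁴` bound of the gradient (module LE2)
-/

open MeasureTheory Filter Topology
open scoped ContDiff ENNReal Pointwise

namespace Pool.Agent.PFlow

open Pool.Agent.PenroseSph

namespace LE2M

theorem isOpen_ann (a b : ℝ) : IsOpen (Ann a b) :=
  (isOpen_lt continuous_const continuous_norm).inter (isOpen_lt continuous_norm continuous_const)

theorem isCompact_cann (a b : ℝ) : IsCompact (cAnn a b) := by
  refine (isCompact_closedBall (0 : E3) b).of_isClosed_subset ?_ ?_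
  · exact (isClosed_le continuous_const continuous_norm).inter
      (isClosed_le continuous_norm continuous_const)
  · intro x hx
    rw [mem_closedBall_zero_iff]
    exact hx.2

theorem smul_cann {ρ : ℝ} (hρ : 0 < ρ) (a b : ℝ) : ρ • cAnn a b = cAnn (a * ρ) (b * ρ) := by
  ext x
  rw [Set.mem_smul_set_iff_inv_smul_mem₀ hρ.ne']
  simp only [cAnn, Set.mem_setOf_eq, norm_smul, norm_inv, Real.norm_eq_abs, abs_of_pos hρ]
  rw [inv_mul_eq_div, le_div_iff₀ hρ, div_le_iff₀ hρ]

theorem pd_scale (v : E3 → ℝ) (hv : Differentiable ℝ v) (ρ : ℝ) (i : Fin 3) (x : E3) :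
    pd i (fun y => v (ρ • y)) x = ρ * pd i v (ρ • x) := by
  unfold pd
  have h1 : HasFDerivAt (fun y : E3 => ρ • y) (ρ • ContinuousLinearMap.id ℝ E3) x :=
    (hasFDerivAt_id x).const_smul ρ
  have h2 := (hv (ρ • x)).hasFDerivAt.comp x h1
  have h3 : fderiv ℝ (fun y => v (ρ • y)) x
      = (fderiv ℝ v (ρ • x)).comp (ρ • ContinuousLinearMap.id ℝ E3) := h2.fderiv
  rw [h3]
  simp

theorem diff_of {f : E3 → ℝ} (h : ContDiff ℝ ∞ f) : Differentiable ℝ f :=
  h.differentiable (by simp)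

theorem int_scale {ρ : ℝ} (hρ : 0 < ρ) (a b : ℝ) (f : E3 → ℝ) :
    ∫ x in cAnn a b, f (ρ • x) = (ρ ^ 3)⁻¹ * ∫ x in cAnn (a * ρ) (b * ρ), f x := by
  rw [Measure.setIntegral_comp_smul_of_pos (volume : Measure E3) f (cAnn a b) hρ, smul_cann hρ]
  simp

/-- The scaled inequality for smooth functions. -/
theorem scaled {a b a₁ b₁ : ℝ} (haa : a₁ < a) (hbb : b < b₁) :
    ∃ C : ℝ, 0 ≤ C ∧ ∀ (ρ : ℝ) (v : E3 → ℝ) (S : ℝ), 0 < ρ → ContDiff ℝ ∞ v → 0 ≤ S →
      (∀ x ∈ cAnn (a₁ * ρ) (b₁ * ρ), |v x| ≤ S) → ∀ i,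
      ∫ x in cAnn (a * ρ) (b * ρ), pd i v x ^ 4
        ≤ 18 * S ^ 2 * (∫ x in cAnn (a₁ * ρ) (b₁ * ρ), pd i (pd i v) x ^ 2) + C * S ^ 4 / ρ := by
  have hsub : cAnn a b ⊆ interior (cAnn a₁ b₁) := by
    have s1 : cAnn a b ⊆ Ann a₁ b₁ := fun x hx => ⟨haa.trans_le hx.1, hx.2.trans_lt hbb⟩
    have s2 : Ann a₁ b₁ ⊆ interior (cAnn a₁ b₁) :=
      interior_maximal (fun x hx => ⟨hx.1.le, hx.2.le⟩) (isOpen_ann _ _)
    exact s1.trans s2
  obtain ⟨C, hC0, hC⟩ := ML4.main (isCompact_cann a b) (isCompact_cann a₁ b₁) hsub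
  refine ⟨C, hC0, ?_⟩
  intro ρ v S hρ hv hS0 hS i
  have hv' : ContDiff ℝ ∞ (fun y : E3 => v (ρ • y)) := hv.comp (contDiff_const_smul ρ)
  have h1 := hC (fun y => v (ρ • y)) hv' S hS0 (by
    intro x hx
    refine hS _ ?_
    rw [← smul_cann hρ]
    exact Set.smul_mem_smul_set hx) i
  have e1 : ∀ x, pd i (fun y => v (ρ • y)) x = ρ * pd i v (ρ • x) := pd_scale v (diff_of hv) ρ i
  have e2 : ∀ x, pd i (pd i (fun y => v (ρ • y))) x = ρ ^ 2 * pd i (pd i v) (ρ • x) := by
    intro x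
    have : pd i (fun y => v (ρ • y)) = fun x => ρ * pd i v (ρ • x) := funext e1
    rw [this]
    have h3 : pd i (fun x => ρ * pd i v (ρ • x)) x = ρ * pd i (fun y => pd i v (ρ • y)) x := by
      unfold pd
      rw [fderiv_const_mul]
      · simp
      · exact ((diff_of (ML4.contDiff_pd hv i)).comp
          (differentiable_id.const_smul ρ)) x
    rw [h3, pd_scale _ (diff_of (ML4.contDiff_pd hv i))]
    ring
  simp only [e1, e2, mul_pow] at h1
  rw [integral_const_mul, integral_const_mul, int_scale hρ a b (fun x => pd i v x ^ 4),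
    int_scale hρ a₁ b₁ (fun x => pd i (pd i v) x ^ 2)] at h1
  have h4 : ρ ^ 4 * ((ρ ^ 3)⁻¹ * ∫ x in cAnn (a * ρ) (b * ρ), pd i v x ^ 4)
      = ρ * ∫ x in cAnn (a * ρ) (b * ρ), pd i v x ^ 4 := by
    field_simp
  have h5 : (ρ ^ 2) ^ 2 * ((ρ ^ 3)⁻¹ * ∫ x in cAnn (a₁ * ρ) (b₁ * ρ), pd i (pd i v) x ^ 2)
      = ρ * ∫ x in cAnn (a₁ * ρ) (b₁ * ρ), pd i (pd i v) x ^ 2 := by
    field_simp
  rw [h4, h5] at h1
  have h6 : C * S ^ 4 = ρ * (C * S ^ 4 / ρ) := by field_simp
  rw [h6] at h1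
  refine le_of_mul_le_mul_left ?_ hρ
  linarith

theorem tend_toReal {p : ℝ≥0∞} [Fact (1 ≤ p)] {μ : Measure E3} {F : ℕ → E3 → ℝ} {G : E3 → ℝ}
    (hF : ∀ n, MemLp (F n) p μ) (hG : MemLp G p μ)
    (h : Tendsto (fun n => eLpNorm (fun x => F n x - G x) p μ) atTop (𝓝 0)) :
    Tendsto (fun n => (eLpNorm (F n) p μ).toReal) atTop (𝓝 (eLpNorm G p μ).toReal) := by
  have h1 : Tendsto (fun n => (hF n).toLp (F n)) atTop (𝓝 (hG.toLp G)) := by
    rw [Lp.tendsto_Lp_iff_tendsto_eLpNorm'']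
    exact h
  have h2 := h1.norm
  simpa only [Lp.norm_toLp] using h2

theorem tend4 {μ : Measure E3} {F : ℕ → E3 → ℝ} {G : E3 → ℝ}
    (hF : ∀ n, MemLp (F n) 4 μ) (hG : MemLp G 4 μ)
    (h : Tendsto (fun n => eLpNorm (fun x => F n x - G x) 4 μ) atTop (𝓝 0)) :
    Tendsto (fun n => ∫ x, F n x ^ 4 ∂μ) atTop (𝓝 (∫ x, G x ^ 4 ∂μ)) := by
  have : Fact ((1 : ℝ≥0∞) ≤ 4) := ⟨by norm_num⟩
  have key : ∀ f : E3 → ℝ, MemLp f 4 μ → (eLpNorm f 4 μ).toReal ^ 4 = ∫ x, f x ^ 4 ∂μ := by
    intro f hf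
    have h0 : 0 ≤ ∫ x, f x ^ 4 ∂μ := integral_nonneg fun x => by positivity
    rw [ML4.eLp4 hf, ENNReal.toReal_ofReal (Real.rpow_nonneg h0 _), ← Real.rpow_natCast,
      ← Real.rpow_mul h0]
    norm_num
  have h1 := (tend_toReal hF hG h).pow 4
  rw [key G hG] at h1
  exact h1.congr fun n => key _ (hF n)

theorem tend2' {μ : Measure E3} {F : ℕ → E3 → ℝ} {G : E3 → ℝ}
    (hF : ∀ n, MemLp (F n) 2 μ) (hG : MemLp G 2 μ)
    (h : Tendsto (fun n => eLpNorm (fun x => F n x - G x) 2 μ) atTop (𝓝 0)) :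
    Tendsto (fun n => ∫ x, F n x ^ 2 ∂μ) atTop (𝓝 (∫ x, G x ^ 2 ∂μ)) := by
  have key : ∀ f : E3 → ℝ, MemLp f 2 μ → (eLpNorm f 2 μ).toReal ^ 2 = ∫ x, f x ^ 2 ∂μ := by
    intro f hf
    have h0 : 0 ≤ ∫ x, f x ^ 2 ∂μ := integral_nonneg fun x => by positivity
    rw [ML4.eLp2 hf, ENNReal.toReal_ofReal (Real.sqrt_nonneg _), Real.sq_sqrt h0]
  have h1 := (tend_toReal hF hG h).pow 2
  rw [key G hG] at h1
  exact h1.congr fun n => key _ (hF n)

theorem vsz_four (p : Cov) : vsz p ^ 4 ≤ 3 * ∑ i, p i ^ 4 := by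
  have h0 : 0 ≤ ∑ i, p i ^ 2 := Finset.sum_nonneg fun i _ => sq_nonneg _
  have h1 : vsz p ^ 4 = (∑ i, p i ^ 2) ^ 2 := by
    unfold vsz
    rw [show Real.sqrt (∑ i, p i ^ 2) ^ 4 = (Real.sqrt (∑ i, p i ^ 2) ^ 2) ^ 2 by ring,
      Real.sq_sqrt h0]
  rw [h1]
  simp only [Fin.sum_univ_three]
  nlinarith [sq_nonneg (p 0 ^ 2 - p 1 ^ 2), sq_nonneg (p 0 ^ 2 - p 2 ^ 2),
    sq_nonneg (p 1 ^ 2 - p 2 ^ 2)]

theorem diag_le (B : Bil) (i : Fin 3) : B i i ^ 2 ≤ msz B ^ 2 := by
  have h0 : 0 ≤ ∑ i, ∑ j, B i j ^ 2 :=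
    Finset.sum_nonneg fun i _ => Finset.sum_nonneg fun j _ => sq_nonneg _
  unfold msz
  rw [Real.sq_sqrt h0]
  calc B i i ^ 2 ≤ ∑ j, B i j ^ 2 :=
        Finset.single_le_sum (f := fun j => B i j ^ 2) (fun j _ => sq_nonneg _) (Finset.mem_univ i)
    _ ≤ ∑ i, ∑ j, B i j ^ 2 :=
        Finset.single_le_sum (f := fun i => ∑ j, B i j ^ 2)
          (fun j _ => Finset.sum_nonneg fun j _ => sq_nonneg _) (Finset.mem_univ i)

end LE2M

open LE2M in
/-- Module LE2. -/
theorem LE2 : Stmt_LE2 := by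
  intro C₁ a' a b b' hC₁ ha' haa hab hbb
  obtain ⟨C, hC0, hC⟩ := scaled (a := a) (b := b) (a₁ := (a' + a) / 2) (b₁ := (b + b') / 2)
    (by linarith) (by linarith)
  refine ⟨9 * (18 * C₁ + C) + 1, by positivity, ?_⟩
  intro ρ S v G M hρ hS0 hH hbd hM hG iM iG
  have hs := L4 (Ann (a' * ρ) (b' * ρ)) v G M (isOpen_ann _ _) hH
  set K := cAnn ((a' + a) / 2 * ρ) ((b + b') / 2 * ρ) with hK
  set K₀ := cAnn (a * ρ) (b * ρ) with hK₀
  have hKc : IsCompact K := isCompact_cann _ _
  have hK₀c : IsCompact K₀ := isCompact_cann _ _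
  have hKU : K ⊆ Ann (a' * ρ) (b' * ρ) := by
    intro x hx
    have h1 : a' * ρ < (a' + a) / 2 * ρ := mul_lt_mul_of_pos_right (by linarith) hρ
    have h2 : (b + b') / 2 * ρ < b' * ρ := mul_lt_mul_of_pos_right (by linarith) hρ
    exact ⟨h1.trans_le hx.1, hx.2.trans_lt h2⟩
  have hK₀K : K₀ ⊆ K := by
    intro x hx
    have h1 : (a' + a) / 2 * ρ ≤ a * ρ := mul_le_mul_of_nonneg_right (by linarith) hρ.le
    have h2 : b * ρ ≤ (b + b') / 2 * ρ := mul_le_mul_of_nonneg_right (by linarith) hρ.le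
    exact ⟨h1.trans hx.1, hx.2.trans h2⟩
  have hKA : K ⊆ cAnn (a' * ρ) (b' * ρ) := fun x hx => ⟨(hKU hx).1.le, (hKU hx).2.le⟩
  have hmG : ∀ i, MemLp (fun x => G x i) 4 (volume.restrict K₀) := fun i =>
    hs.memG K₀ hK₀c (hK₀K.trans hKU) i
  obtain ⟨w, hw1, hw2, hw3, hw4⟩ := hs.approx K hKc hKU
  -- the integral of the square of the diagonal entries
  have hd : ∀ i, ∫ x in K, M x i i ^ 2 ≤ C₁ * S ^ 2 / ρ := by
    intro i
    refine le_trans ?_ hM
    have i1 : IntegrableOn (fun x => M x i i ^ 2) K :=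
      (memLp_two_iff_integrable_sq (hs.memM K hKc hKU i i).1).1 (hs.memM K hKc hKU i i)
    calc ∫ x in K, M x i i ^ 2 ≤ ∫ x in K, msz (M x) ^ 2 :=
          setIntegral_mono_on i1 (iM.mono_set hKA) hKc.measurableSet fun x _ => diag_le (M x) i
      _ ≤ ∫ x in cAnn (a' * ρ) (b' * ρ), msz (M x) ^ 2 :=
          setIntegral_mono_set iM (Eventually.of_forall fun x => sq_nonneg _)
            (Eventually.of_forall hKA)
  have hJ0 : ∀ i, 0 ≤ ∫ x in K, M x i i ^ 2 := fun i => integral_nonneg fun x => sq_nonneg _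
  -- the bound for each component
  have hcomp : ∀ i, ∫ x in K₀, G x i ^ 4 ≤ (18 * C₁ + C) * S ^ 4 / ρ := by
    intro i
    have t1 : Tendsto (fun n => ∫ x in K₀, pd i (w n) x ^ 4) atTop (𝓝 (∫ x in K₀, G x i ^ 4)) := by
      refine tend4 (fun n => ML4.memLp_cont hK₀c (ML4.contDiff_pd (hw1 n) i).continuous 4)
        (hmG i) ?_
      refine tendsto_of_tendsto_of_tendsto_of_le_of_le tendsto_const_nhds (hw3 i)
        (fun n => bot_le) (fun n => ?_)
      exact eLpNorm_mono_measure _ (Measure.restrict_mono hK₀K le_rfl)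
    have t2 : Tendsto (fun n => ∫ x in K, pd i (pd i (w n)) x ^ 2) atTop
        (𝓝 (∫ x in K, M x i i ^ 2)) := by
      refine tend2' (fun n => ML4.memLp_cont hKc
        (ML4.contDiff_pd (ML4.contDiff_pd (hw1 n) i) i).continuous 2) (hs.memM K hKc hKU i i) ?_
      exact hw4 i i
    have h1 : ∀ e : ℝ, 0 < e → ∫ x in K₀, G x i ^ 4
        ≤ 18 * (S + e) ^ 2 * (∫ x in K, M x i i ^ 2) + C * (S + e) ^ 4 / ρ := by
      intro e he
      have t3 : Tendsto (fun n => 18 * (S + e) ^ 2 * (∫ x in K, pd i (pd i (w n)) x ^ 2)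
          + C * (S + e) ^ 4 / ρ) atTop
          (𝓝 (18 * (S + e) ^ 2 * (∫ x in K, M x i i ^ 2) + C * (S + e) ^ 4 / ρ)) :=
        (t2.const_mul _).add_const _
      refine le_of_tendsto_of_tendsto t1 t3 ?_
      have h2 := (Metric.tendstoUniformlyOn_iff.1 hw2) e he
      filter_upwards [h2] with n hn
      refine hC ρ (w n) (S + e) hρ (hw1 n) (by linarith) ?_ i
      intro x hx
      have h3 := hn x hx
      rw [Real.dist_eq] at h3
      have h4 := hbd x (hKU hx)
      have h5 : |w n x| ≤ |v x| + |v x - w n x| := by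
        have := abs_sub_abs_le_abs_sub (w n x) (v x)
        rw [abs_sub_comm] at this
        linarith
      linarith
    have t4 : Tendsto (fun e : ℝ => 18 * (S + e) ^ 2 * (∫ x in K, M x i i ^ 2)
        + C * (S + e) ^ 4 / ρ) (𝓝[>] 0)
        (𝓝 (18 * S ^ 2 * (∫ x in K, M x i i ^ 2) + C * S ^ 4 / ρ)) := by
      have hc : Continuous (fun e : ℝ => 18 * (S + e) ^ 2 * (∫ x in K, M x i i ^ 2)
        + C * (S + e) ^ 4 / ρ) := by fun_prop
      have := (hc.tendsto 0).mono_left (nhdsWithin_le_nhds (s := Set.Ioi 0))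
      simpa using this
    have h6 : ∫ x in K₀, G x i ^ 4 ≤ 18 * S ^ 2 * (∫ x in K, M x i i ^ 2) + C * S ^ 4 / ρ := by
      refine ge_of_tendsto t4 ?_
      filter_upwards [self_mem_nhdsWithin] with e he
      exact h1 e he
    have h7 : 18 * S ^ 2 * (∫ x in K, M x i i ^ 2) ≤ 18 * S ^ 2 * (C₁ * S ^ 2 / ρ) :=
      mul_le_mul_of_nonneg_left (hd i) (by positivity)
    calc ∫ x in K₀, G x i ^ 4 ≤ 18 * S ^ 2 * (C₁ * S ^ 2 / ρ) + C * S ^ 4 / ρ := by linarith
      _ = (18 * C₁ + C) * S ^ 4 / ρ := by ring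
  have i4 : ∀ i, IntegrableOn (fun x => G x i ^ 4) K₀ := by
    intro i
    have h1 := (hmG i).integrable_norm_pow (p := 4) (by norm_num)
    refine h1.congr (Eventually.of_forall fun x => ?_)
    simp only [Real.norm_eq_abs]
    rw [show |G x i| ^ 4 = (|G x i| ^ 2) ^ 2 by ring, sq_abs]; ring
  have i5 : IntegrableOn (fun x => 3 * ∑ i, G x i ^ 4) K₀ :=
    (integrable_finsetSum _ fun i _ => i4 i).const_mul 3
  have hme : AEStronglyMeasurable (fun x => vsz (G x) ^ 4) (volume.restrict K₀) := by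
    have h1 : AEStronglyMeasurable (fun x => ∑ i, G x i ^ 2) (volume.restrict K₀) := by
      refine Finset.aestronglyMeasurable_fun_sum _ fun i _ => ?_
      exact (hmG i).1.pow 2
    exact (Real.continuous_sqrt.comp_aestronglyMeasurable h1).pow 4
  have i6 : IntegrableOn (fun x => vsz (G x) ^ 4) K₀ := by
    refine Integrable.mono' i5 hme (Eventually.of_forall fun x => ?_)
    rw [Real.norm_eq_abs, abs_of_nonneg (by positivity)]
    exact vsz_four (G x)
  refine ⟨i6, ?_⟩
  calc ∫ x in K₀, vsz (G x) ^ 4 ≤ ∫ x in K₀, 3 * ∑ i, G x i ^ 4 :=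
        integral_mono i6 i5 fun x => vsz_four (G x)
    _ = 3 * ∑ i, ∫ x in K₀, G x i ^ 4 := by
        rw [integral_const_mul, integral_finsetSum _ fun i _ => i4 i]
    _ ≤ 3 * ∑ _i : Fin 3, (18 * C₁ + C) * S ^ 4 / ρ :=
        mul_le_mul_of_nonneg_left (Finset.sum_le_sum fun i _ => hcomp i) (by norm_num)
    _ = 9 * (18 * C₁ + C) * S ^ 4 / ρ := by
        rw [Finset.sum_const, Finset.card_univ, Fintype.card_fin]
        ring
    _ ≤ (9 * (18 * C₁ + C) + 1) * S ^ 4 / ρ := by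
        have h8 : 0 ≤ S ^ 4 / ρ := by positivity
        have h9 : (9 * (18 * C₁ + C) + 1) * S ^ 4 / ρ
          = 9 * (18 * C₁ + C) * S ^ 4 / ρ + S ^ 4 / ρ := by ring
        linarith

end Pool.Agent.PFlow


end
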