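import Mathlib
import Pool.Agent.PenroseSph.Defs

/-! Parts: PenroseConvex.Defs, PenroseConvex.Stmts -/

section

/-!
# Initial data foliated by parallel surfaces of a convex body

Coordinate definitions. The coordinate sphere `|x| = s` carries the metric of the convex surface
of three-space with support function `u + ρ(s)`; these surfaces, for all `s`, are parallel.
-/

open MeasureTheory Filter Topology
open scoped ContDiff

namespace Pool.Agent.PenroseConvex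

open Pool.Agent.PenroseSph

/-- The covector `d|x|`, with components `x_i / |x|`. -/
noncomputable def nu (x : E3) (i : Fin 3) : ℝ := x i / ‖x‖

/-- The matrix of the radii of curvature: `|x| ∂_i∂_j u + ρ(|x|) (δ_ij - x_i x_j / |x|²)`. For a
support function `u` it is tangential to the coordinate spheres and, on the coordinate sphere of
radius `s`, it is the differential of the inverse Gauss map of the convex surface with support
function `u + ρ(s)`. -/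
noncomputable def radii (u : E3 → ℝ) (ρ : ℝ → ℝ) : TensorField := fun x =>
  Matrix.of fun i j =>
    ‖x‖ * pd i (pd j u) x + ρ ‖x‖ * ((if i = j then 1 else 0) - nu x i * nu x j)

/-- The metric `N² d|x|² + γ`, where `γ` restricted to the coordinate sphere of radius `s` is the
metric of the convex surface of three-space with support function `u + ρ(s)`, parametrised by its
unit normal `x / |x|`. -/
noncomputable def parallelMetric (u : E3 → ℝ) (ρ : ℝ → ℝ) (N : E3 → ℝ) : TensorField := fun x =>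
  Matrix.of fun i j =>
    N x ^ 2 * (nu x i * nu x j) + (radii u ρ x * radii u ρ x) i j / ‖x‖ ^ 2

/-- Initial data `(g, h)` on the region `|x| > a` of three-space: the metric is
`N² d|x|² + γ` with `γ` as in `parallelMetric` and `N > 0` an arbitrary smooth function, `h` is
an arbitrary smooth symmetric tensor, and the data are asymptotically flat. -/
structure ParallelData (a : ℝ) (u : E3 → ℝ) (ρ : ℝ → ℝ) (N : E3 → ℝ) (g h : TensorField) :
    Prop where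
  radius_nonneg : 0 ≤ a
  smooth_u : ContDiffOn ℝ ∞ u {0}ᶜ
  homogeneous_u : ∀ x : E3, x ≠ 0 → ∀ t : ℝ, 0 < t → u (t • x) = t * u x
  smooth_rho : ContDiffOn ℝ ∞ ρ (Set.Ioi a)
  smooth_N : ContDiffOn ℝ ∞ N {x : E3 | a < ‖x‖}
  N_pos : ∀ x : E3, a < ‖x‖ → 0 < N x
  convex : ∀ x : E3, a < ‖x‖ → ∀ v : Fin 3 → ℝ, ∑ i, v i * x i = 0 → v ≠ 0 →
    0 < ∑ i, ∑ j, radii u ρ x i j * v i * v j
  metric_eq : ∀ x : E3, a < ‖x‖ → g x = parallelMetric u ρ N x
  smooth_h : ∀ i j, ContDiffOn ℝ ∞ (fun x => h x i j) {x : E3 | a < ‖x‖}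
  symm_h : ∀ x : E3, a < ‖x‖ → (h x).IsSymm
  decay : ∃ C R : ℝ, ∀ x : E3, R ≤ ‖x‖ → ∀ i j,
    |g x i j - (1 : Matrix (Fin 3) (Fin 3) ℝ) i j| ≤ C / ‖x‖ ∧
    (∀ k, |pd k (fun y => g y i j) x| ≤ C / ‖x‖ ^ 2) ∧ |h x i j| ≤ C / ‖x‖ ^ 2

/-- The unit normal vector field `n` of the coordinate spheres with respect to `g`. -/
noncomputable def unitNormal (g : TensorField) (i : Fin 3) (x : E3) : ℝ :=
  (∑ j, (g x)⁻¹ i j * nu x j) / Real.sqrt (∑ k, ∑ l, (g x)⁻¹ k l * nu x k * nu x l)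

/-- The mean curvature of the coordinate spheres with respect to `g`: the divergence `∇_i n^i`
of their unit normal. -/
noncomputable def meanCurvature (g : TensorField) (x : E3) : ℝ :=
  ∑ i, (pd i (unitNormal g i) x + ∑ k, christoffel g i i k x * unitNormal g k x)

/-- The trace of `h` over the tangent plane of the coordinate sphere: `tr_g h - h(n, n)`. -/
noncomputable def sphereTrace (g h : TensorField) (x : E3) : ℝ :=
  traceWith g h x - ∑ i, ∑ j, h x i j * unitNormal g i x * unitNormal g j x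

/-- The area element of the coordinate spheres with respect to `g`, relative to that of the unit
sphere. -/
noncomputable def areaDensity (g : TensorField) (x : E3) : ℝ :=
  Real.sqrt ((g x).det * ∑ i, ∑ j, (g x)⁻¹ i j * nu x i * nu x j) * ‖x‖ ^ 2

/-- The `g`-area of the coordinate sphere of radius `s`. -/
noncomputable def sphereArea (g : TensorField) (s : ℝ) : ℝ :=
  ∫ θ : Metric.sphere (0 : E3) 1, areaDensity g (s • (θ : E3)) ∂((volume : Measure E3).toSphere)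

/-- The coordinate sphere of radius `s` is weakly trapped (to the future or to the past) at each
of its points: `H ≤ |tr_S h|`. -/
def WeaklyTrapped (g h : TensorField) (s : ℝ) : Prop :=
  ∀ x : E3, ‖x‖ = s → meanCurvature g x ≤ |sphereTrace g h x|

/-- The coordinate sphere of radius `s` is untrapped at each of its points: `|tr_S h| < H`. -/
def Untrapped (g h : TensorField) (s : ℝ) : Prop :=
  ∀ x : E3, ‖x‖ = s → |sphereTrace g h x| < meanCurvature g x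

/-- The ratio `φ = tr_S h / H`. -/
noncomputable def expansionRatio (g h : TensorField) (x : E3) : ℝ :=
  sphereTrace g h x / meanCurvature g x

/-- The integral `∫ h(n, ∇_S φ) dA` over the coordinate sphere of radius `s`, where `∇_S φ` is the
tangential gradient of `φ = tr_S h / H`; it equals `-∫ φ div_S (h(n, ·)) dA`. -/
noncomputable def fluxIntegral (g h : TensorField) (s : ℝ) : ℝ :=
  ∫ θ : Metric.sphere (0 : E3) 1,
    ((∑ i, ∑ j, h (s • (θ : E3)) i j * unitNormal g i (s • (θ : E3))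
        * ∑ k, (g (s • (θ : E3)))⁻¹ j k * pd k (expansionRatio g h) (s • (θ : E3)))
      - (∑ i, ∑ j, h (s • (θ : E3)) i j * unitNormal g i (s • (θ : E3))
          * unitNormal g j (s • (θ : E3)))
        * ∑ k, unitNormal g k (s • (θ : E3)) * pd k (expansionRatio g h) (s • (θ : E3)))
      * areaDensity g (s • (θ : E3)) ∂((volume : Measure E3).toSphere)

/-- The condition on the foliation: each coordinate sphere is weakly trapped at all of its
points, or it is untrapped at all of its points and `∫ h(n, ∇_S φ) dA ≤ 0`, `φ = tr_S h / H`. The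
flux condition holds in particular if `tr_S h / H` is constant on the sphere, if `h(n, ·)` vanishes
on vectors tangent to the sphere, and if the tangential part of `h(n, ·)` is divergence-free on the
sphere. -/
def FoliationCondition (a : ℝ) (g h : TensorField) : Prop :=
  ∀ s : ℝ, a < s → WeaklyTrapped g h s ∨ (Untrapped g h s ∧ fluxIntegral g h s ≤ 0)

/-- The inner boundary condition: the data are two-ended (`a = 0` and the areas of the coordinate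
spheres tend to infinity at the origin), or some coordinate sphere is weakly trapped. -/
def InnerCondition (a : ℝ) (g h : TensorField) : Prop :=
  (a = 0 ∧ Tendsto (sphereArea g) (𝓝[>] 0) atTop) ∨ ∃ s : ℝ, a < s ∧ WeaklyTrapped g h s

end Pool.Agent.PenroseConvex


end

section

/-! # Statements of the modules -/

open MeasureTheory Filter Topology
open scoped ContDiff

namespace Pool.Agent.PenroseConvex

open Pool.Agent.PenroseSph

/-- The unit sphere of three-space. -/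
abbrev S2 := Metric.sphere (0 : E3) 1

/-- The surface measure of the unit sphere. -/
noncomputable abbrev mS : Measure S2 := (volume : Measure E3).toSphere

/-- The Kronecker symbol. -/
noncomputable def dk (i j : Fin 3) : ℝ := if i = j then 1 else 0

/-! ## Closed forms in the coordinates of the problem -/

/-- The trace of the matrix of radii. -/
noncomputable def tB (u : E3 → ℝ) (ρ : ℝ → ℝ) (x : E3) : ℝ := ∑ i, radii u ρ x i i

/-- The tangential determinant of the matrix of radii. -/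
noncomputable def dB (u : E3 → ℝ) (ρ : ℝ → ℝ) (x : E3) : ℝ :=
  (tB u ρ x ^ 2 - ∑ i, ∑ j, radii u ρ x i j ^ 2) / 2

/-- The tangential inverse of the matrix of radii. -/
noncomputable def cB (u : E3 → ℝ) (ρ : ℝ → ℝ) (i j : Fin 3) (x : E3) : ℝ :=
  (tB u ρ x * (dk i j - nu x i * nu x j) - radii u ρ x i j) / dB u ρ x

/-- The mean curvature `ρ' tr(B⁻¹) / N`. -/
noncomputable def Hc (u : E3 → ℝ) (ρ : ℝ → ℝ) (N : E3 → ℝ) (x : E3) : ℝ :=
  deriv ρ ‖x‖ / N x * (tB u ρ x / dB u ρ x)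

/-- The trace of `h` over the tangent plane. -/
noncomputable def pc (u : E3 → ℝ) (ρ : ℝ → ℝ) (h : TensorField) (x : E3) : ℝ :=
  ‖x‖ ^ 2 * ∑ i, ∑ j, (∑ k, cB u ρ i k x * cB u ρ k j x) * h x i j

/-- The ratio `tr_S h / H`. -/
noncomputable def phic (u : E3 → ℝ) (ρ : ℝ → ℝ) (N : E3 → ℝ) (h : TensorField) (x : E3) : ℝ :=
  pc u ρ h x / Hc u ρ N x

/-- `(H² - (tr_S h)²) / H₀²`. -/
noncomputable def yc (u : E3 → ℝ) (ρ : ℝ → ℝ) (N : E3 → ℝ) (h : TensorField) (x : E3) : ℝ :=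
  (deriv ρ ‖x‖ / N x) ^ 2 - (pc u ρ h x / (tB u ρ x / dB u ρ x)) ^ 2

/-- The tangential gradient of `log N`. -/
noncomputable def Vc (u : E3 → ℝ) (ρ : ℝ → ℝ) (N : E3 → ℝ) (i : Fin 3) (x : E3) : ℝ :=
  ‖x‖ * ∑ j, cB u ρ i j x * pd j (fun y => Real.log (N y)) x

/-- The tangential part of `h(n, ·)`. -/
noncomputable def Wc (u : E3 → ℝ) (ρ : ℝ → ℝ) (N : E3 → ℝ) (h : TensorField) (i : Fin 3)
    (x : E3) : ℝ :=
  ‖x‖ / N x * ∑ j, ∑ k, cB u ρ i j x * h x j k * nu x k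

/-- The tangential gradient of `tr_S h / H`. -/
noncomputable def Gc (u : E3 → ℝ) (ρ : ℝ → ℝ) (N : E3 → ℝ) (h : TensorField) (i : Fin 3)
    (x : E3) : ℝ :=
  ‖x‖ * ∑ j, cB u ρ i j x * pd j (phic u ρ N h) x

/-- The vector field whose divergence is integrated. -/
noncomputable def bc (u : E3 → ℝ) (ρ : ℝ → ℝ) (N : E3 → ℝ) (h : TensorField) (i : Fin 3)
    (x : E3) : ℝ :=
  deriv ρ ‖x‖ / ‖x‖ * dB u ρ x *
    ∑ j, cB u ρ i j x * (Vc u ρ N j x + phic u ρ N h x * Wc u ρ N h j x)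

/-- `16 π` times the quasi-local energy. -/
noncomputable def En (u : E3 → ℝ) (ρ : ℝ → ℝ) (N : E3 → ℝ) (h : TensorField) (s : ℝ) : ℝ :=
  ∫ θ : S2, tB u ρ (s • (θ : E3)) * (1 - yc u ρ N h (s • (θ : E3))) ∂mS

/-! ### ALG: algebra at a point -/

def Stmt_ALG : Prop := ∀ (a : ℝ) (u : E3 → ℝ) (ρ : ℝ → ℝ) (N : E3 → ℝ) (g h : TensorField),
  ParallelData a u ρ N g h → ∀ x : E3, a < ‖x‖ →
    (∀ i j, radii u ρ x i j = radii u ρ x j i) ∧
    (∀ i, ∑ j, radii u ρ x i j * nu x j = 0) ∧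
    0 < dB u ρ x ∧ 0 < tB u ρ x ∧
    (∀ i j, cB u ρ i j x = cB u ρ j i x) ∧
    (∀ i, ∑ j, cB u ρ i j x * nu x j = 0) ∧
    (∀ i j, ∑ k, radii u ρ x i k * cB u ρ k j x = dk i j - nu x i * nu x j) ∧
    (∑ i, cB u ρ i i x = tB u ρ x / dB u ρ x) ∧
    (∑ i, ∑ j, cB u ρ i j x ^ 2 = (tB u ρ x / dB u ρ x) ^ 2 - 2 / dB u ρ x) ∧
    (∀ i j, (g x)⁻¹ i j = nu x i * nu x j / N x ^ 2
      + ‖x‖ ^ 2 * ∑ k, cB u ρ i k x * cB u ρ k j x) ∧
    (g x).det = N x ^ 2 * dB u ρ x ^ 2 / ‖x‖ ^ 4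

/-! ### SMO: smoothness, and radial derivatives -/

def Stmt_SMO : Prop := ∀ (a : ℝ) (u : E3 → ℝ) (ρ : ℝ → ℝ) (N : E3 → ℝ) (g h : TensorField),
  ParallelData a u ρ N g h →
    (∀ i j, ContDiffOn ℝ ∞ (fun x => radii u ρ x i j) {x : E3 | a < ‖x‖}) ∧
    ContDiffOn ℝ ∞ (tB u ρ) {x : E3 | a < ‖x‖} ∧
    ContDiffOn ℝ ∞ (dB u ρ) {x : E3 | a < ‖x‖} ∧
    (∀ i j, ContDiffOn ℝ ∞ (cB u ρ i j) {x : E3 | a < ‖x‖}) ∧
    ContDiffOn ℝ ∞ (fun x : E3 => deriv ρ ‖x‖) {x : E3 | a < ‖x‖} ∧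
    ContDiffOn ℝ ∞ (Hc u ρ N) {x : E3 | a < ‖x‖} ∧
    ContDiffOn ℝ ∞ (pc u ρ h) {x : E3 | a < ‖x‖} ∧
    ContDiffOn ℝ ∞ (yc u ρ N h) {x : E3 | a < ‖x‖} ∧
    (∀ x : E3, a < ‖x‖ → 0 < deriv ρ ‖x‖ → ContDiffAt ℝ ∞ (phic u ρ N h) x) ∧
    (∀ i, ∀ x : E3, a < ‖x‖ → ContDiffAt ℝ ∞ (Vc u ρ N i) x) ∧
    (∀ i, ∀ x : E3, a < ‖x‖ → ContDiffAt ℝ ∞ (Wc u ρ N h i) x) ∧
    (∀ i, ∀ x : E3, a < ‖x‖ → 0 < deriv ρ ‖x‖ → ContDiffAt ℝ ∞ (bc u ρ N h i) x)

/-- Along a ray the matrix of radii is `D²u(θ) + ρ(s) (1 - θθ)`. -/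
def Stmt_RAY : Prop := ∀ (a : ℝ) (u : E3 → ℝ) (ρ : ℝ → ℝ) (N : E3 → ℝ) (g h : TensorField),
  ParallelData a u ρ N g h →
    (∀ (s : ℝ) (θ : S2), 0 < s → ∀ i j, radii u ρ (s • (θ : E3)) i j
      = pd i (pd j u) (θ : E3) + ρ s * (dk i j - (θ : E3) i * (θ : E3) j)) ∧
    (∀ (s : ℝ) (θ : S2), 0 < s → tB u ρ (s • (θ : E3))
      = (∑ i, pd i (pd i u) (θ : E3)) + 2 * ρ s) ∧
    (∀ (s : ℝ) (θ : S2), 0 < s → dB u ρ (s • (θ : E3))
      = ((∑ i, pd i (pd i u) (θ : E3)) ^ 2 - ∑ i, ∑ j, pd i (pd j u) (θ : E3) ^ 2) / 2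
        + ρ s * (∑ i, pd i (pd i u) (θ : E3)) + ρ s ^ 2) ∧
    (∀ x : E3, a < ‖x‖ → ∑ i, nu x i * pd i (tB u ρ) x = 2 * deriv ρ ‖x‖) ∧
    (∃ C : ℝ, ∀ (θ : S2) (i j : Fin 3), |pd i (pd j u) (θ : E3)| ≤ C)

/-! ### GEO: the geometric quantities in closed form -/

def Stmt_GEO : Prop := ∀ (a : ℝ) (u : E3 → ℝ) (ρ : ℝ → ℝ) (N : E3 → ℝ) (g h : TensorField),
  ParallelData a u ρ N g h → ∀ x : E3, a < ‖x‖ →
    (∀ i, unitNormal g i x = nu x i / N x) ∧
    meanCurvature g x = Hc u ρ N x ∧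
    sphereTrace g h x = pc u ρ h x ∧
    areaDensity g x = dB u ρ x

def Stmt_FLUX : Prop := ∀ (a : ℝ) (u : E3 → ℝ) (ρ : ℝ → ℝ) (N : E3 → ℝ) (g h : TensorField),
  ParallelData a u ρ N g h → ∀ s : ℝ, a < s →
    fluxIntegral g h s = ∫ θ : S2, (∑ i, Wc u ρ N h i (s • (θ : E3)) * Gc u ρ N h i (s • (θ : E3)))
      * dB u ρ (s • (θ : E3)) ∂mS

/-- The dominant energy condition, in the form in which it is used. -/
def Stmt_DEC : Prop := ∀ (a : ℝ) (u : E3 → ℝ) (ρ : ℝ → ℝ) (N : E3 → ℝ) (g h : TensorField),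
  ParallelData a u ρ N g h → DominantEnergy a g h → ∀ x : E3, a < ‖x‖ → ∀ φ : ℝ, |φ| ≤ 1 →
    0 ≤ energyDensity g h x - φ * ∑ i, nu x i / N x * momentumDensity g h i x

/-! ### COV: change of coordinates -/

/-- The Jacobian matrix `∂_i Φ^a`. -/
noncomputable def jac (Φ : E3 → E3) (x : E3) : Matrix (Fin 3) (Fin 3) ℝ :=
  Matrix.of fun a i => pd i (fun y => Φ y a) x

/-- The pull-back of a covariant 2-tensor. -/
noncomputable def pullback (Φ : E3 → E3) (T : TensorField) : TensorField := fun x =>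
  (jac Φ x).transpose * T (Φ x) * jac Φ x

/-- Common hypotheses of the change of coordinates at `x`. -/
structure ChangeAt (Φ : E3 → E3) (G g : TensorField) (x : E3) : Prop where
  smooth : ContDiffAt ℝ ∞ Φ x
  smooth_G : ∀ i j, ContDiffAt ℝ ∞ (fun y => G y i j) (Φ x)
  symm_G : ∀ᶠ y in 𝓝 (Φ x), (G y).IsSymm
  det_G : (G (Φ x)).det ≠ 0
  det_jac : (jac Φ x).det ≠ 0
  eq : ∀ᶠ y in 𝓝 x, g y = pullback Φ G y

/-- The Christoffel symbols: `Φ^a_k Γ(g)^k_ij = Γ(G)^a_bc Φ^b_i Φ^c_j + Φ^a_ij`. -/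
def Stmt_COVC : Prop := ∀ (Φ : E3 → E3) (G g : TensorField) (x : E3), ChangeAt Φ G g x →
  ∀ a i j, ∑ k, jac Φ x a k * christoffel g k i j x
    = (∑ b, ∑ c, christoffel G a b c (Φ x) * jac Φ x b i * jac Φ x c j)
      + pd i (pd j (fun y => Φ y a)) x

def Stmt_COVR : Prop := ∀ (Φ : E3 → E3) (G g : TensorField) (x : E3), ChangeAt Φ G g x →
  scalarCurvature g x = scalarCurvature G (Φ x)

/-- Covariance of the trace, the square length and the momentum density. -/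
def Stmt_COVJ : Prop := ∀ (Φ : E3 → E3) (G g K h : TensorField) (x : E3), ChangeAt Φ G g x →
  (∀ i j, ContDiffAt ℝ ∞ (fun y => K y i j) (Φ x)) → (∀ᶠ y in 𝓝 x, h y = pullback Φ K y) →
  traceWith g h x = traceWith G K (Φ x) ∧
  normSqWith g h x = normSqWith G K (Φ x) ∧
  ∀ i, momentumDensity g h i x = ∑ a, jac Φ x a i * momentumDensity G K a (Φ x)

/-! ### X-space: the metric `δ + (M² - 1) dd ⊗ dd`, `|∇d| = 1` -/

/-- The metric `δ + (M² - 1) dd ⊗ dd`. -/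
noncomputable def xg (d M : E3 → ℝ) : TensorField := fun X =>
  Matrix.of fun i j => dk i j + (M X ^ 2 - 1) * (pd i d X * pd j d X)

/-- The Laplacian of `d`. -/
noncomputable def xH (d : E3 → ℝ) (X : E3) : ℝ := ∑ i, pd i (pd i d) X

/-- The squared length of the Hessian of `d`. -/
noncomputable def xQ (d : E3 → ℝ) (X : E3) : ℝ := ∑ i, ∑ j, pd i (pd j d) X ^ 2

/-- The trace of `k` over the tangent plane of the level set of `d`. -/
noncomputable def xp (d : E3 → ℝ) (k : TensorField) (X : E3) : ℝ :=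
  (∑ i, k X i i) - ∑ i, ∑ j, k X i j * pd i d X * pd j d X

/-- The ratio of `xp` and the mean curvature. -/
noncomputable def xphi (d M : E3 → ℝ) (k : TensorField) (X : E3) : ℝ := xp d k X * M X / xH d X

/-- The function `1/M² - (xp/xH)²`. -/
noncomputable def xy (d M : E3 → ℝ) (k : TensorField) (X : E3) : ℝ :=
  1 / M X ^ 2 - (xp d k X / xH d X) ^ 2

/-- The tangential gradient of `log M`. -/
noncomputable def xV (d M : E3 → ℝ) (i : Fin 3) (X : E3) : ℝ :=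
  pd i (fun Y => Real.log (M Y)) X
    - pd i d X * ∑ j, pd j d X * pd j (fun Y => Real.log (M Y)) X

/-- The tangential part of `k ∇d`. -/
noncomputable def xkm (d : E3 → ℝ) (k : TensorField) (i : Fin 3) (X : E3) : ℝ :=
  (∑ j, k X i j * pd j d X) - pd i d X * ∑ j, ∑ l, k X j l * pd j d X * pd l d X

/-- The tangential part of `k(n, ·)`, `n = ∇d / M`. -/
noncomputable def xW (d M : E3 → ℝ) (k : TensorField) (i : Fin 3) (X : E3) : ℝ :=
  xkm d k i X / M X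

/-- Common hypotheses. -/
structure XData (d M : E3 → ℝ) (k : TensorField) (X : E3) : Prop where
  smooth_d : ContDiffAt ℝ ∞ d X
  smooth_M : ContDiffAt ℝ ∞ M X
  smooth_k : ∀ i j, ContDiffAt ℝ ∞ (fun Y => k Y i j) X
  symm_k : ∀ᶠ Y in 𝓝 X, (k Y).IsSymm
  pos_M : 0 < M X
  eikonal : ∀ᶠ Y in 𝓝 X, ∑ i, pd i d Y ^ 2 = 1

/-- Consequences of the eikonal equation: `B m = 0` and `(m·∇) B = - B²`. -/
def Stmt_XEIK : Prop := ∀ (d M : E3 → ℝ) (k : TensorField) (X : E3), XData d M k X →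
  (∀ i j, pd i (pd j d) X = pd j (pd i d) X) ∧
  (∀ i, ∑ j, pd i (pd j d) X * pd j d X = 0) ∧
  (∀ i j, ∑ l, pd l (pd i (pd j d)) X * pd l d X
    = - ∑ l, pd i (pd l d) X * pd l (pd j d) X) ∧
  ∑ l, pd l d X * pd l (xH d) X = - xQ d X

/-- The scalar curvature, when `∇d` is the third unit vector at the point. -/
def Stmt_XR3 : Prop := ∀ (d M : E3 → ℝ) (k : TensorField) (X : E3), XData d M k X →
  pd 0 d X = 0 → pd 1 d X = 0 → pd 2 d X = 1 →
  scalarCurvature (xg d M) X = (xH d X ^ 2 - xQ d X) * (1 - 1 / M X ^ 2)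
    + 2 * xH d X * pd 2 M X / M X ^ 3
    - 2 * (pd 0 (pd 0 M) X + pd 1 (pd 1 M) X - xH d X * pd 2 M X) / M X

/-- The momentum density, when `∇d` is the third unit vector at the point. -/
def Stmt_XJ3 : Prop := ∀ (d M : E3 → ℝ) (k : TensorField) (X : E3), XData d M k X →
  pd 0 d X = 0 → pd 1 d X = 0 → pd 2 d X = 1 →
  momentumDensity (xg d M) k 2 X = - pd 2 (xp d k) X + xH d X * k X 2 2 / M X ^ 2
    - (∑ i, ∑ j, pd i (pd j d) X * k X i j) + (∑ i, pd i (xkm d k i) X)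
    + ∑ i, xkm d k i X * pd i (fun Y => Real.log (M Y)) X

/-- The scalar curvature. -/
def Stmt_XR : Prop := ∀ (d M : E3 → ℝ) (k : TensorField) (X : E3), XData d M k X →
  scalarCurvature (xg d M) X = (xH d X ^ 2 - xQ d X) * (1 - 1 / M X ^ 2)
    + 2 * xH d X * (∑ i, pd i d X * pd i M X) / M X ^ 3
    - 2 * ((∑ i, pd i (pd i M) X) - (∑ i, ∑ j, pd i d X * pd j d X * pd i (pd j M) X)
        - xH d X * ∑ i, pd i d X * pd i M X) / M X

/-- The momentum density. -/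
def Stmt_XJ : Prop := ∀ (d M : E3 → ℝ) (k : TensorField) (X : E3), XData d M k X →
  ∑ i, pd i d X * momentumDensity (xg d M) k i X = - (∑ i, pd i d X * pd i (xp d k) X)
    + xH d X * (∑ i, ∑ j, k X i j * pd i d X * pd j d X) / M X ^ 2
    - (∑ i, ∑ j, pd i (pd j d) X * k X i j) + (∑ i, pd i (xkm d k i) X)
    + ∑ i, xkm d k i X * pd i (fun Y => Real.log (M Y)) X

/-- The trace and the square length of `k`. -/
def Stmt_XN : Prop := ∀ (d M : E3 → ℝ) (k : TensorField) (X : E3), XData d M k X →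
  traceWith (xg d M) k X = (∑ i, ∑ j, k X i j * pd i d X * pd j d X) / M X ^ 2 + xp d k X ∧
  normSqWith (xg d M) k X = ((∑ i, ∑ j, k X i j * pd i d X * pd j d X) / M X ^ 2) ^ 2
    + 2 * (∑ i, xW d M k i X ^ 2)
    + ∑ i, ∑ j, (k X i j - pd i d X * xkm d k j X - pd j d X * xkm d k i X
        - pd i d X * pd j d X * ∑ a, ∑ b, k X a b * pd a d X * pd b d X) ^ 2

/-- The master inequality in X-space. -/
def Stmt_XMI : Prop := ∀ (d M : E3 → ℝ) (k : TensorField) (X : E3), XData d M k X →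
  xH d X ≠ 0 →
  xH d X * (∑ i, pd i d X * pd i (xy d M k) X) + (xH d X ^ 2 - xQ d X) * xy d M k X
    ≤ (xH d X ^ 2 - xQ d X)
      - 2 * (∑ i, pd i (fun Y => xV d M i Y + xphi d M k Y * xW d M k i Y) X)
      - 2 * ((∑ i, xV d M i X ^ 2) + (∑ i, xW d M k i X ^ 2)
          + 2 * xphi d M k X * (∑ i, xV d M i X * xW d M k i X)
          - ∑ i, xW d M k i X * pd i (xphi d M k) X)
      - 2 * (energyDensity (xg d M) k X
          - xphi d M k X * ∑ i, pd i d X / M X * momentumDensity (xg d M) k i X)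

/-! ### BRI: from X-space to the coordinates of the problem -/

/-- `Φ = ∇U`, `U = u + ∫ρ`, maps the data to X-space. -/
structure Bridge (u : E3 → ℝ) (ρ : ℝ → ℝ) (N : E3 → ℝ) (g h : TensorField) (Φ : E3 → E3)
    (d M : E3 → ℝ) (k : TensorField) (x : E3) : Prop where
  smooth : ContDiffAt ℝ ∞ Φ x
  xdata : XData d M k (Φ x)
  jac_eq : ∀ᶠ y in 𝓝 x, ∀ a i, jac Φ y a i
    = radii u ρ y a i / ‖y‖ + deriv ρ ‖y‖ * (nu y a * nu y i)
  grad_eq : ∀ᶠ y in 𝓝 x, ∀ i, pd i d (Φ y) = nu y i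
  lapse_eq : ∀ᶠ y in 𝓝 x, M (Φ y) = N y / deriv ρ ‖y‖
  hess_eq : ∀ᶠ y in 𝓝 x, ∀ i j, pd i (pd j d) (Φ y) = cB u ρ i j y
  metric_eq : ∀ᶠ y in 𝓝 x, g y = pullback Φ (xg d M) y
  tensor_eq : ∀ᶠ y in 𝓝 x, h y = pullback Φ k y

def Stmt_LOC : Prop := ∀ (a : ℝ) (u : E3 → ℝ) (ρ : ℝ → ℝ) (N : E3 → ℝ) (g h : TensorField),
  ParallelData a u ρ N g h → ∀ x : E3, a < ‖x‖ → 0 < deriv ρ ‖x‖ →
    ∃ (Φ : E3 → E3) (d M : E3 → ℝ) (k : TensorField), Bridge u ρ N g h Φ d M k x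

/-- The quantities of X-space in the coordinates of the problem. -/
def Stmt_TRX : Prop := ∀ (a : ℝ) (u : E3 → ℝ) (ρ : ℝ → ℝ) (N : E3 → ℝ) (g h : TensorField),
  ParallelData a u ρ N g h → ∀ x : E3, a < ‖x‖ → 0 < deriv ρ ‖x‖ →
    ∀ (Φ : E3 → E3) (d M : E3 → ℝ) (k : TensorField), Bridge u ρ N g h Φ d M k x →
    ∀ᶠ y in 𝓝 x, xH d (Φ y) = tB u ρ y / dB u ρ y ∧
      xQ d (Φ y) = (tB u ρ y / dB u ρ y) ^ 2 - 2 / dB u ρ y ∧
      xp d k (Φ y) = pc u ρ h y ∧ xphi d M k (Φ y) = phic u ρ N h y ∧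
      xy d M k (Φ y) = yc u ρ N h y ∧
      (∀ i, xV d M i (Φ y) = Vc u ρ N i y) ∧ (∀ i, xW d M k i (Φ y) = Wc u ρ N h i y)

/-- The chain rule along `Φ`: radial and tangential derivatives. -/
def Stmt_CHN : Prop := ∀ (a : ℝ) (u : E3 → ℝ) (ρ : ℝ → ℝ) (N : E3 → ℝ) (g h : TensorField),
  ParallelData a u ρ N g h → ∀ x : E3, a < ‖x‖ → 0 < deriv ρ ‖x‖ →
    ∀ (Φ : E3 → E3) (d M : E3 → ℝ) (k : TensorField), Bridge u ρ N g h Φ d M k x →
    ∀ (F f : E3 → ℝ), DifferentiableAt ℝ F (Φ x) → (∀ᶠ y in 𝓝 x, F (Φ y) = f y) →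
      (∑ i, nu x i * pd i f x = deriv ρ ‖x‖ * ∑ i, nu x i * pd i F (Φ x)) ∧
      (∀ z : Fin 3 → ℝ, ∑ i, nu x i * z i = 0 →
        ∑ i, z i * pd i F (Φ x) = ∑ i, z i * (‖x‖ * ∑ j, cB u ρ i j x * pd j f x))

/-- The Piola identity for tangential fields. -/
def Stmt_PIO : Prop := ∀ (a : ℝ) (u : E3 → ℝ) (ρ : ℝ → ℝ) (N : E3 → ℝ) (g h : TensorField),
  ParallelData a u ρ N g h → ∀ x : E3, a < ‖x‖ → 0 < deriv ρ ‖x‖ →
    ∀ (Φ : E3 → E3) (d M : E3 → ℝ) (k : TensorField), Bridge u ρ N g h Φ d M k x →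
    ∀ (Z z : Fin 3 → E3 → ℝ), (∀ i, DifferentiableAt ℝ (Z i) (Φ x)) →
      (∀ᶠ y in 𝓝 x, ∀ i, Z i (Φ y) = z i y) → (∀ᶠ y in 𝓝 x, ∑ i, nu y i * z i y = 0) →
      (∑ i, pd i (Z i) (Φ x)) * (deriv ρ ‖x‖ * dB u ρ x / ‖x‖ ^ 2)
        = ∑ i, pd i (fun y => deriv ρ ‖y‖ / ‖y‖ * dB u ρ y * ∑ j, cB u ρ i j y * z j y) x

/-- The master inequality in the coordinates of the problem. -/
def Stmt_MI : Prop := ∀ (a : ℝ) (u : E3 → ℝ) (ρ : ℝ → ℝ) (N : E3 → ℝ) (g h : TensorField),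
  ParallelData a u ρ N g h → ∀ x : E3, a < ‖x‖ → 0 < deriv ρ ‖x‖ →
    ∑ i, nu x i * pd i (fun y => tB u ρ y * yc u ρ N h y) x
      ≤ 2 * deriv ρ ‖x‖ - 2 * ‖x‖ ^ 2 * (∑ i, pd i (bc u ρ N h i) x)
        - 2 * deriv ρ ‖x‖ * dB u ρ x * ((∑ i, Vc u ρ N i x ^ 2) + (∑ i, Wc u ρ N h i x ^ 2)
          + 2 * phic u ρ N h x * (∑ i, Vc u ρ N i x * Wc u ρ N h i x)
          - ∑ i, Wc u ρ N h i x * Gc u ρ N h i x)
        - 2 * deriv ρ ‖x‖ * dB u ρ x * (energyDensity g h x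
          - phic u ρ N h x * ∑ i, nu x i / N x * momentumDensity g h i x)

/-! ### Integration -/

/-- Differentiation under the integral over coordinate spheres. -/
def Stmt_DIF : Prop := ∀ (a : ℝ) (F : E3 → ℝ), 0 ≤ a → ContDiffOn ℝ 1 F {x : E3 | a < ‖x‖} →
  ∀ s : ℝ, a < s → HasDerivAt (fun t : ℝ => ∫ θ : S2, F (t • (θ : E3)) ∂mS)
    (∫ θ : S2, (∑ i, nu (s • (θ : E3)) i * pd i F (s • (θ : E3))) ∂mS) s

/-- Monotonicity of the energy. -/
def Stmt_MONO : Prop := ∀ (a : ℝ) (u : E3 → ℝ) (ρ : ℝ → ℝ) (N : E3 → ℝ) (g h : TensorField),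
  ParallelData a u ρ N g h → DominantEnergy a g h → ∀ s₀ : ℝ, a < s₀ →
    (∀ s : ℝ, s₀ < s → Untrapped g h s ∧ fluxIntegral g h s ≤ 0) →
    ∀ s : ℝ, s₀ ≤ s → En u ρ N h s₀ ≤ En u ρ N h s

/-- Minkowski's inequality. -/
def Stmt_MINK : Prop := ∀ (a : ℝ) (u : E3 → ℝ) (ρ : ℝ → ℝ) (N : E3 → ℝ) (g h : TensorField),
  ParallelData a u ρ N g h → ∀ s : ℝ, a < s →
    16 * Real.pi * (∫ θ : S2, dB u ρ (s • (θ : E3)) ∂mS)
      ≤ (∫ θ : S2, tB u ρ (s • (θ : E3)) ∂mS) ^ 2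

/-! ### Asymptotics -/

/-- Decay of the functions at infinity. -/
def Stmt_DCY : Prop := ∀ (a : ℝ) (u : E3 → ℝ) (ρ : ℝ → ℝ) (N : E3 → ℝ) (g h : TensorField),
  ParallelData a u ρ N g h → ∃ C R : ℝ, a < R ∧ 1 ≤ R ∧ ∀ s : ℝ, R ≤ s →
    |ρ s - s| ≤ C ∧ |deriv ρ s - 1| ≤ C / s ∧
    ∀ θ : S2, |N (s • (θ : E3)) ^ 2 - 1| ≤ C / s ∧ |pc u ρ h (s • (θ : E3))| ≤ C / s ^ 2 ∧
      |tB u ρ (s • (θ : E3)) - 2 * s| ≤ C ∧ |dB u ρ (s • (θ : E3)) - s ^ 2| ≤ C * s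

/-- The mass integral. -/
def Stmt_MASS : Prop := ∀ (a : ℝ) (u : E3 → ℝ) (ρ : ℝ → ℝ) (N : E3 → ℝ) (g h : TensorField),
  ParallelData a u ρ N g h → ∀ s : ℝ, a < s →
    16 * Real.pi * massIntegral g s = ∫ θ : S2, (2 * s * N (s • (θ : E3)) ^ 2
      + (tB u ρ (s • (θ : E3)) ^ 2 - 2 * dB u ρ (s • (θ : E3))) / s
      - 2 * deriv ρ s * tB u ρ (s • (θ : E3))) ∂mS

/-- The energy tends to the mass. -/
def Stmt_LIM : Prop := ∀ (a : ℝ) (u : E3 → ℝ) (ρ : ℝ → ℝ) (N : E3 → ℝ) (g h : TensorField),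
  ParallelData a u ρ N g h → ∀ m : ℝ, IsTotalMass g m →
    Tendsto (fun s => En u ρ N h s / (16 * Real.pi)) atTop (𝓝 m)

/-- Far out the spheres are untrapped. -/
def Stmt_FAR : Prop := ∀ (a : ℝ) (u : E3 → ℝ) (ρ : ℝ → ℝ) (N : E3 → ℝ) (g h : TensorField),
  ParallelData a u ρ N g h → ∃ R : ℝ, a < R ∧ ∀ s : ℝ, R ≤ s → Untrapped g h s

/-- The outermost weakly trapped sphere. -/
def Stmt_OUT : Prop := ∀ (a : ℝ) (u : E3 → ℝ) (ρ : ℝ → ℝ) (N : E3 → ℝ) (g h : TensorField),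
  ParallelData a u ρ N g h → FoliationCondition a g h → InnerCondition a g h →
    ∃ s₀ : ℝ, a < s₀ ∧ WeaklyTrapped g h s₀ ∧
      ∀ s : ℝ, s₀ < s → Untrapped g h s ∧ fluxIntegral g h s ≤ 0

/-- The final theorem. -/
def Stmt_FINAL : Prop := ∀ (a : ℝ) (u : E3 → ℝ) (ρ : ℝ → ℝ) (N : E3 → ℝ) (g h : TensorField),
  ParallelData a u ρ N g h → DominantEnergy a g h → FoliationCondition a g h →
    InnerCondition a g h → ∀ m : ℝ, IsTotalMass g m →
    ∃ s : ℝ, a < s ∧ WeaklyTrapped g h s ∧ (∀ t : ℝ, s < t → Untrapped g h t) ∧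
      Real.sqrt (sphereArea g s / (16 * Real.pi)) ≤ m

end Pool.Agent.PenroseConvex


end
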