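import Mathlib
import Pool.Agent.PFlow.DefsG
import Pool.Agent.PenroseM.C11

/-! Parts: PFlow.StmtsG, PFlow.G.Base, PFlow.G.SCHUR, PFlow.G.DENS, PFlow.G.CHART, PFlow.G.CUT -/

section

/-!
# Statements of the block GB (see `GB.md`)
-/

open MeasureTheory Filter Topology
open scoped ContDiff

namespace Pool.Agent.PFlow.GB

open Pool.Agent.PenroseSph Pool.Agent.PFlow

/-! ## Definitions -/

/-- `g` is a smooth metric and `W` is smooth without critical points, near `x`. -/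
def Reg (g : TensorField) (W : E3 → ℝ) (x : E3) : Prop :=
  ∃ O : Set E3, IsOpen O ∧ x ∈ O ∧ MetricOn O g ∧ ContDiffOn ℝ ∞ W O ∧ ∀ y ∈ O, grad W y ≠ 0

/-- The projection `P^{ij} = g^{ij} - ν^i ν^j`. -/
noncomputable def prj (g : TensorField) (x : E3) (p : Cov) (i j : Fin 3) : ℝ :=
  (g x)⁻¹ i j - nrm g x p i * nrm g x p j

/-- The vector `P A`. -/
noncomputable def prv (g : TensorField) (x : E3) (p : Cov) (A : Cov) : Cov := fun i =>
  ∑ j, prj g x p i j * A j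

/-- The vector field
`X = ((1/2) grad f - (L φ) grad φ - f grad u) / (f + δ e^{2u})`, `f = ⟨dφ, dφ⟩`. -/
noncomputable def Xf (g : TensorField) (W φ u : E3 → ℝ) (δ : ℝ) (x : E3) : Cov := fun i =>
  (lgrad g W (lin g W φ φ) x i / 2 - lap g W φ x * lgrad g W φ x i
    - lin g W φ φ x * lgrad g W u x i) / (lin g W φ φ x + δ * Real.exp (2 * u x))

/-- The function `q(x,y) = (1/2) (g_ij(x) + g_ij(y)) v^i v^j`, `v = x - y`. -/
noncomputable def qf (g : TensorField) (x y : E3) : ℝ :=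
  (1 / 2) * ∑ i, ∑ j, (g x i j + g y i j) * (x i - y i) * (x j - y j)

/-- The radial profile of the kernel. -/
noncomputable def eta (s : ℝ) : ℝ := Real.smoothTransition (1 - s)

/-- The profile of the kernel across the leaves. -/
noncomputable def tht (s : ℝ) : ℝ := Real.smoothTransition (1 - s ^ 2)

open Classical in
/-- The kernel `k_t(x,y)`. -/
noncomputable def ker (g : TensorField) (W : E3 → ℝ) (r0 t : ℝ) (x y : E3) : ℝ :=
  if dist x y < r0 then eta (qf g x y / t) * tht ((W x - W y) / t) / t ^ 2 else 0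

/-- A family of smoothing kernels adapted to the leaves in `cslab V W c d`. -/
structure Moll (V : Set E3) (g : TensorField) (W : E3 → ℝ) (c d : ℝ) (k : ℝ → E3 → E3 → ℝ)
    (t0 R C m0 : ℝ) : Prop where
  t0_pos : 0 < t0
  R_pos : 0 < R
  C_pos : 0 < C
  m0_pos : 0 < m0
  symm : ∀ t x y, k t x y = k t y x
  nonneg : ∀ t x y, 0 < t → 0 ≤ k t x y
  le : ∀ t x y, 0 < t → k t x y ≤ C / t ^ 2
  smooth : ∀ t, 0 < t → t < t0 → ∃ N : Set E3, IsOpen N ∧ cslab V W c d ⊆ N ∧ N ⊆ V ∧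
    ContDiffOn ℝ ∞ (fun q : E3 × E3 => k t q.1 q.2) (N ×ˢ Set.univ)
  supp : ∀ t, 0 < t → t < t0 → ∀ x ∈ cslab V W c d, ∀ y, k t x y ≠ 0 →
    y ∈ V ∧ dist x y ≤ R * Real.sqrt t ∧ |W x - W y| < t
  ball : ∀ t, 0 < t → t < t0 → ∀ x ∈ cslab V W c d, ∀ y, dist x y ≤ R * Real.sqrt t → y ∈ V
  comm : ∀ t, 0 < t → t < t0 → ∀ x ∈ cslab V W c d, ∀ y ∈ cslab V W c d,
    |lap g W (fun z => k t z y) x - lap g W (fun z => k t x z) y| ≤ C / t ^ 2
  loc : ∀ t, 0 < t → t < t0 → ∀ x ∈ cslab V W c d, ∀ y ∈ cslab V W c d,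
    ¬ (dist x y ≤ R * Real.sqrt t ∧ |W x - W y| ≤ t) →
    lap g W (fun z => k t z y) x = 0 ∧ lap g W (fun z => k t x z) y = 0
  vol : ∀ t, 0 < t → t < t0 → ∀ x ∈ cslab V W c d,
    volume {y | dist x y ≤ R * Real.sqrt t ∧ |W x - W y| ≤ t} ≤ ENNReal.ofReal (C * t ^ 2)
  mass : ∀ x ∈ slab V W c d,
    Tendsto (fun t => ∫ y in slab V W c d, k t x y * dens g W y) (𝓝[>] 0) (𝓝 m0)

/-- The smoothed function `v_t`. -/
noncomputable def moll (V : Set E3) (g : TensorField) (W : E3 → ℝ) (c d : ℝ)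
    (k : ℝ → E3 → E3 → ℝ) (t : ℝ) (v : E3 → ℝ) (x : E3) : ℝ :=
  ∫ y in slab V W c d, k t x y * v y * dens g W y

/-- The commutator `e_t(x) = ∫ (L_x k_t - L_y k_t) v m dy`. -/
noncomputable def cmt (V : Set E3) (g : TensorField) (W : E3 → ℝ) (c d : ℝ)
    (k : ℝ → E3 → E3 → ℝ) (t : ℝ) (v : E3 → ℝ) (x : E3) : ℝ :=
  ∫ y in slab V W c d,
    (lap g W (fun z => k t z y) x - lap g W (fun z => k t x z) y) * v y * dens g W y

/-- The point with coordinates `a, b, s`. -/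
noncomputable def pt (a b s : ℝ) : E3 := !₂[a, b, s]

/-- The closed box. -/
def box (z0 : E3) (r e : ℝ) : Set E3 :=
  {z | |z 0 - z0 0| ≤ r ∧ |z 1 - z0 1| ≤ r ∧ |z 2 - z0 2| ≤ e}

/-- The open box. -/
def obox (z0 : E3) (r e : ℝ) : Set E3 :=
  {z | |z 0 - z0 0| < r ∧ |z 1 - z0 1| < r ∧ |z 2 - z0 2| < e}

/-- A chart adapted to the leaves: `W (Φ z) = z 2`. -/
structure Chart (V : Set E3) (W : E3 → ℝ) (Φ : E3 → E3) (z0 : E3) (r e : ℝ) : Prop where
  r_pos : 0 < r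
  e_pos : 0 < e
  nbhd : ∃ N : Set E3, IsOpen N ∧ box z0 r e ⊆ N ∧ ContDiffOn ℝ ∞ Φ N ∧ Set.InjOn Φ N ∧
    Set.MapsTo Φ N V ∧ (∀ z ∈ N, (fderiv ℝ Φ z).det ≠ 0) ∧ ∀ z ∈ N, W (Φ z) = z 2

/-- The density of the measure `m dx` in the chart. -/
noncomputable def jac (g : TensorField) (W : E3 → ℝ) (Φ : E3 → E3) (z : E3) : ℝ :=
  dens g W (Φ z) * |(fderiv ℝ Φ z).det|

/-- The integral of `F` over the part of the leaf `W = s` in the chart. -/
noncomputable def cint (g : TensorField) (W : E3 → ℝ) (Φ : E3 → E3) (z0 : E3) (r : ℝ)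
    (F : E3 → ℝ) (s : ℝ) : ℝ :=
  ∫ a in Set.Ioo (z0 0 - r) (z0 0 + r), ∫ b in Set.Ioo (z0 1 - r) (z0 1 + r),
    F (Φ (pt a b s)) * jac g W Φ (pt a b s)

/-- Bounded measurable functions on `E3`. -/
def BddMeas (ρ : E3 → ℝ) : Prop := Measurable ρ ∧ ∃ B, ∀ x, |ρ x| ≤ B

/-- Bounded measurable functions on `ℝ`. -/
def BddMeasR (γ : ℝ → ℝ) : Prop := Measurable γ ∧ ∃ B, ∀ s, |γ s| ≤ B

/-- `ρ` is a leafwise divergence in the weak sense, on `slab V W (s0 - e) (s0 + e)`. -/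
def NullOn (V : Set E3) (g : TensorField) (W : E3 → ℝ) (s0 e : ℝ) (ρ : E3 → ℝ) : Prop :=
  ∃ C : ℝ, 0 ≤ C ∧ ∀ α : ℝ → ℝ, BddMeasR α → ∀ v : E3 → ℝ, ContDiffOn ℝ 1 v V →
    |∫ x in slab V W (s0 - e) (s0 + e), ρ x * α (W x) * v x * dens g W x| ≤
      C * ∫ x in slab V W (s0 - e) (s0 + e),
        |α (W x)| * Real.sqrt (lin g W v v x) * dens g W x

/-- The pole function `x ↦ q(x, p(W x))` of the curve `p(s) = Φ(z0_0 + τ, z0_1, s)`. -/
noncomputable def rp (g : TensorField) (W : E3 → ℝ) (Φ : E3 → E3) (z0 : E3) (τ : ℝ) (x : E3) : ℝ :=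
  qf g x (Φ (pt (z0 0 + τ) (z0 1) (W x)))

/-- The truncated logarithm: `log s` for `s ≤ t1/2`, `0` for `s ≥ t1`. -/
noncomputable def lg (t1 s : ℝ) : ℝ := Real.log s * Real.smoothTransition (2 - 2 * s / t1)

open Classical in
/-- The singular function `φ₀`. -/
noncomputable def phi0 (g : TensorField) (W : E3 → ℝ) (Φ : E3 → E3) (z0 : E3) (r e t1 : ℝ)
    (x : E3) : ℝ :=
  if x ∈ Φ '' obox z0 r e then
    (lg t1 (rp g W Φ z0 (-(r / 2)) x) - lg t1 (rp g W Φ z0 (r / 2) x)) / 2 else 0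

/-- The two curves. -/
def sing (g : TensorField) (W : E3 → ℝ) (Φ : E3 → E3) (z0 : E3) (r e : ℝ) : Set E3 :=
  {x | x ∈ Φ '' obox z0 r e ∧ (rp g W Φ z0 (-(r / 2)) x = 0 ∨ rp g W Φ z0 (r / 2) x = 0)}

open Classical in
/-- The function `ρ₀ = L φ₀` off the curves, `0` on them. -/
noncomputable def rho0 (g : TensorField) (W : E3 → ℝ) (Φ : E3 → E3) (z0 : E3) (r e t1 : ℝ)
    (x : E3) : ℝ :=
  if x ∈ sing g W Φ z0 r e then 0 else lap g W (phi0 g W Φ z0 r e t1) x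

/-- The two poles are separated at the level `t1`: in the chart, each pole function is at least
`t1` where the other one is at most `t1` and near the lateral boundary of the box. -/
def SepAt (g : TensorField) (W : E3 → ℝ) (Φ : E3 → E3) (z0 : E3) (r e t1 : ℝ) : Prop :=
  0 < t1 ∧ ∀ z ∈ box z0 r e, ∀ τ : ℝ, (τ = r / 2 ∨ τ = -(r / 2)) →
    rp g W Φ z0 τ (Φ z) ≤ t1 → |z 0 - (z0 0 + τ)| ≤ r / 4 ∧ |z 1 - z0 1| ≤ r / 4

/-! ## 1. Algebra and calculus -/

/-- (ALG) Linear algebra at a point. -/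
def Stmt_ALG : Prop :=
  ∀ (g : TensorField) (x : E3) (p : Cov), (g x).PosDef → p ≠ 0 →
    0 < len g x p ∧ 0 < volDen g x ∧
    (∑ i, nrm g x p i * p i = len g x p) ∧ ev (g x) (nrm g x p) (nrm g x p) = 1 ∧
    (∀ i j, prj g x p i j = prj g x p j i) ∧ (∀ i, ∑ j, prj g x p i j * p j = 0) ∧
    (∀ i l, ∑ j, ∑ k, prj g x p i j * g x j k * prj g x p k l = prj g x p i l) ∧
    (∑ i, ∑ j, prj g x p i j * g x i j = 2) ∧
    (∀ A B : Cov, lip g x p A B = ∑ i, ∑ j, prj g x p i j * A i * B j) ∧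
    (∀ A B : Cov, lip g x p A B = lip g x p B A) ∧
    (∀ B : Cov, lip g x p p B = 0) ∧ (∀ A : Cov, 0 ≤ lip g x p A A) ∧
    (∀ A B : Cov, lip g x p A B ^ 2 ≤ lip g x p A A * lip g x p B B) ∧
    (∀ A : Cov, ev (g x)⁻¹ A A = lip g x p A A + (∑ i, A i * nrm g x p i) ^ 2) ∧
    (∀ A T : Cov, ∑ i, T i * p i = 0 →
      (∑ i, A i * T i) ^ 2 ≤ lip g x p A A * ev (g x) T T)

/-- (DET) The density in a chart is the area density of the leaves. -/
def Stmt_DET : Prop :=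
  ∀ (g : TensorField) (x : E3) (p : Cov) (T0 T1 T2 : Cov), (g x).PosDef → p ≠ 0 →
    ∑ i, T0 i * p i = 0 → ∑ i, T1 i * p i = 0 → ∑ i, T2 i * p i = 1 →
    (Matrix.of ![T0, T1, T2]).det ^ 2 * (g x).det * len g x p ^ 2 =
      ev (g x) T0 T0 * ev (g x) T1 T1 - ev (g x) T0 T1 ^ 2

/-- (SMO) Smoothness of the leafwise objects. -/
def Stmt_SMO : Prop :=
  (∀ (V : Set E3) (a b : ℝ) (g : TensorField) (W : E3 → ℝ), Fol V a b g W → ∀ x ∈ V,
    Reg g W x) ∧
  ∀ (g : TensorField) (W : E3 → ℝ) (x : E3), Reg g W x →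
    (∀ᶠ y in 𝓝 x, Reg g W y) ∧
    0 < len g x (grad W x) ∧ 0 < volDen g x ∧ 0 < dens g W x ∧
    (∀ i j, ContDiffAt ℝ ∞ (fun y => g y i j) x) ∧
    (∀ i j, ContDiffAt ℝ ∞ (fun y => (g y)⁻¹ i j) x) ∧
    ContDiffAt ℝ ∞ (fun y => len g y (grad W y)) x ∧ ContDiffAt ℝ ∞ (volDen g) x ∧
    ContDiffAt ℝ ∞ (dens g W) x ∧
    (∀ i, ContDiffAt ℝ ∞ (fun y => nrm g y (grad W y) i) x) ∧
    (∀ i j, ContDiffAt ℝ ∞ (fun y => prj g y (grad W y) i j) x) ∧
    ContDiffAt ℝ ∞ (curv g W) x ∧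
    (∀ f h : E3 → ℝ, ContDiffAt ℝ ∞ f x → ContDiffAt ℝ ∞ h x →
      ContDiffAt ℝ ∞ (lin g W f h) x ∧ ContDiffAt ℝ ∞ (lap g W f) x ∧
      ∀ i, ContDiffAt ℝ ∞ (fun y => lgrad g W f y i) x) ∧
    (∀ (n : ℕ) (f h : E3 → ℝ), ContDiffAt ℝ ((n + 1 : ℕ) : WithTop ℕ∞) f x →
      ContDiffAt ℝ ((n + 1 : ℕ) : WithTop ℕ∞) h x →
      ContDiffAt ℝ (n : WithTop ℕ∞) (lin g W f h) x ∧
      ∀ i, ContDiffAt ℝ (n : WithTop ℕ∞) (fun y => lgrad g W f y i) x) ∧
    (∀ (n : ℕ) (f : E3 → ℝ), ContDiffAt ℝ ((n + 2 : ℕ) : WithTop ℕ∞) f x →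
      ContDiffAt ℝ (n : WithTop ℕ∞) (lap g W f) x)

/-- (RUL) The rules of the leafwise calculus. -/
def Stmt_RUL : Prop :=
  ∀ (g : TensorField) (W : E3 → ℝ) (x : E3), Reg g W x →
    (∀ f : E3 → ℝ, ∑ i, lgrad g W f x i * grad W x i = 0) ∧
    (∀ f h : E3 → ℝ, ∑ i, lgrad g W f x i * grad h x i = lin g W f h x) ∧
    (∀ f h : E3 → ℝ, lin g W f h x = lin g W h f x ∧ 0 ≤ lin g W f f x ∧
      lin g W f h x ^ 2 ≤ lin g W f f x * lin g W h h x) ∧
    (∀ f h : E3 → ℝ, DifferentiableAt ℝ f x → DifferentiableAt ℝ h x →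
      Real.sqrt (lin g W (fun y => f y + h y) (fun y => f y + h y) x)
        ≤ Real.sqrt (lin g W f f x) + Real.sqrt (lin g W h h x)) ∧
    (∀ (f : E3 → ℝ) (i : Fin 3), lgrad g W f x i = ∑ j, prj g x (grad W x) i j * pd j f x) ∧
    (∀ f h : E3 → ℝ, ContDiffAt ℝ 2 f x → ContDiffAt ℝ 2 h x →
      lap g W (fun y => f y + h y) x = lap g W f x + lap g W h x ∧
      lap g W (fun y => f y * h y) x
        = f x * lap g W h x + h x * lap g W f x + 2 * lin g W f h x) ∧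
    (∀ f h k : E3 → ℝ, DifferentiableAt ℝ f x → DifferentiableAt ℝ h x →
      DifferentiableAt ℝ k x →
      lin g W (fun y => f y + h y) k x = lin g W f k x + lin g W h k x ∧
      lin g W (fun y => f y * h y) k x = f x * lin g W h k x + h x * lin g W f k x) ∧
    (∀ (f k : E3 → ℝ) (F : ℝ → ℝ), DifferentiableAt ℝ f x → DifferentiableAt ℝ F (f x) →
      lin g W (fun y => F (f y)) k x = deriv F (f x) * lin g W f k x) ∧
    (∀ (f : E3 → ℝ) (F : ℝ → ℝ), ContDiffAt ℝ 2 f x → ContDiffAt ℝ 2 F (f x) →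
      lap g W (fun y => F (f y)) x
        = deriv F (f x) * lap g W f x + deriv (deriv F) (f x) * lin g W f f x) ∧
    (∀ (k : E3 → ℝ) (F : ℝ → ℝ), DifferentiableAt ℝ F (W x) →
      lin g W (fun y => F (W y)) k x = 0) ∧
    (∀ (f : E3 → ℝ) (F : ℝ → ℝ), ContDiffAt ℝ 2 f x → ContDiffAt ℝ 2 F (W x) →
      lap g W (fun y => F (W y) * f y) x = F (W x) * lap g W f x) ∧
    (∀ (f : E3 → ℝ) (Y : E3 → Cov), DifferentiableAt ℝ f x →
      (∀ i, DifferentiableAt ℝ (fun y => Y y i) x) →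
      ldiv g W (fun y i => f y * Y y i) x = f x * ldiv g W Y x + ∑ i, Y x i * grad f x i)

/-- (IBP) Leafwise integration by parts. -/
def Stmt_IBP : Prop :=
  ∀ (V : Set E3) (a b : ℝ) (g : TensorField) (W : E3 → ℝ), Fol V a b g W →
    (∀ (Y : E3 → Cov) (ψ : ℝ → ℝ), (∀ i, ContDiffOn ℝ 1 (fun x => Y x i) V) →
      (∀ x ∈ V, ∑ i, Y x i * grad W x i = 0) → ContDiff ℝ 1 ψ → tsupport ψ ⊆ Set.Ioo a b →
      ∫ x in V, ψ (W x) * ldiv g W Y x * dens g W x = 0) ∧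
    (∀ (f h : E3 → ℝ) (ψ : ℝ → ℝ), ContDiffOn ℝ 1 f V → ContDiffOn ℝ 2 h V →
      ContDiff ℝ 1 ψ → tsupport ψ ⊆ Set.Ioo a b →
      ∫ x in V, ψ (W x) * (f x * lap g W h x) * dens g W x
        = - ∫ x in V, ψ (W x) * lin g W f h x * dens g W x) ∧
    (∀ f h : E3 → ℝ, TestOn V f → ContDiffOn ℝ 2 h V →
      ∫ x in V, f x * lap g W h x * dens g W x = - ∫ x in V, lin g W f h x * dens g W x ∧
      ∫ x in V, f x * lap g W h x * dens g W x = ∫ x in V, h x * lap g W f x * dens g W x)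

/-- (LB) The leafwise Laplacian is `tr_S ∇²f - H ν(f)`. -/
def Stmt_LB : Prop :=
  ∀ (g : TensorField) (W : E3 → ℝ) (x : E3), Reg g W x →
    ∀ f : E3 → ℝ, ContDiffAt ℝ 2 f x →
      lap g W f x = btan g x (grad W x) (cHess g x (grad f x) (hess2 f x))
        - btan g x (grad W x) (cHess g x (grad W x) (hess2 W x)) / len g x (grad W x)
          * ∑ i, grad f x i * nrm g x (grad W x) i

/-- (COVG) Invariance of the leafwise objects under changes of coordinates. -/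
def Stmt_COVG : Prop :=
  ∀ (Φ : E3 → E3) (G g : TensorField) (x : E3) (W : E3 → ℝ),
    Pool.Agent.PenroseConvex.ChangeAt Φ G g x → Reg G W (Φ x) →
    (∀ f h : E3 → ℝ, DifferentiableAt ℝ f (Φ x) → DifferentiableAt ℝ h (Φ x) →
      lin g (fun y => W (Φ y)) (fun y => f (Φ y)) (fun y => h (Φ y)) x = lin G W f h (Φ x)) ∧
    (∀ f : E3 → ℝ, ContDiffAt ℝ 2 f (Φ x) →
      lap g (fun y => W (Φ y)) (fun y => f (Φ y)) x = lap G W f (Φ x)) ∧
    curv g (fun y => W (Φ y)) x = curv G W (Φ x)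

/-- The determinant of the block `(0, 1)` of the metric. -/
noncomputable def dt2 (g : TensorField) (z : E3) : ℝ := g z 0 0 * g z 1 1 - g z 0 1 ^ 2

/-- The inner product of gradients for the two-dimensional metric given by the block `(0, 1)`. -/
noncomputable def lin2 (g : TensorField) (f h : E3 → ℝ) (z : E3) : ℝ :=
  (g z 1 1 * (pd 0 f z * pd 0 h z) - g z 0 1 * (pd 0 f z * pd 1 h z + pd 1 f z * pd 0 h z)
    + g z 0 0 * (pd 1 f z * pd 1 h z)) / dt2 g z

/-- The Laplacian of the two-dimensional metric given by the block `(0, 1)`. -/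
noncomputable def lap2 (g : TensorField) (f : E3 → ℝ) (z : E3) : ℝ :=
  (pd 0 (fun y => (g y 1 1 * pd 0 f y - g y 0 1 * pd 1 f y) / Real.sqrt (dt2 g y)) z
    + pd 1 (fun y => (g y 0 0 * pd 1 f y - g y 0 1 * pd 0 f y) / Real.sqrt (dt2 g y)) z)
    / Real.sqrt (dt2 g z)

/-- The Christoffel symbols of the first kind `(1/2)(∂_a g_cb + ∂_b g_ca - ∂_c g_ab)`. -/
noncomputable def gl (g : TensorField) (c a b : Fin 3) (z : E3) : ℝ :=
  (pd a (fun y => g y c b) z + pd b (fun y => g y c a) z - pd c (fun y => g y a b) z) / 2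

/-- The Gauss curvature of the two-dimensional metric given by the block `(0, 1)`. -/
noncomputable def K2 (g : TensorField) (z : E3) : ℝ :=
  (-(pd 0 (pd 0 (fun y => g y 1 1)) z + pd 1 (pd 1 (fun y => g y 0 0)) z
      - 2 * pd 0 (pd 1 (fun y => g y 0 1)) z) / 2
    + (g z 1 1 * (gl g 0 0 1 z ^ 2 - gl g 0 0 0 z * gl g 0 1 1 z)
      - g z 0 1 * (2 * gl g 0 0 1 z * gl g 1 0 1 z - gl g 0 0 0 z * gl g 1 1 1 z
          - gl g 1 0 0 z * gl g 0 1 1 z)
      + g z 0 0 * (gl g 1 0 1 z ^ 2 - gl g 1 0 0 z * gl g 1 1 1 z)) / dt2 g z) / dt2 g z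

/-- (ADAP) The leafwise objects in adapted coordinates, `W = z_2`; for `curv` this is the Gauss
equation. -/
def Stmt_ADAP : Prop :=
  ∀ (g : TensorField) (z : E3), Reg g (fun y => y 2) z → 0 < dt2 g z ∧
    (∀ f h : E3 → ℝ, DifferentiableAt ℝ f z → DifferentiableAt ℝ h z →
      lin g (fun y => y 2) f h z = lin2 g f h z) ∧
    (∀ f : E3 → ℝ, ContDiffAt ℝ 2 f z → lap g (fun y => y 2) f z = lap2 g f z) ∧
    curv g (fun y => y 2) z = K2 g z

/-- (BO2) The two-dimensional Bochner formula. -/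
def Stmt_BO2 : Prop :=
  ∀ (g : TensorField) (z : E3), (∀ i j, ContDiffAt ℝ ∞ (fun y => g y i j) z) →
    (∀ᶠ y in 𝓝 z, g y 1 0 = g y 0 1) → 0 < dt2 g z → ∀ φ : E3 → ℝ, ContDiffAt ℝ ∞ φ z →
      K2 g z * lin2 g φ φ z ^ 2 =
        lin2 g φ φ z * lap2 g (lin2 g φ φ) z / 2
          - lin2 g φ φ z * lin2 g φ (lap2 g φ) z
          - lin2 g φ φ z * lap2 g φ z ^ 2
          - lin2 g (lin2 g φ φ) (lin2 g φ φ) z / 2
          + lap2 g φ z * lin2 g (lin2 g φ φ) φ z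

/-- (BOCH) The Bochner formula on the leaves, with the Gauss equation. -/
def Stmt_BOCH : Prop :=
  ∀ (g : TensorField) (W : E3 → ℝ) (x : E3), Reg g W x →
    ∀ φ : E3 → ℝ, ContDiffAt ℝ ∞ φ x →
      curv g W x * lin g W φ φ x ^ 2 =
        lin g W φ φ x * lap g W (lin g W φ φ) x / 2
          - lin g W φ φ x * lin g W φ (lap g W φ) x
          - lin g W φ φ x * lap g W φ x ^ 2
          - lin g W (lin g W φ φ) (lin g W φ φ) x / 2
          + lap g W φ x * lin g W (lin g W φ φ) φ x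

/-! ## 2. The divergence inequality -/

/-- (XIN) -/
def Stmt_XIN : Prop :=
  ∀ (V : Set E3) (a b : ℝ) (g : TensorField) (W : E3 → ℝ), Fol V a b g W →
    ∀ (O : Set E3) (φ u : E3 → ℝ) (δ : ℝ), IsOpen O → O ⊆ V → ContDiffOn ℝ ∞ φ O →
      ContDiffOn ℝ ∞ u O → 0 < δ →
      (∀ i, ContDiffOn ℝ ∞ (fun x => Xf g W φ u δ x i) O) ∧
      (∀ x ∈ O, ∑ i, Xf g W φ u δ x i * grad W x i = 0) ∧
      ∀ x ∈ O, (curv g W x - lap g W u x)
            * (lin g W φ φ x / (lin g W φ φ x + δ * Real.exp (2 * u x)))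
          - δ * Real.exp (2 * u x) * lap g W φ x ^ 2
            / (2 * (lin g W φ φ x + δ * Real.exp (2 * u x)) ^ 2)
        ≤ ldiv g W (Xf g W φ u δ) x

/-! ## 3. The function q -/

/-- (Q) -/
def Stmt_Q : Prop :=
  ∀ (V : Set E3) (a b : ℝ) (g : TensorField) (W : E3 → ℝ), Fol V a b g W →
    ∀ K : Set E3, IsCompact K → K ⊆ V → ∃ c C : ℝ, 0 < c ∧ 0 < C ∧ ∀ x ∈ K, ∀ y ∈ K,
      c * dist x y ^ 2 ≤ qf g x y ∧ qf g x y ≤ C * dist x y ^ 2 ∧
      |lin g W (fun z => qf g z y) (fun z => qf g z y) x - 4 * qf g x y|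
        ≤ C * (dist x y ^ 4 + (W x - W y) ^ 2) ∧
      |lap g W (fun z => qf g z y) x - 4| ≤ C * (dist x y ^ 2 + |W x - W y|) ∧
      (∀ i, |pd i (fun z => qf g z y) x| ≤ C * dist x y) ∧
      (∀ i j, |pd i (pd j (fun z => qf g z y)) x - 2 * g x i j| ≤ C * dist x y)

/-! ## 4. The kernel -/

/-- (VOL) -/
def Stmt_VOL : Prop :=
  ∀ (V : Set E3) (a b : ℝ) (g : TensorField) (W : E3 → ℝ), Fol V a b g W →
    ∀ (K : Set E3) (R : ℝ), IsCompact K → K ⊆ V → 0 < R → ∃ C t0 : ℝ, 0 < C ∧ 0 < t0 ∧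
      ∀ x ∈ K, ∀ t : ℝ, 0 < t → t < t0 →
        volume {y | dist x y ≤ R * Real.sqrt t ∧ |W x - W y| ≤ t} ≤ ENNReal.ofReal (C * t ^ 2)

/-- (MASS) For every small `r0`; `m0` is `(∫ tht) (∫ eta(|z|²) dz) = π (∫ tht) (∫_0^∞ eta)`. -/
def Stmt_MASS : Prop :=
  ∃ m0 : ℝ, 0 < m0 ∧
  ∀ (V : Set E3) (a b : ℝ) (g : TensorField) (W : E3 → ℝ), Fol V a b g W →
    ∀ c d : ℝ, a < c → c < d → d < b → ∃ r1 : ℝ, 0 < r1 ∧ ∀ r0 : ℝ, 0 < r0 → r0 < r1 →
      ∀ x ∈ slab V W c d,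
        Tendsto (fun t => ∫ y in slab V W c d, ker g W r0 t x y * dens g W y) (𝓝[>] 0) (𝓝 m0)

/-- (KER) Existence of the family of kernels. -/
def Stmt_KER : Prop :=
  ∀ (V : Set E3) (a b : ℝ) (g : TensorField) (W : E3 → ℝ), Fol V a b g W →
    ∀ c d : ℝ, a < c → c < d → d < b →
      ∃ (k : ℝ → E3 → E3 → ℝ) (t0 R C m0 : ℝ), Moll V g W c d k t0 R C m0

/-- (SCHUR) Schur test. -/
def Stmt_SCHUR : Prop :=
  ∀ (μ : Measure E3) [IsFiniteMeasure μ] (k : E3 → E3 → ℝ) (B C : ℝ), 0 ≤ C →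
    Measurable (Function.uncurry k) → (∀ x y, |k x y| ≤ B) → (∀ x y, |k x y| = |k y x|) →
    (∀ᵐ x ∂μ, ∫ y, |k x y| ∂μ ≤ C) → ∀ v : E3 → ℝ, MemLp v 2 μ →
      MemLp (fun x => ∫ y, k x y * v y ∂μ) 2 μ ∧
      ∫ x, (∫ y, k x y * v y ∂μ) ^ 2 ∂μ ≤ C ^ 2 * ∫ x, v x ^ 2 ∂μ

/-- (DU) Differentiation under the integral. -/
def Stmt_DU : Prop :=
  ∀ (V : Set E3) (a b : ℝ) (g : TensorField) (W : E3 → ℝ), Fol V a b g W →
    ∀ c d : ℝ, a < c → c < d → d < b → ∀ (k : ℝ → E3 → E3 → ℝ) (t0 R C m0 : ℝ),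
      Moll V g W c d k t0 R C m0 → ∀ v : E3 → ℝ, MemLp v 2 (volume.restrict (slab V W c d)) →
      ∀ t : ℝ, 0 < t → t < t0 →
        ContDiffOn ℝ 2 (moll V g W c d k t v) (slab V W c d) ∧
        ∀ x ∈ slab V W c d, lap g W (moll V g W c d k t v) x
          = ∫ y in slab V W c d, lap g W (fun z => k t z y) x * v y * dens g W y

/-- (CONV) Bounds and convergence of the smoothing. -/
def Stmt_CONV : Prop :=
  ∀ (V : Set E3) (a b : ℝ) (g : TensorField) (W : E3 → ℝ), Fol V a b g W →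
    ∀ c d : ℝ, a < c → c < d → d < b → ∀ (k : ℝ → E3 → E3 → ℝ) (t0 R C m0 : ℝ),
      Moll V g W c d k t0 R C m0 → ∃ C1 : ℝ, 0 < C1 ∧ ∀ v : E3 → ℝ,
        MemLp v 2 (volume.restrict (slab V W c d)) →
        (∀ t : ℝ, 0 < t → t < t0 →
          MemLp (moll V g W c d k t v) 2 (volume.restrict (slab V W c d)) ∧
          MemLp (cmt V g W c d k t v) 2 (volume.restrict (slab V W c d)) ∧
          ∫ x in slab V W c d, moll V g W c d k t v x ^ 2 ≤ C1 * ∫ x in slab V W c d, v x ^ 2 ∧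
          ∫ x in slab V W c d, cmt V g W c d k t v x ^ 2 ≤ C1 * ∫ x in slab V W c d, v x ^ 2) ∧
        Tendsto (fun t => ∫ x in slab V W c d, (moll V g W c d k t v x - m0 * v x) ^ 2)
          (𝓝[>] 0) (𝓝 0)

/-! ## 5. Density and solver -/

/-- (WU) Uniqueness of very weak solutions. -/
def Stmt_WU : Prop :=
  ∀ (V : Set E3) (a b : ℝ) (g : TensorField) (W : E3 → ℝ), Fol V a b g W →
    ∀ c d : ℝ, a < c → c < d → d < b → ∀ κ : ℝ, 0 < κ → ∀ v : E3 → ℝ,
      MemLp v 2 (volume.restrict (slab V W c d)) →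
      (∀ h : E3 → ℝ, TestOn (slab V W c d) h →
        ∫ x in slab V W c d, v x * (κ * h x - lap g W h x) * dens g W x = 0) →
      ∀ᵐ x ∂(volume.restrict (slab V W c d)), v x = 0

/-- (DENS) -/
def Stmt_DENS : Prop :=
  ∀ (V : Set E3) (a b : ℝ) (g : TensorField) (W : E3 → ℝ), Fol V a b g W →
    ∀ c d : ℝ, a < c → c < d → d < b → ∀ κ : ℝ, 0 < κ → ∀ ρ : E3 → ℝ,
      MemLp ρ 2 (volume.restrict (slab V W c d)) → ∀ ε : ℝ, 0 < ε →
      ∃ h : E3 → ℝ, TestOn (slab V W c d) h ∧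
        ∫ x in slab V W c d, (κ * h x - lap g W h x - ρ x) ^ 2 * dens g W x < ε

/-- (SOLVE) -/
def Stmt_SOLVE : Prop :=
  ∀ (V : Set E3) (a b : ℝ) (g : TensorField) (W : E3 → ℝ), Fol V a b g W →
    ∀ c d : ℝ, a < c → c < d → d < b → ∀ (ρ : E3 → ℝ) (C0 : ℝ),
      MemLp ρ 2 (volume.restrict (slab V W c d)) → 0 ≤ C0 →
      (∀ v : E3 → ℝ, TestOn (slab V W c d) v →
        |∫ x in slab V W c d, ρ x * v x * dens g W x|
          ≤ C0 * Real.sqrt (∫ x in slab V W c d, lin g W v v x * dens g W x)) →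
      ∀ ε : ℝ, 0 < ε → ∃ u : E3 → ℝ, TestOn (slab V W c d) u ∧
        ∫ x in slab V W c d, (lap g W u x - ρ x) ^ 2 * dens g W x ≤ ε ∧
        ∫ x in slab V W c d, lin g W u u x * dens g W x ≤ (C0 + 1) ^ 2

/-! ## 6. Charts and connectedness -/

/-- (CHL) Existence of local adapted coordinates. -/
def Stmt_CHL : Prop :=
  ∀ (O : Set E3) (W : E3 → ℝ) (p0 : E3), IsOpen O → ContDiffOn ℝ ∞ W O → p0 ∈ O →
    grad W p0 ≠ 0 → ∃ (Φ : E3 → E3) (z0 : E3) (N : Set E3), IsOpen N ∧ z0 ∈ N ∧ Φ z0 = p0 ∧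
      z0 2 = W p0 ∧ ContDiffOn ℝ ∞ Φ N ∧ Set.InjOn Φ N ∧ Set.MapsTo Φ N O ∧
      (∀ z ∈ N, (fderiv ℝ Φ z).det ≠ 0) ∧ ∀ z ∈ N, W (Φ z) = z 2

/-- (CHART) Existence of charts. -/
def Stmt_CHART : Prop :=
  ∀ (V : Set E3) (a b : ℝ) (g : TensorField) (W : E3 → ℝ), Fol V a b g W → ∀ p0 ∈ V,
    ∀ O ∈ 𝓝 p0, ∃ (Φ : E3 → E3) (z0 : E3) (r e : ℝ), Chart V W Φ z0 r e ∧ Φ z0 = p0 ∧
      z0 2 = W p0 ∧ Φ '' box z0 r e ⊆ O

/-- (CHX) Elementary properties of charts. -/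
def Stmt_CHX : Prop :=
  ∀ (V : Set E3) (a b : ℝ) (g : TensorField) (W : E3 → ℝ), Fol V a b g W →
    ∀ (Φ : E3 → E3) (z0 : E3) (r e : ℝ), Chart V W Φ z0 r e →
      a < z0 2 - e ∧ z0 2 + e < b ∧ IsCompact (Φ '' box z0 r e) ∧ Φ '' box z0 r e ⊆ V ∧
      (∀ S : Set E3, IsOpen S → S ⊆ obox z0 r e → IsOpen (Φ '' S)) ∧
      (∀ (S : Set E3) (F : E3 → ℝ), MeasurableSet S → S ⊆ box z0 r e →
        ∫ x in Φ '' S, F x * dens g W x = ∫ z in S, F (Φ z) * jac g W Φ z) ∧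
      (∀ (S : Set E3) (F : E3 → ℝ), MeasurableSet S → S ⊆ box z0 r e →
        (IntegrableOn (fun x => F x * dens g W x) (Φ '' S) ↔
          IntegrableOn (fun z => F (Φ z) * jac g W Φ z) S)) ∧
      ContinuousOn (jac g W Φ) (box z0 r e) ∧
      ∃ c C : ℝ, 0 < c ∧ 0 < C ∧
        (∀ z ∈ box z0 r e, c ≤ jac g W Φ z ∧ jac g W Φ z ≤ C ∧
          (∀ v : E3 → ℝ, DifferentiableAt ℝ v (Φ z) →
            |pd 0 (fun y => v (Φ y)) z| ≤ C * Real.sqrt (lin g W v v (Φ z)) ∧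
            |pd 1 (fun y => v (Φ y)) z| ≤ C * Real.sqrt (lin g W v v (Φ z)))) ∧
        (∀ z ∈ box z0 r e, ∀ z' ∈ box z0 r e,
          c * dist z z' ≤ dist (Φ z) (Φ z') ∧ dist (Φ z) (Φ z') ≤ C * dist z z')

/-- (FUB) Fubini on boxes. -/
def Stmt_FUB : Prop :=
  ∀ (z0 : E3) (r e : ℝ) (F : E3 → ℝ), IntegrableOn F (obox z0 r e) →
    ∫ z in obox z0 r e, F z = ∫ s in Set.Ioo (z0 2 - e) (z0 2 + e),
      ∫ a in Set.Ioo (z0 0 - r) (z0 0 + r), ∫ b in Set.Ioo (z0 1 - r) (z0 1 + r), F (pt a b s)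

/-- (POIN) The two-point inequality on a square. -/
def Stmt_POIN : Prop :=
  ∀ (a0 b0 r B : ℝ) (R v : ℝ → ℝ → ℝ), 0 < r → 0 ≤ B →
    Measurable (Function.uncurry R) → (∀ a b, |R a b| ≤ B) →
    (∃ N : Set (ℝ × ℝ), IsOpen N ∧ Set.Icc (a0 - r) (a0 + r) ×ˢ Set.Icc (b0 - r) (b0 + r) ⊆ N ∧
      ContDiffOn ℝ 1 (Function.uncurry v) N) →
    ∫ a in Set.Ioo (a0 - r) (a0 + r), ∫ b in Set.Ioo (b0 - r) (b0 + r), R a b = 0 →
    |∫ a in Set.Ioo (a0 - r) (a0 + r), ∫ b in Set.Ioo (b0 - r) (b0 + r), R a b * v a b| ≤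
      2 * r * B * ∫ a in Set.Ioo (a0 - r) (a0 + r), ∫ b in Set.Ioo (b0 - r) (b0 + r),
        (|deriv (fun t => v t b) a| + |deriv (fun t => v a t) b|)

/-- (NULL) Properties of `NullOn`. -/
def Stmt_NULL : Prop :=
  ∀ (V : Set E3) (a b : ℝ) (g : TensorField) (W : E3 → ℝ), Fol V a b g W →
    ∀ s0 e : ℝ, 0 < e → a < s0 - e → s0 + e < b →
      (∀ ρ1 ρ2 : E3 → ℝ, BddMeas ρ1 → BddMeas ρ2 → NullOn V g W s0 e ρ1 →
        NullOn V g W s0 e ρ2 → NullOn V g W s0 e (fun x => ρ1 x + ρ2 x)) ∧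
      (∀ (ρ : E3 → ℝ) (γ : ℝ → ℝ), BddMeas ρ → BddMeasR γ → NullOn V g W s0 e ρ →
        NullOn V g W s0 e (fun x => γ (W x) * ρ x)) ∧
      (∀ (ρ : E3 → ℝ) (e' : ℝ), BddMeas ρ → 0 < e' → e' ≤ e → NullOn V g W s0 e ρ →
        NullOn V g W s0 e' ρ) ∧
      (∀ ρ : E3 → ℝ, BddMeas ρ → NullOn V g W s0 e ρ →
        (∀ α : ℝ → ℝ, BddMeasR α →
          ∫ x in slab V W (s0 - e) (s0 + e), ρ x * α (W x) * dens g W x = 0) ∧
        ∃ C : ℝ, 0 ≤ C ∧ ∀ v : E3 → ℝ, ContDiffOn ℝ 1 v V →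
          |∫ x in slab V W (s0 - e) (s0 + e), ρ x * v x * dens g W x| ≤
            C * Real.sqrt (∫ x in slab V W (s0 - e) (s0 + e), lin g W v v x * dens g W x))

/-- (CL) The chart lemma. -/
def Stmt_CL : Prop :=
  ∀ (V : Set E3) (a b : ℝ) (g : TensorField) (W : E3 → ℝ), Fol V a b g W →
    ∀ (Φ : E3 → E3) (z0 : E3) (r e : ℝ), Chart V W Φ z0 r e →
      ∀ (ρ β : E3 → ℝ) (b0 M : ℝ), BddMeas ρ → BddMeas β →
        (∀ x, x ∉ Φ '' obox z0 r e → ρ x = 0 ∧ β x = 0) → (∀ x, 0 ≤ β x) → 0 < b0 → 0 ≤ M →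
        (∀ s ∈ Set.Ioo (z0 2 - e) (z0 2 + e), b0 ≤ cint g W Φ z0 r β s) →
        (∀ s ∈ Set.Ioo (z0 2 - e) (z0 2 + e), |cint g W Φ z0 r ρ s| ≤ M) →
        ∃ γ : ℝ → ℝ, Measurable γ ∧ (∀ s, |γ s| ≤ M / b0) ∧
          NullOn V g W (z0 2) e (fun x => ρ x - γ (W x) * β x)

/-- (CONN) Connectedness of the leaf. -/
def Stmt_CONN : Prop :=
  ∀ (V : Set E3) (a b : ℝ) (g : TensorField) (W : E3 → ℝ), Fol V a b g W →
    ∀ (Φ : E3 → E3) (z0 : E3) (r e : ℝ), Chart V W Φ z0 r e →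
      IsPreconnected (V ∩ W ⁻¹' {z0 2}) → ∀ (β : E3 → ℝ) (b0 : ℝ), BddMeas β →
        (∀ x, x ∉ Φ '' obox z0 r e → β x = 0) → (∀ x, 0 ≤ β x) → 0 < b0 →
        (∀ s ∈ Set.Ioo (z0 2 - e) (z0 2 + e), b0 ≤ cint g W Φ z0 r β s) →
        ∃ e1 : ℝ, 0 < e1 ∧ e1 ≤ e ∧ ∀ ρ : E3 → ℝ, BddMeas ρ →
          ∃ γ : ℝ → ℝ, BddMeasR γ ∧ NullOn V g W (z0 2) e1 (fun x => ρ x - γ (W x) * β x)

/-! ## 7. Pole functions -/

/-- (POLE) -/
def Stmt_POLE : Prop :=
  ∀ (V : Set E3) (a b : ℝ) (g : TensorField) (W : E3 → ℝ), Fol V a b g W →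
    ∀ (Φ : E3 → E3) (z0 : E3) (r e : ℝ), Chart V W Φ z0 r e → ∀ τ : ℝ, |τ| < r →
      ContDiffOn ℝ ∞ (rp g W Φ z0 τ) (Φ '' obox z0 r e) ∧
      ∃ c C : ℝ, 0 < c ∧ 0 < C ∧
        (∀ z ∈ box z0 r e,
          c * ((z 0 - (z0 0 + τ)) ^ 2 + (z 1 - z0 1) ^ 2) ≤ rp g W Φ z0 τ (Φ z) ∧
          rp g W Φ z0 τ (Φ z) ≤ C * ((z 0 - (z0 0 + τ)) ^ 2 + (z 1 - z0 1) ^ 2)) ∧
        ∀ x ∈ Φ '' obox z0 r e,
          |lin g W (rp g W Φ z0 τ) (rp g W Φ z0 τ) x - 4 * rp g W Φ z0 τ x|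
            ≤ C * rp g W Φ z0 τ x ^ 2 ∧
          |lap g W (rp g W Φ z0 τ) x - 4| ≤ C * rp g W Φ z0 τ x ∧
          (∀ i, |pd i (rp g W Φ z0 τ) x| ≤ C * Real.sqrt (rp g W Φ z0 τ x)) ∧
          (∀ A B : Cov, |∑ i, ∑ j, hess2 (rp g W Φ z0 τ) x i j * prv g x (grad W x) A i
                * prv g x (grad W x) B j - 2 * lip g x (grad W x) A B|
            ≤ C * Real.sqrt (rp g W Φ z0 τ x) * Real.sqrt (lip g x (grad W x) A A)
                * Real.sqrt (lip g x (grad W x) B B))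

/-- (SCAL) Scaling limit at a pole. -/
def Stmt_SCAL : Prop :=
  ∀ (V : Set E3) (a b : ℝ) (g : TensorField) (W : E3 → ℝ), Fol V a b g W →
    ∀ (Φ : E3 → E3) (z0 : E3) (r e : ℝ), Chart V W Φ z0 r e → ∀ τ : ℝ, |τ| < r →
      volume {x | x ∈ Φ '' obox z0 r e ∧ rp g W Φ z0 τ x = 0} = 0 ∧
      ∀ (h ψ : ℝ → ℝ) (S : ℝ), Continuous h → (∀ s, S ≤ s → h s = 0) → Continuous ψ →
        tsupport ψ ⊆ Set.Ioo (z0 2 - e) (z0 2 + e) →
        Tendsto (fun t => t⁻¹ * ∫ x in Φ '' obox z0 r e,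
            ψ (W x) * h (rp g W Φ z0 τ x / t) * dens g W x) (𝓝[>] 0)
          (𝓝 (Real.pi * (∫ s in Set.Ioi (0 : ℝ), h s) * ∫ s, ψ s))

/-- (LOW) Lower bound for leaf integrals of decreasing functions of the pole function. -/
def Stmt_LOW : Prop :=
  ∀ (V : Set E3) (a b : ℝ) (g : TensorField) (W : E3 → ℝ), Fol V a b g W →
    ∀ (Φ : E3 → E3) (z0 : E3) (r e : ℝ), Chart V W Φ z0 r e → ∀ τ : ℝ, |τ| < r →
      ∃ c t1 : ℝ, 0 < c ∧ 0 < t1 ∧ ∀ h : ℝ → ℝ, Continuous h → (∀ s, 0 ≤ h s) →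
        AntitoneOn h (Set.Ici 0) → (∀ s, t1 ≤ s → h s = 0) →
        ∀ s ∈ Set.Ioo (z0 2 - e) (z0 2 + e),
          c * ∫ t in Set.Ioi (0 : ℝ), h t ≤ cint g W Φ z0 r (fun x => h (rp g W Φ z0 τ x)) s

/-- (SEP) The two poles are separated at small levels. -/
def Stmt_SEP : Prop :=
  ∀ (V : Set E3) (a b : ℝ) (g : TensorField) (W : E3 → ℝ), Fol V a b g W →
    ∀ (Φ : E3 → E3) (z0 : E3) (r e : ℝ), Chart V W Φ z0 r e →
      ∃ t2 : ℝ, 0 < t2 ∧ ∀ t1 : ℝ, 0 < t1 → t1 ≤ t2 → SepAt g W Φ z0 r e t1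

/-- (PHI0) The singular function. -/
def Stmt_PHI0 : Prop :=
  ∀ (V : Set E3) (a b : ℝ) (g : TensorField) (W : E3 → ℝ), Fol V a b g W →
    ∀ (Φ : E3 → E3) (z0 : E3) (r e : ℝ), Chart V W Φ z0 r e → ∀ t1 : ℝ,
      SepAt g W Φ z0 r e t1 →
      IsOpen (slab V W (z0 2 - e) (z0 2 + e) \ sing g W Φ z0 r e) ∧
      volume (sing g W Φ z0 r e) = 0 ∧
      ContDiffOn ℝ ∞ (phi0 g W Φ z0 r e t1)
        (slab V W (z0 2 - e) (z0 2 + e) \ sing g W Φ z0 r e) ∧
      (∀ τ : ℝ, (τ = r / 2 ∨ τ = -(r / 2)) → ∀ x ∈ Φ '' obox z0 r e,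
        0 < rp g W Φ z0 τ x → rp g W Φ z0 τ x < t1 / 2 →
        ∀ᶠ y in 𝓝 x, phi0 g W Φ z0 r e t1 y
          = (if τ = r / 2 then -1 else 1) * Real.log (rp g W Φ z0 τ y) / 2) ∧
      ∃ C : ℝ, 0 < C ∧ ∀ x ∈ slab V W (z0 2 - e) (z0 2 + e), |rho0 g W Φ z0 r e t1 x| ≤ C

/-- The profile of the cut-off: `0` for `s ≤ 1/2`, `1` for `s ≥ 1`. -/
noncomputable def hb (s : ℝ) : ℝ := Real.smoothTransition (2 * s - 1)

open Classical in
/-- The cut-off at the two poles. -/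
noncomputable def cut (g : TensorField) (W : E3 → ℝ) (Φ : E3 → E3) (z0 : E3) (r e t : ℝ)
    (x : E3) : ℝ :=
  if x ∈ Φ '' obox z0 r e then
    hb (rp g W Φ z0 (-(r / 2)) x / t) * hb (rp g W Φ z0 (r / 2) x / t) else 1

/-- (CUT) The cut-off at the poles and its flux. -/
def Stmt_CUT : Prop :=
  ∀ (V : Set E3) (a b : ℝ) (g : TensorField) (W : E3 → ℝ), Fol V a b g W →
    ∀ (Φ : E3 → E3) (z0 : E3) (r e : ℝ), Chart V W Φ z0 r e → ∀ t1 : ℝ,
      SepAt g W Φ z0 r e t1 →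
      (∀ t : ℝ, 0 < t → t < t1 →
        ContDiffOn ℝ ∞ (cut g W Φ z0 r e t) (slab V W (z0 2 - e) (z0 2 + e)) ∧
        ∀ x ∈ sing g W Φ z0 r e, ∀ᶠ y in 𝓝 x, cut g W Φ z0 r e t y = 0) ∧
      (∀ t x, 0 ≤ cut g W Φ z0 r e t x ∧ cut g W Φ z0 r e t x ≤ 1) ∧
      (∀ x ∈ slab V W (z0 2 - e) (z0 2 + e), x ∉ sing g W Φ z0 r e →
        Tendsto (fun t => cut g W Φ z0 r e t x) (𝓝[>] 0) (𝓝 1)) ∧
      ∀ (Y : E3 → Cov) (κ1 κ2 C t2 : ℝ),
        (∀ i, ContDiffOn ℝ 1 (fun x => Y x i)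
          (slab V W (z0 2 - e) (z0 2 + e) \ sing g W Φ z0 r e)) → 0 < t2 →
        (∀ x ∈ Φ '' obox z0 r e, 0 < rp g W Φ z0 (-(r / 2)) x →
          rp g W Φ z0 (-(r / 2)) x < t2 →
          |∑ i, pd i (rp g W Φ z0 (-(r / 2))) x * Y x i - κ1|
            ≤ C * Real.sqrt (rp g W Φ z0 (-(r / 2)) x)) →
        (∀ x ∈ Φ '' obox z0 r e, 0 < rp g W Φ z0 (r / 2) x → rp g W Φ z0 (r / 2) x < t2 →
          |∑ i, pd i (rp g W Φ z0 (r / 2)) x * Y x i - κ2|
            ≤ C * Real.sqrt (rp g W Φ z0 (r / 2) x)) →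
        ∀ ψ : ℝ → ℝ, ContDiff ℝ 1 ψ → tsupport ψ ⊆ Set.Ioo (z0 2 - e) (z0 2 + e) →
          Tendsto (fun t => ∫ x in slab V W (z0 2 - e) (z0 2 + e),
              ψ (W x) * (∑ i, pd i (cut g W Φ z0 r e t) x * Y x i) * dens g W x) (𝓝[>] 0)
            (𝓝 ((κ1 + κ2) * Real.pi * ∫ s, ψ s))

/-- (MEAN) The leafwise mean of `ρ₀` is zero. -/
def Stmt_MEAN : Prop :=
  ∀ (V : Set E3) (a b : ℝ) (g : TensorField) (W : E3 → ℝ), Fol V a b g W →
    ∀ (Φ : E3 → E3) (z0 : E3) (r e : ℝ), Chart V W Φ z0 r e → ∀ t1 : ℝ,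
      SepAt g W Φ z0 r e t1 → ∀ ψ : ℝ → ℝ, ContDiff ℝ 1 ψ →
      tsupport ψ ⊆ Set.Ioo (z0 2 - e) (z0 2 + e) →
      ∫ x in slab V W (z0 2 - e) (z0 2 + e), ψ (W x) * rho0 g W Φ z0 r e t1 x * dens g W x = 0

/-- (FLUX) The flux of `X` at a pole. -/
def Stmt_FLUX : Prop :=
  ∀ (V : Set E3) (a b : ℝ) (g : TensorField) (W : E3 → ℝ), Fol V a b g W →
    ∀ (Φ : E3 → E3) (z0 : E3) (r e : ℝ), Chart V W Φ z0 r e → ∀ τ σ : ℝ, |τ| < r →
      (σ = 1 / 2 ∨ σ = -(1 / 2)) → ∀ φ1 u : E3 → ℝ, ContDiffOn ℝ ∞ φ1 V →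
      ContDiffOn ℝ ∞ u V → ∀ δ : ℝ, 0 < δ → ∃ C t2 : ℝ, 0 < C ∧ 0 < t2 ∧
        ∀ x ∈ Φ '' obox z0 r e, 0 < rp g W Φ z0 τ x → rp g W Φ z0 τ x < t2 →
          |∑ i, pd i (rp g W Φ z0 τ) x
              * Xf g W (fun y => σ * Real.log (rp g W Φ z0 τ y) + φ1 y) u δ x i + 2|
            ≤ C * Real.sqrt (rp g W Φ z0 τ x)

/-- (PUNCT) The integrated inequality with two poles. -/
def Stmt_PUNCT : Prop :=
  ∀ (V : Set E3) (a b : ℝ) (g : TensorField) (W : E3 → ℝ), Fol V a b g W →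
    ∀ (Φ : E3 → E3) (z0 : E3) (r e : ℝ), Chart V W Φ z0 r e → ∀ t1 : ℝ,
      SepAt g W Φ z0 r e t1 → ∀ u u1 : E3 → ℝ, ContDiff ℝ ∞ u → ContDiff ℝ ∞ u1 →
      ∀ δ : ℝ, 0 < δ → ∀ ψ : ℝ → ℝ, BumpOn (z0 2 - e) (z0 2 + e) ψ →
        ∫ x in slab V W (z0 2 - e) (z0 2 + e), ψ (W x) * (curv g W x - lap g W u x)
            * (lin g W (fun y => phi0 g W Φ z0 r e t1 y + u1 y)
                (fun y => phi0 g W Φ z0 r e t1 y + u1 y) x
              / (lin g W (fun y => phi0 g W Φ z0 r e t1 y + u1 y)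
                (fun y => phi0 g W Φ z0 r e t1 y + u1 y) x + δ * Real.exp (2 * u x)))
            * dens g W x
        ≤ 4 * Real.pi * (∫ s, ψ s)
          + ∫ x in slab V W (z0 2 - e) (z0 2 + e), ψ (W x)
              * ((rho0 g W Φ z0 r e t1 x + lap g W u1 x) ^ 2 / (2 * δ * Real.exp (2 * u x)))
              * dens g W x

/-! ## 8. Conclusion -/

/-- (RHO) `ρ₀` is a weak leafwise divergence. -/
def Stmt_RHO : Prop :=
  ∀ (V : Set E3) (a b : ℝ) (g : TensorField) (W : E3 → ℝ), Fol V a b g W →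
    ∀ (Φ : E3 → E3) (z0 : E3) (r e : ℝ), Chart V W Φ z0 r e →
      IsPreconnected (V ∩ W ⁻¹' {z0 2}) → ∀ t1 : ℝ, SepAt g W Φ z0 r e t1 →
      ∃ e1 : ℝ, 0 < e1 ∧ e1 ≤ e ∧
        NullOn V g W (z0 2) e1 (Set.indicator (slab V W (z0 2 - e) (z0 2 + e))
          (rho0 g W Φ z0 r e t1))

/-- (CONC) The curvature is, up to weak divergences, a bounded multiple of functions concentrated
near the pole. -/
def Stmt_CONC : Prop :=
  ∀ (V : Set E3) (a b : ℝ) (g : TensorField) (W : E3 → ℝ), Fol V a b g W →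
    ∀ (Φ : E3 → E3) (z0 : E3) (r e : ℝ), Chart V W Φ z0 r e →
      IsPreconnected (V ∩ W ⁻¹' {z0 2}) → ∀ t1 : ℝ, SepAt g W Φ z0 r e t1 →
      ∃ e1 C : ℝ, 0 < e1 ∧ e1 ≤ e ∧ 0 < C ∧ ∀ L : ℝ, 0 < L →
        ∃ (β : E3 → ℝ) (γ : ℝ → ℝ), BddMeas β ∧ (∀ x, 0 ≤ β x) ∧ Measurable γ ∧
          (∀ s, |γ s| ≤ C) ∧
          (∀ x, β x ≠ 0 → x ∈ Φ '' obox z0 r e ∧ rp g W Φ z0 (-(r / 2)) x < t1 / 2 ∧
            β x * rp g W Φ z0 (-(r / 2)) x ≤ 1 / L) ∧
          NullOn V g W (z0 2) e1 (fun x =>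
            Set.indicator (slab V W (z0 2 - e) (z0 2 + e)) (curv g W) x - γ (W x) * β x)

/-- (LOC) The local form of (GB). -/
def Stmt_LOC : Prop :=
  ∀ (V : Set E3) (a b : ℝ) (g : TensorField) (W : E3 → ℝ), Fol V a b g W →
    ∀ s0 : ℝ, a < s0 → s0 < b → IsPreconnected (V ∩ W ⁻¹' {s0}) →
      ∃ e : ℝ, 0 < e ∧ a < s0 - e ∧ s0 + e < b ∧ ∀ ψ : ℝ → ℝ, BumpOn (s0 - e) (s0 + e) ψ →
        ∫ x in V, ψ (W x) * curv g W x * dens g W x ≤ 4 * Real.pi * ∫ s, ψ s

/-- (GBC) (GB) for continuous `ψ`. -/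
def Stmt_GBC : Prop :=
  ∀ (V : Set E3) (a b : ℝ) (g : TensorField) (W : E3 → ℝ), Fol V a b g W →
    (∀ s : ℝ, IsPreconnected (V ∩ W ⁻¹' {s})) →
    ∀ ψ : ℝ → ℝ, Continuous ψ → (∀ s, 0 ≤ ψ s) → tsupport ψ ⊆ Set.Ioo a b →
      ∫ x in V, ψ (W x) * curv g W x * dens g W x ≤ 4 * Real.pi * ∫ s, ψ s

/-- (GBX) The form used in the block MI: `f` is continuous on `E3`, regular at all levels in
`(a, b)`, and `{f < c}`, `{c < f}` are connected. -/
def Stmt_GBX : Prop :=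
  ∀ (U : Set E3) (g : TensorField) (f : E3 → ℝ) (a b : ℝ), IsOpen U → MetricOn U g →
    Continuous f →
    (∀ x, a < f x → f x < b → x ∈ U ∧ ContDiffAt ℝ ∞ f x ∧ grad f x ≠ 0) →
    (∀ c d : ℝ, a < c → d < b → IsCompact {x | c ≤ f x ∧ f x ≤ d}) →
    (∀ c : ℝ, a < c → c < b → IsPreconnected {x | f x < c} ∧ IsPreconnected {x | c < f x}) →
    ∀ ψ : ℝ → ℝ, Continuous ψ → (∀ s, 0 ≤ ψ s) → tsupport ψ ⊆ Set.Ioo a b →
      ∫ x, ψ (f x) * gaussK g x (grad f x) (hess2 f x) * (len g x (grad f x) * volDen g x)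
        ≤ 4 * Real.pi * ∫ s, ψ s

end Pool.Agent.PFlow.GB


end

section

/-!
# Block GB: elementary facts on foliations and slabs
-/

open MeasureTheory Filter Topology
open scoped ContDiff

namespace Pool.Agent.PFlow.GB

open Pool.Agent.PenroseSph Pool.Agent.PFlow

variable {V : Set E3} {a b : ℝ} {g : TensorField} {W : E3 → ℝ}

lemma _root_.Pool.Agent.PFlow.Fol.reg (h : Fol V a b g W) {x : E3} (hx : x ∈ V) : Reg g W x :=
  ⟨V, h.isOpen, hx, h.metric, h.smooth, h.regular⟩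

lemma _root_.Pool.Agent.PFlow.Fol.contDiffAt (h : Fol V a b g W) {x : E3} (hx : x ∈ V) : ContDiffAt ℝ ∞ W x :=
  (h.smooth x hx).contDiffAt (h.isOpen.mem_nhds hx)

lemma _root_.Pool.Agent.PFlow.Fol.continuousOn (h : Fol V a b g W) : ContinuousOn W V := h.smooth.continuousOn

lemma isOpen_slab (h : Fol V a b g W) (c d : ℝ) : IsOpen (slab V W c d) :=
  h.continuousOn.isOpen_inter_preimage h.isOpen isOpen_Ioo

lemma slab_subset (c d : ℝ) : slab V W c d ⊆ V := Set.inter_subset_left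

lemma slab_subset_cslab (c d : ℝ) : slab V W c d ⊆ cslab V W c d :=
  Set.inter_subset_inter_right _ (Set.preimage_mono Set.Ioo_subset_Icc_self)

lemma cslab_subset (c d : ℝ) : cslab V W c d ⊆ V := Set.inter_subset_left

lemma slab_mono {c d c' d' : ℝ} (hc : c ≤ c') (hd : d' ≤ d) :
    slab V W c' d' ⊆ slab V W c d :=
  Set.inter_subset_inter_right _ (Set.preimage_mono (Set.Ioo_subset_Ioo hc hd))

lemma cslab_subset_slab {c d c' d' : ℝ} (hc : c < c') (hd : d' < d) :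
    cslab V W c' d' ⊆ slab V W c d :=
  Set.inter_subset_inter_right _ (Set.preimage_mono (fun _ hx =>
    ⟨hc.trans_le hx.1, hx.2.trans_lt hd⟩))

lemma measurableSet_slab (h : Fol V a b g W) (c d : ℝ) : MeasurableSet (slab V W c d) :=
  (isOpen_slab h c d).measurableSet

lemma closure_slab_subset (h : Fol V a b g W) {c d : ℝ} (hc : a < c) (hd : d < b) :
    closure (slab V W c d) ⊆ cslab V W c d :=
  closure_minimal (slab_subset_cslab c d) (h.proper c d hc hd).isClosed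

lemma volume_slab_lt_top (h : Fol V a b g W) {c d : ℝ} (hc : a < c) (hd : d < b) :
    volume (slab V W c d) < ⊤ :=
  lt_of_le_of_lt (measure_mono (slab_subset_cslab c d)) (h.proper c d hc hd).measure_lt_top

lemma slab_self (h : Fol V a b g W) : slab V W a b = V := by
  ext x
  constructor
  · exact fun hx => hx.1
  · exact fun hx => ⟨hx, h.mapsTo x hx⟩

/-- A slab is again a foliation. -/
lemma _root_.Pool.Agent.PFlow.Fol.sub (h : Fol V a b g W) {c d : ℝ} (hc : a ≤ c) (hd : d ≤ b) :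
    Fol (slab V W c d) c d g W where
  isOpen := isOpen_slab h c d
  metric := ⟨fun i j => (h.metric.smooth i j).mono (slab_subset c d),
    fun x hx => h.metric.posDef x hx.1⟩
  smooth := h.smooth.mono (slab_subset c d)
  mapsTo := fun _ hx => hx.2
  regular := fun x hx => h.regular x hx.1
  proper := by
    intro c' d' hc' hd'
    have : cslab (slab V W c d) W c' d' = cslab V W c' d' := by
      ext x
      constructor
      · exact fun hx => ⟨hx.1.1, hx.2⟩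
      · exact fun hx => ⟨⟨hx.1, hc'.trans_le hx.2.1, hx.2.2.trans_lt hd'⟩, hx.2⟩
    rw [this]
    exact h.proper c' d' (hc.trans_lt hc') (hd'.trans_le hd)

/-- The support of `ψ (W x)` in `V` is compact. -/
lemma exists_Icc_of_tsupport {ψ : ℝ → ℝ} {c d : ℝ} (hcd : c < d) (h : tsupport ψ ⊆ Set.Ioo c d) :
    ∃ c' d' : ℝ, c < c' ∧ c' < d' ∧ d' < d ∧ ∀ s, ψ s ≠ 0 → c' ≤ s ∧ s ≤ d' := by
  have hK : IsCompact (tsupport ψ) :=
    (Metric.isCompact_of_isClosed_isBounded (isClosed_tsupport ψ)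
      ((Metric.isBounded_Ioo c d).subset h))
  rcases (tsupport ψ).eq_empty_or_nonempty with he | hne
  · refine ⟨c + (d - c) / 3, d - (d - c) / 3, by linarith, by linarith, by linarith, ?_⟩
    intro s hs
    exact absurd (subset_tsupport ψ hs) (by rw [he]; exact Set.notMem_empty s)
  · obtain ⟨m, hm, hm'⟩ := hK.exists_isLeast hne
    obtain ⟨M, hM, hM'⟩ := hK.exists_isGreatest hne
    have h1 := h hm
    have h2 := h hM
    have h3 : m ≤ M := hM' hm
    refine ⟨(c + m) / 2, (d + M) / 2, by linarith [h1.1], by linarith [h1.1, h2.2, h1.2], by linarith [h2.2], ?_⟩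
    intro s hs
    have h4 := hm' (subset_tsupport ψ hs)
    have h5 := hM' (subset_tsupport ψ hs)
    constructor
    · linarith [h1.1]
    · linarith [h2.2]

end Pool.Agent.PFlow.GB


end

section

/-!
# Module SCHUR: the Schur test
-/

open MeasureTheory Filter Topology
open scoped ContDiff

namespace Pool.Agent.PFlow.GB

open Pool.Agent.PenroseSph

namespace Schur

/-- Cauchy-Schwarz for one row of the kernel. -/
theorem row {μ : Measure E3} [IsFiniteMeasure μ] {κ v : E3 → ℝ} {B : ℝ} (hκ : Measurable κ)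
    (hB : ∀ y, |κ y| ≤ B) (hv : MemLp v 2 μ) :
    (∫ y, κ y * v y ∂μ) ^ 2 ≤ (∫ y, |κ y| ∂μ) * ∫ y, |κ y| * v y ^ 2 ∂μ := by
  have hκa : AEStronglyMeasurable (fun y => |κ y|) μ := hκ.abs.aestronglyMeasurable
  have hbd : ∀ᵐ y ∂μ, ‖|κ y|‖ ≤ B := Eventually.of_forall fun y => by
    rw [Real.norm_eq_abs, abs_abs]; exact hB y
  have hv1 : Integrable v μ := hv.integrable one_le_two
  have hv2 : Integrable (fun y => v y ^ 2) μ := hv.integrable_sq
  have i0 : Integrable (fun y => |κ y|) μ := by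
    have := (integrable_const (1 : ℝ) (μ := μ)).bdd_mul hκa hbd
    simpa using this
  have i1 : Integrable (fun y => |κ y| * |v y|) μ := hv1.abs.bdd_mul hκa hbd
  have i2 : Integrable (fun y => |κ y| * v y ^ 2) μ := hv2.bdd_mul hκa hbd
  have h1 : |∫ y, κ y * v y ∂μ| ≤ ∫ y, |κ y| * |v y| ∂μ := by
    refine (abs_integral_le_integral_abs).trans (le_of_eq ?_)
    refine integral_congr_ae (Eventually.of_forall fun y => ?_)
    exact abs_mul _ _
  have h2 : ∀ x : ℝ, 0 ≤ (∫ y, |κ y| ∂μ) * (x * x) + (-2 * ∫ y, |κ y| * |v y| ∂μ) * x +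
      ∫ y, |κ y| * v y ^ 2 ∂μ := by
    intro x
    have h3 : 0 ≤ ∫ y, |κ y| * (x - |v y|) ^ 2 ∂μ :=
      integral_nonneg fun y => mul_nonneg (abs_nonneg _) (sq_nonneg _)
    have h4 : ∫ y, |κ y| * (x - |v y|) ^ 2 ∂μ = ∫ y, ((x * x) * |κ y| +
        (-2 * x) * (|κ y| * |v y|) + |κ y| * v y ^ 2) ∂μ := by
      refine integral_congr_ae (Eventually.of_forall fun y => ?_)
      have : |v y| ^ 2 = v y ^ 2 := sq_abs _
      change |κ y| * (x - |v y|) ^ 2 = (x * x) * |κ y| +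
        (-2 * x) * (|κ y| * |v y|) + |κ y| * v y ^ 2
      rw [← this]
      ring
    have j0 : Integrable (fun y => (x * x) * |κ y|) μ := i0.const_mul (x * x)
    have j1 : Integrable (fun y => (-2 * x) * (|κ y| * |v y|)) μ := i1.const_mul (-2 * x)
    have j01 : Integrable (fun y => (x * x) * |κ y| + (-2 * x) * (|κ y| * |v y|)) μ := j0.add j1
    have e1 : ∫ y, ((x * x) * |κ y| + (-2 * x) * (|κ y| * |v y|) + |κ y| * v y ^ 2) ∂μ =
        (∫ y, ((x * x) * |κ y| + (-2 * x) * (|κ y| * |v y|)) ∂μ) +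
          ∫ y, |κ y| * v y ^ 2 ∂μ := integral_add j01 i2
    have e2 : ∫ y, ((x * x) * |κ y| + (-2 * x) * (|κ y| * |v y|)) ∂μ =
        (∫ y, (x * x) * |κ y| ∂μ) + ∫ y, (-2 * x) * (|κ y| * |v y|) ∂μ :=
      integral_add j0 j1
    have e3 : ∫ y, (x * x) * |κ y| ∂μ = (x * x) * ∫ y, |κ y| ∂μ := integral_const_mul _ _
    have e4 : ∫ y, (-2 * x) * (|κ y| * |v y|) ∂μ = (-2 * x) * ∫ y, |κ y| * |v y| ∂μ :=
      integral_const_mul _ _
    rw [h4, e1, e2, e3, e4] at h3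
    linarith
  have h5 := discrim_le_zero h2
  unfold discrim at h5
  have h6 : (∫ y, κ y * v y ∂μ) ^ 2 ≤ (∫ y, |κ y| * |v y| ∂μ) ^ 2 := by
    rw [← sq_abs]
    exact pow_le_pow_left₀ (abs_nonneg _) h1 2
  nlinarith

end Schur

open Schur in
theorem SCHUR : Stmt_SCHUR := by
  intro μ _ k B C hC hk hB hsymm hrow v hv
  have hv1 : Integrable v μ := hv.integrable one_le_two
  have hv2 : Integrable (fun y => v y ^ 2) μ := hv.integrable_sq
  have hkabs : AEStronglyMeasurable (fun z : E3 × E3 => |k z.1 z.2|) (μ.prod μ) :=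
    (hk.abs).aestronglyMeasurable
  have hbd : ∀ᵐ z ∂(μ.prod μ), ‖|k z.1 z.2|‖ ≤ B := Eventually.of_forall fun z => by
    rw [Real.norm_eq_abs, abs_abs]; exact hB _ _
  -- integrability on the product
  have hprod : Integrable (fun z : E3 × E3 => |k z.1 z.2| * v z.2 ^ 2) (μ.prod μ) :=
    (hv2.comp_snd μ).bdd_mul hkabs hbd
  set Φ : E3 → ℝ := fun x => ∫ y, |k x y| * v y ^ 2 ∂μ with hΦ
  have hΦi : Integrable Φ μ := hprod.integral_prod_left
  have hΦ0 : ∀ x, 0 ≤ Φ x := fun x =>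
    integral_nonneg fun y => mul_nonneg (abs_nonneg _) (sq_nonneg _)
  -- measurability
  have hmeas : AEStronglyMeasurable (fun x => ∫ y, k x y * v y ∂μ) μ := by
    have h1 : AEStronglyMeasurable (fun z : E3 × E3 => k z.1 z.2 * v z.2) (μ.prod μ) :=
      (hk.aestronglyMeasurable).mul (hv.aestronglyMeasurable.comp_snd)
    exact h1.integral_prod_right'
  -- pointwise bound
  have hpt : ∀ᵐ x ∂μ, (∫ y, k x y * v y ∂μ) ^ 2 ≤ C * Φ x := by
    filter_upwards [hrow] with x hx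
    have h1 := row (μ := μ) (κ := k x) (v := v) (B := B) (hk.of_uncurry_left) (hB x) hv
    exact h1.trans (mul_le_mul_of_nonneg_right hx (hΦ0 x))
  have hsq : Integrable (fun x => (∫ y, k x y * v y ∂μ) ^ 2) μ := by
    refine Integrable.mono' (hΦi.const_mul C) (hmeas.pow 2) ?_
    filter_upwards [hpt] with x hx
    rw [Real.norm_eq_abs, abs_of_nonneg (sq_nonneg _)]
    exact hx
  refine ⟨(memLp_two_iff_integrable_sq hmeas).2 hsq, ?_⟩
  have h1 : ∫ x, (∫ y, k x y * v y ∂μ) ^ 2 ∂μ ≤ ∫ x, C * Φ x ∂μ :=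
    integral_mono_ae hsq (hΦi.const_mul C) hpt
  have h2 : ∫ x, Φ x ∂μ = ∫ y, (∫ x, |k x y| * v y ^ 2 ∂μ) ∂μ := by
    exact integral_integral_swap hprod
  have h3 : ∫ y, (∫ x, |k x y| * v y ^ 2 ∂μ) ∂μ ≤ ∫ y, C * v y ^ 2 ∂μ := by
    refine integral_mono_ae hprod.integral_prod_right (hv2.const_mul C) ?_
    filter_upwards [hrow] with y hy
    have h4 : ∫ x, |k x y| * v y ^ 2 ∂μ = (∫ x, |k y x| ∂μ) * v y ^ 2 := by
      rw [← integral_mul_const]
      refine integral_congr_ae (Eventually.of_forall fun x => ?_)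
      change |k x y| * v y ^ 2 = |k y x| * v y ^ 2
      rw [hsymm x y]
    change ∫ x, |k x y| * v y ^ 2 ∂μ ≤ C * v y ^ 2
    rw [h4]
    exact mul_le_mul_of_nonneg_right hy (sq_nonneg _)
  rw [integral_const_mul] at h1 h3
  calc ∫ x, (∫ y, k x y * v y ∂μ) ^ 2 ∂μ ≤ C * ∫ x, Φ x ∂μ := h1
    _ ≤ C * (C * ∫ y, v y ^ 2 ∂μ) := by
        rw [h2]
        exact mul_le_mul_of_nonneg_left h3 hC
    _ = C ^ 2 * ∫ x, v x ^ 2 ∂μ := by ring

end Pool.Agent.PFlow.GB


end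

section

/-!
# DENS: density of the range of `κ - L`
-/

open MeasureTheory Filter Topology
open scoped ContDiff

namespace Pool.Agent.PFlow.GB

open Pool.Agent.PenroseSph Pool.Agent.PFlow

namespace DENSaux

lemma inner_mul (a b : ℝ) : inner ℝ a b = a * b := by
  simp [mul_comm]

lemma pd_lin {f h : E3 → ℝ} {x : E3} (c : ℝ) (hf : DifferentiableAt ℝ f x)
    (hh : DifferentiableAt ℝ h x) (i : Fin 3) :
    pd i (fun y => f y + c * h y) x = pd i f x + c * pd i h x := by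
  unfold pd
  have h1 : HasFDerivAt (fun y => f y + c * h y) (fderiv ℝ f x + c • fderiv ℝ h x) x :=
    hf.hasFDerivAt.add (hh.hasFDerivAt.const_mul c)
  rw [h1.fderiv]
  simp

lemma lgrad_lin (g : TensorField) (W : E3 → ℝ) {f h : E3 → ℝ} {x : E3} (c : ℝ)
    (hf : DifferentiableAt ℝ f x) (hh : DifferentiableAt ℝ h x) (i : Fin 3) :
    lgrad g W (fun y => f y + c * h y) x i = lgrad g W f x i + c * lgrad g W h x i := by
  have h1 : ∀ j, grad (fun y => f y + c * h y) x j = grad f x j + c * grad h x j :=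
    fun j => pd_lin c hf hh j
  simp only [lgrad, raise, h1, Fin.sum_univ_three]
  ring

/-- The leafwise Laplacian is linear. -/
lemma lap_lin (hSMO : Stmt_SMO) {g : TensorField} {W : E3 → ℝ} {f h : E3 → ℝ} {x : E3}
    (hx : Reg g W x) (c : ℝ) (hf : ContDiff ℝ ∞ f) (hh : ContDiff ℝ ∞ h) :
    lap g W (fun y => f y + c * h y) x = lap g W f x + c * lap g W h x := by
  obtain ⟨-, -, -, hd0, -, -, -, -, hd, -, -, -, hl, -, -⟩ := hSMO.2 g W x hx
  have hfd : Differentiable ℝ f := hf.differentiable (by simp)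
  have hhd : Differentiable ℝ h := hh.differentiable (by simp)
  have hdd : DifferentiableAt ℝ (dens g W) x := hd.differentiableAt (by simp)
  have hlf : ∀ i, DifferentiableAt ℝ (fun y => lgrad g W f y i) x := fun i =>
    ((hl f f hf.contDiffAt hf.contDiffAt).2.2 i).differentiableAt (by simp)
  have hlh : ∀ i, DifferentiableAt ℝ (fun y => lgrad g W h y i) x := fun i =>
    ((hl h h hh.contDiffAt hh.contDiffAt).2.2 i).differentiableAt (by simp)
  have h1 : ∀ i, pd i (fun y => dens g W y * lgrad g W (fun y => f y + c * h y) y i) x =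
      pd i (fun y => dens g W y * lgrad g W f y i) x +
        c * pd i (fun y => dens g W y * lgrad g W h y i) x := by
    intro i
    have h2 : pd i (fun y => dens g W y * lgrad g W f y i +
        c * (dens g W y * lgrad g W h y i)) x = pd i (fun y => dens g W y * lgrad g W f y i) x +
        c * pd i (fun y => dens g W y * lgrad g W h y i) x :=
      pd_lin c (hdd.mul (hlf i)) (hdd.mul (hlh i)) i
    rw [← h2]
    congr 1
    funext y
    rw [lgrad_lin g W c (hfd y) (hhd y) i]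
    ring
  simp only [lap, ldiv, h1, Fin.sum_univ_three]
  ring

end DENSaux

open DENSaux in
theorem DENS (hSMO : Stmt_SMO) (hWU : Stmt_WU) : Stmt_DENS := by
  intro V a b g W hF c d hac hcd hdb κ hκ ρ hρ ε hε
  set U : Set E3 := slab V W c d with hU
  set μ : Measure E3 := volume.restrict U with hμ
  have hUm : MeasurableSet U := measurableSet_slab hF c d
  have hUV : U ⊆ V := slab_subset c d
  have : IsFiniteMeasure μ := ⟨by
    rw [hμ, Measure.restrict_apply_univ]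
    exact volume_slab_lt_top hF hac hdb⟩
  have hK : IsCompact (cslab V W c d) := hF.proper c d hac hdb
  have hUK : U ⊆ cslab V W c d := slab_subset_cslab c d
  have hKV : cslab V W c d ⊆ V := cslab_subset c d
  have hreg : ∀ x ∈ V, Reg g W x := fun x hx => hF.reg hx
  have hd0 : ∀ x ∈ V, 0 < dens g W x := fun x hx => (hSMO.2 g W x (hreg x hx)).2.2.2.1
  have hdc : ContinuousOn (dens g W) V := fun x hx =>
    ((hSMO.2 g W x (hreg x hx)).2.2.2.2.2.2.2.2.1).continuousAt.continuousWithinAt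
  have hlapc : ∀ h : E3 → ℝ, ContDiff ℝ ∞ h → ContinuousOn (lap g W h) V := fun h hh x hx =>
    (((hSMO.2 g W x (hreg x hx)).2.2.2.2.2.2.2.2.2.2.2.2.1 h h hh.contDiffAt
      hh.contDiffAt).2.1).continuousAt.continuousWithinAt
  let s : E3 → ℝ := fun x => Real.sqrt (dens g W x)
  have hs0 : ∀ x ∈ V, 0 < s x := fun x hx => Real.sqrt_pos.2 (hd0 x hx)
  have hss : ∀ x ∈ V, s x * s x = dens g W x := fun x hx => Real.mul_self_sqrt (hd0 x hx).le
  have hsc : ContinuousOn s V := Real.continuous_sqrt.comp_continuousOn hdc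
  -- bounded continuous functions are in L2
  have hbm : ∀ f : E3 → ℝ, ContinuousOn f V → ∃ C : ℝ, ∀ x ∈ U, |f x| ≤ C := by
    intro f hf
    obtain ⟨C, hC⟩ := hK.exists_bound_of_continuousOn (hf.mono hKV)
    exact ⟨C, fun x hx => hC x (hUK hx)⟩
  have hmeas : ∀ f : E3 → ℝ, ContinuousOn f V → AEStronglyMeasurable f μ := fun f hf =>
    (hf.mono hUV).aestronglyMeasurable hUm
  have hmem : ∀ f : E3 → ℝ, ContinuousOn f V → MemLp f 2 μ := by
    intro f hf
    obtain ⟨C, hC⟩ := hbm f hf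
    exact MemLp.of_bound (hmeas f hf) C ((ae_restrict_iff' hUm).2 (Eventually.of_forall hC))
  -- products of L2 functions with bounded continuous functions
  have hmul : ∀ f w : E3 → ℝ, ContinuousOn f V → MemLp w 2 μ → MemLp (fun x => f x * w x) 2 μ := by
    intro f w hf hw
    obtain ⟨C, hC⟩ := hbm f hf
    refine MemLp.of_le_mul (c := C) hw ((hmeas f hf).mul hw.aestronglyMeasurable)
      ((ae_restrict_iff' hUm).2 (Eventually.of_forall fun x hx => ?_))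
    rw [norm_mul]
    exact mul_le_mul_of_nonneg_right (hC x hx) (norm_nonneg _)
  let Fh : (E3 → ℝ) → E3 → ℝ := fun h x => s x * (κ * h x - lap g W h x)
  have hFc : ∀ h : E3 → ℝ, ContDiff ℝ ∞ h → ContinuousOn (Fh h) V := fun h hh =>
    hsc.mul ((continuousOn_const.mul hh.continuous.continuousOn).sub (hlapc h hh))
  have hFlin : ∀ (h1 h2 : E3 → ℝ) (t : ℝ), TestOn U h1 → TestOn U h2 → ∀ x ∈ U,
      Fh (fun y => h1 y + t * h2 y) x = Fh h1 x + t * Fh h2 x := by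
    intro h1 h2 t T1 T2 x hx
    show s x * (κ * (h1 x + t * h2 x) - lap g W (fun y => h1 y + t * h2 y) x) =
      s x * (κ * h1 x - lap g W h1 x) + t * (s x * (κ * h2 x - lap g W h2 x))
    rw [lap_lin hSMO (hreg x (hUV hx)) t T1.smooth T2.smooth]
    ring
  have hTlin : ∀ (h1 h2 : E3 → ℝ) (t : ℝ), TestOn U h1 → TestOn U h2 →
      TestOn U (fun y => h1 y + t * h2 y) := by
    intro h1 h2 t T1 T2
    have e1 : HasCompactSupport (fun y => t * h2 y) := T2.compact.mul_left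
    refine ⟨T1.smooth.add (contDiff_const.mul T2.smooth), T1.compact.add e1, ?_⟩
    refine (tsupport_add h1 (fun y => t * h2 y)).trans (Set.union_subset T1.supp ?_)
    exact (tsupport_mul_subset_right).trans T2.supp
  have hT0 : TestOn U (fun _ => (0 : ℝ)) := by
    refine ⟨contDiff_const, HasCompactSupport.zero, ?_⟩
    have : tsupport (fun _ : E3 => (0 : ℝ)) = ∅ := by
      rw [tsupport_eq_empty_iff]
      rfl
    rw [this]
    exact Set.empty_subset _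
  have hF0 : ∀ x ∈ U, Fh (fun _ => (0 : ℝ)) x = 0 := by
    intro x hx
    have := hFlin (fun _ => 0) (fun _ => 0) (-1) hT0 hT0 x hx
    have e : (fun y : E3 => (0 : ℝ) + (-1) * 0) = fun _ => 0 := by
      funext y
      ring
    rw [e] at this
    linarith
  -- the range
  let S : Submodule ℝ (Lp ℝ 2 μ) :=
    { carrier := {F | ∃ h : E3 → ℝ, TestOn U h ∧ F =ᵐ[μ] Fh h}
      add_mem' := by
        rintro F1 F2 ⟨h1, T1, e1⟩ ⟨h2, T2, e2⟩
        refine ⟨_, hTlin h1 h2 1 T1 T2, ?_⟩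
        have e3 : ∀ᵐ x ∂μ, Fh (fun y => h1 y + 1 * h2 y) x = Fh h1 x + 1 * Fh h2 x :=
          (ae_restrict_iff' hUm).2 (Eventually.of_forall (hFlin h1 h2 1 T1 T2))
        filter_upwards [Lp.coeFn_add F1 F2, e1, e2, e3] with x h4 h5 h6 h7
        rw [h4, h7, Pi.add_apply, h5, h6, one_mul]
      zero_mem' := by
        refine ⟨_, hT0, ?_⟩
        have e3 : ∀ᵐ x ∂μ, Fh (fun _ => (0 : ℝ)) x = 0 :=
          (ae_restrict_iff' hUm).2 (Eventually.of_forall hF0)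
        filter_upwards [Lp.coeFn_zero ℝ 2 μ, e3] with x h4 h5
        rw [h4, h5]
        rfl
      smul_mem' := by
        rintro t F ⟨h, T, e⟩
        refine ⟨_, hTlin _ h t hT0 T, ?_⟩
        have e3 : ∀ᵐ x ∂μ, Fh (fun y => 0 + t * h y) x = Fh (fun _ => 0) x + t * Fh h x :=
          (ae_restrict_iff' hUm).2 (Eventually.of_forall (hFlin _ h t hT0 T))
        have e4 : ∀ᵐ x ∂μ, Fh (fun _ => (0 : ℝ)) x = 0 :=
          (ae_restrict_iff' hUm).2 (Eventually.of_forall hF0)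
        filter_upwards [Lp.coeFn_smul t F, e, e3, e4] with x h4 h5 h6 h7
        rw [h4, h6, h7, zero_add, Pi.smul_apply, h5, smul_eq_mul] }
  have hSmem : ∀ (h : E3 → ℝ) (T : TestOn U h), (hmem _ (hFc h T.smooth)).toLp ∈ S := fun h T =>
    ⟨h, T, (hmem _ (hFc h T.smooth)).coeFn_toLp⟩
  have hperp : Sᗮ = ⊥ := by
    rw [eq_bot_iff]
    intro w hw
    rw [Submodule.mem_bot]
    rw [Submodule.mem_orthogonal] at hw
    have hinvc : ContinuousOn (fun x => (s x)⁻¹) V := hsc.inv₀ fun x hx => (hs0 x hx).ne'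
    have hv : MemLp (fun x => (s x)⁻¹ * w x) 2 μ := hmul _ _ hinvc (Lp.memLp w)
    have hz := hWU V a b g W hF c d hac hcd hdb κ hκ (fun x => (s x)⁻¹ * w x) hv (by
      intro h T
      have e1 := hw _ (hSmem h T)
      rw [L2.inner_def] at e1
      rw [← e1]
      refine integral_congr_ae ?_
      have e2 : ∀ᵐ x ∂μ, x ∈ U := ae_restrict_mem hUm
      filter_upwards [(hmem _ (hFc h T.smooth)).coeFn_toLp, e2] with x h3 h4
      have h5 := hs0 x (hUV h4)
      rw [h3]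
      show (s x)⁻¹ * w x * (κ * h x - lap g W h x) * dens g W x =
        inner ℝ (s x * (κ * h x - lap g W h x)) (w x)
      rw [← hss x (hUV h4), inner_mul]
      field_simp)
    have e2 : ∀ᵐ x ∂μ, x ∈ U := ae_restrict_mem hUm
    rw [Lp.eq_zero_iff_ae_eq_zero]
    filter_upwards [hz, e2] with x h3 h4
    have h5 := hs0 x (hUV h4)
    have h6 : (s x)⁻¹ ≠ 0 := inv_ne_zero h5.ne'
    rcases mul_eq_zero.1 h3 with h | h
    · exact absurd h h6
    · exact h
  have htop : S.topologicalClosure = ⊤ := Submodule.topologicalClosure_eq_top_iff.2 hperp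
  have hρ' : MemLp (fun x => s x * ρ x) 2 μ := hmul _ _ hsc hρ
  have hcl : hρ'.toLp ∈ S.topologicalClosure := by
    rw [htop]
    trivial
  have hcl2 : hρ'.toLp ∈ closure (S : Set (Lp ℝ 2 μ)) := hcl
  rw [Metric.mem_closure_iff] at hcl2
  obtain ⟨F, hFS, hdist⟩ := hcl2 (Real.sqrt ε) (Real.sqrt_pos.2 hε)
  obtain ⟨h, T, eF⟩ := hFS
  refine ⟨h, T, ?_⟩
  have h1 : ‖hρ'.toLp - F‖ ^ 2 < ε := by
    rw [dist_eq_norm] at hdist
    have h2 := Real.sq_sqrt hε.le
    have h3 := norm_nonneg (hρ'.toLp - F)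
    nlinarith
  refine lt_of_eq_of_lt ?_ h1
  rw [← real_inner_self_eq_norm_sq, L2.inner_def]
  refine integral_congr_ae ?_
  have e2 : ∀ᵐ x ∂μ, x ∈ U := ae_restrict_mem hUm
  filter_upwards [Lp.coeFn_sub hρ'.toLp F, hρ'.coeFn_toLp, eF, e2] with x h3 h4 h5 h6
  rw [h3, Pi.sub_apply, h4, h5, inner_mul]
  show (κ * h x - lap g W h x - ρ x) ^ 2 * dens g W x =
    (s x * ρ x - s x * (κ * h x - lap g W h x)) * (s x * ρ x - s x * (κ * h x - lap g W h x))
  rw [← hss x (hUV h6)]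
  ring

end Pool.Agent.PFlow.GB


end

section

/-!
# Block GB: existence of charts (CHART) from the inverse function theorem (CHL)
-/

open MeasureTheory Filter Topology
open scoped ContDiff

namespace Pool.Agent.PFlow.GB

open Pool.Agent.PenroseSph Pool.Agent.PFlow

lemma dist_lt_of_mem_box {z0 z : E3} {r : ℝ} (hr : 0 < r) (hz : z ∈ box z0 r r) :
    dist z z0 < 2 * r := by
  obtain ⟨h0, h1, h2⟩ := hz
  rw [EuclideanSpace.dist_eq, Fin.sum_univ_three, Real.dist_eq, Real.dist_eq, Real.dist_eq]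
  have e0 : |z 0 - z0 0| ^ 2 ≤ r ^ 2 := pow_le_pow_left₀ (abs_nonneg _) h0 2
  have e1 : |z 1 - z0 1| ^ 2 ≤ r ^ 2 := pow_le_pow_left₀ (abs_nonneg _) h1 2
  have e2 : |z 2 - z0 2| ^ 2 ≤ r ^ 2 := pow_le_pow_left₀ (abs_nonneg _) h2 2
  rw [Real.sqrt_lt' (by positivity)]
  nlinarith

lemma exists_box_subset {N : Set E3} (hN : IsOpen N) {z0 : E3} (hz : z0 ∈ N) :
    ∃ r : ℝ, 0 < r ∧ box z0 r r ⊆ N := by
  obtain ⟨δ, hδ, hb⟩ := Metric.isOpen_iff.mp hN z0 hz
  refine ⟨δ / 2, by positivity, fun z hzb => hb ?_⟩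
  rw [Metric.mem_ball]
  have := dist_lt_of_mem_box (by positivity : 0 < δ / 2) hzb
  linarith

theorem CHART (hCHL : Stmt_CHL) : Stmt_CHART := by
  intro V a b g W hF p0 hp0 O hO
  obtain ⟨O', hO'O, hO'o, hp0O'⟩ := mem_nhds_iff.mp hO
  obtain ⟨Φ, z0, N, hNo, hz0, hΦz0, hz2, hΦs, hinj, hmaps, hdet, hW⟩ := hCHL (V ∩ O') W p0
    (hF.isOpen.inter hO'o) (hF.smooth.mono Set.inter_subset_left) ⟨hp0, hp0O'⟩
    (hF.regular p0 hp0)
  obtain ⟨r, hr, hbN⟩ := exists_box_subset hNo hz0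
  refine ⟨Φ, z0, r, r, ⟨hr, hr, N, hNo, hbN, hΦs, hinj, fun z hz => (hmaps hz).1, hdet, hW⟩,
    hΦz0, hz2, ?_⟩
  rintro _ ⟨z, hz, rfl⟩
  exact hO'O (hmaps (hbN hz)).2

end Pool.Agent.PFlow.GB


end

section

/-!
# (CUT) The cut-off at the poles and its flux
-/

open MeasureTheory Filter Topology
open scoped ContDiff

namespace Pool.Agent.PFlow.GB

open Pool.Agent.PenroseSph Pool.Agent.PFlow

namespace CutAux

lemma hb_smooth : ContDiff ℝ ∞ hb := by
  unfold hb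
  exact Real.smoothTransition.contDiff.comp ((contDiff_const.mul contDiff_id).sub contDiff_const)

lemma hb_zero {s : ℝ} (hs : s ≤ 1 / 2) : hb s = 0 :=
  Real.smoothTransition.zero_of_nonpos (by linarith)

lemma hb_one {s : ℝ} (hs : 1 ≤ s) : hb s = 1 :=
  Real.smoothTransition.one_of_one_le (by linarith)

lemma hb_nonneg (s : ℝ) : 0 ≤ hb s := Real.smoothTransition.nonneg _

lemma hb_le_one (s : ℝ) : hb s ≤ 1 := Real.smoothTransition.le_one _

lemma deriv_hb_low {s : ℝ} (hs : s ≤ 1 / 2) : deriv hb s = 0 :=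
  IsLocalMin.deriv_eq_zero (Filter.Eventually.of_forall (fun y => by
    rw [hb_zero hs]; exact hb_nonneg y))

lemma deriv_hb_high {s : ℝ} (hs : 1 ≤ s) : deriv hb s = 0 :=
  IsLocalMax.deriv_eq_zero (Filter.Eventually.of_forall (fun y => by
    rw [hb_one hs]; exact hb_le_one y))

lemma continuous_deriv_hb : Continuous (deriv hb) := hb_smooth.continuous_deriv (by simp)

lemma deriv_hb_cs : HasCompactSupport (deriv hb) :=
  HasCompactSupport.intro (K := Set.Icc 0 1) isCompact_Icc (fun s hs => by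
    by_cases h1 : s ≤ 1 / 2
    · exact deriv_hb_low h1
    · refine deriv_hb_high ?_
      by_contra h2
      exact hs ⟨by linarith, by linarith⟩)

lemma integral_deriv_hb : ∫ s in Set.Ioi (0 : ℝ), deriv hb s = 1 := by
  have h1 : Tendsto hb atTop (𝓝 1) :=
    tendsto_const_nhds.congr' ((eventually_ge_atTop (1 : ℝ)).mono fun s hs => (hb_one hs).symm)
  have h2 := integral_Ioi_of_hasDerivAt_of_tendsto (f := hb) (f' := deriv hb) (a := 0) (m := 1)
    (hb_smooth.continuous.continuousWithinAt)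
    (fun x _ => (hb_smooth.differentiable (by simp) x).hasDerivAt)
    ((continuous_deriv_hb.integrable_of_hasCompactSupport deriv_hb_cs).integrableOn) h1
  rw [h2, hb_zero (by norm_num)]
  norm_num

lemma isOpen_obox (z0 : E3) (r e : ℝ) : IsOpen (obox z0 r e) := by
  have h : ∀ i : Fin 3, Continuous fun z : E3 => |z i - z0 i| := fun i => by fun_prop
  exact ((isOpen_lt (h 0) continuous_const).inter ((isOpen_lt (h 1) continuous_const).inter
    (isOpen_lt (h 2) continuous_const)))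

lemma obox_subset (z0 : E3) (r e : ℝ) : obox z0 r e ⊆ box z0 r e :=
  fun _ hz => ⟨hz.1.le, hz.2.1.le, hz.2.2.le⟩

end CutAux

open CutAux

theorem CUT (hSMO : Stmt_SMO) (hCHX : Stmt_CHX) (hPOLE : Stmt_POLE) (hSCAL : Stmt_SCAL) :
    Stmt_CUT := by
  intro V a b g W hF Φ z0 r e hC t1 hsep
  have hr := hC.r_pos
  have he := hC.e_pos
  obtain ⟨ht1, hsep⟩ := hsep
  obtain ⟨N, hN, hbN, hΦs, hinj, hmaps, hdet, hWΦ⟩ := hC.nbhd
  set pm := rp g W Φ z0 (-(r / 2)) with hpm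
  set pp := rp g W Φ z0 (r / 2) with hpp
  set D := Φ '' obox z0 r e with hD
  set U := slab V W (z0 2 - e) (z0 2 + e) with hU
  set S := sing g W Φ z0 r e with hS
  obtain ⟨hca, hcb, hBc, hBV, hopen, -, -, -, -⟩ := hCHX V a b g W hF Φ z0 r e hC
  have hDo : IsOpen D := hopen _ (isOpen_obox z0 r e) subset_rfl
  have hUo : IsOpen U := isOpen_slab hF _ _
  have hobN : obox z0 r e ⊆ N := (obox_subset z0 r e).trans hbN
  have hDV : D ⊆ V := by
    rintro x ⟨z, hz, rfl⟩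
    exact hmaps (hobN hz)
  have hDU : D ⊆ U := by
    rintro x ⟨z, hz, rfl⟩
    refine ⟨hmaps (hobN hz), ?_⟩
    have h2 := abs_lt.1 hz.2.2
    simp only [Set.mem_preimage, Set.mem_Ioo, hWΦ z (hobN hz)]
    exact ⟨by linarith, by linarith⟩
  -- the smaller box
  have hC' : Chart V W Φ z0 (3 * r / 4) e :=
    { r_pos := by positivity
      e_pos := he
      nbhd := ⟨N, hN, fun z hz => hbN ⟨hz.1.trans (by linarith), hz.2.1.trans (by linarith),
        hz.2.2⟩, hΦs, hinj, hmaps, hdet, hWΦ⟩ }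
  set K' := Φ '' box z0 (3 * r / 4) e with hK'
  have hK'c : IsClosed K' := (hCHX V a b g W hF Φ z0 (3 * r / 4) e hC').2.2.1.isClosed
  have hK'D : ∀ x ∈ U, x ∈ K' → x ∈ D := by
    rintro x hx ⟨z, hz, rfl⟩
    have hzb : z ∈ box z0 r e := ⟨hz.1.trans (by linarith), hz.2.1.trans (by linarith), hz.2.2⟩
    have h2 := hx.2
    simp only [Set.mem_preimage, Set.mem_Ioo, hWΦ z (hbN hzb)] at h2
    exact ⟨z, ⟨by linarith [hz.1], by linarith [hz.2.1], abs_lt.2 ⟨by linarith, by linarith⟩⟩, rfl⟩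
  have hfar : ∀ x ∈ D, x ∉ K' → t1 < pm x ∧ t1 < pp x := by
    rintro x ⟨z, hz, rfl⟩ hx
    have hzb := obox_subset z0 r e hz
    constructor
    · by_contra h
      obtain ⟨h0, h1⟩ := hsep z hzb (-(r / 2)) (Or.inr rfl) (not_lt.1 h)
      apply hx
      refine ⟨z, ⟨?_, by linarith, hzb.2.2⟩, rfl⟩
      rw [abs_le] at h0 ⊢
      constructor <;> linarith [h0.1, h0.2]
    · by_contra h
      obtain ⟨h0, h1⟩ := hsep z hzb (r / 2) (Or.inl rfl) (not_lt.1 h)
      apply hx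
      refine ⟨z, ⟨?_, by linarith, hzb.2.2⟩, rfl⟩
      rw [abs_le] at h0 ⊢
      constructor <;> linarith [h0.1, h0.2]
  have hdisj : ∀ x ∈ D, pm x ≤ t1 → pp x ≤ t1 → False := by
    rintro x ⟨z, hz, rfl⟩ h1 h2
    have hzb := obox_subset z0 r e hz
    obtain ⟨h3, -⟩ := hsep z hzb (-(r / 2)) (Or.inr rfl) h1
    obtain ⟨h4, -⟩ := hsep z hzb (r / 2) (Or.inl rfl) h2
    rw [abs_le] at h3 h4
    linarith [h3.1, h3.2, h4.1, h4.2]
  have hτm : |(-(r / 2))| < r := by rw [abs_neg, abs_of_pos (by positivity)]; linarith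
  have hτp : |r / 2| < r := by rw [abs_of_pos (by positivity)]; linarith
  obtain ⟨hpms, cm, Cm, hcm, -, hpmb, -⟩ := hPOLE V a b g W hF Φ z0 r e hC (-(r / 2)) hτm
  obtain ⟨hpps, cp, Cp, hcp, -, hppb, -⟩ := hPOLE V a b g W hF Φ z0 r e hC (r / 2) hτp
  rw [← hpm, ← hD] at hpms
  rw [← hpp, ← hD] at hpps
  have hpm0 : ∀ x ∈ D, 0 ≤ pm x := by
    rintro x ⟨z, hz, rfl⟩
    exact le_trans (by positivity) (hpmb z (obox_subset z0 r e hz)).1
  have hpp0 : ∀ x ∈ D, 0 ≤ pp x := by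
    rintro x ⟨z, hz, rfl⟩
    exact le_trans (by positivity) (hppb z (obox_subset z0 r e hz)).1
  have hpma : ∀ x ∈ D, ContDiffAt ℝ ∞ pm x := fun x hx =>
    (hpms x hx).contDiffAt (hDo.mem_nhds hx)
  have hppa : ∀ x ∈ D, ContDiffAt ℝ ∞ pp x := fun x hx =>
    (hpps x hx).contDiffAt (hDo.mem_nhds hx)
  have hcutD : ∀ t : ℝ, ∀ x ∈ D, cut g W Φ z0 r e t x = hb (pm x / t) * hb (pp x / t) := by
    intro t x hx
    unfold cut
    rw [if_pos hx]
  have hcutN : ∀ t : ℝ, ∀ x, x ∉ D → cut g W Φ z0 r e t x = 1 := by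
    intro t x hx
    unfold cut
    rw [if_neg hx]
  have hcutDe : ∀ t : ℝ, ∀ x ∈ D,
      cut g W Φ z0 r e t =ᶠ[𝓝 x] fun y => hb (pm y / t) * hb (pp y / t) := by
    intro t x hx
    filter_upwards [hDo.mem_nhds hx] with y hy
    exact hcutD t y hy
  have hcutNe : ∀ t : ℝ, 0 < t → t < t1 → ∀ x ∈ U, x ∉ D →
      cut g W Φ z0 r e t =ᶠ[𝓝 x] fun _ => 1 := by
    intro t ht htt x hxU hx
    have hxK : x ∉ K' := fun h => hx (hK'D x hxU h)
    filter_upwards [hK'c.isOpen_compl.mem_nhds hxK] with y hy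
    by_cases hyD : y ∈ D
    · obtain ⟨h1, h2⟩ := hfar y hyD hy
      rw [hcutD t y hyD, hb_one, hb_one, one_mul]
      · rw [le_div_iff₀ ht]; linarith
      · rw [le_div_iff₀ ht]; linarith
    · exact hcutN t y hyD
  have hcuts : ∀ t : ℝ, ∀ x ∈ D, ContDiffAt ℝ ∞ (cut g W Φ z0 r e t) x := by
    intro t x hx
    refine ContDiffAt.congr_of_eventuallyEq ?_ (hcutDe t x hx)
    exact (hb_smooth.contDiffAt.comp x ((hpma x hx).div_const t)).mul
      (hb_smooth.contDiffAt.comp x ((hppa x hx).div_const t))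
  have hSD : S ⊆ D := fun x hx => hx.1
  refine ⟨?_, ?_, ?_, ?_⟩
  · intro t ht htt
    refine ⟨fun x hx => ?_, fun x hx => ?_⟩
    · by_cases hxD : x ∈ D
      · exact (hcuts t x hxD).contDiffWithinAt
      · exact (contDiffAt_const.congr_of_eventuallyEq (hcutNe t ht htt x hx hxD)).contDiffWithinAt
    · have hxD : x ∈ D := hSD hx
      rcases hx.2 with h0 | h0
      · have h1 : ∀ᶠ y in 𝓝 x, pm y < t / 2 := by
          have : ContinuousAt pm x := (hpma x hxD).continuousAt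
          refine this.eventually_lt continuousAt_const ?_
          change pm x < t / 2
          rw [show pm x = 0 from h0]; linarith
        filter_upwards [h1, hDo.mem_nhds hxD] with y hy hyD
        rw [hcutD t y hyD, hb_zero, zero_mul]
        rw [div_le_iff₀ ht]; linarith
      · have h1 : ∀ᶠ y in 𝓝 x, pp y < t / 2 := by
          have : ContinuousAt pp x := (hppa x hxD).continuousAt
          refine this.eventually_lt continuousAt_const ?_
          change pp x < t / 2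
          rw [show pp x = 0 from h0]; linarith
        filter_upwards [h1, hDo.mem_nhds hxD] with y hy hyD
        rw [hcutD t y hyD, hb_zero (s := pp y / t), mul_zero]
        rw [div_le_iff₀ ht]; linarith
  · intro t x
    by_cases hx : x ∈ D
    · rw [hcutD t x hx]
      exact ⟨mul_nonneg (hb_nonneg _) (hb_nonneg _),
        mul_le_one₀ (hb_le_one _) (hb_nonneg _) (hb_le_one _)⟩
    · rw [hcutN t x hx]; exact ⟨zero_le_one, le_rfl⟩
  · intro x hx hxS
    by_cases hxD : x ∈ D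
    · have h1 : 0 < pm x := lt_of_le_of_ne (hpm0 x hxD) (fun h => hxS ⟨hxD, Or.inl h.symm⟩)
      have h2 : 0 < pp x := lt_of_le_of_ne (hpp0 x hxD) (fun h => hxS ⟨hxD, Or.inr h.symm⟩)
      have h3 : ∀ᶠ t in 𝓝[>] (0 : ℝ), t < min (pm x) (pp x) :=
        mem_nhdsWithin_of_mem_nhds (Iio_mem_nhds (lt_min h1 h2))
      refine tendsto_const_nhds.congr' ?_
      filter_upwards [h3, self_mem_nhdsWithin] with t ht ht0
      have ht0' : 0 < t := ht0
      obtain ⟨h4, h5⟩ := lt_min_iff.1 ht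
      rw [hcutD t x hxD, hb_one, hb_one, one_mul]
      · rw [le_div_iff₀ ht0']; linarith
      · rw [le_div_iff₀ ht0']; linarith
    · refine tendsto_const_nhds.congr' ?_
      exact Filter.Eventually.of_forall fun t => (hcutN t x hxD).symm
  · intro Y κ1 κ2 C t2 hY ht2 hY1 hY2 ψ hψ hψs
    obtain ⟨hnm, hscm⟩ := hSCAL V a b g W hF Φ z0 r e hC (-(r / 2)) hτm
    obtain ⟨hnp, hscp⟩ := hSCAL V a b g W hF Φ z0 r e hC (r / 2) hτp
    have hψc : Continuous ψ := hψ.continuous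
    have hψa : Continuous fun s => |ψ s| := hψc.abs
    have hψas : tsupport (fun s => |ψ s|) ⊆ Set.Ioo (z0 2 - e) (z0 2 + e) := by
      refine le_trans ?_ hψs
      refine closure_mono ?_
      intro s hs
      simpa using hs
    have hda : Continuous fun s => |deriv hb s| := continuous_deriv_hb.abs
    have hL1 := hscm (deriv hb) ψ 1 continuous_deriv_hb (fun s hs => deriv_hb_high hs) hψc hψs
    have hL2 := hscp (deriv hb) ψ 1 continuous_deriv_hb (fun s hs => deriv_hb_high hs) hψc hψs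
    have hM1 := hscm (fun s => |deriv hb s|) (fun s => |ψ s|) 1 hda
      (fun s hs => by rw [deriv_hb_high hs, abs_zero]) hψa hψas
    have hM2 := hscp (fun s => |deriv hb s|) (fun s => |ψ s|) 1 hda
      (fun s hs => by rw [deriv_hb_high hs, abs_zero]) hψa hψas
    rw [integral_deriv_hb, mul_one] at hL1 hL2
    simp only [← hpm, ← hpp, ← hD] at hL1 hL2 hM1 hM2 hnm hnp
    -- the singular set is null
    have hSnull : volume S = 0 := by
      refine measure_mono_null ?_ (measure_union_null hnm hnp)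
      rintro x ⟨hxD, h | h⟩
      · exact Or.inl ⟨hxD, h⟩
      · exact Or.inr ⟨hxD, h⟩
    -- continuity and bounds
    have hWc : ContinuousOn W V := hF.continuousOn
    have hdc : ContinuousOn (dens g W) V := fun x hx =>
      ((hSMO.2 g W x (hSMO.1 V a b g W hF x hx)).2.2.2.2.2.2.2.2.1).continuousAt.continuousWithinAt
    have hdpos : ∀ x ∈ V, 0 < dens g W x := fun x hx =>
      (hSMO.2 g W x (hSMO.1 V a b g W hF x hx)).2.2.2.1
    have hψW : ContinuousOn (fun x => ψ (W x)) V := hψc.comp_continuousOn hWc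
    have hDB : D ⊆ Φ '' box z0 r e := Set.image_mono (obox_subset z0 r e)
    have hDfin : volume D ≠ ⊤ :=
      (lt_of_le_of_lt (measure_mono hDB) hBc.measure_lt_top).ne
    obtain ⟨M1, hM1b⟩ := hBc.exists_bound_of_continuousOn (hdc.mono hBV)
    obtain ⟨M2, hM2b⟩ := hBc.exists_bound_of_continuousOn (hψW.mono hBV)
    obtain ⟨M3, hM3b⟩ := continuous_deriv_hb.bounded_above_of_compact_support deriv_hb_cs
    have hM3 : 0 ≤ M3 := (norm_nonneg _).trans (hM3b 0)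
    have hpmc : ContinuousOn pm D := hpms.continuousOn
    have hppc : ContinuousOn pp D := hpps.continuousOn
    have hint : ∀ (q : E3 → ℝ) (t : ℝ), ContinuousOn q D →
        IntegrableOn (fun x => ψ (W x) * deriv hb (q x / t) * dens g W x) D := by
      intro q t hq
      refine Integrable.mono' (integrableOn_const (C := M2 * M3 * M1) hDfin) ?_ ?_
      · refine ContinuousOn.aestronglyMeasurable ?_ hDo.measurableSet
        exact ((hψW.mono hDV).mul (continuous_deriv_hb.comp_continuousOn (hq.div_const t))).mul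
          (hdc.mono hDV)
      · refine (ae_restrict_iff' hDo.measurableSet).2 (Filter.Eventually.of_forall fun x hx => ?_)
        have h1 := hM1b x (hDB hx)
        have h2 := hM2b x (hDB hx)
        have h3 := hM3b (q x / t)
        have h2' : 0 ≤ M2 := (norm_nonneg _).trans h2
        rw [norm_mul, norm_mul]
        gcongr
    have hinta : ∀ (q : E3 → ℝ) (t : ℝ), ContinuousOn q D →
        IntegrableOn (fun x => |ψ (W x)| * |deriv hb (q x / t)| * dens g W x) D := by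
      intro q t hq
      refine Integrable.mono' (integrableOn_const (C := M2 * M3 * M1) hDfin) ?_ ?_
      · refine ContinuousOn.aestronglyMeasurable ?_ hDo.measurableSet
        exact ((hψW.mono hDV).abs.mul
          (continuous_deriv_hb.comp_continuousOn (hq.div_const t)).abs).mul (hdc.mono hDV)
      · refine (ae_restrict_iff' hDo.measurableSet).2 (Filter.Eventually.of_forall fun x hx => ?_)
        have h1 := hM1b x (hDB hx)
        have h2 := hM2b x (hDB hx)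
        have h3 := hM3b (q x / t)
        have h2' : 0 ≤ M2 := (norm_nonneg _).trans h2
        rw [norm_mul, norm_mul, Real.norm_eq_abs, Real.norm_eq_abs, abs_abs, abs_abs,
          ← Real.norm_eq_abs, ← Real.norm_eq_abs]
        gcongr
    -- the derivative of the cut-off
    have hpd : ∀ t : ℝ, 0 < t → t < t1 → ∀ x ∈ D, ∀ i, pd i (cut g W Φ z0 r e t) x
        = t⁻¹ * deriv hb (pm x / t) * pd i pm x + t⁻¹ * deriv hb (pp x / t) * pd i pp x := by
      intro t ht htt x hx i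
      have h1 : HasFDerivAt (fun y => hb (pm y / t))
          (deriv hb (pm x / t) • (t⁻¹ • fderiv ℝ pm x)) x := by
        have h2 : HasFDerivAt (fun y => pm y / t) (t⁻¹ • fderiv ℝ pm x) x := by
          have := ((hpma x hx).differentiableAt (by simp)).hasFDerivAt.const_mul t⁻¹
          refine this.congr_of_eventuallyEq (Filter.Eventually.of_forall fun y => ?_)
          simp only [div_eq_inv_mul]
        exact HasDerivAt.comp_hasFDerivAt (h₂ := hb) x
          ((hb_smooth.differentiable (by simp) (pm x / t)).hasDerivAt) h2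
      have h1' : HasFDerivAt (fun y => hb (pp y / t))
          (deriv hb (pp x / t) • (t⁻¹ • fderiv ℝ pp x)) x := by
        have h2 : HasFDerivAt (fun y => pp y / t) (t⁻¹ • fderiv ℝ pp x) x := by
          have := ((hppa x hx).differentiableAt (by simp)).hasFDerivAt.const_mul t⁻¹
          refine this.congr_of_eventuallyEq (Filter.Eventually.of_forall fun y => ?_)
          simp only [div_eq_inv_mul]
        exact HasDerivAt.comp_hasFDerivAt (h₂ := hb) x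
          ((hb_smooth.differentiable (by simp) (pp x / t)).hasDerivAt) h2
      have h3 := (h1.mul h1').congr_of_eventuallyEq (hcutDe t x hx)
      unfold pd
      rw [h3.fderiv]
      simp only [add_apply, smul_apply, smul_eq_mul]
      by_cases h4 : pm x ≤ t1
      · have h5 : t1 < pp x := by
          by_contra h
          exact hdisj x hx h4 (not_lt.1 h)
        have h6 : 1 ≤ pp x / t := by rw [le_div_iff₀ ht]; linarith
        rw [deriv_hb_high h6, hb_one h6]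
        ring
      · have h6 : 1 ≤ pm x / t := by rw [le_div_iff₀ ht]; linarith
        rw [deriv_hb_high h6, hb_one h6]
        ring
    set F : ℝ → E3 → ℝ := fun t x =>
      ψ (W x) * (∑ i, pd i (cut g W Φ z0 r e t) x * Y x i) * dens g W x with hFdef
    have hFN : ∀ t : ℝ, 0 < t → t < t1 → ∀ x ∈ U, x ∉ D → F t x = 0 := by
      intro t ht htt x hxU hx
      have h1 : ∀ i, pd i (cut g W Φ z0 r e t) x = 0 := by
        intro i
        unfold pd
        rw [(hcutNe t ht htt x hxU hx).fderiv_eq]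
        simp
      simp only [hFdef, h1, zero_mul, Finset.sum_const_zero, mul_zero]
    -- the pointwise error
    have herr1 : ∀ (q : E3 → ℝ) (κ : ℝ), (∀ x ∈ D, 0 < q x → q x < t2 →
        |∑ i, pd i q x * Y x i - κ| ≤ C * Real.sqrt (q x)) → ∀ t : ℝ, 0 < t → t < t2 → ∀ x ∈ D,
        |deriv hb (q x / t) * (∑ i, pd i q x * Y x i - κ)|
          ≤ |C| * Real.sqrt t * |deriv hb (q x / t)| := by
      intro q κ hq t ht htt x hx
      by_cases h1 : deriv hb (q x / t) = 0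
      · rw [h1]; simp
      · have h2 : 1 / 2 < q x / t := by
          by_contra h
          exact h1 (deriv_hb_low (not_lt.1 h))
        have h3 : q x / t < 1 := by
          by_contra h
          exact h1 (deriv_hb_high (not_lt.1 h))
        rw [lt_div_iff₀ ht] at h2
        rw [div_lt_iff₀ ht] at h3
        have h4 := hq x hx (by linarith) (by linarith)
        have h5 : C * Real.sqrt (q x) ≤ |C| * Real.sqrt t :=
          mul_le_mul (le_abs_self C) (Real.sqrt_le_sqrt (by linarith)) (Real.sqrt_nonneg _)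
            (abs_nonneg C)
        rw [abs_mul, mul_comm]
        exact mul_le_mul_of_nonneg_right (h4.trans h5) (abs_nonneg _)
    have herr : ∀ t : ℝ, 0 < t → t < t1 → t < t2 → ∀ x ∈ D,
        |F t x - (κ1 * (t⁻¹ * (ψ (W x) * deriv hb (pm x / t) * dens g W x))
          + κ2 * (t⁻¹ * (ψ (W x) * deriv hb (pp x / t) * dens g W x)))|
        ≤ |C| * Real.sqrt t * (t⁻¹ * (|ψ (W x)| * |deriv hb (pm x / t)| * dens g W x)
          + t⁻¹ * (|ψ (W x)| * |deriv hb (pp x / t)| * dens g W x)) := by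
      intro t ht htt htt2 x hx
      have h1 : ∑ i, pd i (cut g W Φ z0 r e t) x * Y x i
          = t⁻¹ * (deriv hb (pm x / t) * ∑ i, pd i pm x * Y x i
            + deriv hb (pp x / t) * ∑ i, pd i pp x * Y x i) := by
        rw [Finset.mul_sum, Finset.mul_sum, ← Finset.sum_add_distrib, Finset.mul_sum]
        refine Finset.sum_congr rfl fun i _ => ?_
        rw [hpd t ht htt x hx i]
        ring
      have h2 : F t x - (κ1 * (t⁻¹ * (ψ (W x) * deriv hb (pm x / t) * dens g W x))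
          + κ2 * (t⁻¹ * (ψ (W x) * deriv hb (pp x / t) * dens g W x)))
          = t⁻¹ * ψ (W x) * dens g W x
            * (deriv hb (pm x / t) * (∑ i, pd i pm x * Y x i - κ1)
              + deriv hb (pp x / t) * (∑ i, pd i pp x * Y x i - κ2)) := by
        simp only [hFdef]
        rw [h1]
        ring
      have h3 := herr1 pm κ1 hY1 t ht htt2 x hx
      have h4 := herr1 pp κ2 hY2 t ht htt2 x hx
      have h5 := abs_add_le (deriv hb (pm x / t) * (∑ i, pd i pm x * Y x i - κ1))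
        (deriv hb (pp x / t) * (∑ i, pd i pp x * Y x i - κ2))
      have h6 := hdpos x (hDV hx)
      rw [h2, abs_mul, abs_mul, abs_mul, abs_of_pos h6, abs_of_pos (inv_pos.2 ht)]
      calc t⁻¹ * |ψ (W x)| * dens g W x * _ ≤ t⁻¹ * |ψ (W x)| * dens g W x
            * (|C| * Real.sqrt t * |deriv hb (pm x / t)|
              + |C| * Real.sqrt t * |deriv hb (pp x / t)|) := by
              refine mul_le_mul_of_nonneg_left (h5.trans (add_le_add h3 h4)) ?_
              have := inv_pos.2 ht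
              positivity
        _ = _ := by ring
    -- measurability
    have hmeas : ∀ t : ℝ, AEStronglyMeasurable (F t) (volume.restrict D) := by
      intro t
      have h1 : (D \ S : Set E3) =ᵐ[volume] D := sdiff_null_ae_eq_self hSnull
      rw [← Measure.restrict_congr_set h1]
      have hDSo : IsOpen (D \ S) := by
        have h2 : D \ S = (D ∩ pm ⁻¹' {0}ᶜ) ∩ (D ∩ pp ⁻¹' {0}ᶜ) := by
          ext x
          constructor
          · rintro ⟨hx, hxS⟩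
            exact ⟨⟨hx, fun h => hxS ⟨hx, Or.inl h⟩⟩, ⟨hx, fun h => hxS ⟨hx, Or.inr h⟩⟩⟩
          · rintro ⟨⟨hx, h3⟩, ⟨-, h4⟩⟩
            refine ⟨hx, ?_⟩
            rintro ⟨-, h | h⟩
            · exact h3 h
            · exact h4 h
        rw [h2]
        exact (hpmc.isOpen_inter_preimage hDo isOpen_compl_singleton).inter
          (hppc.isOpen_inter_preimage hDo isOpen_compl_singleton)
      refine ContinuousOn.aestronglyMeasurable ?_ hDSo.measurableSet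
      have hDSV : D \ S ⊆ V := Set.sdiff_subset.trans hDV
      refine ((hψW.mono hDSV).mul ?_).mul (hdc.mono hDSV)
      refine continuousOn_finsetSum _ fun i _ => ContinuousOn.mul ?_ ?_
      · intro x hx
        have h3 : ContDiffAt ℝ 0 (fderiv ℝ (cut g W Φ z0 r e t)) x :=
          (hcuts t x hx.1).fderiv_right (m := 0) (by simp)
        have h4 : ContinuousAt (fun y => fderiv ℝ (cut g W Φ z0 r e t) y
            (EuclideanSpace.single i 1)) x := h3.continuousAt.clm_apply continuousAt_const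
        exact h4.continuousWithinAt
      · exact ((hY i).continuousOn).mono (Set.sdiff_subset_sdiff_left hDU)
    set G1 : ℝ → ℝ := fun t => t⁻¹ * ∫ x in D, ψ (W x) * deriv hb (pm x / t) * dens g W x with hG1
    set G2 : ℝ → ℝ := fun t => t⁻¹ * ∫ x in D, ψ (W x) * deriv hb (pp x / t) * dens g W x with hG2
    set H1 : ℝ → ℝ := fun t => t⁻¹ * ∫ x in D, |ψ (W x)| * |deriv hb (pm x / t)| * dens g W x
      with hH1
    set H2 : ℝ → ℝ := fun t => t⁻¹ * ∫ x in D, |ψ (W x)| * |deriv hb (pp x / t)| * dens g W x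
      with hH2
    have hmain : ∀ t : ℝ, 0 < t → t < t1 → t < t2 →
        |(∫ x in U, F t x) - (κ1 * G1 t + κ2 * G2 t)| ≤ |C| * Real.sqrt t * (H1 t + H2 t) := by
      intro t ht htt htt2
      have e1 : ∫ x in U, F t x = ∫ x in D, F t x :=
        setIntegral_eq_of_subset_of_forall_sdiff_eq_zero hUo.measurableSet hDU
          (fun x hx => hFN t ht htt x hx.1 hx.2)
      have i1 := ((hint pm t hpmc).const_mul t⁻¹).const_mul κ1
      have i2 := ((hint pp t hppc).const_mul t⁻¹).const_mul κ2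
      have j1 := (hinta pm t hpmc).const_mul t⁻¹
      have j2 := (hinta pp t hppc).const_mul t⁻¹
      have i12 : Integrable (fun x => κ1 * (t⁻¹ * (ψ (W x) * deriv hb (pm x / t) * dens g W x))
          + κ2 * (t⁻¹ * (ψ (W x) * deriv hb (pp x / t) * dens g W x))) (volume.restrict D) :=
        i1.add i2
      have j12 : Integrable (fun x => |C| * Real.sqrt t
          * (t⁻¹ * (|ψ (W x)| * |deriv hb (pm x / t)| * dens g W x)
          + t⁻¹ * (|ψ (W x)| * |deriv hb (pp x / t)| * dens g W x))) (volume.restrict D) :=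
        (j1.add j2).const_mul (|C| * Real.sqrt t)
      have hle : ∀ᵐ x ∂(volume.restrict D),
          ‖F t x - (κ1 * (t⁻¹ * (ψ (W x) * deriv hb (pm x / t) * dens g W x))
          + κ2 * (t⁻¹ * (ψ (W x) * deriv hb (pp x / t) * dens g W x)))‖
          ≤ |C| * Real.sqrt t * (t⁻¹ * (|ψ (W x)| * |deriv hb (pm x / t)| * dens g W x)
          + t⁻¹ * (|ψ (W x)| * |deriv hb (pp x / t)| * dens g W x)) :=
        (ae_restrict_iff' hDo.measurableSet).2
          (Filter.Eventually.of_forall fun x hx => herr t ht htt htt2 x hx)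
      have k1 : IntegrableOn (fun x => F t x
          - (κ1 * (t⁻¹ * (ψ (W x) * deriv hb (pm x / t) * dens g W x))
          + κ2 * (t⁻¹ * (ψ (W x) * deriv hb (pp x / t) * dens g W x)))) D :=
        Integrable.mono' j12 ((hmeas t).sub i12.aestronglyMeasurable) hle
      have k2 : IntegrableOn (F t) D := by
        have := k1.add i12
        refine this.congr (Filter.Eventually.of_forall fun x => ?_)
        simp only [Pi.add_apply]
        ring
      have e2 : (∫ x in U, F t x) - (κ1 * G1 t + κ2 * G2 t) = ∫ x in D, (F t x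
          - (κ1 * (t⁻¹ * (ψ (W x) * deriv hb (pm x / t) * dens g W x))
          + κ2 * (t⁻¹ * (ψ (W x) * deriv hb (pp x / t) * dens g W x)))) := by
        rw [integral_sub k2 i12, e1]
        congr 1
        have := integral_add i1 i2
        simp only [integral_const_mul] at this
        rw [this]
      have e3 : |C| * Real.sqrt t * (H1 t + H2 t) = ∫ x in D,
          |C| * Real.sqrt t * (t⁻¹ * (|ψ (W x)| * |deriv hb (pm x / t)| * dens g W x)
          + t⁻¹ * (|ψ (W x)| * |deriv hb (pp x / t)| * dens g W x)) := by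
        rw [integral_const_mul]
        congr 1
        have := integral_add j1 j2
        simp only [integral_const_mul] at this
        rw [this]
      rw [e2, e3, ← Real.norm_eq_abs]
      exact norm_integral_le_of_norm_le j12 hle
    have hlim : Tendsto (fun t => κ1 * G1 t + κ2 * G2 t) (𝓝[>] 0)
        (𝓝 (κ1 * (Real.pi * ∫ s, ψ s) + κ2 * (Real.pi * ∫ s, ψ s))) :=
      (hL1.const_mul κ1).add (hL2.const_mul κ2)
    have hzero : Tendsto (fun t => |C| * Real.sqrt t * (H1 t + H2 t)) (𝓝[>] 0) (𝓝 0) := by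
      have h1 : Tendsto (fun t => |C| * Real.sqrt t) (𝓝[>] (0 : ℝ)) (𝓝 0) := by
        have : Tendsto (fun t => |C| * Real.sqrt t) (𝓝 (0 : ℝ)) (𝓝 (|C| * Real.sqrt 0)) :=
          (Real.continuous_sqrt.tendsto 0).const_mul |C|
        rw [Real.sqrt_zero, mul_zero] at this
        exact this.mono_left nhdsWithin_le_nhds
      have h2 := h1.mul (hM1.add hM2)
      rw [zero_mul] at h2
      exact h2
    have hdiff : Tendsto (fun t => (∫ x in U, F t x) - (κ1 * G1 t + κ2 * G2 t)) (𝓝[>] 0)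
        (𝓝 0) := by
      refine squeeze_zero_norm' ?_ hzero
      have h3 : ∀ᶠ t in 𝓝[>] (0 : ℝ), t < min t1 t2 :=
        mem_nhdsWithin_of_mem_nhds (Iio_mem_nhds (lt_min ht1 ht2))
      filter_upwards [h3, self_mem_nhdsWithin] with t ht ht0
      obtain ⟨h4, h5⟩ := lt_min_iff.1 ht
      exact hmain t ht0 h4 h5
    have hfin := hdiff.add hlim
    rw [zero_add] at hfin
    have e4 : (κ1 + κ2) * Real.pi * ∫ s, ψ s
        = κ1 * (Real.pi * ∫ s, ψ s) + κ2 * (Real.pi * ∫ s, ψ s) := by ring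
    rw [e4]
    refine hfin.congr fun t => ?_
    simp only [sub_add_cancel, hFdef]

end Pool.Agent.PFlow.GB


end
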