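import Mathlib
import Pool.Agent.PFlow.StmtsE3
import Pool.Agent.PenroseM.C08
import Pool.Agent.PenroseM.C10
import Pool.Agent.PenroseM.C12

/-! Parts: PFlow.G.CHL, PFlow.G.SCAL, PFlow.E.ABSI, PFlow.E.WGTE -/

section

/-!
# Local adapted coordinates by the inverse function theorem (module CHL)
-/

open MeasureTheory Filter Topology
open scoped ContDiff

namespace Pool.Agent.PFlow.GB

open Pool.Agent.PenroseSph

namespace CHL

/-- the map `x ↦ (x_i, x_j, W x)` -/
noncomputable def FF (W : E3 → ℝ) (k : Fin 3) (x : E3) : E3 :=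
  WithLp.toLp 2 fun i => if i = 2 then W x else x (Equiv.swap k 2 i)

lemma FF_two (W : E3 → ℝ) (k : Fin 3) (x : E3) : FF W k x 2 = W x := by
  simp [FF]

lemma FF_ne (W : E3 → ℝ) (k : Fin 3) (x : E3) {i : Fin 3} (hi : i ≠ 2) :
    FF W k x i = x (Equiv.swap k 2 i) := by
  simp [FF, hi]

lemma FF_smooth {W : E3 → ℝ} {k : Fin 3} {x : E3} (hW : ContDiffAt ℝ ∞ W x) :
    ContDiffAt ℝ ∞ (FF W k) x := by
  rw [contDiffAt_euclidean]
  intro i
  by_cases hi : i = 2
  · subst hi
    have : (fun y => FF W k y 2) = W := by funext y; exact FF_two W k y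
    rw [this]
    exact hW
  · have : (fun y => FF W k y i) = fun y => y (Equiv.swap k 2 i) := by
      funext y; exact FF_ne W k y hi
    rw [this]
    exact (EuclideanSpace.proj (𝕜 := ℝ) (Equiv.swap k 2 i)).contDiff.contDiffAt

/-- the derivative is injective where `∂_k W ≠ 0` -/
lemma FF_inj {W : E3 → ℝ} {k : Fin 3} {x : E3} (hW : ContDiffAt ℝ ∞ W x) (hk : pd k W x ≠ 0) :
    Function.Injective (fderiv ℝ (FF W k) x) := by
  have hd : DifferentiableAt ℝ (FF W k) x := (FF_smooth hW).differentiableAt (by simp)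
  have hc : ∀ (i : Fin 3) (v : E3), fderiv ℝ (FF W k) x v i =
      fderiv ℝ (fun y => FF W k y i) x v := by
    intro i v
    have h1 : HasFDerivAt (fun y => FF W k y i)
        ((EuclideanSpace.proj (𝕜 := ℝ) i).comp (fderiv ℝ (FF W k) x)) x :=
      (EuclideanSpace.proj (𝕜 := ℝ) i).hasFDerivAt.comp x hd.hasFDerivAt
    rw [h1.fderiv]
    rfl
  rw [injective_iff_map_eq_zero]
  intro v hv
  have h2 : fderiv ℝ W x v = 0 := by
    have h3 := hc 2 v
    have h4 : (fun y => FF W k y 2) = W := by funext y; exact FF_two W k y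
    rw [h4, hv] at h3
    exact h3.symm
  have h5 : ∀ j, j ≠ k → v j = 0 := by
    intro j hj
    set i := (Equiv.swap k 2) j with hi
    have hi2 : i ≠ 2 := by
      intro h6
      apply hj
      have : (Equiv.swap k 2) j = (Equiv.swap k 2) k := by
        rw [Equiv.swap_apply_left, ← hi]
        exact h6
      exact (Equiv.swap k 2).injective this
    have h7 := hc i v
    have h8 : (fun y => FF W k y i) = fun y => y j := by
      funext y
      rw [FF_ne W k y hi2, hi, Equiv.swap_apply_self]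
    rw [h8, hv] at h7
    have h9 : fderiv ℝ (fun y : E3 => y j) x v = v j := by
      have : HasFDerivAt (fun y : E3 => y j) (EuclideanSpace.proj (𝕜 := ℝ) j) x :=
        (EuclideanSpace.proj (𝕜 := ℝ) j).hasFDerivAt
      rw [this.fderiv]
      rfl
    rw [h9] at h7
    exact h7.symm
  have h10 : v = v k • EuclideanSpace.single k (1 : ℝ) := by
    ext j
    by_cases hj : j = k
    · subst hj; simp
    · rw [h5 j hj]; simp [hj]
  have h11 : v k * pd k W x = 0 := by
    have : fderiv ℝ W x v = v k * pd k W x := by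
      conv_lhs => rw [h10]
      rw [map_smul]
      rfl
    rw [← this, h2]
  have h12 : v k = 0 := (mul_eq_zero.mp h11).resolve_right hk
  rw [h10, h12, zero_smul]

/-- the derivative as an equivalence -/
lemma FF_equiv {W : E3 → ℝ} {k : Fin 3} {x : E3} (hW : ContDiffAt ℝ ∞ W x) (hk : pd k W x ≠ 0) :
    ∃ A : E3 ≃L[ℝ] E3, HasFDerivAt (FF W k) (A : E3 →L[ℝ] E3) x := by
  have hd : DifferentiableAt ℝ (FF W k) x := (FF_smooth hW).differentiableAt (by simp)
  let L : E3 ≃ₗ[ℝ] E3 := LinearEquiv.ofInjectiveEndo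
    (fderiv ℝ (FF W k) x : E3 →ₗ[ℝ] E3) (FF_inj hW hk)
  refine ⟨L.toContinuousLinearEquiv, ?_⟩
  have : (L.toContinuousLinearEquiv : E3 →L[ℝ] E3) = fderiv ℝ (FF W k) x := by
    ext v i
    rfl
  rw [this]
  exact hd.hasFDerivAt

end CHL

/-- (CHL) Existence of local adapted coordinates. -/
theorem CHL : Stmt_CHL := by
  intro O W p0 hO hW hp0 hg
  obtain ⟨k, hk⟩ : ∃ k, pd k W p0 ≠ 0 := by
    by_contra hcon
    push Not at hcon
    exact hg (funext hcon)
  have hWat : ∀ x ∈ O, ContDiffAt ℝ ∞ W x := fun x hx => hW.contDiffAt (hO.mem_nhds hx)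
  obtain ⟨A0, hA0⟩ := CHL.FF_equiv (hWat p0 hp0) hk
  have hF0 := CHL.FF_smooth (k := k) (hWat p0 hp0)
  set e := hF0.toOpenPartialHomeomorph (CHL.FF W k) hA0 (by simp) with he
  have hcoe : ∀ x, e x = CHL.FF W k x := fun x => by
    rw [he, hF0.toOpenPartialHomeomorph_coe hA0 (by simp)]
  have hsrc : p0 ∈ e.source := hF0.mem_toOpenPartialHomeomorph_source hA0 (by simp)
  -- the open set where the derivative is invertible
  set O' : Set E3 := O ∩ {x | pd k W x ≠ 0} with hO'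
  have hpdc : ContinuousOn (fun x => pd k W x) O := by
    have h1 : ContinuousOn (fderiv ℝ W) O := hW.continuousOn_fderiv_of_isOpen hO (by simp)
    exact h1.clm_apply continuousOn_const
  have hO'o : IsOpen O' := by
    have : O' = O ∩ (fun x => pd k W x) ⁻¹' {0}ᶜ := by
      ext x; simp [hO']
    rw [this]
    exact hpdc.isOpen_inter_preimage hO isOpen_compl_singleton
  set N : Set E3 := e.target ∩ e.symm ⁻¹' O' with hN
  have hNo : IsOpen N := e.continuousOn_symm.isOpen_inter_preimage e.open_target hO'o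
  have hz0 : e.symm (e p0) = p0 := e.left_inv hsrc
  have hinv : ∀ z ∈ N, CHL.FF W k (e.symm z) = z := fun z hz => by
    rw [← hcoe]
    exact e.right_inv hz.1
  have hder : ∀ z ∈ N, ∃ A : E3 ≃L[ℝ] E3,
      HasFDerivAt e (A : E3 →L[ℝ] E3) (e.symm z) := by
    intro z hz
    obtain ⟨A, hA⟩ := CHL.FF_equiv (hWat _ hz.2.1) hz.2.2
    refine ⟨A, ?_⟩
    have : (e : E3 → E3) = CHL.FF W k := funext hcoe
    rw [this]
    exact hA
  refine ⟨e.symm, e p0, N, hNo, ⟨e.map_source hsrc, ?_⟩, hz0, ?_, ?_, ?_, ?_, ?_, ?_⟩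
  · rw [Set.mem_preimage, hz0]
    exact ⟨hp0, hk⟩
  · rw [hcoe, CHL.FF_two]
  · intro z hz
    obtain ⟨A, hA⟩ := hder z hz
    have h1 : ContDiffAt ℝ ∞ e (e.symm z) := by
      have : (e : E3 → E3) = CHL.FF W k := funext hcoe
      rw [this]
      exact CHL.FF_smooth (hWat _ hz.2.1)
    exact (e.contDiffAt_symm hz.1 hA h1).contDiffWithinAt
  · exact e.symm.injOn.mono fun z hz => hz.1
  · exact fun z hz => hz.2.1
  · intro z hz
    obtain ⟨A, hA⟩ := hder z hz
    have h1 := e.hasFDerivAt_symm hz.1 hA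
    rw [h1.fderiv]
    exact (LinearEquiv.isUnit_det' A.symm.toLinearEquiv).ne_zero
  · intro z hz
    rw [← CHL.FF_two W k, hinv z hz]

end Pool.Agent.PFlow.GB


end

section

/-!
# (SCAL) Scaling limit at a pole
-/

open MeasureTheory Filter Topology
open scoped ContDiff

namespace Pool.Agent.PFlow.GB.Scal

open Pool.Agent.PenroseSph Pool.Agent.PFlow

/-- Polar coordinates. -/
lemma integral_radial (h : ℝ → ℝ) :
    ∫ p : ℝ × ℝ, h (p.1 ^ 2 + p.2 ^ 2) = Real.pi * ∫ s in Set.Ioi (0 : ℝ), h s := by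
  rw [← integral_comp_polarCoord_symm]
  have h1 : ∀ p : ℝ × ℝ, p.1 • h ((polarCoord.symm p).1 ^ 2 + (polarCoord.symm p).2 ^ 2) =
      (p.1 * h (p.1 ^ 2)) * (1 : ℝ) := by
    intro p
    have : (polarCoord.symm p).1 ^ 2 + (polarCoord.symm p).2 ^ 2 = p.1 ^ 2 := by
      rw [polarCoord_symm_apply]
      have := Real.sin_sq_add_cos_sq p.2
      simp only
      linear_combination p.1 ^ 2 * this
    rw [this, smul_eq_mul, mul_one]
  simp only [h1]
  rw [polarCoord_target, Measure.volume_eq_prod,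
    setIntegral_prod_mul (fun r : ℝ => r * h (r ^ 2)) (fun _ : ℝ => (1 : ℝ))]
  have h2 := integral_comp_rpow_Ioi_of_pos (g := h) (p := 2) (by norm_num)
  have h3 : ∫ x in Set.Ioi (0 : ℝ), (2 * x ^ ((2 : ℝ) - 1)) • h (x ^ (2 : ℝ)) =
      2 * ∫ x in Set.Ioi (0 : ℝ), x * h (x ^ 2) := by
    rw [← integral_const_mul]
    refine setIntegral_congr_fun measurableSet_Ioi fun x _ => ?_
    have e1 : (2 : ℝ) - 1 = 1 := by norm_num
    simp only [e1, Real.rpow_one, Real.rpow_two, smul_eq_mul]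
    ring
  rw [h3] at h2
  rw [← h2]
  have h4 : ∫ _ in Set.Ioo (-Real.pi) Real.pi, (1 : ℝ) = 2 * Real.pi := by
    rw [setIntegral_const, smul_eq_mul, mul_one, Real.volume_real_Ioo_of_le (by linarith [Real.pi_pos])]
    ring
  rw [h4]
  ring

/-- The linear map `(x, y) ↦ (√A (x + (B/A) y), √(Δ/A) y)`. -/
noncomputable def lmap (α β γ : ℝ) : ℝ × ℝ →ₗ[ℝ] ℝ × ℝ where
  toFun p := (α * p.1 + β * p.2, γ * p.2)
  map_add' p q := by ext <;> simp <;> ring
  map_smul' c p := by ext <;> simp <;> ring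

lemma lmap_det (α β γ : ℝ) : LinearMap.det (lmap α β γ) = α * γ := by
  rw [← LinearMap.det_toMatrix (Module.Basis.finTwoProd ℝ), Matrix.det_fin_two]
  simp [LinearMap.toMatrix_apply, lmap]

lemma integral_quad (A B D : ℝ) (hA : 0 < A) (hD : 0 < A * D - B ^ 2) (h : ℝ → ℝ) :
    ∫ p : ℝ × ℝ, h (A * p.1 ^ 2 + 2 * B * p.1 * p.2 + D * p.2 ^ 2) =
      (Real.sqrt (A * D - B ^ 2))⁻¹ * (Real.pi * ∫ s in Set.Ioi (0 : ℝ), h s) := by
  set Δ := A * D - B ^ 2 with hΔ
  set L := lmap (Real.sqrt A) (B / Real.sqrt A) (Real.sqrt (Δ / A)) with hL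
  have sA : 0 < Real.sqrt A := Real.sqrt_pos.mpr hA
  have sA2 : Real.sqrt A ^ 2 = A := Real.sq_sqrt hA.le
  have sG : 0 < Real.sqrt (Δ / A) := Real.sqrt_pos.mpr (by positivity)
  have sG2 : Real.sqrt (Δ / A) ^ 2 = Δ / A := Real.sq_sqrt (by positivity)
  have det : LinearMap.det L = Real.sqrt Δ := by
    rw [hL, lmap_det, ← Real.sqrt_mul hA.le]
    congr 1
    field_simp
  have det0 : LinearMap.det L ≠ 0 := by
    rw [det]; exact (Real.sqrt_pos.mpr hD).ne'
  have h1 : ∀ p : ℝ × ℝ, A * p.1 ^ 2 + 2 * B * p.1 * p.2 + D * p.2 ^ 2 =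
      (L p).1 ^ 2 + (L p).2 ^ 2 := by
    intro p
    have : (L p).1 ^ 2 + (L p).2 ^ 2 = (Real.sqrt A * p.1 + B / Real.sqrt A * p.2) ^ 2 +
        (Real.sqrt (Δ / A) * p.2) ^ 2 := rfl
    rw [this, mul_pow (Real.sqrt (Δ / A)), sG2]
    have e1 : (Real.sqrt A * p.1 + B / Real.sqrt A * p.2) ^ 2 =
        A * p.1 ^ 2 + 2 * B * p.1 * p.2 + B ^ 2 / A * p.2 ^ 2 := by
      have : (Real.sqrt A * p.1 + B / Real.sqrt A * p.2) ^ 2 =
          Real.sqrt A ^ 2 * p.1 ^ 2 + 2 * B * p.1 * p.2 * (Real.sqrt A / Real.sqrt A) +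
            B ^ 2 / Real.sqrt A ^ 2 * p.2 ^ 2 := by
        field_simp
        ring
      rw [this, sA2, div_self sA.ne']
      ring
    rw [e1, hΔ]
    field_simp
    ring
  simp only [h1]
  have h2 : Measure.map L (volume : Measure (ℝ × ℝ)) =
      ENNReal.ofReal |(LinearMap.det L)⁻¹| • (volume : Measure (ℝ × ℝ)) :=
    Measure.map_linearMap_addHaar_eq_smul_addHaar volume det0
  have hequiv : MeasurableEmbedding L := by
    have he : ⇑(LinearMap.equivOfDetNeZero L det0).toContinuousLinearEquiv.toHomeomorph = ⇑L := rfl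
    rw [← he]
    exact Homeomorph.measurableEmbedding _
  have h3 := hequiv.integral_map (μ := (volume : Measure (ℝ × ℝ)))
    (fun q : ℝ × ℝ => h (q.1 ^ 2 + q.2 ^ 2))
  rw [← h3, h2, integral_smul_measure, integral_radial, det]
  rw [ENNReal.toReal_ofReal (abs_nonneg _), abs_of_pos (inv_pos.mpr (Real.sqrt_pos.mpr hD)),
    smul_eq_mul]


/-! ### Boxes -/

@[simp] lemma pt_zero (a b s : ℝ) : (pt a b s) 0 = a := rfl
@[simp] lemma pt_one (a b s : ℝ) : (pt a b s) 1 = b := rfl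
@[simp] lemma pt_two (a b s : ℝ) : (pt a b s) 2 = s := rfl

lemma mem_obox {z0 : E3} {r e a b s : ℝ} :
    pt a b s ∈ obox z0 r e ↔ |a - z0 0| < r ∧ |b - z0 1| < r ∧ |s - z0 2| < e := Iff.rfl

lemma continuous_coord (i : Fin 3) : Continuous fun z : E3 => z i :=
  (EuclideanSpace.proj (𝕜 := ℝ) i).continuous

lemma isOpen_obox (z0 : E3) (r e : ℝ) : IsOpen (obox z0 r e) := by
  have h : ∀ (i : Fin 3) (ρ : ℝ), IsOpen {z : E3 | |z i - z0 i| < ρ} := fun i ρ =>
    isOpen_lt ((continuous_coord i).sub continuous_const).abs continuous_const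
  exact (h 0 r).inter ((h 1 r).inter (h 2 e))

lemma isBounded_obox (z0 : E3) (r e : ℝ) : Bornology.IsBounded (obox z0 r e) := by
  refine (Metric.isBounded_iff_subset_closedBall z0).mpr ⟨Real.sqrt (r ^ 2 + r ^ 2 + e ^ 2), ?_⟩
  intro z hz
  rw [Metric.mem_closedBall, EuclideanSpace.dist_eq]
  refine Real.sqrt_le_sqrt ?_
  rw [Fin.sum_univ_three]
  obtain ⟨h0, h1, h2⟩ := hz
  have e1 : ∀ {x ρ : ℝ}, |x| < ρ → x ^ 2 ≤ ρ ^ 2 := fun {x ρ} hx => by
    rw [← sq_abs]
    gcongr
  simp only [Real.dist_eq, sq_abs]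
  exact add_le_add (add_le_add (e1 h0) (e1 h1)) (e1 h2)

lemma continuous_pt : Continuous fun q : ℝ × ℝ × ℝ => pt q.1 q.2.1 q.2.2 := by
  have : Continuous fun q : ℝ × ℝ × ℝ => (![q.1, q.2.1, q.2.2] : Fin 3 → ℝ) := by
    refine continuous_pi fun i => ?_
    fin_cases i
    · exact continuous_fst
    · exact continuous_snd.fst
    · exact continuous_snd.snd
  exact (PiLp.continuous_toLp 2 _).comp this

/-- Scaling of an integral over the line. -/
lemma scale (φ : ℝ → ℝ) (m : ℝ) {u : ℝ} (hu : 0 < u) :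
    ∫ a, φ a = u * ∫ y, φ (m + u * y) := by
  have h1 : ∫ y, φ (m + u * y) = |u⁻¹| • ∫ y, φ (m + y) :=
    Measure.integral_comp_mul_left (fun y => φ (m + y)) u
  rw [h1, integral_add_left_eq_self, abs_of_pos (inv_pos.mpr hu), smul_eq_mul, ← mul_assoc,
    mul_inv_cancel₀ hu.ne', one_mul]

/-- The point `p + u y` at level `s`. -/
noncomputable def tha (z0 : E3) (τ u : ℝ) (q : ℝ × ℝ × ℝ) : E3 :=
  pt (z0 0 + τ + u * q.2.1) (z0 1 + u * q.2.2) q.1

lemma continuous_tha (z0 : E3) (τ u : ℝ) : Continuous (tha z0 τ u) := by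
  have : Continuous fun q : ℝ × ℝ × ℝ =>
      ((z0 0 + τ + u * q.2.1, z0 1 + u * q.2.2, q.1) : ℝ × ℝ × ℝ) := by fun_prop
  exact continuous_pt.comp this

lemma continuous_tha_u (z0 : E3) (τ : ℝ) (q : ℝ × ℝ × ℝ) :
    Continuous fun u => tha z0 τ u q := by
  have : Continuous fun u : ℝ =>
      ((z0 0 + τ + u * q.2.1, z0 1 + u * q.2.2, q.1) : ℝ × ℝ × ℝ) := by fun_prop
  exact continuous_pt.comp this

/-- The iterated integral over a box as an integral in the scaled variables. -/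
lemma iter (z0 : E3) (r e τ : ℝ) (F : E3 → ℝ) {u : ℝ} (hu : 0 < u) :
    (∫ s in Set.Ioo (z0 2 - e) (z0 2 + e), ∫ a in Set.Ioo (z0 0 - r) (z0 0 + r),
      ∫ b in Set.Ioo (z0 1 - r) (z0 1 + r), F (pt a b s)) =
    u ^ 2 * ∫ s, ∫ y0, ∫ y1, (obox z0 r e).indicator F (tha z0 τ u (s, y0, y1)) := by
  set H : ℝ → ℝ → ℝ → ℝ := fun s a b => (obox z0 r e).indicator F (pt a b s) with hH
  have mI : ∀ {x m ρ : ℝ}, x ∈ Set.Ioo (m - ρ) (m + ρ) ↔ |x - m| < ρ := by
    intro x m ρ
    rw [abs_lt, Set.mem_Ioo]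
    constructor
    · rintro ⟨h1, h2⟩; exact ⟨by linarith, by linarith⟩
    · rintro ⟨h1, h2⟩; exact ⟨by linarith, by linarith⟩
  have h1 : (∫ s in Set.Ioo (z0 2 - e) (z0 2 + e), ∫ a in Set.Ioo (z0 0 - r) (z0 0 + r),
      ∫ b in Set.Ioo (z0 1 - r) (z0 1 + r), F (pt a b s)) = ∫ s, ∫ a, ∫ b, H s a b := by
    rw [← integral_indicator measurableSet_Ioo]
    refine integral_congr_ae (Eventually.of_forall fun s => ?_)
    by_cases hs : s ∈ Set.Ioo (z0 2 - e) (z0 2 + e)
    · simp only [Set.indicator_of_mem hs]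
      rw [← integral_indicator measurableSet_Ioo]
      refine integral_congr_ae (Eventually.of_forall fun a => ?_)
      by_cases ha : a ∈ Set.Ioo (z0 0 - r) (z0 0 + r)
      · simp only [Set.indicator_of_mem ha]
        rw [← integral_indicator measurableSet_Ioo]
        refine integral_congr_ae (Eventually.of_forall fun b => ?_)
        by_cases hb : b ∈ Set.Ioo (z0 1 - r) (z0 1 + r)
        · have hm : pt a b s ∈ obox z0 r e :=
            mem_obox.mpr ⟨mI.mp ha, mI.mp hb, mI.mp hs⟩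
          simp only [hH, Set.indicator_of_mem hb, Set.indicator_of_mem hm]
        · have hm : pt a b s ∉ obox z0 r e := fun h => hb (mI.mpr (mem_obox.mp h).2.1)
          simp only [hH, Set.indicator_of_notMem hb, Set.indicator_of_notMem hm]
      · have hm : ∀ b, pt a b s ∉ obox z0 r e := fun b h => ha (mI.mpr (mem_obox.mp h).1)
        simp only [hH, Set.indicator_of_notMem ha]
        rw [integral_congr_ae (g := fun _ => (0 : ℝ))
          (Eventually.of_forall fun b => Set.indicator_of_notMem (hm b) F)]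
        simp
    · have hm : ∀ a b, pt a b s ∉ obox z0 r e := fun a b h => hs (mI.mpr (mem_obox.mp h).2.2)
      simp only [hH, Set.indicator_of_notMem hs]
      rw [integral_congr_ae (g := fun _ => (0 : ℝ)) (Eventually.of_forall fun a => by
        change (∫ b, (obox z0 r e).indicator F (pt a b s)) = 0
        rw [integral_congr_ae (g := fun _ => (0 : ℝ))
          (Eventually.of_forall fun b => Set.indicator_of_notMem (hm a b) F)]
        simp)]
      simp
  rw [h1, ← integral_const_mul]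
  refine integral_congr_ae (Eventually.of_forall fun s => ?_)
  change (∫ a, ∫ b, H s a b) = u ^ 2 * _
  rw [scale (fun a => ∫ b, H s a b) (z0 0 + τ) hu]
  have h2 : ∀ y0, (∫ b, H s (z0 0 + τ + u * y0) b) =
      u * ∫ y1, H s (z0 0 + τ + u * y0) (z0 1 + u * y1) := fun y0 =>
    scale (fun b => H s (z0 0 + τ + u * y0) b) (z0 1) hu
  simp only [h2]
  rw [integral_const_mul, ← mul_assoc, ← pow_two]
  rfl

/-! ### The abstract scaling limit -/

lemma bound_h {h : ℝ → ℝ} (hh : Continuous h) {S : ℝ} (hS : ∀ s, S ≤ s → h s = 0) :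
    ∃ C, 0 ≤ C ∧ ∀ s, 0 ≤ s → |h s| ≤ C := by
  obtain ⟨C, hC⟩ := (isCompact_Icc (a := (0 : ℝ)) (b := S)).exists_bound_of_continuousOn
    hh.continuousOn
  refine ⟨max C 0, le_max_right _ _, fun s hs => ?_⟩
  by_cases h1 : s ≤ S
  · exact le_max_of_le_left (by simpa [Real.norm_eq_abs] using hC s ⟨hs, h1⟩)
  · rw [hS s (le_of_lt (not_le.mp h1)), abs_zero]
    exact le_max_right _ _

open Classical in
/-- The abstract scaling limit. -/
lemma absScal (hFUB : Stmt_FUB) (z0 : E3) (r e τ : ℝ) (hτ : |τ| < r) (R J : E3 → ℝ)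
    (c C : ℝ) (hc : 0 < c) (hC : 0 ≤ C) (hR : ContinuousOn R (obox z0 r e))
    (hJ : ContinuousOn J (obox z0 r e))
    (hR0 : ∀ z ∈ obox z0 r e, c * ((z 0 - (z0 0 + τ)) ^ 2 + (z 1 - z0 1) ^ 2) ≤ R z)
    (hJ0 : ∀ z ∈ obox z0 r e, |J z| ≤ C)
    (hlim : ∀ s ∈ Set.Ioo (z0 2 - e) (z0 2 + e), ∃ A B D : ℝ, 0 < A ∧ 0 < A * D - B ^ 2 ∧
      J (pt (z0 0 + τ) (z0 1) s) = Real.sqrt (A * D - B ^ 2) ∧
      ∀ y0 y1 : ℝ, Tendsto (fun u => R (tha z0 τ u (s, y0, y1)) / u ^ 2) (𝓝[>] 0)
        (𝓝 (A * y0 ^ 2 + 2 * B * y0 * y1 + D * y1 ^ 2)))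
    (h ψ : ℝ → ℝ) (S : ℝ) (hh : Continuous h) (hS : ∀ s, S ≤ s → h s = 0) (hψ : Continuous ψ)
    (hsupp : tsupport ψ ⊆ Set.Ioo (z0 2 - e) (z0 2 + e)) :
    Tendsto (fun u => (u ^ 2)⁻¹ * ∫ z in obox z0 r e, ψ (z 2) * h (R z / u ^ 2) * J z) (𝓝[>] 0)
      (𝓝 (Real.pi * (∫ s in Set.Ioi (0 : ℝ), h s) * ∫ s, ψ s)) := by
  obtain ⟨Ch, Ch0, hCh⟩ := bound_h hh hS
  have hψc : HasCompactSupport ψ :=
    Metric.isCompact_of_isClosed_isBounded (isClosed_tsupport ψ)
      ((Metric.isBounded_Ioo _ _).subset hsupp)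
  obtain ⟨Cψ', hCψ'⟩ := hψ.bounded_above_of_compact_support hψc
  have hCψ : ∀ s, |ψ s| ≤ max Cψ' 0 := fun s => le_max_of_le_left (hCψ' s)
  set Cψ := max Cψ' 0
  have Cψ0 : 0 ≤ Cψ := le_max_right _ _
  have hO := isOpen_obox z0 r e
  have hOm := hO.measurableSet
  have hOfin : volume (obox z0 r e) < ⊤ := (isBounded_obox z0 r e).measure_lt_top
  set F : ℝ → E3 → ℝ := fun u z => ψ (z 2) * h (R z / u ^ 2) * J z with hF
  have hRnn : ∀ z ∈ obox z0 r e, 0 ≤ R z := fun z hz =>
    le_trans (by positivity) (hR0 z hz)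
  have hFc : ∀ u, ContinuousOn (F u) (obox z0 r e) := fun u =>
    ((hψ.comp (continuous_coord 2)).continuousOn.mul
      (hh.comp_continuousOn (hR.div_const _))).mul hJ
  have hFb : ∀ u, ∀ z ∈ obox z0 r e, ‖F u z‖ ≤ Cψ * Ch * C := by
    intro u z hz
    rw [Real.norm_eq_abs, hF, abs_mul, abs_mul]
    have h1 := hCψ (z 2)
    have h2 := hCh (R z / u ^ 2) (div_nonneg (hRnn z hz) (sq_nonneg u))
    have h3 := hJ0 z hz
    gcongr
  have hFi : ∀ u, IntegrableOn (F u) (obox z0 r e) := fun u =>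
    Integrable.mono' (g := fun _ => Cψ * Ch * C) (integrableOn_const hOfin.ne)
      ((hFc u).aestronglyMeasurable hOm)
      ((ae_restrict_iff' hOm).mpr (Eventually.of_forall (hFb u)))
  set ρ : ℝ := max S 0 / c + 1 with hρ
  have hρ1 : 1 ≤ ρ := by
    have : 0 ≤ max S 0 / c := by positivity
    linarith
  have hρS : S ≤ c * ρ ^ 2 := by
    have h1 : c * ρ = max S 0 + c := by rw [hρ]; field_simp
    have h2 : c * ρ ≤ c * ρ ^ 2 := by
      have : ρ ≤ ρ ^ 2 := by nlinarith
      gcongr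
    have h3 : S ≤ max S 0 := le_max_left _ _
    linarith
  set Bx : Set (ℝ × ℝ × ℝ) :=
    Set.Icc (z0 2 - e) (z0 2 + e) ×ˢ (Set.Icc (-ρ) ρ ×ˢ Set.Icc (-ρ) ρ) with hBx
  have hBxm : MeasurableSet Bx :=
    measurableSet_Icc.prod (measurableSet_Icc.prod measurableSet_Icc)
  have hBxc : IsCompact Bx := isCompact_Icc.prod (isCompact_Icc.prod isCompact_Icc)
  set bd : ℝ × ℝ × ℝ → ℝ := Bx.indicator fun _ => Cψ * Ch * C with hbd
  have hbdi : Integrable bd := by
    rw [hbd, integrable_indicator_iff hBxm]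
    exact integrableOn_const (hBxc.measure_lt_top.ne)
  set f : ℝ → ℝ × ℝ × ℝ → ℝ := fun u q => (obox z0 r e).indicator (F u) (tha z0 τ u q) with hf
  have hfm : ∀ u, AEStronglyMeasurable (f u) (volume : Measure (ℝ × ℝ × ℝ)) := by
    intro u
    have hθ := continuous_tha z0 τ u
    have hpre : IsOpen (tha z0 τ u ⁻¹' obox z0 r e) := hO.preimage hθ
    have e1 : f u = (tha z0 τ u ⁻¹' obox z0 r e).indicator (fun q => F u (tha z0 τ u q)) := by
      funext q
      by_cases hq : tha z0 τ u q ∈ obox z0 r e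
      · rw [Set.indicator_of_mem (show q ∈ tha z0 τ u ⁻¹' obox z0 r e from hq)]
        exact Set.indicator_of_mem hq _
      · rw [Set.indicator_of_notMem (show q ∉ tha z0 τ u ⁻¹' obox z0 r e from hq)]
        exact Set.indicator_of_notMem hq _
    rw [e1, aestronglyMeasurable_indicator_iff hpre.measurableSet]
    exact ((hFc u).comp hθ.continuousOn fun q hq => hq).aestronglyMeasurable
      hpre.measurableSet
  have hfb : ∀ u, 0 < u → ∀ q, ‖f u q‖ ≤ bd q := by
    intro u hu q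
    have hbd0 : 0 ≤ bd q := by
      rw [hbd]
      exact Set.indicator_nonneg (fun _ _ => by positivity) q
    by_cases hq : tha z0 τ u q ∈ obox z0 r e
    · have e1 : f u q = F u (tha z0 τ u q) := Set.indicator_of_mem hq _
      rw [e1]
      by_cases hB : q ∈ Bx
      · rw [hbd, Set.indicator_of_mem hB]
        exact hFb u _ hq
      · have hz : h (R (tha z0 τ u q) / u ^ 2) = 0 := by
          apply hS
          have h1 := hR0 _ hq
          have h2 : (tha z0 τ u q) 0 - (z0 0 + τ) = u * q.2.1 := by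
            change (z0 0 + τ + u * q.2.1) - (z0 0 + τ) = _; ring
          have h3 : (tha z0 τ u q) 1 - z0 1 = u * q.2.2 := by
            change (z0 1 + u * q.2.2) - z0 1 = _; ring
          rw [h2, h3] at h1
          have h4 : c * (q.2.1 ^ 2 + q.2.2 ^ 2) ≤ R (tha z0 τ u q) / u ^ 2 := by
            rw [le_div_iff₀ (by positivity)]
            refine le_trans (le_of_eq ?_) h1
            ring
          refine le_trans ?_ h4
          refine hρS.trans ?_
          have h5 : ρ ^ 2 ≤ q.2.1 ^ 2 + q.2.2 ^ 2 := by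
            have hs : q.1 ∈ Set.Icc (z0 2 - e) (z0 2 + e) := by
              have := (mem_obox.mp hq).2.2
              rw [abs_lt] at this
              exact ⟨by linarith [this.1], by linarith [this.2]⟩
            have h6 : ¬ (q.2.1 ∈ Set.Icc (-ρ) ρ ∧ q.2.2 ∈ Set.Icc (-ρ) ρ) := fun h7 =>
              hB ⟨hs, h7.1, h7.2⟩
            rw [Set.mem_Icc, Set.mem_Icc, ← abs_le, ← abs_le, not_and_or] at h6
            have h8 : ∀ x : ℝ, ¬ |x| ≤ ρ → ρ ^ 2 ≤ x ^ 2 := fun x hx => by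
              rw [← sq_abs x]
              have := le_of_lt (not_le.mp hx)
              gcongr
            rcases h6 with h6 | h6
            · have := h8 _ h6
              nlinarith [sq_nonneg q.2.2]
            · have := h8 _ h6
              nlinarith [sq_nonneg q.2.1]
          gcongr
        have : F u (tha z0 τ u q) = 0 := by
          rw [hF]
          simp only [hz, mul_zero, zero_mul]
        rw [this, norm_zero]
        exact hbd0
    · have e1 : f u q = 0 := Set.indicator_of_notMem hq _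
      rw [e1, norm_zero]
      exact hbd0
  have hfi : ∀ u, 0 < u → Integrable (f u) := fun u hu =>
    hbdi.mono' (hfm u) (Eventually.of_forall (hfb u hu))
  -- the integral in the scaled variables
  have key : ∀ u, 0 < u → (u ^ 2)⁻¹ * ∫ z in obox z0 r e, F u z = ∫ q, f u q := by
    intro u hu
    rw [hFUB z0 r e (F u) (hFi u), iter z0 r e τ (F u) hu, ← mul_assoc,
      inv_mul_cancel₀ (by positivity), one_mul, Measure.volume_eq_prod,
      integral_prod _ (by rw [← Measure.volume_eq_prod]; exact hfi u hu)]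
    have h1 := (show Integrable (f u) ((volume : Measure ℝ).prod volume) by
      rw [← Measure.volume_eq_prod]; exact hfi u hu).prod_right_ae
    refine integral_congr_ae ?_
    filter_upwards [h1] with s hs
    rw [Measure.volume_eq_prod, integral_prod _ (by rw [← Measure.volume_eq_prod]; exact hs)]
  choose! A B D hA hD hJs hQ using hlim
  set f0 : ℝ × ℝ × ℝ → ℝ := fun q => if q.1 ∈ Set.Ioo (z0 2 - e) (z0 2 + e) then
    ψ q.1 * h (A q.1 * q.2.1 ^ 2 + 2 * B q.1 * q.2.1 * q.2.2 + D q.1 * q.2.2 ^ 2) *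
      J (pt (z0 0 + τ) (z0 1) q.1) else 0 with hf0
  have hpt : ∀ q : ℝ × ℝ × ℝ, Tendsto (fun u => f u q) (𝓝[>] 0) (𝓝 (f0 q)) := by
    rintro ⟨s, y0, y1⟩
    by_cases hs : s ∈ Set.Ioo (z0 2 - e) (z0 2 + e)
    · have hp : pt (z0 0 + τ) (z0 1) s ∈ obox z0 r e := by
        refine mem_obox.mpr ⟨?_, ?_, ?_⟩
        · simpa using hτ
        · simpa using lt_of_le_of_lt (abs_nonneg τ) hτ
        · rw [abs_lt]; exact ⟨by linarith [hs.1], by linarith [hs.2]⟩
      have hc0 : tha z0 τ 0 (s, y0, y1) = pt (z0 0 + τ) (z0 1) s := by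
        simp [tha]
      have hcont := (continuous_tha_u z0 τ (s, y0, y1)).tendsto 0
      rw [hc0] at hcont
      have hcont' := hcont.mono_left (nhdsWithin_le_nhds (s := Set.Ioi (0 : ℝ)))
      have hev : ∀ᶠ u in 𝓝[>] (0 : ℝ), tha z0 τ u (s, y0, y1) ∈ obox z0 r e :=
        hcont'.eventually (hO.mem_nhds hp)
      have e0 : f0 (s, y0, y1) = ψ s * h (A s * y0 ^ 2 + 2 * B s * y0 * y1 + D s * y1 ^ 2) *
          J (pt (z0 0 + τ) (z0 1) s) := if_pos hs
      rw [e0]
      have hJt : Tendsto (fun u => J (tha z0 τ u (s, y0, y1))) (𝓝[>] 0)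
          (𝓝 (J (pt (z0 0 + τ) (z0 1) s))) :=
        ((hJ.continuousAt (hO.mem_nhds hp)).tendsto).comp hcont'
      have hht := (hh.tendsto _).comp (hQ s hs y0 y1)
      have := (tendsto_const_nhds (x := ψ s)).mul hht |>.mul hJt
      refine this.congr' ?_
      filter_upwards [hev] with u hu
      exact (Set.indicator_of_mem hu (F u)).symm
    · have e0 : f0 (s, y0, y1) = 0 := if_neg hs
      rw [e0]
      refine tendsto_const_nhds.congr fun u => ?_
      refine (Set.indicator_of_notMem (fun hm => hs ?_) (F u)).symm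
      have := (mem_obox.mp hm).2.2
      rw [abs_lt] at this
      exact ⟨by linarith [this.1], by linarith [this.2]⟩
  -- integrability of the limit
  have hseq : Tendsto (fun n : ℕ => (1 : ℝ) / ((n : ℝ) + 1)) atTop (𝓝[>] 0) := by
    refine tendsto_nhdsWithin_iff.mpr ⟨tendsto_one_div_add_atTop_nhds_zero_nat, ?_⟩
    exact Eventually.of_forall fun n => Set.mem_Ioi.mpr (by positivity)
  have hf0m : AEStronglyMeasurable f0 (volume : Measure (ℝ × ℝ × ℝ)) :=
    aestronglyMeasurable_of_tendsto_ae atTop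
      (f := fun (n : ℕ) => f (1 / ((n : ℝ) + 1))) (fun n => hfm _)
      (Eventually.of_forall fun q => (hpt q).comp hseq)
  have hf0b : ∀ q, ‖f0 q‖ ≤ bd q := fun q =>
    le_of_tendsto (hpt q).norm (by
      filter_upwards [self_mem_nhdsWithin] with u hu
      exact hfb u hu q)
  have hf0i : Integrable f0 := hbdi.mono' hf0m (Eventually.of_forall hf0b)
  have hint0 : ∫ q, f0 q = Real.pi * (∫ s in Set.Ioi (0 : ℝ), h s) * ∫ s, ψ s := by
    rw [Measure.volume_eq_prod, integral_prod _ (by rw [← Measure.volume_eq_prod]; exact hf0i),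
      ← integral_const_mul]
    refine integral_congr_ae (Eventually.of_forall fun s => ?_)
    change (∫ y : ℝ × ℝ, f0 (s, y)) = _
    by_cases hs : s ∈ Set.Ioo (z0 2 - e) (z0 2 + e)
    · have e0 : ∀ y : ℝ × ℝ, f0 (s, y) = ψ s * J (pt (z0 0 + τ) (z0 1) s) *
          h (A s * y.1 ^ 2 + 2 * B s * y.1 * y.2 + D s * y.2 ^ 2) := fun y => by
        have : f0 (s, y) = ψ s * h (A s * y.1 ^ 2 + 2 * B s * y.1 * y.2 + D s * y.2 ^ 2) *
          J (pt (z0 0 + τ) (z0 1) s) := if_pos hs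
        rw [this]; ring
      simp only [e0]
      rw [integral_const_mul, integral_quad (A s) (B s) (D s) (hA s hs) (hD s hs) h, hJs s hs]
      have h1 := Real.sqrt_pos.mpr (hD s hs)
      field_simp
    · have e0 : ∀ y : ℝ × ℝ, f0 (s, y) = 0 := fun y => if_neg hs
      have e1 : ψ s = 0 := by
        by_contra hne
        exact hs (hsupp (subset_tsupport ψ hne))
      simp only [e0, e1, integral_zero, mul_zero]
  rw [← hint0]
  have hdct := tendsto_integral_filter_of_dominated_convergence (l := 𝓝[>] (0 : ℝ)) (F := f)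
    (f := f0) bd (Eventually.of_forall hfm)
    (by filter_upwards [self_mem_nhdsWithin] with u hu
        exact Eventually.of_forall (hfb u hu)) hbdi (Eventually.of_forall hpt)
  refine hdct.congr' ?_
  filter_upwards [self_mem_nhdsWithin] with u hu
  exact (key u hu).symm


/-! ### Geometry of the chart -/

lemma sum_single (v : E3) : v = ∑ i, v i • EuclideanSpace.single i (1 : ℝ) := by
  ext j
  fin_cases j <;> simp [Fin.sum_univ_three]

lemma fderiv_sum (f : E3 → ℝ) (x v : E3) : fderiv ℝ f x v = ∑ i, v i * pd i f x := by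
  conv_lhs => rw [sum_single v]
  rw [map_sum]
  refine Finset.sum_congr rfl fun i _ => ?_
  rw [map_smul, smul_eq_mul]
  rfl

/-- The columns of the derivative of the chart. -/
noncomputable def col (Φ : E3 → E3) (z : E3) (a : Fin 3) : Cov := fun i =>
  fderiv ℝ Φ z (EuclideanSpace.single a 1) i

lemma col_det (Φ : E3 → E3) (z : E3) :
    (fderiv ℝ Φ z).det = (Matrix.of ![col Φ z 0, col Φ z 1, col Φ z 2]).det := by
  set bs := (EuclideanSpace.basisFun (Fin 3) ℝ).toBasis with hbs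
  have h1 : (fderiv ℝ Φ z).det =
      (LinearMap.toMatrix bs bs (fderiv ℝ Φ z : E3 →ₗ[ℝ] E3)).det := by
    rw [LinearMap.det_toMatrix]
  rw [h1, ← Matrix.det_transpose]
  congr 1
  ext a i
  rw [Matrix.transpose_apply, LinearMap.toMatrix_apply]
  fin_cases a <;> simp [hbs, col]

lemma col_dW {W : E3 → ℝ} {Φ : E3 → E3} {z : E3} {N : Set E3} (hN : IsOpen N)
    (hz : z ∈ N) (hΦ : DifferentiableAt ℝ Φ z) (hW : DifferentiableAt ℝ W (Φ z))
    (hWΦ : ∀ z ∈ N, W (Φ z) = z 2) (a : Fin 3) :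
    ∑ i, col Φ z a i * grad W (Φ z) i = (EuclideanSpace.single a (1 : ℝ) : E3) 2 := by
  have h1 : fderiv ℝ W (Φ z) (fderiv ℝ Φ z (EuclideanSpace.single a 1)) =
      ∑ i, col Φ z a i * grad W (Φ z) i := fderiv_sum W (Φ z) _
  rw [← h1]
  have h2 : fderiv ℝ (fun y => W (Φ y)) z = (fderiv ℝ W (Φ z)).comp (fderiv ℝ Φ z) :=
    fderiv_comp z hW hΦ
  have h3 : (fun y => W (Φ y)) =ᶠ[𝓝 z] fun y => y 2 := by
    filter_upwards [hN.mem_nhds hz] with y hy
    exact hWΦ y hy
  have h4 : fderiv ℝ (fun y : E3 => y 2) z = EuclideanSpace.proj (𝕜 := ℝ) (2 : Fin 3) :=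
    (EuclideanSpace.proj (𝕜 := ℝ) (2 : Fin 3)).hasFDerivAt.fderiv
  rw [h3.fderiv_eq, h4] at h2
  have := congrArg (fun L : E3 →L[ℝ] ℝ => L (EuclideanSpace.single a 1)) h2
  exact this.symm

lemma ev_symm {G : Bil} (hG : ∀ i j, G i j = G j i) (v w : Cov) : ev G v w = ev G w v := by
  unfold ev
  simp only [Fin.sum_univ_three]
  rw [hG 1 0, hG 2 0, hG 2 1]
  ring

lemma ev_comb {G : Bil} (hG : ∀ i j, G i j = G j i) (T0 T1 : Cov) (a b : ℝ) :
    ev G (fun i => a * T0 i + b * T1 i) (fun i => a * T0 i + b * T1 i) =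
      ev G T0 T0 * a ^ 2 + 2 * ev G T0 T1 * a * b + ev G T1 T1 * b ^ 2 := by
  unfold ev
  simp only [Fin.sum_univ_three]
  rw [hG 1 0, hG 2 0, hG 2 1]
  ring


/-- The geometry at the pole: limit of the pole function and the density. -/
lemma geom {V : Set E3} {a b : ℝ} {g : TensorField} {W : E3 → ℝ} (hDET : Stmt_DET)
    (hF : Fol V a b g W) {Φ : E3 → E3} {z0 : E3} {r e : ℝ} (hC : Chart V W Φ z0 r e)
    {τ : ℝ} (hτ : |τ| < r) (hjpos : ∀ z ∈ box z0 r e, 0 < jac g W Φ z) :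
    ∀ s ∈ Set.Ioo (z0 2 - e) (z0 2 + e), ∃ A B D : ℝ, 0 < A ∧ 0 < A * D - B ^ 2 ∧
      jac g W Φ (pt (z0 0 + τ) (z0 1) s) = Real.sqrt (A * D - B ^ 2) ∧
      ∀ y0 y1 : ℝ, Tendsto (fun u => rp g W Φ z0 τ (Φ (tha z0 τ u (s, y0, y1))) / u ^ 2) (𝓝[>] 0)
        (𝓝 (A * y0 ^ 2 + 2 * B * y0 * y1 + D * y1 ^ 2)) := by
  intro s hs
  obtain ⟨N, hNo, hbN, hΦs, -, hNV, -, hWΦ⟩ := hC.nbhd
  set z' : E3 := pt (z0 0 + τ) (z0 1) s with hz'
  have hzo : z' ∈ obox z0 r e := by
    refine mem_obox.mpr ⟨?_, ?_, ?_⟩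
    · simpa using hτ
    · simpa using lt_of_le_of_lt (abs_nonneg τ) hτ
    · rw [abs_lt]; exact ⟨by linarith [hs.1], by linarith [hs.2]⟩
  have hzb : z' ∈ box z0 r e := ⟨hzo.1.le, hzo.2.1.le, hzo.2.2.le⟩
  have hzN : z' ∈ N := hbN hzb
  set x0 : E3 := Φ z' with hx0
  have hxV : x0 ∈ V := hNV hzN
  have hΦd : DifferentiableAt ℝ Φ z' :=
    (hΦs.contDiffAt (hNo.mem_nhds hzN)).differentiableAt (by simp)
  have hWd : DifferentiableAt ℝ W x0 := (hF.contDiffAt hxV).differentiableAt (by simp)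
  have hpd : (g x0).PosDef := hF.metric.posDef x0 hxV
  have hsym : ∀ i j, g x0 i j = g x0 j i := fun i j => by
    have := hpd.isHermitian.apply i j
    simpa using this.symm
  have hcol := col_dW hNo hzN hΦd hWd hWΦ
  have d0 : ∑ i, col Φ z' 0 i * grad W x0 i = 0 := by
    rw [hcol 0]; simp
  have d1 : ∑ i, col Φ z' 1 i * grad W x0 i = 0 := by
    rw [hcol 1]; simp
  have d2 : ∑ i, col Φ z' 2 i * grad W x0 i = 1 := by
    rw [hcol 2]; simp
  have hdet := hDET g x0 (grad W x0) (col Φ z' 0) (col Φ z' 1) (col Φ z' 2) hpd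
    (hF.regular x0 hxV) d0 d1 d2
  set A := ev (g x0) (col Φ z' 0) (col Φ z' 0) with hA
  set B := ev (g x0) (col Φ z' 0) (col Φ z' 1) with hB
  set D := ev (g x0) (col Φ z' 1) (col Φ z' 1) with hD
  have hjac2 : jac g W Φ z' ^ 2 = A * D - B ^ 2 := by
    rw [← hdet, ← col_det]
    unfold jac dens volDen
    rw [mul_pow, mul_pow, sq_abs, Real.sq_sqrt hpd.det_pos.le]
    ring
  have hj := hjpos z' hzb
  have hΔ : 0 < A * D - B ^ 2 := by rw [← hjac2]; positivity
  have hA0 : 0 ≤ A := by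
    have := hpd.posSemidef.dotProduct_mulVec_nonneg (col Φ z' 0)
    have e1 : A = star (col Φ z' 0) ⬝ᵥ (g x0).mulVec (col Φ z' 0) := by
      rw [hA]
      unfold ev
      simp only [dotProduct, Matrix.mulVec, Fin.sum_univ_three, Pi.star_apply, star_trivial]
      ring
    rw [e1]; exact this
  have hApos : 0 < A := by
    rcases hA0.lt_or_eq with h | h
    · exact h
    · exfalso
      rw [← h] at hΔ
      nlinarith [sq_nonneg B]
  refine ⟨A, B, D, hApos, hΔ, ?_, ?_⟩
  · rw [← hjac2, Real.sqrt_sq hj.le]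
  · intro y0 y1
    set w : E3 := pt y0 y1 0 with hw
    have htha : ∀ u, tha z0 τ u (s, y0, y1) = z' + u • w := by
      intro u
      ext i
      fin_cases i <;> simp [tha, hz', hw]
    have hcont : Tendsto (fun u : ℝ => z' + u • w) (𝓝[>] 0) (𝓝 z') := by
      have : Continuous fun u : ℝ => z' + u • w := by fun_prop
      have h1 := this.tendsto 0
      simp only [zero_smul, add_zero] at h1
      exact h1.mono_left nhdsWithin_le_nhds
    have hev : ∀ᶠ u in 𝓝[>] (0 : ℝ), z' + u • w ∈ N := hcont.eventually (hNo.mem_nhds hzN)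
    have hslope : Tendsto (fun u : ℝ => u⁻¹ • (Φ (z' + u • w) - Φ z')) (𝓝[>] 0)
        (𝓝 (fderiv ℝ Φ z' w)) := by
      have h1 : HasDerivAt (fun u : ℝ => Φ (z' + u • w)) (fderiv ℝ Φ z' w) 0 :=
        hΦd.hasFDerivAt.hasLineDerivAt w
      have h2 := h1.tendsto_slope_zero_right
      simpa using h2
    have hwd : ∀ i, (fderiv ℝ Φ z' w) i = y0 * col Φ z' 0 i + y1 * col Φ z' 1 i := by
      intro i
      have e1 : w = y0 • EuclideanSpace.single 0 (1 : ℝ) + y1 • EuclideanSpace.single 1 (1 : ℝ) := by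
        ext j
        fin_cases j <;> simp [hw]
      rw [e1, map_add, map_smul, map_smul]
      rfl
    have hsi : ∀ i, Tendsto (fun u : ℝ => (Φ (z' + u • w) i - x0 i) / u) (𝓝[>] 0)
        (𝓝 (y0 * col Φ z' 0 i + y1 * col Φ z' 1 i)) := by
      intro i
      rw [← hwd i]
      have := ((continuous_coord i).tendsto _).comp hslope
      refine this.congr fun u => ?_
      change u⁻¹ * (Φ (z' + u • w) i - Φ z' i) = _
      rw [hx0]
      ring
    have hgi : ∀ i j, Tendsto (fun u : ℝ => g (Φ (z' + u • w)) i j) (𝓝[>] 0)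
        (𝓝 (g x0 i j)) := by
      intro i j
      have h1 : ContinuousAt (fun x => g x i j) x0 :=
        (hF.metric.smooth i j).continuousOn.continuousAt (hF.isOpen.mem_nhds hxV)
      have h2 : Tendsto (fun u : ℝ => Φ (z' + u • w)) (𝓝[>] 0) (𝓝 x0) :=
        (hΦd.continuousAt.tendsto).comp hcont
      exact h1.tendsto.comp h2
    have hsum : Tendsto (fun u : ℝ => (1 / 2) * ∑ i, ∑ j, (g (Φ (z' + u • w)) i j + g x0 i j) *
        ((Φ (z' + u • w) i - x0 i) / u) * ((Φ (z' + u • w) j - x0 j) / u)) (𝓝[>] 0)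
        (𝓝 ((1 / 2) * ∑ i, ∑ j, (g x0 i j + g x0 i j) *
          (y0 * col Φ z' 0 i + y1 * col Φ z' 1 i) * (y0 * col Φ z' 0 j + y1 * col Φ z' 1 j))) := by
      refine tendsto_const_nhds.mul (tendsto_finsetSum _ fun i _ => tendsto_finsetSum _
        fun j _ => ?_)
      exact (((hgi i j).add tendsto_const_nhds).mul (hsi i)).mul (hsi j)
    have hval : (1 / 2) * ∑ i, ∑ j, (g x0 i j + g x0 i j) *
          (y0 * col Φ z' 0 i + y1 * col Φ z' 1 i) * (y0 * col Φ z' 0 j + y1 * col Φ z' 1 j) =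
        A * y0 ^ 2 + 2 * B * y0 * y1 + D * y1 ^ 2 := by
      rw [hA, hB, hD, ← ev_comb hsym]
      unfold ev
      simp only [Fin.sum_univ_three]
      ring
    rw [hval] at hsum
    refine hsum.congr' ?_
    filter_upwards [hev, self_mem_nhdsWithin] with u hu hu0
    have hu0' : u ≠ 0 := (Set.mem_Ioi.mp hu0).ne'
    have hWu : W (Φ (z' + u • w)) = s := by
      rw [hWΦ _ hu, ← htha u]
      rfl
    rw [htha u]
    unfold rp qf
    rw [hWu, ← hz', ← hx0]
    simp only [Fin.sum_univ_three]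
    field_simp

end Pool.Agent.PFlow.GB.Scal

namespace Pool.Agent.PFlow.GB

open Pool.Agent.PenroseSph Pool.Agent.PFlow Scal

/-- (SCAL) Scaling limit at a pole. -/
theorem SCAL (hALG : Stmt_ALG) (hSMO : Stmt_SMO) (hDET : Stmt_DET) (hCHX : Stmt_CHX)
    (hFUB : Stmt_FUB) (hPOLE : Stmt_POLE) (hQ : Stmt_Q) : Stmt_SCAL := by
  intro V a b g W hF Φ z0 r e hC τ hτ
  obtain ⟨hrps, c1, C1, hc1, hC1, hbd, -⟩ := hPOLE V a b g W hF Φ z0 r e hC τ hτ
  obtain ⟨-, -, -, -, -, hint, -, hjc, c2, C2, hc2, hC2, hj, -⟩ := hCHX V a b g W hF Φ z0 r e hC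
  obtain ⟨N, hNo, hbN, hΦs, -, hNV, -, hWΦ⟩ := hC.nbhd
  have hob : obox z0 r e ⊆ box z0 r e := fun z hz => ⟨hz.1.le, hz.2.1.le, hz.2.2.le⟩
  have hO := isOpen_obox z0 r e
  have hrpc : ContinuousOn (fun z => rp g W Φ z0 τ (Φ z)) (obox z0 r e) :=
    hrps.continuousOn.comp (hΦs.continuousOn.mono (hob.trans hbN))
      (fun z hz => Set.mem_image_of_mem Φ hz)
  have hjo : ContinuousOn (jac g W Φ) (obox z0 r e) := hjc.mono hob
  constructor
  · -- the pole curve is a null set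
    have hsub : {x | x ∈ Φ '' obox z0 r e ∧ rp g W Φ z0 τ x = 0} ⊆
        Φ '' {z | z ∈ obox z0 r e ∧ z 1 = z0 1} := by
      rintro x ⟨⟨z, hz, rfl⟩, hx⟩
      refine ⟨z, ⟨hz, ?_⟩, rfl⟩
      have h1 := (hbd z (hob hz)).1
      rw [hx] at h1
      have h2 : 0 ≤ (z 0 - (z0 0 + τ)) ^ 2 := sq_nonneg _
      have h3 : 0 ≤ (z 1 - z0 1) ^ 2 := sq_nonneg _
      have h4 : (z 1 - z0 1) ^ 2 = 0 := by nlinarith
      have h5 := pow_eq_zero_iff (two_ne_zero) |>.mp h4
      linarith
    refine measure_mono_null hsub ?_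
    refine addHaar_image_eq_zero_of_differentiableOn_of_addHaar_eq_zero volume
      ((hΦs.mono ((fun z hz => hbN (hob hz.1)) :
        {z | z ∈ obox z0 r e ∧ z 1 = z0 1} ⊆ N)).differentiableOn (by simp)) ?_
    refine measure_mono_null (fun z hz => hz.2) (?_ : volume {z : E3 | z 1 = z0 1} = 0)
    set P : Submodule ℝ E3 := (EuclideanSpace.proj (𝕜 := ℝ) (1 : Fin 3)).ker with hP
    have hPt : P ≠ ⊤ := by
      intro h
      have : (EuclideanSpace.single 1 (1 : ℝ) : E3) ∈ P := by rw [h]; trivial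
      rw [hP, LinearMap.mem_ker] at this
      simp at this
    have e1 : {z : E3 | z 1 = z0 1} = (fun z => z + -z0) ⁻¹' (P : Set E3) := by
      ext z
      rw [Set.mem_preimage, SetLike.mem_coe, hP, LinearMap.mem_ker]
      change z 1 = z0 1 ↔ z 1 + -(z0 1) = 0
      constructor
      · intro h; rw [h]; ring
      · intro h; linarith
    rw [e1, measure_preimage_add_right]
    exact Measure.addHaar_submodule volume P hPt
  · intro h ψ S hh hS hψ hsupp
    have habs := absScal hFUB z0 r e τ hτ (fun z => rp g W Φ z0 τ (Φ z)) (jac g W Φ) c1 C2 hc1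
      hC2.le hrpc hjo (fun z hz => (hbd z (hob hz)).1)
      (fun z hz => by
        have h1 := (hj z (hob hz)).1
        rw [abs_of_nonneg (hc2.le.trans h1)]
        exact (hj z (hob hz)).2.1)
      (geom hDET hF hC hτ (fun z hz => hc2.trans_le (hj z hz).1)) h ψ S hh hS hψ hsupp
    have hsq : Tendsto (fun t : ℝ => Real.sqrt t) (𝓝[>] 0) (𝓝[>] 0) := by
      refine tendsto_nhdsWithin_iff.mpr ⟨?_, ?_⟩
      · have := Real.continuous_sqrt.tendsto 0
        rw [Real.sqrt_zero] at this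
        exact this.mono_left nhdsWithin_le_nhds
      · filter_upwards [self_mem_nhdsWithin] with t ht
        exact Real.sqrt_pos.mpr ht
    refine (habs.comp hsq).congr' ?_
    filter_upwards [self_mem_nhdsWithin] with t ht
    have ht2 : Real.sqrt t ^ 2 = t := Real.sq_sqrt (le_of_lt ht)
    have h1 := hint (obox z0 r e) (fun x => ψ (W x) * h (rp g W Φ z0 τ x / t))
      hO.measurableSet hob
    rw [h1]
    change (Real.sqrt t ^ 2)⁻¹ * _ = _
    rw [ht2]
    congr 1
    refine setIntegral_congr_fun hO.measurableSet fun z hz => ?_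
    rw [hWΦ z (hbN (hob hz))]

end Pool.Agent.PFlow.GB


end

section

set_option autoImplicit false

open MeasureTheory Filter Topology
open scoped ContDiff ENNReal

namespace Pool.Agent.PFlow

open Pool.Agent.PenroseSph

namespace EABSI

theorem isOpen_ann (a b : ℝ) : IsOpen (Ann a b) :=
  (isOpen_lt continuous_const continuous_norm).inter (isOpen_lt continuous_norm continuous_const)

theorem ann_exhaust (a b : ℝ) : ∃ K : ℕ → Set E3, (∀ n, IsCompact (K n)) ∧
    (∀ n, K n ⊆ Ann a b) ∧ ⋃ n, K n = Ann a b := by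
  refine ⟨fun n => {x : E3 | a + 1 / ((n : ℝ) + 1) ≤ ‖x‖ ∧ ‖x‖ ≤ b - 1 / ((n : ℝ) + 1)}, ?_, ?_, ?_⟩
  · intro n
    have h1 : IsClosed {x : E3 | a + 1 / ((n : ℝ) + 1) ≤ ‖x‖ ∧ ‖x‖ ≤ b - 1 / ((n : ℝ) + 1)} :=
      (isClosed_le continuous_const continuous_norm).inter
        (isClosed_le continuous_norm continuous_const)
    refine (isCompact_closedBall (0 : E3) (b - 1 / ((n : ℝ) + 1))).of_isClosed_subset h1 ?_
    intro x hx
    rw [Metric.mem_closedBall, dist_zero_right]
    exact hx.2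
  · intro n x hx
    have h0 : 0 < 1 / ((n : ℝ) + 1) := by positivity
    exact ⟨by linarith [hx.1], by linarith [hx.2]⟩
  · ext x
    rw [Set.mem_iUnion]
    constructor
    · rintro ⟨n, hx⟩
      have h0 : 0 < 1 / ((n : ℝ) + 1) := by positivity
      exact ⟨by linarith [hx.1], by linarith [hx.2]⟩
    · intro hx
      have h1 : ∀ᶠ n : ℕ in atTop, 1 / ((n : ℝ) + 1) < ‖x‖ - a :=
        tendsto_one_div_add_atTop_nhds_zero_nat.eventually_lt_const (by linarith [hx.1])
      have h2 : ∀ᶠ n : ℕ in atTop, 1 / ((n : ℝ) + 1) < b - ‖x‖ :=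
        tendsto_one_div_add_atTop_nhds_zero_nat.eventually_lt_const (by linarith [hx.2])
      obtain ⟨n, hn1, hn2⟩ := (h1.and h2).exists
      exact ⟨n, by constructor <;> linarith⟩

theorem chr_symm {U : Set E3} {g : TensorField} (hU : IsOpen U) (hg : MetricOn U g) {x : E3}
    (hx : x ∈ U) (k i j : Fin 3) : christoffel g k i j x = christoffel g k j i x := by
  have h1 : ∀ a b : Fin 3, (fun y => g y a b) =ᶠ[𝓝 x] fun y => g y b a := by
    intro a b
    filter_upwards [hU.mem_nhds hx] with y hy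
    have := (hg.posDef y hy).isHermitian.apply a b
    simpa using this.symm
  have h2 : ∀ l a b : Fin 3, pd l (fun y => g y a b) x = pd l (fun y => g y b a) x := by
    intro l a b
    unfold pd
    rw [(h1 a b).fderiv_eq]
  unfold christoffel
  congr 1
  refine Finset.sum_congr rfl fun l _ => ?_
  rw [h2 l i j]
  ring

end EABSI

theorem ABSI (hSETW : Stmt_SETW) (hINT : Stmt_INT) (hPTD : Stmt_PTD) (hHSYM : Stmt_HSYM) :
    Stmt_ABSI := by
  intro P D hs
  obtain ⟨hg, hh, h2n, hH2, hEq, -, -, -, -, -, -, -, -, -, hKs, -⟩ := hSETW P D hs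
  have hU : IsOpen D.Om := EABSI.isOpen_ann _ _
  have heps1 : P.eps < 1 := by linarith [hs.eps_le]
  have hI := hINT P.eps D.Om D.g' D.h' (D.w P) (D.Gw P) (D.Mw P) hs.eps_pos heps1 hU hg hh hH2 hEq
  have lvl : ∀ f : E3 → ℝ, (∀ K : Set E3, IsCompact K → K ⊆ D.Om → IntegrableOn f K) →
      LvlInt P D f := by
    intro f hf s s' h1 _ h3
    obtain ⟨K, hK, hKU, hsub⟩ := hKs s s' h1 h3
    exact (hf K hK hKU).mono_set hsub
  have hvol0 : ∀ x, 0 ≤ D.vol x := fun x => Real.sqrt_nonneg _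
  have hX0 : ∀ x, 0 ≤ D.X P x := fun x => Real.sqrt_nonneg _
  have hvolc : ∀ K : Set E3, K ⊆ D.Om → ContinuousOn D.vol K := fun K hKU x hx =>
    (MCF.volDen_smooth hU hg (hKU hx)).continuousAt.continuousWithinAt
  have hvol : ∀ K : Set E3, IsCompact K → K ⊆ D.Om → IntegrableOn D.vol K := fun K hK hKU =>
    (hvolc K hKU).integrableOn_compact hK
  have hX4 : ∀ K : Set E3, IsCompact K → K ⊆ D.Om →
      IntegrableOn (fun x => D.X P x ^ 4 * D.vol x) K := fun K hK hKU => (hI K hK hKU).2.1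
  have hGm : ∀ K : Set E3, IsCompact K → K ⊆ D.Om → ∀ i,
      AEMeasurable (fun x => D.Gw P x i) (volume.restrict K) := fun K hK hKU i =>
    (hH2.memG K hK hKU i).1.aemeasurable
  have hXm : ∀ K : Set E3, IsCompact K → K ⊆ D.Om → AEMeasurable (D.X P) (volume.restrict K) :=
    fun K hK hKU => MCF.m_len (MCF.coef hU hg hh hK hKU) (hGm K hK hKU)
  have hvm : ∀ K : Set E3, IsCompact K → K ⊆ D.Om → AEMeasurable D.vol (volume.restrict K) :=
    fun K hK hKU => (MCF.coef hU hg hh hK hKU).vol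
  have hdom : ∀ K : Set E3, IsCompact K → K ⊆ D.Om →
      IntegrableOn (fun x => D.vol x + D.X P x ^ 4 * D.vol x) K := fun K hK hKU =>
    (hvol K hK hKU).add (hX4 K hK hKU)
  have hXle : ∀ x, D.X P x ≤ 1 + D.X P x ^ 4 := by
    intro x
    nlinarith [hX0 x, sq_nonneg (D.X P x ^ 2 - 1), sq_nonneg (D.X P x - 1)]
  have hX3le : ∀ x, D.X P x ^ 3 ≤ 1 + D.X P x ^ 4 := by
    intro x
    have h1 := hX0 x
    by_cases hc : D.X P x ≤ 1
    · have : D.X P x ^ 3 ≤ 1 := pow_le_one₀ h1 hc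
      have : 0 ≤ D.X P x ^ 4 := by positivity
      linarith
    · push Not at hc
      have : D.X P x ^ 3 ≤ D.X P x ^ 4 := pow_le_pow_right₀ hc.le (by norm_num)
      linarith
  refine ⟨lvl _ hvol, lvl _ ?_, lvl _ ?_, lvl _ ?_, lvl _ ?_, lvl _ ?_, ?_, ?_⟩
  · intro K hK hKU
    refine (hdom K hK hKU).mono' (((hXm K hK hKU).pow_const 3).mul
      (hvm K hK hKU)).aestronglyMeasurable (Eventually.of_forall fun x => ?_)
    have h1 := hX0 x
    have h2 := hvol0 x
    rw [Real.norm_of_nonneg (by positivity)]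
    calc D.X P x ^ 3 * D.vol x ≤ (1 + D.X P x ^ 4) * D.vol x :=
          mul_le_mul_of_nonneg_right (hX3le x) h2
      _ = _ := by ring
  · intro K hK hKU
    exact (hI K hK hKU).2.2.2.2.1
  · intro K hK hKU
    exact (hI K hK hKU).2.2.2.2.2.1
  · intro K hK hKU
    have hc := MCF.coef hU hg hh hK hKU
    have hjc : ∀ x ∈ D.Om, ContinuousAt (surplus D.g' D.h') x := by
      intro x hx
      unfold surplus jlen ev
      refine (MCF.energy_smooth hU hg hh hx).continuousAt.sub ?_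
      refine Real.continuous_sqrt.continuousAt.comp ?_
      have h1 : ContDiffAt ℝ ∞ (fun x => ∑ i, ∑ j, (D.g' x)⁻¹ i j
          * momentumDensity D.g' D.h' i x * momentumDensity D.g' D.h' j x) x :=
        ContDiffAt.sum fun i _ => ContDiffAt.sum fun j _ =>
          ((MCF.inv_smooth hU hg hx i j).mul (MCF.mom_smooth hU hg hh hx i)).mul
            (MCF.mom_smooth hU hg hh hx j)
      exact h1.continuousAt
    have hsc : ContinuousOn (surplus D.g' D.h') K := fun x hx =>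
      (hjc x (hKU hx)).continuousWithinAt
    obtain ⟨C, hC⟩ := hK.exists_bound_of_continuousOn hsc
    have hsm : AEMeasurable (surplus D.g' D.h') (volume.restrict K) :=
      (hsc.aestronglyMeasurable hK.measurableSet).aemeasurable
    refine Integrable.mono' ((hdom K hK hKU).const_mul |C|)
      (((hXm K hK hKU).mul hsm).mul (hvm K hK hKU)).aestronglyMeasurable ?_
    refine (ae_restrict_iff' hK.measurableSet).2 (Eventually.of_forall fun x hx => ?_)
    have h1 := hX0 x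
    have h2 := hvol0 x
    have h3 : |surplus D.g' D.h' x| ≤ |C| := by
      have := hC x hx
      rw [Real.norm_eq_abs] at this
      exact this.trans (le_abs_self C)
    show ‖D.X P x * surplus D.g' D.h' x * D.vol x‖ ≤ |C| * (D.vol x + D.X P x ^ 4 * D.vol x)
    rw [norm_mul, norm_mul, Real.norm_of_nonneg h1, Real.norm_of_nonneg h2, Real.norm_eq_abs]
    calc D.X P x * |surplus D.g' D.h' x| * D.vol x
        ≤ (1 + D.X P x ^ 4) * |C| * D.vol x := by
          refine mul_le_mul_of_nonneg_right ?_ h2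
          exact mul_le_mul (hXle x) h3 (abs_nonneg _) (by positivity)
      _ = _ := by ring
  · intro K hK hKU
    exact (hI K hK hKU).2.2.2.2.2.2.1
  · obtain ⟨C, -, hC⟩ := hPTD P.eps hs.eps_pos hs.eps_le
    have hsym := hHSYM D.Om (D.w P) (D.Gw P) (D.Mw P) hU hH2
    have hmem : ∀ᵐ x ∂(volume.restrict D.Om), x ∈ D.Om := ae_restrict_mem hU.measurableSet
    filter_upwards [hsym, hEq, hmem] with x hx1 hx2 hx3
    by_cases h0 : D.Gw P x = 0
    · have h1 : D.X P x = 0 := by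
        unfold Dat.X len ev
        rw [h0]
        simp
      unfold Dat.Di
      rw [h1, zero_mul]
    · have h1 := (hC D.g' D.h' x (D.Gw P x) (D.Mw P x) (hg.posDef x hx3) (hh.symm x hx3) hx1
        (EABSI.chr_symm hU hg hx3) h0 (h2n x hx3) (hx2.1 h0)).1
      exact mul_nonneg (hX0 x) h1
  · obtain ⟨K, hK, hKU, hKe⟩ := EABSI.ann_exhaust (1 / D.R) D.R
    have h1 : AEMeasurable (D.X P) (volume.restrict D.Om) := by
      unfold Dat.Om
      rw [← hKe, aemeasurable_iUnion_iff]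
      intro n
      exact hXm (K n) (hK n) (hKU n)
    exact h1.aestronglyMeasurable

end Pool.Agent.PFlow


end

section

set_option autoImplicit false

open MeasureTheory Filter Topology
open scoped ContDiff ENNReal

namespace Pool.Agent.PFlow

open Pool.Agent.PenroseSph

namespace EWGTE

theorem det_bound {B : Bil} {b : ℝ} (hB : ∀ i j, |B i j| ≤ b) : B.det ≤ 6 * b ^ 3 := by
  have hb : 0 ≤ b := (abs_nonneg _).trans (hB 0 0)
  have h1 : ∀ i j k l m n : Fin 3, |B i j * B k l * B m n| ≤ b ^ 3 := by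
    intro i j k l m n
    rw [abs_mul, abs_mul]
    calc |B i j| * |B k l| * |B m n| ≤ b * b * b := by
          gcongr
          · exact hB i j
          · exact hB k l
          · exact hB m n
      _ = b ^ 3 := by ring
  rw [Matrix.det_fin_three]
  have a1 := (abs_le.1 (h1 0 0 1 1 2 2)).2
  have a2 := (abs_le.1 (h1 0 0 1 2 2 1)).1
  have a3 := (abs_le.1 (h1 0 1 1 0 2 2)).1
  have a4 := (abs_le.1 (h1 0 1 1 2 2 0)).2
  have a5 := (abs_le.1 (h1 0 2 1 0 2 1)).2
  have a6 := (abs_le.1 (h1 0 2 1 1 2 0)).1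
  linarith

/-- The volume of the annulus is at least a multiple of the cube of the radius. -/
theorem vol_ann : ∃ c : ℝ, 0 < c ∧ ∀ l b : ℝ, 0 < l → l ≤ b →
    c * l ^ 3 ≤ (volume (cAnn (l / 2) b)).toReal := by
  set om : ℝ := (volume (Metric.ball (0 : E3) 1)).toReal with hom
  have hompos : 0 < om := by
    refine ENNReal.toReal_pos ?_ ?_
    · exact (Metric.measure_ball_pos volume (0 : E3) one_pos).ne'
    · exact measure_ball_lt_top.ne
  refine ⟨om / 64, by positivity, ?_⟩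
  intro l b hl hb
  set p : E3 := EuclideanSpace.single 0 (3 * l / 4) with hp
  have hpn : ‖p‖ = 3 * l / 4 := by
    rw [hp]
    simp only [PiLp.norm_single, Real.norm_of_nonneg (show (0 : ℝ) ≤ 3 * l / 4 by positivity)]
  have hsub : Metric.ball p (l / 4) ⊆ cAnn (l / 2) b := by
    intro x hx
    rw [Metric.mem_ball, dist_eq_norm] at hx
    have h1 : ‖x‖ ≤ ‖x - p‖ + ‖p‖ := by
      have := norm_add_le (x - p) p
      rwa [sub_add_cancel] at this
    have h2 : ‖p‖ ≤ ‖x - p‖ + ‖x‖ := by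
      have := norm_sub_le x (x - p)
      rw [sub_sub_cancel] at this
      linarith
    constructor <;> linarith
  have hfin : volume (cAnn (l / 2) b) ≠ ⊤ := by
    refine ne_top_of_le_ne_top (measure_closedBall_lt_top (x := (0 : E3)) (r := b)).ne
      (measure_mono ?_)
    intro x hx
    rw [Metric.mem_closedBall, dist_zero_right]
    exact hx.2
  have h3 := ENNReal.toReal_mono hfin (measure_mono hsub)
  rw [Measure.addHaar_ball volume p (by positivity), ENNReal.toReal_mul,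
    ENNReal.toReal_ofReal (by positivity)] at h3
  simp only [finrank_euclideanSpace, Fintype.card_fin] at h3
  refine le_trans (le_of_eq ?_) h3
  rw [← hom]
  ring

theorem isCompact_cAnn (a b : ℝ) : IsCompact (cAnn a b) := by
  have h1 : IsClosed (cAnn a b) :=
    (isClosed_le continuous_const continuous_norm).inter
      (isClosed_le continuous_norm continuous_const)
  refine (isCompact_closedBall (0 : E3) b).of_isClosed_subset h1 ?_
  intro x hx
  rw [Metric.mem_closedBall, dist_zero_right]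
  exact hx.2

/-- The bound of the constant `lm`. -/
theorem lm_bound {μ : Measure E3} [IsFiniteMeasure μ] {f : E3 → ℝ} (hf : Integrable f μ)
    (hf0 : ∀ x, 0 ≤ f x) {lm : ℝ} (hlm : 0 ≤ lm)
    (hmean : Real.sqrt lm * (∫ _x, (1 : ℝ) ∂μ) = ∫ x, Real.sqrt (f x) ∂μ) :
    Integrable (fun x => (Real.sqrt (f x) - Real.sqrt lm) ^ 2) μ ∧
      lm * (∫ _x, (1 : ℝ) ∂μ) ≤ ∫ x, f x ∂μ := by
  have hsm : AEStronglyMeasurable (fun x => Real.sqrt (f x)) μ :=
    Real.continuous_sqrt.comp_aestronglyMeasurable hf.1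
  have hs : Integrable (fun x => Real.sqrt (f x)) μ := by
    refine Integrable.mono' ((integrable_const (1 : ℝ)).add hf) hsm
      (Eventually.of_forall fun x => ?_)
    rw [Real.norm_of_nonneg (Real.sqrt_nonneg _)]
    show Real.sqrt (f x) ≤ 1 + f x
    rw [Real.sqrt_le_left (by linarith [hf0 x])]
    nlinarith [hf0 x]
  have hexp : ∀ x, (Real.sqrt (f x) - Real.sqrt lm) ^ 2
      = (f x - 2 * Real.sqrt lm * Real.sqrt (f x)) + lm * 1 := by
    intro x
    have h1 := Real.sq_sqrt (hf0 x)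
    have h2 := Real.sq_sqrt hlm
    nlinarith
  have hint : Integrable (fun x => (Real.sqrt (f x) - Real.sqrt lm) ^ 2) μ := by
    simp only [hexp]
    exact (hf.sub (hs.const_mul _)).add (integrable_const _)
  refine ⟨hint, ?_⟩
  have h0 : 0 ≤ ∫ x, (Real.sqrt (f x) - Real.sqrt lm) ^ 2 ∂μ :=
    integral_nonneg fun x => sq_nonneg _
  have e1 : ∫ x, (Real.sqrt (f x) - Real.sqrt lm) ^ 2 ∂μ
      = ∫ x, f x ∂μ - 2 * Real.sqrt lm * ∫ x, Real.sqrt (f x) ∂μ + lm * ∫ _x, (1 : ℝ) ∂μ := by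
    simp only [hexp]
    have e2 : ∫ x, (f x - 2 * Real.sqrt lm * Real.sqrt (f x)) + lm * 1 ∂μ
        = ∫ x, (f x - 2 * Real.sqrt lm * Real.sqrt (f x)) ∂μ + ∫ _x, lm * 1 ∂μ :=
      integral_add (hf.sub (hs.const_mul _)) (integrable_const _)
    have e3 : ∫ x, (f x - 2 * Real.sqrt lm * Real.sqrt (f x)) ∂μ
        = ∫ x, f x ∂μ - ∫ x, 2 * Real.sqrt lm * Real.sqrt (f x) ∂μ :=
      integral_sub hf (hs.const_mul _)
    rw [e2, e3, integral_const_mul, integral_const_mul]
  rw [e1, ← hmean] at h0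
  have h2 := Real.mul_self_sqrt hlm
  have h3 : 2 * Real.sqrt lm * (Real.sqrt lm * ∫ _x, (1 : ℝ) ∂μ)
      = 2 * lm * ∫ _x, (1 : ℝ) ∂μ := by
    rw [← mul_assoc, mul_assoc 2, h2]
  rw [h3] at h0
  linarith

end EWGTE

theorem WGTE (hSETW : Stmt_SETW) (hBETA : Stmt_BETA) (hABSI : Stmt_ABSI) (hWGT : Stmt_WGT)
    (hENER : Stmt_ENER) (hUPH : Stmt_UPH) : Stmt_WGTE := by
  have _ := hABSI
  intro P B
  by_cases hP : 0 < P.eps ∧ P.eps ≤ 1 / 2 ∧ 0 < P.C ∧ 0 < P.gam
  swap
  · exact ⟨1, one_pos, fun D hs => absurd ⟨hs.eps_pos, hs.eps_le, hs.C_pos, hs.gam_pos⟩ hP⟩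
  obtain ⟨heps, heps2, hC, hgam⟩ := hP
  have h2e : 0 < 2 - P.eps := by linarith
  have hkE : 4 ≤ kE P.eps P.gam := by
    unfold kE
    have h1 : 1 ≤ Real.exp ((1 + 2 * P.gam) / (2 - P.eps)) := by
      apply Real.one_le_exp
      positivity
    linarith
  obtain ⟨β, hβ⟩ := hBETA
  obtain ⟨C₁, hC₁, hW⟩ := hWGT P.eps (1 / 2) (kE P.eps P.gam) P.C heps heps2 (by norm_num)
    (by linarith) hC
  obtain ⟨B₁, hB₁, hE⟩ := hENER P B
  obtain ⟨B₂, hB₂, hU⟩ := hUPH P B β hβ
  obtain ⟨c, hc, hvolA⟩ := EWGTE.vol_ann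
  -- the bound of the volume density
  set V : ℝ := Real.sqrt (6 * (1 + P.C) ^ 3) with hV
  have hV0 : 0 ≤ V := Real.sqrt_nonneg _
  set N : ℝ := 81 * (P.C * (16 * P.C)) ^ 2 with hN
  have hN0 : 0 ≤ N := by positivity
  refine ⟨C₁ * (B₁ + N * V * B₂) + B₂ / c, by positivity, ?_⟩
  intro D hs hA se hcut
  obtain ⟨hg, hh, h2n, hH2, hEq, -, -, -, -, -, -, -, -, -, -, -, -, -, -, -, hKR, hKl⟩ :=
    hSETW P D hs
  obtain ⟨hEi, hEb⟩ := hE D hs hA se hcut
  obtain ⟨-, hphi, hphb⟩ := hU D hs hA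
  have hl : 4 ≤ D.l := hs.l_ge
  have hl0 : 0 < D.l := by linarith
  have hKlpos : 4 * D.l ≤ D.Kl P := by
    unfold Dat.Kl
    exact mul_le_mul_of_nonneg_right hkE hl0.le
  have hUo : IsOpen D.Om := EABSI.isOpen_ann _ _
  have hR : 1 < D.R := by linarith
  have hsub : cAnn (D.l / 4) (D.Kl P) ⊆ D.Om := by
    intro x hx
    have h1 : 1 / D.R < 1 := by
      rw [div_lt_one (by linarith)]
      exact hR
    exact ⟨by linarith [hx.1], by linarith [hx.2]⟩
  have ha : 1 / 2 * D.l / 2 = D.l / 4 := by ring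
  have ha2 : 1 / 2 * D.l = D.l / 2 := by ring
  have hb : kE P.eps P.gam * D.l = D.Kl P := rfl
  have hX0 : ∀ x, 0 ≤ D.X P x := fun x => Real.sqrt_nonneg _
  have hph0 : ∀ x, 0 ≤ D.ph P x := fun x => mul_nonneg (Real.exp_pos _).le (hX0 x)
  have hvol0 : ∀ x, 0 ≤ D.vol x := fun x => Real.sqrt_nonneg _
  -- the region
  set K : Set E3 := cAnn (D.l / 4) (D.Kl P) with hK
  have hKc : IsCompact K := EWGTE.isCompact_cAnn _ _
  have hK1 : ∀ x ∈ K, 1 ≤ ‖x‖ := fun x hx => by linarith [hx.1]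
  have hvolb : ∀ x ∈ K, D.vol x ≤ V := by
    intro x hx
    have hx1 := hK1 x hx
    apply Real.sqrt_le_sqrt
    apply EWGTE.det_bound
    intro i j
    have h1 := (hs.modified.decay1 x hx1 i j).1
    have h2 : P.C / ‖x‖ ≤ P.C := div_le_self hC.le hx1
    have h3 : |(1 : Bil) i j| ≤ 1 := by
      rw [Matrix.one_apply]
      split_ifs <;> simp
    calc |D.g' x i j| = |(D.g' x i j - (1 : Bil) i j) + (1 : Bil) i j| := by ring_nf
      _ ≤ |D.g' x i j - (1 : Bil) i j| + |(1 : Bil) i j| := abs_add_le _ _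
      _ ≤ 1 + P.C := by linarith
  have hnsq : ∀ x ∈ K, |nsq D.g' x (D.h' x)| ≤ N / D.l ^ 4 := by
    intro x hx
    have hx1 := hK1 x hx
    have hinv : ∀ i j, |(D.g' x)⁻¹ i j| ≤ P.C := fun i j =>
      EShell.inv_entry (hg.posDef x (hsub hx)) (fun v => (hs.modified.elliptic x hx1 v).1) i j
    have hh' : ∀ i j, |D.h' x i j| ≤ 16 * P.C / D.l ^ 2 := by
      intro i j
      refine (hs.modified.hsmall x hx1 i j).trans ?_
      rw [div_le_div_iff₀ (by positivity) (by positivity)]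
      have h1 : D.l / 4 ≤ ‖x‖ := hx.1
      have h2 : D.l ^ 2 ≤ 16 * ‖x‖ ^ 2 := by nlinarith
      nlinarith
    refine (EShell.nsq_le (D.h' x) hinv hh').trans (le_of_eq ?_)
    rw [hN]
    field_simp
  -- the energy
  have hcoef := MCF.coef hUo hg hh hKc hsub
  have hnm : AEMeasurable (fun x => nsq D.g' x (D.h' x)) (volume.restrict K) :=
    MCF.m_nsq hcoef hcoef.ten
  have hvm : AEMeasurable D.vol (volume.restrict K) := hcoef.vol
  have hi2 : IntegrableOn (fun x => D.ph P x * nsq D.g' x (D.h' x) * D.vol x) K := by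
    refine Integrable.mono' (hphi.const_mul (N / D.l ^ 4 * V))
      ((hphi.1.aemeasurable.mul hnm).mul hvm).aestronglyMeasurable ?_
    refine (ae_restrict_iff' hKc.measurableSet).2 (Eventually.of_forall fun x hx => ?_)
    rw [norm_mul, norm_mul, Real.norm_of_nonneg (hph0 x), Real.norm_of_nonneg (hvol0 x),
      Real.norm_eq_abs]
    calc D.ph P x * |nsq D.g' x (D.h' x)| * D.vol x
        ≤ D.ph P x * (N / D.l ^ 4) * V := by
          refine mul_le_mul (mul_le_mul_of_nonneg_left (hnsq x hx) (hph0 x)) (hvolb x hx)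
            (hvol0 x) ?_
          exact mul_nonneg (hph0 x) (by positivity)
      _ = _ := by ring
  have hi2b : ∫ x in K, D.ph P x * nsq D.g' x (D.h' x) * D.vol x ≤ N * V * B₂ := by
    calc ∫ x in K, D.ph P x * nsq D.g' x (D.h' x) * D.vol x
        ≤ ∫ x in K, (N / D.l ^ 4 * V) * D.ph P x := by
          refine setIntegral_mono_on hi2 (hphi.const_mul _) hKc.measurableSet fun x hx => ?_
          have h1 : nsq D.g' x (D.h' x) ≤ N / D.l ^ 4 := (le_abs_self _).trans (hnsq x hx)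
          calc D.ph P x * nsq D.g' x (D.h' x) * D.vol x
              ≤ D.ph P x * (N / D.l ^ 4) * D.vol x :=
                mul_le_mul_of_nonneg_right (mul_le_mul_of_nonneg_left h1 (hph0 x)) (hvol0 x)
            _ ≤ D.ph P x * (N / D.l ^ 4) * V :=
                mul_le_mul_of_nonneg_left (hvolb x hx) (mul_nonneg (hph0 x) (by positivity))
            _ = _ := by ring
      _ = (N / D.l ^ 4 * V) * ∫ x in K, D.ph P x := by rw [integral_const_mul]
      _ ≤ (N / D.l ^ 4 * V) * (B₂ * D.l ^ 3) :=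
          mul_le_mul_of_nonneg_left hphb (by positivity)
      _ = N * V * B₂ * (1 / D.l) := by field_simp
      _ ≤ N * V * B₂ * 1 := by
          refine mul_le_mul_of_nonneg_left ?_ (by positivity)
          rw [div_le_one hl0]
          linarith
      _ = _ := by ring
  have hfun : ∀ x, Real.exp (D.w P x / (2 - P.eps)) * len D.g' x (D.Gw P x)
        * (diss P.eps D.g' D.h' x (D.Gw P x) (D.Mw P x) + nsq D.g' x (D.h' x)) * volDen D.g' x
      = Real.exp (D.w P x / (2 - P.eps)) * D.Di P x * D.vol x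
        + D.ph P x * nsq D.g' x (D.h' x) * D.vol x := by
    intro x
    unfold Dat.Di Dat.ph Dat.X Dat.vol
    ring
  obtain ⟨lm, hlm, hmean, hclose⟩ := hW D.l D.Om D.g' D.h' (D.w P) (D.Gw P) (D.Mw P) hl0 hUo
    (by rw [ha, hb]; exact hsub) hg hh h2n
    (by
      rw [ha, hb]
      intro x hx v
      exact hs.modified.elliptic x (hK1 x hx) v)
    hH2 hEq (by
      rw [ha, hb]
      simp only [hfun]
      exact hEi.add hi2)
  rw [ha, ha2, hb] at hclose
  rw [ha2, hb] at hmean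
  simp only [hfun] at hclose
  rw [integral_add hEi hi2] at hclose
  -- the annulus
  have hsub2 : cAnn (D.l / 2) (D.Kl P) ⊆ K := by
    intro x hx
    exact ⟨by linarith [hx.1], hx.2⟩
  have hfin : IsFiniteMeasure (volume.restrict (cAnn (D.l / 2) (D.Kl P))) :=
    ⟨by rw [Measure.restrict_apply_univ]; exact (EWGTE.isCompact_cAnn _ _).measure_lt_top⟩
  obtain ⟨hint, hle⟩ := EWGTE.lm_bound (μ := volume.restrict (cAnn (D.l / 2) (D.Kl P)))
    (f := D.ph P) (hphi.mono_set hsub2) hph0 hlm hmean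
  have hle2 : ∫ x in cAnn (D.l / 2) (D.Kl P), D.ph P x ≤ B₂ * D.l ^ 3 := by
    refine le_trans ?_ hphb
    exact setIntegral_mono_set hphi (Eventually.of_forall hph0) hsub2.eventuallyLE
  have hone : ∫ _x in cAnn (D.l / 2) (D.Kl P), (1 : ℝ)
      = (volume (cAnn (D.l / 2) (D.Kl P))).toReal := by
    rw [setIntegral_const, smul_eq_mul, mul_one]
    rfl
  have hvA := hvolA D.l (D.Kl P) hl0 (by linarith)
  refine ⟨lm, hlm, ?_, hint, ?_⟩
  · -- the bound of lm
    have h1 : lm * (c * D.l ^ 3) ≤ B₂ * D.l ^ 3 := by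
      refine le_trans (mul_le_mul_of_nonneg_left hvA hlm) ?_
      rw [← hone]
      exact hle.trans hle2
    have h2 : lm * c ≤ B₂ := by
      have h3 : 0 < D.l ^ 3 := by positivity
      have h4 : (lm * c) * D.l ^ 3 ≤ B₂ * D.l ^ 3 := by linarith
      exact le_of_mul_le_mul_right h4 h3
    have h5 : lm ≤ B₂ / c := by
      rw [le_div_iff₀ hc]
      exact h2
    have h6 : 0 ≤ C₁ * (B₁ + N * V * B₂) := by positivity
    linarith
  · refine hclose.trans ?_
    have h1 : (∫ x in K, Real.exp (D.w P x / (2 - P.eps)) * D.Di P x * D.vol x)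
        + (∫ x in K, D.ph P x * nsq D.g' x (D.h' x) * D.vol x) ≤ B₁ + N * V * B₂ :=
      add_le_add hEb hi2b
    calc C₁ * D.l ^ 2 * ((∫ x in K, Real.exp (D.w P x / (2 - P.eps)) * D.Di P x * D.vol x)
          + (∫ x in K, D.ph P x * nsq D.g' x (D.h' x) * D.vol x))
        ≤ C₁ * D.l ^ 2 * (B₁ + N * V * B₂) := mul_le_mul_of_nonneg_left h1 (by positivity)
      _ = C₁ * (B₁ + N * V * B₂) * D.l ^ 2 := by ring
      _ ≤ (C₁ * (B₁ + N * V * B₂) + B₂ / c) * D.l ^ 2 := by
          refine mul_le_mul_of_nonneg_right ?_ (by positivity)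
          have : 0 ≤ B₂ / c := by positivity
          linarith

end Pool.Agent.PFlow


end
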