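import Mathlib
import Pool.Agent.PFlow.StmtsE2
import Pool.Agent.PFlow.StmtsE3
import Pool.Agent.PenroseM.C07
import Pool.Agent.PenroseM.C08
import Pool.Agent.PenroseM.C12
import Pool.Agent.PenroseM.C14

/-! Parts: PFlow.G.DU, PFlow.E.ABS, PFlow.E.WGTA, PFlow.E.WGT -/

section

/-!
# DU: differentiation under the integral
-/

open MeasureTheory Filter Topology
open scoped ContDiff

namespace Pool.Agent.PFlow.GB

open Pool.Agent.PenroseSph Pool.Agent.PFlow

namespace DUM

/-- The partial derivative in the first variable. -/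
noncomputable def pd1 (i : Fin 3) (F : E3 × E3 → ℝ) (q : E3 × E3) : ℝ :=
  fderiv ℝ F q (EuclideanSpace.single i 1, 0)

variable {N S K2 : Set E3} {F : E3 × E3 → ℝ} {φ : E3 → ℝ}

theorem smooth_pd1 (hN : IsOpen N) (hF : ContDiffOn ℝ ∞ F (N ×ˢ Set.univ)) (i : Fin 3) :
    ContDiffOn ℝ ∞ (pd1 i F) (N ×ˢ Set.univ) := by
  have h1 : ContDiffOn ℝ ∞ (fderiv ℝ F) (N ×ˢ Set.univ) :=
    hF.fderiv_of_isOpen (hN.prod isOpen_univ) (by simp)
  exact h1.clm_apply contDiffOn_const

theorem hasFDerivAt_left (hN : IsOpen N) (hF : ContDiffOn ℝ ∞ F (N ×ˢ Set.univ)) {x y : E3}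
    (hx : x ∈ N) :
    HasFDerivAt (fun z => F (z, y)) ((fderiv ℝ F (x, y)).comp (ContinuousLinearMap.inl ℝ E3 E3))
      x := by
  have h1 : DifferentiableAt ℝ F (x, y) :=
    ((hF (x, y) ⟨hx, Set.mem_univ _⟩).contDiffAt
      ((hN.prod isOpen_univ).mem_nhds ⟨hx, Set.mem_univ _⟩)).differentiableAt (by simp)
  exact h1.hasFDerivAt.comp x (hasFDerivAt_prodMk_left x y)

theorem pd_left (hN : IsOpen N) (hF : ContDiffOn ℝ ∞ F (N ×ˢ Set.univ)) {x y : E3}
    (hx : x ∈ N) (i : Fin 3) : pd i (fun z => F (z, y)) x = pd1 i F (x, y) := by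
  unfold pd pd1
  rw [(hasFDerivAt_left hN hF hx).fderiv]
  rfl

/-- The integral operator. -/
noncomputable def Iop (S : Set E3) (φ : E3 → ℝ) (F : E3 × E3 → ℝ) (x : E3) : ℝ :=
  ∫ y in S, F (x, y) * φ y

theorem bound {E : Type*} [NormedAddCommGroup E] {H : E3 × E3 → E} {K1 : Set E3}
    (hH : ContinuousOn H (N ×ˢ Set.univ)) (hK1 : IsCompact K1) (hK1N : K1 ⊆ N)
    (hK2 : IsCompact K2) : ∃ C : ℝ, ∀ x ∈ K1, ∀ y ∈ K2, ‖H (x, y)‖ ≤ C := by
  obtain ⟨C, hC⟩ := (hK1.prod hK2).exists_bound_of_continuousOn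
    (hH.mono (Set.prod_mono hK1N (Set.subset_univ _)))
  exact ⟨C, fun x hx y hy => hC (x, y) ⟨hx, hy⟩⟩

theorem meas {E : Type*} [NormedAddCommGroup E] {H : E3 × E3 → E} {x : E3} (hx : x ∈ N)
    (hH : ContinuousOn H (N ×ˢ Set.univ)) (hS : MeasurableSet S) :
    AEStronglyMeasurable (fun y => H (x, y)) (volume.restrict S) := by
  have h1 : Continuous (fun y => H (x, y)) := by
    rw [← continuousOn_univ]
    exact hH.comp (by fun_prop) (fun y _ => ⟨hx, Set.mem_univ _⟩)
  exact h1.aestronglyMeasurable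

theorem integrable_mul (hF : ContinuousOn F (N ×ˢ Set.univ)) {x : E3} (hx : x ∈ N)
    (hS : MeasurableSet S) (hSK : S ⊆ K2) (hK2 : IsCompact K2)
    (hφ : Integrable φ (volume.restrict S)) :
    Integrable (fun y => F (x, y) * φ y) (volume.restrict S) := by
  obtain ⟨C, hC⟩ := bound hF isCompact_singleton (Set.singleton_subset_iff.mpr hx) hK2
  refine hφ.bdd_mul (c := C) (meas hx hF hS) ?_
  rw [ae_restrict_iff' hS]
  exact ae_of_all _ fun y hy => hC x rfl y (hSK hy)

theorem hasFDerivAt_Iop (hN : IsOpen N) (hF : ContDiffOn ℝ ∞ F (N ×ˢ Set.univ))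
    (hS : MeasurableSet S) (hSK : S ⊆ K2) (hK2 : IsCompact K2)
    (hφ : Integrable φ (volume.restrict S)) {x : E3} (hx : x ∈ N) :
    Integrable (fun y => φ y • (fderiv ℝ F (x, y)).comp (ContinuousLinearMap.inl ℝ E3 E3))
      (volume.restrict S) ∧
    HasFDerivAt (Iop S φ F)
      (∫ y in S, φ y • (fderiv ℝ F (x, y)).comp (ContinuousLinearMap.inl ℝ E3 E3)) x := by
  obtain ⟨r, hr, hball⟩ := Metric.nhds_basis_closedBall.mem_iff.mp (hN.mem_nhds hx)
  have hcD : ContinuousOn (fun q : E3 × E3 =>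
      (fderiv ℝ F q).comp (ContinuousLinearMap.inl ℝ E3 E3)) (N ×ˢ Set.univ) := by
    have h1 : ContinuousOn (fderiv ℝ F) (N ×ˢ Set.univ) :=
      hF.continuousOn_fderiv_of_isOpen (hN.prod isOpen_univ) (by simp)
    exact h1.clm_comp continuousOn_const
  obtain ⟨C, hC⟩ := bound hcD (isCompact_closedBall x r) hball hK2
  have hm : AEStronglyMeasurable
      (fun y => φ y • (fderiv ℝ F (x, y)).comp (ContinuousLinearMap.inl ℝ E3 E3))
      (volume.restrict S) := hφ.1.smul (meas hx hcD hS)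
  have hb : ∀ᵐ y ∂(volume.restrict S), ∀ z ∈ Metric.closedBall x r,
      ‖φ y • (fderiv ℝ F (z, y)).comp (ContinuousLinearMap.inl ℝ E3 E3)‖ ≤ ‖φ y‖ * C := by
    rw [ae_restrict_iff' hS]
    refine ae_of_all _ fun y hy z hz => ?_
    rw [norm_smul]
    exact mul_le_mul_of_nonneg_left (hC z hz y (hSK hy)) (norm_nonneg _)
  have hbi : Integrable (fun y => ‖φ y‖ * C) (volume.restrict S) := hφ.norm.mul_const C
  refine ⟨hbi.mono' hm ?_, ?_⟩
  · filter_upwards [hb] with y hy
    exact hy x (Metric.mem_closedBall_self hr.le)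
  · refine hasFDerivAt_integral_of_dominated_of_fderiv_le (s := Metric.closedBall x r)
      (bound := fun y => ‖φ y‖ * C) (Metric.closedBall_mem_nhds x hr) ?_ ?_ hm hb hbi ?_
    · filter_upwards [hN.mem_nhds hx] with z hz
      exact (meas hz hF.continuousOn hS).mul hφ.1
    · exact integrable_mul hF.continuousOn hx hS hSK hK2 hφ
    · refine ae_of_all _ fun y z hz => ?_
      have h1 := (hasFDerivAt_left (y := y) hN hF (hball hz)).mul_const (φ y)
      exact h1

theorem pd_Iop (hN : IsOpen N) (hF : ContDiffOn ℝ ∞ F (N ×ˢ Set.univ))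
    (hS : MeasurableSet S) (hSK : S ⊆ K2) (hK2 : IsCompact K2)
    (hφ : Integrable φ (volume.restrict S)) {x : E3} (hx : x ∈ N) (i : Fin 3) :
    pd i (Iop S φ F) x = Iop S φ (pd1 i F) x := by
  obtain ⟨h1, h2⟩ := hasFDerivAt_Iop hN hF hS hSK hK2 hφ hx
  unfold pd
  rw [h2.fderiv, ContinuousLinearMap.integral_apply h1]
  unfold Iop pd1
  refine integral_congr_ae (ae_of_all _ fun y => ?_)
  change φ y * fderiv ℝ F (x, y) (EuclideanSpace.single i 1, 0) = _
  rw [mul_comm]

theorem fderiv_eq_sum (f : E3 → ℝ) (x : E3) :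
    fderiv ℝ f x = ∑ i, pd i f x • (EuclideanSpace.proj i : E3 →L[ℝ] ℝ) := by
  ext v
  have h1 : v = ∑ i, v i • EuclideanSpace.single i (1 : ℝ) := by
    ext j
    simp [Finset.sum_apply, Pi.single_apply]
  conv_lhs => rw [h1]
  rw [map_sum, sum_apply]
  refine Finset.sum_congr rfl fun i _ => ?_
  rw [map_smul, smul_eq_mul, mul_comm]
  rfl

theorem contDiffOn_Iop (hN : IsOpen N) (hS : MeasurableSet S) (hSK : S ⊆ K2)
    (hK2 : IsCompact K2) (hφ : Integrable φ (volume.restrict S)) (n : ℕ) :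
    ∀ F : E3 × E3 → ℝ, ContDiffOn ℝ ∞ F (N ×ˢ Set.univ) → ContDiffOn ℝ n (Iop S φ F) N := by
  induction n with
  | zero =>
    intro F hF
    rw [Nat.cast_zero, contDiffOn_zero]
    intro x hx
    exact (hasFDerivAt_Iop hN hF hS hSK hK2 hφ hx).2.continuousAt.continuousWithinAt
  | succ n ih =>
    intro F hF
    rw [Nat.cast_succ, contDiffOn_succ_iff_fderiv_of_isOpen hN]
    refine ⟨?_, ?_, ?_⟩
    · intro x hx
      exact (hasFDerivAt_Iop hN hF hS hSK hK2 hφ hx).2.differentiableAt.differentiableWithinAt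
    · intro h
      exact absurd h (by simp)
    · have h1 : ContDiffOn ℝ n (fun x => ∑ i, Iop S φ (pd1 i F) x •
          (EuclideanSpace.proj i : E3 →L[ℝ] ℝ)) N := by
        refine ContDiffOn.sum fun i _ => ?_
        exact (ih _ (smooth_pd1 hN hF i)).smul contDiffOn_const
      refine h1.congr fun x hx => ?_
      rw [fderiv_eq_sum]
      refine Finset.sum_congr rfl fun i _ => ?_
      rw [pd_Iop hN hF hS hSK hK2 hφ hx]

/-- The derivative of a sum of products. -/
theorem pd_sum_mul {A B : Fin 3 → E3 → ℝ} {x : E3} (hA : ∀ j, DifferentiableAt ℝ (A j) x)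
    (hB : ∀ j, DifferentiableAt ℝ (B j) x) (i : Fin 3) :
    pd i (fun y => ∑ j, A j y * B j y) x =
      ∑ j, (pd i (A j) x * B j x + A j x * pd i (B j) x) := by
  have h1 : HasFDerivAt (fun y => ∑ j, A j y * B j y)
      (∑ j, (A j x • fderiv ℝ (B j) x + B j x • fderiv ℝ (A j) x)) x :=
    HasFDerivAt.fun_sum fun j _ => (hA j).hasFDerivAt.mul (hB j).hasFDerivAt
  unfold pd
  rw [h1.fderiv, sum_apply]
  refine Finset.sum_congr rfl fun j _ => ?_
  change A j x * fderiv ℝ (B j) x _ + B j x * fderiv ℝ (A j) x _ = _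
  ring

theorem lgrad_eq (g : TensorField) (W f : E3 → ℝ) (y : E3) (i : Fin 3) :
    lgrad g W f y i = ∑ j, prj g y (grad W y) i j * pd j f y := by
  unfold lgrad raise prj grad
  simp only [Fin.sum_univ_three]
  ring

end DUM

theorem DU (hSMO : Stmt_SMO) : Stmt_DU := by
  intro V a b g W hfol c d hac hcd hdb k t0 R C m0 hk v hv t ht ht0
  obtain ⟨N, hN, hKN, hNV, hF0⟩ := hk.smooth t ht ht0
  obtain ⟨F, hFdef⟩ : ∃ F : E3 × E3 → ℝ, F = fun q : E3 × E3 => k t q.1 q.2 := ⟨_, rfl⟩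
  rw [← hFdef] at hF0
  have hS : MeasurableSet (slab V W c d) := measurableSet_slab hfol c d
  have hSK : slab V W c d ⊆ cslab V W c d := slab_subset_cslab c d
  have hK2 : IsCompact (cslab V W c d) := hfol.proper c d hac hdb
  have hreg : ∀ x ∈ V, Reg g W x := fun x hx => hSMO.1 V a b g W hfol x hx
  have hdc : ContinuousOn (dens g W) V := by
    intro x hx
    exact (hSMO.2 g W x (hreg x hx)).2.2.2.2.2.2.2.2.1.continuousAt.continuousWithinAt
  obtain ⟨φ, hφdef⟩ : ∃ φ : E3 → ℝ, φ = fun y => v y * dens g W y := ⟨_, rfl⟩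
  have hφ : Integrable φ (volume.restrict (slab V W c d)) := by
    have : IsFiniteMeasure (volume.restrict (slab V W c d)) :=
      ⟨by rw [Measure.restrict_apply_univ]; exact volume_slab_lt_top hfol hac hdb⟩
    have h1 : Integrable v (volume.restrict (slab V W c d)) := hv.integrable (by norm_num)
    obtain ⟨B, hB⟩ := hK2.exists_bound_of_continuousOn (hdc.mono (cslab_subset c d))
    rw [hφdef]
    refine h1.mul_bdd (c := B) ?_ ?_
    · exact (hdc.mono (slab_subset c d)).aestronglyMeasurable hS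
    · rw [ae_restrict_iff' hS]
      exact ae_of_all _ fun y hy => hB y (hSK hy)
  have hmoll : moll V g W c d k t v = DUM.Iop (slab V W c d) φ F := by
    funext x
    unfold moll DUM.Iop
    rw [hFdef, hφdef]
    refine integral_congr_ae (ae_of_all _ fun y => ?_)
    change k t x y * v y * dens g W y = k t x y * (v y * dens g W y)
    ring
  have hF1 : ∀ j, ContDiffOn ℝ ∞ (DUM.pd1 j F) (N ×ˢ Set.univ) := DUM.smooth_pd1 hN hF0
  have hF2 : ∀ i j, ContDiffOn ℝ ∞ (DUM.pd1 i (DUM.pd1 j F)) (N ×ˢ Set.univ) :=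
    fun i j => DUM.smooth_pd1 hN (hF1 j) i
  refine ⟨?_, ?_⟩
  · rw [hmoll]
    exact (DUM.contDiffOn_Iop hN hS hSK hK2 hφ 2 F hF0).mono (hSK.trans hKN)
  · intro x hx
    have hxN : x ∈ N := hKN (hSK hx)
    have hxV : x ∈ V := slab_subset c d hx
    obtain ⟨A, hA⟩ : ∃ A : Fin 3 → Fin 3 → E3 → ℝ, A = fun i j y =>
        dens g W y * prj g y (grad W y) i j := ⟨_, rfl⟩
    have hAd : ∀ i j, DifferentiableAt ℝ (A i j) x := by
      intro i j
      have h1 := (hSMO.2 g W x (hreg x hxV)).2.2.2.2.2.2.2.2.1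
      have h2 := (hSMO.2 g W x (hreg x hxV)).2.2.2.2.2.2.2.2.2.2.1 i j
      rw [hA]
      exact (h1.mul h2).differentiableAt (by simp)
    have hlap : ∀ f : E3 → ℝ, (∀ j, DifferentiableAt ℝ (pd j f) x) →
        lap g W f x = (∑ i, ∑ j, (pd i (A i j) x * pd j f x + A i j x * pd i (pd j f) x)) /
          dens g W x := by
      intro f hf
      unfold lap ldiv
      congr 1
      refine Finset.sum_congr rfl fun i _ => ?_
      rw [← DUM.pd_sum_mul (hAd i) hf i]
      congr 1
      funext y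
      rw [DUM.lgrad_eq, Finset.mul_sum, hA]
      refine Finset.sum_congr rfl fun j _ => ?_
      ring
    have hpdI : ∀ j, pd j (DUM.Iop (slab V W c d) φ F) =ᶠ[𝓝 x]
        DUM.Iop (slab V W c d) φ (DUM.pd1 j F) := by
      intro j
      filter_upwards [hN.mem_nhds hxN] with z hz
      exact DUM.pd_Iop hN hF0 hS hSK hK2 hφ hz j
    have hpdk : ∀ y j, pd j (fun z => k t z y) =ᶠ[𝓝 x] fun z => DUM.pd1 j F (z, y) := by
      intro y j
      filter_upwards [hN.mem_nhds hxN] with z hz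
      have h1 := DUM.pd_left (y := y) hN hF0 hz j
      rw [← h1, hFdef]
    have e1 : ∀ y, lap g W (fun z => k t z y) x =
        (∑ i, ∑ j, (pd i (A i j) x * DUM.pd1 j F (x, y) +
          A i j x * DUM.pd1 i (DUM.pd1 j F) (x, y))) / dens g W x := by
      intro y
      rw [hlap]
      · congr 1
        refine Finset.sum_congr rfl fun i _ => Finset.sum_congr rfl fun j _ => ?_
        have h1 : pd j (fun z => k t z y) x = DUM.pd1 j F (x, y) := (hpdk y j).eq_of_nhds
        have h2 : pd i (pd j (fun z => k t z y)) x = DUM.pd1 i (DUM.pd1 j F) (x, y) := by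
          rw [← DUM.pd_left hN (hF1 j) hxN i]
          unfold pd
          exact congrArg (fun L : E3 →L[ℝ] ℝ => L (EuclideanSpace.single i 1))
            (hpdk y j).fderiv_eq
        rw [h1, h2]
      · intro j
        exact (DUM.hasFDerivAt_left (y := y) hN (hF1 j) hxN).differentiableAt.congr_of_eventuallyEq
          (hpdk y j)
    have e2 : lap g W (DUM.Iop (slab V W c d) φ F) x =
        (∑ i, ∑ j, (pd i (A i j) x * DUM.Iop (slab V W c d) φ (DUM.pd1 j F) x +
          A i j x * DUM.Iop (slab V W c d) φ (DUM.pd1 i (DUM.pd1 j F)) x)) / dens g W x := by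
      rw [hlap]
      · congr 1
        refine Finset.sum_congr rfl fun i _ => Finset.sum_congr rfl fun j _ => ?_
        have h1 : pd j (DUM.Iop (slab V W c d) φ F) x =
            DUM.Iop (slab V W c d) φ (DUM.pd1 j F) x := (hpdI j).eq_of_nhds
        have h2 : pd i (pd j (DUM.Iop (slab V W c d) φ F)) x =
            DUM.Iop (slab V W c d) φ (DUM.pd1 i (DUM.pd1 j F)) x := by
          rw [← DUM.pd_Iop hN (hF1 j) hS hSK hK2 hφ hxN i]
          unfold pd
          exact congrArg (fun L : E3 →L[ℝ] ℝ => L (EuclideanSpace.single i 1))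
            (hpdI j).fderiv_eq
        rw [h1, h2]
      · intro j
        exact (DUM.hasFDerivAt_Iop hN (hF1 j) hS hSK hK2 hφ
          hxN).2.differentiableAt.congr_of_eventuallyEq (hpdI j)
    have hi1 : ∀ j, Integrable (fun y => DUM.pd1 j F (x, y) * φ y)
        (volume.restrict (slab V W c d)) := fun j =>
      DUM.integrable_mul (hF1 j).continuousOn hxN hS hSK hK2 hφ
    have hi2 : ∀ i j, Integrable (fun y => DUM.pd1 i (DUM.pd1 j F) (x, y) * φ y)
        (volume.restrict (slab V W c d)) := fun i j =>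
      DUM.integrable_mul (hF2 i j).continuousOn hxN hS hSK hK2 hφ
    rw [hmoll, e2]
    have e3 : ∀ y, lap g W (fun z => k t z y) x * v y * dens g W y =
        (∑ i, ∑ j, (pd i (A i j) x * (DUM.pd1 j F (x, y) * φ y) +
          A i j x * (DUM.pd1 i (DUM.pd1 j F) (x, y) * φ y))) / dens g W x := by
      intro y
      rw [e1, mul_assoc, hφdef, div_mul_eq_mul_div, Finset.sum_mul]
      congr 1
      refine Finset.sum_congr rfl fun i _ => ?_
      rw [Finset.sum_mul]
      refine Finset.sum_congr rfl fun j _ => ?_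
      ring
    simp_rw [e3]
    rw [integral_div, integral_finsetSum]
    · congr 1
      refine Finset.sum_congr rfl fun i _ => ?_
      rw [integral_finsetSum]
      · refine Finset.sum_congr rfl fun j _ => ?_
        rw [integral_add ((hi1 j).const_mul _) ((hi2 i j).const_mul _), integral_const_mul,
          integral_const_mul]
        rfl
      · intro j _
        exact ((hi1 j).const_mul _).add ((hi2 i j).const_mul _)
    · intro i _
      exact integrable_finsetSum _ fun j _ => ((hi1 j).const_mul _).add ((hi2 i j).const_mul _)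

end Pool.Agent.PFlow.GB


end

section

/-!
# (ABS) Assembly of the structure `Abs`
-/

open MeasureTheory Filter Topology
open scoped ContDiff ENNReal

namespace Pool.Agent.PFlow

open Pool.Agent.PenroseSph

/-- ABS: the abstract facts. -/
theorem ABS (hSETW : Stmt_SETW) (hABSI : Stmt_ABSI) (hABSM : Stmt_ABSM) (hXWO : Stmt_XWO)
    (hXWI : Stmt_XWI) (hABSX : Stmt_ABSX) (hABSW : Stmt_ABSW) (hABSF : Stmt_ABSF) : Stmt_ABS := by
  intro P
  obtain ⟨B1, hB1, hO⟩ := hXWO P
  obtain ⟨B2, l1, hB2, hl1, hI⟩ := hXWI P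
  refine ⟨max B1 B2, l1, lt_max_of_lt_left hB1, hl1, fun D hD hl => ?_⟩
  obtain ⟨-, -, -, -, -, -, hmw, -⟩ := hSETW P D hD
  obtain ⟨h1, h2, h3, h4, h5, -, h7, h8⟩ := hABSI P D hD
  have hl0 : (0 : ℝ) ≤ D.l := by linarith
  exact
    { measOmega := by
        have h1 : IsOpen {x : E3 | 1 / D.R < ‖x‖} := isOpen_lt continuous_const continuous_norm
        have h2 : IsOpen {x : E3 | ‖x‖ < D.R} := isOpen_lt continuous_norm continuous_const
        exact (h1.inter h2).measurableSet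
      vol_nonneg := fun x => Real.sqrt_nonneg _
      X_nonneg := fun x => Real.sqrt_nonneg _
      D_nonneg := h7
      meas_w := hmw
      int_vol := h1
      int_X := h2
      meas_X := h8
      int_Phi := h3
      int_D := h4
      int_S := h5
      mi := hABSM P D hD
      xid := hABSX P D hD
      window := fun s hs hs' => (hO D hD s hs hs').trans (le_max_left _ _)
      inner := by
        intro ψ A hψ hc hs hA
        refine (hI D hD hl ψ A hψ hc hs hA).trans ?_
        have hA0 : 0 ≤ A := (abs_nonneg _).trans (hA 0).1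
        refine mul_le_mul_of_nonneg_right ?_ hA0
        exact mul_le_mul_of_nonneg_right (le_max_right _ _) (Real.rpow_nonneg hl0 _)
      willmore := hABSW P D hD
      flux := hABSF P D hD }

end Pool.Agent.PFlow


end

section

/-!
# Module WGT, first part: dominated convergence and pointwise bounds
-/

set_option autoImplicit false

open MeasureTheory Filter Topology
open scoped ContDiff ENNReal

namespace Pool.Agent.PFlow

open Pool.Agent.PenroseSph

namespace EWGT

/-! ### Generalised dominated convergence -/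

lemma ui_pow {μ : Measure E3} {u : ℕ → E3 → ℝ} {m : ℕ} (hm : 0 < m)
    (h : UnifIntegrable u m μ) : UnifIntegrable (fun n x => u n x ^ m) 1 μ := by
  intro ε hε
  have hmr : (0 : ℝ) < m := by exact_mod_cast hm
  obtain ⟨δ, hδ, hu⟩ := h (Real.rpow_pos_of_pos hε (1 / (m : ℝ)))
  refine ⟨δ, hδ, fun n s hs hμ => ?_⟩
  have h1 := hu n s hs hμ
  have h0 : (fun x => ‖s.indicator (fun x => u n x ^ m) x‖) =
      fun x => ‖s.indicator (u n) x‖ ^ (m : ℝ) := by
    funext x
    by_cases hx : x ∈ s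
    · simp [hx]
    · simp [hx, hm.ne']
  have h2 : eLpNorm (s.indicator (fun x => u n x ^ m)) 1 μ =
      eLpNorm (s.indicator (u n)) m μ ^ (m : ℝ) := by
    rw [← eLpNorm_norm, h0, eLpNorm_norm_rpow _ hmr]
    norm_num
  rw [h2]
  calc eLpNorm (s.indicator (u n)) m μ ^ (m : ℝ)
      ≤ (ENNReal.ofReal (ε ^ (1 / (m : ℝ)))) ^ (m : ℝ) :=
        ENNReal.rpow_le_rpow h1 hmr.le
    _ = ENNReal.ofReal ε := by
        rw [ENNReal.ofReal_rpow_of_nonneg (Real.rpow_nonneg hε.le _) hmr.le]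
        congr 1
        rw [← Real.rpow_mul hε.le, one_div, inv_mul_cancel₀ hmr.ne', Real.rpow_one]

lemma ui_dom {μ : Measure E3} {u v : ℕ → E3 → ℝ} (h : UnifIntegrable u 1 μ)
    (hv : ∀ n, ∀ᵐ x ∂μ, |v n x| ≤ |u n x|) : UnifIntegrable v 1 μ := by
  intro ε hε
  obtain ⟨δ, hδ, hu⟩ := h hε
  refine ⟨δ, hδ, fun n s hs hμ => le_trans (eLpNorm_mono_ae ?_) (hu n s hs hμ)⟩
  filter_upwards [hv n] with x hx
  by_cases hxs : x ∈ s <;> simp [hxs, hx]

lemma ui_sum {ι : Type} {μ : Measure E3} (s : Finset ι) {u : ι → ℕ → E3 → ℝ}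
    (h : ∀ i, UnifIntegrable (u i) 1 μ) (hm : ∀ i n, AEStronglyMeasurable (u i n) μ) :
    UnifIntegrable (fun n x => ∑ i ∈ s, u i n x) 1 μ := by
  classical
  induction s using Finset.induction_on with
  | empty =>
    simp only [Finset.sum_empty]
    exact unifIntegrable_const le_rfl ENNReal.one_ne_top (by simp)
  | insert a s ha ih =>
    have : (fun n x => ∑ i ∈ insert a s, u i n x) = u a + fun n x => ∑ i ∈ s, u i n x := by
      funext n x
      rw [Finset.sum_insert ha]
      rfl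
    rw [this]
    exact (h a).add ih le_rfl (hm a) (fun n => Finset.aestronglyMeasurable_fun_sum _ (fun i _ => hm i n))

/-- a subsequence converging almost everywhere, for finitely many sequences -/
lemma sub_ae {ι : Type} {μ : Measure E3} (s : Finset ι) (u : ι → ℕ → E3 → ℝ) (g : ι → E3 → ℝ)
    (h : ∀ i, TendstoInMeasure μ (u i) atTop (g i)) :
    ∃ ns : ℕ → ℕ, StrictMono ns ∧ ∀ i ∈ s, ∀ᵐ x ∂μ,
      Tendsto (fun k => u i (ns k) x) atTop (𝓝 (g i x)) := by
  classical
  induction s using Finset.induction_on with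
  | empty => exact ⟨id, strictMono_id, by simp⟩
  | insert a s ha ih =>
    obtain ⟨ns, hns, hs⟩ := ih
    have h1 : TendstoInMeasure μ (fun k => u a (ns k)) atTop (g a) :=
      fun ε hε => (h a ε hε).comp hns.tendsto_atTop
    obtain ⟨ms, hms, h2⟩ := h1.exists_seq_tendsto_ae
    refine ⟨ns ∘ ms, hns.comp hms, fun i hi => ?_⟩
    rw [Finset.mem_insert] at hi
    rcases hi with rfl | hi
    · exact h2
    · filter_upwards [hs i hi] with x hx
      exact hx.comp hms.tendsto_atTop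

/-- The size of a jet. -/
def jet (p : Cov) (m : Bil) : ℝ := 1 + ∑ i, p i ^ 4 + msq m

lemma jet_nonneg (p : Cov) (m : Bil) : 0 ≤ jet p m := by
  unfold jet msq
  positivity

lemma jet_int {μ : Measure E3} [IsFiniteMeasure μ] {p : E3 → Cov} {m : E3 → Bil}
    (h1 : ∀ i, MemLp (fun x => p x i) 4 μ) (h2 : ∀ i j, MemLp (fun x => m x i j) 2 μ) :
    Integrable (fun x => jet (p x) (m x)) μ := by
  refine ((integrable_const 1).add ?_).add ?_
  · refine integrable_finsetSum _ fun i _ => ?_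
    have h3 := (h1 i).integrable_norm_pow (p := 4) (by norm_num)
    refine h3.congr (Eventually.of_forall fun x => ?_)
    simp only [Real.norm_eq_abs]
    exact Even.pow_abs (by decide) _
  · exact integrable_finsetSum _ fun i _ => integrable_finsetSum _ fun j _ =>
      (h2 i j).integrable_sq

/-- Generalised dominated convergence. -/
theorem gen4 {μ : Measure E3} [IsFiniteMeasure μ] {P : ℕ → E3 → Cov} {N : ℕ → E3 → Bil}
    {G : E3 → Cov} {M : E3 → Bil}
    (hP : ∀ n i, MemLp (fun x => P n x i) 4 μ) (hN : ∀ n i j, MemLp (fun x => N n x i j) 2 μ)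
    (hG : ∀ i, MemLp (fun x => G x i) 4 μ) (hM : ∀ i j, MemLp (fun x => M x i j) 2 μ)
    (cP : ∀ i, Tendsto (fun n => eLpNorm (fun x => P n x i - G x i) 4 μ) atTop (𝓝 0))
    (cN : ∀ i j, Tendsto (fun n => eLpNorm (fun x => N n x i j - M x i j) 2 μ) atTop (𝓝 0))
    (aP : ∀ᵐ x ∂μ, ∀ i, Tendsto (fun n => P n x i) atTop (𝓝 (G x i)))
    (aN : ∀ᵐ x ∂μ, ∀ i j, Tendsto (fun n => N n x i j) atTop (𝓝 (M x i j)))
    (F : ℕ → E3 → ℝ) (F' : E3 → ℝ) (C : ℝ)
    (hb : ∀ n, ∀ᵐ x ∂μ, |F n x| ≤ C * jet (P n x) (N n x))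
    (hlim : ∀ᵐ x ∂μ, Tendsto (fun n => F n x) atTop (𝓝 (F' x)))
    (hm : ∀ n, AEStronglyMeasurable (F n) μ) :
    Integrable F' μ ∧ Tendsto (fun n => ∫ x, F n x ∂μ) atTop (𝓝 (∫ x, F' x ∂μ)) := by
  have hmG : AEStronglyMeasurable F' μ := aestronglyMeasurable_of_tendsto_ae atTop hm hlim
  have hIG : Integrable F' μ := by
    refine Integrable.mono' ((jet_int hG hM).const_mul C) hmG ?_
    filter_upwards [aP, aN, hlim, ae_all_iff.2 hb] with x h1 h2 h3 h4
    have h5 : Tendsto (fun n => C * jet (P n x) (N n x)) atTop (𝓝 (C * jet (G x) (M x))) := by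
      unfold jet msq
      refine Tendsto.const_mul _ ((tendsto_const_nhds.add ?_).add ?_)
      · exact tendsto_finsetSum _ fun i _ => (h1 i).pow 4
      · exact tendsto_finsetSum _ fun i _ => tendsto_finsetSum _ fun j _ => (h2 i j).pow 2
    exact le_of_tendsto_of_tendsto' h3.norm h5 fun n => h4 n
  refine ⟨hIG, ?_⟩
  have huP : ∀ i, UnifIntegrable (fun n x => P n x i ^ 4) 1 μ := fun i =>
    ui_pow (m := 4) (by norm_num) (by
      exact_mod_cast unifIntegrable_of_tendsto_Lp (by norm_num) (by norm_num)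
        (fun n => hP n i) (hG i) (cP i))
  have huN : ∀ i j, UnifIntegrable (fun n x => N n x i j ^ 2) 1 μ := fun i j =>
    ui_pow (m := 2) (by norm_num) (by
      exact_mod_cast unifIntegrable_of_tendsto_Lp (by norm_num) (by norm_num)
        (fun n => hN n i j) (hM i j) (cN i j))
  have h1 : UnifIntegrable (fun n x => ∑ i, P n x i ^ 4) 1 μ :=
    ui_sum Finset.univ huP (fun i n => ((hP n i).1.pow 4))
  have h2 : UnifIntegrable (fun n x => msq (N n x)) 1 μ :=
    ui_sum Finset.univ (fun i => ui_sum Finset.univ (huN i) (fun j n => ((hN n i j).1.pow 2)))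
      (fun i n => Finset.aestronglyMeasurable_fun_sum _ fun j _ => (hN n i j).1.pow 2)
  have hmv : ∀ n, AEStronglyMeasurable (fun x => ∑ i, P n x i ^ 4) μ := fun n =>
    Finset.aestronglyMeasurable_fun_sum _ fun i _ => (hP n i).1.pow 4
  have hmm : ∀ n, AEStronglyMeasurable (fun x => msq (N n x)) μ := fun n =>
    Finset.aestronglyMeasurable_fun_sum _ fun i _ =>
      Finset.aestronglyMeasurable_fun_sum _ fun j _ => (hN n i j).1.pow 2
  have h3 : UnifIntegrable (fun (_ : ℕ) (_ : E3) => (1 : ℝ)) 1 μ :=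
    unifIntegrable_const le_rfl ENNReal.one_ne_top (memLp_const 1)
  have h4 := (h3.add h1 le_rfl (fun _ => aestronglyMeasurable_const) hmv).add h2 le_rfl
    (fun n => aestronglyMeasurable_const.add (hmv n)) hmm
  have h5 : UnifIntegrable (fun n x => C * jet (P n x) (N n x)) 1 μ := by
    intro ε hε
    obtain ⟨δ, hδ, hu⟩ := h4 (show 0 < ε / (|C| + 1) by positivity)
    refine ⟨δ, hδ, fun n s hs hμ => ?_⟩
    have e1 := hu n s hs hμ
    have e2 : (s.indicator fun x => C * jet (P n x) (N n x)) =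
        C • (s.indicator fun x => (1 + ∑ i, P n x i ^ 4 + msq (N n x))) := by
      funext x
      by_cases hx : x ∈ s <;> simp [hx, jet]
    rw [e2, eLpNorm_const_smul]
    refine (mul_le_mul_right e1 _).trans ?_
    rw [Real.enorm_eq_ofReal_abs, ← ENNReal.ofReal_mul (abs_nonneg _)]
    apply ENNReal.ofReal_le_ofReal
    rw [mul_div_assoc', div_le_iff₀ (by positivity)]
    nlinarith [abs_nonneg C]
  have h6 : UnifIntegrable F 1 μ := by
    refine ui_dom h5 fun n => ?_
    filter_upwards [hb n] with x hx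
    exact hx.trans (le_abs_self _)
  have h7 := tendsto_Lp_finite_of_tendsto_ae le_rfl ENNReal.one_ne_top hm
    (memLp_one_iff_integrable.2 hIG) h6 hlim
  refine tendsto_integral_of_L1' _ hIG.1 (Eventually.of_forall fun n => ?_) h7
  refine Integrable.mono' ((jet_int (hP n) (hN n)).const_mul C) (hm n) (hb n)

/-! ### Linear algebra -/

lemma ev_nonneg {A : Bil} (hA : A.PosDef) (p : Cov) : 0 ≤ ev A p p := by
  rw [MCT.ev_eq]
  have h := hA.posSemidef.dotProduct_mulVec_nonneg p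
  simpa using h

lemma inv_ell {A : Bil} (hA : A.PosDef) {c : ℝ} (hc : 0 < c)
    (h : ∀ v : Cov, ev A v v ≤ c * ∑ i, v i ^ 2) (D : Cov) : ∑ i, D i ^ 2 ≤ c * ev A⁻¹ D D := by
  have hdet : IsUnit A.det := hA.det_pos.ne'.isUnit
  set u : Cov := A⁻¹.mulVec D with hu
  have hAu : A.mulVec u = D := by
    rw [hu, Matrix.mulVec_mulVec, Matrix.mul_nonsing_inv A hdet, Matrix.one_mulVec]
  have hsym : A.transpose = A := by
    have := hA.isHermitian
    rwa [Matrix.IsHermitian, Matrix.conjTranspose_eq_transpose_of_trivial] at this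
  have h1 : dotProduct u (A.mulVec D) = dotProduct D D := by
    rw [Matrix.dotProduct_mulVec, ← Matrix.mulVec_transpose, hsym, hAu]
  have h2 := ev_nonneg hA (u - (1 / c) • D)
  rw [MCT.ev_eq, Matrix.mulVec_sub, Matrix.mulVec_smul, hAu, sub_dotProduct, dotProduct_sub,
    dotProduct_sub, smul_dotProduct, smul_dotProduct, dotProduct_smul, dotProduct_smul, h1] at h2
  have h3 := h D
  rw [MCT.ev_eq] at h3
  have h4 : ∑ i, D i ^ 2 = dotProduct D D := by
    unfold dotProduct
    exact Finset.sum_congr rfl fun i _ => sq _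
  rw [MCT.ev_eq, ← hu, h4]
  rw [h4] at h3
  rw [dotProduct_comm u D] at h2
  simp only [smul_eq_mul] at h2
  set a := dotProduct D u
  set b := dotProduct D D
  set e := dotProduct D (A.mulVec D)
  have h5 : (1 / c) * ((1 / c) * e) ≤ (1 / c) * b := by
    have : (1 / c) * e ≤ b := by
      rw [one_div, inv_mul_le_iff₀ hc]
      exact h3
    exact mul_le_mul_of_nonneg_left this (by positivity)
  have h6 : 0 ≤ a - (1 / c) * b := by linarith
  have h7 : c * (a - 1 / c * b) = c * a - b := by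
    field_simp
  have h8 : 0 ≤ c * (a - 1 / c * b) := mul_nonneg hc.le h6
  linarith

lemma det_lower {A : Bil} (hA : A.PosDef) {c : ℝ}
    (h : ∀ v : Cov, (∑ i, v i ^ 2) ≤ c * ev A v v) : 1 ≤ c ^ 3 * A.det := by
  have hH := hA.isHermitian
  have h1 : ∀ i, 1 ≤ c * hH.eigenvalues i := by
    intro i
    have e1 := hH.eigenvalues_eq i
    have e2 := h (fun j => hH.eigenvectorBasis i j)
    rw [MCT.ev_eq] at e2
    have e3 : ∑ j, (hH.eigenvectorBasis i j) ^ 2 = 1 := by
      have e4 := hH.eigenvectorBasis.orthonormal.1 i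
      have e5 := EuclideanSpace.norm_sq_eq (hH.eigenvectorBasis i)
      rw [e4] at e5
      simp only [Real.norm_eq_abs, sq_abs] at e5
      rw [← e5]
      norm_num
    rw [e3] at e2
    rw [e1]
    simpa using e2
  have h2 : A.det = ∏ i, hH.eigenvalues i := by
    have := hH.det_eq_prod_eigenvalues
    simpa using this
  rw [h2]
  have h3 : c ^ 3 * ∏ i, hH.eigenvalues i = ∏ i, (c * hH.eigenvalues i) := by
    rw [Finset.prod_mul_distrib]
    simp
  rw [h3]
  rw [Fin.prod_univ_three]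
  exact one_le_mul_of_one_le_of_one_le (one_le_mul_of_one_le_of_one_le (h1 0) (h1 1)) (h1 2)

/-! ### The regularised weight -/

/-- The regularised squared length. -/
noncomputable def qd (d : ℝ) (g : TensorField) (x : E3) (p : Cov) : ℝ := ev (g x)⁻¹ p p + d ^ 2

/-- The regularised root of the weight. -/
noncomputable def fr (ε d : ℝ) (g : TensorField) (x : E3) (s : ℝ) (p : Cov) : ℝ :=
  Real.exp (s / (2 - ε) / 2) * Real.sqrt (Real.sqrt (qd d g x p))

/-- Its logarithmic gradient, up to the factor `1/2`. -/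
noncomputable def Dr (ε d : ℝ) (g : TensorField) (x : E3) (p : Cov) (M : Bil) : Cov := fun k =>
  1 / (2 - ε) * p k + (∑ j, cHess g x p M k j * raise g x p j) / qd d g x p

/-- The squared length of the gradient. -/
noncomputable def FF (ε d : ℝ) (g : TensorField) (x : E3) (s : ℝ) (p : Cov) (M : Bil) : ℝ :=
  ∑ k, (fr ε d g x s p / 2 * Dr ε d g x p M k) ^ 2

lemma qd_pos {d : ℝ} {g : TensorField} {x : E3} (hg : (g x).PosDef) (hd : 0 < d) (p : Cov) :
    0 < qd d g x p := by
  unfold qd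
  have := ev_nonneg hg.inv p
  positivity

section Smooth

variable {U : Set E3} {g : TensorField} {v : E3 → ℝ} {x : E3}

lemma q_smooth (hU : IsOpen U) (hg : MetricOn U g) (hv : ContDiff ℝ ∞ v) (hx : x ∈ U) :
    ContDiffAt ℝ ∞ (fun y => ev (g y)⁻¹ (grad v y) (grad v y)) x := by
  unfold ev
  refine ContDiffAt.sum fun i _ => ContDiffAt.sum fun j _ => ?_
  exact ((MCF.inv_smooth hU hg hx i j).mul (MCF.pd_smooth hv.contDiffAt i)).mul
    (MCF.pd_smooth hv.contDiffAt j)

lemma fr_smooth (ε : ℝ) {d : ℝ} (hd : 0 < d) (hU : IsOpen U) (hg : MetricOn U g)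
    (hv : ContDiff ℝ ∞ v) (hx : x ∈ U) :
    ContDiffAt ℝ ∞ (fun y => fr ε d g y (v y) (grad v y)) x := by
  have h0 := qd_pos (hg.posDef x hx) hd (grad v x)
  have h1 : ContDiffAt ℝ ∞ (fun y => qd d g y (grad v y)) x :=
    (q_smooth hU hg hv hx).add contDiffAt_const
  unfold fr
  refine ContDiffAt.mul ?_ ((h1.sqrt h0.ne').sqrt (Real.sqrt_pos.2 h0).ne')
  exact ((hv.contDiffAt.div_const _).div_const _).exp

lemma pd_fr (hGRADL : Stmt_GRADL) (ε : ℝ) {d : ℝ} (hd : 0 < d) (hU : IsOpen U)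
    (hg : MetricOn U g) (hv : ContDiff ℝ ∞ v) (hx : x ∈ U) (k : Fin 3) :
    pd k (fun y => fr ε d g y (v y) (grad v y)) x
      = fr ε d g x (v x) (grad v x) / 2 * Dr ε d g x (grad v x) (hess2 v x) k := by
  have h0 := qd_pos (hg.posDef x hx) hd (grad v x)
  set q : E3 → ℝ := fun y => ev (g y)⁻¹ (grad v y) (grad v y) with hq
  have hqd : ∀ y, qd d g y (grad v y) = q y + d ^ 2 := fun y => rfl
  have hqx : 0 < q x + d ^ 2 := h0
  have hs : 0 < Real.sqrt (q x + d ^ 2) := Real.sqrt_pos.2 hqx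
  have hr : 0 < Real.sqrt (Real.sqrt (q x + d ^ 2)) := Real.sqrt_pos.2 hs
  have d1 : HasFDerivAt q (fderiv ℝ q x) x :=
    ((q_smooth hU hg hv hx).differentiableAt (by simp)).hasFDerivAt
  have d2 : HasFDerivAt (fun y => q y + d ^ 2) (fderiv ℝ q x) x := d1.add_const _
  have d3 := (d2.sqrt hqx.ne').sqrt hs.ne'
  have d4 : HasFDerivAt v (fderiv ℝ v x) x :=
    ((hv.differentiable (by simp)) x).hasFDerivAt
  have d5 : HasFDerivAt (fun y => v y / (2 - ε) / 2)
      ((1 / (2 - ε) / 2) • fderiv ℝ v x) x := by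
    have := d4.const_mul (1 / (2 - ε) / 2)
    refine this.congr_of_eventuallyEq (Eventually.of_forall fun y => ?_)
    simp only
    ring
  have d6 := d5.exp.mul d3
  have d7 : pd k (fun y => fr ε d g y (v y) (grad v y)) x
      = (Real.exp (v x / (2 - ε) / 2) • (1 / (2 * √√(q x + d ^ 2))) •
          (1 / (2 * √(q x + d ^ 2))) • fderiv ℝ q x +
        √√(q x + d ^ 2) • Real.exp (v x / (2 - ε) / 2) • (1 / (2 - ε) / 2) • fderiv ℝ v x)
          (EuclideanSpace.single k 1) := by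
    unfold pd
    exact congrArg (fun L : E3 →L[ℝ] ℝ => L (EuclideanSpace.single k 1)) d6.fderiv
  have hG : pd k q x = 2 * ∑ j, cHess g x (grad v x) (hess2 v x) k j * raise g x (grad v x) j := by
    refine hGRADL g v x ?_ (hg.posDef x hx).det_pos.ne' (fun i j => ?_)
      (hv.contDiffAt.of_le ENat.LEInfty.out) k
    · filter_upwards [hU.mem_nhds hx] with y hy
      have := (hg.posDef y hy).isHermitian
      rwa [Matrix.IsHermitian, Matrix.conjTranspose_eq_transpose_of_trivial] at this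
    · exact (MCF.g_smooth hU hg hx i j).of_le (by simp)
  have hG' : fderiv ℝ q x (EuclideanSpace.single k 1)
      = 2 * ∑ j, cHess g x (grad v x) (hess2 v x) k j * raise g x (grad v x) j := hG
  have hv' : fderiv ℝ v x (EuclideanSpace.single k 1) = grad v x k := rfl
  rw [d7]
  simp only [add_apply, smul_apply, smul_eq_mul, hG', hv']
  unfold fr Dr
  rw [hqd x]
  have hss : Real.sqrt (Real.sqrt (q x + d ^ 2)) * Real.sqrt (Real.sqrt (q x + d ^ 2))
      = Real.sqrt (q x + d ^ 2) := Real.mul_self_sqrt hs.le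
  have hqq : Real.sqrt (q x + d ^ 2) * Real.sqrt (q x + d ^ 2) = q x + d ^ 2 :=
    Real.mul_self_sqrt hqx.le
  set S := Real.sqrt (q x + d ^ 2)
  set R := Real.sqrt S
  set E := Real.exp (v x / (2 - ε) / 2)
  set H := ∑ j, cHess g x (grad v x) (hess2 v x) k j * raise g x (grad v x) j
  rw [← hqq]
  have hR : R ≠ 0 := hr.ne'
  have hS : S = R * R := hss.symm
  rw [hS]
  field_simp
  ring

end Smooth

lemma norm_fderiv_le (f : E3 → ℝ) (x : E3) : ‖fderiv ℝ f x‖ ^ 2 ≤ ∑ k, pd k f x ^ 2 := by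
  have h1 : ‖fderiv ℝ f x‖ ≤ Real.sqrt (∑ k, pd k f x ^ 2) := by
    refine ContinuousLinearMap.opNorm_le_bound _ (Real.sqrt_nonneg _) fun v => ?_
    have h2 : fderiv ℝ f x v = ∑ k, v k * pd k f x := by
      conv_lhs => rw [← (EuclideanSpace.basisFun (Fin 3) ℝ).sum_repr v]
      rw [map_sum]
      refine Finset.sum_congr rfl fun k _ => ?_
      rw [map_smul, EuclideanSpace.basisFun_repr, EuclideanSpace.basisFun_apply, smul_eq_mul]
      rfl
    rw [h2, Real.norm_eq_abs]
    refine abs_le_of_sq_le_sq ?_ (by positivity)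
    rw [mul_pow, Real.sq_sqrt (Finset.sum_nonneg fun _ _ => sq_nonneg _),
      EuclideanSpace.norm_sq_eq]
    simp only [Real.norm_eq_abs, sq_abs]
    rw [mul_comm (∑ k, pd k f x ^ 2)]
    exact Finset.sum_mul_sq_le_sq_mul_sq _ _ _
  calc ‖fderiv ℝ f x‖ ^ 2 ≤ Real.sqrt (∑ k, pd k f x ^ 2) ^ 2 :=
        pow_le_pow_left₀ (norm_nonneg _) h1 2
    _ = _ := Real.sq_sqrt (Finset.sum_nonneg fun _ _ => sq_nonneg _)

/-! ### Pointwise bounds -/

lemma vsq_nonneg (p : Cov) : 0 ≤ vsq p := Finset.sum_nonneg fun _ _ => sq_nonneg _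

lemma msq_nonneg (M : Bil) : 0 ≤ msq M :=
  Finset.sum_nonneg fun _ _ => Finset.sum_nonneg fun _ _ => sq_nonneg _

lemma one_le_jet (p : Cov) (M : Bil) : 1 ≤ jet p M := by
  unfold jet
  have h1 : 0 ≤ ∑ i, p i ^ 4 := Finset.sum_nonneg fun i _ => by positivity
  have h2 := msq_nonneg M
  linarith

lemma msq_le_jet (p : Cov) (M : Bil) : msq M ≤ jet p M := by
  unfold jet
  have h1 : 0 ≤ ∑ i, p i ^ 4 := Finset.sum_nonneg fun i _ => by positivity
  linarith

lemma vsq_sq_le_jet (p : Cov) (M : Bil) : vsq p ^ 2 ≤ 3 * jet p M := by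
  have h2 := msq_nonneg M
  unfold jet vsq
  simp only [Fin.sum_univ_three]
  nlinarith [sq_nonneg (p 0 ^ 2 - p 1 ^ 2), sq_nonneg (p 0 ^ 2 - p 2 ^ 2),
    sq_nonneg (p 1 ^ 2 - p 2 ^ 2)]

lemma vsq_le_jet (p : Cov) (M : Bil) : vsq p ≤ 3 * jet p M := by
  have h1 := vsq_sq_le_jet p M
  have h2 := one_le_jet p M
  nlinarith [sq_nonneg (vsq p - 1), h1, h2]

lemma H_le (g : TensorField) (x : E3) (p : Cov) (M : Bil) :
    ∑ k, (∑ j, cHess g x p M k j * raise g x p j) ^ 2
      ≤ msq (cHess g x p M) * vsq (raise g x p) := by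
  unfold msq vsq
  rw [Finset.sum_mul]
  exact Finset.sum_le_sum fun k _ => Finset.sum_mul_sq_le_sq_mul_sq _ _ _

lemma msq_cHess_le {g : TensorField} {x : E3} {C : ℝ}
    (hΓ : ∀ k i j, |christoffel g k i j x| ≤ C) (p : Cov) (M : Bil) :
    msq (cHess g x p M) ≤ 2 * msq M + 54 * C ^ 2 * vsq p := by
  have h1 : ∀ i j, (cHess g x p M i j) ^ 2 ≤ 2 * M i j ^ 2 + 6 * C ^ 2 * vsq p := by
    intro i j
    have e1 : cHess g x p M i j = M i j - ∑ k, christoffel g k i j x * p k := rfl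
    have e2 : (∑ k, christoffel g k i j x * p k) ^ 2 ≤ 3 * C ^ 2 * vsq p := by
      refine (Finset.sum_mul_sq_le_sq_mul_sq _ _ _).trans ?_
      refine mul_le_mul_of_nonneg_right ?_ (vsq_nonneg p)
      have e3 : ∀ k, christoffel g k i j x ^ 2 ≤ C ^ 2 := fun k => by
        rw [← sq_abs]
        exact pow_le_pow_left₀ (abs_nonneg _) (hΓ k i j) 2
      calc ∑ k, christoffel g k i j x ^ 2 ≤ ∑ _k : Fin 3, C ^ 2 :=
            Finset.sum_le_sum fun k _ => e3 k
        _ = 3 * C ^ 2 := by simp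
    rw [e1]
    nlinarith [sq_nonneg (M i j + ∑ k, christoffel g k i j x * p k)]
  calc msq (cHess g x p M) ≤ ∑ i, ∑ j, (2 * M i j ^ 2 + 6 * C ^ 2 * vsq p) :=
        Finset.sum_le_sum fun i _ => Finset.sum_le_sum fun j _ => h1 i j
    _ = 2 * msq M + 54 * C ^ 2 * vsq p := by
        unfold msq
        simp only [Fin.sum_univ_three]
        ring

lemma fr_sq {ε d : ℝ} {g : TensorField} {x : E3} (s : ℝ) (p : Cov) :
    fr ε d g x s p ^ 2 = Real.exp (s / (2 - ε)) * Real.sqrt (qd d g x p) := by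
  unfold fr
  rw [mul_pow, Real.sq_sqrt (Real.sqrt_nonneg _), ← Real.exp_nat_mul]
  congr 2
  push_cast
  ring

lemma fr_nonneg {ε d : ℝ} {g : TensorField} {x : E3} (s : ℝ) (p : Cov) :
    0 ≤ fr ε d g x s p := by
  unfold fr
  positivity

lemma FF_eq {ε d : ℝ} {g : TensorField} {x : E3} (s : ℝ) (p : Cov) (M : Bil) :
    FF ε d g x s p M
      = Real.exp (s / (2 - ε)) * (Real.sqrt (qd d g x p) * ∑ k, Dr ε d g x p M k ^ 2) / 4 := by
  unfold FF
  simp only [mul_pow, div_pow, fr_sq]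
  rw [← Finset.mul_sum]
  ring

lemma FF_nonneg {ε d : ℝ} {g : TensorField} {x : E3} (s : ℝ) (p : Cov) (M : Bil) :
    0 ≤ FF ε d g x s p M := Finset.sum_nonneg fun _ _ => sq_nonneg _

/-- The constants at a point. -/
structure Pc (C : ℝ) (g : TensorField) (x : E3) : Prop where
  one : 1 ≤ C
  q : ∀ p, vsq p / C ≤ ev (g x)⁻¹ p p ∧ ev (g x)⁻¹ p p ≤ C * vsq p
  chr : ∀ k i j, |christoffel g k i j x| ≤ C
  inv : ∀ i j, |(g x)⁻¹ i j| ≤ C

lemma qd_le {C d : ℝ} {g : TensorField} {x : E3} (H : Pc C g x) (p : Cov) (M : Bil) :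
    qd d g x p ≤ (d ^ 2 + 3 * C) * jet p M := by
  unfold qd
  have h1 := (H.q p).2
  have h2 := vsq_le_jet p M
  have h3 := one_le_jet p M
  have h4 : C * vsq p ≤ C * (3 * jet p M) :=
    mul_le_mul_of_nonneg_left h2 (by linarith [H.one])
  nlinarith [sq_nonneg d]

lemma sqrt_le_one_add {y : ℝ} (hy : 0 ≤ y) : Real.sqrt y ≤ 1 + y :=
  Real.sqrt_le_iff.2 ⟨by positivity, by nlinarith⟩

lemma FF_le {ε d C E : ℝ} {g : TensorField} {x : E3} (hε0 : 0 < ε) (hε : ε ≤ 1 / 2)
    (hd : 0 < d) (hg : (g x).PosDef) (H : Pc C g x) {s : ℝ}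
    (hs : Real.exp (s / (2 - ε)) ≤ E) (p : Cov) (M : Bil) :
    |FF ε d g x s p M| ≤ E / 4 * (2 * (3 * (1 + d ^ 2) + 3 * C)
      + 18 * C ^ 3 / d * (2 + 162 * C ^ 2)) * jet p M := by
  rw [abs_of_nonneg (FF_nonneg s p M), FF_eq]
  have hC := H.one
  have hC0 : 0 < C := by linarith
  have hq0 := qd_pos hg hd p
  set S := Real.sqrt (qd d g x p) with hS
  have hS0 : 0 < S := Real.sqrt_pos.2 hq0
  have hSS : S ^ 2 = qd d g x p := Real.sq_sqrt hq0.le
  have hev := ev_nonneg hg.inv p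
  have hdS : d ≤ S := by
    rw [hS]
    apply Real.le_sqrt_of_sq_le
    unfold qd
    linarith
  have hv := vsq_nonneg p
  have hj := one_le_jet p M
  set Hs := ∑ k, (∑ j, cHess g x p M k j * raise g x p j) ^ 2 with hHs
  have hD : ∑ k, Dr ε d g x p M k ^ 2 ≤ 2 * vsq p + 2 * (Hs / S ^ 4) := by
    have e0 : 2 * vsq p + 2 * (Hs / S ^ 4) = ∑ k, (2 * p k ^ 2
        + 2 * ((∑ j, cHess g x p M k j * raise g x p j) ^ 2 / S ^ 4)) := by
      rw [Finset.sum_add_distrib, ← Finset.mul_sum, ← Finset.mul_sum, ← Finset.sum_div]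
      rfl
    rw [e0]
    refine Finset.sum_le_sum fun k _ => ?_
    unfold Dr
    rw [← hSS]
    set a := ∑ j, cHess g x p M k j * raise g x p j
    have e1 : (a / S ^ 2) ^ 2 = a ^ 2 / S ^ 4 := by
      rw [div_pow, ← pow_mul]
    rw [← e1]
    have e2 : (1 / (2 - ε) * p k) ^ 2 ≤ p k ^ 2 := by
      rw [mul_pow]
      have e3 : (1 / (2 - ε)) ^ 2 ≤ 1 := by
        have e4 : 0 ≤ 1 / (2 - ε) := by
          apply div_nonneg one_pos.le
          linarith
        have e5 : 1 / (2 - ε) ≤ 1 := by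
          rw [div_le_one (by linarith)]
          linarith
        exact pow_le_one₀ e4 e5
      nlinarith [sq_nonneg (p k)]
    nlinarith [sq_nonneg (1 / (2 - ε) * p k - a / S ^ 2)]
  have hHs0 : 0 ≤ Hs := Finset.sum_nonneg fun _ _ => sq_nonneg _
  have hHle : Hs ≤ (2 * msq M + 54 * C ^ 2 * vsq p) * (9 * C ^ 3 * S ^ 2) := by
    refine (H_le g x p M).trans ?_
    have e1 := msq_cHess_le H.chr p M
    have e2 : vsq (raise g x p) ≤ 9 * C ^ 2 * vsq p := MCT.vsq_up hC0.le H.inv p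
    have e3 : vsq p ≤ C * S ^ 2 := by
      have := (H.q p).1
      rw [div_le_iff₀ hC0] at this
      rw [hSS]
      unfold qd
      nlinarith [sq_nonneg d]
    have e4 : 9 * C ^ 2 * vsq p ≤ 9 * C ^ 3 * S ^ 2 := by
      calc 9 * C ^ 2 * vsq p ≤ 9 * C ^ 2 * (C * S ^ 2) :=
            mul_le_mul_of_nonneg_left e3 (by positivity)
        _ = _ := by ring
    exact mul_le_mul e1 (e2.trans e4) (vsq_nonneg _) (by
      have := msq_nonneg M
      positivity)
  have hK : S * (∑ k, Dr ε d g x p M k ^ 2)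
      ≤ (2 * (3 * (1 + d ^ 2) + 3 * C) + 18 * C ^ 3 / d * (2 + 162 * C ^ 2)) * jet p M := by
    have e1 : S * (∑ k, Dr ε d g x p M k ^ 2) ≤ S * (2 * vsq p + 2 * (Hs / S ^ 4)) :=
      mul_le_mul_of_nonneg_left hD hS0.le
    have e2 : S * vsq p ≤ (3 * (1 + d ^ 2) + 3 * C) * jet p M := by
      have f1 : S ≤ 1 + S ^ 2 := by nlinarith [sq_nonneg (S - 1)]
      have f2 : S ^ 2 ≤ d ^ 2 + C * vsq p := by
        rw [hSS]
        unfold qd
        linarith [(H.q p).2]
      have f3 : S * vsq p ≤ (1 + d ^ 2 + C * vsq p) * vsq p :=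
        mul_le_mul_of_nonneg_right (by linarith) hv
      have f4 : (1 + d ^ 2) * vsq p ≤ (1 + d ^ 2) * (3 * jet p M) :=
        mul_le_mul_of_nonneg_left (vsq_le_jet p M) (by positivity)
      have f5 : C * vsq p ^ 2 ≤ C * (3 * jet p M) :=
        mul_le_mul_of_nonneg_left (vsq_sq_le_jet p M) hC0.le
      nlinarith
    have e3 : S * (Hs / S ^ 4) ≤ 9 * C ^ 3 / d * (2 + 162 * C ^ 2) * jet p M := by
      have f1 : S * (Hs / S ^ 4) ≤ S * ((2 * msq M + 54 * C ^ 2 * vsq p)
          * (9 * C ^ 3 * S ^ 2) / S ^ 4) := by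
        refine mul_le_mul_of_nonneg_left ?_ hS0.le
        exact div_le_div_of_nonneg_right hHle (by positivity)
      have f2 : S * ((2 * msq M + 54 * C ^ 2 * vsq p) * (9 * C ^ 3 * S ^ 2) / S ^ 4)
          = 9 * C ^ 3 * (2 * msq M + 54 * C ^ 2 * vsq p) / S := by
        field_simp
      have f3 : 2 * msq M + 54 * C ^ 2 * vsq p ≤ (2 + 162 * C ^ 2) * jet p M := by
        have g1 := msq_le_jet p M
        have g2 : 54 * C ^ 2 * vsq p ≤ 54 * C ^ 2 * (3 * jet p M) :=
          mul_le_mul_of_nonneg_left (vsq_le_jet p M) (by positivity)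
        nlinarith
      have f4 : 0 ≤ 2 * msq M + 54 * C ^ 2 * vsq p := by
        have := msq_nonneg M
        positivity
      calc S * (Hs / S ^ 4) ≤ 9 * C ^ 3 * (2 * msq M + 54 * C ^ 2 * vsq p) / S := by
            rw [← f2]; exact f1
        _ ≤ 9 * C ^ 3 * (2 * msq M + 54 * C ^ 2 * vsq p) / d := by
            apply div_le_div_of_nonneg_left _ hd hdS
            positivity
        _ ≤ 9 * C ^ 3 * ((2 + 162 * C ^ 2) * jet p M) / d := by
            apply div_le_div_of_nonneg_right _ hd.le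
            exact mul_le_mul_of_nonneg_left f3 (by positivity)
        _ = 9 * C ^ 3 / d * (2 + 162 * C ^ 2) * jet p M := by ring
    have e4 : S * (2 * vsq p + 2 * (Hs / S ^ 4)) = 2 * (S * vsq p) + 2 * (S * (Hs / S ^ 4)) := by
      ring
    rw [e4] at e1
    refine e1.trans ?_
    have e5 : (2 * (3 * (1 + d ^ 2) + 3 * C) + 18 * C ^ 3 / d * (2 + 162 * C ^ 2)) * jet p M
        = 2 * ((3 * (1 + d ^ 2) + 3 * C) * jet p M)
          + 2 * (9 * C ^ 3 / d * (2 + 162 * C ^ 2) * jet p M) := by ring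
    rw [e5]
    linarith
  have hE0 : 0 ≤ Real.exp (s / (2 - ε)) := (Real.exp_pos _).le
  have hT0 : 0 ≤ S * (∑ k, Dr ε d g x p M k ^ 2) :=
    mul_nonneg hS0.le (Finset.sum_nonneg fun _ _ => sq_nonneg _)
  have hfin := mul_le_mul hs hK hT0 (hE0.trans hs)
  calc Real.exp (s / (2 - ε)) * (S * ∑ k, Dr ε d g x p M k ^ 2) / 4
      ≤ E * ((2 * (3 * (1 + d ^ 2) + 3 * C) + 18 * C ^ 3 / d * (2 + 162 * C ^ 2))
          * jet p M) / 4 := div_le_div_of_nonneg_right hfin (by norm_num)
    _ = _ := by ring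

lemma frsq_le {ε d C E : ℝ} {g : TensorField} {x : E3} (hd : 0 < d) (hg : (g x).PosDef)
    (H : Pc C g x) {s : ℝ} (hs : Real.exp (s / (2 - ε)) ≤ E) (p : Cov) (M : Bil) :
    |fr ε d g x s p ^ 2| ≤ E * (1 + d ^ 2 + 3 * C) * jet p M := by
  rw [abs_of_nonneg (sq_nonneg _), fr_sq]
  have h0 := (qd_pos hg hd p).le
  have h1 := sqrt_le_one_add h0
  have h2 := qd_le (d := d) H p M
  have h3 := one_le_jet p M
  have h4 : Real.sqrt (qd d g x p) ≤ (1 + d ^ 2 + 3 * C) * jet p M := by nlinarith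
  calc Real.exp (s / (2 - ε)) * Real.sqrt (qd d g x p)
      ≤ E * ((1 + d ^ 2 + 3 * C) * jet p M) :=
        mul_le_mul hs h4 (Real.sqrt_nonneg _) ((Real.exp_pos _).le.trans hs)
    _ = _ := by ring

lemma fr_le {ε d C E : ℝ} {g : TensorField} {x : E3} (hd : 0 < d) (hg : (g x).PosDef)
    (H : Pc C g x) {s : ℝ} (hs : Real.exp (s / (2 - ε)) ≤ E) (p : Cov) (M : Bil) :
    |fr ε d g x s p| ≤ (1 + E * (1 + d ^ 2 + 3 * C)) * jet p M := by
  have h1 := frsq_le (M := M) hd hg H hs p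
  rw [abs_of_nonneg (sq_nonneg _)] at h1
  rw [abs_of_nonneg (fr_nonneg s p)]
  have h2 := one_le_jet p M
  nlinarith [sq_nonneg (fr ε d g x s p - 1)]

/-! ### The bound in the limit -/

lemma nsq_nonneg {g : TensorField} {x : E3} (hg : (g x).PosDef) (H : Bil) : 0 ≤ nsq g x H := by
  obtain ⟨Q, hQ⟩ := MCT.factor hg.inv.posSemidef
  rw [MCT.nsq_factor hQ]
  exact Finset.sum_nonneg fun m _ => ev_nonneg hg.inv _

lemma ev_pos {A : Bil} (hA : A.PosDef) {p : Cov} (hp : p ≠ 0) : 0 < ev A p p := by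
  rw [MCT.ev_eq]
  have h := hA.dotProduct_mulVec_pos hp
  simpa using h

lemma FF_lim {ε d C1 Cg : ℝ} {g h : TensorField} {x : E3} (hd : 0 < d) (hC1 : 0 < C1)
    (hCg : 0 < Cg)
    (hPT : ∀ (g h : TensorField) (x : E3) (p : Cov) (M : Bil), (g x).PosDef → (h x).IsSymm →
      M.IsSymm → (∀ k i j, christoffel g k i j x = christoffel g k j i x) → p ≠ 0 →
      (∀ v : Cov, ev (g x) v v = 1 → ev (h x) v v ≤ trg g x (h x)) →
      beps ε g x p (cHess g x p M) = len g x p ^ 2 + len g x p * beps ε g x p (h x) →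
      0 ≤ diss ε g h x p M ∧
      (∀ t : ℝ, 0 ≤ t → t ≤ 1 →
        ev (g x)⁻¹ (fun i => 1 / (2 - ε) * p i + t * (∑ j, cHess g x p M i j * nrm g x p j)
            / len g x p)
          (fun i => 1 / (2 - ε) * p i + t * (∑ j, cHess g x p M i j * nrm g x p j) / len g x p)
        ≤ C1 * t ^ 2 * (diss ε g h x p M + nsq g x (h x)) + 2 * (1 - t) ^ 2 * len g x p ^ 2))
    (hg : (g x).PosDef) (hh : (h x).IsSymm)
    (hchr : ∀ k i j, christoffel g k i j x = christoffel g k j i x)
    (h2 : ∀ v : Cov, ev (g x) v v = 1 → ev (h x) v v ≤ trg g x (h x))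
    (hCge : ∀ v : Cov, ev (g x) v v ≤ Cg * ∑ i, v i ^ 2)
    (p : Cov) (M : Bil) (hM : M.IsSymm)
    (heq : p ≠ 0 → beps ε g x p (cHess g x p M) = len g x p ^ 2 + len g x p * beps ε g x p (h x))
    (heq0 : p = 0 → M = 0) (s : ℝ) :
    0 ≤ len g x p * (diss ε g h x p M + nsq g x (h x)) ∧
    FF ε d g x s p M ≤ Cg / 4 * (Real.exp (s / (2 - ε))
      * (C1 * (len g x p * (diss ε g h x p M + nsq g x (h x))) + 2 * d ^ 3)) := by
  by_cases hp : p = 0
  · have hM0 := heq0 hp
    subst hp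
    subst hM0
    have hl : len g x 0 = 0 := by
      unfold len ev
      simp
    have hD : ∀ k, Dr ε d g x 0 0 k = 0 := by
      intro k
      unfold Dr
      have : ∀ j, cHess g x 0 0 k j = 0 := by
        intro j
        unfold cHess
        simp
      simp [this]
    have hF : FF ε d g x s 0 0 = 0 := by
      unfold FF
      simp [hD]
    rw [hF, hl]
    refine ⟨by simp, ?_⟩
    simp only [zero_mul, mul_zero, zero_add]
    positivity
  · obtain ⟨hdiss, hkey⟩ := hPT g h x p M hg hh hM hchr hp h2 (heq hp)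
    have hn := nsq_nonneg hg (h x)
    have hq : 0 < ev (g x)⁻¹ p p := ev_pos hg.inv hp
    have hL : 0 < len g x p := Real.sqrt_pos.2 hq
    have hLL : len g x p ^ 2 = ev (g x)⁻¹ p p := Real.sq_sqrt hq.le
    set L := len g x p with hLdef
    set X := diss ε g h x p M + nsq g x (h x) with hX
    have hX0 : 0 ≤ X := add_nonneg hdiss hn
    refine ⟨mul_nonneg hL.le hX0, ?_⟩
    have hq0 := qd_pos hg hd p
    rw [FF_eq]
    set S := Real.sqrt (qd d g x p) with hS
    have hS0 : 0 < S := Real.sqrt_pos.2 hq0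
    have hSS : S ^ 2 = L ^ 2 + d ^ 2 := by
      rw [hS, Real.sq_sqrt hq0.le, hLL]
      rfl
    have hdS : d ≤ S := by
      apply le_of_sq_le_sq _ hS0.le
      nlinarith [sq_nonneg L]
    have hLS : L ≤ S := by
      apply le_of_sq_le_sq _ hS0.le
      nlinarith [sq_nonneg d]
    set t : ℝ := L ^ 2 / S ^ 2 with ht
    have hS2 : 0 < S ^ 2 := by positivity
    have ht0 : 0 ≤ t := by positivity
    have ht1 : t ≤ 1 := by
      rw [ht, div_le_one hS2]
      nlinarith [sq_nonneg d]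
    have h1t : 1 - t = d ^ 2 / S ^ 2 := by
      rw [ht, eq_div_iff hS2.ne', sub_mul, div_mul_cancel₀ _ hS2.ne']
      linarith
    have hfun : (fun i => 1 / (2 - ε) * p i + t * (∑ j, cHess g x p M i j * nrm g x p j) / L)
        = Dr ε d g x p M := by
      funext i
      have e1 : ∑ j, cHess g x p M i j * nrm g x p j
          = (∑ j, cHess g x p M i j * raise g x p j) / L := by
        rw [Finset.sum_div]
        refine Finset.sum_congr rfl fun j _ => ?_
        unfold nrm
        rw [← hLdef]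
        ring
      have e2 : qd d g x p = S ^ 2 := (Real.sq_sqrt hq0.le).symm
      unfold Dr
      rw [e1, e2, ht]
      congr 1
      field_simp
    have hk := hkey t ht0 ht1
    rw [hfun] at hk
    have hI := inv_ell hg hCg hCge (Dr ε d g x p M)
    have hI2 : ∑ k, Dr ε d g x p M k ^ 2
        ≤ Cg * (C1 * t ^ 2 * X + 2 * (1 - t) ^ 2 * L ^ 2) :=
      hI.trans (mul_le_mul_of_nonneg_left hk hCg.le)
    have hA : S * t ^ 2 ≤ L := by
      have e1 : S * t ^ 2 = L ^ 4 / S ^ 3 := by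
        rw [ht]
        field_simp
      rw [e1, div_le_iff₀ (by positivity)]
      have e2 : L ^ 3 ≤ S ^ 3 := pow_le_pow_left₀ hL.le hLS 3
      calc L ^ 4 = L * L ^ 3 := by ring
        _ ≤ L * S ^ 3 := mul_le_mul_of_nonneg_left e2 hL.le
    have hB : S * ((1 - t) ^ 2 * L ^ 2) ≤ d ^ 3 := by
      have e1 : S * ((1 - t) ^ 2 * L ^ 2) = d ^ 4 * L ^ 2 / S ^ 3 := by
        rw [h1t]
        field_simp
      rw [e1, div_le_iff₀ (by positivity)]
      have e2 : L ^ 2 ≤ S ^ 2 := pow_le_pow_left₀ hL.le hLS 2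
      calc d ^ 4 * L ^ 2 = d ^ 3 * (d * L ^ 2) := by ring
        _ ≤ d ^ 3 * (S * S ^ 2) := by
            refine mul_le_mul_of_nonneg_left ?_ (by positivity)
            exact mul_le_mul hdS e2 (by positivity) hS0.le
        _ = d ^ 3 * S ^ 3 := by ring
    have hfin : S * ∑ k, Dr ε d g x p M k ^ 2 ≤ Cg * (C1 * (L * X) + 2 * d ^ 3) := by
      calc S * ∑ k, Dr ε d g x p M k ^ 2
          ≤ S * (Cg * (C1 * t ^ 2 * X + 2 * (1 - t) ^ 2 * L ^ 2)) :=
            mul_le_mul_of_nonneg_left hI2 hS0.le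
        _ = Cg * (C1 * ((S * t ^ 2) * X) + 2 * (S * ((1 - t) ^ 2 * L ^ 2))) := by ring
        _ ≤ Cg * (C1 * (L * X) + 2 * d ^ 3) := by
            refine mul_le_mul_of_nonneg_left ?_ hCg.le
            refine add_le_add ?_ ?_
            · exact mul_le_mul_of_nonneg_left (mul_le_mul_of_nonneg_right hA hX0) hC1.le
            · exact mul_le_mul_of_nonneg_left hB (by norm_num)
    have hE := (Real.exp_pos (s / (2 - ε))).le
    calc Real.exp (s / (2 - ε)) * (S * ∑ k, Dr ε d g x p M k ^ 2) / 4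
        ≤ Real.exp (s / (2 - ε)) * (Cg * (C1 * (L * X) + 2 * d ^ 3)) / 4 :=
          div_le_div_of_nonneg_right (mul_le_mul_of_nonneg_left hfin hE) (by norm_num)
      _ = _ := by ring

/-! ### Continuity in the jet -/

section Tend

variable {ε d : ℝ} {g : TensorField} {x : E3} {sn : ℕ → ℝ} {pn : ℕ → Cov} {Mn : ℕ → Bil}
  {s : ℝ} {p : Cov} {M : Bil}

lemma qd_tend (hp : ∀ i, Tendsto (fun n => pn n i) atTop (𝓝 (p i))) :
    Tendsto (fun n => qd d g x (pn n)) atTop (𝓝 (qd d g x p)) := by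
  unfold qd ev
  refine Tendsto.add ?_ tendsto_const_nhds
  exact tendsto_finsetSum _ fun i _ => tendsto_finsetSum _ fun j _ =>
    (tendsto_const_nhds.mul (hp i)).mul (hp j)

lemma fr_tend (hs : Tendsto sn atTop (𝓝 s)) (hp : ∀ i, Tendsto (fun n => pn n i) atTop (𝓝 (p i))) :
    Tendsto (fun n => fr ε d g x (sn n) (pn n)) atTop (𝓝 (fr ε d g x s p)) := by
  unfold fr
  refine Tendsto.mul ?_ ?_
  · exact (Real.continuous_exp.tendsto _).comp ((hs.div_const _).div_const _)
  · exact (Real.continuous_sqrt.tendsto _).comp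
      ((Real.continuous_sqrt.tendsto _).comp (qd_tend hp))

lemma FF_tend (hg : (g x).PosDef) (hd : 0 < d) (hs : Tendsto sn atTop (𝓝 s))
    (hp : ∀ i, Tendsto (fun n => pn n i) atTop (𝓝 (p i)))
    (hM : ∀ i j, Tendsto (fun n => Mn n i j) atTop (𝓝 (M i j))) :
    Tendsto (fun n => FF ε d g x (sn n) (pn n) (Mn n)) atTop (𝓝 (FF ε d g x s p M)) := by
  unfold FF
  refine tendsto_finsetSum _ fun k _ => ?_
  refine Tendsto.pow ?_ 2
  refine ((fr_tend hs hp).div_const 2).mul ?_
  unfold Dr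
  refine (tendsto_const_nhds.mul (hp k)).add ?_
  refine Tendsto.div ?_ (qd_tend hp) (qd_pos hg hd p).ne'
  refine tendsto_finsetSum _ fun j _ => Tendsto.mul ?_ ?_
  · unfold cHess
    simp only [Matrix.of_apply]
    exact (hM k j).sub (tendsto_finsetSum _ fun l _ => tendsto_const_nhds.mul (hp l))
  · unfold raise
    exact tendsto_finsetSum _ fun l _ => tendsto_const_nhds.mul (hp l)

end Tend

end EWGT

end Pool.Agent.PFlow


end

section

/-!
# Module WGT: the weight is almost constant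
-/

set_option autoImplicit false

open MeasureTheory Filter Topology
open scoped ContDiff ENNReal

namespace Pool.Agent.PFlow

open Pool.Agent.PenroseSph

namespace EWGT

lemma isCompact_cAnn (a b : ℝ) : IsCompact (cAnn a b) := by
  have h1 : cAnn a b = Metric.closedBall (0 : E3) b ∩ {x : E3 | a ≤ ‖x‖} := by
    ext x
    simp only [cAnn, Set.mem_ofPred_eq, Set.mem_inter_iff, Metric.mem_closedBall, dist_zero_right]
    tauto
  rw [h1]
  exact (isCompact_closedBall 0 b).inter_right (isClosed_le continuous_const continuous_norm)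

/-- The variance. -/
lemma var_eq {μ : Measure E3} [IsFiniteMeasure μ] {f : E3 → ℝ} (h1 : Integrable f μ)
    (h2 : Integrable (fun x => f x ^ 2) μ) :
    ∫ x, (f x - ⨍ y, f y ∂μ) ^ 2 ∂μ
      = ∫ x, f x ^ 2 ∂μ - (∫ x, f x ∂μ) ^ 2 / (∫ _x, (1 : ℝ) ∂μ) := by
  set V : ℝ := ∫ _x, (1 : ℝ) ∂μ with hV
  have hV' : V = μ.real Set.univ := by
    rw [hV]
    simp
  by_cases h0 : V = 0
  · have hμ : μ = 0 := by
      rw [hV', Measure.real, ENNReal.toReal_eq_zero_iff] at h0
      rcases h0 with h0 | h0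
      · exact Measure.measure_univ_eq_zero.1 h0
      · exact absurd h0 (measure_ne_top μ _)
    rw [hμ]
    simp
  · have hm : ⨍ y, f y ∂μ = (∫ x, f x ∂μ) / V := by
      rw [average_eq, smul_eq_mul, hV']
      ring
    rw [hm]
    set m : ℝ := (∫ x, f x ∂μ) / V with hmdef
    have e1 : ∀ x, (f x - m) ^ 2 = f x ^ 2 - 2 * m * f x + m ^ 2 := fun x => by ring
    simp only [e1]
    have i2 : Integrable (fun x => 2 * m * f x) μ := h1.const_mul _
    have i1 : Integrable (fun x => f x ^ 2 - 2 * m * f x) μ := h2.sub i2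
    rw [integral_add i1 (integrable_const _), integral_sub h2 i2, integral_const_mul,
      integral_const]
    rw [← hV', smul_eq_mul, hmdef]
    field_simp
    ring

/-- The approximating sequence. -/
structure Seq (K : Set E3) (w : E3 → ℝ) (G : E3 → Cov) (M : E3 → Bil) (v : ℕ → E3 → ℝ)
    (B : ℝ) : Prop where
  smooth : ∀ n, ContDiff ℝ ∞ (v n)
  bd : ∀ n, ∀ x ∈ K, |v n x| ≤ B
  bdw : ∀ x ∈ K, |w x| ≤ B
  tend : ∀ x ∈ K, Tendsto (fun n => v n x) atTop (𝓝 (w x))
  memG : ∀ i, MemLp (fun x => G x i) 4 (volume.restrict K)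
  memM : ∀ i j, MemLp (fun x => M x i j) 2 (volume.restrict K)
  cG : ∀ i, Tendsto (fun n => eLpNorm (fun x => grad (v n) x i - G x i) 4 (volume.restrict K))
    atTop (𝓝 0)
  cM : ∀ i j, Tendsto (fun n => eLpNorm (fun x => hess2 (v n) x i j - M x i j) 2
    (volume.restrict K)) atTop (𝓝 0)
  aG : ∀ᵐ x ∂(volume.restrict K), ∀ i, Tendsto (fun n => grad (v n) x i) atTop (𝓝 (G x i))
  aM : ∀ᵐ x ∂(volume.restrict K), ∀ i j,
    Tendsto (fun n => hess2 (v n) x i j) atTop (𝓝 (M x i j))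

lemma grad_cont {v : E3 → ℝ} (hv : ContDiff ℝ ∞ v) (i : Fin 3) : Continuous fun x => grad v x i :=
  (ML4.contDiff_pd hv i).continuous

lemma hess_cont {v : E3 → ℝ} (hv : ContDiff ℝ ∞ v) (i j : Fin 3) :
    Continuous fun x => hess2 v x i j :=
  (ML4.contDiff_pd (ML4.contDiff_pd hv j) i).continuous

lemma exists_seq {U K : Set E3} {w : E3 → ℝ} {G : E3 → Cov} {M : E3 → Bil}
    (hw : H2s U w G M) (hK : IsCompact K) (hKU : K ⊆ U) :
    ∃ (v : ℕ → E3 → ℝ) (B : ℝ), Seq K w G M v B := by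
  obtain ⟨v, hv, hun, hcG, hcM⟩ := hw.approx K hK hKU
  have mG := hw.memG K hK hKU
  have mM := hw.memM K hK hKU
  have tG : ∀ i, TendstoInMeasure (volume.restrict K) (fun n x => grad (v n) x i) atTop
      (fun x => G x i) := fun i =>
    tendstoInMeasure_of_tendsto_eLpNorm (by norm_num)
      (fun n => (grad_cont (hv n) i).aestronglyMeasurable) (mG i).1 (hcG i)
  have tM : ∀ i j, TendstoInMeasure (volume.restrict K) (fun n x => hess2 (v n) x i j) atTop
      (fun x => M x i j) := fun i j =>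
    tendstoInMeasure_of_tendsto_eLpNorm (by norm_num)
      (fun n => (hess_cont (hv n) i j).aestronglyMeasurable) (mM i j).1 (hcM i j)
  obtain ⟨ns, hns, hae⟩ := sub_ae (μ := volume.restrict K)
    (Finset.univ : Finset (Fin 3 ⊕ (Fin 3 × Fin 3)))
    (fun a n x => Sum.elim (fun i => grad (v n) x i) (fun ij => hess2 (v n) x ij.1 ij.2) a)
    (fun a x => Sum.elim (fun i => G x i) (fun ij => M x ij.1 ij.2) a) (by
      rintro (i | ij)
      · exact tG i
      · exact tM ij.1 ij.2)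
  obtain ⟨B, hB⟩ := hK.exists_bound_of_continuousOn (hw.cont.mono hKU)
  rw [Metric.tendstoUniformlyOn_iff] at hun
  obtain ⟨n₀, hn₀⟩ := eventually_atTop.1 (hun 1 one_pos)
  have hsub : Tendsto (fun n => ns (n + n₀)) atTop atTop :=
    hns.tendsto_atTop.comp (tendsto_add_atTop_nat n₀)
  have hge : ∀ n, n₀ ≤ ns (n + n₀) := fun n => (Nat.le_add_left n₀ n).trans (hns.id_le _)
  refine ⟨fun n => v (ns (n + n₀)), B + 1, fun n => hv _, ?_, ?_, ?_, mG, mM, ?_, ?_, ?_, ?_⟩
  · intro n x hx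
    have h1 := hn₀ _ (hge n) x hx
    rw [Real.dist_eq] at h1
    have h2 := hB x hx
    rw [Real.norm_eq_abs] at h2
    have h3 : |v (ns (n + n₀)) x| ≤ |w x| + |w x - v (ns (n + n₀)) x| := by
      have := abs_sub_abs_le_abs_sub (v (ns (n + n₀)) x) (w x)
      rw [abs_sub_comm] at this
      linarith
    linarith
  · intro x hx
    have h2 := hB x hx
    rw [Real.norm_eq_abs] at h2
    linarith
  · intro x hx
    have h1 : Tendsto (fun n => v n x) atTop (𝓝 (w x)) := by
      rw [Metric.tendsto_atTop]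
      intro e he
      obtain ⟨m, hm⟩ := eventually_atTop.1 (hun e he)
      refine ⟨m, fun n hn => ?_⟩
      rw [dist_comm]
      exact hm n hn x hx
    exact h1.comp hsub
  · exact fun i => (hcG i).comp hsub
  · exact fun i j => (hcM i j).comp hsub
  · rw [ae_all_iff]
    intro i
    filter_upwards [hae (Sum.inl i) (Finset.mem_univ _)] with x hx
    exact hx.comp (tendsto_add_atTop_nat n₀)
  · rw [ae_all_iff]
    intro i
    rw [ae_all_iff]
    intro j
    filter_upwards [hae (Sum.inr (i, j)) (Finset.mem_univ _)] with x hx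
    exact hx.comp (tendsto_add_atTop_nat n₀)

/-- Passage to the limit. -/
lemma lim_on {K T : Set E3} {w : E3 → ℝ} {G : E3 → Cov} {M : E3 → Bil} {v : ℕ → E3 → ℝ} {B : ℝ}
    (H : Seq K w G M v B) (hT : IsCompact T) (hTK : T ⊆ K) (F : ℕ → E3 → ℝ)
    (F' : E3 → ℝ) (C : ℝ)
    (hb : ∀ n, ∀ x ∈ T, |F n x| ≤ C * jet (grad (v n) x) (hess2 (v n) x))
    (hlim : ∀ x ∈ T, (∀ i, Tendsto (fun n => grad (v n) x i) atTop (𝓝 (G x i))) →
      (∀ i j, Tendsto (fun n => hess2 (v n) x i j) atTop (𝓝 (M x i j))) →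
      Tendsto (fun n => F n x) atTop (𝓝 (F' x)))
    (hc : ∀ n, ContinuousOn (F n) T) :
    IntegrableOn F' T ∧ Tendsto (fun n => ∫ x in T, F n x) atTop (𝓝 (∫ x in T, F' x)) := by
  have hfin : IsFiniteMeasure (volume.restrict T) := ⟨by simpa using hT.measure_lt_top⟩
  have hle : (volume.restrict T : Measure E3) ≤ volume.restrict K :=
    Measure.restrict_mono hTK le_rfl
  have hac := hle.absolutelyContinuous
  have aG := hac.ae_le H.aG
  have aM := hac.ae_le H.aM
  refine gen4 (P := fun n => grad (v n)) (N := fun n => hess2 (v n)) (G := G) (M := M)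
    (fun n i => ML4.memLp_cont hT (grad_cont (H.smooth n) i) 4)
    (fun n i j => ML4.memLp_cont hT (hess_cont (H.smooth n) i j) 2)
    (fun i => (H.memG i).mono_measure hle) (fun i j => (H.memM i j).mono_measure hle)
    (fun i => ?_) (fun i j => ?_) aG aM F F' C (fun n => ?_) ?_ (fun n => ?_)
  · exact tendsto_of_tendsto_of_tendsto_of_le_of_le tendsto_const_nhds (H.cG i)
      (fun n => zero_le) (fun n => eLpNorm_mono_measure _ hle)
  · exact tendsto_of_tendsto_of_tendsto_of_le_of_le tendsto_const_nhds (H.cM i j)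
      (fun n => zero_le) (fun n => eLpNorm_mono_measure _ hle)
  · exact (ae_restrict_iff' hT.measurableSet).2 (Eventually.of_forall (hb n))
  · have hmem : ∀ᵐ x ∂(volume.restrict T), x ∈ T := ae_restrict_mem hT.measurableSet
    filter_upwards [aG, aM, hmem] with x h1 h2 h3
    exact hlim x h3 h1 h2
  · exact (hc n).aestronglyMeasurable hT.measurableSet

lemma chr_symm {U : Set E3} {g : TensorField} (hU : IsOpen U) (hg : MetricOn U g) {x : E3}
    (hx : x ∈ U) (k i j : Fin 3) : christoffel g k i j x = christoffel g k j i x := by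
  have hs : ∀ᶠ y in 𝓝 x, ∀ i j, g y i j = g y j i := by
    filter_upwards [hU.mem_nhds hx] with y hy i j
    have := (hg.posDef y hy).isHermitian
    rw [Matrix.IsHermitian, Matrix.conjTranspose_eq_transpose_of_trivial] at this
    exact congrFun (congrFun this j) i
  have h1 : ∀ l, pd l (fun y => g y i j) x = pd l (fun y => g y j i) x := by
    intro l
    unfold pd
    have : (fun y => g y i j) =ᶠ[𝓝 x] fun y => g y j i := by
      filter_upwards [hs] with y hy
      exact hy i j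
    rw [this.fderiv_eq]
  unfold christoffel
  congr 1
  refine Finset.sum_congr rfl fun l _ => ?_
  rw [h1 l]
  ring

/-- The inequality for the regularised weight. -/
lemma step (hGRADL : Stmt_GRADL) {ε d a b ρ Cg C1 CP : ℝ} {U : Set E3} {g h : TensorField}
    {w : E3 → ℝ} {G : E3 → Cov} {M : E3 → Bil} (hε0 : 0 < ε) (hε : ε ≤ 1 / 2) (hd : 0 < d)
    (hCg : 0 < Cg) (hC1 : 0 < C1) (hCP : 0 < CP)
    (hPT : ∀ (g h : TensorField) (x : E3) (p : Cov) (M : Bil), (g x).PosDef → (h x).IsSymm →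
      M.IsSymm → (∀ k i j, christoffel g k i j x = christoffel g k j i x) → p ≠ 0 →
      (∀ v : Cov, ev (g x) v v = 1 → ev (h x) v v ≤ trg g x (h x)) →
      beps ε g x p (cHess g x p M) = len g x p ^ 2 + len g x p * beps ε g x p (h x) →
      0 ≤ diss ε g h x p M ∧
      (∀ t : ℝ, 0 ≤ t → t ≤ 1 →
        ev (g x)⁻¹ (fun i => 1 / (2 - ε) * p i + t * (∑ j, cHess g x p M i j * nrm g x p j)
            / len g x p)
          (fun i => 1 / (2 - ε) * p i + t * (∑ j, cHess g x p M i j * nrm g x p j) / len g x p)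
        ≤ C1 * t ^ 2 * (diss ε g h x p M + nsq g x (h x)) + 2 * (1 - t) ^ 2 * len g x p ^ 2))
    (hPo : ∀ f : E3 → ℝ, (∀ x ∈ cAnn (a * ρ / 2) (b * ρ), ContDiffAt ℝ 1 f x) →
      ∫ x in cAnn (a * ρ) (b * ρ), (f x - ⨍ y in cAnn (a * ρ) (b * ρ), f y) ^ 2
        ≤ CP * ρ ^ 2 * ∫ x in cAnn (a * ρ / 2) (b * ρ), ‖fderiv ℝ f x‖ ^ 2)
    (hSK : cAnn (a * ρ) (b * ρ) ⊆ cAnn (a * ρ / 2) (b * ρ))
    (hU : IsOpen U) (hKU : cAnn (a * ρ / 2) (b * ρ) ⊆ U) (hg : MetricOn U g)
    (hh : TensorOn U h) (h2 : TwoNonneg U g h)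
    (hell : ∀ x ∈ cAnn (a * ρ / 2) (b * ρ), ∀ v : Cov,
        (∑ i, v i ^ 2) ≤ Cg * ev (g x) v v ∧ ev (g x) v v ≤ Cg * ∑ i, v i ^ 2)
    (hw : H2s U w G M) (hEq : EqW U ε g h G M)
    (hInt : IntegrableOn (fun x => Real.exp (w x / (2 - ε)) * len g x (G x)
        * (diss ε g h x (G x) (M x) + nsq g x (h x)) * volDen g x)
        (cAnn (a * ρ / 2) (b * ρ))) :
    IntegrableOn (fun x => fr ε d g x (w x) (G x) ^ 2) (cAnn (a * ρ) (b * ρ)) ∧
    IntegrableOn (fun x => fr ε d g x (w x) (G x)) (cAnn (a * ρ) (b * ρ)) ∧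
    (∫ x in cAnn (a * ρ) (b * ρ), fr ε d g x (w x) (G x) ^ 2)
        - (∫ x in cAnn (a * ρ) (b * ρ), fr ε d g x (w x) (G x)) ^ 2
          / (∫ _x in cAnn (a * ρ) (b * ρ), (1 : ℝ))
      ≤ CP * ρ ^ 2 * (Cg / 4 * (C1 * Real.sqrt (Cg ^ 3)) *
          (∫ x in cAnn (a * ρ / 2) (b * ρ), Real.exp (w x / (2 - ε)) * len g x (G x)
            * (diss ε g h x (G x) (M x) + nsq g x (h x)) * volDen g x)
          + Cg / 2 * d ^ 3 * ∫ x in cAnn (a * ρ / 2) (b * ρ), Real.exp (w x / (2 - ε))) := by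
  set K := cAnn (a * ρ / 2) (b * ρ) with hKdef
  set S := cAnn (a * ρ) (b * ρ) with hSdef
  have hK : IsCompact K := isCompact_cAnn _ _
  have hS : IsCompact S := isCompact_cAnn _ _
  have hSU : S ⊆ U := hSK.trans hKU
  obtain ⟨C, hC, hCT⟩ := CT U g h hU hg hh K hK hKU
  have hPc : ∀ x ∈ K, Pc C g x := fun x hx =>
    ⟨hC, (hCT x hx).1, (hCT x hx).2.2.2.1, (hCT x hx).2.2.2.2.2.2.2.2.1⟩
  obtain ⟨v, B, HS⟩ := exists_seq hw hK hKU
  set E : ℝ := Real.exp (B / (2 - ε)) with hE
  have h2e : 0 < 2 - ε := by linarith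
  have hexp : ∀ s : ℝ, |s| ≤ B → Real.exp (s / (2 - ε)) ≤ E := by
    intro s hs
    apply Real.exp_le_exp.2
    exact div_le_div_of_nonneg_right ((le_abs_self s).trans hs) h2e.le
  -- smoothness of the approximations
  have hsm : ∀ n, ∀ x ∈ U, ContDiffAt ℝ ∞ (fun y => fr ε d g y (v n y) (grad (v n) y)) x :=
    fun n x hx => fr_smooth ε hd hU hg (HS.smooth n) hx
  have hfc : ∀ n, ContinuousOn (fun y => fr ε d g y (v n y) (grad (v n) y)) U :=
    fun n x hx => (hsm n x hx).continuousAt.continuousWithinAt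
  have hpd : ∀ n, ∀ x ∈ U, ∑ k, pd k (fun y => fr ε d g y (v n y) (grad (v n) y)) x ^ 2
      = FF ε d g x (v n x) (grad (v n) x) (hess2 (v n) x) := by
    intro n x hx
    unfold FF
    exact Finset.sum_congr rfl fun k _ => by rw [pd_fr hGRADL ε hd hU hg (HS.smooth n) hx k]
  have hFc : ∀ n, ContinuousOn (fun x => FF ε d g x (v n x) (grad (v n) x) (hess2 (v n) x)) U := by
    intro n
    have h1 : ContinuousOn
        (fun x => ∑ k, pd k (fun y => fr ε d g y (v n y) (grad (v n) y)) x ^ 2) U :=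
      fun x hx => ((ContDiffAt.sum fun k _ => (MCF.pd_smooth (hsm n x hx) k).pow 2 :
        ContDiffAt ℝ ∞ _ x)).continuousAt.continuousWithinAt
    exact h1.congr fun x hx => (hpd n x hx).symm
  -- the limits
  have L1 := lim_on HS hK subset_rfl
    (fun n x => FF ε d g x (v n x) (grad (v n) x) (hess2 (v n) x))
    (fun x => FF ε d g x (w x) (G x) (M x)) _
    (fun n x hx => FF_le hε0 hε hd (hg.posDef x (hKU hx)) (hPc x hx)
      (hexp _ (HS.bd n x hx)) _ _)
    (fun x hx h1 h2 => FF_tend (hg.posDef x (hKU hx)) hd (HS.tend x hx) h1 h2)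
    (fun n => (hFc n).mono hKU)
  have L2 := lim_on HS hS hSK
    (fun n x => fr ε d g x (v n x) (grad (v n) x) ^ 2)
    (fun x => fr ε d g x (w x) (G x) ^ 2) _
    (fun n x hx => frsq_le hd (hg.posDef x (hSU hx)) (hPc x (hSK hx))
      (hexp _ (HS.bd n x (hSK hx))) _ _)
    (fun x hx h1 _ => (fr_tend (HS.tend x (hSK hx)) h1).pow 2)
    (fun n => ((hfc n).mono hSU).pow 2)
  have L3 := lim_on HS hS hSK
    (fun n x => fr ε d g x (v n x) (grad (v n) x))
    (fun x => fr ε d g x (w x) (G x)) _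
    (fun n x hx => fr_le hd (hg.posDef x (hSU hx)) (hPc x (hSK hx))
      (hexp _ (HS.bd n x (hSK hx))) _ _)
    (fun x hx h1 _ => fr_tend (HS.tend x (hSK hx)) h1)
    (fun n => (hfc n).mono hSU)
  refine ⟨L2.1, L3.1, ?_⟩
  have hfinS : IsFiniteMeasure (volume.restrict S) := ⟨by simpa using hS.measure_lt_top⟩
  -- the inequality for the approximations
  have hn : ∀ n, (∫ x in S, fr ε d g x (v n x) (grad (v n) x) ^ 2)
      - (∫ x in S, fr ε d g x (v n x) (grad (v n) x)) ^ 2 / (∫ _x in S, (1 : ℝ))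
      ≤ CP * ρ ^ 2 * ∫ x in K, FF ε d g x (v n x) (grad (v n) x) (hess2 (v n) x) := by
    intro n
    have h1 := hPo (fun y => fr ε d g y (v n y) (grad (v n) y))
      (fun x hx => (hsm n x (hKU hx)).of_le (by simp))
    rw [var_eq (((hfc n).mono hSU).integrableOn_compact hS)
      ((((hfc n).mono hSU).pow 2).integrableOn_compact hS)] at h1
    refine h1.trans (mul_le_mul_of_nonneg_left ?_ (by positivity))
    have hder : ContinuousOn (fun x => ‖fderiv ℝ (fun y => fr ε d g y (v n y) (grad (v n) y)) x‖ ^ 2)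
        K := by
      refine ContinuousOn.pow (ContinuousOn.norm fun x hx => ?_) 2
      exact ((hsm n x (hKU hx)).fderiv_right (m := ∞) (by simp)).continuousAt.continuousWithinAt
    refine setIntegral_mono_on (hder.integrableOn_compact hK)
      (((hFc n).mono hKU).integrableOn_compact hK) hK.measurableSet fun x hx => ?_
    rw [← hpd n x (hKU hx)]
    exact norm_fderiv_le _ x
  have hlim : (∫ x in S, fr ε d g x (w x) (G x) ^ 2)
      - (∫ x in S, fr ε d g x (w x) (G x)) ^ 2 / (∫ _x in S, (1 : ℝ))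
      ≤ CP * ρ ^ 2 * ∫ x in K, FF ε d g x (w x) (G x) (M x) :=
    le_of_tendsto_of_tendsto' (L2.2.sub ((L3.2.pow 2).div_const _)) (L1.2.const_mul _) hn
  refine hlim.trans (mul_le_mul_of_nonneg_left ?_ (by positivity))
  have hJ : IntegrableOn (fun x => Real.exp (w x / (2 - ε))) K := by
    refine ContinuousOn.integrableOn_compact hK ?_
    exact Real.continuous_exp.comp_continuousOn ((hw.cont.mono hKU).div_const _)
  rw [← integral_const_mul, ← integral_const_mul, ← integral_add (hInt.const_mul _)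
    (hJ.const_mul _)]
  refine integral_mono_ae L1.1 ((hInt.const_mul _).add (hJ.const_mul _)) ?_
  have hmem : ∀ᵐ x ∂(volume.restrict K), x ∈ K := ae_restrict_mem hK.measurableSet
  have hKle : (volume.restrict K : Measure E3) ≤ volume.restrict U :=
    Measure.restrict_mono hKU le_rfl
  have hsy := hKle.absolutelyContinuous.ae_le hw.symm
  have heq := hKle.absolutelyContinuous.ae_le hEq
  filter_upwards [hmem, hsy, heq] with x hx hx1 hx2
  have hxU := hKU hx
  obtain ⟨e1, e2⟩ := FF_lim (ε := ε) (d := d) hd hC1 hCg hPT (hg.posDef x hxU) (hh.symm x hxU)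
    (chr_symm hU hg hxU) (h2 x hxU) (fun v => (hell x hx v).2) (G x) (M x) hx1 hx2.1 hx2.2 (w x)
  refine e2.trans ?_
  have hvol : 1 ≤ Real.sqrt (Cg ^ 3) * volDen g x := by
    have h3 := det_lower (hg.posDef x hxU) (fun v => (hell x hx v).1)
    unfold volDen
    rw [← Real.sqrt_mul (by positivity)]
    exact Real.one_le_sqrt.2 h3
  set X := diss ε g h x (G x) (M x) + nsq g x (h x)
  set L := len g x (G x)
  set e := Real.exp (w x / (2 - ε)) with he
  have he0 : 0 < e := Real.exp_pos _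
  have h4 : L * X ≤ (L * X) * (Real.sqrt (Cg ^ 3) * volDen g x) :=
    le_mul_of_one_le_right e1 hvol
  calc Cg / 4 * (e * (C1 * (L * X) + 2 * d ^ 3))
      = Cg / 4 * e * C1 * (L * X) + Cg / 2 * d ^ 3 * e := by ring
    _ ≤ Cg / 4 * e * C1 * ((L * X) * (Real.sqrt (Cg ^ 3) * volDen g x))
        + Cg / 2 * d ^ 3 * e := by
          have : 0 ≤ Cg / 4 * e * C1 := by positivity
          linarith [mul_le_mul_of_nonneg_left h4 this]
    _ = _ := by ring

end EWGT

open EWGT

/-- **WGT.** -/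
theorem WGT (hPTD : Stmt_PTD) (hGRADL : Stmt_GRADL) (hPOI : Stmt_POI) (_hHSYM : Stmt_HSYM) :
    Stmt_WGT := by
  intro ε a b Cg hε0 hε ha hab hCg
  obtain ⟨C1, hC1, hPT⟩ := hPTD ε hε0 hε
  obtain ⟨CP, hCP, hPo⟩ := hPOI a b ha hab
  refine ⟨CP * (Cg / 4 * (C1 * Real.sqrt (Cg ^ 3))), by positivity, ?_⟩
  intro ρ U g h w G M hρ hU hKU hg hh h2 hell hw hEq hInt
  have hH2 := L4 U w G M hU hw
  have hSK : cAnn (a * ρ) (b * ρ) ⊆ cAnn (a * ρ / 2) (b * ρ) := by
    rintro x ⟨h1, h3⟩
    have : 0 < a * ρ := by positivity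
    exact ⟨by linarith, h3⟩
  have hst := fun (d : ℝ) (hd : 0 < d) => step hGRADL hε0 hε hd hCg hC1 hCP
    (fun g h x p M a1 a2 a3 a4 a5 a6 a7 =>
      ⟨(hPT g h x p M a1 a2 a3 a4 a5 a6 a7).1, (hPT g h x p M a1 a2 a3 a4 a5 a6 a7).2.1⟩)
    (fun f hf => hPo ρ f hρ hf) hSK hU hKU hg hh h2 hell hH2 hEq hInt
  set K := cAnn (a * ρ / 2) (b * ρ) with hKdef
  set S := cAnn (a * ρ) (b * ρ) with hSdef
  have hK : IsCompact K := isCompact_cAnn _ _
  have hS : IsCompact S := isCompact_cAnn _ _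
  have hSU : S ⊆ U := hSK.trans hKU
  have hfinS : IsFiniteMeasure (volume.restrict S) := ⟨by simpa using hS.measure_lt_top⟩
  have h2e : 0 < 2 - ε := by linarith
  set V : ℝ := ∫ _x in S, (1 : ℝ) with hV
  have hV0 : 0 ≤ V := integral_nonneg fun _ => zero_le_one
  -- the weight
  set φ : E3 → ℝ := fun x => Real.exp (w x / (2 - ε)) * len g x (G x) with hφ
  have hφ0 : ∀ x, 0 ≤ φ x := fun x => mul_nonneg (Real.exp_pos _).le (Real.sqrt_nonneg _)
  set f : E3 → ℝ := fun x => Real.sqrt (φ x) with hf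
  have hf0 : ∀ x, 0 ≤ f x := fun x => Real.sqrt_nonneg _
  have hff : ∀ x, f x ^ 2 = φ x := fun x => Real.sq_sqrt (hφ0 x)
  have hfr2 : ∀ (d : ℝ), 0 < d → ∀ x ∈ S, φ x ≤ fr ε d g x (w x) (G x) ^ 2 := by
    intro d hd x hx
    rw [fr_sq]
    refine mul_le_mul_of_nonneg_left ?_ (Real.exp_pos _).le
    unfold len qd
    exact Real.sqrt_le_sqrt (by nlinarith [sq_nonneg d])
  obtain ⟨B, hB⟩ := hS.exists_bound_of_continuousOn (hw.cont.mono hSU)
  set E : ℝ := Real.exp (B / (2 - ε) / 2) with hE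
  have hE0 : 0 < E := Real.exp_pos _
  have hfr1 : ∀ (d : ℝ), 0 < d → ∀ x ∈ S,
      fr ε d g x (w x) (G x) ≤ f x + E * Real.sqrt d := by
    intro d hd x hx
    have hq := ev_nonneg (hg.posDef x (hSU hx)).inv (G x)
    have e1 : f x = Real.exp (w x / (2 - ε) / 2) * Real.sqrt (len g x (G x)) := by
      simp only [hf, hφ]
      rw [Real.sqrt_mul (Real.exp_pos _).le]
      congr 1
      rw [← Real.exp_half]
    have e2 : Real.sqrt (qd d g x (G x)) ≤ len g x (G x) + d := by
      unfold qd len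
      apply Real.sqrt_le_iff.2
      refine ⟨by positivity, ?_⟩
      nlinarith [Real.sq_sqrt hq, Real.sqrt_nonneg (ev (g x)⁻¹ (G x) (G x))]
    have e3 : Real.sqrt (Real.sqrt (qd d g x (G x)))
        ≤ Real.sqrt (len g x (G x)) + Real.sqrt d := by
      refine (Real.sqrt_le_sqrt e2).trans ?_
      have hl : 0 ≤ len g x (G x) := Real.sqrt_nonneg _
      apply Real.sqrt_le_iff.2
      refine ⟨by positivity, ?_⟩
      nlinarith [Real.sq_sqrt hl, Real.sq_sqrt hd.le, Real.sqrt_nonneg (len g x (G x)),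
        Real.sqrt_nonneg d, mul_nonneg (Real.sqrt_nonneg (len g x (G x))) (Real.sqrt_nonneg d)]
    have e4 : Real.exp (w x / (2 - ε) / 2) ≤ E := by
      apply Real.exp_le_exp.2
      have h5 := hB x hx
      rw [Real.norm_eq_abs] at h5
      have h6 : w x / (2 - ε) ≤ B / (2 - ε) :=
        div_le_div_of_nonneg_right ((le_abs_self _).trans h5) h2e.le
      linarith
    unfold fr
    rw [e1]
    calc Real.exp (w x / (2 - ε) / 2) * Real.sqrt (Real.sqrt (qd d g x (G x)))
        ≤ Real.exp (w x / (2 - ε) / 2) * (Real.sqrt (len g x (G x)) + Real.sqrt d) :=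
          mul_le_mul_of_nonneg_left e3 (Real.exp_pos _).le
      _ = Real.exp (w x / (2 - ε) / 2) * Real.sqrt (len g x (G x))
          + Real.exp (w x / (2 - ε) / 2) * Real.sqrt d := by ring
      _ ≤ _ := by
          have := mul_le_mul_of_nonneg_right e4 (Real.sqrt_nonneg d)
          linarith
  -- integrability
  have hφm : AEStronglyMeasurable φ (volume.restrict S) := by
    have hle : (volume.restrict S : Measure E3) ≤ volume.restrict S := le_rfl
    have m1 : AEStronglyMeasurable (fun x => Real.exp (w x / (2 - ε))) (volume.restrict S) :=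
      (Real.continuous_exp.comp_continuousOn ((hw.cont.mono hSU).div_const _)).aestronglyMeasurable
        hS.measurableSet
    have mG : ∀ i, AEStronglyMeasurable (fun x => G x i) (volume.restrict S) := fun i =>
      (hH2.memG S hS hSU i).1
    have mg : ∀ i j, AEStronglyMeasurable (fun x => (g x)⁻¹ i j) (volume.restrict S) :=
      fun i j => ContinuousOn.aestronglyMeasurable (fun x hx =>
        (MCF.inv_smooth hU hg (hSU hx) i j).continuousAt.continuousWithinAt) hS.measurableSet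
    have m2 : AEStronglyMeasurable (fun x => ev (g x)⁻¹ (G x) (G x)) (volume.restrict S) := by
      unfold ev
      exact Finset.aestronglyMeasurable_fun_sum _ fun i _ =>
        Finset.aestronglyMeasurable_fun_sum _ fun j _ => ((mg i j).mul (mG i)).mul (mG j)
    exact m1.mul (Real.continuous_sqrt.comp_aestronglyMeasurable m2)
  have hφi : IntegrableOn φ S := by
    refine Integrable.mono' (hst 1 one_pos).1 hφm ?_
    refine (ae_restrict_iff' hS.measurableSet).2 (Eventually.of_forall fun x hx => ?_)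
    rw [Real.norm_eq_abs, abs_of_nonneg (hφ0 x)]
    exact hfr2 1 one_pos x hx
  have hfm : AEStronglyMeasurable f (volume.restrict S) :=
    Real.continuous_sqrt.comp_aestronglyMeasurable hφm
  have hfi : IntegrableOn f S := by
    refine Integrable.mono' (hφi.add (integrable_const (1 : ℝ))) hfm ?_
    refine Eventually.of_forall fun x => ?_
    rw [Real.norm_eq_abs, abs_of_nonneg (hf0 x)]
    simp only [Pi.add_apply]
    nlinarith [hff x, sq_nonneg (f x - 1)]
  have hf2i : IntegrableOn (fun x => f x ^ 2) S := by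
    simp only [hff]
    exact hφi
  -- the limit
  set I := ∫ x in K, Real.exp (w x / (2 - ε)) * len g x (G x)
            * (diss ε g h x (G x) (M x) + nsq g x (h x)) * volDen g x with hI
  set J := ∫ x in K, Real.exp (w x / (2 - ε)) with hJ
  have hd : ∀ d : ℝ, 0 < d → (∫ x in S, f x ^ 2)
      - ((∫ x in S, f x) + E * Real.sqrt d * V) ^ 2 / V
      ≤ CP * ρ ^ 2 * (Cg / 4 * (C1 * Real.sqrt (Cg ^ 3)) * I + Cg / 2 * d ^ 3 * J) := by
    intro d hd
    obtain ⟨i1, i2, i3⟩ := hst d hd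
    refine le_trans ?_ i3
    have e1 : (∫ x in S, f x ^ 2) ≤ ∫ x in S, fr ε d g x (w x) (G x) ^ 2 := by
      refine setIntegral_mono_on hf2i i1 hS.measurableSet fun x hx => ?_
      rw [hff]
      exact hfr2 d hd x hx
    have e2 : (∫ x in S, fr ε d g x (w x) (G x)) ≤ (∫ x in S, f x) + E * Real.sqrt d * V := by
      have e3 : (∫ x in S, f x) + E * Real.sqrt d * V = ∫ x in S, (f x + E * Real.sqrt d) := by
        rw [integral_add hfi (integrable_const _), hV]
        simp [mul_comm]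
      rw [e3]
      exact setIntegral_mono_on i2 (hfi.add (integrable_const _)) hS.measurableSet
        fun x hx => hfr1 d hd x hx
    have e4 : 0 ≤ ∫ x in S, fr ε d g x (w x) (G x) := integral_nonneg fun x => fr_nonneg _ _
    have e5 : (∫ x in S, fr ε d g x (w x) (G x)) ^ 2 / V
        ≤ ((∫ x in S, f x) + E * Real.sqrt d * V) ^ 2 / V :=
      div_le_div_of_nonneg_right (pow_le_pow_left₀ e4 e2 2) hV0
    linarith
  have hlim : (∫ x in S, f x ^ 2) - (∫ x in S, f x) ^ 2 / V
      ≤ CP * ρ ^ 2 * (Cg / 4 * (C1 * Real.sqrt (Cg ^ 3)) * I) := by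
    have c1 : Continuous fun d : ℝ => (∫ x in S, f x ^ 2)
        - ((∫ x in S, f x) + E * Real.sqrt d * V) ^ 2 / V := by fun_prop
    have c2 : Continuous fun d : ℝ => CP * ρ ^ 2 * (Cg / 4 * (C1 * Real.sqrt (Cg ^ 3)) * I
        + Cg / 2 * d ^ 3 * J) := by fun_prop
    have t1 := (c1.tendsto 0).mono_left (nhdsWithin_le_nhds (s := Set.Ioi 0))
    have t2 := (c2.tendsto 0).mono_left (nhdsWithin_le_nhds (s := Set.Ioi 0))
    have t3 := le_of_tendsto_of_tendsto t1 t2 (by
      filter_upwards [self_mem_nhdsWithin] with d hd'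
      exact hd d hd')
    simpa using t3
  -- conclusion
  set m : ℝ := ⨍ x in S, f x with hm
  have hmV : m * V = ∫ x in S, f x := by
    have hV' : V = (volume.restrict S).real Set.univ := by
      rw [hV]
      simp
    by_cases h0 : V = 0
    · have hμ : (volume.restrict S : Measure E3) = 0 := by
        have h3 := h0
        rw [hV', Measure.real, ENNReal.toReal_eq_zero_iff] at h3
        rcases h3 with h3 | h3
        · exact Measure.measure_univ_eq_zero.1 h3
        · exact absurd h3 (measure_ne_top _ _)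
      rw [h0, hμ]
      simp
    · rw [hm, average_eq, smul_eq_mul, ← hV']
      field_simp
  have hm0 : 0 ≤ m := by
    rw [hm, average_eq, smul_eq_mul]
    exact mul_nonneg (inv_nonneg.2 measureReal_nonneg) (integral_nonneg hf0)
  refine ⟨m ^ 2, sq_nonneg _, ?_, ?_⟩
  · rw [Real.sqrt_sq hm0]
    exact hmV
  · rw [Real.sqrt_sq hm0]
    have h3 := var_eq hfi hf2i
    rw [h3]
    refine hlim.trans (le_of_eq ?_)
    ring

end Pool.Agent.PFlow


end
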