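import Mathlib
import Pool.Agent.PFlow.StmtsE2
import Pool.Agent.PFlow.StmtsE3
import Pool.Agent.PenroseM.C03

/-! Parts: PFlow.E.HATA, PFlow.E.PERA, PFlow.E.UPH -/

section

/-!
# HATA: if all sums of two eigenvalues of `B` are nonnegative then `|B|² ≤ 3 (tr B)²`
-/

open Matrix

namespace Pool.Agent.PFlow

open Pool.Agent.PenroseSph

namespace HATA

/-- A positive definite real matrix has a symmetric square root. -/
lemma exists_sqrt {G : Bil} (hG : G.PosSemidef) : ∃ S : Bil, Sᵀ = S ∧ S * S = G := by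
  open scoped MatrixOrder in
  have h0 : (0 : Bil) ≤ G := Matrix.nonneg_iff_posSemidef.2 hG
  refine ⟨CFC.sqrt G, ?_, CFC.sqrt_mul_sqrt_self G h0⟩
  have h1 : (0 : Bil) ≤ CFC.sqrt G := CFC.sqrt_nonneg G
  have h2 := (Matrix.nonneg_iff_posSemidef.1 h1).isHermitian
  rwa [Matrix.IsHermitian, Matrix.conjTranspose_eq_transpose_of_trivial] at h2

/-- Diagonalisation of a symmetric matrix. -/
lemma exists_diag {C : Bil} (hC : Cᵀ = C) :
    ∃ (U : Bil) (l : Fin 3 → ℝ), Uᵀ * U = 1 ∧ Uᵀ * C * U = Matrix.diagonal l := by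
  have h1 : C.IsHermitian := by
    rwa [Matrix.IsHermitian, Matrix.conjTranspose_eq_transpose_of_trivial]
  refine ⟨(h1.eigenvectorUnitary : Bil), h1.eigenvalues, ?_, ?_⟩
  · have h2 := Unitary.coe_star_mul_self h1.eigenvectorUnitary
    rwa [Matrix.star_eq_conjTranspose, Matrix.conjTranspose_eq_transpose_of_trivial] at h2
  · have h2 := h1.conjStarAlgAut_star_eigenvectorUnitary
    rw [Unitary.conjStarAlgAut_star_apply, Matrix.star_eq_conjTranspose,
      Matrix.conjTranspose_eq_transpose_of_trivial] at h2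
    rw [h2]
    rfl

/-- Simultaneous diagonalisation. -/
lemma exists_simul {G B : Bil} (hG : G.PosDef) (hB : Bᵀ = B) :
    ∃ (V : Bil) (l : Fin 3 → ℝ), Vᵀ * G * V = 1 ∧ Vᵀ * B * V = Matrix.diagonal l ∧
      V * Vᵀ = G⁻¹ := by
  obtain ⟨S, hS, hSS⟩ := exists_sqrt hG.inv.posSemidef
  have hdet : IsUnit G.det := (Matrix.isUnit_iff_isUnit_det _).1 hG.isUnit
  have h1 : (G * S) * S = 1 := by
    rw [Matrix.mul_assoc, hSS, Matrix.mul_nonsing_inv _ hdet]
  have h2 : S * (G * S) = 1 := mul_eq_one_comm.1 h1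
  have hC : (S * B * S)ᵀ = S * B * S := by
    simp only [Matrix.transpose_mul, hS, hB, Matrix.mul_assoc]
  obtain ⟨U, l, hU, hUl⟩ := exists_diag hC
  have hU' : U * Uᵀ = 1 := mul_eq_one_comm.1 hU
  refine ⟨S * U, l, ?_, ?_, ?_⟩
  · rw [Matrix.transpose_mul, hS]
    have h3 : Uᵀ * S * G * (S * U) = Uᵀ * (S * (G * S)) * U := by
      simp only [Matrix.mul_assoc]
    rw [h3, h2, Matrix.mul_one, hU]
  · rw [Matrix.transpose_mul, hS, ← hUl]
    simp only [Matrix.mul_assoc]
  · rw [Matrix.transpose_mul, hS]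
    have h3 : S * U * (Uᵀ * S) = S * (U * Uᵀ) * S := by
      simp only [Matrix.mul_assoc]
    rw [h3, hU', Matrix.mul_one, hSS]

lemma ev_col (B V : Bil) (i : Fin 3) :
    ev B (fun k => V k i) (fun k => V k i) = (Vᵀ * B * V) i i := by
  simp only [ev, Matrix.mul_apply, Matrix.transpose_apply, Finset.sum_mul]
  rw [Finset.sum_comm]
  refine Finset.sum_congr rfl fun j _ => Finset.sum_congr rfl fun k _ => ?_
  ring

lemma trg_trace (Gi B : Bil) (hG : Giᵀ = Gi) :
    ∑ i, ∑ j, Gi i j * B i j = (Gi * B).trace := by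
  have hs : ∀ i j, Gi i j = Gi j i := fun i j => by
    conv_lhs => rw [← hG]
    rfl
  simp only [Matrix.trace, Matrix.diag_apply, Matrix.mul_apply]
  rw [Finset.sum_comm]
  refine Finset.sum_congr rfl fun i _ => Finset.sum_congr rfl fun j _ => ?_
  rw [hs j i]

lemma nsq_trace (Gi B : Bil) (hG : Giᵀ = Gi) (hB : Bᵀ = B) :
    ∑ i, ∑ j, ∑ k, ∑ l, Gi i k * Gi j l * B i j * B k l = (Gi * B * Gi * B).trace := by
  have hs : ∀ i j, Gi i j = Gi j i := fun i j => by
    conv_lhs => rw [← hG]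
    rfl
  have hb : ∀ i j, B i j = B j i := fun i j => by
    conv_lhs => rw [← hB]
    rfl
  simp only [Matrix.trace, Matrix.diag_apply, Matrix.mul_apply, Finset.sum_mul]
  calc ∑ i, ∑ j, ∑ k, ∑ l, Gi i k * Gi j l * B i j * B k l
      = ∑ i, ∑ j, ∑ l, ∑ k, Gi i k * Gi j l * B i j * B k l := by
        refine Finset.sum_congr rfl fun i _ => Finset.sum_congr rfl fun j _ => ?_
        exact Finset.sum_comm
    _ = _ := by
        refine Finset.sum_congr rfl fun i _ => Finset.sum_congr rfl fun j _ =>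
          Finset.sum_congr rfl fun l _ => Finset.sum_congr rfl fun k _ => ?_
        rw [hb i j, hb k l, hs j l]
        rw [hb l k]
        ring

end HATA

open HATA in
/-- HATA: if all sums of two eigenvalues of `B` are nonnegative then `|B|² ≤ 3 (tr B)²`. -/
theorem HATA : Stmt_HATA := by
  intro g x B hg hB hv
  have hB' : Bᵀ = B := hB
  have hGi : ((g x)⁻¹)ᵀ = (g x)⁻¹ := by
    have := hg.inv.isHermitian
    rwa [Matrix.IsHermitian, Matrix.conjTranspose_eq_transpose_of_trivial] at this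
  obtain ⟨V, l, h1, h2, h3⟩ := exists_simul hg hB'
  have ht : trg g x B = l 0 + l 1 + l 2 := by
    have e1 : trg g x B = ((g x)⁻¹ * B).trace := trg_trace _ _ hGi
    rw [e1, ← h3, Matrix.mul_assoc, Matrix.trace_mul_comm, h2, Matrix.trace_diagonal,
      Fin.sum_univ_three]
  have hn : nsq g x B = l 0 ^ 2 + l 1 ^ 2 + l 2 ^ 2 := by
    have e1 : nsq g x B = ((g x)⁻¹ * B * (g x)⁻¹ * B).trace := nsq_trace _ _ hGi hB'
    rw [e1, ← h3]
    have e2 : V * Vᵀ * B * (V * Vᵀ) * B = V * (Vᵀ * B * V * (Vᵀ * B)) := by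
      simp only [Matrix.mul_assoc]
    have e3 : Vᵀ * B * V * (Vᵀ * B) * V = (Vᵀ * B * V) * (Vᵀ * B * V) := by
      simp only [Matrix.mul_assoc]
    rw [e2, Matrix.trace_mul_comm, e3, h2, Matrix.diagonal_mul_diagonal, Matrix.trace_diagonal,
      Fin.sum_univ_three]
    ring
  have hl : ∀ i, l i ≤ l 0 + l 1 + l 2 := by
    intro i
    have e1 := hv (fun k => V k i) (by rw [ev_col, h1]; simp)
    rw [ev_col, h2, ht] at e1
    simpa using e1
  have h4 := hl 0
  have h5 := hl 1
  have h6 := hl 2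
  rw [ht, hn]
  constructor
  · linarith
  · nlinarith [mul_nonneg (sub_nonneg.2 h4) (sub_nonneg.2 h5),
      mul_nonneg (sub_nonneg.2 h4) (sub_nonneg.2 h6),
      mul_nonneg (sub_nonneg.2 h5) (sub_nonneg.2 h6)]

end Pool.Agent.PFlow


end

section

set_option autoImplicit false

/-!
# PERA: perimeter of the sublevel sets of a smooth function
-/

open MeasureTheory Filter Topology
open scoped ContDiff ENNReal

namespace Pool.Agent.PFlow

open Pool.Agent.PenroseSph

namespace PERAaux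

/-! ### Algebra at a point -/

theorem ev_nonneg {P : Bil} (hP : P.PosSemidef) (v : Cov) : 0 ≤ ev P v v := by
  have h := hP.dotProduct_mulVec_nonneg v
  have e : star v ⬝ᵥ P.mulVec v = ev P v v := by
    simp only [dotProduct, Matrix.mulVec, ev, Finset.mul_sum, Pi.star_apply, star_trivial]
    exact Finset.sum_congr rfl fun i _ => Finset.sum_congr rfl fun j _ => by ring
  rwa [e] at h

theorem symm_of {P : Bil} (hP : P.PosDef) (i j : Fin 3) : P i j = P j i := by
  have h := hP.isHermitian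
  have h1 := congrFun (congrFun h j) i
  simpa [Matrix.conjTranspose] using h1

theorem inv_app {g : Bil} (hg : g.PosDef) (v : Cov) (i : Fin 3) :
    ∑ j, g i j * (∑ k, g⁻¹ j k * v k) = v i := by
  have hu : IsUnit g.det := hg.isUnit.map Matrix.detMonoidHom
  have h1 : (g * g⁻¹).mulVec v = v := by rw [Matrix.mul_nonsing_inv g hu, Matrix.one_mulVec]
  rw [← Matrix.mulVec_mulVec] at h1
  have h2 := congrFun h1 i
  simpa [Matrix.mulVec, dotProduct] using h2

theorem ev_eq (B : Bil) (v w : Cov) : ev B v w = ∑ i, (∑ j, B i j * w j) * v i := by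
  unfold ev
  refine Finset.sum_congr rfl (fun i _ => ?_)
  rw [Finset.sum_mul]
  refine Finset.sum_congr rfl (fun j _ => ?_)
  ring

theorem cs {g : Bil} (hg : g.PosDef) (p v : Cov) :
    (∑ i, p i * v i) ^ 2 ≤ ev g⁻¹ p p * ev g v v := by
  set u : Cov := fun j => ∑ k, g⁻¹ j k * p k with hu
  have e1 : ∑ i, p i * v i = ev g v u := by
    rw [ev_eq]
    refine Finset.sum_congr rfl fun i _ => ?_
    rw [hu, inv_app hg p i]
  have e2 : ev g⁻¹ p p = ev g u u := by
    rw [ev_eq, ev_eq]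
    refine Finset.sum_congr rfl fun i _ => ?_
    rw [hu, inv_app hg p i, mul_comm]
  have e3 : ∀ t : ℝ, ev g (fun i => v i + t * u i) (fun i => v i + t * u i)
      = ev g u u * (t * t) + (2 * ev g v u) * t + ev g v v := by
    intro t
    have s01 := symm_of hg 0 1
    have s02 := symm_of hg 0 2
    have s12 := symm_of hg 1 2
    simp only [ev, Fin.sum_univ_three]
    rw [s01, s02, s12]
    ring
  have h := discrim_le_zero (a := ev g u u) (b := 2 * ev g v u) (c := ev g v v) (by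
    intro t
    rw [← e3 t]
    exact ev_nonneg hg.posSemidef _)
  rw [e1, e2]
  unfold discrim at h
  nlinarith

theorem abs_le_len {g : TensorField} {x : E3} (hg : (g x).PosDef) (p v : Cov)
    (hv : ev (g x) v v ≤ 1) : |∑ i, p i * v i| ≤ len g x p := by
  unfold len
  rw [← Real.sqrt_sq_eq_abs]
  refine Real.sqrt_le_sqrt ?_
  have h1 := cs hg p v
  have h2 : 0 ≤ ev (g x)⁻¹ p p := ev_nonneg hg.inv.posSemidef p
  nlinarith

/-! ### Smoothness -/

theorem cd_det {g : TensorField} {x : E3}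
    (h : ∀ i j, ContDiffAt ℝ ∞ (fun y => g y i j) x) :
    ContDiffAt ℝ ∞ (fun y => (g y).det) x := by
  simp only [Matrix.det_fin_three]
  fun_prop

theorem cd_vol {g : TensorField} (hg : MetricOn {0}ᶜ g) {x : E3} (hx : x ≠ 0) :
    ContDiffAt ℝ ∞ (volDen g) x := by
  have h1 : ∀ i j, ContDiffAt ℝ ∞ (fun y => g y i j) x := fun i j =>
    (hg.smooth i j).contDiffAt (isOpen_compl_singleton.mem_nhds hx)
  exact (cd_det h1).sqrt (hg.posDef x hx).det_pos.ne'

theorem cd_inv {g : TensorField} (hg : MetricOn {0}ᶜ g) {x : E3} (hx : x ≠ 0) (k l : Fin 3) :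
    ContDiffAt ℝ ∞ (fun y => (g y)⁻¹ k l) x := by
  have h1 : ∀ i j, ContDiffAt ℝ ∞ (fun y => g y i j) x := fun i j =>
    (hg.smooth i j).contDiffAt (isOpen_compl_singleton.mem_nhds hx)
  have hd := cd_det h1
  have ha : ContDiffAt ℝ ∞ (fun y => (g y).adjugate k l) x := by
    simp only [Matrix.adjugate_fin_three]
    fin_cases k <;> fin_cases l <;>
      simp <;> fun_prop
  have h2 : (fun y => (g y)⁻¹ k l) = fun y => ((g y).det)⁻¹ * (g y).adjugate k l := by
    funext y
    rw [Matrix.inv_def, Ring.inverse_eq_inv', Matrix.smul_apply, smul_eq_mul]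
  rw [h2]
  exact (hd.inv (hg.posDef x hx).det_pos.ne').mul ha

theorem cont_pd {W : E3 → ℝ} (hW : ContDiff ℝ ∞ W) (i : Fin 3) : Continuous (pd i W) := by
  unfold pd
  exact (hW.continuous_fderiv (by simp)).clm_apply continuous_const

theorem cont_len {g : TensorField} (hg : MetricOn {0}ᶜ g) {W : E3 → ℝ} (hW : ContDiff ℝ ∞ W)
    {x : E3} (hx : x ≠ 0) : ContinuousAt (fun y => len g y (grad W y) * volDen g y) x := by
  refine ContinuousAt.mul ?_ (cd_vol hg hx).continuousAt
  unfold len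
  refine ContinuousAt.sqrt ?_
  unfold ev
  refine tendsto_finsetSum _ fun i _ => tendsto_finsetSum _ fun j _ => ?_
  exact (((cd_inv hg hx i j).continuousAt).mul (cont_pd hW i).continuousAt).mul
    (cont_pd hW j).continuousAt

/-! ### The field -/

section Field

variable {g : TensorField} {X : E3 → Cov}

theorem Y_smooth (hg : MetricOn {0}ᶜ g) (hX : TestField g X) (i : Fin 3) :
    ContDiff ℝ ∞ (fun y => volDen g y * X y i) := by
  rw [contDiff_iff_contDiffAt]
  intro x
  by_cases hx : x ∈ tsupport X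
  · have hx0 : x ≠ 0 := by
      rintro rfl
      exact hX.avoids hx
    exact (cd_vol hg hx0).mul (hX.smooth i).contDiffAt
  · have h1 : X =ᶠ[𝓝 x] 0 := by
      rwa [← notMem_tsupport_iff_eventuallyEq]
    have h2 : (fun y => volDen g y * X y i) =ᶠ[𝓝 x] fun _ => 0 := by
      filter_upwards [h1] with y hy
      rw [hy]
      simp
    exact contDiffAt_const.congr_of_eventuallyEq h2

theorem Y_supp (hX : TestField g X) (i : Fin 3) :
    HasCompactSupport (fun y => volDen g y * X y i) := by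
  refine hX.compact.mono ?_
  intro x hx
  rw [Function.mem_support] at hx ⊢
  intro h
  apply hx
  rw [h]
  simp

theorem D_cont (hg : MetricOn {0}ᶜ g) (hX : TestField g X) :
    Continuous (fun x => ∑ i, pd i (fun y => volDen g y * X y i) x) :=
  continuous_finsetSum _ fun i _ => cont_pd (Y_smooth hg hX i) i

theorem pdY_int (hg : MetricOn {0}ᶜ g) (hX : TestField g X) (i : Fin 3) :
    Integrable (pd i (fun y => volDen g y * X y i)) := by
  refine (cont_pd (Y_smooth hg hX i) i).integrable_of_hasCompactSupport ?_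
  have h := (Y_supp hX i).fderiv (𝕜 := ℝ)
  refine h.mono ?_
  intro x hx
  rw [Function.mem_support] at hx ⊢
  intro h0
  apply hx
  unfold pd
  rw [h0]
  simp

theorem D_int (hg : MetricOn {0}ᶜ g) (hX : TestField g X) :
    Integrable (fun x => ∑ i, pd i (fun y => volDen g y * X y i) x) :=
  integrable_finsetSum _ fun i _ => pdY_int hg hX i

end Field

/-! ### The sublevel sets -/

/-- The sublevel set. -/
def Us (W : E3 → ℝ) (ρ r s : ℝ) : Set E3 := {x | x ≠ 0 ∧ (‖x‖ < ρ ∨ (‖x‖ < r ∧ W x < s))}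

section Sub

variable {W : E3 → ℝ} {ρ r s₀ s₁ : ℝ}

theorem isOpen_Us (hW : Continuous W) (s : ℝ) : IsOpen (Us W ρ r s) := by
  have h1 : Us W ρ r s = {x | x ≠ 0} ∩ ({x | ‖x‖ < ρ} ∪ ({x | ‖x‖ < r} ∩ {x | W x < s})) := rfl
  rw [h1]
  exact isOpen_ne.inter ((isOpen_lt continuous_norm continuous_const).union
    ((isOpen_lt continuous_norm continuous_const).inter (isOpen_lt hW continuous_const)))

theorem Us_mono {s t : ℝ} (h : s ≤ t) : Us W ρ r s ⊆ Us W ρ r t := fun _ hx =>
  ⟨hx.1, hx.2.imp id fun h' => ⟨h'.1, h'.2.trans_le h⟩⟩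

theorem separates_Us (hW : ContDiff ℝ ∞ W) (hρ : 0 < ρ) (hρr : ρ < r)
    (h0 : ∀ x ∈ cAnn ρ r, ‖x‖ = ρ → W x < s₀) (h1 : ∀ x ∈ cAnn ρ r, ‖x‖ = r → s₁ < W x)
    {s : ℝ} (hs0 : s₀ ≤ s) (hs1 : s ≤ s₁)
    (hreg : ∀ x ∈ cAnn ρ r, W x = s → fderiv ℝ W x ≠ 0) : Separates (Us W ρ r s) where
  isOpen := isOpen_Us hW.continuous s
  zero_notMem := fun h => h.1 rfl
  contains := ⟨ρ, hρ, fun x hx hx' => ⟨norm_pos_iff.1 hx, Or.inl hx'⟩⟩
  bounded := ⟨r, fun x hx => hx.2.elim (fun h => h.trans hρr) fun h => h.1⟩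
  smooth := by
    intro x hx hx0
    have hcl : x ∈ closure (Us W ρ r s) := frontier_subset_closure hx
    have hnU : x ∉ Us W ρ r s := by
      intro h
      rw [frontier, (isOpen_Us hW.continuous s).interior_eq] at hx
      exact hx.2 h
    have hle : x ∈ {x : E3 | ‖x‖ ≤ ρ} ∪ ({x : E3 | ‖x‖ ≤ r} ∩ {x | W x ≤ s}) := by
      have hclosed : IsClosed ({x : E3 | ‖x‖ ≤ ρ} ∪ ({x : E3 | ‖x‖ ≤ r} ∩ {x | W x ≤ s})) :=
        (isClosed_le continuous_norm continuous_const).union
          ((isClosed_le continuous_norm continuous_const).inter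
            (isClosed_le hW.continuous continuous_const))
      refine closure_minimal ?_ hclosed hcl
      intro y hy
      rcases hy.2 with h | h
      · exact Or.inl h.le
      · exact Or.inr ⟨h.1.le, h.2.le⟩
    have hnρ : ¬ ‖x‖ < ρ := fun h => hnU ⟨hx0, Or.inl h⟩
    have hnρ' : ‖x‖ ≠ ρ := by
      intro h
      have h2 := h0 x ⟨h.ge, by rw [h]; exact hρr.le⟩ h
      exact hnU ⟨hx0, Or.inr ⟨by rw [h]; exact hρr, h2.trans_le hs0⟩⟩
    have hρx : ρ < ‖x‖ := lt_of_le_of_ne (not_lt.1 hnρ) (Ne.symm hnρ')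
    rcases hle with hle | hle
    · exact absurd hle (not_le.2 hρx)
    have hxr : ‖x‖ < r := by
      refine lt_of_le_of_ne hle.1 ?_
      intro h
      have h2 := h1 x ⟨hρx.le, h.le⟩ h
      exact absurd hle.2 (not_le.2 (hs1.trans_lt h2))
    have hWs : W x = s := by
      refine le_antisymm hle.2 ?_
      by_contra h
      exact hnU ⟨hx0, Or.inr ⟨hxr, not_le.1 h⟩⟩
    refine ⟨fun y => W y - s, (hW.sub contDiff_const).contDiffAt, ?_, ?_⟩
    · rw [fderiv_sub_const]
      exact hreg x ⟨hρx.le, hxr.le⟩ hWs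
    · have e1 : ∀ᶠ y : E3 in 𝓝 x, ρ < ‖y‖ :=
        (isOpen_lt continuous_const continuous_norm).mem_nhds hρx
      have e2 : ∀ᶠ y : E3 in 𝓝 x, ‖y‖ < r :=
        (isOpen_lt continuous_norm continuous_const).mem_nhds hxr
      filter_upwards [e1, e2] with y hy1 hy2
      constructor
      · intro hy
        rcases hy.2 with h | h
        · exact absurd h (not_lt.2 hy1.le)
        · linarith [h.2]
      · intro hy
        refine ⟨norm_pos_iff.1 (hρ.trans hy1), Or.inr ⟨hy2, ?_⟩⟩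
        linarith

end Sub

/-! ### The cut-off -/

/-- The primitive `∫_t^b φ`. -/
noncomputable def prim (φ : ℝ → ℝ) (b t : ℝ) : ℝ := ∫ u in t..b, φ u

section Cut

variable {φ : ℝ → ℝ} {a b : ℝ}

theorem prim_deriv (hφ : Continuous φ) (t : ℝ) : HasDerivAt (prim φ b) (-φ t) t := by
  have h1 : prim φ b = fun t => -∫ u in b..t, φ u := by
    funext t
    exact intervalIntegral.integral_symm _ _
  rw [h1]
  exact (hφ.integral_hasStrictDerivAt b t).hasDerivAt.neg

theorem prim_ge (hz : ∀ t, b ≤ t → φ t = 0) {t : ℝ} (ht : b ≤ t) : prim φ b t = 0 := by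
  unfold prim
  rw [intervalIntegral.integral_symm, neg_eq_zero]
  refine intervalIntegral.integral_zero_ae ?_
  refine Eventually.of_forall fun x hx => ?_
  rw [Set.uIoc_of_le ht] at hx
  exact hz x hx.1.le

theorem prim_le (hφ : Continuous φ) (hz : ∀ t, t ≤ a → φ t = 0) {t : ℝ} (ht : t ≤ a) :
    prim φ b t = prim φ b a := by
  unfold prim
  rw [← intervalIntegral.integral_add_adjacent_intervals (hφ.intervalIntegrable t a)
    (hφ.intervalIntegrable a b)]
  have h1 : ∫ u in t..a, φ u = 0 := by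
    refine intervalIntegral.integral_zero_ae ?_
    refine Eventually.of_forall fun x hx => ?_
    rw [Set.uIoc_of_le ht] at hx
    exact hz x hx.2
  rw [h1, zero_add]

theorem prim_nonneg (hφ0 : ∀ t, 0 ≤ φ t) (hz : ∀ t, b ≤ t → φ t = 0) (t : ℝ) :
    0 ≤ prim φ b t := by
  rcases le_total t b with h | h
  · exact intervalIntegral.integral_nonneg h fun u _ => hφ0 u
  · rw [prim_ge hz h]

theorem prim_anti (hφ : Continuous φ) (hφ0 : ∀ t, 0 ≤ φ t) : Antitone (prim φ b) := by
  refine antitone_of_deriv_nonpos (fun t => (prim_deriv hφ t).differentiableAt) fun t => ?_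
  rw [(prim_deriv hφ t).deriv]
  linarith [hφ0 t]

/-- The cut-off function on `E3`. -/
noncomputable def zt (W : E3 → ℝ) (φ : ℝ → ℝ) (ρ r a b : ℝ) (x : E3) : ℝ :=
  if ‖x‖ < ρ then prim φ b a else if ‖x‖ < r then prim φ b (W x) else 0

variable {W : E3 → ℝ} {ρ r : ℝ}

open Classical in
theorem zt_deriv (hW : ContDiff ℝ ∞ W) (hφ : Continuous φ) (hza : ∀ t, t ≤ a → φ t = 0)
    (hzb : ∀ t, b ≤ t → φ t = 0) (hρr : ρ < r)
    (h0 : ∀ x : E3, ‖x‖ = ρ → W x < a) (h1 : ∀ x : E3, ‖x‖ = r → b < W x) (x : E3) :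
    HasFDerivAt (zt W φ ρ r a b)
      (if x ∈ cAnn ρ r then (-φ (W x)) • fderiv ℝ W x else 0) x := by
  have hWd : HasFDerivAt W (fderiv ℝ W x) x :=
    (hW.differentiable (by simp)).differentiableAt.hasFDerivAt
  have hcomp : HasFDerivAt (fun y => prim φ b (W y)) ((-φ (W x)) • fderiv ℝ W x) x :=
    (prim_deriv hφ (W x)).comp_hasFDerivAt x hWd
  rcases lt_trichotomy ‖x‖ ρ with hx | hx | hx
  · -- inside
    rw [if_neg (fun h : x ∈ cAnn ρ r => absurd h.1 (not_le.2 hx))]
    refine (hasFDerivAt_const (prim φ b a) x).congr_of_eventuallyEq ?_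
    filter_upwards [(isOpen_lt continuous_norm continuous_const).mem_nhds hx] with y hy
    have hy' : ‖y‖ < ρ := hy
    unfold zt
    rw [if_pos hy']
  · -- the inner sphere
    have hWa := h0 x hx
    rw [if_pos (show x ∈ cAnn ρ r from ⟨hx.ge, by rw [hx]; exact hρr.le⟩), hza _ hWa.le]
    have e : (-(0:ℝ)) • fderiv ℝ W x = 0 := by simp
    rw [e]
    refine (hasFDerivAt_const (prim φ b a) x).congr_of_eventuallyEq ?_
    have hxr : ‖x‖ < r := by rw [hx]; exact hρr
    filter_upwards [(isOpen_lt hW.continuous continuous_const).mem_nhds hWa,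
      (isOpen_lt continuous_norm continuous_const).mem_nhds hxr] with y hy1 hy2
    have hy1' : W y < a := hy1
    have hy2' : ‖y‖ < r := hy2
    unfold zt
    split_ifs
    · rfl
    · exact prim_le hφ hza hy1'.le
  rcases lt_trichotomy ‖x‖ r with hxr | hxr | hxr
  · -- the annulus
    rw [if_pos (show x ∈ cAnn ρ r from ⟨hx.le, hxr.le⟩)]
    refine hcomp.congr_of_eventuallyEq ?_
    filter_upwards [(isOpen_lt continuous_const continuous_norm).mem_nhds hx,
      (isOpen_lt continuous_norm continuous_const).mem_nhds hxr] with y hy1 hy2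
    have hy1' : ρ < ‖y‖ := hy1
    have hy2' : ‖y‖ < r := hy2
    unfold zt
    rw [if_neg (not_lt.2 hy1'.le), if_pos hy2']
  · -- the outer sphere
    have hWb := h1 x hxr
    rw [if_pos (show x ∈ cAnn ρ r from ⟨hx.le, hxr.le⟩), hzb _ hWb.le]
    have e : (-(0:ℝ)) • fderiv ℝ W x = 0 := by simp
    rw [e]
    refine (hasFDerivAt_const (0:ℝ) x).congr_of_eventuallyEq ?_
    filter_upwards [(isOpen_lt continuous_const hW.continuous).mem_nhds hWb,
      (isOpen_lt continuous_const continuous_norm).mem_nhds hx] with y hy1 hy2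
    have hy1' : b < W y := hy1
    have hy2' : ρ < ‖y‖ := hy2
    unfold zt
    rw [if_neg (not_lt.2 hy2'.le)]
    split_ifs
    · exact prim_ge hzb hy1'.le
    · rfl
  · -- outside
    rw [if_neg (fun h : x ∈ cAnn ρ r => absurd h.2 (not_le.2 hxr))]
    refine (hasFDerivAt_const (0:ℝ) x).congr_of_eventuallyEq ?_
    filter_upwards [(isOpen_lt continuous_const continuous_norm).mem_nhds hxr] with y hy
    have hy' : r < ‖y‖ := hy
    unfold zt
    rw [if_neg (not_lt.2 (hρr.le.trans hy'.le)), if_neg (not_lt.2 hy'.le)]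

end Cut

/-- The integrand of the area. -/
noncomputable def ar (g : TensorField) (W : E3 → ℝ) (x : E3) : ℝ :=
  len g x (grad W x) * volDen g x

theorem ar_nonneg (g : TensorField) (W : E3 → ℝ) (x : E3) : 0 ≤ ar g W x :=
  mul_nonneg (Real.sqrt_nonneg _) (Real.sqrt_nonneg _)

theorem isCompact_cAnn (a b : ℝ) : IsCompact (cAnn a b) := by
  have h1 : cAnn a b = Metric.closedBall (0 : E3) b ∩ {x : E3 | a ≤ ‖x‖} := by
    ext x
    simp only [cAnn, Set.mem_ofPred_eq, Set.mem_inter_iff, mem_closedBall_zero_iff]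
    tauto
  rw [h1]
  exact (isCompact_closedBall _ _).inter_right (isClosed_le continuous_const continuous_norm)

theorem ar_int {g : TensorField} (hg : MetricOn {0}ᶜ g) {W : E3 → ℝ} (hW : ContDiff ℝ ∞ W)
    {ρ r : ℝ} (hρ : 0 < ρ) : IntegrableOn (ar g W) (cAnn ρ r) := by
  refine ContinuousOn.integrableOn_compact (isCompact_cAnn ρ r) (fun x hx => ?_)
  exact (cont_len hg hW (norm_pos_iff.1 (hρ.trans_le hx.1))).continuousWithinAt

/-- The main estimate: the flux of the test field. -/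
theorem flux_le {g : TensorField} (hg : MetricOn {0}ᶜ g) {W : E3 → ℝ} (hW : ContDiff ℝ ∞ W)
    {X : E3 → Cov} (hX : TestField g X) {φ : ℝ → ℝ} {ρ r a b : ℝ} (hρ : 0 < ρ) (hρr : ρ < r)
    (hφ : Continuous φ) (hφ0 : ∀ t, 0 ≤ φ t) (hφ1 : ∀ t, φ t ≤ 1)
    (hza : ∀ t, t ≤ a → φ t = 0) (hzb : ∀ t, b ≤ t → φ t = 0)
    (h0 : ∀ x : E3, ‖x‖ = ρ → W x < a) (h1 : ∀ x : E3, ‖x‖ = r → b < W x) :
    ∫ x, zt W φ ρ r a b x * ∑ i, pd i (fun y => volDen g y * X y i) x
      ≤ ∫ x in cAnn ρ r ∩ {x | a ≤ W x ∧ W x < b}, ar g W x := by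
  classical
  have hA := isCompact_cAnn ρ r
  have hAm : MeasurableSet (cAnn ρ r) := hA.measurableSet
  have hzd := fun x => zt_deriv hW hφ hza hzb hρr h0 h1 x
  have hzdiff : ∀ x, DifferentiableAt ℝ (zt W φ ρ r a b) x := fun x => (hzd x).differentiableAt
  have hzc : Continuous (zt W φ ρ r a b) := by
    rw [continuous_iff_continuousAt]
    exact fun x => (hzdiff x).continuousAt
  have hpd : ∀ i x, fderiv ℝ (zt W φ ρ r a b) x (EuclideanSpace.single i 1)
      = (cAnn ρ r).indicator (fun x => -(φ (W x) * pd i W x)) x := by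
    intro i x
    rw [(hzd x).fderiv]
    by_cases hx : x ∈ cAnn ρ r
    · rw [if_pos hx, Set.indicator_of_mem hx]
      simp [pd]
    · rw [if_neg hx, Set.indicator_of_notMem hx]
      simp
  have hYc : ∀ i, Continuous (fun y => volDen g y * X y i) := fun i => (Y_smooth hg hX i).continuous
  -- integration by parts
  have hibp : ∀ i, ∫ x, zt W φ ρ r a b x * pd i (fun y => volDen g y * X y i) x
      = ∫ x in cAnn ρ r, φ (W x) * pd i W x * (volDen g x * X x i) := by
    intro i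
    have i1 : Integrable (fun x => fderiv ℝ (zt W φ ρ r a b) x (EuclideanSpace.single i 1)
        * (volDen g x * X x i)) := by
      have h2 : (fun x => fderiv ℝ (zt W φ ρ r a b) x (EuclideanSpace.single i 1)
          * (volDen g x * X x i)) = (cAnn ρ r).indicator
            (fun x => -(φ (W x) * pd i W x) * (volDen g x * X x i)) := by
        funext x
        rw [hpd i x]
        by_cases hx : x ∈ cAnn ρ r
        · rw [Set.indicator_of_mem hx, Set.indicator_of_mem hx]
        · rw [Set.indicator_of_notMem hx, Set.indicator_of_notMem hx, zero_mul]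
      rw [h2]
      refine Integrable.indicator ?_ hAm
      refine Continuous.integrable_of_hasCompactSupport ?_ (Y_supp hX i).mul_left
      exact (((hφ.comp hW.continuous).mul (cont_pd hW i)).neg).mul (hYc i)
    have i2 : Integrable (fun x => zt W φ ρ r a b x
        * fderiv ℝ (fun y => volDen g y * X y i) x (EuclideanSpace.single i 1)) := by
      refine Continuous.integrable_of_hasCompactSupport ?_ ?_
      · exact hzc.mul (cont_pd (Y_smooth hg hX i) i)
      · refine HasCompactSupport.mul_left ?_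
        have h := (Y_supp hX i).fderiv (𝕜 := ℝ)
        refine h.mono ?_
        intro x hx
        rw [Function.mem_support] at hx ⊢
        intro h0
        apply hx
        rw [h0]
        simp
    have i3 : Integrable (fun x => zt W φ ρ r a b x * (volDen g x * X x i)) :=
      Continuous.integrable_of_hasCompactSupport (hzc.mul (hYc i)) (Y_supp hX i).mul_left
    have h3 := integral_mul_fderiv_eq_neg_fderiv_mul_of_integrable i1 i2 i3
      (fun x _ => hzdiff x)
      (fun x _ => ((Y_smooth hg hX i).differentiable (by simp)).differentiableAt)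
    have h4 : ∫ x, zt W φ ρ r a b x * pd i (fun y => volDen g y * X y i) x
        = -∫ x, fderiv ℝ (zt W φ ρ r a b) x (EuclideanSpace.single i 1)
        * (volDen g x * X x i) := h3
    rw [h4, ← integral_neg, ← integral_indicator hAm]
    refine integral_congr_ae (Eventually.of_forall fun x => ?_)
    simp only
    rw [hpd i x]
    by_cases hx : x ∈ cAnn ρ r
    · rw [Set.indicator_of_mem hx, Set.indicator_of_mem hx]
      ring
    · rw [Set.indicator_of_notMem hx, Set.indicator_of_notMem hx]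
      ring
  have hint : ∀ i, Integrable (fun x => zt W φ ρ r a b x
      * pd i (fun y => volDen g y * X y i) x) := by
    intro i
    refine Continuous.integrable_of_hasCompactSupport (hzc.mul (cont_pd (Y_smooth hg hX i) i)) ?_
    refine HasCompactSupport.mul_left ?_
    have h := (Y_supp hX i).fderiv (𝕜 := ℝ)
    refine h.mono ?_
    intro x hx
    rw [Function.mem_support] at hx ⊢
    intro h0
    apply hx
    unfold pd
    rw [h0]
    simp
  have hint2 : ∀ i, IntegrableOn (fun x => φ (W x) * pd i W x * (volDen g x * X x i))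
      (cAnn ρ r) := by
    intro i
    exact (((hφ.comp hW.continuous).mul (cont_pd hW i)).mul (hYc i)).continuousOn.integrableOn_compact
      hA
  have hsum : ∫ x, zt W φ ρ r a b x * ∑ i, pd i (fun y => volDen g y * X y i) x
      = ∫ x in cAnn ρ r, ∑ i, φ (W x) * pd i W x * (volDen g x * X x i) := by
    rw [integral_finsetSum _ (fun i _ => hint2 i)]
    rw [← Finset.sum_congr rfl (fun i _ => hibp i), ← integral_finsetSum _ (fun i _ => hint i)]
    refine integral_congr_ae (Eventually.of_forall fun x => ?_)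
    simp only
    rw [Finset.mul_sum]
  rw [hsum]
  have hBm : MeasurableSet {x | a ≤ W x ∧ W x < b} :=
    (measurableSet_le measurable_const hW.continuous.measurable).inter
      (measurableSet_lt hW.continuous.measurable measurable_const)
  have e2 : ∫ x in cAnn ρ r ∩ {x | a ≤ W x ∧ W x < b}, ar g W x
      = ∫ x in cAnn ρ r, {x | a ≤ W x ∧ W x < b}.indicator (ar g W) x := by
    rw [setIntegral_indicator hBm]
  rw [e2]
  refine setIntegral_mono_on (integrable_finsetSum _ fun i _ => hint2 i)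
    ((ar_int hg hW hρ).indicator hBm) hAm fun x hx => ?_
  have hx0 : x ≠ 0 := norm_pos_iff.1 (hρ.trans_le hx.1)
  have e3 : ∑ i, φ (W x) * pd i W x * (volDen g x * X x i)
      = φ (W x) * volDen g x * ∑ i, grad W x i * X x i := by
    rw [Finset.mul_sum]
    refine Finset.sum_congr rfl fun i _ => ?_
    unfold grad
    ring
  rw [e3]
  have hv : 0 ≤ volDen g x := Real.sqrt_nonneg _
  by_cases hab : a ≤ W x ∧ W x < b
  · rw [Set.indicator_of_mem (show x ∈ {x | a ≤ W x ∧ W x < b} from hab)]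
    have h5 : ∑ i, grad W x i * X x i ≤ len g x (grad W x) :=
      (le_abs_self _).trans (abs_le_len (hg.posDef x hx0) _ _ (hX.short x hx0))
    have h6 : 0 ≤ len g x (grad W x) := Real.sqrt_nonneg _
    calc φ (W x) * volDen g x * ∑ i, grad W x i * X x i
        ≤ φ (W x) * volDen g x * len g x (grad W x) :=
          mul_le_mul_of_nonneg_left h5 (mul_nonneg (hφ0 _) hv)
      _ ≤ 1 * volDen g x * len g x (grad W x) := by
          refine mul_le_mul_of_nonneg_right (mul_le_mul_of_nonneg_right (hφ1 _) hv) h6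
      _ = ar g W x := by unfold ar; ring
  · rw [Set.indicator_of_notMem (show x ∉ {x | a ≤ W x ∧ W x < b} from hab)]
    have h7 : φ (W x) = 0 := by
      rcases lt_or_ge (W x) a with h | h
      · exact hza _ h.le
      · exact hzb _ (not_lt.1 fun h' => hab ⟨h, h'⟩)
    rw [h7]
    simp

/-- The area of the part `a ≤ W < b`. -/
noncomputable def jj (g : TensorField) (W : E3 → ℝ) (ρ r a b : ℝ) : ℝ :=
  ∫ x in cAnn ρ r ∩ {x | a ≤ W x ∧ W x < b}, ar g W x

/-- The trapezoid function. -/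
noncomputable def trap (a b κ t : ℝ) : ℝ := max 0 (min 1 (min ((t - a) / κ) ((b - t) / κ)))

theorem trap_cont (a b κ : ℝ) : Continuous (trap a b κ) := by
  unfold trap
  fun_prop

theorem trap_prim {a b κ : ℝ} (hκ : 0 < κ) (hab : 2 * κ ≤ b - a) :
    b - a - 2 * κ ≤ prim (trap a b κ) b a := by
  have hc := trap_cont a b κ
  have h0 : ∀ t, 0 ≤ trap a b κ t := fun t => le_max_left _ _
  unfold prim
  rw [← intervalIntegral.integral_add_adjacent_intervals (hc.intervalIntegrable a (a + κ))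
    (hc.intervalIntegrable (a + κ) b), ← intervalIntegral.integral_add_adjacent_intervals
    (hc.intervalIntegrable (a + κ) (b - κ)) (hc.intervalIntegrable (b - κ) b)]
  have e1 : 0 ≤ ∫ u in a..(a + κ), trap a b κ u :=
    intervalIntegral.integral_nonneg (by linarith) fun u _ => h0 u
  have e2 : 0 ≤ ∫ u in (b - κ)..b, trap a b κ u :=
    intervalIntegral.integral_nonneg (by linarith) fun u _ => h0 u
  have e3 : b - a - 2 * κ ≤ ∫ u in (a + κ)..(b - κ), trap a b κ u := by
    have h1 : ∫ _u in (a + κ)..(b - κ), (1 : ℝ) = b - a - 2 * κ := by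
      rw [intervalIntegral.integral_const]
      simp
      ring
    rw [← h1]
    refine intervalIntegral.integral_mono_on (by linarith) intervalIntegrable_const
      (hc.intervalIntegrable _ _) fun u hu => ?_
    unfold trap
    refine le_max_of_le_right (le_min le_rfl (le_min ?_ ?_))
    · rw [le_div_iff₀ hκ]
      linarith [hu.1]
    · rw [le_div_iff₀ hκ]
      linarith [hu.2]
  linarith

theorem jj_nonneg (g : TensorField) (W : E3 → ℝ) (ρ r a b : ℝ) : 0 ≤ jj g W ρ r a b :=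
  integral_nonneg fun x => ar_nonneg g W x

/-- The local estimate. -/
theorem local_left {g : TensorField} (hg : MetricOn {0}ᶜ g) {W : E3 → ℝ} (hW : ContDiff ℝ ∞ W)
    {X : E3 → Cov} (hX : TestField g X) {ρ r s₀ s₁ s A' : ℝ} (hρ : 0 < ρ) (hρr : ρ < r)
    (h0 : ∀ x : E3, ‖x‖ = ρ → W x < s₀) (h1 : ∀ x : E3, ‖x‖ = r → s₁ < W x) (hs0 : s₀ < s)
    (hs1 : s ≤ s₁) (hA0 : 0 ≤ A')
    (hA : A' < ∫ x in Us W ρ r s, ∑ i, pd i (fun y => volDen g y * X y i) x) :
    ∃ t, s₀ ≤ t ∧ t < s ∧ ∀ a, t ≤ a → a < s → A' * (s - a) ≤ jj g W ρ r a s := by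
  have hDc := D_cont hg hX
  have hDi := D_int hg hX
  set D : E3 → ℝ := fun x => ∑ i, pd i (fun y => volDen g y * X y i) x with hD
  have hUm : ∀ t, MeasurableSet (Us W ρ r t) := fun t => (isOpen_Us hW.continuous t).measurableSet
  -- the sets shrink to the empty set
  set T : ℕ → Set E3 := fun n => Us W ρ r s \ Us W ρ r (s - 1 / ((n : ℝ) + 1)) with hT
  have hTm : ∀ n, MeasurableSet (T n) := fun n => (hUm _).diff (hUm _)
  have hTa : Antitone T := by
    intro m n hmn
    refine Set.sdiff_subset_sdiff_right (Us_mono ?_)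
    have h2 : 1 / ((n : ℝ) + 1) ≤ 1 / ((m : ℝ) + 1) :=
      one_div_le_one_div_of_le (by positivity) (by exact_mod_cast Nat.succ_le_succ hmn)
    linarith
  have hTi : ⋂ n, T n = ∅ := by
    rw [Set.eq_empty_iff_forall_notMem]
    intro x hx
    rw [Set.mem_iInter] at hx
    have hx0 := hx 0
    rcases hx0.1.2 with h | h
    · exact hx0.2 ⟨hx0.1.1, Or.inl h⟩
    · obtain ⟨n, hn⟩ := exists_nat_one_div_lt (sub_pos.2 h.2)
      refine (hx n).2 ⟨hx0.1.1, Or.inr ⟨h.1, ?_⟩⟩
      linarith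
  have hlim := tendsto_setIntegral_of_antitone (μ := volume) hTm hTa
    ⟨0, (hDi.norm.integrableOn (s := T 0))⟩
  rw [hTi, Measure.restrict_empty, integral_zero_measure] at hlim
  have hgap : 0 < (∫ x in Us W ρ r s, D x) - A' := sub_pos.2 hA
  obtain ⟨n, hn⟩ := (hlim.eventually (gt_mem_nhds hgap)).exists
  have hnp : (0 : ℝ) < 1 / ((n : ℝ) + 1) := by positivity
  refine ⟨max s₀ (s - 1 / ((n : ℝ) + 1)), le_max_left _ _, max_lt hs0 (by linarith), ?_⟩
  intro a ha has
  have ha0 : s₀ ≤ a := (le_max_left _ _).trans ha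
  have han : s - 1 / ((n : ℝ) + 1) ≤ a := (le_max_right _ _).trans ha
  refine le_of_forall_pos_le_add fun ε hε => ?_
  set κ : ℝ := min ((s - a) / 4) (ε / (2 * (A' + 1))) with hκ
  have hκ0 : 0 < κ := lt_min (by linarith) (by positivity)
  have hκ1 : κ ≤ (s - a) / 4 := min_le_left _ _
  have hκ2 : κ ≤ ε / (2 * (A' + 1)) := min_le_right _ _
  have hφ0 : ∀ t, 0 ≤ trap a s κ t := fun t => le_max_left _ _
  have hφ1 : ∀ t, trap a s κ t ≤ 1 := fun t => max_le zero_le_one (min_le_left _ _)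
  have hza : ∀ t, t ≤ a → trap a s κ t = 0 := by
    intro t ht
    unfold trap
    refine max_eq_left ((min_le_right _ _).trans ((min_le_left _ _).trans ?_))
    exact div_nonpos_of_nonpos_of_nonneg (by linarith) hκ0.le
  have hzb : ∀ t, s ≤ t → trap a s κ t = 0 := by
    intro t ht
    unfold trap
    refine max_eq_left ((min_le_right _ _).trans ((min_le_right _ _).trans ?_))
    exact div_nonpos_of_nonpos_of_nonneg (by linarith) hκ0.le
  have hc := trap_cont a s κ
  have hfl := flux_le hg hW hX hρ hρr hc hφ0 hφ1 hza hzb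
    (fun x hx => (h0 x hx).trans_le ha0) (fun x hx => hs1.trans_lt (h1 x hx))
  set I : ℝ := prim (trap a s κ) s a with hI
  have hI0 : 0 ≤ I := prim_nonneg hφ0 hzb a
  have hI1 : s - a - 2 * κ ≤ I := trap_prim hκ0 (by linarith)
  -- lower bound of the integral
  have hlow : I * A' ≤ ∫ x, zt W (trap a s κ) ρ r a s x * D x := by
    have b1 : I * A' ≤ I * ((∫ x in Us W ρ r s, D x) - ∫ x in T n, ‖D x‖) := by
      refine mul_le_mul_of_nonneg_left ?_ hI0
      linarith
    have b2 : I * ((∫ x in Us W ρ r s, D x) - ∫ x in T n, ‖D x‖)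
        = ∫ x, (I * (Us W ρ r s).indicator D x - I * (T n).indicator (fun x => ‖D x‖) x) := by
      rw [integral_sub ((hDi.indicator (hUm s)).const_mul I)
        ((hDi.norm.indicator (hTm n)).const_mul I), integral_const_mul, integral_const_mul,
        integral_indicator (hUm s), integral_indicator (hTm n)]
      ring
    rw [b2] at b1
    refine b1.trans ?_
    have hzd := fun x => zt_deriv hW hc hza hzb hρr
      (fun x hx => (h0 x hx).trans_le ha0) (fun x hx => hs1.trans_lt (h1 x hx)) x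
    have hzc : Continuous (zt W (trap a s κ) ρ r a s) := by
      classical
      rw [continuous_iff_continuousAt]
      exact fun x => (hzd x).differentiableAt.continuousAt
    have hDcs : HasCompactSupport D := by
      have h2 : ∀ i, HasCompactSupport (fun x => pd i (fun y => volDen g y * X y i) x) := by
        intro i
        have h := (Y_supp hX i).fderiv (𝕜 := ℝ)
        refine h.mono ?_
        intro x hx
        rw [Function.mem_support] at hx ⊢
        intro h0
        apply hx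
        unfold pd
        rw [h0]
        simp
      have h3 : D = fun x => pd 0 (fun y => volDen g y * X y 0) x
          + pd 1 (fun y => volDen g y * X y 1) x + pd 2 (fun y => volDen g y * X y 2) x := by
        funext x
        rw [hD]
        simp only [Fin.sum_univ_three]
      rw [h3]
      exact ((h2 0).add (h2 1)).add (h2 2)
    refine integral_mono_ae (((hDi.indicator (hUm s)).const_mul I).sub
      ((hDi.norm.indicator (hTm n)).const_mul I))
      ((hzc.mul hDc).integrable_of_hasCompactSupport hDcs.mul_left) ?_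
    have hne : ∀ᵐ x : E3 ∂volume, x ≠ 0 := by
      rw [ae_iff]
      simp
    filter_upwards [hne] with x hx
    have hzz : 0 ≤ zt W (trap a s κ) ρ r a s x ∧ zt W (trap a s κ) ρ r a s x ≤ I := by
      unfold zt
      split_ifs with c1 c2
      · exact ⟨hI0, le_rfl⟩
      · refine ⟨prim_nonneg hφ0 hzb _, ?_⟩
        rcases le_total (W x) a with h | h
        · rw [prim_le hc hza h]
        · exact prim_anti hc hφ0 h
      · exact ⟨le_rfl, hI0⟩
    by_cases hxs : x ∈ Us W ρ r s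
    · rw [Set.indicator_of_mem hxs]
      by_cases hxa : x ∈ Us W ρ r a
      · have e : zt W (trap a s κ) ρ r a s x = I := by
          unfold zt
          rcases hxa.2 with h | h
          · rw [if_pos h]
          · split_ifs with c1 c2
            · rfl
            · exact prim_le hc hza h.2.le
            · exact absurd h.1 c2
        rw [e]
        have h2 : 0 ≤ I * (T n).indicator (fun x => ‖D x‖) x :=
          mul_nonneg hI0 (Set.indicator_nonneg (fun _ _ => norm_nonneg _) _)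
        linarith
      · have hxT : x ∈ T n := ⟨hxs, fun h => hxa (Us_mono han h)⟩
        rw [Set.indicator_of_mem hxT]
        have h2 : -|D x| ≤ D x := neg_abs_le _
        have h3 : D x ≤ |D x| := le_abs_self _
        have h4 : I * D x - I * ‖D x‖ ≤ zt W (trap a s κ) ρ r a s x * D x := by
          rw [Real.norm_eq_abs]
          rcases le_total 0 (D x) with h | h
          · rw [abs_of_nonneg h]
            have := mul_nonneg hzz.1 h
            linarith
          · rw [abs_of_nonpos h]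
            nlinarith [mul_le_mul_of_nonpos_right hzz.2 h, mul_nonneg hI0 (neg_nonneg.2 h)]
        exact h4
    · rw [Set.indicator_of_notMem hxs]
      have hxT : x ∉ T n := fun h => hxs h.1
      rw [Set.indicator_of_notMem hxT]
      have e : zt W (trap a s κ) ρ r a s x = 0 := by
        unfold zt
        split_ifs with c1 c2
        · exact absurd ⟨hx, Or.inl c1⟩ hxs
        · refine prim_ge hzb ?_
          by_contra h
          exact hxs ⟨hx, Or.inr ⟨c2, not_le.1 h⟩⟩
        · rfl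
      rw [e]
      simp
  have hJ : I * A' ≤ jj g W ρ r a s := hlow.trans hfl
  have hA1 : (s - a - 2 * κ) * A' ≤ I * A' := mul_le_mul_of_nonneg_right hI1 hA0
  have hA2 : 2 * κ * A' ≤ ε := by
    have h2 : 2 * κ * A' ≤ 2 * (ε / (2 * (A' + 1))) * A' := by
      refine mul_le_mul_of_nonneg_right ?_ hA0
      linarith
    have h3 : 2 * (ε / (2 * (A' + 1))) * A' = ε * (A' / (A' + 1)) := by
      field_simp
    have h4 : A' / (A' + 1) ≤ 1 := by
      rw [div_le_one (by linarith)]
      linarith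
    have h5 : ε * (A' / (A' + 1)) ≤ ε * 1 := mul_le_mul_of_nonneg_left h4 hε.le
    linarith
  nlinarith

theorem jj_add {g : TensorField} (hg : MetricOn {0}ᶜ g) {W : E3 → ℝ} (hW : ContDiff ℝ ∞ W)
    {ρ r a b c : ℝ} (hρ : 0 < ρ) (hab : a ≤ b) (hbc : b ≤ c) :
    jj g W ρ r a c = jj g W ρ r a b + jj g W ρ r b c := by
  have hAm : MeasurableSet (cAnn ρ r) := (isCompact_cAnn ρ r).measurableSet
  have hBm : ∀ a b : ℝ, MeasurableSet {x | a ≤ W x ∧ W x < b} := fun a b =>
    (measurableSet_le measurable_const hW.continuous.measurable).inter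
      (measurableSet_lt hW.continuous.measurable measurable_const)
  unfold jj
  have h1 : cAnn ρ r ∩ {x | a ≤ W x ∧ W x < c}
      = (cAnn ρ r ∩ {x | a ≤ W x ∧ W x < b}) ∪ (cAnn ρ r ∩ {x | b ≤ W x ∧ W x < c}) := by
    ext x
    constructor
    · rintro ⟨h2, h3, h4⟩
      rcases lt_or_ge (W x) b with h | h
      · exact Or.inl ⟨h2, h3, h⟩
      · exact Or.inr ⟨h2, h, h4⟩
    · rintro (⟨h2, h3, h4⟩ | ⟨h2, h3, h4⟩)
      · exact ⟨h2, h3, h4.trans_le hbc⟩
      · exact ⟨h2, hab.trans h3, h4⟩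
  rw [h1]
  refine setIntegral_union ?_ (hAm.inter (hBm b c)) ((ar_int hg hW hρ).mono_set
    Set.inter_subset_left) ((ar_int hg hW hρ).mono_set Set.inter_subset_left)
  rw [Set.disjoint_left]
  intro x hx hx'
  exact absurd hx'.2.1 (not_le.2 hx.2.2)

/-- The chain argument. -/
theorem chain {J : ℝ → ℝ → ℝ} {s₀ s₁ A' : ℝ} (hs : s₀ ≤ s₁) (hA0 : 0 ≤ A')
    (hJ0 : ∀ a b, 0 ≤ J a b) (hJ : ∀ a b c, a ≤ b → b ≤ c → J a c = J a b + J b c)
    {C : Set ℝ} (hC : C.Finite)
    (hloc : ∀ s, s₀ < s → s ≤ s₁ → s ∉ C → ∃ t, s₀ ≤ t ∧ t < s ∧ A' * (s - t) ≤ J t s) :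
    A' * (s₁ - s₀) ≤ J s₀ s₁ := by
  classical
  set F : Finset ℝ := hC.toFinset with hF
  set N : ℝ → ℝ := fun t => ((F.filter fun c => t < c).card : ℝ) with hN
  have hNanti : ∀ t t', t ≤ t' → N t' ≤ N t := by
    intro t t' htt
    rw [hN]
    simp only
    exact_mod_cast Finset.card_le_card
      (Finset.monotone_filter_right F fun c _ hc => htt.trans_lt hc)
  have hNstep : ∀ t T, t < T → T ∈ C → N T + 1 ≤ N t := by
    intro t T htT hTC
    rw [hN]
    simp only
    have h1 : (F.filter fun c => T < c) ⊂ (F.filter fun c => t < c) := by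
      rw [Finset.ssubset_iff_of_subset
        (Finset.monotone_filter_right F fun c _ hc => htT.trans hc)]
      refine ⟨T, Finset.mem_filter.2 ⟨hC.mem_toFinset.2 hTC, htT⟩, ?_⟩
      rw [Finset.mem_filter]
      exact fun h => lt_irrefl _ h.2
    have h2 := Finset.card_lt_card h1
    exact_mod_cast h2
  have hN0 : ∀ t, 0 ≤ N t := fun t => Nat.cast_nonneg _
  have key : ∀ ε : ℝ, 0 < ε → A' * (s₁ - s₀) ≤ J s₀ s₁ + ε * N s₀ := by
    intro ε hε
    set S : Set ℝ := {t | s₀ ≤ t ∧ t ≤ s₁ ∧ A' * (s₁ - t) ≤ J t s₁ + ε * N t} with hS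
    have hS1 : s₁ ∈ S := by
      refine ⟨hs, le_rfl, ?_⟩
      have := hJ0 s₁ s₁
      have := mul_nonneg hε.le (hN0 s₁)
      simp only [sub_self, mul_zero]
      linarith
    have hbdd : BddBelow S := ⟨s₀, fun t ht => ht.1⟩
    set T : ℝ := sInf S with hT
    have hT0 : s₀ ≤ T := le_csInf ⟨s₁, hS1⟩ fun t ht => ht.1
    have hT1 : T ≤ s₁ := csInf_le hbdd hS1
    have hTS : A' * (s₁ - T) ≤ J T s₁ + ε * N T := by
      refine le_of_forall_pos_le_add fun δ hδ => ?_
      obtain ⟨t, ht, htT⟩ := exists_lt_of_csInf_lt ⟨s₁, hS1⟩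
        (show sInf S < T + δ / (A' + 1) by
          have : 0 < δ / (A' + 1) := by positivity
          linarith)
      have hTt : T ≤ t := csInf_le hbdd ht
      have h1 := ht.2.2
      have h2 := hJ T t s₁ hTt ht.2.1
      have h3 := hJ0 T t
      have h4 : ε * N t ≤ ε * N T := mul_le_mul_of_nonneg_left (hNanti T t hTt) hε.le
      have h5 : A' * (t - T) ≤ δ := by
        have h6 : A' * (t - T) ≤ A' * (δ / (A' + 1)) :=
          mul_le_mul_of_nonneg_left (by linarith) hA0
        have h7 : A' * (δ / (A' + 1)) = δ * (A' / (A' + 1)) := by ring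
        have h8 : A' / (A' + 1) ≤ 1 := by
          rw [div_le_one (by linarith)]
          linarith
        have h9 : δ * (A' / (A' + 1)) ≤ δ * 1 := mul_le_mul_of_nonneg_left h8 hδ.le
        linarith
      nlinarith
    rcases eq_or_lt_of_le hT0 with h | h
    · rw [h]
      exact hTS
    · exfalso
      by_cases hTC : T ∈ C
      · set t : ℝ := max s₀ (T - ε / (A' + 1)) with ht
        have hp : 0 < ε / (A' + 1) := by positivity
        have ht0 : s₀ ≤ t := le_max_left _ _
        have htT : t < T := max_lt h (by linarith)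
        have ht2 : T - t ≤ ε / (A' + 1) := by
          have := le_max_right s₀ (T - ε / (A' + 1))
          linarith
        have h5 : A' * (T - t) ≤ ε := by
          have h6 : A' * (T - t) ≤ A' * (ε / (A' + 1)) := mul_le_mul_of_nonneg_left ht2 hA0
          have h7 : A' * (ε / (A' + 1)) = ε * (A' / (A' + 1)) := by ring
          have h8 : A' / (A' + 1) ≤ 1 := by
            rw [div_le_one (by linarith)]
            linarith
          have h9 : ε * (A' / (A' + 1)) ≤ ε * 1 := mul_le_mul_of_nonneg_left h8 hε.le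
          linarith
        have h10 : t ∈ S := by
          refine ⟨ht0, htT.le.trans hT1, ?_⟩
          have h1 := hJ t T s₁ htT.le hT1
          have h2 := hJ0 t T
          have h3 := mul_le_mul_of_nonneg_left (hNstep t T htT hTC) hε.le
          nlinarith
        exact absurd (csInf_le hbdd h10) (not_le.2 htT)
      · obtain ⟨t, ht0, htT, ht2⟩ := hloc T h hT1 hTC
        have h10 : t ∈ S := by
          refine ⟨ht0, htT.le.trans hT1, ?_⟩
          have h1 := hJ t T s₁ htT.le hT1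
          have h3 := mul_le_mul_of_nonneg_left (hNanti t T htT.le) hε.le
          nlinarith
        exact absurd (csInf_le hbdd h10) (not_le.2 htT)
  refine le_of_forall_pos_le_add fun δ hδ => ?_
  have h1 := key (δ / (N s₀ + 1)) (div_pos hδ (by linarith [hN0 s₀]))
  have h2 : δ / (N s₀ + 1) * N s₀ ≤ δ := by
    have h3 : δ / (N s₀ + 1) * N s₀ = δ * (N s₀ / (N s₀ + 1)) := by ring
    have h4 : N s₀ / (N s₀ + 1) ≤ 1 := by
      rw [div_le_one (by linarith [hN0 s₀])]
      linarith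
    have h5 : δ * (N s₀ / (N s₀ + 1)) ≤ δ * 1 := mul_le_mul_of_nonneg_left h4 hδ.le
    linarith
  linarith

end PERAaux

open PERAaux

/-- PERA: perimeter of the sublevel sets of a smooth function. -/
theorem PERA : Stmt_PERA := by
  intro g W ρ r s₀ s₁ hg hρ hρr hs hW h0 h1 hfin A hA
  have h0' : ∀ x : E3, ‖x‖ = ρ → W x < s₀ := fun x hx =>
    h0 x ⟨hx.ge, by rw [hx]; exact hρr.le⟩ hx
  have h1' : ∀ x : E3, ‖x‖ = r → s₁ < W x := fun x hx =>
    h1 x ⟨by rw [hx]; exact hρr.le, hx.le⟩ hx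
  have hRHS : 0 ≤ ∫ x in cAnn ρ r ∩ {x | s₀ ≤ W x ∧ W x ≤ s₁}, len g x (grad W x) * volDen g x :=
    integral_nonneg fun x => ar_nonneg g W x
  have hAm : MeasurableSet (cAnn ρ r) := (isCompact_cAnn ρ r).measurableSet
  have hJR : jj g W ρ r s₀ s₁
      ≤ ∫ x in cAnn ρ r ∩ {x | s₀ ≤ W x ∧ W x ≤ s₁}, len g x (grad W x) * volDen g x := by
    unfold jj
    refine setIntegral_mono_set ((ar_int hg hW hρ).mono_set Set.inter_subset_left)
      (Eventually.of_forall fun x => ar_nonneg g W x) ?_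
    refine (HasSubset.Subset.eventuallyLE ?_)
    exact Set.inter_subset_inter_right _ fun x hx => ⟨hx.1, hx.2.le⟩
  rcases le_or_gt A 0 with hA0 | hA0
  · have : A * (s₁ - s₀) ≤ 0 := mul_nonpos_of_nonpos_of_nonneg hA0 (by linarith)
    linarith
  by_contra hcon
  rw [not_le] at hcon
  set R : ℝ := ∫ x in cAnn ρ r ∩ {x | s₀ ≤ W x ∧ W x ≤ s₁}, len g x (grad W x) * volDen g x
    with hR
  have hd : 0 < s₁ - s₀ := sub_pos.2 hs
  set A' : ℝ := (A + R / (s₁ - s₀)) / 2 with hA'
  have hq : R / (s₁ - s₀) < A := by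
    rw [div_lt_iff₀ hd]
    exact hcon
  have hq0 : 0 ≤ R / (s₁ - s₀) := div_nonneg hRHS hd.le
  have hA'0 : 0 ≤ A' := by
    rw [hA']
    linarith
  have hA'A : A' < A := by
    rw [hA']
    linarith
  have hch : A' * (s₁ - s₀) ≤ jj g W ρ r s₀ s₁ := by
    refine chain hs.le hA'0 (fun a b => jj_nonneg g W ρ r a b)
      (fun a b c hab hbc => jj_add hg hW hρ hab hbc) hfin ?_
    intro s hs0 hs1 hsC
    have hreg : ∀ x ∈ cAnn ρ r, W x = s → fderiv ℝ W x ≠ 0 := fun x hx hxs hd0 =>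
      hsC ⟨hs0.le, hs1, x, hx, hxs, hd0⟩
    have hsep := separates_Us hW hρ hρr h0 h1 hs0.le hs1 hreg
    have hlt : ENNReal.ofReal A' < perimeter g (Us W ρ r s) :=
      lt_of_lt_of_le ((ENNReal.ofReal_lt_ofReal_iff_of_nonneg hA'0).2 hA'A) (hA _ hsep)
    unfold perimeter at hlt
    rw [lt_iSup_iff] at hlt
    obtain ⟨X, hlt⟩ := hlt
    rw [lt_iSup_iff] at hlt
    obtain ⟨hX, hlt⟩ := hlt
    rw [ENNReal.ofReal_lt_ofReal_iff_of_nonneg hA'0] at hlt
    obtain ⟨t, ht0, hts, ht⟩ := local_left hg hW hX hρ hρr h0' h1' hs0 hs1 hA'0 hlt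
    exact ⟨t, ht0, hts, ht t le_rfl hts⟩
  have h5 : A' * (s₁ - s₀) = (A * (s₁ - s₀) + R) / 2 := by
    rw [hA']
    field_simp
  linarith

end Pool.Agent.PFlow


end

section

/-!
# Module UPH: upper bounds for the flux and the weight
-/

open MeasureTheory Filter Topology
open scoped ContDiff ENNReal

namespace Pool.Agent.PFlow

open Pool.Agent.PenroseSph

namespace UphM

/-- Bounds of the determinant of an elliptic matrix. -/
theorem det_bd {G : Bil} (hG : G.transpose = G) {C : ℝ} (hC : 0 < C)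
    (h : ∀ v : Cov, (∑ i, v i ^ 2) ≤ C * ev G v v ∧ ev G v v ≤ C * ∑ i, v i ^ 2) :
    1 ≤ C ^ 3 * G.det ∧ G.det ≤ C ^ 3 := by
  obtain ⟨U, l, hU, hUl⟩ := HATA.exists_diag hG
  have hl : ∀ k, 1 ≤ C * l k ∧ l k ≤ C := by
    intro k
    have h1 : l k = ev G (fun i => U i k) (fun i => U i k) := by
      have h2 : (U.transpose * G * U) k k = l k := by rw [hUl, Matrix.diagonal_apply_eq]
      rw [← h2]
      simp only [Matrix.mul_apply, Matrix.transpose_apply, ev, Fin.sum_univ_three]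
      ring
    have h3 : ∑ i, (fun i => U i k) i ^ 2 = 1 := by
      have h4 : (U.transpose * U) k k = 1 := by rw [hU, Matrix.one_apply_eq]
      rw [← h4]
      simp only [Matrix.mul_apply, Matrix.transpose_apply, Fin.sum_univ_three]
      ring
    have h5 := h (fun i => U i k)
    rw [h3, ← h1, mul_one] at h5
    exact h5
  have hdet : G.det = l 0 * l 1 * l 2 := by
    have h1 : (U.transpose * G * U).det = l 0 * l 1 * l 2 := by
      rw [hUl, Matrix.det_diagonal, Fin.prod_univ_three]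
    have h2 : U.transpose.det * U.det = 1 := by rw [← Matrix.det_mul, hU, Matrix.det_one]
    rw [Matrix.det_mul, Matrix.det_mul] at h1
    calc G.det = (U.transpose.det * U.det) * G.det := by rw [h2, one_mul]
      _ = U.transpose.det * G.det * U.det := by ring
      _ = l 0 * l 1 * l 2 := h1
  obtain ⟨a0, b0⟩ := hl 0
  obtain ⟨a1, b1⟩ := hl 1
  obtain ⟨a2, b2⟩ := hl 2
  have p0 : 0 < l 0 := by by_contra hn; nlinarith [mul_nonneg hC.le (neg_nonneg.2 (not_lt.1 hn))]
  have p1 : 0 < l 1 := by by_contra hn; nlinarith [mul_nonneg hC.le (neg_nonneg.2 (not_lt.1 hn))]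
  have p2 : 0 < l 2 := by by_contra hn; nlinarith [mul_nonneg hC.le (neg_nonneg.2 (not_lt.1 hn))]
  rw [hdet]
  constructor
  · calc (1 : ℝ) = 1 * 1 * 1 := by ring
      _ ≤ (C * l 0) * (C * l 1) * (C * l 2) :=
        mul_le_mul (mul_le_mul a0 a1 zero_le_one (by positivity)) a2 zero_le_one (by positivity)
      _ = C ^ 3 * (l 0 * l 1 * l 2) := by ring
  · calc l 0 * l 1 * l 2 ≤ C * C * C :=
        mul_le_mul (mul_le_mul b0 b1 p1.le hC.le) b2 p2.le (by positivity)
      _ = C ^ 3 := by ring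

theorem measurableSet_cAnn (a b : ℝ) : MeasurableSet (cAnn a b) := by
  have h1 : IsClosed (cAnn a b) := by
    have : cAnn a b = {x : E3 | a ≤ ‖x‖} ∩ {x : E3 | ‖x‖ ≤ b} := rfl
    rw [this]
    exact (isClosed_le continuous_const continuous_norm).inter
      (isClosed_le continuous_norm continuous_const)
  exact h1.measurableSet

theorem vol_cAnn {a b : ℝ} (hb : 0 ≤ b) :
    volume (cAnn a b) ≠ ⊤ ∧
    volume.real (cAnn a b) ≤ volume.real (Metric.ball (0 : E3) 1) * b ^ 3 := by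
  have h1 : cAnn a b ⊆ Metric.closedBall (0 : E3) b := fun x hx => by
    rw [Metric.mem_closedBall, dist_zero_right]
    exact hx.2
  have h2 : volume (Metric.closedBall (0 : E3) b) ≠ ⊤ :=
    (isCompact_closedBall (0 : E3) b).measure_ne_top
  refine ⟨ne_top_of_le_ne_top h2 (measure_mono h1), (measureReal_mono h1 h2).trans ?_⟩
  rw [measureReal_def, measureReal_def, Measure.addHaar_closedBall _ _ hb]
  have h3 : Module.finrank ℝ E3 = 3 := by simp [E3]
  rw [h3, ENNReal.toReal_mul, ENNReal.toReal_ofReal (by positivity), mul_comm]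

theorem le_split {X t q : ℝ} (hX : 0 ≤ X) (ht : 0 < t) (hq : 0 ≤ q) :
    X ≤ t + t ^ (-q) * X ^ (1 + q) := by
  rcases le_or_gt X t with h | h
  · have : 0 ≤ t ^ (-q) * X ^ (1 + q) :=
      mul_nonneg (Real.rpow_nonneg ht.le _) (Real.rpow_nonneg hX _)
    linarith
  · have hX0 : 0 < X := ht.trans h
    have h1 : X = X ^ (-q) * X ^ (1 + q) := by
      rw [← Real.rpow_add hX0]
      have : -q + (1 + q) = 1 := by ring
      rw [this, Real.rpow_one]
    have h2 : X ^ (-q) ≤ t ^ (-q) :=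
      Real.rpow_le_rpow_of_nonpos ht h.le (by linarith)
    have h3 : X ^ (-q) * X ^ (1 + q) ≤ t ^ (-q) * X ^ (1 + q) :=
      mul_le_mul_of_nonneg_right h2 (Real.rpow_nonneg hX _)
    linarith

section AbsPart

variable {ε : ℝ} {Ω : Set E3} {vol w X Φ D S : E3 → ℝ} {sb s₂ sM B₁ B₂ : ℝ}

theorem measurableSet_lvl (hA : Abs ε Ω vol w X Φ D S sb s₂ sM B₁ B₂) (a b : ℝ) :
    MeasurableSet (Ω ∩ {x | a ≤ w x ∧ w x ≤ b}) :=
  hA.measOmega.inter ((measurableSet_le measurable_const hA.meas_w).inter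
    (measurableSet_le hA.meas_w measurable_const))

theorem int_pow (hA : Abs ε Ω vol w X Φ D S sb s₂ sM B₁ B₂) {q s s' : ℝ} (hq : 0 ≤ q)
    (hq2 : q ≤ 2) (h1 : sb / 4 < s) (h2 : s < s') (h3 : s' < sM) :
    IntegrableOn (fun x => X x ^ (1 + q) * vol x) (Ω ∩ {x | s ≤ w x ∧ w x ≤ s'}) := by
  have iv := hA.int_vol s s' h1 h2 h3
  have iX := hA.int_X s s' h1 h2 h3
  have mX : AEStronglyMeasurable X (volume.restrict (Ω ∩ {x | s ≤ w x ∧ w x ≤ s'})) :=
    hA.meas_X.mono_set Set.inter_subset_left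
  refine Integrable.mono' (iv.add iX)
    ((mX.aemeasurable.pow_const (1 + q)).aestronglyMeasurable.mul iv.aestronglyMeasurable) ?_
  refine Eventually.of_forall fun x => ?_
  have hX := hA.X_nonneg x
  have hv := hA.vol_nonneg x
  have hb : X x ^ (1 + q) ≤ 1 + X x ^ 3 := by
    rcases le_or_gt (X x) 1 with h | h
    · have : X x ^ (1 + q) ≤ 1 := Real.rpow_le_one hX h (by linarith)
      have : 0 ≤ X x ^ 3 := by positivity
      linarith
    · have h4 : X x ^ (1 + q) ≤ X x ^ (3 : ℝ) :=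
        Real.rpow_le_rpow_of_exponent_le h.le (by linarith)
      have h5 : X x ^ (3 : ℝ) = X x ^ (3 : ℕ) := by
        rw [← Real.rpow_natCast]
        norm_num
      rw [h5] at h4
      linarith
  have h0 : 0 ≤ X x ^ (1 + q) := Real.rpow_nonneg hX _
  rw [Real.norm_eq_abs, abs_of_nonneg (mul_nonneg h0 hv)]
  calc X x ^ (1 + q) * vol x ≤ (1 + X x ^ 3) * vol x := mul_le_mul_of_nonneg_right hb hv
    _ = vol x + X x ^ 3 * vol x := by ring

/-- The cubic integral over finitely many windows. -/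
theorem windows (hA : Abs ε Ω vol w X Φ D S sb s₂ sM B₁ B₂) (h0 : 0 < sb) (hs : sb < s₂) :
    ∀ k : ℕ, s₂ + k / 2 + 1 / 2 < sM →
      ∫ x in Ω ∩ {x | s₂ < w x ∧ w x ≤ s₂ + k / 2}, X x ^ 3 * vol x ≤ k * B₁ := by
  intro k
  induction k with
  | zero =>
    intro _
    have he : Ω ∩ {x | s₂ < w x ∧ w x ≤ s₂ + ((0 : ℕ) : ℝ) / 2} = ∅ := by
      ext x
      simp only [Set.mem_inter_iff, Set.mem_setOf_eq, Set.mem_empty_iff_false, iff_false]
      push_cast
      rintro ⟨-, h1, h2⟩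
      linarith
    rw [he]
    simp
  | succ k ih =>
    intro hk
    push_cast at hk ⊢
    have hk0 : (0 : ℝ) ≤ k := Nat.cast_nonneg k
    have ih' := ih (by linarith)
    have hmw : ∀ a b : ℝ, MeasurableSet (Ω ∩ {x | a < w x ∧ w x ≤ b}) := fun a b =>
      hA.measOmega.inter ((measurableSet_lt measurable_const hA.meas_w).inter
        (measurableSet_le hA.meas_w measurable_const))
    have hbig : IntegrableOn (fun x => X x ^ 3 * vol x)
        (Ω ∩ {x | s₂ ≤ w x ∧ w x ≤ s₂ + (k / 2 + 1 / 2)}) :=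
      hA.int_X _ _ (by linarith) (by linarith) (by linarith)
    have hsplit : Ω ∩ {x | s₂ < w x ∧ w x ≤ s₂ + ((k : ℝ) + 1) / 2} =
        (Ω ∩ {x | s₂ < w x ∧ w x ≤ s₂ + k / 2}) ∪
          (Ω ∩ {x | s₂ + k / 2 < w x ∧ w x ≤ s₂ + (k + 1) / 2}) := by
      ext x
      simp only [Set.mem_inter_iff, Set.mem_setOf_eq, Set.mem_union]
      constructor
      · rintro ⟨h1, h2, h3⟩
        rcases le_or_gt (w x) (s₂ + k / 2) with h | h
        · exact Or.inl ⟨h1, h2, h⟩
        · exact Or.inr ⟨h1, h, h3⟩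
      · rintro (⟨h1, h2, h3⟩ | ⟨h1, h2, h3⟩)
        · exact ⟨h1, h2, by linarith⟩
        · exact ⟨h1, by linarith, h3⟩
    have hdisj : Disjoint (Ω ∩ {x | s₂ < w x ∧ w x ≤ s₂ + k / 2})
        (Ω ∩ {x | s₂ + k / 2 < w x ∧ w x ≤ s₂ + ((k : ℝ) + 1) / 2}) := by
      rw [Set.disjoint_left]
      rintro x ⟨-, -, h1⟩ ⟨-, h2, -⟩
      exact absurd h2 (not_lt.2 h1)
    have i1 : IntegrableOn (fun x => X x ^ 3 * vol x)
        (Ω ∩ {x | s₂ < w x ∧ w x ≤ s₂ + k / 2}) :=
      hbig.mono_set fun x hx => ⟨hx.1, hx.2.1.le, by linarith [hx.2.2]⟩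
    have i2 : IntegrableOn (fun x => X x ^ 3 * vol x)
        (Ω ∩ {x | s₂ + k / 2 < w x ∧ w x ≤ s₂ + ((k : ℝ) + 1) / 2}) :=
      hbig.mono_set fun x hx => ⟨hx.1, by linarith [hx.2.1], by linarith [hx.2.2]⟩
    have i3 : IntegrableOn (fun x => X x ^ 3 * vol x)
        (Ω ∩ {x | s₂ + k / 2 < w x ∧ w x < s₂ + k / 2 + 1}) := by
      have hb2 : IntegrableOn (fun x => X x ^ 3 * vol x)
        (Ω ∩ {x | s₂ ≤ w x ∧ w x ≤ s₂ + k / 2 + 1}) :=
        hA.int_X _ _ (by linarith) (by linarith) (by linarith)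
      exact hb2.mono_set fun x hx => ⟨hx.1, by linarith [hx.2.1], hx.2.2.le⟩
    rw [hsplit, setIntegral_union hdisj (hmw _ _) i1 i2]
    have hw := hA.window (s₂ + k / 2) (by linarith) (by linarith)
    have h5 : ∫ x in Ω ∩ {x | s₂ + k / 2 < w x ∧ w x ≤ s₂ + ((k : ℝ) + 1) / 2}, X x ^ 3 * vol x ≤
        ∫ x in Ω ∩ {x | s₂ + k / 2 < w x ∧ w x < s₂ + k / 2 + 1}, X x ^ 3 * vol x := by
      refine setIntegral_mono_set i3 (Eventually.of_forall fun x => ?_)
        (Eventually.of_forall fun x hx => ?_)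
      · exact mul_nonneg (pow_nonneg (hA.X_nonneg x) 3) (hA.vol_nonneg x)
      · exact ⟨hx.1, hx.2.1, by linarith [hx.2.2]⟩
    linarith

/-- The linear integral. -/
theorem main_abs (hA : Abs ε Ω vol w X Φ D S sb s₂ sM B₁ B₂) (hε0 : 0 < ε) (hε2 : ε ≤ 2)
    (h0 : 0 < sb) (hs : sb < s₂) {k : ℕ} (hk : s₂ + k / 2 + 1 / 2 < sM) (hk0 : 0 < k)
    {I t : ℝ} (ht : 0 < t)
    (hI : ∫ x in Ω ∩ {x | sb / 2 ≤ w x ∧ w x ≤ s₂}, X x ^ (1 + ε) * vol x ≤ I)
    {A : Set E3} (hAm : MeasurableSet A)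
    (hAs : A ⊆ Ω ∩ {x | sb / 2 ≤ w x ∧ w x ≤ s₂ + k / 2}) :
    IntegrableOn vol A ∧ IntegrableOn (fun x => X x * vol x) A ∧
    ∫ x in A, X x * vol x ≤ t * (∫ x in A, vol x) + t ^ (-ε) * I + t ^ (-(2 : ℝ)) * (k * B₁) := by
  have hk1 : (1 : ℝ) ≤ k := by exact_mod_cast hk0
  have ivA : IntegrableOn vol A :=
    (hA.int_vol _ _ (by linarith) (by linarith) (by linarith)).mono_set hAs
  have iq : ∀ q : ℝ, 0 ≤ q → q ≤ 2 → IntegrableOn (fun x => X x ^ (1 + q) * vol x) A :=
    fun q hq hq2 => (int_pow hA hq hq2 (by linarith) (by linarith) (by linarith)).mono_set hAs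
  have i1 : IntegrableOn (fun x => X x * vol x) A := by
    have := iq 0 le_rfl (by norm_num)
    simpa using this
  refine ⟨ivA, i1, ?_⟩
  set T₁ : Set E3 := A ∩ {x | w x ≤ s₂} with hT₁
  set T₂ : Set E3 := A ∩ {x | s₂ < w x} with hT₂
  have hm1 : MeasurableSet T₁ := hAm.inter (measurableSet_le hA.meas_w measurable_const)
  have hm2 : MeasurableSet T₂ := hAm.inter (measurableSet_lt measurable_const hA.meas_w)
  have hun : A = T₁ ∪ T₂ := by
    ext x
    simp only [hT₁, hT₂, Set.mem_inter_iff, Set.mem_setOf_eq, Set.mem_union]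
    constructor
    · intro hx
      rcases le_or_gt (w x) s₂ with h | h
      · exact Or.inl ⟨hx, h⟩
      · exact Or.inr ⟨hx, h⟩
    · rintro (⟨h, -⟩ | ⟨h, -⟩) <;> exact h
  have hd : Disjoint T₁ T₂ := by
    rw [Set.disjoint_left]
    rintro x ⟨-, h1⟩ ⟨-, h2⟩
    have h1' : w x ≤ s₂ := h1
    have h2' : s₂ < w x := h2
    linarith
  have hs1 : T₁ ⊆ A := Set.inter_subset_left
  have hs2 : T₂ ⊆ A := Set.inter_subset_left
  have hpart : ∀ (T : Set E3) (q J : ℝ), T ⊆ A → MeasurableSet T → 0 ≤ q → q ≤ 2 →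
      (∫ x in T, X x ^ (1 + q) * vol x) ≤ J →
      ∫ x in T, X x * vol x ≤ t * (∫ x in T, vol x) + t ^ (-q) * J := by
    intro T q J hT hTm hq hq2 hJ
    have j1 := i1.mono_set hT
    have jv := ivA.mono_set hT
    have jq := (iq q hq hq2).mono_set hT
    have jv' : IntegrableOn (fun x => t * vol x) T := jv.const_mul t
    have jq' : IntegrableOn (fun x => t ^ (-q) * (X x ^ (1 + q) * vol x)) T := jq.const_mul _
    calc ∫ x in T, X x * vol x
        ≤ ∫ x in T, (t * vol x + t ^ (-q) * (X x ^ (1 + q) * vol x)) := by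
          refine setIntegral_mono_on j1 (jv'.add jq') hTm fun x _ => ?_
          have h1 := mul_le_mul_of_nonneg_right
            (le_split (q := q) (hA.X_nonneg x) ht hq) (hA.vol_nonneg x)
          calc X x * vol x ≤ (t + t ^ (-q) * X x ^ (1 + q)) * vol x := h1
            _ = t * vol x + t ^ (-q) * (X x ^ (1 + q) * vol x) := by ring
      _ = t * (∫ x in T, vol x) + t ^ (-q) * ∫ x in T, X x ^ (1 + q) * vol x := by
          have e1 : ∫ x in T, (t * vol x + t ^ (-q) * (X x ^ (1 + q) * vol x)) =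
              (∫ x in T, t * vol x) + ∫ x in T, t ^ (-q) * (X x ^ (1 + q) * vol x) :=
            integral_add jv' jq'
          rw [e1, integral_const_mul, integral_const_mul]
      _ ≤ t * (∫ x in T, vol x) + t ^ (-q) * J := by
          have := mul_le_mul_of_nonneg_left hJ (Real.rpow_nonneg ht.le (-q))
          linarith
  have hI1 : (∫ x in T₁, X x ^ (1 + ε) * vol x) ≤ I := by
    refine le_trans ?_ hI
    refine setIntegral_mono_set
      (int_pow hA hε0.le hε2 (by linarith) (by linarith) (by linarith))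
      (Eventually.of_forall fun x => ?_) (Eventually.of_forall fun x hx => ?_)
    · exact mul_nonneg (Real.rpow_nonneg (hA.X_nonneg x) _) (hA.vol_nonneg x)
    · have h1 := hAs hx.1
      exact ⟨h1.1, h1.2.1, hx.2⟩
  have hI2 : (∫ x in T₂, X x ^ (1 + (2 : ℝ)) * vol x) ≤ k * B₁ := by
    refine le_trans ?_ (windows hA h0 hs k hk)
    have e1 : (fun x => X x ^ (1 + (2 : ℝ)) * vol x) = fun x => X x ^ 3 * vol x := by
      funext x
      have : (1 + (2 : ℝ)) = ((3 : ℕ) : ℝ) := by norm_num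
      rw [this, Real.rpow_natCast]
    rw [e1]
    refine setIntegral_mono_set ?_ (Eventually.of_forall fun x => ?_)
      (Eventually.of_forall fun x hx => ?_)
    · exact (hA.int_X s₂ (s₂ + k / 2) (by linarith) (by linarith) (by linarith)).mono_set
        fun x hx => ⟨hx.1, hx.2.1.le, hx.2.2⟩
    · exact mul_nonneg (pow_nonneg (hA.X_nonneg x) 3) (hA.vol_nonneg x)
    · have h1 := hAs hx.1
      exact ⟨h1.1, hx.2, h1.2.2⟩
  have r1 := hpart T₁ ε I hs1 hm1 hε0.le hε2 hI1
  have r2 := hpart T₂ 2 (k * B₁) hs2 hm2 (by norm_num) le_rfl hI2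
  have e1 : ∫ x in A, X x * vol x = (∫ x in T₁, X x * vol x) + ∫ x in T₂, X x * vol x := by
    rw [hun]
    exact setIntegral_union hd hm2 (i1.mono_set hs1) (i1.mono_set hs2)
  have e2 : ∫ x in A, vol x = (∫ x in T₁, vol x) + ∫ x in T₂, vol x := by
    rw [hun]
    exact setIntegral_union hd hm2 (ivA.mono_set hs1) (ivA.mono_set hs2)
  rw [e1, e2]
  linarith

end AbsPart

theorem exp_s2 {ε γ l : ℝ} (hl : 0 < l) :
    Real.exp (s2E ε γ l) = (4 ^ (2 - ε) * Real.exp γ) * l ^ (2 - ε) := by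
  unfold s2E
  rw [Real.exp_add, mul_comm (2 - ε), ← Real.rpow_def_of_pos (by positivity : 0 < 4 * l),
    Real.mul_rpow (by norm_num) hl.le]
  ring

theorem exp_neg_s2 {ε γ l : ℝ} (hl : 0 < l) :
    Real.exp (-s2E ε γ l) = (4 ^ (-(2 - ε)) * Real.exp (-γ)) * l ^ (-(2 - ε)) := by
  rw [Real.exp_neg, exp_s2 hl, Real.rpow_neg (by norm_num), Real.rpow_neg hl.le, Real.exp_neg,
    mul_inv, mul_inv]

theorem exp_lvl {ε γ l : ℝ} (hl : 0 < l) (hε : ε < 2) :
    Real.exp ((s2E ε γ l + 1 + 2 * γ) / (2 - ε)) =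
      4 * l * Real.exp ((1 + 3 * γ) / (2 - ε)) := by
  have h2 : 2 - ε ≠ 0 := by linarith
  have h1 : (s2E ε γ l + 1 + 2 * γ) / (2 - ε) = Real.log (4 * l) + (1 + 3 * γ) / (2 - ε) := by
    unfold s2E
    field_simp
    ring
  rw [h1, Real.exp_add, Real.exp_log (by positivity)]

/-- Bounds of the volume density. -/
theorem vol_bd {g : TensorField} {x : E3} {C : ℝ} (hC : 0 < C) (hg : (g x).PosDef)
    (h : ∀ v : Cov, (∑ i, v i ^ 2) ≤ C * ev (g x) v v ∧ ev (g x) v v ≤ C * ∑ i, v i ^ 2) :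
    1 ≤ Real.sqrt (C ^ 3) * volDen g x ∧ volDen g x ≤ Real.sqrt (C ^ 3) := by
  have hs : (g x).transpose = g x := by
    have := hg.isHermitian
    rwa [Matrix.IsHermitian, Matrix.conjTranspose_eq_transpose_of_trivial] at this
  obtain ⟨h1, h2⟩ := det_bd hs hC h
  unfold volDen
  constructor
  · rw [← Real.sqrt_mul (by positivity)]
    exact Real.one_le_sqrt.2 h1
  · exact Real.sqrt_le_sqrt h2

end UphM

open UphM in
theorem UPH (hSETW : Stmt_SETW) (_hBETA : Stmt_BETA) (hFLXA : Stmt_FLXA) (_hHOLA : Stmt_HOLA)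
    (hJUP : Stmt_JUP) : Stmt_UPH := by
  intro P B β hβ
  by_cases hP : 0 < P.eps ∧ P.eps ≤ 1 / 2 ∧ 0 < P.C ∧ 0 < P.gam
  swap
  · exact ⟨1, one_pos, fun D hD _ => absurd ⟨hD.eps_pos, hD.eps_le, hD.C_pos, hD.gam_pos⟩ hP⟩
  obtain ⟨he, he2, hC, hg⟩ := hP
  obtain ⟨CJ, hCJ, hJ⟩ := hJUP P.eps β he he2 hβ
  set ε := P.eps with hε
  set γ := P.gam with hγ
  set K := kE ε γ with hK
  set cv := Real.sqrt (P.C ^ 3) with hcv
  set v₁ := volume.real (Metric.ball (0 : E3) 1) with hv₁
  set V₀ := cv * (v₁ * K ^ 3) with hV₀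
  set J₁ := CJ * (4 ^ (-(2 - ε)) * Real.exp (-γ)) * |B| ^ ((1 + ε) / 3) * V₀ ^ ((2 - ε) / 3)
    with hJ₁
  set N := ⌈2 + 4 * γ⌉₊ with hN
  set E₁ := Real.exp ((1 + 3 * γ) / (2 - ε)) with hE₁
  set S₁ := V₀ + J₁ * (4 ^ (2 - ε) * Real.exp γ) + N * |B| with hS₁
  have hK0 : 0 < K := mul_pos (by norm_num) (Real.exp_pos _)
  have hcv0 : 0 < cv := Real.sqrt_pos.2 (by positivity)
  have hv0 : 0 ≤ v₁ := measureReal_nonneg
  have hV0 : 0 ≤ V₀ := by positivity
  have hJ0 : 0 ≤ J₁ := by positivity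
  have hN0 : (0 : ℝ) ≤ N := Nat.cast_nonneg N
  have hN1 : 2 + 4 * γ ≤ N := Nat.le_ceil _
  have hN2 : (N : ℝ) < 2 + 4 * γ + 1 := Nat.ceil_lt_add_one (by linarith)
  have hNpos : 0 < N := by
    have : (0 : ℝ) < N := by linarith
    exact_mod_cast this
  have hE0 : 0 < E₁ := Real.exp_pos _
  have hS0 : 0 ≤ S₁ := by positivity
  refine ⟨1 + J₁ + 4 * E₁ * cv * S₁, by positivity, fun D hD hA => ?_⟩
  obtain ⟨-, -, -, -, -, -, -, -, -, -, hs2, hlow, hup, hKl, -, hsb0, hsb1, -, hs21, hsM, hKR, hlK⟩ :=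
    hSETW P D hD
  have hl4 : 4 ≤ D.l := hD.l_ge
  have hl0 : 0 < D.l := by linarith
  have hKlv : D.Kl P = K * D.l := rfl
  have hs2v : D.s2 P = s2E ε γ D.l := rfl
  have hsbs : D.sb P < D.s2 P := by linarith
  have hRpos : 32 ≤ D.R := by linarith
  set A : Set E3 := cAnn (D.l / 4) (D.Kl P) with hAdef
  have hAm : MeasurableSet A := measurableSet_cAnn _ _
  have hAOm : A ⊆ D.Om := by
    intro x hx
    refine ⟨?_, ?_⟩
    · have h1 : 1 / D.R < 1 := by
        rw [div_lt_one (by linarith)]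
        linarith
      have h2 : D.l / 4 ≤ ‖x‖ := hx.1
      linarith
    · have h2 : ‖x‖ ≤ D.Kl P := hx.2
      linarith
  have hvol : ∀ x : E3, 1 ≤ ‖x‖ → 1 ≤ cv * D.vol x ∧ D.vol x ≤ cv := fun x hx =>
    vol_bd hC (hD.modified.metric.posDef x trivial) (hD.modified.elliptic x hx)
  have hA1 : ∀ x ∈ A, 1 ≤ ‖x‖ := fun x hx => by
    have h2 : D.l / 4 ≤ ‖x‖ := hx.1
    linarith
  have hAlow : ∀ x ∈ A, D.sb P < D.w P x := fun x hx => by
    refine hlow x (hAOm hx) ?_
    have h1 : 1 / (4 * D.l) < 1 := by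
      rw [div_lt_one (by linarith)]
      linarith
    linarith [hA1 x hx]
  have hAup : ∀ x ∈ A, D.w P x ≤ D.s2 P + 1 + 2 * γ := fun x hx => hup x hx.1 hx.2
  have hB0 : 0 ≤ B := by
    refine le_trans ?_ (hA.window (D.s2 P) le_rfl (by linarith))
    exact setIntegral_nonneg_of_ae (Eventually.of_forall fun x =>
      mul_nonneg (pow_nonneg (hA.X_nonneg x) 3) (hA.vol_nonneg x))
  have hAs : A ⊆ D.Om ∩ {x | D.sb P / 2 ≤ D.w P x ∧ D.w P x ≤ D.s2 P + N / 2} := by
    intro x hx
    refine ⟨hAOm hx, ?_, ?_⟩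
    · linarith [hAlow x hx]
    · linarith [hAup x hx]
  have hNsM : D.s2 P + N / 2 + 1 / 2 < D.sM P := by linarith
  have ivA : IntegrableOn D.vol A :=
    (hA.int_vol _ _ (by linarith) (by linarith) (by linarith)).mono_set hAs
  have hVA : ∫ x in A, D.vol x ≤ V₀ * D.l ^ 3 := by
    have hfin := vol_cAnn (a := D.l / 4) (b := D.Kl P) (by rw [hKlv]; positivity)
    have ic : IntegrableOn (fun _ : E3 => cv) A := integrableOn_const hfin.1
    calc ∫ x in A, D.vol x ≤ ∫ _x in A, cv :=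
          setIntegral_mono_on ivA ic hAm fun x hx => (hvol x (hA1 x hx)).2
      _ = volume.real A * cv := by rw [setIntegral_const, smul_eq_mul]
      _ ≤ (v₁ * (D.Kl P) ^ 3) * cv := mul_le_mul_of_nonneg_right hfin.2 hcv0.le
      _ = V₀ * D.l ^ 3 := by rw [hKlv, hV₀]; ring
  have hV' : ∫ x in D.Om ∩ {x | D.s2 P < D.w P x ∧ D.w P x < D.s2 P + 1}, D.vol x ≤
      V₀ * D.l ^ 3 := by
    refine le_trans ?_ hVA
    refine setIntegral_mono_set ivA (Eventually.of_forall fun x => hA.vol_nonneg x)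
      (Eventually.of_forall fun x hx => ?_)
    have h1 : 4 * D.l ≤ ‖x‖ := hs2 x hx.1 hx.2.1.le
    exact ⟨by linarith, hKl x hx.1 hx.2.2⟩
  have hJle : jInf ε β D.Om D.vol (D.w P) (D.X P) (D.s2 P) ≤ J₁ := by
    have h1 := hJ D.Om D.vol (D.w P) (D.X P) (D.Phi P) (D.Di P) (D.Su P) (D.sb P) (D.s2 P)
      (D.sM P) B _ (V₀ * D.l ^ 3) hA hsb0 hsbs (by linarith) hV'
    refine h1.trans (le_of_eq ?_)
    have h2 : (V₀ * D.l ^ 3) ^ ((2 - ε) / 3) = V₀ ^ ((2 - ε) / 3) * D.l ^ (2 - ε) := by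
      rw [Real.mul_rpow hV0 (by positivity)]
      congr 1
      rw [← Real.rpow_natCast, ← Real.rpow_mul hl0.le]
      congr 1
      push_cast
      ring
    have h3 : D.l ^ (-(2 - ε)) * D.l ^ (2 - ε) = 1 := by
      rw [← Real.rpow_add hl0]
      simp
    rw [hs2v, exp_neg_s2 hl0, h2, hJ₁, abs_of_nonneg hB0]
    calc CJ * (4 ^ (-(2 - ε)) * Real.exp (-γ) * D.l ^ (-(2 - ε))) * B ^ ((1 + ε) / 3) *
          (V₀ ^ ((2 - ε) / 3) * D.l ^ (2 - ε))
        = CJ * (4 ^ (-(2 - ε)) * Real.exp (-γ)) * B ^ ((1 + ε) / 3) * V₀ ^ ((2 - ε) / 3) *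
          (D.l ^ (-(2 - ε)) * D.l ^ (2 - ε)) := by ring
      _ = CJ * (4 ^ (-(2 - ε)) * Real.exp (-γ)) * B ^ ((1 + ε) / 3) * V₀ ^ ((2 - ε) / 3) := by
          rw [h3, mul_one]
  have hI : ∫ x in D.Om ∩ {x | D.sb P / 2 ≤ D.w P x ∧ D.w P x ≤ D.s2 P},
      D.X P x ^ (1 + ε) * D.vol x ≤ J₁ * Real.exp (D.s2 P) := by
    obtain ⟨hj0, hj⟩ := hFLXA ε β he he2 hβ D.Om D.vol (D.w P) (D.X P) (D.Phi P) (D.Di P)
      (D.Su P) (D.sb P) (D.s2 P) (D.sM P) B _ hA hsb0 hsbs (by linarith)
    refine (hj (D.sb P / 2) (D.s2 P) (by linarith) (by linarith) le_rfl).trans ?_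
    have h1 : Real.exp (D.s2 P) - Real.exp (D.sb P / 2) ≤ Real.exp (D.s2 P) := by
      linarith [Real.exp_pos (D.sb P / 2)]
    calc jInf ε β D.Om D.vol (D.w P) (D.X P) (D.s2 P) *
          (Real.exp (D.s2 P) - Real.exp (D.sb P / 2))
        ≤ jInf ε β D.Om D.vol (D.w P) (D.X P) (D.s2 P) * Real.exp (D.s2 P) :=
          mul_le_mul_of_nonneg_left h1 hj0
      _ ≤ J₁ * Real.exp (D.s2 P) := mul_le_mul_of_nonneg_right hJle (Real.exp_pos _).le
  obtain ⟨-, iX, hX⟩ := main_abs hA he (by linarith) hsb0 hsbs hNsM hNpos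
    (t := 1 / D.l) (by positivity) hI hAm hAs
  have hXl : ∫ x in A, D.X P x * D.vol x ≤ S₁ * D.l ^ 2 := by
    refine hX.trans ?_
    have t1 : (1 / D.l) ^ (-ε) = D.l ^ ε := by
      rw [one_div, Real.inv_rpow hl0.le, Real.rpow_neg hl0.le, inv_inv]
    have t2 : (1 / D.l) ^ (-(2 : ℝ)) = D.l ^ 2 := by
      rw [one_div, Real.inv_rpow hl0.le, Real.rpow_neg hl0.le, inv_inv]
      exact_mod_cast Real.rpow_natCast D.l 2
    have t3 : D.l ^ ε * D.l ^ (2 - ε) = D.l ^ 2 := by
      rw [← Real.rpow_add hl0]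
      have : ε + (2 - ε) = ((2 : ℕ) : ℝ) := by push_cast; ring
      rw [this, Real.rpow_natCast]
    rw [t1, t2, hs2v, exp_s2 hl0]
    have u1 : 1 / D.l * (∫ x in A, D.vol x) ≤ V₀ * D.l ^ 2 := by
      calc 1 / D.l * (∫ x in A, D.vol x) ≤ 1 / D.l * (V₀ * D.l ^ 3) :=
            mul_le_mul_of_nonneg_left hVA (by positivity)
        _ = V₀ * D.l ^ 2 := by field_simp
    have u2 : D.l ^ ε * (J₁ * (4 ^ (2 - ε) * Real.exp γ * D.l ^ (2 - ε))) =
        J₁ * (4 ^ (2 - ε) * Real.exp γ) * D.l ^ 2 := by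
      rw [← t3]
      ring
    have u3 : D.l ^ 2 * (N * B) = N * |B| * D.l ^ 2 := by
      rw [abs_of_nonneg hB0]
      ring
    rw [u2, u3, hS₁]
    calc 1 / D.l * (∫ x in A, D.vol x) + J₁ * (4 ^ (2 - ε) * Real.exp γ) * D.l ^ 2 +
          N * |B| * D.l ^ 2
        ≤ V₀ * D.l ^ 2 + J₁ * (4 ^ (2 - ε) * Real.exp γ) * D.l ^ 2 + N * |B| * D.l ^ 2 := by
          linarith
      _ = (V₀ + J₁ * (4 ^ (2 - ε) * Real.exp γ) + N * |B|) * D.l ^ 2 := by ring
  -- the weight
  have hph : ∀ x ∈ A, D.ph P x ≤ 4 * D.l * E₁ * cv * (D.X P x * D.vol x) := by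
    intro x hx
    have hX0 := hA.X_nonneg x
    have h1 : Real.exp (D.w P x / (2 - ε)) ≤ 4 * D.l * E₁ := by
      rw [hE₁, ← exp_lvl hl0 (by linarith)]
      refine Real.exp_le_exp.2 (div_le_div_of_nonneg_right (hAup x hx) (by linarith))
    have h2 : D.X P x ≤ cv * (D.X P x * D.vol x) := by
      calc D.X P x = D.X P x * 1 := (mul_one _).symm
        _ ≤ D.X P x * (cv * D.vol x) :=
          mul_le_mul_of_nonneg_left (hvol x (hA1 x hx)).1 hX0
        _ = cv * (D.X P x * D.vol x) := by ring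
    calc D.ph P x = Real.exp (D.w P x / (2 - ε)) * D.X P x := rfl
      _ ≤ (4 * D.l * E₁) * (cv * (D.X P x * D.vol x)) :=
        mul_le_mul h1 h2 hX0 (by positivity)
      _ = 4 * D.l * E₁ * cv * (D.X P x * D.vol x) := by ring
  have hph0 : ∀ x, 0 ≤ D.ph P x := fun x =>
    mul_nonneg (Real.exp_pos _).le (hA.X_nonneg x)
  have iXc : IntegrableOn (fun x => 4 * D.l * E₁ * cv * (D.X P x * D.vol x)) A :=
    iX.const_mul _
  have iph : IntegrableOn (D.ph P) A := by
    refine Integrable.mono' iXc ?_ ?_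
    · refine AEStronglyMeasurable.mul ?_ (hA.meas_X.mono_set hAOm)
      exact (Real.measurable_exp.comp (hA.meas_w.div_const _)).aestronglyMeasurable
    · filter_upwards [ae_restrict_mem hAm] with x hx
      rw [Real.norm_eq_abs, abs_of_nonneg (hph0 x)]
      exact hph x hx
  refine ⟨?_, iph, ?_⟩
  · have : 0 ≤ 4 * E₁ * cv * S₁ := by positivity
    linarith
  · calc ∫ x in A, D.ph P x ≤ ∫ x in A, 4 * D.l * E₁ * cv * (D.X P x * D.vol x) :=
          setIntegral_mono_on iph iXc hAm hph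
      _ = 4 * D.l * E₁ * cv * ∫ x in A, D.X P x * D.vol x := integral_const_mul _ _
      _ ≤ 4 * D.l * E₁ * cv * (S₁ * D.l ^ 2) := mul_le_mul_of_nonneg_left hXl (by positivity)
      _ = (4 * E₁ * cv * S₁) * D.l ^ 3 := by ring
      _ ≤ (1 + J₁ + 4 * E₁ * cv * S₁) * D.l ^ 3 :=
        mul_le_mul_of_nonneg_right (by linarith) (by positivity)

end Pool.Agent.PFlow


end
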