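import Mathlib
import Pool.Agent.PFlow.StmtsE2
import Pool.Agent.PFlow.StmtsE5
import Pool.Agent.PenroseM.C01
import Pool.Agent.PenroseM.C12

/-! Parts: PFlow.K.KBAR, PFlow.G.GB, PFlow.E.MAIN3, PFlow.E.TSTB -/

section

/-!
# Module KBAR: uniform bound of the operators
-/

open MeasureTheory Filter Topology
open scoped ContDiff

namespace Pool.Agent.PFlow

open Pool.Agent.PenroseSph

namespace KBAR

theorem abs_le_vec (p : Cov) (i : Fin 3) : |p i| ≤ ‖vec p‖ := by
  have h := PiLp.norm_apply_le (vec p) i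
  rw [Real.norm_eq_abs] at h
  exact h

theorem ev_le (B : Bil) (v w : Cov) :
    |ev B v w| ≤ (∑ i, ∑ j, |B i j|) * (‖vec v‖ * ‖vec w‖) := by
  unfold ev
  rw [Finset.sum_mul]
  refine (Finset.abs_sum_le_sum_abs _ _).trans (Finset.sum_le_sum fun i _ => ?_)
  rw [Finset.sum_mul]
  refine (Finset.abs_sum_le_sum_abs _ _).trans (Finset.sum_le_sum fun j _ => ?_)
  rw [abs_mul, abs_mul, mul_assoc]
  exact mul_le_mul_of_nonneg_left (mul_le_mul (abs_le_vec v i) (abs_le_vec w j) (abs_nonneg _)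
    (norm_nonneg _)) (abs_nonneg _)

theorem sum_le_nine {F : Fin 3 → Fin 3 → ℝ} {Q : ℝ} (h : ∀ i j, F i j ≤ Q) :
    ∑ i, ∑ j, F i j ≤ 9 * Q := by
  calc ∑ i, ∑ j, F i j ≤ ∑ _i : Fin 3, ∑ _j : Fin 3, Q :=
        Finset.sum_le_sum fun i _ => Finset.sum_le_sum fun j _ => h i j
    _ = 9 * Q := by
        simp only [Finset.sum_const, Finset.card_univ, Fintype.card_fin, nsmul_eq_mul]
        push_cast
        ring

theorem r1 {ε C s t v : ℝ} (hε1 : ε < 1) (hε : 0 < ε) (hC : 1 ≤ C) (hv : 0 ≤ v)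
    (hvs : v ^ 2 ≤ C * s) (hst : s ≤ t) (ht : 0 < t) :
    t ^ ((ε - 1) / 2) * v ^ (1 - ε) ≤ C := by
  have h1 : v ^ (1 - ε) = (v ^ 2) ^ ((1 - ε) / 2) := by
    rw [← Real.rpow_natCast v 2, ← Real.rpow_mul hv]
    congr 1
    push_cast
    ring
  have h2 : (v ^ 2) ^ ((1 - ε) / 2) ≤ (C * t) ^ ((1 - ε) / 2) :=
    Real.rpow_le_rpow (by positivity)
      (hvs.trans (mul_le_mul_of_nonneg_left hst (by linarith))) (by linarith)
  have h3 : (C * t) ^ ((1 - ε) / 2) = C ^ ((1 - ε) / 2) * t ^ ((1 - ε) / 2) :=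
    Real.mul_rpow (by linarith) ht.le
  have h4 : t ^ ((ε - 1) / 2) * t ^ ((1 - ε) / 2) = 1 := by
    rw [← Real.rpow_add ht, show (ε - 1) / 2 + (1 - ε) / 2 = 0 by ring, Real.rpow_zero]
  have h5 : C ^ ((1 - ε) / 2) ≤ C := by
    calc C ^ ((1 - ε) / 2) ≤ C ^ (1 : ℝ) := Real.rpow_le_rpow_of_exponent_le hC (by linarith)
      _ = C := Real.rpow_one C
  have h6 : 0 < t ^ ((ε - 1) / 2) := Real.rpow_pos_of_pos ht _
  calc t ^ ((ε - 1) / 2) * v ^ (1 - ε)
      ≤ t ^ ((ε - 1) / 2) * (C ^ ((1 - ε) / 2) * t ^ ((1 - ε) / 2)) := by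
        rw [h1, ← h3]
        exact mul_le_mul_of_nonneg_left h2 h6.le
    _ = C ^ ((1 - ε) / 2) * (t ^ ((ε - 1) / 2) * t ^ ((1 - ε) / 2)) := by ring
    _ = C ^ ((1 - ε) / 2) := by rw [h4, mul_one]
    _ ≤ C := h5

theorem r2 {ε s t : ℝ} (hst : s ≤ t) (ht : 0 < t) :
    t ^ ((ε - 3) / 2) * s ≤ t ^ ((ε - 1) / 2) := by
  have h6 : 0 < t ^ ((ε - 3) / 2) := Real.rpow_pos_of_pos ht _
  calc t ^ ((ε - 3) / 2) * s ≤ t ^ ((ε - 3) / 2) * t := mul_le_mul_of_nonneg_left hst h6.le
    _ = t ^ ((ε - 3) / 2) * t ^ (1 : ℝ) := by rw [Real.rpow_one]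
    _ = t ^ ((ε - 1) / 2) := by
        rw [← Real.rpow_add ht]
        congr 1
        ring

theorem r3 {ε s t T : ℝ} (hε : 0 < ε) (hε1 : ε < 1) (hst : s ≤ t) (ht : 0 < t) (hT : 1 ≤ T)
    (htT : t ≤ T) : t ^ ((ε - 2) / 2) * s ≤ T := by
  have h6 : 0 < t ^ ((ε - 2) / 2) := Real.rpow_pos_of_pos ht _
  calc t ^ ((ε - 2) / 2) * s ≤ t ^ ((ε - 2) / 2) * t := mul_le_mul_of_nonneg_left hst h6.le
    _ = t ^ ((ε - 2) / 2) * t ^ (1 : ℝ) := by rw [Real.rpow_one]
    _ = t ^ (ε / 2) := by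
        rw [← Real.rpow_add ht]
        congr 1
        ring
    _ ≤ T ^ (ε / 2) := Real.rpow_le_rpow ht.le htT (by linarith)
    _ ≤ T ^ (1 : ℝ) := Real.rpow_le_rpow_of_exponent_le hT (by linarith)
    _ = T := Real.rpow_one T

theorem rpow_le_self {E a : ℝ} (hE : 1 ≤ E) (ha : a ≤ 1) : E ^ a ≤ E := by
  calc E ^ a ≤ E ^ (1 : ℝ) := Real.rpow_le_rpow_of_exponent_le hE ha
    _ = E := Real.rpow_one E

theorem chess_le {g h : TensorField} {C : ℝ} (hC : GBound g h C) (x : E3) (p : Cov) (M : Bil)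
    (i j : Fin 3) : |cHess g x p M i j| ≤ |M i j| + 3 * C * ‖vec p‖ := by
  change |M i j - ∑ k, christoffel g k i j x * p k| ≤ _
  refine (abs_sub _ _).trans (add_le_add le_rfl ?_)
  refine (Finset.abs_sum_le_sum_abs _ _).trans ?_
  calc ∑ k, |christoffel g k i j x * p k| ≤ ∑ _k : Fin 3, C * ‖vec p‖ := by
        refine Finset.sum_le_sum fun k _ => ?_
        rw [abs_mul]
        exact mul_le_mul (hC.chr x k i j) (abs_le_vec p k) (abs_nonneg _)
          (by linarith [hC.one])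
    _ = 3 * C * ‖vec p‖ := by
        simp only [Finset.sum_const, Finset.card_univ, Fintype.card_fin, nsmul_eq_mul]
        push_cast
        ring

end KBAR

open KBAR in
theorem KBAR_thm (h1 : KBND) (h2 : KTN) : KBAR := by
  have _ := h2
  intro ε g h r C₁ hε hε1 hG
  obtain ⟨C, hC⟩ := h1 g h r hG
  have hC1 := hC.one
  obtain ⟨E, hE⟩ : ∃ E, E = 1 + |C₁| := ⟨_, rfl⟩
  have hE1 : 1 ≤ E := by
    rw [hE]
    linarith [abs_nonneg C₁]
  have hE2 : C₁ ≤ E := by
    rw [hE]
    linarith [le_abs_self C₁]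
  obtain ⟨Q, hQ⟩ : ∃ Q, Q = E * (C + E) + 3 * C * ((C + E) * E) := ⟨_, rfl⟩
  have hQ0 : 0 ≤ Q := by
    rw [hQ]
    positivity
  refine ⟨C * (9 * C * Q + 9 * C ^ 3 * Q) + C * ((C * E ^ 2 + 1) * (9 * C ^ 2 + 9 * C ^ 4)), ?_⟩
  intro δ κ hδ hδ1 hκ hκ1 x p M hp hM
  set v := ‖vec p‖ with hv
  have hv0 : 0 ≤ v := norm_nonneg _
  have hvE : v ≤ E := hp.trans hE2
  set s := lsq g x p with hs
  have hlow : v ^ 2 ≤ C * s := hC.low x p
  have hup : s ≤ C * v ^ 2 := hC.up x p
  have hs0 : 0 ≤ s := by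
    by_contra hcon
    push Not at hcon
    have : C * s < 0 := mul_neg_of_pos_of_neg (by linarith) hcon
    nlinarith [sq_nonneg v]
  set t := s + δ ^ 2 with ht
  have ht0 : 0 < t := by positivity
  have hst : s ≤ t := by
    rw [ht]
    nlinarith [sq_nonneg δ]
  have hvol0 : 0 ≤ volDen g x := Real.sqrt_nonneg _
  have hvol := hC.volUp x
  -- the weight
  set α := regA ε δ κ s with hα
  have hα0 : 0 ≤ α := by
    rw [hα]
    unfold regA
    have := Real.rpow_pos_of_pos ht0 ((ε - 1) / 2)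
    linarith
  have hve : v ^ (1 - ε) ≤ E := (Real.rpow_le_rpow hv0 hvE (by linarith)).trans
    (rpow_le_self hE1 (by linarith))
  have hve' : v ^ ε ≤ E := (Real.rpow_le_rpow hv0 hvE hε.le).trans
    (rpow_le_self hE1 (by linarith))
  have hve0 : 0 ≤ v ^ (1 - ε) := Real.rpow_nonneg hv0 _
  have hve0' : 0 ≤ v ^ ε := Real.rpow_nonneg hv0 _
  have ha1 : α * v ^ (1 - ε) ≤ C + E := by
    have h3 := r1 hε1 hε hC1 hv0 hlow hst ht0
    have h4 : κ * v ^ (1 - ε) ≤ 1 * E := mul_le_mul hκ1 hve hve0 zero_le_one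
    have h5 : α * v ^ (1 - ε) = t ^ ((ε - 1) / 2) * v ^ (1 - ε) + κ * v ^ (1 - ε) := by
      rw [hα]
      unfold regA
      ring
    rw [h5]
    linarith
  have ha2 : α * v ≤ (C + E) * E := by
    have h3 : v = v ^ (1 - ε) * v ^ ε := by
      rw [← Real.rpow_add_of_nonneg hv0 (by linarith) hε.le, show 1 - ε + ε = 1 by ring,
        Real.rpow_one]
    calc α * v = α * v ^ (1 - ε) * v ^ ε := by
          rw [mul_assoc, ← h3]
      _ ≤ (C + E) * E := mul_le_mul ha1 hve' hve0' (by linarith)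
  -- the Hessian
  have hH : ∀ i j, α * |cHess g x p M i j| ≤ Q := by
    intro i j
    have h3 := chess_le hC x p M i j
    have h4 : |M i j| ≤ E * v ^ (1 - ε) :=
      (hM i j).trans (mul_le_mul_of_nonneg_right hE2 hve0)
    calc α * |cHess g x p M i j| ≤ α * (E * v ^ (1 - ε) + 3 * C * v) :=
          mul_le_mul_of_nonneg_left (by linarith) hα0
      _ = E * (α * v ^ (1 - ε)) + 3 * C * (α * v) := by ring
      _ ≤ E * (C + E) + 3 * C * ((C + E) * E) := by gcongr
      _ = Q := hQ.symm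
  have hHs : α * ∑ i, ∑ j, |cHess g x p M i j| ≤ 9 * Q := by
    rw [Finset.mul_sum]
    simp only [Finset.mul_sum]
    exact sum_le_nine hH
  have hHs0 : 0 ≤ ∑ i, ∑ j, |cHess g x p M i j| :=
    Finset.sum_nonneg fun i _ => Finset.sum_nonneg fun j _ => abs_nonneg _
  have hraise : ‖vec (raise g x p)‖ * ‖vec (raise g x p)‖ ≤ C ^ 3 * s := by
    have h3 := hC.raise x p
    calc ‖vec (raise g x p)‖ * ‖vec (raise g x p)‖ ≤ (C * v) * (C * v) :=
          mul_le_mul h3 h3 (norm_nonneg _) (by positivity)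
      _ = C ^ 2 * v ^ 2 := by ring
      _ ≤ C ^ 2 * (C * s) := mul_le_mul_of_nonneg_left hlow (by positivity)
      _ = C ^ 3 * s := by ring
  -- first operator
  have hT : |α * trg g x (cHess g x p M)| ≤ 9 * C * Q := by
    rw [abs_mul, abs_of_nonneg hα0]
    calc α * |trg g x (cHess g x p M)| ≤ α * (C * ∑ i, ∑ j, |cHess g x p M i j|) :=
          mul_le_mul_of_nonneg_left (hC.tr x _) hα0
      _ = C * (α * ∑ i, ∑ j, |cHess g x p M i j|) := by ring
      _ ≤ C * (9 * Q) := mul_le_mul_of_nonneg_left hHs (by linarith)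
      _ = 9 * C * Q := by ring
  have hD : |regD ε δ s| * s ≤ α := by
    have h3 : |regD ε δ s| = (1 - ε) * t ^ ((ε - 3) / 2) := by
      unfold regD
      rw [abs_mul, abs_of_neg (by linarith : ε - 1 < 0),
        abs_of_pos (Real.rpow_pos_of_pos ht0 _)]
      ring
    have h4 := r2 (ε := ε) hst ht0
    have h5 : 0 < t ^ ((ε - 1) / 2) := Real.rpow_pos_of_pos ht0 _
    have h6 : 0 ≤ t ^ ((ε - 3) / 2) * s := by positivity
    rw [h3, hα]
    unfold regA
    rw [← ht]
    nlinarith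
  have hR : |regD ε δ s * ev (cHess g x p M) (raise g x p) (raise g x p)| ≤ 9 * C ^ 3 * Q := by
    rw [abs_mul]
    calc |regD ε δ s| * |ev (cHess g x p M) (raise g x p) (raise g x p)|
        ≤ |regD ε δ s| * ((∑ i, ∑ j, |cHess g x p M i j|) * (C ^ 3 * s)) :=
          mul_le_mul_of_nonneg_left ((ev_le _ _ _).trans
            (mul_le_mul_of_nonneg_left hraise hHs0)) (abs_nonneg _)
      _ = C ^ 3 * ((|regD ε δ s| * s) * ∑ i, ∑ j, |cHess g x p M i j|) := by ring
      _ ≤ C ^ 3 * (α * ∑ i, ∑ j, |cHess g x p M i j|) :=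
          mul_le_mul_of_nonneg_left (mul_le_mul_of_nonneg_right hD hHs0) (by positivity)
      _ ≤ C ^ 3 * (9 * Q) := mul_le_mul_of_nonneg_left hHs (by positivity)
      _ = 9 * C ^ 3 * Q := by ring
  have hop : |opL ε δ κ g x p M| ≤ C * (9 * C * Q + 9 * C ^ 3 * Q) := by
    unfold opL
    rw [abs_mul, abs_of_nonneg hvol0]
    exact mul_le_mul hvol ((abs_add_le _ _).trans (add_le_add hT hR)) (abs_nonneg _)
      (by linarith)
  -- second operator
  have hhs : ∑ i, ∑ j, |h x i j| ≤ 9 * C := sum_le_nine fun i j => hC.hh x i j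
  have hhs0 : 0 ≤ ∑ i, ∑ j, |h x i j| :=
    Finset.sum_nonneg fun i _ => Finset.sum_nonneg fun j _ => abs_nonneg _
  have htT : t ≤ C * E ^ 2 + 1 := by
    have h3 : v ^ 2 ≤ E ^ 2 := by gcongr
    have h4 : δ ^ 2 ≤ 1 := by nlinarith
    have h5 : C * v ^ 2 ≤ C * E ^ 2 := mul_le_mul_of_nonneg_left h3 (by linarith)
    rw [ht]
    linarith
  have hT1 : 1 ≤ C * E ^ 2 + 1 := by
    have : 0 ≤ C * E ^ 2 := by positivity
    linarith
  have hr3 := r3 hε hε1 hst ht0 hT1 htT
  have htp : 0 < t ^ ((ε - 2) / 2) := Real.rpow_pos_of_pos ht0 _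
  have hin : |s * trg g x (h x) - (1 - ε) * ev (h x) (raise g x p) (raise g x p)| ≤
      s * (9 * C ^ 2 + 9 * C ^ 4) := by
    refine (abs_sub _ _).trans ?_
    have h3 : |s * trg g x (h x)| ≤ s * (9 * C ^ 2) := by
      rw [abs_mul, abs_of_nonneg hs0]
      refine mul_le_mul_of_nonneg_left ?_ hs0
      calc |trg g x (h x)| ≤ C * ∑ i, ∑ j, |h x i j| := hC.tr x _
        _ ≤ C * (9 * C) := mul_le_mul_of_nonneg_left hhs (by linarith)
        _ = 9 * C ^ 2 := by ring
    have h4 : |(1 - ε) * ev (h x) (raise g x p) (raise g x p)| ≤ s * (9 * C ^ 4) := by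
      rw [abs_mul, abs_of_nonneg (by linarith : 0 ≤ 1 - ε)]
      calc (1 - ε) * |ev (h x) (raise g x p) (raise g x p)|
          ≤ 1 * ((9 * C) * (C ^ 3 * s)) := by
            refine mul_le_mul (by linarith) ((ev_le _ _ _).trans
              (mul_le_mul hhs hraise (by positivity) (by linarith))) (abs_nonneg _) zero_le_one
        _ = s * (9 * C ^ 4) := by ring
    linarith
  have hcB : |cB ε δ g h x (vec p)| ≤ C * ((C * E ^ 2 + 1) * (9 * C ^ 2 + 9 * C ^ 4)) := by
    change |volDen g x * t ^ ((ε - 2) / 2) *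
      (s * trg g x (h x) - (1 - ε) * ev (h x) (raise g x p) (raise g x p))| ≤ _
    rw [abs_mul, abs_mul, abs_of_nonneg hvol0, abs_of_pos htp, mul_assoc]
    refine mul_le_mul hvol ?_ (by positivity) (by linarith)
    calc t ^ ((ε - 2) / 2) *
        |s * trg g x (h x) - (1 - ε) * ev (h x) (raise g x p) (raise g x p)|
        ≤ t ^ ((ε - 2) / 2) * (s * (9 * C ^ 2 + 9 * C ^ 4)) :=
          mul_le_mul_of_nonneg_left hin htp.le
      _ = (t ^ ((ε - 2) / 2) * s) * (9 * C ^ 2 + 9 * C ^ 4) := by ring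
      _ ≤ (C * E ^ 2 + 1) * (9 * C ^ 2 + 9 * C ^ 4) :=
          mul_le_mul_of_nonneg_right hr3 (by positivity)
  exact add_le_add hop hcB

end Pool.Agent.PFlow


end

section

/-!
# (GB) from its local form (module GB)
-/

open MeasureTheory Filter Topology
open scoped ContDiff Manifold

namespace Pool.Agent.PFlow.GB

open Pool.Agent.PenroseSph

namespace GBAux

variable {V : Set E3} {a b : ℝ} {g : TensorField} {W : E3 → ℝ}

lemma cont_cd (hSMO : Stmt_SMO) (h : Fol V a b g W) :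
    ContinuousOn (fun x => curv g W x * dens g W x) V := by
  intro x hx
  obtain ⟨-, -, -, -, -, -, -, -, h1, -, -, h2, -⟩ := hSMO.2 g W x (hSMO.1 V a b g W h x hx)
  exact (h2.continuousAt.mul h1.continuousAt).continuousWithinAt

lemma integrable (hSMO : Stmt_SMO) (h : Fol V a b g W) (hab : a < b) {φ : ℝ → ℝ}
    (hφ : Continuous φ) (hs : tsupport φ ⊆ Set.Ioo a b) :
    IntegrableOn (fun x => φ (W x) * curv g W x * dens g W x) V := by
  obtain ⟨c, d, hc, -, hd, hcd⟩ := exists_Icc_of_tsupport hab hs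
  have hK := h.proper c d hc hd
  have h1 : ContinuousOn (fun x => φ (W x) * curv g W x * dens g W x) (cslab V W c d) := by
    have h2 : ContinuousOn (fun x => φ (W x) * (curv g W x * dens g W x)) V :=
      (hφ.comp_continuousOn h.continuousOn).mul (cont_cd hSMO h)
    exact (h2.mono (cslab_subset c d)).congr fun x _ => by ring
  refine (h1.integrableOn_compact hK).of_forall_sdiff_eq_zero h.isOpen.measurableSet ?_
  intro x hx
  have h3 : φ (W x) = 0 := by
    by_contra hne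
    exact hx.2 ⟨hx.1, hcd _ hne⟩
  simp only [h3, zero_mul]

end GBAux

/-- **(GB)** from the local form. -/
theorem GB (hSMO : Stmt_SMO) (hLOC : Stmt_LOC) : Pool.Agent.PFlow.Stmt_GB := by
  classical
  intro V a b g W h hconn ψ hψ
  have hint0 : 0 ≤ ∫ s, ψ s := integral_nonneg hψ.nonneg
  rcases V.eq_empty_or_nonempty with hV | ⟨x0, hx0⟩
  · rw [hV, Measure.restrict_empty, integral_zero_measure]
    positivity
  have hab : a < b := (h.mapsTo x0 hx0).1.trans (h.mapsTo x0 hx0).2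
  have hKc : IsCompact (tsupport ψ) :=
    Metric.isCompact_of_isClosed_isBounded (isClosed_tsupport ψ)
      ((Metric.isBounded_Ioo a b).subset hψ.supp)
  -- the local intervals
  have hloc : ∀ s0 : ℝ, ∃ e : ℝ, 0 < e ∧ (s0 ∈ tsupport ψ → ∀ φ : ℝ → ℝ,
      BumpOn (s0 - e) (s0 + e) φ → a < s0 - e ∧ s0 + e < b ∧
      ∫ x in V, φ (W x) * curv g W x * dens g W x ≤ 4 * Real.pi * ∫ s, φ s) := by
    intro s0
    by_cases hs : s0 ∈ tsupport ψ
    · obtain ⟨e, he, h1, h2, h3⟩ := hLOC V a b g W h s0 (hψ.supp hs).1 (hψ.supp hs).2 (hconn s0)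
      exact ⟨e, he, fun _ φ hφ => ⟨h1, h2, h3 φ hφ⟩⟩
    · exact ⟨1, one_pos, fun h' => absurd h' hs⟩
  choose e he hloc using hloc
  obtain ⟨t, hts, htc⟩ := hKc.elim_nhds_subcover (fun s => Set.Ioo (s - e s) (s + e s))
    (fun s _ => Ioo_mem_nhds (by linarith [he s]) (by linarith [he s]))
  -- the partition of unity
  obtain ⟨f, hf⟩ := SmoothPartitionOfUnity.exists_isSubordinate 𝓘(ℝ, ℝ) (s := tsupport ψ)
    (isClosed_tsupport ψ) (fun i : t => Set.Ioo ((i : ℝ) - e i) ((i : ℝ) + e i))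
    (fun _ => isOpen_Ioo) (by
      intro s hs
      obtain ⟨i, hi, hsi⟩ := Set.mem_iUnion₂.1 (htc hs)
      exact Set.mem_iUnion.2 ⟨⟨i, hi⟩, hsi⟩)
  have hsum : ∀ s, ψ s = ∑ i : t, f i s * ψ s := by
    intro s
    by_cases hs : s ∈ tsupport ψ
    · have h1 := f.sum_eq_one hs
      rw [finsum_eq_sum_of_fintype] at h1
      rw [← Finset.sum_mul, h1, one_mul]
    · have h0 : ψ s = 0 := image_eq_zero_of_notMem_tsupport hs
      simp [h0]
  have hfs : ∀ i : t, ContDiff ℝ 1 (fun s => f i s) := fun i =>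
    ((f i).contMDiff.contDiff).of_le (by norm_cast)
  have hbump : ∀ i : t, BumpOn ((i : ℝ) - e i) ((i : ℝ) + e i) (fun s => f i s * ψ s) := by
    intro i
    refine ⟨(hfs i).mul hψ.smooth, fun s => mul_nonneg (f.nonneg i s) (hψ.nonneg s), ?_⟩
    exact (tsupport_mul_subset_left (f := fun s => f i s) (g := ψ)).trans (hf i)
  have hL : ∀ i : t, ∫ x in V, (f i (W x) * ψ (W x)) * curv g W x * dens g W x ≤
      4 * Real.pi * ∫ s, f i s * ψ s := fun i =>
    (hloc i (hts i i.2) _ (hbump i)).2.2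
  have hsupp : ∀ i : t, tsupport (fun s => f i s * ψ s) ⊆ Set.Ioo a b := fun i =>
    (tsupport_mul_subset_right (f := fun s => f i s) (g := ψ)).trans hψ.supp
  have hI : ∀ i : t, IntegrableOn
      (fun x => (f i (W x) * ψ (W x)) * curv g W x * dens g W x) V := fun i =>
    GBAux.integrable hSMO h hab (φ := fun s => f i s * ψ s)
      ((hfs i).continuous.mul hψ.smooth.continuous) (hsupp i)
  have hJ : ∀ i : t, Integrable (fun s => f i s * ψ s) := fun i =>
    ((hfs i).continuous.mul hψ.smooth.continuous).integrable_of_hasCompactSupport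
      (HasCompactSupport.mul_left hKc)
  calc ∫ x in V, ψ (W x) * curv g W x * dens g W x
      = ∫ x in V, ∑ i : t, (f i (W x) * ψ (W x)) * curv g W x * dens g W x := by
        refine integral_congr_ae (Filter.Eventually.of_forall fun x => ?_)
        show ψ (W x) * curv g W x * dens g W x =
          ∑ i : t, (f i (W x) * ψ (W x)) * curv g W x * dens g W x
        rw [← Finset.sum_mul, ← Finset.sum_mul, ← hsum]
    _ = ∑ i : t, ∫ x in V, (f i (W x) * ψ (W x)) * curv g W x * dens g W x :=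
        integral_finsetSum _ fun i _ => hI i
    _ ≤ ∑ i : t, 4 * Real.pi * ∫ s, f i s * ψ s := Finset.sum_le_sum fun i _ => hL i
    _ = 4 * Real.pi * ∑ i : t, ∫ s, f i s * ψ s := by rw [Finset.mul_sum]
    _ = 4 * Real.pi * ∫ s, ∑ i : t, f i s * ψ s := by
        rw [integral_finsetSum _ fun i _ => hJ i]
    _ = 4 * Real.pi * ∫ s, ψ s := by
        congr 1
        exact integral_congr_ae (Filter.Eventually.of_forall fun s => (hsum s).symm)

end Pool.Agent.PFlow.GB


end

section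

/-!
# Module MAIN3: the main theorem with a competitor
-/

set_option autoImplicit false

open MeasureTheory Filter Topology
open scoped ContDiff ENNReal

namespace Pool.Agent.PFlow

open Pool.Agent.PenroseSph

/-- The energy density in terms of `required`. -/
lemma surplus_eq_required (g h : TensorField) (x : E3) :
    2 * surplus g h x = scalarCurvature g x - required g h x := by
  have h1 : traceWith g h x = trg g x (h x) := rfl
  have h2 : normSqWith g h x = nsq g x (h x) := rfl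
  unfold surplus energyDensity required
  rw [h1, h2]
  ring

/-- The dominant energy condition means that the surplus is nonnegative. -/
lemma dominantEnergy_iff_surplus (g h : TensorField) :
    DominantEnergy 0 g h ↔ ∀ x : E3, x ≠ 0 → 0 ≤ surplus g h x := by
  unfold DominantEnergy
  refine forall_congr' fun x => ?_
  rw [norm_pos_iff]
  refine imp_congr_right fun _ => ?_
  have h1 : Real.sqrt (∑ i, ∑ j, (g x)⁻¹ i j * momentumDensity g h i x * momentumDensity g h j x)
      = jlen g h x := rfl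
  rw [h1]
  unfold surplus
  exact sub_nonneg.symm

/-- The dominant energy condition passes to a competitor. -/
lemma Competitor.dominantEnergy {g h k : TensorField} (hk : Competitor g h k)
    (hDE : DominantEnergy 0 g h) : DominantEnergy 0 g k := by
  rw [dominantEnergy_iff_surplus] at hDE ⊢
  intro x hx
  have h1 := hDE x hx
  have h2 := hk.energy x hx
  have h3 := surplus_eq_required g h x
  have h4 := surplus_eq_required g k x
  linarith

/-- **MAIN3**: the main theorem with a competitor. -/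
theorem MAIN3 (hMAIN2 : Stmt_MAIN2) : Stmt_MAIN3 := by
  rintro g h m hTE hDE ⟨k, hk⟩ hm
  exact hMAIN2 g k m ⟨hTE.metric, hk.tensor, hk.end_one, hk.end_two⟩ (hk.dominantEnergy hDE)
    hk.plane hk.far hm

end Pool.Agent.PFlow


end

section

/-!
# TSTB: the test function for the upper bound of the cubic integral
-/

open MeasureTheory Filter Topology Set
open scoped ContDiff

namespace Pool.Agent.PFlow

open Pool.Agent.PenroseSph

noncomputable section

namespace TSTB

/-! ### cut-offs -/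

lemma kap_smooth : ContDiff ℝ ∞ kap := by
  unfold kap
  exact Real.smoothTransition.contDiff.comp (contDiff_const.sub contDiff_id)

lemma kap_one {s : ℝ} (hs : s ≤ 1) : kap s = 1 :=
  Real.smoothTransition.one_of_one_le (by linarith)

lemma kap_zero {s : ℝ} (hs : 2 ≤ s) : kap s = 0 :=
  Real.smoothTransition.zero_of_nonpos (by linarith)

lemma kap_nonneg (s : ℝ) : 0 ≤ kap s := Real.smoothTransition.nonneg _

lemma kap_le_one (s : ℝ) : kap s ≤ 1 := Real.smoothTransition.le_one _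

lemma kap_hasDeriv (s : ℝ) : HasDerivAt kap (deriv kap s) s :=
  (kap_smooth.differentiable (by simp) s).hasDerivAt

lemma continuous_deriv_kap : Continuous (deriv kap) := kap_smooth.continuous_deriv (by simp)

/-- a continuous function which vanishes for `s < a` vanishes at `a` -/
lemma zero_at_left {f : ℝ → ℝ} (hf : Continuous f) {a : ℝ} (h : ∀ s, s < a → f s = 0) :
    f a = 0 := by
  have h1 : Tendsto f (𝓝[<] a) (𝓝 (f a)) := (hf.tendsto a).mono_left nhdsWithin_le_nhds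
  have h2 : Tendsto f (𝓝[<] a) (𝓝 0) := by
    refine tendsto_const_nhds.congr' ?_
    filter_upwards [self_mem_nhdsWithin] with s hs
    exact (h s hs).symm
  exact tendsto_nhds_unique h1 h2

lemma zero_at_right {f : ℝ → ℝ} (hf : Continuous f) {a : ℝ} (h : ∀ s, a < s → f s = 0) :
    f a = 0 := by
  have h1 : Tendsto f (𝓝[>] a) (𝓝 (f a)) := (hf.tendsto a).mono_left nhdsWithin_le_nhds
  have h2 : Tendsto f (𝓝[>] a) (𝓝 0) := by
    refine tendsto_const_nhds.congr' ?_
    filter_upwards [self_mem_nhdsWithin] with s hs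
    exact (h s hs).symm
  exact tendsto_nhds_unique h1 h2

lemma deriv_eq_zero_of_const {f : ℝ → ℝ} {U : Set ℝ} (hU : IsOpen U) {c : ℝ}
    (h : ∀ s ∈ U, f s = c) {s : ℝ} (hs : s ∈ U) : deriv f s = 0 := by
  have : f =ᶠ[𝓝 s] fun _ => c := by
    filter_upwards [hU.mem_nhds hs] with t ht
    exact h t ht
  rw [this.deriv_eq]
  simp

lemma deriv_kap_left {s : ℝ} (hs : s ≤ 1) : deriv kap s = 0 := by
  have key : ∀ t, t < 1 → deriv kap t = 0 := fun t ht =>
    deriv_eq_zero_of_const isOpen_Iio (fun s hs => kap_one (le_of_lt hs)) ht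
  rcases hs.lt_or_eq with h | h
  · exact key s h
  · rw [h]
    exact zero_at_left continuous_deriv_kap key

lemma deriv_kap_right {s : ℝ} (hs : 2 ≤ s) : deriv kap s = 0 := by
  have key : ∀ t, 2 < t → deriv kap t = 0 := fun t ht =>
    deriv_eq_zero_of_const isOpen_Ioi (fun s hs => kap_zero (le_of_lt hs)) ht
  rcases hs.lt_or_eq with h | h
  · exact key s h
  · rw [← h]
    exact zero_at_right continuous_deriv_kap key

/-- a function which vanishes outside `[a, b]` has compact support in `[a, b]` -/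
lemma tsupport_le {f : ℝ → ℝ} {a b : ℝ} (h : ∀ s, s < a ∨ b < s → f s = 0) :
    tsupport f ⊆ Set.Icc a b := by
  refine closure_minimal ?_ isClosed_Icc
  intro s hs
  by_contra hne
  apply hs
  apply h
  rw [Set.mem_Icc, not_and_or, not_le, not_le] at hne
  exact hne

lemma cpt_of {f : ℝ → ℝ} {a b : ℝ} (h : ∀ s, s < a ∨ b < s → f s = 0) : HasCompactSupport f :=
  isCompact_Icc.of_isClosed_subset (isClosed_tsupport f) (tsupport_le h)

/-- the bound of the derivative of the cut-off -/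
lemma kap_bound : ∃ K : ℝ, 0 ≤ K ∧ ∀ s, |deriv kap s| ≤ K := by
  obtain ⟨K, hK⟩ := continuous_deriv_kap.bounded_above_of_compact_support
    (cpt_of (a := 1) (b := 2) (by
      rintro s (hs | hs)
      · exact deriv_kap_left hs.le
      · exact deriv_kap_right hs.le))
  exact ⟨K, (norm_nonneg _).trans (hK 0), hK⟩

/-! ### the rising function -/

/-- rises from `0` to `1` on `[5 sb / 8, 7 sb / 8]` -/
def rho (sb s : ℝ) : ℝ := Real.smoothTransition ((s - 5 * sb / 8) / (sb / 4))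

lemma st_smooth : ContDiff ℝ ∞ Real.smoothTransition := Real.smoothTransition.contDiff

lemma st_hasDeriv (s : ℝ) : HasDerivAt Real.smoothTransition (deriv Real.smoothTransition s) s :=
  (st_smooth.differentiable (by simp) s).hasDerivAt

lemma st_d_smooth : ContDiff ℝ ∞ (deriv Real.smoothTransition) := by
  have h : ContDiff ℝ (∞ + 1) Real.smoothTransition := by
    simpa using st_smooth
  exact (contDiff_succ_iff_deriv.mp h).2.2

lemma st_d_hasDeriv (s : ℝ) : HasDerivAt (deriv Real.smoothTransition)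
    (deriv (deriv Real.smoothTransition) s) s :=
  (st_d_smooth.differentiable (by simp) s).hasDerivAt

lemma st_d_left {s : ℝ} (hs : s ≤ 0) : deriv Real.smoothTransition s = 0 := by
  have key : ∀ t, t < 0 → deriv Real.smoothTransition t = 0 := fun t ht =>
    deriv_eq_zero_of_const isOpen_Iio
      (fun s hs => Real.smoothTransition.zero_of_nonpos (le_of_lt hs)) ht
  rcases hs.lt_or_eq with h | h
  · exact key s h
  · rw [h]
    exact zero_at_left (st_d_smooth.continuous) key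

lemma st_d_right {s : ℝ} (hs : 1 ≤ s) : deriv Real.smoothTransition s = 0 := by
  have key : ∀ t, 1 < t → deriv Real.smoothTransition t = 0 := fun t ht =>
    deriv_eq_zero_of_const isOpen_Ioi
      (fun s hs => Real.smoothTransition.one_of_one_le (le_of_lt hs)) ht
  rcases hs.lt_or_eq with h | h
  · exact key s h
  · rw [← h]
    exact zero_at_right (st_d_smooth.continuous) key

lemma st_d_nonneg (s : ℝ) : 0 ≤ deriv Real.smoothTransition s :=
  Real.smoothTransition.monotone.deriv_nonneg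

lemma st_bound : ∃ K : ℝ, 0 ≤ K ∧ (∀ s, |deriv Real.smoothTransition s| ≤ K) ∧
    ∀ s, |deriv (deriv Real.smoothTransition) s| ≤ K := by
  have hc1 : HasCompactSupport (deriv Real.smoothTransition) := cpt_of (a := 0) (b := 1) (by
      rintro s (hs | hs)
      · exact st_d_left hs.le
      · exact st_d_right hs.le)
  obtain ⟨K1, hK1⟩ := st_d_smooth.continuous.bounded_above_of_compact_support hc1
  obtain ⟨K2, hK2⟩ := (st_d_smooth.continuous_deriv (by simp)).bounded_above_of_compact_support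
    hc1.deriv
  refine ⟨max K1 K2, le_max_of_le_left ((norm_nonneg _).trans (hK1 0)), fun s => ?_, fun s => ?_⟩
  · exact (hK1 s).trans (le_max_left _ _)
  · exact (hK2 s).trans (le_max_right _ _)

variable {sb : ℝ}

lemma rho_hasDeriv (sb s : ℝ) : HasDerivAt (rho sb)
    (deriv Real.smoothTransition ((s - 5 * sb / 8) / (sb / 4)) * (1 / (sb / 4))) s := by
  have h1 : HasDerivAt (fun s => (s - 5 * sb / 8) / (sb / 4)) (1 / (sb / 4)) s :=
    ((hasDerivAt_id s).sub_const _).div_const _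
  exact (st_hasDeriv _).comp s h1

/-- the derivative of the rising function -/
def rhod (sb s : ℝ) : ℝ := deriv Real.smoothTransition ((s - 5 * sb / 8) / (sb / 4)) * (1 / (sb / 4))

lemma rhod_hasDeriv (sb s : ℝ) : HasDerivAt (rhod sb)
    (deriv (deriv Real.smoothTransition) ((s - 5 * sb / 8) / (sb / 4)) * (1 / (sb / 4))
      * (1 / (sb / 4))) s := by
  have h1 : HasDerivAt (fun s => (s - 5 * sb / 8) / (sb / 4)) (1 / (sb / 4)) s :=
    ((hasDerivAt_id s).sub_const _).div_const _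
  exact ((st_d_hasDeriv _).comp s h1).mul_const _

lemma rhod_smooth (sb : ℝ) : ContDiff ℝ ∞ (rhod sb) := by
  unfold rhod
  exact (st_d_smooth.comp ((contDiff_id.sub contDiff_const).div_const _)).mul contDiff_const

lemma rho_smooth (sb : ℝ) : ContDiff ℝ ∞ (rho sb) := by
  unfold rho
  exact st_smooth.comp ((contDiff_id.sub contDiff_const).div_const _)

lemma rho_zero (h : 0 < sb) {s : ℝ} (hs : s ≤ 5 * sb / 8) : rho sb s = 0 :=
  Real.smoothTransition.zero_of_nonpos (div_nonpos_of_nonpos_of_nonneg (by linarith) (by linarith))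

lemma rho_one (h : 0 < sb) {s : ℝ} (hs : 7 * sb / 8 ≤ s) : rho sb s = 1 :=
  Real.smoothTransition.one_of_one_le (by
    rw [one_le_div (by linarith)]
    linarith)

lemma rho_nonneg (s : ℝ) : 0 ≤ rho sb s := Real.smoothTransition.nonneg _

lemma rho_le_one (s : ℝ) : rho sb s ≤ 1 := Real.smoothTransition.le_one _

lemma rhod_left (h : 0 < sb) {s : ℝ} (hs : s ≤ 5 * sb / 8) : rhod sb s = 0 := by
  unfold rhod
  rw [st_d_left (div_nonpos_of_nonpos_of_nonneg (by linarith) (by linarith)), zero_mul]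

lemma rhod_right (h : 0 < sb) {s : ℝ} (hs : 7 * sb / 8 ≤ s) : rhod sb s = 0 := by
  unfold rhod
  rw [st_d_right (by
    rw [one_le_div (by linarith)]
    linarith), zero_mul]

lemma rhod_nonneg (h : 0 < sb) (s : ℝ) : 0 ≤ rhod sb s :=
  mul_nonneg (st_d_nonneg _) (by positivity)

/-! ### the solution of `ψ + ε ψ' = β (· - s₂)` -/

section

variable {ε s₂ : ℝ} {β : ℝ → ℝ}

/-- the integral in the formula for `ψ` -/
def PP (ε s₂ : ℝ) (β : ℝ → ℝ) (s : ℝ) : ℝ := ∫ t in s₂..s, β (t - s₂) * Real.exp (t / ε)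

/-- the function `ψ` -/
def ps (ε s₂ : ℝ) (β : ℝ → ℝ) (s : ℝ) : ℝ := ε⁻¹ * Real.exp (-s / ε) * PP ε s₂ β s

lemma beta_cont (hβ : IsBump β) : Continuous β := hβ.smooth.continuous

lemma beta_int (hβ : IsBump β) : Integrable β :=
  (beta_cont hβ).integrable_of_hasCompactSupport (cpt_of (a := 1 / 4) (b := 3 / 4) (by
    rintro s (hs | hs)
    · exact hβ.supp s (Or.inl hs.le)
    · exact hβ.supp s (Or.inr hs.le)))

lemma integrand_cont (hβ : IsBump β) : Continuous fun t => β (t - s₂) * Real.exp (t / ε) := by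
  have := beta_cont hβ
  fun_prop

lemma PP_hasDeriv (hβ : IsBump β) (s : ℝ) :
    HasDerivAt (PP ε s₂ β) (β (s - s₂) * Real.exp (s / ε)) s :=
  ((integrand_cont hβ).integral_hasStrictDerivAt s₂ s).hasDerivAt

lemma ps_hasDeriv (hε : 0 < ε) (hβ : IsBump β) (s : ℝ) :
    HasDerivAt (ps ε s₂ β) ((β (s - s₂) - ps ε s₂ β s) / ε) s := by
  have h1 : HasDerivAt (fun s => Real.exp (-s / ε)) (Real.exp (-s / ε) * (-1 / ε)) s :=
    (((hasDerivAt_id s).neg).div_const ε).exp
  have h2 := ((h1.const_mul ε⁻¹).mul (PP_hasDeriv (ε := ε) (s₂ := s₂) hβ s))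
  have e : ε⁻¹ * (Real.exp (-s / ε) * (-1 / ε)) * PP ε s₂ β s
      + ε⁻¹ * Real.exp (-s / ε) * (β (s - s₂) * Real.exp (s / ε))
      = (β (s - s₂) - ps ε s₂ β s) / ε := by
    unfold ps
    have h3 : Real.exp (-s / ε) * Real.exp (s / ε) = 1 := by
      rw [← Real.exp_add]
      have : -s / ε + s / ε = 0 := by ring
      rw [this, Real.exp_zero]
    have e1 : ε⁻¹ * Real.exp (-s / ε) * (β (s - s₂) * Real.exp (s / ε))
        = ε⁻¹ * β (s - s₂) * (Real.exp (-s / ε) * Real.exp (s / ε)) := by ring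
    rw [e1, h3]
    ring
  rw [← e]
  exact h2

lemma ps_cont (hε : 0 < ε) (hβ : IsBump β) : Continuous (ps ε s₂ β) :=
  continuous_iff_continuousAt.mpr fun s => (ps_hasDeriv hε hβ s).continuousAt

lemma PP_zero (hβ : IsBump β) {s : ℝ} (hs : s ≤ s₂ + 1 / 4) : PP ε s₂ β s = 0 := by
  unfold PP
  refine intervalIntegral.integral_zero_ae (Filter.Eventually.of_forall fun t ht => ?_)
  have h1 : t ≤ s₂ + 1 / 4 := by
    rw [Set.mem_uIoc] at ht
    rcases ht with h | h <;> linarith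
  rw [hβ.supp (t - s₂) (Or.inl (by linarith)), zero_mul]

lemma ps_zero (hβ : IsBump β) {s : ℝ} (hs : s ≤ s₂ + 1 / 4) : ps ε s₂ β s = 0 := by
  unfold ps
  rw [PP_zero hβ hs, mul_zero]

lemma beta_part (hβ : IsBump β) {s : ℝ} (hs : s₂ ≤ s) : ∫ t in s₂..s, β (t - s₂) ≤ 1 := by
  rw [intervalIntegral.integral_of_le hs]
  have h1 : ∫ t, β (t - s₂) = 1 := by
    rw [integral_sub_right_eq_self β s₂, hβ.integral_eq]
  rw [← h1]
  exact setIntegral_le_integral ((beta_int hβ).comp_sub_right s₂)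
    (Filter.Eventually.of_forall fun t => hβ.nonneg _)

lemma PP_nonneg (hβ : IsBump β) (s : ℝ) : 0 ≤ PP ε s₂ β s := by
  rcases le_total s s₂ with h | h
  · rw [PP_zero hβ (by linarith)]
  · exact intervalIntegral.integral_nonneg h fun t _ =>
      mul_nonneg (hβ.nonneg _) (Real.exp_pos _).le

lemma ps_nonneg (hε : 0 < ε) (hβ : IsBump β) (s : ℝ) : 0 ≤ ps ε s₂ β s :=
  mul_nonneg (by positivity) (PP_nonneg hβ s)

lemma PP_le (hε : 0 < ε) (hβ : IsBump β) {s : ℝ} (hs : s₂ ≤ s) :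
    PP ε s₂ β s ≤ Real.exp ((s₂ + 3 / 4) / ε) := by
  have h1 : PP ε s₂ β s ≤ ∫ t in s₂..s, Real.exp ((s₂ + 3 / 4) / ε) * β (t - s₂) := by
    refine intervalIntegral.integral_mono_on hs ((integrand_cont hβ).intervalIntegrable _ _)
      ((continuous_const.mul ((beta_cont hβ).comp (continuous_id.sub continuous_const))).intervalIntegrable
        _ _) fun t _ => ?_
    rcases le_total (t - s₂) (3 / 4) with h | h
    · rw [mul_comm]
      refine mul_le_mul_of_nonneg_right (Real.exp_le_exp.mpr ?_) (hβ.nonneg _)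
      exact div_le_div_of_nonneg_right (by linarith) hε.le
    · show β (t - s₂) * Real.exp (t / ε) ≤ Real.exp ((s₂ + 3 / 4) / ε) * β (t - s₂)
      rw [hβ.supp (t - s₂) (Or.inr h)]
      simp
  refine h1.trans ?_
  rw [intervalIntegral.integral_const_mul]
  have h2 := beta_part (s₂ := s₂) hβ hs
  have h3 := (Real.exp_pos ((s₂ + 3 / 4) / ε)).le
  nlinarith

lemma ps_le (hε : 0 < ε) (hβ : IsBump β) {L s : ℝ} (hL : 0 ≤ L) (hs : s₂ + L ≤ s) :
    ps ε s₂ β s ≤ ε⁻¹ * Real.exp (3 / (4 * ε)) * Real.exp (-(L / ε)) := by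
  have h1 := PP_le hε hβ (show s₂ ≤ s by linarith)
  unfold ps
  have h2 : Real.exp (-s / ε) * Real.exp ((s₂ + 3 / 4) / ε)
      ≤ Real.exp (3 / (4 * ε)) * Real.exp (-(L / ε)) := by
    rw [← Real.exp_add, ← Real.exp_add]
    apply Real.exp_le_exp.mpr
    have e1 : -s / ε + (s₂ + 3 / 4) / ε = (s₂ + 3 / 4 - s) / ε := by ring
    have e2 : 3 / (4 * ε) + -(L / ε) = (3 / 4 - L) / ε := by
      field_simp
      ring
    rw [e1, e2]
    exact div_le_div_of_nonneg_right (by linarith) hε.le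
  calc ε⁻¹ * Real.exp (-s / ε) * PP ε s₂ β s
      ≤ ε⁻¹ * Real.exp (-s / ε) * Real.exp ((s₂ + 3 / 4) / ε) := by
        apply mul_le_mul_of_nonneg_left h1 (by positivity)
    _ = ε⁻¹ * (Real.exp (-s / ε) * Real.exp ((s₂ + 3 / 4) / ε)) := by ring
    _ ≤ ε⁻¹ * (Real.exp (3 / (4 * ε)) * Real.exp (-(L / ε))) := by
        apply mul_le_mul_of_nonneg_left h2 (by positivity)
    _ = _ := by ring

lemma ps_integral (hε : 0 < ε) (hβ : IsBump β) {T : ℝ} (hT : s₂ ≤ T) :
    ∫ t in s₂..T, ps ε s₂ β t ≤ 1 := by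
  have hc := ps_cont (s₂ := s₂) hε hβ
  have hbc : Continuous fun t => β (t - s₂) :=
    (beta_cont hβ).comp (continuous_id.sub continuous_const)
  have h1 : ∫ t in s₂..T, (β (t - s₂) - ps ε s₂ β t) / ε = ps ε s₂ β T - ps ε s₂ β s₂ :=
    intervalIntegral.integral_eq_sub_of_hasDerivAt (fun t _ => ps_hasDeriv hε hβ t)
      ((hbc.sub hc).div_const ε |>.intervalIntegrable _ _)
  rw [intervalIntegral.integral_div, intervalIntegral.integral_sub (hbc.intervalIntegrable _ _)
    (hc.intervalIntegrable _ _), ps_zero hβ (by linarith : s₂ ≤ s₂ + 1 / 4), sub_zero,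
    div_eq_iff hε.ne'] at h1
  have h2 := beta_part (s₂ := s₂) hβ hT
  have h3 := mul_nonneg (ps_nonneg (s₂ := s₂) hε hβ T) hε.le
  linarith

end

/-! ### the truncated function and the test function -/

section

variable {ε s₂ L c : ℝ} {β : ℝ → ℝ}

/-- the truncated function -/
def pb (ε s₂ L : ℝ) (β : ℝ → ℝ) (s : ℝ) : ℝ := ps ε s₂ β s * kap (s - s₂ - L + 1)

/-- its derivative -/
def pbd (ε s₂ L : ℝ) (β : ℝ → ℝ) (s : ℝ) : ℝ :=
  (β (s - s₂) - ps ε s₂ β s) / ε * kap (s - s₂ - L + 1)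
    + ps ε s₂ β s * deriv kap (s - s₂ - L + 1)

lemma kap_sh_hasDeriv (s₂ L s : ℝ) :
    HasDerivAt (fun s => kap (s - s₂ - L + 1)) (deriv kap (s - s₂ - L + 1)) s := by
  have h1 : HasDerivAt (fun s : ℝ => s - s₂ - L + 1) 1 s :=
    (((hasDerivAt_id s).sub_const _).sub_const _).add_const _
  have h2 := (kap_hasDeriv (s - s₂ - L + 1)).comp s h1
  rw [mul_one] at h2
  exact h2

lemma pb_hasDeriv (hε : 0 < ε) (hβ : IsBump β) (s : ℝ) :
    HasDerivAt (pb ε s₂ L β) (pbd ε s₂ L β s) s :=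
  (ps_hasDeriv hε hβ s).mul (kap_sh_hasDeriv s₂ L s)

lemma pbd_cont (hε : 0 < ε) (hβ : IsBump β) : Continuous (pbd ε s₂ L β) := by
  have h1 := ps_cont (s₂ := s₂) hε hβ
  have h2 := beta_cont hβ
  have h3 := continuous_deriv_kap
  have h4 : Continuous kap := kap_smooth.continuous
  unfold pbd
  fun_prop

lemma pb_C1 (hε : 0 < ε) (hβ : IsBump β) : ContDiff ℝ 1 (pb ε s₂ L β) := by
  rw [contDiff_one_iff_deriv]
  refine ⟨fun s => (pb_hasDeriv hε hβ s).differentiableAt, ?_⟩
  have : deriv (pb ε s₂ L β) = pbd ε s₂ L β := funext fun s => (pb_hasDeriv hε hβ s).deriv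
  rw [this]
  exact pbd_cont hε hβ

lemma pb_key (hε : 0 < ε) (hβ : IsBump β) (hL : 1 ≤ L) (s : ℝ) :
    pb ε s₂ L β s + ε * pbd ε s₂ L β s
      = β (s - s₂) + ε * (ps ε s₂ β s * deriv kap (s - s₂ - L + 1)) := by
  have h1 : β (s - s₂) * kap (s - s₂ - L + 1) = β (s - s₂) := by
    rcases le_total (s - s₂) (3 / 4) with h | h
    · rw [kap_one (by linarith), mul_one]
    · rw [hβ.supp _ (Or.inr h), zero_mul]
  unfold pb pbd
  have h2 : ε * ((β (s - s₂) - ps ε s₂ β s) / ε * kap (s - s₂ - L + 1))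
      = (β (s - s₂) - ps ε s₂ β s) * kap (s - s₂ - L + 1) := by
    field_simp
  linear_combination h2 + h1

lemma pb_left (hβ : IsBump β) {s : ℝ} (hs : s ≤ s₂ + 1 / 4) : pb ε s₂ L β s = 0 := by
  unfold pb
  rw [ps_zero hβ hs, zero_mul]

lemma pb_right {s : ℝ} (hs : s₂ + L + 1 ≤ s) : pb ε s₂ L β s = 0 := by
  unfold pb
  rw [kap_zero (by linarith), mul_zero]

lemma pb_nonneg (hε : 0 < ε) (hβ : IsBump β) (s : ℝ) : 0 ≤ pb ε s₂ L β s :=
  mul_nonneg (ps_nonneg hε hβ s) (kap_nonneg _)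

lemma pb_le_ps (hε : 0 < ε) (hβ : IsBump β) (s : ℝ) : pb ε s₂ L β s ≤ ps ε s₂ β s := by
  have h1 := ps_nonneg (s₂ := s₂) hε hβ s
  have h2 := kap_le_one (s - s₂ - L + 1)
  unfold pb
  nlinarith

lemma pb_cont (hε : 0 < ε) (hβ : IsBump β) : Continuous (pb ε s₂ L β) := (pb_C1 hε hβ).continuous

lemma pb_integral (hε : 0 < ε) (hβ : IsBump β) (hL : 1 ≤ L) :
    ∫ t in s₂..(s₂ + L + 1), pb ε s₂ L β t ≤ 1 := by
  refine le_trans ?_ (ps_integral (s₂ := s₂) (T := s₂ + L + 1) hε hβ (by linarith))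
  exact intervalIntegral.integral_mono_on (by linarith)
    ((pb_cont hε hβ).intervalIntegrable _ _) ((ps_cont hε hβ).intervalIntegrable _ _)
    fun t _ => pb_le_ps hε hβ t

/-- the weight integral -/
def QQ (ε s₂ L c : ℝ) (β : ℝ → ℝ) (s : ℝ) : ℝ := ∫ t in s₂..s, pb ε s₂ L β t * Real.exp (-(c * t))

lemma qint_cont (hε : 0 < ε) (hβ : IsBump β) :
    Continuous fun t => pb ε s₂ L β t * Real.exp (-(c * t)) := by
  have := pb_cont (s₂ := s₂) (L := L) hε hβ
  fun_prop

lemma QQ_hasDeriv (hε : 0 < ε) (hβ : IsBump β) (s : ℝ) :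
    HasDerivAt (QQ ε s₂ L c β) (pb ε s₂ L β s * Real.exp (-(c * s))) s :=
  ((qint_cont hε hβ).integral_hasStrictDerivAt s₂ s).hasDerivAt

lemma QQ_zero (hβ : IsBump β) {s : ℝ} (hs : s ≤ s₂ + 1 / 4) : QQ ε s₂ L c β s = 0 := by
  unfold QQ
  refine intervalIntegral.integral_zero_ae (Filter.Eventually.of_forall fun t ht => ?_)
  have h1 : t ≤ s₂ + 1 / 4 := by
    rw [Set.mem_uIoc] at ht
    rcases ht with h | h <;> linarith
  rw [pb_left hβ h1, zero_mul]

lemma QQ_mono (hε : 0 < ε) (hβ : IsBump β) : Monotone (QQ ε s₂ L c β) :=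
  monotone_of_hasDerivAt_nonneg (fun s => QQ_hasDeriv hε hβ s)
    fun s => mul_nonneg (pb_nonneg hε hβ s) (Real.exp_pos _).le

lemma QQ_top (hε : 0 < ε) (hβ : IsBump β) {s : ℝ} (hs : s₂ + L + 1 ≤ s) :
    QQ ε s₂ L c β s = QQ ε s₂ L c β (s₂ + L + 1) := by
  have h1 := intervalIntegral.integral_interval_sub_left
    ((qint_cont (s₂ := s₂) (L := L) (c := c) hε hβ).intervalIntegrable (μ := volume) s₂ s)
    ((qint_cont (s₂ := s₂) (L := L) (c := c) hε hβ).intervalIntegrable (μ := volume) s₂ (s₂ + L + 1))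
  have h2 : ∫ t in (s₂ + L + 1)..s, pb ε s₂ L β t * Real.exp (-(c * t)) = 0 := by
    refine intervalIntegral.integral_zero_ae (Filter.Eventually.of_forall fun t ht => ?_)
    have h1 : s₂ + L + 1 ≤ t := by
      rw [Set.mem_uIoc] at ht
      rcases ht with h | h <;> linarith
    rw [pb_right h1, zero_mul]
  rw [h2] at h1
  unfold QQ
  linarith

/-- the total weight -/
def MB (ε s₂ L c : ℝ) (β : ℝ → ℝ) : ℝ := QQ ε s₂ L c β (s₂ + L + 1)

lemma QQ_le (hε : 0 < ε) (hβ : IsBump β) (s : ℝ) : QQ ε s₂ L c β s ≤ MB ε s₂ L c β := by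
  rcases le_total s (s₂ + L + 1) with h | h
  · exact QQ_mono hε hβ h
  · exact (QQ_top hε hβ h).le

lemma QQ_nonneg (hε : 0 < ε) (hβ : IsBump β) (s : ℝ) : 0 ≤ QQ ε s₂ L c β s := by
  rcases le_total s s₂ with h | h
  · rw [QQ_zero hβ (by linarith)]
  · have h1 := QQ_mono (s₂ := s₂) (L := L) (c := c) hε hβ h
    rwa [QQ_zero hβ (by linarith)] at h1

lemma MB_nonneg (hε : 0 < ε) (hβ : IsBump β) : 0 ≤ MB ε s₂ L c β := QQ_nonneg hε hβ _

lemma MB_le (hε : 0 < ε) (hβ : IsBump β) (hL : 1 ≤ L) (hc : 0 ≤ c) :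
    MB ε s₂ L c β ≤ Real.exp (-(c * s₂)) := by
  have h1 : MB ε s₂ L c β ≤ ∫ t in s₂..(s₂ + L + 1), pb ε s₂ L β t * Real.exp (-(c * s₂)) := by
    refine intervalIntegral.integral_mono_on (by linarith)
      ((qint_cont hε hβ).intervalIntegrable _ _)
      (((pb_cont hε hβ).mul continuous_const).intervalIntegrable _ _) fun t ht => ?_
    refine mul_le_mul_of_nonneg_left (Real.exp_le_exp.mpr ?_) (pb_nonneg hε hβ t)
    have := mul_le_mul_of_nonneg_left ht.1 hc
    linarith
  refine h1.trans ?_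
  rw [intervalIntegral.integral_mul_const]
  have h2 := pb_integral (s₂ := s₂) hε hβ hL
  have h3 := (Real.exp_pos (-(c * s₂))).le
  nlinarith

/-- the test function without the exponential factor -/
def chi (ε s₂ L c sb : ℝ) (β : ℝ → ℝ) (s : ℝ) : ℝ :=
  rho sb s * (MB ε s₂ L c β - QQ ε s₂ L c β s)

/-- the test function -/
def et (ε s₂ L c sb : ℝ) (β : ℝ → ℝ) (s : ℝ) : ℝ := chi ε s₂ L c sb β s * Real.exp (c * s)

/-- the derivative of the test function -/
def etd (ε s₂ L c sb : ℝ) (β : ℝ → ℝ) (s : ℝ) : ℝ :=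
  MB ε s₂ L c β * (rhod sb s * Real.exp (c * s)) - pb ε s₂ L β s + c * et ε s₂ L c sb β s

lemma chi_hasDeriv (hε : 0 < ε) (hβ : IsBump β) (hsb : 0 < sb) (h2 : sb < s₂) (s : ℝ) :
    HasDerivAt (chi ε s₂ L c sb β)
      (rhod sb s * MB ε s₂ L c β - pb ε s₂ L β s * Real.exp (-(c * s))) s := by
  have h3 := (rho_hasDeriv sb s).mul
    ((QQ_hasDeriv (s₂ := s₂) (L := L) (c := c) hε hβ s).const_sub (MB ε s₂ L c β))
  have e : deriv Real.smoothTransition ((s - 5 * sb / 8) / (sb / 4)) * (1 / (sb / 4))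
        * (MB ε s₂ L c β - QQ ε s₂ L c β s)
      + rho sb s * -(pb ε s₂ L β s * Real.exp (-(c * s)))
      = rhod sb s * MB ε s₂ L c β - pb ε s₂ L β s * Real.exp (-(c * s)) := by
    change rhod sb s * (MB ε s₂ L c β - QQ ε s₂ L c β s)
      + rho sb s * -(pb ε s₂ L β s * Real.exp (-(c * s))) = _
    rcases le_total s s₂ with h | h
    · rw [QQ_zero hβ (by linarith), pb_left hβ (by linarith)]
      ring
    · rw [rhod_right hsb (by linarith), rho_one hsb (by linarith)]
      ring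
  rw [← e]
  exact h3

lemma et_hasDeriv (hε : 0 < ε) (hβ : IsBump β) (hsb : 0 < sb) (h2 : sb < s₂) (s : ℝ) :
    HasDerivAt (et ε s₂ L c sb β) (etd ε s₂ L c sb β s) s := by
  have h1 : HasDerivAt (fun s => Real.exp (c * s)) (Real.exp (c * s) * (c * 1)) s :=
    ((hasDerivAt_id s).const_mul c).exp
  have h3 := (chi_hasDeriv (L := L) (c := c) hε hβ hsb h2 s).mul h1
  have e : (rhod sb s * MB ε s₂ L c β - pb ε s₂ L β s * Real.exp (-(c * s))) * Real.exp (c * s)
      + chi ε s₂ L c sb β s * (Real.exp (c * s) * (c * 1)) = etd ε s₂ L c sb β s := by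
    unfold etd et
    have h4 : Real.exp (-(c * s)) * Real.exp (c * s) = 1 := by
      rw [← Real.exp_add, neg_add_cancel, Real.exp_zero]
    linear_combination (-pb ε s₂ L β s) * h4
  rw [← e]
  exact h3

lemma et_cont (hε : 0 < ε) (hβ : IsBump β) (hsb : 0 < sb) (h2 : sb < s₂) :
    Continuous (et ε s₂ L c sb β) :=
  continuous_iff_continuousAt.mpr fun s => (et_hasDeriv hε hβ hsb h2 s).continuousAt

lemma rhod_exp_C1 (sb c : ℝ) : ContDiff ℝ 1 (fun s => rhod sb s * Real.exp (c * s)) :=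
  ((rhod_smooth sb).of_le (by simp)).mul (contDiff_const.mul contDiff_id).exp

lemma etd_cont (hε : 0 < ε) (hβ : IsBump β) (hsb : 0 < sb) (h2 : sb < s₂) :
    Continuous (etd ε s₂ L c sb β) := by
  have h1 := (rhod_exp_C1 sb c).continuous
  have h3 := pb_cont (s₂ := s₂) (L := L) hε hβ
  have h4 := et_cont (L := L) (c := c) hε hβ hsb h2
  unfold etd
  exact ((continuous_const.mul h1).sub h3).add (continuous_const.mul h4)

lemma et_C1 (hε : 0 < ε) (hβ : IsBump β) (hsb : 0 < sb) (h2 : sb < s₂) :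
    ContDiff ℝ 1 (et ε s₂ L c sb β) := by
  rw [contDiff_one_iff_deriv]
  refine ⟨fun s => (et_hasDeriv hε hβ hsb h2 s).differentiableAt, ?_⟩
  have : deriv (et ε s₂ L c sb β) = etd ε s₂ L c sb β :=
    funext fun s => (et_hasDeriv hε hβ hsb h2 s).deriv
  rw [this]
  exact etd_cont hε hβ hsb h2

lemma chi_nonneg (hε : 0 < ε) (hβ : IsBump β) (s : ℝ) : 0 ≤ chi ε s₂ L c sb β s :=
  mul_nonneg (rho_nonneg s) (sub_nonneg.mpr (QQ_le hε hβ s))

lemma chi_le (hε : 0 < ε) (hβ : IsBump β) (s : ℝ) : chi ε s₂ L c sb β s ≤ MB ε s₂ L c β := by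
  have h1 := QQ_nonneg (s₂ := s₂) (L := L) (c := c) hε hβ s
  have h2 := QQ_le (s₂ := s₂) (L := L) (c := c) hε hβ s
  have h3 := rho_nonneg (sb := sb) s
  have h4 := rho_le_one (sb := sb) s
  have h5 := MB_nonneg (s₂ := s₂) (L := L) (c := c) hε hβ
  unfold chi
  nlinarith

lemma et_nonneg (hε : 0 < ε) (hβ : IsBump β) (s : ℝ) : 0 ≤ et ε s₂ L c sb β s :=
  mul_nonneg (chi_nonneg hε hβ s) (Real.exp_pos _).le

lemma et_le (hε : 0 < ε) (hβ : IsBump β) (s : ℝ) :
    et ε s₂ L c sb β s ≤ MB ε s₂ L c β * Real.exp (c * s) :=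
  mul_le_mul_of_nonneg_right (chi_le hε hβ s) (Real.exp_pos _).le

lemma et_left (hsb : 0 < sb) {s : ℝ} (hs : s ≤ 5 * sb / 8) : et ε s₂ L c sb β s = 0 := by
  unfold et chi
  rw [rho_zero hsb hs, zero_mul, zero_mul]

lemma et_right (hε : 0 < ε) (hβ : IsBump β) {s : ℝ} (hs : s₂ + L + 1 ≤ s) :
    et ε s₂ L c sb β s = 0 := by
  unfold et chi MB
  rw [QQ_top hε hβ hs, sub_self, mul_zero, zero_mul]

/-- the integral of a function which vanishes outside of an interval -/
lemma integral_supp {f : ℝ → ℝ} {a b : ℝ} (hab : a ≤ b) (h1 : ∀ s, s ≤ a → f s = 0)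
    (h2 : ∀ s, b ≤ s → f s = 0) : ∫ s, f s = ∫ s in a..b, f s := by
  rw [intervalIntegral.integral_of_le hab, ← integral_indicator measurableSet_Ioc]
  refine integral_congr_ae (Filter.Eventually.of_forall fun s => ?_)
  by_cases hs : s ∈ Set.Ioc a b
  · exact (Set.indicator_of_mem hs f).symm
  · refine Eq.trans ?_ (Set.indicator_of_notMem hs f).symm
    rw [Set.mem_Ioc, not_and_or, not_lt, not_le] at hs
    rcases hs with h | h
    · exact h1 s h
    · exact h2 s h.le

lemma et_integral (hε : 0 < ε) (hβ : IsBump β) (hL : 1 ≤ L) (hc : 0 < c) (hsb : 0 < sb)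
    (h2 : sb < s₂) : c * ∫ s, et ε s₂ L c sb β s ≤ 1 := by
  have hc1 := et_cont (L := L) (c := c) hε hβ hsb h2
  have hpc := pb_cont (s₂ := s₂) (L := L) hε hβ
  have hrc : Continuous fun s => MB ε s₂ L c β * (rhod sb s * Real.exp (c * s)) :=
    continuous_const.mul (rhod_exp_C1 sb c).continuous
  set T := s₂ + L + 1 with hT
  have hab : (0 : ℝ) ≤ T := by linarith
  rw [integral_supp hab (fun s hs => et_left hsb (by linarith)) (fun s hs => et_right hε hβ hs)]
  have h3 : ∫ s in (0 : ℝ)..T, etd ε s₂ L c sb β s = 0 := by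
    rw [intervalIntegral.integral_eq_sub_of_hasDerivAt (fun s _ => et_hasDeriv hε hβ hsb h2 s)
      ((etd_cont hε hβ hsb h2).intervalIntegrable _ _), et_right hε hβ (le_refl _),
      et_left hsb (by linarith), sub_zero]
  have e : ∫ s in (0 : ℝ)..T, etd ε s₂ L c sb β s
      = (∫ s in (0 : ℝ)..T, MB ε s₂ L c β * (rhod sb s * Real.exp (c * s)))
        - (∫ s in (0 : ℝ)..T, pb ε s₂ L β s) + c * ∫ s in (0 : ℝ)..T, et ε s₂ L c sb β s := by
    have e1 : ∫ s in (0 : ℝ)..T, etd ε s₂ L c sb β s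
        = (∫ s in (0 : ℝ)..T, (MB ε s₂ L c β * (rhod sb s * Real.exp (c * s)) - pb ε s₂ L β s))
          + ∫ s in (0 : ℝ)..T, c * et ε s₂ L c sb β s :=
      intervalIntegral.integral_add ((hrc.sub hpc).intervalIntegrable _ _)
        ((continuous_const.mul hc1).intervalIntegrable _ _)
    have e2 : ∫ s in (0 : ℝ)..T, (MB ε s₂ L c β * (rhod sb s * Real.exp (c * s)) - pb ε s₂ L β s)
        = (∫ s in (0 : ℝ)..T, MB ε s₂ L c β * (rhod sb s * Real.exp (c * s)))
          - ∫ s in (0 : ℝ)..T, pb ε s₂ L β s :=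
      intervalIntegral.integral_sub (hrc.intervalIntegrable _ _) (hpc.intervalIntegrable _ _)
    rw [e1, e2, intervalIntegral.integral_const_mul c]
  rw [e] at h3
  have h4 : 0 ≤ ∫ s in (0 : ℝ)..T, MB ε s₂ L c β * (rhod sb s * Real.exp (c * s)) :=
    intervalIntegral.integral_nonneg hab fun s _ =>
      mul_nonneg (MB_nonneg hε hβ) (mul_nonneg (rhod_nonneg hsb s) (Real.exp_pos _).le)
  have h5 : ∫ s in (0 : ℝ)..T, pb ε s₂ L β s = ∫ s in s₂..T, pb ε s₂ L β s := by
    have h6 := intervalIntegral.integral_add_adjacent_intervals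
      (hpc.intervalIntegrable (μ := volume) 0 s₂) (hpc.intervalIntegrable (μ := volume) s₂ T)
    have h7 : ∫ s in (0 : ℝ)..s₂, pb ε s₂ L β s = 0 := by
      refine intervalIntegral.integral_zero_ae (Filter.Eventually.of_forall fun t ht => ?_)
      rw [Set.mem_uIoc] at ht
      apply pb_left hβ
      rcases ht with h | h <;> linarith
    rw [h7, zero_add] at h6
    exact h6.symm
  have h8 := pb_integral (s₂ := s₂) hε hβ hL
  rw [← hT] at h8
  linarith

/-! ### bounds of the rising part -/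

lemma rhod_dd_right (h : 0 < sb) {s : ℝ} (hs : 7 * sb / 8 < s) :
    deriv (fun s => rhod sb s * Real.exp (c * s)) s = 0 :=
  deriv_eq_zero_of_const (f := fun s => rhod sb s * Real.exp (c * s)) isOpen_Ioi
    (fun t ht => by
      show rhod sb t * Real.exp (c * t) = 0
      rw [rhod_right h (le_of_lt ht), zero_mul]) hs

lemma rhod_bound : ∃ K : ℝ, 0 ≤ K ∧ ∀ sb c : ℝ, 0 < sb → sb ≤ 1 → 0 ≤ c → c ≤ 1 → ∀ s : ℝ,
    |rhod sb s * Real.exp (c * s)| ≤ K / sb ^ 2 ∧
    |deriv (fun s => rhod sb s * Real.exp (c * s)) s| ≤ K / sb ^ 2 := by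
  obtain ⟨K, hK, hK1, hK2⟩ := st_bound
  refine ⟨20 * K * Real.exp 1, by positivity, fun sb c h1 h2 h3 h4 s => ?_⟩
  have hpos : 0 ≤ 20 * K * Real.exp 1 / sb ^ 2 := by positivity
  rcases lt_or_ge (7 * sb / 8) s with h | h
  · rw [rhod_dd_right h1 h, rhod_right h1 h.le]
    simpa using hpos
  · have e1 : Real.exp (c * s) ≤ Real.exp 1 := by
      apply Real.exp_le_exp.mpr
      rcases le_total s 0 with h5 | h5
      · nlinarith
      · nlinarith
    have e2 : |rhod sb s| ≤ 4 * K / sb ^ 2 := by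
      unfold rhod
      rw [abs_mul, abs_of_pos (show (0 : ℝ) < 1 / (sb / 4) by positivity)]
      have h5 := hK1 ((s - 5 * sb / 8) / (sb / 4))
      have h6 : (1 : ℝ) / (sb / 4) ≤ 4 / sb ^ 2 := by
        rw [div_le_div_iff₀ (by positivity) (by positivity)]
        nlinarith
      calc _ ≤ K * (4 / sb ^ 2) := mul_le_mul h5 h6 (by positivity) hK
        _ = _ := by ring
    have e3 : |deriv (deriv Real.smoothTransition) ((s - 5 * sb / 8) / (sb / 4)) * (1 / (sb / 4))
        * (1 / (sb / 4))| ≤ 16 * K / sb ^ 2 := by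
      rw [mul_assoc, abs_mul, abs_of_pos (show (0 : ℝ) < 1 / (sb / 4) * (1 / (sb / 4)) by positivity)]
      have h5 := hK2 ((s - 5 * sb / 8) / (sb / 4))
      have h6 : (1 : ℝ) / (sb / 4) * (1 / (sb / 4)) = 16 / sb ^ 2 := by
        field_simp
        norm_num
      rw [h6]
      calc _ ≤ K * (16 / sb ^ 2) := mul_le_mul_of_nonneg_right h5 (by positivity)
        _ = _ := by ring
    have hd : HasDerivAt (fun s => rhod sb s * Real.exp (c * s))
        (deriv (deriv Real.smoothTransition) ((s - 5 * sb / 8) / (sb / 4)) * (1 / (sb / 4))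
        * (1 / (sb / 4)) * Real.exp (c * s) + rhod sb s * (Real.exp (c * s) * (c * 1))) s :=
      (rhod_hasDeriv sb s).mul ((hasDerivAt_id s).const_mul c).exp
    rw [hd.deriv]
    have hep := Real.exp_pos (c * s)
    have he1 := Real.exp_pos 1
    constructor
    · rw [abs_mul, abs_of_pos hep]
      calc _ ≤ 4 * K / sb ^ 2 * Real.exp 1 := mul_le_mul e2 e1 hep.le (by positivity)
        _ ≤ 20 * K * Real.exp 1 / sb ^ 2 := by
          have : 20 * K * Real.exp 1 / sb ^ 2 - 4 * K / sb ^ 2 * Real.exp 1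
              = 16 * K * Real.exp 1 / sb ^ 2 := by ring
          have h7 : 0 ≤ 16 * K * Real.exp 1 / sb ^ 2 := by positivity
          linarith
    · refine (abs_add_le _ _).trans ?_
      rw [abs_mul _ (Real.exp (c * s)), abs_mul (rhod sb s), abs_mul (Real.exp (c * s)),
        abs_of_pos hep, mul_one, abs_of_nonneg h3]
      have h8 : Real.exp (c * s) * c ≤ Real.exp 1 := by nlinarith
      calc _ ≤ 16 * K / sb ^ 2 * Real.exp 1 + 4 * K / sb ^ 2 * Real.exp 1 :=
            add_le_add (mul_le_mul e3 e1 hep.le (by positivity))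
              (mul_le_mul e2 h8 (by positivity) (by positivity))
        _ = _ := by ring

/-! ### integrability -/

lemma intF {Ω : Set E3} {w F : E3 → ℝ} {f : ℝ → ℝ} {a b : ℝ} (hΩ : MeasurableSet Ω)
    (hw : Measurable w) (hf : Continuous f) (h0 : ∀ s, s < a ∨ b < s → f s = 0)
    (hF : IntegrableOn F (Ω ∩ {x | a ≤ w x ∧ w x ≤ b})) :
    IntegrableOn (fun x => f (w x) * F x) Ω := by
  obtain ⟨C, hC⟩ := hf.bounded_above_of_compact_support (cpt_of h0)
  have h1 : IntegrableOn (fun x => f (w x) * F x) (Ω ∩ {x | a ≤ w x ∧ w x ≤ b}) :=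
    Integrable.bdd_mul (c := C) hF (hf.measurable.comp hw).aestronglyMeasurable
      (Filter.Eventually.of_forall fun x => hC _)
  refine h1.of_forall_sdiff_eq_zero hΩ fun x hx => ?_
  have h2 : ¬ (a ≤ w x ∧ w x ≤ b) := fun h => hx.2 ⟨hx.1, h⟩
  rw [not_and_or, not_le, not_le] at h2
  rw [h0 _ h2, zero_mul]

/-! ### the two identities -/

variable {Ω : Set E3} {vol w X Φ D S : E3 → ℝ} {sM B₁ B₂ : ℝ}

lemma beta_sh_zero (hβ : IsBump β) (s : ℝ) (hs : s < s₂ + 1 / 4 ∨ s₂ + 3 / 4 < s) :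
    β (s - s₂) = 0 := by
  rcases hs with h | h
  · exact hβ.supp _ (Or.inl (by linarith))
  · exact hβ.supp _ (Or.inr (by linarith))

lemma pk_zero (s : ℝ) (hs : s < s₂ + L ∨ s₂ + L + 1 < s) :
    ps ε s₂ β s * deriv kap (s - s₂ - L + 1) = 0 := by
  rcases hs with h | h
  · rw [deriv_kap_left (by linarith), mul_zero]
  · rw [deriv_kap_right (by linarith), mul_zero]

lemma stepA (hε : 0 < ε) (hε1 : ε ≤ 1 / 2) (hβ : IsBump β) (hL : 1 ≤ L)
    (H : Abs ε Ω vol w X Φ D S sb s₂ sM B₁ B₂) (h1 : 0 < sb) (h2 : sb < s₂)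
    (h3 : s₂ + L + 1 < sM) {K : ℝ} (hK : 0 ≤ K) (hkap : ∀ s, |deriv kap s| ≤ K) :
    ∫ x in Ω, β (w x - s₂) * X x ^ 3 * vol x
      ≤ (2 - ε) * (∫ x in Ω, pb ε s₂ L β (w x) * Φ x * vol x)
        + ε * (K * (ε⁻¹ * Real.exp (3 / (4 * ε)) * Real.exp (-(L / ε)))) * B₁ := by
  have hx := H.xid (pb ε s₂ L β) (pb_C1 hε hβ)
    (cpt_of (a := s₂ + 1 / 4) (b := s₂ + L + 1) (by
      rintro s (hs | hs)
      · exact pb_left hβ hs.le
      · exact pb_right hs.le))
    ((tsupport_le (a := s₂ + 1 / 4) (b := s₂ + L + 1) (by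
      rintro s (hs | hs)
      · exact pb_left hβ hs.le
      · exact pb_right hs.le)).trans (Set.Icc_subset_Ioo (by linarith) h3))
  have i1 : IntegrableOn (fun x => β (w x - s₂) * (X x ^ 3 * vol x)) Ω :=
    intF (f := fun s => β (s - s₂)) H.measOmega H.meas_w
      ((beta_cont hβ).comp (continuous_id.sub continuous_const))
      (fun s hs => beta_sh_zero hβ s hs)
      (H.int_X (s₂ + 1 / 4) (s₂ + 3 / 4) (by linarith) (by linarith) (by linarith))
  have hpk : Continuous fun s => ps ε s₂ β s * deriv kap (s - s₂ - L + 1) := by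
    have h4 := ps_cont (s₂ := s₂) hε hβ
    have h5 := continuous_deriv_kap
    fun_prop
  have i2 : IntegrableOn (fun x => ps ε s₂ β (w x) * deriv kap (w x - s₂ - L + 1)
      * (X x ^ 3 * vol x)) Ω :=
    intF (f := fun s => ps ε s₂ β s * deriv kap (s - s₂ - L + 1)) H.measOmega H.meas_w hpk
      (fun s hs => pk_zero s hs)
      (H.int_X (s₂ + L) (s₂ + L + 1) (by linarith) (by linarith) (by linarith))
  have e1 : ∫ x in Ω, (pb ε s₂ L β (w x) + ε * deriv (pb ε s₂ L β) (w x)) * X x ^ 3 * vol x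
      = (∫ x in Ω, β (w x - s₂) * (X x ^ 3 * vol x))
        + ε * ∫ x in Ω, ps ε s₂ β (w x) * deriv kap (w x - s₂ - L + 1) * (X x ^ 3 * vol x) := by
    rw [← integral_const_mul, ← integral_add i1 (i2.const_mul ε)]
    refine integral_congr_ae (Filter.Eventually.of_forall fun x => ?_)
    have h4 := pb_key (s₂ := s₂) hε hβ hL (w x)
    rw [← (pb_hasDeriv (s₂ := s₂) (L := L) hε hβ (w x)).deriv] at h4
    show (pb ε s₂ L β (w x) + ε * deriv (pb ε s₂ L β) (w x)) * X x ^ 3 * vol x = _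
    rw [h4]
    ring
  rw [e1] at hx
  have hc : (0 : ℝ) < 2 - ε := by linarith
  have e2 : ∫ x in Ω, β (w x - s₂) * X x ^ 3 * vol x
      = ∫ x in Ω, β (w x - s₂) * (X x ^ 3 * vol x) := by
    simp_rw [mul_assoc]
  rw [e2]
  have hx' : (2 - ε) * (∫ x in Ω, pb ε s₂ L β (w x) * Φ x * vol x)
      = (∫ x in Ω, β (w x - s₂) * (X x ^ 3 * vol x))
        + ε * ∫ x in Ω, ps ε s₂ β (w x) * deriv kap (w x - s₂ - L + 1) * (X x ^ 3 * vol x) := by
    rw [hx]
    field_simp
  -- the remainder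
  set E := ε⁻¹ * Real.exp (3 / (4 * ε)) * Real.exp (-(L / ε)) with hE
  have hE0 : 0 ≤ E := by positivity
  set W : Set E3 := {x | s₂ + L < w x ∧ w x < s₂ + L + 1} with hW
  have hWm : MeasurableSet W :=
    (measurableSet_lt measurable_const H.meas_w).inter (measurableSet_lt H.meas_w measurable_const)
  have i3 : IntegrableOn (fun x => X x ^ 3 * vol x) (Ω ∩ W) :=
    (H.int_X (s₂ + L) (s₂ + L + 1) (by linarith) (by linarith) (by linarith)).mono_set
      (fun x hx => ⟨hx.1, hx.2.1.le, hx.2.2.le⟩)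
  have hrem : -(K * E * B₁) ≤ ∫ x in Ω, ps ε s₂ β (w x) * deriv kap (w x - s₂ - L + 1)
      * (X x ^ 3 * vol x) := by
    have h5 : ∫ x in Ω, W.indicator (fun x => -(K * E) * (X x ^ 3 * vol x)) x
        ≤ ∫ x in Ω, ps ε s₂ β (w x) * deriv kap (w x - s₂ - L + 1) * (X x ^ 3 * vol x) := by
      refine integral_mono ?_ i2 fun x => ?_
      · have i4 : IntegrableOn (fun x => -(K * E) * (X x ^ 3 * vol x)) (Ω ∩ W) := i3.const_mul _
        rw [integrable_indicator_iff hWm, IntegrableOn, Measure.restrict_restrict hWm,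
          Set.inter_comm]
        exact i4
      · show W.indicator (fun x => -(K * E) * (X x ^ 3 * vol x)) x
          ≤ ps ε s₂ β (w x) * deriv kap (w x - s₂ - L + 1) * (X x ^ 3 * vol x)
        have hXv : 0 ≤ X x ^ 3 * vol x := mul_nonneg (pow_nonneg (H.X_nonneg x) 3) (H.vol_nonneg x)
        by_cases hx : x ∈ W
        · rw [Set.indicator_of_mem hx]
          refine mul_le_mul_of_nonneg_right ?_ hXv
          have h6 := ps_le (s₂ := s₂) hε hβ (by linarith : (0:ℝ) ≤ L) hx.1.le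
          have h7 := ps_nonneg (s₂ := s₂) hε hβ (w x)
          have h8 := hkap (w x - s₂ - L + 1)
          rw [← hE] at h6
          have h9 : |ps ε s₂ β (w x) * deriv kap (w x - s₂ - L + 1)| ≤ K * E := by
            rw [abs_mul, abs_of_nonneg h7, mul_comm K E]
            exact mul_le_mul h6 h8 (abs_nonneg _) hE0
          exact (abs_le.mp h9).1
        · rw [Set.indicator_of_notMem hx]
          have h6 : ¬ (s₂ + L < w x ∧ w x < s₂ + L + 1) := hx
          rw [not_and_or, not_lt, not_lt] at h6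
          have h7 : deriv kap (w x - s₂ - L + 1) = 0 := by
            rcases h6 with h | h
            · exact deriv_kap_left (by linarith)
            · exact deriv_kap_right (by linarith)
          rw [h7]
          simp
    rw [setIntegral_indicator hWm, integral_const_mul] at h5
    have h6 := H.window (s₂ + L) (by linarith) (by linarith)
    have h7 : 0 ≤ K * E := mul_nonneg hK hE0
    have h8 := mul_le_mul_of_nonneg_left h6 h7
    have h9 : K * E * ∫ x in Ω ∩ W, X x ^ 3 * vol x ≤ K * E * B₁ := h8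
    linarith
  have h10 := mul_le_mul_of_nonneg_left hrem hε.le
  linarith

lemma stepB (hε : 0 < ε) (hε1 : ε ≤ 1 / 2) (hβ : IsBump β) (hL : 1 ≤ L)
    (H : Abs ε Ω vol w X Φ D S sb s₂ sM B₁ B₂) (h1 : 0 < sb) (h1' : sb ≤ 1) (h2 : sb < s₂)
    (h3 : s₂ + L + 1 < sM) (hB₂ : 0 ≤ B₂) {K N : ℝ}
    (hr : ∀ sb c : ℝ, 0 < sb → sb ≤ 1 → 0 ≤ c → c ≤ 1 → ∀ s : ℝ,
      |rhod sb s * Real.exp (c * s)| ≤ K / sb ^ 2 ∧
      |deriv (fun s => rhod sb s * Real.exp (c * s)) s| ≤ K / sb ^ 2)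
    (hN : (∫ x in Ω ∩ {x | sb / 2 < w x ∧ w x < s₂ + L + 1},
          Real.exp (w x / (2 - ε)) * max (-S x) 0 * vol x) ≤ N) :
    ∫ x in Ω, pb ε s₂ L β (w x) * Φ x * vol x
      ≤ 4 * Real.pi * (2 - ε) + MB ε s₂ L (1 / (2 - ε)) β * (B₂ * (K / sb ^ 2) + N) := by
  set c : ℝ := 1 / (2 - ε) with hc
  have h2ε : (0 : ℝ) < 2 - ε := by linarith
  have hc0 : 0 < c := by positivity
  have hc1 : c ≤ 1 := by
    rw [hc, div_le_one h2ε]
    linarith
  have hM := MB_nonneg (s₂ := s₂) (L := L) (c := c) hε hβ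
  have hz : ∀ s, s < 5 * sb / 8 ∨ s₂ + L + 1 < s → et ε s₂ L c sb β s = 0 := by
    rintro s (hs | hs)
    · exact et_left h1 hs.le
    · exact et_right hε hβ hs.le
  have hmi := H.mi (et ε s₂ L c sb β) (et_C1 hε hβ h1 h2) (fun s => et_nonneg hε hβ s)
    (cpt_of hz) ((tsupport_le hz).trans (Set.Icc_subset_Ioo (by linarith) h3))
  have hd : ∀ s, deriv (et ε s₂ L c sb β) s = etd ε s₂ L c sb β s := fun s =>
    (et_hasDeriv hε hβ h1 h2 s).deriv
  have hz1 : ∀ s, s < 5 * sb / 8 ∨ 7 * sb / 8 < s → rhod sb s * Real.exp (c * s) = 0 := by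
    rintro s (hs | hs)
    · rw [rhod_left h1 hs.le, zero_mul]
    · rw [rhod_right h1 hs.le, zero_mul]
  have hin := H.inner (fun s => rhod sb s * Real.exp (c * s)) (K / sb ^ 2) (rhod_exp_C1 sb c)
    (cpt_of hz1) ((tsupport_le hz1).trans (Set.Icc_subset_Ioo (by linarith) (by linarith)))
    (fun s => hr sb c h1 h1' hc0.le hc1 s)
  have j1 : IntegrableOn (fun x => rhod sb (w x) * Real.exp (c * w x) * (Φ x * vol x)) Ω :=
    intF (f := fun s => rhod sb s * Real.exp (c * s)) H.measOmega H.meas_w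
      (rhod_exp_C1 sb c).continuous hz1
      (H.int_Phi (5 * sb / 8) (7 * sb / 8) (by linarith) (by linarith) (by linarith))
  have j2 : IntegrableOn (fun x => pb ε s₂ L β (w x) * (Φ x * vol x)) Ω :=
    intF H.measOmega H.meas_w (pb_cont hε hβ) (a := s₂ + 1 / 4) (b := s₂ + L + 1) (by
      rintro s (hs | hs)
      · exact pb_left hβ hs.le
      · exact pb_right hs.le)
      (H.int_Phi _ _ (by linarith) (by linarith) h3)
  have j3 : IntegrableOn (fun x => et ε s₂ L c sb β (w x) * (Φ x * vol x)) Ω :=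
    intF H.measOmega H.meas_w (et_cont hε hβ h1 h2) hz
      (H.int_Phi _ _ (by linarith) (by linarith) h3)
  have j4 : IntegrableOn (fun x => et ε s₂ L c sb β (w x) * (S x * vol x)) Ω :=
    intF H.measOmega H.meas_w (et_cont hε hβ h1 h2) hz
      (H.int_S _ _ (by linarith) (by linarith) h3)
  have j5 : IntegrableOn (fun x => et ε s₂ L c sb β (w x) * (D x * vol x)) Ω :=
    intF H.measOmega H.meas_w (et_cont hε hβ h1 h2) hz
      (H.int_D _ _ (by linarith) (by linarith) h3)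
  have e1 : ∫ x in Ω, deriv (et ε s₂ L c sb β) (w x) * Φ x * vol x
      = MB ε s₂ L c β * (∫ x in Ω, rhod sb (w x) * Real.exp (c * w x) * (Φ x * vol x))
        - (∫ x in Ω, pb ε s₂ L β (w x) * (Φ x * vol x))
        + c * ∫ x in Ω, et ε s₂ L c sb β (w x) * (Φ x * vol x) := by
    have j12 : IntegrableOn (fun x => MB ε s₂ L c β
        * (rhod sb (w x) * Real.exp (c * w x) * (Φ x * vol x))
        - pb ε s₂ L β (w x) * (Φ x * vol x)) Ω := (j1.const_mul _).sub j2
    have j33 : IntegrableOn (fun x => c * (et ε s₂ L c sb β (w x) * (Φ x * vol x))) Ω :=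
      j3.const_mul _
    rw [← integral_const_mul, ← integral_const_mul, ← integral_sub (j1.const_mul _) j2,
      ← integral_add j12 j33]
    refine integral_congr_ae (Filter.Eventually.of_forall fun x => ?_)
    show deriv (et ε s₂ L c sb β) (w x) * Φ x * vol x = _
    rw [hd]
    unfold etd
    ring
  have e2 : ∫ x in Ω, et ε s₂ L c sb β (w x) * Φ x * vol x
      = ∫ x in Ω, et ε s₂ L c sb β (w x) * (Φ x * vol x) := by
    simp_rw [mul_assoc]
  have e3 : ∫ x in Ω, pb ε s₂ L β (w x) * Φ x * vol x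
      = ∫ x in Ω, pb ε s₂ L β (w x) * (Φ x * vol x) := by
    simp_rw [mul_assoc]
  have e4 : ∫ x in Ω, rhod sb (w x) * Real.exp (c * w x) * Φ x * vol x
      = ∫ x in Ω, rhod sb (w x) * Real.exp (c * w x) * (Φ x * vol x) := by
    simp_rw [mul_assoc]
  have hin' : |∫ x in Ω, rhod sb (w x) * Real.exp (c * w x) * (Φ x * vol x)|
      ≤ B₂ * (K / sb ^ 2) := by
    rw [← e4]
    exact hin
  rw [e1, e2] at hmi
  rw [e3]
  -- the integral of the test function
  have h4 : ∫ s, et ε s₂ L c sb β s ≤ 2 - ε := by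
    have h5 := et_integral (L := L) hε hβ hL hc0 h1 h2
    rw [hc, ← hc, mul_comm, ← le_div_iff₀ hc0] at h5
    rw [hc] at h5 ⊢
    rwa [one_div_one_div] at h5
  -- the part with S and D
  have hT : 0 ≤ s₂ + L + 1 := by linarith
  set W : Set E3 := {x | sb / 2 < w x ∧ w x < s₂ + L + 1} with hW
  have hWm : MeasurableSet W :=
    (measurableSet_lt measurable_const H.meas_w).inter (measurableSet_lt H.meas_w measurable_const)
  have j6 : IntegrableOn (fun x => Real.exp (w x / (2 - ε)) * max (-S x) 0 * vol x) (Ω ∩ W) := by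
    have j7 : IntegrableOn (fun x => S x * vol x) (Ω ∩ W) :=
      (H.int_S (sb / 2) (s₂ + L + 1) (by linarith) (by linarith) h3).mono_set
        (fun x hx => ⟨hx.1, hx.2.1.le, hx.2.2.le⟩)
    have j8 : IntegrableOn (fun x => max (-(S x * vol x)) 0) (Ω ∩ W) := j7.neg.pos_part
    have j9 : IntegrableOn (fun x => Real.exp (w x / (2 - ε)) * max (-(S x * vol x)) 0)
        (Ω ∩ W) := by
      refine Integrable.bdd_mul (c := Real.exp ((s₂ + L + 1) / (2 - ε))) j8
        (Real.measurable_exp.comp (H.meas_w.div_const _)).aestronglyMeasurable ?_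
      filter_upwards [self_mem_ae_restrict (H.measOmega.inter hWm)] with x hx
      rw [Real.norm_eq_abs, abs_of_pos (Real.exp_pos _)]
      exact Real.exp_le_exp.mpr (div_le_div_of_nonneg_right hx.2.2.le h2ε.le)
    refine j9.congr (Filter.Eventually.of_forall fun x => ?_)
    show Real.exp (w x / (2 - ε)) * max (-(S x * vol x)) 0
      = Real.exp (w x / (2 - ε)) * max (-S x) 0 * vol x
    rw [mul_assoc, max_mul_of_nonneg _ _ (H.vol_nonneg x), zero_mul, neg_mul]
  have h5 : -(∫ x in Ω, et ε s₂ L c sb β (w x) * (S x + D x) * vol x)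
      ≤ MB ε s₂ L c β * N := by
    have h6 : ∫ x in Ω, -(et ε s₂ L c sb β (w x) * (S x + D x) * vol x)
        ≤ ∫ x in Ω, W.indicator (fun x => MB ε s₂ L c β
          * (Real.exp (w x / (2 - ε)) * max (-S x) 0 * vol x)) x := by
      refine integral_mono_ae ?_ ?_ ?_
      · refine (j4.add j5).neg.congr (Filter.Eventually.of_forall fun x => ?_)
        show -(et ε s₂ L c sb β (w x) * (S x * vol x) + et ε s₂ L c sb β (w x) * (D x * vol x))
          = -(et ε s₂ L c sb β (w x) * (S x + D x) * vol x)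
        ring
      · have i4 : IntegrableOn (fun x => MB ε s₂ L c β
          * (Real.exp (w x / (2 - ε)) * max (-S x) 0 * vol x)) (Ω ∩ W) := j6.const_mul _
        rw [integrable_indicator_iff hWm, IntegrableOn, Measure.restrict_restrict hWm,
          Set.inter_comm]
        exact i4
      · filter_upwards [H.D_nonneg] with x hx
        have hv := H.vol_nonneg x
        have he := et_nonneg (s₂ := s₂) (L := L) (c := c) (sb := sb) hε hβ (w x)
        by_cases hxW : x ∈ W
        · rw [Set.indicator_of_mem hxW]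
          have h7 := et_le (s₂ := s₂) (L := L) (c := c) (sb := sb) hε hβ (w x)
          have h8 : c * w x = w x / (2 - ε) := by
            rw [hc]
            ring
          rw [h8] at h7
          have h9 : -(S x + D x) ≤ max (-S x) 0 := by
            have := le_max_left (-S x) 0
            linarith
          have h10 : 0 ≤ max (-S x) 0 := le_max_right _ _
          calc -(et ε s₂ L c sb β (w x) * (S x + D x) * vol x)
              = et ε s₂ L c sb β (w x) * (-(S x + D x)) * vol x := by ring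
            _ ≤ et ε s₂ L c sb β (w x) * max (-S x) 0 * vol x :=
                mul_le_mul_of_nonneg_right (mul_le_mul_of_nonneg_left h9 he) hv
            _ ≤ MB ε s₂ L c β * Real.exp (w x / (2 - ε)) * max (-S x) 0 * vol x :=
                mul_le_mul_of_nonneg_right (mul_le_mul_of_nonneg_right h7 h10) hv
            _ = _ := by ring
        · rw [Set.indicator_of_notMem hxW]
          have h6 : ¬ (sb / 2 < w x ∧ w x < s₂ + L + 1) := hxW
          rw [not_and_or, not_lt, not_lt] at h6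
          have h7 : et ε s₂ L c sb β (w x) = 0 := by
            rcases h6 with h | h
            · exact et_left h1 (by linarith)
            · exact et_right hε hβ h
          rw [h7]
          simp
    rw [setIntegral_indicator hWm, integral_const_mul, integral_neg] at h6
    exact h6.trans (mul_le_mul_of_nonneg_left hN hM)
  have h6 := (abs_le.mp hin').2
  have h7 := mul_le_mul_of_nonneg_left h6 hM
  have h8 := mul_le_mul_of_nonneg_left h4 (show (0 : ℝ) ≤ 4 * Real.pi by positivity)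
  have h9 : MB ε s₂ L c β * (B₂ * (K / sb ^ 2) + N)
      = MB ε s₂ L c β * (B₂ * (K / sb ^ 2)) + MB ε s₂ L c β * N := by ring
  rw [h9]
  linarith

end

end TSTB

open TSTB in
/-- **TSTB**: the test function for the upper bound of the cubic integral. -/
theorem TSTB : Stmt_TSTB := by
  intro ε β hε hε1 hβ
  obtain ⟨K, hK, hkap⟩ := kap_bound
  obtain ⟨K', hK', hr⟩ := rhod_bound
  have h2ε : (0 : ℝ) < 2 - ε := by linarith
  set C₁ : ℝ := ε * (K * (ε⁻¹ * Real.exp (3 / (4 * ε)))) with hC₁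
  have hC₁0 : 0 ≤ C₁ := by positivity
  refine ⟨2 * (K' + 1) + C₁, by positivity, ?_⟩
  intro Ω vol w X Φ D S sb s₂ sM B₁ B₂ H h1 h1' h2 hB₁ hB₂ L N hL h3 hN
  have hA := stepA hε hε1 hβ hL H h1 h2 h3 hK hkap
  have hB := stepB hε hε1 hβ hL H h1 h1' h2 h3 hB₂ hr hN
  have hM0 := MB_nonneg (s₂ := s₂) (L := L) (c := 1 / (2 - ε)) hε hβ
  have hM := MB_le (s₂ := s₂) (L := L) (c := 1 / (2 - ε)) hε hβ hL (by positivity)
  have e1 : -(1 / (2 - ε) * s₂) = -(s₂ / (2 - ε)) := by ring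
  rw [e1] at hM
  have hN0 : 0 ≤ N := by
    refine le_trans (integral_nonneg fun x => ?_) hN
    exact mul_nonneg (mul_nonneg (Real.exp_pos _).le (le_max_right _ _)) (H.vol_nonneg x)
  have hB2 : 0 ≤ B₂ / sb ^ 2 := by positivity
  set Q := Real.exp (-(s₂ / (2 - ε))) with hQ
  have hQ0 : 0 < Q := Real.exp_pos _
  have e2 : B₂ * (K' / sb ^ 2) + N ≤ (K' + 1) * (N + B₂ / sb ^ 2) := by
    have : B₂ * (K' / sb ^ 2) = K' * (B₂ / sb ^ 2) := by ring
    rw [this]
    nlinarith [mul_nonneg hK' hN0]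
  have e3 : 0 ≤ B₂ * (K' / sb ^ 2) + N := by positivity
  have h4 : MB ε s₂ L (1 / (2 - ε)) β * (B₂ * (K' / sb ^ 2) + N)
      ≤ Q * ((K' + 1) * (N + B₂ / sb ^ 2)) := mul_le_mul hM e2 e3 hQ0.le
  have h5 : (2 - ε) * (∫ x in Ω, pb ε s₂ L β (w x) * Φ x * vol x)
      ≤ (2 - ε) * (4 * Real.pi * (2 - ε) + Q * ((K' + 1) * (N + B₂ / sb ^ 2))) :=
    mul_le_mul_of_nonneg_left (by linarith) h2ε.le
  have h6 : 0 ≤ Q * ((K' + 1) * (N + B₂ / sb ^ 2)) := by positivity
  have h7 : (2 - ε) * (Q * ((K' + 1) * (N + B₂ / sb ^ 2)))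
      ≤ 2 * (Q * ((K' + 1) * (N + B₂ / sb ^ 2))) := by nlinarith
  have h8 : 0 ≤ C₁ * (Q * (N + B₂ / sb ^ 2)) := by positivity
  have h9 : 0 ≤ 2 * (K' + 1) * (Real.exp (-(L / ε)) * B₁) := by positivity
  have e4 : ε * (K * (ε⁻¹ * Real.exp (3 / (4 * ε)) * Real.exp (-(L / ε)))) * B₁
      = C₁ * (Real.exp (-(L / ε)) * B₁) := by
    rw [hC₁]
    ring
  rw [e4] at hA
  have e5 : (2 * (K' + 1) + C₁) * (Q * (N + B₂ / sb ^ 2) + Real.exp (-(L / ε)) * B₁)
      = 2 * (Q * ((K' + 1) * (N + B₂ / sb ^ 2))) + C₁ * (Q * (N + B₂ / sb ^ 2))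
        + 2 * (K' + 1) * (Real.exp (-(L / ε)) * B₁) + C₁ * (Real.exp (-(L / ε)) * B₁) := by ring
  rw [e5]
  linarith

end

end Pool.Agent.PFlow


end
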