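import Mathlib
import Pool.Agent.PFlow.StmtsM
import Pool.Agent.PenroseM.C03
import Pool.Agent.PenroseM.C05
import Pool.Agent.PenroseM.C06

/-! Parts: PFlow.P.API2, PFlow.P.Cutoff, PFlow.P.WH, PFlow.P.Chain, PFlow.P.WeakL, PFlow.M_ZD, PFlow.E.HATB -/

section

/-!
# Block P, module API2: products, translations, integration by parts in `H1`
-/

open MeasureTheory Filter Topology Set
open scoped ContDiff RealInnerProductSpace ENNReal

namespace Pool.Agent.PFlow.PB

open Pool.Agent.PenroseSph Pool.Agent.PFlow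

theorem sqv_sum (G : E3 → E3) (hG : MemLp G 2) : sqv G = ∑ i, sq (fun x => G x i) := by
  unfold sqv sq
  rw [← integral_finsetSum]
  · congr 1
    ext x
    exact norm_sq_eq (G x)
  · intro i _
    have := int_sq _ (memLp_comp G hG i)
    simpa [Real.norm_eq_abs, sq_abs] using this

theorem memLp_of_comp (G : E3 → E3) (h : ∀ i, MemLp (fun x => G x i) 2) : MemLp G 2 := by
  have e : G = fun x => ∑ i, G x i • ee i := by
    ext1 x
    exact sum_ee (G x)
  rw [e]
  refine memLp_finsetSum _ fun i _ => ?_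
  have hb : MemLp (fun x => (ContinuousLinearMap.toSpanSingleton ℝ (ee i)) (G x i)) 2 :=
    (ContinuousLinearMap.toSpanSingleton ℝ (ee i)).comp_memLp' (h i)
  simpa using hb

theorem tend_of_comp (G : E3 → E3) (Gn : ℕ → E3 → E3) (hG : MemLp G 2)
    (hn : ∀ n, MemLp (Gn n) 2)
    (h : ∀ i, Tendsto (fun n => sq (fun x => Gn n x i - G x i)) atTop (𝓝 0)) :
    Tendsto (fun n => sqv (fun x => Gn n x - G x)) atTop (𝓝 0) := by
  have e : ∀ n, sqv (fun x => Gn n x - G x) = ∑ i, sq (fun x => Gn n x i - G x i) := by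
    intro n
    have := sqv_sum (fun x => Gn n x - G x) ((hn n).sub hG)
    rw [this]
    rfl
  simp only [e]
  have := tendsto_finsetSum Finset.univ fun i _ => h i
  simpa using this

theorem wgrad_C1 (φ : E3 → ℝ) (h : ContDiff ℝ 1 φ) : WGrad φ (gr φ) := by
  intro ψ hψ i
  exact ibp_C1 φ ψ h hψ.one hψ.cpt i

theorem a2_ofC1 (hm : MOLL) (φ : E3 → ℝ) (h : ContDiff ℝ 1 φ) (hc : HasCompactSupport φ) :
    H1 φ (gr φ) := by
  obtain ⟨J, hJ⟩ := hm
  have hφ : MemLp φ 2 := h.continuous.memLp_of_hasCompactSupport hc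
  have hg := gr_memLp φ h hc
  have ht : ∀ n, Test (J n φ) := fun n => ⟨hJ.smooth n φ hφ, hJ.cpt n φ hφ hc⟩
  refine ⟨hφ, hg, fun n => J n φ, ht, hJ.tend φ hφ, ?_⟩
  refine tend_of_comp (gr φ) (fun n => gr (J n φ)) hg
    (fun n => gr_memLp _ (ht n).one (ht n).cpt) fun i => ?_
  have h2 := hJ.tend (fun y => gr φ y i) (memLp_comp _ hg i)
  refine h2.congr fun n => ?_
  congr 1
  ext x
  rw [hJ.grad φ (gr φ) hφ hg (wgrad_C1 φ h) n x i]

theorem gr_mul (ζ φ : E3 → ℝ) (x : E3) (h : DifferentiableAt ℝ ζ x)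
    (h' : DifferentiableAt ℝ φ x) :
    gr (fun x => ζ x * φ x) x = ζ x • gr φ x + φ x • gr ζ x := by
  ext i
  simp [gr_apply, pd_eq, fderiv_fun_mul h h']

theorem sq_mul_le (ζ f : E3 → ℝ) (C : ℝ) (hf : MemLp f 2) (hζ : ∀ x, |ζ x| ≤ C) :
    sq (fun x => ζ x * f x) ≤ C ^ 2 * sq f := by
  unfold sq
  rw [← integral_const_mul]
  refine integral_mono_of_nonneg (Eventually.of_forall fun x => by positivity) ?_
    (Eventually.of_forall fun x => ?_)
  · have := (int_sq f hf).const_mul (C ^ 2)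
    simpa [Real.norm_eq_abs, sq_abs] using this
  · show (ζ x * f x) ^ 2 ≤ C ^ 2 * f x ^ 2
    rw [mul_pow]
    have := hζ x
    have h2 : ζ x ^ 2 ≤ C ^ 2 := by
      rw [← sq_abs (ζ x)]
      have := abs_nonneg (ζ x)
      gcongr
    gcongr

theorem sqv_smul_le (ζ : E3 → ℝ) (F : E3 → E3) (C : ℝ) (hf : MemLp F 2) (hζ : ∀ x, |ζ x| ≤ C) :
    sqv (fun x => ζ x • F x) ≤ C ^ 2 * sqv F := by
  unfold sqv
  rw [← integral_const_mul]
  refine integral_mono_of_nonneg (Eventually.of_forall fun x => by positivity)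
    ((int_sq F hf).const_mul (C ^ 2)) (Eventually.of_forall fun x => ?_)
  show ‖ζ x • F x‖ ^ 2 ≤ C ^ 2 * ‖F x‖ ^ 2
  rw [norm_smul, mul_pow, Real.norm_eq_abs]
  have h1 := hζ x
  have := abs_nonneg (ζ x)
  gcongr

theorem sqv_smul_le' (f : E3 → ℝ) (Z : E3 → E3) (C : ℝ) (hf : MemLp f 2) (hZ : ∀ x, ‖Z x‖ ≤ C) :
    sqv (fun x => f x • Z x) ≤ C ^ 2 * sq f := by
  unfold sqv sq
  rw [← integral_const_mul]
  refine integral_mono_of_nonneg (Eventually.of_forall fun x => by positivity) ?_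
    (Eventually.of_forall fun x => ?_)
  · have := (int_sq f hf).const_mul (C ^ 2)
    simpa [Real.norm_eq_abs, sq_abs] using this
  · show ‖f x • Z x‖ ^ 2 ≤ C ^ 2 * f x ^ 2
    rw [norm_smul, mul_pow, Real.norm_eq_abs, sq_abs, mul_comm]
    have := norm_nonneg (Z x)
    gcongr
    exact hZ x

theorem memLp_mul_bdd (ζ f : E3 → ℝ) (C : ℝ) (hf : MemLp f 2) (hc : Continuous ζ)
    (hζ : ∀ x, |ζ x| ≤ C) : MemLp (fun x => ζ x * f x) 2 := by
  refine hf.of_le_mul (c := C) (hc.aestronglyMeasurable.mul hf.1)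
    (Eventually.of_forall fun x => ?_)
  rw [norm_mul]
  exact mul_le_mul_of_nonneg_right (hζ x) (norm_nonneg _)

theorem memLp_smul_bdd (ζ : E3 → ℝ) (F : E3 → E3) (C : ℝ) (hf : MemLp F 2) (hc : Continuous ζ)
    (hζ : ∀ x, |ζ x| ≤ C) : MemLp (fun x => ζ x • F x) 2 := by
  refine hf.of_le_mul (c := C) (hc.aestronglyMeasurable.smul hf.1)
    (Eventually.of_forall fun x => ?_)
  rw [norm_smul]
  exact mul_le_mul_of_nonneg_right (hζ x) (norm_nonneg _)

theorem memLp_smul_bdd' (f : E3 → ℝ) (Z : E3 → E3) (C : ℝ) (hf : MemLp f 2) (hc : Continuous Z)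
    (hZ : ∀ x, ‖Z x‖ ≤ C) : MemLp (fun x => f x • Z x) 2 := by
  refine hf.of_le_mul (c := C) (hf.1.smul hc.aestronglyMeasurable)
    (Eventually.of_forall fun x => ?_)
  rw [norm_smul, mul_comm]
  exact mul_le_mul_of_nonneg_right (hZ x) (norm_nonneg _)

theorem a2_mul (hm : MOLL) (f : E3 → ℝ) (G : E3 → E3) (ζ : E3 → ℝ) (C : ℝ) (h : H1 f G)
    (hζ : ContDiff ℝ 1 ζ) (h1 : ∀ x, |ζ x| ≤ C) (h2 : ∀ x, ‖gr ζ x‖ ≤ C) :
    H1 (fun x => ζ x * f x) (fun x => ζ x • G x + f x • gr ζ x) := by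
  obtain ⟨φ, a1, a2, a3⟩ := h.approx
  have hζc := hζ.continuous
  have hgc := gr_cont ζ hζ
  refine a1_closed _ _ (fun n x => ζ x * φ n x) (fun n x => ζ x • gr (φ n) x + φ n x • gr ζ x)
    (fun n => ?_) (memLp_mul_bdd ζ f C h.memf hζc h1)
    ((memLp_smul_bdd ζ G C h.memG hζc h1).add (memLp_smul_bdd' f _ C h.memf hgc h2)) ?_ ?_
  · have := a2_ofC1 hm (fun x => ζ x * φ n x) (hζ.mul (a1 n).one) (a1 n).cpt.mul_left
    have e : gr (fun x => ζ x * φ n x) = fun x => ζ x • gr (φ n) x + φ n x • gr ζ x := by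
      ext1 x
      exact gr_mul ζ (φ n) x (hζ.differentiable (by norm_num) x) ((a1 n).diff x)
    rwa [e] at this
  · have h3 := a2.const_mul (C ^ 2)
    rw [mul_zero] at h3
    refine squeeze_zero (fun n => sq_nonneg' _) (fun n => ?_) h3
    have := sq_mul_le ζ (fun x => φ n x - f x) C ((test_memLp _ (a1 n)).sub h.memf) h1
    refine le_trans (le_of_eq ?_) this
    congr 1
    ext x
    ring
  · have hgm := fun n => gr_memLp _ (a1 n).one (a1 n).cpt
    have hfm := fun n => test_memLp _ (a1 n)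
    refine tend_add_sqv (fun x => ζ x • G x) (fun x => f x • gr ζ x)
      (fun n x => ζ x • gr (φ n) x) (fun n x => φ n x • gr ζ x)
      (memLp_smul_bdd ζ G C h.memG hζc h1) (memLp_smul_bdd' f _ C h.memf hgc h2)
      (fun n => memLp_smul_bdd ζ _ C (hgm n) hζc h1)
      (fun n => memLp_smul_bdd' _ _ C (hfm n) hgc h2) ?_ ?_
    · have h3 := a3.const_mul (C ^ 2)
      rw [mul_zero] at h3
      refine squeeze_zero (fun n => sqv_nonneg' _) (fun n => ?_) h3
      have := sqv_smul_le ζ (fun x => gr (φ n) x - G x) C ((hgm n).sub h.memG) h1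
      refine le_trans (le_of_eq ?_) this
      congr 1
      ext1 x
      rw [smul_sub]
    · have h3 := a2.const_mul (C ^ 2)
      rw [mul_zero] at h3
      refine squeeze_zero (fun n => sqv_nonneg' _) (fun n => ?_) h3
      have := sqv_smul_le' (fun x => φ n x - f x) (gr ζ) C ((hfm n).sub h.memf) h2
      refine le_trans (le_of_eq ?_) this
      congr 1
      ext1 x
      rw [sub_smul]

theorem sq_shift (f : E3 → ℝ) (h : E3) : sq (fun x => f (x + h)) = sq f :=
  integral_add_right_eq_self (fun x => f x ^ 2) h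

theorem sqv_shift (G : E3 → E3) (h : E3) : sqv (fun x => G (x + h)) = sqv G :=
  integral_add_right_eq_self (fun x => ‖G x‖ ^ 2) h

theorem memLp_shift {F : Type*} [NormedAddCommGroup F] (f : E3 → F) (hf : MemLp f 2) (h : E3) :
    MemLp (fun x => f (x + h)) 2 :=
  hf.comp_measurePreserving (measurePreserving_add_right volume h)

theorem gr_shift (φ : E3 → ℝ) (h x : E3) : gr (fun x => φ (x + h)) x = gr φ (x + h) := by
  ext i
  rw [gr_apply, gr_apply, pd_eq, pd_eq, fderiv_comp_add_right]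

theorem Test.shift {φ : E3 → ℝ} (hφ : Test φ) (h : E3) : Test (fun x => φ (x + h)) :=
  ⟨hφ.smooth.comp (contDiff_id.add contDiff_const),
    hφ.cpt.comp_homeomorph (Homeomorph.addRight h)⟩

theorem a2_shift (f : E3 → ℝ) (G : E3 → E3) (hf : H1 f G) (h : E3) :
    H1 (fun x => f (x + h)) (fun x => G (x + h)) := by
  obtain ⟨φ, a1, a2, a3⟩ := hf.approx
  refine ⟨memLp_shift f hf.memf h, memLp_shift G hf.memG h, fun n x => φ n (x + h),
    fun n => (a1 n).shift h, ?_, ?_⟩
  · refine a2.congr fun n => ?_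
    exact (sq_shift (fun x => φ n x - f x) h).symm
  · refine a3.congr fun n => ?_
    have := (sqv_shift (fun x => gr (φ n) x - G x) h).symm
    rw [this]
    congr 1
    ext1 x
    rw [gr_shift]

theorem test_trans (φ : E3 → ℝ) (hφ : Test φ) (h : E3) :
    sq (fun x => φ (x + h) - φ x) ≤ ‖h‖ ^ 2 * sqv (gr φ) := by
  have hd : ∀ x t, HasDerivAt (fun t : ℝ => φ (x + t • h)) (fderiv ℝ φ (x + t • h) h) t := by
    intro x t
    have h1 : HasFDerivAt φ (fderiv ℝ φ (x + t • h)) (x + t • h) := (hφ.diff _).hasFDerivAt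
    have h2 : HasDerivAt (fun t : ℝ => x + t • h) h t := by
      simpa using ((hasDerivAt_id t).smul_const h).const_add x
    exact h1.comp_hasDerivAt t h2
  have hcf : Continuous (fun p : E3 × ℝ => ‖gr φ (p.1 + p.2 • h)‖ ^ 2) := by
    have := gr_cont φ hφ.one
    fun_prop
  -- pointwise bound
  have hp : ∀ x, (φ (x + h) - φ x) ^ 2
      ≤ ‖h‖ ^ 2 * ∫ t in Icc (0 : ℝ) 1, ‖gr φ (x + t • h)‖ ^ 2 := by
    intro x
    have hc1 : Continuous (fun t : ℝ => fderiv ℝ φ (x + t • h) h) := by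
      have := hφ.one.continuous_fderiv (by norm_num)
      fun_prop
    have e1 : φ (x + h) - φ x = ∫ t in (0 : ℝ)..1, fderiv ℝ φ (x + t • h) h := by
      rw [intervalIntegral.integral_eq_sub_of_hasDerivAt (fun t _ => hd x t)
        (hc1.intervalIntegrable _ _)]
      simp
    have e2 : (∫ t in (0 : ℝ)..1, fderiv ℝ φ (x + t • h) h) ^ 2
        ≤ ∫ t in (0 : ℝ)..1, (fderiv ℝ φ (x + t • h) h) ^ 2 := by
      set m := ∫ t in (0 : ℝ)..1, fderiv ℝ φ (x + t • h) h with hm
      have h0 : 0 ≤ ∫ t in (0 : ℝ)..1, (fderiv ℝ φ (x + t • h) h - m) ^ 2 :=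
        intervalIntegral.integral_nonneg (by norm_num) fun t _ => by positivity
      have h1 : ∫ t in (0 : ℝ)..1, (fderiv ℝ φ (x + t • h) h - m) ^ 2
          = (∫ t in (0 : ℝ)..1, (fderiv ℝ φ (x + t • h) h) ^ 2) - 2 * m * m + m ^ 2 := by
        have e : (fun t : ℝ => (fderiv ℝ φ (x + t • h) h - m) ^ 2)
            = fun t : ℝ => ((fderiv ℝ φ (x + t • h) h) ^ 2
              - 2 * m * (fderiv ℝ φ (x + t • h) h)) + m ^ 2 := by
          ext t
          ring
        rw [e, intervalIntegral.integral_add, intervalIntegral.integral_sub,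
          intervalIntegral.integral_const_mul, ← hm]
        · simp
        · exact (hc1.pow 2).intervalIntegrable _ _
        · exact (continuous_const.mul hc1).intervalIntegrable _ _
        · exact ((hc1.pow 2).sub (continuous_const.mul hc1)).intervalIntegrable _ _
        · exact continuous_const.intervalIntegrable _ _
      nlinarith
    rw [e1]
    refine e2.trans ?_
    rw [← integral_const_mul, integral_Icc_eq_integral_Ioc,
      intervalIntegral.integral_of_le (by norm_num)]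
    refine setIntegral_mono ?_ ?_ fun t => ?_
    · exact ((hc1.pow 2).intervalIntegrable 0 1).1
    · have : Continuous (fun t : ℝ => ‖h‖ ^ 2 * ‖gr φ (x + t • h)‖ ^ 2) := by
        have := gr_cont φ hφ.one
        fun_prop
      exact (this.intervalIntegrable 0 1).1
    · show (fderiv ℝ φ (x + t • h) h) ^ 2 ≤ ‖h‖ ^ 2 * ‖gr φ (x + t • h)‖ ^ 2
      rw [← gr_inner, ← mul_pow, ← sq_abs]
      have := abs_real_inner_le_norm (gr φ (x + t • h)) h
      rw [mul_comm ‖h‖]
      gcongr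
  have hInt : Integrable (fun p : E3 × ℝ => ‖gr φ (p.1 + p.2 • h)‖ ^ 2)
      (volume.prod (volume.restrict (Icc (0 : ℝ) 1))) := by
    rw [integrable_prod_iff' hcf.aestronglyMeasurable]
    have hg : Integrable (fun x => ‖gr φ x‖ ^ 2) := int_sq _ (gr_memLp φ hφ.one hφ.cpt)
    constructor
    · refine Eventually.of_forall fun t => ?_
      exact hg.comp_add_right (t • h)
    · have : (fun t : ℝ => ∫ x : E3, ‖‖gr φ (x + t • h)‖ ^ 2‖) = fun _ => sqv (gr φ) := by
        ext t
        have := integral_add_right_eq_self (μ := (volume : Measure E3))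
          (fun x => ‖‖gr φ x‖ ^ 2‖) (t • h)
        rw [this]
        simp [sqv]
      rw [this]
      exact integrable_const _
  have hsw : ∫ x : E3, ∫ t in Icc (0 : ℝ) 1, ‖gr φ (x + t • h)‖ ^ 2 = sqv (gr φ) := by
    rw [integral_integral_swap hInt]
    have : (fun t : ℝ => ∫ x : E3, ‖gr φ (x + t • h)‖ ^ 2) = fun _ => sqv (gr φ) := by
      ext t
      exact integral_add_right_eq_self (μ := (volume : Measure E3)) (fun x => ‖gr φ x‖ ^ 2) (t • h)
    rw [this]
    simp
  calc sq (fun x => φ (x + h) - φ x)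
      ≤ ∫ x : E3, ‖h‖ ^ 2 * ∫ t in Icc (0 : ℝ) 1, ‖gr φ (x + t • h)‖ ^ 2 := by
        refine integral_mono ?_ (hInt.integral_prod_left.const_mul _) hp
        have hm : MemLp (fun x => φ (x + h) - φ x) 2 :=
          (test_memLp _ (hφ.shift h)).sub (test_memLp _ hφ)
        have := int_sq _ hm
        simpa [Real.norm_eq_abs, sq_abs] using this
    _ = ‖h‖ ^ 2 * sqv (gr φ) := by rw [integral_const_mul, hsw]

theorem sq_tendsto (f : E3 → ℝ) (fn : ℕ → E3 → ℝ) (hf : MemLp f 2) (hn : ∀ n, MemLp (fn n) 2)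
    (h : Tendsto (fun n => sq (fun x => fn n x - f x)) atTop (𝓝 0)) :
    Tendsto (fun n => sq (fn n)) atTop (𝓝 (sq f)) := by
  have h1 : Tendsto (fun n => √(sq (fn n))) atTop (𝓝 (√(sq f))) := by
    rw [tendsto_iff_norm_sub_tendsto_zero]
    refine squeeze_zero (fun n => norm_nonneg _) (fun n => ?_)
      (by simpa using (Real.continuous_sqrt.tendsto 0).comp h)
    rw [Real.norm_eq_abs, abs_le]
    have a1 := sq_add_le (fun x => fn n x - f x) f ((hn n).sub hf) hf
    have a2 := sq_add_le (fun x => f x - fn n x) (fn n) (hf.sub (hn n)) (hn n)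
    simp only [sub_add_cancel] at a1 a2
    rw [sq_sub_comm] at a2
    simp only [Function.comp]
    constructor <;> linarith
  have h2 := h1.pow 2
  rw [Real.sq_sqrt (sq_nonneg' f)] at h2
  exact h2.congr fun n => Real.sq_sqrt (sq_nonneg' _)

theorem sqv_tendsto (f : E3 → E3) (fn : ℕ → E3 → E3) (hf : MemLp f 2) (hn : ∀ n, MemLp (fn n) 2)
    (h : Tendsto (fun n => sqv (fun x => fn n x - f x)) atTop (𝓝 0)) :
    Tendsto (fun n => sqv (fn n)) atTop (𝓝 (sqv f)) := by
  have h1 : Tendsto (fun n => √(sqv (fn n))) atTop (𝓝 (√(sqv f))) := by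
    rw [tendsto_iff_norm_sub_tendsto_zero]
    refine squeeze_zero (fun n => norm_nonneg _) (fun n => ?_)
      (by simpa using (Real.continuous_sqrt.tendsto 0).comp h)
    rw [Real.norm_eq_abs, abs_le]
    have a1 := sqv_add_le (fun x => fn n x - f x) f ((hn n).sub hf) hf
    have a2 := sqv_add_le (fun x => f x - fn n x) (fn n) (hf.sub (hn n)) (hn n)
    simp only [sub_add_cancel] at a1 a2
    rw [sqv_sub_comm] at a2
    simp only [Function.comp]
    constructor <;> linarith
  have h2 := h1.pow 2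
  rw [Real.sq_sqrt (sqv_nonneg' f)] at h2
  exact h2.congr fun n => Real.sq_sqrt (sqv_nonneg' _)

theorem tend_sub_sq (f g : E3 → ℝ) (fn gn : ℕ → E3 → ℝ) (hf : MemLp f 2) (hg : MemLp g 2)
    (hfn : ∀ n, MemLp (fn n) 2) (hgn : ∀ n, MemLp (gn n) 2)
    (h1 : Tendsto (fun n => sq (fun x => fn n x - f x)) atTop (𝓝 0))
    (h2 : Tendsto (fun n => sq (fun x => gn n x - g x)) atTop (𝓝 0)) :
    Tendsto (fun n => sq (fun x => (fn n x - gn n x) - (f x - g x))) atTop (𝓝 0) := by
  have h3 : Tendsto (fun n => sq (fun x => (-gn n x) - (-g x))) atTop (𝓝 0) := by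
    refine h2.congr fun n => ?_
    unfold sq
    congr 1
    ext x
    ring
  have := tend_add_sq f (fun x => -g x) fn (fun n x => -gn n x) hf hg.neg hfn
    (fun n => (hgn n).neg) h1 h3
  refine this.congr fun n => ?_
  congr 1

theorem a2_trans (f : E3 → ℝ) (G : E3 → E3) (hf : H1 f G) (h : E3) :
    sq (fun x => f (x + h) - f x) ≤ ‖h‖ ^ 2 * sqv G := by
  obtain ⟨φ, a1, a2, a3⟩ := hf.approx
  have hfm := fun n => test_memLp _ (a1 n)
  have t1 : Tendsto (fun n => sq (fun x => φ n (x + h) - φ n x)) atTop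
      (𝓝 (sq (fun x => f (x + h) - f x))) := by
    refine sq_tendsto _ _ ((memLp_shift f hf.memf h).sub hf.memf)
      (fun n => (memLp_shift _ (hfm n) h).sub (hfm n)) ?_
    refine tend_sub_sq (fun x => f (x + h)) f (fun n x => φ n (x + h)) φ
      (memLp_shift f hf.memf h) hf.memf (fun n => memLp_shift _ (hfm n) h) hfm ?_ a2
    refine a2.congr fun n => ?_
    exact (sq_shift (fun x => φ n x - f x) h).symm
  have t2 : Tendsto (fun n => ‖h‖ ^ 2 * sqv (gr (φ n))) atTop (𝓝 (‖h‖ ^ 2 * sqv G)) :=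
    (sqv_tendsto G (fun n => gr (φ n)) hf.memG (fun n => gr_memLp _ (a1 n).one (a1 n).cpt)
      a3).const_mul _
  exact le_of_tendsto_of_tendsto' t1 t2 fun n => test_trans (φ n) (a1 n) h

theorem a2_ibp (f : E3 → ℝ) (F : E3 → E3) (g : E3 → ℝ) (G : E3 → E3) (hf : H1 f F) (hg : H1 g G)
    (i : Fin 3) : ∫ x, f x * G x i = - ∫ x, F x i * g x := by
  obtain ⟨φ, a1, a2, a3⟩ := hg.approx
  have hfm := fun n => test_memLp _ (a1 n)
  have hgm := fun n => gr_memLp _ (a1 n).one (a1 n).cpt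
  have t1 := tend_mul (fun x => G x i) f (fun n x => gr (φ n) x i) (memLp_comp G hg.memG i)
    (fun n => memLp_comp _ (hgm n) i) hf.memf (tend_comp G (fun n => gr (φ n)) hg.memG hgm a3 i)
  have t2 := tend_mul g (fun x => F x i) φ hg.memf hfm (memLp_comp F hf.memG i) a2
  have hw := a1_wgrad f F hf
  have e : ∀ n, ∫ x, gr (φ n) x i * f x = - ∫ x, φ n x * F x i := by
    intro n
    have := hw (φ n) (a1 n) i
    simp only [mul_comm (gr (φ n) _ i), mul_comm (φ n _)]
    exact this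
  have := tendsto_nhds_unique t1 (t2.neg.congr fun n => (e n).symm)
  simp only [mul_comm (f _), mul_comm (F _ i)]
  exact this

theorem dv_eq (X : E3 → E3) (x : E3) (h : DifferentiableAt ℝ X x) :
    dv X x = ∑ i, pd i (fun y => X y i) x := by
  unfold dv
  refine Finset.sum_congr rfl fun i _ => ?_
  have h1 : HasFDerivAt (fun y => X y i)
      ((EuclideanSpace.proj i : E3 →L[ℝ] ℝ).comp (fderiv ℝ X x)) x :=
    (EuclideanSpace.proj i : E3 →L[ℝ] ℝ).hasFDerivAt.comp x h.hasFDerivAt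
  rw [pd_eq, h1.fderiv]
  simp

theorem comp_C1 (X : E3 → E3) (hX : ContDiff ℝ 1 X) (i : Fin 3) :
    ContDiff ℝ 1 (fun y => X y i) :=
  (EuclideanSpace.proj i : E3 →L[ℝ] ℝ).contDiff.comp hX

theorem comp_cpt (X : E3 → E3) (hX : HasCompactSupport X) (i : Fin 3) :
    HasCompactSupport (fun y => X y i) := by
  refine hX.mono ?_
  intro x hx
  rw [Function.mem_support] at hx ⊢
  intro h0
  apply hx
  simp [h0]

theorem a2_ibpv (hm : MOLL) (X : E3 → E3) (hX : ContDiff ℝ 1 X) (hc : HasCompactSupport X)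
    (φ : E3 → ℝ) (Φ : E3 → E3) (h : H1 φ Φ) : ∫ x, ⟪X x, Φ x⟫ = - ∫ x, dv X x * φ x := by
  have hXi : ∀ i, H1 (fun y => X y i) (gr (fun y => X y i)) := fun i =>
    a2_ofC1 hm _ (comp_C1 X hX i) (comp_cpt X hc i)
  have e1 : ∀ x, ⟪X x, Φ x⟫ = ∑ i, X x i * Φ x i := by
    intro x
    rw [PiLp.inner_apply]
    refine Finset.sum_congr rfl fun i _ => ?_
    simp [mul_comm]
  have e2 : ∀ x, dv X x * φ x = ∑ i, gr (fun y => X y i) x i * φ x := by
    intro x
    rw [dv_eq X x (hX.differentiable (by norm_num) x), Finset.sum_mul]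
    rfl
  simp only [e1, e2]
  rw [integral_finsetSum _ fun i _ => int_mul _ _ (hXi i).memf (memLp_comp Φ h.memG i),
    integral_finsetSum _ fun i _ => int_mul _ _ (memLp_comp _ (hXi i).memG i) h.memf,
    ← Finset.sum_neg_distrib]
  exact Finset.sum_congr rfl fun i _ => a2_ibp _ _ φ Φ (hXi i) h i

theorem api2_thm (hm : MOLL) : API2 where
  ofC1 := a2_ofC1 hm
  mul := a2_mul hm
  shift := a2_shift
  trans := a2_trans
  ibp := a2_ibp
  ibpv := a2_ibpv hm

end Pool.Agent.PFlow.PB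


end

section

/-!
# Block P: cut-off functions `ζ(x/(n+1))`
-/

open MeasureTheory Filter Topology Set Metric
open scoped ContDiff RealInnerProductSpace ENNReal

namespace Pool.Agent.PFlow.PB

open Pool.Agent.PenroseSph Pool.Agent.PFlow

/-- the bump function: `1` on the unit ball, `0` outside the ball of radius `2` -/
noncomputable def cb : ContDiffBump (0 : E3) where
  rIn := 1
  rOut := 2
  rIn_pos := by norm_num
  rIn_lt_rOut := by norm_num

/-- the cut-off function at the scale `n + 1` -/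
noncomputable def zc (n : ℕ) (x : E3) : ℝ := cb (((n : ℝ) + 1)⁻¹ • x)

theorem cb_smooth : ContDiff ℝ ∞ (cb : E3 → ℝ) := cb.contDiff

theorem cb_cpt : HasCompactSupport (cb : E3 → ℝ) := cb.hasCompactSupport

theorem zc_smooth (n : ℕ) : ContDiff ℝ ∞ (zc n) := by
  unfold zc
  exact cb_smooth.comp (contDiff_const_smul _)

theorem zc_cpt (n : ℕ) : HasCompactSupport (zc n) := by
  have hn : ((n : ℝ) + 1)⁻¹ ≠ 0 := by positivity
  exact cb_cpt.comp_homeomorph (Homeomorph.smulOfNeZero _ hn)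

theorem zc_test (n : ℕ) : Test (zc n) := ⟨zc_smooth n, zc_cpt n⟩

theorem zc_nonneg (n : ℕ) (x : E3) : 0 ≤ zc n x := cb.nonneg

theorem zc_le_one (n : ℕ) (x : E3) : zc n x ≤ 1 := cb.le_one

theorem zc_one (n : ℕ) (x : E3) (h : ‖x‖ ≤ n + 1) : zc n x = 1 := by
  apply cb.one_of_mem_closedBall
  have : (0 : ℝ) < (n : ℝ) + 1 := by positivity
  rw [mem_closedBall_zero_iff, norm_smul, norm_inv, Real.norm_of_nonneg this.le,
    inv_mul_le_iff₀ this]
  show ‖x‖ ≤ ((n : ℝ) + 1) * 1
  linarith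

theorem pd_scale (f : E3 → ℝ) (a : ℝ) (x : E3) (i : Fin 3) (hf : DifferentiableAt ℝ f (a • x)) :
    pd i (fun y => f (a • y)) x = a * pd i f (a • x) := by
  rw [pd_eq, pd_eq]
  have h1 : HasFDerivAt f (fderiv ℝ f (a • x)) (a • x) := hf.hasFDerivAt
  have h2 : HasFDerivAt (fun y : E3 => a • y) (a • ContinuousLinearMap.id ℝ E3) x :=
    (hasFDerivAt_id x).const_smul a
  have h3 := (h1.comp x h2).fderiv
  have h4 : fderiv ℝ (fun y => f (a • y)) x
      = (fderiv ℝ f (a • x)).comp (a • ContinuousLinearMap.id ℝ E3) := h3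
  rw [h4]
  simp

theorem pd_C (f : E3 → ℝ) (hf : ContDiff ℝ ∞ f) (i : Fin 3) : ContDiff ℝ ∞ (pd i f) := by
  have h := hf.fderiv_right (m := ∞) (by exact_mod_cast le_top)
  exact h.clm_apply contDiff_const

theorem pd_zc (n : ℕ) (x : E3) (i : Fin 3) :
    pd i (zc n) x = ((n : ℝ) + 1)⁻¹ * pd i (cb : E3 → ℝ) (((n : ℝ) + 1)⁻¹ • x) :=
  pd_scale _ _ x i ((cb_smooth.differentiable (by simp)) _)

theorem gr_zc (n : ℕ) (x : E3) :
    gr (zc n) x = ((n : ℝ) + 1)⁻¹ • gr (cb : E3 → ℝ) (((n : ℝ) + 1)⁻¹ • x) := by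
  ext i
  simp [gr_apply, pd_zc]

theorem hs_zc (n : ℕ) (x : E3) (i : Fin 3) :
    hs (zc n) i x = (((n : ℝ) + 1)⁻¹) ^ 2 • hs (cb : E3 → ℝ) i (((n : ℝ) + 1)⁻¹ • x) := by
  have h1 : pd i (zc n) = fun x => ((n : ℝ) + 1)⁻¹ * pd i (cb : E3 → ℝ) (((n : ℝ) + 1)⁻¹ • x) := by
    ext x
    exact pd_zc n x i
  have hd : ∀ y, DifferentiableAt ℝ (pd i (cb : E3 → ℝ)) y :=
    fun y => (pd_C _ cb_smooth i).differentiable (by simp) y
  have hd1 : DifferentiableAt ℝ (fun y : E3 => ((n : ℝ) + 1)⁻¹ • y) x := by fun_prop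
  have hd2 : DifferentiableAt ℝ (fun y : E3 => pd i (cb : E3 → ℝ) (((n : ℝ) + 1)⁻¹ • y)) x :=
    DifferentiableAt.comp x (hd _) hd1
  ext j
  show pd j (pd i (zc n)) x = _
  rw [h1]
  have h2 : pd j (fun x => ((n : ℝ) + 1)⁻¹ * pd i (cb : E3 → ℝ) (((n : ℝ) + 1)⁻¹ • x)) x
      = ((n : ℝ) + 1)⁻¹ * pd j (fun x => pd i (cb : E3 → ℝ) (((n : ℝ) + 1)⁻¹ • x)) x := by
    rw [pd_eq, fderiv_const_mul hd2]
    rfl
  rw [h2, pd_scale _ _ x j (hd _)]
  simp only [PiLp.smul_apply, smul_eq_mul, hs, gr_apply]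
  generalize ((n : ℝ) + 1)⁻¹ = a
  ring

theorem exists_bound (F : E3 → E3) (hc : Continuous F) (hs : HasCompactSupport F) :
    ∃ C, 0 ≤ C ∧ ∀ x, ‖F x‖ ≤ C := by
  obtain ⟨C, hC⟩ := hs.exists_bound_of_continuous hc
  exact ⟨C, (norm_nonneg _).trans (hC 0), hC⟩

theorem hs_cont (f : E3 → ℝ) (hf : ContDiff ℝ ∞ f) (i : Fin 3) : Continuous (hs f i) :=
  gr_cont _ ((pd_C f hf i).of_le (by exact_mod_cast le_top))

theorem hs_cpt (f : E3 → ℝ) (hc : HasCompactSupport f) (i : Fin 3) : HasCompactSupport (hs f i) :=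
  gr_cpt _ (pd_cpt f hc i)

/-- bounds for the derivatives of the cut-off functions -/
theorem zc_bounds : ∃ C, 0 ≤ C ∧ (∀ n x, ‖gr (zc n) x‖ ≤ C * ((n : ℝ) + 1)⁻¹) ∧
    (∀ n i x, ‖hs (zc n) i x‖ ≤ C * ((n : ℝ) + 1)⁻¹) := by
  obtain ⟨C1, h10, h1⟩ := exists_bound (gr (cb : E3 → ℝ))
    (gr_cont _ (cb_smooth.of_le (by exact_mod_cast le_top))) (gr_cpt _ cb_cpt)
  have h2 : ∀ i, ∃ C, 0 ≤ C ∧ ∀ x, ‖hs (cb : E3 → ℝ) i x‖ ≤ C := fun i =>
    exists_bound _ (hs_cont _ cb_smooth i) (hs_cpt _ cb_cpt i)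
  choose C2 h20 h2 using h2
  refine ⟨C1 + ∑ i, C2 i, by have := Finset.sum_nonneg fun i (_ : i ∈ Finset.univ) => h20 i; positivity,
    fun n x => ?_, fun n i x => ?_⟩
  · rw [gr_zc, norm_smul, norm_inv, Real.norm_of_nonneg (by positivity), mul_comm]
    have := Finset.sum_nonneg fun i (_ : i ∈ Finset.univ) => h20 i
    have := h1 (((n : ℝ) + 1)⁻¹ • x)
    gcongr
    linarith
  · rw [hs_zc, norm_smul, norm_pow, norm_inv, Real.norm_of_nonneg (by positivity)]
    have h3 := h2 i (((n : ℝ) + 1)⁻¹ • x)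
    have h4 : C2 i ≤ ∑ i, C2 i := Finset.single_le_sum (fun j _ => h20 j) (Finset.mem_univ i)
    have h5 : ((n : ℝ) + 1)⁻¹ ≤ 1 := by
      rw [inv_le_one₀ (by positivity)]
      have : (0 : ℝ) ≤ n := Nat.cast_nonneg n
      linarith
    have h6 : (((n : ℝ) + 1)⁻¹) ^ 2 ≤ ((n : ℝ) + 1)⁻¹ := by
      have h0 : (0 : ℝ) ≤ ((n : ℝ) + 1)⁻¹ := by positivity
      nlinarith
    calc (((n : ℝ) + 1)⁻¹) ^ 2 * ‖hs (cb : E3 → ℝ) i (((n : ℝ) + 1)⁻¹ • x)‖
        ≤ ((n : ℝ) + 1)⁻¹ * (C1 + ∑ i, C2 i) := by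
          gcongr
          linarith
      _ = _ := mul_comm _ _

theorem inv_tend : Tendsto (fun n : ℕ => ((n : ℝ) + 1)⁻¹) atTop (𝓝 0) := by
  simpa using tendsto_one_div_add_atTop_nhds_zero_nat (𝕜 := ℝ)

/-- the cut-off of a function in `L²` converges -/
theorem zc_tend {F : Type*} [NormedAddCommGroup F] [NormedSpace ℝ F] (f : E3 → F)
    (hf : MemLp f 2) : Tendsto (fun n => ∫ x, ‖zc n x • f x - f x‖ ^ 2) atTop (𝓝 0) := by
  have h0 : (0 : ℝ) = ∫ _x : E3, (0 : ℝ) := by simp
  rw [h0]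
  refine tendsto_integral_of_dominated_convergence (fun x => ‖f x‖ ^ 2) (fun n => ?_)
    (int_sq f hf) (fun n => Eventually.of_forall fun x => ?_) (Eventually.of_forall fun x => ?_)
  · have : AEStronglyMeasurable (fun x => zc n x • f x - f x) volume :=
      ((zc_smooth n).continuous.aestronglyMeasurable.smul hf.1).sub hf.1
    exact this.norm.pow 2
  · have e : zc n x • f x - f x = (zc n x - 1) • f x := by rw [sub_smul, one_smul]
    rw [e, norm_smul, norm_pow, norm_mul, norm_norm, norm_norm, mul_pow]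
    have h1 : ‖zc n x - 1‖ ≤ 1 := by
      rw [Real.norm_eq_abs, abs_le]
      have := zc_nonneg n x
      have := zc_le_one n x
      constructor <;> linarith
    have h2 : ‖zc n x - 1‖ ^ 2 ≤ 1 := by
      have := norm_nonneg (zc n x - 1)
      nlinarith
    have h3 : 0 ≤ ‖f x‖ ^ 2 := by positivity
    nlinarith
  · have : ∀ᶠ n : ℕ in atTop, ‖zc n x • f x - f x‖ ^ 2 = 0 := by
      obtain ⟨N, hN⟩ := exists_nat_ge ‖x‖
      filter_upwards [eventually_ge_atTop N] with n hn
      have hn' : (N : ℝ) ≤ n := by exact_mod_cast hn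
      rw [zc_one n x (by linarith), one_smul, sub_self, norm_zero]
      norm_num
    exact tendsto_nhds_of_eventually_eq this

/-- products with functions tending to `0` uniformly -/
theorem small_tend (f : E3 → ℝ) (Z : ℕ → E3 → E3) (C : ℝ) (hf : MemLp f 2)
    (hZ : ∀ n x, ‖Z n x‖ ≤ C * ((n : ℝ) + 1)⁻¹) :
    Tendsto (fun n => sqv (fun x => f x • Z n x)) atTop (𝓝 0) := by
  have h : Tendsto (fun n : ℕ => (C * ((n : ℝ) + 1)⁻¹) ^ 2 * sq f) atTop (𝓝 0) := by
    have := ((inv_tend.const_mul C).pow 2).mul_const (sq f)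
    simpa using this
  exact squeeze_zero (fun n => sqv_nonneg' _)
    (fun n => sqv_smul_le' f (Z n) _ hf (hZ n)) h

theorem small_tend' (F : E3 → E3) (ζ : ℕ → E3 → ℝ) (C : ℝ) (hF : MemLp F 2)
    (hZ : ∀ n x, |ζ n x| ≤ C * ((n : ℝ) + 1)⁻¹) :
    Tendsto (fun n => sqv (fun x => ζ n x • F x)) atTop (𝓝 0) := by
  have h : Tendsto (fun n : ℕ => (C * ((n : ℝ) + 1)⁻¹) ^ 2 * sqv F) atTop (𝓝 0) := by
    have := ((inv_tend.const_mul C).pow 2).mul_const (sqv F)
    simpa using this
  exact squeeze_zero (fun n => sqv_nonneg' _)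
    (fun n => sqv_smul_le (ζ n) F _ hF (hZ n)) h

end Pool.Agent.PFlow.PB


end

section

/-!
# Block P, module WH: weak gradients in `L²`
-/

open MeasureTheory Filter Topology Set Metric
open scoped ContDiff RealInnerProductSpace ENNReal

namespace Pool.Agent.PFlow.PB

open Pool.Agent.PenroseSph Pool.Agent.PFlow

theorem tend_add_zero (fn gn : ℕ → E3 → E3) (hfn : ∀ n, MemLp (fn n) 2)
    (hgn : ∀ n, MemLp (gn n) 2) (h1 : Tendsto (fun n => sqv (fn n)) atTop (𝓝 0))
    (h2 : Tendsto (fun n => sqv (gn n)) atTop (𝓝 0)) :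
    Tendsto (fun n => sqv (fun x => fn n x + gn n x)) atTop (𝓝 0) := by
  have := tend_add_sqv (fun _ => 0) (fun _ => 0) fn gn MemLp.zero' MemLp.zero' hfn hgn
    (by simpa using h1) (by simpa using h2)
  simpa using this

theorem tend_add_zero' (fn gn : ℕ → E3 → ℝ) (hfn : ∀ n, MemLp (fn n) 2)
    (hgn : ∀ n, MemLp (gn n) 2) (h1 : Tendsto (fun n => sq (fn n)) atTop (𝓝 0))
    (h2 : Tendsto (fun n => sq (gn n)) atTop (𝓝 0)) :
    Tendsto (fun n => sq (fun x => fn n x + gn n x)) atTop (𝓝 0) := by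
  have := tend_add_sq (fun _ => 0) (fun _ => 0) fn gn MemLp.zero' MemLp.zero' hfn hgn
    (by simpa using h1) (by simpa using h2)
  simpa using this

/-- `C¹` functions in `L²` with gradient in `L²` belong to `H¹` -/
theorem C1_H1 (h2 : API2) (v : E3 → ℝ) (hv : ContDiff ℝ 1 v) (hm : MemLp v 2)
    (hg : MemLp (gr v) 2) : H1 v (gr v) := by
  obtain ⟨C, hC0, hC1, _⟩ := zc_bounds
  have hd := hv.differentiable (by norm_num)
  have hzd : ∀ n, Differentiable ℝ (zc n) := fun n => (zc_smooth n).differentiable (by simp)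
  have hz1 : ∀ n, ContDiff ℝ 1 (zc n) := fun n => (zc_smooth n).of_le (by exact_mod_cast le_top)
  have hgz : ∀ n x, ‖gr (zc n) x‖ ≤ C := by
    intro n x
    refine (hC1 n x).trans ?_
    have : ((n : ℝ) + 1)⁻¹ ≤ 1 := by
      rw [inv_le_one₀ (by positivity)]
      have : (0 : ℝ) ≤ n := Nat.cast_nonneg n
      linarith
    nlinarith
  have hza : ∀ n x, |zc n x| ≤ 1 := fun n x => by
    rw [abs_of_nonneg (zc_nonneg n x)]
    exact zc_le_one n x
  refine a1_closed v (gr v) (fun n x => zc n x * v x) (fun n => gr (fun x => zc n x * v x))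
    (fun n => h2.ofC1 _ ((hz1 n).mul hv) (zc_cpt n).mul_right) hm hg ?_ ?_
  · have := zc_tend v hm
    simp only [sq_eq]
    simpa using this
  · have e : ∀ n, sqv (fun x => gr (fun x => zc n x * v x) x - gr v x)
        = sqv (fun x => (zc n x • gr v x - gr v x) + v x • gr (zc n) x) := by
      intro n
      congr 1
      ext1 x
      rw [gr_mul _ _ x (hzd n x) (hd x)]
      abel
    simp only [e]
    refine tend_add_zero _ _ (fun n => ?_) (fun n => ?_) ?_ ?_
    · exact (memLp_smul_bdd (zc n) (gr v) 1 hg (zc_smooth n).continuous (hza n)).sub hg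
    · exact memLp_smul_bdd' v _ C hm (gr_cont _ (hz1 n)) (hgz n)
    · exact zc_tend (gr v) hg
    · exact small_tend v (fun n => gr (zc n)) C hm hC1

theorem wh_thm (_h1 : API1) (h2 : API2) (hm : MOLL) : WH := by
  obtain ⟨J, hJ⟩ := hm
  intro f G hf hG hw
  have hgr : ∀ n, gr (J n f) = fun x => WithLp.toLp 2 (fun i => J n (fun y => G y i) x) := by
    intro n
    ext x i
    exact hJ.grad f G hf hG hw n x i
  have hgm : ∀ n, MemLp (gr (J n f)) 2 := by
    intro n
    refine memLp_of_comp _ fun i => ?_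
    rw [hgr]
    exact hJ.mem n _ (memLp_comp G hG i)
  refine a1_closed f G (fun n => J n f) (fun n => gr (J n f)) (fun n => ?_) hf hG (hJ.tend f hf) ?_
  · exact C1_H1 h2 _ ((hJ.smooth n f hf).of_le (by exact_mod_cast le_top)) (hJ.mem n f hf) (hgm n)
  · refine tend_of_comp G (fun n => gr (J n f)) hG hgm fun i => ?_
    have := hJ.tend (fun y => G y i) (memLp_comp G hG i)
    refine this.congr fun n => ?_
    rw [hgr]

end Pool.Agent.PFlow.PB


end

section

/-!
# Block P, module CHAIN: the chain rule in `H¹`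
-/

open MeasureTheory Filter Topology Set Metric
open scoped ContDiff RealInnerProductSpace ENNReal

namespace Pool.Agent.PFlow.PB

open Pool.Agent.PenroseSph Pool.Agent.PFlow

/-- dominated convergence in `L²` -/
theorem dom_tend {F : Type*} [NormedAddCommGroup F] (Fn : ℕ → E3 → F) (g : E3 → ℝ)
    (hm : ∀ n, AEStronglyMeasurable (Fn n) volume) (hg : MemLp g 2)
    (hb : ∀ n, ∀ᵐ x, ‖Fn n x‖ ≤ g x) (ht : ∀ᵐ x, Tendsto (fun n => Fn n x) atTop (𝓝 0)) :
    Tendsto (fun n => ∫ x, ‖Fn n x‖ ^ 2) atTop (𝓝 0) := by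
  have h0 : (0 : ℝ) = ∫ _ : E3, (0 : ℝ) := by simp
  rw [h0]
  refine tendsto_integral_of_dominated_convergence (fun x => ‖g x‖ ^ 2)
    (fun n => (hm n).norm.pow 2) (int_sq g hg) (fun n => ?_) ?_
  · filter_upwards [hb n] with x hx
    rw [Real.norm_eq_abs, abs_of_nonneg (by positivity), Real.norm_eq_abs]
    have := norm_nonneg (Fn n x)
    have h2 := le_abs_self (g x)
    gcongr
    exact hx.trans h2
  · filter_upwards [ht] with x hx
    have := (hx.norm).pow 2
    simpa using this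

theorem lip_of_deriv (Ψ : ℝ → ℝ) (C : ℝ) (hΨ : ContDiff ℝ 1 Ψ) (hC : ∀ t, |deriv Ψ t| ≤ C)
    (s t : ℝ) : |Ψ s - Ψ t| ≤ C * |s - t| := by
  have h := Convex.norm_image_sub_le_of_norm_deriv_le (f := Ψ) (s := Set.univ) (C := C)
    (x := t) (y := s) (fun x _ => hΨ.differentiable (by norm_num) x) (fun x _ => hC x)
    convex_univ (mem_univ _) (mem_univ _)
  simpa [Real.norm_eq_abs] using h

theorem gr_comp (Ψ : ℝ → ℝ) (hΨ : ContDiff ℝ 1 Ψ) (φ : E3 → ℝ) (x : E3)
    (h : DifferentiableAt ℝ φ x) :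
    gr (fun x => Ψ (φ x)) x = deriv Ψ (φ x) • gr φ x := by
  ext i
  have h1 : HasDerivAt Ψ (deriv Ψ (φ x)) (φ x) := (hΨ.differentiable (by norm_num) _).hasDerivAt
  have h2 := h1.comp_hasFDerivAt x h.hasFDerivAt
  simp only [gr_apply, pd_eq, PiLp.smul_apply, smul_eq_mul]
  have h3 : fderiv ℝ (fun x => Ψ (φ x)) x = deriv Ψ (φ x) • fderiv ℝ φ x := h2.fderiv
  rw [h3]
  rfl

theorem exists_ae_sub (f : E3 → ℝ) (fn : ℕ → E3 → ℝ) (hf : MemLp f 2) (hn : ∀ n, MemLp (fn n) 2)
    (h : Tendsto (fun n => sq (fun x => fn n x - f x)) atTop (𝓝 0)) :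
    ∃ ns : ℕ → ℕ, StrictMono ns ∧ ∀ᵐ x, Tendsto (fun k => fn (ns k) x) atTop (𝓝 (f x)) := by
  simp only [sq_eq] at h
  rw [tend_iff f fn hf hn] at h
  have h2 := tendstoInMeasure_of_tendsto_eLpNorm (by norm_num) (fun n => (hn n).1) hf.1 h
  obtain ⟨ns, h3, h4⟩ := h2.exists_seq_tendsto_ae
  exact ⟨ns, h3, h4⟩

theorem chain_lip (h2 : API2) (f : E3 → ℝ) (G : E3 → E3) (Ψ : ℝ → ℝ) (C : ℝ) (h : H1 f G)
    (hΨ : ContDiff ℝ 1 Ψ) (h0 : Ψ 0 = 0) (hC : ∀ t, |deriv Ψ t| ≤ C) :
    H1 (fun x => Ψ (f x)) (fun x => deriv Ψ (f x) • G x) := by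
  have hC0 : 0 ≤ C := (abs_nonneg _).trans (hC 0)
  obtain ⟨φ', a1', a2', a3'⟩ := h.approx
  obtain ⟨ns, hs, hae⟩ := exists_ae_sub f φ' h.memf (fun n => test_memLp _ (a1' n)) a2'
  set φ : ℕ → E3 → ℝ := fun k => φ' (ns k) with hφ
  have a1 : ∀ n, Test (φ n) := fun n => a1' _
  have a2 : Tendsto (fun n => sq (fun x => φ n x - f x)) atTop (𝓝 0) := a2'.comp hs.tendsto_atTop
  have a3 : Tendsto (fun n => sqv (fun x => gr (φ n) x - G x)) atTop (𝓝 0) :=
    a3'.comp hs.tendsto_atTop
  have hcΨ : Continuous Ψ := hΨ.continuous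
  have hcd : Continuous (deriv Ψ) := hΨ.continuous_deriv (by norm_num)
  have hlip := lip_of_deriv Ψ C hΨ hC
  have hφm : ∀ n, MemLp (φ n) 2 := fun n => test_memLp _ (a1 n)
  have hgm : ∀ n, MemLp (gr (φ n)) 2 := fun n => gr_memLp _ (a1 n).one (a1 n).cpt
  -- membership
  have hm1 : MemLp (fun x => Ψ (f x)) 2 := by
    refine h.memf.of_le_mul (c := C) (hcΨ.comp_aestronglyMeasurable h.memf.1)
      (Eventually.of_forall fun x => ?_)
    have := hlip (f x) 0
    rw [h0, sub_zero, sub_zero] at this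
    exact this
  have hm2 : ∀ (g : E3 → ℝ) (F : E3 → E3), MemLp g 2 → MemLp F 2 →
      MemLp (fun x => deriv Ψ (g x) • F x) 2 := by
    intro g F hg hF
    refine hF.of_le_mul (c := C) ((hcd.comp_aestronglyMeasurable hg.1).smul hF.1)
      (Eventually.of_forall fun x => ?_)
    rw [norm_smul]
    exact mul_le_mul_of_nonneg_right (hC _) (norm_nonneg _)
  refine a1_closed _ _ (fun n x => Ψ (φ n x)) (fun n x => deriv Ψ (φ n x) • gr (φ n) x)
    (fun n => ?_) hm1 (hm2 f G h.memf h.memG) ?_ ?_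
  · have := h2.ofC1 (fun x => Ψ (φ n x)) (hΨ.comp (a1 n).one) ((a1 n).cpt.comp_left h0)
    have e : gr (fun x => Ψ (φ n x)) = fun x => deriv Ψ (φ n x) • gr (φ n) x := by
      ext1 x
      exact gr_comp Ψ hΨ (φ n) x ((a1 n).diff x)
    rwa [e] at this
  · have h3 := a2.const_mul (C ^ 2)
    rw [mul_zero] at h3
    refine squeeze_zero (fun n => sq_nonneg' _) (fun n => ?_) h3
    unfold sq
    rw [← integral_const_mul]
    refine integral_mono_of_nonneg (Eventually.of_forall fun x => by positivity) ?_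
      (Eventually.of_forall fun x => ?_)
    · have := (int_sq _ ((hφm n).sub h.memf)).const_mul (C ^ 2)
      simpa [Real.norm_eq_abs, sq_abs] using this
    · show (Ψ (φ n x) - Ψ (f x)) ^ 2 ≤ C ^ 2 * (φ n x - f x) ^ 2
      have h4 := hlip (φ n x) (f x)
      rw [← sq_abs, ← sq_abs (φ n x - f x), ← mul_pow]
      have := abs_nonneg (Ψ (φ n x) - Ψ (f x))
      gcongr
  · have e : ∀ n, sqv (fun x => deriv Ψ (φ n x) • gr (φ n) x - deriv Ψ (f x) • G x)
        = sqv (fun x => deriv Ψ (φ n x) • (gr (φ n) x - G x)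
          + (deriv Ψ (φ n x) - deriv Ψ (f x)) • G x) := by
      intro n
      congr 1
      ext1 x
      rw [smul_sub, sub_smul]
      abel
    simp only [e]
    have hm3 : ∀ n, MemLp (fun x => (deriv Ψ (φ n x) - deriv Ψ (f x)) • G x) 2 := by
      intro n
      have := (hm2 (φ n) G (hφm n) h.memG).sub (hm2 f G h.memf h.memG)
      refine this.congr_norm ?_ (Eventually.of_forall fun x => ?_) 
      · exact ((hcd.comp_aestronglyMeasurable (hφm n).1).sub
          (hcd.comp_aestronglyMeasurable h.memf.1)).smul h.memG.1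
      · simp only [Pi.sub_apply]
        rw [sub_smul]
    refine tend_add_zero _ _ (fun n => hm2 _ _ (hφm n) ((hgm n).sub h.memG)) hm3 ?_ ?_
    · have h3 := a3.const_mul (C ^ 2)
      rw [mul_zero] at h3
      refine squeeze_zero (fun n => sqv_nonneg' _) (fun n => ?_) h3
      unfold sqv
      rw [← integral_const_mul]
      refine integral_mono_of_nonneg (Eventually.of_forall fun x => by positivity)
        ((int_sq _ ((hgm n).sub h.memG)).const_mul (C ^ 2)) (Eventually.of_forall fun x => ?_)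
      show ‖deriv Ψ (φ n x) • (gr (φ n) x - G x)‖ ^ 2 ≤ C ^ 2 * ‖gr (φ n) x - G x‖ ^ 2
      rw [norm_smul, mul_pow, Real.norm_eq_abs]
      have h4 := hC (φ n x)
      have := abs_nonneg (deriv Ψ (φ n x))
      gcongr
    · refine dom_tend _ (fun x => (2 * C) * ‖G x‖) (fun n => (hm3 n).1)
        (h.memG.norm.const_mul _) (fun n => Eventually.of_forall fun x => ?_) ?_
      · rw [norm_smul, Real.norm_eq_abs]
        refine mul_le_mul_of_nonneg_right ?_ (norm_nonneg _)
        refine (abs_sub _ _).trans ?_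
        have := hC (φ n x)
        have := hC (f x)
        linarith
      · filter_upwards [hae] with x hx
        have h5 : Tendsto (fun n => deriv Ψ (φ n x) - deriv Ψ (f x)) atTop (𝓝 0) := by
          have := ((hcd.tendsto (f x)).comp hx).sub_const (deriv Ψ (f x))
          simpa using this
        simpa using h5.smul_const (G x)

theorem chain_bdd (h2 : API2) (f : E3 → ℝ) (G : E3 → E3) (Ψ : ℝ → ℝ) (T : ℝ) (h : H1 f G)
    (hT : ∀ᵐ x, |f x| ≤ T) (hΨ : ContDiff ℝ 1 Ψ) (h0 : Ψ 0 = 0) :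
    H1 (fun x => Ψ (f x)) (fun x => deriv Ψ (f x) • G x) := by
  set T' := max T 0 with hT'
  have hT0 : 0 ≤ T' := le_max_right _ _
  set cl : ℝ → ℝ := fun s => max (-T') (min T' s) with hcl
  have hclc : Continuous cl := continuous_const.max (continuous_const.min continuous_id)
  have hcl1 : ∀ s, cl s ∈ Icc (-T') T' := by
    intro s
    refine ⟨le_max_left _ _, max_le (by linarith) (min_le_left _ _)⟩
  have hcl2 : ∀ s, |s| ≤ T' → cl s = s := by
    intro s hs
    have := abs_le.1 hs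
    simp only [hcl]
    rw [min_eq_right this.2, max_eq_right this.1]
  have hcd : Continuous (deriv Ψ) := hΨ.continuous_deriv (by norm_num)
  have hdc : Continuous (fun s => deriv Ψ (cl s)) := hcd.comp hclc
  set Φ : ℝ → ℝ := fun t => ∫ s in (0:ℝ)..t, deriv Ψ (cl s) with hΦ
  have hder : ∀ t, HasDerivAt Φ (deriv Ψ (cl t)) t := fun t =>
    intervalIntegral.integral_hasDerivAt_right (hdc.intervalIntegrable _ _)
      (hdc.stronglyMeasurableAtFilter _ _) hdc.continuousAt
  have hderiv : deriv Φ = fun s => deriv Ψ (cl s) := by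
    ext t
    exact (hder t).deriv
  have hΦC : ContDiff ℝ 1 Φ := by
    rw [contDiff_one_iff_deriv]
    exact ⟨fun t => (hder t).differentiableAt, by rw [hderiv]; exact hdc⟩
  obtain ⟨C, hC⟩ := (isCompact_Icc (a := -T') (b := T')).exists_bound_of_continuousOn
    (f := deriv Ψ) hcd.continuousOn
  have h3 := chain_lip h2 f G Φ C h hΦC (by simp [hΦ])
    (fun t => by rw [hderiv]; exact hC _ (hcl1 t))
  have heq : ∀ t, |t| ≤ T' → Φ t = Ψ t := by
    intro t ht
    have h4 : Φ t = ∫ s in (0:ℝ)..t, deriv Ψ s := by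
      apply intervalIntegral.integral_congr
      intro s hs
      show deriv Ψ (cl s) = deriv Ψ s
      rw [hcl2]
      have : |s| ≤ |t| := by
        rcases le_total 0 t with h5 | h5
        · rw [uIcc_of_le h5] at hs
          rw [abs_of_nonneg hs.1, abs_of_nonneg h5]
          exact hs.2
        · rw [uIcc_of_ge h5] at hs
          rw [abs_of_nonpos hs.2, abs_of_nonpos h5]
          linarith [hs.1]
      exact this.trans ht
    rw [h4, intervalIntegral.integral_deriv_eq_sub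
      (fun s _ => hΨ.differentiable (by norm_num) s) (hcd.intervalIntegrable _ _), h0, sub_zero]
  refine a1_congr _ _ _ _ h3 ?_ ?_
  · filter_upwards [hT] with x hx
    exact heq _ (hx.trans (le_max_left _ _))
  · filter_upwards [hT] with x hx
    rw [hderiv]
    show deriv Ψ (cl (f x)) • G x = deriv Ψ (f x) • G x
    rw [hcl2 _ (hx.trans (le_max_left _ _))]

/-- `arctan (k t) / k` -/
noncomputable def at' (k : ℕ) (t : ℝ) : ℝ := ((k : ℝ) + 1)⁻¹ * Real.arctan (((k : ℝ) + 1) * t)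

theorem at_smooth (k : ℕ) : ContDiff ℝ 1 (at' k) := by
  unfold at'
  exact contDiff_const.mul (Real.contDiff_arctan.comp (contDiff_const.mul contDiff_id))

theorem at_deriv (k : ℕ) (t : ℝ) : deriv (at' k) t = 1 / (1 + (((k : ℝ) + 1) * t) ^ 2) := by
  have hk : ((k : ℝ) + 1) ≠ 0 := by positivity
  have h1 : HasDerivAt (fun t : ℝ => ((k : ℝ) + 1) * t) ((k : ℝ) + 1) t := by
    simpa using (hasDerivAt_id t).const_mul ((k : ℝ) + 1)
  have h2 := (h1.arctan).const_mul (((k : ℝ) + 1)⁻¹)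
  have h3 : deriv (at' k) t
      = ((k : ℝ) + 1)⁻¹ * (1 / (1 + (((k : ℝ) + 1) * t) ^ 2) * ((k : ℝ) + 1)) := h2.deriv
  rw [h3]
  field_simp

theorem at_deriv_le (k : ℕ) (t : ℝ) : |deriv (at' k) t| ≤ 1 := by
  rw [at_deriv, abs_of_nonneg (by positivity), div_le_one (by positivity)]
  have : 0 ≤ (((k : ℝ) + 1) * t) ^ 2 := by positivity
  linarith

theorem at_zero (k : ℕ) : at' k 0 = 0 := by simp [at']

theorem at_tend (t : ℝ) : Tendsto (fun k => at' k t) atTop (𝓝 0) := by
  have h1 : Tendsto (fun k : ℕ => ((k : ℝ) + 1)⁻¹ * (Real.pi / 2)) atTop (𝓝 0) := by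
    simpa using inv_tend.mul_const (Real.pi / 2)
  refine squeeze_zero_norm (fun k => ?_) h1
  rw [Real.norm_eq_abs, at', abs_mul, abs_of_nonneg (by positivity)]
  refine mul_le_mul_of_nonneg_left ?_ (by positivity)
  rw [abs_le]
  exact ⟨(Real.neg_pi_div_two_lt_arctan _).le, (Real.arctan_lt_pi_div_two _).le⟩

theorem at_deriv_tend (t : ℝ) (ht : t ≠ 0) : Tendsto (fun k => deriv (at' k) t) atTop (𝓝 0) := by
  simp only [at_deriv]
  have h1 : Tendsto (fun k : ℕ => ((k : ℝ) + 1)⁻¹ * (1 / |t|)) atTop (𝓝 0) := by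
    simpa using inv_tend.mul_const (1 / |t|)
  refine squeeze_zero (fun k => by positivity) (fun k => ?_) h1
  have ht' : 0 < |t| := abs_pos.2 ht
  have hk : (0 : ℝ) < (k : ℝ) + 1 := by positivity
  rw [← one_div, one_div_mul_one_div]
  apply one_div_le_one_div_of_le (by positivity)
  rw [← sq_abs, abs_mul, abs_of_pos hk]
  nlinarith [sq_nonneg (((k : ℝ) + 1) * |t| - 1)]

theorem chain_zero (h2 : API2) (f : E3 → ℝ) (G : E3 → E3) (h : H1 f G) :
    ∀ᵐ x, f x = 0 → G x = 0 := by
  classical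
  set P : E3 → E3 := fun x => if f x = 0 then G x else 0 with hP
  have hk : ∀ k, H1 (fun x => at' k (f x)) (fun x => deriv (at' k) (f x) • G x) := fun k =>
    chain_lip h2 f G (at' k) 1 h (at_smooth k) (at_zero k) (at_deriv_le k)
  have ht : ∀ x, Tendsto (fun k => deriv (at' k) (f x) • G x) atTop (𝓝 (P x)) := by
    intro x
    by_cases hx : f x = 0
    · have e : ∀ k, deriv (at' k) (f x) • G x = P x := by
        intro k
        rw [at_deriv, hx]
        simp [hP, hx]
      simp only [e]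
      exact tendsto_const_nhds
    · have := (at_deriv_tend (f x) hx).smul_const (G x)
      simpa [hP, hx] using this
  have hPm : AEStronglyMeasurable P volume :=
    aestronglyMeasurable_of_tendsto_ae atTop (fun k => (hk k).memG.1)
      (Eventually.of_forall ht)
  have hPL : MemLp P 2 := by
    refine h.memG.mono hPm (Eventually.of_forall fun x => ?_)
    by_cases hx : f x = 0
    · simp [hP, hx]
    · simp [hP, hx]
  have h0P : H1 (fun _ => 0) P := by
    refine a1_closed _ _ (fun k x => at' k (f x)) (fun k x => deriv (at' k) (f x) • G x)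
      hk MemLp.zero' hPL ?_ ?_
    · simp only [sub_zero, sq_eq]
      refine dom_tend _ (fun x => ‖f x‖) (fun k => (hk k).memf.1) h.memf.norm
        (fun k => Eventually.of_forall fun x => ?_) (Eventually.of_forall fun x => at_tend _)
      have := lip_of_deriv (at' k) 1 (at_smooth k) (at_deriv_le k) (f x) 0
      rw [at_zero, sub_zero, sub_zero, one_mul] at this
      exact this
    · refine dom_tend _ (fun x => ‖G x‖ + ‖G x‖) (fun k => ((hk k).memG.sub hPL).1)
        (h.memG.norm.add h.memG.norm) (fun k => Eventually.of_forall fun x => ?_)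
        (Eventually.of_forall fun x => ?_)
      · refine (norm_sub_le _ _).trans (add_le_add ?_ ?_)
        · rw [norm_smul, Real.norm_eq_abs]
          exact mul_le_of_le_one_left (norm_nonneg _) (at_deriv_le _ _)
        · by_cases hx : f x = 0
          · simp [hP, hx]
          · simp [hP, hx]
      · have := (ht x).sub_const (P x)
        simpa using this
  have h00 : H1 (fun _ => 0) (fun _ => (0 : E3)) := by
    have := a1_smul 0 f G h
    simpa using this
  filter_upwards [a1_unique _ _ _ h0P h00] with x hx hfx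
  simpa [hP, hfx] using hx

theorem chain_thm (_h1 : API1) (h2 : API2) : CHAIN where
  lip f G Ψ C h hΨ h0 hC := chain_lip h2 f G Ψ C h hΨ h0 hC
  bdd f G Ψ T h hT hΨ h0 := chain_bdd h2 f G Ψ T h hT hΨ h0
  zero f G h := chain_zero h2 f G h

end Pool.Agent.PFlow.PB


end

section

/-!
# WEAKL: weak compactness in `L²`
-/

open MeasureTheory Filter Topology Set
open scoped ContDiff RealInnerProductSpace

namespace Pool.Agent.PFlow.PB

open Pool.Agent.PenroseSph Pool.Agent.PFlow

namespace WeakL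

/-- A bounded sequence in a Hilbert space that converges weakly on a dense set converges weakly. -/
theorem hilbert {H : Type*} [NormedAddCommGroup H] [InnerProductSpace ℝ H] [CompleteSpace H]
    (u : ℕ → H) (c : ℝ) (hc : ∀ n, ‖u n‖ ≤ c) (D : Set H) (hD : Dense D)
    (hconv : ∀ d ∈ D, ∃ l : ℝ, Tendsto (fun n => ⟪u n, d⟫) atTop (𝓝 l)) :
    ∃ G : H, ‖G‖ ≤ c ∧ ∀ x, Tendsto (fun n => ⟪u n, x⟫) atTop (𝓝 ⟪G, x⟫) := by
  have hc0 : 0 ≤ c := (norm_nonneg _).trans (hc 0)
  have h1 : ∀ x, ∃ l : ℝ, Tendsto (fun n => ⟪u n, x⟫) atTop (𝓝 l) := by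
    intro x
    apply cauchySeq_tendsto_of_complete
    rw [Metric.cauchySeq_iff]
    intro ε hε
    obtain ⟨d, hd, hxd⟩ := hD.exists_dist_lt x (ε := ε / (4 * (c + 1))) (by positivity)
    obtain ⟨l, hl⟩ := hconv d hd
    obtain ⟨N, hN⟩ := Metric.cauchySeq_iff.1 hl.cauchySeq (ε / 2) (by positivity)
    refine ⟨N, fun m hm n hn => ?_⟩
    have h2 := hN m hm n hn
    rw [Real.dist_eq] at h2 ⊢
    have h3 : ∀ k, |⟪u k, x - d⟫| ≤ ε / 4 := by
      intro k
      refine (abs_real_inner_le_norm _ _).trans ?_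
      rw [dist_eq_norm] at hxd
      calc ‖u k‖ * ‖x - d‖ ≤ c * (ε / (4 * (c + 1))) :=
            mul_le_mul (hc k) hxd.le (norm_nonneg _) hc0
        _ ≤ ε / 4 := by
            have : c * (ε / (4 * (c + 1))) = ε / 4 * (c / (c + 1)) := by
              field_simp
            rw [this]
            have h4 : c / (c + 1) ≤ 1 := by
              rw [div_le_one (by positivity)]
              linarith
            nlinarith
    have h5 : ⟪u m, x⟫ - ⟪u n, x⟫ = (⟪u m, d⟫ - ⟪u n, d⟫) + (⟪u m, x - d⟫ - ⟪u n, x - d⟫) := by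
      rw [inner_sub_right, inner_sub_right]
      ring
    rw [h5]
    have h6 := h3 m
    have h7 := h3 n
    rw [abs_le] at h6 h7
    rw [abs_lt] at h2 ⊢
    constructor <;> linarith
  choose l hl using h1
  let L : H →ₗ[ℝ] ℝ :=
    { toFun := l
      map_add' := by
        intro x y
        refine tendsto_nhds_unique (hl (x + y)) ?_
        have := (hl x).add (hl y)
        refine this.congr fun n => ?_
        rw [inner_add_right]
      map_smul' := by
        intro a x
        refine tendsto_nhds_unique (hl (a • x)) ?_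
        have := (hl x).const_mul a
        refine this.congr fun n => ?_
        rw [inner_smul_right] }
  have hLb : ∀ x, ‖L x‖ ≤ c * ‖x‖ := by
    intro x
    have h2 : Tendsto (fun n => ‖⟪u n, x⟫‖) atTop (𝓝 ‖l x‖) := (hl x).norm
    refine le_of_tendsto h2 (Eventually.of_forall fun n => ?_)
    exact (norm_inner_le_norm _ _).trans (mul_le_mul_of_nonneg_right (hc n) (norm_nonneg _))
  let L' := L.mkContinuous c hLb
  refine ⟨(InnerProductSpace.toDual ℝ H).symm L', ?_, ?_⟩
  · rw [LinearIsometryEquiv.norm_map]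
    exact L.mkContinuous_norm_le hc0 hLb
  · intro x
    rw [InnerProductSpace.toDual_symm_apply]
    exact hl x

theorem inner_toLp {f g : E3 → ℝ} (hf : MemLp f 2) (hg : MemLp g 2) :
    ⟪hf.toLp, hg.toLp⟫ = ∫ x, g x * f x := by
  rw [L2.inner_def]
  refine integral_congr_ae ?_
  filter_upwards [hf.coeFn_toLp, hg.coeFn_toLp] with x h1 h2
  rw [h1, h2]
  simp

end WeakL

open WeakL in
theorem weakl_thm : WEAKL := by
  intro h C hmem hC htest
  have hC0 : 0 ≤ C := by
    refine le_trans ?_ (hC 0)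
    exact integral_nonneg fun x => sq_nonneg _
  have hnorm : ∀ n, ‖(hmem n).toLp‖ ≤ Real.sqrt C := by
    intro n
    apply Real.le_sqrt_of_sq_le
    rw [← real_inner_self_eq_norm_sq, inner_toLp]
    refine le_trans (le_of_eq ?_) (hC n)
    unfold sq
    refine integral_congr_ae (Eventually.of_forall fun x => ?_)
    change h n x * h n x = h n x ^ 2
    ring
  obtain ⟨G, hG, hlim⟩ := hilbert (fun n => (hmem n).toLp) (Real.sqrt C) hnorm
    {f : Lp ℝ 2 (volume : Measure E3) | ∃ g : E3 → ℝ, f =ᵐ[volume] g ∧ HasCompactSupport g ∧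
      ContDiff ℝ ∞ g} (Lp.dense_hasCompactSupport_contDiff (by simp)) (by
      rintro f ⟨ψ, hf, hψ, hψ'⟩
      obtain ⟨l, hl⟩ := htest ψ ⟨hψ', hψ⟩
      refine ⟨l, hl.congr fun n => ?_⟩
      have hm : MemLp ψ 2 := hψ'.continuous.memLp_of_hasCompactSupport hψ
      have hf' : f = hm.toLp := by
        apply Lp.ext
        exact hf.trans hm.coeFn_toLp.symm
      rw [hf', inner_toLp])
  refine ⟨G, Lp.memLp G, ?_, ?_⟩
  · have h1 : sq G = ‖G‖ ^ 2 := by
      rw [← real_inner_self_eq_norm_sq, L2.inner_def]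
      unfold sq
      refine integral_congr_ae (Eventually.of_forall fun x => ?_)
      simp
    rw [h1]
    calc ‖G‖ ^ 2 ≤ Real.sqrt C ^ 2 := by
          gcongr
      _ = C := Real.sq_sqrt hC0
  · intro ψ hψ
    have h1 := hlim hψ.toLp
    have h2 : ⟪G, hψ.toLp⟫ = ∫ x, ψ x * G x := by
      have h3 : G = (Lp.memLp G).toLp := (Lp.toLp_coeFn G (Lp.memLp G)).symm
      conv_lhs => rw [h3]
      rw [inner_toLp]
    rw [h2] at h1
    refine h1.congr fun n => ?_
    rw [inner_toLp]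

end Pool.Agent.PFlow.PB


end

section

/-!
# Module ZD: the fields `Y_d`, `Z_d` are `C¹` and have the divergences `Ddx`, `DZx`
-/

open MeasureTheory Filter Topology Asymptotics
open scoped ContDiff

namespace Pool.Agent.PFlow

open Pool.Agent.PenroseSph

namespace MZD

/-! ### `√Q q` is `C¹` -/

theorem sqrt_mul_C1 {U : Set E3} (hU : IsOpen U) (Q q b : E3 → ℝ)
    (hQ : ∀ x ∈ U, ContDiffAt ℝ ∞ Q x) (hq : ∀ x ∈ U, ContDiffAt ℝ ∞ q x)
    (hb : ∀ x ∈ U, ContinuousAt b x) (hQ0 : ∀ x ∈ U, 0 ≤ Q x)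
    (hqb : ∀ x ∈ U, q x ^ 2 ≤ b x * Q x) :
    ContDiffOn ℝ 1 (fun y => Real.sqrt (Q y) * q y) U := by
  have hq0 : ∀ x ∈ U, Q x = 0 → q x = 0 := by
    intro x hx h
    have := hqb x hx
    rw [h, mul_zero] at this
    nlinarith [sq_nonneg (q x)]
  have hfQ : ∀ x ∈ U, Q x = 0 → fderiv ℝ Q x = 0 := by
    intro x hx h
    apply IsLocalMin.fderiv_eq_zero
    filter_upwards [hU.mem_nhds hx] with y hy
    rw [h]
    exact hQ0 y hy
  have hb0 : ∀ x ∈ U, 0 ≤ b x ∨ Q x = 0 := by
    intro x hx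
    by_cases h : Q x = 0
    · right; exact h
    · left
      have h1 : 0 < Q x := lt_of_le_of_ne (hQ0 x hx) (Ne.symm h)
      have h2 := hqb x hx
      by_contra hneg
      push Not at hneg
      nlinarith [sq_nonneg (q x), mul_neg_of_neg_of_pos hneg h1]
  set D : E3 → (E3 →L[ℝ] ℝ) := fun y =>
    (q y / (2 * Real.sqrt (Q y))) • fderiv ℝ Q y + Real.sqrt (Q y) • fderiv ℝ q y with hD
  have hder : ∀ y ∈ U, HasFDerivAt (fun y => Real.sqrt (Q y) * q y) (D y) y := by
    intro y hy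
    have h1 : HasFDerivAt Q (fderiv ℝ Q y) y :=
      ((hQ y hy).differentiableAt (by simp)).hasFDerivAt
    have h2 : HasFDerivAt q (fderiv ℝ q y) y :=
      ((hq y hy).differentiableAt (by simp)).hasFDerivAt
    by_cases h : Q y = 0
    · have hD0 : D y = 0 := by
        rw [hD]
        simp [h]
      rw [hD0, hasFDerivAt_iff_isLittleO]
      have e : (fun z => Real.sqrt (Q z) * q z - Real.sqrt (Q y) * q y
          - (0 : E3 →L[ℝ] ℝ) (z - y)) = fun z => Real.sqrt (Q z) * (q z - q y) := by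
        funext z
        simp [h, hq0 y hy h]
      rw [e]
      have ho : (fun z => Real.sqrt (Q z)) =o[𝓝 y] (fun _ => (1 : ℝ)) := by
        rw [isLittleO_one_iff]
        have hc : ContinuousAt (fun z => Real.sqrt (Q z)) y :=
          (hQ y hy).continuousAt.sqrt
        have := hc.tendsto
        rwa [h, Real.sqrt_zero] at this
      have hO := h2.isBigO_sub
      have h3 := ho.mul_isBigO hO.norm_right
      refine h3.trans_isBigO ?_
      refine IsBigO.of_bound 1 (Eventually.of_forall fun z => ?_)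
      simp
    · have h3 := (h1.sqrt h).mul h2
      refine HasFDerivAt.congr_fderiv h3 ?_
      rw [hD]
      simp only
      rw [add_comm]
      congr 1
      rw [smul_smul]
      congr 1
      ring
  intro x hx
  refine ContDiffAt.contDiffWithinAt ?_
  rw [contDiffAt_one_iff]
  refine ⟨D, U, hU.mem_nhds hx, ?_, hder⟩
  intro y hy
  refine ContinuousAt.continuousWithinAt ?_
  have cQ : ContinuousAt Q y := (hQ y hy).continuousAt
  have cq : ContinuousAt q y := (hq y hy).continuousAt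
  have cfQ : ContinuousAt (fderiv ℝ Q) y :=
    ((hQ y hy).fderiv_right (m := 0) (by simp)).continuousAt
  have cfq : ContinuousAt (fderiv ℝ q) y :=
    ((hq y hy).fderiv_right (m := 0) (by simp)).continuousAt
  have cs : ContinuousAt (fun z => Real.sqrt (Q z)) y := cQ.sqrt
  refine ContinuousAt.add ?_ (cs.smul cfq)
  by_cases h : Q y = 0
  · have e : (q y / (2 * Real.sqrt (Q y))) • fderiv ℝ Q y = 0 := by
      rw [hfQ y hy h, smul_zero]
    rw [ContinuousAt, e]
    have hlim : Tendsto (fun z => (Real.sqrt (b z) / 2) * ‖fderiv ℝ Q z‖) (𝓝 y) (𝓝 0) := by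
      have h1 : Tendsto (fun z => (Real.sqrt (b z) / 2) * ‖fderiv ℝ Q z‖) (𝓝 y)
          (𝓝 ((Real.sqrt (b y) / 2) * ‖fderiv ℝ Q y‖)) :=
        ((hb y hy).sqrt.div_const 2).tendsto.mul cfQ.norm.tendsto
      rwa [hfQ y hy h, norm_zero, mul_zero] at h1
    refine squeeze_zero_norm' ?_ hlim
    filter_upwards [hU.mem_nhds hy] with z hz
    rw [norm_smul]
    refine mul_le_mul_of_nonneg_right ?_ (norm_nonneg _)
    by_cases hz0 : Q z = 0
    · rw [hz0]
      simp only [Real.sqrt_zero, mul_zero, div_zero, norm_zero]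
      positivity
    · have hpos : 0 < Q z := lt_of_le_of_ne (hQ0 z hz) (Ne.symm hz0)
      have hbz : 0 ≤ b z := (hb0 z hz).resolve_right hz0
      have hs : 0 < Real.sqrt (Q z) := Real.sqrt_pos.mpr hpos
      rw [Real.norm_eq_abs, abs_div, abs_of_pos (show (0 : ℝ) < 2 * Real.sqrt (Q z) by positivity),
        div_le_div_iff₀ (by positivity) (by norm_num)]
      have h4 : |q z| ≤ Real.sqrt (b z) * Real.sqrt (Q z) := by
        rw [← Real.sqrt_mul hbz]
        apply Real.abs_le_sqrt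
        exact hqb z hz
      nlinarith
  · have hs : (2 * Real.sqrt (Q y)) ≠ 0 := by
      have : 0 < Real.sqrt (Q y) :=
        Real.sqrt_pos.mpr (lt_of_le_of_ne (hQ0 y hy) (Ne.symm h))
      positivity
    exact (cq.div (continuousAt_const.mul cs) hs).smul cfQ

/-! ### Cauchy-Schwarz -/

theorem cs_aux (G : Bil) (hG : G.PosDef) (p : Cov) (j : Fin 3) :
    p j ^ 2 ≤ G j j * ev G⁻¹ p p := by
  set v : Cov := G⁻¹.mulVec p with hv
  have hGv : G.mulVec v = p := by
    rw [hv, Matrix.mulVec_mulVec, Matrix.mul_nonsing_inv G hG.det_pos.ne'.isUnit, Matrix.one_mulVec]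
  have hpos : 0 < G j j := hG.diag_pos
  have hs : G.IsSymm := by
    have := hG.isHermitian
    rw [Matrix.IsHermitian, Matrix.conjTranspose_eq_transpose_of_trivial] at this
    exact this
  have hq := hG.posSemidef.dotProduct_mulVec_nonneg (v - (p j / G j j) • Pi.single j (1 : ℝ))
  rw [star_trivial, Matrix.mulVec_sub, hGv, Matrix.mulVec_smul, sub_dotProduct, dotProduct_sub,
    dotProduct_sub, smul_dotProduct, smul_dotProduct, dotProduct_smul] at hq
  have e1 : v ⬝ᵥ p = ev G⁻¹ p p := by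
    rw [hv]
    unfold ev dotProduct Matrix.mulVec dotProduct
    refine Finset.sum_congr rfl fun i _ => ?_
    rw [Finset.sum_mul]
    refine Finset.sum_congr rfl fun k _ => ?_
    ring
  have e2 : v ⬝ᵥ G.mulVec (Pi.single j (1 : ℝ)) = p j := by
    rw [Matrix.dotProduct_mulVec, ← Matrix.mulVec_transpose, hs.eq, hGv]
    simp
  have e3 : (Pi.single j (1 : ℝ) : Cov) ⬝ᵥ p = p j := by simp
  have e4 : (Pi.single j (1 : ℝ) : Cov) ⬝ᵥ G.mulVec (Pi.single j (1 : ℝ)) = G j j := by simp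
  rw [dotProduct_smul] at hq
  simp only [smul_eq_mul, e1, e2, e3, e4] at hq
  have h5 : ev G⁻¹ p p - p j / G j j * p j - (p j / G j j * p j - p j / G j j * (p j / G j j * G j j))
      = ev G⁻¹ p p - p j ^ 2 / G j j := by
    field_simp
    ring
  have h6 : 0 ≤ ev G⁻¹ p p - p j ^ 2 / G j j := by
    rw [← h5]
    linarith
  have h7 : p j ^ 2 / G j j ≤ ev G⁻¹ p p := by linarith
  rw [div_le_iff₀ hpos] at h7
  linarith

theorem ev_nonneg (G : Bil) (hG : G.PosDef) (p : Cov) : 0 ≤ ev G⁻¹ p p := by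
  have h := cs_aux G hG p 0
  have hpos : 0 < G 0 0 := hG.diag_pos
  by_contra hneg
  push Not at hneg
  nlinarith [sq_nonneg (p 0), mul_neg_of_pos_of_neg hpos hneg]

/-! ### Smoothness -/

section Smooth

variable {U : Set E3} {g h : TensorField} {w : E3 → ℝ} {x : E3}

theorem cd_pd {f : E3 → ℝ} (hf : ContDiffAt ℝ ∞ f x) (i : Fin 3) :
    ContDiffAt ℝ ∞ (pd i f) x := by
  have h1 : ContDiffAt ℝ ∞ (fderiv ℝ f) x := hf.fderiv_right (by simp)
  exact h1.clm_apply contDiffAt_const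

theorem cd_det {M : E3 → Bil} (hM : ∀ i j, ContDiffAt ℝ ∞ (fun y => M y i j) x) :
    ContDiffAt ℝ ∞ (fun y => (M y).det) x := by
  simp only [Matrix.det_fin_three]
  fun_prop

theorem cd_inv {M : E3 → Bil} (hM : ∀ i j, ContDiffAt ℝ ∞ (fun y => M y i j) x)
    (hdet : (M x).det ≠ 0) (k l : Fin 3) : ContDiffAt ℝ ∞ (fun y => (M y)⁻¹ k l) x := by
  have ha : ContDiffAt ℝ ∞ (fun y => (M y).adjugate k l) x := by
    simp only [Matrix.adjugate_fin_three]
    fin_cases k <;> fin_cases l <;>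
      simp <;> fun_prop
  have h1 : (fun y => (M y)⁻¹ k l) = fun y => ((M y).det)⁻¹ * (M y).adjugate k l := by
    funext y
    rw [Matrix.inv_def, Ring.inverse_eq_inv', Matrix.smul_apply, smul_eq_mul]
  rw [h1]
  exact ((cd_det hM).inv hdet).mul ha

theorem cd_up {P : E3 → Bil} {v : E3 → Cov} (hP : ∀ i j, ContDiffAt ℝ ∞ (fun y => P y i j) x)
    (hv : ∀ i, ContDiffAt ℝ ∞ (fun y => v y i) x) (i : Fin 3) :
    ContDiffAt ℝ ∞ (fun y => up (P y) (v y) i) x := by
  unfold up
  exact ContDiffAt.sum fun j _ => (hP i j).mul (hv j)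

theorem cd_app {P H : E3 → Bil} {v : E3 → Cov}
    (hP : ∀ i j, ContDiffAt ℝ ∞ (fun y => P y i j) x)
    (hH : ∀ i j, ContDiffAt ℝ ∞ (fun y => H y i j) x)
    (hv : ∀ i, ContDiffAt ℝ ∞ (fun y => v y i) x) (i : Fin 3) :
    ContDiffAt ℝ ∞ (fun y => app (P y) (H y) (v y) i) x := by
  unfold app
  exact ContDiffAt.sum fun j _ => (hH i j).mul (cd_up hP hv j)

theorem cd_ev {B : E3 → Bil} {v u : E3 → Cov} (hB : ∀ i j, ContDiffAt ℝ ∞ (fun y => B y i j) x)
    (hv : ∀ i, ContDiffAt ℝ ∞ (fun y => v y i) x) (hu : ∀ i, ContDiffAt ℝ ∞ (fun y => u y i) x) :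
    ContDiffAt ℝ ∞ (fun y => ev (B y) (v y) (u y)) x := by
  unfold ev
  exact ContDiffAt.sum fun i _ => ContDiffAt.sum fun j _ => ((hB i j).mul (hv i)).mul (hu j)

theorem cd_tr {P H : E3 → Bil} (hP : ∀ i j, ContDiffAt ℝ ∞ (fun y => P y i j) x)
    (hH : ∀ i j, ContDiffAt ℝ ∞ (fun y => H y i j) x) :
    ContDiffAt ℝ ∞ (fun y => tr2 (P y) (H y)) x := by
  unfold tr2
  exact ContDiffAt.sum fun i _ => ContDiffAt.sum fun j _ => (hP i j).mul (hH i j)

theorem cd_chr (hM : ∀ i j, ContDiffAt ℝ ∞ (fun y => g y i j) x)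
    (hdet : (g x).det ≠ 0) (k i j : Fin 3) : ContDiffAt ℝ ∞ (christoffel g k i j) x := by
  have e : christoffel g k i j = fun x => (1 / 2) * ∑ l, (g x)⁻¹ k l *
      (pd i (fun y => g y j l) x + pd j (fun y => g y i l) x - pd l (fun y => g y i j) x) := rfl
  rw [e]
  exact contDiffAt_const.mul (ContDiffAt.sum fun l _ => (cd_inv hM hdet k l).mul
    (((cd_pd (hM j l) i).add (cd_pd (hM i l) j)).sub (cd_pd (hM i j) l)))

theorem cd_H (hM : ∀ i j, ContDiffAt ℝ ∞ (fun y => g y i j) x) (hdet : (g x).det ≠ 0)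
    (hw : ContDiffAt ℝ ∞ w x) (i j : Fin 3) :
    ContDiffAt ℝ ∞ (fun y => cHess g y (grad w y) (hess2 w y) i j) x := by
  have e : (fun y => cHess g y (grad w y) (hess2 w y) i j) = fun y => pd i (pd j w) y
      - ∑ k, christoffel g k i j y * pd k w y := rfl
  rw [e]
  exact (cd_pd (cd_pd hw j) i).sub (ContDiffAt.sum fun k _ => (cd_chr hM hdet k i j).mul
    (cd_pd hw k))

theorem cd_vol (hM : ∀ i j, ContDiffAt ℝ ∞ (fun y => g y i j) x) (hdet : (g x).det ≠ 0) :
    ContDiffAt ℝ ∞ (volDen g) x := by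
  have e : volDen g = fun y => Real.sqrt (g y).det := rfl
  rw [e]
  exact (cd_det hM).sqrt hdet

end Smooth

theorem up_add (P : Bil) (a b : Cov) (i : Fin 3) :
    up P (fun j => a j + b j) i = up P a i + up P b i := by
  unfold up
  rw [← Finset.sum_add_distrib]
  exact Finset.sum_congr rfl fun j _ => by ring

theorem up_smul (P : Bil) (c : ℝ) (a : Cov) (i : Fin 3) :
    up P (fun j => c * a j) i = c * up P a i := by
  unfold up
  rw [Finset.mul_sum]
  exact Finset.sum_congr rfl fun j _ => by ring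

/-- The pairing of `P (tr H p - H p)` with `H p`. -/
theorem pair (P H : Bil) (p : Cov) (t : ℝ) :
    ∑ i, up P (fun j => t * p j - app P H p j) i * app P H p i
      = qf P H p * t - ev P (app P H p) (app P H p) := by
  have e1 : ∀ i, up P (fun j => t * p j - app P H p j) i
      = t * up P p i - up P (app P H p) i := by
    intro i
    unfold up
    rw [Finset.mul_sum, ← Finset.sum_sub_distrib]
    exact Finset.sum_congr rfl fun j _ => by ring
  have e2 : ∑ i, up P p i * app P H p i = qf P H p := by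
    unfold qf ev
    refine Finset.sum_congr rfl fun i _ => ?_
    have : app P H p i = ∑ j, H i j * up P p j := rfl
    rw [this, Finset.mul_sum]
    exact Finset.sum_congr rfl fun j _ => by ring
  have e3 : ∑ i, up P (app P H p) i * app P H p i = ev P (app P H p) (app P H p) := by
    unfold ev
    refine Finset.sum_congr rfl fun i _ => ?_
    have : up P (app P H p) i = ∑ j, P i j * app P H p j := rfl
    rw [this, Finset.sum_mul]
    exact Finset.sum_congr rfl fun j _ => by ring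
  rw [← e2, ← e3, Finset.sum_mul, ← Finset.sum_sub_distrib]
  refine Finset.sum_congr rfl fun i _ => ?_
  rw [e1]
  ring

end MZD

open MZD in
theorem ZD (hBO : Stmt_BO) (hJD : Stmt_JD) (hLD : Stmt_LD) (hSD : Stmt_SD) : Stmt_ZD := by
  intro ε U g h w d hε hε1 hU hg hh hw hd
  -- smoothness at the points of `U`
  have sg : ∀ x ∈ U, ∀ i j, ContDiffAt ℝ ∞ (fun y => g y i j) x := fun x hx i j =>
    (hg.smooth i j).contDiffAt (hU.mem_nhds hx)
  have sh : ∀ x ∈ U, ∀ i j, ContDiffAt ℝ ∞ (fun y => h y i j) x := fun x hx i j =>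
    (hh.smooth i j).contDiffAt (hU.mem_nhds hx)
  have sw : ∀ x ∈ U, ContDiffAt ℝ ∞ w x := fun x hx => hw.contDiffAt (hU.mem_nhds hx)
  have sdet : ∀ x ∈ U, (g x).det ≠ 0 := fun x hx => (hg.posDef x hx).det_pos.ne'
  have sP : ∀ x ∈ U, ∀ i j, ContDiffAt ℝ ∞ (fun y => (g y)⁻¹ i j) x := fun x hx i j =>
    cd_inv (sg x hx) (sdet x hx) i j
  have sp : ∀ x ∈ U, ∀ i, ContDiffAt ℝ ∞ (fun y => grad w y i) x := fun x hx i =>
    cd_pd (sw x hx) i
  have sH : ∀ x ∈ U, ∀ i j, ContDiffAt ℝ ∞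
      (fun y => cHess g y (grad w y) (hess2 w y) i j) x := fun x hx i j =>
    cd_H (sg x hx) (sdet x hx) (sw x hx) i j
  have sv : ∀ x ∈ U, ContDiffAt ℝ ∞ (volDen g) x := fun x hx => cd_vol (sg x hx) (sdet x hx)
  -- the vector `tr H p - H p`
  set V : Fin 3 → E3 → ℝ := fun i y => up (g y)⁻¹ (fun j =>
      trg g y (cHess g y (grad w y) (hess2 w y)) * grad w y j
        - app (g y)⁻¹ (cHess g y (grad w y) (hess2 w y)) (grad w y) j) i with hV
  have sV : ∀ x ∈ U, ∀ i, ContDiffAt ℝ ∞ (V i) x := by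
    intro x hx i
    rw [hV]
    exact cd_up (v := fun y j => trg g y (cHess g y (grad w y) (hess2 w y)) * grad w y j
        - app (g y)⁻¹ (cHess g y (grad w y) (hess2 w y)) (grad w y) j) (sP x hx) (fun j =>
      ((cd_tr (sP x hx) (sH x hx)).mul (sp x hx j)).sub
        (cd_app (sP x hx) (sH x hx) (sp x hx) j)) i
  -- the regularised length
  set L : E3 → ℝ := fun y => ld (g y)⁻¹ d (grad w y) with hL
  have hQ0 : ∀ x ∈ U, 0 ≤ ev (g x)⁻¹ (grad w x) (grad w x) := fun x hx =>
    ev_nonneg (g x) (hg.posDef x hx) _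
  have Lpos : ∀ x ∈ U, 0 < L x := by
    intro x hx
    rw [hL]
    apply Real.sqrt_pos.mpr
    have := hQ0 x hx
    positivity
  have sQ : ∀ x ∈ U, ContDiffAt ℝ ∞ (fun y => ev (g y)⁻¹ (grad w y) (grad w y)) x := fun x hx =>
    cd_ev (sP x hx) (sp x hx) (sp x hx)
  have sL : ∀ x ∈ U, ContDiffAt ℝ ∞ L x := by
    intro x hx
    rw [hL]
    unfold ld
    apply ((sQ x hx).add contDiffAt_const).sqrt
    have := hQ0 x hx
    positivity
  have sY : ∀ x ∈ U, ∀ i, ContDiffAt ℝ ∞
      (fun y => volDen g y * Yf g d y (grad w y) (hess2 w y) i) x := by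
    intro x hx i
    exact (sv x hx).mul ((sV x hx i).div (sL x hx) (Lpos x hx).ne')
  -- the third vector
  set W : Fin 3 → E3 → ℝ := fun i y => volDen g y * up (g y)⁻¹ (fun j =>
      app (g y)⁻¹ (h y) (grad w y) j - trg g y (h y) * grad w y j) i with hW
  have sW : ∀ x ∈ U, ∀ i, ContDiffAt ℝ ∞ (W i) x := by
    intro x hx i
    rw [hW]
    exact (sv x hx).mul (cd_up (v := fun y j => app (g y)⁻¹ (h y) (grad w y) j
        - trg g y (h y) * grad w y j) (sP x hx) (fun j =>
      (cd_app (sP x hx) (sh x hx) (sp x hx) j).sub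
        ((cd_tr (sP x hx) (sh x hx)).mul (sp x hx j))) i)
  -- the second vector
  set R : Fin 3 → E3 → ℝ := fun i y => volDen g y * up (g y)⁻¹ (fun j =>
      len g y (grad w y) * grad w y j) i with hR
  have sR : ∀ i, ContDiffOn ℝ 1 (R i) U := by
    intro i
    have e : R i = fun y => volDen g y * ∑ j, (g y)⁻¹ i j *
        (len g y (grad w y) * grad w y j) := rfl
    rw [e]
    have h1 : ∀ j, ContDiffOn ℝ 1 (fun y => len g y (grad w y) * grad w y j) U := fun j =>
      sqrt_mul_C1 hU (fun y => ev (g y)⁻¹ (grad w y) (grad w y)) (fun y => grad w y j)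
        (fun y => g y j j) sQ (fun x hx => sp x hx j) (fun x hx => (sg x hx j j).continuousAt)
        hQ0 (fun x hx => cs_aux (g x) (hg.posDef x hx) (grad w x) j)
    have h2 : ContDiffOn ℝ 1 (volDen g) U := fun x hx =>
      ((sv x hx).of_le (by simp)).contDiffWithinAt
    have h3 : ∀ j, ContDiffOn ℝ 1 (fun y => (g y)⁻¹ i j) U := fun j x hx =>
      ((sP x hx i j).of_le (by simp)).contDiffWithinAt
    exact h2.mul (ContDiffOn.sum fun j _ => (h3 j).mul (h1 j))
  have hZ : ∀ i y, volDen g y * Zf ε g h d y (grad w y) (hess2 w y) i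
      = volDen g y * Yf g d y (grad w y) (hess2 w y) i + (-(1 / (2 - ε))) * R i y + W i y := by
    intro i y
    rw [hR, hW]
    simp only
    unfold Zf
    have e : up (g y)⁻¹ (fun j => -(len g y (grad w y) / (2 - ε)) * grad w y j
        + app (g y)⁻¹ (h y) (grad w y) j - trg g y (h y) * grad w y j) i
        = (-(1 / (2 - ε))) * up (g y)⁻¹ (fun j => len g y (grad w y) * grad w y j) i
          + up (g y)⁻¹ (fun j => app (g y)⁻¹ (h y) (grad w y) j
            - trg g y (h y) * grad w y j) i := by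
      rw [← up_smul, ← up_add]
      congr 1
      funext j
      ring
    rw [e]
    ring
  -- differentiability
  have dY : ∀ x ∈ U, ∀ i, DifferentiableAt ℝ
      (fun y => volDen g y * Yf g d y (grad w y) (hess2 w y) i) x := fun x hx i =>
    (sY x hx i).differentiableAt (by simp)
  have dR : ∀ x ∈ U, ∀ i, DifferentiableAt ℝ (R i) x := fun x hx i =>
    ((sR i).contDiffAt (hU.mem_nhds hx)).differentiableAt (by simp)
  have dW : ∀ x ∈ U, ∀ i, DifferentiableAt ℝ (W i) x := fun x hx i =>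
    (sW x hx i).differentiableAt (by simp)
  have hYdiv : ∀ x ∈ U, ∑ i, pd i (fun y => volDen g y * Yf g d y (grad w y) (hess2 w y) i) x
      = volDen g x * Ddx g d x (grad w x) (hess2 w x) := by
    intro x hx
    have e1 : ∀ i, pd i (fun y => volDen g y * Yf g d y (grad w y) (hess2 w y) i) x
        = pd i (fun y => volDen g y * V i y) x / L x
          - (volDen g x * V i x) * (app (g x)⁻¹ (cHess g x (grad w x) (hess2 w x)) (grad w x) i)
            / L x ^ 3 := by
      intro i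
      have dVi : DifferentiableAt ℝ (fun y => volDen g y * V i y) x :=
        ((sv x hx).mul (sV x hx i)).differentiableAt (by simp)
      have dL : DifferentiableAt ℝ L x := (sL x hx).differentiableAt (by simp)
      have dLi : DifferentiableAt ℝ (fun y => (L y)⁻¹) x := dL.inv (Lpos x hx).ne'
      have e2 : (fun y => volDen g y * Yf g d y (grad w y) (hess2 w y) i)
          = fun y => (volDen g y * V i y) * (L y)⁻¹ := by
        funext y
        have : Yf g d y (grad w y) (hess2 w y) i = V i y / L y := rfl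
        rw [this]
        ring
      rw [e2, pd_mul dVi dLi]
      have e3 : pd i (fun y => (L y)⁻¹) x = - pd i L x / L x ^ 2 := by
        unfold pd
        have h4 : HasFDerivAt (fun y => (L y)⁻¹) (-(L x ^ 2)⁻¹ • fderiv ℝ L x) x :=
          (hasDerivAt_inv (Lpos x hx).ne').comp_hasFDerivAt x dL.hasFDerivAt
        rw [h4.fderiv]
        change -(L x ^ 2)⁻¹ * (fderiv ℝ L x) (EuclideanSpace.single i 1)
          = -(fderiv ℝ L x) (EuclideanSpace.single i 1) / L x ^ 2
        ring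
      have e4 : pd i L x = app (g x)⁻¹ (cHess g x (grad w x) (hess2 w x)) (grad w x) i / L x :=
        hSD U g w d hU hg hw hd x hx i
      rw [e3, e4]
      have := (Lpos x hx).ne'
      field_simp
      ring
    rw [Finset.sum_congr rfl fun i _ => e1 i, Finset.sum_sub_distrib, ← Finset.sum_div,
      ← Finset.sum_div]
    have hb := hBO U g w hU hg hw x hx
    have e5 : ∑ i, pd i (fun y => volDen g y * V i y) x
        = volDen g x * (tr2 (g x)⁻¹ (cHess g x (grad w x) (hess2 w x)) ^ 2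
          - dd (g x)⁻¹ (cHess g x (grad w x) (hess2 w x)) (cHess g x (grad w x) (hess2 w x))
          - qf (g x)⁻¹ (ric g x) (grad w x)) := hb
    have e6 : ∑ i, (volDen g x * V i x)
        * (app (g x)⁻¹ (cHess g x (grad w x) (hess2 w x)) (grad w x) i)
        = volDen g x * (qf (g x)⁻¹ (cHess g x (grad w x) (hess2 w x)) (grad w x)
            * tr2 (g x)⁻¹ (cHess g x (grad w x) (hess2 w x))
          - ev (g x)⁻¹ (app (g x)⁻¹ (cHess g x (grad w x) (hess2 w x)) (grad w x))
            (app (g x)⁻¹ (cHess g x (grad w x) (hess2 w x)) (grad w x))) := by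
      have := pair (g x)⁻¹ (cHess g x (grad w x) (hess2 w x)) (grad w x)
        (tr2 (g x)⁻¹ (cHess g x (grad w x) (hess2 w x)))
      rw [← this, Finset.mul_sum]
      refine Finset.sum_congr rfl fun i _ => ?_
      rw [mul_assoc]
      rfl
    rw [e5, e6]
    have hD : Ddx g d x (grad w x) (hess2 w x)
        = (tr2 (g x)⁻¹ (cHess g x (grad w x) (hess2 w x)) ^ 2
          - dd (g x)⁻¹ (cHess g x (grad w x) (hess2 w x)) (cHess g x (grad w x) (hess2 w x))
          - qf (g x)⁻¹ (ric g x) (grad w x)) / L x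
        - (qf (g x)⁻¹ (cHess g x (grad w x) (hess2 w x)) (grad w x)
            * tr2 (g x)⁻¹ (cHess g x (grad w x) (hess2 w x))
          - ev (g x)⁻¹ (app (g x)⁻¹ (cHess g x (grad w x) (hess2 w x)) (grad w x))
            (app (g x)⁻¹ (cHess g x (grad w x) (hess2 w x)) (grad w x))) / L x ^ 3 := rfl
    rw [hD]
    ring
  refine ⟨fun i x hx => ((sY x hx i).of_le (by simp)).contDiffWithinAt, ?_, hYdiv, ?_⟩
  · intro i
    have e : (fun y => volDen g y * Zf ε g h d y (grad w y) (hess2 w y) i)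
        = fun y => volDen g y * Yf g d y (grad w y) (hess2 w y) i
          + (-(1 / (2 - ε))) * R i y + W i y := funext fun y => hZ i y
    rw [e]
    have h1 : ContDiffOn ℝ 1 (fun y => volDen g y * Yf g d y (grad w y) (hess2 w y) i) U :=
      fun x hx => ((sY x hx i).of_le (by simp)).contDiffWithinAt
    have h2 : ContDiffOn ℝ 1 (W i) U := fun x hx =>
      ((sW x hx i).of_le (by simp)).contDiffWithinAt
    exact (h1.add (contDiffOn_const.mul (sR i))).add h2
  · intro x hx
    have e1 : ∀ i, pd i (fun y => volDen g y * Zf ε g h d y (grad w y) (hess2 w y) i) x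
        = pd i (fun y => volDen g y * Yf g d y (grad w y) (hess2 w y) i) x
          + (-(1 / (2 - ε))) * pd i (R i) x + pd i (W i) x := by
      intro i
      have e : (fun y => volDen g y * Zf ε g h d y (grad w y) (hess2 w y) i)
          = fun y => (volDen g y * Yf g d y (grad w y) (hess2 w y) i
            + (-(1 / (2 - ε))) * R i y) + W i y := funext fun y => hZ i y
      have d1 : DifferentiableAt ℝ (fun y => (-(1 / (2 - ε))) * R i y) x :=
        (dR x hx i).const_mul _
      have d2 : DifferentiableAt ℝ (fun y => volDen g y * Yf g d y (grad w y) (hess2 w y) i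
          + (-(1 / (2 - ε))) * R i y) x := (dY x hx i).add d1
      rw [e, pd_add d2 (dW x hx i), pd_add (dY x hx i) d1, pd_const_mul _ (dR x hx i)]
    rw [Finset.sum_congr rfl fun i _ => e1 i, Finset.sum_add_distrib, Finset.sum_add_distrib,
      ← Finset.mul_sum, hYdiv x hx]
    have e2 : ∑ i, pd i (R i) x = volDen g x
        * (nn (g x)⁻¹ (cHess g x (grad w x) (hess2 w x)) (grad w x) * lp (g x)⁻¹ (grad w x)
          + lp (g x)⁻¹ (grad w x) * tr2 (g x)⁻¹ (cHess g x (grad w x) (hess2 w x))) :=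
      hLD U g w hU hg hw x hx
    have e3 : ∑ i, pd i (W i) x = volDen g x * (ev (g x)⁻¹ (momV g h x) (grad w x)
        + dd (g x)⁻¹ (h x) (cHess g x (grad w x) (hess2 w x))
        - tr2 (g x)⁻¹ (h x) * tr2 (g x)⁻¹ (cHess g x (grad w x) (hess2 w x))) :=
      hJD U g h w hU hg hh hw x hx
    rw [e2, e3]
    have hD : DZx ε g h d x (grad w x) (hess2 w x)
        = Ddx g d x (grad w x) (hess2 w x)
          - (nn (g x)⁻¹ (cHess g x (grad w x) (hess2 w x)) (grad w x) * lp (g x)⁻¹ (grad w x)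
            + lp (g x)⁻¹ (grad w x) * tr2 (g x)⁻¹ (cHess g x (grad w x) (hess2 w x))) / (2 - ε)
          + ev (g x)⁻¹ (momV g h x) (grad w x)
          + dd (g x)⁻¹ (h x) (cHess g x (grad w x) (hess2 w x))
          - tr2 (g x)⁻¹ (h x) * tr2 (g x)⁻¹ (cHess g x (grad w x) (hess2 w x)) := rfl
    rw [hD]
    ring

end Pool.Agent.PFlow


end

section

set_option autoImplicit false

/-!
# HATB: smoothness, 2-nonnegativity and size of the modified tensor
-/

open MeasureTheory Filter Topology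
open scoped ContDiff

namespace Pool.Agent.PFlow

open Pool.Agent.PenroseSph

namespace HATBaux

lemma contDiffOn_det {U : Set E3} {M : E3 → Bil}
    (h : ∀ i j, ContDiffOn ℝ ∞ (fun x => M x i j) U) :
    ContDiffOn ℝ ∞ (fun x => (M x).det) U := by
  simp only [Matrix.det_fin_three]
  exact ((((((((h 0 0).mul (h 1 1)).mul (h 2 2)).sub (((h 0 0).mul (h 1 2)).mul (h 2 1))).sub
    (((h 0 1).mul (h 1 0)).mul (h 2 2))).add (((h 0 1).mul (h 1 2)).mul (h 2 0))).add
    (((h 0 2).mul (h 1 0)).mul (h 2 1))).sub (((h 0 2).mul (h 1 1)).mul (h 2 0)))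

lemma contDiffOn_adj {U : Set E3} {M : E3 → Bil}
    (h : ∀ i j, ContDiffOn ℝ ∞ (fun x => M x i j) U) (i j : Fin 3) :
    ContDiffOn ℝ ∞ (fun x => (M x).adjugate i j) U := by
  simp only [Matrix.adjugate_apply]
  apply contDiffOn_det
  intro a b
  by_cases haj : a = j
  · subst haj
    simp only [Matrix.updateRow_self]
    exact contDiffOn_const
  · simp only [Matrix.updateRow_ne haj]
    exact h a b

lemma contDiffOn_inv {U : Set E3} {g : TensorField} (hg : MetricOn U g) (i j : Fin 3) :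
    ContDiffOn ℝ ∞ (fun x => (g x)⁻¹ i j) U := by
  have hd := contDiffOn_det hg.smooth
  have ha := contDiffOn_adj hg.smooth i j
  have hne : ∀ x ∈ U, (g x).det ≠ 0 := fun x hx => (hg.posDef x hx).det_pos.ne'
  have h := (hd.inv hne).mul ha
  refine h.congr ?_
  intro x hx
  rw [Matrix.inv_def, Ring.inverse_eq_inv']
  rfl

lemma contDiffOn_trg {U : Set E3} {g h : TensorField} (hg : MetricOn U g) (hh : TensorOn U h) :
    ContDiffOn ℝ ∞ (fun x => trg g x (h x)) U := by
  unfold trg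
  exact ContDiffOn.sum fun i _ => ContDiffOn.sum fun j _ => (contDiffOn_inv hg i j).mul (hh.smooth i j)

lemma contDiff_hatF {η : ℝ} (hη : 0 < η) : ContDiff ℝ ∞ (hatF η) := by
  unfold hatF
  have h1 : ContDiff ℝ ∞ (fun t : ℝ => t ^ 2 + η ^ 2) := by fun_prop
  have h2 : ContDiff ℝ ∞ (fun t : ℝ => Real.sqrt (t ^ 2 + η ^ 2)) :=
    h1.sqrt (fun t => by positivity)
  exact contDiff_id.div h2 (fun t => by positivity)

lemma hatF_nonneg {η t : ℝ} (ht : 0 ≤ t) : 0 ≤ hatF η t :=
  div_nonneg ht (Real.sqrt_nonneg _)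

lemma hatF_nonpos {η t : ℝ} (ht : t ≤ 0) : hatF η t ≤ 0 :=
  div_nonpos_of_nonpos_of_nonneg ht (Real.sqrt_nonneg _)

lemma abs_hatF_le (η t : ℝ) : |hatF η t| ≤ 1 := by
  unfold hatF
  rw [abs_div, abs_of_nonneg (Real.sqrt_nonneg _)]
  apply div_le_one_of_le₀ _ (Real.sqrt_nonneg _)
  apply Real.abs_le_sqrt
  nlinarith [sq_nonneg η]

lemma hatF_sq_le (η t : ℝ) : hatF η t ^ 2 ≤ 1 := by
  have h := abs_hatF_le η t
  rw [← sq_abs]
  nlinarith [abs_nonneg (hatF η t)]

lemma ev_smul (f : ℝ) (B : Bil) (v w : Cov) : ev (f • B) v w = f * ev B v w := by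
  unfold ev
  simp only [Matrix.smul_apply, smul_eq_mul, Finset.mul_sum]
  exact Finset.sum_congr rfl fun i _ => Finset.sum_congr rfl fun j _ => by ring

lemma trg_smul (g : TensorField) (x : E3) (f : ℝ) (B : Bil) :
    trg g x (f • B) = f * trg g x B := by
  unfold trg
  simp only [Matrix.smul_apply, smul_eq_mul, Finset.mul_sum]
  exact Finset.sum_congr rfl fun i _ => Finset.sum_congr rfl fun j _ => by ring

lemma nsq_smul (g : TensorField) (x : E3) (f : ℝ) (B : Bil) :
    nsq g x (f • B) = f ^ 2 * nsq g x B := by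
  unfold nsq
  simp only [Matrix.smul_apply, smul_eq_mul, Finset.mul_sum]
  exact Finset.sum_congr rfl fun i _ => Finset.sum_congr rfl fun j _ =>
    Finset.sum_congr rfl fun k _ => Finset.sum_congr rfl fun l _ => by ring

lemma ev_nonneg {P : Bil} (hP : P.PosSemidef) (v : Cov) : 0 ≤ ev P v v := by
  have h := hP.dotProduct_mulVec_nonneg v
  have e : star v ⬝ᵥ P.mulVec v = ev P v v := by
    simp only [dotProduct, Matrix.mulVec, ev, Finset.mul_sum, Pi.star_apply, star_trivial]
    exact Finset.sum_congr rfl fun i _ => Finset.sum_congr rfl fun j _ => by ring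
  rwa [e] at h

open scoped Kronecker in
lemma nsq_nonneg {g : TensorField} {x : E3} (hg : (g x).PosDef) (B : Bil) : 0 ≤ nsq g x B := by
  have hP : ((g x)⁻¹).PosSemidef := hg.inv.posSemidef
  have hK := (hP.kronecker hP).dotProduct_mulVec_nonneg (fun p : Fin 3 × Fin 3 => B p.1 p.2)
  have e : star (fun p : Fin 3 × Fin 3 => B p.1 p.2) ⬝ᵥ
      ((g x)⁻¹ ⊗ₖ (g x)⁻¹).mulVec (fun p : Fin 3 × Fin 3 => B p.1 p.2) = nsq g x B := by
    simp only [dotProduct, Matrix.mulVec, nsq, Finset.mul_sum, Pi.star_apply, star_trivial,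
      Matrix.kroneckerMap_apply, Fintype.sum_prod_type]
    exact Finset.sum_congr rfl fun i _ => Finset.sum_congr rfl fun j _ =>
      Finset.sum_congr rfl fun k _ => Finset.sum_congr rfl fun l _ => by ring
  rwa [e] at hK

end HATBaux

open HATBaux

theorem HATB (hHATA : Stmt_HATA) : Stmt_HATB := by
  intro g h η hη hg hh hps
  refine ⟨⟨?_, ?_⟩, ?_, ?_, ?_⟩
  · intro i j
    have h1 := ((contDiff_hatF hη).comp_contDiffOn (contDiffOn_trg hg hh)).mul (hh.smooth i j)
    exact h1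
  · intro x hx
    exact (hh.symm x hx).smul _
  · intro x hx v hv
    have hx0 : x ≠ 0 := hx
    unfold hat
    rw [ev_smul, trg_smul]
    rcases hps x hx0 with h1 | h1
    · have h2 := (hHATA g x (h x) (hg.posDef x hx) (hh.symm x hx) h1).1
      exact mul_le_mul_of_nonneg_left (h1 v hv) (hatF_nonneg h2)
    · have h3 := (hHATA g x ((-1 : ℝ) • h x) (hg.posDef x hx) ((hh.symm x hx).smul _) (by
        intro w hw
        rw [ev_smul, trg_smul]
        have := h1 w hw
        linarith)).1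
      rw [trg_smul] at h3
      exact mul_le_mul_of_nonpos_left (h1 v hv) (hatF_nonpos (by linarith))
  · intro x hx
    unfold hat
    rw [nsq_smul]
    have h1 := nsq_nonneg (hg.posDef x hx) (h x)
    have h2 := hatF_sq_le η (trg g x (h x))
    nlinarith
  · intro x i j
    unfold hat
    rw [Matrix.smul_apply, smul_eq_mul, abs_mul]
    have h1 := abs_hatF_le η (trg g x (h x))
    nlinarith [abs_nonneg (h x i j)]

end Pool.Agent.PFlow


end
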