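import Mathlib
import Pool.Agent.PFlow.StmtsM
import Pool.Agent.PenroseM.C05
import Pool.Agent.PenroseM.C06

/-! Parts: PFlow.P.Step, PFlow.P.Bdd, PFlow.P.LimEq, PFlow.P.Order, PFlow.M_LD -/

section

/-!
# Block P, module STEP: the strongly monotone problem
-/

open MeasureTheory Filter Topology Set
open scoped ContDiff RealInnerProductSpace ENNReal

namespace Pool.Agent.PFlow.PB

open Pool.Agent.PenroseSph Pool.Agent.PFlow

namespace Step

/-- The big Hilbert space. -/
abbrev X : Type := WithLp 2 (Lp ℝ 2 (volume : Measure E3) × Lp E3 2 (volume : Measure E3))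

lemma sq_lp (f : Lp ℝ 2 (volume : Measure E3)) : sq f = ‖f‖ ^ 2 := by
  rw [← real_inner_self_eq_norm_sq, L2.inner_def]
  unfold sq
  refine integral_congr_ae (Eventually.of_forall fun x => ?_)
  show (f x) ^ 2 = ⟪f x, f x⟫
  rw [real_inner_self_eq_norm_sq, Real.norm_eq_abs, sq_abs]

lemma sqv_lp (f : Lp E3 2 (volume : Measure E3)) : sqv f = ‖f‖ ^ 2 := by
  rw [← real_inner_self_eq_norm_sq, L2.inner_def]
  unfold sqv
  refine integral_congr_ae (Eventually.of_forall fun x => ?_)
  show ‖f x‖ ^ 2 = ⟪f x, f x⟫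
  rw [real_inner_self_eq_norm_sq]

lemma sq_sub_lp (f g : Lp ℝ 2 (volume : Measure E3)) : sq (fun x => f x - g x) = ‖f - g‖ ^ 2 := by
  rw [← sq_lp]
  unfold sq
  refine integral_congr_ae ?_
  filter_upwards [Lp.coeFn_sub f g] with x hx
  rw [hx, Pi.sub_apply]

lemma sqv_sub_lp (f g : Lp E3 2 (volume : Measure E3)) :
    sqv (fun x => f x - g x) = ‖f - g‖ ^ 2 := by
  rw [← sqv_lp]
  unfold sqv
  refine integral_congr_ae ?_
  filter_upwards [Lp.coeFn_sub f g] with x hx
  rw [hx, Pi.sub_apply]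

lemma gr_zero' : gr (fun _ : E3 => (0 : ℝ)) = fun _ => 0 := by
  funext x
  ext i
  simp [gr, pd]

lemma h1_zero (h1 : API1) : H1 (fun _ => 0) (fun _ => 0) := by
  have h2 := h1.ofTest (fun _ => 0) ⟨contDiff_const, HasCompactSupport.zero⟩
  rwa [gr_zero'] at h2

/-- The closed subspace `H¹`. -/
def S (h1 : API1) : Submodule ℝ X where
  carrier := {p | H1 (p.fst : E3 → ℝ) (p.snd : E3 → E3)}
  zero_mem' := by
    show H1 _ _
    refine h1.congr _ _ _ _ (h1_zero h1) ?_ ?_
    · exact (Lp.coeFn_zero ℝ 2 volume).symm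
    · exact (Lp.coeFn_zero E3 2 volume).symm
  add_mem' := by
    intro p q hp hq
    show H1 _ _
    refine h1.congr _ _ _ _ (h1.add _ _ _ _ hp hq) ?_ ?_
    · exact (Lp.coeFn_add p.fst q.fst).symm
    · exact (Lp.coeFn_add p.snd q.snd).symm
  smul_mem' := by
    intro c p hp
    show H1 _ _
    refine h1.congr _ _ _ _ (h1.smul c _ _ hp) ?_ ?_
    · exact (Lp.coeFn_smul c p.fst).symm
    · exact (Lp.coeFn_smul c p.snd).symm

lemma mem_S (h1 : API1) (p : X) : p ∈ S h1 ↔ H1 (p.fst : E3 → ℝ) (p.snd : E3 → E3) := Iff.rfl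

lemma closed_S (h1 : API1) : IsClosed (S h1 : Set X) := by
  refine IsSeqClosed.isClosed fun p q hp hq => ?_
  show H1 _ _
  have hn : Tendsto (fun n => ‖p n - q‖ ^ 2) atTop (𝓝 0) := by
    have h2 := (tendsto_iff_norm_sub_tendsto_zero.mp hq).pow 2
    simpa using h2
  have hsum : ∀ n, ‖p n - q‖ ^ 2 = ‖(p n).fst - q.fst‖ ^ 2 + ‖(p n).snd - q.snd‖ ^ 2 := by
    intro n
    rw [WithLp.prod_norm_sq_eq_of_L2]
    rfl
  refine h1.closed _ _ (fun n => ((p n).fst : E3 → ℝ)) (fun n => ((p n).snd : E3 → E3)) hp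
    (Lp.memLp _) (Lp.memLp _) ?_ ?_
  · refine squeeze_zero (fun n => integral_nonneg fun x => sq_nonneg _) (fun n => ?_) hn
    rw [hsum n, sq_sub_lp]
    exact le_add_of_nonneg_right (sq_nonneg _)
  · refine squeeze_zero (fun n => integral_nonneg fun x => sq_nonneg _) (fun n => ?_) hn
    rw [hsum n, sqv_sub_lp]
    exact le_add_of_nonneg_left (sq_nonneg _)

section coef

variable {A : E3 → E3 → E3} {B : E3 → E3 → ℝ} {c L r T t₀ : ℝ} {Θ θ : E3 → ℝ}

lemma contA (hP : PCoef A B c L r) : Continuous (fun z : E3 × E3 => A z.1 z.2) :=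
  hP.smoothA.continuous

lemma memA (hP : PCoef A B c L r) {G : E3 → E3} (hG : MemLp G 2) :
    MemLp (fun x => A x (G x)) 2 := by
  have hL : 0 ≤ L := hP.c_pos.le.trans hP.c_le
  have hm : AEStronglyMeasurable (fun x => A x (G x)) volume :=
    hP.smoothA.continuous.comp_aestronglyMeasurable
      (aestronglyMeasurable_id.prodMk hG.aestronglyMeasurable)
  refine hG.of_le_mul (c := L) hm (Eventually.of_forall fun x => ?_)
  have := hP.lipA x (G x) 0
  rwa [hP.A_zero, sub_zero, sub_zero] at this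

lemma memB (hP : PCoef A B c L r) {G : E3 → E3} (hG : MemLp G 2) :
    MemLp (fun x => B x (G x)) 2 := by
  have hm : AEStronglyMeasurable (fun x => B x (G x)) volume :=
    hP.smoothB.continuous.comp_aestronglyMeasurable
      (aestronglyMeasurable_id.prodMk hG.aestronglyMeasurable)
  refine hG.of_le_mul (c := L) hm (Eventually.of_forall fun x => ?_)
  have := hP.lipB x (G x) 0
  rwa [hP.B_zero, sub_zero, sub_zero] at this

lemma memTheta (hp : Pen Θ θ T t₀ r) {u : E3 → ℝ} (hu : MemLp u 2) :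
    MemLp (fun x => Θ x * u x) 2 := by
  refine hu.of_le_mul (c := T) (hp.contΘ.aestronglyMeasurable.mul hu.aestronglyMeasurable)
    (Eventually.of_forall fun x => ?_)
  rw [norm_mul, Real.norm_eq_abs, abs_of_nonneg ((hp.nonneg x).trans (hp.le x))]
  exact mul_le_mul_of_nonneg_right (hp.bdd x) (norm_nonneg _)

lemma memtheta (hp : Pen Θ θ T t₀ r) : MemLp θ 2 := by
  have hc : HasCompactSupport θ := by
    refine HasCompactSupport.intro (isCompact_closedBall (0 : E3) r) fun x hx => ?_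
    rw [mem_closedBall_zero_iff, not_le] at hx
    exact hp.outθ x hx.le
  exact hp.contθ.memLp_of_hasCompactSupport hc

/-- The first component of the nonlinear map. -/
lemma mem1 (hP : PCoef A B c L r) (hp : Pen Θ θ T t₀ r) (m : ℝ) {v u : E3 → ℝ} {G : E3 → E3}
    (hv : MemLp v 2) (hu : MemLp u 2) (hG : MemLp G 2) :
    MemLp (fun x => -(B x (G x) - Θ x * u x + θ x - m * (u x - v x))) 2 :=
  ((((memB hP hG).sub (memTheta hp hu)).add (memtheta hp)).sub ((hu.sub hv).const_mul m)).neg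

/-- The nonlinear map into the big space. -/
noncomputable def N (hP : PCoef A B c L r) (hp : Pen Θ θ T t₀ r) (m : ℝ) {v : E3 → ℝ}
    (hv : MemLp v 2) (p : X) : X :=
  WithLp.toLp 2 ((mem1 hP hp m hv (Lp.memLp p.fst) (Lp.memLp p.snd)).toLp,
    (memA hP (Lp.memLp p.snd)).toLp)

lemma inner_N (hP : PCoef A B c L r) (hp : Pen Θ θ T t₀ r) (m : ℝ) {v : E3 → ℝ}
    (hv : MemLp v 2) (p q : X) :
    ⟪N hP hp m hv p, q⟫ = (∫ x, -(B x (p.snd x) - Θ x * p.fst x + θ x
        - m * (p.fst x - v x)) * q.fst x) + ∫ x, ⟪A x (p.snd x), q.snd x⟫ := by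
  rw [WithLp.prod_inner_apply, L2.inner_def, L2.inner_def]
  congr 1
  · refine integral_congr_ae ?_
    filter_upwards [(mem1 hP hp m hv (Lp.memLp p.fst) (Lp.memLp p.snd)).coeFn_toLp] with x hx
    show ⟪((mem1 hP hp m hv (Lp.memLp p.fst) (Lp.memLp p.snd)).toLp) x, q.fst x⟫ = _
    rw [hx]
    simp only [RCLike.inner_apply, conj_trivial]
    ring
  · refine integral_congr_ae ?_
    filter_upwards [(memA hP (Lp.memLp p.snd)).coeFn_toLp] with x hx
    show ⟪((memA hP (Lp.memLp p.snd)).toLp) x, q.snd x⟫ = _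
    rw [hx]

lemma diff_ae (hP : PCoef A B c L r) (hp : Pen Θ θ T t₀ r) (m : ℝ) {v : E3 → ℝ}
    (hv : MemLp v 2) (p q : X) :
    ∀ᵐ x, (N hP hp m hv p - N hP hp m hv q).fst x
        = -(B x (p.snd x) - B x (q.snd x)) + (Θ x + m) * (p.fst x - q.fst x) ∧
      (N hP hp m hv p - N hP hp m hv q).snd x = A x (p.snd x) - A x (q.snd x) ∧
      (p - q).fst x = p.fst x - q.fst x ∧ (p - q).snd x = p.snd x - q.snd x := by
  filter_upwards [(mem1 hP hp m hv (Lp.memLp p.fst) (Lp.memLp p.snd)).coeFn_toLp,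
    (mem1 hP hp m hv (Lp.memLp q.fst) (Lp.memLp q.snd)).coeFn_toLp,
    (memA hP (Lp.memLp p.snd)).coeFn_toLp, (memA hP (Lp.memLp q.snd)).coeFn_toLp,
    Lp.coeFn_sub (N hP hp m hv p).fst (N hP hp m hv q).fst,
    Lp.coeFn_sub (N hP hp m hv p).snd (N hP hp m hv q).snd,
    Lp.coeFn_sub p.fst q.fst, Lp.coeFn_sub p.snd q.snd] with x e1 e2 e3 e4 e5 e6 e7 e8
  refine ⟨?_, ?_, ?_, ?_⟩
  · rw [WithLp.sub_fst, e5, Pi.sub_apply]
    show ((mem1 hP hp m hv (Lp.memLp p.fst) (Lp.memLp p.snd)).toLp) x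
      - ((mem1 hP hp m hv (Lp.memLp q.fst) (Lp.memLp q.snd)).toLp) x = _
    rw [e1, e2]
    ring
  · rw [WithLp.sub_snd, e6, Pi.sub_apply]
    show ((memA hP (Lp.memLp p.snd)).toLp) x - ((memA hP (Lp.memLp q.snd)).toLp) x = _
    rw [e3, e4]
  · rw [WithLp.sub_fst, e7, Pi.sub_apply]
  · rw [WithLp.sub_snd, e8, Pi.sub_apply]

lemma normsq_X (p : X) : ‖p‖ ^ 2 = ∫ x, (‖p.fst x‖ ^ 2 + ‖p.snd x‖ ^ 2) := by
  have i1 : Integrable (fun x => ‖p.fst x‖ ^ 2) := (Lp.memLp p.fst).integrable_norm_pow (by norm_num)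
  have i2 : Integrable (fun x => ‖p.snd x‖ ^ 2) := (Lp.memLp p.snd).integrable_norm_pow (by norm_num)
  rw [integral_add i1 i2, WithLp.prod_norm_sq_eq_of_L2, ← sqv_lp p.snd]
  congr 1
  show ‖p.fst‖ ^ 2 = _
  rw [← sq_lp]
  unfold sq
  refine integral_congr_ae (Eventually.of_forall fun x => ?_)
  show (p.fst x) ^ 2 = ‖p.fst x‖ ^ 2
  rw [Real.norm_eq_abs, sq_abs]

lemma int_X (p : X) : Integrable (fun x => ‖p.fst x‖ ^ 2 + ‖p.snd x‖ ^ 2) :=
  ((Lp.memLp p.fst).integrable_norm_pow (by norm_num)).add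
    ((Lp.memLp p.snd).integrable_norm_pow (by norm_num))

lemma pt_mono {c L m d w D1 D2 th : ℝ} (hc : 0 < c) (hm : L ^ 2 / c + 1 ≤ m) (hth : 0 ≤ th)
    (h1 : -(L * |d| * |w|) + (th + m) * w ^ 2 ≤ D1) (h2 : c * d ^ 2 ≤ D2) :
    min (c / 2) 1 * (w ^ 2 + d ^ 2) ≤ D1 + D2 := by
  have h3 : L * |d| * |w| ≤ c / 2 * d ^ 2 + L ^ 2 / (2 * c) * w ^ 2 := by
    have h4 : 0 ≤ (c * |d| - L * |w|) ^ 2 / (2 * c) := by positivity
    have h5 : (c * |d| - L * |w|) ^ 2 / (2 * c)
        = c / 2 * |d| ^ 2 + L ^ 2 / (2 * c) * |w| ^ 2 - L * |d| * |w| := by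
      field_simp
      ring
    rw [h5, sq_abs, sq_abs] at h4
    linarith
  have h6 : L ^ 2 / (2 * c) * w ^ 2 ≤ L ^ 2 / c * w ^ 2 := by
    refine mul_le_mul_of_nonneg_right ?_ (sq_nonneg _)
    exact div_le_div_of_nonneg_left (sq_nonneg _) hc (by linarith)
  have h7 : (L ^ 2 / c + 1) * w ^ 2 ≤ m * w ^ 2 := mul_le_mul_of_nonneg_right hm (sq_nonneg _)
  have h8 : 0 ≤ th * w ^ 2 := mul_nonneg hth (sq_nonneg _)
  have h9 : min (c / 2) 1 * w ^ 2 ≤ 1 * w ^ 2 :=
    mul_le_mul_of_nonneg_right (min_le_right _ _) (sq_nonneg _)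
  have h10 : min (c / 2) 1 * d ^ 2 ≤ c / 2 * d ^ 2 :=
    mul_le_mul_of_nonneg_right (min_le_left _ _) (sq_nonneg _)
  nlinarith

lemma mono_N (hP : PCoef A B c L r) (hp : Pen Θ θ T t₀ r) {m : ℝ} (hm : L ^ 2 / c + 1 ≤ m)
    {v : E3 → ℝ} (hv : MemLp v 2) (p q : X) :
    min (c / 2) 1 * ‖p - q‖ ^ 2 ≤ ⟪N hP hp m hv p - N hP hp m hv q, p - q⟫ := by
  rw [WithLp.prod_inner_apply, L2.inner_def, L2.inner_def, normsq_X,
    ← integral_add (L2.integrable_inner _ _) (L2.integrable_inner _ _), ← integral_const_mul]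
  refine integral_mono_ae ((int_X _).const_mul _)
    ((L2.integrable_inner _ _).add (L2.integrable_inner _ _)) ?_
  filter_upwards [diff_ae hP hp m hv p q] with x hx
  obtain ⟨e1, e2, e3, e4⟩ := hx
  show min (c / 2) 1 * (‖(p - q).fst x‖ ^ 2 + ‖(p - q).snd x‖ ^ 2) ≤
    ⟪(N hP hp m hv p - N hP hp m hv q).fst x, (p - q).fst x⟫
      + ⟪(N hP hp m hv p - N hP hp m hv q).snd x, (p - q).snd x⟫
  rw [e1, e2, e3, e4, Real.norm_eq_abs, sq_abs]
  refine pt_mono (L := L) (m := m) (th := Θ x) hP.c_pos hm ((hp.nonneg x).trans (hp.le x)) ?_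
    (hP.mono x _ _)
  have h1 := hP.lipB x (p.snd x) (q.snd x)
  simp only [RCLike.inner_apply, conj_trivial, abs_norm]
  have h2 : (B x (p.snd x) - B x (q.snd x)) * (p.fst x - q.fst x)
      ≤ L * ‖p.snd x - q.snd x‖ * |p.fst x - q.fst x| := by
    calc (B x (p.snd x) - B x (q.snd x)) * (p.fst x - q.fst x)
        ≤ |(B x (p.snd x) - B x (q.snd x)) * (p.fst x - q.fst x)| := le_abs_self _
      _ = |B x (p.snd x) - B x (q.snd x)| * |p.fst x - q.fst x| := abs_mul _ _
      _ ≤ _ := mul_le_mul_of_nonneg_right h1 (abs_nonneg _)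
  nlinarith

lemma lip_N (hP : PCoef A B c L r) (hp : Pen Θ θ T t₀ r) {m : ℝ} (hm : 0 ≤ m)
    {v : E3 → ℝ} (hv : MemLp v 2) (p q : X) :
    ‖N hP hp m hv p - N hP hp m hv q‖ ≤ 2 * (L + T + m) * ‖p - q‖ := by
  have hL : 0 < L := hP.c_pos.trans_le hP.c_le
  have hT : 0 ≤ T := ((hp.nonneg 0).trans (hp.le 0)).trans (hp.bdd 0)
  set K := L + T + m with hK
  have hK0 : 0 < K := by positivity
  refine abs_le_of_sq_le_sq' (a := ‖N hP hp m hv p - N hP hp m hv q‖) ?_ (by positivity) |>.2
  rw [mul_pow, normsq_X, normsq_X, ← integral_const_mul]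
  refine integral_mono_ae (int_X _) ((int_X _).const_mul _) ?_
  filter_upwards [diff_ae hP hp m hv p q] with x hx
  obtain ⟨e1, e2, e3, e4⟩ := hx
  rw [e1, e2, e3, e4]
  have h1 := hP.lipB x (p.snd x) (q.snd x)
  have h2 := hP.lipA x (p.snd x) (q.snd x)
  set d := ‖p.snd x - q.snd x‖ with hd
  set w := p.fst x - q.fst x with hw
  have hd0 : 0 ≤ d := norm_nonneg _
  have hΘ : 0 ≤ Θ x := (hp.nonneg x).trans (hp.le x)
  have h3 : ‖-(B x (p.snd x) - B x (q.snd x)) + (Θ x + m) * w‖ ≤ K * d + K * |w| := by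
    refine (norm_add_le _ _).trans (add_le_add ?_ ?_)
    · rw [norm_neg, Real.norm_eq_abs]
      refine h1.trans (mul_le_mul_of_nonneg_right ?_ hd0)
      linarith
    · rw [norm_mul, Real.norm_eq_abs, Real.norm_eq_abs, abs_of_nonneg (by linarith)]
      refine mul_le_mul_of_nonneg_right ?_ (abs_nonneg _)
      linarith [hp.bdd x]
  have h4 : ‖A x (p.snd x) - A x (q.snd x)‖ ≤ K * d :=
    h2.trans (mul_le_mul_of_nonneg_right (by linarith) hd0)
  have h5 : ‖-(B x (p.snd x) - B x (q.snd x)) + (Θ x + m) * w‖ ^ 2 ≤ (K * d + K * |w|) ^ 2 :=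
    pow_le_pow_left₀ (norm_nonneg _) h3 2
  have h6 : ‖A x (p.snd x) - A x (q.snd x)‖ ^ 2 ≤ (K * d) ^ 2 :=
    pow_le_pow_left₀ (norm_nonneg _) h4 2
  rw [Real.norm_eq_abs w]
  nlinarith [mul_nonneg (sq_nonneg K) (sq_nonneg (d - |w|)), sq_nonneg (K * |w|),
    sq_nonneg (K * d)]

end coef

end Step

open Step in
/-- Module STEP. -/
theorem step_thm (h1 : API1) (hz : ZAR) : STEP := by
  intro A B c L r Θ θ T t₀ hP hp m hm v hv
  have hL : 0 < L := hP.c_pos.trans_le hP.c_le
  have hT : 0 ≤ T := ((hp.nonneg 0).trans (hp.le 0)).trans (hp.bdd 0)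
  have hm0 : 0 ≤ m := by
    have : 0 ≤ L ^ 2 / c := div_nonneg (sq_nonneg _) hP.c_pos.le
    linarith
  have : CompleteSpace (S h1) := (closed_S h1).completeSpace_coe
  have key : ∀ p q : S h1, ⟪(S h1).orthogonalProjectionOnto (N hP hp m hv p), q⟫
      = ⟪N hP hp m hv p, (q : X)⟫ :=
    fun p q => (S h1).inner_orthogonalProjectionOnto_eq_of_mem_right q _
  obtain ⟨p, hp0⟩ := hz (S h1) (fun p => (S h1).orthogonalProjectionOnto (N hP hp m hv p))
    (min (c / 2) 1) (2 * (L + T + m)) (lt_min (half_pos hP.c_pos) one_pos)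
    (by
      intro p q
      have h2 := mono_N hP hp hm hv (p : X) (q : X)
      rw [inner_sub_left, key, key, ← inner_sub_left]
      exact h2)
    (by
      intro p q
      show ‖(S h1).orthogonalProjectionOnto (N hP hp m hv p)
        - (S h1).orthogonalProjectionOnto (N hP hp m hv q)‖ ≤ _
      rw [← map_sub]
      exact ((S h1).norm_orthogonalProjectionOnto_apply_le _).trans
        (lip_N hP hp hm0 hv (p : X) (q : X))) 0
  refine ⟨(p : X).fst, (p : X).snd, p.2, ?_⟩
  intro φ Φ hφ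
  have hq : WithLp.toLp 2 (hφ.memf.toLp, hφ.memG.toLp) ∈ S h1 := by
    show H1 _ _
    exact h1.congr _ _ _ _ hφ hφ.memf.coeFn_toLp.symm hφ.memG.coeFn_toLp.symm
  have h0 := key p ⟨_, hq⟩
  rw [hp0, inner_zero_left, inner_N] at h0
  have h2 : (∫ x, -(B x ((p : X).snd x) - Θ x * (p : X).fst x + θ x
      - m * ((p : X).fst x - v x)) * (WithLp.toLp 2 (hφ.memf.toLp, hφ.memG.toLp) : X).fst x)
      = - ∫ x, (B x ((p : X).snd x) - Θ x * (p : X).fst x + θ x
      - m * ((p : X).fst x - v x)) * φ x := by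
    rw [← integral_neg]
    refine integral_congr_ae ?_
    filter_upwards [hφ.memf.coeFn_toLp] with x hx
    show _ * (hφ.memf.toLp : Lp ℝ 2 (volume : Measure E3)) x = _
    rw [hx]
    ring
  have h3 : (∫ x, ⟪A x ((p : X).snd x),
      (WithLp.toLp 2 (hφ.memf.toLp, hφ.memG.toLp) : X).snd x⟫)
      = ∫ x, ⟪A x ((p : X).snd x), Φ x⟫ := by
    refine integral_congr_ae ?_
    filter_upwards [hφ.memG.coeFn_toLp] with x hx
    show ⟪_, (hφ.memG.toLp : Lp E3 2 (volume : Measure E3)) x⟫ = _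
    rw [hx]
  rw [h2, h3] at h0
  linarith

end Pool.Agent.PFlow.PB


end

section

/-!
# Block P, module BDD: an `L²` bound along increasing sequences
-/

open MeasureTheory Filter Topology Set
open scoped ContDiff RealInnerProductSpace ENNReal

namespace Pool.Agent.PFlow.PB

open Pool.Agent.PenroseSph Pool.Agent.PFlow

namespace Bdd

/-- The pointwise inequality. -/
lemma pt {c L T t m Θ θ u v d a b : ℝ} {s : ℝ} (hc : 0 < c) (ht : 0 < t)
    (hs : s = 1 ∨ (s = 0 ∧ b = 0 ∧ θ = 0 ∧ t ≤ Θ)) (hT : Θ ≤ T) (hθ : 0 ≤ θ) (hθΘ : θ ≤ Θ)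
    (hm : 0 ≤ m) (hvu : v ≤ u) (hu0 : 0 ≤ u) (hu1 : u ≤ 1) (hd : 0 ≤ d) (hL : 0 ≤ L)
    (ha : c * d ^ 2 ≤ a) (hb : |b| ≤ L * d) :
    t * u ^ 2 ≤ (t + T + L ^ 2 / (4 * c)) * s + (a - (b - Θ * u + θ - m * (u - v)) * u) := by
  have h1 : 0 ≤ m * (u - v) * u := by
    have : 0 ≤ u - v := by linarith
    positivity
  have hΘ : 0 ≤ Θ := hθ.trans hθΘ
  have h2 : 0 ≤ Θ * u ^ 2 := by positivity
  rcases hs with rfl | ⟨rfl, rfl, rfl, htΘ⟩
  · have h3 : b * u ≤ c * d ^ 2 + L ^ 2 / (4 * c) := by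
      have h4 : b * u ≤ L * d := by
        calc b * u ≤ |b * u| := le_abs_self _
          _ = |b| * u := by rw [abs_mul, abs_of_nonneg hu0]
          _ ≤ (L * d) * 1 := mul_le_mul hb hu1 hu0 (by positivity)
          _ = L * d := mul_one _
      have h5 : 0 ≤ (2 * c * d - L) ^ 2 / (4 * c) := by positivity
      have h6 : (2 * c * d - L) ^ 2 / (4 * c) = c * d ^ 2 - L * d + L ^ 2 / (4 * c) := by
        field_simp
        ring
      linarith
    have h7 : θ * u ≤ T := by nlinarith
    have h8 : t * u ^ 2 ≤ t := by nlinarith [mul_nonneg ht.le hu0]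
    nlinarith
  · have h3 : t * u ^ 2 ≤ Θ * u ^ 2 := mul_le_mul_of_nonneg_right htΘ (sq_nonneg _)
    have h4 : 0 ≤ c * d ^ 2 := by positivity
    nlinarith

end Bdd

open Step Bdd in
/-- Module BDD. -/
theorem bdd_thm (h1 : API1) : BDD := by
  intro A B c L r Θ θ T t₀ hP hp
  have hL : 0 < L := hP.c_pos.trans_le hP.c_le
  set K : ℝ := t₀ + T + L ^ 2 / (4 * c) with hK
  set S : Set E3 := Metric.ball (0 : E3) r with hS
  have hSm : MeasurableSet S := Metric.isOpen_ball.measurableSet
  have hSf : volume S ≠ ⊤ := Metric.isBounded_ball.measure_lt_top.ne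
  have hSi : Integrable (S.indicator (fun _ : E3 => (1 : ℝ))) :=
    (integrable_indicator_iff hSm).2 (integrableOn_const hSf)
  refine ⟨K * (∫ x, S.indicator (fun _ : E3 => (1 : ℝ)) x) / t₀, ?_⟩
  intro m hm v u G hv hSt hvu hu0 hu1
  obtain ⟨hH, hE⟩ := hSt
  have hu : MemLp u 2 := hH.memf
  have hG : MemLp G 2 := hH.memG
  have hF : MemLp (fun x => B x (G x) - Θ x * u x + θ x - m * (u x - v x)) 2 :=
    (((memB hP hG).sub (memTheta hp hu)).add (memtheta hp)).sub ((hu.sub hv).const_mul m)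
  have i1 : Integrable (fun x => ⟪A x (G x), G x⟫) := by
    have h2 := L2.integrable_inner (𝕜 := ℝ) (memA hP hG).toLp hG.toLp
    refine h2.congr ?_
    filter_upwards [(memA hP hG).coeFn_toLp, hG.coeFn_toLp] with x e1 e2
    rw [e1, e2]
  have i2 : Integrable (fun x => (B x (G x) - Θ x * u x + θ x - m * (u x - v x)) * u x) :=
    hF.integrable_mul hu
  have i3 : Integrable (fun x => t₀ * u x ^ 2) := by
    have := (memLp_two_iff_integrable_sq hu.1).1 hu
    exact this.const_mul _
  have h0 := hE u G hH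
  have key : t₀ * sq u ≤ K * (∫ x, S.indicator (fun _ : E3 => (1 : ℝ)) x) := by
    calc t₀ * sq u = ∫ x, t₀ * u x ^ 2 := by rw [sq, integral_const_mul]
      _ ≤ ∫ x, (K * S.indicator (fun _ : E3 => (1 : ℝ)) x + (⟪A x (G x), G x⟫
          - (B x (G x) - Θ x * u x + θ x - m * (u x - v x)) * u x)) := by
        refine integral_mono_ae i3 ((hSi.const_mul K).add (i1.sub i2)) ?_
        filter_upwards [hvu, hu0, hu1] with x hx1 hx2 hx3
        have hmono := hP.mono x (G x) 0
        rw [hP.A_zero, sub_zero, sub_zero] at hmono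
        have hB := hP.lipB x (G x) 0
        rw [hP.B_zero, sub_zero, sub_zero] at hB
        refine pt (d := ‖G x‖) hP.c_pos hp.t₀_pos ?_ (hp.bdd x) (hp.nonneg x) (hp.le x) hm hx1 hx2
          hx3 (norm_nonneg _) hL.le hmono hB
        by_cases hx : x ∈ S
        · left
          simp [hx]
        · right
          have hr : r ≤ ‖x‖ := by
            rw [hS, mem_ball_zero_iff, not_lt] at hx
            exact hx
          exact ⟨by simp [hx], hP.suppB x _ hr, hp.outθ x hr, hp.outΘ x hr⟩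
      _ = K * (∫ x, S.indicator (fun _ : E3 => (1 : ℝ)) x) := by
        have e1 : ∫ x, (⟪A x (G x), G x⟫
            - (B x (G x) - Θ x * u x + θ x - m * (u x - v x)) * u x) = 0 := by
          rw [integral_sub i1 i2, h0, sub_self]
        have e2 := integral_add (hSi.const_mul K) (i1.sub i2)
        simp only [Pi.sub_apply] at e2
        rw [e2, e1, integral_const_mul, add_zero]
  rw [le_div_iff₀ hp.t₀_pos]
  linarith

end Pool.Agent.PFlow.PB


end

section

/-!
# Block P, module LIMEQ: the equation in nondivergence form passes to the limit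
-/

open MeasureTheory Filter Topology Set
open scoped ContDiff RealInnerProductSpace ENNReal

namespace Pool.Agent.PFlow.PB

open Pool.Agent.PenroseSph Pool.Agent.PFlow

namespace LimEq

/-- Cauchy-Schwarz. -/
lemma cs {f g : E3 → ℝ} (hf : MemLp f 2) (hg : MemLp g 2) :
    |∫ x, f x * g x| ≤ √(sq f) * √(sq g) := by
  have h1 := abs_real_inner_le_norm hg.toLp hf.toLp
  have h2 : ⟪hg.toLp, hf.toLp⟫ = ∫ x, f x * g x := by
    rw [L2.inner_def]
    refine integral_congr_ae ?_
    filter_upwards [hf.coeFn_toLp, hg.coeFn_toLp] with x e1 e2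
    rw [e1, e2]
    simp only [RCLike.inner_apply, conj_trivial]
  have h3 : ∀ {u : E3 → ℝ} (hu : MemLp u 2), ‖hu.toLp‖ = √(sq u) := by
    intro u hu
    have h4 : sq u = ‖hu.toLp‖ ^ 2 := by
      rw [← Step.sq_lp]
      unfold sq
      refine integral_congr_ae ?_
      filter_upwards [hu.coeFn_toLp] with x e1
      rw [e1]
    rw [h4, Real.sqrt_sq (norm_nonneg _)]
  rw [h2, h3 hf, h3 hg, mul_comm] at h1
  exact h1

lemma memLp_bdd {S : Set E3} (hS : MeasurableSet S) (hv : volume S < ⊤) {a : E3 → ℝ} {C : ℝ}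
    (ha : AEStronglyMeasurable a (volume.restrict S)) (hb : ∀ᵐ x ∂(volume.restrict S), |a x| ≤ C) :
    MemLp (S.indicator a) 2 := by
  have : IsFiniteMeasure (volume.restrict S) := ⟨by
    rw [Measure.restrict_apply_univ]
    exact hv⟩
  rw [memLp_indicator_iff_restrict hS]
  exact MemLp.of_bound ha C hb

/-- Bounded convergent times weakly convergent. -/
lemma key {S : Set E3} (hS : MeasurableSet S) (hv : volume S < ⊤) {a : ℕ → E3 → ℝ} {a₀ : E3 → ℝ}
    {C : ℝ} (ha : ∀ n, AEStronglyMeasurable (a n) (volume.restrict S))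
    (hb : ∀ n, ∀ᵐ x ∂(volume.restrict S), |a n x| ≤ C)
    (hl : ∀ᵐ x ∂(volume.restrict S), Tendsto (fun n => a n x) atTop (𝓝 (a₀ x)))
    {m : ℕ → E3 → ℝ} {m₀ : E3 → ℝ} {C' : ℝ} (hm : ∀ n, MemLp (m n) 2)
    (hmC : ∀ n, sq (m n) ≤ C')
    (hw : ∀ ψ : E3 → ℝ, MemLp ψ 2 →
      Tendsto (fun n => ∫ x, ψ x * m n x) atTop (𝓝 (∫ x, ψ x * m₀ x))) :
    Tendsto (fun n => ∫ x in S, a n x * m n x) atTop (𝓝 (∫ x in S, a₀ x * m₀ x)) := by
  have hfin : IsFiniteMeasure (volume.restrict S) := ⟨by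
    rw [Measure.restrict_apply_univ]
    exact hv⟩
  have ha₀ : AEStronglyMeasurable a₀ (volume.restrict S) :=
    aestronglyMeasurable_of_tendsto_ae atTop ha hl
  have hb₀ : ∀ᵐ x ∂(volume.restrict S), |a₀ x| ≤ C := by
    filter_upwards [hl, ae_all_iff.mpr hb] with x h1 h2
    exact le_of_tendsto h1.abs (Eventually.of_forall h2)
  have hψ := memLp_bdd hS hv ha₀ hb₀
  have hψn := fun n => memLp_bdd hS hv (ha n) (hb n)
  have hrw : ∀ (u v : E3 → ℝ), ∫ x in S, u x * v x = ∫ x, S.indicator u x * v x := by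
    intro u v
    rw [← integral_indicator hS]
    refine integral_congr_ae (Eventually.of_forall fun x => ?_)
    show S.indicator (fun x => u x * v x) x = _
    rw [Set.indicator_mul_left]
  rw [hrw]
  have h1 := hw _ hψ
  have h2 : Tendsto (fun n => sq (fun x => S.indicator (a n) x - S.indicator a₀ x)) atTop
      (𝓝 0) := by
    have h3 : Tendsto (fun n => ∫ x in S, (a n x - a₀ x) ^ 2) atTop (𝓝 (∫ x in S, (0 : ℝ))) := by
      refine tendsto_integral_of_dominated_convergence (fun _ => (2 * C) ^ 2) ?_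
        (integrable_const _) ?_ ?_
      · intro n
        exact ((ha n).sub ha₀).pow 2
      · intro n
        filter_upwards [hb n, hb₀] with x e1 e2
        rw [Real.norm_eq_abs, abs_of_nonneg (sq_nonneg _)]
        refine sq_le_sq' ?_ ?_
        · linarith [(abs_le.mp e1).1, (abs_le.mp e2).2]
        · linarith [(abs_le.mp e1).2, (abs_le.mp e2).1]
      · filter_upwards [hl] with x e1
        have e2 := (e1.sub_const (a₀ x)).pow 2
        simpa using e2
    rw [integral_zero] at h3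
    refine h3.congr fun n => ?_
    unfold sq
    rw [← integral_indicator hS]
    refine integral_congr_ae (Eventually.of_forall fun x => ?_)
    by_cases hx : x ∈ S
    · simp [hx]
    · simp [hx]
  have h4 : Tendsto (fun n => ∫ x, (S.indicator (a n) x - S.indicator a₀ x) * m n x) atTop
      (𝓝 0) := by
    have h5 : Tendsto (fun n => √(sq (fun x => S.indicator (a n) x - S.indicator a₀ x)) * √C')
        atTop (𝓝 0) := by
      have h6 := ((Real.continuous_sqrt.tendsto 0).comp h2).mul_const (√C')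
      simpa using h6
    refine squeeze_zero_norm (fun n => ?_) h5
    rw [Real.norm_eq_abs]
    refine (cs ((hψn n).sub hψ) (hm n)).trans ?_
    exact mul_le_mul_of_nonneg_left (Real.sqrt_le_sqrt (hmC n)) (Real.sqrt_nonneg _)
  have h7 := h4.add h1
  rw [zero_add] at h7
  refine h7.congr fun n => ?_
  rw [hrw, ← integral_add]
  · refine integral_congr_ae (Eventually.of_forall fun x => ?_)
    show (S.indicator (a n) x - S.indicator a₀ x) * m n x + S.indicator a₀ x * m n x = _
    ring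
  · exact (((hψn n).sub hψ).integrable_mul (hm n))
  · exact (hψ.integrable_mul (hm n))

end LimEq

open LimEq in
/-- Module LIMEQ. -/
theorem limeq_thm : LIMEQ := by
  intro U G M F N α β α₀ β₀ C hU hM hN hG hF hMC hGC hGF hMw heq hαm hβm hαb hβb hlim
  -- representatives
  have hC : 0 ≤ C := (abs_nonneg _).trans (hαb 0 0 0 0 0)
  set F' : E3 → E3 := hF.aestronglyMeasurable.mk F with hF'
  have hF'm : Measurable F' := hF.aestronglyMeasurable.stronglyMeasurable_mk.measurable
  have hFF' : F =ᵐ[volume] F' := hF.aestronglyMeasurable.ae_eq_mk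
  set G' : ℕ → E3 → E3 := fun n => (hG n).aestronglyMeasurable.mk (G n) with hG'
  have hG'm : ∀ n, Measurable (G' n) := fun n =>
    (hG n).aestronglyMeasurable.stronglyMeasurable_mk.measurable
  have hGG' : ∀ n, G n =ᵐ[volume] G' n := fun n => (hG n).aestronglyMeasurable.ae_eq_mk
  set E : E3 → ℝ := fun x => (∑ i, ∑ j, α₀ x (F' x) i j * N i x j) + β₀ x (F' x) with hE
  -- the sets
  set D : ℕ → Set E3 := fun k => {x | x ∈ U ∧ F' x ≠ 0 ∧ ∀ n, ‖G' n x‖ ≤ k} with hD
  have hDm : ∀ k, MeasurableSet (D k) := by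
    intro k
    refine hU.measurableSet.inter (MeasurableSet.inter ?_ ?_)
    · exact (hF'm (measurableSet_singleton 0)).compl
    · have : {x | ∀ n, ‖G' n x‖ ≤ k} = ⋂ n, {x | ‖G' n x‖ ≤ k} := by
        ext x
        simp
      have h2 : MeasurableSet {x | ∀ n, ‖G' n x‖ ≤ k} := by
        rw [this]
        exact MeasurableSet.iInter fun n => measurableSet_le (hG'm n).norm measurable_const
      exact h2
  have hlimD : ∀ᵐ x, F' x ≠ 0 →
      (∀ i j, Tendsto (fun n => α n x (G' n x) i j) atTop (𝓝 (α₀ x (F' x) i j))) ∧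
      Tendsto (fun n => β n x (G' n x)) atTop (𝓝 (β₀ x (F' x))) := by
    filter_upwards [hGF, hFF', ae_all_iff.mpr hGG'] with x h1 h2 h3 h4
    refine hlim x (F' x) (fun n => G' n x) h4 ?_
    rw [← h2]
    refine h1.congr fun n => ?_
    rw [h3 n]
  have hMij : ∀ n i j, MemLp (fun x => M n i x j) 2 := fun n i j =>
    (EuclideanSpace.proj (𝕜 := ℝ) j).comp_memLp' (hM n i)
  have hNij : ∀ i j, MemLp (fun x => N i x j) 2 := fun i j =>
    (EuclideanSpace.proj (𝕜 := ℝ) j).comp_memLp' (hN i)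
  have hsqM : ∀ n i j, sq (fun x => M n i x j) ≤ C := by
    intro n i j
    have h1 : sq (fun x => M n i x j) ≤ sqv (M n i) := by
      refine integral_mono (hMij n i j).integrable_sq
        ((hM n i).integrable_norm_pow (by norm_num)) fun x => ?_
      have h2 : |M n i x j| ≤ ‖M n i x‖ := by
        rw [← Real.norm_eq_abs]
        exact PiLp.norm_apply_le _ _
      show (M n i x j) ^ 2 ≤ ‖M n i x‖ ^ 2
      rw [← sq_abs]
      exact pow_le_pow_left₀ (abs_nonneg _) h2 2
    refine h1.trans (le_trans ?_ (hMC n))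
    exact Finset.single_le_sum (f := fun i => sqv (M n i))
      (fun i _ => integral_nonneg fun x => sq_nonneg _) (Finset.mem_univ i)
  -- the claim on each of the sets
  have hclaim : ∀ k, ∀ᵐ x ∂(volume.restrict (D k)), E x = 0 := by
    intro k
    have hsets : ∀ s : Set E3, MeasurableSet s → (volume.restrict (D k)) s < ⊤ →
        IntegrableOn E s (volume.restrict (D k)) ∧
        ∫ x in s, E x ∂(volume.restrict (D k)) = 0 := by
      intro s hs hvs
      rw [Measure.restrict_apply hs] at hvs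
      set S := s ∩ D k with hSd
      have hS : MeasurableSet S := hs.inter (hDm k)
      have hfin : IsFiniteMeasure (volume.restrict S) := ⟨by
        rw [Measure.restrict_apply_univ]
        exact hvs⟩
      have hrr : (volume.restrict (D k)).restrict s = volume.restrict S := by
        rw [Measure.restrict_restrict hs]
      rw [IntegrableOn, hrr]
      have hDS : ∀ᵐ x ∂(volume.restrict S), x ∈ D k := by
        filter_upwards [ae_restrict_mem hS] with x hx
        exact hx.2
      have hlS : ∀ᵐ x ∂(volume.restrict S),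
          (∀ i j, Tendsto (fun n => α n x (G' n x) i j) atTop (𝓝 (α₀ x (F' x) i j))) ∧
          Tendsto (fun n => β n x (G' n x)) atTop (𝓝 (β₀ x (F' x))) := by
        filter_upwards [hDS, ae_restrict_of_ae hlimD] with x h1 h2
        exact h2 h1.2.1
      have hαsm : ∀ n i j, AEStronglyMeasurable (fun x => α n x (G' n x) i j)
          (volume.restrict S) := fun n i j =>
        ((hαm n i j).comp (measurable_id.prodMk (hG'm n))).aestronglyMeasurable
      have hβsm : ∀ n, AEStronglyMeasurable (fun x => β n x (G' n x))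
          (volume.restrict S) := fun n =>
        ((hβm n).comp (measurable_id.prodMk (hG'm n))).aestronglyMeasurable
      have hαb' : ∀ n i j, ∀ᵐ x ∂(volume.restrict S), |α n x (G' n x) i j| ≤ C := fun n i j =>
        Eventually.of_forall fun x => hαb n x _ i j
      have hβb' : ∀ n, ∀ᵐ x ∂(volume.restrict S), ‖β n x (G' n x)‖ ≤ C * k := by
        intro n
        filter_upwards [hDS] with x hx
        exact (hβb n x _).trans (mul_le_mul_of_nonneg_left (hx.2.2 n) hC)
      have hα₀m : ∀ i j, AEStronglyMeasurable (fun x => α₀ x (F' x) i j)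
          (volume.restrict S) := fun i j =>
        aestronglyMeasurable_of_tendsto_ae atTop (fun n => hαsm n i j)
          (hlS.mono fun x hx => hx.1 i j)
      have hβ₀m : AEStronglyMeasurable (fun x => β₀ x (F' x)) (volume.restrict S) :=
        aestronglyMeasurable_of_tendsto_ae atTop hβsm (hlS.mono fun x hx => hx.2)
      have hα₀b : ∀ i j, ∀ᵐ x ∂(volume.restrict S), |α₀ x (F' x) i j| ≤ C := by
        intro i j
        filter_upwards [hlS] with x hx
        exact le_of_tendsto (hx.1 i j).abs (Eventually.of_forall fun n => hαb n x _ i j)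
      have hβ₀b : ∀ᵐ x ∂(volume.restrict S), ‖β₀ x (F' x)‖ ≤ C * k := by
        filter_upwards [hlS, ae_all_iff.mpr hβb'] with x hx hx'
        exact le_of_tendsto hx.2.norm (Eventually.of_forall hx')
      have hintMN : ∀ {a m : E3 → ℝ}, AEStronglyMeasurable a (volume.restrict S) →
          (∀ᵐ x ∂(volume.restrict S), |a x| ≤ C) → MemLp m 2 →
          Integrable (fun x => a x * m x) (volume.restrict S) := by
        intro a m h1 h2 h3
        have h4 : Integrable m (volume.restrict S) :=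
          (h3.restrict S).integrable (by norm_num)
        exact h4.bdd_mul h1 h2
      have hiE : Integrable E (volume.restrict S) := by
        refine Integrable.add ?_ ?_
        · exact integrable_finsetSum _ fun i _ => integrable_finsetSum _ fun j _ =>
            hintMN (hα₀m i j) (hα₀b i j) (hNij i j)
        · exact Integrable.of_bound hβ₀m (C * k) hβ₀b
      refine ⟨hiE, ?_⟩
      have hzero : ∀ n, (∑ i, ∑ j, ∫ x in S, α n x (G' n x) i j * M n i x j)
          + ∫ x in S, β n x (G' n x) = 0 := by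
        intro n
        have h1 : ∫ x in S, ((∑ i, ∑ j, α n x (G' n x) i j * M n i x j) + β n x (G' n x))
            = 0 := by
          refine integral_eq_zero_of_ae ?_
          filter_upwards [hDS, ae_restrict_of_ae (heq n), ae_restrict_of_ae (hGG' n)] with x e1 e2 e3
          rw [← e3]
          exact e2 e1.1
        rw [integral_add, integral_finsetSum] at h1
        · rw [← h1]
          congr 1
          refine Finset.sum_congr rfl fun i _ => ?_
          rw [integral_finsetSum]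
          intro j _
          exact hintMN (hαsm n i j) (hαb' n i j) (hMij n i j)
        · exact fun i _ => integrable_finsetSum _ fun j _ =>
            hintMN (hαsm n i j) (hαb' n i j) (hMij n i j)
        · exact integrable_finsetSum _ fun i _ => integrable_finsetSum _ fun j _ =>
            hintMN (hαsm n i j) (hαb' n i j) (hMij n i j)
        · exact Integrable.of_bound (hβsm n) (C * k) (hβb' n)
      have hlimit : Tendsto (fun n => (∑ i, ∑ j, ∫ x in S, α n x (G' n x) i j * M n i x j)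
          + ∫ x in S, β n x (G' n x)) atTop
          (𝓝 ((∑ i, ∑ j, ∫ x in S, α₀ x (F' x) i j * N i x j) + ∫ x in S, β₀ x (F' x))) := by
        refine Tendsto.add (tendsto_finsetSum _ fun i _ => tendsto_finsetSum _ fun j _ => ?_) ?_
        · exact key hS hvs (fun n => hαsm n i j) (fun n => hαb' n i j)
            (hlS.mono fun x hx => hx.1 i j) (fun n => hMij n i j) (fun n => hsqM n i j)
            (fun ψ hψ => hMw ψ hψ i j)
        · exact tendsto_integral_of_dominated_convergence (fun _ => C * k) hβsm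
            (integrable_const _) hβb' (hlS.mono fun x hx => hx.2)
      have h0 : (∑ i, ∑ j, ∫ x in S, α₀ x (F' x) i j * N i x j) + ∫ x in S, β₀ x (F' x) = 0 :=
        tendsto_nhds_unique hlimit (by simp [hzero])
      rw [← h0, hE]
      beta_reduce
      rw [integral_add, integral_finsetSum]
      · congr 1
        refine Finset.sum_congr rfl fun i _ => ?_
        rw [integral_finsetSum]
        intro j _
        exact hintMN (hα₀m i j) (hα₀b i j) (hNij i j)
      · exact fun i _ => integrable_finsetSum _ fun j _ =>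
          hintMN (hα₀m i j) (hα₀b i j) (hNij i j)
      · exact integrable_finsetSum _ fun i _ => integrable_finsetSum _ fun j _ =>
          hintMN (hα₀m i j) (hα₀b i j) (hNij i j)
      · exact Integrable.of_bound hβ₀m (C * k) hβ₀b
    exact ae_eq_zero_of_forall_setIntegral_eq_of_sigmaFinite (fun s hs hvs => (hsets s hs hvs).1)
      (fun s hs hvs => (hsets s hs hvs).2)
  have hall : ∀ᵐ x, ∀ k, x ∈ D k → E x = 0 := by
    rw [ae_all_iff]
    intro k
    exact (ae_restrict_iff' (hDm k)).mp (hclaim k)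
  filter_upwards [hall, hGF, hFF', ae_all_iff.mpr hGG'] with x h1 h2 h3 h4 hxU hxF
  have h5 : Tendsto (fun n => ‖G n x‖) atTop (𝓝 ‖F x‖) := h2.norm
  obtain ⟨R, hR⟩ := h5.bddAbove_range
  obtain ⟨k, hk⟩ := exists_nat_ge R
  have h6 : x ∈ D k := by
    refine ⟨hxU, ?_, fun n => ?_⟩
    · rw [← h3]
      exact hxF
    · rw [← h4 n]
      exact (hR ⟨n, rfl⟩).trans hk
  have h7 := h1 k h6
  rw [hE] at h7
  simp only [← h3] at h7
  exact h7

end Pool.Agent.PFlow.PB


end

section

/-!
# Block P, module ORDER: comparison for the problem with the additional term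
-/

open MeasureTheory Filter Topology Set
open scoped ContDiff RealInnerProductSpace ENNReal

namespace Pool.Agent.PFlow.PB

open Pool.Agent.PenroseSph Pool.Agent.PFlow

namespace OrderP

/-- The derivative of the test function. -/
noncomputable def psi (t : ℝ) : ℝ := min (max t 0) 1

/-- The test function, convex, with `Psi t = 0` for `t ≤ 0`. -/
noncomputable def Psi (t : ℝ) : ℝ := ∫ s in (0 : ℝ)..t, psi s

lemma psi_cont : Continuous psi := (continuous_id.max continuous_const).min continuous_const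

lemma psi_mono : Monotone psi := by
  intro s t h
  exact min_le_min_right _ (max_le_max_right _ h)

lemma psi_nonneg (t : ℝ) : 0 ≤ psi t := le_min (le_max_right _ _) zero_le_one

lemma psi_le_one (t : ℝ) : psi t ≤ 1 := min_le_right _ _

lemma psi_nonpos {t : ℝ} (h : t ≤ 0) : psi t = 0 := by
  unfold psi
  rw [max_eq_right h]
  norm_num

lemma psi_pos {t : ℝ} (h : 0 < t) : 0 < psi t := by
  unfold psi
  rw [max_eq_left h.le]
  exact lt_min h one_pos

lemma hasDeriv_Psi (t : ℝ) : HasDerivAt Psi (psi t) t :=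
  (psi_cont.integral_hasStrictDerivAt 0 t).hasDerivAt

lemma deriv_Psi (t : ℝ) : deriv Psi t = psi t := (hasDeriv_Psi t).deriv

lemma contDiff_Psi : ContDiff ℝ 1 Psi := by
  rw [contDiff_one_iff_deriv]
  refine ⟨fun t => (hasDeriv_Psi t).differentiableAt, ?_⟩
  have : deriv Psi = psi := funext deriv_Psi
  rw [this]
  exact psi_cont

lemma Psi_nonpos {t : ℝ} (h : t ≤ 0) : Psi t = 0 := by
  unfold Psi
  rw [intervalIntegral.integral_symm, intervalIntegral.integral_of_le h]
  have : ∫ s in Set.Ioc t 0, psi s = 0 := by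
    rw [setIntegral_congr_fun (g := fun _ => (0 : ℝ)) measurableSet_Ioc
      (fun s hs => psi_nonpos hs.2)]
    simp
  rw [this, neg_zero]

lemma Psi_pos {t : ℝ} (h : 0 < t) : 0 < Psi t := by
  unfold Psi
  refine intervalIntegral.intervalIntegral_pos_of_pos_on (psi_cont.intervalIntegrable _ _) ?_ h
  intro s hs
  exact psi_pos hs.1

lemma Psi_le {t : ℝ} (h : 0 ≤ t) : Psi t ≤ t * psi t := by
  unfold Psi
  have h1 : ∫ s in (0 : ℝ)..t, psi s ≤ ∫ _ in (0 : ℝ)..t, psi t :=
    intervalIntegral.integral_mono_on h (psi_cont.intervalIntegrable _ _)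
      (continuous_const.intervalIntegrable _ _) (fun s hs => psi_mono hs.2)
  rw [intervalIntegral.integral_const, sub_zero, smul_eq_mul] at h1
  exact h1

lemma key {c L m t d : ℝ} (hc : 0 < c) (hm : L ^ 2 / c + 1 ≤ m) (ht : 0 < t) :
    0 < c * d ^ 2 * psi t - L * d * Psi t + m * t * Psi t := by
  have hq := psi_pos ht
  have hP := Psi_pos ht
  obtain ⟨s, hs⟩ : ∃ s, s = Psi t / psi t := ⟨_, rfl⟩
  have hPs : Psi t = s * psi t := by rw [hs, div_mul_cancel₀ _ hq.ne']
  have hs0 : 0 < s := by rw [hs]; exact div_pos hP hq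
  have hst : s ≤ t := by
    rw [hs, div_le_iff₀ hq]
    exact Psi_le ht.le
  have h1 : 0 ≤ psi t / (4 * c) * (2 * c * d - L * s) ^ 2 := by positivity
  have h2 : psi t / (4 * c) * (2 * c * d - L * s) ^ 2
      = c * d ^ 2 * psi t - L * d * Psi t + L ^ 2 / (4 * c) * s * Psi t := by
    rw [hPs]
    field_simp
    ring
  have h3 : L ^ 2 / (4 * c) * s * Psi t ≤ L ^ 2 / c * t * Psi t := by
    have e1 : L ^ 2 / (4 * c) ≤ L ^ 2 / c := by
      apply div_le_div_of_nonneg_left (sq_nonneg _) hc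
      linarith
    have e2 : L ^ 2 / (4 * c) * s ≤ L ^ 2 / c * t :=
      mul_le_mul e1 hst hs0.le (by positivity)
    exact mul_le_mul_of_nonneg_right e2 hP.le
  have h4 : (L ^ 2 / c + 1) * t * Psi t ≤ m * t * Psi t := by
    apply mul_le_mul_of_nonneg_right _ hP.le
    exact mul_le_mul_of_nonneg_right hm ht.le
  have h5 : 0 < t * Psi t := mul_pos ht hP
  nlinarith

lemma int_inner {F G : E3 → E3} (hF : MemLp F 2) (hG : MemLp G 2) :
    Integrable (fun x => ⟪F x, G x⟫) := by
  refine (L2.integrable_inner (hF.toLp F) (hG.toLp G) (𝕜 := ℝ)).congr ?_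
  filter_upwards [hF.coeFn_toLp, hG.coeFn_toLp] with x h1 h2
  rw [h1, h2]

/-- The common argument. -/
lemma core (hc : CHAIN) {c L m k : ℝ} (hc0 : 0 < c) (hm : L ^ 2 / c + 1 ≤ m) (hk : 0 ≤ k)
    {w : E3 → ℝ} {W a : E3 → E3} {b : E3 → ℝ} (hw : H1 w W) (ha : MemLp a 2) (hb : MemLp b 2)
    (hE : ∀ φ Φ, H1 φ Φ → ∫ x, ⟪a x, Φ x⟫ = ∫ x, b x * φ x)
    (hA : ∀ᵐ x, c * ‖W x‖ ^ 2 ≤ ⟪a x, W x⟫)
    (hB : ∀ᵐ x, k < w x → b x ≤ L * ‖W x‖ - m * (w x - k)) : ∀ᵐ x, w x ≤ k := by
  have hd : ∀ t, deriv (fun t => Psi (t - k)) t = psi (t - k) := by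
    intro t
    have := ((hasDeriv_Psi (t - k)).comp t ((hasDerivAt_id t).sub_const k)).deriv
    rw [mul_one] at this
    exact this
  have hH := hc.lip w W (fun t => Psi (t - k)) 1 hw
    (contDiff_Psi.comp (contDiff_id.sub contDiff_const)) (Psi_nonpos (by linarith)) (by
      intro t
      rw [hd, abs_of_nonneg (psi_nonneg _)]
      exact psi_le_one _)
  simp only [hd] at hH
  have hint := hE _ _ hH
  have i1 := int_inner ha hH.memG
  have i2 := int_mul _ _ hb hH.memf
  have hzero : ∫ x, (⟪a x, psi (w x - k) • W x⟫ - b x * Psi (w x - k)) = 0 := by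
    rw [integral_sub i1 i2, hint, sub_self]
  have hpt : ∀ᵐ x, 0 ≤ ⟪a x, psi (w x - k) • W x⟫ - b x * Psi (w x - k) ∧
      (k < w x → 0 < ⟪a x, psi (w x - k) • W x⟫ - b x * Psi (w x - k)) := by
    filter_upwards [hA, hB] with x hx1 hx2
    have hpos : k < w x → 0 < ⟪a x, psi (w x - k) • W x⟫ - b x * Psi (w x - k) := by
      intro hkx
      have h1 : 0 < w x - k := by linarith
      have h2 := key (d := ‖W x‖) hc0 hm h1
      have h3 := hx2 hkx
      have h4 := psi_pos h1
      have h5 := Psi_pos h1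
      rw [real_inner_smul_right]
      have h6 : c * ‖W x‖ ^ 2 * psi (w x - k) ≤ psi (w x - k) * ⟪a x, W x⟫ := by
        rw [mul_comm]
        exact mul_le_mul_of_nonneg_left hx1 h4.le
      have h7 : b x * Psi (w x - k) ≤ (L * ‖W x‖ - m * (w x - k)) * Psi (w x - k) :=
        mul_le_mul_of_nonneg_right h3 h5.le
      nlinarith
    refine ⟨?_, hpos⟩
    by_cases hkx : k < w x
    · exact (hpos hkx).le
    · rw [not_lt] at hkx
      rw [psi_nonpos (by linarith), Psi_nonpos (by linarith)]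
      simp
  have hnn : 0 ≤ᵐ[volume] fun x => ⟪a x, psi (w x - k) • W x⟫ - b x * Psi (w x - k) := by
    filter_upwards [hpt] with x hx
    exact hx.1
  have hz := (integral_eq_zero_iff_of_nonneg_ae hnn (i1.sub i2)).mp hzero
  filter_upwards [hpt, hz] with x hx hx0
  by_contra hcon
  rw [not_le] at hcon
  have := hx.2 hcon
  change _ = (0 : ℝ) at hx0
  linarith

end OrderP

open OrderP Step

theorem order_thm (h1 : API1) (hc : CHAIN) : ORDER where
  mono := by
    intro A B c L r Θ θ T t₀ hP hp m hm v₁ v₂ u₁ u₂ G₁ G₂ hv₁ hv₂ hs₁ hs₂ hv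
    obtain ⟨hu₁, he₁⟩ := hs₁
    obtain ⟨hu₂, he₂⟩ := hs₂
    have hmp : 0 < m := by
      have := hP.c_pos
      have : 0 ≤ L ^ 2 / c := by positivity
      linarith
    have ma₁ := memA hP hu₁.memG
    have ma₂ := memA hP hu₂.memG
    have mb₁ : MemLp (fun x => B x (G₁ x) - Θ x * u₁ x + θ x - m * (u₁ x - v₁ x)) 2 :=
      ((((memB hP hu₁.memG).sub (memTheta hp hu₁.memf)).add (memtheta hp)).sub
        ((hu₁.memf.sub hv₁).const_mul m))
    have mb₂ : MemLp (fun x => B x (G₂ x) - Θ x * u₂ x + θ x - m * (u₂ x - v₂ x)) 2 :=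
      ((((memB hP hu₂.memG).sub (memTheta hp hu₂.memf)).add (memtheta hp)).sub
        ((hu₂.memf.sub hv₂).const_mul m))
    have := core hc (L := L) hP.c_pos hm le_rfl (h1.sub _ _ _ _ hu₁ hu₂) (ma₁.sub ma₂)
      (mb₁.sub mb₂) (by
        intro φ Φ hφ
        have e1 : ∫ x, ⟪((fun x => A x (G₁ x)) - fun x => A x (G₂ x)) x, Φ x⟫
            = ∫ x, (⟪A x (G₁ x), Φ x⟫ - ⟪A x (G₂ x), Φ x⟫) := by
          refine integral_congr_ae (Eventually.of_forall fun x => ?_)
          simp only [Pi.sub_apply]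
          rw [inner_sub_left]
        rw [e1, integral_sub (int_inner ma₁ hφ.memG) (int_inner ma₂ hφ.memG), he₁ φ Φ hφ,
          he₂ φ Φ hφ, ← integral_sub (int_mul _ _ mb₁ hφ.memf) (int_mul _ _ mb₂ hφ.memf)]
        refine integral_congr_ae (Eventually.of_forall fun x => ?_)
        simp only [Pi.sub_apply]
        ring) (Eventually.of_forall fun x => hP.mono x _ _) (by
        filter_upwards [hv] with x hx hpos
        simp only [Pi.sub_apply]
        have h2 := (le_abs_self _).trans (hP.lipB x (G₁ x) (G₂ x))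
        have h3 := (hp.nonneg x).trans (hp.le x)
        have h4 : 0 ≤ Θ x * (u₁ x - u₂ x) := mul_nonneg h3 hpos.le
        have h5 : 0 ≤ m * (v₂ x - v₁ x) := mul_nonneg hmp.le (by linarith)
        nlinarith)
    filter_upwards [this] with x hx
    linarith
  nonneg := by
    intro A B c L r Θ θ T t₀ hP hp m hm v u G hv hs hvn
    obtain ⟨hu, he⟩ := hs
    have hmp : 0 < m := by
      have := hP.c_pos
      have : 0 ≤ L ^ 2 / c := by positivity
      linarith
    have ma := memA hP hu.memG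
    have mb : MemLp (fun x => B x (G x) - Θ x * u x + θ x - m * (u x - v x)) 2 :=
      ((((memB hP hu.memG).sub (memTheta hp hu.memf)).add (memtheta hp)).sub
        ((hu.memf.sub hv).const_mul m))
    have := core hc (L := L) hP.c_pos hm le_rfl (h1.smul (-1) _ _ hu) ma.neg mb.neg (by
        intro φ Φ hφ
        have e1 : ∫ x, ⟪(-fun x => A x (G x)) x, Φ x⟫ = - ∫ x, ⟪A x (G x), Φ x⟫ := by
          rw [← integral_neg]
          refine integral_congr_ae (Eventually.of_forall fun x => ?_)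
          simp only [Pi.neg_apply]
          rw [inner_neg_left]
        rw [e1, he φ Φ hφ, ← integral_neg]
        refine integral_congr_ae (Eventually.of_forall fun x => ?_)
        simp only [Pi.neg_apply]
        ring) (Eventually.of_forall fun x => by
          have h2 := hP.mono x (G x) 0
          rw [hP.A_zero, sub_zero, sub_zero] at h2
          simp only [Pi.neg_apply]
          rw [neg_one_smul, inner_neg_neg, norm_neg]
          exact h2) (by
        filter_upwards [hvn] with x hx hpos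
        simp only [Pi.neg_apply]
        rw [neg_one_smul, norm_neg]
        have h2 := (neg_abs_le _).trans' (neg_le_neg (hP.lipB x (G x) 0))
        rw [hP.B_zero, sub_zero, sub_zero] at h2
        have h3 := (hp.nonneg x).trans (hp.le x)
        have h4 : Θ x * u x ≤ 0 := mul_nonpos_of_nonneg_of_nonpos h3 (by linarith)
        have h5 : 0 ≤ m * v x := mul_nonneg hmp.le hx
        have h6 := hp.nonneg x
        nlinarith)
    filter_upwards [this] with x hx
    linarith
  le_one := by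
    intro A B c L r Θ θ T t₀ hP hp m hm v u G hv hs hv1
    obtain ⟨hu, he⟩ := hs
    have hmp : 0 < m := by
      have := hP.c_pos
      have : 0 ≤ L ^ 2 / c := by positivity
      linarith
    have ma := memA hP hu.memG
    have mb : MemLp (fun x => B x (G x) - Θ x * u x + θ x - m * (u x - v x)) 2 :=
      ((((memB hP hu.memG).sub (memTheta hp hu.memf)).add (memtheta hp)).sub
        ((hu.memf.sub hv).const_mul m))
    exact core hc (L := L) hP.c_pos hm zero_le_one hu ma mb he
      (Eventually.of_forall fun x => by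
          have h2 := hP.mono x (G x) 0
          rw [hP.A_zero, sub_zero, sub_zero] at h2
          exact h2) (by
        filter_upwards [hv1] with x hx hpos
        have h2 := (le_abs_self _).trans (hP.lipB x (G x) 0)
        rw [hP.B_zero, sub_zero, sub_zero] at h2
        have h3 := (hp.nonneg x).trans (hp.le x)
        have h4 : Θ x ≤ Θ x * u x := le_mul_of_one_le_right h3 hpos.le
        have h5 : 0 ≤ m * (1 - v x) := mul_nonneg hmp.le (by linarith)
        have h6 := hp.le x
        nlinarith)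

end Pool.Agent.PFlow.PB


end

section

/-!
# Module LD: the divergence of `|∇w| ∇w`, also at the critical points
-/

open MeasureTheory Filter Topology
open scoped ContDiff

namespace Pool.Agent.PFlow

open Pool.Agent.PenroseSph

namespace MLD

/-! ### Calculus -/

theorem contDiffAt_pd {f : E3 → ℝ} {x : E3} {n m : WithTop ℕ∞} (hf : ContDiffAt ℝ m f x)
    (hnm : n + 1 ≤ m) (i : Fin 3) : ContDiffAt ℝ n (pd i f) x := by
  have h1 : ContDiffAt ℝ n (fderiv ℝ f) x := hf.fderiv_right hnm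
  exact h1.clm_apply contDiffAt_const

/-- Differentiability of the determinant. -/
theorem differentiableAt_det {M : E3 → Bil} {x : E3}
    (hM : ∀ i j, DifferentiableAt ℝ (fun y => M y i j) x) :
    DifferentiableAt ℝ (fun y => (M y).det) x := by
  simp only [Matrix.det_fin_three]
  fun_prop (disch := assumption)

/-- Differentiability of the entries of the inverse matrix. -/
theorem differentiableAt_inv {M : E3 → Bil} {x : E3}
    (hM : ∀ i j, DifferentiableAt ℝ (fun y => M y i j) x) (hdet : (M x).det ≠ 0)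
    (k l : Fin 3) : DifferentiableAt ℝ (fun y => (M y)⁻¹ k l) x := by
  have hd := differentiableAt_det hM
  have ha : DifferentiableAt ℝ (fun y => (M y).adjugate k l) x := by
    simp only [Matrix.adjugate_fin_three]
    fin_cases k <;> fin_cases l <;>
      simp <;> fun_prop
  have h1 : (fun y => (M y)⁻¹ k l) = fun y => ((M y).det)⁻¹ * (M y).adjugate k l := by
    funext y
    rw [Matrix.inv_def, Ring.inverse_eq_inv', Matrix.smul_apply, smul_eq_mul]
  rw [h1]
  exact (hd.inv hdet).mul ha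

theorem pd_mul3 {f1 f2 f3 : E3 → ℝ} {x : E3} (k : Fin 3) (h1 : DifferentiableAt ℝ f1 x)
    (h2 : DifferentiableAt ℝ f2 x) (h3 : DifferentiableAt ℝ f3 x) :
    pd k (fun y => f1 y * f2 y * f3 y) x
      = pd k f1 x * f2 x * f3 x + f1 x * pd k f2 x * f3 x + f1 x * f2 x * pd k f3 x := by
  rw [pd_mul (h1.fun_mul h2) h3, pd_mul h1 h2]
  ring

/-- Jacobi's formula for a 3 by 3 matrix of functions. -/
theorem jacobi (G : TensorField) (x : E3) (k : Fin 3)
    (hd : ∀ i j, DifferentiableAt ℝ (fun y => G y i j) x) (hdet : (G x).det ≠ 0) :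
    ∑ i, ∑ l, (G x)⁻¹ i l * pd k (fun y => G y l i) x
      = pd k (fun y => (G y).det) x / (G x).det := by
  have h1 : (fun y => (G y).det) = fun y => G y 0 0 * G y 1 1 * G y 2 2 - G y 0 0 * G y 1 2 * G y 2 1
      - G y 0 1 * G y 1 0 * G y 2 2 + G y 0 1 * G y 1 2 * G y 2 0
      + G y 0 2 * G y 1 0 * G y 2 1 - G y 0 2 * G y 1 1 * G y 2 0 := by
    funext y
    exact Matrix.det_fin_three (G y)
  have d3 : ∀ a b c d e f : Fin 3, DifferentiableAt ℝ (fun y => G y a b * G y c d * G y e f) x :=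
    fun a b c d e f => ((hd a b).fun_mul (hd c d)).fun_mul (hd e f)
  have e1 := (d3 0 0 1 1 2 2).fun_sub (d3 0 0 1 2 2 1)
  have e2 := e1.fun_sub (d3 0 1 1 0 2 2)
  have e3 := e2.fun_add (d3 0 1 1 2 2 0)
  have e4 := e3.fun_add (d3 0 2 1 0 2 1)
  have hdx := Matrix.det_fin_three (G x)
  obtain ⟨p, hp⟩ : ∃ p : Fin 3 → Fin 3 → ℝ, p = fun i j => pd k (fun y => G y i j) x := ⟨_, rfl⟩
  have hp' : ∀ i j, pd k (fun y => G y i j) x = p i j := fun i j => by rw [hp]
  have h3 : pd k (fun y => (G y).det) x = (p 0 0 * G x 1 1 * G x 2 2 + G x 0 0 * p 1 1 * G x 2 2 + G x 0 0 * G x 1 1 * p 2 2)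
        - (p 0 0 * G x 1 2 * G x 2 1 + G x 0 0 * p 1 2 * G x 2 1 + G x 0 0 * G x 1 2 * p 2 1)
        - (p 0 1 * G x 1 0 * G x 2 2 + G x 0 1 * p 1 0 * G x 2 2 + G x 0 1 * G x 1 0 * p 2 2)
        + (p 0 1 * G x 1 2 * G x 2 0 + G x 0 1 * p 1 2 * G x 2 0 + G x 0 1 * G x 1 2 * p 2 0)
        + (p 0 2 * G x 1 0 * G x 2 1 + G x 0 2 * p 1 0 * G x 2 1 + G x 0 2 * G x 1 0 * p 2 1)
        - (p 0 2 * G x 1 1 * G x 2 0 + G x 0 2 * p 1 1 * G x 2 0 + G x 0 2 * G x 1 1 * p 2 0) := by
    rw [h1, pd_sub e4 (d3 0 2 1 1 2 0), pd_add e3 (d3 0 2 1 0 2 1), pd_add e2 (d3 0 1 1 2 2 0),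
      pd_sub e1 (d3 0 1 1 0 2 2), pd_sub (d3 0 0 1 1 2 2) (d3 0 0 1 2 2 1),
      pd_mul3 k (hd 0 0) (hd 1 1) (hd 2 2), pd_mul3 k (hd 0 0) (hd 1 2) (hd 2 1),
      pd_mul3 k (hd 0 1) (hd 1 0) (hd 2 2), pd_mul3 k (hd 0 1) (hd 1 2) (hd 2 0),
      pd_mul3 k (hd 0 2) (hd 1 0) (hd 2 1), pd_mul3 k (hd 0 2) (hd 1 1) (hd 2 0)]
    simp only [hp']
  rw [h3, Matrix.inv_def, Ring.inverse_eq_inv', Matrix.adjugate_fin_three]
  simp only [hp']
  rw [eq_div_iff hdet]
  simp only [Fin.sum_univ_three, Matrix.smul_apply, smul_eq_mul, Matrix.of_apply]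
  simp
  field_simp
  ring

/-! ### The metric -/

variable {U : Set E3} {g : TensorField} {w : E3 → ℝ} {x : E3}

theorem smooth_g (hU : IsOpen U) (hg : MetricOn U g) (hx : x ∈ U) (i j : Fin 3) :
    ContDiffAt ℝ ∞ (fun y => g y i j) x := (hg.smooth i j).contDiffAt (hU.mem_nhds hx)

theorem diff_g (hU : IsOpen U) (hg : MetricOn U g) (hx : x ∈ U) (i j : Fin 3) :
    DifferentiableAt ℝ (fun y => g y i j) x :=
  (smooth_g hU hg hx i j).differentiableAt (by simp)

theorem symm_g (hg : MetricOn U g) (hx : x ∈ U) (i j : Fin 3) : g x i j = g x j i := by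
  have h := (hg.posDef x hx).isHermitian.apply i j
  simpa using h.symm

theorem det_pos (hg : MetricOn U g) (hx : x ∈ U) : 0 < (g x).det := (hg.posDef x hx).det_pos

theorem symm_inv (hg : MetricOn U g) (hx : x ∈ U) (i j : Fin 3) : (g x)⁻¹ i j = (g x)⁻¹ j i := by
  have h := (hg.posDef x hx).inv.isHermitian.apply i j
  simpa using h.symm

theorem pd_symm (hU : IsOpen U) (hg : MetricOn U g) (hx : x ∈ U) (k i j : Fin 3) :
    pd k (fun y => g y i j) x = pd k (fun y => g y j i) x := by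
  apply pd_congr
  filter_upwards [hU.mem_nhds hx] with y hy
  exact symm_g hg hy i j

theorem chr_symm (hU : IsOpen U) (hg : MetricOn U g) (hx : x ∈ U) (k i j : Fin 3) :
    christoffel g k i j x = christoffel g k j i x := by
  unfold christoffel
  congr 1
  refine Finset.sum_congr rfl fun l _ => ?_
  rw [pd_symm hU hg hx l i j]
  ring

/-- Lowering the index of a Christoffel symbol. -/
theorem lower (G : TensorField) (X : E3) (hdet : (G X).det ≠ 0) (c a b : Fin 3) :
    ∑ d, G X c d * christoffel G d a b X = (1 / 2) * (pd a (fun y => G y b c) X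
      + pd b (fun y => G y a c) X - pd c (fun y => G y a b) X) := by
  have h1 : ∀ c l, ∑ d, G X c d * (G X)⁻¹ d l = if c = l then 1 else 0 := by
    intro c l
    have h2 := congrFun (congrFun (Matrix.mul_nonsing_inv (G X) (Ne.isUnit hdet)) c) l
    rw [Matrix.mul_apply, Matrix.one_apply] at h2
    exact h2
  unfold christoffel
  have h3 : ∑ d, G X c d * (1 / 2 * ∑ l, (G X)⁻¹ d l * (pd a (fun y => G y b l) X
      + pd b (fun y => G y a l) X - pd l (fun y => G y a b) X)) =
      1 / 2 * ∑ l, (∑ d, G X c d * (G X)⁻¹ d l) * (pd a (fun y => G y b l) X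
      + pd b (fun y => G y a l) X - pd l (fun y => G y a b) X) := by
    simp only [Finset.mul_sum, Finset.sum_mul]
    rw [Finset.sum_comm]
    refine Finset.sum_congr rfl fun l _ => Finset.sum_congr rfl fun d _ => ?_
    ring
  rw [h3]
  simp only [h1]
  simp

/-- The matrix `Γ^i_kl` for fixed `k`. -/
noncomputable def CC (g : TensorField) (x : E3) (k : Fin 3) : Bil :=
  Matrix.of fun i l => christoffel g i k l x

/-- The matrix of the derivatives of the metric. -/
noncomputable def dG (g : TensorField) (x : E3) (k : Fin 3) : Bil :=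
  Matrix.of fun i j => pd k (fun y => g y i j) x

theorem dG_eq (hU : IsOpen U) (hg : MetricOn U g) (hx : x ∈ U) (k : Fin 3) :
    dG g x k = g x * CC g x k + (CC g x k).transpose * g x := by
  ext i j
  rw [Matrix.add_apply, Matrix.mul_apply, Matrix.mul_apply]
  have h1 := lower g x (det_pos hg hx).ne' i k j
  have h2 := lower g x (det_pos hg hx).ne' j k i
  have h3 : ∑ d, (CC g x k).transpose i d * g x d j = ∑ d, g x j d * christoffel g d k i x := by
    refine Finset.sum_congr rfl fun d _ => ?_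
    rw [Matrix.transpose_apply, CC, Matrix.of_apply, symm_g hg hx d j, mul_comm]
  rw [h3, h2]
  change pd k (fun y => g y i j) x = ∑ d, g x i d * christoffel g d k j x + _
  rw [h1, pd_symm hU hg hx k j i]
  ring

theorem dP_eq (hU : IsOpen U) (hg : MetricOn U g) (hx : x ∈ U) (k : Fin 3) :
    (Matrix.of fun i j => pd k (fun y => (g y)⁻¹ i j) x : Bil) =
      -(CC g x k * (g x)⁻¹ + (g x)⁻¹ * (CC g x k).transpose) := by
  have hdet := (det_pos hg hx).ne'
  have hgd := diff_g hU hg hx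
  have hPd := differentiableAt_inv hgd hdet
  have h1 : (Matrix.of fun i j => pd k (fun y => (g y)⁻¹ i j) x : Bil) * g x
      + (g x)⁻¹ * dG g x k = 0 := by
    ext i j
    rw [Matrix.add_apply, Matrix.mul_apply, Matrix.mul_apply, ← Finset.sum_add_distrib,
      Matrix.zero_apply]
    have h2 : pd k (fun y => ∑ l, (g y)⁻¹ i l * g y l j) x = 0 := by
      have h3 : (fun y => ∑ l, (g y)⁻¹ i l * g y l j) =ᶠ[𝓝 x]
          fun _ => (1 : Bil) i j := by
        filter_upwards [hU.mem_nhds hx] with y hy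
        rw [← Matrix.mul_apply, Matrix.nonsing_inv_mul _ (Ne.isUnit (det_pos hg hy).ne')]
      rw [pd_congr h3, pd_const]
    rw [pd_sum Finset.univ (fun l y => (g y)⁻¹ i l * g y l j)
      (fun l _ => (hPd i l).mul (hgd l j))] at h2
    rw [← h2]
    refine Finset.sum_congr rfl fun l _ => ?_
    rw [pd_mul (hPd i l) (hgd l j)]
    simp only [Matrix.of_apply, dG]
    ring
  have hGP : g x * (g x)⁻¹ = 1 := Matrix.mul_nonsing_inv _ (Ne.isUnit hdet)
  have hPG : (g x)⁻¹ * g x = 1 := Matrix.nonsing_inv_mul _ (Ne.isUnit hdet)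
  have h4 := congrArg (fun T => T * (g x)⁻¹) h1
  simp only [Matrix.add_mul, Matrix.zero_mul] at h4
  rw [Matrix.mul_assoc, hGP, Matrix.mul_one, dG_eq hU hg hx k, Matrix.mul_add, Matrix.add_mul,
    ← Matrix.mul_assoc, hPG, Matrix.one_mul, ← Matrix.mul_assoc (g x)⁻¹, Matrix.mul_assoc _ (g x),
    hGP, Matrix.mul_one] at h4
  exact eq_neg_of_add_eq_zero_left h4

theorem dP_apply (hU : IsOpen U) (hg : MetricOn U g) (hx : x ∈ U) (k i j : Fin 3) :
    pd k (fun y => (g y)⁻¹ i j) x = -(∑ l, christoffel g i k l x * (g x)⁻¹ l j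
      + ∑ l, (g x)⁻¹ i l * christoffel g j k l x) := by
  have h := congrFun (congrFun (dP_eq hU hg hx k) i) j
  rw [Matrix.neg_apply, Matrix.add_apply, Matrix.mul_apply, Matrix.mul_apply] at h
  exact h

theorem diff_vol (hU : IsOpen U) (hg : MetricOn U g) (hx : x ∈ U) :
    DifferentiableAt ℝ (volDen g) x := by
  unfold volDen
  exact (differentiableAt_det (diff_g hU hg hx)).sqrt (det_pos hg hx).ne'

theorem pd_vol (hU : IsOpen U) (hg : MetricOn U g) (hx : x ∈ U) (k : Fin 3) :
    pd k (volDen g) x = volDen g x * ∑ l, christoffel g l k l x := by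
  have hpos := det_pos hg hx
  have hdet := hpos.ne'
  have hd := differentiableAt_det (diff_g hU hg hx)
  have h1 : pd k (volDen g) x = pd k (fun y => (g y).det) x / (2 * Real.sqrt (g x).det) := by
    unfold pd volDen
    rw [(hd.hasFDerivAt.sqrt hdet).fderiv]
    simp only [ContinuousLinearMap.smul_apply, smul_eq_mul]
    ring
  have h2 := jacobi g x k (diff_g hU hg hx) hdet
  have h3 : ∑ i, ∑ l, (g x)⁻¹ i l * pd k (fun y => g y l i) x
      = 2 * ∑ l, christoffel g l k l x := by
    have h4 : ∑ i, ∑ l, (g x)⁻¹ i l * pd k (fun y => g y l i) x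
        = ((g x)⁻¹ * dG g x k).trace := by
      simp only [Matrix.trace, Matrix.diag_apply, Matrix.mul_apply, dG, Matrix.of_apply]
    have h5 : (CC g x k).trace = ∑ l, christoffel g l k l x := by
      simp only [Matrix.trace, Matrix.diag_apply, CC, Matrix.of_apply]
    rw [h4, dG_eq hU hg hx k, Matrix.mul_add, Matrix.trace_add, ← Matrix.mul_assoc,
      Matrix.nonsing_inv_mul _ (Ne.isUnit hdet), Matrix.one_mul,
      Matrix.trace_mul_comm ((g x)⁻¹) _, Matrix.mul_assoc,
      Matrix.mul_nonsing_inv _ (Ne.isUnit hdet), Matrix.mul_one, Matrix.trace_transpose, h5]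
    ring
  rw [h3, eq_div_iff hdet] at h2
  have hs : 0 < Real.sqrt (g x).det := Real.sqrt_pos.2 hpos
  have hss : Real.sqrt (g x).det * Real.sqrt (g x).det = (g x).det :=
    Real.mul_self_sqrt hpos.le
  rw [h1, ← h2]
  change _ = Real.sqrt (g x).det * _
  rw [div_eq_iff (by positivity)]
  calc 2 * (∑ l, christoffel g l k l x) * (g x).det
      = 2 * (∑ l, christoffel g l k l x) * (Real.sqrt (g x).det * Real.sqrt (g x).det) := by
        rw [hss]
    _ = _ := by ring

/-! ### The function -/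

theorem le2 : (2 : WithTop ℕ∞) ≤ ∞ :=
  show ((2 : ℕ∞) : WithTop ℕ∞) ≤ ((⊤ : ℕ∞) : WithTop ℕ∞) from WithTop.coe_le_coe.2 le_top

theorem diff_pd (hU : IsOpen U) (hw : ContDiffOn ℝ ∞ w U) (hx : x ∈ U) (j : Fin 3) :
    DifferentiableAt ℝ (pd j w) x := by
  have h1 : ContDiffAt ℝ 2 w x := (hw.contDiffAt (hU.mem_nhds hx)).of_le le2
  exact (contDiffAt_pd h1 (n := 1) (by norm_num) j).differentiableAt (by norm_num)

theorem algQ (P : Fin 3 → Fin 3 → ℝ) (hP : ∀ a b, P a b = P b a) (Γ : Fin 3 → Fin 3 → ℝ)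
    (S p : Fin 3 → ℝ) :
    ∑ a, ∑ b, (-(∑ l, Γ a l * P l b + ∑ l, P a l * Γ b l) * p a * p b + P a b * S a * p b
      + P a b * p a * S b) = 2 * ∑ j, (S j - ∑ k, Γ k j * p k) * ∑ l, P j l * p l := by
  simp only [Fin.sum_univ_three, hP 1 0, hP 2 0, hP 2 1]
  ring

theorem algX (P : Fin 3 → Fin 3 → ℝ) (Γ : Fin 3 → Fin 3 → Fin 3 → ℝ)
    (hΓ : ∀ k i j, Γ k i j = Γ k j i) (S : Fin 3 → Fin 3 → ℝ) (p : Fin 3 → ℝ) (v : ℝ) :
    ∑ i, (v * (∑ j, (P i j * S i j + p j * -(∑ l, Γ i i l * P l j + ∑ l, P i l * Γ j i l)))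
      + (∑ j, P i j * p j) * (v * ∑ l, Γ l i l))
      = v * ∑ i, ∑ j, P i j * (S i j - ∑ k, Γ k i j * p k) := by
  simp only [Fin.sum_univ_three, hΓ _ 1 0, hΓ _ 2 0, hΓ _ 2 1]
  ring

/-- The derivative of `|dw|²`. -/
theorem pd_Q (hU : IsOpen U) (hg : MetricOn U g) (hw : ContDiffOn ℝ ∞ w U) (hx : x ∈ U)
    (i : Fin 3) :
    DifferentiableAt ℝ (fun y => ev (g y)⁻¹ (grad w y) (grad w y)) x ∧
    pd i (fun y => ev (g y)⁻¹ (grad w y) (grad w y)) x
      = 2 * app (g x)⁻¹ (cHess g x (grad w x) (hess2 w x)) (grad w x) i := by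
  have hdet := (det_pos hg hx).ne'
  have hPd := differentiableAt_inv (diff_g hU hg hx) hdet
  have hwd := diff_pd hU hw hx
  have h3 : ∀ a b, DifferentiableAt ℝ (fun y => (g y)⁻¹ a b * pd a w y * pd b w y) x :=
    fun a b => ((hPd a b).fun_mul (hwd a)).fun_mul (hwd b)
  have h4 : ∀ a, DifferentiableAt ℝ (fun y => ∑ b, (g y)⁻¹ a b * pd a w y * pd b w y) x :=
    fun a => DifferentiableAt.fun_sum fun b _ => h3 a b
  have h0 : (fun y => ev (g y)⁻¹ (grad w y) (grad w y)) =
      fun y => ∑ a, ∑ b, (g y)⁻¹ a b * pd a w y * pd b w y := rfl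
  rw [h0]
  refine ⟨DifferentiableAt.fun_sum fun a _ => h4 a, ?_⟩
  rw [pd_sum Finset.univ (fun a y => ∑ b, (g y)⁻¹ a b * pd a w y * pd b w y) (fun a _ => h4 a)]
  have h5 : ∀ a, pd i (fun y => ∑ b, (g y)⁻¹ a b * pd a w y * pd b w y) x =
      ∑ b, (-(∑ l, christoffel g a i l x * (g x)⁻¹ l b
      + ∑ l, (g x)⁻¹ a l * christoffel g b i l x) * pd a w x * pd b w x
      + (g x)⁻¹ a b * pd i (pd a w) x * pd b w x
      + (g x)⁻¹ a b * pd a w x * pd i (pd b w) x) := by
    intro a
    rw [pd_sum Finset.univ (fun b y => (g y)⁻¹ a b * pd a w y * pd b w y) (fun b _ => h3 a b)]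
    refine Finset.sum_congr rfl fun b _ => ?_
    rw [pd_mul3 i (hPd a b) (hwd a) (hwd b), dP_apply hU hg hx i a b]
  rw [Finset.sum_congr rfl fun a _ => h5 a]
  exact algQ (fun a b => (g x)⁻¹ a b) (fun a b => symm_inv hg hx a b)
    (fun a l => christoffel g a i l x) (fun a => pd i (pd a w) x) (fun a => pd a w x)

/-- The field `vol P dw`. -/
noncomputable def X (g : TensorField) (w : E3 → ℝ) (i : Fin 3) (y : E3) : ℝ :=
  volDen g y * ∑ j, (g y)⁻¹ i j * pd j w y

theorem diff_X (hU : IsOpen U) (hg : MetricOn U g) (hw : ContDiffOn ℝ ∞ w U) (hx : x ∈ U)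
    (i : Fin 3) : DifferentiableAt ℝ (X g w i) x := by
  have hdet := (det_pos hg hx).ne'
  have hPd := differentiableAt_inv (diff_g hU hg hx) hdet
  have hwd := diff_pd hU hw hx
  exact (diff_vol hU hg hx).mul (DifferentiableAt.fun_sum fun j _ => (hPd i j).fun_mul (hwd j))

theorem div_X (hU : IsOpen U) (hg : MetricOn U g) (hw : ContDiffOn ℝ ∞ w U) (hx : x ∈ U) :
    ∑ i, pd i (X g w i) x
      = volDen g x * tr2 (g x)⁻¹ (cHess g x (grad w x) (hess2 w x)) := by
  have hdet := (det_pos hg hx).ne'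
  have hPd := differentiableAt_inv (diff_g hU hg hx) hdet
  have hwd := diff_pd hU hw hx
  have h1 : ∀ i, pd i (X g w i) x =
      volDen g x * (∑ j, ((g x)⁻¹ i j * pd i (pd j w) x + pd j w x *
        -(∑ l, christoffel g i i l x * (g x)⁻¹ l j + ∑ l, (g x)⁻¹ i l * christoffel g j i l x)))
      + (∑ j, (g x)⁻¹ i j * pd j w x) * (volDen g x * ∑ l, christoffel g l i l x) := by
    intro i
    unfold X
    have h2 : ∀ j, DifferentiableAt ℝ (fun y => (g y)⁻¹ i j * pd j w y) x := fun j =>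
      (hPd i j).fun_mul (hwd j)
    rw [pd_mul (diff_vol hU hg hx) (DifferentiableAt.fun_sum fun j _ => h2 j),
      pd_sum Finset.univ (fun j y => (g y)⁻¹ i j * pd j w y) (fun j _ => h2 j), pd_vol hU hg hx]
    congr 2
    refine Finset.sum_congr rfl fun j _ => ?_
    rw [pd_mul (hPd i j) (hwd j), dP_apply hU hg hx i i j]
  rw [Finset.sum_congr rfl fun i _ => h1 i]
  exact algX (fun a b => (g x)⁻¹ a b) (fun a b c => christoffel g a b c x)
    (fun a b c => chr_symm hU hg hx a b c) (fun a b => pd a (pd b w) x) (fun a => pd a w x)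
    (volDen g x)

theorem field_eq (g : TensorField) (w : E3 → ℝ) (i : Fin 3) :
    (fun y => volDen g y * up (g y)⁻¹ (fun j => len g y (grad w y) * grad w y j) i) =
      fun y => len g y (grad w y) * X g w i y := by
  funext y
  unfold up X
  have h1 : ∑ j, (g y)⁻¹ i j * (len g y (grad w y) * grad w y j) =
      len g y (grad w y) * ∑ j, (g y)⁻¹ i j * pd j w y := by
    rw [Finset.mul_sum]
    refine Finset.sum_congr rfl fun j _ => ?_
    change (g y)⁻¹ i j * (len g y (grad w y) * pd j w y) = _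
    ring
  rw [h1]
  ring

/-- The product of a continuous and a differentiable function that vanish at a point. -/
theorem fderiv_mul_zero {f F : E3 → ℝ} {x : E3} (hf : ContinuousAt f x) (hf0 : f x = 0)
    (hF : DifferentiableAt ℝ F x) (hF0 : F x = 0) (i : Fin 3) :
    pd i (fun y => f y * F y) x = 0 := by
  have h1 : HasFDerivAt (fun y => f y * F y) (0 : E3 →L[ℝ] ℝ) x := by
    rw [hasFDerivAt_iff_isLittleO]
    have h2 : (fun y => F y) =O[𝓝 x] fun y => y - x := by
      have h3 := hF.isBigO_sub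
      simpa [hF0] using h3
    have h4 : (fun y => f y) =o[𝓝 x] fun _ => (1 : ℝ) := by
      rw [Asymptotics.isLittleO_one_iff]
      rw [← hf0]
      exact hf
    have h5 := h4.mul_isBigO h2.norm_right
    have h6 : (fun y => f y * F y) =o[𝓝 x] fun y => y - x := by
      refine Asymptotics.IsLittleO.of_norm_right ?_
      simpa using h5
    simpa [hf0, hF0] using h6
  unfold pd
  rw [h1.fderiv]
  rfl

theorem ev_pos (hg : MetricOn U g) (hx : x ∈ U) (p : Cov) (hp : p ≠ 0) :
    0 < ev (g x)⁻¹ p p := by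
  have h := (hg.posDef x hx).inv.dotProduct_mulVec_pos hp
  have h2 : ev (g x)⁻¹ p p = star p ⬝ᵥ ((g x)⁻¹.mulVec p) := by
    unfold ev dotProduct Matrix.mulVec dotProduct
    refine Finset.sum_congr rfl fun i _ => ?_
    rw [Finset.mul_sum]
    refine Finset.sum_congr rfl fun j _ => ?_
    simp only [star_trivial]
    ring
  rw [h2]
  exact h

end MLD

open MLD in
theorem LD : Stmt_LD := by
  intro U g w hU hg hw x hx
  obtain ⟨hQd, -⟩ := pd_Q hU hg hw hx 0
  have hlen : (fun y => len g y (grad w y)) =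
      fun y => Real.sqrt (ev (g y)⁻¹ (grad w y) (grad w y)) := rfl
  have hcont : ContinuousAt (fun y => len g y (grad w y)) x := by
    rw [hlen]
    exact hQd.continuousAt.sqrt
  by_cases hp : grad w x = 0
  · have h0 : len g x (grad w x) = 0 := by
      rw [hp]
      simp [len, ev]
    have h1 : lp (g x)⁻¹ (grad w x) = 0 := h0
    rw [h1, mul_zero, zero_mul, add_zero, mul_zero]
    refine Finset.sum_eq_zero fun i _ => ?_
    rw [field_eq]
    refine fderiv_mul_zero hcont h0 (diff_X hU hg hw hx i) ?_ i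
    unfold X
    have h2 : ∀ j, pd j w x = 0 := fun j => congrFun hp j
    simp [h2]
  · have hQ := ev_pos hg hx _ hp
    set Q := ev (g x)⁻¹ (grad w x) (grad w x) with hQdef
    have hs : 0 < Real.sqrt Q := Real.sqrt_pos.2 hQ
    have hss : Real.sqrt Q * Real.sqrt Q = Q := Real.mul_self_sqrt hQ.le
    have hld : DifferentiableAt ℝ (fun y => len g y (grad w y)) x := by
      rw [hlen]
      exact hQd.sqrt hQ.ne'
    have hpl : ∀ i, pd i (fun y => len g y (grad w y)) x =
        app (g x)⁻¹ (cHess g x (grad w x) (hess2 w x)) (grad w x) i / Real.sqrt Q := by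
      intro i
      obtain ⟨hQd', hQi⟩ := pd_Q hU hg hw hx i
      rw [hlen]
      have h2 : pd i (fun y => Real.sqrt (ev (g y)⁻¹ (grad w y) (grad w y))) x =
          pd i (fun y => ev (g y)⁻¹ (grad w y) (grad w y)) x / (2 * Real.sqrt Q) := by
        unfold pd
        rw [(hQd'.hasFDerivAt.sqrt hQ.ne').fderiv]
        simp only [ContinuousLinearMap.smul_apply, smul_eq_mul]
        ring
      rw [h2, hQi]
      field_simp
    have h3 : ∀ i, pd i (fun y => volDen g y *
        up (g y)⁻¹ (fun j => len g y (grad w y) * grad w y j) i) x =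
        Real.sqrt Q * pd i (X g w i) x + X g w i x *
          (app (g x)⁻¹ (cHess g x (grad w x) (hess2 w x)) (grad w x) i / Real.sqrt Q) := by
      intro i
      rw [field_eq, pd_mul hld (diff_X hU hg hw hx i), hpl i]
      rfl
    rw [Finset.sum_congr rfl fun i _ => h3 i, Finset.sum_add_distrib, ← Finset.mul_sum,
      div_X hU hg hw hx]
    have h4 : ∑ i, X g w i x *
          (app (g x)⁻¹ (cHess g x (grad w x) (hess2 w x)) (grad w x) i / Real.sqrt Q) =
        volDen g x * (qf (g x)⁻¹ (cHess g x (grad w x) (hess2 w x)) (grad w x) /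
          Real.sqrt Q) := by
      unfold qf ev app X
      rw [Finset.sum_div, Finset.mul_sum]
      refine Finset.sum_congr rfl fun i _ => ?_
      have h5 : ∑ j, (g x)⁻¹ i j * pd j w x = up (g x)⁻¹ (grad w x) i := rfl
      rw [h5, Finset.sum_div, Finset.sum_div, Finset.mul_sum, Finset.mul_sum]
      refine Finset.sum_congr rfl fun j _ => ?_
      ring
    rw [h4]
    have h6 : lp (g x)⁻¹ (grad w x) = Real.sqrt Q := rfl
    rw [h6]
    have h7 : nn (g x)⁻¹ (cHess g x (grad w x) (hess2 w x)) (grad w x) =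
        qf (g x)⁻¹ (cHess g x (grad w x) (hess2 w x)) (grad w x) / (Real.sqrt Q * Real.sqrt Q) := by
      unfold nn
      rw [hss]
    rw [h7]
    field_simp
    ring

end Pool.Agent.PFlow


end
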