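import Mathlib
import Pool.Agent.PFlow.StmtsE2
import Pool.Agent.PenroseM.C06
import Pool.Agent.PenroseM.C12
import Pool.Agent.PenroseM.C18
import Pool.Agent.PenroseM.C19

/-! Parts: PFlow.P.CID, PFlow.G.XIN, PFlow.E.GRADL, PFlow.E.TSTA -/

section

/-!
# Block P, module CID: integration by parts for the quadratic form of second derivatives
-/

set_option autoImplicit false

open MeasureTheory Filter Topology Set
open scoped ContDiff RealInnerProductSpace ENNReal

namespace Pool.Agent.PFlow.PB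

open Pool.Agent.PenroseSph Pool.Agent.PFlow

namespace CIDaux

/-- second partial derivatives commute -/
theorem pd_comm (f : E3 → ℝ) (hf : ContDiff ℝ ∞ f) (i j : Fin 3) :
    pd i (pd j f) = pd j (pd i f) := by
  have hd : Differentiable ℝ (fderiv ℝ f) :=
    (hf.fderiv_right (m := ∞) (by simp)).differentiable (by norm_num)
  have key : ∀ i j x, pd i (pd j f) x = fderiv ℝ (fderiv ℝ f) x (ee i) (ee j) := by
    intro i j x
    have h1 : pd j f = fun y => fderiv ℝ f y (ee j) := rfl
    rw [pd_eq, h1, fderiv_clm_apply (hd x) (differentiableAt_const _)]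
    simp
  funext x
  rw [key i j x, key j i x]
  have hs : IsSymmSndFDerivAt ℝ f x :=
    (hf.contDiffAt (x := x)).isSymmSndFDerivAt (by simp; norm_cast)
  exact hs (ee i) (ee j)

theorem pd_smooth (f : E3 → ℝ) (hf : ContDiff ℝ ∞ f) (i : Fin 3) : ContDiff ℝ ∞ (pd i f) :=
  (hf.fderiv_right (m := ∞) (by simp)).clm_apply contDiff_const

theorem pd_mul (f g : E3 → ℝ) (hf : ContDiff ℝ ∞ f) (hg : ContDiff ℝ ∞ g) (i : Fin 3) (x : E3) :
    pd i (fun y => f y * g y) x = pd i f x * g x + f x * pd i g x := by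
  rw [pd_eq, fderiv_fun_mul (hf.differentiable (by norm_num) x)
    (hg.differentiable (by norm_num) x)]
  simp [pd_eq]
  ring

/-- the identity for test functions -/
theorem test_id (φ : E3 → ℝ) (hφ : Test φ) (q : E3 → ℝ) (hq : ContDiff ℝ 1 q)
    (i k j l : Fin 3) :
    ∫ x, q x * (hs φ i x j * hs φ k x l - hs φ i x k * hs φ j x l)
      = - ∫ x, (pd j q x * gr φ x i * hs φ k x l - pd k q x * gr φ x i * hs φ j x l) := by
  have hi := pd_smooth φ hφ.smooth i
  have hkl := pd_smooth _ (pd_smooth φ hφ.smooth k) l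
  have hjl := pd_smooth _ (pd_smooth φ hφ.smooth j) l
  have hci := pd_cpt φ hφ.cpt i
  have one : ∀ f : E3 → ℝ, ContDiff ℝ ∞ f → ContDiff ℝ 1 f := fun f h =>
    h.of_le (by exact_mod_cast le_top)
  have c1 : HasCompactSupport fun x => pd i φ x * pd l (pd k φ) x := hci.mul_right
  have c2 : HasCompactSupport fun x => pd i φ x * pd l (pd j φ) x := hci.mul_right
  have s1 := one _ (hi.mul hkl)
  have s2 := one _ (hi.mul hjl)
  have e1 := ibp_C1 q _ hq s1 c1 j
  have e2 := ibp_C1 q _ hq s2 c2 k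
  have i1 : Integrable fun x => q x * pd j (fun x => pd i φ x * pd l (pd k φ) x) x :=
    (hq.continuous.mul (pd_cont _ s1 j)).integrable_of_hasCompactSupport (pd_cpt _ c1 j).mul_left
  have i2 : Integrable fun x => q x * pd k (fun x => pd i φ x * pd l (pd j φ) x) x :=
    (hq.continuous.mul (pd_cont _ s2 k)).integrable_of_hasCompactSupport (pd_cpt _ c2 k).mul_left
  have i3 : Integrable fun x => pd j q x * (pd i φ x * pd l (pd k φ) x) :=
    ((pd_cont q hq j).mul s1.continuous).integrable_of_hasCompactSupport c1.mul_left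
  have i4 : Integrable fun x => pd k q x * (pd i φ x * pd l (pd j φ) x) :=
    ((pd_cont q hq k).mul s2.continuous).integrable_of_hasCompactSupport c2.mul_left
  have hsym : pd j (pd l (pd k φ)) = pd k (pd l (pd j φ)) := by
    rw [pd_comm φ hφ.smooth l k, pd_comm _ (pd_smooth φ hφ.smooth l) j k,
      pd_comm φ hφ.smooth j l]
  have l1 : (fun x => q x * (hs φ i x j * hs φ k x l - hs φ i x k * hs φ j x l)) =
      fun x => q x * pd j (fun x => pd i φ x * pd l (pd k φ) x) x -
        q x * pd k (fun x => pd i φ x * pd l (pd j φ) x) x := by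
    funext x
    rw [pd_mul _ _ hi hkl, pd_mul _ _ hi hjl, hsym]
    show q x * (pd j (pd i φ) x * pd l (pd k φ) x - pd k (pd i φ) x * pd l (pd j φ) x) = _
    ring
  have l2 : (fun x => pd j q x * gr φ x i * hs φ k x l - pd k q x * gr φ x i * hs φ j x l) =
      fun x => pd j q x * (pd i φ x * pd l (pd k φ) x) -
        pd k q x * (pd i φ x * pd l (pd j φ) x) := by
    funext x
    show pd j q x * pd i φ x * pd l (pd k φ) x - pd k q x * pd i φ x * pd l (pd j φ) x = _
    ring
  rw [l1, l2, integral_sub i1 i2, integral_sub i3 i4, e1, e2]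
  ring

/-- limits of products -/
theorem bil (a b : E3 → ℝ) (an bn : ℕ → E3 → ℝ) (ha : MemLp a 2) (hb : MemLp b 2)
    (han : ∀ n, MemLp (an n) 2) (hbn : ∀ n, MemLp (bn n) 2)
    (h1 : Tendsto (fun n => sq (fun x => an n x - a x)) atTop (𝓝 0))
    (h2 : Tendsto (fun n => sq (fun x => bn n x - b x)) atTop (𝓝 0)) :
    Tendsto (fun n => ∫ x, an n x * bn n x) atTop (𝓝 (∫ x, a x * b x)) := by
  have t1 : Tendsto (fun n => ∫ x, (an n x - a x) * bn n x) atTop (𝓝 0) := by
    have h3 : Tendsto (fun n => √(sq (fun x => an n x - a x)) * √(sq (bn n))) atTop (𝓝 0) := by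
      have h4 := ((Real.continuous_sqrt.tendsto 0).comp h1).mul
        ((Real.continuous_sqrt.tendsto _).comp (sq_tendsto b bn hb hbn h2))
      simpa using h4
    refine squeeze_zero_norm (fun n => ?_) h3
    rw [Real.norm_eq_abs]
    exact cs _ _ ((han n).sub ha) (hbn n)
  have t2 := tend_mul b a bn hb hbn ha h2
  have t3 := t1.add t2
  rw [zero_add] at t3
  have e : ∫ x, b x * a x = ∫ x, a x * b x := by
    congr 1
    funext x
    ring
  rw [e] at t3
  refine t3.congr fun n => ?_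
  have i1 : Integrable fun x => (an n x - a x) * bn n x := int_mul _ _ ((han n).sub ha) (hbn n)
  have i2 : Integrable fun x => bn n x * a x := int_mul _ _ (hbn n) ha
  rw [← integral_add i1 i2]
  congr 1
  funext x
  ring

/-- the identity for one coefficient -/
theorem one_id (hd : DENS) (q : E3 → ℝ) (C : ℝ) (hq : ContDiff ℝ 1 q) (hqC : ∀ x, |q x| ≤ C)
    (hqD : ∀ x, ‖gr q x‖ ≤ C) (u : E3 → ℝ) (G : E3 → E3) (M : Fin 3 → E3 → E3) (hu : H2 u G M)
    (i k j l : Fin 3) :
    Integrable (fun x => q x * (M i x j * M k x l - M i x k * M j x l)) ∧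
    Integrable (fun x => pd j q x * G x i * M k x l - pd k q x * G x i * M j x l) ∧
    ∫ x, q x * (M i x j * M k x l - M i x k * M j x l)
      = - ∫ x, (pd j q x * G x i * M k x l - pd k q x * G x i * M j x l) := by
  obtain ⟨φ, hφ, -, cG, cM, -⟩ := hd u G M hu
  have hM : ∀ i, MemLp (M i) 2 := fun i => (hu.h2 i).memG
  have hG : MemLp G 2 := hu.h1.memG
  have hMn : ∀ n i, MemLp (hs (φ n) i) 2 := fun n i =>
    gr_memLp _ ((pd_smooth _ (hφ n).smooth i).of_le (by exact_mod_cast le_top))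
      (pd_cpt _ (hφ n).cpt i)
  have hGn : ∀ n, MemLp (gr (φ n)) 2 := fun n => gr_memLp _ (hφ n).one (hφ n).cpt
  have hp : ∀ j x, |pd j q x| ≤ C := fun j x => by
    rw [← gr_apply]
    exact (abs_comp_le _ _).trans (hqD x)
  -- products with a bounded coefficient
  have key : ∀ (p : E3 → ℝ) (a b : E3 → ℝ) (an bn : ℕ → E3 → ℝ), Continuous p →
      (∀ x, |p x| ≤ C) → MemLp a 2 → MemLp b 2 → (∀ n, MemLp (an n) 2) → (∀ n, MemLp (bn n) 2) →
      Tendsto (fun n => sq (fun x => an n x - a x)) atTop (𝓝 0) →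
      Tendsto (fun n => sq (fun x => bn n x - b x)) atTop (𝓝 0) →
      Integrable (fun x => p x * a x * b x) ∧ (∀ n, Integrable (fun x => p x * an n x * bn n x)) ∧
      Tendsto (fun n => ∫ x, p x * an n x * bn n x) atTop (𝓝 (∫ x, p x * a x * b x)) := by
    intro p a b an bn hp hpC ha hb han hbn t1 t2
    have m1 := memLp_mul_bdd p a C ha hp hpC
    have m2 := fun n => memLp_mul_bdd p (an n) C (han n) hp hpC
    refine ⟨int_mul _ _ m1 hb, fun n => int_mul _ _ (m2 n) (hbn n), ?_⟩
    refine bil _ b _ bn m1 hb m2 hbn ?_ t2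
    have t3 := t1.const_mul (C ^ 2)
    rw [mul_zero] at t3
    refine squeeze_zero (fun n => sq_nonneg' _) (fun n => ?_) t3
    have e : (fun x => p x * an n x - p x * a x) = fun x => p x * (an n x - a x) := by
      funext x; ring
    rw [e]
    exact sq_mul_le p (fun x => an n x - a x) C ((han n).sub ha) hpC
  have cMc : ∀ i j, Tendsto (fun n => sq (fun x => hs (φ n) i x j - M i x j)) atTop (𝓝 0) :=
    fun i j => tend_comp (M i) (fun n => hs (φ n) i) (hM i) (fun n => hMn n i) (cM i) j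
  have cGc : ∀ i, Tendsto (fun n => sq (fun x => gr (φ n) x i - G x i)) atTop (𝓝 0) :=
    fun i => tend_comp G (fun n => gr (φ n)) hG hGn cG i
  have k1 := key q (fun x => M i x j) (fun x => M k x l) (fun n x => hs (φ n) i x j)
    (fun n x => hs (φ n) k x l) hq.continuous hqC (memLp_comp _ (hM i) j) (memLp_comp _ (hM k) l)
    (fun n => memLp_comp _ (hMn n i) j) (fun n => memLp_comp _ (hMn n k) l) (cMc i j) (cMc k l)
  have k2 := key q (fun x => M i x k) (fun x => M j x l) (fun n x => hs (φ n) i x k)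
    (fun n x => hs (φ n) j x l) hq.continuous hqC (memLp_comp _ (hM i) k) (memLp_comp _ (hM j) l)
    (fun n => memLp_comp _ (hMn n i) k) (fun n => memLp_comp _ (hMn n j) l) (cMc i k) (cMc j l)
  have k3 := key (pd j q) (fun x => G x i) (fun x => M k x l) (fun n x => gr (φ n) x i)
    (fun n x => hs (φ n) k x l) (pd_cont q hq j) (hp j) (memLp_comp _ hG i)
    (memLp_comp _ (hM k) l) (fun n => memLp_comp _ (hGn n) i) (fun n => memLp_comp _ (hMn n k) l)
    (cGc i) (cMc k l)
  have k4 := key (pd k q) (fun x => G x i) (fun x => M j x l) (fun n x => gr (φ n) x i)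
    (fun n x => hs (φ n) j x l) (pd_cont q hq k) (hp k) (memLp_comp _ hG i)
    (memLp_comp _ (hM j) l) (fun n => memLp_comp _ (hGn n) i) (fun n => memLp_comp _ (hMn n j) l)
    (cGc i) (cMc j l)
  have e1 : ∀ (A B D E : E3 → ℝ), (fun x => q x * (A x * B x - D x * E x)) =
      fun x => q x * A x * B x - q x * D x * E x := fun A B D E => by
    funext x; ring
  have t1 := (k1.2.2.sub k2.2.2)
  have t2 := (k3.2.2.sub k4.2.2).neg
  have t3 : (fun n => (∫ x, q x * hs (φ n) i x j * hs (φ n) k x l) -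
      ∫ x, q x * hs (φ n) i x k * hs (φ n) j x l) =
      fun n => -((∫ x, pd j q x * gr (φ n) x i * hs (φ n) k x l) -
        ∫ x, pd k q x * gr (φ n) x i * hs (φ n) j x l) := by
    funext n
    have h := test_id (φ n) (hφ n) q hq i k j l
    rw [e1, integral_sub (k1.2.1 n) (k2.2.1 n), integral_sub (k3.2.1 n) (k4.2.1 n)] at h
    exact h
  rw [t3] at t1
  have t4 := tendsto_nhds_unique t1 t2
  refine ⟨?_, k3.1.sub k4.1, ?_⟩
  · rw [e1]
    exact k1.1.sub k2.1
  · rw [e1, integral_sub k1.1 k2.1, integral_sub k3.1 k4.1]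
    exact t4

end CIDaux

open CIDaux in
/-- U2 (CID) -/
theorem cid_thm (_h1 : API1) (hd : DENS) : CID := by
  intro q C hq hqC hqD u G M hu
  have key := fun i k j l =>
    one_id hd (q i k j l) C (hq i k j l) (hqC i k j l) (hqD i k j l) u G M hu i k j l
  have s1 : ∫ x, ∑ i, ∑ k, ∑ j, ∑ l, q i k j l x * (M i x j * M k x l - M i x k * M j x l) =
      ∑ i, ∑ k, ∑ j, ∑ l, ∫ x, q i k j l x * (M i x j * M k x l - M i x k * M j x l) := by
    rw [integral_finsetSum _ fun i _ => integrable_finsetSum _ fun k _ =>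
      integrable_finsetSum _ fun j _ => integrable_finsetSum _ fun l _ => (key i k j l).1]
    refine Finset.sum_congr rfl fun i _ => ?_
    rw [integral_finsetSum _ fun k _ =>
      integrable_finsetSum _ fun j _ => integrable_finsetSum _ fun l _ => (key i k j l).1]
    refine Finset.sum_congr rfl fun k _ => ?_
    rw [integral_finsetSum _ fun j _ => integrable_finsetSum _ fun l _ => (key i k j l).1]
    refine Finset.sum_congr rfl fun j _ => ?_
    rw [integral_finsetSum _ fun l _ => (key i k j l).1]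
  have s2 : ∫ x, ∑ i, ∑ k, ∑ j, ∑ l, (pd j (q i k j l) x * G x i * M k x l
        - pd k (q i k j l) x * G x i * M j x l) =
      ∑ i, ∑ k, ∑ j, ∑ l, ∫ x, (pd j (q i k j l) x * G x i * M k x l
        - pd k (q i k j l) x * G x i * M j x l) := by
    rw [integral_finsetSum _ fun i _ => integrable_finsetSum _ fun k _ =>
      integrable_finsetSum _ fun j _ => integrable_finsetSum _ fun l _ => (key i k j l).2.1]
    refine Finset.sum_congr rfl fun i _ => ?_
    rw [integral_finsetSum _ fun k _ =>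
      integrable_finsetSum _ fun j _ => integrable_finsetSum _ fun l _ => (key i k j l).2.1]
    refine Finset.sum_congr rfl fun k _ => ?_
    rw [integral_finsetSum _ fun j _ => integrable_finsetSum _ fun l _ => (key i k j l).2.1]
    refine Finset.sum_congr rfl fun j _ => ?_
    rw [integral_finsetSum _ fun l _ => (key i k j l).2.1]
  rw [s1, s2]
  simp only [← Finset.sum_neg_distrib]
  refine Finset.sum_congr rfl fun i _ => Finset.sum_congr rfl fun k _ =>
    Finset.sum_congr rfl fun j _ => Finset.sum_congr rfl fun l _ => (key i k j l).2.2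

end Pool.Agent.PFlow.PB


end

section

/-!
# XIN: the divergence inequality
-/

open MeasureTheory Filter Topology
open scoped ContDiff

namespace Pool.Agent.PFlow.GB

open Pool.Agent.PenroseSph Pool.Agent.PFlow

namespace Xin

/-! ### Real algebra -/

lemma alg {K f w l Lf Lu s A B C E D : ℝ} (hf : 0 < f) (hw : 0 < w)
    (hB : K * f ^ 2 = f * Lf / 2 - f * s - f * l ^ 2 - A / 2 + l * B)
    (hpos : 0 ≤ A - 4 * f * C - 2 * l * B + 4 * f ^ 2 * D + 4 * f * l * E + l ^ 2 * f) :
    (K - Lu) * (f / (f + w)) - w * l ^ 2 / (2 * (f + w) ^ 2) ≤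
      (f + w)⁻¹ * (Lf / 2 - (l * l + s) - (f * Lu + C)) +
        -(1 / (f + w) ^ 2) * (A / 2 - l * B - f * C + 2 * w * (C / 2 - l * E - f * D)) := by
  have hfw : 0 < f + w := by positivity
  have hK : K = (f * Lf / 2 - f * s - f * l ^ 2 - A / 2 + l * B) / f ^ 2 := by
    rw [eq_div_iff (by positivity), hB]
  have key : (f + w)⁻¹ * (Lf / 2 - (l * l + s) - (f * Lu + C)) +
        -(1 / (f + w) ^ 2) * (A / 2 - l * B - f * C + 2 * w * (C / 2 - l * E - f * D))
      - ((K - Lu) * (f / (f + w)) - w * l ^ 2 / (2 * (f + w) ^ 2)) =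
      w / (2 * f * (f + w) ^ 2) *
        (A - 4 * f * C - 2 * l * B + 4 * f ^ 2 * D + 4 * f * l * E + l ^ 2 * f) := by
    rw [hK]
    field_simp
    ring
  have h1 : 0 ≤ w / (2 * f * (f + w) ^ 2) := by positivity
  have h2 := mul_nonneg h1 hpos
  linarith

/-! ### Linear algebra -/

lemma lip_comb (g : TensorField) (x : E3) (p P Q R : Cov) (a b : ℝ)
    (hs : ∀ A B : Cov, lip g x p A B = lip g x p B A) :
    lip g x p (fun i => P i - a * Q i - b * R i) (fun i => P i - a * Q i - b * R i) =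
      lip g x p P P - 2 * a * lip g x p P Q - 2 * b * lip g x p P R + a ^ 2 * lip g x p Q Q
        + 2 * a * b * lip g x p Q R + b ^ 2 * lip g x p R R := by
  have h1 : lip g x p (fun i => P i - a * Q i - b * R i) (fun i => P i - a * Q i - b * R i) =
      lip g x p P P - a * lip g x p P Q - b * lip g x p P R - a * lip g x p Q P
        + a ^ 2 * lip g x p Q Q + a * b * lip g x p Q R - b * lip g x p R P
        + a * b * lip g x p R Q + b ^ 2 * lip g x p R R := by
    unfold lip ev
    simp only [Fin.sum_univ_three]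
    ring
  rw [h1, hs Q P, hs R P, hs R Q]
  ring

/-! ### Calculus -/

lemma cat_sum {ι : Type} {s : Finset ι} {f : ι → E3 → ℝ} {x : E3}
    (h : ∀ i ∈ s, ContinuousAt (f i) x) : ContinuousAt (fun y => ∑ i ∈ s, f i y) x :=
  tendsto_finsetSum _ h

lemma cat_pd {f : E3 → ℝ} {x : E3} (hf : ContDiffAt ℝ 1 f x) (i : Fin 3) :
    ContinuousAt (fun y => pd i f y) x := by
  have h1 : ContDiffAt ℝ 0 (fderiv ℝ f) x := hf.fderiv_right (by norm_num)
  exact h1.continuousAt.clm_apply continuousAt_const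

lemma pd_sub {f h : E3 → ℝ} {x : E3} (hf : DifferentiableAt ℝ f x) (hh : DifferentiableAt ℝ h x)
    (i : Fin 3) : pd i (fun y => f y - h y) x = pd i f x - pd i h x := by
  unfold pd
  rw [fderiv_fun_sub hf hh]
  rfl

lemma pd_congr {f h : E3 → ℝ} {x : E3} (hf : f =ᶠ[𝓝 x] h) (i : Fin 3) : pd i f x = pd i h x := by
  unfold pd
  rw [hf.fderiv_eq]

lemma pd_const (c : ℝ) (x : E3) (i : Fin 3) : pd i (fun _ => c) x = 0 := by
  unfold pd
  rw [fderiv_fun_const]
  rfl

lemma ldiv_sub {g : TensorField} {W : E3 → ℝ} {Y Z : E3 → Cov} {x : E3}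
    (hd : DifferentiableAt ℝ (dens g W) x) (hY : ∀ i, DifferentiableAt ℝ (fun y => Y y i) x)
    (hZ : ∀ i, DifferentiableAt ℝ (fun y => Z y i) x) :
    ldiv g W (fun y i => Y y i - Z y i) x = ldiv g W Y x - ldiv g W Z x := by
  unfold ldiv
  rw [← sub_div, ← Finset.sum_sub_distrib]
  congr 1
  refine Finset.sum_congr rfl fun i _ => ?_
  have h1 : pd i (fun y => dens g W y * Y y i - dens g W y * Z y i) x =
      pd i (fun y => dens g W y * Y y i) x - pd i (fun y => dens g W y * Z y i) x :=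
    pd_sub (f := fun y => dens g W y * Y y i) (h := fun y => dens g W y * Z y i)
      (hd.mul (hY i)) (hd.mul (hZ i)) i
  rw [← h1]
  congr 1
  funext y
  exact mul_sub _ _ _

lemma ldiv_zero {g : TensorField} {W : E3 → ℝ} {Y : E3 → Cov} {x : E3}
    (h : ∀ᶠ y in 𝓝 x, ∀ i, Y y i = 0) : ldiv g W Y x = 0 := by
  unfold ldiv
  rw [Finset.sum_eq_zero, zero_div]
  intro i _
  rw [pd_congr (h := fun _ => (0 : ℝ)) ?_ i, pd_const]
  filter_upwards [h] with y hy
  rw [hy i, mul_zero]

lemma cat_ldiv {g : TensorField} {W : E3 → ℝ} {Y : E3 → Cov} {x : E3}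
    (hd : ContDiffAt ℝ ∞ (dens g W) x) (hd0 : 0 < dens g W x)
    (hY : ∀ i, ContDiffAt ℝ ∞ (fun y => Y y i) x) : ContinuousAt (ldiv g W Y) x := by
  unfold ldiv
  refine (cat_sum fun i _ => cat_pd ?_ i).div hd.continuousAt hd0.ne'
  exact (hd.mul (hY i)).of_le (by exact_mod_cast le_top)

section Fields

variable {g : TensorField} {W : E3 → ℝ} {φ u : E3 → ℝ} {δ : ℝ} {x : E3}

/-- The numerator of the field. -/
noncomputable def num (g : TensorField) (W φ u : E3 → ℝ) (y : E3) : Cov := fun i =>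
  (1 / 2 * lgrad g W (lin g W φ φ) y i - lap g W φ y * lgrad g W φ y i)
    - lin g W φ φ y * lgrad g W u y i

/-- The denominator of the field. -/
noncomputable def den (g : TensorField) (W φ u : E3 → ℝ) (δ : ℝ) (y : E3) : ℝ :=
  lin g W φ φ y + δ * Real.exp (2 * u y)

lemma Xf_eq : Xf g W φ u δ = fun y i => (den g W φ u δ y)⁻¹ * num g W φ u y i := by
  funext y i
  unfold Xf num den
  rw [div_eq_mul_inv, mul_comm]
  congr 1
  ring

/-- The derivative of the reciprocal of the denominator. -/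
lemma pd_den (hf : DifferentiableAt ℝ (lin g W φ φ) x) (hu : DifferentiableAt ℝ u x)
    (h0 : den g W φ u δ x ≠ 0) (i : Fin 3) :
    DifferentiableAt ℝ (fun y => (den g W φ u δ y)⁻¹) x ∧
    pd i (fun y => (den g W φ u δ y)⁻¹) x =
      -(1 / (den g W φ u δ x) ^ 2) * (pd i (lin g W φ φ) x
        + 2 * (δ * Real.exp (2 * u x)) * pd i u x) := by
  have h1 : HasFDerivAt (fun y => δ * Real.exp (2 * u y))
      (δ • (Real.exp (2 * u x) • ((2 : ℝ) • fderiv ℝ u x))) x :=
    ((hu.hasFDerivAt.const_mul 2).exp).const_mul δ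
  have h2 : HasFDerivAt (den g W φ u δ)
      (fderiv ℝ (lin g W φ φ) x + δ • (Real.exp (2 * u x) • ((2 : ℝ) • fderiv ℝ u x))) x :=
    hf.hasFDerivAt.add h1
  have h3 := (hasDerivAt_inv h0).comp_hasFDerivAt x h2
  refine ⟨h3.differentiableAt, ?_⟩
  have h4 : pd i (fun y => (den g W φ u δ y)⁻¹) x =
      ((-(den g W φ u δ x ^ 2)⁻¹) • (fderiv ℝ (lin g W φ φ) x
        + δ • (Real.exp (2 * u x) • ((2 : ℝ) • fderiv ℝ u x)))) (EuclideanSpace.single i 1) :=
    congrArg (fun L : E3 →L[ℝ] ℝ => L (EuclideanSpace.single i 1)) h3.fderiv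
  rw [h4]
  simp only [smul_apply, add_apply, smul_eq_mul, pd,
    one_div]
  ring

end Fields

end Xin

open Xin in
/-- The divergence inequality. -/
theorem XIN (hALG : Stmt_ALG) (hSMO : Stmt_SMO) (hRUL : Stmt_RUL) (hBOCH : Stmt_BOCH) :
    Stmt_XIN := by
  intro V a b g W hF O φ u δ hO hOV hφ hu hδ
  have hreg : ∀ x ∈ O, Reg g W x := fun x hx => hF.reg (hOV hx)
  have cφ : ∀ x ∈ O, ContDiffAt ℝ ∞ φ x := fun x hx => (hφ x hx).contDiffAt (hO.mem_nhds hx)
  have cu : ∀ x ∈ O, ContDiffAt ℝ ∞ u x := fun x hx => (hu x hx).contDiffAt (hO.mem_nhds hx)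
  have hSM := hSMO.2
  have dif : ∀ {f : E3 → ℝ} {x : E3}, ContDiffAt ℝ ∞ f x → DifferentiableAt ℝ f x :=
    fun h => h.differentiableAt (by simp)
  -- smoothness
  have cden : ∀ x ∈ O, ContDiffAt ℝ ∞ (dens g W) x ∧ 0 < dens g W x := fun x hx => by
    obtain ⟨-, -, -, h1, -, -, -, -, h2, -⟩ := hSM g W x (hreg x hx)
    exact ⟨h2, h1⟩
  have ccurv : ∀ x ∈ O, ContDiffAt ℝ ∞ (curv g W) x := fun x hx => by
    obtain ⟨-, -, -, -, -, -, -, -, -, -, -, h, -⟩ := hSM g W x (hreg x hx)
    exact h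
  have clin : ∀ x ∈ O, ∀ f h : E3 → ℝ, ContDiffAt ℝ ∞ f x → ContDiffAt ℝ ∞ h x →
      ContDiffAt ℝ ∞ (lin g W f h) x ∧ ContDiffAt ℝ ∞ (lap g W f) x ∧
      ∀ i, ContDiffAt ℝ ∞ (fun y => lgrad g W f y i) x := fun x hx => by
    obtain ⟨-, -, -, -, -, -, -, -, -, -, -, -, h, -⟩ := hSM g W x (hreg x hx)
    exact h
  have cf : ∀ x ∈ O, ContDiffAt ℝ ∞ (lin g W φ φ) x := fun x hx =>
    (clin x hx φ φ (cφ x hx) (cφ x hx)).1
  have cl : ∀ x ∈ O, ContDiffAt ℝ ∞ (lap g W φ) x := fun x hx =>
    (clin x hx φ φ (cφ x hx) (cφ x hx)).2.1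
  have cgf : ∀ x ∈ O, ∀ i, ContDiffAt ℝ ∞ (fun y => lgrad g W (lin g W φ φ) y i) x :=
    fun x hx => (clin x hx _ φ (cf x hx) (cφ x hx)).2.2
  have cgφ : ∀ x ∈ O, ∀ i, ContDiffAt ℝ ∞ (fun y => lgrad g W φ y i) x :=
    fun x hx => (clin x hx _ φ (cφ x hx) (cφ x hx)).2.2
  have cgu : ∀ x ∈ O, ∀ i, ContDiffAt ℝ ∞ (fun y => lgrad g W u y i) x :=
    fun x hx => (clin x hx _ φ (cu x hx) (cφ x hx)).2.2
  have clu : ∀ x ∈ O, ContDiffAt ℝ ∞ (lap g W u) x := fun x hx =>
    (clin x hx u u (cu x hx) (cu x hx)).2.1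
  have cw : ∀ x ∈ O, ContDiffAt ℝ ∞ (fun y => δ * Real.exp (2 * u y)) x := fun x hx =>
    contDiffAt_const.mul ((contDiffAt_const.mul (cu x hx)).exp)
  have cD : ∀ x ∈ O, ContDiffAt ℝ ∞ (den g W φ u δ) x := fun x hx => (cf x hx).add (cw x hx)
  have hfn : ∀ x ∈ O, 0 ≤ lin g W φ φ x := fun x hx =>
    ((hRUL g W x (hreg x hx)).2.2.1 φ φ).2.1
  have hwp : ∀ x, 0 < δ * Real.exp (2 * u x) := fun x => mul_pos hδ (Real.exp_pos _)
  have hDp : ∀ x ∈ O, 0 < den g W φ u δ x := fun x hx => add_pos_of_nonneg_of_pos (hfn x hx) (hwp x)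
  have cN : ∀ x ∈ O, ∀ i, ContDiffAt ℝ ∞ (fun y => num g W φ u y i) x := fun x hx i =>
    ((contDiffAt_const.mul (cgf x hx i)).sub ((cl x hx).mul (cgφ x hx i))).sub
      ((cf x hx).mul (cgu x hx i))
  have cX : ∀ x ∈ O, ∀ i, ContDiffAt ℝ ∞ (fun y => Xf g W φ u δ y i) x := fun x hx i => by
    rw [Xf_eq]
    exact ((cD x hx).inv (hDp x hx).ne').mul (cN x hx i)
  refine ⟨fun i x hx => (cX x hx i).contDiffWithinAt, fun x hx => ?_, ?_⟩
  · -- tangent
    obtain ⟨h1, -⟩ := hRUL g W x (hreg x hx)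
    have e1 := h1 (lin g W φ φ)
    have e2 := h1 φ
    have e3 := h1 u
    rw [Xf_eq]
    have : ∑ i, (den g W φ u δ x)⁻¹ * num g W φ u x i * grad W x i =
        (den g W φ u δ x)⁻¹ * (1 / 2 * (∑ i, lgrad g W (lin g W φ φ) x i * grad W x i)
          - lap g W φ x * (∑ i, lgrad g W φ x i * grad W x i)
          - lin g W φ φ x * (∑ i, lgrad g W u x i * grad W x i)) := by
      simp only [Fin.sum_univ_three, num]
      ring
    rw [this, e1, e2, e3]
    ring
  · -- the inequality, first where `f > 0`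
    have hmain : ∀ x ∈ O, 0 < lin g W φ φ x →
        (curv g W x - lap g W u x)
            * (lin g W φ φ x / (lin g W φ φ x + δ * Real.exp (2 * u x)))
          - δ * Real.exp (2 * u x) * lap g W φ x ^ 2
            / (2 * (lin g W φ φ x + δ * Real.exp (2 * u x)) ^ 2)
        ≤ ldiv g W (Xf g W φ u δ) x := by
      intro x hx hpos
      obtain ⟨-, r2, r3, -, -, -, -, -, -, -, -, r12⟩ := hRUL g W x (hreg x hx)
      obtain ⟨hd1, hd2⟩ := pd_den (δ := δ) (dif (cf x hx)) (dif (cu x hx)) (hDp x hx).ne' 0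
      have hpd : ∀ i, grad (fun y => (den g W φ u δ y)⁻¹) x i =
          -(1 / (den g W φ u δ x) ^ 2) * (grad (lin g W φ φ) x i
            + 2 * (δ * Real.exp (2 * u x)) * grad u x i) := fun i =>
        (pd_den (δ := δ) (dif (cf x hx)) (dif (cu x hx)) (hDp x hx).ne' i).2
      have hprod : ∀ (c h : E3 → ℝ), DifferentiableAt ℝ c x →
          (∀ i, DifferentiableAt ℝ (fun y => lgrad g W h y i) x) →
          ldiv g W (fun y i => c y * lgrad g W h y i) x = c x * lap g W h x + lin g W h c x := by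
        intro c h hc hh
        rw [r12 c (lgrad g W h) hc hh, r2 h c]
        rfl
      have hdiv : ldiv g W (num g W φ u) x =
          (1 / 2 * lap g W (lin g W φ φ) x - (lap g W φ x * lap g W φ x
            + lin g W φ (lap g W φ) x)) - (lin g W φ φ x * lap g W u x
            + lin g W u (lin g W φ φ) x) := by
        have hdd := dif (cden x hx).1
        have d1 : ∀ i, DifferentiableAt ℝ
            (fun y => 1 / 2 * lgrad g W (lin g W φ φ) y i) x := fun i =>
          (dif (cgf x hx i)).const_mul _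
        have d2 : ∀ i, DifferentiableAt ℝ (fun y => lap g W φ y * lgrad g W φ y i) x := fun i =>
          (dif (cl x hx)).mul (dif (cgφ x hx i))
        have d3 : ∀ i, DifferentiableAt ℝ (fun y => lin g W φ φ y * lgrad g W u y i) x :=
          fun i => (dif (cf x hx)).mul (dif (cgu x hx i))
        have s1 : ldiv g W (num g W φ u) x =
            ldiv g W (fun y i => 1 / 2 * lgrad g W (lin g W φ φ) y i
              - lap g W φ y * lgrad g W φ y i) x
            - ldiv g W (fun y i => lin g W φ φ y * lgrad g W u y i) x :=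
          ldiv_sub (Y := fun y i => 1 / 2 * lgrad g W (lin g W φ φ) y i
              - lap g W φ y * lgrad g W φ y i)
            (Z := fun y i => lin g W φ φ y * lgrad g W u y i) hdd
            (fun i => (d1 i).sub (d2 i)) d3
        have s2 : ldiv g W (fun y i => 1 / 2 * lgrad g W (lin g W φ φ) y i
              - lap g W φ y * lgrad g W φ y i) x =
            ldiv g W (fun y i => 1 / 2 * lgrad g W (lin g W φ φ) y i) x
            - ldiv g W (fun y i => lap g W φ y * lgrad g W φ y i) x :=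
          ldiv_sub (Y := fun y i => 1 / 2 * lgrad g W (lin g W φ φ) y i)
            (Z := fun y i => lap g W φ y * lgrad g W φ y i) hdd d1 d2
        have s3 : ldiv g W (fun y i => 1 / 2 * lgrad g W (lin g W φ φ) y i) x =
            1 / 2 * lap g W (lin g W φ φ) x := by
          rw [r12 (fun _ => (1 / 2 : ℝ)) (lgrad g W (lin g W φ φ))
            (differentiableAt_const _) (fun i => dif (cgf x hx i))]
          have : ∑ i, lgrad g W (lin g W φ φ) x i * grad (fun _ => (1 / 2 : ℝ)) x i = 0 := by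
            refine Finset.sum_eq_zero fun i _ => ?_
            rw [show grad (fun _ => (1 / 2 : ℝ)) x i = 0 from _root_.Pool.Agent.PFlow.GB.Xin.pd_const _ x i, mul_zero]
          rw [this, add_zero]
          rfl
        rw [s1, s2, s3, hprod (lap g W φ) φ (dif (cl x hx)) (fun i => dif (cgφ x hx i)),
          hprod (lin g W φ φ) u (dif (cf x hx)) (fun i => dif (cgu x hx i))]
      have hX : ldiv g W (Xf g W φ u δ) x = (den g W φ u δ x)⁻¹ * ldiv g W (num g W φ u) x
          + ∑ i, num g W φ u x i * grad (fun y => (den g W φ u δ y)⁻¹) x i := by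
        rw [Xf_eq]
        exact r12 _ _ hd1 fun i => dif (cN x hx i)
      have hsum : ∑ i, num g W φ u x i * grad (fun y => (den g W φ u δ y)⁻¹) x i =
          -(1 / (den g W φ u δ x) ^ 2) * (lin g W (lin g W φ φ) (lin g W φ φ) x / 2
            - lap g W φ x * lin g W (lin g W φ φ) φ x
            - lin g W φ φ x * lin g W u (lin g W φ φ) x
            + 2 * (δ * Real.exp (2 * u x)) * (lin g W u (lin g W φ φ) x / 2
              - lap g W φ x * lin g W φ u x - lin g W φ φ x * lin g W u u x)) := by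
        have e1 := r2 (lin g W φ φ) (lin g W φ φ)
        have e2 := r2 φ (lin g W φ φ)
        have e3 := r2 u (lin g W φ φ)
        have e4 := r2 (lin g W φ φ) u
        have e5 := r2 φ u
        have e6 := r2 u u
        rw [(r3 (lin g W φ φ) φ).1, ← e1, ← e2, ← e3, ← e5, ← e6]
        have e7 : ∑ i, lgrad g W u x i * grad (lin g W φ φ) x i =
            ∑ i, lgrad g W (lin g W φ φ) x i * grad u x i := by
          rw [e3, e4, (r3 (lin g W φ φ) u).1]
        have e8 : ∑ i, num g W φ u x i * grad (fun y => (den g W φ u δ y)⁻¹) x i =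
          -(1 / (den g W φ u δ x) ^ 2) *
            ((∑ i, lgrad g W (lin g W φ φ) x i * grad (lin g W φ φ) x i) / 2
            - lap g W φ x * (∑ i, lgrad g W φ x i * grad (lin g W φ φ) x i)
            - lin g W φ φ x * (∑ i, lgrad g W u x i * grad (lin g W φ φ) x i)
            + 2 * (δ * Real.exp (2 * u x)) *
              ((∑ i, lgrad g W (lin g W φ φ) x i * grad u x i) / 2
              - lap g W φ x * (∑ i, lgrad g W φ x i * grad u x i)
              - lin g W φ φ x * (∑ i, lgrad g W u x i * grad u x i))) := by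
          simp only [hpd]
          simp only [Fin.sum_univ_three, num]
          ring
        rw [e8, ← e7]
      have hB := hBOCH g W x (hreg x hx) φ (cφ x hx)
      obtain ⟨O', hO', hxO', hmet, -, hgr⟩ := hreg x hx
      obtain ⟨-, -, -, -, -, -, -, -, -, hsym, -, hnn, -⟩ :=
        hALG g x (grad W x) (hmet.posDef x hxO') (hgr x hxO')
      have hq := hnn (fun i => grad (lin g W φ φ) x i - 2 * lin g W φ φ x * grad u x i
        - lap g W φ x * grad φ x i)
      rw [lip_comb g x (grad W x) (grad (lin g W φ φ) x) (grad u x) (grad φ x)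
        (2 * lin g W φ φ x) (lap g W φ x) hsym] at hq
      have hfin := alg (K := curv g W x) (Lf := lap g W (lin g W φ φ) x)
        (Lu := lap g W u x) (s := lin g W φ (lap g W φ) x)
        (A := lin g W (lin g W φ φ) (lin g W φ φ) x)
        (B := lin g W (lin g W φ φ) φ x) (C := lin g W u (lin g W φ φ) x)
        (E := lin g W φ u x) (D := lin g W u u x) (l := lap g W φ x) hpos (hwp x)
        (by rw [hB]) ?_
      · rw [hX, hdiv, hsum]
        refine hfin.trans (le_of_eq ?_)
        unfold den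
        ring
      · have h1 : lip g x (grad W x) (grad (lin g W φ φ) x) (grad u x)
            = lin g W u (lin g W φ φ) x := hsym _ _
        have h2 : lip g x (grad W x) (grad u x) (grad φ x) = lin g W φ u x := hsym _ _
        rw [h1, h2] at hq
        refine hq.trans (le_of_eq ?_)
        show lin g W (lin g W φ φ) (lin g W φ φ) x
          - 2 * (2 * lin g W φ φ x) * lin g W u (lin g W φ φ) x
          - 2 * lap g W φ x * lin g W (lin g W φ φ) φ x
          + (2 * lin g W φ φ x) ^ 2 * lin g W u u x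
          + 2 * (2 * lin g W φ φ x) * lap g W φ x * lin g W φ u x
          + lap g W φ x ^ 2 * lin g W φ φ x = _
        ring
    intro x hx
    by_cases hcl : x ∈ closure {y | y ∈ O ∧ 0 < lin g W φ φ y}
    · -- by continuity
      refine ContinuousWithinAt.closure_le hcl ?_ ?_ fun y hy => hmain y hy.1 hy.2
      · refine ContinuousAt.continuousWithinAt ?_
        have hne : lin g W φ φ x + δ * Real.exp (2 * u x) ≠ 0 := (hDp x hx).ne'
        have hc1 := (cf x hx).continuousAt
        have hc2 := (cw x hx).continuousAt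
        refine (((ccurv x hx).continuousAt.sub (clu x hx).continuousAt).mul
          (hc1.div (hc1.add hc2) hne)).sub ?_
        refine (hc2.mul ((cl x hx).continuousAt.pow 2)).div
          (continuousAt_const.mul ((hc1.add hc2).pow 2)) ?_
        have := pow_ne_zero 2 hne
        simpa using this
      · exact (cat_ldiv (cden x hx).1 (cden x hx).2 (cX x hx)).continuousWithinAt
    · -- `f = 0` near `x`
      have hz : ∀ᶠ y in 𝓝 x, y ∈ O ∧ lin g W φ φ y = 0 := by
        have h1 : ∀ᶠ y in 𝓝 x, y ∉ closure {y | y ∈ O ∧ 0 < lin g W φ φ y} :=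
          isClosed_closure.isOpen_compl.mem_nhds hcl
        filter_upwards [h1, hO.mem_nhds hx] with y hy hyO
        refine ⟨hyO, le_antisymm ?_ (hfn y hyO)⟩
        by_contra hc
        exact hy (subset_closure ⟨hyO, not_le.1 hc⟩)
      have hgφ : ∀ᶠ y in 𝓝 x, ∀ i, lgrad g W φ y i = 0 := by
        filter_upwards [hz] with y hy i
        obtain ⟨-, -, -, -, r5, -⟩ := hRUL g W y (hreg y hy.1)
        obtain ⟨O', hO', hxO', hmet, -, hgr⟩ := hreg y hy.1
        obtain ⟨-, -, -, -, -, -, -, -, hform, hsym, -, -, hcs, -⟩ :=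
          hALG g y (grad W y) (hmet.posDef y hxO') (hgr y hxO')
        have h1 := hcs (grad φ y) (Pi.single i 1)
        have h2 : lip g y (grad W y) (grad φ y) (grad φ y) = 0 := hy.2
        rw [h2, zero_mul] at h1
        have h3 : lip g y (grad W y) (grad φ y) (Pi.single i 1) = 0 := by
          have := le_antisymm h1 (sq_nonneg _)
          exact pow_eq_zero_iff (two_ne_zero) |>.1 this
        rw [hsym, hform] at h3
        have h4 : ∑ k, ∑ j, prj g y (grad W y) k j * (Pi.single i 1 : Cov) k * grad φ y j =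
            ∑ j, prj g y (grad W y) i j * pd j φ y := by
          rw [Finset.sum_eq_single i]
          · refine Finset.sum_congr rfl fun j _ => ?_
            rw [Pi.single_eq_same, mul_one]
            rfl
          · intro k _ hk
            refine Finset.sum_eq_zero fun j _ => ?_
            rw [Pi.single_eq_of_ne hk, mul_zero, zero_mul]
          · intro h
            exact absurd (Finset.mem_univ i) h
        rw [r5 φ i, ← h4, h3]
      have hl : ∀ᶠ y in 𝓝 x, lap g W φ y = 0 := by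
        filter_upwards [hgφ.eventually_nhds] with y hy
        exact ldiv_zero hy
      have hgf : ∀ᶠ y in 𝓝 x, ∀ i, lgrad g W (lin g W φ φ) y i = 0 := by
        filter_upwards [hz.eventually_nhds, hz] with y hy hy' i
        obtain ⟨-, -, -, -, r5, -⟩ := hRUL g W y (hreg y hy'.1)
        rw [r5]
        refine Finset.sum_eq_zero fun j _ => ?_
        rw [_root_.Pool.Agent.PFlow.GB.Xin.pd_congr (h := fun _ => (0 : ℝ)) ?_ j, _root_.Pool.Agent.PFlow.GB.Xin.pd_const, mul_zero]
        filter_upwards [hy] with z hz'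
        exact hz'.2
      have hX : ldiv g W (Xf g W φ u δ) x = 0 := by
        refine ldiv_zero ?_
        filter_upwards [hz, hgφ, hl, hgf] with y h1 h2 h3 h4 i
        unfold Xf
        rw [h4 i, h3, h1.2]
        simp
      rw [hX, hz.self_of_nhds.2, hl.self_of_nhds]
      simp

end Pool.Agent.PFlow.GB


end

section

/-!
# GRADL: the derivative of the squared length of the gradient
-/

open MeasureTheory Filter Topology
open scoped ContDiff

namespace Pool.Agent.PFlow

open Pool.Agent.PenroseSph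

namespace GRADL

variable {g : TensorField} {w : E3 → ℝ} {x : E3}

theorem symm_inv' {A : Bil} (h : A.IsSymm) (i j : Fin 3) : A⁻¹ i j = A⁻¹ j i := by
  have h1 : (A⁻¹).transpose = A⁻¹ := by
    rw [Matrix.transpose_nonsing_inv, h.eq]
  have h2 := congrFun (congrFun h1 j) i
  rw [Matrix.transpose_apply] at h2
  exact h2

theorem pd_symm (hs : ∀ᶠ y in 𝓝 x, (g y).IsSymm) (k i j : Fin 3) :
    pd k (fun y => g y i j) x = pd k (fun y => g y j i) x := by
  apply pd_congr
  filter_upwards [hs] with y hy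
  exact hy.apply j i

theorem dG_eq (hs : ∀ᶠ y in 𝓝 x, (g y).IsSymm) (hdet : (g x).det ≠ 0) (k : Fin 3) :
    MLD.dG g x k = g x * MLD.CC g x k + (MLD.CC g x k).transpose * g x := by
  have hsx : (g x).IsSymm := hs.self_of_nhds
  ext i j
  rw [Matrix.add_apply, Matrix.mul_apply, Matrix.mul_apply]
  have h1 := MLD.lower g x hdet i k j
  have h2 := MLD.lower g x hdet j k i
  have h3 : ∑ d, (MLD.CC g x k).transpose i d * g x d j =
      ∑ d, g x j d * christoffel g d k i x := by
    refine Finset.sum_congr rfl fun d _ => ?_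
    rw [Matrix.transpose_apply, MLD.CC, Matrix.of_apply, hsx.apply j d, mul_comm]
  rw [h3, h2]
  change pd k (fun y => g y i j) x = ∑ d, g x i d * christoffel g d k j x + _
  rw [h1, pd_symm hs k j i]
  ring

theorem dP_eq (hs : ∀ᶠ y in 𝓝 x, (g y).IsSymm) (hdet : (g x).det ≠ 0)
    (hgd : ∀ i j, DifferentiableAt ℝ (fun y => g y i j) x) (k : Fin 3) :
    (Matrix.of fun i j => pd k (fun y => (g y)⁻¹ i j) x : Bil) =
      -(MLD.CC g x k * (g x)⁻¹ + (g x)⁻¹ * (MLD.CC g x k).transpose) := by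
  have hPd := MLD.differentiableAt_inv hgd hdet
  have hev : ∀ᶠ y in 𝓝 x, (g y).det ≠ 0 :=
    (MLD.differentiableAt_det hgd).continuousAt.eventually_ne hdet
  have h1 : (Matrix.of fun i j => pd k (fun y => (g y)⁻¹ i j) x : Bil) * g x
      + (g x)⁻¹ * MLD.dG g x k = 0 := by
    ext i j
    rw [Matrix.add_apply, Matrix.mul_apply, Matrix.mul_apply, ← Finset.sum_add_distrib,
      Matrix.zero_apply]
    have h2 : pd k (fun y => ∑ l, (g y)⁻¹ i l * g y l j) x = 0 := by
      have h3 : (fun y => ∑ l, (g y)⁻¹ i l * g y l j) =ᶠ[𝓝 x]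
          fun _ => (1 : Bil) i j := by
        filter_upwards [hev] with y hy
        rw [← Matrix.mul_apply, Matrix.nonsing_inv_mul _ (Ne.isUnit hy)]
      rw [pd_congr h3, pd_const]
    rw [pd_sum Finset.univ (fun l y => (g y)⁻¹ i l * g y l j)
      (fun l _ => (hPd i l).mul (hgd l j))] at h2
    rw [← h2]
    refine Finset.sum_congr rfl fun l _ => ?_
    rw [pd_mul (hPd i l) (hgd l j)]
    simp only [Matrix.of_apply, MLD.dG]
    ring
  have hGP : g x * (g x)⁻¹ = 1 := Matrix.mul_nonsing_inv _ (Ne.isUnit hdet)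
  have hPG : (g x)⁻¹ * g x = 1 := Matrix.nonsing_inv_mul _ (Ne.isUnit hdet)
  have h4 := congrArg (fun T => T * (g x)⁻¹) h1
  simp only [Matrix.add_mul, Matrix.zero_mul] at h4
  rw [Matrix.mul_assoc, hGP, Matrix.mul_one, dG_eq hs hdet k, Matrix.mul_add, Matrix.add_mul,
    ← Matrix.mul_assoc, hPG, Matrix.one_mul, ← Matrix.mul_assoc (g x)⁻¹, Matrix.mul_assoc _ (g x),
    hGP, Matrix.mul_one] at h4
  exact eq_neg_of_add_eq_zero_left h4

theorem dP_apply (hs : ∀ᶠ y in 𝓝 x, (g y).IsSymm) (hdet : (g x).det ≠ 0)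
    (hgd : ∀ i j, DifferentiableAt ℝ (fun y => g y i j) x) (k i j : Fin 3) :
    pd k (fun y => (g y)⁻¹ i j) x = -(∑ l, christoffel g i k l x * (g x)⁻¹ l j
      + ∑ l, (g x)⁻¹ i l * christoffel g j k l x) := by
  have h := congrFun (congrFun (dP_eq hs hdet hgd k) i) j
  rw [Matrix.neg_apply, Matrix.add_apply, Matrix.mul_apply, Matrix.mul_apply] at h
  exact h

end GRADL

open GRADL in
theorem GRADL : Stmt_GRADL := by
  intro g w x hs hdet hg hw i
  have hgd : ∀ i j, DifferentiableAt ℝ (fun y => g y i j) x :=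
    fun i j => (hg i j).differentiableAt (by norm_num)
  have hPd := MLD.differentiableAt_inv hgd hdet
  have hwd : ∀ j, DifferentiableAt ℝ (pd j w) x := fun j =>
    (MLD.contDiffAt_pd hw (n := 1) (by norm_num) j).differentiableAt (by norm_num)
  have h3 : ∀ a b, DifferentiableAt ℝ (fun y => (g y)⁻¹ a b * pd a w y * pd b w y) x :=
    fun a b => ((hPd a b).fun_mul (hwd a)).fun_mul (hwd b)
  have h4 : ∀ a, DifferentiableAt ℝ (fun y => ∑ b, (g y)⁻¹ a b * pd a w y * pd b w y) x :=
    fun a => DifferentiableAt.fun_sum fun b _ => h3 a b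
  have h0 : (fun y => ev (g y)⁻¹ (grad w y) (grad w y)) =
      fun y => ∑ a, ∑ b, (g y)⁻¹ a b * pd a w y * pd b w y := rfl
  rw [h0]
  rw [pd_sum Finset.univ (fun a y => ∑ b, (g y)⁻¹ a b * pd a w y * pd b w y) (fun a _ => h4 a)]
  have h5 : ∀ a, pd i (fun y => ∑ b, (g y)⁻¹ a b * pd a w y * pd b w y) x =
      ∑ b, (-(∑ l, christoffel g a i l x * (g x)⁻¹ l b
      + ∑ l, (g x)⁻¹ a l * christoffel g b i l x) * pd a w x * pd b w x
      + (g x)⁻¹ a b * pd i (pd a w) x * pd b w x
      + (g x)⁻¹ a b * pd a w x * pd i (pd b w) x) := by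
    intro a
    rw [pd_sum Finset.univ (fun b y => (g y)⁻¹ a b * pd a w y * pd b w y) (fun b _ => h3 a b)]
    refine Finset.sum_congr rfl fun b _ => ?_
    rw [MLD.pd_mul3 i (hPd a b) (hwd a) (hwd b), dP_apply hs hdet hgd i a b]
  rw [Finset.sum_congr rfl fun a _ => h5 a]
  exact MLD.algQ (fun a b => (g x)⁻¹ a b) (fun a b => symm_inv' hs.self_of_nhds a b)
    (fun a l => christoffel g a i l x) (fun a => pd i (pd a w) x) (fun a => pd a w x)

end Pool.Agent.PFlow


end

section

/-!
# The main test function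
-/

open MeasureTheory Filter Topology
open scoped ContDiff

namespace Pool.Agent.PFlow

open Pool.Agent.PenroseSph

namespace ETSTA

open Real (smoothTransition)

/-- Shorthand. -/
noncomputable def rho : ℝ → ℝ := smoothTransition

lemma rho_smooth : ContDiff ℝ ∞ rho := Real.smoothTransition.contDiff

lemma rho_cont : Continuous rho := Real.smoothTransition.continuous

lemma rho_zero {t : ℝ} (h : t ≤ 0) : rho t = 0 := Real.smoothTransition.zero_of_nonpos h

lemma rho_one {t : ℝ} (h : 1 ≤ t) : rho t = 1 := Real.smoothTransition.one_of_one_le h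

lemma rho_nonneg (t : ℝ) : 0 ≤ rho t := Real.smoothTransition.nonneg t

lemma rho_le (t : ℝ) : rho t ≤ 1 := Real.smoothTransition.le_one t

lemma rho_diff (t : ℝ) : HasDerivAt rho (deriv rho t) t :=
  (rho_smooth.differentiable (by simp) t).hasDerivAt

lemma drho_smooth : ContDiff ℝ ∞ (deriv rho) := by
  have h : ContDiff ℝ (∞ + 1) rho := by
    simpa using rho_smooth
  exact (contDiff_succ_iff_deriv.mp h).2.2

lemma drho_cont : Continuous (deriv rho) := drho_smooth.continuous

lemma drho_diff (t : ℝ) : HasDerivAt (deriv rho) (deriv (deriv rho) t) t :=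
  (drho_smooth.differentiable (by simp) t).hasDerivAt

lemma ddrho_cont : Continuous (deriv (deriv rho)) := by
  have h : ContDiff ℝ (∞ + 1) (deriv rho) := by
    simpa using drho_smooth
  exact (contDiff_succ_iff_deriv.mp h).2.2.continuous

lemma drho_nonneg (t : ℝ) : 0 ≤ deriv rho t := Real.smoothTransition.monotone.deriv_nonneg

lemma eq_zero_le {f : ℝ → ℝ} (hf : Continuous f) {a : ℝ} (h : ∀ t < a, f t = 0) {t : ℝ}
    (ht : t ≤ a) : f t = 0 := by
  have h1 : IsClosed {t | f t = 0} := isClosed_eq hf continuous_const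
  have h2 : closure (Set.Iio a) ⊆ {t | f t = 0} := h1.closure_subset_iff.mpr fun t ht => h t ht
  rw [closure_Iio] at h2
  exact h2 ht

lemma eq_zero_ge {f : ℝ → ℝ} (hf : Continuous f) {a : ℝ} (h : ∀ t > a, f t = 0) {t : ℝ}
    (ht : a ≤ t) : f t = 0 := by
  have h1 : IsClosed {t | f t = 0} := isClosed_eq hf continuous_const
  have h2 : closure (Set.Ioi a) ⊆ {t | f t = 0} := h1.closure_subset_iff.mpr fun t ht => h t ht
  rw [closure_Ioi] at h2
  exact h2 ht

lemma drho_lt {t : ℝ} (h : t < 0) : deriv rho t = 0 := by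
  have h1 : rho =ᶠ[𝓝 t] fun _ => 0 := by
    filter_upwards [Iio_mem_nhds h] with s hs
    exact rho_zero (le_of_lt hs)
  rw [h1.deriv_eq, deriv_const]

lemma drho_gt {t : ℝ} (h : 1 < t) : deriv rho t = 0 := by
  have h1 : rho =ᶠ[𝓝 t] fun _ => 1 := by
    filter_upwards [Ioi_mem_nhds h] with s hs
    exact rho_one (le_of_lt hs)
  rw [h1.deriv_eq, deriv_const]

lemma drho_le0 {t : ℝ} (h : t ≤ 0) : deriv rho t = 0 :=
  eq_zero_le drho_cont (fun _ => drho_lt) h

lemma drho_ge1 {t : ℝ} (h : 1 ≤ t) : deriv rho t = 0 :=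
  eq_zero_ge drho_cont (fun _ => drho_gt) h

lemma ddrho_le0 {t : ℝ} (h : t ≤ 0) : deriv (deriv rho) t = 0 := by
  refine eq_zero_le ddrho_cont (fun s hs => ?_) h
  have h1 : deriv rho =ᶠ[𝓝 s] fun _ => 0 := by
    filter_upwards [Iio_mem_nhds hs] with r hr
    exact drho_le0 (le_of_lt hr)
  rw [h1.deriv_eq, deriv_const]

lemma ddrho_ge1 {t : ℝ} (h : 1 ≤ t) : deriv (deriv rho) t = 0 := by
  refine eq_zero_ge ddrho_cont (fun s hs => ?_) h
  have h1 : deriv rho =ᶠ[𝓝 s] fun _ => 0 := by
    filter_upwards [Ioi_mem_nhds hs] with r hr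
    exact drho_ge1 (le_of_lt hr)
  rw [h1.deriv_eq, deriv_const]

/-- A bound for the derivatives of the smooth step. -/
lemma bound : ∃ K : ℝ, 1 ≤ K ∧ (∀ t, |deriv rho t| ≤ K) ∧ ∀ t, |deriv (deriv rho) t| ≤ K := by
  obtain ⟨K₁, h1⟩ := (isCompact_Icc (a := (0 : ℝ)) (b := 1)).exists_bound_of_continuousOn
    drho_cont.continuousOn
  obtain ⟨K₂, h2⟩ := (isCompact_Icc (a := (0 : ℝ)) (b := 1)).exists_bound_of_continuousOn
    ddrho_cont.continuousOn
  refine ⟨max 1 (max K₁ K₂), le_max_left _ _, fun t => ?_, fun t => ?_⟩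
  · by_cases h : t ∈ Set.Icc (0 : ℝ) 1
    · exact (h1 t h).trans ((le_max_left _ _).trans (le_max_right _ _))
    · have h3 : deriv rho t = 0 := by
        rcases not_and_or.mp h with h4 | h4
        · exact drho_le0 (not_le.mp h4).le
        · exact drho_ge1 (not_le.mp h4).le
      rw [h3, abs_zero]
      exact zero_le_one.trans (le_max_left _ _)
  · by_cases h : t ∈ Set.Icc (0 : ℝ) 1
    · exact (h2 t h).trans ((le_max_right _ _).trans (le_max_right _ _))
    · have h3 : deriv (deriv rho) t = 0 := by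
        rcases not_and_or.mp h with h4 | h4
        · exact ddrho_le0 (not_le.mp h4).le
        · exact ddrho_ge1 (not_le.mp h4).le
      rw [h3, abs_zero]
      exact zero_le_one.trans (le_max_left _ _)

/-- The exponent. -/
noncomputable def Q (t : ℝ) : ℝ := ∫ τ in (0 : ℝ)..t, rho (4 * τ - 1)

lemma contq : Continuous fun τ : ℝ => rho (4 * τ - 1) := rho_cont.comp (by fun_prop)

lemma Q_diff (t : ℝ) : HasDerivAt Q (rho (4 * t - 1)) t :=
  intervalIntegral.integral_hasDerivAt_right (contq.intervalIntegrable _ _)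
    (contq.stronglyMeasurableAtFilter _ _) contq.continuousAt

lemma Q_zero {t : ℝ} (h : t ≤ 1 / 4) : Q t = 0 := by
  unfold Q
  have h1 : ∀ τ ∈ Set.uIcc (0 : ℝ) t, rho (4 * τ - 1) = 0 := by
    intro τ hτ
    refine rho_zero ?_
    have : τ ≤ 1 / 4 := by
      rcases Set.mem_uIcc.mp hτ with h2 | h2
      · exact h2.2.trans h
      · exact h2.2.trans (by norm_num)
    linarith
  rw [intervalIntegral.integral_congr (g := fun _ => (0 : ℝ)) h1, intervalIntegral.integral_zero]

lemma Q_nonneg {t : ℝ} : 0 ≤ Q t := by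
  rcases le_total t (1 / 4) with h | h
  · rw [Q_zero h]
  · exact intervalIntegral.integral_nonneg (by linarith) fun τ _ => rho_nonneg _

lemma Q_le {t : ℝ} (h : 0 ≤ t) : Q t ≤ t := by
  have h1 : Q t ≤ ∫ _ in (0 : ℝ)..t, (1 : ℝ) :=
    intervalIntegral.integral_mono_on h (contq.intervalIntegrable _ _) (by simp)
      fun τ _ => rho_le _
  simpa using h1

lemma Q_ge {t : ℝ} (h : 1 / 2 ≤ t) : t - 1 / 2 ≤ Q t := by
  have h1 : Q t = Q (1 / 2) + ∫ τ in (1 / 2 : ℝ)..t, rho (4 * τ - 1) := by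
    unfold Q
    rw [intervalIntegral.integral_add_adjacent_intervals (contq.intervalIntegrable _ _)
      (contq.intervalIntegrable _ _)]
  have h2 : ∫ τ in (1 / 2 : ℝ)..t, rho (4 * τ - 1) = t - 1 / 2 := by
    rw [intervalIntegral.integral_congr (g := fun _ => (1 : ℝ)), intervalIntegral.integral_const]
    · simp
    · intro τ hτ
      rw [Set.uIcc_of_le h] at hτ
      refine rho_one ?_
      linarith [hτ.1]
  rw [h1, h2]
  linarith [Q_nonneg (t := 1 / 2)]

/-- Integrability on bands of levels. -/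
lemma band_int {Ω : Set E3} {vol w F : E3 → ℝ} (hΩ : MeasurableSet Ω) (hw : Measurable w)
    {a b : ℝ} (hF : IntegrableOn (fun x => F x * vol x) (Ω ∩ {x | a ≤ w x ∧ w x ≤ b}))
    {ψ : ℝ → ℝ} (hψ : Continuous ψ) (hs : ∀ s, s ∉ Set.Icc a b → ψ s = 0) :
    IntegrableOn (fun x => ψ (w x) * F x * vol x) Ω := by
  have hband : MeasurableSet {x | a ≤ w x ∧ w x ≤ b} :=
    (measurableSet_le measurable_const hw).inter (measurableSet_le hw measurable_const)
  have h1 : IntegrableOn (fun x => ψ (w x) * F x * vol x) (Ω ∩ {x | a ≤ w x ∧ w x ≤ b}) := by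
    obtain ⟨C, hC⟩ := (isCompact_Icc (a := a) (b := b)).exists_bound_of_continuousOn
      hψ.continuousOn
    have h2 := Integrable.bdd_mul (c := C) hF
      (f := fun x => ψ (w x)) (hψ.measurable.comp hw).aestronglyMeasurable (by
        filter_upwards [ae_restrict_mem (hΩ.inter hband)] with x hx
        exact hC _ hx.2)
    refine h2.congr (Eventually.of_forall fun x => ?_)
    simp only []
    ring
  refine h1.of_forall_sdiff_eq_zero hΩ fun x hx => ?_
  have h3 : w x ∉ Set.Icc a b := fun h => hx.2 ⟨hx.1, h⟩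
  rw [hs _ h3, zero_mul, zero_mul]

lemma comb4 {α : Type} [MeasurableSpace α] {μ : Measure α} {f g h k : α → ℝ} (c : ℝ)
    (hf : Integrable f μ) (hg : Integrable g μ) (hh : Integrable h μ) (hk : Integrable k μ) :
    ∫ x, (f x - g x + h x + c * k x) ∂μ
      = ∫ x, f x ∂μ - ∫ x, g x ∂μ + ∫ x, h x ∂μ + c * ∫ x, k x ∂μ := by
  have h1 : Integrable (fun x => f x - g x) μ := hf.sub hg
  have h2 : Integrable (fun x => f x - g x + h x) μ := h1.add hh
  rw [integral_add h2 (hk.const_mul c), integral_add h1 hh, integral_sub hf hg,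
    integral_const_mul]

section fns

variable (c0 la sb s₂ se : ℝ)

/-- The exponential weight. -/
noncomputable def ee (s : ℝ) : ℝ := Real.exp (s * c0)

/-- The rise. -/
noncomputable def R (s : ℝ) : ℝ := rho (4 / sb * s - 5 / 2)

/-- The derivative of the rise. -/
noncomputable def R1 (s : ℝ) : ℝ := 4 / sb * deriv rho (4 / sb * s - 5 / 2)

/-- The second derivative of the rise. -/
noncomputable def R2 (s : ℝ) : ℝ := 4 / sb * (4 / sb * deriv (deriv rho) (4 / sb * s - 5 / 2))

/-- The decay. -/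
noncomputable def E (s : ℝ) : ℝ := Real.exp (-(la * Q (s - s₂)))

/-- The derivative of the exponent. -/
noncomputable def q1 (s : ℝ) : ℝ := rho (4 * (s - s₂) - 1)

/-- The cut. -/
noncomputable def T (s : ℝ) : ℝ := 1 - rho (s - se)

/-- The test function. -/
noncomputable def chi (s : ℝ) : ℝ := R sb s * E la s₂ s * T se s

/-- Rise part of the derivative. -/
noncomputable def p1 (s : ℝ) : ℝ := R1 sb s * ee c0 s

/-- Decay part of the derivative. -/
noncomputable def p2 (s : ℝ) : ℝ := la * q1 s₂ s * chi la sb s₂ se s * ee c0 s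

/-- Cut part of the derivative. -/
noncomputable def p3 (s : ℝ) : ℝ := -(E la s₂ s * deriv rho (s - se) * ee c0 s)

/-- The derivative of the cut part. -/
noncomputable def p3' (s : ℝ) : ℝ := la * q1 s₂ s * E la s₂ s * deriv rho (s - se) * ee c0 s
  - E la s₂ s * deriv (deriv rho) (s - se) * ee c0 s
  - E la s₂ s * deriv rho (s - se) * (c0 * ee c0 s)

lemma ee_d (s : ℝ) : HasDerivAt (ee c0) (c0 * ee c0 s) s := by
  have h : HasDerivAt (fun s : ℝ => s * c0) (1 * c0) s := (hasDerivAt_id s).mul_const c0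
  have h2 : HasDerivAt (ee c0) (Real.exp (s * c0) * (1 * c0)) s := h.exp
  refine h2.congr_deriv ?_
  unfold ee
  ring

lemma ee_pos (s : ℝ) : 0 < ee c0 s := Real.exp_pos _

lemma R_d (s : ℝ) : HasDerivAt (R sb) (R1 sb s) s := by
  have h : HasDerivAt (fun s : ℝ => 4 / sb * s - 5 / 2) (4 / sb * 1) s :=
    ((hasDerivAt_id s).const_mul (4 / sb)).sub_const _
  have h2 : HasDerivAt (R sb) (deriv rho (4 / sb * s - 5 / 2) * (4 / sb * 1)) s :=
    (rho_diff (4 / sb * s - 5 / 2)).comp s h
  refine h2.congr_deriv ?_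
  unfold R1
  ring

lemma R1_d (s : ℝ) : HasDerivAt (R1 sb) (R2 sb s) s := by
  have h : HasDerivAt (fun s : ℝ => 4 / sb * s - 5 / 2) (4 / sb * 1) s :=
    ((hasDerivAt_id s).const_mul (4 / sb)).sub_const _
  have h2 : HasDerivAt (R1 sb) (4 / sb * (deriv (deriv rho) (4 / sb * s - 5 / 2)
      * (4 / sb * 1))) s := ((drho_diff (4 / sb * s - 5 / 2)).comp s h).const_mul (4 / sb)
  refine h2.congr_deriv ?_
  unfold R2
  ring

lemma E_d (s : ℝ) : HasDerivAt (E la s₂) (-(la * q1 s₂ s * E la s₂ s)) s := by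
  have h : HasDerivAt (fun s : ℝ => s - s₂) 1 s := (hasDerivAt_id s).sub_const _
  have h0 : HasDerivAt (fun s => Q (s - s₂)) (rho (4 * (s - s₂) - 1) * 1) s :=
    HasDerivAt.comp (h₂ := Q) s (Q_diff (s - s₂)) h
  have h1 : HasDerivAt (E la s₂) (Real.exp (-(la * Q (s - s₂)))
      * -(la * (rho (4 * (s - s₂) - 1) * 1))) s := (h0.const_mul la).neg.exp
  refine h1.congr_deriv ?_
  unfold q1 E
  ring

lemma T_d (s : ℝ) : HasDerivAt (T se) (-(deriv rho (s - se))) s := by
  have h : HasDerivAt (fun s : ℝ => s - se) 1 s := (hasDerivAt_id s).sub_const _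
  have h1 : HasDerivAt (T se) (-(deriv rho (s - se) * 1)) s :=
    ((rho_diff (s - se)).comp s h).const_sub 1
  refine h1.congr_deriv ?_
  ring

variable {sb s₂ se}

lemma R_zero (hb : 0 < sb) {s : ℝ} (h : s ≤ 5 / 8 * sb) : R sb s = 0 := by
  refine rho_zero ?_
  have : 4 / sb * s ≤ 4 / sb * (5 / 8 * sb) := mul_le_mul_of_nonneg_left h (by positivity)
  have h2 : 4 / sb * (5 / 8 * sb) = 5 / 2 := by
    field_simp
    norm_num
  linarith

lemma R_one (hb : 0 < sb) {s : ℝ} (h : 7 / 8 * sb ≤ s) : R sb s = 1 := by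
  refine rho_one ?_
  have : 4 / sb * (7 / 8 * sb) ≤ 4 / sb * s := mul_le_mul_of_nonneg_left h (by positivity)
  have h2 : 4 / sb * (7 / 8 * sb) = 7 / 2 := by
    field_simp
    norm_num
  linarith

lemma R1_zero (hb : 0 < sb) {s : ℝ} (h : s ∉ Set.Icc (5 / 8 * sb) (7 / 8 * sb)) :
    R1 sb s = 0 ∧ R2 sb s = 0 := by
  have h5 : 4 / sb * (5 / 8 * sb) = 5 / 2 := by
    field_simp
    norm_num
  have h7 : 4 / sb * (7 / 8 * sb) = 7 / 2 := by
    field_simp
    norm_num
  unfold R1 R2
  rcases not_and_or.mp h with h1 | h1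
  · have h2 : 4 / sb * s ≤ 4 / sb * (5 / 8 * sb) :=
      mul_le_mul_of_nonneg_left (not_le.mp h1).le (by positivity)
    rw [drho_le0 (by linarith), ddrho_le0 (by linarith)]
    simp
  · have h2 : 4 / sb * (7 / 8 * sb) ≤ 4 / sb * s :=
      mul_le_mul_of_nonneg_left (not_le.mp h1).le (by positivity)
    rw [drho_ge1 (by linarith), ddrho_ge1 (by linarith)]
    simp

lemma E_one {s : ℝ} (h : s ≤ s₂ + 1 / 4) : E la s₂ s = 1 := by
  unfold E
  rw [Q_zero (by linarith), mul_zero, neg_zero, Real.exp_zero]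

lemma q1_zero {s : ℝ} (h : s ≤ s₂ + 1 / 4) : q1 s₂ s = 0 := rho_zero (by linarith)

lemma T_one {s : ℝ} (h : s ≤ se) : T se s = 1 := by
  unfold T
  rw [rho_zero (by linarith), sub_zero]

lemma T_zero {s : ℝ} (h : se + 1 ≤ s) : T se s = 0 := by
  unfold T
  rw [rho_one (by linarith), sub_self]

lemma dT_zero {s : ℝ} (h : s ∉ Set.Icc se (se + 1)) :
    deriv rho (s - se) = 0 ∧ deriv (deriv rho) (s - se) = 0 := by
  rcases not_and_or.mp h with h1 | h1
  · have := not_le.mp h1
    exact ⟨drho_le0 (by linarith), ddrho_le0 (by linarith)⟩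
  · have := not_le.mp h1
    exact ⟨drho_ge1 (by linarith), ddrho_ge1 (by linarith)⟩

lemma R_mem (s : ℝ) : 0 ≤ R sb s ∧ R sb s ≤ 1 := ⟨rho_nonneg _, rho_le _⟩

lemma E_mem (hla : 0 ≤ la) (s : ℝ) : 0 ≤ E la s₂ s ∧ E la s₂ s ≤ 1 := by
  refine ⟨(Real.exp_pos _).le, ?_⟩
  unfold E
  rw [Real.exp_le_one_iff]
  have := mul_nonneg hla (Q_nonneg (t := s - s₂))
  linarith

lemma T_mem (s : ℝ) : 0 ≤ T se s ∧ T se s ≤ 1 := by
  unfold T
  constructor <;> linarith [rho_nonneg (s - se), rho_le (s - se)]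

lemma chi_mem (hla : 0 ≤ la) (s : ℝ) : 0 ≤ chi la sb s₂ se s ∧ chi la sb s₂ se s ≤ 1 := by
  obtain ⟨h1, h2⟩ := R_mem (sb := sb) s
  obtain ⟨h3, h4⟩ := E_mem (s₂ := s₂) la hla s
  obtain ⟨h5, h6⟩ := T_mem (se := se) s
  exact ⟨mul_nonneg (mul_nonneg h1 h3) h5, mul_le_one₀ (mul_le_one₀ h2 h3 h4) h5 h6⟩

lemma chi_zero (hb : 0 < sb) {s : ℝ} (h : s ∉ Set.Icc (5 / 8 * sb) (se + 1)) :
    chi la sb s₂ se s = 0 := by
  unfold chi
  rcases not_and_or.mp h with h1 | h1
  · rw [R_zero hb (not_le.mp h1).le, zero_mul, zero_mul]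
  · rw [T_zero (not_le.mp h1).le, mul_zero]

/-- The derivative of the test function. -/
lemma chi_d (hb : 0 < sb) (hb2 : sb < s₂) (he : s₂ + 1 ≤ se) (s : ℝ) :
    HasDerivAt (fun s => chi la sb s₂ se s * ee c0 s)
      (p1 c0 sb s - p2 c0 la sb s₂ se s + p3 c0 la s₂ se s
        + c0 * (chi la sb s₂ se s * ee c0 s)) s := by
  have h1 := (((R_d sb s).mul (E_d la s₂ s)).mul (T_d se s)).mul (ee_d c0 s)
  have h2 : R1 sb s * E la s₂ s * T se s = R1 sb s := by
    by_cases h : s ∈ Set.Icc (5 / 8 * sb) (7 / 8 * sb)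
    · rw [E_one la (by linarith [h.2]), T_one (by linarith [h.2]), mul_one, mul_one]
    · rw [(R1_zero hb h).1, zero_mul, zero_mul]
  have h3 : R sb s * E la s₂ s * deriv rho (s - se) = E la s₂ s * deriv rho (s - se) := by
    by_cases h : s ∈ Set.Icc se (se + 1)
    · rw [R_one hb (by linarith [h.1]), one_mul]
    · rw [(dT_zero h).1, mul_zero, mul_zero]
  refine (show HasDerivAt (fun s => chi la sb s₂ se s * ee c0 s) _ s from h1).congr_deriv ?_
  simp only [Pi.mul_apply, p1, p2, p3, chi]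
  linear_combination (ee c0 s) * h2 - ee c0 s * h3

lemma p1_d (s : ℝ) : HasDerivAt (p1 c0 sb) (R2 sb s * ee c0 s + R1 sb s * (c0 * ee c0 s)) s :=
  (R1_d sb s).mul (ee_d c0 s)

lemma p3_d (s : ℝ) : HasDerivAt (p3 c0 la s₂ se) (p3' c0 la s₂ se s) s := by
  have h : HasDerivAt (fun s : ℝ => s - se) 1 s := (hasDerivAt_id s).sub_const _
  have h0 : HasDerivAt (fun s => deriv rho (s - se)) (deriv (deriv rho) (s - se)) s := by
    have h2 : HasDerivAt (fun s => deriv rho (s - se)) (deriv (deriv rho) (s - se) * 1) s :=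
      HasDerivAt.comp (h₂ := deriv rho) s (drho_diff (s - se)) h
    exact h2.congr_deriv (mul_one _)
  have h1 := (((E_d la s₂ s).mul h0).mul (ee_d c0 s)).neg
  refine (show HasDerivAt (p3 c0 la s₂ se) _ s from h1).congr_deriv ?_
  simp only [Pi.mul_apply, p3']
  ring

lemma ee_cont : Continuous (ee c0) := continuous_iff_continuousAt.mpr fun s =>
  (ee_d c0 s).continuousAt

lemma E_cont : Continuous (E la s₂) := continuous_iff_continuousAt.mpr fun s =>
  (E_d la s₂ s).continuousAt

lemma T_cont : Continuous (T se) := continuous_iff_continuousAt.mpr fun s =>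
  (T_d se s).continuousAt

lemma R_cont : Continuous (R sb) := continuous_iff_continuousAt.mpr fun s =>
  (R_d sb s).continuousAt

lemma R1_cont : Continuous (R1 sb) := continuous_iff_continuousAt.mpr fun s =>
  (R1_d sb s).continuousAt

lemma R2_cont : Continuous (R2 sb) := by
  unfold R2
  exact continuous_const.mul (continuous_const.mul (ddrho_cont.comp (by fun_prop)))

lemma q1_cont : Continuous (q1 s₂) := rho_cont.comp (by fun_prop)

lemma chi_cont : Continuous (chi la sb s₂ se) := (R_cont.mul (E_cont la)).mul T_cont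

lemma p1_cont : Continuous (p1 c0 sb) := R1_cont.mul (ee_cont c0)

lemma p2_cont : Continuous (p2 c0 la sb s₂ se) :=
  ((continuous_const.mul q1_cont).mul (chi_cont la)).mul (ee_cont c0)

lemma p3_cont : Continuous (p3 c0 la s₂ se) :=
  (((E_cont la).mul (drho_cont.comp (by fun_prop))).mul (ee_cont c0)).neg

lemma p3'_cont : Continuous (p3' c0 la s₂ se) := by
  have h1 : Continuous fun s : ℝ => deriv rho (s - se) := drho_cont.comp (by fun_prop)
  have h2 : Continuous fun s : ℝ => deriv (deriv rho) (s - se) := ddrho_cont.comp (by fun_prop)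
  unfold p3'
  exact (((((continuous_const.mul q1_cont).mul (E_cont la)).mul h1).mul (ee_cont c0)).sub
    (((E_cont la).mul h2).mul (ee_cont c0))).sub
    (((E_cont la).mul h1).mul (continuous_const.mul (ee_cont c0)))

/-- `C¹` from the derivative. -/
lemma c1_of {f f' : ℝ → ℝ} (h : ∀ s, HasDerivAt f (f' s) s) (hf' : Continuous f') :
    ContDiff ℝ 1 f := by
  rw [contDiff_one_iff_deriv]
  refine ⟨fun s => (h s).differentiableAt, ?_⟩
  have : deriv f = f' := funext fun s => (h s).deriv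
  rwa [this]

lemma tsup {f : ℝ → ℝ} {a b : ℝ} (h : ∀ s, s ∉ Set.Icc a b → f s = 0) :
    tsupport f ⊆ Set.Icc a b := by
  refine closure_minimal (fun s hs => ?_) isClosed_Icc
  by_contra h'
  exact hs (h s h')

lemma csup {f : ℝ → ℝ} {a b : ℝ} (h : ∀ s, s ∉ Set.Icc a b → f s = 0) : HasCompactSupport f :=
  HasCompactSupport.intro isCompact_Icc fun s hs => h s hs

/-- The integral of a derivative of a compactly supported function. -/
lemma int_deriv {f f' : ℝ → ℝ} (h : ∀ s, HasDerivAt f (f' s) s) (hf' : Continuous f') {a b : ℝ}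
    (h0 : ∀ s, s ∉ Set.Icc a b → f s = 0) (h1 : ∀ s, s ∉ Set.Icc a b → f' s = 0) :
    ∫ s, f' s = 0 := by
  have h2 : Integrable f' := hf'.integrable_of_hasCompactSupport (csup h1)
  have h3 : Tendsto f atTop (𝓝 0) := by
    refine tendsto_const_nhds.congr' ?_
    filter_upwards [eventually_gt_atTop b] with s hs
    exact (h0 s fun h => absurd h.2 (not_le.mpr hs)).symm
  have h4 : Tendsto f atBot (𝓝 0) := by
    refine tendsto_const_nhds.congr' ?_
    filter_upwards [eventually_lt_atBot a] with s hs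
    exact (h0 s fun h => absurd h.1 (not_le.mpr hs)).symm
  have h5 := integral_of_hasDerivAt_of_tendsto h h2 h4 h3
  simpa using h5

end fns

section bounds

variable {K c0 la sb s₂ se : ℝ}

lemma p1_bound (hK : 1 ≤ K) (hK1 : ∀ t, |deriv rho t| ≤ K) (hK2 : ∀ t, |deriv (deriv rho) t| ≤ K)
    (hc : 0 < c0) (hc1 : c0 ≤ 1) (hb : 0 < sb) (hb1 : sb ≤ 1) (s : ℝ) :
    |p1 c0 sb s| ≤ 20 * K * Real.exp 1 / sb ^ 2 ∧
      |deriv (p1 c0 sb) s| ≤ 20 * K * Real.exp 1 / sb ^ 2 := by
  have he := Real.exp_pos 1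
  rw [(p1_d c0 s).deriv]
  by_cases h : s ∈ Set.Icc (5 / 8 * sb) (7 / 8 * sb)
  · have h0 : 0 ≤ s := by linarith [h.1]
    have h1 : s ≤ 1 := by linarith [h.2]
    have h2 : ee c0 s ≤ Real.exp 1 := by
      unfold ee
      exact Real.exp_le_exp.mpr (mul_le_one₀ h1 hc.le hc1)
    have h3 := ee_pos c0 s
    have h4 : |R1 sb s| ≤ 4 / sb * K := by
      unfold R1
      rw [abs_mul, abs_of_nonneg (by positivity : (0 : ℝ) ≤ 4 / sb)]
      exact mul_le_mul_of_nonneg_left (hK1 _) (by positivity)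
    have h5 : |R2 sb s| ≤ 4 / sb * (4 / sb * K) := by
      unfold R2
      rw [abs_mul, abs_mul, abs_of_nonneg (by positivity : (0 : ℝ) ≤ 4 / sb)]
      exact mul_le_mul_of_nonneg_left (mul_le_mul_of_nonneg_left (hK2 _) (by positivity))
        (by positivity)
    have h6 : 4 / sb ≤ 4 / sb ^ 2 := by
      refine div_le_div_of_nonneg_left (by norm_num) (by positivity) ?_
      calc sb ^ 2 = sb * sb := sq sb
        _ ≤ sb * 1 := mul_le_mul_of_nonneg_left hb1 hb.le
        _ = sb := mul_one _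
    have h7 : |R1 sb s| ≤ 4 / sb ^ 2 * K := h4.trans (mul_le_mul_of_nonneg_right h6 (by linarith))
    have h8 : |R2 sb s| ≤ 16 / sb ^ 2 * K := by
      refine h5.trans (le_of_eq ?_)
      field_simp
      norm_num
    have h9 : 20 * K * Real.exp 1 / sb ^ 2 = 20 / sb ^ 2 * K * Real.exp 1 := by ring
    have hq : 0 ≤ 1 / sb ^ 2 * K := by positivity
    have h10 : |R1 sb s| * ee c0 s ≤ 4 / sb ^ 2 * K * Real.exp 1 :=
      mul_le_mul h7 h2 h3.le (by positivity)
    have h11 : |R2 sb s| * ee c0 s ≤ 16 / sb ^ 2 * K * Real.exp 1 :=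
      mul_le_mul h8 h2 h3.le (by positivity)
    have hqq : 0 ≤ 1 / sb ^ 2 * K * Real.exp 1 := by positivity
    have e4 : 4 / sb ^ 2 * K * Real.exp 1 = 4 * (1 / sb ^ 2 * K * Real.exp 1) := by ring
    have e16 : 16 / sb ^ 2 * K * Real.exp 1 = 16 * (1 / sb ^ 2 * K * Real.exp 1) := by ring
    have e20 : 20 / sb ^ 2 * K * Real.exp 1 = 20 * (1 / sb ^ 2 * K * Real.exp 1) := by ring
    constructor
    · unfold p1
      rw [abs_mul, abs_of_pos h3, h9]
      linarith
    · refine (abs_add_le _ _).trans ?_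
      rw [abs_mul, abs_mul, abs_mul, abs_of_pos h3, abs_of_pos hc, h9]
      have h12 : |R1 sb s| * (c0 * ee c0 s) ≤ |R1 sb s| * ee c0 s := by
        refine mul_le_mul_of_nonneg_left ?_ (abs_nonneg _)
        calc c0 * ee c0 s ≤ 1 * ee c0 s := mul_le_mul_of_nonneg_right hc1 h3.le
          _ = ee c0 s := one_mul _
      linarith
  · obtain ⟨h1, h2⟩ := R1_zero hb h
    unfold p1
    rw [h1, h2]
    simp only [zero_mul, add_zero, abs_zero]
    constructor <;> positivity

lemma p1_supp (hb : 0 < sb) {s : ℝ} (h : s ∉ Set.Icc (5 / 8 * sb) (7 / 8 * sb)) :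
    p1 c0 sb s = 0 := by
  unfold p1
  rw [(R1_zero hb h).1, zero_mul]

lemma p1_int (hc : 0 < c0) (hb : 0 < sb) : 1 ≤ ∫ s, p1 c0 sb s := by
  have h1 : Integrable (R1 sb) := R1_cont.integrable_of_hasCompactSupport
    (csup fun s hs => (R1_zero hb hs).1)
  have h2 : ∫ s, R1 sb s = 1 - 0 := by
    refine integral_of_hasDerivAt_of_tendsto (R_d sb) h1 ?_ ?_
    · refine tendsto_const_nhds.congr' ?_
      filter_upwards [eventually_lt_atBot 0] with s hs
      exact (R_zero hb (by linarith [mul_pos (by norm_num : (0 : ℝ) < 5 / 8) hb])).symm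
    · refine tendsto_const_nhds.congr' ?_
      filter_upwards [eventually_gt_atTop (7 / 8 * sb)] with s hs
      exact (R_one hb hs.le).symm
  have h3 : Integrable (p1 c0 sb) := (p1_cont c0).integrable_of_hasCompactSupport
    (csup fun s hs => p1_supp hb hs)
  calc (1 : ℝ) = ∫ s, R1 sb s := by rw [h2, sub_zero]
    _ ≤ ∫ s, p1 c0 sb s := by
      refine integral_mono h1 h3 fun s => ?_
      by_cases h : s ∈ Set.Icc (5 / 8 * sb) (7 / 8 * sb)
      · have h4 : 0 ≤ R1 sb s := mul_nonneg (by positivity) (drho_nonneg _)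
        have h5 : 1 ≤ ee c0 s := by
          unfold ee
          exact Real.one_le_exp (mul_nonneg (le_trans (by positivity) h.1) hc.le)
        calc R1 sb s = R1 sb s * 1 := (mul_one _).symm
          _ ≤ R1 sb s * ee c0 s := mul_le_mul_of_nonneg_left h5 h4
      · simp only [p1, (R1_zero hb h).1, zero_mul]
        exact le_refl _

lemma p3_supp {s : ℝ} (h : s ∉ Set.Icc se (se + 1)) :
    p3 c0 la s₂ se s = 0 ∧ p3' c0 la s₂ se s = 0 := by
  unfold p3 p3'
  rw [(dT_zero h).1, (dT_zero h).2]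
  simp

lemma p3_bound (hK : 1 ≤ K) (hK1 : ∀ t, |deriv rho t| ≤ K)
    (hK2 : ∀ t, |deriv (deriv rho) t| ≤ K) (hc : 0 < c0) (hc1 : c0 ≤ 1) (hla : 0 ≤ la)
    (he : s₂ + 1 ≤ se) (s : ℝ) :
    |p3 c0 la s₂ se s| ≤ K * Real.exp (la / 2 + 1) * (Real.exp (s₂ * c0)
        * Real.exp (-((la - c0) * (se - s₂)))) ∧
      |p3' c0 la s₂ se s| ≤ (la + 2) * K * Real.exp (la / 2 + 1) * (Real.exp (s₂ * c0)
        * Real.exp (-((la - c0) * (se - s₂)))) := by
  by_cases h : s ∈ Set.Icc se (se + 1)
  · have h1 : E la s₂ s * ee c0 s ≤ Real.exp (la / 2 + 1) * (Real.exp (s₂ * c0)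
        * Real.exp (-((la - c0) * (se - s₂)))) := by
      unfold E ee
      rw [← Real.exp_add, ← Real.exp_add, ← Real.exp_add, Real.exp_le_exp]
      have h2 : s - s₂ - 1 / 2 ≤ Q (s - s₂) := Q_ge (by linarith [h.1])
      have h3 : la * (se - s₂ - 1 / 2) ≤ la * Q (s - s₂) :=
        mul_le_mul_of_nonneg_left (by linarith [h.1]) hla
      have h4 : s * c0 ≤ (se + 1) * c0 := mul_le_mul_of_nonneg_right h.2 hc.le
      nlinarith
    have hE : 0 ≤ E la s₂ s := (Real.exp_pos _).le
    have he' : 0 < ee c0 s := ee_pos _ _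
    have hE0 : 0 ≤ E la s₂ s * ee c0 s := mul_nonneg hE he'.le
    set Z := Real.exp (la / 2 + 1) * (Real.exp (s₂ * c0)
        * Real.exp (-((la - c0) * (se - s₂)))) with hZ
    have hZ0 : 0 ≤ Z := hE0.trans h1
    have hq : 0 ≤ q1 s₂ s ∧ q1 s₂ s ≤ 1 := ⟨rho_nonneg _, rho_le _⟩
    have hKZ : 0 ≤ K * Z := mul_nonneg (by linarith) hZ0
    have hA : |deriv rho (s - se)| * (E la s₂ s * ee c0 s) ≤ K * Z :=
      mul_le_mul (hK1 _) h1 hE0 (by linarith)
    have hB : |deriv (deriv rho) (s - se)| * (E la s₂ s * ee c0 s) ≤ K * Z :=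
      mul_le_mul (hK2 _) h1 hE0 (by linarith)
    have hA0 : 0 ≤ |deriv rho (s - se)| * (E la s₂ s * ee c0 s) := mul_nonneg (abs_nonneg _) hE0
    constructor
    · have e1 : p3 c0 la s₂ se s = -(deriv rho (s - se) * (E la s₂ s * ee c0 s)) := by
        unfold p3
        ring
      rw [e1, abs_neg, abs_mul, abs_of_nonneg hE0]
      linarith
    · have e1 : p3' c0 la s₂ se s = la * q1 s₂ s * (deriv rho (s - se) * (E la s₂ s * ee c0 s))
          - deriv (deriv rho) (s - se) * (E la s₂ s * ee c0 s)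
          - c0 * (deriv rho (s - se) * (E la s₂ s * ee c0 s)) := by
        unfold p3'
        ring
      rw [e1]
      have t1 : |la * q1 s₂ s * (deriv rho (s - se) * (E la s₂ s * ee c0 s))| ≤ la * (K * Z) := by
        rw [abs_mul, abs_mul, abs_mul, abs_of_nonneg hla, abs_of_nonneg hq.1, abs_of_nonneg hE0]
        calc la * q1 s₂ s * (|deriv rho (s - se)| * (E la s₂ s * ee c0 s))
            ≤ la * 1 * (|deriv rho (s - se)| * (E la s₂ s * ee c0 s)) :=
              mul_le_mul_of_nonneg_right (mul_le_mul_of_nonneg_left hq.2 hla) hA0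
          _ ≤ la * 1 * (K * Z) := mul_le_mul_of_nonneg_left hA (by linarith)
          _ = la * (K * Z) := by ring
      have t2 : |deriv (deriv rho) (s - se) * (E la s₂ s * ee c0 s)| ≤ K * Z := by
        rw [abs_mul, abs_of_nonneg hE0]
        exact hB
      have t3 : |c0 * (deriv rho (s - se) * (E la s₂ s * ee c0 s))| ≤ K * Z := by
        rw [abs_mul, abs_mul, abs_of_pos hc, abs_of_nonneg hE0]
        calc c0 * (|deriv rho (s - se)| * (E la s₂ s * ee c0 s))
            ≤ 1 * (|deriv rho (s - se)| * (E la s₂ s * ee c0 s)) :=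
              mul_le_mul_of_nonneg_right hc1 hA0
          _ ≤ K * Z := by linarith
      refine (abs_sub _ _).trans ?_
      have t4 := abs_sub (la * q1 s₂ s * (deriv rho (s - se) * (E la s₂ s * ee c0 s)))
        (deriv (deriv rho) (s - se) * (E la s₂ s * ee c0 s))
      nlinarith
  · rw [(p3_supp h).1, (p3_supp h).2, abs_zero]
    constructor
    · positivity
    · have : 0 ≤ la + 2 := by linarith
      positivity

end bounds

end ETSTA

open ETSTA in
/-- TSTA. -/
theorem TSTA : Stmt_TSTA := by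
  intro ε hε0 hε1
  obtain ⟨K, hK, hK1, hK2⟩ := bound
  set c0 : ℝ := 1 / (2 - ε) with hc0
  set la : ℝ := lam ε / 2 with hla
  have h2ε : 0 < 2 - ε := by linarith
  have hc : 0 < c0 := by positivity
  have hc1 : c0 ≤ 1 := by
    rw [hc0, div_le_one h2ε]
    linarith
  have hlam : 0 < lam ε := by
    unfold lam
    exact div_pos (by linarith) (mul_pos hε0 h2ε)
  have hla0 : 0 < la := by positivity
  set C : ℝ := 20 * K * Real.exp 1 + (la + 3 + 8 * Real.pi) * K * Real.exp (la / 2 + 1) with hC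
  have hpi := Real.pi_pos
  have hCpos : 0 < C := by
    have := Real.exp_pos 1
    have := Real.exp_pos (la / 2 + 1)
    positivity
  refine ⟨C, hCpos, ?_⟩
  intro Ω vol w X Φ D S sb s₂ sM B₁ B₂ hA hb hb1 hb2 hB1 hB2 se hse hsM
  have hee : ∀ t, Real.exp (t / (2 - ε)) = ee c0 t := by
    intro t
    unfold ee
    rw [hc0, mul_one_div]
  refine ⟨chi la sb s₂ se, chi_cont la, chi_mem la hla0.le, ?_, ?_, ?_, ?_, ?_⟩
  · intro s hs
    exact chi_zero la hb fun h => by linarith [h.1, mul_pos (by norm_num : (0 : ℝ) < 1 / 8) hb]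
  · intro s hs hs'
    unfold chi
    rw [R_one hb (by linarith), E_one la (by linarith), T_one (by linarith), mul_one, mul_one]
  · intro s hs hs'
    unfold chi
    rw [R_one hb (by linarith), T_one hs', mul_one, one_mul]
    unfold E
    rw [Real.exp_le_exp]
    have h1 : Q (s - s₂) ≤ s - s₂ := Q_le (by linarith)
    have h2 := mul_le_mul_of_nonneg_left h1 hla0.le
    linarith
  · intro s hs
    unfold chi
    rw [T_zero hs, mul_zero]
  -- the integrals
  set ψ : ℝ → ℝ := fun s => chi la sb s₂ se s * ee c0 s with hψ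
  have hψc : Continuous ψ := (chi_cont la).mul (ee_cont c0)
  have hψ0 : ∀ s, 0 ≤ ψ s := fun s => mul_nonneg (chi_mem la hla0.le s).1 (ee_pos c0 s).le
  have hψs : ∀ s, s ∉ Set.Icc (5 / 8 * sb) (se + 1) → ψ s = 0 := fun s hs => by
    simp only [hψ]
    rw [chi_zero la hb hs, zero_mul]
  have hψd := chi_d c0 la hb hb2 hse
  have hdψc : Continuous fun s => p1 c0 sb s - p2 c0 la sb s₂ se s + p3 c0 la s₂ se s
      + c0 * (chi la sb s₂ se s * ee c0 s) :=
    (((p1_cont c0).sub (p2_cont c0 la)).add (p3_cont c0 la)).add (continuous_const.mul hψc)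
  have hψ1 : ContDiff ℝ 1 ψ := c1_of hψd hdψc
  have hsub : Set.Icc (5 / 8 * sb) (se + 1) ⊆ Set.Ioo (sb / 4) sM := fun s hs =>
    ⟨by linarith [hs.1], by linarith [hs.2]⟩
  have hmi := hA.mi ψ hψ1 hψ0 (csup hψs) ((tsup hψs).trans hsub)
  -- supports
  have p1s : ∀ s, s ∉ Set.Icc (5 / 8 * sb) (se + 1) → p1 c0 sb s = 0 := fun s hs =>
    p1_supp hb fun h => hs ⟨h.1, by linarith [h.2]⟩
  have p2s : ∀ s, s ∉ Set.Icc (5 / 8 * sb) (se + 1) → p2 c0 la sb s₂ se s = 0 := fun s hs => by
    unfold p2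
    rw [chi_zero la hb hs, mul_zero, zero_mul]
  have p2s' : ∀ s, s ∉ Set.Icc (s₂ + 1 / 4) (se + 1) → p2 c0 la sb s₂ se s = 0 := fun s hs => by
    unfold p2
    rcases not_and_or.mp hs with h1 | h1
    · rw [q1_zero (not_le.mp h1).le, mul_zero, zero_mul, zero_mul]
    · rw [chi_zero la hb (fun h => h1 h.2), mul_zero, zero_mul]
  have p3s : ∀ s, s ∉ Set.Icc (5 / 8 * sb) (se + 1) → p3 c0 la s₂ se s = 0 := fun s hs =>
    (p3_supp fun h => hs ⟨by linarith [h.1], h.2⟩).1
  have hΦ := hA.int_Phi (5 / 8 * sb) (se + 1) (by linarith) (by linarith) hsM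
  have hDi := hA.int_D (5 / 8 * sb) (se + 1) (by linarith) (by linarith) hsM
  have hSi := hA.int_S (5 / 8 * sb) (se + 1) (by linarith) (by linarith) hsM
  have i1 := band_int hA.measOmega hA.meas_w hΦ (p1_cont (sb := sb) c0) p1s
  have i2 := band_int hA.measOmega hA.meas_w hΦ (p2_cont (sb := sb) (s₂ := s₂) (se := se) c0 la) p2s
  have i3 := band_int hA.measOmega hA.meas_w hΦ (p3_cont (s₂ := s₂) (se := se) c0 la) p3s
  have i4 := band_int hA.measOmega hA.meas_w hΦ hψc hψs
  have iD := band_int hA.measOmega hA.meas_w hDi hψc hψs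
  have iS := band_int hA.measOmega hA.meas_w hSi hψc hψs
  set I1 := ∫ x in Ω, p1 c0 sb (w x) * Φ x * vol x with hI1
  set I2 := ∫ x in Ω, p2 c0 la sb s₂ se (w x) * Φ x * vol x with hI2
  set I3 := ∫ x in Ω, p3 c0 la s₂ se (w x) * Φ x * vol x with hI3
  set P := ∫ x in Ω, ψ (w x) * Φ x * vol x with hP
  set SS := ∫ x in Ω, ψ (w x) * S x * vol x with hSS
  set DD := ∫ x in Ω, ψ (w x) * D x * vol x with hDD
  set J1 := ∫ s, p1 c0 sb s with hJ1
  set J2 := ∫ s, p2 c0 la sb s₂ se s with hJ2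
  set J3 := ∫ s, p3 c0 la s₂ se s with hJ3
  set J := ∫ s, ψ s with hJ
  have e1 : ∫ x in Ω, deriv ψ (w x) * Φ x * vol x = I1 - I2 + I3 + c0 * P := by
    rw [hI1, hI2, hI3, hP, ← comb4 c0 i1 i2 i3 i4]
    refine integral_congr_ae (Eventually.of_forall fun x => ?_)
    show deriv ψ (w x) * Φ x * vol x = _
    rw [(hψd (w x)).deriv]
    simp only [hψ]
    ring
  have e2 : ∫ x in Ω, ψ (w x) * (S x + D x) * vol x = SS + DD := by
    rw [hSS, hDD, ← integral_add iS iD]
    refine integral_congr_ae (Eventually.of_forall fun x => ?_)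
    show ψ (w x) * (S x + D x) * vol x = _
    ring
  have e3 : J1 - J2 + J3 + c0 * J = 0 := by
    have h1 := int_deriv hψd hdψc hψs (fun s hs => by
      rw [p1s s hs, p2s s hs, p3s s hs]
      have := hψs s hs
      simp only [hψ] at this
      rw [this]
      ring)
    have j1 : Integrable (p1 c0 sb) := (p1_cont c0).integrable_of_hasCompactSupport (csup p1s)
    have j2 : Integrable (p2 c0 la sb s₂ se) :=
      (p2_cont c0 la).integrable_of_hasCompactSupport (csup p2s)
    have j3 : Integrable (p3 c0 la s₂ se) :=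
      (p3_cont c0 la).integrable_of_hasCompactSupport (csup p3s)
    have j4 : Integrable ψ := hψc.integrable_of_hasCompactSupport (csup hψs)
    rw [hJ1, hJ2, hJ3, hJ, ← comb4 c0 j1 j2 j3 j4, ← h1]
  rw [e1, e2] at hmi
  -- the rise
  have hrise : |I1| ≤ B₂ * (20 * K * Real.exp 1 / sb ^ 2) := by
    refine hA.inner (p1 c0 sb) _ (c1_of (p1_d c0) ?_) (csup fun s hs => p1_supp hb hs)
      ((tsup fun s hs => p1_supp hb hs).trans fun s hs =>
        ⟨by linarith [hs.1], by linarith [hs.2]⟩)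
      (p1_bound hK hK1 hK2 hc hc1 hb hb1)
    exact (R2_cont.mul (ee_cont c0)).add (R1_cont.mul (continuous_const.mul (ee_cont c0)))
  have hJ1' : 1 ≤ J1 := p1_int hc hb
  -- the decay
  have hp20 : ∀ s, 0 ≤ p2 c0 la sb s₂ se s := fun s =>
    mul_nonneg (mul_nonneg (mul_nonneg hla0.le (rho_nonneg _)) (chi_mem la hla0.le s).1)
      (ee_pos c0 s).le
  have hdecay : 4 * Real.pi * (2 - ε) * J2 - I2 ≤ DD / 2 := by
    have h1 := hA.willmore (p2 c0 la sb s₂ se) (p2_cont c0 la) hp20 (csup p2s')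
      ((tsup p2s').trans fun s hs => ⟨by linarith [hs.1], by linarith [hs.2]⟩)
    refine h1.trans ?_
    have i5 := band_int hA.measOmega hA.meas_w hDi
      (p2_cont (sb := sb) (s₂ := s₂) (se := se) c0 la) p2s
    have h2 : ∫ x in Ω, p2 c0 la sb s₂ se (w x) * D x * vol x ≤ la * DD := by
      rw [hDD, ← integral_const_mul]
      refine integral_mono_ae i5 (iD.const_mul la) ?_
      filter_upwards [hA.D_nonneg] with x hx
      have h3 : p2 c0 la sb s₂ se (w x) ≤ la * ψ (w x) := by
        have h4 : q1 s₂ (w x) ≤ 1 := rho_le _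
        have h5 : p2 c0 la sb s₂ se (w x) = q1 s₂ (w x) * (la * ψ (w x)) := by
          simp only [hψ, p2]
          ring
        rw [h5]
        exact mul_le_of_le_one_left (mul_nonneg hla0.le (hψ0 _)) h4
      have h6 : 0 ≤ D x * vol x := mul_nonneg hx (hA.vol_nonneg x)
      calc p2 c0 la sb s₂ se (w x) * D x * vol x = p2 c0 la sb s₂ se (w x) * (D x * vol x) := by
            ring
        _ ≤ la * ψ (w x) * (D x * vol x) := mul_le_mul_of_nonneg_right h3 h6
        _ = la * (ψ (w x) * D x * vol x) := by ring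
    have h7 : 1 / lam ε * (∫ x in Ω, p2 c0 la sb s₂ se (w x) * D x * vol x)
        ≤ 1 / lam ε * (la * DD) := mul_le_mul_of_nonneg_left h2 (by positivity)
    refine h7.trans (le_of_eq ?_)
    rw [hla]
    field_simp
  -- the cut
  set Z := Real.exp (s₂ * c0) * Real.exp (-((la - c0) * (se - s₂))) with hZ
  have hZ0 : 0 < Z := mul_pos (Real.exp_pos _) (Real.exp_pos _)
  set Y := K * Real.exp (la / 2 + 1) * Z with hY
  have hY0 : 0 < Y := mul_pos (mul_pos (by linarith) (Real.exp_pos _)) hZ0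
  have hp3b : ∀ s, |p3 c0 la s₂ se s| ≤ Y := fun s =>
    (p3_bound hK hK1 hK2 hc hc1 hla0.le hse s).1
  have hp3b' : ∀ s, |p3' c0 la s₂ se s| ≤ (la + 2) * Y := fun s => by
    refine ((p3_bound hK hK1 hK2 hc hc1 hla0.le hse s).2).trans (le_of_eq ?_)
    rw [hY]
    ring
  have hcutJ : -J3 ≤ Y := by
    have h1 : |J3| ≤ Y := by
      have h2 : J3 = ∫ s in Set.Icc se (se + 1), p3 c0 la s₂ se s := by
        rw [hJ3]
        exact (setIntegral_eq_integral_of_forall_compl_eq_zero fun s hs => (p3_supp hs).1).symm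
      rw [h2, ← Real.norm_eq_abs]
      have h3 := norm_setIntegral_le_of_norm_le_const (μ := volume) (s := Set.Icc se (se + 1))
        (f := p3 c0 la s₂ se) (C := Y) measure_Icc_lt_top fun s _ => hp3b s
      refine h3.trans (le_of_eq ?_)
      simp
    linarith [neg_abs_le J3]
  have hcutI : I3 ≤ (la + 3) * Y * B₁ := by
    have h0 : ∀ s, s ∉ Set.Icc se (se + 1) → p3 c0 la s₂ se s = 0 := fun s hs => (p3_supp hs).1
    have h1 := hA.xid (p3 c0 la s₂ se) (c1_of (p3_d c0 la) (p3'_cont c0 la)) (csup h0)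
      ((tsup h0).trans fun s hs => ⟨by linarith [hs.1], by linarith [hs.2]⟩)
    have hwin := hA.window se (by linarith) (by linarith)
    have hband : MeasurableSet {x | se < w x ∧ w x < se + 1} :=
      (measurableSet_lt measurable_const hA.meas_w).inter
        (measurableSet_lt hA.meas_w measurable_const)
    have hcont : Continuous fun s => p3 c0 la s₂ se s + ε * p3' c0 la s₂ se s :=
      (p3_cont c0 la).add (continuous_const.mul (p3'_cont c0 la))
    have hiX := hA.int_X se (se + 1) (by linarith) (by linarith) hsM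
    have iX := band_int (F := fun x => X x ^ 3) hA.measOmega hA.meas_w hiX hcont (fun s hs => by
      rw [(p3_supp hs).1, (p3_supp hs).2, mul_zero, add_zero])
    have h2 : ∫ x in Ω, (p3 c0 la s₂ se (w x) + ε * deriv (p3 c0 la s₂ se) (w x)) * X x ^ 3 * vol x
        ≤ (la + 3) * Y * B₁ := by
      have h3 : ∫ x in Ω, (p3 c0 la s₂ se (w x) + ε * deriv (p3 c0 la s₂ se) (w x)) * X x ^ 3
            * vol x
          = ∫ x in Ω ∩ {x | se < w x ∧ w x < se + 1},
            (p3 c0 la s₂ se (w x) + ε * p3' c0 la s₂ se (w x)) * X x ^ 3 * vol x := by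
        rw [← setIntegral_eq_of_subset_of_forall_sdiff_eq_zero hA.measOmega
          (Set.inter_subset_left (t := {x | se < w x ∧ w x < se + 1}))]
        · refine setIntegral_congr_fun hA.measOmega fun x _ => ?_
          show (p3 c0 la s₂ se (w x) + ε * deriv (p3 c0 la s₂ se) (w x)) * X x ^ 3 * vol x = _
          rw [(p3_d c0 la (w x)).deriv]
        · intro x hx
          have h4 : ¬ (se < w x ∧ w x < se + 1) := fun h => hx.2 ⟨hx.1, h⟩
          have h5 : p3 c0 la s₂ se (w x) = 0 ∧ p3' c0 la s₂ se (w x) = 0 := by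
            have h6 : deriv rho (w x - se) = 0 ∧ deriv (deriv rho) (w x - se) = 0 := by
              rcases not_and_or.mp h4 with h7 | h7
              · exact ⟨drho_le0 (by linarith [not_lt.mp h7]), ddrho_le0 (by linarith [not_lt.mp h7])⟩
              · exact ⟨drho_ge1 (by linarith [not_lt.mp h7]), ddrho_ge1 (by linarith [not_lt.mp h7])⟩
            unfold p3 p3'
            rw [h6.1, h6.2]
            simp
          rw [h5.1, h5.2]
          ring
      rw [h3]
      have hiX' : IntegrableOn (fun x => X x ^ 3 * vol x) (Ω ∩ {x | se < w x ∧ w x < se + 1}) :=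
        hiX.mono_set fun x hx => ⟨hx.1, hx.2.1.le, hx.2.2.le⟩
      calc ∫ x in Ω ∩ {x | se < w x ∧ w x < se + 1},
            (p3 c0 la s₂ se (w x) + ε * p3' c0 la s₂ se (w x)) * X x ^ 3 * vol x
          ≤ ∫ x in Ω ∩ {x | se < w x ∧ w x < se + 1}, (la + 3) * Y * (X x ^ 3 * vol x) := by
            refine integral_mono (iX.mono_set Set.inter_subset_left) (hiX'.const_mul _)
              fun x => ?_
            have h8 : p3 c0 la s₂ se (w x) + ε * p3' c0 la s₂ se (w x) ≤ (la + 3) * Y := by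
              have h9 := (abs_le.mp (hp3b (w x))).2
              have h10 := (abs_le.mp (hp3b' (w x))).2
              have h11 : ε * p3' c0 la s₂ se (w x) ≤ 1 * ((la + 2) * Y) := by
                calc ε * p3' c0 la s₂ se (w x) ≤ ε * ((la + 2) * Y) :=
                      mul_le_mul_of_nonneg_left h10 hε0.le
                  _ ≤ 1 * ((la + 2) * Y) :=
                      mul_le_mul_of_nonneg_right (by linarith) (by positivity)
              linarith
            have h12 : 0 ≤ X x ^ 3 * vol x :=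
              mul_nonneg (pow_nonneg (hA.X_nonneg x) 3) (hA.vol_nonneg x)
            calc (p3 c0 la s₂ se (w x) + ε * p3' c0 la s₂ se (w x)) * X x ^ 3 * vol x
                = (p3 c0 la s₂ se (w x) + ε * p3' c0 la s₂ se (w x)) * (X x ^ 3 * vol x) := by
                  ring
              _ ≤ (la + 3) * Y * (X x ^ 3 * vol x) := mul_le_mul_of_nonneg_right h8 h12
        _ = (la + 3) * Y * ∫ x in Ω ∩ {x | se < w x ∧ w x < se + 1}, X x ^ 3 * vol x :=
            integral_const_mul _ _
        _ ≤ (la + 3) * Y * B₁ := mul_le_mul_of_nonneg_left hwin (by positivity)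
    rw [hI3, h1]
    have h13 : 0 ≤ (la + 3) * Y * B₁ := by positivity
    calc 1 / (2 - ε) * ∫ x in Ω, (p3 c0 la s₂ se (w x) + ε * deriv (p3 c0 la s₂ se) (w x))
          * X x ^ 3 * vol x
        ≤ 1 / (2 - ε) * ((la + 3) * Y * B₁) := mul_le_mul_of_nonneg_left h2 hc.le
      _ ≤ 1 * ((la + 3) * Y * B₁) := mul_le_mul_of_nonneg_right hc1 h13
      _ = (la + 3) * Y * B₁ := one_mul _
  -- conclusion
  have e4 : ∫ x in Ω, chi la sb s₂ se (w x) * Real.exp (w x / (2 - ε)) * (S x + D x / 2) * vol x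
      = SS + DD / 2 := by
    rw [hSS, hDD, ← integral_div, ← integral_add iS (iD.div_const 2)]
    refine integral_congr_ae (Eventually.of_forall fun x => ?_)
    show chi la sb s₂ se (w x) * Real.exp (w x / (2 - ε)) * (S x + D x / 2) * vol x = _
    rw [hee]
    simp only [hψ]
    ring
  rw [e4, hee]
  have e5 : Real.exp (-((lam ε / 2 - 1 / (2 - ε)) * (se - s₂)))
      = Real.exp (-((la - c0) * (se - s₂))) := rfl
  have e6 : (1 + B₁) * ee c0 s₂ * Real.exp (-((la - c0) * (se - s₂))) = (1 + B₁) * Z := by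
    rw [hZ]
    unfold ee
    ring
  rw [e5, e6]
  have hI1' := (abs_le.mp hrise).2
  have e7 : J = -((2 - ε) * (J1 - J2 + J3)) := by
    have h1 : c0 * J = -(J1 - J2 + J3) := by linarith
    have h2 : (2 - ε) * (c0 * J) = J := by
      rw [hc0]
      field_simp
    rw [← h2, h1]
    ring
  rw [e7, ← hc0] at hmi
  have h14 : SS + DD ≤ I1 - I2 + I3 - 4 * Real.pi * (2 - ε) * (J1 - J2 + J3) := by
    have h15 : 4 * Real.pi * -((2 - ε) * (J1 - J2 + J3))
        = -(4 * Real.pi * (2 - ε) * (J1 - J2 + J3)) := by ring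
    rw [h15] at hmi
    linarith
  have h16 : 4 * Real.pi * (2 - ε) * 1 ≤ 4 * Real.pi * (2 - ε) * J1 :=
    mul_le_mul_of_nonneg_left hJ1' (by positivity)
  have h17 : 4 * Real.pi * (2 - ε) * (-J3) ≤ 8 * Real.pi * Y := by
    calc 4 * Real.pi * (2 - ε) * (-J3) ≤ 4 * Real.pi * (2 - ε) * Y :=
          mul_le_mul_of_nonneg_left hcutJ (by positivity)
      _ ≤ 4 * Real.pi * 2 * Y := by
          refine mul_le_mul_of_nonneg_right ?_ hY0.le
          exact mul_le_mul_of_nonneg_left (by linarith) (by positivity)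
      _ = 8 * Real.pi * Y := by ring
  have h18 : 4 * Real.pi * (2 - ε) + (SS + DD / 2)
      ≤ B₂ * (20 * K * Real.exp 1 / sb ^ 2) + (la + 3) * Y * B₁ + 8 * Real.pi * Y := by
    linarith
  refine h18.trans ?_
  have h19 : C * (B₂ / sb ^ 2 + (1 + B₁) * Z)
      = B₂ * (20 * K * Real.exp 1 / sb ^ 2) + (la + 3) * Y * B₁ + 8 * Real.pi * Y
        + ((la + 3 + 8 * Real.pi) * K * Real.exp (la / 2 + 1) * (B₂ / sb ^ 2)
          + 20 * K * Real.exp 1 * ((1 + B₁) * Z) + (la + 3) * Y + 8 * Real.pi * Y * B₁) := by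
    rw [hC, hY]
    ring
  rw [h19]
  have h20 : 0 ≤ (la + 3 + 8 * Real.pi) * K * Real.exp (la / 2 + 1) * (B₂ / sb ^ 2)
          + 20 * K * Real.exp 1 * ((1 + B₁) * Z) + (la + 3) * Y + 8 * Real.pi * Y * B₁ := by
    have hK0 : 0 < K := by linarith
    positivity
  linarith

end Pool.Agent.PFlow


end
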