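import Mathlib
import Pool.Agent.PFlow.StmtsE3
import Pool.Agent.PFlow.StmtsM
import Pool.Agent.PenroseM.C03
import Pool.Agent.PenroseM.C05
import Pool.Agent.PenroseM.C11
import Pool.Agent.PenroseM.C12
import Pool.Agent.PenroseM.C22

/-! Parts: PenroseConvex.XR3, PFlow.M_JD, PFlow.G.LB, PFlow.G.FUB, PFlow.M_SEQ, PFlow.E.EXI1 -/

section

/-! # The scalar curvature of `δ + (M² - 1) dd ⊗ dd` at a point (module XR3) -/

open MeasureTheory Filter Topology
open scoped ContDiff

namespace Pool.Agent.PenroseConvex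

open Pool.Agent.PenroseSph

namespace XR3

/-- `f` is differentiable at `x` with `∂_l f = f'`. -/
structure HP (l : Fin 3) (f : E3 → ℝ) (f' : ℝ) (x : E3) : Prop where
  diff : DifferentiableAt ℝ f x
  val : pd l f x = f'

variable {l : Fin 3} {f g : E3 → ℝ} {f' g' : ℝ} {x : E3}

theorem HP.add (hf : HP l f f' x) (hg : HP l g g' x) :
    HP l (fun y => f y + g y) (f' + g') x :=
  ⟨hf.diff.add hg.diff, by rw [pd_add hf.diff hg.diff, hf.val, hg.val]⟩

theorem HP.sub (hf : HP l f f' x) (hg : HP l g g' x) :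
    HP l (fun y => f y - g y) (f' - g') x :=
  ⟨hf.diff.sub hg.diff, by rw [pd_sub hf.diff hg.diff, hf.val, hg.val]⟩

theorem HP.mul (hf : HP l f f' x) (hg : HP l g g' x) :
    HP l (fun y => f y * g y) (f x * g' + g x * f') x :=
  ⟨hf.diff.mul hg.diff, by rw [pd_mul hf.diff hg.diff, hf.val, hg.val]⟩

theorem HP.const (c : ℝ) : HP l (fun _ => c) 0 x := ⟨differentiableAt_const c, pd_const c⟩

theorem HP.inv (hf : HP l f f' x) (h0 : f x ≠ 0) :
    HP l (fun y => (f y)⁻¹) (-f' * ((f x)⁻¹ * (f x)⁻¹)) x := by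
  refine ⟨hf.diff.inv h0, ?_⟩
  have h1 : pd l (fun y => (f y)⁻¹) x = -(f x ^ 2)⁻¹ * pd l f x := by
    have h2 : HasFDerivAt (fun y => (f y)⁻¹) ((-(f x ^ 2)⁻¹) • fderiv ℝ f x) x :=
      (hasDerivAt_inv h0).comp_hasFDerivAt x hf.diff.hasFDerivAt
    unfold pd
    rw [h2.fderiv]
    rfl
  rw [h1, hf.val]
  field_simp

theorem HP.sq (hf : HP l f f' x) : HP l (fun y => f y ^ 2) (2 * f x * f') x := by
  have h := hf.mul hf
  refine ⟨?_, ?_⟩
  · have : (fun y => f y ^ 2) = fun y => f y * f y := by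
      funext y
      ring
    rw [this]
    exact h.diff
  · have : (fun y => f y ^ 2) = fun y => f y * f y := by
      funext y
      ring
    rw [this, h.val]
    ring

theorem HP.of_diff (h : DifferentiableAt ℝ f x) : HP l f (pd l f x) x := ⟨h, rfl⟩

theorem contDiffAt_pd {n m : WithTop ℕ∞} (hf : ContDiffAt ℝ n f x) (hmn : m + 1 ≤ n)
    (i : Fin 3) : ContDiffAt ℝ m (pd i f) x := by
  have h1 := hf.fderiv_right hmn
  exact h1.clm_apply contDiffAt_const

theorem pd_comm (hf : ContDiffAt ℝ 2 f x) (i j : Fin 3) : pd i (pd j f) x = pd j (pd i f) x := by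
  have hs : IsSymmSndFDerivAt ℝ f x := hf.isSymmSndFDerivAt (by simp)
  have hd : DifferentiableAt ℝ (fderiv ℝ f) x :=
    (hf.fderiv_right (m := 1) (by norm_num)).differentiableAt (by norm_num)
  have h1 : ∀ i j : Fin 3, pd i (pd j f) x =
      fderiv ℝ (fderiv ℝ f) x (EuclideanSpace.single i 1) (EuclideanSpace.single j 1) := by
    intro i j
    unfold pd
    rw [fderiv_clm_apply hd (differentiableAt_const _)]
    simp
  rw [h1, h1]
  exact hs.eq _ _

/-- The explicit inverse matrix. -/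
theorem inv_eq {d M : E3 → ℝ} {Y : E3} (hM : M Y ≠ 0) (he : ∑ i, pd i d Y ^ 2 = 1) :
    (xg d M Y)⁻¹ = Matrix.of fun i j =>
      dk i j - (M Y ^ 2 - 1) * (M Y)⁻¹ ^ 2 * (pd i d Y * pd j d Y) := by
  apply Matrix.inv_eq_right_inv
  have hG : (M Y ^ 2 - 1) * (M Y)⁻¹ ^ 2 * (1 + (M Y ^ 2 - 1)) = M Y ^ 2 - 1 := by
    field_simp
    try ring
  obtain ⟨G, hG'⟩ : ∃ G, G = (M Y ^ 2 - 1) * (M Y)⁻¹ ^ 2 := ⟨_, rfl⟩
  obtain ⟨F, hF⟩ : ∃ F, F = M Y ^ 2 - 1 := ⟨_, rfl⟩
  have hx : xg d M Y = Matrix.of fun i j => dk i j + F * (pd i d Y * pd j d Y) := by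
    rw [hF]
    rfl
  rw [← hG', ← hF] at hG
  rw [← hG', hx]
  rw [Fin.sum_univ_three] at he
  obtain ⟨m, hm⟩ : ∃ m : Fin 3 → ℝ, m = fun i => pd i d Y := ⟨_, rfl⟩
  have hm' : ∀ i, pd i d Y = m i := fun i => by rw [hm]
  simp only [hm'] at he ⊢
  have key : ∀ i j, ∑ k, (dk i k + F * (m i * m k)) * (dk k j - G * (m k * m j)) = dk i j := by
    intro i j
    rw [Fin.sum_univ_three]
    fin_cases i <;> fin_cases j <;> simp [dk] <;>
      first
      | linear_combination (-(m 0 * m 0)) * hG - F * G * (m 0 * m 0) * he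
      | linear_combination (-(m 0 * m 1)) * hG - F * G * (m 0 * m 1) * he
      | linear_combination (-(m 0 * m 2)) * hG - F * G * (m 0 * m 2) * he
      | linear_combination (-(m 1 * m 1)) * hG - F * G * (m 1 * m 1) * he
      | linear_combination (-(m 1 * m 2)) * hG - F * G * (m 1 * m 2) * he
      | linear_combination (-(m 2 * m 2)) * hG - F * G * (m 2 * m 2) * he
  ext i j
  rw [Matrix.mul_apply]
  simp only [Matrix.of_apply]
  rw [key]
  rfl

/-- The Christoffel symbols near the point. -/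
noncomputable def Gf (d M : E3 → ℝ) (k i j : Fin 3) (Y : E3) : ℝ :=
  (pd i M Y * pd j d Y + pd j M Y * pd i d Y) * pd k d Y * (M Y)⁻¹
    + (M Y ^ 2 - 1) * pd i (pd j d) Y * pd k d Y * (M Y)⁻¹ ^ 2
    - (M Y * pd k M Y - (M Y ^ 2 - 1) * (M Y)⁻¹ * (pd 0 M Y * pd 0 d Y + pd 1 M Y * pd 1 d Y
        + pd 2 M Y * pd 2 d Y) * pd k d Y) * (pd i d Y * pd j d Y)

theorem pd_xg {d M : E3 → ℝ} {Y : E3} (hd : ∀ i, DifferentiableAt ℝ (pd i d) Y)
    (hM : DifferentiableAt ℝ M Y) (i j l : Fin 3) :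
    pd i (fun y => xg d M y j l) Y = 2 * M Y * pd i M Y * (pd j d Y * pd l d Y)
      + (M Y ^ 2 - 1) * (pd i (pd j d) Y * pd l d Y + pd j d Y * pd i (pd l d) Y) := by
  have h1 : HP i (fun y => dk j l + (M y ^ 2 - 1) * (pd j d y * pd l d y)) _ Y :=
    (HP.const (dk j l)).add ((((HP.of_diff hM).sq).sub (HP.const 1)).mul
      ((HP.of_diff (hd j)).mul (HP.of_diff (hd l))))
  have h2 : (fun y => xg d M y j l) =
      fun y => dk j l + (M y ^ 2 - 1) * (pd j d y * pd l d y) := rfl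
  rw [h2, h1.val]
  ring

theorem christoffel_eq {d M : E3 → ℝ} {Y : E3} (hd : ∀ i, DifferentiableAt ℝ (pd i d) Y)
    (hM : DifferentiableAt ℝ M Y) (h0 : M Y ≠ 0) (he : ∑ i, pd i d Y ^ 2 = 1)
    (hs : ∀ i j, pd i (pd j d) Y = pd j (pd i d) Y) (k i j : Fin 3) :
    christoffel (xg d M) k i j Y = Gf d M k i j Y := by
  unfold christoffel Gf
  rw [inv_eq h0 he]
  simp only [pd_xg hd hM, Matrix.of_apply]
  have hG : (M Y ^ 2 - 1) * (M Y)⁻¹ ^ 2 = 1 - (M Y)⁻¹ ^ 2 := by
    field_simp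
  have hw : M Y * (M Y)⁻¹ = 1 := mul_inv_cancel₀ h0
  obtain ⟨w, hw'⟩ : ∃ w, w = (M Y)⁻¹ := ⟨_, rfl⟩
  rw [← hw'] at hw ⊢
  have e1 : ∀ l, (2 * M Y * pd i M Y * (pd j d Y * pd l d Y) +
      (M Y ^ 2 - 1) * (pd i (pd j d) Y * pd l d Y + pd j d Y * pd i (pd l d) Y) +
      (2 * M Y * pd j M Y * (pd i d Y * pd l d Y) +
        (M Y ^ 2 - 1) * (pd j (pd i d) Y * pd l d Y + pd i d Y * pd j (pd l d) Y)) -
      (2 * M Y * pd l M Y * (pd i d Y * pd j d Y) +
        (M Y ^ 2 - 1) * (pd l (pd i d) Y * pd j d Y + pd i d Y * pd l (pd j d) Y))) =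
      (2 * M Y * (pd i M Y * pd j d Y + pd j M Y * pd i d Y)
        + 2 * (M Y ^ 2 - 1) * pd i (pd j d) Y) * pd l d Y
        - 2 * M Y * pd l M Y * (pd i d Y * pd j d Y) := by
    intro l
    rw [hs j i, hs l i, hs l j]
    ring
  simp only [e1]
  obtain ⟨P, hP⟩ : ∃ P, P = 2 * M Y * (pd i M Y * pd j d Y + pd j M Y * pd i d Y)
        + 2 * (M Y ^ 2 - 1) * pd i (pd j d) Y := ⟨_, rfl⟩
  obtain ⟨Q, hQ⟩ : ∃ Q, Q = pd i d Y * pd j d Y := ⟨_, rfl⟩
  rw [← hP, ← hQ]
  rw [Fin.sum_univ_three] at he ⊢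
  have key : ∑ l, (dk k l - (M Y ^ 2 - 1) * w ^ 2 * (pd k d Y * pd l d Y)) *
      (P * pd l d Y - 2 * M Y * pd l M Y * Q) =
      P * pd k d Y * w ^ 2 - 2 * M Y * Q * (pd k M Y - (M Y ^ 2 - 1) * w ^ 2 * pd k d Y *
        (pd 0 M Y * pd 0 d Y + pd 1 M Y * pd 1 d Y + pd 2 M Y * pd 2 d Y)) := by
    rw [← hw'] at hG
    rw [hG, Fin.sum_univ_three]
    fin_cases k <;> simp [dk] <;>
      first
      | linear_combination (-(P * pd 0 d Y * (1 - w ^ 2))) * he
      | linear_combination (-(P * pd 1 d Y * (1 - w ^ 2))) * he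
      | linear_combination (-(P * pd 2 d Y * (1 - w ^ 2))) * he
  rw [Fin.sum_univ_three] at key
  rw [key, hP, hQ]
  linear_combination ((pd i M Y * pd j d Y + pd j M Y * pd i d Y) * pd k d Y * w
    + pd i d Y * pd j d Y * (M Y ^ 2 - 1) * pd k d Y * (pd 0 M Y * pd 0 d Y
      + pd 1 M Y * pd 1 d Y + pd 2 M Y * pd 2 d Y) * w) * hw

/-- The derivatives of the Christoffel symbols at a point. -/
theorem pd_Gf {d M : E3 → ℝ} {X : E3} (hd : ∀ i, DifferentiableAt ℝ (pd i d) X)
    (hdd : ∀ i j, DifferentiableAt ℝ (pd i (pd j d)) X)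
    (hM : DifferentiableAt ℝ M X) (hMM : ∀ i, DifferentiableAt ℝ (pd i M) X) (h0 : M X ≠ 0)
    (l k i j : Fin 3) :
    pd l (Gf d M k i j) X =
      (pd l (pd i M) X * pd j d X + pd i M X * pd l (pd j d) X + (pd l (pd j M) X * pd i d X
        + pd j M X * pd l (pd i d) X)) * pd k d X * (M X)⁻¹
      + (pd i M X * pd j d X + pd j M X * pd i d X) * pd l (pd k d) X * (M X)⁻¹
      - (pd i M X * pd j d X + pd j M X * pd i d X) * pd k d X * (pd l M X * (M X)⁻¹ ^ 2)
      + 2 * M X * pd l M X * pd i (pd j d) X * pd k d X * (M X)⁻¹ ^ 2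
      + (M X ^ 2 - 1) * pd l (pd i (pd j d)) X * pd k d X * (M X)⁻¹ ^ 2
      + (M X ^ 2 - 1) * pd i (pd j d) X * pd l (pd k d) X * (M X)⁻¹ ^ 2
      - (M X ^ 2 - 1) * pd i (pd j d) X * pd k d X * (2 * pd l M X * (M X)⁻¹ ^ 3)
      - (pd l M X * pd k M X + M X * pd l (pd k M) X
        - (2 * M X * pd l M X * (M X)⁻¹ - (M X ^ 2 - 1) * (pd l M X * (M X)⁻¹ ^ 2)) *
          (pd 0 M X * pd 0 d X + pd 1 M X * pd 1 d X + pd 2 M X * pd 2 d X) * pd k d X
        - (M X ^ 2 - 1) * (M X)⁻¹ * (pd l (pd 0 M) X * pd 0 d X + pd 0 M X * pd l (pd 0 d) X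
          + (pd l (pd 1 M) X * pd 1 d X + pd 1 M X * pd l (pd 1 d) X)
          + (pd l (pd 2 M) X * pd 2 d X + pd 2 M X * pd l (pd 2 d) X)) * pd k d X
        - (M X ^ 2 - 1) * (M X)⁻¹ * (pd 0 M X * pd 0 d X + pd 1 M X * pd 1 d X
          + pd 2 M X * pd 2 d X) * pd l (pd k d) X) * (pd i d X * pd j d X)
      - (M X * pd k M X - (M X ^ 2 - 1) * (M X)⁻¹ * (pd 0 M X * pd 0 d X + pd 1 M X * pd 1 d X
        + pd 2 M X * pd 2 d X) * pd k d X) * (pd l (pd i d) X * pd j d X
          + pd i d X * pd l (pd j d) X) := by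
  have m : ∀ i, HP l (pd i d) (pd l (pd i d) X) X := fun i => HP.of_diff (hd i)
  have a : ∀ i, HP l (pd i M) (pd l (pd i M) X) X := fun i => HP.of_diff (hMM i)
  have b : HP l (pd i (pd j d)) (pd l (pd i (pd j d)) X) X := HP.of_diff (hdd i j)
  have hm : HP l M (pd l M X) X := HP.of_diff hM
  have w := hm.inv h0
  have t1 := (((((a i).mul (m j)).add ((a j).mul (m i))).mul (m k)).mul w)
  have t2 := ((((hm.sq.sub (HP.const 1)).mul b).mul (m k)).mul w.sq)
  have t3 := ((hm.mul (a k)).sub ((((hm.sq.sub (HP.const 1)).mul w).mul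
    ((((a 0).mul (m 0)).add ((a 1).mul (m 1))).add ((a 2).mul (m 2)))).mul (m k))).mul
      ((m i).mul (m j))
  have h : HP l (Gf d M k i j) _ X := (t1.add t2).sub t3
  rw [h.val]
  ring

end XR3

open XR3 in
theorem XR3 (hXEIK : Stmt_XEIK) : Stmt_XR3 := by
  intro d M k X hX h0 h1 h2
  obtain ⟨hsym, hBm, hDB, -⟩ := hXEIK d M k X hX
  have hM0 : M X ≠ 0 := hX.pos_M.ne'
  have hd3 : ContDiffAt ℝ 3 d X := by
    exact_mod_cast contDiffAt_infty.1 hX.smooth_d 3
  have hM2 : ContDiffAt ℝ 2 M X := by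
    exact_mod_cast contDiffAt_infty.1 hX.smooth_M 2
  have ed : ∀ᶠ Y in 𝓝 X, ContDiffAt ℝ 3 d Y := hd3.eventually (by simp)
  have eM : ∀ᶠ Y in 𝓝 X, ContDiffAt ℝ 2 M Y := hM2.eventually (by simp)
  have e0 : ∀ᶠ Y in 𝓝 X, M Y ≠ 0 := hM2.continuousAt.eventually_ne hM0
  have hev : ∀ k i j, christoffel (xg d M) k i j =ᶠ[𝓝 X] Gf d M k i j := by
    intro k i j
    filter_upwards [ed, eM, e0, hX.eikonal] with Y y1 y2 y3 y4
    exact _root_.Pool.Agent.PenroseConvex.XR3.christoffel_eq (fun i => (contDiffAt_pd (m := 2) y1 (by norm_num) i).differentiableAt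
      (by norm_num)) (y2.differentiableAt (by norm_num)) y3 y4
      (fun i j => pd_comm (y1.of_le (by norm_num)) i j) k i j
  have hd1 : ∀ i, ContDiffAt ℝ 2 (pd i d) X := fun i => contDiffAt_pd hd3 (by norm_num) i
  have hdd : ∀ i j, DifferentiableAt ℝ (pd i (pd j d)) X := fun i j =>
    (contDiffAt_pd (m := 1) (hd1 j) (by norm_num) i).differentiableAt (by norm_num)
  have hMM : ∀ i, DifferentiableAt ℝ (pd i M) X := fun i =>
    (contDiffAt_pd (m := 1) hM2 (by norm_num) i).differentiableAt (by norm_num)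
  have hpd : ∀ l k i j, pd l (christoffel (xg d M) k i j) X = pd l (Gf d M k i j) X :=
    fun l k i j => pd_congr (hev k i j)
  have hval : ∀ k i j, christoffel (xg d M) k i j X = Gf d M k i j X :=
    fun k i j => (hev k i j).self_of_nhds
  have hD : ∀ i, pd i (pd i (pd 2 d)) X = pd 2 (pd i (pd i d)) X := by
    intro i
    have e1 : pd i (pd 2 d) =ᶠ[𝓝 X] pd 2 (pd i d) := by
      filter_upwards [ed] with Y y1
      exact pd_comm (y1.of_le (by norm_num)) i 2
    rw [pd_congr e1]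
    exact pd_comm (hd1 i) i 2
  have hB : ∀ i, pd i (pd 2 d) X = 0 := by
    intro i
    have := hBm i
    rw [Fin.sum_univ_three, h0, h1, h2] at this
    linarith
  have hB' : ∀ i, pd 2 (pd i d) X = 0 := fun i => by rw [hsym, hB]
  have hD2 : ∀ i j, pd 2 (pd i (pd j d)) X = -(pd i (pd 0 d) X * pd 0 (pd j d) X
      + pd i (pd 1 d) X * pd 1 (pd j d) X) := by
    intro i j
    have := hDB i j
    rw [Fin.sum_univ_three, Fin.sum_univ_three, h0, h1, h2, hB] at this
    linarith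
  have he : ∑ i, pd i d X ^ 2 = 1 := hX.eikonal.self_of_nhds
  unfold scalarCurvature ricci
  rw [inv_eq hM0 he]
  simp only [hpd, hval, pd_Gf (fun i => (hd1 i).differentiableAt (by norm_num)) hdd
    (hM2.differentiableAt (by norm_num)) hMM hM0, Matrix.of_apply, Fin.sum_univ_three, Gf, xH, xQ,
    h0, h1, h2, hD, hD2, hB, hB', dk]
  rw [hsym 1 0]
  simp
  field_simp
  ring

end Pool.Agent.PenroseConvex


end

section

/-!
# JD: the divergence of `h dw - (tr h) dw`
-/

open MeasureTheory Filter Topology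
open scoped ContDiff

namespace Pool.Agent.PFlow

open Pool.Agent.PenroseSph

namespace MJD

open Pool.Agent.PenroseConvex (CovR.lower CovR.inv_symm CovR.differentiableAt_inv
  CovR.christoffel_symm CovR.contDiffAt_pd)
open Pool.Agent.PenroseConvex.XR3 (HP HP.of_diff HP.mul HP.add HP.sub)

/-! ### The metric at a point -/

/-- The facts about a metric near a point that are needed. -/
structure Pt (g : TensorField) (x : E3) : Prop where
  diff : ∀ i j, DifferentiableAt ℝ (fun y => g y i j) x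
  symm : ∀ᶠ y in 𝓝 x, (g y).IsSymm
  pos : ∀ᶠ y in 𝓝 x, 0 < (g y).det

variable {g : TensorField} {x : E3}

theorem pt_of {U : Set E3} (hU : IsOpen U) (hg : MetricOn U g) (hx : x ∈ U) : Pt g x where
  diff := fun i j =>
    ((hg.smooth i j).contDiffAt (hU.mem_nhds hx)).differentiableAt (by simp)
  symm := by
    filter_upwards [hU.mem_nhds hx] with y hy
    have h := (hg.posDef y hy).isHermitian
    rw [Matrix.IsHermitian, Matrix.conjTranspose_eq_transpose_of_trivial] at h
    exact h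
  pos := by
    filter_upwards [hU.mem_nhds hx] with y hy
    exact (hg.posDef y hy).det_pos

theorem Pt.det_ne (h : Pt g x) : (g x).det ≠ 0 := h.pos.self_of_nhds.ne'

theorem Pt.diffInv (h : Pt g x) (i j : Fin 3) : DifferentiableAt ℝ (fun y => (g y)⁻¹ i j) x :=
  CovR.differentiableAt_inv h.diff h.det_ne i j

theorem Pt.inv_symm (h : Pt g x) (i j : Fin 3) : (g x)⁻¹ i j = (g x)⁻¹ j i :=
  CovR.inv_symm h.symm.self_of_nhds i j

theorem Pt.g_symm (h : Pt g x) (i j : Fin 3) : g x i j = g x j i :=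
  (h.symm.self_of_nhds.apply i j).symm ▸ rfl

theorem Pt.inv_mul (h : Pt g x) (i j : Fin 3) :
    ∑ d, (g x)⁻¹ i d * g x d j = if i = j then 1 else 0 := by
  have h2 := congrFun (congrFun (Matrix.nonsing_inv_mul (g x) (Ne.isUnit h.det_ne)) i) j
  rw [Matrix.mul_apply, Matrix.one_apply] at h2
  exact h2

theorem Pt.mul_inv (h : Pt g x) (i j : Fin 3) :
    ∑ d, g x i d * (g x)⁻¹ d j = if i = j then 1 else 0 := by
  have h2 := congrFun (congrFun (Matrix.mul_nonsing_inv (g x) (Ne.isUnit h.det_ne)) i) j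
  rw [Matrix.mul_apply, Matrix.one_apply] at h2
  exact h2

theorem Pt.chr_symm (h : Pt g x) (a b c : Fin 3) :
    christoffel g a b c x = christoffel g a c b x :=
  CovR.christoffel_symm h.symm a b c

/-- `∇ g = 0` -/
theorem Pt.pd_g (h : Pt g x) (k i j : Fin 3) : pd k (fun y => g y i j) x =
    ∑ d, (g x i d * christoffel g d k j x + g x j d * christoffel g d k i x) := by
  have hs : ∀ l a b, pd l (fun y => g y a b) x = pd l (fun y => g y b a) x := by
    intro l a b
    refine pd_congr ?_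
    filter_upwards [h.symm] with y hy
    exact hy.apply b a
  rw [Finset.sum_add_distrib, CovR.lower g x h.det_ne i k j, CovR.lower g x h.det_ne j k i,
    hs k j i, hs i k j, hs j k i]
  rw [hs i j k, hs j i k]
  ring

/-- the derivative of the inverse metric -/
theorem Pt.pd_inv (h : Pt g x) (k i j : Fin 3) : pd k (fun y => (g y)⁻¹ i j) x =
    -∑ l, (christoffel g i k l x * (g x)⁻¹ l j + christoffel g j k l x * (g x)⁻¹ i l) := by
  -- differentiate `g⁻¹ g = 1`
  have h1 : ∀ c, ∑ b, ((g x)⁻¹ i b * pd k (fun y => g y b c) x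
      + g x b c * pd k (fun y => (g y)⁻¹ i b) x) = 0 := by
    intro c
    have e : (fun y => ∑ b, (g y)⁻¹ i b * g y b c) =ᶠ[𝓝 x] fun _ => if i = c then (1 : ℝ) else 0 := by
      filter_upwards [h.pos] with y hy
      have h2 := congrFun (congrFun (Matrix.nonsing_inv_mul (g y) (Ne.isUnit hy.ne')) i) c
      rw [Matrix.mul_apply, Matrix.one_apply] at h2
      exact h2
    have h3 := pd_congr (i := k) e
    rw [pd_const, pd_sum _ _ (fun b _ => (h.diffInv i b).fun_mul (h.diff b c))] at h3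
    rw [← h3]
    refine Finset.sum_congr rfl fun b _ => ?_
    rw [pd_mul (h.diffInv i b) (h.diff b c)]
  have h2 : pd k (fun y => (g y)⁻¹ i j) x =
      ∑ c, (∑ b, g x b c * pd k (fun y => (g y)⁻¹ i b) x) * (g x)⁻¹ c j := by
    have h3 : ∑ c, (∑ b, g x b c * pd k (fun y => (g y)⁻¹ i b) x) * (g x)⁻¹ c j =
        ∑ b, (∑ c, g x b c * (g x)⁻¹ c j) * pd k (fun y => (g y)⁻¹ i b) x := by
      simp only [Finset.sum_mul]
      rw [Finset.sum_comm]
      refine Finset.sum_congr rfl fun b _ => Finset.sum_congr rfl fun c _ => ?_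
      ring
    rw [h3]
    simp only [h.mul_inv]
    simp
  have h4 : ∀ c, ∑ b, g x b c * pd k (fun y => (g y)⁻¹ i b) x =
      -∑ b, (g x)⁻¹ i b * ∑ d, (g x b d * christoffel g d k c x
        + g x c d * christoffel g d k b x) := by
    intro c
    have h5 := h1 c
    rw [Finset.sum_add_distrib] at h5
    simp only [h.pd_g] at h5
    linarith
  have h6 : ∀ c, ∑ b, (g x)⁻¹ i b * ∑ d, (g x b d * christoffel g d k c x
        + g x c d * christoffel g d k b x) = christoffel g i k c x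
        + ∑ b, (g x)⁻¹ i b * ∑ d, g x c d * christoffel g d k b x := by
    intro c
    simp only [Finset.sum_add_distrib, mul_add]
    congr 1
    have h7 : ∑ b, (g x)⁻¹ i b * ∑ d, g x b d * christoffel g d k c x =
        ∑ d, (∑ b, (g x)⁻¹ i b * g x b d) * christoffel g d k c x := by
      simp only [Finset.mul_sum, Finset.sum_mul]
      rw [Finset.sum_comm]
      refine Finset.sum_congr rfl fun b _ => Finset.sum_congr rfl fun c _ => ?_
      ring
    rw [h7]
    simp only [h.inv_mul]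
    simp
  rw [h2]
  simp only [h4, h6]
  have h8 : ∑ c, (∑ b, (g x)⁻¹ i b * ∑ d, g x c d * christoffel g d k b x) * (g x)⁻¹ c j =
      ∑ b, (g x)⁻¹ i b * christoffel g j k b x := by
    have h9 : ∑ c, (∑ b, (g x)⁻¹ i b * ∑ d, g x c d * christoffel g d k b x) * (g x)⁻¹ c j =
        ∑ b, (g x)⁻¹ i b * ∑ d, (∑ c, (g x)⁻¹ j c * g x c d) * christoffel g d k b x := by
      simp only [Fin.sum_univ_three, h.inv_symm j 0, h.inv_symm j 1, h.inv_symm j 2]
      ring
    rw [h9]
    simp only [h.inv_mul]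
    simp
  have h10 : ∑ c, -(christoffel g i k c x + ∑ b, (g x)⁻¹ i b *
      ∑ d, g x c d * christoffel g d k b x) * (g x)⁻¹ c j =
      -(∑ c, christoffel g i k c x * (g x)⁻¹ c j) -
        ∑ c, (∑ b, (g x)⁻¹ i b * ∑ d, g x c d * christoffel g d k b x) * (g x)⁻¹ c j := by
    rw [← Finset.sum_neg_distrib, ← Finset.sum_sub_distrib]
    refine Finset.sum_congr rfl fun c _ => ?_
    ring
  rw [h10, h8, Finset.sum_add_distrib]
  have h11 : ∑ l, christoffel g j k l x * (g x)⁻¹ i l =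
      ∑ b, (g x)⁻¹ i b * christoffel g j k b x :=
    Finset.sum_congr rfl fun l _ => mul_comm _ _
  rw [h11]
  ring

/-- the derivative of the determinant -/
theorem Pt.pd_det (h : Pt g x) (k : Fin 3) : pd k (fun y => (g y).det) x =
    (g x).det * ∑ i, ∑ j, (g x)⁻¹ i j * pd k (fun y => g y j i) x := by
  have hadj : ∀ i j, (g x).det * (g x)⁻¹ i j = (g x).adjugate i j := by
    intro i j
    rw [Matrix.inv_def, Ring.inverse_eq_inv', Matrix.smul_apply, smul_eq_mul, ← mul_assoc,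
      mul_inv_cancel₀ h.det_ne, one_mul]
  have h1 : (g x).det * ∑ i, ∑ j, (g x)⁻¹ i j * pd k (fun y => g y j i) x =
      ∑ i, ∑ j, (g x).adjugate i j * pd k (fun y => g y j i) x := by
    simp only [Finset.mul_sum, ← mul_assoc, hadj]
  rw [h1]
  have d : ∀ i j, HP k (fun y => g y i j) (pd k (fun y => g y i j) x) x := fun i j =>
    HP.of_diff (h.diff i j)
  have h2 := ((((((((d 0 0).mul (d 1 1)).mul (d 2 2)).sub
    (((d 0 0).mul (d 1 2)).mul (d 2 1))).sub (((d 0 1).mul (d 1 0)).mul (d 2 2))).add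
    (((d 0 1).mul (d 1 2)).mul (d 2 0))).add (((d 0 2).mul (d 1 0)).mul (d 2 1))).sub
    (((d 0 2).mul (d 1 1)).mul (d 2 0))).val
  simp only [Matrix.det_fin_three]
  rw [h2]
  simp only [Matrix.adjugate_fin_three, Fin.sum_univ_three]
  simp
  ring

theorem Pt.diffDet (h : Pt g x) : DifferentiableAt ℝ (fun y => (g y).det) x := by
  have hd := h.diff
  simp only [Matrix.det_fin_three]
  fun_prop (disch := assumption)

theorem Pt.diffVol (h : Pt g x) : DifferentiableAt ℝ (volDen g) x :=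
  h.diffDet.sqrt h.det_ne

/-- the derivative of the volume density -/
theorem Pt.pd_vol (h : Pt g x) (k : Fin 3) : pd k (volDen g) x =
    volDen g x * ∑ l, christoffel g l k l x := by
  have hpos : 0 < (g x).det := h.pos.self_of_nhds
  have h1 : pd k (volDen g) x = 1 / (2 * Real.sqrt (g x).det) * pd k (fun y => (g y).det) x := by
    unfold pd
    have h2 := (h.diffDet.hasFDerivAt.sqrt h.det_ne).fderiv
    have h3 : fderiv ℝ (volDen g) x = (1 / (2 * Real.sqrt (g x).det)) •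
        fderiv ℝ (fun y => (g y).det) x := h2
    rw [h3]
    rfl
  have h4 : ∑ i, ∑ j, (g x)⁻¹ i j * pd k (fun y => g y j i) x =
      2 * ∑ l, christoffel g l k l x := by
    have h5 : ∀ i j, (g x)⁻¹ i j * pd k (fun y => g y j i) x =
        ∑ d, ((g x)⁻¹ i j * g x j d) * christoffel g d k i x
          + ∑ d, ((g x)⁻¹ i j * g x i d) * christoffel g d k j x := by
      intro i j
      rw [h.pd_g, Finset.mul_sum, ← Finset.sum_add_distrib]
      refine Finset.sum_congr rfl fun d _ => ?_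
      ring
    simp only [h5, Finset.sum_add_distrib]
    have h6 : ∑ i, ∑ j, ∑ d, ((g x)⁻¹ i j * g x j d) * christoffel g d k i x =
        ∑ l, christoffel g l k l x := by
      refine Finset.sum_congr rfl fun i _ => ?_
      rw [Finset.sum_comm]
      simp only [← Finset.sum_mul, h.inv_mul]
      simp
    have h7 : ∑ i, ∑ j, ∑ d, ((g x)⁻¹ i j * g x i d) * christoffel g d k j x =
        ∑ l, christoffel g l k l x := by
      rw [Finset.sum_comm, ← h6]
      refine Finset.sum_congr rfl fun i _ => Finset.sum_congr rfl fun j _ =>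
        Finset.sum_congr rfl fun d _ => ?_
      rw [h.inv_symm j i]
    rw [h6, h7]
    ring
  rw [h1, h.pd_det, h4]
  unfold volDen
  have h8 : (g x).det = Real.sqrt (g x).det * Real.sqrt (g x).det :=
    (Real.mul_self_sqrt hpos.le).symm
  have h9 : Real.sqrt (g x).det ≠ 0 := (Real.sqrt_pos.2 hpos).ne'
  conv_lhs =>
    rw [h8]
  rw [Real.sqrt_mul_self (Real.sqrt_nonneg _)]
  field_simp

/-! ### Divergence of a vector field, derivatives of contractions -/

/-- the divergence of `X^♯` -/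
theorem Pt.div_up (h : Pt g x) (X : E3 → Cov) (hX : ∀ j, DifferentiableAt ℝ (fun y => X y j) x) :
    ∑ i, pd i (fun y => volDen g y * up (g y)⁻¹ (X y) i) x =
      volDen g x * ∑ i, ∑ j, (g x)⁻¹ i j *
        (pd i (fun y => X y j) x - ∑ m, christoffel g m i j x * X x m) := by
  have hup : ∀ i, DifferentiableAt ℝ (fun y => up (g y)⁻¹ (X y) i) x := fun i =>
    DifferentiableAt.fun_sum fun j _ => (h.diffInv i j).fun_mul (hX j)
  have h1 : ∀ i, pd i (fun y => volDen g y * up (g y)⁻¹ (X y) i) x =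
      volDen g x * ∑ j, ((g x)⁻¹ i j * pd i (fun y => X y j) x
        + X x j * -∑ l, (christoffel g i i l x * (g x)⁻¹ l j
          + christoffel g j i l x * (g x)⁻¹ i l))
      + (∑ j, (g x)⁻¹ i j * X x j) * (volDen g x * ∑ l, christoffel g l i l x) := by
    intro i
    rw [pd_mul h.diffVol (hup i), h.pd_vol]
    congr 2
    have h2 : pd i (fun y => up (g y)⁻¹ (X y) i) x =
        pd i (fun y => ∑ j, (g y)⁻¹ i j * X y j) x := rfl
    rw [h2, pd_sum _ _ (fun j _ => (h.diffInv i j).fun_mul (hX j))]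
    refine Finset.sum_congr rfl fun j _ => ?_
    rw [pd_mul (h.diffInv i j) (hX j), h.pd_inv]
  simp only [h1]
  have hc : ∀ a b c, christoffel g a b c x = christoffel g a c b x := h.chr_symm
  simp only [Fin.sum_univ_three]
  rw [hc 0 1 0, hc 0 2 0, hc 0 2 1, hc 1 1 0, hc 1 2 0, hc 1 2 1, hc 2 1 0, hc 2 2 0, hc 2 2 1]
  ring

/-- the derivative of `X^♯` -/
theorem Pt.pd_up (h : Pt g x) (X : E3 → Cov) (hX : ∀ j, DifferentiableAt ℝ (fun y => X y j) x)
    (i k : Fin 3) : pd i (fun y => up (g y)⁻¹ (X y) k) x =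
      ∑ l, (g x)⁻¹ k l * (pd i (fun y => X y l) x - ∑ m, christoffel g m i l x * X x m)
        - ∑ m, christoffel g k i m x * up (g x)⁻¹ (X x) m := by
  have h2 : pd i (fun y => up (g y)⁻¹ (X y) k) x =
      pd i (fun y => ∑ j, (g y)⁻¹ k j * X y j) x := rfl
  rw [h2, pd_sum _ _ (fun j _ => (h.diffInv k j).fun_mul (hX j))]
  have h3 : ∀ j, pd i (fun y => (g y)⁻¹ k j * X y j) x = (g x)⁻¹ k j * pd i (fun y => X y j) x
      + X x j * -∑ l, (christoffel g k i l x * (g x)⁻¹ l j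
        + christoffel g j i l x * (g x)⁻¹ k l) := by
    intro j
    rw [pd_mul (h.diffInv k j) (hX j), h.pd_inv]
  simp only [h3, up, Fin.sum_univ_three]
  ring

/-- the derivative of a trace -/
theorem Pt.pd_tr (h : Pt g x) (B : TensorField)
    (hB : ∀ i j, DifferentiableAt ℝ (fun y => B y i j) x) (i : Fin 3) :
    pd i (fun y => trg g y (B y)) x = ∑ a, ∑ b, (g x)⁻¹ a b * covDeriv g B i a b x := by
  have h2 : pd i (fun y => trg g y (B y)) x =
      pd i (fun y => ∑ a, ∑ b, (g y)⁻¹ a b * B y a b) x := rfl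
  rw [h2, pd_sum _ _ (fun a _ => DifferentiableAt.fun_sum fun b _ =>
    (h.diffInv a b).fun_mul (hB a b))]
  have h3 : ∀ a, pd i (fun y => ∑ b, (g y)⁻¹ a b * B y a b) x =
      ∑ b, ((g x)⁻¹ a b * pd i (fun y => B y a b) x
      + B x a b * -∑ l, (christoffel g a i l x * (g x)⁻¹ l b
        + christoffel g b i l x * (g x)⁻¹ a l)) := by
    intro a
    rw [pd_sum _ _ (fun b _ => (h.diffInv a b).fun_mul (hB a b))]
    refine Finset.sum_congr rfl fun b _ => ?_
    rw [pd_mul (h.diffInv a b) (hB a b), h.pd_inv]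
  simp only [h3]
  simp only [covDeriv, Fin.sum_univ_three]
  ring

theorem diffTr (h : Pt g x) (B : TensorField)
    (hB : ∀ i j, DifferentiableAt ℝ (fun y => B y i j) x) :
    DifferentiableAt ℝ (fun y => trg g y (B y)) x :=
  DifferentiableAt.fun_sum fun a _ => DifferentiableAt.fun_sum fun b _ =>
    (h.diffInv a b).fun_mul (hB a b)

/-- the momentum density -/
theorem Pt.mom (h : Pt g x) (B : TensorField)
    (hB : ∀ i j, DifferentiableAt ℝ (fun y => B y i j) x) (j : Fin 3) :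
    momentumDensity g B j x = ∑ i, ∑ k, (g x)⁻¹ i k * covDeriv g B k i j x
      - pd j (fun y => trg g y (B y)) x := by
  have ht : DifferentiableAt ℝ (fun y => traceWith g B y) x := diffTr h B hB
  have e : (fun y => trg g y (B y)) = fun y => traceWith g B y := rfl
  rw [e]
  have h1 : ∀ k i, covDeriv g (fun y => B y - traceWith g B y • g y) k i j x =
      covDeriv g B k i j x - g x i j * pd k (fun y => traceWith g B y) x := by
    intro k i
    unfold covDeriv
    have h2 : pd k (fun y => (B y - traceWith g B y • g y) i j) x =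
        pd k (fun y => B y i j) x - (traceWith g B x * pd k (fun y => g y i j) x
          + g x i j * pd k (fun y => traceWith g B y) x) := by
      have h3 : (fun y => (B y - traceWith g B y • g y) i j) =
          fun y => B y i j - traceWith g B y * g y i j := by
        funext y
        rw [Matrix.sub_apply, Matrix.smul_apply, smul_eq_mul]
      rw [h3, pd_sub (hB i j) (ht.fun_mul (h.diff i j)), pd_mul ht (h.diff i j)]
    rw [h2, h.pd_g]
    simp only [Matrix.sub_apply, Matrix.smul_apply, smul_eq_mul, Fin.sum_univ_three]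
    rw [h.g_symm j 0, h.g_symm j 1, h.g_symm j 2]
    ring
  unfold momentumDensity divergence
  simp only [h1, mul_sub, Finset.sum_sub_distrib]
  congr 1
  have h4 : ∑ i, ∑ k, (g x)⁻¹ i k * (g x i j * pd k (fun y => traceWith g B y) x) =
      ∑ k, (∑ i, (g x)⁻¹ k i * g x i j) * pd k (fun y => traceWith g B y) x := by
    simp only [Finset.sum_mul]
    rw [Finset.sum_comm]
    refine Finset.sum_congr rfl fun k _ => Finset.sum_congr rfl fun i _ => ?_
    rw [h.inv_symm i k]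
    ring
  rw [h4]
  simp only [h.inv_mul]
  simp

/-! ### The algebra -/

/-- the covariant derivative of `h dw - (tr h) dw` -/
theorem alg1 (Ga : Fin 3 → Fin 3 → Fin 3 → ℝ) (P H hh dw2 : Bil) (w p dt : Cov)
    (dh C : Fin 3 → Fin 3 → Fin 3 → ℝ) (t : ℝ)
    (hC : ∀ k i j, C k i j = dh k i j - ∑ l, (Ga l k i * hh l j + Ga l k j * hh i l))
    (hH : ∀ i j, H i j = dw2 i j - ∑ m, Ga m i j * w m) (i j : Fin 3) :
    (∑ k, (hh j k * (∑ l, P k l * H i l - ∑ m, Ga k i m * p m) + p k * dh i j k)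
        - (t * dw2 i j + w j * dt i))
      - ∑ m, Ga m i j * ((∑ k, hh m k * p k) - t * w m) =
    ∑ k, C i j k * p k + ∑ k, ∑ l, hh j k * P k l * H i l - w j * dt i - t * H i j := by
  have h1 : dw2 i j = H i j + ∑ m, Ga m i j * w m := by
    rw [hH]
    ring
  rw [h1]
  simp only [hC, Fin.sum_univ_three]
  ring

/-- the contraction -/
theorem alg2 (P H hh : Bil) (w dt : Cov) (C : Fin 3 → Fin 3 → Fin 3 → ℝ) (t : ℝ)
    (hP : ∀ i j, P i j = P j i) :
    ∑ i, ∑ j, P i j * (∑ k, C i j k * (∑ l, P k l * w l) + ∑ k, ∑ l, hh j k * P k l * H i l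
        - w j * dt i - t * H i j) =
      (∑ a, ∑ b, P a b * (∑ i, ∑ k, P i k * C k i a - dt a) * w b)
        + (∑ i, ∑ j, ∑ k, ∑ l, P i k * P j l * hh i j * H k l)
        - t * ∑ i, ∑ j, P i j * H i j := by
  simp only [Fin.sum_univ_three]
  rw [hP 1 0, hP 2 0, hP 2 1]
  ring

end MJD

open MJD in
theorem JD : Stmt_JD := by
  intro U g h w hU hg hh hw x hx
  have hp := pt_of hU hg hx
  have hwx : ContDiffAt ℝ ∞ w x := hw.contDiffAt (hU.mem_nhds hx)
  have hB : ∀ i j, DifferentiableAt ℝ (fun y => h y i j) x := fun i j =>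
    ((hh.smooth i j).contDiffAt (hU.mem_nhds hx)).differentiableAt (by simp)
  have hgr : ∀ j, DifferentiableAt ℝ (fun y => grad w y j) x := fun j =>
    (Pool.Agent.PenroseConvex.CovR.contDiffAt_pd (n := 1) hwx
      Pool.Agent.PenroseConvex.CovR.le2 j).differentiableAt (by norm_num)
  have hup : ∀ k, DifferentiableAt ℝ (fun y => up (g y)⁻¹ (grad w y) k) x := fun k =>
    DifferentiableAt.fun_sum fun j _ => (hp.diffInv k j).fun_mul (hgr j)
  have htr := diffTr hp h hB
  have hX1 : ∀ j, DifferentiableAt ℝ (fun y => app (g y)⁻¹ (h y) (grad w y) j) x := fun j =>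
    DifferentiableAt.fun_sum fun k _ => (hB j k).fun_mul (hup k)
  have hX2 : ∀ j, DifferentiableAt ℝ (fun y => trg g y (h y) * grad w y j) x := fun j =>
    htr.fun_mul (hgr j)
  rw [hp.div_up (fun y j => app (g y)⁻¹ (h y) (grad w y) j - trg g y (h y) * grad w y j)
    (fun j => (hX1 j).fun_sub (hX2 j))]
  congr 1
  -- the derivatives
  have hd : ∀ i j, pd i (fun y => app (g y)⁻¹ (h y) (grad w y) j - trg g y (h y) * grad w y j) x =
      ∑ k, (h x j k * (∑ l, (g x)⁻¹ k l * cHess g x (grad w x) (hess2 w x) i l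
          - ∑ m, christoffel g k i m x * up (g x)⁻¹ (grad w x) m)
        + up (g x)⁻¹ (grad w x) k * pd i (fun y => h y j k) x)
        - (trg g x (h x) * hess2 w x i j + grad w x j * pd i (fun y => trg g y (h y)) x) := by
    intro i j
    rw [pd_sub (hX1 j) (hX2 j), pd_mul htr (hgr j)]
    have h1 : pd i (fun y => app (g y)⁻¹ (h y) (grad w y) j) x =
        pd i (fun y => ∑ k, h y j k * up (g y)⁻¹ (grad w y) k) x := rfl
    rw [h1, pd_sum _ _ (fun k _ => (hB j k).fun_mul (hup k))]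
    congr 1
    refine Finset.sum_congr rfl fun k _ => ?_
    rw [pd_mul (hB j k) (hup k), hp.pd_up (grad w) hgr]
    rfl
  simp only [hd]
  have h2 := alg1 (fun k i j => christoffel g k i j x) (g x)⁻¹
    (cHess g x (grad w x) (hess2 w x)) (h x) (hess2 w x) (grad w x) (up (g x)⁻¹ (grad w x))
    (fun i => pd i (fun y => trg g y (h y)) x) (fun k i j => pd k (fun y => h y i j) x)
    (fun k i j => covDeriv g h k i j x) (trg g x (h x)) (fun k i j => rfl) (fun i j => rfl)
  have h3 : ∀ m, app (g x)⁻¹ (h x) (grad w x) m = ∑ k, h x m k * up (g x)⁻¹ (grad w x) k :=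
    fun m => rfl
  simp only [h3, h2]
  have h4 := alg2 (g x)⁻¹ (cHess g x (grad w x) (hess2 w x)) (h x) (grad w x)
    (fun i => pd i (fun y => trg g y (h y)) x) (fun k i j => covDeriv g h k i j x)
    (trg g x (h x)) hp.inv_symm
  have h5 : ∀ k, up (g x)⁻¹ (grad w x) k = ∑ l, (g x)⁻¹ k l * grad w x l := fun k => rfl
  simp only [h5]
  refine h4.trans ?_
  congr 1
  congr 1
  unfold ev momV
  refine Finset.sum_congr rfl fun a _ => Finset.sum_congr rfl fun b _ => ?_
  rw [hp.mom h hB a]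

end Pool.Agent.PFlow


end

section

/-!
# Block GB: the leafwise Laplacian is `tr_S ∇²f - H ν(f)`
-/

open MeasureTheory Filter Topology
open scoped ContDiff

namespace Pool.Agent.PFlow.GB

open Pool.Agent.PenroseSph Pool.Agent.PFlow

namespace LBm

open Pool.Agent.PFlow.MJD (Pt pt_of)
open Pool.Agent.PenroseConvex (CovR.contDiffAt_pd CovR.pd_comm CovR.le2)

variable {g : TensorField} {x : E3}

/-- the covariant derivative of a covector field -/
noncomputable def nab (g : TensorField) (A : E3 → Cov) (i j : Fin 3) (x : E3) : ℝ :=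
  pd i (fun y => A y j) x - ∑ m, christoffel g m i j x * A x m

/-- the derivative of an inner product -/
theorem pd_ip (h : Pt g x) (A B : E3 → Cov) (hA : ∀ j, DifferentiableAt ℝ (fun y => A y j) x)
    (hB : ∀ j, DifferentiableAt ℝ (fun y => B y j) x) (i : Fin 3) :
    pd i (fun y => ∑ j, B y j * up (g y)⁻¹ (A y) j) x =
      ∑ j, up (g x)⁻¹ (B x) j * nab g A i j x + ∑ j, up (g x)⁻¹ (A x) j * nab g B i j x := by
  have hup : ∀ k, DifferentiableAt ℝ (fun y => up (g y)⁻¹ (A y) k) x := fun k =>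
    DifferentiableAt.fun_sum fun j _ => (h.diffInv k j).fun_mul (hA j)
  rw [pd_sum _ _ (fun j _ => (hB j).fun_mul (hup j))]
  have h1 : ∀ j, pd i (fun y => B y j * up (g y)⁻¹ (A y) j) x =
      B x j * (∑ l, (g x)⁻¹ j l * nab g A i l x - ∑ m, christoffel g j i m x * up (g x)⁻¹ (A x) m)
        + up (g x)⁻¹ (A x) j * pd i (fun y => B y j) x := by
    intro j
    rw [pd_mul (hB j) (hup j), h.pd_up A hA]
    rfl
  simp only [h1]
  have h2 : ∀ j, pd i (fun y => B y j) x = nab g B i j x + ∑ m, christoffel g m i j x * B x m := by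
    intro j
    unfold nab
    ring
  simp only [h2]
  have h3 : ∀ k, up (g x)⁻¹ (B x) k = ∑ l, (g x)⁻¹ l k * B x l := by
    intro k
    unfold up
    exact Finset.sum_congr rfl fun l _ => by rw [h.inv_symm k l]
  simp only [h3, Fin.sum_univ_three]
  ring

/-- the algebra -/
theorem alg (HW Hf : Bil) (Wc fc Wv fv dl dF : Cov) (P : Bil) (L F : ℝ) (hL : L ≠ 0)
    (hHW : ∀ i j, HW i j = HW j i) (hWv : ∀ i, Wv i = ∑ j, P i j * Wc j)
    (hfv : ∀ i, fv i = ∑ j, P i j * fc j)
    (hdl : ∀ i, dl i = (∑ k, Wv k * HW i k) / L)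
    (hdF : ∀ i, dF i = ((∑ j, fv j * HW i j) + (∑ j, Wv j * Hf i j) - F * dl i) / L) :
    ∑ i, ∑ j, P i j * (L * Hf i j + fc j * dl i - (F * HW i j + Wc j * dF i)) =
      L * ((∑ i, ∑ j, P i j * Hf i j) - ∑ i, ∑ j, Hf i j * (Wv i / L) * (Wv j / L))
        - F * ((∑ i, ∑ j, P i j * HW i j) - ∑ i, ∑ j, HW i j * (Wv i / L) * (Wv j / L)) := by
  have h1 : ∑ i, ∑ j, P i j * (L * Hf i j + fc j * dl i - (F * HW i j + Wc j * dF i)) =
      L * (∑ i, ∑ j, P i j * Hf i j) - F * (∑ i, ∑ j, P i j * HW i j)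
        + ((∑ i, fv i * dl i) - ∑ i, Wv i * dF i) := by
    simp only [hWv, hfv, Fin.sum_univ_three]
    ring
  have h2 : (∑ i, fv i * dl i) - ∑ i, Wv i * dF i =
      - L * (∑ i, ∑ j, Hf i j * (Wv i / L) * (Wv j / L))
        + F * ∑ i, ∑ j, HW i j * (Wv i / L) * (Wv j / L) := by
    simp only [hdF, hdl, Fin.sum_univ_three]
    rw [hHW 1 0, hHW 2 0, hHW 2 1]
    field_simp
    ring
  rw [h1, h2]
  ring

end LBm

open LBm in
open Pool.Agent.PFlow.MJD (Pt pt_of) in
open Pool.Agent.PenroseConvex (CovR.contDiffAt_pd CovR.pd_comm CovR.le2) in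
/-- (LB) The leafwise Laplacian is `tr_S ∇²f - H ν(f)`. -/
theorem LB (_hALG : Stmt_ALG) (hSMO : Stmt_SMO) : Stmt_LB := by
  intro g W x hreg f hf
  obtain ⟨O, hO, hxO, hg, hW, _⟩ := id hreg
  have hp : Pt g x := pt_of hO hg hxO
  obtain ⟨hev, hlen, hvol, hdens, _, _, hlenS, _, _, _, _, _, _, _, _⟩ := hSMO.2 g W x hreg
  have hWx : ContDiffAt ℝ ∞ W x := hW.contDiffAt (hO.mem_nhds hxO)
  have hW2 : ContDiffAt ℝ 2 W x := hWx.of_le CovR.le2
  have hgW : ∀ j, DifferentiableAt ℝ (fun y => grad W y j) x := fun j =>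
    (CovR.contDiffAt_pd (n := 1) hWx CovR.le2 j).differentiableAt (by norm_num)
  have hgf : ∀ j, DifferentiableAt ℝ (fun y => grad f y j) x := fun j =>
    (CovR.contDiffAt_pd (n := 1) hf (by norm_num) j).differentiableAt (by norm_num)
  have hupW : ∀ k, DifferentiableAt ℝ (fun y => up (g y)⁻¹ (grad W y) k) x := fun k =>
    DifferentiableAt.fun_sum fun j _ => (hp.diffInv k j).fun_mul (hgW j)
  -- the length
  have hl : DifferentiableAt ℝ (fun y => len g y (grad W y)) x := hlenS.differentiableAt (by simp)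
  have hlpos : ∀ᶠ y in 𝓝 x, 0 < len g y (grad W y) := by
    filter_upwards [hev] with y hy
    exact (hSMO.2 g W y hy).2.1
  have hlsq : (fun y => len g y (grad W y) * len g y (grad W y)) =ᶠ[𝓝 x]
      fun y => ∑ j, grad W y j * up (g y)⁻¹ (grad W y) j := by
    filter_upwards [hlpos] with y hy
    have h0 : 0 < ev (g y)⁻¹ (grad W y) (grad W y) := by
      unfold len at hy
      exact Real.sqrt_pos.1 hy
    have h1 : len g y (grad W y) * len g y (grad W y) = ev (g y)⁻¹ (grad W y) (grad W y) := by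
      unfold len
      exact Real.mul_self_sqrt h0.le
    rw [h1]
    unfold ev up
    refine Finset.sum_congr rfl fun i _ => ?_
    rw [Finset.mul_sum]
    refine Finset.sum_congr rfl fun j _ => ?_
    ring
  have hnabW : ∀ i j, nab g (grad W) i j x = cHess g x (grad W x) (hess2 W x) i j := fun i j => rfl
  have hnabf : ∀ i j, nab g (grad f) i j x = cHess g x (grad f x) (hess2 f x) i j := fun i j => rfl
  have hdl : ∀ i, pd i (fun y => len g y (grad W y)) x =
      (∑ k, up (g x)⁻¹ (grad W x) k * cHess g x (grad W x) (hess2 W x) i k)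
        / len g x (grad W x) := by
    intro i
    have h1 := pd_congr (i := i) hlsq
    rw [pd_mul hl hl, pd_ip hp (grad W) (grad W) hgW hgW i] at h1
    simp only [hnabW] at h1
    rw [eq_div_iff hlen.ne']
    linarith
  -- the normal derivative
  obtain ⟨F, hF⟩ : ∃ F : E3 → ℝ, F = fun y =>
      (∑ j, grad f y j * up (g y)⁻¹ (grad W y) j) / len g y (grad W y) := ⟨_, rfl⟩
  have hnum : DifferentiableAt ℝ (fun y => ∑ j, grad f y j * up (g y)⁻¹ (grad W y) j) x :=
    DifferentiableAt.fun_sum fun j _ => (hgf j).fun_mul (hupW j)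
  have hFd : DifferentiableAt ℝ F x := by
    rw [hF]
    exact hnum.mul (hl.inv hlen.ne')
  have hFmul : (fun y => F y * len g y (grad W y)) =ᶠ[𝓝 x]
      fun y => ∑ j, grad f y j * up (g y)⁻¹ (grad W y) j := by
    filter_upwards [hlpos] with y hy
    rw [hF]
    simp only
    rw [div_mul_cancel₀ _ hy.ne']
  have hdF : ∀ i, pd i F x =
      ((∑ j, up (g x)⁻¹ (grad f x) j * cHess g x (grad W x) (hess2 W x) i j)
        + (∑ j, up (g x)⁻¹ (grad W x) j * cHess g x (grad f x) (hess2 f x) i j)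
        - F x * pd i (fun y => len g y (grad W y)) x) / len g x (grad W x) := by
    intro i
    have h1 := pd_congr (i := i) hFmul
    rw [pd_mul hFd hl, pd_ip hp (grad W) (grad f) hgW hgf i] at h1
    simp only [hnabW, hnabf] at h1
    rw [eq_div_iff hlen.ne']
    linarith
  -- the vector field
  have hX : ∀ j, DifferentiableAt ℝ
      (fun y => len g y (grad W y) * grad f y j - F y * grad W y j) x := fun j =>
    (hl.fun_mul (hgf j)).fun_sub (hFd.fun_mul (hgW j))
  have hfield : ∀ i, (fun y => dens g W y * lgrad g W f y i) =ᶠ[𝓝 x] fun y =>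
      volDen g y * up (g y)⁻¹ (fun j => len g y (grad W y) * grad f y j - F y * grad W y j) i := by
    intro i
    filter_upwards [hlpos] with y hy
    have h1 : up (g y)⁻¹ (fun j => len g y (grad W y) * grad f y j - F y * grad W y j) i =
        len g y (grad W y) * up (g y)⁻¹ (grad f y) i - F y * up (g y)⁻¹ (grad W y) i := by
      unfold up
      rw [Finset.mul_sum, Finset.mul_sum, ← Finset.sum_sub_distrib]
      refine Finset.sum_congr rfl fun j _ => ?_
      ring
    have h2 : lgrad g W f y i = up (g y)⁻¹ (grad f y) i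
        - up (g y)⁻¹ (grad W y) i / len g y (grad W y) * F y := by
      have h3 : F y = ∑ j, grad f y j * nrm g y (grad W y) j := by
        rw [hF]
        simp only
        rw [Finset.sum_div]
        refine Finset.sum_congr rfl fun j _ => ?_
        have h4 : nrm g y (grad W y) j = up (g y)⁻¹ (grad W y) j / len g y (grad W y) := rfl
        rw [h4, mul_div_assoc]
      rw [h3]
      rfl
    rw [h1, h2]
    unfold dens
    field_simp
  have hsum : ∑ i, pd i (fun y => dens g W y * lgrad g W f y i) x =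
      volDen g x * ∑ i, ∑ j, (g x)⁻¹ i j *
        (len g x (grad W x) * cHess g x (grad f x) (hess2 f x) i j
          + grad f x j * pd i (fun y => len g y (grad W y)) x
          - (F x * cHess g x (grad W x) (hess2 W x) i j + grad W x j * pd i F x)) := by
    have h1 : ∀ i, pd i (fun y => dens g W y * lgrad g W f y i) x = pd i (fun y =>
        volDen g y * up (g y)⁻¹ (fun j => len g y (grad W y) * grad f y j
          - F y * grad W y j) i) x := fun i => pd_congr (hfield i)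
    simp only [h1]
    rw [hp.div_up (fun y j => len g y (grad W y) * grad f y j - F y * grad W y j) hX]
    congr 1
    refine Finset.sum_congr rfl fun i _ => Finset.sum_congr rfl fun j _ => ?_
    congr 1
    rw [pd_sub (hl.fun_mul (hgf j)) (hFd.fun_mul (hgW j)), pd_mul hl (hgf j), pd_mul hFd (hgW j)]
    have h2 : cHess g x (grad f x) (hess2 f x) i j =
        pd i (fun y => grad f y j) x - ∑ m, christoffel g m i j x * grad f x m := rfl
    have h3 : cHess g x (grad W x) (hess2 W x) i j =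
        pd i (fun y => grad W y j) x - ∑ m, christoffel g m i j x * grad W x m := rfl
    rw [h2, h3]
    simp only [Fin.sum_univ_three]
    ring
  have hHW : ∀ i j, cHess g x (grad W x) (hess2 W x) i j =
      cHess g x (grad W x) (hess2 W x) j i := by
    intro i j
    have h2 : ∀ i j, cHess g x (grad W x) (hess2 W x) i j =
        pd i (pd j W) x - ∑ m, christoffel g m i j x * grad W x m := fun i j => rfl
    rw [h2, h2, CovR.pd_comm hW2 i j]
    congr 1
    refine Finset.sum_congr rfl fun m _ => ?_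
    rw [hp.chr_symm m i j]
  have key := alg (cHess g x (grad W x) (hess2 W x)) (cHess g x (grad f x) (hess2 f x))
    (grad W x) (grad f x) (up (g x)⁻¹ (grad W x)) (up (g x)⁻¹ (grad f x))
    (fun i => pd i (fun y => len g y (grad W y)) x) (fun i => pd i F x) (g x)⁻¹
    (len g x (grad W x)) (F x) hlen.ne' hHW (fun i => rfl) (fun i => rfl) hdl hdF
  have hlap : lap g W f x = (∑ i, pd i (fun y => dens g W y * lgrad g W f y i) x)
      / dens g W x := rfl
  rw [hlap, hsum]
  have hbt : ∀ B : Bil, btan g x (grad W x) B = (∑ i, ∑ j, (g x)⁻¹ i j * B i j) -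
      ∑ i, ∑ j, B i j * (up (g x)⁻¹ (grad W x) i / len g x (grad W x))
        * (up (g x)⁻¹ (grad W x) j / len g x (grad W x)) := fun B => rfl
  rw [hbt, hbt]
  have hFx : ∑ i, grad f x i * nrm g x (grad W x) i = F x := by
    rw [hF]
    simp only
    rw [Finset.sum_div]
    refine Finset.sum_congr rfl fun j _ => ?_
    have h4 : nrm g x (grad W x) j = up (g x)⁻¹ (grad W x) j / len g x (grad W x) := rfl
    rw [h4, mul_div_assoc]
  rw [hFx]
  refine Eq.trans (congrArg (fun s => volDen g x * s / dens g W x) key) ?_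
  have hd : dens g W x = len g x (grad W x) * volDen g x := rfl
  rw [hd]
  have hv := hvol.ne'
  have hln := hlen.ne'
  generalize (∑ i, ∑ j, (g x)⁻¹ i j * cHess g x (grad f x) (hess2 f x) i j) -
      ∑ i, ∑ j, cHess g x (grad f x) (hess2 f x) i j
        * (up (g x)⁻¹ (grad W x) i / len g x (grad W x))
        * (up (g x)⁻¹ (grad W x) j / len g x (grad W x)) = S1
  generalize (∑ i, ∑ j, (g x)⁻¹ i j * cHess g x (grad W x) (hess2 W x) i j) -
      ∑ i, ∑ j, cHess g x (grad W x) (hess2 W x) i j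
        * (up (g x)⁻¹ (grad W x) i / len g x (grad W x))
        * (up (g x)⁻¹ (grad W x) j / len g x (grad W x)) = S2
  field_simp

end Pool.Agent.PFlow.GB


end

section

/-!
# FUB: Fubini on boxes of `E3`
-/

open MeasureTheory Filter Topology
open scoped ContDiff

namespace Pool.Agent.PFlow.GB

open Pool.Agent.PenroseSph Pool.Agent.PFlow

namespace FUBaux

/-- The measurable equivalence `(s, a, b) ↦ pt a b s`. -/
noncomputable def T : ℝ × (ℝ × ℝ) ≃ᵐ E3 :=
  (((MeasurableEquiv.refl ℝ).prodCongr MeasurableEquiv.finTwoArrow.symm).trans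
    (MeasurableEquiv.piFinSuccAbove (fun _ : Fin 3 => ℝ) 2).symm).trans
    (MeasurableEquiv.toLp 2 (Fin 3 → ℝ))

lemma T_apply (s a b : ℝ) : T (s, a, b) = pt a b s := by
  ext i
  fin_cases i <;> rfl

lemma T_mp : MeasurePreserving T := by
  have h1 : MeasurePreserving (MeasurableEquiv.finTwoArrow (α := ℝ)).symm :=
    (volume_preserving_finTwoArrow ℝ).symm _
  have h2 : MeasurePreserving (MeasurableEquiv.piFinSuccAbove (fun _ : Fin 3 => ℝ) 2).symm :=
    (volume_preserving_piFinSuccAbove (fun _ : Fin 3 => ℝ) 2).symm _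
  have h3 : MeasurePreserving (Prod.map (id : ℝ → ℝ)
      (MeasurableEquiv.finTwoArrow (α := ℝ)).symm) :=
    (MeasurePreserving.id volume).prod h1
  exact (PiLp.volume_preserving_toLp (Fin 3)).comp (h2.comp h3)

end FUBaux

open FUBaux in
/-- (FUB) Fubini on boxes. -/
theorem FUB : Stmt_FUB := by
  intro z0 r e F hF
  have hpre : T ⁻¹' obox z0 r e = Set.Ioo (z0 2 - e) (z0 2 + e) ×ˢ
      (Set.Ioo (z0 0 - r) (z0 0 + r) ×ˢ Set.Ioo (z0 1 - r) (z0 1 + r)) := by
    ext ⟨s, a, b⟩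
    rw [Set.mem_preimage, T_apply]
    have e0 : pt a b s 0 = a := rfl
    have e1 : pt a b s 1 = b := rfl
    have e2 : pt a b s 2 = s := rfl
    simp only [obox, Set.mem_ofPred_eq, Set.mem_prod, Set.mem_Ioo, e0, e1, e2, abs_lt]
    constructor
    · rintro ⟨⟨h1, h2⟩, ⟨h3, h4⟩, h5, h6⟩
      refine ⟨⟨?_, ?_⟩, ⟨?_, ?_⟩, ?_, ?_⟩ <;> linarith
    · rintro ⟨⟨h1, h2⟩, ⟨h3, h4⟩, h5, h6⟩
      refine ⟨⟨?_, ?_⟩, ⟨?_, ?_⟩, ?_, ?_⟩ <;> linarith
  have hI : IntegrableOn (fun z => F (T z)) (T ⁻¹' obox z0 r e) :=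
    (T_mp.integrableOn_comp_preimage T.measurableEmbedding).mpr hF
  rw [← T_mp.setIntegral_preimage_emb T.measurableEmbedding]
  rw [hpre] at hI ⊢
  rw [Measure.volume_eq_prod] at hI ⊢
  rw [setIntegral_prod _ hI]
  have hI2 := hI
  rw [IntegrableOn, ← Measure.prod_restrict] at hI2
  refine integral_congr_ae ?_
  filter_upwards [hI2.prod_right_ae] with s hs
  have hs2 : IntegrableOn (fun y : ℝ × ℝ => F (T (s, y)))
      (Set.Ioo (z0 0 - r) (z0 0 + r) ×ˢ Set.Ioo (z0 1 - r) (z0 1 + r))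
      ((volume : Measure ℝ).prod (volume : Measure ℝ)) := by
    rw [← Measure.volume_eq_prod]
    exact hs
  rw [Measure.volume_eq_prod, setIntegral_prod _ hs2]
  simp only [T_apply]

end Pool.Agent.PFlow.GB


end

section

open MeasureTheory Filter Topology
open scoped ContDiff

namespace Pool.Agent.PFlow

open Pool.Agent.PenroseSph

namespace MSEQ

lemma isOpen_Ann (a b : ℝ) : IsOpen (Ann a b) := by
  have h1 : IsOpen {x : E3 | a < ‖x‖} := isOpen_lt continuous_const continuous_norm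
  have h2 : IsOpen {x : E3 | ‖x‖ < b} := isOpen_lt continuous_norm continuous_const
  exact h1.inter h2

/-- A compact subset of an open interval, with room around it. -/
lemma room {T : Set ℝ} {s₀ s₁ : ℝ} (hT : IsCompact T) (hsub : T ⊆ Set.Ioo s₀ s₁)
    (h : s₀ < s₁) : ∃ m n δ : ℝ, 0 < δ ∧ m ≤ n ∧ T ⊆ Set.Icc m n ∧ s₀ + 8 * δ ≤ m ∧
      n + 8 * δ ≤ s₁ := by
  rcases T.eq_empty_or_nonempty with h0 | h0
  · refine ⟨(s₀ + s₁) / 2, (s₀ + s₁) / 2, (s₁ - s₀) / 16, by linarith, le_refl _, ?_, by linarith,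
      by linarith⟩
    rw [h0]
    exact Set.empty_subset _
  · obtain ⟨m, hm, hm'⟩ := hT.exists_isLeast h0
    obtain ⟨n, hn, hn'⟩ := hT.exists_isGreatest h0
    have h1 := hsub hm
    have h2 := hsub hn
    refine ⟨m, n, min (m - s₀) (s₁ - n) / 8, ?_, hm' hn, fun x hx => ⟨hm' hx, hn' hx⟩, ?_, ?_⟩
    · have := lt_min (sub_pos.mpr h1.1) (sub_pos.mpr h2.2)
      linarith
    · have := min_le_left (m - s₀) (s₁ - n)
      linarith
    · have := min_le_right (m - s₀) (s₁ - n)
      linarith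

/-- Bands of levels are compact. -/
lemma band_compact {a b a' b' s₀ s₁ c d : ℝ} {w : E3 → ℝ} (ha' : a < a') (hb' : b' < b)
    (hw : ContinuousOn w (Ann a b)) (hin : ∀ x : E3, a < ‖x‖ → ‖x‖ ≤ a' → w x ≤ s₀)
    (hout : ∀ x : E3, b' ≤ ‖x‖ → ‖x‖ < b → s₁ ≤ w x) (hc : s₀ < c) (hd : d < s₁) :
    IsCompact {x | x ∈ Ann a b ∧ w x ∈ Set.Icc c d} := by
  have hA : IsCompact {x : E3 | a' ≤ ‖x‖ ∧ ‖x‖ ≤ b'} := by
    have h1 : {x : E3 | a' ≤ ‖x‖ ∧ ‖x‖ ≤ b'} = Metric.closedBall (0 : E3) b' ∩ {x | a' ≤ ‖x‖} := by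
      ext x
      simp [and_comm]
    rw [h1]
    exact (isCompact_closedBall _ _).inter_right (isClosed_le continuous_const continuous_norm)
  have hsub : {x : E3 | a' ≤ ‖x‖ ∧ ‖x‖ ≤ b'} ⊆ Ann a b := fun x hx =>
    ⟨lt_of_lt_of_le ha' hx.1, lt_of_le_of_lt hx.2 hb'⟩
  have hcl : IsClosed ({x : E3 | a' ≤ ‖x‖ ∧ ‖x‖ ≤ b'} ∩ w ⁻¹' Set.Icc c d) :=
    (hw.mono hsub).preimage_isClosed_of_isClosed hA.isClosed isClosed_Icc
  have heq : {x | x ∈ Ann a b ∧ w x ∈ Set.Icc c d}
      = {x : E3 | a' ≤ ‖x‖ ∧ ‖x‖ ≤ b'} ∩ w ⁻¹' Set.Icc c d := by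
    ext x
    constructor
    · rintro ⟨hx, hx'⟩
      refine ⟨⟨?_, ?_⟩, hx'⟩
      · by_contra hlt
        have := hin x hx.1 (not_le.mp hlt).le
        linarith [hx'.1]
      · by_contra hlt
        have := hout x (not_le.mp hlt).le hx.2
        linarith [hx'.2]
    · rintro ⟨hx, hx'⟩
      exact ⟨hsub hx, hx'⟩
  rw [heq]
  exact hA.of_isClosed_subset hcl Set.inter_subset_left

/-- Where the truncated function is strictly between the levels, it is equal to `w`. -/
lemma trW_mem {a' b' s₀ s₁ : ℝ} {w : E3 → ℝ} {x : E3}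
    (h : trW a' b' s₀ s₁ w x ∈ Set.Ioo s₀ s₁) :
    a' < ‖x‖ ∧ ‖x‖ < b' ∧ w x = trW a' b' s₀ s₁ w x := by
  unfold trW at h ⊢
  by_cases h1 : ‖x‖ ≤ a'
  · rw [if_pos h1] at h
    exact absurd h.1 (lt_irrefl _)
  · rw [if_neg h1] at h ⊢
    by_cases h2 : b' ≤ ‖x‖
    · rw [if_pos h2] at h
      exact absurd h.2 (lt_irrefl _)
    · rw [if_neg h2] at h ⊢
      refine ⟨not_le.mp h1, not_le.mp h2, ?_⟩
      rcases le_total s₁ (w x) with h3 | h3
      · rw [min_eq_left h3] at h
        have := le_max_right s₀ s₁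
        linarith [h.2]
      · rw [min_eq_right h3] at h ⊢
        rcases le_total s₀ (w x) with h4 | h4
        · rw [max_eq_right h4]
        · rw [max_eq_left h4] at h
          exact absurd h.1 (lt_irrefl _)

/-- A smooth function between a compact set and a compact neighbourhood. -/
lemma exists_cut {K' O K : Set E3} (hK' : IsClosed K') (hO : IsOpen O) (hK : IsClosed K)
    (h1 : K' ⊆ O) (h2 : O ⊆ K) : ∃ f : E3 → ℝ, ContDiff ℝ ∞ f ∧ tsupport f ⊆ K ∧
      (∀ x, 0 ≤ f x) ∧ (∀ x, f x ≤ 1) ∧ ∀ x ∈ K', f x = 1 := by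
  have hd : Disjoint Oᶜ K' := Set.disjoint_left.mpr fun x hx hx' => hx (h1 hx')
  obtain ⟨f, hf0, hf1, hf⟩ := exists_contMDiffMap_zero_one_of_isClosed (n := (⊤ : ℕ∞))
    (modelWithCornersSelf ℝ E3) hO.isClosed_compl hK' hd
  refine ⟨f, f.contMDiff.contDiff, ?_, fun x => (hf x).1, fun x => (hf x).2, fun x hx => hf1 hx⟩
  have hs : Function.support (f : E3 → ℝ) ⊆ O := by
    intro x hx
    by_contra hxO
    exact hx (hf0 hxO)
  exact closure_minimal (hs.trans h2) hK

/-- `‖G‖²` is integrable. -/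
lemma vsq_int {K : Set E3} (hK : IsCompact K) {G : E3 → Cov}
    (hG : ∀ i, MemLp (fun x => G x i) 4 (volume.restrict K)) :
    IntegrableOn (fun x => vsq (G x)) K := by
  have : IsFiniteMeasure (volume.restrict K) := ⟨by
    rw [Measure.restrict_apply_univ]
    exact hK.measure_lt_top⟩
  have h1 : ∀ i, Integrable (fun x => G x i ^ 2) (volume.restrict K) := fun i =>
    ((hG i).mono_exponent (by norm_num)).integrable_sq
  unfold vsq
  exact integrable_finsetSum _ fun i _ => h1 i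

end MSEQ

open MSEQ in
theorem SEQ (hAP : Stmt_AP) (hFX : Stmt_FX) (hTR : Stmt_TR) (hFM : Stmt_FM) (hBAD : Stmt_BAD)
    (hFA : Stmt_FA) : Stmt_SEQ := by
  intro ε a b s₀ s₁ g h w G M hε0 hε1 ha hab hs hg hh hw heq hNI hSep hapb ψ hψ hψc hψs hψ0
  have hU := isOpen_Ann a b
  obtain ⟨a', b', haa', hab', hb'b, hin, hout⟩ := hSep
  obtain ⟨m, n, δ, hδ, hmn, hT, hm, hn⟩ := room hψc.isCompact hψs hs
  -- the bands
  set K' : Set E3 := {x | x ∈ Ann a b ∧ w x ∈ Set.Icc (m - δ) (n + δ)} with hK'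
  set O : Set E3 := {x | x ∈ Ann a b ∧ w x ∈ Set.Ioo (m - 2 * δ) (n + 2 * δ)} with hO
  set K : Set E3 := {x | x ∈ Ann a b ∧ w x ∈ Set.Icc (m - 3 * δ) (n + 3 * δ)} with hK
  set K₁ : Set E3 := {x | x ∈ Ann a b ∧ w x ∈ Set.Icc (m - 6 * δ) (n + 6 * δ)} with hK₁
  have hK'c : IsCompact K' :=
    band_compact haa' hb'b hw.cont hin hout (by linarith) (by linarith)
  have hKc : IsCompact K :=
    band_compact haa' hb'b hw.cont hin hout (by linarith) (by linarith)
  have hK₁c : IsCompact K₁ :=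
    band_compact haa' hb'b hw.cont hin hout (by linarith) (by linarith)
  have hOo : IsOpen O := hw.cont.isOpen_inter_preimage hU isOpen_Ioo
  have hK'O : K' ⊆ O := fun x hx => ⟨hx.1, by constructor <;> linarith [hx.2.1, hx.2.2]⟩
  have hOK : O ⊆ K := fun x hx => ⟨hx.1, by constructor <;> linarith [hx.2.1, hx.2.2]⟩
  have hK'K : K' ⊆ K := hK'O.trans hOK
  have hKK₁ : K ⊆ K₁ := fun x hx => ⟨hx.1, by constructor <;> linarith [hx.2.1, hx.2.2]⟩
  have hK₁A : K₁ ⊆ Ann a b := fun x hx => hx.1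
  have hKA : K ⊆ Ann a b := fun x hx => hx.1
  have hKab : ∀ x ∈ K, a' < ‖x‖ ∧ ‖x‖ < b' := by
    intro x hx
    constructor
    · by_contra hlt
      have := hin x hx.1.1 (not_lt.mp hlt)
      linarith [hx.2.1]
    · by_contra hlt
      have := hout x (not_lt.mp hlt) hx.1.2
      linarith [hx.2.2]
  -- the approximating sequence
  obtain ⟨v₀, hv₀s, hv₀u, hv₀1, hv₀2, hv₀c, hv₀i, hv₀3⟩ :=
    hAP ε (Ann a b) g h w G M hε0 hε1 hU hg hh hw heq hapb K₁ hK₁c hK₁A
  set e : ℕ → ℝ := fun k => δ / 2 * (1 / ((k : ℝ) + 1)) with he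
  have he0 : ∀ k, 0 < e k := fun k => by
    rw [he]
    positivity
  have heδ : ∀ k, e k < δ := by
    intro k
    have h1 : 1 / ((k : ℝ) + 1) ≤ 1 := by
      rw [div_le_one (by positivity)]
      linarith [Nat.cast_nonneg (α := ℝ) k]
    have h2 : δ / 2 * (1 / ((k : ℝ) + 1)) ≤ δ / 2 * 1 :=
      mul_le_mul_of_nonneg_left h1 (by positivity)
    simp only [he]
    linarith
  have helim : Tendsto e atTop (𝓝 0) := by
    have h1 : Tendsto (fun k : ℕ => 1 / ((k : ℝ) + 1)) atTop (𝓝 0) :=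
      tendsto_one_div_add_atTop_nhds_zero_nat
    have h2 := h1.const_mul (δ / 2)
    simpa [he] using h2
  obtain ⟨φ, hφ, hφe⟩ := extraction_forall_of_eventually'
    (P := fun k N => ∀ x ∈ K₁, |v₀ N x - w x| ≤ e k) (by
      intro k
      have h1 := Metric.tendstoUniformlyOn_iff.mp hv₀u (e k) (he0 k)
      obtain ⟨N, hN⟩ := eventually_atTop.mp h1
      refine ⟨N, fun j hj x hx => ?_⟩
      have h2 := hN j hj x hx
      rw [Real.dist_eq, abs_sub_comm] at h2
      exact h2.le)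
  set v : ℕ → E3 → ℝ := fun k => v₀ (φ k) with hv
  have hφt : Tendsto φ atTop atTop := hφ.tendsto_atTop
  have hTRk : ∀ k, ∃ (W : E3 → ℝ) (C : NNReal), Trunc a' b' (m - 5 * δ) (n + 5 * δ) W ∧
      LipschitzWith C W ∧ (∀ x, |W x - trW a' b' (m - 5 * δ) (n + 5 * δ) w x| ≤ e k) ∧
      (∀ x ∈ Ann a b, m - 5 * δ + e k < w x → w x < n + 5 * δ - e k →
        ∀ᶠ y in 𝓝 x, W y = v k y) := by
    intro k
    refine hTR a b a' b' (m - 5 * δ) (n + 5 * δ) δ (e k) w (v k) ha haa' hab' hb'b (by linarith)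
      (he0 k) (heδ k) hw.cont (fun x h1 h2 => ?_) (fun x h1 h2 => ?_) (hv₀s _) ?_
    · linarith [hin x h1 h2]
    · linarith [hout x h1 h2]
    · intro x hx h1 h2
      exact hφe k x ⟨hx, by constructor <;> linarith⟩
  choose W C hW1 hW2 hW3 hW4 using hTRk
  set z₁ : E3 := EuclideanSpace.single 0 b' with hz₁
  have hb'0 : 0 ≤ b' := by linarith
  have hz₁n : b' ≤ ‖z₁‖ := by
    rw [hz₁, PiLp.norm_single, Real.norm_eq_abs]
    exact le_abs_self b'
  obtain ⟨hX1, hX2⟩ := hFX a b a' b' (m - 5 * δ) (n + 5 * δ) w z₁ ha haa' hab' hb'b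
    (by linarith) hw.cont hNI (fun x h1 h2 => by linarith [hin x h1 h2])
    (fun x h1 h2 => by linarith [hout x h1 h2]) hz₁n
  have hfill : ∀ k x, |fill (W k) (m - 5 * δ) (n + 5 * δ) 0 z₁ x
      - trW a' b' (m - 5 * δ) (n + 5 * δ) w x| ≤ e k := by
    intro k x
    have h1 := hFM a' b' (m - 5 * δ) (n + 5 * δ) (e k) (W k) _ z₁ (hW1 k) hX1 hz₁n (hW3 k) x
    rwa [hX2 x] at h1
  -- values in a band are values of `w`
  have hval : ∀ (k : ℕ) (y c d : ℝ) (x : E3), |y - trW a' b' (m - 5 * δ) (n + 5 * δ) w x| ≤ e k →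
      y ∈ Set.Icc c d → m - 4 * δ ≤ c → d ≤ n + 4 * δ →
      x ∈ Ann a b ∧ w x ∈ Set.Icc (c - e k) (d + e k) := by
    intro k y c d x h1 h2 h3 h4
    have h5 := abs_le.mp h1
    have h6 := heδ k
    have h7 : trW a' b' (m - 5 * δ) (n + 5 * δ) w x ∈ Set.Ioo (m - 5 * δ) (n + 5 * δ) := by
      constructor <;> linarith [h2.1, h2.2, h5.1, h5.2]
    obtain ⟨h8, h9, h10⟩ := trW_mem h7
    refine ⟨⟨by linarith, by linarith⟩, ?_⟩
    rw [h10]
    constructor <;> linarith [h2.1, h2.2, h5.1, h5.2]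
  have hlevels : ∀ (k : ℕ) (x : E3),
      fill (W k) (m - 5 * δ) (n + 5 * δ) 0 z₁ x ∈ Set.Icc (m - δ) (n + δ) → x ∈ K := by
    intro k x hx
    obtain ⟨h1, h2⟩ := hval k _ (m - δ) (n + δ) x (hfill k x) hx (by linarith) (by linarith)
    have := heδ k
    exact ⟨h1, by constructor <;> linarith [h2.1, h2.2]⟩
  have hLS : ∀ k, LSData (Ann a b) g h a' b' (m - 5 * δ) (n + 5 * δ) (m - δ) (n + δ) (W k) (v k)
      (C k) z₁ K ψ := by
    intro k
    have hek := heδ k
    refine ⟨hU, hg, hh, hW1 k, hW2 k, hz₁n, hv₀s _, hKc, hKA, ?_, by linarith, by linarith,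
      by linarith, hψ, hψ0, ?_, hlevels k, ?_⟩
    · intro x hx
      exact hW4 k x hx.1 (by linarith [hx.2.1]) (by linarith [hx.2.2])
    · intro s hs'
      have := hT hs'
      constructor <;> linarith [this.1, this.2]
    · intro x hx
      obtain ⟨h1, h2⟩ := hval k _ (m - δ) (n + δ) x (hW3 k x) hx (by linarith) (by linarith)
      exact ⟨h1, by constructor <;> linarith [h2.1, h2.2]⟩
  have hres : volume.restrict K ≤ volume.restrict K₁ := Measure.restrict_mono hKK₁ le_rfl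
  have hc1 : ∀ i, Tendsto (fun k => eLpNorm (fun x => pd i (v k) x - G x i) 4
      (volume.restrict K)) atTop (𝓝 0) := by
    intro i
    refine tendsto_of_tendsto_of_tendsto_of_le_of_le tendsto_const_nhds
      ((hv₀1 i).comp hφt) (fun k => bot_le) fun k => eLpNorm_mono_measure _ hres
  have hc2 : ∀ i j, Tendsto (fun k => eLpNorm (fun x => pd i (pd j (v k)) x - M x i j) 2
      (volume.restrict K)) atTop (𝓝 0) := by
    intro i j
    refine tendsto_of_tendsto_of_tendsto_of_le_of_le tendsto_const_nhds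
      ((hv₀2 i j).comp hφt) (fun k => bot_le) fun k => eLpNorm_mono_measure _ hres
  have hnn : ∀ (k : ℕ) (x : E3), 0 ≤ resid ε g h x (grad (v k) x) (hess2 (v k) x) ^ 2
      / vn (grad (v k) x) := fun k x => div_nonneg (sq_nonneg _) (Real.sqrt_nonneg _)
  refine ⟨a', b', m - 5 * δ, n + 5 * δ, m - δ, n + δ, z₁, K, K', v, W, C, ?_⟩
  refine ⟨hLS, hK'K, hK'c, ?_, ?_, ?_, ?_, hc1, hc2, ?_, ?_, ?_, ?_⟩
  · intro x hx hxs
    have := hT hxs
    exact ⟨hx, by constructor <;> linarith [this.1, this.2]⟩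
  · intro k x hx hxs
    have h0 := hT hxs
    obtain ⟨h1, h2⟩ := hval k _ m n x (hfill k x) h0 (by linarith) (by linarith)
    have := heδ k
    exact ⟨h1, by constructor <;> linarith [h2.1, h2.2]⟩
  · intro k x hx hxs
    have h0 := hT hxs
    have h1 := abs_le.mp (hφe k x (hKK₁ hx))
    have h2 := heδ k
    refine ⟨hx.1, ?_⟩
    simp only [hv] at h0
    constructor <;> linarith [h0.1, h0.2, h1.1, h1.2]
  · intro u hu
    have h1 := (hv₀u.mono hKK₁) u hu
    exact hφt.eventually h1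
  · intro k
    exact (hv₀c (φ k)).subset fun x hx => ⟨hKK₁ hx.1, hx.2⟩
  · intro k
    exact (hv₀i (φ k)).mono_set hKK₁
  · refine squeeze_zero (fun k => integral_nonneg fun x => hnn k x) (fun k => ?_)
      (hv₀3.comp hφt)
    exact setIntegral_mono_set (hv₀i (φ k)) (Filter.Eventually.of_forall fun x => hnn k x)
      (Filter.Eventually.of_forall hKK₁)
  · obtain ⟨f, hf1, hf2, hf3, hf4, hf5⟩ :=
      exists_cut hK'c.isClosed hOo hKc.isClosed hK'O hOK
    have hB := hBAD a b a' b' (m - 5 * δ) (n + 5 * δ) w G M K z₁ v W C e f ha haa' hab' hb'b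
      (by linarith) hw hKc hKA (fun x hx => by constructor <;> linarith [hx.2.1, hx.2.2]) hKab hz₁n
      hX1 hX2 hW1 hW2 (fun k => hv₀s _) (fun k => (hLS k).agree) helim hW3 hc1 hf1 hf2 hf3 hf4
    have hvs := vsq_int hKc (fun i => hw.memG K hKc hKA i)
    have hfv : IntegrableOn (fun x => f x * vsq (G x)) K := by
      refine Integrable.bdd_mul (c := 1) hvs hf1.continuous.aestronglyMeasurable ?_
      refine Filter.Eventually.of_forall fun x => ?_
      rw [Real.norm_eq_abs, abs_of_nonneg (hf3 x)]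
      exact hf4 x
    refine squeeze_zero (fun k => integral_nonneg fun x => Finset.sum_nonneg fun i _ =>
      sq_nonneg _) (fun k => ?_) hB
    have hgm : MeasurableSet (good (W k) (m - 5 * δ) (n + 5 * δ) 0 z₁) := by
      obtain ⟨h1, h2, -⟩ := hFA a' b' (m - 5 * δ) (n + 5 * δ) (W k) (C k) z₁ (hW1 k) (hW2 k) hz₁n
      have h3 : IsClosed {x | fill (W k) (m - 5 * δ) (n + 5 * δ) 0 z₁ x
          = fillA (W k) (m - 5 * δ) z₁ x} := isClosed_eq h2.continuous h1.continuous
      have h4 : IsClosed {x | fillA (W k) (m - 5 * δ) z₁ x = W k x} :=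
        isClosed_eq h1.continuous (hW2 k).continuous
      have h5 : good (W k) (m - 5 * δ) (n + 5 * δ) 0 z₁
          = {x | fillA (W k) (m - 5 * δ) z₁ x = W k x}
            ∩ {x | fill (W k) (m - 5 * δ) (n + 5 * δ) 0 z₁ x
              = fillA (W k) (m - 5 * δ) z₁ x} := by
        ext x
        rfl
      rw [h5]
      exact (h4.inter h3).measurableSet
    calc ∫ x in K' \ good (W k) (m - 5 * δ) (n + 5 * δ) 0 z₁, vsq (G x)
        = ∫ x in K' \ good (W k) (m - 5 * δ) (n + 5 * δ) 0 z₁, f x * vsq (G x) := by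
          refine setIntegral_congr_fun (hK'c.measurableSet.diff hgm) fun x hx => ?_
          show vsq (G x) = f x * vsq (G x)
          rw [hf5 x hx.1, one_mul]
      _ ≤ ∫ x in K \ good (W k) (m - 5 * δ) (n + 5 * δ) 0 z₁, f x * vsq (G x) := by
          refine setIntegral_mono_set (hfv.mono_set Set.sdiff_subset)
            (Filter.Eventually.of_forall fun x => mul_nonneg (hf3 x)
              (Finset.sum_nonneg fun i _ => sq_nonneg _))
            (Filter.Eventually.of_forall fun x hx => ⟨hK'K hx.1, hx.2⟩)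

end Pool.Agent.PFlow


end

section

/-!
# Module EXI1: existence of a setup with a cut
-/

set_option autoImplicit false

open MeasureTheory Filter Topology
open scoped ContDiff ENNReal

namespace Pool.Agent.PFlow

open Pool.Agent.PenroseSph

namespace EXI1aux

lemma sME_tendsto {ε γ : ℝ} (hε : ε < 2) : Tendsto (fun R : ℝ => sME ε γ R) atTop atTop := by
  unfold sME
  have h1 : Tendsto (fun R : ℝ => R / 2) atTop atTop :=
    tendsto_id.atTop_div_const (by norm_num)
  have h2 : Tendsto (fun R : ℝ => (2 - ε) * Real.log (R / 2)) atTop atTop :=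
    (Real.tendsto_log_atTop.comp h1).const_mul_atTop (by linarith)
  exact tendsto_atTop_add_const_right _ (-γ) h2

lemma lam_pos {ε : ℝ} (hε : 0 < ε) (hε2 : ε ≤ 1 / 2) : 0 < lam ε / 2 - 1 / (2 - ε) := by
  unfold lam
  have h1 : 0 < 2 - ε := by linarith
  have h2 : (4 - ε) / (ε * (2 - ε)) / 2 - 1 / (2 - ε) = (4 - 3 * ε) / (2 * ε * (2 - ε)) := by
    field_simp
    ring
  rw [h2]
  apply div_pos
  · linarith
  · positivity

lemma err_tendsto {f : ℝ → ℝ} (hf : Tendsto f atTop atTop) {a : ℝ} (ha : 0 < a) (K s : ℝ) :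
    Tendsto (fun R : ℝ => Real.exp K * Real.exp (-(a * (f R - 2 - s)))) atTop (𝓝 0) := by
  have h1 : Tendsto (fun R : ℝ => f R - 2 - s) atTop atTop := by
    have := tendsto_atTop_add_const_right atTop (-2 - s) hf
    refine this.congr fun R => ?_
    ring
  have h2 : Tendsto (fun R : ℝ => a * (f R - 2 - s)) atTop atTop := h1.const_mul_atTop ha
  have h3 := (Real.tendsto_exp_neg_atTop_nhds_zero.comp h2).const_mul (Real.exp K)
  rw [mul_zero] at h3
  exact h3

end EXI1aux

open EXI1aux in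
/-- EXI1: for given data, `ε` and small error, existence of a setup with a cut. -/
theorem EXI1 (hAFD : Stmt_AFD) (hMOD : Stmt_MOD) (hMODM : Stmt_MODM) (hLOC : Stmt_LOC)
    (hLOCU : Stmt_LOCU) (hP : Stmt_P) (hABS : Stmt_ABS) (hDEFE : Stmt_DEFE)
    (_hSETW : Stmt_SETW) : Stmt_EXI1 := by
  intro g h hTE hDE hPS
  obtain ⟨C₁, hC₁, hD1, -, -, hE2⟩ := hAFD g h hTE
  obtain ⟨Cm, lm, hCm, hlm, hmod⟩ := hMOD g h hTE hDE hPS
  obtain ⟨C, hC⟩ : ∃ C, C = max C₁ Cm := ⟨_, rfl⟩
  have hCC₁ : C₁ ≤ C := by rw [hC]; exact le_max_left _ _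
  have hCCm : Cm ≤ C := by rw [hC]; exact le_max_right _ _
  have hC0 : 0 < C := lt_of_lt_of_le hC₁ hCC₁
  obtain ⟨ρ, r, hρ0, hρ1, hr1, hU⟩ := hLOCU C hC0
  refine ⟨C, ρ, r, hC0, hρ0, hρ1, hr1, fun ε hε hε2 => ?_⟩
  obtain ⟨c, C₂, γ, κ, lL, hc0, hc1, hC₂, hγ, hκ0, hκ1, hlL, hloc⟩ := hLOC ε C hε hε2 hC0
  obtain ⟨RU, hRU⟩ := hU ε hε hε2
  obtain ⟨B, l₁, hB, hl₁, habs⟩ := hABS ⟨ε, C, c, C₂, γ, κ⟩
  refine ⟨⟨ε, C, c, C₂, γ, κ⟩, B, max 4 (max lm (max lL (max l₁ (r + 1)))), rfl, hB,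
    le_max_left _ _, ?_, fun l τ L hl hτ hL => ?_⟩
  · exact lt_of_lt_of_le (by linarith : r < r + 1)
      ((le_max_right l₁ (r + 1)).trans ((le_max_right lL _).trans
        ((le_max_right lm _).trans (le_max_right 4 _))))
  have hl4 : 4 ≤ l := (le_max_left _ _).trans hl
  have hl' := (le_max_right _ _).trans hl
  have hllm : lm ≤ l := (le_max_left _ _).trans hl'
  have hl'' := (le_max_right _ _).trans hl'
  have hllL : lL ≤ l := (le_max_left _ _).trans hl''
  have hl''' := (le_max_right _ _).trans hl''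
  have hll₁ : l₁ ≤ l := (le_max_left _ _).trans hl'''
  have hl0 : 0 < l := by linarith
  obtain ⟨RL, hRL16, hRL⟩ := hloc l hllL
  obtain ⟨B', hB', hdef⟩ := hDEFE ⟨ε, C, c, C₂, γ, κ⟩ B g l
  -- the small number for the defect
  obtain ⟨t, ht⟩ : ∃ t, t = min τ 1 := ⟨_, rfl⟩
  have ht0 : 0 < t := by rw [ht]; exact lt_min hτ one_pos
  have htτ : t ≤ τ := by rw [ht]; exact min_le_left _ _
  have ht1 : t ≤ 1 := by rw [ht]; exact min_le_right _ _
  have hq1 : 1 ≤ (1 + ε) / ε := by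
    rw [le_div_iff₀ hε]
    linarith
  have hτ'0 : 0 < (t / B') ^ ((1 + ε) / ε) := Real.rpow_pos_of_pos (div_pos ht0 hB') _
  -- the choice of `R`
  have hsM := sME_tendsto (ε := ε) (γ := γ) (by linarith)
  have hlam := lam_pos hε hε2
  have e8 := (err_tendsto hsM hlam (s2E ε γ l / (2 - ε)) (s2E ε γ l)).eventually_le_const ht0
  have e6 := hsM.eventually_gt_atTop (s2E ε γ l + L + 1)
  have e7 := hsM.eventually_ge_atTop (s2E ε γ l + 1 + 2 * γ + 2)
  obtain ⟨R, h1, h2, h3, h4, h5, h6, h7, h8⟩ := ((eventually_ge_atTop RL).and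
    ((eventually_ge_atTop RU).and ((eventually_ge_atTop (kE ε γ ^ 4 * l)).and
    ((eventually_ge_atTop (2 * l / κ)).and ((eventually_gt_atTop (1 / ρ)).and
    (e6.and (e7.and e8))))))).exists
  have hR16 : 16 * l ≤ R := hRL16.trans h1
  have hR0 : 0 < R := by linarith
  have hR64 : 64 ≤ R := by linarith
  obtain ⟨g', h', e, hM, hτ'⟩ := hmod l R hllm (by linarith) (κ / l) ((1 + ε) / ε)
    ((t / B') ^ ((1 + ε) / ε)) (div_pos hκ0 hl0) hq1 hτ'0
  have hM' := hMODM g h Cm C l R g' h' e hl0 hR0 hCCm hM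
  have hη0 : 0 < R ^ (-pe ε - 1) := Real.rpow_pos_of_pos hR0 _
  obtain ⟨u, G, M, hS⟩ := hP ε (1 / R) R (R ^ (-pe ε - 1)) g' h' hε (by linarith)
    (by positivity) (by
      rw [mul_one_div, div_le_iff₀ hR0]
      nlinarith) hη0 hM'.metric hM'.tensor (by
      intro x hx
      exact ⟨hM'.flat x (by linarith), hM'.supp x (by linarith)⟩)
  have hbar : ∀ x : E3, 1 / (8 * R) ≤ ‖x‖ → |barB ε g' h' x - bE ε ‖x‖| ≤ C / (1 + ‖x‖ ^ 2) :=
    hM'.barrier ε hε (by linarith)
  have hL' : Located ε c C₂ γ κ l R u :=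
    hRL R h1 _ g' h' u G M hη0 le_rfl hM'.metric hbar hS
  have hfin := hRU R h2 _ g' h' u G M hη0 le_rfl hM'.metric hbar hS
  have hSet : Setup ⟨ε, C, c, C₂, γ, κ⟩
      ⟨l, R, R ^ (-pe ε - 1), g, h, g', h', e, u, G, M⟩ :=
    { eps_pos := hε
      eps_le := hε2
      C_pos := hC0
      c_pos := hc0
      c_le := hc1
      C2_pos := hC₂
      gam_pos := hγ
      kap_pos := hκ0
      kap_le := hκ1
      l_ge := hl4
      R_ge := h3
      R_ge' := h4
      metric0 := hTE.metric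
      tensor0 := hTE.tensor
      hdecay := by
        intro x hx i j
        refine ((hD1 x hx i j).2.2.2.1).trans ?_
        exact div_le_div_of_nonneg_right hCC₁ (by positivity)
      ell2 := by
        intro y hy v
        obtain ⟨a1, a2⟩ := hE2 y hy v
        have h0 : 0 ≤ ∑ i, v i ^ 2 := Finset.sum_nonneg fun i _ => sq_nonneg _
        have hev : 0 ≤ ev (inverted g y) v v := by
          by_contra hcon
          push Not at hcon
          have : C₁ * ev (inverted g y) v v < 0 := mul_neg_of_pos_of_neg hC₁ hcon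
          linarith
        exact ⟨a1.trans (mul_le_mul_of_nonneg_right hCC₁ hev),
          a2.trans (mul_le_mul_of_nonneg_right hCC₁ h0)⟩
      modified := hM'
      sol := hS
      located := hL' }
  have hA : AbsOf ⟨ε, C, c, C₂, γ, κ⟩ ⟨l, R, R ^ (-pe ε - 1), g, h, g', h', e, u, G, M⟩ B :=
    habs _ hSet hll₁
  obtain ⟨-, hN0, hN⟩ := hdef _ hSet hA rfl rfl
  have hNt : Dat.Nd ⟨l, R, R ^ (-pe ε - 1), g, h, g', h', e, u, G, M⟩ ⟨ε, C, c, C₂, γ, κ⟩ ≤ t := by
    refine hN.trans ?_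
    have hi0 : 0 ≤ ∫ x in cAnn (κ / l) l, e x ^ ((1 + ε) / ε) :=
      integral_nonneg fun x => Real.rpow_nonneg (hM'.defect_nonneg x) _
    have h9 : (∫ x in cAnn (κ / l) l, e x ^ ((1 + ε) / ε)) ^ (ε / (1 + ε)) ≤
        ((t / B') ^ ((1 + ε) / ε)) ^ (ε / (1 + ε)) :=
      Real.rpow_le_rpow hi0 hτ' (by positivity)
    have h10 : ((t / B') ^ ((1 + ε) / ε)) ^ (ε / (1 + ε)) = t / B' := by
      rw [← Real.rpow_mul (by positivity)]
      have : (1 + ε) / ε * (ε / (1 + ε)) = 1 := by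
        have : 1 + ε ≠ 0 := by positivity
        field_simp
      rw [this, Real.rpow_one]
    rw [h10] at h9
    calc B' * (∫ x in cAnn (κ / l) l, e x ^ ((1 + ε) / ε)) ^ (ε / (1 + ε))
        ≤ B' * (t / B') := mul_le_mul_of_nonneg_left h9 hB'.le
      _ = t := by field_simp
  have her : Dat.er ⟨l, R, R ^ (-pe ε - 1), g, h, g', h', e, u, G, M⟩ ⟨ε, C, c, C₂, γ, κ⟩
      (sME ε γ R - 2) ≤ t := h8
  refine ⟨⟨l, R, R ^ (-pe ε - 1), g, h, g', h', e, u, G, M⟩, sME ε γ R - 2, rfl, rfl, rfl, hSet,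
    hA, ⟨?_, ?_, her.trans ht1, hNt.trans ht1⟩, hNt.trans htτ, her.trans htτ, h6, ?_, hfin⟩
  · show s2E ε γ l + 1 + 2 * γ ≤ sME ε γ R - 2
    linarith
  · show sME ε γ R - 2 + 1 < sME ε γ R
    linarith
  · show 1 / R < ρ
    rw [div_lt_iff₀ hR0]
    rw [div_lt_iff₀ hρ0] at h5
    linarith

end Pool.Agent.PFlow


end
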