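import Mathlib
import Pool.Agent.PFlow.StmtsE3
import Pool.Agent.PFlow.StmtsM
import Pool.Agent.PenroseM.C01
import Pool.Agent.PenroseM.C03

/-! Parts: PFlow.K.KLIMJ, PFlow.E.ABSX, PFlow.E.RADN, PFlow.E.LIMK -/

section

/-!
# KLIMJ: convergence of the second order operator at jets with `p ≠ 0`
-/

open MeasureTheory Filter Topology
open scoped ContDiff

namespace Pool.Agent.PFlow

open Pool.Agent.PenroseSph

namespace KLIMJ

lemma pd_contDiffAt {f : E3 → ℝ} {x : E3} (hf : ContDiffAt ℝ 2 f x) (i : Fin 3) :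
    ContDiffAt ℝ 1 (pd i f) x := by
  have h1 : ContDiffAt ℝ 1 (fderiv ℝ f) x := hf.fderiv_right (by norm_num)
  exact h1.clm_apply contDiffAt_const

lemma pd_pd_continuousAt {f : E3 → ℝ} {x : E3} (hf : ContDiffAt ℝ 2 f x) (i j : Fin 3) :
    ContinuousAt (pd i (pd j f)) x := by
  have h1 : ContDiffAt ℝ 0 (fderiv ℝ (pd j f)) x :=
    (pd_contDiffAt hf j).fderiv_right (by norm_num)
  exact (h1.clm_apply contDiffAt_const).continuousAt

section Cont

variable {Z : Type*} [TopologicalSpace Z] {z₀ : Z}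

lemma sum_at {F : Fin 3 → Z → ℝ} (h : ∀ i, ContinuousAt (F i) z₀) :
    ContinuousAt (fun z => ∑ i, F i z) z₀ := tendsto_finsetSum _ fun i _ => h i

lemma ev_at {B : Z → Bil} {v w : Z → Cov} (hB : ∀ i j, ContinuousAt (fun z => B z i j) z₀)
    (hv : ∀ i, ContinuousAt (fun z => v z i) z₀) (hw : ∀ i, ContinuousAt (fun z => w z i) z₀) :
    ContinuousAt (fun z => ev (B z) (v z) (w z)) z₀ := by
  unfold ev
  exact sum_at fun i => sum_at fun j => ((hB i j).mul (hv i)).mul (hw j)

variable {g : TensorField} {X : Z → E3}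

lemma raise_at {p : Z → Cov} (hG : ∀ i j, ContinuousAt (fun z => (g (X z))⁻¹ i j) z₀)
    (hp : ∀ i, ContinuousAt (fun z => p z i) z₀) (i : Fin 3) :
    ContinuousAt (fun z => raise g (X z) (p z) i) z₀ := by
  unfold raise
  exact sum_at fun j => (hG i j).mul (hp j)

lemma trg_at {B : Z → Bil} (hG : ∀ i j, ContinuousAt (fun z => (g (X z))⁻¹ i j) z₀)
    (hB : ∀ i j, ContinuousAt (fun z => B z i j) z₀) :
    ContinuousAt (fun z => trg g (X z) (B z)) z₀ := by
  unfold trg
  exact sum_at fun i => sum_at fun j => (hG i j).mul (hB i j)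

lemma cHess_at {p : Z → Cov} {M : Z → Bil}
    (hC : ∀ k i j, ContinuousAt (fun z => christoffel g k i j (X z)) z₀)
    (hp : ∀ i, ContinuousAt (fun z => p z i) z₀)
    (hM : ∀ i j, ContinuousAt (fun z => M z i j) z₀) (i j : Fin 3) :
    ContinuousAt (fun z => cHess g (X z) (p z) (M z) i j) z₀ := by
  unfold cHess
  simp only [Matrix.of_apply]
  exact (hM i j).sub (sum_at fun k => (hC k i j).mul (hp k))

lemma bnn_at {p : Z → Cov} {B : Z → Bil}
    (hG : ∀ i j, ContinuousAt (fun z => (g (X z))⁻¹ i j) z₀)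
    (hp : ∀ i, ContinuousAt (fun z => p z i) z₀)
    (hB : ∀ i j, ContinuousAt (fun z => B z i j) z₀) (hl : len g (X z₀) (p z₀) ≠ 0) :
    ContinuousAt (fun z => bnn g (X z) (p z) (B z)) z₀ := by
  have h1 : ContinuousAt (fun z => len g (X z) (p z)) z₀ := by
    unfold len
    exact (ev_at hG hp hp).sqrt
  unfold bnn
  have h2 : ∀ i, ContinuousAt (fun z => nrm g (X z) (p z) i) z₀ := by
    intro i
    unfold nrm
    exact (raise_at hG hp i).div h1 hl
  exact ev_at hB h2 h2

end Cont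

/-- The identity at `δ = κ = 0`. -/
lemma value (h1 : KTN) (ε : ℝ) (g h : TensorField) (f : E3 → ℝ) (x : E3)
    (hg : (g x).PosDef) (hp : grad f x ≠ 0) :
    opL ε 0 0 g x (grad f x) (hess2 f x) + cB ε 0 g h x (vec (grad f x)) -
      volDen g x * len g x (grad f x) ^ (ε - 1) * opN ε g h f x = 0 := by
  obtain ⟨-, hs, hlen, -, -, -, -, hb⟩ := h1 g x hg (grad f x)
  have hs0 := hs hp
  have hl : len g x (grad f x) = Real.sqrt (lsq g x (grad f x)) := rfl
  have e1 : len g x (grad f x) ^ (ε - 1) = lsq g x (grad f x) ^ ((ε - 1) / 2) := by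
    rw [hl, Real.sqrt_eq_rpow, ← Real.rpow_mul hs0.le]
    congr 1
    ring
  have e2 : len g x (grad f x) = lsq g x (grad f x) ^ ((1 : ℝ) / 2) := by
    rw [hl, Real.sqrt_eq_rpow]
  have e3 : lsq g x (grad f x) ^ ((ε - 1) / 2) =
      lsq g x (grad f x) ^ ((ε - 3) / 2) * lsq g x (grad f x) := by
    rw [← Real.rpow_add_one hs0.ne']
    congr 1
    ring
  have e4 : lsq g x (grad f x) ^ ((ε - 1) / 2) * lsq g x (grad f x) ^ ((1 : ℝ) / 2) =
      lsq g x (grad f x) ^ ((ε - 2) / 2) * lsq g x (grad f x) := by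
    rw [← Real.rpow_add hs0, ← Real.rpow_add_one hs0.ne']
    congr 1
    ring
  unfold opL cB opN beps regA regD
  simp only
  rw [hb hp, hb hp, e1, e2]
  have hz : (0 : ℝ) ^ 2 = 0 := by norm_num
  rw [hz, add_zero, add_zero]
  generalize ev (cHess g x (grad f x) (hess2 f x)) (raise g x (grad f x))
    (raise g x (grad f x)) = Q
  generalize trg g x (cHess g x (grad f x) (hess2 f x)) = T
  generalize trg g x (h x) = th
  generalize ev (h x) (raise g x (grad f x)) (raise g x (grad f x)) = q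
  generalize volDen g x = V at *
  have hsne := hs0.ne'
  generalize lsq g x (grad f x) = s at *
  have f1 : s ^ ((ε - 1) / 2) * (T - (1 - ε) * (Q / s)) =
      s ^ ((ε - 1) / 2) * T + (ε - 1) * s ^ ((ε - 3) / 2) * Q := by
    have : s ^ ((ε - 1) / 2) * (Q / s) = s ^ ((ε - 3) / 2) * Q := by
      rw [e3]
      field_simp
    linear_combination (ε - 1) * this
  have f2 : s ^ ((ε - 1) / 2) * (s ^ ((1 : ℝ) / 2) * (th - (1 - ε) * (q / s))) =
      s ^ ((ε - 2) / 2) * (s * th - (1 - ε) * q) := by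
    rw [← mul_assoc, e4]
    field_simp
  linear_combination (-V) * f1 - V * f2

end KLIMJ

open KLIMJ in
theorem KLIMJ_thm (h1 : KTN) (h2 : KSM) : KLIMJ := by
  intro ε g h r hε hε1 hG K f hK hf hgrad η hη
  obtain ⟨s1, s2, s3⟩ := h2 g h r hG
  have hh : ∀ i j, Continuous (fun x => h x i j) := fun i j =>
    (contDiffOn_univ.1 (hG.ten.smooth i j)).continuous
  have hev : ∀ y ∈ K, ∀ᶠ z : (ℝ × ℝ) × E3 in 𝓝 (((0 : ℝ), (0 : ℝ)), y),
      |opL ε z.1.1 z.1.2 g z.2 (grad f z.2) (hess2 f z.2) +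
        cB ε z.1.1 g h z.2 (vec (grad f z.2)) -
        volDen g z.2 * len g z.2 (grad f z.2) ^ (ε - 1) * opN ε g h f z.2| ≤ η := by
    intro y hy
    have hpos := hG.met.posDef y (Set.mem_univ y)
    have hs : 0 < lsq g y (grad f y) := (h1 g y hpos (grad f y)).2.1 (hgrad y hy)
    have hlen : len g y (grad f y) ≠ 0 := (Real.sqrt_pos.mpr hs).ne'
    have cG : ∀ i j, ContinuousAt (fun z : (ℝ × ℝ) × E3 => (g z.2)⁻¹ i j) ((0, 0), y) :=
      fun i j => ((s1 i j).continuous.comp continuous_snd).continuousAt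
    have cC : ∀ k i j, ContinuousAt (fun z : (ℝ × ℝ) × E3 => christoffel g k i j z.2)
        ((0, 0), y) := fun k i j => ((s3 k i j).continuous.comp continuous_snd).continuousAt
    have cV : ContinuousAt (fun z : (ℝ × ℝ) × E3 => volDen g z.2) ((0, 0), y) :=
      (s2.continuous.comp continuous_snd).continuousAt
    have ch : ∀ i j, ContinuousAt (fun z : (ℝ × ℝ) × E3 => h z.2 i j) ((0, 0), y) :=
      fun i j => ((hh i j).comp continuous_snd).continuousAt
    have cp : ∀ i, ContinuousAt (fun z : (ℝ × ℝ) × E3 => grad f z.2 i) ((0, 0), y) := by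
      intro i
      exact ContinuousAt.comp (g := pd i f) (f := Prod.snd)
        (x := (((0 : ℝ), (0 : ℝ)), y)) (pd_contDiffAt (hf y hy) i).continuousAt continuousAt_snd
    have cM : ∀ i j, ContinuousAt (fun z : (ℝ × ℝ) × E3 => hess2 f z.2 i j) ((0, 0), y) := by
      intro i j
      exact ContinuousAt.comp (g := pd i (pd j f)) (f := Prod.snd)
        (x := (((0 : ℝ), (0 : ℝ)), y)) (pd_pd_continuousAt (hf y hy) i j) continuousAt_snd
    have cd : ContinuousAt (fun z : (ℝ × ℝ) × E3 => z.1.1) ((0, 0), y) :=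
      (continuous_fst.comp continuous_fst).continuousAt
    have ck : ContinuousAt (fun z : (ℝ × ℝ) × E3 => z.1.2) ((0, 0), y) :=
      (continuous_snd.comp continuous_fst).continuousAt
    have cs : ContinuousAt (fun z : (ℝ × ℝ) × E3 => lsq g z.2 (grad f z.2)) ((0, 0), y) := by
      unfold lsq
      exact ev_at cG cp cp
    have cH := cHess_at cC cp cM
    have cr := raise_at cG cp
    have cT := trg_at cG cH
    have cth := trg_at cG ch
    have cQ := ev_at cH cr cr
    have cq := ev_at ch cr cr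
    have csd : ContinuousAt (fun z : (ℝ × ℝ) × E3 => lsq g z.2 (grad f z.2) + z.1.1 ^ 2)
        ((0, 0), y) := cs.add (cd.pow 2)
    have hne : lsq g y (grad f y) + (0 : ℝ) ^ 2 ≠ 0 := by
      have : lsq g y (grad f y) + (0 : ℝ) ^ 2 = lsq g y (grad f y) := by ring
      rw [this]
      exact hs.ne'
    have cpow : ∀ e : ℝ, ContinuousAt
        (fun z : (ℝ × ℝ) × E3 => (lsq g z.2 (grad f z.2) + z.1.1 ^ 2) ^ e) ((0, 0), y) :=
      fun e => csd.rpow_const (Or.inl hne)
    have cL : ContinuousAt (fun z : (ℝ × ℝ) × E3 =>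
        opL ε z.1.1 z.1.2 g z.2 (grad f z.2) (hess2 f z.2)) ((0, 0), y) := by
      unfold opL regA regD
      exact cV.mul ((((cpow _).add ck).mul cT).add ((continuousAt_const.mul (cpow _)).mul cQ))
    have cBc : ContinuousAt (fun z : (ℝ × ℝ) × E3 =>
        cB ε z.1.1 g h z.2 (vec (grad f z.2))) ((0, 0), y) := by
      unfold cB
      exact (cV.mul (cpow _)).mul ((cs.mul cth).sub (continuousAt_const.mul cq))
    have clen : ContinuousAt (fun z : (ℝ × ℝ) × E3 => len g z.2 (grad f z.2)) ((0, 0), y) := by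
      unfold len
      exact (ev_at cG cp cp).sqrt
    have cN : ContinuousAt (fun z : (ℝ × ℝ) × E3 => opN ε g h f z.2) ((0, 0), y) := by
      unfold opN beps
      exact (cT.sub (continuousAt_const.mul (bnn_at cG cp cH hlen))).add
        (clen.mul (cth.sub (continuousAt_const.mul (bnn_at cG cp ch hlen))))
    have cD : ContinuousAt (fun z : (ℝ × ℝ) × E3 =>
        |opL ε z.1.1 z.1.2 g z.2 (grad f z.2) (hess2 f z.2) +
        cB ε z.1.1 g h z.2 (vec (grad f z.2)) -
        volDen g z.2 * len g z.2 (grad f z.2) ^ (ε - 1) * opN ε g h f z.2|) ((0, 0), y) :=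
      ((cL.add cBc).sub ((cV.mul (clen.rpow_const (Or.inl hlen))).mul cN)).abs
    have h0 : |opL ε 0 0 g y (grad f y) (hess2 f y) + cB ε 0 g h y (vec (grad f y)) -
        volDen g y * len g y (grad f y) ^ (ε - 1) * opN ε g h f y| < η := by
      rw [value h1 ε g h f y hpos (hgrad y hy), abs_zero]
      exact hη
    have := cD.eventually (gt_mem_nhds h0)
    exact this.mono fun z hz => le_of_lt hz
  have hu := hK.eventually_forall_of_forall_eventually (x₀ := ((0 : ℝ), (0 : ℝ)))
    (P := fun (z : ℝ × ℝ) (y : E3) => |opL ε z.1 z.2 g y (grad f y) (hess2 f y) +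
        cB ε z.1 g h y (vec (grad f y)) -
        volDen g y * len g y (grad f y) ^ (ε - 1) * opN ε g h f y| ≤ η) hev
  obtain ⟨ρ, hρ, hball⟩ := Metric.eventually_nhds_iff.mp hu
  refine ⟨ρ / 2, by positivity, fun δ κ hδ hδ' hκ hκ' x hx => ?_⟩
  have hd : dist (δ, κ) ((0 : ℝ), (0 : ℝ)) < ρ := by
    rw [Prod.dist_eq]
    simp only [dist_zero_right, Real.norm_eq_abs, abs_of_pos hδ, abs_of_pos hκ]
    exact max_lt (by linarith) (by linarith)
  exact hball hd x hx

end Pool.Agent.PFlow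


end

section

set_option autoImplicit false

/-!
# ABSX: the identity of the flux density in the flat region
-/

open MeasureTheory Filter Topology
open scoped ContDiff ENNReal

namespace Pool.Agent.PFlow

open Pool.Agent.PenroseSph

namespace ABSXaux

lemma integrableOn_vsz4 {G : E3 → Cov} {K : Set E3}
    (h : ∀ i, MemLp (fun x => G x i) 4 (volume.restrict K)) :
    IntegrableOn (fun x => vsz (G x) ^ 4) K := by
  have hm : ∀ i, AEStronglyMeasurable (fun x => G x i) (volume.restrict K) := fun i => (h i).1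
  have h4 : ∀ i, Integrable (fun x => ‖G x i‖ ^ 4) (volume.restrict K) := fun i =>
    (h i).integrable_norm_pow (p := 4) (by norm_num)
  have hsum : Integrable (fun x => 3 * ∑ i, ‖G x i‖ ^ 4) (volume.restrict K) :=
    (integrable_finsetSum _ fun i _ => h4 i).const_mul 3
  have e : ∀ x, vsz (G x) ^ 4 = (∑ i, G x i ^ 2) ^ 2 := by
    intro x
    unfold vsz
    have h0 : 0 ≤ ∑ i, G x i ^ 2 := Finset.sum_nonneg fun i _ => sq_nonneg _
    calc Real.sqrt (∑ i, G x i ^ 2) ^ 4 = (Real.sqrt (∑ i, G x i ^ 2) ^ 2) ^ 2 := by ring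
      _ = _ := by rw [Real.sq_sqrt h0]
  unfold IntegrableOn
  simp only [e]
  refine hsum.mono' ?_ (ae_of_all _ fun x => ?_)
  · have : AEStronglyMeasurable (fun x => ∑ i, G x i ^ 2) (volume.restrict K) :=
      Finset.aestronglyMeasurable_fun_sum _ fun i _ => (hm i).pow 2
    exact this.pow 2
  · rw [Real.norm_eq_abs, abs_of_nonneg (sq_nonneg _)]
    simp only [Fin.sum_univ_three, Real.norm_eq_abs]
    have h0 : |G x 0| ^ 4 = (G x 0 ^ 2) ^ 2 := by rw [← sq_abs (G x 0)]; ring
    have h1 : |G x 1| ^ 4 = (G x 1 ^ 2) ^ 2 := by rw [← sq_abs (G x 1)]; ring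
    have h2 : |G x 2| ^ 4 = (G x 2 ^ 2) ^ 2 := by rw [← sq_abs (G x 2)]; ring
    rw [h0, h1, h2]
    nlinarith [sq_nonneg (G x 0 ^ 2 - G x 1 ^ 2), sq_nonneg (G x 0 ^ 2 - G x 2 ^ 2),
      sq_nonneg (G x 1 ^ 2 - G x 2 ^ 2)]

lemma exists_Icc {ψ : ℝ → ℝ} {c d : ℝ} (hcd : c < d) (hK : IsCompact (tsupport ψ))
    (h : tsupport ψ ⊆ Set.Ioo c d) :
    ∃ c' d' : ℝ, c < c' ∧ d' < d ∧ ∀ s ∈ tsupport ψ, c' ≤ s ∧ s ≤ d' := by
  rcases (tsupport ψ).eq_empty_or_nonempty with he | hne
  · refine ⟨c + (d - c) / 3, d - (d - c) / 3, by linarith, by linarith, ?_⟩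
    intro s hs
    rw [he] at hs
    exact absurd hs (Set.notMem_empty s)
  · obtain ⟨m, hm, hm'⟩ := hK.exists_isLeast hne
    obtain ⟨M, hM, hM'⟩ := hK.exists_isGreatest hne
    exact ⟨m, M, (h hm).1, (h hM).2, fun s hs => ⟨hm' hs, hM' hs⟩⟩

lemma trg_zero (g : TensorField) (x : E3) : trg g x (0 : Bil) = 0 := by
  simp [trg]

lemma bnn_zero (g : TensorField) (x : E3) (p : Cov) : bnn g x p (0 : Bil) = 0 := by
  simp [bnn, ev]

lemma beps_zero (ε : ℝ) (g : TensorField) (x : E3) (p : Cov) : beps ε g x p (0 : Bil) = 0 := by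
  simp [beps, trg_zero, bnn_zero]

lemma btan_zero (g : TensorField) (x : E3) (p : Cov) : btan g x p (0 : Bil) = 0 := by
  simp [btan, trg_zero, bnn_zero]

lemma one_lt_R {P : Par} {D : Dat} (hS : Setup P D) : 1 < D.R := by
  have h1 : (1 : ℝ) ≤ kE P.eps P.gam := by
    unfold kE
    have h2 : 0 ≤ (1 + 2 * P.gam) / (2 - P.eps) := by
      have := hS.gam_pos
      have := hS.eps_le
      apply div_nonneg <;> linarith
    have h3 := Real.one_le_exp h2
    linarith
  have h2 : (1 : ℝ) ≤ kE P.eps P.gam ^ 4 := one_le_pow₀ h1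
  have h3 := hS.l_ge
  have h4 := hS.R_ge
  nlinarith

end ABSXaux

open ABSXaux

theorem ABSX (hSETW : Stmt_SETW) (hXID : Stmt_XID) (hL4 : Stmt_L4) : Stmt_ABSX := by
  intro P D hS ψ hψ hψc hψs
  obtain ⟨hg, hh, -, hH2, hEq, -, -, -, -, -, hfar, -, -, -, hcomp, hsb0, hsb1, -, hs2, hsM, -, -⟩ :=
    hSETW P D hS
  have hR := one_lt_R hS
  have hR0 : 0 < D.R := by linarith
  have hgam := hS.gam_pos
  have hOmo : IsOpen D.Om := by
    unfold Dat.Om Ann
    exact (isOpen_lt continuous_const continuous_norm).inter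
      (isOpen_lt continuous_norm continuous_const)
  have hOm : MeasurableSet D.Om := hOmo.measurableSet
  have hlt : D.s2 P < D.sM P := by linarith
  obtain ⟨s, s', hs, hs', hss⟩ := exists_Icc hlt hψc hψs
  obtain ⟨K, hK, hKO, hKs⟩ := hcomp s s' (by linarith) hs'
  have hL := (hL4 D.Om (D.w P) (D.Gw P) (D.Mw P) hOmo hH2).memG
  have key := hXID P.eps (1 / D.R) D.R D.g' D.h' (D.w P) (D.Gw P) (D.Mw P) hS.eps_pos
    (by linarith [hS.eps_le]) (by positivity)
    (lt_of_le_of_lt (by rw [div_le_one hR0]; exact hR.le) hR) hg hh hH2 hEq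
    (fun K hK hKO => integrableOn_vsz4 (hL K hK hKO)) ψ K hψ hK hKO
    (fun x hx hw => hKs ⟨hx, hss _ hw⟩)
  have hzero : ∫ x in Ann (1 / D.R) D.R, ψ (D.w P x) * len D.g' x (D.Gw P x) ^ 2
      * (2 / (2 - P.eps) * beps P.eps D.g' x (D.Gw P x) (D.h' x)
        - btan D.g' x (D.Gw P x) (D.h' x)) * volDen D.g' x = 0 := by
    apply setIntegral_eq_zero_of_forall_eq_zero
    intro x hx
    by_cases h0 : ψ (D.w P x) = 0
    · rw [h0]; ring
    · have h1 : D.w P x ∈ tsupport ψ := subset_tsupport ψ h0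
      have h2 := hfar x hx (hψs h1).1.le
      have h3 : D.h' x = 0 := hS.modified.supp x (by linarith [hS.l_ge])
      rw [h3, beps_zero, btan_zero]
      ring
  rw [hzero, add_zero] at key
  exact key

end Pool.Agent.PFlow


end

section

/-!
# RADN: the operator on radial functions
-/

open MeasureTheory Filter Topology
open scoped ContDiff

namespace Pool.Agent.PFlow

open Pool.Agent.PenroseSph

namespace RADN

/-! ### Algebra -/

theorem ev_smul2 (B : Bil) (c : ℝ) (v : Cov) :
    ev B (fun i => c * v i) (fun i => c * v i) = c ^ 2 * ev B v v := by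
  unfold ev
  rw [Finset.mul_sum]
  refine Finset.sum_congr rfl fun i _ => ?_
  rw [Finset.mul_sum]
  refine Finset.sum_congr rfl fun j _ => ?_
  ring

theorem len_smul (g : TensorField) (x : E3) (c : ℝ) (p : Cov) :
    len g x (fun i => c * p i) = |c| * len g x p := by
  unfold len
  rw [ev_smul2, Real.sqrt_mul (sq_nonneg c), Real.sqrt_sq_eq_abs]

theorem raise_smul (g : TensorField) (x : E3) (c : ℝ) (p : Cov) (i : Fin 3) :
    raise g x (fun i => c * p i) i = c * raise g x p i := by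
  unfold raise
  rw [Finset.mul_sum]
  refine Finset.sum_congr rfl fun j _ => ?_
  ring

theorem bnn_smul (g : TensorField) (x : E3) {c : ℝ} (hc : c < 0) (p : Cov) (B : Bil) :
    bnn g x (fun i => c * p i) B = bnn g x p B := by
  have h1 : nrm g x (fun i => c * p i) = fun i => (-1) * nrm g x p i := by
    funext i
    unfold nrm
    rw [raise_smul, len_smul, abs_of_neg hc]
    by_cases hl : len g x p = 0
    · rw [hl]
      simp
    · have hc' : c ≠ 0 := hc.ne
      field_simp
  unfold bnn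
  rw [h1, ev_smul2]
  norm_num

theorem beps_smul (ε : ℝ) (g : TensorField) (x : E3) {c : ℝ} (hc : c < 0) (p : Cov) (B : Bil) :
    beps ε g x (fun i => c * p i) B = beps ε g x p B := by
  unfold beps
  rw [bnn_smul g x hc]

theorem trg_lin (g : TensorField) (x : E3) (a b : ℝ) (H K : Bil) :
    trg g x (Matrix.of fun i j => a * H i j + b * K i j) = a * trg g x H + b * trg g x K := by
  unfold trg
  simp only [Finset.mul_sum]
  rw [← Finset.sum_add_distrib]
  refine Finset.sum_congr rfl fun i _ => ?_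
  rw [← Finset.sum_add_distrib]
  refine Finset.sum_congr rfl fun j _ => ?_
  rw [Matrix.of_apply]
  ring

theorem ev_lin (a b : ℝ) (H K : Bil) (v : Cov) :
    ev (Matrix.of fun i j => a * H i j + b * K i j) v v = a * ev H v v + b * ev K v v := by
  unfold ev
  simp only [Finset.mul_sum]
  rw [← Finset.sum_add_distrib]
  refine Finset.sum_congr rfl fun i _ => ?_
  rw [← Finset.sum_add_distrib]
  refine Finset.sum_congr rfl fun j _ => ?_
  rw [Matrix.of_apply]
  ring

theorem beps_lin (ε : ℝ) (g : TensorField) (x : E3) (p : Cov) (a b : ℝ) (H K : Bil) :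
    beps ε g x p (Matrix.of fun i j => a * H i j + b * K i j) =
      a * beps ε g x p H + b * beps ε g x p K := by
  unfold beps bnn
  rw [trg_lin, ev_lin]
  ring

theorem inv_posDef {g : TensorField} {x : E3} (hg : (g x).PosDef) : ((g x)⁻¹).PosDef := hg.inv

theorem ev_pos {B : Bil} (hB : B.PosDef) {p : Cov} (hp : p ≠ 0) : 0 < ev B p p := by
  have h := hB.dotProduct_mulVec_pos hp
  have e : ev B p p = star p ⬝ᵥ (B.mulVec p) := by
    unfold ev dotProduct Matrix.mulVec dotProduct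
    refine Finset.sum_congr rfl fun i _ => ?_
    rw [Finset.mul_sum]
    refine Finset.sum_congr rfl fun j _ => ?_
    simp
    ring
  rw [e]
  exact h

theorem len_pos {g : TensorField} {x : E3} (hg : (g x).PosDef) {p : Cov} (hp : p ≠ 0) :
    0 < len g x p := Real.sqrt_pos.mpr (ev_pos (inv_posDef hg) hp)

theorem beps_self (ε : ℝ) {g : TensorField} {x : E3} (hg : (g x).PosDef) {p : Cov} (hp : p ≠ 0) :
    beps ε g x p (Matrix.of fun i j => p i * p j) = ε * len g x p ^ 2 := by
  have hE := ev_pos (inv_posDef hg) hp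
  have hl := len_pos hg hp
  have h2 : len g x p ^ 2 = ev (g x)⁻¹ p p := by
    unfold len
    rw [Real.sq_sqrt hE.le]
  have h3 : trg g x (Matrix.of fun i j => p i * p j) = len g x p ^ 2 := by
    rw [h2]
    unfold trg ev
    refine Finset.sum_congr rfl fun i _ => Finset.sum_congr rfl fun j _ => ?_
    rw [Matrix.of_apply]
    ring
  have h4 : ∑ i, p i * nrm g x p i = len g x p := by
    have : ∑ i, p i * nrm g x p i = ev (g x)⁻¹ p p / len g x p := by
      unfold nrm raise ev
      rw [Finset.sum_div]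
      refine Finset.sum_congr rfl fun i _ => ?_
      rw [← mul_div_assoc, Finset.mul_sum]
      congr 1
      refine Finset.sum_congr rfl fun j _ => ?_
      ring
    rw [this, ← h2]
    field_simp
  have h5 : bnn g x p (Matrix.of fun i j => p i * p j) = len g x p ^ 2 := by
    unfold bnn ev
    rw [← h4, sq, Finset.sum_mul_sum]
    refine Finset.sum_congr rfl fun i _ => Finset.sum_congr rfl fun j _ => ?_
    rw [Matrix.of_apply]
    ring
  unfold beps
  rw [h3, h5]
  ring

/-! ### Calculus -/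

theorem pd_comp {F : ℝ → ℝ} {i : Fin 3} {y : E3} (hF : DifferentiableAt ℝ F ‖y‖) (hy : y ≠ 0) :
    pd i (fun z => F ‖z‖) y = deriv F ‖y‖ * pd i rad y := by
  have h1 : HasFDerivAt (rad : E3 → ℝ) (fderiv ℝ rad y) y := by
    have : DifferentiableAt ℝ (rad : E3 → ℝ) y :=
      ((contDiffAt_norm ℝ hy (n := 1)).differentiableAt (by norm_num))
    exact this.hasFDerivAt
  have h2 := hF.hasDerivAt.comp_hasFDerivAt y h1
  have h3 : fderiv ℝ (fun z : E3 => F ‖z‖) y = deriv F ‖y‖ • fderiv ℝ rad y := h2.fderiv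
  unfold pd
  rw [h3]
  rfl

theorem rad_smooth {y : E3} (hy : y ≠ 0) : ContDiffAt ℝ ∞ (rad : E3 → ℝ) y :=
  contDiffAt_norm ℝ hy

theorem pd_rad_diff {y : E3} (hy : y ≠ 0) (j : Fin 3) :
    DifferentiableAt ℝ (fun z => pd j rad z) y := by
  have h1 : ContDiffAt ℝ 1 (fderiv ℝ (rad : E3 → ℝ)) y :=
    ((rad_smooth hy).of_le (show (2 : WithTop ℕ∞) ≤ ∞ by
      exact WithTop.coe_le_coe.mpr le_top)).fderiv_right (m := 1) (by norm_num)
  have h2 : DifferentiableAt ℝ (fderiv ℝ (rad : E3 → ℝ)) y := h1.differentiableAt (by norm_num)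
  exact h2.clm_apply (differentiableAt_const _)

theorem grad_rad_ne {x : E3} (hx : x ≠ 0) : grad rad x ≠ 0 := by
  intro h
  have hd : DifferentiableAt ℝ (rad : E3 → ℝ) x := (rad_smooth hx).differentiableAt (by simp)
  have h1 : fderiv ℝ (rad : E3 → ℝ) x x = ‖x‖ := by
    exact DifferentiableAt.fderiv_norm_self hd
  have h2 : x = ∑ i, x i • EuclideanSpace.single i (1 : ℝ) := by
    ext j
    simp [Fin.sum_univ_three]
    fin_cases j <;> simp
  have h3 : fderiv ℝ (rad : E3 → ℝ) x x = 0 := by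
    have h10 : fderiv ℝ (rad : E3 → ℝ) x (∑ i, x i • EuclideanSpace.single i (1 : ℝ)) = 0 := by
      rw [map_sum]
      apply Finset.sum_eq_zero
      intro i _
      rw [map_smul]
      have h4 : grad rad x i = 0 := by rw [h]; rfl
      unfold grad pd at h4
      rw [h4, smul_zero]
    rwa [← h2] at h10
  rw [h3] at h1
  exact hx (norm_eq_zero.mp h1.symm)

theorem hess_comp {F : ℝ → ℝ} {x : E3} (hF : ContDiffAt ℝ 2 F ‖x‖) (hx : x ≠ 0) (i j : Fin 3) :
    pd i (pd j (fun z => F ‖z‖)) x =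
      deriv F ‖x‖ * pd i (pd j rad) x + deriv (deriv F) ‖x‖ * (pd i rad x * pd j rad x) := by
  have hev : ∀ᶠ y in 𝓝 x, pd j (fun z => F ‖z‖) y = deriv F ‖y‖ * pd j rad y := by
    have h1 : ∀ᶠ s in 𝓝 ‖x‖, ContDiffAt ℝ 2 F s := hF.eventually (by simp)
    have h2 : ∀ᶠ y in 𝓝 x, ContDiffAt ℝ 2 F ‖y‖ := continuous_norm.continuousAt.eventually h1
    have h3 : ∀ᶠ y in 𝓝 x, y ≠ 0 := isOpen_ne.mem_nhds hx
    filter_upwards [h2, h3] with y hy1 hy2
    exact pd_comp (hy1.differentiableAt (by norm_num)) hy2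
  have hdF : DifferentiableAt ℝ (deriv F) ‖x‖ := by
    have h1 : ContDiffAt ℝ 1 (deriv F) ‖x‖ := by
      have h2 : ContDiffAt ℝ 1 (fderiv ℝ F) ‖x‖ := hF.fderiv_right (m := 1) (by norm_num)
      have h3 : (deriv F) = fun s => fderiv ℝ F s 1 := by
        funext s
        exact (fderiv_apply_one_eq_deriv).symm
      rw [h3]
      exact h2.clm_apply contDiffAt_const
    exact h1.differentiableAt (by norm_num)
  have hd1 : DifferentiableAt ℝ (fun y : E3 => deriv F ‖y‖) x := by
    have hr : DifferentiableAt ℝ (fun y : E3 => ‖y‖) x :=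
      (rad_smooth hx).differentiableAt (by simp)
    exact hdF.comp x hr
  have e1 : pd i (pd j (fun z => F ‖z‖)) x = pd i (fun y => deriv F ‖y‖ * pd j rad y) x := by
    unfold pd at hev ⊢
    rw [Filter.EventuallyEq.fderiv_eq hev]
  rw [e1]
  have e2 : pd i (fun y => deriv F ‖y‖ * pd j rad y) x =
      deriv F ‖x‖ * pd i (pd j rad) x + pd j rad x * pd i (fun y => deriv F ‖y‖) x := by
    have := fderiv_fun_mul hd1 (pd_rad_diff hx j)
    change (fderiv ℝ (fun y => deriv F ‖y‖ * pd j rad y) x) _ = _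
    rw [this]
    rfl
  rw [e2, pd_comp (F := deriv F) hdF hx]
  ring

end RADN

open RADN in
theorem RADN : Stmt_RADN := by
  intro ε g h F x hx hg hF hF'
  have hFd : DifferentiableAt ℝ F ‖x‖ := hF.differentiableAt (by norm_num)
  have hgr : grad (fun y => F ‖y‖) x = fun i => deriv F ‖x‖ * grad rad x i := by
    funext i
    exact pd_comp hFd hx
  have hr := grad_rad_ne hx
  have hlen := len_pos hg hr
  refine ⟨?_, hlen, ?_⟩
  · intro h0
    apply hr
    funext i
    have h1 := congrFun h0 i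
    rw [hgr] at h1
    rcases mul_eq_zero.mp h1 with h2 | h2
    · exact absurd h2 hF'.ne
    · exact h2
  · have hH : cHess g x (grad (fun y => F ‖y‖) x) (hess2 (fun y => F ‖y‖) x) =
        Matrix.of fun i j => deriv F ‖x‖ * cHess g x (grad rad x) (hess2 rad x) i j +
          deriv (deriv F) ‖x‖ * (Matrix.of fun i j => grad rad x i * grad rad x j : Bil) i j := by
      ext i j
      rw [hgr]
      unfold cHess hess2
      simp only [Matrix.of_apply]
      rw [hess_comp hF hx i j]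
      have e1 : ∑ k, christoffel g k i j x * (deriv F ‖x‖ * grad rad x k) =
          deriv F ‖x‖ * ∑ k, christoffel g k i j x * grad rad x k := by
        rw [Finset.mul_sum]
        refine Finset.sum_congr rfl fun k _ => ?_
        ring
      rw [e1]
      unfold grad
      ring
    unfold opN
    rw [hH, hgr, beps_smul ε g x hF', beps_smul ε g x hF', beps_lin, beps_self ε hg hr, len_smul,
      abs_of_neg hF']
    unfold barB
    field_simp
    ring

end Pool.Agent.PFlow


end

section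

/-!
# The mean of the tensor over large shells
-/

open MeasureTheory Filter Topology
open scoped ContDiff ENNReal Pointwise

namespace Pool.Agent.PFlow

open Pool.Agent.PenroseSph

namespace LIMK

/-! ### Pointwise algebra -/

section Algebra

variable {g h : TensorField} {x : E3}

theorem pd_congr {f₁ f₂ : E3 → ℝ} (hf : f₁ =ᶠ[𝓝 x] f₂) (k : Fin 3) : pd k f₁ x = pd k f₂ x := by
  unfold pd
  rw [hf.fderiv_eq]

theorem inv_mul (hpos : (g x).PosDef) (m j : Fin 3) :
    ∑ l, (g x)⁻¹ m l * g x l j = if m = j then 1 else 0 := by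
  have h1 : (g x)⁻¹ * g x = 1 := Matrix.nonsing_inv_mul _ ((Matrix.isUnit_iff_isUnit_det _).mp hpos.isUnit)
  have h2 := congrFun (congrFun h1 m) j
  rwa [Matrix.mul_apply, Matrix.one_apply] at h2

theorem symm_of_pos (hpos : (g x).PosDef) (i j : Fin 3) : g x i j = g x j i := by
  have h1 := hpos.isHermitian.apply i j
  simpa using h1.symm

theorem inv_symm (hpos : (g x).PosDef) (i j : Fin 3) : (g x)⁻¹ i j = (g x)⁻¹ j i := by
  have h1 := hpos.inv.isHermitian.apply i j
  simpa using h1.symm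

theorem inv_mul' (hpos : (g x).PosDef) (m j : Fin 3) :
    ∑ l, (g x)⁻¹ l m * g x l j = if m = j then 1 else 0 := by
  rw [← inv_mul hpos]
  exact Finset.sum_congr rfl fun l _ => by rw [inv_symm hpos l m]

theorem chr_low (hpos : (g x).PosDef) (k i j : Fin 3) :
    ∑ l, christoffel g l k i x * g x l j = (1 / 2) * (pd k (fun y => g y i j) x +
      pd i (fun y => g y k j) x - pd j (fun y => g y k i) x) := by
  have h1 : ∀ l, christoffel g l k i x * g x l j = ∑ m, (1 / 2) * (pd k (fun y => g y i m) x +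
      pd i (fun y => g y k m) x - pd m (fun y => g y k i) x) * ((g x)⁻¹ l m * g x l j) := by
    intro l
    unfold christoffel
    rw [Finset.mul_sum, Finset.sum_mul]
    exact Finset.sum_congr rfl fun m _ => by ring
  rw [Finset.sum_congr rfl fun l _ => h1 l, Finset.sum_comm]
  simp_rw [← Finset.mul_sum, inv_mul' hpos, mul_ite, mul_one, mul_zero]
  rw [Finset.sum_ite_eq' Finset.univ j]
  simp

theorem compat (hpos : (g x).PosDef) (hs : ∀ᶠ y in 𝓝 x, (g y).IsSymm) (k i j : Fin 3) :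
    ∑ l, (christoffel g l k i x * g x l j + christoffel g l k j x * g x i l) =
      pd k (fun y => g y i j) x := by
  have hD : ∀ a b c, pd a (fun y => g y b c) x = pd a (fun y => g y c b) x := by
    intro a b c
    refine pd_congr ?_ a
    filter_upwards [hs] with y hy
    exact (hy.apply b c).symm
  have h1 : ∑ l, christoffel g l k j x * g x i l = ∑ l, christoffel g l k j x * g x l i :=
    Finset.sum_congr rfl fun l _ => by rw [symm_of_pos hpos i l]
  rw [Finset.sum_add_distrib, h1, chr_low hpos, chr_low hpos, hD k j i, hD i k j]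
  rw [hD j k i]
  have h2 := hD i k j
  have h3 := hD j k i
  linarith

/-- The divergence of a multiple of the metric. -/
theorem div_mul (hpos : (g x).PosDef) (hs : ∀ᶠ y in 𝓝 x, (g y).IsSymm)
    (hg : ∀ i j, DifferentiableAt ℝ (fun y => g y i j) x) {f : E3 → ℝ}
    (hf : DifferentiableAt ℝ f x) (j : Fin 3) :
    divergence g (fun y => f y • g y) j x = pd j f x := by
  have h1 : ∀ k i, covDeriv g (fun y => f y • g y) k i j x = pd k f x * g x i j := by
    intro k i
    have h2 : pd k (fun y => (f y • g y) i j) x =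
        pd k f x * g x i j + f x * pd k (fun y => g y i j) x := by
      have h3 : (fun y => (f y • g y) i j) = fun y => f y * g y i j := by
        funext y
        simp [Matrix.smul_apply]
      rw [h3]
      unfold pd
      rw [fderiv_fun_mul hf (hg i j)]
      simp only [FunLike.coe_add, FunLike.coe_smul, Pi.add_apply, Pi.smul_apply, smul_eq_mul]
      ring
    unfold covDeriv
    rw [h2, ← compat hpos hs k i j, Finset.mul_sum]
    simp only [Matrix.smul_apply, smul_eq_mul]
    rw [add_sub_assoc, ← Finset.sum_sub_distrib]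
    rw [Finset.sum_eq_zero, add_zero]
    intro l _
    ring
  unfold divergence
  simp_rw [h1]
  rw [Finset.sum_comm]
  have h4 : ∀ k, ∑ i, (g x)⁻¹ i k * (pd k f x * g x i j) = pd k f x * if k = j then 1 else 0 := by
    intro k
    rw [← inv_mul' hpos, Finset.mul_sum]
    exact Finset.sum_congr rfl fun i _ => by ring
  simp_rw [h4, mul_ite, mul_one, mul_zero]
  rw [Finset.sum_ite_eq' Finset.univ j]
  simp

theorem trace_mul (hpos : (g x).PosDef) {c : ℝ} (hh : h x = c • g x) :
    traceWith g h x = 3 * c := by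
  unfold traceWith
  have h1 : ∀ i, ∑ j, (g x)⁻¹ i j * h x i j = c := by
    intro i
    have h2 : ∀ j, (g x)⁻¹ i j * h x i j = c * ((g x)⁻¹ i j * g x j i) := by
      intro j
      rw [hh, Matrix.smul_apply, smul_eq_mul, symm_of_pos hpos i j]
      ring
    rw [Finset.sum_congr rfl fun j _ => h2 j, ← Finset.mul_sum, inv_mul hpos]
    simp
  simp_rw [h1]
  simp

theorem normSq_mul (hpos : (g x).PosDef) {c : ℝ} (hh : h x = c • g x) :
    normSqWith g h x = 3 * c ^ 2 := by
  unfold normSqWith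
  have h1 : ∀ i j k, ∑ l, (g x)⁻¹ i k * (g x)⁻¹ j l * h x i j * h x k l =
      c ^ 2 * ((g x)⁻¹ i k * g x i j * if j = k then 1 else 0) := by
    intro i j k
    rw [← inv_mul hpos j k, Finset.mul_sum, Finset.mul_sum]
    refine Finset.sum_congr rfl fun l _ => ?_
    rw [hh, Matrix.smul_apply, Matrix.smul_apply, smul_eq_mul, smul_eq_mul, symm_of_pos hpos k l]
    ring
  simp_rw [h1, ← Finset.mul_sum, mul_ite, mul_one, mul_zero, Finset.sum_ite_eq Finset.univ]
  simp only [Finset.mem_univ, if_true]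
  have h2 : ∀ i, ∑ j, (g x)⁻¹ i j * g x i j = 1 := by
    intro i
    have h3 : ∀ j, (g x)⁻¹ i j * g x i j = (g x)⁻¹ i j * g x j i := by
      intro j
      rw [symm_of_pos hpos i j]
    rw [Finset.sum_congr rfl fun j _ => h3 j, inv_mul hpos]
    simp
  simp_rw [h2]
  simp
  ring

end Algebra

/-! ### The dominant energy condition for pure trace tensors -/

section PureTrace

variable {g h : TensorField}

/-- The factor of proportionality. -/
noncomputable def kk (g h : TensorField) (y : E3) : ℝ := h y 0 0 / g y 0 0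

theorem kk_eq {x : E3} (hpos : (g x).PosDef) {c : ℝ} (hh : h x = c • g x) : kk g h x = c := by
  have h1 : g x 0 0 ≠ 0 := ne_of_gt hpos.diag_pos
  unfold kk
  rw [hh, Matrix.smul_apply, smul_eq_mul, mul_div_assoc, div_self h1, mul_one]

theorem compl_nhds {x : E3} (hx : x ≠ 0) : ∀ᶠ y in 𝓝 x, y ≠ 0 :=
  isOpen_compl_singleton.eventually_mem hx

theorem contDiffAt_of {f : E3 → ℝ} (hf : ContDiffOn ℝ ∞ f {0}ᶜ) {x : E3} (hx : x ≠ 0) :
    ContDiffAt ℝ ∞ f x :=
  hf.contDiffAt (isOpen_compl_singleton.mem_nhds hx)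

theorem kk_smooth (hg : MetricOn {0}ᶜ g) (hh : TensorOn {0}ᶜ h) :
    ContDiffOn ℝ ∞ (kk g h) {0}ᶜ :=
  (hh.smooth 0 0).div (hg.smooth 0 0) fun x hx => ne_of_gt (hg.posDef x hx).diag_pos

theorem symm_ev (hg : MetricOn {0}ᶜ g) {x : E3} (hx : x ≠ 0) : ∀ᶠ y in 𝓝 x, (g y).IsSymm := by
  filter_upwards [compl_nhds hx] with y hy
  exact Matrix.IsSymm.ext fun i j => symm_of_pos (hg.posDef y hy) j i

theorem momentum_eq (hg : MetricOn {0}ᶜ g) (hh : TensorOn {0}ᶜ h)
    (hk : ∀ x : E3, x ≠ 0 → h x = kk g h x • g x) {x : E3} (hx : x ≠ 0) (j : Fin 3) :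
    momentumDensity g h j x = -2 * pd j (kk g h) x := by
  have hev : ∀ᶠ y in 𝓝 x, h y - traceWith g h y • g y = (-2 * kk g h y) • g y := by
    filter_upwards [compl_nhds hx] with y hy
    rw [trace_mul (hg.posDef y hy) (hk y hy)]
    nth_rw 1 [hk y hy]
    rw [← sub_smul]
    congr 1
    ring
  have hdk : DifferentiableAt ℝ (kk g h) x :=
    (contDiffAt_of (kk_smooth hg hh) hx).differentiableAt (by simp)
  have hdg : ∀ i j, DifferentiableAt ℝ (fun y => g y i j) x := fun i j =>
    (contDiffAt_of (hg.smooth i j) hx).differentiableAt (by simp)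
  have h1 : momentumDensity g h j x = divergence g (fun y => (-2 * kk g h y) • g y) j x := by
    unfold momentumDensity divergence covDeriv
    refine Finset.sum_congr rfl fun i _ => Finset.sum_congr rfl fun k _ => ?_
    have h2 : pd k (fun y => (h y - traceWith g h y • g y) i j) x =
        pd k (fun y => ((-2 * kk g h y) • g y) i j) x := by
      refine pd_congr ?_ k
      filter_upwards [hev] with y hy
      rw [hy]
    have h3 : h x - traceWith g h x • g x = (-2 * kk g h x) • g x := hev.self_of_nhds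
    simp only [h2, h3]
  rw [h1, div_mul (hg.posDef x hx) (symm_ev hg hx) hdg (hdk.const_mul _)]
  unfold pd
  rw [fderiv_const_mul hdk]
  simp

/-- The dominant energy condition. -/
theorem dec (hg : MetricOn {0}ᶜ g) (hh : TensorOn {0}ᶜ h) (hD : DominantEnergy 0 g h)
    (hk : ∀ x : E3, x ≠ 0 → h x = kk g h x • g x) {x : E3} (hx : x ≠ 0) :
    4 * Real.sqrt (∑ i, ∑ j, (g x)⁻¹ i j * pd i (kk g h) x * pd j (kk g h) x) ≤
      scalarCurvature g x + 6 * kk g h x ^ 2 := by
  have h1 := hD x (norm_pos_iff.mpr hx)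
  have h2 : ∑ i, ∑ j, (g x)⁻¹ i j * momentumDensity g h i x * momentumDensity g h j x =
      2 ^ 2 * ∑ i, ∑ j, (g x)⁻¹ i j * pd i (kk g h) x * pd j (kk g h) x := by
    rw [Finset.mul_sum]
    refine Finset.sum_congr rfl fun i _ => ?_
    rw [Finset.mul_sum]
    refine Finset.sum_congr rfl fun j _ => ?_
    rw [momentum_eq hg hh hk hx, momentum_eq hg hh hk hx]
    ring
  rw [h2, Real.sqrt_mul (by norm_num), Real.sqrt_sq (by norm_num)] at h1
  unfold energyDensity at h1
  rw [normSq_mul (hg.posDef x hx) (hk x hx), trace_mul (hg.posDef x hx) (hk x hx)] at h1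
  nlinarith [h1]

end PureTrace

/-! ### Bounds near infinity -/

section Bounds

variable {g h : TensorField} {x : E3}

theorem ev_upper (hb : ∀ i j, |g x i j - (1 : Bil) i j| ≤ 1 / 100) (v : Cov) :
    ev (g x) v v ≤ 2 * ∑ i, v i ^ 2 := by
  have h1 : ∀ i j, g x i j * v i * v j ≤ (1 : Bil) i j * v i * v j +
      1 / 200 * (v i ^ 2 + v j ^ 2) := by
    intro i j
    have h2 := hb i j
    have h3 : |v i * v j| ≤ (v i ^ 2 + v j ^ 2) / 2 := by
      rw [abs_le]
      constructor <;> nlinarith [sq_nonneg (v i + v j), sq_nonneg (v i - v j)]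
    have h4 : (g x i j - (1 : Bil) i j) * (v i * v j) ≤ 1 / 100 * ((v i ^ 2 + v j ^ 2) / 2) :=
      calc (g x i j - (1 : Bil) i j) * (v i * v j)
          ≤ |(g x i j - (1 : Bil) i j) * (v i * v j)| := le_abs_self _
        _ = |g x i j - (1 : Bil) i j| * |v i * v j| := abs_mul _ _
        _ ≤ _ := mul_le_mul h2 h3 (abs_nonneg _) (by norm_num)
    nlinarith [h4]
  have h2 : ev (g x) v v ≤ ∑ i, ∑ j, ((1 : Bil) i j * v i * v j +
      1 / 200 * (v i ^ 2 + v j ^ 2)) :=
    Finset.sum_le_sum fun i _ => Finset.sum_le_sum fun j _ => h1 i j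
  refine h2.trans ?_
  simp only [Fin.sum_univ_three, Matrix.one_apply]
  simp
  nlinarith [sq_nonneg (v 0), sq_nonneg (v 1), sq_nonneg (v 2)]

theorem quad_lower (hpos : (g x).PosDef) (hb : ∀ i j, |g x i j - (1 : Bil) i j| ≤ 1 / 100)
    (p : Cov) : ∑ i, p i ^ 2 ≤ 2 * ∑ i, ∑ j, (g x)⁻¹ i j * p i * p j := by
  set v : Fin 3 → ℝ := (g x)⁻¹.mulVec p with hv
  have hgv : (g x).mulVec v = p := by
    rw [hv, Matrix.mulVec_mulVec, Matrix.mul_nonsing_inv _
      ((Matrix.isUnit_iff_isUnit_det _).mp hpos.isUnit), Matrix.one_mulVec]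
  have h1 := hpos.posSemidef.dotProduct_mulVec_nonneg (v - (1 / 2 : ℝ) • p)
  have h2 : star (v - (1 / 2 : ℝ) • p) = v - (1 / 2 : ℝ) • p := by
    ext i
    simp
  rw [h2, Matrix.mulVec_sub, Matrix.mulVec_smul, hgv] at h1
  have h3 : ev (g x) p p = dotProduct p ((g x).mulVec p) := by
    unfold ev dotProduct Matrix.mulVec dotProduct
    refine Finset.sum_congr rfl fun i _ => ?_
    rw [Finset.mul_sum]
    exact Finset.sum_congr rfl fun j _ => by ring
  have h4 : dotProduct v ((g x).mulVec p) = dotProduct p p := by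
    rw [Matrix.dotProduct_mulVec]
    congr 1
    rw [← Matrix.mulVec_transpose]
    have h5 : (g x).transpose = g x := by
      ext i j
      rw [Matrix.transpose_apply, symm_of_pos hpos j i]
    rw [h5, hgv]
  have h5 : dotProduct v p = ∑ i, ∑ j, (g x)⁻¹ i j * p i * p j := by
    rw [hv]
    unfold dotProduct Matrix.mulVec dotProduct
    refine Finset.sum_congr rfl fun i _ => ?_
    rw [Finset.sum_mul]
    exact Finset.sum_congr rfl fun j _ => by ring
  have h6 : dotProduct p p = ∑ i, p i ^ 2 := by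
    unfold dotProduct
    exact Finset.sum_congr rfl fun i _ => by ring
  have h7 := ev_upper hb p
  rw [h3] at h7
  simp only [sub_dotProduct, dotProduct_sub, smul_dotProduct, dotProduct_smul, smul_eq_mul] at h1
  rw [h4, h5, h6] at h1
  linarith

theorem prod3 {a b c : ℝ} (ha : |a - 1| ≤ 1 / 100) (hb : |b - 1| ≤ 1 / 100)
    (hc : |c - 1| ≤ 1 / 100) : |a * b * c - 1| ≤ 4 / 100 := by
  rw [abs_le] at *
  have h1 : 98 / 100 ≤ a * b := by nlinarith
  have h2 : a * b ≤ 103 / 100 := by nlinarith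
  constructor <;> nlinarith

theorem prod2 {a b c : ℝ} (ha : |a| ≤ 2) (hb : |b| ≤ 1 / 100) (hc : |c| ≤ 1 / 100) :
    |a * b * c| ≤ 1 / 1000 := by
  rw [abs_mul, abs_mul]
  calc |a| * |b| * |c| ≤ 2 * (1 / 100) * (1 / 100) := by gcongr
    _ ≤ 1 / 1000 := by norm_num

theorem vol_bounds (hb : ∀ i j, |g x i j - (1 : Bil) i j| ≤ 1 / 100) :
    1 / 2 ≤ volDen g x ∧ volDen g x ≤ 2 := by
  have hdiag : ∀ i, |g x i i - 1| ≤ 1 / 100 := by
    intro i
    have h1 := hb i i
    rwa [Matrix.one_apply_eq] at h1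
  have hoff : ∀ i j, i ≠ j → |g x i j| ≤ 1 / 100 := by
    intro i j hij
    have h1 := hb i j
    rwa [Matrix.one_apply_ne hij, sub_zero] at h1
  have htwo : ∀ i j, |g x i j| ≤ 2 := by
    intro i j
    rcases eq_or_ne i j with rfl | hij
    · have h1 := hdiag i
      rw [abs_le] at h1 ⊢
      constructor <;> linarith
    · exact (hoff i j hij).trans (by norm_num)
  have h0 := prod3 (hdiag 0) (hdiag 1) (hdiag 2)
  have h1 := prod2 (htwo 0 0) (hoff 1 2 (by decide)) (hoff 2 1 (by decide))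
  have h2 := prod2 (htwo 2 2) (hoff 0 1 (by decide)) (hoff 1 0 (by decide))
  have h3 := prod2 (htwo 2 0) (hoff 0 1 (by decide)) (hoff 1 2 (by decide))
  have h4 := prod2 (htwo 2 1) (hoff 0 2 (by decide)) (hoff 1 0 (by decide))
  have h5 := prod2 (htwo 1 1) (hoff 0 2 (by decide)) (hoff 2 0 (by decide))
  have h6 : |(g x).det - 1| ≤ 1 / 10 := by
    rw [Matrix.det_fin_three]
    rw [abs_le] at *
    constructor <;> nlinarith
  rw [abs_le] at h6
  unfold volDen
  constructor
  · rw [show (1 / 2 : ℝ) = Real.sqrt ((1 / 2) ^ 2) from (Real.sqrt_sq (by norm_num)).symm]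
    exact Real.sqrt_le_sqrt (by linarith)
  · rw [show (2 : ℝ) = Real.sqrt (2 ^ 2) from (Real.sqrt_sq (by norm_num)).symm]
    exact Real.sqrt_le_sqrt (by linarith)

/-- The norm of a linear form. -/
theorem norm_le_sum (L : E3 →L[ℝ] ℝ) :
    ‖L‖ ≤ ∑ i, |L (EuclideanSpace.single i 1)| := by
  refine L.opNorm_le_bound (Finset.sum_nonneg fun i _ => abs_nonneg _) fun v => ?_
  have h1 : v = ∑ j, v j • EuclideanSpace.single j (1 : ℝ) := by
    ext k
    simp [Pi.single_apply]
  have h2 : L v = ∑ j, v j * L (EuclideanSpace.single j 1) := by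
    conv_lhs => rw [h1]
    rw [map_sum]
    exact Finset.sum_congr rfl fun j _ => by rw [map_smul, smul_eq_mul]
  rw [h2, Finset.sum_mul]
  refine (norm_sum_le _ _).trans (Finset.sum_le_sum fun j _ => ?_)
  rw [norm_mul, mul_comm]
  exact mul_le_mul le_rfl (PiLp.norm_apply_le v j) (norm_nonneg _) (abs_nonneg _)

theorem norm_le_quad (hpos : (g x).PosDef) (hb : ∀ i j, |g x i j - (1 : Bil) i j| ≤ 1 / 100)
    (f : E3 → ℝ) : ‖fderiv ℝ f x‖ ≤
      5 * Real.sqrt (∑ i, ∑ j, (g x)⁻¹ i j * pd i f x * pd j f x) := by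
  set Q := ∑ i, ∑ j, (g x)⁻¹ i j * pd i f x * pd j f x with hQ
  have h1 : ∑ i, pd i f x ^ 2 ≤ 2 * Q := quad_lower hpos hb fun i => pd i f x
  have h2 : ∀ i, |pd i f x| ≤ Real.sqrt (2 * Q) := by
    intro i
    rw [← Real.sqrt_sq_eq_abs]
    refine Real.sqrt_le_sqrt (le_trans ?_ h1)
    exact Finset.single_le_sum (f := fun i => pd i f x ^ 2) (fun i _ => sq_nonneg _)
      (Finset.mem_univ i)
  have h3 : ‖fderiv ℝ f x‖ ≤ 3 * Real.sqrt (2 * Q) := by
    refine (norm_le_sum _).trans ?_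
    refine (Finset.sum_le_sum fun i _ => h2 i).trans ?_
    simp
  refine h3.trans ?_
  have h4 : 0 ≤ Q := by
    have : 0 ≤ ∑ i, pd i f x ^ 2 := Finset.sum_nonneg fun i _ => sq_nonneg _
    linarith
  have h5 : Real.sqrt (2 * Q) ≤ 5 / 3 * Real.sqrt Q := by
    rw [show (5 / 3 : ℝ) = Real.sqrt ((5 / 3) ^ 2) from (Real.sqrt_sq (by norm_num)).symm,
      ← Real.sqrt_mul (by positivity)]
    exact Real.sqrt_le_sqrt (by nlinarith)
  linarith

end Bounds

/-! ### Integration along rays -/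

section Rays

theorem isClosed_cAnn (a b : ℝ) : IsClosed (cAnn a b) :=
  (isClosed_le continuous_const continuous_norm).inter
    (isClosed_le continuous_norm continuous_const)

theorem isCompact_cAnn (a b : ℝ) : IsCompact (cAnn a b) := by
  refine (isCompact_closedBall (0 : E3) b).of_isClosed_subset (isClosed_cAnn a b) ?_
  intro x hx
  rw [mem_closedBall_zero_iff]
  exact hx.2

theorem ne_zero_of_mem {a b : ℝ} (ha : 0 < a) {x : E3} (hx : x ∈ cAnn a b) : x ≠ 0 :=
  norm_pos_iff.mp (ha.trans_le hx.1)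

theorem cont_fderiv {κ : E3 → ℝ} (hκ : ContDiffOn ℝ ∞ κ {0}ᶜ) :
    ContinuousOn (fderiv ℝ κ) {0}ᶜ :=
  hκ.continuousOn_fderiv_of_isOpen isOpen_compl_singleton (by simp)

theorem integrable_tail {F : E3 → ℝ} (hF : ContinuousOn F {0}ᶜ) (hF0 : ∀ x, 0 ≤ F x) {a K : ℝ}
    (ha : 0 < a) (hK : ∀ b, a ≤ b → ∫ x in cAnn a b, F x ≤ K) :
    IntegrableOn F {x : E3 | a ≤ ‖x‖} := by
  have hS : MeasurableSet {x : E3 | a ≤ ‖x‖} :=
    (isClosed_le continuous_const continuous_norm).measurableSet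
  have hset : ∀ n : ℕ, Metric.closedBall (0 : E3) n ∩ {x : E3 | a ≤ ‖x‖} = cAnn a n := by
    intro n
    ext x
    simp only [Set.mem_inter_iff, mem_closedBall_zero_iff, Set.mem_ofPred_eq, cAnn]
    tauto
  have hcov : AECover (volume.restrict {x : E3 | a ≤ ‖x‖}) atTop
      (fun n : ℕ => Metric.closedBall (0 : E3) n) :=
    aecover_closedBall tendsto_natCast_atTop_atTop
  have hrr : ∀ n : ℕ, (volume.restrict {x : E3 | a ≤ ‖x‖}).restrict
      (Metric.closedBall (0 : E3) n) = volume.restrict (cAnn a n) := by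
    intro n
    rw [Measure.restrict_restrict Metric.isClosed_closedBall.measurableSet, hset]
  refine hcov.integrable_of_integral_norm_bounded K (fun n => ?_) ?_
  · unfold IntegrableOn
    rw [hrr]
    refine ContinuousOn.integrableOn_compact (isCompact_cAnn a n) (hF.mono ?_)
    intro x hx
    exact ne_zero_of_mem ha hx
  · filter_upwards [eventually_ge_atTop ⌈a⌉₊] with n hn
    rw [hrr]
    have h1 := hK n (Nat.ceil_le.mp hn)
    refine le_trans (le_of_eq ?_) h1
    exact integral_congr_ae (Filter.Eventually.of_forall fun x => by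
      simp [abs_of_nonneg (hF0 x)])

theorem tail_tendsto {F : E3 → ℝ} {a : ℝ} (hF : IntegrableOn F {x : E3 | a ≤ ‖x‖}) :
    Tendsto (fun r : ℝ => ∫ x in {x : E3 | r ≤ ‖x‖}, F x) atTop (𝓝 0) := by
  have h1 := tendsto_setIntegral_of_antitone (μ := (volume : Measure E3)) (f := F)
    (s := fun r : ℝ => {x : E3 | r ≤ ‖x‖})
    (fun r => (isClosed_le continuous_const continuous_norm).measurableSet)
    (fun r r' hr x hx => hr.trans hx) ⟨a, hF⟩
  have h2 : (⋂ r : ℝ, {x : E3 | r ≤ ‖x‖}) = ∅ := by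
    ext x
    simp only [Set.mem_iInter, Set.mem_ofPred_eq, Set.mem_empty_iff_false, iff_false, not_forall,
      not_le]
    exact ⟨‖x‖ + 1, by linarith⟩
  rwa [h2, setIntegral_empty] at h1

/-- The fundamental theorem of calculus along a ray. -/
theorem ray {κ : E3 → ℝ} (hκ : ContDiffOn ℝ ∞ κ {0}ᶜ) {x : E3} (hx : x ≠ 0) {l : ℝ}
    (hl : 1 ≤ l) : |κ x| ≤ |κ (l • x)| + ∫ t in (1 : ℝ)..l, ‖x‖ * ‖fderiv ℝ κ (t • x)‖ := by
  have hne : ∀ t ∈ Set.uIcc 1 l, t • x ≠ 0 := by
    intro t ht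
    rw [Set.uIcc_of_le hl] at ht
    exact smul_ne_zero (by linarith [ht.1]) hx
  have hderiv : ∀ t ∈ Set.uIcc 1 l,
      HasDerivAt (fun t : ℝ => κ (t • x)) (fderiv ℝ κ (t • x) x) t := by
    intro t ht
    have h1 : HasFDerivAt κ (fderiv ℝ κ (t • x)) (t • x) :=
      ((contDiffAt_of hκ (hne t ht)).differentiableAt (by simp)).hasFDerivAt
    have h2 : HasDerivAt (fun t : ℝ => t • x) x t := by
      simpa using (hasDerivAt_id t).smul_const x
    exact h1.comp_hasDerivAt t h2
  have hsm : ContinuousOn (fun t : ℝ => t • x) (Set.uIcc 1 l) := by fun_prop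
  have hcont : ContinuousOn (fun t : ℝ => fderiv ℝ κ (t • x)) (Set.uIcc 1 l) :=
    (cont_fderiv hκ).comp hsm fun t ht => hne t ht
  have hint : IntervalIntegrable (fun t : ℝ => fderiv ℝ κ (t • x) x) volume 1 l :=
    (hcont.clm_apply continuousOn_const).intervalIntegrable
  have h1 := intervalIntegral.integral_eq_sub_of_hasDerivAt hderiv hint
  have h2 : |κ (l • x) - κ x| ≤ ∫ t in (1 : ℝ)..l, ‖x‖ * ‖fderiv ℝ κ (t • x)‖ := by
    rw [one_smul] at h1
    rw [← h1]
    have h5 : ‖∫ t in (1 : ℝ)..l, fderiv ℝ κ (t • x) x‖ ≤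
        ∫ t in (1 : ℝ)..l, ‖fderiv ℝ κ (t • x) x‖ :=
      intervalIntegral.norm_integral_le_integral_norm hl
    rw [Real.norm_eq_abs] at h5
    refine h5.trans ?_
    refine intervalIntegral.integral_mono_on hl hint.norm ?_ fun t _ => ?_
    · exact (continuousOn_const.mul hcont.norm).intervalIntegrable
    · rw [mul_comm]
      exact (fderiv ℝ κ (t • x)).le_opNorm x
  have h3 : |κ x| ≤ |κ (l • x)| + |κ (l • x) - κ x| := by
    have h4 : κ x = κ (l • x) - (κ (l • x) - κ x) := by ring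
    calc |κ x| = |κ (l • x) - (κ (l • x) - κ x)| := by rw [← h4]
      _ ≤ _ := abs_sub _ _
  linarith

theorem int_cube {l : ℝ} (hl : 1 ≤ l) : ∫ t in (1 : ℝ)..l, (t ^ 3)⁻¹ ≤ 1 := by
  have h1 : ∀ t : ℝ, (t ^ 3)⁻¹ = t ^ (-3 : ℤ) := fun t => by
    rw [zpow_neg]
    rfl
  simp_rw [h1]
  rw [integral_zpow (Or.inr ⟨by norm_num, by
    rw [Set.uIcc_of_le hl]
    intro h
    linarith [h.1]⟩)]
  have h2 : (0 : ℝ) ≤ (l ^ 2)⁻¹ := by positivity
  norm_num
  linarith

/-- The mean over large shells. -/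
theorem shell_lim {κ : E3 → ℝ} (hκ : ContDiffOn ℝ ∞ κ {0}ᶜ) {a K C : ℝ} (ha : 1 ≤ a)
    (hb : ∀ x : E3, a ≤ ‖x‖ → |κ x| ≤ C / ‖x‖ ^ 2)
    (hK : ∀ b, a ≤ b → ∫ x in cAnn a b, ‖fderiv ℝ κ x‖ ≤ K) :
    Tendsto (fun l : ℝ => ∫ x in cAnn (l / 2) l, |κ x| / l) atTop (𝓝 0) := by
  have ha0 : 0 < a := by linarith
  set F : E3 → ℝ := fun x => ‖fderiv ℝ κ x‖ with hF
  have hFc : ContinuousOn F {0}ᶜ := (cont_fderiv hκ).norm
  have hF0 : ∀ x, 0 ≤ F x := fun x => norm_nonneg _
  have hFi : IntegrableOn F {x : E3 | a ≤ ‖x‖} := integrable_tail hFc hF0 ha0 hK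
  have htail := tail_tendsto hFi
  set v : ℝ := (volume : Measure E3).real (Metric.ball (0 : E3) 1) with hv
  have hv0 : 0 ≤ v := measureReal_nonneg
  have hC : 0 ≤ C := by
    obtain ⟨x, hx⟩ : ∃ x : E3, ‖x‖ = a := ⟨a • EuclideanSpace.single 0 1, by
      rw [norm_smul]
      simp [abs_of_pos ha0]⟩
    have h1 := (abs_nonneg _).trans (hb x hx.ge)
    rw [hx] at h1
    by_contra hneg
    push Not at hneg
    have h2 := div_neg_of_neg_of_pos hneg (pow_pos ha0 2)
    linarith
  -- the main inequality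
  have hmain : ∀ l : ℝ, 2 * a ≤ l → ∫ x in cAnn (l / 2) l, |κ x| / l ≤
      4 * C * v * (l ^ 2)⁻¹ + ∫ x in {x : E3 | l / 2 ≤ ‖x‖}, F x := by
    intro l hl
    have hl1 : 1 ≤ l := by linarith
    have hl0 : 0 < l := by linarith
    have hl2 : a ≤ l / 2 := by linarith
    have hl20 : 0 < l / 2 := by linarith
    set A := cAnn (l / 2) l with hA
    have hAc : IsCompact A := isCompact_cAnn _ _
    have hAm : MeasurableSet A := (isClosed_cAnn _ _).measurableSet
    set Tl := ∫ x in {x : E3 | l / 2 ≤ ‖x‖}, F x with hTl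
    have hFl : IntegrableOn F {x : E3 | l / 2 ≤ ‖x‖} :=
      hFi.mono_set fun x hx => hl2.trans hx
    have hTl0 : 0 ≤ Tl := integral_nonneg fun x => hF0 x
    -- joint integrability
    have hjc : ContinuousOn (Function.uncurry fun (t : ℝ) (x : E3) => l * F (t • x))
        (Set.Icc 1 l ×ˢ A) := by
      have hsm : ContinuousOn (fun q : ℝ × E3 => q.1 • q.2) (Set.Icc 1 l ×ˢ A) := by fun_prop
      refine continuousOn_const.mul (hFc.comp hsm ?_)
      rintro ⟨t, x⟩ ⟨ht, hx⟩
      exact smul_ne_zero (by linarith [ht.1]) (ne_zero_of_mem hl20 hx)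
    have hji : Integrable (Function.uncurry fun (t : ℝ) (x : E3) => l * F (t • x))
        ((volume.restrict (Set.uIoc 1 l)).prod (volume.restrict A)) := by
      rw [Measure.prod_restrict]
      refine (hjc.integrableOn_compact (isCompact_Icc.prod hAc)).mono_set ?_
      refine Set.prod_mono ?_ le_rfl
      rw [Set.uIoc_of_le hl1]
      exact Set.Ioc_subset_Icc_self
    have hswap := MeasureTheory.intervalIntegral_integral_swap hji
    -- the inner integral
    have hinner : ∀ t ∈ Set.Icc 1 l, ∫ x in A, l * F (t • x) ≤ l * Tl * (t ^ 3)⁻¹ := by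
      intro t ht
      have ht0 : 0 < t := by linarith [ht.1]
      have h1 : ∫ x in A, l * F (t • x) = l * ((t ^ 3)⁻¹ * ∫ x in t • A, F x) := by
        rw [integral_const_mul, Measure.setIntegral_comp_smul_of_pos _ F A ht0,
          finrank_euclideanSpace_fin, smul_eq_mul]
      have h2 : ∫ x in t • A, F x ≤ Tl := by
        refine setIntegral_mono_set hFl (Filter.Eventually.of_forall fun x => hF0 x)
          (Filter.Eventually.of_forall ?_)
        rintro y ⟨x, hx, rfl⟩
        change l / 2 ≤ ‖t • x‖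
        rw [norm_smul, Real.norm_of_nonneg ht0.le]
        nlinarith [hx.1, ht.1, norm_nonneg x]
      rw [h1]
      have h3 : 0 ≤ (t ^ 3)⁻¹ := by positivity
      calc l * ((t ^ 3)⁻¹ * ∫ x in t • A, F x) ≤ l * ((t ^ 3)⁻¹ * Tl) := by gcongr
        _ = l * Tl * (t ^ 3)⁻¹ := by ring
    have houter : ∫ t in (1 : ℝ)..l, ∫ x in A, l * F (t • x) ≤ l * Tl := by
      have h1 : IntervalIntegrable (fun t : ℝ => l * Tl * (t ^ 3)⁻¹) volume 1 l := by
        refine ContinuousOn.intervalIntegrable ?_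
        refine continuousOn_const.mul (ContinuousOn.inv₀ (by fun_prop) ?_)
        intro t ht
        rw [Set.uIcc_of_le hl1] at ht
        exact pow_ne_zero _ (by linarith [ht.1])
      have h2 : IntervalIntegrable (fun t : ℝ => ∫ x in A, l * F (t • x)) volume 1 l := by
        rw [intervalIntegrable_iff]
        exact hji.integral_prod_left
      refine (intervalIntegral.integral_mono_on hl1 h2 h1 hinner).trans ?_
      rw [intervalIntegral.integral_const_mul]
      calc l * Tl * ∫ t in (1 : ℝ)..l, (t ^ 3)⁻¹ ≤ l * Tl * 1 :=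
            mul_le_mul_of_nonneg_left (int_cube hl1) (by positivity)
        _ = l * Tl := mul_one _
    rw [hswap] at houter
    -- pointwise
    have hpt : ∀ x ∈ A, |κ x| ≤ 4 * C * (l ^ 4)⁻¹ + ∫ t in (1 : ℝ)..l, l * F (t • x) := by
      intro x hx
      have hx0 : x ≠ 0 := ne_zero_of_mem hl20 hx
      have h1 := ray hκ hx0 hl1
      have h2 : |κ (l • x)| ≤ 4 * C * (l ^ 4)⁻¹ := by
        have h3 : ‖l • x‖ = l * ‖x‖ := by rw [norm_smul, Real.norm_of_nonneg hl0.le]
        have h4 : l ^ 2 / 2 ≤ l * ‖x‖ := by nlinarith [hx.1]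
        have h5 : a ≤ ‖l • x‖ := by
          rw [h3]
          nlinarith [hx.1]
        refine (hb _ h5).trans ?_
        rw [h3]
        calc C / (l * ‖x‖) ^ 2 ≤ C / (l ^ 2 / 2) ^ 2 := by gcongr
          _ = 4 * C * (l ^ 4)⁻¹ := by
            field_simp
            ring
      have h3 : ∫ t in (1 : ℝ)..l, ‖x‖ * ‖fderiv ℝ κ (t • x)‖ ≤
          ∫ t in (1 : ℝ)..l, l * F (t • x) := by
        have hcont : ContinuousOn (fun t : ℝ => F (t • x)) (Set.uIcc 1 l) := by
          have hsm : ContinuousOn (fun t : ℝ => t • x) (Set.uIcc 1 l) := by fun_prop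
          refine hFc.comp hsm fun t ht => ?_
          rw [Set.uIcc_of_le hl1] at ht
          exact smul_ne_zero (by linarith [ht.1]) hx0
        refine intervalIntegral.integral_mono_on hl1
          (continuousOn_const.mul hcont).intervalIntegrable
          (continuousOn_const.mul hcont).intervalIntegrable fun t _ => ?_
        exact mul_le_mul_of_nonneg_right hx.2 (hF0 _)
      linarith
    have hκc : ContinuousOn κ A := hκ.continuousOn.mono fun x hx => ne_zero_of_mem hl20 hx
    have hint1 : IntegrableOn (fun x => |κ x|) A := hκc.abs.integrableOn_compact hAc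
    have hint2 : IntegrableOn (fun x => ∫ t in (1 : ℝ)..l, l * F (t • x)) A := by
      have h1 := hji.integral_prod_right
      unfold IntegrableOn
      refine h1.congr (Filter.Eventually.of_forall fun x => ?_)
      simp only [Function.uncurry]
      rw [intervalIntegral.integral_of_le hl1, Set.uIoc_of_le hl1]
    have hint3 : IntegrableOn (fun _ : E3 => 4 * C * (l ^ 4)⁻¹) A :=
      continuousOn_const.integrableOn_compact hAc
    have h6 : ∫ x in A, |κ x| ≤ 4 * C * (l ^ 4)⁻¹ * (v * l ^ 3) + l * Tl := by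
      have h7 : ∫ x in A, |κ x| ≤
          ∫ x in A, (4 * C * (l ^ 4)⁻¹ + ∫ t in (1 : ℝ)..l, l * F (t • x)) :=
        setIntegral_mono_on hint1 (hint3.add hint2) hAm hpt
      rw [integral_add hint3 hint2, setIntegral_const, smul_eq_mul] at h7
      have h8 : (volume : Measure E3).real A ≤ v * l ^ 3 := by
        have h9 : (volume : Measure E3).real A ≤
            (volume : Measure E3).real (Metric.closedBall (0 : E3) l) := by
          refine measureReal_mono ?_ (measure_closedBall_lt_top).ne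
          intro x hx
          rw [mem_closedBall_zero_iff]
          exact hx.2
        have h10 := Measure.addHaar_real_closedBall (volume : Measure E3) (0 : E3) hl0.le
        rw [finrank_euclideanSpace_fin] at h10
        rw [h10] at h9
        linarith
      have h11 : 0 ≤ 4 * C * (l ^ 4)⁻¹ := by positivity
      have h12 := mul_le_mul_of_nonneg_right h8 h11
      linarith
    have h13 : ∫ x in A, |κ x| / l = (∫ x in A, |κ x|) / l := integral_div _ _
    rw [h13, div_le_iff₀ hl0]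
    refine h6.trans (le_of_eq ?_)
    field_simp
  have hlim : Tendsto (fun l : ℝ => 4 * C * v * (l ^ 2)⁻¹ +
      ∫ x in {x : E3 | l / 2 ≤ ‖x‖}, F x) atTop (𝓝 0) := by
    have h1 : Tendsto (fun l : ℝ => 4 * C * v * (l ^ 2)⁻¹) atTop (𝓝 0) := by
      have h2 : Tendsto (fun l : ℝ => (l ^ 2)⁻¹) atTop (𝓝 0) :=
        (tendsto_pow_atTop (by norm_num)).inv_tendsto_atTop
      simpa using h2.const_mul (4 * C * v)
    have h3 : Tendsto (fun l : ℝ => l / 2) atTop atTop :=
      tendsto_id.atTop_div_const (by norm_num)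
    simpa using h1.add (htail.comp h3)
  refine tendsto_of_tendsto_of_tendsto_of_le_of_le' tendsto_const_nhds hlim ?_ ?_
  · filter_upwards [eventually_gt_atTop 0] with l hl
    exact integral_nonneg fun x => div_nonneg (abs_nonneg _) hl.le
  · filter_upwards [eventually_ge_atTop (2 * a)] with l hl
    exact hmain l hl

end Rays

/-! ### The integral of the differential -/

section Mass

variable {g h : TensorField}

theorem decay_mono {C C' R R' : ℝ} (hR : 0 < R') (hRR : R ≤ R') (hC : C ≤ C')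
    (hd : DecayFrom C R g h) : DecayFrom C' R' g h := by
  intro x hx i j
  have hx0 : 0 < ‖x‖ := hR.trans_le hx
  obtain ⟨h1, h2, h3, h4, h5⟩ := hd x (hRR.trans hx) i j
  exact ⟨h1.trans (by gcongr), fun k => (h2 k).trans (by gcongr),
    fun k l => (h3 k l).trans (by gcongr), h4.trans (by gcongr), fun k => (h5 k).trans (by gcongr)⟩

theorem pd_smooth {f : E3 → ℝ} (hf : ContDiffOn ℝ ∞ f {0}ᶜ) (k : Fin 3) :
    ContDiffOn ℝ ∞ (pd k f) {0}ᶜ := by
  have h1 : ContDiffOn ℝ ∞ (fderiv ℝ f) {0}ᶜ :=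
    hf.fderiv_of_isOpen isOpen_compl_singleton (by simp)
  exact h1.clm_apply contDiffOn_const

theorem pd_sub {f₁ f₂ : E3 → ℝ} {x : E3} (h1 : DifferentiableAt ℝ f₁ x)
    (h2 : DifferentiableAt ℝ f₂ x) (k : Fin 3) :
    pd k (fun y => f₁ y - f₂ y) x = pd k f₁ x - pd k f₂ x := by
  unfold pd
  rw [fderiv_fun_sub h1 h2]
  rfl

theorem pd_sum {f : Fin 3 → E3 → ℝ} {x : E3} (h1 : ∀ j, DifferentiableAt ℝ (f j) x)
    {k : Fin 3} : pd k (fun y => ∑ j, f j y) x = ∑ j, pd k (f j) x := by
  unfold pd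
  rw [fderiv_fun_sum fun j _ => h1 j, _root_.sum_apply]

theorem linR_cont (hg : MetricOn {0}ᶜ g) : ContinuousOn (linR g) {0}ᶜ := by
  unfold linR
  refine continuousOn_finsetSum _ fun i _ => continuousOn_finsetSum _ fun j _ => ?_
  exact (pd_smooth (pd_smooth (hg.smooth i j) j) i).continuousOn.sub
    (pd_smooth (pd_smooth (hg.smooth i i) j) j).continuousOn

/-- The integral of the linearised scalar curvature. -/
theorem int_linR (hDIVG : Stmt_DIVG) (hg : MetricOn {0}ᶜ g) {C a : ℝ} (ha : 0 < a)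
    (hdec : DecayFrom C a g h) :
    ∃ K : ℝ, ∀ b, a ≤ b → ∫ x in cAnn a b, linR g x ≤ K := by
  set V : E3 → Fin 3 → ℝ := fun y i =>
    ∑ j, (pd j (fun z => g z i j) y - pd i (fun z => g z j j) y) with hV
  set σ : ℝ := ((volume : Measure E3).toSphere).real Set.univ with hσ
  have hVb : ∀ y : E3, a ≤ ‖y‖ → ∀ i, |V y i| ≤ 6 * C / ‖y‖ ^ 2 := by
    intro y hy i
    have h1 : ∀ j, |pd j (fun z => g z i j) y - pd i (fun z => g z j j) y| ≤
        2 * (C / ‖y‖ ^ 2) := by
      intro j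
      have h2 := (hdec y hy i j).2.1 j
      have h3 := (hdec y hy j j).2.1 i
      have h4 := abs_sub (pd j (fun z => g z i j) y) (pd i (fun z => g z j j) y)
      linarith
    refine (Finset.abs_sum_le_sum_abs _ _).trans ((Finset.sum_le_sum fun j _ => h1 j).trans ?_)
    simp only [Finset.sum_const, Finset.card_univ, Fintype.card_fin, nsmul_eq_mul]
    refine le_of_eq ?_
    push_cast
    ring
  have hbd : ∀ r, a ≤ r → |∫ θ : Metric.sphere (0 : E3) 1,
      (∑ i, V (r • (θ : E3)) i * (θ : E3) i) * r ^ 2 ∂((volume : Measure E3).toSphere)| ≤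
        18 * C * σ := by
    intro r hr
    have hr0 := ha.trans_le hr
    rw [← Real.norm_eq_abs]
    refine norm_integral_le_of_norm_le_const (μ := (volume : Measure E3).toSphere)
      (f := fun θ : Metric.sphere (0 : E3) 1 =>
        (∑ i, V (r • (θ : E3)) i * (θ : E3) i) * r ^ 2) (C := 18 * C)
      (Filter.Eventually.of_forall fun θ => ?_)
    have hθ : ‖(θ : E3)‖ = 1 := by simp
    have hn : ‖r • (θ : E3)‖ = r := by rw [norm_smul, hθ, mul_one, Real.norm_of_nonneg hr0.le]
    have h1 : ∀ i, |V (r • (θ : E3)) i * (θ : E3) i| ≤ 6 * C / r ^ 2 := by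
      intro i
      have h2 := hVb (r • (θ : E3)) (by rw [hn]; exact hr) i
      rw [hn] at h2
      have h3 : |(θ : E3) i| ≤ 1 := by
        have h4 := PiLp.norm_apply_le (θ : E3) i
        rwa [hθ, Real.norm_eq_abs] at h4
      rw [abs_mul]
      calc |V (r • (θ : E3)) i| * |(θ : E3) i| ≤ |V (r • (θ : E3)) i| * 1 :=
            mul_le_mul_of_nonneg_left h3 (abs_nonneg _)
        _ ≤ _ := by linarith
    rw [Real.norm_eq_abs, abs_mul, abs_of_pos (pow_pos hr0 2)]
    have h5 : |∑ i, V (r • (θ : E3)) i * (θ : E3) i| ≤ 18 * C / r ^ 2 := by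
      refine (Finset.abs_sum_le_sum_abs _ _).trans ((Finset.sum_le_sum fun j _ => h1 j).trans ?_)
      simp only [Finset.sum_const, Finset.card_univ, Fintype.card_fin, nsmul_eq_mul]
      refine le_of_eq ?_
      push_cast
      ring
    calc |∑ i, V (r • (θ : E3)) i * (θ : E3) i| * r ^ 2 ≤ 18 * C / r ^ 2 * r ^ 2 :=
          mul_le_mul_of_nonneg_right h5 (by positivity)
      _ = 18 * C := by field_simp
  have hVs : ∀ i, ContDiffOn ℝ ∞ (fun y => V y i) {0}ᶜ := by
    intro i
    refine ContDiffOn.sum fun j _ => ?_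
    exact (pd_smooth (hg.smooth i j) j).sub (pd_smooth (hg.smooth j j) i)
  refine ⟨36 * C * σ, fun b hb => ?_⟩
  have h1 : ∫ x in cAnn a b, linR g x = ∫ x in cAnn a b, ∑ i, pd i (fun y => V y i) x := by
    refine setIntegral_congr_fun (isClosed_cAnn a b).measurableSet fun x hx => ?_
    have hx0 : x ≠ 0 := ne_zero_of_mem ha hx
    have hd : ∀ i j k, DifferentiableAt ℝ (pd k (fun z => g z i j)) x := fun i j k =>
      (contDiffAt_of (pd_smooth (hg.smooth i j) k) hx0).differentiableAt (by simp)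
    have h2 : ∀ i, pd i (fun y => V y i) x =
        ∑ j, (pd i (pd j (fun z => g z i j)) x - pd i (pd i (fun z => g z j j)) x) := by
      intro i
      simp only [hV]
      rw [pd_sum (f := fun j y => pd j (fun z => g z i j) y - pd i (fun z => g z j j) y)
        fun j => (hd i j j).fun_sub (hd j j i)]
      exact Finset.sum_congr rfl fun j _ => pd_sub (hd i j j) (hd j j i) i
    simp only [h2, linR, Finset.sum_sub_distrib]
    congr 1
    rw [Finset.sum_comm]
  rw [h1, hDIVG V a b ha hb fun x hx i =>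
    (contDiffAt_of (hVs i) (ne_zero_of_mem ha hx)).of_le (by norm_cast)]
  have h2 := hbd b hb
  have h3 := hbd a le_rfl
  rw [abs_le] at h2 h3
  linarith [h2.2, h3.1]

/-- The integral of the differential of the factor. -/
theorem int_fderiv (hDIVG : Stmt_DIVG) (hSCAL : Stmt_SCAL) (hT : TwoEnded g h)
    (hD : DominantEnergy 0 g h) (hk : ∀ x : E3, x ≠ 0 → h x = kk g h x • g x) :
    ∃ a K C : ℝ, 1 ≤ a ∧ (∀ x : E3, a ≤ ‖x‖ → |kk g h x| ≤ C / ‖x‖ ^ 2) ∧
      (∀ x : E3, a ≤ ‖x‖ → msz (h x) ≤ 4 * |kk g h x|) ∧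
      ∀ b, a ≤ b → ∫ x in cAnn a b, ‖fderiv ℝ (kk g h) x‖ ≤ K := by
  have hg := hT.metric
  have hh := hT.tensor
  obtain ⟨C₀, R₀, hdec0⟩ := hT.end_one
  set C := max C₀ 1 with hC
  have hC1 : 1 ≤ C := le_max_right _ _
  obtain ⟨C', r₀, hC', hr₀, hS⟩ := hSCAL C
  set a := max (max R₀ r₀) (100 * C) with ha
  have ha100 : 100 * C ≤ a := le_max_right _ _
  have haR : R₀ ≤ a := (le_max_left _ _).trans (le_max_left _ _)
  have har : r₀ ≤ a := (le_max_right _ _).trans (le_max_left _ _)
  have ha1 : 1 ≤ a := by linarith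
  have ha0 : 0 < a := by linarith
  have hdec : DecayFrom C a g h := decay_mono ha0 haR (le_max_left _ _) hdec0
  have hx0 : ∀ x : E3, a ≤ ‖x‖ → x ≠ 0 := fun x hx => norm_pos_iff.mp (ha0.trans_le hx)
  have hb : ∀ x : E3, a ≤ ‖x‖ → ∀ i j, |g x i j - (1 : Bil) i j| ≤ 1 / 100 := by
    intro x hx i j
    refine (hdec x hx i j).1.trans ?_
    have h1 : 0 < ‖x‖ := ha0.trans_le hx
    rw [div_le_div_iff₀ h1 (by norm_num)]
    linarith
  have hκ : ∀ x : E3, a ≤ ‖x‖ → |kk g h x| ≤ (2 * C) / ‖x‖ ^ 2 := by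
    intro x hx
    have h1 : 0 < ‖x‖ := ha0.trans_le hx
    have h2 := hb x hx 0 0
    rw [Matrix.one_apply_eq, abs_le] at h2
    have h3 := (hdec x hx 0 0).2.2.2.1
    have h4 : 1 / 2 ≤ g x 0 0 := by linarith [h2.1]
    unfold kk
    rw [abs_div, abs_of_pos (by linarith : 0 < g x 0 0)]
    calc |h x 0 0| / g x 0 0 ≤ (C / ‖x‖ ^ 2) / (1 / 2) := by gcongr
      _ = 2 * C / ‖x‖ ^ 2 := by ring
  have hms : ∀ x : E3, a ≤ ‖x‖ → msz (h x) ≤ 4 * |kk g h x| := by
    intro x hx
    have h1 : ∀ i j, g x i j ^ 2 ≤ 16 / 9 := by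
      intro i j
      have h2 := hb x hx i j
      have h3 : |(1 : Bil) i j| ≤ 1 := by
        rw [Matrix.one_apply]
        split_ifs <;> simp
      have h4 : |g x i j| ≤ 101 / 100 := by
        have h5 : g x i j = (g x i j - (1 : Bil) i j) + (1 : Bil) i j := by ring
        rw [h5]
        refine (abs_add_le _ _).trans ?_
        linarith
      rw [← sq_abs]
      nlinarith [abs_nonneg (g x i j)]
    have h2 : ∑ i, ∑ j, h x i j ^ 2 ≤ (4 * |kk g h x|) ^ 2 := by
      have h3 : ∀ i j, h x i j ^ 2 ≤ 16 / 9 * kk g h x ^ 2 := by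
        intro i j
        rw [hk x (hx0 x hx), Matrix.smul_apply, smul_eq_mul, mul_pow]
        have := mul_le_mul_of_nonneg_left (h1 i j) (sq_nonneg (kk g h x))
        linarith
      refine (Finset.sum_le_sum fun i _ => Finset.sum_le_sum fun j _ => h3 i j).trans ?_
      simp only [Finset.sum_const, Finset.card_univ, Fintype.card_fin, nsmul_eq_mul]
      rw [mul_pow, sq_abs]
      push_cast
      linarith
    unfold msz
    refine (Real.sqrt_le_sqrt h2).trans ?_
    rw [Real.sqrt_sq (by positivity)]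
  have hpt : ∀ x : E3, a ≤ ‖x‖ → ‖fderiv ℝ (kk g h) x‖ ≤ 5 / 2 * linR g x +
      5 / 2 * (C' + 48 * C ^ 2) * 16 * (1 + ‖x‖) ^ (-4 : ℝ) := by
    intro x hx
    have hn : 0 < ‖x‖ := ha0.trans_le hx
    have hpos := hg.posDef x (hx0 x hx)
    have h1 := norm_le_quad hpos (hb x hx) (kk g h)
    have h2 := dec hg hh hD hk (hx0 x hx)
    obtain ⟨hv1, hv2⟩ := vol_bounds (hb x hx)
    obtain ⟨h3, -⟩ := hS g x (har.trans hx) (symm_ev hg (hx0 x hx))
      (fun i j => contDiffAt_of (hg.smooth i j) (hx0 x hx))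
      (fun i j => ⟨(hdec x hx i j).1, (hdec x hx i j).2.1, (hdec x hx i j).2.2.1⟩)
    set s := Real.sqrt (∑ i, ∑ j, (g x)⁻¹ i j * pd i (kk g h) x * pd j (kk g h) x) with hs
    have hs0 : 0 ≤ s := Real.sqrt_nonneg _
    set w := volDen g x with hw
    have h4 : scalarCurvature g x * w ≤ linR g x + C' / ‖x‖ ^ 4 := by
      have h5 := (le_abs_self _).trans h3
      linarith
    have h5 : kk g h x ^ 2 ≤ 4 * C ^ 2 / ‖x‖ ^ 4 := by
      rw [← sq_abs]
      refine (pow_le_pow_left₀ (abs_nonneg _) (hκ x hx) 2).trans (le_of_eq ?_)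
      field_simp
      ring
    have h6 : kk g h x ^ 2 * w ≤ 8 * C ^ 2 / ‖x‖ ^ 4 := by
      calc kk g h x ^ 2 * w ≤ kk g h x ^ 2 * 2 := by gcongr
        _ ≤ 4 * C ^ 2 / ‖x‖ ^ 4 * 2 := by gcongr
        _ = _ := by ring
    have h7 : 4 * s * w ≤ (scalarCurvature g x + 6 * kk g h x ^ 2) * w :=
      mul_le_mul_of_nonneg_right h2 (by linarith)
    have h8 : s * (1 / 2) ≤ s * w := mul_le_mul_of_nonneg_left hv1 hs0
    have h9 : (1 : ℝ) / ‖x‖ ^ 4 ≤ 16 * (1 + ‖x‖) ^ (-4 : ℝ) := by
      rw [Real.rpow_neg (by positivity), show (4 : ℝ) = ((4 : ℕ) : ℝ) by norm_num,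
        Real.rpow_natCast]
      rw [← div_eq_mul_inv, div_le_div_iff₀ (by positivity) (by positivity)]
      have h10 : 1 + ‖x‖ ≤ 2 * ‖x‖ := by linarith
      calc 1 * (1 + ‖x‖) ^ 4 ≤ 1 * (2 * ‖x‖) ^ 4 := by gcongr
        _ = 16 * ‖x‖ ^ 4 := by ring
    have h10 : (C' + 48 * C ^ 2) * (1 / ‖x‖ ^ 4) ≤
        (C' + 48 * C ^ 2) * (16 * (1 + ‖x‖) ^ (-4 : ℝ)) :=
      mul_le_mul_of_nonneg_left h9 (by positivity)
    have h11 : C' / ‖x‖ ^ 4 + 48 * C ^ 2 / ‖x‖ ^ 4 = (C' + 48 * C ^ 2) * (1 / ‖x‖ ^ 4) := by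
      ring
    have h12 : 8 * C ^ 2 / ‖x‖ ^ 4 = 48 * C ^ 2 / ‖x‖ ^ 4 / 6 := by ring
    nlinarith
  obtain ⟨K, hK⟩ := int_linR hDIVG hg ha0 hdec
  have hJ : Integrable (fun x : E3 => (1 + ‖x‖) ^ (-4 : ℝ)) := by
    refine integrable_one_add_norm ?_
    rw [finrank_euclideanSpace_fin]
    norm_num
  set D : ℝ := 5 / 2 * (C' + 48 * C ^ 2) * 16 with hDD
  have hD0 : 0 ≤ D := by positivity
  refine ⟨a, 5 / 2 * K + D * ∫ x : E3, (1 + ‖x‖) ^ (-4 : ℝ), 2 * C, ha1, hκ, hms,
    fun b hb' => ?_⟩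
  have hne : ∀ x ∈ cAnn a b, x ∈ ({0}ᶜ : Set E3) := fun x hx => ne_zero_of_mem ha0 hx
  have hi1 : IntegrableOn (fun x => ‖fderiv ℝ (kk g h) x‖) (cAnn a b) :=
    ((cont_fderiv (kk_smooth hg hh)).norm.mono hne).integrableOn_compact (isCompact_cAnn a b)
  have hi2 : IntegrableOn (fun x => 5 / 2 * linR g x) (cAnn a b) :=
    ((continuousOn_const.mul (linR_cont hg)).mono hne).integrableOn_compact (isCompact_cAnn a b)
  have hi3 : IntegrableOn (fun x : E3 => D * (1 + ‖x‖) ^ (-4 : ℝ)) (cAnn a b) :=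
    (hJ.const_mul D).integrableOn
  have h1 : ∫ x in cAnn a b, ‖fderiv ℝ (kk g h) x‖ ≤
      ∫ x in cAnn a b, (5 / 2 * linR g x + D * (1 + ‖x‖) ^ (-4 : ℝ)) :=
    setIntegral_mono_on hi1 (hi2.add hi3) (isClosed_cAnn a b).measurableSet
      fun x hx => hpt x hx.1
  rw [integral_add hi2 hi3, integral_const_mul, integral_const_mul] at h1
  have h2 : ∫ x in cAnn a b, (1 + ‖x‖) ^ (-4 : ℝ) ≤ ∫ x : E3, (1 + ‖x‖) ^ (-4 : ℝ) :=
    setIntegral_le_integral hJ (Filter.Eventually.of_forall fun x => by positivity)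
  have h3 := mul_le_mul_of_nonneg_left h2 hD0
  have h4 := hK b hb'
  linarith

end Mass

/-- The fast case. -/
theorem fast {h : TensorField} (hh : ∀ i j, Tendsto (fun x : E3 => ‖x‖ ^ 2 * h x i j)
    (Bornology.cobounded E3) (𝓝 0)) :
    Tendsto (fun l : ℝ => ∫ x in cAnn (l / 2) l, msz (h x) / l) atTop (𝓝 0) := by
  set v : ℝ := (volume : Measure E3).real (Metric.ball (0 : E3) 1) with hv
  have hv0 : 0 ≤ v := measureReal_nonneg
  rw [Metric.tendsto_atTop]
  intro e he
  set d : ℝ := e / (24 * (v + 1)) with hd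
  have hd0 : 0 < d := by positivity
  have hev : ∀ i j, ∀ᶠ x in Bornology.cobounded E3, |‖x‖ ^ 2 * h x i j| < d := by
    intro i j
    have h1 := (Metric.tendsto_nhds.mp (hh i j)) d hd0
    filter_upwards [h1] with x hx
    rwa [Real.dist_eq, sub_zero] at hx
  have hall : ∀ᶠ x in Bornology.cobounded E3, ∀ i j, |‖x‖ ^ 2 * h x i j| < d := by
    rw [Filter.eventually_all]
    intro i
    rw [Filter.eventually_all]
    exact hev i
  obtain ⟨R, hR⟩ : ∃ R : ℝ, ∀ x : E3, R ≤ ‖x‖ → ∀ i j, |‖x‖ ^ 2 * h x i j| < d := by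
    have h1 := (hasBasis_cobounded_norm (E := E3)).eventually_iff.mp hall
    obtain ⟨R, -, hR⟩ := h1
    exact ⟨R, fun x hx => hR hx⟩
  refine ⟨max 1 (2 * R), fun l hl => ?_⟩
  have hl1 : 1 ≤ l := (le_max_left _ _).trans hl
  have hl2 : 2 * R ≤ l := (le_max_right _ _).trans hl
  have hl0 : 0 < l := by linarith
  have hpt : ∀ x ∈ cAnn (l / 2) l, msz (h x) / l ≤ 12 * d / l ^ 3 := by
    intro x hx
    have hn : l / 2 ≤ ‖x‖ := hx.1
    have hn0 : 0 < ‖x‖ := by linarith
    have h1 := hR x (by linarith)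
    have h2 : ∀ i j, h x i j ^ 2 ≤ (4 * d / l ^ 2) ^ 2 := by
      intro i j
      have h3 := (h1 i j).le
      rw [abs_mul, abs_of_pos (pow_pos hn0 2)] at h3
      have h4 : |h x i j| ≤ 4 * d / l ^ 2 := by
        rw [le_div_iff₀ (by positivity)]
        have h5 : l ^ 2 ≤ 4 * ‖x‖ ^ 2 := by nlinarith
        calc |h x i j| * l ^ 2 ≤ |h x i j| * (4 * ‖x‖ ^ 2) := by gcongr
          _ = 4 * (‖x‖ ^ 2 * |h x i j|) := by ring
          _ ≤ 4 * d := by linarith
      rw [← sq_abs]
      exact pow_le_pow_left₀ (abs_nonneg _) h4 2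
    have h3 : msz (h x) ≤ 3 * (4 * d / l ^ 2) := by
      unfold msz
      rw [show 3 * (4 * d / l ^ 2) = Real.sqrt ((3 * (4 * d / l ^ 2)) ^ 2) from
        (Real.sqrt_sq (by positivity)).symm]
      refine Real.sqrt_le_sqrt ?_
      refine (Finset.sum_le_sum fun i _ => Finset.sum_le_sum fun j _ => h2 i j).trans ?_
      simp only [Finset.sum_const, Finset.card_univ, Fintype.card_fin, nsmul_eq_mul]
      refine le_of_eq ?_
      push_cast
      ring
    rw [div_le_div_iff₀ hl0 (by positivity)]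
    calc msz (h x) * l ^ 3 ≤ 3 * (4 * d / l ^ 2) * l ^ 3 := by gcongr
      _ = 12 * d * l := by
        field_simp
        ring
  have hnn : 0 ≤ ∫ x in cAnn (l / 2) l, msz (h x) / l :=
    integral_nonneg fun x => div_nonneg (Real.sqrt_nonneg _) hl0.le
  rw [Real.dist_eq, sub_zero, abs_of_nonneg hnn]
  have hvol : (volume : Measure E3).real (cAnn (l / 2) l) ≤ v * l ^ 3 := by
    have h9 : (volume : Measure E3).real (cAnn (l / 2) l) ≤
        (volume : Measure E3).real (Metric.closedBall (0 : E3) l) := by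
      refine measureReal_mono ?_ (measure_closedBall_lt_top).ne
      intro x hx
      rw [mem_closedBall_zero_iff]
      exact hx.2
    have h10 := Measure.addHaar_real_closedBall (volume : Measure E3) (0 : E3) hl0.le
    rw [finrank_euclideanSpace_fin] at h10
    rw [h10] at h9
    linarith
  have h1 : ∫ x in cAnn (l / 2) l, msz (h x) / l ≤
      12 * d / l ^ 3 * (volume : Measure E3).real (cAnn (l / 2) l) := by
    have h2 := norm_setIntegral_le_of_norm_le_const (μ := (volume : Measure E3))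
      (s := cAnn (l / 2) l) (f := fun x => msz (h x) / l) (C := 12 * d / l ^ 3)
      (isCompact_cAnn _ _).measure_lt_top (fun x hx => by
        have h3 : 0 ≤ msz (h x) / l := div_nonneg (Real.sqrt_nonneg _) hl0.le
        rw [Real.norm_of_nonneg h3]
        exact hpt x hx)
    rwa [Real.norm_of_nonneg hnn] at h2
  have h2 : 12 * d / l ^ 3 * (volume : Measure E3).real (cAnn (l / 2) l) ≤
      12 * d / l ^ 3 * (v * l ^ 3) := by gcongr
  have h3 : 12 * d / l ^ 3 * (v * l ^ 3) = 12 * d * v := by field_simp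
  have h4 : 12 * d * v < e := by
    rw [hd]
    have h5 : 12 * (e / (24 * (v + 1))) * v = e * (v / (v + 1)) / 2 := by
      field_simp
      ring
    rw [h5]
    have h6 : v / (v + 1) ≤ 1 := by
      rw [div_le_one (by positivity)]
      linarith
    nlinarith
  linarith

end LIMK

theorem LIMK (hDIVG : Stmt_DIVG) (hSCAL : Stmt_SCAL) : Stmt_LIMK := by
  intro g h m hT hD hP _
  rcases hP with ⟨k, hk⟩ | hfast
  · have hk' : ∀ x : E3, x ≠ 0 → h x = LIMK.kk g h x • g x := by
      intro x hx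
      rw [LIMK.kk_eq (hT.metric.posDef x hx) (hk x hx)]
      exact hk x hx
    obtain ⟨a, K, C, ha, h1, h2, h3⟩ := LIMK.int_fderiv hDIVG hSCAL hT hD hk'
    have hlim := (LIMK.shell_lim (LIMK.kk_smooth hT.metric hT.tensor) ha h1 h3).const_mul 4
    rw [mul_zero] at hlim
    refine tendsto_of_tendsto_of_tendsto_of_le_of_le' tendsto_const_nhds hlim ?_ ?_
    · filter_upwards [eventually_gt_atTop 0] with l hl
      exact integral_nonneg fun x => div_nonneg (Real.sqrt_nonneg _) hl.le
    · filter_upwards [eventually_ge_atTop (2 * a)] with l hl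
      have hl0 : 0 < l := by linarith
      have hne : ∀ x ∈ cAnn (l / 2) l, x ∈ ({0}ᶜ : Set E3) := fun x hx =>
        LIMK.ne_zero_of_mem (by linarith) hx
      rw [← integral_const_mul]
      refine setIntegral_mono_on ?_ ?_ (LIMK.isClosed_cAnn _ _).measurableSet fun x hx => ?_
      · refine ContinuousOn.integrableOn_compact (LIMK.isCompact_cAnn _ _) ?_
        refine ContinuousOn.div_const ?_ _
        unfold msz
        refine Real.continuous_sqrt.comp_continuousOn ?_
        refine continuousOn_finsetSum _ fun i _ => continuousOn_finsetSum _ fun j _ => ?_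
        exact ((hT.tensor.smooth i j).continuousOn.mono hne).pow 2
      · refine ContinuousOn.integrableOn_compact (LIMK.isCompact_cAnn _ _) ?_
        exact continuousOn_const.mul
          (((LIMK.kk_smooth hT.metric hT.tensor).continuousOn.mono hne).abs.div_const _)
      · have h4 := h2 x (by linarith [hx.1])
        rw [← mul_div_assoc]
        gcongr
  · exact LIMK.fast hfast

end Pool.Agent.PFlow


end
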