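import Mathlib.Analysis.Distribution.AEEqOfIntegralContDiff
import Pool.Agent.PFlow.StmtsE3
import Pool.Agent.PFlow.StmtsM
import Pool.Agent.PenroseM.C01
import Pool.Agent.PenroseM.C06
import Pool.Agent.PenroseM.C12

/-! Parts: PFlow.K.KBND, PFlow.P.Symm, PFlow.G.VOL, PFlow.M_MI, PFlow.E.SETW -/

section

/-!
# KBND: the bounds of the metric
-/

open MeasureTheory Filter Topology
open scoped ContDiff

namespace Pool.Agent.PFlow

open Pool.Agent.PenroseSph

namespace KBND

/-! ### Boundedness -/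

lemma bdd {f : E3 → ℝ} (hf : Continuous f) (r c : ℝ) (h : ∀ x, r ≤ ‖x‖ → f x = c) :
    ∃ C, 0 ≤ C ∧ ∀ x, |f x| ≤ C := by
  have hK : IsCompact (Metric.closedBall (0 : E3) r) := isCompact_closedBall _ _
  obtain ⟨C, hC⟩ := hK.exists_bound_of_continuousOn hf.continuousOn
  refine ⟨max C |c|, le_max_of_le_right (abs_nonneg c), fun x => ?_⟩
  by_cases hx : ‖x‖ ≤ r
  · have h1 := hC x (by simpa using hx)
    rw [Real.norm_eq_abs] at h1
    exact le_max_of_le_left h1
  · rw [h x (le_of_lt (not_le.mp hx))]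
    exact le_max_right _ _

lemma bddFin {ι : Type} [Fintype ι] {f : ι → E3 → ℝ}
    (h : ∀ i, ∃ C, 0 ≤ C ∧ ∀ x, |f i x| ≤ C) : ∃ C, 0 ≤ C ∧ ∀ i x, |f i x| ≤ C := by
  choose C hC0 hC using h
  refine ⟨∑ i, C i, Finset.sum_nonneg fun i _ => hC0 i, fun i x => (hC i x).trans ?_⟩
  exact Finset.single_le_sum (f := C) (fun j _ => hC0 j) (Finset.mem_univ i)

lemma pd_cont {f : E3 → ℝ} (hf : ContDiff ℝ ∞ f) (k : Fin 3) : Continuous (pd k f) := by
  have h1 : Continuous (fderiv ℝ f) := hf.continuous_fderiv (by simp)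
  exact h1.clm_apply continuous_const

lemma pd_far {f : E3 → ℝ} {r c : ℝ} (h : ∀ x, r ≤ ‖x‖ → f x = c) (k : Fin 3) (x : E3)
    (hx : r < ‖x‖) : pd k f x = 0 := by
  have h1 : f =ᶠ[𝓝 x] fun _ => c := by
    filter_upwards [(isOpen_lt continuous_const continuous_norm).mem_nhds hx] with y hy
    exact h y (le_of_lt hy)
  unfold pd
  rw [h1.fderiv_eq]
  simp

lemma bddPd {f : E3 → ℝ} (hf : ContDiff ℝ ∞ f) (r c : ℝ) (h : ∀ x, r ≤ ‖x‖ → f x = c)
    (k : Fin 3) : ∃ C, 0 ≤ C ∧ ∀ x, |pd k f x| ≤ C := by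
  refine bdd (pd_cont hf k) (r + 1) 0 fun x hx => pd_far h k x (by linarith)

/-! ### Algebra -/

lemma norm_vec_sq (p : Cov) : ‖vec p‖ ^ 2 = ∑ i, p i ^ 2 := by
  rw [EuclideanSpace.norm_eq, Real.sq_sqrt (Finset.sum_nonneg fun i _ => sq_nonneg _)]
  refine Finset.sum_congr rfl fun i _ => ?_
  rw [Real.norm_eq_abs, sq_abs]

lemma abs_le_norm_vec (p : Cov) (i : Fin 3) : |p i| ≤ ‖vec p‖ := by
  have h := PiLp.norm_apply_le (vec p) i
  rwa [Real.norm_eq_abs] at h

lemma bilin_le {G : Bil} {C : ℝ} (hG : ∀ i j, |G i j| ≤ C) (p : Cov) :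
    ev G p p ≤ 9 * C * ‖vec p‖ ^ 2 := by
  have h1 : ∀ i j : Fin 3, G i j * p i * p j ≤ C * ‖vec p‖ ^ 2 := by
    intro i j
    have a1 : G i j * p i * p j ≤ |G i j| * |p i| * |p j| := by
      rw [← abs_mul, ← abs_mul]; exact le_abs_self _
    have hC : 0 ≤ C := (abs_nonneg _).trans (hG i j)
    calc G i j * p i * p j ≤ |G i j| * |p i| * |p j| := a1
      _ ≤ C * ‖vec p‖ * ‖vec p‖ := by
          have b1 := hG i j
          have b2 := abs_le_norm_vec p i
          have b3 := abs_le_norm_vec p j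
          gcongr
      _ = C * ‖vec p‖ ^ 2 := by ring
  have h2 : ev G p p ≤ ∑ i : Fin 3, ∑ j : Fin 3, C * ‖vec p‖ ^ 2 :=
    Finset.sum_le_sum fun i _ => Finset.sum_le_sum fun j _ => h1 i j
  refine h2.trans (le_of_eq ?_)
  simp only [Fin.sum_univ_three]
  ring

/-- The quadratic form of `nsq` for a general matrix. -/
noncomputable def quad (G M : Bil) : ℝ :=
  ∑ i, ∑ j, ∑ k, ∑ l, G i k * G j l * M i j * M k l

lemma quad_le {G : Bil} {C : ℝ} (hG : ∀ i j, |G i j| ≤ C) (M : Bil) :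
    quad G M ≤ 9 * C ^ 2 * ∑ i, ∑ j, M i j ^ 2 := by
  have h1 : ∀ i j k l : Fin 3, G i k * G j l * M i j * M k l ≤
      C ^ 2 * ((M i j ^ 2 + M k l ^ 2) / 2) := by
    intro i j k l
    have hC : 0 ≤ C := (abs_nonneg _).trans (hG i k)
    have a1 : G i k * G j l * M i j * M k l ≤ |G i k| * |G j l| * (|M i j| * |M k l|) := by
      rw [← abs_mul, ← abs_mul, ← abs_mul]
      refine le_trans (le_of_eq ?_) (le_abs_self _)
      ring
    have a2 : |G i k| * |G j l| ≤ C ^ 2 := by
      have b1 := hG i k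
      have b2 := hG j l
      calc |G i k| * |G j l| ≤ C * C := by gcongr
        _ = C ^ 2 := by ring
    have a3 : |M i j| * |M k l| ≤ (M i j ^ 2 + M k l ^ 2) / 2 := by
      have := sq_nonneg (|M i j| - |M k l|)
      have e1 := sq_abs (M i j)
      have e2 := sq_abs (M k l)
      nlinarith
    refine a1.trans (mul_le_mul a2 a3 (by positivity) (by positivity))
  have h2 : quad G M ≤ ∑ i : Fin 3, ∑ j : Fin 3, ∑ k : Fin 3, ∑ l : Fin 3,
      C ^ 2 * ((M i j ^ 2 + M k l ^ 2) / 2) :=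
    Finset.sum_le_sum fun i _ => Finset.sum_le_sum fun j _ => Finset.sum_le_sum fun k _ =>
      Finset.sum_le_sum fun l _ => h1 i j k l
  refine h2.trans (le_of_eq ?_)
  simp only [Fin.sum_univ_three]
  ring

lemma quad_trace (G M : Bil) : quad G M = (M.transpose * G * M * G.transpose).trace := by
  unfold quad
  simp only [Matrix.trace, Matrix.diag_apply, Matrix.mul_apply, Matrix.transpose_apply,
    Fin.sum_univ_three]
  ring

lemma sumsq_trace (M : Bil) : ∑ i, ∑ j, M i j ^ 2 = (M.transpose * M).trace := by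
  simp only [Matrix.trace, Matrix.diag_apply, Matrix.mul_apply, Matrix.transpose_apply,
    Fin.sum_univ_three]
  ring

/-- The lower bound of the form `quad G`, `G = g⁻¹`, by a bound of `g`. -/
lemma quad_low {g G : Bil} {C : ℝ} (hC : 0 ≤ C) (hg : ∀ i j, |g i j| ≤ C)
    (h1 : G * g = 1) (h2 : g * G = 1) (s1 : g.transpose = g) (s2 : G.transpose = G)
    (hpos : ∀ B : Bil, 0 ≤ quad G B) (B : Bil) :
    ∑ i, ∑ j, B i j ^ 2 ≤ (9 * C ^ 2 + 1) * quad G B := by
  set D : ℝ := 9 * C ^ 2 + 1 with hD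
  have hDpos : 0 < D := by positivity
  set S : ℝ := ∑ i, ∑ j, B i j ^ 2 with hS
  have hS0 : 0 ≤ S := Finset.sum_nonneg fun i _ => Finset.sum_nonneg fun j _ => sq_nonneg _
  have hQ : quad g B ≤ D * S := by
    have := quad_le hg B
    rw [hD]
    nlinarith
  have key : quad G (B - D⁻¹ • (g * B * g)) = quad G B - 2 * D⁻¹ * S + D⁻¹ ^ 2 * quad g B := by
    have e1 : G * (g * B * g) * G = B := by
      calc G * (g * B * g) * G = (G * g) * B * (g * G) := by noncomm_ring
        _ = B := by rw [h1, h2, one_mul, mul_one]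
    have e2 : (g * B * g).transpose = g * B.transpose * g := by
      rw [Matrix.transpose_mul, Matrix.transpose_mul, s1, Matrix.mul_assoc]
    have t1 : (B.transpose * G * (g * B * g) * G).trace = S := by
      rw [hS, sumsq_trace]
      congr 1
      calc B.transpose * G * (g * B * g) * G = B.transpose * (G * (g * B * g) * G) := by
            noncomm_ring
        _ = B.transpose * B := by rw [e1]
    have t2 : ((g * B * g).transpose * G * B * G).trace = S := by
      rw [hS, sumsq_trace, e2]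
      have : g * B.transpose * g * G * B * G = g * (B.transpose * B * G) := by
        calc g * B.transpose * g * G * B * G = g * B.transpose * (g * G) * B * G := by
              noncomm_ring
          _ = g * (B.transpose * B * G) := by rw [h2]; noncomm_ring
      rw [this, Matrix.trace_mul_comm]
      congr 1
      rw [Matrix.mul_assoc, h1, mul_one]
    have t3 : ((g * B * g).transpose * G * (g * B * g) * G).trace = quad g B := by
      rw [quad_trace, s1]
      have : (g * B * g).transpose * G * (g * B * g) * G = g * (B.transpose * g * B) := by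
        calc (g * B * g).transpose * G * (g * B * g) * G
            = (g * B * g).transpose * (G * (g * B * g) * G) := by noncomm_ring
          _ = g * (B.transpose * g * B) := by rw [e1, e2]; noncomm_ring
      rw [this, Matrix.trace_mul_comm]
    have t0 : quad G B = (B.transpose * G * B * G).trace := by rw [quad_trace, s2]
    rw [t0, quad_trace, s2]
    have e3 : (B - D⁻¹ • (g * B * g)).transpose * G * (B - D⁻¹ • (g * B * g)) * G =
        B.transpose * G * B * G - D⁻¹ • (B.transpose * G * (g * B * g) * G) -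
          D⁻¹ • ((g * B * g).transpose * G * B * G) +
          (D⁻¹ ^ 2) • ((g * B * g).transpose * G * (g * B * g) * G) := by
      rw [Matrix.transpose_sub, Matrix.transpose_smul]
      simp only [Matrix.sub_mul, Matrix.mul_sub, Matrix.smul_mul, Matrix.mul_smul, smul_smul,
        smul_sub]
      rw [pow_two]
      abel
    rw [e3, Matrix.trace_add, Matrix.trace_sub, Matrix.trace_sub, Matrix.trace_smul,
      Matrix.trace_smul, Matrix.trace_smul, t1, t2, t3]
    simp only [smul_eq_mul]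
    ring
  have h3 := hpos (B - D⁻¹ • (g * B * g))
  rw [key] at h3
  have h4 : D⁻¹ ^ 2 * quad g B ≤ D⁻¹ * S := by
    calc D⁻¹ ^ 2 * quad g B ≤ D⁻¹ ^ 2 * (D * S) := by gcongr
      _ = D⁻¹ * S := by field_simp
  have h5 : D⁻¹ * S ≤ quad G B := by linarith
  calc S = D * (D⁻¹ * S) := by field_simp
    _ ≤ D * quad G B := by gcongr

end KBND

open KBND

theorem KBND_thm (h1 : KSM) (h2 : KTN) : KBND := by
  intro g h r hd
  obtain ⟨sG, sV, sC⟩ := h1 g h r hd
  have gSm : ∀ i j, ContDiff ℝ ∞ (fun x => g x i j) := fun i j =>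
    contDiffOn_univ.mp (hd.met.smooth i j)
  have hSm : ∀ i j, ContDiff ℝ ∞ (fun x => h x i j) := fun i j =>
    contDiffOn_univ.mp (hd.ten.smooth i j)
  have gFar : ∀ i j (x : E3), r ≤ ‖x‖ → g x i j = (1 : Bil) i j := fun i j x hx => by
    rw [(hd.flat x hx).1]
  have GFar : ∀ i j (x : E3), r ≤ ‖x‖ → (g x)⁻¹ i j = (1 : Bil) i j := fun i j x hx => by
    rw [(hd.flat x hx).1, inv_one]
  have vFar : ∀ x : E3, r ≤ ‖x‖ → volDen g x = 1 := fun x hx => by
    unfold volDen
    rw [(hd.flat x hx).1, Matrix.det_one, Real.sqrt_one]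
  have hFar : ∀ i j (x : E3), r ≤ ‖x‖ → h x i j = 0 := fun i j x hx => by
    rw [(hd.flat x hx).2]; rfl
  have pD : ∀ x, (g x).PosDef := fun x => hd.met.posDef x (Set.mem_univ x)
  have vPos : ∀ x, 0 < volDen g x := fun x => Real.sqrt_pos.mpr (pD x).det_pos
  have cFar : ∀ k i j (x : E3), r + 1 ≤ ‖x‖ → christoffel g k i j x = 0 := by
    intro k i j x hx
    unfold christoffel
    have a : ∀ m a b, pd m (fun y => g y a b) x = 0 := fun m a b =>
      pd_far (fun y hy => gFar a b y hy) m x (by linarith)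
    simp [a]
  -- constants
  obtain ⟨Cg, Cg0, hCg⟩ := bddFin (ι := Fin 3 × Fin 3) (f := fun q x => g x q.1 q.2)
    (fun q => bdd (gSm q.1 q.2).continuous r _ (gFar q.1 q.2))
  obtain ⟨CG, CG0, hCG⟩ := bddFin (ι := Fin 3 × Fin 3) (f := fun q x => (g x)⁻¹ q.1 q.2)
    (fun q => bdd (sG q.1 q.2).continuous r _ (GFar q.1 q.2))
  obtain ⟨Ch, Ch0, hCh⟩ := bddFin (ι := Fin 3 × Fin 3) (f := fun q x => h x q.1 q.2)
    (fun q => bdd (hSm q.1 q.2).continuous r _ (hFar q.1 q.2))
  obtain ⟨Cc, Cc0, hCc⟩ := bddFin (ι := Fin 3 × Fin 3 × Fin 3)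
    (f := fun q x => christoffel g q.1 q.2.1 q.2.2 x)
    (fun q => bdd (sC q.1 q.2.1 q.2.2).continuous (r + 1) 0 (cFar q.1 q.2.1 q.2.2))
  obtain ⟨Ci, Ci0, hCi⟩ := bddFin (ι := Fin 3 × Fin 3 × Fin 3)
    (f := fun q x => pd q.2.2 (fun y => (g y)⁻¹ q.1 q.2.1) x)
    (fun q => bddPd (sG q.1 q.2.1) r _ (GFar q.1 q.2.1) q.2.2)
  obtain ⟨Cd, Cd0, hCd⟩ := bddFin (ι := Fin 3) (f := fun q x => pd q (volDen g) x)
    (fun q => bddPd sV r _ vFar q)
  obtain ⟨Cv, Cv0, hCv⟩ := bdd sV.continuous r 1 vFar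
  obtain ⟨Cw, Cw0, hCw⟩ := bdd (f := fun x => (volDen g x)⁻¹)
    (sV.continuous.inv₀ fun x => (vPos x).ne') r 1 (fun x hx => by
      change (volDen g x)⁻¹ = 1
      rw [vFar x hx, inv_one])
  have hCg' : ∀ x i j, |g x i j| ≤ Cg := fun x i j => hCg (i, j) x
  have hCG' : ∀ x i j, |(g x)⁻¹ i j| ≤ CG := fun x i j => hCG (i, j) x
  -- symmetric and inverse matrices
  have sym1 : ∀ x, (g x).transpose = g x := fun x => by
    have := (pD x).isHermitian
    rw [Matrix.IsHermitian, Matrix.conjTranspose_eq_transpose_of_trivial] at this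
    exact this
  have sym2 : ∀ x, ((g x)⁻¹).transpose = (g x)⁻¹ := fun x => by
    rw [Matrix.transpose_nonsing_inv, sym1 x]
  have u1 : ∀ x, IsUnit (g x).det := fun x => isUnit_iff_ne_zero.mpr (pD x).det_pos.ne'
  have i1 : ∀ x, (g x)⁻¹ * g x = 1 := fun x => Matrix.nonsing_inv_mul _ (u1 x)
  have i2 : ∀ x, g x * (g x)⁻¹ = 1 := fun x => Matrix.mul_nonsing_inv _ (u1 x)
  -- the lower bound of `lsq`
  have low : ∀ (x : E3) (p : Cov), ‖vec p‖ ^ 2 ≤ 9 * Cg * lsq g x p := by
    intro x p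
    obtain ⟨l0, -, -, -, lcs, -⟩ := h2 g x (pD x) p
    set q : Cov := (g x).mulVec p with hq
    have e1 : ev (g x)⁻¹ p q = ‖vec p‖ ^ 2 := by
      rw [norm_vec_sq]
      have : ev (g x)⁻¹ p q = p ⬝ᵥ (g x)⁻¹.mulVec q := by
        simp only [ev, dotProduct, Matrix.mulVec, Fin.sum_univ_three]
        ring
      rw [this, hq, Matrix.mulVec_mulVec, i1, Matrix.one_mulVec]
      simp only [dotProduct, Fin.sum_univ_three]
      ring
    have e2 : lsq g x q = ev (g x) p p := by
      have : lsq g x q = (g x)⁻¹.mulVec q ⬝ᵥ q := by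
        simp only [lsq, ev, dotProduct, Matrix.mulVec, Fin.sum_univ_three]
        ring
      rw [this, hq, Matrix.mulVec_mulVec, i1, Matrix.one_mulVec]
      simp only [ev, dotProduct, Matrix.mulVec, Fin.sum_univ_three]
      ring
    have e3 := lcs q
    rw [e1, e2] at e3
    have e4 := bilin_le (hCg' x) p
    by_cases hp : ‖vec p‖ ^ 2 = 0
    · rw [hp]; positivity
    · have hp' : 0 < ‖vec p‖ ^ 2 := lt_of_le_of_ne (sq_nonneg _) (Ne.symm hp)
      have e5 : (‖vec p‖ ^ 2) ^ 2 ≤ (9 * Cg * lsq g x p) * ‖vec p‖ ^ 2 := by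
        calc (‖vec p‖ ^ 2) ^ 2 ≤ lsq g x p * ev (g x) p p := e3
          _ ≤ lsq g x p * (9 * Cg * ‖vec p‖ ^ 2) := by gcongr
          _ = _ := by ring
      rw [pow_two (‖vec p‖ ^ 2)] at e5
      exact le_of_mul_le_mul_right e5 hp'
  -- raise
  have rai : ∀ (x : E3) (p : Cov), ‖vec (raise g x p)‖ ≤ 6 * CG * ‖vec p‖ := by
    intro x p
    have c1 : ∀ i, (raise g x p i) ^ 2 ≤ (3 * CG * ‖vec p‖) ^ 2 := by
      intro i
      rw [← sq_abs]
      have : |raise g x p i| ≤ 3 * CG * ‖vec p‖ := by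
        unfold raise
        refine (Finset.abs_sum_le_sum_abs _ _).trans ?_
        have : ∀ j ∈ (Finset.univ : Finset (Fin 3)), |(g x)⁻¹ i j * p j| ≤ CG * ‖vec p‖ := by
          intro j _
          rw [abs_mul]
          exact mul_le_mul (hCG' x i j) (abs_le_norm_vec p j) (abs_nonneg _) CG0
        refine (Finset.sum_le_sum this).trans (le_of_eq ?_)
        simp only [Fin.sum_univ_three]
        ring
      gcongr
    have c2 : ‖vec (raise g x p)‖ ^ 2 ≤ 3 * (3 * CG * ‖vec p‖) ^ 2 := by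
      rw [norm_vec_sq]
      refine (Finset.sum_le_sum fun i _ => c1 i).trans (le_of_eq ?_)
      simp only [Fin.sum_univ_three]
      ring
    by_contra hcon
    push Not at hcon
    have c3 : (6 * CG * ‖vec p‖) ^ 2 < ‖vec (raise g x p)‖ ^ 2 :=
      pow_lt_pow_left₀ hcon (by positivity) two_ne_zero
    nlinarith [sq_nonneg (CG * ‖vec p‖)]
  have nsq_quad : ∀ (x : E3) (M : Bil), nsq g x M = quad (g x)⁻¹ M := fun _ _ => rfl
  have qpos : ∀ (x : E3) (M : Bil), 0 ≤ quad (g x)⁻¹ M := fun x M => by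
    obtain ⟨-, -, -, -, -, -, n0, -⟩ := h2 g x (pD x) 0
    exact n0 M
  -- the constant
  set C : ℝ := 1 + (9 * CG + 9 * Cg + Cv + Cw + CG + 6 * CG + Cc + Ch + Ci + Cd + 9 * CG ^ 2 +
    (9 * Cg ^ 2 + 1)) with hC
  have le : ∀ a : ℝ, a ≤ 9 * CG + 9 * Cg + Cv + Cw + CG + 6 * CG + Cc + Ch + Ci + Cd +
      9 * CG ^ 2 + (9 * Cg ^ 2 + 1) → a ≤ C := fun a ha => by rw [hC]; linarith
  have p1 : 0 ≤ 9 * CG ^ 2 := by positivity
  have p2 : 0 ≤ 9 * Cg ^ 2 := by positivity
  refine ⟨C, ?_⟩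
  refine
    { one := ?_
      up := ?_
      low := ?_
      volUp := ?_
      volLow := ?_
      inv := ?_
      raise := ?_
      chr := ?_
      hh := ?_
      tr := ?_
      dinv := ?_
      dvol := ?_
      nsqUp := ?_
      nsqLow := ?_ }
  · rw [hC]; linarith
  · intro x p
    refine (bilin_le (hCG' x) p).trans ?_
    have : 9 * CG ≤ C := le _ (by linarith)
    gcongr
  · intro x p
    obtain ⟨l0, -⟩ := h2 g x (pD x) p
    refine (low x p).trans ?_
    have : 9 * Cg ≤ C := le _ (by linarith)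
    gcongr
  · intro x
    exact ((le_abs_self _).trans (hCv x)).trans (le _ (by linarith))
  · intro x
    have a1 : (volDen g x)⁻¹ ≤ Cw := (le_abs_self _).trans (hCw x)
    have a2 : Cw ≤ C := le _ (by linarith)
    have a3 := vPos x
    calc (1 : ℝ) = (volDen g x)⁻¹ * volDen g x := (inv_mul_cancel₀ a3.ne').symm
      _ ≤ C * volDen g x := by
          have : (volDen g x)⁻¹ ≤ C := a1.trans a2
          gcongr
  · intro x i j
    exact (hCG' x i j).trans (le _ (by linarith))
  · intro x p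
    refine (rai x p).trans ?_
    have : 6 * CG ≤ C := le _ (by linarith)
    gcongr
  · intro x k i j
    exact (hCc (k, i, j) x).trans (le _ (by linarith))
  · intro x i j
    exact (hCh (i, j) x).trans (le _ (by linarith))
  · intro x M
    have a2 : CG ≤ C := le _ (by linarith)
    unfold trg
    refine (Finset.abs_sum_le_sum_abs _ _).trans ?_
    rw [Finset.mul_sum]
    refine Finset.sum_le_sum fun i _ => ?_
    refine (Finset.abs_sum_le_sum_abs _ _).trans ?_
    rw [Finset.mul_sum]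
    refine Finset.sum_le_sum fun j _ => ?_
    rw [abs_mul]
    exact mul_le_mul_of_nonneg_right ((hCG' x i j).trans a2) (abs_nonneg _)
  · intro x i j k
    exact (hCi (i, j, k) x).trans (le _ (by linarith))
  · intro x k
    exact (hCd k x).trans (le _ (by linarith))
  · intro x M
    rw [nsq_quad]
    refine (quad_le (hCG' x) M).trans ?_
    have a2 : 9 * CG ^ 2 ≤ C := le _ (by linarith)
    have a3 : 0 ≤ ∑ i, ∑ j, M i j ^ 2 :=
      Finset.sum_nonneg fun i _ => Finset.sum_nonneg fun j _ => sq_nonneg _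
    gcongr
  · intro x M
    rw [nsq_quad]
    refine (quad_low Cg0 (hCg' x) (i1 x) (i2 x) (sym1 x) (sym2 x) (qpos x) M).trans ?_
    have a2 : 9 * Cg ^ 2 + 1 ≤ C := le _ (by linarith)
    have a3 := qpos x M
    gcongr

end Pool.Agent.PFlow


end

section

/-!
# Block P, module SYMM: the second derivatives are symmetric
-/

open MeasureTheory Filter Topology Set
open scoped ContDiff RealInnerProductSpace

namespace Pool.Agent.PFlow.PB

open Pool.Agent.PenroseSph Pool.Agent.PFlow

namespace Symm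

theorem test_pd {φ : E3 → ℝ} (h : Test φ) (j : Fin 3) : Test (pd j φ) := by
  refine ⟨?_, pd_cpt φ h.cpt j⟩
  have h1 : ContDiff ℝ ∞ (fderiv ℝ φ) := h.smooth.fderiv_right (by simp)
  exact h1.clm_apply contDiff_const

theorem pd_comm {φ : E3 → ℝ} (h : Test φ) (i j : Fin 3) (x : E3) :
    pd i (pd j φ) x = pd j (pd i φ) x := by
  have h1 : ContDiffAt ℝ 2 φ x := (h.smooth.of_le (WithTop.coe_le_coe.mpr le_top)).contDiffAt
  have hs : IsSymmSndFDerivAt ℝ φ x := h1.isSymmSndFDerivAt (by simp)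
  have hd : DifferentiableAt ℝ (fderiv ℝ φ) x := by
    have h2 : ContDiff ℝ ∞ (fderiv ℝ φ) := h.smooth.fderiv_right (by simp)
    exact h2.differentiable (by simp) x
  have key : ∀ a b : Fin 3, pd a (pd b φ) x = fderiv ℝ (fderiv ℝ φ) x (ee a) (ee b) := by
    intro a b
    have e1 : pd b φ = fun y => fderiv ℝ φ y (ee b) := rfl
    rw [pd_eq, e1]
    have h3 : HasFDerivAt (fun y => fderiv ℝ φ y (ee b))
        ((ContinuousLinearMap.apply ℝ ℝ (ee b)).comp (fderiv ℝ (fderiv ℝ φ) x)) x :=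
      (ContinuousLinearMap.apply ℝ ℝ (ee b)).hasFDerivAt.comp x hd.hasFDerivAt
    rw [h3.fderiv]
    rfl
  rw [key i j, key j i]
  exact hs (ee i) (ee j)

end Symm

open Symm in
theorem symm_thm (h1 : API1) (hc : CHAIN) : SYMM := by
  intro u G M h
  constructor
  · rw [ae_all_iff]
    intro i
    rw [ae_all_iff]
    intro j
    have hM : ∀ a b, MemLp (fun x => M a x b) 2 := fun a b => memLp_comp (M a) (h.h2 a).memG b
    have key : ∀ φ : E3 → ℝ, Test φ → ∀ a b,
        ∫ x, M a x b * φ x = ∫ x, u x * pd a (pd b φ) x := by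
      intro φ hφ a b
      have e1 := h1.wgrad _ _ (h.h2 a) φ hφ b
      have e2 := h1.wgrad _ _ h.h1 (pd b φ) (test_pd hφ b) a
      rw [e2, e1, neg_neg]
    have hmem : MemLp (fun x => M i x j - M j x i) 2 := (hM i j).sub (hM j i)
    have hloc : ∀ f : E3 → ℝ, MemLp f 2 → LocallyIntegrable f :=
      fun f hf => hf.locallyIntegrable (by norm_num)
    have h0 : ∀ᵐ x, (fun x => M i x j - M j x i) x = 0 := by
      apply ae_eq_zero_of_integral_contDiff_smul_eq_zero (hloc _ hmem)
      intro g hg hgc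
      have hT : Test g := ⟨hg, hgc⟩
      have hI : ∀ a b, Integrable (fun x => g x * M a x b) := by
        intro a b
        have := (hloc _ (hM a b)).integrable_smul_left_of_hasCompactSupport hg.continuous hgc
        exact this
      have e1 : (fun x => g x • (M i x j - M j x i)) = fun x => g x * M i x j - g x * M j x i := by
        funext x
        rw [smul_eq_mul, mul_sub]
      rw [e1, integral_sub (hI i j) (hI j i)]
      have e2 : ∀ a b, ∫ x, g x * M a x b = ∫ x, u x * pd a (pd b g) x := by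
        intro a b
        rw [← key g hT a b]
        congr 1
        funext x
        ring
      rw [e2, e2, sub_eq_zero]
      congr 1
      funext x
      rw [pd_comm hT i j x]
    filter_upwards [h0] with x hx
    exact sub_eq_zero.mp hx
  · have h2 : ∀ i, ∀ᵐ x, G x i = 0 → M i x = 0 := fun i => hc.zero _ _ (h.h2 i)
    rw [← ae_all_iff] at h2
    filter_upwards [h2] with x hx hG i
    apply hx i
    rw [hG]
    rfl

end Pool.Agent.PFlow.PB


end

section

/-!
# Block GB: (VOL) the volume of a thin piece of a shell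
-/

open MeasureTheory Filter Topology
open scoped ContDiff

namespace Pool.Agent.PFlow.GB

open Pool.Agent.PenroseSph Pool.Agent.PFlow

namespace VOLaux

theorem vol_fin (A : Set (Fin 3 → ℝ)) (hA : MeasurableSet A) (k : Fin 3) (x : Fin 3 → ℝ)
    (r D : ℝ) (hr : 0 ≤ r) (_hD : 0 ≤ D) (h1 : ∀ y ∈ A, ∀ j, |y j - x j| ≤ r)
    (h2 : ∀ y ∈ A, ∀ y' ∈ A, (∀ j, j ≠ k → y j = y' j) → |y k - y' k| ≤ D) :
    volume A ≤ ENNReal.ofReal ((2 * r) ^ 2 * D) := by
  have hmp := (volume_preserving_piFinSuccAbove (fun _ : Fin 3 => ℝ) k).symm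
  rw [← hmp.measure_preimage hA.nullMeasurableSet]
  have hm : MeasurableSet ((MeasurableEquiv.piFinSuccAbove (fun _ : Fin 3 => ℝ) k).symm ⁻¹' A) :=
    (MeasurableEquiv.piFinSuccAbove (fun _ : Fin 3 => ℝ) k).symm.measurable hA
  rw [Measure.volume_eq_prod, Measure.prod_apply_symm hm]
  let Bx : Set (Fin 2 → ℝ) :=
    Set.Icc (fun j => x (k.succAbove j) - r) (fun j => x (k.succAbove j) + r)
  have hpt : ∀ z : Fin 2 → ℝ, volume ((fun a : ℝ => (a, z)) ⁻¹'
      ((MeasurableEquiv.piFinSuccAbove (fun _ : Fin 3 => ℝ) k).symm ⁻¹' A)) ≤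
      Bx.indicator (fun _ => ENNReal.ofReal D) z := by
    intro z
    have hmem : ∀ a : ℝ, a ∈ ((fun a : ℝ => (a, z)) ⁻¹'
        ((MeasurableEquiv.piFinSuccAbove (fun _ : Fin 3 => ℝ) k).symm ⁻¹' A)) ↔
        (Fin.insertNth k a z : Fin 3 → ℝ) ∈ A := fun a => Iff.rfl
    by_cases hz : z ∈ Bx
    · rw [Set.indicator_of_mem hz]
      refine (Real.volume_le_diam _).trans (Metric.ediam_le fun a ha a' ha' => ?_)
      rw [hmem] at ha ha'
      have h3 := h2 _ ha _ ha' (fun j hj => by
        obtain ⟨i, rfl⟩ := Fin.exists_succAbove_eq hj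
        rw [Fin.insertNth_apply_succAbove, Fin.insertNth_apply_succAbove])
      rw [Fin.insertNth_apply_same, Fin.insertNth_apply_same] at h3
      rw [edist_dist, Real.dist_eq]
      exact ENNReal.ofReal_le_ofReal h3
    · rw [Set.indicator_of_notMem hz]
      have he : ((fun a : ℝ => (a, z)) ⁻¹'
          ((MeasurableEquiv.piFinSuccAbove (fun _ : Fin 3 => ℝ) k).symm ⁻¹' A)) = ∅ := by
        rw [Set.eq_empty_iff_forall_notMem]
        intro a ha
        rw [hmem] at ha
        apply hz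
        constructor
        · intro i
          have := h1 _ ha (k.succAbove i)
          rw [Fin.insertNth_apply_succAbove, abs_le] at this
          linarith [this.1]
        · intro i
          have := h1 _ ha (k.succAbove i)
          rw [Fin.insertNth_apply_succAbove, abs_le] at this
          linarith [this.2]
      rw [he, measure_empty]
  calc ∫⁻ z, volume ((fun a : ℝ => (a, z)) ⁻¹'
      ((MeasurableEquiv.piFinSuccAbove (fun _ : Fin 3 => ℝ) k).symm ⁻¹' A))
      ≤ ∫⁻ z, Bx.indicator (fun _ => ENNReal.ofReal D) z := lintegral_mono hpt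
    _ = ENNReal.ofReal D * volume Bx := lintegral_indicator_const measurableSet_Icc _
    _ = ENNReal.ofReal ((2 * r) ^ 2 * D) := by
        rw [Real.volume_Icc_pi, Fin.prod_univ_two, mul_comm, ENNReal.ofReal_mul (by positivity)]
        congr 1
        rw [← ENNReal.ofReal_mul (by linarith)]
        congr 1
        ring

theorem vol_E3 (A : Set E3) (hA : MeasurableSet A) (k : Fin 3) (x : E3)
    (r D : ℝ) (hr : 0 ≤ r) (hD : 0 ≤ D) (h1 : ∀ y ∈ A, ∀ j, |y j - x j| ≤ r)
    (h2 : ∀ y ∈ A, ∀ y' ∈ A, (∀ j, j ≠ k → y j = y' j) → |y k - y' k| ≤ D) :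
    volume A ≤ ENNReal.ofReal ((2 * r) ^ 2 * D) := by
  rw [← (PiLp.volume_preserving_toLp (Fin 3)).measure_preimage hA.nullMeasurableSet]
  refine vol_fin _ ((PiLp.volume_preserving_toLp (Fin 3)).measurable hA) k (fun j => x j) r D hr hD
    (fun y hy j => h1 _ hy j) (fun y hy y' hy' h => h2 _ hy _ hy' h)

/-- The local statement. -/
theorem local_vol {V : Set E3} {a b : ℝ} {g : TensorField} {W : E3 → ℝ} (hF : Fol V a b g W)
    {R : ℝ} (hR : 0 < R) {x0 : E3} (hx0 : x0 ∈ V) : ∃ C t0 δ : ℝ, 0 < C ∧ 0 < t0 ∧ 0 < δ ∧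
      ∀ x ∈ Metric.ball x0 δ, ∀ t : ℝ, 0 < t → t < t0 →
        volume {y | dist x y ≤ R * Real.sqrt t ∧ |W x - W y| ≤ t} ≤
          ENNReal.ofReal (C * t ^ 2) := by
  obtain ⟨k, hk⟩ : ∃ k, pd k W x0 ≠ 0 := by
    by_contra hcon
    push Not at hcon
    exact hF.regular x0 hx0 (funext hcon)
  have hp : 0 < |pd k W x0| := abs_pos.mpr hk
  have hcont : ContinuousAt (fun y => pd k W y) x0 := by
    have h1 : ContinuousAt (fderiv ℝ W) x0 :=
      ((hF.contDiffAt hx0).fderiv_right (m := 0) (by norm_num)).continuousAt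
    exact h1.clm_apply continuousAt_const
  have hev : ∀ᶠ y in 𝓝 x0, y ∈ V ∧ |pd k W y - pd k W x0| < |pd k W x0| / 2 := by
    have h1 : ∀ᶠ y in 𝓝 x0, y ∈ V := hF.isOpen.mem_nhds hx0
    have h2 := Metric.tendsto_nhds.mp hcont (|pd k W x0| / 2) (by positivity)
    exact h1.and h2
  obtain ⟨ε, hε, hball⟩ := Metric.eventually_nhds_iff_ball.mp hev
  refine ⟨16 * R ^ 2 / |pd k W x0|, (ε / 2 / R) ^ 2, ε / 2, by positivity, by positivity,
    by positivity, ?_⟩
  intro x hx t ht ht0
  have hst : R * Real.sqrt t < ε / 2 := by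
    have : Real.sqrt t < ε / 2 / R := (Real.sqrt_lt' (by positivity)).mpr ht0
    rw [lt_div_iff₀ hR] at this
    linarith
  have hsub : ∀ y, dist x y ≤ R * Real.sqrt t → y ∈ Metric.ball x0 ε := by
    intro y hy
    rw [Metric.mem_ball] at hx ⊢
    have := dist_triangle y x x0
    rw [dist_comm x y] at hy
    linarith
  have hWc : ContinuousOn W (Metric.closedBall x (R * Real.sqrt t)) := by
    refine hF.continuousOn.mono fun y hy => ?_
    rw [Metric.mem_closedBall, dist_comm] at hy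
    exact (hball y (hsub y hy)).1
  have hclosed : IsClosed {y | dist x y ≤ R * Real.sqrt t ∧ |W x - W y| ≤ t} := by
    have h1 := (ContinuousOn.preimage_isClosed_of_isClosed (f := fun y => |W x - W y|)
      (continuousOn_const.sub hWc).abs Metric.isClosed_closedBall (isClosed_Iic (a := t)))
    convert h1 using 1
    ext y
    change (dist x y ≤ R * Real.sqrt t ∧ |W x - W y| ≤ t) ↔ _
    simp only [Set.mem_inter_iff, Metric.mem_closedBall, Set.mem_preimage,
      Set.mem_Iic, dist_comm x y]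
  have hD : ∀ y ∈ {y | dist x y ≤ R * Real.sqrt t ∧ |W x - W y| ≤ t},
      ∀ y' ∈ {y | dist x y ≤ R * Real.sqrt t ∧ |W x - W y| ≤ t},
      (∀ j, j ≠ k → y j = y' j) → |y k - y' k| ≤ 4 * t / |pd k W x0| := by
    intro y hy y' hy' hj
    set s : ℝ := y' k - y k with hs
    set ek : E3 := EuclideanSpace.single k (1 : ℝ) with hek
    have hyy : y' = y + s • ek := by
      ext j
      by_cases hjk : j = k
      · rw [hjk]
        simp [hek, hs]
      · rw [← hj j hjk]
        simp [hek, hjk]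
    have hmem : ∀ τ ∈ Set.uIcc (0 : ℝ) s, y + τ • ek ∈ Metric.ball x0 ε := by
      intro τ hτ
      have h1 : Convex ℝ ((fun τ : ℝ => y + τ • ek) ⁻¹' Metric.ball x0 ε) := by
        intro τ1 h1 τ2 h2 p q hp0 hq0 hpq
        have e1 : y + (p • τ1 + q • τ2) • ek = p • (y + τ1 • ek) + q • (y + τ2 • ek) := by
          have e2 : y = (p + q) • y := by rw [hpq, one_smul]
          conv_lhs => rw [e2]
          simp only [smul_eq_mul]
          module
        change y + (p • τ1 + q • τ2) • ek ∈ Metric.ball x0 ε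
        rw [e1]
        exact convex_ball x0 ε h1 h2 hp0 hq0 hpq
      refine (h1.segment_subset ?_ ?_) (by rw [segment_eq_uIcc]; exact hτ)
      · change y + (0 : ℝ) • ek ∈ Metric.ball x0 ε
        rw [zero_smul, add_zero]
        exact hsub y hy.1
      · change y + s • ek ∈ Metric.ball x0 ε
        rw [← hyy]
        exact hsub y' hy'.1
    have hder : ∀ τ ∈ Set.uIcc (0 : ℝ) s, HasDerivWithinAt
        (fun τ : ℝ => W (y + τ • ek) - pd k W x0 * τ)
        (pd k W (y + τ • ek) - pd k W x0) (Set.uIcc (0 : ℝ) s) τ := by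
      intro τ hτ
      have hd : DifferentiableAt ℝ W (y + τ • ek) :=
        (hF.contDiffAt (hball _ (hmem τ hτ)).1).differentiableAt (by norm_num)
      have h1 : HasDerivAt (fun τ : ℝ => y + τ • ek) ek τ := by
        have := ((hasDerivAt_id τ).smul_const ek).const_add y
        simpa using this
      have h2 : HasDerivAt (fun τ : ℝ => W (y + τ • ek)) (pd k W (y + τ • ek)) τ :=
        hd.hasFDerivAt.comp_hasDerivAt τ h1
      have h3 : HasDerivAt (fun τ : ℝ => pd k W x0 * τ) (pd k W x0) τ := by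
        simpa using (hasDerivAt_id τ).const_mul (pd k W x0)
      exact (h2.sub h3).hasDerivWithinAt
    have hmv := (convex_uIcc (0 : ℝ) s).norm_image_sub_le_of_norm_hasDerivWithin_le hder
      (C := |pd k W x0| / 2) (fun τ hτ => (hball _ (hmem τ hτ)).2.le)
      Set.left_mem_uIcc Set.right_mem_uIcc
    rw [← hyy] at hmv
    simp only [zero_smul, add_zero, mul_zero, sub_zero, Real.norm_eq_abs] at hmv
    have h4 : |W y' - W y| ≤ 2 * t := by
      have e1 : W y' - W y = (W x - W y) - (W x - W y') := by ring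
      rw [e1]
      have := abs_sub (W x - W y) (W x - W y')
      linarith [hy.2, hy'.2]
    have h5 : |pd k W x0| * |s| ≤ 4 * t := by
      have e2 : pd k W x0 * s = (W y' - W y) - (W y' - pd k W x0 * s - W y) := by ring
      have h6 : |pd k W x0 * s| ≤ |W y' - W y| + |W y' - pd k W x0 * s - W y| := by
        conv_lhs => rw [e2]
        exact abs_sub _ _
      rw [abs_mul] at h6
      linarith
    rw [abs_sub_comm, le_div_iff₀ hp]
    linarith
  refine (vol_E3 _ hclosed.measurableSet k x (R * Real.sqrt t) (4 * t / |pd k W x0|)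
    (by positivity) (by positivity) (fun y hy j => ?_) hD).trans (le_of_eq ?_)
  · have h1 : |y j - x j| ≤ ‖y - x‖ := by
      have := PiLp.norm_apply_le (y - x) j
      rwa [Real.norm_eq_abs, PiLp.sub_apply] at this
    rw [← dist_eq_norm, dist_comm] at h1
    exact h1.trans hy.1
  · congr 1
    have h7 : (2 * (R * Real.sqrt t)) ^ 2 = 4 * R ^ 2 * t := by
      rw [mul_pow, mul_pow, Real.sq_sqrt ht.le]
      ring
    rw [h7]
    ring

end VOLaux

open VOLaux in
theorem VOL (_hSMO : Stmt_SMO) : Stmt_VOL := by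
  intro V a b g W hF K R hK hKV hR
  refine hK.induction_on (p := fun S => ∃ C t0 : ℝ, 0 < C ∧ 0 < t0 ∧
      ∀ x ∈ S, ∀ t : ℝ, 0 < t → t < t0 →
        volume {y | dist x y ≤ R * Real.sqrt t ∧ |W x - W y| ≤ t} ≤ ENNReal.ofReal (C * t ^ 2))
    ⟨1, 1, one_pos, one_pos, fun x hx => absurd hx (Set.notMem_empty x)⟩ ?_ ?_ ?_
  · rintro S T hST ⟨C, t0, hC, ht0, h⟩
    exact ⟨C, t0, hC, ht0, fun x hx => h x (hST hx)⟩
  · rintro S T ⟨C, t0, hC, ht0, h⟩ ⟨C', t0', hC', ht0', h'⟩
    refine ⟨max C C', min t0 t0', lt_max_of_lt_left hC, lt_min ht0 ht0', ?_⟩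
    rintro x (hx | hx) t ht htt
    · refine (h x hx t ht (htt.trans_le (min_le_left _ _))).trans (ENNReal.ofReal_le_ofReal ?_)
      exact mul_le_mul_of_nonneg_right (le_max_left _ _) (by positivity)
    · refine (h' x hx t ht (htt.trans_le (min_le_right _ _))).trans (ENNReal.ofReal_le_ofReal ?_)
      exact mul_le_mul_of_nonneg_right (le_max_right _ _) (by positivity)
  · intro x0 hx0
    obtain ⟨C, t0, δ, hC, ht0, hδ, h⟩ := local_vol hF hR (hKV hx0)
    exact ⟨Metric.ball x0 δ, mem_nhdsWithin_of_mem_nhds (Metric.ball_mem_nhds x0 hδ), C, t0, hC,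
      ht0, h⟩

end Pool.Agent.PFlow.GB


end

section

open MeasureTheory Filter Topology
open scoped ContDiff

namespace Pool.Agent.PFlow

open Pool.Agent.PenroseSph

namespace MMI

lemma isOpen_Ann (a b : ℝ) : IsOpen (Ann a b) := by
  have h1 : IsOpen {x : E3 | a < ‖x‖} := isOpen_lt continuous_const continuous_norm
  have h2 : IsOpen {x : E3 | ‖x‖ < b} := isOpen_lt continuous_norm continuous_const
  exact h1.inter h2

lemma measurableSet_Ann (a b : ℝ) : MeasurableSet (Ann a b) := (isOpen_Ann a b).measurableSet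

/-- An integral over the annulus whose integrand vanishes off `K`. -/
lemma setIntegral_eq {a b : ℝ} {K : Set E3} (hK : K ⊆ Ann a b) (F : E3 → ℝ)
    (hF : ∀ x ∈ Ann a b, x ∉ K → F x = 0) :
    ∫ x in Ann a b, F x = ∫ x in K, F x := by
  refine setIntegral_eq_of_subset_of_forall_sdiff_eq_zero (measurableSet_Ann a b) hK ?_
  intro x hx
  exact hF x hx.1 hx.2

end MMI

open MMI in
theorem MI (hL4 : Stmt_L4) (hAPB : Stmt_APB) (hINT : Stmt_INT) (hSEQ : Stmt_SEQ)
    (hMIT : Stmt_MIT) : Stmt_MI := by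
  intro ε a b s₀ s₁ g h w G M hε0 hε1 ha hab hs hg hh hw heq hNI hSep ψ hψ hψc hψs hψ0
  have hU := isOpen_Ann a b
  have hws : H2s (Ann a b) w G M := hL4 _ w G M hU hw
  have hapb := hAPB ε (Ann a b) g h w G M hε0 hε1 hU hg hh hws heq
  obtain ⟨a', b', σ₀, σ₁, t₀, t₁, z₁, K, K', v, W, C, hS⟩ :=
    hSEQ ε a b s₀ s₁ g h w G M hε0 hε1 ha hab hs hg hh hws heq hNI hSep hapb ψ hψ hψc hψs hψ0
  have hKA : K ⊆ Ann a b := (hS.ls 0).sub
  have hKc : IsCompact K := (hS.ls 0).compact
  have hz : ∀ x ∈ Ann a b, x ∉ K → w x ∉ tsupport ψ := by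
    intro x hx hxK hxs
    exact hxK (hS.sub (hS.levels x hx hxs))
  have hz0 : ∀ x ∈ Ann a b, x ∉ K → ψ (w x) = 0 := fun x hx hxK =>
    image_eq_zero_of_notMem_tsupport (hz x hx hxK)
  have hz1 : ∀ x ∈ Ann a b, x ∉ K → deriv ψ (w x) = 0 := by
    intro x hx hxK
    have h1 : w x ∉ tsupport ψ := hz x hx hxK
    have h2 : ψ =ᶠ[𝓝 (w x)] 0 := notMem_tsupport_iff_eventuallyEq.mp h1
    rw [h2.deriv_eq]
    simp
  obtain ⟨-, -, -, -, -, hI6, hI7, -, hI9⟩ :=
    hINT ε (Ann a b) g h w G M hε0 hε1 hU hg hh hw heq K hKc hKA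
  have hwc : ContinuousOn w K := hw.cont.mono hKA
  have hψw : ContinuousOn (fun x => ψ (w x)) K := hψ.continuous.comp_continuousOn hwc
  have hmul : ∀ F : E3 → ℝ, IntegrableOn F K → IntegrableOn (fun x => ψ (w x) * F x) K := by
    intro F hF
    obtain ⟨B, hB⟩ := hKc.exists_bound_of_continuousOn hψw
    exact Integrable.bdd_mul hF (hψw.aestronglyMeasurable hKc.measurableSet)
      ((ae_restrict_iff' hKc.measurableSet).mpr (Filter.Eventually.of_forall hB))
  have hJ0 : IntegrableOn (fun x => ψ (w x) * (len g x (G x) * dis0 ε g h x (G x) (M x))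
      * volDen g x) K := by
    refine (hmul _ hI9).congr (Filter.Eventually.of_forall fun x => ?_)
    simp only []
    ring
  have hJ1 : IntegrableOn (fun x => ψ (w x) * (len g x (G x) * (matter g h x (G x)
      + diss ε g h x (G x) (M x) - dis0 ε g h x (G x) (M x))) * volDen g x) K := by
    refine (((hmul _ hI7).add (hmul _ hI6)).sub (hmul _ hI9)).congr
      (Filter.Eventually.of_forall fun x => ?_)
    simp only [Pi.add_apply, Pi.sub_apply]
    ring
  have hsum : ∫ x in K, ψ (w x) * (len g x (G x) * (matter g h x (G x)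
        + diss ε g h x (G x) (M x))) * volDen g x
      = (∫ x in K, ψ (w x) * (len g x (G x) * (matter g h x (G x)
        + diss ε g h x (G x) (M x) - dis0 ε g h x (G x) (M x))) * volDen g x)
      + ∫ x in K, ψ (w x) * (len g x (G x) * dis0 ε g h x (G x) (M x)) * volDen g x := by
    rw [← integral_add hJ1 hJ0]
    refine integral_congr_ae (Filter.Eventually.of_forall fun x => ?_)
    simp only []
    ring
  rw [setIntegral_eq hKA _ (fun x hx hxK => by rw [hz1 x hx hxK]; ring),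
    setIntegral_eq hKA _ (fun x hx hxK => by rw [hz0 x hx hxK]; ring),
    setIntegral_eq hKA _ (fun x hx hxK => by rw [hz0 x hx hxK]; ring), hsum]
  set A := ∫ x in K, deriv ψ (w x) * flux ε g h x (G x) (M x) * volDen g x with hA
  set B := ∫ x in K, ψ (w x) * flux ε g h x (G x) (M x) * volDen g x with hB
  set D₁ := ∫ x in K, ψ (w x) * (len g x (G x) * (matter g h x (G x)
        + diss ε g h x (G x) (M x) - dis0 ε g h x (G x) (M x))) * volDen g x with hD₁
  set D₀ := ∫ x in K, ψ (w x) * (len g x (G x) * dis0 ε g h x (G x) (M x)) * volDen g x with hD₀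
  have key : ∀ θ : ℝ, 0 < θ → θ < 1 →
      -A ≤ 4 * Real.pi * (∫ s, ψ s) - 1 / (2 - ε) * B - D₁ - (1 - θ) * D₀ := by
    intro θ h0 h1
    exact hMIT ε θ a b g h w G M ψ a' b' σ₀ σ₁ t₀ t₁ z₁ K K' v W C hε0 hε1 h0 h1 ha hab hg hh
      hws heq hapb hS
  have hlim : Tendsto (fun θ : ℝ => 4 * Real.pi * (∫ s, ψ s) - 1 / (2 - ε) * B - D₁
      - (1 - θ) * D₀) (𝓝[>] 0) (𝓝 (4 * Real.pi * (∫ s, ψ s) - 1 / (2 - ε) * B - D₁
      - (1 - 0) * D₀)) := by
    refine Tendsto.mono_left ?_ nhdsWithin_le_nhds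
    exact (continuous_const.sub ((continuous_const.sub continuous_id).mul
      continuous_const)).tendsto 0
  have hle := ge_of_tendsto hlim (by
    filter_upwards [Ioo_mem_nhdsGT (show (0 : ℝ) < 1 by norm_num)] with θ hθ
    exact key θ hθ.1 hθ.2)
  linarith

end Pool.Agent.PFlow


end

section

/-!
# SETW: the function `w` and its levels
-/

set_option autoImplicit false

open MeasureTheory Filter Topology
open scoped ContDiff ENNReal

namespace Pool.Agent.PFlow

open Pool.Agent.PenroseSph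

namespace SETWaux

theorem isOpen_Ann (a b : ℝ) : IsOpen (Ann a b) :=
  (isOpen_lt continuous_const continuous_norm).inter (isOpen_lt continuous_norm continuous_const)

theorem isCompact_cAnn (a b : ℝ) : IsCompact (cAnn a b) := by
  have h1 : IsClosed (cAnn a b) :=
    (isClosed_le continuous_const continuous_norm).inter
      (isClosed_le continuous_norm continuous_const)
  refine (isCompact_closedBall (0 : E3) b).of_isClosed_subset h1 fun x hx => ?_
  rw [mem_closedBall_zero_iff]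
  exact hx.2

theorem log_ge : (2.7 : ℝ) < Real.log 16 := by
  have h : Real.log 16 = 4 * Real.log 2 := by
    rw [show (16 : ℝ) = 2 ^ (4 : ℕ) by norm_num, Real.log_pow]
    norm_num
  rw [h]
  have := Real.log_two_gt_d9
  linarith

/-- The numerical relations between the parameters. -/
theorem numbers {P : Par} {D : Dat} (hS : Setup P D) :
    0 < D.R ∧ 1 / D.R < P.kap / D.l ∧ 16 * D.l ≤ D.R ∧ 1 ≤ D.R / 2 ∧
    0 < D.sb P ∧ D.sb P ≤ 1 ∧ D.sb P < P.eps ∧ 1 < D.s2 P ∧ D.s2 P + 4 + 4 * P.gam < D.sM P ∧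
    2 * D.Kl P ≤ D.R ∧ 4 * D.l ≤ D.Kl P ∧
    (2 - P.eps) * Real.log (D.Kl P) = (2 - P.eps) * Real.log (4 * D.l) + 1 + 2 * P.gam := by
  have he := hS.eps_pos
  have he2 := hS.eps_le
  have hg := hS.gam_pos
  have hk := hS.kap_pos
  have hk2 := hS.kap_le
  have hl := hS.l_ge
  have hl0 : 0 < D.l := by linarith
  have h2e : 0 < 2 - P.eps := by linarith
  obtain ⟨K, hK⟩ : ∃ K, K = kE P.eps P.gam := ⟨_, rfl⟩
  have hKlog : (2 - P.eps) * Real.log K = (2 - P.eps) * Real.log 4 + 1 + 2 * P.gam := by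
    rw [hK, kE, Real.log_mul (by norm_num) (Real.exp_pos _).ne', Real.log_exp]
    field_simp
    ring
  have hK4 : 4 ≤ K := by
    rw [hK, kE]
    have : 1 ≤ Real.exp ((1 + 2 * P.gam) / (2 - P.eps)) := Real.one_le_exp (by positivity)
    linarith
  have hK0 : 0 < K := by linarith
  have hRK := hS.R_ge
  rw [← hK] at hRK
  have hR16 : 16 * D.l ≤ D.R := by
    have h1 : (16 : ℝ) ≤ K ^ 4 := by
      have : (4 : ℝ) ^ 4 ≤ K ^ 4 := by gcongr
      linarith
    nlinarith
  have hR0 : 0 < D.R := by linarith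
  have hRk : 2 * D.l / P.kap ≤ D.R := hS.R_ge'
  have hfrac : 1 / D.R < P.kap / D.l := by
    rw [div_lt_div_iff₀ hR0 hl0]
    rw [div_le_iff₀ hk] at hRk
    nlinarith
  have hp : 0 < pe P.eps := by
    unfold pe
    have : 4 ≤ 2 / P.eps := by
      rw [le_div_iff₀ he]
      linarith
    linarith
  have hpow0 : 0 < (4 * D.l) ^ (-pe P.eps) := Real.rpow_pos_of_pos (by linarith) _
  have hpow1 : (4 * D.l) ^ (-pe P.eps) < 1 :=
    Real.rpow_lt_one_of_one_lt_of_neg (by linarith) (by linarith)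
  have hsb : D.sb P = P.eps * P.c * (4 * D.l) ^ (-pe P.eps) := rfl
  have hsb0 : 0 < D.sb P := by
    rw [hsb]
    have := hS.c_pos
    positivity
  have hsbe : D.sb P < P.eps := by
    rw [hsb]
    have h1 := hS.c_pos
    have h2 := hS.c_le
    have h3 : P.eps * P.c ≤ P.eps := by nlinarith
    calc P.eps * P.c * (4 * D.l) ^ (-pe P.eps) < P.eps * P.c * 1 := by gcongr
      _ ≤ P.eps := by linarith
  have hs2 : D.s2 P = (2 - P.eps) * Real.log (4 * D.l) + P.gam := rfl
  have hsM : D.sM P = (2 - P.eps) * Real.log (D.R / 2) - P.gam := rfl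
  have hlog16 : (2.7 : ℝ) < Real.log (4 * D.l) := by
    refine log_ge.trans_le (Real.log_le_log (by norm_num) (by linarith))
  have hs21 : 1 < D.s2 P := by
    rw [hs2]
    nlinarith
  have hKl : D.Kl P = K * D.l := by rw [hK]; rfl
  have hKl0 : 0 < D.Kl P := by rw [hKl]; positivity
  have hKllog : (2 - P.eps) * Real.log (D.Kl P)
      = (2 - P.eps) * Real.log (4 * D.l) + 1 + 2 * P.gam := by
    rw [hKl, Real.log_mul hK0.ne' hl0.ne', Real.log_mul (by norm_num) hl0.ne', mul_add, hKlog]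
    ring
  have h2K : 2 * D.Kl P ≤ D.R := by
    rw [hKl]
    have h1 : 2 * K ≤ K ^ 4 := by
      have h3 : (4 : ℝ) ^ 3 ≤ K ^ 3 := by gcongr
      nlinarith
    nlinarith
  have h4l : 4 * D.l ≤ D.Kl P := by
    rw [hKl]
    nlinarith
  have hsMs2 : D.s2 P + 4 + 4 * P.gam < D.sM P := by
    rw [hs2, hsM]
    have h1 : K ^ 4 * D.l / 2 ≤ D.R / 2 := by linarith
    have h3 : Real.log (K ^ 4 * D.l / 2) ≤ Real.log (D.R / 2) :=
      Real.log_le_log (by positivity) h1
    have h4 : Real.log (K ^ 4 * D.l / 2) = 4 * Real.log K + Real.log D.l - Real.log 2 := by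
      rw [Real.log_div (by positivity) (by norm_num), Real.log_mul (by positivity) hl0.ne',
        Real.log_pow]
      norm_num
    have h5 : Real.log (4 * D.l) = 2 * Real.log 2 + Real.log D.l := by
      rw [Real.log_mul (by norm_num) hl0.ne', show (4 : ℝ) = 2 ^ (2 : ℕ) by norm_num,
        Real.log_pow]
      norm_num
    have h6 : Real.log 4 = 2 * Real.log 2 := by
      rw [show (4 : ℝ) = 2 ^ (2 : ℕ) by norm_num, Real.log_pow]
      norm_num
    have h7 := Real.log_two_gt_d9
    have h8 : (2 - P.eps) * Real.log (K ^ 4 * D.l / 2) ≤ (2 - P.eps) * Real.log (D.R / 2) := by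
      gcongr
    rw [h4] at h8
    rw [h5]
    rw [h6] at hKlog
    nlinarith
  refine ⟨hR0, hfrac, hR16, by linarith, hsb0, by linarith, hsbe, hs21, hsMs2, h2K, h4l, hKllog⟩

end SETWaux

open SETWaux in
theorem SETW (hLOGW : Stmt_LOGW) : Stmt_SETW := by
  intro P D hS
  obtain ⟨hR0, hfrac, hR16, hR2, hsb0, hsb1, hsbe, hs21, hsMs2, h2K, h4l, hKllog⟩ := numbers hS
  have he := hS.eps_pos
  have he2 := hS.eps_le
  have hg := hS.gam_pos
  have hk := hS.kap_pos
  have hk2 := hS.kap_le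
  have hl := hS.l_ge
  have hl0 : 0 < D.l := by linarith
  have h2e : 0 < 2 - P.eps := by linarith
  have hloc := hS.located
  have hOm : IsOpen D.Om := isOpen_Ann _ _
  have hMet : MetricOn D.Om D.g' :=
    ⟨fun i j => (hS.modified.metric.smooth i j).mono (Set.subset_univ _),
      fun x _ => hS.modified.metric.posDef x trivial⟩
  have hTen : TensorOn D.Om D.h' :=
    ⟨fun i j => (hS.modified.tensor.smooth i j).mono (Set.subset_univ _),
      fun x _ => hS.modified.tensor.symm x trivial⟩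
  have hsM : D.sM P = (2 - P.eps) * Real.log (D.R / 2) - P.gam := rfl
  have hs2 : D.s2 P = (2 - P.eps) * Real.log (4 * D.l) + P.gam := rfl
  obtain ⟨hw1, hw2, hw3⟩ := hLOGW P.eps D.Om D.g' D.h' D.u D.G D.M he (by linarith) hOm hMet hTen
    hS.sol.h2 hloc.pos hS.sol.eq
  have hkl1 : P.kap / D.l < 1 := by
    rw [div_lt_one hl0]
    linarith
  -- near the outer boundary
  have hout : ∀ x : E3, D.R / 2 ≤ ‖x‖ → ‖x‖ < D.R → D.sM P ≤ D.w P x := by
    intro x hx1 hx2
    have h1 := hloc.outer_low x (by linarith) hx2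
    have h3 : Real.log (D.R / 2) ≤ Real.log ‖x‖ := Real.log_le_log (by linarith) hx1
    have h4 : (2 - P.eps) * Real.log (D.R / 2) ≤ (2 - P.eps) * Real.log ‖x‖ := by gcongr
    show D.sM P ≤ wOf P.eps D.u x
    rw [hsM]
    linarith
  have hlow : ∀ x ∈ D.Om, D.sb P / 4 < D.w P x → P.kap / D.l ≤ ‖x‖ := by
    intro x hx h
    exact hloc.low' x hx (le_of_lt h)
  have hmid : ∀ x ∈ D.Om, D.s2 P ≤ D.w P x → 4 * D.l ≤ ‖x‖ := by
    intro x hx h
    by_contra hc
    have := hloc.mid x hx (not_le.1 hc)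
    exact absurd h (not_le.2 this)
  have hsmall : ∀ x ∈ D.Om, D.w P x < D.sM P → ‖x‖ < D.R / 2 := by
    intro x hx h
    by_contra hc
    exact absurd h (not_lt.2 (hout x (not_lt.1 hc) hx.2))
  refine ⟨hMet, hTen, fun x _ => hS.modified.twoNonneg x trivial, hw1, hw2, hw3 hS.sol.noIsland,
    ?_, ?_, ?_, hsmall, hmid, ?_, ?_, ?_, ?_, hsb0, hsb1, hsbe, hs21, hsMs2, h2K, h4l⟩
  · exact ((Real.measurable_log.comp hS.sol.cont.measurable).const_mul (-P.eps))
  · -- Sep on the whole annulus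
    refine ⟨(1 / D.R + P.kap / D.l) / 2, D.R / 2, by linarith, by linarith, by linarith, ?_, hout⟩
    intro x hx1 hx2
    by_contra hc
    have hx3 : ‖x‖ < P.kap / D.l := by linarith
    have hxO : x ∈ D.Om := ⟨hx1, by linarith⟩
    have := hlow x hxO (not_le.1 hc)
    linarith
  · -- Sep on the outer part
    refine ⟨3 * D.l, D.R / 2, by linarith, by linarith, by linarith, ?_, hout⟩
    intro x hx1 hx2
    have h1R : 1 / D.R < ‖x‖ := by linarith
    exact (hloc.mid x ⟨h1R, by linarith⟩ (by linarith)).le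
  · intro x hx h
    by_contra hc
    have := hloc.low x hx (not_lt.1 hc)
    linarith
  · intro x hx1 hx2
    have h1 : 1 ≤ ‖x‖ := by linarith
    have h3 := hloc.outer x h1 (by linarith)
    have h4 := (abs_le.1 h3).2
    have h5 : Real.log ‖x‖ ≤ Real.log (D.Kl P) := Real.log_le_log (by linarith) hx2
    have h6 : (2 - P.eps) * Real.log ‖x‖ ≤ (2 - P.eps) * Real.log (D.Kl P) := by gcongr
    show wOf P.eps D.u x ≤ _
    rw [hs2]
    linarith
  · intro x hx h
    by_contra hc
    have hc' := not_le.1 hc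
    have h3 := hloc.outer_low x (by linarith) hx.2
    have h5 : Real.log (D.Kl P) ≤ Real.log ‖x‖ := Real.log_le_log (by linarith) hc'.le
    have h6 : (2 - P.eps) * Real.log (D.Kl P) ≤ (2 - P.eps) * Real.log ‖x‖ := by gcongr
    have h7 : wOf P.eps D.u x < D.s2 P + 1 := h
    rw [hs2] at h7
    linarith
  · intro s s' hs hs'
    refine ⟨cAnn (P.kap / D.l) (D.R / 2), isCompact_cAnn _ _, ?_, ?_⟩
    · intro x hx
      exact ⟨lt_of_lt_of_le hfrac hx.1, lt_of_le_of_lt hx.2 (by linarith)⟩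
    · rintro x ⟨hxO, hx1, hx2⟩
      exact ⟨hlow x hxO (by linarith), (hsmall x hxO (by linarith)).le⟩

end Pool.Agent.PFlow


end
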