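import Mathlib
import Pool.Agent.PFlow.StmtsE2
import Pool.Agent.PenroseM.C01

/-! Parts: PFlow.K.KCOR, PFlow.E.POI -/

section

/-!
# Block K: the Cordes inequality (module KCOR)
-/

open MeasureTheory Filter Topology
open scoped ContDiff

namespace Pool.Agent.PFlow

open Pool.Agent.PenroseSph

namespace KCOR

/-- the quadratic inequality -/
lemma sq_add_le {ε A R : ℝ} (h0 : 0 < ε) (h1 : ε < 1) :
    (A + R) ^ 2 ≤ A ^ 2 / (1 - ε) + R ^ 2 / ε := by
  have h2 : 0 < 1 - ε := by linarith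
  rw [div_add_div _ _ h2.ne' h0.ne', le_div_iff₀ (mul_pos h2 h0)]
  nlinarith [sq_nonneg (ε * A - (1 - ε) * R)]

/-- the scalar estimates for the weights -/
lemma weights {ε δ κ s : ℝ} (h0 : 0 < ε) (h1 : ε < 1) (hδ : 0 < δ) (hδ1 : δ ≤ 1) (hκ : 0 < κ)
    (hs : 0 ≤ s) :
    0 < regA ε δ κ s ∧ |regD ε δ s| * s ≤ (1 - ε) * regA ε δ κ s ∧
    s ^ 2 * ((s + δ ^ 2) ^ ((ε - 2) / 2)) ^ 2 ≤ s * regA ε δ κ s ^ 2 ∧
    1 ≤ (2 + s) * regA ε δ κ s ^ 2 := by
  set t : ℝ := s + δ ^ 2 with ht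
  have ht0 : 0 < t := by positivity
  have hst : s ≤ t := by rw [ht]; nlinarith [sq_nonneg δ]
  set P : ℝ := t ^ ((ε - 1) / 2) with hP
  have hP0 : 0 < P := Real.rpow_pos_of_pos ht0 _
  have hA : regA ε δ κ s = P + κ := rfl
  have hPA : P ≤ regA ε δ κ s := by rw [hA]; linarith
  have hA0 : 0 < regA ε δ κ s := lt_of_lt_of_le hP0 hPA
  have hPA2 : P ^ 2 ≤ regA ε δ κ s ^ 2 := pow_le_pow_left₀ hP0.le hPA 2
  refine ⟨hA0, ?_, ?_, ?_⟩
  · have e1 : |regD ε δ s| = (1 - ε) * t ^ ((ε - 3) / 2) := by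
      unfold regD
      rw [abs_mul, abs_of_neg (by linarith : ε - 1 < 0),
        abs_of_pos (Real.rpow_pos_of_pos ht0 _)]
      ring
    have e2 : t ^ ((ε - 3) / 2) * t = P := by
      rw [hP]
      nth_rewrite 2 [← Real.rpow_one t]
      rw [← Real.rpow_add ht0]
      congr 1
      ring
    rw [e1]
    have e3 : t ^ ((ε - 3) / 2) * s ≤ P := by
      rw [← e2]
      exact mul_le_mul_of_nonneg_left hst (Real.rpow_pos_of_pos ht0 _).le
    calc (1 - ε) * t ^ ((ε - 3) / 2) * s = (1 - ε) * (t ^ ((ε - 3) / 2) * s) := by ring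
      _ ≤ (1 - ε) * regA ε δ κ s :=
        mul_le_mul_of_nonneg_left (e3.trans hPA) (by linarith)
  · have e1 : (t ^ ((ε - 2) / 2)) ^ 2 * t = P ^ 2 := by
      rw [hP, ← Real.rpow_natCast, ← Real.rpow_natCast, ← Real.rpow_mul ht0.le,
        ← Real.rpow_mul ht0.le]
      nth_rewrite 2 [← Real.rpow_one t]
      rw [← Real.rpow_add ht0]
      congr 1
      push_cast
      ring
    calc s ^ 2 * (t ^ ((ε - 2) / 2)) ^ 2 = s * ((t ^ ((ε - 2) / 2)) ^ 2 * s) := by ring
      _ ≤ s * ((t ^ ((ε - 2) / 2)) ^ 2 * t) := by gcongr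
      _ = s * P ^ 2 := by rw [e1]
      _ ≤ s * regA ε δ κ s ^ 2 := by gcongr
  · have e1 : P ^ 2 * t ^ (1 - ε) = 1 := by
      rw [hP, ← Real.rpow_natCast, ← Real.rpow_mul ht0.le, ← Real.rpow_add ht0]
      have : (ε - 1) / 2 * ((2 : ℕ) : ℝ) + (1 - ε) = 0 := by push_cast; ring
      rw [this, Real.rpow_zero]
    have e2 : t ^ (1 - ε) ≤ 2 + s := by
      rcases le_total t 1 with h | h
      · exact (Real.rpow_le_one ht0.le h (by linarith)).trans (by linarith)
      · calc t ^ (1 - ε) ≤ t ^ (1 : ℝ) := Real.rpow_le_rpow_of_exponent_le h (by linarith)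
          _ = t := Real.rpow_one t
          _ ≤ 2 + s := by rw [ht]; nlinarith
    calc (1 : ℝ) = P ^ 2 * t ^ (1 - ε) := e1.symm
      _ ≤ P ^ 2 * (2 + s) := by gcongr
      _ ≤ regA ε δ κ s ^ 2 * (2 + s) := by gcongr
      _ = _ := by ring

/-- the bound of the terms with `h` -/
lemma hterm {g h : TensorField} {C : ℝ} (hC : GBound g h C) {x : E3} {p : Cov}
    (hk1 : 0 ≤ lsq g x p)
    (hk2 : ∀ B : Bil, (ev B (raise g x p) (raise g x p)) ^ 2 ≤ lsq g x p ^ 2 * nsq g x B)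
    {ε : ℝ} (h0 : 0 < ε) (h1 : ε < 1) :
    |lsq g x p * trg g x (h x) - (1 - ε) * ev (h x) (raise g x p) (raise g x p)| ≤
      12 * C ^ 2 * lsq g x p := by
  have hC1 := hC.one
  have a1 : |trg g x (h x)| ≤ 9 * C ^ 2 := by
    refine (hC.tr x (h x)).trans ?_
    have : ∑ i, ∑ j, |h x i j| ≤ 9 * C := by
      calc ∑ i, ∑ j, |h x i j| ≤ ∑ _i : Fin 3, ∑ _j : Fin 3, C :=
            Finset.sum_le_sum fun i _ => Finset.sum_le_sum fun j _ => hC.hh x i j
        _ = 9 * C := by simp; ring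
    calc C * ∑ i, ∑ j, |h x i j| ≤ C * (9 * C) := by gcongr
      _ = _ := by ring
  have a2 : nsq g x (h x) ≤ 9 * C ^ 3 := by
    refine (hC.nsqUp x (h x)).trans ?_
    have : ∑ i, ∑ j, h x i j ^ 2 ≤ 9 * C ^ 2 := by
      calc ∑ i, ∑ j, h x i j ^ 2 ≤ ∑ _i : Fin 3, ∑ _j : Fin 3, C ^ 2 :=
            Finset.sum_le_sum fun i _ => Finset.sum_le_sum fun j _ => by
              rw [← sq_abs]
              exact pow_le_pow_left₀ (abs_nonneg _) (hC.hh x i j) 2
        _ = 9 * C ^ 2 := by simp; ring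
    calc C * ∑ i, ∑ j, h x i j ^ 2 ≤ C * (9 * C ^ 2) := by gcongr
      _ = _ := by ring
  have a3 : |ev (h x) (raise g x p) (raise g x p)| ≤ 3 * C ^ 2 * lsq g x p := by
    apply abs_le_of_sq_le_sq _ (by positivity)
    refine (hk2 (h x)).trans ?_
    have a4 : C ^ 3 ≤ C ^ 4 := pow_le_pow_right₀ hC1 (by norm_num)
    calc lsq g x p ^ 2 * nsq g x (h x) ≤ lsq g x p ^ 2 * (9 * C ^ 3) := by gcongr
      _ ≤ lsq g x p ^ 2 * (9 * C ^ 4) := by gcongr
      _ = (3 * C ^ 2 * lsq g x p) ^ 2 := by ring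
  calc |lsq g x p * trg g x (h x) - (1 - ε) * ev (h x) (raise g x p) (raise g x p)|
      ≤ |lsq g x p * trg g x (h x)| + |(1 - ε) * ev (h x) (raise g x p) (raise g x p)| :=
        abs_sub _ _
    _ = lsq g x p * |trg g x (h x)| + (1 - ε) * |ev (h x) (raise g x p) (raise g x p)| := by
        rw [abs_mul, abs_mul, abs_of_nonneg hk1, abs_of_pos (by linarith : 0 < 1 - ε)]
    _ ≤ lsq g x p * (9 * C ^ 2) + 1 * (3 * C ^ 2 * lsq g x p) := by
        gcongr
        linarith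
    _ = _ := by ring

end KCOR

/-- **KCOR**: the Cordes inequality, uniformly in `δ, κ ∈ (0, 1]`. -/
theorem KCOR_thm (h1 : KBND) (h2 : KTN) : KCOR := by
  intro ε g h r hε0 hε1 hG
  obtain ⟨C, hC⟩ := h1 g h r hG
  have hC1 := hC.one
  have hε' : 0 < 1 - ε := by linarith
  refine ⟨(4 * C ^ 3 + 288 * C ^ 5) / ε, by positivity, ?_⟩
  intro δ κ hδ hδ1 hκ hκ1 x p M F heq
  obtain ⟨hk1, -, -, -, -, hk2, hk3, -⟩ := h2 g x (hG.met.posDef x (Set.mem_univ x)) p
  obtain ⟨hA0, hD, hW, hP⟩ := KCOR.weights (κ := κ) hε0 hε1 hδ hδ1 hκ hk1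
  have hht := KCOR.hterm hC hk1 hk2 hε0 hε1
  have hQ := hk2 (cHess g x p M)
  have hN := hk3 (cHess g x p M)
  have hup := hC.up x p
  have hv := hC.volLow x
  set H := cHess g x p M with hH
  set s := lsq g x p with hs
  set T := trg g x H with hT
  set Q := ev H (raise g x p) (raise g x p) with hQd
  set a := regA ε δ κ s with ha
  set b := regD ε δ s with hb
  set v := volDen g x with hvd
  set W := (s + δ ^ 2) ^ ((ε - 2) / 2) with hWd
  set Y := s * trg g x (h x) - (1 - ε) * ev (h x) (raise g x p) (raise g x p) with hY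
  have hv0 : 0 < v := by
    by_contra hcon
    rw [not_lt] at hcon
    have : C * v ≤ 0 := mul_nonpos_of_nonneg_of_nonpos (by linarith) hcon
    linarith
  have hB : cB ε δ g h x (vec p) = v * W * Y := rfl
  have hL : opL ε δ κ g x p M = v * (a * T + b * Q) := rfl
  rw [hB, hL] at heq
  -- solve for the trace
  have hTe : T = -(b * Q) / a + (F / v - W * Y) / a := by
    field_simp
    linarith
  have hA2 : (-(b * Q) / a) ^ 2 ≤ (1 - ε) ^ 2 * nsq g x H := by
    rw [div_pow, div_le_iff₀ (by positivity)]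
    have e1 : (|b| * s) ^ 2 ≤ ((1 - ε) * a) ^ 2 := pow_le_pow_left₀ (by positivity) hD 2
    calc (-(b * Q)) ^ 2 = b ^ 2 * Q ^ 2 := by ring
      _ ≤ b ^ 2 * (s ^ 2 * nsq g x H) := by gcongr
      _ = (|b| * s) ^ 2 * nsq g x H := by rw [mul_pow, sq_abs]; ring
      _ ≤ ((1 - ε) * a) ^ 2 * nsq g x H := by gcongr
      _ = _ := by ring
  have hn : 0 ≤ ‖vec p‖ ^ 2 := by positivity
  have hR1 : (F / v / a) ^ 2 ≤ 2 * C ^ 3 * (F ^ 2 * (1 + ‖vec p‖ ^ 2)) := by
    have e1 : 1 / (v * a) ^ 2 ≤ C ^ 2 * (2 + s) := by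
      rw [div_le_iff₀ (by positivity)]
      have e2 : (1 : ℝ) ≤ (C * v) ^ 2 := one_le_pow₀ hv
      calc (1 : ℝ) = 1 * 1 := (one_mul 1).symm
        _ ≤ (C * v) ^ 2 * ((2 + s) * a ^ 2) := by gcongr
        _ = _ := by ring
    have e3 : 2 + s ≤ 2 * C * (1 + ‖vec p‖ ^ 2) := by nlinarith
    calc (F / v / a) ^ 2 = F ^ 2 * (1 / (v * a) ^ 2) := by field_simp
      _ ≤ F ^ 2 * (C ^ 2 * (2 * C * (1 + ‖vec p‖ ^ 2))) := by
        gcongr
        exact e1.trans (by gcongr)
      _ = _ := by ring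
  have hR2 : (W * Y / a) ^ 2 ≤ 144 * C ^ 5 * ‖vec p‖ ^ 2 := by
    rw [div_pow, div_le_iff₀ (by positivity)]
    have e1 : Y ^ 2 ≤ (12 * C ^ 2 * s) ^ 2 := by
      rw [← sq_abs]
      exact pow_le_pow_left₀ (abs_nonneg _) hht 2
    calc (W * Y) ^ 2 = W ^ 2 * Y ^ 2 := by ring
      _ ≤ W ^ 2 * (12 * C ^ 2 * s) ^ 2 := by gcongr
      _ = 144 * C ^ 4 * (s ^ 2 * W ^ 2) := by ring
      _ ≤ 144 * C ^ 4 * (s * a ^ 2) := by gcongr
      _ ≤ 144 * C ^ 4 * ((C * ‖vec p‖ ^ 2) * a ^ 2) := by gcongr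
      _ = _ := by ring
  have hR : ((F / v - W * Y) / a) ^ 2 ≤
      (4 * C ^ 3 + 288 * C ^ 5) * (‖vec p‖ ^ 2 + F ^ 2 * (1 + ‖vec p‖ ^ 2)) := by
    have e1 : (F / v - W * Y) / a = F / v / a - W * Y / a := by ring
    rw [e1]
    have e2 : (F / v / a - W * Y / a) ^ 2 ≤ 2 * (F / v / a) ^ 2 + 2 * (W * Y / a) ^ 2 := by
      nlinarith [sq_nonneg (F / v / a + W * Y / a)]
    have e3 : 0 ≤ F ^ 2 * (1 + ‖vec p‖ ^ 2) := by positivity
    have e4 : 0 ≤ C ^ 3 := by positivity
    have e5 : 0 ≤ C ^ 5 := by positivity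
    nlinarith [mul_nonneg e4 hn, mul_nonneg e5 e3]
  calc T ^ 2 = (-(b * Q) / a + (F / v - W * Y) / a) ^ 2 := by rw [← hTe]
    _ ≤ (-(b * Q) / a) ^ 2 / (1 - ε) + ((F / v - W * Y) / a) ^ 2 / ε := KCOR.sq_add_le hε0 hε1
    _ ≤ (1 - ε) ^ 2 * nsq g x H / (1 - ε) +
        (4 * C ^ 3 + 288 * C ^ 5) * (‖vec p‖ ^ 2 + F ^ 2 * (1 + ‖vec p‖ ^ 2)) / ε := by
        gcongr
    _ = _ := by
        field_simp

end Pool.Agent.PFlow


end

section

/-!
# POI: the Poincaré inequality on annuli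

Two points `x`, `y` of the annulus `a ≤ |x| ≤ b` are joined through the points `z` of a ball about a
point orthogonal to both; the segments stay in `a/2 ≤ |x| ≤ b`.
-/

open MeasureTheory Filter Topology
open scoped ContDiff ENNReal

namespace Pool.Agent.PFlow

open Pool.Agent.PenroseSph

namespace Poi

/-! ### Geometry -/

/-- The segment stays away from the origin. -/
lemma seg_low {x z : E3} {a t : ℝ} (ha : 0 < a) (hx : a ≤ ‖x‖) (hz : a ≤ ‖z‖)
    (h : -(‖x‖ * ‖z‖ / 2) ≤ inner ℝ x z) (h0 : 0 ≤ t) (h1 : t ≤ 1) :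
    a / 2 ≤ ‖z + t • (x - z)‖ := by
  have e1 : z + t • (x - z) = (1 - t) • z + t • x := by
    rw [smul_sub, sub_smul, one_smul]
    abel
  have e2 : ‖z + t • (x - z)‖ ^ 2 =
      ((1 - t) * ‖z‖) ^ 2 + 2 * ((1 - t) * t * inner ℝ x z) + (t * ‖x‖) ^ 2 := by
    rw [e1, norm_add_sq_real, norm_smul, norm_smul, real_inner_smul_left, real_inner_smul_right,
      real_inner_comm, Real.norm_of_nonneg h0, Real.norm_of_nonneg (sub_nonneg.2 h1)]
    ring
  have h2 : 0 ≤ (1 - t) * t := mul_nonneg (sub_nonneg.2 h1) h0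
  have h3 : -((1 - t) * ‖z‖ * (t * ‖x‖)) ≤ 2 * ((1 - t) * t * inner ℝ x z) := by
    have := mul_le_mul_of_nonneg_left h h2
    nlinarith [this]
  have h4 : a ≤ (1 - t) * ‖z‖ + t * ‖x‖ := by
    have h5 := mul_le_mul_of_nonneg_left hz (sub_nonneg.2 h1)
    have h6 := mul_le_mul_of_nonneg_left hx h0
    nlinarith [h5, h6]
  have h5 : (a / 2) ^ 2 ≤ ‖z + t • (x - z)‖ ^ 2 := by
    rw [e2]
    have h6 : 0 ≤ ((1 - t) * ‖z‖ - t * ‖x‖) ^ 2 := sq_nonneg _
    have h7 : a ^ 2 ≤ ((1 - t) * ‖z‖ + t * ‖x‖) ^ 2 := pow_le_pow_left₀ ha.le h4 2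
    nlinarith [h3, h6, h7]
  exact (pow_le_pow_iff_left₀ (by positivity) (norm_nonneg _) two_ne_zero).1 h5

lemma seg_up {x z : E3} {b t : ℝ} (hx : ‖x‖ ≤ b) (hz : ‖z‖ ≤ b) (h0 : 0 ≤ t) (h1 : t ≤ 1) :
    ‖z + t • (x - z)‖ ≤ b := by
  have e1 : z + t • (x - z) = (1 - t) • z + t • x := by
    rw [smul_sub, sub_smul, one_smul]
    abel
  rw [e1]
  refine (norm_add_le _ _).trans ?_
  rw [norm_smul, norm_smul, Real.norm_of_nonneg h0, Real.norm_of_nonneg (sub_nonneg.2 h1)]
  have h5 := mul_le_mul_of_nonneg_left hz (sub_nonneg.2 h1)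
  have h6 := mul_le_mul_of_nonneg_left hx h0
  nlinarith [h5, h6]

/-- The radius of the ball of intermediate points. -/
noncomputable def rr (a b : ℝ) : ℝ := min ((b - a) / 2) ((a + b) / 6)

lemma rr_pos {a b : ℝ} (ha : 0 < a) (hab : a < b) : 0 < rr a b :=
  lt_min (by linarith) (by linarith)

/-- A vector of given length orthogonal to two vectors. -/
lemma exists_orth (x y : E3) {m : ℝ} (hm : 0 ≤ m) :
    ∃ z : E3, ‖z‖ = m ∧ inner ℝ x z = 0 ∧ inner ℝ y z = 0 := by
  classical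
  have h1 : Module.finrank ℝ (Submodule.span ℝ ({x, y} : Set E3)) ≤ 2 := by
    have h2 := finrank_span_finset_le_card (R := ℝ) ({x, y} : Finset E3)
    have h3 : (({x, y} : Finset E3) : Set E3) = ({x, y} : Set E3) := by simp
    rw [h3] at h2
    exact h2.trans Finset.card_le_two
  have h2 : Submodule.span ℝ ({x, y} : Set E3) ≠ ⊤ := by
    intro h
    rw [h, finrank_top] at h1
    have h3 : Module.finrank ℝ E3 = 3 := by simp [E3]
    omega
  have h3 : (Submodule.span ℝ ({x, y} : Set E3))ᗮ ≠ ⊥ := fun h =>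
    h2 (Submodule.orthogonal_eq_bot_iff.1 h)
  obtain ⟨w, hw, hw0⟩ := Submodule.exists_mem_ne_zero_of_ne_bot h3
  have hx : inner ℝ x w = 0 := (Submodule.mem_orthogonal _ _).1 hw x
    (Submodule.subset_span (by simp))
  have hy : inner ℝ y w = 0 := (Submodule.mem_orthogonal _ _).1 hw y
    (Submodule.subset_span (by simp))
  have hn : ‖w‖ ≠ 0 := norm_ne_zero_iff.2 hw0
  refine ⟨(m / ‖w‖) • w, ?_, ?_, ?_⟩
  · rw [norm_smul, Real.norm_of_nonneg (by positivity), div_mul_cancel₀ _ hn]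
  · rw [real_inner_smul_right, hx, mul_zero]
  · rw [real_inner_smul_right, hy, mul_zero]

/-- The ball of intermediate points. -/
lemma exists_ball {a b : ℝ} (ha : 0 < a) (hab : a < b) {x y : E3} :
    ∃ z₀ : E3, Metric.ball z₀ (rr a b) ⊆ cAnn a b ∧
      ∀ z ∈ Metric.ball z₀ (rr a b), -(‖x‖ * ‖z‖ / 2) ≤ inner ℝ x z ∧
        -(‖y‖ * ‖z‖ / 2) ≤ inner ℝ y z := by
  obtain ⟨z₀, hz₀, hx, hy⟩ := exists_orth x y (m := (a + b) / 2) (by linarith)
  have hr1 : rr a b ≤ (b - a) / 2 := min_le_left _ _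
  have hr2 : rr a b ≤ (a + b) / 6 := min_le_right _ _
  have key : ∀ z ∈ Metric.ball z₀ (rr a b), ‖z - z₀‖ < rr a b ∧ (a + b) / 2 - rr a b ≤ ‖z‖ ∧
      ‖z‖ ≤ (a + b) / 2 + rr a b := by
    intro z hz
    rw [Metric.mem_ball, dist_eq_norm] at hz
    refine ⟨hz, ?_, ?_⟩
    · have h1 : ‖z₀‖ ≤ ‖z‖ + ‖z - z₀‖ := by
        have := norm_sub_le z (z - z₀)
        rwa [sub_sub_cancel] at this
      rw [hz₀] at h1
      linarith
    · have h1 : ‖z‖ ≤ ‖z₀‖ + ‖z - z₀‖ := by
        have := norm_add_le z₀ (z - z₀)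
        rwa [add_sub_cancel] at this
      rw [hz₀] at h1
      linarith
  have key2 : ∀ w : E3, inner ℝ w z₀ = 0 → ∀ z ∈ Metric.ball z₀ (rr a b),
      -(‖w‖ * ‖z‖ / 2) ≤ inner ℝ w z := by
    intro w hw z hz
    obtain ⟨h1, h2, -⟩ := key z hz
    have h3 : inner ℝ w z = inner ℝ w (z - z₀) := by rw [inner_sub_right, hw, sub_zero]
    rw [h3]
    have h4 := abs_le.1 (abs_real_inner_le_norm w (z - z₀))
    have h5 : ‖w‖ * ‖z - z₀‖ ≤ ‖w‖ * (‖z‖ / 2) :=
      mul_le_mul_of_nonneg_left (by linarith) (norm_nonneg _)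
    linarith [h4.1]
  refine ⟨z₀, fun z hz => ?_, fun z hz => ⟨key2 x hx z hz, key2 y hy z hz⟩⟩
  obtain ⟨-, h2, h3⟩ := key z hz
  exact ⟨by linarith, by linarith⟩

lemma isClosed_cAnn (a b : ℝ) : IsClosed (cAnn a b) :=
  (isClosed_le continuous_const continuous_norm).inter (isClosed_le continuous_norm
    continuous_const)

lemma cAnn_subset_ball (a b : ℝ) : cAnn a b ⊆ Metric.closedBall 0 b := fun x hx => by
  rw [Metric.mem_closedBall, dist_zero_right]
  exact hx.2

lemma isCompact_cAnn (a b : ℝ) : IsCompact (cAnn a b) :=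
  (isCompact_closedBall (0 : E3) b).of_isClosed_subset (isClosed_cAnn a b) (cAnn_subset_ball a b)

/-! ### Segments -/

/-- The squared length of the derivative on the larger annulus. -/
noncomputable def gg (f : E3 → ℝ) (a b : ℝ) : E3 → ℝ≥0∞ :=
  (cAnn (a / 2) b).indicator (fun y => ENNReal.ofReal (‖fderiv ℝ f y‖ ^ 2))

variable {f : E3 → ℝ} {a b : ℝ}

lemma cont_fderiv (hf : ∀ x ∈ cAnn (a / 2) b, ContDiffAt ℝ 1 f x) {x : E3}
    (hx : x ∈ cAnn (a / 2) b) : ContinuousAt (fderiv ℝ f) x := by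
  have h1 : ContDiffAt ℝ 0 (fderiv ℝ f) x := (hf x hx).fderiv_right (by norm_num)
  exact h1.continuousAt

lemma gg_meas (hf : ∀ x ∈ cAnn (a / 2) b, ContDiffAt ℝ 1 f x) : Measurable (gg f a b) := by
  classical
  unfold gg
  rw [← Set.piecewise_eq_indicator]
  refine ContinuousOn.measurable_piecewise (fun x hx => ?_) continuousOn_const
    (isClosed_cAnn _ _).measurableSet
  exact (ENNReal.continuous_ofReal.continuousAt.comp
    ((cont_fderiv hf hx).norm.pow 2)).continuousWithinAt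

/-- The square of an integral over the unit interval. -/
lemma sq_integral_le {k : ℝ → ℝ} (hk : ContinuousOn k (Set.Icc 0 1)) :
    (∫ t in (0 : ℝ)..1, k t) ^ 2 ≤ ∫ t in (0 : ℝ)..1, k t ^ 2 := by
  set c := ∫ t in (0 : ℝ)..1, k t with hc
  have hu : Set.uIcc (0 : ℝ) 1 = Set.Icc 0 1 := Set.uIcc_of_le zero_le_one
  have i1 : IntervalIntegrable k volume 0 1 := (hu ▸ hk).intervalIntegrable
  have i2 : IntervalIntegrable (fun t => k t ^ 2) volume 0 1 :=
    (hu ▸ (hk.pow 2)).intervalIntegrable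
  have h1 : 0 ≤ ∫ t in (0 : ℝ)..1, (k t - c) ^ 2 :=
    intervalIntegral.integral_nonneg zero_le_one fun t _ => sq_nonneg _
  have h2 : ∫ t in (0 : ℝ)..1, (k t - c) ^ 2 =
      (∫ t in (0 : ℝ)..1, k t ^ 2) - 2 * c * c + c ^ 2 := by
    have e : (fun t => (k t - c) ^ 2) = fun t => k t ^ 2 - 2 * c * k t + c ^ 2 := by
      funext t
      ring
    rw [e, intervalIntegral.integral_add (i2.sub (i1.const_mul _)) (by simp),
      intervalIntegral.integral_sub i2 (i1.const_mul _), intervalIntegral.integral_const_mul, ← hc]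
    simp
  rw [h2] at h1
  nlinarith [h1]

/-- The difference of the values at the ends of a segment. -/
lemma seg_ineq (hf : ∀ x ∈ cAnn (a / 2) b, ContDiffAt ℝ 1 f x) {x z : E3} (hx : ‖x‖ ≤ b)
    (hz : ‖z‖ ≤ b) (hs : ∀ t : ℝ, 0 ≤ t → t ≤ 1 → z + t • (x - z) ∈ cAnn (a / 2) b) :
    ENNReal.ofReal ((f x - f z) ^ 2) ≤
      ENNReal.ofReal (4 * b ^ 2) * ∫⁻ t in Set.Ioc (0 : ℝ) 1, gg f a b (z + t • (x - z)) := by
  have hu : Set.uIcc (0 : ℝ) 1 = Set.Icc 0 1 := Set.uIcc_of_le zero_le_one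
  have hγ : Continuous (fun t : ℝ => z + t • (x - z)) := by fun_prop
  have hk : ContinuousOn (fun t : ℝ => fderiv ℝ f (z + t • (x - z)) (x - z)) (Set.Icc 0 1) := by
    intro t ht
    have h1 : ContinuousAt (fderiv ℝ f) (z + t • (x - z)) := cont_fderiv hf (hs t ht.1 ht.2)
    have h2 : ContinuousAt (fun t : ℝ => fderiv ℝ f (z + t • (x - z))) t :=
      ContinuousAt.comp (f := fun t : ℝ => z + t • (x - z)) h1 hγ.continuousAt
    exact (h2.clm_apply continuousAt_const).continuousWithinAt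
  have hG : ContinuousOn (fun t : ℝ => 4 * b ^ 2 * ‖fderiv ℝ f (z + t • (x - z))‖ ^ 2)
      (Set.Icc 0 1) := by
    intro t ht
    have h1 : ContinuousAt (fderiv ℝ f) (z + t • (x - z)) := cont_fderiv hf (hs t ht.1 ht.2)
    have h2 : ContinuousAt (fun t : ℝ => fderiv ℝ f (z + t • (x - z))) t :=
      ContinuousAt.comp (f := fun t : ℝ => z + t • (x - z)) h1 hγ.continuousAt
    exact (continuousAt_const.mul (h2.norm.pow 2)).continuousWithinAt
  have h1 : ∫ t in (0 : ℝ)..1, fderiv ℝ f (z + t • (x - z)) (x - z) = f x - f z := by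
    have h2 : ∀ t ∈ Set.uIcc (0 : ℝ) 1, HasDerivAt (fun t : ℝ => f (z + t • (x - z)))
        (fderiv ℝ f (z + t • (x - z)) (x - z)) t := by
      intro t ht
      rw [hu] at ht
      have h3 : HasFDerivAt f (fderiv ℝ f (z + t • (x - z))) (z + t • (x - z)) :=
        ((hf _ (hs t ht.1 ht.2)).differentiableAt one_ne_zero).hasFDerivAt
      have h4 : HasDerivAt (fun t : ℝ => z + t • (x - z)) (x - z) t := by
        have := ((hasDerivAt_id t).smul_const (x - z)).const_add z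
        simpa using this
      exact h3.comp_hasDerivAt t h4
    rw [intervalIntegral.integral_eq_sub_of_hasDerivAt h2 (hu ▸ hk).intervalIntegrable]
    simp
  have h2 : (f x - f z) ^ 2 ≤
      ∫ t in (0 : ℝ)..1, 4 * b ^ 2 * ‖fderiv ℝ f (z + t • (x - z))‖ ^ 2 := by
    rw [← h1]
    refine (sq_integral_le hk).trans ?_
    refine intervalIntegral.integral_mono_on zero_le_one (hu ▸ (hk.pow 2)).intervalIntegrable
      (hu ▸ hG).intervalIntegrable fun t _ => ?_
    have h3 : |fderiv ℝ f (z + t • (x - z)) (x - z)| ≤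
        ‖fderiv ℝ f (z + t • (x - z))‖ * ‖x - z‖ :=
      (fderiv ℝ f (z + t • (x - z))).le_opNorm (x - z)
    have h4 : ‖x - z‖ ≤ 2 * b := (norm_sub_le x z).trans (by linarith)
    have h5 : |fderiv ℝ f (z + t • (x - z)) (x - z)| ≤
        ‖fderiv ℝ f (z + t • (x - z))‖ * (2 * b) :=
      h3.trans (mul_le_mul_of_nonneg_left h4 (norm_nonneg _))
    rw [← sq_abs]
    refine (pow_le_pow_left₀ (abs_nonneg _) h5 2).trans (le_of_eq ?_)
    ring
  rw [intervalIntegral.integral_of_le zero_le_one] at h2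
  refine (ENNReal.ofReal_le_ofReal h2).trans ?_
  rw [ofReal_integral_eq_lintegral_ofReal]
  · rw [← lintegral_const_mul' _ _ ENNReal.ofReal_ne_top]
    refine setLIntegral_mono' measurableSet_Ioc fun t ht => ?_
    have h3 : z + t • (x - z) ∈ cAnn (a / 2) b := hs t ht.1.le ht.2
    rw [gg, Set.indicator_of_mem h3, ENNReal.ofReal_mul (by positivity)]
  · exact (hG.integrableOn_Icc).mono_set Set.Ioc_subset_Icc_self
  · exact Eventually.of_forall fun t => by positivity

/-! ### Changes of variables -/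

lemma conv {g : E3 → ℝ≥0∞} (hg : Measurable g) (c : E3) {t : ℝ} (ht : 1 / 2 ≤ t) :
    ∫⁻ x, g (c + t • x) ≤ 8 * ∫⁻ x, g x := by
  have ht0 : 0 < t := by linarith
  have hm : Measurable (fun x : E3 => t • x) := by fun_prop
  have hgc : Measurable (fun y : E3 => g (c + y)) := hg.comp (by fun_prop)
  have h1 : ∫⁻ x, g (c + t • x) = ∫⁻ y, g (c + y) ∂(Measure.map (fun x : E3 => t • x) volume) :=
    (lintegral_map (g := fun x : E3 => t • x) hgc hm).symm
  rw [h1, Measure.map_addHaar_smul volume ht0.ne', lintegral_smul_measure,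
    lintegral_add_left_eq_self g c]
  have h2 : Module.finrank ℝ E3 = 3 := by simp [E3]
  rw [h2, smul_eq_mul]
  refine mul_le_mul_left ?_ _
  rw [show (8 : ℝ≥0∞) = ENNReal.ofReal 8 by norm_num]
  refine ENNReal.ofReal_le_ofReal ?_
  rw [abs_of_pos (by positivity)]
  have h3 : (1 / 2 : ℝ) ^ 3 ≤ t ^ 3 := pow_le_pow_left₀ (by norm_num) ht 3
  rw [inv_le_comm₀ (by positivity) (by norm_num)]
  linarith

lemma triple {g : E3 → ℝ≥0∞} (hg : Measurable g) (A : Set E3) :
    ∫⁻ x in A, ∫⁻ z in A, ∫⁻ t in Set.Ioc (0 : ℝ) 1, g (z + t • (x - z)) ≤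
      8 * volume A * ∫⁻ x, g x := by
  have hm3 : Measurable (fun p : (E3 × E3) × ℝ => g (p.1.2 + p.2 • (p.1.1 - p.1.2))) :=
    hg.comp (Continuous.measurable (by fun_prop))
  have hvol1 : volume (Set.Icc (0 : ℝ) (1 / 2)) = ENNReal.ofReal (1 / 2) := by
    rw [Real.volume_Icc, sub_zero]
  have hvol2 : volume (Set.Icc (1 / 2 : ℝ) 1) = ENNReal.ofReal (1 / 2) := by
    rw [Real.volume_Icc]
    norm_num
  have hhalf : ENNReal.ofReal (1 / 2) + ENNReal.ofReal (1 / 2) = 1 := by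
    rw [← ENNReal.ofReal_add (by norm_num) (by norm_num)]
    norm_num
  have h1 : ∀ x z : E3, ∫⁻ t in Set.Ioc (0 : ℝ) 1, g (z + t • (x - z)) ≤
      (∫⁻ t in Set.Icc (0 : ℝ) (1 / 2), g (z + t • (x - z))) +
        ∫⁻ t in Set.Icc (1 / 2 : ℝ) 1, g (z + t • (x - z)) := by
    intro x z
    refine (lintegral_mono_set ?_).trans (lintegral_union_le _ _ _)
    intro t ht
    rcases le_total t (1 / 2) with h | h
    · exact Or.inl ⟨ht.1.le, h⟩
    · exact Or.inr ⟨h, ht.2⟩
  have hmt : ∀ S : Set ℝ, Measurable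
      (fun p : E3 × E3 => ∫⁻ t in S, g (p.2 + t • (p.1 - p.2))) := fun S =>
    Measurable.lintegral_prod_right' (ν := volume.restrict S) hm3
  have hA : ∫⁻ x in A, ∫⁻ z in A, ∫⁻ t in Set.Icc (0 : ℝ) (1 / 2), g (z + t • (x - z)) ≤
      ENNReal.ofReal (1 / 2) * (8 * volume A * ∫⁻ x, g x) := by
    have h2 : ∀ x : E3, ∫⁻ z in A, ∫⁻ t in Set.Icc (0 : ℝ) (1 / 2), g (z + t • (x - z)) ≤
        ENNReal.ofReal (1 / 2) * (8 * ∫⁻ x, g x) := by
      intro x
      rw [lintegral_lintegral_swap]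
      · calc ∫⁻ t in Set.Icc (0 : ℝ) (1 / 2), ∫⁻ z in A, g (z + t • (x - z))
            ≤ ∫⁻ _t in Set.Icc (0 : ℝ) (1 / 2), 8 * ∫⁻ x, g x := by
              refine setLIntegral_mono' measurableSet_Icc fun t ht => ?_
              refine (setLIntegral_le_lintegral _ _).trans ?_
              have e : (fun z : E3 => g (z + t • (x - z))) =
                  fun z : E3 => g (t • x + (1 - t) • z) := by
                funext z
                congr 1
                rw [smul_sub, sub_smul, one_smul]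
                abel
              rw [e]
              exact conv hg (t • x) (by linarith [ht.2])
          _ = ENNReal.ofReal (1 / 2) * (8 * ∫⁻ x, g x) := by
              rw [setLIntegral_const, hvol1, mul_comm]
      · refine Measurable.aemeasurable ?_
        exact hg.comp (Continuous.measurable (by fun_prop))
    calc _ ≤ ∫⁻ _x in A, ENNReal.ofReal (1 / 2) * (8 * ∫⁻ x, g x) := lintegral_mono fun x => h2 x
      _ = _ := by
          rw [setLIntegral_const]
          ring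
  have hB : ∫⁻ x in A, ∫⁻ z in A, ∫⁻ t in Set.Icc (1 / 2 : ℝ) 1, g (z + t • (x - z)) ≤
      ENNReal.ofReal (1 / 2) * (8 * volume A * ∫⁻ x, g x) := by
    rw [lintegral_lintegral_swap (hmt _).aemeasurable]
    have h2 : ∀ z : E3, ∫⁻ x in A, ∫⁻ t in Set.Icc (1 / 2 : ℝ) 1, g (z + t • (x - z)) ≤
        ENNReal.ofReal (1 / 2) * (8 * ∫⁻ x, g x) := by
      intro z
      rw [lintegral_lintegral_swap]
      · calc ∫⁻ t in Set.Icc (1 / 2 : ℝ) 1, ∫⁻ x in A, g (z + t • (x - z))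
            ≤ ∫⁻ _t in Set.Icc (1 / 2 : ℝ) 1, 8 * ∫⁻ x, g x := by
              refine setLIntegral_mono' measurableSet_Icc fun t ht => ?_
              refine (setLIntegral_le_lintegral _ _).trans ?_
              have e : (fun x : E3 => g (z + t • (x - z))) =
                  fun x : E3 => g ((z - t • z) + t • x) := by
                funext x
                congr 1
                rw [smul_sub]
                abel
              rw [e]
              exact conv hg (z - t • z) ht.1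
          _ = ENNReal.ofReal (1 / 2) * (8 * ∫⁻ x, g x) := by
              rw [setLIntegral_const, hvol2, mul_comm]
      · refine Measurable.aemeasurable ?_
        exact hg.comp (Continuous.measurable (by fun_prop))
    calc _ ≤ ∫⁻ _z in A, ENNReal.ofReal (1 / 2) * (8 * ∫⁻ x, g x) := lintegral_mono fun z => h2 z
      _ = _ := by
          rw [setLIntegral_const]
          ring
  calc ∫⁻ x in A, ∫⁻ z in A, ∫⁻ t in Set.Ioc (0 : ℝ) 1, g (z + t • (x - z))
      ≤ ∫⁻ x in A, ∫⁻ z in A, ((∫⁻ t in Set.Icc (0 : ℝ) (1 / 2), g (z + t • (x - z))) +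
        ∫⁻ t in Set.Icc (1 / 2 : ℝ) 1, g (z + t • (x - z))) :=
        lintegral_mono fun x => lintegral_mono fun z => h1 x z
    _ = (∫⁻ x in A, ∫⁻ z in A, ∫⁻ t in Set.Icc (0 : ℝ) (1 / 2), g (z + t • (x - z))) +
        ∫⁻ x in A, ∫⁻ z in A, ∫⁻ t in Set.Icc (1 / 2 : ℝ) 1, g (z + t • (x - z)) := by
        rw [← lintegral_add_left]
        · refine lintegral_congr fun x => ?_
          rw [lintegral_add_left]
          exact (hmt _).comp (measurable_const.prodMk measurable_id)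
        · exact Measurable.lintegral_prod_right' (ν := volume.restrict A) (hmt _)
    _ ≤ ENNReal.ofReal (1 / 2) * (8 * volume A * ∫⁻ x, g x) +
        ENNReal.ofReal (1 / 2) * (8 * volume A * ∫⁻ x, g x) := add_le_add hA hB
    _ = 8 * volume A * ∫⁻ x, g x := by rw [← add_mul, hhalf, one_mul]

/-! ### The double integral -/

/-- The energy of the pencils of segments ending at `x`. -/
noncomputable def en (f : E3 → ℝ) (a b : ℝ) (x : E3) : ℝ≥0∞ :=
  ∫⁻ z in cAnn a b, ENNReal.ofReal (4 * b ^ 2) *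
    ∫⁻ t in Set.Ioc (0 : ℝ) 1, gg f a b (z + t • (x - z))

lemma en_meas (hf : ∀ x ∈ cAnn (a / 2) b, ContDiffAt ℝ 1 f x) : Measurable (en f a b) := by
  have hm3 : Measurable
      (fun p : (E3 × E3) × ℝ => gg f a b (p.1.2 + p.2 • (p.1.1 - p.1.2))) :=
    (gg_meas hf).comp (Continuous.measurable (by fun_prop))
  have h1 : Measurable (fun p : E3 × E3 => ENNReal.ofReal (4 * b ^ 2) *
      ∫⁻ t in Set.Ioc (0 : ℝ) 1, gg f a b (p.2 + t • (p.1 - p.2))) :=
    (Measurable.lintegral_prod_right' (ν := volume.restrict (Set.Ioc (0 : ℝ) 1)) hm3).const_mul _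
  exact Measurable.lintegral_prod_right' (ν := volume.restrict (cAnn a b)) h1

lemma en_total (hf : ∀ x ∈ cAnn (a / 2) b, ContDiffAt ℝ 1 f x) :
    ∫⁻ x in cAnn a b, en f a b x ≤
      ENNReal.ofReal (4 * b ^ 2) * (8 * volume (cAnn a b) * ∫⁻ x, gg f a b x) := by
  unfold en
  have h1 : ∀ x : E3, ∫⁻ z in cAnn a b, ENNReal.ofReal (4 * b ^ 2) *
      ∫⁻ t in Set.Ioc (0 : ℝ) 1, gg f a b (z + t • (x - z)) =
      ENNReal.ofReal (4 * b ^ 2) * ∫⁻ z in cAnn a b,
        ∫⁻ t in Set.Ioc (0 : ℝ) 1, gg f a b (z + t • (x - z)) := fun x =>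
    lintegral_const_mul' _ _ ENNReal.ofReal_ne_top
  simp only [h1]
  rw [lintegral_const_mul' _ _ ENNReal.ofReal_ne_top]
  exact mul_le_mul_right (triple (gg_meas hf) _) _

/-- The three point inequality. -/
lemma three (ha : 0 < a) (hab : a < b) (hf : ∀ x ∈ cAnn (a / 2) b, ContDiffAt ℝ 1 f x)
    {x y : E3} (hx : x ∈ cAnn a b) (hy : y ∈ cAnn a b) :
    volume (Metric.ball (0 : E3) (rr a b)) * ENNReal.ofReal ((f x - f y) ^ 2) ≤
      2 * en f a b x + 2 * en f a b y := by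
  obtain ⟨z₀, hsub, hz₀⟩ := exists_ball ha hab (x := x) (y := y)
  have hvol : volume (Metric.ball (0 : E3) (rr a b)) = volume (Metric.ball z₀ (rr a b)) := by
    rw [Measure.addHaar_ball volume (0 : E3) (rr_pos ha hab).le,
      Measure.addHaar_ball volume z₀ (rr_pos ha hab).le]
  have hseg : ∀ w ∈ cAnn a b, (∀ z ∈ Metric.ball z₀ (rr a b),
      -(‖w‖ * ‖z‖ / 2) ≤ inner ℝ w z) → ∀ z ∈ Metric.ball z₀ (rr a b),
      ENNReal.ofReal ((f w - f z) ^ 2) ≤ ENNReal.ofReal (4 * b ^ 2) *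
        ∫⁻ t in Set.Ioc (0 : ℝ) 1, gg f a b (z + t • (w - z)) := by
    intro w hw hin z hz
    have hzA := hsub hz
    exact seg_ineq hf hw.2 hzA.2 fun t h0 h1 =>
      ⟨seg_low ha hw.1 hzA.1 (hin z hz) h0 h1, seg_up hw.2 hzA.2 h0 h1⟩
  have hmt : ∀ w : E3, Measurable (fun z : E3 => ENNReal.ofReal (4 * b ^ 2) *
      ∫⁻ t in Set.Ioc (0 : ℝ) 1, gg f a b (z + t • (w - z))) := fun w => by
    have hm3 : Measurable
        (fun p : E3 × ℝ => gg f a b (p.1 + p.2 • (w - p.1))) :=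
      (gg_meas hf).comp (Continuous.measurable (by fun_prop))
    exact (Measurable.lintegral_prod_right'
      (ν := volume.restrict (Set.Ioc (0 : ℝ) 1)) hm3).const_mul _
  calc volume (Metric.ball (0 : E3) (rr a b)) * ENNReal.ofReal ((f x - f y) ^ 2)
      = ∫⁻ _z in Metric.ball z₀ (rr a b), ENNReal.ofReal ((f x - f y) ^ 2) := by
        rw [setLIntegral_const, hvol, mul_comm]
    _ ≤ ∫⁻ z in Metric.ball z₀ (rr a b), (2 * (ENNReal.ofReal (4 * b ^ 2) *
          ∫⁻ t in Set.Ioc (0 : ℝ) 1, gg f a b (z + t • (x - z))) +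
          2 * (ENNReal.ofReal (4 * b ^ 2) *
          ∫⁻ t in Set.Ioc (0 : ℝ) 1, gg f a b (z + t • (y - z)))) := by
        refine setLIntegral_mono' Metric.isOpen_ball.measurableSet fun z hz => ?_
        have h1 := hseg x hx (fun z hz => (hz₀ z hz).1) z hz
        have h2 := hseg y hy (fun z hz => (hz₀ z hz).2) z hz
        refine le_trans ?_ (add_le_add (mul_le_mul_right h1 2) (mul_le_mul_right h2 2))
        rw [show (2 : ℝ≥0∞) = ENNReal.ofReal 2 by norm_num,
          ← ENNReal.ofReal_mul (by norm_num), ← ENNReal.ofReal_mul (by norm_num),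
          ← ENNReal.ofReal_add (by positivity) (by positivity)]
        refine ENNReal.ofReal_le_ofReal ?_
        nlinarith [sq_nonneg ((f x - f z) + (f y - f z))]
    _ ≤ ∫⁻ z in cAnn a b, (2 * (ENNReal.ofReal (4 * b ^ 2) *
          ∫⁻ t in Set.Ioc (0 : ℝ) 1, gg f a b (z + t • (x - z))) +
          2 * (ENNReal.ofReal (4 * b ^ 2) *
          ∫⁻ t in Set.Ioc (0 : ℝ) 1, gg f a b (z + t • (y - z)))) := lintegral_mono_set hsub
    _ = 2 * en f a b x + 2 * en f a b y := by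
        rw [lintegral_add_left ((hmt x).const_mul 2), lintegral_const_mul' 2 _ (by norm_num),
          lintegral_const_mul' 2 _ (by norm_num)]
        rfl

/-- The inequality without scaling. -/
lemma core (ha : 0 < a) (hab : a < b) (hf : ∀ x ∈ cAnn (a / 2) b, ContDiffAt ℝ 1 f x) :
    ∫ x in cAnn a b, (f x - ⨍ y in cAnn a b, f y) ^ 2 ≤
      128 * b ^ 2 * (b / rr a b) ^ 3 * ∫ x in cAnn (a / 2) b, ‖fderiv ℝ f x‖ ^ 2 := by
  have hb : 0 < b := ha.trans hab
  have hr : 0 < rr a b := rr_pos ha hab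
  have hsubA : cAnn a b ⊆ cAnn (a / 2) b := fun x hx => ⟨by linarith [hx.1], hx.2⟩
  have hmA : MeasurableSet (cAnn a b) := (isClosed_cAnn a b).measurableSet
  have hcf : ContinuousOn f (cAnn a b) := fun x hx =>
    (hf x (hsubA hx)).continuousAt.continuousWithinAt
  have hcK := isCompact_cAnn a b
  have hfin : volume (cAnn a b) ≠ ⊤ := hcK.measure_lt_top.ne
  have : IsFiniteMeasure (volume.restrict (cAnn a b)) := ⟨by
    rw [Measure.restrict_apply_univ]
    exact hcK.measure_lt_top⟩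
  -- the mean minimises
  have hmin : ∀ c : ℝ, ∫ x in cAnn a b, (f x - ⨍ y in cAnn a b, f y) ^ 2 ≤
      ∫ x in cAnn a b, (f x - c) ^ 2 := by
    intro c
    set m := ⨍ y in cAnn a b, f y with hm
    have i1 : IntegrableOn (fun x => (f x - m) ^ 2) (cAnn a b) :=
      ((hcf.sub continuousOn_const).pow 2).integrableOn_compact hcK
    have i2 : IntegrableOn (fun x => f x - m) (cAnn a b) :=
      (hcf.sub continuousOn_const).integrableOn_compact hcK
    have e1 : ∫ x in cAnn a b, (f x - m) = 0 := integral_sub_average _ f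
    have e2 : (fun x => (f x - c) ^ 2) =
        fun x => (f x - m) ^ 2 + (2 * (m - c) * (f x - m) + (m - c) ^ 2) := by
      funext x
      ring
    have i4 : IntegrableOn (fun x => 2 * (m - c) * (f x - m)) (cAnn a b) := i2.const_mul _
    have i5 : IntegrableOn (fun _ : E3 => (m - c) ^ 2) (cAnn a b) := integrable_const _
    have i3 : IntegrableOn (fun x => 2 * (m - c) * (f x - m) + (m - c) ^ 2) (cAnn a b) :=
      i4.add i5
    rw [e2, integral_add i1 i3, integral_add i4 i5, integral_const_mul, e1]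
    have h3 : 0 ≤ ∫ _x in cAnn a b, (m - c) ^ 2 := integral_nonneg fun x => sq_nonneg _
    linarith
  set Var := ∫ x in cAnn a b, (f x - ⨍ y in cAnn a b, f y) ^ 2 with hVar
  set v := volume (Metric.ball (0 : E3) (rr a b)) with hv
  have hv0 : v ≠ 0 := (Metric.measure_ball_pos volume (0 : E3) hr).ne'
  have hvt : v ≠ ⊤ := measure_ball_lt_top.ne
  have hA0 : volume (cAnn a b) ≠ 0 := by
    obtain ⟨z₀, hsub, -⟩ := exists_ball ha hab (x := 0) (y := 0)
    exact ((Metric.measure_ball_pos volume z₀ hr).trans_le (measure_mono hsub)).ne'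
  have h1 : ∀ y : E3, ENNReal.ofReal Var ≤
      ∫⁻ x in cAnn a b, ENNReal.ofReal ((f x - f y) ^ 2) := by
    intro y
    rw [← ofReal_integral_eq_lintegral_ofReal]
    · exact ENNReal.ofReal_le_ofReal (hmin (f y))
    · exact ((hcf.sub continuousOn_const).pow 2).integrableOn_compact hcK
    · exact Eventually.of_forall fun x => sq_nonneg _
  have h2 : v * (volume (cAnn a b) * ENNReal.ofReal Var) ≤
      volume (cAnn a b) * (ENNReal.ofReal (4 * b ^ 2) *
        (32 * volume (cAnn a b) * ∫⁻ x, gg f a b x)) := by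
    calc v * (volume (cAnn a b) * ENNReal.ofReal Var)
        = v * ∫⁻ _y in cAnn a b, ENNReal.ofReal Var := by
          rw [setLIntegral_const, mul_comm (volume (cAnn a b))]
      _ ≤ v * ∫⁻ y in cAnn a b, ∫⁻ x in cAnn a b, ENNReal.ofReal ((f x - f y) ^ 2) :=
          mul_le_mul_right (lintegral_mono fun y => h1 y) v
      _ = ∫⁻ y in cAnn a b, ∫⁻ x in cAnn a b, v * ENNReal.ofReal ((f x - f y) ^ 2) := by
          rw [← lintegral_const_mul' _ _ hvt]
          refine lintegral_congr fun y => ?_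
          rw [lintegral_const_mul' _ _ hvt]
      _ ≤ ∫⁻ y in cAnn a b, ∫⁻ x in cAnn a b, (2 * en f a b x + 2 * en f a b y) := by
          refine setLIntegral_mono' hmA fun y hy => setLIntegral_mono' hmA fun x hx => ?_
          exact three ha hab hf hx hy
      _ = ∫⁻ y in cAnn a b, (2 * (∫⁻ x in cAnn a b, en f a b x) +
            2 * en f a b y * volume (cAnn a b)) := by
          refine lintegral_congr fun y => ?_
          rw [lintegral_add_left ((en_meas hf).const_mul 2), lintegral_const_mul' _ _ (by norm_num),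
            setLIntegral_const]
      _ = 4 * volume (cAnn a b) * ∫⁻ x in cAnn a b, en f a b x := by
          rw [lintegral_add_left measurable_const, setLIntegral_const,
            lintegral_mul_const' _ _ hfin, lintegral_const_mul' _ _ (by norm_num)]
          ring
      _ ≤ 4 * volume (cAnn a b) * (ENNReal.ofReal (4 * b ^ 2) *
            (8 * volume (cAnn a b) * ∫⁻ x, gg f a b x)) := mul_le_mul_right (en_total hf) _
      _ = _ := by ring
  have h3 : v * ENNReal.ofReal Var ≤ ENNReal.ofReal (4 * b ^ 2) *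
        (32 * volume (cAnn a b) * ∫⁻ x, gg f a b x) := by
    have e : v * (volume (cAnn a b) * ENNReal.ofReal Var) =
        volume (cAnn a b) * (v * ENNReal.ofReal Var) := by ring
    rw [e] at h2
    exact (ENNReal.mul_le_mul_iff_right hA0 hfin).1 h2
  -- the volume of the annulus
  have h4 : volume (cAnn a b) ≤ ENNReal.ofReal ((b / rr a b) ^ 3) * v := by
    have e3 : Module.finrank ℝ E3 = 3 := by simp [E3]
    refine (measure_mono (cAnn_subset_ball a b)).trans ?_
    rw [Measure.addHaar_closedBall volume (0 : E3) hb.le, hv,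
      Measure.addHaar_ball volume (0 : E3) hr.le, e3, ← mul_assoc,
      ← ENNReal.ofReal_mul (by positivity)]
    have : (b / rr a b) ^ 3 * rr a b ^ 3 = b ^ 3 := by
      rw [← mul_pow, div_mul_cancel₀ _ hr.ne']
    rw [this]
  have h5 : v * ENNReal.ofReal Var ≤
      v * (ENNReal.ofReal (128 * b ^ 2 * (b / rr a b) ^ 3) * ∫⁻ x, gg f a b x) := by
    refine h3.trans ?_
    calc ENNReal.ofReal (4 * b ^ 2) * (32 * volume (cAnn a b) * ∫⁻ x, gg f a b x)
        ≤ ENNReal.ofReal (4 * b ^ 2) *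
          (32 * (ENNReal.ofReal ((b / rr a b) ^ 3) * v) * ∫⁻ x, gg f a b x) :=
          mul_le_mul_right (mul_le_mul_left (mul_le_mul_right h4 _) _) _
      _ = v * (ENNReal.ofReal (4 * b ^ 2) * 32 * ENNReal.ofReal ((b / rr a b) ^ 3) *
          ∫⁻ x, gg f a b x) := by ring
      _ = v * (ENNReal.ofReal (128 * b ^ 2 * (b / rr a b) ^ 3) * ∫⁻ x, gg f a b x) := by
          congr 2
          rw [show (32 : ℝ≥0∞) = ENNReal.ofReal 32 by norm_num,
            ← ENNReal.ofReal_mul (by positivity), ← ENNReal.ofReal_mul (by positivity)]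
          congr 1
          ring
  have h6 := (ENNReal.mul_le_mul_iff_right hv0 hvt).1 h5
  have h7 : ∫⁻ x, gg f a b x = ENNReal.ofReal (∫ x in cAnn (a / 2) b, ‖fderiv ℝ f x‖ ^ 2) := by
    unfold gg
    rw [lintegral_indicator (isClosed_cAnn _ _).measurableSet,
      ofReal_integral_eq_lintegral_ofReal]
    · refine ContinuousOn.integrableOn_compact (isCompact_cAnn _ _) fun x hx => ?_
      exact ((cont_fderiv hf hx).norm.pow 2).continuousWithinAt
    · exact Eventually.of_forall fun x => sq_nonneg _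
  have hI : 0 ≤ ∫ x in cAnn (a / 2) b, ‖fderiv ℝ f x‖ ^ 2 := integral_nonneg fun x => sq_nonneg _
  rw [h7, ← ENNReal.ofReal_mul (by positivity)] at h6
  exact (ENNReal.ofReal_le_ofReal_iff (by positivity)).1 h6

end Poi

open Poi in
/-- The Poincaré inequality on annuli. -/
theorem POI : Stmt_POI := by
  intro a b ha hab
  have hr : 0 < rr a b := rr_pos ha hab
  have hb : 0 < b := ha.trans hab
  refine ⟨128 * b ^ 2 * (b / rr a b) ^ 3, by positivity, fun ρ f hρ hf => ?_⟩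
  have h1 := core (mul_pos ha hρ) (mul_lt_mul_of_pos_right hab hρ) hf
  have h2 : rr (a * ρ) (b * ρ) = rr a b * ρ := by
    unfold rr
    rw [min_mul_of_nonneg _ _ hρ.le]
    congr 1 <;> ring
  refine h1.trans (le_of_eq ?_)
  rw [h2, mul_div_mul_right _ _ hρ.ne']
  ring

end Pool.Agent.PFlow


end
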