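import Mathlib
import Pool.Agent.PFlow.StmtsM
import Pool.Agent.PenroseM.C01
import Pool.Agent.PenroseM.C12

/-! Parts: PFlow.K.KMON, PFlow.G.WU, PFlow.G.PHI0, PFlow.M_APB, PFlow.M_FD -/

section

/-!
KMON: strong monotonicity of the regularised coefficients.
-/

open MeasureTheory Filter Topology
open scoped ContDiff

namespace Pool.Agent.PFlow

open Pool.Agent.PenroseSph

namespace KMON

theorem inner_vec (a : Cov) (ζ : E3) : inner ℝ (vec a) ζ = ∑ i, a i * ζ i := by
  rw [PiLp.inner_apply]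
  refine Finset.sum_congr rfl fun i _ => ?_
  simp [mul_comm]

theorem inner_cA (ε δ κ : ℝ) (g : TensorField) (x ξ ζ : E3)
    (h : ∀ q : Cov, ∑ i, raise g x ξ i * q i = ev (g x)⁻¹ ξ q) :
    inner ℝ (cA ε δ κ g x ξ) ζ =
      volDen g x * (regA ε δ κ (lsq g x ξ) * ev (g x)⁻¹ ξ ζ) := by
  unfold cA
  rw [inner_vec, ← h, Finset.mul_sum, Finset.mul_sum]
  refine Finset.sum_congr rfl fun i _ => ?_
  ring

theorem ev_sub_right (B : Bil) (v p q : Cov) : ev B v (p - q) = ev B v p - ev B v q := by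
  unfold ev
  simp only [Pi.sub_apply, mul_sub, Finset.sum_sub_distrib]

theorem ev_sub_left (B : Bil) (v p q : Cov) : ev B (p - q) v = ev B p v - ev B q v := by
  unfold ev
  simp only [Pi.sub_apply, mul_sub, sub_mul, Finset.sum_sub_distrib]

/-- `s (s + δ²)^(ε-1)` is increasing. -/
theorem mono_aux {ε δ : ℝ} (h0 : 0 < ε) (h1 : ε < 1) (hδ : 0 < δ) {s t : ℝ} (hs : 0 ≤ s)
    (hst : s ≤ t) : s * (s + δ ^ 2) ^ (ε - 1) ≤ t * (t + δ ^ 2) ^ (ε - 1) := by
  have hd : 0 < δ ^ 2 := by positivity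
  have key : ∀ r : ℝ, 0 ≤ r →
      r * (r + δ ^ 2) ^ (ε - 1) = (r + δ ^ 2) ^ ε - δ ^ 2 * (r + δ ^ 2) ^ (ε - 1) := by
    intro r hr
    have hp : 0 < r + δ ^ 2 := by positivity
    have h2 : (r + δ ^ 2) ^ ε = (r + δ ^ 2) * (r + δ ^ 2) ^ (ε - 1) := by
      rw [Real.rpow_sub_one hp.ne']
      field_simp
    rw [h2]
    ring
  rw [key s hs, key t (hs.trans hst)]
  have e1 : (s + δ ^ 2) ^ ε ≤ (t + δ ^ 2) ^ ε :=
    Real.rpow_le_rpow (by positivity) (by linarith) h0.le
  have e2 : (t + δ ^ 2) ^ (ε - 1) ≤ (s + δ ^ 2) ^ (ε - 1) :=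
    Real.rpow_le_rpow_of_nonpos (by positivity) (by linarith) (by linarith)
  have e3 := mul_le_mul_of_nonneg_left e2 hd.le
  linarith

/-- `t (t² + δ²)^((ε-1)/2)` is increasing. -/
theorem mono_b {ε δ : ℝ} (h0 : 0 < ε) (h1 : ε < 1) (hδ : 0 < δ) {u v : ℝ} (hu : 0 ≤ u)
    (huv : u ≤ v) :
    (u ^ 2 + δ ^ 2) ^ ((ε - 1) / 2) * u ≤ (v ^ 2 + δ ^ 2) ^ ((ε - 1) / 2) * v := by
  have hv : 0 ≤ v := hu.trans huv
  have hsq : ∀ r : ℝ, 0 ≤ r → ((r ^ 2 + δ ^ 2) ^ ((ε - 1) / 2) * r) ^ 2 =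
      r ^ 2 * (r ^ 2 + δ ^ 2) ^ (ε - 1) := by
    intro r _
    have hp : 0 ≤ r ^ 2 + δ ^ 2 := by positivity
    rw [mul_pow, ← Real.rpow_natCast ((r ^ 2 + δ ^ 2) ^ ((ε - 1) / 2)) 2, ← Real.rpow_mul hp]
    rw [show (ε - 1) / 2 * ((2 : ℕ) : ℝ) = ε - 1 by push_cast; ring]
    ring
  have h2 : ((u ^ 2 + δ ^ 2) ^ ((ε - 1) / 2) * u) ^ 2 ≤
      ((v ^ 2 + δ ^ 2) ^ ((ε - 1) / 2) * v) ^ 2 := by
    rw [hsq u hu, hsq v hv]
    exact mono_aux h0 h1 hδ (by positivity) (by nlinarith)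
  exact (sq_le_sq₀ (by positivity) (by positivity)).mp h2

theorem mono_prod {ε δ : ℝ} (h0 : 0 < ε) (h1 : ε < 1) (hδ : 0 < δ) {u v : ℝ} (hu : 0 ≤ u)
    (hv : 0 ≤ v) :
    0 ≤ ((u ^ 2 + δ ^ 2) ^ ((ε - 1) / 2) * u - (v ^ 2 + δ ^ 2) ^ ((ε - 1) / 2) * v) * (u - v) := by
  rcases le_total u v with h | h
  · have h2 := mono_b h0 h1 hδ hu h
    exact mul_nonneg_of_nonpos_of_nonpos (by linarith) (by linarith)
  · have h2 := mono_b h0 h1 hδ hv h
    exact mul_nonneg (by linarith) (by linarith)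

end KMON

theorem KMON_thm (h1 : KBND) (h2 : KTN) : KMON := by
  intro ε δ κ g h r hε0 hε1 hδ hκ hd
  obtain ⟨C, hC⟩ := h1 g h r hd
  have hC0 : 0 < C := lt_of_lt_of_le one_pos hC.one
  refine ⟨κ / (C * C), by positivity, ?_⟩
  intro x ξ η
  have hpos : (g x).PosDef := hd.met.posDef x (Set.mem_univ x)
  obtain ⟨a1, -, a3, a4, a5, -⟩ := h2 g x hpos ξ
  obtain ⟨b1, -, b3, b4, b5, -⟩ := h2 g x hpos η
  obtain ⟨c1, -⟩ := h2 g x hpos ((ξ - η : E3) : Cov)
  have hu0 : 0 ≤ len g x ξ := Real.sqrt_nonneg _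
  have hv0 : 0 ≤ len g x η := Real.sqrt_nonneg _
  generalize len g x ξ = u at a3 hu0
  generalize len g x η = v at b3 hv0
  have hvol : 0 ≤ volDen g x := Real.sqrt_nonneg _
  -- Cauchy-Schwarz
  have cs1 : ev (g x)⁻¹ ξ η ≤ u * v := by
    refine le_of_abs_le (abs_le_of_sq_le_sq ?_ (mul_nonneg hu0 hv0))
    rw [mul_pow, a3, b3]
    exact a5 η
  have cs2 : ev (g x)⁻¹ η ξ ≤ u * v := by
    refine le_of_abs_le (abs_le_of_sq_le_sq ?_ (mul_nonneg hu0 hv0))
    rw [mul_pow, a3, b3, mul_comm]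
    exact b5 ξ
  have hcov : ((ξ - η : E3) : Cov) = (ξ : Cov) - (η : Cov) := rfl
  have hlsq : lsq g x ((ξ - η : E3) : Cov) =
      u ^ 2 - ev (g x)⁻¹ ξ η - ev (g x)⁻¹ η ξ + v ^ 2 := by
    rw [a3, b3]
    unfold lsq
    rw [hcov, KMON.ev_sub_left, KMON.ev_sub_right, KMON.ev_sub_right]
    ring
  have hin : inner ℝ (cA ε δ κ g x ξ - cA ε δ κ g x η) (ξ - η) =
      volDen g x * (regA ε δ κ (u ^ 2) * (u ^ 2 - ev (g x)⁻¹ ξ η)) -
        volDen g x * (regA ε δ κ (v ^ 2) * (ev (g x)⁻¹ η ξ - v ^ 2)) := by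
    rw [inner_sub_left, KMON.inner_cA ε δ κ g x ξ (ξ - η) a4,
      KMON.inner_cA ε δ κ g x η (ξ - η) b4, hcov, KMON.ev_sub_right, KMON.ev_sub_right, a3, b3]
    rfl
  have hbu : 0 ≤ (u ^ 2 + δ ^ 2) ^ ((ε - 1) / 2) := by positivity
  have hbv : 0 ≤ (v ^ 2 + δ ^ 2) ^ ((ε - 1) / 2) := by positivity
  have hprod := KMON.mono_prod hε0 hε1 hδ hu0 hv0
  have hlow := hC.low x ((ξ - η : E3) : Cov)
  have hvec : vec ((ξ - η : E3) : Cov) = ξ - η := rfl
  rw [hvec] at hlow
  rw [hin]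
  unfold regA
  rw [hlsq] at hlow c1
  have hvl := hC.volLow x
  generalize ev (g x)⁻¹ ξ η = e1 at *
  generalize ev (g x)⁻¹ η ξ = e2 at *
  generalize volDen g x = V at *
  generalize (u ^ 2 + δ ^ 2) ^ ((ε - 1) / 2) = bu at *
  generalize (v ^ 2 + δ ^ 2) ^ ((ε - 1) / 2) = bv at *
  have m1 : 0 ≤ bu * (u * v - e1) := mul_nonneg hbu (by linarith)
  have m2 : 0 ≤ bv * (u * v - e2) := mul_nonneg hbv (by linarith)
  have hbr : 0 ≤ bu * (u ^ 2 - e1) - bv * (e2 - v ^ 2) := by nlinarith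
  have s1 : κ / (C * C) * ‖ξ - η‖ ^ 2 ≤ κ / (C * C) * (C * (u ^ 2 - e1 - e2 + v ^ 2)) :=
    mul_le_mul_of_nonneg_left hlow (by positivity)
  have s2 : κ / (C * C) * (C * (u ^ 2 - e1 - e2 + v ^ 2)) =
      κ / C * (u ^ 2 - e1 - e2 + v ^ 2) * 1 := by
    field_simp
  have s3 : κ / C * (u ^ 2 - e1 - e2 + v ^ 2) * 1 ≤
      κ / C * (u ^ 2 - e1 - e2 + v ^ 2) * (C * V) :=
    mul_le_mul_of_nonneg_left hvl (mul_nonneg (by positivity) c1)
  have s4 : κ / C * (u ^ 2 - e1 - e2 + v ^ 2) * (C * V) = V * (κ * (u ^ 2 - e1 - e2 + v ^ 2)) := by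
    field_simp
  have s5 : 0 ≤ V * (bu * (u ^ 2 - e1) - bv * (e2 - v ^ 2)) := mul_nonneg hvol hbr
  calc κ / (C * C) * ‖ξ - η‖ ^ 2 ≤ V * (κ * (u ^ 2 - e1 - e2 + v ^ 2)) := by
        rw [← s4]
        exact (s1.trans (le_of_eq s2)).trans s3
    _ ≤ V * (κ * (u ^ 2 - e1 - e2 + v ^ 2)) + V * (bu * (u ^ 2 - e1) - bv * (e2 - v ^ 2)) := by
        linarith
    _ = V * ((bu + κ) * (u ^ 2 - e1)) - V * ((bv + κ) * (e2 - v ^ 2)) := by ring

end Pool.Agent.PFlow


end

section

/-!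
# Block GB, module WU: very weak solutions vanish
-/

open MeasureTheory Filter Topology
open scoped ContDiff

namespace Pool.Agent.PFlow.GB

open Pool.Agent.PenroseSph Pool.Agent.PFlow

namespace WUL

/-! ## Facts on square integrable functions -/

section L2

variable {α : Type*} [MeasurableSpace α] {μ : Measure α}

/-- Cauchy-Schwarz. -/
lemma cs {f g : α → ℝ} (hf : MemLp f 2 μ) (hg : MemLp g 2 μ) :
    (∫ x, f x * g x ∂μ) ^ 2 ≤ (∫ x, f x ^ 2 ∂μ) * ∫ x, g x ^ 2 ∂μ := by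
  have h1 : Integrable (fun x => f x ^ 2) μ := hf.integrable_sq
  have h2 : Integrable (fun x => g x ^ 2) μ := hg.integrable_sq
  have h3 : Integrable (fun x => f x * g x) μ := hf.integrable_mul hg
  have h4 : ∀ s : ℝ, 0 ≤ (∫ x, g x ^ 2 ∂μ) * (s * s) + (2 * ∫ x, f x * g x ∂μ) * s
      + ∫ x, f x ^ 2 ∂μ := by
    intro s
    have h5 : 0 ≤ ∫ x, (f x + s * g x) ^ 2 ∂μ := integral_nonneg fun x => sq_nonneg _
    have h6 : ∫ x, (f x + s * g x) ^ 2 ∂μ = (∫ x, g x ^ 2 ∂μ) * (s * s)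
        + (2 * ∫ x, f x * g x ∂μ) * s + ∫ x, f x ^ 2 ∂μ := by
      have e : (fun x => (f x + s * g x) ^ 2)
          = fun x => (f x ^ 2 + (2 * s) * (f x * g x)) + s ^ 2 * g x ^ 2 := by
        ext x; ring
      have i1 : Integrable (fun x => (2 * s) * (f x * g x)) μ := h3.const_mul _
      have i2 : Integrable (fun x => s ^ 2 * g x ^ 2) μ := h2.const_mul _
      have i3 : Integrable (fun x => f x ^ 2 + (2 * s) * (f x * g x)) μ := h1.add i1
      rw [e, integral_add i3 i2, integral_add h1 i1, integral_const_mul, integral_const_mul]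
      ring
    linarith
  have h7 := discrim_le_zero h4
  unfold discrim at h7
  nlinarith

/-- The product of a sequence tending to zero and of a bounded sequence tends to zero. -/
lemma tend_mul {u G : ℝ → α → ℝ} {B : ℝ} {l : Filter ℝ}
    (hu : ∀ᶠ t in l, MemLp (u t) 2 μ) (hG : ∀ᶠ t in l, MemLp (G t) 2 μ)
    (hB : ∀ᶠ t in l, ∫ x, G t x ^ 2 ∂μ ≤ B)
    (h0 : Tendsto (fun t => ∫ x, u t x ^ 2 ∂μ) l (𝓝 0)) :
    Tendsto (fun t => ∫ x, u t x * G t x ∂μ) l (𝓝 0) := by
  have h1 : Tendsto (fun t => Real.sqrt ((∫ x, u t x ^ 2 ∂μ) * B)) l (𝓝 0) := by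
    have h2 := (h0.mul_const B).sqrt
    simpa using h2
  refine squeeze_zero_norm' ?_ h1
  filter_upwards [hu, hG, hB] with t a b e
  rw [Real.norm_eq_abs]
  apply Real.le_sqrt_of_sq_le
  rw [sq_abs]
  exact (cs a b).trans (mul_le_mul_of_nonneg_left e (integral_nonneg fun x => sq_nonneg _))

/-- Bounded multipliers. -/
lemma bdd_mul {A f : α → ℝ} {B : ℝ} (hA : AEStronglyMeasurable A μ) (hB : ∀ᵐ x ∂μ, |A x| ≤ B)
    (hf : MemLp f 2 μ) :
    MemLp (fun x => A x * f x) 2 μ ∧ ∫ x, (A x * f x) ^ 2 ∂μ ≤ B ^ 2 * ∫ x, f x ^ 2 ∂μ := by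
  have h1 : MemLp (fun x => A x * f x) 2 μ := by
    refine MemLp.of_le_mul hf (hA.mul hf.1) (c := B) ?_
    filter_upwards [hB] with x hx
    rw [norm_mul, Real.norm_eq_abs, Real.norm_eq_abs]
    exact mul_le_mul_of_nonneg_right hx (abs_nonneg _)
  refine ⟨h1, ?_⟩
  rw [← integral_const_mul]
  refine integral_mono_ae h1.integrable_sq (hf.integrable_sq.const_mul _) ?_
  filter_upwards [hB] with x hx
  have h2 : A x ^ 2 ≤ B ^ 2 := by
    rw [← sq_abs (A x)]
    exact pow_le_pow_left₀ (abs_nonneg _) hx 2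
  calc (A x * f x) ^ 2 = A x ^ 2 * f x ^ 2 := by ring
    _ ≤ B ^ 2 * f x ^ 2 := mul_le_mul_of_nonneg_right h2 (sq_nonneg _)

end L2

/-- Square integrable functions are approximated by smooth functions. -/
lemma approx {U : Set E3} {f : E3 → ℝ} (hf : MemLp f 2 (volume.restrict U)) {ε : ℝ} (hε : 0 < ε) :
    ∃ w : E3 → ℝ, ContDiff ℝ ∞ w ∧ MemLp w 2 (volume.restrict U) ∧
      ∫ x in U, (f x - w x) ^ 2 ≤ ε := by
  obtain ⟨w, hw1, hw2, hw3⟩ := hf.exist_eLpNorm_sub_le (by norm_num) (by norm_num)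
    (Real.sqrt_pos.2 hε)
  have hw4 : MemLp w 2 (volume.restrict U) := by
    have := (hw2.continuous.memLp_of_hasCompactSupport (μ := (volume : Measure E3)) (p := 2) hw1)
    exact this.restrict U
  refine ⟨w, hw2, hw4, ?_⟩
  have h1 : MemLp (f - w) 2 (volume.restrict U) := hf.sub hw4
  have h2 := h1.eLpNorm_eq_integral_rpow_norm (by norm_num) (by norm_num)
  rw [h2] at hw3
  have h3 := (ENNReal.ofReal_le_ofReal_iff (Real.sqrt_nonneg _)).1 hw3
  simp only [ENNReal.toReal_ofNat, Pi.sub_apply, Real.rpow_two, Real.norm_eq_abs, sq_abs] at h3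
  have h4 : 0 ≤ ∫ x in U, (f x - w x) ^ 2 := integral_nonneg fun x => sq_nonneg _
  have h5 : (∫ x in U, (f x - w x) ^ 2) ^ ((2 : ℝ)⁻¹) = Real.sqrt (∫ x in U, (f x - w x) ^ 2) := by
    rw [Real.sqrt_eq_rpow, one_div]
  rw [h5] at h3
  exact (Real.sqrt_le_sqrt_iff hε.le).1 h3

/-! ## The kernel -/

/-- Partial derivatives in the first variable. -/
lemma pd_fst {F : E3 × E3 → ℝ} {N : Set E3} (hN : IsOpen N)
    (hF : ContDiffOn ℝ ∞ F (N ×ˢ Set.univ)) {x : E3} (hx : x ∈ N) (y : E3) (j : Fin 3) :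
    pd j (fun z => F (z, y)) x = fderiv ℝ F (x, y) (EuclideanSpace.single j 1, 0) := by
  have h1 : ContDiffAt ℝ ∞ F (x, y) :=
    (hF (x, y) ⟨hx, trivial⟩).contDiffAt ((hN.prod isOpen_univ).mem_nhds ⟨hx, trivial⟩)
  have h2 : HasFDerivAt F (fderiv ℝ F (x, y)) (x, y) :=
    (h1.differentiableAt (by simp)).hasFDerivAt
  have h3 : HasFDerivAt (fun z : E3 => (z, y)) (ContinuousLinearMap.inl ℝ E3 E3) x :=
    hasFDerivAt_prodMk_left x y
  have h4 := h2.comp x h3
  unfold pd
  have h5 : (fun z => F (z, y)) = F ∘ fun z : E3 => (z, y) := rfl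
  rw [h5, h4.fderiv]
  simp

lemma fd_smooth {F : E3 × E3 → ℝ} {N : Set E3} (hN : IsOpen N)
    (hF : ContDiffOn ℝ ∞ F (N ×ˢ Set.univ)) (e : E3 × E3) :
    ContDiffOn ℝ ∞ (fun q => fderiv ℝ F q e) (N ×ˢ Set.univ) := by
  have h1 := hF.fderiv_of_isOpen (hN.prod isOpen_univ) (m := ∞) (by simp)
  exact h1.clm_apply contDiffOn_const

lemma cont_snd {F : E3 × E3 → ℝ} {N : Set E3} (hF : ContDiffOn ℝ ∞ F (N ×ˢ Set.univ))
    {x : E3} (hx : x ∈ N) : Continuous fun y => F (x, y) :=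
  hF.continuousOn.comp_continuous (by fun_prop) (fun y => ⟨hx, trivial⟩)

section

variable {V : Set E3} {a b : ℝ} {g : TensorField} {W : E3 → ℝ}

/-- `y ↦ L_x F (x, y)` is continuous. -/
lemma cont_lap (hSMO : Stmt_SMO) (hRUL : Stmt_RUL) (h : Fol V a b g W) {F : E3 × E3 → ℝ}
    {N : Set E3} (hN : IsOpen N) (hNV : N ⊆ V) (hF : ContDiffOn ℝ ∞ F (N ×ˢ Set.univ)) {x : E3}
    (hx : x ∈ N) : Continuous fun y => lap g W (fun z => F (z, y)) x := by
  set H : Fin 3 → E3 × E3 → ℝ := fun i q => dens g W q.1 *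
    ∑ j, prj g q.1 (grad W q.1) i j * fderiv ℝ F q (EuclideanSpace.single j 1, 0) with hH
  have h1 : ∀ i, ContDiffOn ℝ ∞ (H i) (N ×ˢ Set.univ) := by
    intro i q hq
    have hr := hSMO.2 g W q.1 (h.reg (hNV hq.1))
    have hd : ContDiffAt ℝ ∞ (dens g W) q.1 := hr.2.2.2.2.2.2.2.2.1
    have hp : ∀ j, ContDiffAt ℝ ∞ (fun y => prj g y (grad W y) i j) q.1 :=
      fun j => hr.2.2.2.2.2.2.2.2.2.2.1 i j
    have hq' : N ×ˢ (Set.univ : Set E3) ∈ 𝓝 q := (hN.prod isOpen_univ).mem_nhds hq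
    apply ContDiffAt.contDiffWithinAt
    refine ContDiffAt.mul (hd.comp q contDiffAt_fst) (ContDiffAt.sum fun j _ => ?_)
    exact ContDiffAt.mul ((hp j).comp q contDiffAt_fst) ((fd_smooth hN hF _ q hq).contDiffAt hq')
  have h2 : ∀ i y, pd i (fun z => dens g W z * lgrad g W (fun z => F (z, y)) z i) x
      = fderiv ℝ (H i) (x, y) (EuclideanSpace.single i 1, 0) := by
    intro i y
    rw [← pd_fst hN (h1 i) hx y i]
    unfold pd
    congr 1
    apply Filter.EventuallyEq.fderiv_eq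
    filter_upwards [hN.mem_nhds hx] with z hz
    simp only [hH]
    rw [(hRUL g W z (h.reg (hNV hz))).2.2.2.2.1 (fun z => F (z, y)) i]
    congr 1
    refine Finset.sum_congr rfl fun j _ => ?_
    rw [pd_fst hN hF hz y j]
  have h3 : (fun y => lap g W (fun z => F (z, y)) x) = fun y =>
      (∑ i, fderiv ℝ (H i) (x, y) (EuclideanSpace.single i 1, 0)) / dens g W x := by
    ext y
    unfold lap ldiv
    congr 1
    exact Finset.sum_congr rfl fun i _ => h2 i y
  rw [h3]
  refine Continuous.div_const (continuous_finsetSum _ fun i _ => ?_) _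
  exact cont_snd (fd_smooth hN (h1 i) _) hx

/-- `k_t(x, ·)` is a test function. -/
lemma testK {c d : ℝ} {k : ℝ → E3 → E3 → ℝ} {t0 R C m0 : ℝ} (h : Fol V a b g W)
    (hac : a < c) (hdb : d < b) (hM : Moll V g W c d k t0 R C m0) {t c' d' : ℝ} (ht : 0 < t)
    (ht0 : t < t0) (hc : t < c' - c) (hd : t < d - d') {x : E3} (hx : x ∈ cslab V W c' d') :
    TestOn (slab V W c d) (fun y => k t x y) := by
  obtain ⟨N, hN, hKN, hNV, hk⟩ := hM.smooth t ht ht0
  have hxK : x ∈ cslab V W c d := ⟨hx.1, by linarith [hx.2.1], by linarith [hx.2.2]⟩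
  have hK : IsCompact (cslab V W (c' - t) (d' + t)) :=
    h.proper _ _ (by linarith) (by linarith)
  have hs : ∀ y, k t x y ≠ 0 → y ∈ cslab V W (c' - t) (d' + t) := by
    intro y hy
    obtain ⟨h1, h2, h3⟩ := hM.supp t ht ht0 x hxK y hy
    rw [abs_lt] at h3
    exact ⟨h1, by linarith [hx.2.1, h3.2], by linarith [hx.2.2, h3.1]⟩
  have hts : tsupport (fun y => k t x y) ⊆ cslab V W (c' - t) (d' + t) :=
    closure_minimal (fun y hy => hs y hy) hK.isClosed
  refine ⟨?_, HasCompactSupport.of_support_subset_isCompact hK fun y hy => hs y hy,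
    hts.trans (cslab_subset_slab (by linarith) (by linarith))⟩
  rw [contDiff_iff_contDiffAt]
  intro y
  have h1 : ContDiffAt ℝ ∞ (fun q : E3 × E3 => k t q.1 q.2) (x, y) :=
    (hk (x, y) ⟨hKN hxK, trivial⟩).contDiffAt
      ((hN.prod isOpen_univ).mem_nhds ⟨hKN hxK, trivial⟩)
  exact h1.comp y (contDiffAt_const.prodMk contDiffAt_id)

/-- Functions continuous on `V` are bounded on the slab. -/
lemma bdd {c d : ℝ} (h : Fol V a b g W) (hac : a < c) (hdb : d < b) {f : E3 → ℝ}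
    (hf : ContinuousOn f V) :
    AEStronglyMeasurable f (volume.restrict (slab V W c d)) ∧ ∃ B : ℝ,
      ∀ᵐ x ∂(volume.restrict (slab V W c d)), |f x| ≤ B := by
  refine ⟨(hf.mono (slab_subset c d)).aestronglyMeasurable (measurableSet_slab h c d), ?_⟩
  obtain ⟨B, hB⟩ := (h.proper c d hac hdb).exists_bound_of_continuousOn (hf.mono (cslab_subset c d))
  refine ⟨B, ?_⟩
  filter_upwards [ae_restrict_mem (measurableSet_slab h c d)] with x hx
  exact hB x (slab_subset_cslab c d hx)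

lemma mem_mul {c d : ℝ} (h : Fol V a b g W) (hac : a < c) (hdb : d < b) {f u : E3 → ℝ}
    (hf : ContinuousOn f V) (hu : MemLp u 2 (volume.restrict (slab V W c d))) :
    MemLp (fun x => f x * u x) 2 (volume.restrict (slab V W c d)) := by
  obtain ⟨h1, B, h2⟩ := bdd h hac hdb hf
  exact (bdd_mul h1 h2 hu).1

lemma integ {c d : ℝ} (h : Fol V a b g W) (hac : a < c) (hdb : d < b) {u : E3 → ℝ}
    (hu : MemLp u 2 (volume.restrict (slab V W c d))) :
    Integrable u (volume.restrict (slab V W c d)) := by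
  have : IsFiniteMeasure (volume.restrict (slab V W c d)) :=
    ⟨by rw [Measure.restrict_apply_univ]; exact volume_slab_lt_top h hac hdb⟩
  exact hu.integrable (by norm_num)

lemma cont_dens (hSMO : Stmt_SMO) (h : Fol V a b g W) : ContinuousOn (dens g W) V := fun x hx =>
  ((hSMO.2 g W x (h.reg hx)).2.2.2.2.2.2.2.2.1).continuousAt.continuousWithinAt

lemma dens_pos (hSMO : Stmt_SMO) (h : Fol V a b g W) {x : E3} (hx : x ∈ V) : 0 < dens g W x :=
  (hSMO.2 g W x (h.reg hx)).2.2.2.1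

lemma cont_lap_test (hSMO : Stmt_SMO) (h : Fol V a b g W) {f : E3 → ℝ} (hf : ContDiff ℝ ∞ f) :
    ContinuousOn (lap g W f) V := fun x hx =>
  (((hSMO.2 g W x (h.reg hx)).2.2.2.2.2.2.2.2.2.2.2.2.1 f f hf.contDiffAt
    hf.contDiffAt).2.1).continuousAt.continuousWithinAt

/-- The equation of the smoothed function. -/
lemma eqn (hSMO : Stmt_SMO) (hRUL : Stmt_RUL) (hDU : Stmt_DU) {c d : ℝ} {k : ℝ → E3 → E3 → ℝ}
    {t0 R C m0 : ℝ} (h : Fol V a b g W) (hac : a < c) (hcd : c < d) (hdb : d < b)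
    (hM : Moll V g W c d k t0 R C m0) {κ : ℝ} {v : E3 → ℝ}
    (hv : MemLp v 2 (volume.restrict (slab V W c d)))
    (hw : ∀ h : E3 → ℝ, TestOn (slab V W c d) h →
        ∫ x in slab V W c d, v x * (κ * h x - lap g W h x) * dens g W x = 0)
    {t c' d' : ℝ} (ht : 0 < t)
    (ht0 : t < t0) (hc : t < c' - c) (hd : t < d - d') {x : E3} (hx : x ∈ cslab V W c' d') :
    lap g W (moll V g W c d k t v) x
      = κ * moll V g W c d k t v x + cmt V g W c d k t v x := by
  have hT := testK h hac hdb hM ht ht0 hc hd hx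
  have hxK : x ∈ cslab V W c d := ⟨hx.1, by linarith [hx.2.1], by linarith [hx.2.2]⟩
  have hxS : x ∈ slab V W c d := ⟨hx.1, by linarith [hx.2.1], by linarith [hx.2.2]⟩
  obtain ⟨N, hN, hKN, hNV, hk⟩ := hM.smooth t ht ht0
  have hm := cont_dens hSMO h
  have c1 : ContinuousOn (fun y => lap g W (fun z => k t z y) x) V :=
    (cont_lap hSMO hRUL h hN hNV hk (hKN hxK)).continuousOn
  have c2 : ContinuousOn (lap g W (fun z => k t x z)) V := cont_lap_test hSMO h hT.smooth
  have c3 : ContinuousOn (fun y => k t x y) V := hT.smooth.continuous.continuousOn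
  have i1 : Integrable (fun y => lap g W (fun z => k t z y) x * v y * dens g W y)
      (volume.restrict (slab V W c d)) := by
    have := integ h hac hdb (mem_mul h hac hdb (c1.mul hm) hv)
    refine this.congr (Eventually.of_forall fun y => ?_)
    simp only [Pi.mul_apply]; ring
  have i2 : Integrable (fun y => lap g W (fun z => k t x z) y * v y * dens g W y)
      (volume.restrict (slab V W c d)) := by
    have := integ h hac hdb (mem_mul h hac hdb (c2.mul hm) hv)
    refine this.congr (Eventually.of_forall fun y => ?_)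
    simp only [Pi.mul_apply]; ring
  have i3 : Integrable (fun y => k t x y * v y * dens g W y)
      (volume.restrict (slab V W c d)) := by
    have := integ h hac hdb (mem_mul h hac hdb (c3.mul hm) hv)
    refine this.congr (Eventually.of_forall fun y => ?_)
    simp only [Pi.mul_apply]; ring
  have e1 := (hDU V a b g W h c d hac hcd hdb k t0 R C m0 hM v hv t ht ht0).2 x hxS
  have e2 := hw _ hT
  have e3 : ∫ y in slab V W c d, v y * (κ * k t x y - lap g W (fun y => k t x y) y) * dens g W y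
      = κ * moll V g W c d k t v x
        - ∫ y in slab V W c d, lap g W (fun z => k t x z) y * v y * dens g W y := by
    unfold moll
    rw [← integral_const_mul, ← integral_sub (i3.const_mul κ) i2]
    congr 1
    ext y
    ring
  have e4 : cmt V g W c d k t v x
      = (∫ y in slab V W c d, lap g W (fun z => k t z y) x * v y * dens g W y)
        - ∫ y in slab V W c d, lap g W (fun z => k t x z) y * v y * dens g W y := by
    unfold cmt
    rw [← integral_sub i1 i2]
    congr 1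
    ext y
    ring
  rw [e1, e4]
  linarith

/-- The cut-off of a smooth function is a test function. -/
lemma cutT {c d : ℝ} (h : Fol V a b g W) (hac : a < c) (hcd : c < d) (hdb : d < b) {ψ : ℝ → ℝ}
    (hψ : ContDiff ℝ ∞ ψ) (hψs : tsupport ψ ⊆ Set.Ioo c d) {w : E3 → ℝ} (hw : ContDiff ℝ ∞ w) :
    TestOn (slab V W c d) (Set.indicator (slab V W c d) (fun x => ψ (W x) * w x)) := by
  obtain ⟨c', d', hc', hcd', hd', hs⟩ := exists_Icc_of_tsupport hcd hψs
  have hK : IsCompact (cslab V W c' d') := h.proper _ _ (by linarith) (by linarith)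
  have hKU : cslab V W c' d' ⊆ slab V W c d := cslab_subset_slab hc' hd'
  have hsupp : ∀ x, Set.indicator (slab V W c d) (fun x => ψ (W x) * w x) x ≠ 0 →
      x ∈ cslab V W c' d' := by
    intro x hx
    by_cases hxU : x ∈ slab V W c d
    · rw [Set.indicator_of_mem hxU] at hx
      have := hs (W x) (left_ne_zero_of_mul hx)
      exact ⟨hxU.1, this.1, this.2⟩
    · exact absurd (Set.indicator_of_notMem hxU _) hx
  refine ⟨?_, HasCompactSupport.of_support_subset_isCompact hK fun y hy => hsupp y hy,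
    (closure_minimal (fun y hy => hsupp y hy) hK.isClosed).trans hKU⟩
  rw [contDiff_iff_contDiffAt]
  intro x
  by_cases hxU : x ∈ slab V W c d
  · have h1 : ContDiffAt ℝ ∞ (fun x => ψ (W x) * w x) x :=
      (hψ.contDiffAt.comp x (h.contDiffAt hxU.1)).mul hw.contDiffAt
    refine h1.congr_of_eventuallyEq ?_
    filter_upwards [(isOpen_slab h c d).mem_nhds hxU] with z hz
    exact Set.indicator_of_mem hz _
  · have h1 : ContDiffAt ℝ ∞ (fun _ : E3 => (0 : ℝ)) x := contDiffAt_const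
    refine h1.congr_of_eventuallyEq ?_
    filter_upwards [hK.isClosed.isOpen_compl.mem_nhds fun hx => hxU (hKU hx)] with z hz
    by_contra h2
    exact hz (hsupp z h2)

/-- The energy estimate. -/
lemma energy (hSMO : Stmt_SMO) (hRUL : Stmt_RUL) (hIBP : Stmt_IBP) (hDU : Stmt_DU)
    (hCONV : Stmt_CONV) {c d : ℝ} {k : ℝ → E3 → E3 → ℝ}
    {t0 R C m0 : ℝ} (h : Fol V a b g W) (hac : a < c) (hcd : c < d) (hdb : d < b)
    (hM : Moll V g W c d k t0 R C m0) {κ : ℝ} (hκ : 0 < κ) {v : E3 → ℝ}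
    (hv : MemLp v 2 (volume.restrict (slab V W c d)))
    (hw : ∀ h : E3 → ℝ, TestOn (slab V W c d) h →
        ∫ x in slab V W c d, v x * (κ * h x - lap g W h x) * dens g W x = 0)
    {ψ : ℝ → ℝ} (hψ : ContDiff ℝ ∞ ψ) (hψ0 : ∀ s, 0 ≤ ψ s) (hψs : tsupport ψ ⊆ Set.Ioo c d) :
    ∫ x in slab V W c d, (ψ (W x) * dens g W x) * v x ^ 2 ≤ 0 := by
  have hU := measurableSet_slab h c d
  have hm := cont_dens hSMO h
  set A : E3 → ℝ := fun x => ψ (W x) * dens g W x with hAdef
  have hA : ContinuousOn A V := (hψ.continuous.comp_continuousOn h.continuousOn).mul hm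
  obtain ⟨hA1, A0, hA2⟩ := bdd h hac hdb hA
  obtain ⟨c', d', hc', hcd', hd', hs⟩ := exists_Icc_of_tsupport hcd hψs
  obtain ⟨C1, hC1, hconv⟩ := hCONV V a b g W h c d hac hcd hdb k t0 R C m0 hM
  obtain ⟨hb, hl⟩ := hconv v hv
  set S : ℝ := ∫ x in slab V W c d, v x ^ 2 with hS
  have hS0 : 0 ≤ S := integral_nonneg fun x => sq_nonneg _
  have hev : ∀ᶠ t in 𝓝[>] (0 : ℝ), 0 < t ∧ t < t0 ∧ t < c' - c ∧ t < d - d' := by
    have : 0 < min t0 (min (c' - c) (d - d')) :=
      lt_min hM.t0_pos (lt_min (by linarith) (by linarith))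
    filter_upwards [Ioo_mem_nhdsGT this] with t ht
    have h1 := lt_min_iff.1 ht.2
    have h2 := lt_min_iff.1 h1.2
    exact ⟨ht.1, h1.1, h2.1, h2.2⟩
  have heq : ∀ t, (0 < t ∧ t < t0 ∧ t < c' - c ∧ t < d - d') → ∀ x ∈ slab V W c d,
      ψ (W x) ≠ 0 → lap g W (moll V g W c d k t v) x
      = κ * moll V g W c d k t v x + cmt V g W c d k t v x := by
    intro t ht x hx hne
    have := hs (W x) hne
    exact eqn hSMO hRUL hDU h hac hcd hdb hM hv hw ht.1 ht.2.1 ht.2.2.1 ht.2.2.2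
      ⟨hx.1, this.1, this.2⟩
  -- bounds
  have hvt : ∀ t, (0 < t ∧ t < t0 ∧ t < c' - c ∧ t < d - d') →
      MemLp (moll V g W c d k t v) 2 (volume.restrict (slab V W c d)) :=
    fun t ht => (hb t ht.1 ht.2.1).1
  have het : ∀ t, (0 < t ∧ t < t0 ∧ t < c' - c ∧ t < d - d') →
      MemLp (cmt V g W c d k t v) 2 (volume.restrict (slab V W c d)) :=
    fun t ht => (hb t ht.1 ht.2.1).2.1
  have hut : ∀ t, (0 < t ∧ t < t0 ∧ t < c' - c ∧ t < d - d') →
      MemLp (fun x => moll V g W c d k t v x - m0 * v x) 2 (volume.restrict (slab V W c d)) :=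
    fun t ht => (hvt t ht).sub (hv.const_mul m0)
  have hAe : ∀ t, (0 < t ∧ t < t0 ∧ t < c' - c ∧ t < d - d') →
      MemLp (fun x => A x * cmt V g W c d k t v x) 2 (volume.restrict (slab V W c d)) ∧
      ∫ x in slab V W c d, (A x * cmt V g W c d k t v x) ^ 2 ≤ A0 ^ 2 * (C1 * S) := by
    intro t ht
    obtain ⟨h1, h2⟩ := bdd_mul hA1 hA2 (het t ht)
    exact ⟨h1, h2.trans (mul_le_mul_of_nonneg_left (hb t ht.1 ht.2.1).2.2.2 (sq_nonneg _))⟩
  have hAv : ∀ t, (0 < t ∧ t < t0 ∧ t < c' - c ∧ t < d - d') →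
      MemLp (fun x => A x * (moll V g W c d k t v x + m0 * v x)) 2
        (volume.restrict (slab V W c d)) ∧
      ∫ x in slab V W c d, (A x * (moll V g W c d k t v x + m0 * v x)) ^ 2
        ≤ A0 ^ 2 * (2 * (C1 * S) + 2 * (m0 ^ 2 * S)) := by
    intro t ht
    obtain ⟨h1, h2⟩ := bdd_mul hA1 hA2 ((hvt t ht).add (hv.const_mul m0))
    refine ⟨h1, h2.trans (mul_le_mul_of_nonneg_left ?_ (sq_nonneg _))⟩
    have i1 : Integrable (fun x => 2 * moll V g W c d k t v x ^ 2)
      (volume.restrict (slab V W c d)) := (hvt t ht).integrable_sq.const_mul 2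
    have i2 : Integrable (fun x => (2 * m0 ^ 2) * v x ^ 2)
      (volume.restrict (slab V W c d)) := hv.integrable_sq.const_mul _
    have i3 : Integrable (fun x => (moll V g W c d k t v x + m0 * v x) ^ 2)
      (volume.restrict (slab V W c d)) := ((hvt t ht).add (hv.const_mul m0)).integrable_sq
    have h3 : ∫ x in slab V W c d, (moll V g W c d k t v x + m0 * v x) ^ 2
        ≤ ∫ x in slab V W c d, (2 * moll V g W c d k t v x ^ 2 + (2 * m0 ^ 2) * v x ^ 2) := by
      refine integral_mono i3 (i1.add i2) fun x => ?_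
      have := sq_nonneg (moll V g W c d k t v x - m0 * v x)
      simp only
      nlinarith
    rw [integral_add i1 i2, integral_const_mul, integral_const_mul] at h3
    have h4 := (hb t ht.1 ht.2.1).2.2.1
    simp only [Pi.add_apply]
    nlinarith
  -- the limit of the quadratic term
  have hJ : Tendsto (fun t => ∫ x in slab V W c d, A x * moll V g W c d k t v x ^ 2) (𝓝[>] 0)
      (𝓝 (m0 ^ 2 * ∫ x in slab V W c d, A x * v x ^ 2)) := by
    have h1 := tend_mul (μ := volume.restrict (slab V W c d)) (l := 𝓝[>] (0 : ℝ))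
      (hev.mono hut) (hev.mono fun t ht => (hAv t ht).1) (hev.mono fun t ht => (hAv t ht).2) hl
    have h2 : Tendsto (fun t => (∫ x in slab V W c d, (moll V g W c d k t v x - m0 * v x)
        * (A x * (moll V g W c d k t v x + m0 * v x)))
        + m0 ^ 2 * ∫ x in slab V W c d, A x * v x ^ 2) (𝓝[>] 0)
        (𝓝 (0 + m0 ^ 2 * ∫ x in slab V W c d, A x * v x ^ 2)) := h1.add_const _
    rw [zero_add] at h2
    refine h2.congr' ?_
    filter_upwards [hev] with t ht
    have i1 : Integrable (fun x => (moll V g W c d k t v x - m0 * v x)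
        * (A x * (moll V g W c d k t v x + m0 * v x))) (volume.restrict (slab V W c d)) :=
      (hut t ht).integrable_mul (hAv t ht).1
    have i2 : Integrable (fun x => A x * v x ^ 2) (volume.restrict (slab V W c d)) := by
      have := (bdd_mul hA1 hA2 hv).1.integrable_mul hv
      refine this.congr (Eventually.of_forall fun x => ?_)
      simp only [Pi.mul_apply]; ring
    rw [← integral_const_mul, ← integral_add i1 (i2.const_mul _)]
    congr 1
    ext x
    ring
  -- the energy inequality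
  have hE : ∀ t, (0 < t ∧ t < t0 ∧ t < c' - c ∧ t < d - d') →
      κ * (∫ x in slab V W c d, A x * moll V g W c d k t v x ^ 2)
        + ∫ x in slab V W c d, moll V g W c d k t v x * (A x * cmt V g W c d k t v x) ≤ 0 := by
    intro t ht
    obtain ⟨hC2, -⟩ := hDU V a b g W h c d hac hcd hdb k t0 R C m0 hM v hv t ht.1 ht.2.1
    have h1 := (hIBP _ c d g W (h.sub hac.le hdb.le)).2.1 (moll V g W c d k t v)
      (moll V g W c d k t v) ψ (hC2.of_le (by norm_num)) hC2 (hψ.of_le (by simp)) hψs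
    have h2 : 0 ≤ ∫ x in slab V W c d, ψ (W x)
        * lin g W (moll V g W c d k t v) (moll V g W c d k t v) x * dens g W x := by
      refine setIntegral_nonneg hU fun x hx => ?_
      exact mul_nonneg (mul_nonneg (hψ0 _) ((hRUL g W x (h.reg hx.1)).2.2.1 _
        (moll V g W c d k t v)).2.1) (dens_pos hSMO h hx.1).le
    have h3 : ∫ x in slab V W c d, ψ (W x) * (moll V g W c d k t v x
          * lap g W (moll V g W c d k t v) x) * dens g W x
        = ∫ x in slab V W c d, (κ * (A x * moll V g W c d k t v x ^ 2)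
          + moll V g W c d k t v x * (A x * cmt V g W c d k t v x)) := by
      refine setIntegral_congr_fun hU fun x hx => ?_
      by_cases h4 : ψ (W x) = 0
      · simp [hAdef, h4]
      · simp only [hAdef]
        rw [heq t ht x hx h4]
        ring
    have i1 : Integrable (fun x => A x * moll V g W c d k t v x ^ 2)
        (volume.restrict (slab V W c d)) := by
      have := (bdd_mul hA1 hA2 (hvt t ht)).1.integrable_mul (hvt t ht)
      refine this.congr (Eventually.of_forall fun x => ?_)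
      simp only [Pi.mul_apply]; ring
    have i2 : Integrable (fun x => moll V g W c d k t v x * (A x * cmt V g W c d k t v x))
        (volume.restrict (slab V W c d)) := (hvt t ht).integrable_mul (hAe t ht).1
    rw [h3, integral_add (i1.const_mul κ) i2, integral_const_mul] at h1
    linarith
  -- the test function identity
  have hT : ∀ w : E3 → ℝ, ContDiff ℝ ∞ w → MemLp w 2 (volume.restrict (slab V W c d)) →
      Tendsto (fun t => ∫ x in slab V W c d, w x * (A x * cmt V g W c d k t v x)) (𝓝[>] 0)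
        (𝓝 0) := by
    intro w hws hw2
    have hf := cutT h hac hcd hdb hψ hψs hws
    set f0 : E3 → ℝ := Set.indicator (slab V W c d) (fun x => ψ (W x) * w x) with hf0
    have hφc : ContinuousOn (fun x => (lap g W f0 x - κ * f0 x) * dens g W x) V :=
      ((cont_lap_test hSMO h hf.smooth).sub
        (hf.smooth.continuous.continuousOn.const_mul κ)).mul hm
    have hone : MemLp (fun _ : E3 => (1 : ℝ)) 2 (volume.restrict (slab V W c d)) := by
      have : IsFiniteMeasure (volume.restrict (slab V W c d)) :=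
        ⟨by rw [Measure.restrict_apply_univ]; exact volume_slab_lt_top h hac hdb⟩
      exact memLp_const 1
    have hφ : MemLp (fun x => (lap g W f0 x - κ * f0 x) * dens g W x) 2
        (volume.restrict (slab V W c d)) := by
      simpa using mem_mul h hac hdb hφc hone
    have h1 := tend_mul (μ := volume.restrict (slab V W c d)) (l := 𝓝[>] (0 : ℝ))
      (G := fun _ x => (lap g W f0 x - κ * f0 x) * dens g W x)
      (hev.mono hut) (Eventually.of_forall fun _ => hφ) (Eventually.of_forall fun _ => le_rfl) hl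
    refine h1.congr' ?_
    filter_upwards [hev] with t ht
    obtain ⟨hC2, -⟩ := hDU V a b g W h c d hac hcd hdb k t0 R C m0 hM v hv t ht.1 ht.2.1
    have h2 := ((hIBP _ c d g W (h.sub hac.le hdb.le)).2.2 f0 (moll V g W c d k t v) hf hC2).2
    have h3 : ∫ x in slab V W c d, f0 x * lap g W (moll V g W c d k t v) x * dens g W x
        = ∫ x in slab V W c d, (κ * (moll V g W c d k t v x * (f0 x * dens g W x))
          + w x * (A x * cmt V g W c d k t v x)) := by
      refine setIntegral_congr_fun hU fun x hx => ?_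
      have h5 : f0 x = ψ (W x) * w x := Set.indicator_of_mem hx _
      simp only [h5]
      by_cases h4 : ψ (W x) = 0
      · simp [hAdef, h4]
      · simp only [hAdef]
        rw [heq t ht x hx h4]
        ring
    have hfm : MemLp (fun x => f0 x * dens g W x) 2 (volume.restrict (slab V W c d)) := by
      simpa using mem_mul h hac hdb (hf.smooth.continuous.continuousOn.mul hm) hone
    have hlm : MemLp (fun x => lap g W f0 x * dens g W x) 2 (volume.restrict (slab V W c d)) := by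
      simpa using mem_mul h hac hdb ((cont_lap_test hSMO h hf.smooth).mul hm) hone
    have i1 : Integrable (fun x => moll V g W c d k t v x * (f0 x * dens g W x))
        (volume.restrict (slab V W c d)) := (hvt t ht).integrable_mul hfm
    have i2 : Integrable (fun x => w x * (A x * cmt V g W c d k t v x))
        (volume.restrict (slab V W c d)) := hw2.integrable_mul (hAe t ht).1
    have i3 : Integrable (fun x => moll V g W c d k t v x * (lap g W f0 x * dens g W x))
        (volume.restrict (slab V W c d)) := (hvt t ht).integrable_mul hlm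
    have i4 : Integrable (fun x => v x * (f0 x * dens g W x))
        (volume.restrict (slab V W c d)) := hv.integrable_mul hfm
    have i5 : Integrable (fun x => v x * (lap g W f0 x * dens g W x))
        (volume.restrict (slab V W c d)) := hv.integrable_mul hlm
    rw [h3, integral_add (i1.const_mul κ) i2, integral_const_mul] at h2
    have h6 := hw f0 hf
    have h7 : ∫ x in slab V W c d, v x * (κ * f0 x - lap g W f0 x) * dens g W x
        = κ * (∫ x in slab V W c d, v x * (f0 x * dens g W x))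
          - ∫ x in slab V W c d, v x * (lap g W f0 x * dens g W x) := by
      rw [← integral_const_mul, ← integral_sub (i4.const_mul κ) i5]
      congr 1
      ext x
      ring
    have h8 : ∫ x in slab V W c d, (moll V g W c d k t v x - m0 * v x)
          * ((lap g W f0 x - κ * f0 x) * dens g W x)
        = ((∫ x in slab V W c d, moll V g W c d k t v x * (lap g W f0 x * dens g W x))
          - κ * ∫ x in slab V W c d, moll V g W c d k t v x * (f0 x * dens g W x))
          + m0 * (κ * (∫ x in slab V W c d, v x * (f0 x * dens g W x))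
          - ∫ x in slab V W c d, v x * (lap g W f0 x * dens g W x)) := by
      have i6 : Integrable (fun x => moll V g W c d k t v x * (lap g W f0 x * dens g W x)
          - κ * (moll V g W c d k t v x * (f0 x * dens g W x)))
          (volume.restrict (slab V W c d)) := i3.sub (i1.const_mul κ)
      have i7 : Integrable (fun x => m0 * (κ * (v x * (f0 x * dens g W x))
          - v x * (lap g W f0 x * dens g W x))) (volume.restrict (slab V W c d)) :=
        ((i4.const_mul κ).sub i5).const_mul m0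
      rw [← integral_const_mul, ← integral_const_mul, ← integral_sub i3 (i1.const_mul κ),
        ← integral_sub (i4.const_mul κ) i5, ← integral_const_mul,
        ← integral_add i6 i7]
      congr 1
      ext x
      ring
    have h9 : ∫ x in slab V W c d, moll V g W c d k t v x * lap g W f0 x * dens g W x
        = ∫ x in slab V W c d, moll V g W c d k t v x * (lap g W f0 x * dens g W x) := by
      congr 1
      ext x
      ring
    rw [h8, ← h7, h6]
    linarith
  -- conclusion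
  set B : ℝ := A0 ^ 2 * (C1 * S) with hB
  have hX : ∀ ε : ℝ, 0 < ε →
      κ * (m0 ^ 2 * ∫ x in slab V W c d, A x * v x ^ 2) ≤ Real.sqrt (ε * B) := by
    intro ε hε
    obtain ⟨w, hw1, hw2, hw3⟩ := approx (hv.const_mul m0) hε
    have hT1 := tend_mul (μ := volume.restrict (slab V W c d)) (l := 𝓝[>] (0 : ℝ))
      (hev.mono hut) (hev.mono fun t ht => (hAe t ht).1) (hev.mono fun t ht => (hAe t ht).2) hl
    have hT3 := hT w hw1 hw2
    have hL := hJ.const_mul κ
    have hR : Tendsto (fun t => Real.sqrt (ε * B)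
        - (∫ x in slab V W c d, (moll V g W c d k t v x - m0 * v x)
          * (A x * cmt V g W c d k t v x))
        - ∫ x in slab V W c d, w x * (A x * cmt V g W c d k t v x)) (𝓝[>] 0)
        (𝓝 (Real.sqrt (ε * B) - 0 - 0)) := (tendsto_const_nhds.sub hT1).sub hT3
    rw [sub_zero, sub_zero] at hR
    refine le_of_tendsto_of_tendsto hL hR ?_
    filter_upwards [hev] with t ht
    have h1 := hE t ht
    have i1 : Integrable (fun x => (moll V g W c d k t v x - m0 * v x)
        * (A x * cmt V g W c d k t v x)) (volume.restrict (slab V W c d)) :=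
      (hut t ht).integrable_mul (hAe t ht).1
    have i2 : Integrable (fun x => w x * (A x * cmt V g W c d k t v x))
        (volume.restrict (slab V W c d)) := hw2.integrable_mul (hAe t ht).1
    have hd2 : MemLp (fun x => m0 * v x - w x) 2 (volume.restrict (slab V W c d)) :=
      (hv.const_mul m0).sub hw2
    have i3 : Integrable (fun x => (m0 * v x - w x) * (A x * cmt V g W c d k t v x))
        (volume.restrict (slab V W c d)) := hd2.integrable_mul (hAe t ht).1
    have h2 : ∫ x in slab V W c d, moll V g W c d k t v x * (A x * cmt V g W c d k t v x)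
        = (∫ x in slab V W c d, (moll V g W c d k t v x - m0 * v x)
            * (A x * cmt V g W c d k t v x))
          + (∫ x in slab V W c d, (m0 * v x - w x) * (A x * cmt V g W c d k t v x))
          + ∫ x in slab V W c d, w x * (A x * cmt V g W c d k t v x) := by
      have i4 : Integrable (fun x => (moll V g W c d k t v x - m0 * v x)
          * (A x * cmt V g W c d k t v x) + (m0 * v x - w x) * (A x * cmt V g W c d k t v x))
          (volume.restrict (slab V W c d)) := i1.add i3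
      rw [← integral_add i1 i3, ← integral_add i4 i2]
      congr 1
      ext x
      ring
    have h3 := cs hd2 (hAe t ht).1
    have h4 : (∫ x in slab V W c d, (m0 * v x - w x) ^ 2)
        * (∫ x in slab V W c d, (A x * cmt V g W c d k t v x) ^ 2) ≤ ε * B :=
      mul_le_mul hw3 (hAe t ht).2 (integral_nonneg fun x => sq_nonneg _) hε.le
    have h5 : |∫ x in slab V W c d, (m0 * v x - w x) * (A x * cmt V g W c d k t v x)|
        ≤ Real.sqrt (ε * B) := Real.abs_le_sqrt (h3.trans h4)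
    have h6 := (abs_le.1 h5).1
    linarith
  have hlim : Tendsto (fun ε : ℝ => Real.sqrt (ε * B)) (𝓝[>] 0) (𝓝 0) := by
    have h1 : Tendsto (fun ε : ℝ => Real.sqrt (ε * B)) (𝓝 0) (𝓝 (Real.sqrt (0 * B))) :=
      ((continuous_id.mul continuous_const).sqrt).tendsto 0
    rw [zero_mul, Real.sqrt_zero] at h1
    exact h1.mono_left nhdsWithin_le_nhds
  have hfin : κ * (m0 ^ 2 * ∫ x in slab V W c d, A x * v x ^ 2) ≤ 0 := by
    refine ge_of_tendsto hlim ?_
    filter_upwards [self_mem_nhdsWithin] with ε hε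
    exact hX ε hε
  have hpos : 0 < κ * m0 ^ 2 := mul_pos hκ (pow_pos hM.m0_pos 2)
  by_contra hcon
  push Not at hcon
  have := mul_pos hpos hcon
  linarith [mul_assoc κ (m0 ^ 2) (∫ x in slab V W c d, A x * v x ^ 2)]

end

end WUL

/-- (WU) Uniqueness of very weak solutions. -/
theorem WU (hSMO : Stmt_SMO) (hRUL : Stmt_RUL) (hIBP : Stmt_IBP) (hDU : Stmt_DU)
    (hCONV : Stmt_CONV) (hKER : Stmt_KER) : Stmt_WU := by
  intro V a b g W h c d hac hcd hdb κ hκ v hv hw
  obtain ⟨k, t0, R, C, m0, hM⟩ := hKER V a b g W h c d hac hcd hdb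
  set r : ℝ := (d - c) / 2 with hr
  have hr0 : 0 < r := by rw [hr]; linarith
  have hU := measurableSet_slab h c d
  -- the cut-off functions
  have key : ∀ n : ℕ, ∀ᵐ x ∂(volume.restrict (slab V W c d)),
      |W x - (c + d) / 2| ≤ r * (1 - 1 / ((n : ℝ) + 2)) → v x = 0 := by
    intro n
    have hn : 0 < (n : ℝ) + 2 := by positivity
    have hn1 : 1 / ((n : ℝ) + 2) < 1 := by
      rw [div_lt_one hn]
      have : (0 : ℝ) ≤ n := Nat.cast_nonneg n
      linarith
    have hn0 : 0 < 1 / ((n : ℝ) + 2) := by positivity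
    let f : ContDiffBump ((c + d) / 2 : ℝ) :=
      ⟨r * (1 - 1 / ((n : ℝ) + 2)), r * (1 - 1 / ((n : ℝ) + 2) / 2),
        mul_pos hr0 (by linarith), mul_lt_mul_of_pos_left (by linarith) hr0⟩
    have h1 : tsupport f ⊆ Set.Ioo c d := by
      rw [f.tsupport_eq]
      intro s hs
      rw [Metric.mem_closedBall, Real.dist_eq] at hs
      have h2 : |s - (c + d) / 2| < r :=
        lt_of_le_of_lt hs (by
          have : r * (1 - 1 / ((n : ℝ) + 2) / 2) < r * 1 :=
            mul_lt_mul_of_pos_left (by linarith) hr0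
          change r * (1 - 1 / ((n : ℝ) + 2) / 2) < r
          linarith)
      rw [abs_lt] at h2
      exact ⟨by linarith [h2.1], by linarith [h2.2]⟩
    have h2 := WUL.energy hSMO hRUL hIBP hDU hCONV h hac hcd hdb hM hκ hv hw f.contDiff
      (fun s => f.nonneg) h1
    have hA : ContinuousOn (fun x => f (W x) * dens g W x) V :=
      (f.continuous.comp_continuousOn h.continuousOn).mul (WUL.cont_dens hSMO h)
    obtain ⟨hA1, A0, hA2⟩ := WUL.bdd h hac hdb hA
    have hint : Integrable (fun x => (f (W x) * dens g W x) * v x ^ 2)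
        (volume.restrict (slab V W c d)) := by
      have := (WUL.bdd_mul hA1 hA2 hv).1.integrable_mul hv
      refine this.congr (Eventually.of_forall fun x => ?_)
      simp only [Pi.mul_apply]; ring
    have hnn : 0 ≤ᵐ[volume.restrict (slab V W c d)]
        fun x => (f (W x) * dens g W x) * v x ^ 2 := by
      filter_upwards [ae_restrict_mem hU] with x hx
      exact mul_nonneg (mul_nonneg f.nonneg (WUL.dens_pos hSMO h hx.1).le) (sq_nonneg _)
    have h3 : ∫ x in slab V W c d, (f (W x) * dens g W x) * v x ^ 2 = 0 :=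
      le_antisymm h2 (integral_nonneg_of_ae hnn)
    have h4 := (integral_eq_zero_iff_of_nonneg_ae hnn hint).1 h3
    filter_upwards [h4, ae_restrict_mem hU] with x hx hxU hWx
    have h5 : f (W x) = 1 := f.one_of_mem_closedBall (by
      rw [Metric.mem_closedBall, Real.dist_eq]; exact hWx)
    simp only [h5, one_mul, Pi.zero_apply] at hx
    rcases mul_eq_zero.1 hx with h6 | h6
    · exact absurd h6 (WUL.dens_pos hSMO h hxU.1).ne'
    · exact pow_eq_zero_iff (by norm_num) |>.1 h6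
  filter_upwards [ae_all_iff.2 key, ae_restrict_mem hU] with x hx hxU
  have h1 : |W x - (c + d) / 2| < r := by
    rw [abs_lt]
    constructor
    · have := hxU.2.1
      rw [hr]; linarith
    · have := hxU.2.2
      rw [hr]; linarith
  have h2 : 0 < 1 - |W x - (c + d) / 2| / r := by
    rw [sub_pos, div_lt_one hr0]; exact h1
  obtain ⟨n, hn⟩ := exists_nat_gt (1 / (1 - |W x - (c + d) / 2| / r))
  apply hx n
  have hn2 : 0 < (n : ℝ) + 2 := by positivity
  have h3 : 1 / ((n : ℝ) + 2) ≤ 1 - |W x - (c + d) / 2| / r := by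
    rw [div_le_iff₀ hn2]
    rw [div_lt_iff₀ h2] at hn
    nlinarith
  have h4 : |W x - (c + d) / 2| / r ≤ 1 - 1 / ((n : ℝ) + 2) := by linarith
  rw [div_le_iff₀ hr0] at h4
  linarith

end Pool.Agent.PFlow.GB


end

section

/-!
# Block GB: the singular function `φ₀`
-/

open MeasureTheory Filter Topology
open scoped ContDiff

namespace Pool.Agent.PFlow.GB

open Pool.Agent.PenroseSph Pool.Agent.PFlow

namespace PHI0m

variable {g : TensorField} {W : E3 → ℝ}

theorem pd_congr {f h : E3 → ℝ} {x : E3} (H : f =ᶠ[𝓝 x] h) (i : Fin 3) :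
    pd i f x = pd i h x := by
  unfold pd
  rw [H.fderiv_eq]

theorem grad_congr {f h : E3 → ℝ} {x : E3} (H : f =ᶠ[𝓝 x] h) :
    ∀ᶠ y in 𝓝 x, grad f y = grad h y := by
  filter_upwards [H.eventually_nhds] with y hy
  funext i
  exact pd_congr hy i

theorem lap_congr {f h : E3 → ℝ} {x : E3} (H : f =ᶠ[𝓝 x] h) : lap g W f x = lap g W h x := by
  unfold lap ldiv
  congr 1
  refine Finset.sum_congr rfl fun i _ => pd_congr ?_ i
  filter_upwards [grad_congr H] with y hy
  simp only [lgrad, hy]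

theorem lap_zero (x : E3) : lap g W (fun _ => 0) x = 0 := by
  have h1 : ∀ y i, lgrad g W (fun _ => 0) y i = 0 := by
    intro y i
    simp [lgrad, raise, grad, pd]
  unfold lap ldiv
  simp only [h1, mul_zero]
  simp [pd]

/-! ### The truncated logarithm -/

theorem lg_contDiffAt (t1 : ℝ) {s : ℝ} (hs : 0 < s) : ContDiffAt ℝ ∞ (lg t1) s := by
  unfold lg
  refine (Real.contDiffAt_log.2 hs.ne').mul ?_
  refine Real.smoothTransition.contDiffAt.comp s ?_
  fun_prop

theorem lg_small {t1 s : ℝ} (ht : 0 < t1) (hs : s ≤ t1 / 2) : lg t1 s = Real.log s := by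
  unfold lg
  rw [Real.smoothTransition.one_of_one_le, mul_one]
  have : 2 * s / t1 ≤ 1 := by
    rw [div_le_one ht]
    linarith
  linarith

theorem lg_large {t1 s : ℝ} (ht : 0 < t1) (hs : t1 ≤ s) : lg t1 s = 0 := by
  unfold lg
  rw [Real.smoothTransition.zero_of_nonpos, mul_zero]
  have : 2 ≤ 2 * s / t1 := by
    rw [le_div_iff₀ ht]
    linarith
  linarith

theorem lg_bound {t1 C : ℝ} (ht : 0 < t1) (hC : 0 < C) : ∃ D : ℝ, 0 < D ∧ ∀ s L N : ℝ, 0 < s →
    |L - 4| ≤ C * s → |N - 4 * s| ≤ C * s ^ 2 →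
    |deriv (lg t1) s * L + deriv (deriv (lg t1)) s * N| ≤ D := by
  have hsm : ContDiffOn ℝ ∞ (lg t1) (Set.Ioi 0) := fun s hs =>
    (lg_contDiffAt t1 hs).contDiffWithinAt
  have hsm1 : ContDiffOn ℝ ∞ (deriv (lg t1)) (Set.Ioi 0) :=
    hsm.deriv_of_isOpen isOpen_Ioi (by simp)
  have hsm2 : ContDiffOn ℝ ∞ (deriv (deriv (lg t1))) (Set.Ioi 0) :=
    hsm1.deriv_of_isOpen isOpen_Ioi (by simp)
  have hsub : Set.Icc (t1 / 2) t1 ⊆ Set.Ioi 0 := fun s hs => by
    have := hs.1
    show 0 < s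
    linarith
  obtain ⟨M1, hM1⟩ := isCompact_Icc.exists_bound_of_continuousOn (hsm1.continuousOn.mono hsub)
  obtain ⟨M2, hM2⟩ := isCompact_Icc.exists_bound_of_continuousOn (hsm2.continuousOn.mono hsub)
  have hM1' : 0 ≤ M1 := (norm_nonneg _).trans (hM1 t1 ⟨by linarith, le_rfl⟩)
  have hM2' : 0 ≤ M2 := (norm_nonneg _).trans (hM2 t1 ⟨by linarith, le_rfl⟩)
  refine ⟨2 * C + M1 * (4 + C * t1) + M2 * (4 * t1 + C * t1 ^ 2), by positivity, ?_⟩
  intro s L N hs hL hN
  have hp1 : 0 ≤ M1 * (4 + C * t1) := by positivity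
  have hp2 : 0 ≤ M2 * (4 * t1 + C * t1 ^ 2) := by positivity
  rcases lt_or_ge s (t1 / 2) with h1 | h1
  · have e1 : lg t1 =ᶠ[𝓝 s] Real.log := by
      filter_upwards [Iio_mem_nhds h1] with s' hs'
      exact lg_small ht hs'.le
    have e2 : deriv (lg t1) =ᶠ[𝓝 s] fun s => s⁻¹ := by
      filter_upwards [e1.eventually_nhds] with s' hs'
      have h9 : lg t1 =ᶠ[𝓝 s'] Real.log := hs'
      rw [h9.deriv_eq, Real.deriv_log]
    have e3 : deriv (deriv (lg t1)) s = -(s ^ 2)⁻¹ := by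
      rw [e2.deriv_eq, deriv_inv]
    have e4 : deriv (lg t1) s = s⁻¹ := e2.eq_of_nhds
    have e5 : deriv (lg t1) s * L + deriv (deriv (lg t1)) s * N =
        s⁻¹ * (L - 4) - (s ^ 2)⁻¹ * (N - 4 * s) := by
      rw [e3, e4]
      field_simp
      ring
    rw [e5]
    have e6 : |s⁻¹ * (L - 4)| ≤ C := by
      rw [abs_mul, abs_of_pos (inv_pos.2 hs)]
      calc s⁻¹ * |L - 4| ≤ s⁻¹ * (C * s) := mul_le_mul_of_nonneg_left hL (inv_pos.2 hs).le
        _ = C := by field_simp
    have e7 : |(s ^ 2)⁻¹ * (N - 4 * s)| ≤ C := by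
      have hs2 : 0 < s ^ 2 := by positivity
      rw [abs_mul, abs_of_pos (inv_pos.2 hs2)]
      calc (s ^ 2)⁻¹ * |N - 4 * s| ≤ (s ^ 2)⁻¹ * (C * s ^ 2) :=
            mul_le_mul_of_nonneg_left hN (inv_pos.2 hs2).le
        _ = C := by field_simp
    have e8 := abs_sub (s⁻¹ * (L - 4)) ((s ^ 2)⁻¹ * (N - 4 * s))
    linarith
  rcases le_or_gt s t1 with h2 | h2
  · have k1 : |deriv (lg t1) s| ≤ M1 := by
      have := hM1 s ⟨h1, h2⟩
      rwa [Real.norm_eq_abs] at this
    have k2 : |deriv (deriv (lg t1)) s| ≤ M2 := by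
      have := hM2 s ⟨h1, h2⟩
      rwa [Real.norm_eq_abs] at this
    have k3 : |L| ≤ 4 + C * t1 := by
      have a1 := abs_le.1 hL
      have a2 : C * s ≤ C * t1 := mul_le_mul_of_nonneg_left h2 hC.le
      rw [abs_le]
      constructor <;> linarith [a1.1, a1.2]
    have k4 : |N| ≤ 4 * t1 + C * t1 ^ 2 := by
      have a1 := abs_le.1 hN
      have a2 : C * s ^ 2 ≤ C * t1 ^ 2 := by
        refine mul_le_mul_of_nonneg_left ?_ hC.le
        exact pow_le_pow_left₀ hs.le h2 2
      rw [abs_le]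
      constructor <;> linarith [a1.1, a1.2]
    have k5 := abs_add_le (deriv (lg t1) s * L) (deriv (deriv (lg t1)) s * N)
    rw [abs_mul, abs_mul] at k5
    have k6 : |deriv (lg t1) s| * |L| ≤ M1 * (4 + C * t1) :=
      mul_le_mul k1 k3 (abs_nonneg _) hM1'
    have k7 : |deriv (deriv (lg t1)) s| * |N| ≤ M2 * (4 * t1 + C * t1 ^ 2) :=
      mul_le_mul k2 k4 (abs_nonneg _) hM2'
    linarith
  · have e1 : lg t1 =ᶠ[𝓝 s] fun _ => 0 := by
      filter_upwards [Ioi_mem_nhds h2] with s' hs'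
      exact lg_large ht hs'.le
    have e2 : deriv (lg t1) =ᶠ[𝓝 s] fun _ => 0 := by
      filter_upwards [e1.eventually_nhds] with s' hs'
      have h9 : lg t1 =ᶠ[𝓝 s'] fun _ => 0 := hs'
      rw [h9.deriv_eq, deriv_const]
    have e3 : deriv (deriv (lg t1)) s = 0 := by
      rw [e2.deriv_eq, deriv_const]
    have e4 : deriv (lg t1) s = 0 := e2.eq_of_nhds
    rw [e3, e4, zero_mul, zero_mul, add_zero, abs_zero]
    positivity

/-! ### The two halves of the singular function -/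

open Classical in
/-- One half of the singular function. -/
noncomputable def ps (g : TensorField) (W : E3 → ℝ) (Φ : E3 → E3) (z0 : E3) (r e t1 τ : ℝ)
    (x : E3) : ℝ :=
  if x ∈ Φ '' obox z0 r e then lg t1 (rp g W Φ z0 τ x) else 0

theorem phi0_eq (g : TensorField) (W : E3 → ℝ) (Φ : E3 → E3) (z0 : E3) (r e t1 : ℝ) :
    phi0 g W Φ z0 r e t1 = fun x => (1 / 2 : ℝ) * ps g W Φ z0 r e t1 (-(r / 2)) x +
      (-(1 / 2) : ℝ) * ps g W Φ z0 r e t1 (r / 2) x := by
  funext x
  unfold phi0 ps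
  split_ifs
  · ring
  · ring

theorem coord_le (x y : E3) (i : Fin 3) : |x i - y i| ≤ dist x y := by
  rw [dist_eq_norm]
  exact PiLp.norm_apply_le (x - y) i

theorem obox_subset_box (z0 : E3) (r e : ℝ) : obox z0 r e ⊆ box z0 r e :=
  fun _ hz => ⟨hz.1.le, hz.2.1.le, hz.2.2.le⟩

section

variable {V : Set E3} {a b : ℝ} {Φ : E3 → E3} {z0 : E3} {r e t1 : ℝ}

theorem W_chart (hC : Chart V W Φ z0 r e) {z : E3} (hz : z ∈ box z0 r e) : W (Φ z) = z 2 := by
  obtain ⟨N, _, hN, _, _, _, _, h⟩ := hC.nbhd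
  exact h z (hN hz)

/-- Outside of the chart the pole functions are large. -/
theorem far (hC : Chart V W Φ z0 r e) (hS : SepAt g W Φ z0 r e t1)
    (hK : IsCompact (Φ '' box z0 r e)) {c : ℝ} (hc : 0 < c)
    (hd : ∀ z ∈ box z0 r e, ∀ z' ∈ box z0 r e, c * dist z z' ≤ dist (Φ z) (Φ z'))
    {τ : ℝ} (hτ : τ = r / 2 ∨ τ = -(r / 2)) {x : E3} (hx : |W x - z0 2| < e)
    (hxB : x ∉ Φ '' obox z0 r e) :
    ∀ᶠ y in 𝓝 x, y ∈ Φ '' obox z0 r e → t1 < rp g W Φ z0 τ y := by
  by_cases hxK : x ∈ Φ '' box z0 r e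
  · obtain ⟨z, hz, rfl⟩ := hxK
    have hr := hC.r_pos
    have h1 : r ≤ |z 0 - z0 0| ∨ r ≤ |z 1 - z0 1| := by
      by_contra hcon
      rw [not_or, not_le, not_le] at hcon
      refine hxB ⟨z, ⟨hcon.1, hcon.2, ?_⟩, rfl⟩
      rwa [W_chart hC hz] at hx
    have h2 : ∀ᶠ y in 𝓝 (Φ z), dist (Φ z) y < c * (r / 4) := by
      have h3 : Metric.ball (Φ z) (c * (r / 4)) ∈ 𝓝 (Φ z) :=
        Metric.ball_mem_nhds _ (by positivity)
      filter_upwards [h3] with y hy
      rw [dist_comm]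
      exact hy
    filter_upwards [h2] with y hy hyB
    obtain ⟨z', hz', rfl⟩ := hyB
    by_contra hcon
    rw [not_lt] at hcon
    obtain ⟨h4, h5⟩ := hS.2 z' (obox_subset_box _ _ _ hz') τ hτ hcon
    have h6 := hd z hz z' (obox_subset_box _ _ _ hz')
    have h7 : dist z z' < r / 4 := lt_of_mul_lt_mul_left (h6.trans_lt hy) hc.le
    have h8 := (abs_lt.1 ((coord_le z z' 0).trans_lt h7))
    have h9 := (abs_lt.1 ((coord_le z z' 1).trans_lt h7))
    have h10 := abs_le.1 h4
    have h11 := abs_le.1 h5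
    rcases h1 with h1 | h1
    · refine absurd h1 (not_le.2 (abs_lt.2 ?_))
      rcases hτ with rfl | rfl
      · constructor <;> linarith [h8.1, h8.2, h10.1, h10.2]
      · constructor <;> linarith [h8.1, h8.2, h10.1, h10.2]
    · refine absurd h1 (not_le.2 (abs_lt.2 ?_))
      constructor <;> linarith [h9.1, h9.2, h11.1, h11.2]
  · filter_upwards [hK.isClosed.isOpen_compl.mem_nhds hxK] with y hy hyB
    exact absurd (Set.image_mono (obox_subset_box _ _ _) hyB) hy

/-- The two poles are separated. -/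
theorem other (hC : Chart V W Φ z0 r e) (hS : SepAt g W Φ z0 r e t1) {y : E3}
    (hy : y ∈ Φ '' obox z0 r e) {τ : ℝ} (hτ : τ = r / 2 ∨ τ = -(r / 2))
    (h : rp g W Φ z0 τ y ≤ t1) : t1 < rp g W Φ z0 (-τ) y := by
  obtain ⟨z, hz, rfl⟩ := hy
  have hr := hC.r_pos
  by_contra hcon
  rw [not_lt] at hcon
  have hτ' : -τ = r / 2 ∨ -τ = -(r / 2) := by
    rcases hτ with rfl | rfl
    · exact Or.inr rfl
    · exact Or.inl (neg_neg _)
  have h1 := abs_le.1 (hS.2 z (obox_subset_box _ _ _ hz) τ hτ h).1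
  have h2 := abs_le.1 (hS.2 z (obox_subset_box _ _ _ hz) (-τ) hτ' hcon).1
  rcases hτ with rfl | rfl
  · linarith [h1.1, h1.2, h2.1, h2.2]
  · linarith [h1.1, h1.2, h2.1, h2.2]

/-- `ps` in the chart. -/
theorem ps_near {τ : ℝ} (hO : IsOpen (Φ '' obox z0 r e)) {x : E3} (hx : x ∈ Φ '' obox z0 r e) :
    ps g W Φ z0 r e t1 τ =ᶠ[𝓝 x] fun y => lg t1 (rp g W Φ z0 τ y) := by
  filter_upwards [hO.mem_nhds hx] with y hy
  unfold ps
  rw [if_pos hy]

/-- `ps` far from the pole. -/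
theorem ps_far {τ : ℝ} (ht : 0 < t1) {x : E3}
    (h : ∀ᶠ y in 𝓝 x, y ∈ Φ '' obox z0 r e → t1 < rp g W Φ z0 τ y) :
    ps g W Φ z0 r e t1 τ =ᶠ[𝓝 x] fun _ => 0 := by
  filter_upwards [h] with y hy
  unfold ps
  split_ifs with h1
  · exact lg_large ht (hy h1).le
  · rfl

end

end PHI0m

open PHI0m in
theorem PHI0 (_hSMO : Stmt_SMO) (hRUL : Stmt_RUL) (hCHX : Stmt_CHX) (hPOLE : Stmt_POLE)
    (hSCAL : Stmt_SCAL) : Stmt_PHI0 := by
  intro V a b g W hF Φ z0 r e hC t1 hS
  obtain ⟨_, _, hK, hKV, hopen, _, _, _, c, C, hc, _, _, hd⟩ := hCHX V a b g W hF Φ z0 r e hC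
  have hr := hC.r_pos
  have ht := hS.1
  obtain ⟨B, hB⟩ : ∃ B : Set E3, B = Φ '' obox z0 r e := ⟨_, rfl⟩
  have hBo : IsOpen (Φ '' obox z0 r e) := by
    refine hopen (obox z0 r e) ?_ subset_rfl
    have h0 : IsOpen {z : E3 | |z 0 - z0 0| < r} := isOpen_lt (by fun_prop) continuous_const
    have h1 : IsOpen {z : E3 | |z 1 - z0 1| < r} := isOpen_lt (by fun_prop) continuous_const
    have h2 : IsOpen {z : E3 | |z 2 - z0 2| < e} := isOpen_lt (by fun_prop) continuous_const
    exact h0.inter (h1.inter h2)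
  have hBV : Φ '' obox z0 r e ⊆ V := (Set.image_mono (obox_subset_box _ _ _)).trans hKV
  have hUo : IsOpen (slab V W (z0 2 - e) (z0 2 + e)) := isOpen_slab hF _ _
  have hUe : ∀ x ∈ slab V W (z0 2 - e) (z0 2 + e), |W x - z0 2| < e := by
    intro x hx
    have h := hx.2
    rw [abs_lt]
    constructor
    · linarith [h.1]
    · linarith [h.2]
  have habs : ∀ τ : ℝ, (τ = r / 2 ∨ τ = -(r / 2)) → |τ| < r := by
    intro τ hτ
    rw [abs_lt]
    rcases hτ with rfl | rfl
    · constructor <;> linarith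
    · constructor <;> linarith
  have hfar : ∀ τ : ℝ, (τ = r / 2 ∨ τ = -(r / 2)) → ∀ x ∈ slab V W (z0 2 - e) (z0 2 + e),
      x ∉ Φ '' obox z0 r e → ∀ᶠ y in 𝓝 x, y ∈ Φ '' obox z0 r e → t1 < rp g W Φ z0 τ y :=
    fun τ hτ x hx hxB => far hC hS hK hc (fun z hz z' hz' => (hd z hz z' hz').1) hτ (hUe x hx) hxB
  have hsm : ∀ τ : ℝ, (τ = r / 2 ∨ τ = -(r / 2)) → ∀ x ∈ Φ '' obox z0 r e,
      ContDiffAt ℝ ∞ (rp g W Φ z0 τ) x := fun τ hτ x hx =>
    ((hPOLE V a b g W hF Φ z0 r e hC τ (habs τ hτ)).1 x hx).contDiffAt (hBo.mem_nhds hx)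
  have hnn : ∀ τ : ℝ, (τ = r / 2 ∨ τ = -(r / 2)) → ∀ x ∈ Φ '' obox z0 r e,
      0 ≤ rp g W Φ z0 τ x := by
    intro τ hτ x hx
    obtain ⟨_, c', C', hc', _, h1, _⟩ := hPOLE V a b g W hF Φ z0 r e hC τ (habs τ hτ)
    obtain ⟨z, hz, rfl⟩ := hx
    have h2 := (h1 z (obox_subset_box _ _ _ hz)).1
    refine le_trans ?_ h2
    positivity
  have hτ1 : -(r / 2) = r / 2 ∨ -(r / 2) = -(r / 2) := Or.inr rfl
  have hτ2 : r / 2 = r / 2 ∨ r / 2 = -(r / 2) := Or.inl rfl
  -- off the curves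
  have hoff : ∀ x ∈ slab V W (z0 2 - e) (z0 2 + e) \ sing g W Φ z0 r e,
      ∀ τ : ℝ, (τ = r / 2 ∨ τ = -(r / 2)) → x ∈ Φ '' obox z0 r e → 0 < rp g W Φ z0 τ x := by
    intro x hx τ hτ hxB
    refine lt_of_le_of_ne (hnn τ hτ x hxB) fun h => hx.2 ⟨hxB, ?_⟩
    rcases hτ with rfl | rfl
    · exact Or.inr h.symm
    · exact Or.inl h.symm
  have hpsm : ∀ x ∈ slab V W (z0 2 - e) (z0 2 + e) \ sing g W Φ z0 r e,
      ∀ τ : ℝ, (τ = r / 2 ∨ τ = -(r / 2)) → ContDiffAt ℝ ∞ (ps g W Φ z0 r e t1 τ) x := by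
    intro x hx τ hτ
    by_cases hxB : x ∈ Φ '' obox z0 r e
    · refine ContDiffAt.congr_of_eventuallyEq ?_ (ps_near hBo hxB)
      exact (lg_contDiffAt t1 (hoff x hx τ hτ hxB)).comp x (hsm τ hτ x hxB)
    · exact contDiffAt_const.congr_of_eventuallyEq (ps_far ht (hfar τ hτ x hx.1 hxB))
  refine ⟨?_, ?_, ?_, ?_, ?_⟩
  · rw [isOpen_iff_mem_nhds]
    intro x hx
    by_cases hxB : x ∈ Φ '' obox z0 r e
    · have h1 := hoff x hx _ hτ1 hxB
      have h2 := hoff x hx _ hτ2 hxB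
      filter_upwards [hUo.mem_nhds hx.1,
        (hsm _ hτ1 x hxB).continuousAt.eventually (lt_mem_nhds h1),
        (hsm _ hτ2 x hxB).continuousAt.eventually (lt_mem_nhds h2)] with y hy h3 h4
      refine ⟨hy, fun hs => ?_⟩
      rcases hs.2 with h5 | h5
      · exact h3.ne' h5
      · exact h4.ne' h5
    · filter_upwards [hUo.mem_nhds hx.1, hfar _ hτ1 x hx.1 hxB, hfar _ hτ2 x hx.1 hxB] with
        y hy h3 h4
      refine ⟨hy, fun hs => ?_⟩
      rcases hs.2 with h5 | h5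
      · exact absurd h5 (ht.trans (h3 hs.1)).ne'
      · exact absurd h5 (ht.trans (h4 hs.1)).ne'
  · have h1 := (hSCAL V a b g W hF Φ z0 r e hC (-(r / 2)) (habs _ hτ1)).1
    have h2 := (hSCAL V a b g W hF Φ z0 r e hC (r / 2) (habs _ hτ2)).1
    refine measure_mono_null ?_ (measure_union_null h1 h2)
    rintro x ⟨hx, h | h⟩
    · exact Or.inl ⟨hx, h⟩
    · exact Or.inr ⟨hx, h⟩
  · intro x hx
    rw [phi0_eq]
    exact ((contDiffAt_const.mul (hpsm x hx _ hτ1)).add
      (contDiffAt_const.mul (hpsm x hx _ hτ2))).contDiffWithinAt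
  · intro τ hτ x hx h0 h1
    have h2 : ∀ᶠ y in 𝓝 x, rp g W Φ z0 τ y < t1 / 2 :=
      (hsm τ hτ x hx).continuousAt.eventually (gt_mem_nhds h1)
    filter_upwards [hBo.mem_nhds hx, h2] with y hyB hy
    have h3 := other hC hS hyB hτ (by linarith)
    have h4 := lg_small ht hy.le
    have h5 := lg_large ht h3.le
    unfold phi0
    rw [if_pos hyB]
    rcases hτ with rfl | rfl
    · rw [if_pos rfl, h4, h5]
      ring
    · rw [neg_neg] at h5
      rw [if_neg (by linarith), h4, h5]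
      ring
  · -- the bound of `ρ₀`
    have hb : ∀ τ : ℝ, (τ = r / 2 ∨ τ = -(r / 2)) → ∃ D : ℝ, 0 < D ∧
        ∀ x ∈ slab V W (z0 2 - e) (z0 2 + e) \ sing g W Φ z0 r e,
          |lap g W (ps g W Φ z0 r e t1 τ) x| ≤ D := by
      intro τ hτ
      obtain ⟨_, c', C', hc', hC', _, hpole⟩ := hPOLE V a b g W hF Φ z0 r e hC τ (habs τ hτ)
      obtain ⟨D, hD, hDb⟩ := lg_bound ht hC'
      refine ⟨D, hD, fun x hx => ?_⟩
      by_cases hxB : x ∈ Φ '' obox z0 r e
      · have hpos := hoff x hx τ hτ hxB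
        obtain ⟨h1, h2, _, _⟩ := hpole x hxB
        have h3 := (hRUL g W x (hF.reg (hBV hxB))).2.2.2.2.2.2.2.2.1 (rp g W Φ z0 τ) (lg t1)
          ((hsm τ hτ x hxB).of_le (by norm_cast))
          ((lg_contDiffAt t1 hpos).of_le (by norm_cast))
        rw [lap_congr (ps_near hBo hxB), h3]
        exact hDb _ _ _ hpos h2 h1
      · rw [lap_congr (ps_far ht (hfar τ hτ x hx.1 hxB)), lap_zero, abs_zero]
        exact hD.le
    obtain ⟨D1, hD1, hb1⟩ := hb _ hτ1
    obtain ⟨D2, hD2, hb2⟩ := hb _ hτ2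
    refine ⟨D1 + D2, by positivity, fun x hx => ?_⟩
    unfold rho0
    split_ifs with hs
    · rw [abs_zero]
      positivity
    · have hR := hRUL g W x (hF.reg hx.1)
      have hle : (2 : WithTop ℕ∞) ≤ ∞ := by norm_cast
      have s1 := (hpsm x ⟨hx, hs⟩ _ hτ1).of_le hle
      have s2 := (hpsm x ⟨hx, hs⟩ _ hτ2).of_le hle
      have hlin : ∀ (κ : ℝ) (f : E3 → ℝ), ContDiffAt ℝ 2 f x →
          lap g W (fun y => κ * f y) x = κ * lap g W f x := by
        intro κ f hf
        exact hR.2.2.2.2.2.2.2.2.2.2.1 f (fun _ => κ) hf contDiffAt_const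
      rw [phi0_eq, (hR.2.2.2.2.2.1 _ _ (contDiffAt_const.mul s1) (contDiffAt_const.mul s2)).1,
        hlin _ _ s1, hlin _ _ s2]
      have e1 := abs_le.1 (hb1 x ⟨hx, hs⟩)
      have e2 := abs_le.1 (hb2 x ⟨hx, hs⟩)
      rw [abs_le]
      constructor <;> linarith [e1.1, e1.2, e2.1, e2.2]

end Pool.Agent.PFlow.GB


end

section

/-!
# The a priori bound

`|D²w|² / |dw|` is locally integrable.
-/

open MeasureTheory Filter Topology
open scoped ContDiff Manifold

namespace Pool.Agent.PFlow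

open Pool.Agent.PenroseSph

namespace MAPB

/-- A cut-off function. -/
theorem cutoff {U K : Set E3} (hU : IsOpen U) (hK : IsCompact K) (hKU : K ⊆ U) :
    ∃ f : E3 → ℝ, ContDiff ℝ ∞ f ∧ HasCompactSupport f ∧ tsupport f ⊆ U ∧ (∀ x ∈ K, f x = 1) ∧
      (∀ x, 0 ≤ f x) ∧ ∀ x, f x ≤ 1 := by
  obtain ⟨K', hK', hKK', hK'U⟩ := exists_compact_between hK hU hKU
  obtain ⟨f, hf1, hf2, hf3⟩ := exists_contMDiffMap_one_nhds_of_subset_interior (n := (⊤ : ℕ∞))
    𝓘(ℝ, E3) hK.isClosed hKK'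
  have hfs : ContDiff ℝ ∞ (f : E3 → ℝ) := f.contMDiff.contDiff
  have hsupp : Function.support (fun z => f z) ⊆ K' := by
    intro z hz
    by_contra h
    exact hz (hf2 z h)
  have hts : tsupport (fun z => f z) ⊆ K' :=
    closure_minimal hsupp hK'.isClosed
  refine ⟨fun z => f z, hfs, hK'.of_isClosed_subset (isClosed_tsupport _) hts, hts.trans hK'U,
    ?_, fun x => (hf3 x).1, fun x => (hf3 x).2⟩
  intro z hz
  exact (hf1.filter_mono (nhds_le_nhdsSet hz)).self_of_nhds

theorem vsq_nonneg (p : Cov) : 0 ≤ vsq p := Finset.sum_nonneg fun i _ => sq_nonneg (p i)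

theorem msq_nonneg (M : Bil) : 0 ≤ msq M :=
  Finset.sum_nonneg fun i _ => Finset.sum_nonneg fun j _ => sq_nonneg (M i j)

theorem vn_nonneg (p : Cov) : 0 ≤ vn p := Real.sqrt_nonneg _

theorem abs_le_vn (p : Cov) (i : Fin 3) : |p i| ≤ vn p := by
  unfold vn vsq
  apply Real.abs_le_sqrt
  exact Finset.single_le_sum (f := fun j => p j ^ 2) (fun j _ => sq_nonneg (p j))
    (Finset.mem_univ i)

theorem Ddx_zero (g : TensorField) (d : ℝ) (x : E3) : Ddx g d x 0 0 = 0 := by
  have h : cHess g x 0 0 = 0 := by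
    ext i j
    simp [cHess]
  unfold Ddx
  rw [h]
  simp [Dd, tr2, dd, qf, ev, up, app]

/-- `|p| ≤ C √(|p|_P² + d²)`. -/
theorem vn_le_ld (P : Bil) (p : Cov) (d C : ℝ) (hC : 1 ≤ C) (h : vsq p / C ≤ ev P p p) :
    vn p ≤ C * ld P d p := by
  have hC0 : 0 < C := by linarith
  have h1 : vsq p ≤ C * ev P p p := by
    rw [div_le_iff₀ hC0] at h
    linarith
  have h0 : 0 ≤ ev P p p := le_trans (div_nonneg (vsq_nonneg p) hC0.le) h
  have h2 : vsq p ≤ C ^ 2 * (ev P p p + d ^ 2) := by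
    nlinarith [sq_nonneg d, mul_nonneg (by linarith : (0 : ℝ) ≤ C - 1) h0, sq_nonneg (C * d),
      mul_nonneg (mul_nonneg hC0.le (by linarith : (0 : ℝ) ≤ C - 1)) h0]
  unfold vn ld
  calc √(vsq p) ≤ √(C ^ 2 * (ev P p p + d ^ 2)) := Real.sqrt_le_sqrt h2
    _ = C * √(ev P p p + d ^ 2) := by
        rw [Real.sqrt_mul (sq_nonneg C), Real.sqrt_sq hC0.le]

/-- `√(|p|_P² + d²) ≤ C √(|p|² + d²)`. -/
theorem ld_le (P : Bil) (p : Cov) (d C : ℝ) (hC : 1 ≤ C) (h : ev P p p ≤ C * vsq p) :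
    ld P d p ≤ C * √(vsq p + d ^ 2) := by
  have hC0 : 0 < C := by linarith
  have h2 : ev P p p + d ^ 2 ≤ C ^ 2 * (vsq p + d ^ 2) := by
    have h3 : 0 ≤ (C - 1) * vsq p := mul_nonneg (by linarith) (vsq_nonneg p)
    have h4 : 0 ≤ (C ^ 2 - 1) * d ^ 2 := mul_nonneg (by nlinarith) (sq_nonneg d)
    have h5 : 0 ≤ C * ((C - 1) * vsq p) := mul_nonneg hC0.le h3
    nlinarith
  unfold ld
  calc √(ev P p p + d ^ 2) ≤ √(C ^ 2 * (vsq p + d ^ 2)) := Real.sqrt_le_sqrt h2
    _ = C * √(vsq p + d ^ 2) := by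
        rw [Real.sqrt_mul (sq_nonneg C), Real.sqrt_sq hC0.le]

/-- The size of the 2-jet. -/
noncomputable def sz (p : Cov) (M : Bil) : ℝ := (∑ i, ∑ j, |M i j|) + ∑ k, |p k|

theorem sz_nonneg (p : Cov) (M : Bil) : 0 ≤ sz p M :=
  add_nonneg (Finset.sum_nonneg fun _ _ => Finset.sum_nonneg fun _ _ => abs_nonneg _)
    (Finset.sum_nonneg fun _ _ => abs_nonneg _)

theorem cHess_le (g : TensorField) (x : E3) (p : Cov) (M : Bil) (C : ℝ) (hC : 1 ≤ C)
    (hΓ : ∀ k i j, |christoffel g k i j x| ≤ C) (i j : Fin 3) :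
    |cHess g x p M i j| ≤ C * sz p M := by
  have h1 : |M i j| ≤ ∑ i, ∑ j, |M i j| :=
    le_trans (Finset.single_le_sum (f := fun j => |M i j|) (fun _ _ => abs_nonneg _)
      (Finset.mem_univ j))
      (Finset.single_le_sum (f := fun i => ∑ j, |M i j|)
        (fun _ _ => Finset.sum_nonneg fun _ _ => abs_nonneg _) (Finset.mem_univ i))
  have h2 : |∑ k, christoffel g k i j x * p k| ≤ C * ∑ k, |p k| := by
    rw [Finset.mul_sum]
    refine (Finset.abs_sum_le_sum_abs _ _).trans (Finset.sum_le_sum fun k _ => ?_)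
    rw [abs_mul]
    exact mul_le_mul_of_nonneg_right (hΓ k i j) (abs_nonneg _)
  have h0 : 0 ≤ ∑ i, ∑ j, |M i j| :=
    Finset.sum_nonneg fun _ _ => Finset.sum_nonneg fun _ _ => abs_nonneg _
  calc |cHess g x p M i j| = |M i j - ∑ k, christoffel g k i j x * p k| := rfl
    _ ≤ |M i j| + |∑ k, christoffel g k i j x * p k| := abs_sub _ _
    _ ≤ C * sz p M := by
        unfold sz
        nlinarith

theorem sum_abs_le {a : Fin 3 → ℝ} {B : ℝ} (h : ∀ i, |a i| ≤ B) : |∑ i, a i| ≤ 3 * B := by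
  refine (Finset.abs_sum_le_sum_abs _ _).trans ?_
  calc ∑ i, |a i| ≤ ∑ _i : Fin 3, B := Finset.sum_le_sum fun i _ => h i
    _ = 3 * B := by simp

theorem up_le (P : Bil) (q : Cov) (C B : ℝ) (hP : ∀ i j, |P i j| ≤ C)
    (hq : ∀ i, |q i| ≤ B) (i : Fin 3) : |up P q i| ≤ 3 * (C * B) := by
  refine sum_abs_le fun j => ?_
  rw [abs_mul]
  exact mul_le_mul (hP i j) (hq j) (abs_nonneg _) ((abs_nonneg _).trans (hP i j))

theorem Yf_le (g : TensorField) (x : E3) (p : Cov) (M : Bil) (d C : ℝ) (hC : 1 ≤ C) (hd : 0 < d)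
    (hP : ∀ i j, |(g x)⁻¹ i j| ≤ C) (hΓ : ∀ k i j, |christoffel g k i j x| ≤ C)
    (hev : vsq p / C ≤ ev (g x)⁻¹ p p) (i : Fin 3) :
    |Yf g d x p M i| ≤ 54 * C ^ 4 * sz p M := by
  have hC0 : 0 < C := by linarith
  have hH := cHess_le g x p M C hC hΓ
  have hs := sz_nonneg p M
  have hv := vn_nonneg p
  have htr : |trg g x (cHess g x p M)| ≤ 3 * (3 * (C * (C * sz p M))) := by
    refine sum_abs_le fun i => sum_abs_le fun j => ?_
    rw [abs_mul]
    exact mul_le_mul (hP i j) (hH i j) (abs_nonneg _) hC0.le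
  have hup : ∀ j, |up (g x)⁻¹ p j| ≤ 3 * (C * vn p) :=
    up_le _ _ _ _ hP (abs_le_vn p)
  have happ : ∀ j, |app (g x)⁻¹ (cHess g x p M) p j| ≤ 3 * (C * sz p M * (3 * (C * vn p))) := by
    intro j
    refine sum_abs_le fun k => ?_
    rw [abs_mul]
    exact mul_le_mul (hH j k) (hup k) (abs_nonneg _) (mul_nonneg hC0.le hs)
  have hq : ∀ j, |trg g x (cHess g x p M) * p j - app (g x)⁻¹ (cHess g x p M) p j| ≤
      18 * C ^ 2 * sz p M * vn p := by
    intro j
    refine (abs_sub _ _).trans ?_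
    rw [abs_mul]
    have h1 : |trg g x (cHess g x p M)| * |p j| ≤ 3 * (3 * (C * (C * sz p M))) * vn p :=
      mul_le_mul htr (abs_le_vn p j) (abs_nonneg _) (by positivity)
    have h2 := happ j
    nlinarith
  have h1 : |up (g x)⁻¹ (fun j => trg g x (cHess g x p M) * p j
      - app (g x)⁻¹ (cHess g x p M) p j) i| ≤ 3 * (C * (18 * C ^ 2 * sz p M * vn p)) :=
    up_le _ _ _ _ hP hq i
  have hld : 0 < ld (g x)⁻¹ d p := by
    unfold ld
    apply Real.sqrt_pos.2
    have : 0 ≤ ev (g x)⁻¹ p p := le_trans (div_nonneg (vsq_nonneg p) hC0.le) hev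
    positivity
  have h2 := vn_le_ld (g x)⁻¹ p d C hC hev
  unfold Yf
  rw [abs_div, abs_of_pos hld, div_le_iff₀ hld]
  refine h1.trans ?_
  calc 3 * (C * (18 * C ^ 2 * sz p M * vn p)) = 54 * C ^ 3 * sz p M * vn p := by ring
    _ ≤ 54 * C ^ 3 * sz p M * (C * ld (g x)⁻¹ d p) :=
        mul_le_mul_of_nonneg_left h2 (by positivity)
    _ = _ := by ring

/-- The pointwise inequality. -/
theorem point (ε : ℝ) (g h : TensorField) (x : E3) (p : Cov) (M : Bil) (d C₁ C₂ : ℝ)
    (hC₁ : 1 ≤ C₁) (hC₂ : 1 ≤ C₂) (hd : 0 < d) (hres : resid ε g h x p M = 0)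
    (hup : Ddx g d x p M ≤ 1 / ld (g x)⁻¹ d p * (- (msq M / C₁)
      + C₁ * (resid ε g h x p M ^ 2 + vsq p * (1 + vsq p))))
    (hev : vsq p / C₂ ≤ ev (g x)⁻¹ p p ∧ ev (g x)⁻¹ p p ≤ C₂ * vsq p) :
    msq M / √(vsq p + d ^ 2) ≤
      C₁ * C₂ * (- Ddx g d x p M + C₁ * C₂ * (vn p * (1 + vsq p))) := by
  have h10 : 0 < C₁ := by linarith
  have h20 : 0 < C₂ := by linarith
  have hv := vsq_nonneg p
  have hm := msq_nonneg M
  have hld : 0 < ld (g x)⁻¹ d p := by
    unfold ld
    apply Real.sqrt_pos.2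
    have : 0 ≤ ev (g x)⁻¹ p p := le_trans (div_nonneg hv h20.le) hev.1
    positivity
  have hlm : 0 < √(vsq p + d ^ 2) := Real.sqrt_pos.2 (by positivity)
  have h1 := ld_le (g x)⁻¹ p d C₂ hC₂ hev.2
  have h2 := vn_le_ld (g x)⁻¹ p d C₂ hC₂ hev.1
  have h3 : msq M / √(vsq p + d ^ 2) ≤ C₂ * (msq M / ld (g x)⁻¹ d p) := by
    rw [← mul_div_assoc, div_le_div_iff₀ hlm hld]
    calc msq M * ld (g x)⁻¹ d p ≤ msq M * (C₂ * √(vsq p + d ^ 2)) :=
          mul_le_mul_of_nonneg_left h1 hm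
      _ = _ := by ring
  rw [hres] at hup
  have h4 : msq M / ld (g x)⁻¹ d p ≤
      C₁ * (- Ddx g d x p M + C₁ * (vsq p * (1 + vsq p) / ld (g x)⁻¹ d p)) := by
    have e : 1 / ld (g x)⁻¹ d p * (- (msq M / C₁) + C₁ * ((0 : ℝ) ^ 2 + vsq p * (1 + vsq p))) =
        - (msq M / ld (g x)⁻¹ d p) / C₁ + C₁ * (vsq p * (1 + vsq p) / ld (g x)⁻¹ d p) := by
      field_simp
      ring
    rw [e] at hup
    have h5 : (msq M / ld (g x)⁻¹ d p) / C₁ ≤
        - Ddx g d x p M + C₁ * (vsq p * (1 + vsq p) / ld (g x)⁻¹ d p) := by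
      have : - (msq M / ld (g x)⁻¹ d p) / C₁ = - ((msq M / ld (g x)⁻¹ d p) / C₁) := by ring
      linarith
    rw [div_le_iff₀ h10] at h5
    linarith
  have h6 : vsq p * (1 + vsq p) / ld (g x)⁻¹ d p ≤ C₂ * (vn p * (1 + vsq p)) := by
    rw [div_le_iff₀ hld]
    have e : vsq p = vn p * vn p := (Real.mul_self_sqrt hv).symm
    calc vsq p * (1 + vsq p) = vn p * (1 + vsq p) * vn p := by
          rw [show vsq p * (1 + vsq p) = vn p * vn p * (1 + vsq p) by rw [← e]]
          ring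
      _ ≤ vn p * (1 + vsq p) * (C₂ * ld (g x)⁻¹ d p) :=
          mul_le_mul_of_nonneg_left h2 (mul_nonneg (vn_nonneg p) (by linarith))
      _ = _ := by ring
  calc msq M / √(vsq p + d ^ 2) ≤ C₂ * (msq M / ld (g x)⁻¹ d p) := h3
    _ ≤ C₂ * (C₁ * (- Ddx g d x p M + C₁ * (vsq p * (1 + vsq p) / ld (g x)⁻¹ d p))) :=
        mul_le_mul_of_nonneg_left h4 h20.le
    _ ≤ C₂ * (C₁ * (- Ddx g d x p M + C₁ * (C₂ * (vn p * (1 + vsq p))))) := by
        refine mul_le_mul_of_nonneg_left (mul_le_mul_of_nonneg_left ?_ h10.le) h20.le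
        linarith [mul_le_mul_of_nonneg_left h6 h10.le]
    _ = _ := by ring

/-- The majorant of `|p| (1 + |p|²)`. -/
noncomputable def maj (p : Cov) : ℝ := 2 * (1 + 3 * ∑ i, ‖p i‖ ^ 4)

theorem maj_nonneg (p : Cov) : 0 ≤ maj p := by
  unfold maj
  have : 0 ≤ ∑ i, ‖p i‖ ^ 4 := Finset.sum_nonneg fun _ _ => by positivity
  positivity

theorem le_maj (p : Cov) : vn p * (1 + vsq p) ≤ maj p := by
  have hv := vn_nonneg p
  have e : vsq p = vn p ^ 2 := (Real.sq_sqrt (vsq_nonneg p)).symm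
  have h1 : vn p * (1 + vsq p) ≤ 2 * (1 + vsq p ^ 2) := by
    rw [e]
    nlinarith [sq_nonneg (vn p - 1), sq_nonneg (vn p ^ 2 - vn p), sq_nonneg (vn p ^ 2 - 1),
      sq_nonneg (vn p ^ 2), pow_nonneg hv 3]
  have h2 : vsq p ^ 2 ≤ 3 * ∑ i, ‖p i‖ ^ 4 := by
    have e1 : ∀ i, ‖p i‖ ^ 4 = (p i ^ 2) ^ 2 := by
      intro i
      rw [Real.norm_eq_abs, show |p i| ^ 4 = (|p i| ^ 2) ^ 2 by ring, sq_abs]
    simp only [e1]
    unfold vsq
    simp only [Fin.sum_univ_three]
    nlinarith [sq_nonneg (p 0 ^ 2 - p 1 ^ 2), sq_nonneg (p 0 ^ 2 - p 2 ^ 2),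
      sq_nonneg (p 1 ^ 2 - p 2 ^ 2)]
  unfold maj
  linarith

theorem int_of {U K' : Set E3} (hK' : IsCompact K') (ψ : E3 → ℝ)
    (hψ : Continuous ψ) (hψ0 : ∀ x, x ∉ K' → ψ x = 0) (S : E3 → ℝ)
    (hS : IntegrableOn S K') : IntegrableOn (fun x => ψ x * S x) U := by
  have h1 : IntegrableOn (fun x => ψ x * S x) K' := hS.continuousOn_mul hψ.continuousOn hK'
  have h2 : Function.support (fun x => ψ x * S x) ⊆ K' := by
    intro x hx
    by_contra h
    exact hx (by simp [hψ0 x h])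
  exact ((integrableOn_iff_integrable_of_support_subset h2).1 h1).integrableOn

theorem sz_int {K : Set E3} (hK : IsCompact K) (G : E3 → Cov) (M : E3 → Bil)
    (hG : ∀ i, MemLp (fun x => G x i) 4 (volume.restrict K))
    (hM : ∀ i j, MemLp (fun x => M x i j) 2 (volume.restrict K)) :
    IntegrableOn (fun x => sz (G x) (M x)) K := by
  have : IsFiniteMeasure (volume.restrict K) := ⟨by simpa using hK.measure_lt_top⟩
  have h1 : ∀ i, Integrable (fun x => |G x i|) (volume.restrict K) := fun i =>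
    ((hG i).integrable (by norm_num)).abs
  have h2 : ∀ i j, Integrable (fun x => |M x i j|) (volume.restrict K) := fun i j =>
    ((hM i j).integrable (by norm_num)).abs
  unfold sz
  exact (integrable_finsetSum _ fun i _ => integrable_finsetSum _ fun j _ => h2 i j).add
    (integrable_finsetSum _ fun i _ => h1 i)

theorem maj_int {K : Set E3} (hK : IsCompact K) (G : E3 → Cov)
    (hG : ∀ i, MemLp (fun x => G x i) 4 (volume.restrict K)) :
    IntegrableOn (fun x => maj (G x)) K := by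
  have : IsFiniteMeasure (volume.restrict K) := ⟨by simpa using hK.measure_lt_top⟩
  have h1 : ∀ i, Integrable (fun x => ‖G x i‖ ^ 4) (volume.restrict K) := fun i => by
    have := (hG i).integrable_norm_pow (p := 4) (by norm_num)
    exact this
  unfold maj
  exact ((integrable_const _).add
    ((integrable_finsetSum _ fun i _ => h1 i).const_mul 3)).const_mul 2

/-- The key bound, uniform in `d`. -/
theorem key (hUP : Stmt_UP) (hH2I : Stmt_H2I) (hCT : Stmt_CT) (ε : ℝ) (U : Set E3)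
    (g h : TensorField) (w : E3 → ℝ) (G : E3 → Cov) (M : E3 → Bil) (hε : 0 < ε) (hε1 : ε < 1)
    (hU : IsOpen U) (hg : MetricOn U g) (hh : TensorOn U h) (hw : H2s U w G M)
    (hE : EqW U ε g h G M) (K : Set E3) (hK : IsCompact K) (hKU : K ⊆ U) :
    ∃ R : ℝ, ∀ d : ℝ, 0 < d → d ≤ 1 →
      ∫⁻ x in K, ENNReal.ofReal (msq (M x) / √(vsq (G x) + d ^ 2)) ≤ ENNReal.ofReal R := by
  obtain ⟨f, hf, hfc, hfU, hf1, hf0, hfl⟩ := cutoff hU hK hKU
  have hK' : IsCompact (tsupport f) := hfc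
  obtain ⟨C₁, hC₁, h1⟩ := hUP ε U g h hε hε1 hU hg hh (tsupport f) hK' hfU
  obtain ⟨C₂, hC₂, h2⟩ := hCT U g h hU hg hh (tsupport f) hK' hfU
  have h10 : 0 < C₁ := by linarith
  have h20 : 0 < C₂ := by linarith
  have hfz : ∀ x, x ∉ tsupport f → f x = 0 := fun x hx => image_eq_zero_of_notMem_tsupport hx
  -- the derivative of the cut-off
  have hpc : ∀ i, Continuous (pd i f) := by
    intro i
    unfold pd
    exact (hf.continuous_fderiv (by simp)).clm_apply continuous_const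
  have hpz : ∀ i x, x ∉ tsupport f → pd i f x = 0 := by
    intro i x hx
    unfold pd
    have : fderiv ℝ f x = 0 := by
      by_contra hne
      exact hx (support_fderiv_subset ℝ hne)
    rw [this]
    rfl
  have hsz := sz_int hK' G M (hw.memG _ hK' hfU) (hw.memM _ hK' hfU)
  have hmj := maj_int hK' G (hw.memG _ hK' hfU)
  have hQ : IntegrableOn (fun x => (∑ i, |pd i f x|) * sz (G x) (M x)) U := by
    refine int_of hK' (fun x => ∑ i, |pd i f x|) ?_ ?_ _ hsz
    · exact continuous_finsetSum _ fun i _ => (hpc i).abs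
    · intro x hx
      exact Finset.sum_eq_zero fun i _ => by rw [hpz i x hx, abs_zero]
  have hT : IntegrableOn (fun x => f x * maj (G x)) U :=
    int_of hK' f hf.continuous hfz _ hmj
  refine ⟨C₁ * C₂ ^ 2 * (∫ x in U, 54 * C₂ ^ 5 * ((∑ i, |pd i f x|) * sz (G x) (M x)))
    + C₁ ^ 2 * C₂ ^ 4 * ∫ x in U, f x * maj (G x), ?_⟩
  intro d hd hd1
  obtain ⟨hI1, hI2, hI3⟩ := hH2I U g w G M hU hg hw f d hf hfc hfU hd
  have hR : IntegrableOn (fun x => C₁ * C₂ ^ 2 * (- (f x * Ddx g d x (G x) (M x) * volDen g x))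
      + C₁ ^ 2 * C₂ ^ 4 * (f x * maj (G x))) U :=
    (hI1.neg.const_mul _).add (hT.const_mul _)
  have hpt : ∀ᵐ x ∂(volume.restrict U), f x * (msq (M x) / √(vsq (G x) + d ^ 2)) ≤
      C₁ * C₂ ^ 2 * (- (f x * Ddx g d x (G x) (M x) * volDen g x))
      + C₁ ^ 2 * C₂ ^ 4 * (f x * maj (G x)) := by
    filter_upwards [hE, hw.symm] with x hx hs
    by_cases hxf : x ∈ tsupport f
    · have hmaj := maj_nonneg (G x)
      by_cases hG : G x = 0
      · have hM := hx.2 hG
        rw [hG, hM, Ddx_zero]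
        have : msq (0 : Bil) = 0 := by simp [msq]
        rw [this, zero_div]
        simp only [mul_zero, zero_mul, neg_zero, zero_add]
        have h3 := maj_nonneg (0 : Cov)
        have h4 := hf0 x
        positivity
      · have hres : resid ε g h x (G x) (M x) = 0 := by
          unfold resid
          rw [hx.1 hG]
          ring
        have hA := h2 x hxf
        have hB := point ε g h x (G x) (M x) d C₁ C₂ hC₁ hC₂ hd hres
          (h1 x hxf (G x) (M x) d hG hs hd.le hd1).1 (hA.1 (G x))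
        have hv1 : 1 / C₂ ≤ volDen g x := hA.2.2.2.2.2.2.2.2.2.1
        have hv2 : volDen g x ≤ C₂ := hA.2.2.2.2.2.2.2.2.2.2
        have hv3 : 1 ≤ C₂ * volDen g x := by
          rw [div_le_iff₀ h20] at hv1
          linarith
        have hv0 : 0 ≤ volDen g x := Real.sqrt_nonneg _
        have hq : 0 ≤ msq (M x) / √(vsq (G x) + d ^ 2) :=
          div_nonneg (msq_nonneg _) (Real.sqrt_nonneg _)
        have hfx := hf0 x
        have hlm := le_maj (G x)
        calc f x * (msq (M x) / √(vsq (G x) + d ^ 2))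
            ≤ (C₂ * volDen g x) * (f x * (msq (M x) / √(vsq (G x) + d ^ 2))) :=
              le_mul_of_one_le_left (mul_nonneg hfx hq) hv3
          _ ≤ (C₂ * volDen g x) * (f x * (C₁ * C₂ * (- Ddx g d x (G x) (M x)
                + C₁ * C₂ * (vn (G x) * (1 + vsq (G x)))))) :=
              mul_le_mul_of_nonneg_left (mul_le_mul_of_nonneg_left hB hfx)
                (mul_nonneg h20.le hv0)
          _ = C₁ * C₂ ^ 2 * (- (f x * Ddx g d x (G x) (M x) * volDen g x))
                + C₁ ^ 2 * C₂ ^ 3 * volDen g x * (f x * (vn (G x) * (1 + vsq (G x)))) := by ring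
          _ ≤ C₁ * C₂ ^ 2 * (- (f x * Ddx g d x (G x) (M x) * volDen g x))
                + C₁ ^ 2 * C₂ ^ 3 * C₂ * (f x * maj (G x)) := by
              have e1 : C₁ ^ 2 * C₂ ^ 3 * volDen g x ≤ C₁ ^ 2 * C₂ ^ 3 * C₂ :=
                mul_le_mul_of_nonneg_left hv2 (by positivity)
              have e2 : f x * (vn (G x) * (1 + vsq (G x))) ≤ f x * maj (G x) :=
                mul_le_mul_of_nonneg_left hlm hfx
              have e3 : 0 ≤ f x * (vn (G x) * (1 + vsq (G x))) :=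
                mul_nonneg hfx (mul_nonneg (vn_nonneg _) (by linarith [vsq_nonneg (G x)]))
              linarith [mul_le_mul e1 e2 e3 (by positivity)]
          _ = _ := by ring
    · rw [hfz x hxf]
      simp
  have hnn : 0 ≤ᵐ[volume.restrict U] fun x =>
      C₁ * C₂ ^ 2 * (- (f x * Ddx g d x (G x) (M x) * volDen g x))
      + C₁ ^ 2 * C₂ ^ 4 * (f x * maj (G x)) := by
    filter_upwards [hpt] with x hx
    exact le_trans (mul_nonneg (hf0 x) (div_nonneg (msq_nonneg _) (Real.sqrt_nonneg _))) hx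
  have hint : ∫ x in U, (C₁ * C₂ ^ 2 * (- (f x * Ddx g d x (G x) (M x) * volDen g x))
      + C₁ ^ 2 * C₂ ^ 4 * (f x * maj (G x))) ≤
      C₁ * C₂ ^ 2 * (∫ x in U, 54 * C₂ ^ 5 * ((∑ i, |pd i f x|) * sz (G x) (M x)))
      + C₁ ^ 2 * C₂ ^ 4 * ∫ x in U, f x * maj (G x) := by
    have hadd : ∫ x in U, (C₁ * C₂ ^ 2 * (- (f x * Ddx g d x (G x) (M x) * volDen g x))
        + C₁ ^ 2 * C₂ ^ 4 * (f x * maj (G x))) =
        (∫ x in U, C₁ * C₂ ^ 2 * (- (f x * Ddx g d x (G x) (M x) * volDen g x)))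
        + ∫ x in U, C₁ ^ 2 * C₂ ^ 4 * (f x * maj (G x)) :=
      integral_add (hI1.neg.const_mul _) (hT.const_mul _)
    rw [hadd, integral_const_mul, integral_const_mul, integral_neg, hI3, neg_neg]
    have hle : ∫ x in U, (∑ i, pd i f x * Yf g d x (G x) (M x) i) * volDen g x ≤
        ∫ x in U, 54 * C₂ ^ 5 * ((∑ i, |pd i f x|) * sz (G x) (M x)) := by
      refine integral_mono hI2 (hQ.const_mul _) fun x => ?_
      show (∑ i, pd i f x * Yf g d x (G x) (M x) i) * volDen g x ≤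
        54 * C₂ ^ 5 * ((∑ i, |pd i f x|) * sz (G x) (M x))
      by_cases hxf : x ∈ tsupport f
      · have hA := h2 x hxf
        have hΓ := hA.2.2.2.1
        have hP := hA.2.2.2.2.2.2.2.2.1
        have hv2 : volDen g x ≤ C₂ := hA.2.2.2.2.2.2.2.2.2.2
        have hv0 : 0 ≤ volDen g x := Real.sqrt_nonneg _
        have hY := Yf_le g x (G x) (M x) d C₂ hC₂ hd hP hΓ (hA.1 (G x)).1
        have hs := sz_nonneg (G x) (M x)
        have e1 : ∑ i, pd i f x * Yf g d x (G x) (M x) i ≤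
            ∑ i, |pd i f x| * (54 * C₂ ^ 4 * sz (G x) (M x)) := by
          refine Finset.sum_le_sum fun i _ => ?_
          refine (le_abs_self _).trans ?_
          rw [abs_mul]
          exact mul_le_mul_of_nonneg_left (hY i) (abs_nonneg _)
        have e2 : 0 ≤ ∑ i, |pd i f x| * (54 * C₂ ^ 4 * sz (G x) (M x)) :=
          Finset.sum_nonneg fun i _ => by positivity
        calc (∑ i, pd i f x * Yf g d x (G x) (M x) i) * volDen g x
            ≤ (∑ i, |pd i f x| * (54 * C₂ ^ 4 * sz (G x) (M x))) * volDen g x :=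
              mul_le_mul_of_nonneg_right e1 hv0
          _ ≤ (∑ i, |pd i f x| * (54 * C₂ ^ 4 * sz (G x) (M x))) * C₂ :=
              mul_le_mul_of_nonneg_left hv2 e2
          _ = _ := by
              rw [← Finset.sum_mul]
              ring
      · have e1 : ∑ i, pd i f x * Yf g d x (G x) (M x) i = 0 :=
          Finset.sum_eq_zero fun i _ => by rw [hpz i x hxf, zero_mul]
        have e2 : ∑ i, |pd i f x| = 0 :=
          Finset.sum_eq_zero fun i _ => by rw [hpz i x hxf, abs_zero]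
        rw [e1, e2]
        simp
    have hc : 0 ≤ C₁ * C₂ ^ 2 := by positivity
    linarith [mul_le_mul_of_nonneg_left hle hc]
  calc ∫⁻ x in K, ENNReal.ofReal (msq (M x) / √(vsq (G x) + d ^ 2))
      = ∫⁻ x in K, ENNReal.ofReal (f x * (msq (M x) / √(vsq (G x) + d ^ 2))) := by
        refine setLIntegral_congr_fun hK.measurableSet fun x hx => ?_
        show ENNReal.ofReal _ = ENNReal.ofReal _
        rw [hf1 x hx, one_mul]
    _ ≤ ∫⁻ x in U, ENNReal.ofReal (f x * (msq (M x) / √(vsq (G x) + d ^ 2))) :=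
        lintegral_mono_set hKU
    _ ≤ ∫⁻ x in U, ENNReal.ofReal
          (C₁ * C₂ ^ 2 * (- (f x * Ddx g d x (G x) (M x) * volDen g x))
            + C₁ ^ 2 * C₂ ^ 4 * (f x * maj (G x))) :=
        lintegral_mono_ae (hpt.mono fun x hx => ENNReal.ofReal_le_ofReal hx)
    _ = ENNReal.ofReal (∫ x in U, (C₁ * C₂ ^ 2 * (- (f x * Ddx g d x (G x) (M x) * volDen g x))
            + C₁ ^ 2 * C₂ ^ 4 * (f x * maj (G x)))) :=
        (ofReal_integral_eq_lintegral_ofReal hR hnn).symm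
    _ ≤ _ := ENNReal.ofReal_le_ofReal hint

end MAPB

/-- **The a priori bound.** -/
theorem APB (hUP : Stmt_UP) (hH2I : Stmt_H2I) (hCT : Stmt_CT) : Stmt_APB := by
  intro ε U g h w G M hε hε1 hU hg hh hw hE K hK hKU
  obtain ⟨R, hR⟩ := MAPB.key hUP hH2I hCT ε U g h w G M hε hε1 hU hg hh hw hE K hK hKU
  have hGm : ∀ i, AEMeasurable (fun x => G x i) (volume.restrict K) := fun i =>
    (hw.memG K hK hKU i).aestronglyMeasurable.aemeasurable
  have hMm : ∀ i j, AEMeasurable (fun x => M x i j) (volume.restrict K) := fun i j =>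
    (hw.memM K hK hKU i j).aestronglyMeasurable.aemeasurable
  have hms : AEMeasurable (fun x => msq (M x)) (volume.restrict K) := by
    unfold msq
    exact Finset.aemeasurable_fun_sum _ fun i _ => Finset.aemeasurable_fun_sum _ fun j _ =>
      (hMm i j).pow_const 2
  have hvs : AEMeasurable (fun x => vsq (G x)) (volume.restrict K) := by
    unfold vsq
    exact Finset.aemeasurable_fun_sum _ fun i _ => (hGm i).pow_const 2
  have hmeas : AEMeasurable (fun x => msq (M x) / vn (G x)) (volume.restrict K) :=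
    hms.div hvs.sqrt
  refine ⟨hmeas.aestronglyMeasurable, ?_⟩
  rw [hasFiniteIntegral_iff_ofReal (Eventually.of_forall fun x =>
    div_nonneg (MAPB.msq_nonneg _) (MAPB.vn_nonneg _))]
  refine lt_of_le_of_lt ?_ (ENNReal.ofReal_lt_top (r := R))
  have hd : Tendsto (fun n : ℕ => (1 : ℝ) / (n + 1)) atTop (𝓝 0) :=
    tendsto_one_div_add_atTop_nhds_zero_nat
  calc ∫⁻ x in K, ENNReal.ofReal (msq (M x) / vn (G x))
      ≤ ∫⁻ x in K, liminf (fun n : ℕ => ENNReal.ofReal
          (msq (M x) / √(vsq (G x) + ((1 : ℝ) / (n + 1)) ^ 2))) atTop := by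
        refine lintegral_mono fun x => ?_
        by_cases hG : vn (G x) = 0
        · rw [hG, div_zero, ENNReal.ofReal_zero]
          exact zero_le
        · have ht : Tendsto (fun n : ℕ => ENNReal.ofReal
              (msq (M x) / √(vsq (G x) + ((1 : ℝ) / (n + 1)) ^ 2))) atTop
              (𝓝 (ENNReal.ofReal (msq (M x) / vn (G x)))) := by
            refine ENNReal.tendsto_ofReal ?_
            refine tendsto_const_nhds.div ?_ hG
            have h1 : Tendsto (fun n : ℕ => vsq (G x) + ((1 : ℝ) / (n + 1)) ^ 2) atTop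
                (𝓝 (vsq (G x) + 0 ^ 2)) := tendsto_const_nhds.add (hd.pow 2)
            have h2 := (Real.continuous_sqrt.tendsto _).comp h1
            have h3 : √(vsq (G x) + 0 ^ 2) = vn (G x) := by simp [vn]
            rw [h3] at h2
            exact h2
          rw [ht.liminf_eq]
    _ ≤ liminf (fun n : ℕ => ∫⁻ x in K, ENNReal.ofReal
          (msq (M x) / √(vsq (G x) + ((1 : ℝ) / (n + 1)) ^ 2))) atTop := by
        refine lintegral_liminf_le' fun n => ?_
        exact (hms.div (hvs.add_const _).sqrt).ennreal_ofReal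
    _ ≤ liminf (fun _ : ℕ => ENNReal.ofReal R) atTop := by
        refine liminf_le_liminf (Eventually.of_forall fun n => ?_)
        refine hR _ (by positivity) ?_
        rw [div_le_one (by positivity)]
        linarith [(Nat.cast_nonneg n : (0 : ℝ) ≤ n)]
    _ = ENNReal.ofReal R := liminf_const _

end Pool.Agent.PFlow


end

section

/-!
# Module FD: nothing is filled at regular levels
-/

open MeasureTheory Filter Topology
open scoped ContDiff

namespace Pool.Agent.PFlow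

open Pool.Agent.PenroseSph

namespace MFD

theorem conn_mono {A B : Set E3} {y z : E3} (h : Conn A y z) (hAB : A ⊆ B) : Conn B y z := by
  obtain ⟨S, hS, h1, h2, h3⟩ := h
  exact ⟨S, hS.trans hAB, h1, h2, h3⟩

/-- Points connected in an open superlevel set are connected in a smaller closed one. -/
theorem conn_closed {U : E3 → ℝ} (hU : Continuous U) {c : ℝ} {y z : E3}
    (h : Conn {x | c < U x} y z) : ∃ c', c < c' ∧ Conn {x | c' ≤ U x} y z := by
  obtain ⟨S, hS, h1, hy, hz⟩ := h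
  have hop : IsOpen {x | c < U x} := isOpen_lt continuous_const hU
  have hyA : y ∈ {x | c < U x} := hS hy
  have hD : IsOpen (connectedComponentIn {x | c < U x} y) := hop.connectedComponentIn
  have hyD : y ∈ connectedComponentIn {x | c < U x} y := mem_connectedComponentIn hyA
  have hzD : z ∈ connectedComponentIn {x | c < U x} y :=
    h1.subset_connectedComponentIn hy hS hz
  have hcon : IsConnected (connectedComponentIn {x | c < U x} y) :=
    ⟨⟨y, hyD⟩, isPreconnected_connectedComponentIn⟩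
  have hpath := hD.isConnected_iff_isPathConnected.mp hcon
  obtain ⟨γ, hγ⟩ := hpath.joinedIn y hyD z hzD
  have hcomp : IsCompact (Set.range γ) := isCompact_range γ.continuous
  obtain ⟨m, hm, hmin⟩ := hcomp.exists_isMinOn (Set.range_nonempty γ) hU.continuousOn
  refine ⟨U m, ?_, Set.range γ, ?_, ?_, ?_, ?_⟩
  · obtain ⟨t, rfl⟩ := hm
    exact connectedComponentIn_subset {x | c < U x} y (hγ t)
  · intro x hx
    exact hmin hx
  · exact isPreconnected_range γ.continuous
  · exact ⟨0, γ.source⟩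
  · exact ⟨1, γ.target⟩

theorem conn_univ {A : Set E3} (hA : A = Set.univ) (y z : E3) : Conn A y z :=
  ⟨Set.univ, by rw [hA], isPreconnected_univ, Set.mem_univ _, Set.mem_univ _⟩

section

variable {a' b' s₀ s₁ : ℝ} {W : E3 → ℝ} {z₁ : E3}

/-- One step: no filling at a regular level. -/
theorem stepA (hFD1 : Stmt_FD1) (hT : Trunc a' b' s₀ s₁ W) (hz : b' ≤ ‖z₁‖) {x : E3}
    (hle : fillA W s₀ z₁ x ≤ W x) (h0 : s₀ < fillA W s₀ z₁ x) (h1 : fillA W s₀ z₁ x < s₁)
    (hreg : RegLevel W (fillA W s₀ z₁ x)) : fillA W s₀ z₁ x = W x := by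
  by_contra hne
  have hlt : fillA W s₀ z₁ x < W x := lt_of_le_of_ne hle hne
  set c := fillA W s₀ z₁ x with hc
  have hbdd : BddAbove {c : ℝ | s₀ ≤ c ∧ Conn {z | c ≤ W z} x z₁} := by
    refine ⟨W x, ?_⟩
    rintro d ⟨-, S, hS, -, hx, -⟩
    exact hS hx
  have hnon : {c : ℝ | s₀ ≤ c ∧ Conn {z | c ≤ W z} x z₁}.Nonempty :=
    ⟨s₀, le_rfl, conn_univ (Set.eq_univ_of_forall fun z => hT.lower z) _ _⟩
  have hnot : ¬ Conn {z | c < W z} x z₁ := by
    intro hcon
    obtain ⟨c', hc', hcon'⟩ := conn_closed hT.cont hcon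
    have h2 : c' ≤ fillA W s₀ z₁ x := le_csSup hbdd ⟨by linarith, hcon'⟩
    linarith
  have hz1 : c < W z₁ := by
    rw [hT.outer z₁ hz]
    exact h1
  obtain ⟨e, he, hnot'⟩ := hFD1 W c x z₁ hT.cont hreg hlt hz1 hnot
  obtain ⟨d, ⟨-, hd⟩, hcd⟩ := exists_lt_of_lt_csSup hnon
    (show c - e < sSup {c : ℝ | s₀ ≤ c ∧ Conn {z | c ≤ W z} x z₁} by
      change c - e < fillA W s₀ z₁ x
      linarith)
  apply hnot'
  refine conn_mono hd ?_
  intro z hz
  exact lt_of_lt_of_le hcd hz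

/-- The same for the second filling. -/
theorem stepB (hFD1 : Stmt_FD1) (hT : Trunc a' b' s₀ s₁ W) {x : E3}
    (hle : W x ≤ fillB W s₁ 0 x) (h0 : s₀ < fillB W s₁ 0 x) (h1 : fillB W s₁ 0 x < s₁)
    (hreg : RegLevel (fun z => - W z) (- fillB W s₁ 0 x)) : fillB W s₁ 0 x = W x := by
  by_contra hne
  have hlt : W x < fillB W s₁ 0 x := lt_of_le_of_ne hle (Ne.symm hne)
  set c := fillB W s₁ 0 x with hc
  have hbdd : BddBelow {c : ℝ | c ≤ s₁ ∧ Conn {z | W z ≤ c} x 0} := by
    refine ⟨W x, ?_⟩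
    rintro d ⟨-, S, hS, -, hx, -⟩
    exact hS hx
  have hnon : {c : ℝ | c ≤ s₁ ∧ Conn {z | W z ≤ c} x 0}.Nonempty :=
    ⟨s₁, le_rfl, conn_univ (Set.eq_univ_of_forall fun z => hT.upper z) _ _⟩
  have hnot : ¬ Conn {z | - c < - W z} x 0 := by
    intro hcon
    obtain ⟨c', hc', hcon'⟩ := conn_closed hT.cont.neg hcon
    have h2 : fillB W s₁ 0 x ≤ - c' := by
      refine csInf_le hbdd ⟨by linarith, conn_mono hcon' ?_⟩
      intro z hz
      have hz' : c' ≤ - W z := hz
      change W z ≤ - c'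
      linarith
    linarith
  have hz1 : - c < - W 0 := by
    rw [hT.inner 0 (by rw [norm_zero]; exact hT.pos.le)]
    linarith
  obtain ⟨e, he, hnot'⟩ := hFD1 (fun z => - W z) (- c) x 0 hT.cont.neg hreg
    (by linarith) hz1 hnot
  obtain ⟨d, ⟨-, hd⟩, hcd⟩ := exists_lt_of_csInf_lt hnon
    (show sInf {c : ℝ | c ≤ s₁ ∧ Conn {z | W z ≤ c} x 0} < c + e by
      change fillB W s₁ 0 x < c + e
      linarith)
  apply hnot'
  refine conn_mono hd ?_
  intro z hz
  have hz' : W z ≤ d := hz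
  change - c - e < - W z
  linarith

end

/-- Regularity of a level is local. -/
theorem regLevel_congr {U V : E3 → ℝ} {c : ℝ} (hV : RegLevel U c) (hcomp : IsCompact {z | V z = c})
    (h : ∀ z, V z = c → ∀ᶠ y in 𝓝 z, V y = U y) : RegLevel V c := by
  refine ⟨hcomp, ?_⟩
  intro z hz O' hO' hzO'
  have h1 := h z hz
  have hUz : U z = c := by
    rw [← hz]
    exact h1.self_of_nhds.symm
  obtain ⟨N, hN, hNo, hzN⟩ := eventually_nhds_iff.mp h1
  obtain ⟨O, hO, hzO, hOO', p1, p2, p3, p4⟩ := hV.2 z hUz (O' ∩ N) (hO'.inter hNo) ⟨hzO', hzN⟩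
  have e1 : O ∩ {y | c < V y} = O ∩ {y | c < U y} := by
    ext y
    constructor
    · rintro ⟨hy, hy'⟩
      refine ⟨hy, ?_⟩
      rw [Set.mem_setOf_eq, ← hN y (hOO' hy).2]
      exact hy'
    · rintro ⟨hy, hy'⟩
      refine ⟨hy, ?_⟩
      rw [Set.mem_setOf_eq, hN y (hOO' hy).2]
      exact hy'
  have e2 : O ∩ {y | V y < c} = O ∩ {y | U y < c} := by
    ext y
    constructor
    · rintro ⟨hy, hy'⟩
      refine ⟨hy, ?_⟩
      rw [Set.mem_setOf_eq, ← hN y (hOO' hy).2]
      exact hy'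
    · rintro ⟨hy, hy'⟩
      refine ⟨hy, ?_⟩
      rw [Set.mem_setOf_eq, hN y (hOO' hy).2]
      exact hy'
  refine ⟨O, hO, hzO, fun y hy => (hOO' hy).1, ?_, ?_, ?_, ?_⟩
  · rw [e1]
    exact p1
  · rw [e2]
    exact p2
  · rw [mem_closure_iff] at p3 ⊢
    intro Q hQ hzQ
    obtain ⟨y, ⟨hyQ, hyN⟩, hy⟩ := p3 (Q ∩ N) (hQ.inter hNo) ⟨hzQ, hzN⟩
    exact ⟨y, hyQ, by rw [Set.mem_setOf_eq, hN y hyN]; exact hy⟩
  · rw [mem_closure_iff] at p4 ⊢
    intro Q hQ hzQ
    obtain ⟨y, ⟨hyQ, hyN⟩, hy⟩ := p4 (Q ∩ N) (hQ.inter hNo) ⟨hzQ, hzN⟩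
    exact ⟨y, hyQ, by rw [Set.mem_setOf_eq, hN y hyN]; exact hy⟩

theorem regLevel_neg {V : E3 → ℝ} {c : ℝ} (h : RegLevel V c) : RegLevel (fun z => - V z) (- c) := by
  have e0 : {z | - V z = - c} = {z | V z = c} := by
    ext z
    simp
  have e1 : {y | - c < - V y} = {y | V y < c} := by
    ext y
    simp
  have e2 : {y | - V y < - c} = {y | c < V y} := by
    ext y
    simp
  refine ⟨?_, ?_⟩
  · rw [e0]
    exact h.1
  · intro z hz O' hO' hzO'
    obtain ⟨O, hO, hzO, hOO', p1, p2, p3, p4⟩ := h.2 z (by linarith) O' hO' hzO'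
    refine ⟨O, hO, hzO, hOO', ?_, ?_, ?_, ?_⟩
    · rw [e1]
      exact p2
    · rw [e2]
      exact p1
    · rw [e1]
      exact p4
    · rw [e2]
      exact p3

end MFD

open MFD in
theorem FD (hFA : Stmt_FA) (hFB : Stmt_FB) (hFD1 : Stmt_FD1) : Stmt_FD := by
  have _ := hFB
  intro a' b' s₀ s₁ W C z₁ hT hL hz α β hα hαβ hβ hreg x hx
  obtain ⟨f1, f2, f3, f4, f5, f6⟩ := hFA a' b' s₀ s₁ W C z₁ hT hL hz
  set V := fillA W s₀ z₁ with hV
  have hA : ∀ y, V y ∈ Set.Ioo α β → V y = W y := by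
    intro y hy
    exact stepA hFD1 hT hz (f3 y) (lt_of_le_of_lt hα hy.1) (lt_of_lt_of_le hy.2 hβ)
      (hreg _ hy)
  have hregV : ∀ c ∈ Set.Ioo α β, RegLevel V c := by
    intro c hc
    refine regLevel_congr (hreg c hc) ?_ ?_
    · refine Metric.isCompact_of_isClosed_isBounded (isClosed_eq f5.cont continuous_const) ?_
      refine (Metric.isBounded_closedBall (x := (0 : E3)) (r := b')).subset ?_
      intro z hz'
      rw [mem_closedBall_zero_iff]
      by_contra hcon
      push Not at hcon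
      have h2 := f5.outer z hcon.le
      have h3 : V z = c := hz'
      rw [h2] at h3
      rw [← h3] at hc
      exact absurd hc.2 (not_lt.mpr hβ)
    · intro z hz'
      have h2 : ∀ᶠ y in 𝓝 z, V y ∈ Set.Ioo α β := by
        have h3 : Tendsto V (𝓝 z) (𝓝 (V z)) := f5.cont.continuousAt
        rw [hz'] at h3
        exact h3 (Ioo_mem_nhds hc.1 hc.2)
      filter_upwards [h2] with y hy
      exact hA y hy
  have h4 : fillB V s₁ 0 x = V x :=
    stepB hFD1 f5 (f4 x) (lt_of_le_of_lt hα hx.1) (lt_of_lt_of_le hx.2 hβ)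
      (regLevel_neg (hregV _ hx))
  have h5 : fill W s₀ s₁ 0 z₁ x = V x := h4
  refine ⟨?_, h5⟩
  rw [h5] at hx
  exact hA x hx

end Pool.Agent.PFlow


end
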