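import Mathlib
import Pool.Agent.PenroseM.C01

/-! Parts: PFlow.K.KEXP -/

section

/-!
KEXP: exponential functions are strict subsolutions of all the operators.
-/

open MeasureTheory Filter Topology
open scoped ContDiff

namespace Pool.Agent.PFlow

open Pool.Agent.PenroseSph

namespace KEXP

/-- the first basis covector -/
def e0 (i : Fin 3) : ℝ := if i = 0 then 1 else 0

theorem e00 : e0 0 = 1 := by simp [e0]

theorem e01 : e0 1 = 0 := by simp [e0]

theorem e02 : e0 2 = 0 := by simp [e0]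

theorem pd_exp (τ α : ℝ) (i : Fin 3) :
    pd i (fun y : E3 => τ * Real.exp (α * y 0)) =
      fun x => (τ * α * e0 i) * Real.exp (α * x 0) := by
  funext x
  have h1 : HasFDerivAt (fun y : E3 => y 0) (EuclideanSpace.proj (0 : Fin 3) : E3 →L[ℝ] ℝ) x :=
    (EuclideanSpace.proj (0 : Fin 3) : E3 →L[ℝ] ℝ).hasFDerivAt
  have h2 := ((h1.const_mul α).exp).const_mul τ
  unfold pd
  rw [h2.fderiv]
  by_cases hi : i = 0
  · subst hi
    simp [e0]
    ring
  · simp [e0, hi, Ne.symm hi]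

theorem grad_exp (τ α : ℝ) (x : E3) :
    grad (fun y : E3 => τ * Real.exp (α * y 0)) x =
      fun i => (τ * α * Real.exp (α * x 0)) * e0 i := by
  funext i
  rw [grad, pd_exp]
  ring

theorem hess_exp (τ α : ℝ) (x : E3) :
    hess2 (fun y : E3 => τ * Real.exp (α * y 0)) x =
      Matrix.of fun i j => (τ * α * Real.exp (α * x 0)) * α * e0 i * e0 j := by
  ext i j
  rw [hess2, Matrix.of_apply, Matrix.of_apply, pd_exp, pd_exp]
  ring

section alg

variable (g : TensorField) (x : E3) (c α : ℝ)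

theorem raise_e : raise g x (fun i => c * e0 i) = fun i => c * (g x)⁻¹ i 0 := by
  funext i
  simp only [raise, Fin.sum_univ_three, e00, e01, e02]
  ring

theorem lsq_e : lsq g x (fun i => c * e0 i) = c ^ 2 * (g x)⁻¹ 0 0 := by
  simp only [lsq, ev, Fin.sum_univ_three, e00, e01, e02]
  ring

theorem cHess_e : cHess g x (fun i => c * e0 i) (Matrix.of fun i j => c * α * e0 i * e0 j) =
    Matrix.of fun i j => c * (α * e0 i * e0 j - christoffel g 0 i j x) := by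
  ext i j
  simp only [cHess, Matrix.of_apply, Fin.sum_univ_three, e00, e01, e02]
  ring

theorem trg_e : trg g x (Matrix.of fun i j => c * (α * e0 i * e0 j - christoffel g 0 i j x)) =
    c * (α * (g x)⁻¹ 0 0 - ∑ i, ∑ j, (g x)⁻¹ i j * christoffel g 0 i j x) := by
  simp only [trg, Matrix.of_apply, Fin.sum_univ_three, e00, e01, e02]
  ring

theorem ev_e : ev (Matrix.of fun i j => c * (α * e0 i * e0 j - christoffel g 0 i j x))
      (raise g x (fun i => c * e0 i)) (raise g x (fun i => c * e0 i)) =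
    c ^ 3 * (α * (g x)⁻¹ 0 0 ^ 2 -
      ∑ i, ∑ j, christoffel g 0 i j x * (g x)⁻¹ i 0 * (g x)⁻¹ j 0) := by
  rw [raise_e]
  simp only [ev, Matrix.of_apply, Fin.sum_univ_three, e00, e01, e02]
  ring

theorem ev_h (B : Bil) : ev B (raise g x (fun i => c * e0 i)) (raise g x (fun i => c * e0 i)) =
    c ^ 2 * ∑ i, ∑ j, B i j * (g x)⁻¹ i 0 * (g x)⁻¹ j 0 := by
  rw [raise_e]
  simp only [ev, Fin.sum_univ_three]
  ring

end alg

theorem sum_bound {a : Fin 3 → Fin 3 → ℝ} {K : ℝ} (h : ∀ i j, |a i j| ≤ K) :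
    |∑ i, ∑ j, a i j| ≤ 9 * K := by
  have h1 : ∀ i, |∑ j, a i j| ≤ 3 * K := by
    intro i
    refine (Finset.abs_sum_le_sum_abs _ _).trans ?_
    refine (Finset.sum_le_card_nsmul _ _ K fun j _ => h i j).trans (le_of_eq ?_)
    simp
  refine (Finset.abs_sum_le_sum_abs _ _).trans ?_
  refine (Finset.sum_le_card_nsmul _ _ (3 * K) fun i _ => h1 i).trans (le_of_eq ?_)
  simp
  ring

/-- The numerical facts at a point. -/
theorem bounds {g h : TensorField} {C : ℝ} (hC : GBound g h C) (x : E3) :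
    1 ≤ C * (g x)⁻¹ 0 0 ∧ 0 < (g x)⁻¹ 0 0 ∧ (g x)⁻¹ 0 0 ≤ C ∧ 0 < volDen g x ∧
    |∑ i, ∑ j, (g x)⁻¹ i j * christoffel g 0 i j x| ≤ 9 * C ^ 4 ∧
    |∑ i, ∑ j, (g x)⁻¹ i j * h x i j| ≤ 9 * C ^ 4 ∧
    |(∑ i, ∑ j, christoffel g 0 i j x * (g x)⁻¹ i 0 * (g x)⁻¹ j 0) / (g x)⁻¹ 0 0| ≤
      9 * C ^ 4 ∧
    |(∑ i, ∑ j, h x i j * (g x)⁻¹ i 0 * (g x)⁻¹ j 0) / (g x)⁻¹ 0 0| ≤ 9 * C ^ 4 := by
  have h1 := hC.one
  have hC0 : 0 < C := by linarith
  have hl := hC.low x (fun i => 1 * e0 i)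
  have hn : ‖vec (fun i => 1 * e0 i)‖ ^ 2 = 1 := by
    rw [EuclideanSpace.norm_sq_eq]
    simp [e0]
  rw [hn, lsq_e, one_pow, one_mul] at hl
  have hpos : 0 < (g x)⁻¹ 0 0 := by
    by_contra h2
    push Not at h2
    nlinarith
  have hup : (g x)⁻¹ 0 0 ≤ C := (le_abs_self _).trans (hC.inv x 0 0)
  have hvol : 0 < volDen g x := by
    by_contra h2
    push Not at h2
    have h3 := hC.volLow x
    nlinarith
  have h2 : C ^ 2 ≤ C ^ 4 := pow_le_pow_right₀ h1 (by norm_num)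
  have hdiv : ∀ y : ℝ, |y| ≤ 9 * C ^ 3 → |y / (g x)⁻¹ 0 0| ≤ 9 * C ^ 4 := by
    intro y hy
    rw [abs_div, abs_of_pos hpos, div_le_iff₀ hpos]
    have h3 : 9 * C ^ 3 ≤ 9 * C ^ 3 * (C * (g x)⁻¹ 0 0) := by
      have : 0 ≤ 9 * C ^ 3 := by positivity
      nlinarith
    calc |y| ≤ 9 * C ^ 3 := hy
      _ ≤ 9 * C ^ 3 * (C * (g x)⁻¹ 0 0) := h3
      _ = 9 * C ^ 4 * (g x)⁻¹ 0 0 := by ring
  have hprod : ∀ (u v : ℝ), |u| ≤ C → |v| ≤ C → |u * v| ≤ C ^ 2 := by
    intro u v hu hv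
    rw [abs_mul, pow_two]
    exact mul_le_mul hu hv (abs_nonneg _) hC0.le
  have hprod3 : ∀ (u v w : ℝ), |u| ≤ C → |v| ≤ C → |w| ≤ C → |u * v * w| ≤ C ^ 3 := by
    intro u v w hu hv hw
    rw [abs_mul, pow_succ]
    exact mul_le_mul (hprod u v hu hv) hw (abs_nonneg _) (by positivity)
  refine ⟨hl, hpos, hup, hvol, ?_, ?_, ?_, ?_⟩
  · refine (sum_bound fun i j => hprod _ _ (hC.inv x i j) (hC.chr x 0 i j)).trans ?_
    linarith
  · refine (sum_bound fun i j => hprod _ _ (hC.inv x i j) (hC.hh x i j)).trans ?_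
    linarith
  · exact hdiv _ (sum_bound fun i j => hprod3 _ _ _ (hC.chr x 0 i j) (hC.inv x i 0)
      (hC.inv x j 0))
  · exact hdiv _ (sum_bound fun i j => hprod3 _ _ _ (hC.hh x i j) (hC.inv x i 0) (hC.inv x j 0))

/-- The lower bounds. -/
theorem low {C ε α G T R : ℝ} (hC : 1 ≤ C) (hε : 0 < ε) (hε1 : ε < 1) (hα : ε * α = 40 * C ^ 6)
    (hG : 1 ≤ C * G) (hG0 : 0 < G) (hT : |T| ≤ 9 * C ^ 4) (hR : |R| ≤ 9 * C ^ 4) :
    22 * C ^ 5 ≤ ε * α * G - T + (1 - ε) * R ∧ 22 * C ^ 5 ≤ α * G - T := by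
  have hC0 : 0 < C := by linarith
  have h4 : C ^ 4 ≤ C ^ 5 := pow_le_pow_right₀ hC (by norm_num)
  have h5 : 0 < C ^ 4 := by positivity
  have h6 : 40 * C ^ 5 ≤ ε * α * G := by
    rw [hα]
    have h7 : 40 * C ^ 6 * G = 40 * C ^ 5 * (C * G) := by ring
    rw [h7]
    have h8 : 0 ≤ 40 * C ^ 5 := by positivity
    nlinarith
  have hT' := abs_le.mp hT
  have hR' := abs_le.mp hR
  have h9 : -(9 * C ^ 4) ≤ (1 - ε) * R := by
    nlinarith
  have h10 : ε * α * G ≤ α * G := by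
    have h11 : 0 ≤ α * G := by
      have h12 : 0 ≤ α := by
        by_contra h13
        push Not at h13
        have h14 : 0 < 40 * C ^ 6 := by positivity
        nlinarith
      positivity
    nlinarith
  constructor
  · nlinarith
  · nlinarith

theorem absY {C ε Th S : ℝ} (hε : 0 < ε) (hε1 : ε < 1) (hT : |Th| ≤ 9 * C ^ 4)
    (hS : |S| ≤ 9 * C ^ 4) : |Th - (1 - ε) * S| ≤ 18 * C ^ 4 := by
  have h1 : |(1 - ε) * S| ≤ 9 * C ^ 4 := by
    rw [abs_mul, abs_of_pos (by linarith)]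
    nlinarith [abs_nonneg S]
  calc |Th - (1 - ε) * S| ≤ |Th| + |(1 - ε) * S| := abs_sub _ _
    _ ≤ 18 * C ^ 4 := by linarith

theorem fin1 {C τ c X Y l : ℝ} (hC : 1 ≤ C) (hτc : 0 < τ * c) (hX : 22 * C ^ 5 ≤ X)
    (hY : |Y| ≤ 18 * C ^ 4) (hl : 0 ≤ l) (hl' : l ≤ |c| * C) :
    0 < τ * (c * X + l * Y) := by
  have hC0 : 0 < C := by linarith
  have h5 : 0 < C ^ 5 := by positivity
  have h1 : |τ| * |c| = τ * c := by rw [← abs_mul, abs_of_pos hτc]
  have h2 : |τ * (l * Y)| ≤ τ * c * (18 * C ^ 5) := by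
    rw [abs_mul, abs_mul, abs_of_nonneg hl, ← h1]
    calc |τ| * (l * |Y|) ≤ |τ| * (|c| * C * (18 * C ^ 4)) := by
          refine mul_le_mul_of_nonneg_left ?_ (abs_nonneg _)
          exact mul_le_mul hl' hY (abs_nonneg _) (by positivity)
      _ = |τ| * |c| * (18 * C ^ 5) := by ring
  have h3 := (abs_le.mp h2).1
  have h4 : τ * c * (22 * C ^ 5) ≤ τ * c * X := mul_le_mul_of_nonneg_left hX hτc.le
  have h6 : 0 < τ * c * (4 * C ^ 5) := by positivity
  have h7 : τ * (c * X + l * Y) = τ * c * X + τ * (l * Y) := by ring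
  rw [h7]
  nlinarith

theorem sqrt_le {C c G : ℝ} (hC : 1 ≤ C) (hG' : G ≤ C) :
    Real.sqrt (c ^ 2 * G) ≤ |c| * C := by
  rw [Real.sqrt_mul (sq_nonneg c), Real.sqrt_sq_eq_abs]
  refine mul_le_mul_of_nonneg_left ?_ (abs_nonneg _)
  rw [Real.sqrt_le_left (by linarith)]
  nlinarith

theorem rp {ε u s : ℝ} (hu : 0 < u) (hs : 0 ≤ s) (hsu : s ≤ u) :
    u ^ ((ε - 3) / 2) * u = u ^ ((ε - 1) / 2) ∧
    u ^ ((ε - 2) / 2) * s ≤ u ^ ((ε - 1) / 2) * Real.sqrt s := by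
  constructor
  · rw [← Real.rpow_add_one hu.ne']
    congr 1
    ring
  · have h1 : u ^ ((ε - 2) / 2) * Real.sqrt u = u ^ ((ε - 1) / 2) := by
      rw [Real.sqrt_eq_rpow, ← Real.rpow_add hu]
      congr 1
      ring
    have h2 : Real.sqrt s ≤ Real.sqrt u := Real.sqrt_le_sqrt hsu
    have h3 : s = Real.sqrt s * Real.sqrt s := (Real.mul_self_sqrt hs).symm
    calc u ^ ((ε - 2) / 2) * s = u ^ ((ε - 2) / 2) * (Real.sqrt s * Real.sqrt s) := by rw [← h3]
      _ ≤ u ^ ((ε - 2) / 2) * (Real.sqrt u * Real.sqrt s) := by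
          refine mul_le_mul_of_nonneg_left ?_ (Real.rpow_pos_of_pos hu _).le
          exact mul_le_mul_of_nonneg_right h2 (Real.sqrt_nonneg _)
      _ = u ^ ((ε - 1) / 2) * Real.sqrt s := by rw [← h1]; ring

end KEXP

open KEXP in
theorem KEXP_thm (h1 : KBND) (h2 : KTN) : KEXP := by
  intro ε g h r hε hε1 hg
  obtain ⟨C, hC⟩ := h1 g h r hg
  have hC1 := hC.one
  have hC0 : 0 < C := by linarith
  have hα : 0 < 40 * C ^ 6 / ε := by positivity
  refine ⟨40 * C ^ 6 / ε, hα, ?_⟩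
  intro x τ hτ
  set α : ℝ := 40 * C ^ 6 / ε with hαd
  have hεα : ε * α = 40 * C ^ 6 := by
    rw [hαd]
    field_simp
  obtain ⟨hG1, hG0, hGC, hV, hT, hTh, hR, hS⟩ := bounds hC x
  set c : ℝ := τ * α * Real.exp (α * x 0) with hcd
  have hE : 0 < Real.exp (α * x 0) := Real.exp_pos _
  have hτ2 : 0 < τ ^ 2 := by positivity
  have hτc : 0 < τ * c := by
    have h3 : τ * c = τ ^ 2 * α * Real.exp (α * x 0) := by rw [hcd]; ring
    rw [h3]
    positivity
  have hc : c ≠ 0 := right_ne_zero_of_mul hτc.ne'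
  have hc2 : 0 < c ^ 2 := by positivity
  have hp : (fun i => c * e0 i) ≠ 0 := by
    intro h0
    have h3 := congrFun h0 0
    simp only [e00, mul_one, Pi.zero_apply] at h3
    exact hc h3
  have hpd : (g x).PosDef := hg.met.posDef x (Set.mem_univ x)
  have hb := (h2 g x hpd (fun i => c * e0 i)).2.2.2.2.2.2.2 hp
  rw [opN, grad_exp, hess_exp, ← hcd]
  obtain ⟨hX, hX'⟩ := low (T := ∑ i, ∑ j, (g x)⁻¹ i j * christoffel g 0 i j x) hC1 hε hε1 hεα
    hG1 hG0 hT hR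
  have hY := absY hε hε1 hTh hS
  set G : ℝ := (g x)⁻¹ 0 0 with hGd
  set T : ℝ := ∑ i, ∑ j, (g x)⁻¹ i j * christoffel g 0 i j x with hTd
  set Th : ℝ := ∑ i, ∑ j, (g x)⁻¹ i j * h x i j with hThd
  set Q : ℝ := ∑ i, ∑ j, christoffel g 0 i j x * (g x)⁻¹ i 0 * (g x)⁻¹ j 0 with hQd
  set W : ℝ := ∑ i, ∑ j, h x i j * (g x)⁻¹ i 0 * (g x)⁻¹ j 0 with hWd
  have hl : 0 ≤ c ^ 2 * G := by positivity
  have hsq := sqrt_le (c := c) hC1 hGC
  refine ⟨hp, ?_, ?_⟩
  · rw [beps, beps, hb, hb, cHess_e, trg_e, ev_e, ev_h, lsq_e, ← hGd, ← hTd, ← hQd, ← hWd]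
    have e1 : c * (α * G - T) - (1 - ε) * (c ^ 3 * (α * G ^ 2 - Q) / (c ^ 2 * G)) =
        c * (ε * α * G - T + (1 - ε) * (Q / G)) := by
      field_simp
      ring
    have e2 : c ^ 2 * W / (c ^ 2 * G) = W / G := by
      field_simp
    have e3 : trg g x (h x) = Th := rfl
    have e4 : len g x (fun i => c * e0 i) = Real.sqrt (c ^ 2 * G) := by
      rw [hGd, ← lsq_e]
      rfl
    rw [e1, e2, e3, e4]
    exact fin1 hC1 hτc hX hY (Real.sqrt_nonneg _) hsq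
  · intro δ κ hδ hκ
    set s : ℝ := c ^ 2 * G with hsd
    have hs : 0 < s := by positivity
    have hu : 0 < s + δ ^ 2 := by positivity
    obtain ⟨hw, hbs⟩ := rp (ε := ε) hu hs.le (by nlinarith [sq_nonneg δ])
    have f1 : lsq g x (fun i => c * e0 i) = s := by rw [lsq_e]
    have f3 : ev (h x) (raise g x (vec fun i => c * e0 i)) (raise g x (vec fun i => c * e0 i)) =
        c ^ 2 * W := ev_h g x c (h x)
    have e3 : trg g x (h x) = Th := rfl
    rw [opL, cB, cHess_e, trg_e, ev_e, f1, f3, e3, ← hGd, ← hTd, ← hQd, regA, regD]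
    set w : ℝ := (s + δ ^ 2) ^ ((ε - 3) / 2) with hwd
    set b : ℝ := (s + δ ^ 2) ^ ((ε - 2) / 2) with hbd
    set a1 : ℝ := (s + δ ^ 2) ^ ((ε - 1) / 2) with had
    have ha1 : 0 < a1 := Real.rpow_pos_of_pos hu _
    have hw0 : 0 < w := Real.rpow_pos_of_pos hu _
    have hb0 : 0 < b := Real.rpow_pos_of_pos hu _
    have e5 : volDen g x * ((a1 + κ) * (c * (α * G - T)) +
        (ε - 1) * w * (c ^ 3 * (α * G ^ 2 - Q))) +
        volDen g x * b * (s * Th - (1 - ε) * (c ^ 2 * W)) =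
        volDen g x * (c * (w * s * (ε * α * G - T + (1 - ε) * (Q / G)) +
          (w * δ ^ 2 + κ) * (α * G - T)) + b * s * (Th - (1 - ε) * (W / G))) := by
      rw [← hw, hsd]
      field_simp
      ring
    rw [e5]
    have h6 : 22 * C ^ 5 * (a1 + κ) ≤ w * s * (ε * α * G - T + (1 - ε) * (Q / G)) +
        (w * δ ^ 2 + κ) * (α * G - T) := by
      have h7 : w * s * (22 * C ^ 5) ≤ w * s * (ε * α * G - T + (1 - ε) * (Q / G)) :=
        mul_le_mul_of_nonneg_left hX (by positivity)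
      have h8 : (w * δ ^ 2 + κ) * (22 * C ^ 5) ≤ (w * δ ^ 2 + κ) * (α * G - T) :=
        mul_le_mul_of_nonneg_left hX' (by positivity)
      rw [← hw]
      nlinarith
    have h9 : 0 < τ * (c * ((w * s * (ε * α * G - T + (1 - ε) * (Q / G)) +
          (w * δ ^ 2 + κ) * (α * G - T)) / (a1 + κ)) +
          (b * s / (a1 + κ)) * (Th - (1 - ε) * (W / G))) := by
      refine fin1 hC1 hτc ?_ hY (by positivity) ?_
      · rw [le_div_iff₀ (by positivity)]
        exact h6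
      · rw [div_le_iff₀ (by positivity)]
        calc b * s ≤ a1 * Real.sqrt s := hbs
          _ ≤ a1 * (|c| * C) := mul_le_mul_of_nonneg_left hsq ha1.le
          _ ≤ |c| * C * (a1 + κ) := by
            have : 0 ≤ |c| * C * κ := by positivity
            nlinarith
    have h10 : τ * (volDen g x * (c * (w * s * (ε * α * G - T + (1 - ε) * (Q / G)) +
          (w * δ ^ 2 + κ) * (α * G - T)) + b * s * (Th - (1 - ε) * (W / G)))) =
        volDen g x * (a1 + κ) * (τ * (c * ((w * s * (ε * α * G - T + (1 - ε) * (Q / G)) +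
          (w * δ ^ 2 + κ) * (α * G - T)) / (a1 + κ)) +
          (b * s / (a1 + κ)) * (Th - (1 - ε) * (W / G)))) := by
      have h11 : a1 + κ ≠ 0 := by positivity
      field_simp
    rw [h10]
    positivity

end Pool.Agent.PFlow


end
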