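import Mathlib
import Pool.Agent.PFlow.StmtsE2
import Pool.Agent.PFlow.StmtsE5
import Pool.Agent.PFlow.StmtsM
import Pool.Agent.PenroseM.C01
import Pool.Agent.PenroseM.C02
import Pool.Agent.PenroseM.C03
import Pool.Agent.PenroseM.C04
import Pool.Agent.PenroseM.C07
import Pool.Agent.PenroseM.C08
import Pool.Agent.PenroseM.C10
import Pool.Agent.PenroseM.C17
import Pool.Agent.PenroseM.C21
import Pool.Agent.PenroseM.C23
import Pool.Agent.PenroseM.C24
import Pool.Agent.PenroseM.C25
import Pool.Agent.PenroseM.C26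
import Pool.Agent.PenroseM.C27
import Pool.Agent.PenroseM.C28

/-! Parts: PFlow.K.KCOEF, PFlow.K.KDIV, PFlow.K.KIDV, PFlow.K.KSM, PFlow.K.KSMO, PFlow.P.AllK, PFlow.M_POS, PFlow.E.LE, PFlow.E.TRD -/

section

/-!
# KCOEF: the regularised coefficients satisfy `Coef`
-/

namespace Pool.Agent.PFlow

open Pool.Agent.PenroseSph

/-- KCOEF: the regularised coefficients satisfy `Coef`. -/
theorem KCOEF_thm (h1 : KSMO) (h2 : KMON) (h3 : KLIP) : KCOEF := by
  intro ε δ κ g h r he he1 hd hk hg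
  obtain ⟨s1, s2, s3, s4, s5⟩ := h1 ε δ κ g h r he he1 hd hk hg
  obtain ⟨c, hc, hm⟩ := h2 ε δ κ g h r he he1 hd hk hg
  obtain ⟨L, l1, l2, l3⟩ := h3 ε δ κ g h r he he1 hd hk hg
  exact ⟨c, L, hc, ⟨s1, s2, s3, s4, hm, l1, l2, l3, s5⟩⟩

end Pool.Agent.PFlow


end

section

/-!
# The divergence of the regularised field along the gradient of a function
-/

open MeasureTheory Filter Topology
open scoped ContDiff

namespace Pool.Agent.PFlow

open Pool.Agent.PenroseSph

namespace KDIV

/-- A covector in terms of the standard basis. -/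
theorem vec_eq (p : Cov) : vec p = ∑ j, p j • EuclideanSpace.single j (1 : ℝ) := by
  ext k
  simp [Pi.single_apply]

/-- The coordinate derivatives of a function of class `C²` are differentiable. -/
theorem pd_diff {f : E3 → ℝ} {x : E3} (hf : ContDiffAt ℝ 2 f x) (j : Fin 3) :
    DifferentiableAt ℝ (pd j f) x := by
  have h1 : ContDiffAt ℝ 1 (fderiv ℝ f) x := hf.fderiv_right (by norm_num)
  have h2 : DifferentiableAt ℝ (fderiv ℝ f) x := h1.differentiableAt (by norm_num)
  exact h2.clm_apply (differentiableAt_const _)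

/-- The derivative of the gradient. -/
theorem hasFDerivAt_vec {f : E3 → ℝ} {x : E3} (hf : ContDiffAt ℝ 2 f x) :
    HasFDerivAt (fun y => vec (grad f y))
      (∑ j, (fderiv ℝ (pd j f) x).smulRight (EuclideanSpace.single j (1 : ℝ))) x := by
  have h1 : (fun y => vec (grad f y)) =
      fun y => ∑ j, pd j f y • EuclideanSpace.single j (1 : ℝ) := by
    funext y
    exact vec_eq _
  rw [h1]
  exact HasFDerivAt.fun_sum fun j _ => (pd_diff hf j).hasFDerivAt.smul_const _

/-- The chain rule. -/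
theorem chain {Φ : E3 × E3 → ℝ} (hΦ : Differentiable ℝ Φ) {f : E3 → ℝ} {x : E3}
    (hf : ContDiffAt ℝ 2 f x) (i : Fin 3) :
    pd i (fun y => Φ (y, vec (grad f y))) x =
      pd i (fun y => Φ (y, vec (grad f x))) x +
        ∑ j, hess2 f x i j * pd j (fun ξ => Φ (x, ξ)) (vec (grad f x)) := by
  have hq := (hΦ (x, vec (grad f x))).hasFDerivAt
  set L := fderiv ℝ Φ (x, vec (grad f x)) with hL
  -- the left hand side
  have h1 : HasFDerivAt (fun y => Φ (y, vec (grad f y))) (L.comp
      ((ContinuousLinearMap.id ℝ E3).prod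
        (∑ j, (fderiv ℝ (pd j f) x).smulRight (EuclideanSpace.single j (1 : ℝ))))) x :=
    HasFDerivAt.comp x (f := fun y => (y, vec (grad f y))) hq
      ((hasFDerivAt_id x).prodMk (hasFDerivAt_vec hf))
  have h2 : HasFDerivAt (fun y => Φ (y, vec (grad f x)))
      (L.comp (ContinuousLinearMap.inl ℝ E3 E3)) x :=
    HasFDerivAt.comp x (f := fun y => (y, vec (grad f x))) hq
      (hasFDerivAt_prodMk_left x (vec (grad f x)))
  have h3 : HasFDerivAt (fun ξ => Φ (x, ξ))
      (L.comp (ContinuousLinearMap.inr ℝ E3 E3)) (vec (grad f x)) :=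
    HasFDerivAt.comp (vec (grad f x)) (f := fun ξ => (x, ξ)) hq
      (hasFDerivAt_prodMk_right x (vec (grad f x)))
  unfold pd
  rw [h1.fderiv, h2.fderiv]
  simp_rw [h3.fderiv]
  have h4 : ((ContinuousLinearMap.id ℝ E3).prod
        (∑ j, (fderiv ℝ (pd j f) x).smulRight (EuclideanSpace.single j (1 : ℝ))))
        (EuclideanSpace.single i 1) =
      ContinuousLinearMap.inl ℝ E3 E3 (EuclideanSpace.single i 1) +
        ∑ j, hess2 f x i j • ContinuousLinearMap.inr ℝ E3 E3 (EuclideanSpace.single j 1) := by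
    have h5 : ∀ j, hess2 f x i j = fderiv ℝ (pd j f) x (EuclideanSpace.single i 1) :=
      fun j => rfl
    refine Prod.ext ?_ ?_
    · simp [Prod.fst_sum]
    · simp [Prod.snd_sum, h5]
  rw [ContinuousLinearMap.comp_apply, h4, map_add, map_sum]
  refine congrArg₂ (· + ·) rfl (Finset.sum_congr rfl fun j _ => ?_)
  rw [map_smul, smul_eq_mul]
  rfl

end KDIV

theorem KDIV_thm (h1 : KSMO) (h2 : KJET) : KDIV := by
  intro ε δ κ g h r hε hε1 hδ hκ hD f x hf
  obtain ⟨hA, -⟩ := h1 ε δ κ g h r hε hε1 hδ hκ hD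
  rw [← h2 ε δ κ g h r hε hε1 hδ hκ hD x (grad f x) (hess2 f x), ← Finset.sum_add_distrib]
  refine Finset.sum_congr rfl fun i _ => ?_
  have hΦ : Differentiable ℝ (fun q : E3 × E3 => cA ε δ κ g q.1 q.2 i) :=
    (EuclideanSpace.proj (𝕜 := ℝ) i).differentiable.comp (hA.differentiable (by simp))
  exact KDIV.chain hΦ hf i

end Pool.Agent.PFlow


end

section

/-!
# KIDV: derivatives of the inverse metric and of the volume density
-/

open Filter Topology
open scoped ContDiff

namespace Pool.Agent.PFlow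

open Pool.Agent.PenroseSph

namespace KIDV

/-- The coordinate vector. -/
noncomputable abbrev ek (k : Fin 3) : E3 := EuclideanSpace.single k 1

lemma pd_eq {f : E3 → ℝ} {f' : E3 →L[ℝ] ℝ} {x : E3} (h : HasFDerivAt f f' x) (k : Fin 3) :
    pd k f x = f' (ek k) := by
  unfold pd
  rw [h.fderiv]

/-- Algebra at a point: `D k a b = ∂_k g_ab`, `G = g⁻¹`. -/
lemma alg1 (G : Matrix (Fin 3) (Fin 3) ℝ) (D : Fin 3 → Matrix (Fin 3) (Fin 3) ℝ)
    (hG : ∀ i j, G i j = G j i) (hD : ∀ k i j, D k i j = D k j i) (k i j : Fin 3) :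
    (G * D k * G) i j = ∑ m, ((1 / 2) * (∑ l, G i l * (D k m l + D m k l - D l k m)) * G m j +
      (1 / 2) * (∑ l, G j l * (D k m l + D m k l - D l k m)) * G i m) := by
  have e1 : ∀ a b, D k a b = (1 / 2) * (D k b a + D b k a - D a k b) +
      (1 / 2) * (D k a b + D a k b - D b k a) := by
    intro a b
    rw [hD k b a]
    ring
  calc (G * D k * G) i j = ∑ b, ∑ a, G i a * D k a b * G b j := by
        rw [Matrix.mul_apply]
        refine Finset.sum_congr rfl fun b _ => ?_
        rw [Matrix.mul_apply, Finset.sum_mul]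
    _ = ∑ b, ∑ a, (G i a * ((1 / 2) * (D k b a + D b k a - D a k b)) * G b j +
          G i a * ((1 / 2) * (D k a b + D a k b - D b k a)) * G b j) := by
        refine Finset.sum_congr rfl fun b _ => Finset.sum_congr rfl fun a _ => ?_
        rw [← add_mul, ← mul_add, ← e1]
    _ = ∑ b, ∑ a, G i a * ((1 / 2) * (D k b a + D b k a - D a k b)) * G b j +
          ∑ b, ∑ a, G i a * ((1 / 2) * (D k a b + D a k b - D b k a)) * G b j := by
        rw [← Finset.sum_add_distrib]
        exact Finset.sum_congr rfl fun b _ => Finset.sum_add_distrib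
    _ = ∑ m, (1 / 2) * (∑ l, G i l * (D k m l + D m k l - D l k m)) * G m j +
          ∑ m, (1 / 2) * (∑ l, G j l * (D k m l + D m k l - D l k m)) * G i m := by
        congr 1
        · refine Finset.sum_congr rfl fun b _ => ?_
          rw [Finset.mul_sum, Finset.sum_mul]
          exact Finset.sum_congr rfl fun a _ => by ring
        · rw [Finset.sum_comm]
          refine Finset.sum_congr rfl fun b _ => ?_
          rw [Finset.mul_sum, Finset.sum_mul]
          refine Finset.sum_congr rfl fun a _ => ?_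
          rw [hG j a]
          ring
    _ = _ := by rw [← Finset.sum_add_distrib]

/-- Algebra at a point: the trace of the Christoffel symbols. -/
lemma alg2 (G : Matrix (Fin 3) (Fin 3) ℝ) (D : Fin 3 → Matrix (Fin 3) (Fin 3) ℝ)
    (hG : ∀ i j, G i j = G j i) (hD : ∀ k i j, D k i j = D k j i) (k : Fin 3) :
    ∑ m, (1 / 2) * (∑ l, G m l * (D m k l + D k m l - D l m k)) =
      (1 / 2) * ∑ m, ∑ l, G m l * D k m l := by
  rw [← Finset.mul_sum]
  congr 1
  have e1 : ∑ m, ∑ l, G m l * D m k l = ∑ m, ∑ l, G m l * D l m k := by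
    rw [Finset.sum_comm]
    refine Finset.sum_congr rfl fun m _ => Finset.sum_congr rfl fun l _ => ?_
    rw [hG l m, hD l k m]
  have e2 : ∑ m, ∑ l, G m l * (D m k l + D k m l - D l m k) =
      ∑ m, ∑ l, G m l * D m k l + ∑ m, ∑ l, G m l * D k m l - ∑ m, ∑ l, G m l * D l m k := by
    rw [← Finset.sum_add_distrib, ← Finset.sum_sub_distrib]
    refine Finset.sum_congr rfl fun m _ => ?_
    rw [← Finset.sum_add_distrib, ← Finset.sum_sub_distrib]
    exact Finset.sum_congr rfl fun l _ => by ring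
  rw [e2, e1]
  ring

/-- The derivative of the determinant. -/
lemma det_pd {g : TensorField} {x : E3} {g' : Fin 3 → Fin 3 → E3 →L[ℝ] ℝ}
    (h : ∀ i j, HasFDerivAt (fun y => g y i j) (g' i j) x) (k : Fin 3) :
    pd k (fun y => (g y).det) x = ∑ a, ∑ b, (g x).adjugate b a * g' a b (ek k) := by
  have h1 := ((((((h 0 0).mul (h 1 1)).mul (h 2 2)).sub (((h 0 0).mul (h 1 2)).mul (h 2 1))).sub
    (((h 0 1).mul (h 1 0)).mul (h 2 2))).add (((h 0 1).mul (h 1 2)).mul (h 2 0))).add
    (((h 0 2).mul (h 1 0)).mul (h 2 1)) |>.sub (((h 0 2).mul (h 1 1)).mul (h 2 0))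
  have h2 : (fun y => (g y).det) = fun y => g y 0 0 * g y 1 1 * g y 2 2 - g y 0 0 * g y 1 2 * g y 2 1
      - g y 0 1 * g y 1 0 * g y 2 2 + g y 0 1 * g y 1 2 * g y 2 0 + g y 0 2 * g y 1 0 * g y 2 1
      - g y 0 2 * g y 1 1 * g y 2 0 := by
    funext y
    rw [Matrix.det_fin_three]
  rw [h2]
  refine (pd_eq h1 k).trans ?_
  simp only [add_apply, sub_apply, smul_apply, smul_eq_mul, Fin.sum_univ_three, Pi.mul_apply]
  simp only [Matrix.adjugate_fin_three, Matrix.of_apply, Matrix.cons_val_zero,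
    Matrix.cons_val_one, Matrix.cons_val]
  ring

end KIDV

open KIDV in
theorem KIDV_thm : KIDV := by
  intro U g hU hg x hx
  have hxU : U ∈ 𝓝 x := hU.mem_nhds hx
  have hdiff : ∀ i j, DifferentiableAt ℝ (fun y => g y i j) x := fun i j =>
    ((hg.smooth i j).contDiffAt hxU).differentiableAt (by simp)
  have hgd : ∀ i j, HasFDerivAt (fun y => g y i j) (fderiv ℝ (fun y => g y i j) x) x := fun i j =>
    (hdiff i j).hasFDerivAt
  have hsym : ∀ y ∈ U, ∀ i j, g y i j = g y j i := by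
    intro y hy i j
    have h1 := (hg.posDef y hy).isHermitian
    have h2 := congrFun (congrFun h1 j) i
    rw [Matrix.conjTranspose_apply] at h2
    simpa using h2
  have hdetpos : ∀ y ∈ U, 0 < (g y).det := fun y hy => (hg.posDef y hy).det_pos
  have hDsym : ∀ k i j, pd k (fun y => g y i j) x = pd k (fun y => g y j i) x := by
    intro k i j
    have h1 : (fun y => g y i j) =ᶠ[𝓝 x] fun y => g y j i := by
      filter_upwards [hxU] with y hy
      exact hsym y hy i j
    unfold pd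
    rw [h1.fderiv_eq]
  -- the determinant
  have hdet : HasFDerivAt (fun y => (g y).det) (fderiv ℝ (fun y => (g y).det) x) x := by
    have h1 : DifferentiableAt ℝ (fun y => (g y).det) x := by
      simp only [Matrix.det_fin_three]
      have := hdiff
      fun_prop
    exact h1.hasFDerivAt
  -- the inverse
  have hinvd : ∀ i j, DifferentiableAt ℝ (fun y => (g y)⁻¹ i j) x := by
    intro i j
    have h1 : (fun y => (g y)⁻¹ i j) = fun y => ((g y).det)⁻¹ * (g y).adjugate i j := by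
      funext y
      rw [Matrix.inv_def, Matrix.smul_apply, Ring.inverse_eq_inv', smul_eq_mul]
    have h2 : DifferentiableAt ℝ (fun y => (g y).adjugate i j) x := by
      simp only [Matrix.adjugate_fin_three]
      have := hdiff
      fin_cases i <;> fin_cases j <;> simp <;> fun_prop
    rw [h1]
    exact (hdet.differentiableAt.inv (hdetpos x hx).ne').mul h2
  have hGd : ∀ i j, HasFDerivAt (fun y => (g y)⁻¹ i j)
      (fderiv ℝ (fun y => (g y)⁻¹ i j) x) x := fun i j => (hinvd i j).hasFDerivAt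
  have hGsym : ∀ i j, (g x)⁻¹ i j = (g x)⁻¹ j i := by
    intro i j
    have h1 : (g x).transpose = g x := by
      ext a b
      exact hsym x hx b a
    have h2 : ((g x)⁻¹).transpose = (g x)⁻¹ := by
      rw [Matrix.transpose_nonsing_inv, h1]
    have h3 := congrFun (congrFun h2 j) i
    exact h3
  have hunit : ∀ y ∈ U, IsUnit (g y).det := fun y hy => (hdetpos y hy).ne'.isUnit
  let D : Fin 3 → Matrix (Fin 3) (Fin 3) ℝ := fun k => Matrix.of fun i j => pd k (fun y => g y i j) x
  let E : Fin 3 → Matrix (Fin 3) (Fin 3) ℝ := fun k =>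
    Matrix.of fun i j => pd k (fun y => (g y)⁻¹ i j) x
  have hEg : ∀ k, E k * g x + (g x)⁻¹ * D k = 0 := by
    intro k
    ext i j
    have h1 : HasFDerivAt (fun y => ∑ m, (g y)⁻¹ i m * g y m j)
        (∑ m, ((g x)⁻¹ i m • fderiv ℝ (fun y => g y m j) x +
          g x m j • fderiv ℝ (fun y => (g y)⁻¹ i m) x)) x :=
      HasFDerivAt.fun_sum fun m _ => (hGd i m).mul (hgd m j)
    have h2 : (fun y => ∑ m, (g y)⁻¹ i m * g y m j) =ᶠ[𝓝 x]
        fun _ => (1 : Matrix (Fin 3) (Fin 3) ℝ) i j := by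
      filter_upwards [hxU] with y hy
      rw [← Matrix.mul_apply, Matrix.nonsing_inv_mul _ (hunit y hy)]
    have h3 : HasFDerivAt (fun y => ∑ m, (g y)⁻¹ i m * g y m j) (0 : E3 →L[ℝ] ℝ) x :=
      (hasFDerivAt_const _ x).congr_of_eventuallyEq h2
    have h4 := congrArg (fun f : E3 →L[ℝ] ℝ => f (ek k)) (h1.unique h3)
    simp only [sum_apply, add_apply, smul_apply, smul_eq_mul, zero_apply] at h4
    rw [Matrix.add_apply, Matrix.mul_apply, Matrix.mul_apply, Matrix.zero_apply, ← h4,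
      ← Finset.sum_add_distrib]
    refine Finset.sum_congr rfl fun m _ => ?_
    change pd k (fun y => (g y)⁻¹ i m) x * g x m j + (g x)⁻¹ i m * pd k (fun y => g y m j) x = _
    unfold pd
    ring
  have hE : ∀ k, E k = -((g x)⁻¹ * D k * (g x)⁻¹) := by
    intro k
    have h1 : E k * g x = -((g x)⁻¹ * D k) := eq_neg_of_add_eq_zero_left (hEg k)
    calc E k = E k * g x * (g x)⁻¹ := by
          rw [mul_assoc, Matrix.mul_nonsing_inv _ (hunit x hx), mul_one]
      _ = _ := by rw [h1, neg_mul]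
  have c1 : ∀ i j k, pd k (fun y => (g y)⁻¹ i j) x =
      -∑ m, (christoffel g i k m x * (g x)⁻¹ m j + christoffel g j k m x * (g x)⁻¹ i m) := by
    intro i j k
    have h1 : pd k (fun y => (g y)⁻¹ i j) x = E k i j := rfl
    rw [h1, hE k, Matrix.neg_apply, alg1 (g x)⁻¹ D hGsym (fun k i j => hDsym k i j) k i j]
    rfl
  have c2 : ∀ k, pd k (volDen g) x = volDen g x * ∑ m, christoffel g m m k x := by
    intro k
    have h1 : HasFDerivAt (volDen g)
        ((1 / (2 * Real.sqrt (g x).det)) • fderiv ℝ (fun y => (g y).det) x) x :=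
      hdet.sqrt (hdetpos x hx).ne'
    have h2 : fderiv ℝ (fun y => (g y).det) x (ek k) =
        ∑ a, ∑ b, (g x).adjugate b a * D k a b := det_pd hgd k
    have h3 : ∀ a b, (g x).adjugate b a = (g x).det * (g x)⁻¹ a b := by
      intro a b
      rw [hGsym a b, Matrix.inv_def, Matrix.smul_apply, Ring.inverse_eq_inv', smul_eq_mul,
        ← mul_assoc, mul_inv_cancel₀ (hdetpos x hx).ne', one_mul]
    have h4 : ∑ m, christoffel g m m k x = (1 / 2) * ∑ m, ∑ l, (g x)⁻¹ m l * D k m l :=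
      alg2 (g x)⁻¹ D hGsym (fun k i j => hDsym k i j) k
    have h5 : ∑ a, ∑ b, (g x).adjugate b a * D k a b =
        (g x).det * ∑ m, ∑ l, (g x)⁻¹ m l * D k m l := by
      rw [Finset.mul_sum]
      refine Finset.sum_congr rfl fun a _ => ?_
      rw [Finset.mul_sum]
      refine Finset.sum_congr rfl fun b _ => ?_
      rw [h3]
      ring
    have h6 : Real.sqrt (g x).det * Real.sqrt (g x).det = (g x).det :=
      Real.mul_self_sqrt (hdetpos x hx).le
    have h7 : Real.sqrt (g x).det ≠ 0 := (Real.sqrt_pos.mpr (hdetpos x hx)).ne'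
    rw [pd_eq h1 k, smul_apply, smul_eq_mul, h2, h5, h4]
    have h8 : volDen g x = Real.sqrt (g x).det := rfl
    rw [h8]
    generalize (∑ m, ∑ l, (g x)⁻¹ m l * D k m l) = S
    generalize Real.sqrt (g x).det = v at *
    rw [← h6]
    field_simp
  refine ⟨c1, c2, ?_⟩
  intro j
  have hvd : DifferentiableAt ℝ (volDen g) x := (hdet.sqrt (hdetpos x hx).ne').differentiableAt
  have h1 : ∀ i, pd i (fun y => volDen g y * (g y)⁻¹ i j) x =
      pd i (volDen g) x * (g x)⁻¹ i j + volDen g x * pd i (fun y => (g y)⁻¹ i j) x := by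
    intro i
    have h2 := hvd.hasFDerivAt.mul (hGd i j)
    refine (pd_eq h2 i).trans ?_
    rw [add_apply, smul_apply, smul_apply, smul_eq_mul, smul_eq_mul]
    unfold pd
    ring
  have h2 : ∀ i, pd i (fun y => volDen g y * (g y)⁻¹ i j) x = volDen g x *
      ((∑ m, christoffel g m m i x * (g x)⁻¹ i j) - (∑ m, christoffel g i i m x * (g x)⁻¹ m j) -
        ∑ m, (g x)⁻¹ i m * christoffel g j i m x) := by
    intro i
    rw [h1, c2, c1, ← Finset.sum_mul, Finset.sum_add_distrib]
    have h3 : ∑ m, christoffel g j i m x * (g x)⁻¹ i m =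
        ∑ m, (g x)⁻¹ i m * christoffel g j i m x :=
      Finset.sum_congr rfl fun m _ => mul_comm _ _
    rw [h3]
    ring
  rw [Finset.sum_congr rfl fun i _ => h2 i, ← Finset.mul_sum, Finset.sum_sub_distrib,
    Finset.sum_sub_distrib, Finset.sum_comm (f := fun i m => christoffel g m m i x * (g x)⁻¹ i j)]
  ring

end Pool.Agent.PFlow


end

section

/-!
# KSM: smoothness of the inverse metric, the volume density and the Christoffel symbols
-/

open scoped ContDiff

namespace Pool.Agent.PFlow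

open Pool.Agent.PenroseSph

namespace KSM

lemma pd_contDiff {f : E3 → ℝ} (hf : ContDiff ℝ ∞ f) (i : Fin 3) : ContDiff ℝ ∞ (pd i f) := by
  unfold pd
  have : ContDiff ℝ ∞ (fun x => fderiv ℝ f x) := hf.fderiv_right (by simp)
  exact this.clm_apply contDiff_const

lemma det_contDiff {g : TensorField} (hg : ∀ i j, ContDiff ℝ ∞ (fun x => g x i j)) :
    ContDiff ℝ ∞ (fun x => (g x).det) := by
  simp only [Matrix.det_fin_three]
  fun_prop

lemma adj_contDiff {g : TensorField} (hg : ∀ i j, ContDiff ℝ ∞ (fun x => g x i j)) (i j : Fin 3) :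
    ContDiff ℝ ∞ (fun x => (g x).adjugate i j) := by
  simp only [Matrix.adjugate_fin_three]
  fin_cases i <;> fin_cases j <;> simp <;> fun_prop

end KSM

open KSM in
theorem KSM_thm : KSM := by
  intro g h r hd
  have hg : ∀ i j, ContDiff ℝ ∞ (fun x => g x i j) := fun i j =>
    contDiffOn_univ.1 (hd.met.smooth i j)
  have hdet : ∀ x, 0 < (g x).det := fun x => (hd.met.posDef x (Set.mem_univ x)).det_pos
  have hinv : ∀ i j, ContDiff ℝ ∞ (fun x => (g x)⁻¹ i j) := by
    intro i j
    have h1 : (fun x => (g x)⁻¹ i j) = fun x => ((g x).det)⁻¹ * (g x).adjugate i j := by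
      funext x
      rw [Matrix.inv_def, Matrix.smul_apply, Ring.inverse_eq_inv', smul_eq_mul]
    rw [h1]
    exact ((det_contDiff hg).inv fun x => (hdet x).ne').mul (adj_contDiff hg i j)
  refine ⟨hinv, ?_, ?_⟩
  · unfold volDen
    exact (det_contDiff hg).sqrt fun x => (hdet x).ne'
  · intro k i j
    unfold christoffel
    refine contDiff_const.mul (ContDiff.sum fun l _ => (hinv k l).mul ?_)
    exact ((pd_contDiff (hg j l) i).add (pd_contDiff (hg i l) j)).sub (pd_contDiff (hg i j) l)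

end Pool.Agent.PFlow


end

section

/-!
# Block K: smoothness of the regularised coefficients
-/

open MeasureTheory Filter Topology
open scoped ContDiff

namespace Pool.Agent.PFlow

open Pool.Agent.PenroseSph

namespace KSMO

/-- `|p|²` is nonnegative. -/
lemma lsq_nonneg {g : TensorField} {x : E3} (h : (g x).PosDef) (p : Cov) : 0 ≤ lsq g x p := by
  have h1 : ((g x)⁻¹).PosDef := h.inv
  have h2 := h1.posSemidef.dotProduct_mulVec_nonneg p
  have h3 : star p ⬝ᵥ ((g x)⁻¹).mulVec p = lsq g x p := by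
    simp only [lsq, ev, dotProduct, Matrix.mulVec, Finset.mul_sum, Pi.star_apply, star_trivial]
    refine Finset.sum_congr rfl fun i _ => Finset.sum_congr rfl fun j _ => ?_
    ring
  rw [h3] at h2
  exact h2

lemma coord_contDiff (i : Fin 3) : ContDiff ℝ ∞ (fun q : E3 × E3 => q.2 i) :=
  (EuclideanSpace.proj (𝕜 := ℝ) i).contDiff.comp contDiff_snd

lemma lift {f : E3 → ℝ} (hf : ContDiff ℝ ∞ f) : ContDiff ℝ ∞ (fun q : E3 × E3 => f q.1) :=
  hf.comp contDiff_fst

lemma raise_contDiff {g : TensorField} (hi : ∀ i j, ContDiff ℝ ∞ (fun x => (g x)⁻¹ i j))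
    (i : Fin 3) : ContDiff ℝ ∞ (fun q : E3 × E3 => raise g q.1 q.2 i) := by
  unfold raise
  exact ContDiff.sum fun j _ => (lift (hi i j)).mul (coord_contDiff j)

lemma lsq_contDiff {g : TensorField} (hi : ∀ i j, ContDiff ℝ ∞ (fun x => (g x)⁻¹ i j)) :
    ContDiff ℝ ∞ (fun q : E3 × E3 => lsq g q.1 q.2) := by
  unfold lsq ev
  exact ContDiff.sum fun i _ => ContDiff.sum fun j _ =>
    ((lift (hi i j)).mul (coord_contDiff i)).mul (coord_contDiff j)

end KSMO

open KSMO in
theorem KSMO_thm (h1 : KSM) : KSMO := by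
  intro ε δ κ g h r hε hε1 hδ hκ D
  obtain ⟨hi, hv, -⟩ := h1 g h r D
  have hh : ∀ i j, ContDiff ℝ ∞ (fun x => h x i j) := fun i j =>
    contDiffOn_univ.1 (D.ten.smooth i j)
  have hpos : ∀ q : E3 × E3, lsq g q.1 q.2 + δ ^ 2 ≠ 0 := by
    intro q
    have := lsq_nonneg (D.met.posDef q.1 (Set.mem_univ _)) q.2
    positivity
  have hs : ContDiff ℝ ∞ (fun q : E3 × E3 => lsq g q.1 q.2 + δ ^ 2) :=
    (lsq_contDiff hi).add contDiff_const
  have hpow : ∀ t : ℝ, ContDiff ℝ ∞ (fun q : E3 × E3 => (lsq g q.1 q.2 + δ ^ 2) ^ t) :=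
    fun t => hs.rpow_const_of_ne hpos
  have hr := raise_contDiff hi
  have r0 : ∀ x : E3, ∀ i, raise g x (0 : E3) i = 0 := by
    intro x i
    simp [raise]
  have l0 : ∀ x : E3, lsq g x (0 : E3) = 0 := by
    intro x
    simp [lsq, ev]
  refine ⟨?_, ?_, ?_, ?_, ?_⟩
  · rw [contDiff_euclidean]
    intro i
    show ContDiff ℝ ∞ (fun q : E3 × E3 => volDen g q.1 *
      ((lsq g q.1 q.2 + δ ^ 2) ^ ((ε - 1) / 2) + κ) * raise g q.1 q.2 i)
    exact ((lift hv).mul ((hpow _).add contDiff_const)).mul (hr i)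
  · unfold cB
    refine ((lift hv).mul (hpow _)).mul (ContDiff.sub ((lsq_contDiff hi).mul ?_) ?_)
    · unfold trg
      exact ContDiff.sum fun i _ => ContDiff.sum fun j _ => (lift (hi i j)).mul (lift (hh i j))
    · refine contDiff_const.mul ?_
      unfold ev
      exact ContDiff.sum fun i _ => ContDiff.sum fun j _ =>
        ((lift (hh i j)).mul (hr i)).mul (hr j)
  · intro x
    ext i
    show volDen g x * regA ε δ κ (lsq g x (0 : E3)) * raise g x (0 : E3) i = 0
    rw [r0, mul_zero]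
  · intro x
    unfold cB
    rw [l0]
    have : ev (h x) (raise g x (0 : E3)) (raise g x (0 : E3)) = 0 := by
      unfold ev
      refine Finset.sum_eq_zero fun i _ => Finset.sum_eq_zero fun j _ => ?_
      rw [r0 x i, mul_zero, zero_mul]
    rw [this]
    simp
  · intro x ξ hx
    unfold cB
    rw [(D.flat x hx).2]
    simp [trg, ev]

end Pool.Agent.PFlow


end

section

/-!
# All facts on the coefficients (block K) of the equation
-/

namespace Pool.Agent.PFlow.PB

open Pool.Agent.PFlow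

theorem kSM : KSM := KSM_thm
theorem kTN : KTN := KTN_thm
theorem kIDV : KIDV := KIDV_thm
theorem kBND : KBND := KBND_thm kSM kTN
theorem kSMO : KSMO := KSMO_thm kSM
theorem kJET : KJET := KJET_thm kSM kIDV
theorem kMON : KMON := KMON_thm kBND kTN
theorem kLIP : KLIP := KLIP_thm kSM kSMO kBND kTN kIDV
theorem kCOEF : KCOEF := KCOEF_thm kSMO kMON kLIP
theorem kCOR : KCOR := KCOR_thm kBND kTN
theorem kCUT : KCUT := KCUT_thm
theorem kDIV : KDIV := KDIV_thm kSMO kJET
theorem kEXP : KEXP := KEXP_thm kBND kTN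
theorem kBAR : KBAR := KBAR_thm kBND kTN
theorem kLIM : KLIM := KLIM_thm kBND kTN
theorem kLIMJ : KLIMJ := KLIMJ_thm kTN kSM
theorem kLIMU : KLIMU := KLIMU_thm kBND kTN
theorem kPOS : KPOS := KPOS_thm kTN kSM kLIMJ

end Pool.Agent.PFlow.PB


end

section

/-!
# Module POS: the square terms of the dissipation are nonnegative
-/

open MeasureTheory Filter Topology
open scoped ContDiff

namespace Pool.Agent.PFlow

open Pool.Agent.PenroseSph

namespace MPOS

/-- Bessel's inequality for the matrices `n ⊗ n` and `1 - n ⊗ n`. -/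
theorem bessel (L : Bil) (n : Cov) (N T : ℝ) (hn : ∑ i, n i * n i = 1)
    (hN : ∑ i, ∑ j, L i j * n i * n j = N) (hT : ∑ i, L i i = T + N) :
    N ^ 2 + T ^ 2 / 2 ≤ ∑ i, ∑ j, L i j * L i j := by
  have key : 0 ≤ ∑ i : Fin 3, ∑ j : Fin 3,
      (L i j - ((N - T / 2) * (n i * n j) + T / 2 * (if i = j then 1 else 0))) ^ 2 :=
    Finset.sum_nonneg fun i _ => Finset.sum_nonneg fun j _ => sq_nonneg _
  have h01 : ¬ ((0 : Fin 3) = 1) := by decide
  have h02 : ¬ ((0 : Fin 3) = 2) := by decide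
  have h10 : ¬ ((1 : Fin 3) = 0) := by decide
  have h12 : ¬ ((1 : Fin 3) = 2) := by decide
  have h20 : ¬ ((2 : Fin 3) = 0) := by decide
  have h21 : ¬ ((2 : Fin 3) = 1) := by decide
  simp only [Fin.sum_univ_three, if_true, if_neg h01, if_neg h02, if_neg h10, if_neg h12,
    if_neg h20, if_neg h21] at key hn hN hT ⊢
  have e : (L 0 0 - ((N - T / 2) * (n 0 * n 0) + T / 2 * 1)) ^ 2 +
      (L 0 1 - ((N - T / 2) * (n 0 * n 1) + T / 2 * 0)) ^ 2 +
      (L 0 2 - ((N - T / 2) * (n 0 * n 2) + T / 2 * 0)) ^ 2 +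
      ((L 1 0 - ((N - T / 2) * (n 1 * n 0) + T / 2 * 0)) ^ 2 +
      (L 1 1 - ((N - T / 2) * (n 1 * n 1) + T / 2 * 1)) ^ 2 +
      (L 1 2 - ((N - T / 2) * (n 1 * n 2) + T / 2 * 0)) ^ 2) +
      ((L 2 0 - ((N - T / 2) * (n 2 * n 0) + T / 2 * 0)) ^ 2 +
      (L 2 1 - ((N - T / 2) * (n 2 * n 1) + T / 2 * 0)) ^ 2 +
      (L 2 2 - ((N - T / 2) * (n 2 * n 2) + T / 2 * 1)) ^ 2) =
      L 0 0 * L 0 0 + L 0 1 * L 0 1 + L 0 2 * L 0 2 +
      (L 1 0 * L 1 0 + L 1 1 * L 1 1 + L 1 2 * L 1 2) +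
      (L 2 0 * L 2 0 + L 2 1 * L 2 1 + L 2 2 * L 2 2) - N ^ 2 - T ^ 2 / 2 := by
    linear_combination (-2 * (N - T / 2)) * hN - T * hT +
      ((N - T / 2) ^ 2 * (n 0 * n 0 + n 1 * n 1 + n 2 * n 2 + 1) + (N - T / 2) * T) * hn
  linarith

/-- Multilinearity of `ev`. -/
theorem ev_div (B : Bil) (v : Cov) (c : ℝ) :
    ev B (fun i => v i / c) (fun i => v i / c) = ev B v v / c ^ 2 := by
  unfold ev
  rw [Finset.sum_div]
  refine Finset.sum_congr rfl fun i _ => ?_
  rw [Finset.sum_div]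
  refine Finset.sum_congr rfl fun j _ => ?_
  ring

theorem pos_alg (hFR : Stmt_FR) (g : TensorField) (x : E3) (hg : (g x).PosDef) (p : Cov)
    (hp : p ≠ 0) (B : Bil) :
    bnn g x p B ^ 2 + btan g x p B ^ 2 / 2 ≤ nsq g x B := by
  obtain ⟨A, -, -, hev, htr, hdd, hqf, -, -, hne⟩ := hFR (g x)⁻¹ hg.inv
  have hv := hne p hp
  have hlen : len g x p ^ 2 = ∑ i, plv A p i * plv A p i := by
    unfold len
    rw [Real.sq_sqrt]
    · exact hev p p
    · rw [hev p p]
      exact Finset.sum_nonneg fun i _ => mul_self_nonneg _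
  have hpos : 0 < ∑ i, plv A p i * plv A p i := by
    obtain ⟨i, hi⟩ := Function.ne_iff.mp hv
    refine Finset.sum_pos' (fun i _ => mul_self_nonneg _) ⟨i, Finset.mem_univ i, ?_⟩
    exact mul_self_pos.mpr hi
  have hlen0 : len g x p ≠ 0 := by
    intro h0
    rw [h0] at hlen
    rw [← hlen] at hpos
    norm_num at hpos
  have hnsq : nsq g x B = ∑ i, ∑ j, plm A B i j * plm A B i j := hdd B B
  have htrg : trg g x B = ∑ i, plm A B i i := htr B
  have hbnn : bnn g x p B = ∑ i, ∑ j, plm A B i j * (plv A p i / len g x p) *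
      (plv A p j / len g x p) := by
    have h1 : bnn g x p B = ev B (raise g x p) (raise g x p) / len g x p ^ 2 :=
      ev_div B (raise g x p) (len g x p)
    have h2 : ev B (raise g x p) (raise g x p) = ev (plm A B) (plv A p) (plv A p) := hqf B p
    rw [h1, h2]
    exact (ev_div (plm A B) (plv A p) (len g x p)).symm
  rw [hnsq]
  refine bessel (plm A B) (fun i => plv A p i / len g x p) (bnn g x p B) (btan g x p B) ?_
    hbnn.symm ?_
  · have h3 : ∀ i, plv A p i / len g x p * (plv A p i / len g x p) =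
        plv A p i * plv A p i / len g x p ^ 2 := by
      intro i
      ring
    rw [Finset.sum_congr rfl fun i _ => h3 i, ← Finset.sum_div, hlen, div_self hpos.ne']
  · rw [← htrg]
    unfold btan
    ring

end MPOS

theorem POS (hFR : Stmt_FR) : Stmt_POS := by
  intro U g h _ hg _ x hx ε p M _ _ hp _
  have h1 := MPOS.pos_alg hFR g x (hg.posDef x hx) p hp (tenB g h x p M)
  unfold dis0
  linarith

end Pool.Agent.PFlow


end

section

/-!
# Module LE: local `L³` bound of the gradient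
-/

open MeasureTheory Filter Topology
open scoped ContDiff ENNReal

namespace Pool.Agent.PFlow.LEaux

open Pool.Agent.PenroseSph Pool.Agent.PFlow

theorem h2On_mono {U V : Set E3} {w : E3 → ℝ} {G : E3 → Cov} {M : E3 → Bil}
    (h : H2On U w G M) (hVU : V ⊆ U) : H2On V w G M where
  cont := h.cont.mono hVU
  memG := fun K hK hKV => h.memG K hK (hKV.trans hVU)
  memM := fun K hK hKV => h.memM K hK (hKV.trans hVU)
  approx := fun K hK hKV => h.approx K hK (hKV.trans hVU)

theorem isCompact_cAnn (a b : ℝ) : IsCompact (cAnn a b) := by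
  have h1 : cAnn a b = Metric.closedBall (0 : E3) b ∩ {x : E3 | a ≤ ‖x‖} := by
    ext x
    simp only [cAnn, Set.mem_ofPred_eq, Set.mem_inter_iff, Metric.mem_closedBall, dist_zero_right]
    exact and_comm
  rw [h1]
  exact (isCompact_closedBall _ _).inter_right (isClosed_le continuous_const continuous_norm)

theorem vsz_nonneg (p : Cov) : 0 ≤ vsz p := Real.sqrt_nonneg _

theorem vsz_sq (p : Cov) : vsz p ^ 2 = ∑ i, p i ^ 2 :=
  Real.sq_sqrt (Finset.sum_nonneg fun _ _ => sq_nonneg _)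

theorem msz_sq (B : Bil) : msz B ^ 2 = ∑ i, ∑ j, B i j ^ 2 :=
  Real.sq_sqrt (Finset.sum_nonneg fun _ _ => Finset.sum_nonneg fun _ _ => sq_nonneg _)

theorem integrableOn_vsz_sq {U K : Set E3} {w : E3 → ℝ} {G : E3 → Cov} {M : E3 → Bil}
    (h : H2On U w G M) (hK : IsCompact K) (hKU : K ⊆ U) :
    IntegrableOn (fun x => vsz (G x) ^ 2) K := by
  simp only [vsz_sq]
  exact integrable_finsetSum _ fun i _ => (h.memG K hK hKU i).integrable_sq

theorem integrableOn_msz_sq {U K : Set E3} {w : E3 → ℝ} {G : E3 → Cov} {M : E3 → Bil}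
    (h : H2On U w G M) (hK : IsCompact K) (hKU : K ⊆ U) :
    IntegrableOn (fun x => msz (M x) ^ 2) K := by
  simp only [msz_sq]
  exact integrable_finsetSum _ fun i _ => integrable_finsetSum _ fun j _ =>
    (h.memM K hK hKU i j).integrable_sq

theorem aesm_vsz {U K : Set E3} {w : E3 → ℝ} {G : E3 → Cov} {M : E3 → Bil}
    (h : H2On U w G M) (hK : IsCompact K) (hKU : K ⊆ U) :
    AEStronglyMeasurable (fun x => vsz (G x)) (volume.restrict K) := by
  unfold vsz
  refine Real.continuous_sqrt.comp_aestronglyMeasurable ?_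
  exact Finset.aestronglyMeasurable_fun_sum _ fun i _ =>
    ((h.memG K hK hKU i).aestronglyMeasurable).pow 2

end Pool.Agent.PFlow.LEaux

namespace Pool.Agent.PFlow

open Pool.Agent.PenroseSph LEaux

theorem LE (hLE1 : Stmt_LE1) (hLE2 : Stmt_LE2) : Stmt_LE := by
  intro ε' C₁ a' a b b' hε' hε'1 hC₁ ha' haa hab hbb
  set a1 : ℝ := (a' + a) / 2 with ha1
  set b1 : ℝ := (b + b') / 2 with hb1
  obtain ⟨D, hD, hLE1⟩ := hLE1 ε' C₁ a' a1 b1 b' hε' hε'1 hC₁ ha' (by linarith) (by linarith)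
    (by linarith)
  obtain ⟨E, hE, hLE2⟩ := hLE2 D a1 a b b1 hD.le (by linarith) (by linarith) hab (by linarith)
  refine ⟨D + E, by positivity, ?_⟩
  intro ρ S v G M hρ hS hH2 hv hM
  obtain ⟨k1, k2⟩ := hLE1 ρ S v G M hρ hS hH2 hv hM
  have hsub1 : Ann (a1 * ρ) (b1 * ρ) ⊆ Ann (a' * ρ) (b' * ρ) := by
    intro x hx
    have e1 : a' * ρ ≤ a1 * ρ := mul_le_mul_of_nonneg_right (by linarith) hρ.le
    have e2 : b1 * ρ ≤ b' * ρ := mul_le_mul_of_nonneg_right (by linarith) hρ.le
    exact ⟨e1.trans_lt hx.1, hx.2.trans_le e2⟩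
  have hsub2 : cAnn (a1 * ρ) (b1 * ρ) ⊆ Ann (a' * ρ) (b' * ρ) := by
    intro x hx
    have e1 : a' * ρ < a1 * ρ := mul_lt_mul_of_pos_right (by linarith) hρ
    have e2 : b1 * ρ < b' * ρ := mul_lt_mul_of_pos_right (by linarith) hρ
    exact ⟨e1.trans_le hx.1, hx.2.trans_lt e2⟩
  have hsub3 : cAnn (a * ρ) (b * ρ) ⊆ cAnn (a1 * ρ) (b1 * ρ) := by
    intro x hx
    have e1 : a1 * ρ ≤ a * ρ := mul_le_mul_of_nonneg_right (by linarith) hρ.le
    have e2 : b * ρ ≤ b1 * ρ := mul_le_mul_of_nonneg_right (by linarith) hρ.le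
    exact ⟨e1.trans hx.1, hx.2.trans e2⟩
  have i1 := integrableOn_msz_sq hH2 (isCompact_cAnn _ _) hsub2
  have i2 := integrableOn_vsz_sq hH2 (isCompact_cAnn _ _) hsub2
  obtain ⟨i4, k4⟩ := hLE2 ρ S v G M hρ hS (h2On_mono hH2 hsub1) (fun x hx => hv x (hsub1 hx))
    k1 k2 i1 i2
  have i2' : IntegrableOn (fun x => vsz (G x) ^ 2) (cAnn (a * ρ) (b * ρ)) := i2.mono_set hsub3
  have k2' : (∫ x in cAnn (a * ρ) (b * ρ), vsz (G x) ^ 2) ≤ D * S ^ 2 * ρ := by
    refine le_trans ?_ k2
    exact setIntegral_mono_set i2 (Filter.Eventually.of_forall fun x => sq_nonneg _)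
      hsub3.eventuallyLE
  have hmeas := aesm_vsz hH2 (isCompact_cAnn (a * ρ) (b * ρ)) (hsub3.trans hsub2)
  -- the elementary inequality
  have hpt : ∀ l t : ℝ, 0 < l → 0 ≤ t → t ^ 3 ≤ (l * t ^ 2 + l⁻¹ * t ^ 4) / 2 := by
    intro l t hl ht
    have h1 : 0 ≤ l⁻¹ * (t * (t - l)) ^ 2 := by positivity
    have h2 : l⁻¹ * (t * (t - l)) ^ 2 = l⁻¹ * t ^ 4 - 2 * t ^ 3 * (l⁻¹ * l) + (l⁻¹ * l) * l * t ^ 2 := by
      ring
    rw [inv_mul_cancel₀ hl.ne'] at h2
    linarith
  have i3 : IntegrableOn (fun x => vsz (G x) ^ 3) (cAnn (a * ρ) (b * ρ)) := by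
    refine Integrable.mono' (g := fun x => (1 * vsz (G x) ^ 2 + 1⁻¹ * vsz (G x) ^ 4) / 2) ?_
      (hmeas.pow 3) (Filter.Eventually.of_forall fun x => ?_)
    · exact ((i2'.const_mul 1).add (i4.const_mul 1⁻¹)).div_const 2
    · rw [Real.norm_eq_abs, abs_of_nonneg (by have := vsz_nonneg (G x); positivity)]
      exact hpt 1 _ one_pos (vsz_nonneg _)
  refine ⟨i3, ?_⟩
  have key : ∀ l : ℝ, 0 < l → (∫ x in cAnn (a * ρ) (b * ρ), vsz (G x) ^ 3)
      ≤ (l * (D * S ^ 2 * ρ) + l⁻¹ * (E * S ^ 4 / ρ)) / 2 := by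
    intro l hl
    have h1 : (∫ x in cAnn (a * ρ) (b * ρ), vsz (G x) ^ 3)
        ≤ ∫ x in cAnn (a * ρ) (b * ρ), (l * vsz (G x) ^ 2 + l⁻¹ * vsz (G x) ^ 4) / 2 :=
      integral_mono i3 (((i2'.const_mul l).add (i4.const_mul l⁻¹)).div_const 2)
        fun x => hpt l _ hl (vsz_nonneg _)
    rw [integral_div, integral_add (i2'.const_mul l) (i4.const_mul l⁻¹), integral_const_mul,
      integral_const_mul] at h1
    have h2 : l * (∫ x in cAnn (a * ρ) (b * ρ), vsz (G x) ^ 2) ≤ l * (D * S ^ 2 * ρ) :=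
      mul_le_mul_of_nonneg_left k2' hl.le
    have h3 : l⁻¹ * (∫ x in cAnn (a * ρ) (b * ρ), vsz (G x) ^ 4) ≤ l⁻¹ * (E * S ^ 4 / ρ) :=
      mul_le_mul_of_nonneg_left k4 (by positivity)
    linarith
  rcases hS.eq_or_lt with hS0 | hSp
  · have := key 1 one_pos
    rw [← hS0] at this ⊢
    simpa using this
  · have h1 := key (S / ρ) (by positivity)
    have h2 : (S / ρ * (D * S ^ 2 * ρ) + (S / ρ)⁻¹ * (E * S ^ 4 / ρ)) / 2
        = (D + E) * S ^ 3 / 2 := by
      field_simp
    rw [h2] at h1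
    have h3 : 0 ≤ (D + E) * S ^ 3 := by positivity
    linarith

end Pool.Agent.PFlow


end

section

/-!
# Module TRD: competitors in the trace-dominated case
-/

open MeasureTheory Filter Topology
open scoped ContDiff ENNReal

namespace Pool.Agent.PFlow

open Pool.Agent.PenroseSph

namespace TRDm

/-! ### The tensor `(tr h / 3) g` at a point -/

theorem tt_apply (g h : TensorField) (x : E3) (i j : Fin 3) :
    traceTensor g h x i j = trg g x (h x) / 3 * g x i j := by
  unfold traceTensor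
  rw [Matrix.smul_apply, smul_eq_mul]

theorem trg_g {g : TensorField} {x : E3} (h : MJD.Pt g x) : trg g x (g x) = 3 := by
  unfold trg
  have h1 : ∀ i, ∑ j, (g x)⁻¹ i j * g x i j = 1 := by
    intro i
    have h2 := h.inv_mul i i
    rw [if_pos rfl] at h2
    rw [← h2]
    refine Finset.sum_congr rfl fun j _ => ?_
    rw [h.g_symm i j]
  rw [Finset.sum_congr rfl fun i _ => h1 i]
  simp

theorem nsq_g {g : TensorField} {x : E3} (h : MJD.Pt g x) : nsq g x (g x) = 3 := by
  have h1 : nsq g x (g x) = ∑ i, ∑ j, (g x)⁻¹ i j * g x i j := by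
    unfold nsq
    refine Finset.sum_congr rfl fun i _ => ?_
    have h2 : ∀ j, ∑ k, ∑ l, (g x)⁻¹ i k * (g x)⁻¹ j l * g x i j * g x k l =
        ∑ l, (∑ k, (g x)⁻¹ i k * g x k l) * ((g x)⁻¹ j l * g x i j) := by
      intro j
      rw [Finset.sum_comm]
      refine Finset.sum_congr rfl fun l _ => ?_
      rw [Finset.sum_mul]
      refine Finset.sum_congr rfl fun k _ => ?_
      ring
    rw [Finset.sum_congr rfl fun j _ => h2 j]
    simp only [h.inv_mul]
    refine Finset.sum_congr rfl fun j _ => ?_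
    rw [Finset.sum_eq_single i]
    · rw [if_pos rfl, one_mul, h.inv_symm j i]
    · intro l _ hl
      rw [if_neg (Ne.symm hl), zero_mul]
    · simp
  rw [h1]
  exact trg_g h

theorem trg_tt {g : TensorField} (h : TensorField) {x : E3} (hp : MJD.Pt g x) :
    trg g x (traceTensor g h x) = trg g x (h x) := by
  unfold traceTensor
  rw [EShell.trg_smul, trg_g hp]
  ring

theorem nsq_tt {g : TensorField} (h : TensorField) {x : E3} (hp : MJD.Pt g x) :
    nsq g x (traceTensor g h x) = trg g x (h x) ^ 2 / 3 := by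
  unfold traceTensor
  rw [EShell.nsq_smul, nsq_g hp]
  ring

theorem ev_tt (g h : TensorField) (x : E3) (v w : Cov) :
    ev (traceTensor g h x) v w = trg g x (h x) / 3 * ev (g x) v w := by
  unfold ev
  rw [Finset.mul_sum]
  refine Finset.sum_congr rfl fun i _ => ?_
  rw [Finset.mul_sum]
  refine Finset.sum_congr rfl fun j _ => ?_
  rw [tt_apply]
  ring

theorem pd_mul' {f k : E3 → ℝ} {x : E3} (hf : DifferentiableAt ℝ f x)
    (hk : DifferentiableAt ℝ k x) (i : Fin 3) :
    pd i (fun y => f y * k y) x = f x * pd i k x + pd i f x * k x := by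
  unfold pd
  rw [fderiv_fun_mul hf hk]
  simp
  ring

theorem diff_div3 {f : E3 → ℝ} {x : E3} (hf : DifferentiableAt ℝ f x) :
    DifferentiableAt ℝ (fun y => f y / 3) x := by
  simp only [div_eq_mul_inv]
  exact hf.mul_const _

theorem pd_div3 {f : E3 → ℝ} {x : E3} (hf : DifferentiableAt ℝ f x) (i : Fin 3) :
    pd i (fun y => f y / 3) x = pd i f x / 3 := by
  have h1 : (fun y => f y / 3) = fun y => f y * 3⁻¹ := by
    funext y
    rw [div_eq_mul_inv]
  rw [h1, pd_mul' hf (differentiableAt_const _)]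
  unfold pd
  simp
  ring

theorem pd_tt {g h : TensorField} {x : E3} (hg : ∀ i j, DifferentiableAt ℝ (fun y => g y i j) x)
    (ht : DifferentiableAt ℝ (fun y => trg g y (h y)) x) (k i j : Fin 3) :
    pd k (fun y => traceTensor g h y i j) x =
      trg g x (h x) / 3 * pd k (fun y => g y i j) x
        + pd k (fun y => trg g y (h y)) x / 3 * g x i j := by
  have h1 : (fun y => traceTensor g h y i j) = fun y => trg g y (h y) / 3 * g y i j := by
    funext y
    exact tt_apply g h y i j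
  rw [h1, pd_mul' (diff_div3 ht) (hg i j), pd_div3 ht]

/-- The covariant derivative. -/
theorem cov_tt {g h : TensorField} {x : E3} (hp : MJD.Pt g x)
    (ht : DifferentiableAt ℝ (fun y => trg g y (h y)) x) (k i j : Fin 3) :
    covDeriv g (traceTensor g h) k i j x = pd k (fun y => trg g y (h y)) x / 3 * g x i j := by
  unfold covDeriv
  rw [pd_tt hp.diff ht, hp.pd_g]
  simp only [tt_apply, Fin.sum_univ_three]
  rw [hp.g_symm j 0, hp.g_symm j 1, hp.g_symm j 2]
  ring

/-- The momentum density. -/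
theorem mom_tt {g h : TensorField} {x : E3} (hp : MJD.Pt g x)
    (htr : ∀ᶠ y in 𝓝 x, MJD.Pt g y)
    (ht : DifferentiableAt ℝ (fun y => trg g y (h y)) x) (j : Fin 3) :
    momentumDensity g (traceTensor g h) j x = -(2 / 3) * pd j (fun y => trg g y (h y)) x := by
  have hB : ∀ i j, DifferentiableAt ℝ (fun y => traceTensor g h y i j) x := by
    intro i j
    have h1 : (fun y => traceTensor g h y i j) = fun y => trg g y (h y) / 3 * g y i j := by
      funext y
      exact tt_apply g h y i j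
    rw [h1]
    exact (diff_div3 ht).mul (hp.diff i j)
  rw [hp.mom _ hB]
  have h2 : pd j (fun y => trg g y (traceTensor g h y)) x = pd j (fun y => trg g y (h y)) x := by
    unfold pd
    have h3 : (fun y => trg g y (traceTensor g h y)) =ᶠ[𝓝 x] fun y => trg g y (h y) := by
      filter_upwards [htr] with y hy
      exact trg_tt h hy
    rw [h3.fderiv_eq]
  rw [h2]
  have h4 : ∑ i, ∑ k, (g x)⁻¹ i k * covDeriv g (traceTensor g h) k i j x =
      ∑ k, pd k (fun y => trg g y (h y)) x / 3 * ∑ i, (g x)⁻¹ k i * g x i j := by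
    rw [Finset.sum_comm]
    refine Finset.sum_congr rfl fun k _ => ?_
    rw [Finset.mul_sum]
    refine Finset.sum_congr rfl fun i _ => ?_
    rw [cov_tt hp ht, hp.inv_symm i k]
    ring
  rw [h4]
  simp only [hp.inv_mul]
  rw [Finset.sum_eq_single j]
  · rw [if_pos rfl]
    ring
  · intro k _ hk
    rw [if_neg hk, mul_zero]
  · simp

theorem jlen_tt {g h : TensorField} {x : E3} (hp : MJD.Pt g x)
    (htr : ∀ᶠ y in 𝓝 x, MJD.Pt g y)
    (ht : DifferentiableAt ℝ (fun y => trg g y (h y)) x) :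
    jlen g (traceTensor g h) x = 2 / 3 * len g x (grad (fun y => trg g y (h y)) x) := by
  unfold jlen len
  have h1 : (fun i => momentumDensity g (traceTensor g h) i x) =
      fun i => -(2 / 3) * grad (fun y => trg g y (h y)) x i := by
    funext i
    exact mom_tt hp htr ht i
  rw [h1]
  have h2 : ev (g x)⁻¹ (fun i => -(2 / 3) * grad (fun y => trg g y (h y)) x i)
      (fun i => -(2 / 3) * grad (fun y => trg g y (h y)) x i) =
      (2 / 3) ^ 2 * ev (g x)⁻¹ (grad (fun y => trg g y (h y)) x)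
        (grad (fun y => trg g y (h y)) x) := by
    unfold ev
    rw [Finset.mul_sum]
    refine Finset.sum_congr rfl fun i _ => ?_
    rw [Finset.mul_sum]
    refine Finset.sum_congr rfl fun j _ => ?_
    ring
  rw [h2, Real.sqrt_mul (by norm_num), Real.sqrt_sq (by norm_num)]

/-! ### Bounds -/

open BARBm in
theorem chr_le {g : TensorField} {x : E3} {C a : ℝ} (hinv : ∀ i j, |(g x)⁻¹ i j| ≤ C)
    (hd : ∀ k i j, |pd k (fun y => g y i j) x| ≤ a) (k i j : Fin 3) :
    |christoffel g k i j x| ≤ 9 / 2 * (C * a) := by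
  unfold christoffel
  have h1 : ∀ l, |(g x)⁻¹ k l * (pd i (fun y => g y j l) x + pd j (fun y => g y i l) x
      - pd l (fun y => g y i j) x)| ≤ C * (a + a + a) := fun l =>
    mul_le (hinv k l) (sub_le (add_le (hd i j l) (hd j i l)) (hd l i j))
  have h2 := sum1_le h1
  have h3 : |(1 / 2 : ℝ)| ≤ 1 / 2 := by rw [abs_of_pos (by norm_num)]
  refine (mul_le h3 h2).trans (le_of_eq ?_)
  ring

open BARBm in
theorem cov_le {g h : TensorField} {x : E3} {C a b c : ℝ} (hinv : ∀ i j, |(g x)⁻¹ i j| ≤ C)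
    (hd : ∀ k i j, |pd k (fun y => g y i j) x| ≤ a)
    (hh : ∀ i j, |h x i j| ≤ c) (hdh : ∀ k i j, |pd k (fun y => h y i j) x| ≤ b)
    (k i j : Fin 3) : |covDeriv g h k i j x| ≤ b + 27 * (C * a * c) := by
  unfold covDeriv
  have h1 : ∀ l, |christoffel g l k i x * h x l j + christoffel g l k j x * h x i l| ≤
      9 / 2 * (C * a) * c + 9 / 2 * (C * a) * c := fun l =>
    add_le (mul_le (chr_le hinv hd l k i) (hh l j)) (mul_le (chr_le hinv hd l k j) (hh i l))
  refine (sub_le (hdh k i j) (sum1_le h1)).trans (le_of_eq ?_)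
  ring

open BARBm in
theorem pd_tr_le {g h : TensorField} {x : E3} {C a b c : ℝ} (hp : MJD.Pt g x)
    (hhd : ∀ i j, DifferentiableAt ℝ (fun y => h y i j) x)
    (hinv : ∀ i j, |(g x)⁻¹ i j| ≤ C)
    (hd : ∀ k i j, |pd k (fun y => g y i j) x| ≤ a)
    (hh : ∀ i j, |h x i j| ≤ c) (hdh : ∀ k i j, |pd k (fun y => h y i j) x| ≤ b)
    (k : Fin 3) : |pd k (fun y => trg g y (h y)) x| ≤ 9 * (C * (b + 27 * (C * a * c))) := by
  rw [hp.pd_tr h hhd]
  exact sum2_le fun i j => mul_le (hinv i j) (cov_le hinv hd hh hdh k i j)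

open BARBm in
/-- The decay of `(tr h / 3) g`. -/
theorem decay_tt {g h : TensorField} {C : ℝ} (hg : MetricOn {0}ᶜ g) (hh : TensorOn {0}ᶜ h)
    (hC : 0 < C) (hd : DecayFrom C 1 g h)
    (he : ∀ x : E3, 1 ≤ ‖x‖ → ∀ v : Cov, (∑ i, v i ^ 2) ≤ C * ev (g x) v v) :
    ∃ C' : ℝ, DecayFrom C' 1 g (traceTensor g h) := by
  refine ⟨C + 3 * C ^ 2 * (1 + C) + 3 * C * (C + 27 * C ^ 3) * (1 + C) + 3 * C ^ 3, ?_⟩
  set K : ℝ := C + 3 * C ^ 2 * (1 + C) + 3 * C * (C + 27 * C ^ 3) * (1 + C) + 3 * C ^ 3 with hK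
  have hKC : C ≤ K := by
    have : 0 ≤ 3 * C ^ 2 * (1 + C) + 3 * C * (C + 27 * C ^ 3) * (1 + C) + 3 * C ^ 3 := by
      positivity
    linarith
  intro x hx i j
  have hx0 : x ≠ 0 := by
    rintro rfl
    rw [norm_zero] at hx
    linarith
  have hU : ({0}ᶜ : Set E3) ∈ 𝓝 x := isOpen_compl_singleton.mem_nhds hx0
  have hp : MJD.Pt g x := MJD.pt_of isOpen_compl_singleton hg hx0
  have hr : 0 < ‖x‖ := by linarith
  obtain ⟨a, ha⟩ : ∃ a : ℝ, a = ‖x‖⁻¹ := ⟨_, rfl⟩
  have ha0 : 0 < a := by rw [ha]; positivity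
  have ha1 : a ≤ 1 := by rw [ha]; exact inv_le_one_of_one_le₀ hx
  have hd' := fun i j => hd x hx i j
  have e1 : ∀ M : ℝ, M / ‖x‖ = M * a := fun M => by rw [ha, div_eq_mul_inv]
  have e2 : ∀ M : ℝ, M / ‖x‖ ^ 2 = M * a ^ 2 := fun M => by rw [ha, div_eq_mul_inv, inv_pow]
  have e3 : ∀ M : ℝ, M / ‖x‖ ^ 3 = M * a ^ 3 := fun M => by rw [ha, div_eq_mul_inv, inv_pow]
  simp only [e1, e2, e3] at hd' ⊢
  have hinv : ∀ i j, |(g x)⁻¹ i j| ≤ C := fun i j =>
    EShell.inv_entry (hg.posDef x hx0) (he x hx) i j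
  have hgb : ∀ i j, |g x i j| ≤ 1 + C := by
    intro i j
    have h1 := (hd' i j).1
    have h2 : |(1 : Bil) i j| ≤ 1 := by
      rw [Matrix.one_apply]
      split_ifs <;> simp
    have h3 : g x i j = (1 : Bil) i j + (g x i j - (1 : Bil) i j) := by ring
    rw [h3]
    refine (add_le h2 h1).trans ?_
    have : C * a ≤ C * 1 := mul_le_mul_of_nonneg_left ha1 hC.le
    linarith
  have hdg : ∀ k i j, |pd k (fun y => g y i j) x| ≤ C * a ^ 2 := fun k i j => (hd' i j).2.1 k
  have hhb : ∀ i j, |h x i j| ≤ C * a ^ 2 := fun i j => (hd' i j).2.2.2.1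
  have hdh : ∀ k i j, |pd k (fun y => h y i j) x| ≤ C * a ^ 3 := fun k i j => (hd' i j).2.2.2.2 k
  have hhd : ∀ i j, DifferentiableAt ℝ (fun y => h y i j) x := fun i j =>
    ((hh.smooth i j).contDiffAt hU).differentiableAt (by simp)
  have htd : DifferentiableAt ℝ (fun y => trg g y (h y)) x := MJD.diffTr hp h hhd
  have ht : |trg g x (h x)| ≤ 9 * (C * (C * a ^ 2)) :=
    sum2_le fun i j => mul_le (hinv i j) (hhb i j)
  have ha4 : a ^ 4 ≤ a ^ 3 := by
    calc a ^ 4 = a ^ 3 * a := by ring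
      _ ≤ a ^ 3 * 1 := mul_le_mul_of_nonneg_left ha1 (by positivity)
      _ = a ^ 3 := by ring
  have hdt : ∀ k, |pd k (fun y => trg g y (h y)) x| ≤ 9 * C * (C + 27 * C ^ 3) * a ^ 3 := by
    intro k
    refine (pd_tr_le hp hhd hinv hdg hhb hdh k).trans ?_
    have h1 : 27 * C ^ 3 * a ^ 4 ≤ 27 * C ^ 3 * a ^ 3 :=
      mul_le_mul_of_nonneg_left ha4 (by positivity)
    calc 9 * (C * (C * a ^ 3 + 27 * (C * (C * a ^ 2) * (C * a ^ 2))))
        = 9 * C * (C * a ^ 3 + 27 * C ^ 3 * a ^ 4) := by ring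
      _ ≤ 9 * C * (C * a ^ 3 + 27 * C ^ 3 * a ^ 3) := by gcongr
      _ = 9 * C * (C + 27 * C ^ 3) * a ^ 3 := by ring
  refine ⟨(hd' i j).1.trans (by gcongr), fun k => ((hd' i j).2.1 k).trans (by gcongr),
    fun k l => ((hd' i j).2.2.1 k l).trans (by gcongr), ?_, fun k => ?_⟩
  · rw [tt_apply]
    have h1 : |trg g x (h x) / 3| ≤ 3 * C ^ 2 * a ^ 2 := by
      rw [abs_div, abs_of_pos (by norm_num : (0 : ℝ) < 3), div_le_iff₀ (by norm_num)]
      refine ht.trans (le_of_eq ?_)
      ring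
    refine (mul_le h1 (hgb i j)).trans ?_
    have h2 : 3 * C ^ 2 * (1 + C) ≤ K := by
      have : 0 ≤ C + 3 * C * (C + 27 * C ^ 3) * (1 + C) + 3 * C ^ 3 := by positivity
      linarith
    calc 3 * C ^ 2 * a ^ 2 * (1 + C) = 3 * C ^ 2 * (1 + C) * a ^ 2 := by ring
      _ ≤ K * a ^ 2 := by gcongr
  · rw [pd_tt hp.diff htd]
    have h1 : |trg g x (h x) / 3| ≤ 3 * C ^ 2 * a ^ 2 := by
      rw [abs_div, abs_of_pos (by norm_num : (0 : ℝ) < 3), div_le_iff₀ (by norm_num)]
      refine ht.trans (le_of_eq ?_)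
      ring
    have h2 : |pd k (fun y => trg g y (h y)) x / 3| ≤ 3 * C * (C + 27 * C ^ 3) * a ^ 3 := by
      rw [abs_div, abs_of_pos (by norm_num : (0 : ℝ) < 3), div_le_iff₀ (by norm_num)]
      refine (hdt k).trans (le_of_eq ?_)
      ring
    refine (add_le (mul_le h1 (hdg k i j)) (mul_le h2 (hgb i j))).trans ?_
    have h3 : 3 * C ^ 3 * a ^ 4 ≤ 3 * C ^ 3 * a ^ 3 :=
      mul_le_mul_of_nonneg_left ha4 (by positivity)
    have h4 : 3 * C ^ 3 + 3 * C * (C + 27 * C ^ 3) * (1 + C) ≤ K := by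
      have : 0 ≤ C + 3 * C ^ 2 * (1 + C) := by positivity
      linarith
    calc 3 * C ^ 2 * a ^ 2 * (C * a ^ 2) + 3 * C * (C + 27 * C ^ 3) * a ^ 3 * (1 + C)
        = 3 * C ^ 3 * a ^ 4 + 3 * C * (C + 27 * C ^ 3) * (1 + C) * a ^ 3 := by ring
      _ ≤ 3 * C ^ 3 * a ^ 3 + 3 * C * (C + 27 * C ^ 3) * (1 + C) * a ^ 3 := by linarith
      _ = (3 * C ^ 3 + 3 * C * (C + 27 * C ^ 3) * (1 + C)) * a ^ 3 := by ring
      _ ≤ K * a ^ 3 := by gcongr

/-! ### The inversion -/

theorem trg_trace (g : TensorField) (x : E3) (B : Bil) :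
    trg g x B = ((g x)⁻¹ * B.transpose).trace := by
  unfold trg Matrix.trace
  refine Finset.sum_congr rfl fun i _ => ?_
  rw [Matrix.diag_apply, Matrix.mul_apply]
  rfl

theorem trg_inverted (g h : TensorField) {y : E3} (hy : y ≠ 0) :
    trg (inverted g) y (inverted h y) = trg g (inversion y) (h (inversion y)) := by
  rw [trg_trace, trg_trace]
  have hJ := HSM2.jac_unit y hy
  have hJt : IsUnit (inversionJac y).transpose.det := by rwa [Matrix.det_transpose]
  unfold inverted
  rw [Matrix.mul_inv_rev, Matrix.mul_inv_rev, Matrix.transpose_mul, Matrix.transpose_mul,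
    Matrix.transpose_transpose]
  calc ((inversionJac y)⁻¹ * ((g (inversion y))⁻¹ * (inversionJac y).transpose⁻¹) *
        ((inversionJac y).transpose * ((h (inversion y)).transpose * inversionJac y))).trace
      = ((inversionJac y)⁻¹ * ((g (inversion y))⁻¹ * (((inversionJac y).transpose⁻¹ *
        (inversionJac y).transpose) * (h (inversion y)).transpose) * inversionJac y)).trace := by
        simp only [Matrix.mul_assoc]
    _ = ((inversionJac y)⁻¹ * ((g (inversion y))⁻¹ * (h (inversion y)).transpose *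
        inversionJac y)).trace := by
        rw [Matrix.nonsing_inv_mul _ hJt, Matrix.one_mul]
    _ = ((g (inversion y))⁻¹ * (h (inversion y)).transpose * inversionJac y *
        (inversionJac y)⁻¹).trace := by
        rw [Matrix.trace_mul_comm]
    _ = ((g (inversion y))⁻¹ * (h (inversion y)).transpose).trace := by
        rw [Matrix.mul_assoc _ (inversionJac y) _, Matrix.mul_nonsing_inv _ hJ, Matrix.mul_one]

theorem inverted_tt (g h : TensorField) {y : E3} (hy : y ≠ 0) :
    inverted (traceTensor g h) y = traceTensor (inverted g) (inverted h) y := by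
  have h1 : traceTensor (inverted g) (inverted h) y =
      (trg (inverted g) y (inverted h y) / 3) • inverted g y := rfl
  rw [h1, trg_inverted g h hy]
  unfold inverted traceTensor
  rw [Matrix.mul_smul, Matrix.smul_mul]

theorem decay_congr {g h h' : TensorField} {C : ℝ} (hd : DecayFrom C 1 g h)
    (he : ∀ x : E3, x ≠ 0 → h' x = h x) : DecayFrom C 1 g h' := by
  intro x hx i j
  have hx0 : x ≠ 0 := by
    rintro rfl
    rw [norm_zero] at hx
    linarith
  obtain ⟨h1, h2, h3, h4, h5⟩ := hd x hx i j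
  refine ⟨h1, h2, h3, ?_, ?_⟩
  · rw [he x hx0]
    exact h4
  · intro k
    have h6 : (fun y => h' y i j) =ᶠ[𝓝 x] fun y => h y i j := by
      filter_upwards [isOpen_compl_singleton.mem_nhds hx0] with y hy
      rw [he y hy]
    unfold pd
    rw [h6.fderiv_eq]
    exact h5 k

end TRDm

open TRDm in
theorem TRD (hAFD : Stmt_AFD) : Stmt_TRD := by
  intro g h hT hdom
  obtain ⟨C, hC, hd1, hd2, he1, he2⟩ := hAFD g h hT
  have hg := hT.metric
  have hh := hT.tensor
  have hpt : ∀ x : E3, x ≠ 0 → MJD.Pt g x := fun x hx =>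
    MJD.pt_of isOpen_compl_singleton hg hx
  have hev : ∀ x : E3, x ≠ 0 → ∀ v : Cov, 0 ≤ ev (g x) v v := by
    intro x hx v
    by_cases hv : v = 0
    · subst hv
      simp [ev]
    · exact (AFDaux.ev_posDef (hg.posDef x hx) hv).le
  constructor
  · constructor
    · intro i j
      have h1 : (fun x => traceTensor g h x i j) = fun x => trg g x (h x) / 3 * g x i j := by
        funext x
        exact tt_apply g h x i j
      rw [h1]
      intro x hx
      have h2 : ContDiffAt ℝ ∞ (fun y => trg g y (h y)) x := EEtaAux.cd_tr hg hh hx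
      exact ((h2.div_const (3 : ℝ)).contDiffWithinAt).mul (hg.smooth i j x hx)
    · intro x hx
      have h1 : (g x).IsSymm := (hpt x hx).symm.self_of_nhds
      unfold traceTensor
      exact h1.smul _
  · obtain ⟨C', hC'⟩ := decay_tt hg hh hC hd1 fun x hx v => (he1 x hx v).1
    exact ⟨C', 1, hC'⟩
  · obtain ⟨C', hC'⟩ := decay_tt (AFDaux.inverted_metric hg) (AFDaux.inverted_tensor hh) hC hd2
      fun x hx v => (he2 x hx v).1
    exact ⟨C', 1, decay_congr hC' fun x hx => inverted_tt g h hx⟩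
  · intro x hx
    rw [trg_tt h (hpt x hx)]
    rcases le_total 0 (trg g x (h x)) with h0 | h0
    · left
      intro v hv
      rw [ev_tt, hv]
      linarith
    · right
      intro v hv
      rw [ev_tt, hv]
      linarith
  · left
    refine ⟨2 / 3, 1, by norm_num, ?_⟩
    intro x hx
    have hx0 : x ≠ 0 := by
      rintro rfl
      rw [norm_zero] at hx
      linarith
    rw [trg_tt h (hpt x hx0), ev_tt]
    have hE := hev x hx0 (fun i => x i)
    constructor
    · intro h0
      have := mul_nonneg h0 hE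
      nlinarith
    · intro h0
      have := mul_nonneg (neg_nonneg.2 h0) hE
      nlinarith
  · intro x hx
    have hp := hpt x hx
    have htd : DifferentiableAt ℝ (fun y => trg g y (h y)) x :=
      (EEtaAux.cd_tr hg hh hx).differentiableAt (by simp)
    have hev' : ∀ᶠ y in 𝓝 x, MJD.Pt g y := by
      filter_upwards [isOpen_compl_singleton.mem_nhds hx] with y hy
      exact hpt y hy
    unfold required
    rw [nsq_tt h hp, trg_tt h hp, jlen_tt hp hev' htd]
    have h1 := hdom x hx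
    linarith

end Pool.Agent.PFlow


end
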