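import Mathlib
import Pool.Agent.PFlow.StmtsE4
import Pool.Agent.PenroseM.C04
import Pool.Agent.PenroseM.C08
import Pool.Agent.PenroseM.C10
import Pool.Agent.PenroseM.C12
import Pool.Agent.PenroseM.C14
import Pool.Agent.PenroseM.C21
import Pool.Agent.PenroseM.C23

/-! Parts: PFlow.G.POLE, PFlow.E.TINT -/

section

/-!
# Block GB: estimates of the pole functions (module PG_POLE)
-/

open MeasureTheory Filter Topology
open scoped ContDiff

namespace Pool.Agent.PFlow.GB

open Pool.Agent.PenroseSph Pool.Agent.PFlow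

namespace POLE

/-! ## Partial derivatives -/

theorem pd_add {f h : E3 → ℝ} {x : E3} (i : Fin 3) (hf : DifferentiableAt ℝ f x)
    (hh : DifferentiableAt ℝ h x) : pd i (fun y => f y + h y) x = pd i f x + pd i h x := by
  unfold pd
  rw [fderiv_fun_add hf hh]
  rfl

theorem pd_mul {f h : E3 → ℝ} {x : E3} (i : Fin 3) (hf : DifferentiableAt ℝ f x)
    (hh : DifferentiableAt ℝ h x) :
    pd i (fun y => f y * h y) x = f x * pd i h x + h x * pd i f x := by
  unfold pd
  rw [fderiv_fun_mul hf hh]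
  rfl

theorem pd_const (i : Fin 3) (c : ℝ) (x : E3) : pd i (fun _ => c) x = 0 := by
  unfold pd
  rw [fderiv_fun_const]
  rfl

theorem pd_comp {B : ℝ → ℝ} {W : E3 → ℝ} {x : E3} (i : Fin 3)
    (hB : DifferentiableAt ℝ B (W x)) (hW : DifferentiableAt ℝ W x) :
    pd i (fun y => B (W y)) x = deriv B (W x) * pd i W x := by
  unfold pd
  have h := (hB.hasDerivAt.comp_hasFDerivAt x hW.hasFDerivAt).fderiv
  have h1 : fderiv ℝ (fun y => B (W y)) x = deriv B (W x) • fderiv ℝ W x := h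
  rw [h1]
  rfl

theorem pd_congr {f h : E3 → ℝ} {x : E3} (i : Fin 3) (e : f =ᶠ[𝓝 x] h) :
    pd i f x = pd i h x := by
  unfold pd
  rw [e.fderiv_eq]

theorem pd_smooth {f : E3 → ℝ} {x : E3} (h : ContDiffAt ℝ ∞ f x) (i : Fin 3) :
    ContDiffAt ℝ ∞ (pd i f) x := by
  unfold pd
  exact (h.fderiv_right (m := ∞) (by simp)).clm_apply contDiffAt_const

theorem le2 : (2 : WithTop ℕ∞) ≤ ∞ := by
  show ((2 : ℕ∞) : WithTop ℕ∞) ≤ ((⊤ : ℕ∞) : WithTop ℕ∞)
  exact WithTop.coe_le_coe.2 le_top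

theorem diff {f : E3 → ℝ} {x : E3} (h : ContDiffAt ℝ ∞ f x) : DifferentiableAt ℝ f x :=
  h.differentiableAt (by simp)

theorem ev_diff {f : E3 → ℝ} {x : E3} (h : ContDiffAt ℝ ∞ f x) :
    ∀ᶠ y in 𝓝 x, DifferentiableAt ℝ f y := by
  have h1 : ContDiffAt ℝ 1 f x := h.of_le (by simp)
  filter_upwards [h1.eventually (by simp)] with y hy
  exact hy.differentiableAt (by simp)

/-- The Hessian on two vectors. -/
noncomputable def hs (f : E3 → ℝ) (x : E3) (T T' : Cov) : ℝ :=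
  ∑ i, ∑ j, hess2 f x i j * T i * T' j

/-- The derivative along a vector. -/
noncomputable def dv (f : E3 → ℝ) (x : E3) (T : Cov) : ℝ := ∑ i, T i * pd i f x

theorem h2_add {f h : E3 → ℝ} {x : E3} (hf : ContDiffAt ℝ ∞ f x) (hh : ContDiffAt ℝ ∞ h x)
    (i j : Fin 3) : hess2 (fun y => f y + h y) x i j = hess2 f x i j + hess2 h x i j := by
  show pd i (pd j (fun y => f y + h y)) x = pd i (pd j f) x + pd i (pd j h) x
  rw [← pd_add i (diff (pd_smooth hf j)) (diff (pd_smooth hh j))]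
  apply pd_congr
  filter_upwards [ev_diff hf, ev_diff hh] with y h1 h2
  exact pd_add j h1 h2

theorem h2_mul {f h : E3 → ℝ} {x : E3} (hf : ContDiffAt ℝ ∞ f x) (hh : ContDiffAt ℝ ∞ h x)
    (i j : Fin 3) : hess2 (fun y => f y * h y) x i j =
      f x * hess2 h x i j + h x * hess2 f x i j + pd i f x * pd j h x + pd i h x * pd j f x := by
  show pd i (pd j (fun y => f y * h y)) x =
    f x * pd i (pd j h) x + h x * pd i (pd j f) x + pd i f x * pd j h x + pd i h x * pd j f x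
  have e : pd i (pd j (fun y => f y * h y)) x =
      pd i (fun y => f y * pd j h y + h y * pd j f y) x := by
    apply pd_congr
    filter_upwards [ev_diff hf, ev_diff hh] with y h1 h2
    exact pd_mul j h1 h2
  rw [e, pd_add (f := fun y => f y * pd j h y) (h := fun y => h y * pd j f y) i
      ((diff hf).mul (diff (pd_smooth hh j))) ((diff hh).mul (diff (pd_smooth hf j))),
    pd_mul i (diff hf) (diff (pd_smooth hh j)), pd_mul i (diff hh) (diff (pd_smooth hf j))]
  ring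

theorem h2_comp {B : ℝ → ℝ} {W : E3 → ℝ} {x : E3} (hB : ContDiffAt ℝ ∞ B (W x))
    (hW : ContDiffAt ℝ ∞ W x) (i j : Fin 3) :
    hess2 (fun y => B (W y)) x i j =
      deriv B (W x) * hess2 W x i j + deriv (deriv B) (W x) * pd i W x * pd j W x := by
  show pd i (pd j (fun y => B (W y))) x =
    deriv B (W x) * pd i (pd j W) x + deriv (deriv B) (W x) * pd i W x * pd j W x
  have hB1 : ∀ᶠ s in 𝓝 (W x), DifferentiableAt ℝ B s := by
    have h1 : ContDiffAt ℝ 1 B (W x) := hB.of_le (by simp)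
    filter_upwards [h1.eventually (by simp)] with y hy
    exact hy.differentiableAt (by simp)
  have hB2 : ContDiffAt ℝ ∞ (deriv B) (W x) := by
    have h1 : ContDiffAt ℝ ∞ (fun s => fderiv ℝ B s 1) (W x) :=
      (hB.fderiv_right (m := ∞) (by simp)).clm_apply contDiffAt_const
    exact h1
  have hB3 : DifferentiableAt ℝ (deriv B) (W x) := hB2.differentiableAt (by simp)
  have e : pd i (pd j (fun y => B (W y))) x =
      pd i (fun y => deriv B (W y) * pd j W y) x := by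
    apply pd_congr
    filter_upwards [ev_diff hW, hW.continuousAt.eventually hB1] with y h1 h2
    exact pd_comp j h2 h1
  rw [e, pd_mul (f := fun y => deriv B (W y)) i (hB3.comp x (diff hW)) (diff (pd_smooth hW j)),
    pd_comp i hB3 (diff hW)]
  ring

theorem hs_add {f h : E3 → ℝ} {x : E3} (hf : ContDiffAt ℝ ∞ f x) (hh : ContDiffAt ℝ ∞ h x)
    (T T' : Cov) : hs (fun y => f y + h y) x T T' = hs f x T T' + hs h x T T' := by
  unfold hs
  simp only [h2_add hf hh, Fin.sum_univ_three]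
  ring

theorem hs_mul {f h : E3 → ℝ} {x : E3} (hf : ContDiffAt ℝ ∞ f x) (hh : ContDiffAt ℝ ∞ h x)
    (T T' : Cov) : hs (fun y => f y * h y) x T T' =
      f x * hs h x T T' + h x * hs f x T T' + dv f x T * dv h x T' + dv h x T * dv f x T' := by
  unfold hs dv
  simp only [h2_mul hf hh, Fin.sum_univ_three]
  ring

/-! ## Functions of `x` and of the level -/

/-- `F y (W y)` and `F y (W x)` have the same leafwise derivatives at `x`. -/
structure Gd (g : TensorField) (W : E3 → ℝ) (x : E3) (F : E3 → ℝ → ℝ) : Prop where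
  sm1 : ContDiffAt ℝ ∞ (fun y => F y (W y)) x
  sm0 : ContDiffAt ℝ ∞ (fun y => F y (W x)) x
  ds : DifferentiableAt ℝ (F x) (W x)
  lapE : lap g W (fun y => F y (W y)) x = lap g W (fun y => F y (W x)) x
  pdE : ∀ i, pd i (fun y => F y (W y)) x =
    pd i (fun y => F y (W x)) x + deriv (F x) (W x) * pd i W x
  hsE : ∀ T T' : Cov, ∑ i, T i * pd i W x = 0 → ∑ i, T' i * pd i W x = 0 →
    hs (fun y => F y (W y)) x T T' =
      hs (fun y => F y (W x)) x T T' + deriv (F x) (W x) * hs W x T T'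

section Good

variable {g : TensorField} {W : E3 → ℝ} {x : E3}

theorem lin_eq (hRUL : Stmt_RUL) (hreg : Reg g W x) (f k : E3 → ℝ) :
    lin g W f k x = ∑ i, (∑ j, prj g x (grad W x) i j * pd j f x) * pd i k x := by
  obtain ⟨_, r2, _, _, r5, _⟩ := hRUL g W x hreg
  rw [← r2 f k]
  refine Finset.sum_congr rfl fun i _ => ?_
  rw [r5 f i]
  rfl

theorem prj_grad (hALG : Stmt_ALG) (hreg : Reg g W x) (i : Fin 3) :
    ∑ j, prj g x (grad W x) i j * pd j W x = 0 := by
  obtain ⟨O, _, hx, hm, _, hr⟩ := hreg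
  exact (hALG g x (grad W x) (hm.posDef x hx) (hr x hx)).2.2.2.2.2.1 i

theorem Gd.linE (hALG : Stmt_ALG) (hRUL : Stmt_RUL) (hreg : Reg g W x) {F : E3 → ℝ → ℝ}
    (h : Gd g W x F) (k : E3 → ℝ) :
    lin g W (fun y => F y (W y)) k x = lin g W (fun y => F y (W x)) k x := by
  rw [lin_eq hRUL hreg, lin_eq hRUL hreg]
  refine Finset.sum_congr rfl fun i _ => ?_
  congr 1
  have h1 := prj_grad hALG hreg i
  calc ∑ j, prj g x (grad W x) i j * pd j (fun y => F y (W y)) x
      = ∑ j, (prj g x (grad W x) i j * pd j (fun y => F y (W x)) x +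
          deriv (F x) (W x) * (prj g x (grad W x) i j * pd j W x)) := by
        refine Finset.sum_congr rfl fun j _ => ?_
        rw [h.pdE j]
        ring
    _ = _ := by
        rw [Finset.sum_add_distrib, ← Finset.mul_sum, h1, mul_zero, add_zero]

theorem lin_comm (hRUL : Stmt_RUL) (hreg : Reg g W x) (f k : E3 → ℝ) :
    lin g W f k x = lin g W k f x := by
  obtain ⟨_, _, r3, _⟩ := hRUL g W x hreg
  exact (r3 f k).1

theorem Gd.dvE {F : E3 → ℝ → ℝ} (h : Gd g W x F) {T : Cov} (hT : ∑ i, T i * pd i W x = 0) :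
    dv (fun y => F y (W y)) x T = dv (fun y => F y (W x)) x T := by
  unfold dv
  calc ∑ i, T i * pd i (fun y => F y (W y)) x
      = ∑ i, (T i * pd i (fun y => F y (W x)) x + deriv (F x) (W x) * (T i * pd i W x)) := by
        refine Finset.sum_congr rfl fun i _ => ?_
        rw [h.pdE i]
        ring
    _ = _ := by
        rw [Finset.sum_add_distrib, ← Finset.mul_sum, hT, mul_zero, add_zero]

theorem Gd.add (hRUL : Stmt_RUL) (hreg : Reg g W x) {F H : E3 → ℝ → ℝ} (hF : Gd g W x F)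
    (hH : Gd g W x H) : Gd g W x (fun y s => F y s + H y s) := by
  obtain ⟨_, _, _, _, _, r6, _⟩ := hRUL g W x hreg
  have hd : deriv (fun s => F x s + H x s) (W x) = deriv (F x) (W x) + deriv (H x) (W x) :=
    deriv_fun_add hF.ds hH.ds
  refine ⟨hF.sm1.add hH.sm1, hF.sm0.add hH.sm0, hF.ds.add hH.ds, ?_, ?_, ?_⟩
  · rw [(r6 _ _ (hF.sm1.of_le le2) (hH.sm1.of_le le2)).1,
      (r6 _ _ (hF.sm0.of_le le2) (hH.sm0.of_le le2)).1, hF.lapE, hH.lapE]
  · intro i
    rw [pd_add i (diff hF.sm1) (diff hH.sm1), pd_add i (diff hF.sm0) (diff hH.sm0), hF.pdE,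
      hH.pdE, hd]
    ring
  · intro T T' hT hT'
    rw [hs_add hF.sm1 hH.sm1, hs_add hF.sm0 hH.sm0, hF.hsE T T' hT hT', hH.hsE T T' hT hT', hd]
    ring

theorem Gd.mul (hALG : Stmt_ALG) (hRUL : Stmt_RUL) (hreg : Reg g W x) {F H : E3 → ℝ → ℝ}
    (hF : Gd g W x F) (hH : Gd g W x H) : Gd g W x (fun y s => F y s * H y s) := by
  obtain ⟨_, _, _, _, _, r6, _⟩ := hRUL g W x hreg
  have hd : deriv (fun s => F x s * H x s) (W x) =
      deriv (F x) (W x) * H x (W x) + F x (W x) * deriv (H x) (W x) :=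
    deriv_fun_mul hF.ds hH.ds
  refine ⟨hF.sm1.mul hH.sm1, hF.sm0.mul hH.sm0, hF.ds.mul hH.ds, ?_, ?_, ?_⟩
  · have h1 : lin g W (fun y => F y (W y)) (fun y => H y (W y)) x =
        lin g W (fun y => F y (W x)) (fun y => H y (W x)) x := by
      rw [hF.linE hALG hRUL hreg, lin_comm hRUL hreg, hH.linE hALG hRUL hreg,
        lin_comm hRUL hreg]
    rw [(r6 _ _ (hF.sm1.of_le le2) (hH.sm1.of_le le2)).2,
      (r6 _ _ (hF.sm0.of_le le2) (hH.sm0.of_le le2)).2, hF.lapE, hH.lapE, h1]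
  · intro i
    rw [pd_mul i (diff hF.sm1) (diff hH.sm1), pd_mul i (diff hF.sm0) (diff hH.sm0), hF.pdE,
      hH.pdE, hd]
    ring
  · intro T T' hT hT'
    rw [hs_mul hF.sm1 hH.sm1, hs_mul hF.sm0 hH.sm0, hF.hsE T T' hT hT', hH.hsE T T' hT hT', hd,
      hF.dvE hT, hF.dvE hT', hH.dvE hT, hH.dvE hT']
    ring

theorem Gd.ofX {f : E3 → ℝ} (hf : ContDiffAt ℝ ∞ f x) : Gd g W x (fun y _ => f y) := by
  refine ⟨hf, hf, differentiableAt_const _, rfl, ?_, ?_⟩
  · intro i
    simp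
  · intro T T' _ _
    simp

theorem Gd.ofS (hRUL : Stmt_RUL) (hreg : Reg g W x) (hW : ContDiffAt ℝ ∞ W x) {B : ℝ → ℝ}
    (hB : ContDiffAt ℝ ∞ B (W x)) : Gd g W x (fun _ s => B s) := by
  obtain ⟨_, _, _, _, _, _, _, _, _, _, r11, _⟩ := hRUL g W x hreg
  refine ⟨hB.comp x hW, contDiffAt_const, hB.differentiableAt (by simp), ?_, ?_, ?_⟩
  · have h1 := r11 (fun _ => 1) B contDiffAt_const (hB.of_le le2)
    have h2 := r11 (fun _ => 1) (fun _ => B (W x)) contDiffAt_const contDiffAt_const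
    simp only [mul_one] at h1 h2
    rw [h1, h2]
  · intro i
    rw [pd_comp i (hB.differentiableAt (by simp)) (diff hW), pd_const, zero_add]
  · intro T T' hT hT'
    have h1 : hs (fun _ => B (W x)) x T T' = 0 := by
      unfold hs
      have h2 : ∀ i j, hess2 (fun _ : E3 => B (W x)) x i j = 0 := by
        intro i j
        show pd i (pd j (fun _ => B (W x))) x = 0
        have h3 : pd j (fun _ : E3 => B (W x)) = fun _ => 0 := funext fun y => pd_const j _ y
        rw [h3, pd_const]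
      simp [h2]
    rw [h1, zero_add]
    unfold hs
    simp only [h2_comp hB hW, Fin.sum_univ_three] at hT hT' ⊢
    linear_combination deriv (deriv B) (W x) * (T' 0 * pd 0 W x + T' 1 * pd 1 W x
      + T' 2 * pd 2 W x) * hT

theorem Gd.sum3 (hRUL : Stmt_RUL) (hreg : Reg g W x) {F : Fin 3 → E3 → ℝ → ℝ}
    (h : ∀ i, Gd g W x (F i)) : Gd g W x (fun y s => ∑ i, F i y s) := by
  simp only [Fin.sum_univ_three]
  exact ((h 0).add hRUL hreg (h 1)).add hRUL hreg (h 2)

theorem coord_smooth (i : Fin 3) : ContDiffAt ℝ ∞ (fun y : E3 => y i) x :=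
  (contDiff_euclidean.1 contDiff_id i).contDiffAt

theorem Gd.qf (hALG : Stmt_ALG) (hRUL : Stmt_RUL) (hreg : Reg g W x) (hW : ContDiffAt ℝ ∞ W x)
    (hg : ∀ i j, ContDiffAt ℝ ∞ (fun y => g y i j) x) {q : ℝ → E3}
    (hq : ∀ i, ContDiffAt ℝ ∞ (fun s => q s i) (W x))
    (hgq : ∀ i j, ContDiffAt ℝ ∞ (fun s => g (q s) i j) (W x)) :
    Gd g W x (fun y s => qf g y (q s)) := by
  have h1 : ∀ i : Fin 3, Gd g W x (fun y s => y i - q s i) := by
    intro i
    have h := (Gd.ofX (g := g) (W := W) (coord_smooth (x := x) i)).add hRUL hreg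
      (Gd.ofS hRUL hreg hW (hq i).neg)
    simpa only [sub_eq_add_neg] using h
  have h2 : ∀ i j : Fin 3,
      Gd g W x (fun y s => (g y i j + g (q s) i j) * (y i - q s i) * (y j - q s j)) := by
    intro i j
    exact (((Gd.ofX (hg i j)).add hRUL hreg (Gd.ofS hRUL hreg hW (hgq i j))).mul hALG hRUL hreg
      (h1 i)).mul hALG hRUL hreg (h1 j)
  have h3 := (Gd.ofX (g := g) (W := W) (x := x) (contDiffAt_const (c := (1 / 2 : ℝ)))).mul
    hALG hRUL hreg (Gd.sum3 hRUL hreg fun i => Gd.sum3 hRUL hreg fun j => h2 i j)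
  exact h3

end Good

/-! ## The function `q` -/

theorem qf_symm (g : TensorField) (x y : E3) : qf g x y = qf g y x := by
  unfold qf
  congr 1
  refine Finset.sum_congr rfl fun i _ => Finset.sum_congr rfl fun j _ => ?_
  ring

theorem fderiv_sum (f : E3 → ℝ) (z v : E3) : fderiv ℝ f z v = ∑ i, v i * pd i f z := by
  have h : v = ∑ i, v i • (EuclideanSpace.single i (1 : ℝ) : E3) := by
    ext j
    simp only [Fin.sum_univ_three]
    fin_cases j <;> simp
  conv_lhs => rw [h]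
  rw [map_sum]
  refine Finset.sum_congr rfl fun i _ => ?_
  rw [map_smul]
  rfl

theorem deriv_qf {g : TensorField} {x : E3} {q : ℝ → E3} {s : ℝ} (hq : DifferentiableAt ℝ q s)
    (hf : DifferentiableAt ℝ (fun z => qf g z x) (q s)) :
    deriv (fun s => qf g x (q s)) s = ∑ i, (deriv q s) i * pd i (fun z => qf g z x) (q s) := by
  have e : (fun s => qf g x (q s)) = (fun z => qf g z x) ∘ q := by
    funext t
    exact qf_symm g x (q t)
  rw [e, (hf.hasFDerivAt.comp_hasDerivAt s hq.hasDerivAt).deriv, fderiv_sum]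

theorem qf_smooth {g : TensorField} {x z : E3}
    (hg : ∀ i j, ContDiffAt ℝ ∞ (fun y => g y i j) z) :
    ContDiffAt ℝ ∞ (fun y => GB.qf g y x) z := by
  unfold GB.qf
  refine contDiffAt_const.mul (ContDiffAt.sum fun i _ => ContDiffAt.sum fun j _ => ?_)
  exact (((hg i j).add contDiffAt_const).mul ((coord_smooth i).sub contDiffAt_const)).mul
    ((coord_smooth j).sub contDiffAt_const)

/-! ## Compactness -/

theorem bd_smooth {K : Set E3} (hK : IsCompact K) {f : E3 → ℝ}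
    (h : ∀ x ∈ K, ContDiffAt ℝ ∞ f x) : ∃ M, 0 ≤ M ∧ ∀ x ∈ K, |f x| ≤ M := by
  obtain ⟨M, hM⟩ := hK.exists_bound_of_continuousOn (f := f)
    fun x hx => (h x hx).continuousAt.continuousWithinAt
  refine ⟨max M 0, le_max_right _ _, fun x hx => ?_⟩
  exact (hM x hx).trans (le_max_left _ _)

theorem bd_smooth3 {K : Set E3} (hK : IsCompact K) {f : Fin 3 → E3 → ℝ}
    (h : ∀ i, ∀ x ∈ K, ContDiffAt ℝ ∞ (f i) x) :
    ∃ M, 0 ≤ M ∧ ∀ i, ∀ x ∈ K, |f i x| ≤ M := by
  obtain ⟨M0, h0, h0'⟩ := bd_smooth hK (h 0)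
  obtain ⟨M1, h1, h1'⟩ := bd_smooth hK (h 1)
  obtain ⟨M2, h2, h2'⟩ := bd_smooth hK (h 2)
  refine ⟨M0 + M1 + M2, by positivity, ?_⟩
  intro i x hx
  fin_cases i
  · have := h0' x hx
    show |f 0 x| ≤ _
    linarith
  · have := h1' x hx
    show |f 1 x| ≤ _
    linarith
  · have := h2' x hx
    show |f 2 x| ≤ _
    linarith

theorem ev_pos {A : Bil} (hA : A.PosDef) {v : Cov} (hv : v ≠ 0) : 0 < ev A v v := by
  have h := hA.dotProduct_mulVec_pos hv
  have e : star v ⬝ᵥ A.mulVec v = ev A v v := by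
    unfold ev
    simp only [dotProduct, Matrix.mulVec, star_trivial, Fin.sum_univ_three]
    ring
  rwa [e] at h

theorem exists_lam {K : Set E3} (hK : IsCompact K) {g : TensorField}
    (hg : ∀ i j, ContinuousOn (fun x => g x i j) K) (hpos : ∀ x ∈ K, (g x).PosDef) :
    ∃ lam : ℝ, 0 < lam ∧ ∀ x ∈ K, ∀ v : Cov, lam * ∑ i, v i ^ 2 ≤ ev (g x) v v := by
  rcases K.eq_empty_or_nonempty with he | hne
  · exact ⟨1, one_pos, fun x hx => by rw [he] at hx; exact absurd hx (Set.notMem_empty x)⟩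
  set S : Set Cov := {v | ∑ i, v i ^ 2 = 1} with hS
  have hcS : IsCompact S := by
    apply Metric.isCompact_of_isClosed_isBounded
    · exact isClosed_eq (by fun_prop) continuous_const
    · refine (Metric.isBounded_closedBall (x := (0 : Cov)) (r := 1)).subset ?_
      intro v hv
      rw [mem_closedBall_zero_iff, pi_norm_le_iff_of_nonneg zero_le_one]
      intro i
      have h1 : v i ^ 2 ≤ ∑ j, v j ^ 2 :=
        Finset.single_le_sum (f := fun j => v j ^ 2) (fun j _ => sq_nonneg _) (Finset.mem_univ i)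
      have h2 : ∑ j, v j ^ 2 = 1 := hv
      rw [Real.norm_eq_abs, abs_le_one_iff_mul_self_le_one]
      nlinarith
  have hneS : S.Nonempty := by
    refine ⟨fun i => if i = 0 then 1 else 0, ?_⟩
    show ∑ i : Fin 3, (if i = 0 then (1 : ℝ) else 0) ^ 2 = 1
    simp
  have hcont : ContinuousOn (fun q : E3 × Cov => ev (g q.1) q.2 q.2) (K ×ˢ S) := by
    unfold ev
    refine continuousOn_finsetSum _ fun i _ => continuousOn_finsetSum _ fun j _ => ?_
    have h1 : ContinuousOn (fun q : E3 × Cov => g q.1 i j) (K ×ˢ S) :=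
      (hg i j).comp continuousOn_fst fun q hq => hq.1
    have h2 : ∀ i : Fin 3, ContinuousOn (fun q : E3 × Cov => q.2 i) (K ×ˢ S) := fun i =>
      ((continuous_apply i).comp continuous_snd).continuousOn
    exact (h1.mul (h2 i)).mul (h2 j)
  obtain ⟨q0, hq0, hmin⟩ := (hK.prod hcS).exists_isMinOn (hne.prod hneS) hcont
  have hq0v : q0.2 ≠ 0 := by
    intro h0
    have h1 : ∑ i, q0.2 i ^ 2 = 1 := hq0.2
    rw [h0] at h1
    simp at h1
  refine ⟨ev (g q0.1) q0.2 q0.2, ev_pos (hpos _ hq0.1) hq0v, ?_⟩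
  intro x hx v
  set t := ∑ i, v i ^ 2 with ht
  have ht0 : 0 ≤ t := Finset.sum_nonneg fun i _ => sq_nonneg _
  rcases ht0.eq_or_lt with h0 | h0
  · have hv : v = 0 := by
      funext i
      have h1 : v i ^ 2 ≤ ∑ j, v j ^ 2 :=
        Finset.single_le_sum (f := fun j => v j ^ 2) (fun j _ => sq_nonneg _) (Finset.mem_univ i)
      rw [← ht, ← h0] at h1
      exact pow_eq_zero_iff (two_ne_zero) |>.1 (le_antisymm h1 (sq_nonneg _))
    rw [← h0, hv]
    unfold ev
    simp
  · have hs : 0 < Real.sqrt t := Real.sqrt_pos.2 h0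
    have hst : Real.sqrt t ^ 2 = t := Real.sq_sqrt ht0
    have hu : (fun i => v i / Real.sqrt t) ∈ S := by
      show ∑ i, (v i / Real.sqrt t) ^ 2 = 1
      simp only [div_pow, hst]
      rw [← Finset.sum_div, ← ht, div_self h0.ne']
    have h1 := hmin (show (x, fun i => v i / Real.sqrt t) ∈ K ×ˢ S from ⟨hx, hu⟩)
    have h2 : ev (g x) (fun i => v i / Real.sqrt t) (fun i => v i / Real.sqrt t) =
        ev (g x) v v / t := by
      unfold ev
      rw [Finset.sum_div]
      refine Finset.sum_congr rfl fun i _ => ?_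
      rw [Finset.sum_div]
      refine Finset.sum_congr rfl fun j _ => ?_
      have h4 : v i / Real.sqrt t * (v j / Real.sqrt t) = v i * v j / t := by
        rw [div_mul_div_comm, ← sq, hst]
      rw [mul_assoc, h4]
      ring
    have h3 : ev (g q0.1) q0.2 q0.2 ≤ ev (g x) v v / t := by
      rw [← h2]
      exact h1
    rwa [le_div_iff₀ h0] at h3

/-! ## The curve of poles -/

/-- The curve of poles. -/
noncomputable def cur (Φ : E3 → E3) (z0 : E3) (τ s : ℝ) : E3 := Φ (pt (z0 0 + τ) (z0 1) s)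

theorem pt_smooth (a b : ℝ) : ContDiff ℝ ∞ (fun s => pt a b s) := by
  rw [contDiff_euclidean]
  intro i
  unfold pt
  fin_cases i
  · exact contDiff_const
  · exact contDiff_const
  · exact contDiff_id

theorem pt_zero (a b s : ℝ) : pt a b s 0 = a := rfl
theorem pt_one (a b s : ℝ) : pt a b s 1 = b := rfl
theorem pt_two (a b s : ℝ) : pt a b s 2 = s := rfl

/-! ## Estimates -/

theorem sum_abs_le {T : Cov} {lam L : ℝ} (hlam : 0 < lam) (h : lam * ∑ i, T i ^ 2 ≤ L) :
    ∑ i, |T i| ≤ 3 * (Real.sqrt L / Real.sqrt lam) := by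
  have h1 : ∀ i, |T i| ≤ Real.sqrt L / Real.sqrt lam := by
    intro i
    rw [← Real.sqrt_div' _ hlam.le]
    apply Real.abs_le_sqrt
    rw [le_div_iff₀ hlam]
    have h2 : T i ^ 2 ≤ ∑ j, T j ^ 2 :=
      Finset.single_le_sum (f := fun j => T j ^ 2) (fun j _ => sq_nonneg _) (Finset.mem_univ i)
    nlinarith
  rw [Fin.sum_univ_three]
  linarith [h1 0, h1 1, h1 2]

theorem quad_bound {E : Fin 3 → Fin 3 → ℝ} {δ : ℝ} (h : ∀ i j, |E i j| ≤ δ) (T T' : Cov) :
    |∑ i, ∑ j, E i j * T i * T' j| ≤ δ * (∑ i, |T i|) * ∑ j, |T' j| := by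
  calc |∑ i, ∑ j, E i j * T i * T' j| ≤ ∑ i, |∑ j, E i j * T i * T' j| :=
        Finset.abs_sum_le_sum_abs _ _
    _ ≤ ∑ i, ∑ j, |E i j * T i * T' j| :=
        Finset.sum_le_sum fun i _ => Finset.abs_sum_le_sum_abs _ _
    _ ≤ ∑ i, ∑ j, δ * |T i| * |T' j| := by
        refine Finset.sum_le_sum fun i _ => Finset.sum_le_sum fun j _ => ?_
        rw [abs_mul, abs_mul]
        exact mul_le_mul_of_nonneg_right
          (mul_le_mul_of_nonneg_right (h i j) (abs_nonneg _)) (abs_nonneg _)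
    _ = δ * (∑ i, |T i|) * ∑ j, |T' j| := by
        simp only [Fin.sum_univ_three]
        ring

/-- The projected vectors are tangent. -/
theorem prv_tan {g : TensorField} {x : E3} {p : Cov}
    (hs : ∀ i j, prj g x p i j = prj g x p j i) (h0 : ∀ i, ∑ j, prj g x p i j * p j = 0)
    (A : Cov) : ∑ i, prv g x p A i * p i = 0 := by
  unfold prv
  have h1 := h0 0
  have h2 := h0 1
  have h3 := h0 2
  have e1 := hs 0 1
  have e2 := hs 0 2
  have e3 := hs 1 2
  simp only [Fin.sum_univ_three] at h1 h2 h3 ⊢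
  rw [e1, e2] at h1
  rw [e3] at h2
  rw [e1, e2, e3]
  linear_combination A 0 * h1 + A 1 * h2 + A 2 * h3

/-- The metric on projected vectors. -/
theorem prv_met {g : TensorField} {x : E3} {p : Cov}
    (hs : ∀ i j, prj g x p i j = prj g x p j i)
    (hP : ∀ i l, ∑ j, ∑ k, prj g x p i j * g x j k * prj g x p k l = prj g x p i l)
    (hl : ∀ A B : Cov, lip g x p A B = ∑ i, ∑ j, prj g x p i j * A i * B j) (A B : Cov) :
    ∑ i, ∑ j, g x i j * prv g x p A i * prv g x p B j = lip g x p A B := by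
  rw [hl]
  have h1 : ∀ i l, prj g x p i l = ∑ j, ∑ k, prj g x p j i * g x j k * prj g x p k l := by
    intro i l
    rw [← hP i l]
    refine Finset.sum_congr rfl fun j _ => Finset.sum_congr rfl fun k _ => ?_
    rw [hs i j]
  have h2 : ∑ i, ∑ l, prj g x p i l * A i * B l =
      ∑ i, ∑ l, (∑ j, ∑ k, prj g x p j i * g x j k * prj g x p k l) * A i * B l := by
    refine Finset.sum_congr rfl fun i _ => Finset.sum_congr rfl fun l _ => ?_
    rw [← h1 i l]
  rw [h2]
  unfold prv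
  simp only [Fin.sum_univ_three]
  ring

end POLE

open POLE in
/-- (POLE) Estimates of the pole functions. -/
theorem POLE (hALG : Stmt_ALG) (_hSMO : Stmt_SMO) (hRUL : Stmt_RUL) (hCHX : Stmt_CHX)
    (hQ : Stmt_Q) : Stmt_POLE := by
  intro V a b g W hF Φ z0 r e hC τ hτ
  obtain ⟨_, _, hKc, hKV, _, _, _, _, c2, C2, hc2, hC2, _, hbl⟩ := hCHX V a b g W hF Φ z0 r e hC
  obtain ⟨N, hNo, hbN, hΦ, _, _, _, hWΦ⟩ := hC.nbhd
  obtain ⟨c1, C1, hc1, hC1, hq⟩ := hQ V a b g W hF (Φ '' box z0 r e) hKc hKV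
  have hr := hC.r_pos
  set K := Φ '' box z0 r e with hK
  have hregK : ∀ x ∈ K, Reg g W x := fun x hx => hF.reg (hKV hx)
  have hgK : ∀ i j, ∀ x ∈ K, ContDiffAt ℝ ∞ (fun y => g y i j) x := fun i j x hx =>
    (hF.metric.smooth i j x (hKV hx)).contDiffAt (hF.isOpen.mem_nhds (hKV hx))
  have hWK : ∀ x ∈ K, ContDiffAt ℝ ∞ W x := fun x hx => hF.contDiffAt (hKV hx)
  obtain ⟨M1, hM1, hM1'⟩ := bd_smooth3 hKc (f := fun i => pd i W)
    fun i x hx => pd_smooth (hWK x hx) i
  obtain ⟨M2, hM2, hM2'⟩ : ∃ M, 0 ≤ M ∧ ∀ i j, ∀ x ∈ K, |hess2 W x i j| ≤ M := by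
    have h1 : ∀ j : Fin 3, ∃ M, 0 ≤ M ∧ ∀ i, ∀ x ∈ K, |pd i (pd j W) x| ≤ M := fun j =>
      bd_smooth3 hKc (f := fun i => pd i (pd j W))
        fun i x hx => pd_smooth (pd_smooth (hWK x hx) j) i
    choose M hM hM' using h1
    refine ⟨∑ j, M j, Finset.sum_nonneg fun j _ => hM j, ?_⟩
    intro i j x hx
    exact (hM' j i x hx).trans
      (Finset.single_le_sum (f := M) (fun j _ => hM j) (Finset.mem_univ j))
  obtain ⟨lam, hlam, hlam'⟩ := exists_lam hKc (g := g)
    (fun i j x hx => (hgK i j x hx).continuousAt.continuousWithinAt)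
    fun x hx => hF.metric.posDef x (hKV hx)
  -- the curve of poles
  have hpt : ∀ s, |s - z0 2| ≤ e → pt (z0 0 + τ) (z0 1) s ∈ box z0 r e := by
    intro s hs
    refine ⟨?_, ?_, ?_⟩
    · rw [pt_zero]
      have : z0 0 + τ - z0 0 = τ := by ring
      rw [this]
      exact hτ.le
    · rw [pt_one, sub_self, abs_zero]
      exact hr.le
    · rw [pt_two]
      exact hs
  have hcS : ∀ s, |s - z0 2| ≤ e → ContDiffAt ℝ ∞ (cur Φ z0 τ) s := by
    intro s hs
    have h1 : ContDiffAt ℝ ∞ Φ (pt (z0 0 + τ) (z0 1) s) :=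
      (hΦ _ (hbN (hpt s hs))).contDiffAt (hNo.mem_nhds (hbN (hpt s hs)))
    exact h1.comp s (pt_smooth _ _).contDiffAt
  have hcK : ∀ s, |s - z0 2| ≤ e → cur Φ z0 τ s ∈ K := fun s hs => ⟨_, hpt s hs, rfl⟩
  have hcW : ∀ s, |s - z0 2| ≤ e → W (cur Φ z0 τ s) = s := by
    intro s hs
    have h1 := hWΦ _ (hbN (hpt s hs))
    rwa [pt_two] at h1
  obtain ⟨M3, hM3, hM3'⟩ : ∃ M, 0 ≤ M ∧ ∀ s, |s - z0 2| ≤ e → ‖deriv (cur Φ z0 τ) s‖ ≤ M := by
    have h1 : ContinuousOn (deriv (cur Φ z0 τ)) (Set.Icc (z0 2 - e) (z0 2 + e)) := by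
      intro s hs
      have hs' : |s - z0 2| ≤ e := by
        rw [abs_le]
        constructor <;> linarith [hs.1, hs.2]
      have h2 : ContDiffAt ℝ ∞ (fun s => fderiv ℝ (cur Φ z0 τ) s 1) s :=
        ((hcS s hs').fderiv_right (m := ∞) (by simp)).clm_apply contDiffAt_const
      exact (ContDiffAt.continuousAt h2).continuousWithinAt
    obtain ⟨M, hM⟩ := isCompact_Icc.exists_bound_of_continuousOn h1
    refine ⟨max M 0, le_max_right _ _, fun s hs => ?_⟩
    rw [abs_le] at hs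
    exact (hM s ⟨by linarith [hs.1], by linarith [hs.2]⟩).trans (le_max_left _ _)
  have hrp : ∀ x, rp g W Φ z0 τ x = qf g x (cur Φ z0 τ (W x)) := fun _ => rfl
  have hWe : ∀ x ∈ K, |W x - z0 2| ≤ e := by
    rintro x ⟨z, hz, rfl⟩
    rw [hWΦ z (hbN hz)]
    exact hz.2.2
  have hGd : ∀ x ∈ K, Gd g W x (fun y s => qf g y (cur Φ z0 τ s)) := by
    intro x hx
    have hs := hWe x hx
    refine Gd.qf hALG hRUL (hregK x hx) (hWK x hx) (fun i j => hgK i j x hx)
      (fun i => contDiffAt_euclidean.1 (hcS _ hs) i) fun i j => ?_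
    exact (hgK i j _ (hcK _ hs)).comp (W x) (hcS _ hs)
  have hobox : Φ '' obox z0 r e ⊆ K := by
    rintro x ⟨z, hz, rfl⟩
    exact ⟨z, ⟨hz.1.le, hz.2.1.le, hz.2.2.le⟩, rfl⟩
  refine ⟨?_, ?_⟩
  · intro x hx
    exact (hGd x (hobox hx)).sm1.contDiffWithinAt
  -- the constants
  have hsc1 : 0 < Real.sqrt c1 := Real.sqrt_pos.2 hc1
  have hslam : 0 < Real.sqrt lam := Real.sqrt_pos.2 hlam
  set G1 := C1 * C2 ^ 2 with hG1
  set G2 := C1 / c1 ^ 2 with hG2
  set G3 := C1 / c1 with hG3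
  set G4 := (C1 + 3 * M3 * C1 * M1) / Real.sqrt c1 with hG4
  set G5 := (C1 + 3 * M3 * C1 * M2) / Real.sqrt c1 * (9 / lam) with hG5
  have p1 : 0 < G1 := by positivity
  have p2 : 0 < G2 := by positivity
  have p3 : 0 < G3 := by positivity
  have p4 : 0 < G4 := by positivity
  have p5 : 0 < G5 := by positivity
  refine ⟨c1 * c2 ^ 2, G1 + G2 + G3 + G4 + G5, by positivity, by positivity, ?_, ?_⟩
  · intro z hz
    have hzK : Φ z ∈ K := ⟨z, hz, rfl⟩
    have hs := hWe _ hzK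
    have hWz : W (Φ z) = z 2 := hWΦ z (hbN hz)
    have h1 := hq (Φ z) hzK _ (hcK _ hs)
    have h2 := hbl z hz _ (hpt _ hs)
    have hd : dist z (pt (z0 0 + τ) (z0 1) (W (Φ z))) ^ 2 =
        (z 0 - (z0 0 + τ)) ^ 2 + (z 1 - z0 1) ^ 2 := by
      rw [EuclideanSpace.dist_eq, Real.sq_sqrt (Finset.sum_nonneg fun i _ => sq_nonneg _),
        Fin.sum_univ_three, pt_zero, pt_one, pt_two, hWz]
      simp only [Real.dist_eq, sq_abs, sub_self]
      ring
    have hd0 : 0 ≤ dist z (pt (z0 0 + τ) (z0 1) (W (Φ z))) := dist_nonneg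
    have hcur : cur Φ z0 τ (W (Φ z)) = Φ (pt (z0 0 + τ) (z0 1) (W (Φ z))) := rfl
    rw [hrp, hcur] at *
    rw [← hd]
    set D := dist z (pt (z0 0 + τ) (z0 1) (W (Φ z))) with hD
    set D' := dist (Φ z) (Φ (pt (z0 0 + τ) (z0 1) (W (Φ z)))) with hD'
    have hD'0 : 0 ≤ D' := dist_nonneg
    constructor
    · calc c1 * c2 ^ 2 * D ^ 2 = c1 * (c2 * D) ^ 2 := by ring
        _ ≤ c1 * D' ^ 2 := by
          apply mul_le_mul_of_nonneg_left _ hc1.le
          exact pow_le_pow_left₀ (by positivity) h2.1 2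
        _ ≤ _ := h1.1
    · calc qf g (Φ z) (Φ (pt (z0 0 + τ) (z0 1) (W (Φ z)))) ≤ C1 * D' ^ 2 := h1.2.1
        _ ≤ C1 * (C2 * D) ^ 2 := by
          apply mul_le_mul_of_nonneg_left _ hC1.le
          exact pow_le_pow_left₀ hD'0 h2.2 2
        _ = G1 * D ^ 2 := by rw [hG1]; ring
        _ ≤ (G1 + G2 + G3 + G4 + G5) * D ^ 2 := by
          apply mul_le_mul_of_nonneg_right _ (sq_nonneg _)
          linarith
  · intro x hx
    have hxK := hobox hx
    have hsx := hWe x hxK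
    have hyK := hcK _ hsx
    have hG := hGd x hxK
    obtain ⟨q1, q2, q3, q4, q5, q6⟩ := hq x hxK _ hyK
    rw [hcW _ hsx, sub_self] at q3 q4
    rw [← hrp] at q1 q2 q3
    set y := cur Φ z0 τ (W x) with hy
    set d := dist x y with hd
    set q := rp g W Φ z0 τ x with hqd
    have hd0 : 0 ≤ d := dist_nonneg
    have hq0 : 0 ≤ q := le_trans (by positivity) q1
    have hd2 : d ^ 2 ≤ q / c1 := by
      rw [le_div_iff₀ hc1]
      linarith
    have hd1 : d ≤ Real.sqrt q / Real.sqrt c1 := by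
      rw [← Real.sqrt_div' _ hc1.le]
      exact Real.le_sqrt_of_sq_le hd2
    have hd4 : d ^ 4 ≤ q ^ 2 / c1 ^ 2 := by
      have h1 : d ^ 4 = (d ^ 2) ^ 2 := by ring
      rw [h1, ← div_pow]
      exact pow_le_pow_left₀ (sq_nonneg _) hd2 2
    -- the derivative in the level
    set D := deriv (fun s => qf g x (cur Φ z0 τ s)) (W x) with hD
    have hDb : |D| ≤ 3 * M3 * C1 * d := by
      have h1 : D = ∑ i, (deriv (cur Φ z0 τ) (W x)) i * pd i (fun z => qf g z x) y :=
        deriv_qf ((hcS _ hsx).differentiableAt (by simp))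
          (diff (qf_smooth fun i j => hgK i j _ hyK))
      have h2 : ∀ i, |(deriv (cur Φ z0 τ) (W x)) i * pd i (fun z => qf g z x) y| ≤
          M3 * (C1 * d) := by
        intro i
        rw [abs_mul]
        have h3 : |(deriv (cur Φ z0 τ) (W x)) i| ≤ M3 :=
          (PiLp.norm_apply_le (deriv (cur Φ z0 τ) (W x)) i).trans (hM3' _ hsx)
        have h4 : |pd i (fun z => qf g z x) y| ≤ C1 * d := by
          have h5 := (hq y hyK x hxK).2.2.2.2.1 i
          rwa [dist_comm] at h5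
        exact mul_le_mul h3 h4 (abs_nonneg _) hM3
      rw [h1]
      refine (Finset.abs_sum_le_sum_abs _ _).trans ?_
      rw [Fin.sum_univ_three]
      linarith [h2 0, h2 1, h2 2]
    have hsq : 0 ≤ Real.sqrt q := Real.sqrt_nonneg _
    obtain ⟨_, _, _, _, sy, zr, pgp, _, le, _, _, lnn, _⟩ :=
      hALG g x (grad W x) (hF.metric.posDef x (hKV hxK)) (hF.regular x (hKV hxK))
    refine ⟨?_, ?_, ?_, ?_⟩
    · have h1 : lin g W (rp g W Φ z0 τ) (rp g W Φ z0 τ) x =
          lin g W (fun z => qf g z y) (fun z => qf g z y) x := by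
        have e1 := hG.linE hALG hRUL (hregK x hxK) (rp g W Φ z0 τ)
        have e2 := hG.linE hALG hRUL (hregK x hxK) (fun z => qf g z y)
        have e3 := lin_comm hRUL (hregK x hxK) (fun z => qf g z y) (rp g W Φ z0 τ)
        exact (e1.trans e3).trans e2
      rw [h1]
      refine q3.trans ?_
      have h2 : C1 * (d ^ 4 + 0 ^ 2) ≤ G2 * q ^ 2 := by
        have h3 := mul_le_mul_of_nonneg_left hd4 hC1.le
        have h4 : C1 * (q ^ 2 / c1 ^ 2) = G2 * q ^ 2 := by rw [hG2]; ring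
        linarith
      refine h2.trans (mul_le_mul_of_nonneg_right ?_ (sq_nonneg _))
      linarith
    · have h1 : lap g W (rp g W Φ z0 τ) x = lap g W (fun z => qf g z y) x := hG.lapE
      rw [h1]
      refine q4.trans ?_
      rw [abs_zero, add_zero]
      have h2 : C1 * d ^ 2 ≤ G3 * q := by
        have h3 := mul_le_mul_of_nonneg_left hd2 hC1.le
        have h4 : C1 * (q / c1) = G3 * q := by rw [hG3]; ring
        linarith
      refine h2.trans (mul_le_mul_of_nonneg_right ?_ hq0)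
      linarith
    · intro i
      have h1 : pd i (rp g W Φ z0 τ) x = pd i (fun z => qf g z y) x + D * pd i W x := hG.pdE i
      rw [h1]
      have h2 := q5 i
      have h3 : |D * pd i W x| ≤ 3 * M3 * C1 * d * M1 := by
        rw [abs_mul]
        exact mul_le_mul hDb (hM1' i x hxK) (abs_nonneg _) (by positivity)
      have h4 : |pd i (fun z => qf g z y) x + D * pd i W x| ≤
          (C1 + 3 * M3 * C1 * M1) * d := by
        refine (abs_add_le _ _).trans ?_
        linarith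
      refine h4.trans ?_
      have h5 : (C1 + 3 * M3 * C1 * M1) * d ≤ G4 * Real.sqrt q := by
        have h6 := mul_le_mul_of_nonneg_left hd1
          (show 0 ≤ C1 + 3 * M3 * C1 * M1 by positivity)
        have h7 : (C1 + 3 * M3 * C1 * M1) * (Real.sqrt q / Real.sqrt c1) =
            G4 * Real.sqrt q := by rw [hG4]; ring
        linarith
      refine h5.trans (mul_le_mul_of_nonneg_right ?_ hsq)
      linarith
    · intro A B
      set T := prv g x (grad W x) A with hT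
      set T' := prv g x (grad W x) B with hT'
      have t1 : ∑ i, T i * pd i W x = 0 := prv_tan sy zr A
      have t2 : ∑ i, T' i * pd i W x = 0 := prv_tan sy zr B
      have h1 : ∑ i, ∑ j, hess2 (rp g W Φ z0 τ) x i j * T i * T' j =
          hs (fun z => qf g z y) x T T' + D * hs W x T T' := hG.hsE T T' t1 t2
      have h2 : ∑ i, ∑ j, g x i j * T i * T' j = lip g x (grad W x) A B :=
        prv_met sy pgp le A B
      have h3 : hs (fun z => qf g z y) x T T' + D * hs W x T T' -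
          2 * lip g x (grad W x) A B =
          ∑ i, ∑ j, (hess2 (fun z => qf g z y) x i j - 2 * g x i j + D * hess2 W x i j)
            * T i * T' j := by
        rw [← h2]
        unfold hs
        simp only [Fin.sum_univ_three]
        ring
      rw [h1, h3]
      set δ := (C1 + 3 * M3 * C1 * M2) * d with hδ
      have h4 : ∀ i j, |hess2 (fun z => qf g z y) x i j - 2 * g x i j + D * hess2 W x i j| ≤
          δ := by
        intro i j
        refine (abs_add_le _ _).trans ?_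
        have h5 : |hess2 (fun z => qf g z y) x i j - 2 * g x i j| ≤ C1 * d := q6 i j
        have h6 : |D * hess2 W x i j| ≤ 3 * M3 * C1 * d * M2 := by
          rw [abs_mul]
          exact mul_le_mul hDb (hM2' i j x hxK) (abs_nonneg _) (by positivity)
        rw [hδ]
        linarith
      refine (quad_bound h4 T T').trans ?_
      have hTA : ∑ i, |T i| ≤ 3 * (Real.sqrt (lip g x (grad W x) A A) / Real.sqrt lam) := by
        apply sum_abs_le hlam
        rw [← prv_met sy pgp le A A]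
        exact hlam' x hxK T
      have hTB : ∑ i, |T' i| ≤ 3 * (Real.sqrt (lip g x (grad W x) B B) / Real.sqrt lam) := by
        apply sum_abs_le hlam
        rw [← prv_met sy pgp le B B]
        exact hlam' x hxK T'
      set LA := Real.sqrt (lip g x (grad W x) A A) with hLA
      set LB := Real.sqrt (lip g x (grad W x) B B) with hLB
      have hLA0 : 0 ≤ LA := Real.sqrt_nonneg _
      have hLB0 : 0 ≤ LB := Real.sqrt_nonneg _
      have hδ1 : δ ≤ (C1 + 3 * M3 * C1 * M2) * (Real.sqrt q / Real.sqrt c1) :=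
        mul_le_mul_of_nonneg_left hd1 (by positivity)
      have hδ0 : 0 ≤ δ := by positivity
      have hsl : Real.sqrt lam * Real.sqrt lam = lam := Real.mul_self_sqrt hlam.le
      calc δ * (∑ i, |T i|) * ∑ j, |T' j|
          ≤ (C1 + 3 * M3 * C1 * M2) * (Real.sqrt q / Real.sqrt c1) *
              (3 * (LA / Real.sqrt lam)) * (3 * (LB / Real.sqrt lam)) := by
            refine mul_le_mul (mul_le_mul hδ1 hTA ?_ (by positivity)) hTB ?_ (by positivity)
            · exact Finset.sum_nonneg fun i _ => abs_nonneg _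
            · exact Finset.sum_nonneg fun i _ => abs_nonneg _
        _ = G5 * Real.sqrt q * LA * LB := by
            rw [hG5]
            have h7 : (9 : ℝ) / lam = 3 / Real.sqrt lam * (3 / Real.sqrt lam) := by
              rw [div_mul_div_comm, hsl]
              norm_num
            rw [h7]
            ring
        _ ≤ (G1 + G2 + G3 + G4 + G5) * Real.sqrt q * LA * LB := by
            refine mul_le_mul_of_nonneg_right (mul_le_mul_of_nonneg_right
              (mul_le_mul_of_nonneg_right ?_ hsq) hLA0) hLB0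
            linarith

end Pool.Agent.PFlow.GB


end

section

/-!
# TINT: the trace divided by the radius is integrable
-/

open MeasureTheory Filter Topology
open scoped ContDiff

namespace Pool.Agent.PFlow

open Pool.Agent.PenroseSph

namespace TINTm

open BARBm (sum1_le sum2_le mul_le add_le sub_le nu nu_sq n_le diff_inv_norm hess_rad grad_rad dl)

/-! ### Pointwise bounds -/

/-- The bounds at a point. -/
structure Hy (C ρ : ℝ) (g h : TensorField) (x : E3) : Prop where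
  C1 : 1 ≤ C
  ρ0 : 0 < ρ
  ρ1 : ρ ≤ 1
  pt : MJD.Pt g x
  dh : ∀ i j, DifferentiableAt ℝ (fun y => h y i j) x
  b0 : ∀ i j, |g x i j - (1 : Bil) i j| ≤ C * ρ
  b1 : ∀ k i j, |pd k (fun y => g y i j) x| ≤ C * ρ ^ 2
  c0 : ∀ i j, |h x i j| ≤ C * ρ ^ 2
  c1 : ∀ k i j, |pd k (fun y => h y i j) x| ≤ C * ρ ^ 3
  inv : ∀ i j, |(g x)⁻¹ i j| ≤ C

section

variable {C ρ : ℝ} {g h : TensorField} {x : E3}

theorem one_le (i j : Fin 3) : |(1 : Bil) i j| ≤ 1 := by
  rw [Matrix.one_apply]; split_ifs <;> norm_num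

theorem Hy.gle (H : Hy C ρ g h x) (i j : Fin 3) : |g x i j| ≤ 2 * C := by
  have h1 := H.b0 i j
  have h2 := one_le i j
  have h3 : g x i j = (g x i j - (1 : Bil) i j) + (1 : Bil) i j := by ring
  have h4 : |g x i j| ≤ |g x i j - (1 : Bil) i j| + |(1 : Bil) i j| := by
    conv_lhs => rw [h3]
    exact abs_add_le _ _
  have h5 : C * ρ ≤ C := by nlinarith [H.C1, H.ρ0, H.ρ1]
  linarith [H.C1]

theorem Hy.inv1 (H : Hy C ρ g h x) (i j : Fin 3) :
    |(g x)⁻¹ i j - (1 : Bil) i j| ≤ 3 * C ^ 2 * ρ := by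
  have h1 : (g x)⁻¹ i j - (1 : Bil) i j =
      ∑ d, -((g x)⁻¹ i d * (g x d j - (1 : Bil) d j)) := by
    have h2 := H.pt.inv_mul i j
    have h3 : ∑ d, (g x)⁻¹ i d * (1 : Bil) d j = (g x)⁻¹ i j := by
      simp [Matrix.one_apply]
    rw [Finset.sum_neg_distrib]
    simp only [mul_sub, Finset.sum_sub_distrib]
    rw [h2, h3, Matrix.one_apply]; ring
  rw [h1]
  refine (sum1_le (c := C * (C * ρ)) fun d => ?_).trans (le_of_eq (by ring))
  rw [abs_neg]
  exact mul_le (H.inv i d) (H.b0 d j)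

theorem Hy.chr (H : Hy C ρ g h x) (k i j : Fin 3) :
    |christoffel g k i j x| ≤ 5 * C ^ 2 * ρ ^ 2 := by
  unfold christoffel
  have h1 : |∑ l, (g x)⁻¹ k l * (pd i (fun y => g y j l) x + pd j (fun y => g y i l) x
      - pd l (fun y => g y i j) x)| ≤ 3 * (C * (C * ρ ^ 2 + C * ρ ^ 2 + C * ρ ^ 2)) :=
    sum1_le fun l => mul_le (H.inv k l)
      (sub_le (add_le (H.b1 _ _ _) (H.b1 _ _ _)) (H.b1 _ _ _))
  have h2 : 0 ≤ C ^ 2 * ρ ^ 2 := by positivity
  rw [abs_mul, abs_of_pos (by norm_num : (0:ℝ) < 1/2)]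
  nlinarith

theorem Hy.dP (H : Hy C ρ g h x) (k i j : Fin 3) :
    |pd k (fun y => (g y)⁻¹ i j) x| ≤ 30 * C ^ 3 * ρ ^ 2 := by
  rw [H.pt.pd_inv, abs_neg]
  exact (sum1_le (c := 5 * C ^ 2 * ρ ^ 2 * C + 5 * C ^ 2 * ρ ^ 2 * C) fun l =>
    add_le (mul_le (H.chr _ _ _) (H.inv _ _)) (mul_le (H.chr _ _ _) (H.inv _ _))).trans
    (le_of_eq (by ring))

theorem Hy.t (H : Hy C ρ g h x) : |trg g x (h x)| ≤ 9 * C ^ 2 * ρ ^ 2 := by
  unfold trg
  exact (sum2_le (c := C * (C * ρ ^ 2)) fun i j => mul_le (H.inv i j) (H.c0 i j)).trans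
    (le_of_eq (by ring))

theorem Hy.difft (H : Hy C ρ g h x) : DifferentiableAt ℝ (fun y => trg g y (h y)) x :=
  MJD.diffTr H.pt h H.dh

theorem Hy.dt (H : Hy C ρ g h x) (k : Fin 3) :
    |pd k (fun y => trg g y (h y)) x| ≤ 279 * C ^ 4 * ρ ^ 3 := by
  have h1 : pd k (fun y => trg g y (h y)) x = ∑ i, ∑ j,
      ((g x)⁻¹ i j * pd k (fun y => h y i j) x + h x i j * pd k (fun y => (g y)⁻¹ i j) x) := by
    unfold trg
    rw [pd_sum Finset.univ (fun i y => ∑ j, (g y)⁻¹ i j * h y i j) fun i _ =>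
      DifferentiableAt.fun_sum fun j _ => (H.pt.diffInv i j).fun_mul (H.dh i j)]
    refine Finset.sum_congr rfl fun i _ => ?_
    rw [pd_sum Finset.univ (fun j y => (g y)⁻¹ i j * h y i j) fun j _ =>
      (H.pt.diffInv i j).fun_mul (H.dh i j)]
    refine Finset.sum_congr rfl fun j _ => ?_
    rw [pd_mul (H.pt.diffInv i j) (H.dh i j)]
  rw [h1]
  refine (sum2_le (c := C * (C * ρ ^ 3) + C * ρ ^ 2 * (30 * C ^ 3 * ρ ^ 2)) fun i j =>
    add_le (mul_le (H.inv i j) (H.c1 k i j)) (mul_le (H.c0 i j) (H.dP k i j))).trans ?_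
  have hC := H.C1
  have h0 := H.ρ0
  have h2 : C ^ 2 ≤ C ^ 4 := pow_le_pow_right₀ hC (by norm_num)
  have h3 : ρ ^ 4 ≤ ρ ^ 3 := pow_le_pow_of_le_one h0.le H.ρ1 (by norm_num)
  have h4 : C ^ 2 * ρ ^ 3 ≤ C ^ 4 * ρ ^ 3 := by gcongr
  have h5 : C ^ 4 * ρ ^ 4 ≤ C ^ 4 * ρ ^ 3 := by gcongr
  nlinarith

/-- the tensor `π = h - (tr h) g` -/
noncomputable def pit (g h : TensorField) (x : E3) (i j : Fin 3) : ℝ :=
  h x i j - trg g x (h x) * g x i j

theorem Hy.diffpi (H : Hy C ρ g h x) (i j : Fin 3) :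
    DifferentiableAt ℝ (fun y => pit g h y i j) x :=
  (H.dh i j).fun_sub (H.difft.fun_mul (H.pt.diff i j))

theorem Hy.pd_pi (H : Hy C ρ g h x) (k i j : Fin 3) :
    pd k (fun y => pit g h y i j) x = pd k (fun y => h y i j) x -
      (trg g x (h x) * pd k (fun y => g y i j) x
        + g x i j * pd k (fun y => trg g y (h y)) x) := by
  unfold pit
  rw [pd_sub (H.dh i j) (H.difft.fun_mul (H.pt.diff i j)), pd_mul H.difft (H.pt.diff i j)]

theorem Hy.pi_le (H : Hy C ρ g h x) (i j : Fin 3) : |pit g h x i j| ≤ 19 * C ^ 3 * ρ ^ 2 := by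
  unfold pit
  refine (sub_le (H.c0 i j) (mul_le H.t (H.gle i j))).trans ?_
  have h2 : C ≤ C ^ 3 := by
    calc C = C ^ 1 := (pow_one C).symm
      _ ≤ C ^ 3 := pow_le_pow_right₀ H.C1 (by norm_num)
  have h3 : C * ρ ^ 2 ≤ C ^ 3 * ρ ^ 2 := by gcongr
  nlinarith

theorem alg_J (P G : Bil) (Dh Dg S : Fin 3 → Fin 3 → ℝ) (dt : Fin 3 → ℝ) (t : ℝ) (j : Fin 3) :
    (∑ i, ∑ k, P i k * (Dh k i - S k i) - dt j)
      - ∑ i, (Dh i i - (t * Dg i j + G i j * dt i)) =
    ∑ i, ∑ k, ((P i k - (1 : Bil) i k) * Dh k i - P i k * S k i)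
      + ∑ i, (dt i * (G i j - (1 : Bil) i j) + t * Dg i j) := by
  fin_cases j <;> simp [Fin.sum_univ_three, Matrix.one_apply] <;> ring

theorem Hy.J (H : Hy C ρ g h x) (j : Fin 3) :
    |momentumDensity g h j x - ∑ i, pd i (fun y => pit g h y i j) x| ≤ 1161 * C ^ 5 * ρ ^ 4 := by
  have h1 : momentumDensity g h j x - ∑ i, pd i (fun y => pit g h y i j) x =
      ∑ i, ∑ k, (((g x)⁻¹ i k - (1 : Bil) i k) * pd k (fun y => h y i j) x - (g x)⁻¹ i k *
        ∑ l, (christoffel g l k i x * h x l j + christoffel g l k j x * h x i l))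
      + ∑ i, (pd i (fun y => trg g y (h y)) x * (g x i j - (1 : Bil) i j)
        + trg g x (h x) * pd i (fun y => g y i j) x) := by
    rw [H.pt.mom h H.dh j]
    simp only [H.pd_pi]
    unfold covDeriv
    exact alg_J (g x)⁻¹ (g x) (fun k i => pd k (fun y => h y i j) x)
      (fun i j => pd i (fun y => g y i j) x)
      (fun k i => ∑ l, (christoffel g l k i x * h x l j + christoffel g l k j x * h x i l))
      (fun i => pd i (fun y => trg g y (h y)) x) (trg g x (h x)) j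
  rw [h1]
  refine (add_le (sum2_le (c := 3 * C ^ 2 * ρ * (C * ρ ^ 3) + C * (3 *
      (5 * C ^ 2 * ρ ^ 2 * (C * ρ ^ 2) + 5 * C ^ 2 * ρ ^ 2 * (C * ρ ^ 2)))) fun i k =>
      sub_le (mul_le (H.inv1 i k) (H.c1 k i j)) (mul_le (H.inv i k) (sum1_le fun l =>
        add_le (mul_le (H.chr l k i) (H.c0 l j)) (mul_le (H.chr l k j) (H.c0 i l)))))
    (sum1_le (c := 279 * C ^ 4 * ρ ^ 3 * (C * ρ) + 9 * C ^ 2 * ρ ^ 2 * (C * ρ ^ 2)) fun i =>
      add_le (mul_le (H.dt i) (H.b0 i j)) (mul_le H.t (H.b1 i i j)))).trans ?_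
  have hC := H.C1
  have h0 := H.ρ0
  have h2 : C ^ 3 ≤ C ^ 5 := pow_le_pow_right₀ hC (by norm_num)
  have h3 : C ^ 4 ≤ C ^ 5 := pow_le_pow_right₀ hC (by norm_num)
  have h4 : C ^ 3 * ρ ^ 4 ≤ C ^ 5 * ρ ^ 4 := by gcongr
  have h5 : C ^ 4 * ρ ^ 4 ≤ C ^ 5 * ρ ^ 4 := by gcongr
  nlinarith

theorem sq_le_vsq (p : Cov) (i : Fin 3) : p i ^ 2 ≤ vsq p := by
  unfold vsq
  exact Finset.single_le_sum (f := fun i => p i ^ 2) (fun i _ => sq_nonneg _) (Finset.mem_univ i)

theorem Hy.len_ge (H : Hy C ρ g h x) (hp : (g x).PosDef) (p : Cov) (i : Fin 3) :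
    |p i| ≤ 6 * C * Real.sqrt (ev (g x)⁻¹ p p) := by
  have hC := H.C1
  have h1 : vsq p ≤ 3 * (2 * C) * ev (g x)⁻¹ p p := MCT.ev_lower hp (by linarith) H.gle p
  have h2 : 0 ≤ vsq p := MCT.vsq_nonneg p
  have h3 : 0 ≤ ev (g x)⁻¹ p p := by
    by_contra h
    rw [not_le] at h
    nlinarith
  have h4 := sq_le_vsq p i
  apply abs_le_of_sq_le_sq
  · rw [mul_pow, Real.sq_sqrt h3]
    nlinarith [mul_nonneg (by linarith : (0 : ℝ) ≤ C) h3,
      mul_nonneg (mul_nonneg (by linarith : (0 : ℝ) ≤ C) (by linarith : (0 : ℝ) ≤ C - 1)) h3]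
  · positivity

theorem Hy.h_le (H : Hy C ρ g h x) (hp : (g x).PosDef)
    (hn : nsq g x (h x) ≤ 3 * trg g x (h x) ^ 2) (i j : Fin 3) :
    |h x i j| ≤ 11 * C * |trg g x (h x)| := by
  have hC := H.C1
  obtain ⟨Q, hQ⟩ := MCT.factor hp.inv.posSemidef
  have h1 := MCT.nsq_factor hQ (h x)
  have h2 := MCT.rows_factor hQ (h x)
  have h3 : ∀ p : Cov, vsq p ≤ 6 * C * ev (g x)⁻¹ p p := fun p => by
    have := MCT.ev_lower hp (by linarith) H.gle p
    linarith
  have h4 : ∑ i, vsq (h x i) ≤ 6 * C * ∑ i, ev (g x)⁻¹ (h x i) (h x i) := by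
    rw [Finset.mul_sum]
    exact Finset.sum_le_sum fun i _ => h3 _
  have h5 : ∑ m, vsq (fun i => ∑ j, h x i j * Q m j) ≤ 6 * C * nsq g x (h x) := by
    rw [h1, Finset.mul_sum]
    exact Finset.sum_le_sum fun i _ => h3 _
  have h6 : (h x i j) ^ 2 ≤ ∑ i, vsq (h x i) :=
    (sq_le_vsq (h x i) j).trans (Finset.single_le_sum (f := fun i => vsq (h x i))
      (fun i _ => MCT.vsq_nonneg _) (Finset.mem_univ i))
  have h7 : ∑ i, vsq (h x i) ≤ 6 * C * (6 * C * nsq g x (h x)) := by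
    refine h4.trans (mul_le_mul_of_nonneg_left ?_ (by linarith))
    rw [← h2]
    exact h5
  have h8 : (h x i j) ^ 2 ≤ 6 * C * (6 * C * (3 * trg g x (h x) ^ 2)) :=
    h6.trans (h7.trans (mul_le_mul_of_nonneg_left (mul_le_mul_of_nonneg_left hn (by linarith))
      (by linarith)))
  apply abs_le_of_sq_le_sq
  · rw [mul_pow, sq_abs]
    nlinarith [mul_nonneg (sq_nonneg C) (sq_nonneg (trg g x (h x)))]
  · positivity

theorem Hy.pi_le' (H : Hy C ρ g h x) (hp : (g x).PosDef)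
    (hn : nsq g x (h x) ≤ 3 * trg g x (h x) ^ 2) (i j : Fin 3) :
    |pit g h x i j| ≤ 13 * C * |trg g x (h x)| := by
  unfold pit
  refine (sub_le (H.h_le hp hn i j) (mul_le (le_refl |trg g x (h x)|) (H.gle i j))).trans
    (le_of_eq (by ring))

/-- the first term: the derivative of `f` -/
theorem Hy.termA (H : Hy C ρ g h x) (hp : (g x).PosDef) (hx : x ≠ 0)
    (hn : nsq g x (h x) ≤ 3 * trg g x (h x) ^ 2) {η : ℝ} (hη : 0 < η) :
    |∑ i, ∑ j, pd i (fun y => hatF η (trg g y (h y))) x * pit g h x i j * nu x j|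
      ≤ 351 * C ^ 2 * eEta η g h x := by
  have hC := H.C1
  set t := trg g x (h x) with ht
  set L := len g x (grad (fun y => trg g y (h y)) x) with hL
  have hL0 : 0 ≤ L := Real.sqrt_nonneg _
  set s := Real.sqrt (t ^ 2 + η ^ 2) with hs
  have hs0 : 0 < s := Real.sqrt_pos.2 (by positivity)
  have h1 : ∀ i, |pd i (fun y => hatF η (trg g y (h y))) x| ≤ η ^ 2 / s ^ 3 * (6 * C * L) := by
    intro i
    have h2 := congrFun (HATC.grad_comp hη H.difft) i
    have h3 : pd i (fun y => hatF η (trg g y (h y))) x =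
        η ^ 2 / s ^ 3 * grad (fun y => trg g y (h y)) x i := h2
    rw [h3, abs_mul, abs_of_nonneg (by positivity : 0 ≤ η ^ 2 / s ^ 3)]
    exact mul_le_mul_of_nonneg_left (H.len_ge hp _ i) (by positivity)
  have h2 := sum2_le (f := fun i j => pd i (fun y => hatF η (trg g y (h y))) x *
    pit g h x i j * nu x j) fun i j => mul_le (mul_le (h1 i) (H.pi_le' hp hn i j))
      (n_le (nu_sq hx) j)
  refine h2.trans ?_
  have h3 : eEta η g h x = η ^ 2 / 2 + 2 * η ^ 2 * |t| * L / s ^ 3 := rfl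
  rw [h3]
  have h4 : 9 * (η ^ 2 / s ^ 3 * (6 * C * L) * (13 * C * |t|) * 1)
      = 351 * C ^ 2 * (2 * η ^ 2 * |t| * L / s ^ 3) := by ring
  rw [h4]
  have h5 : 0 ≤ 351 * C ^ 2 * (η ^ 2 / 2) := by positivity
  nlinarith

/-- the second term: the divergence of `π` -/
theorem Hy.termB (H : Hy C ρ g h x) (hp : (g x).PosDef) (hx : x ≠ 0) {f : ℝ} (hf : |f| ≤ 1) :
    |∑ j, f * (∑ i, pd i (fun y => pit g h y i j) x) * nu x j|
      ≤ 18 * C * jlen g h x + 3483 * C ^ 5 * ρ ^ 4 := by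
  have h1 : ∀ j, |∑ i, pd i (fun y => pit g h y i j) x| ≤
      6 * C * jlen g h x + 1161 * C ^ 5 * ρ ^ 4 := by
    intro j
    have h2 := H.J j
    have h3 := H.len_ge hp (fun i => momentumDensity g h i x) j
    have h4 : |momentumDensity g h j x| ≤ 6 * C * jlen g h x := h3
    have h5 : ∑ i, pd i (fun y => pit g h y i j) x = momentumDensity g h j x -
        (momentumDensity g h j x - ∑ i, pd i (fun y => pit g h y i j) x) := by ring
    rw [h5]
    exact sub_le h4 h2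
  refine (sum1_le fun j => mul_le (mul_le hf (h1 j)) (n_le (nu_sq hx) j)).trans
    (le_of_eq (by ring))

/-- the third term -/
theorem Hy.termC (H : Hy C ρ g h x) (hx : x ≠ 0) {f δ : ℝ} (hf : |f| ≤ 1) (hδ : 0 ≤ δ)
    (hδ1 : δ ≤ 1) (hft : 0 ≤ f * trg g x (h x))
    (hfar : -(f * ∑ i, ∑ j, h x i j * nu x i * nu x j) ≤
      (1 - δ) * (f * trg g x (h x)) * ∑ i, ∑ j, g x i j * nu x i * nu x j) :
    f * ∑ i, ∑ j, pit g h x i j * (_root_.Pool.Agent.PFlow.BARBm.dl i j - nu x i * nu x j) ≤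
      -(δ * (f * trg g x (h x))) + 216 * C ^ 3 * ρ ^ 3 := by
  have hC := H.C1
  have hρ := H.ρ0
  set t := trg g x (h x) with ht
  set n := nu x with hn
  have hn2 : n 0 ^ 2 + n 1 ^ 2 + n 2 ^ 2 = 1 := nu_sq hx
  set K := ∑ i, ∑ j, h x i j * n i * n j with hK
  set M := ∑ i, ∑ j, g x i j * n i * n j with hM
  -- the trace
  have h1 : ∑ i, pit g h x i i = -(2 * t) - ∑ i, ∑ j, ((g x)⁻¹ i j - (1 : Bil) i j) * h x i j
      - ∑ i, t * (g x i i - (1 : Bil) i i) := by
    have h2 : t = ∑ i, ∑ j, (g x)⁻¹ i j * h x i j := rfl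
    have h3 : ∑ i, ∑ j, ((g x)⁻¹ i j - (1 : Bil) i j) * h x i j = t - ∑ i, h x i i := by
      simp only [sub_mul, Finset.sum_sub_distrib]
      rw [← h2]
      simp [Matrix.one_apply]
    have h4 : ∑ i, pit g h x i i = ∑ i, h x i i - ∑ i, t * g x i i := by
      unfold pit
      rw [Finset.sum_sub_distrib]
    have h5 : ∑ i, t * (g x i i - (1 : Bil) i i) = ∑ i, t * g x i i - 3 * t := by
      simp [Fin.sum_univ_three, Matrix.one_apply]
      ring
    rw [h3, h4, h5]
    ring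
  have h2 : |∑ i, ∑ j, ((g x)⁻¹ i j - (1 : Bil) i j) * h x i j| ≤ 27 * C ^ 3 * ρ ^ 3 :=
    (sum2_le fun i j => mul_le (H.inv1 i j) (H.c0 i j)).trans (le_of_eq (by ring))
  have h3 : |∑ i, t * (g x i i - (1 : Bil) i i)| ≤ 27 * C ^ 3 * ρ ^ 3 :=
    (sum1_le fun i => mul_le H.t (H.b0 i i)).trans (le_of_eq (by ring))
  -- the radial part of the metric
  have h4 : |M - 1| ≤ 9 * (C * ρ) := by
    have h5 : M - 1 = ∑ i, ∑ j, (g x i j - (1 : Bil) i j) * n i * n j := by
      rw [hM]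
      simp [Fin.sum_univ_three]
      linear_combination hn2
    rw [h5]
    exact (sum2_le fun i j => mul_le (mul_le (H.b0 i j) (n_le hn2 i)) (n_le hn2 j)).trans
      (le_of_eq (by ring))
  have h5 : ∑ i, ∑ j, pit g h x i j * (_root_.Pool.Agent.PFlow.BARBm.dl i j - n i * n j) = ∑ i, pit g h x i i - K + t * M := by
    rw [hK, hM]
    unfold pit _root_.Pool.Agent.PFlow.BARBm.dl
    simp [Fin.sum_univ_three]
    ring
  have hft' : f * t ≤ 9 * C ^ 2 * ρ ^ 2 := by
    have := mul_le hf H.t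
    rw [one_mul] at this
    exact (le_abs_self _).trans this
  rw [h5, h1]
  have h6 : f * (-(2 * t) - ∑ i, ∑ j, ((g x)⁻¹ i j - (1 : Bil) i j) * h x i j
      - ∑ i, t * (g x i i - (1 : Bil) i i) - K + t * M) = -(2 * (f * t))
      - f * (∑ i, ∑ j, ((g x)⁻¹ i j - (1 : Bil) i j) * h x i j)
      - f * (∑ i, t * (g x i i - (1 : Bil) i i)) + -(f * K) + f * t * M := by ring
  rw [h6]
  have h7 := abs_le.1 (mul_le hf h2)
  have h8 := abs_le.1 (mul_le hf h3)
  have h9 : (2 - δ) * (f * t) * (M - 1) ≤ 162 * C ^ 3 * ρ ^ 3 := by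
    have h10 : (2 - δ) * (f * t) ≤ 2 * (9 * C ^ 2 * ρ ^ 2) := by nlinarith
    have h11 : 0 ≤ (2 - δ) * (f * t) := mul_nonneg (by linarith) hft
    calc (2 - δ) * (f * t) * (M - 1) ≤ (2 - δ) * (f * t) * |M - 1| :=
          mul_le_mul_of_nonneg_left (le_abs_self _) h11
      _ ≤ 2 * (9 * C ^ 2 * ρ ^ 2) * (9 * (C * ρ)) :=
          mul_le_mul h10 h4 (abs_nonneg _) (by positivity)
      _ = 162 * C ^ 3 * ρ ^ 3 := by ring
  nlinarith [h7.1, h7.2, h8.1, h8.2]

theorem nu_smooth (hx : x ≠ 0) (j : Fin 3) : ContDiffAt ℝ ∞ (fun y => nu y j) x := by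
  unfold nu
  have h1 : ContDiffAt ℝ ∞ (fun y : E3 => ‖y‖) x := contDiffAt_norm ℝ hx
  have h2 : ContDiffAt ℝ ∞ (fun y : E3 => y j) x :=
    (EuclideanSpace.proj j : E3 →L[ℝ] ℝ).contDiff.contDiffAt
  exact h2.div h1 (norm_ne_zero_iff.2 hx)

theorem pd_nu (hx : x ≠ 0) (i j : Fin 3) :
    pd i (fun y => nu y j) x = 1 / ‖x‖ * (_root_.Pool.Agent.PFlow.BARBm.dl i j - nu x i * nu x j) := by
  rw [← hess_rad hx i j]
  unfold hess2
  rw [Matrix.of_apply]
  apply pd_congr
  filter_upwards [isOpen_compl_singleton.mem_nhds hx] with y hy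
  exact (congrFun (grad_rad (x := y) hy) j).symm

/-- the vector field -/
noncomputable def VV (η : ℝ) (g h : TensorField) (y : E3) (i : Fin 3) : ℝ :=
  hatF η (trg g y (h y)) * ∑ j, pit g h y i j * nu y j

theorem alg_div (A f : ℝ) (F : Fin 3 → ℝ) (Q E : Fin 3 → Fin 3 → ℝ) (D : Fin 3 → Fin 3 → ℝ)
    (n : Fin 3 → ℝ) :
    ∑ i, (f * ∑ j, (Q i j * (A * E i j) + n j * D i j) + (∑ j, Q i j * n j) * F i) =
      ∑ i, ∑ j, F i * Q i j * n j + ∑ j, f * (∑ i, D i j) * n j
        + A * (f * ∑ i, ∑ j, Q i j * E i j) := by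
  simp only [Fin.sum_univ_three]
  ring

theorem Hy.divV (H : Hy C ρ g h x) (hx : x ≠ 0) {η : ℝ} (hη : 0 < η) :
    ∑ i, pd i (fun y => VV η g h y i) x =
      ∑ i, ∑ j, pd i (fun y => hatF η (trg g y (h y))) x * pit g h x i j * nu x j
      + ∑ j, hatF η (trg g x (h x)) * (∑ i, pd i (fun y => pit g h y i j) x) * nu x j
      + 1 / ‖x‖ * (hatF η (trg g x (h x)) * ∑ i, ∑ j, pit g h x i j *
          (_root_.Pool.Agent.PFlow.BARBm.dl i j - nu x i * nu x j)) := by
  have hnd : ∀ j, DifferentiableAt ℝ (fun y => nu y j) x := fun j =>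
    (nu_smooth hx j).differentiableAt (by norm_num)
  have hf : DifferentiableAt ℝ (fun y => hatF η (trg g y (h y))) x :=
    ((HATC.hatF_smooth hη).differentiable (by norm_num)).differentiableAt.comp x H.difft
  rw [← alg_div]
  refine Finset.sum_congr rfl fun i _ => ?_
  have h1 : DifferentiableAt ℝ (fun y => ∑ j, pit g h y i j * nu y j) x :=
    DifferentiableAt.fun_sum fun j _ => (H.diffpi i j).fun_mul (hnd j)
  unfold VV
  rw [pd_mul hf h1, pd_sum Finset.univ (fun j y => pit g h y i j * nu y j) fun j _ =>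
    (H.diffpi i j).fun_mul (hnd j)]
  congr 2
  refine Finset.sum_congr rfl fun j _ => ?_
  rw [pd_mul (H.diffpi i j) (hnd j), pd_nu hx]

theorem hat_mul_nonneg (η t : ℝ) : 0 ≤ hatF η t * t := by
  unfold hatF
  have : t / Real.sqrt (t ^ 2 + η ^ 2) * t = t ^ 2 / Real.sqrt (t ^ 2 + η ^ 2) := by ring
  rw [this]
  positivity

theorem abs_le_hat {η : ℝ} (hη : 0 < η) (t : ℝ) : |t| ≤ hatF η t * t + η := by
  unfold hatF
  set s := Real.sqrt (t ^ 2 + η ^ 2) with hs
  have hs0 : 0 < s := Real.sqrt_pos.2 (by positivity)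
  have hss : s ^ 2 = t ^ 2 + η ^ 2 := Real.sq_sqrt (by positivity)
  have h1 : |t| ≤ s := Real.abs_le_sqrt (by nlinarith [sq_nonneg η])
  have h2 : s ≤ |t| + η := by
    refine Real.sqrt_le_iff.2 ⟨by positivity, ?_⟩
    nlinarith [sq_abs t, abs_nonneg t, mul_nonneg (abs_nonneg t) hη.le]
  have h3 : t / s * t = |t| ^ 2 / s := by rw [sq_abs]; ring
  rw [h3]
  have h4 : |t| ^ 2 / s = |t| - |t| * (s - |t|) / s := by
    field_simp
    ring
  have h5 : |t| * (s - |t|) / s ≤ η := by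
    rw [div_le_iff₀ hs0]
    have : 0 ≤ s - |t| := by linarith
    nlinarith [abs_nonneg t]
  linarith

/-- The pointwise inequality. -/
theorem Hy.point (H : Hy C ρ g h x) (hp : (g x).PosDef) (hx : x ≠ 0)
    (hn : nsq g x (h x) ≤ 3 * trg g x (h x) ^ 2) {η δ : ℝ} (hη : 0 < η) (hδ : 0 ≤ δ)
    (hδ1 : δ ≤ 1) (hρ : ρ = 1 / ‖x‖)
    (hfar : -(hatF η (trg g x (h x)) * ∑ i, ∑ j, h x i j * nu x i * nu x j) ≤
      (1 - δ) * (hatF η (trg g x (h x)) * trg g x (h x)) *
        ∑ i, ∑ j, g x i j * nu x i * nu x j) :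
    ∑ i, pd i (fun y => VV η g h y i) x ≤ 18 * C * jlen g h x + 351 * C ^ 2 * eEta η g h x
      + 3699 * C ^ 5 * ρ ^ 4 - δ * (hatF η (trg g x (h x)) * trg g x (h x) * ρ) := by
  have hC := H.C1
  have hρ0 := H.ρ0
  have hf : |hatF η (trg g x (h x))| ≤ 1 := HATC.abs_hatF_le hη _
  rw [H.divV hx hη, ← hρ]
  have h1 := (le_abs_self _).trans (H.termA hp hx hn hη)
  have h2 := (le_abs_self _).trans (H.termB hp hx hf)
  have h3 := mul_le_mul_of_nonneg_left (H.termC hx hf hδ hδ1 (hat_mul_nonneg η _) hfar) hρ0.le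
  have h4 : C ^ 3 ≤ C ^ 5 := pow_le_pow_right₀ hC (by norm_num)
  have h5 : C ^ 3 * ρ ^ 4 ≤ C ^ 5 * ρ ^ 4 := by gcongr
  have h6 : ρ * (-(δ * (hatF η (trg g x (h x)) * trg g x (h x))) + 216 * C ^ 3 * ρ ^ 3) =
      -(δ * (hatF η (trg g x (h x)) * trg g x (h x) * ρ)) + 216 * (C ^ 3 * ρ ^ 4) := by ring
  rw [h6] at h3
  linarith

theorem Hy.VV_le (H : Hy C ρ g h x) (hx : x ≠ 0) {η : ℝ} (hη : 0 < η) (i : Fin 3) :
    |VV η g h x i| ≤ 57 * C ^ 3 * ρ ^ 2 := by
  unfold VV
  exact (mul_le (HATC.abs_hatF_le hη _) (sum1_le fun j => mul_le (H.pi_le i j)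
    (n_le (nu_sq hx) j))).trans (le_of_eq (by ring))

/-- `FarStrict` in terms of the unit vector. -/
theorem far {δ δ' η : ℝ} (hx : x ≠ 0) (hη : 0 < η) (hδ : δ' ≤ δ)
    (hg : 0 ≤ ev (g x) (fun i => x i) (fun i => x i))
    (h1 : 0 ≤ trg g x (h x) →
      -(1 - δ) * trg g x (h x) * ev (g x) (fun i => x i) (fun i => x i)
        ≤ ev (h x) (fun i => x i) (fun i => x i))
    (h2 : trg g x (h x) ≤ 0 →
      ev (h x) (fun i => x i) (fun i => x i)
        ≤ -(1 - δ) * trg g x (h x) * ev (g x) (fun i => x i) (fun i => x i)) :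
    -(hatF η (trg g x (h x)) * ∑ i, ∑ j, h x i j * nu x i * nu x j) ≤
      (1 - δ') * (hatF η (trg g x (h x)) * trg g x (h x)) *
        ∑ i, ∑ j, g x i j * nu x i * nu x j := by
  have hn : 0 < ‖x‖ := norm_pos_iff.2 hx
  have key : ∀ B : Bil, ∑ i, ∑ j, B i j * nu x i * nu x j =
      ev B (fun i => x i) (fun i => x i) / ‖x‖ ^ 2 := by
    intro B
    unfold ev nu
    simp only [Fin.sum_univ_three]
    field_simp
  rw [key, key]
  set t := trg g x (h x)
  set f := hatF η t with hf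
  set K := ev (h x) (fun i => x i) (fun i => x i)
  set M := ev (g x) (fun i => x i) (fun i => x i)
  have hft := hat_mul_nonneg η t
  rw [← hf] at hft
  have h3 : -(f * K) ≤ (1 - δ) * (f * t) * M := by
    rcases le_total 0 t with h | h
    · have hf0 : 0 ≤ f := by rw [hf]; unfold hatF; positivity
      nlinarith [mul_le_mul_of_nonneg_left (h1 h) hf0]
    · have hf0 : f ≤ 0 := by
        rw [hf]; unfold hatF
        exact div_nonpos_of_nonpos_of_nonneg h (Real.sqrt_nonneg _)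
      nlinarith [mul_le_mul_of_nonpos_left (h2 h) hf0]
  have h4 : (1 - δ) * (f * t) * M ≤ (1 - δ') * (f * t) * M :=
    mul_le_mul_of_nonneg_right (mul_le_mul_of_nonneg_right (by linarith) hft) hg
  have h5 : -(f * (K / ‖x‖ ^ 2)) = -(f * K) / ‖x‖ ^ 2 := by ring
  have h6 : (1 - δ') * (f * t) * (M / ‖x‖ ^ 2) = (1 - δ') * (f * t) * M / ‖x‖ ^ 2 := by ring
  rw [h5, h6]
  exact div_le_div_of_nonneg_right (h3.trans h4) (by positivity)

end

/-! ### Smoothness -/

section Smooth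

variable {g h : TensorField} {x : E3}

theorem pit_smooth (hg : MetricOn {0}ᶜ g) (hh : TensorOn {0}ᶜ h) (hx : x ≠ 0) (i j : Fin 3) :
    ContDiffAt ℝ ∞ (fun y => pit g h y i j) x := by
  have ho : IsOpen ({0}ᶜ : Set E3) := isOpen_compl_singleton
  have hx' : x ∈ ({0}ᶜ : Set E3) := hx
  exact ((hh.smooth i j).contDiffAt (ho.mem_nhds hx')).sub
    ((EEtaAux.cd_tr hg hh hx).mul ((hg.smooth i j).contDiffAt (ho.mem_nhds hx')))

theorem VV_smooth (hg : MetricOn {0}ᶜ g) (hh : TensorOn {0}ᶜ h) (hx : x ≠ 0) {η : ℝ}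
    (hη : 0 < η) (i : Fin 3) : ContDiffAt ℝ ∞ (fun y => VV η g h y i) x := by
  have h1 : ContDiffAt ℝ ∞ (fun y => hatF η (trg g y (h y))) x :=
    (HATC.hatF_smooth hη).contDiffAt.comp x (EEtaAux.cd_tr hg hh hx)
  exact h1.mul (ContDiffAt.sum fun j _ => (pit_smooth hg hh hx i j).mul (nu_smooth hx j))

theorem cont_jlen (hg : MetricOn {0}ᶜ g) (hh : TensorOn {0}ᶜ h) (hx : x ≠ 0) :
    ContinuousAt (jlen g h) x := by
  have ho : IsOpen ({0}ᶜ : Set E3) := isOpen_compl_singleton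
  have hx' : x ∈ ({0}ᶜ : Set E3) := hx
  unfold jlen ev
  refine ContinuousAt.sqrt ?_
  refine tendsto_finsetSum _ fun i _ => tendsto_finsetSum _ fun j _ => ?_
  exact ((EEtaAux.cd_inv hg hx i j).continuousAt.mul
    (MCF.mom_smooth ho hg hh hx' i).continuousAt).mul
    (MCF.mom_smooth ho hg hh hx' j).continuousAt

theorem ne_zero_of_mem {a b : ℝ} (ha : 0 < a) (hx : x ∈ cAnn a b) : x ≠ 0 := by
  rintro rfl
  have := hx.1
  rw [norm_zero] at this
  linarith

theorem integrable_cAnn {a b : ℝ} (ha : 0 < a) {F : E3 → ℝ}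
    (hF : ∀ x : E3, x ≠ 0 → ContinuousAt F x) : IntegrableOn F (cAnn a b) :=
  ContinuousOn.integrableOn_compact (EEtaAux.isCompact_cAnn a b)
    fun _ hx => (hF _ (ne_zero_of_mem ha hx)).continuousWithinAt

end Smooth

/-- the integral of `|x|⁻⁴` -/
theorem four : ∃ K : ℝ, 0 ≤ K ∧ ∀ b : ℝ, ∀ a : ℝ, 1 ≤ a →
    ∫ x in cAnn a b, (1 / ‖x‖) ^ 4 ≤ K := by
  have h1 : Integrable (fun x : E3 => (1 + ‖x‖) ^ (-(4 : ℝ))) := by
    apply integrable_one_add_norm
    rw [finrank_euclideanSpace]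
    norm_num
  have h0 : ∀ x : E3, 0 ≤ (1 + ‖x‖) ^ (-(4 : ℝ)) := fun x => by positivity
  refine ⟨16 * ∫ x : E3, (1 + ‖x‖) ^ (-(4 : ℝ)),
    mul_nonneg (by norm_num) (integral_nonneg h0), fun b a ha => ?_⟩
  have h2 : IntegrableOn (fun x : E3 => (1 / ‖x‖) ^ 4) (cAnn a b) :=
    integrable_cAnn (by linarith) fun x hx =>
      ((continuousAt_const.div continuousAt_id.norm (norm_ne_zero_iff.2 hx)).pow 4)
  have h3 : ∫ x in cAnn a b, (1 / ‖x‖) ^ 4 ≤ ∫ x in cAnn a b, 16 * (1 + ‖x‖) ^ (-(4 : ℝ)) := by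
    refine setIntegral_mono_on h2 ((h1.const_mul 16).integrableOn)
      (EEtaAux.isCompact_cAnn a b).measurableSet fun x hx => ?_
    have hx1 : 1 ≤ ‖x‖ := ha.trans hx.1
    have h4 : (1 + ‖x‖) ^ (-(4 : ℝ)) = ((1 + ‖x‖) ^ 4)⁻¹ := by
      rw [Real.rpow_neg (by positivity)]
      norm_cast
    rw [h4, div_pow, one_pow, ← div_eq_mul_inv, div_le_div_iff₀ (by positivity) (by positivity)]
    have h5 : (1 + ‖x‖) ^ 4 ≤ (2 * ‖x‖) ^ 4 := pow_le_pow_left₀ (by positivity) (by linarith) 4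
    calc 1 * (1 + ‖x‖) ^ 4 = (1 + ‖x‖) ^ 4 := one_mul _
      _ ≤ (2 * ‖x‖) ^ 4 := h5
      _ = 16 * ‖x‖ ^ 4 := by ring
  refine h3.trans ?_
  rw [integral_const_mul]
  exact mul_le_mul_of_nonneg_left (setIntegral_le_integral h1 (Eventually.of_forall h0))
    (by norm_num)

theorem int5 {μ : Measure E3} {f₁ f₂ f₃ f₄ : E3 → ℝ} (c₁ c₂ c₃ η : ℝ) (h1 : Integrable f₁ μ)
    (h2 : Integrable f₂ μ) (h3 : Integrable f₃ μ) (h4 : Integrable f₄ μ)
    (h6 : Integrable (fun _ => η) μ) :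
    ∫ x, (c₁ * f₁ x + c₂ * f₂ x + c₃ * f₃ x - f₄ x + η) ∂μ =
      c₁ * (∫ x, f₁ x ∂μ) + c₂ * (∫ x, f₂ x ∂μ) + c₃ * (∫ x, f₃ x ∂μ) - (∫ x, f₄ x ∂μ)
        + ∫ _, η ∂μ := by
  have k1 := h1.const_mul c₁
  have k2 := h2.const_mul c₂
  have k3 := h3.const_mul c₃
  have e1 := integral_add (f := fun x => c₁ * f₁ x + c₂ * f₂ x + c₃ * f₃ x - f₄ x)
    (g := fun _ => η) (((k1.add k2).add k3).sub h4) h6
  have e2 := integral_sub (f := fun x => c₁ * f₁ x + c₂ * f₂ x + c₃ * f₃ x) (g := f₄)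
    ((k1.add k2).add k3) h4
  have e3 := integral_add (f := fun x => c₁ * f₁ x + c₂ * f₂ x) (g := fun x => c₃ * f₃ x)
    (k1.add k2) k3
  have e4 := integral_add (f := fun x => c₁ * f₁ x) (g := fun x => c₂ * f₂ x) k1 k2
  rw [e1, e2, e3, e4, integral_const_mul, integral_const_mul, integral_const_mul]

end TINTm

open TINTm in
/-- TINT: the trace divided by the radius is integrable. -/
theorem TINT (hAFD : Stmt_AFD) (hHATA : Stmt_HATA) (hDIVG : Stmt_DIVG) (hJINT : Stmt_JINT) :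
    Stmt_TINT := by
  intro g h hTE hDE hPS hFS
  have hg := hTE.metric
  have hh := hTE.tensor
  obtain ⟨C₀, hC₀, hdec, -, hell, -⟩ := hAFD g h hTE
  obtain ⟨CJ, hCJ⟩ := hJINT g h hTE hDE
  obtain ⟨K₄, hK₄0, hK₄⟩ := four
  obtain ⟨δ₀, R, hδ₀, hfar⟩ := hFS
  set C := max C₀ 1 with hC
  have hC1 : 1 ≤ C := le_max_right _ _
  have hCC : C₀ ≤ C := le_max_left _ _
  set δ := min δ₀ 1 with hδ
  have hδ0 : 0 < δ := lt_min hδ₀ one_pos
  have hδ1 : δ ≤ 1 := min_le_right _ _
  have hδδ : δ ≤ δ₀ := min_le_left _ _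
  set a := max R 1 with ha
  have ha1 : 1 ≤ a := le_max_right _ _
  have haR : R ≤ a := le_max_left _ _
  have ha0 : 0 < a := by linarith
  have ho : IsOpen ({0}ᶜ : Set E3) := isOpen_compl_singleton
  -- the bounds at a point
  have hHy : ∀ x : E3, 1 ≤ ‖x‖ → Hy C (1 / ‖x‖) g h x := by
    intro x hx
    have hx0 : x ≠ 0 := by
      rintro rfl
      rw [norm_zero] at hx
      linarith
    have hn : 0 < ‖x‖ := by linarith
    have hx' : x ∈ ({0}ᶜ : Set E3) := hx0
    have hd := hdec x hx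
    refine ⟨hC1, by positivity, ?_, MJD.pt_of ho hg hx', fun i j =>
      ((hh.smooth i j).contDiffAt (ho.mem_nhds hx')).differentiableAt (by norm_num), ?_, ?_, ?_,
      ?_, ?_⟩
    · rw [div_le_one hn]; exact hx
    · intro i j
      refine (hd i j).1.trans ?_
      rw [mul_one_div]
      exact div_le_div_of_nonneg_right hCC hn.le
    · intro k i j
      refine ((hd i j).2.1 k).trans ?_
      rw [div_pow, one_pow, mul_one_div]
      exact div_le_div_of_nonneg_right hCC (by positivity)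
    · intro i j
      refine ((hd i j).2.2.2.1).trans ?_
      rw [div_pow, one_pow, mul_one_div]
      exact div_le_div_of_nonneg_right hCC (by positivity)
    · intro k i j
      refine ((hd i j).2.2.2.2 k).trans ?_
      rw [div_pow, one_pow, mul_one_div]
      exact div_le_div_of_nonneg_right hCC (by positivity)
    · intro i j
      exact (EShell.inv_entry (hg.posDef x hx') (fun v => (hell x hx v).1) i j).trans hCC
  -- the pointwise inequality
  have hpt : ∀ η : ℝ, 0 < η → ∀ x : E3, a ≤ ‖x‖ →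
      δ * (hatF η (trg g x (h x)) * trg g x (h x) * (1 / ‖x‖)) ≤
        18 * C * jlen g h x + 351 * C ^ 2 * eEta η g h x + 3699 * C ^ 5 * (1 / ‖x‖) ^ 4
          - ∑ i, pd i (fun y => VV η g h y i) x := by
    intro η hη x hx
    have hx1 : 1 ≤ ‖x‖ := ha1.trans hx
    have hx0 : x ≠ 0 := by
      rintro rfl
      rw [norm_zero] at hx1
      linarith
    have hx' : x ∈ ({0}ᶜ : Set E3) := hx0
    have hH := hHy x hx1
    obtain ⟨hf1, hf2⟩ := hfar x (haR.trans hx)
    have hev : 0 ≤ ev (g x) (fun i => x i) (fun i => x i) := by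
      have h1 := (hell x hx1 (fun i => x i)).1
      have h2 : 0 ≤ ∑ i, (x i) ^ 2 := Finset.sum_nonneg fun i _ => sq_nonneg _
      by_contra hc
      rw [not_le] at hc
      nlinarith
    have := hH.point (hg.posDef x hx') hx0 (HATC.nsq_le hHATA hg hh hPS hx0) hη hδ0.le hδ1 rfl
      (far hx0 hη hδδ hev hf1 hf2)
    linarith
  -- the area of the unit sphere
  set A := ((volume : Measure E3).toSphere).real Set.univ with hA
  have hA0 : 0 ≤ A := measureReal_nonneg
  -- boundary terms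
  have hbd : ∀ η : ℝ, 0 < η → ∀ b : ℝ, 1 ≤ b →
      |∫ θ : Metric.sphere (0 : E3) 1, (∑ i, VV η g h (b • (θ : E3)) i * (θ : E3) i) * b ^ 2
        ∂((volume : Measure E3).toSphere)| ≤ 171 * C ^ 3 * A := by
    intro η hη b hb
    rw [← Real.norm_eq_abs]
    refine norm_integral_le_of_norm_le_const (Eventually.of_forall fun θ => ?_)
    have hb0 : 0 < b := by linarith
    have hθ : ‖(θ : E3)‖ = 1 := mem_sphere_zero_iff_norm.1 θ.2
    have hθ0 : (θ : E3) ≠ 0 := by
      intro hc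
      rw [hc, norm_zero] at hθ
      linarith
    have hnb : ‖b • (θ : E3)‖ = b := by
      rw [norm_smul, hθ, mul_one, Real.norm_of_nonneg hb0.le]
    have hne : b • (θ : E3) ≠ 0 := smul_ne_zero hb0.ne' hθ0
    have hH := hHy (b • (θ : E3)) (by rw [hnb]; exact hb)
    rw [hnb] at hH
    have hθi : ∀ i, |(θ : E3) i| ≤ 1 := by
      intro i
      have := BARBm.n_le (BARBm.nu_sq hθ0) i
      unfold BARBm.nu at this
      rwa [hθ, div_one] at this
    rw [Real.norm_eq_abs]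
    refine (BARBm.mul_le (BARBm.sum1_le fun i => BARBm.mul_le (hH.VV_le hne hη i) (hθi i))
      (le_refl |b ^ 2|)).trans (le_of_eq ?_)
    rw [abs_of_nonneg (by positivity : 0 ≤ b ^ 2)]
    field_simp
    norm_num
  -- the constant
  set K := 18 * C * |CJ| + 3699 * C ^ 5 * K₄ + 342 * C ^ 3 * A with hK
  -- the integral inequality for fixed `η`
  have hint : ∀ b : ℝ, a ≤ b → ∀ η : ℝ, 0 < η →
      δ * ∫ x in cAnn a b, |trg g x (h x)| / ‖x‖ ≤
        K + 351 * C ^ 2 * (∫ x in cAnn a b, eEta η g h x) + η * (volume (cAnn a b)).toReal := by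
    intro b hab η hη
    have hKc := EEtaAux.isCompact_cAnn a b
    have hms := hKc.measurableSet
    have hVc : ∀ i, ∀ x : E3, x ≠ 0 → ContinuousAt (pd i (fun y => VV η g h y i)) x :=
      fun i x hx => EEtaAux.cont_pd (VV_smooth hg hh hx hη i) i
    have i1 : IntegrableOn (fun x => jlen g h x) (cAnn a b) :=
      integrable_cAnn ha0 fun x hx => cont_jlen hg hh hx
    have i2 : IntegrableOn (fun x => eEta η g h x) (cAnn a b) :=
      integrable_cAnn ha0 fun x hx => EEtaAux.cont_eEta hg hh hη hx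
    have i3 : IntegrableOn (fun x : E3 => (1 / ‖x‖) ^ 4) (cAnn a b) :=
      integrable_cAnn ha0 fun x hx =>
        ((continuousAt_const.div continuousAt_id.norm (norm_ne_zero_iff.2 hx)).pow 4)
    have i4 : IntegrableOn (fun x => ∑ i, pd i (fun y => VV η g h y i) x) (cAnn a b) :=
      integrable_cAnn ha0 fun x hx => tendsto_finsetSum _ fun i _ => hVc i x hx
    have i5 : IntegrableOn (fun x => |trg g x (h x)| / ‖x‖) (cAnn a b) :=
      integrable_cAnn ha0 fun x hx => (EEtaAux.cd_tr hg hh hx).continuousAt.abs.div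
        continuousAt_id.norm (norm_ne_zero_iff.2 hx)
    have i6 : IntegrableOn (fun _ : E3 => η) (cAnn a b) := by
      exact integrableOn_const hKc.measure_lt_top.ne
    have h1 : ∫ x in cAnn a b, δ * (|trg g x (h x)| / ‖x‖) ≤
        ∫ x in cAnn a b, (18 * C * jlen g h x + 351 * C ^ 2 * eEta η g h x
          + 3699 * C ^ 5 * (1 / ‖x‖) ^ 4 - ∑ i, pd i (fun y => VV η g h y i) x + η) := by
      refine setIntegral_mono_on (i5.const_mul δ) (((((i1.const_mul _).add (i2.const_mul _)).add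
        (i3.const_mul _)).sub i4).add i6) hms fun x hx => ?_
      have h2 := hpt η hη x hx.1
      have h3 := abs_le_hat hη (trg g x (h x))
      have hx1 : 1 ≤ ‖x‖ := ha1.trans hx.1
      have h4 : |trg g x (h x)| / ‖x‖ ≤
          hatF η (trg g x (h x)) * trg g x (h x) * (1 / ‖x‖) + η := by
        have h5 : |trg g x (h x)| / ‖x‖ ≤ (hatF η (trg g x (h x)) * trg g x (h x) + η) / ‖x‖ :=
          div_le_div_of_nonneg_right h3 (by positivity)
        have h6 : η / ‖x‖ ≤ η := div_le_self hη.le hx1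
        have h7 : (hatF η (trg g x (h x)) * trg g x (h x) + η) / ‖x‖ =
          hatF η (trg g x (h x)) * trg g x (h x) * (1 / ‖x‖) + η / ‖x‖ := by ring
        linarith
      have h8 := mul_le_mul_of_nonneg_left h4 hδ0.le
      have h9 : δ * η ≤ η := by nlinarith
      have h10 : δ * (hatF η (trg g x (h x)) * trg g x (h x) * (1 / ‖x‖) + η) =
        δ * (hatF η (trg g x (h x)) * trg g x (h x) * (1 / ‖x‖)) + δ * η := by ring
      linarith
    have e1 : ∫ x in cAnn a b, (18 * C * jlen g h x + 351 * C ^ 2 * eEta η g h x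
          + 3699 * C ^ 5 * (1 / ‖x‖) ^ 4 - ∑ i, pd i (fun y => VV η g h y i) x + η) =
        18 * C * (∫ x in cAnn a b, jlen g h x) + 351 * C ^ 2 * (∫ x in cAnn a b, eEta η g h x)
          + 3699 * C ^ 5 * (∫ x in cAnn a b, (1 / ‖x‖) ^ 4)
          - (∫ x in cAnn a b, ∑ i, pd i (fun y => VV η g h y i) x)
          + η * (volume (cAnn a b)).toReal := by
      rw [int5 _ _ _ η i1 i2 i3 i4 i6, setIntegral_const, smul_eq_mul, mul_comm _ η]
      rfl
    rw [integral_const_mul, e1] at h1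
    -- the divergence
    have h2 := hDIVG (VV η g h) a b ha0 hab fun x hx i =>
      (VV_smooth hg hh (ne_zero_of_mem ha0 hx) hη i).of_le (by norm_num)
    have h3 := abs_le.1 (hbd η hη b (ha1.trans hab))
    have h4 := abs_le.1 (hbd η hη a ha1)
    have h5 : -(∫ x in cAnn a b, ∑ i, pd i (fun y => VV η g h y i) x) ≤ 342 * C ^ 3 * A := by
      rw [h2]
      linarith [h3.1, h4.2]
    -- the momentum density
    have h6 : ∫ x in cAnn a b, jlen g h x ≤ |CJ| := by
      refine le_trans ?_ ((hCJ b (ha1.trans hab)).trans (le_abs_self _))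
      refine setIntegral_mono_set ?_ ?_ ?_
      · exact integrable_cAnn one_pos fun x hx => cont_jlen hg hh hx
      · exact Eventually.of_forall fun x => Real.sqrt_nonneg _
      · exact LE.le.eventuallyLE fun x hx => ⟨ha1.trans hx.1, hx.2⟩
    have h7 := hK₄ b a ha1
    have h8 := mul_le_mul_of_nonneg_left h6 (by positivity : 0 ≤ 18 * C)
    have h9 := mul_le_mul_of_nonneg_left h7 (by positivity : 0 ≤ 3699 * C ^ 5)
    rw [hK]
    linarith
  -- the limit `η → 0`
  have hbnd : ∀ b : ℝ, a ≤ b → ∫ x in cAnn a b, |trg g x (h x)| / ‖x‖ ≤ K / δ := by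
    intro b hab
    have hKc := EEtaAux.isCompact_cAnn a b
    have hcont : ContinuousOn (fun y => len g y (grad (fun z => trg g z (h z)) y)) (cAnn a b) :=
      fun x hx => (EEtaAux.cont_len hg hh (ne_zero_of_mem ha0 hx)).continuousWithinAt
    obtain ⟨B, hB⟩ := hKc.exists_bound_of_continuousOn hcont
    have hlim : Tendsto (fun n : ℕ => ∫ x in cAnn a b, eEta (1 / ((n : ℝ) + 1)) g h x)
        atTop (𝓝 (∫ x in cAnn a b, (0 : ℝ))) := by
      refine tendsto_integral_of_dominated_convergence (fun _ => (1 / 2 + 2 * |B|)) ?_ ?_ ?_ ?_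
      · intro n
        have h1 : (0 : ℝ) < 1 / ((n : ℝ) + 1) := by positivity
        exact (integrable_cAnn ha0 fun x hx =>
          EEtaAux.cont_eEta hg hh h1 hx).aestronglyMeasurable
      · have : IntegrableOn (fun _ : E3 => (1 / 2 + 2 * |B|)) (cAnn a b) volume :=
          integrableOn_const hKc.measure_lt_top.ne
        exact this
      · intro n
        rw [ae_restrict_iff' hKc.measurableSet]
        refine Eventually.of_forall fun x hx => ?_
        have h1 : (0 : ℝ) < 1 / ((n : ℝ) + 1) := by positivity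
        have h2 : 1 / ((n : ℝ) + 1) ≤ 1 := by
          rw [div_le_one (by positivity)]
          have : (0 : ℝ) ≤ n := Nat.cast_nonneg n
          linarith
        have h3 := EEtaAux.eEta_le (g := g) (h := h) h1 h2 x
        have h4 := hB x hx
        rw [Real.norm_eq_abs] at h4
        rw [Real.norm_eq_abs, abs_of_nonneg (EEtaAux.eEta_nonneg _ x)]
        have h5 := (le_abs_self _).trans (h4.trans (le_abs_self B))
        linarith
      · exact Eventually.of_forall fun x => EEtaAux.tendsto_eEta x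
    rw [integral_zero] at hlim
    have h0 : Tendsto (fun n : ℕ => 1 / ((n : ℝ) + 1)) atTop (𝓝 0) :=
      tendsto_one_div_add_atTop_nhds_zero_nat
    have hlim2 : Tendsto (fun n : ℕ => K
        + 351 * C ^ 2 * (∫ x in cAnn a b, eEta (1 / ((n : ℝ) + 1)) g h x)
        + 1 / ((n : ℝ) + 1) * (volume (cAnn a b)).toReal) atTop
        (𝓝 (K + 351 * C ^ 2 * 0 + 0 * (volume (cAnn a b)).toReal)) :=
      (tendsto_const_nhds.add (hlim.const_mul _)).add (h0.mul_const _)
    have h1 := ge_of_tendsto' hlim2 fun n => hint b hab _ (by positivity)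
    rw [le_div_iff₀ hδ0]
    linarith
  -- integrability
  have hcont : ∀ x : E3, x ≠ 0 → ContinuousAt (fun x => |trg g x (h x)| / ‖x‖) x :=
    fun x hx => (EEtaAux.cd_tr hg hh hx).continuousAt.abs.div
        continuousAt_id.norm (norm_ne_zero_iff.2 hx)
  have hI : IntegrableOn (fun x => |trg g x (h x)| / ‖x‖) {x : E3 | a ≤ ‖x‖} := by
    have hcov : AECover (volume.restrict {x : E3 | a ≤ ‖x‖}) atTop
        (fun n : ℕ => Metric.closedBall (0 : E3) (n : ℝ)) :=
      aecover_closedBall tendsto_natCast_atTop_atTop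
    have hset : ∀ n : ℕ, Metric.closedBall (0 : E3) (n : ℝ) ∩ {x : E3 | a ≤ ‖x‖} =
        cAnn a n := by
      intro n
      ext x
      simp only [cAnn, Set.mem_inter_iff, Metric.mem_closedBall, dist_zero_right]
      exact and_comm
    have hres : ∀ n : ℕ, (volume.restrict {x : E3 | a ≤ ‖x‖}).restrict
        (Metric.closedBall (0 : E3) (n : ℝ)) = volume.restrict (cAnn a n) := by
      intro n
      rw [Measure.restrict_restrict Metric.isClosed_closedBall.measurableSet, hset]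
    refine hcov.integrable_of_integral_bounded_of_nonneg_ae (K / δ) ?_ ?_ ?_
    · intro n
      unfold IntegrableOn
      rw [hres]
      exact integrable_cAnn ha0 hcont
    · exact Eventually.of_forall fun x => by positivity
    · filter_upwards [eventually_ge_atTop ⌈a⌉₊] with n hn
      rw [hres]
      exact hbnd n ((Nat.le_ceil a).trans (by exact_mod_cast hn))
  have hI2 : IntegrableOn (fun x => |trg g x (h x)| / ‖x‖) (cAnn 1 a) :=
    integrable_cAnn one_pos hcont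
  refine (hI2.union hI).mono_set fun x hx => ?_
  rcases le_total ‖x‖ a with h1 | h1
  · exact Or.inl ⟨hx, h1⟩
  · exact Or.inr h1

end Pool.Agent.PFlow


end
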