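import Mathlib
import Pool.Agent.PFlow.StmtsE2
import Pool.Agent.PFlow.StmtsE3
import Pool.Agent.PFlow.StmtsE4
import Pool.Agent.PFlow.StmtsM
import Pool.Agent.PenroseM.C03
import Pool.Agent.PenroseM.C12

/-! Parts: PFlow.G.CHX, PFlow.M_FR, PFlow.M_LSG, PFlow.E.ABSF, PFlow.E.LIMK2, PFlow.E.MODM, PFlow.E.PTD -/

section

/-!
# CHX: elementary properties of charts
-/

open MeasureTheory Filter Topology
open scoped ContDiff

namespace Pool.Agent.PFlow.GB

open Pool.Agent.PenroseSph Pool.Agent.PFlow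

namespace CHX

variable {V : Set E3} {W : E3 → ℝ} {Φ : E3 → E3} {z0 : E3} {r e : ℝ}

lemma continuous_coord (i : Fin 3) : Continuous fun z : E3 => z i := by fun_prop

lemma isClosed_box (z0 : E3) (r e : ℝ) : IsClosed (box z0 r e) := by
  have h : ∀ (i : Fin 3) (c : ℝ), IsClosed {z : E3 | |z i - z0 i| ≤ c} := by
    intro i c
    exact isClosed_le (by fun_prop) continuous_const
  have e1 : box z0 r e = {z : E3 | |z 0 - z0 0| ≤ r} ∩ ({z : E3 | |z 1 - z0 1| ≤ r} ∩
      {z : E3 | |z 2 - z0 2| ≤ e}) := rfl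
  rw [e1]
  exact (h 0 r).inter ((h 1 r).inter (h 2 e))

lemma norm_le_box {z : E3} (hz : z ∈ box z0 r e) : ‖z - z0‖ ≤ r + r + e := by
  obtain ⟨h0, h1, h2⟩ := hz
  have hr : 0 ≤ r := (abs_nonneg _).trans h0
  have he : 0 ≤ e := (abs_nonneg _).trans h2
  rw [EuclideanSpace.norm_eq, Fin.sum_univ_three]
  have e1 : ‖(z - z0) 0‖ ≤ r := h0
  have e2 : ‖(z - z0) 1‖ ≤ r := h1
  have e3 : ‖(z - z0) 2‖ ≤ e := h2
  have n1 := norm_nonneg ((z - z0) 0)
  have n2 := norm_nonneg ((z - z0) 1)
  have n3 := norm_nonneg ((z - z0) 2)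
  refine Real.sqrt_le_iff.mpr ⟨by positivity, ?_⟩
  have a1 : ‖(z - z0) 0‖ ^ 2 ≤ r ^ 2 := pow_le_pow_left₀ n1 e1 2
  have a2 : ‖(z - z0) 1‖ ^ 2 ≤ r ^ 2 := pow_le_pow_left₀ n2 e2 2
  have a3 : ‖(z - z0) 2‖ ^ 2 ≤ e ^ 2 := pow_le_pow_left₀ n3 e3 2
  nlinarith [mul_nonneg hr hr, mul_nonneg hr he]

lemma isCompact_box (z0 : E3) (r e : ℝ) : IsCompact (box z0 r e) := by
  refine Metric.isCompact_of_isClosed_isBounded (isClosed_box z0 r e) ?_
  refine (Metric.isBounded_closedBall (x := z0) (r := r + r + e)).subset ?_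
  intro z hz
  rw [Metric.mem_closedBall, dist_eq_norm]
  exact norm_le_box hz

lemma obox_subset (z0 : E3) (r e : ℝ) : obox z0 r e ⊆ box z0 r e :=
  fun _ hz => ⟨hz.1.le, hz.2.1.le, hz.2.2.le⟩

lemma convex_box (z0 : E3) (r e : ℝ) : Convex ℝ (box z0 r e) := by
  intro x hx y hy a b ha hb hab
  have key : ∀ (i : Fin 3) (c : ℝ), |x i - z0 i| ≤ c → |y i - z0 i| ≤ c →
      |(a • x + b • y) i - z0 i| ≤ c := by
    intro i c h1 h2
    have e1 : (a • x + b • y) i - z0 i = a * (x i - z0 i) + b * (y i - z0 i) := by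
      have : (a • x + b • y) i = a * x i + b * y i := rfl
      rw [this]
      have hz : z0 i = (a + b) * z0 i := by rw [hab, one_mul]
      conv_lhs => rw [hz]
      ring
    rw [e1]
    calc |a * (x i - z0 i) + b * (y i - z0 i)| ≤ |a * (x i - z0 i)| + |b * (y i - z0 i)| :=
          abs_add_le _ _
      _ = a * |x i - z0 i| + b * |y i - z0 i| := by
          rw [abs_mul, abs_mul, abs_of_nonneg ha, abs_of_nonneg hb]
      _ ≤ a * c + b * c := by gcongr
      _ = c := by rw [← add_mul, hab, one_mul]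
  exact ⟨key 0 r hx.1 hy.1, key 1 r hx.2.1 hy.2.1, key 2 e hx.2.2 hy.2.2⟩

lemma lin_decomp (L : E3 →L[ℝ] ℝ) (T : E3) :
    L T = ∑ i, T i * L (EuclideanSpace.single i 1) := by
  have h : T = ∑ i, T i • EuclideanSpace.single i (1 : ℝ) := by
    have := (EuclideanSpace.basisFun (Fin 3) ℝ).sum_repr T
    simpa using this.symm
  conv_lhs => rw [h]
  rw [map_sum]
  refine Finset.sum_congr rfl fun i _ => ?_
  rw [map_smul, smul_eq_mul]

/-- a map with invertible strict derivative is expansive near the point -/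
lemma local_lower {f : E3 → E3} {f' : E3 →L[ℝ] E3} {z : E3} (hf : HasStrictFDerivAt f f' z)
    (hd : f'.det ≠ 0) : ∃ c : ℝ, 0 < c ∧ ∀ᶠ q : E3 × E3 in 𝓝 (z, z),
      c * ‖q.1 - q.2‖ ≤ ‖f q.1 - f q.2‖ := by
  set E := f'.toContinuousLinearEquivOfDetNeZero hd with hE
  have hEc : ∀ v, E v = f' v := fun v => rfl
  set M : ℝ := ‖(E.symm : E3 →L[ℝ] E3)‖ + 1 with hM
  have hM0 : 0 < M := by positivity
  have hinv : ∀ v : E3, ‖v‖ ≤ M * ‖f' v‖ := by
    intro v
    have h1 : E.symm (E v) = v := E.symm_apply_apply v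
    calc ‖v‖ = ‖(E.symm : E3 →L[ℝ] E3) (E v)‖ := by rw [ContinuousLinearEquiv.coe_coe, h1]
      _ ≤ ‖(E.symm : E3 →L[ℝ] E3)‖ * ‖E v‖ := ContinuousLinearMap.le_opNorm _ _
      _ ≤ M * ‖f' v‖ := by
          rw [hEc]
          apply mul_le_mul_of_nonneg_right _ (norm_nonneg _)
          rw [hM]
          linarith
  refine ⟨1 / (2 * M), by positivity, ?_⟩
  have hlo := hf.isLittleO.def (show 0 < 1 / (2 * M) by positivity)
  filter_upwards [hlo] with q hq
  have h1 := hinv (q.1 - q.2)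
  have h2 : ‖f' (q.1 - q.2)‖ ≤ ‖f q.1 - f q.2‖ + ‖f q.1 - f q.2 - f' (q.1 - q.2)‖ := by
    have : f' (q.1 - q.2) = (f q.1 - f q.2) - (f q.1 - f q.2 - f' (q.1 - q.2)) := by abel
    conv_lhs => rw [this]
    exact norm_sub_le _ _
  have h3 : 1 / M * ‖q.1 - q.2‖ ≤ ‖f' (q.1 - q.2)‖ := by
    rw [one_div, inv_mul_le_iff₀ hM0]
    exact h1
  have h4 : 1 / M * ‖q.1 - q.2‖ = 1 / (2 * M) * ‖q.1 - q.2‖ + 1 / (2 * M) * ‖q.1 - q.2‖ := by
    field_simp
    ring
  linarith

/-- an injective immersion is bi-Lipschitz from below on compact sets -/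
lemma lower {f : E3 → E3} {N K : Set E3} (hK : IsCompact K) (hKN : K ⊆ N) (hN : IsOpen N)
    (hf : ContDiffOn ℝ ∞ f N) (hi : Set.InjOn f N) (hd : ∀ z ∈ N, (fderiv ℝ f z).det ≠ 0) :
    ∃ c : ℝ, 0 < c ∧ ∀ z ∈ K, ∀ z' ∈ K, c * dist z z' ≤ dist (f z) (f z') := by
  have hcomp : IsCompact (K ×ˢ K) := hK.prod hK
  have key : ∃ c : ℝ, 0 < c ∧ ∀ q ∈ K ×ˢ K, c * dist q.1 q.2 ≤ dist (f q.1) (f q.2) := by
    refine hcomp.induction_on (p := fun S => ∃ c : ℝ, 0 < c ∧ ∀ q ∈ S,
      c * dist q.1 q.2 ≤ dist (f q.1) (f q.2)) ?_ ?_ ?_ ?_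
    · exact ⟨1, one_pos, fun q hq => absurd hq (Set.notMem_empty q)⟩
    · rintro s t hst ⟨c, hc, h⟩
      exact ⟨c, hc, fun q hq => h q (hst hq)⟩
    · rintro s t ⟨c, hc, h⟩ ⟨c', hc', h'⟩
      refine ⟨min c c', lt_min hc hc', ?_⟩
      rintro q (hq | hq)
      · exact (mul_le_mul_of_nonneg_right (min_le_left _ _) dist_nonneg).trans (h q hq)
      · exact (mul_le_mul_of_nonneg_right (min_le_right _ _) dist_nonneg).trans (h' q hq)
    · rintro ⟨z, z'⟩ ⟨hz, hz'⟩
      have hz1 : z ∈ K := hz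
      have hz2 : z' ∈ K := hz'
      by_cases hzz : z = z'
      · subst hzz
        have hs : HasStrictFDerivAt f (fderiv ℝ f z) z :=
          (hf.contDiffAt (hN.mem_nhds (hKN hz1))).hasStrictFDerivAt (by simp)
        obtain ⟨c, hc, h⟩ := local_lower hs (hd z (hKN hz1))
        refine ⟨_, mem_nhdsWithin_of_mem_nhds h, c, hc, ?_⟩
        intro q hq
        rw [dist_eq_norm, dist_eq_norm]
        exact hq
      · have hne : f z ≠ f z' := fun h => hzz (hi (hKN hz1) (hKN hz2) h)
        have hpos : 0 < dist (f z) (f z') := dist_pos.mpr hne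
        have hfc : ∀ w ∈ K, ContinuousAt f w := fun w hw =>
          (hf.contDiffAt (hN.mem_nhds (hKN hw))).continuousAt
        have hc1 : ContinuousAt (fun q : E3 × E3 => dist (f q.1) (f q.2)) (z, z') := by
          have t1 : Tendsto (fun q : E3 × E3 => f q.1) (𝓝 (z, z')) (𝓝 (f z)) :=
            (hfc z hz1).tendsto.comp (continuousAt_fst (p := (z, z')))
          have t2 : Tendsto (fun q : E3 × E3 => f q.2) (𝓝 (z, z')) (𝓝 (f z')) :=
            (hfc z' hz2).tendsto.comp (continuousAt_snd (p := (z, z')))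
          exact t1.dist t2
        have hc2 : ContinuousAt (fun q : E3 × E3 => dist q.1 q.2) (z, z') := by fun_prop
        have h1 : ∀ᶠ q : E3 × E3 in 𝓝 (z, z'), dist (f z) (f z') / 2 < dist (f q.1) (f q.2) :=
          hc1.eventually_const_lt (by simpa using half_lt_self hpos)
        have h2 : ∀ᶠ q : E3 × E3 in 𝓝 (z, z'), dist q.1 q.2 < dist z z' + 1 :=
          hc2.eventually_lt_const (by simp)
        refine ⟨_, mem_nhdsWithin_of_mem_nhds (h1.and h2),
          dist (f z) (f z') / 2 / (dist z z' + 1), by positivity, ?_⟩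
        rintro q ⟨hq1, hq2⟩
        have hD : 0 < dist z z' + 1 := by positivity
        calc dist (f z) (f z') / 2 / (dist z z' + 1) * dist q.1 q.2
            ≤ dist (f z) (f z') / 2 / (dist z z' + 1) * (dist z z' + 1) := by gcongr
          _ = dist (f z) (f z') / 2 := by field_simp
          _ ≤ dist (f q.1) (f q.2) := hq1.le
  obtain ⟨c, hc, h⟩ := key
  exact ⟨c, hc, fun z hz z' hz' => h (z, z') ⟨hz, hz'⟩⟩

end CHX

open CHX in
/-- CHX: elementary properties of charts. -/
theorem CHX (hALG : Stmt_ALG) (hSMO : Stmt_SMO) : Stmt_CHX := by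
  intro V a b g W hF Φ z0 r e hC
  obtain ⟨N, hNo, hbN, hΦ, hinj, hmap, hdet, hW⟩ := hC.nbhd
  have hr := hC.r_pos
  have he := hC.e_pos
  have hcomp := isCompact_box z0 r e
  have hz0 : z0 ∈ box z0 r e := by
    refine ⟨?_, ?_, ?_⟩ <;> simp [hr.le, he.le]
  have hne : (box z0 r e).Nonempty := ⟨z0, hz0⟩
  have hreg : ∀ z ∈ N, Reg g W (Φ z) := fun z hz => hF.reg (hmap hz)
  have hcont : ContinuousOn Φ N := hΦ.continuousOn
  have hdiff : ∀ z ∈ N, ContDiffAt ℝ ∞ Φ z := fun z hz => hΦ.contDiffAt (hNo.mem_nhds hz)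
  have hder : ∀ z ∈ N, HasFDerivAt Φ (fderiv ℝ Φ z) z := fun z hz =>
    ((hdiff z hz).differentiableAt (by simp)).hasFDerivAt
  have hfd : ContinuousOn (fderiv ℝ Φ) N := hΦ.continuousOn_fderiv_of_isOpen hNo (by simp)
  -- the two end points
  have hpt : ∀ s : ℝ, |s - z0 2| ≤ e → ∃ z ∈ box z0 r e, z 2 = s := by
    intro s hs
    refine ⟨pt (z0 0) (z0 1) s, ?_, rfl⟩
    refine ⟨?_, ?_, ?_⟩
    · show |z0 0 - z0 0| ≤ r
      simp [hr.le]
    · show |z0 1 - z0 1| ≤ r
      simp [hr.le]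
    · exact hs
  have hends : a < z0 2 - e ∧ z0 2 + e < b := by
    constructor
    · obtain ⟨z, hz, hz2⟩ := hpt (z0 2 - e) (by
        have : z0 2 - e - z0 2 = -e := by ring
        rw [this, abs_neg, abs_of_pos he])
      have := (hF.mapsTo _ (hmap (hbN hz))).1
      rwa [hW z (hbN hz), hz2] at this
    · obtain ⟨z, hz, hz2⟩ := hpt (z0 2 + e) (by
        have : z0 2 + e - z0 2 = e := by ring
        rw [this, abs_of_pos he])
      have := (hF.mapsTo _ (hmap (hbN hz))).2
      rwa [hW z (hbN hz), hz2] at this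
  have himV : Φ '' box z0 r e ⊆ V := by
    rintro _ ⟨z, hz, rfl⟩
    exact hmap (hbN hz)
  -- images of open sets
  have hopen : ∀ S : Set E3, IsOpen S → S ⊆ obox z0 r e → IsOpen (Φ '' S) := by
    intro S hS hSb
    rw [isOpen_iff_mem_nhds]
    rintro _ ⟨z, hz, rfl⟩
    have hzN : z ∈ N := hbN (obox_subset z0 r e (hSb hz))
    have hs : HasStrictFDerivAt Φ (fderiv ℝ Φ z) z := (hdiff z hzN).hasStrictFDerivAt (by simp)
    have hs' : HasStrictFDerivAt Φ
        (((fderiv ℝ Φ z).toContinuousLinearEquivOfDetNeZero (hdet z hzN) : E3 ≃L[ℝ] E3) :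
          E3 →L[ℝ] E3) z := hs
    rw [← hs'.map_nhds_eq_of_equiv]
    exact image_mem_map (hS.mem_nhds hz)
  -- change of variables
  have hcv : ∀ (S : Set E3) (F : E3 → ℝ), MeasurableSet S → S ⊆ box z0 r e →
      ∫ x in Φ '' S, F x * dens g W x = ∫ z in S, F (Φ z) * jac g W Φ z := by
    intro S F hS hSb
    rw [integral_image_eq_integral_abs_det_fderiv_smul volume hS
      (fun z hz => (hder z (hbN (hSb hz))).hasFDerivWithinAt) (hinj.mono (hSb.trans hbN))]
    refine integral_congr_ae (Filter.Eventually.of_forall fun z => ?_)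
    simp only [jac, smul_eq_mul]
    ring
  have hci : ∀ (S : Set E3) (F : E3 → ℝ), MeasurableSet S → S ⊆ box z0 r e →
      (IntegrableOn (fun x => F x * dens g W x) (Φ '' S) ↔
        IntegrableOn (fun z => F (Φ z) * jac g W Φ z) S) := by
    intro S F hS hSb
    rw [integrableOn_image_iff_integrableOn_abs_det_fderiv_smul volume hS
      (fun z hz => (hder z (hbN (hSb hz))).hasFDerivWithinAt) (hinj.mono (hSb.trans hbN))]
    have : (fun z => |(fderiv ℝ Φ z).det| • (F (Φ z) * dens g W (Φ z)))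
        = fun z => F (Φ z) * jac g W Φ z := by
      funext z
      simp only [jac, smul_eq_mul]
      ring
    rw [this]
  -- the Jacobian
  have hjc : ContinuousOn (jac g W Φ) N := by
    intro z hz
    have h1 : ContinuousAt (dens g W) (Φ z) := by
      have := (hSMO.2 g W (Φ z) (hreg z hz)).2.2.2.2.2.2.2.2.1
      exact this.continuousAt
    have h2 : ContinuousWithinAt Φ N z := hcont z hz
    have h3 : ContinuousWithinAt (fun z => dens g W (Φ z)) N z := h1.comp_continuousWithinAt h2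
    have h4 : ContinuousWithinAt (fun z => (fderiv ℝ Φ z).det) N z :=
      ContinuousLinearMap.continuous_det.continuousAt.comp_continuousWithinAt (hfd z hz)
    exact h3.mul h4.abs
  have hjb : ContinuousOn (jac g W Φ) (box z0 r e) := hjc.mono hbN
  have hjpos : ∀ z ∈ N, 0 < jac g W Φ z := by
    intro z hz
    exact mul_pos (hSMO.2 g W (Φ z) (hreg z hz)).2.2.2.1 (abs_pos.mpr (hdet z hz))
  obtain ⟨zm, hzm, hmin⟩ := hcomp.exists_isMinOn hne hjb
  obtain ⟨C1, hC1⟩ := hcomp.exists_bound_of_continuousOn hjb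
  -- tangent vectors
  have hTan : ∀ k : Fin 3, k ≠ 2 → ∃ C : ℝ, 0 ≤ C ∧ ∀ z ∈ box z0 r e, ∀ v : E3 → ℝ,
      DifferentiableAt ℝ v (Φ z) →
        |pd k (fun y => v (Φ y)) z| ≤ C * Real.sqrt (lin g W v v (Φ z)) := by
    intro k hk
    have hgc : ContinuousOn (fun z => ev (g (Φ z)) (fun i => fderiv ℝ Φ z (EuclideanSpace.single k 1) i)
        (fun i => fderiv ℝ Φ z (EuclideanSpace.single k 1) i)) (box z0 r e) := by
      unfold ev
      refine continuousOn_finset_sum _ fun i _ => continuousOn_finset_sum _ fun j _ => ?_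
      have h1 : ContinuousOn (fun z => g (Φ z) i j) (box z0 r e) := by
        intro z hz
        have h2 : ContinuousAt (fun y => g y i j) (Φ z) :=
          ((hSMO.2 g W (Φ z) (hreg z (hbN hz))).2.2.2.2.1 i j).continuousAt
        exact h2.comp_continuousWithinAt ((hcont.mono hbN) z hz)
      have h3 : ∀ i : Fin 3, ContinuousOn
          (fun z => fderiv ℝ Φ z (EuclideanSpace.single k 1) i) (box z0 r e) := by
        intro i
        have h4 : ContinuousOn (fun z => fderiv ℝ Φ z (EuclideanSpace.single k 1)) (box z0 r e) :=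
          (hfd.mono hbN).clm_apply continuousOn_const
        exact (continuous_coord i).comp_continuousOn h4
      exact (h1.mul (h3 i)).mul (h3 j)
    obtain ⟨B, hB⟩ := hcomp.exists_bound_of_continuousOn hgc
    refine ⟨Real.sqrt B, Real.sqrt_nonneg _, ?_⟩
    intro z hz v hv
    have hzN := hbN hz
    set x := Φ z with hx
    set T : E3 := fderiv ℝ Φ z (EuclideanSpace.single k 1) with hT
    have hchain : ∀ f : E3 → ℝ, DifferentiableAt ℝ f x →
        pd k (fun y => f (Φ y)) z = ∑ i, grad f x i * T i := by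
      intro f hf
      have h1 : HasFDerivAt (fun y => f (Φ y)) ((fderiv ℝ f x).comp (fderiv ℝ Φ z)) z :=
        hf.hasFDerivAt.comp z (hder z hzN)
      unfold pd
      rw [h1.fderiv, ContinuousLinearMap.comp_apply, lin_decomp]
      refine Finset.sum_congr rfl fun i _ => ?_
      unfold grad pd
      ring
    have hWd : DifferentiableAt ℝ W x :=
      (hF.contDiffAt (hmap hzN)).differentiableAt (by simp)
    have htan : ∑ i, T i * grad W x i = 0 := by
      have h1 := hchain W hWd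
      have h2 : pd k (fun y => W (Φ y)) z = 0 := by
        have h3 : (fun y => W (Φ y)) =ᶠ[𝓝 z] fun y => y 2 := by
          filter_upwards [hNo.mem_nhds hzN] with y hy
          exact hW y hy
        unfold pd
        rw [h3.fderiv_eq]
        have h4 : HasFDerivAt (fun y : E3 => y 2) (EuclideanSpace.proj (𝕜 := ℝ) (2 : Fin 3)) z :=
          (EuclideanSpace.proj (𝕜 := ℝ) (2 : Fin 3) : E3 →L[ℝ] ℝ).hasFDerivAt
        rw [h4.fderiv]
        simp [EuclideanSpace.single_apply, Ne.symm hk]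
      rw [h2] at h1
      rw [h1]
      refine Finset.sum_congr rfl fun i _ => ?_
      ring
    have halg := hALG g x (grad W x) (hF.metric.posDef x (hmap hzN)) (hF.regular x (hmap hzN))
    have hlast := halg.2.2.2.2.2.2.2.2.2.2.2.2.2.2 (grad v x) (fun i => T i) htan
    have hlip0 : 0 ≤ lin g W v v x := halg.2.2.2.2.2.2.2.2.2.2.2.1 (grad v x)
    rw [hchain v hv]
    have hB' : ev (g x) (fun i => T i) (fun i => T i) ≤ B := (le_abs_self _).trans (hB z hz)
    have h5 : (∑ i, grad v x i * T i) ^ 2 ≤ lin g W v v x * B :=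
      hlast.trans (mul_le_mul_of_nonneg_left hB' hlip0)
    have h6 := Real.abs_le_sqrt h5
    rw [Real.sqrt_mul hlip0, mul_comm] at h6
    exact h6
  obtain ⟨C2, hC2, hT0⟩ := hTan 0 (by decide)
  obtain ⟨C3, hC3, hT1⟩ := hTan 1 (by decide)
  -- bi-Lipschitz bounds
  obtain ⟨c1, hc1, hlow⟩ := lower hcomp hbN hNo hΦ hinj hdet
  obtain ⟨C4, hC4⟩ := hcomp.exists_bound_of_continuousOn (hfd.mono hbN)
  have hup : ∀ z ∈ box z0 r e, ∀ z' ∈ box z0 r e, dist (Φ z) (Φ z') ≤ C4 * dist z z' := by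
    intro z hz z' hz'
    rw [dist_eq_norm, dist_eq_norm]
    exact Convex.norm_image_sub_le_of_norm_hasFDerivWithin_le
      (fun y hy => (hder y (hbN hy)).hasFDerivWithinAt) hC4 (convex_box z0 r e) hz' hz
  have hC4' : 0 ≤ C4 := (norm_nonneg _).trans (hC4 z0 hz0)
  have hC1' : 0 ≤ C1 := (norm_nonneg _).trans (hC1 z0 hz0)
  refine ⟨hends.1, hends.2, hcomp.image_of_continuousOn (hcont.mono hbN), himV, hopen, hcv, hci,
    hjb, min (jac g W Φ zm) c1, C1 + C2 + C3 + C4 + 1, lt_min (hjpos zm (hbN hzm)) hc1,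
    by positivity, ?_, ?_⟩
  · intro z hz
    refine ⟨(min_le_left _ _).trans (hmin hz), ?_, ?_⟩
    · have := (le_abs_self _).trans (hC1 z hz)
      linarith
    · intro v hv
      have hs := Real.sqrt_nonneg (lin g W v v (Φ z))
      constructor
      · refine (hT0 z hz v hv).trans (mul_le_mul_of_nonneg_right ?_ hs)
        linarith
      · refine (hT1 z hz v hv).trans (mul_le_mul_of_nonneg_right ?_ hs)
        linarith
  · intro z hz z' hz'
    have hd := dist_nonneg (x := z) (y := z')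
    constructor
    · exact (mul_le_mul_of_nonneg_right (min_le_right _ _) hd).trans (hlow z hz z' hz')
    · refine (hup z hz z' hz').trans (mul_le_mul_of_nonneg_right ?_ hd)
      linarith

end Pool.Agent.PFlow.GB


end

section

set_option autoImplicit false

namespace Pool.Agent.PFlow

open Pool.Agent.PenroseSph

private theorem fr_entry (A : Bil) (i j : Fin 3) :
    (A * A.transpose) i j = A i 0 * A j 0 + A i 1 * A j 1 + A i 2 * A j 2 := by
  rw [Matrix.mul_apply, Fin.sum_univ_three]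
  rfl

private theorem plm_entry (A H : Bil) (i j : Fin 3) :
    plm A H i j = ∑ k, ∑ l, A k i * H k l * A l j := by
  unfold plm
  rw [Matrix.mul_apply]
  simp only [Matrix.mul_apply, Matrix.transpose_apply, Finset.sum_mul]
  exact Finset.sum_comm

private theorem fr_dd (A H K : Bil) :
    dd (A * A.transpose) H K = ∑ i, ∑ j, plm A H i j * plm A K i j := by
  have h1 : ∀ i j k l : Fin 3, (A * A.transpose) i k * (A * A.transpose) j l * H i j * K k l
      = ∑ m, ∑ n, (A i m * H i j * A j n) * (A k m * K k l * A l n) := by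
    intro i j k l
    simp only [fr_entry, Fin.sum_univ_three]
    ring
  unfold dd
  simp only [h1, plm_entry]
  have h2 : ∀ (F : Fin 3 → Fin 3 → Fin 3 → Fin 3 → Fin 3 → Fin 3 → ℝ),
      ∑ i, ∑ j, ∑ k, ∑ l, ∑ m, ∑ n, F i j k l m n
        = ∑ m, ∑ n, ∑ i, ∑ j, ∑ k, ∑ l, F i j k l m n := by
    intro F
    calc ∑ i, ∑ j, ∑ k, ∑ l, ∑ m, ∑ n, F i j k l m n
        = ∑ i, ∑ j, ∑ k, ∑ m, ∑ l, ∑ n, F i j k l m n := by
          refine Finset.sum_congr rfl fun i _ => Finset.sum_congr rfl fun j _ =>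
            Finset.sum_congr rfl fun k _ => Finset.sum_comm
      _ = ∑ i, ∑ j, ∑ m, ∑ k, ∑ l, ∑ n, F i j k l m n := by
          refine Finset.sum_congr rfl fun i _ => Finset.sum_congr rfl fun j _ => Finset.sum_comm
      _ = ∑ i, ∑ m, ∑ j, ∑ k, ∑ l, ∑ n, F i j k l m n := by
          refine Finset.sum_congr rfl fun i _ => Finset.sum_comm
      _ = ∑ m, ∑ i, ∑ j, ∑ k, ∑ l, ∑ n, F i j k l m n := Finset.sum_comm
      _ = ∑ m, ∑ i, ∑ j, ∑ k, ∑ n, ∑ l, F i j k l m n := by
          refine Finset.sum_congr rfl fun m _ => Finset.sum_congr rfl fun i _ =>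
            Finset.sum_congr rfl fun j _ => Finset.sum_congr rfl fun k _ => Finset.sum_comm
      _ = ∑ m, ∑ i, ∑ j, ∑ n, ∑ k, ∑ l, F i j k l m n := by
          refine Finset.sum_congr rfl fun m _ => Finset.sum_congr rfl fun i _ =>
            Finset.sum_congr rfl fun j _ => Finset.sum_comm
      _ = ∑ m, ∑ i, ∑ n, ∑ j, ∑ k, ∑ l, F i j k l m n := by
          refine Finset.sum_congr rfl fun m _ => Finset.sum_congr rfl fun i _ => Finset.sum_comm
      _ = ∑ m, ∑ n, ∑ i, ∑ j, ∑ k, ∑ l, F i j k l m n := by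
          refine Finset.sum_congr rfl fun m _ => Finset.sum_comm
  rw [h2]
  refine Finset.sum_congr rfl fun m _ => Finset.sum_congr rfl fun n _ => ?_
  have h3 : ∀ a b : Fin 3 → Fin 3 → ℝ, ∑ i, ∑ j, ∑ k, ∑ l, a i j * b k l
      = (∑ i, ∑ j, a i j) * ∑ k, ∑ l, b k l := by
    intro a b
    rw [Finset.sum_mul]
    refine Finset.sum_congr rfl fun i _ => ?_
    rw [Finset.sum_mul]
    refine Finset.sum_congr rfl fun j _ => ?_
    rw [Finset.mul_sum]
    refine Finset.sum_congr rfl fun k _ => ?_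
    rw [Finset.mul_sum]
  exact h3 (fun i j => A i m * H i j * A j n) (fun k l => A k m * K k l * A l n)

private theorem fr_up (A : Bil) (p : Cov) (i : Fin 3) :
    up (A * A.transpose) p i = ∑ m, A i m * plv A p m := by
  unfold up plv
  simp only [fr_entry, Fin.sum_univ_three]
  ring

private theorem fr_ev (A : Bil) (p q : Cov) :
    ev (A * A.transpose) p q = ∑ i, plv A p i * plv A q i := by
  unfold ev plv
  simp only [fr_entry, Fin.sum_univ_three]
  ring

private theorem fr_tr (A H : Bil) :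
    tr2 (A * A.transpose) H = ∑ i, plm A H i i := by
  unfold tr2
  simp only [fr_entry, plm_entry, Fin.sum_univ_three]
  ring

private theorem fr_qf (A H : Bil) (p : Cov) :
    qf (A * A.transpose) H p = ev (plm A H) (plv A p) (plv A p) := by
  unfold qf ev
  simp only [fr_up, plm_entry]
  generalize plv A p = v
  simp only [Fin.sum_univ_three]
  ring

private theorem fr_app (A H : Bil) (p : Cov) :
    plv A (app (A * A.transpose) H p) = fun i => ∑ j, plm A H i j * plv A p j := by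
  funext i
  unfold app
  show ∑ j, A j i * (∑ k, H j k * up (A * A.transpose) p k) = _
  simp only [fr_up, plm_entry]
  generalize plv A p = v
  simp only [Fin.sum_univ_three]
  ring

theorem FR : Stmt_FR := by
  intro P hP
  have hB : ∃ B : Bil, P = B.transpose * B := by
    open scoped MatrixOrder in
    obtain ⟨B, hB⟩ := CStarAlgebra.nonneg_iff_eq_star_mul_self.mp hP.posSemidef.nonneg
    exact ⟨B, hB⟩
  obtain ⟨B, hB⟩ := hB
  refine ⟨B.transpose, ?_⟩
  have hP2 : P = B.transpose * B.transpose.transpose := by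
    rw [Matrix.transpose_transpose]; exact hB
  have hdet : B.transpose.det ≠ 0 := by
    intro h0
    have h1 := hP.det_pos
    rw [hB, Matrix.det_mul, h0, zero_mul] at h1
    exact lt_irrefl _ h1
  generalize hA : B.transpose = A at *
  refine ⟨hdet, hP2, ?_, ?_, ?_, ?_, ?_, ?_, ?_⟩
  · intro p q; rw [hP2]; exact fr_ev A p q
  · intro H; rw [hP2]; exact fr_tr A H
  · intro H K; rw [hP2]; exact fr_dd A H K
  · intro H p; rw [hP2]; exact fr_qf A H p
  · intro H p; rw [hP2]; exact fr_app A H p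
  · intro H hH
    unfold plm
    show (A.transpose * H * A).transpose = _
    rw [Matrix.transpose_mul, Matrix.transpose_mul, Matrix.transpose_transpose, hH.eq,
      Matrix.mul_assoc]
  · intro p hp h0
    apply hp
    have h1 : A.transpose.mulVec p = 0 := by
      rw [← h0]
      rfl
    have h2 : A.transpose.det ≠ 0 := by rwa [Matrix.det_transpose]
    exact Matrix.eq_zero_of_mulVec_eq_zero h2 h1

end Pool.Agent.PFlow


end

section

/-!
# Module LSG: the Gauss-Bonnet inequality on the filled regular levels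
-/

open MeasureTheory Filter Topology
open scoped ContDiff

namespace Pool.Agent.PFlow

open Pool.Agent.PenroseSph

namespace MLSG

/-! ## Cutting a function of one variable -/

lemma contDiff_cut {χ : ℝ → ℝ} (h : ContDiff ℝ 1 χ) {I : Set ℝ} (hI : IsOpen I)
    (hf : ∀ s ∈ frontier I, s ∉ tsupport χ) : ContDiff ℝ 1 (I.indicator χ) := by
  rw [contDiff_iff_contDiffAt]
  intro s
  by_cases h1 : s ∈ I
  · refine h.contDiffAt.congr_of_eventuallyEq ?_
    filter_upwards [hI.mem_nhds h1] with t ht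
    exact Set.indicator_of_mem ht χ
  · have h2 : ∀ᶠ t in 𝓝 s, I.indicator χ t = (fun _ : ℝ => (0 : ℝ)) t := by
      by_cases h3 : s ∈ closure I
      · have h4 : s ∉ tsupport χ := hf s ⟨h3, by rwa [hI.interior_eq]⟩
        have h6 := notMem_tsupport_iff_eventuallyEq.mp h4
        filter_upwards [h6] with t ht
        by_cases h5 : t ∈ I
        · rw [Set.indicator_of_mem h5]
          exact ht
        · exact Set.indicator_of_notMem h5 χ
      · filter_upwards [(isClosed_closure (s := I)).isOpen_compl.mem_nhds h3] with t ht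
        exact Set.indicator_of_notMem (fun h5 => ht (subset_closure h5)) χ
    exact (contDiffAt_const (c := (0 : ℝ))).congr_of_eventuallyEq h2

lemma tsupport_cut {χ : ℝ → ℝ} {I : Set ℝ} (hI : IsOpen I)
    (hf : ∀ s ∈ frontier I, s ∉ tsupport χ) : tsupport (I.indicator χ) ⊆ I ∩ tsupport χ := by
  intro s hs
  have h1 : s ∈ tsupport χ := by
    refine closure_mono ?_ hs
    intro t ht
    have ht' : t ∈ I := Set.mem_of_indicator_ne_zero ht
    have h2 : I.indicator χ t ≠ 0 := ht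
    rw [Set.indicator_of_mem ht'] at h2
    exact h2
  have h2 : s ∈ closure I := closure_mono (fun t ht => Set.mem_of_indicator_ne_zero ht) hs
  refine ⟨?_, h1⟩
  by_contra h3
  exact hf s ⟨h2, by rwa [hI.interior_eq]⟩ h1

lemma cut_add {χ : ℝ → ℝ} {c : ℝ} (hc : χ c = 0) (s : ℝ) :
    χ s = (Set.Iio c).indicator χ s + (Set.Ioi c).indicator χ s := by
  rcases lt_trichotomy s c with h | h | h
  · rw [Set.indicator_of_mem (show s ∈ Set.Iio c from h),
      Set.indicator_of_notMem (fun h' : s ∈ Set.Ioi c => lt_asymm h h'), add_zero]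
  · subst h
    rw [Set.indicator_of_notMem (fun h' : s ∈ Set.Iio s => lt_irrefl s h'),
      Set.indicator_of_notMem (fun h' : s ∈ Set.Ioi s => lt_irrefl s h'), add_zero, hc]
  · rw [Set.indicator_of_mem (show s ∈ Set.Ioi c from h),
      Set.indicator_of_notMem (fun h' : s ∈ Set.Iio c => lt_asymm h h'), zero_add]

lemma bump_left {a b c : ℝ} {χ : ℝ → ℝ} (h : BumpOn a b χ) (hc : c ∉ tsupport χ) :
    BumpOn a c ((Set.Iio c).indicator χ) := by
  have hf : ∀ s ∈ frontier (Set.Iio c), s ∉ tsupport χ := by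
    intro s hs
    rw [frontier_Iio, Set.mem_singleton_iff] at hs
    rwa [hs]
  refine ⟨contDiff_cut h.smooth isOpen_Iio hf, ?_, ?_⟩
  · intro s
    exact Set.indicator_nonneg (fun t _ => h.nonneg t) s
  · intro s hs
    have h1 := tsupport_cut isOpen_Iio hf hs
    exact ⟨(h.supp h1.2).1, h1.1⟩

lemma bump_right {a b c : ℝ} {χ : ℝ → ℝ} (h : BumpOn a b χ) (hc : c ∉ tsupport χ) :
    BumpOn c b ((Set.Ioi c).indicator χ) := by
  have hf : ∀ s ∈ frontier (Set.Ioi c), s ∉ tsupport χ := by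
    intro s hs
    rw [frontier_Ioi, Set.mem_singleton_iff] at hs
    rwa [hs]
  refine ⟨contDiff_cut h.smooth isOpen_Ioi hf, ?_, ?_⟩
  · intro s
    exact Set.indicator_nonneg (fun t _ => h.nonneg t) s
  · intro s hs
    have h1 := tsupport_cut isOpen_Ioi hf hs
    exact ⟨h1.1, (h.supp h1.2).2⟩

lemma integrable_bump {a b : ℝ} {χ : ℝ → ℝ} (h : BumpOn a b χ) : Integrable χ := by
  refine h.smooth.continuous.integrable_of_hasCompactSupport ?_
  exact Metric.isCompact_of_isClosed_isBounded (isClosed_tsupport χ)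
    ((Metric.isBounded_Ioo a b).subset h.supp)

/-! ## Sets of levels -/

lemma compact_pre {a' b' s₀ s₁ : ℝ} {F : E3 → ℝ} (T : Trunc a' b' s₀ s₁ F) {c d : ℝ}
    (hd : d < s₁) : IsCompact {x | F x ∈ Set.Icc c d} := by
  refine (isCompact_closedBall (0 : E3) b').of_isClosed_subset
    (isClosed_Icc.preimage T.cont) ?_
  intro x hx
  rw [mem_closedBall_zero_iff]
  by_contra h1
  have h2 := T.outer x (not_le.mp h1).le
  have h3 : F x ∈ Set.Icc c d := hx
  rw [h2] at h3
  exact absurd h3.2 (not_le.mpr hd)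

lemma grad_congr {f k : E3 → ℝ} {x : E3} (h : ∀ᶠ y in 𝓝 x, f y = k y) :
    grad f x = grad k x := by
  funext i
  have h1 : fderiv ℝ f x = fderiv ℝ k x := Filter.EventuallyEq.fderiv_eq h
  simp only [grad, pd, h1]

/-- No critical value in `(α, β)`. -/
lemma base (hGB : Stmt_GB) (hUNIC : Stmt_UNIC) (hFA : Stmt_FA) (hFC : Stmt_FC)
    (hFD : Stmt_FD) (hSM : Stmt_SM) {U : Set E3} {g h : TensorField}
    {a' b' s₀ s₁ t₀ t₁ : ℝ} {W v : E3 → ℝ} {C : NNReal} {z₁ : E3} {K : Set E3} {ψ : ℝ → ℝ}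
    (D : LSData U g h a' b' s₀ s₁ t₀ t₁ W v C z₁ K ψ) {α β : ℝ} (hα : t₀ ≤ α)
    (hαβ : α < β) (hβ : β ≤ t₁) (hr : ∀ x ∈ K, v x ∈ Set.Ioo α β → grad v x ≠ 0)
    {χ : ℝ → ℝ} (hχ : BumpOn α β χ) :
    ∫ x in K ∩ good W s₀ s₁ 0 z₁, χ (v x) * Kd g x (grad v x) (hess2 v x) * volDen g x
      ≤ 4 * Real.pi * ∫ s, χ s := by
  obtain ⟨hA1, hA2, -, -, hA5, hA6⟩ := hFA a' b' s₀ s₁ W C z₁ D.trunc D.lip D.far
  have hl0 := D.lt₀
  have hl1 := D.lt₁
  -- regular levels
  have hreg : ∀ c ∈ Set.Ioo α β, RegLevel W c := by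
    intro c hc
    have hcK : ∀ z, W z = c → z ∈ K := fun z hz => D.levelsW z (by
      rw [hz]
      exact ⟨by linarith [hc.1], by linarith [hc.2]⟩)
    refine hSM W c D.trunc.cont ?_ ?_
    · have h1 := compact_pre D.trunc (c := c) (d := c) (by linarith [hc.2])
      rw [Set.Icc_self] at h1
      exact h1
    · intro z hz
      have hzK := hcK z hz
      have h1 := D.agree z hzK
      have h2 : W z = v z := h1.self_of_nhds
      refine ⟨?_, ?_⟩
      · exact (D.smooth.of_le (by exact_mod_cast le_top)).contDiffAt.congr_of_eventuallyEq h1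
      · rw [grad_congr h1]
        exact hr z hzK (by rw [← h2, hz]; exact hc)
  have hgood := hFD a' b' s₀ s₁ W C z₁ D.trunc D.lip D.far α β (by linarith) hαβ
    (by linarith) hreg
  set F : E3 → ℝ := fill W s₀ s₁ 0 z₁ with hF
  set V : Set E3 := {x | F x ∈ Set.Ioo α β} with hV
  have hVo : IsOpen V := isOpen_Ioo.preimage hA6.cont
  have hVK : V ⊆ K := fun x hx => D.levels x ⟨by linarith [hx.1], by linarith [hx.2]⟩
  have hFW : ∀ x ∈ V, F x = W x := by
    intro x hx
    have h1 := hgood x hx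
    exact h1.2.trans h1.1
  have hev : ∀ x ∈ V, ∀ᶠ y in 𝓝 x, F y = v y := by
    intro x hx
    filter_upwards [hVo.mem_nhds hx, D.agree x (hVK hx)] with y hy1 hy2
    rw [hFW y hy1, hy2]
  have hFv : ∀ x ∈ V, F x = v x := fun x hx => (hev x hx).self_of_nhds
  have hgr : ∀ x ∈ V, grad v x ≠ 0 := by
    intro x hx
    refine hr x (hVK hx) ?_
    rw [← hFv x hx]
    exact hx
  have hfol : Fol V α β g v := by
    refine ⟨hVo, ⟨fun i j => (D.met.smooth i j).mono (hVK.trans D.sub), fun x hx =>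
      D.met.posDef x (D.sub (hVK hx))⟩, D.smooth.contDiffOn, ?_, hgr, ?_⟩
    · intro x hx
      rw [← hFv x hx]
      exact hx
    · intro c d hc hd
      have h1 : cslab V v c d = {x | F x ∈ Set.Icc c d} := by
        ext x
        constructor
        · rintro ⟨h1, h2⟩
          have h3 : v x ∈ Set.Icc c d := h2
          rw [← hFv x h1] at h3
          exact h3
        · intro h1
          have h2 : x ∈ V := ⟨lt_of_lt_of_le hc h1.1, lt_of_le_of_lt h1.2 hd⟩
          refine ⟨h2, ?_⟩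
          change v x ∈ Set.Icc c d
          rw [← hFv x h2]
          exact h1
      rw [h1]
      exact compact_pre hA6 (by linarith)
  have hconn : ∀ s : ℝ, IsPreconnected (V ∩ v ⁻¹' {s}) := by
    intro s
    by_cases hs : s ∈ Set.Ioo α β
    · have h1 : V ∩ v ⁻¹' {s} = {x | F x = s} := by
        ext x
        constructor
        · rintro ⟨h1, h2⟩
          have h3 : v x = s := h2
          change F x = s
          rw [hFv x h1, h3]
        · intro h1
          have h1' : F x = s := h1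
          have h2 : x ∈ V := by
            change F x ∈ Set.Ioo α β
            rw [h1']
            exact hs
          refine ⟨h2, ?_⟩
          change v x = s
          rw [← hFv x h2, h1']
      rw [h1]
      obtain ⟨e, he, he1, he2⟩ : ∃ e : ℝ, 0 < e ∧ α < s - e ∧ s + e < β := by
        refine ⟨min (s - α) (β - s) / 2, ?_, ?_, ?_⟩
        · have := lt_min (sub_pos.mpr hs.1) (sub_pos.mpr hs.2)
          linarith
        · have h2 := min_le_left (s - α) (β - s)
          have h3 := hs.1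
          linarith
        · have h2 := min_le_right (s - α) (β - s)
          have h3 := hs.2
          linarith
      have h2 := hFC a' b' s₀ s₁ W C z₁ D.trunc D.lip D.far s
      refine hUNIC F s e hA6.cont he ?_ h2.1 h2.2 ?_
      · have h3 : {x | |F x - s| ≤ e} = {x | F x ∈ Set.Icc (s - e) (s + e)} := by
          ext x
          simp only [Set.mem_ofPred_eq, Set.mem_Icc, abs_le]
          constructor
          · rintro ⟨h4, h5⟩
            constructor <;> linarith
          · rintro ⟨h4, h5⟩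
            constructor <;> linarith
        rw [h3]
        exact compact_pre hA6 (by linarith)
      · intro x hx
        have hxV : x ∈ V := by
          change F x ∈ Set.Ioo α β
          rw [hx]
          exact hs
        have h3 : fderiv ℝ F x = fderiv ℝ v x := Filter.EventuallyEq.fderiv_eq (hev x hxV)
        refine ⟨D.smooth.contDiffAt.congr_of_eventuallyEq (hev x hxV), ?_⟩
        rw [h3]
        intro h4
        apply hgr x hxV
        funext i
        simp only [grad, pd, h4]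
        rfl
    · have h1 : V ∩ v ⁻¹' {s} = ∅ := by
        ext x
        simp only [Set.mem_inter_iff, Set.mem_preimage, Set.mem_singleton_iff,
          Set.mem_empty_iff_false, iff_false, not_and]
        intro h1 h2
        apply hs
        rw [← h2, ← hFv x h1]
        exact h1
      rw [h1]
      exact isPreconnected_empty
  have hmain := hGB V α β g v hfol hconn χ hχ
  have hVg : V ⊆ K ∩ good W s₀ s₁ 0 z₁ := fun x hx => ⟨hVK hx, hgood x hx⟩
  have hgc : IsClosed (good W s₀ s₁ 0 z₁) :=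
    (isClosed_eq hA5.cont D.trunc.cont).inter (isClosed_eq hA6.cont hA5.cont)
  have hme : MeasurableSet (K ∩ good W s₀ s₁ 0 z₁) :=
    D.compact.measurableSet.inter hgc.measurableSet
  have hint : ∫ x in K ∩ good W s₀ s₁ 0 z₁,
      χ (v x) * Kd g x (grad v x) (hess2 v x) * volDen g x
      = ∫ x in V, χ (v x) * Kd g x (grad v x) (hess2 v x) * volDen g x := by
    refine setIntegral_eq_of_subset_of_forall_sdiff_eq_zero hme hVg ?_
    rintro x ⟨⟨hxK, hxg⟩, hxV⟩
    have h1 : χ (v x) = 0 := by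
      by_contra h2
      apply hxV
      have h3 : v x ∈ Set.Ioo α β := hχ.supp (subset_tsupport χ h2)
      have h4 : W x = v x := (D.agree x hxK).self_of_nhds
      have h5 : F x = v x := (hxg.2.trans hxg.1).trans h4
      change F x ∈ Set.Ioo α β
      rw [h5]
      exact h3
    rw [h1, zero_mul, zero_mul]
  rw [hint]
  refine le_trans (le_of_eq ?_) hmain
  refine integral_congr_ae (Filter.Eventually.of_forall fun x => ?_)
  simp only [Kd, curv, dens]
  ring

/-- Induction over the critical values in `(α, β)`. -/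
lemma step (hGB : Stmt_GB) (hUNIC : Stmt_UNIC) (hFA : Stmt_FA) (hFC : Stmt_FC)
    (hFD : Stmt_FD) (hSM : Stmt_SM) {U : Set E3} {g h : TensorField}
    {a' b' s₀ s₁ t₀ t₁ : ℝ} {W v : E3 → ℝ} {C : NNReal} {z₁ : E3} {K : Set E3} {ψ : ℝ → ℝ}
    (D : LSData U g h a' b' s₀ s₁ t₀ t₁ W v C z₁ K ψ)
    (hfin : {x ∈ K | grad v x = 0}.Finite) (n : ℕ) :
    ∀ (α β : ℝ), t₀ ≤ α → β ≤ t₁ →
    ((v '' {x ∈ K | grad v x = 0}) ∩ Set.Ioo α β).ncard ≤ n →
    ∀ χ : ℝ → ℝ, BumpOn α β χ → (∀ x ∈ K, grad v x = 0 → v x ∉ tsupport χ) →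
    ∫ x in K ∩ good W s₀ s₁ 0 z₁, χ (v x) * Kd g x (grad v x) (hess2 v x) * volDen g x
      ≤ 4 * Real.pi * ∫ s, χ s := by
  have hCr : (v '' {x ∈ K | grad v x = 0}).Finite := hfin.image v
  have hpos : ∀ {a b : ℝ} {χ : ℝ → ℝ}, BumpOn a b χ → 0 ≤ 4 * Real.pi * ∫ s, χ s := by
    intro a b χ hχ
    exact mul_nonneg (by positivity) (integral_nonneg hχ.nonneg)
  have hempty : ∀ (α β : ℝ), t₀ ≤ α → β ≤ t₁ →
      (v '' {x ∈ K | grad v x = 0}) ∩ Set.Ioo α β = ∅ →
      ∀ χ : ℝ → ℝ, BumpOn α β χ →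
      ∫ x in K ∩ good W s₀ s₁ 0 z₁, χ (v x) * Kd g x (grad v x) (hess2 v x) * volDen g x
        ≤ 4 * Real.pi * ∫ s, χ s := by
    intro α β hα hβ he χ hχ
    by_cases hαβ : α < β
    · refine base hGB hUNIC hFA hFC hFD hSM D hα hαβ hβ ?_ hχ
      intro x hx h1 h2
      have h3 : v x ∈ (v '' {x ∈ K | grad v x = 0}) ∩ Set.Ioo α β :=
        ⟨⟨x, ⟨hx, h2⟩, rfl⟩, h1⟩
      rw [he] at h3
      exact h3
    · have h0 : ∀ s, χ s = 0 := by
        intro s
        by_contra h1
        have h2 := hχ.supp (subset_tsupport χ h1)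
        exact hαβ (h2.1.trans h2.2)
      simp [h0]
  induction n with
  | zero =>
    intro α β hα hβ hn χ hχ _
    have h1 : ((v '' {x ∈ K | grad v x = 0}) ∩ Set.Ioo α β).Finite :=
      hCr.subset Set.inter_subset_left
    have h2 : (v '' {x ∈ K | grad v x = 0}) ∩ Set.Ioo α β = ∅ :=
      (Set.ncard_eq_zero h1).mp (Nat.le_zero.mp hn)
    exact hempty α β hα hβ h2 χ hχ
  | succ n ih =>
    intro α β hα hβ hn χ hχ hc
    rcases ((v '' {x ∈ K | grad v x = 0}) ∩ Set.Ioo α β).eq_empty_or_nonempty with h0 | h0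
    · exact hempty α β hα hβ h0 χ hχ
    obtain ⟨c, hcr, hcI⟩ := h0
    obtain ⟨y, ⟨hyK, hy0⟩, hyc⟩ := id hcr
    have hcs : c ∉ tsupport χ := by
      rw [← hyc]
      exact hc y hyK hy0
    have hLb := bump_left hχ hcs
    have hRb := bump_right hχ hcs
    have hfin' : ((v '' {x ∈ K | grad v x = 0}) ∩ Set.Ioo α β).Finite :=
      hCr.subset Set.inter_subset_left
    have hcard : ∀ {α' β' : ℝ}, α ≤ α' → β' ≤ β → c ∉ Set.Ioo α' β' →
        ((v '' {x ∈ K | grad v x = 0}) ∩ Set.Ioo α' β').ncard ≤ n := by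
      intro α' β' h1 h2 h3
      have h4 : (v '' {x ∈ K | grad v x = 0}) ∩ Set.Ioo α' β' ⊂
          (v '' {x ∈ K | grad v x = 0}) ∩ Set.Ioo α β := by
        refine ⟨Set.inter_subset_inter_right _ (Set.Ioo_subset_Ioo h1 h2), fun h5 => ?_⟩
        exact h3 (h5 ⟨hcr, hcI⟩).2
      have h5 := Set.ncard_lt_ncard h4 hfin'
      omega
    have hL := ih α c hα (hcI.2.le.trans hβ)
      (hcard le_rfl hcI.2.le (fun h1 => lt_irrefl _ h1.2)) _ hLb (by
        intro x hx h1 h2
        refine hc x hx h1 ?_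
        refine closure_mono ?_ h2
        intro t ht
        have ht' : t ∈ Set.Iio c := Set.mem_of_indicator_ne_zero ht
        have h3 : (Set.Iio c).indicator χ t ≠ 0 := ht
        rw [Set.indicator_of_mem ht'] at h3
        exact h3)
    have hR := ih c β (hα.trans hcI.1.le) hβ
      (hcard hcI.1.le le_rfl (fun h1 => lt_irrefl _ h1.1)) _ hRb (by
        intro x hx h1 h2
        refine hc x hx h1 ?_
        refine closure_mono ?_ h2
        intro t ht
        have ht' : t ∈ Set.Ioi c := Set.mem_of_indicator_ne_zero ht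
        have h3 : (Set.Ioi c).indicator χ t ≠ 0 := ht
        rw [Set.indicator_of_mem ht'] at h3
        exact h3)
    have hχc : χ c = 0 := image_eq_zero_of_notMem_tsupport hcs
    by_cases hi : IntegrableOn
        (fun x => χ (v x) * Kd g x (grad v x) (hess2 v x) * volDen g x)
        (K ∩ good W s₀ s₁ 0 z₁)
    · have hmL : MeasurableSet (v ⁻¹' Set.Iio c) :=
        (isOpen_Iio.preimage D.smooth.continuous).measurableSet
      have hmR : MeasurableSet (v ⁻¹' Set.Ioi c) :=
        (isOpen_Ioi.preimage D.smooth.continuous).measurableSet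
      have hiL : IntegrableOn (fun x => (Set.Iio c).indicator χ (v x)
          * Kd g x (grad v x) (hess2 v x) * volDen g x) (K ∩ good W s₀ s₁ 0 z₁) := by
        have h1 := Integrable.indicator hi hmL
        refine h1.congr (Filter.Eventually.of_forall fun x => ?_)
        by_cases hx : v x ∈ Set.Iio c
        · rw [Set.indicator_of_mem (show x ∈ v ⁻¹' Set.Iio c from hx)]
          simp only [Set.indicator_of_mem hx]
        · rw [Set.indicator_of_notMem (show x ∉ v ⁻¹' Set.Iio c from hx)]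
          simp only [Set.indicator_of_notMem hx, zero_mul]
      have hiR : IntegrableOn (fun x => (Set.Ioi c).indicator χ (v x)
          * Kd g x (grad v x) (hess2 v x) * volDen g x) (K ∩ good W s₀ s₁ 0 z₁) := by
        have h1 := Integrable.indicator hi hmR
        refine h1.congr (Filter.Eventually.of_forall fun x => ?_)
        by_cases hx : v x ∈ Set.Ioi c
        · rw [Set.indicator_of_mem (show x ∈ v ⁻¹' Set.Ioi c from hx)]
          simp only [Set.indicator_of_mem hx]
        · rw [Set.indicator_of_notMem (show x ∉ v ⁻¹' Set.Ioi c from hx)]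
          simp only [Set.indicator_of_notMem hx, zero_mul]
      have h1 : ∫ x in K ∩ good W s₀ s₁ 0 z₁,
          χ (v x) * Kd g x (grad v x) (hess2 v x) * volDen g x
          = (∫ x in K ∩ good W s₀ s₁ 0 z₁, (Set.Iio c).indicator χ (v x)
              * Kd g x (grad v x) (hess2 v x) * volDen g x)
            + ∫ x in K ∩ good W s₀ s₁ 0 z₁, (Set.Ioi c).indicator χ (v x)
              * Kd g x (grad v x) (hess2 v x) * volDen g x := by
        rw [← integral_add hiL hiR]
        refine integral_congr_ae (Filter.Eventually.of_forall fun x => ?_)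
        simp only
        rw [cut_add hχc (v x)]
        ring
      have h2 : ∫ s, χ s = (∫ s, (Set.Iio c).indicator χ s) + ∫ s, (Set.Ioi c).indicator χ s := by
        rw [← integral_add (integrable_bump hLb) (integrable_bump hRb)]
        exact integral_congr_ae (Filter.Eventually.of_forall fun s => cut_add hχc s)
      rw [h1, h2, mul_add]
      exact add_le_add hL hR
    · rw [integral_undef hi]
      exact hpos hχ

end MLSG

/-- **(LSG)** The Gauss-Bonnet inequality on the filled regular levels. -/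
theorem LSG (hGB : Stmt_GB) (hUNIC : Stmt_UNIC) (hFA : Stmt_FA) (hFC : Stmt_FC)
    (hFD : Stmt_FD) (hSM : Stmt_SM) : Stmt_LSG := by
  intro U g h a' b' s₀ s₁ t₀ t₁ W v C z₁ K ψ χ D hχ hfin hc
  exact MLSG.step hGB hUNIC hFA hFC hFD hSM D hfin _ t₀ t₁ le_rfl le_rfl le_rfl χ hχ hc

end Pool.Agent.PFlow


end

section

/-!
# ABSF: the flux inequality
-/

open MeasureTheory Filter Topology
open scoped ContDiff ENNReal Matrix MatrixOrder

namespace Pool.Agent.PFlow

open Pool.Agent.PenroseSph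

namespace ABSFm

lemma ev_eq (B : Bil) (v w : Cov) : ev B v w = v ⬝ᵥ (B *ᵥ w) := by
  simp only [ev, dotProduct, Matrix.mulVec, Finset.mul_sum]
  refine Finset.sum_congr rfl fun i _ => Finset.sum_congr rfl fun j _ => ?_
  ring

lemma ev_smul (B : Bil) (c : ℝ) (v : Cov) : ev B (c • v) (c • v) = c ^ 2 * ev B v v := by
  simp only [ev, Finset.mul_sum, Pi.smul_apply, smul_eq_mul]
  refine Finset.sum_congr rfl fun i _ => Finset.sum_congr rfl fun j _ => ?_
  ring

lemma len_smul (g : TensorField) (x : E3) (c : ℝ) (p : Cov) :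
    len g x (c • p) = |c| * len g x p := by
  unfold len
  rw [ev_smul, Real.sqrt_mul (sq_nonneg c), Real.sqrt_sq_eq_abs]

lemma ev_nonneg {B : Bil} (hB : B.PosSemidef) (v : Cov) : 0 ≤ ev B v v := by
  rw [ev_eq]
  have := hB.dotProduct_mulVec_nonneg v
  simpa using this

lemma ev_pos {B : Bil} (hB : B.PosDef) {v : Cov} (hv : v ≠ 0) : 0 < ev B v v := by
  rw [ev_eq]
  have := hB.dotProduct_mulVec_pos hv
  simpa using this

lemma ev_sub {B : Bil} (hB : B.IsSymm) (s p : Cov) (t : ℝ) :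
    ev B (s - t • p) (s - t • p) = ev B s s - 2 * t * ev B s p + t ^ 2 * ev B p p := by
  have h10 : B 1 0 = B 0 1 := hB.apply 0 1
  have h20 : B 2 0 = B 0 2 := hB.apply 0 2
  have h21 : B 2 1 = B 1 2 := hB.apply 1 2
  simp only [ev, Fin.sum_univ_three, Pi.sub_apply, Pi.smul_apply, smul_eq_mul, h10, h20, h21]
  ring

lemma cauchy {B : Bil} (hB : B.PosDef) (hs : B.IsSymm) (s p : Cov) (hp : p ≠ 0) :
    ev B s p ^ 2 / ev B p p ≤ ev B s s := by
  have hpp : 0 < ev B p p := ev_pos hB hp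
  have h := ev_nonneg hB.posSemidef (s - (ev B s p / ev B p p) • p)
  rw [ev_sub hs] at h
  have e : ev B s s - 2 * (ev B s p / ev B p p) * ev B s p + (ev B s p / ev B p p) ^ 2 * ev B p p
      = ev B s s - ev B s p ^ 2 / ev B p p := by
    field_simp
    ring
  rw [e] at h
  linarith

/-- The length of the normal. -/
lemma ev_nrm {g : TensorField} {x : E3} (hg : (g x).PosDef) {p : Cov} (hp : p ≠ 0) :
    ev (g x) (nrm g x p) (nrm g x p) = 1 := by
  have hl : 0 < ev (g x)⁻¹ p p := ev_pos hg.inv hp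
  have hlen : len g x p ^ 2 = ev (g x)⁻¹ p p := Real.sq_sqrt hl.le
  have hlen0 : len g x p ≠ 0 := by
    intro h0
    rw [h0] at hlen
    simp at hlen
    linarith
  have hdet : IsUnit (g x).det := (Matrix.isUnit_iff_isUnit_det _).mp hg.isUnit
  have e1 : nrm g x p = (len g x p)⁻¹ • ((g x)⁻¹ *ᵥ p) := by
    funext i
    simp only [nrm, raise, Pi.smul_apply, smul_eq_mul, Matrix.mulVec, dotProduct]
    rw [div_eq_inv_mul]
  rw [e1, ev_smul, ev_eq, Matrix.mulVec_mulVec, Matrix.mul_nonsing_inv _ hdet, Matrix.one_mulVec]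
  have e2 : ((g x)⁻¹ *ᵥ p) ⬝ᵥ p = ev (g x)⁻¹ p p := by
    rw [ev_eq, dotProduct_comm]
  rw [e2, ← hlen, inv_pow]
  exact inv_mul_cancel₀ (pow_ne_zero 2 hlen0)

lemma trg_eq (g : TensorField) (x : E3) (hs : (g x)⁻¹.IsSymm) (B : Bil) :
    trg g x B = (B * (g x)⁻¹).trace := by
  simp only [trg, Matrix.trace, Matrix.diag, Matrix.mul_apply]
  refine Finset.sum_congr rfl fun i _ => Finset.sum_congr rfl fun j _ => ?_
  rw [hs.apply i j]
  ring

/-- The plane conditions give `tr h + h(ν, ν) ≥ 0`. -/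
lemma tr_add_bnn {g h : TensorField} {x : E3} (hg : (g x).PosDef) (hh : (h x).IsSymm)
    (h2 : ∀ v : Cov, ev (g x) v v = 1 → ev (h x) v v ≤ trg g x (h x)) {p : Cov} (hp : p ≠ 0) :
    0 ≤ trg g x (h x) + bnn g x p (h x) := by
  set τ := trg g x (h x) with hτ
  have hgs : (g x).IsSymm := by
    have := hg.isHermitian
    rwa [Matrix.IsHermitian, Matrix.conjTranspose_eq_transpose_of_trivial] at this
  have hgi : (g x)⁻¹.PosDef := hg.inv
  have hgis : (g x)⁻¹.IsSymm := by
    have := hgi.isHermitian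
    rwa [Matrix.IsHermitian, Matrix.conjTranspose_eq_transpose_of_trivial] at this
  have hdet : IsUnit (g x).det := (Matrix.isUnit_iff_isUnit_det _).mp hg.isUnit
  -- the matrix `T = τ g - h` is positive semidefinite
  have hT : (τ • g x - h x).PosSemidef := by
    refine Matrix.PosSemidef.of_dotProduct_mulVec_nonneg ?_ ?_
    · rw [Matrix.IsHermitian, Matrix.conjTranspose_eq_transpose_of_trivial,
        Matrix.transpose_sub, Matrix.transpose_smul, hgs, hh]
    · intro v
      have e : star v ⬝ᵥ ((τ • g x - h x) *ᵥ v) = τ * ev (g x) v v - ev (h x) v v := by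
        rw [star_trivial, Matrix.sub_mulVec, Matrix.smul_mulVec, dotProduct_sub, dotProduct_smul,
          ev_eq, ev_eq, smul_eq_mul]
      rw [e]
      rcases eq_or_ne v 0 with rfl | hv
      · simp [ev]
      · have hpos := ev_pos hg hv
        set r := Real.sqrt (ev (g x) v v) with hr
        have hr2 : r ^ 2 = ev (g x) v v := Real.sq_sqrt hpos.le
        have hr0 : r ≠ 0 := (Real.sqrt_pos.2 hpos).ne'
        have h1 := h2 (r⁻¹ • v) (by
          rw [ev_smul, ← hr2, inv_pow]; exact inv_mul_cancel₀ (pow_ne_zero 2 hr0))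
        rw [ev_smul] at h1
        have h3 : ev (h x) v v ≤ τ * r ^ 2 := by
          have h4 := mul_le_mul_of_nonneg_right h1 (sq_nonneg r)
          have e5 : r⁻¹ ^ 2 * ev (h x) v v * r ^ 2 = ev (h x) v v := by
            field_simp
          rwa [e5] at h4
        rw [hr2] at h3
        linarith
  obtain ⟨S, hS⟩ := CStarAlgebra.nonneg_iff_eq_star_mul_self.mp hT.nonneg
  rw [Matrix.star_eq_conjTranspose, Matrix.conjTranspose_eq_transpose_of_trivial] at hS
  -- `Q(s, s) ≥ 0`
  have hl : 0 < ev (g x)⁻¹ p p := ev_pos hgi hp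
  have hlen : len g x p ^ 2 = ev (g x)⁻¹ p p := Real.sq_sqrt hl.le
  have hlen0 : len g x p ≠ 0 := by
    intro h0
    rw [h0] at hlen
    simp at hlen
    linarith
  have hsum : 0 ≤ ∑ a, (ev (g x)⁻¹ (S a) (S a) - (∑ i, S a i * nrm g x p i) ^ 2) := by
    refine Finset.sum_nonneg fun a _ => ?_
    have hc := cauchy hgi hgis (S a) p hp
    have e : (∑ i, S a i * nrm g x p i) ^ 2 = ev (g x)⁻¹ (S a) p ^ 2 / ev (g x)⁻¹ p p := by
      have e1 : ∑ i, S a i * nrm g x p i = ev (g x)⁻¹ (S a) p / len g x p := by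
        simp only [nrm, raise, ev, Finset.sum_div, Finset.mul_sum]
        refine Finset.sum_congr rfl fun i _ => Finset.sum_congr rfl fun j _ => ?_
        ring
      rw [e1, div_pow, hlen]
    rw [e]
    linarith
  -- evaluation
  have e1 : ∑ a, ev (g x)⁻¹ (S a) (S a) = 3 * τ - τ := by
    have e2 : ∑ a, ev (g x)⁻¹ (S a) (S a) = ((Sᵀ * S) * (g x)⁻¹).trace := by
      simp only [Matrix.trace, Matrix.diag, Matrix.mul_apply, ev, Matrix.transpose_apply,
        Finset.sum_mul]
      rw [Finset.sum_comm]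
      refine Finset.sum_congr rfl fun i _ => ?_
      rw [Finset.sum_comm]
      refine Finset.sum_congr rfl fun j _ => Finset.sum_congr rfl fun a _ => ?_
      rw [hgis.apply i j]
      ring
    rw [e2, ← hS, Matrix.sub_mul, Matrix.smul_mul, Matrix.mul_nonsing_inv _ hdet,
      Matrix.trace_sub, Matrix.trace_smul, Matrix.trace_one, ← trg_eq g x hgis, ← hτ]
    simp
    ring
  have e3 : ∑ a, (∑ i, S a i * nrm g x p i) ^ 2 = τ - bnn g x p (h x) := by
    have e4 : ∑ a, (∑ i, S a i * nrm g x p i) ^ 2 = ev (Sᵀ * S) (nrm g x p) (nrm g x p) := by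
      rw [ev_eq, ← Matrix.mulVec_mulVec, Matrix.dotProduct_mulVec, Matrix.vecMul_transpose]
      simp only [dotProduct, Matrix.mulVec, sq]
    rw [e4, ← hS]
    have e5 : ev (τ • g x - h x) (nrm g x p) (nrm g x p)
        = τ * ev (g x) (nrm g x p) (nrm g x p) - ev (h x) (nrm g x p) (nrm g x p) := by
      rw [ev_eq, Matrix.sub_mulVec, Matrix.smul_mulVec, dotProduct_sub, dotProduct_smul,
          ev_eq, ev_eq, smul_eq_mul]
    rw [e5, ev_nrm hg hp, mul_one]
    rfl
  rw [Finset.sum_sub_distrib, e1, e3] at hsum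
  linarith

lemma beps_nonneg {ε : ℝ} (h0 : 0 < ε) (h1 : ε < 1) {g h : TensorField} {x : E3}
    (hg : (g x).PosDef) (hh : (h x).IsSymm)
    (h2 : ∀ v : Cov, ev (g x) v v = 1 → ev (h x) v v ≤ trg g x (h x)) {p : Cov} (hp : p ≠ 0) :
    0 ≤ beps ε g x p (h x) := by
  have ha := tr_add_bnn hg hh h2 hp
  have hb : bnn g x p (h x) ≤ trg g x (h x) := h2 _ (ev_nrm hg hp)
  unfold beps
  nlinarith

/-- The function `ψ(-ε log t)`, extended by zero. -/
noncomputable def psi1 (ε : ℝ) (ψ : ℝ → ℝ) (t : ℝ) : ℝ :=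
  if 0 < t then ψ (-ε * Real.log t) else 0

lemma psi1_zero {ε : ℝ} (h0 : 0 < ε) {ψ : ℝ → ℝ} {S : ℝ} (hS : ∀ s, S < s → ψ s = 0) {t : ℝ}
    (ht : t < Real.exp (-S / ε)) : psi1 ε ψ t = 0 := by
  unfold psi1
  split_ifs with h
  · apply hS
    have h1 : Real.log t < -S / ε := by
      rw [← Real.log_exp (-S / ε)]
      exact Real.log_lt_log h ht
    rw [lt_div_iff₀ h0] at h1
    linarith
  · rfl

lemma psi1_contDiff {ε : ℝ} (h0 : 0 < ε) {ψ : ℝ → ℝ} (hψ : ContDiff ℝ 1 ψ) {S : ℝ}
    (hS : ∀ s, S < s → ψ s = 0) : ContDiff ℝ 1 (psi1 ε ψ) := by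
  rw [contDiff_iff_contDiffAt]
  intro t
  by_cases ht : 0 < t
  · have h1 : ContDiffAt ℝ 1 (fun t => ψ (-ε * Real.log t)) t := by
      refine hψ.contDiffAt.comp t ?_
      exact contDiffAt_const.mul (Real.contDiffAt_log.2 ht.ne')
    refine h1.congr_of_eventuallyEq ?_
    filter_upwards [lt_mem_nhds ht] with s hs
    simp only [psi1, hs, if_true]
  · have h1 : t < Real.exp (-S / ε) := lt_of_le_of_lt (not_lt.1 ht) (Real.exp_pos _)
    refine (contDiffAt_const (c := (0 : ℝ))).congr_of_eventuallyEq ?_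
    filter_upwards [gt_mem_nhds h1] with s hs
    exact psi1_zero h0 hS hs

lemma psi1_deriv {ε : ℝ} {ψ : ℝ → ℝ} (hψ : ContDiff ℝ 1 ψ) {t : ℝ} (ht : 0 < t) :
    deriv (psi1 ε ψ) t = deriv ψ (-ε * Real.log t) * (-ε / t) := by
  have h1 : psi1 ε ψ =ᶠ[𝓝 t] fun t => ψ (-ε * Real.log t) := by
    filter_upwards [lt_mem_nhds ht] with s hs
    simp only [psi1, hs, if_true]
  rw [h1.deriv_eq]
  have h2 : HasDerivAt ψ (deriv ψ (-ε * Real.log t)) (-ε * Real.log t) :=
    (hψ.differentiable (by norm_num)).differentiableAt.hasDerivAt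
  have h3 : HasDerivAt (fun t => -ε * Real.log t) (-ε * t⁻¹) t :=
    (Real.hasDerivAt_log ht.ne').const_mul _
  have h4 := h2.comp t h3
  rw [show -ε / t = -ε * t⁻¹ by ring]
  exact h4.deriv

lemma psi1_tsupport {ε : ℝ} {ψ : ℝ → ℝ} {t : ℝ} (ht : 0 < t) (h : t ∈ tsupport (psi1 ε ψ)) :
    -ε * Real.log t ∈ tsupport ψ := by
  by_contra hn
  rw [notMem_tsupport_iff_eventuallyEq] at hn
  apply (notMem_tsupport_iff_eventuallyEq (f := psi1 ε ψ) (x := t)).2 ?_ h
  have hc : ContinuousAt (fun t => -ε * Real.log t) t :=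
    continuousAt_const.mul (Real.continuousAt_log ht.ne')
  filter_upwards [hc.eventually hn, lt_mem_nhds ht] with s hs hs0
  simp only [psi1, hs0, if_true]
  exact hs

lemma exists_bounds {ψ : ℝ → ℝ} {a b : ℝ} (hc : HasCompactSupport ψ)
    (hs : tsupport ψ ⊆ Set.Ioo a b) :
    ∃ s s', a < s ∧ s' < b ∧ ∀ t ∈ tsupport ψ, s ≤ t ∧ t ≤ s' := by
  rcases (tsupport ψ).eq_empty_or_nonempty with he | hne
  · exact ⟨a + 1, b - 1, by linarith, by linarith, by simp [he]⟩
  · obtain ⟨s, hs1, hs2⟩ := hc.isCompact.exists_isLeast hne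
    obtain ⟨s', hs1', hs2'⟩ := hc.isCompact.exists_isGreatest hne
    exact ⟨s, s', (hs hs1).1, (hs hs1').2, fun t ht => ⟨hs2 ht, hs2' ht⟩⟩

end ABSFm

open ABSFm in
theorem ABSF (hSETW : Stmt_SETW) (hFLX : Stmt_FLX) : Stmt_ABSF := by
  intro P D hD ψ hψ hψ0 hψc hψs
  obtain ⟨-, -, -, -, -, -, -, -, -, -, -, -, -, -, hK, -⟩ := hSETW P D hD
  have hε := hD.eps_pos
  have hε2 := hD.eps_le
  have hε1 : P.eps < 1 := by linarith
  obtain ⟨s, s', hs1, hs2, hs3⟩ := exists_bounds hψc hψs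
  obtain ⟨K, hKc, hKs, hK1⟩ := hK s s' hs1 hs2
  -- `R > 1`
  have hR : 1 < D.R := by
    have h1 : (4 : ℝ) ≤ kE P.eps P.gam := by
      unfold kE
      have : (1 : ℝ) ≤ Real.exp ((1 + 2 * P.gam) / (2 - P.eps)) := by
        apply Real.one_le_exp
        have := hD.gam_pos
        have h2 : 0 < 2 - P.eps := by linarith
        positivity
      linarith
    have h2 : (1 : ℝ) ≤ kE P.eps P.gam ^ 4 := one_le_pow₀ (by linarith)
    have h3 := hD.R_ge
    have h4 := hD.l_ge
    nlinarith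
  have hRp : 0 < D.R := by linarith
  have hlt : 1 / D.R < D.R := by
    rw [div_lt_iff₀ hRp]
    nlinarith
  have hpos : ∀ x ∈ D.Om, 0 < D.u x := fun x hx => hD.located.pos x hx
  -- the support
  have hS : ∀ t, s' < t → ψ t = 0 := by
    intro t ht
    by_contra hne
    have := (hs3 t (subset_tsupport _ hne)).2
    linarith
  have key := hFLX P.eps (1 / D.R) D.R D.g' D.h' D.u D.G D.M hε hε1 (by positivity) hlt
    hD.modified.metric hD.modified.tensor hD.sol.h2 hD.sol.flux (psi1 P.eps ψ) K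
    (psi1_contDiff hε hψ hS) hKc hKs (by
      intro x hx hux
      have h1 := psi1_tsupport (hpos x hx) hux
      exact hK1 ⟨hx, hs3 _ h1⟩)
  -- the right side is nonnegative
  have hr : 0 ≤ ∫ x in Ann (1 / D.R) D.R,
      len D.g' x (D.G x) ^ P.eps * beps P.eps D.g' x (D.G x) (D.h' x) * psi1 P.eps ψ (D.u x)
        * volDen D.g' x := by
    apply integral_nonneg
    intro x
    have h1 : 0 ≤ psi1 P.eps ψ (D.u x) := by
      unfold psi1
      split_ifs
      · exact hψ0 _
      · exact le_refl _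
    have h2 : 0 ≤ volDen D.g' x := Real.sqrt_nonneg _
    have h3 : 0 ≤ len D.g' x (D.G x) ^ P.eps * beps P.eps D.g' x (D.G x) (D.h' x) := by
      rcases eq_or_ne (D.G x) 0 with h0 | h0
      · have : len D.g' x (D.G x) = 0 := by
          rw [h0]
          simp [len, ev]
        rw [this, Real.zero_rpow hε.ne', zero_mul]
      · refine mul_nonneg (Real.rpow_nonneg (Real.sqrt_nonneg _) _) ?_
        exact beps_nonneg hε hε1 (hD.modified.metric.posDef x trivial)
          (hD.modified.tensor.symm x trivial) (hD.modified.twoNonneg x trivial) h0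
    exact mul_nonneg (mul_nonneg h3 h1) h2
  -- the left side
  have hmeas : MeasurableSet (Ann (1 / D.R) D.R) := by
    have : Ann (1 / D.R) D.R = (fun x : E3 => ‖x‖) ⁻¹' Set.Ioo (1 / D.R) D.R := rfl
    rw [this]
    exact measurableSet_Ioo.preimage continuous_norm.measurable
  have hl : ∫ x in Ann (1 / D.R) D.R,
      deriv (psi1 P.eps ψ) (D.u x) * len D.g' x (D.G x) ^ (1 + P.eps) * volDen D.g' x
      = -(P.eps ^ (-P.eps)) * ∫ x in D.Om,
        deriv ψ (D.w P x) * (Real.exp (-D.w P x) * D.X P x ^ (1 + P.eps)) * D.vol x := by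
    rw [← integral_const_mul]
    refine setIntegral_congr_fun hmeas fun x hx => ?_
    have hu := hpos x hx
    have hX : D.X P x = P.eps / D.u x * len D.g' x (D.G x) := by
      have e : D.Gw P x = (-(P.eps / D.u x)) • D.G x := by
        funext i
        simp only [Dat.Gw, gOf, Pi.smul_apply, smul_eq_mul]
        ring
      rw [Dat.X, e, len_smul, abs_neg, abs_of_pos (div_pos hε hu)]
    have hw : Real.exp (-D.w P x) = D.u x ^ P.eps := by
      rw [Dat.w, wOf, Real.rpow_def_of_pos hu]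
      congr 1
      ring
    have hw' : -P.eps * Real.log (D.u x) = D.w P x := rfl
    change deriv (psi1 P.eps ψ) (D.u x) * len D.g' x (D.G x) ^ (1 + P.eps) * volDen D.g' x
      = -(P.eps ^ (-P.eps)) * (deriv ψ (D.w P x)
        * (Real.exp (-D.w P x) * D.X P x ^ (1 + P.eps)) * D.vol x)
    have hlen0 : 0 ≤ len D.g' x (D.G x) := Real.sqrt_nonneg _
    rw [psi1_deriv hψ hu, hX, hw, hw', Real.mul_rpow (div_pos hε hu).le hlen0,
      Real.div_rpow hε.le hu.le, Real.rpow_add hε, Real.rpow_one, Real.rpow_add hu, Real.rpow_one,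
      Real.rpow_neg hε.le]
    have e1 : P.eps ^ P.eps ≠ 0 := (Real.rpow_pos_of_pos hε _).ne'
    have e2 : D.u x ^ P.eps ≠ 0 := (Real.rpow_pos_of_pos hu _).ne'
    have e3 : D.u x ≠ 0 := hu.ne'
    change _ = -(P.eps ^ P.eps)⁻¹ * (_ * _ * volDen D.g' x)
    field_simp
  rw [hl] at key
  have hc : 0 < P.eps ^ (-P.eps) := Real.rpow_pos_of_pos hε _
  have h5 : 0 ≤ -(P.eps ^ (-P.eps)) * ∫ x in D.Om,
        deriv ψ (D.w P x) * (Real.exp (-D.w P x) * D.X P x ^ (1 + P.eps)) * D.vol x := by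
    rw [key]
    exact hr
  nlinarith

end Pool.Agent.PFlow


end

section

/-!
# The mean of `|h|` over large shells (LIMK2)
-/

open MeasureTheory Filter Topology
open scoped ContDiff ENNReal

namespace Pool.Agent.PFlow

open Pool.Agent.PenroseSph

namespace LK

/-! ### Algebra -/

open scoped MatrixOrder ComplexOrder Matrix.Norms.L2Operator in
theorem factor {P : Bil} (hP : P.PosSemidef) : ∃ Q : Bil, P = Q.transpose * Q := by
  obtain ⟨Q, hQ⟩ := CStarAlgebra.nonneg_iff_eq_star_mul_self.mp hP.nonneg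
  refine ⟨Q, ?_⟩
  rw [hQ, Matrix.star_eq_conjTranspose, Matrix.conjTranspose_eq_transpose_of_trivial]

theorem ev_eq (B : Bil) (p q : Cov) : ev B p q = dotProduct p (B.mulVec q) := by
  unfold ev dotProduct Matrix.mulVec dotProduct
  refine Finset.sum_congr rfl fun i _ => ?_
  rw [Finset.mul_sum]
  refine Finset.sum_congr rfl fun j _ => ?_
  ring

theorem ev_factor {P Q : Bil} (hQ : P = Q.transpose * Q) (p q : Cov) :
    ev P p q = ∑ m, (∑ i, Q m i * p i) * ∑ j, Q m j * q j := by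
  rw [hQ]
  unfold ev
  simp only [Matrix.mul_apply, Matrix.transpose_apply, Fin.sum_univ_three]
  ring

theorem ev_lower {C : ℝ} {g : Bil} (hg : g.PosDef)
    (hb : ∀ v : Cov, ev g v v ≤ C * ∑ i, v i ^ 2) (p : Cov) :
    ∑ i, p i ^ 2 ≤ C * ev g⁻¹ p p := by
  have hP : (g⁻¹).PosDef := hg.inv
  obtain ⟨Q, hQ⟩ := factor hP.posSemidef
  have hdet : IsUnit g.det := hg.det_pos.ne'.isUnit
  have hsum : ∀ v : Cov, 0 ≤ ∑ i, v i ^ 2 := fun v => Finset.sum_nonneg fun i _ => sq_nonneg _
  set r : Cov := g.mulVec p with hr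
  have h1 : ev g⁻¹ p r = ∑ i, p i ^ 2 := by
    rw [ev_eq, hr, Matrix.mulVec_mulVec, Matrix.nonsing_inv_mul g hdet, Matrix.one_mulVec]
    unfold dotProduct
    exact Finset.sum_congr rfl fun i _ => by ring
  have h2 : ev g⁻¹ r r = ev g p p := by
    rw [ev_eq, ev_eq, hr, Matrix.mulVec_mulVec, Matrix.nonsing_inv_mul g hdet, Matrix.one_mulVec]
    exact dotProduct_comm _ _
  have h3 : (ev g⁻¹ p r) ^ 2 ≤ ev g⁻¹ p p * ev g⁻¹ r r := by
    rw [ev_factor hQ, ev_factor hQ, ev_factor hQ]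
    have := Finset.sum_mul_sq_le_sq_mul_sq Finset.univ (fun m => ∑ i, Q m i * p i)
      (fun m => ∑ i, Q m i * r i)
    simpa only [pow_two] using this
  have h4 := hb p
  have h5 : 0 ≤ ev g⁻¹ p p := by
    rw [ev_factor hQ]
    exact Finset.sum_nonneg fun m _ => mul_self_nonneg _
  rw [h1, h2] at h3
  by_cases hv : ∑ i, p i ^ 2 = 0
  · rw [hv]
    have hp : p = 0 := by
      funext i
      have := (Finset.sum_eq_zero_iff_of_nonneg (fun i _ => sq_nonneg (p i))).mp hv i
        (Finset.mem_univ i)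
      simpa using this
    rw [hp]
    simp [ev]
  · have hv' : 0 < ∑ i, p i ^ 2 := lt_of_le_of_ne (hsum p) (Ne.symm hv)
    have h6 : (∑ i, p i ^ 2) ^ 2 ≤ ev g⁻¹ p p * (C * ∑ i, p i ^ 2) :=
      h3.trans (mul_le_mul_of_nonneg_left h4 h5)
    have h7 : (∑ i, p i ^ 2) * (∑ i, p i ^ 2) ≤ (C * ev g⁻¹ p p) * ∑ i, p i ^ 2 := by
      calc (∑ i, p i ^ 2) * (∑ i, p i ^ 2) = (∑ i, p i ^ 2) ^ 2 := by ring
        _ ≤ _ := h6
        _ = _ := by ring
    exact le_of_mul_le_mul_right h7 hv'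

theorem nsq_factor {g : TensorField} {x : E3} {Q : Bil} (hQ : (g x)⁻¹ = Q.transpose * Q) (H : Bil) :
    nsq g x H = ∑ m, ev (g x)⁻¹ (fun i => ∑ j, H i j * Q m j) (fun i => ∑ j, H i j * Q m j) := by
  have h1 : nsq g x H = ∑ i, ∑ k, (g x)⁻¹ i k * ∑ j, ∑ l, (g x)⁻¹ j l * (H i j * H k l) := by
    unfold nsq
    refine Finset.sum_congr rfl fun i _ => ?_
    rw [Finset.sum_comm]
    refine Finset.sum_congr rfl fun k _ => ?_
    rw [Finset.mul_sum]
    refine Finset.sum_congr rfl fun j _ => ?_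
    rw [Finset.mul_sum]
    refine Finset.sum_congr rfl fun l _ => ?_
    ring
  have h2 : ∀ i k, ∑ j, ∑ l, (g x)⁻¹ j l * (H i j * H k l) =
      ∑ m, (∑ j, H i j * Q m j) * ∑ j, H k j * Q m j := by
    intro i k
    rw [hQ]
    simp only [Matrix.mul_apply, Matrix.transpose_apply, Fin.sum_univ_three]
    ring
  rw [h1]
  simp only [h2]
  unfold ev
  simp only [Fin.sum_univ_three]
  ring

theorem rows_factor {g : TensorField} {x : E3} {Q : Bil} (hQ : (g x)⁻¹ = Q.transpose * Q)
    (H : Bil) :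
    ∑ m, ∑ i, (∑ j, H i j * Q m j) ^ 2 = ∑ i, ev (g x)⁻¹ (H i) (H i) := by
  unfold ev
  rw [hQ]
  simp only [Matrix.mul_apply, Matrix.transpose_apply, Fin.sum_univ_three]
  ring

theorem msq_le {C : ℝ} (hC : 0 < C) {g : TensorField} {x : E3} (hg : (g x).PosDef)
    (hb : ∀ v : Cov, ev (g x) v v ≤ C * ∑ i, v i ^ 2) (H : Bil) :
    ∑ i, ∑ j, H i j ^ 2 ≤ C ^ 2 * nsq g x H := by
  have hP : ((g x)⁻¹).PosDef := hg.inv
  obtain ⟨Q, hQ⟩ := factor hP.posSemidef
  have lo := ev_lower hg hb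
  have e1 := nsq_factor hQ H
  have e2 := rows_factor hQ H
  have f2 : ∑ i, ev (g x)⁻¹ (H i) (H i) ≤ C * nsq g x H := by
    rw [e1, ← e2, Finset.mul_sum]
    exact Finset.sum_le_sum fun m _ => lo _
  have f4 : ∑ i, ∑ j, H i j ^ 2 ≤ C * ∑ i, ev (g x)⁻¹ (H i) (H i) := by
    rw [Finset.mul_sum]
    exact Finset.sum_le_sum fun m _ => lo _
  calc ∑ i, ∑ j, H i j ^ 2 ≤ C * ∑ i, ev (g x)⁻¹ (H i) (H i) := f4
    _ ≤ C * (C * nsq g x H) := mul_le_mul_of_nonneg_left f2 hC.le
    _ = _ := by ring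

theorem trg_neg (g : TensorField) (x : E3) (B : Bil) : trg g x (-B) = -trg g x B := by
  unfold trg
  simp only [Matrix.neg_apply, Fin.sum_univ_three]
  ring

theorem nsq_neg (g : TensorField) (x : E3) (B : Bil) : nsq g x (-B) = nsq g x B := by
  unfold nsq
  refine Finset.sum_congr rfl fun i _ => Finset.sum_congr rfl fun j _ =>
    Finset.sum_congr rfl fun k _ => Finset.sum_congr rfl fun l _ => ?_
  rw [Matrix.neg_apply, Matrix.neg_apply]
  ring

theorem ev_neg (B : Bil) (v w : Cov) : ev (-B) v w = -ev B v w := by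
  unfold ev
  simp only [Matrix.neg_apply, Fin.sum_univ_three]
  ring

theorem nsq_h (hH : Stmt_HATA) {g h : TensorField} (hT : TwoEnded g h) (hS : PlaneSign g h)
    {x : E3} (hx : x ≠ 0) : nsq g x (h x) ≤ 3 * trg g x (h x) ^ 2 := by
  have hg := hT.metric.posDef x hx
  have hs := hT.tensor.symm x hx
  rcases hS x hx with h1 | h1
  · exact (hH g x (h x) hg hs h1).2
  · have h2 := (hH g x (-h x) hg hs.neg fun v hv => by
      rw [ev_neg, trg_neg]
      exact neg_le_neg (h1 v hv)).2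
    rw [nsq_neg, trg_neg, neg_sq] at h2
    exact h2

/-- the tail of an integrable function over shells -/
theorem shell_tendsto {F : E3 → ℝ} (hF : IntegrableOn F {x : E3 | 1 ≤ ‖x‖}) :
    Tendsto (fun l : ℝ => ∫ x in cAnn (l / 2) l, F x) atTop (𝓝 0) := by
  have hS : MeasurableSet {x : E3 | 1 ≤ ‖x‖} := measurableSet_le measurable_const measurable_norm
  have hA : ∀ l : ℝ, MeasurableSet (cAnn (l / 2) l) := fun l =>
    (measurableSet_le measurable_const measurable_norm).inter
      (measurableSet_le measurable_norm measurable_const)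
  have hFi : Integrable (Set.indicator {x : E3 | 1 ≤ ‖x‖} F) := (integrable_indicator_iff hS).mpr hF
  have e : ∀ᶠ l : ℝ in atTop, ∫ x, Set.indicator (cAnn (l / 2) l)
      (Set.indicator {x : E3 | 1 ≤ ‖x‖} F) x = ∫ x in cAnn (l / 2) l, F x := by
    filter_upwards [eventually_ge_atTop (2 : ℝ)] with l hl
    rw [integral_indicator (hA l)]
    refine setIntegral_congr_fun (hA l) fun x hx => ?_
    have : x ∈ {x : E3 | 1 ≤ ‖x‖} := by
      have h1 : l / 2 ≤ ‖x‖ := hx.1
      show 1 ≤ ‖x‖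
      linarith
    simp only [Set.indicator_of_mem this]
  refine Tendsto.congr' e ?_
  have h0 : (0 : ℝ) = ∫ _ : E3, (0 : ℝ) := by simp
  rw [h0]
  refine tendsto_integral_filter_of_dominated_convergence
    (fun x => ‖Set.indicator {x : E3 | 1 ≤ ‖x‖} F x‖) ?_ ?_ hFi.norm ?_
  · exact Eventually.of_forall fun l => hFi.aestronglyMeasurable.indicator (hA l)
  · exact Eventually.of_forall fun l => Eventually.of_forall fun x =>
      norm_indicator_le_norm_self _ x
  · refine Eventually.of_forall fun x => ?_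
    refine tendsto_const_nhds.congr' ?_
    filter_upwards [eventually_gt_atTop (2 * ‖x‖)] with l hl
    rw [Set.indicator_of_notMem]
    intro hx
    have h1 : l / 2 ≤ ‖x‖ := hx.1
    linarith

end LK

/-- LIMK2: the mean of `|h|` over large shells. -/
theorem LIMK2 (hAFD : Stmt_AFD) (hHATA : Stmt_HATA) (hTINT : Stmt_TINT) : Stmt_LIMK2 := by
  intro g h hT hD hS hF
  obtain ⟨C, hC, -, -, hell, -⟩ := hAFD g h hT
  have hI := hTINT g h hT hD hS hF
  have hpt : ∀ x : E3, 1 ≤ ‖x‖ → msz (h x) ≤ 2 * C * |trg g x (h x)| := by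
    intro x hx
    have hx0 : x ≠ 0 := by
      intro h0
      rw [h0, norm_zero] at hx
      linarith
    have h1 := LK.msq_le hC (hT.metric.posDef x hx0) (fun v => (hell x hx v).2) (h x)
    have h2 := LK.nsq_h hHATA hT hS hx0
    unfold msz
    rw [Real.sqrt_le_left (by positivity)]
    have h3 := sq_abs (trg g x (h x))
    have h4 := mul_le_mul_of_nonneg_left h2 (sq_nonneg C)
    have h5 : 0 ≤ C ^ 2 * trg g x (h x) ^ 2 := by positivity
    calc ∑ i, ∑ j, h x i j ^ 2 ≤ C ^ 2 * nsq g x (h x) := h1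
      _ ≤ C ^ 2 * (3 * trg g x (h x) ^ 2) := h4
      _ ≤ 4 * (C ^ 2 * trg g x (h x) ^ 2) := by linarith
      _ = (2 * C * |trg g x (h x)|) ^ 2 := by rw [mul_pow, mul_pow, h3]; ring
  have hlim := (LK.shell_tendsto hI).const_mul (2 * C)
  rw [mul_zero] at hlim
  refine squeeze_zero' ?_ ?_ hlim
  · filter_upwards [eventually_gt_atTop (0 : ℝ)] with l hl
    refine integral_nonneg fun x => ?_
    unfold msz
    positivity
  · filter_upwards [eventually_ge_atTop (2 : ℝ)] with l hl
    have hA : MeasurableSet (cAnn (l / 2) l) :=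
      (measurableSet_le measurable_const measurable_norm).inter
        (measurableSet_le measurable_norm measurable_const)
    rw [← integral_const_mul]
    refine integral_mono_of_nonneg ?_ ?_ ?_
    · refine Eventually.of_forall fun x => ?_
      simp only [Pi.zero_apply]
      unfold msz
      positivity
    · refine Integrable.const_mul ?_ _
      refine hI.mono_set fun x hx => ?_
      have h1 : l / 2 ≤ ‖x‖ := hx.1
      show 1 ≤ ‖x‖
      linarith
    · refine (ae_restrict_mem hA).mono fun x hx => ?_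
      have h1 : l / 2 ≤ ‖x‖ := hx.1
      have h2 : ‖x‖ ≤ l := hx.2
      have h3 : 0 < ‖x‖ := by linarith
      simp only
      calc msz (h x) / l ≤ (2 * C * |trg g x (h x)|) / l := by
            gcongr
            exact hpt x (by linarith)
        _ ≤ (2 * C * |trg g x (h x)|) / ‖x‖ := by gcongr
        _ = _ := by ring

end Pool.Agent.PFlow


end

section

/-!
# MODM: the constant of the modified data may be increased
-/

open MeasureTheory Filter Topology
open scoped ContDiff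

namespace Pool.Agent.PFlow

open Pool.Agent.PenroseSph

namespace EMODM

lemma decay_mono {C C' : ℝ} {g h : TensorField} (hC : C ≤ C') (hd : DecayFrom C 1 g h) :
    DecayFrom C' 1 g h := by
  intro x hx i j
  have hr : 0 < ‖x‖ := by linarith
  obtain ⟨h1, h2, h3, h4, h5⟩ := hd x hx i j
  have hm : ∀ n : ℕ, C / ‖x‖ ^ n ≤ C' / ‖x‖ ^ n := fun n =>
    div_le_div_of_nonneg_right hC (by positivity)
  have hm1 : C / ‖x‖ ≤ C' / ‖x‖ := div_le_div_of_nonneg_right hC hr.le
  exact ⟨h1.trans hm1, fun k => (h2 k).trans (hm 2), fun k l => (h3 k l).trans (hm 3),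
    h4.trans (hm 2), fun k => (h5 k).trans (hm 3)⟩

lemma ev_nonneg {B : Bil} (hB : B.PosDef) (v : Cov) : 0 ≤ ev B v v := by
  have h := hB.posSemidef.dotProduct_mulVec_nonneg v
  have e : ev B v v = star v ⬝ᵥ (B.mulVec v) := by
    simp only [ev, dotProduct, Matrix.mulVec, Pi.star_apply, star_trivial]
    refine Finset.sum_congr rfl fun i _ => ?_
    rw [Finset.mul_sum]
    refine Finset.sum_congr rfl fun j _ => ?_
    ring
  rw [e]
  exact h

end EMODM

theorem MODM : Stmt_MODM := by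
  intro g h C C' l R g' h' e hl hR hC hM
  have hR' : 0 < 1 / (8 * R) := by positivity
  refine { hM with
    barrier := ?_
    decay1 := EMODM.decay_mono hC hM.decay1
    hsmall := ?_
    decay2 := EMODM.decay_mono hC hM.decay2
    hsmall2 := ?_
    elliptic := ?_
    shell := ?_
    trans := ?_
    trans_sup := ?_ }
  · intro ε h1 h2 x hx
    exact (hM.barrier ε h1 h2 x hx).trans (div_le_div_of_nonneg_right hC (by positivity))
  · intro x hx i j
    exact (hM.hsmall x hx i j).trans (div_le_div_of_nonneg_right hC (by positivity))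
  · intro x hx hx1
    exact (hM.hsmall2 x hx hx1).trans (mul_le_mul_of_nonneg_right hC (by positivity))
  · intro x hx v
    obtain ⟨h1, h2⟩ := hM.elliptic x hx v
    have h3 := EMODM.ev_nonneg (hM.metric.posDef x (Set.mem_univ x)) v
    have h4 : 0 ≤ ∑ i, v i ^ 2 := Finset.sum_nonneg fun i _ => sq_nonneg _
    exact ⟨h1.trans (mul_le_mul_of_nonneg_right hC h3),
      h2.trans (mul_le_mul_of_nonneg_right hC h4)⟩
  · intro x hx hx1
    have h1 := hM.shell x hx hx1
    have h2 : 0 ≤ msz (h x) / l + msz (h x) ^ 2 := by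
      have : 0 ≤ msz (h x) := Real.sqrt_nonneg _
      positivity
    have h3 := mul_le_mul_of_nonneg_right hC h2
    linarith
  · intro x hx hx1
    exact (hM.trans x hx hx1).trans (div_le_div_of_nonneg_right hC (by positivity))
  · intro x hx hx1
    exact (hM.trans_sup x hx hx1).trans (div_le_div_of_nonneg_right hC (by positivity))

end Pool.Agent.PFlow


end

section

/-!
# Module PTD: pointwise properties of the dissipation
-/

open MeasureTheory Filter Topology
open scoped ContDiff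

namespace Pool.Agent.PFlow

open Pool.Agent.PenroseSph

namespace EPTD

/-! ## Algebra in an orthonormal frame -/

/-- The Frobenius norm bounds the mixed part and the trace part. -/
theorem bessel (B : Bil) (hB : B.IsSymm) (n : Cov) (N T : ℝ) (hn : ∑ i, n i * n i = 1)
    (hN : ∑ i, ∑ j, B i j * n i * n j = N) (hT : ∑ i, B i i = T + N) :
    2 * (∑ i, (∑ j, B i j * n j) ^ 2) - N ^ 2 + T ^ 2 / 2 ≤ ∑ i, ∑ j, B i j * B i j := by
  have key : 0 ≤ ∑ i : Fin 3, ∑ j : Fin 3,
      (B i j - n i * (∑ k, B j k * n k) - (∑ k, B i k * n k) * n j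
        + (N + T / 2) * (n i * n j) - T / 2 * (if i = j then 1 else 0)) ^ 2 :=
    Finset.sum_nonneg fun i _ => Finset.sum_nonneg fun j _ => sq_nonneg _
  have h01 : ¬ ((0 : Fin 3) = 1) := by decide
  have h02 : ¬ ((0 : Fin 3) = 2) := by decide
  have h10 : ¬ ((1 : Fin 3) = 0) := by decide
  have h12 : ¬ ((1 : Fin 3) = 2) := by decide
  have h20 : ¬ ((2 : Fin 3) = 0) := by decide
  have h21 : ¬ ((2 : Fin 3) = 1) := by decide
  have s10 : B 1 0 = B 0 1 := hB.apply 0 1
  have s20 : B 2 0 = B 0 2 := hB.apply 0 2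
  have s21 : B 2 1 = B 1 2 := hB.apply 1 2
  simp only [Fin.sum_univ_three, if_true, if_neg h01, if_neg h02, if_neg h10, if_neg h12,
    if_neg h20, if_neg h21, s10, s20, s21] at key hn hN hT ⊢
  generalize hb0 : B 0 0 * n 0 + B 0 1 * n 1 + B 0 2 * n 2 = b0 at key ⊢
  generalize hb1 : B 0 1 * n 0 + B 1 1 * n 1 + B 1 2 * n 2 = b1 at key ⊢
  generalize hb2 : B 0 2 * n 0 + B 1 2 * n 1 + B 2 2 * n 2 = b2 at key ⊢
  have hf : b0 * n 0 + b1 * n 1 + b2 * n 2 = N := by
    rw [← hN, ← hb0, ← hb1, ← hb2]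
    ring
  have e : (B 0 0 - n 0 * b0 - b0 * n 0 + (N + T / 2) * (n 0 * n 0) - T / 2 * 1) ^ 2 +
            (B 0 1 - n 0 * b1 - b0 * n 1 + (N + T / 2) * (n 0 * n 1) - T / 2 * 0) ^ 2 +
          (B 0 2 - n 0 * b2 - b0 * n 2 + (N + T / 2) * (n 0 * n 2) - T / 2 * 0) ^ 2 +
        ((B 0 1 - n 1 * b0 - b1 * n 0 + (N + T / 2) * (n 1 * n 0) - T / 2 * 0) ^ 2 +
            (B 1 1 - n 1 * b1 - b1 * n 1 + (N + T / 2) * (n 1 * n 1) - T / 2 * 1) ^ 2 +
          (B 1 2 - n 1 * b2 - b1 * n 2 + (N + T / 2) * (n 1 * n 2) - T / 2 * 0) ^ 2) +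
      ((B 0 2 - n 2 * b0 - b2 * n 0 + (N + T / 2) * (n 2 * n 0) - T / 2 * 0) ^ 2 +
          (B 1 2 - n 2 * b1 - b2 * n 1 + (N + T / 2) * (n 2 * n 1) - T / 2 * 0) ^ 2 +
        (B 2 2 - n 2 * b2 - b2 * n 2 + (N + T / 2) * (n 2 * n 2) - T / 2 * 1) ^ 2)
      = B 0 0 * B 0 0 + B 0 1 * B 0 1 + B 0 2 * B 0 2
        + (B 0 1 * B 0 1 + B 1 1 * B 1 1 + B 1 2 * B 1 2)
        + (B 0 2 * B 0 2 + B 1 2 * B 1 2 + B 2 2 * B 2 2)
        - 2 * (b0 ^ 2 + b1 ^ 2 + b2 ^ 2) + N ^ 2 - T ^ 2 / 2 := by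
    linear_combination (2 * (b0 ^ 2 + b1 ^ 2 + b2 ^ 2)
        + (N + T / 2) ^ 2 * (1 + (n 0 * n 0 + n 1 * n 1 + n 2 * n 2))
        - 4 * (N + T / 2) * (b0 * n 0 + b1 * n 1 + b2 * n 2) - 2 * (N + T / 2) * (T / 2)) * hn
      - (4 * b0 - 2 * (N + T / 2) * n 0) * hb0 - (4 * b1 - 2 * (N + T / 2) * n 1) * hb1
      - (4 * b2 - 2 * (N + T / 2) * n 2) * hb2
      - (2 * (N + T / 2) - 4 * N + 2 * (N - (b0 * n 0 + b1 * n 1 + b2 * n 2)) - 4 * (T / 2)) * hf
      - 2 * (T / 2) * hT
  linarith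

/-- Positivity of `tr K + K(n,n)` when the traces over all planes are nonnegative. -/
theorem plane_pos (K : Bil) (n : Cov) (hn : ∑ i, n i * n i = 1)
    (hK : ∀ w : Cov, ev K w w ≤ (∑ i, K i i) * ∑ i, w i * w i) :
    0 ≤ (∑ i, K i i) + ∑ i, ∑ j, K i j * n i * n j := by
  have h0 := hK (fun i => (if i = 0 then 1 else 0) - n 0 * n i)
  have h1 := hK (fun i => (if i = 1 then 1 else 0) - n 1 * n i)
  have h2 := hK (fun i => (if i = 2 then 1 else 0) - n 2 * n i)
  have h01 : ¬ ((0 : Fin 3) = 1) := by decide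
  have h02 : ¬ ((0 : Fin 3) = 2) := by decide
  have h10 : ¬ ((1 : Fin 3) = 0) := by decide
  have h12 : ¬ ((1 : Fin 3) = 2) := by decide
  have h20 : ¬ ((2 : Fin 3) = 0) := by decide
  have h21 : ¬ ((2 : Fin 3) = 1) := by decide
  unfold ev at h0 h1 h2
  simp only [Fin.sum_univ_three, if_true, if_neg h01, if_neg h02, if_neg h10, if_neg h12,
    if_neg h20, if_neg h21] at h0 h1 h2 hn ⊢
  generalize hS : K 0 0 + K 1 1 + K 2 2 = S at h0 h1 h2 ⊢
  generalize hQ : K 0 0 * n 0 * n 0 + K 0 1 * n 0 * n 1 + K 0 2 * n 0 * n 2 +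
    (K 1 0 * n 1 * n 0 + K 1 1 * n 1 * n 1 + K 1 2 * n 1 * n 2) +
    (K 2 0 * n 2 * n 0 + K 2 1 * n 2 * n 1 + K 2 2 * n 2 * n 2) = Q
  have h3 := add_le_add (add_le_add h0 h1) h2
  have e : S + Q = (S * ((1 - n 0 * n 0) * (1 - n 0 * n 0) + (0 - n 0 * n 1) * (0 - n 0 * n 1)
      + (0 - n 0 * n 2) * (0 - n 0 * n 2))
      + S * ((0 - n 1 * n 0) * (0 - n 1 * n 0) + (1 - n 1 * n 1) * (1 - n 1 * n 1)
      + (0 - n 1 * n 2) * (0 - n 1 * n 2))
      + S * ((0 - n 2 * n 0) * (0 - n 2 * n 0) + (0 - n 2 * n 1) * (0 - n 2 * n 1)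
      + (1 - n 2 * n 2) * (1 - n 2 * n 2)))
      - (K 0 0 * (1 - n 0 * n 0) * (1 - n 0 * n 0) + K 0 1 * (1 - n 0 * n 0) * (0 - n 0 * n 1)
        + K 0 2 * (1 - n 0 * n 0) * (0 - n 0 * n 2)
        + (K 1 0 * (0 - n 0 * n 1) * (1 - n 0 * n 0) + K 1 1 * (0 - n 0 * n 1) * (0 - n 0 * n 1)
        + K 1 2 * (0 - n 0 * n 1) * (0 - n 0 * n 2))
        + (K 2 0 * (0 - n 0 * n 2) * (1 - n 0 * n 0) + K 2 1 * (0 - n 0 * n 2) * (0 - n 0 * n 1)
        + K 2 2 * (0 - n 0 * n 2) * (0 - n 0 * n 2))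
      + (K 0 0 * (0 - n 1 * n 0) * (0 - n 1 * n 0) + K 0 1 * (0 - n 1 * n 0) * (1 - n 1 * n 1)
        + K 0 2 * (0 - n 1 * n 0) * (0 - n 1 * n 2)
        + (K 1 0 * (1 - n 1 * n 1) * (0 - n 1 * n 0) + K 1 1 * (1 - n 1 * n 1) * (1 - n 1 * n 1)
        + K 1 2 * (1 - n 1 * n 1) * (0 - n 1 * n 2))
        + (K 2 0 * (0 - n 1 * n 2) * (0 - n 1 * n 0) + K 2 1 * (0 - n 1 * n 2) * (1 - n 1 * n 1)
        + K 2 2 * (0 - n 1 * n 2) * (0 - n 1 * n 2)))
      + (K 0 0 * (0 - n 2 * n 0) * (0 - n 2 * n 0) + K 0 1 * (0 - n 2 * n 0) * (0 - n 2 * n 1)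
        + K 0 2 * (0 - n 2 * n 0) * (1 - n 2 * n 2)
        + (K 1 0 * (0 - n 2 * n 1) * (0 - n 2 * n 0) + K 1 1 * (0 - n 2 * n 1) * (0 - n 2 * n 1)
        + K 1 2 * (0 - n 2 * n 1) * (1 - n 2 * n 2))
        + (K 2 0 * (1 - n 2 * n 2) * (0 - n 2 * n 0) + K 2 1 * (1 - n 2 * n 2) * (0 - n 2 * n 1)
        + K 2 2 * (1 - n 2 * n 2) * (1 - n 2 * n 2)))) := by
    linear_combination hS - (2 - (n 0 * n 0 + n 1 * n 1 + n 2 * n 2)) * hQ
      + (Q - S * (n 0 * n 0 + n 1 * n 1 + n 2 * n 2 - 1)) * hn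
  rw [e]
  linarith

theorem plm_entry (A C : Bil) (i j : Fin 3) :
    plm A C i j = ∑ k, ∑ l, A k i * C k l * A l j := by
  unfold plm
  rw [Matrix.mul_apply]
  simp only [Matrix.mul_apply, Matrix.transpose_apply, Finset.sum_mul]
  exact Finset.sum_comm

theorem ev_mulVec (A C : Bil) (w : Cov) :
    ev C (A.mulVec w) (A.mulVec w) = ev (plm A C) w w := by
  unfold ev
  simp only [plm_entry, Matrix.mulVec, dotProduct, Fin.sum_univ_three]
  ring

theorem plv_div (A : Bil) (f : Cov) (c : ℝ) (i : Fin 3) :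
    plv A (fun i => f i / c) i = plv A f i / c := by
  unfold plv
  rw [Finset.sum_div]
  exact Finset.sum_congr rfl fun j _ => by ring

theorem ev_div (B : Bil) (v : Cov) (c : ℝ) :
    ev B (fun i => v i / c) (fun i => v i / c) = ev B v v / c ^ 2 := by
  unfold ev
  rw [Finset.sum_div]
  refine Finset.sum_congr rfl fun i _ => ?_
  rw [Finset.sum_div]
  refine Finset.sum_congr rfl fun j _ => ?_
  ring

theorem plm_sub (A C D : Bil) : plm A (C - D) = plm A C - plm A D := by
  unfold plm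
  rw [Matrix.mul_sub, Matrix.sub_mul]

theorem plm_smul (A C : Bil) (c : ℝ) : plm A (c • C) = c • plm A C := by
  unfold plm
  rw [Matrix.mul_smul, Matrix.smul_mul]

/-- An orthonormal frame at a point, with the unit vector `n` in the direction of `p`. -/
theorem frame (g : TensorField) (x : E3) (hg : (g x).PosDef) (p : Cov) (hp : p ≠ 0) :
    ∃ (A : Bil) (n : Cov), 0 < len g x p ∧ ∑ i, n i * n i = 1 ∧
      (∀ i, plv A p i = len g x p * n i) ∧
      (∀ C, bnn g x p C = ∑ i, ∑ j, plm A C i j * n i * n j) ∧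
      (∀ C, trg g x C = ∑ i, plm A C i i) ∧
      (∀ C, nsq g x C = ∑ i, ∑ j, plm A C i j * plm A C i j) ∧
      (∀ C : Bil, C.IsSymm → (plm A C).IsSymm) ∧
      (∀ q, ev (g x)⁻¹ q q = ∑ i, plv A q i * plv A q i) ∧
      (∀ (C : Bil) i, plv A (fun i => ∑ j, C i j * nrm g x p j) i = ∑ j, plm A C i j * n j) ∧
      plm A (g x) = 1 := by
  obtain ⟨A, hdet, hP, hev, htr, hdd, hqf, happ, hsymm, hne⟩ := FR (g x)⁻¹ hg.inv
  have hv := hne p hp
  have hlen : len g x p ^ 2 = ∑ i, plv A p i * plv A p i := by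
    unfold len
    rw [Real.sq_sqrt]
    · exact hev p p
    · rw [hev p p]
      exact Finset.sum_nonneg fun i _ => mul_self_nonneg _
  have hpos : 0 < ∑ i, plv A p i * plv A p i := by
    obtain ⟨i, hi⟩ := Function.ne_iff.mp hv
    refine Finset.sum_pos' (fun i _ => mul_self_nonneg _) ⟨i, Finset.mem_univ i, ?_⟩
    exact mul_self_pos.mpr hi
  have hlen0 : 0 < len g x p := by
    refine lt_of_le_of_ne (Real.sqrt_nonneg _) fun h0 => ?_
    have h0' : len g x p = 0 := h0.symm
    rw [h0'] at hlen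
    rw [← hlen] at hpos
    norm_num at hpos
  refine ⟨A, fun i => plv A p i / len g x p, hlen0, ?_, ?_, ?_, htr, fun C => hdd C C, hsymm,
    fun q => hev q q, ?_, ?_⟩
  · have h3 : ∀ i, plv A p i / len g x p * (plv A p i / len g x p) =
        plv A p i * plv A p i / len g x p ^ 2 := by
      intro i
      ring
    rw [Finset.sum_congr rfl fun i _ => h3 i, ← Finset.sum_div, hlen, div_self hpos.ne']
  · intro i
    field_simp
  · intro C
    have h1 : bnn g x p C = ev C (raise g x p) (raise g x p) / len g x p ^ 2 :=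
      ev_div C (raise g x p) (len g x p)
    have h2 : ev C (raise g x p) (raise g x p) = ev (plm A C) (plv A p) (plv A p) := hqf C p
    rw [h1, h2]
    exact (ev_div (plm A C) (plv A p) (len g x p)).symm
  · intro C i
    have h1 : (fun i => ∑ j, C i j * nrm g x p j) = fun i => app (g x)⁻¹ C p i / len g x p := by
      funext i
      unfold app
      rw [Finset.sum_div]
      refine Finset.sum_congr rfl fun j _ => ?_
      have h2 : nrm g x p j = up (g x)⁻¹ p j / len g x p := rfl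
      rw [h2]
      ring
    rw [h1, plv_div, happ C p, Finset.sum_div]
    refine Finset.sum_congr rfl fun j _ => ?_
    ring
  · have h1 : (g x)⁻¹ * g x = 1 := Matrix.nonsing_inv_mul _
      ((Matrix.isUnit_iff_isUnit_det _).1 hg.isUnit)
    rw [hP, Matrix.mul_assoc] at h1
    unfold plm
    exact mul_eq_one_comm.1 h1

/-- The frame version of the plane conditions. -/
theorem plane_frame {g h : TensorField} {x : E3} {A : Bil}
    (htr : trg g x (h x) = ∑ i, plm A (h x) i i) (hA : plm A (g x) = 1)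
    (hpl : ∀ v : Cov, ev (g x) v v = 1 → ev (h x) v v ≤ trg g x (h x)) (w : Cov) :
    ev (plm A (h x)) w w ≤ (∑ i, plm A (h x) i i) * ∑ i, w i * w i := by
  have hw0 : 0 ≤ ∑ i, w i * w i := Finset.sum_nonneg fun i _ => mul_self_nonneg _
  rcases hw0.eq_or_lt with h0 | hpos
  · have hw : w = 0 := by
      funext i
      have h1 := (Finset.sum_eq_zero_iff_of_nonneg fun i _ => mul_self_nonneg (w i)).1 h0.symm i
        (Finset.mem_univ i)
      exact mul_self_eq_zero.1 h1
    subst hw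
    unfold ev
    simp
  · have hr : 0 < Real.sqrt (∑ i, w i * w i) := Real.sqrt_pos.2 hpos
    have hr2 : Real.sqrt (∑ i, w i * w i) ^ 2 = ∑ i, w i * w i := Real.sq_sqrt hw0
    have h1 := hpl (A.mulVec fun i => w i / Real.sqrt (∑ i, w i * w i)) (by
      rw [ev_mulVec, hA, ev_div, hr2]
      have h2 : ev (1 : Bil) w w = ∑ i, w i * w i := by
        unfold ev
        refine Finset.sum_congr rfl fun i _ => ?_
        rw [Finset.sum_eq_single i]
        · rw [Matrix.one_apply_eq, one_mul]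
        · intro j _ hj
          rw [Matrix.one_apply_ne hj.symm]
          ring
        · intro hi
          exact absurd (Finset.mem_univ i) hi
      rw [h2, div_self hpos.ne'])
    rw [ev_mulVec, ev_div, hr2, htr, div_le_iff₀ hpos] at h1
    exact h1

theorem sq_split (c X t n b k : ℝ) :
    (c * X * n + t * (b + k)) ^ 2
      ≤ 2 * (1 - t) ^ 2 * c ^ 2 * X ^ 2 * (n * n)
        + 4 * t ^ 2 * (c ^ 2 * X ^ 2 * (n * n) + 2 * c * X * (b * n) + b ^ 2) + 4 * t ^ 2 * k ^ 2 := by
  nlinarith [sq_nonneg ((1 - t) * c * X * n - t * (c * X * n + b + k)),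
    mul_nonneg (sq_nonneg t) (sq_nonneg (c * X * n + b - k))]

theorem cHess_symm {g : TensorField} {x : E3} {p : Cov} {M : Bil} (hM : M.IsSymm)
    (hch : ∀ k i j, christoffel g k i j x = christoffel g k j i x) :
    (cHess g x p M).IsSymm := by
  refine Matrix.IsSymm.ext fun i j => ?_
  unfold cHess
  simp only [Matrix.of_apply]
  rw [hM.apply i j]
  congr 1
  exact Finset.sum_congr rfl fun k _ => by rw [hch k j i]

end EPTD

open EPTD in
/-- **(PTD)** Pointwise properties of the dissipation. -/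
theorem PTD : Stmt_PTD := by
  intro ε hε hε2
  refine ⟨8 / ε, by positivity, ?_⟩
  intro g h x p M hg hh hM hch hp hpl heq
  obtain ⟨A, n, hX, hn, hpA, hbnn, htrg, hnsq, hsymm, hev, hplv, hA⟩ := frame g x hg p hp
  have hH : (cHess g x p M).IsSymm := cHess_symm hM hch
  have hB : (tenB g h x p M).IsSymm := by
    unfold tenB
    exact (hH.smul _).sub hh
  have hBf : plm A (tenB g h x p M)
      = (len g x p)⁻¹ • plm A (cHess g x p M) - plm A (h x) := by
    unfold tenB
    rw [plm_sub, plm_smul]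
  have hbt : ∀ C, btan g x p C = trg g x C - bnn g x p C := fun C => rfl
  set X := len g x p with hXdef
  -- linearity
  have hbnnB : bnn g x p (tenB g h x p M)
      = X⁻¹ * bnn g x p (cHess g x p M) - bnn g x p (h x) := by
    rw [hbnn, hbnn, hbnn, hBf]
    simp only [Matrix.sub_apply, Matrix.smul_apply, smul_eq_mul, Fin.sum_univ_three]
    ring
  have htrB : trg g x (tenB g h x p M) = X⁻¹ * trg g x (cHess g x p M) - trg g x (h x) := by
    rw [htrg, htrg, htrg, hBf]
    simp only [Matrix.sub_apply, Matrix.smul_apply, smul_eq_mul, Fin.sum_univ_three]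
    ring
  -- the equation
  have hE : btan g x p (tenB g h x p M) + ε * bnn g x p (tenB g h x p M) = X := by
    have e1 : beps ε g x p (cHess g x p M)
        = trg g x (cHess g x p M) - (1 - ε) * bnn g x p (cHess g x p M) := rfl
    have e2 : beps ε g x p (h x) = trg g x (h x) - (1 - ε) * bnn g x p (h x) := rfl
    rw [e1, e2] at heq
    rw [hbt, htrB, hbnnB]
    have e3 : trg g x (cHess g x p M) = (1 - ε) * bnn g x p (cHess g x p M) + (X ^ 2
        + X * (trg g x (h x) - (1 - ε) * bnn g x p (h x))) := by linarith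
    rw [e3]
    field_simp
    ring
  generalize hz : zed ε g h x p M = z
  generalize hN : bnn g x p (tenB g h x p M) = N at hE
  generalize hT : btan g x p (tenB g h x p M) = T at hE
  have h2e : 0 < 2 - ε := by linarith
  have hzT : z = T - 2 * X / (2 - ε) := by
    rw [← hz, ← hT]
    rfl
  have hNz : N + 1 / (2 - ε) * X = -z / ε := by
    rw [hzT]
    have : N = (X - T) / ε := by
      field_simp
      linarith
    rw [this]
    field_simp
    ring
  -- the algebraic inequality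
  have hNs : ∑ i, ∑ j, plm A (tenB g h x p M) i j * n i * n j = N := by rw [← hN, hbnn]
  have hbes := bessel (plm A (tenB g h x p M)) (hsymm _ hB) n N T hn hNs (by
    rw [← htrg, ← hT, hbt, hN]
    ring)
  rw [← hnsq] at hbes
  have hbn : ∑ i, (∑ j, plm A (tenB g h x p M) i j * n j) * n i = N := by
    rw [← hNs]
    refine Finset.sum_congr rfl fun i _ => ?_
    rw [Finset.sum_mul]
    exact Finset.sum_congr rfl fun j _ => by ring
  have hcs : N ^ 2 ≤ ∑ i, (∑ j, plm A (tenB g h x p M) i j * n j) ^ 2 := by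
    rw [← hbn]
    have h1 := Finset.sum_mul_sq_le_sq_mul_sq Finset.univ
      (fun i => ∑ j, plm A (tenB g h x p M) i j * n j) n
    have h2 : ∑ i, n i ^ 2 = 1 := by
      rw [← hn]
      exact Finset.sum_congr rfl fun i _ => by ring
    rw [h2, mul_one] at h1
    exact h1
  -- the plane condition
  have hplane : 0 ≤ bnn g x p (h x) + btan g x p (h x) / 2 := by
    have h1 := plane_pos (plm A (h x)) n hn (plane_frame (htrg _) hA hpl)
    rw [← htrg, ← hbnn] at h1
    rw [hbt]
    linarith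
  generalize hb2 : ∑ i, (∑ j, plm A (tenB g h x p M) i j * n j) ^ 2 = b2 at hbes hcs
  have hdiss : diss ε g h x p M = nsq g x (tenB g h x p M) / 2 - N ^ 2 / 2 - T ^ 2 / 4
      + (1 / ε - 1 / 4) * z ^ 2
      + 2 * (bnn g x p (h x) + btan g x p (h x) / 2) * X / (2 - ε) := by
    rw [← hN, ← hT, ← hz]
    rfl
  have hlow : (b2 - N ^ 2) + (1 / ε - 1 / 4) * z ^ 2 ≤ diss ε g h x p M := by
    rw [hdiss]
    have h1 : 0 ≤ 2 * (bnn g x p (h x) + btan g x p (h x) / 2) * X / (2 - ε) := by positivity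
    linarith
  have hc1 : 3 / (4 * ε) ≤ 1 / ε - 1 / 4 := by
    have e1 : 1 / ε - 1 / 4 - 3 / (4 * ε) = (1 - ε) / (4 * ε) := by
      field_simp
      ring
    have e2 : 0 ≤ (1 - ε) / (4 * ε) := div_nonneg (by linarith) (by positivity)
    linarith
  have hc0 : 0 < 1 / ε - 1 / 4 := lt_of_lt_of_le (by positivity) hc1
  have hzpos : 0 ≤ (1 / ε - 1 / 4) * z ^ 2 := mul_nonneg hc0.le (sq_nonneg _)
  refine ⟨by linarith, ?_, ?_⟩
  · intro t ht0 ht1
    -- the covector in the frame
    have hq : ∀ i, plv A (fun i => 1 / (2 - ε) * p i + t * (∑ j, cHess g x p M i j * nrm g x p j)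
        / X) i = 1 / (2 - ε) * X * n i + t * ((∑ j, plm A (tenB g h x p M) i j * n j)
          + ∑ j, plm A (h x) i j * n j) := by
      intro i
      have e1 : plv A (fun i => 1 / (2 - ε) * p i
          + t * (∑ j, cHess g x p M i j * nrm g x p j) / X) i
          = 1 / (2 - ε) * plv A p i
            + t / X * plv A (fun i => ∑ j, cHess g x p M i j * nrm g x p j) i := by
        unfold plv
        simp only [Fin.sum_univ_three]
        ring
      rw [e1, hpA, hplv, hBf]
      simp only [Matrix.sub_apply, Matrix.smul_apply, smul_eq_mul, Fin.sum_univ_three]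
      ring
    rw [hev]
    have hk : ∑ i, (∑ j, plm A (h x) i j * n j) ^ 2 ≤ nsq g x (h x) := by
      rw [hnsq]
      refine Finset.sum_le_sum fun i _ => ?_
      have h1 := Finset.sum_mul_sq_le_sq_mul_sq Finset.univ (fun j => plm A (h x) i j) n
      have h2 : ∑ i, n i ^ 2 = 1 := by
        rw [← hn]
        exact Finset.sum_congr rfl fun i _ => by ring
      rw [h2, mul_one] at h1
      refine h1.trans (le_of_eq ?_)
      exact Finset.sum_congr rfl fun j _ => by ring
    have hsum : ∑ i, plv A (fun i => 1 / (2 - ε) * p i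
          + t * (∑ j, cHess g x p M i j * nrm g x p j) / X) i
        * plv A (fun i => 1 / (2 - ε) * p i
          + t * (∑ j, cHess g x p M i j * nrm g x p j) / X) i
        ≤ 2 * (1 - t) ^ 2 * (1 / (2 - ε)) ^ 2 * X ^ 2
          + 4 * t ^ 2 * ((1 / (2 - ε)) ^ 2 * X ^ 2 + 2 * (1 / (2 - ε)) * X * N + b2)
          + 4 * t ^ 2 * ∑ i, (∑ j, plm A (h x) i j * n j) ^ 2 := by
      have h1 : ∀ i, plv A (fun i => 1 / (2 - ε) * p i
          + t * (∑ j, cHess g x p M i j * nrm g x p j) / X) i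
        * plv A (fun i => 1 / (2 - ε) * p i
          + t * (∑ j, cHess g x p M i j * nrm g x p j) / X) i
          ≤ 2 * (1 - t) ^ 2 * (1 / (2 - ε)) ^ 2 * X ^ 2 * (n i * n i)
            + 4 * t ^ 2 * ((1 / (2 - ε)) ^ 2 * X ^ 2 * (n i * n i)
              + 2 * (1 / (2 - ε)) * X * ((∑ j, plm A (tenB g h x p M) i j * n j) * n i)
              + (∑ j, plm A (tenB g h x p M) i j * n j) ^ 2)
            + 4 * t ^ 2 * (∑ j, plm A (h x) i j * n j) ^ 2 := by
        intro i
        rw [hq i, ← _root_.pow_two]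
        exact sq_split _ _ _ _ _ _
      refine (Finset.sum_le_sum fun i _ => h1 i).trans (le_of_eq ?_)
      rw [← hb2, ← hbn]
      simp only [Finset.sum_add_distrib, ← Finset.mul_sum]
      rw [hn]
      ring
    refine hsum.trans ?_
    have hsq : (1 / (2 - ε)) ^ 2 * X ^ 2 + 2 * (1 / (2 - ε)) * X * N + b2
        = (b2 - N ^ 2) + z ^ 2 / ε ^ 2 := by
      have e1 : (N + 1 / (2 - ε) * X) ^ 2 = z ^ 2 / ε ^ 2 := by
        rw [hNz]
        ring
      rw [← e1]
      ring
    rw [hsq]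
    have hz2 : z ^ 2 / ε ^ 2 ≤ 2 / ε * ((1 / ε - 1 / 4) * z ^ 2) := by
      have e1 : z ^ 2 / ε ^ 2 = 1 / ε * (1 / ε) * z ^ 2 := by
        field_simp
      have e2 : 1 / ε ≤ 2 * (1 / ε - 1 / 4) := by
        have : (2 : ℝ) ≤ 1 / ε := by
          rw [le_div_iff₀ hε]
          linarith
        linarith
      rw [e1]
      calc 1 / ε * (1 / ε) * z ^ 2 ≤ 1 / ε * (2 * (1 / ε - 1 / 4)) * z ^ 2 := by gcongr
        _ = 2 / ε * ((1 / ε - 1 / 4) * z ^ 2) := by ring
    have h2le : (1 : ℝ) ≤ 2 / ε := by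
      rw [le_div_iff₀ hε]
      linarith
    have h3 : (b2 - N ^ 2) + z ^ 2 / ε ^ 2 ≤ 2 / ε * diss ε g h x p M := by
      have e1 : b2 - N ^ 2 ≤ 2 / ε * (b2 - N ^ 2) := le_mul_of_one_le_left (by linarith) h2le
      calc (b2 - N ^ 2) + z ^ 2 / ε ^ 2
          ≤ 2 / ε * (b2 - N ^ 2) + 2 / ε * ((1 / ε - 1 / 4) * z ^ 2) := add_le_add e1 hz2
        _ = 2 / ε * ((b2 - N ^ 2) + (1 / ε - 1 / 4) * z ^ 2) := by ring
        _ ≤ 2 / ε * diss ε g h x p M := mul_le_mul_of_nonneg_left hlow (by positivity)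
    have hns0 : 0 ≤ nsq g x (h x) := by
      rw [hnsq]
      exact Finset.sum_nonneg fun i _ => Finset.sum_nonneg fun j _ => mul_self_nonneg _
    have h4 : ∑ i, (∑ j, plm A (h x) i j * n j) ^ 2 ≤ 2 / ε * nsq g x (h x) :=
      hk.trans (le_mul_of_one_le_left hns0 h2le)
    have h5 : (1 / (2 - ε)) ^ 2 ≤ 1 := by
      have e1 : 1 / (2 - ε) ≤ 1 := by
        rw [div_le_one h2e]
        linarith
      have e2 : 0 ≤ 1 / (2 - ε) := by positivity
      exact pow_le_one₀ e2 e1
    have h6 : 2 * (1 - t) ^ 2 * (1 / (2 - ε)) ^ 2 * X ^ 2 ≤ 2 * (1 - t) ^ 2 * X ^ 2 := by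
      have e1 : 0 ≤ 2 * (1 - t) ^ 2 * X ^ 2 := by positivity
      calc 2 * (1 - t) ^ 2 * (1 / (2 - ε)) ^ 2 * X ^ 2
          = (2 * (1 - t) ^ 2 * X ^ 2) * (1 / (2 - ε)) ^ 2 := by ring
        _ ≤ (2 * (1 - t) ^ 2 * X ^ 2) * 1 := mul_le_mul_of_nonneg_left h5 e1
        _ = _ := mul_one _
    have ht2 : 0 ≤ 4 * t ^ 2 := by positivity
    calc _ ≤ 2 * (1 - t) ^ 2 * X ^ 2 + 4 * t ^ 2 * (2 / ε * diss ε g h x p M)
          + 4 * t ^ 2 * (2 / ε * nsq g x (h x)) :=
          add_le_add (add_le_add h6 (mul_le_mul_of_nonneg_left h3 ht2))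
            (mul_le_mul_of_nonneg_left h4 ht2)
      _ = 8 / ε * t ^ 2 * (diss ε g h x p M + nsq g x (h x)) + 2 * (1 - t) ^ 2 * X ^ 2 := by ring
  · intro hh0
    have hT' : T = X⁻¹ * btan g x p (cHess g x p M) := by
      rw [← hT, hbt, hbt, hbnnB, htrB, hh0]
      have e1 : trg g x (0 : Bil) = 0 := by
        unfold trg
        simp
      have e2 : bnn g x p (0 : Bil) = 0 := by
        unfold bnn ev
        simp
      rw [e1, e2]
      ring
    have hfl : flux ε g h x p M = X * btan g x p (cHess g x p M) - X ^ 3 / (2 - ε) := by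
      have e0 : flux ε g h x p M = X * btan g x p (cHess g x p M) - X ^ 3 / (2 - ε)
        - (X ^ 2 * trg g x (h x) - ev (h x) (raise g x p) (raise g x p)) := rfl
      rw [e0, hh0]
      have e1 : trg g x (0 : Bil) = 0 := by
        unfold trg
        simp
      have e2 : ev (0 : Bil) (raise g x p) (raise g x p) = 0 := by
        unfold ev
        simp
      rw [e1, e2]
      ring
    constructor
    · rw [hfl, hzT, hT']
      field_simp
      ring
    · have h1 : (1 / ε - 1 / 4) * z ^ 2 ≤ diss ε g h x p M := by linarith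
      have h4e : 0 < 4 - ε := by linarith
      have h2 : 1 / lam ε * (1 / ε - 1 / 4) = (2 - ε) / 4 := by
        unfold lam
        field_simp
      have h3 : 0 < 1 / lam ε := by
        unfold lam
        positivity
      calc (2 - ε) / 4 * (X * z ^ 2) = 1 / lam ε * (X * ((1 / ε - 1 / 4) * z ^ 2)) := by
            rw [← h2]
            ring
        _ ≤ 1 / lam ε * (X * diss ε g h x p M) :=
            mul_le_mul_of_nonneg_left (mul_le_mul_of_nonneg_left h1 hX.le) h3.le

end Pool.Agent.PFlow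


end
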