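import Mathlib
import Pool.Agent.PFlow.StmtsE3
import Pool.Agent.PFlow.StmtsE5
import Pool.Agent.PFlow.StmtsM
import Pool.Agent.PenroseM.C03
import Pool.Agent.PenroseM.C06
import Pool.Agent.PenroseM.C14
import Pool.Agent.PenroseM.C24
import Pool.Agent.PenroseM.C31

/-! Parts: PFlow.P.CKey, PFlow.P.SupB, PFlow.M_LOGW, PFlow.E.EPS, PFlow.E.JPROD, PFlow.E.TFD -/

section

/-!
# CKEY: the main comparison lemma
-/

open MeasureTheory Filter Topology Set
open scoped ContDiff RealInnerProductSpace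

namespace Pool.Agent.PFlow.PB

open Pool.Agent.PenroseSph Pool.Agent.PFlow

namespace CKEYP

/-! ### The test function -/

lemma hasDerivAt_sq (t : ℝ) : HasDerivAt (fun t : ℝ => (max t 0) ^ 2) (2 * max t 0) t := by
  rcases lt_trichotomy t 0 with ht | ht | ht
  · rw [max_eq_right ht.le, mul_zero]
    refine (hasDerivAt_const t (0 : ℝ)).congr_of_eventuallyEq ?_
    filter_upwards [eventually_lt_nhds ht] with s hs
    rw [max_eq_right hs.le, zero_pow two_ne_zero]
  · subst ht
    rw [max_self, mul_zero, hasDerivAt_iff_isLittleO_nhds_zero]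
    have h1 : (fun h : ℝ => (max (0 + h) 0) ^ 2 - (max (0 : ℝ) 0) ^ 2 - h • (0 : ℝ)) =
        fun h => (max h 0) ^ 2 := by
      funext h
      rw [zero_add, max_self, zero_pow two_ne_zero, sub_zero, smul_zero, sub_zero]
    rw [h1]
    have h2 : (fun h : ℝ => (max h 0) ^ 2) =O[𝓝 0] (fun h : ℝ => h ^ 2) := by
      refine Asymptotics.IsBigO.of_bound 1 (Eventually.of_forall fun h => ?_)
      rw [one_mul, Real.norm_eq_abs, Real.norm_eq_abs, abs_of_nonneg (sq_nonneg _), abs_pow]
      refine pow_le_pow_left₀ (le_max_right _ _) ?_ 2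
      exact max_le (le_abs_self h) (abs_nonneg h)
    exact h2.trans_isLittleO (Asymptotics.isLittleO_pow_id (by norm_num))
  · rw [max_eq_left ht.le]
    have h := hasDerivAt_pow 2 t
    norm_num at h
    refine h.congr_of_eventuallyEq ?_
    filter_upwards [eventually_gt_nhds ht] with s hs
    rw [max_eq_left hs.le]

/-- the test function -/
noncomputable def psi (β t : ℝ) : ℝ := (max t 0) ^ 2 * Real.exp (β * t)

/-- its derivative -/
noncomputable def psi' (β t : ℝ) : ℝ :=
  2 * max t 0 * Real.exp (β * t) + β * psi β t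

lemma hasDerivAt_psi (β t : ℝ) : HasDerivAt (psi β) (psi' β t) t := by
  have h1 : HasDerivAt (fun t : ℝ => Real.exp (β * t)) (Real.exp (β * t) * β) t := by
    have := ((hasDerivAt_id t).const_mul β).exp
    simpa using this
  have h2 := (hasDerivAt_sq t).mul h1
  refine h2.congr_deriv ?_
  simp only [psi', psi]
  ring

lemma contDiff_psi (β : ℝ) : ContDiff ℝ 1 (psi β) := by
  rw [contDiff_one_iff_deriv]
  refine ⟨fun t => (hasDerivAt_psi β t).differentiableAt, ?_⟩
  have : deriv (psi β) = psi' β := by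
    funext t
    exact (hasDerivAt_psi β t).deriv
  rw [this]
  unfold psi' psi
  fun_prop

lemma psi_nonneg (β t : ℝ) : 0 ≤ psi β t := by
  unfold psi
  positivity

lemma psi_of_nonpos (β : ℝ) {t : ℝ} (ht : t ≤ 0) : psi β t = 0 := by
  rw [psi, max_eq_right ht, zero_pow two_ne_zero, zero_mul]

lemma psi'_of_nonpos (β : ℝ) {t : ℝ} (ht : t ≤ 0) : psi' β t = 0 := by
  rw [psi', psi_of_nonpos β ht, max_eq_right ht]
  ring

lemma psi_pos (β : ℝ) {t : ℝ} (ht : 0 < t) : 0 < psi β t := by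
  rw [psi, max_eq_left ht.le]
  positivity

lemma psi'_ge (β t : ℝ) : β * psi β t ≤ psi' β t := by
  have : 0 ≤ 2 * max t 0 * Real.exp (β * t) := by positivity
  rw [psi']
  linarith

/-! ### Calculus -/

lemma contDiff_pd {f : E3 → ℝ} (hf : ContDiff ℝ 2 f) (i : Fin 3) : ContDiff ℝ 1 (pd i f) := by
  have h1 : ContDiff ℝ 1 (fderiv ℝ f) := hf.fderiv_right (by norm_num)
  exact h1.clm_apply contDiff_const

lemma contDiff_gr {f : E3 → ℝ} (hf : ContDiff ℝ 2 f) : ContDiff ℝ 1 (gr f) := by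
  rw [contDiff_euclidean]
  intro i
  exact contDiff_pd hf i

lemma pd_symm {f : E3 → ℝ} (hf : ContDiff ℝ 2 f) (x : E3) (i j : Fin 3) :
    pd i (pd j f) x = pd j (pd i f) x := by
  have h1 : ContDiff ℝ 1 (fderiv ℝ f) := hf.fderiv_right (by norm_num)
  have h2 : DifferentiableAt ℝ (fderiv ℝ f) x := (h1.differentiable (by norm_num)) x
  have key : ∀ i j : Fin 3, pd i (pd j f) x =
      fderiv ℝ (fderiv ℝ f) x (EuclideanSpace.single i 1) (EuclideanSpace.single j 1) := by
    intro i j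
    have h3 : HasFDerivAt (pd j f)
        ((fderiv ℝ (fderiv ℝ f) x).flip (EuclideanSpace.single j 1)) x := by
      have := h2.hasFDerivAt.clm_apply (hasFDerivAt_const (EuclideanSpace.single j (1 : ℝ)) x)
      simp only [ContinuousLinearMap.comp_zero, zero_add] at this
      exact this
    rw [pd, h3.fderiv]
    rfl
  have hs : IsSymmSndFDerivAt ℝ f x :=
    hf.contDiffAt.isSymmSndFDerivAt (by simp)
  rw [key, key]
  exact hs _ _

lemma fderiv_gr {f : E3 → ℝ} (hf : ContDiff ℝ 2 f) (x : E3) (i : Fin 3) :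
    fderiv ℝ (gr f) x (ee i) = hs f i x := by
  have h1 : DifferentiableAt ℝ (gr f) x := ((contDiff_gr hf).differentiable (by norm_num)) x
  ext j
  have h2 : HasFDerivAt (fun y => gr f y j)
      ((EuclideanSpace.proj j : E3 →L[ℝ] ℝ).comp (fderiv ℝ (gr f) x)) x :=
    (EuclideanSpace.proj j : E3 →L[ℝ] ℝ).hasFDerivAt.comp x h1.hasFDerivAt
  have h3 : (fun y => gr f y j) = pd j f := rfl
  rw [h3] at h2
  have h4 : (fderiv ℝ (gr f) x (ee i)) j = pd i (pd j f) x := by
    rw [pd, h2.fderiv]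
    rfl
  rw [h4, pd_symm hf x i j]
  rfl

lemma contDiff_field {A : E3 → E3 → E3} (hA : ContDiff ℝ ∞ (fun z : E3 × E3 => A z.1 z.2))
    {f : E3 → ℝ} (hf : ContDiff ℝ 2 f) : ContDiff ℝ 1 (fun x => A x (gr f x)) := by
  have h1 : ContDiff ℝ 1 (fun x : E3 => (x, gr f x)) := contDiff_id.prodMk (contDiff_gr hf)
  have h2 : ContDiff ℝ 1 (fun z : E3 × E3 => A z.1 z.2) := hA.of_le (by norm_cast)
  exact h2.comp h1

lemma dv_field {A : E3 → E3 → E3} (hA : ContDiff ℝ ∞ (fun z : E3 × E3 => A z.1 z.2))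
    {f : E3 → ℝ} (hf : ContDiff ℝ 2 f) (x : E3) :
    dv (fun x => A x (gr f x)) x = opA A x (gr f x) (fun i => hs f i x) := by
  have h1 : DifferentiableAt ℝ (gr f) x := ((contDiff_gr hf).differentiable (by norm_num)) x
  have h2 : DifferentiableAt ℝ (fun z : E3 × E3 => A z.1 z.2) (x, gr f x) :=
    (hA.differentiable (by simp)) _
  set U := fderiv ℝ (fun z : E3 × E3 => A z.1 z.2) (x, gr f x) with hU
  have q3 : HasFDerivAt (fun y : E3 => (y, gr f y))
      ((ContinuousLinearMap.id ℝ E3).prod (fderiv ℝ (gr f) x)) x :=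
    (hasFDerivAt_id x).prodMk h1.hasFDerivAt
  have q4 : HasFDerivAt (fun y : E3 => (y, gr f x))
      ((ContinuousLinearMap.id ℝ E3).prod (0 : E3 →L[ℝ] E3)) x :=
    (hasFDerivAt_id x).prodMk (hasFDerivAt_const (gr f x) x)
  have q5 : HasFDerivAt (fun ξ : E3 => (x, ξ))
      ((0 : E3 →L[ℝ] E3).prod (ContinuousLinearMap.id ℝ E3)) (gr f x) :=
    (hasFDerivAt_const x (gr f x)).prodMk (hasFDerivAt_id (gr f x))
  have h3 : HasFDerivAt (fun y => A y (gr f y))
      (U.comp ((ContinuousLinearMap.id ℝ E3).prod (fderiv ℝ (gr f) x))) x :=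
    HasFDerivAt.comp (g := fun z : E3 × E3 => A z.1 z.2) x h2.hasFDerivAt q3
  have h4 : HasFDerivAt (fun y => A y (gr f x))
      (U.comp ((ContinuousLinearMap.id ℝ E3).prod (0 : E3 →L[ℝ] E3))) x :=
    HasFDerivAt.comp (g := fun z : E3 × E3 => A z.1 z.2) (f := fun y : E3 => (y, gr f x)) x
      h2.hasFDerivAt q4
  have h5 : HasFDerivAt (A x)
      (U.comp ((0 : E3 →L[ℝ] E3).prod (ContinuousLinearMap.id ℝ E3))) (gr f x) :=
    HasFDerivAt.comp (g := fun z : E3 × E3 => A z.1 z.2) (f := fun ξ : E3 => (x, ξ)) (gr f x)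
      h2.hasFDerivAt q5
  rw [dv, opA, h3.fderiv, h4.fderiv, h5.fderiv, ← Finset.sum_add_distrib]
  refine Finset.sum_congr rfl fun i _ => ?_
  have h6 : (U.comp ((ContinuousLinearMap.id ℝ E3).prod (fderiv ℝ (gr f) x))) (ee i) =
      (U.comp ((ContinuousLinearMap.id ℝ E3).prod (0 : E3 →L[ℝ] E3))) (ee i) +
      (U.comp ((0 : E3 →L[ℝ] E3).prod (ContinuousLinearMap.id ℝ E3))) (hs f i x) := by
    rw [← fderiv_gr hf x i]
    show U (ee i, fderiv ℝ (gr f) x (ee i)) = U (ee i, 0) + U (0, fderiv ℝ (gr f) x (ee i))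
    rw [← map_add]
    congr 1
    simp
  rw [h6]
  rfl

/-! ### Integrability -/

lemma integrable_inner {X Y : E3 → E3} (hX : MemLp X 2) (hY : MemLp Y 2) :
    Integrable (fun x => ⟪X x, Y x⟫) := by
  refine (hX.norm.integrable_mul hY.norm).mono' (hX.1.inner hY.1) (ae_of_all _ fun x => ?_)
  exact norm_inner_le_norm (X x) (Y x)

lemma memLp_A {A : E3 → E3 → E3} {B : E3 → E3 → ℝ} {c L r : ℝ} (hP : PCoef A B c L r)
    {G : E3 → E3} (hG : MemLp G 2) : MemLp (fun x => A x (G x)) 2 := by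
  refine hG.of_le_mul (c := L) ?_ (ae_of_all _ fun x => ?_)
  · exact hP.smoothA.continuous.comp_aestronglyMeasurable
      (aestronglyMeasurable_id.prodMk hG.1)
  · have := hP.lipA x (G x) 0
    rwa [hP.A_zero x, sub_zero, sub_zero] at this

lemma memLp_B {A : E3 → E3 → E3} {B : E3 → E3 → ℝ} {c L r : ℝ} (hP : PCoef A B c L r)
    {G : E3 → E3} (hG : MemLp G 2) : MemLp (fun x => B x (G x)) 2 := by
  refine hG.of_le_mul (c := L) ?_ (ae_of_all _ fun x => ?_)
  · exact hP.smoothB.continuous.comp_aestronglyMeasurable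
      (aestronglyMeasurable_id.prodMk hG.1)
  · have := hP.lipB x (G x) 0
    rwa [hP.B_zero x, sub_zero, sub_zero] at this

lemma memLp_pen {Θ θ : E3 → ℝ} {T t₀ r : ℝ} (hP : Pen Θ θ T t₀ r) {u : E3 → ℝ}
    (hu : MemLp u 2) : MemLp (fun x => Θ x * u x) 2 ∧ MemLp θ 2 := by
  constructor
  · refine hu.of_le_mul (c := T) (hP.contΘ.aestronglyMeasurable.mul hu.1)
      (ae_of_all _ fun x => ?_)
    rw [norm_mul]
    refine mul_le_mul_of_nonneg_right ?_ (norm_nonneg _)
    rw [Real.norm_eq_abs, abs_of_nonneg ((hP.nonneg x).trans (hP.le x))]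
    exact hP.bdd x
  · refine hP.contθ.memLp_of_hasCompactSupport ?_
    refine HasCompactSupport.intro (isCompact_closedBall (0 : E3) r) fun x hx => ?_
    refine hP.outθ x ?_
    rw [mem_closedBall_zero_iff, not_le] at hx
    exact hx.le

end CKEYP

open CKEYP in
theorem ckey_thm (_h1 : API1) (h2 : API2) (hc : CHAIN) : CKEY := by
  intro A B c L r Θ θ T t₀ hP hPen u G hsol s hs f hf hfc v V hv T' hT' hV σ hσ hσv
  have hcpos := hP.c_pos
  set β : ℝ := L ^ 2 / (2 * c * σ) with hβ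
  have hβ0 : 0 ≤ β := by positivity
  have hs2 : s * s = 1 := by rcases hs with rfl | rfl <;> norm_num
  -- the test function
  have hφ : H1 (fun x => psi β (v x)) (fun x => deriv (psi β) (v x) • V x) :=
    hc.bdd v V (psi β) T' hv hT' (contDiff_psi β) (psi_of_nonpos β le_rfl)
  have hd : ∀ t, deriv (psi β) t = psi' β t := fun t => (hasDerivAt_psi β t).deriv
  simp only [hd] at hφ
  set φ : E3 → ℝ := fun x => psi β (v x) with hφdef
  set Φ : E3 → E3 := fun x => psi' β (v x) • V x with hΦdef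
  have e1 := hsol.2 φ Φ hφ
  -- the field
  set X : E3 → E3 := fun x => A x (gr f x) with hX
  have hXd : ContDiff ℝ 1 X := contDiff_field hP.smoothA hf
  have hXc : HasCompactSupport X := by
    refine hfc.mono fun x hx => ?_
    rw [Function.mem_support] at hx ⊢
    intro h
    apply hx
    rw [hX]
    show A x (gr f x) = 0
    rw [h, hP.A_zero]
  have e2 := h2.ibpv X hXd hXc φ Φ hφ
  have hdvc : Continuous (dv X) := by
    have h := hXd.continuous_fderiv (by norm_num)
    unfold dv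
    refine continuous_finsetSum _ fun i _ => ?_
    exact (EuclideanSpace.proj i : E3 →L[ℝ] ℝ).continuous.comp (h.clm_apply continuous_const)
  have hdvs : HasCompactSupport (dv X) := by
    refine (hXc.fderiv ℝ).mono fun x hx => ?_
    rw [Function.mem_support] at hx ⊢
    intro h
    apply hx
    unfold dv
    refine Finset.sum_eq_zero fun i _ => ?_
    rw [h]
    rfl
  -- integrability
  have m1 : MemLp X 2 := hXd.continuous.memLp_of_hasCompactSupport hXc
  have m2 : MemLp (dv X) 2 := hdvc.memLp_of_hasCompactSupport hdvs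
  have m3 := memLp_A hP hsol.1.memG
  have m4 := memLp_B hP hsol.1.memG
  obtain ⟨m5, m6⟩ := memLp_pen hPen hsol.1.memf
  have i1 : Integrable (fun x => ⟪X x, Φ x⟫) := integrable_inner m1 hφ.memG
  have i2 : Integrable (fun x => ⟪A x (G x), Φ x⟫) := integrable_inner m3 hφ.memG
  have i3 : Integrable (fun x => dv X x * φ x) := m2.integrable_mul hφ.memf
  have i4 : Integrable (fun x => (B x (G x) - Θ x * u x + θ x) * φ x) :=
    ((m4.sub m5).add m6).integrable_mul hφ.memf
  -- the function with integral zero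
  set P : E3 → ℝ := fun x => s * ((⟪X x, Φ x⟫ - ⟪A x (G x), Φ x⟫) +
    (dv X x * φ x + (B x (G x) - Θ x * u x + θ x) * φ x)) with hPdef
  have iP : Integrable P := ((i1.sub i2).add (i3.add i4)).const_mul s
  have hP0 : ∫ x, P x = 0 := by
    have j1 : ∫ x, (⟪X x, Φ x⟫ - ⟪A x (G x), Φ x⟫) =
        (∫ x, ⟪X x, Φ x⟫) - ∫ x, ⟪A x (G x), Φ x⟫ := integral_sub i1 i2
    have j2 : ∫ x, (dv X x * φ x + (B x (G x) - Θ x * u x + θ x) * φ x) =
        (∫ x, dv X x * φ x) + ∫ x, (B x (G x) - Θ x * u x + θ x) * φ x := integral_add i3 i4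
    have j3 : ∫ x, ((⟪X x, Φ x⟫ - ⟪A x (G x), Φ x⟫) +
        (dv X x * φ x + (B x (G x) - Θ x * u x + θ x) * φ x)) =
        (∫ x, (⟪X x, Φ x⟫ - ⟪A x (G x), Φ x⟫)) +
        ∫ x, (dv X x * φ x + (B x (G x) - Θ x * u x + θ x) * φ x) :=
      integral_add (i1.sub i2) (i3.add i4)
    rw [hPdef, integral_const_mul, j3, j1, j2, e1, e2]
    ring
  -- the pointwise inequality
  have hpt : ∀ᵐ x, σ / 2 * φ x ≤ P x := by
    filter_upwards [hV, hσv] with x hVx hσx
    rcases le_or_gt (v x) 0 with h | h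
    · have h3 : φ x = 0 := psi_of_nonpos β h
      have h4 : Φ x = 0 := by
        rw [hΦdef]
        show psi' β (v x) • V x = 0
        rw [psi'_of_nonpos β h, zero_smul]
      rw [hPdef]
      show σ / 2 * φ x ≤ s * ((⟪X x, Φ x⟫ - ⟪A x (G x), Φ x⟫) +
        (dv X x * φ x + (B x (G x) - Θ x * u x + θ x) * φ x))
      rw [h3, h4, inner_zero_right, inner_zero_right]
      simp
    · have hVx := hVx h
      have hσx := hσx h
      have h0 : 0 ≤ φ x := psi_nonneg β _
      have h3 : Φ x = psi' β (v x) • (s • (gr f x - G x)) := by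
        rw [hΦdef]
        show psi' β (v x) • V x = _
        rw [hVx]
      have h4 : s * (⟪X x, Φ x⟫ - ⟪A x (G x), Φ x⟫) =
          psi' β (v x) * ⟪A x (gr f x) - A x (G x), gr f x - G x⟫ := by
        rw [← inner_sub_left, h3, inner_smul_right, inner_smul_right]
        calc s * (psi' β (v x) * (s * ⟪A x (gr f x) - A x (G x), gr f x - G x⟫)) =
            (s * s) * (psi' β (v x) * ⟪A x (gr f x) - A x (G x), gr f x - G x⟫) := by ring
          _ = _ := by rw [hs2, one_mul]
      have h5 := hP.mono x (gr f x) (G x)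
      have h6 : |s * (B x (gr f x) - B x (G x))| ≤ L * ‖gr f x - G x‖ := by
        rw [abs_mul]
        have : |s| = 1 := by rcases hs with rfl | rfl <;> simp
        rw [this, one_mul]
        exact hP.lipB x _ _
      have h7 := (abs_le.1 h6).2
      have h8 := psi'_ge β (v x)
      have h9 : 0 ≤ psi' β (v x) := le_trans (mul_nonneg hβ0 (psi_nonneg β _)) h8
      rw [← dv_field hP.smoothA hf x] at hσx
      show σ / 2 * φ x ≤ s * ((⟪X x, Φ x⟫ - ⟪A x (G x), Φ x⟫) +
        (dv X x * φ x + (B x (G x) - Θ x * u x + θ x) * φ x))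
      rw [mul_add, h4]
      set d := ‖gr f x - G x‖ with hd'
      have f1 : c * d ^ 2 * (β * φ x) ≤
          psi' β (v x) * ⟪A x (gr f x) - A x (G x), gr f x - G x⟫ := by
        calc c * d ^ 2 * (β * φ x) ≤ c * d ^ 2 * psi' β (v x) :=
              mul_le_mul_of_nonneg_left h8 (by positivity)
          _ ≤ ⟪A x (gr f x) - A x (G x), gr f x - G x⟫ * psi' β (v x) :=
              mul_le_mul_of_nonneg_right h5 h9
          _ = _ := mul_comm _ _
      have f2 : (σ - L * d) * φ x ≤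
          s * (dv X x * φ x + (B x (G x) - Θ x * u x + θ x) * φ x) := by
        have : s * (dv X x * φ x + (B x (G x) - Θ x * u x + θ x) * φ x) =
            (s * (dv X x + B x (gr f x) - (Θ x * u x - θ x)) -
              s * (B x (gr f x) - B x (G x))) * φ x := by ring
        rw [this]
        refine mul_le_mul_of_nonneg_right ?_ h0
        linarith
      have f3 : σ / 2 ≤ c * d ^ 2 * β + (σ - L * d) := by
        have : c * d ^ 2 * β + (σ - L * d) - σ / 2 = (L * d - σ) ^ 2 / (2 * σ) := by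
          rw [hβ]
          field_simp
          ring
        have h10 : 0 ≤ (L * d - σ) ^ 2 / (2 * σ) := by positivity
        linarith
      calc σ / 2 * φ x ≤ (c * d ^ 2 * β + (σ - L * d)) * φ x :=
            mul_le_mul_of_nonneg_right f3 h0
        _ = c * d ^ 2 * (β * φ x) + (σ - L * d) * φ x := by ring
        _ ≤ _ := add_le_add f1 f2
  have hPnn : 0 ≤ᵐ[volume] P := by
    filter_upwards [hpt] with x hx
    have : 0 ≤ σ / 2 * φ x := mul_nonneg (by linarith) (psi_nonneg β _)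
    exact this.trans hx
  have hPz := (integral_eq_zero_iff_of_nonneg_ae hPnn iP).1 hP0
  filter_upwards [hpt, hPz] with x hx hz
  by_contra h
  push Not at h
  have h3 : 0 < φ x := psi_pos β h
  have h4 : P x = 0 := hz
  rw [h4] at hx
  have h5 : 0 < σ / 2 * φ x := by positivity
  linarith

end Pool.Agent.PFlow.PB


end

section

/-!
# SUPB: pointwise bound of test functions by the `L²` norms of the function and of its second
derivatives

Fourier inversion and the Plancherel formula.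
-/

open MeasureTheory Filter Topology Set
open scoped ContDiff RealInnerProductSpace ENNReal SchwartzMap FourierTransform LineDeriv

namespace Pool.Agent.PFlow.PB

open Pool.Agent.PenroseSph Pool.Agent.PFlow

namespace SupB

/-- the complex Schwartz function of a test function -/
noncomputable def sch (φ : E3 → ℝ) (h : Test φ) : 𝓢(E3, ℂ) :=
  HasCompactSupport.toSchwartzMap (f := fun x => (φ x : ℂ))
    (h.cpt.comp_left (g := ((↑) : ℝ → ℂ)) Complex.ofReal_zero)
    (Complex.ofRealCLM.contDiff.comp h.smooth)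

theorem sch_apply (φ : E3 → ℝ) (h : Test φ) (x : E3) : sch φ h x = (φ x : ℂ) := rfl

/-- the derivative of the complexification -/
theorem fderiv_ofReal (f : E3 → ℝ) (hf : Differentiable ℝ f) (x v : E3) :
    fderiv ℝ (fun y => (f y : ℂ)) x v = ((fderiv ℝ f x v : ℝ) : ℂ) := by
  have h := (Complex.ofRealCLM.hasFDerivAt (x := f x)).comp x (hf x).hasFDerivAt
  have h2 : HasFDerivAt (fun y => (f y : ℂ)) (Complex.ofRealCLM.comp (fderiv ℝ f x)) x := h
  rw [h2.fderiv]
  rfl

theorem pd_smooth (f : E3 → ℝ) (hf : ContDiff ℝ ∞ f) (i : Fin 3) : ContDiff ℝ ∞ (pd i f) := by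
  have h1 : ContDiff ℝ ∞ (fderiv ℝ f) := hf.fderiv_right (by norm_num)
  exact h1.clm_apply contDiff_const

theorem pd_cpt (f : E3 → ℝ) (hf : HasCompactSupport f) (i : Fin 3) :
    HasCompactSupport (pd i f) := by
  refine (hf.fderiv (𝕜 := ℝ)).mono ?_
  intro x hx
  rw [Function.mem_support] at hx ⊢
  intro h0
  apply hx
  rw [pd_eq, h0]
  rfl

theorem Test.pd {φ : E3 → ℝ} (h : Test φ) (i : Fin 3) : Test (pd i φ) :=
  ⟨pd_smooth φ h.smooth i, pd_cpt φ h.cpt i⟩

theorem lineDeriv_sch (φ : E3 → ℝ) (h : Test φ) (i : Fin 3) :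
    ∂_{ee i} (sch φ h) = sch (pd i φ) (Test.pd h i) := by
  ext x
  rw [SchwartzMap.lineDerivOp_apply_eq_fderiv, sch_apply]
  exact fderiv_ofReal φ (h.smooth.differentiable (by norm_num)) x (ee i)

/-- the Fourier transform of a second derivative -/
theorem fourier_second (φ : E3 → ℝ) (h : Test φ) (i : Fin 3) (ξ : E3) :
    ‖𝓕 (sch (pd i (pd i φ)) (Test.pd (Test.pd h i) i)) ξ‖
      = (2 * Real.pi) ^ 2 * ξ i ^ 2 * ‖𝓕 (sch φ h) ξ‖ := by
  have hT : (inner ℝ · (ee i) : E3 → ℝ).HasTemperateGrowth :=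
    ((innerSL ℝ).flip (ee i)).hasTemperateGrowth
  rw [← lineDeriv_sch (pd i φ) (Test.pd h i) i, ← lineDeriv_sch φ h i,
    SchwartzMap.fourier_lineDerivOp_eq, SchwartzMap.fourier_lineDerivOp_eq]
  have e1 : ⟪ξ, ee i⟫ = ξ i := by
    simp [ee, EuclideanSpace.inner_single_right]
  simp only [smul_apply, SchwartzMap.smulLeftCLM_apply_apply hT, e1]
  simp only [norm_smul, smul_eq_mul, norm_mul]
  have e2 : ‖(2 : ℂ)‖ = 2 := by simp
  rw [Complex.norm_I, Complex.norm_real, e2, Real.norm_of_nonneg Real.pi_pos.le,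
    Real.norm_eq_abs, mul_one]
  rw [← sq_abs (ξ i)]
  ring

/-- the inversion formula gives the supremum bound -/
theorem sup_le (φ : E3 → ℝ) (h : Test φ) (x : E3) :
    |φ x| ≤ ∫ ξ, ‖𝓕 (sch φ h) ξ‖ := by
  have h1 : 𝓕⁻ (𝓕 (sch φ h)) = sch φ h := FourierTransform.fourierInv_fourier_eq _
  have h2 : ((φ x : ℝ) : ℂ) = (𝓕⁻ ((𝓕 (sch φ h) : 𝓢(E3, ℂ)) : E3 → ℂ)) x := by
    rw [← SchwartzMap.fourierInv_coe, h1, sch_apply]
  have h3 : |φ x| = ‖((φ x : ℝ) : ℂ)‖ := by
    rw [Complex.norm_real, Real.norm_eq_abs]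
  rw [h3, h2, Real.fourierInv_eq]
  refine (norm_integral_le_integral_norm _).trans (le_of_eq ?_)
  refine integral_congr_ae (ae_of_all _ fun ξ => ?_)
  simp

/-- Plancherel -/
theorem planch (φ : E3 → ℝ) (h : Test φ) :
    sq (fun ξ => ‖𝓕 (sch φ h) ξ‖) = sq φ := by
  unfold sq
  rw [SchwartzMap.integral_norm_sq_fourier]
  refine integral_congr_ae (ae_of_all _ fun x => ?_)
  simp only [sch_apply, Complex.norm_real, Real.norm_eq_abs, sq_abs]

/-- the weight at scale one -/
noncomputable def wt (ξ : E3) : ℝ := (1 + ‖ξ‖ ^ 2)⁻¹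

theorem wt_sq_int : Integrable (fun ξ : E3 => wt ξ ^ 2) := by
  have h : Integrable (fun x : E3 ↦ ((1 : ℝ) + ‖x‖ ^ 2) ^ (-(4 : ℝ) / 2)) volume :=
    integrable_rpow_neg_one_add_norm_sq (by
      rw [finrank_euclideanSpace, Fintype.card_fin]
      norm_num)
  refine h.congr (ae_of_all _ fun x => ?_)
  have h1 : (0 : ℝ) < 1 + ‖x‖ ^ 2 := by positivity
  show ((1 : ℝ) + ‖x‖ ^ 2) ^ (-(4 : ℝ) / 2) = ((1 + ‖x‖ ^ 2)⁻¹) ^ 2
  have e : (-(4 : ℝ) / 2) = -(2 : ℕ) := by norm_num
  rw [e, Real.rpow_neg h1.le, Real.rpow_natCast, inv_pow]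

theorem wt_cont : Continuous wt := by
  unfold wt
  refine Continuous.inv₀ (by fun_prop) fun x => ?_
  positivity

/-- the weight at scale `r` belongs to `L²` -/
theorem wtr_memLp {r : ℝ} (hr : 0 < r) : MemLp (fun ξ : E3 => wt (r • ξ)) 2 := by
  have h1 : Continuous fun ξ : E3 => wt (r • ξ) := wt_cont.comp (continuous_const_smul r)
  rw [memLp_two_iff_integrable_sq h1.aestronglyMeasurable]
  exact wt_sq_int.comp_smul hr.ne'

theorem wtr_sq {r : ℝ} (hr : 0 < r) : √(sq (fun ξ : E3 => wt (r • ξ)))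
    = r ^ (-(3 / 2) : ℝ) * √(sq wt) := by
  have h1 : sq (fun ξ : E3 => wt (r • ξ)) = (r ^ 3)⁻¹ * sq wt := by
    unfold sq
    rw [Measure.integral_comp_smul volume (fun ξ : E3 => wt ξ ^ 2) r, finrank_euclideanSpace,
      Fintype.card_fin, abs_of_pos (by positivity), smul_eq_mul]
  rw [h1, Real.sqrt_mul (by positivity)]
  congr 1
  rw [Real.sqrt_eq_rpow, Real.rpow_neg hr.le, Real.inv_rpow (by positivity),
    ← Real.rpow_natCast r 3, ← Real.rpow_mul hr.le]
  norm_num

theorem hs_ge (φ : E3 → ℝ) (h : Test φ) (i : Fin 3) :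
    sq (pd i (pd i φ)) ≤ ∑ j, sqv (hs φ j) := by
  have h1 : sq (pd i (pd i φ)) ≤ sqv (hs φ i) :=
    sq_comp_le (hs φ i) (gr_memLp _ (Test.pd h i).one (Test.pd h i).cpt) i
  exact h1.trans (Finset.single_le_sum (fun j _ => sqv_nonneg' (hs φ j)) (Finset.mem_univ i))

theorem main (φ : E3 → ℝ) (h : Test φ) {r : ℝ} (hr : 0 < r) (x : E3) :
    |φ x| ≤ √(sq wt) * (r ^ (-(3 / 2) : ℝ) * √(sq φ)
      + r ^ (1 / 2 : ℝ) * √(∑ i, sqv (hs φ i))) := by
  set S := √(∑ i, sqv (hs φ i)) with hS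
  set F : E3 → ℝ := fun ξ => ‖𝓕 (sch φ h) ξ‖ with hF
  set H : Fin 3 → E3 → ℝ := fun i ξ => ‖𝓕 (sch (pd i (pd i φ)) (Test.pd (Test.pd h i) i)) ξ‖
    with hH
  have mF : MemLp F 2 := ((𝓕 (sch φ h)).memLp 2 volume).norm
  have mH : ∀ i, MemLp (H i) 2 := fun i => ((𝓕 (sch (pd i (pd i φ)) _)).memLp 2 volume).norm
  set c : ℝ := r ^ 2 / (2 * Real.pi) ^ 2 with hc
  have hc0 : 0 ≤ c := by positivity
  have mcH : ∀ i, MemLp (fun ξ => c * H i ξ) 2 := fun i => (mH i).const_mul c
  have bcH : ∀ i, √(sq (fun ξ => c * H i ξ)) ≤ c * S := by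
    intro i
    have e1 : sq (fun ξ => c * H i ξ) = c ^ 2 * sq (H i) := by
      unfold sq
      rw [← integral_const_mul]
      refine integral_congr_ae (ae_of_all _ fun ξ => ?_)
      show (c * H i ξ) ^ 2 = c ^ 2 * H i ξ ^ 2
      ring
    rw [e1, Real.sqrt_mul (by positivity), Real.sqrt_sq hc0]
    refine mul_le_mul_of_nonneg_left (Real.sqrt_le_sqrt ?_) hc0
    have e2 : sq (H i) = sq (pd i (pd i φ)) := planch _ _
    rw [e2]
    exact hs_ge φ h i
  -- the function with the weight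
  set Q : E3 → ℝ := fun ξ => F ξ + (c * H 0 ξ + (c * H 1 ξ + c * H 2 ξ)) with hQ
  have m12 : MemLp (fun ξ => c * H 1 ξ + c * H 2 ξ) 2 := (mcH 1).add (mcH 2)
  have m012 : MemLp (fun ξ => c * H 0 ξ + (c * H 1 ξ + c * H 2 ξ)) 2 := (mcH 0).add m12
  have mQ : MemLp Q 2 := mF.add m012
  have bQ : √(sq Q) ≤ √(sq φ) + r ^ 2 * S := by
    have b1 := sq_add_le _ _ mF m012
    have b2 := sq_add_le _ _ (mcH 0) m12
    have b3 := sq_add_le _ _ (mcH 1) (mcH 2)
    have b4 := bcH 0
    have b5 := bcH 1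
    have b6 := bcH 2
    have e3 : sq F = sq φ := planch φ h
    have b7 : 3 * c ≤ r ^ 2 := by
      rw [hc]
      have hpi : 3 ≤ (2 * Real.pi) ^ 2 := by nlinarith [Real.pi_gt_three]
      rw [← mul_div_assoc, div_le_iff₀ (by positivity)]
      nlinarith [sq_nonneg r]
    have hS0 : 0 ≤ S := Real.sqrt_nonneg _
    rw [e3] at b1
    have b8 : 3 * c * S ≤ r ^ 2 * S := mul_le_mul_of_nonneg_right b7 hS0
    have b9 : √(sq Q) ≤ √(sq φ) + √(sq fun ξ => c * H 0 ξ + (c * H 1 ξ + c * H 2 ξ)) := b1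
    linarith
  have eFQ : ∀ ξ, F ξ = wt (r • ξ) * Q ξ := by
    intro ξ
    have e4 : ∀ i, H i ξ = (2 * Real.pi) ^ 2 * ξ i ^ 2 * F ξ := fun i => fourier_second φ h i ξ
    have e5 : Q ξ = (1 + ‖r • ξ‖ ^ 2) * F ξ := by
      show F ξ + (c * H 0 ξ + (c * H 1 ξ + c * H 2 ξ)) = _
      have e6 : ‖r • ξ‖ ^ 2 = r ^ 2 * (ξ 0 ^ 2 + ξ 1 ^ 2 + ξ 2 ^ 2) := by
        rw [norm_smul, mul_pow, norm_sq_eq ξ, Fin.sum_univ_three, Real.norm_eq_abs, sq_abs]
      rw [e4, e4, e4, e6, hc]
      have hpi : Real.pi ≠ 0 := Real.pi_ne_zero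
      field_simp
      ring
    rw [e5]
    unfold wt
    have : (1 + ‖r • ξ‖ ^ 2) ≠ 0 := by positivity
    field_simp
  calc |φ x| ≤ ∫ ξ, F ξ := sup_le φ h x
    _ = ∫ ξ, wt (r • ξ) * Q ξ := by
        refine integral_congr_ae (ae_of_all _ fun ξ => eFQ ξ)
    _ ≤ |∫ ξ, wt (r • ξ) * Q ξ| := le_abs_self _
    _ ≤ √(sq (fun ξ => wt (r • ξ))) * √(sq Q) := cs _ _ (wtr_memLp hr) mQ
    _ ≤ √(sq (fun ξ => wt (r • ξ))) * (√(sq φ) + r ^ 2 * S) :=
        mul_le_mul_of_nonneg_left bQ (Real.sqrt_nonneg _)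
    _ = _ := by
        rw [wtr_sq hr]
        have e6 : r ^ (1 / 2 : ℝ) = r ^ (-(3 / 2) : ℝ) * r ^ 2 := by
          rw [← Real.rpow_natCast r 2, ← Real.rpow_add hr]
          norm_num
        rw [e6]
        ring

end SupB

theorem supb_thm : SUPB := by
  refine ⟨√(sq SupB.wt) + 1, by positivity, fun φ h r hr x => ?_⟩
  refine (SupB.main φ h hr x).trans ?_
  refine mul_le_mul_of_nonneg_right (by linarith) ?_
  positivity

end Pool.Agent.PFlow.PB


end

section

/-!
# The logarithm of the solution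

`w = -ε log u` is of class `H²` and solves the equation of `w`.
-/

open MeasureTheory Filter Topology
open scoped ContDiff ENNReal

namespace Pool.Agent.PFlow

open Pool.Agent.PenroseSph

namespace MLOGW

/-! ## Convergence in `L^p` -/

/-- Convergence in `L^p` of measurable functions. -/
def Cv (μ : Measure E3) (p : ℝ≥0∞) (f : ℕ → E3 → ℝ) (f' : E3 → ℝ) : Prop :=
  (∀ n, AEStronglyMeasurable (f n) μ) ∧ MemLp f' p μ ∧
    Tendsto (fun n => eLpNorm (fun x => f n x - f' x) p μ) atTop (𝓝 0)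

theorem eLp_mul_le {μ : Measure E3} {p q r : ℝ≥0∞} [ENNReal.HolderTriple p q r]
    {f g : E3 → ℝ} (hf : AEStronglyMeasurable f μ) (hg : AEStronglyMeasurable g μ) :
    eLpNorm (fun x => f x * g x) r μ ≤ eLpNorm f p μ * eLpNorm g q μ := by
  have h := eLpNorm_smul_le_mul_eLpNorm (p := p) (q := q) (r := r) hg hf
  have e : f • g = fun x => f x * g x := by
    funext x
    simp only [Pi.smul_apply', smul_eq_mul]
  rw [e] at h
  exact h

theorem Cv.mul {μ : Measure E3} {p q r : ℝ≥0∞} [ENNReal.HolderTriple p q r] (hr : 1 ≤ r)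
    {f g : ℕ → E3 → ℝ} {f' g' : E3 → ℝ} (hf : Cv μ p f f') (hg : Cv μ q g g') :
    Cv μ r (fun n x => f n x * g n x) (fun x => f' x * g' x) := by
  obtain ⟨hf1, hf2, hf3⟩ := hf
  obtain ⟨hg1, hg2, hg3⟩ := hg
  refine ⟨fun n => (hf1 n).mul (hg1 n), MemLp.mul' hg2 hf2, ?_⟩
  have hb : ∀ n, eLpNorm (fun x => f n x * g n x - f' x * g' x) r μ
      ≤ eLpNorm (fun x => f n x - f' x) p μ * eLpNorm (fun x => g n x - g' x) q μ
        + eLpNorm (fun x => f n x - f' x) p μ * eLpNorm g' q μ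
        + eLpNorm f' p μ * eLpNorm (fun x => g n x - g' x) q μ := by
    intro n
    have hfn : AEStronglyMeasurable (fun x => f n x - f' x) μ := (hf1 n).sub hf2.1
    have hgn : AEStronglyMeasurable (fun x => g n x - g' x) μ := (hg1 n).sub hg2.1
    have e : (fun x => f n x * g n x - f' x * g' x)
        = ((fun x => (f n x - f' x) * (g n x - g' x)) + (fun x => (f n x - f' x) * g' x))
          + (fun x => f' x * (g n x - g' x)) := by
      funext x
      simp only [Pi.add_apply]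
      ring
    rw [e]
    refine (eLpNorm_add_le ((hfn.mul hgn).add (hfn.mul hg2.1)) (hf2.1.mul hgn) hr).trans ?_
    refine add_le_add ((eLpNorm_add_le (hfn.mul hgn) (hfn.mul hg2.1) hr).trans
      (add_le_add (eLp_mul_le hfn hgn) (eLp_mul_le hfn hg2.1))) (eLp_mul_le hf2.1 hgn)
  refine tendsto_of_tendsto_of_tendsto_of_le_of_le tendsto_const_nhds ?_
    (fun n => zero_le) hb
  have h1 : Tendsto (fun n => eLpNorm (fun x => f n x - f' x) p μ
      * eLpNorm (fun x => g n x - g' x) q μ) atTop (𝓝 (0 * 0)) :=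
    ENNReal.Tendsto.mul hf3 (Or.inr ENNReal.zero_ne_top) hg3 (Or.inr ENNReal.zero_ne_top)
  have h2 : Tendsto (fun n => eLpNorm (fun x => f n x - f' x) p μ * eLpNorm g' q μ) atTop
      (𝓝 (0 * eLpNorm g' q μ)) :=
    ENNReal.Tendsto.mul_const hf3 (Or.inr hg2.2.ne)
  have h3 : Tendsto (fun n => eLpNorm f' p μ * eLpNorm (fun x => g n x - g' x) q μ) atTop
      (𝓝 (eLpNorm f' p μ * 0)) :=
    ENNReal.Tendsto.const_mul hg3 (Or.inr hf2.2.ne)
  have h := (h1.add h2).add h3
  simpa using h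

theorem Cv.sub {μ : Measure E3} {p : ℝ≥0∞} (hp : 1 ≤ p)
    {f g : ℕ → E3 → ℝ} {f' g' : E3 → ℝ} (hf : Cv μ p f f') (hg : Cv μ p g g') :
    Cv μ p (fun n x => f n x - g n x) (fun x => f' x - g' x) := by
  obtain ⟨hf1, hf2, hf3⟩ := hf
  obtain ⟨hg1, hg2, hg3⟩ := hg
  refine ⟨fun n => (hf1 n).sub (hg1 n), hf2.sub hg2, ?_⟩
  have hb : ∀ n, eLpNorm (fun x => f n x - g n x - (f' x - g' x)) p μ
      ≤ eLpNorm (fun x => f n x - f' x) p μ + eLpNorm (fun x => g n x - g' x) p μ := by
    intro n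
    have hfn : AEStronglyMeasurable (fun x => f n x - f' x) μ := (hf1 n).sub hf2.1
    have hgn : AEStronglyMeasurable (fun x => g n x - g' x) μ := (hg1 n).sub hg2.1
    have e : (fun x => f n x - g n x - (f' x - g' x))
        = (fun x => f n x - f' x) - (fun x => g n x - g' x) := by
      funext x
      simp only [Pi.sub_apply]
      ring
    rw [e]
    exact eLpNorm_sub_le hfn hgn hp
  refine tendsto_of_tendsto_of_tendsto_of_le_of_le tendsto_const_nhds ?_
    (fun n => zero_le) hb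
  simpa using hf3.add hg3

theorem Cv.const_mul {μ : Measure E3} {p : ℝ≥0∞} (c : ℝ)
    {f : ℕ → E3 → ℝ} {f' : E3 → ℝ} (hf : Cv μ p f f') :
    Cv μ p (fun n x => c * f n x) (fun x => c * f' x) := by
  obtain ⟨hf1, hf2, hf3⟩ := hf
  refine ⟨fun n => (hf1 n).const_mul c, hf2.const_mul c, ?_⟩
  have hb : ∀ n, eLpNorm (fun x => c * f n x - c * f' x) p μ
      = ‖c‖ₑ * eLpNorm (fun x => f n x - f' x) p μ := by
    intro n
    rw [← eLpNorm_const_smul]
    congr 1
    funext x
    simp only [Pi.smul_apply, smul_eq_mul]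
    ring
  simp_rw [hb]
  have h3 : Tendsto (fun n => ‖c‖ₑ * eLpNorm (fun x => f n x - f' x) p μ) atTop
      (𝓝 (‖c‖ₑ * 0)) :=
    ENNReal.Tendsto.const_mul hf3 (Or.inr enorm_ne_top)
  simpa using h3

instance holder442 : ENNReal.HolderTriple 4 4 2 where
  inv_add_inv_eq_inv := by
    have h : (4 : ℝ≥0∞) = 2 * 2 := by norm_num
    rw [h, ENNReal.mul_inv (by norm_num) (by norm_num), ← mul_add, ENNReal.inv_two_add_inv_two,
      mul_one]

/-- On a set of finite measure. -/
theorem Cv.four_two {μ : Measure E3} [IsFiniteMeasure μ] {f : ℕ → E3 → ℝ} {f' : E3 → ℝ}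
    (hf : Cv μ 4 f f') : Cv μ 2 f f' := by
  have h1 : Cv μ 4 (fun _ _ => (1 : ℝ)) (fun _ => (1 : ℝ)) :=
    ⟨fun _ => aestronglyMeasurable_const, memLp_const 1, by simp⟩
  simpa using Cv.mul (p := 4) (q := 4) (r := 2) (by norm_num) hf h1

theorem int_sq_eq {μ : Measure E3} {f : E3 → ℝ} (hf : AEStronglyMeasurable f μ) :
    ∫ x, f x ^ 2 ∂μ = ((eLpNorm f 2 μ) ^ 2).toReal := by
  rw [integral_eq_lintegral_of_nonneg_ae (Eventually.of_forall fun x => sq_nonneg _)
    (hf.pow 2), eLpNorm_eq_lintegral_rpow_enorm_toReal (by norm_num) (by norm_num)]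
  congr 1
  rw [← ENNReal.rpow_natCast, ← ENNReal.rpow_mul]
  have e : (1 / (2 : ℝ≥0∞).toReal * ((2 : ℕ) : ℝ)) = 1 := by norm_num
  rw [e, ENNReal.rpow_one]
  refine lintegral_congr fun x => ?_
  rw [Real.enorm_eq_ofReal_abs, ENNReal.toReal_ofNat, ENNReal.rpow_ofNat,
    ← ENNReal.ofReal_pow (abs_nonneg _), sq_abs]

theorem Cv.int {μ : Measure E3} {f : ℕ → E3 → ℝ} {f' : E3 → ℝ}
    (hf : Cv μ 2 f f') : Tendsto (fun n => ∫ x, (f n x - f' x) ^ 2 ∂μ) atTop (𝓝 0) := by
  have h1 : ∀ n, ∫ x, (f n x - f' x) ^ 2 ∂μ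
      = ((eLpNorm (fun x => f n x - f' x) 2 μ) ^ 2).toReal := fun n =>
    int_sq_eq ((hf.1 n).sub hf.2.1.1)
  simp_rw [h1]
  have h2 : Tendsto (fun n => (eLpNorm (fun x => f n x - f' x) 2 μ) ^ 2) atTop (𝓝 (0 ^ 2)) :=
    ENNReal.Tendsto.pow hf.2.2
  have h3 : Tendsto (fun n => ((eLpNorm (fun x => f n x - f' x) 2 μ) ^ 2).toReal) atTop
      (𝓝 ((0 : ℝ≥0∞) ^ 2).toReal) := (ENNReal.tendsto_toReal (by simp)).comp h2
  have e0 : ((0 : ℝ≥0∞) ^ 2).toReal = 0 := by simp
  rw [e0] at h3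
  exact h3

/-! ## The logarithm, modified near zero -/

theorem exists_log (δ : ℝ) (hδ : 0 < δ) :
    ∃ F : ℝ → ℝ, ContDiff ℝ ∞ F ∧ ∀ t, δ ≤ t → F t = Real.log t := by
  let χ : ℝ → ℝ := fun t => δ / 2 + (t - δ / 2) * Real.smoothTransition ((t - δ / 2) / (δ / 2))
  have hpos : ∀ t, 0 < χ t := by
    intro t
    have h0 : 0 ≤ (t - δ / 2) * Real.smoothTransition ((t - δ / 2) / (δ / 2)) := by
      rcases le_total t (δ / 2) with h | h
      · rw [Real.smoothTransition.zero_of_nonpos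
          (div_nonpos_of_nonpos_of_nonneg (by linarith) (by linarith)), mul_zero]
      · exact mul_nonneg (by linarith) (Real.smoothTransition.nonneg _)
    show 0 < δ / 2 + (t - δ / 2) * Real.smoothTransition ((t - δ / 2) / (δ / 2))
    linarith
  have hχ : ContDiff ℝ ∞ χ := by
    refine contDiff_const.add ((contDiff_id.sub contDiff_const).mul ?_)
    exact (Real.smoothTransition.contDiff (n := ⊤)).comp
      ((contDiff_id.sub contDiff_const).div_const _)
  refine ⟨fun t => Real.log (χ t), hχ.log (fun t => (hpos t).ne'), fun t ht => ?_⟩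
  have h1 : Real.smoothTransition ((t - δ / 2) / (δ / 2)) = 1 :=
    Real.smoothTransition.one_of_one_le (by rw [le_div_iff₀ (by linarith)]; linarith)
  show Real.log (δ / 2 + (t - δ / 2) * Real.smoothTransition ((t - δ / 2) / (δ / 2))) = _
  rw [h1]
  congr 1
  ring

theorem contDiff_pd {v : E3 → ℝ} (hv : ContDiff ℝ ∞ v) (i : Fin 3) : ContDiff ℝ ∞ (pd i v) := by
  have h : ContDiff ℝ ∞ (fderiv ℝ v) := hv.fderiv_right (m := ∞) (by norm_num)
  exact h.clm_apply contDiff_const

theorem pd_congr {f g : E3 → ℝ} {x : E3} (h : f =ᶠ[𝓝 x] g) (i : Fin 3) : pd i f x = pd i g x := by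
  unfold pd
  rw [h.fderiv_eq]

theorem pd_log1 {v : E3 → ℝ} (hv : ContDiff ℝ ∞ v) {x : E3} (h : v x ≠ 0) (ε : ℝ) (i : Fin 3) :
    pd i (fun y => -ε * Real.log (v y)) x = -ε * (pd i v x * (v x)⁻¹) := by
  have h1 : HasFDerivAt v (fderiv ℝ v x) x :=
    ((hv.differentiable (by norm_num)) x).hasFDerivAt
  have h2 := (h1.log h).const_mul (-ε)
  unfold pd
  rw [h2.fderiv]
  simp only [FunLike.coe_smul, Pi.smul_apply, smul_eq_mul]
  ring

theorem pd_log2 {v : E3 → ℝ} (hv : ContDiff ℝ ∞ v) {x : E3} (h : v x ≠ 0) (ε : ℝ)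
    (i j : Fin 3) :
    pd i (fun y => -ε * (pd j v y * (v y)⁻¹)) x
      = -ε * (pd i (pd j v) x * (v x)⁻¹ - pd i v x * (v x)⁻¹ * (pd j v x * (v x)⁻¹)) := by
  have h1 : HasFDerivAt v (fderiv ℝ v x) x :=
    ((hv.differentiable (by norm_num)) x).hasFDerivAt
  have h2 : HasFDerivAt (pd j v) (fderiv ℝ (pd j v) x) x :=
    (((contDiff_pd hv j).differentiable (by norm_num)) x).hasFDerivAt
  have h3 : HasFDerivAt (fun y => (v y)⁻¹) ((-(v x ^ 2)⁻¹) • fderiv ℝ v x) x :=
    (hasDerivAt_inv h).comp_hasFDerivAt x h1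
  have h4 : HasFDerivAt (fun y => -ε * (pd j v y * (v y)⁻¹))
      ((-ε) • (pd j v x • ((-(v x ^ 2)⁻¹) • fderiv ℝ v x) + (v x)⁻¹ • fderiv ℝ (pd j v) x)) x :=
    (h2.mul h3).const_mul (-ε)
  show fderiv ℝ (fun y => -ε * (pd j v y * (v y)⁻¹)) x (EuclideanSpace.single i 1) = _
  rw [h4.fderiv]
  have e1 : fderiv ℝ v x (EuclideanSpace.single i 1) = pd i v x := rfl
  have e2 : fderiv ℝ (pd j v) x (EuclideanSpace.single i 1) = pd i (pd j v) x := rfl
  simp only [FunLike.coe_smul, FunLike.coe_add, Pi.smul_apply, Pi.add_apply, smul_eq_mul, e1, e2]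
  field_simp
  ring

/-- The first derivatives of the composition with a function equal to `log` on `[δ, ∞)`. -/
theorem pd_comp1 {v : E3 → ℝ} (hv : ContDiff ℝ ∞ v) {F : ℝ → ℝ} {δ : ℝ} (hδ : 0 < δ)
    (hF : ∀ t, δ ≤ t → F t = Real.log t) {x : E3} (h : δ < v x) (ε : ℝ) (i : Fin 3) :
    pd i (fun y => -ε * F (v y)) x = -ε * (pd i v x * (v x)⁻¹) := by
  rw [← pd_log1 hv (hδ.trans h).ne' ε i]
  refine pd_congr ?_ i
  have h1 : ∀ᶠ y in 𝓝 x, δ < v y := hv.continuous.continuousAt.eventually (lt_mem_nhds h)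
  filter_upwards [h1] with y hy
  rw [hF _ hy.le]

/-- The second derivatives of the composition with a function equal to `log` on `[δ, ∞)`. -/
theorem pd_comp2 {v : E3 → ℝ} (hv : ContDiff ℝ ∞ v) {F : ℝ → ℝ} {δ : ℝ} (hδ : 0 < δ)
    (hF : ∀ t, δ ≤ t → F t = Real.log t) {x : E3} (h : δ < v x) (ε : ℝ) (i j : Fin 3) :
    pd i (pd j (fun y => -ε * F (v y))) x
      = -ε * (pd i (pd j v) x * (v x)⁻¹ - pd i v x * (v x)⁻¹ * (pd j v x * (v x)⁻¹)) := by
  rw [← pd_log2 hv (hδ.trans h).ne' ε i j]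
  refine pd_congr ?_ i
  have h1 : ∀ᶠ y in 𝓝 x, δ < v y := hv.continuous.continuousAt.eventually (lt_mem_nhds h)
  filter_upwards [h1] with y hy
  exact pd_comp1 hv hδ hF hy ε j

/-! ## Lower bounds and uniform convergence -/

theorem low {K : Set E3} (hK : IsCompact K) {u : E3 → ℝ} (hu : ContinuousOn u K)
    (hpos : ∀ x ∈ K, 0 < u x) : ∃ δ : ℝ, 0 < δ ∧ ∀ x ∈ K, 2 * δ ≤ u x := by
  rcases K.eq_empty_or_nonempty with rfl | hne
  · exact ⟨1, one_pos, fun x hx => absurd hx (Set.notMem_empty x)⟩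
  · obtain ⟨x₀, hx₀, hmin⟩ := hK.exists_isMinOn hne hu
    refine ⟨u x₀ / 2, by linarith [hpos x₀ hx₀], fun x hx => ?_⟩
    have := isMinOn_iff.1 hmin x hx
    linarith

theorem ev_low {K : Set E3} {u : E3 → ℝ} {v : ℕ → E3 → ℝ} {δ : ℝ} (hδ : 0 < δ)
    (hu : ∀ x ∈ K, 2 * δ ≤ u x) (hv : TendstoUniformlyOn v u atTop K) :
    ∀ᶠ n in atTop, ∀ x ∈ K, δ < v n x := by
  filter_upwards [Metric.tendstoUniformlyOn_iff.1 hv δ hδ] with n hn x hx
  have h1 := hn x hx
  rw [Real.dist_eq, abs_lt] at h1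
  linarith [hu x hx]

theorem cv_inv {K : Set E3} (hK : IsCompact K) {u : E3 → ℝ} (huc : ContinuousOn u K)
    {v : ℕ → E3 → ℝ} {δ : ℝ} (hδ : 0 < δ) (hu : ∀ x ∈ K, 2 * δ ≤ u x)
    (hvc : ∀ n, Continuous (v n)) (hv : TendstoUniformlyOn v u atTop K) :
    Cv (volume.restrict K) ∞ (fun n x => (v n x)⁻¹) (fun x => (u x)⁻¹) := by
  have hmeas : AEStronglyMeasurable (fun x => (u x)⁻¹) (volume.restrict K) :=
    (huc.inv₀ fun x hx => by linarith [hu x hx] |> fun h : 0 < u x => h.ne').aestronglyMeasurable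
      hK.measurableSet
  refine ⟨fun n => ((hvc n).measurable.inv).aestronglyMeasurable, ?_, ?_⟩
  · refine memLp_top_of_bound hmeas ((2 * δ)⁻¹) ?_
    refine ae_restrict_of_forall_mem hK.measurableSet fun x hx => ?_
    have h1 : 0 < u x := by linarith [hu x hx]
    rw [Real.norm_eq_abs, abs_of_pos (inv_pos.2 h1)]
    exact inv_anti₀ (by linarith) (hu x hx)
  · rw [ENNReal.tendsto_nhds_zero]
    intro e he
    rcases eq_or_ne e ∞ with rfl | het
    · exact Eventually.of_forall fun n => le_top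
    have hr : 0 < e.toReal := ENNReal.toReal_pos he.ne' het
    filter_upwards [ev_low hδ hu hv,
      Metric.tendstoUniformlyOn_iff.1 hv (e.toReal * (2 * δ * δ)) (by positivity)] with n hn hn'
    rw [eLpNorm_exponent_top, ← ENNReal.ofReal_toReal het]
    refine eLpNormEssSup_le_of_ae_bound ?_
    refine ae_restrict_of_forall_mem hK.measurableSet fun x hx => ?_
    have h1 : 0 < u x := by linarith [hu x hx]
    have h2 : 0 < v n x := hδ.trans (hn x hx)
    have h3 := hn' x hx
    rw [Real.dist_eq] at h3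
    have e1 : (v n x)⁻¹ - (u x)⁻¹ = (u x - v n x) / (u x * v n x) := by
      field_simp
    rw [Real.norm_eq_abs, e1, abs_div, abs_of_pos (mul_pos h1 h2), div_le_iff₀ (mul_pos h1 h2)]
    refine h3.le.trans (mul_le_mul_of_nonneg_left ?_ hr.le)
    exact mul_le_mul (hu x hx) (hn x hx).le hδ.le h1.le

theorem log_sub_le {a b δ : ℝ} (hδ : 0 < δ) (ha : δ ≤ a) (hb : δ ≤ b) :
    |Real.log a - Real.log b| ≤ |a - b| / δ := by
  have key : ∀ s t : ℝ, δ ≤ s → δ ≤ t → Real.log s - Real.log t ≤ |s - t| / δ := by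
    intro s t hs ht
    have hs0 : 0 < s := hδ.trans_le hs
    have ht0 : 0 < t := hδ.trans_le ht
    rw [← Real.log_div hs0.ne' ht0.ne']
    refine (Real.log_le_sub_one_of_pos (div_pos hs0 ht0)).trans ?_
    have e1 : s / t - 1 = (s - t) / t := by field_simp
    rw [e1]
    refine (div_le_div_of_nonneg_right (le_abs_self _) ht0.le).trans ?_
    exact div_le_div_of_nonneg_left (abs_nonneg _) hδ ht
  rw [abs_le]
  refine ⟨?_, key a b ha hb⟩
  have := key b a hb ha
  rw [abs_sub_comm] at this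
  linarith

theorem unif_log {K : Set E3} {u : E3 → ℝ} {v : ℕ → E3 → ℝ} {δ : ℝ} (hδ : 0 < δ)
    (hu : ∀ x ∈ K, 2 * δ ≤ u x) (hv : TendstoUniformlyOn v u atTop K) {F : ℝ → ℝ}
    (hF : ∀ t, δ ≤ t → F t = Real.log t) (ε : ℝ) :
    TendstoUniformlyOn (fun n y => -ε * F (v n y)) (fun y => -ε * Real.log (u y)) atTop K := by
  rw [Metric.tendstoUniformlyOn_iff]
  intro r hr
  have hc : 0 < r * δ / (|ε| + 1) := by positivity
  filter_upwards [ev_low hδ hu hv, Metric.tendstoUniformlyOn_iff.1 hv _ hc] with n hn hn' x hx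
  have h1 := hn x hx
  have h2 := hn' x hx
  rw [Real.dist_eq] at h2 ⊢
  rw [hF _ h1.le]
  have h3 := log_sub_le hδ (by linarith [hu x hx] : δ ≤ u x) h1.le
  have e1 : -ε * Real.log (u x) - -ε * Real.log (v n x)
      = -ε * (Real.log (u x) - Real.log (v n x)) := by ring
  rw [e1, abs_mul, abs_neg]
  have h4 : |Real.log (u x) - Real.log (v n x)| < r / (|ε| + 1) := by
    refine h3.trans_lt ?_
    rw [div_lt_iff₀ hδ]
    have e2 : r / (|ε| + 1) * δ = r * δ / (|ε| + 1) := by ring
    rw [e2]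
    exact h2
  have h5 : |ε| * |Real.log (u x) - Real.log (v n x)| ≤ |ε| * (r / (|ε| + 1)) :=
    mul_le_mul_of_nonneg_left h4.le (abs_nonneg _)
  refine h5.trans_lt ?_
  rw [mul_div_assoc', div_lt_iff₀ (by positivity)]
  nlinarith [abs_nonneg ε]

/-! ## The function `w` is of class `H²` -/

theorem key {U : Set E3} {u : E3 → ℝ} {G : E3 → Cov} {M : E3 → Bil} (hH : H2s U u G M)
    (hpos : ∀ x ∈ U, 0 < u x) (ε : ℝ) {K : Set E3} (hK : IsCompact K) (hKU : K ⊆ U) :
    (∀ i, MemLp (fun x => -ε * (G x i / u x)) 2 (volume.restrict K)) ∧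
    (∀ i j, MemLp (fun x => -ε * (M x i j / u x - G x i * G x j / u x ^ 2)) 2
      (volume.restrict K)) ∧
    ∃ V : ℕ → E3 → ℝ, (∀ n, ContDiff ℝ ∞ (V n)) ∧
      TendstoUniformlyOn V (fun x => -ε * Real.log (u x)) atTop K ∧
      (∀ i, Tendsto (fun n => ∫ x in K, (pd i (V n) x - -ε * (G x i / u x)) ^ 2) atTop (𝓝 0)) ∧
      (∀ i j, Tendsto (fun n => ∫ x in K, (pd i (pd j (V n)) x
        - -ε * (M x i j / u x - G x i * G x j / u x ^ 2)) ^ 2) atTop (𝓝 0)) := by
  obtain ⟨v, hv, hunif, hG, hM⟩ := hH.approx K hK hKU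
  have huc : ContinuousOn u K := hH.cont.mono hKU
  obtain ⟨δ, hδ, hlow⟩ := low hK huc fun x hx => hpos x (hKU hx)
  obtain ⟨F, hF, hFlog⟩ := exists_log δ hδ
  have : IsFiniteMeasure (volume.restrict K : Measure E3) := ⟨by
    rw [Measure.restrict_apply_univ]; exact hK.measure_lt_top⟩
  have hGG : ∀ i, (fun x => -ε * (G x i / u x)) = fun x => -ε * (G x i * (u x)⁻¹) := fun i => by
    funext x
    rw [div_eq_mul_inv]
  have hMM : ∀ i j, (fun x => -ε * (M x i j / u x - G x i * G x j / u x ^ 2))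
      = fun x => -ε * (M x i j * (u x)⁻¹ - G x i * (u x)⁻¹ * (G x j * (u x)⁻¹)) := fun i j => by
    funext x
    rw [div_eq_mul_inv, div_eq_mul_inv, ← inv_pow]
    ring
  have cI := cv_inv hK huc hδ hlow (fun n => (hv n).continuous) hunif
  have cG : ∀ i, Cv (volume.restrict K) 4 (fun n x => pd i (v n) x) (fun x => G x i) := fun i =>
    ⟨fun n => (contDiff_pd (hv n) i).continuous.aestronglyMeasurable, hH.memG K hK hKU i, hG i⟩
  have cM : ∀ i j, Cv (volume.restrict K) 2 (fun n x => pd i (pd j (v n)) x)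
      (fun x => M x i j) := fun i j =>
    ⟨fun n => (contDiff_pd (contDiff_pd (hv n) j) i).continuous.aestronglyMeasurable,
      hH.memM K hK hKU i j, hM i j⟩
  have cGI : ∀ i, Cv (volume.restrict K) 4 (fun n x => pd i (v n) x * (v n x)⁻¹)
      (fun x => G x i * (u x)⁻¹) := fun i =>
    Cv.mul (p := 4) (q := ∞) (r := 4) (by norm_num) (cG i) cI
  have cMI : ∀ i j, Cv (volume.restrict K) 2 (fun n x => pd i (pd j (v n)) x * (v n x)⁻¹)
      (fun x => M x i j * (u x)⁻¹) := fun i j =>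
    Cv.mul (p := 2) (q := ∞) (r := 2) (by norm_num) (cM i j) cI
  have cGG : ∀ i j, Cv (volume.restrict K) 2
      (fun n x => pd i (v n) x * (v n x)⁻¹ * (pd j (v n) x * (v n x)⁻¹))
      (fun x => G x i * (u x)⁻¹ * (G x j * (u x)⁻¹)) := fun i j =>
    Cv.mul (p := 4) (q := 4) (r := 2) (by norm_num) (cGI i) (cGI j)
  have c1 : ∀ i, Cv (volume.restrict K) 2 (fun n x => -ε * (pd i (v n) x * (v n x)⁻¹))
      (fun x => -ε * (G x i * (u x)⁻¹)) := fun i => (cGI i).four_two.const_mul (-ε)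
  have c2 : ∀ i j, Cv (volume.restrict K) 2
      (fun n x => -ε * (pd i (pd j (v n)) x * (v n x)⁻¹
        - pd i (v n) x * (v n x)⁻¹ * (pd j (v n) x * (v n x)⁻¹)))
      (fun x => -ε * (M x i j * (u x)⁻¹ - G x i * (u x)⁻¹ * (G x j * (u x)⁻¹))) := fun i j =>
    ((cMI i j).sub (by norm_num) (cGG i j)).const_mul (-ε)
  refine ⟨fun i => ?_, fun i j => ?_, fun n y => -ε * F (v n y),
    fun n => contDiff_const.mul (hF.comp (hv n)), unif_log hδ hlow hunif hFlog ε,
    fun i => ?_, fun i j => ?_⟩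
  · rw [hGG i]
    exact (c1 i).2.1
  · rw [hMM i j]
    exact (c2 i j).2.1
  · refine (c1 i).int.congr' ?_
    filter_upwards [ev_low hδ hlow hunif] with n hn
    refine setIntegral_congr_fun hK.measurableSet fun x hx => ?_
    show (-ε * (pd i (v n) x * (v n x)⁻¹) - -ε * (G x i * (u x)⁻¹)) ^ 2
      = (pd i (fun y => -ε * F (v n y)) x - -ε * (G x i / u x)) ^ 2
    rw [pd_comp1 (hv n) hδ hFlog (hn x hx) ε i, div_eq_mul_inv]
  · refine (c2 i j).int.congr' ?_
    filter_upwards [ev_low hδ hlow hunif] with n hn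
    refine setIntegral_congr_fun hK.measurableSet fun x hx => ?_
    show (-ε * (pd i (pd j (v n)) x * (v n x)⁻¹
        - pd i (v n) x * (v n x)⁻¹ * (pd j (v n) x * (v n x)⁻¹))
        - -ε * (M x i j * (u x)⁻¹ - G x i * (u x)⁻¹ * (G x j * (u x)⁻¹))) ^ 2
      = (pd i (pd j (fun y => -ε * F (v n y))) x
        - -ε * (M x i j / u x - G x i * G x j / u x ^ 2)) ^ 2
    rw [pd_comp2 (hv n) hδ hFlog (hn x hx) ε i j, congrFun (hMM i j) x]

/-! ## The equation -/

theorem raise_smul (g : TensorField) (x : E3) (c : ℝ) (p : Cov) (i : Fin 3) :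
    raise g x (fun i => c * p i) i = c * raise g x p i := by
  unfold raise
  rw [Finset.mul_sum]
  exact Finset.sum_congr rfl fun j _ => by ring

theorem ev_smul (B : Bil) (c : ℝ) (p : Cov) :
    ev B (fun i => c * p i) (fun i => c * p i) = c ^ 2 * ev B p p := by
  unfold ev
  rw [Finset.mul_sum]
  refine Finset.sum_congr rfl fun i _ => ?_
  rw [Finset.mul_sum]
  exact Finset.sum_congr rfl fun j _ => by ring

theorem len_smul (g : TensorField) (x : E3) {c : ℝ} (hc : 0 ≤ c) (p : Cov) :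
    len g x (fun i => -c * p i) = c * len g x p := by
  unfold len
  rw [ev_smul, Real.sqrt_mul (sq_nonneg _), neg_sq, Real.sqrt_sq hc]

theorem nrm_smul (g : TensorField) (x : E3) {c : ℝ} (hc : 0 < c) (p : Cov) (i : Fin 3) :
    nrm g x (fun i => -c * p i) i = -nrm g x p i := by
  unfold nrm
  rw [raise_smul, len_smul g x hc.le, neg_mul, neg_div, mul_div_mul_left _ _ hc.ne']

theorem bnn_smul (g : TensorField) (x : E3) {c : ℝ} (hc : 0 < c) (p : Cov) (B : Bil) :
    bnn g x (fun i => -c * p i) B = bnn g x p B := by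
  unfold bnn ev
  refine Finset.sum_congr rfl fun i _ => Finset.sum_congr rfl fun j _ => ?_
  rw [nrm_smul g x hc, nrm_smul g x hc]
  ring

theorem beps_smul (ε : ℝ) (g : TensorField) (x : E3) {c : ℝ} (hc : 0 < c) (p : Cov) (B : Bil) :
    beps ε g x (fun i => -c * p i) B = beps ε g x p B := by
  unfold beps
  rw [bnn_smul g x hc]

theorem beps_lin (ε : ℝ) (g : TensorField) (x : E3) (p : Cov) (a b : ℝ) (A B : Bil) :
    beps ε g x p (Matrix.of fun i j => a * A i j + b * B i j)
      = a * beps ε g x p A + b * beps ε g x p B := by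
  have h1 : trg g x (Matrix.of fun i j => a * A i j + b * B i j)
      = a * trg g x A + b * trg g x B := by
    unfold trg
    rw [Finset.mul_sum, Finset.mul_sum, ← Finset.sum_add_distrib]
    refine Finset.sum_congr rfl fun i _ => ?_
    rw [Finset.mul_sum, Finset.mul_sum, ← Finset.sum_add_distrib]
    refine Finset.sum_congr rfl fun j _ => ?_
    rw [Matrix.of_apply]
    ring
  have h2 : bnn g x p (Matrix.of fun i j => a * A i j + b * B i j)
      = a * bnn g x p A + b * bnn g x p B := by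
    unfold bnn ev
    rw [Finset.mul_sum, Finset.mul_sum, ← Finset.sum_add_distrib]
    refine Finset.sum_congr rfl fun i _ => ?_
    rw [Finset.mul_sum, Finset.mul_sum, ← Finset.sum_add_distrib]
    refine Finset.sum_congr rfl fun j _ => ?_
    rw [Matrix.of_apply]
    ring
  unfold beps
  rw [h1, h2]
  ring

/-- The square of the length, for a positive semidefinite inverse metric. -/
theorem len_sq {g : TensorField} {x : E3} (hg : (g x).PosDef) (p : Cov) :
    len g x p ^ 2 = ev (g x)⁻¹ p p := by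
  unfold len
  rw [Real.sq_sqrt]
  have h := hg.inv.posSemidef.dotProduct_mulVec_nonneg p
  have e : ev (g x)⁻¹ p p = star p ⬝ᵥ ((g x)⁻¹.mulVec p) := by
    unfold ev
    simp only [dotProduct, Matrix.mulVec, star_trivial, Finset.mul_sum]
    exact Finset.sum_congr rfl fun i _ => Finset.sum_congr rfl fun j _ => by ring
  rw [e]
  exact h

theorem beps_outer (ε : ℝ) {g : TensorField} {x : E3} (hg : (g x).PosDef) (p : Cov) :
    beps ε g x p (Matrix.of fun i j => p i * p j) = ε * len g x p ^ 2 := by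
  have h0 := len_sq hg p
  have h1 : trg g x (Matrix.of fun i j => p i * p j) = len g x p ^ 2 := by
    rw [h0]
    unfold trg ev
    refine Finset.sum_congr rfl fun i _ => Finset.sum_congr rfl fun j _ => ?_
    rw [Matrix.of_apply]
    ring
  have h2 : ∑ i, p i * raise g x p i = ev (g x)⁻¹ p p := by
    unfold raise ev
    refine Finset.sum_congr rfl fun i _ => ?_
    rw [Finset.mul_sum]
    exact Finset.sum_congr rfl fun j _ => by ring
  have h3 : bnn g x p (Matrix.of fun i j => p i * p j) = (∑ i, p i * nrm g x p i) ^ 2 := by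
    unfold bnn ev
    rw [sq, Finset.sum_mul_sum]
    refine Finset.sum_congr rfl fun i _ => Finset.sum_congr rfl fun j _ => ?_
    rw [Matrix.of_apply]
    ring
  have h4 : ∑ i, p i * nrm g x p i = ev (g x)⁻¹ p p / len g x p := by
    rw [← h2, Finset.sum_div]
    refine Finset.sum_congr rfl fun i _ => ?_
    unfold nrm
    ring
  have h5 : bnn g x p (Matrix.of fun i j => p i * p j) = len g x p ^ 2 := by
    rw [h3, h4, ← h0]
    rcases eq_or_ne (len g x p) 0 with h | h
    · rw [h]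
      norm_num
    · field_simp
  unfold beps
  rw [h1, h5]
  ring

theorem cHess_log (g : TensorField) (x : E3) (p : Cov) (M : Bil) (ε u : ℝ) (hu : u ≠ 0) :
    cHess g x (fun i => -ε * (p i / u))
      (Matrix.of fun i j => -ε * (M i j / u - p i * p j / u ^ 2))
    = Matrix.of fun i j => (-(ε / u)) * cHess g x p M i j
        + (ε / u ^ 2) * (Matrix.of fun i j => p i * p j : Bil) i j := by
  ext i j
  unfold cHess
  simp only [Matrix.of_apply]
  have h : ∑ k, christoffel g k i j x * (-ε * (p k / u))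
      = -(ε / u) * ∑ k, christoffel g k i j x * p k := by
    rw [Finset.mul_sum]
    exact Finset.sum_congr rfl fun k _ => by ring
  rw [h]
  field_simp
  ring

theorem eqW_point {ε : ℝ} (hε : 0 < ε) {g h : TensorField} {x : E3} (hg : (g x).PosDef)
    {u : ℝ} (hu : 0 < u) (p : Cov) (M : Bil)
    (h1 : p ≠ 0 → beps ε g x p (cHess g x p M) + len g x p * beps ε g x p (h x) = 0)
    (h2 : p = 0 → M = 0) :
    ((fun i => -ε * (p i / u)) ≠ (0 : Cov) →
      beps ε g x (fun i => -ε * (p i / u)) (cHess g x (fun i => -ε * (p i / u))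
        (Matrix.of fun i j => -ε * (M i j / u - p i * p j / u ^ 2)))
      = len g x (fun i => -ε * (p i / u)) ^ 2
        + len g x (fun i => -ε * (p i / u)) * beps ε g x (fun i => -ε * (p i / u)) (h x)) ∧
    ((fun i => -ε * (p i / u)) = (0 : Cov) →
      (Matrix.of fun i j => -ε * (M i j / u - p i * p j / u ^ 2) : Bil) = 0) := by
  have hc : 0 < ε / u := div_pos hε hu
  have ep : (fun i => -ε * (p i / u)) = fun i => -(ε / u) * p i := by
    funext i
    ring
  constructor
  · intro hne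
    have hp : p ≠ 0 := by
      rintro rfl
      apply hne
      funext i
      simp
    rw [cHess_log g x p M ε u hu.ne', ep, beps_smul ε g x hc, beps_smul ε g x hc,
      len_smul g x hc.le, beps_lin, beps_outer ε hg p]
    have h3 := h1 hp
    have h4 : beps ε g x p (cHess g x p M) = -(len g x p * beps ε g x p (h x)) := by linarith
    rw [h4]
    field_simp
    ring
  · intro hz
    have hp : p = 0 := by
      funext i
      rw [ep] at hz
      have h4 : -(ε / u) * p i = 0 := congrFun hz i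
      rcases mul_eq_zero.1 h4 with h5 | h5
      · exact absurd h5 (neg_ne_zero.2 hc.ne')
      · exact h5
    have hM := h2 hp
    subst hp
    subst hM
    ext i j
    simp

end MLOGW

open MLOGW in
/-- **(LOGW)** The logarithm of the solution. -/
theorem LOGW (hL4 : Stmt_L4) : Stmt_LOGW := by
  intro ε U g h u G M hε hε1 hU hg hh hH hpos heq
  refine ⟨?_, ?_, ?_⟩
  · have hs := hL4 U u G M hU hH
    refine ⟨?_, fun K hK hKU i => (key hs hpos ε hK hKU).1 i,
      fun K hK hKU i j => (key hs hpos ε hK hKU).2.1 i j,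
      fun K hK hKU => (key hs hpos ε hK hKU).2.2⟩
    exact continuousOn_const.mul (hH.cont.log fun x hx => (hpos x hx).ne')
  · unfold EqW
    unfold EqU at heq
    filter_upwards [heq, ae_restrict_mem hU.measurableSet] with x hx hxU
    exact eqW_point hε (hg.posDef x hxU) (hpos x hxU) (G x) (M x) hx.1 hx.2
  · intro hN D hD hDc hDU x hx
    obtain ⟨⟨y, hy, hxy⟩, ⟨z, hz, hzx⟩⟩ := hN D hD hDc hDU x hx
    have hxU : x ∈ U := hDU (subset_closure hx)
    have hyU : y ∈ U := hDU (frontier_subset_closure hy)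
    have hzU : z ∈ U := hDU (frontier_subset_closure hz)
    refine ⟨⟨z, hz, ?_⟩, ⟨y, hy, ?_⟩⟩
    · have h1 := Real.log_le_log (hpos z hzU) hzx
      show -ε * Real.log (u x) ≤ -ε * Real.log (u z)
      nlinarith
    · have h1 := Real.log_le_log (hpos x hxU) hxy
      show -ε * Real.log (u y) ≤ -ε * Real.log (u x)
      nlinarith

end Pool.Agent.PFlow


end

section

/-!
# (EPS) The three inequalities for fixed `ε`
-/

open MeasureTheory Filter Topology
open scoped ContDiff ENNReal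

namespace Pool.Agent.PFlow

open Pool.Agent.PenroseSph

namespace EPSm

lemma vol_pos {g : TensorField} (hg : MetricOn {0}ᶜ g) {ρ r : ℝ} (hρ : 0 < ρ) (hρr : ρ < r) :
    0 < ∫ x in cAnn ρ r, volDen g x := by
  have hKc : IsCompact (cAnn ρ r) := by
    apply Metric.isCompact_of_isClosed_isBounded
    · exact (isClosed_le continuous_const continuous_norm).inter
        (isClosed_le continuous_norm continuous_const)
    · refine (Metric.isBounded_closedBall (x := (0 : E3)) (r := r)).subset ?_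
      intro x hx
      simpa using hx.2
  have hKm : MeasurableSet (cAnn ρ r) := hKc.isClosed.measurableSet
  have hK0 : cAnn ρ r ⊆ {0}ᶜ := by
    intro x hx h0
    have : x = 0 := h0
    have h1 := hx.1
    rw [this, norm_zero] at h1
    linarith
  have hcv : ContinuousOn (volDen g) (cAnn ρ r) := by
    unfold volDen
    exact ((MCT.smooth_det hg.smooth).continuousOn.mono hK0).sqrt
  have hpos : ∀ x ∈ cAnn ρ r, 0 < volDen g x := fun x hx =>
    Real.sqrt_pos.mpr (hg.posDef x (hK0 hx)).det_pos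
  rw [setIntegral_pos_iff_support_of_nonneg_ae]
  · have h1 : cAnn ρ r ⊆ Function.support (volDen g) ∩ cAnn ρ r := fun x hx =>
      ⟨(hpos x hx).ne', hx⟩
    refine lt_of_lt_of_le ?_ (measure_mono h1)
    have h2 : IsOpen {x : E3 | ρ < ‖x‖ ∧ ‖x‖ < r} :=
      (isOpen_lt continuous_const continuous_norm).inter
        (isOpen_lt continuous_norm continuous_const)
    have h3 : {x : E3 | ρ < ‖x‖ ∧ ‖x‖ < r}.Nonempty := by
      refine ⟨EuclideanSpace.single 0 ((ρ + r) / 2), ?_⟩
      have : ‖(EuclideanSpace.single (0 : Fin 3) ((ρ + r) / 2) : E3)‖ = (ρ + r) / 2 := by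
        rw [PiLp.norm_single, Real.norm_of_nonneg (by linarith)]
      constructor
      · show ρ < ‖_‖
        rw [this]
        linarith
      · show ‖_‖ < r
        rw [this]
        linarith
    exact lt_of_lt_of_le (h2.measure_pos volume h3) (measure_mono fun x hx => ⟨hx.1.le, hx.2.le⟩)
  · exact (ae_restrict_iff' hKm).mpr (ae_of_all _ fun x hx => (hpos x hx).le)
  · exact hcv.integrableOn_compact hKc

lemma exists_theta (a c τ : ℝ) (hτ : 0 < τ) : ∃ θ : ℝ, 0 < θ ∧ θ < 1 ∧
    θ ^ (-a) * c ≤ c + τ := by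
  have h1 : ContinuousAt (fun θ : ℝ => θ ^ (-a) * c) 1 :=
    (Real.continuousAt_rpow_const 1 (-a) (Or.inl one_ne_zero)).mul continuousAt_const
  have h2 : ∀ᶠ θ in 𝓝 (1 : ℝ), θ ^ (-a) * c < c + τ := by
    refine h1.eventually (gt_mem_nhds ?_)
    simp only [Real.one_rpow, one_mul]
    linarith
  have h3 : ∀ᶠ θ in 𝓝[<] (1 : ℝ), θ ^ (-a) * c < c + τ := h2.filter_mono nhdsWithin_le_nhds
  have h4 : ∀ᶠ θ in 𝓝[<] (1 : ℝ), 0 < θ :=
    (lt_mem_nhds (zero_lt_one (α := ℝ))).filter_mono nhdsWithin_le_nhds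
  obtain ⟨θ, ⟨h5, h6⟩, h7⟩ := ((h3.and h4).and self_mem_nhdsWithin).exists
  exact ⟨θ, h6, h7, h5.le⟩

end EPSm

open EPSm in
theorem EPS (hEXI1 : Stmt_EXI1) (hWGTE : Stmt_WGTE) (hMSI : Stmt_MSI) (hMSII : Stmt_MSII)
    (hMSIII : Stmt_MSIII) (hBETA : Stmt_BETA) : Stmt_EPS := by
  intro g h m hte hde hps hth hm
  obtain ⟨C, ρ, r, hC, hρ, hρ1, hr1, hex⟩ := hEXI1 g h hte hde hps
  refine ⟨∫ x in cAnn ρ r, volDen g x, vol_pos hte.metric hρ (by linarith), ?_⟩
  intro ε τ hε hε2 hτ
  obtain ⟨P, B, l0, hPε, hB, hl04, hrl, hex⟩ := hex ε hε hε2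
  obtain ⟨B3, hB3, hW⟩ := hWGTE P B
  obtain ⟨B1, hB1, hI⟩ := hMSI P B B3
  obtain ⟨β, hβ⟩ := hBETA
  obtain ⟨θ, hθ0, hθ1, hθ⟩ := exists_theta (2 * (2 - ε)) (4 * Real.pi * (2 - ε) ^ 2) (τ / 2)
    (by linarith)
  obtain ⟨B2, hB2, hII⟩ := hMSII P B B3 θ β hθ0 hθ1 hβ
  -- the length of the window
  obtain ⟨L, hL1, hL⟩ : ∃ L : ℝ, 1 ≤ L ∧ B2 * Real.exp (-(L / ε)) ≤ τ / 4 := by
    have h1 : Tendsto (fun L : ℝ => B2 * Real.exp (-(L / ε))) atTop (𝓝 (B2 * 0)) := by
      refine Tendsto.const_mul B2 (Real.tendsto_exp_neg_atTop_nhds_zero.comp ?_)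
      exact tendsto_id.atTop_div_const hε
    rw [mul_zero] at h1
    obtain ⟨L, h2, h3⟩ := ((h1.eventually (gt_mem_nhds (by linarith : (0 : ℝ) < τ / 4))).and
      (eventually_ge_atTop (1 : ℝ))).exists
    exact ⟨L, h3, h2.le⟩
  -- the radius
  obtain ⟨μ, hμ⟩ : ∃ μ, μ = min τ 1 := ⟨_, rfl⟩
  have hμ0 : 0 < μ := by rw [hμ]; exact lt_min hτ one_pos
  have hμ1 : μ ≤ 1 := by rw [hμ]; exact min_le_right _ _
  have hμτ : μ ≤ τ := by rw [hμ]; exact min_le_left _ _
  obtain ⟨l, hl0, hl1, hl2⟩ : ∃ l : ℝ, l0 ≤ l ∧ B2 * (1 / l) ≤ τ / 4 ∧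
      B1 * (l ^ (-(1 / 2 : ℝ)) + ∫ x in cAnn (l / 2) l, msz (h x) / l)
        + 8 * Real.pi * B3 * |massIntegral g l - m| ≤ μ / 2 := by
    have t1 : Tendsto (fun l : ℝ => B2 * (1 / l)) atTop (𝓝 (B2 * 0)) := by
      refine Tendsto.const_mul B2 (tendsto_inv_atTop_zero.congr fun x => ?_)
      rw [one_div]
    have t2 : Tendsto (fun l : ℝ => l ^ (-(1 / 2 : ℝ))) atTop (𝓝 0) :=
      tendsto_rpow_neg_atTop (by norm_num)
    have t3 : Tendsto (fun l : ℝ => |massIntegral g l - m|) atTop (𝓝 |m - m|) :=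
      (hm.sub_const m).abs
    have t4 := ((t2.add hth).const_mul B1).add (t3.const_mul (8 * Real.pi * B3))
    rw [mul_zero] at t1
    simp only [sub_self, abs_zero, mul_zero, add_zero] at t4
    obtain ⟨l, ⟨e1, e2⟩, e3⟩ := (((t1.eventually (gt_mem_nhds (by linarith : (0 : ℝ) < τ / 4))).and
      (t4.eventually (gt_mem_nhds (by linarith : (0 : ℝ) < μ / 2)))).and
      (eventually_ge_atTop l0)).exists
    exact ⟨l, e3, e1.le, e2.le⟩
  obtain ⟨D, se, hDg, hDh, hDl, hS, hA, hcut, hNd, her, hsM, hRρ, hlev⟩ :=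
    hex l (μ / (4 * B1)) L hl0 (by positivity) hL1
  obtain ⟨lm, hlm⟩ := hW D hS hA se hcut
  have i1 := hI D hS hA se lm hcut hlm
  have i2 := hII D hS hA se lm L hcut hlm hL1 hsM
  have hR : 0 < D.R := by
    have h1 := hS.R_ge
    have h2 : 0 < kE P.eps P.gam := by unfold kE; positivity
    have h3 := hS.l_ge
    have : 0 < kE P.eps P.gam ^ 4 * D.l := by positivity
    linarith
  have h16 : 1 / (16 * D.R) < ρ := by
    refine lt_of_le_of_lt ?_ hRρ
    apply one_div_le_one_div_of_le hR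
    linarith
  have i3 := hMSIII P B β hβ D hS hA ρ r hRρ h16 hρ1 hr1 (by rw [hDl]; linarith) hlev
  obtain ⟨J, hJ⟩ : ∃ J, J = jInf P.eps β D.Om D.vol (D.w P) (D.X P) (D.s2 P) := ⟨_, rfl⟩
  rw [← hJ] at i2 i3
  rw [hPε] at i1 i2 i3
  rw [hDg, hDl] at i1
  have hthD : D.th = ∫ x in cAnn (l / 2) l, msz (h x) / l := by
    unfold Dat.th
    rw [hDh, hDl]
  rw [hthD] at i1
  -- the first inequality
  have hlm0 := hlm.nonneg
  have e1 : B1 * (μ / (4 * B1)) = μ / 4 := by field_simp
  have e2 : B1 * D.Nd P ≤ μ / 4 := by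
    rw [← e1]
    exact mul_le_mul_of_nonneg_left hNd hB1.le
  have e3 : B1 * D.er P se ≤ μ / 4 := by
    rw [← e1]
    exact mul_le_mul_of_nonneg_left her hB1.le
  have e4 : 8 * Real.pi * massIntegral g l * lm
      ≤ 8 * Real.pi * m * lm + 8 * Real.pi * B3 * |massIntegral g l - m| := by
    have a1 : (massIntegral g l - m) * lm ≤ |massIntegral g l - m| * B3 :=
      mul_le_mul (le_abs_self _) hlm.le hlm0 (abs_nonneg _)
    have a2 := mul_le_mul_of_nonneg_left a1 (by positivity : (0 : ℝ) ≤ 8 * Real.pi)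
    linarith
  have j1 : 4 * Real.pi * (2 - ε) ≤ 8 * Real.pi * m * lm + μ := by
    have : B1 * (l ^ (-(1 / 2 : ℝ)) + (∫ x in cAnn (l / 2) l, msz (h x) / l) + D.Nd P
        + D.er P se) = B1 * (l ^ (-(1 / 2 : ℝ)) + ∫ x in cAnn (l / 2) l, msz (h x) / l)
        + B1 * D.Nd P + B1 * D.er P se := by ring
    linarith
  have hlmpos : 0 < lm := by
    rcases hlm0.lt_or_eq with h5 | h5
    · exact h5
    · exfalso
      rw [← h5, mul_zero, zero_add] at j1
      have := Real.pi_gt_three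
      nlinarith
  refine ⟨lm, J, hlmpos, i3.1, by linarith, ?_, ?_⟩
  · have e5 : B2 * (1 / D.l + Real.exp (-(L / ε)))
        = B2 * (1 / l) + B2 * Real.exp (-(L / ε)) := by
      rw [hDl]
      ring
    linarith
  · intro s0 s1 A h1 h2 h3 h4
    have := i3.2 s0 s1 A h1 h2 h3 (by rw [hDg]; exact h4)
    rw [hDg] at this
    exact this

end Pool.Agent.PFlow


end

section

/-!
# JPROD: the momentum density of `f h`
-/

open MeasureTheory Filter Topology
open scoped ContDiff

namespace Pool.Agent.PFlow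

open Pool.Agent.PenroseSph

namespace JPRODm

theorem diffAt {U : Set E3} (hU : IsOpen U) {f : E3 → ℝ} (hf : ContDiffOn ℝ ∞ f U) {x : E3}
    (hx : x ∈ U) : DifferentiableAt ℝ f x :=
  ((hf x hx).contDiffAt (hU.mem_nhds hx)).differentiableAt (by simp)

theorem pd_mul {f k : E3 → ℝ} {x : E3} (hf : DifferentiableAt ℝ f x)
    (hk : DifferentiableAt ℝ k x) (i : Fin 3) :
    pd i (fun y => f y * k y) x = f x * pd i k x + pd i f x * k x := by
  unfold pd
  rw [fderiv_fun_mul hf hk]
  simp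
  ring

theorem det_diff {x : E3} {g : TensorField} (h : ∀ i j, DifferentiableAt ℝ (fun y => g y i j) x) :
    DifferentiableAt ℝ (fun y => (g y).det) x := by
  obtain ⟨a, ha⟩ : ∃ a : Fin 3 → Fin 3 → E3 → ℝ, a = fun i j y => g y i j := ⟨_, rfl⟩
  have h' : ∀ i j, DifferentiableAt ℝ (a i j) x := fun i j => by rw [ha]; exact h i j
  have h1 : (fun y => (g y).det) = fun y =>
      a 0 0 y * a 1 1 y * a 2 2 y - a 0 0 y * a 1 2 y * a 2 1 y - a 0 1 y * a 1 0 y * a 2 2 y +
        a 0 1 y * a 1 2 y * a 2 0 y + a 0 2 y * a 1 0 y * a 2 1 y -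
        a 0 2 y * a 1 1 y * a 2 0 y := by
    funext y
    rw [Matrix.det_fin_three, ha]
  rw [h1]
  have h00 := h' 0 0
  have h01 := h' 0 1
  have h02 := h' 0 2
  have h10 := h' 1 0
  have h11 := h' 1 1
  have h12 := h' 1 2
  have h20 := h' 2 0
  have h21 := h' 2 1
  have h22 := h' 2 2
  fun_prop

theorem inv_diff {x : E3} {g : TensorField} (h : ∀ i j, DifferentiableAt ℝ (fun y => g y i j) x)
    (h0 : (g x).det ≠ 0) (i j : Fin 3) : DifferentiableAt ℝ (fun y => (g y)⁻¹ i j) x := by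
  have h1 : (fun y => (g y)⁻¹ i j) = fun y => ((g y).det)⁻¹ * (g y).adjugate i j := by
    funext y
    rw [Matrix.inv_def, Ring.inverse_eq_inv']
    rfl
  rw [h1]
  refine ((det_diff h).inv h0).mul ?_
  have h2 : (fun y => (g y).adjugate i j) =
      fun y => ((g y).updateRow j (Pi.single i 1)).det := by
    funext y
    rw [Matrix.adjugate_apply]
  rw [h2]
  refine det_diff (g := fun y => (g y).updateRow j (Pi.single i 1)) fun k l => ?_
  by_cases hk : k = j
  · subst hk
    simp only [Matrix.updateRow_self]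
    exact differentiableAt_const _
  · simp only [Matrix.updateRow_ne hk]
    exact h k l

/-- The triangle inequality. -/
theorem sqrt_add (a b : Fin 3 → ℝ) (c : ℝ) :
    Real.sqrt (∑ i, (c * a i + b i) * (c * a i + b i)) ≤
      |c| * Real.sqrt (∑ i, a i * a i) + Real.sqrt (∑ i, b i * b i) := by
  have h := norm_add_le (c • (WithLp.toLp 2 a : EuclideanSpace ℝ (Fin 3)))
    (WithLp.toLp 2 b : EuclideanSpace ℝ (Fin 3))
  rw [norm_smul, EuclideanSpace.norm_eq, EuclideanSpace.norm_eq, EuclideanSpace.norm_eq,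
    Real.norm_eq_abs] at h
  simpa [sq_abs, pow_two] using h

theorem trace_diff {x : E3} {g h : TensorField}
    (hg : ∀ i j, DifferentiableAt ℝ (fun y => g y i j) x)
    (hh : ∀ i j, DifferentiableAt ℝ (fun y => h y i j) x) (h0 : (g x).det ≠ 0) :
    DifferentiableAt ℝ (fun y => traceWith g h y) x := by
  unfold traceWith
  refine DifferentiableAt.fun_sum fun i _ => DifferentiableAt.fun_sum fun j _ => ?_
  exact (inv_diff hg h0 i j).mul (hh i j)

/-- The product rule for the divergence. -/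
theorem div_mul (g T : TensorField) (f : E3 → ℝ) (x : E3) (j : Fin 3)
    (hf : DifferentiableAt ℝ f x) (hT : ∀ i j, DifferentiableAt ℝ (fun y => T y i j) x) :
    divergence g (fun y => f y • T y) j x = f x * divergence g T j x +
      ∑ i, ∑ k, (g x)⁻¹ i k * pd k f x * T x i j := by
  have h1 : ∀ i k, covDeriv g (fun y => f y • T y) k i j x =
      f x * covDeriv g T k i j x + pd k f x * T x i j := by
    intro i k
    unfold covDeriv
    have h2 : pd k (fun y => (f y • T y) i j) x = f x * pd k (fun y => T y i j) x +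
        pd k f x * T x i j := pd_mul hf (hT i j) k
    rw [h2]
    have h3 : ∀ l, christoffel g l k i x * (f x • T x) l j + christoffel g l k j x *
        (f x • T x) i l = f x * (christoffel g l k i x * T x l j + christoffel g l k j x *
        T x i l) := by
      intro l
      show christoffel g l k i x * (f x * T x l j) + christoffel g l k j x * (f x * T x i l) = _
      ring
    rw [Finset.sum_congr rfl fun l _ => h3 l, ← Finset.mul_sum]
    ring
  unfold divergence
  rw [Finset.mul_sum, ← Finset.sum_add_distrib]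
  refine Finset.sum_congr rfl fun i _ => ?_
  rw [Finset.mul_sum, ← Finset.sum_add_distrib]
  refine Finset.sum_congr rfl fun k _ => ?_
  rw [h1]
  ring

theorem mom_mul {U : Set E3} {g h : TensorField} {f : E3 → ℝ} (hU : IsOpen U)
    (hg : MetricOn U g) (hh : TensorOn U h) (hf : ContDiffOn ℝ ∞ f U) {x : E3} (hx : x ∈ U)
    (j : Fin 3) :
    momentumDensity g (fun y => f y • h y) j x = f x * momentumDensity g h j x
      + ∑ i, ∑ k, (g x)⁻¹ i k * pd k f x * (h x i j - trg g x (h x) * g x i j) := by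
  have h0 : (g x).det ≠ 0 := (hg.posDef x hx).det_pos.ne'
  have hgd : ∀ i j, DifferentiableAt ℝ (fun y => g y i j) x := fun i j => diffAt hU (hg.smooth i j) hx
  have hhd : ∀ i j, DifferentiableAt ℝ (fun y => h y i j) x := fun i j => diffAt hU (hh.smooth i j) hx
  have h1 : (fun y => f y • h y - traceWith g (fun y => f y • h y) y • g y) =
      fun y => f y • (h y - traceWith g h y • g y) := by
    funext y
    have h2 : traceWith g (fun y => f y • h y) y = f y * traceWith g h y := by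
      unfold traceWith
      rw [Finset.mul_sum]
      refine Finset.sum_congr rfl fun i _ => ?_
      rw [Finset.mul_sum]
      refine Finset.sum_congr rfl fun k _ => ?_
      show (g y)⁻¹ i k * (f y * h y i k) = _
      ring
    rw [h2, smul_sub, smul_smul]
  unfold momentumDensity
  rw [h1, div_mul g (fun y => h y - traceWith g h y • g y) f x j (diffAt hU hf hx)]
  · rfl
  · intro i j
    show DifferentiableAt ℝ (fun y => h y i j - traceWith g h y * g y i j) x
    exact (hhd i j).sub ((trace_diff hgd hhd h0).mul (hgd i j))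

/-- The norm of `π = h - (tr h) g`. -/
theorem nsq_pi {P A B h : Bil} (hP : P = A * A.transpose) (hB : P * B = 1)
    (hA : A.det ≠ 0) (t : ℝ)
    (ht : t = ∑ i, plm A h i i) :
    ∑ i, ∑ j, plm A (h - t • B) i j * plm A (h - t • B) i j =
      (∑ i, ∑ j, plm A h i j * plm A h i j) + t ^ 2 := by
  have hdet : IsUnit A.det := isUnit_iff_ne_zero.2 hA
  have h1 : plm A B = 1 := by
    unfold plm
    have h2 : A * (A.transpose * B) = 1 := by rw [← Matrix.mul_assoc, ← hP, hB]
    have h3 : A.transpose * B = A⁻¹ := by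
      rw [← Matrix.mul_one A⁻¹, ← h2, ← Matrix.mul_assoc, Matrix.nonsing_inv_mul A hdet,
        Matrix.one_mul]
    rw [h3, Matrix.nonsing_inv_mul A hdet]
  have h2 : plm A (h - t • B) = plm A h - t • (1 : Bil) := by
    rw [← h1]
    unfold plm
    rw [Matrix.mul_sub, Matrix.sub_mul, Matrix.mul_smul, Matrix.smul_mul]
  rw [h2, ht]
  simp only [Fin.sum_univ_three, Matrix.sub_apply, Matrix.smul_apply, smul_eq_mul,
    Matrix.one_apply]
  simp
  ring

end JPRODm

theorem JPROD : Stmt_JPROD := by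
  intro U g h f hU hg hh hf x hx
  have hm := fun j => JPRODm.mom_mul hU hg hh hf hx j
  refine ⟨hm, ?_⟩
  have hPD := (hg.posDef x hx).inv
  obtain ⟨A, hA, hP, hev, htr, hdd, _, happ, hsymm, _⟩ := FR _ hPD
  obtain ⟨H, hH⟩ : ∃ H : Bil, H = h x - trg g x (h x) • g x := ⟨_, rfl⟩
  have hgs : (g x).IsSymm := by
    have h := (hg.posDef x hx).isHermitian
    rwa [Matrix.IsHermitian, Matrix.conjTranspose_eq_transpose_of_trivial] at h
  have hHs : H.IsSymm := by
    rw [hH]
    exact (hh.symm x hx).sub (hgs.smul _)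
  have hb : ∀ j, momentumDensity g (fun y => f y • h y) j x = f x * momentumDensity g h j x
      + app (g x)⁻¹ H (grad f x) j := by
    intro j
    rw [hm j]
    congr 1
    show _ = ∑ i, H j i * ∑ k, (g x)⁻¹ i k * pd k f x
    refine Finset.sum_congr rfl fun i _ => ?_
    rw [Finset.mul_sum]
    refine Finset.sum_congr rfl fun k _ => ?_
    rw [show H j i = H i j from hHs.apply i j, hH]
    show _ = (h x i j - trg g x (h x) * g x i j) * ((g x)⁻¹ i k * pd k f x)
    ring
  obtain ⟨a, ha⟩ : ∃ a : Cov, a = fun i => momentumDensity g h i x := ⟨_, rfl⟩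
  obtain ⟨b, hbb⟩ : ∃ b : Cov, b = app (g x)⁻¹ H (grad f x) := ⟨_, rfl⟩
  have hc : (fun i => momentumDensity g (fun y => f y • h y) i x) = fun i => f x * a i + b i := by
    funext i
    rw [hb i, ha, hbb]
  have hplv : ∀ i, plv A (fun i => f x * a i + b i) i = f x * plv A a i + plv A b i := by
    intro i
    show ∑ j, A j i * (f x * a j + b j) = f x * ∑ j, A j i * a j + ∑ j, A j i * b j
    rw [Finset.mul_sum, ← Finset.sum_add_distrib]
    exact Finset.sum_congr rfl fun j _ => by ring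
  have hB : ∑ i, plv A b i * plv A b i ≤
      (∑ i, ∑ j, plm A H i j * plm A H i j) * ∑ j, plv A (grad f x) j * plv A (grad f x) j := by
    rw [hbb, happ, Finset.sum_mul]
    refine Finset.sum_le_sum fun i _ => ?_
    have h1 := Finset.sum_mul_sq_le_sq_mul_sq Finset.univ (fun j => plm A H i j)
      (fun j => plv A (grad f x) j)
    simpa [pow_two] using h1
  have hN : (∑ i, ∑ j, plm A H i j * plm A H i j) = nsq g x (h x) + trg g x (h x) ^ 2 := by
    have hdet : IsUnit (g x).det := isUnit_iff_ne_zero.2 (hg.posDef x hx).det_pos.ne'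
    rw [hH, JPRODm.nsq_pi hP (Matrix.nonsing_inv_mul (g x) hdet) hA (trg g x (h x)) (htr (h x)),
      ← hdd]
    rfl
  unfold jlen len
  rw [hc, hev, hev, hev]
  simp only [hplv]
  refine (JPRODm.sqrt_add _ _ _).trans ?_
  rw [← ha]
  refine add_le_add le_rfl ?_
  rw [← Real.sqrt_mul (by
    rw [← hN]
    exact Finset.sum_nonneg fun i _ => Finset.sum_nonneg fun j _ => mul_self_nonneg _), ← hN]
  exact Real.sqrt_le_sqrt hB

end Pool.Agent.PFlow


end

section

/-!
# TFD: data with divergence-free trace-free part are trace-dominated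
-/

open MeasureTheory Filter Topology
open scoped ContDiff ENNReal

namespace Pool.Agent.PFlow

open Pool.Agent.PenroseSph

namespace TFDm

/-- The divergence of a sum. -/
theorem div_add {g S T : TensorField} {x : E3} (j : Fin 3)
    (hS : ∀ i j, DifferentiableAt ℝ (fun y => S y i j) x)
    (hT : ∀ i j, DifferentiableAt ℝ (fun y => T y i j) x) :
    divergence g (fun y => S y + T y) j x = divergence g S j x + divergence g T j x := by
  have h1 : ∀ i k, covDeriv g (fun y => S y + T y) k i j x =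
      covDeriv g S k i j x + covDeriv g T k i j x := by
    intro i k
    unfold covDeriv
    have h2 : pd k (fun y => (S y + T y) i j) x = pd k (fun y => S y i j) x +
        pd k (fun y => T y i j) x := by
      show pd k (fun y => S y i j + T y i j) x = _
      unfold pd
      rw [fderiv_fun_add (hS i j) (hT i j)]
      rfl
    have h3 : ∀ l, christoffel g l k i x * (S x + T x) l j + christoffel g l k j x *
        (S x + T x) i l = (christoffel g l k i x * S x l j + christoffel g l k j x *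
        S x i l) + (christoffel g l k i x * T x l j + christoffel g l k j x * T x i l) := by
      intro l
      simp only [Matrix.add_apply]
      ring
    rw [h2, Finset.sum_congr rfl fun l _ => h3 l, Finset.sum_add_distrib]
    ring
  unfold divergence
  rw [← Finset.sum_add_distrib]
  refine Finset.sum_congr rfl fun i _ => ?_
  rw [← Finset.sum_add_distrib]
  refine Finset.sum_congr rfl fun k _ => ?_
  rw [h1]
  ring

/-- The Cauchy-Schwarz inequality for the trace. -/
theorem trg_sq_le {P : Bil} (hP : P.PosDef) (H : Bil) : tr2 P H ^ 2 ≤ 3 * dd P H H := by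
  obtain ⟨A, -, -, -, h2, h3, -⟩ := FR P hP
  rw [h2, h3]
  generalize plm A H = B
  simp only [Fin.sum_univ_three]
  nlinarith [sq_nonneg (B 0 0 - B 1 1), sq_nonneg (B 0 0 - B 2 2), sq_nonneg (B 1 1 - B 2 2),
    sq_nonneg (B 0 1), sq_nonneg (B 0 2), sq_nonneg (B 1 0), sq_nonneg (B 1 2),
    sq_nonneg (B 2 0), sq_nonneg (B 2 1)]

end TFDm

theorem TFD : Stmt_TFD := by
  intro g h hg hh hdiv x hx
  have hU : IsOpen ({0}ᶜ : Set E3) := isOpen_compl_singleton
  have hxU : x ∈ ({0}ᶜ : Set E3) := by simpa using hx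
  have hpos := hg.posDef x hxU
  have h0 : (g x).det ≠ 0 := hpos.det_pos.ne'
  have hgd : ∀ i j, DifferentiableAt ℝ (fun y => g y i j) x :=
    fun i j => JPRODm.diffAt hU (hg.smooth i j) hxU
  have hhd : ∀ i j, DifferentiableAt ℝ (fun y => h y i j) x :=
    fun i j => JPRODm.diffAt hU (hh.smooth i j) hxU
  have htd : DifferentiableAt ℝ (fun y => traceWith g h y) x := JPRODm.trace_diff hgd hhd h0
  have hs : ∀ᶠ y in 𝓝 x, (g y).IsSymm := by
    filter_upwards [hU.mem_nhds hxU] with y hy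
    ext i j
    exact LIMK.symm_of_pos (hg.posDef y hy) j i
  -- the momentum density
  have hJ : ∀ j, momentumDensity g h j x
      = -(2 / 3) * grad (fun y => trg g y (h y)) x j := by
    intro j
    have e1 : (fun y => h y - traceWith g h y • g y) = fun y =>
        (h y - traceTensor g h y) + (-(2 / 3) * traceWith g h y) • g y := by
      funext y
      have e2 : traceTensor g h y = (traceWith g h y / 3) • g y := rfl
      rw [e2]
      ext i k
      simp only [Matrix.sub_apply, Matrix.add_apply, Matrix.smul_apply, smul_eq_mul]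
      ring
    have d1 : ∀ i j, DifferentiableAt ℝ (fun y => (h y - traceTensor g h y) i j) x := by
      intro i k
      show DifferentiableAt ℝ (fun y => h y i k - traceWith g h y / 3 * g y i k) x
      have htd3 : DifferentiableAt ℝ (fun y => traceWith g h y / 3) x := by
        simp only [div_eq_mul_inv]
        exact htd.mul_const _
      exact (hhd i k).sub (htd3.mul (hgd i k))
    have d2 : DifferentiableAt ℝ (fun y => -(2 / 3) * traceWith g h y) x := htd.const_mul _
    have d3 : ∀ i j, DifferentiableAt ℝ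
        (fun y => ((-(2 / 3) * traceWith g h y) • g y) i j) x := by
      intro i k
      show DifferentiableAt ℝ (fun y => (-(2 / 3) * traceWith g h y) * g y i k) x
      exact d2.mul (hgd i k)
    unfold momentumDensity
    rw [e1, TFDm.div_add j d1 d3, hdiv x hx j, zero_add,
      LIMK.div_mul hpos hs hgd d2 j]
    have e3 : pd j (fun y => -(2 / 3) * traceWith g h y) x
        = -(2 / 3) * pd j (fun y => traceWith g h y) x := by
      unfold pd
      rw [fderiv_const_mul htd]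
      rfl
    rw [e3]
    rfl
  have hlen : jlen g h x = 2 / 3 * len g x (grad (fun y => trg g y (h y)) x) := by
    unfold jlen len
    have e4 : ev (g x)⁻¹ (fun i => momentumDensity g h i x) (fun i => momentumDensity g h i x)
        = (2 / 3) ^ 2 * ev (g x)⁻¹ (grad (fun y => trg g y (h y)) x)
          (grad (fun y => trg g y (h y)) x) := by
      unfold ev
      rw [Finset.mul_sum]
      refine Finset.sum_congr rfl fun i _ => ?_
      rw [Finset.mul_sum]
      refine Finset.sum_congr rfl fun k _ => ?_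
      have e5 := hJ i
      have e6 := hJ k
      show (g x)⁻¹ i k * momentumDensity g h i x * momentumDensity g h k x = _
      rw [e5, e6]
      ring
    rw [e4, Real.sqrt_mul (by norm_num), Real.sqrt_sq (by norm_num)]
  have hcs := TFDm.trg_sq_le hpos.inv (h x)
  have hcs2 : trg g x (h x) ^ 2 ≤ 3 * nsq g x (h x) := hcs
  rw [hlen]
  linarith

end Pool.Agent.PFlow


end
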