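import Mathlib
import Pool.Agent.PFlow.StmtsE4
import Pool.Agent.PenroseM.C03
import Pool.Agent.PenroseM.C05
import Pool.Agent.PenroseM.C08
import Pool.Agent.PenroseM.C12
import Pool.Agent.PenroseM.C23

/-! Parts: PFlow.G.MEAN, PFlow.E.CUTD, PFlow.E.DIVA, PFlow.E.SCAL, PFlow.E.JINT -/

section

/-!
# Block GB: the leafwise mean of the function `rho0` is zero
-/

open MeasureTheory Filter Topology
open scoped ContDiff

namespace Pool.Agent.PFlow.GB

open Pool.Agent.PenroseSph Pool.Agent.PFlow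

namespace MEANaux

lemma pd_congr {i : Fin 3} {f k : E3 → ℝ} {x : E3} (h : f =ᶠ[𝓝 x] k) : pd i f x = pd i k x := by
  unfold pd
  rw [h.fderiv_eq]

lemma pd_zero {i : Fin 3} {f : E3 → ℝ} {x : E3} (h : f =ᶠ[𝓝 x] fun _ => 0) : pd i f x = 0 := by
  rw [pd_congr h]
  unfold pd
  simp

lemma grad_congr {f k : E3 → ℝ} {x : E3} (h : f =ᶠ[𝓝 x] k) : grad f x = grad k x := by
  funext i
  exact pd_congr h

/-- The flux of `grad phi0` at a pole. -/
lemma flux_pole {g : TensorField} {W : E3 → ℝ} (hRUL : Stmt_RUL) {x : E3} (hreg : Reg g W x)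
    {φ ρ : E3 → ℝ} {σ C : ℝ} (hσ : |σ| = 1) (hρ : DifferentiableAt ℝ ρ x) (hpos : 0 < ρ x)
    (hlt : ρ x < 1) (hφ : ∀ᶠ y in 𝓝 x, φ y = σ * Real.log (ρ y) / 2)
    (hlin : |lin g W ρ ρ x - 4 * ρ x| ≤ C * ρ x ^ 2) (hC : 0 ≤ C) :
    |∑ i, pd i ρ x * lgrad g W φ x i - 2 * σ| ≤ C * Real.sqrt (ρ x) := by
  obtain ⟨-, h2, h3, -, -, -, -, h8, -⟩ := hRUL g W x hreg
  have e1 : ∑ i, pd i ρ x * lgrad g W φ x i = lin g W φ ρ x := by
    rw [← h2 φ ρ]
    refine Finset.sum_congr rfl fun i _ => ?_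
    rw [mul_comm]
    rfl
  have e2 : lin g W φ ρ x = lin g W (fun y => (fun s => σ * Real.log s / 2) (ρ y)) ρ x := by
    unfold lin
    rw [grad_congr hφ]
  have hd : HasDerivAt (fun s => σ * Real.log s / 2) (σ * (ρ x)⁻¹ / 2) (ρ x) :=
    ((Real.hasDerivAt_log hpos.ne').const_mul σ).div_const 2
  have e3 := h8 ρ ρ (fun s => σ * Real.log s / 2) hρ hd.differentiableAt
  rw [e1, e2, e3, hd.deriv]
  have hne := hpos.ne'
  have e4 : σ * (ρ x)⁻¹ / 2 * lin g W ρ ρ x - 2 * σ
      = σ * ((lin g W ρ ρ x - 4 * ρ x) / (2 * ρ x)) := by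
    field_simp
    ring
  rw [e4, abs_mul, hσ, one_mul, abs_div, abs_of_pos (by positivity : (0:ℝ) < 2 * ρ x),
    div_le_iff₀ (by positivity)]
  have hs : ρ x ≤ Real.sqrt (ρ x) := by
    rw [Real.le_sqrt hpos.le hpos.le]
    nlinarith
  calc |lin g W ρ ρ x - 4 * ρ x| ≤ C * ρ x ^ 2 := hlin
    _ ≤ C * Real.sqrt (ρ x) * (2 * ρ x) := by
        have h5 : ρ x ^ 2 ≤ Real.sqrt (ρ x) * (2 * ρ x) := by
          have := mul_le_mul_of_nonneg_right hs hpos.le
          nlinarith [mul_nonneg (Real.sqrt_nonneg (ρ x)) hpos.le]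
        calc C * ρ x ^ 2 ≤ C * (Real.sqrt (ρ x) * (2 * ρ x)) := mul_le_mul_of_nonneg_left h5 hC
          _ = _ := by ring

end MEANaux

open MEANaux

theorem MEAN (hSMO : Stmt_SMO) (hRUL : Stmt_RUL) (hIBP : Stmt_IBP)
    (hCHX : Stmt_CHX) (hPOLE : Stmt_POLE) (hPHI0 : Stmt_PHI0) (hCUT : Stmt_CUT) :
    Stmt_MEAN := by
  intro V a b g W hF Φ z0 r e hC t1 hsep ψ hψ hψs
  obtain ⟨ha, hb, -, himg, -⟩ := hCHX V a b g W hF Φ z0 r e hC
  have hr := hC.r_pos
  have he := hC.e_pos
  have ht1 : 0 < t1 := hsep.1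
  obtain ⟨hOo, hS0, hφ, hφlog, Cρ, hCρ, hρ⟩ := hPHI0 V a b g W hF Φ z0 r e hC t1 hsep
  obtain ⟨hcut1, hcut2, hcut3, hcut4⟩ := hCUT V a b g W hF Φ z0 r e hC t1 hsep
  have hFU : Fol (slab V W (z0 2 - e) (z0 2 + e)) (z0 2 - e) (z0 2 + e) g W :=
    hF.sub ha.le hb.le
  have hUo : IsOpen (slab V W (z0 2 - e) (z0 2 + e)) := hFU.isOpen
  have hreg : ∀ x ∈ slab V W (z0 2 - e) (z0 2 + e), Reg g W x := fun x hx => hF.reg hx.1
  -- abbreviations
  generalize hUdef : slab V W (z0 2 - e) (z0 2 + e) = U at *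
  have hUV : U ⊆ V := by rw [← hUdef]; exact slab_subset _ _
  generalize hSdef : sing g W Φ z0 r e = S at *
  have hφat : ∀ x ∈ U, x ∉ S → ContDiffAt ℝ ∞ (phi0 g W Φ z0 r e t1) x := fun x hx hxS =>
    (hφ x ⟨hx, hxS⟩).contDiffAt (hOo.mem_nhds ⟨hx, hxS⟩)
  have hYat : ∀ x ∈ U, x ∉ S → ∀ i,
      ContDiffAt ℝ ∞ (fun y => lgrad g W (phi0 g W Φ z0 r e t1) y i) x := by
    intro x hx hxS i
    obtain ⟨-, -, -, -, -, -, -, -, -, -, -, -, h, -⟩ := hSMO.2 g W x (hreg x hx)
    exact (h _ _ (hφat x hx hxS) (hφat x hx hxS)).2.2 i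
  have hlapat : ∀ x ∈ U, x ∉ S →
      ContDiffAt ℝ ∞ (lap g W (phi0 g W Φ z0 r e t1)) x := by
    intro x hx hxS
    obtain ⟨-, -, -, -, -, -, -, -, -, -, -, -, h, -⟩ := hSMO.2 g W x (hreg x hx)
    exact (h _ _ (hφat x hx hxS) (hφat x hx hxS)).2.1
  have hdat : ∀ x ∈ U, ContDiffAt ℝ ∞ (dens g W) x ∧ 0 < dens g W x := by
    intro x hx
    obtain ⟨-, -, -, h1, -, -, -, -, h, -⟩ := hSMO.2 g W x (hreg x hx)
    exact ⟨h, h1⟩
  have hrho : ∀ x, x ∉ S → rho0 g W Φ z0 r e t1 x = lap g W (phi0 g W Φ z0 r e t1) x := by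
    intro x hx
    unfold rho0
    rw [hSdef, if_neg hx]
  have hrhoS : ∀ x, x ∈ S → rho0 g W Φ z0 r e t1 x = 0 := by
    intro x hx
    unfold rho0
    rw [hSdef, if_pos hx]
  -- the support of `ψ ∘ W`
  obtain ⟨c', d', hc', -, hd', hsupp⟩ := exists_Icc_of_tsupport (by linarith) hψs
  have hK : IsCompact (cslab U W c' d') := hFU.proper c' d' hc' hd'
  have hKU : cslab U W c' d' ⊆ U := cslab_subset _ _
  have hzero : ∀ x ∈ U \ cslab U W c' d', ψ (W x) = 0 := by
    intro x hx
    by_contra h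
    exact hx.2 ⟨hx.1, hsupp _ h⟩
  have hdc : ContinuousOn (dens g W) U := fun x hx =>
    (hdat x hx).1.continuousAt.continuousWithinAt
  have hWc : ContinuousOn W U := hFU.continuousOn
  have hψc : ContinuousOn (fun x => ψ (W x)) U :=
    hψ.continuous.comp_continuousOn hWc
  obtain ⟨M, hM⟩ : ∃ M, ∀ x ∈ cslab U W c' d', |ψ (W x) * dens g W x| ≤ M := by
    obtain ⟨M, hM⟩ := hK.exists_bound_of_continuousOn ((hψc.mul hdc).mono hKU)
    exact ⟨M, hM⟩
  have hM' : ∀ x ∈ U, |ψ (W x) * dens g W x| ≤ max M 0 := by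
    intro x hx
    by_cases h : x ∈ cslab U W c' d'
    · exact (hM x h).trans (le_max_left _ _)
    · rw [hzero x ⟨hx, h⟩]
      simp
  have hvolU : volume U < ⊤ := by
    rw [← hUdef]
    exact volume_slab_lt_top hF ha hb
  have hUS : U =ᵐ[volume] (U \ S : Set E3) := (sdiff_null_ae_eq_self hS0).symm
  have hres : volume.restrict U = volume.restrict (U \ S) := Measure.restrict_congr_set hUS
  -- the functions
  have hmeas : ∀ t, 0 < t → t < t1 → AEStronglyMeasurable
      (fun x => ψ (W x) * (cut g W Φ z0 r e t x * rho0 g W Φ z0 r e t1 x) * dens g W x)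
      (volume.restrict U) := by
    intro t ht htt
    rw [hres]
    refine ContinuousOn.aestronglyMeasurable ?_ hOo.measurableSet
    have h1 : ContinuousOn (rho0 g W Φ z0 r e t1) (U \ S) := by
      have h2 : ContinuousOn (lap g W (phi0 g W Φ z0 r e t1)) (U \ S) := fun x hx =>
        (hlapat x hx.1 hx.2).continuousAt.continuousWithinAt
      exact h2.congr fun x hx => hrho x hx.2
    exact ((hψc.mono Set.sdiff_subset).mul
      ((((hcut1 t ht htt).1.continuousOn).mono Set.sdiff_subset).mul h1)).mul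
      (hdc.mono Set.sdiff_subset)
  have hAbound : ∀ t x, x ∈ U →
      |ψ (W x) * (cut g W Φ z0 r e t x * rho0 g W Φ z0 r e t1 x) * dens g W x|
        ≤ max M 0 * Cρ := by
    intro t x hx
    have e1 : ψ (W x) * (cut g W Φ z0 r e t x * rho0 g W Φ z0 r e t1 x) * dens g W x
        = (ψ (W x) * dens g W x) * (cut g W Φ z0 r e t x * rho0 g W Φ z0 r e t1 x) := by ring
    rw [e1, abs_mul]
    have h1 := hM' x hx
    have h2 : |cut g W Φ z0 r e t x * rho0 g W Φ z0 r e t1 x| ≤ Cρ := by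
      rw [abs_mul, abs_of_nonneg (hcut2 t x).1]
      calc cut g W Φ z0 r e t x * |rho0 g W Φ z0 r e t1 x| ≤ 1 * |rho0 g W Φ z0 r e t1 x| :=
            mul_le_mul_of_nonneg_right (hcut2 t x).2 (abs_nonneg _)
        _ ≤ Cρ := by rw [one_mul]; exact hρ x hx
    exact mul_le_mul h1 h2 (abs_nonneg _) (le_max_right _ _)
  have hAint : ∀ t, 0 < t → t < t1 → IntegrableOn
      (fun x => ψ (W x) * (cut g W Φ z0 r e t x * rho0 g W Φ z0 r e t1 x) * dens g W x) U := by
    intro t ht htt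
    have hfin : IsFiniteMeasure (volume.restrict U) := ⟨by simpa using hvolU⟩
    refine Integrable.of_bound (hmeas t ht htt) (max M 0 * Cρ) ?_
    rw [ae_restrict_iff' hUo.measurableSet]
    exact Eventually.of_forall fun x hx => hAbound t x hx
  -- the field
  have hcutat : ∀ t, 0 < t → t < t1 → ∀ x ∈ U, ContDiffAt ℝ ∞ (cut g W Φ z0 r e t) x :=
    fun t ht htt x hx => ((hcut1 t ht htt).1 x hx).contDiffAt (hUo.mem_nhds hx)
  have hZ0 : ∀ t, 0 < t → t < t1 → ∀ x ∈ S, ∀ i, (fun y => cut g W Φ z0 r e t y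
      * lgrad g W (phi0 g W Φ z0 r e t1) y i) =ᶠ[𝓝 x] fun _ => 0 := by
    intro t ht htt x hx i
    filter_upwards [(hcut1 t ht htt).2 x hx] with y hy
    rw [hy, zero_mul]
  have hZat : ∀ t, 0 < t → t < t1 → ∀ x ∈ U, ∀ i, ContDiffAt ℝ ∞ (fun y =>
      cut g W Φ z0 r e t y * lgrad g W (phi0 g W Φ z0 r e t1) y i) x := by
    intro t ht htt x hx i
    by_cases hxS : x ∈ S
    · exact contDiffAt_const.congr_of_eventuallyEq (hZ0 t ht htt x hxS i)
    · exact (hcutat t ht htt x hx).mul (hYat x hx hxS i)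
  have hpt : ∀ t, 0 < t → t < t1 → ∀ x ∈ U, ldiv g W (fun y i => cut g W Φ z0 r e t y
        * lgrad g W (phi0 g W Φ z0 r e t1) y i) x
      = cut g W Φ z0 r e t x * rho0 g W Φ z0 r e t1 x
        + ∑ i, pd i (cut g W Φ z0 r e t) x * lgrad g W (phi0 g W Φ z0 r e t1) x i := by
    intro t ht htt x hx
    by_cases hxS : x ∈ S
    · have h1 : ∀ i, pd i (cut g W Φ z0 r e t) x = 0 := fun i =>
        pd_zero ((hcut1 t ht htt).2 x hxS)
      have h2 : ∀ i, pd i (fun y => dens g W y * (cut g W Φ z0 r e t y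
          * lgrad g W (phi0 g W Φ z0 r e t1) y i)) x = 0 := by
        intro i
        refine pd_zero ?_
        filter_upwards [hZ0 t ht htt x hxS i] with y hy
        rw [hy, mul_zero]
      unfold ldiv
      simp only [h1, h2, hrhoS x hxS]
      simp
    · obtain ⟨-, -, -, -, -, -, -, -, -, -, -, h12⟩ := hRUL g W x (hreg x hx)
      rw [h12 (cut g W Φ z0 r e t) (fun y i => lgrad g W (phi0 g W Φ z0 r e t1) y i)
        ((hcutat t ht htt x hx).differentiableAt (by simp))
        (fun i => (hYat x hx hxS i).differentiableAt (by simp)), hrho x hxS]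
      congr 1
      refine Finset.sum_congr rfl fun i _ => ?_
      rw [mul_comm]
      rfl
  have hIB : ∀ t, 0 < t → t < t1 →
      ∫ x in U, ψ (W x) * ldiv g W (fun y i => cut g W Φ z0 r e t y
        * lgrad g W (phi0 g W Φ z0 r e t1) y i) x * dens g W x = 0 := by
    intro t ht htt
    refine (hIBP U (z0 2 - e) (z0 2 + e) g W hFU).1 _ ψ ?_ ?_ hψ hψs
    · intro i x hx
      exact ((hZat t ht htt x hx i).of_le (by exact_mod_cast le_top)).contDiffWithinAt
    · intro x hx
      obtain ⟨h1, -⟩ := hRUL g W x (hreg x hx)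
      have h2 := h1 (phi0 g W Φ z0 r e t1)
      calc ∑ i, cut g W Φ z0 r e t x * lgrad g W (phi0 g W Φ z0 r e t1) x i * grad W x i
          = cut g W Φ z0 r e t x
            * ∑ i, lgrad g W (phi0 g W Φ z0 r e t1) x i * grad W x i := by
            rw [Finset.mul_sum]
            exact Finset.sum_congr rfl fun i _ => by ring
        _ = 0 := by rw [h2, mul_zero]
  have hTint : ∀ t, 0 < t → t < t1 → IntegrableOn (fun x => ψ (W x)
      * ldiv g W (fun y i => cut g W Φ z0 r e t y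
        * lgrad g W (phi0 g W Φ z0 r e t1) y i) x * dens g W x) U := by
    intro t ht htt
    have h1 : ContinuousOn (fun x => ldiv g W (fun y i => cut g W Φ z0 r e t y
        * lgrad g W (phi0 g W Φ z0 r e t1) y i) x) U := by
      intro x hx
      refine ContinuousAt.continuousWithinAt ?_
      unfold ldiv
      refine ContinuousAt.div ?_ (hdat x hx).1.continuousAt (hdat x hx).2.ne'
      refine tendsto_finsetSum _ fun i _ => ?_
      have h2 : ContDiffAt ℝ ∞ (fun y => dens g W y * (cut g W Φ z0 r e t y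
          * lgrad g W (phi0 g W Φ z0 r e t1) y i)) x := (hdat x hx).1.mul (hZat t ht htt x hx i)
      have h3 : ContDiffAt ℝ 0 (fderiv ℝ (fun y => dens g W y * (cut g W Φ z0 r e t y
          * lgrad g W (phi0 g W Φ z0 r e t1) y i))) x :=
        h2.fderiv_right (m := 0) (by exact_mod_cast le_top)
      have h4 := h3.continuousAt
      exact (h4.clm_apply continuousAt_const)
    have h5 : IntegrableOn (fun x => ψ (W x)
      * ldiv g W (fun y i => cut g W Φ z0 r e t y
        * lgrad g W (phi0 g W Φ z0 r e t1) y i) x * dens g W x) (cslab U W c' d') :=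
      ((((hψc.mul h1).mul hdc).mono hKU).integrableOn_compact hK)
    refine h5.of_forall_sdiff_eq_zero hUo.measurableSet fun x hx => ?_
    rw [hzero x hx]
    ring
  have hAB : ∀ t, 0 < t → t < t1 →
      ∫ x in U, ψ (W x) * (cut g W Φ z0 r e t x * rho0 g W Φ z0 r e t1 x) * dens g W x
      = - ∫ x in U, ψ (W x) * (∑ i, pd i (cut g W Φ z0 r e t) x
          * lgrad g W (phi0 g W Φ z0 r e t1) x i) * dens g W x := by
    intro t ht htt
    have h1 : ∫ x in U, ψ (W x) * (∑ i, pd i (cut g W Φ z0 r e t) x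
          * lgrad g W (phi0 g W Φ z0 r e t1) x i) * dens g W x
        = ∫ x in U, (ψ (W x) * ldiv g W (fun y i => cut g W Φ z0 r e t y
            * lgrad g W (phi0 g W Φ z0 r e t1) y i) x * dens g W x
          - ψ (W x) * (cut g W Φ z0 r e t x * rho0 g W Φ z0 r e t1 x) * dens g W x) := by
      refine setIntegral_congr_fun hUo.measurableSet fun x hx => ?_
      rw [hpt t ht htt x hx]
      ring
    rw [h1, integral_sub (hTint t ht htt) (hAint t ht htt), hIB t ht htt]
    ring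
  -- the limit of the flux
  have hpolelim : Tendsto (fun t => ∫ x in U, ψ (W x) * (∑ i, pd i (cut g W Φ z0 r e t) x
      * lgrad g W (phi0 g W Φ z0 r e t1) x i) * dens g W x) (𝓝[>] 0) (𝓝 0) := by
    have hneg : |-(r / 2)| < r := by
      rw [abs_neg, abs_of_pos (by positivity)]
      linarith
    have hpos : |r / 2| < r := by
      rw [abs_of_pos (by positivity)]
      linarith
    obtain ⟨hsm1, c1, C1, -, hC1, -, hp1⟩ := hPOLE V a b g W hF Φ z0 r e hC (-(r / 2)) hneg
    obtain ⟨hsm2, c2, C2, -, hC2, -, hp2⟩ := hPOLE V a b g W hF Φ z0 r e hC (r / 2) hpos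
    have himo : IsOpen (Φ '' obox z0 r e) := by
      obtain ⟨-, -, -, -, h, -⟩ := hCHX V a b g W hF Φ z0 r e hC
      refine h _ ?_ subset_rfl
      have : obox z0 r e = {z | |z 0 - z0 0| < r} ∩ ({z | |z 1 - z0 1| < r}
          ∩ {z | |z 2 - z0 2| < e}) := rfl
      rw [this]
      refine IsOpen.inter ?_ (IsOpen.inter ?_ ?_)
      · exact isOpen_lt (by fun_prop) continuous_const
      · exact isOpen_lt (by fun_prop) continuous_const
      · exact isOpen_lt (by fun_prop) continuous_const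
    have himV : Φ '' obox z0 r e ⊆ V := by
      refine Set.Subset.trans (Set.image_mono ?_) himg
      intro z hz
      exact ⟨hz.1.le, hz.2.1.le, hz.2.2.le⟩
    have hlim := hcut4 (fun x i => lgrad g W (phi0 g W Φ z0 r e t1) x i) 2 (-2) (max C1 C2)
      (min (t1 / 2) 1) ?_ (by positivity) ?_ ?_ ψ hψ hψs
    · simpa using hlim
    · intro i x hx
      exact ((hYat x hx.1 hx.2 i).of_le (by exact_mod_cast le_top)).contDiffWithinAt
    · intro x hx h0 h1
      have hxV := himV hx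
      have h2 := hφlog (-(r / 2)) (Or.inr rfl) x hx h0 (lt_of_lt_of_le h1 (min_le_left _ _))
      have h3 : ¬ (-(r / 2) = r / 2) := by
        intro h
        linarith
      rw [if_neg h3] at h2
      have h4 := flux_pole (σ := 1) (C := max C1 C2) hRUL (hF.reg hxV) (by simp)
        (((hsm1 x hx).contDiffAt (himo.mem_nhds hx)).differentiableAt (by simp)) h0
        (lt_of_lt_of_le h1 (min_le_right _ _)) h2
        ((hp1 x hx).1.trans (mul_le_mul_of_nonneg_right (le_max_left _ _) (sq_nonneg _)))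
        (le_max_of_le_left hC1.le)
      simpa using h4
    · intro x hx h0 h1
      have hxV := himV hx
      have h2 := hφlog (r / 2) (Or.inl rfl) x hx h0 (lt_of_lt_of_le h1 (min_le_left _ _))
      rw [if_pos rfl] at h2
      have h4 := flux_pole (σ := -1) (C := max C1 C2) hRUL (hF.reg hxV) (by simp)
        (((hsm2 x hx).contDiffAt (himo.mem_nhds hx)).differentiableAt (by simp)) h0
        (lt_of_lt_of_le h1 (min_le_right _ _)) h2
        ((hp2 x hx).1.trans (mul_le_mul_of_nonneg_right (le_max_right _ _) (sq_nonneg _)))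
        (le_max_of_le_left hC1.le)
      simpa using h4
  -- the limit of the left-hand side
  have hmain : Tendsto (fun t => ∫ x in U,
      ψ (W x) * (cut g W Φ z0 r e t x * rho0 g W Φ z0 r e t1 x) * dens g W x) (𝓝[>] 0)
      (𝓝 (∫ x in U, ψ (W x) * rho0 g W Φ z0 r e t1 x * dens g W x)) := by
    have hev : ∀ᶠ t in 𝓝[>] (0 : ℝ), 0 < t ∧ t < t1 :=
      (Ioo_mem_nhdsGT ht1)
    refine tendsto_integral_filter_of_dominated_convergence (fun _ => max M 0 * Cρ) ?_ ?_ ?_ ?_
    · filter_upwards [hev] with t ht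
      exact hmeas t ht.1 ht.2
    · filter_upwards [hev] with t ht
      rw [ae_restrict_iff' hUo.measurableSet]
      exact Eventually.of_forall fun x hx => hAbound t x hx
    · have hfin : IsFiniteMeasure (volume.restrict U) := ⟨by simpa using hvolU⟩
      exact integrable_const _
    · rw [hres, ae_restrict_iff' hOo.measurableSet]
      refine Eventually.of_forall fun x hx => ?_
      have h1 := hcut3 x hx.1 hx.2
      have h2 : Tendsto (fun t => ψ (W x) * (cut g W Φ z0 r e t x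
          * rho0 g W Φ z0 r e t1 x) * dens g W x) (𝓝[>] 0)
          (𝓝 (ψ (W x) * (1 * rho0 g W Φ z0 r e t1 x) * dens g W x)) :=
        ((h1.mul_const _).const_mul _).mul_const _
      simpa using h2
  have hmain2 : Tendsto (fun t => ∫ x in U,
      ψ (W x) * (cut g W Φ z0 r e t x * rho0 g W Φ z0 r e t1 x) * dens g W x) (𝓝[>] 0)
      (𝓝 0) := by
    have h1 := hpolelim.neg
    rw [neg_zero] at h1
    refine h1.congr' ?_
    filter_upwards [Ioo_mem_nhdsGT ht1] with t ht
    exact (hAB t ht.1 ht.2).symm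
  exact tendsto_nhds_unique hmain hmain2

end Pool.Agent.PFlow.GB


end

section

/-!
# Uniform decay and ellipticity of the modified metric
-/

open MeasureTheory Filter Topology
open scoped ContDiff ENNReal

namespace Pool.Agent.PFlow

open Pool.Agent.PenroseSph

namespace CUTD

theorem diff_pd {f : E3 → ℝ} {U : Set E3} (hU : IsOpen U) (hf : ContDiffOn ℝ ∞ f U) {x : E3}
    (hx : x ∈ U) (k : Fin 3) : DifferentiableAt ℝ (pd k f) x := by
  have h1 : ContDiffAt ℝ ∞ f x := hf.contDiffAt (hU.mem_nhds hx)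
  have h2 : ContDiffAt ℝ 1 (fderiv ℝ f) x := h1.fderiv_right (by norm_cast)
  exact (h2.differentiableAt (by simp)).clm_apply (differentiableAt_const _)

theorem diff_at {f : E3 → ℝ} {U : Set E3} (hU : IsOpen U) (hf : ContDiffOn ℝ ∞ f U) {x : E3}
    (hx : x ∈ U) : DifferentiableAt ℝ f x :=
  (hf.contDiffAt (hU.mem_nhds hx)).differentiableAt (by simp)

/-- The bounds for the cut-off function. -/
theorem cut (hKAP : Stmt_KAP) : ∃ D : ℝ, 0 < D ∧ ∀ l : ℝ, 0 < l → ∀ x : E3, 0 < ‖x‖ →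
    (∀ k, |pd k (fun y => kap (‖y‖ / l)) x| ≤ 2 * D / ‖x‖) ∧
    (∀ k m, |pd k (pd m (fun y => kap (‖y‖ / l))) x| ≤ 4 * D / ‖x‖ ^ 2) := by
  obtain ⟨_, _, _, h0, ⟨D, hD, hb⟩, _, _⟩ := hKAP
  refine ⟨D, hD, fun l hl x hx => ?_⟩
  rcases le_or_gt ‖x‖ (2 * l) with hxl | hxl
  · have h1 : 1 / l ≤ 2 / ‖x‖ := by
      rw [div_le_div_iff₀ hl hx]
      linarith
    have h1' : 0 < 1 / l := by positivity
    constructor
    · intro k
      refine ((hb l hl x).1 k).trans ?_
      calc D / l = D * (1 / l) := by ring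
        _ ≤ D * (2 / ‖x‖) := by gcongr
        _ = 2 * D / ‖x‖ := by ring
    · intro k m
      refine ((hb l hl x).2 k m).trans ?_
      calc D / l ^ 2 = D * (1 / l) ^ 2 := by ring
        _ ≤ D * (2 / ‖x‖) ^ 2 := by gcongr
        _ = 4 * D / ‖x‖ ^ 2 := by ring
  · have hO : IsOpen {y : E3 | 2 * l < ‖y‖} := isOpen_lt continuous_const continuous_norm
    have h1 : ∀ y ∈ {y : E3 | 2 * l < ‖y‖}, kap (‖y‖ / l) = 0 := by
      intro y hy
      apply h0
      rw [le_div_iff₀ hl]
      exact le_of_lt hy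
    have h2 : ∀ k, ∀ y ∈ {y : E3 | 2 * l < ‖y‖}, pd k (fun y => kap (‖y‖ / l)) y = 0 := by
      intro k y hy
      have h3 : (fun y : E3 => kap (‖y‖ / l)) =ᶠ[𝓝 y] fun _ => (0 : ℝ) := by
        filter_upwards [hO.mem_nhds hy] with z hz using h1 z hz
      rw [pd_congr h3, pd_const]
    constructor
    · intro k
      rw [h2 k x hxl, abs_zero]
      positivity
    · intro k m
      have h3 : pd m (fun y : E3 => kap (‖y‖ / l)) =ᶠ[𝓝 x] fun _ => (0 : ℝ) := by
        filter_upwards [hO.mem_nhds hxl] with z hz using h2 m z hz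
      rw [pd_congr h3, pd_const, abs_zero]
      positivity

/-- The region where the inner cut-off is one. -/
def V : Set E3 := {y : E3 | 1 / 2 < ‖y‖}

theorem isOpen_V : IsOpen V := isOpen_lt continuous_const continuous_norm

theorem modG_eq (hKAP : Stmt_KAP) {l R : ℝ} (hl : 1 ≤ l) (hR : 4 * l ≤ R) (g : TensorField)
    {y : E3} (hy : y ∈ V) (i j : Fin 3) :
    modG l R g y i j = (1 : Bil) i j + kap (‖y‖ / l) * (g y i j - (1 : Bil) i j) := by
  obtain ⟨_, _, _, h0, _⟩ := hKAP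
  have h1 : kin R y = 1 := by
    have hy' : 1 / 2 < ‖y‖ := hy
    rw [kin, h0 (32 * R * ‖y‖) (by nlinarith), sub_zero]
  simp only [modG, h1, mul_one, Matrix.add_apply, Matrix.smul_apply, Matrix.sub_apply,
    smul_eq_mul]

end CUTD

open CUTD in
theorem CUTD (hKAP : Stmt_KAP) : Stmt_CUTD := by
  intro g h C hg hdec hell
  obtain ⟨D, hD, hcut⟩ := cut hKAP
  have hK := hKAP
  obtain ⟨_, h01, _, _, _, hsm, _⟩ := hKAP
  have hC : 0 ≤ C := by
    have h1 : (1 : ℝ) ≤ ‖(EuclideanSpace.single 0 1 : E3)‖ := by simp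
    have h2 := (hdec _ h1 0 0).1
    have h3 : ‖(EuclideanSpace.single 0 1 : E3)‖ = 1 := by simp
    rw [h3, div_one] at h2
    exact (abs_nonneg _).trans h2
  have hU : IsOpen ({0}ᶜ : Set E3) := isOpen_compl_singleton
  refine ⟨1 + C + 8 * D * C, by positivity, fun l R hl hR => ⟨?_, ?_⟩⟩
  · have hl0 : 0 < l := by linarith
    intro x hx i j
    have hx0 : 0 < ‖x‖ := by linarith
    have hxV : ∀ y : E3, y ∈ V → y ∈ ({0}ᶜ : Set E3) := by
      intro y hy h1
      have h2 : 1 / 2 < ‖y‖ := hy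
      rw [Set.mem_singleton_iff.mp h1, norm_zero] at h2
      linarith
    have hxm : x ∈ V := by
      show 1 / 2 < ‖x‖
      linarith
    set K : E3 → ℝ := fun y => kap (‖y‖ / l) with hKdef
    have hKs : ContDiff ℝ ∞ K := hsm l hl0
    have hKd : ∀ y, DifferentiableAt ℝ K y := fun y => hKs.differentiable (by simp) y
    have hKpd : ∀ k y, DifferentiableAt ℝ (pd k K) y := fun k y =>
      diff_pd isOpen_univ hKs.contDiffOn (Set.mem_univ y) k
    set G : E3 → ℝ := fun y => g y i j with hGdef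
    have hGs : ContDiffOn ℝ ∞ G {0}ᶜ := hg.smooth i j
    have hGd : ∀ y ∈ V, DifferentiableAt ℝ G y := fun y hy => diff_at hU hGs (hxV y hy)
    have hGpd : ∀ k, ∀ y ∈ V, DifferentiableAt ℝ (pd k G) y := fun k y hy =>
      diff_pd hU hGs (hxV y hy) k
    set c : ℝ := (1 : Bil) i j with hc
    -- first derivatives
    have hp1 : ∀ k, ∀ y ∈ V, pd k (fun z => modG l R g z i j) y =
        K y * pd k G y + (G y - c) * pd k K y := by
      intro k y hy
      have h1 : (fun z => modG l R g z i j) =ᶠ[𝓝 y] fun z => c + K z * (G z - c) := by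
        filter_upwards [isOpen_V.mem_nhds hy] with z hz using modG_eq hK hl hR g hz i j
      have hGc : DifferentiableAt ℝ (fun z => G z - c) y := (hGd y hy).sub_const c
      rw [pd_congr h1, pd_add (f := fun _ => c) (f' := fun z => K z * (G z - c))
        (differentiableAt_const _) ((hKd y).mul hGc), pd_const, zero_add,
        pd_mul (f' := fun z => G z - c) (hKd y) hGc,
        pd_sub (f' := fun _ => c) (hGd y hy) (differentiableAt_const _), pd_const, sub_zero]
    have hp2 : ∀ k m, pd k (pd m (fun z => modG l R g z i j)) x =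
        K x * pd k (pd m G) x + pd m G x * pd k K x +
          ((G x - c) * pd k (pd m K) x + pd m K x * pd k G x) := by
      intro k m
      have h1 : pd m (fun z => modG l R g z i j) =ᶠ[𝓝 x] fun y =>
          K y * pd m G y + (G y - c) * pd m K y := by
        filter_upwards [isOpen_V.mem_nhds hxm] with z hz using hp1 m z hz
      have hGc : DifferentiableAt ℝ (fun z => G z - c) x := (hGd x hxm).sub_const c
      rw [pd_congr h1, pd_add (f := fun y => K y * pd m G y)
        (f' := fun y => (G y - c) * pd m K y) ((hKd x).mul (hGpd m x hxm))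
        (hGc.mul (hKpd m x)), pd_mul (hKd x) (hGpd m x hxm),
        pd_mul (f := fun z => G z - c) hGc (hKpd m x),
        pd_sub (f' := fun _ => c) (hGd x hxm) (differentiableAt_const _), pd_const, sub_zero]
    obtain ⟨d1, d2, d3, _, _⟩ := hdec x hx i j
    obtain ⟨c1, c2⟩ := hcut l hl0 x hx0
    have hK1 : |K x| ≤ 1 := by
      rw [abs_of_nonneg (h01 _).1]
      exact (h01 _).2
    refine ⟨?_, ?_, ?_, ?_, ?_⟩
    · rw [modG_eq hK hl hR g hxm i j, add_sub_cancel_left, abs_mul]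
      calc |kap (‖x‖ / l)| * |g x i j - (1 : Bil) i j| ≤ 1 * (C / ‖x‖) := by gcongr
        _ ≤ (1 + C + 8 * D * C) / ‖x‖ := by
          rw [one_mul]
          gcongr
          have : 0 ≤ 8 * D * C := by positivity
          linarith
    · intro k
      rw [hp1 k x hxm]
      calc |K x * pd k G x + (G x - c) * pd k K x|
          ≤ |K x| * |pd k G x| + |G x - c| * |pd k K x| := by
            rw [← abs_mul, ← abs_mul]
            exact abs_add_le _ _
        _ ≤ 1 * (C / ‖x‖ ^ 2) + (C / ‖x‖) * (2 * D / ‖x‖) := by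
            gcongr
            · exact d2 k
            · exact c1 k
        _ = (C + 2 * D * C) / ‖x‖ ^ 2 := by
            field_simp
        _ ≤ (1 + C + 8 * D * C) / ‖x‖ ^ 2 := by
            refine div_le_div_of_nonneg_right ?_ (by positivity)
            have : 0 ≤ D * C := by positivity
            linarith
    · intro k m
      rw [hp2 k m]
      calc |K x * pd k (pd m G) x + pd m G x * pd k K x +
          ((G x - c) * pd k (pd m K) x + pd m K x * pd k G x)|
          ≤ (|K x| * |pd k (pd m G) x| + |pd m G x| * |pd k K x|) +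
            (|G x - c| * |pd k (pd m K) x| + |pd m K x| * |pd k G x|) := by
            rw [← abs_mul, ← abs_mul, ← abs_mul, ← abs_mul]
            exact (abs_add_le _ _).trans (add_le_add (abs_add_le _ _) (abs_add_le _ _))
        _ ≤ (1 * (C / ‖x‖ ^ 3) + (C / ‖x‖ ^ 2) * (2 * D / ‖x‖)) +
            ((C / ‖x‖) * (4 * D / ‖x‖ ^ 2) + (2 * D / ‖x‖) * (C / ‖x‖ ^ 2)) := by
            gcongr
            · exact d3 k m
            · exact d2 m
            · exact c1 k
            · exact c2 k m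
            · exact c1 m
            · exact d2 k
        _ = (C + 8 * D * C) / ‖x‖ ^ 3 := by
            field_simp
            ring
        _ ≤ (1 + C + 8 * D * C) / ‖x‖ ^ 3 := by
            gcongr
            linarith
    · simp only [Pi.zero_apply, Matrix.zero_apply, abs_zero]
      positivity
    · intro k
      have h1 : (fun y : E3 => (0 : TensorField) y i j) = fun _ => (0 : ℝ) := rfl
      rw [h1, pd_const, abs_zero]
      positivity
  · intro x hx v
    have hxm : x ∈ V := by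
      show 1 / 2 < ‖x‖
      linarith
    have hx0 : x ∈ ({0}ᶜ : Set E3) := by
      intro h1
      rw [Set.mem_singleton_iff.mp h1, norm_zero] at hx
      linarith
    obtain ⟨e1, e2⟩ := hell x hx v
    set t : ℝ := kap (‖x‖ / l) with ht
    have ht0 : 0 ≤ t := (h01 _).1
    have ht1 : t ≤ 1 := (h01 _).2
    set s : ℝ := ∑ i, v i ^ 2 with hs
    have hs0 : 0 ≤ s := Finset.sum_nonneg fun i _ => sq_nonneg _
    have hg0 : 0 ≤ ev (g x) v v := by
      have h2 := (hg.posDef x hx0).posSemidef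
      have h3 := h2.dotProduct_mulVec_nonneg v
      have h4 : ev (g x) v v = star v ⬝ᵥ (g x).mulVec v := by
        simp only [ev, Matrix.mulVec, dotProduct, Finset.mul_sum, Pi.star_apply, star_trivial]
        refine Finset.sum_congr rfl fun i _ => Finset.sum_congr rfl fun j _ => by ring
      rw [h4]
      exact h3
    have hev : ev (modG l R g x) v v = (1 - t) * s + t * ev (g x) v v := by
      have h1 : ∀ i j, modG l R g x i j * v i * v j =
          (1 - t) * ((1 : Bil) i j * v i * v j) + t * (g x i j * v i * v j) := by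
        intro i j
        rw [modG_eq hK hl hR g hxm i j]
        ring
      have h2 : ∑ i, ∑ j, (1 : Bil) i j * v i * v j = s := by
        rw [hs]
        refine Finset.sum_congr rfl fun i _ => ?_
        rw [Finset.sum_eq_single i]
        · rw [Matrix.one_apply_eq]
          ring
        · intro j _ hj
          rw [Matrix.one_apply_ne (Ne.symm hj)]
          ring
        · intro h3
          exact absurd (Finset.mem_univ i) h3
      unfold ev
      simp only [h1, Finset.sum_add_distrib, ← Finset.mul_sum]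
      rw [h2]
    have hC1 : C ≤ 1 + C + 8 * D * C := by
      have : 0 ≤ D * C := by positivity
      linarith
    have hC2 : 1 ≤ 1 + C + 8 * D * C := by
      have : 0 ≤ D * C := by positivity
      linarith
    set C' : ℝ := 1 + C + 8 * D * C with hC'
    have e1' : s ≤ C' * ev (g x) v v := e1.trans (by gcongr)
    have e2' : ev (g x) v v ≤ C' * s := e2.trans (by gcongr)
    have e3' : s ≤ C' * s := by nlinarith
    rw [hev]
    have ht2 : 0 ≤ 1 - t := by linarith
    constructor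
    · nlinarith [mul_le_mul_of_nonneg_left e1' ht0, mul_le_mul_of_nonneg_left e3' ht2]
    · nlinarith [mul_le_mul_of_nonneg_left e2' ht0, mul_le_mul_of_nonneg_left e3' ht2]

end Pool.Agent.PFlow


end

section

/-!
# The divergence theorem for the mass integrand (module DIVA)
-/

open MeasureTheory Filter Topology
open scoped ContDiff

namespace Pool.Agent.PFlow

open Pool.Agent.PenroseSph

namespace MDIVA

theorem contDiffAt_pd {n : ℕ} {f : E3 → ℝ} {x : E3} (hf : ContDiffAt ℝ ∞ f x) (i : Fin 3) :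
    ContDiffAt ℝ n (fun y => pd i f y) x := by
  unfold pd
  have h1 : ContDiffAt ℝ n (fderiv ℝ f) x := by
    apply hf.fderiv_right
    exact_mod_cast le_top
  exact h1.clm_apply contDiffAt_const

theorem pd_comm {f : E3 → ℝ} {x : E3} (hf : ContDiffAt ℝ ∞ f x) (i j : Fin 3) :
    pd i (pd j f) x = pd j (pd i f) x := by
  have hd : DifferentiableAt ℝ (fderiv ℝ f) x := by
    have h1 : ∀ n : ℕ, ContDiffAt ℝ n (fderiv ℝ f) x := by
      intro n
      apply hf.fderiv_right
      exact_mod_cast le_top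
    exact (h1 1).differentiableAt (by simp)
  have key : ∀ i j : Fin 3, pd i (pd j f) x =
      fderiv ℝ (fderiv ℝ f) x (EuclideanSpace.single i 1) (EuclideanSpace.single j 1) := by
    intro i j
    have h2 : HasFDerivAt (fun y => fderiv ℝ f y (EuclideanSpace.single j (1 : ℝ)))
        (((ContinuousLinearMap.apply ℝ ℝ (EuclideanSpace.single j (1 : ℝ) : E3))).comp
          (fderiv ℝ (fderiv ℝ f) x)) x :=
      ((ContinuousLinearMap.apply ℝ ℝ (EuclideanSpace.single j (1 : ℝ) : E3)).hasFDerivAt).comp x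
        hd.hasFDerivAt
    unfold pd
    rw [h2.fderiv]
    rfl
  rw [key, key]
  have hs : IsSymmSndFDerivAt ℝ f x := by
    apply hf.isSymmSndFDerivAt
    rw [minSmoothness_of_isRCLikeNormedField]
    have h2 : ∀ n : ℕ, (n : WithTop ℕ∞) ≤ ∞ := by
      intro n
      exact_mod_cast le_top
    exact h2 2
  exact hs.eq _ _

theorem fderiv_zero {f : E3 → ℝ} {x : E3} {r c : ℝ} (hd : DifferentiableAt ℝ f x) (hx : ‖x‖ = r)
    (hc : ∀ y : E3, r ≤ ‖y‖ → f y = c) (v : E3) : fderiv ℝ f x v = 0 := by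
  have key : ∀ v : E3, 0 ≤ inner ℝ x v → fderiv ℝ f x v = 0 := by
    intro v hv
    have h1 : HasDerivAt (fun t : ℝ => f (x + t • v)) (fderiv ℝ f x v) 0 := by
      have h2 : HasDerivAt (fun t : ℝ => x + t • v) v 0 := by
        simpa using ((hasDerivAt_id (0 : ℝ)).smul_const v).const_add x
      have h3 : HasFDerivAt f (fderiv ℝ f x) (x + (0 : ℝ) • v) := by
        simpa using hd.hasFDerivAt
      exact h3.comp_hasDerivAt 0 h2
    have h4 : HasDerivWithinAt (fun _ : ℝ => c) (fderiv ℝ f x v) (Set.Ici 0) 0 := by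
      apply (h1.hasDerivWithinAt (s := Set.Ici 0)).congr
      · intro t ht
        symm
        apply hc
        have ht0 : 0 ≤ t := ht
        have h5 : ‖x‖ ^ 2 ≤ ‖x + t • v‖ ^ 2 := by
          rw [norm_add_sq_real, inner_smul_right]
          have h6 : 0 ≤ t * inner ℝ x v := mul_nonneg ht0 hv
          nlinarith [sq_nonneg ‖t • v‖]
        rw [← hx]
        exact le_of_sq_le_sq h5 (norm_nonneg _)
      · symm
        apply hc
        simp [hx]
    have h5 : HasDerivWithinAt (fun _ : ℝ => c) 0 (Set.Ici 0) 0 := hasDerivWithinAt_const _ _ _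
    exact (uniqueDiffWithinAt_Ici (0 : ℝ)).eq_deriv _ h4 h5
  rcases le_total 0 (inner ℝ x v) with h | h
  · exact key v h
  · have h1 := key (-v) (by rw [inner_neg_right]; linarith)
    rw [map_neg] at h1
    linarith

/-- the vector field -/
noncomputable def VV (g : TensorField) (x : E3) (j : Fin 3) : ℝ :=
  ∑ i, (pd i (fun y => g y i j) x - pd j (fun y => g y i i) x)

theorem contDiffAt_VV {g : TensorField} {x : E3}
    (h : ∀ i j, ContDiffAt ℝ ∞ (fun y => g y i j) x) (j : Fin 3) :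
    ContDiffAt ℝ 1 (fun y => VV g y j) x := by
  unfold VV
  apply ContDiffAt.sum
  intro i _
  exact (contDiffAt_pd (n := 1) (h i j) i).sub (contDiffAt_pd (n := 1) (h i i) j)

theorem div_VV {g : TensorField} {x : E3}
    (h : ∀ i j, ContDiffAt ℝ ∞ (fun y => g y i j) x) :
    ∑ j, pd j (fun y => VV g y j) x = linR g x := by
  have h1 : ∀ j, pd j (fun y => VV g y j) x =
      ∑ i, (pd j (pd i (fun y => g y i j)) x - pd j (pd j (fun y => g y i i)) x) := by
    intro j
    have hd : ∀ a b c, DifferentiableAt ℝ (fun y => pd a (fun y => g y b c) y) x := fun a b c =>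
      (contDiffAt_pd (n := 1) (h b c) a).differentiableAt one_ne_zero
    have h2 : HasFDerivAt (fun y => VV g y j)
        (∑ i, (fderiv ℝ (fun y => pd i (fun y => g y i j) y) x
          - fderiv ℝ (fun y => pd j (fun y => g y i i) y) x)) x := by
      unfold VV
      apply HasFDerivAt.fun_sum
      intro i _
      exact (hd i i j).hasFDerivAt.sub (hd j i i).hasFDerivAt
    unfold pd at h2 ⊢
    rw [h2.fderiv]
    simp only [sum_apply, sub_apply]
  unfold linR
  rw [Finset.sum_comm]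
  apply Finset.sum_congr rfl
  intro j _
  rw [h1]
  apply Finset.sum_congr rfl
  intro i _
  rw [pd_comm (h i j) j i]

end MDIVA

open MDIVA in
theorem DIVA (hDIVG : Stmt_DIVG) : Stmt_DIVA := by
  intro g l hl hg hflat
  have hm : MeasurableSet (cAnn l (2 * l)) := by
    have h1 : IsClosed (cAnn l (2 * l)) := by
      unfold cAnn
      exact (isClosed_le continuous_const continuous_norm).inter
        (isClosed_le continuous_norm continuous_const)
    exact h1.measurableSet
  have hin : ∀ x ∈ cAnn l (2 * l), l / 2 < ‖x‖ := by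
    intro x hx
    have := hx.1
    linarith
  have h1 : ∫ x in cAnn l (2 * l), linR g x =
      ∫ x in cAnn l (2 * l), ∑ i, pd i (fun y => VV g y i) x := by
    apply setIntegral_congr_fun hm
    intro x hx
    exact (div_VV (hg x (hin x hx))).symm
  have h2 := hDIVG (VV g) l (2 * l) hl (by linarith)
    (fun x hx i => contDiffAt_VV (hg x (hin x hx)) i)
  rw [h1, h2]
  have h3 : ∀ θ : Metric.sphere (0 : E3) 1,
      (∑ i, VV g ((2 * l) • (θ : E3)) i * (θ : E3) i) * (2 * l) ^ 2 = 0 := by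
    intro θ
    have hn : ‖(2 * l) • (θ : E3)‖ = 2 * l := by
      rw [norm_smul, norm_eq_of_mem_sphere, mul_one, Real.norm_eq_abs, abs_of_pos (by linarith)]
    have h4 : ∀ j, VV g ((2 * l) • (θ : E3)) j = 0 := by
      intro j
      unfold VV
      apply Finset.sum_eq_zero
      intro i _
      have h5 : ∀ a b c, pd a (fun y => g y b c) ((2 * l) • (θ : E3)) = 0 := by
        intro a b c
        unfold pd
        refine fderiv_zero (r := 2 * l) (c := (1 : Matrix (Fin 3) (Fin 3) ℝ) b c)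
          ((hg _ (by rw [hn]; linarith) b c).differentiableAt (by simp)) hn ?_ _
        intro y hy
        rw [hflat y hy]
      rw [h5, h5, sub_zero]
    simp only [h4, zero_mul, Finset.sum_const_zero]
  simp only [h3, integral_zero, zero_sub]
  unfold massIntegral
  rw [neg_inj]
  have hpi : (16 * Real.pi) ≠ 0 := by positivity
  have h6 : ∀ a : ℝ, 16 * Real.pi * (1 / (16 * Real.pi) * a) = a := by
    intro a
    field_simp
  rw [h6]
  apply integral_congr_ae
  filter_upwards with θ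
  have h7 : ∑ i, VV g (l • (θ : E3)) i * (θ : E3) i =
      ∑ i, ∑ j, (pd i (fun y => g y i j) (l • (θ : E3)) - pd j (fun y => g y i i) (l • (θ : E3)))
        * (θ : E3) j := by
    unfold VV
    rw [Finset.sum_comm]
    apply Finset.sum_congr rfl
    intro j _
    rw [Finset.sum_mul]
  rw [h7]

end Pool.Agent.PFlow


end

section

/-!
# SCAL: the scalar curvature in the linear approximation
-/

open MeasureTheory Filter Topology
open scoped ContDiff

namespace Pool.Agent.PFlow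

open Pool.Agent.PenroseSph

namespace ESCAL

open MJD (Pt)
open Pool.Agent.PenroseConvex (CovR.contDiffAt_pd)

/-! ### Elementary bounds -/

lemma s3 {f : Fin 3 → ℝ} {B : ℝ} (h : ∀ l, |f l| ≤ B) : |∑ l, f l| ≤ 3 * B := by
  refine (Finset.abs_sum_le_sum_abs _ _).trans ?_
  rw [Fin.sum_univ_three]
  linarith [h 0, h 1, h 2]

lemma p2 {a b A B : ℝ} (ha : |a| ≤ A) (hb : |b| ≤ B) : |a * b| ≤ A * B := by
  rw [abs_mul]
  exact mul_le_mul ha hb (abs_nonneg _) ((abs_nonneg _).trans ha)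

lemma a2 {a b A B : ℝ} (ha : |a| ≤ A) (hb : |b| ≤ B) : |a + b| ≤ A + B :=
  (abs_add_le a b).trans (add_le_add ha hb)

lemma m2 {a b A B : ℝ} (ha : |a| ≤ A) (hb : |b| ≤ B) : |a - b| ≤ A + B :=
  (abs_sub a b).trans (add_le_add ha hb)

lemma half {a A : ℝ} (ha : |a| ≤ A) : |1 / 2 * a| ≤ A / 2 := by
  rw [abs_mul, abs_of_pos (by norm_num : (0 : ℝ) < 1 / 2)]
  linarith

/-! ### The determinant and the inverse -/

lemma det_bound {G : Bil} {η : ℝ} (hη : η ≤ 1 / 100)
    (h : ∀ i j, |G i j - (1 : Bil) i j| ≤ η) : |G.det - 1| ≤ 4 * η := by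
  have h0 : 0 ≤ η := (abs_nonneg _).trans (h 0 0)
  obtain ⟨H, hH⟩ : ∃ H : Bil, H = G - 1 := ⟨_, rfl⟩
  have hG : G = 1 + H := by rw [hH]; abel
  have hb : ∀ i j, |H i j| ≤ η := by
    intro i j
    rw [hH, Matrix.sub_apply]
    exact h i j
  have e : G.det - 1 = (H 0 0 + H 1 1 + H 2 2) + ((H 0 0 * H 1 1 - H 0 1 * H 1 0) +
      (H 0 0 * H 2 2 - H 0 2 * H 2 0) + (H 1 1 * H 2 2 - H 1 2 * H 2 1)) +
      (H 0 0 * (H 1 1 * H 2 2 - H 1 2 * H 2 1) - H 0 1 * (H 1 0 * H 2 2 - H 1 2 * H 2 0) +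
        H 0 2 * (H 1 0 * H 2 1 - H 1 1 * H 2 0)) := by
    rw [hG, Matrix.det_fin_three]
    simp only [Matrix.add_apply, Matrix.one_apply_eq, Matrix.one_apply_ne (show (0 : Fin 3) ≠ 1 by decide),
      Matrix.one_apply_ne (show (0 : Fin 3) ≠ 2 by decide),
      Matrix.one_apply_ne (show (1 : Fin 3) ≠ 0 by decide),
      Matrix.one_apply_ne (show (1 : Fin 3) ≠ 2 by decide),
      Matrix.one_apply_ne (show (2 : Fin 3) ≠ 0 by decide),
      Matrix.one_apply_ne (show (2 : Fin 3) ≠ 1 by decide)]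
    ring
  have q : ∀ a b c d : Fin 3, ∀ a' b' c' d' : Fin 3,
      |H a b * H c d - H a' b' * H c' d'| ≤ η * η + η * η := fun a b c d a' b' c' d' =>
    m2 (p2 (hb _ _) (hb _ _)) (p2 (hb _ _) (hb _ _))
  have b1 : |H 0 0 + H 1 1 + H 2 2| ≤ η + η + η := a2 (a2 (hb _ _) (hb _ _)) (hb _ _)
  have b2 : |(H 0 0 * H 1 1 - H 0 1 * H 1 0) + (H 0 0 * H 2 2 - H 0 2 * H 2 0) +
      (H 1 1 * H 2 2 - H 1 2 * H 2 1)| ≤ (η * η + η * η) + (η * η + η * η) + (η * η + η * η) :=
    a2 (a2 (q _ _ _ _ _ _ _ _) (q _ _ _ _ _ _ _ _)) (q _ _ _ _ _ _ _ _)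
  have b3 : |H 0 0 * (H 1 1 * H 2 2 - H 1 2 * H 2 1) - H 0 1 * (H 1 0 * H 2 2 - H 1 2 * H 2 0) +
      H 0 2 * (H 1 0 * H 2 1 - H 1 1 * H 2 0)| ≤
      η * (η * η + η * η) + η * (η * η + η * η) + η * (η * η + η * η) :=
    a2 (m2 (p2 (hb _ _) (q _ _ _ _ _ _ _ _)) (p2 (hb _ _) (q _ _ _ _ _ _ _ _)))
      (p2 (hb _ _) (q _ _ _ _ _ _ _ _))
  rw [e]
  refine (a2 (a2 b1 b2) b3).trans ?_
  have h1 : η * η ≤ 1 / 100 * η := mul_le_mul_of_nonneg_right hη h0
  have h2 : η * (η * η) ≤ 1 / 100 * η := by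
    have : η * (η * η) ≤ η * (1 / 100 * η) := mul_le_mul_of_nonneg_left h1 h0
    nlinarith
  nlinarith

lemma inv_bound {G : Bil} {η : ℝ} (hη : η ≤ 1 / 100) (h : ∀ i j, |G i j - (1 : Bil) i j| ≤ η) :
    (∀ i j, |G⁻¹ i j| ≤ 2) ∧ ∀ i j, |G⁻¹ i j - (1 : Bil) i j| ≤ 6 * η := by
  have h0 : 0 ≤ η := (abs_nonneg _).trans (h 0 0)
  have hd : G.det ≠ 0 := by
    intro h1
    have := det_bound hη h
    rw [h1, zero_sub, abs_neg, abs_one] at this
    linarith
  have hA : G * G⁻¹ = 1 := Matrix.mul_nonsing_inv G (Ne.isUnit hd)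
  have hE : ∀ i j, G⁻¹ i j - (1 : Bil) i j = -∑ k, (G i k - (1 : Bil) i k) * G⁻¹ k j := by
    intro i j
    have h1 := congrFun (congrFun hA i) j
    rw [Matrix.mul_apply] at h1
    have h2 : ∑ k, (G i k - (1 : Bil) i k) * G⁻¹ k j = ∑ k, G i k * G⁻¹ k j - G⁻¹ i j := by
      simp only [sub_mul, Finset.sum_sub_distrib]
      congr 1
      have := congrFun (congrFun (one_mul G⁻¹) i) j
      rwa [Matrix.mul_apply] at this
    rw [h2, h1]
    ring
  obtain ⟨⟨i0, j0⟩, hmax⟩ := Finite.exists_max fun x : Fin 3 × Fin 3 => |G⁻¹ x.1 x.2|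
  set M := |G⁻¹ i0 j0| with hM
  have hle : ∀ i j, |G⁻¹ i j| ≤ M := fun i j => hmax (i, j)
  have hM0 : 0 ≤ M := abs_nonneg _
  have hdiff : ∀ i j, |G⁻¹ i j - (1 : Bil) i j| ≤ 3 * (η * M) := by
    intro i j
    rw [hE, abs_neg]
    exact s3 fun k => p2 (h _ _) (hle _ _)
  have h1le : |(1 : Bil) i0 j0| ≤ 1 := by
    rw [Matrix.one_apply]
    split_ifs <;> simp
  have hM2 : M ≤ 2 := by
    have h3 : M ≤ 3 * (η * M) + 1 := by
      have : |(G⁻¹ i0 j0 - (1 : Bil) i0 j0) + (1 : Bil) i0 j0| ≤ 3 * (η * M) + 1 :=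
        a2 (hdiff _ _) h1le
      rwa [sub_add_cancel] at this
    have h4 : η * M ≤ 1 / 100 * M := mul_le_mul_of_nonneg_right hη hM0
    linarith
  refine ⟨fun i j => (hle i j).trans hM2, fun i j => (hdiff i j).trans ?_⟩
  have h5 : η * M ≤ η * 2 := mul_le_mul_of_nonneg_left hM2 h0
  linarith

lemma sqrt_bound {d δ : ℝ} (h : |d - 1| ≤ δ) (hd : 0 ≤ d) : |Real.sqrt d - 1| ≤ δ := by
  have h1 : (Real.sqrt d - 1) * (Real.sqrt d + 1) = d - 1 := by
    have := Real.mul_self_sqrt hd
    linear_combination this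
  have h2 : 1 ≤ Real.sqrt d + 1 := by linarith [Real.sqrt_nonneg d]
  have h3 : |Real.sqrt d - 1| * (Real.sqrt d + 1) = |d - 1| := by
    rw [← h1, abs_mul, abs_of_pos (by linarith : (0 : ℝ) < Real.sqrt d + 1)]
  have h4 : |Real.sqrt d - 1| ≤ |Real.sqrt d - 1| * (Real.sqrt d + 1) :=
    le_mul_of_one_le_right (abs_nonneg _) h2
  linarith

/-! ### The expansion at a point -/

section

variable {g : TensorField} {x : E3} {η ρ : ℝ}

/-- the second derivatives -/
noncomputable def D2 (g : TensorField) (x : E3) (k l i j : Fin 3) : ℝ :=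
  pd k (pd l (fun y => g y i j)) x

/-- `∂_i g_jl + ∂_j g_il - ∂_l g_ij` -/
noncomputable def T (g : TensorField) (i j l : Fin 3) (y : E3) : ℝ :=
  pd i (fun y => g y j l) y + pd j (fun y => g y i l) y - pd l (fun y => g y i j) y

/-- its derivative -/
noncomputable def T' (g : TensorField) (x : E3) (m i j l : Fin 3) : ℝ :=
  D2 g x m i j l + D2 g x m j i l - D2 g x m l i j

/-- The hypotheses at a point. -/
structure Hyp (g : TensorField) (x : E3) (η ρ : ℝ) : Prop where
  pt : Pt g x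
  smooth : ∀ i j, ContDiffAt ℝ ∞ (fun y => g y i j) x
  small : η ≤ 1 / 100
  ρ0 : 0 ≤ ρ
  b0 : ∀ i j, |g x i j - (1 : Bil) i j| ≤ η
  b1 : ∀ k i j, |pd k (fun y => g y i j) x| ≤ η * ρ
  b2 : ∀ k l i j, |D2 g x k l i j| ≤ η * ρ ^ 2

variable (h : Hyp g x η ρ)

include h

lemma Hyp.η0 : 0 ≤ η := (abs_nonneg _).trans (h.b0 0 0)

lemma Hyp.diffPd (k i j : Fin 3) : DifferentiableAt ℝ (pd k fun y => g y i j) x :=
  (CovR.contDiffAt_pd (n := 1) (h.smooth i j) (by norm_cast)
    k).differentiableAt (by norm_num)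

lemma Hyp.diffT (i j l : Fin 3) : DifferentiableAt ℝ (T g i j l) x :=
  ((h.diffPd i j l).add (h.diffPd j i l)).sub (h.diffPd l i j)

lemma Hyp.pdT (m i j l : Fin 3) : pd m (T g i j l) x = T' g x m i j l := by
  have e : T g i j l = fun y => (pd i (fun y => g y j l) y + pd j (fun y => g y i l) y) -
      pd l (fun y => g y i j) y := rfl
  have h1 : DifferentiableAt ℝ
      (fun y => pd i (fun y => g y j l) y + pd j (fun y => g y i l) y) x :=
    (h.diffPd i j l).add (h.diffPd j i l)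
  rw [e, pd_sub h1 (h.diffPd l i j), pd_add (h.diffPd i j l) (h.diffPd j i l)]
  rfl

lemma Hyp.bT (i j l : Fin 3) : |T g i j l x| ≤ 3 * (η * ρ) := by
  have := m2 (a2 (h.b1 i j l) (h.b1 j i l)) (h.b1 l i j)
  unfold T
  linarith

lemma Hyp.bT' (m i j l : Fin 3) : |T' g x m i j l| ≤ 3 * (η * ρ ^ 2) := by
  have := m2 (a2 (h.b2 m i j l) (h.b2 m j i l)) (h.b2 m l i j)
  unfold T'
  linarith

lemma Hyp.bA (i j : Fin 3) : |(g x)⁻¹ i j| ≤ 2 := (inv_bound h.small h.b0).1 i j

lemma Hyp.bA1 (i j : Fin 3) : |(g x)⁻¹ i j - (1 : Bil) i j| ≤ 6 * η :=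
  (inv_bound h.small h.b0).2 i j

omit h in
lemma chr_eq (k i j : Fin 3) (y : E3) :
    christoffel g k i j y = 1 / 2 * ∑ l, (g y)⁻¹ k l * T g i j l y := rfl

lemma Hyp.bG (k i j : Fin 3) : |christoffel g k i j x| ≤ 9 * (η * ρ) := by
  rw [chr_eq]
  have h1 : ∀ l, |(g x)⁻¹ k l * T g i j l x| ≤ 2 * (3 * (η * ρ)) := fun l =>
    p2 (h.bA k l) (h.bT i j l)
  have := half (s3 h1)
  linarith

lemma Hyp.bA' (m k l : Fin 3) : |pd m (fun y => (g y)⁻¹ k l) x| ≤ 108 * (η * ρ) := by
  rw [h.pt.pd_inv, abs_neg]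
  have h1 : ∀ a, |christoffel g k m a x * (g x)⁻¹ a l + christoffel g l m a x * (g x)⁻¹ k a| ≤
      9 * (η * ρ) * 2 + 9 * (η * ρ) * 2 := fun a =>
    a2 (p2 (h.bG _ _ _) (h.bA _ _)) (p2 (h.bG _ _ _) (h.bA _ _))
  have := s3 h1
  linarith

lemma Hyp.pdG (m k i j : Fin 3) : pd m (christoffel g k i j) x =
    1 / 2 * ∑ l, ((g x)⁻¹ k l * T' g x m i j l + T g i j l x * pd m (fun y => (g y)⁻¹ k l) x) := by
  have e : christoffel g k i j = fun y => 1 / 2 * ∑ l, (g y)⁻¹ k l * T g i j l y := by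
    funext y
    exact chr_eq k i j y
  have hd : ∀ l, DifferentiableAt ℝ (fun y => (g y)⁻¹ k l * T g i j l y) x := fun l =>
    (h.pt.diffInv k l).mul (h.diffT i j l)
  rw [e, pd_const_mul _ (DifferentiableAt.fun_sum fun l _ => hd l), pd_sum _ _ fun l _ => hd l]
  congr 1
  refine Finset.sum_congr rfl fun l _ => ?_
  rw [pd_mul (h.pt.diffInv k l) (h.diffT i j l), h.pdT]

/-- the derivative of the Christoffel symbol up to quadratic terms -/
lemma Hyp.bG' (m k i j : Fin 3) : |pd m (christoffel g k i j) x - 1 / 2 * T' g x m i j k| ≤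
    513 * (η * ρ) ^ 2 := by
  have e : pd m (christoffel g k i j) x - 1 / 2 * T' g x m i j k =
      1 / 2 * ∑ l, (((g x)⁻¹ k l - (1 : Bil) k l) * T' g x m i j l +
        T g i j l x * pd m (fun y => (g y)⁻¹ k l) x) := by
    rw [h.pdG]
    have h1 : T' g x m i j k = ∑ l, (1 : Bil) k l * T' g x m i j l := by
      simp [Matrix.one_apply]
    rw [h1, ← mul_sub, ← Finset.sum_sub_distrib]
    congr 1
    refine Finset.sum_congr rfl fun l _ => ?_
    ring
  rw [e]
  have h1 : ∀ l, |((g x)⁻¹ k l - (1 : Bil) k l) * T' g x m i j l +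
      T g i j l x * pd m (fun y => (g y)⁻¹ k l) x| ≤
      6 * η * (3 * (η * ρ ^ 2)) + 3 * (η * ρ) * (108 * (η * ρ)) := fun l =>
    a2 (p2 (h.bA1 _ _) (h.bT' _ _ _ _)) (p2 (h.bT _ _ _) (h.bA' _ _ _))
  have h2 := half (s3 h1)
  refine h2.trans (le_of_eq ?_)
  ring

/-- the leading part of the Ricci curvature -/
noncomputable def R0 (g : TensorField) (x : E3) (i j : Fin 3) : ℝ :=
  ∑ k, (1 / 2 * T' g x k i j k - 1 / 2 * T' g x j i k k)

omit h in
lemma ricci_eq (i j : Fin 3) : ricci g i j x =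
    ∑ k, (pd k (christoffel g k i j) x - pd j (christoffel g k i k) x
    + ∑ l, (christoffel g k k l x * christoffel g l i j x
      - christoffel g k j l x * christoffel g l i k x)) := rfl

lemma Hyp.bRic (i j : Fin 3) : |ricci g i j x - R0 g x i j| ≤ 4536 * (η * ρ) ^ 2 := by
  have e : ricci g i j x - R0 g x i j =
      ∑ k, (((pd k (christoffel g k i j) x - 1 / 2 * T' g x k i j k) -
        (pd j (christoffel g k i k) x - 1 / 2 * T' g x j i k k)) +
      ∑ l, (christoffel g k k l x * christoffel g l i j x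
      - christoffel g k j l x * christoffel g l i k x)) := by
    rw [ricci_eq, R0, ← Finset.sum_sub_distrib]
    refine Finset.sum_congr rfl fun k _ => ?_
    ring
  rw [e]
  have h1 : ∀ k : Fin 3, |((pd k (christoffel g k i j) x - 1 / 2 * T' g x k i j k) -
        (pd j (christoffel g k i k) x - 1 / 2 * T' g x j i k k)) +
      ∑ l, (christoffel g k k l x * christoffel g l i j x
      - christoffel g k j l x * christoffel g l i k x)| ≤
      (513 * (η * ρ) ^ 2 + 513 * (η * ρ) ^ 2) +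
        3 * (9 * (η * ρ) * (9 * (η * ρ)) + 9 * (η * ρ) * (9 * (η * ρ))) := fun k =>
    a2 (m2 (h.bG' _ _ _ _) (h.bG' _ _ _ _)) (s3 fun l =>
      m2 (p2 (h.bG _ _ _) (h.bG _ _ _)) (p2 (h.bG _ _ _) (h.bG _ _ _)))
  refine (s3 h1).trans (le_of_eq ?_)
  ring

lemma Hyp.bR0 (i j : Fin 3) : |R0 g x i j| ≤ 9 * (η * ρ ^ 2) := by
  have h1 : ∀ k : Fin 3, |1 / 2 * T' g x k i j k - 1 / 2 * T' g x j i k k| ≤
      3 * (η * ρ ^ 2) / 2 + 3 * (η * ρ ^ 2) / 2 := fun k =>
    m2 (half (h.bT' _ _ _ _)) (half (h.bT' _ _ _ _))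
  refine (s3 h1).trans (le_of_eq ?_)
  ring

lemma Hyp.linR_eq : linR g x = ∑ i, R0 g x i i := by
  have hs : ∀ k l i j, D2 g x k l i j = D2 g x k l j i := by
    intro k l i j
    unfold D2
    have h1 : (pd l fun y => g y i j) =ᶠ[𝓝 x] pd l fun y => g y j i := by
      have h2 : ∀ᶠ y in 𝓝 x, ∀ᶠ z in 𝓝 y, (g z).IsSymm := h.pt.symm.eventually_nhds
      filter_upwards [h2] with y hy
      refine pd_congr ?_
      filter_upwards [hy] with z hz
      exact (hz.apply i j).symm ▸ rfl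
    exact pd_congr h1
  have e : linR g x = ∑ i, ∑ j, (D2 g x i j i j - D2 g x j j i i) := rfl
  rw [e]
  simp only [R0, T', Fin.sum_univ_three]
  rw [hs 1 0 1 0, hs 2 0 2 0, hs 0 1 0 1, hs 2 1 2 1, hs 0 2 0 2, hs 1 2 1 2]
  ring

lemma Hyp.b_linR : |linR g x| ≤ 27 * (η * ρ ^ 2) := by
  rw [h.linR_eq]
  refine (s3 fun i => h.bR0 i i).trans (le_of_eq ?_)
  ring

omit h in
lemma scal_eq : scalarCurvature g x = ∑ i, ∑ j, (g x)⁻¹ i j * ricci g i j x := rfl

lemma Hyp.bRic1 (i j : Fin 3) : |ricci g i j x| ≤ 4536 * (η * ρ) ^ 2 + 9 * (η * ρ ^ 2) := by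
  have := a2 (h.bRic i j) (h.bR0 i j)
  rwa [sub_add_cancel] at this

lemma Hyp.bScal : |scalarCurvature g x - linR g x| ≤ 17000 * (η * ρ) ^ 2 := by
  have e : scalarCurvature g x - linR g x =
      ∑ i, ((∑ j, ((g x)⁻¹ i j - (1 : Bil) i j) * ricci g i j x) +
        (ricci g i i x - R0 g x i i)) := by
    rw [scal_eq, h.linR_eq, ← Finset.sum_sub_distrib]
    refine Finset.sum_congr rfl fun i _ => ?_
    have h1 : ricci g i i x = ∑ j, (1 : Bil) i j * ricci g i j x := by
      simp [Matrix.one_apply]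
    have h2 : ∑ j, ((g x)⁻¹ i j - (1 : Bil) i j) * ricci g i j x =
        ∑ j, (g x)⁻¹ i j * ricci g i j x - ricci g i i x := by
      rw [h1, ← Finset.sum_sub_distrib]
      refine Finset.sum_congr rfl fun j _ => ?_
      ring
    rw [h2]
    ring
  rw [e]
  have h1 : ∀ i, |(∑ j, ((g x)⁻¹ i j - (1 : Bil) i j) * ricci g i j x) +
        (ricci g i i x - R0 g x i i)| ≤
      3 * (6 * η * (4536 * (η * ρ) ^ 2 + 9 * (η * ρ ^ 2))) + 4536 * (η * ρ) ^ 2 := fun i =>
    a2 (s3 fun j => p2 (h.bA1 _ _) (h.bRic1 _ _)) (h.bRic _ _)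
  refine (s3 h1).trans ?_
  have h0 := h.η0
  have h2 : η * (η * ρ) ^ 2 ≤ 1 / 100 * (η * ρ) ^ 2 :=
    mul_le_mul_of_nonneg_right h.small (sq_nonneg _)
  have h3 : 0 ≤ (η * ρ) ^ 2 := sq_nonneg _
  nlinarith

lemma Hyp.bVol : |volDen g x - 1| ≤ 4 * η := by
  have h1 := det_bound h.small h.b0
  exact sqrt_bound h1 (h.pt.pos.self_of_nhds.le)

lemma Hyp.main : |scalarCurvature g x * volDen g x - linR g x| ≤ 20000 * (η * ρ) ^ 2 := by
  have e : scalarCurvature g x * volDen g x - linR g x =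
      (scalarCurvature g x - linR g x) * volDen g x + linR g x * (volDen g x - 1) := by ring
  have hv : |volDen g x| ≤ 2 := by
    have h1 := a2 h.bVol (le_of_eq abs_one : |(1 : ℝ)| ≤ 1)
    rw [sub_add_cancel] at h1
    linarith [h.small]
  have hv' : |volDen g x| ≤ 104 / 100 := by
    have h1 := a2 h.bVol (le_of_eq abs_one : |(1 : ℝ)| ≤ 1)
    rw [sub_add_cancel] at h1
    linarith [h.small]
  rw [e]
  refine (a2 (p2 h.bScal hv') (p2 h.b_linR h.bVol)).trans ?_
  have h3 : 0 ≤ (η * ρ) ^ 2 := sq_nonneg _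
  nlinarith

end

end ESCAL

theorem SCAL : Stmt_SCAL := by
  intro C
  set K : ℝ := |C| + 1 with hK
  have hK1 : 1 ≤ K := by
    rw [hK]
    linarith [abs_nonneg C]
  have hCK : C ≤ K := by
    rw [hK]
    linarith [le_abs_self C]
  refine ⟨20000 * K ^ 2, 100 * K, by positivity, by linarith, ?_⟩
  intro g x hx hsym hsm hb
  have hr : 0 < ‖x‖ := by linarith
  set r := ‖x‖ with hr_def
  have hη : K / r ≤ 1 / 100 := by
    rw [div_le_div_iff₀ hr (by norm_num)]
    linarith
  have hC : ∀ n : ℕ, C / r ^ n ≤ K / r ^ n := fun n =>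
    div_le_div_of_nonneg_right hCK (by positivity)
  have b0 : ∀ i j, |g x i j - (1 : Bil) i j| ≤ K / r := fun i j => by
    have := hC 1
    rw [pow_one] at this
    exact (hb i j).1.trans this
  have hpos : ∀ᶠ y in 𝓝 x, 0 < (g y).det := by
    have h1 : ContinuousAt (fun y => (g y).det) x := by
      have h2 : ∀ i j, ContinuousAt (fun y => g y i j) x := fun i j => (hsm i j).continuousAt
      simp only [Matrix.det_fin_three]
      fun_prop (disch := assumption)
    have h3 : 0 < (g x).det := by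
      have := ESCAL.det_bound hη b0
      rw [abs_le] at this
      linarith
    exact h1.eventually (Ioi_mem_nhds h3)
  have H : ESCAL.Hyp g x (K / r) (1 / r) :=
    { pt := ⟨fun i j => (hsm i j).differentiableAt (by simp), hsym, hpos⟩
      smooth := hsm
      small := hη
      ρ0 := by positivity
      b0 := b0
      b1 := fun k i j => by
        have h1 := ((hb i j).2.1 k).trans (hC 2)
        refine h1.trans (le_of_eq ?_)
        field_simp
      b2 := fun k l i j => by
        have h1 := ((hb i j).2.2 k l).trans (hC 3)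
        refine h1.trans (le_of_eq ?_)
        field_simp }
  constructor
  · refine H.main.trans (le_of_eq ?_)
    field_simp
  · refine H.b_linR.trans ?_
    have e : 27 * (K / r * (1 / r) ^ 2) = 27 * K / r ^ 3 := by
      field_simp
    rw [e]
    refine div_le_div_of_nonneg_right ?_ (by positivity)
    nlinarith

end Pool.Agent.PFlow


end

section

/-!
# The momentum density is integrable (module JINT)
-/

open MeasureTheory Filter Topology
open scoped ContDiff

namespace Pool.Agent.PFlow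

open Pool.Agent.PenroseSph

namespace MJINT

theorem isClosed_cAnn (a b : ℝ) : IsClosed (cAnn a b) :=
  (isClosed_le continuous_const continuous_norm).inter
    (isClosed_le continuous_norm continuous_const)

theorem isCompact_cAnn (a b : ℝ) : IsCompact (cAnn a b) := by
  refine Metric.isCompact_of_isClosed_isBounded (isClosed_cAnn a b) ?_
  refine (Metric.isBounded_closedBall (x := (0 : E3)) (r := b)).subset fun x hx => ?_
  rw [mem_closedBall_zero_iff]
  exact hx.2

theorem cAnn_ne {a b : ℝ} (ha : 0 < a) {x : E3} (hx : x ∈ cAnn a b) : x ∈ ({0}ᶜ : Set E3) := by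
  intro h0
  have h1 : x = 0 := h0
  have h2 := hx.1
  rw [h1, norm_zero] at h2
  linarith

theorem jlen_nonneg (g h : TensorField) (x : E3) : 0 ≤ jlen g h x := Real.sqrt_nonneg _

theorem jlen_cont {g h : TensorField} (hg : MetricOn {0}ᶜ g) (hh : TensorOn {0}ᶜ h) :
    ContinuousOn (jlen g h) {0}ᶜ := by
  intro x hx
  have hU : IsOpen ({0}ᶜ : Set E3) := isOpen_compl_singleton
  have h1 : ContinuousAt (fun x => ev (g x)⁻¹ (fun i => momentumDensity g h i x)
      (fun i => momentumDensity g h i x)) x := by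
    unfold ev
    refine tendsto_finsetSum _ fun i _ => tendsto_finsetSum _ fun j _ => ?_
    exact (((MCF.inv_smooth hU hg hx i j).continuousAt).mul
      (MCF.mom_smooth hU hg hh hx i).continuousAt).mul (MCF.mom_smooth hU hg hh hx j).continuousAt
  exact (Real.continuous_sqrt.continuousAt.comp h1).continuousWithinAt

theorem linR_cont {g : TensorField} (hg : MetricOn {0}ᶜ g) : ContinuousOn (linR g) {0}ᶜ := by
  intro x hx
  have hU : IsOpen ({0}ᶜ : Set E3) := isOpen_compl_singleton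
  have h1 : ContinuousAt (fun x => linR g x) x := by
    unfold linR
    refine tendsto_finsetSum _ fun i _ => tendsto_finsetSum _ fun j _ => ?_
    exact ((MCF.pd_smooth (MCF.pd_smooth (MCF.g_smooth hU hg hx i j) j) i).continuousAt).sub
      (MCF.pd_smooth (MCF.pd_smooth (MCF.g_smooth hU hg hx i i) j) j).continuousAt
  exact h1.continuousWithinAt

theorem int_inv4 : IntegrableOn (fun x : E3 => 1 / ‖x‖ ^ 4) {x : E3 | 1 ≤ ‖x‖} := by
  have h1 : Integrable (fun x : E3 => (1 + ‖x‖) ^ (-(4 : ℝ))) := by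
    refine integrable_one_add_norm ?_
    rw [finrank_euclideanSpace, Fintype.card_fin]
    norm_num
  have hm : MeasurableSet {x : E3 | 1 ≤ ‖x‖} :=
    (isClosed_le continuous_const continuous_norm).measurableSet
  refine Integrable.mono' (h1.integrableOn.const_mul 16) ?_ ?_
  · exact (Measurable.div measurable_const (measurable_norm.pow_const 4)).aestronglyMeasurable
  · refine (ae_restrict_iff' hm).2 (Eventually.of_forall fun x hx => ?_)
    have hx1 : 1 ≤ ‖x‖ := hx
    have e : (1 + ‖x‖) ^ (-(4 : ℝ)) = 1 / (1 + ‖x‖) ^ 4 := by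
      rw [Real.rpow_neg (by positivity), one_div]
      congr 1
      exact_mod_cast Real.rpow_natCast (1 + ‖x‖) 4
    rw [Real.norm_of_nonneg (by positivity), e, mul_one_div, div_le_div_iff₀ (by positivity)
      (by positivity), one_mul]
    calc (1 + ‖x‖) ^ 4 ≤ (2 * ‖x‖) ^ 4 := pow_le_pow_left₀ (by positivity) (by linarith) 4
      _ = 16 * ‖x‖ ^ 4 := by ring

/-- Boundary terms. -/
theorem bdry {g : TensorField} {C : ℝ}
    (hb : ∀ x : E3, 1 ≤ ‖x‖ → ∀ i j k, |pd k (fun y => g y i j) x| ≤ C / ‖x‖ ^ 2) {b : ℝ}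
    (hb1 : 1 ≤ b) :
    |∫ θ : Metric.sphere (0 : E3) 1, (∑ i, MDIVA.VV g (b • (θ : E3)) i * (θ : E3) i) * b ^ 2
      ∂((volume : Measure E3).toSphere)| ≤
      18 * C * ((volume : Measure E3).toSphere).real Set.univ := by
  have hb0 : 0 < b := by linarith
  rw [← Real.norm_eq_abs]
  refine norm_integral_le_of_norm_le_const (Eventually.of_forall fun θ => ?_)
  have hn : ‖b • (θ : E3)‖ = b := by
    rw [norm_smul, norm_eq_of_mem_sphere, mul_one, Real.norm_eq_abs, abs_of_pos hb0]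
  have hθ : ∀ i, |(θ : E3) i| ≤ 1 := by
    intro i
    have h1 := EuclideanSpace.norm_eq (θ : E3)
    rw [norm_eq_of_mem_sphere] at h1
    have h2 : (θ : E3) i ^ 2 ≤ ∑ j, ‖(θ : E3) j‖ ^ 2 := by
      have h3 := Finset.single_le_sum (f := fun j => ‖(θ : E3) j‖ ^ 2)
        (fun j _ => sq_nonneg _) (Finset.mem_univ i)
      simpa [Real.norm_eq_abs, sq_abs] using h3
    have h4 : ∑ j, ‖(θ : E3) j‖ ^ 2 = 1 := by
      have h5 : 0 ≤ ∑ j, ‖(θ : E3) j‖ ^ 2 := Finset.sum_nonneg fun _ _ => sq_nonneg _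
      rw [← Real.sq_sqrt h5, ← h1]
      norm_num
    rw [h4] at h2
    exact (sq_le_one_iff_abs_le_one _).1 h2
  have hV : ∀ j, |MDIVA.VV g (b • (θ : E3)) j| ≤ 3 * (C / b ^ 2 + C / b ^ 2) := by
    intro j
    unfold MDIVA.VV
    refine ESCAL.s3 fun i => ESCAL.m2 ?_ ?_
    · have := hb (b • (θ : E3)) (by rw [hn]; exact hb1) i j i
      rwa [hn] at this
    · have := hb (b • (θ : E3)) (by rw [hn]; exact hb1) i i j
      rwa [hn] at this
  have h6 : |∑ i, MDIVA.VV g (b • (θ : E3)) i * (θ : E3) i| ≤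
      3 * (3 * (C / b ^ 2 + C / b ^ 2) * 1) :=
    ESCAL.s3 fun i => ESCAL.p2 (hV i) (hθ i)
  rw [Real.norm_eq_abs, abs_mul, abs_of_nonneg (sq_nonneg b)]
  calc |∑ i, MDIVA.VV g (b • (θ : E3)) i * (θ : E3) i| * b ^ 2
      ≤ 3 * (3 * (C / b ^ 2 + C / b ^ 2) * 1) * b ^ 2 :=
        mul_le_mul_of_nonneg_right h6 (sq_nonneg b)
    _ = 18 * C := by
        field_simp
        ring

/-- The pointwise inequality far out. -/
theorem point {g h : TensorField} {C C' : ℝ} {x : E3} (hC : 0 < C)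
    (hdec : DominantEnergy 0 g h) (hx0 : 0 < ‖x‖) (hx : 100 * C ≤ ‖x‖)
    (hS : |scalarCurvature g x * volDen g x - linR g x| ≤ C' / ‖x‖ ^ 4)
    (hd : 0 < (g x).det)
    (hb : ∀ i j, |g x i j - (1 : Bil) i j| ≤ C / ‖x‖ ∧ |h x i j| ≤ C / ‖x‖ ^ 2) :
    jlen g h x ≤ linR g x + (C' + 700 * C ^ 2) * (1 / ‖x‖ ^ 4) := by
  have hη : C / ‖x‖ ≤ 1 / 100 := by
    rw [div_le_div_iff₀ hx0 (by norm_num)]
    linarith
  have h1 := (ESCAL.inv_bound hη fun i j => (hb i j).1).1
  have h2 : |volDen g x - 1| ≤ 4 * (C / ‖x‖) :=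
    ESCAL.sqrt_bound (ESCAL.det_bound hη fun i j => (hb i j).1) hd.le
  have hv := abs_le.1 h2
  have hv1 : 96 / 100 ≤ volDen g x := by linarith
  have hv2 : volDen g x ≤ 104 / 100 := by linarith
  set T := C / ‖x‖ ^ 2 with hT
  have hT0 : 0 ≤ T := by positivity
  have h3 : |traceWith g h x| ≤ 3 * (3 * (2 * T)) :=
    ESCAL.s3 fun i => ESCAL.s3 fun j => ESCAL.p2 (h1 i j) (hb i j).2
  have h4 : |normSqWith g h x| ≤ 3 * (3 * (3 * (3 * (2 * 2 * T * T)))) :=
    ESCAL.s3 fun i => ESCAL.s3 fun j => ESCAL.s3 fun k => ESCAL.s3 fun l =>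
      ESCAL.p2 (ESCAL.p2 (ESCAL.p2 (h1 i k) (h1 j l)) (hb i j).2) (hb k l).2
  have h5 : traceWith g h x ^ 2 ≤ 324 * T ^ 2 := by
    have := pow_le_pow_left₀ (abs_nonneg _) h3 2
    rw [sq_abs] at this
    nlinarith
  have h6 : -(324 * T ^ 2) ≤ normSqWith g h x := by
    have := (abs_le.1 h4).1
    nlinarith
  have h7 : jlen g h x ≤ energyDensity g h x := hdec x hx0
  have h8 : scalarCurvature g x * volDen g x ≤ linR g x + C' / ‖x‖ ^ 4 := by
    linarith [(abs_le.1 hS).2]
  have h9 : T ^ 2 = C ^ 2 * (1 / ‖x‖ ^ 4) := by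
    rw [hT]
    field_simp
  have hj := jlen_nonneg g h x
  have h10 : jlen g h x ≤ 2 * volDen g x * jlen g h x := by nlinarith
  have h11 : 2 * volDen g x * jlen g h x ≤ 2 * volDen g x * energyDensity g h x :=
    mul_le_mul_of_nonneg_left h7 (by linarith)
  have h12 : 2 * volDen g x * energyDensity g h x =
      scalarCurvature g x * volDen g x + volDen g x * (traceWith g h x ^ 2 - normSqWith g h x) := by
    unfold energyDensity
    ring
  have h13 : volDen g x * (traceWith g h x ^ 2 - normSqWith g h x) ≤ 104 / 100 * (648 * T ^ 2) := by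
    have h14 : traceWith g h x ^ 2 - normSqWith g h x ≤ 648 * T ^ 2 := by linarith
    calc volDen g x * (traceWith g h x ^ 2 - normSqWith g h x)
        ≤ volDen g x * (648 * T ^ 2) := mul_le_mul_of_nonneg_left h14 (by linarith)
      _ ≤ 104 / 100 * (648 * T ^ 2) := mul_le_mul_of_nonneg_right hv2 (by positivity)
  have h15 : 104 / 100 * (648 * T ^ 2) ≤ 700 * T ^ 2 := by nlinarith [sq_nonneg T]
  have h16 : C' / ‖x‖ ^ 4 = C' * (1 / ‖x‖ ^ 4) := by ring
  rw [h16] at h8
  rw [h9] at h15 h13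
  nlinarith

end MJINT

open MJINT in
/-- JINT: the momentum density is integrable. -/
theorem JINT (hAFD : Stmt_AFD) (hSCAL : Stmt_SCAL) (hDIVG : Stmt_DIVG) : Stmt_JINT := by
  intro g h htwo hdec
  obtain ⟨C, hC, hd1, -, -, -⟩ := hAFD g h htwo
  obtain ⟨C', r₀, hC', hr₀, hS⟩ := hSCAL C
  have hg := htwo.metric
  have hh := htwo.tensor
  have hU : IsOpen ({0}ᶜ : Set E3) := isOpen_compl_singleton
  set r₁ := max r₀ (100 * C) with hr₁
  have hr₁1 : 1 ≤ r₁ := le_trans hr₀ (le_max_left _ _)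
  have hjint : ∀ a b : ℝ, 0 < a → IntegrableOn (jlen g h) (cAnn a b) := fun a b ha =>
    ((jlen_cont hg hh).mono fun x hx => cAnn_ne ha hx).integrableOn_compact (isCompact_cAnn a b)
  have hlint : ∀ a b : ℝ, 0 < a → IntegrableOn (linR g) (cAnn a b) := fun a b ha =>
    ((linR_cont hg).mono fun x hx => cAnn_ne ha hx).integrableOn_compact (isCompact_cAnn a b)
  have hpt : ∀ x : E3, r₁ ≤ ‖x‖ →
      jlen g h x ≤ linR g x + (C' + 700 * C ^ 2) * (1 / ‖x‖ ^ 4) := by
    intro x hx
    have hx1 : 1 ≤ ‖x‖ := le_trans hr₁1 hx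
    have hx0 : x ∈ ({0}ᶜ : Set E3) := by
      intro h0
      have h1 : x = 0 := h0
      rw [h1, norm_zero] at hx1
      linarith
    have hs := hS g x (le_trans (le_max_left _ _) hx)
      (by
        filter_upwards [hU.mem_nhds hx0] with y hy
        have h1 := (hg.posDef y hy).1
        exact Matrix.isHermitian_iff_isSymm.1 h1)
      (fun i j => MCF.g_smooth hU hg hx0 i j)
      (fun i j => ⟨(hd1 x hx1 i j).1, (hd1 x hx1 i j).2.1, (hd1 x hx1 i j).2.2.1⟩)
    exact point hC hdec (by linarith) (le_trans (le_max_right _ _) hx) hs.1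
      (hg.posDef x hx0).det_pos (fun i j => ⟨(hd1 x hx1 i j).1, (hd1 x hx1 i j).2.2.2.1⟩)
  have hpd : ∀ x : E3, 1 ≤ ‖x‖ → ∀ i j k, |pd k (fun y => g y i j) x| ≤ C / ‖x‖ ^ 2 :=
    fun x hx i j k => (hd1 x hx i j).2.1 k
  set σ := ((volume : Measure E3).toSphere).real Set.univ with hσ
  set J := ∫ x in {x : E3 | 1 ≤ ‖x‖}, 1 / ‖x‖ ^ 4 with hJ
  refine ⟨(∫ x in cAnn 1 r₁, jlen g h x) + (36 * C * σ + (C' + 700 * C ^ 2) * J), ?_⟩
  intro R hR
  -- the outer part
  have hout : ∀ b : ℝ, r₁ ≤ b → ∫ x in cAnn r₁ b, jlen g h x ≤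
      36 * C * σ + (C' + 700 * C ^ 2) * J := by
    intro b hb
    have hr₁0 : 0 < r₁ := by linarith
    have hsub : cAnn r₁ b ⊆ {x : E3 | 1 ≤ ‖x‖} := fun x hx => le_trans hr₁1 hx.1
    have h4 : IntegrableOn (fun x : E3 => 1 / ‖x‖ ^ 4) (cAnn r₁ b) := int_inv4.mono_set hsub
    have h1 : ∫ x in cAnn r₁ b, jlen g h x ≤
        ∫ x in cAnn r₁ b, (linR g x + (C' + 700 * C ^ 2) * (1 / ‖x‖ ^ 4)) :=
      setIntegral_mono_on (hjint r₁ b hr₁0) ((hlint r₁ b hr₁0).add (h4.const_mul _))
        (isClosed_cAnn r₁ b).measurableSet fun x hx => hpt x hx.1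
    have h2 : ∫ x in cAnn r₁ b, (linR g x + (C' + 700 * C ^ 2) * (1 / ‖x‖ ^ 4)) =
        (∫ x in cAnn r₁ b, linR g x) + (C' + 700 * C ^ 2) * ∫ x in cAnn r₁ b, 1 / ‖x‖ ^ 4 := by
      rw [integral_add (hlint r₁ b hr₁0) (h4.const_mul _), integral_const_mul]
    have h3 : ∫ x in cAnn r₁ b, 1 / ‖x‖ ^ 4 ≤ J :=
      setIntegral_mono_set int_inv4 (Eventually.of_forall fun x => by positivity)
        (LE.le.eventuallyLE hsub)
    have h5 : ∫ x in cAnn r₁ b, linR g x =
        ∫ x in cAnn r₁ b, ∑ i, pd i (fun y => MDIVA.VV g y i) x := by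
      refine setIntegral_congr_fun (isClosed_cAnn r₁ b).measurableSet fun x hx => ?_
      exact (MDIVA.div_VV fun i j => MCF.g_smooth hU hg (cAnn_ne hr₁0 hx) i j).symm
    have h6 := hDIVG (MDIVA.VV g) r₁ b hr₁0 hb
      (fun x hx i => MDIVA.contDiffAt_VV
        (fun i j => MCF.g_smooth hU hg (cAnn_ne hr₁0 hx) i j) i)
    have h7 := abs_le.1 (bdry hpd (le_trans hr₁1 hb))
    have h8 := abs_le.1 (bdry hpd hr₁1)
    have h9 : ∫ x in cAnn r₁ b, linR g x ≤ 36 * C * σ := by
      rw [h5, h6]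
      linarith [h7.2, h8.1]
    have h10 : (C' + 700 * C ^ 2) * (∫ x in cAnn r₁ b, 1 / ‖x‖ ^ 4) ≤ (C' + 700 * C ^ 2) * J :=
      mul_le_mul_of_nonneg_left h3 (by positivity)
    rw [h2] at h1
    linarith
  have hout0 : 0 ≤ 36 * C * σ + (C' + 700 * C ^ 2) * J :=
    le_trans (integral_nonneg fun x => jlen_nonneg g h x) (hout r₁ le_rfl)
  have hsplit := integral_inter_add_sdiff (μ := volume) (f := jlen g h) (s := cAnn 1 R)
    (isClosed_cAnn 1 r₁).measurableSet (hjint 1 R one_pos)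
  rw [← hsplit]
  refine add_le_add ?_ ?_
  · exact setIntegral_mono_set (hjint 1 r₁ one_pos)
      (Eventually.of_forall fun x => jlen_nonneg g h x)
      (LE.le.eventuallyLE Set.inter_subset_right)
  · by_cases hRr : r₁ ≤ R
    · refine le_trans ?_ (hout R hRr)
      refine setIntegral_mono_set (hjint r₁ R (by linarith))
        (Eventually.of_forall fun x => jlen_nonneg g h x)
        (LE.le.eventuallyLE fun x hx => ?_)
      refine ⟨?_, hx.1.2⟩
      by_contra hc
      exact hx.2 ⟨hx.1.1, (not_le.1 hc).le⟩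
    · have hempty : cAnn 1 R \ cAnn 1 r₁ = ∅ := by
        ext x
        constructor
        · rintro ⟨h1, h2⟩
          exact h2 ⟨h1.1, le_trans h1.2 (not_le.1 hRr).le⟩
        · intro hx
          exact absurd hx (Set.notMem_empty x)
      rw [hempty, setIntegral_empty]
      exact hout0

end Pool.Agent.PFlow


end
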