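import Mathlib
import Pool.Agent.PFlow.StmtsE2
import Pool.Agent.PFlow.StmtsM
import Pool.Agent.PenroseM.C03
import Pool.Agent.PenroseM.C05
import Pool.Agent.PenroseM.C12

/-! Parts: PFlow.G.SMO, PFlow.G.RUL, PFlow.G.IBP, PFlow.G.GBX, PFlow.M_SD, PFlow.E.BARA, PFlow.E.HSYM, PFlow.E.PHI -/

section

/-!
# Block GB: smoothness of the leafwise objects (SMO)
-/

open MeasureTheory Filter Topology
open scoped ContDiff

namespace Pool.Agent.PFlow.GB

open Pool.Agent.PenroseSph Pool.Agent.PFlow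

namespace MSMO

variable {g : TensorField} {W : E3 → ℝ} {x : E3} {n m : WithTop ℕ∞}

theorem c_pd {f : E3 → ℝ} (hf : ContDiffAt ℝ m f x) (h : n + 1 ≤ m) (i : Fin 3) :
    ContDiffAt ℝ n (pd i f) x := by
  have h1 : ContDiffAt ℝ n (fderiv ℝ f) x := hf.fderiv_right h
  exact h1.clm_apply contDiffAt_const

theorem c_det {T : TensorField} (hg : ∀ i j, ContDiffAt ℝ n (fun y => T y i j) x) :
    ContDiffAt ℝ n (fun y => (T y).det) x := by
  have : (fun y => (T y).det) = fun y => T y 0 0 * T y 1 1 * T y 2 2 -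
      T y 0 0 * T y 1 2 * T y 2 1 - T y 0 1 * T y 1 0 * T y 2 2 + T y 0 1 * T y 1 2 * T y 2 0 +
      T y 0 2 * T y 1 0 * T y 2 1 - T y 0 2 * T y 1 1 * T y 2 0 := by
    funext y
    exact Matrix.det_fin_three (T y)
  rw [this]
  exact (((((((hg 0 0).mul (hg 1 1)).mul (hg 2 2)).sub (((hg 0 0).mul (hg 1 2)).mul (hg 2 1))).sub
    (((hg 0 1).mul (hg 1 0)).mul (hg 2 2))).add (((hg 0 1).mul (hg 1 2)).mul (hg 2 0))).add
    (((hg 0 2).mul (hg 1 0)).mul (hg 2 1))).sub (((hg 0 2).mul (hg 1 1)).mul (hg 2 0))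

theorem c_inv {T : TensorField} (hg : ∀ i j, ContDiffAt ℝ n (fun y => T y i j) x)
    (hx : (T x).det ≠ 0) (i j : Fin 3) : ContDiffAt ℝ n (fun y => (T y)⁻¹ i j) x := by
  have h1 : (fun y => (T y)⁻¹ i j) = fun y => ((T y).det)⁻¹ * (T y).adjugate i j := by
    funext y
    rw [Matrix.inv_def, Matrix.smul_apply, smul_eq_mul, Ring.inverse_eq_inv']
  rw [h1]
  refine ((c_det hg).inv hx).mul ?_
  have h2 : (fun y => (T y).adjugate i j) = fun y => ((T y).updateRow j (Pi.single i 1)).det := by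
    funext y
    rw [Matrix.adjugate_apply]
  rw [h2]
  refine c_det fun k l => ?_
  by_cases hk : k = j
  · subst hk
    simp only [Matrix.updateRow_self]
    exact contDiffAt_const
  · have : (fun y => ((T y).updateRow j (Pi.single i 1)) k l) = fun y => T y k l := by
      funext y
      rw [Matrix.updateRow_ne hk]
    rw [this]
    exact hg k l

/-- The data at the point. -/
structure Dat (g : TensorField) (W : E3 → ℝ) (x : E3) : Prop where
  hg : ∀ i j, ContDiffAt ℝ ∞ (fun y => g y i j) x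
  w : ContDiffAt ℝ ∞ W x
  det : 0 < (g x).det
  len : 0 < Pool.Agent.PFlow.len g x (grad W x)

theorem inf_le : (∞ : WithTop ℕ∞) + 1 ≤ ∞ := by simp

theorem Dat.inv (h : Dat g W x) (i j : Fin 3) : ContDiffAt ℝ ∞ (fun y => (g y)⁻¹ i j) x :=
  c_inv h.hg h.det.ne' i j

theorem Dat.gw (h : Dat g W x) (i : Fin 3) : ContDiffAt ℝ ∞ (fun y => grad W y i) x :=
  c_pd h.w inf_le i

theorem c_sum {ι : Type} [Fintype ι] {F : ι → E3 → ℝ} (h : ∀ i, ContDiffAt ℝ n (F i) x) :
    ContDiffAt ℝ n (fun y => ∑ i, F i y) x :=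
  ContDiffAt.sum fun i _ => h i

/-- `ev` of smooth data -/
theorem c_ev {B : E3 → Bil} {v w : E3 → Cov} (hB : ∀ i j, ContDiffAt ℝ n (fun y => B y i j) x)
    (hv : ∀ i, ContDiffAt ℝ n (fun y => v y i) x) (hw : ∀ i, ContDiffAt ℝ n (fun y => w y i) x) :
    ContDiffAt ℝ n (fun y => ev (B y) (v y) (w y)) x := by
  unfold ev
  exact c_sum fun i => c_sum fun j => ((hB i j).mul (hv i)).mul (hw j)

theorem Dat.le (h : Dat g W x) : ContDiffAt ℝ ∞ (fun y => Pool.Agent.PFlow.len g y (grad W y)) x := by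
  have h0 := h.len
  unfold Pool.Agent.PFlow.len at h0 ⊢
  exact (c_ev h.inv h.gw h.gw).sqrt (Real.sqrt_pos.mp h0).ne'

theorem Dat.raise (h : Dat g W x) (i : Fin 3) :
    ContDiffAt ℝ ∞ (fun y => raise g y (grad W y) i) x := by
  unfold Pool.Agent.PFlow.raise
  exact c_sum fun j => (h.inv i j).mul (h.gw j)

theorem Dat.nrm (h : Dat g W x) (i : Fin 3) :
    ContDiffAt ℝ ∞ (fun y => nrm g y (grad W y) i) x := by
  unfold Pool.Agent.PFlow.nrm
  exact (h.raise i).div h.le h.len.ne'

theorem Dat.prj (h : Dat g W x) (i j : Fin 3) :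
    ContDiffAt ℝ ∞ (fun y => prj g y (grad W y) i j) x := by
  unfold Pool.Agent.PFlow.GB.prj
  exact (h.inv i j).sub ((h.nrm i).mul (h.nrm j))

theorem Dat.vol (h : Dat g W x) : ContDiffAt ℝ ∞ (volDen g) x := by
  unfold volDen
  exact (c_det h.hg).sqrt h.det.ne'

theorem Dat.dens (h : Dat g W x) : ContDiffAt ℝ ∞ (dens g W) x := by
  unfold Pool.Agent.PFlow.dens
  exact h.le.mul h.vol

theorem Dat.vpos (h : Dat g W x) : 0 < volDen g x := Real.sqrt_pos.mpr h.det

theorem Dat.dpos (h : Dat g W x) : 0 < Pool.Agent.PFlow.dens g W x := mul_pos h.len h.vpos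

theorem Dat.chr (h : Dat g W x) (k i j : Fin 3) : ContDiffAt ℝ ∞ (christoffel g k i j) x := by
  unfold christoffel
  refine contDiffAt_const.mul (c_sum fun l => (h.inv k l).mul ?_)
  exact ((c_pd (h.hg j l) inf_le i).add (c_pd (h.hg i l) inf_le j)).sub (c_pd (h.hg i j) inf_le l)

theorem Dat.ricci (h : Dat g W x) (i j : Fin 3) : ContDiffAt ℝ ∞ (ricci g i j) x := by
  unfold Pool.Agent.PenroseSph.ricci
  refine c_sum fun k => ?_
  refine ((c_pd (h.chr k i j) inf_le k).sub (c_pd (h.chr k i k) inf_le j)).add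
    (c_sum fun l => ?_)
  exact ((h.chr k k l).mul (h.chr l i j)).sub ((h.chr k j l).mul (h.chr l i k))

theorem Dat.scal (h : Dat g W x) : ContDiffAt ℝ ∞ (scalarCurvature g) x := by
  unfold scalarCurvature
  exact c_sum fun i => c_sum fun j => (h.inv i j).mul (h.ricci i j)

theorem Dat.chess (h : Dat g W x) (i j : Fin 3) :
    ContDiffAt ℝ ∞ (fun y => cHess g y (grad W y) (hess2 W y) i j) x := by
  unfold cHess hess2
  simp only [Matrix.of_apply]
  exact (c_pd (c_pd h.w inf_le j) inf_le i).sub (c_sum fun k => (h.chr k i j).mul (h.gw k))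

theorem Dat.curv (h : Dat g W x) : ContDiffAt ℝ ∞ (curv g W) x := by
  unfold Pool.Agent.PFlow.curv gaussK
  have hr : ∀ i j, ContDiffAt ℝ ∞ (fun y => ric g y i j) x := fun i j => h.ricci i j
  have hb1 : ContDiffAt ℝ ∞ (fun y => bnn g y (grad W y) (ric g y)) x := by
    unfold bnn
    exact c_ev hr h.nrm h.nrm
  have hb2 : ContDiffAt ℝ ∞ (fun y => bnn g y (grad W y) (cHess g y (grad W y) (hess2 W y))) x := by
    unfold bnn
    exact c_ev h.chess h.nrm h.nrm
  have ht : ContDiffAt ℝ ∞ (fun y => trg g y (cHess g y (grad W y) (hess2 W y))) x := by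
    unfold trg
    exact c_sum fun i => c_sum fun j => (h.inv i j).mul (h.chess i j)
  have hn : ContDiffAt ℝ ∞ (fun y => nsq g y (cHess g y (grad W y) (hess2 W y))) x := by
    unfold nsq
    exact c_sum fun i => c_sum fun j => c_sum fun k => c_sum fun l =>
      (((h.inv i k).mul (h.inv j l)).mul (h.chess i j)).mul (h.chess k l)
  have hc : ∀ i, ContDiffAt ℝ ∞
      (fun y => contr (cHess g y (grad W y) (hess2 W y)) (Pool.Agent.PFlow.nrm g y (grad W y)) i)
      x := by
    intro i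
    unfold contr
    exact c_sum fun j => (h.chess i j).mul (h.nrm j)
  have hl2 : ContDiffAt ℝ ∞ (fun y => 2 * Pool.Agent.PFlow.len g y (grad W y) ^ 2) x :=
    contDiffAt_const.mul (h.le.pow 2)
  have hl3 : 2 * Pool.Agent.PFlow.len g x (grad W x) ^ 2 ≠ 0 := by
    have := h.len
    exact (by positivity : (0 : ℝ) < 2 * Pool.Agent.PFlow.len g x (grad W x) ^ 2).ne'
  refine ((h.scal.div_const 2).sub hb1).add (ContDiffAt.div ?_ hl2 hl3)
  exact (((ht.pow 2).sub hn).sub ((contDiffAt_const.mul hb2).mul ht)).add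
    (contDiffAt_const.mul (c_ev h.inv hc hc))

theorem Dat.lin (h : Dat g W x) (hn : n ≤ ∞) (hm : n + 1 ≤ m) {f k : E3 → ℝ}
    (hf : ContDiffAt ℝ m f x) (hk : ContDiffAt ℝ m k x) :
    ContDiffAt ℝ n (lin g W f k) x := by
  unfold Pool.Agent.PFlow.lin lip
  have h1 : ∀ i, ContDiffAt ℝ n (fun y => grad f y i) x := fun i => c_pd hf hm i
  have h2 : ∀ i, ContDiffAt ℝ n (fun y => grad k y i) x := fun i => c_pd hk hm i
  have h3 : ∀ i, ContDiffAt ℝ n (fun y => Pool.Agent.PFlow.nrm g y (grad W y) i) x :=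
    fun i => (h.nrm i).of_le hn
  exact (c_ev (fun i j => (h.inv i j).of_le hn) h1 h2).sub
    ((c_sum fun i => (h1 i).mul (h3 i)).mul (c_sum fun i => (h2 i).mul (h3 i)))

theorem Dat.lgrad (h : Dat g W x) (hn : n ≤ ∞) (hm : n + 1 ≤ m) {f : E3 → ℝ}
    (hf : ContDiffAt ℝ m f x) (i : Fin 3) :
    ContDiffAt ℝ n (fun y => lgrad g W f y i) x := by
  unfold Pool.Agent.PFlow.lgrad Pool.Agent.PFlow.raise
  have h1 : ∀ i, ContDiffAt ℝ n (fun y => grad f y i) x := fun i => c_pd hf hm i
  have h3 : ∀ i, ContDiffAt ℝ n (fun y => Pool.Agent.PFlow.nrm g y (grad W y) i) x :=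
    fun i => (h.nrm i).of_le hn
  exact (c_sum fun j => ((h.inv i j).of_le hn).mul (h1 j)).sub
    ((h3 i).mul (c_sum fun j => (h1 j).mul (h3 j)))

theorem Dat.lap (h : Dat g W x) {k : WithTop ℕ∞} (hk : k ≤ ∞) (hn : n + 1 ≤ k) (hm : k + 1 ≤ m)
    {f : E3 → ℝ} (hf : ContDiffAt ℝ m f x) : ContDiffAt ℝ n (lap g W f) x := by
  unfold Pool.Agent.PFlow.lap ldiv
  have hnk : n ≤ k := le_self_add.trans hn
  refine ContDiffAt.div ?_ (h.dens.of_le (hnk.trans hk)) h.dpos.ne'
  refine c_sum fun i => c_pd (m := k) ?_ hn i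
  exact (h.dens.of_le hk).mul (h.lgrad hk hm hf i)

end MSMO

/-- (SMO) Smoothness of the leafwise objects. -/
theorem SMO (hALG : Stmt_ALG) : Stmt_SMO := by
  refine ⟨fun V a b g W hF x hx => hF.reg hx, ?_⟩
  intro g W x hR
  obtain ⟨O, hO, hx, hM, hW, hg⟩ := hR
  have hpd := hM.posDef x hx
  have hd : MSMO.Dat g W x :=
    { hg := fun i j => (hM.smooth i j x hx).contDiffAt (hO.mem_nhds hx)
      w := (hW x hx).contDiffAt (hO.mem_nhds hx)
      det := hpd.det_pos
      len := (hALG g x (grad W x) hpd (hg x hx)).1 }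
  refine ⟨?_, hd.len, hd.vpos, hd.dpos, hd.hg, hd.inv, hd.le, hd.vol, hd.dens, hd.nrm, hd.prj,
    hd.curv, ?_, ?_, ?_⟩
  · filter_upwards [hO.mem_nhds hx] with y hy
    exact ⟨O, hO, hy, hM, hW, hg⟩
  · intro f h hf hh
    exact ⟨hd.lin le_rfl MSMO.inf_le hf hh, hd.lap le_rfl MSMO.inf_le MSMO.inf_le hf,
      fun i => hd.lgrad le_rfl MSMO.inf_le hf i⟩
  · intro n f h hf hh
    have h1 : ((n : ℕ) : WithTop ℕ∞) ≤ ∞ := by
      exact_mod_cast le_top
    have h2 : ((n : ℕ) : WithTop ℕ∞) + 1 ≤ ((n + 1 : ℕ) : WithTop ℕ∞) := by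
      push_cast
      exact le_rfl
    exact ⟨hd.lin h1 h2 hf hh, fun i => hd.lgrad h1 h2 hf i⟩
  · intro n f hf
    have h1 : ((n + 1 : ℕ) : WithTop ℕ∞) ≤ ∞ := by
      exact_mod_cast le_top
    have h2 : ((n : ℕ) : WithTop ℕ∞) + 1 ≤ ((n + 1 : ℕ) : WithTop ℕ∞) := by
      push_cast
      exact le_rfl
    have h3 : ((n + 1 : ℕ) : WithTop ℕ∞) + 1 ≤ ((n + 2 : ℕ) : WithTop ℕ∞) := by
      push_cast
      rw [add_assoc]
      norm_num
    exact hd.lap h1 h2 h3 hf

end Pool.Agent.PFlow.GB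


end

section

/-!
# Module RUL: product and chain rules of the leafwise calculus
-/

open MeasureTheory Filter Topology
open scoped ContDiff

namespace Pool.Agent.PFlow.GB

open Pool.Agent.PenroseSph Pool.Agent.PFlow

namespace RUL

variable {g : TensorField} {W f h k : E3 → ℝ} {x : E3}

/-! ## Gradients -/

lemma grad_add (hf : DifferentiableAt ℝ f x) (hh : DifferentiableAt ℝ h x) :
    grad (fun y => f y + h y) x = fun i => grad f x i + grad h x i := by
  funext i
  exact pd_add hf hh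

lemma grad_mul (hf : DifferentiableAt ℝ f x) (hh : DifferentiableAt ℝ h x) :
    grad (fun y => f y * h y) x = fun i => f x * grad h x i + h x * grad f x i := by
  funext i
  exact pd_mul hf hh

lemma grad_comp {F : ℝ → ℝ} (hf : DifferentiableAt ℝ f x) (hF : DifferentiableAt ℝ F (f x)) :
    grad (fun y => F (f y)) x = fun i => deriv F (f x) * grad f x i := by
  funext i
  have h1 : HasFDerivAt (fun y => F (f y)) (deriv F (f x) • fderiv ℝ f x) x :=
    hF.hasDerivAt.comp_hasFDerivAt x hf.hasFDerivAt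
  simp only [grad, pd, h1.fderiv]
  rfl

/-! ## Linear algebra -/

lemma lgrad_eq (g : TensorField) (W f : E3 → ℝ) (x : E3) (i : Fin 3) :
    lgrad g W f x i = ∑ j, prj g x (grad W x) i j * grad f x j := by
  simp only [lgrad, raise, prj, Finset.mul_sum, sub_mul, Finset.sum_sub_distrib]
  congr 1
  refine Finset.sum_congr rfl fun j _ => ?_
  ring

lemma lip_eq (g : TensorField) (x : E3) (p A B : Cov) :
    lip g x p A B = ∑ i, ∑ j, prj g x p i j * A i * B j := by
  simp only [lip, ev, prj, Finset.sum_mul_sum, sub_mul, Finset.sum_sub_distrib]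
  congr 1
  refine Finset.sum_congr rfl fun i _ => Finset.sum_congr rfl fun j _ => ?_
  ring

lemma lip_add (g : TensorField) (x : E3) (p A A' B : Cov) :
    lip g x p (fun i => A i + A' i) B = lip g x p A B + lip g x p A' B := by
  simp only [lip_eq, ← Finset.sum_add_distrib]
  refine Finset.sum_congr rfl fun i _ => Finset.sum_congr rfl fun j _ => ?_
  ring

lemma lip_smul (g : TensorField) (x : E3) (p : Cov) (c : ℝ) (A B : Cov) :
    lip g x p (fun i => c * A i) B = c * lip g x p A B := by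
  simp only [lip_eq, Finset.mul_sum]
  refine Finset.sum_congr rfl fun i _ => Finset.sum_congr rfl fun j _ => ?_
  ring

/-! ## Divergences -/

lemma ldiv_congr {Y Z : E3 → Cov} (hYZ : ∀ i, (fun y => Y y i) =ᶠ[𝓝 x] (fun y => Z y i)) :
    ldiv g W Y x = ldiv g W Z x := by
  simp only [ldiv]
  congr 1
  refine Finset.sum_congr rfl fun i _ => ?_
  refine pd_congr ?_
  filter_upwards [hYZ i] with y hy
  rw [hy]

lemma ldiv_add {Y Z : E3 → Cov} (hd : DifferentiableAt ℝ (dens g W) x)
    (hY : ∀ i, DifferentiableAt ℝ (fun y => Y y i) x)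
    (hZ : ∀ i, DifferentiableAt ℝ (fun y => Z y i) x) :
    ldiv g W (fun y i => Y y i + Z y i) x = ldiv g W Y x + ldiv g W Z x := by
  simp only [ldiv]
  rw [← add_div, ← Finset.sum_add_distrib]
  congr 1
  refine Finset.sum_congr rfl fun i _ => ?_
  rw [← pd_add (hd.fun_mul (hY i)) (hd.fun_mul (hZ i))]
  congr 1
  funext y
  ring

lemma ldiv_mul {Y : E3 → Cov} (hd : DifferentiableAt ℝ (dens g W) x) (hd0 : dens g W x ≠ 0)
    (hf : DifferentiableAt ℝ f x) (hY : ∀ i, DifferentiableAt ℝ (fun y => Y y i) x) :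
    ldiv g W (fun y i => f y * Y y i) x = f x * ldiv g W Y x + ∑ i, Y x i * grad f x i := by
  have h1 : ∀ i, pd i (fun y => dens g W y * (f y * Y y i)) x
      = f x * pd i (fun y => dens g W y * Y y i) x + dens g W x * (Y x i * grad f x i) := by
    intro i
    have h2 : (fun y => dens g W y * (f y * Y y i)) = fun y => f y * (dens g W y * Y y i) := by
      funext y
      ring
    rw [h2, pd_mul hf (hd.fun_mul (hY i))]
    simp only [grad]
    ring
  simp only [ldiv]
  rw [Finset.sum_congr rfl (fun i _ => h1 i), Finset.sum_add_distrib, ← Finset.mul_sum,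
    ← Finset.mul_sum, add_div, mul_div_assoc, mul_div_cancel_left₀ _ hd0]

end RUL

open RUL in
/-- **(RUL)** The rules of the leafwise calculus. -/
theorem RUL (hALG : Stmt_ALG) (hSMO : Stmt_SMO) : Stmt_RUL := by
  intro g W x hx
  -- data at the points near `x`
  have hnz : ∀ {y : E3}, Reg g W y → (g y).PosDef ∧ grad W y ≠ 0 ∧ ContDiffAt ℝ ∞ W y := by
    rintro y ⟨O, hO, hy, hm, hW, hg⟩
    exact ⟨hm.posDef y hy, hg y hy, (hW y hy).contDiffAt (hO.mem_nhds hy)⟩
  obtain ⟨hP, hW0, hWs⟩ := hnz hx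
  obtain ⟨-, -, -, -, hsym, hker, -, -, -, hlsym, -, hlnn, hlcs, -, -⟩ :=
    hALG g x (grad W x) hP hW0
  obtain ⟨hev, -, -, hd0, -, -, -, -, hds, -, -, -, -, hn1, -⟩ := hSMO.2 g W x hx
  have hd : DifferentiableAt ℝ (dens g W) x := hds.differentiableAt (by simp)
  have hd0' : dens g W x ≠ 0 := hd0.ne'
  have hlg : ∀ {f : E3 → ℝ}, ContDiffAt ℝ 2 f x →
      ∀ i, DifferentiableAt ℝ (fun y => lgrad g W f y i) x := by
    intro f hf i
    exact ((hn1 1 f f (by exact_mod_cast hf) (by exact_mod_cast hf)).2 i).differentiableAt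
      (by simp)
  have hker0 : ∀ {y : E3}, Reg g W y → ∀ i, ∑ j, prj g y (grad W y) i j * grad W y j = 0 := by
    intro y hy i
    obtain ⟨h1, h2, -⟩ := hnz hy
    exact (hALG g y (grad W y) h1 h2).2.2.2.2.2.1 i
  -- (1)
  have r1 : ∀ f : E3 → ℝ, ∑ i, lgrad g W f x i * grad W x i = 0 := by
    intro f
    have h1 : ∀ i, lgrad g W f x i * grad W x i
        = ∑ j, grad f x j * (prj g x (grad W x) j i * grad W x i) := by
      intro i
      rw [lgrad_eq, Finset.sum_mul]
      refine Finset.sum_congr rfl fun j _ => ?_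
      rw [hsym i j]
      ring
    rw [Finset.sum_congr rfl (fun i _ => h1 i), Finset.sum_comm]
    refine Finset.sum_eq_zero fun j _ => ?_
    rw [← Finset.mul_sum, hker j, mul_zero]
  -- (2)
  have r2 : ∀ f h : E3 → ℝ, ∑ i, lgrad g W f x i * grad h x i = lin g W f h x := by
    intro f h
    rw [lin, hlsym, lip_eq]
    refine Finset.sum_congr rfl fun i _ => ?_
    rw [lgrad_eq, Finset.sum_mul]
    refine Finset.sum_congr rfl fun j _ => ?_
    ring
  have r5 : ∀ (f : E3 → ℝ) (i : Fin 3),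
      lgrad g W f x i = ∑ j, prj g x (grad W x) i j * pd j f x := fun f i => lgrad_eq g W f x i
  -- (12)
  have r12 : ∀ (f : E3 → ℝ) (Y : E3 → Cov), DifferentiableAt ℝ f x →
      (∀ i, DifferentiableAt ℝ (fun y => Y y i) x) →
      ldiv g W (fun y i => f y * Y y i) x = f x * ldiv g W Y x + ∑ i, Y x i * grad f x i :=
    fun f Y hf hY => ldiv_mul hd hd0' hf hY
  have hdiff : ∀ {f : E3 → ℝ}, ContDiffAt ℝ 2 f x → ∀ᶠ y in 𝓝 x, DifferentiableAt ℝ f y := by
    intro f hf
    filter_upwards [hf.eventually (by simp)] with y hy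
    exact hy.differentiableAt (by simp)
  -- (7)
  have r7 : ∀ f h k : E3 → ℝ, DifferentiableAt ℝ f x → DifferentiableAt ℝ h x →
      DifferentiableAt ℝ k x →
      lin g W (fun y => f y + h y) k x = lin g W f k x + lin g W h k x ∧
      lin g W (fun y => f y * h y) k x = f x * lin g W h k x + h x * lin g W f k x := by
    intro f h k hf hh _
    refine ⟨?_, ?_⟩
    · rw [lin, grad_add hf hh, lip_add]
      rfl
    · rw [lin, grad_mul hf hh, lip_add, lip_smul, lip_smul]
      rfl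
  -- (8)
  have r8 : ∀ (f k : E3 → ℝ) (F : ℝ → ℝ), DifferentiableAt ℝ f x →
      DifferentiableAt ℝ F (f x) →
      lin g W (fun y => F (f y)) k x = deriv F (f x) * lin g W f k x := by
    intro f k F hf hF
    rw [lin, grad_comp hf hF, lip_smul]
    rfl
  have hWd : DifferentiableAt ℝ W x := hWs.differentiableAt (by simp)
  refine ⟨r1, r2, ?_, ?_, r5, ?_, r7, r8, ?_, ?_, ?_, r12⟩
  · -- (3)
    intro f h
    exact ⟨hlsym _ _, hlnn _, hlcs _ _⟩
  · -- (4)
    intro f h hf hh
    have h1 : lin g W (fun y => f y + h y) (fun y => f y + h y) x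
        = lin g W f f x + 2 * lin g W f h x + lin g W h h x := by
      rw [lin, grad_add hf hh, lip_add, hlsym (grad f x), hlsym (grad h x), lip_add, lip_add,
        hlsym (grad h x) (grad f x)]
      simp only [lin]
      ring
    rw [h1]
    have h2 : 0 ≤ lin g W f f x := hlnn _
    have h3 : 0 ≤ lin g W h h x := hlnn _
    have h4 : lin g W f h x ^ 2 ≤ lin g W f f x * lin g W h h x := hlcs _ _
    have h5 : lin g W f h x ≤ Real.sqrt (lin g W f f x) * Real.sqrt (lin g W h h x) := by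
      rw [← Real.sqrt_mul h2]
      exact Real.le_sqrt_of_sq_le h4
    rw [Real.sqrt_le_left (by positivity)]
    nlinarith [Real.sq_sqrt h2, Real.sq_sqrt h3]
  · -- (6)
    intro f h hf hh
    refine ⟨?_, ?_⟩
    · have h1 : lap g W (fun y => f y + h y) x
          = ldiv g W (fun y i => lgrad g W f y i + lgrad g W h y i) x := by
        refine ldiv_congr fun i => ?_
        filter_upwards [hdiff hf, hdiff hh] with y hy1 hy2
        rw [lgrad_eq, lgrad_eq, lgrad_eq, grad_add hy1 hy2, ← Finset.sum_add_distrib]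
        refine Finset.sum_congr rfl fun j _ => ?_
        ring
      rw [h1, ldiv_add hd (hlg hf) (hlg hh)]
      rfl
    · have h1 : lap g W (fun y => f y * h y) x
          = ldiv g W (fun y i => f y * lgrad g W h y i + h y * lgrad g W f y i) x := by
        refine ldiv_congr fun i => ?_
        filter_upwards [hdiff hf, hdiff hh] with y hy1 hy2
        rw [lgrad_eq, lgrad_eq, lgrad_eq, grad_mul hy1 hy2, Finset.mul_sum, Finset.mul_sum,
          ← Finset.sum_add_distrib]
        refine Finset.sum_congr rfl fun j _ => ?_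
        ring
      have hfd : DifferentiableAt ℝ f x := (hdiff hf).self_of_nhds
      have hhd : DifferentiableAt ℝ h x := (hdiff hh).self_of_nhds
      rw [h1, ldiv_add hd (fun i => hfd.fun_mul (hlg hh i)) (fun i => hhd.fun_mul (hlg hf i)),
        r12 f _ hfd (hlg hh), r12 h _ hhd (hlg hf), r2, r2]
      have h2 : lin g W h f x = lin g W f h x := hlsym _ _
      rw [h2]
      simp only [lap]
      ring
  · -- (9)
    intro f F hf hF
    have hfd : DifferentiableAt ℝ f x := (hdiff hf).self_of_nhds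
    have hFev : ∀ᶠ y in 𝓝 x, DifferentiableAt ℝ F (f y) := by
      have h1 : ∀ᶠ s in 𝓝 (f x), DifferentiableAt ℝ F s := by
        filter_upwards [hF.eventually (by simp)] with s hs
        exact hs.differentiableAt (by simp)
      exact hfd.continuousAt.eventually h1
    have hF' : DifferentiableAt ℝ (deriv F) (f x) := by
      have h1 : ContDiffAt ℝ 1 (fderiv ℝ F) (f x) := hF.fderiv_right (by norm_num)
      have h2 : DifferentiableAt ℝ (fun s => fderiv ℝ F s 1) (f x) :=
        (h1.differentiableAt (by simp)).clm_apply (differentiableAt_const _)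
      exact h2
    have h1 : lap g W (fun y => F (f y)) x
        = ldiv g W (fun y i => (fun z => deriv F (f z)) y * lgrad g W f y i) x := by
      refine ldiv_congr fun i => ?_
      filter_upwards [hdiff hf, hFev] with y hy1 hy2
      rw [lgrad_eq, lgrad_eq, grad_comp hy1 hy2, Finset.mul_sum]
      refine Finset.sum_congr rfl fun j _ => ?_
      ring
    have h2 : DifferentiableAt ℝ (fun z => deriv F (f z)) x :=
      DifferentiableAt.fun_comp' x hF' hfd
    rw [h1, r12 _ _ h2 (hlg hf), grad_comp (F := deriv F) hfd hF']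
    have h3 : ∑ i, lgrad g W f x i * (deriv (deriv F) (f x) * grad f x i)
        = deriv (deriv F) (f x) * lin g W f f x := by
      rw [← r2, Finset.mul_sum]
      refine Finset.sum_congr rfl fun i _ => ?_
      ring
    rw [h3]
    rfl
  · -- (10)
    intro k F hF
    rw [r8 W k F hWd hF]
    have h1 : lin g W W k x = 0 := by
      rw [lin, lip_eq]
      rw [Finset.sum_comm]
      refine Finset.sum_eq_zero fun j _ => ?_
      rw [← Finset.sum_mul]
      have h2 : ∑ i, prj g x (grad W x) i j * grad W x i = 0 := by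
        rw [← hker j]
        exact Finset.sum_congr rfl fun i _ => by rw [hsym i j]
      rw [h2, zero_mul]
    rw [h1, mul_zero]
  · -- (11)
    intro f F hf hF
    have hFev : ∀ᶠ y in 𝓝 x, DifferentiableAt ℝ F (W y) := by
      have h1 : ∀ᶠ s in 𝓝 (W x), DifferentiableAt ℝ F s := by
        filter_upwards [hF.eventually (by simp)] with s hs
        exact hs.differentiableAt (by simp)
      exact hWd.continuousAt.eventually h1
    have h1 : lap g W (fun y => F (W y) * f y) x
        = ldiv g W (fun y i => (fun z => F (W z)) y * lgrad g W f y i) x := by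
      refine ldiv_congr fun i => ?_
      filter_upwards [hdiff hf, hFev, hev] with y hy1 hy2 hy3
      have hWy : DifferentiableAt ℝ W y := (hnz hy3).2.2.differentiableAt (by simp)
      have hFW : DifferentiableAt ℝ (fun z => F (W z)) y :=
        DifferentiableAt.fun_comp' y hy2 hWy
      rw [lgrad_eq, lgrad_eq, grad_mul hFW hy1, grad_comp hWy hy2]
      have h2 : ∀ j, prj g y (grad W y) i j * (F (W y) * grad f y j
          + f y * (deriv F (W y) * grad W y j))
          = F (W y) * (prj g y (grad W y) i j * grad f y j)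
            + f y * deriv F (W y) * (prj g y (grad W y) i j * grad W y j) := fun j => by ring
      rw [Finset.sum_congr rfl (fun j _ => h2 j), Finset.sum_add_distrib, ← Finset.mul_sum,
        ← Finset.mul_sum, hker0 hy3 i, mul_zero, add_zero]
    have hFx : DifferentiableAt ℝ F (W x) := hFev.self_of_nhds
    have h2 : DifferentiableAt ℝ (fun z => F (W z)) x :=
      DifferentiableAt.fun_comp' x hFx hWd
    rw [h1, r12 _ _ h2 (hlg hf), grad_comp hWd hFx]
    have h3 : ∑ i, lgrad g W f x i * (deriv F (W x) * grad W x i) = 0 := by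
      have h4 : ∀ i, lgrad g W f x i * (deriv F (W x) * grad W x i)
          = deriv F (W x) * (lgrad g W f x i * grad W x i) := fun i => by ring
      rw [Finset.sum_congr rfl (fun i _ => h4 i), ← Finset.mul_sum, r1, mul_zero]
    rw [h3, add_zero]
    rfl

end Pool.Agent.PFlow.GB


end

section

/-!
# (IBP) Leafwise integration by parts
-/

open MeasureTheory Filter Topology
open scoped ContDiff

namespace Pool.Agent.PFlow.GB

open Pool.Agent.PenroseSph Pool.Agent.PFlow

namespace IBP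

theorem pd_mul {F G : E3 → ℝ} {x : E3} (hF : DifferentiableAt ℝ F x)
    (hG : DifferentiableAt ℝ G x) (i : Fin 3) :
    pd i (fun y => F y * G y) x = F x * pd i G x + G x * pd i F x := by
  unfold pd
  rw [fderiv_fun_mul hF hG]
  simp

theorem pd_comp {F : ℝ → ℝ} {W : E3 → ℝ} {x : E3} (hF : DifferentiableAt ℝ F (W x))
    (hW : DifferentiableAt ℝ W x) (i : Fin 3) :
    pd i (fun y => F (W y)) x = deriv F (W x) * pd i W x := by
  unfold pd
  have h := hF.hasDerivAt.comp_hasFDerivAt x hW.hasFDerivAt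
  have h2 : fderiv ℝ (fun y => F (W y)) x = deriv F (W x) • fderiv ℝ W x := h.fderiv
  rw [h2]
  simp

theorem pd_congr {F G : E3 → ℝ} {x : E3} (h : F =ᶠ[𝓝 x] G) (i : Fin 3) :
    pd i F x = pd i G x := by
  unfold pd
  rw [h.fderiv_eq]

theorem integral_pd_zero {F : E3 → ℝ} (hF : ContDiff ℝ 1 F) (hc : HasCompactSupport F)
    (i : Fin 3) : Integrable (pd i F) ∧ ∫ x, pd i F x = 0 := by
  have hcont : Continuous (fun x => fderiv ℝ F x (EuclideanSpace.single i 1)) :=
    (hF.continuous_fderiv one_ne_zero).clm_apply continuous_const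
  have hcs : HasCompactSupport (fun x => fderiv ℝ F x (EuclideanSpace.single i 1)) :=
    hc.fderiv_apply ℝ _
  have hint : Integrable (fun x => fderiv ℝ F x (EuclideanSpace.single i 1)) :=
    hcont.integrable_of_hasCompactSupport hcs
  refine ⟨hint, ?_⟩
  have h := integral_mul_fderiv_eq_neg_fderiv_mul_of_integrable (μ := (volume : Measure E3))
    (f := fun _ : E3 => (1 : ℝ)) (g := F) (v := EuclideanSpace.single i 1)
    (by simp) (by simpa using hint)
    (by simpa using hF.continuous.integrable_of_hasCompactSupport hc)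
    (fun x _ => differentiableAt_const _)
    (fun x _ => hF.differentiable one_ne_zero x)
  unfold pd
  simpa using h

/-- The divergence of a compactly supported field integrates to zero. -/
theorem div_zero {V K : Set E3} (hV : IsOpen V) (hK : IsCompact K) (hKV : K ⊆ V)
    (Z : Fin 3 → E3 → ℝ) (hZ : ∀ i, ContDiffOn ℝ 1 (Z i) V)
    (h0 : ∀ i, ∀ x ∈ V, x ∉ K → Z i x = 0) :
    ∫ x in V, ∑ i, pd i (Z i) x = 0 := by
  have hin : ∀ i, ∀ x ∈ V, (V.indicator (Z i)) =ᶠ[𝓝 x] Z i := by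
    intro i x hx
    filter_upwards [hV.mem_nhds hx] with y hy
    exact Set.indicator_of_mem hy _
  have hout : ∀ i, ∀ x, x ∉ V → (V.indicator (Z i)) =ᶠ[𝓝 x] fun _ => (0 : ℝ) := by
    intro i x hx
    filter_upwards [hK.isClosed.isOpen_compl.mem_nhds (fun h => hx (hKV h))] with y hy
    by_cases hyV : y ∈ V
    · rw [Set.indicator_of_mem hyV]
      exact h0 i y hyV hy
    · exact Set.indicator_of_notMem hyV _
  have hC : ∀ i, ContDiff ℝ 1 (V.indicator (Z i)) := by
    intro i
    rw [contDiff_iff_contDiffAt]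
    intro x
    by_cases hx : x ∈ V
    · exact ((hZ i x hx).contDiffAt (hV.mem_nhds hx)).congr_of_eventuallyEq (hin i x hx)
    · exact contDiffAt_const.congr_of_eventuallyEq (hout i x hx)
  have hS : ∀ i, HasCompactSupport (V.indicator (Z i)) := by
    intro i
    refine HasCompactSupport.intro hK fun x hx => ?_
    by_cases hxV : x ∈ V
    · rw [Set.indicator_of_mem hxV]
      exact h0 i x hxV hx
    · exact Set.indicator_of_notMem hxV _
  have e1 : ∫ x in V, ∑ i, pd i (Z i) x = ∫ x in V, ∑ i, pd i (V.indicator (Z i)) x := by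
    refine setIntegral_congr_fun hV.measurableSet fun x hx => ?_
    exact Finset.sum_congr rfl fun i _ => (pd_congr (hin i x hx) i).symm
  have e2 : ∫ x in V, ∑ i, pd i (V.indicator (Z i)) x = ∫ x, ∑ i, pd i (V.indicator (Z i)) x := by
    refine setIntegral_eq_integral_of_forall_compl_eq_zero fun x hx => ?_
    refine Finset.sum_eq_zero fun i _ => ?_
    rw [pd_congr (hout i x hx) i]
    unfold pd
    simp
  rw [e1, e2, integral_finsetSum _ (fun i _ => (integral_pd_zero (hC i) (hS i) i).1)]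
  exact Finset.sum_eq_zero fun i _ => (integral_pd_zero (hC i) (hS i) i).2

theorem integrableOn_aux {V K : Set E3} (hV : IsOpen V) (hK : IsCompact K) (hKV : K ⊆ V)
    {F : E3 → ℝ} (hF : ContinuousOn F V) (h0 : ∀ x ∈ V, x ∉ K → F x = 0) :
    IntegrableOn F V :=
  ((hF.mono hKV).integrableOn_compact hK).of_forall_sdiff_eq_zero hV.measurableSet
    (fun x hx => h0 x hx.1 hx.2)

end IBP

theorem IBP (_ : Stmt_ALG) (hSMO : Stmt_SMO) (hRUL : Stmt_RUL) : Stmt_IBP := by
  intro V a b g W hF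
  have hreg : ∀ x ∈ V, Reg g W x := fun x hx => hF.reg hx
  have hm0 : ∀ x ∈ V, dens g W x ≠ 0 := by
    intro x hx
    obtain ⟨-, -, -, h4, -⟩ := hSMO.2 g W x (hreg x hx)
    exact h4.ne'
  have hms : ∀ x ∈ V, ContDiffAt ℝ ∞ (dens g W) x := by
    intro x hx
    obtain ⟨-, -, -, -, -, -, -, -, h9, -⟩ := hSMO.2 g W x (hreg x hx)
    exact h9
  have hlin : ∀ f h : E3 → ℝ, ContDiffOn ℝ 1 f V → ContDiffOn ℝ 1 h V →
      ContinuousOn (lin g W f h) V := by
    intro f h hf hh x hx
    obtain ⟨-, -, -, -, -, -, -, -, -, -, -, -, -, h14, -⟩ := hSMO.2 g W x (hreg x hx)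
    have h := (h14 0 f h (by simpa using (hf x hx).contDiffAt (hF.isOpen.mem_nhds hx))
      (by simpa using (hh x hx).contDiffAt (hF.isOpen.mem_nhds hx))).1
    exact h.continuousAt.continuousWithinAt
  have hlg : ∀ h : E3 → ℝ, ContDiffOn ℝ 2 h V → ∀ i, ContDiffOn ℝ 1 (fun y => lgrad g W h y i) V := by
    intro h hh i x hx
    obtain ⟨-, -, -, -, -, -, -, -, -, -, -, -, -, h14, -⟩ := hSMO.2 g W x (hreg x hx)
    have hh2 : ContDiffAt ℝ ((1 + 1 : ℕ) : WithTop ℕ∞) h x := by
      have := (hh x hx).contDiffAt (hF.isOpen.mem_nhds hx)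
      norm_num at this ⊢
      exact this
    have h := (h14 1 h h hh2 hh2).2 i
    exact (by simpa using h : ContDiffAt ℝ 1 (fun y => lgrad g W _ y i) x).contDiffWithinAt
  have hlap : ∀ h : E3 → ℝ, ContDiffOn ℝ 2 h V → ContinuousOn (lap g W h) V := by
    intro h hh x hx
    obtain ⟨-, -, -, -, -, -, -, -, -, -, -, -, -, -, h15⟩ := hSMO.2 g W x (hreg x hx)
    have hh2 : ContDiffAt ℝ ((0 + 2 : ℕ) : WithTop ℕ∞) h x := by
      have := (hh x hx).contDiffAt (hF.isOpen.mem_nhds hx)
      norm_num at this ⊢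
      exact this
    exact (h15 0 h hh2).continuousAt.continuousWithinAt
  have hmc : ContinuousOn (dens g W) V := fun x hx => (hms x hx).continuousAt.continuousWithinAt
  have hmc1 : ContDiffOn ℝ 1 (dens g W) V := fun x hx =>
    ((hms x hx).of_le (by exact_mod_cast le_top)).contDiffWithinAt
  have hW1 : ContDiffOn ℝ 1 W V := hF.smooth.of_le (by exact_mod_cast le_top)
  -- the first assertion
  have part1 : ∀ (Y : E3 → Cov) (ψ : ℝ → ℝ), (∀ i, ContDiffOn ℝ 1 (fun x => Y x i) V) →
      (∀ x ∈ V, ∑ i, Y x i * grad W x i = 0) → ContDiff ℝ 1 ψ → tsupport ψ ⊆ Set.Ioo a b →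
      ∫ x in V, ψ (W x) * ldiv g W Y x * dens g W x = 0 := by
    intro Y ψ hY hT hψ hs
    by_cases hab : a < b
    swap
    · have hV : V = ∅ := by
        refine Set.eq_empty_of_forall_notMem fun x hx => hab ?_
        exact (hF.mapsTo x hx).1.trans (hF.mapsTo x hx).2
      rw [hV]
      simp
    obtain ⟨c', d', hc, hcd, hd, hsp⟩ := exists_Icc_of_tsupport hab hs
    have hz : ∀ x ∈ V, x ∉ cslab V W c' d' → ψ (W x) = 0 := by
      intro x hx hxK
      by_contra hne
      exact hxK ⟨hx, hsp _ hne⟩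
    have h := IBP.div_zero hF.isOpen (hF.proper c' d' hc hd) (cslab_subset c' d')
      (fun i x => ψ (W x) * (dens g W x * Y x i))
      (fun i => (hψ.comp_contDiffOn hW1).mul (hmc1.mul (hY i)))
      (fun i x hx hxK => by simp only [hz x hx hxK, zero_mul])
    rw [← h]
    refine setIntegral_congr_fun hF.isOpen.measurableSet fun x hx => ?_
    have hdm : DifferentiableAt ℝ (dens g W) x := (hms x hx).differentiableAt (by simp)
    have hdY : ∀ i, DifferentiableAt ℝ (fun y => Y y i) x := fun i =>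
      ((hY i x hx).contDiffAt (hF.isOpen.mem_nhds hx)).differentiableAt one_ne_zero
    have hdW : DifferentiableAt ℝ W x := (hF.contDiffAt hx).differentiableAt (by simp)
    have hdψ : DifferentiableAt ℝ ψ (W x) := hψ.differentiable one_ne_zero (W x)
    have hdψW : DifferentiableAt ℝ (fun y => ψ (W y)) x := hdψ.comp x hdW
    have e : ∀ i, pd i (fun y => ψ (W y) * (dens g W y * Y y i)) x =
        ψ (W x) * pd i (fun y => dens g W y * Y y i) x +
          dens g W x * deriv ψ (W x) * (Y x i * grad W x i) := by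
      intro i
      have hd2 : DifferentiableAt ℝ (fun y => dens g W y * Y y i) x := hdm.mul (hdY i)
      rw [IBP.pd_mul hdψW hd2 i, IBP.pd_comp hdψ hdW i]
      unfold grad
      ring
    simp only [e]
    rw [Finset.sum_add_distrib, ← Finset.mul_sum, ← Finset.mul_sum, hT x hx]
    unfold ldiv
    field_simp [hm0 x hx]
    ring
  have hYd : ∀ f h : E3 → ℝ, ContDiffOn ℝ 1 f V → ContDiffOn ℝ 2 h V → ∀ x ∈ V,
      ldiv g W (fun y i => f y * lgrad g W h y i) x = f x * lap g W h x + lin g W f h x := by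
    intro f h hf hh x hx
    obtain ⟨-, r2, r3, -, -, -, -, -, -, -, -, r12⟩ := hRUL g W x (hreg x hx)
    rw [r12 f (lgrad g W h)
      (((hf x hx).contDiffAt (hF.isOpen.mem_nhds hx)).differentiableAt one_ne_zero)
      (fun i => ((hlg h hh i x hx).contDiffAt (hF.isOpen.mem_nhds hx)).differentiableAt
        one_ne_zero), r2 h f, (r3 h f).1]
    rfl
  have hTan : ∀ f h : E3 → ℝ, ∀ x ∈ V,
      ∑ i, (f x * lgrad g W h x i) * grad W x i = 0 := by
    intro f h x hx
    obtain ⟨r1, -⟩ := hRUL g W x (hreg x hx)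
    have e : ∑ i, (f x * lgrad g W h x i) * grad W x i =
        f x * ∑ i, lgrad g W h x i * grad W x i := by
      rw [Finset.mul_sum]
      exact Finset.sum_congr rfl fun i _ => by ring
    rw [e, r1 h, mul_zero]
  -- the second assertion
  have part2 : ∀ (f h : E3 → ℝ) (ψ : ℝ → ℝ), ContDiffOn ℝ 1 f V → ContDiffOn ℝ 2 h V →
      ContDiff ℝ 1 ψ → tsupport ψ ⊆ Set.Ioo a b →
      ∫ x in V, ψ (W x) * (f x * lap g W h x) * dens g W x
        = - ∫ x in V, ψ (W x) * lin g W f h x * dens g W x := by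
    intro f h ψ hf hh hψ hs
    by_cases hab : a < b
    swap
    · have hV : V = ∅ := by
        refine Set.eq_empty_of_forall_notMem fun x hx => hab ?_
        exact (hF.mapsTo x hx).1.trans (hF.mapsTo x hx).2
      rw [hV]
      simp
    obtain ⟨c', d', hc, hcd, hd, hsp⟩ := exists_Icc_of_tsupport hab hs
    have hz : ∀ x ∈ V, x ∉ cslab V W c' d' → ψ (W x) = 0 := by
      intro x hx hxK
      by_contra hne
      exact hxK ⟨hx, hsp _ hne⟩
    have hψW : ContinuousOn (fun x => ψ (W x)) V := hψ.continuous.comp_continuousOn hF.continuousOn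
    have i1 : IntegrableOn (fun x => ψ (W x) * (f x * lap g W h x) * dens g W x) V :=
      IBP.integrableOn_aux hF.isOpen (hF.proper c' d' hc hd) (cslab_subset c' d')
        ((hψW.mul (hf.continuousOn.mul (hlap h hh))).mul hmc)
        (fun x hx hxK => by simp only [hz x hx hxK, zero_mul])
    have i2 : IntegrableOn (fun x => ψ (W x) * lin g W f h x * dens g W x) V :=
      IBP.integrableOn_aux hF.isOpen (hF.proper c' d' hc hd) (cslab_subset c' d')
        ((hψW.mul (hlin f h hf (hh.of_le one_le_two))).mul hmc)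
        (fun x hx hxK => by simp only [hz x hx hxK, zero_mul])
    have h0 := part1 (fun x i => f x * lgrad g W h x i) ψ (fun i => hf.mul (hlg h hh i))
      (hTan f h) hψ hs
    have h1 : ∫ x in V, (ψ (W x) * (f x * lap g W h x) * dens g W x +
        ψ (W x) * lin g W f h x * dens g W x) = 0 := by
      rw [← h0]
      refine setIntegral_congr_fun hF.isOpen.measurableSet fun x hx => ?_
      rw [hYd f h hf hh x hx]
      ring
    rw [integral_add i1 i2] at h1
    linarith
  -- compactly supported fields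
  have part3 : ∀ (f h : E3 → ℝ) (K : Set E3), IsCompact K → K ⊆ V → ContDiffOn ℝ 1 f V →
      ContDiffOn ℝ 2 h V →
      (∀ x ∈ V, x ∉ K → ∀ i, f x * lgrad g W h x i = 0) →
      (∀ x ∈ V, x ∉ K → f x * lap g W h x = 0) → (∀ x ∈ V, x ∉ K → lin g W f h x = 0) →
      ∫ x in V, f x * lap g W h x * dens g W x = - ∫ x in V, lin g W f h x * dens g W x := by
    intro f h K hK hKV hf hh hz1 hz2 hz3
    have i1 : IntegrableOn (fun x => f x * lap g W h x * dens g W x) V :=
      IBP.integrableOn_aux hF.isOpen hK hKV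
        ((hf.continuousOn.mul (hlap h hh)).mul hmc)
        (fun x hx hxK => by simp only [hz2 x hx hxK, zero_mul])
    have i2 : IntegrableOn (fun x => lin g W f h x * dens g W x) V :=
      IBP.integrableOn_aux hF.isOpen hK hKV
        ((hlin f h hf (hh.of_le one_le_two)).mul hmc)
        (fun x hx hxK => by simp only [hz3 x hx hxK, zero_mul])
    have h0 := IBP.div_zero hF.isOpen hK hKV
      (fun i x => dens g W x * (f x * lgrad g W h x i))
      (fun i => hmc1.mul (hf.mul (hlg h hh i)))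
      (fun i x hx hxK => by simp only [hz1 x hx hxK i, mul_zero])
    have h1 : ∫ x in V, (f x * lap g W h x * dens g W x + lin g W f h x * dens g W x) = 0 := by
      rw [← h0]
      refine setIntegral_congr_fun hF.isOpen.measurableSet fun x hx => ?_
      have h2 := hYd f h hf hh x hx
      unfold ldiv at h2
      rw [div_eq_iff (hm0 x hx)] at h2
      rw [h2]
      ring
    rw [integral_add i1 i2] at h1
    linarith
  refine ⟨part1, part2, ?_⟩
  intro f h hf hh
  have hf2 : ContDiffOn ℝ 2 f V := (contDiff_infty.mp hf.smooth 2).contDiffOn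
  have hf1 : ContDiffOn ℝ 1 f V := hf2.of_le one_le_two
  have hh1 : ContDiffOn ℝ 1 h V := hh.of_le one_le_two
  have hKc : IsCompact (tsupport f) := hf.compact
  have hev : ∀ x, x ∉ tsupport f → f =ᶠ[𝓝 x] fun _ => (0 : ℝ) := fun x hx =>
    notMem_tsupport_iff_eventuallyEq.mp hx
  have hf0 : ∀ x, x ∉ tsupport f → f x = 0 := fun x hx => (hev x hx).eq_of_nhds
  have hg0 : ∀ x, x ∉ tsupport f → grad f x = 0 := by
    intro x hx
    funext i
    unfold grad
    rw [IBP.pd_congr (hev x hx) i]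
    unfold pd
    simp
  have hlg0 : ∀ x, x ∉ tsupport f → ∀ i, lgrad g W f x i = 0 := by
    intro x hx i
    unfold lgrad raise
    rw [hg0 x hx]
    simp
  have hlin0 : ∀ x, x ∉ tsupport f → lin g W f h x = 0 := by
    intro x hx
    unfold lin lip ev
    rw [hg0 x hx]
    simp
  have hlap0 : ∀ x, x ∉ tsupport f → lap g W f x = 0 := by
    intro x hx
    unfold lap ldiv
    have e : ∀ i, pd i (fun y => dens g W y * lgrad g W f y i) x = 0 := by
      intro i
      have he : (fun y => dens g W y * lgrad g W f y i) =ᶠ[𝓝 x] fun _ => (0 : ℝ) := by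
        filter_upwards [(isClosed_tsupport f).isOpen_compl.mem_nhds hx] with y hy
        rw [hlg0 y hy i, mul_zero]
      rw [IBP.pd_congr he i]
      unfold pd
      simp
    simp [e]
  have q1 := part3 f h (tsupport f) hKc hf.supp hf1 hh
    (fun x _ hx i => by rw [hf0 x hx, zero_mul]) (fun x _ hx => by rw [hf0 x hx, zero_mul])
    (fun x _ hx => hlin0 x hx)
  have hsym : ∀ x ∈ V, lin g W h f x = lin g W f h x := by
    intro x hx
    obtain ⟨-, -, r3, -⟩ := hRUL g W x (hreg x hx)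
    exact (r3 h f).1
  have q2 := part3 h f (tsupport f) hKc hf.supp hh1 hf2
    (fun x _ hx i => by rw [hlg0 x hx i, mul_zero]) (fun x _ hx => by rw [hlap0 x hx, mul_zero])
    (fun x hx hx2 => by rw [hsym x hx]; exact hlin0 x hx2)
  have q3 : ∫ x in V, lin g W h f x * dens g W x = ∫ x in V, lin g W f h x * dens g W x := by
    refine setIntegral_congr_fun hF.isOpen.measurableSet fun x hx => ?_
    rw [hsym x hx]
  exact ⟨q1, by rw [q1, q2, q3]⟩

end Pool.Agent.PFlow.GB


end

section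

/-!
# Module GBX: the Gauss-Bonnet inequality for functions on `E3`
-/

set_option autoImplicit false

open MeasureTheory Filter Topology
open scoped ContDiff

namespace Pool.Agent.PFlow.GB

open Pool.Agent.PenroseSph Pool.Agent.PFlow

/-- The form used in the block MI. -/
theorem GBX (hGBC : Stmt_GBC) (hUNIC : Pool.Agent.PFlow.Stmt_UNIC) : Stmt_GBX := by
  intro U g f a b hU hg hf hreg hprop hconn ψ hψ hψ0 hψs
  obtain ⟨V, hV⟩ : ∃ V : Set E3, V = {x | a < f x ∧ f x < b} := ⟨_, rfl⟩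
  have hmem : ∀ x, x ∈ V ↔ a < f x ∧ f x < b := fun x => by rw [hV]; exact Iff.rfl
  have hVo : IsOpen V := by
    rw [hV]
    exact (isOpen_lt continuous_const hf).inter (isOpen_lt hf continuous_const)
  have hVU : V ⊆ U := fun x hx => (hreg x ((hmem x).1 hx).1 ((hmem x).1 hx).2).1
  have hFol : Fol V a b g f :=
    { isOpen := hVo
      metric := ⟨fun i j => (hg.smooth i j).mono hVU, fun x hx => hg.posDef x (hVU hx)⟩
      smooth := fun x hx =>
        (hreg x ((hmem x).1 hx).1 ((hmem x).1 hx).2).2.1.contDiffWithinAt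
      mapsTo := fun x hx => (hmem x).1 hx
      regular := fun x hx => (hreg x ((hmem x).1 hx).1 ((hmem x).1 hx).2).2.2
      proper := by
        intro c d hc hd
        have : cslab V f c d = {x | c ≤ f x ∧ f x ≤ d} := by
          ext x
          constructor
          · exact fun hx => hx.2
          · exact fun hx => ⟨(hmem x).2 ⟨hc.trans_le hx.1, hx.2.trans_lt hd⟩, hx⟩
        rw [this]
        exact hprop c d hc hd }
  have hpre : ∀ s : ℝ, IsPreconnected (V ∩ f ⁻¹' {s}) := by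
    intro s
    by_cases hs : a < s ∧ s < b
    · have h1 : V ∩ f ⁻¹' {s} = {x | f x = s} := by
        ext x
        constructor
        · exact fun hx => hx.2
        · intro hx
          have hx' : f x = s := hx
          exact ⟨(hmem x).2 (by rw [hx']; exact hs), hx⟩
      rw [h1]
      obtain ⟨e, he⟩ : ∃ e, e = min (s - a) (b - s) / 2 := ⟨_, rfl⟩
      have he0 : 0 < e := by
        rw [he]
        have : 0 < min (s - a) (b - s) := lt_min (by linarith [hs.1]) (by linarith [hs.2])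
        linarith
      have he1 : e < s - a := by
        rw [he]
        have h2 := min_le_left (s - a) (b - s)
        linarith [hs.1]
      have he2 : e < b - s := by
        rw [he]
        have h2 := min_le_right (s - a) (b - s)
        linarith [hs.2]
      refine hUNIC f s e hf he0 ?_ (hconn s hs.1 hs.2).1 (hconn s hs.1 hs.2).2 ?_
      · have h2 : {x | |f x - s| ≤ e} = {x | s - e ≤ f x ∧ f x ≤ s + e} := by
          ext x
          simp only [Set.mem_ofPred_eq, abs_le]
          constructor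
          · rintro ⟨h3, h4⟩
            exact ⟨by linarith, by linarith⟩
          · rintro ⟨h3, h4⟩
            exact ⟨by linarith, by linarith⟩
        rw [h2]
        exact hprop _ _ (by linarith) (by linarith)
      · intro x hx
        obtain ⟨-, h3, h4⟩ := hreg x (by rw [hx]; exact hs.1) (by rw [hx]; exact hs.2)
        refine ⟨h3, fun h5 => h4 ?_⟩
        funext i
        change fderiv ℝ f x (EuclideanSpace.single i 1) = 0
        rw [h5]
        rfl
    · have h1 : V ∩ f ⁻¹' {s} = ∅ := by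
        rw [Set.eq_empty_iff_forall_notMem]
        rintro x ⟨hx, hx'⟩
        have hx'' : f x = s := hx'
        apply hs
        rw [← hx'']
        exact (hmem x).1 hx
      rw [h1]
      exact isPreconnected_empty
  have hmain := hGBC V a b g f hFol hpre ψ hψ hψ0 hψs
  refine le_trans (le_of_eq ?_) hmain
  symm
  apply setIntegral_eq_integral_of_forall_compl_eq_zero
  intro x hx
  have h1 : ψ (f x) = 0 := by
    by_contra h2
    exact hx ((hmem x).2 (hψs (subset_tsupport ψ h2)))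
  rw [h1, zero_mul, zero_mul]

end Pool.Agent.PFlow.GB


end

section

/-!
# The derivative of `√(|dw|² + d²)`
-/

open MeasureTheory Filter Topology
open scoped ContDiff

namespace Pool.Agent.PFlow

open Pool.Agent.PenroseSph

namespace MSD

theorem diff_det {A : E3 → Matrix (Fin 3) (Fin 3) ℝ} {x : E3}
    (hA : ∀ i j, DifferentiableAt ℝ (fun y => A y i j) x) :
    DifferentiableAt ℝ (fun y => (A y).det) x := by
  simp only [Matrix.det_fin_three]
  fun_prop

theorem diff_inv {A : E3 → Matrix (Fin 3) (Fin 3) ℝ} {x : E3}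
    (hA : ∀ i j, DifferentiableAt ℝ (fun y => A y i j) x) (hd : (A x).det ≠ 0) (i j : Fin 3) :
    DifferentiableAt ℝ (fun y => (A y)⁻¹ i j) x := by
  have h1 : (fun y => (A y)⁻¹ i j) = fun y => ((A y).det)⁻¹ *
      ((A y).updateRow j (Pi.single i 1)).det := by
    funext y
    rw [Matrix.inv_def, Ring.inverse_eq_inv', Matrix.smul_apply, smul_eq_mul,
      Matrix.adjugate_apply]
  rw [h1]
  refine ((diff_det hA).inv hd).mul (diff_det fun k l => ?_)
  by_cases hk : k = j
  · subst hk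
    simp only [Matrix.updateRow_self]
    exact differentiableAt_const _
  · simp only [Matrix.updateRow_ne hk]
    exact hA k l

end MSD

theorem SD : Stmt_SD := by
  intro U g w d hU hg hw hd x hx m
  have hUx : U ∈ 𝓝 x := hU.mem_nhds hx
  have hgd : ∀ i j, DifferentiableAt ℝ (fun y => g y i j) x := fun i j =>
    ((hg.smooth i j).contDiffAt hUx).differentiableAt (by simp)
  have hdet : (g x).det ≠ 0 := (hg.posDef x hx).det_pos.ne'
  have hPd := MSD.diff_inv hgd hdet
  have hpd : ∀ i, DifferentiableAt ℝ (fun y => grad w y i) x := by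
    intro i
    have h1 : ContDiffAt ℝ ∞ w x := hw.contDiffAt hUx
    have h2 : ContDiffAt ℝ 1 (fderiv ℝ w) x := h1.fderiv_right (by norm_cast)
    exact (h2.differentiableAt (by simp)).clm_apply (differentiableAt_const _)
  set X : Fin 3 → E3 → ℝ := fun i y => ∑ j, (g y)⁻¹ i j * grad w y j with hX
  have hXd : ∀ i, DifferentiableAt ℝ (X i) x := by
    intro i
    simp only [hX]
    exact DifferentiableAt.fun_sum fun j _ => (hPd i j).mul (hpd j)
  -- the quadratic form
  have hQ : (fun y => ev (g y)⁻¹ (grad w y) (grad w y) + d ^ 2) =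
      fun y => (∑ i, grad w y i * X i y) + d ^ 2 := by
    funext y
    congr 1
    unfold ev
    refine Finset.sum_congr rfl fun i _ => ?_
    simp only [hX]
    rw [Finset.mul_sum]
    exact Finset.sum_congr rfl fun j _ => by ring
  have hp : ∀ y ∈ U, ∀ i, grad w y i = ∑ j, g y i j * X j y := by
    intro y hy i
    have h1 : g y * (g y)⁻¹ = 1 :=
      Matrix.mul_nonsing_inv _ ((hg.posDef y hy).det_pos.ne'.isUnit)
    have h2 : grad w y = (g y * (g y)⁻¹).mulVec (grad w y) := by
      rw [h1, Matrix.one_mulVec]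
    rw [← Matrix.mulVec_mulVec] at h2
    exact congrFun h2 i
  have hdp : ∀ i, pd m (fun y => grad w y i) x =
      ∑ j, (g x i j * pd m (X j) x + X j x * pd m (fun y => g y i j) x) := by
    intro i
    have h1 : (fun y => grad w y i) =ᶠ[𝓝 x] fun y => ∑ j, g y i j * X j y := by
      filter_upwards [hUx] with y hy using hp y hy i
    rw [pd_congr h1, pd_sum Finset.univ (fun j y => g y i j * X j y)
      fun j _ => (hgd i j).mul (hXd j)]
    exact Finset.sum_congr rfl fun j _ => pd_mul (hgd i j) (hXd j)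
  have hposQ : 0 < ev (g x)⁻¹ (grad w x) (grad w x) + d ^ 2 := by
    have h1 : 0 ≤ ev (g x)⁻¹ (grad w x) (grad w x) := by
      have h2 := (hg.posDef x hx).inv.posSemidef
      have h3 := h2.dotProduct_mulVec_nonneg (grad w x)
      have h4 : ev (g x)⁻¹ (grad w x) (grad w x) =
          star (grad w x) ⬝ᵥ (g x)⁻¹.mulVec (grad w x) := by
        simp only [ev, Matrix.mulVec, dotProduct, Finset.mul_sum, Pi.star_apply, star_trivial]
        refine Finset.sum_congr rfl fun i _ => Finset.sum_congr rfl fun j _ => by ring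
      rw [h4]
      exact h3
    positivity
  have hQd : DifferentiableAt ℝ (fun y => ev (g y)⁻¹ (grad w y) (grad w y) + d ^ 2) x := by
    rw [hQ]
    exact (DifferentiableAt.fun_sum fun i _ => (hpd i).mul (hXd i)).add_const _
  have hpdQ : pd m (fun y => ev (g y)⁻¹ (grad w y) (grad w y) + d ^ 2) x =
      ∑ i, (grad w x i * pd m (X i) x + X i x * pd m (fun y => grad w y i) x) := by
    rw [hQ]
    have h1 : pd m (fun y => (∑ i, grad w y i * X i y) + d ^ 2) x =
        pd m (fun y => ∑ i, grad w y i * X i y) x := by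
      rw [pd_add (f := fun y => ∑ i, grad w y i * X i y) (f' := fun _ => d ^ 2)
        (DifferentiableAt.fun_sum fun i _ => (hpd i).mul (hXd i))
        (differentiableAt_const _), pd_const, add_zero]
    rw [h1, pd_sum Finset.univ (fun i y => grad w y i * X i y)
      fun i _ => (hpd i).mul (hXd i)]
    exact Finset.sum_congr rfl fun i _ => pd_mul (hpd i) (hXd i)
  have hsq : pd m (fun y => ld (g y)⁻¹ d (grad w y)) x =
      pd m (fun y => ev (g y)⁻¹ (grad w y) (grad w y) + d ^ 2) x /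
        (2 * ld (g x)⁻¹ d (grad w x)) := by
    unfold ld pd
    rw [fderiv_sqrt hQd hposQ.ne']
    simp only [smul_apply, smul_eq_mul]
    ring
  have hld : ld (g x)⁻¹ d (grad w x) ≠ 0 := by
    unfold ld
    exact (Real.sqrt_pos.mpr hposQ).ne'
  -- symmetry
  have hsym : ∀ i j, (g x)⁻¹ i j = (g x)⁻¹ j i := by
    intro i j
    have h1 := (hg.posDef x hx).inv.isHermitian
    have h2 := h1.apply i j
    simpa using h2.symm
  have hgs : ∀ i j, g x i j = g x j i := by
    intro i j
    have h1 := (hg.posDef x hx).isHermitian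
    have h2 := h1.apply i j
    simpa using h2.symm
  -- the Christoffel terms
  have hG : ∀ j, ∑ k, christoffel g k m j x * grad w x k =
      1 / 2 * ∑ l, X l x * (pd m (fun y => g y j l) x + pd j (fun y => g y m l) x
        - pd l (fun y => g y m j) x) := by
    intro j
    simp only [christoffel, hX, Finset.mul_sum, Finset.sum_mul]
    rw [Finset.sum_comm]
    refine Finset.sum_congr rfl fun l _ => Finset.sum_congr rfl fun k _ => ?_
    rw [hsym l k]
    ring
  have hmain : ∑ i, (grad w x i * pd m (X i) x + X i x * pd m (fun y => grad w y i) x) =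
      2 * app (g x)⁻¹ (cHess g x (grad w x) (hess2 w x)) (grad w x) m := by
    have hup : ∀ j, up (g x)⁻¹ (grad w x) j = X j x := fun j => rfl
    have hgr : ∀ i, pd m (pd i w) x = pd m (fun y => grad w y i) x := fun i => rfl
    have hap : app (g x)⁻¹ (cHess g x (grad w x) (hess2 w x)) (grad w x) m =
        ∑ j, (pd m (fun y => grad w y j) x - 1 / 2 * ∑ l, X l x * (pd m (fun y => g y j l) x
          + pd j (fun y => g y m l) x - pd l (fun y => g y m j) x)) * X j x := by
      unfold app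
      refine Finset.sum_congr rfl fun j _ => ?_
      rw [hup, cHess, Matrix.of_apply, hG, hess2, Matrix.of_apply, hgr]
    rw [hap]
    have hpx : ∀ i, grad w x i = ∑ j, g x i j * X j x := hp x hx
    have h0 := hdp 0
    have h1 := hdp 1
    have h2 := hdp 2
    have e0 := hpx 0
    have e1 := hpx 1
    have e2 := hpx 2
    have s01 := hgs 0 1
    have s02 := hgs 0 2
    have s12 := hgs 1 2
    simp only [Fin.sum_univ_three] at h0 h1 h2 e0 e1 e2 ⊢
    rw [e0, e1, e2, s01, s02, s12]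
    rw [s01, s02] at h0
    rw [s12] at h1
    linear_combination (-X 0 x) * h0 - X 1 x * h1 - X 2 x * h2
  rw [hsq, hpdQ, hmain]
  field_simp

end Pool.Agent.PFlow


end

section

/-!
# The coefficient of the radial equation at the special end (module BARA)
-/

open MeasureTheory Filter Topology
open scoped ContDiff

namespace Pool.Agent.PFlow

open Pool.Agent.PenroseSph

namespace EBARA

theorem s1 {f : Fin 3 → ℝ} {c : ℝ} (h : ∀ i, |f i| ≤ c) : |∑ i, f i| ≤ 3 * c := by
  refine (Finset.abs_sum_le_sum_abs _ _).trans ?_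
  refine (Finset.sum_le_sum (fun i _ => h i)).trans ?_
  simp

theorem s2 {f : Fin 3 → Fin 3 → ℝ} {c : ℝ} (h : ∀ i j, |f i j| ≤ c) :
    |∑ i, ∑ j, f i j| ≤ 9 * c := by
  have := s1 (f := fun i => ∑ j, f i j) (c := 3 * c) (fun i => s1 (h i))
  linarith

/-- Kronecker delta -/
def dl (i j : Fin 3) : ℝ := if i = j then 1 else 0

theorem dls : dl 0 0 = 1 ∧ dl 0 1 = 0 ∧ dl 0 2 = 0 ∧ dl 1 0 = 0 ∧ dl 1 1 = 1 ∧ dl 1 2 = 0 ∧
    dl 2 0 = 0 ∧ dl 2 1 = 0 ∧ dl 2 2 = 1 := by
  unfold dl
  refine ⟨if_pos rfl, if_neg (by decide), if_neg (by decide), if_neg (by decide), if_pos rfl,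
    if_neg (by decide), if_neg (by decide), if_neg (by decide), if_pos rfl⟩

/-- the constant -/
def cst (D a b : ℝ) : ℝ :=
  D * (18 * a + 9 * D * b + 18 * a + D * (108 * a ^ 2 + 81 * b * D ^ 2)
    + 9 * D * (9 * D ^ 2 + 81 * D ^ 4))

theorem abs_le_one {n : Fin 3 → ℝ} (hn : ∑ i, n i ^ 2 = 1) (i : Fin 3) : |n i| ≤ 1 := by
  have h1 : n i ^ 2 ≤ 1 := by
    rw [← hn]
    exact Finset.single_le_sum (f := fun i => n i ^ 2) (fun j _ => sq_nonneg _)
      (Finset.mem_univ i)
  exact abs_le_one_iff_mul_self_le_one.2 (by nlinarith)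

theorem core {D t ε a b : ℝ} (hD : 1 ≤ D) (ht0 : 0 < t) (ht1 : t ≤ 1) (hε0 : 0 < ε) (hε1 : ε ≤ 1)
    (ha : 0 ≤ a) (hb : 0 ≤ b) (P G hh : Fin 3 → Fin 3 → ℝ) (n : Fin 3 → ℝ)
    (hn : ∑ i, n i ^ 2 = 1) (hP : ∀ i j, |P i j| ≤ D) (hP1 : ∀ i j, |P i j - dl i j| ≤ a * t)
    (hG : ∀ i j, |G i j| ≤ b * t ^ 2) (hh' : ∀ i j, |hh i j| ≤ D * t ^ 2)
    (L : ℝ) (hL : L = ∑ i, ∑ j, P i j * n i * n j) (hL0 : 1 / D ≤ L)
    (q : Fin 3 → ℝ) (hq : ∀ i, q i = ∑ j, P i j * n j) :
    |((∑ i, ∑ j, P i j * (t * (dl i j - n i * n j) - G i j)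
        - (1 - ε) * ∑ i, ∑ j, (t * (dl i j - n i * n j) - G i j) * (q i / √L) * (q j / √L))
      - √L * (∑ i, ∑ j, P i j * hh i j
        - (1 - ε) * ∑ i, ∑ j, hh i j * (q i / √L) * (q j / √L))) / (√L) ^ 2 - 2 * t|
      ≤ cst D a b * t ^ 2 := by
  have hD0 : 0 < D := by linarith
  have hLpos : 0 < L := lt_of_lt_of_le (by positivity) hL0
  have hn1 : ∀ i, |n i| ≤ 1 := abs_le_one hn
  have hdl : ∀ i j, |dl i j - n i * n j| ≤ 2 := by
    intro i j
    have e1 : |n i * n j| ≤ 1 := by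
      rw [abs_mul]; exact mul_le_one₀ (hn1 i) (abs_nonneg _) (hn1 j)
    have e2 : |dl i j| ≤ 1 := by
      unfold dl; split_ifs <;> simp
    calc |dl i j - n i * n j| ≤ |dl i j| + |n i * n j| := abs_sub _ _
      _ ≤ 2 := by linarith
  have ht2 : 0 ≤ t ^ 2 := sq_nonneg t
  -- the trace of the Hessian
  have hT1 : |∑ i, ∑ j, P i j * (t * (dl i j - n i * n j) - G i j) - 2 * t|
      ≤ (18 * a + 9 * D * b) * t ^ 2 := by
    have e1 : ∑ i, ∑ j, P i j * (t * (dl i j - n i * n j) - G i j) - 2 * t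
        = ∑ i, ∑ j, ((P i j - dl i j) * (t * (dl i j - n i * n j)) - P i j * G i j) := by
      obtain ⟨d1, d2, d3, d4, d5, d6, d7, d8, d9⟩ := dls
      simp only [Fin.sum_univ_three, d1, d2, d3, d4, d5, d6, d7, d8, d9] at hn ⊢
      linear_combination (-t) * hn
    rw [e1]
    refine (s2 (c := 2 * a * t ^ 2 + D * (b * t ^ 2)) (fun i j => ?_)).trans (le_of_eq (by ring))
    refine (abs_sub _ _).trans ?_
    rw [abs_mul, abs_mul, abs_mul, abs_of_pos ht0]
    have f1 : |P i j - dl i j| * (t * |dl i j - n i * n j|) ≤ (a * t) * (t * 2) := by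
      gcongr
      · exact hP1 i j
      · exact hdl i j
    have f2 : |P i j| * |G i j| ≤ D * (b * t ^ 2) := by
      gcongr
      · exact hP i j
      · exact hG i j
    calc _ ≤ (a * t) * (t * 2) + D * (b * t ^ 2) := add_le_add f1 f2
      _ = _ := by ring
  -- the length
  have hL1 : |1 - L| ≤ 9 * a * t := by
    have e1 : 1 - L = ∑ i, ∑ j, -((P i j - dl i j) * (n i * n j)) := by
      rw [hL]
      obtain ⟨d1, d2, d3, d4, d5, d6, d7, d8, d9⟩ := dls
      simp only [Fin.sum_univ_three, d1, d2, d3, d4, d5, d6, d7, d8, d9] at hn ⊢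
      linear_combination (-1) * hn
    rw [e1]
    refine (s2 (c := a * t) (fun i j => ?_)).trans (le_of_eq (by ring))
    rw [abs_neg, abs_mul]
    have f1 : |n i * n j| ≤ 1 := by
      rw [abs_mul]; exact mul_le_one₀ (hn1 i) (abs_nonneg _) (hn1 j)
    calc |P i j - dl i j| * |n i * n j| ≤ (a * t) * 1 :=
          mul_le_mul (hP1 i j) f1 (abs_nonneg _) (by positivity)
      _ = a * t := by ring
  have hLu : L ≤ 9 * D := by
    have : |L| ≤ 9 * D := by
      rw [hL]
      refine s2 (fun i j => ?_)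
      rw [mul_assoc, abs_mul]
      have f1 : |n i * n j| ≤ 1 := by
        rw [abs_mul]; exact mul_le_one₀ (hn1 i) (abs_nonneg _) (hn1 j)
      calc |P i j| * |n i * n j| ≤ D * 1 :=
            mul_le_mul (hP i j) f1 (abs_nonneg _) (by positivity)
        _ = D := by ring
    exact (le_abs_self L).trans this
  have hiL : 1 / L ≤ D := by
    rw [div_le_iff₀ hLpos]
    rw [div_le_iff₀ hD0] at hL0
    linarith
  have hsq : √L ≤ 9 * D := by
    rw [Real.sqrt_le_left (by positivity)]
    nlinarith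
  -- the vector q
  have hq3 : ∀ i, |q i| ≤ 3 * D := by
    intro i
    rw [hq i]
    refine s1 (fun j => ?_)
    rw [abs_mul]
    calc |P i j| * |n j| ≤ D * 1 := mul_le_mul (hP i j) (hn1 j) (abs_nonneg _) (by positivity)
      _ = D := by ring
  have hd : ∀ i, |q i - n i| ≤ 3 * (a * t) := by
    intro i
    have e1 : q i - n i = ∑ j, (P i j - dl i j) * n j := by
      rw [hq i]
      simp only [sub_mul, Finset.sum_sub_distrib]
      congr 1
      simp [dl]
    rw [e1]
    refine s1 (fun j => ?_)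
    rw [abs_mul]
    calc |P i j - dl i j| * |n j| ≤ (a * t) * 1 :=
          mul_le_mul (hP1 i j) (hn1 j) (abs_nonneg _) (by positivity)
      _ = a * t := by ring
  have hA2a : |∑ i, ∑ j, (dl i j - n i * n j) * q i * q j| ≤ 108 * a ^ 2 * t ^ 2 := by
    have e1 : ∑ i, ∑ j, (dl i j - n i * n j) * q i * q j
        = ∑ i, (q i - n i) ^ 2 - (∑ i, n i * (q i - n i)) ^ 2 := by
      obtain ⟨d1, d2, d3, d4, d5, d6, d7, d8, d9⟩ := dls
      simp only [Fin.sum_univ_three, d1, d2, d3, d4, d5, d6, d7, d8, d9] at hn ⊢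
      linear_combination ((-1) * (2 * (n 0 * q 0 + n 1 * q 1 + n 2 * q 2)
        - (n 0 ^ 2 + n 1 ^ 2 + n 2 ^ 2))) * hn
    rw [e1]
    have f1 : |∑ i, (q i - n i) ^ 2| ≤ 3 * (3 * (a * t)) ^ 2 := by
      refine s1 (fun i => ?_)
      rw [abs_pow]
      exact pow_le_pow_left₀ (abs_nonneg _) (hd i) 2
    have f2 : |∑ i, n i * (q i - n i)| ≤ 3 * (3 * (a * t)) := by
      refine s1 (fun i => ?_)
      rw [abs_mul]
      calc |n i| * |q i - n i| ≤ 1 * (3 * (a * t)) :=
            mul_le_mul (hn1 i) (hd i) (abs_nonneg _) (by norm_num)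
        _ = _ := by ring
    have f3 : |(∑ i, n i * (q i - n i)) ^ 2| ≤ (3 * (3 * (a * t))) ^ 2 := by
      rw [abs_pow]
      exact pow_le_pow_left₀ (abs_nonneg _) f2 2
    refine (abs_sub _ _).trans ?_
    calc _ ≤ 3 * (3 * (a * t)) ^ 2 + (3 * (3 * (a * t))) ^ 2 := add_le_add f1 f3
      _ = 108 * a ^ 2 * t ^ 2 := by ring
  have hA2b : |∑ i, ∑ j, G i j * q i * q j| ≤ 9 * (b * t ^ 2 * (3 * D) * (3 * D)) := by
    refine s2 (fun i j => ?_)
    rw [abs_mul, abs_mul]
    gcongr
    · exact hG i j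
    · exact hq3 i
    · exact hq3 j
  have hA2c : |∑ i, ∑ j, hh i j * q i * q j| ≤ 9 * (D * t ^ 2 * (3 * D) * (3 * D)) := by
    refine s2 (fun i j => ?_)
    rw [abs_mul, abs_mul]
    gcongr
    · exact hh' i j
    · exact hq3 i
    · exact hq3 j
  have hTh : |∑ i, ∑ j, P i j * hh i j| ≤ 9 * (D * (D * t ^ 2)) := by
    refine s2 (fun i j => ?_)
    rw [abs_mul]
    gcongr
    · exact hP i j
    · exact hh' i j
  -- the quadratic forms with the factor `1 / L`
  have hsL : √L ^ 2 = L := Real.sq_sqrt hLpos.le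
  have hsL0 : 0 < √L := Real.sqrt_pos.2 hLpos
  have hquad : ∀ B : Fin 3 → Fin 3 → ℝ, ∑ i, ∑ j, B i j * (q i / √L) * (q j / √L)
      = (1 / L) * ∑ i, ∑ j, B i j * q i * q j := by
    intro B
    rw [Finset.mul_sum]
    refine Finset.sum_congr rfl (fun i _ => ?_)
    rw [Finset.mul_sum]
    refine Finset.sum_congr rfl (fun j _ => ?_)
    rw [show (1 / L) = 1 / (√L) ^ 2 from by rw [hsL]]
    field_simp
  rw [hquad, hquad, hsL]
  have hsplit : ∑ i, ∑ j, (t * (dl i j - n i * n j) - G i j) * q i * q j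
      = t * (∑ i, ∑ j, (dl i j - n i * n j) * q i * q j) - ∑ i, ∑ j, G i j * q i * q j := by
    rw [Finset.mul_sum, ← Finset.sum_sub_distrib]
    refine Finset.sum_congr rfl (fun i _ => ?_)
    rw [Finset.mul_sum, ← Finset.sum_sub_distrib]
    refine Finset.sum_congr rfl (fun j _ => ?_)
    ring
  rw [hsplit]
  generalize (∑ i, ∑ j, P i j * (t * (dl i j - n i * n j) - G i j)) = T1 at hT1 ⊢
  generalize (∑ i, ∑ j, (dl i j - n i * n j) * q i * q j) = A2 at hA2a ⊢
  generalize (∑ i, ∑ j, G i j * q i * q j) = A3 at hA2b ⊢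
  generalize (∑ i, ∑ j, hh i j * q i * q j) = A4 at hA2c ⊢
  generalize (∑ i, ∑ j, P i j * hh i j) = A5 at hTh ⊢
  have hmain : (T1 - (1 - ε) * ((1 / L) * (t * A2 - A3))
      - √L * (A5 - (1 - ε) * ((1 / L) * A4))) / L - 2 * t
      = (1 / L) * ((T1 - 2 * t) + 2 * t * (1 - L) - (1 - ε) * ((1 / L) * (t * A2 - A3))
        - √L * (A5 - (1 - ε) * ((1 / L) * A4))) := by
    field_simp
    ring
  rw [hmain, abs_mul]
  have hiL0 : 0 ≤ 1 / L := by positivity
  rw [abs_of_nonneg hiL0]
  have h1ε : |1 - ε| ≤ 1 := by rw [abs_le]; constructor <;> linarith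
  have g1 : |2 * t * (1 - L)| ≤ 18 * a * t ^ 2 := by
    rw [abs_mul, abs_of_pos (by positivity : (0:ℝ) < 2 * t)]
    calc 2 * t * |1 - L| ≤ 2 * t * (9 * a * t) := by gcongr
      _ = _ := by ring
  have g2 : |(1 - ε) * ((1 / L) * (t * A2 - A3))|
      ≤ D * (108 * a ^ 2 + 81 * b * D ^ 2) * t ^ 2 := by
    rw [abs_mul, abs_mul, abs_of_nonneg hiL0]
    have e1 : |t * A2 - A3| ≤ (108 * a ^ 2 + 81 * b * D ^ 2) * t ^ 2 := by
      refine (abs_sub _ _).trans ?_
      rw [abs_mul, abs_of_pos ht0]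
      have e2 : t * |A2| ≤ 1 * (108 * a ^ 2 * t ^ 2) :=
        mul_le_mul ht1 hA2a (abs_nonneg _) (by norm_num)
      calc _ ≤ 1 * (108 * a ^ 2 * t ^ 2) + 9 * (b * t ^ 2 * (3 * D) * (3 * D)) :=
            add_le_add e2 hA2b
        _ = _ := by ring
    calc |1 - ε| * (1 / L * |t * A2 - A3|)
        ≤ 1 * (D * ((108 * a ^ 2 + 81 * b * D ^ 2) * t ^ 2)) := by gcongr
      _ = _ := by ring
  have g3 : |√L * (A5 - (1 - ε) * ((1 / L) * A4))| ≤ 9 * D * (9 * D ^ 2 + 81 * D ^ 4) * t ^ 2 := by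
    rw [abs_mul, abs_of_pos hsL0]
    have e1 : |A5 - (1 - ε) * ((1 / L) * A4)| ≤ (9 * D ^ 2 + 81 * D ^ 4) * t ^ 2 := by
      refine (abs_sub _ _).trans ?_
      rw [abs_mul, abs_mul, abs_of_nonneg hiL0]
      calc |A5| + |1 - ε| * (1 / L * |A4|)
          ≤ 9 * (D * (D * t ^ 2)) + 1 * (D * (9 * (D * t ^ 2 * (3 * D) * (3 * D)))) := by gcongr
        _ = _ := by ring
    calc √L * |A5 - (1 - ε) * ((1 / L) * A4)|
        ≤ (9 * D) * ((9 * D ^ 2 + 81 * D ^ 4) * t ^ 2) := by gcongr
      _ = _ := by ring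
  have g4 : |(T1 - 2 * t) + 2 * t * (1 - L) - (1 - ε) * ((1 / L) * (t * A2 - A3))
        - √L * (A5 - (1 - ε) * ((1 / L) * A4))|
      ≤ (18 * a + 9 * D * b) * t ^ 2 + 18 * a * t ^ 2
        + D * (108 * a ^ 2 + 81 * b * D ^ 2) * t ^ 2
        + 9 * D * (9 * D ^ 2 + 81 * D ^ 4) * t ^ 2 := by
    refine (abs_sub _ _).trans (add_le_add ?_ g3)
    refine (abs_sub _ _).trans (add_le_add ?_ g2)
    exact (abs_add_le _ _).trans (add_le_add hT1 g1)
  calc 1 / L * |_| ≤ D * ((18 * a + 9 * D * b) * t ^ 2 + 18 * a * t ^ 2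
        + D * (108 * a ^ 2 + 81 * b * D ^ 2) * t ^ 2
        + 9 * D * (9 * D ^ 2 + 81 * D ^ 4) * t ^ 2) := by gcongr
    _ = cst D a b * t ^ 2 := by unfold cst; ring

/-! ### The inverse of the metric -/

section Inv

variable {g : Matrix (Fin 3) (Fin 3) ℝ} {D : ℝ}

theorem ev_eq (B : Bil) (v w : Cov) : ev B v w = ∑ i, (∑ j, B i j * w j) * v i := by
  unfold ev
  refine Finset.sum_congr rfl (fun i _ => ?_)
  rw [Finset.sum_mul]
  refine Finset.sum_congr rfl (fun j _ => ?_)
  ring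

theorem inv_app (hg : g.PosDef) (v : Cov) (i : Fin 3) :
    ∑ j, g i j * (∑ k, g⁻¹ j k * v k) = v i := by
  have hu : IsUnit g.det := hg.isUnit.map Matrix.detMonoidHom
  have h1 : (g * g⁻¹).mulVec v = v := by rw [Matrix.mul_nonsing_inv g hu, Matrix.one_mulVec]
  rw [← Matrix.mulVec_mulVec] at h1
  have h2 := congrFun h1 i
  simpa [Matrix.mulVec, dotProduct] using h2

theorem ev_inv (hg : g.PosDef) (v : Cov) :
    ev g⁻¹ v v = ev g (fun j => ∑ k, g⁻¹ j k * v k) (fun j => ∑ k, g⁻¹ j k * v k) := by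
  rw [ev_eq, ev_eq]
  refine Finset.sum_congr rfl (fun i _ => ?_)
  rw [inv_app hg v i, mul_comm]

/-- the length of `g⁻¹ v` -/
theorem norm_inv_le (hg : g.PosDef) (hD : 0 < D)
    (hell : ∀ v : Cov, (∑ i, v i ^ 2) ≤ D * ev g v v ∧ ev g v v ≤ D * ∑ i, v i ^ 2) (v : Cov) :
    ∑ i, (∑ k, g⁻¹ i k * v k) ^ 2 ≤ D ^ 2 * ∑ i, v i ^ 2 := by
  set w : Cov := fun j => ∑ k, g⁻¹ j k * v k with hw
  have h1 := (hell w).1
  have h2 : ev g w w = ∑ i, w i * v i := by
    rw [← ev_inv hg v, ev_eq]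
  have h3 : (∑ i, w i * v i) ^ 2 ≤ (∑ i, w i ^ 2) * ∑ i, v i ^ 2 :=
    Finset.sum_mul_sq_le_sq_mul_sq _ _ _
  rw [h2] at h1
  have hw0 : 0 ≤ ∑ i, w i ^ 2 := Finset.sum_nonneg (fun i _ => sq_nonneg _)
  have hv0 : 0 ≤ ∑ i, v i ^ 2 := Finset.sum_nonneg (fun i _ => sq_nonneg _)
  set A := ∑ i, w i ^ 2 with hA
  set V := ∑ i, v i ^ 2 with hV
  set X := ∑ i, w i * v i with hX
  rcases hw0.eq_or_lt with h0 | h0
  · change A ≤ _
    rw [← h0]; positivity
  · have h4 : A ^ 2 ≤ D ^ 2 * X ^ 2 := by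
      rw [← mul_pow]
      exact pow_le_pow_left₀ hw0 h1 2
    have h5 : A * A ≤ A * (D ^ 2 * V) := by nlinarith [sq_nonneg D]
    exact le_of_mul_le_mul_left h5 h0

theorem inv_entry_le (hg : g.PosDef) (hD : 0 < D)
    (hell : ∀ v : Cov, (∑ i, v i ^ 2) ≤ D * ev g v v ∧ ev g v v ≤ D * ∑ i, v i ^ 2)
    (i j : Fin 3) : |g⁻¹ i j| ≤ D := by
  have h1 := norm_inv_le hg hD hell (fun k => if k = j then 1 else 0)
  have h2 : ∀ i, ∑ k, g⁻¹ i k * (if k = j then (1 : ℝ) else 0) = g⁻¹ i j := by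
    intro i; simp
  have h3 : ∑ i : Fin 3, (if i = j then (1 : ℝ) else 0) ^ 2 = 1 := by
    simp
  simp only [h2] at h1
  rw [h3, mul_one] at h1
  have h4 : g⁻¹ i j ^ 2 ≤ ∑ i, g⁻¹ i j ^ 2 :=
    Finset.single_le_sum (f := fun i => g⁻¹ i j ^ 2) (fun k _ => sq_nonneg _) (Finset.mem_univ i)
  exact abs_le_of_sq_le_sq (h4.trans h1) hD.le

theorem inv_lower (hg : g.PosDef) (hD : 0 < D)
    (hell : ∀ v : Cov, (∑ i, v i ^ 2) ≤ D * ev g v v ∧ ev g v v ≤ D * ∑ i, v i ^ 2) (v : Cov)
    (hv : ∑ i, v i ^ 2 = 1) : 1 / D ≤ ev g⁻¹ v v := by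
  set w : Cov := fun j => ∑ k, g⁻¹ j k * v k with hw
  have h1 := (hell (fun i => w i - v i / D)).1
  have h0 : 0 ≤ ∑ i, (w i - v i / D) ^ 2 := Finset.sum_nonneg (fun i _ => sq_nonneg _)
  have h2 : 0 ≤ ev g (fun i => w i - v i / D) (fun i => w i - v i / D) := by
    by_contra hc
    push Not at hc
    nlinarith
  have hsym : ∀ i j, g i j = g j i := fun i j => by
    have := hg.1.apply i j
    simpa using this.symm
  have e1 : ev g (fun i => w i - v i / D) (fun i => w i - v i / D)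
      = ev g w w - (2 / D) * (∑ i, (∑ j, g i j * w j) * v i) + (1 / D ^ 2) * ev g v v := by
    unfold ev
    simp only [Fin.sum_univ_three]
    rw [hsym 1 0, hsym 2 0, hsym 2 1]
    field_simp
    ring
  have e2 : ∑ i, (∑ j, g i j * w j) * v i = 1 := by
    rw [← hv]
    refine Finset.sum_congr rfl (fun i _ => ?_)
    rw [hw]
    simp only
    rw [inv_app hg v i]
    ring
  have e3 := (hell v).2
  rw [hv, mul_one] at e3
  rw [e1, e2, ← ev_inv hg v] at h2
  have e4 : (1 / D ^ 2) * ev g v v ≤ (1 / D ^ 2) * D :=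
    mul_le_mul_of_nonneg_left e3 (by positivity)
  have e5 : (1 / D ^ 2) * D = 1 / D := by field_simp
  have e6 : 2 / D * 1 = 1 / D + 1 / D := by ring
  rw [e5] at e4
  rw [e6] at h2
  linarith

theorem inv_sub_le (hg : g.PosDef) (hD : 0 < D)
    (hell : ∀ v : Cov, (∑ i, v i ^ 2) ≤ D * ev g v v ∧ ev g v v ≤ D * ∑ i, v i ^ 2) {c : ℝ}
    (hc : ∀ i j, |g i j - dl i j| ≤ c) (i j : Fin 3) : |g⁻¹ i j - dl i j| ≤ 3 * (D * c) := by
  have hu : IsUnit g.det := hg.isUnit.map Matrix.detMonoidHom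
  have h1 : g⁻¹ * g = 1 := Matrix.nonsing_inv_mul g hu
  have h2 : ∑ k, g⁻¹ i k * g k j = dl i j := by
    have := congrFun (congrFun h1 i) j
    rw [Matrix.mul_apply] at this
    rw [this, Matrix.one_apply]
    rfl
  have h3 : g⁻¹ i j - dl i j = ∑ k, -(g⁻¹ i k * (g k j - dl k j)) := by
    rw [← h2]
    simp only [mul_sub, neg_sub, Finset.sum_sub_distrib]
    congr 1
    simp [dl]
  rw [h3]
  refine s1 (fun k => ?_)
  rw [abs_neg, abs_mul]
  exact mul_le_mul (inv_entry_le hg hD hell i k) (hc k j) (abs_nonneg _) hD.le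

end Inv

/-! ### The radial function -/

theorem pd_rad {x : E3} (hx : x ≠ 0) (i : Fin 3) : pd i rad x = x i / ‖x‖ := by
  have h := pd_radial (i := i) (F := fun s => s) (F' := 1) hx (hasDerivAt_id _)
  rw [one_mul] at h
  exact h

theorem pd_pd_rad {x : E3} (hx : x ≠ 0) (i j : Fin 3) :
    pd i (pd j rad) x = ‖x‖⁻¹ * (dl i j - (x i / ‖x‖) * (x j / ‖x‖)) := by
  have hne : ∀ᶠ y in 𝓝 x, y ≠ 0 := isOpen_ne.mem_nhds hx
  have h1 : pd j rad =ᶠ[𝓝 x] fun y => y j * ‖y‖⁻¹ := by
    filter_upwards [hne] with y hy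
    rw [pd_rad hy j, div_eq_mul_inv]
  rw [pd_congr h1]
  have hn0 : ‖x‖ ≠ 0 := norm_ne_zero_iff.2 hx
  have hder : HasDerivAt (fun s : ℝ => s⁻¹) (-(‖x‖ ^ 2)⁻¹) ‖x‖ := hasDerivAt_inv hn0
  rw [pd_mul (f := fun y => y j) (f' := fun y => ‖y‖⁻¹) (differentiableAt_coord j)
    (differentiableAt_radial hx hder), pd_coord, pd_radial hx hder]
  unfold dl
  field_simp
  split_ifs <;> ring

end EBARA

open EBARA

theorem BARA : Stmt_BARA := by
  intro C
  set D : ℝ := max C 1 with hDdef
  have hD1 : 1 ≤ D := le_max_right _ _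
  have hCD : C ≤ D := le_max_left _ _
  have hD0 : 0 < D := by linarith
  refine ⟨cst D (3 * D ^ 2) (27 / 2 * D ^ 2), by unfold cst; positivity, ?_⟩
  intro g h x hx _ hg _ hell hdec ε hε0 hε1
  have hr0 : 0 < ‖x‖ := by linarith
  have hx0 : x ≠ 0 := norm_pos_iff.1 hr0
  set t : ℝ := ‖x‖⁻¹ with ht
  have ht0 : 0 < t := inv_pos.2 hr0
  have ht1 : t ≤ 1 := inv_le_one_of_one_le₀ hx
  set n : Fin 3 → ℝ := fun i => x i / ‖x‖ with hn
  have hnn : ∑ i, n i ^ 2 = 1 := by
    simp only [hn, div_pow, ← Finset.sum_div]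
    rw [Fin.sum_univ_three, ← norm_sq_eq x]
    exact div_self (by positivity)
  have hgrad : grad rad x = n := by
    funext i
    exact pd_rad hx0 i
  have hell' : ∀ v : Cov, (∑ i, v i ^ 2) ≤ D * ev (g x) v v ∧
      ev (g x) v v ≤ D * ∑ i, v i ^ 2 := by
    intro v
    obtain ⟨h1, h2⟩ := hell v
    have hv0 : 0 ≤ ∑ i, v i ^ 2 := Finset.sum_nonneg (fun i _ => sq_nonneg _)
    have hpos : 0 ≤ ev (g x) v v := by
      have h3 := hg.posSemidef.dotProduct_mulVec_nonneg v
      have h4 : star v ⬝ᵥ (g x).mulVec v = ev (g x) v v := by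
        unfold ev
        simp only [dotProduct, Matrix.mulVec, Pi.star_apply, star_trivial, Finset.mul_sum]
        refine Finset.sum_congr rfl (fun i _ => Finset.sum_congr rfl (fun j _ => ?_))
        ring
      rw [h4] at h3
      exact h3
    constructor
    · exact h1.trans (mul_le_mul_of_nonneg_right hCD hpos)
    · exact h2.trans (mul_le_mul_of_nonneg_right hCD hv0)
  have hg1 : ∀ i j, |g x i j - _root_.Pool.Agent.PFlow.EBARA.dl i j| ≤ D * t := by
    intro i j
    have h1 := (hdec i j).1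
    have h2 : (1 : Bil) i j = _root_.Pool.Agent.PFlow.EBARA.dl i j := by rw [Matrix.one_apply]; rfl
    rw [h2] at h1
    refine h1.trans ?_
    rw [div_eq_mul_inv]
    exact mul_le_mul_of_nonneg_right hCD ht0.le
  have hgk : ∀ k i j, |pd k (fun y => g y i j) x| ≤ D * t ^ 2 := by
    intro k i j
    refine ((hdec i j).2.1 k).trans ?_
    rw [div_eq_mul_inv, ← inv_pow]
    exact mul_le_mul_of_nonneg_right hCD (by positivity)
  have hhx : ∀ i j, |h x i j| ≤ D * t ^ 2 := by
    intro i j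
    refine ((hdec i j).2.2).trans ?_
    rw [div_eq_mul_inv, ← inv_pow]
    exact mul_le_mul_of_nonneg_right hCD (by positivity)
  have hP := inv_entry_le hg hD0 hell'
  have hP1 : ∀ i j, |(g x)⁻¹ i j - _root_.Pool.Agent.PFlow.EBARA.dl i j| ≤ (3 * D ^ 2) * t := by
    intro i j
    refine (inv_sub_le hg hD0 hell' hg1 i j).trans (le_of_eq (by ring))
  have hchr : ∀ k i j, |christoffel g k i j x| ≤ 9 / 2 * D ^ 2 * t ^ 2 := by
    intro k i j
    unfold christoffel
    rw [abs_mul, abs_of_pos (by norm_num : (0:ℝ) < 1 / 2)]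
    have h1 : |∑ l, (g x)⁻¹ k l * (pd i (fun y => g y j l) x + pd j (fun y => g y i l) x
        - pd l (fun y => g y i j) x)| ≤ 3 * (D * (3 * (D * t ^ 2))) := by
      refine s1 (fun l => ?_)
      rw [abs_mul]
      refine mul_le_mul (hP k l) ?_ (abs_nonneg _) hD0.le
      refine (abs_sub _ _).trans ?_
      have e1 := abs_add_le (pd i (fun y => g y j l) x) (pd j (fun y => g y i l) x)
      have e2 := hgk i j l
      have e3 := hgk j i l
      have e4 := hgk l i j
      linarith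
    calc 1 / 2 * |_| ≤ 1 / 2 * (3 * (D * (3 * (D * t ^ 2)))) := by gcongr
      _ = _ := by ring
  have hG : ∀ i j, |∑ k, christoffel g k i j x * n k| ≤ (27 / 2 * D ^ 2) * t ^ 2 := by
    intro i j
    refine (s1 (c := 9 / 2 * D ^ 2 * t ^ 2) (fun k => ?_)).trans (le_of_eq (by ring))
    rw [abs_mul]
    calc |christoffel g k i j x| * |n k| ≤ (9 / 2 * D ^ 2 * t ^ 2) * 1 :=
          mul_le_mul (hchr k i j) (abs_le_one hnn k) (abs_nonneg _) (by positivity)
      _ = _ := by ring
  have hL0 : 1 / D ≤ ev (g x)⁻¹ n n := inv_lower hg hD0 hell' n hnn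
  have key := core hD1 ht0 ht1 hε0 hε1 (by positivity : (0:ℝ) ≤ 3 * D ^ 2)
    (by positivity : (0:ℝ) ≤ 27 / 2 * D ^ 2) (fun i j => (g x)⁻¹ i j)
    (fun i j => ∑ k, christoffel g k i j x * n k) (fun i j => h x i j) n hnn hP hP1 hG hhx
    (ev (g x)⁻¹ n n) rfl hL0 (fun i => ∑ j, (g x)⁻¹ i j * n j) (fun i => rfl)
  have hcH : ∀ i j, cHess g x n (hess2 rad x) i j
      = t * (_root_.Pool.Agent.PFlow.EBARA.dl i j - n i * n j) - ∑ k, christoffel g k i j x * n k := by
    intro i j
    unfold cHess hess2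
    simp only [Matrix.of_apply]
    rw [pd_pd_rad hx0 i j]
  have e1 : barB ε g h x = ((∑ i, ∑ j, (g x)⁻¹ i j * (t * (_root_.Pool.Agent.PFlow.EBARA.dl i j - n i * n j)
          - ∑ k, christoffel g k i j x * n k)
        - (1 - ε) * ∑ i, ∑ j, (t * (_root_.Pool.Agent.PFlow.EBARA.dl i j - n i * n j)
          - ∑ k, christoffel g k i j x * n k) * ((∑ j, (g x)⁻¹ i j * n j) / √(ev (g x)⁻¹ n n))
            * ((∑ i, (g x)⁻¹ j i * n i) / √(ev (g x)⁻¹ n n)))
      - √(ev (g x)⁻¹ n n) * (∑ i, ∑ j, (g x)⁻¹ i j * h x i j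
        - (1 - ε) * ∑ i, ∑ j, h x i j * ((∑ j, (g x)⁻¹ i j * n j) / √(ev (g x)⁻¹ n n))
          * ((∑ i, (g x)⁻¹ j i * n i) / √(ev (g x)⁻¹ n n)))) / (√(ev (g x)⁻¹ n n)) ^ 2 := by
    unfold barB
    rw [hgrad]
    unfold beps bnn trg nrm raise len
    simp only [hcH]
    unfold ev
    simp only [hcH]
  have e2 : 2 / ‖x‖ = 2 * t := by rw [ht, div_eq_mul_inv]
  have e3 : cst D (3 * D ^ 2) (27 / 2 * D ^ 2) / ‖x‖ ^ 2
      = cst D (3 * D ^ 2) (27 / 2 * D ^ 2) * t ^ 2 := by
    rw [ht, div_eq_mul_inv, inv_pow]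
  rw [e1, e2, e3]
  exact key

end Pool.Agent.PFlow


end

section

set_option autoImplicit false

open MeasureTheory Filter Topology
open scoped ContDiff ENNReal

namespace Pool.Agent.PFlow

open Pool.Agent.PenroseSph

private theorem hsym_comm {f : E3 → ℝ} (h : ContDiff ℝ ∞ f) (x : E3) (i j : Fin 3) :
    pd i (pd j f) x = pd j (pd i f) x := by
  have hs : IsSymmSndFDerivAt ℝ f x := h.contDiffAt.isSymmSndFDerivAt (by
    rw [minSmoothness_of_isRCLikeNormedField]
    exact WithTop.coe_le_coe.2 le_top)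
  have hd : DifferentiableAt ℝ (fderiv ℝ f) x :=
    ((h.fderiv_right (m := ∞) (by simp)).differentiable (by simp)) x
  have key : ∀ a b : Fin 3, pd a (pd b f) x
      = fderiv ℝ (fderiv ℝ f) x (EuclideanSpace.single a 1) (EuclideanSpace.single b 1) := by
    intro a b
    unfold pd
    have h1 : HasFDerivAt (fun y => fderiv ℝ f y (EuclideanSpace.single b 1))
        (((fderiv ℝ (fderiv ℝ f) x)).flip (EuclideanSpace.single b 1)) x := by
      have := hd.hasFDerivAt.clm_apply (hasFDerivAt_const (EuclideanSpace.single b (1 : ℝ)) x)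
      refine this.congr_fderiv ?_
      ext v
      simp
    rw [h1.fderiv]
    rfl
  rw [key, key]
  exact hs _ _

private theorem hsym_cont {f : E3 → ℝ} (h : ContDiff ℝ ∞ f) (i j : Fin 3) :
    Continuous (pd i (pd j f)) := by
  have h1 : ContDiff ℝ ∞ (pd j f) := by
    unfold pd
    exact (h.fderiv_right (m := ∞) (by simp)).clm_apply contDiff_const
  unfold pd
  exact (h1.continuous_fderiv (by simp)).clm_apply continuous_const

theorem HSYM : Stmt_HSYM := by
  intro U w G M hU hw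
  have hloc : ∀ K : Set E3, IsCompact K → K ⊆ U → ∀ i j : Fin 3,
      ∀ᵐ x ∂(volume.restrict K), M x i j = M x j i := by
    intro K hK hKU i j
    obtain ⟨v, hv, -, -, hM⟩ := hw.approx K hK hKU
    have hfin : IsFiniteMeasure (volume.restrict K) :=
      ⟨by rw [Measure.restrict_apply_univ]; exact hK.measure_lt_top⟩
    have hMi := hw.memM K hK hKU
    have hvi : ∀ n a b, MemLp (fun x => pd a (pd b (v n)) x) 2 (volume.restrict K) := by
      intro n a b
      obtain ⟨C, hC⟩ := hK.exists_bound_of_continuousOn (hsym_cont (hv n) a b).continuousOn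
      refine MemLp.of_bound (hsym_cont (hv n) a b).aestronglyMeasurable C ?_
      exact (ae_restrict_iff' hK.measurableSet).2 (Eventually.of_forall hC)
    have hint : ∀ n a b, Integrable (fun x => (pd a (pd b (v n)) x - M x a b) ^ 2)
        (volume.restrict K) := fun n a b => ((hvi n a b).sub (hMi a b)).integrable_sq
    have hint2 : Integrable (fun x => (M x i j - M x j i) ^ 2) (volume.restrict K) :=
      ((hMi i j).sub (hMi j i)).integrable_sq
    have hb : ∀ n, ∫ x in K, (M x i j - M x j i) ^ 2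
        ≤ 2 * (∫ x in K, (pd i (pd j (v n)) x - M x i j) ^ 2)
          + 2 * (∫ x in K, (pd j (pd i (v n)) x - M x j i) ^ 2) := by
      intro n
      rw [← integral_const_mul, ← integral_const_mul,
        ← integral_add ((hint n i j).const_mul 2) ((hint n j i).const_mul 2)]
      refine integral_mono hint2 (((hint n i j).const_mul 2).add ((hint n j i).const_mul 2)) ?_
      intro x
      show (M x i j - M x j i) ^ 2 ≤ 2 * (pd i (pd j (v n)) x - M x i j) ^ 2
        + 2 * (pd j (pd i (v n)) x - M x j i) ^ 2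
      rw [hsym_comm (hv n) x i j]
      nlinarith [sq_nonneg ((pd j (pd i (v n)) x - M x i j) + (pd j (pd i (v n)) x - M x j i))]
    have hlim : Tendsto (fun n => 2 * (∫ x in K, (pd i (pd j (v n)) x - M x i j) ^ 2)
          + 2 * (∫ x in K, (pd j (pd i (v n)) x - M x j i) ^ 2)) atTop (𝓝 (2 * 0 + 2 * 0)) :=
      ((hM i j).const_mul 2).add ((hM j i).const_mul 2)
    have hle : ∫ x in K, (M x i j - M x j i) ^ 2 ≤ 2 * 0 + 2 * 0 :=
      ge_of_tendsto hlim (Eventually.of_forall hb)
    have h0 : ∫ x in K, (M x i j - M x j i) ^ 2 = 0 :=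
      le_antisymm (by simpa using hle) (integral_nonneg fun x => sq_nonneg _)
    rw [integral_eq_zero_iff_of_nonneg (fun x => sq_nonneg _) hint2] at h0
    filter_upwards [h0] with x hx
    have h1 : (M x i j - M x j i) ^ 2 = 0 := hx
    have h2 := pow_eq_zero_iff (two_ne_zero) |>.1 h1
    linarith
  rw [ae_restrict_iff' hU.measurableSet, ae_iff]
  apply measure_null_of_locally_null
  intro x hx
  have hxU : x ∈ U := by
    by_contra hcon
    exact hx (fun h => absurd h hcon)
  obtain ⟨K, hK, hKx, hKU⟩ := exists_compact_subset hU hxU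
  refine ⟨K ∩ {y | ¬ (y ∈ U → (M y).IsSymm)}, ?_, ?_⟩
  · exact inter_mem (mem_nhdsWithin_of_mem_nhds (mem_interior_iff_mem_nhds.1 hKx))
      self_mem_nhdsWithin
  · have h1 : ∀ᵐ y ∂(volume.restrict K), ∀ q : Fin 3 × Fin 3, M y q.1 q.2 = M y q.2 q.1 :=
      ae_all_iff.2 fun q => hloc K hK hKU q.1 q.2
    rw [ae_restrict_iff' hK.measurableSet, ae_iff] at h1
    refine measure_mono_null ?_ h1
    rintro y ⟨hy1, hy2⟩ hy3
    apply hy2
    intro _
    ext a b
    rw [Matrix.transpose_apply]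
    exact hy3 hy1 (b, a)

end Pool.Agent.PFlow


end

section

/-!
# Module PHI: the barrier integrals
-/

open MeasureTheory Filter Topology
open scoped ContDiff ENNReal

namespace Pool.Agent.PFlow

open Pool.Agent.PenroseSph

namespace PhiM

theorem pe_ge {ε : ℝ} (h0 : 0 < ε) (h1 : ε ≤ 1 / 2) : 3 ≤ pe ε := by
  unfold pe
  have : 4 ≤ 2 / ε := by
    rw [le_div_iff₀ h0]
    linarith
  linarith

theorem cont {ε σ C : ℝ} (hp : 3 ≤ pe ε) : Continuous (phiDen ε σ C) := by
  unfold phiDen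
  refine ((continuous_id.rpow_const fun x => Or.inr (by linarith)).mul
    ((continuous_const.add (continuous_id.pow 2)).rpow_const fun x => Or.inl ?_)).mul
    (Real.continuous_exp.comp ?_)
  · have : (0 : ℝ) < 1 + id x ^ 2 := by positivity
    exact this.ne'
  · exact ((continuous_const.mul Real.continuous_arctan).div_const ε).neg

theorem exp_bd {ε σ C : ℝ} (t : ℝ) (h0 : 0 < ε) (hC : 0 ≤ C) (hσ : σ = 1 ∨ σ = -1) :
    Real.exp (-(C * Real.pi / (2 * ε))) ≤ Real.exp (-(σ * C * Real.arctan t / ε)) ∧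
    Real.exp (-(σ * C * Real.arctan t / ε)) ≤ Real.exp (C * Real.pi / (2 * ε)) := by
  have h1 : |σ * C * Real.arctan t / ε| ≤ C * Real.pi / (2 * ε) := by
    have h2 : |σ| = 1 := by rcases hσ with h | h <;> simp [h]
    have h3 : |Real.arctan t| ≤ Real.pi / 2 :=
      abs_le.2 ⟨by linarith [Real.neg_pi_div_two_lt_arctan t],
        (Real.arctan_lt_pi_div_two t).le⟩
    rw [abs_div, abs_mul, abs_mul, abs_of_pos h0, abs_of_nonneg hC, h2, one_mul]
    calc C * |Real.arctan t| / ε ≤ C * (Real.pi / 2) / ε := by gcongr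
      _ = C * Real.pi / (2 * ε) := by field_simp
  have h2 := abs_le.1 h1
  exact ⟨Real.exp_le_exp.2 (by linarith), Real.exp_le_exp.2 (by linarith)⟩

/-- The bounds for `t ≥ 1`. -/
theorem bd_out {ε σ C t : ℝ} (h0 : 0 < ε) (hC : 0 ≤ C) (hσ : σ = 1 ∨ σ = -1) (hp : 3 ≤ pe ε)
    (ht : 1 ≤ t) :
    2 ^ (-pe ε) * Real.exp (-(C * Real.pi / (2 * ε))) * t ^ (-pe ε - 1) ≤ phiDen ε σ C t ∧
    phiDen ε σ C t ≤ Real.exp (C * Real.pi / (2 * ε)) * t ^ (-pe ε - 1) := by
  obtain ⟨e1, e2⟩ := exp_bd t h0 hC hσ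
  have ht0 : 0 < t := by linarith
  have hp0 : 0 < pe ε := by linarith
  have k1 : t ^ (pe ε - 1) * (t ^ 2) ^ (-pe ε) = t ^ (-pe ε - 1) := by
    rw [← Real.rpow_natCast t 2, ← Real.rpow_mul ht0.le, ← Real.rpow_add ht0]
    congr 1
    push_cast
    ring
  have k2 : (1 + t ^ 2) ^ (-pe ε) ≤ (t ^ 2) ^ (-pe ε) :=
    Real.rpow_le_rpow_of_nonpos (by positivity) (by linarith) (by linarith)
  have k3 : 2 ^ (-pe ε) * (t ^ 2) ^ (-pe ε) ≤ (1 + t ^ 2) ^ (-pe ε) := by
    rw [← Real.mul_rpow (by norm_num) (by positivity)]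
    exact Real.rpow_le_rpow_of_nonpos (by positivity) (by nlinarith) (by linarith)
  have k4 : (0 : ℝ) ≤ t ^ (pe ε - 1) := Real.rpow_nonneg ht0.le _
  have k5 : (0 : ℝ) ≤ (1 + t ^ 2) ^ (-pe ε) := Real.rpow_nonneg (by positivity) _
  unfold phiDen
  constructor
  · calc 2 ^ (-pe ε) * Real.exp (-(C * Real.pi / (2 * ε))) * t ^ (-pe ε - 1)
        = (t ^ (pe ε - 1) * (2 ^ (-pe ε) * (t ^ 2) ^ (-pe ε))) *
          Real.exp (-(C * Real.pi / (2 * ε))) := by rw [← k1]; ring
      _ ≤ (t ^ (pe ε - 1) * (1 + t ^ 2) ^ (-pe ε)) *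
          Real.exp (-(σ * C * Real.arctan t / ε)) :=
        mul_le_mul (mul_le_mul_of_nonneg_left k3 k4) e1 (Real.exp_pos _).le (mul_nonneg k4 k5)
  · calc t ^ (pe ε - 1) * (1 + t ^ 2) ^ (-pe ε) * Real.exp (-(σ * C * Real.arctan t / ε))
        ≤ (t ^ (pe ε - 1) * (t ^ 2) ^ (-pe ε)) * Real.exp (C * Real.pi / (2 * ε)) :=
        mul_le_mul (mul_le_mul_of_nonneg_left k2 k4) e2 (Real.exp_pos _).le
          (mul_nonneg k4 (Real.rpow_nonneg (by positivity) _))
      _ = Real.exp (C * Real.pi / (2 * ε)) * t ^ (-pe ε - 1) := by rw [k1]; ring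

/-- The bounds for `0 ≤ t ≤ 1`. -/
theorem bd_in {ε σ C t : ℝ} (h0 : 0 < ε) (hC : 0 ≤ C) (hσ : σ = 1 ∨ σ = -1) (hp : 3 ≤ pe ε)
    (ht0 : 0 ≤ t) (ht : t ≤ 1) :
    2 ^ (-pe ε) * Real.exp (-(C * Real.pi / (2 * ε))) * t ^ (pe ε - 1) ≤ phiDen ε σ C t ∧
    phiDen ε σ C t ≤ Real.exp (C * Real.pi / (2 * ε)) * t ^ (pe ε - 1) := by
  obtain ⟨e1, e2⟩ := exp_bd t h0 hC hσ
  have hp0 : 0 < pe ε := by linarith
  have k2 : (1 + t ^ 2) ^ (-pe ε) ≤ 1 :=
    Real.rpow_le_one_of_one_le_of_nonpos (by nlinarith) (by linarith)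
  have k3 : 2 ^ (-pe ε) ≤ (1 + t ^ 2) ^ (-pe ε) :=
    Real.rpow_le_rpow_of_nonpos (by positivity) (by nlinarith) (by linarith)
  have k4 : (0 : ℝ) ≤ t ^ (pe ε - 1) := Real.rpow_nonneg ht0 _
  have k5 : (0 : ℝ) ≤ (1 + t ^ 2) ^ (-pe ε) := Real.rpow_nonneg (by positivity) _
  unfold phiDen
  constructor
  · calc 2 ^ (-pe ε) * Real.exp (-(C * Real.pi / (2 * ε))) * t ^ (pe ε - 1)
        = (t ^ (pe ε - 1) * 2 ^ (-pe ε)) * Real.exp (-(C * Real.pi / (2 * ε))) := by ring
      _ ≤ (t ^ (pe ε - 1) * (1 + t ^ 2) ^ (-pe ε)) *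
          Real.exp (-(σ * C * Real.arctan t / ε)) :=
        mul_le_mul (mul_le_mul_of_nonneg_left k3 k4) e1 (Real.exp_pos _).le (mul_nonneg k4 k5)
  · calc t ^ (pe ε - 1) * (1 + t ^ 2) ^ (-pe ε) * Real.exp (-(σ * C * Real.arctan t / ε))
        ≤ (t ^ (pe ε - 1) * 1) * Real.exp (C * Real.pi / (2 * ε)) :=
        mul_le_mul (mul_le_mul_of_nonneg_left k2 k4) e2 (Real.exp_pos _).le
          (mul_nonneg k4 zero_le_one)
      _ = Real.exp (C * Real.pi / (2 * ε)) * t ^ (pe ε - 1) := by ring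

theorem integrable {ε σ C : ℝ} (h0 : 0 < ε) (hC : 0 ≤ C) (hσ : σ = 1 ∨ σ = -1)
    (hp : 3 ≤ pe ε) : IntegrableOn (phiDen ε σ C) (Set.Ioi 0) := by
  have hc : Continuous (phiDen ε σ C) := cont hp
  have h1 : IntegrableOn (phiDen ε σ C) (Set.Ioc 0 1) :=
    (hc.integrableOn_Icc (a := 0) (b := 1)).mono_set Set.Ioc_subset_Icc_self
  have h2 : IntegrableOn (phiDen ε σ C) (Set.Ioi 1) := by
    have h3 : IntegrableOn (fun t : ℝ => Real.exp (C * Real.pi / (2 * ε)) * t ^ (-pe ε - 1))
        (Set.Ioi 1) :=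
      (integrableOn_Ioi_rpow_of_lt (by linarith) one_pos).const_mul _
    refine Integrable.mono' h3 hc.aestronglyMeasurable.restrict ?_
    filter_upwards [ae_restrict_mem measurableSet_Ioi] with t ht
    have ht1 : (1 : ℝ) ≤ t := (Set.mem_Ioi.1 ht).le
    have h4 := bd_out (σ := σ) (C := C) h0 hC hσ hp ht1
    have h5 : 0 ≤ phiDen ε σ C t :=
      le_trans (mul_nonneg (mul_nonneg (Real.rpow_nonneg (by norm_num) _) (Real.exp_pos _).le)
        (Real.rpow_nonneg (by linarith) _)) h4.1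
    rw [Real.norm_eq_abs, abs_of_nonneg h5]
    exact h4.2
  rw [← Set.Ioc_union_Ioi_eq_Ioi (zero_le_one (α := ℝ))]
  exact h1.union h2

end PhiM

open PhiM in
theorem PHI : Stmt_PHI := by
  intro ε C σ h0 h1 hC hσ
  have hp : 3 ≤ pe ε := pe_ge h0 h1
  have hp0 : 0 < pe ε := by linarith
  have hc : Continuous (phiDen ε σ C) := cont hp
  have hI : IntegrableOn (phiDen ε σ C) (Set.Ioi 0) := integrable h0 hC hσ hp
  have hIr : ∀ r, 0 ≤ r → IntegrableOn (phiDen ε σ C) (Set.Ioi r) := fun r hr =>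
    hI.mono_set (Set.Ioi_subset_Ioi hr)
  have hsplit : ∀ r, 0 ≤ r → phiB ε σ C r = (∫ t in Set.Ioi 0, phiDen ε σ C t) -
      ∫ t in (0 : ℝ)..r, phiDen ε σ C t := by
    intro r hr
    have := intervalIntegral.integral_interval_add_Ioi hI (hIr r hr)
    unfold phiB
    linarith
  have hder : ∀ r, 0 < r → HasDerivAt (phiB ε σ C) (-phiDen ε σ C r) r := by
    intro r hr
    have h2 : HasDerivAt (fun r => (∫ t in Set.Ioi 0, phiDen ε σ C t) -
        ∫ t in (0 : ℝ)..r, phiDen ε σ C t) (-phiDen ε σ C r) r :=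
      ((hc.integral_hasStrictDerivAt 0 r).hasDerivAt).const_sub _
    refine h2.congr_of_eventuallyEq ?_
    filter_upwards [lt_mem_nhds hr] with s hs
    exact hsplit s hs.le
  have hE : ∀ r₁ r₂, 0 ≤ r₁ → r₁ ≤ r₂ → phiB ε σ C r₁ - phiB ε σ C r₂ =
      ∫ t in r₁..r₂, phiDen ε σ C t := by
    intro r₁ r₂ hr₁ h12
    exact intervalIntegral.integral_Ioi_sub_Ioi (hIr r₁ hr₁) h12
  refine ⟨hI, ?_, ?_, ?_, ?_⟩
  · intro r hr
    have hq : (0 : ℝ) < 1 + r ^ 2 := by positivity
    have hpos : 0 < phiDen ε σ C r := by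
      unfold phiDen
      exact mul_pos (mul_pos (Real.rpow_pos_of_pos hr _) (Real.rpow_pos_of_pos hq _))
        (Real.exp_pos _)
    refine ⟨hpos, hder r hr, ?_⟩
    have d1 : HasDerivAt (fun t : ℝ => t ^ (pe ε - 1)) ((pe ε - 1) * r ^ (pe ε - 1 - 1)) r :=
      Real.hasDerivAt_rpow_const (Or.inl hr.ne')
    have d2 : HasDerivAt (fun t : ℝ => (1 + t ^ 2) ^ (-pe ε))
        ((2 * r) * (-pe ε) * (1 + r ^ 2) ^ (-pe ε - 1)) r := by
      have d3 : HasDerivAt (fun t : ℝ => 1 + t ^ 2) (2 * r) r := by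
        have := (hasDerivAt_pow 2 r).const_add 1
        simpa using this
      exact d3.rpow_const (Or.inl hq.ne')
    have d4 : HasDerivAt (fun t : ℝ => Real.exp (-(σ * C * Real.arctan t / ε)))
        (Real.exp (-(σ * C * Real.arctan r / ε)) * (-(σ * C * (1 / (1 + r ^ 2)) / ε))) r :=
      ((((Real.hasDerivAt_arctan r).const_mul (σ * C)).div_const ε).neg).exp
    have d5 := (d1.mul d2).mul d4
    have e1 : r ^ (pe ε - 1 - 1) = r ^ (pe ε - 1) / r := by
      rw [Real.rpow_sub hr, Real.rpow_one]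
    have e2 : (1 + r ^ 2) ^ (-pe ε - 1) = (1 + r ^ 2) ^ (-pe ε) / (1 + r ^ 2) := by
      rw [Real.rpow_sub hq, Real.rpow_one]
    have e3 : pe ε = 2 / ε - 1 := rfl
    refine HasDerivAt.congr_deriv (f' := _) d5 ?_
    rw [e1, e2]
    simp only [Pi.mul_apply]
    unfold phiDen bE
    have hr' : r ≠ 0 := hr.ne'
    have h0' : ε ≠ 0 := h0.ne'
    have hq' : 1 + r ^ 2 ≠ 0 := hq.ne'
    have hq2 : r ^ 2 + 1 ≠ 0 := by rw [add_comm]; exact hq'
    generalize hP : r ^ (pe ε - 1) = P
    generalize hQ : (1 + r ^ 2) ^ (-pe ε) = Q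
    generalize hX : Real.exp (-(σ * C * Real.arctan r / ε)) = X
    rw [e3]
    field_simp
    ring
  · have h2 : Continuous (fun r => (∫ t in Set.Ioi 0, phiDen ε σ C t) -
        ∫ t in (0 : ℝ)..r, phiDen ε σ C t) :=
      continuous_const.sub (intervalIntegral.continuous_primitive
        (fun a b => hc.intervalIntegrable a b) 0)
    exact h2.continuousOn.congr fun r hr => hsplit r hr
  · intro r hr
    have hr0 : 0 < r := by linarith
    have hir : IntegrableOn (fun t : ℝ => t ^ (-pe ε - 1)) (Set.Ioi r) :=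
      integrableOn_Ioi_rpow_of_lt (by linarith) hr0
    have hval : ∫ t in Set.Ioi r, t ^ (-pe ε - 1) = r ^ (-pe ε) / pe ε := by
      rw [integral_Ioi_rpow_of_lt (by linarith) hr0]
      have : -pe ε - 1 + 1 = -pe ε := by ring
      rw [this, neg_div_neg_eq]
    unfold phiB
    constructor
    · calc 2 ^ (-pe ε) * Real.exp (-(C * Real.pi / (2 * ε))) * r ^ (-pe ε) / pe ε
          = ∫ t in Set.Ioi r, 2 ^ (-pe ε) * Real.exp (-(C * Real.pi / (2 * ε))) *
              t ^ (-pe ε - 1) := by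
            rw [integral_const_mul, hval]
            ring
        _ ≤ ∫ t in Set.Ioi r, phiDen ε σ C t := by
            refine setIntegral_mono_on (hir.const_mul _) (hIr r hr0.le) measurableSet_Ioi
              fun t ht => ?_
            exact (bd_out h0 hC hσ hp (by linarith [Set.mem_Ioi.1 ht])).1
    · calc ∫ t in Set.Ioi r, phiDen ε σ C t
          ≤ ∫ t in Set.Ioi r, Real.exp (C * Real.pi / (2 * ε)) * t ^ (-pe ε - 1) := by
            refine setIntegral_mono_on (hIr r hr0.le) (hir.const_mul _) measurableSet_Ioi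
              fun t ht => ?_
            exact (bd_out h0 hC hσ hp (by linarith [Set.mem_Ioi.1 ht])).2
        _ = Real.exp (C * Real.pi / (2 * ε)) * r ^ (-pe ε) / pe ε := by
            rw [integral_const_mul, hval]
            ring
  · intro r₁ r₂ hr₁ h12 hr₂
    rw [hE r₁ r₂ hr₁ h12]
    have hval : ∫ t in r₁..r₂, t ^ (pe ε - 1) = (r₂ ^ pe ε - r₁ ^ pe ε) / pe ε := by
      rw [integral_rpow (Or.inl (by linarith))]
      have : pe ε - 1 + 1 = pe ε := by ring
      rw [this]
    have hci : Continuous (fun t : ℝ => t ^ (pe ε - 1)) :=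
      continuous_id.rpow_const fun x => Or.inr (by linarith)
    constructor
    · calc 2 ^ (-pe ε) * Real.exp (-(C * Real.pi / (2 * ε))) * (r₂ ^ pe ε - r₁ ^ pe ε) / pe ε
          = ∫ t in r₁..r₂, 2 ^ (-pe ε) * Real.exp (-(C * Real.pi / (2 * ε))) *
              t ^ (pe ε - 1) := by
            rw [intervalIntegral.integral_const_mul, hval]
            ring
        _ ≤ ∫ t in r₁..r₂, phiDen ε σ C t := by
            refine intervalIntegral.integral_mono_on h12
              ((continuous_const.mul hci).intervalIntegrable _ _) (hc.intervalIntegrable _ _)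
              fun t ht => ?_
            exact (bd_in h0 hC hσ hp (hr₁.trans ht.1) (ht.2.trans hr₂)).1
    · calc ∫ t in r₁..r₂, phiDen ε σ C t
          ≤ ∫ t in r₁..r₂, Real.exp (C * Real.pi / (2 * ε)) * t ^ (pe ε - 1) := by
            refine intervalIntegral.integral_mono_on h12 (hc.intervalIntegrable _ _)
              ((continuous_const.mul hci).intervalIntegrable _ _) fun t ht => ?_
            exact (bd_in h0 hC hσ hp (hr₁.trans ht.1) (ht.2.trans hr₂)).2
        _ = Real.exp (C * Real.pi / (2 * ε)) * (r₂ ^ pe ε - r₁ ^ pe ε) / pe ε := by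
            rw [intervalIntegral.integral_const_mul, hval]
            ring

end Pool.Agent.PFlow


end
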