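import Mathlib
import Pool.Agent.PFlow.StmtsE2
import Pool.Agent.PFlow.StmtsE3
import Pool.Agent.PFlow.StmtsM
import Pool.Agent.PenroseM.C03
import Pool.Agent.PenroseM.C05
import Pool.Agent.PenroseM.C06
import Pool.Agent.PenroseM.C12
import Pool.Agent.PenroseM.C14

/-! Parts: PFlow.P.LimW, PFlow.G.DET, PFlow.G.POIN, PFlow.G.CONC, PFlow.E.ABSW, PFlow.E.MSIII, PFlow.E.PER -/

section

/-!
# The weak form passes to the limit
-/

open MeasureTheory Filter Topology Set
open scoped ContDiff RealInnerProductSpace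

namespace Pool.Agent.PFlow.PB

open Pool.Agent.PenroseSph Pool.Agent.PFlow

namespace LimW

/-- Generalised dominated convergence. -/
theorem conv {α : Type*} [MeasurableSpace α] {μ : Measure α} {f : ℕ → α → ℝ} {f0 H : α → ℝ}
    {e : ℕ → α → ℝ} (hf : ∀ n, AEStronglyMeasurable (f n) μ) (hH : Integrable H μ)
    (he : ∀ n, Integrable (e n) μ) (he0 : ∀ n x, 0 ≤ e n x)
    (hbd : ∀ n, ∀ᵐ x ∂μ, |f n x| ≤ H x + e n x)
    (heT : Tendsto (fun n => ∫ x, e n x ∂μ) atTop (𝓝 0))
    (hlim : ∀ᵐ x ∂μ, Tendsto (fun n => f n x) atTop (𝓝 (f0 x)))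
    (hbd0 : ∀ᵐ x ∂μ, |f0 x| ≤ H x) :
    Tendsto (fun n => ∫ x, f n x ∂μ) atTop (𝓝 (∫ x, f0 x ∂μ)) := by
  have hf0 : AEStronglyMeasurable f0 μ := aestronglyMeasurable_of_tendsto_ae atTop hf hlim
  have hi0 : Integrable f0 μ := hH.mono' hf0 (by simpa [Real.norm_eq_abs] using hbd0)
  have hi : ∀ n, Integrable (f n) μ := fun n =>
    (hH.add (he n)).mono' (hf n) (by
      filter_upwards [hbd n] with x hx
      simpa [Real.norm_eq_abs] using hx)
  have hu : Tendsto (fun n => ∫ x, max (|f n x - f0 x| - e n x) 0 ∂μ) atTop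
      (𝓝 (∫ _, (0 : ℝ) ∂μ)) := by
    refine tendsto_integral_of_dominated_convergence (fun x => 2 * H x) ?_ (hH.const_mul 2) ?_ ?_
    · intro n
      exact ((((hi n).sub hi0).abs.sub (he n)).sup (integrable_zero _ _ _)).aestronglyMeasurable
    · intro n
      filter_upwards [hbd n, hbd0] with x h1 h2
      rw [Real.norm_eq_abs, abs_of_nonneg (le_max_right _ _)]
      have h3 : 0 ≤ H x := (abs_nonneg _).trans h2
      refine max_le ?_ (by linarith)
      have h4 : |f n x - f0 x| ≤ |f n x| + |f0 x| := abs_sub _ _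
      linarith
    · filter_upwards [hlim] with x hx
      have h1 : Tendsto (fun n => |f n x - f0 x|) atTop (𝓝 0) := by
        have h2 : Tendsto (fun n => f n x - f0 x) atTop (𝓝 (f0 x - f0 x)) :=
          hx.sub tendsto_const_nhds
        rw [sub_self] at h2
        simpa using h2.abs
      refine squeeze_zero (fun n => le_max_right _ _) (fun n => ?_) h1
      exact max_le (by linarith [he0 n x]) (abs_nonneg _)
  rw [integral_zero] at hu
  have hs : Tendsto (fun n => ∫ x, f n x ∂μ - ∫ x, f0 x ∂μ) atTop (𝓝 0) := by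
    have h1 := hu.add heT
    rw [add_zero] at h1
    refine squeeze_zero_norm (fun n => ?_) h1
    rw [← integral_sub (hi n) hi0]
    refine (norm_integral_le_integral_norm _).trans ?_
    have h2 : Integrable (fun x => max (|f n x - f0 x| - e n x) 0) μ :=
      (((hi n).sub hi0).abs.sub (he n)).sup (integrable_zero _ _ _)
    rw [← integral_add h2 (he n)]
    refine integral_mono ((hi n).sub hi0).norm (h2.add (he n)) fun x => ?_
    simp only [Real.norm_eq_abs]
    have := le_max_left (|f n x - f0 x| - e n x) 0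
    linarith
  have h3 := hs.add_const (∫ x, f0 x ∂μ)
  simpa using h3

theorem gr_cont {χ : E3 → ℝ} (h : ContDiff ℝ 1 χ) : Continuous (gr χ) := by
  have h1 : Continuous (fderiv ℝ χ) := h.continuous_fderiv one_ne_zero
  unfold gr pd
  refine (PiLp.continuous_toLp 2 (fun _ : Fin 3 => ℝ)).comp ?_
  exact continuous_pi fun i => h1.clm_apply continuous_const

theorem gr_zero {χ : E3 → ℝ} {x : E3} (h : x ∉ tsupport χ) : gr χ x = 0 := by
  have h1 : χ =ᶠ[𝓝 x] fun _ => 0 := by
    filter_upwards [(isClosed_tsupport χ).isOpen_compl.mem_nhds h] with y hy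
    exact image_eq_zero_of_notMem_tsupport hy
  have h2 : fderiv ℝ χ x = 0 := by
    rw [h1.fderiv_eq]
    simp
  ext i
  simp [gr, pd, h2]

end LimW

open LimW

theorem limw_thm : LIMW := by
  intro G F A B A₀ B₀ C hG hF hK hae hA hB hAb hBb hlim χ hχ hc heq
  have hC : 0 ≤ C := by
    have h := hAb 0 0 0
    simp only [norm_zero, add_zero, mul_one] at h
    exact (norm_nonneg _).trans h
  have hAb0 : ∀ x ξ, ‖A₀ x ξ‖ ≤ C * (1 + ‖ξ‖) := fun x ξ =>
    le_of_tendsto (hlim x ξ (fun _ => ξ) tendsto_const_nhds).1.norm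
      (Eventually.of_forall fun n => hAb n x ξ)
  have hBb0 : ∀ x ξ, |B₀ x ξ| ≤ C * (1 + ‖ξ‖) := fun x ξ =>
    le_of_tendsto (hlim x ξ (fun _ => ξ) tendsto_const_nhds).2.abs
      (Eventually.of_forall fun n => hBb n x ξ)
  set K : Set E3 := tsupport χ with hKdef
  have hKc : IsCompact K := hc
  have hfin : IsFiniteMeasure (volume.restrict K) := ⟨by simpa using hKc.measure_lt_top⟩
  obtain ⟨D₁, hD₁⟩ : ∃ D, ∀ x, ‖gr χ x‖ ≤ D := by
    have h1 : HasCompactSupport (gr χ) := by
      refine HasCompactSupport.intro hKc fun x hx => gr_zero hx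
    exact (_root_.Pool.Agent.PFlow.PB.LimW.gr_cont hχ).bounded_above_of_compact_support h1
  obtain ⟨D₂, hD₂⟩ : ∃ D, ∀ x, ‖χ x‖ ≤ D := hχ.continuous.bounded_above_of_compact_support hc
  set D := max D₁ D₂ with hD
  have hD0 : 0 ≤ D := (norm_nonneg (χ 0)).trans ((hD₂ 0).trans (le_max_right _ _))
  have hgD : ∀ x, ‖gr χ x‖ ≤ D := fun x => (hD₁ x).trans (le_max_left _ _)
  have hχD : ∀ x, |χ x| ≤ D := fun x => (hD₂ x).trans (le_max_right _ _)
  have hHi : Integrable (fun x => C * D * (2 + ‖F x‖)) (volume.restrict K) := by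
    have h1 : Integrable F (volume.restrict K) := (hF.restrict K).integrable one_le_two
    exact ((integrable_const _).add h1.norm).const_mul _
  have hei : ∀ n, Integrable (fun x => C * D * ‖G n x - F x‖ ^ 2) (volume.restrict K) := by
    intro n
    have h1 : MemLp (fun x => G n x - F x) 2 (volume.restrict K) := ((hG n).sub hF).restrict K
    exact (h1.integrable_norm_pow two_ne_zero).const_mul _
  have he0 : ∀ n x, 0 ≤ C * D * ‖G n x - F x‖ ^ 2 := fun n x => by positivity
  have heT : Tendsto (fun n => ∫ x in K, C * D * ‖G n x - F x‖ ^ 2) atTop (𝓝 0) := by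
    have h1 := (hK K hKc).const_mul (C * D)
    rw [mul_zero] at h1
    simpa only [integral_const_mul] using h1
  have hkey : ∀ (n : ℕ) (x : E3) (a b : ℝ), 0 ≤ b → a ≤ C * (1 + ‖G n x‖) → b ≤ D →
      a * b ≤ C * D * (2 + ‖F x‖) + C * D * ‖G n x - F x‖ ^ 2 := by
    intro n x a b hb0 ha hb
    have h1 : ‖G n x‖ ≤ ‖F x‖ + ‖G n x - F x‖ := by
      have := norm_add_le (F x) (G n x - F x)
      rwa [add_sub_cancel] at this
    have h2 : ‖G n x - F x‖ ≤ 1 + ‖G n x - F x‖ ^ 2 := by
      nlinarith [sq_nonneg (‖G n x - F x‖ - 1 / 2)]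
    have h3 : a ≤ C * (2 + ‖F x‖ + ‖G n x - F x‖ ^ 2) :=
      ha.trans (mul_le_mul_of_nonneg_left (by linarith) hC)
    have h4 : 0 ≤ C * (2 + ‖F x‖ + ‖G n x - F x‖ ^ 2) := by positivity
    calc a * b ≤ C * (2 + ‖F x‖ + ‖G n x - F x‖ ^ 2) * b := mul_le_mul_of_nonneg_right h3 hb0
      _ ≤ C * (2 + ‖F x‖ + ‖G n x - F x‖ ^ 2) * D := mul_le_mul_of_nonneg_left hb h4
      _ = C * D * (2 + ‖F x‖) + C * D * ‖G n x - F x‖ ^ 2 := by ring
  have hkey0 : ∀ (x : E3) (a b : ℝ), 0 ≤ b → a ≤ C * (1 + ‖F x‖) → b ≤ D →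
      a * b ≤ C * D * (2 + ‖F x‖) := by
    intro x a b hb0 ha hb
    have h4 : 0 ≤ C * (2 + ‖F x‖) := by positivity
    have h3 : a ≤ C * (2 + ‖F x‖) := ha.trans (mul_le_mul_of_nonneg_left (by linarith) hC)
    calc a * b ≤ C * (2 + ‖F x‖) * b := mul_le_mul_of_nonneg_right h3 hb0
      _ ≤ C * (2 + ‖F x‖) * D := mul_le_mul_of_nonneg_left hb h4
      _ = C * D * (2 + ‖F x‖) := by ring
  have hGm : ∀ n, AEMeasurable (fun x => (x, G n x)) (volume.restrict K) := fun n =>
    aemeasurable_id.prodMk ((hG n).restrict K).aestronglyMeasurable.aemeasurable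
  have hAm : ∀ n, AEStronglyMeasurable (fun x => ⟪A n x (G n x), gr χ x⟫)
      (volume.restrict K) := by
    intro n
    have h1 : AEMeasurable (fun x => A n x (G n x)) (volume.restrict K) :=
      (hA n).comp_aemeasurable (hGm n)
    exact h1.aestronglyMeasurable.inner (_root_.Pool.Agent.PFlow.PB.LimW.gr_cont hχ).aestronglyMeasurable
  have hBm : ∀ n, AEStronglyMeasurable (fun x => B n x (G n x) * χ x)
      (volume.restrict K) := by
    intro n
    have h1 : AEMeasurable (fun x => B n x (G n x)) (volume.restrict K) :=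
      (hB n).comp_aemeasurable (hGm n)
    exact h1.aestronglyMeasurable.mul hχ.continuous.aestronglyMeasurable
  have hae' : ∀ᵐ x ∂(volume.restrict K), Tendsto (fun n => G n x) atTop (𝓝 (F x)) :=
    ae_restrict_of_ae hae
  have c1 := conv (f0 := fun x => ⟪A₀ x (F x), gr χ x⟫) hAm hHi hei he0 (fun n => by
    refine Eventually.of_forall fun x => ?_
    exact (abs_real_inner_le_norm _ _).trans
      (hkey n x _ _ (norm_nonneg _) (hAb n x _) (hgD x))) heT (by
    filter_upwards [hae'] with x hx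
    exact ((hlim x (F x) _ hx).1).inner tendsto_const_nhds) (by
    refine Eventually.of_forall fun x => ?_
    exact (abs_real_inner_le_norm _ _).trans (hkey0 x _ _ (norm_nonneg _) (hAb0 x _) (hgD x)))
  have c2 := conv (f0 := fun x => B₀ x (F x) * χ x) hBm hHi hei he0 (fun n => by
    refine Eventually.of_forall fun x => ?_
    rw [abs_mul]
    exact hkey n x _ _ (abs_nonneg _) (hBb n x _) (hχD x)) heT (by
    filter_upwards [hae'] with x hx
    exact ((hlim x (F x) _ hx).2).mul tendsto_const_nhds) (by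
    refine Eventually.of_forall fun x => ?_
    rw [abs_mul]
    exact hkey0 x _ _ (abs_nonneg _) (hBb0 x _) (hχD x))
  have r1 : ∀ (X : E3 → E3), ∫ x in K, ⟪X x, gr χ x⟫ = ∫ x, ⟪X x, gr χ x⟫ := fun X =>
    setIntegral_eq_integral_of_forall_compl_eq_zero fun x hx => by
      rw [gr_zero hx, inner_zero_right]
  have r2 : ∀ (Y : E3 → ℝ), ∫ x in K, Y x * χ x = ∫ x, Y x * χ x := fun Y =>
    setIntegral_eq_integral_of_forall_compl_eq_zero fun x hx => by
      rw [image_eq_zero_of_notMem_tsupport hx, mul_zero]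
  simp only [r1, r2] at c1 c2
  simp only [heq] at c1
  exact tendsto_nhds_unique c1 c2

end Pool.Agent.PFlow.PB


end

section

/-!
# Block GB: (DET), the density in a chart is the area density of the leaves
-/

namespace Pool.Agent.PFlow.GB

open Pool.Agent.PenroseSph Pool.Agent.PFlow

theorem DET : Stmt_DET := by
  intro g x p T0 T1 T2 hg hp h0 h1 h2
  have hdet : 0 < (g x).det := hg.det_pos
  have s10 : g x 1 0 = g x 0 1 := by simpa using hg.1.apply 0 1
  have s20 : g x 2 0 = g x 0 2 := by simpa using hg.1.apply 0 2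
  have s21 : g x 2 1 = g x 1 2 := by simpa using hg.1.apply 1 2
  have hinv : ∀ i j, (g x)⁻¹ i j = (g x).det⁻¹ * (g x).adjugate i j := by
    intro i j
    rw [Matrix.inv_def, Ring.inverse_eq_inv', Matrix.smul_apply, smul_eq_mul]
  have hev : 0 ≤ ev (g x)⁻¹ p p := by
    have := hg.inv.posSemidef.dotProduct_mulVec_nonneg p
    unfold ev
    refine this.trans (le_of_eq ?_)
    simp only [dotProduct, Matrix.mulVec, Fin.sum_univ_three, Pi.star_apply, star_trivial]
    ring
  have hlen : (g x).det * len g x p ^ 2 = ∑ i, ∑ j, (g x).adjugate i j * p i * p j := by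
    unfold len
    rw [Real.sq_sqrt hev]
    unfold ev
    rw [Finset.mul_sum]
    refine Finset.sum_congr rfl fun i _ => ?_
    rw [Finset.mul_sum]
    refine Finset.sum_congr rfl fun j _ => ?_
    rw [hinv]
    field_simp
  rw [mul_assoc, hlen, Matrix.adjugate_fin_three, Matrix.det_fin_three]
  simp only [Fin.sum_univ_three, Matrix.of_apply, Matrix.cons_val', Matrix.cons_val_zero,
    Matrix.cons_val_one, Matrix.cons_val] at h0 h1 h2 ⊢
  unfold ev
  simp only [Fin.sum_univ_three]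
  rw [s10, s20, s21]
  set D : ℝ := T0 0 * T1 1 * T2 2 - T0 0 * T1 2 * T2 1 - T0 1 * T1 0 * T2 2
    + T0 1 * T1 2 * T2 0 + T0 2 * T1 0 * T2 1 - T0 2 * T1 1 * T2 0 with hD
  have c0 : D * p 0 = T0 1 * T1 2 - T0 2 * T1 1 := by
    rw [hD]
    linear_combination (T1 1 * T2 2 - T1 2 * T2 1) * h0 + (T2 1 * T0 2 - T2 2 * T0 1) * h1 +
      (T0 1 * T1 2 - T0 2 * T1 1) * h2
  have c1 : D * p 1 = T0 2 * T1 0 - T0 0 * T1 2 := by
    rw [hD]
    linear_combination (T1 2 * T2 0 - T1 0 * T2 2) * h0 + (T2 2 * T0 0 - T2 0 * T0 2) * h1 +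
      (T0 2 * T1 0 - T0 0 * T1 2) * h2
  have c2 : D * p 2 = T0 0 * T1 1 - T0 1 * T1 0 := by
    rw [hD]
    linear_combination (T1 0 * T2 1 - T1 1 * T2 0) * h0 + (T2 0 * T0 1 - T2 1 * T0 0) * h1 +
      (T0 0 * T1 1 - T0 1 * T1 0) * h2
  linear_combination
    ((g x 1 1 * g x 2 2 - g x 1 2 * g x 1 2) * (D * p 0 + (T0 1 * T1 2 - T0 2 * T1 1)) + (g x 0 2 * g x 1 2 - g x 0 1 * g x 2 2) * (D * p 1 + (T0 2 * T1 0 - T0 0 * T1 2)) + (g x 0 1 * g x 1 2 - g x 0 2 * g x 1 1) * (D * p 2 + (T0 0 * T1 1 - T0 1 * T1 0))) * c0 +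
    ((g x 0 2 * g x 1 2 - g x 0 1 * g x 2 2) * (D * p 0 + (T0 1 * T1 2 - T0 2 * T1 1)) + (g x 0 0 * g x 2 2 - g x 0 2 * g x 0 2) * (D * p 1 + (T0 2 * T1 0 - T0 0 * T1 2)) + (g x 0 2 * g x 0 1 - g x 0 0 * g x 1 2) * (D * p 2 + (T0 0 * T1 1 - T0 1 * T1 0))) * c1 +
    ((g x 0 1 * g x 1 2 - g x 0 2 * g x 1 1) * (D * p 0 + (T0 1 * T1 2 - T0 2 * T1 1)) + (g x 0 2 * g x 0 1 - g x 0 0 * g x 1 2) * (D * p 1 + (T0 2 * T1 0 - T0 0 * T1 2)) + (g x 0 0 * g x 1 1 - g x 0 1 * g x 0 1) * (D * p 2 + (T0 0 * T1 1 - T0 1 * T1 0))) * c2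

end Pool.Agent.PFlow.GB


end

section

/-!
# POIN: the two-point inequality on a square
-/

open MeasureTheory Filter Topology
open scoped ContDiff

namespace Pool.Agent.PFlow.GB

open Pool.Agent.PenroseSph Pool.Agent.PFlow

namespace POIN

/-- The one-dimensional estimate. -/
theorem one_dim {f f' : ℝ → ℝ} {α β x y : ℝ} (hf : ∀ t ∈ Set.Ioo α β, HasDerivAt f (f' t) t)
    (hi : IntegrableOn f' (Set.Ioo α β)) (hx : x ∈ Set.Ioo α β) (hy : y ∈ Set.Ioo α β) :
    |f x - f y| ≤ ∫ t in Set.Ioo α β, |f' t| := by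
  have hsub : Set.uIcc y x ⊆ Set.Ioo α β := by
    intro t ht
    rw [Set.mem_uIcc] at ht
    rcases ht with h | h
    · exact ⟨lt_of_lt_of_le hy.1 h.1, lt_of_le_of_lt h.2 hx.2⟩
    · exact ⟨lt_of_lt_of_le hx.1 h.1, lt_of_le_of_lt h.2 hy.2⟩
  have hsub' : Set.uIoc y x ⊆ Set.Ioo α β := Set.uIoc_subset_uIcc.trans hsub
  have hint : IntervalIntegrable f' volume y x := by
    rw [intervalIntegrable_iff]
    exact hi.mono_set hsub'
  have h1 := intervalIntegral.integral_eq_sub_of_hasDerivAt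
    (fun t ht => hf t (hsub ht)) hint
  rw [← h1, ← Real.norm_eq_abs]
  refine intervalIntegral.norm_integral_le_integral_norm_uIoc.trans ?_
  have h2 : ∫ t in Set.uIoc y x, ‖f' t‖ ≤ ∫ t in Set.Ioo α β, ‖f' t‖ :=
    setIntegral_mono_set hi.norm (Eventually.of_forall fun t => norm_nonneg _)
      hsub'.eventuallyLE
  simpa [Real.norm_eq_abs] using h2

section

variable {a0 b0 r : ℝ}

/-- Functions which are continuous on the closed square are integrable. -/
theorem int_of_cont {F : ℝ × ℝ → ℝ}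
    (hF : ContinuousOn F (Set.Icc (a0 - r) (a0 + r) ×ˢ Set.Icc (b0 - r) (b0 + r))) :
    Integrable F ((volume.restrict (Set.Ioo (a0 - r) (a0 + r))).prod
      (volume.restrict (Set.Ioo (b0 - r) (b0 + r)))) := by
  rw [Measure.prod_restrict, ← Measure.volume_eq_prod]
  have h1 : IntegrableOn F (Set.Icc (a0 - r) (a0 + r) ×ˢ Set.Icc (b0 - r) (b0 + r)) volume :=
    hF.integrableOn_compact (isCompact_Icc.prod isCompact_Icc)
  exact h1.mono_set (Set.prod_mono Set.Ioo_subset_Icc_self Set.Ioo_subset_Icc_self)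

end

end POIN

open POIN in
theorem POIN : Stmt_POIN := by
  intro a0 b0 r B R v hr hB hRm hRB hv hR0
  obtain ⟨N, hNo, hKN, hvN⟩ := hv
  set I := Set.Ioo (a0 - r) (a0 + r) with hI
  set J := Set.Ioo (b0 - r) (b0 + r) with hJ
  set K := Set.Icc (a0 - r) (a0 + r) ×ˢ Set.Icc (b0 - r) (b0 + r) with hK
  set V := Function.uncurry v with hV
  have hIJ : ∀ z : ℝ × ℝ, z.1 ∈ I → z.2 ∈ J → z ∈ K := fun z h1 h2 =>
    ⟨Set.Ioo_subset_Icc_self h1, Set.Ioo_subset_Icc_self h2⟩
  -- derivatives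
  have hfd : ∀ z ∈ N, HasFDerivAt V (fderiv ℝ V z) z := fun z hz =>
    ((hvN.differentiableOn (by norm_num)).differentiableAt (hNo.mem_nhds hz)).hasFDerivAt
  have hd1 : ∀ a b, (a, b) ∈ N → HasDerivAt (fun t => v t b) (fderiv ℝ V (a, b) (1, 0)) a := by
    intro a b h
    have h1 : HasDerivAt (fun t : ℝ => (t, b)) ((1 : ℝ), (0 : ℝ)) a :=
      (hasDerivAt_id a).prodMk (hasDerivAt_const a b)
    exact (hfd (a, b) h).comp_hasDerivAt a h1
  have hd2 : ∀ a b, (a, b) ∈ N → HasDerivAt (fun t => v a t) (fderiv ℝ V (a, b) (0, 1)) b := by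
    intro a b h
    have h1 : HasDerivAt (fun t : ℝ => (a, t)) ((0 : ℝ), (1 : ℝ)) b :=
      (hasDerivAt_const b a).prodMk (hasDerivAt_id b)
    exact (hfd (a, b) h).comp_hasDerivAt b h1
  have hfc : ContinuousOn (fderiv ℝ V) N := hvN.continuousOn_fderiv_of_isOpen hNo le_rfl
  have hc1 : ContinuousOn (fun z : ℝ × ℝ => |deriv (fun t => v t z.2) z.1|) K := by
    have h1 : ContinuousOn (fun z : ℝ × ℝ => |fderiv ℝ V z (1, 0)|) K :=
      ((hfc.mono hKN).clm_apply continuousOn_const).abs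
    refine h1.congr fun z hz => ?_
    change |deriv (fun t => v t z.2) z.1| = |fderiv ℝ V z (1, 0)|
    rw [(hd1 z.1 z.2 (hKN hz)).deriv]
  have hc2 : ContinuousOn (fun z : ℝ × ℝ => |deriv (fun t => v z.1 t) z.2|) K := by
    have h1 : ContinuousOn (fun z : ℝ × ℝ => |fderiv ℝ V z (0, 1)|) K :=
      ((hfc.mono hKN).clm_apply continuousOn_const).abs
    refine h1.congr fun z hz => ?_
    change |deriv (fun t => v z.1 t) z.2| = |fderiv ℝ V z (0, 1)|
    rw [(hd2 z.1 z.2 (hKN hz)).deriv]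
  have hcV : ContinuousOn V K := (hvN.continuousOn).mono hKN
  -- integrability
  set μ := volume.restrict I with hμ
  set ν := volume.restrict J with hν
  have hμI : volume.real I = 2 * r := by
    rw [hI, Real.volume_real_Ioo_of_le (by linarith)]
    ring
  have hνJ : volume.real J = 2 * r := by
    rw [hJ, Real.volume_real_Ioo_of_le (by linarith)]
    ring
  have hi1 := int_of_cont hc1
  have hi2 := int_of_cont hc2
  have hiV := int_of_cont hcV
  have hiR : Integrable (Function.uncurry R) (μ.prod ν) :=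
    Integrable.of_bound hRm.aestronglyMeasurable B (Eventually.of_forall fun z => hRB z.1 z.2)
  have hiRV : Integrable (fun z : ℝ × ℝ => R z.1 z.2 * v z.1 z.2) (μ.prod ν) :=
    hiV.bdd_mul hRm.aestronglyMeasurable (Eventually.of_forall fun z => hRB z.1 z.2)
  -- the two functions
  set f1 : ℝ → ℝ := fun b => ∫ t in I, |deriv (fun s => v s b) t| with hf1
  set f2 : ℝ → ℝ := fun a => ∫ t in J, |deriv (fun s => v a s) t| with hf2
  have hf1i : Integrable f1 ν := hi1.integral_prod_right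
  have hf2i : Integrable f2 μ := hi2.integral_prod_left
  -- the choice of `y`
  obtain ⟨y, hy, hy2⟩ := exists_le_setAverage (μ := volume) (s := I) (f := f2)
    (by
      rw [hI, Real.volume_Ioo]
      simp
      linarith)
    (by
      rw [hI, Real.volume_Ioo]
      exact ENNReal.ofReal_ne_top) hf2i
  rw [setAverage_eq, hμI, smul_eq_mul] at hy2
  have hb0 : b0 ∈ J := ⟨by linarith, by linarith⟩
  set c := v y b0 with hc
  -- the pointwise estimate
  have hsl1 : ∀ b ∈ J, IntegrableOn (fun t => deriv (fun s => v s b) t) I := by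
    intro b hb
    have h1 : ContinuousOn (fun t : ℝ => fderiv ℝ V (t, b) (1, 0)) (Set.Icc (a0 - r) (a0 + r)) := by
      have h2 : ContinuousOn (fun z : ℝ × ℝ => fderiv ℝ V z (1, 0)) K :=
        (hfc.mono hKN).clm_apply continuousOn_const
      exact h2.comp (f := fun t : ℝ => (t, b)) (by fun_prop)
        (fun t ht => ⟨ht, Set.Ioo_subset_Icc_self hb⟩)
    have h3 : IntegrableOn (fun t : ℝ => fderiv ℝ V (t, b) (1, 0)) I :=
      (h1.integrableOn_compact isCompact_Icc).mono_set Set.Ioo_subset_Icc_self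
    refine h3.congr_fun (fun t ht => ?_) measurableSet_Ioo
    exact (hd1 t b (hKN ⟨Set.Ioo_subset_Icc_self ht, Set.Ioo_subset_Icc_self hb⟩)).deriv.symm
  have hsl2 : ∀ a ∈ I, IntegrableOn (fun t => deriv (fun s => v a s) t) J := by
    intro a ha
    have h1 : ContinuousOn (fun t : ℝ => fderiv ℝ V (a, t) (0, 1)) (Set.Icc (b0 - r) (b0 + r)) := by
      have h2 : ContinuousOn (fun z : ℝ × ℝ => fderiv ℝ V z (0, 1)) K :=
        (hfc.mono hKN).clm_apply continuousOn_const
      exact h2.comp (f := fun t : ℝ => (a, t)) (by fun_prop)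
        (fun t ht => ⟨Set.Ioo_subset_Icc_self ha, ht⟩)
    have h3 : IntegrableOn (fun t : ℝ => fderiv ℝ V (a, t) (0, 1)) J :=
      (h1.integrableOn_compact isCompact_Icc).mono_set Set.Ioo_subset_Icc_self
    refine h3.congr_fun (fun t ht => ?_) measurableSet_Ioo
    exact (hd2 a t (hKN ⟨Set.Ioo_subset_Icc_self ha, Set.Ioo_subset_Icc_self ht⟩)).deriv.symm
  have hpt : ∀ a ∈ I, ∀ b ∈ J, |v a b - c| ≤ f1 b + f2 y := by
    intro a ha b hb
    have e1 : |v a b - v y b| ≤ f1 b := by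
      refine one_dim (f := fun s => v s b) (fun t ht => ?_) (hsl1 b hb) ha hy
      have h := hd1 t b (hKN ⟨Set.Ioo_subset_Icc_self ht, Set.Ioo_subset_Icc_self hb⟩)
      rw [h.deriv]
      exact h
    have e2 : |v y b - v y b0| ≤ f2 y := by
      refine one_dim (f := fun s => v y s) (fun t ht => ?_) (hsl2 y hy) hb hb0
      have h := hd2 y t (hKN ⟨Set.Ioo_subset_Icc_self hy, Set.Ioo_subset_Icc_self ht⟩)
      rw [h.deriv]
      exact h
    calc |v a b - c| = |(v a b - v y b) + (v y b - v y b0)| := by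
          congr 1
          rw [hc]
          ring
      _ ≤ _ := abs_add_le _ _
      _ ≤ f1 b + f2 y := add_le_add e1 e2
  -- the integrals
  have hL : ∫ a in I, ∫ b in J, R a b * v a b =
      ∫ z, R z.1 z.2 * (v z.1 z.2 - c) ∂(μ.prod ν) := by
    have h1 : ∫ a in I, ∫ b in J, R a b * v a b = ∫ z, R z.1 z.2 * v z.1 z.2 ∂(μ.prod ν) :=
      (integral_prod _ hiRV).symm
    have h2 : ∫ z, R z.1 z.2 ∂(μ.prod ν) = 0 := by
      rw [← hR0]
      exact integral_prod _ hiR
    have h3 : (fun z : ℝ × ℝ => R z.1 z.2 * (v z.1 z.2 - c)) =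
        fun z => R z.1 z.2 * v z.1 z.2 - R z.1 z.2 * c := by
      funext z
      ring
    have hiR' : Integrable (fun z : ℝ × ℝ => R z.1 z.2) (μ.prod ν) := hiR
    rw [h1, h3, integral_sub hiRV (hiR'.mul_const c), integral_mul_const, h2, zero_mul, sub_zero]
  have hiVc : Integrable (fun z : ℝ × ℝ => |v z.1 z.2 - c|) (μ.prod ν) :=
    (hiV.sub (integrable_const c)).abs
  have hS1 : |∫ z, R z.1 z.2 * (v z.1 z.2 - c) ∂(μ.prod ν)| ≤
      B * ∫ z, |v z.1 z.2 - c| ∂(μ.prod ν) := by
    rw [← integral_const_mul, ← Real.norm_eq_abs]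
    refine norm_integral_le_of_norm_le (hiVc.const_mul B) (Eventually.of_forall fun z => ?_)
    rw [Real.norm_eq_abs, abs_mul]
    exact mul_le_mul_of_nonneg_right (hRB _ _) (abs_nonneg _)
  have hS2 : ∫ z, |v z.1 z.2 - c| ∂(μ.prod ν) ≤ ∫ b in J, 2 * r * (f1 b + f2 y) := by
    rw [integral_prod_symm _ hiVc]
    refine setIntegral_mono_on hiVc.integral_prod_right
      ((hf1i.add (integrable_const _)).const_mul _) measurableSet_Ioo fun b hb => ?_
    have h1 : ∫ a in I, |v a b - c| ≤ ∫ a in I, (f1 b + f2 y) := by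
      refine setIntegral_mono_on ?_ ?_ measurableSet_Ioo fun a ha => hpt a ha b hb
      · have h2 : ContinuousOn (fun a : ℝ => |V (a, b) - c|) (Set.Icc (a0 - r) (a0 + r)) :=
          ((hcV.comp (f := fun t : ℝ => (t, b)) (by fun_prop)
            (fun t ht => ⟨ht, Set.Ioo_subset_Icc_self hb⟩)).sub continuousOn_const).abs
        exact (h2.integrableOn_compact isCompact_Icc).mono_set Set.Ioo_subset_Icc_self
      · exact integrableOn_const (by rw [hI, Real.volume_Ioo]; exact ENNReal.ofReal_ne_top)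
    refine h1.trans ?_
    rw [setIntegral_const, hμI, smul_eq_mul]
  have hS3 : ∫ b in J, 2 * r * (f1 b + f2 y) = 2 * r * (∫ b in J, f1 b) + 4 * r ^ 2 * f2 y := by
    rw [integral_const_mul, integral_add hf1i (integrable_const _), setIntegral_const, hνJ,
      smul_eq_mul]
    ring
  have hF1 : ∫ b in J, f1 b = ∫ a in I, ∫ b in J, |deriv (fun t => v t b) a| := by
    have h1 := integral_prod_symm _ hi1
    rw [integral_prod _ hi1] at h1
    exact h1.symm
  have hF2 : 4 * r ^ 2 * f2 y ≤ 2 * r * ∫ a in I, ∫ b in J, |deriv (fun t => v a t) b| := by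
    have h1 : 4 * r ^ 2 * f2 y ≤ 4 * r ^ 2 * ((2 * r)⁻¹ * ∫ a in I, f2 a) :=
      mul_le_mul_of_nonneg_left hy2 (by positivity)
    have h2 : 4 * r ^ 2 * ((2 * r)⁻¹ * ∫ a in I, f2 a) = 2 * r * ∫ a in I, f2 a := by
      field_simp
      ring
    rw [h2] at h1
    exact h1
  have hRHS : ∫ a in I, ∫ b in J, (|deriv (fun t => v t b) a| + |deriv (fun t => v a t) b|) =
      (∫ a in I, ∫ b in J, |deriv (fun t => v t b) a|) +
        ∫ a in I, ∫ b in J, |deriv (fun t => v a t) b| := by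
    have h1 := integral_prod _ (hi1.add hi2)
    have h2 := integral_add hi1 hi2
    rw [integral_prod _ hi1, integral_prod _ hi2] at h2
    exact h1.symm.trans h2
  rw [hL, hRHS]
  calc |∫ z, R z.1 z.2 * (v z.1 z.2 - c) ∂(μ.prod ν)| ≤
        B * ∫ z, |v z.1 z.2 - c| ∂(μ.prod ν) := hS1
    _ ≤ B * (2 * r * (∫ b in J, f1 b) + 4 * r ^ 2 * f2 y) :=
        mul_le_mul_of_nonneg_left (hS2.trans hS3.le) hB
    _ ≤ B * (2 * r * (∫ a in I, ∫ b in J, |deriv (fun t => v t b) a|) +
        2 * r * ∫ a in I, ∫ b in J, |deriv (fun t => v a t) b|) := by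
        rw [hF1]
        exact mul_le_mul_of_nonneg_left (add_le_add le_rfl hF2) hB
    _ = _ := by ring

end Pool.Agent.PFlow.GB


end

section

/-!
# Block GB: concentration of the curvature
-/

open MeasureTheory Filter Topology
open scoped ContDiff

namespace Pool.Agent.PFlow.GB

open Pool.Agent.PenroseSph Pool.Agent.PFlow

namespace CONC

/-- The profile `L⁻¹ (1 / max s t2 - 1 / t1)⁺`. -/
noncomputable def hL (L t1 t2 s : ℝ) : ℝ := L⁻¹ * max (1 / max s t2 - 1 / t1) 0

variable {L t1 t2 : ℝ}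

lemma hL_cont (ht2 : 0 < t2) : Continuous (hL L t1 t2) := by
  unfold hL
  have h1 : Continuous fun s : ℝ => 1 / max s t2 := by
    refine continuous_const.div (continuous_id.max continuous_const) fun s => ?_
    exact (lt_of_lt_of_le ht2 (le_max_right s t2)).ne'
  exact continuous_const.mul ((h1.sub continuous_const).max continuous_const)

lemma hL_nonneg (hL0 : 0 < L) (s : ℝ) : 0 ≤ hL L t1 t2 s :=
  mul_nonneg (inv_pos.mpr hL0).le (le_max_right _ _)

lemma hL_anti (hL0 : 0 < L) (ht2 : 0 < t2) : Antitone (hL L t1 t2) := by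
  intro s s' hs
  unfold hL
  refine mul_le_mul_of_nonneg_left ?_ (inv_pos.mpr hL0).le
  refine max_le_max ?_ le_rfl
  refine sub_le_sub_right ?_ _
  exact one_div_le_one_div_of_le (lt_of_lt_of_le ht2 (le_max_right s t2))
    (max_le_max hs le_rfl)

lemma hL_zero (ht1 : 0 < t1) {s : ℝ} (hs : t1 ≤ s) : hL L t1 t2 s = 0 := by
  unfold hL
  have h1 : 1 / max s t2 ≤ 1 / t1 := one_div_le_one_div_of_le ht1 (hs.trans (le_max_left s t2))
  rw [max_eq_right (by linarith), mul_zero]

lemma hL_le (hL0 : 0 < L) (ht1 : 0 < t1) (ht2 : 0 < t2) (s : ℝ) :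
    hL L t1 t2 s ≤ L⁻¹ * (1 / max s t2) := by
  unfold hL
  refine mul_le_mul_of_nonneg_left ?_ (inv_pos.mpr hL0).le
  have h1 : 0 < 1 / max s t2 := one_div_pos.mpr (lt_of_lt_of_le ht2 (le_max_right s t2))
  have h2 : 0 < 1 / t1 := one_div_pos.mpr ht1
  exact max_le (by linarith) h1.le

lemma hL_bound (hL0 : 0 < L) (ht1 : 0 < t1) (ht2 : 0 < t2) (s : ℝ) :
    hL L t1 t2 s ≤ L⁻¹ * (1 / t2) :=
  (hL_le hL0 ht1 ht2 s).trans (mul_le_mul_of_nonneg_left
    (one_div_le_one_div_of_le ht2 (le_max_right s t2)) (inv_pos.mpr hL0).le)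

lemma hL_mul (hL0 : 0 < L) (ht1 : 0 < t1) (ht2 : 0 < t2) (s : ℝ) :
    hL L t1 t2 s * s ≤ 1 / L := by
  rcases le_or_gt s 0 with hs | hs
  · have h1 := mul_nonneg (hL_nonneg (t1 := t1) (t2 := t2) hL0 s) (neg_nonneg.mpr hs)
    have h2 : 0 < 1 / L := one_div_pos.mpr hL0
    nlinarith
  · have h1 := mul_le_mul_of_nonneg_right (hL_le hL0 ht1 ht2 s) hs.le
    refine h1.trans ?_
    have h2 : (1 / max s t2) * s ≤ 1 := by
      rw [one_div_mul_eq_div, div_le_one (lt_of_lt_of_le hs (le_max_left s t2))]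
      exact le_max_left s t2
    rw [mul_assoc]
    calc L⁻¹ * (1 / max s t2 * s) ≤ L⁻¹ * 1 :=
          mul_le_mul_of_nonneg_left h2 (inv_pos.mpr hL0).le
      _ = 1 / L := by rw [mul_one, one_div]

lemma hL_int (hL0 : 0 < L) (ht1 : 0 < t1) (ht2 : t2 = t1 * Real.exp (-(L + 1))) :
    1 ≤ ∫ s in Set.Ioi (0 : ℝ), hL L t1 t2 s := by
  have ht2p : 0 < t2 := by
    rw [ht2]
    positivity
  have ht21 : t2 ≤ t1 := by
    rw [ht2]
    have h1 : Real.exp (-(L + 1)) ≤ 1 := Real.exp_le_one_iff.mpr (by linarith)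
    nlinarith
  have hint : IntegrableOn (hL L t1 t2) (Set.Ioi (0 : ℝ)) := by
    have h1 : IntegrableOn (hL L t1 t2) (Set.Icc 0 t1) :=
      (hL_cont ht2p).continuousOn.integrableOn_compact isCompact_Icc
    refine h1.of_forall_sdiff_eq_zero measurableSet_Ioi ?_
    rintro s ⟨hs1, hs2⟩
    refine hL_zero ht1 ?_
    by_contra h3
    exact hs2 ⟨(Set.mem_Ioi.mp hs1).le, (not_le.mp h3).le⟩
  have hle : ∫ s in Set.Ioc t2 t1, hL L t1 t2 s ≤ ∫ s in Set.Ioi (0 : ℝ), hL L t1 t2 s := by
    refine setIntegral_mono_set hint ?_ ?_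
    · exact Filter.Eventually.of_forall fun s => hL_nonneg hL0 s
    · exact Filter.Eventually.of_forall fun s hs => lt_trans ht2p hs.1
  refine le_trans ?_ hle
  have hval : ∫ s in Set.Ioc t2 t1, hL L t1 t2 s =
      L⁻¹ * ((L + 1) - (t1 - t2) / t1) := by
    rw [← intervalIntegral.integral_of_le ht21]
    have h1 : ∫ s in t2..t1, hL L t1 t2 s = ∫ s in t2..t1, L⁻¹ * (1 / s - 1 / t1) := by
      refine intervalIntegral.integral_congr fun s hs => ?_
      rw [Set.uIcc_of_le ht21] at hs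
      have hs0 : 0 < s := lt_of_lt_of_le ht2p hs.1
      change L⁻¹ * max (1 / max s t2 - 1 / t1) 0 = L⁻¹ * (1 / s - 1 / t1)
      rw [max_eq_left hs.1, max_eq_left]
      rw [sub_nonneg]
      exact one_div_le_one_div_of_le hs0 hs.2
    have h0 : (0 : ℝ) ∉ Set.uIcc t2 t1 := by
      rw [Set.uIcc_of_le ht21]
      intro h
      exact absurd h.1 (not_le.mpr ht2p)
    rw [h1, intervalIntegral.integral_const_mul, intervalIntegral.integral_sub
      (intervalIntegral.intervalIntegrable_one_div (fun s hs h => h0 (h ▸ hs)) continuousOn_id)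
      intervalIntegrable_const, integral_one_div h0, intervalIntegral.integral_const,
      smul_eq_mul]
    have h2 : Real.log (t1 / t2) = L + 1 := by
      rw [ht2, ← div_div, div_self ht1.ne', one_div, ← Real.exp_neg, neg_neg, Real.log_exp]
    rw [h2]
    ring
  rw [hval]
  have h1 : (t1 - t2) / t1 ≤ 1 := by
    rw [div_le_one ht1]
    linarith
  have h2 : L⁻¹ * L ≤ L⁻¹ * ((L + 1) - (t1 - t2) / t1) :=
    mul_le_mul_of_nonneg_left (by linarith) (inv_pos.mpr hL0).le
  rwa [inv_mul_cancel₀ hL0.ne'] at h2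

lemma isOpen_obox (z0 : E3) (r e : ℝ) : IsOpen (obox z0 r e) := by
  have hc : ∀ i : Fin 3, Continuous fun z : E3 => |z i - z0 i| := fun i => by fun_prop
  exact ((isOpen_lt (hc 0) continuous_const).inter
    ((isOpen_lt (hc 1) continuous_const).inter (isOpen_lt (hc 2) continuous_const)))

lemma obox_subset_box (z0 : E3) (r e : ℝ) : obox z0 r e ⊆ box z0 r e :=
  fun _ hz => ⟨hz.1.le, hz.2.1.le, hz.2.2.le⟩

lemma pt_mem {z0 : E3} {r e a b s : ℝ} (ha : a ∈ Set.Ioo (z0 0 - r) (z0 0 + r))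
    (hb : b ∈ Set.Ioo (z0 1 - r) (z0 1 + r)) (hs : s ∈ Set.Ioo (z0 2 - e) (z0 2 + e)) :
    pt a b s ∈ obox z0 r e := by
  have h : ∀ x y t : ℝ, x ∈ Set.Ioo (y - t) (y + t) → |x - y| < t := fun x y t hx =>
    abs_lt.mpr ⟨by linarith [hx.1], by linarith [hx.2]⟩
  exact ⟨h _ _ _ ha, h _ _ _ hb, h _ _ _ hs⟩

lemma cint_congr {g : TensorField} {W : E3 → ℝ} {Φ : E3 → E3} {z0 : E3} {r e s : ℝ}
    {F F' : E3 → ℝ} (hs : s ∈ Set.Ioo (z0 2 - e) (z0 2 + e))
    (h : ∀ x ∈ Φ '' obox z0 r e, F x = F' x) :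
    cint g W Φ z0 r F s = cint g W Φ z0 r F' s := by
  unfold cint
  refine setIntegral_congr_fun measurableSet_Ioo fun a ha => ?_
  refine setIntegral_congr_fun measurableSet_Ioo fun b hb => ?_
  rw [h _ ⟨_, pt_mem ha hb hs, rfl⟩]

lemma cint_bound {g : TensorField} {W : E3 → ℝ} {Φ : E3 → E3} {z0 : E3} {r e s B C : ℝ}
    (hr : 0 < r) {F : E3 → ℝ} (hs : s ∈ Set.Ioo (z0 2 - e) (z0 2 + e))
    (hF : ∀ x, |F x| ≤ B) (hJ : ∀ z ∈ obox z0 r e, |jac g W Φ z| ≤ C) :
    |cint g W Φ z0 r F s| ≤ B * C * (2 * r) * (2 * r) := by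
  have hvol : ∀ y : ℝ, volume.real (Set.Ioo (y - r) (y + r)) = 2 * r := by
    intro y
    rw [Measure.real, Real.volume_Ioo, ENNReal.toReal_ofReal (by linarith)]
    ring
  have hfin : ∀ y : ℝ, volume (Set.Ioo (y - r) (y + r)) < ⊤ := fun y => by
    rw [Real.volume_Ioo]
    exact ENNReal.ofReal_lt_top
  unfold cint
  have h1 : ∀ a ∈ Set.Ioo (z0 0 - r) (z0 0 + r),
      ‖∫ b in Set.Ioo (z0 1 - r) (z0 1 + r), F (Φ (pt a b s)) * jac g W Φ (pt a b s)‖ ≤
        B * C * (2 * r) := by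
    intro a ha
    rw [← hvol (z0 1)]
    refine norm_setIntegral_le_of_norm_le_const (hfin _) fun b hb => ?_
    rw [Real.norm_eq_abs, abs_mul]
    exact mul_le_mul (hF _) (hJ _ (pt_mem ha hb hs)) (abs_nonneg _)
      ((abs_nonneg _).trans (hF (Φ (pt a b s))))
  have h2 := norm_setIntegral_le_of_norm_le_const (hfin (z0 0)) h1
  rw [hvol (z0 0), Real.norm_eq_abs] at h2
  exact h2

/-- A function that is continuous on an open set, extended by zero. -/
lemma meas_ind {S : Set E3} (hS : IsOpen S) {f : E3 → ℝ} (hf : ContinuousOn f S) :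
    Measurable (S.indicator f) := by
  classical
  have h1 := hf.measurable_piecewise (continuousOn_const (c := (0 : ℝ)) (s := Sᶜ))
    hS.measurableSet
  exact h1

end CONC

open CONC in
/-- The curvature is, up to weak divergences, a bounded multiple of functions concentrated near
the pole. -/
theorem CONC (hSMO : Stmt_SMO) (hCHX : Stmt_CHX) (hPOLE : Stmt_POLE) (hLOW : Stmt_LOW)
    (hCL : Stmt_CL) (hCONN : Stmt_CONN) (hNULL : Stmt_NULL) : Stmt_CONC := by
  classical
  intro V a b g W hF Φ z0 r e hch hpre t1 hsep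
  obtain ⟨ha, hb, -, hsubV, hopen, -, -, -, cj, Cj, hcj, hCj, hjac, -⟩ :=
    hCHX V a b g W hF Φ z0 r e hch
  have hr := hch.r_pos
  have he := hch.e_pos
  set τ : ℝ := -(r / 2) with hτ
  have hτr : |τ| < r := by
    rw [hτ, abs_neg, abs_of_pos (by linarith)]
    linarith
  set O : Set E3 := Φ '' obox z0 r e with hO
  have hOo : IsOpen O := hopen _ (isOpen_obox z0 r e) le_rfl
  have hOV : O ⊆ V := (Set.image_mono (obox_subset_box z0 r e)).trans hsubV
  have hrp : ContinuousOn (rp g W Φ z0 τ) O :=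
    (hPOLE V a b g W hF Φ z0 r e hch τ hτr).1.continuousOn
  obtain ⟨c, tL, hc, htL, hlow⟩ := hLOW V a b g W hF Φ z0 r e hch τ hτr
  have ht1 : 0 < t1 := hsep.1
  set t' : ℝ := min tL (t1 / 2) with ht'
  have ht'0 : 0 < t' := lt_min htL (by linarith)
  -- the concentrated functions
  let t2 : ℝ → ℝ := fun L => t' * Real.exp (-(L + 1))
  have ht2 : ∀ L, 0 < t2 L := fun L => mul_pos ht'0 (Real.exp_pos _)
  let β : ℝ → E3 → ℝ := fun L => O.indicator fun x => hL L t' (t2 L) (rp g W Φ z0 τ x)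
  have hβin : ∀ L, ∀ x ∈ O, β L x = hL L t' (t2 L) (rp g W Φ z0 τ x) := fun L x hx =>
    Set.indicator_of_mem hx _
  have hβout : ∀ L, ∀ x, x ∉ O → β L x = 0 := fun L x hx => Set.indicator_of_notMem hx _
  have hβ0 : ∀ L, 0 < L → ∀ x, 0 ≤ β L x := fun L hL0 x =>
    Set.indicator_nonneg (fun y _ => hL_nonneg hL0 _) x
  have hβle : ∀ L, 0 < L → ∀ x, |β L x| ≤ L⁻¹ * (1 / t2 L) := by
    intro L hL0 x
    rw [abs_of_nonneg (hβ0 L hL0 x)]
    by_cases hx : x ∈ O
    · rw [hβin L x hx]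
      exact hL_bound hL0 ht'0 (ht2 L) _
    · rw [hβout L x hx]
      exact mul_nonneg (inv_pos.mpr hL0).le (one_div_pos.mpr (ht2 L)).le
  have hβm : ∀ L, 0 < L → BddMeas (β L) := fun L hL0 =>
    ⟨meas_ind hOo ((hL_cont (ht2 L)).comp_continuousOn hrp), _, hβle L hL0⟩
  have hβc : ∀ L, 0 < L → ∀ s ∈ Set.Ioo (z0 2 - e) (z0 2 + e), c ≤ cint g W Φ z0 r (β L) s := by
    intro L hL0 s hs
    rw [cint_congr (F' := fun x => hL L t' (t2 L) (rp g W Φ z0 τ x)) hs (hβin L)]
    refine le_trans ?_ (hlow (hL L t' (t2 L)) (hL_cont (ht2 L)) (hL_nonneg hL0)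
      ((hL_anti hL0 (ht2 L)).antitoneOn _)
      (fun s hs => hL_zero ht'0 ((min_le_left _ _).trans hs)) s hs)
    have h1 := hL_int hL0 ht'0 (t2 := t2 L) rfl
    nlinarith
  have hβv : ∀ L, 0 < L → ∀ x, β L x ≠ 0 →
      x ∈ O ∧ rp g W Φ z0 τ x < t1 / 2 ∧ β L x * rp g W Φ z0 τ x ≤ 1 / L := by
    intro L hL0 x hx
    have hxO : x ∈ O := by
      by_contra h
      exact hx (hβout L x h)
    refine ⟨hxO, ?_, ?_⟩
    · by_contra h
      apply hx
      rw [hβin L x hxO]
      exact hL_zero ht'0 ((min_le_right _ _).trans (not_lt.mp h))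
    · rw [hβin L x hxO]
      exact hL_mul hL0 ht'0 (ht2 L) _
  -- the curvature
  have hsl : IsOpen (slab V W (z0 2 - e) (z0 2 + e)) := isOpen_slab hF _ _
  have hcurv : ContinuousOn (curv g W) V := by
    intro x hx
    obtain ⟨_, _, _, _, _, _, _, _, _, _, _, h12, _⟩ := hSMO.2 g W x (hSMO.1 V a b g W hF x hx)
    exact h12.continuousAt.continuousWithinAt
  have hKm : BddMeas (Set.indicator (slab V W (z0 2 - e) (z0 2 + e)) (curv g W)) := by
    refine ⟨meas_ind hsl (hcurv.mono (slab_subset _ _)), ?_⟩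
    obtain ⟨B, hB⟩ := (hF.proper _ _ ha hb).exists_bound_of_continuousOn
      (hcurv.mono (cslab_subset _ _))
    refine ⟨max B 0, fun x => ?_⟩
    by_cases hx : x ∈ slab V W (z0 2 - e) (z0 2 + e)
    · rw [Set.indicator_of_mem hx]
      exact (hB x (slab_subset_cslab _ _ hx)).trans (le_max_left _ _)
    · rw [Set.indicator_of_notMem hx, abs_zero]
      exact le_max_right _ _
  -- the leaf is connected
  obtain ⟨e1, he1, he1e, hconn⟩ := hCONN V a b g W hF Φ z0 r e hch hpre (β 1) c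
    (hβm 1 one_pos) (hβout 1) (hβ0 1 one_pos) hc (hβc 1 one_pos)
  obtain ⟨γK, ⟨hγKm, BK, hγKb⟩, hnK⟩ := hconn _ hKm
  -- bound for the chart integral of `β 1`
  have hjb : ∀ z ∈ obox z0 r e, |jac g W Φ z| ≤ Cj := by
    intro z hz
    have h1 := hjac z (obox_subset_box z0 r e hz)
    rw [abs_of_nonneg (hcj.le.trans h1.1)]
    exact h1.2.1
  set M : ℝ := (1 : ℝ)⁻¹ * (1 / t2 1) * Cj * (2 * r) * (2 * r) with hM
  have hM0 : 0 ≤ M := by
    have := ht2 1
    positivity
  have hBK : 0 ≤ BK := (abs_nonneg _).trans (hγKb 0)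
  refine ⟨e1, BK * (M / c) + 1, he1, he1e, by positivity, fun L hL0 => ?_⟩
  obtain ⟨γL, hγLm, hγLb, hnL⟩ := hCL V a b g W hF Φ z0 r e hch (β 1) (β L) c M
    (hβm 1 one_pos) (hβm L hL0) (fun x hx => ⟨hβout 1 x hx, hβout L x hx⟩) (hβ0 L hL0) hc hM0
    (hβc L hL0) (fun s hs => cint_bound hr hs (hβle 1 one_pos) hjb)
  refine ⟨β L, fun s => γK s * γL s, hβm L hL0, hβ0 L hL0, hγKm.mul hγLm, ?_, hβv L hL0, ?_⟩
  · intro s
    rw [abs_mul]
    have h1 := mul_le_mul (hγKb s) (hγLb s) (abs_nonneg _) hBK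
    linarith
  -- combination of the two relations
  obtain ⟨hadd, -, -, -⟩ := hNULL V a b g W hF (z0 2) e1 he1 (by linarith) (by linarith)
  obtain ⟨-, hmul, -, -⟩ := hNULL V a b g W hF (z0 2) e1 he1 (by linarith) (by linarith)
  obtain ⟨-, -, hres, -⟩ := hNULL V a b g W hF (z0 2) e he ha hb
  have hWm : Measurable (O.indicator W) := meas_ind hOo (hF.continuousOn.mono hOV)
  have hprod : ∀ (γ : ℝ → ℝ) (B : ℝ), Measurable γ → (∀ s, |γ s| ≤ B) → 0 ≤ B → ∀ L', 0 < L' →
      BddMeas (fun x => γ (W x) * β L' x) := by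
    intro γ B hγ hγB hB0 L' hL'
    constructor
    · have h1 : (fun x => γ (W x) * β L' x) = fun x => γ (O.indicator W x) * β L' x := by
        funext x
        by_cases hx : x ∈ O
        · rw [Set.indicator_of_mem hx]
        · rw [hβout L' x hx, mul_zero, mul_zero]
      rw [h1]
      exact (hγ.comp hWm).mul (hβm L' hL').1
    · refine ⟨B * (L'⁻¹ * (1 / t2 L')), fun x => ?_⟩
      rw [abs_mul]
      exact mul_le_mul (hγB _) (hβle L' hL' x) (abs_nonneg _) hB0
  have hsub : ∀ f1 f2 : E3 → ℝ, BddMeas f1 → BddMeas f2 → BddMeas (fun x => f1 x - f2 x) := by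
    rintro f1 f2 ⟨h1, B1, h1'⟩ ⟨h2, B2, h2'⟩
    refine ⟨h1.sub h2, B1 + B2, fun x => ?_⟩
    exact (abs_sub _ _).trans (add_le_add (h1' x) (h2' x))
  have hMc : 0 ≤ M / c := div_nonneg hM0 hc.le
  have b1 := hprod γK BK hγKm hγKb hBK 1 one_pos
  have b2 := hprod γL (M / c) hγLm hγLb hMc L hL0
  have b3 := hsub _ _ hKm b1
  have b4 := hsub _ _ (hβm 1 one_pos) b2
  have n1 := hres _ e1 b4 he1 he1e hnL
  have n2 := hmul _ γK b4 ⟨hγKm, BK, hγKb⟩ n1
  have b5 : BddMeas (fun x => γK (W x) * (β 1 x - γL (W x) * β L x)) := by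
    constructor
    · have h1 : (fun x => γK (W x) * (β 1 x - γL (W x) * β L x)) =
          fun x => γK (O.indicator W x) * (β 1 x - γL (W x) * β L x) := by
        funext x
        by_cases hx : x ∈ O
        · rw [Set.indicator_of_mem hx]
        · rw [hβout 1 x hx, hβout L x hx, mul_zero, sub_zero, mul_zero, mul_zero]
      rw [h1]
      exact (hγKm.comp hWm).mul b4.1
    · obtain ⟨B4, hB4⟩ := b4.2
      refine ⟨BK * B4, fun x => ?_⟩
      rw [abs_mul]
      exact mul_le_mul (hγKb _) (hB4 x) (abs_nonneg _) hBK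
  have n3 := hadd _ _ b3 b5 hnK n2
  have hfin : (fun x => Set.indicator (slab V W (z0 2 - e) (z0 2 + e)) (curv g W) x -
      γK (W x) * β 1 x + γK (W x) * (β 1 x - γL (W x) * β L x)) =
      fun x => Set.indicator (slab V W (z0 2 - e) (z0 2 + e)) (curv g W) x -
        γK (W x) * γL (W x) * β L x := by
    funext x
    ring
  rw [hfin] at n3
  exact n3

end Pool.Agent.PFlow.GB


end

section

/-!
# ABSW: Willmore's inequality in the flat region
-/

open MeasureTheory Filter Topology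
open scoped ContDiff ENNReal

namespace Pool.Agent.PFlow

open Pool.Agent.PenroseSph

namespace EABSW

lemma isOpen_Ann (a b : ℝ) : IsOpen (Ann a b) := by
  have h1 : IsOpen {x : E3 | a < ‖x‖} := isOpen_lt continuous_const continuous_norm
  have h2 : IsOpen {x : E3 | ‖x‖ < b} := isOpen_lt continuous_norm continuous_const
  exact h1.inter h2

lemma h2On_mono {U V : Set E3} {w : E3 → ℝ} {G : E3 → Cov} {M : E3 → Bil} (hUV : V ⊆ U)
    (h : H2On U w G M) : H2On V w G M where
  cont := h.cont.mono hUV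
  memG := fun K hK hKV => h.memG K hK (hKV.trans hUV)
  memM := fun K hK hKV => h.memM K hK (hKV.trans hUV)
  approx := fun K hK hKV => h.approx K hK (hKV.trans hUV)

/-! ### The flat metric -/

lemma ev_one (p q : Cov) : ev 1 p q = ∑ i, p i * q i := by
  unfold ev
  refine Finset.sum_congr rfl fun i _ => ?_
  rw [Finset.sum_eq_single i]
  · rw [Matrix.one_apply_eq, one_mul]
  · intro j _ hj
    rw [Matrix.one_apply_ne (Ne.symm hj), zero_mul, zero_mul]
  · intro h
    exact absurd (Finset.mem_univ i) h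

lemma len_flat {g : TensorField} {x : E3} (hg : g x = 1) (p : Cov) : len g x p = vn p := by
  rw [len, hg, inv_one, ev_one, vn, vsq]
  congr 1
  refine Finset.sum_congr rfl fun i _ => ?_
  ring

lemma raise_flat {g : TensorField} {x : E3} (hg : g x = 1) (p : Cov) : raise g x p = p := by
  funext i
  rw [raise, hg, inv_one, Finset.sum_eq_single i]
  · rw [Matrix.one_apply_eq, one_mul]
  · intro j _ hj
    rw [Matrix.one_apply_ne (Ne.symm hj), zero_mul]
  · intro h
    exact absurd (Finset.mem_univ i) h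

lemma trg_flat {g : TensorField} {x : E3} (hg : g x = 1) (B : Bil) :
    trg g x B = ∑ i, B i i := by
  rw [trg, hg, inv_one]
  refine Finset.sum_congr rfl fun i _ => ?_
  rw [Finset.sum_eq_single i]
  · rw [Matrix.one_apply_eq, one_mul]
  · intro j _ hj
    rw [Matrix.one_apply_ne (Ne.symm hj), zero_mul]
  · intro h
    exact absurd (Finset.mem_univ i) h

lemma ev_smul (B : Bil) (c : ℝ) (p : Cov) :
    ev B (fun i => p i / c) (fun i => p i / c) = ev B p p / c ^ 2 := by
  unfold ev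
  rw [Finset.sum_div]
  refine Finset.sum_congr rfl fun i _ => ?_
  rw [Finset.sum_div]
  refine Finset.sum_congr rfl fun j _ => ?_
  show B i j * (p i / c) * (p j / c) = B i j * p i * p j / c ^ 2
  rw [div_eq_mul_inv, div_eq_mul_inv, div_eq_mul_inv, ← inv_pow]
  ring

lemma vsq_nonneg (p : Cov) : 0 ≤ vsq p := Finset.sum_nonneg fun i _ => sq_nonneg _

lemma vn_sq (p : Cov) : vn p ^ 2 = vsq p := Real.sq_sqrt (vsq_nonneg p)

lemma btan_flat {g : TensorField} {x : E3} (hg : g x = 1) (p : Cov) (B : Bil) :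
    btan g x p B = (∑ i, B i i) - ev B p p / vsq p := by
  rw [btan, trg_flat hg, bnn]
  have h : nrm g x p = fun i => p i / vn p := by
    funext i
    rw [nrm, raise_flat hg, len_flat hg]
  rw [h, ev_smul, vn_sq]

lemma volDen_flat {g : TensorField} {x : E3} (hg : g x = 1) : volDen g x = 1 := by
  rw [volDen, hg, Matrix.det_one, Real.sqrt_one]

lemma chr_flat {g : TensorField} {x : E3} (hg : ∀ᶠ y in 𝓝 x, g y = 1) (k i j : Fin 3) :
    christoffel g k i j x = 0 := by
  have h : ∀ l a b : Fin 3, pd l (fun y => g y a b) x = 0 := by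
    intro l a b
    have h1 : (fun y => g y a b) =ᶠ[𝓝 x] fun _ => (1 : Bil) a b := by
      filter_upwards [hg] with y hy
      rw [hy]
    rw [pd, h1.fderiv_eq, fderiv_fun_const]
    rfl
  rw [christoffel]
  simp only [h]
  simp

lemma cHess_flat {g : TensorField} {x : E3} (hg : ∀ᶠ y in 𝓝 x, g y = 1) (p : Cov) (M : Bil) :
    cHess g x p M = M := by
  ext i j
  rw [cHess, Matrix.of_apply]
  simp only [chr_flat hg]
  simp

/-! ### The test function -/

lemma support_bounds {ψ : ℝ → ℝ} {s₀ s₁ : ℝ} (hs : s₀ < s₁) (hc : HasCompactSupport ψ)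
    (ht : tsupport ψ ⊆ Set.Ioo s₀ s₁) :
    ∃ s s', s₀ < s ∧ s < s' ∧ s' < s₁ ∧ ∀ t, ψ t ≠ 0 → s ≤ t ∧ t ≤ s' := by
  rcases (tsupport ψ).eq_empty_or_nonempty with h | h
  · refine ⟨s₀ + (s₁ - s₀) / 3, s₀ + 2 * (s₁ - s₀) / 3, by linarith, by linarith, by linarith, ?_⟩
    intro t h1
    have h2 : t ∈ tsupport ψ := subset_tsupport _ h1
    rw [h] at h2
    exact absurd h2 (Set.notMem_empty t)
  · obtain ⟨u, hu, hu'⟩ := hc.isCompact.exists_isLeast h
    obtain ⟨v, hv, hv'⟩ := hc.isCompact.exists_isGreatest h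
    have h1 := ht hu
    have h2 := ht hv
    have huv : u ≤ v := hu' hv
    refine ⟨(s₀ + u) / 2, (v + s₁) / 2, by linarith [h1.1], by linarith [h1.1, h2.2],
      by linarith [h2.2], ?_⟩
    intro t h3
    have h4 : t ∈ tsupport ψ := subset_tsupport _ h3
    exact ⟨by linarith [hu' h4, h1.1], by linarith [hv' h4, h2.2]⟩

lemma integrable_test {P : Par} {D : Dat} {f : E3 → ℝ} (hf : LvlInt P D f)
    (hw : Measurable (D.w P)) {ψ : ℝ → ℝ} (hψ : Continuous ψ) (hc : HasCompactSupport ψ)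
    {s s' : ℝ} (h1 : D.sb P / 4 < s) (h2 : s < s') (h3 : s' < D.sM P)
    (h4 : ∀ t, ψ t ≠ 0 → s ≤ t ∧ t ≤ s') :
    IntegrableOn (fun x => ψ (D.w P x) * f x) D.Om := by
  obtain ⟨C, hC⟩ := hc.exists_bound_of_continuous hψ
  have hOm : MeasurableSet D.Om := (isOpen_Ann _ _).measurableSet
  have h5 : IntegrableOn (fun x => ψ (D.w P x) * f x)
      (D.Om ∩ {x | s ≤ D.w P x ∧ D.w P x ≤ s'}) := by
    refine Integrable.bdd_mul (c := C) (hf s s' h1 h2 h3) ?_ ?_
    · exact (hψ.measurable.comp hw).aestronglyMeasurable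
    · exact Eventually.of_forall fun x => hC _
  refine h5.of_forall_sdiff_eq_zero hOm fun x hx => ?_
  have : ψ (D.w P x) = 0 := by
    by_contra h
    exact hx.2 ⟨hx.1, h4 _ h⟩
  rw [this, zero_mul]

end EABSW

open EABSW in
/-- ABSW: Willmore's inequality in the flat region. -/
theorem ABSW (hSETW : Stmt_SETW) (hABSI : Stmt_ABSI) (hW : Stmt_W) (hPTD : Stmt_PTD)
    (hHSYM : Stmt_HSYM) (hINT : Stmt_INT) : Stmt_ABSW := by
  intro P D hS ψ hψ hψ0 hψc hψt
  obtain ⟨hmet, hten, htwo, hH2, hEq, -, hwm, -, hSep, -, h4l, -, -, -, -, hsb0, hsb1, -, hs2,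
    hs2M, hKlR, h4Kl⟩ := hSETW P D hS
  obtain ⟨-, -, iPhi, iDi, -, -, -, -⟩ := hABSI P D hS
  have hl := hS.l_ge
  have hR : 8 * D.l ≤ D.R := by linarith
  have hRpos : 0 < D.R := by linarith
  have hε0 := hS.eps_pos
  have hε1 := hS.eps_le
  have hlt : D.s2 P < D.sM P := by linarith [hS.gam_pos]
  set U : Set E3 := Ann (2 * D.l) D.R with hU
  have hUo : IsOpen U := isOpen_Ann _ _
  have hOo : IsOpen D.Om := isOpen_Ann _ _
  have hUO : U ⊆ D.Om := by
    intro x hx
    refine ⟨?_, hx.2⟩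
    have h1 : 1 / D.R ≤ 1 := by
      rw [div_le_one hRpos]
      linarith
    have h2 : 2 * D.l < ‖x‖ := hx.1
    linarith
  have hflat : ∀ x ∈ U, D.g' x = 1 := fun x hx => hS.modified.flat x hx.1.le
  have hflat' : ∀ x ∈ U, ∀ᶠ y in 𝓝 x, D.g' y = 1 := fun x hx => by
    filter_upwards [hUo.mem_nhds hx] with y hy
    exact hflat y hy
  have hh0 : ∀ x ∈ U, D.h' x = 0 := fun x hx => hS.modified.supp x (by
    have : 2 * D.l < ‖x‖ := hx.1
    linarith)
  -- Willmore's inequality
  have hEqU : ∀ᵐ x ∂(volume.restrict U),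
      (D.Gw P x ≠ 0 → beps P.eps D.g' x (D.Gw P x) (cHess D.g' x (D.Gw P x) (D.Mw P x))
        = len D.g' x (D.Gw P x) ^ 2
          + len D.g' x (D.Gw P x) * beps P.eps D.g' x (D.Gw P x) (D.h' x)) ∧
      (D.Gw P x = 0 → D.Mw P x = 0) := ae_restrict_of_ae_restrict_of_subset hUO hEq
  have hmsq : ∀ K : Set E3, IsCompact K → K ⊆ U →
      IntegrableOn (fun x => msq (D.Mw P x) / vn (D.Gw P x)) K := by
    intro K hK hKU
    exact (hINT P.eps D.Om D.g' D.h' (D.w P) (D.Gw P) (D.Mw P) hε0 (by linarith) hOo hmet hten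
      hH2 hEq K hK (hKU.trans hUO)).2.2.2.1
  have hWil := hW (2 * D.l) D.R (D.s2 P) (D.sM P) (D.w P) (D.Gw P) (D.Mw P) (by linarith)
    (by linarith) hlt (h2On_mono hUO hH2) (hEqU.mono fun x hx => hx.2) hmsq hSep ψ hψ hψc hψt hψ0
  -- the pointwise inequality
  obtain ⟨C, hC0, hC⟩ := hPTD P.eps hε0 hε1
  have hsym := ae_restrict_of_ae_restrict_of_subset hUO (hHSYM D.Om (D.w P) (D.Gw P) (D.Mw P)
    hOo hH2)
  have hlam : 0 < lam P.eps := by
    unfold lam
    have : 0 < 2 - P.eps := by linarith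
    have : 0 < 4 - P.eps := by linarith
    positivity
  have hpt : ∀ᵐ x ∂(volume.restrict U), (2 - P.eps) / 4 * Wd (D.Gw P x) (D.Mw P x) ≤
      D.Phi P x * D.vol x + 1 / lam P.eps * (D.Di P x * D.vol x) := by
    rw [ae_restrict_iff' hUo.measurableSet] at hEqU hsym ⊢
    filter_upwards [hEqU, hsym] with x hx hsx hxU
    have hx := hx hxU
    have hsx := hsx hxU
    have hv : D.vol x = 1 := volDen_flat (hflat x hxU)
    rw [hv, mul_one, mul_one]
    by_cases hp : D.Gw P x = 0
    · have hM := hx.2 hp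
      have h1 : Wd (D.Gw P x) (D.Mw P x) = 0 := by
        rw [hp, hM, Wd]
        have h2 : vn (0 : Cov) = 0 := by simp [vn, vsq]
        rw [h2, div_zero]
      have h2 : len D.g' x (D.Gw P x) = 0 := by
        rw [hp, len_flat (hflat x hxU)]
        simp [vn, vsq]
      have h3 : D.Phi P x = 0 := by
        show flux P.eps D.g' D.h' x (D.Gw P x) (D.Mw P x) = 0
        rw [flux, h2, hh0 x hxU]
        simp [ev, trg]
      have h4 : D.Di P x = 0 := by
        show len D.g' x (D.Gw P x) * _ = 0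
        rw [h2, zero_mul]
      rw [h1, h3, h4]
      simp
    · have h1 := hC D.g' D.h' x (D.Gw P x) (D.Mw P x) (hmet.posDef x (hUO hxU))
        (hten.symm x (hUO hxU)) hsx
        (fun k i j => by rw [chr_flat (hflat' x hxU), chr_flat (hflat' x hxU)]) hp
        (htwo x (hUO hxU)) (hx.1 hp)
      obtain ⟨-, -, h2⟩ := h1
      obtain ⟨h3, h4⟩ := h2 (hh0 x hxU)
      have h5 : btan D.g' x (D.Gw P x) (cHess D.g' x (D.Gw P x) (D.Mw P x)) ^ 2
          / len D.g' x (D.Gw P x) = Wd (D.Gw P x) (D.Mw P x) := by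
        rw [cHess_flat (hflat' x hxU), btan_flat (hflat x hxU), len_flat (hflat x hxU), Wd]
      have h6 : D.Phi P x = flux P.eps D.g' D.h' x (D.Gw P x) (D.Mw P x) := rfl
      have h7 : D.Di P x = len D.g' x (D.Gw P x) *
        diss P.eps D.g' D.h' x (D.Gw P x) (D.Mw P x) := rfl
      rw [h6, h3, h5, h7]
      linarith
  -- integrability
  obtain ⟨s, s', hs, hss', hs', hsup⟩ := support_bounds hlt hψc hψt
  have hsb : D.sb P / 4 < s := by linarith
  have j1 := integrable_test iPhi hwm hψ hψc hsb hss' hs' hsup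
  have j2 := integrable_test iDi hwm hψ hψc hsb hss' hs' hsup
  have hzero : ∀ f : E3 → ℝ, ∫ x in D.Om, ψ (D.w P x) * f x = ∫ x in U, ψ (D.w P x) * f x := by
    intro f
    refine (setIntegral_eq_of_subset_of_forall_sdiff_eq_zero hOo.measurableSet hUO
      fun x hx => ?_)
    have h0 : ψ (D.w P x) = 0 := by
      by_contra h
      have h1 := (hsup _ h).1
      have h2 := h4l x hx.1 (by linarith)
      refine hx.2 ⟨?_, hx.1.2⟩
      have : 4 * D.l ≤ ‖x‖ := h2
      linarith
    rw [h0, zero_mul]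
  have k1 : IntegrableOn (fun x => ψ (D.w P x) * (D.Phi P x * D.vol x)) U := j1.mono_set hUO
  have k2 : IntegrableOn (fun x => ψ (D.w P x) * (D.Di P x * D.vol x)) U := j2.mono_set hUO
  -- comparison of the integrals
  have hmono : ∫ x in U, (2 - P.eps) / 4 * (ψ (D.w P x) * Wd (D.Gw P x) (D.Mw P x)) ≤
      ∫ x in U, (ψ (D.w P x) * (D.Phi P x * D.vol x) +
        1 / lam P.eps * (ψ (D.w P x) * (D.Di P x * D.vol x))) := by
    refine integral_mono_of_nonneg ?_ (k1.add (k2.const_mul _)) ?_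
    · refine Eventually.of_forall fun x => ?_
      have h1 : 0 ≤ Wd (D.Gw P x) (D.Mw P x) := div_nonneg (sq_nonneg _) (Real.sqrt_nonneg _)
      have h2 : 0 ≤ (2 - P.eps) / 4 := by linarith
      exact mul_nonneg h2 (mul_nonneg (hψ0 _) h1)
    · filter_upwards [hpt] with x hx
      calc (2 - P.eps) / 4 * (ψ (D.w P x) * Wd (D.Gw P x) (D.Mw P x))
          = ψ (D.w P x) * ((2 - P.eps) / 4 * Wd (D.Gw P x) (D.Mw P x)) := by ring
        _ ≤ ψ (D.w P x) * (D.Phi P x * D.vol x + 1 / lam P.eps * (D.Di P x * D.vol x)) :=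
            mul_le_mul_of_nonneg_left hx (hψ0 _)
        _ = _ := by ring
  have hR1 : ∫ x in U, (ψ (D.w P x) * (D.Phi P x * D.vol x) +
        1 / lam P.eps * (ψ (D.w P x) * (D.Di P x * D.vol x))) =
      (∫ x in U, ψ (D.w P x) * (D.Phi P x * D.vol x)) +
        1 / lam P.eps * ∫ x in U, ψ (D.w P x) * (D.Di P x * D.vol x) := by
    rw [← integral_const_mul]
    exact integral_add k1 (k2.const_mul _)
  rw [integral_const_mul, hR1] at hmono
  have e1 : ∫ x in D.Om, ψ (D.w P x) * D.Phi P x * D.vol x =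
      ∫ x in U, ψ (D.w P x) * (D.Phi P x * D.vol x) := by
    rw [← hzero]
    simp only [mul_assoc]
  have e2 : ∫ x in D.Om, ψ (D.w P x) * D.Di P x * D.vol x =
      ∫ x in U, ψ (D.w P x) * (D.Di P x * D.vol x) := by
    rw [← hzero]
    simp only [mul_assoc]
  rw [e1, e2]
  have h2 : 0 ≤ (2 - P.eps) / 4 := by linarith
  have h3 := mul_le_mul_of_nonneg_left hWil h2
  have h4 : (2 - P.eps) / 4 * (16 * Real.pi * ∫ s, ψ s) =
      4 * Real.pi * (2 - P.eps) * ∫ s, ψ s := by ring
  rw [h4] at h3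
  linarith

end Pool.Agent.PFlow


end

section

/-!
# MSIII: the inequality (iii) for the area
-/

open MeasureTheory Filter Topology
open scoped ContDiff ENNReal

namespace Pool.Agent.PFlow

open Pool.Agent.PenroseSph

namespace MSIIIaux

/-- The volume density is continuous away from the origin. -/
theorem continuousOn_volDen {g : TensorField} {U : Set E3} (hg : MetricOn U g) :
    ContinuousOn (volDen g) U := by
  have h1 : ContinuousOn (fun x => (g x).det) U := by
    have : ContinuousOn (fun x => g x) U := by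
      refine continuousOn_pi.2 fun i => continuousOn_pi.2 fun j => (hg.smooth i j).continuousOn
    exact (Continuous.matrix_det continuous_id).comp_continuousOn this
  exact h1.sqrt

/-- A closed annulus is compact. -/
theorem isCompact_cAnn (a b : ℝ) : IsCompact (cAnn a b) := by
  have h1 : IsClosed (cAnn a b) :=
    (isClosed_le continuous_const continuous_norm).inter
      (isClosed_le continuous_norm continuous_const)
  refine (isCompact_closedBall (0 : E3) b).of_isClosed_subset h1 fun x hx => ?_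
  rw [mem_closedBall_zero_iff]
  exact hx.2

end MSIIIaux

open MSIIIaux in
theorem MSIII (hSETW : Stmt_SETW) (hFLXA : Stmt_FLXA) (hHOLA : Stmt_HOLA) (hPER : Stmt_PER)
    (_hABSI : Stmt_ABSI) : Stmt_MSIII := by
  intro P B β hβ D hS hA ρ r hρ1 hρ2 hρ3 hr1 hr2 hloc
  obtain ⟨-, -, -, hH2, -, -, hwm, -, -, -, -, -, -, -, -, hsb0, hsb1, hsbe, hs2, hsM, -, -⟩ :=
    hSETW P D hS
  have he0 := hS.eps_pos
  have he1 := hS.eps_le
  have hgam := hS.gam_pos
  have hl := hS.l_ge
  have hk1 : 1 ≤ kE P.eps P.gam := by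
    unfold kE
    have : 1 ≤ Real.exp ((1 + 2 * P.gam) / (2 - P.eps)) :=
      Real.one_le_exp (div_nonneg (by linarith) (by linarith))
    linarith
  have hlR : D.l ≤ D.R := by
    have h1 : 1 ≤ kE P.eps P.gam ^ 4 := one_le_pow₀ hk1
    have h2 := hS.R_ge
    nlinarith
  have hsbs2 : D.sb P < D.s2 P := lt_of_le_of_lt hsb1 hs2
  have hs2M : D.s2 P + 1 < D.sM P := by linarith
  have hF := hFLXA P.eps β he0 he1 hβ _ _ _ _ _ _ _ _ _ _ _ _ hA hsb0 hsbs2 hs2M
  refine ⟨hF.1, ?_⟩
  intro s₀ s₁ A hs0 hs01 hs1 hAU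
  have hρ0 : 0 < ρ := by
    have : 0 < 1 / D.R := by
      have : 0 < D.R := by linarith
      positivity
    linarith
  have hρr : ρ < r := by linarith
  -- the perimeter inequality
  have hP := hPER D.g (D.w P) (D.Gw P) (D.Mw P) (1 / D.R) ρ r D.R s₀ s₁ hS.metric0
    (by have : 0 < D.R := by linarith
        positivity) hρ1 hρr (by linarith) hs01 hH2
    (fun x hx hxρ => lt_of_lt_of_le ((hloc x hx).1 hxρ) hs0)
    (fun x hx hxr => lt_of_le_of_lt hs1 ((hloc x hx).2 hxr)) A hAU
  set T : Set E3 := cAnn ρ r ∩ {x | s₀ ≤ D.w P x ∧ D.w P x ≤ s₁} with hT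
  have hcO : cAnn ρ r ⊆ D.Om := fun x hx => ⟨lt_of_lt_of_le hρ1 hx.1, by
    have := hx.2
    show ‖x‖ < D.R
    linarith⟩
  have hTO : D.Om ∩ {x | s₀ ≤ D.w P x ∧ D.w P x ≤ s₁} = T := by
    apply Set.Subset.antisymm
    · rintro x ⟨hxO, hx1, hx2⟩
      refine ⟨⟨?_, ?_⟩, hx1, hx2⟩
      · by_contra hc
        push Not at hc
        have := (hloc x hxO).1 hc.le
        linarith
      · by_contra hc
        push Not at hc
        have := (hloc x hxO).2 hc.le
        linarith
    · rintro x ⟨hxc, hx⟩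
      exact ⟨hcO hxc, hx⟩
  have hsame : ∀ x ∈ cAnn ρ r, D.g' x = D.g x := fun x hx =>
    hS.modified.same x (lt_of_lt_of_le hρ2 hx.1) (lt_of_le_of_lt hx.2 hr2)
  have hTm : MeasurableSet T := by
    rw [hT]
    exact (isCompact_cAnn ρ r).measurableSet.inter
      ((measurableSet_le measurable_const hwm).inter (measurableSet_le hwm measurable_const))
  have heq : ∫ x in T, len D.g x (D.Gw P x) * volDen D.g x = ∫ x in T, D.X P x * D.vol x := by
    refine setIntegral_congr_fun hTm fun x hx => ?_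
    simp only [Dat.X, Dat.vol, len, volDen]
    rw [hsame x hx.1]
  rw [heq] at hP
  -- integrability
  have hs0' : D.sb P / 4 < s₀ := by linarith
  have hs1' : s₁ < D.sM P := by linarith
  have hiv : IntegrableOn D.vol T := by
    have := hA.int_vol s₀ s₁ hs0' hs01 hs1'
    rwa [hTO] at this
  have hiX : IntegrableOn (fun x => D.X P x ^ 3 * D.vol x) T := by
    have := hA.int_X s₀ s₁ hs0' hs01 hs1'
    rwa [hTO] at this
  have hTsub : T ⊆ D.Om := fun x hx => hcO hx.1
  have hmX : AEStronglyMeasurable (D.X P) (volume.restrict T) :=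
    hA.meas_X.mono_measure (Measure.restrict_mono hTsub le_rfl)
  have hmXe : AEStronglyMeasurable (fun x => D.X P x ^ (1 + P.eps)) (volume.restrict T) := by
    have : Measurable fun t : ℝ => t ^ (1 + P.eps) := by fun_prop
    exact (this.comp_aemeasurable hmX.aemeasurable).aestronglyMeasurable
  have hiXe : IntegrableOn (fun x => D.X P x ^ (1 + P.eps) * D.vol x) T := by
    refine Integrable.mono' (hiv.add hiX) (hmXe.mul hiv.aestronglyMeasurable) ?_
    refine Filter.Eventually.of_forall fun x => ?_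
    have hX0 := hA.X_nonneg x
    have hv0 := hA.vol_nonneg x
    have h1 : D.X P x ^ (1 + P.eps) ≤ 1 + D.X P x ^ 3 := by
      rcases le_total (D.X P x) 1 with h | h
      · have h2 : D.X P x ^ (1 + P.eps) ≤ 1 := Real.rpow_le_one hX0 h (by linarith)
        have h3 : 0 ≤ D.X P x ^ 3 := pow_nonneg hX0 3
        linarith
      · have h2 : D.X P x ^ (1 + P.eps) ≤ D.X P x ^ (3 : ℝ) :=
          Real.rpow_le_rpow_of_exponent_le h (by linarith)
        have h3 : D.X P x ^ (3 : ℝ) = D.X P x ^ (3 : ℕ) := by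
          rw [← Real.rpow_natCast]; norm_num
        rw [h3] at h2
        linarith
    have h0 : 0 ≤ D.X P x ^ (1 + P.eps) * D.vol x := mul_nonneg (Real.rpow_nonneg hX0 _) hv0
    rw [Real.norm_eq_abs, abs_of_nonneg h0]
    calc D.X P x ^ (1 + P.eps) * D.vol x ≤ (1 + D.X P x ^ 3) * D.vol x :=
          mul_le_mul_of_nonneg_right h1 hv0
      _ = (D.vol + fun x => D.X P x ^ 3 * D.vol x) x := by
          simp only [Pi.add_apply]; ring
  -- the flux
  have hI : (∫ x in T, D.X P x ^ (1 + P.eps) * D.vol x)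
      ≤ jInf P.eps β D.Om D.vol (D.w P) (D.X P) (D.s2 P) * (Real.exp s₁ - Real.exp s₀) := by
    have := hF.2 s₀ s₁ hs0' hs01.le (by linarith)
    rwa [hTO] at this
  -- the volume
  have hV : (∫ x in T, D.vol x) ≤ ∫ x in cAnn ρ r, volDen D.g x := by
    have h1 : ∫ x in T, D.vol x = ∫ x in T, volDen D.g x := by
      refine setIntegral_congr_fun hTm fun x hx => ?_
      simp only [Dat.vol, volDen]
      rw [hsame x hx.1]
    rw [h1]
    refine setIntegral_mono_set ?_ ?_ ?_
    · refine ContinuousOn.integrableOn_compact (isCompact_cAnn ρ r) ?_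
      refine (continuousOn_volDen hS.metric0).mono fun x hx => ?_
      have h2 : 0 < ‖x‖ := lt_of_lt_of_le hρ0 hx.1
      exact norm_pos_iff.1 h2
    · exact Filter.Eventually.of_forall fun x => Real.sqrt_nonneg _
    · exact Filter.Eventually.of_forall fun x hx => hx.1
  have hH := hHOLA P.eps T D.vol (D.X P) _ _ he0 (by linarith) hTm hA.vol_nonneg hA.X_nonneg hiv
    hiXe hmX hI hV
  exact hP.trans hH.2

end Pool.Agent.PFlow


end

section

/-!
# (PER) The infimum of the areas is at most the mean area of the level sets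
-/

open MeasureTheory Filter Topology
open scoped ContDiff ENNReal

namespace Pool.Agent.PFlow

open Pool.Agent.PenroseSph

namespace PERm

lemma len_add_le {g : TensorField} {x : E3} (hg : (g x).PosDef) (p q : Cov) :
    len g x (fun i => p i + q i) ≤ len g x p + len g x q := by
  obtain ⟨Q, hQ⟩ := MCT.factor hg.inv.posSemidef
  have e : ∀ r : Cov, ev (g x)⁻¹ r r = ∑ m, (∑ i, Q m i * r i) ^ 2 := by
    intro r
    rw [MCT.ev_factor hQ]
    exact Finset.sum_congr rfl fun m _ => by ring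
  have hcs := Real.sum_mul_le_sqrt_mul_sqrt Finset.univ (fun m => ∑ i, Q m i * p i)
    (fun m => ∑ i, Q m i * q i)
  have hp : 0 ≤ ∑ m, (∑ i, Q m i * p i) ^ 2 := Finset.sum_nonneg fun _ _ => sq_nonneg _
  have hq : 0 ≤ ∑ m, (∑ i, Q m i * q i) ^ 2 := Finset.sum_nonneg fun _ _ => sq_nonneg _
  unfold len
  rw [e, e, e]
  apply Real.sqrt_le_iff.mpr
  refine ⟨by positivity, ?_⟩
  have h1 := Real.sq_sqrt hp
  have h2 := Real.sq_sqrt hq
  have h3 : ∑ m, (∑ i, Q m i * (p i + q i)) ^ 2
      = ∑ m, (∑ i, Q m i * p i) ^ 2 + ∑ m, (∑ i, Q m i * q i) ^ 2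
        + 2 * ∑ m, (∑ i, Q m i * p i) * (∑ i, Q m i * q i) := by
    rw [Finset.mul_sum, ← Finset.sum_add_distrib, ← Finset.sum_add_distrib]
    refine Finset.sum_congr rfl fun m _ => ?_
    simp only [mul_add, Finset.sum_add_distrib]
    ring
  rw [h3]
  nlinarith

lemma len_le {g : TensorField} {x : E3} {A : ℝ} (hA : 0 ≤ A)
    (hb : ∀ i j, |(g x)⁻¹ i j| ≤ A) (p : Cov) :
    len g x p ≤ Real.sqrt (3 * A) * ∑ i, |p i| := by
  have h1 : ev (g x)⁻¹ p p ≤ 3 * A * vsq p := (le_abs_self _).trans (MCT.ev_le hA hb p)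
  have h2 : vsq p ≤ (∑ i, |p i|) ^ 2 := by
    unfold vsq
    simp only [Fin.sum_univ_three]
    nlinarith [sq_abs (p 0), sq_abs (p 1), sq_abs (p 2), abs_nonneg (p 0), abs_nonneg (p 1),
      abs_nonneg (p 2), mul_nonneg (abs_nonneg (p 0)) (abs_nonneg (p 1)),
      mul_nonneg (abs_nonneg (p 0)) (abs_nonneg (p 2)),
      mul_nonneg (abs_nonneg (p 1)) (abs_nonneg (p 2))]
  unfold len
  have h0 : 0 ≤ ∑ i, |p i| := Finset.sum_nonneg fun _ _ => abs_nonneg _
  calc Real.sqrt (ev (g x)⁻¹ p p) ≤ Real.sqrt (3 * A * (∑ i, |p i|) ^ 2) := by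
        apply Real.sqrt_le_sqrt
        exact h1.trans (mul_le_mul_of_nonneg_left h2 (by positivity))
    _ = Real.sqrt (3 * A) * ∑ i, |p i| := by
        rw [Real.sqrt_mul (by positivity), Real.sqrt_sq h0]

lemma len_nonneg (g : TensorField) (x : E3) (p : Cov) : 0 ≤ len g x p := Real.sqrt_nonneg _

lemma volDen_nonneg (g : TensorField) (x : E3) : 0 ≤ volDen g x := Real.sqrt_nonneg _

lemma isCompact_cAnn (ρ r : ℝ) : IsCompact (cAnn ρ r) := by
  apply Metric.isCompact_of_isClosed_isBounded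
  · exact (isClosed_le continuous_const continuous_norm).inter
      (isClosed_le continuous_norm continuous_const)
  · refine (Metric.isBounded_closedBall (x := (0 : E3)) (r := r)).subset ?_
    intro x hx
    simpa using hx.2

lemma len_aesm {K : Set E3} {g : TensorField} {G : E3 → Cov} (hK : IsCompact K)
    (hc : ∀ i j, ContinuousOn (fun x => (g x)⁻¹ i j) K)
    (hv : ContinuousOn (volDen g) K)
    (hG : ∀ i, AEStronglyMeasurable (fun x => G x i) (volume.restrict K)) :
    AEStronglyMeasurable (fun x => len g x (G x) * volDen g x) (volume.restrict K) := by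
  have hm := hK.isClosed.measurableSet
  refine AEStronglyMeasurable.mul ?_ (hv.aestronglyMeasurable hm)
  unfold len ev
  refine Real.continuous_sqrt.comp_aestronglyMeasurable ?_
  simp only [Fin.sum_univ_three]
  have t : ∀ i j, AEStronglyMeasurable (fun x => (g x)⁻¹ i j * G x i * G x j)
      (volume.restrict K) := fun i j =>
    (((hc i j).aestronglyMeasurable hm).mul (hG i)).mul (hG j)
  exact (((t 0 0).add (t 0 1)).add (t 0 2)).add (((t 1 0).add (t 1 1)).add (t 1 2)) |>.add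
    (((t 2 0).add (t 2 1)).add (t 2 2))

lemma integral_abs_le {μ : Measure E3} [IsFiniteMeasure μ] {f : E3 → ℝ} (hf : MemLp f 2 μ) :
    ∫ x, |f x| ∂μ ≤ Real.sqrt (μ.real Set.univ) * Real.sqrt (∫ x, f x ^ 2 ∂μ) := by
  have h1 : MemLp (fun _ : E3 => (1 : ℝ)) (ENNReal.ofReal 2) μ := memLp_const 1
  have h2 : MemLp (fun x => |f x|) (ENNReal.ofReal 2) μ := by
    have : (ENNReal.ofReal 2) = 2 := by simp
    rw [this]
    exact hf.norm
  have h3 := integral_mul_le_Lp_mul_Lq_of_nonneg (μ := μ) (p := 2) (q := 2)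
    (Real.HolderConjugate.two_two) (f := fun _ => (1 : ℝ)) (g := fun x => |f x|)
    (ae_of_all _ fun _ => zero_le_one) (ae_of_all _ fun _ => abs_nonneg _) h1 h2
  simp only [one_mul, integral_const, smul_eq_mul, Real.rpow_two, sq_abs, one_pow, mul_one] at h3
  rw [Real.sqrt_eq_rpow, Real.sqrt_eq_rpow]
  exact h3

end PERm

open PERm in
theorem PER (hPERA : Stmt_PERA) (hMO : Stmt_MO) : Stmt_PER := by
  intro g w G M α ρ r β s₀ s₁ hg hα hαρ hρr hrβ hs hw hin hout A hA
  have hρ : 0 < ρ := hα.trans hαρ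
  set K := cAnn ρ r with hK
  have hKc : IsCompact K := isCompact_cAnn ρ r
  have hKm : MeasurableSet K := hKc.isClosed.measurableSet
  have hKA : K ⊆ Ann α β := fun x hx => ⟨hαρ.trans_le hx.1, hx.2.trans_lt hrβ⟩
  have hK0 : K ⊆ {0}ᶜ := by
    intro x hx h0
    have : x = 0 := h0
    have h1 := hx.1
    rw [this, norm_zero] at h1
    linarith
  have : IsFiniteMeasure (volume.restrict K) := ⟨by
    rw [Measure.restrict_apply_univ]
    exact hKc.measure_lt_top⟩
  have hci : ∀ i j, ContinuousOn (fun x => (g x)⁻¹ i j) K := fun i j =>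
    (MCT.smooth_inv hg i j).continuousOn.mono hK0
  have hcv : ContinuousOn (volDen g) K := by
    unfold volDen
    exact ((MCT.smooth_det hg.smooth).continuousOn.mono hK0).sqrt
  obtain ⟨c1, h1, b1⟩ := MCT.exists_bd hKc (fun (ij : Fin 3 × Fin 3) x => (g x)⁻¹ ij.1 ij.2)
    (fun ij => hci ij.1 ij.2)
  obtain ⟨c2, h2, b2⟩ := MCT.exists_bd hKc (fun (_ : Unit) x => volDen g x) (fun _ => hcv)
  have hG2 := hw.memG K hKc hKA
  have hGi : ∀ i, Integrable (fun x => G x i) (volume.restrict K) := fun i =>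
    (hG2 i).integrable one_le_two
  set c : ℝ := Real.sqrt (3 * c1) with hc
  have hc0 : 0 ≤ c := Real.sqrt_nonneg _
  have hlen : ∀ x ∈ K, ∀ p : Cov, len g x p * volDen g x ≤ c * c2 * ∑ i, |p i| := by
    intro x hx p
    have e1 := len_le (g := g) (x := x) (by linarith : (0 : ℝ) ≤ c1) (fun i j => b1 x hx (i, j)) p
    have e2 := b2 x hx ()
    have e3 : 0 ≤ volDen g x := Real.sqrt_nonneg _
    rw [abs_of_nonneg e3] at e2
    have e4 : 0 ≤ ∑ i, |p i| := Finset.sum_nonneg fun _ _ => abs_nonneg _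
    calc len g x p * volDen g x ≤ (c * ∑ i, |p i|) * c2 :=
          mul_le_mul e1 e2 e3 (by positivity)
      _ = _ := by ring
  -- the integrand is integrable
  have hI : Integrable (fun x => len g x (G x) * volDen g x) (volume.restrict K) := by
    refine Integrable.mono' (g := fun x => c * c2 * ∑ i, |G x i|) ?_
      (len_aesm hKc hci hcv fun i => (hGi i).aestronglyMeasurable) ?_
    · refine Integrable.const_mul ?_ _
      exact integrable_finsetSum _ fun i _ => (hGi i).abs
    · refine (ae_restrict_iff' hKm).mpr (ae_of_all _ fun x hx => ?_)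
      rw [Real.norm_of_nonneg (mul_nonneg (len_nonneg g x (G x)) (volDen_nonneg g x))]
      exact hlen x hx _
  set S : Set E3 := K ∩ {x | s₀ ≤ w x ∧ w x ≤ s₁} with hS
  have hSm : MeasurableSet S := by
    have : S = K ∩ w ⁻¹' Set.Icc s₀ s₁ := rfl
    rw [this]
    exact ((hw.cont.mono hKA).preimage_isClosed_of_isClosed hKc.isClosed isClosed_Icc).measurableSet
  -- the key inequality
  have key : ∀ e : ℝ, 0 < e → e < (s₁ - s₀) / 2 → A * (s₁ - s₀ - 2 * e) ≤
      (∫ x in S, len g x (G x) * volDen g x) + c * c2 * (3 * e) := by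
    intro e he he2
    obtain ⟨v, hvs, hvu, hv1, -⟩ := hw.approx K hKc hKA
    obtain ⟨V, hV⟩ : ∃ V : ℝ, V = (volume.restrict K).real Set.univ := ⟨_, rfl⟩
    have hV0 : 0 ≤ V := by rw [hV]; exact measureReal_nonneg
    -- choose n
    have hi : ∀ i, Tendsto (fun n => Real.sqrt V * Real.sqrt (∫ x in K, (pd i (v n) x - G x i) ^ 2))
        atTop (𝓝 0) := by
      intro i
      have := ((Real.continuous_sqrt.tendsto 0).comp (hv1 i)).const_mul (Real.sqrt V)
      simpa using this
    have hev : ∀ᶠ n in atTop, (∀ x ∈ K, dist (w x) (v n x) < e / 2) ∧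
        ∀ i, Real.sqrt V * Real.sqrt (∫ x in K, (pd i (v n) x - G x i) ^ 2) < e / 2 := by
      refine ((Metric.tendstoUniformlyOn_iff.mp hvu) (e / 2) (by linarith)).and ?_
      exact eventually_all.mpr fun i => (hi i).eventually (gt_mem_nhds (by linarith))
    obtain ⟨n, hn1, hn2⟩ := hev.exists
    -- choose the linear perturbation
    have hdense := MeasureTheory.Measure.dense_of_ae (hMO (v n) K (hvs n) hKc)
    have hr0 : 0 < r := hρ.trans hρr
    obtain ⟨δ, hδ, hδ1, hδ2⟩ : ∃ δ : ℝ, 0 < δ ∧ δ * r < e / 2 ∧ δ * V < e / 2 := by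
      refine ⟨e / 2 / (2 * (r + V + 1)), by positivity, ?_, ?_⟩
      · rw [div_mul_eq_mul_div, div_lt_iff₀ (by positivity)]
        nlinarith
      · rw [div_mul_eq_mul_div, div_lt_iff₀ (by positivity)]
        nlinarith
    obtain ⟨a, ha, had⟩ := hdense.exists_dist_lt 0 hδ
    have han : ‖a‖ < δ := by simpa [dist_comm] using had
    have hai : ∀ i, |a i| ≤ δ := fun i => (PiLp.norm_apply_le a i).trans han.le
    obtain ⟨W, hW⟩ : ∃ W : E3 → ℝ, W = fun x => v n x + ∑ i, a i * x i := ⟨_, rfl⟩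
    have hco : ∀ i, ContDiff ℝ ∞ (fun x : E3 => x i) := fun i => by fun_prop
    have hlin : ContDiff ℝ ∞ (fun x : E3 => ∑ i, a i * x i) :=
      ContDiff.sum fun i _ => contDiff_const.mul (hco i)
    have hWs : ContDiff ℝ ∞ W := by
      rw [hW]
      exact (hvs n).add hlin
    have hpl : ∀ i x, pd i (fun x : E3 => ∑ j, a j * x j) x = a i := by
      intro i x
      rw [pd_sum _ _ (fun j _ => (differentiableAt_coord j).const_mul _)]
      simp only [pd_const_mul _ (differentiableAt_coord _), pd_coord]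
      simp
    have hpd : ∀ i x, pd i W x = pd i (v n) x + a i := by
      intro i x
      rw [hW, pd_add ((hvs n).differentiable (by simp) x) (hlin.differentiable (by simp) x), hpl]
    have hclose : ∀ x ∈ K, |W x - w x| < e := by
      intro x hx
      have e1 := hn1 x hx
      rw [Real.dist_eq, abs_sub_comm] at e1
      have e2 : |∑ i, a i * x i| ≤ ‖a‖ * ‖x‖ := by
        have := abs_real_inner_le_norm a x
        rw [PiLp.inner_apply] at this
        have e3 : ∑ i, inner ℝ (a i) (x i) = ∑ i, a i * x i :=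
          Finset.sum_congr rfl fun i _ => by simp [mul_comm]
        rwa [e3] at this
      have e4 : ‖a‖ * ‖x‖ < e / 2 :=
        lt_of_le_of_lt (mul_le_mul han.le hx.2 (norm_nonneg _) hδ.le) hδ1
      have e5 : W x - w x = (v n x - w x) + ∑ i, a i * x i := by
        rw [hW]
        ring
      rw [e5]
      calc |(v n x - w x) + ∑ i, a i * x i| ≤ |v n x - w x| + |∑ i, a i * x i| := abs_add_le _ _
        _ < e := by linarith
    have hfin : Set.Finite {s : ℝ | s₀ + e ≤ s ∧ s ≤ s₁ - e ∧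
        ∃ x ∈ cAnn ρ r, W x = s ∧ fderiv ℝ W x = 0} := by
      refine (ha.image W).subset ?_
      rintro s ⟨-, -, x, hx, hxs, hx0⟩
      refine ⟨x, ⟨hx, fun i => ?_⟩, hxs⟩
      rw [← hpd]
      unfold pd
      rw [hx0]
      rfl
    have hP := hPERA g W ρ r (s₀ + e) (s₁ - e) hg hρ hρr (by linarith) hWs
      (fun x hx hxρ => by
        have e1 := abs_lt.mp (hclose x hx)
        have e2 := hin x (hKA hx) hxρ.le
        linarith [e1.2])
      (fun x hx hxr => by
        have e1 := abs_lt.mp (hclose x hx)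
        have e2 := hout x (hKA hx) hxr.ge
        linarith [e1.1]) hfin A hA
    -- the difference of the gradients
    obtain ⟨D, hD⟩ : ∃ D : Fin 3 → E3 → ℝ, D = fun i x => pd i W x - G x i := ⟨_, rfl⟩
    have hvc : ∀ i, ContinuousOn (pd i (v n)) K := fun i =>
      (((hvs n).continuous_fderiv (by simp)).clm_apply continuous_const).continuousOn
    have hWc : ∀ i, ContinuousOn (pd i W) K := fun i =>
      ((hWs.continuous_fderiv (by simp)).clm_apply continuous_const).continuousOn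
    have hWi : ∀ i, Integrable (pd i W) (volume.restrict K) := fun i =>
      (hWc i).integrableOn_compact hKc
    have hvm : ∀ i, MemLp (fun x => pd i (v n) x - G x i) 2 (volume.restrict K) := by
      intro i
      refine MemLp.sub ?_ (hG2 i)
      obtain ⟨B, hB⟩ := hKc.exists_bound_of_continuousOn (hvc i)
      refine MemLp.of_bound ((hvc i).aestronglyMeasurable hKm) B ?_
      exact (ae_restrict_iff' hKm).mpr (ae_of_all _ hB)
    have hDi : ∀ i, Integrable (fun x => |D i x|) (volume.restrict K) := fun i => by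
      rw [hD]
      exact ((hWi i).sub (hGi i)).abs
    have hDb : ∀ i, ∫ x in K, |D i x| ≤ e := by
      intro i
      have e1 := integral_abs_le (hvm i)
      rw [← hV] at e1
      have e2 : ∫ x in K, |D i x| ≤ ∫ x in K, (|pd i (v n) x - G x i| + |a i|) := by
        refine integral_mono (hDi i) (((hvm i).integrable one_le_two).abs.add
          (integrable_const _)) fun x => ?_
        rw [hD]
        simp only [hpd]
        have : pd i (v n) x + a i - G x i = (pd i (v n) x - G x i) + a i := by ring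
        rw [this]
        exact abs_add_le _ _
      rw [integral_add ((hvm i).integrable one_le_two).abs (integrable_const _),
        integral_const, ← hV, smul_eq_mul] at e2
      have e3 : V * |a i| ≤ δ * V := by
        rw [mul_comm]
        exact mul_le_mul_of_nonneg_right (hai i) hV0
      have e4 := hn2 i
      linarith
    have hWI : Integrable (fun x => len g x (grad W x) * volDen g x) (volume.restrict K) := by
      refine Integrable.mono' (g := fun x => c * c2 * ∑ i, |grad W x i|) ?_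
        (len_aesm hKc hci hcv fun i => (hWi i).aestronglyMeasurable) ?_
      · refine Integrable.const_mul ?_ _
        exact integrable_finsetSum _ fun i _ => (hWi i).abs
      · refine (ae_restrict_iff' hKm).mpr (ae_of_all _ fun x hx => ?_)
        rw [Real.norm_of_nonneg (mul_nonneg (len_nonneg g x _) (volDen_nonneg g x))]
        exact hlen x hx _
    have hSK : S ⊆ K := Set.inter_subset_left
    have hsub : cAnn ρ r ∩ {x | s₀ + e ≤ W x ∧ W x ≤ s₁ - e} ⊆ S := by
      rintro x ⟨hx, hx1, hx2⟩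
      have e1 := abs_lt.mp (hclose x hx)
      exact ⟨hx, by linarith [e1.2], by linarith [e1.1]⟩
    have step1 : ∫ x in cAnn ρ r ∩ {x | s₀ + e ≤ W x ∧ W x ≤ s₁ - e},
        len g x (grad W x) * volDen g x ≤ ∫ x in S, len g x (grad W x) * volDen g x := by
      refine setIntegral_mono_set (hWI.mono_measure (Measure.restrict_mono hSK le_rfl)) ?_
        (LE.le.eventuallyLE hsub)
      exact ae_of_all _ fun x => mul_nonneg (len_nonneg g x _) (volDen_nonneg g x)
    have hsumi : Integrable (fun x => c * c2 * ∑ i, |D i x|) (volume.restrict K) := by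
      refine Integrable.const_mul ?_ _
      exact integrable_finsetSum _ fun i _ => hDi i
    have step2 : ∫ x in S, len g x (grad W x) * volDen g x ≤
        ∫ x in S, (len g x (G x) * volDen g x + c * c2 * ∑ i, |D i x|) := by
      refine setIntegral_mono_on (hWI.mono_measure (Measure.restrict_mono hSK le_rfl))
        ((hI.add hsumi).mono_measure (Measure.restrict_mono hSK le_rfl)) hSm fun x hx => ?_
      have e1 := len_add_le (hg.posDef x (hK0 (hSK hx))) (G x) (fun i => D i x)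
      have e2 : (fun i => G x i + D i x) = grad W x := by
        funext i
        rw [hD]
        change G x i + (pd i W x - G x i) = pd i W x
        ring
      rw [e2] at e1
      have e3 := hlen x (hSK hx) (fun i => D i x)
      have e4 := mul_le_mul_of_nonneg_right e1 (volDen_nonneg g x)
      linarith [add_mul (len g x (G x)) (len g x fun i => D i x) (volDen g x)]
    have step3 : ∫ x in S, (len g x (G x) * volDen g x + c * c2 * ∑ i, |D i x|)
        ≤ (∫ x in S, len g x (G x) * volDen g x) + c * c2 * (3 * e) := by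
      rw [integral_add (hI.mono_measure (Measure.restrict_mono hSK le_rfl))
        (hsumi.mono_measure (Measure.restrict_mono hSK le_rfl))]
      have e1 : ∫ x in S, c * c2 * ∑ i, |D i x| ≤ ∫ x in K, c * c2 * ∑ i, |D i x| := by
        refine setIntegral_mono_set hsumi ?_ (LE.le.eventuallyLE hSK)
        refine ae_of_all _ fun x => ?_
        have : 0 ≤ ∑ i, |D i x| := Finset.sum_nonneg fun _ _ => abs_nonneg _
        exact mul_nonneg (mul_nonneg hc0 (by linarith)) this
      have e2 : ∫ x in K, c * c2 * ∑ i, |D i x| = c * c2 * ∑ i, ∫ x in K, |D i x| := by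
        rw [integral_const_mul, integral_finsetSum _ fun i _ => hDi i]
      have e3 : ∑ i, ∫ x in K, |D i x| ≤ 3 * e := by
        calc ∑ i, ∫ x in K, |D i x| ≤ ∑ _i : Fin 3, e := Finset.sum_le_sum fun i _ => hDb i
          _ = 3 * e := by simp
      have e4 : c * c2 * ∑ i, ∫ x in K, |D i x| ≤ c * c2 * (3 * e) :=
        mul_le_mul_of_nonneg_left e3 (mul_nonneg hc0 (by linarith))
      linarith
    have e9 : s₁ - e - (s₀ + e) = s₁ - s₀ - 2 * e := by ring
    rw [e9] at hP
    exact hP.trans (step1.trans (step2.trans step3))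
  by_contra hcon
  push Not at hcon
  obtain ⟨I, hIe⟩ : ∃ I, I = ∫ x in S, len g x (G x) * volDen g x := ⟨_, rfl⟩
  rw [← hIe] at hcon key
  have hT : 0 < 3 * (c * c2) + 2 * |A| + 1 := by
    have : 0 ≤ c * c2 := mul_nonneg hc0 (by linarith)
    positivity
  obtain ⟨e, he⟩ : ∃ e, e = min ((s₁ - s₀) / 4)
      ((A * (s₁ - s₀) - I) / (3 * (c * c2) + 2 * |A| + 1)) := ⟨_, rfl⟩
  have he0 : 0 < e := by
    rw [he]
    exact lt_min (by linarith) (div_pos (by linarith) hT)
  have he1 : e < (s₁ - s₀) / 2 := by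
    have : e ≤ (s₁ - s₀) / 4 := by rw [he]; exact min_le_left _ _
    linarith
  have he2 : e * (3 * (c * c2) + 2 * |A| + 1) ≤ A * (s₁ - s₀) - I := by
    have : e ≤ (A * (s₁ - s₀) - I) / (3 * (c * c2) + 2 * |A| + 1) := by
      rw [he]; exact min_le_right _ _
    rwa [le_div_iff₀ hT] at this
  have h5 := key e he0 he1
  have h6 : A * e ≤ |A| * e := mul_le_mul_of_nonneg_right (le_abs_self A) he0.le
  nlinarith

end Pool.Agent.PFlow


end
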