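import Mathlib
import Pool.Agent.PFlow.StmtsE3
import Pool.Agent.PFlow.StmtsM

/-! Parts: PFlow.M_FM, PFlow.E.ABSM, PFlow.E.MSI -/

section

/-!
# FM: the filled function depends on the function in a Lipschitz way
-/

open MeasureTheory Filter Topology
open scoped ContDiff

namespace Pool.Agent.PFlow

open Pool.Agent.PenroseSph

namespace MFM

lemma conn_mono {A B : Set E3} (h : A ⊆ B) {y z : E3} (hc : Conn A y z) : Conn B y z := by
  obtain ⟨S, hS, hp, hy, hz⟩ := hc
  exact ⟨S, hS.trans h, hp, hy, hz⟩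

lemma conn_univ {A : Set E3} (h : ∀ x, x ∈ A) (y z : E3) : Conn A y z :=
  ⟨Set.univ, fun x _ => h x, isPreconnected_univ, Set.mem_univ y, Set.mem_univ z⟩

lemma conn_left {A : Set E3} {y z : E3} (hc : Conn A y z) : y ∈ A := by
  obtain ⟨S, hS, -, hy, -⟩ := hc
  exact hS hy

lemma memA {W : E3 → ℝ} {s₀ : ℝ} (h0 : ∀ x, s₀ ≤ W x) (z₁ y : E3) :
    s₀ ∈ {c : ℝ | s₀ ≤ c ∧ Conn {z | c ≤ W z} y z₁} :=
  ⟨le_refl s₀, conn_univ h0 y z₁⟩

lemma bddA {W : E3 → ℝ} {s₀ : ℝ} (z₁ y : E3) :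
    BddAbove {c : ℝ | s₀ ≤ c ∧ Conn {z | c ≤ W z} y z₁} :=
  ⟨W y, fun _ hc => conn_left hc.2⟩

lemma fillA_ge {W : E3 → ℝ} {s₀ : ℝ} (h0 : ∀ x, s₀ ≤ W x) (z₁ y : E3) :
    s₀ ≤ fillA W s₀ z₁ y :=
  le_csSup (bddA z₁ y) (memA h0 z₁ y)

lemma fillA_le {W : E3 → ℝ} {s₀ : ℝ} (h0 : ∀ x, s₀ ≤ W x) (z₁ y : E3) :
    fillA W s₀ z₁ y ≤ W y :=
  csSup_le ⟨s₀, memA h0 z₁ y⟩ fun _ hc => conn_left hc.2

/-- One half of the estimate for `fillA`. -/
lemma fillA_sub {W W' : E3 → ℝ} {s₀ e : ℝ} (h0 : ∀ x, s₀ ≤ W x) (h0' : ∀ x, s₀ ≤ W' x)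
    (he : ∀ x, W x - W' x ≤ e) (z₁ y : E3) : fillA W s₀ z₁ y - e ≤ fillA W' s₀ z₁ y := by
  rw [sub_le_iff_le_add]
  refine csSup_le ⟨s₀, memA h0 z₁ y⟩ fun c hc => ?_
  rw [← sub_le_iff_le_add]
  refine (le_max_right s₀ (c - e)).trans (le_csSup (bddA z₁ y) ⟨le_max_left _ _, ?_⟩)
  refine conn_mono (fun z hz => ?_) hc.2
  refine max_le (h0' z) ?_
  have h1 : c ≤ W z := hz
  have h2 := he z
  linarith

lemma memB {V : E3 → ℝ} {s₁ : ℝ} (h1 : ∀ x, V x ≤ s₁) (z₀ y : E3) :
    s₁ ∈ {c : ℝ | c ≤ s₁ ∧ Conn {z | V z ≤ c} y z₀} :=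
  ⟨le_refl s₁, conn_univ h1 y z₀⟩

lemma bddB {V : E3 → ℝ} {s₁ : ℝ} (z₀ y : E3) :
    BddBelow {c : ℝ | c ≤ s₁ ∧ Conn {z | V z ≤ c} y z₀} :=
  ⟨V y, fun _ hc => conn_left hc.2⟩

/-- One half of the estimate for `fillB`. -/
lemma fillB_sub {V V' : E3 → ℝ} {s₁ e : ℝ} (h1 : ∀ x, V x ≤ s₁) (h1' : ∀ x, V' x ≤ s₁)
    (he : ∀ x, V' x - V x ≤ e) (z₀ y : E3) : fillB V' s₁ z₀ y ≤ fillB V s₁ z₀ y + e := by
  rw [← sub_le_iff_le_add]
  refine le_csInf ⟨s₁, memB h1 z₀ y⟩ fun c hc => ?_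
  rw [sub_le_iff_le_add]
  refine le_trans (csInf_le (bddB z₀ y) ⟨min_le_left _ _, ?_⟩) (min_le_right s₁ (c + e))
  refine conn_mono (fun z hz => ?_) hc.2
  refine le_min (h1' z) ?_
  have h2 : V z ≤ c := hz
  have h3 := he z
  linarith

/-- The estimate for `fill`, one half. -/
lemma fill_sub {W W' : E3 → ℝ} {s₀ s₁ e : ℝ} (h0 : ∀ x, s₀ ≤ W x) (h0' : ∀ x, s₀ ≤ W' x)
    (h1 : ∀ x, W x ≤ s₁) (h1' : ∀ x, W' x ≤ s₁) (he : ∀ x, W' x - W x ≤ e) (z₀ z₁ y : E3) :
    fill W' s₀ s₁ z₀ z₁ y ≤ fill W s₀ s₁ z₀ z₁ y + e := by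
  refine fillB_sub (fun x => (fillA_le h0 z₁ x).trans (h1 x))
    (fun x => (fillA_le h0' z₁ x).trans (h1' x)) (fun x => ?_) z₀ y
  have := fillA_sub h0' h0 he z₁ x
  linarith

end MFM

open MFM in
/-- The filled function depends on the function in a Lipschitz way. -/
theorem FM : Stmt_FM := by
  intro a' b' s₀ s₁ e W W' z₁ hW hW' _ he x
  have h1 := fill_sub hW.lower hW'.lower hW.upper hW'.upper (e := e)
    (fun x => by have := abs_le.1 (he x); linarith) 0 z₁ x
  have h2 := fill_sub hW'.lower hW.lower hW'.upper hW.upper (e := e)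
    (fun x => by have := abs_le.1 (he x); linarith) 0 z₁ x
  rw [abs_le]
  constructor <;> linarith

end Pool.Agent.PFlow


end

section

/-!
# The level set inequality for a setup
-/

set_option autoImplicit false

open MeasureTheory Filter Topology
open scoped ContDiff ENNReal

namespace Pool.Agent.PFlow

open Pool.Agent.PenroseSph

namespace ABSMaux

theorem ev_add_smul (P : Bil) (a b : Cov) (t : ℝ) :
    ev P (fun i => a i + t * b i) (fun i => a i + t * b i)
      = ev P b b * (t * t) + (ev P a b + ev P b a) * t + ev P a a := by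
  simp only [ev, Fin.sum_univ_three]
  ring

theorem ev_symm {P : Bil} (hP : P.IsSymm) (a b : Cov) : ev P a b = ev P b a := by
  have h : ∀ i j, P i j = P j i := fun i j => hP.apply j i
  simp only [ev, Fin.sum_univ_three, h 1 0, h 2 0, h 2 1]
  ring

theorem ev_nonneg {P : Bil} (hP : P.PosDef) (p : Cov) : 0 ≤ ev P p p := by
  have h1 := hP.posSemidef.dotProduct_mulVec_nonneg p
  have h2 : ev P p p = star p ⬝ᵥ P.mulVec p := by
    simp only [ev, dotProduct, Matrix.mulVec, Finset.mul_sum, star_trivial]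
    refine Finset.sum_congr rfl fun i _ => Finset.sum_congr rfl fun j _ => ?_
    ring
  rw [h2]
  exact h1

/-- The inequality of Cauchy and Schwarz. -/
theorem ev_cs {P : Bil} (hP : P.PosDef) (a b : Cov) : ev P a b ^ 2 ≤ ev P a a * ev P b b := by
  have hs : P.IsSymm := by
    have h1 := hP.isHermitian
    unfold Matrix.IsHermitian at h1
    rwa [Matrix.conjTranspose_eq_transpose_of_trivial] at h1
  have h := discrim_le_zero (a := ev P b b) (b := ev P a b + ev P b a) (c := ev P a a)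
    (fun t => by
      rw [← ev_add_smul]
      exact ev_nonneg hP _)
  rw [discrim, ev_symm hs b a] at h
  nlinarith

/-- The matter term dominates the surplus. -/
theorem surplus_le (g h : TensorField) (x : E3) (hg : (g x).PosDef) (p : Cov) :
    surplus g h x ≤ matter g h x p := by
  have hP : ((g x)⁻¹ : Bil).PosDef := hg.inv
  have e1 : ∑ j, momentumDensity g h j x * nrm g x p j
      = ev (g x)⁻¹ (fun i => momentumDensity g h i x) p / len g x p := by
    simp only [ev, nrm, raise, Finset.sum_div, Finset.mul_sum]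
    refine Finset.sum_congr rfl fun i _ => Finset.sum_congr rfl fun j _ => ?_
    ring
  have h2 : ev (g x)⁻¹ (fun i => momentumDensity g h i x) p / len g x p ≤ jlen g h x := by
    by_cases hl : len g x p = 0
    · rw [hl, div_zero]
      exact Real.sqrt_nonneg _
    · have hl' : 0 < len g x p := lt_of_le_of_ne (Real.sqrt_nonneg _) (Ne.symm hl)
      rw [div_le_iff₀ hl']
      unfold jlen len
      rw [← Real.sqrt_mul (ev_nonneg hP _)]
      exact Real.le_sqrt_of_sq_le (ev_cs hP _ _)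
  unfold surplus matter
  rw [e1]
  linarith

/-- A bounded measurable function of `w` times a function integrable over the level regions. -/
theorem int_mul {P : Par} {D : Dat} {f : E3 → ℝ} (hf : LvlInt P D f) (hw : Measurable (D.w P))
    (hm : MeasurableSet D.Om) (hlt : D.sb P / 4 < D.sM P) {ψ : ℝ → ℝ} (hc : Continuous ψ)
    (hcs : HasCompactSupport ψ) (hsupp : tsupport ψ ⊆ Set.Ioo (D.sb P / 4) (D.sM P)) :
    IntegrableOn (fun x => ψ (D.w P x) * f x) D.Om := by
  obtain ⟨s, s', h1, h2, h3, h4⟩ : ∃ s s', D.sb P / 4 < s ∧ s < s' ∧ s' < D.sM P ∧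
      tsupport ψ ⊆ Set.Icc s s' := by
    by_cases hne : (tsupport ψ).Nonempty
    · have hK : IsCompact (tsupport ψ) := hcs
      obtain ⟨a, ha, hamin⟩ := hK.exists_isLeast hne
      obtain ⟨b, hb, hbmax⟩ := hK.exists_isGreatest hne
      have ha' := hsupp ha
      have hb' := hsupp hb
      have hab : a ≤ b := hamin hb
      refine ⟨(D.sb P / 4 + a) / 2, (b + D.sM P) / 2, by linarith [ha'.1], ?_, by linarith [hb'.2],
        ?_⟩
      · linarith [ha'.1, hb'.2]
      · intro x hx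
        have e1 := hamin hx
        have e2 := hbmax hx
        exact ⟨by linarith [ha'.1], by linarith [hb'.2]⟩
    · rw [Set.not_nonempty_iff_eq_empty] at hne
      refine ⟨(2 * (D.sb P / 4) + D.sM P) / 3, (D.sb P / 4 + 2 * D.sM P) / 3, by linarith,
        by linarith, by linarith, ?_⟩
      rw [hne]
      exact Set.empty_subset _
  set S : Set E3 := D.Om ∩ {x | s ≤ D.w P x ∧ D.w P x ≤ s'} with hS
  have hSm : MeasurableSet S :=
    hm.inter ((measurableSet_le measurable_const hw).inter (measurableSet_le hw measurable_const))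
  obtain ⟨C, hC⟩ := hc.bounded_above_of_compact_support hcs
  have hi : IntegrableOn (fun x => ψ (D.w P x) * f x) S := by
    refine Integrable.bdd_mul (c := C) (hf s s' h1 h2 h3)
      (hc.measurable.comp hw).aestronglyMeasurable ?_
    exact Eventually.of_forall fun x => hC _
  have hz : ∀ x ∈ D.Om \ S, ψ (D.w P x) * f x = 0 := by
    intro x hx
    have hnot : D.w P x ∉ tsupport ψ := fun hmem => hx.2 ⟨hx.1, h4 hmem⟩
    rw [image_eq_zero_of_notMem_tsupport hnot, zero_mul]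
  exact hi.of_forall_sdiff_eq_zero hm hz

end ABSMaux

open ABSMaux in
theorem ABSM (hSETW : Stmt_SETW) (hABSI : Stmt_ABSI) (hMI : Stmt_MI) : Stmt_ABSM := by
  intro P D hS ψ hψ hψ0 hcs hsupp
  obtain ⟨hg, hh, -, hH2, hEq, hNI, hw, hSep, -, -, -, -, -, -, -, hsb, hsb1, -, hs2, hsM, hKR,
    hlK⟩ := hSETW P D hS
  obtain ⟨-, -, -, hDi, hSu, hMat, -, -⟩ := hABSI P D hS
  have hl := hS.l_ge
  have hgam := hS.gam_pos
  have hR : 0 < D.R := by linarith
  have hR1 : 1 < D.R := by linarith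
  have hRR : 1 / D.R < D.R := by
    rw [div_lt_iff₀ hR]
    nlinarith
  have hlt : D.sb P / 4 < D.sM P := by linarith
  have hOm : MeasurableSet D.Om := by
    unfold Dat.Om Ann
    exact (measurableSet_lt measurable_const measurable_norm).inter
      (measurableSet_lt measurable_norm measurable_const)
  have hm := hMI P.eps (1 / D.R) D.R (D.sb P / 4) (D.sM P) D.g' D.h' (D.w P) (D.Gw P) (D.Mw P)
    hS.eps_pos (by linarith [hS.eps_le]) (by positivity) hRR hlt hg hh hH2 hEq hNI hSep ψ hψ hcs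
    hsupp hψ0
  have hiDi := int_mul hDi hw hOm hlt hψ.continuous hcs hsupp
  have hiSu := int_mul hSu hw hOm hlt hψ.continuous hcs hsupp
  have hiMat := int_mul hMat hw hOm hlt hψ.continuous hcs hsupp
  have hle : ∫ x in D.Om, ψ (D.w P x) * (D.Su P x + D.Di P x) * D.vol x
      ≤ ∫ x in D.Om, ψ (D.w P x) * (len D.g' x (D.Gw P x)
          * (matter D.g' D.h' x (D.Gw P x) + diss P.eps D.g' D.h' x (D.Gw P x) (D.Mw P x)))
          * volDen D.g' x := by
    refine setIntegral_mono_on ?_ ?_ hOm ?_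
    · refine (hiSu.add hiDi).congr (Eventually.of_forall fun x => ?_)
      simp only [Pi.add_apply]
      ring
    · refine (hiMat.add hiDi).congr (Eventually.of_forall fun x => ?_)
      simp only [Pi.add_apply, Dat.Di, Dat.X, Dat.vol]
      ring
    · intro x hx
      have h1 := surplus_le D.g' D.h' x (hg.posDef x hx) (D.Gw P x)
      have h2 : 0 ≤ len D.g' x (D.Gw P x) := Real.sqrt_nonneg _
      have h3 : 0 ≤ volDen D.g' x := Real.sqrt_nonneg _
      have h4 : D.Su P x + D.Di P x ≤ len D.g' x (D.Gw P x)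
          * (matter D.g' D.h' x (D.Gw P x) + diss P.eps D.g' D.h' x (D.Gw P x) (D.Mw P x)) := by
        simp only [Dat.Su, Dat.Di, Dat.X]
        nlinarith [mul_le_mul_of_nonneg_left h1 h2]
      exact mul_le_mul_of_nonneg_right (mul_le_mul_of_nonneg_left h4 (hψ0 _)) h3
  change -(∫ x in Ann (1 / D.R) D.R, deriv ψ (D.w P x) * D.Phi P x * D.vol x) ≤ _
  change _ ≤ 4 * Real.pi * (∫ s, ψ s)
    - 1 / (2 - P.eps) * (∫ x in Ann (1 / D.R) D.R, ψ (D.w P x) * D.Phi P x * D.vol x)
    - ∫ x in Ann (1 / D.R) D.R, ψ (D.w P x) * (D.Su P x + D.Di P x) * D.vol x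
  refine hm.trans ?_
  exact sub_le_sub_left hle _

end Pool.Agent.PFlow


end

section

/-!
# The mass inequality (i)
-/

set_option autoImplicit false

open MeasureTheory Filter Topology
open scoped ContDiff ENNReal

namespace Pool.Agent.PFlow

open Pool.Agent.PenroseSph

namespace MSIaux

/-- The pointwise estimate. -/
theorem point_le {a m r : ℝ} (ha : 0 ≤ a) (hm : 0 ≤ m) (hr : 0 < r) :
    |a - m| ≤ (r * (Real.sqrt a - Real.sqrt m) ^ 2 + (2 * a + 2 * m) / r) / 2 := by
  set s := Real.sqrt a with hs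
  set t := Real.sqrt m with ht
  have hs2 : s ^ 2 = a := Real.sq_sqrt ha
  have ht2 : t ^ 2 = m := Real.sq_sqrt hm
  have hs0 : 0 ≤ s := Real.sqrt_nonneg _
  have ht0 : 0 ≤ t := Real.sqrt_nonneg _
  have h1 : |a - m| = |s - t| * (s + t) := by
    have e : a - m = (s - t) * (s + t) := by
      rw [← hs2, ← ht2]
      ring
    rw [e, abs_mul, abs_of_nonneg (add_nonneg hs0 ht0)]
  have h2 : 2 * (|s - t| * (s + t)) * r ≤ r ^ 2 * (s - t) ^ 2 + (2 * a + 2 * m) := by
    have e1 := sq_nonneg (r * |s - t| - (s + t))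
    have e2 : |s - t| ^ 2 = (s - t) ^ 2 := sq_abs _
    nlinarith [sq_nonneg (s - t)]
  rw [h1]
  have h3 : |s - t| * (s + t) = (2 * (|s - t| * (s + t)) * r) / (2 * r) := by
    field_simp
  rw [h3]
  have h4 : (r * (s - t) ^ 2 + (2 * a + 2 * m) / r) / 2
      = (r ^ 2 * (s - t) ^ 2 + (2 * a + 2 * m)) / (2 * r) := by
    field_simp
  rw [h4]
  exact div_le_div_of_nonneg_right h2 (by positivity)

/-- The weight may be replaced by a constant. -/
theorem weight_est {T : Set E3} {φ q : E3 → ℝ} {lm c r N₁ N₂ N₃ : ℝ}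
    (hr : 0 < r) (hφ : ∀ x, 0 ≤ φ x) (hlm : 0 ≤ lm) (hint : IntegrableOn φ T)
    (hint2 : IntegrableOn (fun x => (Real.sqrt (φ x) - Real.sqrt lm) ^ 2) T)
    (h1 : (∫ x in T, (Real.sqrt (φ x) - Real.sqrt lm) ^ 2) ≤ N₁) (h2 : (∫ x in T, φ x) ≤ N₂)
    (hfin : volume T < ⊤) (h3 : volume.real T ≤ N₃)
    (hq : AEStronglyMeasurable q (volume.restrict T))
    (hqb : ∀ᵐ x ∂(volume.restrict T), |q x| ≤ c) (hc : 0 ≤ c) :
    |(∫ x in T, φ x * q x) - lm * ∫ x in T, q x|
      ≤ c * ((r * N₁ + (2 * N₂ + 2 * lm * N₃) / r) / 2) := by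
  have hfm : IsFiniteMeasure (volume.restrict T) := ⟨by rwa [Measure.restrict_apply_univ]⟩
  have hqi : Integrable q (volume.restrict T) := by
    refine Integrable.of_bound hq c ?_
    filter_upwards [hqb] with x hx
    rwa [Real.norm_eq_abs]
  have hφq : Integrable (fun x => φ x * q x) (volume.restrict T) := by
    have := Integrable.bdd_mul (c := c) hint hq (by
      filter_upwards [hqb] with x hx
      rwa [Real.norm_eq_abs])
    refine this.congr (Eventually.of_forall fun x => ?_)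
    simp only []
    ring
  have e1 : (∫ x in T, φ x * q x) - lm * ∫ x in T, q x = ∫ x in T, (φ x - lm) * q x := by
    rw [← integral_const_mul, ← integral_sub hφq (hqi.const_mul lm)]
    refine integral_congr_ae (Eventually.of_forall fun x => ?_)
    simp only []
    ring
  rw [e1]
  have hb : Integrable (fun x => c * ((r * (Real.sqrt (φ x) - Real.sqrt lm) ^ 2
      + (2 * φ x + 2 * lm) / r) / 2)) (volume.restrict T) := by
    refine Integrable.const_mul ?_ c
    refine Integrable.div_const ?_ 2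
    exact (hint2.const_mul r).add (((hint.const_mul 2).add (integrable_const _)).div_const r)
  have e2 : |∫ x in T, (φ x - lm) * q x| ≤ ∫ x in T, c * ((r * (Real.sqrt (φ x) - Real.sqrt lm) ^ 2
      + (2 * φ x + 2 * lm) / r) / 2) := by
    rw [← Real.norm_eq_abs]
    refine norm_integral_le_of_norm_le hb ?_
    filter_upwards [hqb] with x hx
    rw [Real.norm_eq_abs, abs_mul, mul_comm c]
    exact mul_le_mul (point_le (hφ x) hlm hr) hx (abs_nonneg _)
      (le_trans (abs_nonneg _) (point_le (hφ x) hlm hr))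
  refine e2.trans ?_
  rw [integral_const_mul]
  refine mul_le_mul_of_nonneg_left ?_ hc
  rw [integral_div]
  refine div_le_div_of_nonneg_right ?_ (by norm_num)
  have i3 : Integrable (fun x => 2 * φ x + 2 * lm) (volume.restrict T) :=
    (hint.const_mul 2).add (integrable_const _)
  rw [integral_add (hint2.const_mul r) (i3.div_const r), integral_const_mul]
  refine add_le_add (mul_le_mul_of_nonneg_left h1 hr.le) ?_
  rw [integral_div]
  refine div_le_div_of_nonneg_right ?_ hr.le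
  rw [integral_add (hint.const_mul 2) (integrable_const _), integral_const_mul]
  refine add_le_add (mul_le_mul_of_nonneg_left h2 (by norm_num)) ?_
  rw [integral_const]
  simp only [measureReal_restrict_apply_univ, smul_eq_mul]
  have : 0 ≤ 2 * lm := by positivity
  nlinarith

theorem cAnn_measurable (a b : ℝ) : MeasurableSet (cAnn a b) :=
  (measurableSet_le measurable_const measurable_norm).inter
    (measurableSet_le measurable_norm measurable_const)

theorem cAnn_sub_ball (a b : ℝ) : cAnn a b ⊆ Metric.closedBall (0 : E3) b := by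
  intro x hx
  rw [mem_closedBall_zero_iff]
  exact hx.2

theorem cAnn_lt_top (a b : ℝ) : volume (cAnn a b) < ⊤ :=
  lt_of_le_of_lt (measure_mono (cAnn_sub_ball a b))
    (isCompact_closedBall (0 : E3) b).measure_lt_top

theorem cAnn_vol (a : ℝ) {b : ℝ} (hb : 0 ≤ b) :
    volume.real (cAnn a b) ≤ b ^ 3 * volume.real (Metric.ball (0 : E3) 1) := by
  refine (measureReal_mono (cAnn_sub_ball a b)
    (isCompact_closedBall (0 : E3) b).measure_lt_top.ne).trans ?_
  rw [measureReal_def, Measure.addHaar_closedBall _ _ hb]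
  rw [ENNReal.toReal_mul, measureReal_def]
  simp [ENNReal.toReal_ofReal (pow_nonneg hb 3)]

theorem cAnn_mono {a b a' b' : ℝ} (h1 : a' ≤ a) (h2 : b ≤ b') : cAnn a b ⊆ cAnn a' b' :=
  fun _ hx => ⟨h1.trans hx.1, hx.2.trans h2⟩

theorem ae_interior {a b : ℝ} (ha : 0 < a) (hb : 0 < b) {p : E3 → Prop}
    (h : ∀ x : E3, a < ‖x‖ → ‖x‖ < b → p x) : ∀ᵐ x ∂(volume.restrict (cAnn a b)), p x := by
  rw [ae_restrict_iff' (cAnn_measurable a b)]
  have h1 : ∀ᵐ x : E3, x ∉ Metric.sphere (0 : E3) a := by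
    rw [ae_iff]
    simp only [not_not]
    exact Measure.addHaar_sphere_of_ne_zero volume 0 ha.ne'
  have h2 : ∀ᵐ x : E3, x ∉ Metric.sphere (0 : E3) b := by
    rw [ae_iff]
    simp only [not_not]
    exact Measure.addHaar_sphere_of_ne_zero volume 0 hb.ne'
  filter_upwards [h1, h2] with x hx1 hx2 hx
  rw [mem_sphere_zero_iff_norm] at hx1 hx2
  exact h x (lt_of_le_of_ne hx.1 (Ne.symm hx1)) (lt_of_le_of_ne hx.2 hx2)

theorem cont_pd {f : E3 → ℝ} (hf : ContDiff ℝ ∞ f) (i : Fin 3) : ContDiff ℝ ∞ (pd i f) := by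
  have h1 : ContDiff ℝ ∞ (fderiv ℝ f) := hf.fderiv_right (by simp)
  exact h1.clm_apply contDiff_const

theorem cont_linR {g : TensorField} (hg : MetricOn Set.univ g) : Continuous (linR g) := by
  have hs : ∀ i j, ContDiff ℝ ∞ (fun x => g x i j) := fun i j =>
    contDiffOn_univ.mp (hg.smooth i j)
  unfold linR
  refine continuous_finsetSum _ fun i _ => continuous_finsetSum _ fun j _ => ?_
  exact (cont_pd (cont_pd (hs i j) j) i).continuous.sub
    (cont_pd (cont_pd (hs i i) j) j).continuous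

theorem dec_le {l y c : ℝ} (hl : 0 < l) (hy : l / 2 ≤ y) (hc : 0 ≤ c) :
    c / y ^ 2 ≤ 4 * c / l ^ 2 := by
  have hy0 : 0 < y := by linarith
  rw [div_le_div_iff₀ (by positivity) (by positivity)]
  have h1 : l ^ 2 ≤ 4 * y ^ 2 := by nlinarith
  nlinarith [mul_le_mul_of_nonneg_left h1 hc]

theorem msz_nonneg (B : Bil) : 0 ≤ msz B := Real.sqrt_nonneg _

theorem msz_le {B : Bil} {c : ℝ} (hc : 0 ≤ c) (hB : ∀ i j, |B i j| ≤ c) : msz B ≤ 3 * c := by
  unfold msz
  rw [Real.sqrt_le_left (by positivity)]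
  have h : ∀ i j, B i j ^ 2 ≤ c ^ 2 := fun i j => sq_le_sq' (by linarith [(abs_le.mp (hB i j)).1])
    (abs_le.mp (hB i j)).2
  simp only [Fin.sum_univ_three]
  nlinarith [h 0 0, h 0 1, h 0 2, h 1 0, h 1 1, h 1 2, h 2 0, h 2 1, h 2 2]

theorem cont_msz {h : TensorField} (hh : TensorOn {0}ᶜ h) {a : ℝ} (b : ℝ) (ha : 0 < a) :
    ContinuousOn (fun x => msz (h x)) (cAnn a b) := by
  have hsub : cAnn a b ⊆ ({0}ᶜ : Set E3) := by
    intro x hx h0
    rw [Set.mem_singleton_iff] at h0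
    rw [h0] at hx
    have := hx.1
    rw [norm_zero] at this
    linarith
  unfold msz
  refine ContinuousOn.sqrt ?_
  refine continuousOn_finsetSum _ fun i _ => continuousOn_finsetSum _ fun j _ => ?_
  exact (((hh.smooth i j).continuousOn).mono hsub).pow 2

end MSIaux

open MSIaux in
theorem MSI (hSETW : Stmt_SETW) (hBETA : Stmt_BETA) (hTSTA : Stmt_TSTA) (hUPH : Stmt_UPH)
    (hMATL : Stmt_MATL) : Stmt_MSI := by
  intro P B B₃
  by_cases hex : ∃ D : Dat, Setup P D
  swap
  · exact ⟨1, one_pos, fun D hD => absurd ⟨D, hD⟩ hex⟩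
  obtain ⟨D₀, hD₀⟩ := hex
  have he0 := hD₀.eps_pos
  have he1 := hD₀.eps_le
  have hC0 := hD₀.C_pos
  have hc0 := hD₀.c_pos
  obtain ⟨β, hβ⟩ := hBETA
  obtain ⟨BU, hBU, hU⟩ := hUPH P B β hβ
  obtain ⟨BM, hBM, hM⟩ := hMATL P B
  obtain ⟨CT, hCT, hT⟩ := hTSTA P.eps he0 he1
  set V : ℝ := volume.real (Metric.ball (0 : E3) 1) with hV
  have hV0 : 0 ≤ V := measureReal_nonneg
  set C := P.C with hCdef
  set K₀ : ℝ := P.eps ^ 2 * P.c ^ 2 * ((4 : ℝ) ^ (-pe P.eps)) ^ 2 with hK₀
  have hK₀0 : 0 < K₀ := by positivity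
  -- the constant of the weight estimate
  set K : ℝ := (|B₃| + (2 * BU + 2 * |B₃| * (8 * V))) / 2 with hK
  have hK0 : 0 < K := by positivity
  set c₁ : ℝ := 12 * C + 144 * C ^ 2 with hc₁
  have hc₁0 : 0 < c₁ := by positivity
  refine ⟨CT * |B| / K₀ + CT * (1 + |B|) + 1 + BM * (|B₃| + |B₃| * (144 * C ^ 2 * V) + c₁ * K)
    + C * K + BM * BU, by positivity, ?_⟩
  intro D hS hA se lm hCut hLam
  obtain ⟨hg, hh, -, hH2, hEq, hNI, hw, hSep, -, -, -, -, -, -, -, hsb, hsb1, hsbe, hs2, hsM, hKR,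
    hlK⟩ := hSETW P D hS
  have hl := hS.l_ge
  have hgam := hS.gam_pos
  have hl0 : 0 < D.l := by linarith
  have hlm0 := hLam.nonneg
  have hlmB : lm ≤ |B₃| := hLam.le.trans (le_abs_self _)
  -- the square root of `l`
  set r := Real.sqrt D.l with hr
  have hr0 : 0 < r := Real.sqrt_pos.mpr hl0
  have hr2 : r ^ 2 = D.l := Real.sq_sqrt hl0.le
  have hr1 : 1 ≤ r := by
    rw [hr]
    exact Real.one_le_sqrt.mpr (by linarith)
  have hrl : r ≤ D.l := by
    rw [← hr2]
    exact le_self_pow₀ hr1 (by norm_num)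
  have hrp : D.l ^ (-(1 / 2 : ℝ)) = 1 / r := by
    rw [Real.rpow_neg hl0.le, ← Real.sqrt_eq_rpow, one_div]
  -- nonnegativity
  have hB0 : 0 ≤ B := by
    refine le_trans ?_ (hA.window (D.s2 P) le_rfl (by linarith))
    exact integral_nonneg fun x => mul_nonneg (pow_nonneg (hA.X_nonneg x) 3) (hA.vol_nonneg x)
  have hB20 : 0 ≤ B * D.l ^ (-(2 * pe P.eps + 1)) := by positivity
  have hph : ∀ x, 0 ≤ D.ph P x := fun x => mul_nonneg (Real.exp_pos _).le (hA.X_nonneg x)
  have hth : 0 ≤ D.th := integral_nonneg fun x => div_nonneg (msz_nonneg _) hl0.le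
  have hNd : 0 ≤ D.Nd P := integral_nonneg fun x =>
    mul_nonneg (mul_nonneg (hph x) (hS.modified.defect_nonneg x)) (hA.vol_nonneg x)
  have her : 0 ≤ D.er P se := mul_nonneg (Real.exp_pos _).le (Real.exp_pos _).le
  have hOm : MeasurableSet D.Om := hA.measOmega
  have hlt : D.sb P / 4 < D.sM P := by linarith
  -- the test function
  obtain ⟨χ, hχc, hχ01, hχ0, hχ1, -, hχe, hmain⟩ := hT D.Om D.vol (D.w P) (D.X P) (D.Phi P)
    (D.Di P) (D.Su P) (D.sb P) (D.s2 P) (D.sM P) B (B * D.l ^ (-(2 * pe P.eps + 1))) hA hsb hsb1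
    (by linarith) hB0 hB20 se (by linarith [hCut.lower]) hCut.upper
  obtain ⟨hM1, -⟩ := hM D hS hA
  have hMa := hM1 χ se hχc hχ01 hχ0 hχ1 hCut.upper hχe
  obtain ⟨-, hphI, hphB⟩ := hU D hS hA
  -- integrability of the terms with the test function
  set ψ : ℝ → ℝ := fun s => χ s * Real.exp (s / (2 - P.eps)) with hψ
  have hψc : Continuous ψ := hχc.mul (Real.continuous_exp.comp (continuous_id.div_const _))
  have hψs : Function.support ψ ⊆ Set.Icc (D.sb P / 2) (se + 1) := by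
    intro s hs
    rw [Function.mem_support] at hs
    constructor
    · by_contra hlt'
      push Not at hlt'
      exact hs (by simp only [hψ, hχ0 s hlt'.le, zero_mul])
    · by_contra hlt'
      push Not at hlt'
      exact hs (by simp only [hψ, hχe s hlt'.le, zero_mul])
  have hψt : tsupport ψ ⊆ Set.Icc (D.sb P / 2) (se + 1) := closure_minimal hψs isClosed_Icc
  have hψk : HasCompactSupport ψ := isCompact_Icc.of_isClosed_subset (isClosed_tsupport _) hψt
  have hψI : tsupport ψ ⊆ Set.Ioo (D.sb P / 4) (D.sM P) := by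
    intro s hs
    have := hψt hs
    exact ⟨by linarith [this.1], by linarith [this.2, hCut.upper]⟩
  have hiS := ABSMaux.int_mul (P := P) (D := D) hA.int_S hw hOm hlt hψc hψk hψI
  have hiD := ABSMaux.int_mul (P := P) (D := D) hA.int_D hw hOm hlt hψc hψk hψI
  have hSD : (∫ x in D.Om, χ (D.w P x) * Real.exp (D.w P x / (2 - P.eps)) * D.Su P x * D.vol x)
      ≤ ∫ x in D.Om, χ (D.w P x) * Real.exp (D.w P x / (2 - P.eps)) * (D.Su P x + D.Di P x / 2)
        * D.vol x := by
    refine integral_mono_ae ?_ ?_ ?_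
    · refine Integrable.congr hiS (Eventually.of_forall fun x => ?_)
      simp only [hψ]
      ring
    · refine (Integrable.add hiS (hiD.div_const 2)).congr (Eventually.of_forall fun x => ?_)
      simp only [hψ, Pi.add_apply]
      ring
    · filter_upwards [hA.D_nonneg] with x hx
      have h1 := (hχ01 (D.w P x)).1
      have h2 := (Real.exp_pos (D.w P x / (2 - P.eps))).le
      have h3 := hA.vol_nonneg x
      refine mul_le_mul_of_nonneg_right (mul_le_mul_of_nonneg_left ?_ (mul_nonneg h1 h2)) h3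
      linarith
  -- the error of the inner test function
  have hB2 : B * D.l ^ (-(2 * pe P.eps + 1)) / D.sb P ^ 2 = B / K₀ / D.l := by
    have e1 : D.l ^ (-(2 * pe P.eps + 1)) = (D.l ^ (-pe P.eps)) ^ 2 / D.l := by
      rw [show -(2 * pe P.eps + 1) = -pe P.eps + -pe P.eps + -1 by ring, Real.rpow_add hl0,
        Real.rpow_add hl0, Real.rpow_neg_one]
      ring
    have e2 : D.sb P = P.eps * P.c * ((4 : ℝ) ^ (-pe P.eps) * D.l ^ (-pe P.eps)) := by
      unfold Dat.sb sbE
      rw [Real.mul_rpow (by norm_num) hl0.le]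
    rw [e1, e2, hK₀]
    have e3 : 0 < D.l ^ (-pe P.eps) := Real.rpow_pos_of_pos hl0 _
    have e4 : 0 < (4 : ℝ) ^ (-pe P.eps) := by positivity
    field_simp
  -- inclusions
  have hs1 : cAnn (D.l / 2) D.l ⊆ cAnn (D.l / 2) (D.Kl P) := cAnn_mono le_rfl (by linarith)
  have hs2' : cAnn D.l (2 * D.l) ⊆ cAnn (D.l / 2) (D.Kl P) := cAnn_mono (by linarith) (by linarith)
  have hs3 : cAnn (D.l / 2) (D.Kl P) ⊆ cAnn (D.l / 4) (D.Kl P) := cAnn_mono (by linarith) le_rfl
  -- the weight estimate for a subset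
  have key : ∀ (T : Set E3) (q : E3 → ℝ) (c : ℝ), MeasurableSet T →
      T ⊆ cAnn (D.l / 2) (D.Kl P) → T ⊆ cAnn 0 (2 * D.l) →
      AEStronglyMeasurable q (volume.restrict T) →
      (∀ᵐ x ∂(volume.restrict T), |q x| ≤ c / D.l ^ 3) → 0 ≤ c →
      |(∫ x in T, D.ph P x * q x) - lm * ∫ x in T, q x| ≤ c * K / r := by
    intro T q c hTm hT1 hT2 hq hqb hc
    have h1 : (∫ x in T, (Real.sqrt (D.ph P x) - Real.sqrt lm) ^ 2) ≤ |B₃| * D.l ^ 2 := by
      refine (setIntegral_mono_set hLam.int (Eventually.of_forall fun x => sq_nonneg _)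
        (Eventually.of_forall hT1)).trans ?_
      exact hLam.close.trans (mul_le_mul_of_nonneg_right (le_abs_self _) (sq_nonneg _))
    have h2 : (∫ x in T, D.ph P x) ≤ BU * D.l ^ 3 := by
      refine (setIntegral_mono_set hphI (Eventually.of_forall hph)
        (Eventually.of_forall (hT1.trans hs3))).trans hphB
    have h3 : volume.real T ≤ 8 * V * D.l ^ 3 := by
      refine (measureReal_mono hT2 (cAnn_lt_top _ _).ne).trans ?_
      refine (cAnn_vol 0 (by positivity)).trans (le_of_eq ?_)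
      ring
    have h4 := weight_est (T := T) hr0 hph hlm0 (hphI.mono_set (hT1.trans hs3))
      (hLam.int.mono_set hT1) h1 h2 ((measure_mono hT2).trans_lt (cAnn_lt_top _ _)) h3 hq hqb
      (by positivity)
    refine h4.trans ?_
    rw [← hr2]
    have e1 : c / (r ^ 2) ^ 3 * ((r * (|B₃| * (r ^ 2) ^ 2)
        + (2 * (BU * (r ^ 2) ^ 3) + 2 * lm * (8 * V * (r ^ 2) ^ 3)) / r) / 2)
        = c * ((|B₃| + (2 * BU + 2 * lm * (8 * V))) / 2) / r := by
      field_simp
    rw [e1]
    refine div_le_div_of_nonneg_right (mul_le_mul_of_nonneg_left ?_ hc) hr0.le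
    rw [hK]
    have : 2 * lm * (8 * V) ≤ 2 * |B₃| * (8 * V) :=
      mul_le_mul_of_nonneg_right (by linarith) (by positivity)
    linarith
  -- the transition region
  have hL := key (cAnn D.l (2 * D.l)) (linR D.g') C (cAnn_measurable _ _) hs2'
    (cAnn_mono hl0.le le_rfl) (cont_linR hS.modified.metric).aestronglyMeasurable
    (ae_interior hl0 (by positivity) hS.modified.trans_sup) hC0.le
  rw [hS.modified.mass] at hL
  -- the shell
  have hmb : ∀ x ∈ cAnn (D.l / 2) D.l, msz (D.h x) ≤ 12 * C / D.l ^ 2 := by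
    intro x hx
    have hx1 : D.l / 2 ≤ ‖x‖ := hx.1
    have hx0 : 0 < ‖x‖ := by linarith
    have h1 : ∀ i j, |D.h x i j| ≤ 4 * C / D.l ^ 2 := by
      intro i j
      exact (hS.hdecay x (by linarith) i j).trans (dec_le hl0 hx1 hC0.le)
    refine (msz_le (by positivity) h1).trans (le_of_eq ?_)
    ring
  have hcm : ContinuousOn (fun x => msz (D.h x)) (cAnn (D.l / 2) D.l) :=
    cont_msz hS.tensor0 _ (by positivity)
  have hfin : volume (cAnn (D.l / 2) D.l) < ⊤ := cAnn_lt_top _ _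
  have hqm1 : AEStronglyMeasurable (fun x => msz (D.h x) / D.l)
      (volume.restrict (cAnn (D.l / 2) D.l)) :=
    (hcm.div_const _).aestronglyMeasurable (cAnn_measurable _ _)
  have hqm2 : AEStronglyMeasurable (fun x => msz (D.h x) ^ 2)
      (volume.restrict (cAnn (D.l / 2) D.l)) :=
    (hcm.pow 2).aestronglyMeasurable (cAnn_measurable _ _)
  have hl3 : D.l ^ 3 ≤ D.l ^ 4 := pow_le_pow_right₀ (by linarith) (by norm_num)
  have hb1 : ∀ x ∈ cAnn (D.l / 2) D.l, msz (D.h x) / D.l ≤ 12 * C / D.l ^ 3 := by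
    intro x hx
    have := hmb x hx
    rw [div_le_iff₀ hl0]
    refine this.trans (le_of_eq ?_)
    field_simp
  have hb2 : ∀ x ∈ cAnn (D.l / 2) D.l, msz (D.h x) ^ 2 ≤ 144 * C ^ 2 / D.l ^ 4 := by
    intro x hx
    have h1 := hmb x hx
    have h2 := msz_nonneg (D.h x)
    refine (pow_le_pow_left₀ h2 h1 2).trans (le_of_eq ?_)
    field_simp
    norm_num
  have hb3 : 144 * C ^ 2 / D.l ^ 4 ≤ 144 * C ^ 2 / D.l ^ 3 :=
    div_le_div_of_nonneg_left (by positivity) (by positivity) hl3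
  have hH := key (cAnn (D.l / 2) D.l) (fun x => msz (D.h x) / D.l + msz (D.h x) ^ 2) c₁
    (cAnn_measurable _ _) hs1 (cAnn_mono (by positivity) (by linarith)) (hqm1.add hqm2)
    ((ae_restrict_iff' (cAnn_measurable _ _)).mpr (Eventually.of_forall fun x hx => by
      have h1 := hb1 x hx
      have h2 := (hb2 x hx).trans hb3
      have h3 := msz_nonneg (D.h x)
      rw [abs_of_nonneg (by positivity), hc₁, add_div]
      linarith)) hc₁0.le
  have hfm : IsFiniteMeasure (volume.restrict (cAnn (D.l / 2) D.l)) :=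
    ⟨by rwa [Measure.restrict_apply_univ]⟩
  have hi1 : IntegrableOn (fun x => msz (D.h x) / D.l) (cAnn (D.l / 2) D.l) := by
    refine Integrable.of_bound hqm1 (12 * C / D.l ^ 3) ?_
    refine (ae_restrict_iff' (cAnn_measurable _ _)).mpr (Eventually.of_forall fun x hx => ?_)
    rw [Real.norm_eq_abs, abs_of_nonneg (div_nonneg (msz_nonneg _) hl0.le)]
    exact hb1 x hx
  have hi2 : IntegrableOn (fun x => msz (D.h x) ^ 2) (cAnn (D.l / 2) D.l) := by
    refine Integrable.of_bound hqm2 (144 * C ^ 2 / D.l ^ 4) ?_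
    refine (ae_restrict_iff' (cAnn_measurable _ _)).mpr (Eventually.of_forall fun x hx => ?_)
    rw [Real.norm_eq_abs, abs_of_nonneg (sq_nonneg _)]
    exact hb2 x hx
  have hq : (∫ x in cAnn (D.l / 2) D.l, (msz (D.h x) / D.l + msz (D.h x) ^ 2))
      ≤ D.th + 144 * C ^ 2 * V / r := by
    rw [integral_add hi1 hi2]
    refine add_le_add le_rfl ?_
    have h1 : (∫ x in cAnn (D.l / 2) D.l, msz (D.h x) ^ 2)
        ≤ ∫ _x in cAnn (D.l / 2) D.l, 144 * C ^ 2 / D.l ^ 4 :=
      setIntegral_mono_on hi2 (integrable_const _) (cAnn_measurable _ _) hb2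
    refine h1.trans ?_
    rw [integral_const]
    simp only [measureReal_restrict_apply_univ, smul_eq_mul]
    have h2 : volume.real (cAnn (D.l / 2) D.l) ≤ D.l ^ 3 * V := cAnn_vol _ hl0.le
    have h3 : volume.real (cAnn (D.l / 2) D.l) * (144 * C ^ 2 / D.l ^ 4)
        ≤ D.l ^ 3 * V * (144 * C ^ 2 / D.l ^ 4) := mul_le_mul_of_nonneg_right h2 (by positivity)
    refine h3.trans ?_
    have h4 : D.l ^ 3 * V * (144 * C ^ 2 / D.l ^ 4) = 144 * C ^ 2 * V / D.l := by
      field_simp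
    rw [h4]
    exact div_le_div_of_nonneg_left (by positivity) hr0 hrl
  -- the integral of the weight
  have hP : (∫ x in cAnn D.l (2 * D.l), D.ph P x) ≤ BU * D.l ^ 3 :=
    (setIntegral_mono_set hphI (Eventually.of_forall hph)
      (Eventually.of_forall (hs2'.trans hs3))).trans hphB
  have hP' : BM / D.l ^ 4 * (∫ x in cAnn D.l (2 * D.l), D.ph P x) ≤ BM * BU / r := by
    have h1 : BM / D.l ^ 4 * (∫ x in cAnn D.l (2 * D.l), D.ph P x)
        ≤ BM / D.l ^ 4 * (BU * D.l ^ 3) := mul_le_mul_of_nonneg_left hP (by positivity)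
    refine h1.trans ?_
    have h4 : BM / D.l ^ 4 * (BU * D.l ^ 3) = BM * BU / D.l := by
      field_simp
    rw [h4]
    exact div_le_div_of_nonneg_left (by positivity) hr0 hrl
  -- collect
  have hB2' : CT * (B / K₀ / D.l) ≤ CT * |B| / K₀ / r := by
    rw [abs_of_nonneg hB0]
    have h1 : CT * (B / K₀ / D.l) = CT * B / K₀ / D.l := by ring
    rw [h1]
    exact div_le_div_of_nonneg_left (by positivity) hr0 hrl
  have hcol : 4 * Real.pi * (2 - P.eps) ≤ CT * (B / K₀ / D.l + (1 + B) * D.er P se)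
      + (D.Nd P + BM * (∫ x in cAnn (D.l / 2) D.l,
            D.ph P x * (msz (D.h x) / D.l + msz (D.h x) ^ 2))
          - 1 / 2 * (∫ x in cAnn D.l (2 * D.l), D.ph P x * linR D.g' x)
          + BM / D.l ^ 4 * (∫ x in cAnn D.l (2 * D.l), D.ph P x)) := by
    rw [hB2] at hmain
    have h1 : (1 + B) * Real.exp (D.s2 P / (2 - P.eps))
        * Real.exp (-((lam P.eps / 2 - 1 / (2 - P.eps)) * (se - D.s2 P)))
        = (1 + B) * D.er P se := by
      unfold Dat.er
      ring
    rw [h1] at hmain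
    linarith
  have hIh : (∫ x in cAnn (D.l / 2) D.l, D.ph P x * (msz (D.h x) / D.l + msz (D.h x) ^ 2))
      ≤ |B₃| * D.th + (|B₃| * (144 * C ^ 2 * V) + c₁ * K) / r := by
    have h1 := (abs_le.mp hH).2
    have hqn : 0 ≤ ∫ x in cAnn (D.l / 2) D.l, (msz (D.h x) / D.l + msz (D.h x) ^ 2) :=
      integral_nonneg fun x => add_nonneg (div_nonneg (msz_nonneg _) hl0.le) (sq_nonneg _)
    have h2 : lm * (∫ x in cAnn (D.l / 2) D.l, (msz (D.h x) / D.l + msz (D.h x) ^ 2))
        ≤ |B₃| * (D.th + 144 * C ^ 2 * V / r) := by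
      refine mul_le_mul hlmB hq hqn (abs_nonneg _)
    have h3 : (|B₃| * (144 * C ^ 2 * V) + c₁ * K) / r
        = |B₃| * (144 * C ^ 2 * V / r) + c₁ * K / r := by ring
    rw [h3]
    linarith
  have hIL : -(1 / 2 * (∫ x in cAnn D.l (2 * D.l), D.ph P x * linR D.g' x))
      ≤ 8 * Real.pi * massIntegral D.g D.l * lm + C * K / r := by
    have h1 := (abs_le.mp hL).1
    have h3 : 0 ≤ C * K / r := by positivity
    linarith
  have hIh' : BM * (∫ x in cAnn (D.l / 2) D.l,
      D.ph P x * (msz (D.h x) / D.l + msz (D.h x) ^ 2))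
      ≤ BM * (|B₃| * D.th + (|B₃| * (144 * C ^ 2 * V) + c₁ * K) / r) :=
    mul_le_mul_of_nonneg_left hIh hBM.le
  rw [hrp]
  have hBabs : |B| = B := abs_of_nonneg hB0
  rw [hBabs] at hB2' ⊢
  -- nonnegative pieces
  have p1 : 0 ≤ CT * B / K₀ := by positivity
  have p2 : 0 ≤ CT * (1 + B) := by positivity
  have p3 : 0 ≤ BM * |B₃| := by positivity
  have p4 : 0 ≤ BM * (|B₃| * (144 * C ^ 2 * V) + c₁ * K) := by positivity
  have p5 : 0 ≤ C * K := by positivity
  have p6 : 0 ≤ BM * BU := by positivity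
  set ir := 1 / r with hir
  have hir0 : 0 ≤ ir := by positivity
  have f1 : CT * B / K₀ / r = CT * B / K₀ * ir := by rw [hir]; ring
  have f2 : (|B₃| * (144 * C ^ 2 * V) + c₁ * K) / r
      = (|B₃| * (144 * C ^ 2 * V) + c₁ * K) * ir := by rw [hir]; ring
  have f3 : C * K / r = C * K * ir := by rw [hir]; ring
  have f4 : BM * BU / r = BM * BU * ir := by rw [hir]; ring
  rw [f1] at hB2'
  rw [f2] at hIh'
  rw [f3] at hIL
  rw [f4] at hP'
  set A₁ := CT * B / K₀
  set A₂ := CT * (1 + B)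
  set A₄ := |B₃| * (144 * C ^ 2 * V) + c₁ * K
  have g1 : CT * (B / K₀ / D.l + (1 + B) * D.er P se)
      ≤ A₁ * ir + A₂ * D.er P se := by
    have : CT * (B / K₀ / D.l + (1 + B) * D.er P se)
        = CT * (B / K₀ / D.l) + A₂ * D.er P se := by ring
    rw [this]
    linarith
  have total : 4 * Real.pi * (2 - P.eps) ≤ 8 * Real.pi * massIntegral D.g D.l * lm
      + (A₁ + BM * A₄ + C * K + BM * BU) * ir + BM * |B₃| * D.th + D.Nd P + A₂ * D.er P se := by
    linarith [hcol, hIh', hIL, hP', g1]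
  have hfin2 : (A₁ + BM * A₄ + C * K + BM * BU) * ir + BM * |B₃| * D.th + D.Nd P
      + A₂ * D.er P se ≤ (A₁ + A₂ + 1 + BM * (|B₃| + A₄) + C * K + BM * BU)
        * (ir + D.th + D.Nd P + D.er P se) := by
    have q1 : 0 ≤ (A₂ + 1 + BM * |B₃|) * ir := by positivity
    have q2 : 0 ≤ (A₁ + A₂ + 1 + BM * A₄ + C * K + BM * BU) * D.th := by positivity
    have q3 : 0 ≤ (A₁ + A₂ + BM * (|B₃| + A₄) + C * K + BM * BU) * D.Nd P := by positivity
    have q4 : 0 ≤ (A₁ + 1 + BM * (|B₃| + A₄) + C * K + BM * BU) * D.er P se := by positivity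
    linarith [q1, q2, q3, q4]
  have hform : A₁ + A₂ + 1 + BM * (|B₃| + |B₃| * (144 * C ^ 2 * V) + c₁ * K) + C * K + BM * BU
      = A₁ + A₂ + 1 + BM * (|B₃| + A₄) + C * K + BM * BU := by
    simp only [A₄]
    ring
  rw [hform]
  linarith

end Pool.Agent.PFlow


end
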