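import Mathlib
import Pool.Agent.PFlow.StmtsE3

/-! Parts: PFlow.E.MATL -/

section

/-!
# Lower bound for the matter term (module MATL)
-/

open MeasureTheory Filter Topology
open scoped ContDiff ENNReal

namespace Pool.Agent.PFlow

open Pool.Agent.PenroseSph

namespace MATLM

/-- The determinant of a `3 × 3` matrix with entries of size at most `c`. -/
theorem det_le (A : Bil) (c : ℝ) (h : ∀ i j, |A i j| ≤ c) : A.det ≤ 6 * c ^ 3 := by
  have hc : 0 ≤ c := (abs_nonneg _).trans (h 0 0)
  have t : ∀ i j k l m n : Fin 3, |A i j * A k l * A m n| ≤ c ^ 3 := by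
    intro i j k l m n
    rw [abs_mul, abs_mul]
    calc |A i j| * |A k l| * |A m n| ≤ c * c * c := by
          have h1 := h i j
          have h2 := h k l
          have h3 := h m n
          gcongr
      _ = c ^ 3 := by ring
  rw [Matrix.det_fin_three]
  have a1 := (abs_le.1 (t 0 0 1 1 2 2))
  have a2 := (abs_le.1 (t 0 0 1 2 2 1))
  have a3 := (abs_le.1 (t 0 1 1 0 2 2))
  have a4 := (abs_le.1 (t 0 1 1 2 2 0))
  have a5 := (abs_le.1 (t 0 2 1 0 2 1))
  have a6 := (abs_le.1 (t 0 2 1 1 2 0))
  linarith [a1.1, a1.2, a2.1, a2.2, a3.1, a3.2, a4.1, a4.2, a5.1, a5.2, a6.1, a6.2]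

theorem isCompact_cann (a b : ℝ) : IsCompact (cAnn a b) := by
  refine (isCompact_closedBall (0 : E3) b).of_isClosed_subset ?_ ?_
  · exact (isClosed_le continuous_const continuous_norm).inter
      (isClosed_le continuous_norm continuous_const)
  · intro x hx
    rw [mem_closedBall_zero_iff]
    exact hx.2

theorem cont_entry {g : TensorField} (hg : MetricOn Set.univ g) (i j : Fin 3) :
    ContDiff ℝ ∞ (fun x => g x i j) := contDiffOn_univ.1 (hg.smooth i j)

theorem cont_vol {g : TensorField} (hg : MetricOn Set.univ g) : Continuous (volDen g) := by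
  unfold volDen
  refine Real.continuous_sqrt.comp ?_
  have h : ∀ i j, Continuous (fun x => g x i j) := fun i j => (cont_entry hg i j).continuous
  simp only [Matrix.det_fin_three]
  have h00 := h 0 0
  have h01 := h 0 1
  have h02 := h 0 2
  have h10 := h 1 0
  have h11 := h 1 1
  have h12 := h 1 2
  have h20 := h 2 0
  have h21 := h 2 1
  have h22 := h 2 2
  fun_prop

theorem contDiff_pd' {f : E3 → ℝ} (h : ContDiff ℝ ∞ f) (i : Fin 3) : ContDiff ℝ ∞ (pd i f) := by
  have h1 : ContDiff ℝ ∞ (fderiv ℝ f) := h.fderiv_right (m := ∞) (by simp)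
  exact h1.clm_apply contDiff_const

theorem cont_linR {g : TensorField} (hg : MetricOn Set.univ g) : Continuous (linR g) := by
  unfold linR
  refine continuous_finsetSum _ fun i _ => continuous_finsetSum _ fun j _ => ?_
  exact (contDiff_pd' (contDiff_pd' (cont_entry hg i j) j) i).continuous.sub
    (contDiff_pd' (contDiff_pd' (cont_entry hg i i) j) j).continuous

theorem msz_nonneg (B : Bil) : 0 ≤ msz B := Real.sqrt_nonneg _

theorem msz_le (B : Bil) (c : ℝ) (h : ∀ i j, |B i j| ≤ c) : msz B ≤ 3 * c := by
  have hc : 0 ≤ c := (abs_nonneg _).trans (h 0 0)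
  unfold msz
  rw [Real.sqrt_le_left (by positivity)]
  have h1 : ∀ i j, B i j ^ 2 ≤ c ^ 2 := fun i j => sq_le_sq' (abs_le.1 (h i j)).1 (abs_le.1 (h i j)).2
  calc ∑ i, ∑ j, B i j ^ 2 ≤ ∑ _i : Fin 3, ∑ _j : Fin 3, c ^ 2 :=
        Finset.sum_le_sum fun i _ => Finset.sum_le_sum fun j _ => h1 i j
    _ = (3 * c) ^ 2 := by
        simp only [Finset.sum_const, Finset.card_univ, Fintype.card_fin]
        ring

theorem ae_spheres (l : ℝ) : ∀ᵐ x : E3, ‖x‖ ≠ l / 2 ∧ ‖x‖ ≠ l ∧ ‖x‖ ≠ 2 * l := by
  have h : ∀ r : ℝ, ∀ᵐ x : E3, ‖x‖ ≠ r := by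
    intro r
    have h1 : (volume : Measure E3) (Metric.sphere (0 : E3) r) = 0 := Measure.addHaar_sphere _ _ _
    refine (measure_eq_zero_iff_ae_notMem.1 h1).mono fun x hx => ?_
    intro h2
    exact hx (by simpa using h2)
  filter_upwards [h (l / 2), h l, h (2 * l)] with x h1 h2 h3
  exact ⟨h1, h2, h3⟩

/-- The facts used below. -/
structure Fa (P : Par) (D : Dat) : Prop where
  l_ge : 4 ≤ D.l
  R_pos : 0 < D.R
  lR : 8 * D.l ≤ D.R
  kR : 2 / D.R ≤ P.kap / D.l
  kl : P.kap / D.l ≤ D.l / 4
  wm : Measurable (D.w P)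
  lt_s2 : ∀ x ∈ D.Om, ‖x‖ < 4 * D.l → D.w P x < D.s2 P
  gt_sb : ∀ x ∈ D.Om, 1 / (4 * D.l) < ‖x‖ → D.sb P < D.w P x
  sb_pos : 0 < D.sb P
  sb_s2 : D.sb P < D.s2 P
  s2_sM : D.s2 P < D.sM P
  Kl_l : 4 * D.l ≤ D.Kl P
  low : ∀ x ∈ D.Om, D.sb P / 4 ≤ D.w P x → P.kap / D.l ≤ ‖x‖
  X0 : ∀ x, 0 ≤ D.X P x
  ph0 : ∀ x, 0 ≤ D.ph P x
  vol0 : ∀ x, 0 ≤ D.vol x
  volc : Continuous D.vol
  volle : ∀ x : E3, 1 ≤ ‖x‖ → D.vol x ≤ Real.sqrt (6 * (1 + P.C) ^ 3)

theorem fa (hSETW : Stmt_SETW) (P : Par) (D : Dat) (hS : Setup P D) : Fa P D := by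
  obtain ⟨hmet, hten, h2n, hH2, hEq, hNI, hwm, hSep1, hSep2, hRhalf, hs2, hsb, hup, hKl, hcpt,
    sb_pos, sb_le, sb_eps, s2_1, s2_sM, Kl_R, Kl_l⟩ := hSETW P D hS
  have hl : 4 ≤ D.l := hS.l_ge
  have hl0 : 0 < D.l := by linarith
  have hR : 8 * D.l ≤ D.R := by linarith
  have hR0 : 0 < D.R := by linarith
  have hk0 := hS.kap_pos
  have hg := hS.gam_pos
  refine ⟨hl, hR0, hR, ?_, ?_, hwm, ?_, hsb, sb_pos, by linarith, by linarith, Kl_l, ?_, ?_, ?_,
    ?_, ?_, ?_⟩
  · have h1 := hS.R_ge'
    rw [div_le_iff₀ hk0] at h1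
    rw [div_le_div_iff₀ hR0 hl0]
    linarith
  · rw [div_le_iff₀ hl0]
    have h1 := hS.kap_le
    nlinarith
  · intro x hx hx4
    by_contra hc
    push Not at hc
    have := hs2 x hx hc
    linarith
  · intro x hx h
    exact hS.located.low' x hx h
  · intro x
    exact Real.sqrt_nonneg _
  · intro x
    exact mul_nonneg (Real.exp_pos _).le (Real.sqrt_nonneg _)
  · intro x
    exact Real.sqrt_nonneg _
  · exact cont_vol hS.modified.metric
  · intro x hx
    refine Real.sqrt_le_sqrt (det_le _ _ fun i j => ?_)
    have h1 := (hS.modified.decay1 x hx i j).1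
    have hC := hS.C_pos
    have h2 : P.C / ‖x‖ ≤ P.C := div_le_self hC.le hx
    have h3 : |(1 : Bil) i j| ≤ 1 := by
      rw [Matrix.one_apply]
      split_ifs <;> simp
    have h4 : |D.g' x i j| ≤ |D.g' x i j - (1 : Bil) i j| + |(1 : Bil) i j| := by
      have := abs_add_le (D.g' x i j - (1 : Bil) i j) ((1 : Bil) i j)
      simpa using this
    linarith

theorem measOm (D : Dat) : MeasurableSet D.Om :=
  ((isOpen_lt continuous_const continuous_norm).inter
    (isOpen_lt continuous_norm continuous_const)).measurableSet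

theorem intXvol (hABSI : Stmt_ABSI) {P : Par} {D : Dat} (hS : Setup P D) (hF : Fa P D) :
    LvlInt P D (fun x => D.X P x * D.vol x) := by
  obtain ⟨i1, i2, -, -, -, -, -, hm⟩ := hABSI P D hS
  intro s s' h1 h2 h3
  have hsub : D.Om ∩ {x | s ≤ D.w P x ∧ D.w P x ≤ s'} ⊆ D.Om := Set.inter_subset_left
  refine Integrable.mono' ((i1 s s' h1 h2 h3).add (i2 s s' h1 h2 h3)) ?_ ?_
  · exact (hm.mono_set hsub).mul hF.volc.aestronglyMeasurable
  · refine Eventually.of_forall fun x => ?_
    have hX := hF.X0 x
    have hv := hF.vol0 x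
    rw [Real.norm_eq_abs, abs_of_nonneg (mul_nonneg hX hv)]
    show D.X P x * D.vol x ≤ D.vol x + D.X P x ^ 3 * D.vol x
    have h4 : D.X P x ≤ 1 + D.X P x ^ 3 := by
      by_cases h5 : D.X P x ≤ 1
      · have : 0 ≤ D.X P x ^ 3 := by positivity
        linarith
      · push Not at h5
        have h6 : 1 ≤ D.X P x ^ 2 := by nlinarith
        nlinarith [mul_le_mul_of_nonneg_left h6 hX]
    nlinarith

/-- The region of the defect. -/
def RA (P : Par) (D : Dat) : Set E3 := cAnn (P.kap / D.l) D.l ∩ {x | D.sb P / 2 ≤ D.w P x}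

theorem measRA {P : Par} {D : Dat} (hF : Fa P D) : MeasurableSet (RA P D) :=
  (isCompact_cann _ _).measurableSet.inter (measurableSet_le measurable_const hF.wm)

theorem cann_sub {P : Par} {D : Dat} (hF : Fa P D) {a b : ℝ} (ha : P.kap / D.l ≤ a)
    (hb : b ≤ 4 * D.l) : cAnn a b ⊆ D.Om := by
  intro x hx
  have h1 := hF.kR
  have h2 : 1 / D.R < 2 / D.R := by
    rw [div_lt_div_iff_of_pos_right hF.R_pos]
    norm_num
  have h3 := hF.lR
  have h4 := hF.l_ge
  exact ⟨by linarith [hx.1], by linarith [hx.2]⟩

theorem RA_sub {P : Par} {D : Dat} (hF : Fa P D) :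
    RA P D ⊆ D.Om ∩ {x | D.sb P / 2 ≤ D.w P x ∧ D.w P x ≤ D.s2 P} := by
  intro x hx
  have h4 := hF.l_ge
  have h1 : x ∈ D.Om := cann_sub hF le_rfl (by linarith) hx.1
  refine ⟨h1, hx.2, (hF.lt_s2 x h1 ?_).le⟩
  linarith [hx.1.2]

theorem int_defect (hABSI : Stmt_ABSI) {P : Par} {D : Dat} (hS : Setup P D) (hF : Fa P D) :
    IntegrableOn (fun x => D.ph P x * D.e x * D.vol x) (RA P D) := by
  obtain ⟨-, -, -, -, -, -, -, hm⟩ := hABSI P D hS
  have h1 := intXvol hABSI hS hF (D.sb P / 2) (D.s2 P) (by linarith [hF.sb_pos])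
    (by linarith [hF.sb_pos, hF.sb_s2]) hF.s2_sM
  have h2 := h1.mono_set (RA_sub hF)
  obtain ⟨Me, hMe⟩ := (isCompact_cann (P.kap / D.l) D.l).exists_bound_of_continuousOn
    hS.modified.defect_cont.continuousOn
  have he : 0 < 2 - P.eps := by linarith [hS.eps_le]
  have h3 : ∀ x ∈ RA P D, ‖Real.exp (D.w P x / (2 - P.eps)) * D.e x‖
      ≤ Real.exp (D.s2 P / (2 - P.eps)) * Me := by
    intro x hx
    rw [norm_mul, Real.norm_eq_abs, abs_of_pos (Real.exp_pos _)]
    refine mul_le_mul ?_ (hMe x hx.1) (norm_nonneg _) (Real.exp_pos _).le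
    refine Real.exp_le_exp.2 (div_le_div_of_nonneg_right ?_ he.le)
    exact (RA_sub hF hx).2.2
  have h4 : IntegrableOn (fun x => (Real.exp (D.w P x / (2 - P.eps)) * D.e x)
      * (D.X P x * D.vol x)) (RA P D) := by
    refine Integrable.bdd_mul h2 ?_ ((ae_restrict_iff' (measRA hF)).2 (Eventually.of_forall h3))
    exact ((hF.wm.div_const _).exp.mul
      hS.modified.defect_cont.measurable).aestronglyMeasurable
  refine h4.congr (Eventually.of_forall fun x => ?_)
  show _ = D.ph P x * D.e x * D.vol x
  unfold Dat.ph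
  ring

theorem int_msz {P : Par} {D : Dat} (hS : Setup P D) (hF : Fa P D)
    (hp : IntegrableOn (D.ph P) (cAnn (D.l / 4) (D.Kl P))) :
    IntegrableOn (fun x => D.ph P x * (msz (D.h x) / D.l + msz (D.h x) ^ 2))
      (cAnn (D.l / 2) D.l) := by
  have h4 := hF.l_ge
  have hKl := hF.Kl_l
  have hsub : cAnn (D.l / 2) D.l ⊆ cAnn (D.l / 4) (D.Kl P) := fun x hx =>
    ⟨by linarith [hx.1], by linarith [hx.2]⟩
  have h1 := hp.mono_set hsub
  have hc : ContinuousOn (fun x => msz (D.h x)) (cAnn (D.l / 2) D.l) := by
    unfold msz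
    refine Real.continuous_sqrt.comp_continuousOn ?_
    refine continuousOn_finsetSum _ fun i _ => continuousOn_finsetSum _ fun j _ => ?_
    refine ((hS.tensor0.smooth i j).continuousOn.pow 2).mono ?_
    intro x hx hx0
    have hx1 := hx.1
    rw [Set.mem_singleton_iff] at hx0
    rw [hx0, norm_zero] at hx1
    linarith
  have hc2 : ContinuousOn (fun x => msz (D.h x) / D.l + msz (D.h x) ^ 2)
      (cAnn (D.l / 2) D.l) := (hc.div_const _).add (hc.pow 2)
  obtain ⟨Mh, hMh⟩ := (isCompact_cann (D.l / 2) D.l).exists_bound_of_continuousOn hc2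
  have h5 : IntegrableOn (fun x => (msz (D.h x) / D.l + msz (D.h x) ^ 2) * D.ph P x)
      (cAnn (D.l / 2) D.l) := by
    refine Integrable.bdd_mul h1 ?_ ((ae_restrict_iff'
      (isCompact_cann _ _).measurableSet).2 (Eventually.of_forall hMh))
    exact hc2.aestronglyMeasurable (isCompact_cann _ _).measurableSet
  refine h5.congr (Eventually.of_forall fun x => ?_)
  show _ = D.ph P x * (msz (D.h x) / D.l + msz (D.h x) ^ 2)
  ring

theorem int_linR {P : Par} {D : Dat} (hS : Setup P D) (hF : Fa P D)
    (hp : IntegrableOn (D.ph P) (cAnn (D.l / 4) (D.Kl P))) :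
    IntegrableOn (fun x => D.ph P x * linR D.g' x) (cAnn D.l (2 * D.l)) := by
  have h4 := hF.l_ge
  have hKl := hF.Kl_l
  have hsub : cAnn D.l (2 * D.l) ⊆ cAnn (D.l / 4) (D.Kl P) := fun x hx =>
    ⟨by linarith [hx.1], by linarith [hx.2]⟩
  have hc := cont_linR hS.modified.metric
  obtain ⟨Mh, hMh⟩ := (isCompact_cann D.l (2 * D.l)).exists_bound_of_continuousOn
    hc.continuousOn
  have h5 : IntegrableOn (fun x => linR D.g' x * D.ph P x) (cAnn D.l (2 * D.l)) := by
    refine Integrable.bdd_mul (hp.mono_set hsub) hc.aestronglyMeasurable ((ae_restrict_iff'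
      (isCompact_cann _ _).measurableSet).2 (Eventually.of_forall hMh))
  refine h5.congr (Eventually.of_forall fun x => ?_)
  show _ = D.ph P x * linR D.g' x
  ring

/-- Integrals over `Om` of functions supported in a smaller set. -/
theorem int_ind {D : Dat} {A : Set E3} (hA : MeasurableSet A) (hsub : A ⊆ D.Om) (F : E3 → ℝ) :
    ∫ x in D.Om, A.indicator F x = ∫ x in A, F x := by
  rw [setIntegral_indicator hA, Set.inter_eq_right.2 hsub]

theorem ind_int {A B : Set E3} (hA : MeasurableSet A) {F : E3 → ℝ} (h : IntegrableOn F A) :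
    Integrable (A.indicator F) (volume.restrict B) :=
  ((integrable_indicator_iff hA).2 h).restrict

end MATLM

open MATLM in
/-- Module MATL. -/
theorem MATL (hSETW : Stmt_SETW) (hABSI : Stmt_ABSI) (hBETA : Stmt_BETA) (hUPH : Stmt_UPH) :
    Stmt_MATL := by
  intro P B
  obtain ⟨β, hβ⟩ := hBETA
  obtain ⟨B₂, hB₂, hU⟩ := hUPH P B β hβ
  set V : ℝ := Real.sqrt (6 * (1 + P.C) ^ 3) with hV
  have hV0 : 0 ≤ V := Real.sqrt_nonneg _
  set B' : ℝ := |P.C| * (V + 1) * (1 + 12 * |P.C| + 144 * P.C ^ 2) + 1 with hB'
  have hB'0 : 0 < B' := by positivity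
  refine ⟨B', hB'0, ?_⟩
  intro D hS hAbs
  have hF := fa hSETW P D hS
  obtain ⟨-, iph, -⟩ := hU D hS hAbs
  have hC := hS.C_pos
  have hCabs : |P.C| = P.C := abs_of_pos hC
  have hl4 := hF.l_ge
  have hl0 : 0 < D.l := by linarith
  have he : 0 < 2 - P.eps := by linarith [hS.eps_le]
  have hB1 : P.C * V ≤ B' := by
    rw [hB', hCabs]
    have h1 : P.C * V ≤ P.C * (V + 1) := by nlinarith
    have h2 : P.C * (V + 1) * 1 ≤ P.C * (V + 1) * (1 + 12 * P.C + 144 * P.C ^ 2) := by
      refine mul_le_mul_of_nonneg_left ?_ (by positivity)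
      nlinarith [sq_nonneg P.C]
    linarith
  have hB2 : P.C ≤ B' := by
    rw [hB', hCabs]
    have h1 : P.C ≤ P.C * (V + 1) := by nlinarith
    have h2 : P.C * (V + 1) * 1 ≤ P.C * (V + 1) * (1 + 12 * P.C + 144 * P.C ^ 2) := by
      refine mul_le_mul_of_nonneg_left ?_ (by positivity)
      nlinarith [sq_nonneg P.C]
    linarith
  have hB3 : P.C * V * (12 * P.C + 144 * P.C ^ 2) ≤ B' := by
    rw [hB', hCabs]
    have h1 : P.C * V * (12 * P.C + 144 * P.C ^ 2)
        ≤ P.C * (V + 1) * (1 + 12 * P.C + 144 * P.C ^ 2) := by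
      have h2 : P.C * V ≤ P.C * (V + 1) := by nlinarith
      have h3 : 12 * P.C + 144 * P.C ^ 2 ≤ 1 + 12 * P.C + 144 * P.C ^ 2 := by linarith
      exact mul_le_mul h2 h3 (by positivity) (by positivity)
    linarith
  -- the sets
  set A := RA P D with hA
  set S := cAnn (D.l / 2) D.l with hSdef
  set T := cAnn D.l (2 * D.l) with hT
  have mA : MeasurableSet A := measRA hF
  have mS : MeasurableSet S := (isCompact_cann _ _).measurableSet
  have mT : MeasurableSet T := (isCompact_cann _ _).measurableSet
  have sA : A ⊆ D.Om := fun x hx => (RA_sub hF hx).1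
  have sS : S ⊆ D.Om := cann_sub hF (by linarith [hF.kl]) (by linarith)
  have sT : T ⊆ D.Om := cann_sub hF (by linarith [hF.kl]) (by linarith)
  have hk8 : ∀ x : E3, P.kap / D.l ≤ ‖x‖ → 1 / (8 * D.R) < ‖x‖ := by
    intro x hx
    have h1 : 1 / (8 * D.R) < 2 / D.R := by
      have hR := hF.R_pos
      rw [div_lt_div_iff₀ (by positivity) hR]
      nlinarith
    linarith [hF.kR]
  have iA := int_defect hABSI hS hF
  have iS := int_msz hS hF iph
  have iT := int_linR hS hF iph
  have hKl := hF.Kl_l
  have iP : IntegrableOn (D.ph P) T := iph.mono_set fun x hx =>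
    ⟨by linarith [hx.1], by linarith [hx.2]⟩
  have hM := hS.modified
  constructor
  · -- the lower bound
    intro χ se χc χ01 χlo χmid hse χhi
    have hse2 : D.s2 P < se + 1 := by
      by_contra hc
      push Not at hc
      have h1 := χhi _ hc
      have h2 := χmid (D.s2 P) hF.sb_s2.le le_rfl
      linarith
    set f : E3 → ℝ := fun x =>
      χ (D.w P x) * Real.exp (D.w P x / (2 - P.eps)) * D.Su P x * D.vol x with hf
    have hfe : ∀ x, f x = χ (D.w P x) * (D.ph P x * (surplus D.g' D.h' x * D.vol x)) := by
      intro x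
      simp only [hf, Dat.ph, Dat.Su]
      ring
    -- integrability
    have fint : IntegrableOn f D.Om := by
      obtain ⟨-, -, -, -, i5, -, -, -⟩ := hABSI P D hS
      have h1 := i5 (D.sb P / 2) (se + 1) (by linarith [hF.sb_pos])
        (by linarith [hF.sb_pos, hF.sb_s2]) hse
      set Q := D.Om ∩ {x | D.sb P / 2 ≤ D.w P x ∧ D.w P x ≤ se + 1} with hQ
      have mQ : MeasurableSet Q := (measOm D).inter
        ((measurableSet_le measurable_const hF.wm).inter
          (measurableSet_le hF.wm measurable_const))
      have h2 : IntegrableOn (fun x => (χ (D.w P x) * Real.exp (D.w P x / (2 - P.eps)))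
          * (D.Su P x * D.vol x)) Q := by
        refine Integrable.bdd_mul (c := Real.exp ((se + 1) / (2 - P.eps))) h1 ?_
          ((ae_restrict_iff' mQ).2 (Eventually.of_forall fun x hx => ?_))
        · exact ((χc.measurable.comp hF.wm).mul
            (hF.wm.div_const _).exp).aestronglyMeasurable
        · rw [norm_mul, Real.norm_eq_abs, Real.norm_eq_abs, abs_of_pos (Real.exp_pos _),
            abs_of_nonneg (χ01 _).1]
          calc χ (D.w P x) * Real.exp (D.w P x / (2 - P.eps))
              ≤ 1 * Real.exp ((se + 1) / (2 - P.eps)) := by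
                refine mul_le_mul (χ01 _).2 ?_ (Real.exp_pos _).le zero_le_one
                exact Real.exp_le_exp.2 (div_le_div_of_nonneg_right hx.2.2 he.le)
            _ = _ := one_mul _
      have h3 : IntegrableOn f Q := by
        refine h2.congr (Eventually.of_forall fun x => ?_)
        simp only [hf]
        ring
      refine h3.of_forall_sdiff_eq_zero (measOm D) fun x hx => ?_
      have h4 : χ (D.w P x) = 0 := by
        by_cases h5 : D.w P x ≤ D.sb P / 2
        · exact χlo _ h5
        · by_cases h6 : se + 1 ≤ D.w P x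
          · exact χhi _ h6
          · exfalso
            push Not at h5 h6
            exact hx.2 ⟨hx.1, h5.le, h6.le⟩
      simp only [hf, h4, zero_mul]
    -- pointwise
    have hpt : ∀ᵐ x ∂(volume.restrict D.Om),
        -(A.indicator (fun x => D.ph P x * D.e x * D.vol x) x)
          - B' * (S.indicator (fun x => D.ph P x * (msz (D.h x) / D.l + msz (D.h x) ^ 2)) x)
          + 1 / 2 * (T.indicator (fun x => D.ph P x * linR D.g' x) x)
          - B' / D.l ^ 4 * (T.indicator (D.ph P) x) ≤ f x := by
      rw [ae_restrict_iff' (measOm D)]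
      filter_upwards [ae_spheres D.l] with x hx hxO
      obtain ⟨n1, n2, n3⟩ := hx
      have hph := hF.ph0 x
      have hv := hF.vol0 x
      have he0 := hM.defect_nonneg x
      have hA0 : 0 ≤ A.indicator (fun x => D.ph P x * D.e x * D.vol x) x := by
        refine Set.indicator_nonneg (fun y _ => ?_) x
        have h1 := hF.ph0 y
        have h2 := hF.vol0 y
        have h3 := hM.defect_nonneg y
        positivity
      have hS0 : 0 ≤ S.indicator
          (fun x => D.ph P x * (msz (D.h x) / D.l + msz (D.h x) ^ 2)) x := by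
        refine Set.indicator_nonneg (fun y _ => ?_) x
        have h1 := hF.ph0 y
        have h2 := msz_nonneg (D.h y)
        positivity
      have hT0 : 0 ≤ T.indicator (D.ph P) x := Set.indicator_nonneg (fun y _ => hF.ph0 y) x
      by_cases hT1 : x ∈ T
      · -- transition region
        have h1 : D.l < ‖x‖ := lt_of_le_of_ne hT1.1 (Ne.symm n2)
        have h2 : ‖x‖ < 2 * D.l := lt_of_le_of_ne hT1.2 n3
        have h3 : χ (D.w P x) = 1 := by
          refine χmid _ (hF.gt_sb x hxO ?_).le (hF.lt_s2 x hxO (by linarith)).le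
          have h5 : 1 / (4 * D.l) ≤ 1 := by
            rw [div_le_one (by positivity)]
            linarith
          linarith
        have h4 := (abs_le.1 (hM.trans x h1 h2)).1
        rw [hfe x, h3, one_mul]
        have h6 : D.ph P x * (linR D.g' x / 2 - P.C / D.l ^ 4)
            ≤ D.ph P x * (surplus D.g' D.h' x * D.vol x) := by
          refine mul_le_mul_of_nonneg_left ?_ hph
          have : D.vol x = volDen D.g' x := rfl
          rw [this]
          linarith
        have h7 : P.C / D.l ^ 4 * D.ph P x ≤ B' / D.l ^ 4 * D.ph P x :=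
          mul_le_mul_of_nonneg_right (div_le_div_of_nonneg_right hB2 (by positivity)) hph
        rw [Set.indicator_of_mem hT1, Set.indicator_of_mem hT1]
        have h8 : 0 ≤ B' * (S.indicator
          (fun x => D.ph P x * (msz (D.h x) / D.l + msz (D.h x) ^ 2)) x) :=
          mul_nonneg hB'0.le hS0
        linarith
      · rw [Set.indicator_of_notMem hT1, Set.indicator_of_notMem hT1]
        by_cases hx2 : 2 * D.l < ‖x‖
        · -- flat region
          rw [hfe x, hM.flat_surplus x hx2]
          have h8 : 0 ≤ B' * (S.indicator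
            (fun x => D.ph P x * (msz (D.h x) / D.l + msz (D.h x) ^ 2)) x) :=
            mul_nonneg hB'0.le hS0
          linarith
        · have hxl : ‖x‖ < D.l := by
            by_contra hc
            push Not at hc hx2
            exact hT1 ⟨hc, hx2⟩
          by_cases hw : D.w P x ≤ D.sb P / 2
          · rw [hfe x, χlo _ hw]
            have h8 : 0 ≤ B' * (S.indicator
              (fun x => D.ph P x * (msz (D.h x) / D.l + msz (D.h x) ^ 2)) x) :=
              mul_nonneg hB'0.le hS0
            linarith
          · push Not at hw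
            have hk : P.kap / D.l ≤ ‖x‖ := hF.low x hxO (by linarith [hF.sb_pos])
            have hxA : x ∈ A := ⟨⟨hk, hxl.le⟩, hw.le⟩
            rw [Set.indicator_of_mem hxA, hfe x]
            obtain ⟨c0, c1⟩ := χ01 (D.w P x)
            by_cases hh : ‖x‖ < D.l / 2
            · have h1 := hM.core x (hk8 x hk) hh
              have h2 : x ∉ S := fun h => by linarith [h.1]
              rw [Set.indicator_of_notMem h2]
              have h3 : -(D.ph P x * (D.e x * D.vol x))
                  ≤ D.ph P x * (surplus D.g' D.h' x * D.vol x) := by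
                rw [← mul_neg]
                refine mul_le_mul_of_nonneg_left ?_ hph
                rw [← neg_mul]
                exact mul_le_mul_of_nonneg_right h1 hv
              have h4 : 0 ≤ D.ph P x * (D.e x * D.vol x) := by positivity
              have h5 : -(D.ph P x * (D.e x * D.vol x))
                  ≤ χ (D.w P x) * (D.ph P x * (surplus D.g' D.h' x * D.vol x)) := by
                nlinarith
              have h6 : D.ph P x * D.e x * D.vol x = D.ph P x * (D.e x * D.vol x) := by ring
              rw [h6]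
              linarith
            · have hh' : D.l / 2 < ‖x‖ := by
                push Not at hh
                exact lt_of_le_of_ne hh (Ne.symm n1)
              have h1 := hM.shell x hh' hxl
              have h2 : x ∈ S := ⟨hh'.le, hxl.le⟩
              rw [Set.indicator_of_mem h2]
              have hvle := hF.volle x (by linarith)
              have hm0 := msz_nonneg (D.h x)
              set q : ℝ := msz (D.h x) / D.l + msz (D.h x) ^ 2 with hq
              have hq0 : 0 ≤ q := by positivity
              have h3 : -(D.ph P x * ((D.e x + P.C * q) * D.vol x))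
                  ≤ D.ph P x * (surplus D.g' D.h' x * D.vol x) := by
                rw [← mul_neg]
                refine mul_le_mul_of_nonneg_left ?_ hph
                rw [← neg_mul]
                refine mul_le_mul_of_nonneg_right ?_ hv
                linarith
              have h4 : 0 ≤ D.ph P x * ((D.e x + P.C * q) * D.vol x) := by positivity
              have h5 : -(D.ph P x * ((D.e x + P.C * q) * D.vol x))
                  ≤ χ (D.w P x) * (D.ph P x * (surplus D.g' D.h' x * D.vol x)) := by
                nlinarith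
              have h6 : D.ph P x * ((D.e x + P.C * q) * D.vol x)
                  = D.ph P x * D.e x * D.vol x + (P.C * D.vol x) * (D.ph P x * q) := by ring
              have h7 : (P.C * D.vol x) * (D.ph P x * q) ≤ B' * (D.ph P x * q) := by
                refine mul_le_mul_of_nonneg_right ?_ (by positivity)
                calc P.C * D.vol x ≤ P.C * V := mul_le_mul_of_nonneg_left hvle hC.le
                  _ ≤ B' := hB1
              linarith
    have jA : Integrable (fun x => -(A.indicator (fun x => D.ph P x * D.e x * D.vol x) x))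
        (volume.restrict D.Om) := (ind_int (B := D.Om) mA iA).neg
    have jS := (ind_int (B := D.Om) mS iS).const_mul B'
    have jT := (ind_int (B := D.Om) mT iT).const_mul (1 / 2)
    have jP := (ind_int (B := D.Om) mT iP).const_mul (B' / D.l ^ 4)
    have k1 : Integrable (fun x => -(A.indicator (fun x => D.ph P x * D.e x * D.vol x) x)
        - B' * (S.indicator (fun x => D.ph P x * (msz (D.h x) / D.l + msz (D.h x) ^ 2)) x))
        (volume.restrict D.Om) := jA.sub jS
    have k2 : Integrable (fun x => -(A.indicator (fun x => D.ph P x * D.e x * D.vol x) x)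
        - B' * (S.indicator (fun x => D.ph P x * (msz (D.h x) / D.l + msz (D.h x) ^ 2)) x)
        + 1 / 2 * (T.indicator (fun x => D.ph P x * linR D.g' x) x))
        (volume.restrict D.Om) := k1.add jT
    have h1 := integral_mono_ae (k2.sub jP) fint hpt
    have h2 : ∫ x in D.Om, (-(A.indicator (fun x => D.ph P x * D.e x * D.vol x) x)
          - B' * (S.indicator (fun x => D.ph P x * (msz (D.h x) / D.l + msz (D.h x) ^ 2)) x)
          + 1 / 2 * (T.indicator (fun x => D.ph P x * linR D.g' x) x)
          - B' / D.l ^ 4 * (T.indicator (D.ph P) x))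
        = -(∫ x in A, D.ph P x * D.e x * D.vol x)
          - B' * (∫ x in S, D.ph P x * (msz (D.h x) / D.l + msz (D.h x) ^ 2))
          + 1 / 2 * (∫ x in T, D.ph P x * linR D.g' x)
          - B' / D.l ^ 4 * ∫ x in T, D.ph P x := by
      rw [integral_sub k2 jP, integral_add k1 jT, integral_sub jA jS]
      rw [integral_neg, integral_const_mul, integral_const_mul, integral_const_mul,
        int_ind mA sA, int_ind mS sS, int_ind mT sT, int_ind mT sT]
    have h3 : D.Nd P = ∫ x in A, D.ph P x * D.e x * D.vol x := rfl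
    rw [h3, ← h2]
    exact h1
  · -- the upper bound
    intro t ht
    set W := cAnn (D.l / 2) (2 * D.l) with hW
    have mW : MeasurableSet W := (isCompact_cann _ _).measurableSet
    have sW : W ⊆ D.Om := cann_sub hF (by linarith [hF.kl]) (by linarith)
    have iW : IntegrableOn (D.ph P) W := iph.mono_set fun x hx =>
      ⟨by linarith [hx.1], by linarith [hx.2]⟩
    set Q := D.Om ∩ {x | D.sb P / 2 < D.w P x ∧ D.w P x < t} with hQ
    have mQ : MeasurableSet Q := (measOm D).inter
      ((measurableSet_lt measurable_const hF.wm).inter (measurableSet_lt hF.wm measurable_const))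
    have jA := (integrable_indicator_iff mA).2 iA
    have jW := ((integrable_indicator_iff mW).2 iW).const_mul (B' / D.l ^ 3)
    have hpt : ∀ᵐ x ∂(volume.restrict Q),
        Real.exp (D.w P x / (2 - P.eps)) * max (-D.Su P x) 0 * D.vol x
          ≤ A.indicator (fun x => D.ph P x * D.e x * D.vol x) x
            + B' / D.l ^ 3 * (W.indicator (D.ph P) x) := by
      rw [ae_restrict_iff' mQ]
      filter_upwards [ae_spheres D.l] with x hx hxQ
      obtain ⟨n1, n2, n3⟩ := hx
      obtain ⟨hxO, hw, -⟩ := hxQ
      have hph := hF.ph0 x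
      have hv := hF.vol0 x
      have hX := hF.X0 x
      have he0 := hM.defect_nonneg x
      have hk : P.kap / D.l ≤ ‖x‖ := hF.low x hxO (by linarith [hF.sb_pos])
      have hA0 : 0 ≤ A.indicator (fun x => D.ph P x * D.e x * D.vol x) x := by
        refine Set.indicator_nonneg (fun y _ => ?_) x
        have h1 := hF.ph0 y
        have h2 := hF.vol0 y
        have h3 := hM.defect_nonneg y
        positivity
      have hW0 : 0 ≤ B' / D.l ^ 3 * (W.indicator (D.ph P) x) :=
        mul_nonneg (by positivity) (Set.indicator_nonneg (fun y _ => hF.ph0 y) x)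
      have key : Real.exp (D.w P x / (2 - P.eps)) * max (-D.Su P x) 0 * D.vol x
          = D.ph P x * (max (-surplus D.g' D.h' x) 0 * D.vol x) := by
        have h1 : max (-D.Su P x) 0 = D.X P x * max (-surplus D.g' D.h' x) 0 := by
          rw [mul_max_of_nonneg _ _ hX, mul_zero]
          unfold Dat.Su
          rw [mul_neg]
        rw [h1]
        unfold Dat.ph
        ring
      rw [key]
      by_cases hx2 : 2 * D.l < ‖x‖
      · rw [hM.flat_surplus x hx2]
        simp only [neg_zero, max_self, zero_mul, mul_zero]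
        linarith
      · push Not at hx2
        by_cases hxl : ‖x‖ < D.l
        · have hxA : x ∈ A := ⟨⟨hk, hxl.le⟩, hw.le⟩
          rw [Set.indicator_of_mem hxA]
          by_cases hh : ‖x‖ < D.l / 2
          · have h1 := hM.core x (hk8 x hk) hh
            have h2 : max (-surplus D.g' D.h' x) 0 ≤ D.e x := max_le (by linarith) he0
            have h3 : D.ph P x * (max (-surplus D.g' D.h' x) 0 * D.vol x)
                ≤ D.ph P x * (D.e x * D.vol x) :=
              mul_le_mul_of_nonneg_left (mul_le_mul_of_nonneg_right h2 hv) hph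
            have h4 : D.ph P x * (D.e x * D.vol x) = D.ph P x * D.e x * D.vol x := by ring
            linarith
          · have hh' : D.l / 2 < ‖x‖ := by
              push Not at hh
              exact lt_of_le_of_ne hh (Ne.symm n1)
            have h1 := hM.shell x hh' hxl
            have h2 : x ∈ W := ⟨hh'.le, hx2⟩
            rw [Set.indicator_of_mem h2]
            have hvle := hF.volle x (by linarith)
            have hm0 := msz_nonneg (D.h x)
            have hm : msz (D.h x) ≤ 12 * P.C / D.l ^ 2 := by
              have hx0 : 0 < ‖x‖ := by linarith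
              have h3 : ∀ i j, |D.h x i j| ≤ 4 * P.C / D.l ^ 2 := by
                intro i j
                refine (hS.hdecay x (by linarith) i j).trans ?_
                rw [div_le_div_iff₀ (by positivity) (by positivity)]
                have h4 : D.l ^ 2 ≤ 4 * ‖x‖ ^ 2 := by nlinarith
                nlinarith
              refine (msz_le _ _ h3).trans (le_of_eq ?_)
              ring
            have hq : msz (D.h x) / D.l + msz (D.h x) ^ 2
                ≤ (12 * P.C + 144 * P.C ^ 2) / D.l ^ 3 := by
              have h3 : msz (D.h x) / D.l ≤ 12 * P.C / D.l ^ 3 := by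
                calc msz (D.h x) / D.l ≤ 12 * P.C / D.l ^ 2 / D.l :=
                      div_le_div_of_nonneg_right hm hl0.le
                  _ = 12 * P.C / D.l ^ 3 := by rw [div_div]; congr 1
              have h4 : msz (D.h x) ^ 2 ≤ 144 * P.C ^ 2 / D.l ^ 3 := by
                calc msz (D.h x) ^ 2 ≤ (12 * P.C / D.l ^ 2) ^ 2 := by gcongr
                  _ = 144 * P.C ^ 2 / D.l ^ 4 := by rw [div_pow]; ring
                  _ ≤ 144 * P.C ^ 2 / D.l ^ 3 := by
                      refine div_le_div_of_nonneg_left (by positivity) (by positivity) ?_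
                      exact pow_le_pow_right₀ (by linarith) (by norm_num)
              calc _ ≤ 12 * P.C / D.l ^ 3 + 144 * P.C ^ 2 / D.l ^ 3 := add_le_add h3 h4
                _ = _ := by rw [add_div]
            have h5 : max (-surplus D.g' D.h' x) 0
                ≤ D.e x + P.C * ((12 * P.C + 144 * P.C ^ 2) / D.l ^ 3) := by
              refine max_le ?_ (by positivity)
              have h6 := mul_le_mul_of_nonneg_left hq hC.le
              linarith
            have h6 : max (-surplus D.g' D.h' x) 0 * D.vol x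
                ≤ D.e x * D.vol x + B' / D.l ^ 3 := by
              calc max (-surplus D.g' D.h' x) 0 * D.vol x
                  ≤ (D.e x + P.C * ((12 * P.C + 144 * P.C ^ 2) / D.l ^ 3)) * D.vol x :=
                    mul_le_mul_of_nonneg_right h5 hv
                _ = D.e x * D.vol x
                    + D.vol x * (P.C * ((12 * P.C + 144 * P.C ^ 2) / D.l ^ 3)) := by ring
                _ ≤ D.e x * D.vol x
                    + V * (P.C * ((12 * P.C + 144 * P.C ^ 2) / D.l ^ 3)) := by
                    have := mul_le_mul_of_nonneg_right hvle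
                      (show 0 ≤ P.C * ((12 * P.C + 144 * P.C ^ 2) / D.l ^ 3) by positivity)
                    linarith
                _ = D.e x * D.vol x
                    + P.C * V * (12 * P.C + 144 * P.C ^ 2) / D.l ^ 3 := by ring
                _ ≤ D.e x * D.vol x + B' / D.l ^ 3 := by
                    have := div_le_div_of_nonneg_right hB3 (show 0 ≤ D.l ^ 3 by positivity)
                    linarith
            have h7 := mul_le_mul_of_nonneg_left h6 hph
            calc _ ≤ D.ph P x * (D.e x * D.vol x + B' / D.l ^ 3) := h7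
              _ = _ := by ring
        · -- transition region
          have hT2 : D.l < ‖x‖ := by
            push Not at hxl
            exact lt_of_le_of_ne hxl (Ne.symm n2)
          have hT3 : ‖x‖ < 2 * D.l := lt_of_le_of_ne hx2 n3
          have h2 : x ∈ W := ⟨by linarith, hx2⟩
          rw [Set.indicator_of_mem h2]
          have h3 := (abs_le.1 (hM.trans x hT2 hT3)).1
          have h4 := (abs_le.1 (hM.trans_sup x hT2 hT3)).1
          have h5 : P.C / D.l ^ 4 ≤ P.C / D.l ^ 3 / 2 := by
            rw [div_div, div_le_div_iff₀ (by positivity) (by positivity)]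
            have h6 : D.l ^ 3 * 2 ≤ D.l ^ 4 := by nlinarith [pow_pos hl0 3]
            nlinarith
          have h6 : max (-surplus D.g' D.h' x) 0 * D.vol x ≤ P.C / D.l ^ 3 := by
            rw [max_mul_of_nonneg _ _ hv, zero_mul]
            refine max_le ?_ (by positivity)
            have : D.vol x = volDen D.g' x := rfl
            rw [this]
            linarith
          have h7 : P.C / D.l ^ 3 ≤ B' / D.l ^ 3 :=
            div_le_div_of_nonneg_right hB2 (by positivity)
          have h8 := mul_le_mul_of_nonneg_left (h6.trans h7) hph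
          calc _ ≤ D.ph P x * (B' / D.l ^ 3) := h8
            _ = B' / D.l ^ 3 * D.ph P x := by ring
            _ ≤ _ := by linarith
    have hnn : 0 ≤ᵐ[volume.restrict Q] fun x =>
        Real.exp (D.w P x / (2 - P.eps)) * max (-D.Su P x) 0 * D.vol x := by
      refine Eventually.of_forall fun x => ?_
      have h1 := hF.vol0 x
      have h2 : 0 ≤ max (-D.Su P x) 0 := le_max_right _ _
      show 0 ≤ Real.exp (D.w P x / (2 - P.eps)) * max (-D.Su P x) 0 * D.vol x
      positivity
    have hG0 : 0 ≤ fun x => A.indicator (fun x => D.ph P x * D.e x * D.vol x) x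
        + B' / D.l ^ 3 * (W.indicator (D.ph P) x) := by
      intro x
      refine add_nonneg (Set.indicator_nonneg (fun y _ => ?_) x)
        (mul_nonneg (by positivity) (Set.indicator_nonneg (fun y _ => hF.ph0 y) x))
      have h1 := hF.ph0 y
      have h2 := hF.vol0 y
      have h3 := hM.defect_nonneg y
      positivity
    calc ∫ x in Q, Real.exp (D.w P x / (2 - P.eps)) * max (-D.Su P x) 0 * D.vol x
        ≤ ∫ x in Q, (A.indicator (fun x => D.ph P x * D.e x * D.vol x) x
            + B' / D.l ^ 3 * (W.indicator (D.ph P) x)) :=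
          integral_mono_of_nonneg hnn (jA.add jW).restrict hpt
      _ ≤ ∫ x, (A.indicator (fun x => D.ph P x * D.e x * D.vol x) x
            + B' / D.l ^ 3 * (W.indicator (D.ph P) x)) :=
          setIntegral_le_integral (jA.add jW) (Eventually.of_forall hG0)
      _ = D.Nd P + B' / D.l ^ 3 * ∫ x in W, D.ph P x := by
          rw [integral_add jA jW, integral_const_mul, integral_indicator mA,
            integral_indicator mW]
          rfl

end Pool.Agent.PFlow


end
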