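import Mathlib
import Pool.Agent.PFlow.StmtsE3
import Pool.Agent.PFlow.StmtsE4
import Pool.Agent.PFlow.StmtsM
import Pool.Agent.PenroseM.C05
import Pool.Agent.PenroseM.C12
import Pool.Agent.PenroseM.C40

/-! Parts: PFlow.G.CONN, PFlow.M_ID, PFlow.M_FC, PFlow.E.DEFE, PenroseSph.Main, PenroseSph.SphereDiv, PFlow.E.MAIN2 -/

section

/-!
# Module CONN: connectedness of the leaf
-/

open MeasureTheory Filter Topology
open scoped ContDiff

namespace Pool.Agent.PFlow.GB

open Pool.Agent.PenroseSph Pool.Agent.PFlow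

namespace ConnAux

variable {V : Set E3} {a b : ℝ} {g : TensorField} {W : E3 → ℝ}

lemma nullOn_congr (h : Fol V a b g W) {s0 e : ℝ} {ρ ρ' : E3 → ℝ}
    (hρ : ∀ x ∈ slab V W (s0 - e) (s0 + e), ρ x = ρ' x) (hN : NullOn V g W s0 e ρ) :
    NullOn V g W s0 e ρ' := by
  obtain ⟨C, hC, hN⟩ := hN
  refine ⟨C, hC, fun α hα v hv => ?_⟩
  have h1 : ∫ x in slab V W (s0 - e) (s0 + e), ρ' x * α (W x) * v x * dens g W x
      = ∫ x in slab V W (s0 - e) (s0 + e), ρ x * α (W x) * v x * dens g W x :=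
    setIntegral_congr_fun (measurableSet_slab h _ _) fun x hx => by
      simp only [hρ x hx]
  rw [h1]
  exact hN α hα v hv

lemma measurable_indW (h : Fol V a b g W) : Measurable (V.indicator W) := by
  classical
  rw [← Set.piecewise_eq_indicator]
  exact ContinuousOn.measurable_piecewise h.continuousOn continuousOn_const
    h.isOpen.measurableSet

lemma bddMeas_mul (h : Fol V a b g W) {β : E3 → ℝ} (hβ : BddMeas β)
    (h0 : ∀ x, x ∉ V → β x = 0) {γ : ℝ → ℝ} (hγ : BddMeasR γ) :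
    BddMeas (fun x => γ (W x) * β x) := by
  obtain ⟨hβm, B, hB⟩ := hβ
  obtain ⟨hγm, G, hG⟩ := hγ
  constructor
  · have h1 : (fun x => γ (W x) * β x) = fun x => γ (V.indicator W x) * β x := by
      funext x
      by_cases hx : x ∈ V
      · rw [Set.indicator_of_mem hx]
      · rw [h0 x hx]; simp
    rw [h1]
    exact (hγm.comp (measurable_indW h)).mul hβm
  · refine ⟨G * B, fun x => ?_⟩
    rw [abs_mul]
    exact mul_le_mul (hG _) (hB x) (abs_nonneg _) ((abs_nonneg _).trans (hG 0))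

lemma bddMeas_sub {ρ ρ' : E3 → ℝ} (hρ : BddMeas ρ) (hρ' : BddMeas ρ') :
    BddMeas (fun x => ρ x - ρ' x) := by
  obtain ⟨h1, B, hB⟩ := hρ
  obtain ⟨h2, B', hB'⟩ := hρ'
  exact ⟨h1.sub h2, B + B', fun x => (abs_sub _ _).trans (add_le_add (hB x) (hB' x))⟩

lemma bddMeas_indicator {ρ : E3 → ℝ} (hρ : BddMeas ρ) {S : Set E3} (hS : MeasurableSet S) :
    BddMeas (S.indicator ρ) := by
  obtain ⟨h1, B, hB⟩ := hρ
  refine ⟨h1.indicator hS, B, fun x => ?_⟩
  by_cases hx : x ∈ S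
  · rw [Set.indicator_of_mem hx]; exact hB x
  · rw [Set.indicator_of_notMem hx, abs_zero]; exact (abs_nonneg _).trans (hB x)

lemma bddMeasR_mul {γ γ' : ℝ → ℝ} (h1 : BddMeasR γ) (h2 : BddMeasR γ') :
    BddMeasR (fun s => γ s * γ' s) := by
  obtain ⟨h1, B, hB⟩ := h1
  obtain ⟨h2, B', hB'⟩ := h2
  refine ⟨h1.mul h2, B * B', fun x => ?_⟩
  rw [abs_mul]
  exact mul_le_mul (hB x) (hB' x) (abs_nonneg _) ((abs_nonneg _).trans (hB x))

lemma bddMeasR_add {γ γ' : ℝ → ℝ} (h1 : BddMeasR γ) (h2 : BddMeasR γ') :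
    BddMeasR (fun s => γ s + γ' s) := by
  obtain ⟨h1, B, hB⟩ := h1
  obtain ⟨h2, B', hB'⟩ := h2
  exact ⟨h1.add h2, B + B', fun x => (abs_add_le _ _).trans (add_le_add (hB x) (hB' x))⟩

/-- The property of the open sets `O` in the continuation argument. -/
def Prp (V : Set E3) (g : TensorField) (W β : E3 → ℝ) (s0 e' : ℝ) (O : Set E3) : Prop :=
  ∀ ρ : E3 → ℝ, BddMeas ρ → (∀ y, y ∉ O → ρ y = 0) →
    ∃ γ : ℝ → ℝ, BddMeasR γ ∧ NullOn V g W s0 e' (fun x => ρ x - γ (W x) * β x)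

lemma prp_mono (h : Fol V a b g W) (hNULL : Stmt_NULL) {β : E3 → ℝ} (hβ : BddMeas β)
    (h0 : ∀ x, x ∉ V → β x = 0) {s0 e' e'' : ℝ} (ha : a < s0 - e') (hb : s0 + e' < b)
    (he : 0 < e'') (hee : e'' ≤ e') {O : Set E3} (hP : Prp V g W β s0 e' O) :
    Prp V g W β s0 e'' O := by
  intro ρ hρ hO
  obtain ⟨γ, hγ, hN⟩ := hP ρ hρ hO
  refine ⟨γ, hγ, ?_⟩
  exact (hNULL V a b g W h s0 e' (he.trans_le hee) ha hb).2.2.1 _ e''
    (bddMeas_sub hρ (bddMeas_mul h hβ h0 hγ)) he hee hN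

lemma prp_union (h : Fol V a b g W) (hNULL : Stmt_NULL) {β : E3 → ℝ} (hβ : BddMeas β)
    (h0 : ∀ x, x ∉ V → β x = 0) {s0 e' : ℝ} (ha : a < s0 - e') (hb : s0 + e' < b)
    (he : 0 < e') {O O' : Set E3} (hOo : IsOpen O) (hP : Prp V g W β s0 e' O)
    (hP' : Prp V g W β s0 e' O') : Prp V g W β s0 e' (O ∪ O') := by
  intro ρ hρ hO
  have hm : MeasurableSet O := hOo.measurableSet
  have hρ1 : BddMeas (O.indicator ρ) := bddMeas_indicator hρ hm
  have hρ2 : BddMeas (Oᶜ.indicator ρ) := bddMeas_indicator hρ hm.compl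
  obtain ⟨γ, hγ, hN⟩ := hP _ hρ1 (fun y hy => Set.indicator_of_notMem hy _)
  obtain ⟨γ', hγ', hN'⟩ := hP' _ hρ2 (fun y hy => by
    by_cases hyO : y ∈ O
    · exact Set.indicator_of_notMem (by simpa using hyO) _
    · rw [Set.indicator_of_mem (by simpa using hyO)]
      exact hO y (by simp [hy, hyO]))
  refine ⟨fun s => γ s + γ' s, bddMeasR_add hγ hγ', ?_⟩
  have h3 := (hNULL V a b g W h s0 e' he ha hb).1 _ _
    (bddMeas_sub hρ1 (bddMeas_mul h hβ h0 hγ)) (bddMeas_sub hρ2 (bddMeas_mul h hβ h0 hγ')) hN hN'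
  refine nullOn_congr h (fun x _ => ?_) h3
  by_cases hx : x ∈ O
  · rw [Set.indicator_of_mem hx, Set.indicator_of_notMem (by simpa using hx)]; ring
  · rw [Set.indicator_of_notMem hx, Set.indicator_of_mem (by simpa using hx)]; ring

lemma prp_empty {β : E3 → ℝ} {s0 e' : ℝ} : Prp V g W β s0 e' ∅ := by
  intro ρ _ hO
  refine ⟨fun _ => 0, ⟨measurable_const, 0, fun s => by simp⟩, 0, le_rfl, fun α _ v _ => ?_⟩
  have h1 : ∀ x, ρ x = 0 := fun x => hO x (by simp)
  simp [h1]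

/-! ### Boxes -/

lemma isOpen_obox (z0 : E3) (r e : ℝ) : IsOpen (obox z0 r e) := by
  have hc : ∀ i : Fin 3, Continuous (fun z : E3 => |z i - z0 i|) := by
    intro i
    fun_prop
  exact (isOpen_lt (hc 0) continuous_const).inter
    ((isOpen_lt (hc 1) continuous_const).inter (isOpen_lt (hc 2) continuous_const))

lemma obox_subset_box (z0 : E3) (r e : ℝ) : obox z0 r e ⊆ box z0 r e :=
  fun _ hz => ⟨hz.1.le, hz.2.1.le, hz.2.2.le⟩

lemma box_mono {z0 : E3} {r e e' : ℝ} (he : e' ≤ e) : box z0 r e' ⊆ box z0 r e :=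
  fun _ hz => ⟨hz.1, hz.2.1, hz.2.2.trans he⟩

lemma chart_mono {Φ : E3 → E3} {z0 : E3} {r e e' : ℝ} (hc : Chart V W Φ z0 r e) (he' : 0 < e')
    (he : e' ≤ e) : Chart V W Φ z0 r e' := by
  refine ⟨hc.r_pos, he', ?_⟩
  obtain ⟨N, h1, h2, h3⟩ := hc.nbhd
  exact ⟨N, h1, (box_mono he).trans h2, h3⟩

lemma pt_mem_obox {z0 : E3} {r e x y s : ℝ} (hx : x ∈ Set.Ioo (z0 0 - r) (z0 0 + r))
    (hy : y ∈ Set.Ioo (z0 1 - r) (z0 1 + r)) (hs : s ∈ Set.Ioo (z0 2 - e) (z0 2 + e)) :
    pt x y s ∈ obox z0 r e := by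
  have h0 : (pt x y s) 0 = x := by simp [pt]
  have h1 : (pt x y s) 1 = y := by simp [pt]
  have h2 : (pt x y s) 2 = s := by simp [pt]
  refine ⟨?_, ?_, ?_⟩
  · rw [h0, abs_lt]; exact ⟨by linarith [hx.1], by linarith [hx.2]⟩
  · rw [h1, abs_lt]; exact ⟨by linarith [hy.1], by linarith [hy.2]⟩
  · rw [h2, abs_lt]; exact ⟨by linarith [hs.1], by linarith [hs.2]⟩

/-- Upper bound for the leaf integrals in a chart. -/
lemma cint_bound (h : Fol V a b g W) (hCHX : Stmt_CHX) {Φ : E3 → E3} {z0 : E3} {r e : ℝ}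
    (hc : Chart V W Φ z0 r e) {ρ : E3 → ℝ} (hρ : BddMeas ρ) :
    ∃ M : ℝ, 0 ≤ M ∧ ∀ s ∈ Set.Ioo (z0 2 - e) (z0 2 + e), |cint g W Φ z0 r ρ s| ≤ M := by
  obtain ⟨-, B, hB⟩ := hρ
  obtain ⟨-, -, -, -, -, -, -, -, c, C, hc0, hC0, hjac, -⟩ := hCHX V a b g W h Φ z0 r e hc
  have hB0 : 0 ≤ B := (abs_nonneg _).trans (hB 0)
  have hr := hc.r_pos
  refine ⟨B * C * (2 * r) * (2 * r), by positivity, fun s hs => ?_⟩
  have hvol : ∀ t : ℝ, (volume : Measure ℝ).real (Set.Ioo (t - r) (t + r)) = 2 * r := by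
    intro t
    rw [Measure.real, Real.volume_Ioo, ENNReal.toReal_ofReal (by linarith)]
    ring
  have hfin : ∀ t : ℝ, (volume : Measure ℝ) (Set.Ioo (t - r) (t + r)) < ⊤ := by
    intro t
    rw [Real.volume_Ioo]
    exact ENNReal.ofReal_lt_top
  unfold cint
  rw [← Real.norm_eq_abs]
  refine (norm_setIntegral_le_of_norm_le_const (C := B * C * (2 * r)) (hfin _) ?_).trans
    (le_of_eq ?_)
  · intro x hx
    refine (norm_setIntegral_le_of_norm_le_const (C := B * C) (hfin _) ?_).trans (le_of_eq ?_)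
    · intro y hy
      have hz := obox_subset_box _ _ _ (pt_mem_obox hx hy hs)
      obtain ⟨h1, h2, -⟩ := hjac _ hz
      rw [norm_mul, Real.norm_eq_abs, Real.norm_eq_abs, abs_of_pos (hc0.trans_le h1)]
      exact mul_le_mul (hB _) h2 (hc0.le.trans h1) hB0
    · rw [hvol]
  · rw [hvol]

/-! ### The lower bound for the leaf integrals of a small box -/

lemma continuous_pt (s : ℝ) : Continuous (fun p : ℝ × ℝ => pt p.1 p.2 s) := by
  unfold pt
  refine (PiLp.continuous_toLp 2 (fun _ : Fin 3 => ℝ)).comp (continuous_pi fun i => ?_)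
  fin_cases i
  · exact continuous_fst
  · exact continuous_snd
  · exact continuous_const

lemma cint_lower (h : Fol V a b g W) (hCHX : Stmt_CHX) {Φ : E3 → E3} {z0 : E3} {r e : ℝ}
    (hc : Chart V W Φ z0 r e) {z' : E3} {δ : ℝ} (hδ : 0 < δ)
    (h0 : |z' 0 - z0 0| + δ ≤ r) (h1 : |z' 1 - z0 1| + δ ≤ r) (h2 : z' 2 = z0 2) :
    ∃ b0 : ℝ, 0 < b0 ∧ ∀ s ∈ Set.Ioo (z0 2 - e) (z0 2 + e),
      b0 ≤ cint g W Φ z0 r ((Φ '' obox z' δ e).indicator fun _ => 1) s := by
  obtain ⟨-, -, -, -, -, -, -, hcont, c, C, hc0, hC0, hjac, -⟩ := hCHX V a b g W h Φ z0 r e hc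
  obtain ⟨N, hNo, hbN, -, hinj, -, -, -⟩ := hc.nbhd
  refine ⟨c * ((2 * δ) * (2 * δ)), by positivity, fun s hs => ?_⟩
  set I : Set ℝ := Set.Ioo (z0 0 - r) (z0 0 + r) with hI
  set J : Set ℝ := Set.Ioo (z0 1 - r) (z0 1 + r) with hJ
  set P : Set ℝ := Set.Ioo (z' 0 - δ) (z' 0 + δ) with hP
  set Q : Set ℝ := Set.Ioo (z' 1 - δ) (z' 1 + δ) with hQ
  have hPI : P ⊆ I := by
    intro x hx
    have := abs_le.mp (le_refl |z' 0 - z0 0|)
    exact ⟨by linarith [hx.1, this.1], by linarith [hx.2, this.2]⟩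
  have hQJ : Q ⊆ J := by
    intro x hx
    have := abs_le.mp (le_refl |z' 1 - z0 1|)
    exact ⟨by linarith [hx.1, this.1], by linarith [hx.2, this.2]⟩
  have hsub : obox z' δ e ⊆ obox z0 r e := by
    intro z hz
    refine ⟨?_, ?_, ?_⟩
    · have := abs_add_le (z 0 - z' 0) (z' 0 - z0 0)
      rw [sub_add_sub_cancel] at this
      linarith [hz.1]
    · have := abs_add_le (z 1 - z' 1) (z' 1 - z0 1)
      rw [sub_add_sub_cancel] at this
      linarith [hz.2.1]
    · rw [← h2]; exact hz.2.2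
  have e0 : ∀ x y : ℝ, (pt x y s) 0 = x := fun x y => by simp [pt]
  have e1 : ∀ x y : ℝ, (pt x y s) 1 = y := fun x y => by simp [pt]
  have e2 : ∀ x y : ℝ, (pt x y s) 2 = s := fun x y => by simp [pt]
  have hmem : ∀ x ∈ I, ∀ y ∈ J, (Φ (pt x y s) ∈ Φ '' obox z' δ e ↔ x ∈ P ∧ y ∈ Q) := by
    intro x hx y hy
    have hz := obox_subset_box _ _ _ (pt_mem_obox (e := e) hx hy hs)
    constructor
    · rintro ⟨w, hw, hwe⟩
      have hw' := obox_subset_box _ _ _ (hsub hw)
      have : w = pt x y s := hinj (hbN hw') (hbN hz) hwe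
      rw [this] at hw
      have q0 := abs_lt.mp hw.1
      have q1 := abs_lt.mp hw.2.1
      rw [e0] at q0
      rw [e1] at q1
      exact ⟨⟨by linarith [q0.1], by linarith [q0.2]⟩, ⟨by linarith [q1.1], by linarith [q1.2]⟩⟩
    · rintro ⟨hxP, hyQ⟩
      exact ⟨_, pt_mem_obox hxP hyQ (by rw [h2]; exact hs), rfl⟩
  have hstep1 : cint g W Φ z0 r ((Φ '' obox z' δ e).indicator fun _ => 1) s
      = ∫ x in P, ∫ y in Q, jac g W Φ (pt x y s) := by
    unfold cint
    have k1 : ∀ x ∈ I, ∫ y in J, (Φ '' obox z' δ e).indicator (fun _ => (1 : ℝ)) (Φ (pt x y s))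
          * jac g W Φ (pt x y s)
        = P.indicator (fun x => ∫ y in Q, jac g W Φ (pt x y s)) x := by
      intro x hx
      by_cases hxP : x ∈ P
      · rw [Set.indicator_of_mem hxP]
        have k2 : ∫ y in J, (Φ '' obox z' δ e).indicator (fun _ => (1 : ℝ)) (Φ (pt x y s))
              * jac g W Φ (pt x y s)
            = ∫ y in J, Q.indicator (fun y => jac g W Φ (pt x y s)) y := by
          refine setIntegral_congr_fun measurableSet_Ioo fun y hy => ?_
          by_cases hyQ : y ∈ Q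
          · rw [Set.indicator_of_mem hyQ, Set.indicator_of_mem ((hmem x hx y hy).2 ⟨hxP, hyQ⟩),
              one_mul]
          · rw [Set.indicator_of_notMem hyQ, Set.indicator_of_notMem
              (fun hm => hyQ ((hmem x hx y hy).1 hm).2), zero_mul]
        rw [k2, setIntegral_indicator measurableSet_Ioo, Set.inter_eq_self_of_subset_right hQJ]
      · rw [Set.indicator_of_notMem hxP]
        have k2 : ∫ y in J, (Φ '' obox z' δ e).indicator (fun _ => (1 : ℝ)) (Φ (pt x y s))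
              * jac g W Φ (pt x y s) = ∫ y in J, (0 : ℝ) := by
          refine setIntegral_congr_fun measurableSet_Ioo fun y hy => ?_
          rw [Set.indicator_of_notMem
              (fun hm => hxP ((hmem x hx y hy).1 hm).1), zero_mul]
        rw [k2]
        simp
    rw [setIntegral_congr_fun measurableSet_Ioo k1, setIntegral_indicator measurableSet_Ioo,
      Set.inter_eq_self_of_subset_right hPI]
  have hcontQ : ContinuousOn (fun p : ℝ × ℝ => jac g W Φ (pt p.1 p.2 s))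
      (Set.Icc (z0 0 - r) (z0 0 + r) ×ˢ Set.Icc (z0 1 - r) (z0 1 + r)) := by
    refine hcont.comp (continuous_pt s).continuousOn ?_
    intro p hp
    refine ⟨?_, ?_, ?_⟩
    · rw [e0, abs_le]; exact ⟨by linarith [hp.1.1], by linarith [hp.1.2]⟩
    · rw [e1, abs_le]; exact ⟨by linarith [hp.2.1], by linarith [hp.2.2]⟩
    · rw [e2, abs_le]; exact ⟨by linarith [hs.1], by linarith [hs.2]⟩
  have hint : IntegrableOn (fun p : ℝ × ℝ => jac g W Φ (pt p.1 p.2 s)) (P ×ˢ Q)
      ((volume : Measure ℝ).prod volume) := by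
    refine (hcontQ.integrableOn_compact (isCompact_Icc.prod isCompact_Icc)).mono_set ?_
    exact Set.prod_mono (hPI.trans Set.Ioo_subset_Icc_self) (hQJ.trans Set.Ioo_subset_Icc_self)
  rw [hstep1, ← setIntegral_prod (fun p : ℝ × ℝ => jac g W Φ (pt p.1 p.2 s)) hint]
  have hvol : ((volume : Measure ℝ).prod volume).real (P ×ˢ Q) = (2 * δ) * (2 * δ) := by
    rw [Measure.real, Measure.prod_prod, ENNReal.toReal_mul, hP, hQ, Real.volume_Ioo,
      Real.volume_Ioo, ENNReal.toReal_ofReal (by linarith), ENNReal.toReal_ofReal (by linarith)]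
    ring
  have hvol' : ((volume : Measure ℝ).prod volume) (P ×ˢ Q) ≠ ⊤ := by
    rw [Measure.prod_prod, hP, hQ, Real.volume_Ioo, Real.volume_Ioo]
    exact ENNReal.mul_ne_top ENNReal.ofReal_ne_top ENNReal.ofReal_ne_top
  have hge := setIntegral_mono_on (μ := (volume : Measure ℝ).prod volume)
    (s := P ×ˢ Q) (f := fun _ => c) (g := fun p : ℝ × ℝ => jac g W Φ (pt p.1 p.2 s))
    (integrableOn_const hvol') hint (measurableSet_Ioo.prod measurableSet_Ioo) ?_
  · rw [setIntegral_const, hvol, smul_eq_mul, mul_comm] at hge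
    exact hge
  · intro p hp
    exact (hjac _ (obox_subset_box _ _ _ (pt_mem_obox (hPI hp.1) (hQJ hp.2) hs))).1

/-! ### The continuation argument -/

/-- The point `x` has an open neighbourhood with the property `Prp`. -/
def Good (V : Set E3) (g : TensorField) (W β : E3 → ℝ) (s0 e : ℝ) (x : E3) : Prop :=
  ∃ O : Set E3, IsOpen O ∧ x ∈ O ∧ ∃ e' : ℝ, 0 < e' ∧ e' ≤ e ∧ Prp V g W β s0 e' O

/-- Transfer: in a chart at `x`, one good point of the leaf makes `x` good. -/
lemma good_transfer (h : Fol V a b g W) (hCHX : Stmt_CHX) (hCL : Stmt_CL) (hNULL : Stmt_NULL)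
    {β : E3 → ℝ} (hβ : BddMeas β) (h0 : ∀ x, x ∉ V → β x = 0) {s0 e : ℝ}
    (ha : a < s0 - e) (hb : s0 + e < b)
    {Φ : E3 → E3} {z0 : E3} {r ex : ℝ} (hc : Chart V W Φ z0 r ex) (hz0 : z0 2 = s0)
    {x' : E3} (hx'W : W x' = s0) (hx'Φ : x' ∈ Φ '' obox z0 r ex)
    (hgood : Good V g W β s0 e x') : Good V g W β s0 e (Φ z0) := by
  obtain ⟨O', hO', hx'O, e', he', hee, hP⟩ := hgood
  obtain ⟨z', hz', rfl⟩ := hx'Φ
  obtain ⟨N, hNo, hbN, hsm, hinj, hmaps, -, hW⟩ := hc.nbhd
  have hz'N : z' ∈ N := hbN (obox_subset_box _ _ _ hz')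
  have hz'2 : z' 2 = s0 := by rw [← hW z' hz'N]; exact hx'W
  -- a neighbourhood of `z'` which is mapped into `O'`
  have hcontAt : ContinuousAt Φ z' := hsm.continuousOn.continuousAt (hNo.mem_nhds hz'N)
  have hpre : Φ ⁻¹' O' ∈ 𝓝 z' := hcontAt.preimage_mem_nhds (hO'.mem_nhds hx'O)
  obtain ⟨t, ht, hball⟩ := Metric.mem_nhds_iff.mp hpre
  have hr := hc.r_pos
  have hex := hc.e_pos
  -- the sizes
  set δ : ℝ := min (t / 2) (min (r - |z' 0 - z0 0|) (r - |z' 1 - z0 1|)) with hδdef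
  have hδ : 0 < δ := by
    refine lt_min (by linarith) (lt_min ?_ ?_)
    · linarith [hz'.1]
    · linarith [hz'.2.1]
  have hδ1 : δ ≤ t / 2 := min_le_left _ _
  have hδ2 : δ ≤ r - |z' 0 - z0 0| := (min_le_right _ _).trans (min_le_left _ _)
  have hδ3 : δ ≤ r - |z' 1 - z0 1| := (min_le_right _ _).trans (min_le_right _ _)
  set ε : ℝ := min (t / 2) (min ex e') with hεdef
  have hε : 0 < ε := lt_min (by linarith) (lt_min hex he')
  have hε1 : ε ≤ t / 2 := min_le_left _ _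
  have hε2 : ε ≤ ex := (min_le_right _ _).trans (min_le_left _ _)
  have hε3 : ε ≤ e' := (min_le_right _ _).trans (min_le_right _ _)
  have hc' : Chart V W Φ z0 r ε := chart_mono hc hε hε2
  -- the small box is mapped into `O'`
  have hsmall : Φ '' obox z' δ ε ⊆ O' := by
    rintro _ ⟨w, hw, rfl⟩
    refine hball ?_
    rw [Metric.mem_ball, EuclideanSpace.dist_eq, Real.sqrt_lt' ht, Fin.sum_univ_three]
    have q0 : dist (w 0) (z' 0) ^ 2 ≤ (t / 2) ^ 2 :=
      pow_le_pow_left₀ dist_nonneg (by rw [Real.dist_eq]; linarith [hw.1]) 2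
    have q1 : dist (w 1) (z' 1) ^ 2 ≤ (t / 2) ^ 2 :=
      pow_le_pow_left₀ dist_nonneg (by rw [Real.dist_eq]; linarith [hw.2.1]) 2
    have q2 : dist (w 2) (z' 2) ^ 2 ≤ (t / 2) ^ 2 :=
      pow_le_pow_left₀ dist_nonneg (by rw [Real.dist_eq]; linarith [hw.2.2]) 2
    nlinarith
  have hsubbox : obox z' δ ε ⊆ obox z0 r ε := by
    intro z hz
    refine ⟨?_, ?_, ?_⟩
    · have := abs_add_le (z 0 - z' 0) (z' 0 - z0 0)
      rw [sub_add_sub_cancel] at this
      linarith [hz.1]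
    · have := abs_add_le (z 1 - z' 1) (z' 1 - z0 1)
      rw [sub_add_sub_cancel] at this
      linarith [hz.2.1]
    · rw [hz0, ← hz'2]; exact hz.2.2
  obtain ⟨-, -, -, hΦV, hopen, -⟩ := hCHX V a b g W h Φ z0 r ε hc'
  have hΦV' : Φ '' obox z0 r ε ⊆ V := (Set.image_mono (obox_subset_box _ _ _)).trans hΦV
  have hO : IsOpen (Φ '' obox z0 r ε) := hopen _ (isOpen_obox _ _ _) le_rfl
  have hB : IsOpen (Φ '' obox z' δ ε) := hopen _ (isOpen_obox _ _ _) hsubbox
  -- the density of the transfer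
  set β' : E3 → ℝ := (Φ '' obox z' δ ε).indicator fun _ => 1 with hβ'
  have hβ'b : BddMeas β' := by
    refine ⟨measurable_const.indicator hB.measurableSet, 1, fun x => ?_⟩
    by_cases hx : x ∈ Φ '' obox z' δ ε
    · rw [hβ', Set.indicator_of_mem hx]; simp
    · rw [hβ', Set.indicator_of_notMem hx]; simp
  have hβ'nn : ∀ x, 0 ≤ β' x := fun x => Set.indicator_nonneg (fun _ _ => zero_le_one) x
  have hβ'off : ∀ x, x ∉ Φ '' obox z0 r ε → β' x = 0 := fun x hx =>
    Set.indicator_of_notMem (fun hm => hx (Set.image_mono hsubbox hm)) _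
  have hβ'V : ∀ x, x ∉ V → β' x = 0 := fun x hx => hβ'off x fun hm => hx (hΦV' hm)
  have hβ'O : ∀ x, x ∉ O' → β' x = 0 := fun x hx =>
    Set.indicator_of_notMem (fun hm => hx (hsmall hm)) _
  obtain ⟨b1, hb1, hlow⟩ := cint_lower h hCHX hc' hδ (by linarith) (by linarith)
    (hz'2.trans hz0.symm)
  obtain ⟨γ', hγ', hN'⟩ := hP β' hβ'b hβ'O
  refine ⟨Φ '' obox z0 r ε, hO, ⟨z0, ⟨by simp [hr], by simp [hr], by simp [hε]⟩, rfl⟩, ε, hε,
    hε3.trans hee, ?_⟩
  intro ρ hρ hoff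
  obtain ⟨M, hM, hMb⟩ := cint_bound h hCHX hc' hρ
  obtain ⟨γ, hγm, hγb, hN⟩ := hCL V a b g W h Φ z0 r ε hc' ρ β' b1 M hρ hβ'b
    (fun x hx => ⟨hoff x hx, hβ'off x hx⟩) hβ'nn hb1 hM hlow hMb
  rw [hz0] at hN
  have hγ : BddMeasR γ := ⟨hγm, _, hγb⟩
  have ha' : a < s0 - e' := by linarith
  have hb' : s0 + e' < b := by linarith
  have ha'' : a < s0 - ε := by linarith
  have hb'' : s0 + ε < b := by linarith
  have m1 : BddMeas (fun x => β' x - γ' (W x) * β x) :=
    bddMeas_sub hβ'b (bddMeas_mul h hβ h0 hγ')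
  have n1 : NullOn V g W s0 ε (fun x => β' x - γ' (W x) * β x) :=
    (hNULL V a b g W h s0 e' he' ha' hb').2.2.1 _ ε m1 hε hε3 hN'
  have n2 : NullOn V g W s0 ε (fun x => γ (W x) * (β' x - γ' (W x) * β x)) :=
    (hNULL V a b g W h s0 ε hε ha'' hb'').2.1 _ γ m1 hγ n1
  have m2 : BddMeas (fun x => γ (W x) * (β' x - γ' (W x) * β x)) := by
    refine bddMeas_mul h m1 (fun x hx => ?_) hγ
    rw [hβ'V x hx, h0 x hx]; ring
  have m3 : BddMeas (fun x => ρ x - γ (W x) * β' x) :=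
    bddMeas_sub hρ (bddMeas_mul h hβ'b hβ'V hγ)
  have n3 := (hNULL V a b g W h s0 ε hε ha'' hb'').1 _ _ m3 m2 hN n2
  refine ⟨fun s => γ s * γ' s, bddMeasR_mul hγ hγ', nullOn_congr h (fun x _ => ?_) n3⟩
  ring

end ConnAux

open ConnAux

theorem CONN (hCHART : Stmt_CHART) (hCHX : Stmt_CHX) (hCL : Stmt_CL) (hNULL : Stmt_NULL) :
    Stmt_CONN := by
  intro V a b g W h Φ z0 r e hc hA β b0 hβ hβoff hβnn hb0 hlow
  set s0 : ℝ := z0 2 with hs0
  obtain ⟨ha, hb, -, hΦV, hopen, -⟩ := hCHX V a b g W h Φ z0 r e hc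
  have hΦV' : Φ '' obox z0 r e ⊆ V := (Set.image_mono (obox_subset_box _ _ _)).trans hΦV
  have h0 : ∀ x, x ∉ V → β x = 0 := fun x hx => hβoff x fun hm => hx (hΦV' hm)
  have hr := hc.r_pos
  have he := hc.e_pos
  -- the set of the good points of the leaf
  set A : Set E3 := V ∩ W ⁻¹' {s0} with hAdef
  have hz0mem : z0 ∈ obox z0 r e := ⟨by simp [hr], by simp [hr], by simp [he]⟩
  have hp0 : Φ z0 ∈ A := by
    obtain ⟨N, -, hbN, -, -, hmaps, -, hW⟩ := hc.nbhd
    have hz0N : z0 ∈ N := hbN (obox_subset_box _ _ _ hz0mem)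
    exact ⟨hmaps hz0N, hW z0 hz0N⟩
  have hgood0 : Good V g W β s0 e (Φ z0) := by
    refine ⟨Φ '' obox z0 r e, hopen _ (isOpen_obox _ _ _) le_rfl, ⟨z0, hz0mem, rfl⟩, e, he,
      le_rfl, ?_⟩
    intro ρ hρ hoff
    obtain ⟨M, hM, hMb⟩ := cint_bound h hCHX hc hρ
    obtain ⟨γ, hγm, hγb, hN⟩ := hCL V a b g W h Φ z0 r e hc ρ β b0 M hρ hβ
      (fun x hx => ⟨hoff x hx, hβoff x hx⟩) hβnn hb0 hM hlow hMb
    exact ⟨γ, ⟨hγm, _, hγb⟩, hN⟩
  -- all points of the leaf are good
  have hall : ∀ x ∈ A, Good V g W β s0 e x := by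
    have : PreconnectedSpace A := isPreconnected_iff_preconnectedSpace.mp hA
    set S : Set A := {x | Good V g W β s0 e x} with hS
    have hSo : IsOpen S := by
      rw [isOpen_iff_mem_nhds]
      rintro x ⟨O, hO, hxO, e', he', hee, hP⟩
      have : (Subtype.val : A → E3) ⁻¹' O ∈ 𝓝 x :=
        (hO.preimage continuous_subtype_val).mem_nhds hxO
      exact Filter.mem_of_superset this fun y hy => ⟨O, hO, hy, e', he', hee, hP⟩
    have hSc : IsClosed S := by
      refine isClosed_of_closure_subset fun x hx => ?_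
      obtain ⟨Ψ, y0, r1, e1, hch, hy0, hy2, -⟩ := hCHART V a b g W h x x.2.1 Set.univ
        Filter.univ_mem
      obtain ⟨-, -, -, -, hopen1, -⟩ := hCHX V a b g W h Ψ y0 r1 e1 hch
      have hxO : (x : E3) ∈ Ψ '' obox y0 r1 e1 :=
        ⟨y0, ⟨by simp [hch.r_pos], by simp [hch.r_pos], by simp [hch.e_pos]⟩, hy0⟩
      have hnhd : (Subtype.val : A → E3) ⁻¹' (Ψ '' obox y0 r1 e1) ∈ 𝓝 x :=
        ((hopen1 _ (isOpen_obox _ _ _) le_rfl).preimage continuous_subtype_val).mem_nhds hxO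
      obtain ⟨x', hx'O, hx'S⟩ := mem_closure_iff_nhds.mp hx _ hnhd
      have hWx : W x = s0 := x.2.2
      have := good_transfer h hCHX hCL hNULL hβ h0 ha hb hch (hy2.trans hWx) x'.2.2 hx'O hx'S
      rw [hy0] at this
      exact this
    have hSu : S = Set.univ := by
      rcases isClopen_iff.mp ⟨hSc, hSo⟩ with h1 | h1
      · exfalso
        have : (⟨Φ z0, hp0⟩ : A) ∈ S := hgood0
        rw [h1] at this
        exact this
      · exact h1
    intro x hx
    have : (⟨x, hx⟩ : A) ∈ S := by rw [hSu]; exact Set.mem_univ _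
    exact this
  -- one open set contains the leaf
  have hAc : IsCompact A := by
    have : A = cslab V W s0 s0 := by
      simp only [hAdef, cslab, Set.Icc_self]
    rw [this]
    exact h.proper s0 s0 (by linarith) (by linarith)
  obtain ⟨O, hO, hAO, e', he', hee, hP⟩ : ∃ O : Set E3, IsOpen O ∧ A ⊆ O ∧ ∃ e' : ℝ, 0 < e' ∧
      e' ≤ e ∧ Prp V g W β s0 e' O := by
    refine hAc.induction_on (p := fun T => ∃ O : Set E3, IsOpen O ∧ T ⊆ O ∧ ∃ e' : ℝ, 0 < e' ∧
      e' ≤ e ∧ Prp V g W β s0 e' O) ?_ ?_ ?_ ?_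
    · exact ⟨∅, isOpen_empty, le_rfl, e, he, le_rfl, prp_empty⟩
    · rintro S T hST ⟨O, hO, hTO, hrest⟩
      exact ⟨O, hO, hST.trans hTO, hrest⟩
    · rintro S T ⟨O, hO, hSO, e1, he1, hee1, hP1⟩ ⟨O', hO', hTO, e2, he2, hee2, hP2⟩
      have hm : 0 < min e1 e2 := lt_min he1 he2
      have hm1 : min e1 e2 ≤ e1 := min_le_left _ _
      have hm2 : min e1 e2 ≤ e2 := min_le_right _ _
      refine ⟨O ∪ O', hO.union hO', Set.union_subset_union hSO hTO, min e1 e2, hm,
        hm1.trans hee1, ?_⟩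
      refine prp_union h hNULL hβ h0 (by linarith) (by linarith) hm hO ?_ ?_
      · exact prp_mono h hNULL hβ h0 (by linarith) (by linarith) hm hm1 hP1
      · exact prp_mono h hNULL hβ h0 (by linarith) (by linarith) hm hm2 hP2
    · intro x hx
      obtain ⟨O, hO, hxO, hrest⟩ := hall x hx
      exact ⟨O, mem_nhdsWithin_of_mem_nhds (hO.mem_nhds hxO), O, hO, le_rfl, hrest⟩
  -- the slab is contained in the open set
  obtain ⟨e1, he1, he1e, hslab⟩ : ∃ e1 : ℝ, 0 < e1 ∧ e1 ≤ e' ∧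
      slab V W (s0 - e1) (s0 + e1) ⊆ O := by
    have hK : IsCompact (cslab V W (s0 - e) (s0 + e) \ O) := (h.proper _ _ ha hb).diff hO
    have hcont : ContinuousOn (fun x => |W x - s0|) (cslab V W (s0 - e) (s0 + e) \ O) := by
      refine ((h.continuousOn.mono ?_).sub continuousOn_const).abs
      exact fun x hx => hx.1.1
    rcases (cslab V W (s0 - e) (s0 + e) \ O).eq_empty_or_nonempty with hemp | hne
    · refine ⟨e', he', le_rfl, fun x hx => ?_⟩
      by_contra hxO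
      have : x ∈ cslab V W (s0 - e) (s0 + e) \ O :=
        ⟨⟨hx.1, by linarith [hx.2.1], by linarith [hx.2.2]⟩, hxO⟩
      rw [hemp] at this
      exact this
    · obtain ⟨m, hm, hmin⟩ := hK.exists_isMinOn hne hcont
      have hpos : 0 < |W m - s0| := by
        rw [abs_pos, sub_ne_zero]
        intro hW
        exact hm.2 (hAO ⟨hm.1.1, hW⟩)
      refine ⟨min e' |W m - s0|, lt_min he' hpos, min_le_left _ _, fun x hx => ?_⟩
      by_contra hxO
      have h1 : min e' |W m - s0| ≤ e' := min_le_left _ _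
      have h2 : min e' |W m - s0| ≤ |W m - s0| := min_le_right _ _
      have hxK : x ∈ cslab V W (s0 - e) (s0 + e) \ O :=
        ⟨⟨hx.1, by linarith [hx.2.1], by linarith [hx.2.2]⟩, hxO⟩
      have h3 : |W m - s0| ≤ |W x - s0| := hmin hxK
      have h4 : |W x - s0| < min e' |W m - s0| := by
        rw [abs_lt]; exact ⟨by linarith [hx.2.1], by linarith [hx.2.2]⟩
      linarith
  refine ⟨e1, he1, he1e.trans hee, fun ρ hρ => ?_⟩
  have hP1 : Prp V g W β s0 e1 O :=
    prp_mono h hNULL hβ h0 (by linarith) (by linarith) he1 he1e hP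
  obtain ⟨γ, hγ, hN⟩ := hP1 (O.indicator ρ) (bddMeas_indicator hρ hO.measurableSet)
    (fun y hy => Set.indicator_of_notMem hy _)
  refine ⟨γ, hγ, nullOn_congr h (fun x hx => ?_) hN⟩
  rw [Set.indicator_of_mem (hslab hx)]

end Pool.Agent.PFlow.GB


end

section

/-!
# The pointwise identity of the level set inequality
-/

open MeasureTheory Filter Topology
open scoped ContDiff

namespace Pool.Agent.PFlow

open Pool.Agent.PenroseSph

namespace MID

theorem dd_comm {P : Bil} (hP : P.IsSymm) (H K : Bil) : dd P K H = dd P H K := by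
  have h10 : P 1 0 = P 0 1 := hP.apply 0 1
  have h20 : P 2 0 = P 0 2 := hP.apply 0 2
  have h21 : P 2 1 = P 1 2 := hP.apply 1 2
  simp only [dd, Fin.sum_univ_three, h10, h20, h21]
  ring

theorem dd_sub (P H K : Bil) (a : ℝ) :
    dd P (a • H - K) (a • H - K) =
      a ^ 2 * dd P H H - a * dd P H K - a * dd P K H + dd P K K := by
  simp only [dd, Finset.mul_sum, ← Finset.sum_sub_distrib, ← Finset.sum_add_distrib]
  refine Finset.sum_congr rfl fun i _ => Finset.sum_congr rfl fun j _ =>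
    Finset.sum_congr rfl fun k _ => Finset.sum_congr rfl fun l _ => ?_
  simp only [Matrix.sub_apply, Matrix.smul_apply, smul_eq_mul]
  ring

theorem tr2_sub (P H K : Bil) (a : ℝ) : tr2 P (a • H - K) = a * tr2 P H - tr2 P K := by
  simp only [tr2, Finset.mul_sum, ← Finset.sum_sub_distrib]
  refine Finset.sum_congr rfl fun i _ => Finset.sum_congr rfl fun j _ => ?_
  simp only [Matrix.sub_apply, Matrix.smul_apply, smul_eq_mul]
  ring

theorem ev_sub (H K : Bil) (a : ℝ) (v w : Cov) :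
    ev (a • H - K) v w = a * ev H v w - ev K v w := by
  simp only [ev, Finset.mul_sum, ← Finset.sum_sub_distrib]
  refine Finset.sum_congr rfl fun i _ => Finset.sum_congr rfl fun j _ => ?_
  simp only [Matrix.sub_apply, Matrix.smul_apply, smul_eq_mul]
  ring

theorem ev_div (H : Bil) (v w : Cov) (c : ℝ) :
    ev H (fun i => v i / c) (fun i => w i / c) = ev H v w / c ^ 2 := by
  simp only [ev, Finset.sum_div]
  refine Finset.sum_congr rfl fun i _ => Finset.sum_congr rfl fun j _ => ?_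
  ring

theorem bnn_eq (g : TensorField) (x : E3) (p : Cov) (B : Bil) :
    bnn g x p B = qf (g x)⁻¹ B p / len g x p ^ 2 :=
  ev_div B (up (g x)⁻¹ p) (up (g x)⁻¹ p) (len g x p)

theorem qf_sub (P H K : Bil) (p : Cov) (a : ℝ) :
    qf P (a • H - K) p = a * qf P H p - qf P K p :=
  ev_sub H K a _ _

theorem contr_nrm (g : TensorField) (x : E3) (p : Cov) (B : Bil) :
    contr B (nrm g x p) = fun i => app (g x)⁻¹ B p i / len g x p := by
  funext i
  simp only [contr, nrm, app, Finset.sum_div]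
  refine Finset.sum_congr rfl fun j _ => ?_
  change B i j * (up (g x)⁻¹ p j / len g x p) = _
  ring

theorem mom_nrm (g h : TensorField) (x : E3) (p : Cov) :
    ∑ j, momentumDensity g h j x * nrm g x p j =
      ev (g x)⁻¹ (momV g h x) p / len g x p := by
  simp only [ev, nrm, raise, momV, Finset.sum_div, Finset.mul_sum]
  refine Finset.sum_congr rfl fun i _ => Finset.sum_congr rfl fun j _ => ?_
  ring

theorem inv_symm {U : Set E3} {g : TensorField} (hg : MetricOn U g) {x : E3} (hx : x ∈ U) :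
    ((g x)⁻¹ : Bil).IsSymm := by
  have h1 := (hg.posDef x hx).inv.isHermitian
  unfold Matrix.IsHermitian at h1
  rwa [Matrix.conjTranspose_eq_transpose_of_trivial] at h1

theorem ev_pos {P : Bil} (hP : P.PosDef) {p : Cov} (hp : p ≠ 0) : 0 < ev P p p := by
  have h1 := hP.dotProduct_mulVec_pos hp
  have h2 : ev P p p = star p ⬝ᵥ P.mulVec p := by
    simp only [ev, dotProduct, Matrix.mulVec, Finset.mul_sum, star_trivial]
    refine Finset.sum_congr rfl fun i _ => Finset.sum_congr rfl fun j _ => ?_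
    ring
  rw [h2]
  exact h1

/-- The identity for numbers. -/
theorem numbers {l e tH qH dHH aH th qh dhh dhH Rn R Jp : ℝ} (hl : l ≠ 0) (he : e ≠ 0)
    (he2 : 2 - e ≠ 0) :
    (tH ^ 2 - dHH - Rn) / l - (qH * tH - aH) / l ^ 3
        - (qH / l ^ 2 * l + l * tH) / (2 - e) + Jp + dhH - th * tH =
      l * (R / 2 - Rn / l ^ 2 + (tH ^ 2 - dHH - 2 * (qH / l ^ 2) * tH + 2 * (aH / l ^ 2))
          / (2 * l ^ 2))
        - l * ((1 / 2) * (R - dhh + th ^ 2) - Jp / l
          + ((l⁻¹ ^ 2 * dHH - l⁻¹ * dhH - l⁻¹ * dhH + dhh) / 2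
            - ((l⁻¹ * qH - qh) / l ^ 2) ^ 2 / 2
            - (l⁻¹ * tH - th - (l⁻¹ * qH - qh) / l ^ 2) ^ 2 / 4
            + (1 / e - 1 / 4) * (l⁻¹ * tH - th - (l⁻¹ * qH - qh) / l ^ 2
              - 2 * l / (2 - e)) ^ 2
            + 2 * (qh / l ^ 2 + (th - qh / l ^ 2) / 2) * l / (2 - e)))
        - (l * (tH - qH / l ^ 2) - l ^ 3 / (2 - e) - (l ^ 2 * th - qh)) / (2 - e)
        + (tH - (1 - e) * (qH / l ^ 2) - l ^ 2 - l * (th - (1 - e) * (qh / l ^ 2)))
          * (l⁻¹ * tH - th - (l⁻¹ * qH - qh) / l ^ 2 - 2 * l / (2 - e)) / e := by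
  field_simp
  ring

end MID

open MID in
theorem ID (_hFR : Stmt_FR) : Stmt_ID := by
  intro U g h _ hg _ x hx ε p M hε hε1 hp _
  have hP := (hg.posDef x hx).inv
  have hS := inv_symm hg hx
  have hl : len g x p ≠ 0 := (Real.sqrt_pos.mpr (ev_pos hP hp)).ne'
  have hsq : ev (g x)⁻¹ p p = len g x p ^ 2 := (Real.sq_sqrt (ev_pos hP hp).le).symm
  have hld : ld (g x)⁻¹ 0 p = len g x p := by
    unfold ld len
    rw [zero_pow two_ne_zero, add_zero]
  have hlp : lp (g x)⁻¹ p = len g x p := rfl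
  have hB : ∀ B : Bil, btan g x p B = tr2 (g x)⁻¹ B - qf (g x)⁻¹ B p / len g x p ^ 2 := by
    intro B
    unfold btan
    rw [bnn_eq]
    rfl
  have hE : ∀ B : Bil, beps ε g x p B =
      tr2 (g x)⁻¹ B - (1 - ε) * (qf (g x)⁻¹ B p / len g x p ^ 2) := by
    intro B
    unfold beps
    rw [bnn_eq]
    rfl
  have hnsq : nsq g x (tenB g h x p M) = (len g x p)⁻¹ ^ 2
        * dd (g x)⁻¹ (cHess g x p M) (cHess g x p M)
      - (len g x p)⁻¹ * dd (g x)⁻¹ (h x) (cHess g x p M)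
      - (len g x p)⁻¹ * dd (g x)⁻¹ (h x) (cHess g x p M) + dd (g x)⁻¹ (h x) (h x) := by
    have h1 := dd_sub (g x)⁻¹ (cHess g x p M) (h x) (len g x p)⁻¹
    rw [dd_comm hS (h x) (cHess g x p M)] at h1
    exact h1
  have hbB : bnn g x p (tenB g h x p M) = ((len g x p)⁻¹ * qf (g x)⁻¹ (cHess g x p M) p
      - qf (g x)⁻¹ (h x) p) / len g x p ^ 2 := by
    rw [bnn_eq]
    unfold tenB
    rw [qf_sub]
  have htB : btan g x p (tenB g h x p M) = (len g x p)⁻¹ * tr2 (g x)⁻¹ (cHess g x p M)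
      - tr2 (g x)⁻¹ (h x) - ((len g x p)⁻¹ * qf (g x)⁻¹ (cHess g x p M) p
      - qf (g x)⁻¹ (h x) p) / len g x p ^ 2 := by
    rw [hB]
    unfold tenB
    rw [qf_sub, tr2_sub]
  have key := numbers (l := len g x p) (e := ε) (tH := tr2 (g x)⁻¹ (cHess g x p M))
    (qH := qf (g x)⁻¹ (cHess g x p M) p)
    (dHH := dd (g x)⁻¹ (cHess g x p M) (cHess g x p M))
    (aH := ev (g x)⁻¹ (app (g x)⁻¹ (cHess g x p M) p) (app (g x)⁻¹ (cHess g x p M) p))
    (th := tr2 (g x)⁻¹ (h x)) (qh := qf (g x)⁻¹ (h x) p) (dhh := dd (g x)⁻¹ (h x) (h x))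
    (dhH := dd (g x)⁻¹ (h x) (cHess g x p M)) (Rn := qf (g x)⁻¹ (ric g x) p)
    (R := scalarCurvature g x) (Jp := ev (g x)⁻¹ (momV g h x) p) hl hε.ne'
    (by linarith)
  have h1 : DZx ε g h 0 x p M = (tr2 (g x)⁻¹ (cHess g x p M) ^ 2
        - dd (g x)⁻¹ (cHess g x p M) (cHess g x p M) - qf (g x)⁻¹ (ric g x) p) / len g x p
      - (qf (g x)⁻¹ (cHess g x p M) p * tr2 (g x)⁻¹ (cHess g x p M)
        - ev (g x)⁻¹ (app (g x)⁻¹ (cHess g x p M) p) (app (g x)⁻¹ (cHess g x p M) p))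
          / len g x p ^ 3
      - (qf (g x)⁻¹ (cHess g x p M) p / len g x p ^ 2 * len g x p
        + len g x p * tr2 (g x)⁻¹ (cHess g x p M)) / (2 - ε)
      + ev (g x)⁻¹ (momV g h x) p + dd (g x)⁻¹ (h x) (cHess g x p M)
      - tr2 (g x)⁻¹ (h x) * tr2 (g x)⁻¹ (cHess g x p M) := by
    unfold DZx DZ Dd nn
    rw [hld, hlp, hsq]
  have h2 : Kd g x p M = len g x p * (scalarCurvature g x / 2
      - qf (g x)⁻¹ (ric g x) p / len g x p ^ 2
      + (tr2 (g x)⁻¹ (cHess g x p M) ^ 2 - dd (g x)⁻¹ (cHess g x p M) (cHess g x p M)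
        - 2 * (qf (g x)⁻¹ (cHess g x p M) p / len g x p ^ 2) * tr2 (g x)⁻¹ (cHess g x p M)
        + 2 * (ev (g x)⁻¹ (app (g x)⁻¹ (cHess g x p M) p) (app (g x)⁻¹ (cHess g x p M) p)
          / len g x p ^ 2)) / (2 * len g x p ^ 2)) := by
    unfold Kd gaussK
    rw [bnn_eq, bnn_eq, contr_nrm, ev_div]
    rfl
  have h3 : matter g h x p = (1 / 2) * (scalarCurvature g x - dd (g x)⁻¹ (h x) (h x)
      + tr2 (g x)⁻¹ (h x) ^ 2) - ev (g x)⁻¹ (momV g h x) p / len g x p := by
    unfold matter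
    rw [mom_nrm]
    rfl
  have h4 : flux ε g h x p M = len g x p * (tr2 (g x)⁻¹ (cHess g x p M)
      - qf (g x)⁻¹ (cHess g x p M) p / len g x p ^ 2) - len g x p ^ 3 / (2 - ε)
      - (len g x p ^ 2 * tr2 (g x)⁻¹ (h x) - qf (g x)⁻¹ (h x) p) := by
    unfold flux
    rw [hB]
    rfl
  have h5 : resid ε g h x p M = tr2 (g x)⁻¹ (cHess g x p M)
      - (1 - ε) * (qf (g x)⁻¹ (cHess g x p M) p / len g x p ^ 2) - len g x p ^ 2
      - len g x p * (tr2 (g x)⁻¹ (h x) - (1 - ε) * (qf (g x)⁻¹ (h x) p / len g x p ^ 2)) := by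
    unfold resid
    rw [hE, hE]
  have h6 : zed ε g h x p M = (len g x p)⁻¹ * tr2 (g x)⁻¹ (cHess g x p M)
      - tr2 (g x)⁻¹ (h x) - ((len g x p)⁻¹ * qf (g x)⁻¹ (cHess g x p M) p
      - qf (g x)⁻¹ (h x) p) / len g x p ^ 2 - 2 * len g x p / (2 - ε) := by
    unfold zed
    rw [htB]
  unfold diss
  rw [h1, h2, h3, h4, h5, h6, hnsq, hbB, htB, hB, bnn_eq]
  exact key

end Pool.Agent.PFlow


end

section

/-!
FC: sub- and superlevel sets of the filled function are preconnected.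
-/

open MeasureTheory Filter Topology
open scoped ContDiff

namespace Pool.Agent.PFlow.MFC

open Pool.Agent.PenroseSph Pool.Agent.PFlow

theorem Conn.mono {A A' : Set E3} (h : A ⊆ A') {y z : E3} (hc : Conn A y z) : Conn A' y z := by
  obtain ⟨S, h1, h2, h3, h4⟩ := hc
  exact ⟨S, h1.trans h, h2, h3, h4⟩

theorem conn_univ {A : Set E3} (h : ∀ x, x ∈ A) (y z : E3) : Conn A y z :=
  ⟨Set.univ, fun x _ => h x, isPreconnected_univ, trivial, trivial⟩

/-- an admissible level of `fillB` is an upper bound for its value -/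
theorem fillB_le {V : E3 → ℝ} {s₁ : ℝ} {z₀ y : E3} {c : ℝ} (hc : c ≤ s₁)
    (h : Conn {z | V z ≤ c} y z₀) : fillB V s₁ z₀ y ≤ c := by
  refine csInf_le ⟨V y, ?_⟩ ⟨hc, h⟩
  rintro d ⟨_, S, hS, _, hy, _⟩
  exact hS hy

theorem exists_of_fillB_lt {V : E3 → ℝ} {s₁ : ℝ} {z₀ y : E3} {c : ℝ} (hV : ∀ x, V x ≤ s₁)
    (h : fillB V s₁ z₀ y < c) : ∃ d < c, d ≤ s₁ ∧ Conn {z | V z ≤ d} y z₀ := by
  have hne : {c : ℝ | c ≤ s₁ ∧ Conn {z | V z ≤ c} y z₀}.Nonempty :=
    ⟨s₁, le_refl _, conn_univ hV y z₀⟩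
  obtain ⟨d, ⟨hd1, hd2⟩, hd3⟩ := exists_lt_of_csInf_lt hne h
  exact ⟨d, hd3, hd1, hd2⟩

theorem le_fillA {W : E3 → ℝ} {s₀ : ℝ} {z₁ y : E3} {c : ℝ} (hc : s₀ ≤ c)
    (h : Conn {z | c ≤ W z} y z₁) : c ≤ fillA W s₀ z₁ y := by
  refine le_csSup ⟨W y, ?_⟩ ⟨hc, h⟩
  rintro d ⟨_, S, hS, _, hy, _⟩
  exact hS hy

theorem exists_of_lt_fillA {W : E3 → ℝ} {s₀ : ℝ} {z₁ y : E3} {c : ℝ} (hW : ∀ x, s₀ ≤ W x)
    (h : c < fillA W s₀ z₁ y) : ∃ d, c < d ∧ s₀ ≤ d ∧ Conn {z | d ≤ W z} y z₁ := by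
  have hne : {c : ℝ | s₀ ≤ c ∧ Conn {z | c ≤ W z} y z₁}.Nonempty :=
    ⟨s₀, le_refl _, conn_univ hW y z₁⟩
  obtain ⟨d, ⟨hd1, hd2⟩, hd3⟩ := exists_lt_of_lt_csSup hne h
  exact ⟨d, hd3, hd1, hd2⟩

/-- the sublevel sets -/
theorem sub {V : E3 → ℝ} {s₁ : ℝ} {z₀ : E3} (hV : ∀ x, V x ≤ s₁) (c : ℝ) :
    IsPreconnected {x | fillB V s₁ z₀ x < c} := by
  refine isPreconnected_of_forall z₀ fun y hy => ?_
  obtain ⟨d, hdc, hd, S, hS, hSp, hyS, hzS⟩ := exists_of_fillB_lt hV hy
  exact ⟨S, fun z hz => lt_of_le_of_lt (fillB_le hd ⟨S, hS, hSp, hz, hzS⟩) hdc, hzS, hyS, hSp⟩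

/-- the superlevel sets of `fillA`, seen from a point -/
theorem super_aux {W V F : E3 → ℝ} {s₀ : ℝ} {z₁ : E3} (hVdef : V = fillA W s₀ z₁)
    (hW : ∀ x, s₀ ≤ W x) (hVF : ∀ x, V x ≤ F x) {c : ℝ} {y : E3} (hy : c < V y) :
    ∃ T ⊆ {x | c < F x}, z₁ ∈ T ∧ y ∈ T ∧ IsPreconnected T := by
  subst hVdef
  obtain ⟨d, hcd, hd, S, hS, hSp, hyS, hzS⟩ := exists_of_lt_fillA hW hy
  exact ⟨S, fun z hz => lt_of_lt_of_le (lt_of_lt_of_le hcd
    (le_fillA hd ⟨S, hS, hSp, hz, hzS⟩)) (hVF z), hzS, hyS, hSp⟩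

/-- two points of a component of a strict sublevel set: `fillB` is at least the level -/
theorem low {V : E3 → ℝ} {s₁ : ℝ} {z₀ y z : E3} (hVc : Continuous V) (hV : ∀ x, V x ≤ s₁)
    {D : Set E3} (hDo : IsOpen D) (hDp : IsPreconnected D)
    (hD : D ⊆ {x | V x < fillB V s₁ z₀ y}) (hy : y ∈ D) (hz : z ∈ D) :
    fillB V s₁ z₀ y ≤ fillB V s₁ z₀ z := by
  by_contra hlt
  push Not at hlt
  obtain ⟨d, hdb, hd, S, hS, hSp, hzS, hz0⟩ := exists_of_fillB_lt hV hlt
  have hpath : IsPathConnected D := (hDo.isConnected_iff_isPathConnected).mp ⟨⟨y, hy⟩, hDp⟩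
  obtain ⟨γ, hγ⟩ := hpath.joinedIn y hy z hz
  have hK : IsCompact (Set.range γ) := isCompact_range γ.continuous
  have hKne : (Set.range γ).Nonempty := Set.range_nonempty _
  obtain ⟨x, hx, hmax⟩ := hK.exists_isMaxOn hKne hVc.continuousOn
  have hKp : IsPreconnected (Set.range γ) := isPreconnected_range γ.continuous
  have hxD : x ∈ D := by
    obtain ⟨t, rfl⟩ := hx
    exact hγ t
  have hVx : V x < fillB V s₁ z₀ y := hD hxD
  have h1 : Conn {w | V w ≤ max d (V x)} y z₀ := by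
    refine ⟨Set.range γ ∪ S, ?_, ?_, ?_, ?_⟩
    · rintro w (hw | hw)
      · have h2 : V w ≤ V x := hmax hw
        exact le_trans h2 (le_max_right _ _)
      · have h2 : V w ≤ d := hS hw
        exact le_trans h2 (le_max_left _ _)
    · exact IsPreconnected.union z ⟨1, γ.target⟩ hzS hKp hSp
    · exact Or.inl ⟨0, γ.source⟩
    · exact Or.inr hz0
  have h2 := fillB_le (max_le hd (hV x)) h1
  exact absurd h2 (not_le.mpr (max_lt hdb hVx))

/-- the superlevel sets -/
theorem super {W V F : E3 → ℝ} {s₀ s₁ : ℝ} {z₀ z₁ : E3} (hVdef : V = fillA W s₀ z₁)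
    (hFdef : F = fillB V s₁ z₀) (hW : ∀ x, s₀ ≤ W x) (hVc : Continuous V) (hV : ∀ x, V x ≤ s₁)
    (hVF : ∀ x, V x ≤ F x) (hz1 : V z₁ = s₁) (c : ℝ) :
    IsPreconnected {x | c < F x} := by
  refine isPreconnected_of_forall z₁ fun y hy => ?_
  by_cases hcy : c < V y
  · exact super_aux hVdef hW hVF hcy
  · push Not at hcy
    have hyb : y ∈ {x | V x < F y} := lt_of_le_of_lt hcy hy
    have hopen : IsOpen {x | V x < F y} := isOpen_lt hVc continuous_const
    obtain ⟨D, hDdef⟩ : ∃ D, D = connectedComponentIn {x | V x < F y} y := ⟨_, rfl⟩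
    have hDo : IsOpen D := hDdef ▸ hopen.connectedComponentIn
    have hDp : IsPreconnected D := hDdef ▸ isPreconnected_connectedComponentIn
    have hDs : D ⊆ {x | V x < F y} := hDdef ▸ connectedComponentIn_subset _ _
    have hyD : y ∈ D := hDdef ▸ mem_connectedComponentIn hyb
    have hFle : F y ≤ s₁ := by
      rw [hFdef]
      exact fillB_le (le_refl _) (conn_univ hV y z₀)
    have hzD : z₁ ∉ D := by
      intro h
      have h1 : V z₁ < F y := hDs h
      rw [hz1] at h1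
      exact absurd hFle (not_le.mpr h1)
    have hfr : (frontier D).Nonempty := by
      rw [nonempty_frontier_iff]
      exact ⟨⟨y, hyD⟩, fun h => hzD (h ▸ Set.mem_univ z₁)⟩
    obtain ⟨y0, hy0⟩ := hfr
    have hy0c : y0 ∈ closure D := hy0.1
    have hy0D : y0 ∉ D := by
      have h1 := hy0.2
      rwa [hDo.interior_eq] at h1
    have hins : IsPreconnected (insert y0 D) :=
      hDp.subset_closure (Set.subset_insert _ _)
        (Set.insert_subset_iff.mpr ⟨hy0c, subset_closure⟩)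
    have hVy0 : F y ≤ V y0 := by
      by_contra hlt
      push Not at hlt
      apply hy0D
      have h2 : insert y0 D ⊆ {x | V x < F y} := Set.insert_subset_iff.mpr ⟨hlt, hDs⟩
      have h3 := hins.subset_connectedComponentIn (Set.mem_insert_of_mem y0 hyD) h2
      rw [← hDdef] at h3
      exact h3 (Set.mem_insert _ _)
    have hcy0 : c < V y0 := lt_of_lt_of_le hy hVy0
    obtain ⟨T, hT, hT1, hT2, hT3⟩ := super_aux hVdef hW hVF hcy0
    refine ⟨insert y0 D ∪ T, ?_, Or.inr hT1, Or.inl (Set.mem_insert_of_mem y0 hyD),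
      IsPreconnected.union y0 (Set.mem_insert _ _) hT2 hins hT3⟩
    rintro w (hw | hw)
    · rcases hw with rfl | hw
      · exact lt_of_lt_of_le hcy0 (hVF _)
      · have h4 : F y ≤ F w := by
          rw [hFdef]
          rw [hFdef] at hDs
          exact low hVc hV hDo hDp hDs hyD hw
        exact lt_of_lt_of_le hy h4
    · exact hT hw

end Pool.Agent.PFlow.MFC

namespace Pool.Agent.PFlow

open Pool.Agent.PenroseSph

theorem FC (hFA : Stmt_FA) : Stmt_FC := by
  intro a' b' s₀ s₁ W C z₁ hW hL hz c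
  obtain ⟨hA, hF, hAW, hAF, hTA, hTF⟩ := hFA a' b' s₀ s₁ W C z₁ hW hL hz
  exact ⟨MFC.sub hTA.upper c, MFC.super rfl rfl hW.lower hTA.cont hTA.upper hAF
    (hTA.outer z₁ hz) c⟩

end Pool.Agent.PFlow


end

section

/-!
# DEFE: the total defect is small
-/

open MeasureTheory Filter Topology
open scoped ContDiff ENNReal

namespace Pool.Agent.PFlow

open Pool.Agent.PenroseSph

namespace EDEFE

lemma rpow_add_one {a p : ℝ} (ha : 0 ≤ a) (hp : 1 ≤ p) : a ≤ a ^ p + 1 := by
  rcases le_total a 1 with h | h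
  · have := Real.rpow_nonneg ha p
    linarith
  · have h2 : a ^ (1 : ℝ) ≤ a ^ p := Real.rpow_le_rpow_of_exponent_le h hp
    rw [Real.rpow_one] at h2
    linarith

lemma rpow_le_cube {a p : ℝ} (ha : 0 ≤ a) (hp : 0 ≤ p) (hp3 : p ≤ 3) : a ^ p ≤ a ^ 3 + 1 := by
  rcases le_total a 1 with h | h
  · have h1 : a ^ p ≤ 1 := Real.rpow_le_one ha h hp
    have : 0 ≤ a ^ 3 := by positivity
    linarith
  · have h2 : a ^ p ≤ a ^ (3 : ℝ) := Real.rpow_le_rpow_of_exponent_le h hp3
    rw [show (3 : ℝ) = ((3 : ℕ) : ℝ) by norm_num, Real.rpow_natCast] at h2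
    linarith

/-- Hoelder's inequality. -/
lemma core (ε : ℝ) (T : Set E3) (ph e vol : E3 → ℝ) (I E : ℝ) (hε : 0 < ε)
    (hT : MeasurableSet T)
    (hvol : ∀ x, 0 ≤ vol x) (hph : ∀ x, 0 ≤ ph x) (he0 : ∀ x, 0 ≤ e x)
    (hem : ∀ x ∈ T, e x ≤ E) (hIv : IntegrableOn vol T)
    (hIP : IntegrableOn (fun x => ph x ^ (1 + ε) * vol x) T)
    (hPm : AEStronglyMeasurable ph (volume.restrict T))
    (hEm : AEStronglyMeasurable e (volume.restrict T))
    (hI : (∫ x in T, ph x ^ (1 + ε) * vol x) ≤ I) :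
    IntegrableOn (fun x => ph x * e x * vol x) T ∧
    IntegrableOn (fun x => e x ^ ((1 + ε) / ε) * vol x) T ∧
    ∫ x in T, ph x * e x * vol x ≤ I ^ (1 / (1 + ε)) *
      (∫ x in T, e x ^ ((1 + ε) / ε) * vol x) ^ (ε / (1 + ε)) := by
  have hp0 : (0 : ℝ) < 1 + ε := by linarith
  have hq0 : 0 < (1 + ε) / ε := by positivity
  have hvm : AEStronglyMeasurable vol (volume.restrict T) := hIv.aestronglyMeasurable
  have hEqm : AEStronglyMeasurable (fun x => e x ^ ((1 + ε) / ε)) (volume.restrict T) :=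
    (hEm.aemeasurable.pow_const _).aestronglyMeasurable
  have hIE : IntegrableOn (fun x => e x ^ ((1 + ε) / ε) * vol x) T := by
    refine Integrable.mono' (hIv.const_mul (E ^ ((1 + ε) / ε))) (hEqm.mul hvm) ?_
    rw [ae_restrict_iff' hT]
    refine Eventually.of_forall fun x hx => ?_
    rw [Real.norm_eq_abs, abs_of_nonneg (mul_nonneg (Real.rpow_nonneg (he0 x) _) (hvol x))]
    exact mul_le_mul_of_nonneg_right (Real.rpow_le_rpow (he0 x) (hem x hx) hq0.le) (hvol x)
  have hint : IntegrableOn (fun x => ph x * e x * vol x) T := by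
    refine Integrable.mono' ((hIP.add hIv).const_mul E) ((hPm.mul hEm).mul hvm) ?_
    rw [ae_restrict_iff' hT]
    refine Eventually.of_forall fun x hx => ?_
    rw [Real.norm_eq_abs, abs_of_nonneg (mul_nonneg (mul_nonneg (hph x) (he0 x)) (hvol x))]
    show ph x * e x * vol x ≤ E * (ph x ^ (1 + ε) * vol x + vol x)
    have h1 := rpow_add_one (p := 1 + ε) (hph x) (by linarith)
    have h2 : ph x * vol x ≤ ph x ^ (1 + ε) * vol x + vol x := by
      have := mul_le_mul_of_nonneg_right h1 (hvol x)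
      linarith
    have h3 : 0 ≤ ph x * vol x := mul_nonneg (hph x) (hvol x)
    have h4 : 0 ≤ E := (he0 x).trans (hem x hx)
    calc ph x * e x * vol x = e x * (ph x * vol x) := by ring
      _ ≤ E * (ph x * vol x) := mul_le_mul_of_nonneg_right (hem x hx) h3
      _ ≤ E * (ph x ^ (1 + ε) * vol x + vol x) := mul_le_mul_of_nonneg_left h2 h4
  refine ⟨hint, hIE, ?_⟩
  set F : E3 → ℝ := fun x => ph x * vol x ^ (1 / (1 + ε)) with hF
  set G : E3 → ℝ := fun x => e x * vol x ^ (ε / (1 + ε)) with hG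
  have hF0 : ∀ x, 0 ≤ F x := fun x => mul_nonneg (hph x) (Real.rpow_nonneg (hvol x) _)
  have hG0 : ∀ x, 0 ≤ G x := fun x => mul_nonneg (he0 x) (Real.rpow_nonneg (hvol x) _)
  have hFp : ∀ x, F x ^ (1 + ε) = ph x ^ (1 + ε) * vol x := by
    intro x
    show (ph x * vol x ^ (1 / (1 + ε))) ^ (1 + ε) = ph x ^ (1 + ε) * vol x
    rw [Real.mul_rpow (hph x) (Real.rpow_nonneg (hvol x) _), ← Real.rpow_mul (hvol x),
      one_div, inv_mul_cancel₀ hp0.ne', Real.rpow_one]
  have hGq : ∀ x, G x ^ ((1 + ε) / ε) = e x ^ ((1 + ε) / ε) * vol x := by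
    intro x
    show (e x * vol x ^ (ε / (1 + ε))) ^ ((1 + ε) / ε) = e x ^ ((1 + ε) / ε) * vol x
    rw [Real.mul_rpow (he0 x) (Real.rpow_nonneg (hvol x) _), ← Real.rpow_mul (hvol x)]
    have : ε / (1 + ε) * ((1 + ε) / ε) = 1 := by field_simp
    rw [this, Real.rpow_one]
  have hFG : ∀ x, F x * G x = ph x * e x * vol x := by
    intro x
    show ph x * vol x ^ (1 / (1 + ε)) * (e x * vol x ^ (ε / (1 + ε))) = ph x * e x * vol x
    have h1 : vol x ^ (1 / (1 + ε)) * vol x ^ (ε / (1 + ε)) = vol x := by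
      rcases (hvol x).eq_or_lt with h | h
      · rw [← h, Real.zero_rpow (by positivity), zero_mul]
      · rw [← Real.rpow_add h]
        have : 1 / (1 + ε) + ε / (1 + ε) = 1 := by field_simp
        rw [this, Real.rpow_one]
    calc ph x * vol x ^ (1 / (1 + ε)) * (e x * vol x ^ (ε / (1 + ε))) =
        ph x * e x * (vol x ^ (1 / (1 + ε)) * vol x ^ (ε / (1 + ε))) := by ring
      _ = ph x * e x * vol x := by rw [h1]
  have hFm : AEStronglyMeasurable F (volume.restrict T) := by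
    have h1 : AEMeasurable (fun x => vol x ^ (1 / (1 + ε))) (volume.restrict T) :=
      hvm.aemeasurable.pow_const _
    exact hPm.mul h1.aestronglyMeasurable
  have hGm : AEStronglyMeasurable G (volume.restrict T) := by
    have h1 : AEMeasurable (fun x => vol x ^ (ε / (1 + ε))) (volume.restrict T) :=
      hvm.aemeasurable.pow_const _
    exact hEm.mul h1.aestronglyMeasurable
  have hpq : (1 + ε).HolderConjugate ((1 + ε) / ε) := by
    rw [Real.holderConjugate_iff]
    refine ⟨by linarith, ?_⟩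
    field_simp
  have hFL : MemLp F (ENNReal.ofReal (1 + ε)) (volume.restrict T) := by
    rw [← integrable_norm_rpow_iff hFm (by simpa using hp0) ENNReal.ofReal_ne_top]
    refine hIP.congr (Eventually.of_forall fun x => ?_)
    show ph x ^ (1 + ε) * vol x = ‖F x‖ ^ (ENNReal.ofReal (1 + ε)).toReal
    rw [ENNReal.toReal_ofReal hp0.le, Real.norm_eq_abs, abs_of_nonneg (hF0 x), hFp]
  have hGL : MemLp G (ENNReal.ofReal ((1 + ε) / ε)) (volume.restrict T) := by
    rw [← integrable_norm_rpow_iff hGm (by simpa using hq0) ENNReal.ofReal_ne_top]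
    refine hIE.congr (Eventually.of_forall fun x => ?_)
    show e x ^ ((1 + ε) / ε) * vol x = ‖G x‖ ^ (ENNReal.ofReal ((1 + ε) / ε)).toReal
    rw [ENNReal.toReal_ofReal hq0.le, Real.norm_eq_abs, abs_of_nonneg (hG0 x), hGq]
  have hH := integral_mul_le_Lp_mul_Lq_of_nonneg hpq (Eventually.of_forall hF0)
    (Eventually.of_forall hG0) hFL hGL
  simp only [hFG, hFp, hGq] at hH
  have e1 : 1 / ((1 + ε) / ε) = ε / (1 + ε) := by field_simp
  rw [e1] at hH
  refine hH.trans (mul_le_mul_of_nonneg_right ?_ ?_)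
  · refine Real.rpow_le_rpow ?_ hI (by positivity)
    exact integral_nonneg fun x => mul_nonneg (Real.rpow_nonneg (hph x) _) (hvol x)
  · refine Real.rpow_nonneg ?_ _
    exact integral_nonneg fun x => mul_nonneg (Real.rpow_nonneg (he0 x) _) (hvol x)

lemma isCompact_cAnn (a b : ℝ) : IsCompact (cAnn a b) := by
  refine Metric.isCompact_of_isClosed_isBounded ?_ ?_
  · exact (isClosed_le continuous_const continuous_norm).inter
      (isClosed_le continuous_norm continuous_const)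
  · refine (Metric.isBounded_closedBall (x := (0 : E3)) (r := b)).subset fun x hx => ?_
    rw [mem_closedBall_zero_iff]
    exact hx.2

end EDEFE

theorem DEFE (hSETW : Stmt_SETW) (hBETA : Stmt_BETA) (hUPH : Stmt_UPH) (hFLXA : Stmt_FLXA) :
    Stmt_DEFE := by
  intro P B g l
  by_cases hex : ∃ D : Dat, Setup P D ∧ D.g = g ∧ D.l = l
  swap
  · refine ⟨1, one_pos, fun D hD _ h1 h2 => ?_⟩
    exact absurd ⟨D, hD, h1, h2⟩ hex
  obtain ⟨D₀, hD₀, hg₀, hl₀⟩ := hex
  obtain ⟨β, hβ⟩ := hBETA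
  obtain ⟨BU, hBU, hU⟩ := hUPH P B β hβ
  have hε := hD₀.eps_pos
  have hε2 := hD₀.eps_le
  have hκ := hD₀.kap_pos
  have hκ8 := hD₀.kap_le
  have hl4 : 4 ≤ l := hl₀ ▸ hD₀.l_ge
  have hl : 0 < l := by linarith
  have hK := EDEFE.isCompact_cAnn (P.kap / l) l
  have hKne : ∀ x ∈ cAnn (P.kap / l) l, x ≠ 0 := by
    rintro x ⟨hx, _⟩ rfl
    rw [norm_zero] at hx
    have : 0 < P.kap / l := by positivity
    linarith
  -- the volume density of `g` is bounded
  obtain ⟨V, hV⟩ : ∃ V : ℝ, ∀ x ∈ cAnn (P.kap / l) l, volDen g x ≤ V := by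
    have hc : ContinuousOn (volDen g) (cAnn (P.kap / l) l) := by
      have h1 : ContinuousOn (fun x => (g x).det) (cAnn (P.kap / l) l) := by
        have h2 : ∀ i j, ContinuousOn (fun x => g x i j) (cAnn (P.kap / l) l) := by
          intro i j
          have := (hg₀ ▸ hD₀.metric0.smooth i j : ContDiffOn ℝ ∞ (fun x => g x i j) {0}ᶜ)
          exact this.continuousOn.mono fun x hx => hKne x hx
        simp only [Matrix.det_fin_three]
        fun_prop
      exact Real.continuous_sqrt.comp_continuousOn h1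
    obtain ⟨V, hV⟩ := hK.bddAbove_image hc
    exact ⟨V, fun x hx => hV ⟨x, hx, rfl⟩⟩
  have hV0 : 0 ≤ V := by
    have hx : (EuclideanSpace.single (0 : Fin 3) (l : ℝ)) ∈ cAnn (P.kap / l) l := by
      constructor
      · rw [EuclideanSpace.norm_single, Real.norm_eq_abs, abs_of_pos hl, div_le_iff₀ hl]
        nlinarith
      · rw [EuclideanSpace.norm_single, Real.norm_eq_abs, abs_of_pos hl]
    exact (Real.sqrt_nonneg _).trans (hV _ hx)
  set q := (1 + P.eps) / P.eps with hq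
  have hq0 : 0 < q := by
    rw [hq]
    have : 0 < 1 + P.eps := by linarith
    positivity
  set s₂ := s2E P.eps P.gam l with hs₂
  set A : ℝ := Real.exp ((1 + P.eps) * s₂ / (2 - P.eps)) * (BU * Real.exp s₂) with hA
  have hA0 : 0 ≤ A := by positivity
  refine ⟨A ^ (1 / (1 + P.eps)) * V ^ (P.eps / (1 + P.eps)) + 1, ?_, ?_⟩
  · have h1 := Real.rpow_nonneg hA0 (1 / (1 + P.eps))
    have h2 := Real.rpow_nonneg hV0 (P.eps / (1 + P.eps))
    have := mul_nonneg h1 h2
    linarith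
  intro D hD hAbs hDg hDl
  obtain ⟨w1, w2, w3, w4, w5, w6, wmeas, w8, w9, w10, w11, w12, w13, w14, w15, sb0, sb1, sbe,
    s21, s2M, w21, w22⟩ := hSETW P D hD
  obtain ⟨hJ, _, _⟩ := hU D hD hAbs
  have hs2D : D.s2 P = s₂ := by rw [hs₂, ← hDl]; rfl
  have hsb2 : D.sb P < D.s2 P := by linarith
  have hγ := hD.gam_pos
  obtain ⟨hJ0, hflx⟩ := hFLXA P.eps β hε hε2 hβ _ _ _ _ _ _ _ _ _ _ _ _ hAbs sb0 hsb2 (by linarith)
  -- the region
  set T := cAnn (P.kap / D.l) D.l ∩ {x | D.sb P / 2 ≤ D.w P x} with hT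
  have hTm : MeasurableSet T := by
    refine MeasurableSet.inter ?_ (measurableSet_le measurable_const wmeas)
    exact (EDEFE.isCompact_cAnn _ _).measurableSet
  have hRl : 2 * l / P.kap ≤ D.R := hDl ▸ hD.R_ge'
  have hR0 : 0 < D.R := lt_of_lt_of_le (by positivity) hRl
  have hlR : l < D.R := by
    refine lt_of_lt_of_le ?_ hRl
    rw [lt_div_iff₀ hκ]
    nlinarith
  have hinv : 1 / D.R < P.kap / l := by
    rw [div_lt_div_iff₀ hR0 hl]
    have h1 : 2 * l ≤ D.R * P.kap := by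
      rwa [div_le_iff₀ hκ] at hRl
    nlinarith
  have hcOm : cAnn (P.kap / D.l) D.l ⊆ D.Om := by
    rintro x ⟨h1, h2⟩
    rw [hDl] at h1 h2
    exact ⟨lt_of_lt_of_le hinv h1, lt_of_le_of_lt h2 hlR⟩
  have hTs : T ⊆ D.Om ∩ {x | D.sb P / 2 ≤ D.w P x ∧ D.w P x ≤ D.s2 P} := by
    rintro x ⟨h1, h2⟩
    refine ⟨hcOm h1, h2, ?_⟩
    refine (hD.located.mid x (hcOm h1) ?_).le
    have := h1.2
    rw [hDl] at this ⊢
    linarith
  have hint3 := hAbs.int_X (D.sb P / 2) (D.s2 P) (by linarith) (by linarith) (by linarith)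
  have hintv := hAbs.int_vol (D.sb P / 2) (D.s2 P) (by linarith) (by linarith) (by linarith)
  have hOmm := hAbs.measOmega
  set L := D.Om ∩ {x | D.sb P / 2 ≤ D.w P x ∧ D.w P x ≤ D.s2 P} with hL
  have hLm : MeasurableSet L := by
    refine hOmm.inter ?_
    exact (measurableSet_le measurable_const wmeas).inter
      (measurableSet_le wmeas measurable_const)
  have hXm : AEStronglyMeasurable (D.X P) (volume.restrict L) :=
    hAbs.meas_X.mono_measure (Measure.restrict_mono Set.inter_subset_left le_rfl)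
  have hIX : IntegrableOn (fun x => D.X P x ^ (1 + P.eps) * D.vol x) L := by
    refine Integrable.mono' (hint3.add hintv)
      ((hXm.aemeasurable.pow_const _).aestronglyMeasurable.mul hintv.aestronglyMeasurable)
      (Eventually.of_forall fun x => ?_)
    have hx0 := hAbs.X_nonneg x
    have hv0 := hAbs.vol_nonneg x
    rw [Real.norm_eq_abs, abs_of_nonneg (mul_nonneg (Real.rpow_nonneg hx0 _) hv0)]
    show D.X P x ^ (1 + P.eps) * D.vol x ≤ D.X P x ^ 3 * D.vol x + D.vol x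
    have := mul_le_mul_of_nonneg_right
      (EDEFE.rpow_le_cube (p := 1 + P.eps) hx0 (by linarith) (by linarith)) hv0
    linarith
  -- the weight
  have hph0 : ∀ x, 0 ≤ D.ph P x := fun x => mul_nonneg (Real.exp_pos _).le (hAbs.X_nonneg x)
  have hphp : ∀ x, D.ph P x ^ (1 + P.eps) =
      Real.exp ((1 + P.eps) * D.w P x / (2 - P.eps)) * D.X P x ^ (1 + P.eps) := by
    intro x
    show (Real.exp (D.w P x / (2 - P.eps)) * D.X P x) ^ (1 + P.eps) = _
    rw [Real.mul_rpow (Real.exp_pos _).le (hAbs.X_nonneg x), ← Real.exp_mul]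
    congr 2
    ring
  have hphm : AEStronglyMeasurable (D.ph P) (volume.restrict L) := by
    have h1 : Measurable fun x => Real.exp (D.w P x / (2 - P.eps)) :=
      Real.measurable_exp.comp (wmeas.div_const _)
    exact h1.aestronglyMeasurable.mul hXm
  have hexp : ∀ x ∈ L, Real.exp ((1 + P.eps) * D.w P x / (2 - P.eps)) ≤
      Real.exp ((1 + P.eps) * s₂ / (2 - P.eps)) := by
    rintro x ⟨_, _, hx⟩
    apply Real.exp_le_exp.mpr
    have h2 : 0 < 2 - P.eps := by linarith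
    rw [← hs2D]
    refine div_le_div_of_nonneg_right ?_ h2.le
    exact mul_le_mul_of_nonneg_left hx (by linarith)
  have hIP : IntegrableOn (fun x => D.ph P x ^ (1 + P.eps) * D.vol x) L := by
    refine Integrable.mono' (hIX.const_mul (Real.exp ((1 + P.eps) * s₂ / (2 - P.eps))))
      ((hphm.aemeasurable.pow_const _).aestronglyMeasurable.mul hintv.aestronglyMeasurable) ?_
    rw [ae_restrict_iff' hLm]
    refine Eventually.of_forall fun x hx => ?_
    have hx0 := Real.rpow_nonneg (hAbs.X_nonneg x) (1 + P.eps)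
    have hv0 := hAbs.vol_nonneg x
    rw [Real.norm_eq_abs, abs_of_nonneg (mul_nonneg (Real.rpow_nonneg (hph0 x) _) hv0), hphp,
      mul_assoc]
    exact mul_le_mul_of_nonneg_right (hexp x hx) (mul_nonneg hx0 hv0)
  have hIPle : (∫ x in T, D.ph P x ^ (1 + P.eps) * D.vol x) ≤ A := by
    have h1 : (∫ x in T, D.ph P x ^ (1 + P.eps) * D.vol x) ≤
        ∫ x in L, D.ph P x ^ (1 + P.eps) * D.vol x :=
      setIntegral_mono_set hIP (Eventually.of_forall fun x =>
        mul_nonneg (Real.rpow_nonneg (hph0 x) _) (hAbs.vol_nonneg x)) (HasSubset.Subset.eventuallyLE hTs)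
    have h2 : (∫ x in L, D.ph P x ^ (1 + P.eps) * D.vol x) ≤
        ∫ x in L, Real.exp ((1 + P.eps) * s₂ / (2 - P.eps)) *
          (D.X P x ^ (1 + P.eps) * D.vol x) := by
      refine setIntegral_mono_on hIP (hIX.const_mul _) hLm fun x hx => ?_
      rw [hphp, mul_assoc]
      exact mul_le_mul_of_nonneg_right (hexp x hx)
        (mul_nonneg (Real.rpow_nonneg (hAbs.X_nonneg x) _) (hAbs.vol_nonneg x))
    rw [integral_const_mul] at h2
    have h3 := hflx (D.sb P / 2) (D.s2 P) (by linarith) (by linarith) le_rfl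
    have h4 : jInf P.eps β D.Om D.vol (D.w P) (D.X P) (D.s2 P) *
        (Real.exp (D.s2 P) - Real.exp (D.sb P / 2)) ≤ BU * Real.exp s₂ := by
      rw [hs2D] at hJ0 hJ ⊢
      have h5 : Real.exp s₂ - Real.exp (D.sb P / 2) ≤ Real.exp s₂ := by
        linarith [Real.exp_pos (D.sb P / 2)]
      exact (mul_le_mul_of_nonneg_left h5 hJ0).trans
        (mul_le_mul_of_nonneg_right hJ (Real.exp_pos _).le)
    refine h1.trans (h2.trans ?_)
    exact mul_le_mul_of_nonneg_left (h3.trans h4) (Real.exp_pos _).le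
  -- the defect
  have he := hD.modified.defect_cont
  have he0 := hD.modified.defect_nonneg
  obtain ⟨E, hE⟩ := (EDEFE.isCompact_cAnn (P.kap / D.l) D.l).bddAbove_image he.continuousOn
  have hLv : IntegrableOn D.vol T := hintv.mono_set hTs
  obtain ⟨c1, c2, c3⟩ := EDEFE.core P.eps T (D.ph P) D.e D.vol A E hε hTm hAbs.vol_nonneg hph0
    he0 (fun x hx => hE ⟨x, hx.1, rfl⟩) hLv (hIP.mono_set hTs)
    (hphm.mono_measure (Measure.restrict_mono hTs le_rfl)) he.aestronglyMeasurable hIPle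
  refine ⟨c1, ?_, ?_⟩
  · exact integral_nonneg fun x => mul_nonneg (mul_nonneg (hph0 x) (he0 x)) (hAbs.vol_nonneg x)
  -- the integral of the defect
  have hIe : IntegrableOn (fun x => D.e x ^ q) (cAnn (P.kap / D.l) D.l) := by
    refine ContinuousOn.integrableOn_compact (EDEFE.isCompact_cAnn _ _) ?_
    exact (he.rpow_const fun x => Or.inr hq0.le).continuousOn
  have hvolV : ∀ᵐ x ∂(volume.restrict T), D.vol x ≤ V := by
    have hsph : volume (Metric.sphere (0 : E3) l) = 0 := Measure.addHaar_sphere _ _ _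
    have h1 : ∀ᵐ x ∂(volume : Measure E3), x ∉ Metric.sphere (0 : E3) l :=
      measure_eq_zero_iff_ae_notMem.mp hsph
    rw [ae_restrict_iff' hTm]
    filter_upwards [h1] with x hx hxT
    have hx1 := hxT.1.1
    have hx2 := hxT.1.2
    rw [hDl] at hx1 hx2
    have hx3 : ‖x‖ < l := lt_of_le_of_ne hx2 (by simpa using hx)
    have h4 : 1 / (16 * D.R) < ‖x‖ := by
      refine lt_of_lt_of_le ?_ hx1
      refine lt_trans ?_ hinv
      exact one_div_lt_one_div_of_lt hR0 (by linarith)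
    have h5 := hD.modified.same x h4 (hDl.symm ▸ hx3)
    have h6 : D.vol x = volDen g x := by
      show Real.sqrt (D.g' x).det = Real.sqrt (g x).det
      rw [h5, hDg]
    rw [h6]
    exact hV x ⟨hx1, hx2⟩
  have hI2 : (∫ x in T, D.e x ^ q * D.vol x) ≤ V * ∫ x in cAnn (P.kap / D.l) D.l, D.e x ^ q := by
    have h1 : (∫ x in T, D.e x ^ q * D.vol x) ≤ ∫ x in T, V * D.e x ^ q := by
      refine integral_mono_ae c2 ((hIe.mono_set Set.inter_subset_left).const_mul V) ?_
      filter_upwards [hvolV] with x hx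
      rw [mul_comm V]
      exact mul_le_mul_of_nonneg_left hx (Real.rpow_nonneg (he0 x) _)
    rw [integral_const_mul] at h1
    refine h1.trans (mul_le_mul_of_nonneg_left ?_ hV0)
    exact setIntegral_mono_set hIe (Eventually.of_forall fun x => Real.rpow_nonneg (he0 x) _)
      (HasSubset.Subset.eventuallyLE Set.inter_subset_left)
  have hIe0 : 0 ≤ ∫ x in cAnn (P.kap / D.l) D.l, D.e x ^ q :=
    integral_nonneg fun x => Real.rpow_nonneg (he0 x) _
  have hex0 : 0 ≤ P.eps / (1 + P.eps) := by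
    have : 0 < 1 + P.eps := by linarith
    positivity
  have h9 : (∫ x in T, D.e x ^ q * D.vol x) ^ (P.eps / (1 + P.eps)) ≤
      V ^ (P.eps / (1 + P.eps)) *
        (∫ x in cAnn (P.kap / D.l) D.l, D.e x ^ q) ^ (P.eps / (1 + P.eps)) := by
    rw [← Real.mul_rpow hV0 hIe0]
    refine Real.rpow_le_rpow ?_ hI2 hex0
    exact integral_nonneg fun x => mul_nonneg (Real.rpow_nonneg (he0 x) _) (hAbs.vol_nonneg x)
  have h10 := Real.rpow_nonneg hA0 (1 / (1 + P.eps))
  have h11 := Real.rpow_nonneg hIe0 (P.eps / (1 + P.eps))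
  show (∫ x in T, D.ph P x * D.e x * D.vol x) ≤ _
  refine c3.trans ?_
  refine (mul_le_mul_of_nonneg_left h9 h10).trans ?_
  rw [← mul_assoc]
  exact mul_le_mul_of_nonneg_right (by linarith) h11

end Pool.Agent.PFlow


end

section

/-! From the geometric data to the real-variable core. -/

open MeasureTheory Filter Topology

namespace Pool.Agent.PenroseSph

section

variable {ρ₁ : ℝ} {u : ℝ → ℝ} {g h : TensorField}

/-- first derivative of `u` -/
noncomputable def du (u : ℝ → ℝ) : ℝ → ℝ := deriv u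

/-- second derivative of `u` -/
noncomputable def ddu (u : ℝ → ℝ) : ℝ → ℝ := deriv (deriv u)

theorem hasDerivAt_u (hu : ContDiffOn ℝ 2 u (Set.Ioi ρ₁)) (ρ : ℝ) (hρ : ρ₁ < ρ) :
    HasDerivAt u (du u ρ) ρ :=
  ((hu.differentiableOn (by norm_num)).differentiableAt (Ioi_mem_nhds hρ)).hasDerivAt

theorem hasDerivAt_du (hu : ContDiffOn ℝ 2 u (Set.Ioi ρ₁)) (ρ : ℝ) (hρ : ρ₁ < ρ) :
    HasDerivAt (du u) (ddu u ρ) ρ := by
  have h1 : ContDiffOn ℝ 1 (deriv u) (Set.Ioi ρ₁) :=
    hu.deriv_of_isOpen isOpen_Ioi (by norm_num)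
  exact ((h1.differentiableOn (by norm_num)).differentiableAt (Ioi_mem_nhds hρ)).hasDerivAt

/-- logarithmic radius -/
noncomputable def wf (u : ℝ → ℝ) (t : ℝ) : ℝ := t + u (Real.exp t)

noncomputable def wf1 (u : ℝ → ℝ) (t : ℝ) : ℝ := 1 + Real.exp t * du u (Real.exp t)

noncomputable def wf2 (u : ℝ → ℝ) (t : ℝ) : ℝ :=
  Real.exp t * du u (Real.exp t) + Real.exp t ^ 2 * ddu u (Real.exp t)

theorem hasDerivAt_wf (hu : ContDiffOn ℝ 2 u (Set.Ioi ρ₁)) (t : ℝ) (ht : ρ₁ < Real.exp t) :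
    HasDerivAt (wf u) (wf1 u t) t := by
  have h1 := (hasDerivAt_u hu _ ht).comp t (Real.hasDerivAt_exp t)
  have h2 := (hasDerivAt_id t).add h1
  refine h2.congr_deriv ?_
  unfold wf1; ring

theorem hasDerivAt_wf1 (hu : ContDiffOn ℝ 2 u (Set.Ioi ρ₁)) (t : ℝ) (ht : ρ₁ < Real.exp t) :
    HasDerivAt (wf1 u) (wf2 u t) t := by
  have h1 := (hasDerivAt_du hu _ ht).comp t (Real.hasDerivAt_exp t)
  have h2 := ((Real.hasDerivAt_exp t).mul h1).const_add 1
  refine h2.congr_deriv ?_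
  simp only [wf2, Function.comp_apply]
  ring

end

/-- The point `exp t • ω`. -/
noncomputable def pt (t : ℝ) (ω : Metric.sphere (0 : E3) 1) : E3 := Real.exp t • (ω : E3)

theorem norm_pt (t : ℝ) (ω : Metric.sphere (0 : E3) 1) : ‖pt t ω‖ = Real.exp t := by
  unfold pt
  rw [norm_smul, Real.norm_eq_abs, Real.abs_exp, norm_eq_of_mem_sphere ω, mul_one]

theorem pt_ne_zero (t : ℝ) (ω : Metric.sphere (0 : E3) 1) : pt t ω ≠ 0 := by
  rw [← norm_pos_iff, norm_pt]; exact Real.exp_pos t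

theorem pt_div_norm (t : ℝ) (ω : Metric.sphere (0 : E3) 1) (i : Fin 3) :
    pt t ω i / ‖pt t ω‖ = (ω : E3) i := by
  rw [norm_pt]
  unfold pt
  have := (Real.exp_pos t).ne'
  simp only [PiLp.smul_apply, smul_eq_mul]
  field_simp

theorem continuous_pt : Continuous (Function.uncurry pt) := by
  unfold pt
  fun_prop

theorem hasDerivAt_pt (t : ℝ) (ω : Metric.sphere (0 : E3) 1) :
    HasDerivAt (fun s => pt s ω) (pt t ω) t := by
  unfold pt
  exact (Real.hasDerivAt_exp t).smul_const (ω : E3)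

theorem hasDerivAt_comp_pt {f : E3 → ℝ} {t : ℝ} {ω : Metric.sphere (0 : E3) 1}
    (hf : DifferentiableAt ℝ f (pt t ω)) :
    HasDerivAt (fun s => f (pt s ω)) (Real.exp t * rd f (pt t ω)) t := by
  have h1 := hf.hasFDerivAt.comp_hasDerivAt t (hasDerivAt_pt t ω)
  refine h1.congr_deriv ?_
  have h2 : pt t ω = ∑ i, (pt t ω i) • (EuclideanSpace.single i (1 : ℝ) : E3) := by
    ext j
    simp [Finset.sum_apply, Pi.single_apply]
  conv_lhs => rw [h2]
  rw [map_sum]
  unfold rd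
  rw [Finset.mul_sum]
  refine Finset.sum_congr rfl fun i _ => ?_
  rw [← h2, map_smul, pt_div_norm, smul_eq_mul]
  have : pt t ω i = Real.exp t * (ω : E3) i := rfl
  rw [this]
  unfold pd
  ring

/-- The surface measure of the unit sphere. -/
noncomputable abbrev sph : Measure (Metric.sphere (0 : E3) 1) := (volume : Measure E3).toSphere

theorem sph_univ : sph.real Set.univ = 4 * Real.pi := by
  unfold sph
  rw [Measure.toSphere_real_apply_univ, Measure.real, EuclideanSpace.volume_ball_fin_three]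
  simp
  have : (0 : ℝ) ≤ Real.pi * 4 / 3 := by positivity
  rw [ENNReal.toReal_ofReal this]
  ring

section

variable {ρ₁ : ℝ} {u : ℝ → ℝ} {g h : TensorField}

theorem lt_norm_pt {t : ℝ} (ht : ρ₁ < Real.exp t) (ω : Metric.sphere (0 : E3) 1) :
    ρ₁ < ‖pt t ω‖ := by rwa [norm_pt]

theorem massIntegral_eq (hd : SphericalMetricData ρ₁ u g h) (t : ℝ) (ht : ρ₁ < Real.exp t) :
    massIntegral g (Real.exp t) = -(Real.exp t ^ 2 * du u (Real.exp t) *
      Real.exp (2 * u (Real.exp t))) := by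
  unfold massIntegral
  have h1 : ∀ ω : Metric.sphere (0 : E3) 1,
      (∑ i, ∑ j, (pd i (fun y => g y i j) (Real.exp t • (ω : E3))
        - pd j (fun y => g y i i) (Real.exp t • (ω : E3))) * (ω : E3) j) * Real.exp t ^ 2
      = -4 * du u (Real.exp t) * Real.exp (2 * u (Real.exp t)) * Real.exp t ^ 2 := by
    intro ω
    have hx := lt_norm_pt ht ω
    have h2 := fun k i j => pd_metric hd.radius_nonneg (hasDerivAt_u hd.contDiff_u)
      hd.metric_eq hx k i j
    have h3 := sum_nu_sq (pt_ne_zero t ω)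
    simp only [pt_div_norm] at h3
    have h4 : ∀ k i j, pd k (fun y => g y i j) (Real.exp t • (ω : E3))
      = 2 * Real.exp (2 * u (Real.exp t)) * (du u (Real.exp t) * (ω : E3) k) * dl i j := by
      intro k i j
      have := h2 k i j
      rw [gr, pt_div_norm, norm_pt] at this
      exact this
    simp only [h4, Fin.sum_univ_three, dl, Fin.isValue, ↓reduceIte, Fin.reduceEq, zero_ne_one,
      one_ne_zero]
    rw [Fin.sum_univ_three] at h3
    linear_combination (-4 * du u (Real.exp t) * Real.exp (2 * u (Real.exp t))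
      * Real.exp t ^ 2) * h3
  simp only [h1]
  rw [integral_const, sph_univ]
  have := Real.pi_ne_zero
  simp only [smul_eq_mul]
  field_simp
  ring

theorem eventually_lt_exp (a : ℝ) : ∀ᶠ t in atTop, a < Real.exp t :=
  Real.tendsto_exp_atTop.eventually (eventually_gt_atTop a)

theorem tendsto_exp_two_u (hd : SphericalMetricData ρ₁ u g h) :
    Tendsto (fun t => Real.exp (2 * u (Real.exp t))) atTop (𝓝 1) := by
  obtain ⟨C, R, hC⟩ := hd.decay
  have ω : Metric.sphere (0 : E3) 1 := ⟨EuclideanSpace.single 0 1, by simp⟩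
  rw [tendsto_iff_norm_sub_tendsto_zero]
  have hb : Tendsto (fun t => C * Real.exp (-t)) atTop (𝓝 (C * 0)) :=
    (Real.tendsto_exp_neg_atTop_nhds_zero).const_mul C
  rw [mul_zero] at hb
  refine squeeze_zero' (Eventually.of_forall fun t => norm_nonneg _) ?_ hb
  filter_upwards [eventually_lt_exp ρ₁, eventually_lt_exp R] with t ht hR
  have h1 := (hC (pt t ω) (by rw [norm_pt]; exact hR.le) 0 0).1
  rw [metric_apply hd.metric_eq (lt_norm_pt ht ω), norm_pt] at h1
  simp only [dl, ↓reduceIte, mul_one, Matrix.one_apply_eq] at h1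
  rw [Real.exp_neg, Real.norm_eq_abs]
  exact h1

theorem tendsto_u (hd : SphericalMetricData ρ₁ u g h) :
    Tendsto (fun t => u (Real.exp t)) atTop (𝓝 0) := by
  have h1 := ((Real.continuousAt_log one_ne_zero).tendsto.comp (tendsto_exp_two_u hd)).div_const 2
  rw [Real.log_one, zero_div] at h1
  refine h1.congr fun t => ?_
  simp

theorem tendsto_wf_atTop (hd : SphericalMetricData ρ₁ u g h) : Tendsto (wf u) atTop atTop :=
  tendsto_id.atTop_add (tendsto_u hd)

theorem tendsto_sq_du (hd : SphericalMetricData ρ₁ u g h) {m : ℝ} (hm : IsTotalMass g m) :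
    Tendsto (fun t => Real.exp t ^ 2 * du u (Real.exp t)) atTop (𝓝 (-m)) := by
  have h1 : Tendsto (fun t => massIntegral g (Real.exp t)) atTop (𝓝 m) :=
    hm.comp Real.tendsto_exp_atTop
  have h2 := (h1.neg).div (tendsto_exp_two_u hd) one_ne_zero
  rw [div_one] at h2
  refine h2.congr' ?_
  filter_upwards [eventually_lt_exp ρ₁] with t ht
  simp only [Pi.div_apply]
  rw [massIntegral_eq hd t ht]
  have := (Real.exp_pos (2 * u (Real.exp t))).ne'
  field_simp

theorem tendsto_exp_neg : Tendsto (fun t => Real.exp (-t)) atTop (𝓝 0) :=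
  Real.tendsto_exp_neg_atTop_nhds_zero

theorem tendsto_exp_du (hd : SphericalMetricData ρ₁ u g h) {m : ℝ} (hm : IsTotalMass g m) :
    Tendsto (fun t => Real.exp t * du u (Real.exp t)) atTop (𝓝 0) := by
  have h1 := tendsto_exp_neg.mul (tendsto_sq_du hd hm)
  rw [zero_mul] at h1
  refine h1.congr fun t => ?_
  rw [Real.exp_neg]
  have := (Real.exp_pos t).ne'
  field_simp

theorem tendsto_wf1 (hd : SphericalMetricData ρ₁ u g h) {m : ℝ} (hm : IsTotalMass g m) :
    Tendsto (wf1 u) atTop (𝓝 1) := by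
  have := (tendsto_exp_du hd hm).const_add 1
  rw [add_zero] at this
  exact this

theorem tendsto_mass (hd : SphericalMetricData ρ₁ u g h) {m : ℝ} (hm : IsTotalMass g m) :
    Tendsto (fun t => Real.exp (wf u t) * (1 - wf1 u t ^ 2)) atTop (𝓝 (2 * m)) := by
  have h1 : Tendsto (fun t => Real.exp (u (Real.exp t))) atTop (𝓝 1) := by
    have := (Real.continuous_exp.tendsto 0).comp (tendsto_u hd)
    rw [Real.exp_zero] at this
    exact this
  have h2 := h1.mul (((tendsto_sq_du hd hm).const_mul (-2)).sub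
    ((tendsto_sq_du hd hm).mul (tendsto_exp_du hd hm)))
  have e : (1 : ℝ) * (-2 * -m - -m * 0) = 2 * m := by ring
  rw [e] at h2
  refine h2.congr fun t => ?_
  unfold wf wf1
  rw [Real.exp_add]
  ring

theorem wf1_eq (t : ℝ) : wf1 u t = Real.exp t * (1 / Real.exp t + deriv u (Real.exp t)) := by
  unfold wf1 du
  have := (Real.exp_pos t).ne'
  field_simp

theorem wf1_pos_iff (t : ℝ) : 0 < wf1 u t ↔ 0 < 1 / Real.exp t + deriv u (Real.exp t) := by
  rw [wf1_eq, mul_pos_iff_of_pos_left (Real.exp_pos t)]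

theorem exists_wf1_nonpos (hd : SphericalMetricData ρ₁ u g h) :
    ∃ t, ρ₁ < Real.exp t ∧ wf1 u t ≤ 0 := by
  rcases hd.inner with ⟨h0, hT⟩ | ⟨ρ, hρ, hρ1⟩
  · by_contra hcon
    push Not at hcon
    have hcon' : ∀ t, 0 < wf1 u t := fun t => hcon t (by rw [h0]; exact Real.exp_pos t)
    have hmono : StrictMono (wf u) :=
      strictMono_of_hasDerivAt_pos (fun t => hasDerivAt_wf hd.contDiff_u t
        (by rw [h0]; exact Real.exp_pos t)) hcon'
    have h1 := hT.eventually (eventually_gt_atTop (4 * Real.pi * Real.exp (2 * wf u 0)))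
    have h2 : Tendsto Real.exp atBot (𝓝[>] 0) := Real.tendsto_exp_atBot_nhdsGT
    have h3 := (h2.eventually h1).and (eventually_le_atBot (0 : ℝ))
    obtain ⟨t, ht, ht0⟩ := h3.exists
    have h4 : wf u t ≤ wf u 0 := hmono.monotone ht0
    have h5 : sphereArea u (Real.exp t) = 4 * Real.pi * Real.exp (2 * wf u t) := by
      unfold sphereArea wf
      rw [mul_add, Real.exp_add, mul_assoc, ← Real.exp_nat_mul]
      push_cast
      ring
    rw [h5] at ht
    have : Real.exp (2 * wf u t) ≤ Real.exp (2 * wf u 0) := Real.exp_le_exp.2 (by linarith)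
    have h6 : 4 * Real.pi * Real.exp (2 * wf u t) ≤ 4 * Real.pi * Real.exp (2 * wf u 0) := by
      have := Real.pi_pos
      gcongr
    linarith
  · have hρ0 : 0 < ρ := lt_of_le_of_lt hd.radius_nonneg hρ
    refine ⟨Real.log ρ, by rwa [Real.exp_log hρ0], ?_⟩
    rw [← not_lt, wf1_pos_iff, not_lt, Real.exp_log hρ0]
    exact hρ1

/-- rescaled tangential trace -/
noncomputable def kf (h : TensorField) (t : ℝ) (ω : Metric.sphere (0 : E3) 1) : ℝ :=
  Real.exp t ^ 2 * tangentialTrace h (pt t ω)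

noncomputable def kdf (h : TensorField) (t : ℝ) (ω : Metric.sphere (0 : E3) 1) : ℝ :=
  2 * Real.exp t ^ 2 * tangentialTrace h (pt t ω)
    + Real.exp t ^ 3 * rd (tangentialTrace h) (pt t ω)

noncomputable def Pf (h : TensorField) (t : ℝ) (ω : Metric.sphere (0 : E3) 1) : ℝ :=
  Real.exp t ^ 2 * radialPart h (pt t ω)

noncomputable def Df (h : TensorField) (t : ℝ) (ω : Metric.sphere (0 : E3) 1) : ℝ :=
  Real.exp t ^ 3 * fluxDivergence h (pt t ω)

noncomputable def Ef (h : TensorField) (t : ℝ) (ω : Metric.sphere (0 : E3) 1) : ℝ :=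
  Real.exp t ^ 4 * shearSq h (pt t ω)

theorem isOpen_region : IsOpen {x : E3 | ρ₁ < ‖x‖} := isOpen_lt continuous_const continuous_norm

theorem differentiableAt_h (hd : SphericalMetricData ρ₁ u g h) {x : E3} (hx : ρ₁ < ‖x‖)
    (i j : Fin 3) : DifferentiableAt ℝ (fun y => h y i j) x :=
  ((hd.contDiff_h i j).differentiableOn (by norm_num)).differentiableAt
    (isOpen_region.mem_nhds hx)

theorem hasDerivAt_kf (hd : SphericalMetricData ρ₁ u g h) (t : ℝ) (ht : ρ₁ < Real.exp t)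
    (ω : Metric.sphere (0 : E3) 1) :
    HasDerivAt (fun s => kf h s ω) (kdf h t ω) t := by
  have hx := lt_norm_pt ht ω
  have h1 := hasDerivAt_comp_pt (t := t) (ω := ω)
    (differentiableAt_tangentialTrace hd.radius_nonneg hx (differentiableAt_h hd hx))
  have h2 := ((Real.hasDerivAt_exp t).pow 2).mul h1
  refine h2.congr_deriv ?_
  simp only [kdf, Pi.pow_apply]
  push_cast
  ring

theorem dec_core (hd : SphericalMetricData ρ₁ u g h) (hdec : DominantEnergy ρ₁ g h) (t : ℝ)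
    (ht : ρ₁ < Real.exp t) (ω : Metric.sphere (0 : E3) 1) :
    Real.exp (-wf u t) * |kdf h t ω - wf1 u t * (2 * Pf h t ω + kf h t ω) - Df h t ω| ≤
      1 - wf1 u t ^ 2 - 2 * wf2 u t
        + Real.exp (-(2 * wf u t)) * (Pf h t ω * kf h t ω + kf h t ω ^ 2 / 4 - Ef h t ω / 2) := by
  have hx := lt_norm_pt ht ω
  have h1 := dec_radial hd.radius_nonneg (hasDerivAt_u hd.contDiff_u)
    (hasDerivAt_du hd.contDiff_u) hd.metric_eq hx
    (differentiableAt_h hd hx) (hd.symm_h _ hx) (hdec _ hx)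
  rw [norm_pt] at h1
  unfold kdf wf1 wf2 Pf kf Df Ef wf
  set κ := tangentialTrace h (pt t ω)
  set η := radialPart h (pt t ω)
  set R := rd (tangentialTrace h) (pt t ω)
  set F := fluxDivergence h (pt t ω)
  set s := shearSq h (pt t ω)
  set U1 := du u (Real.exp t)
  set U2 := ddu u (Real.exp t)
  have hρ := Real.exp_pos t
  have e1 : 2 * Real.exp t ^ 2 * κ + Real.exp t ^ 3 * R
      - (1 + Real.exp t * U1) * (2 * (Real.exp t ^ 2 * η) + Real.exp t ^ 2 * κ)
      - Real.exp t ^ 3 * F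
      = Real.exp t ^ 3 * (R - U1 * (2 * η + κ) - (2 * η - κ) / Real.exp t - F) := by
    field_simp
    ring
  rw [e1, abs_mul, abs_of_pos (by positivity : 0 < Real.exp t ^ 3)]
  set Q := |R - U1 * (2 * η + κ) - (2 * η - κ) / Real.exp t - F|
  have h2 := mul_le_mul_of_nonneg_left h1
    (by positivity : 0 ≤ Real.exp t ^ 2 * Real.exp (2 * u (Real.exp t)))
  set v := u (Real.exp t)
  have e2 : Real.exp (-(t + v)) * (Real.exp t ^ 3 * Q)
      = Real.exp t ^ 2 * Real.exp (2 * v) * (Real.exp (-(3 * v)) * Q) := by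
    have : Real.exp (-(t + v)) * Real.exp t = Real.exp (2 * v) * Real.exp (-(3 * v)) := by
      rw [← Real.exp_add, ← Real.exp_add]; ring_nf
    linear_combination (Real.exp t ^ 2 * Q) * this
  rw [e2]
  refine h2.trans (le_of_eq ?_)
  have e3 : Real.exp (2 * v) * Real.exp (-(2 * v)) = 1 := by
    rw [← Real.exp_add]; simp
  have e4 : Real.exp (2 * v) * Real.exp (-(4 * v)) = Real.exp (-(2 * (t + v))) * Real.exp t ^ 2 := by
    rw [← Real.exp_nat_mul, ← Real.exp_add, ← Real.exp_add]; push_cast; ring_nf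
  have e5 : Real.exp t ^ 2 * (U1 / Real.exp t) = Real.exp t * U1 := by
    field_simp
  have e6 : 4 * U1 / Real.exp t = 4 * (U1 / Real.exp t) := by ring
  rw [e6]
  linear_combination (-(Real.exp t ^ 2) * (2 * U2 + 4 * (U1 / Real.exp t) + U1 ^ 2)) * e3
    + (Real.exp t ^ 2 * (η * κ + κ ^ 2 / 4 - s / 2)) * e4 - 4 * e5

theorem continuousOn_radialPart (hd : SphericalMetricData ρ₁ u g h) :
    ContinuousOn (radialPart h) {x : E3 | ρ₁ < ‖x‖} := fun _ hx =>
  (differentiableAt_radialPart hd.radius_nonneg hx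
    (differentiableAt_h hd hx)).continuousAt.continuousWithinAt

theorem continuousOn_tangentialTrace (hd : SphericalMetricData ρ₁ u g h) :
    ContinuousOn (tangentialTrace h) {x : E3 | ρ₁ < ‖x‖} := fun _ hx =>
  (differentiableAt_tangentialTrace hd.radius_nonneg hx
    (differentiableAt_h hd hx)).continuousAt.continuousWithinAt

theorem continuousOn_comp_pt {f : E3 → ℝ} (hf : ContinuousOn f {x : E3 | ρ₁ < ‖x‖}) {T0 : ℝ}
    (hT : ρ₁ < Real.exp T0) :
    ContinuousOn (Function.uncurry fun t ω => f (pt t ω)) (Set.Ici T0 ×ˢ Set.univ) :=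
  hf.comp continuous_pt.continuousOn fun p hp =>
    lt_norm_pt (lt_of_lt_of_le hT (Real.exp_le_exp.2 hp.1)) p.2

theorem continuousOn_kf (hd : SphericalMetricData ρ₁ u g h) {T0 : ℝ}
    (hT : ρ₁ < Real.exp T0) :
    ContinuousOn (Function.uncurry (kf h)) (Set.Ici T0 ×ˢ Set.univ) := by
  have h1 := continuousOn_comp_pt (continuousOn_tangentialTrace hd) hT
  have h2 : Continuous fun p : ℝ × Metric.sphere (0 : E3) 1 => Real.exp p.1 ^ 2 := by fun_prop
  exact h2.continuousOn.mul h1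

theorem abs_nu_le (x : E3) (i : Fin 3) : |x i / ‖x‖| ≤ 1 := by
  rw [abs_div, abs_norm]
  have : |x i| ≤ ‖x‖ := by
    have := PiLp.norm_apply_le x i
    simpa using this
  exact div_le_one_of_le₀ this (norm_nonneg _)

theorem kf_bound (hd : SphericalMetricData ρ₁ u g h) :
    ∃ C, ∀ᶠ t in atTop, ∀ ω, |kf h t ω| ≤ C := by
  obtain ⟨C, R, hC⟩ := hd.decay
  refine ⟨12 * C, ?_⟩
  filter_upwards [eventually_lt_exp R] with t ht ω
  have h1 := fun i j => (hC (pt t ω) (by rw [norm_pt]; exact ht.le) i j).2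
  rw [norm_pt] at h1
  have hρ := Real.exp_pos t
  have hC0 : 0 ≤ C / Real.exp t ^ 2 := (abs_nonneg _).trans (h1 0 0)
  have h2 : |radialPart h (pt t ω)| ≤ 9 * (C / Real.exp t ^ 2) := by
    unfold radialPart
    refine (Finset.abs_sum_le_sum_abs _ _).trans ?_
    have h3 : ∀ i, |∑ j, h (pt t ω) i j * (pt t ω i / ‖pt t ω‖) * (pt t ω j / ‖pt t ω‖)|
        ≤ 3 * (C / Real.exp t ^ 2) := by
      intro i
      refine (Finset.abs_sum_le_sum_abs _ _).trans ?_
      have h4 : ∀ j, |h (pt t ω) i j * (pt t ω i / ‖pt t ω‖) * (pt t ω j / ‖pt t ω‖)|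
          ≤ C / Real.exp t ^ 2 := by
        intro j
        rw [abs_mul, abs_mul]
        have a1 := abs_nu_le (pt t ω) i
        have a2 := abs_nu_le (pt t ω) j
        calc |h (pt t ω) i j| * |pt t ω i / ‖pt t ω‖| * |pt t ω j / ‖pt t ω‖|
            ≤ C / Real.exp t ^ 2 * 1 * 1 := by
              have := h1 i j
              gcongr
          _ = C / Real.exp t ^ 2 := by ring
      refine (Finset.sum_le_sum fun j _ => h4 j).trans (le_of_eq ?_)
      simp
    refine (Finset.sum_le_sum fun i _ => h3 i).trans (le_of_eq ?_)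
    simp
    ring
  have h5 : |∑ i, h (pt t ω) i i| ≤ 3 * (C / Real.exp t ^ 2) := by
    refine (Finset.abs_sum_le_sum_abs _ _).trans ?_
    refine (Finset.sum_le_sum fun i _ => h1 i i).trans (le_of_eq ?_)
    simp
  unfold kf tangentialTrace
  rw [abs_mul, abs_of_pos (by positivity : 0 < Real.exp t ^ 2)]
  have h6 := abs_sub (∑ i, h (pt t ω) i i) (radialPart h (pt t ω))
  calc Real.exp t ^ 2 * |(∑ i, h (pt t ω) i i) - radialPart h (pt t ω)|
      ≤ Real.exp t ^ 2 * (3 * (C / Real.exp t ^ 2) + 9 * (C / Real.exp t ^ 2)) := by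
        gcongr
        linarith
    _ = 12 * C := by field_simp; ring

/-- Every nonzero point is of the form `pt t ω`. -/
theorem exists_pt {x : E3} {t : ℝ} (hx : ‖x‖ = Real.exp t) : ∃ ω, x = pt t ω := by
  have h0 := Real.exp_pos t
  refine ⟨⟨(Real.exp t)⁻¹ • x, ?_⟩, ?_⟩
  · rw [mem_sphere_zero_iff_norm, norm_smul, hx, norm_inv, Real.norm_eq_abs, Real.abs_exp]
    field_simp
  · unfold pt
    rw [smul_smul, mul_inv_cancel₀ h0.ne', one_smul]

theorem kf_mul_Df_add (t : ℝ) (ω : Metric.sphere (0 : E3) 1) :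
    kf h t ω * Df h t ω + wf1 u t * Ef h t ω = Real.exp t ^ 5 *
      (tangentialTrace h (pt t ω) * fluxDivergence h (pt t ω)
        + (1 / Real.exp t + deriv u (Real.exp t)) * shearSq h (pt t ω)) := by
  rw [wf1_eq]
  unfold kf Df Ef
  ring

/-- The criterion with extremal points of `|tr_S h|`. -/
theorem exp_le_of_extremal (hd : SphericalMetricData ρ₁ u g h) (hdec : DominantEnergy ρ₁ g h)
    (S : Set ℝ) (hS : IsUpperSet S)
    (hmin : ∀ ρ, ρ₁ < ρ → 0 < 1 / ρ + deriv u ρ → ρ ∉ S → ∃ x : E3, ‖x‖ = ρ ∧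
      (∀ y : E3, ‖y‖ = ρ → |tangentialTrace h x| ≤ |tangentialTrace h y|) ∧
      0 ≤ tangentialTrace h x * fluxDivergence h x + (1 / ρ + deriv u ρ) * shearSq h x)
    (hmax : ∀ ρ, ρ₁ < ρ → 0 < 1 / ρ + deriv u ρ → ρ ∈ S → ∃ x : E3, ‖x‖ = ρ ∧
      (∀ y : E3, ‖y‖ = ρ → |tangentialTrace h y| ≤ |tangentialTrace h x|) ∧
      0 ≤ tangentialTrace h x * fluxDivergence h x + (1 / ρ + deriv u ρ) * shearSq h x)
    {m : ℝ} (hm : IsTotalMass g m) :
    ∃ t, ρ₁ < Real.exp t ∧ Real.exp (wf u t) ≤ 2 * m ∧ ∀ s, t < s → 0 < wf1 u s := by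
  obtain ⟨C, hC⟩ := kf_bound hd
  obtain ⟨T0, hT0, hT0'⟩ := exists_wf1_nonpos hd
  have hlt : ∀ t, T0 ≤ t → ρ₁ < Real.exp t := fun t ht =>
    lt_of_lt_of_le hT0 (Real.exp_le_exp.2 ht)
  have : Nonempty (Metric.sphere (0 : E3) 1) :=
    ⟨⟨EuclideanSpace.single 0 1, by simp⟩⟩
  have key := core (X := Metric.sphere (0 : E3) 1) (k := kf h) (kd := kdf h) (P := Pf h)
    (D := Df h) (E' := Ef h) (T0 := T0)
    (fun t ht => hasDerivAt_wf hd.contDiff_u t (hlt t ht))
    (fun t ht => hasDerivAt_wf1 hd.contDiff_u t (hlt t ht)) (continuousOn_kf hd hT0)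
    (fun t ht => hasDerivAt_kf hd t (hlt t ht)) (fun t ht _ => dec_core hd hdec t (hlt t ht))
    (Real.exp ⁻¹' S)
    (fun a b hab ha => hS (Real.exp_le_exp.2 hab) ha) ?_ ?_ (tendsto_wf1 hd hm)
    (tendsto_wf_atTop hd) hC (tendsto_mass hd hm) hT0'
  · obtain ⟨t, ht, h1, h2⟩ := key
    exact ⟨t, hlt t ht, h1, h2⟩
  · intro t hTt ht1 ht
    obtain ⟨x, hx, h1, h2⟩ := hmin (Real.exp t) (hlt t hTt) ((wf1_pos_iff t).1 ht1) ht
    obtain ⟨ω, rfl⟩ := exists_pt hx
    refine ⟨ω, fun ω' => ?_, ?_⟩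
    · unfold kf
      rw [abs_mul, abs_mul]
      exact mul_le_mul_of_nonneg_left (h1 _ (norm_pt t ω')) (abs_nonneg _)
    · rw [kf_mul_Df_add]
      positivity
  · intro t hTt ht1 ht
    obtain ⟨x, hx, h1, h2⟩ := hmax (Real.exp t) (hlt t hTt) ((wf1_pos_iff t).1 ht1) ht
    obtain ⟨ω, rfl⟩ := exists_pt hx
    refine ⟨ω, fun ω' => ?_, ?_⟩
    · unfold kf
      rw [abs_mul, abs_mul]
      exact mul_le_mul_of_nonneg_left (h1 _ (norm_pt t ω')) (abs_nonneg _)
    · rw [kf_mul_Df_add]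
      positivity

/-- The conclusion in terms of areas. -/
theorem conclusion_of_exp_le (hd : SphericalMetricData ρ₁ u g h) {m : ℝ}
    (H : ∃ t, ρ₁ < Real.exp t ∧ Real.exp (wf u t) ≤ 2 * m ∧ ∀ s, t < s → 0 < wf1 u s) :
    ∃ ρ, ρ₁ < ρ ∧ (∀ s, ρ < s → 0 < deriv (fun r => r * Real.exp (u r)) s) ∧
      Real.sqrt (sphereArea u ρ / (16 * Real.pi)) ≤ m := by
  obtain ⟨t, hlt, ht, hpos⟩ := H
  refine ⟨Real.exp t, hlt, ?_, ?_⟩
  · intro s hs
    have hs0 : 0 < s := (Real.exp_pos t).trans hs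
    have h1 := hpos (Real.log s) ((Real.lt_log_iff_exp_lt hs0).2 hs)
    rw [wf1_pos_iff, Real.exp_log hs0] at h1
    have h2 := (hasDerivAt_id s).mul (hasDerivAt_u hd.contDiff_u s (hlt.trans hs)).exp
    have h3 : deriv (fun r => r * Real.exp (u r)) s
        = s * Real.exp (u s) * (1 / s + deriv u s) := by
      have := h2.deriv
      simp only [id] at this
      refine this.trans ?_
      unfold du
      field_simp
    rw [h3]
    positivity
  · have h5 : sphereArea u (Real.exp t) / (16 * Real.pi) = (Real.exp (wf u t) / 2) ^ 2 := by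
      unfold sphereArea wf
      have := Real.pi_ne_zero
      rw [Real.exp_add, two_mul, Real.exp_add]
      field_simp
      ring
    rw [h5, Real.sqrt_sq (by positivity)]
    linarith

end

end Pool.Agent.PenroseSph


end

section

/-! The divergence theorem on spheres for tangential vector fields. -/

open MeasureTheory Filter Topology Set

namespace Pool.Agent.PenroseSph

/-- Polar coordinates for an integrable function. -/
theorem integral_polar {F : E3 → ℝ} (hF : Integrable F (volume : Measure E3)) :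
    ∫ x, F x = ∫ r in Ioi (0 : ℝ), r ^ 2 * ∫ ω, F (r • (ω : E3)) ∂sph := by
  have hdim : Module.finrank ℝ E3 - 1 = 2 := by simp
  have h1 : ∫ x, F x = ∫ x : ({(0 : E3)}ᶜ : Set E3), F x.1 ∂((volume : Measure E3).comap (↑)) := by
    rw [integral_subtype_comap (measurableSet_singleton _).compl fun x ↦ F x,
      restrict_compl_singleton]
  have h2 : ∫ x : ({(0 : E3)}ᶜ : Set E3), F x.1 ∂((volume : Measure E3).comap (↑))
      = ∫ p : Metric.sphere (0 : E3) 1 × Ioi (0 : ℝ), F (p.2.1 • (p.1 : E3))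
        ∂(sph.prod (.volumeIoiPow 2)) := by
    have := (volume : Measure E3).measurePreserving_homeomorphUnitSphereProd.integral_comp
      (Homeomorph.measurableEmbedding _) (fun p => F (p.2.1 • (p.1 : E3)))
    rw [hdim] at this
    rw [← this]
    refine integral_congr_ae (Eventually.of_forall fun x => ?_)
    simp only [homeomorphUnitSphereProd_apply_snd_coe, homeomorphUnitSphereProd_apply_fst_coe]
    congr 1
    have : ‖(x : E3)‖ ≠ 0 := norm_ne_zero_iff.2 x.2
    rw [smul_smul, mul_inv_cancel₀ this, one_smul]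
  have hint : Integrable (fun p : Metric.sphere (0 : E3) 1 × Ioi (0 : ℝ) => F (p.2.1 • (p.1 : E3)))
      (sph.prod (.volumeIoiPow 2)) := by
    have := (volume : Measure E3).measurePreserving_homeomorphUnitSphereProd.integrable_comp_emb
      (Homeomorph.measurableEmbedding _) (g := fun p => F (p.2.1 • (p.1 : E3)))
    rw [hdim] at this
    rw [← this]
    have h3 : Integrable (fun x : ({(0 : E3)}ᶜ : Set E3) => F x.1)
        ((volume : Measure E3).comap (↑)) := by
      have h4 := (integrableOn_iff_comap_subtypeVal (μ := (volume : Measure E3)) (f := F)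
        (measurableSet_singleton (0 : E3)).compl).1 hF.integrableOn
      exact h4
    refine h3.congr (Eventually.of_forall fun x => ?_)
    simp only [Function.comp_apply, homeomorphUnitSphereProd_apply_snd_coe,
      homeomorphUnitSphereProd_apply_fst_coe]
    congr 1
    have : ‖(x : E3)‖ ≠ 0 := norm_ne_zero_iff.2 x.2
    rw [smul_smul, mul_inv_cancel₀ this, one_smul]
  rw [h1, h2, integral_prod_symm _ hint]
  simp only [Measure.volumeIoiPow, ENNReal.ofReal]
  rw [integral_withDensity_eq_integral_smul,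
    integral_subtype_comap measurableSet_Ioi
      fun a ↦ Real.toNNReal (a ^ 2) • ∫ ω, F (a • (ω : E3)) ∂sph,
    setIntegral_congr_fun measurableSet_Ioi fun x hx ↦ ?_]
  · rw [NNReal.smul_def, Real.coe_toNNReal _ (pow_nonneg (le_of_lt hx) _), smul_eq_mul]
  · exact (measurable_subtype_coe.pow_const _).real_toNNReal

section

variable {ρ₁ : ℝ}

/-- Continuity of spherical integrals. -/
theorem continuousOn_sphere_integral {G : E3 → ℝ} (hG : ContinuousOn G {x : E3 | ρ₁ < ‖x‖})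
    (h0 : 0 ≤ ρ₁) : ContinuousOn (fun r : ℝ => ∫ ω, G (r • (ω : E3)) ∂sph) (Ioi ρ₁) := by
  rw [continuousOn_iff_continuous_domRestrict]
  have h1 : Continuous (Function.uncurry
      fun (r : Ioi ρ₁) (ω : Metric.sphere (0 : E3) 1) => G (r.1 • (ω : E3))) := by
    refine hG.comp_continuous (f := fun p : Ioi ρ₁ × Metric.sphere (0 : E3) 1 =>
      p.1.1 • (p.2 : E3)) (by fun_prop) ?_
    rintro ⟨r, ω⟩
    have hr : ρ₁ < r.1 := r.2
    simp only [mem_ofPred_eq, norm_smul, norm_eq_of_mem_sphere ω, mul_one]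
    rwa [Real.norm_eq_abs, abs_of_pos (lt_of_le_of_lt h0 hr)]
  have : LocallyCompactSpace (Ioi ρ₁) := isOpen_Ioi.isOpenEmbedding_subtypeVal.locallyCompactSpace
  have h2 := continuous_parametric_integral_of_continuous (μ := sph) h1
    (isCompact_univ (X := Metric.sphere (0 : E3) 1))
  simp only [Measure.restrict_univ] at h2
  exact h2

variable {χ : ℝ → ℝ}

theorem isCompact_shell (hc : HasCompactSupport χ) : IsCompact {x : E3 | ‖x‖ ∈ tsupport χ} := by
  obtain ⟨R, hR⟩ := hc.isBounded.subset_closedBall (0 : ℝ)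
  refine Metric.isCompact_of_isClosed_isBounded ((isClosed_tsupport χ).preimage continuous_norm)
    ((Metric.isBounded_closedBall (x := (0 : E3)) (r := R)).subset ?_)
  intro x hx
  have := hR hx
  simp only [Metric.mem_closedBall, dist_zero_right, norm_norm] at this ⊢
  exact this

theorem integrable_shell (hc : HasCompactSupport χ) (hs : tsupport χ ⊆ Ioi ρ₁)
    {φ ψ : E3 → ℝ} (hφ : ContinuousOn φ {x : E3 | ρ₁ < ‖x‖})
    (hφs : ∀ x, ‖x‖ ∉ tsupport χ → φ x = 0) (hψ : ContinuousOn ψ {x : E3 | ρ₁ < ‖x‖}) :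
    Integrable (fun x => φ x * ψ x) (volume : Measure E3) := by
  have hK := isCompact_shell hc
  have hKs : {x : E3 | ‖x‖ ∈ tsupport χ} ⊆ {x : E3 | ρ₁ < ‖x‖} := fun x hx => hs hx
  rw [← integrableOn_iff_integrable_of_support_subset (s := {x : E3 | ‖x‖ ∈ tsupport χ})]
  · exact ((hφ.mono hKs).mul (hψ.mono hKs)).integrableOn_compact hK
  · intro x hx
    by_contra hxs
    exact hx (by simp [hφs x hxs])

theorem hasFDerivAt_comp_norm (hχ : ContDiff ℝ 1 χ) {x : E3} (hx : x ≠ 0) :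
    HasFDerivAt (fun y : E3 => χ ‖y‖) (deriv χ ‖x‖ • (‖x‖⁻¹ • (innerSL ℝ x))) x :=
  ((hχ.differentiable (by norm_num)).differentiableAt.hasDerivAt).comp_hasFDerivAt x
    (hasFDerivAt_norm hx)

theorem eventually_comp_norm_zero {x : E3} (hx : ‖x‖ ∉ tsupport χ) :
    (fun y : E3 => χ ‖y‖) =ᶠ[𝓝 x] fun _ => 0 := by
  have : ∀ᶠ y in 𝓝 x, ‖y‖ ∈ (tsupport χ)ᶜ :=
    continuous_norm.continuousAt.eventually ((isClosed_tsupport χ).isOpen_compl.mem_nhds hx)
  filter_upwards [this] with y hy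
  exact image_eq_zero_of_notMem_tsupport hy

/-- The weak form of the divergence theorem. -/
theorem integral_mul_div_eq_zero (h0 : 0 ≤ ρ₁) {b : Fin 3 → E3 → ℝ}
    (hb : ∀ i, ContDiffOn ℝ 1 (b i) {x : E3 | ρ₁ < ‖x‖})
    (htan : ∀ x : E3, ρ₁ < ‖x‖ → ∑ i, (x i / ‖x‖) * b i x = 0)
    (hχ : ContDiff ℝ 1 χ) (hc : HasCompactSupport χ) (hs : tsupport χ ⊆ Ioi ρ₁) :
    ∫ x : E3, χ ‖x‖ * ∑ i, pd i (b i) x = 0 := by
  have hopen : IsOpen {x : E3 | ρ₁ < ‖x‖} := isOpen_region
  have hχn : Continuous fun x : E3 => χ ‖x‖ := hχ.continuous.comp continuous_norm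
  have hsupp : ∀ x : E3, ‖x‖ ∉ tsupport χ → χ ‖x‖ = 0 := fun x hx =>
    image_eq_zero_of_notMem_tsupport hx
  have hdb : ∀ i (x : E3), ρ₁ < ‖x‖ → DifferentiableAt ℝ (b i) x := fun i x hx =>
    ((hb i).differentiableOn (by norm_num)).differentiableAt (hopen.mem_nhds hx)
  have hcb : ∀ i, ContinuousOn (fun x => fderiv ℝ (b i) x (EuclideanSpace.single i 1))
      {x : E3 | ρ₁ < ‖x‖} := fun i =>
    ((hb i).continuousOn_fderiv_of_isOpen hopen le_rfl).clm_apply continuousOn_const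
  have hpf : ∀ i (x : E3), ρ₁ < ‖x‖ →
      fderiv ℝ (fun y : E3 => χ ‖y‖) x (EuclideanSpace.single i 1)
        = deriv χ ‖x‖ * (x i / ‖x‖) := by
    intro i x hx
    rw [(hasFDerivAt_comp_norm hχ (ne_zero_of_lt h0 hx)).fderiv]
    simp [EuclideanSpace.inner_single_right]
    left
    ring
  have hpf0 : ∀ i (x : E3), ‖x‖ ∉ tsupport χ →
      fderiv ℝ (fun y : E3 => χ ‖y‖) x (EuclideanSpace.single i 1) = 0 := by
    intro i x hx
    rw [(eventually_comp_norm_zero hx).fderiv_eq]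
    simp
  have hcf : ∀ i, ContinuousOn
      (fun x => fderiv ℝ (fun y : E3 => χ ‖y‖) x (EuclideanSpace.single i 1))
      {x : E3 | ρ₁ < ‖x‖} := by
    intro i
    have h1 : ContinuousOn (fun x : E3 => deriv χ ‖x‖ * (x i / ‖x‖)) {x : E3 | ρ₁ < ‖x‖} := by
      have h2 : Continuous fun x : E3 => deriv χ ‖x‖ :=
        (hχ.continuous_deriv le_rfl).comp continuous_norm
      refine h2.continuousOn.mul (ContinuousOn.div (by fun_prop) continuous_norm.continuousOn ?_)
      intro x hx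
      exact (lt_of_le_of_lt h0 hx).ne'
    exact h1.congr fun x hx => hpf i x hx
  have hdf : ∀ x : E3, DifferentiableAt ℝ (fun y : E3 => χ ‖y‖) x := by
    intro x
    by_cases hx : ‖x‖ ∈ tsupport χ
    · exact (hasFDerivAt_comp_norm hχ (ne_zero_of_lt h0 (hs hx))).differentiableAt
    · exact (differentiableAt_const (0 : ℝ)).congr_of_eventuallyEq (eventually_comp_norm_zero hx)
  have hts : ∀ x : E3, x ∈ tsupport (fun y : E3 => χ ‖y‖) → ‖x‖ ∈ tsupport χ := by
    intro x hx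
    by_contra hcon
    exact (notMem_tsupport_iff_eventuallyEq.2 (eventually_comp_norm_zero hcon)) hx
  have key : ∀ i, ∫ x : E3, χ ‖x‖ * pd i (b i) x
      = - ∫ x : E3, fderiv ℝ (fun y : E3 => χ ‖y‖) x (EuclideanSpace.single i 1) * b i x := by
    intro i
    refine integral_mul_fderiv_eq_neg_fderiv_mul_of_integrable
      (f := fun y : E3 => χ ‖y‖) (g := b i) (v := EuclideanSpace.single i 1) ?_ ?_ ?_ ?_ ?_
    · exact integrable_shell hc hs (hcf i) (fun x hx => hpf0 i x hx) (hb i).continuousOn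
    · exact integrable_shell hc hs hχn.continuousOn hsupp (hcb i)
    · exact integrable_shell hc hs hχn.continuousOn hsupp (hb i).continuousOn
    · exact fun x _ => hdf x
    · exact fun x hx => hdb i x (hs (hts x hx))
  have hint : ∀ i, Integrable (fun x : E3 => χ ‖x‖ * pd i (b i) x) (volume : Measure E3) :=
    fun i => integrable_shell hc hs hχn.continuousOn hsupp (hcb i)
  have hint' : ∀ i, Integrable (fun x : E3 =>
      fderiv ℝ (fun y : E3 => χ ‖y‖) x (EuclideanSpace.single i 1) * b i x)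
      (volume : Measure E3) :=
    fun i => integrable_shell hc hs (hcf i) (fun x hx => hpf0 i x hx) (hb i).continuousOn
  have e1 : ∫ x : E3, χ ‖x‖ * ∑ i, pd i (b i) x = ∑ i, ∫ x : E3, χ ‖x‖ * pd i (b i) x := by
    rw [← integral_finsetSum _ fun i _ => hint i]
    simp only [Finset.mul_sum]
  rw [e1, Finset.sum_congr rfl fun i _ => key i, Finset.sum_neg_distrib,
    ← integral_finsetSum _ fun i _ => hint' i]
  rw [neg_eq_zero]
  rw [integral_eq_zero_of_ae]
  refine Eventually.of_forall fun x => ?_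
  simp only [Pi.zero_apply]
  by_cases hx : ‖x‖ ∈ tsupport χ
  · have hx' : ρ₁ < ‖x‖ := hs hx
    have h1 : ∀ i, fderiv ℝ (fun y : E3 => χ ‖y‖) x (EuclideanSpace.single i 1) * b i x
        = deriv χ ‖x‖ * ((x i / ‖x‖) * b i x) := fun i => by rw [hpf i x hx']; ring
    rw [Finset.sum_congr rfl fun i _ => h1 i, ← Finset.mul_sum, htan x hx', mul_zero]
  · refine Finset.sum_eq_zero fun i _ => ?_
    rw [hpf0 i x hx, zero_mul]

/-- The divergence theorem on spheres for tangential fields. -/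
theorem integral_sphere_div_eq_zero (h0 : 0 ≤ ρ₁) {b : Fin 3 → E3 → ℝ}
    (hb : ∀ i, ContDiffOn ℝ 1 (b i) {x : E3 | ρ₁ < ‖x‖})
    (htan : ∀ x : E3, ρ₁ < ‖x‖ → ∑ i, (x i / ‖x‖) * b i x = 0) {ρ : ℝ} (hρ : ρ₁ < ρ) :
    ∫ ω, (∑ i, pd i (b i) (ρ • (ω : E3))) ∂sph = 0 := by
  have hopen : IsOpen {x : E3 | ρ₁ < ‖x‖} := isOpen_region
  have hG : ContinuousOn (fun x => ∑ i, pd i (b i) x) {x : E3 | ρ₁ < ‖x‖} := by
    refine continuousOn_finsetSum _ fun i _ => ?_
    exact ((hb i).continuousOn_fderiv_of_isOpen hopen le_rfl).clm_apply continuousOn_const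
  have hcont := continuousOn_sphere_integral hG h0
  set Gh : ℝ → ℝ := fun r => ∫ ω, (∑ i, pd i (b i) (r • (ω : E3))) ∂sph with hGh
  have hcont' : ContinuousOn (fun r : ℝ => r ^ 2 * Gh r) (Ioi ρ₁) :=
    (by fun_prop : Continuous fun r : ℝ => r ^ 2).continuousOn.mul hcont
  have hae := isOpen_Ioi.ae_eq_zero_of_integral_contDiff_smul_eq_zero (μ := volume) (U := Ioi ρ₁)
    (f := fun r : ℝ => r ^ 2 * Gh r) (hcont'.locallyIntegrableOn measurableSet_Ioi) ?_
  · have h1 : (fun r : ℝ => r ^ 2 * Gh r) =ᵐ[volume.restrict (Ioi ρ₁)] fun _ => 0 :=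
      (ae_restrict_iff' measurableSet_Ioi).2 hae
    have h2 := Measure.eqOn_open_of_ae_eq h1 isOpen_Ioi hcont' continuousOn_const
    have h3 := h2 hρ
    have hρ0 : ρ ≠ 0 := (lt_of_le_of_lt h0 hρ).ne'
    simp only [mul_eq_zero, pow_eq_zero_iff, ne_eq, OfNat.ofNat_ne_zero, not_false_eq_true,
      hρ0, false_or] at h3
    exact h3
  · intro χ hχ hc hs
    have hχ1 : ContDiff ℝ 1 χ := hχ.of_le (by exact_mod_cast le_top)
    have h1 := integral_mul_div_eq_zero h0 hb htan hχ1 hc hs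
    rw [integral_polar] at h1
    · have h2 : ∫ r in Ioi (0 : ℝ), r ^ 2 * ∫ ω : Metric.sphere (0 : E3) 1,
          χ ‖r • (ω : E3)‖ * ∑ i, pd i (b i) (r • (ω : E3)) ∂sph
          = ∫ r in Ioi (0 : ℝ), χ r • (r ^ 2 * Gh r) := by
        refine setIntegral_congr_fun measurableSet_Ioi fun r hr => ?_
        have hr0 : 0 < r := hr
        simp only [norm_smul, norm_eq_of_mem_sphere, mul_one, Real.norm_eq_abs, abs_of_pos hr0]
        rw [integral_const_mul, smul_eq_mul, hGh]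
        ring
      rw [h2] at h1
      rw [← h1, ← integral_indicator measurableSet_Ioi]
      refine integral_congr_ae (Eventually.of_forall fun r => ?_)
      simp only [indicator]
      split_ifs with hr
      · rfl
      · have : χ r = 0 := by
          refine image_eq_zero_of_notMem_tsupport fun hmem => hr ?_
          exact lt_of_le_of_lt h0 (hs hmem)
        rw [this, zero_smul]
    · exact integrable_shell hc hs (hχ1.continuous.comp continuous_norm).continuousOn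
        (fun x hx => image_eq_zero_of_notMem_tsupport hx) hG

end

end Pool.Agent.PenroseSph


end

section

/-!
# MAIN2: the main theorem from EPS, LIM and LIMK2
-/

set_option autoImplicit false

open MeasureTheory Filter Topology
open scoped ContDiff ENNReal

namespace Pool.Agent.PFlow

open Pool.Agent.PenroseSph

theorem MAIN2 (hEPS : Stmt_EPS) (hLIM : Stmt_LIM) (hLIMK2 : Stmt_LIMK2) : Stmt_MAIN2 := by
  intro g h m hT hD hP hF hm
  have hk : Tendsto (fun l : ℝ => ∫ x in cAnn (l / 2) l, msz (h x) / l) atTop (𝓝 0) := by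
    rcases hF with hF | hF
    · exact hLIMK2 g h hT hD hP hF
    · exact hF
  obtain ⟨V, hV, hE⟩ := hEPS g h m hT hD hP hk hm
  exact hLIM g m V hV hE

end Pool.Agent.PFlow


end
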