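import Mathlib
import Pool.Agent.PFlow.StmtsM
import Pool.Agent.PenroseM.C05
import Pool.Agent.PenroseM.C06
import Pool.Agent.PenroseM.C12

/-! Parts: PFlow.P.Exi, PFlow.G.SOLVE, PFlow.M_BO, PFlow.M_IB -/

section

/-!
# Block P: existence for the regularised equation by monotone iteration (EXI)
-/

open MeasureTheory Filter Topology Set
open scoped ContDiff RealInnerProductSpace

namespace Pool.Agent.PFlow.PB

open Pool.Agent.PenroseSph Pool.Agent.PFlow

namespace MEXI

theorem int_lim (F : ℕ → E3 → ℝ) (F0 : E3 → ℝ) (a : ℕ → E3 → ℝ) (b : E3 → ℝ)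
    (hF : ∀ k, Integrable (F k)) (hF0 : Integrable F0) (hb : Integrable fun x => b x ^ 2)
    (ha : ∀ k, Integrable fun x => a k x ^ 2) (hle : ∀ k x, |F k x - F0 x| ≤ a k x * b x)
    (hlim : Tendsto (fun k => ∫ x, a k x ^ 2) atTop (𝓝 0)) :
    Tendsto (fun k => ∫ x, F k x) atTop (𝓝 (∫ x, F0 x)) := by
  rw [Metric.tendsto_atTop]
  intro ε hε
  set I : ℝ := ∫ x, b x ^ 2 with hI
  have hI0 : 0 ≤ I := integral_nonneg fun x => sq_nonneg _
  set δ : ℝ := ε / (I + 1) with hδ
  have hδ0 : 0 < δ := by positivity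
  have hδI : δ * (I + 1) = ε := by
    rw [hδ]
    field_simp
  rw [Metric.tendsto_atTop] at hlim
  obtain ⟨N, hN⟩ := hlim (δ * ε) (by positivity)
  refine ⟨N, fun k hk => ?_⟩
  have h1 := hN k hk
  rw [Real.dist_eq, sub_zero] at h1
  have h1' := (le_abs_self _).trans_lt h1
  rw [Real.dist_eq, ← integral_sub (hF k) hF0]
  have h2 : ∀ x, |F k x - F0 x| ≤ a k x ^ 2 / (2 * δ) + δ / 2 * b x ^ 2 := by
    intro x
    refine (hle k x).trans ?_
    have h3 : 0 ≤ (a k x - δ * b x) ^ 2 / (2 * δ) := by positivity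
    have h4 : (a k x - δ * b x) ^ 2 / (2 * δ) =
        a k x ^ 2 / (2 * δ) + δ / 2 * b x ^ 2 - a k x * b x := by
      field_simp
      ring
    linarith
  have h5 : |∫ x, (F k x - F0 x)| ≤ ∫ x, |F k x - F0 x| := abs_integral_le_integral_abs
  have h6 : ∫ x, |F k x - F0 x| ≤ ∫ x, (a k x ^ 2 / (2 * δ) + δ / 2 * b x ^ 2) := by
    refine integral_mono ((hF k).sub hF0).abs ?_ h2
    exact ((ha k).div_const _).add (hb.const_mul _)
  have h7 : ∫ x, (a k x ^ 2 / (2 * δ) + δ / 2 * b x ^ 2) =
      (∫ x, a k x ^ 2) / (2 * δ) + δ / 2 * I := by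
    rw [integral_add ((ha k).div_const _) (hb.const_mul _), integral_div, integral_const_mul]
  have h8 : (∫ x, a k x ^ 2) / (2 * δ) < ε / 2 := by
    rw [div_lt_iff₀ (by positivity)]
    calc ∫ x, a k x ^ 2 < δ * ε := h1'
      _ = ε / 2 * (2 * δ) := by ring
  have h9 : δ / 2 * I < ε / 2 := by
    have : δ * I < ε := by
      calc δ * I < δ * (I + 1) := by
            apply mul_lt_mul_of_pos_left _ hδ0
            linarith
        _ = ε := hδI
    linarith
  linarith

theorem isq {f : E3 → ℝ} (hf : MemLp f 2) : Integrable fun x => f x ^ 2 := hf.integrable_sq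

theorem isqv {G : E3 → E3} (hG : MemLp G 2) : Integrable fun x => ‖G x‖ ^ 2 :=
  hG.norm.integrable_sq

theorem int_inner {F G : E3 → E3} (hF : MemLp F 2) (hG : MemLp G 2) :
    Integrable fun x => ⟪F x, G x⟫ := by
  refine (hF.norm.integrable_mul hG.norm).mono'
    (hF.aestronglyMeasurable.inner hG.aestronglyMeasurable) (Eventually.of_forall fun x => ?_)
  exact norm_inner_le_norm (F x) (G x)

theorem sq_nn (f : E3 → ℝ) : 0 ≤ sq f := integral_nonneg fun x => sq_nonneg _

theorem sqv_nn (G : E3 → E3) : 0 ≤ sqv G := integral_nonneg fun _ => by positivity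

theorem sq_comm (f g : E3 → ℝ) : sq (fun x => f x - g x) = sq (fun x => g x - f x) := by
  unfold sq
  refine integral_congr_ae (Eventually.of_forall fun x => ?_)
  simp only
  ring

theorem sq_sub_le {f g : E3 → ℝ} (hf : MemLp f 2) (hg : MemLp g 2) (h0 : ∀ᵐ x, 0 ≤ g x)
    (h1 : ∀ᵐ x, g x ≤ f x) : sq (fun x => f x - g x) ≤ sq f - sq g := by
  unfold sq
  rw [← integral_sub (isq hf) (isq hg)]
  refine integral_mono_ae (isq (hf.sub hg)) ((isq hf).sub (isq hg)) ?_
  filter_upwards [h0, h1] with x hx0 hx1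
  change (f x - g x) ^ 2 ≤ f x ^ 2 - g x ^ 2
  nlinarith

section coef

variable {A : E3 → E3 → E3} {B : E3 → E3 → ℝ} {c L r : ℝ} {Θ θ : E3 → ℝ} {T t₀ : ℝ}

theorem L_nn (hC : PCoef A B c L r) : 0 ≤ L := hC.c_pos.le.trans hC.c_le

theorem memA (hC : PCoef A B c L r) {G : E3 → E3} (hG : MemLp G 2) :
    MemLp (fun x => A x (G x)) 2 := by
  refine hG.of_le_mul (c := L) ?_ (Eventually.of_forall fun x => ?_)
  · exact hC.smoothA.continuous.comp_aestronglyMeasurable
      (aestronglyMeasurable_id.prodMk hG.aestronglyMeasurable)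
  · have := hC.lipA x (G x) 0
    rw [hC.A_zero, sub_zero, sub_zero] at this
    exact this

theorem memB (hC : PCoef A B c L r) {G : E3 → E3} (hG : MemLp G 2) :
    MemLp (fun x => B x (G x)) 2 := by
  refine hG.of_le_mul (c := L) ?_ (Eventually.of_forall fun x => ?_)
  · exact hC.smoothB.continuous.comp_aestronglyMeasurable
      (aestronglyMeasurable_id.prodMk hG.aestronglyMeasurable)
  · have := hC.lipB x (G x) 0
    rw [hC.B_zero, sub_zero, sub_zero] at this
    exact this

theorem absΘ (hP : Pen Θ θ T t₀ r) (x : E3) : |Θ x| ≤ T := by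
  rw [abs_of_nonneg ((hP.nonneg x).trans (hP.le x))]
  exact hP.bdd x

theorem memΘ (hP : Pen Θ θ T t₀ r) {u : E3 → ℝ} (hu : MemLp u 2) :
    MemLp (fun x => Θ x * u x) 2 := by
  refine hu.of_le_mul (c := T) ?_ (Eventually.of_forall fun x => ?_)
  · exact hP.contΘ.aestronglyMeasurable.mul hu.aestronglyMeasurable
  · rw [norm_mul, Real.norm_eq_abs (Θ x)]
    exact mul_le_mul_of_nonneg_right (absΘ hP x) (norm_nonneg _)

theorem memθ (hP : Pen Θ θ T t₀ r) : MemLp θ 2 := by
  refine hP.contθ.memLp_of_hasCompactSupport ?_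
  refine HasCompactSupport.of_support_subset_isCompact (isCompact_closedBall (0 : E3) r) ?_
  intro x hx
  rw [mem_closedBall_zero_iff]
  by_contra hcon
  exact hx (hP.outθ x (not_le.mp hcon).le)

end coef

end MEXI

open MEXI in
/-- E6 (EXI): existence for the regularised equation. -/
theorem exi_thm (h1 : API1) (hs : STEP) (ho : ORDER) (hl : LIPS) (hb : BDD) : EXI := by
  intro A B c L r Θ θ T t₀ hC hP
  set m : ℝ := L ^ 2 / c + 1 with hm
  have hm' : L ^ 2 / c + 1 ≤ m := le_rfl
  have hc0 := hC.c_pos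
  have hm0 : 0 ≤ m := by positivity
  have hS : ∀ v : {v : E3 → ℝ // MemLp v 2}, ∃ (u : E3 → ℝ) (G : E3 → E3),
      StepEq A B Θ θ m v.1 u G := fun v => hs A B c L r Θ θ T t₀ hC hP m hm' v.1 v.2
  choose S GS hSG using hS
  let w : ℕ → {v : E3 → ℝ // MemLp v 2} := fun k =>
    Nat.rec ⟨0, MemLp.zero⟩ (fun _ v => ⟨S v, (hSG v).1.memf⟩) k
  have w0 : (w 0).1 = 0 := rfl
  have ws : ∀ k, (w (k + 1)).1 = S (w k) := fun _ => rfl
  have weq : ∀ k, StepEq A B Θ θ m (w k).1 (w (k + 1)).1 (GS (w k)) := fun k => hSG (w k)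
  -- order
  have hnn : ∀ k, ∀ᵐ x, 0 ≤ (w k).1 x := by
    intro k
    induction k with
    | zero => exact Eventually.of_forall fun x => by rw [w0]; exact le_rfl
    | succ k ih => exact ho.nonneg A B c L r Θ θ T t₀ hC hP m hm' _ _ _ (w k).2 (weq k) ih
  have hle1 : ∀ k, ∀ᵐ x, (w k).1 x ≤ 1 := by
    intro k
    induction k with
    | zero => exact Eventually.of_forall fun x => by rw [w0]; exact zero_le_one
    | succ k ih => exact ho.le_one A B c L r Θ θ T t₀ hC hP m hm' _ _ _ (w k).2 (weq k) ih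
  have hmon : ∀ k, ∀ᵐ x, (w k).1 x ≤ (w (k + 1)).1 x := by
    intro k
    induction k with
    | zero =>
      filter_upwards [hnn 1] with x hx
      rw [w0]
      exact hx
    | succ k ih =>
      exact ho.mono A B c L r Θ θ T t₀ hC hP m hm' _ _ _ _ _ _ (w k).2 (w (k + 1)).2
        (weq k) (weq (k + 1)) ih
  have hmono : ∀ j k, k ≤ j → ∀ᵐ x, (w k).1 x ≤ (w j).1 x := by
    intro j k hkj
    induction j, hkj using Nat.le_induction with
    | base => exact Eventually.of_forall fun x => le_rfl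
    | succ j _ ih =>
      filter_upwards [ih, hmon j] with x hx hx'
      exact hx.trans hx'
  have hsub : ∀ j k, k ≤ j → sq (fun x => (w j).1 x - (w k).1 x) ≤ sq (w j).1 - sq (w k).1 :=
    fun j k hkj => sq_sub_le (w j).2 (w k).2 (hnn k) (hmono j k hkj)
  obtain ⟨C, hCb⟩ := hb A B c L r Θ θ T t₀ hC hP
  have hbd : ∀ k, sq (w (k + 1)).1 ≤ C := fun k =>
    hCb m hm0 _ _ _ (w k).2 (weq k) (hmon k) (hnn (k + 1)) (hle1 (k + 1))
  have hsm : Monotone fun k => sq (w k).1 := by
    refine monotone_nat_of_le_succ fun k => ?_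
    have := hsub (k + 1) k (Nat.le_succ k)
    have h2 := sq_nn (fun x => (w (k + 1)).1 x - (w k).1 x)
    linarith
  have hbdd : BddAbove (Set.range fun k => sq (w k).1) := by
    refine ⟨C, ?_⟩
    rintro _ ⟨k, rfl⟩
    exact (hsm (Nat.le_succ k)).trans (hbd k)
  have hconv := tendsto_atTop_ciSup hsm hbdd
  have hcau : ∀ ε > 0, ∃ N, ∀ i ≥ N, ∀ j ≥ N, sq (fun x => (w i).1 x - (w j).1 x) < ε := by
    intro ε hε
    obtain ⟨N, hN⟩ := Metric.cauchySeq_iff.mp hconv.cauchySeq ε hε
    refine ⟨N, fun i hi j hj => ?_⟩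
    have h3 := hN i hi j hj
    rw [Real.dist_eq] at h3
    rcases le_total j i with hij | hij
    · exact (hsub i j hij).trans_lt ((le_abs_self _).trans_lt h3)
    · rw [sq_comm]
      rw [abs_sub_comm] at h3
      exact (hsub j i hij).trans_lt ((le_abs_self _).trans_lt h3)
  obtain ⟨u, hu, hul⟩ := h1.complete (fun k => (w k).1) (fun k => (w k).2) hcau
  -- gradients
  obtain ⟨C', hC'⟩ := hl A B c L r Θ θ T t₀ hC hP m hm'
  have hgr : ∀ i j, sqv (fun x => GS (w i) x - GS (w j) x) ≤
      (|C'| + 1) * sq (fun x => (w i).1 x - (w j).1 x) := by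
    intro i j
    have h3 := hC' _ _ _ _ _ _ (w i).2 (w j).2 (weq i) (weq j)
    have h4 := sq_nn (fun x => (w (i + 1)).1 x - (w (j + 1)).1 x)
    have h5 := sq_nn (fun x => (w i).1 x - (w j).1 x)
    have h6 : C' * sq (fun x => (w i).1 x - (w j).1 x) ≤
        (|C'| + 1) * sq (fun x => (w i).1 x - (w j).1 x) :=
      mul_le_mul_of_nonneg_right ((le_abs_self C').trans (by linarith)) h5
    linarith
  have hGm : ∀ k, MemLp (GS (w k)) 2 := fun k => (weq k).1.memG
  obtain ⟨G, hG, hGl⟩ := h1.completev (fun k => GS (w k)) hGm (by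
    intro ε hε
    have hpos : 0 < |C'| + 1 := by positivity
    obtain ⟨N, hN⟩ := hcau (ε / (|C'| + 1)) (by positivity)
    refine ⟨N, fun i hi j hj => (hgr i j).trans_lt ?_⟩
    have := hN i hi j hj
    rw [lt_div_iff₀ hpos] at this
    linarith)
  have hul1 : Tendsto (fun k => sq (fun x => (w (k + 1)).1 x - u x)) atTop (𝓝 0) :=
    (tendsto_add_atTop_iff_nat 1).mpr hul
  have hH1 : H1 u G := h1.closed u G (fun k => (w (k + 1)).1) (fun k => GS (w k))
    (fun k => (weq k).1) hu hG hul1 hGl
  have hstep : Tendsto (fun k => sq (fun x => (w (k + 1)).1 x - (w k).1 x)) atTop (𝓝 0) := by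
    rw [Metric.tendsto_atTop]
    intro ε hε
    obtain ⟨N, hN⟩ := hcau ε hε
    refine ⟨N, fun k hk => ?_⟩
    rw [Real.dist_eq, sub_zero, abs_of_nonneg (sq_nn _)]
    exact hN (k + 1) (hk.trans (Nat.le_succ k)) k hk
  refine ⟨u, G, ⟨hH1, ?_⟩, ?_⟩
  · intro φ Φ hφ
    have L0 := L_nn hC
    -- the left-hand side
    have hleft : Tendsto (fun k => ∫ x, ⟪A x (GS (w k) x), Φ x⟫) atTop
        (𝓝 (∫ x, ⟪A x (G x), Φ x⟫)) := by
      refine int_lim _ _ (fun k x => L * ‖GS (w k) x - G x‖) (fun x => ‖Φ x‖) ?_ ?_ ?_ ?_ ?_ ?_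
      · exact fun k => int_inner (memA hC (hGm k)) hφ.memG
      · exact int_inner (memA hC hG) hφ.memG
      · exact isqv hφ.memG
      · exact fun k => isq (((hGm k).sub hG).norm.const_mul L)
      · intro k x
        rw [← inner_sub_left]
        refine (abs_real_inner_le_norm _ _).trans ?_
        exact mul_le_mul_of_nonneg_right (hC.lipA x _ _) (norm_nonneg _)
      · have h7 : ∀ k, ∫ x, (L * ‖GS (w k) x - G x‖) ^ 2 =
            L ^ 2 * sqv (fun x => GS (w k) x - G x) := by
          intro k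
          unfold sqv
          rw [← integral_const_mul]
          refine integral_congr_ae (Eventually.of_forall fun x => ?_)
          simp only
          ring
        simp only [h7]
        have := hGl.const_mul (L ^ 2)
        rwa [mul_zero] at this
    have hright : Tendsto (fun k => ∫ x, (B x (GS (w k) x) - Θ x * (w (k + 1)).1 x + θ x
          - m * ((w (k + 1)).1 x - (w k).1 x)) * φ x) atTop
        (𝓝 (∫ x, (B x (G x) - Θ x * u x + θ x) * φ x)) := by
      have mR : ∀ k, MemLp (fun x => B x (GS (w k) x) - Θ x * (w (k + 1)).1 x + θ x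
          - m * ((w (k + 1)).1 x - (w k).1 x)) 2 := fun k =>
        (((memB hC (hGm k)).sub (memΘ hP (w (k + 1)).2)).add (memθ hP)).sub
          (((w (k + 1)).2.sub (w k).2).const_mul m)
      have mR0 : MemLp (fun x => B x (G x) - Θ x * u x + θ x) 2 :=
        ((memB hC hG).sub (memΘ hP hu)).add (memθ hP)
      have ma : ∀ k, MemLp (fun x => L * ‖GS (w k) x - G x‖ + T * |(w (k + 1)).1 x - u x| +
          m * |(w (k + 1)).1 x - (w k).1 x|) 2 := fun k =>
        ((((hGm k).sub hG).norm.const_mul L).add (((w (k + 1)).2.sub hu).norm.const_mul T)).add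
          (((w (k + 1)).2.sub (w k).2).norm.const_mul m)
      have T0 : 0 ≤ T := (abs_nonneg _).trans (absΘ hP 0)
      refine int_lim _ _ (fun k x => L * ‖GS (w k) x - G x‖ + T * |(w (k + 1)).1 x - u x| +
          m * |(w (k + 1)).1 x - (w k).1 x|) (fun x => |φ x|) ?_ ?_ ?_ ?_ ?_ ?_
      · exact fun k => (mR k).integrable_mul hφ.memf
      · exact mR0.integrable_mul hφ.memf
      · exact isq hφ.memf.norm
      · exact fun k => isq (ma k)
      · intro k x
        rw [← sub_mul, abs_mul]
        refine mul_le_mul_of_nonneg_right ?_ (abs_nonneg _)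
        have e : B x (GS (w k) x) - Θ x * (w (k + 1)).1 x + θ x
            - m * ((w (k + 1)).1 x - (w k).1 x) - (B x (G x) - Θ x * u x + θ x) =
            (B x (GS (w k) x) - B x (G x)) - Θ x * ((w (k + 1)).1 x - u x) -
              m * ((w (k + 1)).1 x - (w k).1 x) := by ring
        rw [e]
        refine (abs_sub _ _).trans (add_le_add ((abs_sub _ _).trans (add_le_add ?_ ?_)) ?_)
        · exact hC.lipB x _ _
        · rw [abs_mul]
          exact mul_le_mul_of_nonneg_right (absΘ hP x) (abs_nonneg _)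
        · rw [abs_mul, abs_of_nonneg hm0]
      · have hup : ∀ k, ∫ x, (L * ‖GS (w k) x - G x‖ + T * |(w (k + 1)).1 x - u x| +
            m * |(w (k + 1)).1 x - (w k).1 x|) ^ 2 ≤
            3 * L ^ 2 * sqv (fun x => GS (w k) x - G x) +
              3 * T ^ 2 * sq (fun x => (w (k + 1)).1 x - u x) +
              3 * m ^ 2 * sq (fun x => (w (k + 1)).1 x - (w k).1 x) := by
          intro k
          have i1 : Integrable fun x => 3 * L ^ 2 * ‖GS (w k) x - G x‖ ^ 2 :=
            (isqv ((hGm k).sub hG)).const_mul _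
          have i2 : Integrable fun x => 3 * T ^ 2 * ((w (k + 1)).1 x - u x) ^ 2 :=
            (isq ((w (k + 1)).2.sub hu)).const_mul _
          have i3 : Integrable fun x => 3 * m ^ 2 * ((w (k + 1)).1 x - (w k).1 x) ^ 2 :=
            (isq ((w (k + 1)).2.sub (w k).2)).const_mul _
          have e : 3 * L ^ 2 * sqv (fun x => GS (w k) x - G x) +
              3 * T ^ 2 * sq (fun x => (w (k + 1)).1 x - u x) +
              3 * m ^ 2 * sq (fun x => (w (k + 1)).1 x - (w k).1 x) =
              ∫ x, (3 * L ^ 2 * ‖GS (w k) x - G x‖ ^ 2 +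
                3 * T ^ 2 * ((w (k + 1)).1 x - u x) ^ 2 +
                3 * m ^ 2 * ((w (k + 1)).1 x - (w k).1 x) ^ 2) := by
            have j1 := integral_add (i1.add i2) i3
            have j2 := integral_add i1 i2
            simp only [Pi.add_apply] at j1 j2
            rw [j1, j2, integral_const_mul, integral_const_mul, integral_const_mul]
            rfl
          rw [e]
          refine integral_mono (isq (ma k)) ((i1.add i2).add i3) fun x => ?_
          simp only
          have q1 := sq_abs ((w (k + 1)).1 x - u x)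
          have q2 := sq_abs ((w (k + 1)).1 x - (w k).1 x)
          rw [← q1, ← q2]
          nlinarith [sq_nonneg (L * ‖GS (w k) x - G x‖ - T * |(w (k + 1)).1 x - u x|),
            sq_nonneg (L * ‖GS (w k) x - G x‖ - m * |(w (k + 1)).1 x - (w k).1 x|),
            sq_nonneg (T * |(w (k + 1)).1 x - u x| - m * |(w (k + 1)).1 x - (w k).1 x|)]
        have hz : Tendsto (fun k => 3 * L ^ 2 * sqv (fun x => GS (w k) x - G x) +
              3 * T ^ 2 * sq (fun x => (w (k + 1)).1 x - u x) +
              3 * m ^ 2 * sq (fun x => (w (k + 1)).1 x - (w k).1 x)) atTop (𝓝 0) := by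
          have := ((hGl.const_mul (3 * L ^ 2)).add (hul1.const_mul (3 * T ^ 2))).add
            (hstep.const_mul (3 * m ^ 2))
          simpa using this
        exact squeeze_zero (fun k => integral_nonneg fun x => sq_nonneg _) hup hz
    refine tendsto_nhds_unique hleft ?_
    refine hright.congr fun k => ?_
    exact ((weq k).2 φ Φ hφ).symm
  · -- the limit is between 0 and 1
    have hq : ∀ k, ∀ᵐ x, max (u x - 1) 0 ^ 2 + max (-u x) 0 ^ 2 ≤ ((w k).1 x - u x) ^ 2 := by
      intro k
      filter_upwards [hnn k, hle1 k] with x hx0 hx1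
      rcases le_total (u x) 0 with h | h
      · rw [max_eq_right (by linarith), max_eq_left (by linarith)]
        nlinarith
      · rcases le_total (u x) 1 with h' | h'
        · rw [max_eq_right (by linarith), max_eq_right (by linarith)]
          nlinarith [sq_nonneg ((w k).1 x - u x)]
        · rw [max_eq_left (by linarith), max_eq_right (by linarith)]
          nlinarith
    have hqm : AEStronglyMeasurable (fun x => max (u x - 1) 0 ^ 2 + max (-u x) 0 ^ 2) volume := by
      have hum := hu.aestronglyMeasurable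
      have g : Continuous fun t : ℝ => max (t - 1) 0 ^ 2 + max (-t) 0 ^ 2 := by fun_prop
      exact g.comp_aestronglyMeasurable hum
    have hqi : Integrable (fun x => max (u x - 1) 0 ^ 2 + max (-u x) 0 ^ 2) := by
      refine (isq ((w 0).2.sub hu)).mono' hqm ?_
      filter_upwards [hq 0] with x hx
      rw [Real.norm_of_nonneg (by positivity)]
      exact hx
    have hq0 : ∫ x, (max (u x - 1) 0 ^ 2 + max (-u x) 0 ^ 2) = 0 := by
      refine le_antisymm ?_ (integral_nonneg fun x => by positivity)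
      refine ge_of_tendsto hul (Eventually.of_forall fun k => ?_)
      exact integral_mono_ae hqi (isq ((w k).2.sub hu)) (hq k)
    have hq1 := (integral_eq_zero_iff_of_nonneg (fun x => by positivity) hqi).mp hq0
    filter_upwards [hq1] with x hx
    simp only [Pi.zero_apply] at hx
    have a1 : max (u x - 1) 0 ^ 2 = 0 := by
      have := sq_nonneg (max (u x - 1) 0)
      have := sq_nonneg (max (-u x) 0)
      linarith
    have a2 : max (-u x) 0 ^ 2 = 0 := by
      have := sq_nonneg (max (u x - 1) 0)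
      have := sq_nonneg (max (-u x) 0)
      linarith
    have b1 := le_max_left (u x - 1) 0
    have b2 := le_max_left (-u x) 0
    rw [pow_eq_zero_iff two_ne_zero] at a1 a2
    constructor
    · linarith
    · linarith

end Pool.Agent.PFlow.PB


end

section

/-!
# SOLVE: the approximate solver of the leafwise Poisson equation
-/

open MeasureTheory Filter Topology
open scoped ContDiff

namespace Pool.Agent.PFlow.GB

open Pool.Agent.PenroseSph Pool.Agent.PFlow

namespace SOLVE

variable {V : Set E3} {a b : ℝ} {g : TensorField} {W : E3 → ℝ}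

lemma grad_zero {u : E3 → ℝ} {x : E3} (hx : u =ᶠ[𝓝 x] fun _ => 0) : grad u x = 0 := by
  funext i
  simp only [grad, pd]
  rw [hx.fderiv_eq]
  simp

lemma lin_zero {u : E3 → ℝ} {x : E3} (hx : x ∉ tsupport u) (g : TensorField) (W : E3 → ℝ) :
    lin g W u u x = 0 := by
  unfold lin lip ev
  rw [grad_zero (notMem_tsupport_iff_eventuallyEq.1 hx)]
  simp

lemma lap_zero {u : E3 → ℝ} {x : E3} (hx : x ∉ tsupport u) (g : TensorField) (W : E3 → ℝ) :
    lap g W u x = 0 := by
  have h1 : ∀ᶠ y in 𝓝 x, y ∉ tsupport u := (isClosed_tsupport u).isOpen_compl.mem_nhds hx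
  have h2 : ∀ i, (fun y => dens g W y * lgrad g W u y i) =ᶠ[𝓝 x] fun _ => 0 := by
    intro i
    filter_upwards [h1] with y hy
    have h3 : grad u y = 0 := grad_zero (notMem_tsupport_iff_eventuallyEq.1 hy)
    simp [lgrad, raise, h3]
  unfold lap ldiv
  have h4 : ∀ i, pd i (fun y => dens g W y * lgrad g W u y i) x = 0 := by
    intro i
    simp only [pd]
    rw [(h2 i).fderiv_eq]
    simp
  simp [h4]

lemma finMeas (h : Fol V a b g W) {c d : ℝ} (hc : a < c) (hd : d < b) :
    IsFiniteMeasure (volume.restrict (slab V W c d)) :=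
  ⟨by simpa using volume_slab_lt_top h hc hd⟩

lemma memLp_of (h : Fol V a b g W) {c d : ℝ} (hc : a < c) (hd : d < b) {K : Set E3}
    (hK : IsCompact K) (hKU : K ⊆ slab V W c d) {F : E3 → ℝ}
    (hF : ContinuousOn F (slab V W c d)) (h0 : ∀ x, x ∉ K → F x = 0) :
    MemLp F 2 (volume.restrict (slab V W c d)) := by
  obtain ⟨B, hB⟩ := hK.exists_bound_of_continuousOn (hF.mono hKU)
  have := finMeas h hc hd
  refine MemLp.of_bound (hF.aestronglyMeasurable (measurableSet_slab h c d)) (max B 0)
    (ae_of_all _ fun x => ?_)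
  by_cases hx : x ∈ K
  · exact (hB x hx).trans (le_max_left _ _)
  · rw [h0 x hx]
    simp

lemma dens_continuousOn (hSMO : Stmt_SMO) (h : Fol V a b g W) : ContinuousOn (dens g W) V :=
  fun x hx => ((hSMO.2 g W x (h.reg hx)).2.2.2.2.2.2.2.2.1).continuousAt.continuousWithinAt

lemma dens_pos (hSMO : Stmt_SMO) (h : Fol V a b g W) {x : E3} (hx : x ∈ V) : 0 < dens g W x :=
  (hSMO.2 g W x (h.reg hx)).2.2.2.1

lemma integrable_dens (hSMO : Stmt_SMO) (h : Fol V a b g W) {c d : ℝ} (hc : a < c) (hd : d < b)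
    {F G : E3 → ℝ} (hF : MemLp F 2 (volume.restrict (slab V W c d)))
    (hG : MemLp G 2 (volume.restrict (slab V W c d))) :
    Integrable (fun x => F x * G x * dens g W x) (volume.restrict (slab V W c d)) := by
  obtain ⟨M, hM⟩ := (h.proper c d hc hd).exists_bound_of_continuousOn
    ((dens_continuousOn hSMO h).mono (cslab_subset c d))
  have h1 : Integrable (fun x => F x * G x) (volume.restrict (slab V W c d)) :=
    hF.integrable_mul hG
  refine h1.mul_bdd (c := M) ?_ ?_
  · exact ((dens_continuousOn hSMO h).mono (slab_subset c d)).aestronglyMeasurable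
      (measurableSet_slab h c d)
  · filter_upwards [ae_restrict_mem (measurableSet_slab h c d)] with x hx
    exact hM x (slab_subset_cslab c d hx)

/-- the scalar part of the argument -/
lemma scalar {κ A2 D2 C0 S : ℝ} (hκ : 0 < κ) (hκ1 : κ ≤ 1) (hD : 0 ≤ D2) (hC : 0 ≤ C0)
    (h : κ * A2 / 2 + D2 ≤ κ / 2 + C0 * Real.sqrt D2) (hA : 0 ≤ A2)
    (hS : S ≤ 2 * κ ^ 2 * A2 + 2 * κ ^ 2) :
    D2 ≤ (C0 + 1) ^ 2 ∧ S ≤ κ * (4 + C0 ^ 2) := by
  have h1 : Real.sqrt D2 ^ 2 = D2 := Real.sq_sqrt hD
  have h0 : 0 ≤ Real.sqrt D2 := Real.sqrt_nonneg _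
  set D := Real.sqrt D2 with hDd
  rw [← h1] at h
  have h2 : D ≤ C0 + 1 := by
    by_contra hcon
    push Not at hcon
    have h3 : 0 ≤ κ * A2 / 2 := by positivity
    nlinarith
  constructor
  · rw [← h1]
    exact pow_le_pow_left₀ h0 h2 2
  · have h4 : κ * A2 ≤ κ + C0 ^ 2 / 2 := by nlinarith [sq_nonneg (D - C0 / 2)]
    have h5 : κ * (κ * A2) ≤ κ * (κ + C0 ^ 2 / 2) := mul_le_mul_of_nonneg_left h4 hκ.le
    nlinarith [mul_nonneg hκ.le (sub_nonneg.2 hκ1)]

end SOLVE

open SOLVE in
/-- SOLVE: the approximate solver. -/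
theorem SOLVE (hSMO : Stmt_SMO) (hRUL : Stmt_RUL) (hIBP : Stmt_IBP) (hDENS : Stmt_DENS) :
    Stmt_SOLVE := by
  intro V a b g W hf c d hac hcd hdb ρ C0 hρ hC0 hweak ε hε
  set U : Set E3 := slab V W c d with hU
  have hUf : Fol U c d g W := hf.sub hac.le hdb.le
  have hUm : MeasurableSet U := measurableSet_slab hf c d
  -- the parameter
  set κ : ℝ := min 1 (ε / (4 + C0 ^ 2)) with hκd
  have hκ : 0 < κ := lt_min one_pos (by positivity)
  have hκ1 : κ ≤ 1 := min_le_left _ _
  have hκε : κ * (4 + C0 ^ 2) ≤ ε := by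
    have h1 : κ ≤ ε / (4 + C0 ^ 2) := min_le_right _ _
    rwa [le_div_iff₀ (by positivity)] at h1
  obtain ⟨u, hu, hur⟩ := hDENS V a b g W hf c d hac hcd hdb κ hκ (fun x => -ρ x) hρ.neg
    (κ ^ 2) (by positivity)
  -- regularity
  have hcu : ContinuousOn u U := hu.smooth.continuous.continuousOn
  have hcl : ContinuousOn (lap g W u) U := fun x hx =>
    (((hSMO.2 g W x (hf.reg hx.1)).2.2.2.2.2.2.2.2.2.2.2.2.1 u u hu.smooth.contDiffAt
      hu.smooth.contDiffAt).2.1).continuousAt.continuousWithinAt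
  have hcg : ContinuousOn (lin g W u u) U := fun x hx =>
    (((hSMO.2 g W x (hf.reg hx.1)).2.2.2.2.2.2.2.2.2.2.2.2.1 u u hu.smooth.contDiffAt
      hu.smooth.contDiffAt).1).continuousAt.continuousWithinAt
  have hK : IsCompact (tsupport u) := hu.compact
  have mu : MemLp u 2 (volume.restrict U) := memLp_of hf hac hdb hK hu.supp hcu
    (fun x hx => image_eq_zero_of_notMem_tsupport hx)
  have ml : MemLp (lap g W u) 2 (volume.restrict U) := memLp_of hf hac hdb hK hu.supp hcl
    (fun x hx => lap_zero hx g W)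
  have mg : MemLp (lin g W u u) 2 (volume.restrict U) := memLp_of hf hac hdb hK hu.supp hcg
    (fun x hx => lin_zero hx g W)
  have := finMeas hf hac hdb
  have m1 : MemLp (fun _ : E3 => (1 : ℝ)) 2 (volume.restrict U) := memLp_const 1
  set r : E3 → ℝ := fun x => κ * u x - lap g W u x + ρ x with hr
  have mr : MemLp r 2 (volume.restrict U) := ((mu.const_mul κ).sub ml).add hρ
  -- integrals
  set A2 : ℝ := ∫ x in U, u x * u x * dens g W x with hA2
  set D2 : ℝ := ∫ x in U, lin g W u u x * dens g W x with hD2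
  have iuu := integrable_dens hSMO hf hac hdb mu mu
  have iul := integrable_dens hSMO hf hac hdb mu ml
  have iur := integrable_dens hSMO hf hac hdb mu mr
  have irr := integrable_dens hSMO hf hac hdb mr mr
  have iρu := integrable_dens hSMO hf hac hdb hρ mu
  have ig : Integrable (fun x => lin g W u u x * dens g W x) (volume.restrict U) := by
    have h1 := integrable_dens hSMO hf hac hdb mg m1
    simpa using h1
  have hrr : ∫ x in U, r x * r x * dens g W x ≤ κ ^ 2 := by
    refine le_trans (le_of_eq ?_) hur.le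
    refine integral_congr_ae (ae_of_all _ fun x => ?_)
    simp only [hr]
    ring
  have hA0 : 0 ≤ A2 := by
    refine integral_nonneg_of_ae ?_
    filter_upwards [ae_restrict_mem hUm] with x hx
    have := dens_pos hSMO hf hx.1
    have h2 : 0 ≤ u x * u x := mul_self_nonneg _
    exact mul_nonneg h2 this.le
  have hlin0 : ∀ x ∈ U, 0 ≤ lin g W u u x := fun x hx =>
    ((hRUL g W x (hf.reg hx.1)).2.2.1 u u).2.1
  have hD0 : 0 ≤ D2 := by
    refine integral_nonneg_of_ae ?_
    filter_upwards [ae_restrict_mem hUm] with x hx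
    exact mul_nonneg (hlin0 x hx) (dens_pos hSMO hf hx.1).le
  -- integration by parts
  have hibp : ∫ x in U, u x * lap g W u x * dens g W x = -D2 :=
    ((hIBP U c d g W hUf).2.2 u u hu (hu.smooth.contDiffOn.of_le ENat.LEInfty.out)).1
  have hw := hweak u hu
  have hid : ∫ x in U, u x * r x * dens g W x =
      κ * A2 + D2 + ∫ x in U, ρ x * u x * dens g W x := by
    have e1 : ∀ x, u x * r x * dens g W x =
        κ * (u x * u x * dens g W x) - u x * lap g W u x * dens g W x +
          ρ x * u x * dens g W x := by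
      intro x
      simp only [hr]
      ring
    have i1 : Integrable (fun x => κ * (u x * u x * dens g W x) -
        u x * lap g W u x * dens g W x) (volume.restrict U) := (iuu.const_mul κ).sub iul
    simp_rw [e1]
    rw [integral_add i1 iρu, integral_sub (iuu.const_mul κ) iul,
      integral_const_mul, hibp]
    ring
  have hyoung : ∫ x in U, u x * r x * dens g W x ≤ κ / 2 * A2 + κ / 2 := by
    have e1 : ∫ x in U, u x * r x * dens g W x ≤
        ∫ x in U, (κ / 2 * (u x * u x * dens g W x) + 1 / (2 * κ) *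
          (r x * r x * dens g W x)) := by
      refine integral_mono_ae iur ((iuu.const_mul _).add (irr.const_mul _)) ?_
      filter_upwards [ae_restrict_mem hUm] with x hx
      have hm := dens_pos hSMO hf hx.1
      have e2 : u x * r x ≤ κ / 2 * (u x * u x) + 1 / (2 * κ) * (r x * r x) := by
        have e3 : κ / 2 * (u x * u x) + 1 / (2 * κ) * (r x * r x) - u x * r x =
            (κ * u x - r x) ^ 2 / (2 * κ) := by
          field_simp
          ring
        have e4 : 0 ≤ (κ * u x - r x) ^ 2 / (2 * κ) := by positivity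
        linarith
      have e5 := mul_le_mul_of_nonneg_right e2 hm.le
      calc u x * r x * dens g W x ≤ (κ / 2 * (u x * u x) + 1 / (2 * κ) * (r x * r x)) *
            dens g W x := e5
        _ = _ := by ring
    rw [integral_add (iuu.const_mul _) (irr.const_mul _), integral_const_mul,
      integral_const_mul] at e1
    have e6 : 1 / (2 * κ) * ∫ x in U, r x * r x * dens g W x ≤ κ / 2 := by
      calc 1 / (2 * κ) * ∫ x in U, r x * r x * dens g W x ≤ 1 / (2 * κ) * κ ^ 2 :=
            mul_le_mul_of_nonneg_left hrr (by positivity)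
        _ = κ / 2 := by field_simp
    linarith
  have hmain : κ * A2 / 2 + D2 ≤ κ / 2 + C0 * Real.sqrt D2 := by
    have e1 := (abs_le.1 hw).1
    linarith
  -- the equation
  have hS : ∫ x in U, (lap g W u x - ρ x) ^ 2 * dens g W x ≤
      2 * κ ^ 2 * A2 + 2 * κ ^ 2 := by
    have e0 : ∫ x in U, (lap g W u x - ρ x) ^ 2 * dens g W x =
        ∫ x in U, (lap g W u x - ρ x) * (lap g W u x - ρ x) * dens g W x := by
      refine integral_congr_ae (ae_of_all _ fun x => ?_)
      ring
    have e1 : ∫ x in U, (lap g W u x - ρ x) * (lap g W u x - ρ x) * dens g W x ≤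
        ∫ x in U, (2 * κ ^ 2 * (u x * u x * dens g W x) + 2 * (r x * r x * dens g W x)) := by
      refine integral_mono_ae (integrable_dens hSMO hf hac hdb (ml.sub hρ) (ml.sub hρ))
        ((iuu.const_mul _).add (irr.const_mul _)) ?_
      filter_upwards [ae_restrict_mem hUm] with x hx
      have hm := dens_pos hSMO hf hx.1
      have e2 : (lap g W u x - ρ x) * (lap g W u x - ρ x) ≤
          2 * κ ^ 2 * (u x * u x) + 2 * (r x * r x) := by
        simp only [hr]
        nlinarith [sq_nonneg (κ * u x + (κ * u x - lap g W u x + ρ x))]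
      have e5 := mul_le_mul_of_nonneg_right e2 hm.le
      calc (lap g W u x - ρ x) * (lap g W u x - ρ x) * dens g W x ≤
          (2 * κ ^ 2 * (u x * u x) + 2 * (r x * r x)) * dens g W x := e5
        _ = _ := by ring
    rw [integral_add (iuu.const_mul _) (irr.const_mul _), integral_const_mul,
      integral_const_mul] at e1
    rw [e0]
    linarith
  obtain ⟨h1, h2⟩ := scalar hκ hκ1 hD0 hC0 hmain hA0 hS
  exact ⟨u, hu, h2.trans hκε, h1⟩

end Pool.Agent.PFlow.GB


end

section

/-!
# Module BO: the contracted Bochner formula in coordinates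
-/

open MeasureTheory Filter Topology
open scoped ContDiff

namespace Pool.Agent.PFlow

open Pool.Agent.PenroseSph

namespace MBO

/-! ### Calculus -/

theorem cd_pd {f : E3 → ℝ} {x : E3} (h : ContDiffAt ℝ ∞ f x) (i : Fin 3) :
    ContDiffAt ℝ ∞ (pd i f) x := by
  have h1 : ContDiffAt ℝ ∞ (fderiv ℝ f) x := h.fderiv_right (m := ∞) (by simp)
  exact h1.clm_apply contDiffAt_const

theorem df {f : E3 → ℝ} {x : E3} (h : ContDiffAt ℝ ∞ f x) : DifferentiableAt ℝ f x :=
  h.differentiableAt (by simp)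

/-- Symmetry of the second derivatives. -/
theorem pd_comm {f : E3 → ℝ} {x : E3} (h : ContDiffAt ℝ ∞ f x) (i j : Fin 3) :
    pd i (pd j f) x = pd j (pd i f) x := by
  have hs : IsSymmSndFDerivAt ℝ f x := h.isSymmSndFDerivAt (by
    rw [minSmoothness_of_isRCLikeNormedField]
    exact WithTop.coe_le_coe.2 le_top)
  have hd : DifferentiableAt ℝ (fderiv ℝ f) x :=
    (h.fderiv_right (m := ∞) (by simp)).differentiableAt (by simp)
  have key : ∀ v w : E3, fderiv ℝ (fun y => fderiv ℝ f y v) x w = fderiv ℝ (fderiv ℝ f) x w v := by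
    intro v w
    have h1 : HasFDerivAt (fun y => fderiv ℝ f y v)
        ((ContinuousLinearMap.apply ℝ ℝ v).comp (fderiv ℝ (fderiv ℝ f) x)) x :=
      (ContinuousLinearMap.apply ℝ ℝ v).hasFDerivAt.comp x hd.hasFDerivAt
    rw [h1.fderiv]
    rfl
  unfold pd
  rw [key, key]
  exact hs _ _

/-- `f` is differentiable at `x` with `∂_l f = f'`. -/
structure HP (l : Fin 3) (f : E3 → ℝ) (f' : ℝ) (x : E3) : Prop where
  diff : DifferentiableAt ℝ f x
  val : pd l f x = f'

section HP

variable {l : Fin 3} {f g : E3 → ℝ} {f' g' : ℝ} {x : E3}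

theorem HP.add (hf : HP l f f' x) (hg : HP l g g' x) :
    HP l (fun y => f y + g y) (f' + g') x :=
  ⟨hf.diff.add hg.diff, by rw [pd_add hf.diff hg.diff, hf.val, hg.val]⟩

theorem HP.sub (hf : HP l f f' x) (hg : HP l g g' x) :
    HP l (fun y => f y - g y) (f' - g') x :=
  ⟨hf.diff.sub hg.diff, by rw [pd_sub hf.diff hg.diff, hf.val, hg.val]⟩

theorem HP.mul (hf : HP l f f' x) (hg : HP l g g' x) :
    HP l (fun y => f y * g y) (f x * g' + g x * f') x :=
  ⟨hf.diff.mul hg.diff, by rw [pd_mul hf.diff hg.diff, hf.val, hg.val]⟩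

theorem HP.of_diff (h : DifferentiableAt ℝ f x) : HP l f (pd l f x) x := ⟨h, rfl⟩

theorem HP.sum {F : Fin 3 → E3 → ℝ} {F' : Fin 3 → ℝ} (h : ∀ a, HP l (F a) (F' a) x) :
    HP l (fun y => ∑ a, F a y) (∑ a, F' a) x := by
  refine ⟨DifferentiableAt.fun_sum fun a _ => (h a).diff, ?_⟩
  rw [pd_sum _ F fun a _ => (h a).diff]
  exact Finset.sum_congr rfl fun a _ => (h a).val

end HP

/-- Entries of the inverse metric. -/
noncomputable def iv (g : TensorField) (i j : Fin 3) (y : E3) : ℝ := (g y)⁻¹ i j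

section Metric

variable {U : Set E3} {g : TensorField} (hU : IsOpen U) (hg : MetricOn U g)

include hU hg

theorem cd_g {x : E3} (hx : x ∈ U) (i j : Fin 3) : ContDiffAt ℝ ∞ (fun y => g y i j) x :=
  (hg.smooth i j).contDiffAt (hU.mem_nhds hx)

omit hU in
theorem det_pos {x : E3} (hx : x ∈ U) : 0 < (g x).det := (hg.posDef x hx).det_pos

omit hU in
theorem symm_g {x : E3} (hx : x ∈ U) (i j : Fin 3) : g x i j = g x j i := by
  have h := (hg.posDef x hx).isHermitian
  have h1 : (g x).conjTranspose = g x := h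
  rw [Matrix.conjTranspose_eq_transpose_of_trivial] at h1
  conv_lhs => rw [← h1]
  rfl

omit hU in
theorem symm_iv {x : E3} (hx : x ∈ U) (i j : Fin 3) : iv g i j x = iv g j i x := by
  have h := (hg.posDef x hx).isHermitian
  have h1 : (g x).conjTranspose = g x := h
  rw [Matrix.conjTranspose_eq_transpose_of_trivial] at h1
  have h2 : (g x)⁻¹.transpose = (g x)⁻¹ := by
    rw [Matrix.transpose_nonsing_inv, h1]
  unfold iv
  conv_lhs => rw [← h2]
  rfl

theorem cd_det {x : E3} (hx : x ∈ U) : ContDiffAt ℝ ∞ (fun y => (g y).det) x := by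
  have h := cd_g hU hg hx
  simp only [Matrix.det_fin_three]
  fun_prop

theorem cd_iv {x : E3} (hx : x ∈ U) (i j : Fin 3) : ContDiffAt ℝ ∞ (iv g i j) x := by
  have h := cd_g hU hg hx
  have ha : ContDiffAt ℝ ∞ (fun y => (g y).adjugate i j) x := by
    simp only [Matrix.adjugate_fin_three]
    fin_cases i <;> fin_cases j <;>
      simp <;> fun_prop
  have h1 : iv g i j = fun y => ((g y).det)⁻¹ * (g y).adjugate i j := by
    funext y
    unfold iv
    rw [Matrix.inv_def, Ring.inverse_eq_inv', Matrix.smul_apply, smul_eq_mul]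
  rw [h1]
  exact ((cd_det hU hg hx).inv (det_pos hg hx).ne').mul ha

theorem cd_chr {x : E3} (hx : x ∈ U) (k i j : Fin 3) :
    ContDiffAt ℝ ∞ (christoffel g k i j) x := by
  have h := cd_g hU hg hx
  have h1 : ∀ l, ContDiffAt ℝ ∞ (fun y => iv g k l y * (pd i (fun y => g y j l) y
      + pd j (fun y => g y i l) y - pd l (fun y => g y i j) y)) x := fun l =>
    (cd_iv hU hg hx k l).mul (((cd_pd (h j l) i).add (cd_pd (h i l) j)).sub (cd_pd (h i j) l))
  have h2 : ContDiffAt ℝ ∞ (fun y => ∑ l, iv g k l y * (pd i (fun y => g y j l) y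
      + pd j (fun y => g y i l) y - pd l (fun y => g y i j) y)) x :=
    ContDiffAt.sum fun l _ => h1 l
  exact contDiffAt_const.mul h2

/-- Christoffel symbols are symmetric. -/
theorem symm_chr {x : E3} (hx : x ∈ U) (k i j : Fin 3) :
    christoffel g k i j x = christoffel g k j i x := by
  unfold christoffel
  congr 1
  refine Finset.sum_congr rfl fun l _ => ?_
  have h1 : pd l (fun y => g y i j) x = pd l (fun y => g y j i) x := by
    refine pd_congr ?_
    filter_upwards [hU.mem_nhds hx] with y hy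
    exact symm_g hg hy i j
  rw [h1]
  ring

theorem symm_pd_chr {x : E3} (hx : x ∈ U) (l k i j : Fin 3) :
    pd l (christoffel g k i j) x = pd l (christoffel g k j i) x := by
  refine pd_congr ?_
  filter_upwards [hU.mem_nhds hx] with y hy
  exact symm_chr hU hg hy k i j

omit hU in
theorem mul_iv {x : E3} (hx : x ∈ U) (c l : Fin 3) :
    ∑ d, g x c d * iv g d l x = if c = l then 1 else 0 := by
  have h2 := congrFun (congrFun (Matrix.mul_nonsing_inv (g x)
    (Ne.isUnit (det_pos hg hx).ne')) c) l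
  rw [Matrix.mul_apply, Matrix.one_apply] at h2
  exact h2

omit hU in
theorem iv_mul {x : E3} (hx : x ∈ U) (c l : Fin 3) :
    ∑ d, iv g c d x * g x d l = if c = l then 1 else 0 := by
  have h2 := congrFun (congrFun (Matrix.nonsing_inv_mul (g x)
    (Ne.isUnit (det_pos hg hx).ne')) c) l
  rw [Matrix.mul_apply, Matrix.one_apply] at h2
  exact h2

omit hU in
/-- Lowering the index of a Christoffel symbol. -/
theorem lower {x : E3} (hx : x ∈ U) (c a b : Fin 3) :
    ∑ d, g x c d * christoffel g d a b x = (1 / 2) * (pd a (fun y => g y b c) x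
      + pd b (fun y => g y a c) x - pd c (fun y => g y a b) x) := by
  have h1 := mul_iv hg hx c
  unfold christoffel
  have h3 : ∑ d, g x c d * (1 / 2 * ∑ l, (g x)⁻¹ d l * (pd a (fun y => g y b l) x
      + pd b (fun y => g y a l) x - pd l (fun y => g y a b) x)) =
      1 / 2 * ∑ l, (∑ d, g x c d * iv g d l x) * (pd a (fun y => g y b l) x
      + pd b (fun y => g y a l) x - pd l (fun y => g y a b) x) := by
    simp only [Finset.mul_sum, Finset.sum_mul, iv]
    rw [Finset.sum_comm]
    refine Finset.sum_congr rfl fun l _ => Finset.sum_congr rfl fun d _ => ?_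
    ring
  rw [h3]
  simp only [h1]
  simp

/-- The metric is parallel. -/
theorem pd_g {x : E3} (hx : x ∈ U) (k a b : Fin 3) :
    pd k (fun y => g y a b) x =
      ∑ d, g x b d * christoffel g d k a x + ∑ d, g x a d * christoffel g d k b x := by
  rw [lower hg hx, lower hg hx]
  have h1 : ∀ l i j, pd l (fun y => g y i j) x = pd l (fun y => g y j i) x := by
    intro l i j
    refine pd_congr ?_
    filter_upwards [hU.mem_nhds hx] with y hy
    exact symm_g hg hy i j
  rw [h1 k b a, h1 a k b, h1 b k a]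
  ring

/-- The inverse metric is parallel. -/
theorem pd_iv {x : E3} (hx : x ∈ U) (k i j : Fin 3) :
    pd k (iv g i j) x = - (∑ l, christoffel g i k l x * iv g l j x)
      - ∑ l, christoffel g j k l x * iv g i l x := by
  have hd : ∀ i j, DifferentiableAt ℝ (fun y => g y i j) x := fun i j => df (cd_g hU hg hx i j)
  have hd' : ∀ i j, DifferentiableAt ℝ (iv g i j) x := fun i j => df (cd_iv hU hg hx i j)
  -- differentiate `P g = 1`
  have h1 : ∀ b, ∑ a, (iv g i a x * pd k (fun y => g y a b) x + g x a b * pd k (iv g i a) x) =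
      0 := by
    intro b
    have h2 : pd k (fun y => ∑ a, iv g i a y * g y a b) x =
        ∑ a, (iv g i a x * pd k (fun y => g y a b) x + g x a b * pd k (iv g i a) x) := by
      rw [pd_sum _ (fun a y => iv g i a y * g y a b) fun a _ => (hd' i a).mul (hd a b)]
      refine Finset.sum_congr rfl fun a _ => ?_
      rw [pd_mul (hd' i a) (hd a b)]
    rw [← h2]
    have h3 : pd k (fun y => ∑ a, iv g i a y * g y a b) x =
        pd k (fun _ => if i = b then (1 : ℝ) else 0) x := by
      refine pd_congr ?_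
      filter_upwards [hU.mem_nhds hx] with y hy
      exact iv_mul hg hy i b
    rw [h3, pd_const]
  have h4 : ∑ b, (∑ a, (iv g i a x * pd k (fun y => g y a b) x +
      g x a b * pd k (iv g i a) x)) * iv g b j x = 0 := by
    simp only [h1, zero_mul, Finset.sum_const_zero]
  have h5 : ∑ b, (∑ a, (iv g i a x * pd k (fun y => g y a b) x +
      g x a b * pd k (iv g i a) x)) * iv g b j x =
      ∑ b, ∑ a, iv g i a x * pd k (fun y => g y a b) x * iv g b j x +
        ∑ a, pd k (iv g i a) x * ∑ b, g x a b * iv g b j x := by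
    simp only [Finset.sum_mul, Finset.mul_sum, add_mul, Finset.sum_add_distrib]
    congr 1
    rw [Finset.sum_comm]
    refine Finset.sum_congr rfl fun a _ => Finset.sum_congr rfl fun b _ => ?_
    ring
  have h6 : ∑ a, pd k (iv g i a) x * ∑ b, g x a b * iv g b j x = pd k (iv g i j) x := by
    simp only [mul_iv hg hx]
    simp
  have h7 : ∑ b, ∑ a, iv g i a x * pd k (fun y => g y a b) x * iv g b j x =
      (∑ l, christoffel g i k l x * iv g l j x) + ∑ l, christoffel g j k l x * iv g i l x := by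
    simp only [pd_g hU hg hx]
    have e1 : ∀ a b : Fin 3, iv g i a x * (∑ d, g x b d * christoffel g d k a x +
        ∑ d, g x a d * christoffel g d k b x) * iv g b j x =
        ∑ d, iv g i a x * christoffel g d k a x * (iv g j b x * g x b d) +
          ∑ d, (iv g i a x * g x a d) * (christoffel g d k b x * iv g b j x) := by
      intro a b
      rw [symm_iv hg hx j b, mul_add, add_mul, Finset.mul_sum, Finset.mul_sum, Finset.sum_mul,
        Finset.sum_mul]
      congr 1
      · refine Finset.sum_congr rfl fun d _ => ?_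
        ring
      · refine Finset.sum_congr rfl fun d _ => ?_
        ring
    simp only [e1, Finset.sum_add_distrib]
    rw [add_comm]
    congr 1
    · have e2 : ∑ b, ∑ a, ∑ d, (iv g i a x * g x a d) *
          (christoffel g d k b x * iv g b j x) =
          ∑ b, ∑ d, (∑ a, iv g i a x * g x a d) * (christoffel g d k b x * iv g b j x) := by
        refine Finset.sum_congr rfl fun b _ => ?_
        rw [Finset.sum_comm]
        refine Finset.sum_congr rfl fun d _ => ?_
        rw [Finset.sum_mul]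
      rw [e2]
      simp only [iv_mul hg hx]
      simp
    · have e2 : ∑ b, ∑ a, ∑ d, iv g i a x * christoffel g d k a x * (iv g j b x * g x b d) =
          ∑ a, ∑ d, iv g i a x * christoffel g d k a x * (∑ b, iv g j b x * g x b d) := by
        rw [Finset.sum_comm]
        refine Finset.sum_congr rfl fun a _ => ?_
        rw [Finset.sum_comm]
        refine Finset.sum_congr rfl fun d _ => ?_
        rw [Finset.mul_sum]
      rw [e2]
      simp only [iv_mul hg hx]
      simp only [mul_ite, mul_one, mul_zero, Finset.sum_ite_eq, Finset.mem_univ, if_true]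
      refine Finset.sum_congr rfl fun a _ => ?_
      ring
  rw [h5, h6, h7] at h4
  linarith

/-- The derivative of the determinant. -/
theorem pd_det {x : E3} (hx : x ∈ U) (k : Fin 3) :
    pd k (fun y => (g y).det) x = (g x).det * (2 * ∑ l, christoffel g l l k x) := by
  have hd : ∀ i j, DifferentiableAt ℝ (fun y => g y i j) x := fun i j => df (cd_g hU hg hx i j)
  have h1 : pd k (fun y => (g y).det) x =
      ∑ i, ∑ j, (g x).adjugate j i * pd k (fun y => g y i j) x := by
    simp only [Matrix.det_fin_three]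
    have t : ∀ a b c d e f : Fin 3, HP k (fun y => g y a b * g y c d * g y e f)
        (g x a b * g x c d * pd k (fun y => g y e f) x +
          g x e f * (g x a b * pd k (fun y => g y c d) x + g x c d * pd k (fun y => g y a b) x))
          x := fun a b c d e f =>
      ((HP.of_diff (hd a b)).mul (HP.of_diff (hd c d))).mul (HP.of_diff (hd e f))
    have t2 := ((((((t 0 0 1 1 2 2).sub (t 0 0 1 2 2 1)).sub (t 0 1 1 0 2 2)).add
      (t 0 1 1 2 2 0)).add (t 0 2 1 0 2 1)).sub (t 0 2 1 1 2 0)).val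
    rw [t2]
    clear t2 t
    simp only [Matrix.adjugate_fin_three, Fin.sum_univ_three]
    simp only [Matrix.of_apply, Matrix.cons_val', Matrix.cons_val_zero, Matrix.cons_val_one,
      Matrix.cons_val, Matrix.cons_val_fin_one]
    ring
  have h2 : ∀ i j, (g x).adjugate j i = (g x).det * iv g j i x := by
    intro i j
    unfold iv
    rw [Matrix.inv_def, Ring.inverse_eq_inv', Matrix.smul_apply, smul_eq_mul,
      mul_inv_cancel_left₀ (det_pos hg hx).ne']
  rw [h1]
  simp only [h2, pd_g hU hg hx]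
  have h3 : ∀ i j : Fin 3, (g x).det * iv g j i x * (∑ d, g x j d * christoffel g d k i x +
      ∑ d, g x i d * christoffel g d k j x) =
      (g x).det * (∑ d, (iv g i j x * g x j d) * christoffel g d k i x) +
        (g x).det * ∑ d, (iv g j i x * g x i d) * christoffel g d k j x := by
    intro i j
    rw [symm_iv hg hx i j, mul_add]
    congr 1
    · rw [mul_assoc, Finset.mul_sum]
      congr 1
      refine Finset.sum_congr rfl fun d _ => ?_
      ring
    · rw [mul_assoc, Finset.mul_sum]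
      congr 1
      refine Finset.sum_congr rfl fun d _ => ?_
      ring
  simp only [h3, Finset.sum_add_distrib]
  have h4 : ∑ i, ∑ j, (g x).det * ∑ d, (iv g i j x * g x j d) * christoffel g d k i x =
      (g x).det * ∑ l, christoffel g l l k x := by
    simp only [← Finset.mul_sum]
    congr 1
    refine Finset.sum_congr rfl fun i _ => ?_
    rw [Finset.sum_comm]
    simp only [← Finset.sum_mul, iv_mul hg hx]
    simp only [ite_mul, one_mul, zero_mul, Finset.sum_ite_eq, Finset.mem_univ, if_true]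
    exact symm_chr hU hg hx i k i
  have h5 : ∑ i, ∑ j, (g x).det * ∑ d, (iv g j i x * g x i d) * christoffel g d k j x =
      (g x).det * ∑ l, christoffel g l l k x := by
    rw [Finset.sum_comm]
    exact h4
  rw [h4, h5]
  ring

/-- The derivative of the volume density. -/
theorem pd_vol {x : E3} (hx : x ∈ U) (k : Fin 3) :
    pd k (volDen g) x = volDen g x * ∑ l, christoffel g l l k x := by
  have hp := det_pos hg hx
  have h1 : HasFDerivAt (fun y => Real.sqrt ((g y).det))
      ((1 / (2 * Real.sqrt (g x).det)) • fderiv ℝ (fun y => (g y).det) x) x :=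
    (df (cd_det hU hg hx)).hasFDerivAt.sqrt hp.ne'
  have h2 : pd k (volDen g) x = 1 / (2 * Real.sqrt (g x).det) *
      pd k (fun y => (g y).det) x := by
    unfold pd volDen
    rw [h1.fderiv]
    rfl
  rw [h2, pd_det hU hg hx]
  unfold volDen
  have h3 : Real.sqrt (g x).det ≠ 0 := (Real.sqrt_pos.mpr hp).ne'
  have h4 : (g x).det = Real.sqrt (g x).det * Real.sqrt (g x).det :=
    (Real.mul_self_sqrt hp.le).symm
  field_simp
  rw [Real.sq_sqrt hp.le]

theorem diff_vol {x : E3} (hx : x ∈ U) : DifferentiableAt ℝ (volDen g) x :=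
  (df (cd_det hU hg hx)).sqrt (det_pos hg hx).ne'

/-- The divergence of a vector field. -/
theorem div_eq {x : E3} (hx : x ∈ U) (Y : Fin 3 → E3 → ℝ)
    (hY : ∀ a, DifferentiableAt ℝ (Y a) x) :
    ∑ i, pd i (fun y => volDen g y * ∑ a, iv g i a y * Y a y) x =
      volDen g x * ∑ i, ∑ a, iv g i a x * (pd i (Y a) x - ∑ l, christoffel g l i a x * Y l x) := by
  have hP : ∀ i j, DifferentiableAt ℝ (iv g i j) x := fun i j => df (cd_iv hU hg hx i j)
  have h1 : ∀ i, pd i (fun y => volDen g y * ∑ a, iv g i a y * Y a y) x =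
      volDen g x * (∑ a, (iv g i a x * pd i (Y a) x + Y a x * (- (∑ l, christoffel g i i l x *
        iv g l a x) - ∑ l, christoffel g a i l x * iv g i l x))) +
      (∑ a, iv g i a x * Y a x) * (volDen g x * ∑ l, christoffel g l l i x) := by
    intro i
    have h2 : ∀ a, HP i (iv g i a) (- (∑ l, christoffel g i i l x *
        iv g l a x) - ∑ l, christoffel g a i l x * iv g i l x) x := fun a =>
      ⟨hP i a, pd_iv hU hg hx i i a⟩
    exact ((⟨diff_vol hU hg hx, pd_vol hU hg hx i⟩ : HP i (volDen g) _ x).mul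
      (HP.sum fun a => (h2 a).mul (HP.of_diff (hY a)))).val
  simp only [h1]
  have s := symm_chr hU hg hx
  have s1 : ∀ k, christoffel g k 1 0 x = christoffel g k 0 1 x := fun k => s k 1 0
  have s2 : ∀ k, christoffel g k 2 0 x = christoffel g k 0 2 x := fun k => s k 2 0
  have s3 : ∀ k, christoffel g k 2 1 x = christoffel g k 1 2 x := fun k => s k 2 1
  simp only [Fin.sum_univ_three, s1, s2, s3]
  ring

/-- The derivative of the trace of a tensor field. -/
theorem hp_tr {x : E3} (hx : x ∈ U) (S : Fin 3 → Fin 3 → E3 → ℝ)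
    (hS : ∀ j k, DifferentiableAt ℝ (S j k) x) (i : Fin 3) :
    HP i (fun y => ∑ j, ∑ k, iv g j k y * S j k y)
      (∑ j, ∑ k, iv g j k x * (pd i (S j k) x - ∑ l, christoffel g l i j x * S l k x
        - ∑ l, christoffel g l i k x * S j l x)) x := by
  have h2 : ∀ j k, HP i (iv g j k) (- (∑ l, christoffel g j i l x *
        iv g l k x) - ∑ l, christoffel g k i l x * iv g j l x) x := fun j k =>
      ⟨df (cd_iv hU hg hx j k), pd_iv hU hg hx i j k⟩
  have h3 := HP.sum fun j => HP.sum fun k => (h2 j k).mul (HP.of_diff (hS j k))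
  refine ⟨h3.diff, h3.val.trans ?_⟩
  simp only [Fin.sum_univ_three]
  ring

/-- The derivative of a raised covector field. -/
theorem hp_up {x : E3} (hx : x ∈ U) (Y : Fin 3 → E3 → ℝ)
    (hY : ∀ a, DifferentiableAt ℝ (Y a) x) (i b : Fin 3) :
    HP i (fun y => ∑ c, iv g b c y * Y c y)
      (∑ c, iv g b c x * (pd i (Y c) x - ∑ l, christoffel g l i c x * Y l x)
        - ∑ l, christoffel g b i l x * ∑ c, iv g l c x * Y c x) x := by
  have h2 : ∀ j k, HP i (iv g j k) (- (∑ l, christoffel g j i l x *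
        iv g l k x) - ∑ l, christoffel g k i l x * iv g j l x) x := fun j k =>
      ⟨df (cd_iv hU hg hx j k), pd_iv hU hg hx i j k⟩
  have h3 := HP.sum fun c => (h2 b c).mul (HP.of_diff (hY c))
  refine ⟨h3.diff, h3.val.trans ?_⟩
  simp only [Fin.sum_univ_three]
  ring

/-- The second derivatives of the inverse metric. -/
theorem pd_pd_iv {x : E3} (hx : x ∈ U) (b i k a : Fin 3) :
    pd b (pd i (iv g k a)) x =
      (-1) * (∑ l, (christoffel g k i l x * (- (∑ m, christoffel g l b m x * iv g m a x)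
          - ∑ m, christoffel g a b m x * iv g l m x)
        + iv g l a x * pd b (christoffel g k i l) x)) -
      ∑ l, (christoffel g a i l x * (- (∑ m, christoffel g k b m x * iv g m l x)
          - ∑ m, christoffel g l b m x * iv g k m x)
        + iv g k l x * pd b (christoffel g a i l) x) := by
  have h1 : pd b (pd i (iv g k a)) x = pd b (fun y => (-1 : ℝ) *
      (∑ l, christoffel g k i l y * iv g l a y) - ∑ l, christoffel g a i l y * iv g k l y) x := by
    refine pd_congr ?_
    filter_upwards [hU.mem_nhds hx] with y hy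
    rw [pd_iv hU hg hy]
    ring
  have h2 : ∀ j k, HP b (iv g j k) (- (∑ l, christoffel g j b l x *
        iv g l k x) - ∑ l, christoffel g k b l x * iv g j l x) x := fun j k =>
      ⟨df (cd_iv hU hg hx j k), pd_iv hU hg hx b j k⟩
  have h3 : ∀ k i j, HP b (christoffel g k i j) (pd b (christoffel g k i j) x) x := fun k i j =>
    HP.of_diff (df (cd_chr hU hg hx k i j))
  have h4 : HP b (fun _ => (-1 : ℝ)) 0 x := ⟨differentiableAt_const _, pd_const _⟩
  have h5 := ((h4.mul (HP.sum fun l => (h3 k i l).mul (h2 l a))).sub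
    (HP.sum fun l => (h3 a i l).mul (h2 k l))).val
  rw [h1, h5]
  ring

end Metric

/-! ### Algebra -/

/-- The curvature tensor. -/
def Rm (Γ : Fin 3 → Fin 3 → Fin 3 → ℝ) (D : Fin 3 → Fin 3 → Fin 3 → Fin 3 → ℝ)
    (k m b i : Fin 3) : ℝ :=
  D b k i m - D i k b m + (∑ l, Γ k b l * Γ l i m) - ∑ l, Γ k i l * Γ l b m

theorem Rm_anti (Γ : Fin 3 → Fin 3 → Fin 3 → ℝ) (D : Fin 3 → Fin 3 → Fin 3 → Fin 3 → ℝ)
    (k m b i : Fin 3) : Rm Γ D k m b i = - Rm Γ D k m i b := by
  unfold Rm
  ring

theorem comm_alg (Γ : Fin 3 → Fin 3 → Fin 3 → ℝ) (D : Fin 3 → Fin 3 → Fin 3 → Fin 3 → ℝ)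
    (w1 : Fin 3 → ℝ) (w2 : Fin 3 → Fin 3 → ℝ) (w3 : Fin 3 → Fin 3 → Fin 3 → ℝ)
    (H : Fin 3 → Fin 3 → ℝ) (hΓ : ∀ k i j, Γ k i j = Γ k j i)
    (hD : ∀ l k i j, D l k i j = D l k j i)
    (hH : ∀ a b, H a b = w2 a b - ∑ k, Γ k a b * w1 k) (hHs : ∀ a b, H a b = H b a)
    (b i a : Fin 3) (h3 : w3 b i a = w3 i a b) :
    (w3 b i a - ∑ k, (Γ k i a * w2 b k + w1 k * D b k i a) - ∑ l, Γ l b i * H l a
        - ∑ l, Γ l b a * H i l)
      - (w3 i a b - ∑ k, (Γ k a b * w2 i k + w1 k * D i k a b) - ∑ l, Γ l i a * H l b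
        - ∑ l, Γ l i b * H a l) = - ∑ k, w1 k * Rm Γ D k a b i := by
  have e1 : ∑ l, Γ l b i * H l a = ∑ l, Γ l i b * H a l := by
    refine Finset.sum_congr rfl fun l _ => ?_
    rw [hΓ l b i, hHs l a]
  have e2 : ∑ l, Γ l i a * H l b = ∑ l, Γ l i a * (w2 b l - ∑ k, Γ k b l * w1 k) := by
    refine Finset.sum_congr rfl fun l _ => ?_
    rw [hHs l b, hH]
  have e3 : ∑ l, Γ l b a * H i l = ∑ l, Γ l b a * (w2 i l - ∑ k, Γ k i l * w1 k) := by
    refine Finset.sum_congr rfl fun l _ => ?_
    rw [hH i l]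
  have e4 : ∑ k, (Γ k a b * w2 i k + w1 k * D i k a b) =
      ∑ k, (Γ k b a * w2 i k + w1 k * D i k b a) := by
    refine Finset.sum_congr rfl fun k _ => ?_
    rw [hΓ k a b, hD i k a b]
  rw [h3, e1, e2, e3, e4]
  unfold Rm
  simp only [Fin.sum_univ_three]
  ring

theorem id_alg (P : Fin 3 → Fin 3 → ℝ) (Γ : Fin 3 → Fin 3 → Fin 3 → ℝ)
    (D : Fin 3 → Fin 3 → Fin 3 → Fin 3 → ℝ) (k a b i : Fin 3)
    (h : (-1) * (∑ l, (Γ k i l * (- (∑ m, Γ l b m * P m a) - ∑ m, Γ a b m * P l m)
        + P l a * D b k i l)) -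
      ∑ l, (Γ a i l * (- (∑ m, Γ k b m * P m l) - ∑ m, Γ l b m * P k m) + P k l * D b a i l) =
      (-1) * (∑ l, (Γ k b l * (- (∑ m, Γ l i m * P m a) - ∑ m, Γ a i m * P l m)
        + P l a * D i k b l)) -
      ∑ l, (Γ a b l * (- (∑ m, Γ k i m * P m l) - ∑ m, Γ l i m * P k m) + P k l * D i a b l)) :
    ∑ m, (P m a * Rm Γ D k m b i + P k m * Rm Γ D a m b i) = 0 := by
  unfold Rm
  simp only [Fin.sum_univ_three] at h ⊢
  linear_combination (-1) * h

theorem ric_alg (P : Fin 3 → Fin 3 → ℝ) (Γ : Fin 3 → Fin 3 → Fin 3 → ℝ)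
    (D : Fin 3 → Fin 3 → Fin 3 → Fin 3 → ℝ) (hΓ : ∀ k i j, Γ k i j = Γ k j i)
    (hD : ∀ l k i j, D l k i j = D l k j i)
    (h : ∀ k a b i, ∑ m, (P m a * Rm Γ D k m b i + P k m * Rm Γ D a m b i) = 0) (k b : Fin 3) :
    ∑ i, ∑ m, P m i * Rm Γ D k m b i = ∑ m, P k m * ∑ l, (D l l m b - D b l m l +
      ∑ n, (Γ l l n * Γ n m b - Γ l b n * Γ n m l)) := by
  have h1 : ∀ m, ∑ l, (D l l m b - D b l m l +
      ∑ n, (Γ l l n * Γ n m b - Γ l b n * Γ n m l)) = ∑ l, Rm Γ D l m l b := by
    intro m
    refine Finset.sum_congr rfl fun l _ => ?_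
    unfold Rm
    rw [hD l l m b, hD b l m l, Finset.sum_sub_distrib]
    have e1 : ∑ n, Γ l l n * Γ n m b = ∑ n, Γ l l n * Γ n b m := by
      refine Finset.sum_congr rfl fun n _ => ?_
      rw [hΓ n m b]
    have e2 : ∑ n, Γ l b n * Γ n m l = ∑ n, Γ l b n * Γ n l m := by
      refine Finset.sum_congr rfl fun n _ => ?_
      rw [hΓ n m l]
    rw [e1, e2]
    ring
  simp only [h1]
  have h2 : ∑ i, ∑ m, (P m i * Rm Γ D k m b i + P k m * Rm Γ D i m b i) = 0 := by
    simp only [h, Finset.sum_const_zero]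
  simp only [Finset.sum_add_distrib] at h2
  have h3 : ∑ i, ∑ m, P k m * Rm Γ D i m b i = - ∑ m, P k m * ∑ l, Rm Γ D l m l b := by
    rw [Finset.sum_comm, ← Finset.sum_neg_distrib]
    refine Finset.sum_congr rfl fun m _ => ?_
    rw [Finset.mul_sum, ← Finset.sum_neg_distrib]
    refine Finset.sum_congr rfl fun l _ => ?_
    rw [Rm_anti Γ D l m b l]
    ring
  rw [h3] at h2
  linarith

theorem main_alg1 (P : Fin 3 → Fin 3 → ℝ) (Γ : Fin 3 → Fin 3 → Fin 3 → ℝ)
    (w1 W : Fin 3 → ℝ) (w2 H : Fin 3 → Fin 3 → ℝ) (DH : Fin 3 → Fin 3 → Fin 3 → ℝ)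
    (T : ℝ) (dT : Fin 3 → ℝ) (hH : ∀ a b, H a b = w2 a b - ∑ k, Γ k a b * w1 k) :
    ∑ i, ∑ a, P i a * ((T * w2 i a + w1 a * dT i)
      - (∑ b, (H a b * (∑ c, P b c * (w2 i c - ∑ l, Γ l i c * w1 l) - ∑ l, Γ b i l * W l)
        + W b * DH i a b)) - ∑ l, Γ l i a * (T * w1 l - ∑ b, H l b * W b)) =
      ∑ i, ∑ a, P i a * w1 a * dT i + T * ∑ i, ∑ a, P i a * H i a
      - ∑ i, ∑ a, ∑ b, P i a * H a b * (∑ c, P b c * H i c)
      - ∑ i, ∑ a, ∑ b, P i a * W b * (DH i a b - ∑ l, Γ l i a * H l b
        - ∑ l, Γ l i b * H a l) := by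
  have hw : ∀ a b, w2 a b = H a b + ∑ k, Γ k a b * w1 k := by
    intro a b
    rw [hH]
    ring
  simp only [hw]
  simp only [Fin.sum_univ_three]
  ring

theorem main_alg2 (P : Fin 3 → Fin 3 → ℝ) (w1 W : Fin 3 → ℝ)
    (ND : Fin 3 → Fin 3 → Fin 3 → ℝ) (R : Fin 3 → Fin 3 → Fin 3 → Fin 3 → ℝ)
    (Ric : Fin 3 → Fin 3 → ℝ) (hP : ∀ i j, P i j = P j i) (hW : ∀ b, W b = ∑ c, P b c * w1 c)
    (hc : ∀ b i a, ND b i a - ND i a b = - ∑ k, w1 k * R k a b i)
    (hR : ∀ k b, ∑ i, ∑ m, P m i * R k m b i = ∑ m, P k m * Ric m b) :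
    ∑ i, ∑ a, P i a * w1 a * (∑ j, ∑ k, P j k * ND i j k)
      - ∑ i, ∑ a, ∑ b, P i a * W b * ND i a b = - ∑ m, ∑ b, Ric m b * W m * W b := by
  have e1 : ∑ i, ∑ a, P i a * w1 a * (∑ j, ∑ k, P j k * ND i j k) =
      ∑ b, W b * ∑ i, ∑ a, P i a * ND b i a := by
    refine Finset.sum_congr rfl fun i _ => ?_
    rw [← Finset.sum_mul, hW]
  have e2 : ∑ b, W b * (∑ i, ∑ a, P i a * ND b i a) - ∑ i, ∑ a, ∑ b, P i a * W b * ND i a b =
      ∑ b, W b * ∑ i, ∑ a, P i a * (ND b i a - ND i a b) := by
    simp only [Fin.sum_univ_three]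
    ring
  rw [e1, e2]
  simp only [hc]
  have e4 : ∀ b, ∑ i, ∑ a, P i a * (- ∑ k, w1 k * R k a b i) =
      - ∑ k, w1 k * ∑ i, ∑ m, P m i * R k m b i := by
    intro b
    have : ∑ i, ∑ a, P i a * (- ∑ k, w1 k * R k a b i) =
        ∑ i, ∑ a, P a i * (- ∑ k, w1 k * R k a b i) := by
      refine Finset.sum_congr rfl fun i _ => Finset.sum_congr rfl fun a _ => ?_
      rw [hP i a]
    rw [this]
    simp only [Fin.sum_univ_three]
    ring
  simp only [e4, hR]
  have e5 : ∀ b, ∑ k, w1 k * ∑ m, P k m * Ric m b = ∑ m, W m * Ric m b := by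
    intro b
    have : ∑ k, w1 k * ∑ m, P k m * Ric m b = ∑ k, w1 k * ∑ m, P m k * Ric m b := by
      refine Finset.sum_congr rfl fun k _ => ?_
      congr 1
      refine Finset.sum_congr rfl fun m _ => ?_
      rw [hP k m]
    rw [this]
    simp only [hW, Fin.sum_univ_three]
    ring
  simp only [e5]
  simp only [Fin.sum_univ_three]
  ring

end MBO

open MBO

/-- **(BO)** The contracted Bochner formula. -/
theorem BO : Stmt_BO := by
  intro U g w hU hg hw x hx
  have hwx : ∀ y ∈ U, ContDiffAt ℝ ∞ w y := fun y hy => hw.contDiffAt (hU.mem_nhds hy)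
  have hw1 : ∀ y ∈ U, ∀ a, ContDiffAt ℝ ∞ (pd a w) y := fun y hy a => cd_pd (hwx y hy) a
  have hw2 : ∀ y ∈ U, ∀ a b, ContDiffAt ℝ ∞ (pd a (pd b w)) y := fun y hy a b =>
    cd_pd (hw1 y hy b) a
  let H : Fin 3 → Fin 3 → E3 → ℝ := fun a b y =>
    pd a (pd b w) y - ∑ k, christoffel g k a b y * pd k w y
  let T : E3 → ℝ := fun y => ∑ j, ∑ k, iv g j k y * H j k y
  let W : Fin 3 → E3 → ℝ := fun b y => ∑ c, iv g b c y * pd c w y
  let Y : Fin 3 → E3 → ℝ := fun a y => T y * pd a w y - ∑ b, H a b y * W b y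
  change ∑ i, pd i (fun y => volDen g y * ∑ a, iv g i a y * Y a y) x =
    volDen g x * (T x ^ 2 - (∑ i, ∑ j, ∑ k, ∑ l, iv g i k x * iv g j l x * H i j x * H k l x)
      - ∑ i, ∑ j, ricci g i j x * W i x * W j x)
  -- derivatives
  have dH : ∀ i a b, HP i (H a b) (pd i (pd a (pd b w)) x -
      ∑ k, (christoffel g k a b x * pd i (pd k w) x + pd k w x * pd i (christoffel g k a b) x))
      x := fun i a b =>
    (HP.of_diff (df (hw2 x hx a b))).sub (HP.sum fun k =>
      (HP.of_diff (df (cd_chr hU hg hx k a b))).mul (HP.of_diff (df (hw1 x hx k))))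
  have dT : ∀ i, HP i T _ x := fun i => hp_tr hU hg hx H (fun j k => (dH i j k).diff) i
  have dW : ∀ i b, HP i (W b) _ x := fun i b =>
    hp_up hU hg hx (fun c => pd c w) (fun c => df (hw1 x hx c)) i b
  have dY := fun i a => ((dT i).mul (HP.of_diff (df (hw1 x hx a)))).sub
    (HP.sum fun b => (HP.of_diff (dH i a b).diff).mul (dW i b))
  have hdiv := div_eq hU hg hx Y (fun a => (dY 0 a).diff)
  rw [hdiv]
  have e0 : ∀ i a, pd i (Y a) x = _ := fun i a => (dY i a).val
  simp only [e0]
  congr 1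
  have hs2 : ∀ y ∈ U, ∀ a b, pd a (pd b w) y = pd b (pd a w) y := fun y hy a b =>
    MBO.pd_comm (hwx y hy) a b
  have hH : ∀ a b, H a b x = pd a (pd b w) x - ∑ k, christoffel g k a b x * pd k w x :=
    fun _ _ => rfl
  have hHs : ∀ a b, H a b x = H b a x := by
    intro a b
    rw [hH, hH, hs2 x hx a b]
    congr 1
    refine Finset.sum_congr rfl fun k _ => ?_
    rw [symm_chr hU hg hx k a b]
  have key := main_alg1 (fun i j => iv g i j x) (fun k i j => christoffel g k i j x)
    (fun a => pd a w x) (fun a => W a x) (fun a b => pd a (pd b w) x) (fun a b => H a b x)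
    (fun i a b => pd i (H a b) x) (T x)
    (fun i => ∑ j, ∑ k, iv g j k x * (pd i (H j k) x - ∑ l, christoffel g l i j x * H l k x
        - ∑ l, christoffel g l i k x * H j l x)) hH
  refine Eq.trans ?_ (key.trans ?_)
  · rfl
  -- third derivatives
  have h3 : ∀ b i a, pd b (pd i (pd a w)) x = pd i (pd a (pd b w)) x := by
    intro b i a
    rw [MBO.pd_comm (hw1 x hx a) b i]
    refine pd_congr ?_
    filter_upwards [hU.mem_nhds hx] with y hy
    exact hs2 y hy b a
  have hcomm : ∀ b i a, (pd b (H i a) x - ∑ l, christoffel g l b i x * H l a x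
        - ∑ l, christoffel g l b a x * H i l x)
      - (pd i (H a b) x - ∑ l, christoffel g l i a x * H l b x
        - ∑ l, christoffel g l i b x * H a l x) =
      - ∑ k, pd k w x * Rm (fun k i j => christoffel g k i j x)
        (fun l k i j => pd l (christoffel g k i j) x) k a b i := by
    intro b i a
    rw [(dH b i a).val, (dH i a b).val]
    exact comm_alg (fun k i j => christoffel g k i j x)
      (fun l k i j => pd l (christoffel g k i j) x) (fun a => pd a w x)
      (fun a b => pd a (pd b w) x) (fun i j k => pd i (pd j (pd k w)) x) (fun a b => H a b x)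
      (symm_chr hU hg hx) (symm_pd_chr hU hg hx) hH hHs b i a (h3 b i a)
  have hid : ∀ k a b i, ∑ m, (iv g m a x * Rm (fun k i j => christoffel g k i j x)
        (fun l k i j => pd l (christoffel g k i j) x) k m b i +
      iv g k m x * Rm (fun k i j => christoffel g k i j x)
        (fun l k i j => pd l (christoffel g k i j) x) a m b i) = 0 := by
    intro k a b i
    apply id_alg (fun i j => iv g i j x) (fun k i j => christoffel g k i j x)
      (fun l k i j => pd l (christoffel g k i j) x) k a b i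
    have h4 := MBO.pd_comm (cd_iv hU hg hx k a) b i
    rw [pd_pd_iv hU hg hx, pd_pd_iv hU hg hx] at h4
    exact h4
  have hric := ric_alg (fun i j => iv g i j x) (fun k i j => christoffel g k i j x)
    (fun l k i j => pd l (christoffel g k i j) x) (symm_chr hU hg hx) (symm_pd_chr hU hg hx) hid
  have key2 := main_alg2 (fun i j => iv g i j x) (fun a => pd a w x) (fun a => W a x)
    (fun i a b => pd i (H a b) x - ∑ l, christoffel g l i a x * H l b x
        - ∑ l, christoffel g l i b x * H a l x)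
    (Rm (fun k i j => christoffel g k i j x) (fun l k i j => pd l (christoffel g k i j) x))
    (fun i j => ricci g i j x) (symm_iv hg hx) (fun _ => rfl) hcomm hric
  have hdd : ∑ i, ∑ a, ∑ b, iv g i a x * H a b x * (∑ c, iv g b c x * H i c x) =
      ∑ i, ∑ j, ∑ k, ∑ l, iv g i k x * iv g j l x * H i j x * H k l x := by
    have : ∑ i, ∑ a, ∑ b, iv g i a x * H a b x * (∑ c, iv g b c x * H i c x) =
        ∑ i, ∑ a, ∑ b, iv g a i x * H a b x * (∑ c, iv g b c x * H i c x) := by
      refine Finset.sum_congr rfl fun i _ => Finset.sum_congr rfl fun a _ => ?_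
      rw [symm_iv hg hx i a]
    rw [this]
    generalize hp : (fun i j => iv g i j x) = P
    generalize hh : (fun i j => H i j x) = K
    have p1 : ∀ i j, iv g i j x = P i j := fun i j => congrFun (congrFun hp i) j
    have p2 : ∀ i j, H i j x = K i j := fun i j => congrFun (congrFun hh i) j
    simp only [p1, p2]
    simp only [Fin.sum_univ_three]
    ring
  have hT : ∑ i, ∑ a, iv g i a x * H i a x = T x := rfl
  rw [hdd, hT]
  linarith [key2]

end Pool.Agent.PFlow


end

section

/-!
# IB: integration by parts with a Lipschitz function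
-/

open MeasureTheory Filter Topology
open scoped ContDiff Manifold

namespace Pool.Agent.PFlow

open Pool.Agent.PenroseSph

namespace MIB

/-- A smooth cut-off function. -/
theorem exists_cutoff {K U : Set E3} (hK : IsCompact K) (hU : IsOpen U) (hKU : K ⊆ U) :
    ∃ χ : E3 → ℝ, ContDiff ℝ ∞ χ ∧ HasCompactSupport χ ∧ tsupport χ ⊆ U ∧
      ∀ᶠ x in 𝓝ˢ K, χ x = 1 := by
  obtain ⟨L, hL, hKL, hLU⟩ := exists_compact_between hK hU hKU
  obtain ⟨f, hf1, hf0, -⟩ := exists_contMDiffMap_one_nhds_of_subset_interior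
    (n := (⊤ : ℕ∞)) (I := 𝓘(ℝ, E3)) hK.isClosed hKL
  have hsup : tsupport (f : E3 → ℝ) ⊆ L := by
    refine closure_minimal ?_ hL.isClosed
    intro x hx
    by_contra hxL
    exact hx (hf0 x hxL)
  refine ⟨f, f.contMDiff.contDiff, ?_, hsup.trans hLU, hf1⟩
  exact hL.of_isClosed_subset (isClosed_tsupport _) hsup

theorem one_direction (U : Set E3) (F : E3 → ℝ) (f : E3 → ℝ) (C : NNReal) (i : Fin 3)
    (hU : IsOpen U) (hF : ContDiffOn ℝ 1 F U) (hf : LipschitzWith C f) (hc : HasCompactSupport f)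
    (hs : tsupport f ⊆ U) :
    Integrable (fun x => f x * pd i F x) ∧ Integrable (fun x => pd i f x * F x) ∧
      ∫ x, f x * pd i F x = - ∫ x, pd i f x * F x := by
  obtain ⟨χ, hχ, hχc, hχs, hχ1⟩ := exists_cutoff hc hU hs
  set G : E3 → ℝ := fun x => χ x * F x with hG
  have hGc : HasCompactSupport G := hχc.mul_right
  have hG1 : ContDiff ℝ 1 G := by
    rw [contDiff_iff_contDiffAt]
    intro x
    by_cases hx : x ∈ tsupport χ
    · exact (hχ.of_le (by exact_mod_cast le_top)).contDiffAt.mul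
        (hF.contDiffAt (hU.mem_nhds (hχs hx)))
    · have h0 : G =ᶠ[𝓝 x] fun _ => 0 := by
        have : (tsupport χ)ᶜ ∈ 𝓝 x := (isClosed_tsupport χ).isOpen_compl.mem_nhds hx
        filter_upwards [this] with y hy
        have : χ y = 0 := image_eq_zero_of_notMem_tsupport hy
        simp [hG, this]
      exact contDiffAt_const.congr_of_eventuallyEq h0
  obtain ⟨D, hD⟩ := ContDiff.lipschitzWith_of_hasCompactSupport hGc hG1 one_ne_zero
  -- near the support of `f` the functions agree
  have hloc : ∀ x ∈ tsupport f, G =ᶠ[𝓝 x] F := by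
    intro x hx
    have := (eventually_nhdsSet_iff_forall.1 hχ1) x hx
    filter_upwards [this] with y hy
    simp [hG, hy]
  have e1 : ∀ x, f x * pd i F x = f x * pd i G x := by
    intro x
    by_cases hx : x ∈ tsupport f
    · unfold pd
      rw [(hloc x hx).fderiv_eq]
    · rw [image_eq_zero_of_notMem_tsupport hx, zero_mul, zero_mul]
  have hpd0 : ∀ x, x ∉ tsupport f → pd i f x = 0 := by
    intro x hx
    have h0 : f =ᶠ[𝓝 x] fun _ => 0 := by
      have : (tsupport f)ᶜ ∈ 𝓝 x := (isClosed_tsupport f).isOpen_compl.mem_nhds hx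
      filter_upwards [this] with y hy
      exact image_eq_zero_of_notMem_tsupport hy
    unfold pd
    rw [h0.fderiv_eq]
    simp
  have e2 : ∀ x, pd i f x * F x = pd i f x * G x := by
    intro x
    by_cases hx : x ∈ tsupport f
    · rw [(hloc x hx).eq_of_nhds]
    · rw [hpd0 x hx, zero_mul, zero_mul]
  have hpdc : Continuous (pd i G) := by
    unfold pd
    exact (hG1.continuous_fderiv one_ne_zero).clm_apply continuous_const
  have hae : ∀ᵐ x : E3, lineDeriv ℝ f x (EuclideanSpace.single i 1) = pd i f x := by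
    filter_upwards [hf.ae_differentiableAt_of_real (μ := volume)] with x hx
    exact hx.lineDeriv_eq_fderiv
  have key := hD.integral_lineDeriv_mul_eq (μ := volume) hf hc (EuclideanSpace.single i 1)
  have k1 : ∫ x, lineDeriv ℝ G x (EuclideanSpace.single i 1) * f x = ∫ x, f x * pd i G x := by
    refine integral_congr_ae (Eventually.of_forall fun x => ?_)
    change lineDeriv ℝ G x (EuclideanSpace.single i 1) * f x = f x * pd i G x
    rw [((hG1.differentiable one_ne_zero) x).lineDeriv_eq_fderiv, mul_comm]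
    rfl
  have k2 : ∫ x, lineDeriv ℝ f x (-(EuclideanSpace.single i 1)) * G x =
      - ∫ x, pd i f x * G x := by
    rw [← integral_neg]
    refine integral_congr_ae ?_
    filter_upwards [hae] with x hx
    rw [lineDeriv_neg, hx, neg_mul]
  rw [k1, k2] at key
  refine ⟨?_, ?_, ?_⟩
  · simp only [e1]
    exact (hf.continuous.mul hpdc).integrable_of_hasCompactSupport hc.mul_right
  · simp only [e2]
    have hGi : Integrable G := hG1.continuous.integrable_of_hasCompactSupport hGc
    refine hGi.bdd_mul (c := C * ‖(EuclideanSpace.single i (1 : ℝ) : E3)‖) ?_ ?_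
    · exact (measurable_fderiv_apply_const ℝ f _).aestronglyMeasurable
    · refine Eventually.of_forall fun x => ?_
      exact (ContinuousLinearMap.le_opNorm _ _).trans
        (mul_le_mul_of_nonneg_right (norm_fderiv_le_of_lipschitz ℝ hf) (norm_nonneg _))
  · simp only [e1, e2]
    exact key

end MIB

theorem IB : Stmt_IB := by
  intro U F f C hU hF hf hc hs
  have h := fun i => MIB.one_direction U (F i) f C i hU (hF i) hf hc hs
  simp only [Finset.mul_sum]
  rw [integral_finsetSum _ fun i _ => (h i).1, integral_finsetSum _ fun i _ => (h i).2.1,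
    ← Finset.sum_neg_distrib]
  exact Finset.sum_congr rfl fun i _ => (h i).2.2

end Pool.Agent.PFlow


end
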