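import Mathlib
import Pool.Agent.PFlow.StmtsE2
import Pool.Agent.PFlow.StmtsM
import Pool.Agent.PenroseM.C05
import Pool.Agent.PenroseM.C06
import Pool.Agent.PenroseM.C14
import Pool.Agent.PenroseM.C44

/-! Parts: PFlow.P.NDiv, PFlow.M_AP, PFlow.M_APW, PFlow.E.FLX, PFlow.E.LIM -/

section

/-!
# Block P, module NDIV: the equation in nondivergence form
-/

open MeasureTheory Filter Topology Set
open scoped ContDiff RealInnerProductSpace ENNReal

namespace Pool.Agent.PFlow.PB

open Pool.Agent.PenroseSph Pool.Agent.PFlow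

namespace NDivAux

/-- The joint map. -/
def jt (A : E3 → E3 → E3) (z : E3 × E3) : E3 := A z.1 z.2

theorem pd_comm (f : E3 → ℝ) (h : ContDiff ℝ 2 f) (i k : Fin 3) (x : E3) :
    pd k (pd i f) x = pd i (pd k f) x := by
  have h1 : ∀ (i k : Fin 3), pd k (pd i f) x = fderiv ℝ (fderiv ℝ f) x (ee k) (ee i) := by
    intro i k
    have hd : DifferentiableAt ℝ (fderiv ℝ f) x :=
      (h.fderiv_right (m := 1) (by norm_num)).differentiable (by norm_num) x
    have h2 : HasFDerivAt (fun y => fderiv ℝ f y (ee i))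
        ((ContinuousLinearMap.apply ℝ ℝ (ee i)).comp (fderiv ℝ (fderiv ℝ f) x)) x :=
      (ContinuousLinearMap.apply ℝ ℝ (ee i)).hasFDerivAt.comp x hd.hasFDerivAt
    show fderiv ℝ (fun y => fderiv ℝ f y (ee i)) x (ee k) = _
    rw [h2.fderiv]
    rfl
  rw [h1, h1]
  have hs := (h.contDiffAt (x := x)).isSymmSndFDerivAt (by simp)
  exact hs (ee k) (ee i)

theorem gr_diff (f : E3 → ℝ) (h : ContDiff ℝ ∞ f) : ContDiff ℝ ∞ (gr f) := by
  rw [contDiff_euclidean]
  intro i
  exact (h.fderiv_right (m := ∞) (by simp)).clm_apply contDiff_const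

theorem fderiv_gr (f : E3 → ℝ) (h : ContDiff ℝ ∞ f) (i : Fin 3) (x : E3) :
    fderiv ℝ (gr f) x (ee i) = hs f i x := by
  have hd : DifferentiableAt ℝ (gr f) x := (gr_diff f h).differentiable (by simp) x
  ext k
  have h1 : HasFDerivAt (fun y => gr f y k)
      ((EuclideanSpace.proj k : E3 →L[ℝ] ℝ).comp (fderiv ℝ (gr f) x)) x :=
    (EuclideanSpace.proj k : E3 →L[ℝ] ℝ).hasFDerivAt.comp x hd.hasFDerivAt
  have h2 : pd i (pd k f) x = fderiv ℝ (gr f) x (ee i) k := by
    show fderiv ℝ (fun y => gr f y k) x (ee i) = _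
    rw [h1.fderiv]
    rfl
  rw [← h2, pd_comm f (by exact_mod_cast contDiff_infty.1 h 2)]
  rfl

theorem opA_eq (A : E3 → E3 → E3) (hA : ContDiff ℝ ∞ (jt A)) (x ξ : E3) (M : Fin 3 → E3) :
    opA A x ξ M = ∑ i, (fderiv ℝ (jt A) (x, ξ) (ee i, M i)) i := by
  have hd : DifferentiableAt ℝ (jt A) (x, ξ) := hA.differentiable (by simp) _
  have h1 : HasFDerivAt (fun y => A y ξ)
      ((fderiv ℝ (jt A) (x, ξ)).comp (ContinuousLinearMap.inl ℝ E3 E3)) x := by
    have := hd.hasFDerivAt.comp x (hasFDerivAt_prodMk_left (𝕜 := ℝ) x ξ)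
    exact this
  have h2 : HasFDerivAt (A x)
      ((fderiv ℝ (jt A) (x, ξ)).comp (ContinuousLinearMap.inr ℝ E3 E3)) ξ := by
    have := hd.hasFDerivAt.comp ξ (hasFDerivAt_prodMk_right (𝕜 := ℝ) x ξ)
    exact this
  unfold opA
  rw [h1.fderiv, h2.fderiv, ← Finset.sum_add_distrib]
  refine Finset.sum_congr rfl fun i _ => ?_
  have h3 : ((ee i, M i) : E3 × E3) = (ee i, 0) + (0, M i) := by simp
  rw [h3, map_add]
  rfl

theorem opA_cont (A : E3 → E3 → E3) (hA : ContDiff ℝ ∞ (jt A)) :
    Continuous (fun q : E3 × E3 × (Fin 3 → E3) => opA A q.1 q.2.1 q.2.2) := by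
  have h : (fun q : E3 × E3 × (Fin 3 → E3) => opA A q.1 q.2.1 q.2.2) =
      fun q => ∑ i, (fderiv ℝ (jt A) (q.1, q.2.1) (ee i, q.2.2 i)) i := by
    funext q
    exact opA_eq A hA _ _ _
  rw [h]
  have hc : Continuous (fderiv ℝ (jt A)) := hA.continuous_fderiv (by simp)
  refine continuous_finsetSum _ fun i _ => ?_
  refine (EuclideanSpace.proj i : E3 →L[ℝ] ℝ).continuous.comp ?_
  refine (hc.comp (continuous_fst.prodMk (continuous_fst.comp continuous_snd))).clm_apply ?_
  exact continuous_const.prodMk ((continuous_apply i).comp (continuous_snd.comp continuous_snd))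

theorem opA_tendsto (A : E3 → E3 → E3) (hA : ContDiff ℝ ∞ (jt A)) (x : E3) (X : ℕ → E3) (X0 : E3)
    (Y : ℕ → Fin 3 → E3) (Y0 : Fin 3 → E3) (hX : Tendsto X atTop (𝓝 X0))
    (hY : ∀ i, Tendsto (fun k => Y k i) atTop (𝓝 (Y0 i))) :
    Tendsto (fun k => opA A x (X k) (Y k)) atTop (𝓝 (opA A x X0 Y0)) := by
  have c3 : Tendsto (fun k => (x, X k, Y k)) atTop (𝓝 (x, X0, Y0)) :=
    tendsto_const_nhds.prodMk_nhds (hX.prodMk_nhds (tendsto_pi_nhds.2 hY))
  have c4 := ((opA_cont A hA).tendsto (x, X0, Y0)).comp c3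
  simp only [Function.comp_def] at c4
  exact c4

theorem opA_meas (A : E3 → E3 → E3) (hA : ContDiff ℝ ∞ (jt A)) (X : E3 → E3)
    (Y : Fin 3 → E3 → E3) (hX : MemLp X 2) (hY : ∀ i, MemLp (Y i) 2) :
    AEStronglyMeasurable (fun x => opA A x (X x) (fun i => Y i x)) volume := by
  have e0 : AEStronglyMeasurable (fun x => fun i => Y i x) volume :=
    (aemeasurable_pi_lambda _ fun i => (hY i).1.aemeasurable).aestronglyMeasurable
  have e1 : AEStronglyMeasurable (fun x => (x, X x, fun i => Y i x)) volume :=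
    aestronglyMeasurable_id.prodMk (hX.1.prodMk e0)
  have e2 := (opA_cont A hA).comp_aestronglyMeasurable e1
  exact e2

theorem opA_bound {A : E3 → E3 → E3} {B : E3 → E3 → ℝ} {c L r : ℝ} (hP : PCoef A B c L r)
    (x ξ : E3) (M : Fin 3 → E3) : |opA A x ξ M| ≤ 3 * L * (‖ξ‖ + ∑ i, ‖M i‖) := by
  have hL : 0 ≤ L := hP.c_pos.le.trans hP.c_le
  have h1 : ‖fderiv ℝ (fun y => A y ξ) x‖ ≤ L * ‖ξ‖ := by
    have hl : LipschitzWith (Real.toNNReal (L * ‖ξ‖)) (fun y => A y ξ) := by
      refine LipschitzWith.of_dist_le_mul fun y z => ?_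
      rw [dist_eq_norm, dist_eq_norm, Real.coe_toNNReal _ (by positivity)]
      have := hP.lipx y z ξ
      linarith
    have := norm_fderiv_le_of_lipschitz ℝ hl (x₀ := x)
    rwa [Real.coe_toNNReal _ (by positivity)] at this
  have h2 : ‖fderiv ℝ (A x) ξ‖ ≤ L := by
    have hl : LipschitzWith (Real.toNNReal L) (A x) := by
      refine LipschitzWith.of_dist_le_mul fun y z => ?_
      rw [dist_eq_norm, dist_eq_norm, Real.coe_toNNReal _ hL]
      exact hP.lipA x y z
    have := norm_fderiv_le_of_lipschitz ℝ hl (x₀ := ξ)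
    rwa [Real.coe_toNNReal _ hL] at this
  have h3 : ∀ i, |(fderiv ℝ (fun y => A y ξ) x (ee i)) i| ≤ L * ‖ξ‖ := by
    intro i
    refine (abs_comp_le _ i).trans (((fderiv ℝ (fun y => A y ξ) x).le_opNorm _).trans ?_)
    have : ‖ee i‖ = 1 := by simp [ee]
    rw [this, mul_one]
    exact h1
  have h4 : ∀ i, |(fderiv ℝ (A x) ξ (M i)) i| ≤ L * ‖M i‖ := by
    intro i
    refine (abs_comp_le _ i).trans (((fderiv ℝ (A x) ξ).le_opNorm _).trans ?_)
    exact mul_le_mul_of_nonneg_right h2 (norm_nonneg _)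
  have a0 := abs_le.1 (h3 0)
  have a1 := abs_le.1 (h3 1)
  have a2 := abs_le.1 (h3 2)
  have b0 := abs_le.1 (h4 0)
  have b1 := abs_le.1 (h4 1)
  have b2 := abs_le.1 (h4 2)
  have n0 := mul_nonneg hL (norm_nonneg (M 0))
  have n1 := mul_nonneg hL (norm_nonneg (M 1))
  have n2 := mul_nonneg hL (norm_nonneg (M 2))
  unfold opA
  simp only [Fin.sum_univ_three]
  rw [abs_le]
  constructor
  · nlinarith
  · nlinarith

theorem dv_comp {A : E3 → E3 → E3} (hA : ContDiff ℝ ∞ (jt A)) {f : E3 → ℝ}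
    (h : ContDiff ℝ ∞ f) (x : E3) :
    dv (fun y => A y (gr f y)) x = opA A x (gr f x) (fun i => hs f i x) := by
  rw [opA_eq A hA]
  unfold dv
  refine Finset.sum_congr rfl fun i _ => ?_
  have hd : DifferentiableAt ℝ (jt A) (x, gr f x) := hA.differentiable (by simp) _
  have hg : DifferentiableAt ℝ (gr f) x := (gr_diff f h).differentiable (by simp) x
  have h1 : HasFDerivAt (fun y => A y (gr f y))
      ((fderiv ℝ (jt A) (x, gr f x)).comp
        ((ContinuousLinearMap.id ℝ E3).prod (fderiv ℝ (gr f) x))) x := by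
    have := hd.hasFDerivAt.comp x ((hasFDerivAt_id (𝕜 := ℝ) x).prodMk hg.hasFDerivAt)
    exact this
  rw [h1.fderiv, ContinuousLinearMap.comp_apply, ContinuousLinearMap.prod_apply,
    fderiv_gr f h]
  rfl

end NDivAux

open NDivAux in
theorem ndiv_thm (h1 : API1) (h2 : API2) (hd : DENS) (_hs : SYMM) : NDIV := by
  intro A B c L r Θ θ T t₀ hP hPen u G M hW hH
  have hL : 0 ≤ L := hP.c_pos.le.trans hP.c_le
  have hA : ContDiff ℝ ∞ (jt A) := hP.smoothA
  have hAc : Continuous (jt A) := hA.continuous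
  have hAb : ∀ x ξ, ‖A x ξ‖ ≤ L * ‖ξ‖ := by
    intro x ξ
    have := hP.lipA x ξ 0
    rwa [hP.A_zero, sub_zero, sub_zero] at this
  have hBb : ∀ x ξ, |B x ξ| ≤ L * ‖ξ‖ := by
    intro x ξ
    have := hP.lipB x ξ 0
    rwa [hP.B_zero, sub_zero, sub_zero] at this
  obtain ⟨φn, hT, -, hgr, hhs, -⟩ := hd u G M hH
  have hGm : MemLp G 2 := hH.h1.memG
  have hMm : ∀ i, MemLp (M i) 2 := fun i => (hH.h2 i).memG
  have hgm : ∀ n, MemLp (gr (φn n)) 2 := fun n => gr_memLp _ (hT n).one (hT n).cpt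
  have hpdT : ∀ n i, Test (pd i (φn n)) := fun n i =>
    ⟨((hT n).smooth.fderiv_right (m := ∞) (by simp)).clm_apply contDiff_const,
      pd_cpt _ (hT n).cpt i⟩
  have hhm : ∀ n i, MemLp (hs (φn n) i) 2 := fun n i =>
    gr_memLp _ (hpdT n i).one (hpdT n i).cpt
  -- the functions `D` and `d n`
  let D : E3 → ℝ := fun x => ‖G x‖ + ∑ i, ‖M i x‖
  let dn : ℕ → E3 → ℝ := fun n x => ‖gr (φn n) x - G x‖ + ∑ i, ‖hs (φn n) i x - M i x‖
  have hDm : MemLp D 2 := by
    have e : D = fun x => ‖G x‖ + (‖M 0 x‖ + ‖M 1 x‖ + ‖M 2 x‖) := by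
      funext x
      simp only [D, Fin.sum_univ_three]
    rw [e]
    exact hGm.norm.add (((hMm 0).norm.add (hMm 1).norm).add (hMm 2).norm)
  have hdm : ∀ n, MemLp (dn n) 2 := by
    intro n
    have e : dn n = fun x => ‖gr (φn n) x - G x‖ + (‖hs (φn n) 0 x - M 0 x‖ +
        ‖hs (φn n) 1 x - M 1 x‖ + ‖hs (φn n) 2 x - M 2 x‖) := by
      funext x
      simp only [dn, Fin.sum_univ_three]
    rw [e]
    exact ((hgm n).sub hGm).norm.add (((((hhm n 0).sub (hMm 0)).norm.add
      ((hhm n 1).sub (hMm 1)).norm)).add ((hhm n 2).sub (hMm 2)).norm)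
  have hd0 : ∀ n x, 0 ≤ dn n x := fun n x => by positivity
  have hD0 : ∀ x, 0 ≤ D x := fun x => by positivity
  have hdt : Tendsto (fun n => sq (dn n)) atTop (𝓝 0) := by
    have e1 : Tendsto (fun n => 4 * (sqv (fun x => gr (φn n) x - G x) +
        (sqv (fun x => hs (φn n) 0 x - M 0 x) + sqv (fun x => hs (φn n) 1 x - M 1 x) +
          sqv (fun x => hs (φn n) 2 x - M 2 x)))) atTop (𝓝 0) := by
      have := (hgr.add (((hhs 0).add (hhs 1)).add (hhs 2))).const_mul 4
      simpa using this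
    refine squeeze_zero (fun n => sq_nonneg' _) (fun n => ?_) e1
    have i0 : Integrable (fun x => ‖gr (φn n) x - G x‖ ^ 2) := int_sq _ ((hgm n).sub hGm)
    have ii : ∀ i, Integrable (fun x => ‖hs (φn n) i x - M i x‖ ^ 2) := fun i =>
      int_sq _ ((hhm n i).sub (hMm i))
    have i1 := ii 0
    have i2 := ii 1
    have i3 := ii 2
    have i12 : Integrable (fun x => ‖hs (φn n) 0 x - M 0 x‖ ^ 2 + ‖hs (φn n) 1 x - M 1 x‖ ^ 2) :=
      i1.add i2
    have i123 : Integrable (fun x => ‖hs (φn n) 0 x - M 0 x‖ ^ 2 + ‖hs (φn n) 1 x - M 1 x‖ ^ 2 +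
        ‖hs (φn n) 2 x - M 2 x‖ ^ 2) := i12.add i3
    have e2 : 4 * (sqv (fun x => gr (φn n) x - G x) +
        (sqv (fun x => hs (φn n) 0 x - M 0 x) + sqv (fun x => hs (φn n) 1 x - M 1 x) +
          sqv (fun x => hs (φn n) 2 x - M 2 x))) =
        ∫ x, 4 * (‖gr (φn n) x - G x‖ ^ 2 + (‖hs (φn n) 0 x - M 0 x‖ ^ 2 +
          ‖hs (φn n) 1 x - M 1 x‖ ^ 2 + ‖hs (φn n) 2 x - M 2 x‖ ^ 2)) := by
      rw [integral_const_mul]
      congr 1
      show (∫ x, ‖gr (φn n) x - G x‖ ^ 2) + ((∫ x, ‖hs (φn n) 0 x - M 0 x‖ ^ 2) +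
        (∫ x, ‖hs (φn n) 1 x - M 1 x‖ ^ 2) + ∫ x, ‖hs (φn n) 2 x - M 2 x‖ ^ 2) = _
      rw [← integral_add i1 i2, ← integral_add i12 i3, ← integral_add i0 i123]
    rw [e2]
    unfold sq
    refine integral_mono ?_ ?_ ?_
    · have := int_sq _ (hdm n)
      simpa [Real.norm_eq_abs, sq_abs] using this
    · exact (i0.add i123).const_mul 4
    · intro x
      simp only [dn, Fin.sum_univ_three]
      have p0 := norm_nonneg (gr (φn n) x - G x)
      have p1 := norm_nonneg (hs (φn n) 0 x - M 0 x)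
      have p2 := norm_nonneg (hs (φn n) 1 x - M 1 x)
      have p3 := norm_nonneg (hs (φn n) 2 x - M 2 x)
      nlinarith [sq_nonneg (‖gr (φn n) x - G x‖ - ‖hs (φn n) 0 x - M 0 x‖),
        sq_nonneg (‖gr (φn n) x - G x‖ - ‖hs (φn n) 1 x - M 1 x‖),
        sq_nonneg (‖gr (φn n) x - G x‖ - ‖hs (φn n) 2 x - M 2 x‖),
        sq_nonneg (‖hs (φn n) 0 x - M 0 x‖ - ‖hs (φn n) 1 x - M 1 x‖),
        sq_nonneg (‖hs (φn n) 0 x - M 0 x‖ - ‖hs (φn n) 2 x - M 2 x‖),
        sq_nonneg (‖hs (φn n) 1 x - M 1 x‖ - ‖hs (φn n) 2 x - M 2 x‖)]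
  -- an a.e. convergent subsequence
  obtain ⟨ns, hns, hae⟩ : ∃ ns : ℕ → ℕ, StrictMono ns ∧
      ∀ᵐ x, Tendsto (fun k => dn (ns k) x) atTop (𝓝 0) := by
    have e1 : Tendsto (fun n => eLpNorm (dn n - 0) 2 volume) atTop (𝓝 0) := by
      refine (tend_iff (0 : E3 → ℝ) dn MemLp.zero hdm).1 ?_
      refine hdt.congr fun n => ?_
      rw [sq_eq]
      simp
    have e2 := tendstoInMeasure_of_tendsto_eLpNorm (by norm_num) (fun n => (hdm n).1)
      aestronglyMeasurable_zero e1
    exact e2.exists_seq_tendsto_ae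
  let F : E3 → ℝ := fun x => opA A x (G x) (fun i => M i x)
  let Fn : ℕ → E3 → ℝ := fun n x => opA A x (gr (φn n) x) (fun i => hs (φn n) i x)
  have hmeas := opA_meas A hA
  have hFb : ∀ x, |F x| ≤ 3 * L * D x := fun x => opA_bound hP _ _ _
  have hFm : MemLp F 2 := by
    refine MemLp.of_le_mul (c := 3 * L) hDm (hmeas G M hGm hMm) (Eventually.of_forall fun x => ?_)
    rw [Real.norm_eq_abs, Real.norm_eq_abs, abs_of_nonneg (hD0 x)]
    exact hFb x
  have hFnb : ∀ n x, |Fn n x| ≤ 3 * L * (dn n x + D x) := by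
    intro n x
    refine (opA_bound hP _ _ _).trans ?_
    refine mul_le_mul_of_nonneg_left ?_ (by positivity)
    have t0 : ‖gr (φn n) x‖ ≤ ‖gr (φn n) x - G x‖ + ‖G x‖ := by
      have := norm_add_le (gr (φn n) x - G x) (G x)
      rwa [sub_add_cancel] at this
    have t1 : ∀ i, ‖hs (φn n) i x‖ ≤ ‖hs (φn n) i x - M i x‖ + ‖M i x‖ := by
      intro i
      have := norm_add_le (hs (φn n) i x - M i x) (M i x)
      rwa [sub_add_cancel] at this
    have t2 := Finset.sum_le_sum fun i (_ : i ∈ Finset.univ) => t1 i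
    rw [Finset.sum_add_distrib] at t2
    show _ ≤ (‖gr (φn n) x - G x‖ + ∑ i, ‖hs (φn n) i x - M i x‖) + (‖G x‖ + ∑ i, ‖M i x‖)
    linarith
  have hFnm : ∀ n, MemLp (Fn n) 2 := by
    intro n
    refine MemLp.of_le_mul (c := 3 * L) ((hdm n).add hDm) (hmeas _ _ (hgm n) (hhm n))
      (Eventually.of_forall fun x => ?_)
    rw [Real.norm_eq_abs, Real.norm_eq_abs, abs_of_nonneg
      (show 0 ≤ (dn n + D) x from add_nonneg (hd0 n x) (hD0 x))]
    exact hFnb n x
  have hFae : ∀ᵐ x, Tendsto (fun k => Fn (ns k) x) atTop (𝓝 (F x)) := by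
    filter_upwards [hae] with x hx
    have c1 : Tendsto (fun k => gr (φn (ns k)) x) atTop (𝓝 (G x)) := by
      rw [tendsto_iff_norm_sub_tendsto_zero]
      refine squeeze_zero (fun k => norm_nonneg _) (fun k => ?_) hx
      have : 0 ≤ ∑ i, ‖hs (φn (ns k)) i x - M i x‖ := by positivity
      show _ ≤ ‖gr (φn (ns k)) x - G x‖ + ∑ i, ‖hs (φn (ns k)) i x - M i x‖
      linarith
    have c2 : ∀ i, Tendsto (fun k => hs (φn (ns k)) i x) atTop (𝓝 (M i x)) := by
      intro i
      rw [tendsto_iff_norm_sub_tendsto_zero]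
      refine squeeze_zero (fun k => norm_nonneg _) (fun k => ?_) hx
      have e1 : ‖hs (φn (ns k)) i x - M i x‖ ≤ ∑ i, ‖hs (φn (ns k)) i x - M i x‖ :=
        Finset.single_le_sum (f := fun i => ‖hs (φn (ns k)) i x - M i x‖)
          (fun i _ => norm_nonneg _) (Finset.mem_univ i)
      show _ ≤ ‖gr (φn (ns k)) x - G x‖ + ∑ i, ‖hs (φn (ns k)) i x - M i x‖
      have := norm_nonneg (gr (φn (ns k)) x - G x)
      linarith
    exact opA_tendsto A hA x (fun k => gr (φn (ns k)) x) (G x)
      (fun k i => hs (φn (ns k)) i x) (fun i => M i x) c1 c2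
  -- the identity for test functions
  have key : ∀ φ : E3 → ℝ, Test φ → ∫ x, ⟪A x (G x), gr φ x⟫ = - ∫ x, F x * φ x := by
    intro φ hφ
    have hφm : MemLp φ 2 := test_memLp φ hφ
    have hφa : MemLp (fun x => |φ x|) 2 := hφm.norm
    have hgφ : MemLp (gr φ) 2 := gr_memLp φ hφ.one hφ.cpt
    -- left side
    have hAm : ∀ X : E3 → E3, MemLp X 2 → MemLp (fun x => A x (X x)) 2 := by
      intro X hX
      refine MemLp.of_le_mul (c := L) hX ?_ (Eventually.of_forall fun x => hAb x (X x))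
      exact hAc.comp_aestronglyMeasurable (aestronglyMeasurable_id.prodMk hX.1)
    have hinner : ∀ X Y : E3 → E3, MemLp X 2 → MemLp Y 2 → Integrable (fun x => ⟪X x, Y x⟫) := by
      intro X Y hX hY
      have h3 := (hX.norm).integrable_mul (hY.norm)
      refine h3.mono' (hX.1.inner hY.1) (Eventually.of_forall fun x => ?_)
      exact norm_inner_le_norm _ _
    have tl : Tendsto (fun k => ∫ x, ⟪A x (gr (φn (ns k)) x), gr φ x⟫) atTop
        (𝓝 (∫ x, ⟪A x (G x), gr φ x⟫)) := by
      rw [tendsto_iff_norm_sub_tendsto_zero]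
      have e1 : Tendsto (fun k => L * (√(sq (dn (ns k))) * √(sq (fun x => ‖gr φ x‖)))) atTop
          (𝓝 0) := by
        have := (((Real.continuous_sqrt.tendsto 0).comp (hdt.comp hns.tendsto_atTop)).mul_const
          (√(sq (fun x => ‖gr φ x‖)))).const_mul L
        simpa using this
      refine squeeze_zero (fun k => norm_nonneg _) (fun k => ?_) e1
      rw [← integral_sub (hinner _ _ (hAm _ (hgm _)) hgφ) (hinner _ _ (hAm _ hGm) hgφ)]
      have e2 : Integrable (fun x => L * (dn (ns k) x * ‖gr φ x‖)) :=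
        ((int_mul _ _ (hdm _) hgφ.norm)).const_mul L
      refine (norm_integral_le_of_norm_le e2 (Eventually.of_forall fun x => ?_)).trans ?_
      · rw [← inner_sub_left]
        refine (norm_inner_le_norm _ _).trans ?_
        have e3 := hP.lipA x (gr (φn (ns k)) x) (G x)
        have e4 : ‖gr (φn (ns k)) x - G x‖ ≤ dn (ns k) x := by
          have : 0 ≤ ∑ i, ‖hs (φn (ns k)) i x - M i x‖ := by positivity
          show _ ≤ ‖gr (φn (ns k)) x - G x‖ + ∑ i, ‖hs (φn (ns k)) i x - M i x‖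
          linarith
        have e5 := mul_le_mul_of_nonneg_left e4 hL
        calc _ ≤ L * dn (ns k) x * ‖gr φ x‖ :=
              mul_le_mul_of_nonneg_right (e3.trans e5) (norm_nonneg _)
          _ = _ := by ring
      · rw [integral_const_mul]
        exact mul_le_mul_of_nonneg_left ((le_abs_self _).trans (cs _ _ (hdm _) hgφ.norm)) hL
    -- right side
    have tr : Tendsto (fun k => ∫ x, Fn (ns k) x * φ x) atTop (𝓝 (∫ x, F x * φ x)) := by
      rw [tendsto_iff_norm_sub_tendsto_zero]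
      let rk : ℕ → E3 → ℝ := fun k x =>
        max (|Fn (ns k) x - F x| - 3 * L * dn (ns k) x) 0
      have r0 : ∀ k x, 0 ≤ rk k x := fun k x => le_max_right _ _
      have r1 : ∀ k x, rk k x ≤ 6 * L * D x := by
        intro k x
        refine max_le ?_ (by have := hD0 x; positivity)
        have a1 := hFnb (ns k) x
        have a2 := hFb x
        have a3 := abs_sub (Fn (ns k) x) (F x)
        nlinarith
      have r2 : ∀ᵐ x, Tendsto (fun k => rk k x) atTop (𝓝 0) := by
        filter_upwards [hFae] with x hx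
        have a1 : Tendsto (fun k => |Fn (ns k) x - F x|) atTop (𝓝 0) := by
          have := (hx.sub_const (F x)).abs
          simpa using this
        refine squeeze_zero (fun k => r0 k x) (fun k => ?_) a1
        refine max_le ?_ (abs_nonneg _)
        have := hd0 (ns k) x
        nlinarith [mul_nonneg hL this]
      have rm : ∀ k, AEStronglyMeasurable (rk k) volume := fun k =>
        ((((hFnm (ns k)).1.sub hFm.1).norm.sub ((hdm (ns k)).1.const_mul (3 * L)))).sup
          aestronglyMeasurable_const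
      have bI : Integrable (fun x => 6 * L * D x * |φ x|) :=
        int_mul (fun x => 6 * L * D x) _ (hDm.const_mul (6 * L)) hφa
      have rI : ∀ k, Integrable (fun x => rk k x * |φ x|) := by
        intro k
        refine bI.mono' ((rm k).mul hφa.1) (Eventually.of_forall fun x => ?_)
        rw [Real.norm_eq_abs, abs_of_nonneg (mul_nonneg (r0 k x) (abs_nonneg _))]
        exact mul_le_mul_of_nonneg_right (r1 k x) (abs_nonneg _)
      have rt : Tendsto (fun k => ∫ x, rk k x * |φ x|) atTop (𝓝 0) := by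
        have := tendsto_integral_of_dominated_convergence (μ := (volume : Measure E3))
          (F := fun k x => rk k x * |φ x|) (f := fun _ => (0 : ℝ)) (fun x => 6 * L * D x * |φ x|)
          (fun k => (rm k).mul hφa.1) bI (fun k => Eventually.of_forall fun x => ?_) ?_
        · simpa using this
        · rw [Real.norm_eq_abs, abs_of_nonneg (mul_nonneg (r0 k x) (abs_nonneg _))]
          exact mul_le_mul_of_nonneg_right (r1 k x) (abs_nonneg _)
        · filter_upwards [r2] with x hx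
          have := hx.mul_const |φ x|
          simpa using this
      have e1 : Tendsto (fun k => (∫ x, rk k x * |φ x|) +
          3 * L * (√(sq (dn (ns k))) * √(sq (fun x => |φ x|)))) atTop (𝓝 0) := by
        have := rt.add ((((Real.continuous_sqrt.tendsto 0).comp
          (hdt.comp hns.tendsto_atTop)).mul_const (√(sq (fun x => |φ x|)))).const_mul (3 * L))
        simpa using this
      refine squeeze_zero (fun k => norm_nonneg _) (fun k => ?_) e1
      rw [← integral_sub (int_mul _ _ (hFnm _) hφm) (int_mul _ _ hFm hφm)]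
      have e2 : Integrable (fun x => rk k x * |φ x| + 3 * L * (dn (ns k) x * |φ x|)) :=
        (rI k).add ((int_mul _ _ (hdm _) hφa).const_mul (3 * L))
      refine (norm_integral_le_of_norm_le e2 (Eventually.of_forall fun x => ?_)).trans ?_
      · have e3 : Fn (ns k) x * φ x - F x * φ x = (Fn (ns k) x - F x) * φ x := by ring
        rw [e3, norm_mul, Real.norm_eq_abs, Real.norm_eq_abs]
        have e4 : |Fn (ns k) x - F x| ≤ rk k x + 3 * L * dn (ns k) x := by
          have := le_max_left (|Fn (ns k) x - F x| - 3 * L * dn (ns k) x) 0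
          show _ ≤ max (|Fn (ns k) x - F x| - 3 * L * dn (ns k) x) 0 + 3 * L * dn (ns k) x
          linarith
        calc _ ≤ (rk k x + 3 * L * dn (ns k) x) * |φ x| :=
              mul_le_mul_of_nonneg_right e4 (abs_nonneg _)
          _ = _ := by ring
      · rw [integral_add (rI k) ((int_mul _ _ (hdm _) hφa).const_mul (3 * L)),
          integral_const_mul]
        have e5 := (le_abs_self _).trans (cs _ _ (hdm (ns k)) hφa)
        have e6 := mul_le_mul_of_nonneg_left e5 (show 0 ≤ 3 * L by positivity)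
        linarith
    have eqn : ∀ n, ∫ x, ⟪A x (gr (φn n) x), gr φ x⟫ = - ∫ x, Fn n x * φ x := by
      intro n
      have hg := gr_diff (φn n) (hT n).smooth
      have hX : ContDiff ℝ 1 (fun x => A x (gr (φn n) x)) :=
        (hA.comp (contDiff_id.prodMk hg)).of_le (by exact_mod_cast le_top)
      have hXc : HasCompactSupport (fun x => A x (gr (φn n) x)) := by
        refine (gr_cpt _ (hT n).cpt).mono ?_
        intro x hx
        rw [Function.mem_support] at hx ⊢
        intro h0
        apply hx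
        show A x (gr (φn n) x) = 0
        rw [h0, hP.A_zero]
      rw [h2.ibpv _ hX hXc φ (gr φ) (h1.ofTest φ hφ)]
      congr 1
      refine integral_congr_ae (Eventually.of_forall fun x => ?_)
      show dv (fun y => A y (gr (φn n) y)) x * φ x = Fn n x * φ x
      rw [dv_comp hA (hT n).smooth]
    exact tendsto_nhds_unique tl (tr.neg.congr fun k => (eqn (ns k)).symm)
  -- the fundamental lemma
  have hum : MemLp u 2 := hH.h1.memf
  have hBm : MemLp (fun x => B x (G x)) 2 := by
    refine MemLp.of_le_mul (c := L) hGm ?_ (Eventually.of_forall fun x => hBb x (G x))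
    exact hP.smoothB.continuous.comp_aestronglyMeasurable (aestronglyMeasurable_id.prodMk hGm.1)
  have hΘm : MemLp (fun x => Θ x * u x) 2 := by
    refine MemLp.of_le_mul (c := T) hum (hPen.contΘ.aestronglyMeasurable.mul hum.1)
      (Eventually.of_forall fun x => ?_)
    rw [norm_mul, Real.norm_eq_abs, abs_of_nonneg ((hPen.nonneg x).trans (hPen.le x))]
    exact mul_le_mul_of_nonneg_right (hPen.bdd x) (norm_nonneg _)
  have hθm : MemLp θ 2 := by
    refine hPen.contθ.memLp_of_hasCompactSupport ?_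
    refine HasCompactSupport.intro (isCompact_closedBall (0 : E3) r) fun x hx => ?_
    refine hPen.outθ x ?_
    rw [mem_closedBall_zero_iff, not_le] at hx
    exact hx.le
  have hRm : MemLp (fun x => F x + (B x (G x) - Θ x * u x + θ x)) 2 :=
    hFm.add ((hBm.sub hΘm).add hθm)
  have hz := ae_eq_zero_of_integral_contDiff_smul_eq_zero (hRm.locallyIntegrable (by norm_num))
    (fun φ hφ hc => by
      have hTφ : Test φ := ⟨hφ, hc⟩
      have hφm := test_memLp φ hTφ
      have e1 := key φ hTφ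
      have e2 := hW.2 φ (gr φ) (h1.ofTest φ hTφ)
      have e3 : ∫ x, φ x • (F x + (B x (G x) - Θ x * u x + θ x)) =
          (∫ x, F x * φ x) + ∫ x, (B x (G x) - Θ x * u x + θ x) * φ x := by
        rw [← integral_add (int_mul _ _ hFm hφm)
          (int_mul (fun x => B x (G x) - Θ x * u x + θ x) _ ((hBm.sub hΘm).add hθm) hφm)]
        refine integral_congr_ae (Eventually.of_forall fun x => ?_)
        simp only [smul_eq_mul]
        ring
      rw [e3]
      linarith)
  filter_upwards [hz] with x hx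
  show F x + B x (G x) = Θ x * u x - θ x
  linarith

end Pool.Agent.PFlow.PB


end

section

/-!
# AP: approximation with small residual
-/

open MeasureTheory Filter Topology
open scoped ContDiff

namespace Pool.Agent.PFlow

open Pool.Agent.PenroseSph

namespace MAP

/-! ### Measurability -/

theorem contOn_entry {U : Set E3} {g : TensorField} (hg : ∀ i j, ContDiffOn ℝ ∞ (fun x => g x i j) U) :
    ContinuousOn (fun x => (g x : Bil)) U := by
  apply continuousOn_pi.mpr
  intro i
  apply continuousOn_pi.mpr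
  intro j
  exact (hg i j).continuousOn

theorem contOn_inv {U : Set E3} {g : TensorField} (hg : MetricOn U g) (i j : Fin 3) :
    ContinuousOn (fun x => (g x)⁻¹ i j) U := by
  have h0 := contOn_entry hg.smooth
  have h1 : ContinuousOn (fun x => (g x).adjugate) U :=
    (Continuous.matrix_adjugate continuous_id).comp_continuousOn h0
  have h2 : ContinuousOn (fun x => (g x).det) U :=
    (Continuous.matrix_det continuous_id).comp_continuousOn h0
  have h3 : ContinuousOn (fun x => ((g x).det)⁻¹ * (g x).adjugate i j) U := by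
    refine (h2.inv₀ fun x hx => (hg.posDef x hx).det_pos.ne').mul ?_
    exact (continuousOn_pi.mp (continuousOn_pi.mp h1 i)) j
  refine h3.congr fun x _ => ?_
  rw [Matrix.inv_def, Matrix.smul_apply, smul_eq_mul, Ring.inverse_eq_inv']

theorem contOn_pd {U : Set E3} (hU : IsOpen U) {f : E3 → ℝ} (hf : ContDiffOn ℝ ∞ f U)
    (i : Fin 3) : ContinuousOn (pd i f) U := by
  have h1 : ContinuousOn (fderiv ℝ f) U := hf.continuousOn_fderiv_of_isOpen hU (by simp)
  exact h1.clm_apply continuousOn_const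

theorem contOn_chr {U : Set E3} (hU : IsOpen U) {g : TensorField} (hg : MetricOn U g)
    (k i j : Fin 3) : ContinuousOn (fun x => christoffel g k i j x) U := by
  unfold christoffel
  refine continuousOn_const.mul (continuousOn_finsetSum _ fun l _ => ?_)
  refine (contOn_inv hg k l).mul ?_
  exact ((contOn_pd hU (hg.smooth j l) i).add (contOn_pd hU (hg.smooth i l) j)).sub
    (contOn_pd hU (hg.smooth i j) l)

section

variable {μ : Measure E3} {P B B' : E3 → Bil} {p q : E3 → Cov}

theorem am_sum {f : Fin 3 → E3 → ℝ} (hf : ∀ i, AEMeasurable (f i) μ) :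
    AEMeasurable (fun x => ∑ i, f i x) μ :=
  Finset.aemeasurable_fun_sum _ fun i _ => hf i

theorem am_ev (hP : ∀ i j, AEMeasurable (fun x => P x i j) μ)
    (hp : ∀ i, AEMeasurable (fun x => p x i) μ) (hq : ∀ i, AEMeasurable (fun x => q x i) μ) :
    AEMeasurable (fun x => ev (P x) (p x) (q x)) μ := by
  unfold ev
  exact am_sum fun i => am_sum fun j => ((hP i j).mul (hp i)).mul (hq j)

end

/-- The residual is measurable. -/
theorem am_resid {U : Set E3} {g h : TensorField} (ε : ℝ) (hU : IsOpen U) (hg : MetricOn U g)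
    (hh : TensorOn U h) {K : Set E3} (hK : IsCompact K) (hKU : K ⊆ U) {p : E3 → Cov}
    {M : E3 → Bil} (hp : ∀ i, Continuous (fun x => p x i))
    (hM : ∀ i j, Continuous (fun x => M x i j)) :
    AEMeasurable (fun x => resid ε g h x (p x) (M x)) (volume.restrict K) := by
  have tr : ∀ {f : E3 → ℝ}, ContinuousOn f U → AEMeasurable f (volume.restrict K) :=
    fun {f} hf => (hf.mono hKU).aemeasurable hK.measurableSet
  have hp' : ∀ i, AEMeasurable (fun x => p x i) (volume.restrict K) :=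
    fun i => (hp i).measurable.aemeasurable
  have hM' : ∀ i j, AEMeasurable (fun x => M x i j) (volume.restrict K) :=
    fun i j => (hM i j).measurable.aemeasurable
  have hP : ∀ i j, AEMeasurable (fun x => (g x)⁻¹ i j) (volume.restrict K) :=
    fun i j => tr (contOn_inv hg i j)
  have hG : ∀ k i j, AEMeasurable (fun x => christoffel g k i j x) (volume.restrict K) :=
    fun k i j => tr (contOn_chr hU hg k i j)
  have hH : ∀ i j, AEMeasurable (fun x => h x i j) (volume.restrict K) :=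
    fun i j => tr (hh.smooth i j).continuousOn
  have hC : ∀ i j, AEMeasurable (fun x => cHess g x (p x) (M x) i j) (volume.restrict K) := by
    intro i j
    unfold cHess
    simp only [Matrix.of_apply]
    exact (hM' i j).sub (am_sum fun k => (hG k i j).mul (hp' k))
  have hR : ∀ i, AEMeasurable (fun x => raise g x (p x) i) (volume.restrict K) := by
    intro i
    unfold raise
    exact am_sum fun j => (hP i j).mul (hp' j)
  have hL : AEMeasurable (fun x => len g x (p x)) (volume.restrict K) := by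
    unfold len
    exact (am_ev hP hp' hp').sqrt
  have hN : ∀ i, AEMeasurable (fun x => nrm g x (p x) i) (volume.restrict K) := by
    intro i
    unfold nrm
    exact (hR i).div hL
  have hB : ∀ {B : E3 → Bil}, (∀ i j, AEMeasurable (fun x => B x i j) (volume.restrict K)) →
      AEMeasurable (fun x => beps ε g x (p x) (B x)) (volume.restrict K) := by
    intro B hB
    unfold beps bnn trg
    exact (am_sum fun i => am_sum fun j => (hP i j).mul (hB i j)).sub
      ((am_ev hB hN hN).const_mul _)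
  unfold resid
  exact ((hB hC).sub (hL.pow_const 2)).sub (hL.mul (hB hH))

theorem am_vn {μ : Measure E3} {p : E3 → Cov} (hp : ∀ i, AEMeasurable (fun x => p x i) μ) :
    AEMeasurable (fun x => vn (p x)) μ := by
  unfold vn vsq
  exact (am_sum fun i => (hp i).pow_const 2).sqrt

/-! ### Linear perturbations -/

/-- The function `v + ⟨a, x⟩`. -/
noncomputable def pert (v : E3 → ℝ) (a : E3) (x : E3) : ℝ := v x + innerSL ℝ a x

theorem pert_smooth {v : E3 → ℝ} (hv : ContDiff ℝ ∞ v) (a : E3) : ContDiff ℝ ∞ (pert v a) :=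
  hv.add (innerSL ℝ a).contDiff

theorem pd_pert {v : E3 → ℝ} (hv : ContDiff ℝ ∞ v) (a : E3) (i : Fin 3) (x : E3) :
    pd i (pert v a) x = pd i v x + a i := by
  have h1 : HasFDerivAt v (fderiv ℝ v x) x :=
    ((hv.differentiable (by simp)) x).hasFDerivAt
  have h2 : HasFDerivAt (pert v a) (fderiv ℝ v x + innerSL ℝ a) x :=
    h1.add (innerSL ℝ a).hasFDerivAt
  unfold pd
  rw [h2.fderiv, add_apply, innerSL_apply_apply,
    EuclideanSpace.inner_single_right]
  simp

theorem pd2_pert {v : E3 → ℝ} (hv : ContDiff ℝ ∞ v) (a : E3) (i j : Fin 3) (x : E3) :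
    pd i (pd j (pert v a)) x = pd i (pd j v) x := by
  have h1 : pd j (pert v a) = fun x => pd j v x + a j := by
    funext y
    exact pd_pert hv a j y
  rw [h1]
  unfold pd
  rw [fderiv_add_const]

theorem grad_pert {v : E3 → ℝ} (hv : ContDiff ℝ ∞ v) (a : E3) (x : E3) :
    grad (pert v a) x = fun i => pd i v x + a i := by
  funext i
  exact pd_pert hv a i x

theorem hess2_pert {v : E3 → ℝ} (hv : ContDiff ℝ ∞ v) (a : E3) (x : E3) :
    hess2 (pert v a) x = hess2 v x := by
  ext i j
  exact pd2_pert hv a i j x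

theorem cont_pd {v : E3 → ℝ} (hv : ContDiff ℝ ∞ v) (i : Fin 3) : Continuous (pd i v) := by
  have h1 := contOn_pd isOpen_univ (contDiffOn_univ.mpr hv) i
  exact continuousOn_univ.mp h1

theorem smooth_pd {v : E3 → ℝ} (hv : ContDiff ℝ ∞ v) (i : Fin 3) : ContDiff ℝ ∞ (pd i v) := by
  have h1 : ContDiff ℝ ∞ (fderiv ℝ v) := hv.fderiv_right (by simp)
  exact h1.clm_apply contDiff_const

/-- Markov's inequality (no measurability needed). -/
theorem markov {V : Set E3} (hV0 : volume V ≠ 0) (hV1 : volume V ≠ ⊤) (hVm : MeasurableSet V)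
    {F : E3 → ENNReal} {e : ℝ} (he : 0 < e)
    (h : ∫⁻ a in V, F a ≤ ENNReal.ofReal e * volume V) {Q : E3 → Prop} (hQ : ∀ᵐ a : E3, Q a) :
    ∃ a ∈ V, Q a ∧ F a ≤ ENNReal.ofReal (2 * e) := by
  by_contra hcon
  push Not at hcon
  have h1 : ∫⁻ _ in V, ENNReal.ofReal (2 * e) ≤ ∫⁻ a in V, F a := by
    apply lintegral_mono_ae
    rw [ae_restrict_iff' hVm]
    filter_upwards [hQ] with a ha haV
    exact (hcon a haV ha).le
  rw [lintegral_const, Measure.restrict_apply_univ] at h1
  have h2 := h1.trans h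
  rw [ENNReal.mul_le_mul_iff_left hV0 hV1, ENNReal.ofReal_le_ofReal_iff he.le] at h2
  linarith

/-- One step of the approximation. -/
theorem step (hAV : Stmt_AV) (hMO : Stmt_MO) (ε : ℝ) (U : Set E3) (g h : TensorField)
    (w : E3 → ℝ) (G : E3 → Cov) (M : E3 → Bil) (hε0 : 0 < ε) (hε1 : ε < 1) (hU : IsOpen U)
    (hg : MetricOn U g) (hh : TensorOn U h) (hw : H2s U w G M) (hEq : EqW U ε g h G M)
    (hint : ∀ K : Set E3, IsCompact K → K ⊆ U → IntegrableOn (fun x => msq (M x) / vn (G x)) K)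
    (K : Set E3) (hK : IsCompact K) (hKU : K ⊆ U) (e : ℝ) (he : 0 < e) :
    ∃ v : E3 → ℝ, ContDiff ℝ ∞ v ∧ (∀ x ∈ K, |v x - w x| < e) ∧
      (∀ i, eLpNorm (fun x => pd i v x - G x i) 4 (volume.restrict K) ≤ ENNReal.ofReal e) ∧
      (∀ i j, eLpNorm (fun x => pd i (pd j v) x - M x i j) 2 (volume.restrict K)
        ≤ ENNReal.ofReal e) ∧
      {x ∈ K | grad v x = 0}.Finite ∧
      ∫⁻ x in K, ENNReal.ofReal (resid ε g h x (grad v x) (hess2 v x) ^ 2 / vn (grad v x))
        ≤ ENNReal.ofReal e := by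
  obtain ⟨R, hR⟩ := hK.isBounded.exists_norm_le
  have hR' : ∀ x ∈ K, ‖x‖ ≤ |R| := fun x hx => (hR x hx).trans (le_abs_self R)
  obtain ⟨L, hL⟩ : ∃ L : ℝ, L = ((volume.restrict K) Set.univ).toReal ^ (1 / (4 : ENNReal).toReal) :=
    ⟨_, rfl⟩
  have hL0 : 0 ≤ L := by
    rw [hL]
    positivity
  have hR0 : 0 ≤ |R| := abs_nonneg R
  obtain ⟨e', he'⟩ : ∃ e' : ℝ, e' = e / (2 + |R| + L) := ⟨_, rfl⟩
  have hden : 0 < 2 + |R| + L := by positivity
  have he'0 : 0 < e' := by
    rw [he']
    positivity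
  have hsum : e' * (2 + |R| + L) = e := by
    rw [he', div_mul_cancel₀ _ hden.ne']
  have hLe : 0 ≤ e' * L := by positivity
  have hRe : 0 ≤ e' * |R| := by positivity
  obtain ⟨v, r, hv, hr0, hre, h1, h2, h3, h4⟩ :=
    hAV ε U g h w G M hε0 hε1 hU hg hh hw hEq hint K hK hKU e' he'0
  have hball0 : volume (Metric.ball (0 : E3) r) ≠ 0 :=
    (Metric.measure_ball_pos volume _ hr0).ne'
  obtain ⟨a, ha, hfin, hFa⟩ := markov hball0 measure_ball_lt_top.ne measurableSet_ball he'0 h4
    (hMO v K hv hK)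
  have hanorm : ‖a‖ < e' := by
    rw [mem_ball_zero_iff] at ha
    exact ha.trans hre
  refine ⟨pert v a, pert_smooth hv a, ?_, ?_, ?_, ?_, ?_⟩
  · intro x hx
    have h5 : pert v a x - w x = (v x - w x) + innerSL ℝ a x := by
      unfold pert
      ring
    have h6 : |innerSL ℝ a x| ≤ e' * |R| := by
      have h7 : |innerSL ℝ a x| ≤ ‖a‖ * ‖x‖ := by
        rw [innerSL_apply_apply]
        exact abs_real_inner_le_norm a x
      exact h7.trans (mul_le_mul hanorm.le (hR' x hx) (norm_nonneg _) he'0.le)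
    rw [h5]
    have h8 := abs_add_le (v x - w x) (innerSL ℝ a x)
    have h9 := h1 x hx
    nlinarith
  · intro i
    have h5 : (fun x => pd i (pert v a) x - G x i) =
        (fun x => pd i v x - G x i) + fun _ => a i := by
      funext x
      rw [pd_pert hv, Pi.add_apply]
      ring
    rw [h5]
    refine (eLpNorm_add_le ?_ aestronglyMeasurable_const (by norm_num)).trans ?_
    · exact (cont_pd hv i).aestronglyMeasurable.sub (hw.memG K hK hKU i).1
    · have h6 : eLpNorm (fun _ : E3 => a i) 4 (volume.restrict K) ≤ ENNReal.ofReal (e' * L) := by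
        rw [eLpNorm_const' _ (by norm_num) (by norm_num)]
        have h7 : ‖a i‖ₑ ≤ ENNReal.ofReal e' := by
          rw [← ofReal_norm]
          apply ENNReal.ofReal_le_ofReal
          exact (PiLp.norm_apply_le a i).trans hanorm.le
        have h8 : (volume.restrict K) Set.univ ^ (1 / (4 : ENNReal).toReal) =
            ENNReal.ofReal L := by
          rw [hL, ENNReal.toReal_rpow, ENNReal.ofReal_toReal]
          apply ENNReal.rpow_ne_top_of_nonneg (by positivity)
          rw [Measure.restrict_apply_univ]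
          exact hK.measure_lt_top.ne
        rw [h8, ENNReal.ofReal_mul he'0.le]
        gcongr
      refine (add_le_add (h2 i).le h6).trans ?_
      rw [← ENNReal.ofReal_add he'0.le hLe]
      apply ENNReal.ofReal_le_ofReal
      nlinarith
  · intro i j
    have h5 : (fun x => pd i (pd j (pert v a)) x - M x i j) =
        fun x => pd i (pd j v) x - M x i j := by
      funext x
      rw [pd2_pert hv]
    rw [h5]
    refine (h3 i j).le.trans ?_
    apply ENNReal.ofReal_le_ofReal
    nlinarith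
  · refine hfin.subset ?_
    rintro x ⟨hx, hx'⟩
    refine ⟨hx, fun i => ?_⟩
    rw [← pd_pert hv a i x]
    exact congrFun hx' i
  · simp only [grad_pert hv, hess2_pert hv]
    refine hFa.trans ?_
    apply ENNReal.ofReal_le_ofReal
    nlinarith

end MAP

theorem AP (hAV : Stmt_AV) (hMO : Stmt_MO) (_hCT : Stmt_CT) : Stmt_AP := by
  intro ε U g h w G M hε0 hε1 hU hg hh hw hEq hint K hK hKU
  have hstep := fun n : ℕ => MAP.step hAV hMO ε U g h w G M hε0 hε1 hU hg hh hw hEq hint K hK hKU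
    (1 / ((n : ℝ) + 1)) (by positivity)
  choose v hv h1 h2 h3 h4 h5 using hstep
  have hlim : Tendsto (fun n : ℕ => ENNReal.ofReal (1 / ((n : ℝ) + 1))) atTop (𝓝 0) := by
    rw [← ENNReal.ofReal_zero]
    exact ENNReal.tendsto_ofReal tendsto_one_div_add_atTop_nhds_zero_nat
  have hnn : ∀ n x, 0 ≤ resid ε g h x (grad (v n) x) (hess2 (v n) x) ^ 2
      / vn (grad (v n) x) := fun n x => div_nonneg (sq_nonneg _) (Real.sqrt_nonneg _)
  have hm : ∀ n, AEMeasurable (fun x => resid ε g h x (grad (v n) x) (hess2 (v n) x) ^ 2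
      / vn (grad (v n) x)) (volume.restrict K) := by
    intro n
    have hc1 : ∀ i, Continuous (fun x => grad (v n) x i) := fun i => MAP.cont_pd (hv n) i
    have hc2 : ∀ i j, Continuous (fun x => hess2 (v n) x i j) := fun i j =>
      MAP.cont_pd (MAP.smooth_pd (hv n) j) i
    exact ((MAP.am_resid ε hU hg hh hK hKU hc1 hc2).pow_const 2).div
      (MAP.am_vn fun i => (hc1 i).measurable.aemeasurable)
  refine ⟨v, hv, ?_, ?_, ?_, h4, ?_, ?_⟩
  · rw [Metric.tendstoUniformlyOn_iff]
    intro e he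
    obtain ⟨N, hN⟩ := exists_nat_one_div_lt he
    filter_upwards [eventually_ge_atTop N] with n hn x hx
    rw [dist_comm, Real.dist_eq]
    refine (h1 n x hx).trans_le (le_trans ?_ hN.le)
    exact Nat.one_div_le_one_div hn
  · intro i
    exact tendsto_of_tendsto_of_tendsto_of_le_of_le tendsto_const_nhds hlim
      (fun _ => bot_le) (fun n => h2 n i)
  · intro i j
    exact tendsto_of_tendsto_of_tendsto_of_le_of_le tendsto_const_nhds hlim
      (fun _ => bot_le) (fun n => h3 n i j)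
  · intro n
    refine ⟨(hm n).aestronglyMeasurable, ?_⟩
    rw [hasFiniteIntegral_iff_ofReal (ae_of_all _ (hnn n))]
    exact (h5 n).trans_lt ENNReal.ofReal_lt_top
  · have h6 : ∀ n : ℕ, ∫ x in K, resid ε g h x (grad (v n) x) (hess2 (v n) x) ^ 2
        / vn (grad (v n) x) ≤ 1 / ((n : ℝ) + 1) := by
      intro n
      rw [integral_eq_lintegral_of_nonneg_ae (ae_of_all _ (hnn n)) (hm n).aestronglyMeasurable]
      exact ENNReal.toReal_le_of_le_ofReal (by positivity) (h5 n)
    exact tendsto_of_tendsto_of_tendsto_of_le_of_le tendsto_const_nhds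
      tendsto_one_div_add_atTop_nhds_zero_nat (fun n => integral_nonneg (hnn n)) h6

end Pool.Agent.PFlow


end

section

set_option autoImplicit false

open MeasureTheory Filter Topology
open scoped ContDiff ENNReal

namespace Pool.Agent.PFlow.MAPW

open Pool.Agent.PenroseSph

/-- The bound of the averaged kernel. -/
noncomputable def bk (C r : ℝ) (p : Cov) : ℝ := 1 / max (r / C) (vn p - r)

theorem vsq_nonneg (p : Cov) : 0 ≤ vsq p := Finset.sum_nonneg fun _ _ => sq_nonneg _

theorem vn_nonneg (p : Cov) : 0 ≤ vn p := Real.sqrt_nonneg _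

theorem msq_nonneg (M : Bil) : 0 ≤ msq M :=
  Finset.sum_nonneg fun _ _ => Finset.sum_nonneg fun _ _ => sq_nonneg _

theorem continuous_vn : Continuous vn := by
  unfold vn vsq
  fun_prop

theorem vn_eq_zero {p : Cov} : vn p = 0 ↔ p = 0 := by
  unfold vn
  rw [Real.sqrt_eq_zero (vsq_nonneg p)]
  constructor
  · intro h
    funext i
    have := (Finset.sum_eq_zero_iff_of_nonneg (fun i _ => sq_nonneg (p i))).1 h i (Finset.mem_univ i)
    simpa using this
  · rintro rfl
    simp [vsq]

theorem vn_pos {p : Cov} (h : p ≠ 0) : 0 < vn p :=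
  lt_of_le_of_ne (vn_nonneg p) (fun h0 => h (vn_eq_zero.1 h0.symm))

theorem vn_eq_norm (v : E3) : vn (fun i => v i) = ‖v‖ := by
  unfold vn vsq
  rw [EuclideanSpace.norm_eq]
  simp only [Real.norm_eq_abs, sq_abs]

theorem vn_add (p : Cov) (a : E3) : vn (fun i => p i + a i) = ‖WithLp.toLp 2 p + a‖ := by
  rw [← vn_eq_norm]
  rfl

theorem vn_toLp (p : Cov) : ‖WithLp.toLp 2 p‖ = vn p := by
  rw [← vn_eq_norm]

theorem bk_den_pos {C r : ℝ} (hC : 0 < C) (hr : 0 < r) (p : Cov) :
    0 < max (r / C) (vn p - r) := lt_max_of_lt_left (by positivity)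

theorem bk_nonneg {C r : ℝ} (hC : 0 < C) (hr : 0 < r) (p : Cov) : 0 ≤ bk C r p := by
  unfold bk
  have := bk_den_pos hC hr p
  positivity

theorem bk_le {C r : ℝ} (hC : 0 < C) (hr : 0 < r) (p : Cov) : bk C r p ≤ C / r := by
  unfold bk
  rw [div_le_div_iff₀ (bk_den_pos hC hr p) hr]
  have h := le_max_left (r / C) (vn p - r)
  rw [div_le_iff₀ hC] at h
  linarith

theorem continuous_bk {C r : ℝ} (hC : 0 < C) (hr : 0 < r) : Continuous (bk C r) := by
  unfold bk
  refine continuous_const.div (continuous_const.max (continuous_vn.sub continuous_const)) ?_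
  intro p
  exact (bk_den_pos hC hr p).ne'

theorem vol_ball (r : ℝ) (hr : 0 < r) : (volume (Metric.ball (0 : E3) r)).toReal
    = (volume (Metric.ball (0 : E3) 1)).toReal * r ^ 3 := by
  rw [Measure.addHaar_ball volume (0 : E3) hr.le]
  rw [ENNReal.toReal_mul, ENNReal.toReal_ofReal (by positivity)]
  simp only [finrank_euclideanSpace, Fintype.card_fin]
  ring

theorem ker_bound (hKER : Stmt_KER) : ∃ C : ℝ, 0 < C ∧ ∀ (r : ℝ) (p : Cov), 0 < r →
    ∫⁻ a in Metric.ball (0 : E3) r, ENNReal.ofReal (1 / vn (fun i => p i + a i))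
      ≤ volume (Metric.ball (0 : E3) r) * ENNReal.ofReal (bk C r p) := by
  obtain ⟨C₀, hC₀, hK⟩ := hKER
  set om : ℝ := (volume (Metric.ball (0 : E3) 1)).toReal with hom
  have hompos : 0 < om := by
    refine ENNReal.toReal_pos ?_ ?_
    · exact (Metric.measure_ball_pos volume (0 : E3) one_pos).ne'
    · exact measure_ball_lt_top.ne
  refine ⟨C₀ / om, by positivity, ?_⟩
  intro r p hr
  have hvol : volume (Metric.ball (0 : E3) r) = ENNReal.ofReal (om * r ^ 3) := by
    rw [← vol_ball r hr, ENNReal.ofReal_toReal measure_ball_lt_top.ne]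
  by_cases hcase : vn p - r ≤ r / (C₀ / om)
  · have h1 := hK r (WithLp.toLp 2 p) hr
    have h2 : ∀ a : E3, 1 / ‖WithLp.toLp 2 p + a‖ = 1 / vn (fun i => p i + a i) := by
      intro a; rw [vn_add]
    simp only [h2] at h1
    refine h1.trans ?_
    rw [hvol, ← ENNReal.ofReal_mul (by positivity)]
    apply ENNReal.ofReal_le_ofReal
    unfold bk
    rw [max_eq_left hcase]
    have h3 : C₀ * r ^ 3 / max r ‖WithLp.toLp 2 p‖ ≤ C₀ * r ^ 3 / r := by
      apply div_le_div_of_nonneg_left (by positivity) hr (le_max_left _ _)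
    refine h3.trans (le_of_eq ?_)
    field_simp
  · push Not at hcase
    have hpos : 0 < vn p - r := lt_trans (by positivity) hcase
    have h4 : ∀ a ∈ Metric.ball (0 : E3) r, ENNReal.ofReal (1 / vn (fun i => p i + a i))
        ≤ ENNReal.ofReal (bk (C₀ / om) r p) := by
      intro a ha
      rw [Metric.mem_ball, dist_zero_right] at ha
      apply ENNReal.ofReal_le_ofReal
      unfold bk
      rw [max_eq_right hcase.le, vn_add]
      apply one_div_le_one_div_of_le hpos
      have h5 : ‖WithLp.toLp 2 p‖ ≤ ‖WithLp.toLp 2 p + a‖ + ‖a‖ := by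
        have := norm_sub_le (WithLp.toLp 2 p + a) a
        rwa [add_sub_cancel_right] at this
      rw [vn_toLp] at h5
      linarith
    calc ∫⁻ a in Metric.ball (0 : E3) r, ENNReal.ofReal (1 / vn (fun i => p i + a i))
        ≤ ∫⁻ _ in Metric.ball (0 : E3) r, ENNReal.ofReal (bk (C₀ / om) r p) :=
          setLIntegral_mono measurable_const h4
      _ = _ := by rw [setLIntegral_const, mul_comm]

theorem continuous_pd {v : E3 → ℝ} (hv : ContDiff ℝ ∞ v) (i : Fin 3) : Continuous (pd i v) := by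
  unfold pd
  exact (hv.continuous_fderiv (by simp)).clm_apply continuous_const

theorem contDiff_pd {v : E3 → ℝ} (hv : ContDiff ℝ ∞ v) (i : Fin 3) : ContDiff ℝ ∞ (pd i v) := by
  unfold pd
  exact (hv.fderiv_right (m := ∞) (by simp)).clm_apply contDiff_const

theorem continuous_grad {v : E3 → ℝ} (hv : ContDiff ℝ ∞ v) : Continuous (grad v) := by
  unfold grad
  exact continuous_pi fun i => continuous_pd hv i

theorem continuous_hess2 {v : E3 → ℝ} (hv : ContDiff ℝ ∞ v) : Continuous (hess2 v) := by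
  unfold hess2
  exact continuous_matrix fun i j => continuous_pd (contDiff_pd hv j) i

theorem continuous_msq : Continuous msq := by
  unfold msq
  fun_prop

/-- The choice of a small linear perturbation. -/
theorem exists_a (hMO : Stmt_MO) {C : ℝ} (hker : ∀ (r : ℝ) (p : Cov), 0 < r →
    ∫⁻ a in Metric.ball (0 : E3) r, ENNReal.ofReal (1 / vn (fun i => p i + a i))
      ≤ volume (Metric.ball (0 : E3) r) * ENNReal.ofReal (bk C r p))
    {v : E3 → ℝ} (hv : ContDiff ℝ ∞ v) {K : Set E3} (hK : IsCompact K) {r : ℝ} (hr : 0 < r) :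
    ∃ a : E3, ‖a‖ < r ∧ {x ∈ K | ∀ i, pd i v x + a i = 0}.Finite ∧
      ∫⁻ x in K, ENNReal.ofReal (msq (hess2 v x) / vn (fun i => grad v x i + a i))
        ≤ ∫⁻ x in K, ENNReal.ofReal (msq (hess2 v x) * bk C r (grad v x)) := by
  have hmo := hMO v K hv hK
  set B := Metric.ball (0 : E3) r with hB
  have hBpos : volume B ≠ 0 := (Metric.measure_ball_pos volume (0 : E3) hr).ne'
  have hBfin : volume B ≠ ⊤ := measure_ball_lt_top.ne
  set F : E3 → E3 → ℝ≥0∞ := fun a x =>
    ENNReal.ofReal (msq (hess2 v x) / vn (fun i => grad v x i + a i)) with hF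
  have hFm : Measurable (Function.uncurry F) := by
    apply ENNReal.measurable_ofReal.comp
    apply Measurable.div
    · exact ((continuous_msq.comp (continuous_hess2 hv)).comp continuous_snd).measurable
    · refine (continuous_vn.comp ?_).measurable
      refine continuous_pi fun i => ?_
      refine Continuous.add ?_ ?_
      · exact (continuous_pd hv i).comp continuous_snd
      · exact (EuclideanSpace.proj i : E3 →L[ℝ] ℝ).continuous.comp continuous_fst
  have hN : (volume.restrict B) ({a : E3 | ¬ {x ∈ K | ∀ i, pd i v x + a i = 0}.Finite} ∪ Bᶜ) = 0 := by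
    refine le_antisymm ((measure_union_le _ _).trans ?_) zero_le
    have h1 : (volume.restrict B) {a : E3 | ¬ {x ∈ K | ∀ i, pd i v x + a i = 0}.Finite} = 0 :=
      Measure.absolutelyContinuous_of_le Measure.restrict_le_self hmo
    rw [h1, Measure.restrict_apply Metric.isOpen_ball.measurableSet.compl, ← hB,
      Set.compl_inter_self, measure_empty, add_zero]
  have hμ : volume.restrict B ≠ 0 := by
    rw [Ne, Measure.restrict_eq_zero]
    exact hBpos
  have : IsFiniteMeasure (volume.restrict B) :=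
    ⟨by rw [Measure.restrict_apply_univ]; exact measure_ball_lt_top⟩
  obtain ⟨a, ha, hle⟩ := exists_notMem_null_le_laverage (f := fun a => ∫⁻ x in K, F a x) hμ
    (hFm.lintegral_prod_right').aemeasurable hN
  rw [Set.mem_union, not_or] at ha
  refine ⟨a, ?_, ?_, ?_⟩
  · have := ha.2
    rw [Set.mem_compl_iff, not_not, hB, Metric.mem_ball, dist_zero_right] at this
    exact this
  · have := ha.1
    rw [Set.mem_ofPred_eq, not_not] at this
    exact this
  · refine hle.trans ?_
    rw [laverage_eq, Measure.restrict_apply_univ]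
    rw [ENNReal.div_le_iff hBpos hBfin]
    rw [lintegral_lintegral_swap hFm.aemeasurable]
    rw [← lintegral_mul_const' _ _ hBfin]
    refine lintegral_mono fun x => ?_
    have h2 : ∀ a : E3, F a x = ENNReal.ofReal (msq (hess2 v x))
        * ENNReal.ofReal (1 / vn (fun i => grad v x i + a i)) := by
      intro a
      rw [← ENNReal.ofReal_mul (msq_nonneg _)]
      rw [hF]
      simp only
      congr 1
      ring
    simp only [h2]
    rw [lintegral_const_mul' _ _ ENNReal.ofReal_ne_top]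
    rw [ENNReal.ofReal_mul (msq_nonneg _), mul_assoc]
    gcongr
    rw [mul_comm]
    exact hker r (grad v x) hr

/-- Common subsequence with convergence almost everywhere. -/
theorem subseq_ae {ι α : Type} {mα : MeasurableSpace α} {μ : Measure α} (s : Finset ι)
    (f : ι → ℕ → α → ℝ) (g : ι → α → ℝ) (h : ∀ i, TendstoInMeasure μ (f i) atTop (g i)) :
    ∃ ns : ℕ → ℕ, StrictMono ns ∧ ∀ i ∈ s,
      ∀ᵐ x ∂μ, Tendsto (fun k => f i (ns k) x) atTop (𝓝 (g i x)) := by
  classical
  induction s using Finset.induction_on with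
  | empty => exact ⟨id, strictMono_id, by simp⟩
  | insert a s ha ih =>
    obtain ⟨ns, hns, hs⟩ := ih
    have h1 : TendstoInMeasure μ (fun k => f a (ns k)) atTop (g a) := by
      intro e he
      exact (h a e he).comp hns.tendsto_atTop
    obtain ⟨ms, hms, h2⟩ := h1.exists_seq_tendsto_ae
    refine ⟨ns ∘ ms, hns.comp hms, ?_⟩
    intro i hi
    rcases Finset.mem_insert.1 hi with rfl | hi
    · exact h2
    · filter_upwards [hs i hi] with x hx
      exact hx.comp hms.tendsto_atTop

theorem tim_of_lp {α : Type} {mα : MeasurableSpace α} {μ : Measure α} {f : ℕ → α → ℝ}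
    {g : α → ℝ} {p : ℝ≥0∞} (hp : p ≠ 0) (hf : ∀ n, AEStronglyMeasurable (f n) μ)
    (hg : AEStronglyMeasurable g μ)
    (h : Tendsto (fun n => eLpNorm (fun x => f n x - g x) p μ) atTop (𝓝 0)) :
    TendstoInMeasure μ f atTop g :=
  tendstoInMeasure_of_tendsto_eLpNorm hp hf hg h

theorem lint_sq {α : Type} {mα : MeasurableSpace α} {μ : Measure α} (f : α → ℝ) :
    ∫⁻ x, ENNReal.ofReal (f x ^ 2) ∂μ = eLpNorm f 2 μ ^ 2 := by
  rw [eLpNorm_eq_lintegral_rpow_enorm_toReal (by norm_num) (by norm_num)]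
  rw [← ENNReal.rpow_natCast, ← ENNReal.rpow_mul]
  norm_num
  refine lintegral_congr fun x => ?_
  rw [← Real.enorm_eq_ofReal (sq_nonneg _), enorm_pow]

theorem lint_msq {α : Type} {mα : MeasurableSpace α} {μ : Measure α} (N : α → Bil)
    (hN : ∀ i j, AEStronglyMeasurable (fun x => N x i j) μ) :
    ∫⁻ x, ENNReal.ofReal (msq (N x)) ∂μ = ∑ i, ∑ j, eLpNorm (fun x => N x i j) 2 μ ^ 2 := by
  simp only [← lint_sq]
  unfold msq
  have hm : ∀ i j, AEMeasurable (fun x => ENNReal.ofReal (N x i j ^ 2)) μ := by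
    intro i j
    exact ((hN i j).aemeasurable.pow_const 2).ennreal_ofReal
  have h1 : ∀ x, ENNReal.ofReal (∑ i, ∑ j, N x i j ^ 2)
      = ∑ i, ∑ j, ENNReal.ofReal (N x i j ^ 2) := by
    intro x
    rw [ENNReal.ofReal_sum_of_nonneg
      (fun i _ => Finset.sum_nonneg fun j _ => sq_nonneg (N x i j))]
    refine Finset.sum_congr rfl fun i _ => ?_
    rw [ENNReal.ofReal_sum_of_nonneg (fun j _ => sq_nonneg (N x i j))]
  simp only [h1]
  rw [lintegral_finsetSum' _ (fun i _ => Finset.aemeasurable_fun_sum _ (fun j _ => hm i j))]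
  refine Finset.sum_congr rfl fun i _ => ?_
  rw [lintegral_finsetSum' _ (fun j _ => hm i j)]

theorem msq_split (H M : Bil) {s : ℝ} (hs : 0 < s) :
    msq H ≤ (1 + s) * msq M + (1 + 1 / s) * msq (H - M) := by
  unfold msq
  simp only [Finset.mul_sum, ← Finset.sum_add_distrib]
  refine Finset.sum_le_sum fun i _ => Finset.sum_le_sum fun j _ => ?_
  rw [Matrix.sub_apply]
  have h1 : (1 + s) * M i j ^ 2 + (1 + 1 / s) * (H i j - M i j) ^ 2 - H i j ^ 2
      = (s * M i j - (H i j - M i j)) ^ 2 / s := by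
    field_simp
    ring
  have h2 : 0 ≤ (s * M i j - (H i j - M i j)) ^ 2 / s := by positivity
  linarith

theorem bk_le_div {C r : ℝ} (hC : 0 < C) (hr : 0 < r) {p : Cov} (hp : p ≠ 0) :
    bk C r p ≤ (2 + 2 * C) / vn p := by
  unfold bk
  have hv := vn_pos hp
  rw [div_le_div_iff₀ (bk_den_pos hC hr p) hv, one_mul]
  by_cases h : 2 * r ≤ vn p
  · have h1 := le_max_right (r / C) (vn p - r)
    have h2 := (bk_den_pos hC hr p).le
    nlinarith
  · push Not at h
    have h1 := le_max_left (r / C) (vn p - r)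
    have h2 := (bk_den_pos hC hr p).le
    rw [div_le_iff₀ hC] at h1
    nlinarith

theorem bk_tendsto (C : ℝ) {p : Cov} (hp : p ≠ 0) :
    Tendsto (fun k : ℕ => bk C (1 / ((k : ℝ) + 1)) p) atTop (𝓝 (1 / vn p)) := by
  unfold bk
  have h0 : Tendsto (fun k : ℕ => 1 / ((k : ℝ) + 1)) atTop (𝓝 0) :=
    tendsto_one_div_add_atTop_nhds_zero_nat
  have h1 : Tendsto (fun k : ℕ => max (1 / ((k : ℝ) + 1) / C) (vn p - 1 / ((k : ℝ) + 1))) atTop
      (𝓝 (max (0 / C) (vn p - 0))) :=
    (h0.div_const C).max (tendsto_const_nhds.sub h0)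
  rw [zero_div, sub_zero, max_eq_right (vn_nonneg p)] at h1
  exact tendsto_const_nhds.div h1 (vn_pos hp).ne'

section step1

variable {K : Set E3} {G : E3 → Cov} {M : E3 → Bil}

theorem limB {C : ℝ} (hC : 0 < C) (hG : AEMeasurable G (volume.restrict K))
    (hM : AEMeasurable (fun x => msq (M x)) (volume.restrict K))
    (h0 : ∀ᵐ x ∂(volume.restrict K), G x = 0 → M x = 0)
    (hfin : ∫⁻ x in K, ENNReal.ofReal (msq (M x) / vn (G x)) ≠ ⊤) :
    Tendsto (fun k : ℕ => ∫⁻ x in K, ENNReal.ofReal (msq (M x) * bk C (1 / ((k : ℝ) + 1)) (G x)))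
      atTop (𝓝 (∫⁻ x in K, ENNReal.ofReal (msq (M x) / vn (G x)))) := by
  refine tendsto_lintegral_of_dominated_convergence'
    (fun x => ENNReal.ofReal (2 + 2 * C) * ENNReal.ofReal (msq (M x) / vn (G x))) ?_ ?_ ?_ ?_
  · intro k
    have hr : 0 < 1 / ((k : ℝ) + 1) := by positivity
    exact (hM.mul
      ((continuous_bk hC hr).measurable.comp_aemeasurable hG)).ennreal_ofReal
  · intro k
    have hr : 0 < 1 / ((k : ℝ) + 1) := by positivity
    filter_upwards [h0] with x hx
    rw [← ENNReal.ofReal_mul (by positivity)]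
    apply ENNReal.ofReal_le_ofReal
    by_cases hGx : G x = 0
    · rw [hx hGx]
      simp [msq]
    · have h1 := bk_le_div hC hr hGx
      calc msq (M x) * bk C (1 / ((k : ℝ) + 1)) (G x)
          ≤ msq (M x) * ((2 + 2 * C) / vn (G x)) := by
            gcongr
            exact msq_nonneg _
        _ = _ := by ring
  · rw [lintegral_const_mul' _ _ ENNReal.ofReal_ne_top]
    exact ENNReal.mul_ne_top ENNReal.ofReal_ne_top hfin
  · filter_upwards [h0] with x hx
    by_cases hGx : G x = 0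
    · rw [hx hGx]
      simp [msq]
    · refine (ENNReal.continuous_ofReal.tendsto _).comp ?_
      rw [div_eq_mul_one_div]
      exact tendsto_const_nhds.mul (bk_tendsto C hGx)

theorem limA {C r : ℝ} (hC : 0 < C) (hr : 0 < r)
    (hM : AEMeasurable (fun x => msq (M x)) (volume.restrict K))
    (hMfin : ∫⁻ x in K, ENNReal.ofReal (msq (M x)) ≠ ⊤) {p : ℕ → E3 → Cov}
    (hp : ∀ n, AEMeasurable (p n) (volume.restrict K))
    (hlim : ∀ᵐ x ∂(volume.restrict K), Tendsto (fun n => p n x) atTop (𝓝 (G x))) :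
    Tendsto (fun n : ℕ => ∫⁻ x in K, ENNReal.ofReal (msq (M x) * bk C r (p n x)))
      atTop (𝓝 (∫⁻ x in K, ENNReal.ofReal (msq (M x) * bk C r (G x)))) := by
  refine tendsto_lintegral_of_dominated_convergence'
    (fun x => ENNReal.ofReal (C / r) * ENNReal.ofReal (msq (M x))) ?_ ?_ ?_ ?_
  · intro n
    exact (hM.mul
      ((continuous_bk hC hr).measurable.comp_aemeasurable (hp n))).ennreal_ofReal
  · intro n
    refine Eventually.of_forall fun x => ?_
    show ENNReal.ofReal (msq (M x) * bk C r (p n x))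
      ≤ ENNReal.ofReal (C / r) * ENNReal.ofReal (msq (M x))
    rw [← ENNReal.ofReal_mul (by positivity)]
    apply ENNReal.ofReal_le_ofReal
    rw [mul_comm]
    gcongr
    · exact msq_nonneg _
    · exact bk_le hC hr _
  · rw [lintegral_const_mul' _ _ ENNReal.ofReal_ne_top]
    exact ENNReal.mul_ne_top ENNReal.ofReal_ne_top hMfin
  · filter_upwards [hlim] with x hx
    refine (ENNReal.continuous_ofReal.tendsto _).comp ?_
    exact tendsto_const_nhds.mul (((continuous_bk hC hr).tendsto _).comp hx)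

theorem step1 (hMO : Stmt_MO) {C : ℝ} (hC : 0 < C) (hker : ∀ (r : ℝ) (p : Cov), 0 < r →
    ∫⁻ a in Metric.ball (0 : E3) r, ENNReal.ofReal (1 / vn (fun i => p i + a i))
      ≤ volume (Metric.ball (0 : E3) r) * ENNReal.ofReal (bk C r p))
    (hK : IsCompact K) (hG : AEMeasurable G (volume.restrict K))
    (hM : AEMeasurable (fun x => msq (M x)) (volume.restrict K))
    (hMfin : ∫⁻ x in K, ENNReal.ofReal (msq (M x)) ≠ ⊤)
    (h0 : ∀ᵐ x ∂(volume.restrict K), G x = 0 → M x = 0)
    {I : ℝ} (hI0 : 0 ≤ I)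
    (hI : ∫⁻ x in K, ENNReal.ofReal (msq (M x) / vn (G x)) = ENNReal.ofReal I)
    {v : ℕ → E3 → ℝ} (hv : ∀ n, ContDiff ℝ ∞ (v n))
    (hlim : ∀ᵐ x ∂(volume.restrict K), Tendsto (fun n => grad (v n) x) atTop (𝓝 (G x)))
    (hL2 : Tendsto (fun n => ∫⁻ x in K, ENNReal.ofReal (msq (hess2 (v n) x - M x))) atTop (𝓝 0))
    {e : ℝ} (he : 0 < e) (n0 : ℕ) :
    ∃ n, n0 ≤ n ∧ ∃ a : E3, ‖a‖ < e ∧ {x ∈ K | ∀ i, pd i (v n) x + a i = 0}.Finite ∧
      ∫⁻ x in K, ENNReal.ofReal (msq (hess2 (v n) x) / vn (fun i => grad (v n) x i + a i))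
        ≤ ENNReal.ofReal (I + e) := by
  have hB := limB hC hG hM h0 (by rw [hI]; exact ENNReal.ofReal_ne_top)
  rw [hI] at hB
  have h1 : ∀ᶠ k : ℕ in atTop, ∫⁻ x in K, ENNReal.ofReal
      (msq (M x) * bk C (1 / ((k : ℝ) + 1)) (G x)) < ENNReal.ofReal (I + e / 4) := by
    apply hB.eventually_lt_const
    rw [ENNReal.ofReal_lt_ofReal_iff (by positivity)]
    linarith
  have h2 : ∀ᶠ k : ℕ in atTop, 1 / ((k : ℝ) + 1) < e :=
    tendsto_one_div_add_atTop_nhds_zero_nat.eventually_lt_const he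
  obtain ⟨k, hk1, hk2⟩ := (h1.and h2).exists
  set r : ℝ := 1 / ((k : ℝ) + 1) with hrdef
  have hr : 0 < r := by positivity
  have hA := limA hC hr hM hMfin (p := fun n => grad (v n))
    (fun n => (continuous_grad (hv n)).measurable.aemeasurable) hlim
  have h3 : ∀ᶠ n : ℕ in atTop, ∫⁻ x in K, ENNReal.ofReal
      (msq (M x) * bk C r (grad (v n) x)) < ENNReal.ofReal (I + e / 2) := by
    apply hA.eventually_lt_const
    refine hk1.trans ?_
    rw [ENNReal.ofReal_lt_ofReal_iff (by positivity)]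
    linarith
  set s : ℝ := e / (4 * (I + e / 2)) with hsdef
  have hs : 0 < s := by positivity
  have h4 : Tendsto (fun n => ENNReal.ofReal ((1 + 1 / s) * (C / r))
      * ∫⁻ x in K, ENNReal.ofReal (msq (hess2 (v n) x - M x))) atTop (𝓝 0) := by
    have := ENNReal.Tendsto.const_mul (a := ENNReal.ofReal ((1 + 1 / s) * (C / r))) hL2
      (Or.inr ENNReal.ofReal_ne_top)
    rwa [mul_zero] at this
  have h5 : ∀ᶠ n : ℕ in atTop, ENNReal.ofReal ((1 + 1 / s) * (C / r))
      * ∫⁻ x in K, ENNReal.ofReal (msq (hess2 (v n) x - M x)) < ENNReal.ofReal (e / 4) := by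
    apply h4.eventually_lt_const
    rw [ENNReal.ofReal_pos]
    positivity
  obtain ⟨n, hn3, hn5, hn0⟩ := (h3.and (h5.and (eventually_ge_atTop n0))).exists
  obtain ⟨a, ha, hfin, hle⟩ := exists_a hMO hker (hv n) hK hr
  refine ⟨n, hn0, a, ha.trans hk2, hfin, hle.trans ?_⟩
  have hm1 : AEMeasurable (fun x => ENNReal.ofReal (msq (M x) * bk C r (grad (v n) x)))
      (volume.restrict K) :=
    (hM.mul
      ((continuous_bk hC hr).measurable.comp_aemeasurable
        (continuous_grad (hv n)).measurable.aemeasurable)).ennreal_ofReal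
  calc ∫⁻ x in K, ENNReal.ofReal (msq (hess2 (v n) x) * bk C r (grad (v n) x))
      ≤ ∫⁻ x in K, (ENNReal.ofReal (1 + s) * ENNReal.ofReal (msq (M x) * bk C r (grad (v n) x))
          + ENNReal.ofReal ((1 + 1 / s) * (C / r))
            * ENNReal.ofReal (msq (hess2 (v n) x - M x))) := by
        refine lintegral_mono fun x => ?_
        rw [← ENNReal.ofReal_mul (by positivity), ← ENNReal.ofReal_mul (by positivity),
          ← ENNReal.ofReal_add]
        · apply ENNReal.ofReal_le_ofReal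
          have hb0 := bk_nonneg hC hr (grad (v n) x)
          have hb1 := bk_le hC hr (grad (v n) x)
          have hd := msq_nonneg (hess2 (v n) x - M x)
          have hsp := msq_split (hess2 (v n) x) (M x) hs
          calc msq (hess2 (v n) x) * bk C r (grad (v n) x)
              ≤ ((1 + s) * msq (M x) + (1 + 1 / s) * msq (hess2 (v n) x - M x))
                * bk C r (grad (v n) x) := mul_le_mul_of_nonneg_right hsp hb0
            _ = (1 + s) * (msq (M x) * bk C r (grad (v n) x))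
                + (1 + 1 / s) * msq (hess2 (v n) x - M x) * bk C r (grad (v n) x) := by ring
            _ ≤ (1 + s) * (msq (M x) * bk C r (grad (v n) x))
                + (1 + 1 / s) * msq (hess2 (v n) x - M x) * (C / r) := by
                gcongr
            _ = _ := by ring
        · exact mul_nonneg (by positivity) (mul_nonneg (msq_nonneg _) (bk_nonneg hC hr _))
        · exact mul_nonneg (by positivity) (msq_nonneg _)
    _ = ENNReal.ofReal (1 + s)
            * (∫⁻ x in K, ENNReal.ofReal (msq (M x) * bk C r (grad (v n) x)))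
          + ENNReal.ofReal ((1 + 1 / s) * (C / r))
            * (∫⁻ x in K, ENNReal.ofReal (msq (hess2 (v n) x - M x))) := by
        rw [lintegral_add_left' (hm1.const_mul _), lintegral_const_mul' _ _ ENNReal.ofReal_ne_top,
          lintegral_const_mul' _ _ ENNReal.ofReal_ne_top]
    _ ≤ ENNReal.ofReal (1 + s) * ENNReal.ofReal (I + e / 2) + ENNReal.ofReal (e / 4) := by
        gcongr
    _ = ENNReal.ofReal ((1 + s) * (I + e / 2) + e / 4) := by
        rw [← ENNReal.ofReal_mul (by positivity), ← ENNReal.ofReal_add (by positivity)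
          (by positivity)]
    _ ≤ ENNReal.ofReal (I + e) := by
        apply ENNReal.ofReal_le_ofReal
        have : s * (I + e / 2) = e / 4 := by
          rw [hsdef]
          field_simp
        nlinarith

end step1

theorem ev_sq_le (M : Bil) (p : Cov) : ev M p p ^ 2 ≤ msq M * vsq p ^ 2 := by
  have h := Finset.sum_mul_sq_le_sq_mul_sq (Finset.univ : Finset (Fin 3 × Fin 3))
    (fun q => M q.1 q.2) (fun q => p q.1 * p q.2)
  have h1 : ∑ q : Fin 3 × Fin 3, M q.1 q.2 * (p q.1 * p q.2) = ev M p p := by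
    rw [Fintype.sum_prod_type]
    unfold ev
    exact Finset.sum_congr rfl fun i _ => Finset.sum_congr rfl fun j _ => by ring
  have h2 : ∑ q : Fin 3 × Fin 3, M q.1 q.2 ^ 2 = msq M := by
    rw [Fintype.sum_prod_type]
    rfl
  have h3 : ∑ q : Fin 3 × Fin 3, (p q.1 * p q.2) ^ 2 = vsq p ^ 2 := by
    rw [Fintype.sum_prod_type]
    unfold vsq
    simp only [Fin.sum_univ_three]
    ring
  rw [h1, h2, h3] at h
  exact h

theorem tr_sq_le (M : Bil) : (∑ i, M i i) ^ 2 ≤ 3 * msq M := by
  unfold msq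
  simp only [Fin.sum_univ_three]
  nlinarith [sq_nonneg (M 0 0 - M 1 1), sq_nonneg (M 0 0 - M 2 2), sq_nonneg (M 1 1 - M 2 2),
    sq_nonneg (M 0 1), sq_nonneg (M 0 2), sq_nonneg (M 1 0), sq_nonneg (M 1 2),
    sq_nonneg (M 2 0), sq_nonneg (M 2 1)]

theorem Wd_nonneg (p : Cov) (M : Bil) : 0 ≤ Wd p M := by
  unfold Wd
  have := vn_nonneg p
  positivity

theorem Wd_le (p : Cov) (M : Bil) : Wd p M ≤ 8 * (msq M / vn p) := by
  by_cases hp : p = 0
  · subst hp
    have h0 : vn (0 : Cov) = 0 := vn_eq_zero.2 rfl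
    unfold Wd
    rw [h0, div_zero, div_zero, mul_zero]
  · have hv := vn_pos hp
    have hq : 0 < vsq p := by
      have := Real.sqrt_pos.1 (show 0 < Real.sqrt (vsq p) from hv)
      exact this
    unfold Wd
    rw [← mul_div_assoc]
    apply div_le_div_of_nonneg_right _ hv.le
    have h1 : (ev M p p / vsq p) ^ 2 ≤ msq M := by
      rw [div_pow, div_le_iff₀ (by positivity)]
      exact ev_sq_le M p
    have h2 := tr_sq_le M
    nlinarith [sq_nonneg ((∑ i, M i i) + ev M p p / vsq p)]

theorem continuous_vsq : Continuous vsq := by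
  unfold vsq
  fun_prop

theorem ff_tendsto {p : Cov} {M : Bil} (hp : p ≠ 0) {P : ℕ → Cov} {H : ℕ → Bil}
    (hP : Tendsto P atTop (𝓝 p)) (hH : Tendsto H atTop (𝓝 M)) :
    Tendsto (fun n => msq (H n) / vn (P n)) atTop (𝓝 (msq M / vn p)) :=
  ((continuous_msq.tendsto M).comp hH).div ((continuous_vn.tendsto p).comp hP) (vn_pos hp).ne'

theorem Wd_tendsto {p : Cov} {M : Bil} (hp : p ≠ 0) {P : ℕ → Cov} {H : ℕ → Bil}
    (hP : Tendsto P atTop (𝓝 p)) (hH : Tendsto H atTop (𝓝 M)) :
    Tendsto (fun n => Wd (P n) (H n)) atTop (𝓝 (Wd p M)) := by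
  have hv := vn_pos hp
  have hq : 0 < vsq p := Real.sqrt_pos.1 (show 0 < Real.sqrt (vsq p) from hv)
  have hPi : ∀ i, Tendsto (fun n => P n i) atTop (𝓝 (p i)) := fun i => (tendsto_pi_nhds.1 hP) i
  have hHi : ∀ i j, Tendsto (fun n => H n i j) atTop (𝓝 (M i j)) := fun i j =>
    (tendsto_pi_nhds.1 ((tendsto_pi_nhds.1 hH) i)) j
  have h1 : Tendsto (fun n => ∑ i, H n i i) atTop (𝓝 (∑ i, M i i)) :=
    tendsto_finsetSum _ fun i _ => hHi i i
  have h2 : Tendsto (fun n => ev (H n) (P n) (P n)) atTop (𝓝 (ev M p p)) := by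
    unfold ev
    exact tendsto_finsetSum _ fun i _ => tendsto_finsetSum _ fun j _ =>
      ((hHi i j).mul (hPi i)).mul (hPi j)
  have h3 : Tendsto (fun n => vsq (P n)) atTop (𝓝 (vsq p)) := (continuous_vsq.tendsto p).comp hP
  have h4 : Tendsto (fun n => vn (P n)) atTop (𝓝 (vn p)) := (continuous_vn.tendsto p).comp hP
  unfold Wd
  exact ((h1.sub (h2.div h3 hq.ne')).pow 2).div h4 hv.ne'

section meas

variable {μ : Measure E3} {G : E3 → Cov} {M : E3 → Bil}

theorem aem_vsq (hG : ∀ i, AEMeasurable (fun x => G x i) μ) :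
    AEMeasurable (fun x => vsq (G x)) μ := by
  unfold vsq
  exact Finset.aemeasurable_fun_sum _ fun i _ => (hG i).pow_const 2

theorem aem_vn (hG : ∀ i, AEMeasurable (fun x => G x i) μ) :
    AEMeasurable (fun x => vn (G x)) μ := (aem_vsq hG).sqrt

theorem aem_msq (hM : ∀ i j, AEMeasurable (fun x => M x i j) μ) :
    AEMeasurable (fun x => msq (M x)) μ := by
  unfold msq
  exact Finset.aemeasurable_fun_sum _ fun i _ => Finset.aemeasurable_fun_sum _ fun j _ =>
    (hM i j).pow_const 2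

theorem aem_Wd (hG : ∀ i, AEMeasurable (fun x => G x i) μ)
    (hM : ∀ i j, AEMeasurable (fun x => M x i j) μ) :
    AEMeasurable (fun x => Wd (G x) (M x)) μ := by
  unfold Wd ev
  refine AEMeasurable.div (AEMeasurable.pow_const (AEMeasurable.sub ?_
    (AEMeasurable.div ?_ (aem_vsq hG))) 2) (aem_vn hG)
  · exact Finset.aemeasurable_fun_sum _ fun i _ => hM i i
  · exact Finset.aemeasurable_fun_sum _ fun i _ => Finset.aemeasurable_fun_sum _ fun j _ =>
      ((hM i j).mul (hG i)).mul (hG j)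

theorem step2 (hG : ∀ i, AEMeasurable (fun x => G x i) μ)
    (hM : ∀ i j, AEMeasurable (fun x => M x i j) μ) {P : ℕ → E3 → Cov} {H : ℕ → E3 → Bil}
    (hP : ∀ n i, AEMeasurable (fun x => P n x i) μ)
    (hH : ∀ n i j, AEMeasurable (fun x => H n x i j) μ)
    (h0 : ∀ᵐ x ∂μ, G x = 0 → M x = 0)
    (hPl : ∀ᵐ x ∂μ, Tendsto (fun n => P n x) atTop (𝓝 (G x)))
    (hHl : ∀ᵐ x ∂μ, Tendsto (fun n => H n x) atTop (𝓝 (M x)))
    {I : ℝ} (hI0 : 0 ≤ I) (hI : ∫⁻ x, ENNReal.ofReal (msq (M x) / vn (G x)) ∂μ = ENNReal.ofReal I)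
    (hb : ∀ n : ℕ, ∫⁻ x, ENNReal.ofReal (msq (H n x) / vn (P n x)) ∂μ
      ≤ ENNReal.ofReal (I + 1 / ((n : ℝ) + 1))) :
    (∀ n, Integrable (fun x => Wd (P n x) (H n x)) μ) ∧
    Integrable (fun x => Wd (G x) (M x)) μ ∧
    Tendsto (fun n => ∫ x, |Wd (P n x) (H n x) - Wd (G x) (M x)| ∂μ) atTop (𝓝 0) := by
  set f : ℕ → E3 → ℝ := fun n x => msq (H n x) / vn (P n x) with hf
  set F : E3 → ℝ := fun x => msq (M x) / vn (G x) with hFd
  have hf0 : ∀ n x, 0 ≤ f n x := fun n x => div_nonneg (msq_nonneg _) (vn_nonneg _)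
  have hF0 : ∀ x, 0 ≤ F x := fun x => div_nonneg (msq_nonneg _) (vn_nonneg _)
  have hfm : ∀ n, AEMeasurable (f n) μ := fun n => (aem_msq (hH n)).div (aem_vn (hP n))
  have hFm : AEMeasurable F μ := (aem_msq hM).div (aem_vn hG)
  have hfi : ∀ n, Integrable (f n) μ := by
    intro n
    rw [← lintegral_ofReal_ne_top_iff_integrable (hfm n).aestronglyMeasurable
      (Eventually.of_forall (hf0 n))]
    exact ne_top_of_le_ne_top ENNReal.ofReal_ne_top (hb n)
  have hFi : Integrable F μ := by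
    rw [← lintegral_ofReal_ne_top_iff_integrable hFm.aestronglyMeasurable
      (Eventually.of_forall hF0)]
    rw [hI]
    exact ENNReal.ofReal_ne_top
  have hWm : ∀ n, AEMeasurable (fun x => Wd (P n x) (H n x)) μ := fun n => aem_Wd (hP n) (hH n)
  have hWm' : AEMeasurable (fun x => Wd (G x) (M x)) μ := aem_Wd hG hM
  have hWi : ∀ n, Integrable (fun x => Wd (P n x) (H n x)) μ := by
    intro n
    refine ((hfi n).const_mul 8).mono' (hWm n).aestronglyMeasurable
      (Eventually.of_forall fun x => ?_)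
    rw [Real.norm_of_nonneg (Wd_nonneg _ _)]
    exact Wd_le _ _
  have hWi' : Integrable (fun x => Wd (G x) (M x)) μ := by
    refine (hFi.const_mul 8).mono' hWm'.aestronglyMeasurable (Eventually.of_forall fun x => ?_)
    rw [Real.norm_of_nonneg (Wd_nonneg _ _)]
    exact Wd_le _ _
  refine ⟨hWi, hWi', ?_⟩
  have hJi : ∀ n, Integrable (fun x => |Wd (P n x) (H n x) - Wd (G x) (M x)|) μ :=
    fun n => ((hWi n).sub hWi').abs
  set J : ℕ → ℝ := fun n => ∫ x, |Wd (P n x) (H n x) - Wd (G x) (M x)| ∂μ with hJ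
  set h : ℕ → E3 → ℝ := fun n x => 8 * f n x + 8 * F x
    - |Wd (P n x) (H n x) - Wd (G x) (M x)| with hh
  have hh0 : ∀ n x, 0 ≤ h n x := by
    intro n x
    have h1 : |Wd (P n x) (H n x) - Wd (G x) (M x)| ≤ Wd (P n x) (H n x) + Wd (G x) (M x) := by
      rw [abs_le]
      have := Wd_nonneg (P n x) (H n x)
      have := Wd_nonneg (G x) (M x)
      constructor <;> linarith
    have h2 : Wd (P n x) (H n x) ≤ 8 * f n x := Wd_le _ _
    have h3 : Wd (G x) (M x) ≤ 8 * F x := Wd_le _ _
    show 0 ≤ 8 * f n x + 8 * F x - |Wd (P n x) (H n x) - Wd (G x) (M x)|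
    linarith
  have hhi : ∀ n, Integrable (h n) μ := fun n =>
    (((hfi n).const_mul 8).add (hFi.const_mul 8)).sub (hJi n)
  have hIf : ∫ x, F x ∂μ = I := by
    have h1 := ofReal_integral_eq_lintegral_ofReal hFi (Eventually.of_forall hF0)
    rw [hI] at h1
    exact (ENNReal.ofReal_eq_ofReal_iff (integral_nonneg hF0) hI0).1 h1
  have hfb : ∀ n : ℕ, ∫ x, f n x ∂μ ≤ I + 1 / ((n : ℝ) + 1) := by
    intro n
    have h1 := ofReal_integral_eq_lintegral_ofReal (hfi n) (Eventually.of_forall (hf0 n))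
    have h2 := hb n
    rw [← h1] at h2
    exact (ENNReal.ofReal_le_ofReal_iff (by positivity)).1 h2
  have hd : ∀ n, ∫ x, h n x ∂μ = 8 * ∫ x, f n x ∂μ + 8 * I - J n := by
    intro n
    have e1 : ∫ x, h n x ∂μ = ∫ x, (8 * f n x + 8 * F x) ∂μ - J n :=
      integral_sub (((hfi n).const_mul 8).add (hFi.const_mul 8)) (hJi n)
    have e2 : ∫ x, (8 * f n x + 8 * F x) ∂μ = ∫ x, 8 * f n x ∂μ + ∫ x, 8 * F x ∂μ :=
      integral_add ((hfi n).const_mul 8) (hFi.const_mul 8)
    rw [e1, e2, integral_const_mul, integral_const_mul, hIf]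
  have hfatou : ENNReal.ofReal (16 * I) ≤ liminf (fun n => ENNReal.ofReal (∫ x, h n x ∂μ)) atTop := by
    have h1 : ∀ n, ENNReal.ofReal (∫ x, h n x ∂μ) = ∫⁻ x, ENNReal.ofReal (h n x) ∂μ :=
      fun n => ofReal_integral_eq_lintegral_ofReal (hhi n) (Eventually.of_forall (hh0 n))
    simp only [h1]
    have h2 : ENNReal.ofReal (16 * I) = ∫⁻ x, ENNReal.ofReal (16 * F x) ∂μ := by
      rw [← ofReal_integral_eq_lintegral_ofReal (hFi.const_mul 16)
        (Eventually.of_forall fun x => mul_nonneg (by norm_num) (hF0 x)), integral_const_mul, hIf]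
    rw [h2]
    refine le_trans ?_ (lintegral_liminf_le' fun n => (hhi n).aemeasurable.ennreal_ofReal)
    apply lintegral_mono_ae
    filter_upwards [h0, hPl, hHl] with x hx hxP hxH
    by_cases hGx : G x = 0
    · have : F x = 0 := by
        rw [hFd]
        simp [hx hGx, msq]
      rw [this]
      simp
    · have hl1 : Tendsto (fun n => f n x) atTop (𝓝 (F x)) := ff_tendsto hGx hxP hxH
      have hl2 : Tendsto (fun n => Wd (P n x) (H n x)) atTop (𝓝 (Wd (G x) (M x))) :=
        Wd_tendsto hGx hxP hxH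
      have hl3 : Tendsto (fun n => h n x) atTop
          (𝓝 (8 * F x + 8 * F x - |Wd (G x) (M x) - Wd (G x) (M x)|)) :=
        ((hl1.const_mul 8).add_const (8 * F x)).sub ((hl2.sub_const (Wd (G x) (M x))).abs)
      rw [sub_self, abs_zero, sub_zero, show 8 * F x + 8 * F x = 16 * F x by ring] at hl3
      exact ((ENNReal.continuous_ofReal.tendsto _).comp hl3).liminf_eq.ge
  have hd0 : ∀ n, 0 ≤ ∫ x, h n x ∂μ := fun n => integral_nonneg (hh0 n)
  have hJ0 : ∀ n, 0 ≤ J n := fun n => integral_nonneg fun x => abs_nonneg _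
  rw [tendsto_order]
  constructor
  · intro a ha
    exact Eventually.of_forall fun n => lt_of_lt_of_le ha (hJ0 n)
  · intro e he
    have h1 : ∀ᶠ n : ℕ in atTop, 8 * (1 / ((n : ℝ) + 1)) < e / 2 := by
      have : Tendsto (fun n : ℕ => 8 * (1 / ((n : ℝ) + 1))) atTop (𝓝 (8 * 0)) :=
        tendsto_one_div_add_atTop_nhds_zero_nat.const_mul 8
      rw [mul_zero] at this
      exact this.eventually_lt_const (by positivity)
    have h2 : ∀ᶠ n : ℕ in atTop, 16 * I - e / 2 < ∫ x, h n x ∂μ := by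
      by_cases hc : 16 * I - e / 2 < 0
      · exact Eventually.of_forall fun n => lt_of_lt_of_le hc (hd0 n)
      · push Not at hc
        have h3 : ENNReal.ofReal (16 * I - e / 2)
            < liminf (fun n => ENNReal.ofReal (∫ x, h n x ∂μ)) atTop := by
          refine lt_of_lt_of_le ?_ hfatou
          rw [ENNReal.ofReal_lt_ofReal_iff (by linarith)]
          linarith
        have h4 := eventually_lt_of_lt_liminf h3
        filter_upwards [h4] with n hn
        exact (ENNReal.ofReal_lt_ofReal_iff_of_nonneg hc).1 hn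
    filter_upwards [h1, h2] with n hn1 hn2
    rw [hd n] at hn2
    have := hfb n
    linarith

end meas

/-- The linear perturbation. -/
noncomputable def pert (u : E3 → ℝ) (a : E3) (x : E3) : ℝ := u x + ∑ j, a j * x j

theorem contDiff_pert {u : E3 → ℝ} (hu : ContDiff ℝ ∞ u) (a : E3) : ContDiff ℝ ∞ (pert u a) := by
  unfold pert
  refine hu.add (ContDiff.sum fun j _ => contDiff_const.mul ?_)
  exact (EuclideanSpace.proj j : E3 →L[ℝ] ℝ).contDiff

theorem pd_pert {u : E3 → ℝ} (hu : ContDiff ℝ ∞ u) (a : E3) (i : Fin 3) :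
    pd i (pert u a) = fun x => pd i u x + a i := by
  funext x
  have hd : DifferentiableAt ℝ u x := (hu.differentiable (by simp)) x
  have hd2 : ∀ j ∈ (Finset.univ : Finset (Fin 3)),
      DifferentiableAt ℝ (fun y : E3 => a j * y j) x := by
    intro j _
    exact (differentiableAt_coord j).const_mul (a j)
  show pd i (fun y => u y + ∑ j, a j * y j) x = _
  rw [pd_add hd (DifferentiableAt.fun_sum hd2), pd_sum _ _ hd2]
  congr 1
  have : ∀ j : Fin 3, pd i (fun y : E3 => a j * y j) x = a j * (if i = j then 1 else 0) := by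
    intro j
    rw [pd_const_mul _ (differentiableAt_coord j), pd_coord]
  simp only [this]
  simp

theorem pd_pd_pert {u : E3 → ℝ} (hu : ContDiff ℝ ∞ u) (a : E3) (i j : Fin 3) (x : E3) :
    pd i (pd j (pert u a)) x = pd i (pd j u) x := by
  rw [pd_pert hu a j]
  have hd : DifferentiableAt ℝ (pd j u) x := ((contDiff_pd hu j).differentiable (by simp)) x
  rw [pd_add hd (differentiableAt_const _), pd_const, add_zero]

theorem grad_pert {u : E3 → ℝ} (hu : ContDiff ℝ ∞ u) (a : E3) (x : E3) :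
    grad (pert u a) x = fun i => grad u x i + a i := by
  funext i
  unfold grad
  rw [pd_pert hu a i]

theorem hess2_pert {u : E3 → ℝ} (hu : ContDiff ℝ ∞ u) (a : E3) (x : E3) :
    hess2 (pert u a) x = hess2 u x := by
  ext i j
  unfold hess2
  rw [Matrix.of_apply, Matrix.of_apply, pd_pd_pert hu]

theorem lin_bound (a x : E3) : |∑ j, a j * x j| ≤ 3 * (‖a‖ * ‖x‖) := by
  have h1 : ∀ (y : E3) (j : Fin 3), |y j| ≤ ‖y‖ := fun y j => by
    have := PiLp.norm_apply_le y j
    rwa [Real.norm_eq_abs] at this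
  calc |∑ j, a j * x j| ≤ ∑ j, |a j * x j| := Finset.abs_sum_le_sum_abs _ _
    _ ≤ ∑ _j : Fin 3, ‖a‖ * ‖x‖ := by
        refine Finset.sum_le_sum fun j _ => ?_
        rw [abs_mul]
        exact mul_le_mul (h1 a j) (h1 x j) (abs_nonneg _) (norm_nonneg _)
    _ = 3 * (‖a‖ * ‖x‖) := by simp

end Pool.Agent.PFlow.MAPW

namespace Pool.Agent.PFlow

open Pool.Agent.PenroseSph MAPW

theorem APW (hKER : Stmt_KER) (hMO : Stmt_MO) : Stmt_APW := by
  intro U w G M _ hs h0 hint K hK hKU
  obtain ⟨C, hC, hker⟩ := ker_bound hKER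
  have hGm : ∀ i, AEStronglyMeasurable (fun x => G x i) (volume.restrict K) := fun i =>
    (hs.memG K hK hKU i).1
  have hMm : ∀ i j, AEStronglyMeasurable (fun x => M x i j) (volume.restrict K) := fun i j =>
    (hs.memM K hK hKU i j).1
  obtain ⟨v, hvs, hvu, hv4, hv2⟩ := hs.approx K hK hKU
  -- a subsequence converging almost everywhere
  let f : Fin 3 ⊕ (Fin 3 × Fin 3) → ℕ → E3 → ℝ :=
    Sum.elim (fun i n x => pd i (v n) x) (fun q n x => pd q.1 (pd q.2 (v n)) x)
  let g : Fin 3 ⊕ (Fin 3 × Fin 3) → E3 → ℝ :=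
    Sum.elim (fun i x => G x i) (fun q x => M x q.1 q.2)
  have hfg : ∀ i, TendstoInMeasure (volume.restrict K) (f i) atTop (g i) := by
    rintro (i | ⟨i, j⟩)
    · exact tim_of_lp (by norm_num) (fun n => (continuous_pd (hvs n) i).aestronglyMeasurable)
        (hGm i) (hv4 i)
    · exact tim_of_lp (by norm_num)
        (fun n => (continuous_pd (contDiff_pd (hvs n) j) i).aestronglyMeasurable)
        (hMm i j) (hv2 i j)
  obtain ⟨ns, hns, hae⟩ := subseq_ae Finset.univ f g hfg
  have haeG : ∀ᵐ x ∂(volume.restrict K), Tendsto (fun k => grad (v (ns k)) x) atTop (𝓝 (G x)) := by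
    have h1 : ∀ᵐ x ∂(volume.restrict K), ∀ i : Fin 3,
        Tendsto (fun k => pd i (v (ns k)) x) atTop (𝓝 (G x i)) :=
      ae_all_iff.2 fun i => hae (Sum.inl i) (Finset.mem_univ _)
    filter_upwards [h1] with x hx
    exact tendsto_pi_nhds.2 hx
  have haeM : ∀ᵐ x ∂(volume.restrict K),
      Tendsto (fun k => hess2 (v (ns k)) x) atTop (𝓝 (M x)) := by
    have h1 : ∀ᵐ x ∂(volume.restrict K), ∀ q : Fin 3 × Fin 3,
        Tendsto (fun k => pd q.1 (pd q.2 (v (ns k))) x) atTop (𝓝 (M x q.1 q.2)) :=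
      ae_all_iff.2 fun q => hae (Sum.inr q) (Finset.mem_univ _)
    filter_upwards [h1] with x hx
    exact tendsto_pi_nhds.2 fun i => tendsto_pi_nhds.2 fun j => hx (i, j)
  have hL2 : Tendsto (fun k => ∫⁻ x in K, ENNReal.ofReal (msq (hess2 (v (ns k)) x - M x)))
      atTop (𝓝 0) := by
    have h1 : ∀ k, ∫⁻ x in K, ENNReal.ofReal (msq (hess2 (v (ns k)) x - M x))
        = ∑ i, ∑ j, eLpNorm (fun x => pd i (pd j (v (ns k))) x - M x i j) 2
          (volume.restrict K) ^ 2 := by
      intro k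
      exact lint_msq (fun x => hess2 (v (ns k)) x - M x) (fun i j =>
        (continuous_pd (contDiff_pd (hvs (ns k)) j) i).aestronglyMeasurable.sub (hMm i j))
    simp only [h1]
    have h2 : ∀ i j : Fin 3, Tendsto (fun k => eLpNorm (fun x => pd i (pd j (v (ns k))) x - M x i j)
        2 (volume.restrict K) ^ 2) atTop (𝓝 0) := by
      intro i j
      have := ENNReal.Tendsto.pow (n := 2) ((hv2 i j).comp hns.tendsto_atTop)
      simpa using this
    have h3 : Tendsto (fun k => ∑ i, ∑ j, eLpNorm (fun x => pd i (pd j (v (ns k))) x - M x i j) 2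
          (volume.restrict K) ^ 2) atTop (𝓝 (∑ _i : Fin 3, ∑ _j : Fin 3, (0 : ℝ≥0∞))) :=
      tendsto_finsetSum _ fun i _ => tendsto_finsetSum _ fun j _ => h2 i j
    simpa using h3
  have hMfin : ∫⁻ x in K, ENNReal.ofReal (msq (M x)) ≠ ⊤ := by
    rw [lint_msq M hMm]
    refine ENNReal.sum_ne_top.2 fun i _ => ENNReal.sum_ne_top.2 fun j _ => ?_
    exact ENNReal.pow_ne_top (hs.memM K hK hKU i j).2.ne
  have h0K : ∀ᵐ x ∂(volume.restrict K), G x = 0 → M x = 0 :=
    ae_restrict_of_ae_restrict_of_subset hKU h0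
  have hFi := hint K hK hKU
  have hF0 : ∀ x, 0 ≤ msq (M x) / vn (G x) := fun x => div_nonneg (msq_nonneg _) (vn_nonneg _)
  set I : ℝ := ∫ x in K, msq (M x) / vn (G x) with hIdef
  have hI0 : 0 ≤ I := integral_nonneg hF0
  have hI : ∫⁻ x in K, ENNReal.ofReal (msq (M x) / vn (G x)) = ENNReal.ofReal I :=
    (ofReal_integral_eq_lintegral_ofReal hFi (Eventually.of_forall hF0)).symm
  have hGa : AEMeasurable G (volume.restrict K) :=
    aemeasurable_pi_lambda _ fun i => (hGm i).aemeasurable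
  have hMa : AEMeasurable (fun x => msq (M x)) (volume.restrict K) :=
    aem_msq fun i j => (hMm i j).aemeasurable
  have hst := fun k : ℕ => step1 hMO hC hker hK hGa hMa hMfin h0K hI0 hI
    (v := fun k => v (ns k)) (fun k => hvs (ns k)) haeG hL2
    (e := 1 / ((k : ℝ) + 1)) (by positivity) k
  choose n hn a ha hfin hle using hst
  have hnt : Tendsto n atTop atTop := tendsto_atTop_mono hn tendsto_id
  have hat : Tendsto (fun k => ‖a k‖) atTop (𝓝 0) :=
    squeeze_zero (fun k => norm_nonneg _) (fun k => (ha k).le)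
      tendsto_one_div_add_atTop_nhds_zero_nat
  have ha0 : Tendsto a atTop (𝓝 0) := tendsto_zero_iff_norm_tendsto_zero.2 hat
  refine ⟨fun k => pert (v (ns (n k))) (a k), fun k => contDiff_pert (hvs _) _, ?_, ?_, ?_⟩
  · -- uniform convergence
    obtain ⟨R, hR⟩ := hK.isBounded.subset_closedBall (0 : E3)
    rw [Metric.tendstoUniformlyOn_iff] at hvu ⊢
    intro e he
    have h1 := (hns.tendsto_atTop.comp hnt).eventually (hvu (e / 2) (by positivity))
    have h2 : Tendsto (fun k => 3 * (‖a k‖ * |R|)) atTop (𝓝 (3 * (0 * |R|))) :=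
      (hat.mul_const |R|).const_mul 3
    rw [zero_mul, mul_zero] at h2
    filter_upwards [h1, h2.eventually_lt_const (show (0 : ℝ) < e / 2 by positivity)]
      with k hk1 hk2 x hx
    have h3 := hk1 x hx
    have h4 : ‖x‖ ≤ |R| := by
      have := hR hx
      rw [Metric.mem_closedBall, dist_zero_right] at this
      exact this.trans (le_abs_self R)
    have h5 := lin_bound (a k) x
    have h6 : 3 * (‖a k‖ * ‖x‖) ≤ 3 * (‖a k‖ * |R|) := by gcongr
    rw [Real.dist_eq] at h3 ⊢
    unfold pert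
    calc |w x - (v (ns (n k)) x + ∑ j, a k j * x j)|
        = |(w x - v (ns (n k)) x) - ∑ j, a k j * x j| := by ring_nf
      _ ≤ |w x - v (ns (n k)) x| + |∑ j, a k j * x j| := abs_sub _ _
      _ < e := by
          have h3' : |w x - v (ns (n k)) x| < e / 2 := h3
          linarith
  · -- critical points
    intro k
    refine (hfin k).subset ?_
    rintro x ⟨hx1, hx2⟩
    refine ⟨hx1, fun i => ?_⟩
    have := congrFun hx2 i
    rw [grad_pert (hvs _)] at this
    exact this
  · have key := step2 (μ := volume.restrict K) (G := G) (M := M)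
      (P := fun k => grad (pert (v (ns (n k))) (a k)))
      (H := fun k => hess2 (pert (v (ns (n k))) (a k)))
      (fun i => (hGm i).aemeasurable) (fun i j => (hMm i j).aemeasurable)
      (fun k i => (continuous_pd (contDiff_pert (hvs _) _) i).aemeasurable)
      (fun k i j => (continuous_pd (contDiff_pd (contDiff_pert (hvs _) _) j) i).aemeasurable)
      h0K ?_ ?_ hI0 hI ?_
    · exact key
    · filter_upwards [haeG] with x hx
      simp only [grad_pert (hvs _)]
      refine tendsto_pi_nhds.2 fun i => ?_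
      have h1 := (tendsto_pi_nhds.1 (hx.comp hnt)) i
      have h2 : Tendsto (fun k => a k i) atTop (𝓝 0) :=
        ((EuclideanSpace.proj i : E3 →L[ℝ] ℝ).continuous.tendsto 0).comp ha0
      have h3 := h1.add h2
      rw [add_zero] at h3
      exact h3
    · filter_upwards [haeM] with x hx
      simp only [hess2_pert (hvs _)]
      exact hx.comp hnt
    · intro k
      simp only [hess2_pert (hvs _), grad_pert (hvs _)]
      exact hle k

end Pool.Agent.PFlow


end

section

/-!
# FLX: the flux identity tested with a function of `u`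
-/

open MeasureTheory Filter Topology
open scoped ContDiff ENNReal

namespace Pool.Agent.PFlow

open Pool.Agent.PenroseSph

namespace MFLX

/-! ### Limits of integrals -/

theorem amgm {x y η : ℝ} (hη : 0 < η) : |x| * |y| ≤ η * x ^ 2 + y ^ 2 / η := by
  have h1 : 0 ≤ (η * |x| - |y|) ^ 2 := sq_nonneg _
  have h2 : |x| ^ 2 = x ^ 2 := sq_abs x
  have h3 : |y| ^ 2 = y ^ 2 := sq_abs y
  have h4 : 0 ≤ |x| * |y| := mul_nonneg (abs_nonneg _) (abs_nonneg _)
  have h5 : η * (|x| * |y|) ≤ η * (η * x ^ 2 + y ^ 2 / η) := by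
    rw [mul_add, mul_div_cancel₀ _ hη.ne']
    have h6 : 0 ≤ η * (|x| * |y|) := mul_nonneg hη.le h4
    have h7 : (η * |x| - |y|) ^ 2 = η * (η * x ^ 2) + y ^ 2 - 2 * (η * (|x| * |y|)) := by
      rw [← h2, ← h3]
      ring
    rw [h7] at h1
    linarith
  exact le_of_mul_le_mul_left h5 hη

variable {μ : Measure E3}

/-- Multiplication by uniformly convergent functions, integrable weight. -/
theorem lim_bdd {R : E3 → ℝ} (hR : Integrable R μ) {c : E3 → ℝ} {cn : ℕ → E3 → ℝ}
    (hc : AEStronglyMeasurable c μ) (hcn : ∀ n, AEStronglyMeasurable (cn n) μ)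
    (B : ℝ) (hB : ∀ᵐ x ∂μ, |c x| ≤ B)
    (hu : ∀ η > 0, ∀ᶠ n in atTop, ∀ᵐ x ∂μ, |cn n x - c x| ≤ η) :
    Tendsto (fun n => ∫ x, R x * cn n x ∂μ) atTop (𝓝 (∫ x, R x * c x ∂μ)) := by
  rw [Metric.tendsto_atTop']
  intro e he
  obtain ⟨I, hI⟩ : ∃ I : ℝ, I = ∫ x, |R x| ∂μ := ⟨_, rfl⟩
  have hI0 : 0 ≤ I := by
    rw [hI]
    exact integral_nonneg fun _ => abs_nonneg _
  have hη : 0 < e / (2 * (I + 1)) := by positivity
  obtain ⟨N, hN⟩ := eventually_atTop.mp (hu _ hη)
  refine ⟨N, fun n hn => ?_⟩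
  have h1 := hN n hn.le
  have hi1 : Integrable (fun x => R x * c x) μ := by
    refine hR.mul_bdd (c := B) hc ?_
    filter_upwards [hB] with x hx
    rwa [Real.norm_eq_abs]
  have hi2 : Integrable (fun x => R x * cn n x) μ := by
    refine hR.mul_bdd (c := B + e / (2 * (I + 1))) (hcn n) ?_
    filter_upwards [hB, h1] with x hx hx1
    rw [Real.norm_eq_abs]
    have h2 : |cn n x| ≤ |c x| + |cn n x - c x| := by
      have := abs_add_le (c x) (cn n x - c x)
      rwa [add_sub_cancel] at this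
    linarith
  rw [Real.dist_eq, ← integral_sub hi2 hi1]
  have h2 : ‖∫ x, (R x * cn n x - R x * c x) ∂μ‖ ≤ ∫ x, |R x| * (e / (2 * (I + 1))) ∂μ := by
    refine norm_integral_le_of_norm_le (hR.abs.mul_const _) ?_
    filter_upwards [h1] with x hx
    rw [← mul_sub, norm_mul, Real.norm_eq_abs, Real.norm_eq_abs]
    exact mul_le_mul_of_nonneg_left hx (abs_nonneg _)
  rw [Real.norm_eq_abs, integral_mul_const, ← hI] at h2
  refine h2.trans_lt ?_
  have h3 : I * (e / (2 * (I + 1))) = e * (I / (2 * (I + 1))) := by ring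
  have h4 : I / (2 * (I + 1)) < 1 := by
    rw [div_lt_one (by positivity)]
    linarith
  rw [h3]
  nlinarith

/-- Products of an `L²` function, a uniformly convergent sequence and an `L²` convergent
sequence. -/
theorem lim_mul {Z D : E3 → ℝ} (hZ : MemLp Z 2 μ) (hD : MemLp D 2 μ) {Dn : ℕ → E3 → ℝ}
    (hDn : ∀ n, MemLp (Dn n) 2 μ)
    (hlim : Tendsto (fun n => ∫ x, (Dn n x - D x) ^ 2 ∂μ) atTop (𝓝 0)) {c : E3 → ℝ}
    {cn : ℕ → E3 → ℝ} (hc : AEStronglyMeasurable c μ) (hcn : ∀ n, AEStronglyMeasurable (cn n) μ)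
    (B : ℝ) (hB : ∀ᵐ x ∂μ, |c x| ≤ B)
    (hu : ∀ η > 0, ∀ᶠ n in atTop, ∀ᵐ x ∂μ, |cn n x - c x| ≤ η) :
    Tendsto (fun n => ∫ x, Z x * (cn n x * Dn n x) ∂μ) atTop
      (𝓝 (∫ x, Z x * (c x * D x) ∂μ)) := by
  have hZD : Integrable (fun x => Z x * D x) μ := hZ.integrable_mul hD
  have hmain : Tendsto (fun n => (∫ x, Z x * (cn n x * Dn n x) ∂μ)
      - ∫ x, (Z x * D x) * cn n x ∂μ) atTop (𝓝 0) := by
    rw [Metric.tendsto_atTop']
    intro e he
    obtain ⟨I, hI⟩ : ∃ I : ℝ, I = ∫ x, Z x ^ 2 ∂μ := ⟨_, rfl⟩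
    have hI0 : 0 ≤ I := by
      rw [hI]
      exact integral_nonneg fun _ => sq_nonneg _
    obtain ⟨B', hB'⟩ : ∃ B' : ℝ, B' = |B| + 1 := ⟨_, rfl⟩
    have hB'0 : 0 < B' := by
      rw [hB']
      positivity
    obtain ⟨η, hη⟩ : ∃ η : ℝ, η = e / (4 * B' * (I + 1)) := ⟨_, rfl⟩
    have hη0 : 0 < η := by
      rw [hη]
      positivity
    have hev : ∀ᶠ n in atTop, |∫ x, (Dn n x - D x) ^ 2 ∂μ| < e * η / (4 * B') := by
      have h1 := (Metric.tendsto_nhds.mp hlim) (e * η / (4 * B')) (by positivity)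
      filter_upwards [h1] with n hn
      rwa [Real.dist_eq, sub_zero] at hn
    obtain ⟨N, hN⟩ := eventually_atTop.mp ((hu 1 one_pos).and hev)
    refine ⟨N, fun n hn => ?_⟩
    obtain ⟨h1, h2⟩ := hN n hn.le
    have hbc : ∀ᵐ x ∂μ, |cn n x| ≤ B' := by
      filter_upwards [hB, h1] with x hx hx1
      have h2 : |cn n x| ≤ |c x| + |cn n x - c x| := by
        have := abs_add_le (c x) (cn n x - c x)
        rwa [add_sub_cancel] at this
      rw [hB']
      linarith [le_abs_self B]
    have hbc' : ∀ᵐ x ∂μ, ‖cn n x‖ ≤ B' := hbc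
    have hi1 : Integrable (fun x => Z x * D x * cn n x) μ := hZD.mul_bdd (hcn n) hbc'
    have hi2 : Integrable (fun x => Z x * (cn n x * Dn n x)) μ := by
      have h3 : Integrable (fun x => Z x * Dn n x * cn n x) μ :=
        (hZ.integrable_mul (hDn n)).mul_bdd (hcn n) hbc'
      refine h3.congr (ae_of_all _ fun x => ?_)
      change Z x * Dn n x * cn n x = Z x * (cn n x * Dn n x)
      ring
    rw [Real.dist_eq, sub_zero, ← integral_sub hi2 hi1]
    have hs1 : Integrable (fun x => Z x ^ 2) μ := hZ.integrable_sq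
    have hs2 : Integrable (fun x => (Dn n x - D x) ^ 2) μ := ((hDn n).sub hD).integrable_sq
    have h3 : ‖∫ x, (Z x * (cn n x * Dn n x) - Z x * D x * cn n x) ∂μ‖ ≤
        ∫ x, B' * (η * Z x ^ 2 + (Dn n x - D x) ^ 2 / η) ∂μ := by
      refine norm_integral_le_of_norm_le (((hs1.const_mul η).add (hs2.div_const η)).const_mul B') ?_
      filter_upwards [hbc] with x hx
      have h4 : Z x * (cn n x * Dn n x) - Z x * D x * cn n x =
          cn n x * (Z x * (Dn n x - D x)) := by ring
      rw [h4, norm_mul, norm_mul, Real.norm_eq_abs, Real.norm_eq_abs, Real.norm_eq_abs]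
      have h5 := amgm (x := Z x) (y := Dn n x - D x) hη0
      exact mul_le_mul hx h5 (mul_nonneg (abs_nonneg _) (abs_nonneg _)) hB'0.le
    rw [Real.norm_eq_abs, integral_const_mul, integral_add (hs1.const_mul η) (hs2.div_const η),
      integral_const_mul, integral_div, ← hI] at h3
    refine h3.trans_lt ?_
    have h6 : ∫ x, (Dn n x - D x) ^ 2 ∂μ < e * η / (4 * B') := (le_abs_self _).trans_lt h2
    have h7 : B' * ((∫ x, (Dn n x - D x) ^ 2 ∂μ) / η) ≤ e / 4 := by
      rw [← mul_div_assoc, div_le_iff₀ hη0]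
      have h8 : B' * (e * η / (4 * B')) = e / 4 * η := by
        field_simp
      rw [← h8]
      exact mul_le_mul_of_nonneg_left h6.le hB'0.le
    have h8 : B' * (η * I) ≤ e / 4 := by
      rw [hη]
      have h9 : B' * (e / (4 * B' * (I + 1)) * I) = e / 4 * (I / (I + 1)) := by
        field_simp
      rw [h9]
      have h10 : I / (I + 1) ≤ 1 := by
        rw [div_le_one (by positivity)]
        linarith
      nlinarith
    rw [mul_add]
    linarith
  have h1 := hmain.add (lim_bdd hZD hc hcn B hB hu)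
  simp only [sub_add_cancel, zero_add] at h1
  have h2 : (∫ x, Z x * D x * c x ∂μ) = ∫ x, Z x * (c x * D x) ∂μ := by
    refine integral_congr_ae (ae_of_all _ fun x => ?_)
    change Z x * D x * c x = Z x * (c x * D x)
    ring
  rwa [h2] at h1

/-- Composition with a continuous function. -/
theorem unif {K : Set E3} (hK : IsCompact K) {u : E3 → ℝ} (hu : ContinuousOn u K)
    {v : ℕ → E3 → ℝ} (hv : TendstoUniformlyOn v u atTop K) {f : ℝ → ℝ} (hf : Continuous f)
    {ζ : E3 → ℝ} (hζ : Continuous ζ) (η : ℝ) (hη : 0 < η) :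
    ∀ᶠ n in atTop, ∀ x ∈ K, |f (v n x) * ζ x - f (u x) * ζ x| ≤ η := by
  obtain ⟨T, hT⟩ := hK.exists_bound_of_continuousOn hu
  obtain ⟨B, hB⟩ := hK.exists_bound_of_continuousOn hζ.continuousOn
  have hB' : ∀ x ∈ K, |ζ x| ≤ |B| + 1 := fun x hx => by
    have := hB x hx
    rw [Real.norm_eq_abs] at this
    linarith [le_abs_self B]
  have hB0 : 0 < |B| + 1 := by positivity
  have hun : UniformContinuousOn f (Set.Icc (-(T + 1)) (T + 1)) :=
    isCompact_Icc.uniformContinuousOn_of_continuous hf.continuousOn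
  have h1 : TendstoUniformlyOn (fun n x => f (v n x)) (fun x => f (u x)) atTop K := by
    refine UniformContinuousOn.comp_tendstoUniformlyOn_eventually ?_ ?_ hun hv
    · filter_upwards [(Metric.tendstoUniformlyOn_iff.mp hv) 1 one_pos] with n hn x hx
      have h2 := hn x hx
      have h3 := hT x hx
      rw [Real.dist_eq, abs_lt] at h2
      rw [Real.norm_eq_abs, abs_le] at h3
      constructor <;> linarith [h2.1, h2.2, h3.1, h3.2]
    · intro x hx
      have h3 := hT x hx
      rw [Real.norm_eq_abs, abs_le] at h3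
      constructor <;> linarith [h3.1, h3.2]
  filter_upwards [(Metric.tendstoUniformlyOn_iff.mp h1) (η / (|B| + 1)) (by positivity)]
    with n hn x hx
  have h2 := hn x hx
  rw [Real.dist_eq, abs_sub_comm] at h2
  rw [← sub_mul, abs_mul]
  calc |f (v n x) - f (u x)| * |ζ x| ≤ η / (|B| + 1) * (|B| + 1) :=
        mul_le_mul h2.le (hB' x hx) (abs_nonneg _) (by positivity)
    _ = η := div_mul_cancel₀ _ hB0.ne'

/-! ### Pointwise bounds -/

/-- The components of the vector with respect to the second index. -/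
noncomputable def ra (g : TensorField) (x : E3) (p : Cov) (j : Fin 3) : ℝ :=
  ∑ i, (g x)⁻¹ i j * p i

theorem ev_eq (g : TensorField) (x : E3) (p q : Cov) :
    ev (g x)⁻¹ p q = ∑ j, ra g x p j * q j := by
  unfold ev ra
  rw [Finset.sum_comm]
  refine Finset.sum_congr rfl fun j _ => ?_
  rw [Finset.sum_mul]

theorem sum3 {a : Fin 3 → ℝ} {B : ℝ} (h : ∀ i, |a i| ≤ B) : |∑ i, a i| ≤ 3 * B := by
  refine (Finset.abs_sum_le_sum_abs _ _).trans ?_
  calc ∑ i, |a i| ≤ ∑ _i : Fin 3, B := Finset.sum_le_sum fun i _ => h i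
    _ = 3 * B := by simp

theorem abs_le_vn (p : Cov) (i : Fin 3) : |p i| ≤ vn p := by
  unfold vn vsq
  apply Real.abs_le_sqrt
  exact Finset.single_le_sum (f := fun j => p j ^ 2) (fun j _ => sq_nonneg (p j))
    (Finset.mem_univ i)

theorem vn_le_sum (p : Cov) : vn p ≤ ∑ i, |p i| := by
  unfold vn vsq
  apply Real.sqrt_le_iff.mpr
  constructor
  · exact Finset.sum_nonneg fun i _ => abs_nonneg _
  · simp only [Fin.sum_univ_three]
    have h0 := abs_nonneg (p 0)
    have h1 := abs_nonneg (p 1)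
    have h2 := abs_nonneg (p 2)
    rw [← sq_abs (p 0), ← sq_abs (p 1), ← sq_abs (p 2)]
    nlinarith [mul_nonneg h0 h1, mul_nonneg h0 h2, mul_nonneg h1 h2]

theorem vsq_nonneg (p : Cov) : 0 ≤ vsq p := Finset.sum_nonneg fun i _ => sq_nonneg (p i)

section

variable {g h : TensorField} {x : E3} {C : ℝ} (hC : 1 ≤ C)
  (hev : ∀ p, vsq p / C ≤ ev (g x)⁻¹ p p ∧ ev (g x)⁻¹ p p ≤ C * vsq p)
  (hP : ∀ i j, |(g x)⁻¹ i j| ≤ C)

include hC hev

theorem vn_le_len (p : Cov) : vn p ≤ C * len g x p := by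
  have hC0 : 0 < C := by linarith
  have h1 : vsq p ≤ C ^ 2 * ev (g x)⁻¹ p p := by
    have h2 := (hev p).1
    rw [div_le_iff₀ hC0] at h2
    have h3 : 0 ≤ ev (g x)⁻¹ p p := le_trans (div_nonneg (vsq_nonneg p) hC0.le) (hev p).1
    nlinarith [mul_nonneg (mul_nonneg hC0.le (sub_nonneg.2 hC)) h3]
  unfold vn len
  calc √(vsq p) ≤ √(C ^ 2 * ev (g x)⁻¹ p p) := Real.sqrt_le_sqrt h1
    _ = C * √(ev (g x)⁻¹ p p) := by
      rw [Real.sqrt_mul (sq_nonneg C), Real.sqrt_sq hC0.le]

theorem len_le_vn (p : Cov) : len g x p ≤ C * vn p := by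
  have hC0 : 0 < C := by linarith
  have h1 : ev (g x)⁻¹ p p ≤ C ^ 2 * vsq p := by
    have h2 := (hev p).2
    have h3 := vsq_nonneg p
    nlinarith [mul_nonneg (mul_nonneg hC0.le (sub_nonneg.2 hC)) h3]
  unfold vn len
  calc √(ev (g x)⁻¹ p p) ≤ √(C ^ 2 * vsq p) := Real.sqrt_le_sqrt h1
    _ = C * √(vsq p) := by
      rw [Real.sqrt_mul (sq_nonneg C), Real.sqrt_sq hC0.le]

include hP

theorem ra_le (p : Cov) (j : Fin 3) : |ra g x p j| ≤ 3 * (C * (C * len g x p)) := by
  have hC0 : 0 < C := by linarith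
  refine sum3 fun i => ?_
  rw [abs_mul]
  exact mul_le_mul (hP i j) ((abs_le_vn p i).trans (vn_le_len hC hev p)) (abs_nonneg _) hC0.le

theorem raise_le (p : Cov) (i : Fin 3) : |raise g x p i| ≤ 3 * (C * (C * len g x p)) := by
  have hC0 : 0 < C := by linarith
  refine sum3 fun j => ?_
  rw [abs_mul]
  exact mul_le_mul (hP i j) ((abs_le_vn p j).trans (vn_le_len hC hev p)) (abs_nonneg _) hC0.le

theorem nrm_le (p : Cov) (i : Fin 3) : |nrm g x p i| ≤ 3 * (C * C) := by
  have hC0 : 0 < C := by linarith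
  unfold nrm
  rcases (Real.sqrt_nonneg (ev (g x)⁻¹ p p)).eq_or_lt with h0 | h0
  · have : len g x p = 0 := h0.symm
    rw [this, div_zero, abs_zero]
    positivity
  · have h1 : 0 < len g x p := h0
    rw [abs_div, abs_of_pos h1, div_le_iff₀ h1]
    have := raise_le hC hev hP p i
    linarith

theorem beps_le {ε : ℝ} (hε0 : 0 < ε) (hε1 : ε < 1) (hh : ∀ i j, |h x i j| ≤ C) (p : Cov) :
    |beps ε g x p (h x)| ≤ 3 * (3 * (C * C)) + 3 * (3 * (C * (3 * (C * C)) * (3 * (C * C)))) := by
  have hC0 : 0 < C := by linarith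
  have h1 : |trg g x (h x)| ≤ 3 * (3 * (C * C)) := by
    refine sum3 fun i => sum3 fun j => ?_
    rw [abs_mul]
    exact mul_le_mul (hP i j) (hh i j) (abs_nonneg _) hC0.le
  have h2 : |bnn g x p (h x)| ≤ 3 * (3 * (C * (3 * (C * C)) * (3 * (C * C)))) := by
    unfold bnn ev
    refine sum3 fun i => sum3 fun j => ?_
    rw [abs_mul, abs_mul]
    refine mul_le_mul (mul_le_mul (hh i j) (nrm_le hC hev hP p i) (abs_nonneg _) hC0.le)
      (nrm_le hC hev hP p j) (abs_nonneg _) (by positivity)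
  unfold beps
  refine (abs_sub _ _).trans (add_le_add h1 ?_)
  rw [abs_mul, abs_of_nonneg (by linarith : (0 : ℝ) ≤ 1 - ε)]
  have h3 : (1 - ε) * |bnn g x p (h x)| ≤ 1 * |bnn g x p (h x)| :=
    mul_le_mul_of_nonneg_right (by linarith) (abs_nonneg _)
  linarith

end

theorem rpow_le_one_add {l ε : ℝ} (hl : 0 ≤ l) (hε0 : 0 < ε) (hε1 : ε < 1) : l ^ ε ≤ 1 + l := by
  rcases le_total l 1 with h | h
  · have := Real.rpow_le_one hl h hε0.le
    linarith
  · have := Real.rpow_le_rpow_of_exponent_le h hε1.le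
    rw [Real.rpow_one] at this
    linarith

theorem rpow_sub_mul {l ε : ℝ} (hl : 0 ≤ l) (hε0 : 0 < ε) : l ^ (ε - 1) * l = l ^ ε := by
  rcases hl.eq_or_lt with h | h
  · rw [← h, mul_zero, Real.zero_rpow hε0.ne']
  · rw [← Real.rpow_add_one h.ne', sub_add_cancel]

theorem pd_chi {ψ : ℝ → ℝ} (hψ : ContDiff ℝ 1 ψ) {v ζ : E3 → ℝ} (hv : ContDiff ℝ ∞ v)
    (hζ : ContDiff ℝ ∞ ζ) (j : Fin 3) (x : E3) :
    pd j (fun y => ψ (v y) * ζ y) x = deriv ψ (v x) * ζ x * pd j v x + ψ (v x) * pd j ζ x := by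
  have h1 : HasFDerivAt v (fderiv ℝ v x) x := ((hv.differentiable (by simp)) x).hasFDerivAt
  have h2 : HasFDerivAt ζ (fderiv ℝ ζ x) x := ((hζ.differentiable (by simp)) x).hasFDerivAt
  have h3 : HasDerivAt ψ (deriv ψ (v x)) (v x) :=
    ((hψ.differentiable (by simp)) (v x)).hasDerivAt
  have h4 : HasFDerivAt (fun y => ψ (v y)) (deriv ψ (v x) • fderiv ℝ v x) x :=
    h3.comp_hasFDerivAt x h1
  have h5 : HasFDerivAt (fun y => ψ (v y) * ζ y)
      (ψ (v x) • fderiv ℝ ζ x + ζ x • deriv ψ (v x) • fderiv ℝ v x) x := h4.mul h2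
  unfold pd
  rw [h5.fderiv]
  change ψ (v x) * fderiv ℝ ζ x _ + ζ x * (deriv ψ (v x) * fderiv ℝ v x _) = _
  ring

end MFLX

theorem FLX : Stmt_FLX := by
  intro ε a b g h u G M hε0 hε1 ha hab hg hh hH2 hweak ψ K hψ hK hKA hsupp
  have hAo : IsOpen (Ann a b) := by
    have h1 : Ann a b = (fun x : E3 => ‖x‖) ⁻¹' Set.Ioo a b := rfl
    rw [h1]
    exact isOpen_Ioo.preimage continuous_norm
  obtain ⟨ζ, hζ, hζc, hζs, hζ1⟩ := MIB.exists_cutoff hK hAo hKA
  obtain ⟨K1, hK1def⟩ : ∃ K1 : Set E3, K1 = tsupport ζ := ⟨_, rfl⟩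
  have hK1 : IsCompact K1 := hK1def ▸ hζc
  have hK1A : K1 ⊆ Ann a b := hK1def ▸ hζs
  have hK1m : MeasurableSet K1 := hK1.measurableSet
  have hζK : ∀ x ∈ K, ζ x = 1 := fun x hx =>
    (hζ1.filter_mono (nhds_le_nhdsSet hx)).self_of_nhds
  have hζpd : ∀ x ∈ K, ∀ j, pd j ζ x = 0 := by
    intro x hx j
    have h1 : ζ =ᶠ[𝓝 x] fun _ => (1 : ℝ) := hζ1.filter_mono (nhds_le_nhdsSet hx)
    unfold pd
    rw [h1.fderiv_eq, fderiv_fun_const]
    rfl
  have hKK1 : K ⊆ K1 := by
    intro x hx
    rw [hK1def]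
    apply subset_tsupport
    rw [Function.mem_support, hζK x hx]
    exact one_ne_zero
  have hζoff : ∀ x, x ∉ K1 → ζ x = 0 := fun x hx =>
    image_eq_zero_of_notMem_tsupport (by rw [← hK1def]; exact hx)
  have hζoff' : ∀ x, x ∉ K1 → ∀ j, pd j ζ x = 0 := by
    intro x hx j
    have h1 : x ∉ tsupport ζ := by
      rw [← hK1def]
      exact hx
    unfold pd
    rw [fderiv_of_notMem_tsupport ℝ h1]
    rfl
  -- the bounds
  obtain ⟨C, hC, hCx⟩ := CT Set.univ g h isOpen_univ hg hh K1 hK1 (Set.subset_univ _)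
  have hC0 : 0 < C := by linarith
  have hfin : IsFiniteMeasure (volume.restrict K1) :=
    ⟨by rw [Measure.restrict_apply_univ]; exact hK1.measure_lt_top⟩
  have hGm : ∀ i, AEMeasurable (fun x => G x i) (volume.restrict K1) := fun i =>
    (hH2.memG K1 hK1 hK1A i).1.aemeasurable
  have tr : ∀ {f : E3 → ℝ}, ContinuousOn f Set.univ → AEMeasurable f (volume.restrict K1) :=
    fun {f} hf => (hf.mono (Set.subset_univ _)).aemeasurable hK1m
  have hPm : ∀ i j, AEMeasurable (fun x => (g x)⁻¹ i j) (volume.restrict K1) :=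
    fun i j => tr (MAP.contOn_inv hg i j)
  have hHm : ∀ i j, AEMeasurable (fun x => h x i j) (volume.restrict K1) :=
    fun i j => tr (hh.smooth i j).continuousOn
  have hVm : AEMeasurable (fun x => volDen g x) (volume.restrict K1) := by
    have h1 : ContinuousOn (fun x => volDen g x) Set.univ := by
      unfold volDen
      exact ((Continuous.matrix_det continuous_id).comp_continuousOn
        (MAP.contOn_entry hg.smooth)).sqrt
    exact tr h1
  have hLm : AEMeasurable (fun x => len g x (G x)) (volume.restrict K1) := by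
    unfold len
    exact (MAP.am_ev hPm hGm hGm).sqrt
  have hRm : ∀ i, AEMeasurable (fun x => raise g x (G x) i) (volume.restrict K1) := by
    intro i
    unfold raise
    exact MAP.am_sum fun j => (hPm i j).mul (hGm j)
  have hNm : ∀ i, AEMeasurable (fun x => nrm g x (G x) i) (volume.restrict K1) := by
    intro i
    unfold nrm
    exact (hRm i).div hLm
  have hBm : AEMeasurable (fun x => beps ε g x (G x) (h x)) (volume.restrict K1) := by
    unfold beps bnn trg
    exact (MAP.am_sum fun i => MAP.am_sum fun j => (hPm i j).mul (hHm i j)).sub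
      ((MAP.am_ev hHm hNm hNm).const_mul _)
  have hram : ∀ j, AEMeasurable (fun x => MFLX.ra g x (G x) j) (volume.restrict K1) := by
    intro j
    unfold MFLX.ra
    exact MAP.am_sum fun i => (hPm i j).mul (hGm i)
  have hlen0 : ∀ x, 0 ≤ len g x (G x) := fun x => Real.sqrt_nonneg _
  have hvol0 : ∀ x, 0 ≤ volDen g x := fun x => Real.sqrt_nonneg _
  -- the length is square integrable
  have hLL : MemLp (fun x => 1 + len g x (G x)) 2 (volume.restrict K1) := by
    have h0 : ∀ i, MemLp (fun x => |G x i|) 2 (volume.restrict K1) := fun i =>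
      (hH2.memG K1 hK1 hK1A i).abs
    have h00 : MemLp (fun x => ∑ i, |G x i|) 2 (volume.restrict K1) :=
      memLp_finsetSum Finset.univ fun i _ => h0 i
    have h01 : MemLp (fun x => C * ∑ i, |G x i|) 2 (volume.restrict K1) := h00.const_mul C
    have h02 : MemLp (fun _ : E3 => (1 : ℝ)) 2 (volume.restrict K1) := memLp_const 1
    have h1 : MemLp (fun x => 1 + C * ∑ i, |G x i|) 2 (volume.restrict K1) := h02.add h01
    have hm : AEStronglyMeasurable (fun x => 1 + len g x (G x)) (volume.restrict K1) :=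
      (hLm.const_add 1).aestronglyMeasurable
    refine h1.mono' hm ?_
    rw [ae_restrict_iff' hK1m]
    refine ae_of_all _ fun x hx => ?_
    rw [Real.norm_eq_abs, abs_of_nonneg (by linarith [hlen0 x])]
    have h2 := MFLX.len_le_vn hC (hCx x hx).1 (G x)
    have h3 := MFLX.vn_le_sum (G x)
    have h4 : C * vn (G x) ≤ C * ∑ i, |G x i| := mul_le_mul_of_nonneg_left h3 hC0.le
    linarith
  -- the weights
  obtain ⟨Z, hZdef⟩ : ∃ Z : Fin 3 → E3 → ℝ, Z = fun j x =>
      len g x (G x) ^ (ε - 1) * MFLX.ra g x (G x) j * volDen g x := ⟨_, rfl⟩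
  obtain ⟨R, hRdef⟩ : ∃ R : E3 → ℝ, R = fun x =>
      len g x (G x) ^ ε * beps ε g x (G x) (h x) * volDen g x := ⟨_, rfl⟩
  have hZm : ∀ j, AEMeasurable (Z j) (volume.restrict K1) := by
    intro j
    rw [hZdef]
    exact ((hLm.pow_const _).mul (hram j)).mul hVm
  have hZ : ∀ j, MemLp (Z j) 2 (volume.restrict K1) := by
    intro j
    refine (hLL.const_mul (3 * (C * C) * C)).mono' (hZm j).aestronglyMeasurable ?_
    rw [ae_restrict_iff' hK1m]
    refine ae_of_all _ fun x hx => ?_
    obtain ⟨h1, -, -, -, -, -, -, -, h2, -, h3⟩ := hCx x hx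
    rw [hZdef, Real.norm_eq_abs, abs_mul, abs_mul, abs_of_nonneg (hvol0 x),
      abs_of_nonneg (Real.rpow_nonneg (hlen0 x) _)]
    have h4 := MFLX.ra_le hC h1 h2 (G x) j
    have h5 := MFLX.rpow_sub_mul (hlen0 x) hε0
    have h6 := MFLX.rpow_le_one_add (hlen0 x) hε0 hε1
    have h7 : len g x (G x) ^ (ε - 1) * |MFLX.ra g x (G x) j| ≤
        3 * (C * C) * (1 + len g x (G x)) := by
      calc len g x (G x) ^ (ε - 1) * |MFLX.ra g x (G x) j|
          ≤ len g x (G x) ^ (ε - 1) * (3 * (C * (C * len g x (G x)))) :=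
            mul_le_mul_of_nonneg_left h4 (Real.rpow_nonneg (hlen0 x) _)
        _ = 3 * (C * C) * (len g x (G x) ^ (ε - 1) * len g x (G x)) := by ring
        _ ≤ 3 * (C * C) * (1 + len g x (G x)) := by
            rw [h5]
            exact mul_le_mul_of_nonneg_left h6 (by positivity)
    calc len g x (G x) ^ (ε - 1) * |MFLX.ra g x (G x) j| * volDen g x
        ≤ 3 * (C * C) * (1 + len g x (G x)) * C :=
          mul_le_mul h7 h3 (hvol0 x) (by have := hlen0 x; positivity)
      _ = 3 * (C * C) * C * (1 + len g x (G x)) := by ring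
  have hR : Integrable R (volume.restrict K1) := by
    obtain ⟨C', hC'⟩ : ∃ C' : ℝ, C' = 3 * (3 * (C * C)) +
      3 * (3 * (C * (3 * (C * C)) * (3 * (C * C)))) := ⟨_, rfl⟩
    have hC'0 : 0 ≤ C' := by
      rw [hC']
      positivity
    refine ((hLL.integrable (by norm_num)).const_mul (C' * C)).mono' ?_ ?_
    · rw [hRdef]
      exact (((hLm.pow_const _).mul hBm).mul hVm).aestronglyMeasurable
    · rw [ae_restrict_iff' hK1m]
      refine ae_of_all _ fun x hx => ?_
      obtain ⟨h1, -, -, -, h1h, -, -, -, h2, -, h3⟩ := hCx x hx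
      rw [hRdef, Real.norm_eq_abs, abs_mul, abs_mul, abs_of_nonneg (hvol0 x),
        abs_of_nonneg (Real.rpow_nonneg (hlen0 x) _)]
      have h4 := MFLX.beps_le (h := h) hC h1 h2 hε0 hε1 h1h (G x)
      rw [← hC'] at h4
      have h6 := MFLX.rpow_le_one_add (hlen0 x) hε0 hε1
      calc len g x (G x) ^ ε * |beps ε g x (G x) (h x)| * volDen g x
          ≤ (1 + len g x (G x)) * C' * C :=
            mul_le_mul (mul_le_mul h6 h4 (abs_nonneg _) (by have := hlen0 x; positivity)) h3
              (hvol0 x) (by have := hlen0 x; positivity)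
        _ = C' * C * (1 + len g x (G x)) := by ring
  -- the approximation
  obtain ⟨v, hv, hvu, hvG, -⟩ := hH2.approx K1 hK1 hK1A
  have huc : ContinuousOn u K1 := hH2.cont.mono hK1A
  have hψc : Continuous ψ := hψ.continuous
  have hψ'c : Continuous (deriv ψ) := hψ.continuous_deriv (by simp)
  have hid : ∀ n, ∫ x in K1, ∑ j, (Z j x * (deriv ψ (v n x) * ζ x * pd j (v n) x)
      + Z j x * (ψ (v n x) * pd j ζ x)) = ∫ x in K1, R x * (ψ (v n x) * ζ x) := by
    intro n
    have h1 := hweak (fun x => ψ (v n x) * ζ x) ?_ ?_ ?_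
    · have h2 : ∫ x, len g x (G x) ^ (ε - 1) *
          ev (g x)⁻¹ (G x) (grad (fun x => ψ (v n x) * ζ x) x) * volDen g x =
          ∫ x in K1, ∑ j, (Z j x * (deriv ψ (v n x) * ζ x * pd j (v n) x)
            + Z j x * (ψ (v n x) * pd j ζ x)) := by
        rw [← setIntegral_eq_integral_of_forall_compl_eq_zero (s := K1)]
        · refine integral_congr_ae (ae_of_all _ fun x => ?_)
          change len g x (G x) ^ (ε - 1) *
            ev (g x)⁻¹ (G x) (grad (fun x => ψ (v n x) * ζ x) x) * volDen g x = _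
          rw [MFLX.ev_eq, Finset.mul_sum, Finset.sum_mul]
          refine Finset.sum_congr rfl fun j _ => ?_
          have h3 : grad (fun x => ψ (v n x) * ζ x) x j =
              deriv ψ (v n x) * ζ x * pd j (v n) x + ψ (v n x) * pd j ζ x :=
            MFLX.pd_chi hψ (hv n) hζ j x
          rw [h3, hZdef]
          ring
        · intro x hx
          rw [MFLX.ev_eq, Finset.sum_eq_zero, mul_zero, zero_mul]
          intro j _
          have h3 : grad (fun x => ψ (v n x) * ζ x) x j =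
              deriv ψ (v n x) * ζ x * pd j (v n) x + ψ (v n x) * pd j ζ x :=
            MFLX.pd_chi hψ (hv n) hζ j x
          rw [h3, hζoff x hx, hζoff' x hx j]
          ring
      have h3 : ∫ x, len g x (G x) ^ ε * beps ε g x (G x) (h x) * (ψ (v n x) * ζ x)
          * volDen g x = ∫ x in K1, R x * (ψ (v n x) * ζ x) := by
        rw [← setIntegral_eq_integral_of_forall_compl_eq_zero (s := K1)]
        · refine integral_congr_ae (ae_of_all _ fun x => ?_)
          change len g x (G x) ^ ε * beps ε g x (G x) (h x) * (ψ (v n x) * ζ x)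
            * volDen g x = R x * (ψ (v n x) * ζ x)
          rw [hRdef]
          ring
        · intro x hx
          rw [hζoff x hx]
          ring
      rw [← h2, ← h3]
      exact h1
    · exact (hψ.comp ((hv n).of_le (by exact_mod_cast le_top))).mul
        (hζ.of_le (by exact_mod_cast le_top))
    · exact hζc.mul_left
    · exact (tsupport_mul_subset_right).trans hζs
  -- bounded continuous coefficients
  have hcb : ∀ {c : E3 → ℝ}, ContinuousOn c K1 →
      AEStronglyMeasurable c (volume.restrict K1) ∧ ∃ B : ℝ,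
        ∀ᵐ x ∂(volume.restrict K1), |c x| ≤ B := by
    intro c hc
    obtain ⟨B, hB⟩ := hK1.exists_bound_of_continuousOn hc
    refine ⟨hc.aestronglyMeasurable hK1m, B, ?_⟩
    rw [ae_restrict_iff' hK1m]
    exact ae_of_all _ hB
  have hun : ∀ {f : ℝ → ℝ} {z : E3 → ℝ}, Continuous f → Continuous z → ∀ η > 0,
      ∀ᶠ n in atTop, ∀ᵐ x ∂(volume.restrict K1), |f (v n x) * z x - f (u x) * z x| ≤ η := by
    intro f z hf hz η hη
    filter_upwards [MFLX.unif hK1 huc hvu hf hz η hη] with n hn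
    rw [ae_restrict_iff' hK1m]
    exact ae_of_all _ hn
  have hcu : ∀ {f : ℝ → ℝ} {z : E3 → ℝ}, Continuous f → Continuous z →
      ContinuousOn (fun x => f (u x) * z x) K1 := fun hf hz =>
    (hf.comp_continuousOn huc).mul hz.continuousOn
  have hcv : ∀ {f : ℝ → ℝ} {z : E3 → ℝ} (n : ℕ), Continuous f → Continuous z →
      ContinuousOn (fun x => f (v n x) * z x) K1 := fun n hf hz =>
    ((hf.comp (hv n).continuous).mul hz).continuousOn
  have hζcont : Continuous ζ := hζ.continuous
  have hζj : ∀ j, Continuous (pd j ζ) := fun j => MAP.cont_pd hζ j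
  have hvL : ∀ n j, MemLp (pd j (v n)) 2 (volume.restrict K1) := by
    intro n j
    have hc : Continuous (pd j (v n)) := MAP.cont_pd (hv n) j
    obtain ⟨B, hB⟩ := hK1.exists_bound_of_continuousOn hc.continuousOn
    refine MemLp.of_bound hc.aestronglyMeasurable B ?_
    rw [ae_restrict_iff' hK1m]
    exact ae_of_all _ hB
  have hGL : ∀ j, MemLp (fun x => G x j) 2 (volume.restrict K1) := hH2.memG K1 hK1 hK1A
  -- the limits
  have L1 : ∀ j, Tendsto (fun n => ∫ x in K1, Z j x * (deriv ψ (v n x) * ζ x * pd j (v n) x))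
      atTop (𝓝 (∫ x in K1, Z j x * (deriv ψ (u x) * ζ x * G x j))) := by
    intro j
    obtain ⟨hm, B, hB⟩ := hcb (hcu hψ'c hζcont)
    exact MFLX.lim_mul (hZ j) (hGL j) (fun n => hvL n j) (hvG j) hm
      (fun n => (hcb (hcv n hψ'c hζcont)).1) B hB (hun hψ'c hζcont)
  have L2 : ∀ j, Tendsto (fun n => ∫ x in K1, Z j x * (ψ (v n x) * pd j ζ x))
      atTop (𝓝 (∫ x in K1, Z j x * (ψ (u x) * pd j ζ x))) := by
    intro j
    obtain ⟨hm, B, hB⟩ := hcb (hcu hψc (hζj j))
    exact MFLX.lim_bdd ((hZ j).integrable (by norm_num)) hm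
      (fun n => (hcb (hcv n hψc (hζj j))).1) B hB (hun hψc (hζj j))
  have L3 : Tendsto (fun n => ∫ x in K1, R x * (ψ (v n x) * ζ x)) atTop
      (𝓝 (∫ x in K1, R x * (ψ (u x) * ζ x))) := by
    obtain ⟨hm, B, hB⟩ := hcb (hcu hψc hζcont)
    exact MFLX.lim_bdd hR hm (fun n => (hcb (hcv n hψc hζcont)).1) B hB (hun hψc hζcont)
  have i1 : ∀ n j, Integrable (fun x => Z j x * (deriv ψ (v n x) * ζ x * pd j (v n) x))
      (volume.restrict K1) := by
    intro n j
    obtain ⟨hm, B, hB⟩ := hcb (hcv n hψ'c hζcont)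
    have h1 : Integrable (fun x => Z j x * pd j (v n) x * (deriv ψ (v n x) * ζ x))
        (volume.restrict K1) := ((hZ j).integrable_mul (hvL n j)).mul_bdd (c := B) hm hB
    refine h1.congr (ae_of_all _ fun x => ?_)
    change Z j x * pd j (v n) x * (deriv ψ (v n x) * ζ x) =
      Z j x * (deriv ψ (v n x) * ζ x * pd j (v n) x)
    ring
  have i2 : ∀ n j, Integrable (fun x => Z j x * (ψ (v n x) * pd j ζ x))
      (volume.restrict K1) := by
    intro n j
    obtain ⟨hm, B, hB⟩ := hcb (hcv n hψc (hζj j))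
    exact ((hZ j).integrable (by norm_num)).mul_bdd (c := B) hm hB
  have i3 : ∀ j, Integrable (fun x => Z j x * (deriv ψ (u x) * ζ x * G x j))
      (volume.restrict K1) := by
    intro j
    obtain ⟨hm, B, hB⟩ := hcb (hcu hψ'c hζcont)
    have h1 : Integrable (fun x => Z j x * G x j * (deriv ψ (u x) * ζ x))
        (volume.restrict K1) := ((hZ j).integrable_mul (hGL j)).mul_bdd (c := B) hm hB
    refine h1.congr (ae_of_all _ fun x => ?_)
    change Z j x * G x j * (deriv ψ (u x) * ζ x) = Z j x * (deriv ψ (u x) * ζ x * G x j)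
    ring
  have i4 : ∀ j, Integrable (fun x => Z j x * (ψ (u x) * pd j ζ x))
      (volume.restrict K1) := by
    intro j
    obtain ⟨hm, B, hB⟩ := hcb (hcu hψc (hζj j))
    exact ((hZ j).integrable (by norm_num)).mul_bdd (c := B) hm hB
  have L4 : Tendsto (fun n => ∫ x in K1, ∑ j, (Z j x * (deriv ψ (v n x) * ζ x * pd j (v n) x)
      + Z j x * (ψ (v n x) * pd j ζ x))) atTop
      (𝓝 (∫ x in K1, ∑ j, (Z j x * (deriv ψ (u x) * ζ x * G x j)
        + Z j x * (ψ (u x) * pd j ζ x)))) := by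
    have i12 : ∀ n j, Integrable (fun x => Z j x * (deriv ψ (v n x) * ζ x * pd j (v n) x)
        + Z j x * (ψ (v n x) * pd j ζ x)) (volume.restrict K1) := fun n j =>
      (i1 n j).add (i2 n j)
    have i34 : ∀ j, Integrable (fun x => Z j x * (deriv ψ (u x) * ζ x * G x j)
        + Z j x * (ψ (u x) * pd j ζ x)) (volume.restrict K1) := fun j => (i3 j).add (i4 j)
    rw [integral_finsetSum _ fun j _ => i34 j]
    have h1 : ∀ n, ∫ x in K1, ∑ j, (Z j x * (deriv ψ (v n x) * ζ x * pd j (v n) x)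
        + Z j x * (ψ (v n x) * pd j ζ x)) =
        ∑ j, ((∫ x in K1, Z j x * (deriv ψ (v n x) * ζ x * pd j (v n) x))
          + ∫ x in K1, Z j x * (ψ (v n x) * pd j ζ x)) := by
      intro n
      rw [integral_finsetSum _ fun j _ => i12 n j]
      exact Finset.sum_congr rfl fun j _ => integral_add (i1 n j) (i2 n j)
    simp_rw [h1]
    refine tendsto_finsetSum _ fun j _ => ?_
    rw [integral_add (i3 j) (i4 j)]
    exact (L1 j).add (L2 j)
  have hfinal := tendsto_nhds_unique L4 (by simpa only [hid] using L3)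
  -- rewriting both sides
  have hψ0 : ∀ x ∈ Ann a b, x ∉ K → ψ (u x) = 0 := by
    intro x hx hxK
    by_contra h1
    exact hxK (hsupp x hx (subset_tsupport ψ h1))
  have hψ'0 : ∀ x ∈ Ann a b, x ∉ K → deriv ψ (u x) = 0 := by
    intro x hx hxK
    by_contra h1
    exact hxK (hsupp x hx (support_deriv_subset h1))
  have e1 : ∫ x in Ann a b, deriv ψ (u x) * len g x (G x) ^ (1 + ε) * volDen g x =
      ∫ x in K1, ∑ j, (Z j x * (deriv ψ (u x) * ζ x * G x j) + Z j x * (ψ (u x) * pd j ζ x)) := by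
    rw [setIntegral_eq_of_subset_of_forall_sdiff_eq_zero hAo.measurableSet hK1A]
    · refine setIntegral_congr_fun hK1m fun x hx => ?_
      change deriv ψ (u x) * len g x (G x) ^ (1 + ε) * volDen g x = _
      have h1 : ∀ j, ψ (u x) * pd j ζ x = 0 := by
        intro j
        by_cases hxK : x ∈ K
        · rw [hζpd x hxK j, mul_zero]
        · rw [hψ0 x (hK1A hx) hxK, zero_mul]
      have h2 : deriv ψ (u x) * ζ x = deriv ψ (u x) := by
        by_cases hxK : x ∈ K
        · rw [hζK x hxK, mul_one]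
        · rw [hψ'0 x (hK1A hx) hxK, zero_mul]
      have h3 : ∑ j, (Z j x * (deriv ψ (u x) * ζ x * G x j) + Z j x * (ψ (u x) * pd j ζ x)) =
          deriv ψ (u x) * (len g x (G x) ^ (ε - 1) * ev (g x)⁻¹ (G x) (G x)) * volDen g x := by
        rw [MFLX.ev_eq, Finset.mul_sum, Finset.mul_sum, Finset.sum_mul]
        refine Finset.sum_congr rfl fun j _ => ?_
        rw [h1 j, h2, hZdef]
        ring
      rw [h3]
      have h4 : ev (g x)⁻¹ (G x) (G x) = len g x (G x) * len g x (G x) := by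
        have h5 : 0 ≤ ev (g x)⁻¹ (G x) (G x) :=
          le_trans (div_nonneg (MFLX.vsq_nonneg _) hC0.le) ((hCx x hx).1 (G x)).1
        unfold len
        rw [Real.mul_self_sqrt h5]
      have h5 : len g x (G x) ^ (1 + ε) = len g x (G x) ^ (ε - 1) *
          (len g x (G x) * len g x (G x)) := by
        rw [← mul_assoc, MFLX.rpow_sub_mul (hlen0 x) hε0]
        have h6 := MFLX.rpow_sub_mul (ε := 1 + ε) (hlen0 x) (by linarith)
        rw [add_sub_cancel_left] at h6
        exact h6.symm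
      rw [h4, h5]
    · intro x hx
      rw [hψ'0 x hx.1 fun hxK => hx.2 (hKK1 hxK), zero_mul, zero_mul]
  have e2 : ∫ x in Ann a b, len g x (G x) ^ ε * beps ε g x (G x) (h x) * ψ (u x) * volDen g x =
      ∫ x in K1, R x * (ψ (u x) * ζ x) := by
    rw [setIntegral_eq_of_subset_of_forall_sdiff_eq_zero hAo.measurableSet hK1A]
    · refine setIntegral_congr_fun hK1m fun x hx => ?_
      change len g x (G x) ^ ε * beps ε g x (G x) (h x) * ψ (u x) * volDen g x =
        R x * (ψ (u x) * ζ x)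
      have h2 : ψ (u x) * ζ x = ψ (u x) := by
        by_cases hxK : x ∈ K
        · rw [hζK x hxK, mul_one]
        · rw [hψ0 x (hK1A hx) hxK, zero_mul]
      rw [h2, hRdef]
      ring
    · intro x hx
      rw [hψ0 x hx.1 fun hxK => hx.2 (hKK1 hxK), mul_zero, zero_mul]
  rw [e1, e2, hfinal]

end Pool.Agent.PFlow


end

section

/-!
# The limit `τ → 0`, `ε → 0`
-/

set_option autoImplicit false

open MeasureTheory Filter Topology
open scoped ContDiff ENNReal

namespace Pool.Agent.PFlow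

open Pool.Agent.PenroseSph

namespace LIMm

/-- The right hand side with `τ = ε`. -/
noncomputable def F (m V D ε : ℝ) : ℝ :=
  ((4 * Real.pi * (2 - ε) ^ 2 + ε) * ((4 * Real.pi * (2 - ε) - ε) / (8 * Real.pi * m)) ^ (-(2 - ε))
    * D) ^ (1 / (1 + ε)) * V ^ (ε / (1 + ε))

theorem F_tendsto {m V D : ℝ} (hm : 0 < m) (hV : 0 < V) :
    Tendsto (F m V D) (𝓝[>] 0) (𝓝 (16 * Real.pi * m ^ 2 * D)) := by
  have hpi := Real.pi_pos
  have hc : ContinuousAt (F m V D) 0 := by
    unfold F
    have e1 : ContinuousAt (fun ε : ℝ => 1 / (1 + ε)) 0 :=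
      ContinuousAt.div continuousAt_const (by fun_prop) (by norm_num)
    have e2 : ContinuousAt (fun ε : ℝ => ε / (1 + ε)) 0 :=
      ContinuousAt.div continuousAt_id (by fun_prop) (by norm_num)
    have e3 : ContinuousAt (fun ε : ℝ => ((4 * Real.pi * (2 - ε) - ε) / (8 * Real.pi * m))
        ^ (-(2 - ε))) 0 := by
      refine ContinuousAt.rpow (by fun_prop) (by fun_prop) (Or.inl ?_)
      have : 0 < (4 * Real.pi * (2 - 0) - 0) / (8 * Real.pi * m) := by
        apply div_pos <;> [(ring_nf; positivity); positivity]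
      exact this.ne'
    have e4 : ContinuousAt (fun ε : ℝ => (4 * Real.pi * (2 - ε) ^ 2 + ε)
        * ((4 * Real.pi * (2 - ε) - ε) / (8 * Real.pi * m)) ^ (-(2 - ε)) * D) 0 :=
      ((by fun_prop : ContinuousAt (fun ε : ℝ => 4 * Real.pi * (2 - ε) ^ 2 + ε) 0).mul e3).mul
        continuousAt_const
    refine (ContinuousAt.rpow e4 e1 (Or.inr (by norm_num))).mul
      (ContinuousAt.rpow continuousAt_const e2 (Or.inl hV.ne'))
  have hv : F m V D 0 = 16 * Real.pi * m ^ 2 * D := by
    unfold F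
    have h1 : (4 * Real.pi * (2 - 0) - 0) / (8 * Real.pi * m) = m⁻¹ := by
      field_simp
      ring
    rw [h1]
    have h2 : (m⁻¹ : ℝ) ^ (-(2 - 0 : ℝ)) = m ^ 2 := by
      rw [sub_zero, Real.rpow_neg (by positivity), Real.rpow_two, inv_pow, inv_inv]
    rw [h2, add_zero, add_zero, zero_div, Real.rpow_zero, mul_one, div_one, Real.rpow_one,
      sub_zero]
    ring
  rw [← hv]
  exact hc.tendsto.mono_left nhdsWithin_le_nhds

end LIMm

open LIMm in
theorem LIM : Stmt_LIM := by
  intro g m V hV H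
  have hpi := Real.pi_pos
  have hpi3 := Real.pi_gt_three
  have hm : 0 < m := by
    obtain ⟨lm, J, h1, h2, h3, _⟩ := H (1 / 2) 1 (by norm_num) le_rfl one_pos
    by_contra hneg
    have h4 : 8 * Real.pi * m * lm ≤ 0 := by
      have : 8 * Real.pi * m ≤ 0 := mul_nonpos_of_nonneg_of_nonpos (by positivity) (not_lt.mp hneg)
      exact mul_nonpos_of_nonpos_of_nonneg this h1.le
    nlinarith
  -- the inequality for two levels
  have key : ∀ A s₀ s₁ : ℝ, 0 < s₀ → s₀ < s₁ → s₁ ≤ 1 →
      (∀ U : Set E3, Separates U → ENNReal.ofReal A ≤ perimeter g U) →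
      A * (s₁ - s₀) ≤ 16 * Real.pi * m ^ 2 * (Real.exp s₁ - Real.exp s₀) := by
    intro A s₀ s₁ h0 h1 h2 hA
    have hD : 0 < Real.exp s₁ - Real.exp s₀ := sub_pos.mpr (Real.exp_lt_exp.mpr h1)
    refine ge_of_tendsto (F_tendsto hm hV) ?_
    have hev : ∀ᶠ ε : ℝ in 𝓝[>] 0, ε < min s₀ (1 / 2) :=
      nhdsWithin_le_nhds (eventually_lt_nhds (lt_min h0 (by norm_num)))
    filter_upwards [hev, self_mem_nhdsWithin] with ε hε1 hε0
    have hε0' : 0 < ε := hε0
    have hεs : ε < s₀ := hε1.trans_le (min_le_left _ _)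
    have hεh : ε < 1 / 2 := hε1.trans_le (min_le_right _ _)
    obtain ⟨lm, J, g1, g2, g3, g4, g5⟩ := H ε ε hε0' hεh.le hε0'
    refine (g5 s₀ s₁ A hεs.le h1 h2 hA).trans ?_
    unfold F
    have hL : 0 < (4 * Real.pi * (2 - ε) - ε) / (8 * Real.pi * m) := by
      apply div_pos _ (by positivity)
      nlinarith
    have hLl : (4 * Real.pi * (2 - ε) - ε) / (8 * Real.pi * m) ≤ lm := by
      rw [div_le_iff₀ (by positivity)]
      linarith
    have hJ : J ≤ (4 * Real.pi * (2 - ε) ^ 2 + ε)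
        * ((4 * Real.pi * (2 - ε) - ε) / (8 * Real.pi * m)) ^ (-(2 - ε)) := by
      have h5 : J ≤ (4 * Real.pi * (2 - ε) ^ 2 + ε) * lm ^ (-(2 - ε)) := by
        rw [Real.rpow_neg g1.le, ← div_eq_mul_inv, le_div_iff₀ (Real.rpow_pos_of_pos g1 _)]
        exact g4
      refine h5.trans (mul_le_mul_of_nonneg_left ?_ (by positivity))
      exact Real.rpow_le_rpow_of_nonpos hL hLl (by linarith)
    refine mul_le_mul_of_nonneg_right ?_ (Real.rpow_nonneg hV.le _)
    refine Real.rpow_le_rpow (mul_nonneg g2 hD.le) ?_ (by positivity)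
    exact mul_le_mul_of_nonneg_right hJ hD.le
  have main : ∀ A : ℝ, (∀ U : Set E3, Separates U → ENNReal.ofReal A ≤ perimeter g U) →
      A ≤ 16 * Real.pi * m ^ 2 := by
    intro A hA
    have h1 : ∀ s : ℝ, 0 < s → s ≤ 1 / 2 → A ≤ 16 * Real.pi * m ^ 2 * Real.exp (2 * s) := by
      intro s hs hs2
      have h2 := key A s (2 * s) hs (by linarith) (by linarith) hA
      have h3 : Real.exp (2 * s) - Real.exp s ≤ s * Real.exp (2 * s) := by
        have h4 : Real.exp s = Real.exp (2 * s) * Real.exp (-s) := by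
          rw [← Real.exp_add]
          congr 1
          ring
        have h5 : 1 - s ≤ Real.exp (-s) := by
          have := Real.add_one_le_exp (-s)
          linarith
        have h6 : Real.exp (2 * s) * (1 - s) ≤ Real.exp (2 * s) * Real.exp (-s) :=
          mul_le_mul_of_nonneg_left h5 (Real.exp_pos _).le
        rw [h4]
        linarith
      have h7 : A * s ≤ (16 * Real.pi * m ^ 2 * Real.exp (2 * s)) * s := by
        have h8 : 16 * Real.pi * m ^ 2 * (Real.exp (2 * s) - Real.exp s)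
            ≤ 16 * Real.pi * m ^ 2 * (s * Real.exp (2 * s)) :=
          mul_le_mul_of_nonneg_left h3 (by positivity)
        have h9 : 2 * s - s = s := by ring
        rw [h9] at h2
        linarith
      exact le_of_mul_le_mul_right h7 hs
    have h2 : Tendsto (fun s : ℝ => 16 * Real.pi * m ^ 2 * Real.exp (2 * s)) (𝓝[>] 0)
        (𝓝 (16 * Real.pi * m ^ 2 * Real.exp (2 * 0))) := by
      have : Continuous fun s : ℝ => 16 * Real.pi * m ^ 2 * Real.exp (2 * s) := by fun_prop
      exact this.continuousAt.tendsto.mono_left nhdsWithin_le_nhds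
    rw [mul_zero, Real.exp_zero, mul_one] at h2
    refine ge_of_tendsto h2 ?_
    have hev : ∀ᶠ s : ℝ in 𝓝[>] 0, s < 1 / 2 :=
      nhdsWithin_le_nhds (eventually_lt_nhds (by norm_num))
    filter_upwards [hev, self_mem_nhdsWithin] with s hs1 hs0
    exact h1 s hs0 hs1.le
  have hne : minArea g ≠ ⊤ := by
    intro htop
    have h1 : ∀ U : Set E3, Separates U →
        ENNReal.ofReal (16 * Real.pi * m ^ 2 + 1) ≤ perimeter g U := by
      intro U hU
      have h2 : minArea g ≤ perimeter g U := iInf₂_le U hU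
      rw [htop, top_le_iff] at h2
      rw [h2]
      exact le_top
    have := main _ h1
    linarith
  refine ⟨hne, ?_⟩
  have h1 : (minArea g).toReal ≤ 16 * Real.pi * m ^ 2 := by
    refine main _ fun U hU => ?_
    rw [ENNReal.ofReal_toReal hne]
    exact iInf₂_le U hU
  have h2 : (minArea g).toReal / (16 * Real.pi) ≤ m ^ 2 := by
    rw [div_le_iff₀ (by positivity)]
    linarith
  calc Real.sqrt ((minArea g).toReal / (16 * Real.pi)) ≤ Real.sqrt (m ^ 2) := Real.sqrt_le_sqrt h2
    _ = m := Real.sqrt_sq hm.le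

end Pool.Agent.PFlow


end
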