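import Mathlib
import Pool.Agent.PFlow.StmtsE2
import Pool.Agent.PenroseM.C03
import Pool.Agent.PenroseM.C12
import Pool.Agent.PenroseM.C22

/-! Parts: PFlow.G.ALG, PFlow.G.COVG, PFlow.E.LEYa, PFlow.E.LEYb, PFlow.E.LEY -/

section

/-!
# Block GB: linear algebra at a point
-/

open MeasureTheory Filter Topology
open scoped ContDiff

namespace Pool.Agent.PFlow.GB

open Pool.Agent.PenroseSph Pool.Agent.PFlow

namespace ALG

/-- Cauchy-Schwarz from nonnegativity of a quadratic polynomial. -/
lemma cs (a b c : ℝ) (hc : 0 ≤ c) (h : ∀ t : ℝ, 0 ≤ a + 2 * t * b + t ^ 2 * c) :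
    b ^ 2 ≤ a * c := by
  rcases hc.lt_or_eq with h1 | h1
  · have h2 := h (-(b / c))
    have e : a + 2 * (-(b / c)) * b + (-(b / c)) ^ 2 * c = a - b ^ 2 / c := by
      field_simp
      ring
    rw [e, sub_nonneg, div_le_iff₀ h1] at h2
    exact h2
  · subst h1
    have hb : b = 0 := by
      by_contra hb
      have h2 := h (-((a + 1) / (2 * b)))
      have e : a + 2 * (-((a + 1) / (2 * b))) * b + (-((a + 1) / (2 * b))) ^ 2 * 0 = -1 := by
        field_simp
        ring
      rw [e] at h2
      linarith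
    rw [hb]
    simp

lemma ev_eq (B : Bil) (v w : Cov) : ev B v w = ∑ i, v i * ∑ j, B i j * w j := by
  unfold ev
  refine Finset.sum_congr rfl fun i _ => ?_
  rw [Finset.mul_sum]
  exact Finset.sum_congr rfl fun j _ => by ring

lemma ev_add_smul (B : Bil) (v w : Cov) (t : ℝ) :
    ev B (fun i => v i + t * w i) (fun i => v i + t * w i) =
      ev B v v + t * (ev B v w + ev B w v) + t ^ 2 * ev B w w := by
  unfold ev
  simp only [Fin.sum_univ_three]
  ring

lemma ev_symm {B : Bil} (hB : ∀ i j, B i j = B j i) (v w : Cov) : ev B v w = ev B w v := by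
  unfold ev
  rw [Finset.sum_comm]
  refine Finset.sum_congr rfl fun i _ => Finset.sum_congr rfl fun j _ => ?_
  rw [hB j i]
  ring

end ALG

open ALG in
theorem ALG : Stmt_ALG := by
  intro g x p hg hp
  set G : Bil := (g x)⁻¹ with hG
  set l : ℝ := len g x p with hl
  have hdet : 0 < (g x).det := hg.det_pos
  have hunit : IsUnit (g x).det := hdet.ne'.isUnit
  have hgs : ∀ i j, g x i j = g x j i := by
    intro i j
    have h2 := congrFun (congrFun hg.isHermitian j) i
    rw [Matrix.conjTranspose_apply] at h2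
    simpa using h2
  have hGpos : G.PosDef := hg.inv
  have hGs : ∀ i j, G i j = G j i := by
    intro i j
    have h2 := congrFun (congrFun hGpos.isHermitian j) i
    rw [Matrix.conjTranspose_apply] at h2
    simpa using h2
  have hevpos : ∀ A : Cov, A ≠ 0 → 0 < ev G A A := by
    intro A hA
    have h1 := hGpos.dotProduct_mulVec_pos hA
    have h2 : ev G A A = star A ⬝ᵥ G.mulVec A := by
      rw [ev_eq]
      rfl
    rw [h2]
    exact h1
  have hevnn : ∀ A : Cov, 0 ≤ ev G A A := by
    intro A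
    by_cases hA : A = 0
    · rw [hA]
      unfold ev
      simp
    · exact (hevpos A hA).le
  have hGg : ∀ i k, ∑ j, G i j * g x j k = if i = k then 1 else 0 := by
    intro i k
    rw [← Matrix.mul_apply, hG, Matrix.nonsing_inv_mul _ hunit, Matrix.one_apply]
  have hgG : ∀ i k, ∑ j, g x i j * G j k = if i = k then 1 else 0 := by
    intro i k
    rw [← Matrix.mul_apply, hG, Matrix.mul_nonsing_inv _ hunit, Matrix.one_apply]
  have hlpos : 0 < l := Real.sqrt_pos.mpr (hevpos p hp)
  have hl2 : l * l = ev G p p := Real.mul_self_sqrt (hevnn p)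
  -- the normal
  have hn : ∀ i, nrm g x p i = (∑ j, G i j * p j) / l := fun i => rfl
  have hnA : ∀ A : Cov, ∑ i, A i * nrm g x p i = ev G A p / l := by
    intro A
    rw [ev_eq, Finset.sum_div]
    refine Finset.sum_congr rfl fun i _ => ?_
    rw [hn]
    ring
  have hnp : ∑ i, nrm g x p i * p i = l := by
    have h1 : ∑ i, nrm g x p i * p i = ∑ i, p i * nrm g x p i :=
      Finset.sum_congr rfl fun i _ => mul_comm _ _
    rw [h1, hnA, ← hl2]
    field_simp
  have hgn : ∀ k, ∑ j, nrm g x p j * g x j k = p k / l := by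
    intro k
    have h1 : ∀ j, nrm g x p j * g x j k = ∑ m, (g x k j * G j m) * p m / l := by
      intro j
      rw [hn, ← Finset.sum_div, hgs j k, div_mul_eq_mul_div, Finset.sum_mul]
      congr 1
      exact Finset.sum_congr rfl fun m _ => by ring
    rw [Finset.sum_congr rfl fun j _ => h1 j, Finset.sum_comm]
    have h2 : ∀ m, ∑ j, (g x k j * G j m) * p m / l = (if k = m then 1 else 0) * p m / l := by
      intro m
      rw [← hgG k m, ← Finset.sum_div, ← Finset.sum_mul]
    rw [Finset.sum_congr rfl fun m _ => h2 m, ← Finset.sum_div]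
    simp
  have hnn : ev (g x) (nrm g x p) (nrm g x p) = 1 := by
    have h1 : ev (g x) (nrm g x p) (nrm g x p) =
        ∑ k, (∑ j, nrm g x p j * g x j k) * nrm g x p k := by
      unfold ev
      rw [Finset.sum_comm]
      refine Finset.sum_congr rfl fun k _ => ?_
      rw [Finset.sum_mul]
      exact Finset.sum_congr rfl fun j _ => by ring
    rw [h1]
    have h2 : ∀ k, (∑ j, nrm g x p j * g x j k) * nrm g x p k = (nrm g x p k * p k) / l := by
      intro k
      rw [hgn]
      ring
    rw [Finset.sum_congr rfl fun k _ => h2 k, ← Finset.sum_div, hnp, div_self hlpos.ne']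
  -- the projection
  have hPs : ∀ i j, prj g x p i j = prj g x p j i := by
    intro i j
    unfold prj
    rw [← hG, hGs i j]
    ring
  have hPp : ∀ i, ∑ j, prj g x p i j * p j = 0 := by
    intro i
    have h1 : ∀ j, prj g x p i j * p j = G i j * p j - nrm g x p i * (nrm g x p j * p j) := by
      intro j
      unfold prj
      rw [← hG]
      ring
    rw [Finset.sum_congr rfl fun j _ => h1 j, Finset.sum_sub_distrib, ← Finset.mul_sum, hnp, hn]
    field_simp
    ring
  have hPg : ∀ i k, ∑ j, prj g x p i j * g x j k =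
      (if i = k then 1 else 0) - nrm g x p i * (p k / l) := by
    intro i k
    have h1 : ∀ j, prj g x p i j * g x j k =
        G i j * g x j k - nrm g x p i * (nrm g x p j * g x j k) := by
      intro j
      unfold prj
      rw [← hG]
      ring
    rw [Finset.sum_congr rfl fun j _ => h1 j, Finset.sum_sub_distrib, ← Finset.mul_sum, hgn, hGg]
  have hlip : ∀ A B : Cov, lip g x p A B = ∑ i, ∑ j, prj g x p i j * A i * B j := by
    intro A B
    unfold lip ev prj
    rw [Finset.sum_mul_sum, ← Finset.sum_sub_distrib]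
    refine Finset.sum_congr rfl fun i _ => ?_
    rw [← Finset.sum_sub_distrib]
    exact Finset.sum_congr rfl fun j _ => by ring
  have hlips : ∀ A B : Cov, lip g x p A B = lip g x p B A := by
    intro A B
    unfold lip
    rw [ev_symm hGs A B]
    ring
  have hlipnn : ∀ A : Cov, 0 ≤ lip g x p A A := by
    intro A
    have h1 : ev G A p ^ 2 ≤ ev G A A * ev G p p := by
      refine cs _ _ _ (hevnn p) fun t => ?_
      have h2 := hevnn (fun i => A i + t * p i)
      rw [ev_add_smul, ev_symm hGs p A] at h2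
      linarith
    unfold lip
    rw [← hG, hnA]
    have h3 : ev G A p / l * (ev G A p / l) = ev G A p ^ 2 / (l * l) := by
      field_simp
    rw [h3, sub_nonneg, div_le_iff₀ (mul_pos hlpos hlpos), hl2]
    exact h1
  have hlipcs : ∀ A B : Cov, lip g x p A B ^ 2 ≤ lip g x p A A * lip g x p B B := by
    intro A B
    refine cs _ _ _ (hlipnn B) fun t => ?_
    have h2 := hlipnn (fun i => A i + t * B i)
    have h3 : lip g x p (fun i => A i + t * B i) (fun i => A i + t * B i) =
        lip g x p A A + 2 * t * lip g x p A B + t ^ 2 * lip g x p B B := by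
      have h4 : ∑ i, (A i + t * B i) * nrm g x p i =
          ∑ i, A i * nrm g x p i + t * ∑ i, B i * nrm g x p i := by
        rw [Finset.mul_sum, ← Finset.sum_add_distrib]
        exact Finset.sum_congr rfl fun i _ => by ring
      unfold lip
      rw [← hG, ev_add_smul, ev_symm hGs B A, h4]
      ring
    rw [h3] at h2
    exact h2
  refine ⟨hlpos, Real.sqrt_pos.mpr hdet, hnp, hnn, hPs, hPp, ?_, ?_, hlip, hlips, ?_, hlipnn,
    hlipcs, ?_, ?_⟩
  · intro i m
    rw [Finset.sum_comm]
    have h1 : ∀ k, ∑ j, prj g x p i j * g x j k * prj g x p k m =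
        (if i = k then 1 else 0) * prj g x p k m -
          nrm g x p i / l * (prj g x p m k * p k) := by
      intro k
      rw [← Finset.sum_mul, hPg, hPs k m]
      ring
    rw [Finset.sum_congr rfl fun k _ => h1 k, Finset.sum_sub_distrib, ← Finset.mul_sum, hPp]
    simp
  · have h1 : ∀ i, ∑ j, prj g x p i j * g x i j = 1 - (nrm g x p i * p i) / l := by
      intro i
      have h2 : ∑ j, prj g x p i j * g x i j = ∑ j, prj g x p i j * g x j i :=
        Finset.sum_congr rfl fun j _ => by rw [hgs i j]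
      rw [h2, hPg, if_pos rfl]
      ring
    rw [Finset.sum_congr rfl fun i _ => h1 i, Finset.sum_sub_distrib, ← Finset.sum_div, hnp,
      div_self hlpos.ne']
    simp
    norm_num
  · intro B
    rw [hlips, hlip]
    refine Finset.sum_eq_zero fun i _ => ?_
    have h1 : ∑ j, prj g x p i j * B i * p j = B i * ∑ j, prj g x p i j * p j := by
      rw [Finset.mul_sum]
      exact Finset.sum_congr rfl fun j _ => by ring
    rw [h1, hPp, mul_zero]
  · intro A
    unfold lip
    rw [← hG]
    ring
  · intro A T hT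
    -- the covector of `T`
    let B : Cov := fun i => ∑ j, g x i j * T j
    have hGB : ∀ i, ∑ j, G i j * B j = T i := by
      intro i
      have h1 : ∀ j, G i j * B j = ∑ k, (G i j * g x j k) * T k := by
        intro j
        change G i j * (∑ k, g x j k * T k) = _
        rw [Finset.mul_sum]
        exact Finset.sum_congr rfl fun k _ => by ring
      rw [Finset.sum_congr rfl fun j _ => h1 j, Finset.sum_comm]
      have h2 : ∀ k, ∑ j, (G i j * g x j k) * T k = (if i = k then 1 else 0) * T k := by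
        intro k
        rw [← hGg i k, Finset.sum_mul]
      rw [Finset.sum_congr rfl fun k _ => h2 k]
      simp
    have hBn : ∑ i, B i * nrm g x p i = 0 := by
      rw [hnA, ev_symm hGs, ev_eq]
      have h1 : ∑ i, p i * ∑ j, G i j * B j = ∑ i, T i * p i :=
        Finset.sum_congr rfl fun i _ => by rw [hGB]; ring
      rw [h1, hT, zero_div]
    have hAB : lip g x p A B = ∑ i, A i * T i := by
      unfold lip
      rw [hBn, mul_zero, sub_zero, ← hG, ev_eq]
      exact Finset.sum_congr rfl fun i _ => by rw [hGB]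
    have hBB : lip g x p B B = ev (g x) T T := by
      unfold lip
      rw [hBn, mul_zero, sub_zero, ← hG, ev_eq, ev_eq]
      refine Finset.sum_congr rfl fun i _ => ?_
      rw [hGB]
      change (∑ j, g x i j * T j) * T i = _
      ring
    have h1 := hlipcs A B
    rwa [hAB, hBB] at h1

end Pool.Agent.PFlow.GB


end

section

/-!
# Invariance of the leafwise objects under changes of coordinates
-/

set_option autoImplicit false

open MeasureTheory Filter Topology
open scoped ContDiff

namespace Pool.Agent.PFlow.GB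

open Pool.Agent.PenroseSph Pool.Agent.PFlow Pool.Agent.PenroseConvex

namespace COVGm

/-! ### Linear algebra -/

/-- The pull-back of a covector. -/
def pc (J : Bil) (p : Cov) : Cov := fun i => ∑ a, p a * J a i

/-- The pull-back of a bilinear form. -/
def pb (J B : Bil) : Bil := Matrix.of fun i j => ∑ b, ∑ c, B b c * J b i * J c j

/-- The push-forward of a vector. -/
def pf (J : Bil) (v : Cov) : Cov := fun a => ∑ i, J a i * v i

theorem pb_eq (J B : Bil) : pb J B = J.transpose * B * J := by
  ext i j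
  simp only [pb, Matrix.of_apply, Matrix.mul_apply, Matrix.transpose_apply, Fin.sum_univ_three]
  ring

/-- The inverse metrics correspond to each other. -/
def Rel (J P Q : Bil) : Prop := ∀ b c, ∑ i, ∑ j, J b i * P i j * J c j = Q b c

theorem Rel.eq {J P Q : Bil} (h : Rel J P Q) (b c : Fin 3) :
    Q b c = ∑ i, ∑ j, J b i * P i j * J c j := (h b c).symm

theorem rel_mat {J P Q : Bil} (h : Rel J P Q) : J * P * J.transpose = Q := by
  ext b c
  rw [← h b c]
  simp only [Matrix.mul_apply, Matrix.transpose_apply, Fin.sum_univ_three]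
  ring

theorem ev_pc {J P Q : Bil} (h : Rel J P Q) (A B : Cov) : ev P (pc J A) (pc J B) = ev Q A B := by
  simp only [ev, h.eq, pc, Fin.sum_univ_three]
  ring

theorem ev_pb (J B : Bil) (v w : Cov) : ev (pb J B) v w = ev B (pf J v) (pf J w) := by
  simp only [ev, pb, pf, Matrix.of_apply, Fin.sum_univ_three]
  ring

theorem pair_pc (J : Bil) (A v : Cov) : ∑ i, pc J A i * v i = ∑ a, A a * pf J v a := by
  simp only [pc, pf, Fin.sum_univ_three]
  ring

theorem contr_pb (J B : Bil) (v : Cov) : contr (pb J B) v = pc J (contr B (pf J v)) := by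
  funext i
  simp only [contr, pb, pc, pf, Matrix.of_apply, Fin.sum_univ_three]
  ring

variable {g G : TensorField} {x X : E3} {J : Bil}

theorem len_pc (h : Rel J (g x)⁻¹ (G X)⁻¹) (p : Cov) : len g x (pc J p) = len G X p := by
  unfold len
  rw [ev_pc h]

theorem raise_pc (h : Rel J (g x)⁻¹ (G X)⁻¹) (p : Cov) :
    pf J (raise g x (pc J p)) = raise G X p := by
  funext a
  simp only [pf, raise, h.eq, pc, Fin.sum_univ_three]
  ring

theorem nrm_pc (h : Rel J (g x)⁻¹ (G X)⁻¹) (p : Cov) :
    pf J (nrm g x (pc J p)) = nrm G X p := by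
  funext a
  have h1 := congrFun (raise_pc h p) a
  unfold nrm
  rw [← h1, len_pc h]
  simp only [pf, Fin.sum_univ_three]
  ring

theorem lip_pc (h : Rel J (g x)⁻¹ (G X)⁻¹) (p A B : Cov) :
    lip g x (pc J p) (pc J A) (pc J B) = lip G X p A B := by
  unfold lip
  rw [ev_pc h, pair_pc, pair_pc, nrm_pc h]

theorem bnn_pc (h : Rel J (g x)⁻¹ (G X)⁻¹) (p : Cov) (B : Bil) :
    bnn g x (pc J p) (pb J B) = bnn G X p B := by
  unfold bnn
  rw [ev_pb, nrm_pc h]

theorem trg_pb (h : Rel J (g x)⁻¹ (G X)⁻¹) (B : Bil) : trg g x (pb J B) = trg G X B := by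
  simp only [trg, pb, h.eq, Matrix.of_apply, Fin.sum_univ_three]
  ring

theorem nsq_eq (g : TensorField) (x : E3) (B : Bil) :
    nsq g x B = Matrix.trace ((g x)⁻¹.transpose * B.transpose * (g x)⁻¹ * B) := by
  simp only [nsq, Matrix.trace, Matrix.diag, Matrix.mul_apply, Matrix.transpose_apply,
    Fin.sum_univ_three]
  ring

theorem nsq_pb (h : Rel J (g x)⁻¹ (G X)⁻¹) (B : Bil) : nsq g x (pb J B) = nsq G X B := by
  rw [nsq_eq, nsq_eq, pb_eq, ← rel_mat h]
  calc Matrix.trace ((g x)⁻¹.transpose * (J.transpose * B * J).transpose * (g x)⁻¹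
        * (J.transpose * B * J))
      = Matrix.trace (((g x)⁻¹.transpose * J.transpose * B.transpose * J * (g x)⁻¹
          * J.transpose * B) * J) := by
        congr 1
        simp only [Matrix.transpose_mul, Matrix.transpose_transpose, Matrix.mul_assoc]
    _ = Matrix.trace (J * ((g x)⁻¹.transpose * J.transpose * B.transpose * J * (g x)⁻¹
          * J.transpose * B)) := Matrix.trace_mul_comm _ _
    _ = Matrix.trace ((J * (g x)⁻¹ * J.transpose).transpose * B.transpose
          * (J * (g x)⁻¹ * J.transpose) * B) := by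
        congr 1
        simp only [Matrix.transpose_mul, Matrix.transpose_transpose, Matrix.mul_assoc]

/-- The Gauss curvature. -/
theorem gaussK_pc (h : Rel J (g x)⁻¹ (G X)⁻¹) (hs : scalarCurvature g x = scalarCurvature G X)
    (hr : ric g x = pb J (ric G X)) (p : Cov) (M' M : Bil)
    (hH : cHess g x (pc J p) M' = pb J (cHess G X p M)) :
    gaussK g x (pc J p) M' = gaussK G X p M := by
  unfold gaussK
  rw [hs, hr, hH, bnn_pc h, bnn_pc h, trg_pb h, nsq_pb h, len_pc h, contr_pb, ev_pc h, nrm_pc h]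

/-! ### Calculus -/

open PenroseConvex.CovR

theorem rel_chg {Φ : E3 → E3} {G g : TensorField} {y : E3} (h : Chg Φ G g y) :
    Rel (PenroseConvex.jac Φ y) (g y)⁻¹ (G (Φ y))⁻¹ := by
  intro b c
  have hg : g y = (PenroseConvex.jac Φ y).transpose * G (Φ y) * PenroseConvex.jac Φ y :=
    h.eq.self_of_nhds
  have h1 := inv_pull (PenroseConvex.jac Φ y) (G (Φ y)) h.det_jac h.det_G
  rw [← hg] at h1
  rw [← h1]
  simp only [Matrix.mul_apply, Matrix.transpose_apply, Fin.sum_univ_three]
  ring

/-- The gradient of a composition. -/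
theorem grad_comp {Φ : E3 → E3} {f : E3 → ℝ} {y : E3} (hf : DifferentiableAt ℝ f (Φ y))
    (hΦ : DifferentiableAt ℝ Φ y) :
    grad (fun z => f (Φ z)) y = pc (PenroseConvex.jac Φ y) (grad f (Φ y)) := by
  funext i
  exact pd_chain Φ f y i hf hΦ

/-- The Hessian of a composition. -/
theorem hess_comp {Φ : E3 → E3} {f : E3 → ℝ} {x : E3} (hf : ContDiffAt ℝ 2 f (Φ x))
    (hΦ : ContDiffAt ℝ 2 Φ x) (i j : Fin 3) :
    hess2 (fun z => f (Φ z)) x i j
      = (∑ b, ∑ c, hess2 f (Φ x) b c * PenroseConvex.jac Φ x b i * PenroseConvex.jac Φ x c j)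
        + ∑ a, grad f (Φ x) a * D2 Φ a i j x := by
  have hc : ContinuousAt Φ x := hΦ.continuousAt
  have hΦx : DifferentiableAt ℝ Φ x := hΦ.differentiableAt (by norm_num)
  have hfe : ∀ᶠ y in 𝓝 x, DifferentiableAt ℝ f (Φ y) := by
    refine hc.eventually (p := fun z => DifferentiableAt ℝ f z) ?_
    exact ((hf.of_le (by norm_num : (1 : WithTop ℕ∞) ≤ 2)).eventually (by simp)).mono
      fun z hz => hz.differentiableAt (by norm_num)
  have hΦe : ∀ᶠ y in 𝓝 x, DifferentiableAt ℝ Φ y :=
    ((hΦ.of_le (by norm_num : (1 : WithTop ℕ∞) ≤ 2)).eventually (by simp)).mono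
      fun z hz => hz.differentiableAt (by norm_num)
  have h1 : pd j (fun z => f (Φ z)) =ᶠ[𝓝 x]
      fun y => ∑ a, pd a f (Φ y) * PenroseConvex.jac Φ y a j := by
    filter_upwards [hfe, hΦe] with y h1 h2
    exact pd_chain Φ f y j h1 h2
  have h2 : ∀ a, DifferentiableAt ℝ (pd a f) (Φ x) := fun a =>
    (contDiffAt_pd hf (n := 1) (by norm_num) a).differentiableAt (by norm_num)
  have h3 : ∀ a, DifferentiableAt ℝ (fun y => pd a f (Φ y)) x := fun a => (h2 a).comp x hΦx
  have h4 := differentiableAt_jac hΦ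
  have h5 : hess2 (fun z => f (Φ z)) x i j = pd i (pd j (fun z => f (Φ z))) x := rfl
  rw [h5, pd_congr h1, pd_sum Finset.univ (fun a y => pd a f (Φ y) * PenroseConvex.jac Φ y a j)
    fun a _ => (h3 a).mul (h4 a j)]
  have h6 : ∀ a, pd i (fun y => pd a f (Φ y) * PenroseConvex.jac Φ y a j) x
      = (∑ b, hess2 f (Φ x) b a * PenroseConvex.jac Φ x b i) * PenroseConvex.jac Φ x a j
        + grad f (Φ x) a * D2 Φ a i j x := by
    intro a
    rw [pd_mul (h3 a) (h4 a j), pd_jac, pd_chain Φ (pd a f) x i (h2 a) hΦx]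
    have h7 : ∀ c, pd i (fun y => Φ y c) x = PenroseConvex.jac Φ x c i := fun c => rfl
    simp only [h7, hess2, grad, Matrix.of_apply]
    ring
  simp only [h6, Fin.sum_univ_three]
  ring

/-- The covariant Hessian of a composition. -/
theorem cHess_comp {Φ : E3 → E3} {G g : TensorField} {f : E3 → ℝ} {x : E3} (h : Chg Φ G g x)
    (hf : ContDiffAt ℝ 2 f (Φ x)) :
    cHess g x (grad (fun z => f (Φ z)) x) (hess2 (fun z => f (Φ z)) x)
      = pb (PenroseConvex.jac Φ x) (cHess G (Φ x) (grad f (Φ x)) (hess2 f (Φ x))) := by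
  have hΦx : DifferentiableAt ℝ Φ x := h.smooth.differentiableAt (by norm_num)
  have hfx : DifferentiableAt ℝ f (Φ x) := hf.differentiableAt (by norm_num)
  rw [grad_comp hfx hΦx]
  ext i j
  have h1 := hess_comp hf h.smooth i j
  have h2 : ∑ k, christoffel g k i j x * pc (PenroseConvex.jac Φ x) (grad f (Φ x)) k
      = ∑ a, grad f (Φ x) a * ∑ k, PenroseConvex.jac Φ x a k * christoffel g k i j x := by
    simp only [pc, Fin.sum_univ_three]
    ring
  simp only [cHess, Matrix.of_apply]
  rw [h1, h2]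
  simp only [covC h]
  simp only [RR, pb, Matrix.of_apply, Fin.sum_univ_three]
  ring

/-- The divergence of the columns of the adjugate of the Jacobian matrix. -/
theorem adj_div {Φ : E3 → E3} {x : E3} (h : ContDiffAt ℝ 2 Φ x) (a : Fin 3) :
    (∀ i, DifferentiableAt ℝ (fun y => (PenroseConvex.jac Φ y).adjugate i a) x) ∧
    ∑ i, pd i (fun y => (PenroseConvex.jac Φ y).adjugate i a) x = 0 := by
  have hJ := differentiableAt_jac h
  have hs := D2_symm h
  have key : ∀ (b c : Fin 3),
      let F : Fin 3 → E3 → ℝ := ![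
        fun y => PenroseConvex.jac Φ y b 1 * PenroseConvex.jac Φ y c 2
          - PenroseConvex.jac Φ y b 2 * PenroseConvex.jac Φ y c 1,
        fun y => PenroseConvex.jac Φ y b 2 * PenroseConvex.jac Φ y c 0
          - PenroseConvex.jac Φ y b 0 * PenroseConvex.jac Φ y c 2,
        fun y => PenroseConvex.jac Φ y b 0 * PenroseConvex.jac Φ y c 1
          - PenroseConvex.jac Φ y b 1 * PenroseConvex.jac Φ y c 0]
      (∀ i, DifferentiableAt ℝ (F i) x) ∧ ∑ i, pd i (F i) x = 0 := by
    intro b c F
    have hF : ∀ i, DifferentiableAt ℝ (F i) x := by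
      intro i
      fin_cases i
      · exact ((hJ b 1).mul (hJ c 2)).sub ((hJ b 2).mul (hJ c 1))
      · exact ((hJ b 2).mul (hJ c 0)).sub ((hJ b 0).mul (hJ c 2))
      · exact ((hJ b 0).mul (hJ c 1)).sub ((hJ b 1).mul (hJ c 0))
    refine ⟨hF, ?_⟩
    have e : ∀ (i j k : Fin 3), pd i (fun y => PenroseConvex.jac Φ y b j * PenroseConvex.jac Φ y c k
        - PenroseConvex.jac Φ y b k * PenroseConvex.jac Φ y c j) x
        = (PenroseConvex.jac Φ x b j * D2 Φ c i k x + PenroseConvex.jac Φ x c k * D2 Φ b i j x)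
          - (PenroseConvex.jac Φ x b k * D2 Φ c i j x
            + PenroseConvex.jac Φ x c j * D2 Φ b i k x) := by
      intro i j k
      rw [pd_sub ((hJ b j).fun_mul (hJ c k)) ((hJ b k).fun_mul (hJ c j)), pd_mul (hJ b j) (hJ c k),
        pd_mul (hJ b k) (hJ c j)]
      simp only [pd_jac]
    have e0 : F 0 = fun y => PenroseConvex.jac Φ y b 1 * PenroseConvex.jac Φ y c 2
          - PenroseConvex.jac Φ y b 2 * PenroseConvex.jac Φ y c 1 := rfl
    have e1 : F 1 = fun y => PenroseConvex.jac Φ y b 2 * PenroseConvex.jac Φ y c 0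
          - PenroseConvex.jac Φ y b 0 * PenroseConvex.jac Φ y c 2 := rfl
    have e2 : F 2 = fun y => PenroseConvex.jac Φ y b 0 * PenroseConvex.jac Φ y c 1
          - PenroseConvex.jac Φ y b 1 * PenroseConvex.jac Φ y c 0 := rfl
    rw [Fin.sum_univ_three, e0, e1, e2, e, e, e, hs b 1 0, hs b 2 0, hs b 2 1, hs c 1 0,
      hs c 2 0, hs c 2 1]
    ring
  have hadj : ∃ b c : Fin 3, ∀ i : Fin 3,
      (fun y => (PenroseConvex.jac Φ y).adjugate i a) = (![
        fun y => PenroseConvex.jac Φ y b 1 * PenroseConvex.jac Φ y c 2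
          - PenroseConvex.jac Φ y b 2 * PenroseConvex.jac Φ y c 1,
        fun y => PenroseConvex.jac Φ y b 2 * PenroseConvex.jac Φ y c 0
          - PenroseConvex.jac Φ y b 0 * PenroseConvex.jac Φ y c 2,
        fun y => PenroseConvex.jac Φ y b 0 * PenroseConvex.jac Φ y c 1
          - PenroseConvex.jac Φ y b 1 * PenroseConvex.jac Φ y c 0] : Fin 3 → E3 → ℝ) i := by
    fin_cases a
    · refine ⟨1, 2, fun i => ?_⟩
      funext y
      fin_cases i <;> simp [Matrix.adjugate_fin_three] <;> ring
    · refine ⟨2, 0, fun i => ?_⟩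
      funext y
      fin_cases i <;> simp [Matrix.adjugate_fin_three] <;> ring
    · refine ⟨0, 1, fun i => ?_⟩
      funext y
      fin_cases i <;> simp [Matrix.adjugate_fin_three] <;> ring
  obtain ⟨b, c, hbc⟩ := hadj
  obtain ⟨h1, h2⟩ := key b c
  refine ⟨fun i => by rw [hbc i]; exact h1 i, ?_⟩
  rw [← h2]
  exact Finset.sum_congr rfl fun i _ => by rw [hbc i]

/-- The divergence of a transformed vector density. -/
theorem div_comp {Φ : E3 → E3} {x : E3} (h : ContDiffAt ℝ 2 Φ x) (Z : Fin 3 → E3 → ℝ)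
    (hZ : ∀ a, DifferentiableAt ℝ (Z a) (Φ x)) :
    ∑ i, pd i (fun y => ∑ a, (PenroseConvex.jac Φ y).adjugate i a * Z a (Φ y)) x
      = (PenroseConvex.jac Φ x).det * ∑ a, pd a (Z a) (Φ x) := by
  have hΦx : DifferentiableAt ℝ Φ x := h.differentiableAt (by norm_num)
  have hA := fun a => (adj_div h a).1
  have hd := fun a => (adj_div h a).2
  have h3 : ∀ a, DifferentiableAt ℝ (fun y => Z a (Φ y)) x := fun a => (hZ a).comp x hΦx
  have h4 : ∀ i, pd i (fun y => ∑ a, (PenroseConvex.jac Φ y).adjugate i a * Z a (Φ y)) x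
      = ∑ a, ((PenroseConvex.jac Φ x).adjugate i a
          * ∑ c, pd c (Z a) (Φ x) * PenroseConvex.jac Φ x c i
        + Z a (Φ x) * pd i (fun y => (PenroseConvex.jac Φ y).adjugate i a) x) := by
    intro i
    rw [pd_sum Finset.univ (fun a y => (PenroseConvex.jac Φ y).adjugate i a * Z a (Φ y))
      fun a _ => (hA a i).mul (h3 a)]
    refine Finset.sum_congr rfl fun a _ => ?_
    rw [pd_mul (hA a i) (h3 a), pd_chain Φ (Z a) x i (hZ a) hΦx]
    have h7 : ∀ c, pd i (fun y => Φ y c) x = PenroseConvex.jac Φ x c i := fun c => rfl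
    simp only [h7]
  simp only [h4]
  have h5 : ∑ i, ∑ a, ((PenroseConvex.jac Φ x).adjugate i a
          * ∑ c, pd c (Z a) (Φ x) * PenroseConvex.jac Φ x c i
        + Z a (Φ x) * pd i (fun y => (PenroseConvex.jac Φ y).adjugate i a) x)
      = (∑ a, ∑ c, pd c (Z a) (Φ x)
          * ((PenroseConvex.jac Φ x) * (PenroseConvex.jac Φ x).adjugate) c a)
        + ∑ a, Z a (Φ x) * ∑ i, pd i (fun y => (PenroseConvex.jac Φ y).adjugate i a) x := by
    simp only [Matrix.mul_apply, Fin.sum_univ_three]
    ring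
  rw [h5, Matrix.mul_adjugate]
  simp only [hd, mul_zero, Finset.sum_const_zero, add_zero, Matrix.smul_apply, Matrix.one_apply,
    smul_eq_mul, mul_ite, mul_one, Finset.sum_ite_eq', Finset.mem_univ, if_true]
  rw [Finset.mul_sum]
  exact Finset.sum_congr rfl fun a _ => by simp [mul_comm]

/-- The volume density. -/
theorem volDen_chg {Φ : E3 → E3} {G g : TensorField} {y : E3} (h : Chg Φ G g y) :
    volDen g y = |(PenroseConvex.jac Φ y).det| * volDen G (Φ y) := by
  have hg : g y = (PenroseConvex.jac Φ y).transpose * G (Φ y) * PenroseConvex.jac Φ y :=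
    h.eq.self_of_nhds
  unfold volDen
  rw [hg, Matrix.det_mul, Matrix.det_mul, Matrix.det_transpose,
    show (PenroseConvex.jac Φ y).det * (G (Φ y)).det * (PenroseConvex.jac Φ y).det
      = ((PenroseConvex.jac Φ y).det * (PenroseConvex.jac Φ y).det) * (G (Φ y)).det by ring,
    Real.sqrt_mul (mul_self_nonneg _), Real.sqrt_mul_self_eq_abs]

/-- The leafwise density. -/
theorem dens_chg {Φ : E3 → E3} {G g : TensorField} {W : E3 → ℝ} {y : E3} (h : Chg Φ G g y)
    (hW : DifferentiableAt ℝ W (Φ y)) :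
    dens g (fun z => W (Φ z)) y = |(PenroseConvex.jac Φ y).det| * dens G W (Φ y) := by
  unfold dens
  rw [volDen_chg h, grad_comp hW (h.smooth.differentiableAt (by norm_num)), len_pc (rel_chg h)]
  ring

/-- The leafwise gradient. -/
theorem lgrad_chg {Φ : E3 → E3} {G g : TensorField} {W f : E3 → ℝ} {y : E3} (h : Chg Φ G g y)
    (hW : DifferentiableAt ℝ W (Φ y)) (hf : DifferentiableAt ℝ f (Φ y)) :
    pf (PenroseConvex.jac Φ y) (lgrad g (fun z => W (Φ z)) (fun z => f (Φ z)) y)
      = lgrad G W f (Φ y) := by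
  have hΦ : DifferentiableAt ℝ Φ y := h.smooth.differentiableAt (by norm_num)
  have hr := rel_chg h
  funext a
  unfold lgrad
  rw [grad_comp hW hΦ, grad_comp hf hΦ, ← raise_pc hr, ← nrm_pc hr, pair_pc]
  simp only [pf, Fin.sum_univ_three]
  ring

/-- The sign of the Jacobian determinant is locally constant. -/
theorem sign_jac {Φ : E3 → E3} {x : E3} (h : ContDiffAt ℝ 2 Φ x)
    (hdet : (PenroseConvex.jac Φ x).det ≠ 0) :
    ∃ σ : ℝ, ∀ᶠ y in 𝓝 x, |(PenroseConvex.jac Φ y).det| = σ * (PenroseConvex.jac Φ y).det := by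
  have hc : ContinuousAt (fun y => (PenroseConvex.jac Φ y).det) x :=
    continuousAt_det (M := fun y => PenroseConvex.jac Φ y)
      fun i j => (differentiableAt_jac h i j).continuousAt
  rcases lt_or_gt_of_ne hdet with h1 | h1
  · refine ⟨-1, ?_⟩
    filter_upwards [hc.eventually (eventually_lt_nhds h1)] with y hy
    rw [abs_of_neg hy]
    ring
  · refine ⟨1, ?_⟩
    filter_upwards [hc.eventually (eventually_gt_nhds h1)] with y hy
    rw [abs_of_pos hy]
    ring

/-- The leafwise Laplacian. -/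
theorem lap_chg (hSMO : Stmt_SMO) {Φ : E3 → E3} {G g : TensorField} {W f : E3 → ℝ} {x : E3}
    (h : PenroseConvex.ChangeAt Φ G g x) (hR : Reg G W (Φ x)) (hf : ContDiffAt ℝ 2 f (Φ x)) :
    lap g (fun y => W (Φ y)) (fun y => f (Φ y)) x = lap G W f (Φ x) := by
  have hΦ2 : ContDiffAt ℝ 2 Φ x := h.smooth.of_le le2
  have hcont : ContinuousAt Φ x := hΦ2.continuousAt
  obtain ⟨O, hO, hxO, hM, hWO, hgr⟩ := id hR
  have hWx : ContDiffAt ℝ ∞ W (Φ x) := (hWO (Φ x) hxO).contDiffAt (hO.mem_nhds hxO)
  have hev : ∀ f : E3 → ℝ, ContDiffAt ℝ 2 f (Φ x) → ∀ᶠ y in 𝓝 x, DifferentiableAt ℝ f (Φ y) := by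
    intro f hf
    refine hcont.eventually (p := fun z => DifferentiableAt ℝ f z) ?_
    exact ((hf.of_le (by norm_num : (1 : WithTop ℕ∞) ≤ 2)).eventually (by simp)).mono
      fun z hz => hz.differentiableAt (by norm_num)
  have hWe := hev W (hWx.of_le le2)
  have hfe := hev f hf
  obtain ⟨_, _, _, hd0, _, _, _, _, hdens, _, _, _, _, hsm, _⟩ := hSMO.2 G W (Φ x) hR
  have hlg : ∀ a, DifferentiableAt ℝ (fun y => lgrad G W f y a) (Φ x) := fun a =>
    ((hsm 1 f f (by simpa using hf) (by simpa using hf)).2 a).differentiableAt (by norm_num)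
  have hdd : DifferentiableAt ℝ (dens G W) (Φ x) := hdens.differentiableAt (by simp)
  have hZ : ∀ a, DifferentiableAt ℝ (fun y => dens G W y * lgrad G W f y a) (Φ x) := fun a =>
    hdd.fun_mul (hlg a)
  obtain ⟨σ, hσ⟩ := sign_jac hΦ2 h.det_jac
  have hC := chg_eventually h
  have key : ∀ i, (fun y => dens g (fun z => W (Φ z)) y
        * lgrad g (fun z => W (Φ z)) (fun z => f (Φ z)) y i) =ᶠ[𝓝 x]
      fun y => σ * ∑ a, (PenroseConvex.jac Φ y).adjugate i a
        * (dens G W (Φ y) * lgrad G W f (Φ y) a) := by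
    intro i
    filter_upwards [hC, hWe, hfe, hσ] with y h1 h2 h3 h4
    rw [dens_chg h1 h2, h4, ← lgrad_chg h1 h2 h3]
    have h5 : ∑ a, (PenroseConvex.jac Φ y).adjugate i a * (dens G W (Φ y)
        * pf (PenroseConvex.jac Φ y) (lgrad g (fun z => W (Φ z)) (fun z => f (Φ z)) y) a)
        = dens G W (Φ y) * ∑ j, ((PenroseConvex.jac Φ y).adjugate * PenroseConvex.jac Φ y) i j
          * lgrad g (fun z => W (Φ z)) (fun z => f (Φ z)) y j := by
      simp only [Matrix.mul_apply, pf, Fin.sum_univ_three]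
      ring
    rw [h5, Matrix.adjugate_mul]
    simp only [Matrix.smul_apply, Matrix.one_apply, smul_eq_mul, mul_ite, mul_one, mul_zero,
      ite_mul, zero_mul, Finset.sum_ite_eq, Finset.mem_univ, if_true]
    ring
  have hx := hC.self_of_nhds
  have hAd : ∀ i, DifferentiableAt ℝ (fun y => ∑ a, (PenroseConvex.jac Φ y).adjugate i a
        * (dens G W (Φ y) * lgrad G W f (Φ y) a)) x := by
    intro i
    refine DifferentiableAt.fun_sum fun a _ => ?_
    have h3 : DifferentiableAt ℝ (fun y => dens G W (Φ y) * lgrad G W f (Φ y) a) x :=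
      (hZ a).comp x (hΦ2.differentiableAt (by norm_num))
    exact ((adj_div hΦ2 a).1 i).fun_mul h3
  have hnum : ∑ i, pd i (fun y => dens g (fun z => W (Φ z)) y
        * lgrad g (fun z => W (Φ z)) (fun z => f (Φ z)) y i) x
      = σ * ((PenroseConvex.jac Φ x).det
        * ∑ a, pd a (fun y => dens G W y * lgrad G W f y a) (Φ x)) := by
    rw [← div_comp hΦ2 (fun a y => dens G W y * lgrad G W f y a) hZ, Finset.mul_sum]
    refine Finset.sum_congr rfl fun i _ => ?_
    rw [pd_congr (key i), pd_const_mul σ (hAd i)]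
  unfold lap ldiv
  rw [hnum, dens_chg hx hWe.self_of_nhds, hσ.self_of_nhds]
  have hσ0 : σ * (PenroseConvex.jac Φ x).det ≠ 0 := by
    rw [← hσ.self_of_nhds]
    exact abs_ne_zero.mpr h.det_jac
  rw [← mul_assoc, mul_div_mul_left _ _ hσ0]

end COVGm

open COVGm in
/-- The leafwise objects are invariant under changes of coordinates. -/
theorem COVG (_hALG : Stmt_ALG) (hSMO : Stmt_SMO) (_hLB : Stmt_LB) : Stmt_COVG := by
  intro Φ G g x W h hR
  have hc := (PenroseConvex.CovR.chg_eventually h).self_of_nhds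
  have hΦ : DifferentiableAt ℝ Φ x := hc.smooth.differentiableAt (by norm_num)
  obtain ⟨O, hO, hxO, hM, hWO, hgr⟩ := id hR
  have hWx : ContDiffAt ℝ ∞ W (Φ x) := (hWO (Φ x) hxO).contDiffAt (hO.mem_nhds hxO)
  have hWd : DifferentiableAt ℝ W (Φ x) := hWx.differentiableAt (by simp)
  refine ⟨fun f k hf hk => ?_, fun f hf => lap_chg hSMO h hR hf, ?_⟩
  · unfold lin
    rw [grad_comp hWd hΦ, grad_comp hf hΦ, grad_comp hk hΦ, lip_pc (rel_chg hc)]
  · unfold curv
    have hH := cHess_comp hc (f := W) (hWx.of_le PenroseConvex.CovR.le2)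
    rw [grad_comp hWd hΦ] at hH ⊢
    refine gaussK_pc (rel_chg hc) (PenroseConvex.COVR PenroseConvex.CovR.stmtCOVC Φ G g x h) ?_
      _ _ _ hH
    ext i j
    have := PenroseConvex.CovR.ricci_change h i j
    simpa [ric, pb] using this

end Pool.Agent.PFlow.GB


end

section

/-!
# Module LEY, first part: functions of class `H²` under the inversion
-/

set_option autoImplicit false

open MeasureTheory Filter Topology
open scoped ContDiff ENNReal Manifold

namespace Pool.Agent.PFlow.LEYaux

open Pool.Agent.PenroseSph Pool.Agent.PFlow Pool.Agent.PFlow.GB.COVGm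
open Pool.Agent.PenroseConvex.CovR (D2 Chg chg_eventually)

/-! ### Calculus of the inversion -/

theorem inversion_contDiffAt {y : E3} (hy : y ≠ 0) : ContDiffAt ℝ ∞ inversion y :=
  (AFDaux.contDiffOn_inversion y hy).contDiffAt (AFDaux.isOpen_compl_zero.mem_nhds hy)

theorem hasFDerivAt_normSqInv {y : E3} (hy : y ≠ 0) :
    HasFDerivAt (fun z : E3 => (‖z‖ ^ 2)⁻¹)
      (-((‖y‖ ^ 2) ^ 2)⁻¹ • ((2 : ℕ) • innerSL ℝ y)) y := by
  have h1 : HasFDerivAt (fun y : E3 => ‖y‖ ^ 2) ((2 : ℕ) • (innerSL ℝ y)) y :=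
    (hasStrictFDerivAt_norm_sq y).hasFDerivAt
  have h0 : ‖y‖ ^ 2 ≠ 0 := by positivity
  exact (hasDerivAt_inv h0).comp_hasFDerivAt y h1

theorem pd_normSqInv {y : E3} (hy : y ≠ 0) (i : Fin 3) :
    pd i (fun z : E3 => (‖z‖ ^ 2)⁻¹) y = -(2 * y i) / (‖y‖ ^ 2) ^ 2 := by
  unfold pd
  rw [(hasFDerivAt_normSqInv hy).fderiv]
  have h0 : ‖y‖ ≠ 0 := by positivity
  have h1 : inner ℝ y (EuclideanSpace.single i (1 : ℝ)) = y i := by
    rw [real_inner_comm, EuclideanSpace.inner_single_left]
    simp
  simp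
  field_simp
  rw [h1]

theorem jac_inversion {y : E3} (hy : y ≠ 0) : PenroseConvex.jac inversion y = inversionJac y := by
  ext a i
  have e : (fun z => inversion z a) = fun z : E3 => (‖z‖ ^ 2)⁻¹ * z a := by
    funext z
    simp [inversion]
  have h0 : ‖y‖ ≠ 0 := by positivity
  simp only [PenroseConvex.jac, inversionJac, Matrix.of_apply]
  rw [e, pd_mul (hasFDerivAt_normSqInv hy).differentiableAt (differentiableAt_coord a),
    pd_normSqInv hy, pd_coord]
  by_cases hai : a = i
  · subst hai
    simp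
    field_simp
    ring
  · have hia : ¬ i = a := fun h => hai h.symm
    simp [hai, hia]
    field_simp

theorem changeAt_inversion {g : TensorField} (hg : MetricOn {0}ᶜ g) {y : E3} (hy : y ≠ 0) :
    PenroseConvex.ChangeAt inversion g (inverted g) y := by
  have hm : inversion y ∈ ({0}ᶜ : Set E3) := by simpa using HSM2.inversion_ne y hy
  refine ⟨inversion_contDiffAt hy, ?_, ?_, ?_, ?_, ?_⟩
  · intro i j
    exact (hg.smooth i j _ hm).contDiffAt (AFDaux.isOpen_compl_zero.mem_nhds hm)
  · filter_upwards [AFDaux.isOpen_compl_zero.mem_nhds hm] with z hz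
    have h := (hg.posDef z hz).isHermitian
    rw [Matrix.IsHermitian, Matrix.conjTranspose_eq_transpose_of_trivial] at h
    exact h
  · exact (hg.posDef _ hm).det_pos.ne'
  · rw [jac_inversion hy]
    exact (HSM2.jac_unit y hy).ne_zero
  · filter_upwards [AFDaux.isOpen_compl_zero.mem_nhds (show y ∈ ({0}ᶜ : Set E3) from hy)]
      with z hz
    unfold PenroseConvex.pullback inverted
    rw [jac_inversion hz]

theorem chg_inversion {g : TensorField} (hg : MetricOn {0}ᶜ g) {y : E3} (hy : y ≠ 0) :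
    Chg inversion g (inverted g) y := (chg_eventually (changeAt_inversion hg hy)).self_of_nhds

theorem measurable_inversion : Measurable inversion := by
  unfold inversion
  exact ((measurable_norm.pow_const 2).inv).smul measurable_id

theorem inversion_zero : inversion 0 = 0 := by simp [inversion]

theorem qmp : Measure.QuasiMeasurePreserving inversion (volume : Measure E3) volume := by
  refine ⟨measurable_inversion, Measure.AbsolutelyContinuous.mk fun N hN h0 => ?_⟩
  rw [Measure.map_apply measurable_inversion hN]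
  have hsub : inversion ⁻¹' N ⊆ inversion '' (N ∩ {0}ᶜ) ∪ {0} := by
    intro y hy
    rcases eq_or_ne y 0 with h | h
    · exact Or.inr h
    · exact Or.inl ⟨inversion y, ⟨hy, HSM2.inversion_ne y h⟩, HSM2.inversion_inversion y h⟩
  refine measure_mono_null hsub (measure_union_null ?_ (by simp))
  refine addHaar_image_eq_zero_of_differentiableOn_of_addHaar_eq_zero volume ?_
    (measure_mono_null Set.inter_subset_left h0)
  intro x hx
  exact ((inversion_contDiffAt hx.2).differentiableAt (by simp)).differentiableWithinAt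

theorem injOn_inversion : Set.InjOn inversion ({0}ᶜ : Set E3) := by
  intro x hx y hy h
  rw [← HSM2.inversion_inversion x hx, h, HSM2.inversion_inversion y hy]

/-- The components of the derivative are the partial derivatives of the components. -/
theorem fderiv_coord {Φ : E3 → E3} {x : E3} (h : DifferentiableAt ℝ Φ x) (v : E3) (c : Fin 3) :
    (fderiv ℝ Φ x v) c = fderiv ℝ (fun y => Φ y c) x v := by
  have h1 : HasFDerivAt (fun y => Φ y c)
      ((EuclideanSpace.proj c : E3 →L[ℝ] ℝ).comp (fderiv ℝ Φ x)) x :=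
    (EuclideanSpace.proj c : E3 →L[ℝ] ℝ).hasFDerivAt.comp x h.hasFDerivAt
  rw [h1.fderiv]
  rfl

theorem det_jac {Φ : E3 → E3} {x : E3} (h : DifferentiableAt ℝ Φ x) :
    (PenroseConvex.jac Φ x).det = (fderiv ℝ Φ x).det := by
  have h1 : PenroseConvex.jac Φ x = LinearMap.toMatrix
      (EuclideanSpace.basisFun (Fin 3) ℝ).toBasis (EuclideanSpace.basisFun (Fin 3) ℝ).toBasis
      (fderiv ℝ Φ x : E3 →ₗ[ℝ] E3) := by
    ext a i
    rw [LinearMap.toMatrix_apply]
    simp only [PenroseConvex.jac, Matrix.of_apply, OrthonormalBasis.coe_toBasis,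
      EuclideanSpace.basisFun_apply, OrthonormalBasis.coe_toBasis_repr_apply,
      EuclideanSpace.basisFun_repr, ContinuousLinearMap.coe_coe]
    rw [fderiv_coord h]
    rfl
  rw [h1, LinearMap.det_toMatrix]

theorem det_fderiv {y : E3} (hy : y ≠ 0) :
    (fderiv ℝ inversion y).det = (inversionJac y).det := by
  rw [← det_jac ((inversion_contDiffAt hy).differentiableAt (by simp)), jac_inversion hy]

theorem abs_det {y : E3} (hy : y ≠ 0) : |(inversionJac y).det| = (‖y‖ ^ 6)⁻¹ := by
  have h := congrArg Matrix.det (HSM2.jac_sq y hy)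
  rw [Matrix.det_mul, Matrix.det_smul, Matrix.det_one, mul_one, Fintype.card_fin] at h
  have h2 : |(inversionJac y).det| ^ 2 = ((‖y‖ ^ 6)⁻¹) ^ 2 := by
    rw [sq_abs, sq, h]
    have h0 : ‖y‖ ≠ 0 := by positivity
    field_simp
  exact (pow_left_inj₀ (abs_nonneg _) (by positivity) (by norm_num)).1 h2

variable {K : Set E3}

theorem hasFDerivWithinAt_inv (hK : K ⊆ {0}ᶜ) (y : E3) (hy : y ∈ K) :
    HasFDerivWithinAt inversion (fderiv ℝ inversion y) K y :=
  ((inversion_contDiffAt (hK hy)).differentiableAt (by simp)).hasFDerivAt.hasFDerivWithinAt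

theorem integrableOn_image (hKm : MeasurableSet K) (hK : K ⊆ {0}ᶜ) (F : E3 → ℝ) :
    IntegrableOn F (inversion '' K) ↔
      IntegrableOn (fun y => |(inversionJac y).det| * F (inversion y)) K := by
  rw [integrableOn_image_iff_integrableOn_abs_det_fderiv_smul volume hKm
    (hasFDerivWithinAt_inv hK) (injOn_inversion.mono hK)]
  refine integrableOn_congr_fun (fun y hy => ?_) hKm
  show |(fderiv ℝ inversion y).det| • F (inversion y) = _
  rw [det_fderiv (hK hy), smul_eq_mul]

theorem integral_image (hKm : MeasurableSet K) (hK : K ⊆ {0}ᶜ) (F : E3 → ℝ) :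
    ∫ x in inversion '' K, F x = ∫ y in K, |(inversionJac y).det| * F (inversion y) := by
  rw [integral_image_eq_integral_abs_det_fderiv_smul volume hKm
    (hasFDerivWithinAt_inv hK) (injOn_inversion.mono hK)]
  refine setIntegral_congr_fun hKm (fun y hy => ?_)
  show |(fderiv ℝ inversion y).det| • F (inversion y) = _
  rw [det_fderiv (hK hy), smul_eq_mul]

theorem isCompact_image (hKc : IsCompact K) (hK : K ⊆ {0}ᶜ) : IsCompact (inversion '' K) :=
  hKc.image_of_continuousOn (AFDaux.contDiffOn_inversion.continuousOn.mono hK)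

theorem continuousOn_pow_norm (n : ℕ) : ContinuousOn (fun y : E3 => ‖y‖ ^ n) K :=
  (continuous_norm.pow n).continuousOn

/-- Integrability of the composition. -/
theorem integrableOn_comp (hKc : IsCompact K) (hK : K ⊆ {0}ᶜ) {F : E3 → ℝ}
    (hF : IntegrableOn F (inversion '' K)) : IntegrableOn (fun y => F (inversion y)) K := by
  have h1 := (integrableOn_image hKc.measurableSet hK F).1 hF
  have h2 := h1.continuousOn_mul (continuousOn_pow_norm (K := K) 6) hKc
  refine h2.congr_fun (fun y hy => ?_) hKc.measurableSet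
  have h0 : ‖y‖ ≠ 0 := norm_ne_zero_iff.2 (hK hy)
  show ‖y‖ ^ 6 * (|(inversionJac y).det| * F (inversion y)) = F (inversion y)
  rw [abs_det (hK hy)]
  field_simp

theorem integral_comp_le (hKc : IsCompact K) (hK : K ⊆ {0}ᶜ) {D : ℝ}
    (hD : ∀ y ∈ K, ‖y‖ ^ 6 ≤ D) {F : E3 → ℝ} (hF0 : ∀ x, 0 ≤ F x)
    (hF : IntegrableOn F (inversion '' K)) :
    ∫ y in K, F (inversion y) ≤ D * ∫ x in inversion '' K, F x := by
  rw [integral_image hKc.measurableSet hK, ← integral_const_mul]
  have h1 := (integrableOn_image hKc.measurableSet hK F).1 hF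
  refine setIntegral_mono_on (integrableOn_comp hKc hK hF) (h1.const_mul D)
    hKc.measurableSet (fun y hy => ?_)
  have h0 : 0 < ‖y‖ := norm_pos_iff.2 (hK hy)
  rw [abs_det (hK hy)]
  have h2 := hD y hy
  have h3 : 1 ≤ D * (‖y‖ ^ 6)⁻¹ := by
    rw [← div_eq_mul_inv, one_le_div (by positivity)]
    exact h2
  nlinarith [hF0 (inversion y)]

theorem memLp_comp (hKc : IsCompact K) (hK : K ⊆ {0}ᶜ) {F : E3 → ℝ}
    (hF : MemLp F 2 (volume.restrict (inversion '' K))) :
    MemLp (fun y => F (inversion y)) 2 (volume.restrict K) := by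
  have hm : AEStronglyMeasurable (fun y => F (inversion y)) (volume.restrict K) :=
    hF.1.comp_quasiMeasurePreserving (qmp.restrict (Set.mapsTo_image inversion K))
  rw [memLp_two_iff_integrable_sq hm]
  exact integrableOn_comp hKc hK ((memLp_two_iff_integrable_sq hF.1).1 hF)

theorem memLp_bdd_mul (hKc : IsCompact K) {c F : E3 → ℝ} (hc : ContinuousOn c K)
    (hF : MemLp F 2 (volume.restrict K)) :
    MemLp (fun y => c y * F y) 2 (volume.restrict K) := by
  have hm : AEStronglyMeasurable (fun y => c y * F y) (volume.restrict K) :=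
    (hc.aestronglyMeasurable hKc.measurableSet).mul hF.1
  rw [memLp_two_iff_integrable_sq hm]
  have h1 : IntegrableOn (fun y => F y ^ 2) K := (memLp_two_iff_integrable_sq hF.1).1 hF
  have h2 := h1.continuousOn_mul (hc.pow 2) hKc
  refine h2.congr_fun (fun y _ => ?_) hKc.measurableSet
  show c y ^ 2 * F y ^ 2 = (c y * F y) ^ 2
  ring

/-- Finite sums of products with continuous coefficients tend to zero. -/
theorem tendsto_sum {ι : Type} [Fintype ι] (hKc : IsCompact K) (hK : K ⊆ {0}ᶜ)
    (c : ι → E3 → ℝ) (hc : ∀ i, ContinuousOn (c i) K) (F : ℕ → ι → E3 → ℝ)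
    (hF : ∀ n i, MemLp (F n i) 2 (volume.restrict (inversion '' K)))
    (ht : ∀ i, Tendsto (fun n => ∫ x in inversion '' K, F n i x ^ 2) atTop (𝓝 0)) :
    Tendsto (fun n => ∫ y in K, (∑ i, c i y * F n i (inversion y)) ^ 2) atTop (𝓝 0) := by
  obtain ⟨D, hD⟩ := hKc.exists_bound_of_continuousOn (continuousOn_pow_norm (K := K) 6)
  have hD' : ∀ y ∈ K, ‖y‖ ^ 6 ≤ D := fun y hy => by
    have := hD y hy
    rwa [Real.norm_of_nonneg (by positivity)] at this
  have hB : ∀ i, ∃ B : ℝ, ∀ y ∈ K, ‖c i y‖ ≤ B := fun i => hKc.exists_bound_of_continuousOn (hc i)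
  choose B hB using hB
  have hi : ∀ n i, IntegrableOn (fun x => F n i x ^ 2) (inversion '' K) := fun n i =>
    (memLp_two_iff_integrable_sq (hF n i).1).1 (hF n i)
  have hb : ∀ n, ∫ y in K, (∑ i, c i y * F n i (inversion y)) ^ 2
      ≤ ∑ i, (Fintype.card ι : ℝ) * B i ^ 2 * (D * ∫ x in inversion '' K, F n i x ^ 2) := by
    intro n
    have h1 : ∀ y ∈ K, (∑ i, c i y * F n i (inversion y)) ^ 2
        ≤ ∑ i, (Fintype.card ι : ℝ) * B i ^ 2 * F n i (inversion y) ^ 2 := by
      intro y hy
      have h2 := sq_sum_le_card_mul_sum_sq (s := Finset.univ)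
        (f := fun i => c i y * F n i (inversion y))
      rw [Finset.card_univ] at h2
      refine h2.trans ?_
      rw [Finset.mul_sum]
      refine Finset.sum_le_sum fun i _ => ?_
      have h3 : c i y ^ 2 ≤ B i ^ 2 := by
        rw [← sq_abs, ← Real.norm_eq_abs]
        exact pow_le_pow_left₀ (norm_nonneg _) (hB i y hy) 2
      have h4 : (0 : ℝ) ≤ Fintype.card ι := by positivity
      calc (Fintype.card ι : ℝ) * (c i y * F n i (inversion y)) ^ 2
          = (Fintype.card ι : ℝ) * c i y ^ 2 * F n i (inversion y) ^ 2 := by ring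
        _ ≤ (Fintype.card ι : ℝ) * B i ^ 2 * F n i (inversion y) ^ 2 := by gcongr
    have h5 : ∀ i, IntegrableOn (fun y => (Fintype.card ι : ℝ) * B i ^ 2
        * F n i (inversion y) ^ 2) K := fun i =>
      (integrableOn_comp (F := fun x => F n i x ^ 2) hKc hK (hi n i)).const_mul _
    have h6 : IntegrableOn (fun y => ∑ i, (Fintype.card ι : ℝ) * B i ^ 2
        * F n i (inversion y) ^ 2) K := integrable_finsetSum _ fun i _ => h5 i
    have h7 : MemLp (fun y => ∑ i, c i y * F n i (inversion y)) 2 (volume.restrict K) :=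
      memLp_finsetSum _ fun i _ => memLp_bdd_mul hKc (hc i) (memLp_comp hKc hK (hF n i))
    have h8 : IntegrableOn (fun y => (∑ i, c i y * F n i (inversion y)) ^ 2) K :=
      (memLp_two_iff_integrable_sq h7.1).1 h7
    refine (setIntegral_mono_on h8 h6 hKc.measurableSet h1).trans ?_
    rw [integral_finsetSum _ fun i _ => h5 i]
    refine Finset.sum_le_sum fun i _ => ?_
    rw [integral_const_mul]
    refine mul_le_mul_of_nonneg_left ?_ (by positivity)
    exact integral_comp_le (F := fun x => F n i x ^ 2) hKc hK hD' (fun x => sq_nonneg _) (hi n i)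
  refine squeeze_zero (fun n => integral_nonneg fun y => sq_nonneg _) hb ?_
  have h9 : Tendsto (fun n => ∑ i, (Fintype.card ι : ℝ) * B i ^ 2
      * (D * ∫ x in inversion '' K, F n i x ^ 2)) atTop
      (𝓝 (∑ i, (Fintype.card ι : ℝ) * B i ^ 2 * (D * 0))) :=
    tendsto_finsetSum _ fun i _ => ((ht i).const_mul D).const_mul _
  simpa using h9

/-! ### Transformation of `H²` functions -/

theorem jac_continuousOn (hK : K ⊆ {0}ᶜ) (a i : Fin 3) :
    ContinuousOn (fun y => PenroseConvex.jac inversion y a i) K := by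
  have h := ((AFDaux.contDiffOn_jac a i).continuousOn).mono hK
  refine h.congr fun y hy => ?_
  rw [jac_inversion (hK hy)]

theorem D2_continuousOn (hK : K ⊆ {0}ᶜ) (a i j : Fin 3) :
    ContinuousOn (D2 inversion a i j) K := by
  intro y hy
  have h1 := inversion_contDiffAt (hK hy)
  have h2 : ContDiffAt ℝ ∞ (fun y => inversion y a) y :=
    (EuclideanSpace.proj a : E3 →L[ℝ] ℝ).contDiff.contDiffAt.comp y h1
  have h3 : ∀ {f : E3 → ℝ} (k : Fin 3), ContDiffAt ℝ ∞ f y → ContDiffAt ℝ ∞ (pd k f) y := by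
    intro f k hf
    have h4 : ContDiffAt ℝ ∞ (fderiv ℝ f) y := hf.fderiv_right (m := ∞) (by simp)
    exact h4.clm_apply contDiffAt_const
  exact (h3 i (h3 j h2)).continuousAt.continuousWithinAt

/-- The first derivatives of the transformed function. -/
noncomputable def gy (G : E3 → Cov) (y : E3) : Cov :=
  pc (PenroseConvex.jac inversion y) (G (inversion y))

/-- The second derivatives of the transformed function. -/
noncomputable def my (G : E3 → Cov) (M : E3 → Bil) (y : E3) : Bil := Matrix.of fun i j =>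
  (∑ b, ∑ c, M (inversion y) b c * PenroseConvex.jac inversion y b i
    * PenroseConvex.jac inversion y c j)
  + ∑ a, G (inversion y) a * D2 inversion a i j y

theorem memLp_gy (hKc : IsCompact K) (hK : K ⊆ {0}ᶜ) {G : E3 → Cov}
    (hG : ∀ i, MemLp (fun x => G x i) 2 (volume.restrict (inversion '' K))) (i : Fin 3) :
    MemLp (fun y => gy G y i) 2 (volume.restrict K) := by
  have h : (fun y => gy G y i)
      = fun y => ∑ a, PenroseConvex.jac inversion y a i * G (inversion y) a := by
    funext y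
    unfold gy pc
    refine Finset.sum_congr rfl fun a _ => ?_
    ring
  rw [h]
  exact memLp_finsetSum _ fun a _ => memLp_bdd_mul hKc (jac_continuousOn hK a i)
    (memLp_comp hKc hK (F := fun x => G x a) (hG a))

theorem memLp_my (hKc : IsCompact K) (hK : K ⊆ {0}ᶜ) {G : E3 → Cov} {M : E3 → Bil}
    (hG : ∀ i, MemLp (fun x => G x i) 2 (volume.restrict (inversion '' K)))
    (hM : ∀ i j, MemLp (fun x => M x i j) 2 (volume.restrict (inversion '' K))) (i j : Fin 3) :
    MemLp (fun y => my G M y i j) 2 (volume.restrict K) := by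
  have h : (fun y => my G M y i j)
      = fun y => (∑ b, ∑ c, (PenroseConvex.jac inversion y b i
          * PenroseConvex.jac inversion y c j) * M (inversion y) b c)
        + ∑ a, D2 inversion a i j y * G (inversion y) a := by
    funext y
    simp only [my, Matrix.of_apply]
    congr 1
    · refine Finset.sum_congr rfl fun b _ => Finset.sum_congr rfl fun c _ => ?_
      ring
    · refine Finset.sum_congr rfl fun a _ => ?_
      ring
  rw [h]
  refine MemLp.add ?_ ?_
  · exact memLp_finsetSum _ fun b _ => memLp_finsetSum _ fun c _ => memLp_bdd_mul hKc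
      ((jac_continuousOn hK b i).mul (jac_continuousOn hK c j))
      (memLp_comp hKc hK (F := fun x => M x b c) (hM b c))
  · exact memLp_finsetSum _ fun a _ => memLp_bdd_mul hKc (D2_continuousOn hK a i j)
      (memLp_comp hKc hK (F := fun x => G x a) (hG a))

/-- Smooth extension of the composition with the inversion. -/
theorem exists_ext (hKc : IsCompact K) (hK : K ⊆ {0}ᶜ) :
    ∃ χ : E3 → ℝ, ContDiff ℝ ∞ χ ∧ (∀ᶠ y in 𝓝 (0 : E3), χ y = 0) ∧
      ∀ y ∈ K, ∀ᶠ z in 𝓝 y, χ z = 1 := by
  have hd : Disjoint ({0} : Set E3) K := by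
    rw [Set.disjoint_left]
    intro y hy hyK
    exact hK hyK hy
  obtain ⟨f, h0, h1, -⟩ := exists_contMDiffMap_zero_one_nhds_of_isClosed (𝓘(ℝ, E3))
    (n := ⊤) isClosed_singleton hKc.isClosed hd
  refine ⟨f, f.contMDiff.contDiff, ?_, ?_⟩
  · rwa [nhdsSet_singleton] at h0
  · intro y hy
    exact h1.filter_mono (nhds_le_nhdsSet hy)

theorem ext_contDiff {χ : E3 → ℝ} (h1 : ContDiff ℝ ∞ χ) (h2 : ∀ᶠ y in 𝓝 (0 : E3), χ y = 0)
    {f : E3 → ℝ} (hf : ContDiff ℝ ∞ f) : ContDiff ℝ ∞ (fun y => χ y * f (inversion y)) := by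
  rw [contDiff_iff_contDiffAt]
  intro y
  rcases eq_or_ne y 0 with rfl | hy
  · have h3 : (fun y => χ y * f (inversion y)) =ᶠ[𝓝 (0 : E3)] fun _ => 0 := by
      filter_upwards [h2] with z hz
      rw [hz, zero_mul]
    exact contDiffAt_const.congr_of_eventuallyEq h3
  · exact h1.contDiffAt.mul (hf.contDiffAt.comp y (inversion_contDiffAt hy))

/-- The transformation of the `H²` functions. -/
theorem h2_inv {U V : Set E3} (hV : V ⊆ {0}ᶜ) (hUV : Set.MapsTo inversion V U) {u : E3 → ℝ}
    {G : E3 → Cov} {M : E3 → Bil} (hu : H2On U u G M) :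
    H2On V (fun y => u (inversion y)) (gy G) (my G M) := by
  refine ⟨?_, ?_, ?_, ?_⟩
  · exact hu.cont.comp (AFDaux.contDiffOn_inversion.continuousOn.mono hV) hUV
  · intro K hKc hKV i
    have hK : K ⊆ {0}ᶜ := hKV.trans hV
    have hK' : inversion '' K ⊆ U := (hUV.mono_left hKV).image_subset
    exact memLp_gy hKc hK (fun a => hu.memG _ (isCompact_image hKc hK) hK' a) i
  · intro K hKc hKV i j
    have hK : K ⊆ {0}ᶜ := hKV.trans hV
    have hK' : inversion '' K ⊆ U := (hUV.mono_left hKV).image_subset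
    exact memLp_my hKc hK (fun a => hu.memG _ (isCompact_image hKc hK) hK' a)
      (fun a b => hu.memM _ (isCompact_image hKc hK) hK' a b) i j
  · intro K hKc hKV
    have hK : K ⊆ {0}ᶜ := hKV.trans hV
    have hK' : inversion '' K ⊆ U := (hUV.mono_left hKV).image_subset
    have hKc' := isCompact_image hKc hK
    obtain ⟨v, hv, hvu, hvG, hvM⟩ := hu.approx _ hKc' hK'
    obtain ⟨χ, hχ, hχ0, hχ1⟩ := exists_ext hKc hK
    have hmG := fun a => hu.memG _ hKc' hK' a
    have hmM := fun a b => hu.memM _ hKc' hK' a b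
    -- the functions
    have e : ∀ n, ∀ y ∈ K, (fun z => χ z * v n (inversion z)) =ᶠ[𝓝 y]
        fun z => v n (inversion z) := by
      intro n y hy
      filter_upwards [hχ1 y hy] with z hz
      rw [hz, one_mul]
    have hpdc : ∀ n a, ContDiff ℝ ∞ (pd a (v n)) := fun n a => by
      have h4 : ContDiff ℝ ∞ (fderiv ℝ (v n)) := (hv n).fderiv_right (m := ∞) (by simp)
      exact h4.clm_apply contDiff_const
    have hmem : ∀ (f : E3 → ℝ), Continuous f → MemLp f 2 (volume.restrict (inversion '' K)) := by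
      intro f hf
      have : MemLp (fun x => f x * (fun _ => (1 : ℝ)) x) 2 (volume.restrict (inversion '' K)) :=
        memLp_bdd_mul hKc' hf.continuousOn (by
          have : IsFiniteMeasure (volume.restrict (inversion '' K)) :=
            ⟨by rw [Measure.restrict_apply_univ]; exact hKc'.measure_lt_top⟩
          exact memLp_const 1)
      simpa using this
    refine ⟨fun n y => χ y * v n (inversion y), fun n => ext_contDiff hχ hχ0 (hv n), ?_, ?_, ?_⟩
    · rw [Metric.tendstoUniformlyOn_iff] at hvu ⊢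
      intro ε hε
      filter_upwards [hvu ε hε] with n hn y hy
      rw [(hχ1 y hy).self_of_nhds, one_mul]
      exact hn _ (Set.mem_image_of_mem _ hy)
    · intro i
      have h1 := tendsto_sum hKc hK (fun (a : Fin 3) y => PenroseConvex.jac inversion y a i)
        (fun a => jac_continuousOn hK a i) (fun n a x => pd a (v n) x - G x a)
        (fun n a => (hmem _ (hpdc n a).continuous).sub (hmG a)) hvG
      refine h1.congr fun n => setIntegral_congr_fun hKc.measurableSet fun y hy => ?_
      have h2 : pd i (fun y => χ y * v n (inversion y)) y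
          = ∑ a, pd a (v n) (inversion y) * PenroseConvex.jac inversion y a i := by
        rw [pd_congr (e n y hy)]
        have h3 := congrFun (grad_comp (Φ := inversion) (f := v n) (y := y)
          ((hv n).contDiffAt.differentiableAt (by simp))
          ((inversion_contDiffAt (hK hy)).differentiableAt (by simp))) i
        exact h3
      have h4 : gy G y i = ∑ a, G (inversion y) a * PenroseConvex.jac inversion y a i := rfl
      show (∑ a, PenroseConvex.jac inversion y a i
        * (pd a (v n) (inversion y) - G (inversion y) a)) ^ 2 = _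
      rw [h2, h4, ← Finset.sum_sub_distrib]
      congr 1
      exact Finset.sum_congr rfl fun a _ => by ring
    · intro i j
      have h1 := tendsto_sum hKc hK
        (fun (s : (Fin 3 × Fin 3) ⊕ Fin 3) y => Sum.elim
          (fun p : Fin 3 × Fin 3 => PenroseConvex.jac inversion y p.1 i
            * PenroseConvex.jac inversion y p.2 j) (fun a => D2 inversion a i j y) s)
        (by
          rintro (p | a)
          · exact (jac_continuousOn hK p.1 i).mul (jac_continuousOn hK p.2 j)
          · exact D2_continuousOn hK a i j)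
        (fun n (s : (Fin 3 × Fin 3) ⊕ Fin 3) x => Sum.elim
          (fun p : Fin 3 × Fin 3 => pd p.1 (pd p.2 (v n)) x - M x p.1 p.2)
          (fun a => pd a (v n) x - G x a) s)
        (by
          rintro n (p | a)
          · refine (hmem _ ?_).sub (hmM p.1 p.2)
            have h4 : ContDiff ℝ ∞ (fderiv ℝ (pd p.2 (v n))) :=
              (hpdc n p.2).fderiv_right (m := ∞) (by simp)
            exact (h4.clm_apply contDiff_const).continuous
          · exact (hmem _ (hpdc n a).continuous).sub (hmG a))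
        (by
          rintro (p | a)
          · exact hvM p.1 p.2
          · exact hvG a)
      refine h1.congr fun n => setIntegral_congr_fun hKc.measurableSet fun y hy => ?_
      have h2 : pd i (pd j (fun y => χ y * v n (inversion y))) y
          = (∑ b, ∑ c, hess2 (v n) (inversion y) b c * PenroseConvex.jac inversion y b i
              * PenroseConvex.jac inversion y c j)
            + ∑ a, grad (v n) (inversion y) a * D2 inversion a i j y := by
        have h5 : pd j (fun y => χ y * v n (inversion y)) =ᶠ[𝓝 y]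
            pd j (fun z => v n (inversion z)) := by
          filter_upwards [(e n y hy).eventuallyEq_nhds] with z hz
          exact pd_congr hz
        rw [pd_congr h5]
        exact hess_comp (Φ := inversion) (f := v n)
          (((hv n).contDiffAt).of_le (WithTop.coe_le_coe.2 le_top))
          ((inversion_contDiffAt (hK hy)).of_le (WithTop.coe_le_coe.2 le_top)) i j
      simp only [Fintype.sum_sum_type, Sum.elim_inl, Sum.elim_inr, Fintype.sum_prod_type]
      rw [h2]
      simp only [my, Matrix.of_apply, hess2, grad]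
      congr 1
      have h6 : (∑ b, ∑ c, pd b (pd c (v n)) (inversion y) * PenroseConvex.jac inversion y b i
              * PenroseConvex.jac inversion y c j)
          + (∑ a, pd a (v n) (inversion y) * D2 inversion a i j y)
          - ((∑ b, ∑ c, M (inversion y) b c * PenroseConvex.jac inversion y b i
              * PenroseConvex.jac inversion y c j)
            + ∑ a, G (inversion y) a * D2 inversion a i j y)
          = ((∑ b, ∑ c, pd b (pd c (v n)) (inversion y) * PenroseConvex.jac inversion y b i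
              * PenroseConvex.jac inversion y c j)
              - (∑ b, ∑ c, M (inversion y) b c * PenroseConvex.jac inversion y b i
              * PenroseConvex.jac inversion y c j))
            + ((∑ a, pd a (v n) (inversion y) * D2 inversion a i j y)
              - ∑ a, G (inversion y) a * D2 inversion a i j y) := by ring
      rw [h6, ← Finset.sum_sub_distrib, ← Finset.sum_sub_distrib]
      congr 1
      · refine Finset.sum_congr rfl fun b _ => ?_
        rw [← Finset.sum_sub_distrib]
        refine Finset.sum_congr rfl fun c _ => ?_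
        ring
      · refine Finset.sum_congr rfl fun a _ => ?_
        ring

end Pool.Agent.PFlow.LEYaux


end

section

/-!
# Module LEY, second part: the equation in the inverted coordinates
-/

set_option autoImplicit false

open MeasureTheory Filter Topology
open scoped ContDiff ENNReal

namespace Pool.Agent.PFlow.LEYaux

open Pool.Agent.PenroseSph Pool.Agent.PFlow Pool.Agent.PFlow.GB.COVGm
open Pool.Agent.PenroseConvex.CovR (D2 Chg chg_eventually)

/-! ### Sizes -/

theorem abs_le_msz (M : Bil) (i j : Fin 3) : |M i j| ≤ msz M := by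
  unfold msz
  refine Real.abs_le_sqrt ?_
  calc M i j ^ 2 ≤ ∑ j, M i j ^ 2 :=
        Finset.single_le_sum (f := fun j => M i j ^ 2) (fun j _ => sq_nonneg _)
          (Finset.mem_univ j)
    _ ≤ ∑ i, ∑ j, M i j ^ 2 :=
        Finset.single_le_sum (f := fun i => ∑ j, M i j ^ 2)
          (fun i _ => Finset.sum_nonneg fun j _ => sq_nonneg _) (Finset.mem_univ i)

theorem abs_le_vsz (p : Cov) (i : Fin 3) : |p i| ≤ vsz p := by
  unfold vsz
  refine Real.abs_le_sqrt ?_
  exact Finset.single_le_sum (f := fun i => p i ^ 2) (fun i _ => sq_nonneg _)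
    (Finset.mem_univ i)

theorem msz_nonneg (M : Bil) : 0 ≤ msz M := Real.sqrt_nonneg _

theorem vsz_nonneg (p : Cov) : 0 ≤ vsz p := Real.sqrt_nonneg _

theorem sq_vsz (p : Cov) : vsz p ^ 2 = ∑ i, p i ^ 2 :=
  Real.sq_sqrt (Finset.sum_nonneg fun _ _ => sq_nonneg _)

theorem sq_msz (M : Bil) : msz M ^ 2 = ∑ i, ∑ j, M i j ^ 2 :=
  Real.sq_sqrt (Finset.sum_nonneg fun _ _ => Finset.sum_nonneg fun _ _ => sq_nonneg _)

theorem ev_abs_le (M : Bil) (v : Cov) : |ev M v v| ≤ msz M * ∑ i, v i ^ 2 := by
  have h1 : ev M v v = ∑ q : Fin 3 × Fin 3, M q.1 q.2 * (v q.1 * v q.2) := by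
    unfold ev
    rw [Fintype.sum_prod_type]
    exact Finset.sum_congr rfl fun i _ => Finset.sum_congr rfl fun j _ => by ring
  have h2 := Finset.sum_mul_sq_le_sq_mul_sq Finset.univ
    (fun q : Fin 3 × Fin 3 => M q.1 q.2) (fun q => v q.1 * v q.2)
  have h3 : ∑ q : Fin 3 × Fin 3, M q.1 q.2 ^ 2 = msz M ^ 2 := by
    rw [sq_msz, Fintype.sum_prod_type]
  have h4 : ∑ q : Fin 3 × Fin 3, (v q.1 * v q.2) ^ 2 = (∑ i, v i ^ 2) ^ 2 := by
    rw [Fintype.sum_prod_type, sq, Finset.sum_mul_sum]
    exact Finset.sum_congr rfl fun i _ => Finset.sum_congr rfl fun j _ => by ring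
  rw [← h1, h3, h4, ← mul_pow] at h2
  exact abs_le_of_sq_le_sq h2 (mul_nonneg (msz_nonneg _)
    (Finset.sum_nonneg fun _ _ => sq_nonneg _))

theorem sum_abs_le {A B : Bil} {α β : ℝ} (hα : 0 ≤ α) (hA : ∀ i j, |A i j| ≤ α)
    (hB : ∀ i j, |B i j| ≤ β) : |∑ i, ∑ j, A i j * B i j| ≤ 9 * α * β := by
  calc |∑ i, ∑ j, A i j * B i j| ≤ ∑ i, ∑ j, |A i j * B i j| :=
        (Finset.abs_sum_le_sum_abs _ _).trans
          (Finset.sum_le_sum fun i _ => Finset.abs_sum_le_sum_abs _ _)
    _ ≤ ∑ _i : Fin 3, ∑ _j : Fin 3, α * β := by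
        refine Finset.sum_le_sum fun i _ => Finset.sum_le_sum fun j _ => ?_
        rw [abs_mul]
        exact mul_le_mul (hA i j) (hB i j) (abs_nonneg _) hα
    _ = 9 * α * β := by simp; ring

theorem msz_le {A : Bil} {α : ℝ} (hα : 0 ≤ α) (hA : ∀ i j, |A i j| ≤ α) : msz A ≤ 3 * α := by
  unfold msz
  rw [Real.sqrt_le_left (by positivity)]
  calc ∑ i, ∑ j, A i j ^ 2 ≤ ∑ _i : Fin 3, ∑ _j : Fin 3, α ^ 2 := by
        refine Finset.sum_le_sum fun i _ => Finset.sum_le_sum fun j _ => ?_
        rw [← sq_abs]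
        exact pow_le_pow_left₀ (abs_nonneg _) (hA i j) 2
    _ = (3 * α) ^ 2 := by simp; ring

theorem ev_le {A : Bil} {α : ℝ} (hα : 0 ≤ α) (hA : ∀ i j, |A i j| ≤ α) (v : Cov) :
    |ev A v v| ≤ 3 * α * ∑ i, v i ^ 2 :=
  (ev_abs_le A v).trans (mul_le_mul_of_nonneg_right (msz_le hα hA)
    (Finset.sum_nonneg fun _ _ => sq_nonneg _))

/-! ### The size of the trace part -/

theorem exists_frame {P : Bil} (hP : P.PosDef) : ∃ L : Bil, P = L * L.transpose := by
  have hB : ∃ B : Bil, P = B.transpose * B := by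
    open scoped MatrixOrder in
    obtain ⟨B, hB⟩ := CStarAlgebra.nonneg_iff_eq_star_mul_self.mp hP.posSemidef.nonneg
    exact ⟨B, hB⟩
  obtain ⟨B, hB⟩ := hB
  exact ⟨B.transpose, by rw [Matrix.transpose_transpose]; exact hB⟩

/-- The Euclidean metric. -/
def eg : TensorField := fun _ => 1

theorem nsq_eg (x : E3) (B : Bil) : nsq eg x B = msz B ^ 2 := by
  rw [sq_msz]
  unfold nsq eg
  simp only [inv_one, Matrix.one_apply, Fin.sum_univ_three]
  simp
  ring

theorem trg_eg (x : E3) (B : Bil) : trg eg x B = ∑ i, B i i := by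
  unfold trg eg
  simp only [inv_one, Matrix.one_apply, Fin.sum_univ_three]
  simp

theorem nrm_eg (x : E3) (p : Cov) : ∑ i, nrm eg x p i ^ 2 ≤ 1 := by
  have h1 : ∀ i, nrm eg x p i = p i / √(∑ i, p i ^ 2) := by
    intro i
    unfold nrm raise len ev eg
    simp only [inv_one, Matrix.one_apply, Fin.sum_univ_three]
    fin_cases i <;> simp <;> ring_nf
  simp only [h1, div_pow, ← Finset.sum_div]
  rw [Real.sq_sqrt (Finset.sum_nonneg fun _ _ => sq_nonneg _)]
  exact div_self_le_one _

theorem beps_le {g : TensorField} {x : E3} (hg : (g x).PosDef) (p : Cov) (T : Bil) {ε : ℝ}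
    (h0 : 0 ≤ ε) (h1 : ε ≤ 1) : |beps ε g x p T| ≤ 4 * √(nsq g x T) := by
  obtain ⟨L, hL⟩ := exists_frame hg.inv
  have hrel : Rel L (eg x)⁻¹ (g x)⁻¹ := by
    intro b c
    rw [hL]
    unfold eg
    rw [inv_one]
    simp only [Matrix.one_apply, Matrix.mul_apply, Matrix.transpose_apply, Fin.sum_univ_three]
    simp
  have e1 : trg g x T = ∑ i, pb L T i i := by rw [← trg_pb hrel, trg_eg]
  have e2 : bnn g x p T = ev (pb L T) (nrm eg x (pc L p)) (nrm eg x (pc L p)) := by
    rw [← bnn_pc hrel]
    rfl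
  have e3 : √(nsq g x T) = msz (pb L T) := by
    rw [← nsq_pb hrel, nsq_eg, Real.sqrt_sq (msz_nonneg _)]
  have m0 := msz_nonneg (pb L T)
  have b1 : |∑ i, pb L T i i| ≤ 3 * msz (pb L T) := by
    refine (Finset.abs_sum_le_sum_abs _ _).trans ?_
    refine (Finset.sum_le_sum fun i _ => abs_le_msz (pb L T) i i).trans ?_
    simp
  have b2 : |ev (pb L T) (nrm eg x (pc L p)) (nrm eg x (pc L p))| ≤ msz (pb L T) := by
    refine (ev_abs_le _ _).trans ?_
    have := nrm_eg x (pc L p)
    nlinarith
  unfold beps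
  rw [e1, e2, e3]
  have b3 : |(1 - ε) * ev (pb L T) (nrm eg x (pc L p)) (nrm eg x (pc L p))| ≤ msz (pb L T) := by
    rw [abs_mul, abs_of_nonneg (by linarith : 0 ≤ 1 - ε)]
    have := abs_nonneg (ev (pb L T) (nrm eg x (pc L p)) (nrm eg x (pc L p)))
    nlinarith
  calc |∑ i, pb L T i i - (1 - ε) * ev (pb L T) (nrm eg x (pc L p)) (nrm eg x (pc L p))|
      ≤ |∑ i, pb L T i i| + |(1 - ε) * ev (pb L T) (nrm eg x (pc L p)) (nrm eg x (pc L p))| :=
        abs_sub _ _
    _ ≤ 3 * msz (pb L T) + msz (pb L T) := add_le_add b1 b3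
    _ = 4 * msz (pb L T) := by ring

/-! ### The estimate at a point -/

/-- The pointwise inequality: `t = 1/|y|`. -/
theorem point_bound {g : TensorField} {y : E3} {C t B ε : ℝ} (hC : 0 < C) (ht : 0 ≤ t)
    (hB : 0 ≤ B) (hε0 : 0 ≤ ε) (hε1 : ε ≤ 1) (hg : (g y).PosDef)
    (hA : ∀ i j, |g y i j - (1 : Bil) i j| ≤ C * t)
    (hd : ∀ i j k, |pd k (fun z => g z i j) y| ≤ C * t ^ 2)
    (hell : ∀ v : Cov, (∑ i, v i ^ 2) ≤ C * ev (g y) v v) {p : Cov} (hp : p ≠ 0) {M : Bil}
    (hβ : |beps ε g y p (cHess g y p M)| ≤ len g y p * (B * t ^ 2)) :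
    |∑ i, M i i| ≤ (1 - ε + 30 * C ^ 2 * t) * msz M
      + (√(3 * C) * B + 162 * C ^ 3) * t ^ 2 * vsz p := by
  obtain ⟨hlen, -, -, hν, -⟩ := GB.ALG g y p hg hp
  set ν := nrm g y p with hνdef
  set N : Bil := (g y)⁻¹ with hN
  have hunit : IsUnit (g y).det := hg.det_pos.ne'.isUnit
  have bN : ∀ i j, |N i j| ≤ C := fun i j => HSM2.inv_bound (g y) C hC.le hell hunit i j
  have bν : ∑ i, ν i ^ 2 ≤ C := by
    have := hell ν
    rwa [hν, mul_one] at this
  have s0 : 0 ≤ ∑ i, ν i ^ 2 := Finset.sum_nonneg fun _ _ => sq_nonneg _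
  have m0 := msz_nonneg M
  have v0 := vsz_nonneg p
  -- the size of ν
  have bν1 : ∑ i, ν i ^ 2 ≤ 1 + 3 * C ^ 2 * t := by
    have h1 : ev (1 - g y) ν ν = ∑ i, ν i ^ 2 - ev (g y) ν ν := by
      unfold ev
      simp only [Matrix.sub_apply, Matrix.one_apply, Fin.sum_univ_three]
      simp
      ring
    have h2 : |ev (1 - g y) ν ν| ≤ 3 * (C * t) * ∑ i, ν i ^ 2 := by
      refine ev_le (by positivity) (fun i j => ?_) ν
      rw [Matrix.sub_apply, abs_sub_comm]
      exact hA i j
    rw [h1, hν] at h2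
    have h3 := (abs_le.1 h2).2
    have h4 : 3 * (C * t) * ∑ i, ν i ^ 2 ≤ 3 * (C * t) * C :=
      mul_le_mul_of_nonneg_left bν (by positivity)
    nlinarith
  -- the inverse metric
  have bN1 : ∀ i j, |(1 - N) i j| ≤ 3 * C ^ 2 * t := by
    intro i j
    have h1 : (1 : Bil) - N = N * (g y - 1) := by
      rw [Matrix.mul_sub, hN, Matrix.nonsing_inv_mul _ hunit, Matrix.mul_one]
    rw [h1, Matrix.mul_apply]
    calc |∑ k, N i k * (g y - 1) k j| ≤ ∑ k, |N i k * (g y - 1) k j| :=
          Finset.abs_sum_le_sum_abs _ _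
      _ ≤ ∑ _k : Fin 3, C * (C * t) := by
          refine Finset.sum_le_sum fun k _ => ?_
          rw [abs_mul, Matrix.sub_apply]
          exact mul_le_mul (bN i k) (hA k j) (abs_nonneg _) hC.le
      _ = 3 * C ^ 2 * t := by simp; ring
  -- the Christoffel symbols
  have bΓ : ∀ k i j, |christoffel g k i j y| ≤ 9 / 2 * C ^ 2 * t ^ 2 := by
    intro k i j
    unfold christoffel
    rw [abs_mul, abs_of_pos (by norm_num : (0 : ℝ) < 1 / 2)]
    have h1 : |∑ l, (g y)⁻¹ k l * (pd i (fun y => g y j l) y + pd j (fun y => g y i l) y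
        - pd l (fun y => g y i j) y)| ≤ ∑ _l : Fin 3, C * (3 * (C * t ^ 2)) := by
      refine (Finset.abs_sum_le_sum_abs _ _).trans (Finset.sum_le_sum fun l _ => ?_)
      rw [abs_mul]
      refine mul_le_mul (bN k l) ?_ (abs_nonneg _) hC.le
      have a1 := hd j l i
      have a2 := hd i l j
      have a3 := hd i j l
      rw [abs_le] at a1 a2 a3 ⊢
      constructor <;> linarith [a1.1, a1.2, a2.1, a2.2, a3.1, a3.2]
    calc 1 / 2 * |∑ l, (g y)⁻¹ k l * (pd i (fun y => g y j l) y + pd j (fun y => g y i l) y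
        - pd l (fun y => g y i j) y)| ≤ 1 / 2 * ∑ _l : Fin 3, C * (3 * (C * t ^ 2)) := by
          gcongr
      _ = 9 / 2 * C ^ 2 * t ^ 2 := by simp; ring
  set R : Bil := Matrix.of fun i j => ∑ k, christoffel g k i j y * p k with hR
  have bR : ∀ i j, |R i j| ≤ 27 / 2 * C ^ 2 * t ^ 2 * vsz p := by
    intro i j
    simp only [hR, Matrix.of_apply]
    calc |∑ k, christoffel g k i j y * p k| ≤ ∑ k, |christoffel g k i j y * p k| :=
          Finset.abs_sum_le_sum_abs _ _
      _ ≤ ∑ _k : Fin 3, 9 / 2 * C ^ 2 * t ^ 2 * vsz p := by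
          refine Finset.sum_le_sum fun k _ => ?_
          rw [abs_mul]
          exact mul_le_mul (bΓ k i j) (abs_le_vsz p k) (abs_nonneg _) (by positivity)
      _ = 27 / 2 * C ^ 2 * t ^ 2 * vsz p := by simp; ring
  -- decomposition
  have hdec : ∑ i, M i i = beps ε g y p (cHess g y p M) + (1 - ε) * ev M ν ν
      - (1 - ε) * ev R ν ν + (∑ i, ∑ j, N i j * R i j) + ∑ i, ∑ j, (1 - N) i j * M i j := by
    unfold beps trg bnn ev
    simp only [cHess, hR, Matrix.of_apply, ← hN, ← hνdef, Matrix.sub_apply, Matrix.one_apply,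
      Fin.sum_univ_three]
    simp
    ring
  have T1 : |beps ε g y p (cHess g y p M)| ≤ √(3 * C) * vsz p * (B * t ^ 2) := by
    refine hβ.trans (mul_le_mul_of_nonneg_right ?_ (by positivity))
    unfold len
    have e : √(3 * C) * vsz p = √(3 * C * vsz p ^ 2) := by
      rw [Real.sqrt_mul (by positivity : (0 : ℝ) ≤ 3 * C) (vsz p ^ 2), Real.sqrt_sq v0]
    rw [e]
    refine Real.sqrt_le_sqrt ?_
    rw [sq_vsz]
    exact (le_abs_self _).trans (ev_le hC.le bN p)
  have T2 : |(1 - ε) * ev M ν ν| ≤ (1 - ε) * (msz M * (1 + 3 * C ^ 2 * t)) := by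
    rw [abs_mul, abs_of_nonneg (by linarith : 0 ≤ 1 - ε)]
    refine mul_le_mul_of_nonneg_left ?_ (by linarith)
    exact (ev_abs_le M ν).trans (mul_le_mul_of_nonneg_left bν1 m0)
  have T3 : |(1 - ε) * ev R ν ν| ≤ 3 * (27 / 2 * C ^ 2 * t ^ 2 * vsz p) * C := by
    rw [abs_mul, abs_of_nonneg (by linarith : 0 ≤ 1 - ε)]
    have h1 : |ev R ν ν| ≤ 3 * (27 / 2 * C ^ 2 * t ^ 2 * vsz p) * ∑ i, ν i ^ 2 :=
      ev_le (by positivity) bR ν
    have h2 : 3 * (27 / 2 * C ^ 2 * t ^ 2 * vsz p) * ∑ i, ν i ^ 2
        ≤ 3 * (27 / 2 * C ^ 2 * t ^ 2 * vsz p) * C :=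
      mul_le_mul_of_nonneg_left bν (by positivity)
    have h3 := abs_nonneg (ev R ν ν)
    nlinarith
  have T4 : |∑ i, ∑ j, N i j * R i j| ≤ 9 * C * (27 / 2 * C ^ 2 * t ^ 2 * vsz p) :=
    sum_abs_le hC.le bN bR
  have T5 : |∑ i, ∑ j, (1 - N) i j * M i j| ≤ 9 * (3 * C ^ 2 * t) * msz M :=
    sum_abs_le (by positivity) bN1 (fun i j => abs_le_msz M i j)
  rw [hdec]
  have key : |beps ε g y p (cHess g y p M) + (1 - ε) * ev M ν ν
      - (1 - ε) * ev R ν ν + (∑ i, ∑ j, N i j * R i j) + ∑ i, ∑ j, (1 - N) i j * M i j|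
      ≤ |beps ε g y p (cHess g y p M)| + |(1 - ε) * ev M ν ν| + |(1 - ε) * ev R ν ν|
        + |∑ i, ∑ j, N i j * R i j| + |∑ i, ∑ j, (1 - N) i j * M i j| := by
    refine (abs_add_le _ _).trans (add_le_add_left ?_ _)
    refine (abs_add_le _ _).trans (add_le_add_left ?_ _)
    refine (abs_sub _ _).trans (add_le_add_left ?_ _)
    exact abs_add_le _ _
  refine key.trans ?_
  have q1 : 0 ≤ C ^ 2 * t * msz M := by positivity
  have q2 : 0 ≤ ε * (C ^ 2 * t * msz M) := by positivity
  nlinarith

/-- The covariant Hessian in the inverted coordinates. -/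
theorem cHess_inv {g : TensorField} (hg : MetricOn {0}ᶜ g) {y : E3} (hy : y ≠ 0)
    (G : E3 → Cov) (M : E3 → Bil) :
    cHess (inverted g) y (gy G y) (my G M y) = pb (PenroseConvex.jac inversion y)
      (cHess g (inversion y) (G (inversion y)) (M (inversion y))) := by
  have h := chg_inversion hg hy
  ext i j
  have h2 : ∑ k, christoffel (inverted g) k i j y * gy G y k
      = ∑ a, G (inversion y) a
        * ∑ k, PenroseConvex.jac inversion y a k * christoffel (inverted g) k i j y := by
    simp only [gy, pc, Fin.sum_univ_three]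
    ring
  simp only [cHess, Matrix.of_apply]
  rw [h2]
  simp only [PenroseConvex.CovR.covC h]
  simp only [PenroseConvex.CovR.RR, pb, my, Matrix.of_apply, Fin.sum_univ_three]
  ring

theorem cHess_neg (g : TensorField) (x : E3) (p : Cov) (M : Bil) :
    cHess g x (-p) (-M) = -cHess g x p M := by
  ext i j
  simp only [cHess, Matrix.of_apply, Matrix.neg_apply, Pi.neg_apply, Fin.sum_univ_three]
  ring

theorem len_neg (g : TensorField) (x : E3) (p : Cov) : len g x (-p) = len g x p := by
  unfold len ev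
  simp

theorem nrm_neg (g : TensorField) (x : E3) (p : Cov) : nrm g x (-p) = -nrm g x p := by
  funext i
  unfold nrm raise
  rw [len_neg]
  simp
  ring

theorem beps_neg (ε : ℝ) (g : TensorField) (x : E3) (p : Cov) (B : Bil) :
    beps ε g x (-p) (-B) = -beps ε g x p B := by
  unfold beps trg bnn ev
  rw [nrm_neg]
  simp only [Matrix.neg_apply, Pi.neg_apply, Fin.sum_univ_three]
  ring

theorem beps_inv {g : TensorField} (hg : MetricOn {0}ᶜ g) {y : E3} (hy : y ≠ 0) (ε : ℝ)
    (p : Cov) (B : Bil) :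
    beps ε (inverted g) y (pc (PenroseConvex.jac inversion y) p)
      (pb (PenroseConvex.jac inversion y) B) = beps ε g (inversion y) p B := by
  have h := rel_chg (chg_inversion hg hy)
  unfold beps
  rw [trg_pb h, bnn_pc h]

theorem christoffel_congr {g g' : TensorField} {x : E3} (h : ∀ᶠ z in 𝓝 x, g z = g' z)
    (k i j : Fin 3) : christoffel g k i j x = christoffel g' k i j x := by
  unfold christoffel
  rw [h.self_of_nhds]
  congr 1
  refine Finset.sum_congr rfl fun l _ => ?_
  have e : ∀ a b, (fun y => g y a b) =ᶠ[𝓝 x] fun y => g' y a b := fun a b => by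
    filter_upwards [h] with z hz
    rw [hz]
  rw [pd_congr (e j l), pd_congr (e i l), pd_congr (e i j)]

theorem cHess_congr {g g' : TensorField} {x : E3} (h : ∀ᶠ z in 𝓝 x, g z = g' z)
    (p : Cov) (M : Bil) : cHess g x p M = cHess g' x p M := by
  ext i j
  simp only [cHess, Matrix.of_apply, christoffel_congr h]

theorem beps_congr {g g' : TensorField} {x : E3} (h : g x = g' x) (ε : ℝ)
    (p : Cov) (B : Bil) : beps ε g x p B = beps ε g' x p B := by
  unfold beps trg bnn ev nrm raise len
  rw [h]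

theorem len_congr {g g' : TensorField} {x : E3} (h : g x = g' x) (p : Cov) :
    len g x p = len g' x p := by
  unfold len
  rw [h]

end Pool.Agent.PFlow.LEYaux


end

section

/-!
# Module LEY: the local bound at the other end

In the coordinates `y = x / |x|²` the metric is asymptotically flat, and the estimate LE applies.
-/

set_option autoImplicit false

open MeasureTheory Filter Topology
open scoped ContDiff ENNReal

namespace Pool.Agent.PFlow

open Pool.Agent.PenroseSph Pool.Agent.PFlow.GB.COVGm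

namespace LEYaux

/-- The function `1 - u`. -/
theorem h2_one_sub {U : Set E3} {u : E3 → ℝ} {G : E3 → Cov} {M : E3 → Bil}
    (hu : H2On U u G M) :
    H2On U (fun x => 1 - u x) (fun x => -G x) (fun x => -M x) := by
  refine ⟨continuousOn_const.sub hu.cont, ?_, ?_, ?_⟩
  · intro K hK hKU i
    exact (hu.memG K hK hKU i).neg
  · intro K hK hKU i j
    exact (hu.memM K hK hKU i j).neg
  · intro K hK hKU
    obtain ⟨v, hv, hvu, hvG, hvM⟩ := hu.approx K hK hKU
    have e1 : ∀ n i, pd i (fun x => 1 - v n x) = fun x => - pd i (v n) x := by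
      intro n i
      funext x
      have := pd_sub (i := i) (f := fun _ => (1 : ℝ)) (f' := v n) (x := x)
        (differentiableAt_const _) ((hv n).contDiffAt.differentiableAt (by simp))
      rw [this, pd_const, zero_sub]
    have e2 : ∀ n i j, pd i (pd j (fun x => 1 - v n x)) = fun x => - pd i (pd j (v n)) x := by
      intro n i j
      rw [e1]
      funext x
      unfold pd
      rw [fderiv_fun_neg]
      rfl
    refine ⟨fun n x => 1 - v n x, fun n => contDiff_const.sub (hv n), ?_, ?_, ?_⟩
    · rw [Metric.tendstoUniformlyOn_iff] at hvu ⊢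
      intro δ hδ
      filter_upwards [hvu δ hδ] with n hn x hx
      have := hn x hx
      rw [Real.dist_eq] at this ⊢
      rw [show 1 - u x - (1 - v n x) = -(u x - v n x) by ring, abs_neg]
      exact this
    · intro i
      refine (hvG i).congr fun n => ?_
      congr 1
      funext x
      rw [e1]
      simp only [Pi.neg_apply]
      ring
    · intro i j
      refine (hvM i j).congr fun n => ?_
      congr 1
      funext x
      rw [e2]
      simp only [Matrix.neg_apply]
      ring

theorem mem_image_inversion {a b : ℝ} (ha : 0 < a) (hb : 0 < b) :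
    inversion '' cAnn (b⁻¹) (a⁻¹) = cAnn a b := by
  ext x
  constructor
  · rintro ⟨y, ⟨h1, h2⟩, rfl⟩
    have hy : 0 < ‖y‖ := lt_of_lt_of_le (by positivity) h1
    have hy0 : y ≠ 0 := norm_pos_iff.1 hy
    refine ⟨?_, ?_⟩
    · rw [HSM2.norm_inversion y hy0]
      exact (le_inv_comm₀ ha hy).2 h2
    · rw [HSM2.norm_inversion y hy0]
      exact (inv_le_comm₀ hy hb).2 h1
  · rintro ⟨h1, h2⟩
    have hx : 0 < ‖x‖ := lt_of_lt_of_le ha h1
    have hx0 : x ≠ 0 := norm_pos_iff.1 hx
    refine ⟨inversion x, ⟨?_, ?_⟩, HSM2.inversion_inversion x hx0⟩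
    · rw [HSM2.norm_inversion x hx0]
      exact inv_anti₀ hx h2
    · rw [HSM2.norm_inversion x hx0]
      exact inv_anti₀ ha h1

theorem det_le {A : Bil} {α : ℝ} (hα : 0 ≤ α) (hA : ∀ i j, |A i j| ≤ α) :
    A.det ≤ 6 * α ^ 3 := by
  have h3 : ∀ i j k l m n, |A i j * A k l * A m n| ≤ α ^ 3 := by
    intro i j k l m n
    rw [abs_mul, abs_mul]
    calc |A i j| * |A k l| * |A m n| ≤ α * α * α :=
          mul_le_mul (mul_le_mul (hA i j) (hA k l) (abs_nonneg _) hα) (hA m n) (abs_nonneg _)
            (by positivity)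
      _ = α ^ 3 := by ring
  rw [Matrix.det_fin_three]
  linarith [(abs_le.1 (h3 0 0 1 1 2 2)).2, (abs_le.1 (h3 0 0 1 2 2 1)).1,
    (abs_le.1 (h3 0 1 1 0 2 2)).1, (abs_le.1 (h3 0 1 1 2 2 0)).2,
    (abs_le.1 (h3 0 2 1 0 2 1)).2, (abs_le.1 (h3 0 2 1 1 2 0)).1]

theorem len_zero (g : TensorField) (x : E3) : len g x 0 = 0 := by
  unfold len ev
  simp

theorem len_le {g : TensorField} {y : E3} {C : ℝ} (hC : 0 ≤ C) (hg : IsUnit (g y).det)
    (hell : ∀ v : Cov, (∑ i, v i ^ 2) ≤ C * ev (g y) v v) (p : Cov) :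
    len g y p ≤ √(3 * C) * vsz p := by
  have e : √(3 * C) * vsz p = √(3 * C * vsz p ^ 2) := by
    rw [Real.sqrt_mul (by positivity : (0 : ℝ) ≤ 3 * C) (vsz p ^ 2),
      Real.sqrt_sq (vsz_nonneg p)]
  rw [e]
  unfold len
  refine Real.sqrt_le_sqrt ?_
  rw [sq_vsz]
  exact (le_abs_self _).trans (ev_le hC (HSM2.inv_bound (g y) C hC hell hg) p)

/-- Measurability of the integrand. -/
theorem meas_len {K : Set E3} (hK : K ⊆ {0}ᶜ) (hKm : MeasurableSet K) {g : TensorField}
    (hg : MetricOn {0}ᶜ g) {p : E3 → Cov}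
    (hp : ∀ i, AEStronglyMeasurable (fun y => p y i) (volume.restrict K)) :
    AEStronglyMeasurable (fun y => len g y (p y) ^ 3 * volDen g y) (volume.restrict K) := by
  have hd : ∀ y ∈ K, ∀ i j, DifferentiableAt ℝ (fun z => g z i j) y := fun y hy i j =>
    (((hg.smooth i j) y (hK hy)).contDiffAt
      (AFDaux.isOpen_compl_zero.mem_nhds (hK hy))).differentiableAt (by simp)
  have hi : ∀ i j, AEStronglyMeasurable (fun y => (g y)⁻¹ i j) (volume.restrict K) := by
    intro i j
    refine ContinuousOn.aestronglyMeasurable (fun y hy => ?_) hKm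
    exact (PenroseConvex.CovR.differentiableAt_inv (hd y hy) (hg.posDef y (hK hy)).det_pos.ne'
      i j).continuousAt.continuousWithinAt
  have hdet : AEStronglyMeasurable (fun y => (g y).det) (volume.restrict K) := by
    refine ContinuousOn.aestronglyMeasurable (fun y hy => ?_) hKm
    exact (PenroseConvex.CovR.continuousAt_det (M := g) fun i j =>
      (hd y hy i j).continuousAt).continuousWithinAt
  have hl : AEStronglyMeasurable (fun y => len g y (p y)) (volume.restrict K) := by
    unfold len ev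
    refine Real.continuous_sqrt.comp_aestronglyMeasurable ?_
    refine Finset.aestronglyMeasurable_fun_sum _ fun i _ =>
      Finset.aestronglyMeasurable_fun_sum _ fun j _ => ?_
    exact ((hi i j).mul (hp i)).mul (hp j)
  exact (hl.pow 3).mul (Real.continuous_sqrt.comp_aestronglyMeasurable hdet)

end LEYaux

open LEYaux

/-- **(LEY)** -/
theorem LEY (hLE : Stmt_LE) : Stmt_LEY := by
  intro ε C κ₁ κ₂ hε hε2 hC hκ₁ hκ
  have hκ₂ : 0 < κ₂ := hκ₁.trans hκ
  obtain ⟨C₁, hC₁⟩ : ∃ C₁ : ℝ, C₁ = (√(3 * C) * (4 * √C) + 162 * C ^ 3) * (2 * κ₂) ^ 2 :=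
    ⟨_, rfl⟩
  have hC₁0 : 0 ≤ C₁ := by rw [hC₁]; positivity
  obtain ⟨CL, hCL, hLE'⟩ := hLE (ε / 2) C₁ (1 / (2 * κ₂)) (1 / κ₂) (1 / κ₁) (2 / κ₁)
    (by positivity) (by linarith) hC₁0 (by positivity)
    (by
      rw [div_lt_div_iff₀ (by positivity) hκ₂]
      linarith)
    (one_div_lt_one_div_of_lt hκ₁ hκ)
    (by
      rw [div_lt_div_iff₀ hκ₁ hκ₁]
      linarith)
  obtain ⟨D, hD⟩ : ∃ D : ℝ, D = √(3 * C) ^ 3 * √(6 * (1 + C) ^ 3) := ⟨_, rfl⟩
  have hD0 : 0 < D := by rw [hD]; positivity
  refine ⟨D * CL, 1 + 2 * κ₂ + 120 * C ^ 2 * κ₂ / ε, by positivity, ?_, ?_⟩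
  · have : 0 ≤ 120 * C ^ 2 * κ₂ / ε := by positivity
    linarith
  intro l S g g' h' u G M hl hS hg hdec hell hx hu heq huS
  have hl1 : 1 ≤ l := by
    have : 0 ≤ 120 * C ^ 2 * κ₂ / ε := by positivity
    linarith
  have hl0 : 0 < l := lt_of_lt_of_le one_pos hl1
  have hlκ : 2 * κ₂ ≤ l := by
    have : 0 ≤ 120 * C ^ 2 * κ₂ / ε := by positivity
    linarith
  have hlε : 120 * C ^ 2 * κ₂ ≤ ε * l := by
    have h1 : 120 * C ^ 2 * κ₂ / ε ≤ l := by linarith
    rw [div_le_iff₀ hε] at h1
    linarith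
  -- the sets
  obtain ⟨V, hV⟩ : ∃ V : Set E3, V = Ann (1 / (2 * κ₂) * l) (2 / κ₁ * l) := ⟨_, rfl⟩
  obtain ⟨U, hU⟩ : ∃ U : Set E3, U = Ann (κ₁ / (2 * l)) (2 * κ₂ / l) := ⟨_, rfl⟩
  have hVn : ∀ y ∈ V, 1 / (2 * κ₂) * l < ‖y‖ ∧ ‖y‖ < 2 / κ₁ * l := by
    intro y hy
    rw [hV] at hy
    exact hy
  have hVpos : ∀ y ∈ V, 0 < ‖y‖ := fun y hy => lt_trans (by positivity) (hVn y hy).1
  have hV0 : V ⊆ {0}ᶜ := fun y hy => norm_pos_iff.1 (hVpos y hy)
  have hVt : ∀ y ∈ V, 1 / ‖y‖ ≤ 2 * κ₂ / l := by
    intro y hy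
    have h1 := (hVn y hy).1
    rw [div_le_div_iff₀ (hVpos y hy) hl0]
    rw [one_div, inv_mul_lt_iff₀ (by positivity)] at h1
    linarith
  have hV1 : ∀ y ∈ V, 1 ≤ ‖y‖ := by
    intro y hy
    have h1 := hVt y hy
    have h2 : 2 * κ₂ / l ≤ 1 := (div_le_one hl0).2 hlκ
    have h3 := h1.trans h2
    rwa [div_le_one (hVpos y hy)] at h3
  have hVU : Set.MapsTo inversion V U := by
    intro y hy
    rw [hU]
    have hp := hVpos y hy
    obtain ⟨h1, h2⟩ := hVn y hy
    refine ⟨?_, ?_⟩
    · rw [HSM2.norm_inversion y (hV0 hy), lt_inv_comm₀ (by positivity) hp, inv_div]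
      calc ‖y‖ < 2 / κ₁ * l := h2
        _ = 2 * l / κ₁ := by ring
    · rw [HSM2.norm_inversion y (hV0 hy), inv_lt_comm₀ hp (by positivity), inv_div]
      calc l / (2 * κ₂) = 1 / (2 * κ₂) * l := by ring
        _ < ‖y‖ := h1
  have hUo : IsOpen U := by
    rw [hU]
    exact (isOpen_lt continuous_const continuous_norm).inter
      (isOpen_lt continuous_norm continuous_const)
  have hVo : IsOpen V := by
    rw [hV]
    exact (isOpen_lt continuous_const continuous_norm).inter
      (isOpen_lt continuous_norm continuous_const)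
  rw [← hU] at hx hu heq huS
  have hgg : ∀ x ∈ U, ∀ᶠ z in 𝓝 x, g' z = g z := fun x hxU => by
    filter_upwards [hUo.mem_nhds hxU] with z hz
    exact (hx z hz).1
  -- the transformed function
  have hu2 := h2_inv hV0 hVU (h2_one_sub hu)
  have hpos : ∀ y ∈ V, (inverted g y).PosDef := fun y hy =>
    AFDaux.inverted_posDef (hV0 hy) (hg.posDef _ (HSM2.inversion_ne y (hV0 hy)))
  have hellV : ∀ y ∈ V, ∀ v : Cov, (∑ i, v i ^ 2) ≤ C * ev (inverted g y) v v :=
    fun y hy v => (hell y (hV1 y hy) v).1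
  have hrel : ∀ y ∈ V, Rel (PenroseConvex.jac inversion y) (inverted g y)⁻¹
      (g (inversion y))⁻¹ := fun y hy => rel_chg (chg_inversion hg (hV0 hy))
  -- the inequality
  have hpde : ∀ᵐ y ∂(volume.restrict V),
      |∑ i, my (fun x => -G x) (fun x => -M x) y i i|
        ≤ (1 - ε / 2) * msz (my (fun x => -G x) (fun x => -M x) y)
          + C₁ / l * vsz (gy (fun x => -G x) y) := by
    have h1 := (qmp.restrict hVU).ae heq
    filter_upwards [h1, ae_restrict_mem hVo.measurableSet] with y hy hyV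
    obtain ⟨hy1, hy2⟩ := hy
    by_cases hG0 : G (inversion y) = 0
    · have hM0 := hy2 hG0
      have e : ∑ i, my (fun x => -G x) (fun x => -M x) y i i = 0 := by
        refine Finset.sum_eq_zero fun i _ => ?_
        simp [my, hG0, hM0]
      rw [e, abs_zero]
      have a1 := msz_nonneg (my (fun x => -G x) (fun x => -M x) y)
      have a2 := vsz_nonneg (gy (fun x => -G x) y)
      have a3 : 0 ≤ 1 - ε / 2 := by linarith
      positivity
    · have hxU := hVU hyV
      have hgx := hgg _ hxU
      have hy3 := hy1 hG0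
      obtain ⟨hx1, -, hx3⟩ := hx _ hxU
      rw [cHess_congr hgx, beps_congr hx1, beps_congr hx1, len_congr hx1] at hy3
      have hgp : (g (inversion y)).PosDef := hg.posDef _ (HSM2.inversion_ne y (hV0 hyV))
      have hlen : len (inverted g) y (gy (fun x => -G x) y)
          = len g (inversion y) (G (inversion y)) := by
        unfold gy
        rw [len_pc (hrel y hyV), len_neg]
      have hlp : 0 < len g (inversion y) (G (inversion y)) :=
        (GB.ALG g (inversion y) (G (inversion y)) hgp hG0).1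
      have hp0 : gy (fun x => -G x) y ≠ 0 := by
        intro h0
        rw [h0, len_zero] at hlen
        exact hlp.ne hlen
      have hb : |beps ε (inverted g) y (gy (fun x => -G x) y)
          (cHess (inverted g) y (gy (fun x => -G x) y)
            (my (fun x => -G x) (fun x => -M x) y))|
          ≤ len (inverted g) y (gy (fun x => -G x) y) * (4 * √C * (1 / ‖y‖) ^ 2) := by
        rw [hlen, cHess_inv hg (hV0 hyV)]
        unfold gy
        rw [beps_inv hg (hV0 hyV), cHess_neg, beps_neg, abs_neg]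
        have e1 : beps ε g (inversion y) (G (inversion y))
            (cHess g (inversion y) (G (inversion y)) (M (inversion y)))
            = -(len g (inversion y) (G (inversion y))
              * beps ε g (inversion y) (G (inversion y)) (h' (inversion y))) := by linarith
        rw [e1, abs_neg, abs_mul, abs_of_pos hlp]
        refine mul_le_mul_of_nonneg_left ?_ hlp.le
        refine (beps_le hgp _ _ hε.le (by linarith)).trans ?_
        have e2 : √(nsq g (inversion y) (h' (inversion y))) ≤ √C * (1 / ‖y‖) ^ 2 := by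
          calc √(nsq g (inversion y) (h' (inversion y))) ≤ √(C * ‖inversion y‖ ^ 4) :=
              Real.sqrt_le_sqrt hx3
            _ = √C * (1 / ‖y‖) ^ 2 := by
              rw [HSM2.norm_inversion y (hV0 hyV), Real.sqrt_mul hC.le, one_div,
                show (‖y‖⁻¹) ^ 4 = ((‖y‖⁻¹) ^ 2) ^ 2 by ring, Real.sqrt_sq (by positivity)]
        linarith
      have hpb := point_bound (g := inverted g) (y := y) (C := C) (t := 1 / ‖y‖)
        (B := 4 * √C) (ε := ε) hC (by positivity) (by positivity) hε.le (by linarith)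
        (hpos y hyV)
        (fun i j => by
          have h2 := (hdec y (hV1 y hyV) i j).1
          rwa [mul_one_div])
        (fun i j k => by
          have h2 := (hdec y (hV1 y hyV) i j).2.1 k
          rwa [div_pow, one_pow, mul_one_div])
        (hellV y hyV) hp0 (M := my (fun x => -G x) (fun x => -M x) y) hb
      refine hpb.trans ?_
      have t0 : 0 ≤ 1 / ‖y‖ := by positivity
      have t1 := hVt y hyV
      have a1 := msz_nonneg (my (fun x => -G x) (fun x => -M x) y)
      have a2 := vsz_nonneg (gy (fun x => -G x) y)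
      refine add_le_add (mul_le_mul_of_nonneg_right ?_ a1) (mul_le_mul_of_nonneg_right ?_ a2)
      · have h3 : 30 * C ^ 2 * (1 / ‖y‖) ≤ 30 * C ^ 2 * (2 * κ₂ / l) :=
          mul_le_mul_of_nonneg_left t1 (by positivity)
        have h4 : 30 * C ^ 2 * (2 * κ₂ / l) ≤ ε / 2 := by
          rw [mul_div_assoc', div_le_iff₀ hl0]
          linarith
        linarith
      · have h3 : (1 / ‖y‖) ^ 2 ≤ (2 * κ₂) ^ 2 / l := by
          calc (1 / ‖y‖) ^ 2 ≤ (2 * κ₂ / l) ^ 2 := pow_le_pow_left₀ t0 t1 2
            _ = (2 * κ₂) ^ 2 / l ^ 2 := by rw [div_pow]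
            _ ≤ (2 * κ₂) ^ 2 / l := by
              refine div_le_div_of_nonneg_left (by positivity) hl0 ?_
              nlinarith
        calc (√(3 * C) * (4 * √C) + 162 * C ^ 3) * (1 / ‖y‖) ^ 2
            ≤ (√(3 * C) * (4 * √C) + 162 * C ^ 3) * ((2 * κ₂) ^ 2 / l) :=
              mul_le_mul_of_nonneg_left h3 (by positivity)
          _ = C₁ / l := by rw [hC₁]; ring
  -- the local estimate
  obtain ⟨hint, hle⟩ := hLE' l S (fun y => 1 - u (inversion y)) (gy (fun x => -G x))
    (my (fun x => -G x) (fun x => -M x)) hl0 hS (by rw [← hV]; exact hu2)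
    (by
      rw [← hV]
      intro y hy
      exact huS _ (hVU hy))
    (by rw [← hV]; exact hpde)
  -- change of variables
  obtain ⟨K, hKdef⟩ : ∃ K : Set E3, K = cAnn (1 / κ₂ * l) (1 / κ₁ * l) := ⟨_, rfl⟩
  rw [← hKdef] at hint hle
  have hKV : K ⊆ V := by
    intro y hy
    rw [hKdef] at hy
    rw [hV]
    refine ⟨lt_of_lt_of_le ?_ hy.1, lt_of_le_of_lt hy.2 ?_⟩
    · refine mul_lt_mul_of_pos_right ?_ hl0
      rw [div_lt_div_iff₀ (by positivity) hκ₂]
      linarith
    · refine mul_lt_mul_of_pos_right ?_ hl0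
      rw [div_lt_div_iff₀ hκ₁ hκ₁]
      linarith
  have hKc : IsCompact K := by rw [hKdef]; exact AFDaux.isCompact_cAnn _ _
  have hK0 : K ⊆ {0}ᶜ := hKV.trans hV0
  have himg : cAnn (κ₁ / l) (κ₂ / l) = inversion '' K := by
    rw [hKdef, ← mem_image_inversion (a := κ₁ / l) (b := κ₂ / l) (by positivity)
      (by positivity), inv_div, inv_div]
    congr 2 <;> ring
  have hgi := AFDaux.inverted_metric hg
  -- the integrand
  have hval : ∀ y ∈ K, |(inversionJac y).det| * (len g' (inversion y) (G (inversion y)) ^ 3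
      * volDen g' (inversion y))
      = len (inverted g) y (gy (fun x => -G x) y) ^ 3 * volDen (inverted g) y := by
    intro y hy
    have hyV := hKV hy
    have hx1 := (hx _ (hVU hyV)).1
    have hlen : len (inverted g) y (gy (fun x => -G x) y)
        = len g (inversion y) (G (inversion y)) := by
      unfold gy
      rw [len_pc (hrel y hyV), len_neg]
    rw [hlen, volDen_chg (chg_inversion hg (hV0 hyV)), jac_inversion (hV0 hyV), len_congr hx1]
    unfold volDen
    rw [hx1]
    ring
  have hbd : ∀ y ∈ K, len (inverted g) y (gy (fun x => -G x) y) ^ 3 * volDen (inverted g) y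
      ≤ D * vsz (gy (fun x => -G x) y) ^ 3 := by
    intro y hy
    have hyV := hKV hy
    have b1 := len_le hC.le (hpos y hyV).det_pos.ne'.isUnit (hellV y hyV)
      (gy (fun x => -G x) y)
    have b2 : volDen (inverted g) y ≤ √(6 * (1 + C) ^ 3) := by
      refine Real.sqrt_le_sqrt (det_le (by positivity) fun i j => ?_)
      have h2 := (hdec y (hV1 y hyV) i j).1
      have h3 : C / ‖y‖ ≤ C := div_le_self hC.le (hV1 y hyV)
      have h4 : |(1 : Bil) i j| ≤ 1 := by
        rw [Matrix.one_apply]
        split_ifs <;> simp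
      have h5 : inverted g y i j = (inverted g y i j - (1 : Bil) i j) + (1 : Bil) i j := by ring
      rw [h5]
      refine (abs_add_le _ _).trans ?_
      linarith
    have b3 : 0 ≤ len (inverted g) y (gy (fun x => -G x) y) := Real.sqrt_nonneg _
    calc len (inverted g) y (gy (fun x => -G x) y) ^ 3 * volDen (inverted g) y
        ≤ (√(3 * C) * vsz (gy (fun x => -G x) y)) ^ 3 * √(6 * (1 + C) ^ 3) :=
          mul_le_mul (pow_le_pow_left₀ b3 b1 3) b2 (Real.sqrt_nonneg _)
            (by have := vsz_nonneg (gy (fun x => -G x) y); positivity)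
      _ = D * vsz (gy (fun x => -G x) y) ^ 3 := by rw [hD]; ring
  have hnn : ∀ y, 0 ≤ len (inverted g) y (gy (fun x => -G x) y) ^ 3
      * volDen (inverted g) y := fun y => by
    have b3 : 0 ≤ len (inverted g) y (gy (fun x => -G x) y) := Real.sqrt_nonneg _
    have b4 : 0 ≤ volDen (inverted g) y := Real.sqrt_nonneg _
    positivity
  have hint2 : IntegrableOn (fun y => len (inverted g) y (gy (fun x => -G x) y) ^ 3
      * volDen (inverted g) y) K := by
    refine Integrable.mono' (hint.const_mul D)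
      (meas_len hK0 hKc.measurableSet hgi fun i => (hu2.memG K hKc hKV i).1) ?_
    filter_upwards [ae_restrict_mem hKc.measurableSet] with y hy
    rw [Real.norm_of_nonneg (hnn y)]
    exact hbd y hy
  rw [himg]
  constructor
  · rw [integrableOn_image hKc.measurableSet hK0]
    exact hint2.congr_fun (fun y hy => (hval y hy).symm) hKc.measurableSet
  · rw [integral_image hKc.measurableSet hK0]
    calc ∫ y in K, |(inversionJac y).det| * (len g' (inversion y) (G (inversion y)) ^ 3
          * volDen g' (inversion y))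
        = ∫ y in K, len (inverted g) y (gy (fun x => -G x) y) ^ 3 * volDen (inverted g) y :=
          setIntegral_congr_fun hKc.measurableSet fun y hy => hval y hy
      _ ≤ ∫ y in K, D * vsz (gy (fun x => -G x) y) ^ 3 :=
          setIntegral_mono_on hint2 (hint.const_mul D) hKc.measurableSet fun y hy => hbd y hy
      _ = D * ∫ y in K, vsz (gy (fun x => -G x) y) ^ 3 := integral_const_mul _ _
      _ ≤ D * (CL * S ^ 3) := mul_le_mul_of_nonneg_left hle hD0.le
      _ = D * CL * S ^ 3 := by ring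

end Pool.Agent.PFlow


end
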