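import Mathlib
import Pool.Agent.PFlow.StmtsE2
import Pool.Agent.PenroseM.C07

/-! Parts: PFlow.E.LE1 -/

section

/-!
# Local bound of the second derivatives (module LE1)
-/

open MeasureTheory Filter Topology
open scoped ContDiff ENNReal Manifold

namespace Pool.Agent.PFlow

open Pool.Agent.PenroseSph

namespace MLE1

open ML4

/-! ### Convergence in `L²` -/

/-- Convergence in `L²`. -/
structure T2 (μ : Measure E3) (F : ℕ → E3 → ℝ) (F' : E3 → ℝ) : Prop where
  mem : ∀ n, MemLp (F n) 2 μ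
  mem' : MemLp F' 2 μ
  lim : Tendsto (fun n => eLpNorm (fun x => F n x - F' x) 2 μ) atTop (𝓝 0)

variable {μ : Measure E3} {F H : ℕ → E3 → ℝ} {F' H' : E3 → ℝ}

theorem T2.add (h : T2 μ F F') (k : T2 μ H H') :
    T2 μ (fun n x => F n x + H n x) (fun x => F' x + H' x) := by
  refine ⟨fun n => (h.mem n).add (k.mem n), h.mem'.add k.mem', ?_⟩
  have h0 := h.lim.add k.lim
  rw [add_zero] at h0
  refine tendsto_of_tendsto_of_tendsto_of_le_of_le tendsto_const_nhds h0 (fun n => zero_le)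
    (fun n => ?_)
  have e : (fun x => F n x + H n x - (F' x + H' x)) =
      (fun x => F n x - F' x) + fun x => H n x - H' x := by
    funext x
    simp only [Pi.add_apply]
    ring
  simp only
  rw [e]
  exact eLpNorm_add_le ((h.mem n).sub h.mem').aestronglyMeasurable
    ((k.mem n).sub k.mem').aestronglyMeasurable (by norm_num)

theorem T2.bmul {c : E3 → ℝ} {B : ℝ} (hc : AEStronglyMeasurable c μ)
    (hB : ∀ᵐ x ∂μ, |c x| ≤ B) (h : T2 μ F F') :
    T2 μ (fun n x => c x * F n x) (fun x => c x * F' x) := by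
  refine ⟨fun n => (h.mem n).of_le_mul (c := B) (hc.mul (h.mem n).aestronglyMeasurable) ?_,
    h.mem'.of_le_mul (c := B) (hc.mul h.mem'.aestronglyMeasurable) ?_, ?_⟩
  · filter_upwards [hB] with x hx
    rw [norm_mul, Real.norm_eq_abs]
    gcongr
  · filter_upwards [hB] with x hx
    rw [norm_mul, Real.norm_eq_abs]
    gcongr
  · have h0 : Tendsto (fun n => ENNReal.ofReal B * eLpNorm (fun x => F n x - F' x) 2 μ) atTop
        (𝓝 0) := by
      have := ENNReal.Tendsto.const_mul (a := ENNReal.ofReal B) h.lim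
        (Or.inr ENNReal.ofReal_ne_top)
      rwa [mul_zero] at this
    refine tendsto_of_tendsto_of_tendsto_of_le_of_le tendsto_const_nhds h0 (fun n => zero_le)
      (fun n => ?_)
    refine eLpNorm_le_mul_eLpNorm_of_ae_le_mul ?_ 2
    filter_upwards [hB] with x hx
    rw [← mul_sub, norm_mul, Real.norm_eq_abs]
    gcongr

theorem inner_toLp {f g : E3 → ℝ} (hf : MemLp f 2 μ) (hg : MemLp g 2 μ) :
    inner ℝ (hf.toLp f) (hg.toLp g) = ∫ x, f x * g x ∂μ := by
  rw [L2.inner_def]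
  refine integral_congr_ae ?_
  filter_upwards [hf.coeFn_toLp, hg.coeFn_toLp] with x hx hy
  rw [hx, hy]
  simp [mul_comm]

theorem T2.prod (h : T2 μ F F') (k : T2 μ H H') :
    Tendsto (fun n => ∫ x, F n x * H n x ∂μ) atTop (𝓝 (∫ x, F' x * H' x ∂μ)) := by
  have h1 : Tendsto (fun n => (h.mem n).toLp (F n)) atTop (𝓝 (h.mem'.toLp F')) :=
    (Lp.tendsto_Lp_iff_tendsto_eLpNorm'' F h.mem F' h.mem').2 h.lim
  have h2 : Tendsto (fun n => (k.mem n).toLp (H n)) atTop (𝓝 (k.mem'.toLp H')) :=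
    (Lp.tendsto_Lp_iff_tendsto_eLpNorm'' H k.mem H' k.mem').2 k.lim
  have h3 := h1.inner (𝕜 := ℝ) h2
  simp only [inner_toLp] at h3
  exact h3

theorem T2.sum {ι : Type} [Fintype ι] {F : ι → ℕ → E3 → ℝ} {F' : ι → E3 → ℝ}
    (h : ∀ i, T2 μ (F i) (F' i)) :
    T2 μ (fun n x => ∑ i, F i n x) (fun x => ∑ i, F' i x) := by
  classical
  have key : ∀ s : Finset ι, T2 μ (fun n x => ∑ i ∈ s, F i n x) (fun x => ∑ i ∈ s, F' i x) := by
    intro s
    induction s using Finset.induction_on with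
    | empty =>
      simp only [Finset.sum_empty]
      exact ⟨fun n => MemLp.zero, MemLp.zero, by simp⟩
    | insert a s ha ih =>
      simp only [Finset.sum_insert ha]
      exact (h a).add ih
  exact key Finset.univ

/-- Uniform convergence on a compact set. -/
theorem T2.unif {K : Set E3} (hK : IsCompact K) {v : ℕ → E3 → ℝ} {w : E3 → ℝ}
    (hv : ∀ n, Continuous (v n)) (hw : ContinuousOn w K) (hu : TendstoUniformlyOn v w atTop K) :
    T2 (volume.restrict K) v w := by
  have : IsFiniteMeasure (volume.restrict K) := ⟨by simpa using hK.measure_lt_top⟩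
  have hwm : MemLp w 2 (volume.restrict K) := by
    obtain ⟨C, hC⟩ := hK.exists_bound_of_continuousOn hw
    exact MemLp.of_bound (hw.aestronglyMeasurable hK.measurableSet) C
      ((ae_restrict_iff' hK.measurableSet).2 (Eventually.of_forall hC))
  refine ⟨fun n => memLp_cont hK (hv n) 2, hwm, ?_⟩
  rw [ENNReal.tendsto_nhds_zero]
  intro ε hε
  have hcont : Tendsto (fun δ : ℝ => (volume.restrict K) Set.univ ^ ((2 : ℝ≥0∞).toReal)⁻¹ *
      ENNReal.ofReal δ) (𝓝 0) (𝓝 0) := by
    have h1 : Tendsto (fun δ : ℝ => ENNReal.ofReal δ) (𝓝 0) (𝓝 0) := by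
      have := ENNReal.continuous_ofReal.tendsto 0
      rwa [ENNReal.ofReal_zero] at this
    have h2 := ENNReal.Tendsto.const_mul (a := (volume.restrict K) Set.univ ^
      ((2 : ℝ≥0∞).toReal)⁻¹) h1 (Or.inr ?_)
    · rwa [mul_zero] at h2
    · exact ENNReal.rpow_ne_top_of_nonneg (by positivity) (measure_ne_top _ _)
  have h3 := ((ENNReal.tendsto_nhds_zero.1 hcont) ε hε)
  obtain ⟨δ, hδ, hδ2⟩ : ∃ δ : ℝ, 0 < δ ∧ (volume.restrict K) Set.univ ^ ((2 : ℝ≥0∞).toReal)⁻¹ *
      ENNReal.ofReal δ ≤ ε := by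
    have h4 := (h3.filter_mono nhdsWithin_le_nhds).and (self_mem_nhdsWithin (a := (0 : ℝ))
      (s := Set.Ioi 0))
    obtain ⟨δ, h5, h6⟩ := h4.exists
    exact ⟨δ, h6, h5⟩
  filter_upwards [Metric.tendstoUniformlyOn_iff.1 hu δ hδ] with n hn
  refine le_trans (eLpNorm_le_of_ae_bound (C := δ) ?_) hδ2
  refine (ae_restrict_iff' hK.measurableSet).2 (Eventually.of_forall fun x hx => ?_)
  have := hn x hx
  rw [dist_comm, Real.dist_eq] at this
  exact this.le

/-! ### Smooth functions -/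

theorem pd_compact {f : E3 → ℝ} (h : HasCompactSupport f) (i : Fin 3) :
    HasCompactSupport (pd i f) := by
  have h1 : HasCompactSupport (fderiv ℝ f) := h.fderiv (𝕜 := ℝ)
  exact h1.comp_left (g := fun L : E3 →L[ℝ] ℝ => L (EuclideanSpace.single i 1)) (by simp)

theorem parts {f g : E3 → ℝ} (hf : ContDiff ℝ ∞ f) (hfc : HasCompactSupport f)
    (hg : ContDiff ℝ ∞ g) (i : Fin 3) :
    ∫ x, f x * pd i g x = -∫ x, pd i f x * g x := by
  refine integral_mul_fderiv_eq_neg_fderiv_mul_of_integrable (f := f) (g := g)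
    (v := EuclideanSpace.single i 1) ?_ ?_ ?_ ?_ ?_
  · exact ((contDiff_pd hf i).continuous.mul hg.continuous).integrable_of_hasCompactSupport
      (pd_compact hfc i).mul_right
  · exact (hf.continuous.mul (contDiff_pd hg i).continuous).integrable_of_hasCompactSupport
      hfc.mul_right
  · exact (hf.continuous.mul hg.continuous).integrable_of_hasCompactSupport hfc.mul_right
  · exact fun x _ => hf.differentiable (by simp) x
  · exact fun x _ => hg.differentiable (by simp) x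

theorem pd_comm' {f : E3 → ℝ} (hf : ContDiff ℝ ∞ f) (i j : Fin 3) :
    pd i (pd j f) = pd j (pd i f) := by
  funext x
  exact pd_comm hf.contDiffAt i j

/-- The second derivatives and the Laplacian have the same norm. -/
theorem hess_lap {U : E3 → ℝ} (hU : ContDiff ℝ ∞ U) (hc : HasCompactSupport U) :
    ∑ i, ∑ j, ∫ x, pd i (pd j U) x * pd i (pd j U) x =
      ∫ x, (∑ i, pd i (pd i U) x) * ∑ i, pd i (pd i U) x := by
  have h1 : ∀ i j, ∫ x, pd i (pd j U) x * pd i (pd j U) x =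
      ∫ x, pd i (pd i U) x * pd j (pd j U) x := by
    intro i j
    rw [parts (contDiff_pd (contDiff_pd hU j) i) (pd_compact (pd_compact hc j) i)
      (contDiff_pd hU j) i, pd_comm' hU i j, pd_comm' (contDiff_pd hU i) i j,
      parts (contDiff_pd (contDiff_pd hU i) i) (pd_compact (pd_compact hc i) i)
      (contDiff_pd hU j) j]
  have h2 : ∀ i j, Integrable (fun x => pd i (pd i U) x * pd j (pd j U) x) := fun i j =>
    ((contDiff_pd (contDiff_pd hU i) i).continuous.mul
      (contDiff_pd (contDiff_pd hU j) j).continuous).integrable_of_hasCompactSupport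
      (pd_compact (pd_compact hc i) i).mul_right
  rw [Finset.sum_congr rfl fun i _ => Finset.sum_congr rfl fun j _ => h1 i j]
  have h3 : ∀ x, (∑ i, pd i (pd i U) x) * ∑ i, pd i (pd i U) x =
      ∑ i, ∑ j, pd i (pd i U) x * pd j (pd j U) x := fun x => by
    rw [Finset.sum_mul_sum]
  rw [integral_congr_ae (Eventually.of_forall h3)]
  rw [integral_finsetSum _ fun i _ => integrable_finsetSum _ fun j _ => h2 i j]
  refine Finset.sum_congr rfl fun i _ => ?_
  rw [integral_finsetSum _ fun j _ => h2 i j]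

/-! ### The second derivatives of a product -/

/-- The second derivatives of `f v`, in terms of the jet of `v`. -/
noncomputable def NN (f : E3 → ℝ) (i j : Fin 3) (x : E3) (v : ℝ) (p : Cov) (M : Bil) : ℝ :=
  f x * M i j + (pd i f x * p j + (pd j f x * p i + pd i (pd j f) x * v))

theorem pd_pd_mul {f v : E3 → ℝ} (hf : ContDiff ℝ ∞ f) (hv : ContDiff ℝ ∞ v) (i j : Fin 3)
    (x : E3) : pd i (pd j (fun y => f y * v y)) x = NN f i j x (v x) (grad v x) (hess2 v x) := by
  have e1 : pd j (fun y => f y * v y) = fun y => f y * pd j v y + v y * pd j f y := by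
    funext y
    exact pd_mul (hf.differentiable (by simp) y) (hv.differentiable (by simp) y)
  have d1 := (hf.differentiable (by simp)) x
  have d2 := (hv.differentiable (by simp)) x
  have d3 := ((contDiff_pd hf j).differentiable (by simp)) x
  have d4 := ((contDiff_pd hv j).differentiable (by simp)) x
  rw [e1, pd_add (f := fun y => f y * pd j v y) (f' := fun y => v y * pd j f y)
    (d1.fun_mul d4) (d2.fun_mul d3), pd_mul d1 d4, pd_mul d2 d3]
  simp only [NN, grad, hess2, Matrix.of_apply]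
  ring

section limit

variable {U : Set E3} {v : E3 → ℝ} {G : E3 → Cov} {M : E3 → Bil}

theorem memLp_coeff {K : Set E3} (hK : IsCompact K) {c : E3 → ℝ} (hc : Continuous c) :
    AEStronglyMeasurable c (volume.restrict K) ∧ ∃ B, ∀ᵐ x ∂(volume.restrict K), |c x| ≤ B := by
  refine ⟨hc.aestronglyMeasurable, ?_⟩
  obtain ⟨C, hC⟩ := hK.exists_bound_of_continuousOn hc.continuousOn
  exact ⟨C, (ae_restrict_iff' hK.measurableSet).2 (Eventually.of_forall hC)⟩

/-- Multiplication by a continuous function. -/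
theorem T2.cmul {K : Set E3} (hK : IsCompact K) {c : E3 → ℝ} (hc : Continuous c)
    (h : T2 (volume.restrict K) F F') :
    T2 (volume.restrict K) (fun n x => c x * F n x) (fun x => c x * F' x) := by
  obtain ⟨h1, B, h2⟩ := memLp_coeff hK hc
  exact h.bmul h1 h2

/-- The two identities. -/
theorem identities (hw : H2On U v G M) {ζ : E3 → ℝ} (hζ : ContDiff ℝ ∞ ζ)
    (hζc : HasCompactSupport ζ) (hζU : tsupport ζ ⊆ U) :
    (∀ i j, MemLp (fun x => NN (fun y => ζ y ^ 2) i j x (v x) (G x) (M x)) 2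
      (volume.restrict (tsupport ζ))) ∧
    (∑ i, ∑ j, ∫ x in tsupport ζ, NN (fun y => ζ y ^ 2) i j x (v x) (G x) (M x) *
        NN (fun y => ζ y ^ 2) i j x (v x) (G x) (M x) =
      ∫ x in tsupport ζ, (∑ i, NN (fun y => ζ y ^ 2) i i x (v x) (G x) (M x)) *
        ∑ i, NN (fun y => ζ y ^ 2) i i x (v x) (G x) (M x)) ∧
    (∑ i, ∫ x in tsupport ζ, (ζ x * G x i) * (ζ x * G x i) =
      ∫ x in tsupport ζ, v x * (-(ζ x ^ 2 * ∑ i, M x i i +
        ∑ i, pd i (fun y => ζ y ^ 2) x * G x i))) ∧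
    (∀ i, MemLp (fun x => ζ x * G x i) 2 (volume.restrict (tsupport ζ))) ∧
    MemLp (fun x => -(ζ x ^ 2 * ∑ i, M x i i +
        ∑ i, pd i (fun y => ζ y ^ 2) x * G x i)) 2 (volume.restrict (tsupport ζ)) ∧
    MemLp v 2 (volume.restrict (tsupport ζ)) := by
  set K : Set E3 := tsupport ζ with hKdef
  have hK : IsCompact K := hζc
  set f : E3 → ℝ := fun y => ζ y ^ 2 with hf
  have hfs : ContDiff ℝ ∞ f := hζ.pow 2
  have hfc : HasCompactSupport f := hζc.comp_left (g := fun t : ℝ => t ^ 2) (by simp)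
  have hsupp : ∀ x, x ∉ K → ζ =ᶠ[𝓝 x] fun _ => 0 := fun x hx =>
    notMem_tsupport_iff_eventuallyEq.1 hx
  obtain ⟨w, hw1, hw2, hw3, hw4⟩ := hw.approx K hK hζU
  have hvK : ContinuousOn v K := hw.cont.mono hζU
  have tv : T2 (volume.restrict K) w v := T2.unif hK (fun n => (hw1 n).continuous) hvK hw2
  have tG : ∀ i, T2 (volume.restrict K) (fun n => pd i (w n)) (fun x => G x i) := by
    intro i
    refine ⟨fun n => memLp_cont hK (contDiff_pd (hw1 n) i).continuous 2, hw.memG K hK hζU i, ?_⟩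
    exact tend2 (fun n => (memLp_cont hK (contDiff_pd (hw1 n) i).continuous 2).sub
      (hw.memG K hK hζU i)) (hw3 i)
  have tM : ∀ i j, T2 (volume.restrict K) (fun n => pd i (pd j (w n))) (fun x => M x i j) := by
    intro i j
    refine ⟨fun n => memLp_cont hK (contDiff_pd (contDiff_pd (hw1 n) j) i).continuous 2,
      hw.memM K hK hζU i j, ?_⟩
    exact tend2 (fun n => (memLp_cont hK (contDiff_pd (contDiff_pd (hw1 n) j) i).continuous
      2).sub (hw.memM K hK hζU i j)) (hw4 i j)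
  have tN : ∀ i j, T2 (volume.restrict K)
      (fun n x => NN f i j x (w n x) (grad (w n) x) (hess2 (w n) x))
      (fun x => NN f i j x (v x) (G x) (M x)) := by
    intro i j
    exact ((tM i j).cmul hK hfs.continuous).add (((tG j).cmul hK (contDiff_pd hfs i).continuous).add
      (((tG i).cmul hK (contDiff_pd hfs j).continuous).add
        (tv.cmul hK (contDiff_pd (contDiff_pd hfs j) i).continuous)))
  have tS : T2 (volume.restrict K)
      (fun n x => ∑ i, NN f i i x (w n x) (grad (w n) x) (hess2 (w n) x))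
      (fun x => ∑ i, NN f i i x (v x) (G x) (M x)) := T2.sum fun i => tN i i
  have tZ : ∀ i, T2 (volume.restrict K) (fun n x => ζ x * pd i (w n) x)
      (fun x => ζ x * G x i) := fun i => (tG i).cmul hK hζ.continuous
  have tR : T2 (volume.restrict K) (fun n x => -(f x * ∑ i, pd i (pd i (w n)) x +
      ∑ i, pd i f x * pd i (w n) x)) (fun x => -(f x * ∑ i, M x i i +
      ∑ i, pd i f x * G x i)) := by
    have h1 := ((T2.sum fun i => tM i i).cmul hK hfs.continuous).add
      (T2.sum fun i => (tG i).cmul hK (contDiff_pd hfs i).continuous)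
    have h2 := h1.cmul hK (c := fun _ => (-1 : ℝ)) continuous_const
    simpa only [neg_one_mul] using h2
  refine ⟨fun i j => (tN i j).mem', ?_, ?_, fun i => (tZ i).mem', tR.mem', tv.mem'⟩
  · -- the first identity
    have hn : ∀ n, ∑ i, ∑ j, ∫ x in K, NN f i j x (w n x) (grad (w n) x) (hess2 (w n) x) *
        NN f i j x (w n x) (grad (w n) x) (hess2 (w n) x) =
        ∫ x in K, (∑ i, NN f i i x (w n x) (grad (w n) x) (hess2 (w n) x)) *
          ∑ i, NN f i i x (w n x) (grad (w n) x) (hess2 (w n) x) := by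
      intro n
      have hU : ContDiff ℝ ∞ (fun y => f y * w n y) := hfs.mul (hw1 n)
      have hUc : HasCompactSupport (fun y => f y * w n y) := hfc.mul_right
      have h1 := hess_lap hU hUc
      have h0 : ∀ i j x, x ∉ K → NN f i j x (w n x) (grad (w n) x) (hess2 (w n) x) = 0 := by
        intro i j x hx
        rw [← pd_pd_mul hfs (hw1 n)]
        have e : (fun y => f y * w n y) =ᶠ[𝓝 x] fun _ => 0 := by
          filter_upwards [hsupp x hx] with y hy
          simp only [hf, hy]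
          ring
        have e2 : pd j (fun y => f y * w n y) =ᶠ[𝓝 x] fun _ => 0 := by
          filter_upwards [e.eventually_nhds] with y hy
          rw [pd_congr hy, pd_const]
        rw [pd_congr e2, pd_const]
      simp only [pd_pd_mul hfs (hw1 n)] at h1
      have e1 : ∀ i j, ∫ x in K, NN f i j x (w n x) (grad (w n) x) (hess2 (w n) x) *
          NN f i j x (w n x) (grad (w n) x) (hess2 (w n) x) =
          ∫ x, NN f i j x (w n x) (grad (w n) x) (hess2 (w n) x) *
          NN f i j x (w n x) (grad (w n) x) (hess2 (w n) x) := fun i j =>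
        setIntegral_eq_integral_of_forall_compl_eq_zero fun x hx => by rw [h0 i j x hx, zero_mul]
      have e2 : ∫ x in K, (∑ i, NN f i i x (w n x) (grad (w n) x) (hess2 (w n) x)) *
          ∑ i, NN f i i x (w n x) (grad (w n) x) (hess2 (w n) x) =
          ∫ x, (∑ i, NN f i i x (w n x) (grad (w n) x) (hess2 (w n) x)) *
          ∑ i, NN f i i x (w n x) (grad (w n) x) (hess2 (w n) x) :=
        setIntegral_eq_integral_of_forall_compl_eq_zero fun x hx => by
          rw [Finset.sum_eq_zero fun i _ => h0 i i x hx, zero_mul]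
      rw [e2, Finset.sum_congr rfl fun i _ => Finset.sum_congr rfl fun j _ => e1 i j]
      exact h1
    have l1 : Tendsto (fun n => ∑ i, ∑ j, ∫ x in K,
        NN f i j x (w n x) (grad (w n) x) (hess2 (w n) x) *
        NN f i j x (w n x) (grad (w n) x) (hess2 (w n) x)) atTop
        (𝓝 (∑ i, ∑ j, ∫ x in K, NN f i j x (v x) (G x) (M x) *
          NN f i j x (v x) (G x) (M x))) :=
      tendsto_finsetSum _ fun i _ => tendsto_finsetSum _ fun j _ => (tN i j).prod (tN i j)
    have l2 := tS.prod tS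
    exact tendsto_nhds_unique l1 (l2.congr fun n => (hn n).symm)
  · have hn : ∀ n, ∑ i, ∫ x in K, (ζ x * pd i (w n) x) * (ζ x * pd i (w n) x) =
        ∫ x in K, w n x * (-(f x * ∑ i, pd i (pd i (w n)) x +
          ∑ i, pd i f x * pd i (w n) x)) := by
      intro n
      have hA : ∀ i, ∫ x, (ζ x * pd i (w n) x) * (ζ x * pd i (w n) x) =
          ∫ x, -((f x * pd i (pd i (w n)) x + pd i f x * pd i (w n) x) * w n x) := by
        intro i
        have hg : ContDiff ℝ ∞ (fun y => f y * pd i (w n) y) := hfs.mul (contDiff_pd (hw1 n) i)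
        have hgc : HasCompactSupport (fun y => f y * pd i (w n) y) := hfc.mul_right
        have h1 := parts hg hgc (hw1 n) i
        have e1 : ∀ x, pd i (fun y => f y * pd i (w n) y) x =
            f x * pd i (pd i (w n)) x + pd i (w n) x * pd i f x := fun x =>
          pd_mul (hfs.differentiable (by simp) x)
            ((contDiff_pd (hw1 n) i).differentiable (by simp) x)
        rw [integral_neg]
        have e2 : ∫ x, (ζ x * pd i (w n) x) * (ζ x * pd i (w n) x) =
            ∫ x, f x * pd i (w n) x * pd i (w n) x := by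
          refine integral_congr_ae (Eventually.of_forall fun x => ?_)
          simp only [hf]
          ring
        rw [e2, h1]
        congr 1
        refine integral_congr_ae (Eventually.of_forall fun x => ?_)
        simp only
        rw [e1]
        ring
      have hcc : ∀ {c : E3 → ℝ} {g : E3 → ℝ}, Continuous c → HasCompactSupport c → Continuous g →
          Integrable (fun x => c x * g x) := fun hc hcs hg =>
        (hc.mul hg).integrable_of_hasCompactSupport hcs.mul_right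
      have hI : ∀ i, Integrable
          (fun x => -((f x * pd i (pd i (w n)) x + pd i f x * pd i (w n) x) * w n x)) := by
        intro i
        have i1 : Integrable (fun x => f x * (pd i (pd i (w n)) x * w n x)) :=
          hcc hfs.continuous hfc
            ((contDiff_pd (contDiff_pd (hw1 n) i) i).continuous.mul (hw1 n).continuous)
        have i2 : Integrable (fun x => pd i f x * (pd i (w n) x * w n x)) :=
          hcc (contDiff_pd hfs i).continuous (pd_compact hfc i)
            ((contDiff_pd (hw1 n) i).continuous.mul (hw1 n).continuous)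
        refine (i1.add i2).neg.congr (Eventually.of_forall fun x => ?_)
        simp only [Pi.neg_apply, Pi.add_apply]
        ring
      have e1 : ∀ i, ∫ x in K, (ζ x * pd i (w n) x) * (ζ x * pd i (w n) x) =
          ∫ x, (ζ x * pd i (w n) x) * (ζ x * pd i (w n) x) := fun i =>
        setIntegral_eq_integral_of_forall_compl_eq_zero fun x hx => by
          rw [(hsupp x hx).self_of_nhds]
          ring
      have e2 : ∫ x in K, w n x * (-(f x * ∑ i, pd i (pd i (w n)) x +
          ∑ i, pd i f x * pd i (w n) x)) = ∫ x, w n x * (-(f x * ∑ i, pd i (pd i (w n)) x +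
          ∑ i, pd i f x * pd i (w n) x)) :=
        setIntegral_eq_integral_of_forall_compl_eq_zero fun x hx => by
          have h1 : f =ᶠ[𝓝 x] fun _ => 0 := by
            filter_upwards [hsupp x hx] with y hy
            simp only [hf, hy]
            ring
          have h2 : ∀ i, pd i f x = 0 := fun i => by rw [pd_congr h1, pd_const]
          simp only [h2, h1.self_of_nhds]
          simp
      rw [e2, Finset.sum_congr rfl fun i _ => (e1 i).trans (hA i),
        ← integral_finsetSum _ fun i _ => hI i]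
      refine integral_congr_ae (Eventually.of_forall fun x => ?_)
      simp only [Finset.sum_neg_distrib, ← Finset.sum_mul, Finset.sum_add_distrib,
        ← Finset.mul_sum]
      ring
    have l1 : Tendsto (fun n => ∑ i, ∫ x in K, (ζ x * pd i (w n) x) * (ζ x * pd i (w n) x)) atTop
        (𝓝 (∑ i, ∫ x in K, (ζ x * G x i) * (ζ x * G x i))) :=
      tendsto_finsetSum _ fun i _ => (tZ i).prod (tZ i)
    have l2 := tv.prod tR
    exact tendsto_nhds_unique l1 (l2.congr fun n => (hn n).symm)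

end limit

/-! ### Pointwise estimates -/

theorem msz_nonneg (B : Bil) : 0 ≤ msz B := Real.sqrt_nonneg _

theorem msz_sq (B : Bil) : msz B ^ 2 = ∑ i, ∑ j, B i j ^ 2 := by
  unfold msz
  rw [Real.sq_sqrt]
  positivity

theorem msz_eq (B : Bil) :
    msz B = ‖(WithLp.toLp 2 (fun ij : Fin 3 × Fin 3 => B ij.1 ij.2) :
      EuclideanSpace ℝ (Fin 3 × Fin 3))‖ := by
  rw [EuclideanSpace.norm_eq]
  unfold msz
  congr 1
  rw [Fintype.sum_prod_type]
  simp only [Real.norm_eq_abs, sq_abs]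

theorem msz_sub_le (A B : Bil) : msz (A - B) ≤ msz A + msz B := by
  rw [msz_eq, msz_eq, msz_eq]
  have e : (WithLp.toLp 2 (fun ij : Fin 3 × Fin 3 => (A - B) ij.1 ij.2) :
      EuclideanSpace ℝ (Fin 3 × Fin 3)) =
      WithLp.toLp 2 (fun ij : Fin 3 × Fin 3 => A ij.1 ij.2) -
      WithLp.toLp 2 (fun ij : Fin 3 × Fin 3 => B ij.1 ij.2) := rfl
  rw [e]
  exact norm_sub_le _ _

theorem abs_le_msz (B : Bil) (i j : Fin 3) : |B i j| ≤ msz B := by
  rw [← Real.sqrt_sq_eq_abs]
  refine Real.sqrt_le_sqrt ?_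
  calc B i j ^ 2 ≤ ∑ j, B i j ^ 2 :=
        Finset.single_le_sum (f := fun j => B i j ^ 2) (fun j _ => sq_nonneg _)
          (Finset.mem_univ j)
    _ ≤ ∑ i, ∑ j, B i j ^ 2 :=
        Finset.single_le_sum (f := fun i => ∑ j, B i j ^ 2)
          (fun i _ => Finset.sum_nonneg fun j _ => sq_nonneg _) (Finset.mem_univ i)

theorem trace_le (B : Bil) : |∑ i, B i i| ≤ 3 * msz B := by
  refine (Finset.abs_sum_le_sum_abs _ _).trans ?_
  refine (Finset.sum_le_sum fun i _ => abs_le_msz B i i).trans_eq ?_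
  simp

theorem msz_le {B : Bil} {t : ℝ} (ht : 0 ≤ t) (h : ∀ i j, |B i j| ≤ t) : msz B ≤ 3 * t := by
  unfold msz
  refine Real.sqrt_le_iff.2 ⟨by positivity, ?_⟩
  calc ∑ i, ∑ j, B i j ^ 2 ≤ ∑ i : Fin 3, ∑ j : Fin 3, t ^ 2 := by
        refine Finset.sum_le_sum fun i _ => Finset.sum_le_sum fun j _ => ?_
        rw [← sq_abs]
        exact pow_le_pow_left₀ (abs_nonneg _) (h i j) 2
    _ = (3 * t) ^ 2 := by
        simp
        ring

theorem vsz_nonneg (p : Cov) : 0 ≤ vsz p := Real.sqrt_nonneg _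

theorem vsz_sq (p : Cov) : vsz p ^ 2 = ∑ i, p i ^ 2 := by
  unfold vsz
  rw [Real.sq_sqrt]
  positivity

theorem abs_le_vsz (p : Cov) (i : Fin 3) : |p i| ≤ vsz p := by
  rw [← Real.sqrt_sq_eq_abs]
  refine Real.sqrt_le_sqrt ?_
  exact Finset.single_le_sum (f := fun i => p i ^ 2) (fun j _ => sq_nonneg _) (Finset.mem_univ i)

/-- The pointwise estimates. -/
theorem point {f : E3 → ℝ} {x : E3} {ζ c ρ S ε' C₁ v : ℝ} {p : Cov} {M : Bil} (hρ : 0 < ρ)
    (hε : 0 < ε') (hε1 : ε' ≤ 1) (hC₁ : 0 ≤ C₁) (hc : 0 ≤ c) (hζ0 : 0 ≤ ζ) (hζ1 : ζ ≤ 1)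
    (hS : 0 ≤ S) (hf : f x = ζ ^ 2) (hf1 : ∀ i, |pd i f x| ≤ c * ζ / ρ)
    (hf2 : ∀ i j, |pd i (pd j f) x| ≤ c / ρ ^ 2) (hv : |v| ≤ S)
    (hM : |∑ i, M i i| ≤ (1 - ε') * msz M + C₁ / ρ * vsz p) :
    (∑ i, NN f i i x v p M) ^ 2 ≤ (1 - ε') * (∑ i, ∑ j, NN f i j x v p M ^ 2) +
      (C₁ + 24 * c) ^ 2 / ε' * (ζ * vsz p / ρ + S / ρ ^ 2) ^ 2 ∧
    (∀ l : ℝ, 0 < l → v * (-(ζ ^ 2 * ∑ i, M i i + ∑ i, pd i f x * p i)) ≤
      (3 + 21 * c) * (l * ((∑ i, ∑ j, NN f i j x v p M ^ 2) +
        (ζ * vsz p / ρ + S / ρ ^ 2) ^ 2) + S ^ 2 / (2 * l))) ∧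
    ζ ^ 4 * msz M ^ 2 ≤ 2 * (∑ i, ∑ j, NN f i j x v p M ^ 2) +
      72 * c ^ 2 * (ζ * vsz p / ρ + S / ρ ^ 2) ^ 2 := by
  set q : ℝ := ζ * vsz p / ρ + S / ρ ^ 2 with hq
  have hp0 := vsz_nonneg p
  have hq0 : 0 ≤ q := by positivity
  have hq1 : ζ * vsz p / ρ ≤ q := by
    have : 0 ≤ S / ρ ^ 2 := by positivity
    linarith
  set E : Bil := Matrix.of fun i j =>
    pd i f x * p j + (pd j f x * p i + pd i (pd j f) x * v) with hE
  set N : Bil := Matrix.of fun i j => NN f i j x v p M with hN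
  have hNE : ζ ^ 2 • M = N - E := by
    ext i j
    simp only [hN, hE, NN, Matrix.sub_apply, Matrix.of_apply, Matrix.smul_apply, smul_eq_mul, hf]
    ring
  have hEb : msz E ≤ 6 * c * q := by
    have h1 : ∀ i j, |E i j| ≤ 2 * c * q := by
      intro i j
      simp only [hE, Matrix.of_apply]
      have h2 : |pd i f x * p j| ≤ c * ζ / ρ * vsz p := by
        rw [abs_mul]
        exact mul_le_mul (hf1 i) (abs_le_vsz p j) (abs_nonneg _) (by positivity)
      have h3 : |pd j f x * p i| ≤ c * ζ / ρ * vsz p := by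
        rw [abs_mul]
        exact mul_le_mul (hf1 j) (abs_le_vsz p i) (abs_nonneg _) (by positivity)
      have h4 : |pd i (pd j f) x * v| ≤ c / ρ ^ 2 * S := by
        rw [abs_mul]
        exact mul_le_mul (hf2 i j) hv (abs_nonneg _) (by positivity)
      have h5 := abs_add_le (pd i f x * p j) (pd j f x * p i + pd i (pd j f) x * v)
      have h6 := abs_add_le (pd j f x * p i) (pd i (pd j f) x * v)
      have h7 : 2 * c * q = 2 * (c * ζ / ρ * vsz p) + 2 * (c / ρ ^ 2 * S) := by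
        rw [hq]
        ring
      have h8 : 0 ≤ c / ρ ^ 2 * S := by positivity
      linarith
    have h2 := msz_le (by positivity) h1
    linarith
  have hE0 := msz_nonneg E
  set D : ℝ := msz N with hD
  have hD0 : 0 ≤ D := msz_nonneg N
  have hDsq : D ^ 2 = ∑ i, ∑ j, NN f i j x v p M ^ 2 := by
    rw [hD, msz_sq]
    rfl
  have hfm : ζ ^ 2 * msz M ≤ D + 6 * c * q := by
    have h1 : msz (ζ ^ 2 • M) = ζ ^ 2 * msz M := by
      have h2 : msz (ζ ^ 2 • M) ^ 2 = (ζ ^ 2 * msz M) ^ 2 := by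
        rw [mul_pow, msz_sq, msz_sq]
        simp only [Matrix.smul_apply, smul_eq_mul, mul_pow, Finset.mul_sum]
      exact (pow_left_inj₀ (msz_nonneg _) (mul_nonneg (sq_nonneg _) (msz_nonneg _))
        two_ne_zero).1 h2
    rw [← h1, hNE]
    refine (msz_sub_le N E).trans ?_
    linarith
  have hm0 := msz_nonneg M
  have htrM : ζ ^ 2 * |∑ i, M i i| ≤ 3 * (ζ ^ 2 * msz M) := by
    have := mul_le_mul_of_nonneg_left (trace_le M) (sq_nonneg ζ)
    linarith
  refine ⟨?_, ?_, ?_⟩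
  · have h1 : |∑ i, NN f i i x v p M| ≤ (1 - ε') * D + (C₁ + 24 * c) * q := by
      have e1 : ∑ i, NN f i i x v p M = ζ ^ 2 * ∑ i, M i i + ∑ i, E i i := by
        have e2 : ∀ i, NN f i i x v p M = ζ ^ 2 * M i i + E i i := by
          intro i
          simp only [hE, NN, Matrix.of_apply, hf]
        rw [Finset.sum_congr rfl fun i _ => e2 i, Finset.sum_add_distrib, Finset.mul_sum]
      rw [e1]
      refine (abs_add_le _ _).trans ?_
      rw [abs_mul, abs_of_nonneg (sq_nonneg ζ)]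
      have h2 := trace_le E
      have h3 := mul_le_mul_of_nonneg_left hM (sq_nonneg ζ)
      have h4 : ζ ^ 2 * (C₁ / ρ * vsz p) ≤ C₁ * q := by
        have h5 : ζ ^ 2 * (C₁ / ρ * vsz p) ≤ ζ * (C₁ / ρ * vsz p) := by
          refine mul_le_mul_of_nonneg_right ?_ (by positivity)
          nlinarith
        have h6 : ζ * (C₁ / ρ * vsz p) = C₁ * (ζ * vsz p / ρ) := by ring
        rw [h6] at h5
        exact h5.trans (mul_le_mul_of_nonneg_left hq1 hC₁)
      have h7 : (1 - ε') * (ζ ^ 2 * msz M) ≤ (1 - ε') * (D + 6 * c * q) :=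
        mul_le_mul_of_nonneg_left hfm (by linarith)
      have h8 : (1 - ε') * (6 * c * q) ≤ 6 * c * q := by
        have : 0 ≤ 6 * c * q := by positivity
        nlinarith
      nlinarith
    rw [← hDsq]
    have h2 : (∑ i, NN f i i x v p M) ^ 2 ≤ ((1 - ε') * D + (C₁ + 24 * c) * q) ^ 2 := by
      rw [← sq_abs]
      exact pow_le_pow_left₀ (abs_nonneg _) h1 2
    refine h2.trans ?_
    have h3 : (1 - ε') * D ^ 2 + (C₁ + 24 * c) ^ 2 / ε' * q ^ 2 -
        ((1 - ε') * D + (C₁ + 24 * c) * q) ^ 2 =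
        (1 - ε') / ε' * (ε' * D - (C₁ + 24 * c) * q) ^ 2 := by
      field_simp
      ring
    have h4 : 0 ≤ (1 - ε') / ε' * (ε' * D - (C₁ + 24 * c) * q) ^ 2 :=
      mul_nonneg (div_nonneg (by linarith) hε.le) (sq_nonneg _)
    linarith
  · intro l hl
    rw [← hDsq]
    have h1 : |ζ ^ 2 * ∑ i, M i i + ∑ i, pd i f x * p i| ≤ (3 + 21 * c) * (D + q) := by
      refine (abs_add_le _ _).trans ?_
      rw [abs_mul, abs_of_nonneg (sq_nonneg ζ)]
      have h2 : |∑ i, pd i f x * p i| ≤ 3 * c * q := by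
        refine (Finset.abs_sum_le_sum_abs _ _).trans ?_
        have h3 : ∀ i ∈ Finset.univ, |pd i f x * p i| ≤ c * q := by
          intro i _
          rw [abs_mul]
          refine (mul_le_mul (hf1 i) (abs_le_vsz p i) (abs_nonneg _) (by positivity)).trans ?_
          have h6 : c * ζ / ρ * vsz p = c * (ζ * vsz p / ρ) := by ring
          rw [h6]
          exact mul_le_mul_of_nonneg_left hq1 hc
        refine (Finset.sum_le_sum h3).trans_eq ?_
        simp
        ring
      have h3 : 0 ≤ c * D := mul_nonneg hc hD0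
      nlinarith
    have h2 : v * (-(ζ ^ 2 * ∑ i, M i i + ∑ i, pd i f x * p i)) ≤
        S * ((3 + 21 * c) * (D + q)) := by
      refine (le_abs_self _).trans ?_
      rw [abs_mul, abs_neg]
      exact mul_le_mul hv h1 (abs_nonneg _) hS
    refine h2.trans ?_
    have h3 : S * ((3 + 21 * c) * (D + q)) = (3 + 21 * c) * (S * (D + q)) := by ring
    rw [h3]
    refine mul_le_mul_of_nonneg_left ?_ (by positivity)
    have h4 : l * (D ^ 2 + q ^ 2) + S ^ 2 / (2 * l) - S * (D + q) =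
        l * ((D - S / (2 * l)) ^ 2 + (q - S / (2 * l)) ^ 2) := by
      field_simp
      ring
    have h5 : 0 ≤ l * ((D - S / (2 * l)) ^ 2 + (q - S / (2 * l)) ^ 2) := by positivity
    linarith
  · rw [← hDsq]
    have h1 : ζ ^ 4 * msz M ^ 2 = (ζ ^ 2 * msz M) ^ 2 := by ring
    rw [h1]
    refine (pow_le_pow_left₀ (by positivity) hfm 2).trans ?_
    nlinarith [sq_nonneg (D - 6 * c * q)]

/-! ### The cut-off -/

theorem exists_chi {a' a b b' : ℝ} (ha : a' < a) (hb : b < b') :
    ∃ χ : E3 → ℝ, ContDiff ℝ ∞ χ ∧ HasCompactSupport χ ∧ tsupport χ ⊆ Ann a' b' ∧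
      (∀ x, 0 ≤ χ x ∧ χ x ≤ 1) ∧ ∀ x ∈ cAnn a b, χ x = 1 := by
  have hcl : ∀ a b : ℝ, IsCompact (cAnn a b) := fun a b => by
    refine (isCompact_closedBall (0 : E3) b).of_isClosed_subset ?_ ?_
    · exact (isClosed_le continuous_const continuous_norm).inter
        (isClosed_le continuous_norm continuous_const)
    · intro x hx
      rw [mem_closedBall_zero_iff]
      exact hx.2
  have hK : cAnn a b ⊆ interior (cAnn ((a' + a) / 2) ((b + b') / 2)) := by
    have h1 : Ann ((a' + a) / 2) ((b + b') / 2) ⊆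
        interior (cAnn ((a' + a) / 2) ((b + b') / 2)) := by
      refine interior_maximal (fun x hx => ⟨hx.1.le, hx.2.le⟩) ?_
      exact (isOpen_lt continuous_const continuous_norm).inter
        (isOpen_lt continuous_norm continuous_const)
    exact fun x hx => h1 ⟨by linarith [hx.1], by linarith [hx.2]⟩
  obtain ⟨f, h1, h0, hf01⟩ := exists_contMDiffMap_one_nhds_of_subset_interior (𝓘(ℝ, E3))
    (n := ⊤) (hcl a b).isClosed hK
  have hfs : ContDiff ℝ ∞ f := f.contMDiff.contDiff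
  have hsub : tsupport (fun x => f x) ⊆ cAnn ((a' + a) / 2) ((b + b') / 2) := by
    refine closure_minimal (fun x hx => ?_) (hcl _ _).isClosed
    by_contra hxK
    exact hx (h0 x hxK)
  refine ⟨fun x => f x, hfs, (hcl _ _).of_isClosed_subset (isClosed_tsupport _) hsub,
    fun x hx => ?_, hf01, fun x hx => ((eventually_nhdsSet_iff_forall.1 h1) x hx).self_of_nhds⟩
  have := hsub hx
  exact ⟨by linarith [this.1], by linarith [this.2]⟩

theorem pd_scale {χ : E3 → ℝ} (hχ : Differentiable ℝ χ) (s : ℝ) (i : Fin 3) (x : E3) :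
    pd i (fun y => χ (s • y)) x = s * pd i χ (s • x) := by
  unfold pd
  have h1 : HasFDerivAt (fun y : E3 => s • y) (s • ContinuousLinearMap.id ℝ E3) x :=
    (hasFDerivAt_id x).const_smul s
  have h2 := ((hχ (s • x)).hasFDerivAt.comp x h1).fderiv
  have e : (fun y => χ (s • y)) = χ ∘ fun y => s • y := rfl
  rw [e, h2]
  simp

/-- Bounds for the derivatives of the cut-off. -/
theorem exists_bound {χ : E3 → ℝ} (hχ : ContDiff ℝ ∞ χ) (hc : HasCompactSupport χ) :
    ∃ c : ℝ, 0 ≤ c ∧ (∀ i x, 2 * |pd i χ x| ≤ c) ∧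
      ∀ i j x, |pd i (pd j (fun y => χ y ^ 2)) x| ≤ c := by
  have h1 : ∀ i, ∃ B : ℝ, ∀ x, ‖pd i χ x‖ ≤ B := fun i =>
    (contDiff_pd hχ i).continuous.bounded_above_of_compact_support (pd_compact hc i)
  have hχ2 : ContDiff ℝ ∞ (fun y => χ y ^ 2) := hχ.pow 2
  have hc2 : HasCompactSupport (fun y => χ y ^ 2) := hc.comp_left (g := fun t : ℝ => t ^ 2) (by simp)
  have h2 : ∀ i j, ∃ B : ℝ, ∀ x, ‖pd i (pd j (fun y => χ y ^ 2)) x‖ ≤ B := fun i j =>
    (contDiff_pd (contDiff_pd hχ2 j) i).continuous.bounded_above_of_compact_support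
      (pd_compact (pd_compact hc2 j) i)
  choose B1 hB1 using h1
  choose B2 hB2 using h2
  have n1 : ∀ i, 0 ≤ B1 i := fun i => (norm_nonneg _).trans (hB1 i 0)
  have n2 : ∀ i j, 0 ≤ B2 i j := fun i j => (norm_nonneg _).trans (hB2 i j 0)
  have s1 : 0 ≤ ∑ i, B1 i := Finset.sum_nonneg fun i _ => n1 i
  have s2 : 0 ≤ ∑ i, ∑ j, B2 i j :=
    Finset.sum_nonneg fun i _ => Finset.sum_nonneg fun j _ => n2 i j
  refine ⟨2 * (∑ i, B1 i) + ∑ i, ∑ j, B2 i j, by positivity, fun i x => ?_, fun i j x => ?_⟩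
  · have h3 : |pd i χ x| ≤ ∑ i, B1 i :=
      (hB1 i x).trans (Finset.single_le_sum (fun i _ => n1 i) (Finset.mem_univ i))
    linarith
  · have h3 : |pd i (pd j (fun y => χ y ^ 2)) x| ≤ ∑ i, ∑ j, B2 i j :=
      (hB2 i j x).trans ((Finset.single_le_sum (fun j _ => n2 i j) (Finset.mem_univ j)).trans
        (Finset.single_le_sum (f := fun i => ∑ j, B2 i j)
          (fun i _ => Finset.sum_nonneg fun j _ => n2 i j) (Finset.mem_univ i)))
    linarith

/-- The final arithmetic. -/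
theorem arith {A B R V S ρ ε' c C₁ c₄ : ℝ} (hρ : 0 < ρ) (hε : 0 < ε')
    (hc : 0 ≤ c) (hVc : V ≤ c₄ * ρ ^ 3)
    (hR : R = 2 * B / ρ ^ 2 + 2 * S ^ 2 * V / ρ ^ 4)
    (h1 : A ≤ (1 - ε') * A + (C₁ + 24 * c) ^ 2 / ε' * R)
    (h2 : ∀ l : ℝ, 0 < l → B ≤ (3 + 21 * c) * (l * (A + R) + S ^ 2 * V / (2 * l))) :
    B ≤ (1 + 4 * (3 + 21 * c) ^ 2 * ((C₁ + 24 * c) ^ 2 / ε' ^ 2 + 1)) * c₄ * (S ^ 2 * ρ) ∧
    2 * A + 72 * c ^ 2 * R ≤ (2 * ((C₁ + 24 * c) ^ 2 / ε' ^ 2) + 72 * c ^ 2) *
      (2 * ((1 + 4 * (3 + 21 * c) ^ 2 * ((C₁ + 24 * c) ^ 2 / ε' ^ 2 + 1)) * c₄) + 2 * c₄) *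
        (S ^ 2 / ρ) := by
  set k : ℝ := 3 + 21 * c with hk
  have hk0 : 0 < k := by positivity
  set z : ℝ := (C₁ + 24 * c) ^ 2 / ε' ^ 2 with hz
  have hz0 : 0 ≤ z := by positivity
  have hA : A ≤ z * R := by
    have h3 : ε' * A ≤ (C₁ + 24 * c) ^ 2 / ε' * R := by linarith
    have h4 : A ≤ (C₁ + 24 * c) ^ 2 / ε' * R / ε' := by
      rw [le_div_iff₀ hε]
      linarith
    refine h4.trans_eq ?_
    rw [hz]
    field_simp
  have hAR : A + R ≤ (z + 1) * R := by linarith
  have hl : 0 < ρ ^ 2 / (4 * k * (z + 1)) := by positivity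
  have h3 := h2 _ hl
  have h4 : k * (ρ ^ 2 / (4 * k * (z + 1)) * (A + R)) ≤ ρ ^ 2 / 4 * R := by
    have h5 : k * (ρ ^ 2 / (4 * k * (z + 1)) * (A + R)) ≤
        k * (ρ ^ 2 / (4 * k * (z + 1)) * ((z + 1) * R)) := by gcongr
    refine h5.trans_eq ?_
    field_simp
  have h5 : k * (S ^ 2 * V / (2 * (ρ ^ 2 / (4 * k * (z + 1))))) =
      2 * k ^ 2 * (z + 1) * (S ^ 2 * V / ρ ^ 2) := by
    field_simp
    ring
  have h6 : ρ ^ 2 / 4 * R = B / 2 + S ^ 2 * V / ρ ^ 2 / 2 := by
    rw [hR]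
    field_simp
    ring
  have h7 : B ≤ (1 + 4 * k ^ 2 * (z + 1)) * (S ^ 2 * V / ρ ^ 2) := by
    rw [mul_add, h5] at h3
    linarith
  have h8 : S ^ 2 * V / ρ ^ 2 ≤ c₄ * (S ^ 2 * ρ) := by
    rw [div_le_iff₀ (by positivity)]
    have := mul_le_mul_of_nonneg_left hVc (sq_nonneg S)
    linarith
  have h9 : B ≤ (1 + 4 * k ^ 2 * (z + 1)) * c₄ * (S ^ 2 * ρ) := by
    refine h7.trans ?_
    rw [mul_assoc (1 + 4 * k ^ 2 * (z + 1)) c₄]
    exact mul_le_mul_of_nonneg_left h8 (by positivity)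
  refine ⟨h9, ?_⟩
  have h10 : R ≤ (2 * ((1 + 4 * k ^ 2 * (z + 1)) * c₄) + 2 * c₄) * (S ^ 2 / ρ) := by
    rw [hR]
    have e1 : 2 * B / ρ ^ 2 ≤ 2 * ((1 + 4 * k ^ 2 * (z + 1)) * c₄) * (S ^ 2 / ρ) := by
      rw [div_le_iff₀ (by positivity)]
      have e2 : 2 * ((1 + 4 * k ^ 2 * (z + 1)) * c₄) * (S ^ 2 / ρ) * ρ ^ 2 =
          2 * ((1 + 4 * k ^ 2 * (z + 1)) * c₄ * (S ^ 2 * ρ)) := by
        field_simp
      rw [e2]
      linarith
    have e3 : 2 * S ^ 2 * V / ρ ^ 4 ≤ 2 * c₄ * (S ^ 2 / ρ) := by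
      rw [div_le_iff₀ (by positivity)]
      have e2 : 2 * c₄ * (S ^ 2 / ρ) * ρ ^ 4 = 2 * (S ^ 2 * (c₄ * ρ ^ 3)) := by
        field_simp
      rw [e2]
      have := mul_le_mul_of_nonneg_left hVc (sq_nonneg S)
      linarith
    linarith
  have h11 : 2 * A + 72 * c ^ 2 * R ≤ (2 * z + 72 * c ^ 2) * R := by linarith
  refine h11.trans ?_
  rw [mul_assoc (2 * z + 72 * c ^ 2)]
  exact mul_le_mul_of_nonneg_left h10 (by positivity)

theorem volume_le {K : Set E3} {r : ℝ} (hr : 0 ≤ r) (h : K ⊆ Metric.closedBall 0 r) :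
    (volume K).toReal ≤ (volume (Metric.ball (0 : E3) 1)).toReal * r ^ 3 := by
  have h1 : volume K ≤ ENNReal.ofReal (r ^ 3) * volume (Metric.ball (0 : E3) 1) := by
    refine (measure_mono h).trans_eq ?_
    rw [Measure.addHaar_closedBall volume (0 : E3) hr]
    simp
  have h2 : ENNReal.ofReal (r ^ 3) * volume (Metric.ball (0 : E3) 1) ≠ ⊤ :=
    ENNReal.mul_ne_top ENNReal.ofReal_ne_top (measure_ball_lt_top).ne
  refine (ENNReal.toReal_mono h2 h1).trans_eq ?_
  rw [ENNReal.toReal_mul, ENNReal.toReal_ofReal (by positivity), mul_comm]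

end MLE1

open MLE1 in
theorem LE1_free : Stmt_LE1 := by
  intro ε' C₁ a' a b b' hε hε1 hC₁ ha' haa hab hbb
  obtain ⟨χ, hχ, hχc, hχs, hχ01, hχ1⟩ := exists_chi haa hbb
  obtain ⟨c, hc, hc1, hc2⟩ := exists_bound hχ hχc
  set c₄ : ℝ := (volume (Metric.ball (0 : E3) 1)).toReal * b' ^ 3 with hc₄
  have hb' : 0 < b' := by linarith
  have hc₄0 : 0 ≤ c₄ := by positivity
  set D1 : ℝ := (1 + 4 * (3 + 21 * c) ^ 2 * ((C₁ + 24 * c) ^ 2 / ε' ^ 2 + 1)) * c₄ with hD1
  set D2 : ℝ := (2 * ((C₁ + 24 * c) ^ 2 / ε' ^ 2) + 72 * c ^ 2) * (2 * D1 + 2 * c₄) with hD2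
  have hD10 : 0 ≤ D1 := by positivity
  have hD20 : 0 ≤ D2 := by positivity
  refine ⟨D1 + D2 + 1, by positivity, ?_⟩
  intro ρ S v G M hρ hS hw hvS hM
  -- the cut-off
  set ζ : E3 → ℝ := fun x => χ (ρ⁻¹ • x) with hζ
  have hζs : ContDiff ℝ ∞ ζ := hχ.comp (contDiff_const_smul ρ⁻¹)
  have hts : tsupport ζ ⊆ (fun x : E3 => ρ⁻¹ • x) ⁻¹' tsupport χ :=
    closure_minimal (fun x hx => subset_tsupport χ hx)
      ((isClosed_tsupport χ).preimage (continuous_const_smul ρ⁻¹))
  have hnorm : ∀ x : E3, ‖ρ⁻¹ • x‖ = ‖x‖ / ρ := by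
    intro x
    rw [norm_smul, norm_inv, Real.norm_of_nonneg hρ.le]
    ring
  have hζU : tsupport ζ ⊆ Ann (a' * ρ) (b' * ρ) := by
    intro x hx
    have h1 := hχs (hts hx)
    simp only [Ann, Set.mem_ofPred_eq, hnorm] at h1
    rw [lt_div_iff₀ hρ, div_lt_iff₀ hρ] at h1
    exact h1
  have hball : tsupport ζ ⊆ Metric.closedBall 0 (b' * ρ) := fun x hx => by
    rw [mem_closedBall_zero_iff]
    exact (hζU hx).2.le
  have hζc : HasCompactSupport ζ :=
    (isCompact_closedBall (0 : E3) (b' * ρ)).of_isClosed_subset (isClosed_tsupport _) hball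
  set K : Set E3 := tsupport ζ with hKdef
  have hK : IsCompact K := hζc
  have hfin : IsFiniteMeasure (volume.restrict K) := ⟨by simpa using hK.measure_lt_top⟩
  obtain ⟨mN, id1, id2, mZ, mR, mv⟩ := identities hw hζs hζc hζU
  set f : E3 → ℝ := fun y => ζ y ^ 2 with hf
  -- bounds of the derivatives of the cut-off
  have hζd : Differentiable ℝ ζ := hζs.differentiable (by simp)
  have hχd : Differentiable ℝ χ := hχ.differentiable (by simp)
  have hf1 : ∀ i x, |pd i f x| ≤ c * ζ x / ρ := by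
    intro i x
    rw [hf, ML4.pd_pow (hζd x) i 2, pd_scale hχd]
    have h1 := hc1 i (ρ⁻¹ • x)
    have h2 := (hχ01 (ρ⁻¹ • x)).1
    rw [abs_mul, abs_mul, abs_mul, abs_of_nonneg (show 0 ≤ ρ⁻¹ by positivity)]
    have h3 : |ζ x ^ (2 - 1)| = ζ x := by
      rw [show 2 - 1 = 1 from rfl, pow_one]
      exact abs_of_nonneg h2
    rw [h3]
    have h4 : |((2 : ℕ) : ℝ)| = 2 := by norm_num
    rw [h4]
    have h5 : 2 * ζ x * (ρ⁻¹ * |pd i χ (ρ⁻¹ • x)|) = 2 * |pd i χ (ρ⁻¹ • x)| * (ζ x / ρ) := by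
      ring
    rw [h5, mul_div_assoc]
    exact mul_le_mul_of_nonneg_right h1 (div_nonneg h2 hρ.le)
  have hf2 : ∀ i j x, |pd i (pd j f) x| ≤ c / ρ ^ 2 := by
    intro i j x
    have hχ2 : ContDiff ℝ ∞ (fun y => χ y ^ 2) := hχ.pow 2
    have e1 : pd j f = fun y => ρ⁻¹ * pd j (fun y => χ y ^ 2) (ρ⁻¹ • y) := by
      funext y
      exact pd_scale (hχ2.differentiable (by simp)) ρ⁻¹ j y
    have hd : Differentiable ℝ (pd j (fun y => χ y ^ 2)) :=
      (ML4.contDiff_pd hχ2 j).differentiable (by simp)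
    have hd2 : DifferentiableAt ℝ (fun y => pd j (fun y => χ y ^ 2) (ρ⁻¹ • y)) x :=
      (hd _).comp x ((differentiableAt_id).const_smul ρ⁻¹)
    rw [e1, pd_const_mul ρ⁻¹ hd2, pd_scale hd, abs_mul, abs_mul,
      abs_of_nonneg (show 0 ≤ ρ⁻¹ by positivity)]
    have h1 := hc2 i j (ρ⁻¹ • x)
    have h2 : c / ρ ^ 2 = ρ⁻¹ * (ρ⁻¹ * c) := by field_simp
    rw [h2]
    gcongr
  -- the pointwise estimates
  set r : E3 → ℝ := fun x => 2 * (∑ i, (ζ x * G x i) * (ζ x * G x i)) / ρ ^ 2 + 2 * S ^ 2 / ρ ^ 4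
    with hr
  have hqr : ∀ x, (ζ x * vsz (G x) / ρ + S / ρ ^ 2) ^ 2 ≤ r x := by
    intro x
    have e1 : r x = 2 * (ζ x * vsz (G x) / ρ) ^ 2 + 2 * (S / ρ ^ 2) ^ 2 := by
      have e2 : (ζ x * vsz (G x) / ρ) ^ 2 = (ζ x ^ 2 * vsz (G x) ^ 2) / ρ ^ 2 := by ring
      rw [e2, vsz_sq, hr, Finset.mul_sum]
      have e3 : ∀ i, ζ x * G x i * (ζ x * G x i) = ζ x ^ 2 * G x i ^ 2 := fun i => by ring
      simp only [e3]
      ring
    rw [e1]
    nlinarith [sq_nonneg (ζ x * vsz (G x) / ρ - S / ρ ^ 2)]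
  have hpt : ∀ᵐ x ∂(volume.restrict K),
      (∑ i, NN f i i x (v x) (G x) (M x)) ^ 2 ≤
        (1 - ε') * (∑ i, ∑ j, NN f i j x (v x) (G x) (M x) ^ 2) +
        (C₁ + 24 * c) ^ 2 / ε' * r x ∧
      (∀ l : ℝ, 0 < l → v x * (-(ζ x ^ 2 * ∑ i, M x i i + ∑ i, pd i f x * G x i)) ≤
        (3 + 21 * c) * (l * ((∑ i, ∑ j, NN f i j x (v x) (G x) (M x) ^ 2) + r x) +
          S ^ 2 / (2 * l))) ∧
      ζ x ^ 4 * msz (M x) ^ 2 ≤ 2 * (∑ i, ∑ j, NN f i j x (v x) (G x) (M x) ^ 2) +
        72 * c ^ 2 * r x := by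
    have h1 : ∀ᵐ x ∂(volume.restrict K),
        |∑ i, M x i i| ≤ (1 - ε') * msz (M x) + C₁ / ρ * vsz (G x) :=
      ae_restrict_of_ae_restrict_of_subset hζU hM
    filter_upwards [h1, ae_restrict_mem hK.measurableSet] with x hx hxK
    obtain ⟨p1, p2, p3⟩ := point (f := f) (x := x) (ζ := ζ x) (c := c) (v := v x) (p := G x)
      (M := M x) hρ hε hε1 hC₁ hc (hχ01 _).1 (hχ01 _).2 hS rfl (fun i => hf1 i x)
      (fun i j => hf2 i j x) (hvS x (hζU hxK)) hx
    have hq := hqr x
    refine ⟨p1.trans ?_, fun l hl => (p2 l hl).trans ?_, p3.trans ?_⟩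
    · gcongr
    · gcongr
    · gcongr
  -- integrals
  have iN : ∀ i j, Integrable (fun x => NN f i j x (v x) (G x) (M x) ^ 2)
      (volume.restrict K) := fun i j => (mN i j).integrable_sq
  have iNN : Integrable (fun x => ∑ i, ∑ j, NN f i j x (v x) (G x) (M x) ^ 2)
      (volume.restrict K) := integrable_finsetSum _ fun i _ => integrable_finsetSum _ fun j _ => iN i j
  have iZ : ∀ i, Integrable (fun x => (ζ x * G x i) * (ζ x * G x i)) (volume.restrict K) :=
    fun i => (mZ i).integrable_mul (mZ i)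
  have iZZ : Integrable (fun x => ∑ i, (ζ x * G x i) * (ζ x * G x i)) (volume.restrict K) :=
    integrable_finsetSum _ fun i _ => iZ i
  have ir : Integrable r (volume.restrict K) :=
    ((iZZ.const_mul 2).div_const _).add (integrable_const _)
  set A : ℝ := ∫ x in K, ∑ i, ∑ j, NN f i j x (v x) (G x) (M x) ^ 2 with hA
  set B : ℝ := ∫ x in K, ∑ i, (ζ x * G x i) * (ζ x * G x i) with hB
  set R : ℝ := ∫ x in K, r x with hR
  set V : ℝ := (volume K).toReal with hV
  have hRe : R = 2 * B / ρ ^ 2 + 2 * S ^ 2 * V / ρ ^ 4 := by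
    rw [hR, hr, integral_add ((iZZ.const_mul 2).div_const _) (integrable_const _), integral_div,
      integral_const_mul, setIntegral_const, smul_eq_mul, ← hB]
    have : (volume : Measure E3).real K = V := rfl
    rw [this]
    ring
  have hAid : A = ∫ x in K, (∑ i, NN f i i x (v x) (G x) (M x)) ^ 2 := by
    have e1 : A = ∑ i, ∑ j, ∫ x in K, NN f i j x (v x) (G x) (M x) *
        NN f i j x (v x) (G x) (M x) := by
      rw [hA, integral_finsetSum _ fun i _ => integrable_finsetSum _ fun j _ => iN i j]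
      refine Finset.sum_congr rfl fun i _ => ?_
      rw [integral_finsetSum _ fun j _ => iN i j]
      refine Finset.sum_congr rfl fun j _ => ?_
      refine integral_congr_ae (Eventually.of_forall fun x => ?_)
      simp only
      ring
    rw [e1, id1]
    refine integral_congr_ae (Eventually.of_forall fun x => ?_)
    simp only
    ring
  have iT : Integrable (fun x => (∑ i, NN f i i x (v x) (G x) (M x)) ^ 2)
      (volume.restrict K) := by
    have : MemLp (fun x => ∑ i, NN f i i x (v x) (G x) (M x)) 2 (volume.restrict K) :=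
      memLp_finsetSum _ fun i _ => mN i i
    exact this.integrable_sq
  have h1 : A ≤ (1 - ε') * A + (C₁ + 24 * c) ^ 2 / ε' * R := by
    calc A = ∫ x in K, (∑ i, NN f i i x (v x) (G x) (M x)) ^ 2 := hAid
      _ ≤ ∫ x in K, ((1 - ε') * (∑ i, ∑ j, NN f i j x (v x) (G x) (M x) ^ 2) +
          (C₁ + 24 * c) ^ 2 / ε' * r x) := by
          refine integral_mono_ae iT ((iNN.const_mul _).add (ir.const_mul _)) ?_
          filter_upwards [hpt] with x hx
          exact hx.1
      _ = (1 - ε') * A + (C₁ + 24 * c) ^ 2 / ε' * R := by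
          rw [integral_add (iNN.const_mul _) (ir.const_mul _), integral_const_mul,
            integral_const_mul]
  have h2 : ∀ l : ℝ, 0 < l → B ≤ (3 + 21 * c) * (l * (A + R) + S ^ 2 * V / (2 * l)) := by
    intro l hl
    have e1 : B = ∫ x in K, v x * (-(ζ x ^ 2 * ∑ i, M x i i +
        ∑ i, pd i f x * G x i)) := by
      rw [← id2, hB, integral_finsetSum _ fun i _ => iZ i]
    rw [e1]
    have i1 : Integrable (fun x => l * ((∑ i, ∑ j, NN f i j x (v x) (G x) (M x) ^ 2) + r x))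
        (volume.restrict K) := (iNN.add ir).const_mul l
    calc ∫ x in K, v x * (-(ζ x ^ 2 * ∑ i, M x i i + ∑ i, pd i f x * G x i))
        ≤ ∫ x in K, (3 + 21 * c) * (l * ((∑ i, ∑ j, NN f i j x (v x) (G x) (M x) ^ 2) + r x) +
          S ^ 2 / (2 * l)) := by
          refine integral_mono_ae (mv.integrable_mul mR)
            ((i1.add (integrable_const _)).const_mul _) ?_
          filter_upwards [hpt] with x hx
          exact hx.2.1 l hl
      _ = (3 + 21 * c) * (l * (A + R) + S ^ 2 * V / (2 * l)) := by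
          rw [integral_const_mul, integral_add i1 (integrable_const _), integral_const_mul,
            integral_add iNN ir, setIntegral_const, smul_eq_mul]
          have : (volume : Measure E3).real K = V := rfl
          rw [this]
          ring
  have hV0 : 0 ≤ V := ENNReal.toReal_nonneg
  have hVc : V ≤ c₄ * ρ ^ 3 := by
    have := volume_le (by positivity) hball
    rw [mul_pow, ← mul_assoc] at this
    exact this
  have hR0 : 0 ≤ R := by
    refine integral_nonneg fun x => ?_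
    have h3 : 0 ≤ ∑ i, (ζ x * G x i) * (ζ x * G x i) :=
      Finset.sum_nonneg fun i _ => mul_self_nonneg _
    simp only [hr, Pi.zero_apply]
    positivity
  obtain ⟨e1, e2⟩ := arith (C₁ := C₁) hρ hε hc hVc hRe h1 h2
  rw [← hD1] at e1 e2
  rw [← hD2] at e2
  -- conclusion
  have hone : ∀ x ∈ cAnn (a * ρ) (b * ρ), ζ x = 1 := by
    intro x hx
    refine hχ1 _ ?_
    simp only [cAnn, Set.mem_ofPred_eq, hnorm]
    rw [le_div_iff₀ hρ, div_le_iff₀ hρ]
    exact hx
  have hsub : cAnn (a * ρ) (b * ρ) ⊆ K := fun x hx => subset_tsupport ζ (by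
    rw [Function.mem_support, hone x hx]
    exact one_ne_zero)
  have hcm : MeasurableSet (cAnn (a * ρ) (b * ρ)) :=
    ((isClosed_le continuous_const continuous_norm).inter
      (isClosed_le continuous_norm continuous_const)).measurableSet
  have iM : ∀ i j, Integrable (fun x => ζ x ^ 4 * M x i j ^ 2) (volume.restrict K) := by
    intro i j
    have h3 := (hw.memM K hK hζU i j).integrable_sq
    refine h3.bdd_mul (c := 1) ((hζs.continuous.pow 4).aestronglyMeasurable)
      (Eventually.of_forall fun x => ?_)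
    rw [Real.norm_eq_abs, abs_of_nonneg (by positivity)]
    exact pow_le_one₀ (hχ01 _).1 (hχ01 _).2
  have iMM : Integrable (fun x => ζ x ^ 4 * msz (M x) ^ 2) (volume.restrict K) := by
    have h3 : (fun x => ζ x ^ 4 * msz (M x) ^ 2) = fun x => ∑ i, ∑ j, ζ x ^ 4 * M x i j ^ 2 := by
      funext x
      rw [msz_sq]
      simp only [Finset.mul_sum]
    rw [h3]
    exact integrable_finsetSum _ fun i _ => integrable_finsetSum _ fun j _ => iM i j
  refine ⟨?_, ?_⟩
  · have e3 : ∫ x in cAnn (a * ρ) (b * ρ), msz (M x) ^ 2 =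
        ∫ x in cAnn (a * ρ) (b * ρ), ζ x ^ 4 * msz (M x) ^ 2 := by
      refine setIntegral_congr_fun hcm fun x hx => ?_
      simp only [hone x hx]
      ring
    have e4 : ∫ x in cAnn (a * ρ) (b * ρ), ζ x ^ 4 * msz (M x) ^ 2 ≤
        ∫ x in K, ζ x ^ 4 * msz (M x) ^ 2 :=
      setIntegral_mono_set iMM (Eventually.of_forall fun x => by
        simp only [Pi.zero_apply]
        positivity) (LE.le.eventuallyLE hsub)
    have e5 : ∫ x in K, ζ x ^ 4 * msz (M x) ^ 2 ≤ 2 * A + 72 * c ^ 2 * R := by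
      calc ∫ x in K, ζ x ^ 4 * msz (M x) ^ 2
          ≤ ∫ x in K, (2 * (∑ i, ∑ j, NN f i j x (v x) (G x) (M x) ^ 2) +
            72 * c ^ 2 * r x) := by
            refine integral_mono_ae iMM ((iNN.const_mul _).add (ir.const_mul _)) ?_
            filter_upwards [hpt] with x hx
            exact hx.2.2
        _ = 2 * A + 72 * c ^ 2 * R := by
            rw [integral_add (iNN.const_mul _) (ir.const_mul _), integral_const_mul,
              integral_const_mul]
    have e6 : D2 * (S ^ 2 / ρ) ≤ (D1 + D2 + 1) * S ^ 2 / ρ := by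
      rw [mul_div_assoc]
      have : 0 ≤ S ^ 2 / ρ := by positivity
      nlinarith
    rw [e3]
    exact e4.trans (e5.trans (e2.trans e6))
  · have e3 : ∫ x in cAnn (a * ρ) (b * ρ), vsz (G x) ^ 2 =
        ∫ x in cAnn (a * ρ) (b * ρ), ∑ i, (ζ x * G x i) * (ζ x * G x i) := by
      refine setIntegral_congr_fun hcm fun x hx => ?_
      simp only [hone x hx, vsz_sq]
      refine Finset.sum_congr rfl fun i _ => ?_
      ring
    have e4 : ∫ x in cAnn (a * ρ) (b * ρ), ∑ i, (ζ x * G x i) * (ζ x * G x i) ≤ B :=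
      setIntegral_mono_set iZZ (Eventually.of_forall fun x =>
        Finset.sum_nonneg fun i _ => mul_self_nonneg _) (LE.le.eventuallyLE hsub)
    have e6 : D1 * (S ^ 2 * ρ) ≤ (D1 + D2 + 1) * S ^ 2 * ρ := by
      rw [mul_assoc]
      have : 0 ≤ S ^ 2 * ρ := by positivity
      nlinarith
    rw [e3]
    exact e4.trans (e1.trans e6)

/-- LE1: local bound of the second derivatives. -/
theorem LE1 (_hHSYM : Stmt_HSYM) : Stmt_LE1 := LE1_free

end Pool.Agent.PFlow


end
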