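import Mathlib
import Pool.Agent.PenroseM.C01
import Pool.Agent.PenroseM.C06

/-! Parts: PFlow.StmtsPF, PFlow.P.Brid, PFlow.P.Ener, PFlow.P.EqL, PFlow.P.FinP, PFlow.P.FluxL, PFlow.P.HTwoOn, PFlow.P.LimX, PFlow.P.NoIsl, PFlow.P.SubL, PFlow.P.Zar -/

section

/-!
# Block P: statements of the modules (the equation of the level set flow)

Here the general part (`StmtsP.lean`) meets the coefficients (`StmtsK.lean`). Proofs in `PDE.md`.
-/

open MeasureTheory Filter Topology Set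
open scoped ContDiff RealInnerProductSpace

namespace Pool.Agent.PFlow.PB

open Pool.Agent.PenroseSph Pool.Agent.PFlow

/-- The matrix with the given rows. -/
noncomputable def mt (M : Fin 3 → E3) : Bil := Matrix.of fun i j => M i j

/-- F0 (BRID): dictionary between `StmtsK` and `StmtsP`. -/
structure BRID : Prop where
  coef : ∀ (ε δ κ : ℝ) (g h : TensorField) (r : ℝ), 0 < ε → ε < 1 → 0 < δ → 0 < κ → 0 < r →
    GData g h r → ∃ c L, PCoef (cA ε δ κ g) (cB ε δ g h) c L r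
  op : ∀ (ε δ κ : ℝ) (g h : TensorField) (r : ℝ), 0 < ε → ε < 1 → 0 < δ → 0 < κ →
    GData g h r → ∀ (x ξ : E3) (M : Fin 3 → E3),
      opA (cA ε δ κ g) x ξ M = opL ε δ κ g x ξ (mt M)
  jet : ∀ (f : E3 → ℝ) (x : E3), ContDiffAt ℝ 2 f x →
    gr f x = vec (grad f x) ∧ mt (fun i => hs f i x) = hess2 f x

/-- F1 (KENE): the drift is controlled by the energy, uniformly in `δ, κ`. -/
def KENE : Prop := ∀ (ε : ℝ) (g h : TensorField) (r : ℝ), 0 < ε → ε < 1 → GData g h r →
  ∃ C : ℝ, 0 ≤ C ∧ ∀ δ κ : ℝ, 0 < δ → δ ≤ 1 → 0 < κ → κ ≤ 1 → ∀ x ξ : E3,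
    0 ≤ ⟪cA ε δ κ g x ξ, ξ⟫ ∧ |cB ε δ g h x ξ| ≤ ⟪cA ε δ κ g x ξ, ξ⟫ + C

/-- F2 (ENER): uniform `L²` bound. -/
def ENER : Prop := ∀ (ε : ℝ) (g h : TensorField) (r : ℝ) (Θ θ : E3 → ℝ) (T t₀ : ℝ),
  0 < ε → ε < 1 → GData g h r → Pen Θ θ T t₀ r →
  ∃ C : ℝ, ∀ δ κ : ℝ, 0 < δ → δ ≤ 1 → 0 < κ → κ ≤ 1 → ∀ u G,
    WSol (cA ε δ κ g) (cB ε δ g h) Θ θ u G → (∀ᵐ x, 0 ≤ u x ∧ u x ≤ 1) → sq u ≤ C

/-- F3 (CORDI): the integrated Cordes inequality. -/
def CORDI : Prop := ∀ (ε : ℝ) (g h : TensorField) (r : ℝ), 0 < ε → ε < 1 → GData g h r →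
  ∀ C₀ T : ℝ, ∃ C : ℝ, ∀ u G M F, H2 u G M → MemLp F 2 → (∀ᵐ x, |F x| ≤ T) →
    (∀ᵐ x, trg g x (cHess g x (G x) (mt fun i => M i x)) ^ 2 ≤
      (1 - ε) * nsq g x (cHess g x (G x) (mt fun i => M i x))
        + C₀ * (‖G x‖ ^ 2 + F x ^ 2 * (1 + ‖G x‖ ^ 2))) →
    ∑ i, sqv (M i) ≤ C * (sqv G + sq F)

/-- F4 (UNIF): uniform bound in `H²`. -/
def UNIF : Prop := ∀ (ε : ℝ) (g h : TensorField) (r : ℝ) (Θ θ : E3 → ℝ) (T t₀ : ℝ),
  0 < ε → ε < 1 → 0 < r → GData g h r → Pen Θ θ T t₀ r →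
  ∃ C : ℝ, ∀ δ κ : ℝ, 0 < δ → δ ≤ 1 → 0 < κ → κ ≤ 1 → ∀ u G M,
    WSol (cA ε δ κ g) (cB ε δ g h) Θ θ u G → H2 u G M → (∀ᵐ x, 0 ≤ u x ∧ u x ≤ 1) →
    sq u + sqv G + ∑ i, sqv (M i) ≤ C

/-- The penalty used in the construction: `Θ = θ` for `|x| ≤ b`, both vanish on
`a ≤ |x| ≤ b`, `θ = 0` for `|x| ≥ a`. -/
structure Pen2 (a b : ℝ) (Θ θ : E3 → ℝ) (T t₀ : ℝ) : Prop where
  pen : Pen Θ θ T t₀ (3 * b / 2)
  mid : ∀ x : E3, a ≤ ‖x‖ → ‖x‖ ≤ b → Θ x = 0
  inn : ∀ x : E3, ‖x‖ ≤ b → Θ x = θ x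
  out : ∀ x : E3, a ≤ ‖x‖ → θ x = 0

/-- F5 (CLOSE): for a strong penalty the solution is close to `1` inside and to `0` outside,
uniformly in `δ, κ`. -/
def CLOSE : Prop := ∀ (ε a b η : ℝ) (g h : TensorField), 0 < ε → ε < 1 → 0 < a → 8 * a ≤ b →
  0 < η → GData g h (b / 2) → ∃ (Θ θ : E3 → ℝ) (T t₀ : ℝ), Pen2 a b Θ θ T t₀ ∧
  ∀ δ κ : ℝ, 0 < δ → δ ≤ 1 → 0 < κ → κ ≤ 1 → ∀ u G,
    WSol (cA ε δ κ g) (cB ε δ g h) Θ θ u G → Continuous u → (∀ x, 0 ≤ u x ∧ u x ≤ 1) →
    (∀ x : E3, ‖x‖ ≤ a / 2 → 1 - η ≤ u x) ∧ (∀ x : E3, 2 * b ≤ ‖x‖ → u x ≤ η)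

/-- The limit `δ, κ → 0`: everything that is known about the sequence of regularised solutions and
its limit. -/
structure Lim (ε a b : ℝ) (g h : TensorField) (Θ θ : E3 → ℝ) (T t₀ : ℝ) (δ κ : ℕ → ℝ)
    (u : ℕ → E3 → ℝ) (G : ℕ → E3 → E3) (M : ℕ → Fin 3 → E3 → E3) (C : ℝ)
    (v : E3 → ℝ) (F : E3 → E3) (N : Fin 3 → E3 → E3) : Prop where
  eps_pos : 0 < ε
  eps_lt : ε < 1
  a_pos : 0 < a
  hab : 8 * a ≤ b
  data : GData g h (b / 2)
  pen : Pen2 a b Θ θ T t₀
  δ_pos : ∀ n, 0 < δ n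
  δ_le : ∀ n, δ n ≤ 1
  δ_tend : Tendsto δ atTop (𝓝 0)
  κ_pos : ∀ n, 0 < κ n
  κ_le : ∀ n, κ n ≤ 1
  κ_tend : Tendsto κ atTop (𝓝 0)
  sol : ∀ n, WSol (cA ε (δ n) (κ n) g) (cB ε (δ n) g h) Θ θ (u n) (G n)
  h2 : ∀ n, H2 (u n) (G n) (M n)
  cont : ∀ n, Continuous (u n)
  nonneg : ∀ n x, 0 ≤ u n x
  le_one : ∀ n x, u n x ≤ 1
  bound : ∀ n, sq (u n) + sqv (G n) + ∑ i, sqv (M n i) ≤ C
  h2v : H2 v F N
  contv : Continuous v
  unif : ∀ K : Set E3, IsCompact K → TendstoUniformlyOn u v atTop K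
  strong : ∀ K : Set E3, IsCompact K →
    Tendsto (fun n => ∫ x in K, ‖G n x - F x‖ ^ 2) atTop (𝓝 0)
  ae : ∀ᵐ x, Tendsto (fun n => G n x) atTop (𝓝 (F x))
  weak : ∀ ψ : E3 → ℝ, MemLp ψ 2 → ∀ i j,
    Tendsto (fun n => ∫ x, ψ x * M n i x j) atTop (𝓝 (∫ x, ψ x * N i x j))

/-- The second derivatives of the limit in the conventions of `Defs.lean`. -/
noncomputable def mat (N : Fin 3 → E3 → E3) (x : E3) : Bil := Matrix.of fun i j => N j x i

/-- F6 (EQL): the equation of the limit. -/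
def EQL : Prop := ∀ ε a b g h Θ θ T t₀ δ κ u G M C v F N,
  Lim ε a b g h Θ θ T t₀ δ κ u G M C v F N → EqU (Ann a b) ε g h (fun x => F x) (mat N)

/-- F7 (FLUXL): the flux identity of the limit. -/
def FLUXL : Prop := ∀ ε a b g h Θ θ T t₀ δ κ u G M C v F N,
  Lim ε a b g h Θ θ T t₀ δ κ u G M C v F N →
  ∀ χ : E3 → ℝ, ContDiff ℝ 1 χ → HasCompactSupport χ → tsupport χ ⊆ Ann a b →
    ∫ x, len g x (F x) ^ (ε - 1) * ev (g x)⁻¹ (F x) (grad χ x) * volDen g x
      = ∫ x, len g x (F x) ^ ε * beps ε g x (F x) (h x) * χ x * volDen g x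

/-- F8 (SUBL): comparison for the limit. -/
def SUBL : Prop := ∀ ε a b g h Θ θ T t₀ δ κ u G M C v F N,
  Lim ε a b g h Θ θ T t₀ δ κ u G M C v F N →
  (∀ K : Set E3, IsCompact K → K ⊆ {x : E3 | ‖x‖ ≤ b} →
    ∀ f : E3 → ℝ, (∀ x ∈ K, ContDiffAt ℝ 2 f x) →
      (∀ x ∈ K, grad f x ≠ 0 ∧ 0 < opN ε g h f x) →
      (∀ x ∈ frontier K, f x ≤ v x) → ∀ x ∈ K, f x ≤ v x) ∧
  (∀ K : Set E3, IsCompact K → K ⊆ {x : E3 | a ≤ ‖x‖} →
    ∀ f : E3 → ℝ, (∀ x ∈ K, ContDiffAt ℝ 2 f x) →
      (∀ x ∈ K, grad f x ≠ 0 ∧ opN ε g h f x < 0) →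
      (∀ x ∈ frontier K, v x ≤ f x) → ∀ x ∈ K, v x ≤ f x)

/-- F9 (NOISL): no islands, from the comparison principle. -/
def NOISL : Prop := ∀ (ε a b : ℝ) (g h : TensorField) (v : E3 → ℝ), 0 < ε → ε < 1 → 0 < a →
  8 * a ≤ b → GData g h (b / 2) → Continuous v →
  (∀ K : Set E3, IsCompact K → K ⊆ {x : E3 | ‖x‖ ≤ b} →
    ∀ f : E3 → ℝ, (∀ x ∈ K, ContDiffAt ℝ 2 f x) →
      (∀ x ∈ K, grad f x ≠ 0 ∧ 0 < opN ε g h f x) →
      (∀ x ∈ frontier K, f x ≤ v x) → ∀ x ∈ K, f x ≤ v x) →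
  (∀ K : Set E3, IsCompact K → K ⊆ {x : E3 | a ≤ ‖x‖} →
    ∀ f : E3 → ℝ, (∀ x ∈ K, ContDiffAt ℝ 2 f x) →
      (∀ x ∈ K, grad f x ≠ 0 ∧ opN ε g h f x < 0) →
      (∀ x ∈ frontier K, v x ≤ f x) → ∀ x ∈ K, v x ≤ f x) →
  NoIsland (Ann a b) v

/-- F10 (HTWOON): the class `H2On` of `Defs.lean`. -/
def HTWOON : Prop := ∀ (v : E3 → ℝ) (F : E3 → E3) (N : Fin 3 → E3 → E3) (U : Set E3),
  IsOpen U → H2 v F N → Continuous v → H2On U v (fun x => F x) (mat N)

/-- F11 (LIMX): existence of the sequence and its limit. -/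
def LIMX : Prop := ∀ (ε a b η : ℝ) (g h : TensorField), 0 < ε → ε < 1 → 0 < a → 8 * a ≤ b →
  0 < η → GData g h (b / 2) → ∃ Θ θ T t₀ δ κ u G M C v F N,
    Lim ε a b g h Θ θ T t₀ δ κ u G M C v F N ∧
    (∀ x : E3, ‖x‖ ≤ a / 2 → 1 - η ≤ v x) ∧ (∀ x : E3, 2 * b ≤ ‖x‖ → v x ≤ η)

/-- F12 (FINP): the main theorem of block P. -/
def FINP : Prop := EQL → FLUXL → SUBL → NOISL → HTWOON → LIMX → Stmt_P

end Pool.Agent.PFlow.PB


end

section

/-!
# Block P: the dictionary between `StmtsK` and `StmtsP`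
-/

open MeasureTheory Filter Topology Set
open scoped ContDiff RealInnerProductSpace

namespace Pool.Agent.PFlow.PB

open Pool.Agent.PenroseSph Pool.Agent.PFlow

namespace Brid

/-- Derivatives of components. -/
theorem fderiv_comp_apply {F : E3 → E3} {x : E3} (hF : DifferentiableAt ℝ F x) (v : E3)
    (i : Fin 3) : fderiv ℝ (fun y => F y i) x v = (fderiv ℝ F x v) i := by
  have h := ((EuclideanSpace.proj i : E3 →L[ℝ] ℝ).hasFDerivAt.comp x hF.hasFDerivAt).fderiv
  have e : (fun y => F y i) = (EuclideanSpace.proj i : E3 →L[ℝ] ℝ) ∘ F := rfl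
  rw [e, h]
  rfl

theorem sum_ee (v : E3) : v = ∑ j, v j • (EuclideanSpace.single j (1 : ℝ) : E3) := by
  ext k
  simp only [WithLp.ofLp_sum, WithLp.ofLp_smul, Finset.sum_apply, Pi.smul_apply, smul_eq_mul]
  rw [Finset.sum_eq_single k]
  · simp
  · intro j _ hj
    simp [Ne.symm hj]
  · simp

theorem fderiv_sum (f : E3 → ℝ) (x v : E3) : fderiv ℝ f x v = ∑ j, v j * pd j f x := by
  conv_lhs => rw [sum_ee v]
  rw [map_sum]
  refine Finset.sum_congr rfl fun j _ => ?_
  rw [map_smul, smul_eq_mul]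
  rfl

theorem pd_comm {f : E3 → ℝ} {x : E3} (hf : ContDiffAt ℝ 2 f x) (i j : Fin 3) :
    pd j (pd i f) x = pd i (pd j f) x := by
  have hs : IsSymmSndFDerivAt ℝ f x := hf.isSymmSndFDerivAt (by simp)
  have hd : DifferentiableAt ℝ (fderiv ℝ f) x :=
    (hf.fderiv_right (m := 1) (by norm_num)).differentiableAt (by norm_num)
  have key : ∀ k l : Fin 3, pd l (pd k f) x =
      fderiv ℝ (fderiv ℝ f) x (EuclideanSpace.single l 1) (EuclideanSpace.single k 1) := by
    intro k l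
    unfold pd
    rw [fderiv_clm_apply hd (differentiableAt_const _)]
    simp
  rw [key, key, hs]

end Brid

open Brid in
theorem brid_thm (hc : KCOEF) (hj : KJET) (hs : KSMO) : BRID where
  coef := by
    intro ε δ κ g h r he he1 hd hk hr hg
    obtain ⟨c, L, hc0, C⟩ := hc ε δ κ g h r he he1 hd hk hg
    have hL : L ≤ max L c := le_max_left L c
    refine ⟨c, max L c, hc0, le_max_right L c, hr, C.smoothA, C.smoothB, C.A0, C.B0, C.mono,
      fun x ξ η => (C.lipA x ξ η).trans ?_, fun x ξ η => (C.lipB x ξ η).trans ?_,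
      fun x y ξ => (C.lipX x y ξ).trans ?_, C.supp⟩
    · gcongr
    · gcongr
    · gcongr
  op := by
    intro ε δ κ g h r he he1 hd hk hg x ξ M
    obtain ⟨s1, -, -, -, -⟩ := hs ε δ κ g h r he he1 hd hk hg
    have h1 : DifferentiableAt ℝ (fun y => cA ε δ κ g y ξ) x := by
      have : ContDiff ℝ ∞ (fun y : E3 => cA ε δ κ g y ξ) :=
        s1.comp (contDiff_id.prodMk contDiff_const)
      exact (this.differentiable (by simp)) x
    have h2 : DifferentiableAt ℝ (cA ε δ κ g x) ξ := by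
      have : ContDiff ℝ ∞ (fun η : E3 => cA ε δ κ g x η) :=
        s1.comp (contDiff_const.prodMk contDiff_id)
      exact (this.differentiable (by simp)) ξ
    rw [← hj ε δ κ g h r he he1 hd hk hg x ξ (mt M)]
    unfold opA
    congr 1
    · refine Finset.sum_congr rfl fun i _ => ?_
      rw [← fderiv_comp_apply h1]
      rfl
    · refine Finset.sum_congr rfl fun i _ => ?_
      rw [← fderiv_comp_apply h2, fderiv_sum]
      rfl
  jet := by
    intro f x hf
    refine ⟨rfl, ?_⟩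
    ext i j
    exact pd_comm hf i j

end Pool.Agent.PFlow.PB


end

section

/-!
# Block P, module ENER: the uniform `L²` bound
-/

open MeasureTheory Filter Topology Set
open scoped ContDiff RealInnerProductSpace

namespace Pool.Agent.PFlow.PB

open Pool.Agent.PenroseSph Pool.Agent.PFlow

namespace EnerAux

variable {A : E3 → E3 → E3} {B : E3 → E3 → ℝ} {c L r ρ T t₀ C : ℝ} {Θ θ u : E3 → ℝ} {G : E3 → E3}

lemma bdA (hco : PCoef A B c L ρ) (x ξ : E3) : ‖A x ξ‖ ≤ L * ‖ξ‖ := by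
  have := hco.lipA x ξ 0
  rwa [hco.A_zero, sub_zero, sub_zero] at this

lemma bdB (hco : PCoef A B c L ρ) (x ξ : E3) : |B x ξ| ≤ L * ‖ξ‖ := by
  have := hco.lipB x ξ 0
  rwa [hco.B_zero, sub_zero, sub_zero] at this

lemma measA (hco : PCoef A B c L ρ) (hG : AEStronglyMeasurable G volume) :
    AEStronglyMeasurable (fun x => A x (G x)) volume := by
  have hpair : AEStronglyMeasurable (fun x => (x, G x)) volume :=
    aestronglyMeasurable_id.prodMk hG
  exact hco.smoothA.continuous.comp_aestronglyMeasurable hpair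

lemma measB (hco : PCoef A B c L ρ) (hG : AEStronglyMeasurable G volume) :
    AEStronglyMeasurable (fun x => B x (G x)) volume := by
  have hpair : AEStronglyMeasurable (fun x => (x, G x)) volume :=
    aestronglyMeasurable_id.prodMk hG
  exact hco.smoothB.continuous.comp_aestronglyMeasurable hpair

lemma intA (hco : PCoef A B c L ρ) (hG : MemLp G 2) : Integrable (fun x => ⟪A x (G x), G x⟫) := by
  have hG2 : Integrable (fun x => ‖G x‖ ^ 2) := hG.norm.integrable_sq
  refine (hG2.const_mul L).mono' ((measA hco hG.1).inner hG.1) (Eventually.of_forall fun x => ?_)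
  calc ‖⟪A x (G x), G x⟫‖ ≤ ‖A x (G x)‖ * ‖G x‖ := norm_inner_le_norm _ _
    _ ≤ (L * ‖G x‖) * ‖G x‖ := mul_le_mul_of_nonneg_right (bdA hco _ _) (norm_nonneg _)
    _ = L * ‖G x‖ ^ 2 := by ring

lemma intB (hco : PCoef A B c L ρ) (hG : MemLp G 2) (hu : MemLp u 2) :
    Integrable (fun x => B x (G x) * u x) := by
  have hG2 : Integrable (fun x => ‖G x‖ ^ 2) := hG.norm.integrable_sq
  have hu2 : Integrable (fun x => u x ^ 2) := hu.integrable_sq
  have hL : 0 ≤ L := hco.c_pos.le.trans hco.c_le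
  refine ((hG2.add hu2).const_mul L).mono' ((measB hco hG.1).mul hu.1)
    (Eventually.of_forall fun x => ?_)
  show ‖B x (G x) * u x‖ ≤ L * (‖G x‖ ^ 2 + u x ^ 2)
  rw [norm_mul, Real.norm_eq_abs, Real.norm_eq_abs]
  calc |B x (G x)| * |u x| ≤ (L * ‖G x‖) * |u x| :=
        mul_le_mul_of_nonneg_right (bdB hco _ _) (abs_nonneg _)
    _ = L * (‖G x‖ * |u x|) := by ring
    _ ≤ L * (‖G x‖ ^ 2 + u x ^ 2) := by
        apply mul_le_mul_of_nonneg_left _ hL
        nlinarith [sq_nonneg (‖G x‖ - |u x|), sq_abs (u x), sq_nonneg (‖G x‖), sq_nonneg (u x)]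

lemma intθ (hp : Pen Θ θ T t₀ r) {S : Set E3} (hSm : MeasurableSet S) (hSf : volume S ≠ ⊤)
    (hS : ∀ x, x ∉ S → r ≤ ‖x‖) (hum : AEStronglyMeasurable u volume)
    (hu : ∀ᵐ x, 0 ≤ u x ∧ u x ≤ 1) : Integrable (fun x => θ x * u x) := by
  have hT0 : 0 ≤ T := (hp.nonneg 0).trans ((hp.le 0).trans (hp.bdd 0))
  have hind : Integrable (S.indicator fun _ : E3 => T) :=
    (integrableOn_const hSf).integrable_indicator hSm
  refine hind.mono' (hp.contθ.aestronglyMeasurable.mul hum) ?_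
  filter_upwards [hu] with x hx
  by_cases hxS : x ∈ S
  · rw [indicator_of_mem hxS, Real.norm_of_nonneg (mul_nonneg (hp.nonneg x) hx.1)]
    calc θ x * u x ≤ T * 1 := mul_le_mul ((hp.le x).trans (hp.bdd x)) hx.2 hx.1 hT0
      _ = T := mul_one T
  · rw [indicator_of_notMem hxS, hp.outθ x (hS x hxS)]; simp

lemma intΘ (hp : Pen Θ θ T t₀ r) (hu : MemLp u 2) : Integrable (fun x => Θ x * u x ^ 2) := by
  have hu2 : Integrable (fun x => u x ^ 2) := hu.integrable_sq
  refine (hu2.const_mul T).mono' (hp.contΘ.aestronglyMeasurable.mul hu2.1)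
    (Eventually.of_forall fun x => ?_)
  have h0 : 0 ≤ Θ x := (hp.nonneg x).trans (hp.le x)
  rw [Real.norm_of_nonneg (mul_nonneg h0 (sq_nonneg _))]
  exact mul_le_mul_of_nonneg_right (hp.bdd x) (sq_nonneg _)

/-- the pointwise bound of the right side -/
lemma pt1 (hp : Pen Θ θ T t₀ r) (hco : PCoef A B c L ρ) {S : Set E3}
    (hS : ∀ x, x ∉ S → r ≤ ‖x‖) (hS2 : ∀ x, x ∉ S → ρ ≤ ‖x‖)
    (hC : ∀ x ξ : E3, 0 ≤ ⟪A x ξ, ξ⟫ ∧ |B x ξ| ≤ ⟪A x ξ, ξ⟫ + C) (x : E3)
    (hx : 0 ≤ u x ∧ u x ≤ 1) :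
    B x (G x) * u x + θ x * u x ≤ ⟪A x (G x), G x⟫ + S.indicator (fun _ : E3 => C + T) x := by
  have hT0 : 0 ≤ T := (hp.nonneg 0).trans ((hp.le 0).trans (hp.bdd 0))
  obtain ⟨h0, hbd⟩ := hC x (G x)
  by_cases hxS : x ∈ S
  · rw [indicator_of_mem hxS]
    have e1 : B x (G x) * u x ≤ ⟪A x (G x), G x⟫ + C := by
      calc B x (G x) * u x ≤ |B x (G x)| * u x :=
            mul_le_mul_of_nonneg_right (le_abs_self _) hx.1
        _ ≤ |B x (G x)| * 1 := mul_le_mul_of_nonneg_left hx.2 (abs_nonneg _)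
        _ ≤ _ := by rw [mul_one]; exact hbd
    have e2 : θ x * u x ≤ T := by
      calc θ x * u x ≤ T * 1 := mul_le_mul ((hp.le x).trans (hp.bdd x)) hx.2 hx.1 hT0
        _ = T := mul_one T
    linarith
  · rw [indicator_of_notMem hxS, hp.outθ x (hS x hxS), hco.suppB x (G x) (hS2 x hxS)]
    simpa using h0

lemma pt2 (hp : Pen Θ θ T t₀ r) {S : Set E3} (hS : ∀ x, x ∉ S → r ≤ ‖x‖) (x : E3)
    (hx : 0 ≤ u x ∧ u x ≤ 1) :
    u x ^ 2 ≤ S.indicator (fun _ : E3 => (1 : ℝ)) x + t₀⁻¹ * (Θ x * u x ^ 2) := by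
  by_cases hxS : x ∈ S
  · rw [indicator_of_mem hxS]
    have e1 : u x ^ 2 ≤ 1 := pow_le_one₀ hx.1 hx.2
    have h0 : 0 ≤ Θ x := (hp.nonneg x).trans (hp.le x)
    have e2 : 0 ≤ t₀⁻¹ * (Θ x * u x ^ 2) :=
      mul_nonneg (inv_pos.2 hp.t₀_pos).le (mul_nonneg h0 (sq_nonneg _))
    linarith
  · rw [indicator_of_notMem hxS, zero_add]
    have e1 : t₀ ≤ Θ x := hp.outΘ x (hS x hxS)
    have e2 : t₀ * u x ^ 2 ≤ Θ x * u x ^ 2 := mul_le_mul_of_nonneg_right e1 (sq_nonneg _)
    calc u x ^ 2 = t₀⁻¹ * (t₀ * u x ^ 2) := by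
          rw [← mul_assoc, inv_mul_cancel₀ hp.t₀_pos.ne', one_mul]
      _ ≤ _ := mul_le_mul_of_nonneg_left e2 (inv_pos.2 hp.t₀_pos).le

/-- the estimate for abstract coefficients -/
lemma main (hp : Pen Θ θ T t₀ r) (hco : PCoef A B c L ρ) {S : Set E3} (hSm : MeasurableSet S)
    (hSf : volume S ≠ ⊤) (hS : ∀ x, x ∉ S → r ≤ ‖x‖) (hS2 : ∀ x, x ∉ S → ρ ≤ ‖x‖)
    (hC : ∀ x ξ : E3, 0 ≤ ⟪A x ξ, ξ⟫ ∧ |B x ξ| ≤ ⟪A x ξ, ξ⟫ + C)
    (hsol : WSol A B Θ θ u G) (hu : ∀ᵐ x, 0 ≤ u x ∧ u x ≤ 1) :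
    sq u ≤ volume.real S + t₀⁻¹ * (volume.real S * (C + T)) := by
  obtain ⟨hH, heq⟩ := hsol
  have key := heq u G hH
  have hind : ∀ c : ℝ, Integrable (S.indicator fun _ : E3 => c) := fun c =>
    (integrableOn_const hSf).integrable_indicator hSm
  have hint : ∀ c : ℝ, ∫ x, S.indicator (fun _ : E3 => c) x = volume.real S * c := by
    intro c
    rw [integral_indicator_const _ hSm, smul_eq_mul]
  have hu2 : Integrable (fun x => u x ^ 2) := hH.memf.integrable_sq
  have iA := intA hco hH.memG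
  have iB := intB hco hH.memG hH.memf
  have iΘ := intΘ hp hH.memf
  have iθ := intθ hp hSm hSf hS hH.memf.1 hu
  have hrhs : ∫ x, (B x (G x) - Θ x * u x + θ x) * u x
      = (∫ x, (B x (G x) * u x + θ x * u x)) - ∫ x, Θ x * u x ^ 2 := by
    have e : (fun x => (B x (G x) - Θ x * u x + θ x) * u x)
        = fun x => (B x (G x) * u x + θ x * u x) - Θ x * u x ^ 2 := by
      funext x; ring
    rw [e]
    exact integral_sub (iB.add iθ) iΘ
  have hle : (∫ x, (B x (G x) * u x + θ x * u x))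
      ≤ (∫ x, ⟪A x (G x), G x⟫) + volume.real S * (C + T) := by
    rw [← hint (C + T), ← integral_add iA (hind (C + T))]
    refine integral_mono_ae (iB.add iθ) (iA.add (hind (C + T))) ?_
    filter_upwards [hu] with x hx
    exact pt1 hp hco hS hS2 hC x hx
  have hmain : ∫ x, Θ x * u x ^ 2 ≤ volume.real S * (C + T) := by
    rw [hrhs] at key
    linarith
  have hpt : ∫ x, u x ^ 2
      ≤ ∫ x, (S.indicator (fun _ : E3 => (1 : ℝ)) x + t₀⁻¹ * (Θ x * u x ^ 2)) := by
    refine integral_mono_ae hu2 ((hind 1).add (iΘ.const_mul t₀⁻¹)) ?_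
    filter_upwards [hu] with x hx
    exact pt2 hp hS x hx
  rw [integral_add (hind 1) (iΘ.const_mul t₀⁻¹), hint 1, mul_one, integral_const_mul] at hpt
  have h3 : t₀⁻¹ * ∫ x, Θ x * u x ^ 2 ≤ t₀⁻¹ * (volume.real S * (C + T)) :=
    mul_le_mul_of_nonneg_left hmain (inv_pos.2 hp.t₀_pos).le
  unfold sq
  linarith

end EnerAux

/-- F2 (ENER). -/
theorem ener_thm (_h1 : API1) (hb : BRID) (hk : KENE) : ENER := by
  intro ε g h r Θ θ T t₀ hε hε1 hg hp
  obtain ⟨C, hC0, hC⟩ := hk ε g h r hε hε1 hg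
  have hρ0 : 0 < max r 1 := lt_of_lt_of_le one_pos (le_max_right _ _)
  have hrρ : r ≤ max r 1 := le_max_left _ _
  have hgρ : GData g h (max r 1) := ⟨hg.met, hg.ten, fun x hx => hg.flat x (hrρ.trans hx)⟩
  refine ⟨volume.real (Metric.ball (0 : E3) (max r 1))
    + t₀⁻¹ * (volume.real (Metric.ball (0 : E3) (max r 1)) * (C + T)), ?_⟩
  intro δ κ hδ hδ1 hκ hκ1 u G hsol hu
  obtain ⟨c, L, hco⟩ := hb.coef ε δ κ g h (max r 1) hε hε1 hδ hκ hρ0 hgρ
  have hS : ∀ x : E3, x ∉ Metric.ball (0 : E3) (max r 1) → max r 1 ≤ ‖x‖ := by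
    intro x hx
    rwa [Metric.mem_ball, dist_zero_right, not_lt] at hx
  exact EnerAux.main hp hco Metric.isOpen_ball.measurableSet measure_ball_lt_top.ne
    (fun x hx => hrρ.trans (hS x hx)) hS (hC δ κ hδ hδ1 hκ hκ1) hsol hu

end Pool.Agent.PFlow.PB


end

section

/-!
# Block P, module EQL: the equation of the limit
-/

open MeasureTheory Filter Topology Set
open scoped ContDiff RealInnerProductSpace

namespace Pool.Agent.PFlow.PB

open Pool.Agent.PenroseSph Pool.Agent.PFlow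

namespace EQLAux

/-! ### Affine functions of the matrix of second derivatives -/

/-- The matrix unit. -/
noncomputable def eu (i j : Fin 3) : Bil := Matrix.of fun k l => if k = i ∧ l = j then 1 else 0

theorem sum_eu (M : Bil) (k l : Fin 3) : ∑ i, ∑ j, M i j * eu i j k l = M k l := by
  rw [Finset.sum_eq_single k]
  · rw [Finset.sum_eq_single l]
    · simp [eu]
    · intro j _ hj
      simp [eu, Ne.symm hj]
    · simp
  · intro i _ hi
    refine Finset.sum_eq_zero fun j _ => ?_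
    simp [eu, Ne.symm hi]
  · simp

/-- `Φ` is an affine function of the matrix. -/
def Aff (Φ : Bil → ℝ) : Prop := ∃ L : Fin 3 → Fin 3 → ℝ, ∃ c : ℝ,
  ∀ M : Bil, Φ M = (∑ i, ∑ j, L i j * M i j) + c

theorem Aff.const (c : ℝ) : Aff fun _ => c := ⟨fun _ _ => 0, c, fun M => by simp⟩

theorem Aff.entry (i j : Fin 3) : Aff fun M => M i j :=
  ⟨fun k l => if k = i ∧ l = j then 1 else 0, 0, fun M => by
    rw [add_zero, Finset.sum_eq_single i]
    · rw [Finset.sum_eq_single j]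
      · simp
      · intro l _ hl
        simp [hl]
      · simp
    · intro k _ hk
      refine Finset.sum_eq_zero fun l _ => ?_
      simp [hk]
    · simp⟩

theorem Aff.add {Φ Ψ : Bil → ℝ} (h1 : Aff Φ) (h2 : Aff Ψ) : Aff fun M => Φ M + Ψ M := by
  obtain ⟨L, c, h1⟩ := h1
  obtain ⟨L', c', h2⟩ := h2
  refine ⟨fun i j => L i j + L' i j, c + c', fun M => ?_⟩
  show Φ M + Ψ M = _
  rw [h1, h2]
  simp only [add_mul, Finset.sum_add_distrib]
  ring

theorem Aff.mul {Φ : Bil → ℝ} (a : ℝ) (h1 : Aff Φ) : Aff fun M => a * Φ M := by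
  obtain ⟨L, c, h1⟩ := h1
  refine ⟨fun i j => a * L i j, a * c, fun M => ?_⟩
  show a * Φ M = _
  rw [h1, mul_add, Finset.mul_sum]
  congr 1
  refine Finset.sum_congr rfl fun i _ => ?_
  rw [Finset.mul_sum]
  exact Finset.sum_congr rfl fun j _ => by ring

theorem Aff.sum {ι : Type} (s : Finset ι) (Φ : ι → Bil → ℝ) (h : ∀ i ∈ s, Aff (Φ i)) :
    Aff fun M => ∑ i ∈ s, Φ i M := by
  classical
  induction s using Finset.induction_on with
  | empty => simpa using Aff.const 0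
  | insert a s ha ih =>
    have h1 := (h a (Finset.mem_insert_self a s)).add
      (ih fun i hi => h i (Finset.mem_insert_of_mem hi))
    have h2 : (fun M => ∑ i ∈ insert a s, Φ i M) = fun M => Φ a M + ∑ i ∈ s, Φ i M := by
      funext M
      rw [Finset.sum_insert ha]
    rw [h2]
    exact h1

/-- An affine function is determined by its values at `0` and at the matrix units. -/
theorem Aff.expand {Φ : Bil → ℝ} (h : Aff Φ) (M : Bil) :
    Φ M = (∑ i, ∑ j, (Φ (eu i j) - Φ 0) * M i j) + Φ 0 := by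
  obtain ⟨L, c, h⟩ := h
  have h0 : Φ 0 = c := by
    rw [h]
    simp
  have h1 : ∀ i j, Φ (eu i j) - Φ 0 = L i j := by
    intro i j
    rw [h0, h]
    have h2 : ∑ k, ∑ l, L k l * eu i j k l = L i j := by
      rw [Finset.sum_eq_single i]
      · rw [Finset.sum_eq_single j]
        · simp [eu]
        · intro l _ hl
          simp [eu, hl]
        · simp
      · intro k _ hk
        refine Finset.sum_eq_zero fun l _ => ?_
        simp [eu, hk]
      · simp
    rw [h2]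
    ring
  rw [h M]
  refine congrArg₂ (· + ·) ?_ h0.symm
  exact Finset.sum_congr rfl fun i _ => Finset.sum_congr rfl fun j _ => by rw [h1]

theorem Aff.scale {Φ : Bil → ℝ} (h : Aff Φ) (i j : Fin 3) (t : ℝ) :
    Φ (t • eu i j) - Φ 0 = t * (Φ (eu i j) - Φ 0) := by
  obtain ⟨L, c, h⟩ := h
  rw [h, h, h]
  show (∑ k, ∑ l, L k l * (t * eu i j k l)) + c - ((∑ k, ∑ l, L k l * (0 : ℝ)) + c) =
    t * ((∑ k, ∑ l, L k l * eu i j k l) + c - ((∑ k, ∑ l, L k l * (0 : ℝ)) + c))
  simp only [mul_zero, Finset.sum_const_zero]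
  have h1 : ∑ k, ∑ l, L k l * (t * eu i j k l) = t * ∑ k, ∑ l, L k l * eu i j k l := by
    rw [Finset.mul_sum]
    refine Finset.sum_congr rfl fun k _ => ?_
    rw [Finset.mul_sum]
    exact Finset.sum_congr rfl fun l _ => by ring
  rw [h1]
  ring

theorem aff_cHess (g : TensorField) (x : E3) (p : Cov) (i j : Fin 3) :
    Aff fun M => cHess g x p M i j := by
  have h1 := (Aff.entry i j).add (Aff.const (-∑ k, christoffel g k i j x * p k))
  refine h1

theorem aff_trg (g : TensorField) (x : E3) (p : Cov) : Aff fun M => trg g x (cHess g x p M) := by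
  unfold trg
  exact Aff.sum _ _ fun i _ => Aff.sum _ _ fun j _ => (aff_cHess g x p i j).mul _

theorem aff_ev (g : TensorField) (x : E3) (p v w : Cov) :
    Aff fun M => ev (cHess g x p M) v w := by
  unfold ev
  refine Aff.sum _ _ fun i _ => Aff.sum _ _ fun j _ => ?_
  have h1 := (aff_cHess g x p i j).mul (v i * w j)
  have h2 : (fun M => cHess g x p M i j * v i * w j) =
      fun M => v i * w j * cHess g x p M i j := by
    funext M
    ring
  rw [h2]
  exact h1

theorem aff_opL (ε δ κ : ℝ) (g : TensorField) (x : E3) (p : Cov) : Aff (opL ε δ κ g x p) := by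
  unfold opL
  exact (((aff_trg g x p).mul _).add ((aff_ev g x p _ _).mul _)).mul _

theorem aff_beps (ε : ℝ) (g : TensorField) (x : E3) (p : Cov) :
    Aff fun M => beps ε g x p (cHess g x p M) := by
  unfold beps bnn
  have h1 := (aff_trg g x p).add ((aff_ev g x p (nrm g x p) (nrm g x p)).mul (-(1 - ε)))
  have h2 : (fun M => trg g x (cHess g x p M) -
      (1 - ε) * ev (cHess g x p M) (nrm g x p) (nrm g x p)) =
      fun M => trg g x (cHess g x p M) +
        -(1 - ε) * ev (cHess g x p M) (nrm g x p) (nrm g x p) := by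
    funext M
    ring
  rw [h2]
  exact h1

/-! ### Measurability -/

theorem meas_inv {g : TensorField} (hg : ∀ i j, Continuous fun x => g x i j) (i j : Fin 3) :
    Measurable fun x => (g x)⁻¹ i j := by
  have hc : Continuous g := continuous_pi fun i => continuous_pi fun j => hg i j
  have h1 : (fun x => (g x)⁻¹ i j) = fun x => ((g x).det)⁻¹ * (g x).adjugate i j := by
    funext x
    rw [Matrix.inv_def, Matrix.smul_apply, smul_eq_mul, Ring.inverse_eq_inv']
  rw [h1]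
  refine (Continuous.matrix_det hc).measurable.inv.mul ?_
  exact ((Continuous.matrix_adjugate hc).matrix_elem i j).measurable

theorem meas_lsq {g : TensorField} (hg : ∀ i j, Continuous fun x => g x i j) :
    Measurable fun z : E3 × E3 => lsq g z.1 z.2 := by
  unfold lsq ev
  refine Finset.measurable_sum _ fun i _ => Finset.measurable_sum _ fun j _ => ?_
  refine (((meas_inv hg i j).comp measurable_fst).mul ?_).mul ?_
  · exact (by fun_prop : Continuous fun z : E3 × E3 => z.2 i).measurable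
  · exact (by fun_prop : Continuous fun z : E3 × E3 => z.2 j).measurable

theorem meas_regA {g : TensorField} (hg : ∀ i j, Continuous fun x => g x i j) (ε δ κ : ℝ) :
    Measurable fun z : E3 × E3 => regA ε δ κ (lsq g z.1 z.2) := by
  unfold regA
  exact (((meas_lsq hg).add_const _).pow_const _).add_const _

theorem cont_opA {A : E3 → E3 → E3} (hA : ContDiff ℝ ∞ fun z : E3 × E3 => A z.1 z.2)
    (M : Fin 3 → E3) : Continuous fun z : E3 × E3 => opA A z.1 z.2 M := by
  have hd : Differentiable ℝ fun z : E3 × E3 => A z.1 z.2 := hA.differentiable (by simp)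
  have hf : Continuous (fderiv ℝ fun z : E3 × E3 => A z.1 z.2) :=
    hA.continuous_fderiv (by simp)
  have h1 : ∀ x ξ v : E3, fderiv ℝ (fun y => A y ξ) x v =
      fderiv ℝ (fun z : E3 × E3 => A z.1 z.2) (x, ξ) (v, 0) := by
    intro x ξ v
    have h2 : HasFDerivAt (fun y : E3 => ((y, ξ) : E3 × E3))
        (ContinuousLinearMap.inl ℝ E3 E3) x := hasFDerivAt_prodMk_left x ξ
    have h3 := ((hd (x, ξ)).hasFDerivAt.comp x h2).fderiv
    have h4 : ((fun z : E3 × E3 => A z.1 z.2) ∘ fun y : E3 => ((y, ξ) : E3 × E3)) =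
        fun y => A y ξ := rfl
    rw [h4] at h3
    rw [h3]
    rfl
  have h1' : ∀ x ξ v : E3, fderiv ℝ (A x) ξ v =
      fderiv ℝ (fun z : E3 × E3 => A z.1 z.2) (x, ξ) (0, v) := by
    intro x ξ v
    have h2 : HasFDerivAt (fun y : E3 => ((x, y) : E3 × E3))
        (ContinuousLinearMap.inr ℝ E3 E3) ξ := hasFDerivAt_prodMk_right x ξ
    have h3 := ((hd (x, ξ)).hasFDerivAt.comp ξ h2).fderiv
    have h4 : ((fun z : E3 × E3 => A z.1 z.2) ∘ fun y : E3 => ((x, y) : E3 × E3)) = A x := rfl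
    rw [h4] at h3
    rw [h3]
    rfl
  have h5 : (fun z : E3 × E3 => opA A z.1 z.2 M) = fun z =>
      ∑ i, (fderiv ℝ (fun z : E3 × E3 => A z.1 z.2) z (ee i, 0)) i +
        ∑ i, (fderiv ℝ (fun z : E3 × E3 => A z.1 z.2) z (0, M i)) i := by
    funext z
    unfold opA
    simp only [h1, h1']
  rw [h5]
  refine (continuous_finsetSum _ fun i _ => ?_).add (continuous_finsetSum _ fun i _ => ?_)
  · exact (PiLp.continuous_apply 2 _ i).comp (hf.clm_apply continuous_const)
  · exact (PiLp.continuous_apply 2 _ i).comp (hf.clm_apply continuous_const)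

theorem isOpen_Ann (a b : ℝ) : IsOpen (Ann a b) :=
  (isOpen_lt continuous_const continuous_norm).inter (isOpen_lt continuous_norm continuous_const)

theorem sq_nonneg' (f : E3 → ℝ) : 0 ≤ sq f := integral_nonneg fun x => by positivity

theorem sqv_nonneg (G : E3 → E3) : 0 ≤ sqv G := integral_nonneg fun x => by positivity

end EQLAux

open EQLAux

theorem eql_thm (hb : BRID) (hn : NDIV) (hl : LIMEQ) (hs : SYMM) (hk : KLIMU) (hm : KSMO)
    (ht : KTN) : EQL := by
  intro ε a b g h Θ θ T t₀ δ κ u G M C v F N L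
  have hbpos : 0 < b := by linarith [L.a_pos, L.hab]
  have hr : (0 : ℝ) < 3 * b / 2 := by linarith
  have hD : GData g h (3 * b / 2) :=
    ⟨L.data.met, L.data.ten, fun x hx => L.data.flat x (by linarith)⟩
  have hgc : ∀ i j, Continuous fun x => g x i j := fun i j =>
    (contDiffOn_univ.1 (L.data.met.smooth i j)).continuous
  have hreg : ∀ n x ξ, 0 < regA ε (δ n) (κ n) (lsq g x ξ) := by
    intro n x ξ
    have h1 : 0 ≤ lsq g x ξ := (ht g x (L.data.met.posDef x (mem_univ x)) ξ).1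
    unfold regA
    have h2 : 0 < (lsq g x ξ + δ n ^ 2) ^ ((ε - 1) / 2) :=
      Real.rpow_pos_of_pos (by have := L.δ_pos n; positivity) _
    have := L.κ_pos n
    positivity
  obtain ⟨⟨C₁, hC₁, hbd⟩, hconv⟩ := hk ε g h _ L.eps_pos L.eps_lt hD
  -- the coefficients
  set α : ℕ → E3 → E3 → Fin 3 → Fin 3 → ℝ := fun n x ξ i j =>
    (opL ε (δ n) (κ n) g x ξ (eu i j) - opL ε (δ n) (κ n) g x ξ 0) /
      regA ε (δ n) (κ n) (lsq g x ξ) with hα
  set β : ℕ → E3 → E3 → ℝ := fun n x ξ =>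
    (opL ε (δ n) (κ n) g x ξ 0 + cB ε (δ n) g h x ξ) /
      regA ε (δ n) (κ n) (lsq g x ξ) with hβ
  set α₀ : E3 → E3 → Fin 3 → Fin 3 → ℝ := fun x ξ i j =>
    volDen g x * beps ε g x ξ (cHess g x ξ (eu i j)) -
      volDen g x * beps ε g x ξ (cHess g x ξ 0) with hα₀
  set β₀ : E3 → E3 → ℝ := fun x ξ =>
    volDen g x * beps ε g x ξ (cHess g x ξ 0) +
      volDen g x * (len g x ξ * beps ε g x ξ (h x)) with hβ₀
  set C₂ : ℝ := max C (2 * C₁) with hC₂
  have hCle : C ≤ C₂ := le_max_left _ _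
  have hC1le : 2 * C₁ ≤ C₂ := le_max_right _ _
  have hM2 : ∀ n i, MemLp (M n i) 2 := fun n i => ((L.h2 n).h2 i).memG
  have hmeasL : ∀ n (X : Bil), Measurable fun z : E3 × E3 =>
      opL ε (δ n) (κ n) g z.1 z.2 X := by
    intro n X
    have h1 := (cont_opA (hm ε (δ n) (κ n) g h _ L.eps_pos L.eps_lt (L.δ_pos n) (L.κ_pos n) hD).1
      (fun i => WithLp.toLp 2 (X i))).measurable
    have h2 : (fun z : E3 × E3 => opL ε (δ n) (κ n) g z.1 z.2 X) = fun z : E3 × E3 =>
        opA (cA ε (δ n) (κ n) g) z.1 z.2 (fun i => WithLp.toLp 2 (X i)) := by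
      funext z
      rw [hb.op ε (δ n) (κ n) g h _ L.eps_pos L.eps_lt (L.δ_pos n) (L.κ_pos n) hD]
      rfl
    rw [h2]
    exact h1
  have hmeasR : ∀ n, Measurable fun z : E3 × E3 =>
      regA ε (δ n) (κ n) (lsq g z.1 z.2) := fun n => meas_regA hgc _ _ _
  have hsq : ∀ n, sqv (G n) ≤ C := by
    intro n
    have h1 := L.bound n
    have h2 := _root_.Pool.Agent.PFlow.PB.EQLAux.sq_nonneg' (u n)
    have h3 : 0 ≤ ∑ i, sqv (M n i) := Finset.sum_nonneg fun i _ => sqv_nonneg _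
    linarith
  have hsM : ∀ n, ∑ i, sqv (M n i) ≤ C := by
    intro n
    have h1 := L.bound n
    have h2 := _root_.Pool.Agent.PFlow.PB.EQLAux.sq_nonneg' (u n)
    have h3 := sqv_nonneg (G n)
    linarith
  have key := hl (Ann a b) G M F N α β α₀ β₀ C₂ (isOpen_Ann a b) hM2
    (fun i => (L.h2v.h2 i).memG) (fun n => (L.h2 n).h1.memG) L.h2v.h1.memG
    (fun n => (hsM n).trans hCle) (fun n => (hsq n).trans hCle) L.ae L.weak ?_ ?_ ?_ ?_ ?_ ?_
  · -- conclusion
    obtain ⟨hsym, hzero⟩ := hs v F N L.h2v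
    rw [EqU, ae_restrict_iff' (isOpen_Ann a b).measurableSet]
    filter_upwards [key, hsym, hzero] with x hx hsx hzx hxU
    have hmt : mat N x = mt fun i => N i x := by
      ext i j
      exact (hsx i j).symm
    refine ⟨fun hF => ?_, fun hF => ?_⟩
    · have hF' : F x ≠ 0 := by
        intro h0
        apply hF
        funext i
        show (F x) i = 0
        rw [h0]
        rfl
      have h1 := hx hxU hF'
      have haff := ((aff_beps ε g x (F x)).mul (volDen g x)).expand (mt fun i => N i x)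
      have hvol : 0 < volDen g x :=
        Real.sqrt_pos.2 (L.data.met.posDef x (mem_univ x)).det_pos
      have h2 : volDen g x * beps ε g x (F x) (cHess g x (F x) (mt fun i => N i x)) +
          volDen g x * (len g x (F x) * beps ε g x (F x) (h x)) = 0 := by
        rw [haff, add_assoc]
        exact h1
      rw [hmt]
      have h3 : volDen g x * (beps ε g x (F x) (cHess g x (F x) (mt fun i => N i x)) +
          len g x (F x) * beps ε g x (F x) (h x)) = 0 := by
        rw [mul_add]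
        exact h2
      exact (mul_eq_zero.1 h3).resolve_left hvol.ne'
    · have hF' : F x = 0 := by
        ext i
        exact congrFun hF i
      have h1 := hzx hF'
      rw [hmt]
      ext i j
      show N i x j = 0
      rw [h1 i]
      rfl
  · -- the equation
    intro n
    obtain ⟨c, L', hc⟩ := hb.coef ε (δ n) (κ n) g h _ L.eps_pos L.eps_lt (L.δ_pos n) (L.κ_pos n)
      hr hD
    filter_upwards [hn _ _ _ _ _ _ _ _ _ hc L.pen.pen _ _ _ (L.sol n) (L.h2 n)] with x hx hxU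
    have hx1 : a ≤ ‖x‖ := hxU.1.le
    have hx2 : ‖x‖ ≤ b := hxU.2.le
    rw [L.pen.mid x hx1 hx2, L.pen.out x hx1, zero_mul, sub_zero,
      hb.op ε (δ n) (κ n) g h _ L.eps_pos L.eps_lt (L.δ_pos n) (L.κ_pos n) hD,
      (aff_opL ε (δ n) (κ n) g x (G n x)).expand] at hx
    have hR := hreg n x (G n x)
    simp only [hα, hβ]
    have h1 : ∑ i, ∑ j, (opL ε (δ n) (κ n) g x (G n x) (eu i j) -
        opL ε (δ n) (κ n) g x (G n x) 0) / regA ε (δ n) (κ n) (lsq g x (G n x)) * M n i x j =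
        (∑ i, ∑ j, (opL ε (δ n) (κ n) g x (G n x) (eu i j) -
        opL ε (δ n) (κ n) g x (G n x) 0) * M n i x j) /
          regA ε (δ n) (κ n) (lsq g x (G n x)) := by
      rw [Finset.sum_div]
      refine Finset.sum_congr rfl fun i _ => ?_
      rw [Finset.sum_div]
      exact Finset.sum_congr rfl fun j _ => by ring
    rw [h1, ← add_div, ← add_assoc]
    rw [div_eq_zero_iff]
    left
    exact hx
  · intro n i j
    exact ((hmeasL n _).sub (hmeasL n _)).div (hmeasR n)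
  · intro n
    refine ((hmeasL n _).add ?_).div (hmeasR n)
    exact (hm ε (δ n) (κ n) g h _ L.eps_pos L.eps_lt (L.δ_pos n) (L.κ_pos n)
      hD).2.1.continuous.measurable
  · -- the bound of α
    intro n x ξ i j
    have hb1 := fun X => (hbd (δ n) (κ n) (L.δ_pos n) (L.δ_le n) (L.κ_pos n) (L.κ_le n) x ξ X).1
    have h0 := hb1 0
    simp only [Matrix.zero_apply, abs_zero, Finset.sum_const_zero, add_zero] at h0
    have ht1 : ∀ t : ℝ, 0 < t → t * |α n x ξ i j| ≤ C₁ * t + 2 * C₁ * ‖ξ‖ := by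
      intro t htp
      have h1 := hb1 (t • eu i j)
      have h2 : ∑ k, ∑ l, |(t • eu i j) k l| = t := by
        rw [Finset.sum_eq_single i]
        · rw [Finset.sum_eq_single j]
          · simp [eu, abs_of_pos htp]
          · intro l _ hl
            simp [eu, hl]
          · simp
        · intro k _ hk
          refine Finset.sum_eq_zero fun l _ => ?_
          simp [eu, hk]
        · simp
      rw [h2] at h1
      have h3 := (aff_opL ε (δ n) (κ n) g x ξ).scale i j t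
      have h4 : t * α n x ξ i j = opL ε (δ n) (κ n) g x ξ (t • eu i j) /
          regA ε (δ n) (κ n) (lsq g x ξ) - opL ε (δ n) (κ n) g x ξ 0 /
          regA ε (δ n) (κ n) (lsq g x ξ) := by
        rw [← sub_div, h3]
        simp only [hα]
        ring
      have h5 : t * |α n x ξ i j| = |t * α n x ξ i j| := by
        rw [abs_mul, abs_of_pos htp]
      rw [h5, h4]
      refine (abs_sub _ _).trans ?_
      linarith
    have hle : |α n x ξ i j| ≤ C₁ := by
      by_contra hcon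
      push Not at hcon
      have h1 := ht1 ((2 * C₁ * ‖ξ‖ + 1) / (|α n x ξ i j| - C₁)) (by
        apply div_pos
        · positivity
        · linarith)
      have h2 : 0 < |α n x ξ i j| - C₁ := by linarith
      have h3 : (2 * C₁ * ‖ξ‖ + 1) / (|α n x ξ i j| - C₁) * (|α n x ξ i j| - C₁) =
          2 * C₁ * ‖ξ‖ + 1 := div_mul_cancel₀ _ h2.ne'
      nlinarith
    linarith
  · -- the bound of β
    intro n x ξ
    have hb1 := hbd (δ n) (κ n) (L.δ_pos n) (L.δ_le n) (L.κ_pos n) (L.κ_le n) x ξ 0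
    have h0 := hb1.1
    simp only [Matrix.zero_apply, abs_zero, Finset.sum_const_zero, add_zero] at h0
    simp only [hβ]
    rw [add_div]
    refine (abs_add_le _ _).trans ?_
    have h1 := hb1.2.1
    have h2 : 2 * C₁ * ‖ξ‖ ≤ C₂ * ‖ξ‖ := mul_le_mul_of_nonneg_right hC1le (norm_nonneg _)
    linarith
  · -- convergence
    intro x ξ p hξ hp
    have hξ' : (WithLp.ofLp ξ) ≠ 0 := by
      intro h0
      apply hξ
      ext i
      exact congrFun h0 i
    obtain ⟨h1, h2⟩ := hconv x δ κ p ξ L.δ_pos L.κ_pos L.δ_tend L.κ_tend hp hξ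
    refine ⟨fun i j => ?_, ?_⟩
    · have h3 := (h1 (eu i j)).sub (h1 0)
      refine h3.congr fun n => ?_
      simp only [hα, sub_div]
    · have h3 := (h1 0).add h2
      refine h3.congr fun n => ?_
      simp only [hβ, add_div]

end Pool.Agent.PFlow.PB


end

section

/-!
# Block P, module FINP: the main theorem of block P from its parts
-/

open MeasureTheory Filter Topology Set
open scoped ContDiff RealInnerProductSpace

namespace Pool.Agent.PFlow.PB

open Pool.Agent.PenroseSph Pool.Agent.PFlow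

/-- Module FINP. -/
theorem finp_thm : FINP := by
  intro hE hF hS hN hH hL ε a b η g h hε hε1 ha hab hη hg hh hflat
  have hd : GData g h (b / 2) := ⟨hg, hh, hflat⟩
  obtain ⟨Θ, θ, T, t₀, δ, κ, u, G, M, C, v, F, N, lim, hin, hout⟩ :=
    hL ε a b η g h hε hε1 ha hab hη hd
  obtain ⟨hs1, hs2⟩ := hS _ _ _ _ _ _ _ _ _ _ _ _ _ _ _ _ _ _ lim
  have hopen : IsOpen (Ann a b) :=
    (isOpen_lt continuous_const continuous_norm).inter
      (isOpen_lt continuous_norm continuous_const)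
  have htend : ∀ x, Tendsto (fun n => u n x) atTop (𝓝 (v x)) := fun x =>
    (lim.unif {x} isCompact_singleton).tendsto_at (mem_singleton x)
  refine ⟨v, fun x => F x, mat N, ?_⟩
  exact
    { cont := lim.contv
      nonneg := fun x => ge_of_tendsto' (htend x) fun n => lim.nonneg n x
      le_one := fun x => le_of_tendsto' (htend x) fun n => lim.le_one n x
      inner := hin
      outer := hout
      h2 := hH v F N _ hopen lim.h2v lim.contv
      eq := hE _ _ _ _ _ _ _ _ _ _ _ _ _ _ _ _ _ _ lim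
      flux := hF _ _ _ _ _ _ _ _ _ _ _ _ _ _ _ _ _ _ lim
      sub := fun K hK hKs f hf ho hfr => hs1 K hK (fun x hx => (hKs hx).2) f hf ho hfr
      super := fun K hK hKs f hf ho hfr => hs2 K hK (fun x hx => (hKs hx).1) f hf ho hfr
      noIsland := hN ε a b g h v hε hε1 ha hab hd lim.contv hs1 hs2 }

end Pool.Agent.PFlow.PB


end

section

/-!
# Block P: the flux identity of the limit (module FLUXL)
-/

open MeasureTheory Filter Topology Set
open scoped ContDiff RealInnerProductSpace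

namespace Pool.Agent.PFlow.PB

open Pool.Agent.PenroseSph Pool.Agent.PFlow

namespace FluxL

lemma rpow_le {ε t : ℝ} (h0 : 0 < ε) (h1 : ε < 1) (ht : 0 ≤ t) : t ^ ε ≤ 1 + t := by
  rcases le_total t 1 with h | h
  · exact (Real.rpow_le_one ht h h0.le).trans (by linarith)
  · calc t ^ ε ≤ t ^ (1 : ℝ) := Real.rpow_le_rpow_of_exponent_le h h1.le
      _ = t := Real.rpow_one t
      _ ≤ 1 + t := by linarith

lemma inner_cA0 (ht : KTN) {g : TensorField} {x : E3} (hx : (g x).PosDef) (ε : ℝ) (ξ : E3)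
    (χ : E3 → ℝ) : ⟪cA0 ε g x ξ, gr χ x⟫ =
      len g x ξ ^ (ε - 1) * ev (g x)⁻¹ ξ (grad χ x) * volDen g x := by
  obtain ⟨-, -, -, h1, -⟩ := ht g x hx ξ
  rw [← h1 (grad χ x), PiLp.inner_apply]
  simp only [cA0, gr, grad, RCLike.inner_apply, conj_trivial]
  rw [Finset.mul_sum, Finset.sum_mul]
  refine Finset.sum_congr rfl fun i _ => ?_
  ring

end FluxL

/-- F7 (FLUXL): the flux identity of the limit. -/
theorem fluxl_thm (_h1 : API1) (h2 : API2) (hl : LIMW) (hk : KLIM) (hm : KSMO) (ht : KTN) :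
    FLUXL := by
  intro ε a b g h Θ θ T t₀ δ κ u G M C v F N L χ hχ hχc hχs
  obtain ⟨⟨C₁, hC₁, hgr⟩, hconv⟩ := hk ε g h (b / 2) L.eps_pos L.eps_lt L.data
  have hsm := fun n => hm ε (δ n) (κ n) g h (b / 2) L.eps_pos L.eps_lt (L.δ_pos n) (L.κ_pos n)
    L.data
  have hH1 : H1 χ (gr χ) := h2.ofC1 χ hχ hχc
  have key := hl G F (fun n => cA ε (δ n) (κ n) g) (fun n => cB ε (δ n) g h) (cA0 ε g)
    (cB0 ε g h) (2 * C₁) (fun n => (L.h2 n).h1.memG) L.h2v.h1.memG L.strong L.ae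
    (fun n => (hsm n).1.continuous.measurable) (fun n => (hsm n).2.1.continuous.measurable)
    ?_ ?_ ?_ χ hχ hχc ?_
  · have e1 : ∀ x, ⟪cA0 ε g x (F x), gr χ x⟫ =
        len g x (F x) ^ (ε - 1) * ev (g x)⁻¹ (F x) (grad χ x) * volDen g x := fun x =>
      FluxL.inner_cA0 ht (L.data.met.posDef x (Set.mem_univ x)) ε (F x) χ
    have e2 : ∀ x, cB0 ε g h x (F x) * χ x =
        len g x (F x) ^ ε * beps ε g x (F x) (h x) * χ x * volDen g x := fun x => by
      unfold cB0
      ring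
    simp only [e1, e2] at key
    exact key
  · intro n x ξ
    have h3 := (hgr (δ n) (κ n) (L.δ_pos n) (L.δ_le n) (L.κ_pos n) (L.κ_le n) x ξ).1
    refine h3.trans ?_
    have h4 := FluxL.rpow_le L.eps_pos L.eps_lt (norm_nonneg ξ)
    have h5 : κ n * ‖ξ‖ ≤ 1 * ‖ξ‖ := mul_le_mul_of_nonneg_right (L.κ_le n) (norm_nonneg ξ)
    calc C₁ * (‖ξ‖ ^ ε + κ n * ‖ξ‖) ≤ C₁ * ((1 + ‖ξ‖) + (1 + ‖ξ‖)) := by
          apply mul_le_mul_of_nonneg_left _ hC₁
          linarith
      _ = _ := by ring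
  · intro n x ξ
    have h3 := (hgr (δ n) (κ n) (L.δ_pos n) (L.δ_le n) (L.κ_pos n) (L.κ_le n) x ξ).2
    refine h3.trans ?_
    have h4 := FluxL.rpow_le L.eps_pos L.eps_lt (norm_nonneg ξ)
    calc C₁ * ‖ξ‖ ^ ε ≤ C₁ * ((1 + ‖ξ‖) + (1 + ‖ξ‖)) := by
          apply mul_le_mul_of_nonneg_left _ hC₁
          linarith [norm_nonneg ξ]
      _ = _ := by ring
  · intro x ξ p hp
    exact hconv x δ κ p ξ L.δ_pos L.κ_pos L.δ_tend L.κ_tend hp
  · intro n
    rw [(L.sol n).2 χ (gr χ) hH1]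
    refine integral_congr_ae (Filter.Eventually.of_forall fun x => ?_)
    show (cB ε (δ n) g h x (G n x) - Θ x * u n x + θ x) * χ x = cB ε (δ n) g h x (G n x) * χ x
    by_cases hx : x ∈ tsupport χ
    · obtain ⟨h6, h7⟩ := hχs hx
      rw [L.pen.mid x h6.le h7.le, L.pen.out x h6.le]
      ring
    · rw [image_eq_zero_of_notMem_tsupport hx, mul_zero, mul_zero]

end Pool.Agent.PFlow.PB


end

section

/-!
# Block P, module HTWOON: the class `H2On`
-/

open MeasureTheory Filter Topology Set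
open scoped ContDiff RealInnerProductSpace

namespace Pool.Agent.PFlow.PB

open Pool.Agent.PenroseSph Pool.Agent.PFlow

/-- Local convergence of the components. -/
theorem htwoon_aux (A : ℕ → E3 → E3) (G : E3 → E3) (hA : ∀ n, MemLp (A n) 2) (hG : MemLp G 2)
    (h : Tendsto (fun n => sqv (fun x => A n x - G x)) atTop (𝓝 0)) (K : Set E3) (i : Fin 3) :
    Tendsto (fun n => ∫ x in K, (A n x i - G x i) ^ 2) atTop (𝓝 0) := by
  refine squeeze_zero (fun n => integral_nonneg fun x => sq_nonneg _) (fun n => ?_) h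
  have hm : MemLp (fun x => A n x - G x) 2 := (hA n).sub hG
  have h1 := sq_comp_le (fun x => A n x - G x) hm i
  refine le_trans ?_ h1
  have hi : Integrable (fun x => (A n x - G x) i ^ 2) := by
    have := int_sq _ (memLp_comp _ hm i)
    simpa [Real.norm_eq_abs, sq_abs] using this
  have h2 := setIntegral_le_integral (s := K) hi (Eventually.of_forall fun x => sq_nonneg _)
  exact h2

/-- Module HTWOON. -/
theorem htwoon_thm (hd : DENS) : HTWOON := by
  intro v F N U _ h2 hc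
  obtain ⟨φ, hφ, _, h1, h2', hunif⟩ := hd v F N h2
  have hpd : ∀ n i, ContDiff ℝ 1 (pd i (φ n)) := by
    intro n i
    have : ContDiff ℝ ∞ (fderiv ℝ (φ n)) := (hφ n).smooth.fderiv_right (by simp)
    have h3 : ContDiff ℝ ∞ (pd i (φ n)) := this.clm_apply contDiff_const
    exact h3.of_le (by exact_mod_cast le_top)
  have hpc : ∀ n i, HasCompactSupport (pd i (φ n)) := by
    intro n i
    refine ((hφ n).cpt.fderiv (𝕜 := ℝ)).mono ?_
    intro x hx
    rw [Function.mem_support] at hx ⊢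
    intro h0
    apply hx
    unfold pd
    rw [h0]; simp
  refine ⟨hc.continuousOn, fun K _ _ i => ?_, fun K _ _ i j => ?_, fun K hK _ => ?_⟩
  · exact (memLp_comp F h2.h1.memG i).restrict K
  · exact (memLp_comp (N j) (h2.h2 j).memG i).restrict K
  · refine ⟨φ, fun n => (hφ n).smooth, hunif hc K hK, fun i => ?_, fun i j => ?_⟩
    · exact htwoon_aux (fun n => gr (φ n)) F (fun n => gr_memLp _ (hφ n).one (hφ n).cpt) h2.h1.memG
        h1 K i
    · exact htwoon_aux (fun n => hs (φ n) j) (N j)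
        (fun n => gr_memLp _ (hpd n j) (hpc n j)) (h2.h2 j).memG (h2' j) K i

end Pool.Agent.PFlow.PB


end

section

/-!
# Block P, module LIMX: existence of the sequence of regularised solutions and of its limit
-/

open MeasureTheory Filter Topology Set
open scoped ContDiff RealInnerProductSpace ENNReal

namespace Pool.Agent.PFlow.PB

open Pool.Agent.PenroseSph Pool.Agent.PFlow

namespace LimXm

theorem cont_of_holder {w : E3 → ℝ} {A : ℝ}
    (h : ∀ x y, ‖x - y‖ ≤ 1 → |w x - w y| ≤ A * ‖x - y‖ ^ (1 / 4 : ℝ)) : Continuous w := by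
  rw [continuous_iff_continuousAt]
  intro x
  unfold ContinuousAt
  rw [tendsto_iff_norm_sub_tendsto_zero]
  have h1 : Tendsto (fun y => A * ‖y - x‖ ^ (1 / 4 : ℝ)) (𝓝 x) (𝓝 0) := by
    have h2 : Tendsto (fun y => ‖y - x‖) (𝓝 x) (𝓝 0) := by
      have := (continuous_id.sub continuous_const).norm.tendsto x (f := fun y : E3 => ‖y - x‖)
      simpa using this
    have h3 := (h2.rpow_const (p := (1 / 4 : ℝ)) (Or.inr (by norm_num))).const_mul A
    rw [Real.zero_rpow (by norm_num), mul_zero] at h3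
    exact h3
  have h4 : ∀ᶠ y in 𝓝 x, ‖y - x‖ ≤ 1 := by
    filter_upwards [Metric.closedBall_mem_nhds x one_pos] with y hy
    rwa [mem_closedBall_iff_norm] at hy
  refine squeeze_zero' (Filter.Eventually.of_forall fun y => norm_nonneg _) ?_ h1
  filter_upwards [h4] with y hy
  rw [Real.norm_eq_abs]
  exact h y x hy

theorem all_of_ae {p : E3 → Prop} (hc : IsClosed {x | p x}) (h : ∀ᵐ x, p x) : ∀ x, p x := by
  have hd : Dense {x | p x} := Measure.dense_of_ae h
  have he : {x | p x} = univ := by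
    rw [← hc.closure_eq]
    exact hd.closure_eq
  intro x
  have : x ∈ {x | p x} := by
    rw [he]
    exact mem_univ x
  exact this

theorem wsol_congr (h1 : API1) {A : E3 → E3 → E3} {B : E3 → E3 → ℝ} {Θ θ u w : E3 → ℝ} {G : E3 → E3}
    (h : WSol A B Θ θ u G) (hw : w =ᵐ[volume] u) : WSol A B Θ θ w G := by
  refine ⟨h1.congr _ _ _ _ h.1 hw.symm (Filter.EventuallyEq.refl _ _), ?_⟩
  intro φ Φ hφ
  rw [h.2 φ Φ hφ]
  apply integral_congr_ae
  filter_upwards [hw] with x hx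
  rw [hx]

theorem h2_congr (h1 : API1) {u w : E3 → ℝ} {G : E3 → E3} {M : Fin 3 → E3 → E3}
    (h : H2 u G M) (hw : w =ᵐ[volume] u) : H2 w G M :=
  ⟨h1.congr _ _ _ _ h.h1 hw.symm (Filter.EventuallyEq.refl _ _), h.h2⟩

end LimXm

open LimXm in
/-- F11 (LIMX): existence of the sequence and its limit. -/
theorem limx_thm (h1 : API1) (hb : BRID) (hc : CLOSE) (he : EXI) (h2 : HTWO) (hco : CONT)
    (hu : UNIF) (hp : CPT) : LIMX := by
  intro ε a b η g h hε hε1 ha hab hη hd
  obtain ⟨Θ, θ, T, t₀, hpen, hclose⟩ := hc ε a b η g h hε hε1 ha hab hη hd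
  have hbpos : 0 < b := by linarith
  have hr : 0 < 3 * b / 2 := by linarith
  have hd2 : GData g h (3 * b / 2) := ⟨hd.met, hd.ten, fun x hx => hd.flat x (by linarith)⟩
  -- the solutions for fixed parameters
  have hex : ∀ δ : ℝ, 0 < δ → ∃ (u : E3 → ℝ) (G : E3 → E3) (M : Fin 3 → E3 → E3),
      WSol (cA ε δ δ g) (cB ε δ g h) Θ θ u G ∧ H2 u G M ∧ Continuous u ∧
      ∀ x, 0 ≤ u x ∧ u x ≤ 1 := by
    intro δ hδ
    obtain ⟨c, L, hcoef⟩ := hb.coef ε δ δ g h (3 * b / 2) hε hε1 hδ hδ hr hd2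
    obtain ⟨u, G, hsol, h01⟩ := he _ _ c L _ Θ θ T t₀ hcoef hpen.pen
    obtain ⟨M, hM⟩ := h2 _ _ c L _ Θ θ T t₀ hcoef hpen.pen u G hsol
    obtain ⟨C, _, hC⟩ := hco
    obtain ⟨w, hw1, _, hw3⟩ := hC u G M hM
    have hwc : Continuous w := cont_of_holder hw3
    refine ⟨w, G, M, wsol_congr h1 hsol hw1, h2_congr h1 hM hw1, hwc, ?_⟩
    apply all_of_ae
    · exact (isClosed_le continuous_const hwc).inter (isClosed_le hwc continuous_const)
    · filter_upwards [hw1, h01] with x hx1 hx2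
      rw [hx1]
      exact hx2
  have hδpos : ∀ n : ℕ, (0 : ℝ) < 1 / ((n : ℝ) + 1) := fun n => by positivity
  have hδle : ∀ n : ℕ, 1 / ((n : ℝ) + 1) ≤ (1 : ℝ) := by
    intro n
    rw [div_le_one (by positivity)]
    have : (0 : ℝ) ≤ n := Nat.cast_nonneg n
    linarith
  have hδt : Tendsto (fun n : ℕ => 1 / ((n : ℝ) + 1)) atTop (𝓝 0) :=
    tendsto_one_div_add_atTop_nhds_zero_nat
  choose u G M hsol hH2 hcont h01 using fun n : ℕ => hex (1 / ((n : ℝ) + 1)) (hδpos n)
  obtain ⟨C, hC⟩ := hu ε g h (3 * b / 2) Θ θ T t₀ hε hε1 hr hd2 hpen.pen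
  have hbound : ∀ n, sq (u n) + sqv (G n) + ∑ i, sqv (M n i) ≤ C := fun n =>
    hC _ _ (hδpos n) (hδle n) (hδpos n) (hδle n) (u n) (G n) (M n) (hsol n) (hH2 n)
      (Filter.Eventually.of_forall (h01 n))
  obtain ⟨s, v, F, N, hs, hv, hvc, hunif, hstrong, hae, hweak⟩ := hp u G M C hH2 hcont hbound
  have hpt : ∀ x, Tendsto (fun n => u (s n) x) atTop (𝓝 (v x)) := fun x =>
    (hunif {x} isCompact_singleton).tendsto_at (mem_singleton x)
  refine ⟨Θ, θ, T, t₀, fun n => 1 / ((s n : ℝ) + 1), fun n => 1 / ((s n : ℝ) + 1),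
    fun n => u (s n), fun n => G (s n), fun n => M (s n), C, v, F, N, ?_, ?_, ?_⟩
  · exact
      { eps_pos := hε
        eps_lt := hε1
        a_pos := ha
        hab := hab
        data := hd
        pen := hpen
        δ_pos := fun n => hδpos (s n)
        δ_le := fun n => hδle (s n)
        δ_tend := hδt.comp hs.tendsto_atTop
        κ_pos := fun n => hδpos (s n)
        κ_le := fun n => hδle (s n)
        κ_tend := hδt.comp hs.tendsto_atTop
        sol := fun n => hsol (s n)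
        h2 := fun n => hH2 (s n)
        cont := fun n => hcont (s n)
        nonneg := fun n x => (h01 (s n) x).1
        le_one := fun n x => (h01 (s n) x).2
        bound := fun n => hbound (s n)
        h2v := hv
        contv := hvc
        unif := hunif
        strong := hstrong
        ae := hae
        weak := hweak }
  · intro x hx
    refine ge_of_tendsto' (hpt x) fun n => ?_
    exact (hclose _ _ (hδpos (s n)) (hδle (s n)) (hδpos (s n)) (hδle (s n)) (u (s n)) (G (s n))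
      (hsol (s n)) (hcont (s n)) (h01 (s n))).1 x hx
  · intro x hx
    refine le_of_tendsto' (hpt x) fun n => ?_
    exact (hclose _ _ (hδpos (s n)) (hδle (s n)) (hδpos (s n)) (hδle (s n)) (u (s n)) (G (s n))
      (hsol (s n)) (hcont (s n)) (h01 (s n))).2 x hx

end Pool.Agent.PFlow.PB


end

section

/-!
NOISL: no islands, from the comparison principle.
-/

open MeasureTheory Filter Topology Set
open scoped ContDiff

namespace Pool.Agent.PFlow.PB

open Pool.Agent.PenroseSph Pool.Agent.PFlow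

namespace NoIslAux

theorem pd_const_add (c : ℝ) (F : E3 → ℝ) (i : Fin 3) : pd i (fun y => c + F y) = pd i F := by
  funext x
  unfold pd
  rw [fderiv_const_add]

theorem opN_const_add (ε : ℝ) (g h : TensorField) (c : ℝ) (F : E3 → ℝ) (x : E3) :
    grad (fun y => c + F y) x = grad F x ∧
      opN ε g h (fun y => c + F y) x = opN ε g h F x := by
  have h1 : grad (fun y => c + F y) x = grad F x := by
    funext i
    rw [grad, grad, pd_const_add]
  have h2 : hess2 (fun y => c + F y) x = hess2 F x := by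
    ext i j
    rw [hess2, hess2, Matrix.of_apply, Matrix.of_apply, pd_const_add]
  exact ⟨h1, by rw [opN, opN, h1, h2]⟩

theorem contDiff_e (τ α : ℝ) : ContDiff ℝ 2 (fun y : E3 => τ * Real.exp (α * y 0)) := by
  have h1 : ContDiff ℝ 2 (fun y : E3 => y 0) :=
    (EuclideanSpace.proj (0 : Fin 3) : E3 →L[ℝ] ℝ).contDiff
  exact contDiff_const.mul (contDiff_const.mul h1).exp

theorem limit {m v P : ℝ} (hP : 0 ≤ P) (h : ∀ τ > 0, m ≤ v + τ * P) : m ≤ v := by
  refine le_of_forall_pos_le_add fun η hη => ?_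
  have h1 := h (η / (P + 1)) (by positivity)
  have h2 : η / (P + 1) * P ≤ η := by
    rw [div_mul_eq_mul_div, div_le_iff₀ (by positivity)]
    nlinarith
  linarith

end NoIslAux

open NoIslAux in
theorem noisl_thm (hk : KEXP) : NOISL := by
  intro ε a b g h v hε hε1 ha hab hg hv hsub hsup D hD hDc hDs x hx
  obtain ⟨α, hα, hexp⟩ := hk ε g h (b / 2) hε hε1 hg
  -- the frontier
  have hne : (frontier D).Nonempty := by
    rw [nonempty_frontier_iff]
    refine ⟨⟨x, hx⟩, ?_⟩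
    intro h1
    rw [h1, closure_univ] at hDc
    exact noncompact_univ E3 hDc
  have hfc : IsCompact (frontier D) :=
    hDc.of_isClosed_subset isClosed_frontier frontier_subset_closure
  have hff : frontier (closure D) ⊆ frontier D := frontier_closure_subset
  have hxK : x ∈ closure D := subset_closure hx
  have hKb : closure D ⊆ {x : E3 | ‖x‖ ≤ b} := fun y hy => (hDs hy).2.le
  have hKa : closure D ⊆ {x : E3 | a ≤ ‖x‖} := fun y hy => (hDs hy).1.le
  have hcont : Continuous fun y : E3 => Real.exp (α * y 0) := by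
    have h1 : Continuous fun y : E3 => y 0 :=
      (EuclideanSpace.proj (0 : Fin 3) : E3 →L[ℝ] ℝ).continuous
    exact (continuous_const.mul h1).rexp
  obtain ⟨E, hE⟩ := hDc.exists_bound_of_continuousOn hcont.continuousOn
  have hE' : ∀ y ∈ closure D, Real.exp (α * y 0) ≤ E := fun y hy =>
    (le_abs_self _).trans (hE y hy)
  have hP : 0 ≤ E - Real.exp (α * x 0) := sub_nonneg.mpr (hE' x hxK)
  constructor
  · obtain ⟨y, hy, hy'⟩ := hfc.exists_isMaxOn hne hv.continuousOn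
    refine ⟨y, hy, limit hP fun τ hτ => ?_⟩
    have h1 := hsup (closure D) hDc hKa
      (fun z => (v y + τ * E) + (-τ) * Real.exp (α * z 0))
      (fun z _ => (contDiff_const.add (contDiff_e (-τ) α)).contDiffAt)
      (fun z _ => by
        obtain ⟨h2, h3, -⟩ := hexp z (-τ) (neg_ne_zero.mpr hτ.ne')
        obtain ⟨h4, h5⟩ := opN_const_add ε g h (v y + τ * E)
          (fun z => (-τ) * Real.exp (α * z 0)) z
        refine ⟨by rw [h4]; exact h2, ?_⟩
        rw [h5]
        by_contra h6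
        push Not at h6
        nlinarith)
      (fun z hz => by
        have h2 : v z ≤ v y := hy' (hff hz)
        have h3 := hE' z (frontier_subset_closure (hff hz))
        nlinarith) x hxK
    simp only at h1
    linarith
  · obtain ⟨y, hy, hy'⟩ := hfc.exists_isMinOn hne hv.continuousOn
    refine ⟨y, hy, limit hP fun τ hτ => ?_⟩
    have h1 := hsub (closure D) hDc hKb
      (fun z => (v y - τ * E) + τ * Real.exp (α * z 0))
      (fun z _ => (contDiff_const.add (contDiff_e τ α)).contDiffAt)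
      (fun z _ => by
        obtain ⟨h2, h3, -⟩ := hexp z τ hτ.ne'
        obtain ⟨h4, h5⟩ := opN_const_add ε g h (v y - τ * E)
          (fun z => τ * Real.exp (α * z 0)) z
        refine ⟨by rw [h4]; exact h2, ?_⟩
        rw [h5]
        exact (mul_pos_iff_of_pos_left hτ).mp h3)
      (fun z hz => by
        have h2 : v y ≤ v z := hy' (hff hz)
        have h3 := hE' z (frontier_subset_closure (hff hz))
        nlinarith) x hxK
    simp only at h1
    linarith

end Pool.Agent.PFlow.PB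


end

section

/-!
# SUBL: comparison for the limit
-/

open MeasureTheory Filter Topology Set
open scoped ContDiff RealInnerProductSpace

namespace Pool.Agent.PFlow.PB

open Pool.Agent.PenroseSph Pool.Agent.PFlow

namespace SUBLaux

lemma pd_add_const (f : E3 → ℝ) (d : ℝ) (i : Fin 3) : pd i (fun x => f x + d) = pd i f := by
  funext x
  simp only [pd, fderiv_add_const]

lemma gr_add_const (f : E3 → ℝ) (d : ℝ) : gr (fun x => f x + d) = gr f := by
  funext x
  simp only [gr, pd_add_const]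

lemma hs_add_const (f : E3 → ℝ) (d : ℝ) (i : Fin 3) : hs (fun x => f x + d) i = hs f i := by
  funext x
  simp only [hs, pd_add_const]

lemma gdata_mono {g h : TensorField} {r r' : ℝ} (H : GData g h r) (hr : r ≤ r') :
    GData g h r' :=
  ⟨H.met, H.ten, fun x hx => H.flat x (hr.trans hx)⟩

lemma key (hb : BRID) (hc : CCPT) {ε a b : ℝ} {g h : TensorField} {Θ θ : E3 → ℝ} {T t₀ : ℝ}
    {δ κ : ℕ → ℝ} {u : ℕ → E3 → ℝ} {G : ℕ → E3 → E3} {M : ℕ → Fin 3 → E3 → E3} {C : ℝ}
    {v : E3 → ℝ} {F : E3 → E3} {N : Fin 3 → E3 → E3}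
    (H : Lim ε a b g h Θ θ T t₀ δ κ u G M C v F N) (s : ℝ) (hs1 : s = 1 ∨ s = -1)
    (K : Set E3) (hK : IsCompact K) (f : E3 → ℝ) (hf : ∀ x ∈ K, ContDiffAt ℝ 2 f x)
    (σ δ₀ : ℝ) (hσ : 0 < σ) (hδ₀ : 0 < δ₀)
    (hop : ∀ δ κ : ℝ, 0 < δ → δ ≤ δ₀ → 0 < κ → κ ≤ δ₀ → ∀ x ∈ K,
      σ ≤ s * (opL ε δ κ g x (grad f x) (hess2 f x) + cB ε δ g h x (vec (grad f x))))
    (hpen : ∀ n, ∀ x ∈ K, s * (Θ x * u n x - θ x) ≤ 0)
    (hfr : ∀ x ∈ frontier K, s * (f x - v x) ≤ 0) : ∀ x ∈ K, s * (f x - v x) ≤ 0 := by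
  intro x hx
  refine le_of_forall_pos_le_add fun η hη => ?_
  have hss : s * s = 1 := by
    rcases hs1 with h | h <;> rw [h] <;> norm_num
  have hsa : |s| = 1 := by
    rcases hs1 with h | h <;> rw [h] <;> norm_num
  have e1 : ∀ᶠ n in atTop, δ n < δ₀ := H.δ_tend.eventually_lt_const hδ₀
  have e2 : ∀ᶠ n in atTop, κ n < δ₀ := H.κ_tend.eventually_lt_const hδ₀
  have e3 : ∀ᶠ n in atTop, ∀ y ∈ K, dist (v y) (u n y) < η / 2 :=
    (Metric.tendstoUniformlyOn_iff.mp (H.unif K hK)) (η / 2) (by linarith)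
  obtain ⟨n, h1, h2, h3⟩ := (e1.and (e2.and e3)).exists
  have h3' : ∀ y ∈ K, |s * (u n y - v y)| ≤ η / 2 := by
    intro y hy
    rw [abs_mul, hsa, one_mul, abs_sub_comm, ← Real.dist_eq]
    exact (h3 y hy).le
  have hb0 : 0 < b := by
    have := H.a_pos
    have := H.hab
    linarith
  have hGD : GData g h (3 * b / 2) := gdata_mono H.data (by linarith)
  obtain ⟨c, L, hP⟩ := hb.coef ε (δ n) (κ n) g h (3 * b / 2) H.eps_pos H.eps_lt (H.δ_pos n)
    (H.κ_pos n) (by linarith) hGD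
  have hfr' : frontier K ⊆ K := hK.isClosed.frontier_subset
  have main := hc _ _ c L (3 * b / 2) Θ θ T t₀ hP H.pen.pen (u n) (G n) (H.sol n) (H.cont n) s hs1
    K (fun y => f y + (-(s * (η / 2)))) hK (fun y hy => (hf y hy).add contDiffAt_const) σ hσ ?_ ?_
    x hx
  · have h4 := abs_le.mp (h3' x hx)
    have e4 : s * (f x + -(s * (η / 2)) - u n x) =
        s * (f x - v x) - s * (u n x - v x) - (s * s) * (η / 2) := by ring
    rw [e4, hss] at main
    linarith [h4.1, h4.2]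
  · intro y hy _
    rw [gr_add_const]
    simp only [hs_add_const]
    obtain ⟨j1, j2⟩ := hb.jet f y (hf y hy)
    rw [hb.op ε (δ n) (κ n) g h (b / 2) H.eps_pos H.eps_lt (H.δ_pos n) (H.κ_pos n) H.data, j1, j2]
    have h5 := hop (δ n) (κ n) (H.δ_pos n) h1.le (H.κ_pos n) h2.le y hy
    have h6 := hpen n y hy
    have h7 : (vec (grad f y)).ofLp = grad f y := rfl
    rw [h7, mul_sub]
    linarith
  · intro y hy
    have h4 := abs_le.mp (h3' y (hfr' hy))
    have h5 := hfr y hy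
    have e4 : s * (f y + -(s * (η / 2)) - u n y) =
        s * (f y - v y) - s * (u n y - v y) - (s * s) * (η / 2) := by ring
    rw [e4, hss]
    linarith [h4.1, h4.2]

end SUBLaux

open SUBLaux in
/-- F8 (SUBL): comparison for the limit. -/
theorem subl_thm (hb : BRID) (hc : CCPT) (hk : KPOS) : SUBL := by
  intro ε a b g h Θ θ T t₀ δ κ u G M C v F N H
  have hΘ : ∀ x, 0 ≤ Θ x := fun x => (H.pen.pen.nonneg x).trans (H.pen.pen.le x)
  constructor
  · intro K hK hKs f hf hpos hfr x hx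
    obtain ⟨σ, δ₀, hσ, hδ₀, hop⟩ :=
      (hk ε g h (b / 2) H.eps_pos H.eps_lt H.data K f hK hf).1 hpos
    have main := key hb hc H 1 (Or.inl rfl) K hK f hf σ δ₀ hσ hδ₀ ?_ ?_ ?_ x hx
    · linarith
    · intro δ' κ' k1 k2 k3 k4 y hy
      rw [one_mul]
      exact hop δ' κ' k1 k2 k3 k4 y hy
    · intro n y hy
      rw [one_mul, ← H.pen.inn y (hKs hy)]
      have := mul_nonneg (hΘ y) (sub_nonneg.mpr (H.le_one n y))
      linarith
    · intro y hy
      have := hfr y hy
      linarith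
  · intro K hK hKs f hf hneg hfr x hx
    obtain ⟨σ, δ₀, hσ, hδ₀, hop⟩ :=
      (hk ε g h (b / 2) H.eps_pos H.eps_lt H.data K f hK hf).2 hneg
    have main := key hb hc H (-1) (Or.inr rfl) K hK f hf σ δ₀ hσ hδ₀ ?_ ?_ ?_ x hx
    · linarith
    · intro δ' κ' k1 k2 k3 k4 y hy
      have := hop δ' κ' k1 k2 k3 k4 y hy
      linarith
    · intro n y hy
      rw [H.pen.out y (hKs hy)]
      have := mul_nonneg (hΘ y) (H.nonneg n y)
      linarith
    · intro y hy
      have := hfr y hy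
      linarith

end Pool.Agent.PFlow.PB


end

section

/-!
# ZAR: strongly monotone Lipschitz operators on a Hilbert space are onto
-/

open MeasureTheory Filter Topology Set
open scoped ContDiff RealInnerProductSpace NNReal

namespace Pool.Agent.PFlow.PB

open Pool.Agent.PenroseSph Pool.Agent.PFlow

/-- E1 (ZAR): strongly monotone Lipschitz operators are onto. -/
theorem zar_thm : ZAR := by
  intro H _ _ _ T c L hc hmon hL b
  set L' : ℝ := max L c with hL'
  have hL'0 : 0 < L' := hc.trans_le (le_max_right _ _)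
  have hcL : c ≤ L' := le_max_right _ _
  set τ : ℝ := c / L' ^ 2 with hτ
  have hτ0 : 0 < τ := by positivity
  set k : ℝ := 1 - c ^ 2 / L' ^ 2 with hk
  have hk0 : 0 ≤ k := by
    rw [hk, sub_nonneg, div_le_one (by positivity)]
    exact pow_le_pow_left₀ hc.le hcL 2
  have hk1 : k < 1 := by
    have : 0 < c ^ 2 / L' ^ 2 := by positivity
    rw [hk]
    linarith
  have hstep : ∀ x y : H, ‖(x - τ • (T x - b)) - (y - τ • (T y - b))‖ ^ 2 ≤
      k * ‖x - y‖ ^ 2 := by
    intro x y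
    have e : (x - τ • (T x - b)) - (y - τ • (T y - b)) = (x - y) - τ • (T x - T y) := by
      simp only [smul_sub]
      abel
    rw [e, norm_sub_sq_real, norm_smul, real_inner_smul_right, real_inner_comm]
    have h1 := hmon x y
    have h2 : ‖T x - T y‖ ≤ L' * ‖x - y‖ := (hL x y).trans
      (mul_le_mul_of_nonneg_right (le_max_left _ _) (norm_nonneg _))
    have h3 : ‖T x - T y‖ ^ 2 ≤ L' ^ 2 * ‖x - y‖ ^ 2 := by
      rw [← mul_pow]
      exact pow_le_pow_left₀ (norm_nonneg _) h2 2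
    have h4 : ‖τ‖ = τ := by rw [Real.norm_eq_abs, abs_of_pos hτ0]
    rw [h4, mul_pow]
    have h5 : τ ^ 2 * ‖T x - T y‖ ^ 2 ≤ τ ^ 2 * (L' ^ 2 * ‖x - y‖ ^ 2) :=
      mul_le_mul_of_nonneg_left h3 (by positivity)
    have h6 : τ * (c * ‖x - y‖ ^ 2) ≤ τ * ⟪T x - T y, x - y⟫ :=
      mul_le_mul_of_nonneg_left h1 hτ0.le
    have h7 : τ ^ 2 * (L' ^ 2 * ‖x - y‖ ^ 2) = c ^ 2 / L' ^ 2 * ‖x - y‖ ^ 2 := by
      rw [hτ]
      field_simp
    have h8 : τ * (c * ‖x - y‖ ^ 2) = c ^ 2 / L' ^ 2 * ‖x - y‖ ^ 2 := by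
      rw [hτ]
      field_simp
    rw [h7] at h5
    rw [h8] at h6
    rw [hk]
    linarith
  set K : ℝ≥0 := Real.toNNReal (Real.sqrt k) with hK
  have hKc : (K : ℝ) = Real.sqrt k := Real.coe_toNNReal _ (Real.sqrt_nonneg _)
  have hcon : ContractingWith K (fun x : H => x - τ • (T x - b)) := by
    constructor
    · rw [← NNReal.coe_lt_coe, hKc, NNReal.coe_one]
      rw [show (1 : ℝ) = Real.sqrt 1 by simp]
      exact Real.sqrt_lt_sqrt hk0 hk1
    · refine LipschitzWith.of_dist_le_mul fun x y => ?_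
      rw [dist_eq_norm, dist_eq_norm, hKc]
      have h1 := Real.sqrt_le_sqrt (hstep x y)
      rw [Real.sqrt_sq (norm_nonneg _), Real.sqrt_mul hk0, Real.sqrt_sq (norm_nonneg _)] at h1
      exact h1
  have : Nonempty H := ⟨0⟩
  refine ⟨ContractingWith.fixedPoint _ hcon, ?_⟩
  have h1 := hcon.fixedPoint_isFixedPt
  unfold Function.IsFixedPt at h1
  rw [sub_eq_self, smul_eq_zero] at h1
  rcases h1 with h1 | h1
  · exact absurd h1 hτ0.ne'
  · exact sub_eq_zero.mp h1

end Pool.Agent.PFlow.PB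


end
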