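import Mathlib
import Pool.Agent.PFlow.DefsG
import Pool.Agent.PFlow.StmtsE2
import Pool.Agent.PFlow.StmtsM
import Pool.Agent.PenroseM.C12
import Pool.Agent.PenroseM.C48

/-! Parts: PFlow.P.Close, PFlow.G.CL, PFlow.G.UNIC, PFlow.M_SM, PFlow.M_FD1, PFlow.M_FX, PFlow.E.JL -/

section

/-!
# Block P, module F5 (CLOSE)

For a strong penalty the solution is close to `1` inside and to `0` outside, uniformly in `δ, κ`.
-/

open MeasureTheory Filter Topology Set
open scoped ContDiff RealInnerProductSpace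

namespace Pool.Agent.PFlow.PB

open Pool.Agent.PenroseSph Pool.Agent.PFlow

namespace Close

/-- The inner cut-off of the penalty. -/
noncomputable def chi1 (a : ℝ) (x : E3) : ℝ := max 0 (min 1 ((a - ‖x‖) / (a / 4)))

/-- The outer cut-off of the penalty. -/
noncomputable def chi2 (b : ℝ) (x : E3) : ℝ := max 0 (min 1 ((‖x‖ - b) / (b / 2)))

theorem chi1_cont (a : ℝ) : Continuous (chi1 a) := by
  unfold chi1
  fun_prop

theorem chi2_cont (b : ℝ) : Continuous (chi2 b) := by
  unfold chi2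
  fun_prop

theorem chi1_nonneg (a : ℝ) (x : E3) : 0 ≤ chi1 a x := le_max_left _ _

theorem chi2_nonneg (a : ℝ) (x : E3) : 0 ≤ chi2 a x := le_max_left _ _

theorem chi1_le (a : ℝ) (x : E3) : chi1 a x ≤ 1 := max_le zero_le_one (min_le_left _ _)

theorem chi2_le (a : ℝ) (x : E3) : chi2 a x ≤ 1 := max_le zero_le_one (min_le_left _ _)

theorem chi1_in {a : ℝ} (ha : 0 < a) {x : E3} (hx : ‖x‖ ≤ 3 * a / 4) : chi1 a x = 1 := by
  have h : 1 ≤ (a - ‖x‖) / (a / 4) := by
    rw [le_div_iff₀ (by positivity)]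
    linarith
  unfold chi1
  rw [min_eq_left h]
  exact max_eq_right zero_le_one

theorem chi1_out {a : ℝ} (ha : 0 < a) {x : E3} (hx : a ≤ ‖x‖) : chi1 a x = 0 := by
  have h : (a - ‖x‖) / (a / 4) ≤ 0 := div_nonpos_of_nonpos_of_nonneg (by linarith) (by positivity)
  unfold chi1
  exact max_eq_left ((min_le_right _ _).trans h)

theorem chi2_in {b : ℝ} (hb : 0 < b) {x : E3} (hx : ‖x‖ ≤ b) : chi2 b x = 0 := by
  have h : (‖x‖ - b) / (b / 2) ≤ 0 := div_nonpos_of_nonpos_of_nonneg (by linarith) (by positivity)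
  unfold chi2
  exact max_eq_left ((min_le_right _ _).trans h)

theorem chi2_out {b : ℝ} (hb : 0 < b) {x : E3} (hx : 3 * b / 2 ≤ ‖x‖) : chi2 b x = 1 := by
  have h : 1 ≤ (‖x‖ - b) / (b / 2) := by
    rw [le_div_iff₀ (by positivity)]
    linarith
  unfold chi2
  rw [min_eq_left h]
  exact max_eq_right zero_le_one

theorem pen2 {a b lam : ℝ} (ha : 0 < a) (hab : 8 * a ≤ b) (hl : 0 < lam) :
    Pen2 a b (fun x => lam * (chi1 a x + chi2 b x)) (fun x => lam * chi1 a x) (2 * lam) lam where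
  pen :=
    { contΘ := continuous_const.mul ((chi1_cont a).add (chi2_cont b))
      contθ := continuous_const.mul (chi1_cont a)
      nonneg := fun x => mul_nonneg hl.le (chi1_nonneg a x)
      le := fun x => by
        have := mul_nonneg hl.le (chi2_nonneg b x)
        show lam * chi1 a x ≤ lam * (chi1 a x + chi2 b x)
        linarith
      bdd := fun x => by
        have h1 := chi1_le a x
        have h2 := chi2_le b x
        have := mul_le_mul_of_nonneg_left (add_le_add h1 h2) hl.le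
        show lam * (chi1 a x + chi2 b x) ≤ 2 * lam
        linarith
      t₀_pos := hl
      outΘ := fun x hx => by
        have h2 := chi2_out (by linarith) hx
        have := mul_nonneg hl.le (chi1_nonneg a x)
        show lam ≤ lam * (chi1 a x + chi2 b x)
        rw [h2]
        linarith
      outθ := fun x hx => by
        show lam * chi1 a x = 0
        rw [chi1_out ha (by linarith), mul_zero] }
  mid := fun x hx hx2 => by
    show lam * (chi1 a x + chi2 b x) = 0
    rw [chi1_out ha hx, chi2_in (by linarith) hx2]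
    ring
  inn := fun x hx => by
    show lam * (chi1 a x + chi2 b x) = lam * chi1 a x
    rw [chi2_in (by linarith) hx, add_zero]
  out := fun x hx => by
    show lam * chi1 a x = 0
    rw [chi1_out ha hx, mul_zero]

theorem pd_aff {ζ : E3 → ℝ} {x : E3} (hζ : DifferentiableAt ℝ ζ x) (c τ : ℝ) (i : Fin 3) :
    pd i (fun y => c + τ * ζ y) x = τ * pd i ζ x := by
  unfold pd
  have h : fderiv ℝ (fun y => c + τ * ζ y) x = τ • fderiv ℝ ζ x :=
    ((hζ.hasFDerivAt.const_mul τ).const_add c).fderiv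
  rw [h]
  simp

theorem diff_pd {ζ : E3 → ℝ} (hζ : ContDiff ℝ 2 ζ) (i : Fin 3) : Differentiable ℝ (pd i ζ) := by
  unfold pd
  have h : ContDiff ℝ 1 (fderiv ℝ ζ) := hζ.fderiv_right (by norm_num)
  exact (h.clm_apply contDiff_const).differentiable one_ne_zero

theorem grad_aff {ζ : E3 → ℝ} (hζ : ContDiff ℝ 2 ζ) (c τ : ℝ) (x : E3) :
    vec (grad (fun y => c + τ * ζ y) x) = τ • vec (grad ζ x) := by
  ext i
  show pd i (fun y => c + τ * ζ y) x = τ * pd i ζ x
  exact pd_aff (hζ.differentiable two_ne_zero x) c τ i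

theorem hess_aff {ζ : E3 → ℝ} (hζ : ContDiff ℝ 2 ζ) (c τ : ℝ) (x : E3) (i j : Fin 3) :
    hess2 (fun y => c + τ * ζ y) x i j = τ * hess2 ζ x i j := by
  show pd i (pd j (fun y => c + τ * ζ y)) x = τ * pd i (pd j ζ) x
  have e : pd j (fun y => c + τ * ζ y) = fun y => 0 + τ * pd j ζ y := by
    funext y
    rw [pd_aff (hζ.differentiable two_ne_zero y) c τ j, zero_add]
  rw [e]
  exact pd_aff (diff_pd hζ j x) 0 τ i

/-- The scaled cut-off functions satisfy the hypothesis of KBAR. -/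
theorem bar_aff {ε C₁ τ : ℝ} (hε : 0 < ε) (_hε1 : ε < 1) (hτ : 0 < τ) (hτ1 : τ ≤ 1)
    {ζ : E3 → ℝ} (hζ : ContDiff ℝ 2 ζ) (hg : ∀ x, ‖vec (grad ζ x)‖ ≤ C₁)
    (hh : ∀ x i j, |hess2 ζ x i j| ≤ C₁ * ‖vec (grad ζ x)‖ ^ (1 - ε)) (c : ℝ) (x : E3) :
    ‖vec (grad (fun y => c + τ * ζ y) x)‖ ≤ C₁ ∧
    ∀ i j, |hess2 (fun y => c + τ * ζ y) x i j| ≤
      C₁ * ‖vec (grad (fun y => c + τ * ζ y) x)‖ ^ (1 - ε) := by
  have hC : 0 ≤ C₁ := (norm_nonneg _).trans (hg x)
  rw [grad_aff hζ]
  constructor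
  · rw [norm_smul, Real.norm_eq_abs, abs_of_pos hτ]
    calc τ * ‖vec (grad ζ x)‖ ≤ 1 * ‖vec (grad ζ x)‖ :=
          mul_le_mul_of_nonneg_right hτ1 (norm_nonneg _)
      _ ≤ C₁ := by rw [one_mul]; exact hg x
  · intro i j
    rw [hess_aff hζ, abs_mul, abs_of_pos hτ, norm_smul, Real.norm_eq_abs, abs_of_pos hτ,
      Real.mul_rpow hτ.le (norm_nonneg _)]
    have h1 : τ ≤ τ ^ (1 - ε) := by
      calc τ = τ ^ (1 : ℝ) := (Real.rpow_one τ).symm
        _ ≤ τ ^ (1 - ε) := Real.rpow_le_rpow_of_exponent_ge hτ hτ1 (by linarith)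
    have h2 : 0 ≤ C₁ * ‖vec (grad ζ x)‖ ^ (1 - ε) :=
      mul_nonneg hC (Real.rpow_nonneg (norm_nonneg _) _)
    calc τ * |hess2 ζ x i j| ≤ τ * (C₁ * ‖vec (grad ζ x)‖ ^ (1 - ε)) :=
          mul_le_mul_of_nonneg_left (hh x i j) hτ.le
      _ ≤ τ ^ (1 - ε) * (C₁ * ‖vec (grad ζ x)‖ ^ (1 - ε)) := mul_le_mul_of_nonneg_right h1 h2
      _ = C₁ * (τ ^ (1 - ε) * ‖vec (grad ζ x)‖ ^ (1 - ε)) := by ring

end Close

theorem close_thm (hb : BRID) (hk : KBAR) (hc : KCUT) (hg : CGLO) : CLOSE := by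
  intro ε a b η g h hε hε1 ha hab hη hd
  have hb0 : 0 < b := by linarith
  obtain ⟨ζ₁, C₁, z1s, z1r, z1i, z1o, z1g, z1h⟩ :=
    hc ε (a / 2) (3 * a / 4) hε hε1 (by positivity) (by linarith)
  obtain ⟨ζ₂, C₂, z2s, z2r, z2i, z2o, z2g, z2h⟩ :=
    hc ε (3 * b / 2) (2 * b) hε hε1 (by positivity) (by linarith)
  obtain ⟨C₃, hC₃⟩ := hk ε g h (b / 2) C₁ hε hε1 hd
  obtain ⟨C₄, hC₄⟩ := hk ε g h (b / 2) C₂ hε hε1 hd
  -- the data with a larger radius
  have hd2 : GData g h (3 * b / 2) :=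
    ⟨hd.met, hd.ten, fun x hx => hd.flat x (by linarith)⟩
  obtain ⟨η', hη0, hη1, hη2⟩ : ∃ η' : ℝ, 0 < η' ∧ η' ≤ 1 / 2 ∧ η' ≤ η :=
    ⟨min η (1 / 2), lt_min hη (by norm_num), min_le_right _ _, min_le_left _ _⟩
  set lam : ℝ := (|C₃| + |C₄| + 1) / η' with hlam
  have hl : 0 < lam := by positivity
  have hlη : lam * η' = |C₃| + |C₄| + 1 := by
    rw [hlam]
    field_simp
  refine ⟨_, _, _, _, Close.pen2 ha hab hl, ?_⟩
  intro δ κ hδ hδ1 hκ hκ1 u G hsol hcont hu
  obtain ⟨c, L, hPC⟩ := hb.coef ε δ κ g h (3 * b / 2) hε hε1 hδ hκ (by positivity) hd2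
  have hPen := (Close.pen2 ha hab hl).pen
  have hop : ∀ (f : E3 → ℝ), ContDiff ℝ 2 f → ∀ x,
      opA (cA ε δ κ g) x (gr f x) (fun i => hs f i x) + cB ε δ g h x (gr f x) =
        opL ε δ κ g x (grad f x) (hess2 f x) + cB ε δ g h x (vec (grad f x)) := by
    intro f hf x
    obtain ⟨j1, j2⟩ := hb.jet f x hf.contDiffAt
    rw [hb.op ε δ κ g h (3 * b / 2) hε hε1 hδ hκ hd2, j2, j1]
  constructor
  · -- lower bound inside
    have hτ : 0 < 1 - η' := by linarith
    have hf : ContDiff ℝ 2 (fun y => 0 + (1 - η') * ζ₁ y) :=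
      contDiff_const.add (contDiff_const.mul z1s)
    have hcs : HasCompactSupport (fun x => (0 + (1 - η') * ζ₁ x) - 0) := by
      refine HasCompactSupport.intro (isCompact_closedBall (0 : E3) (3 * a / 4)) fun x hx => ?_
      have hx2 : 3 * a / 4 ≤ ‖x‖ := by
        have : ¬ ‖x‖ ≤ 3 * a / 4 := by simpa using hx
        linarith [not_le.mp this]
      rw [z1o x hx2]
      ring
    have key := hg _ _ c L (3 * b / 2) _ _ _ _ hPC hPen u G hsol hcont hu 1 (Or.inl rfl)
      (fun y => 0 + (1 - η') * ζ₁ y) 0 hf hcs (by simp) 1 one_pos ?_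
    · intro x hx
      have h1 := key x
      rw [z1i x hx] at h1
      linarith
    · intro x hx
      have hx1 : u x < 0 + (1 - η') * ζ₁ x := by linarith
      have hζ0 : ζ₁ x ≠ 0 := by
        intro h0
        rw [h0] at hx1
        linarith [(hu x).1]
      have hxa : ‖x‖ ≤ 3 * a / 4 := by
        by_contra hcon
        exact hζ0 (z1o x (le_of_not_ge hcon))
      have hbar := Close.bar_aff hε hε1 hτ (by linarith) z1s z1g z1h 0 x
      have hK := hC₃ δ κ hδ hδ1 hκ hκ1 x (grad (fun y => 0 + (1 - η') * ζ₁ y) x)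
        (hess2 (fun y => 0 + (1 - η') * ζ₁ y) x) hbar.1 hbar.2
      rw [hop _ hf x, Close.chi1_in ha hxa, Close.chi2_in hb0 (by linarith)]
      have hA := abs_le.mp (le_refl |opL ε δ κ g x (grad (fun y => 0 + (1 - η') * ζ₁ y) x)
        (hess2 (fun y => 0 + (1 - η') * ζ₁ y) x)|)
      have hB := abs_le.mp (le_refl |cB ε δ g h x (vec (grad (fun y => 0 + (1 - η') * ζ₁ y) x))|)
      have hu1 : u x ≤ 1 - η' := by
        have h3 : (1 - η') * ζ₁ x ≤ (1 - η') * 1 :=
          mul_le_mul_of_nonneg_left (z1r x).2 hτ.le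
        linarith
      have hpen : lam * η' ≤ lam * (1 - u x) := mul_le_mul_of_nonneg_left (by linarith) hl.le
      have := le_abs_self C₃
      have := abs_nonneg C₄
      rw [hlη] at hpen
      have e : (1 : ℝ) * (opL ε δ κ g x (grad (fun y => 0 + (1 - η') * ζ₁ y) x)
          (hess2 (fun y => 0 + (1 - η') * ζ₁ y) x) +
          cB ε δ g h x (vec (grad (fun y => 0 + (1 - η') * ζ₁ y) x)) -
          (lam * (1 + 0) * u x - lam * 1)) =
          opL ε δ κ g x (grad (fun y => 0 + (1 - η') * ζ₁ y) x)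
          (hess2 (fun y => 0 + (1 - η') * ζ₁ y) x) +
          cB ε δ g h x (vec (grad (fun y => 0 + (1 - η') * ζ₁ y) x)) + lam * (1 - u x) := by ring
      rw [e]
      linarith [hA.1, hB.1]
  · -- upper bound outside
    have hτ : 0 < 1 - η' := by linarith
    have hf : ContDiff ℝ 2 (fun y => η' + (1 - η') * ζ₂ y) :=
      contDiff_const.add (contDiff_const.mul z2s)
    have hcs : HasCompactSupport (fun x => (η' + (1 - η') * ζ₂ x) - η') := by
      refine HasCompactSupport.intro (isCompact_closedBall (0 : E3) (2 * b)) fun x hx => ?_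
      have hx2 : 2 * b ≤ ‖x‖ := by
        have : ¬ ‖x‖ ≤ 2 * b := by simpa using hx
        linarith [not_le.mp this]
      rw [z2o x hx2]
      ring
    have key := hg _ _ c L (3 * b / 2) _ _ _ _ hPC hPen u G hsol hcont hu (-1) (Or.inr rfl)
      (fun y => η' + (1 - η') * ζ₂ y) η' hf hcs (by linarith) 1 one_pos ?_
    · intro x hx
      have h1 := key x
      rw [z2o x hx] at h1
      linarith
    · intro x hx
      have hx1 : η' + (1 - η') * ζ₂ x < u x := by linarith
      have hxb : 3 * b / 2 ≤ ‖x‖ := by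
        by_contra hcon
        rw [z2i x (le_of_not_ge hcon)] at hx1
        linarith [(hu x).2]
      have hbar := Close.bar_aff hε hε1 hτ (by linarith) z2s z2g z2h η' x
      have hK := hC₄ δ κ hδ hδ1 hκ hκ1 x (grad (fun y => η' + (1 - η') * ζ₂ y) x)
        (hess2 (fun y => η' + (1 - η') * ζ₂ y) x) hbar.1 hbar.2
      rw [hop _ hf x, Close.chi1_out ha (by linarith), Close.chi2_out hb0 hxb]
      have hA := abs_le.mp (le_refl |opL ε δ κ g x (grad (fun y => η' + (1 - η') * ζ₂ y) x)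
        (hess2 (fun y => η' + (1 - η') * ζ₂ y) x)|)
      have hB := abs_le.mp (le_refl |cB ε δ g h x (vec (grad (fun y => η' + (1 - η') * ζ₂ y) x))|)
      have hu1 : η' ≤ u x := by
        have h3 : 0 ≤ (1 - η') * ζ₂ x := mul_nonneg hτ.le (z2r x).1
        linarith
      have hpen : lam * η' ≤ lam * u x := mul_le_mul_of_nonneg_left hu1 hl.le
      have := le_abs_self C₄
      have := abs_nonneg C₃
      rw [hlη] at hpen
      have e : (-1 : ℝ) * (opL ε δ κ g x (grad (fun y => η' + (1 - η') * ζ₂ y) x)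
          (hess2 (fun y => η' + (1 - η') * ζ₂ y) x) +
          cB ε δ g h x (vec (grad (fun y => η' + (1 - η') * ζ₂ y) x)) -
          (lam * (0 + 1) * u x - lam * 0)) =
          -(opL ε δ κ g x (grad (fun y => η' + (1 - η') * ζ₂ y) x)
          (hess2 (fun y => η' + (1 - η') * ζ₂ y) x) +
          cB ε δ g h x (vec (grad (fun y => η' + (1 - η') * ζ₂ y) x))) + lam * u x := by ring
      rw [e]
      linarith [hA.2, hB.2]

end Pool.Agent.PFlow.PB


end

section

set_option autoImplicit false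

/-!
# CL: the chart lemma
-/

open MeasureTheory Filter Topology
open scoped ContDiff

namespace Pool.Agent.PFlow.GB

open Pool.Agent.PenroseSph Pool.Agent.PFlow

namespace CLaux

/-- Bounded measurable functions. -/
def BM {α : Type*} [MeasurableSpace α] (f : α → ℝ) : Prop := Measurable f ∧ ∃ B, ∀ x, |f x| ≤ B

section BM

variable {α β : Type*} [MeasurableSpace α] [MeasurableSpace β]

lemma BM.nonneg_bound {f : α → ℝ} (h : BM f) : ∃ B, 0 ≤ B ∧ ∀ x, |f x| ≤ B := by
  obtain ⟨_, B, hB⟩ := h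
  exact ⟨|B|, abs_nonneg _, fun x => (hB x).trans (le_abs_self _)⟩

lemma BM.mul {f g : α → ℝ} (hf : BM f) (hg : BM g) : BM (fun x => f x * g x) := by
  obtain ⟨B, hB0, hB⟩ := hf.nonneg_bound
  obtain ⟨C, hC0, hC⟩ := hg.nonneg_bound
  refine ⟨hf.1.mul hg.1, B * C, fun x => ?_⟩
  rw [abs_mul]
  exact mul_le_mul (hB x) (hC x) (abs_nonneg _) hB0

lemma BM.sub {f g : α → ℝ} (hf : BM f) (hg : BM g) : BM (fun x => f x - g x) := by
  obtain ⟨B, hB0, hB⟩ := hf.nonneg_bound
  obtain ⟨C, hC0, hC⟩ := hg.nonneg_bound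
  refine ⟨hf.1.sub hg.1, B + C, fun x => ?_⟩
  exact (abs_sub _ _).trans (add_le_add (hB x) (hC x))

lemma BM.const (c : ℝ) : BM (fun _ : α => c) := ⟨measurable_const, |c|, fun _ => le_rfl⟩

lemma BM.abs {f : α → ℝ} (hf : BM f) : BM (fun x => |f x|) := by
  obtain ⟨B, hB0, hB⟩ := hf.nonneg_bound
  exact ⟨hf.1.abs, B, fun x => by rw [abs_abs]; exact hB x⟩

lemma BM.comp {f : β → ℝ} (hf : BM f) {u : α → β} (hu : Measurable u) :
    BM (fun x => f (u x)) := ⟨hf.1.comp hu, hf.2.imp fun _ h x => h (u x)⟩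

lemma BM.integrableOn {f : α → ℝ} (hf : BM f) {μ : Measure α} {S : Set α} (hS : μ S ≠ ⊤) :
    IntegrableOn f S μ := by
  obtain ⟨B, hB0, hB⟩ := hf.nonneg_bound
  have : IsFiniteMeasure (μ.restrict S) := ⟨by
    rw [Measure.restrict_apply_univ]; exact hS.lt_top⟩
  exact Integrable.of_bound hf.1.aestronglyMeasurable B (ae_of_all _ hB)

lemma BM.integral_prod {f : α → β → ℝ} (hf : BM (Function.uncurry f)) {μ : Measure β} {S : Set β}
    (hS : μ S ≠ ⊤) : BM (fun x => ∫ y in S, f x y ∂μ) := by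
  obtain ⟨B, hB0, hB⟩ := hf.nonneg_bound
  have : IsFiniteMeasure (μ.restrict S) := ⟨by
    rw [Measure.restrict_apply_univ]; exact hS.lt_top⟩
  refine ⟨(hf.1.stronglyMeasurable.integral_prod_right).measurable, B * μ.real S, fun x => ?_⟩
  have := norm_setIntegral_le_of_norm_le_const (μ := μ) (s := S) (f := f x) (C := B) hS.lt_top
    (fun y _ => hB (x, y))
  simpa using this

end BM

lemma pt_zero (a b s : ℝ) : pt a b s 0 = a := rfl
lemma pt_one (a b s : ℝ) : pt a b s 1 = b := rfl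
lemma pt_two (a b s : ℝ) : pt a b s 2 = s := rfl

lemma continuous_pt : Continuous (fun q : (ℝ × ℝ) × ℝ => pt q.1.2 q.2 q.1.1) := by
  unfold pt
  refine (PiLp.continuous_toLp 2 _).comp (continuous_pi fun i => ?_)
  fin_cases i
  · exact continuous_fst.snd
  · exact continuous_snd
  · exact continuous_fst.fst

lemma contDiff_pt (s : ℝ) : ContDiff ℝ 1 (fun q : ℝ × ℝ => pt q.1 q.2 s) := by
  rw [contDiff_euclidean]
  intro i
  fin_cases i
  · exact contDiff_fst
  · exact contDiff_snd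
  · exact contDiff_const

lemma pt_add_left (t b s : ℝ) : pt t b s = pt 0 b s + t • EuclideanSpace.single (0 : Fin 3) (1:ℝ) := by
  ext i
  fin_cases i <;> simp [pt]

lemma pt_add_right (t a s : ℝ) : pt a t s = pt a 0 s + t • EuclideanSpace.single (1 : Fin 3) (1:ℝ) := by
  ext i
  fin_cases i <;> simp [pt]

lemma hasDerivAt_pt_left (a b s : ℝ) :
    HasDerivAt (fun t => pt t b s) (EuclideanSpace.single (0 : Fin 3) (1:ℝ)) a := by
  have h := ((hasDerivAt_id a).smul_const (EuclideanSpace.single (0 : Fin 3) (1:ℝ))).const_add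
    (pt 0 b s)
  simp only [one_smul, id] at h
  exact h.congr_of_eventuallyEq (Eventually.of_forall fun t => pt_add_left t b s)

lemma hasDerivAt_pt_right (a b s : ℝ) :
    HasDerivAt (fun t => pt a t s) (EuclideanSpace.single (1 : Fin 3) (1:ℝ)) b := by
  have h := ((hasDerivAt_id b).smul_const (EuclideanSpace.single (1 : Fin 3) (1:ℝ))).const_add
    (pt a 0 s)
  simp only [one_smul, id] at h
  exact h.congr_of_eventuallyEq (Eventually.of_forall fun t => pt_add_right t a s)

lemma deriv_pt_left {F : E3 → ℝ} {a b s : ℝ} (h : DifferentiableAt ℝ F (pt a b s)) :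
    deriv (fun t => F (pt t b s)) a = pd 0 F (pt a b s) :=
  (h.hasFDerivAt.comp_hasDerivAt a (hasDerivAt_pt_left a b s)).deriv

lemma deriv_pt_right {F : E3 → ℝ} {a b s : ℝ} (h : DifferentiableAt ℝ F (pt a b s)) :
    deriv (fun t => F (pt a t s)) b = pd 1 F (pt a b s) :=
  (h.hasFDerivAt.comp_hasDerivAt b (hasDerivAt_pt_right a b s)).deriv

/-- The double integral over the square at the height `s`. -/
noncomputable def dbl (z0 : E3) (r : ℝ) (f : E3 → ℝ) (s : ℝ) : ℝ :=
  ∫ a in Set.Ioo (z0 0 - r) (z0 0 + r), ∫ b in Set.Ioo (z0 1 - r) (z0 1 + r), f (pt a b s)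

lemma vol_Ioo (x y : ℝ) : (volume : Measure ℝ) (Set.Ioo x y) ≠ ⊤ := by
  rw [Real.volume_Ioo]; exact ENNReal.ofReal_ne_top

lemma BM_inner {f : E3 → ℝ} (hf : BM f) (z0 : E3) (r : ℝ) :
    BM (fun q : ℝ × ℝ => ∫ b in Set.Ioo (z0 1 - r) (z0 1 + r), f (pt q.2 b q.1)) := by
  apply BM.integral_prod (f := fun q : ℝ × ℝ => fun b => f (pt q.2 b q.1)) _ (vol_Ioo _ _)
  exact hf.comp continuous_pt.measurable

lemma BM_inner' {f : E3 → ℝ} (hf : BM f) (z0 : E3) (r s : ℝ) :
    BM (fun a : ℝ => ∫ b in Set.Ioo (z0 1 - r) (z0 1 + r), f (pt a b s)) :=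
  (BM_inner hf z0 r).comp (u := fun a : ℝ => (s, a)) (by fun_prop)

lemma BM_line {f : E3 → ℝ} (hf : BM f) (a s : ℝ) : BM (fun b : ℝ => f (pt a b s)) :=
  hf.comp (u := fun b : ℝ => pt a b s)
    ((continuous_pt.comp (by fun_prop : Continuous fun b : ℝ => ((s, a), b))).measurable)

lemma BM_dbl {f : E3 → ℝ} (hf : BM f) (z0 : E3) (r : ℝ) : BM (dbl z0 r f) := by
  unfold dbl
  exact BM.integral_prod (f := fun s a => ∫ b in Set.Ioo (z0 1 - r) (z0 1 + r), f (pt a b s))
    (BM_inner hf z0 r) (vol_Ioo _ _)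

lemma dbl_congr {f g : E3 → ℝ} (z0 : E3) (r s : ℝ)
    (h : ∀ a ∈ Set.Ioo (z0 0 - r) (z0 0 + r), ∀ b ∈ Set.Ioo (z0 1 - r) (z0 1 + r),
      f (pt a b s) = g (pt a b s)) : dbl z0 r f s = dbl z0 r g s := by
  unfold dbl
  exact setIntegral_congr_fun measurableSet_Ioo fun a ha =>
    setIntegral_congr_fun measurableSet_Ioo fun b hb => h a ha b hb

lemma dbl_sub {f g : E3 → ℝ} (hf : BM f) (hg : BM g) (z0 : E3) (r s : ℝ) :
    dbl z0 r (fun z => f z - g z) s = dbl z0 r f s - dbl z0 r g s := by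
  unfold dbl
  have h1 : ∀ a, ∫ b in Set.Ioo (z0 1 - r) (z0 1 + r), (f (pt a b s) - g (pt a b s)) =
      (∫ b in Set.Ioo (z0 1 - r) (z0 1 + r), f (pt a b s))
        - ∫ b in Set.Ioo (z0 1 - r) (z0 1 + r), g (pt a b s) := fun a =>
    integral_sub ((BM_line hf a s).integrableOn (vol_Ioo _ _))
      ((BM_line hg a s).integrableOn (vol_Ioo _ _))
  simp only [h1]
  exact integral_sub ((BM_inner' hf z0 r s).integrableOn (vol_Ioo _ _))
    ((BM_inner' hg z0 r s).integrableOn (vol_Ioo _ _))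

lemma dbl_mono {f : ℝ → ℝ → ℝ} {G : E3 → ℝ} (z0 : E3) (r s : ℝ) (hG : BM G)
    (h0 : ∀ a ∈ Set.Ioo (z0 0 - r) (z0 0 + r), ∀ b ∈ Set.Ioo (z0 1 - r) (z0 1 + r), 0 ≤ f a b)
    (h : ∀ a ∈ Set.Ioo (z0 0 - r) (z0 0 + r), ∀ b ∈ Set.Ioo (z0 1 - r) (z0 1 + r),
      f a b ≤ G (pt a b s)) :
    ∫ a in Set.Ioo (z0 0 - r) (z0 0 + r), ∫ b in Set.Ioo (z0 1 - r) (z0 1 + r), f a b
      ≤ dbl z0 r G s := by
  unfold dbl
  have hin : ∀ a ∈ Set.Ioo (z0 0 - r) (z0 0 + r),
      ∫ b in Set.Ioo (z0 1 - r) (z0 1 + r), f a b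
        ≤ ∫ b in Set.Ioo (z0 1 - r) (z0 1 + r), G (pt a b s) := by
    intro a ha
    apply integral_mono_of_nonneg
    · exact (ae_restrict_iff' measurableSet_Ioo).2 (ae_of_all _ fun b hb => h0 a ha b hb)
    · exact (BM_line hG a s).integrableOn (vol_Ioo _ _)
    · exact (ae_restrict_iff' measurableSet_Ioo).2 (ae_of_all _ fun b hb => h a ha b hb)
  apply integral_mono_of_nonneg
  · exact (ae_restrict_iff' measurableSet_Ioo).2 (ae_of_all _ fun a ha =>
      setIntegral_nonneg measurableSet_Ioo fun b hb => h0 a ha b hb)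
  · exact (BM_inner' hG z0 r s).integrableOn (vol_Ioo _ _)
  · exact (ae_restrict_iff' measurableSet_Ioo).2 (ae_of_all _ hin)

lemma meas_ind {S : Set E3} (hS : MeasurableSet S) {f : E3 → ℝ} (h : Measurable (S.domRestrict f)) :
    Measurable (S.indicator f) := by
  apply measurable_of_restrict_of_restrict_compl hS
  · have : S.domRestrict (S.indicator f) = S.domRestrict f := by
      funext x
      simp [Set.domRestrict_apply]
    rw [this]; exact h
  · have : Sᶜ.domRestrict (S.indicator f) = fun _ => 0 := by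
      funext x
      simp [Set.domRestrict_apply, Set.indicator_of_notMem x.2]
    rw [this]; exact measurable_const

lemma BM_ind {S : Set E3} (hS : MeasurableSet S) {f : E3 → ℝ} (h : Measurable (S.domRestrict f))
    (hb : ∃ B, ∀ x ∈ S, |f x| ≤ B) : BM (S.indicator f) := by
  refine ⟨meas_ind hS h, ?_⟩
  obtain ⟨B, hB⟩ := hb
  refine ⟨|B|, fun x => ?_⟩
  by_cases hx : x ∈ S
  · rw [Set.indicator_of_mem hx]; exact (hB x hx).trans (le_abs_self _)
  · rw [Set.indicator_of_notMem hx, abs_zero]; exact abs_nonneg _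

lemma BM_ind_cont {S : Set E3} (hS : IsCompact S) {f : E3 → ℝ} (hf : ContinuousOn f S) :
    BM (S.indicator f) := by
  apply BM_ind hS.measurableSet (continuousOn_iff_continuous_domRestrict.1 hf).measurable
  obtain ⟨B, hB⟩ := hS.exists_bound_of_continuousOn hf
  exact ⟨B, fun x hx => hB x hx⟩

lemma BM_ind_comp {S : Set E3} (hS : IsCompact S) {Φ : E3 → E3} (hΦ : ContinuousOn Φ S)
    {F : E3 → ℝ} (hF : BM F) : BM (S.indicator (fun z => F (Φ z))) := by
  apply BM_ind hS.measurableSet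
  · exact hF.1.comp (continuousOn_iff_continuous_domRestrict.1 hΦ).measurable
  · obtain ⟨B, hB⟩ := hF.2
    exact ⟨B, fun x _ => hB _⟩

lemma isClosed_box (z0 : E3) (r e : ℝ) : IsClosed (box z0 r e) := by
  have h : ∀ (i : Fin 3) (c : ℝ), IsClosed {z : E3 | |z i - z0 i| ≤ c} := fun i c =>
    isClosed_le (by fun_prop) continuous_const
  exact (h 0 r).inter ((h 1 r).inter (h 2 e))

lemma isOpen_obox (z0 : E3) (r e : ℝ) : IsOpen (obox z0 r e) := by
  have h : ∀ (i : Fin 3) (c : ℝ), IsOpen {z : E3 | |z i - z0 i| < c} := fun i c =>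
    isOpen_lt (by fun_prop) continuous_const
  exact (h 0 r).inter ((h 1 r).inter (h 2 e))

lemma obox_subset_box (z0 : E3) (r e : ℝ) : obox z0 r e ⊆ box z0 r e :=
  fun _ hz => ⟨hz.1.le, hz.2.1.le, hz.2.2.le⟩

lemma isCompact_box (z0 : E3) (r e : ℝ) : IsCompact (box z0 r e) := by
  apply Metric.isCompact_of_isClosed_isBounded (isClosed_box z0 r e)
  apply (Metric.isBounded_closedBall (x := z0) (r := Real.sqrt (r ^ 2 + r ^ 2 + e ^ 2))).subset
  intro z hz
  rw [Metric.mem_closedBall, EuclideanSpace.dist_eq, Fin.sum_univ_three]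
  apply Real.sqrt_le_sqrt
  simp only [Real.dist_eq]
  have h0 := pow_le_pow_left₀ (abs_nonneg _) hz.1 2
  have h1 := pow_le_pow_left₀ (abs_nonneg _) hz.2.1 2
  have h2 := pow_le_pow_left₀ (abs_nonneg _) hz.2.2 2
  linarith

lemma pt_mem_obox {z0 : E3} {r e a b s : ℝ} (ha : a ∈ Set.Ioo (z0 0 - r) (z0 0 + r))
    (hb : b ∈ Set.Ioo (z0 1 - r) (z0 1 + r)) (hs : s ∈ Set.Ioo (z0 2 - e) (z0 2 + e)) :
    pt a b s ∈ obox z0 r e := by
  refine ⟨?_, ?_, ?_⟩
  · rw [pt_zero, abs_lt]; constructor <;> linarith [ha.1, ha.2]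
  · rw [pt_one, abs_lt]; constructor <;> linarith [hb.1, hb.2]
  · rw [pt_two, abs_lt]; constructor <;> linarith [hs.1, hs.2]

lemma pt_mem_box {z0 : E3} {r e a b s : ℝ} (ha : a ∈ Set.Icc (z0 0 - r) (z0 0 + r))
    (hb : b ∈ Set.Icc (z0 1 - r) (z0 1 + r)) (hs : s ∈ Set.Icc (z0 2 - e) (z0 2 + e)) :
    pt a b s ∈ box z0 r e := by
  refine ⟨?_, ?_, ?_⟩
  · rw [pt_zero, abs_le]; constructor <;> linarith [ha.1, ha.2]
  · rw [pt_one, abs_le]; constructor <;> linarith [hb.1, hb.2]
  · rw [pt_two, abs_le]; constructor <;> linarith [hs.1, hs.2]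

/-- The estimate on a single slice. -/
lemma slice (hPOIN : Stmt_POIN) {z0 : E3} {r e : ℝ} (hr : 0 < r) {N : Set E3} (hN : IsOpen N)
    (hbN : box z0 r e ⊆ N) {vh : E3 → ℝ} (hvh : ContDiffOn ℝ 1 vh N) {K L : E3 → ℝ} (hK : BM K)
    (hL : BM L) {B : ℝ} (hB0 : 0 ≤ B) (hB : ∀ z, |K z| ≤ B) {D : ℝ}
    (hd : ∀ z ∈ box z0 r e, |pd 0 vh z| + |pd 1 vh z| ≤ D * L z) {s : ℝ}
    (hs : s ∈ Set.Ioo (z0 2 - e) (z0 2 + e)) (hz : dbl z0 r K s = 0) :
    |dbl z0 r (fun z => K z * vh z) s| ≤ 2 * r * B * (D * dbl z0 r L s) := by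
  have hs' : s ∈ Set.Icc (z0 2 - e) (z0 2 + e) := Set.Ioo_subset_Icc_self hs
  have h := hPOIN (z0 0) (z0 1) r B (fun a b => K (pt a b s)) (fun a b => vh (pt a b s)) hr hB0
    ?_ (fun a b => hB _) ?_ hz
  · have h2 : ∫ a in Set.Ioo (z0 0 - r) (z0 0 + r), ∫ b in Set.Ioo (z0 1 - r) (z0 1 + r),
        (|deriv (fun t => vh (pt t b s)) a| + |deriv (fun t => vh (pt a t s)) b|)
          ≤ dbl z0 r (fun z => D * L z) s := by
      apply dbl_mono z0 r s ((BM.const D).mul hL)
      · intro a _ b _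
        positivity
      · intro a ha b hb
        have hm : pt a b s ∈ box z0 r e := obox_subset_box z0 r e (pt_mem_obox ha hb hs)
        have hdiff : DifferentiableAt ℝ vh (pt a b s) :=
          (hvh.differentiableOn one_ne_zero).differentiableAt (hN.mem_nhds (hbN hm))
        rw [deriv_pt_left hdiff, deriv_pt_right hdiff]
        exact hd _ hm
    have h3 : dbl z0 r (fun z => D * L z) s = D * dbl z0 r L s := by
      unfold dbl
      simp only [integral_const_mul]
    rw [h3] at h2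
    refine le_trans h ?_
    exact mul_le_mul_of_nonneg_left h2 (by positivity)
  · exact hK.1.comp (((continuous_pt.comp
      (by fun_prop : Continuous fun q : ℝ × ℝ => ((s, q.1), q.2)))).measurable)
  · refine ⟨(fun q : ℝ × ℝ => pt q.1 q.2 s) ⁻¹' N, hN.preimage (contDiff_pt s).continuous, ?_, ?_⟩
    · rintro ⟨a, b⟩ ⟨ha, hb⟩
      exact hbN (pt_mem_box ha hb hs')
    · exact hvh.comp (contDiff_pt s).contDiffOn (Set.mapsTo_preimage _ _)

end CLaux

open CLaux

theorem CL (hSMO : Stmt_SMO) (hCHX : Stmt_CHX) (hFUB : Stmt_FUB) (hPOIN : Stmt_POIN) :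
    Stmt_CL := by
  intro V a b g W hF Φ z0 r e hC ρ β b0 M hρ hβ hsupp hβ0 hb0 hM hβs hρs
  have hρ' : BM ρ := hρ
  have hβ' : BM β := hβ
  obtain ⟨ha, hb, hcomp, hsubV, _hopen, hcv, _hci, hjc, c, C, hc, hCpos, hjb, _⟩ :=
    hCHX V a b g W hF Φ z0 r e hC
  obtain ⟨N, hN, hbN, hΦN, _hinj, hmaps, _hdet, hWΦ⟩ := hC.nbhd
  have hr := hC.r_pos
  have he := hC.e_pos
  have hoB := obox_subset_box z0 r e
  have hBc := isCompact_box z0 r e
  have hΦB : ContinuousOn Φ (box z0 r e) := hΦN.continuousOn.mono hbN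
  set P : E3 → ℝ := (box z0 r e).indicator (fun z => ρ (Φ z)) with hPdef
  set Q : E3 → ℝ := (box z0 r e).indicator (fun z => β (Φ z)) with hQdef
  set J : E3 → ℝ := (box z0 r e).indicator (jac g W Φ) with hJdef
  have hP : BM P := BM_ind_comp hBc hΦB hρ'
  have hQ : BM Q := BM_ind_comp hBc hΦB hβ'
  have hJ : BM J := BM_ind_cont hBc hjc
  have hcρ : ∀ s ∈ Set.Ioo (z0 2 - e) (z0 2 + e),
      cint g W Φ z0 r ρ s = dbl z0 r (fun z => P z * J z) s := by
    intro s hs
    refine dbl_congr (f := fun z => ρ (Φ z) * jac g W Φ z) z0 r s fun a ha b hb => ?_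
    have hm := hoB (pt_mem_obox ha hb hs)
    simp only [hPdef, hJdef, Set.indicator_of_mem hm]
  have hcβ : ∀ s ∈ Set.Ioo (z0 2 - e) (z0 2 + e),
      cint g W Φ z0 r β s = dbl z0 r (fun z => Q z * J z) s := by
    intro s hs
    refine dbl_congr (f := fun z => β (Φ z) * jac g W Φ z) z0 r s fun a ha b hb => ?_
    have hm := hoB (pt_mem_obox ha hb hs)
    simp only [hQdef, hJdef, Set.indicator_of_mem hm]
  set γ : ℝ → ℝ := (Set.Ioo (z0 2 - e) (z0 2 + e)).indicator
    (fun s => dbl z0 r (fun z => P z * J z) s / dbl z0 r (fun z => Q z * J z) s) with hγdef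
  have hγm : Measurable γ :=
    ((BM_dbl (hP.mul hJ) z0 r).1.div (BM_dbl (hQ.mul hJ) z0 r).1).indicator measurableSet_Ioo
  have hMb : 0 ≤ M / b0 := div_nonneg hM hb0.le
  have hγb : ∀ s, |γ s| ≤ M / b0 := by
    intro s
    by_cases hs : s ∈ Set.Ioo (z0 2 - e) (z0 2 + e)
    · rw [hγdef, Set.indicator_of_mem hs, ← hcρ s hs, ← hcβ s hs, abs_div]
      have h1 := hβs s hs
      have h2 : 0 < cint g W Φ z0 r β s := hb0.trans_le h1
      rw [abs_of_pos h2]
      exact div_le_div₀ hM (hρs s hs) hb0 h1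
    · rw [hγdef, Set.indicator_of_notMem hs, abs_zero]
      exact hMb
  have hγBM : BM γ := ⟨hγm, _, hγb⟩
  -- the function with vanishing slice integrals
  have hcoord : Measurable (fun z : E3 => z 2) := by fun_prop
  set K : E3 → ℝ := fun z => P z * J z - γ (z 2) * (Q z * J z) with hKdef
  have hK : BM K := (hP.mul hJ).sub ((hγBM.comp hcoord).mul (hQ.mul hJ))
  obtain ⟨B, hB0, hB⟩ := hK.nonneg_bound
  have hKz : ∀ s ∈ Set.Ioo (z0 2 - e) (z0 2 + e), dbl z0 r K s = 0 := by
    intro s hs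
    have e1 : dbl z0 r K s = dbl z0 r (fun z => P z * J z - γ s * (Q z * J z)) s :=
      dbl_congr z0 r s fun a _ b _ => by simp only [hKdef, pt_two]
    have e2 : dbl z0 r (fun z => γ s * (Q z * J z)) s = γ s * dbl z0 r (fun z => Q z * J z) s := by
      unfold dbl
      simp only [integral_const_mul]
    rw [e1, dbl_sub (hP.mul hJ) ((BM.const _).mul (hQ.mul hJ)), e2, hγdef,
      Set.indicator_of_mem hs]
    have h2 : 0 < dbl z0 r (fun z => Q z * J z) s := by
      rw [← hcβ s hs]; exact hb0.trans_le (hβs s hs)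
    field_simp
    ring
  set C2 : ℝ := 2 * r * B * (2 * C / c) with hC2
  have hC20 : 0 ≤ C2 := by positivity
  refine ⟨γ, hγm, hγb, C2, hC20, ?_⟩
  intro α hα v hv
  have hα' : BM α := hα
  have hslabopen := isOpen_slab hF (z0 2 - e) (z0 2 + e)
  have himg : Φ '' obox z0 r e ⊆ slab V W (z0 2 - e) (z0 2 + e) := by
    rintro _ ⟨z, hz, rfl⟩
    refine ⟨hsubV ⟨z, hoB hz, rfl⟩, ?_⟩
    have h1 : W (Φ z) = z 2 := hWΦ z (hbN (hoB hz))
    have h2 := abs_lt.1 hz.2.2
    rw [Set.mem_preimage, h1]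
    exact ⟨by linarith [h2.1], by linarith [h2.2]⟩
  -- continuity
  have hlin : ContinuousOn (lin g W v v) V := by
    intro x hx
    have h1 := (hSMO.2 g W x (hSMO.1 V a b g W hF x hx)).2.2.2.2.2.2.2.2.2.2.2.2.2.1 0 v v
    have h2 : ContDiffAt ℝ 1 v x := (hv x hx).contDiffAt (hF.isOpen.mem_nhds hx)
    exact (h1 (by simpa using h2) (by simpa using h2)).1.continuousAt.continuousWithinAt
  have hdensc : ContinuousOn (dens g W) V := by
    intro x hx
    exact (hSMO.2 g W x (hSMO.1 V a b g W hF x hx)).2.2.2.2.2.2.2.2.1.continuousAt.continuousWithinAt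
  have hdenspos : ∀ x ∈ V, 0 < dens g W x := fun x hx =>
    (hSMO.2 g W x (hSMO.1 V a b g W hF x hx)).2.2.2.1
  set vh : E3 → ℝ := fun z => v (Φ z) with hvhdef
  have hvh : ContDiffOn ℝ 1 vh N := hv.comp (hΦN.of_le (by norm_num)) hmaps
  set Vv : E3 → ℝ := (box z0 r e).indicator vh with hVvdef
  have hVv : BM Vv := BM_ind_cont hBc (hvh.continuousOn.mono hbN)
  set Ln : E3 → ℝ := (box z0 r e).indicator (fun z => Real.sqrt (lin g W v v (Φ z))) with hLndef
  have hLn : BM Ln := by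
    apply BM_ind_cont hBc
    have h1 : ContinuousOn (fun z => lin g W v v (Φ z)) (box z0 r e) :=
      hlin.comp hΦB fun z hz => hsubV ⟨z, hz, rfl⟩
    exact h1.sqrt
  set L : E3 → ℝ := fun z => Ln z * J z with hLdef
  have hL : BM L := hLn.mul hJ
  -- the left side
  have hleft : ∫ x in slab V W (z0 2 - e) (z0 2 + e),
      (ρ x - γ (W x) * β x) * α (W x) * v x * dens g W x =
      ∫ z in obox z0 r e, K z * α (z 2) * Vv z := by
    rw [setIntegral_eq_of_subset_of_forall_sdiff_eq_zero hslabopen.measurableSet himg ?_]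
    · rw [hcv (obox z0 r e) (fun x => (ρ x - γ (W x) * β x) * α (W x) * v x)
        (isOpen_obox z0 r e).measurableSet hoB]
      apply setIntegral_congr_fun (isOpen_obox z0 r e).measurableSet
      intro z hz
      have hm := hoB hz
      have h1 : W (Φ z) = z 2 := hWΦ z (hbN hm)
      simp only [hKdef, hPdef, hQdef, hJdef, hVvdef, hvhdef, Set.indicator_of_mem hm, h1]
      ring
    · intro x hx
      obtain ⟨h1, h2⟩ := hsupp x hx.2
      rw [h1, h2]
      ring
  have hright : C2 * ∫ z in obox z0 r e, |α (z 2)| * L z ≤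
      C2 * ∫ x in slab V W (z0 2 - e) (z0 2 + e),
        |α (W x)| * Real.sqrt (lin g W v v x) * dens g W x := by
    apply mul_le_mul_of_nonneg_left _ hC20
    have e1 : ∫ z in obox z0 r e, |α (z 2)| * L z =
        ∫ x in Φ '' obox z0 r e, |α (W x)| * Real.sqrt (lin g W v v x) * dens g W x := by
      rw [hcv (obox z0 r e) (fun x => |α (W x)| * Real.sqrt (lin g W v v x))
        (isOpen_obox z0 r e).measurableSet hoB]
      apply setIntegral_congr_fun (isOpen_obox z0 r e).measurableSet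
      intro z hz
      have hm := hoB hz
      have h1 : W (Φ z) = z 2 := hWΦ z (hbN hm)
      simp only [hLdef, hLndef, hJdef, Set.indicator_of_mem hm, h1]
      ring
    rw [e1]
    apply setIntegral_mono_set
    · -- integrability on the slab
      have hcs : IsCompact (cslab V W (z0 2 - e) (z0 2 + e)) := hF.proper _ _ ha hb
      have h1 : IntegrableOn (fun x => Real.sqrt (lin g W v v x) * dens g W x)
          (slab V W (z0 2 - e) (z0 2 + e)) := by
        apply IntegrableOn.mono_set _ (slab_subset_cslab _ _)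
        apply ContinuousOn.integrableOn_compact hcs
        exact ((hlin.sqrt).mul hdensc).mono (cslab_subset _ _)
      obtain ⟨A, hA0, hA⟩ := hα'.nonneg_bound
      have h2 : AEStronglyMeasurable (fun x => |α (W x)|)
          (volume.restrict (slab V W (z0 2 - e) (z0 2 + e))) := by
        have h3 : AEMeasurable W (volume.restrict (slab V W (z0 2 - e) (z0 2 + e))) :=
          (hF.continuousOn.mono (slab_subset _ _)).aemeasurable hslabopen.measurableSet
        exact (hα'.1.abs.comp_aemeasurable h3).aestronglyMeasurable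
      have h4 := Integrable.bdd_mul (c := A) h1 h2 (ae_of_all _ fun x => by
        rw [Real.norm_eq_abs, abs_abs]; exact hA _)
      refine h4.congr (ae_of_all _ fun x => ?_)
      simp only
      ring
    · refine (ae_restrict_iff' hslabopen.measurableSet).2 (ae_of_all _ fun x hx => ?_)
      have := hdenspos x hx.1
      simp only [Pi.zero_apply]
      positivity
    · exact himg.eventuallyLE
  refine le_trans ?_ hright
  simp only [] at hleft ⊢
  rw [hleft]
  have hαc : BM (fun z : E3 => α (z 2)) := hα'.comp hcoord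
  have hbox_fin : (volume : Measure E3) (obox z0 r e) ≠ ⊤ :=
    (lt_of_le_of_lt (measure_mono hoB) hBc.measure_lt_top).ne
  rw [hFUB z0 r e (fun z => K z * α (z 2) * Vv z)
      (((hK.mul hαc).mul hVv).integrableOn hbox_fin),
    hFUB z0 r e (fun z => |α (z 2)| * L z) ((hαc.abs.mul hL).integrableOn hbox_fin)]
  have el : ∀ s, (∫ a in Set.Ioo (z0 0 - r) (z0 0 + r), ∫ b in Set.Ioo (z0 1 - r) (z0 1 + r),
      K (pt a b s) * α ((pt a b s) 2) * Vv (pt a b s)) =
        α s * dbl z0 r (fun z => K z * Vv z) s := by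
    intro s
    unfold dbl
    rw [← integral_const_mul]
    refine integral_congr_ae (ae_of_all _ fun a => ?_)
    simp only
    rw [← integral_const_mul]
    refine integral_congr_ae (ae_of_all _ fun b => ?_)
    simp only [pt_two]
    ring
  have er : ∀ s, (∫ a in Set.Ioo (z0 0 - r) (z0 0 + r), ∫ b in Set.Ioo (z0 1 - r) (z0 1 + r),
      |α ((pt a b s) 2)| * L (pt a b s)) = |α s| * dbl z0 r L s := by
    intro s
    unfold dbl
    rw [← integral_const_mul]
    refine integral_congr_ae (ae_of_all _ fun a => ?_)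
    simp only
    rw [← integral_const_mul]
    refine integral_congr_ae (ae_of_all _ fun b => ?_)
    simp only [pt_two]
  simp only [el, er]
  rw [← integral_const_mul]
  have hfin := vol_Ioo (z0 2 - e) (z0 2 + e)
  rw [← Real.norm_eq_abs]
  refine norm_integral_le_of_norm_le
    (((BM.const C2).mul (hα'.abs.mul (BM_dbl hL z0 r))).integrableOn hfin) ?_
  refine (ae_restrict_iff' measurableSet_Ioo).2 (ae_of_all _ fun s hs => ?_)
  rw [Real.norm_eq_abs, abs_mul]
  have hd : ∀ z ∈ box z0 r e, |pd 0 vh z| + |pd 1 vh z| ≤ (2 * C / c) * L z := by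
    intro z hz
    obtain ⟨j1, j2, j3⟩ := hjb z hz
    have hxV : Φ z ∈ V := hsubV ⟨z, hz, rfl⟩
    obtain ⟨d0, d1⟩ := j3 v
      (((hv _ hxV).contDiffAt (hF.isOpen.mem_nhds hxV)).differentiableAt one_ne_zero)
    have hsq := Real.sqrt_nonneg (lin g W v v (Φ z))
    simp only [hLdef, hLndef, hJdef, Set.indicator_of_mem hz]
    have h5 : 2 * C * Real.sqrt (lin g W v v (Φ z)) ≤
        (2 * C / c) * (Real.sqrt (lin g W v v (Φ z)) * jac g W Φ z) := by
      rw [div_mul_eq_mul_div, le_div_iff₀ hc]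
      have : Real.sqrt (lin g W v v (Φ z)) * c ≤ Real.sqrt (lin g W v v (Φ z)) * jac g W Φ z :=
        mul_le_mul_of_nonneg_left j1 hsq
      nlinarith
    have h6 : |pd 0 vh z| ≤ C * Real.sqrt (lin g W v v (Φ z)) := d0
    have h7 : |pd 1 vh z| ≤ C * Real.sqrt (lin g W v v (Φ z)) := d1
    linarith
  have hsl := slice hPOIN hr hN hbN hvh hK hL hB0 hB hd hs (hKz s hs)
  have hcg : dbl z0 r (fun z => K z * Vv z) s = dbl z0 r (fun z => K z * vh z) s := by
    apply dbl_congr
    intro a ha b hb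
    simp only [hVvdef, Set.indicator_of_mem (hoB (pt_mem_obox ha hb hs))]
  rw [hcg]
  have h8 : |α s| * |dbl z0 r (fun z => K z * vh z) s| ≤
      |α s| * (2 * r * B * ((2 * C / c) * dbl z0 r L s)) :=
    mul_le_mul_of_nonneg_left hsl (abs_nonneg _)
  refine h8.trans (le_of_eq ?_)
  rw [hC2]
  ring

end Pool.Agent.PFlow.GB


end

section

/-!
# Unicoherence: a regular level set separating two connected sets is connected

The proof lifts a continuous map from `E3` to the circle to the real line.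
-/

open MeasureTheory Filter Topology
open scoped ContDiff

namespace Pool.Agent.PFlow.GB

open Pool.Agent.PenroseSph Pool.Agent.PFlow

namespace UNIC

/-- A continuous integer valued function on a preconnected set is constant. -/
theorem const_of_int {S : Set E3} (hS : IsPreconnected S) {G : E3 → ℝ} (hG : ContinuousOn G S)
    (hi : ∀ x ∈ S, ∃ n : ℤ, G x = n) {x y : E3} (hx : x ∈ S) (hy : y ∈ S) : G x = G y := by
  have key : ∀ x ∈ S, ∀ y ∈ S, ¬ G x < G y := by
    intro x hx y hy hlt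
    obtain ⟨n, hn⟩ := hi x hx
    obtain ⟨m, hm⟩ := hi y hy
    have h1 : n < m := by
      rw [hn, hm] at hlt
      exact_mod_cast hlt
    have h2 : (n : ℝ) + 1 ≤ m := by exact_mod_cast h1
    have h3 : G x + 1 / 2 ∈ Set.Icc (G x) (G y) := by
      rw [hn, hm]
      constructor <;> linarith
    obtain ⟨z, hz, hz'⟩ := hS.intermediate_value hx hy hG h3
    obtain ⟨k, hk⟩ := hi z hz
    rw [hk, hn] at hz'
    have h4 : (2 * k : ℝ) = 2 * n + 1 := by linarith
    have h5 : 2 * k = 2 * n + 1 := by exact_mod_cast h4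
    omega
  rcases lt_trichotomy (G x) (G y) with h | h | h
  · exact absurd h (key x hx y hy)
  · exact h
  · exact absurd h (key y hy x hx)

/-- The ramp. -/
noncomputable def ramp (c d t : ℝ) : ℝ := max 0 (min 1 ((t - c + d) / (2 * d)))

theorem continuous_ramp (c d : ℝ) : Continuous (ramp c d) := by
  unfold ramp
  fun_prop

theorem ramp_low {c d t : ℝ} (hd : 0 < d) (h : t ≤ c - d) : ramp c d t = 0 := by
  unfold ramp
  apply max_eq_left
  apply (min_le_right _ _).trans
  apply div_nonpos_of_nonpos_of_nonneg <;> linarith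

theorem ramp_high {c d t : ℝ} (hd : 0 < d) (h : c + d ≤ t) : ramp c d t = 1 := by
  unfold ramp
  rw [min_eq_left, max_eq_right zero_le_one]
  rw [le_div_iff₀ (by linarith)]
  linarith

theorem ramp_mid {c d : ℝ} (hd : 0 < d) : ramp c d c = 1 / 2 := by
  unfold ramp
  have h1 : (c - c + d) / (2 * d) = 1 / 2 := by
    rw [sub_self, zero_add]
    field_simp
  rw [h1, min_eq_right (by norm_num), max_eq_right (by norm_num)]

theorem coe_int (n : ℤ) : ((n : ℝ) : AddCircle (1 : ℝ)) = 0 := by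
  rw [AddCircle.coe_eq_zero_iff]
  exact ⟨n, by simp⟩

theorem int_of_coe {t : ℝ} (h : (t : AddCircle (1 : ℝ)) = 0) : ∃ n : ℤ, t = n := by
  rw [AddCircle.coe_eq_zero_iff] at h
  obtain ⟨n, hn⟩ := h
  exact ⟨n, by simpa using hn.symm⟩

/-- Points of a regular level are limits of points with smaller values. -/
theorem mem_closure_lt {f : E3 → ℝ} {a : E3} (h : fderiv ℝ f a ≠ 0) :
    a ∈ closure {x | f x < f a} := by
  by_contra hn
  apply h
  apply IsLocalMin.fderiv_eq_zero
  have h1 : (closure {x | f x < f a})ᶜ ∈ 𝓝 a := isClosed_closure.isOpen_compl.mem_nhds hn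
  filter_upwards [h1] with x hx
  by_contra hlt
  exact hx (subset_closure (not_le.mp hlt))

theorem mem_closure_gt {f : E3 → ℝ} {a : E3} (h : fderiv ℝ f a ≠ 0) :
    a ∈ closure {x | f a < f x} := by
  by_contra hn
  apply h
  apply IsLocalMax.fderiv_eq_zero
  have h1 : (closure {x | f a < f x})ᶜ ∈ 𝓝 a := isClosed_closure.isOpen_compl.mem_nhds hn
  filter_upwards [h1] with x hx
  by_contra hlt
  exact hx (subset_closure (not_le.mp hlt))

/-- The topological core. -/
theorem core {f : E3 → ℝ} {c d : ℝ} (hf : Continuous f) (hd : 0 < d)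
    (h1 : IsPreconnected {x | f x < c}) (h2 : IsPreconnected {x | c < f x})
    {N₁ N₂ : Set E3} (hN₁ : IsOpen N₁) (hN₂ : IsOpen N₂) (hN : Disjoint N₁ N₂)
    (hcov : ∀ x, |f x - c| ≤ d → x ∈ N₁ ∪ N₂) {a₁ a₂ : E3} (ha₁ : a₁ ∈ N₁) (ha₂ : a₂ ∈ N₂)
    (hc₁ : f a₁ = c)
    (l₁ : a₁ ∈ closure {x | f x < c}) (u₁ : a₁ ∈ closure {x | c < f x})
    (l₂ : a₂ ∈ closure {x | f x < c}) (u₂ : a₂ ∈ closure {x | c < f x}) : False := by
  classical
  set h : ℝ → ℝ := ramp c d with hh
  have hhc : Continuous h := continuous_ramp c d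
  have hdis : ∀ x ∈ N₂, x ∉ N₁ := fun x hx hx' => Set.disjoint_left.mp hN hx' hx
  -- values away from the band
  have hoff : ∀ x, x ∉ N₁ → x ∉ N₂ → f x < c - d ∨ c + d < f x := by
    intro x hx hx'
    by_contra hn
    push Not at hn
    have : x ∈ N₁ ∪ N₂ := hcov x (abs_le.mpr ⟨by linarith [hn.1], by linarith [hn.2]⟩)
    rcases this with h3 | h3
    · exact hx h3
    · exact hx' h3
  set φ : E3 → AddCircle (1 : ℝ) := fun x => if x ∈ N₁ then ((h (f x) : ℝ) : AddCircle (1 : ℝ))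
    else 0 with hφ
  have hcoe : Continuous ((↑) : ℝ → AddCircle (1 : ℝ)) := AddCircle.continuous_mk' 1
  have hφc : Continuous φ := by
    rw [continuous_iff_continuousAt]
    intro x
    by_cases hx : x ∈ N₁
    · have e1 : φ =ᶠ[𝓝 x] fun y => ((h (f y) : ℝ) : AddCircle (1 : ℝ)) := by
        filter_upwards [hN₁.mem_nhds hx] with y hy
        simp only [hφ, if_pos hy]
      exact (hcoe.comp (hhc.comp hf)).continuousAt.congr e1.symm
    · by_cases hx' : x ∈ N₂
      · have e1 : φ =ᶠ[𝓝 x] fun _ => 0 := by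
          filter_upwards [hN₂.mem_nhds hx'] with y hy
          simp only [hφ, if_neg (hdis y hy)]
        exact continuousAt_const.congr e1.symm
      · have e1 : φ =ᶠ[𝓝 x] fun _ => 0 := by
          rcases hoff x hx hx' with h3 | h3
          · filter_upwards [(isOpen_lt hf continuous_const).mem_nhds h3] with y hy
            simp only [hφ]
            split_ifs
            · rw [hh, ramp_low hd (le_of_lt hy)]
              rfl
            · rfl
          · filter_upwards [(isOpen_lt continuous_const hf).mem_nhds h3] with y hy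
            simp only [hφ]
            split_ifs
            · rw [hh, ramp_high hd (le_of_lt hy)]
              exact (congrArg ((↑) : ℝ → AddCircle (1 : ℝ)) (Int.cast_one).symm).trans (coe_int 1)
            · rfl
        exact continuousAt_const.congr e1.symm
  -- the lift
  obtain ⟨F, ⟨_, hF⟩, _⟩ := (AddCircle.isCoveringMap_coe (1 : ℝ)).existsUnique_continuousMap_lifts
    (⟨φ, hφc⟩ : C(E3, AddCircle (1 : ℝ))) a₂ 0 (by
      show ((0 : ℝ) : AddCircle (1 : ℝ)) = φ a₂
      simp only [hφ, if_neg (hdis a₂ ha₂)]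
      rfl)
  have hF' : ∀ x, ((F x : ℝ) : AddCircle (1 : ℝ)) = φ x := fun x => congrFun hF x
  have hFc : Continuous F := F.continuous
  -- below
  set G : E3 → ℝ := fun x => F x - if x ∈ N₁ then h (f x) else 0 with hG
  set H : E3 → ℝ := fun x => F x - if x ∈ N₁ then h (f x) - 1 else 0 with hH
  have hGi : ∀ x, ∃ n : ℤ, G x = n := by
    intro x
    apply int_of_coe
    rw [hG, AddCircle.coe_sub, hF']
    simp only [hφ]
    split_ifs
    · exact sub_self _
    · exact sub_self _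
  have hHi : ∀ x, ∃ n : ℤ, H x = n := by
    intro x
    obtain ⟨n, hn⟩ := hGi x
    by_cases hx : x ∈ N₁
    · refine ⟨n + 1, ?_⟩
      simp only [hG, if_pos hx] at hn
      simp only [hH, if_pos hx]
      push_cast
      linarith
    · refine ⟨n, ?_⟩
      simp only [hG, if_neg hx] at hn
      simp only [hH, if_neg hx]
      exact hn
  have hGc : ContinuousOn G {x | f x < c} := by
    intro x hx
    apply ContinuousAt.continuousWithinAt
    apply hFc.continuousAt.sub
    by_cases hx1 : x ∈ N₁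
    · have e1 : (fun y => if y ∈ N₁ then h (f y) else 0) =ᶠ[𝓝 x] fun y => h (f y) := by
        filter_upwards [hN₁.mem_nhds hx1] with y hy
        rw [if_pos hy]
      exact (hhc.comp hf).continuousAt.congr e1.symm
    · have e1 : (fun y => if y ∈ N₁ then h (f y) else 0) =ᶠ[𝓝 x] fun _ => (0 : ℝ) := by
        by_cases hx2 : x ∈ N₂
        · filter_upwards [hN₂.mem_nhds hx2] with y hy
          rw [if_neg (hdis y hy)]
        · rcases hoff x hx1 hx2 with h3 | h3
          · filter_upwards [(isOpen_lt hf continuous_const).mem_nhds h3] with y hy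
            rw [hh, ramp_low hd (le_of_lt hy)]
            split_ifs <;> rfl
          · have hx' : f x < c := hx
            linarith
      exact continuousAt_const.congr e1.symm
  have hHc : ContinuousOn H {x | c < f x} := by
    intro x hx
    apply ContinuousAt.continuousWithinAt
    apply hFc.continuousAt.sub
    by_cases hx1 : x ∈ N₁
    · have e1 : (fun y => if y ∈ N₁ then h (f y) - 1 else 0) =ᶠ[𝓝 x] fun y => h (f y) - 1 := by
        filter_upwards [hN₁.mem_nhds hx1] with y hy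
        rw [if_pos hy]
      exact ((hhc.comp hf).sub continuous_const).continuousAt.congr e1.symm
    · have e1 : (fun y => if y ∈ N₁ then h (f y) - 1 else 0) =ᶠ[𝓝 x] fun _ => (0 : ℝ) := by
        by_cases hx2 : x ∈ N₂
        · filter_upwards [hN₂.mem_nhds hx2] with y hy
          rw [if_neg (hdis y hy)]
        · rcases hoff x hx1 hx2 with h3 | h3
          · have hx' : c < f x := hx
            linarith
          · filter_upwards [(isOpen_lt continuous_const hf).mem_nhds h3] with y hy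
            rw [hh, ramp_high hd (le_of_lt hy)]
            simp
      exact continuousAt_const.congr e1.symm
  obtain ⟨x₀, hx₀⟩ : {x | f x < c}.Nonempty := by
    by_contra hn
    rw [Set.not_nonempty_iff_eq_empty.mp hn, closure_empty] at l₁
    exact l₁
  obtain ⟨y₀, hy₀⟩ : {x | c < f x}.Nonempty := by
    by_contra hn
    rw [Set.not_nonempty_iff_eq_empty.mp hn, closure_empty] at u₁
    exact u₁
  have hG0 : ∀ x, f x < c → G x = G x₀ := fun x hx =>
    const_of_int h1 hGc (fun z _ => hGi z) hx hx₀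
  have hH0 : ∀ x, c < f x → H x = H y₀ := fun x hx =>
    const_of_int h2 hHc (fun z _ => hHi z) hx hy₀
  -- limits
  have hlim : ∀ (A N : Set E3) (P : E3 → ℝ) (k : ℝ) (a : E3), IsOpen N → a ∈ N →
      a ∈ closure A → ContinuousAt P a → (∀ x ∈ A, x ∈ N → P x = k) → P a = k := by
    intro A N P k a hNo haN hcl hP hk
    have h3 : a ∈ closure (A ∩ N) := by
      rw [mem_closure_iff_nhds] at hcl ⊢
      intro t ht
      obtain ⟨z, hz1, hz2⟩ := hcl (t ∩ N) (inter_mem ht (hNo.mem_nhds haN))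
      exact ⟨z, hz1.1, hz2, hz1.2⟩
    have h4 : (𝓝[A ∩ N] a).NeBot := mem_closure_iff_nhdsWithin_neBot.mp h3
    have h5 : Tendsto P (𝓝[A ∩ N] a) (𝓝 (P a)) := hP.tendsto.mono_left nhdsWithin_le_nhds
    have h6 : Tendsto P (𝓝[A ∩ N] a) (𝓝 k) := by
      refine tendsto_const_nhds.congr' ?_
      filter_upwards [self_mem_nhdsWithin] with z hz
      exact (hk z hz.1 hz.2).symm
    exact tendsto_nhds_unique h5 h6
  have b1 := hlim {x | f x < c} N₁ (fun x => F x - h (f x)) (G x₀) a₁ hN₁ ha₁ l₁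
    (hFc.sub (hhc.comp hf)).continuousAt (fun x hx hx' => by
      rw [← hG0 x hx]
      simp only [hG, if_pos hx'])
  have b2 := hlim {x | c < f x} N₁ (fun x => F x - (h (f x) - 1)) (H y₀) a₁ hN₁ ha₁ u₁
    (hFc.sub ((hhc.comp hf).sub continuous_const)).continuousAt (fun x hx hx' => by
      rw [← hH0 x hx]
      simp only [hH, if_pos hx'])
  have b3 := hlim {x | f x < c} N₂ (fun x => F x) (G x₀) a₂ hN₂ ha₂ l₂
    hFc.continuousAt (fun x hx hx' => by
      rw [← hG0 x hx]
      simp only [hG, if_neg (hdis x hx'), sub_zero])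
  have b4 := hlim {x | c < f x} N₂ (fun x => F x) (H y₀) a₂ hN₂ ha₂ u₂
    hFc.continuousAt (fun x hx hx' => by
      rw [← hH0 x hx]
      simp only [hH, if_neg (hdis x hx'), sub_zero])
  have b5 : h c = 1 / 2 := ramp_mid hd
  rw [hc₁, b5] at b1 b2
  linarith

end UNIC

theorem UNIC : Pool.Agent.PFlow.Stmt_UNIC := by
  intro f c e hf he hK h1 h2 hreg
  rw [IsPreconnected]
  intro u v hu hv hcov hsu hsv
  by_contra hn
  rw [Set.not_nonempty_iff_eq_empty] at hn
  set s : Set E3 := {x | f x = c} with hs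
  have hsc : IsCompact s := by
    apply hK.of_isClosed_subset (isClosed_eq hf continuous_const)
    intro x hx
    have hx' : f x = c := hx
    show |f x - c| ≤ e
    rw [hx', sub_self, abs_zero]
    exact he.le
  have hA1 : s ∩ u = s \ v := by
    ext x
    constructor
    · rintro ⟨hx, hxu⟩
      refine ⟨hx, fun hxv => ?_⟩
      have : x ∈ s ∩ (u ∩ v) := ⟨hx, hxu, hxv⟩
      rw [hn] at this
      exact this
    · rintro ⟨hx, hxv⟩
      exact ⟨hx, (hcov hx).resolve_right hxv⟩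
  have hA2 : s ∩ v = s \ u := by
    ext x
    constructor
    · rintro ⟨hx, hxv⟩
      refine ⟨hx, fun hxu => ?_⟩
      have : x ∈ s ∩ (u ∩ v) := ⟨hx, hxu, hxv⟩
      rw [hn] at this
      exact this
    · rintro ⟨hx, hxu⟩
      exact ⟨hx, (hcov hx).resolve_left hxu⟩
  have hc1 : IsCompact (s ∩ u) := by
    rw [hA1]
    exact hsc.diff hv
  have hc2 : IsCompact (s ∩ v) := by
    rw [hA2]
    exact hsc.diff hu
  have hdj : Disjoint (s ∩ u) (s ∩ v) := by
    rw [Set.disjoint_left]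
    rintro x ⟨hx, hxu⟩ ⟨_, hxv⟩
    have : x ∈ s ∩ (u ∩ v) := ⟨hx, hxu, hxv⟩
    rw [hn] at this
    exact this
  obtain ⟨N₁, N₂, hN₁, hN₂, hs1, hs2, hN⟩ := SeparatedNhds.of_isCompact_isCompact hc1 hc2 hdj
  -- the width of the band
  obtain ⟨d, hd, hband⟩ : ∃ d : ℝ, 0 < d ∧ ∀ x, |f x - c| ≤ d → x ∈ N₁ ∪ N₂ := by
    set T : Set E3 := {x | |f x - c| ≤ e} \ (N₁ ∪ N₂) with hT
    have hTc : IsCompact T := hK.diff (hN₁.union hN₂)
    rcases T.eq_empty_or_nonempty with hTe | hTn
    · refine ⟨e, he, fun x hx => ?_⟩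
      by_contra hx'
      have : x ∈ T := ⟨hx, hx'⟩
      rw [hTe] at this
      exact this
    · obtain ⟨x₀, hx₀, hmin⟩ := hTc.exists_isMinOn hTn
        (f := fun x => |f x - c|) ((hf.sub continuous_const).abs.continuousOn)
      have hpos : 0 < |f x₀ - c| := by
        rw [abs_pos, sub_ne_zero]
        intro h3
        have h4 : x₀ ∈ s := h3
        rcases hcov h4 with h5 | h5
        · exact hx₀.2 (Or.inl (hs1 ⟨h4, h5⟩))
        · exact hx₀.2 (Or.inr (hs2 ⟨h4, h5⟩))
      refine ⟨min e (|f x₀ - c| / 2), lt_min he (by linarith), fun x hx => ?_⟩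
      by_contra hx'
      have h3 : x ∈ T := ⟨hx.trans (min_le_left _ _), hx'⟩
      have h4 : |f x₀ - c| ≤ |f x - c| := hmin h3
      have h5 : |f x - c| ≤ |f x₀ - c| / 2 := hx.trans (min_le_right _ _)
      linarith
  obtain ⟨a₁, ha₁⟩ := hsu
  obtain ⟨a₂, ha₂⟩ := hsv
  have e1 : f a₁ = c := ha₁.1
  have e2 : f a₂ = c := ha₂.1
  have l1 := UNIC.mem_closure_lt (hreg a₁ e1).2
  have u1 := UNIC.mem_closure_gt (hreg a₁ e1).2
  have l2 := UNIC.mem_closure_lt (hreg a₂ e2).2
  have u2 := UNIC.mem_closure_gt (hreg a₂ e2).2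
  rw [e1] at l1 u1
  rw [e2] at l2 u2
  exact UNIC.core hf hd h1 h2 hN₁ hN₂ hN hband (hs1 ha₁) (hs2 ha₂) e1 l1 u1 l2 u2

end Pool.Agent.PFlow.GB


end

section

/-!
SM: regular levels of a `C¹` function are topologically regular.
-/

open MeasureTheory Filter Topology
open scoped ContDiff

namespace Pool.Agent.PFlow

open Pool.Agent.PenroseSph

namespace MSM

variable {V : Type} [NormedAddCommGroup V] [NormedSpace ℝ V]

/-- the cylinder -/
def cyl (z e : V) (l : V →L[ℝ] ℝ) (r s : ℝ) : Set V :=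
  {x | ‖x - z - l (x - z) • e‖ < r ∧ |l (x - z)| < s}

lemma cyl_neg (z e : V) (l : V →L[ℝ] ℝ) (r s : ℝ) : cyl z (-e) (-l) r s = cyl z e l r s := by
  ext x
  have h1 : (-l) (x - z) • (-e) = l (x - z) • e := by
    change (-(l (x - z))) • (-e) = _
    rw [smul_neg, neg_smul, neg_neg]
  have h2 : |(-l) (x - z)| = |l (x - z)| := by
    change |-(l (x - z))| = _
    rw [abs_neg]
  simp only [cyl, Set.mem_ofPred_eq, h1, h2]

lemma isOpen_cyl (z e : V) (l : V →L[ℝ] ℝ) (r s : ℝ) : IsOpen (cyl z e l r s) := by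
  have h1 : Continuous fun x : V => ‖x - z - l (x - z) • e‖ := by fun_prop
  have h2 : Continuous fun x : V => |l (x - z)| := by fun_prop
  exact (isOpen_lt h1 continuous_const).inter (isOpen_lt h2 continuous_const)

lemma mem_cyl_self {z e : V} {l : V →L[ℝ] ℝ} {r s : ℝ} (hr : 0 < r) (hs : 0 < s) :
    z ∈ cyl z e l r s := by
  simp [cyl, hr, hs]

lemma shift_fst {z e : V} {l : V →L[ℝ] ℝ} (he : l e = 1) (x : V) (t : ℝ) :
    x + t • e - z - l (x + t • e - z) • e = x - z - l (x - z) • e := by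
  have h1 : x + t • e - z = (x - z) + t • e := by abel
  rw [h1, map_add, map_smul, he, smul_eq_mul, mul_one, add_smul]
  abel

lemma shift_snd {z e : V} {l : V →L[ℝ] ℝ} (he : l e = 1) (x : V) (t : ℝ) :
    l (x + t • e - z) = l (x - z) + t := by
  have h1 : x + t • e - z = (x - z) + t • e := by abel
  rw [h1, map_add, map_smul, he, smul_eq_mul, mul_one]

lemma mem_shift {z e : V} {l : V →L[ℝ] ℝ} {r s : ℝ} (he : l e = 1) {x : V} {t : ℝ}
    (hx : x ∈ cyl z e l r s) (ht : |l (x - z) + t| < s) : x + t • e ∈ cyl z e l r s := by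
  refine ⟨?_, ?_⟩
  · rw [shift_fst he]
    exact hx.1
  · rw [shift_snd he]
    exact ht

lemma convex_top (z e : V) (l : V →L[ℝ] ℝ) (r s : ℝ) :
    Convex ℝ (cyl z e l r s ∩ {x | s / 2 < l (x - z)}) := by
  intro x hx y hy a b ha hb hab
  obtain ⟨⟨hx1, hx2⟩, hx3⟩ := hx
  obtain ⟨⟨hy1, hy2⟩, hy3⟩ := hy
  have hx3' : s / 2 < l (x - z) := hx3
  have hy3' : s / 2 < l (y - z) := hy3
  have e1 : a • x + b • y - z = a • (x - z) + b • (y - z) := by
    have : z = (a + b) • z := by rw [hab, one_smul]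
    nth_rewrite 1 [this]
    rw [smul_sub, smul_sub, add_smul]
    abel
  have e2 : l (a • x + b • y - z) = a * l (x - z) + b * l (y - z) := by
    rw [e1, map_add, map_smul, map_smul, smul_eq_mul, smul_eq_mul]
  have e3 : a • x + b • y - z - l (a • x + b • y - z) • e =
      a • (x - z - l (x - z) • e) + b • (y - z - l (y - z) • e) := by
    rw [e2, e1, add_smul, smul_sub a (x - z), smul_sub b (y - z), mul_smul, mul_smul]
    abel
  refine ⟨⟨?_, ?_⟩, ?_⟩
  · rw [e3]
    have := (convex_ball (0 : V) r) (x := x - z - l (x - z) • e) (by simpa using hx1)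
      (y := y - z - l (y - z) • e) (by simpa using hy1) ha hb hab
    simpa using this
  · rw [e2, abs_lt]
    rw [abs_lt] at hx2 hy2
    have h1 := (convex_Ioo (-s) s) (x := l (x - z)) ⟨hx2.1, hx2.2⟩ (y := l (y - z))
      ⟨hy2.1, hy2.2⟩ ha hb hab
    simpa using h1
  · change s / 2 < l (a • x + b • y - z)
    rw [e2]
    have h1 := (convex_Ioi (s / 2)) (x := l (x - z)) hx3' (y := l (y - z)) hy3' ha hb hab
    simpa using h1

lemma upper {W : V → ℝ} {z e : V} {l : V →L[ℝ] ℝ} {r s c : ℝ} (he : l e = 1) (hr : 0 < r)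
    (hs : 0 < s)
    (mono : ∀ x ∈ cyl z e l r s, ∀ t : ℝ, 0 ≤ t → x + t • e ∈ cyl z e l r s → W x ≤ W (x + t • e))
    (top : ∀ y, ‖y - z - (s / 2) • e‖ < r → c < W y) :
    IsPreconnected (cyl z e l r s ∩ {y | c < W y}) := by
  set H := cyl z e l r s ∩ {x | s / 2 < l (x - z)} with hH
  have hHW : H ⊆ cyl z e l r s ∩ {y | c < W y} := by
    rintro y ⟨hy, hy2⟩
    have hy2' : s / 2 < l (y - z) := hy2
    refine ⟨hy, ?_⟩
    have h0 : |l (y - z) + -(l (y - z) - s / 2)| < s := by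
      rw [show l (y - z) + -(l (y - z) - s / 2) = s / 2 by ring, abs_of_pos (by positivity)]
      linarith
    have h1 := mem_shift he hy h0
    have h2 := mono _ h1 (l (y - z) - s / 2) (by linarith) (by
      rw [add_assoc, ← add_smul]
      simpa using hy)
    rw [add_assoc, ← add_smul, neg_add_cancel, zero_smul, add_zero] at h2
    refine lt_of_lt_of_le (top _ ?_) h2
    have h3 : y + -(l (y - z) - s / 2) • e - z - (s / 2) • e = y - z - l (y - z) • e := by
      rw [neg_smul, sub_smul]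
      abel
    rw [h3]
    exact hy.1
  have hx0 : z + (3 * s / 4) • e ∈ H := by
    refine ⟨mem_shift he (mem_cyl_self hr hs) ?_, ?_⟩
    · rw [sub_self, map_zero, zero_add, abs_of_pos (by positivity)]
      linarith
    · change s / 2 < l (z + (3 * s / 4) • e - z)
      rw [shift_snd he, sub_self, map_zero, zero_add]
      linarith
  refine isPreconnected_of_forall (z + (3 * s / 4) • e) fun y hy => ?_
  by_cases hy2 : s / 2 < l (y - z)
  · exact ⟨H, hHW, hx0, ⟨hy.1, hy2⟩, (convex_top z e l r s).isPreconnected⟩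
  · push Not at hy2
    have hyl := hy.1.2
    rw [abs_lt] at hyl
    set T := 3 * s / 4 - l (y - z) with hT
    have hT0 : 0 ≤ T := by rw [hT]; linarith
    have hin : ∀ t : ℝ, 0 ≤ t → t ≤ T → y + t • e ∈ cyl z e l r s := by
      intro t h1 h2
      refine mem_shift he hy.1 ?_
      rw [abs_lt]
      constructor <;> linarith
    have hyH : y + T • e ∈ H := by
      refine ⟨hin T hT0 le_rfl, ?_⟩
      change s / 2 < l (y + T • e - z)
      rw [shift_snd he, hT]
      linarith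
    set S := segment ℝ y (y + T • e) with hS
    have hSsub : S ⊆ cyl z e l r s ∩ {y | c < W y} := by
      rintro w hw
      rw [hS, segment_eq_image'] at hw
      obtain ⟨θ, ⟨h1, h2⟩, rfl⟩ := hw
      have h3 : y + θ • (y + T • e - y) = y + (θ * T) • e := by
        rw [add_sub_cancel_left, smul_smul]
      change y + θ • (y + T • e - y) ∈ _
      rw [h3]
      have h4 : 0 ≤ θ * T := mul_nonneg h1 hT0
      have h5 : θ * T ≤ T := mul_le_of_le_one_left hT0 h2
      exact ⟨hin _ h4 h5, lt_of_lt_of_le hy.2 (mono _ hy.1 _ h4 (hin _ h4 h5))⟩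
    refine ⟨S ∪ H, Set.union_subset hSsub hHW, Or.inr hx0, Or.inl (left_mem_segment ℝ _ _), ?_⟩
    exact IsPreconnected.union (y + T • e) (right_mem_segment ℝ _ _) hyH
      (convex_segment _ _).isPreconnected (convex_top z e l r s).isPreconnected

lemma strict {W : V → ℝ} {z e : V} {l : V →L[ℝ] ℝ} {r s : ℝ} (he : l e = 1)
    (hd : ∀ y ∈ cyl z e l r s, DifferentiableAt ℝ W y ∧ 0 < fderiv ℝ W y e) :
    ∀ x ∈ cyl z e l r s, ∀ t : ℝ, 0 < t → x + t • e ∈ cyl z e l r s → W x < W (x + t • e) := by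
  intro x hx t ht hxt
  have hin : ∀ u ∈ Set.Icc (0 : ℝ) t, x + u • e ∈ cyl z e l r s := by
    intro u hu
    refine mem_shift he hx ?_
    have h1 := hx.2
    have h2 := hxt.2
    rw [shift_snd he] at h2
    rw [abs_lt] at h1 h2 ⊢
    constructor
    · linarith [hu.1]
    · linarith [hu.2]
  have hder : ∀ u ∈ Set.Icc (0 : ℝ) t,
      HasDerivAt (fun u : ℝ => W (x + u • e)) (fderiv ℝ W (x + u • e) e) u := by
    intro u hu
    have h1 := (hd _ (hin u hu)).1.hasFDerivAt
    have h2 : HasDerivAt (fun u : ℝ => x + u • e) e u := by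
      have := ((hasDerivAt_id u).smul_const e).const_add x
      simpa using this
    exact h1.comp_hasDerivAt u h2
  have hmono : StrictMonoOn (fun u : ℝ => W (x + u • e)) (Set.Icc 0 t) := by
    refine strictMonoOn_of_deriv_pos (convex_Icc 0 t) ?_ ?_
    · intro u hu
      exact (hder u hu).continuousAt.continuousWithinAt
    · intro u hu
      rw [interior_Icc] at hu
      have hu' := Set.Ioo_subset_Icc_self hu
      rw [(hder u hu').deriv]
      exact (hd _ (hin u hu')).2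
  have := hmono (Set.left_mem_Icc.mpr ht.le) (Set.right_mem_Icc.mpr ht.le) ht
  simpa using this

lemma near_closure {W : V → ℝ} {z e : V} {l : V →L[ℝ] ℝ} {r s : ℝ} (he : l e = 1) (hr : 0 < r)
    (hs : 0 < s)
    (hst : ∀ x ∈ cyl z e l r s, ∀ t : ℝ, 0 < t → x + t • e ∈ cyl z e l r s →
      W x < W (x + t • e)) : z ∈ closure {y | W z < W y} := by
  have h1 : Tendsto (fun t : ℝ => z + t • e) (𝓝[>] 0) (𝓝 z) := by
    have h2 : Tendsto (fun t : ℝ => z + t • e) (𝓝 0) (𝓝 (z + (0 : ℝ) • e)) := by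
      apply Continuous.tendsto
      fun_prop
    rw [zero_smul, add_zero] at h2
    exact h2.mono_left nhdsWithin_le_nhds
  refine mem_closure_of_tendsto h1 ?_
  have h3 : ∀ᶠ t : ℝ in 𝓝[>] 0, t ∈ Set.Ioo 0 s := Ioo_mem_nhdsGT hs
  filter_upwards [h3] with t ht
  have hz := mem_cyl_self (z := z) (e := e) (l := l) hr hs
  refine hst z hz t ht.1 (mem_shift he hz ?_)
  rw [sub_self, map_zero, zero_add, abs_of_pos ht.1]
  exact ht.2

lemma key {W : V → ℝ} {z e : V} {l : V →L[ℝ] ℝ} (he : l e = 1) (hc : Continuous W)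
    (hd : ∀ᶠ y in 𝓝 z, DifferentiableAt ℝ W y ∧ 0 < fderiv ℝ W y e) (O' : Set V)
    (hO' : O' ∈ 𝓝 z) :
    ∃ O : Set V, IsOpen O ∧ z ∈ O ∧ O ⊆ O' ∧ IsPreconnected (O ∩ {y | W z < W y}) ∧
      IsPreconnected (O ∩ {y | W y < W z}) ∧ z ∈ closure {y | W z < W y} ∧
      z ∈ closure {y | W y < W z} := by
  obtain ⟨δ, hδ, hball⟩ := Metric.mem_nhds_iff.mp (Filter.inter_mem hO' hd)
  set s := δ / (2 * (‖e‖ + 1)) with hs_def
  have hne : 0 ≤ ‖e‖ := norm_nonneg e
  have hs : 0 < s := by positivity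
  have hse : s * ‖e‖ ≤ δ / 2 := by
    have h1 : s * (2 * (‖e‖ + 1)) = δ := by
      rw [hs_def]
      field_simp
    nlinarith
  -- the cylinders of radius at most `δ / 2` are good
  have hcyl : ∀ r ≤ δ / 2, cyl z e l r s ⊆ Metric.ball z δ := by
    intro r hr x hx
    rw [Metric.mem_ball, dist_eq_norm]
    have h1 : x - z = (x - z - l (x - z) • e) + l (x - z) • e := by abel
    calc ‖x - z‖ = ‖(x - z - l (x - z) • e) + l (x - z) • e‖ := by rw [← h1]
      _ ≤ ‖x - z - l (x - z) • e‖ + ‖l (x - z) • e‖ := norm_add_le _ _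
      _ < r + s * ‖e‖ := by
          refine add_lt_add_of_lt_of_le hx.1 ?_
          rw [norm_smul, Real.norm_eq_abs]
          exact mul_le_mul_of_nonneg_right hx.2.le hne
      _ ≤ δ := by linarith
  have hst0 := strict (W := W) (z := z) (r := δ / 2) (s := s) he
    (fun y hy => (hball (hcyl _ le_rfl hy)).2)
  have hz0 := mem_cyl_self (z := z) (e := e) (l := l) (r := δ / 2) (s := s) (by positivity) hs
  have hhalf : z + (s / 2) • e ∈ cyl z e l (δ / 2) s := by
    refine mem_shift he hz0 ?_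
    rw [sub_self, map_zero, zero_add, abs_of_pos (by positivity)]
    linarith
  have hhalf' : z + (-(s / 2)) • e ∈ cyl z e l (δ / 2) s := by
    refine mem_shift he hz0 ?_
    rw [sub_self, map_zero, zero_add, abs_neg, abs_of_pos (by positivity)]
    linarith
  have hW1 : W z < W (z + (s / 2) • e) := hst0 z hz0 _ (by positivity) hhalf
  have hW2 : W (z + (-(s / 2)) • e) < W z := by
    have := hst0 _ hhalf' (s / 2) (by positivity) (by
      rw [add_assoc, ← add_smul]
      simpa using hz0)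
    rw [add_assoc, ← add_smul, neg_add_cancel, zero_smul, add_zero] at this
    exact this
  obtain ⟨r1, hr1, hb1⟩ := Metric.mem_nhds_iff.mp
    (hc.continuousAt.preimage_mem_nhds (Ioi_mem_nhds hW1))
  obtain ⟨r2, hr2, hb2⟩ := Metric.mem_nhds_iff.mp
    (hc.continuousAt.preimage_mem_nhds (Iio_mem_nhds hW2))
  set r := min (δ / 2) (min r1 r2) with hr_def
  have hr : 0 < r := by positivity
  have hrδ : r ≤ δ / 2 := min_le_left _ _
  have hrr1 : r ≤ r1 := (min_le_right _ _).trans (min_le_left _ _)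
  have hrr2 : r ≤ r2 := (min_le_right _ _).trans (min_le_right _ _)
  have hst := strict (W := W) (z := z) (r := r) (s := s) he
    (fun y hy => (hball (hcyl _ hrδ hy)).2)
  have hmono : ∀ x ∈ cyl z e l r s, ∀ t : ℝ, 0 ≤ t → x + t • e ∈ cyl z e l r s →
      W x ≤ W (x + t • e) := by
    intro x hx t ht hxt
    rcases ht.eq_or_lt with h | h
    · rw [← h, zero_smul, add_zero]
    · exact (hst x hx t h hxt).le
  have htop : ∀ y, ‖y - z - (s / 2) • e‖ < r → W z < W y := by
    intro y hy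
    have : y ∈ Metric.ball (z + (s / 2) • e) r1 := by
      rw [Metric.mem_ball, dist_eq_norm, ← sub_sub]
      exact hy.trans_le hrr1
    exact hb1 this
  have he' : (-l) (-e) = 1 := by simp [he]
  have hst' : ∀ x ∈ cyl z (-e) (-l) r s, ∀ t : ℝ, 0 < t → x + t • (-e) ∈ cyl z (-e) (-l) r s →
      (-W) x < (-W) (x + t • (-e)) := by
    intro x hx t ht hxt
    rw [cyl_neg] at hx hxt
    have := hst _ hxt t ht (by
      rw [add_assoc, ← smul_add, neg_add_cancel, smul_zero, add_zero]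
      exact hx)
    rw [add_assoc, ← smul_add, neg_add_cancel, smul_zero, add_zero] at this
    simpa using this
  have hmono' : ∀ x ∈ cyl z (-e) (-l) r s, ∀ t : ℝ, 0 ≤ t →
      x + t • (-e) ∈ cyl z (-e) (-l) r s → (-W) x ≤ (-W) (x + t • (-e)) := by
    intro x hx t ht hxt
    rcases ht.eq_or_lt with h | h
    · rw [← h, zero_smul, add_zero]
    · exact (hst' x hx t h hxt).le
  have htop' : ∀ y, ‖y - z - (s / 2) • (-e)‖ < r → -W z < (-W) y := by
    intro y hy
    have : y ∈ Metric.ball (z + (-(s / 2)) • e) r2 := by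
      rw [Metric.mem_ball, dist_eq_norm, ← sub_sub, neg_smul, ← smul_neg]
      exact hy.trans_le hrr2
    have h1 : W y < W z := hb2 this
    simpa using h1
  refine ⟨cyl z e l r s, isOpen_cyl _ _ _ _ _, mem_cyl_self hr hs,
    fun x hx => (hball (hcyl r hrδ hx)).1, upper he hr hs hmono htop, ?_,
    near_closure he hr hs hst, ?_⟩
  · have h1 := upper (W := -W) (c := -W z) he' hr hs hmono' htop'
    rw [cyl_neg] at h1
    have h2 : {y | -W z < (-W) y} = {y | W y < W z} := by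
      ext y
      simp
    rw [h2] at h1
    exact h1
  · have h1 := near_closure (W := -W) he' hr hs hst'
    have h2 : {y | (-W) z < (-W) y} = {y | W y < W z} := by
      ext y
      simp
    rw [h2] at h1
    exact h1

end MSM

theorem SM : Stmt_SM := by
  intro W c hc hK hreg
  refine ⟨hK, ?_⟩
  intro z hz O' hO' hzO'
  obtain ⟨hW, hg⟩ := hreg z hz
  obtain ⟨i, hi⟩ : ∃ i, grad W z i ≠ 0 := by
    by_contra hcon
    push Not at hcon
    exact hg (funext hcon)
  have hi' : fderiv ℝ W z (EuclideanSpace.single i 1) ≠ 0 := hi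
  obtain ⟨e, he⟩ : ∃ e : E3, 0 < fderiv ℝ W z e := by
    rcases lt_or_gt_of_ne hi' with h | h
    · exact ⟨-EuclideanSpace.single i 1, by rw [map_neg]; linarith⟩
    · exact ⟨EuclideanSpace.single i 1, h⟩
  have hl : ((fderiv ℝ W z e)⁻¹ • fderiv ℝ W z) e = 1 := by
    rw [smul_apply, smul_eq_mul, inv_mul_cancel₀ he.ne']
  have hd : ∀ᶠ y in 𝓝 z, DifferentiableAt ℝ W y ∧ 0 < fderiv ℝ W y e := by
    have h1 : ∀ᶠ y in 𝓝 z, ContDiffAt ℝ 1 W y := hW.eventually (by simp)
    have h2 : ContinuousAt (fun y => fderiv ℝ W y e) z := by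
      have h3 : ContDiffAt ℝ 0 (fderiv ℝ W) z := hW.fderiv_right (by simp)
      exact h3.continuousAt.clm_apply continuousAt_const
    have h4 : ∀ᶠ y in 𝓝 z, 0 < fderiv ℝ W y e := h2.eventually (Ioi_mem_nhds he)
    filter_upwards [h1, h4] with y hy1 hy2
    exact ⟨hy1.differentiableAt (by simp), hy2⟩
  have := MSM.key hl hc hd O' (hO'.mem_nhds hzO')
  rw [hz] at this
  exact this

end Pool.Agent.PFlow


end

section

/-!
# Components at a regular level are stable (module FD1)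
-/

open Filter Topology

namespace Pool.Agent.PFlow

open Pool.Agent.PenroseSph

theorem FD1 : Stmt_FD1 := by
  intro W c y z hW hR hy hz hn
  obtain ⟨hK, hreg⟩ := hR
  set A : Set E3 := {x | c < W x} with hA
  have hAo : IsOpen A := isOpen_lt continuous_const hW
  set U : Set E3 := connectedComponentIn A y with hU
  have hyA : y ∈ A := hy
  have hUo : IsOpen U := hAo.connectedComponentIn
  have hUA : U ⊆ A := connectedComponentIn_subset A y
  have hUc : IsPreconnected U := isPreconnected_connectedComponentIn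
  have hyU : y ∈ U := mem_connectedComponentIn hyA
  have hzU : z ∉ U := fun h => hn ⟨U, hUA, hUc, hyU, h⟩
  -- maximality of the component
  have hmax : ∀ S : Set E3, IsPreconnected S → S ⊆ A → (S ∩ U).Nonempty → S ⊆ U := by
    rintro S hS hSA ⟨x, hxS, hxU⟩
    have h1 : S ⊆ connectedComponentIn A x := hS.subset_connectedComponentIn hxS hSA
    have h2 : connectedComponentIn A y = connectedComponentIn A x := connectedComponentIn_eq hxU
    rw [← h2] at h1
    exact h1
  -- the frontier of the component lies in the level set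
  have hcl : closure U ⊆ {x | c ≤ W x} := by
    apply closure_minimal _ (isClosed_le continuous_const hW)
    intro x hx
    have h1 : c < W x := hUA hx
    exact h1.le
  have hclU : ∀ x ∈ closure U, x ∉ U → W x = c := by
    intro x hx hxU
    by_contra hne
    have hxA : x ∈ A := lt_of_le_of_ne (hcl hx) (Ne.symm hne)
    have hxo : IsOpen (connectedComponentIn A x) := hAo.connectedComponentIn
    have hxm : x ∈ connectedComponentIn A x := mem_connectedComponentIn hxA
    obtain ⟨v, hv1, hv2⟩ := mem_closure_iff.mp hx _ hxo hxm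
    exact hxU (hmax _ isPreconnected_connectedComponentIn (connectedComponentIn_subset A x)
      ⟨v, hv1, hv2⟩ hxm)
  have hFr : IsCompact (closure U \ U) := by
    apply hK.of_isClosed_subset (isClosed_closure.sdiff hUo)
    rintro x ⟨hx1, hx2⟩
    exact hclU x hx1 hx2
  -- neighbourhoods
  have hO : ∀ x ∈ closure U \ U, ∃ O : Set E3, IsOpen O ∧ x ∈ O ∧ z ∉ O ∧ O ∩ A ⊆ U := by
    rintro x ⟨hx1, hx2⟩
    have hxc := hclU x hx1 hx2
    have hxz : x ∈ ({z}ᶜ : Set E3) := by
      intro h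
      have h' : x = z := h
      rw [h'] at hxc
      linarith
    obtain ⟨O, hO1, hO2, hO3, hO4, -⟩ := hreg x hxc {z}ᶜ isOpen_compl_singleton hxz
    refine ⟨O, hO1, hO2, fun h => hO3 h rfl, ?_⟩
    obtain ⟨v, hv1, hv2⟩ := mem_closure_iff.mp hx1 _ hO1 hO2
    exact hmax _ hO4 Set.inter_subset_right ⟨v, ⟨hv1, hUA hv2⟩, hv2⟩
  choose! O hO1 hO2 hO3 hO4 using hO
  set N : Set E3 := ⋃ x ∈ closure U \ U, O x with hN
  have hNo : IsOpen N := isOpen_biUnion fun x hx => hO1 x hx
  have hFN : closure U \ U ⊆ N := by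
    intro x hx
    exact Set.mem_biUnion hx (hO2 x hx)
  have hzN : z ∉ N := by
    intro h
    obtain ⟨x, hx, hxz⟩ := Set.mem_iUnion₂.mp h
    exact hO3 x hx hxz
  have hNA : N ∩ A ⊆ U := by
    rintro v ⟨hv1, hv2⟩
    obtain ⟨x, hx, hxv⟩ := Set.mem_iUnion₂.mp hv1
    exact hO4 x hx ⟨hxv, hv2⟩
  obtain ⟨N', hN'o, hFN', hclN', hcomp⟩ := exists_open_between_and_isCompact_closure hFr hNo hFN
  -- on the frontier of the smaller neighbourhood
  have hlt : ∀ x ∈ (closure N' \ N') \ U, W x < c := by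
    rintro x ⟨⟨hx1, hx2⟩, hx3⟩
    have hxN : x ∈ N := hclN' hx1
    have hle : W x ≤ c := by
      by_contra h
      exact hx3 (hNA ⟨hxN, not_le.mp h⟩)
    refine lt_of_le_of_ne hle ?_
    intro heq
    obtain ⟨-, -, -, -, -, -, hc1, -⟩ := hreg x heq Set.univ isOpen_univ (Set.mem_univ x)
    have hxU : x ∈ closure U := by
      rw [mem_closure_iff]
      intro P hP hxP
      obtain ⟨v, hv1, hv2⟩ := mem_closure_iff.mp hc1 _ (hP.inter hNo) ⟨hxP, hxN⟩
      exact ⟨v, hv1.1, hNA ⟨hv1.2, hv2⟩⟩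
    exact hx2 (hFN' ⟨hxU, hx3⟩)
  have hcompF : IsCompact ((closure N' \ N') \ U) := by
    apply hcomp.of_isClosed_subset ((isClosed_closure.sdiff hN'o).sdiff hUo)
    intro x hx
    exact hx.1.1
  obtain ⟨e, he, hle⟩ : ∃ e > 0, ∀ x ∈ (closure N' \ N') \ U, W x ≤ c - e := by
    rcases Set.eq_empty_or_nonempty ((closure N' \ N') \ U) with h | h
    · refine ⟨1, one_pos, ?_⟩
      intro x hx
      rw [h] at hx
      exact absurd hx (Set.notMem_empty x)
    · obtain ⟨m, hm1, hm2⟩ := hcompF.exists_isMaxOn h hW.continuousOn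
      refine ⟨c - W m, sub_pos.mpr (hlt m hm1), ?_⟩
      intro x hx
      have h1 : W x ≤ W m := hm2 hx
      linarith
  refine ⟨e, he, ?_⟩
  rintro ⟨S, hSB, hSc, hyS, hzS⟩
  have hBo : IsOpen {x | c - e < W x} := isOpen_lt continuous_const hW
  set V : Set E3 := U ∪ (N' ∩ {x | c - e < W x}) with hV
  have hVo : IsOpen V := hUo.union (hN'o.inter hBo)
  have hVc : ∀ x ∈ closure V, c - e < W x → x ∈ V := by
    intro x hx hxB
    rw [hV, closure_union] at hx
    rcases hx with hx | hx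
    · by_cases hxU : x ∈ U
      · exact Or.inl hxU
      · exact Or.inr ⟨hFN' ⟨hx, hxU⟩, hxB⟩
    · have hxN : x ∈ closure N' := closure_mono Set.inter_subset_left hx
      by_cases hxN' : x ∈ N'
      · exact Or.inr ⟨hxN', hxB⟩
      · by_cases hxU : x ∈ U
        · exact Or.inl hxU
        · exact absurd (hle x ⟨⟨hxN, hxN'⟩, hxU⟩) (not_le.mpr hxB)
  have hzV : z ∉ V := by
    rintro (h | h)
    · exact hzU h
    · exact hzN (hclN' (subset_closure h.1))
  have hzcV : z ∉ closure V := fun h => hzV (hVc z h (hSB hzS))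
  obtain ⟨v, -, hv1, hv2⟩ := hSc V (closure V)ᶜ hVo isClosed_closure.isOpen_compl
    (fun x hx => by
      by_cases hxV : x ∈ V
      · exact Or.inl hxV
      · exact Or.inr fun h => hxV (hVc x h (hSB hx)))
    ⟨y, hyS, Or.inl hyU⟩ ⟨z, hzS, hzcV⟩
  exact hv2 (subset_closure hv1)

end Pool.Agent.PFlow


end

section

/-!
# FX: a function without islands is not changed by filling
-/

open MeasureTheory Filter Topology
open scoped ContDiff

namespace Pool.Agent.PFlow

open Pool.Agent.PenroseSph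

namespace MFX

/-- Connected components of open sets. -/
lemma comp_props (P : Set E3) (hP : IsOpen P) {y : E3} (hy : y ∈ P) :
    IsOpen (connectedComponentIn P y) ∧ IsPreconnected (connectedComponentIn P y) ∧
      y ∈ connectedComponentIn P y ∧ connectedComponentIn P y ⊆ P ∧
      ∀ y' ∈ frontier (connectedComponentIn P y), y' ∉ P := by
  have h1 : IsOpen (connectedComponentIn P y) := hP.connectedComponentIn
  refine ⟨h1, isPreconnected_connectedComponentIn, mem_connectedComponentIn hy,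
    connectedComponentIn_subset P y, ?_⟩
  intro y' hy' hP'
  have h2 : y' ∈ closure (connectedComponentIn P y) := frontier_subset_closure hy'
  have h3 : y' ∉ connectedComponentIn P y := by
    intro h4
    rw [h1.frontier_eq] at hy'
    exact hy'.2 h4
  have h4 : IsPreconnected (insert y' (connectedComponentIn P y)) := by
    refine isPreconnected_connectedComponentIn.subset_closure (Set.subset_insert _ _) ?_
    exact Set.insert_subset h2 subset_closure
  have h5 := h4.subset_connectedComponentIn (F := P) (x := y)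
    (Set.mem_insert_of_mem _ (mem_connectedComponentIn hy))
    (Set.insert_subset hP' (connectedComponentIn_subset P y))
  exact h3 (h5 (Set.mem_insert _ _))

/-- A preconnected set which meets the component lies in it. -/
lemma comp_join (P Q : Set E3) {y x : E3} (hQ : IsPreconnected Q) (hQP : Q ⊆ P)
    (hx : x ∈ connectedComponentIn P y) (hxQ : x ∈ Q) : Q ⊆ connectedComponentIn P y := by
  rw [connectedComponentIn_eq hx]
  exact hQ.subset_connectedComponentIn hxQ hQP

/-- The exterior of a ball is preconnected. -/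
lemma ext_preconnected (r : ℝ) (hr : 0 < r) : IsPreconnected {x : E3 | r ≤ ‖x‖} := by
  have hrank : 1 < Module.rank ℝ E3 := by
    have : Module.finrank ℝ E3 = 3 := by simp
    rw [← Module.finrank_eq_rank, this]
    norm_num
  have h1 : IsPreconnected ((Metric.sphere (0 : E3) 1) ×ˢ (Set.Ici r)) :=
    (isPreconnected_sphere hrank 0 1).prod isPreconnected_Ici
  have h2 : {x : E3 | r ≤ ‖x‖} =
      (fun p : E3 × ℝ => p.2 • p.1) '' ((Metric.sphere (0 : E3) 1) ×ˢ (Set.Ici r)) := by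
    ext x
    constructor
    · intro hx
      have hx1 : r ≤ ‖x‖ := hx
      have hx0 : ‖x‖ ≠ 0 := (lt_of_lt_of_le hr hx1).ne'
      refine ⟨(‖x‖⁻¹ • x, ‖x‖), ⟨?_, hx1⟩, ?_⟩
      · show ‖x‖⁻¹ • x ∈ Metric.sphere (0 : E3) 1
        rw [mem_sphere_zero_iff_norm, norm_smul, norm_inv, norm_norm, inv_mul_cancel₀ hx0]
      · show ‖x‖ • (‖x‖⁻¹ • x) = x
        rw [smul_smul, mul_inv_cancel₀ hx0, one_smul]
    · rintro ⟨⟨u, t⟩, ⟨hu, ht⟩, rfl⟩
      have hu1 : ‖u‖ = 1 := mem_sphere_zero_iff_norm.mp hu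
      have ht1 : r ≤ t := ht
      show r ≤ ‖t • u‖
      rw [norm_smul, hu1, mul_one, Real.norm_eq_abs, abs_of_nonneg (hr.le.trans ht1)]
      exact ht1
  rw [h2]
  exact h1.image _ (by fun_prop)

section
variable {a b a' b' s₀ s₁ : ℝ} {w : E3 → ℝ}

lemma trW_ann (h1 : a < a') (h3 : b' < b) (hs : s₀ < s₁)
    (hi : ∀ x : E3, a < ‖x‖ → ‖x‖ ≤ a' → w x ≤ s₀)
    (ho : ∀ x : E3, b' ≤ ‖x‖ → ‖x‖ < b → s₁ ≤ w x) {x : E3} (hx : x ∈ Ann a b) :
    trW a' b' s₀ s₁ w x = max s₀ (min s₁ (w x)) := by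
  unfold trW
  split_ifs with h4 h5
  · have := hi x hx.1 h4
    rw [min_eq_right (this.trans hs.le), max_eq_left this]
  · have := ho x h5 hx.2
    rw [min_eq_left this, max_eq_right hs.le]
  · rfl

lemma trW_inner {x : E3} (hx : ‖x‖ ≤ a') : trW a' b' s₀ s₁ w x = s₀ := by
  unfold trW
  rw [if_pos hx]

lemma trW_outer (h2 : a' < b') {x : E3} (hx : b' ≤ ‖x‖) : trW a' b' s₀ s₁ w x = s₁ := by
  unfold trW
  rw [if_neg (by linarith), if_pos hx]

lemma isOpen_ann : IsOpen (Ann a b) :=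
  (isOpen_lt continuous_const continuous_norm).inter (isOpen_lt continuous_norm continuous_const)

lemma trunc_trW (h0 : 0 < a) (h1 : a < a') (h2 : a' < b') (h3 : b' < b) (hs : s₀ < s₁)
    (hw : ContinuousOn w (Ann a b))
    (hi : ∀ x : E3, a < ‖x‖ → ‖x‖ ≤ a' → w x ≤ s₀)
    (ho : ∀ x : E3, b' ≤ ‖x‖ → ‖x‖ < b → s₁ ≤ w x) :
    Trunc a' b' s₀ s₁ (trW a' b' s₀ s₁ w) := by
  refine ⟨by linarith, h2, hs, ?_, ?_, ?_, fun x hx => trW_inner hx, fun x hx => trW_outer h2 hx⟩
  · rw [continuous_iff_continuousAt]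
    intro x
    by_cases c1 : ‖x‖ < a'
    · have h4 : (fun _ => s₀) =ᶠ[𝓝 x] trW a' b' s₀ s₁ w := by
        filter_upwards [(isOpen_lt continuous_norm continuous_const).mem_nhds c1] with z hz
        exact (trW_inner (le_of_lt hz)).symm
      exact continuousAt_const.congr h4
    · by_cases c2 : b' < ‖x‖
      · have h4 : (fun _ => s₁) =ᶠ[𝓝 x] trW a' b' s₀ s₁ w := by
          filter_upwards [(isOpen_lt continuous_const continuous_norm).mem_nhds c2] with z hz
          exact (trW_outer h2 (le_of_lt hz)).symm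
        exact continuousAt_const.congr h4
      · have hx : x ∈ Ann a b := ⟨by push Not at c1; linarith, by push Not at c2; linarith⟩
        have h4 : (fun z => max s₀ (min s₁ (w z))) =ᶠ[𝓝 x] trW a' b' s₀ s₁ w := by
          filter_upwards [isOpen_ann.mem_nhds hx] with z hz
          exact (trW_ann h1 h3 hs hi ho hz).symm
        have h5 : ContinuousAt w x := hw.continuousAt (isOpen_ann.mem_nhds hx)
        have h6 : ContinuousAt (fun z => max s₀ (min s₁ (w z))) x :=
          continuousAt_const.max (continuousAt_const.min h5)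
        exact h6.congr h4
  · intro x
    unfold trW
    split_ifs
    · exact le_refl _
    · exact hs.le
    · exact le_max_left _ _
  · intro x
    unfold trW
    split_ifs
    · exact hs.le
    · exact le_refl _
    · exact max_le hs.le (min_le_left _ _)

/-- closures inside the annulus -/
lemma closure_ann (h1 : a < a') (h3 : b' < b) {D : Set E3}
    (hD : ∀ x ∈ D, a' ≤ ‖x‖ ∧ ‖x‖ ≤ b') : IsCompact (closure D) ∧ closure D ⊆ Ann a b := by
  have h4 : closure D ⊆ {x : E3 | a' ≤ ‖x‖ ∧ ‖x‖ ≤ b'} := by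
    refine closure_minimal hD ?_
    exact (isClosed_le continuous_const continuous_norm).inter
      (isClosed_le continuous_norm continuous_const)
  refine ⟨?_, fun x hx => ⟨?_, ?_⟩⟩
  · refine (isCompact_closedBall (0 : E3) b').of_isClosed_subset isClosed_closure ?_
    intro x hx
    rw [mem_closedBall_zero_iff]
    exact (h4 hx).2
  · exact lt_of_lt_of_le h1 (h4 hx).1
  · exact lt_of_le_of_lt (h4 hx).2 h3

/-- Superlevel sets are connected to the outside. -/
lemma conn_outer (h0 : 0 < a) (h1 : a < a') (h2 : a' < b') (h3 : b' < b) (hs : s₀ < s₁)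
    (hw : ContinuousOn w (Ann a b)) (hn : NoIsland (Ann a b) w)
    (hi : ∀ x : E3, a < ‖x‖ → ‖x‖ ≤ a' → w x ≤ s₀)
    (ho : ∀ x : E3, b' ≤ ‖x‖ → ‖x‖ < b → s₁ ≤ w x) {z₁ : E3} (hz : b' ≤ ‖z₁‖) {c : ℝ}
    (hc : s₀ ≤ c) {y : E3} (hy : c < trW a' b' s₀ s₁ w y) :
    Conn {z | c ≤ trW a' b' s₀ s₁ w z} y z₁ := by
  have hT := trunc_trW h0 h1 h2 h3 hs hw hi ho
  have hcs : c < s₁ := lt_of_lt_of_le hy (hT.upper y)
  have hP : IsOpen {z | c < trW a' b' s₀ s₁ w z} := isOpen_lt continuous_const hT.cont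
  obtain ⟨d1, d2, d3, d4, d5⟩ := comp_props _ hP hy
  have hO : {x : E3 | b' ≤ ‖x‖} ⊆ {z | c < trW a' b' s₀ s₁ w z} := by
    intro x hx
    show c < trW a' b' s₀ s₁ w x
    rw [trW_outer h2 hx]
    exact hcs
  have hmain : ∃ x ∈ connectedComponentIn {z | c < trW a' b' s₀ s₁ w z} y, b' ≤ ‖x‖ := by
    by_contra hcon
    push Not at hcon
    have hD : ∀ x ∈ connectedComponentIn {z | c < trW a' b' s₀ s₁ w z} y,
        a' ≤ ‖x‖ ∧ ‖x‖ ≤ b' := by
      intro x hx
      refine ⟨?_, (hcon x hx).le⟩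
      by_contra h4
      push Not at h4
      have h5 : c < trW a' b' s₀ s₁ w x := d4 hx
      rw [trW_inner h4.le] at h5
      linarith
    obtain ⟨k1, k2⟩ := closure_ann h1 h3 hD
    obtain ⟨⟨y', hy', hwy⟩, _⟩ := hn _ d1 k1 k2 y d3
    have h6 : ¬ c < trW a' b' s₀ s₁ w y' := d5 y' hy'
    have h7 : y' ∈ Ann a b := k2 (frontier_subset_closure hy')
    have h8 : y ∈ Ann a b := k2 (subset_closure d3)
    apply h6
    rw [trW_ann h1 h3 hs hi ho h7]
    rw [trW_ann h1 h3 hs hi ho h8] at hy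
    exact lt_of_lt_of_le hy (max_le_max_left _ (min_le_min_left _ hwy))
  obtain ⟨x, hx, hxb⟩ := hmain
  have h9 := comp_join _ _ (ext_preconnected b' (by linarith)) hO hx hxb
  exact ⟨_, d4.trans (fun z (hz : c < trW a' b' s₀ s₁ w z) => le_of_lt hz), d2, d3, h9 hz⟩

/-- Sublevel sets are connected to the origin. -/
lemma conn_inner (h0 : 0 < a) (h1 : a < a') (h2 : a' < b') (h3 : b' < b) (hs : s₀ < s₁)
    (hw : ContinuousOn w (Ann a b)) (hn : NoIsland (Ann a b) w)
    (hi : ∀ x : E3, a < ‖x‖ → ‖x‖ ≤ a' → w x ≤ s₀)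
    (ho : ∀ x : E3, b' ≤ ‖x‖ → ‖x‖ < b → s₁ ≤ w x) {c : ℝ}
    (hc : c ≤ s₁) {y : E3} (hy : trW a' b' s₀ s₁ w y < c) :
    Conn {z | trW a' b' s₀ s₁ w z ≤ c} y 0 := by
  have hT := trunc_trW h0 h1 h2 h3 hs hw hi ho
  have hcs : s₀ < c := lt_of_le_of_lt (hT.lower y) hy
  have hP : IsOpen {z | trW a' b' s₀ s₁ w z < c} := isOpen_lt hT.cont continuous_const
  obtain ⟨d1, d2, d3, d4, d5⟩ := comp_props _ hP hy
  have hO : Metric.closedBall (0 : E3) a' ⊆ {z | trW a' b' s₀ s₁ w z < c} := by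
    intro x hx
    show trW a' b' s₀ s₁ w x < c
    rw [trW_inner (mem_closedBall_zero_iff.mp hx)]
    exact hcs
  have hmain : ∃ x ∈ connectedComponentIn {z | trW a' b' s₀ s₁ w z < c} y, ‖x‖ ≤ a' := by
    by_contra hcon
    push Not at hcon
    have hD : ∀ x ∈ connectedComponentIn {z | trW a' b' s₀ s₁ w z < c} y,
        a' ≤ ‖x‖ ∧ ‖x‖ ≤ b' := by
      intro x hx
      refine ⟨(hcon x hx).le, ?_⟩
      by_contra h4
      push Not at h4
      have h5 : trW a' b' s₀ s₁ w x < c := d4 hx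
      rw [trW_outer h2 h4.le] at h5
      linarith
    obtain ⟨k1, k2⟩ := closure_ann h1 h3 hD
    obtain ⟨_, ⟨y', hy', hwy⟩⟩ := hn _ d1 k1 k2 y d3
    have h6 : ¬ trW a' b' s₀ s₁ w y' < c := d5 y' hy'
    have h7 : y' ∈ Ann a b := k2 (frontier_subset_closure hy')
    have h8 : y ∈ Ann a b := k2 (subset_closure d3)
    apply h6
    rw [trW_ann h1 h3 hs hi ho h7]
    rw [trW_ann h1 h3 hs hi ho h8] at hy
    exact lt_of_le_of_lt (max_le_max_left _ (min_le_min_left _ hwy)) hy
  obtain ⟨x, hx, hxb⟩ := hmain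
  have h9 := comp_join _ _ (convex_closedBall (0 : E3) a').isPreconnected hO hx
    (mem_closedBall_zero_iff.mpr hxb)
  exact ⟨_, d4.trans (fun z (hz : trW a' b' s₀ s₁ w z < c) => le_of_lt hz), d2, d3,
    h9 (Metric.mem_closedBall_self (by linarith))⟩

end

end MFX

open MFX in
/-- A function without islands is not changed by filling. -/
theorem FX : Stmt_FX := by
  intro a b a' b' s₀ s₁ w z₁ h0 h1 h2 h3 hs hw hn hi ho hz
  have hT := trunc_trW h0 h1 h2 h3 hs hw hi ho
  refine ⟨hT, ?_⟩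
  have hA : fillA (trW a' b' s₀ s₁ w) s₀ z₁ = trW a' b' s₀ s₁ w := by
    funext y
    unfold fillA
    have hmem : s₀ ∈ {c : ℝ | s₀ ≤ c ∧ Conn {z | c ≤ trW a' b' s₀ s₁ w z} y z₁} := by
      refine ⟨le_refl _, Set.univ, fun z _ => hT.lower z, isPreconnected_univ, trivial, trivial⟩
    have hub : ∀ c ∈ {c : ℝ | s₀ ≤ c ∧ Conn {z | c ≤ trW a' b' s₀ s₁ w z} y z₁},
        c ≤ trW a' b' s₀ s₁ w y := by
      rintro c ⟨_, S, hS, _, hy, _⟩
      exact hS hy
    apply le_antisymm
    · exact csSup_le ⟨s₀, hmem⟩ hub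
    · refine le_of_forall_lt fun c hc => ?_
      by_cases hc0 : c < s₀
      · exact lt_of_lt_of_le hc0 (le_csSup ⟨_, hub⟩ hmem)
      · push Not at hc0
        obtain ⟨c', hc1, hc2⟩ := exists_between hc
        refine lt_of_lt_of_le hc1 (le_csSup ⟨_, hub⟩ ⟨hc0.trans hc1.le, ?_⟩)
        exact conn_outer h0 h1 h2 h3 hs hw hn hi ho hz (hc0.trans hc1.le) hc2
  intro y
  unfold fill
  rw [hA]
  unfold fillB
  have hmem : s₁ ∈ {c : ℝ | c ≤ s₁ ∧ Conn {z | trW a' b' s₀ s₁ w z ≤ c} y 0} := by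
    refine ⟨le_refl _, Set.univ, fun z _ => hT.upper z, isPreconnected_univ, trivial, trivial⟩
  have hlb : ∀ c ∈ {c : ℝ | c ≤ s₁ ∧ Conn {z | trW a' b' s₀ s₁ w z ≤ c} y 0},
      trW a' b' s₀ s₁ w y ≤ c := by
    rintro c ⟨_, S, hS, _, hy, _⟩
    exact hS hy
  apply le_antisymm
  · refine le_of_forall_gt fun c hc => ?_
    by_cases hc0 : s₁ < c
    · exact lt_of_le_of_lt (csInf_le ⟨_, hlb⟩ hmem) hc0
    · push Not at hc0
      obtain ⟨c', hc1, hc2⟩ := exists_between hc
      refine lt_of_le_of_lt (csInf_le ⟨_, hlb⟩ ⟨hc2.le.trans hc0, ?_⟩) hc2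
      exact conn_inner h0 h1 h2 h3 hs hw hn hi ho (hc2.le.trans hc0) hc1
  · exact le_csInf ⟨s₁, hmem⟩ hlb

end Pool.Agent.PFlow


end

section

/-!
# JL: the flux and the constant value of the weight
-/

open MeasureTheory Filter Topology
open scoped ContDiff

namespace Pool.Agent.PFlow

open Pool.Agent.PenroseSph

namespace JLAux

/-- the pointwise inequality -/
lemma key {ε θ w s X lm : ℝ} (hε : 0 < ε) (hε2 : ε ≤ 1 / 2) (hθ : 0 < θ) (hθ1 : θ < 1)
    (hX : 0 ≤ X) (hlm : 0 ≤ lm) (hw : s ≤ w) :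
    Real.exp (-w) * X ^ (1 + ε) * lm ^ (2 - ε) ≤ θ ^ (-(2 * (2 - ε))) * X ^ 3 +
      Real.exp (-(3 * s / (2 - ε))) * lm ^ 2 *
        ((Real.sqrt (Real.exp (w / (2 - ε)) * X) - Real.sqrt lm) ^ 2 / (1 - θ) ^ 2) := by
  have h2 : 0 < 2 - ε := by linarith
  have h1 : 0 < 1 + ε := by linarith
  set φ := Real.exp (w / (2 - ε)) * X with hφ
  have hφ0 : 0 ≤ φ := by positivity
  have hsum : ∀ t : ℝ, 0 ≤ t → t ^ (1 + ε) * t ^ (2 - ε) = t ^ 3 := by
    intro t ht
    rw [← Real.rpow_add_of_nonneg ht h1.le h2.le, ← Real.rpow_natCast]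
    congr 1
    push_cast
    ring
  have hT0 : 0 ≤ Real.exp (-(3 * s / (2 - ε))) * lm ^ 2 *
      ((Real.sqrt φ - Real.sqrt lm) ^ 2 / (1 - θ) ^ 2) := by positivity
  have hT1 : 0 ≤ θ ^ (-(2 * (2 - ε))) * X ^ 3 := by positivity
  by_cases h : θ ^ 2 * lm ≤ φ
  · have e1 : lm ^ (2 - ε) ≤ θ ^ (-(2 * (2 - ε))) * (Real.exp w * X ^ (2 - ε)) := by
      have e2 : lm ≤ φ / θ ^ 2 := by
        rw [le_div_iff₀ (by positivity)]
        linarith
      have e3 : φ ^ (2 - ε) = Real.exp w * X ^ (2 - ε) := by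
        rw [hφ, Real.mul_rpow (Real.exp_pos _).le hX, ← Real.exp_mul,
          div_mul_cancel₀ _ h2.ne']
      have e4 : (θ ^ 2) ^ (2 - ε) = θ ^ (2 * (2 - ε)) := by
        rw [← Real.rpow_natCast, ← Real.rpow_mul hθ.le]
        norm_cast
      calc lm ^ (2 - ε) ≤ (φ / θ ^ 2) ^ (2 - ε) := Real.rpow_le_rpow hlm e2 h2.le
        _ = φ ^ (2 - ε) / (θ ^ 2) ^ (2 - ε) := Real.div_rpow hφ0 (by positivity) _
        _ = _ := by
          rw [e3, e4, Real.rpow_neg hθ.le]
          field_simp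
    have e5 : Real.exp (-w) * X ^ (1 + ε) * lm ^ (2 - ε) ≤ θ ^ (-(2 * (2 - ε))) * X ^ 3 := by
      calc Real.exp (-w) * X ^ (1 + ε) * lm ^ (2 - ε)
          ≤ Real.exp (-w) * X ^ (1 + ε) * (θ ^ (-(2 * (2 - ε))) * (Real.exp w * X ^ (2 - ε))) := by
            gcongr
        _ = θ ^ (-(2 * (2 - ε))) * (Real.exp (-w) * Real.exp w) *
            (X ^ (1 + ε) * X ^ (2 - ε)) := by ring
        _ = _ := by
            rw [← Real.exp_add, neg_add_cancel, Real.exp_zero, hsum X hX, mul_one]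
    linarith
  · rw [not_le] at h
    have hφl : φ ≤ lm := by
      have : θ ^ 2 ≤ 1 := pow_le_one₀ hθ.le hθ1.le
      nlinarith
    have e1 : X = Real.exp (-(w / (2 - ε))) * φ := by
      rw [hφ, ← mul_assoc, ← Real.exp_add, neg_add_cancel, Real.exp_zero, one_mul]
    have e2 : Real.exp (-w) * X ^ (1 + ε) = Real.exp (-(3 * w / (2 - ε))) * φ ^ (1 + ε) := by
      rw [e1, Real.mul_rpow (Real.exp_pos _).le hφ0, ← Real.exp_mul, ← mul_assoc,
        ← Real.exp_add]
      congr 2
      field_simp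
      ring
    have e3 : Real.exp (-(3 * w / (2 - ε))) ≤ Real.exp (-(3 * s / (2 - ε))) := by
      apply Real.exp_le_exp.2
      apply neg_le_neg
      gcongr
    have e4 : φ ^ (1 + ε) ≤ lm ^ (1 + ε) := Real.rpow_le_rpow hφ0 hφl h1.le
    have e5 : lm ≤ (Real.sqrt φ - Real.sqrt lm) ^ 2 / (1 - θ) ^ 2 := by
      have h3 : 0 < 1 - θ := by linarith
      rw [le_div_iff₀ (by positivity)]
      have e6 : Real.sqrt φ ≤ θ * Real.sqrt lm := by
        calc Real.sqrt φ ≤ Real.sqrt (θ ^ 2 * lm) := Real.sqrt_le_sqrt h.le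
          _ = θ * Real.sqrt lm := by
            rw [Real.sqrt_mul (by positivity), Real.sqrt_sq hθ.le]
      have e7 : (1 - θ) * Real.sqrt lm ≤ Real.sqrt lm - Real.sqrt φ := by linarith
      have e8 : 0 ≤ (1 - θ) * Real.sqrt lm := by positivity
      calc lm * (1 - θ) ^ 2 = ((1 - θ) * Real.sqrt lm) ^ 2 := by
            rw [mul_pow, Real.sq_sqrt hlm]; ring
        _ ≤ (Real.sqrt lm - Real.sqrt φ) ^ 2 := pow_le_pow_left₀ e8 e7 2
        _ = _ := by ring
    have e9 : Real.exp (-w) * X ^ (1 + ε) * lm ^ (2 - ε) ≤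
        Real.exp (-(3 * s / (2 - ε))) * lm ^ 2 *
          ((Real.sqrt φ - Real.sqrt lm) ^ 2 / (1 - θ) ^ 2) := by
      calc Real.exp (-w) * X ^ (1 + ε) * lm ^ (2 - ε)
          = Real.exp (-(3 * w / (2 - ε))) * φ ^ (1 + ε) * lm ^ (2 - ε) := by rw [e2]
        _ ≤ Real.exp (-(3 * s / (2 - ε))) * lm ^ (1 + ε) * lm ^ (2 - ε) := by gcongr
        _ = Real.exp (-(3 * s / (2 - ε))) * (lm ^ (1 + ε) * lm ^ (2 - ε)) := by ring
        _ = Real.exp (-(3 * s / (2 - ε))) * lm ^ 2 * lm := by rw [hsum lm hlm]; ring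
        _ ≤ _ := by gcongr
    linarith

end JLAux

/-- JL, without measurability of `vol` and `X`. -/
theorem JL_core (ε θ : ℝ) (β : ℝ → ℝ) (hε : 0 < ε) (hε2 : ε ≤ 1 / 2) (hθ : 0 < θ) (hθ1 : θ < 1)
    (hβ : IsBump β) : ∃ C : ℝ, 0 < C ∧
    ∀ (Ω 𝒜 : Set E3) (vol w X : E3 → ℝ) (s₂ lm N : ℝ), MeasurableSet Ω → MeasurableSet 𝒜 →
      (∀ x, 0 ≤ vol x) → (∀ x, 0 ≤ X x) → Measurable w → 𝒜 ⊆ Ω →
      Ω ∩ {x | s₂ < w x ∧ w x < s₂ + 1} ⊆ 𝒜 → 0 ≤ lm →
      IntegrableOn (fun x => X x ^ 3 * vol x) 𝒜 →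
      IntegrableOn (fun x => (Real.sqrt (Real.exp (w x / (2 - ε)) * X x) - Real.sqrt lm) ^ 2
        * vol x) 𝒜 →
      (∫ x in 𝒜, (Real.sqrt (Real.exp (w x / (2 - ε)) * X x) - Real.sqrt lm) ^ 2 * vol x) ≤ N →
      jInf ε β Ω vol w X s₂ * lm ^ (2 - ε)
        ≤ θ ^ (-(2 * (2 - ε))) * (∫ x in Ω, β (w x - s₂) * X x ^ 3 * vol x)
          + C * Real.exp (-(3 * s₂ / (2 - ε))) * lm ^ 2 * N := by
  -- the bump is bounded
  have hβc : HasCompactSupport β := by
    refine HasCompactSupport.intro (isCompact_Icc (a := (1 / 4 : ℝ)) (b := 3 / 4)) ?_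
    intro s hs
    apply hβ.supp
    by_contra hcon
    rw [not_or, not_le, not_le] at hcon
    exact hs ⟨hcon.1.le, hcon.2.le⟩
  obtain ⟨B, hB⟩ := hβ.smooth.continuous.bounded_above_of_compact_support hβc
  have hB0 : 0 ≤ B := (norm_nonneg _).trans (hB 0)
  have hβB : ∀ s, β s ≤ B := fun s => (le_abs_self _).trans (hB s)
  refine ⟨B / (1 - θ) ^ 2 + 1, by positivity, ?_⟩
  intro Ω 𝒜 vol w X s₂ lm N hΩ hA hvol hX hw hAΩ hsub hlm hI3 hIP hN
  have h2 : 0 < 2 - ε := by linarith
  set Y : E3 → ℝ := fun x =>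
    (Real.sqrt (Real.exp (w x / (2 - ε)) * X x) - Real.sqrt lm) ^ 2 * vol x with hY
  have hzero : ∀ x ∈ Ω \ 𝒜, β (w x - s₂) = 0 := by
    intro x hx
    apply hβ.supp
    by_contra hcon
    rw [not_or, not_le, not_le] at hcon
    exact hx.2 (hsub ⟨hx.1, by show s₂ < w x; linarith [hcon.1],
      by show w x < s₂ + 1; linarith [hcon.2]⟩)
  have hw' : Measurable fun x => β (w x - s₂) :=
    hβ.smooth.continuous.measurable.comp (hw.sub_const s₂)
  have hK1 : IntegrableOn (fun x => β (w x - s₂) * X x ^ 3 * vol x) 𝒜 := by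
    have h3 : IntegrableOn (fun x => β (w x - s₂) * (X x ^ 3 * vol x)) 𝒜 :=
      hI3.bdd_mul hw'.aestronglyMeasurable (Filter.Eventually.of_forall fun x => hB _)
    exact h3.congr (Filter.Eventually.of_forall fun x => by simp only []; ring)
  have hS : ∫ x in Ω, β (w x - s₂) * X x ^ 3 * vol x =
      ∫ x in 𝒜, β (w x - s₂) * X x ^ 3 * vol x :=
    setIntegral_eq_of_subset_of_forall_sdiff_eq_zero hΩ hAΩ fun x hx => by
      simp only [hzero x hx, zero_mul]
  have hJ : jInf ε β Ω vol w X s₂ =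
      ∫ x in 𝒜, β (w x - s₂) * (Real.exp (-w x) * X x ^ (1 + ε)) * vol x := by
    unfold jInf
    exact setIntegral_eq_of_subset_of_forall_sdiff_eq_zero hΩ hAΩ fun x hx => by
      simp only [hzero x hx, zero_mul]
  set K : ℝ := (B / (1 - θ) ^ 2) * Real.exp (-(3 * s₂ / (2 - ε))) * lm ^ 2 with hK
  have hK0 : 0 ≤ K := by positivity
  have hpt : ∀ x, β (w x - s₂) * (Real.exp (-w x) * X x ^ (1 + ε)) * vol x * lm ^ (2 - ε) ≤
      θ ^ (-(2 * (2 - ε))) * (β (w x - s₂) * X x ^ 3 * vol x) + K * Y x := by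
    intro x
    have hY0 : 0 ≤ Y x := mul_nonneg (sq_nonneg _) (hvol x)
    by_cases hb : β (w x - s₂) = 0
    · rw [hb]
      simp only [zero_mul, mul_zero, zero_add]
      positivity
    · have hws : s₂ ≤ w x := by
        by_contra hcon
        rw [not_le] at hcon
        exact hb (hβ.supp _ (Or.inl (by linarith)))
      have h4 := JLAux.key hε hε2 hθ hθ1 (hX x) hlm hws
      have hbn := hβ.nonneg (w x - s₂)
      calc β (w x - s₂) * (Real.exp (-w x) * X x ^ (1 + ε)) * vol x * lm ^ (2 - ε)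
          = (β (w x - s₂) * vol x) *
            (Real.exp (-w x) * X x ^ (1 + ε) * lm ^ (2 - ε)) := by ring
        _ ≤ (β (w x - s₂) * vol x) * (θ ^ (-(2 * (2 - ε))) * X x ^ 3 +
              Real.exp (-(3 * s₂ / (2 - ε))) * lm ^ 2 *
              ((Real.sqrt (Real.exp (w x / (2 - ε)) * X x) - Real.sqrt lm) ^ 2
                / (1 - θ) ^ 2)) :=
            mul_le_mul_of_nonneg_left h4 (mul_nonneg hbn (hvol x))
        _ = θ ^ (-(2 * (2 - ε))) * (β (w x - s₂) * X x ^ 3 * vol x) +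
            β (w x - s₂) * (1 / (1 - θ) ^ 2 * Real.exp (-(3 * s₂ / (2 - ε))) * lm ^ 2 * Y x) := by
            rw [hY]; ring
        _ ≤ θ ^ (-(2 * (2 - ε))) * (β (w x - s₂) * X x ^ 3 * vol x) +
            B * (1 / (1 - θ) ^ 2 * Real.exp (-(3 * s₂ / (2 - ε))) * lm ^ 2 * Y x) := by
            gcongr
            exact hβB _
        _ = _ := by rw [hK]; ring
  have hmain : ∫ x in 𝒜, β (w x - s₂) * (Real.exp (-w x) * X x ^ (1 + ε)) * vol x *
      lm ^ (2 - ε) ≤ ∫ x in 𝒜, (θ ^ (-(2 * (2 - ε))) * (β (w x - s₂) * X x ^ 3 * vol x) +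
        K * Y x) := by
    refine integral_mono_of_nonneg (Filter.Eventually.of_forall fun x => ?_)
      ((hK1.const_mul _).add (hIP.const_mul K)) (Filter.Eventually.of_forall hpt)
    have := hβ.nonneg (w x - s₂)
    have := hvol x
    have := hX x
    show 0 ≤ β (w x - s₂) * (Real.exp (-w x) * X x ^ (1 + ε)) * vol x * lm ^ (2 - ε)
    positivity
  rw [hJ, hS]
  rw [integral_mul_const] at hmain
  refine hmain.trans ?_
  rw [integral_add (hK1.const_mul _) (hIP.const_mul K), integral_const_mul, integral_const_mul]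
  have hN0 : 0 ≤ N := (setIntegral_nonneg hA fun x _ =>
    mul_nonneg (sq_nonneg _) (hvol x)).trans hN
  have h5 : K * ∫ x in 𝒜, Y x ≤ K * N := mul_le_mul_of_nonneg_left hN hK0
  have h6 : K * N ≤ (B / (1 - θ) ^ 2 + 1) * Real.exp (-(3 * s₂ / (2 - ε))) * lm ^ 2 * N := by
    rw [hK]
    gcongr
    linarith
  linarith

/-- JL: the flux and the constant value of the weight. -/
theorem JL : Stmt_JL := by
  intro ε θ β hε hε2 hθ hθ1 hβ
  obtain ⟨C, hC, h⟩ := JL_core ε θ β hε hε2 hθ hθ1 hβ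
  exact ⟨C, hC, fun Ω 𝒜 vol w X s₂ lm N hΩ hA hvol hX hw _ _ hAΩ hsub hlm _ hI3 hIP hN =>
    h Ω 𝒜 vol w X s₂ lm N hΩ hA hvol hX hw hAΩ hsub hlm hI3 hIP hN⟩

end Pool.Agent.PFlow


end
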