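import Mathlib
import Pool.Agent.PFlow.StmtsM
import Pool.Agent.PenroseM.C06
import Pool.Agent.PenroseM.C12

/-! Parts: PFlow.P.Moll, PFlow.G.PUNCT, PFlow.M_CHD -/

section

/-!
# Block P, module MOLL: mollifications
-/

open MeasureTheory Filter Topology Set Metric
open scoped ContDiff RealInnerProductSpace ENNReal Convolution

namespace Pool.Agent.PFlow.PB

open Pool.Agent.PenroseSph Pool.Agent.PFlow

/-- the bump functions -/
noncomputable def bmp (n : ℕ) : ContDiffBump (0 : E3) where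
  rIn := 1 / (2 * ((n : ℝ) + 1))
  rOut := 1 / ((n : ℝ) + 1)
  rIn_pos := by positivity
  rIn_lt_rOut := by
    have : (0 : ℝ) < (n : ℝ) + 1 := by positivity
    rw [div_lt_div_iff₀ (by positivity) (by positivity)]
    linarith

/-- the mollification -/
noncomputable def Jm (n : ℕ) (f : E3 → ℝ) : E3 → ℝ :=
  ((bmp n).normed volume ⋆[ContinuousLinearMap.lsmul ℝ ℝ, volume] f : E3 → ℝ)

theorem Jm_apply (n : ℕ) (f : E3 → ℝ) (x : E3) :
    Jm n f x = ∫ t, (bmp n).normed volume t * f (x - t) := rfl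

theorem locInt {f : E3 → ℝ} (h : MemLp f 2) : LocallyIntegrable f volume :=
  h.locallyIntegrable (by norm_num)

theorem rho_smooth (n : ℕ) : ContDiff ℝ ∞ ((bmp n).normed volume) := (bmp n).contDiff_normed

theorem rho_cpt (n : ℕ) : HasCompactSupport ((bmp n).normed volume) := (bmp n).hasCompactSupport_normed

theorem rho_cont (n : ℕ) : Continuous ((bmp n).normed volume) := (bmp n).continuous_normed

theorem rho_nonneg (n : ℕ) (x : E3) : 0 ≤ (bmp n).normed volume x := (bmp n).nonneg_normed x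

theorem rho_int (n : ℕ) : ∫ x, (bmp n).normed volume x = 1 := (bmp n).integral_normed

theorem Jm_smooth (n : ℕ) (f : E3 → ℝ) (hf : MemLp f 2) : ContDiff ℝ ∞ (Jm n f) :=
  (rho_cpt n).contDiff_convolution_left _ (rho_smooth n) (locInt hf)

theorem conv_ex (n : ℕ) (f : E3 → ℝ) (hf : LocallyIntegrable f volume) (x : E3) :
    Integrable (fun t => (bmp n).normed volume t * f (x - t)) :=
  (rho_cpt n).convolutionExists_left (ContinuousLinearMap.lsmul ℝ ℝ) (rho_cont n) hf x

theorem Jm_sq_le (n : ℕ) (f : E3 → ℝ) (hf : MemLp f 2) (x : E3) :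
    (Jm n f x) ^ 2 ≤ Jm n (fun y => f y ^ 2) x := by
  have hf2 : Integrable (fun y => f y ^ 2) := by
    have := int_sq f hf
    simpa [Real.norm_eq_abs, sq_abs] using this
  have i1 := conv_ex n f (locInt hf) x
  have i2 := conv_ex n (fun y => f y ^ 2) hf2.locallyIntegrable x
  have i3 : Integrable (fun t => (bmp n).normed volume t) :=
    (rho_cont n).integrable_of_hasCompactSupport (rho_cpt n)
  set m := Jm n f x with hm
  have h0 : 0 ≤ ∫ t, (bmp n).normed volume t * (f (x - t) - m) ^ 2 :=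
    integral_nonneg fun t => mul_nonneg (rho_nonneg n t) (by positivity)
  have e : (fun t => (bmp n).normed volume t * (f (x - t) - m) ^ 2)
      = fun t => ((bmp n).normed volume t * f (x - t) ^ 2
        - 2 * m * ((bmp n).normed volume t * f (x - t))) + m ^ 2 * (bmp n).normed volume t := by
    ext t
    ring
  have j1 : Integrable (fun t => 2 * m * ((bmp n).normed volume t * f (x - t))) := i1.const_mul _
  have j2 : Integrable (fun t => m ^ 2 * (bmp n).normed volume t) := i3.const_mul _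
  have j3 : Integrable (fun t => (bmp n).normed volume t * f (x - t) ^ 2
        - 2 * m * ((bmp n).normed volume t * f (x - t))) := i2.sub j1
  rw [e, integral_add j3 j2, integral_sub i2 j1,
    integral_const_mul, integral_const_mul, rho_int, ← Jm_apply, ← hm] at h0
  have h1 : ∫ t, (bmp n).normed volume t * f (x - t) ^ 2 = Jm n (fun y => f y ^ 2) x := rfl
  rw [h1] at h0
  nlinarith

theorem Jm_int (n : ℕ) (g : E3 → ℝ) (hg : Integrable g) :
    Integrable (Jm n g) ∧ ∫ x, Jm n g x = ∫ x, g x := by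
  have i3 : Integrable (fun t => (bmp n).normed volume t) :=
    (rho_cont n).integrable_of_hasCompactSupport (rho_cpt n)
  refine ⟨i3.integrable_convolution (ContinuousLinearMap.lsmul ℝ ℝ) hg, ?_⟩
  have := integral_convolution (ContinuousLinearMap.lsmul ℝ ℝ) (μ := (volume : Measure E3)) i3 hg
  rw [rho_int] at this
  simpa [Jm] using this

theorem Jm_mem (n : ℕ) (f : E3 → ℝ) (hf : MemLp f 2) : MemLp (Jm n f) 2 := by
  have hf2 : Integrable (fun y => f y ^ 2) := by
    have := int_sq f hf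
    simpa [Real.norm_eq_abs, sq_abs] using this
  have hc : Continuous (Jm n f) := (Jm_smooth n f hf).continuous
  rw [memLp_two_iff_integrable_sq_norm hc.aestronglyMeasurable]
  refine (Jm_int n _ hf2).1.mono (by fun_prop) (Eventually.of_forall fun x => ?_)
  have h1 := Jm_sq_le n f hf x
  rw [Real.norm_eq_abs, Real.norm_eq_abs, Real.norm_eq_abs, sq_abs, abs_of_nonneg (sq_nonneg _)]
  exact h1.trans (le_abs_self _)

theorem Jm_contr (n : ℕ) (f : E3 → ℝ) (hf : MemLp f 2) : sq (Jm n f) ≤ sq f := by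
  have hf2 : Integrable (fun y => f y ^ 2) := by
    have := int_sq f hf
    simpa [Real.norm_eq_abs, sq_abs] using this
  have h1 := Jm_int n _ hf2
  unfold sq
  rw [← h1.2]
  refine integral_mono ?_ h1.1 fun x => Jm_sq_le n f hf x
  have := int_sq _ (Jm_mem n f hf)
  simpa [Real.norm_eq_abs, sq_abs] using this

theorem Jm_close (n : ℕ) (g : E3 → ℝ) (hg : AEStronglyMeasurable g volume) (x : E3) (ε : ℝ)
    (h : ∀ y ∈ ball x (1 / ((n : ℝ) + 1)), dist (g y) (g x) ≤ ε) : |Jm n g x - g x| ≤ ε := by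
  have := (bmp n).dist_normed_convolution_le (μ := (volume : Measure E3)) hg h
  rwa [Real.dist_eq] at this

theorem rad_le (n : ℕ) : 1 / ((n : ℝ) + 1) ≤ 1 := by
  rw [div_le_one (by positivity)]
  have : (0 : ℝ) ≤ n := Nat.cast_nonneg n
  linarith

theorem Jm_sub (n : ℕ) (f g : E3 → ℝ) (hf : MemLp f 2) (hg : MemLp g 2) (x : E3) :
    Jm n (fun y => f y - g y) x = Jm n f x - Jm n g x := by
  simp only [Jm_apply]
  rw [← integral_sub (conv_ex n f (locInt hf) x) (conv_ex n g (locInt hg) x)]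
  congr 1
  ext t
  ring

theorem Jm_tend_cc (g : E3 → ℝ) (hc : Continuous g) (hs : HasCompactSupport g) :
    Tendsto (fun n => sq (fun x => Jm n g x - g x)) atTop (𝓝 0) := by
  have hu : UniformContinuous g := hs.uniformContinuous_of_continuous hc
  obtain ⟨R, hR⟩ : ∃ R, ∀ x : E3, R < ‖x‖ → g x = 0 := by
    obtain ⟨R, hR⟩ := hs.isBounded.subset_closedBall (0 : E3)
    refine ⟨R, fun x hx => ?_⟩
    by_contra h
    have := hR (subset_tsupport g h)
    simp at this
    linarith
  set V : ℝ := (volume : Measure E3).real (closedBall 0 (R + 1)) with hV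
  have hV0 : 0 ≤ V := measureReal_nonneg
  have hg : MemLp g 2 := hc.memLp_of_hasCompactSupport hs
  rw [Metric.tendsto_atTop]
  intro ε hε
  obtain ⟨δ, hδ, hδ2⟩ := Metric.uniformContinuous_iff.1 hu (√(ε / (V + 1))) (by positivity)
  obtain ⟨N, hN⟩ := exists_nat_one_div_lt hδ
  refine ⟨N, fun n hn => ?_⟩
  have hrn : 1 / ((n : ℝ) + 1) < δ := by
    refine lt_of_le_of_lt ?_ hN
    have : (N : ℝ) ≤ n := by exact_mod_cast hn
    gcongr
  have hb : ∀ x, |Jm n g x - g x| ≤ √(ε / (V + 1)) := fun x =>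
    Jm_close n g hc.aestronglyMeasurable x _ fun y hy =>
      (hδ2 (lt_trans (mem_ball.1 hy) hrn)).le
  have hz : ∀ x, x ∉ closedBall (0 : E3) (R + 1) → Jm n g x - g x = 0 := by
    intro x hx
    have hx2 : R + 1 < ‖x‖ := by simpa using hx
    have := Jm_close n g hc.aestronglyMeasurable x 0 fun y hy => by
      have h1 : ‖y - x‖ < 1 := by
        have := lt_of_lt_of_le (mem_ball.1 hy) (rad_le n)
        rwa [dist_eq_norm] at this
      have h2 : R < ‖y‖ := by
        have : ‖x‖ ≤ ‖y‖ + ‖y - x‖ := by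
          calc ‖x‖ = ‖y - (y - x)‖ := by congr 1; abel
            _ ≤ ‖y‖ + ‖y - x‖ := norm_sub_le _ _
        linarith
      rw [hR y h2, hR x (by linarith), dist_self]
    exact abs_eq_zero.1 (le_antisymm this (abs_nonneg _))
  rw [Real.dist_eq, sub_zero, abs_of_nonneg (sq_nonneg' _)]
  have h1 : sq (fun x => Jm n g x - g x)
      ≤ ∫ x, (closedBall (0 : E3) (R + 1)).indicator (fun _ => ε / (V + 1)) x := by
    unfold sq
    refine integral_mono_of_nonneg (Eventually.of_forall fun x => by positivity) ?_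
      (Eventually.of_forall fun x => ?_)
    · rw [integrable_indicator_iff measurableSet_closedBall]
      exact integrableOn_const (isCompact_closedBall _ _).measure_lt_top.ne
    · by_cases hx : x ∈ closedBall (0 : E3) (R + 1)
      · simp only [indicator_of_mem hx]
        rw [← sq_abs]
        calc |Jm n g x - g x| ^ 2 ≤ (√(ε / (V + 1))) ^ 2 := by
              have := hb x
              gcongr
          _ = ε / (V + 1) := Real.sq_sqrt (by positivity)
      · simp only [indicator_of_notMem hx]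
        rw [hz x hx]
        norm_num
  refine lt_of_le_of_lt h1 ?_
  rw [integral_indicator measurableSet_closedBall, setIntegral_const, smul_eq_mul, ← hV]
  rw [mul_div_assoc', div_lt_iff₀ (by positivity)]
  nlinarith

theorem Jm_tend (f : E3 → ℝ) (hf : MemLp f 2) :
    Tendsto (fun n => sq (fun x => Jm n f x - f x)) atTop (𝓝 0) := by
  rw [Metric.tendsto_atTop]
  intro ε hε
  set η := √ε / 4 with hη
  have hη0 : 0 < η := by positivity
  obtain ⟨g, hs, hg1, hc, hg⟩ := hf.exists_hasCompactSupport_eLpNorm_sub_le (by norm_num)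
    (ε := ENNReal.ofReal η) (by simpa using hη0)
  have hfg : √(sq (fun x => f x - g x)) ≤ η := by
    have e : eLpNorm (f - g) 2 volume = ENNReal.ofReal (√(∫ x, ‖f x - g x‖ ^ 2)) :=
      eLpNorm_two _ (hf.sub hg)
    rw [e, ENNReal.ofReal_le_ofReal_iff hη0.le] at hg1
    rw [sq_eq]
    exact hg1
  obtain ⟨N, hN⟩ := Metric.tendsto_atTop.1 (Jm_tend_cc g hc hs) (η ^ 2) (by positivity)
  refine ⟨N, fun n hn => ?_⟩
  have h2 := hN n hn
  rw [Real.dist_eq, sub_zero, abs_of_nonneg (sq_nonneg' _)] at h2 ⊢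
  have h3 : √(sq (fun x => Jm n g x - g x)) < η := by
    rw [Real.sqrt_lt' hη0]
    exact h2
  have h4 : √(sq (fun x => Jm n f x - Jm n g x)) ≤ η := by
    have : (fun x => Jm n f x - Jm n g x) = Jm n (fun y => f y - g y) := by
      ext x
      rw [Jm_sub n f g hf hg]
    rw [this]
    exact (Real.sqrt_le_sqrt (Jm_contr n _ (hf.sub hg))).trans hfg
  have h5 : √(sq (fun x => Jm n f x - f x)) < √ε := by
    have a1 := sq_add_le (fun x => Jm n f x - Jm n g x) (fun x => Jm n g x - f x)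
      ((Jm_mem n f hf).sub (Jm_mem n g hg)) ((Jm_mem n g hg).sub hf)
    have a2 := sq_add_le (fun x => Jm n g x - g x) (fun x => g x - f x)
      ((Jm_mem n g hg).sub hg) (hg.sub hf)
    simp only [sub_add_sub_cancel] at a1 a2
    rw [sq_sub_comm g f] at a2
    have : η = √ε / 4 := hη
    have h0 : 0 < √ε := by positivity
    linarith
  exact (Real.sqrt_lt_sqrt_iff (sq_nonneg' _)).1 h5

theorem Jm_cpt (n : ℕ) (f : E3 → ℝ) (hs : HasCompactSupport f) : HasCompactSupport (Jm n f) :=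
  (rho_cpt n).convolution _ hs

theorem Jm_unif (f : E3 → ℝ) (hc : Continuous f) (K : Set E3) (hK : IsCompact K) :
    TendstoUniformlyOn (fun n => Jm n f) f atTop K := by
  have hK' : IsCompact (cthickening 1 K) := hK.cthickening
  have hu : UniformContinuousOn f (cthickening 1 K) :=
    hK'.uniformContinuousOn_of_continuous hc.continuousOn
  rw [Metric.tendstoUniformlyOn_iff]
  intro ε hε
  obtain ⟨δ, hδ, hδ2⟩ := Metric.uniformContinuousOn_iff.1 hu (ε / 2) (by positivity)
  obtain ⟨N, hN⟩ := exists_nat_one_div_lt hδ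
  filter_upwards [eventually_ge_atTop N] with n hn x hx
  have hrn : 1 / ((n : ℝ) + 1) < δ := by
    refine lt_of_le_of_lt ?_ hN
    have : (N : ℝ) ≤ n := by exact_mod_cast hn
    gcongr
  have := Jm_close n f hc.aestronglyMeasurable x (ε / 2) fun y hy => by
    have hy1 : y ∈ cthickening 1 K := by
      refine mem_cthickening_of_dist_le y x 1 K hx ?_
      exact (lt_of_lt_of_le (mem_ball.1 hy) (rad_le n)).le
    have hx1 : x ∈ cthickening 1 K := self_subset_cthickening K hx
    exact (hδ2 y hy1 x hx1 (lt_trans (mem_ball.1 hy) hrn)).le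
  rw [dist_comm, Real.dist_eq]
  linarith

theorem rho_refl (n : ℕ) (x : E3) : Test (fun y => (bmp n).normed volume (x - y)) :=
  ⟨(rho_smooth n).comp (contDiff_const.sub contDiff_id),
    (rho_cpt n).comp_homeomorph (Homeomorph.subLeft x)⟩

theorem pd_rho_refl (n : ℕ) (x : E3) (i : Fin 3) (y : E3) :
    pd i (fun y => (bmp n).normed volume (x - y)) y = - pd i ((bmp n).normed volume) (x - y) := by
  have h1 : HasFDerivAt ((bmp n).normed volume) (fderiv ℝ ((bmp n).normed volume) (x - y))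
      (x - y) := ((rho_smooth n).differentiable (by simp)).differentiableAt.hasFDerivAt
  have h2 : HasFDerivAt (fun y : E3 => x - y) (-(ContinuousLinearMap.id ℝ E3)) y :=
    (hasFDerivAt_id y).const_sub x
  have h4 := (h1.comp y h2).fderiv
  rw [pd_eq, pd_eq]
  have h5 : fderiv ℝ (fun y => (bmp n).normed volume (x - y)) y
      = (fderiv ℝ ((bmp n).normed volume) (x - y)).comp (-(ContinuousLinearMap.id ℝ E3)) := h4
  rw [h5]
  simp

theorem Jm_grad (f : E3 → ℝ) (G : E3 → E3) (hf : MemLp f 2) (hw : WGrad f G) (n : ℕ) (x : E3)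
    (i : Fin 3) : gr (Jm n f) x i = Jm n (fun y => G y i) x := by
  have hl := locInt hf
  have h1 := (rho_cpt n).hasFDerivAt_convolution_left (ContinuousLinearMap.lsmul ℝ ℝ)
    ((rho_smooth n).of_le (by exact_mod_cast le_top)) hl x
  have hex : ConvolutionExistsAt (fderiv ℝ ((bmp n).normed volume)) f x
      ((ContinuousLinearMap.lsmul ℝ ℝ : ℝ →L[ℝ] ℝ →L[ℝ] ℝ).precompL E3) volume :=
    ((rho_cpt n).fderiv ℝ).convolutionExists_left _
      ((rho_smooth n).continuous_fderiv (by simp)) hl x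
  have h2 : gr (Jm n f) x i = ∫ t, pd i ((bmp n).normed volume) t * f (x - t) := by
    rw [gr_apply, pd_eq]
    have : fderiv ℝ (Jm n f) x = _ := h1.fderiv
    rw [this, convolution_def, ContinuousLinearMap.integral_apply hex]
    rfl
  have h3 : ∫ t, pd i ((bmp n).normed volume) t * f (x - t)
      = ∫ y, pd i ((bmp n).normed volume) (x - y) * f y := by
    have := integral_sub_left_eq_self (μ := (volume : Measure E3))
      (fun y => pd i ((bmp n).normed volume) (x - y) * f y) x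
    rw [← this]
    congr 1
    ext t
    simp
  have h4 : Jm n (fun y => G y i) x = ∫ y, (bmp n).normed volume (x - y) * G y i := by
    have := integral_sub_left_eq_self (μ := (volume : Measure E3))
      (fun y => (bmp n).normed volume (x - y) * G y i) x
    rw [← this, Jm_apply]
    congr 1
    ext t
    simp
  have h5 := hw _ (rho_refl n x) i
  rw [h2, h3, h4]
  simp only [pd_rho_refl, mul_neg, integral_neg, neg_inj] at h5
  simpa only [mul_comm] using h5

theorem moll_thm : MOLL :=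
  ⟨Jm, {
    smooth := Jm_smooth
    mem := Jm_mem
    contr := Jm_contr
    tend := Jm_tend
    grad := fun f G hf _ hw n x i => Jm_grad f G hf hw n x i
    cpt := fun n f _ hs => Jm_cpt n f hs
    unif := fun f _ hc K hK => Jm_unif f hc K hK }⟩

end Pool.Agent.PFlow.PB


end

section

/-!
# The integrated inequality with two poles
-/

open MeasureTheory Filter Topology
open scoped ContDiff

namespace Pool.Agent.PFlow.GB

open Pool.Agent.PenroseSph Pool.Agent.PFlow

namespace PUNCTH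

/-! ### The leafwise objects depend only on germs -/

section Germ

variable {g : TensorField} {W : E3 → ℝ} {x : E3}

lemma pd_congr {f h : E3 → ℝ} (H : f =ᶠ[𝓝 x] h) (i : Fin 3) : pd i f x = pd i h x := by
  unfold pd
  rw [H.fderiv_eq]

lemma grad_congr {f h : E3 → ℝ} (H : f =ᶠ[𝓝 x] h) : grad f x = grad h x :=
  funext fun i => pd_congr H i

lemma lin_congr {f f' h h' : E3 → ℝ} (H : f =ᶠ[𝓝 x] f') (H' : h =ᶠ[𝓝 x] h') :
    lin g W f h x = lin g W f' h' x := by
  unfold lin
  rw [grad_congr H, grad_congr H']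

lemma lin_evt {f f' h h' : E3 → ℝ} (H : f =ᶠ[𝓝 x] f') (H' : h =ᶠ[𝓝 x] h') :
    lin g W f h =ᶠ[𝓝 x] lin g W f' h' := by
  filter_upwards [H.eventuallyEq_nhds, H'.eventuallyEq_nhds] with y hy hy'
  exact lin_congr hy hy'

lemma lgrad_congr {f f' : E3 → ℝ} (H : f =ᶠ[𝓝 x] f') : lgrad g W f x = lgrad g W f' x := by
  funext i
  unfold lgrad
  rw [grad_congr H]

lemma lgrad_evt {f f' : E3 → ℝ} (H : f =ᶠ[𝓝 x] f') :
    lgrad g W f =ᶠ[𝓝 x] lgrad g W f' := by
  filter_upwards [H.eventuallyEq_nhds] with y hy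
  exact lgrad_congr hy

lemma ldiv_congr {Y Y' : E3 → Cov} (H : Y =ᶠ[𝓝 x] Y') : ldiv g W Y x = ldiv g W Y' x := by
  unfold ldiv
  congr 1
  refine Finset.sum_congr rfl fun i _ => ?_
  refine pd_congr ?_ i
  filter_upwards [H] with y hy
  rw [hy]

lemma lap_congr {f f' : E3 → ℝ} (H : f =ᶠ[𝓝 x] f') : lap g W f x = lap g W f' x :=
  ldiv_congr (lgrad_evt H)

lemma Xf_congr {φ φ' u : E3 → ℝ} {δ : ℝ} (H : φ =ᶠ[𝓝 x] φ') :
    Xf g W φ u δ x = Xf g W φ' u δ x := by
  funext i
  unfold Xf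
  rw [lgrad_congr (lin_evt H H), lap_congr H, lgrad_congr H, lin_congr H H]

lemma pd_contDiffAt {f : E3 → ℝ} (hf : ContDiffAt ℝ ∞ f x) (i : Fin 3) :
    ContDiffAt ℝ ∞ (pd i f) x :=
  (hf.fderiv_right (m := ∞) (by simp)).clm_apply contDiffAt_const

end Germ

/-! ### Integrability -/

section Integ

variable {V : Set E3} {a b : ℝ} {g : TensorField} {W : E3 → ℝ}

lemma integrableOn_bdd {U O : Set E3} (hO : IsOpen O) (hOU : O ⊆ U)
    (hU : volume U < ⊤) (hnull : volume (U \ O) = 0) {G : E3 → ℝ} (hG : ContinuousOn G O) {M : ℝ}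
    (hM : ∀ x ∈ O, |G x| ≤ M) : IntegrableOn G U := by
  have hae : O =ᵐ[volume] U := by
    refine Filter.EventuallyLE.antisymm ?_ (ae_le_set.mpr hnull)
    exact Filter.Eventually.of_forall fun x hx => hOU hx
  have h1 : IntegrableOn G O := by
    have : IsFiniteMeasure (volume.restrict O) :=
      ⟨by rw [Measure.restrict_apply_univ]; exact lt_of_le_of_lt (measure_mono hOU) hU⟩
    refine Integrable.of_bound (hG.aestronglyMeasurable hO.measurableSet) M ?_
    refine (ae_restrict_iff' hO.measurableSet).mpr (Eventually.of_forall fun x hx => ?_)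
    rw [Real.norm_eq_abs]
    exact hM x hx
  exact h1.congr_set_ae hae.symm

lemma integrableOn_of_continuousOn (hF : Fol V a b g W) {c d : ℝ} (hcd : c < d) (hc : a < c)
    (hd : d < b) {ψ : ℝ → ℝ} (hψ : Continuous ψ) (hψs : tsupport ψ ⊆ Set.Ioo c d)
    {G : E3 → ℝ} (hG : ContinuousOn G (slab V W c d)) (hdens : ContinuousOn (dens g W) V) :
    IntegrableOn (fun x => ψ (W x) * G x * dens g W x) (slab V W c d) := by
  obtain ⟨c', d', hc', hcd', hd', hsup⟩ := exists_Icc_of_tsupport hcd hψs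
  have hsub : cslab V W c' d' ⊆ slab V W c d := cslab_subset_slab hc' hd'
  have hK : IsCompact (cslab V W c' d') := hF.proper c' d' (hc.trans hc') (hd'.trans hd)
  have h1 : IntegrableOn (fun x => ψ (W x) * G x * dens g W x) (cslab V W c' d') := by
    refine ContinuousOn.integrableOn_compact hK ?_
    have h2 : ContinuousOn (fun x => ψ (W x)) (cslab V W c' d') :=
      hψ.comp_continuousOn (hF.continuousOn.mono (cslab_subset _ _))
    exact (h2.mul (hG.mono hsub)).mul (hdens.mono (cslab_subset _ _))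
  refine h1.of_forall_sdiff_eq_zero (measurableSet_slab hF c d) ?_
  intro x hx
  have h3 : ψ (W x) = 0 := by
    by_contra hne
    exact hx.2 ⟨hx.1.1, hsup _ hne⟩
  rw [h3, zero_mul, zero_mul]

end Integ

end PUNCTH

open PUNCTH in
theorem PUNCT (hSMO : Stmt_SMO) (hRUL : Stmt_RUL) (hIBP : Stmt_IBP)
    (hXIN : Stmt_XIN) (hCHX : Stmt_CHX) (hPHI0 : Stmt_PHI0)
    (hCUT : Stmt_CUT) (hFLUX : Stmt_FLUX) : Stmt_PUNCT := by
  intro V a b g W hF Φ z0 r e hCh t1 hSep u u1 hu hu1 δ hδ ψ hψ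
  obtain ⟨hc, hd, -⟩ := hCHX V a b g W hF Φ z0 r e hCh
  obtain ⟨hOo, hSn, hphi, hloc, C0, hC0, hrho⟩ := hPHI0 V a b g W hF Φ z0 r e hCh t1 hSep
  obtain ⟨hcut1, hcut2, hcut3, hcut4⟩ := hCUT V a b g W hF Φ z0 r e hCh t1 hSep
  have hr : 0 < r := hCh.r_pos
  have he : 0 < e := hCh.e_pos
  have ht1 : 0 < t1 := hSep.1
  set c : ℝ := z0 2 - e with hcdef
  set d : ℝ := z0 2 + e with hddef
  have hcd : c < d := by rw [hcdef, hddef]; linarith
  set U : Set E3 := slab V W c d with hU
  set S : Set E3 := sing g W Φ z0 r e with hS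
  have hUo : IsOpen U := isOpen_slab hF c d
  have hUm : MeasurableSet U := measurableSet_slab hF c d
  have hUV : U ⊆ V := slab_subset c d
  have hOU : U \ S ⊆ U := Set.sdiff_subset
  have hOV : U \ S ⊆ V := hOU.trans hUV
  have hUvol : volume U < ⊤ := volume_slab_lt_top hF hc hd
  have hnull : volume (U \ (U \ S)) = 0 := by
    refine measure_mono_null ?_ hSn
    intro x hx
    by_contra h
    exact hx.2 ⟨hx.1, h⟩
  have hreg : ∀ x ∈ V, Reg g W x := fun x hx => hF.reg hx
  set φ : E3 → ℝ := fun y => phi0 g W Φ z0 r e t1 y + u1 y with hφdef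
  have hφ : ContDiffOn ℝ ∞ φ (U \ S) := hphi.add hu1.contDiffOn
  obtain ⟨hX1, hX2, hX3⟩ := hXIN V a b g W hF (U \ S) φ u δ hOo hOV hφ hu.contDiffOn hδ
  set X : E3 → Cov := Xf g W φ u δ with hX
  -- the flux at the two poles
  have hflux : ∀ τ σ : ℝ, (τ = r / 2 ∧ σ = -(1 / 2)) ∨ (τ = -(r / 2) ∧ σ = 1 / 2) →
      ∃ C t2 : ℝ, 0 < C ∧ 0 < t2 ∧ ∀ x ∈ Φ '' obox z0 r e, 0 < rp g W Φ z0 τ x →
        rp g W Φ z0 τ x < t2 →
        |∑ i, pd i (rp g W Φ z0 τ) x * X x i - (-2)| ≤ C * Real.sqrt (rp g W Φ z0 τ x) := by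
    intro τ σ hτσ
    have hτr : |τ| < r := by
      rcases hτσ with ⟨h, -⟩ | ⟨h, -⟩
      · rw [h, abs_of_pos (by linarith)]; linarith
      · rw [h, abs_neg, abs_of_pos (by linarith)]; linarith
    have hσ : σ = 1 / 2 ∨ σ = -(1 / 2) := by
      rcases hτσ with ⟨-, h⟩ | ⟨-, h⟩
      · exact Or.inr h
      · exact Or.inl h
    have hτ : τ = r / 2 ∨ τ = -(r / 2) := by
      rcases hτσ with ⟨h, -⟩ | ⟨h, -⟩
      · exact Or.inl h
      · exact Or.inr h
    obtain ⟨C, t2, hC, ht2, h⟩ := hFLUX V a b g W hF Φ z0 r e hCh τ σ hτr hσ u1 u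
      hu1.contDiffOn hu.contDiffOn δ hδ
    refine ⟨C, min t2 (t1 / 2), hC, lt_min ht2 (by linarith), ?_⟩
    intro x hx h0 h1
    have h2 := hloc τ hτ x hx h0 (h1.trans_le (min_le_right _ _))
    have h3 : φ =ᶠ[𝓝 x] fun y => σ * Real.log (rp g W Φ z0 τ y) + u1 y := by
      filter_upwards [h2] with y hy
      change phi0 g W Φ z0 r e t1 y + u1 y = _
      rw [hy]
      rcases hτσ with ⟨h, h'⟩ | ⟨h, h'⟩
      · rw [if_pos h, h']; ring
      · rw [if_neg (by rw [h]; linarith), h']; ring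
    have h4 := h x hx h0 (h1.trans_le (min_le_left _ _))
    rw [sub_neg_eq_add, hX, Xf_congr h3]
    exact h4
  obtain ⟨C1, t2, hC1, ht2, hf1⟩ := hflux (-(r / 2)) (1 / 2) (Or.inr ⟨rfl, rfl⟩)
  obtain ⟨C2, t3, hC2, ht3, hf2⟩ := hflux (r / 2) (-(1 / 2)) (Or.inl ⟨rfl, rfl⟩)
  have hlim := hcut4 X (-2) (-2) (max C1 C2) (min t2 t3)
    (fun i => (hX1 i).of_le (by exact_mod_cast le_top)) (lt_min ht2 ht3)
    (fun x hx h0 h1 => (hf1 x hx h0 (h1.trans_le (min_le_left _ _))).trans
      (mul_le_mul_of_nonneg_right (le_max_left _ _) (Real.sqrt_nonneg _)))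
    (fun x hx h0 h1 => (hf2 x hx h0 (h1.trans_le (min_le_right _ _))).trans
      (mul_le_mul_of_nonneg_right (le_max_right _ _) (Real.sqrt_nonneg _)))
    ψ hψ.smooth hψ.supp
  -- regularity
  have hs := fun x (hx : x ∈ V) => hSMO.2 g W x (hreg x hx)
  have hR := fun x (hx : x ∈ V) => hRUL g W x (hreg x hx)
  have hcurv : ContinuousOn (curv g W) V := fun x hx =>
    (hs x hx).2.2.2.2.2.2.2.2.2.2.2.1.continuousAt.continuousWithinAt
  have hdensS : ∀ x ∈ V, ContDiffAt ℝ ∞ (dens g W) x := fun x hx =>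
    (hs x hx).2.2.2.2.2.2.2.2.1
  have hdensC : ContinuousOn (dens g W) V := fun x hx =>
    (hdensS x hx).continuousAt.continuousWithinAt
  have hdens0 : ∀ x ∈ V, 0 < dens g W x := fun x hx => (hs x hx).2.2.2.1
  have hlin : ∀ x ∈ V, ∀ f h : E3 → ℝ, ContDiffAt ℝ ∞ f x → ContDiffAt ℝ ∞ h x →
      ContDiffAt ℝ ∞ (lin g W f h) x := fun x hx f h hf hh =>
    ((hs x hx).2.2.2.2.2.2.2.2.2.2.2.2.1 f h hf hh).1
  have hlap : ∀ x ∈ V, ∀ f : E3 → ℝ, ContDiffAt ℝ ∞ f x →
      ContDiffAt ℝ ∞ (lap g W f) x := fun x hx f hf =>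
    ((hs x hx).2.2.2.2.2.2.2.2.2.2.2.2.1 f f hf hf).2.1
  have hlapC : ∀ f : E3 → ℝ, ContDiff ℝ ∞ f → ContinuousOn (lap g W f) V := fun f hf x hx =>
    (hlap x hx f hf.contDiffAt).continuousAt.continuousWithinAt
  have hφat : ∀ x ∈ U \ S, ContDiffAt ℝ ∞ φ x := fun x hx => hφ.contDiffAt (hOo.mem_nhds hx)
  have hXat : ∀ x ∈ U \ S, ∀ i, ContDiffAt ℝ ∞ (fun y => X y i) x := fun x hx i =>
    (hX1 i).contDiffAt (hOo.mem_nhds hx)
  have hlin0 : ∀ x ∈ V, 0 ≤ lin g W φ φ x := fun x hx => ((hR x hx).2.2.1 φ φ).2.1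
  have hw0 : ∀ x, 0 < δ * Real.exp (2 * u x) := fun x => by positivity
  have hψW : ContinuousOn (fun x => ψ (W x)) V :=
    hψ.smooth.continuous.comp_continuousOn hF.continuousOn
  have hae : ∀ᵐ x ∂volume.restrict U, x ∈ U \ S := by
    have h1 : ∀ᵐ x ∂volume.restrict U, x ∉ S :=
      ae_restrict_of_ae (measure_eq_zero_iff_ae_notMem.mp hSn)
    filter_upwards [h1, ae_restrict_mem hUm] with x hx hx'
    exact ⟨hx', hx⟩
  have hbound : ∀ F : E3 → ℝ, ContinuousOn F V → ∃ M : ℝ, ∀ x ∈ U, |F x| ≤ M := by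
    intro F hFc
    obtain ⟨M, hM⟩ := (hF.proper c d hc hd).exists_bound_of_continuousOn
      (hFc.mono (cslab_subset c d))
    exact ⟨M, fun x hx => hM x (slab_subset_cslab c d hx)⟩
  -- the two main functions
  set A : E3 → ℝ := fun x => (curv g W x - lap g W u x)
    * (lin g W φ φ x / (lin g W φ φ x + δ * Real.exp (2 * u x))) with hA
  set E : E3 → ℝ := fun x => (rho0 g W Φ z0 r e t1 x + lap g W u1 x) ^ 2
    / (2 * δ * Real.exp (2 * u x)) with hE
  have hexpC : Continuous fun x => Real.exp (2 * u x) :=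
    Real.continuous_exp.comp (continuous_const.mul hu.continuous)
  have hAC : ContinuousOn A (U \ S) := by
    intro x hx
    have h1 := (hlin x (hOV hx) φ φ (hφat x hx) (hφat x hx)).continuousAt
    have h2 := (hcurv.continuousAt (hF.isOpen.mem_nhds (hOV hx)))
    have h3 := (hlapC u hu).continuousAt (hF.isOpen.mem_nhds (hOV hx))
    have h4 : lin g W φ φ x + δ * Real.exp (2 * u x) ≠ 0 := by
      have := hlin0 x (hOV hx)
      have := hw0 x
      positivity
    exact ((h2.sub h3).mul (h1.div (h1.add (continuousAt_const.mul hexpC.continuousAt))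
      h4)).continuousWithinAt
  have hfrac : ∀ x ∈ V, 0 ≤ lin g W φ φ x / (lin g W φ φ x + δ * Real.exp (2 * u x)) ∧
      lin g W φ φ x / (lin g W φ φ x + δ * Real.exp (2 * u x)) ≤ 1 := by
    intro x hx
    have h1 := hlin0 x hx
    have h2 := hw0 x
    constructor
    · positivity
    · rw [div_le_one (by linarith)]
      linarith
  have hAb : ∀ x ∈ V, |A x| ≤ |curv g W x - lap g W u x| := by
    intro x hx
    obtain ⟨h1, h2⟩ := hfrac x hx
    rw [hA]
    change |(curv g W x - lap g W u x) * _| ≤ _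
    rw [abs_mul, abs_of_nonneg h1]
    exact mul_le_of_le_one_right (abs_nonneg _) h2
  have hlapφ : ∀ x ∈ U \ S, lap g W φ x = rho0 g W Φ z0 r e t1 x + lap g W u1 x := by
    intro x hx
    have h1 : ContDiffAt ℝ 2 (phi0 g W Φ z0 r e t1) x :=
      (hphi.contDiffAt (hOo.mem_nhds hx)).of_le ENat.LEInfty.out
    have h2 : ContDiffAt ℝ 2 u1 x := hu1.contDiffAt.of_le ENat.LEInfty.out
    have h3 := ((hR x (hOV hx)).2.2.2.2.2.1 _ _ h1 h2).1
    rw [hφdef, h3]
    congr 1
    unfold rho0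
    rw [if_neg hx.2]
  have hEC : ContinuousOn E (U \ S) := by
    have h1 : ContinuousOn (lap g W φ) (U \ S) := fun x hx =>
      (hlap x (hOV hx) φ (hφat x hx)).continuousAt.continuousWithinAt
    have h2 : ContinuousOn (fun x => lap g W φ x ^ 2 / (2 * δ * Real.exp (2 * u x)))
        (U \ S) := by
      refine (h1.pow 2).div (continuous_const.mul hexpC).continuousOn ?_
      intro x _
      positivity
    refine h2.congr fun x hx => ?_
    rw [hE]
    change (rho0 g W Φ z0 r e t1 x + lap g W u1 x) ^ 2 / _ = lap g W φ x ^ 2 / _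
    rw [hlapφ x hx]
  -- integrability
  obtain ⟨M1, hM1⟩ := hbound (fun x => ψ (W x) * (curv g W x - lap g W u x) * dens g W x)
    ((hψW.mul (hcurv.sub (hlapC u hu))).mul hdensC)
  obtain ⟨M2, hM2⟩ := hbound (fun x => ψ (W x) / (2 * δ * Real.exp (2 * u x)) * dens g W x)
    ((hψW.div (continuous_const.mul hexpC).continuousOn
      (fun x _ => (mul_pos (mul_pos two_pos hδ) (Real.exp_pos _)).ne')).mul hdensC)
  obtain ⟨M3, hM3⟩ := hbound (lap g W u1) (hlapC u1 hu1)
  have hψA : ∀ η : E3 → ℝ, ContinuousOn η (U \ S) → (∀ x ∈ U \ S, 0 ≤ η x ∧ η x ≤ 1) →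
      IntegrableOn (fun x => ψ (W x) * (η x * A x) * dens g W x) U := by
    intro η hη hη1
    refine integrableOn_bdd hOo hOU hUvol hnull
      (((hψW.mono hOV).mul (hη.mul hAC)).mul (hdensC.mono hOV)) (M := M1) ?_
    intro x hx
    refine le_trans ?_ (hM1 x (hOU hx))
    obtain ⟨h1, h2⟩ := hη1 x hx
    have h3 : |ψ (W x) * (η x * A x) * dens g W x| = |ψ (W x)| * (η x * |A x|)
        * |dens g W x| := by
      rw [abs_mul, abs_mul, abs_mul (η x), abs_of_nonneg h1]
    have h4 : |ψ (W x) * (curv g W x - lap g W u x) * dens g W x| =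
        |ψ (W x)| * |curv g W x - lap g W u x| * |dens g W x| := by
      rw [abs_mul, abs_mul]
    rw [h3, h4]
    refine mul_le_mul_of_nonneg_right ?_ (abs_nonneg _)
    refine mul_le_mul_of_nonneg_left ?_ (abs_nonneg _)
    exact (mul_le_of_le_one_left (abs_nonneg _) h2).trans (hAb x (hOV hx))
  have hψE : IntegrableOn (fun x => ψ (W x) * E x * dens g W x) U := by
    refine integrableOn_bdd hOo hOU hUvol hnull
      (((hψW.mono hOV).mul hEC).mul (hdensC.mono hOV)) (M := (C0 + M3) ^ 2 * M2) ?_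
    intro x hx
    have h1 : |rho0 g W Φ z0 r e t1 x + lap g W u1 x| ≤ C0 + M3 :=
      (abs_add_le _ _).trans (add_le_add (hrho x (hOU hx)) (hM3 x (hOU hx)))
    have h2 : (rho0 g W Φ z0 r e t1 x + lap g W u1 x) ^ 2 ≤ (C0 + M3) ^ 2 := by
      rw [← sq_abs]
      exact pow_le_pow_left₀ (abs_nonneg _) h1 2
    have h3 := hM2 x (hOU hx)
    have h4 : ψ (W x) * E x * dens g W x =
        (rho0 g W Φ z0 r e t1 x + lap g W u1 x) ^ 2
          * (ψ (W x) / (2 * δ * Real.exp (2 * u x)) * dens g W x) := by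
      rw [hE]
      ring
    rw [h4, abs_mul, abs_of_nonneg (sq_nonneg _)]
    exact mul_le_mul h2 h3 (abs_nonneg _) (by positivity)
  -- the cut-off at the level `t`
  have hcutS : ∀ t, 0 < t → t < t1 → ∀ x ∈ U \ S,
      ContDiffAt ℝ ∞ (cut g W Φ z0 r e t) x := fun t h0 h1 x hx =>
    (hcut1 t h0 h1).1.contDiffAt (hUo.mem_nhds (hOU hx))
  have hY : ∀ t, 0 < t → t < t1 → ∀ i,
      ContDiffOn ℝ ∞ (fun x => cut g W Φ z0 r e t x * X x i) U := by
    intro t h0 h1 i x hx
    refine ContDiffAt.contDiffWithinAt ?_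
    by_cases hxS : x ∈ S
    · have h2 := (hcut1 t h0 h1).2 x hxS
      refine (contDiffAt_const (c := (0 : ℝ))).congr_of_eventuallyEq ?_
      filter_upwards [h2] with y hy
      rw [hy, zero_mul]
    · exact (hcutS t h0 h1 x ⟨hx, hxS⟩).mul (hXat x ⟨hx, hxS⟩ i)
  have hldX : ∀ x ∈ U \ S, ContinuousAt (ldiv g W X) x := by
    intro x hx
    have h1 : ∀ i : Fin 3, ContinuousAt (pd i (fun y => dens g W y * X y i)) x := fun i =>
      (pd_contDiffAt ((hdensS x (hOV hx)).mul (hXat x hx i)) i).continuousAt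
    have h2 : ContinuousAt (fun y => ∑ i, pd i (fun z => dens g W z * X z i) y) x :=
      tendsto_finsetSum _ fun i _ => h1 i
    exact h2.div (hdensS x (hOV hx)).continuousAt (hdens0 x (hOV hx)).ne'
  have hG1 : ∀ t, 0 < t → t < t1 →
      ContinuousOn (fun x => cut g W Φ z0 r e t x * ldiv g W X x) U := by
    intro t h0 h1 x hx
    refine ContinuousAt.continuousWithinAt ?_
    by_cases hxS : x ∈ S
    · have h2 := (hcut1 t h0 h1).2 x hxS
      refine (continuousAt_const (y := (0 : ℝ))).congr ?_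
      filter_upwards [h2] with y hy
      rw [hy, zero_mul]
    · exact (hcutS t h0 h1 x ⟨hx, hxS⟩).continuousAt.mul (hldX x ⟨hx, hxS⟩)
  have hG2 : ∀ t, 0 < t → t < t1 →
      ContinuousOn (fun x => ∑ i, pd i (cut g W Φ z0 r e t) x * X x i) U := by
    intro t h0 h1 x hx
    refine ContinuousAt.continuousWithinAt ?_
    by_cases hxS : x ∈ S
    · have h2 : cut g W Φ z0 r e t =ᶠ[𝓝 x] fun _ => 0 := (hcut1 t h0 h1).2 x hxS
      refine (continuousAt_const (y := (0 : ℝ))).congr ?_
      filter_upwards [h2.eventuallyEq_nhds] with y hy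
      symm
      refine Finset.sum_eq_zero fun i _ => ?_
      rw [pd_congr hy i]
      simp [pd]
    · refine tendsto_finsetSum _ fun i _ => ?_
      exact (pd_contDiffAt (hcutS t h0 h1 x ⟨hx, hxS⟩) i).continuousAt.mul
        (hXat x ⟨hx, hxS⟩ i).continuousAt
  have hI1 := fun t h0 h1 => integrableOn_of_continuousOn hF hcd hc hd hψ.smooth.continuous
    hψ.supp (hG1 t h0 h1) hdensC
  have hI2 := fun t h0 h1 => integrableOn_of_continuousOn hF hcd hc hd hψ.smooth.continuous
    hψ.supp (hG2 t h0 h1) hdensC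
  -- integration by parts
  have hid : ∀ t, 0 < t → t < t1 →
      ∫ x in U, ψ (W x) * (cut g W Φ z0 r e t x * ldiv g W X x) * dens g W x =
        - ∫ x in U, ψ (W x) * (∑ i, pd i (cut g W Φ z0 r e t) x * X x i) * dens g W x := by
    intro t h0 h1
    have h2 := (hIBP U c d g W (hF.sub hc.le hd.le)).1
      (fun x i => cut g W Φ z0 r e t x * X x i) ψ
      (fun i => (hY t h0 h1 i).of_le (by exact_mod_cast le_top)) ?_ hψ.smooth hψ.supp
    · rw [eq_neg_iff_add_eq_zero, ← integral_add (hI1 t h0 h1) (hI2 t h0 h1), ← h2]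
      refine integral_congr_ae ?_
      filter_upwards [hae] with x hx
      have h3 := (hR x (hOV hx)).2.2.2.2.2.2.2.2.2.2.2 (cut g W Φ z0 r e t) X
        ((hcutS t h0 h1 x hx).differentiableAt (by simp))
        (fun i => (hXat x hx i).differentiableAt (by simp))
      rw [h3]
      have h4 : ∑ i, X x i * grad (cut g W Φ z0 r e t) x i =
          ∑ i, pd i (cut g W Φ z0 r e t) x * X x i :=
        Finset.sum_congr rfl fun i _ => mul_comm _ _
      rw [h4]
      ring
    · intro x hx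
      by_cases hxS : x ∈ S
      · have h3 := ((hcut1 t h0 h1).2 x hxS).self_of_nhds
        simp [h3]
      · have h3 := hX2 x ⟨hx, hxS⟩
        simp_rw [mul_assoc]
        rw [← Finset.mul_sum, h3, mul_zero]
  have hIoo : ∀ᶠ t in 𝓝[>] (0 : ℝ), 0 < t ∧ t < t1 := by
    filter_upwards [Ioo_mem_nhdsGT ht1] with t ht
    exact ht
  have hlim' : Tendsto (fun t => ∫ x in U, ψ (W x) * (cut g W Φ z0 r e t x * ldiv g W X x)
      * dens g W x) (𝓝[>] 0) (𝓝 (4 * Real.pi * ∫ s, ψ s)) := by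
    have h1 := hlim.neg
    have h2 : -((-2 + -2) * Real.pi * ∫ s, ψ s) = 4 * Real.pi * ∫ s, ψ s := by ring
    rw [h2] at h1
    refine h1.congr' ?_
    filter_upwards [hIoo] with t ht
    exact (hid t ht.1 ht.2).symm
  -- the inequality at the level `t`
  have hcutC : ∀ t, 0 < t → t < t1 → ContinuousOn (cut g W Φ z0 r e t) (U \ S) :=
    fun t h0 h1 => (hcut1 t h0 h1).1.continuousOn.mono hOU
  have hI3 := fun t h0 h1 => hψA (cut g W Φ z0 r e t) (hcutC t h0 h1) (fun x _ => hcut2 t x)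
  have hle : ∀ t, 0 < t → t < t1 →
      ∫ x in U, ψ (W x) * (cut g W Φ z0 r e t x * A x) * dens g W x ≤
        (∫ x in U, ψ (W x) * (cut g W Φ z0 r e t x * ldiv g W X x) * dens g W x)
          + ∫ x in U, ψ (W x) * E x * dens g W x := by
    intro t h0 h1
    rw [← integral_add (hI1 t h0 h1) hψE]
    refine integral_mono_ae (hI3 t h0 h1) ((hI1 t h0 h1).add hψE) ?_
    filter_upwards [hae] with x hx
    have h2 := hX3 x hx
    rw [hlapφ x hx] at h2
    obtain ⟨h3, h4⟩ := hcut2 t x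
    have h5 := hψ.nonneg (W x)
    have h6 := (hdens0 x (hOV hx)).le
    have h7 := hlin0 x (hOV hx)
    have h8 := hw0 x
    set w : ℝ := δ * Real.exp (2 * u x) with hw
    set f : ℝ := lin g W φ φ x with hf
    set L : ℝ := rho0 g W Φ z0 r e t1 x + lap g W u1 x with hL
    have h9 : w * L ^ 2 / (2 * (f + w) ^ 2) ≤ L ^ 2 / (2 * w) := by
      rw [div_le_div_iff₀ (by positivity) (by positivity)]
      have : w ^ 2 ≤ (f + w) ^ 2 := pow_le_pow_left₀ h8.le (by linarith) 2
      nlinarith [sq_nonneg L]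
    have h10 : 0 ≤ w * L ^ 2 / (2 * (f + w) ^ 2) := by positivity
    have hEx : E x = L ^ 2 / (2 * w) := by
      rw [hE, hw, ← mul_assoc]
    have h11 : cut g W Φ z0 r e t x * A x ≤ cut g W Φ z0 r e t x * ldiv g W X x + E x := by
      have h12 : A x ≤ ldiv g W X x + w * L ^ 2 / (2 * (f + w) ^ 2) := by
        rw [hA]
        linarith
      calc cut g W Φ z0 r e t x * A x
          ≤ cut g W Φ z0 r e t x * (ldiv g W X x + w * L ^ 2 / (2 * (f + w) ^ 2)) :=
            mul_le_mul_of_nonneg_left h12 h3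
        _ = cut g W Φ z0 r e t x * ldiv g W X x
            + cut g W Φ z0 r e t x * (w * L ^ 2 / (2 * (f + w) ^ 2)) := by ring
        _ ≤ cut g W Φ z0 r e t x * ldiv g W X x + E x := by
            rw [hEx]
            have := mul_le_of_le_one_left h10 h4
            linarith
    change ψ (W x) * (cut g W Φ z0 r e t x * A x) * dens g W x ≤
      ψ (W x) * (cut g W Φ z0 r e t x * ldiv g W X x) * dens g W x + ψ (W x) * E x * dens g W x
    rw [← add_mul, ← mul_add]
    exact mul_le_mul_of_nonneg_right (mul_le_mul_of_nonneg_left h11 h5) h6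
  -- the limit of the left-hand side
  have hψA1 : IntegrableOn (fun x => ψ (W x) * A x * dens g W x) U := by
    have h1 := hψA (fun _ => 1) continuousOn_const (fun _ _ => ⟨zero_le_one, le_rfl⟩)
    simpa using h1
  have hlimA : Tendsto (fun t => ∫ x in U, ψ (W x) * (cut g W Φ z0 r e t x * A x) * dens g W x)
      (𝓝[>] 0) (𝓝 (∫ x in U, ψ (W x) * A x * dens g W x)) := by
    refine tendsto_integral_filter_of_dominated_convergence
      (fun x => ‖ψ (W x) * A x * dens g W x‖) ?_ ?_ hψA1.norm ?_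
    · filter_upwards [hIoo] with t ht
      exact (hI3 t ht.1 ht.2).aestronglyMeasurable
    · refine Filter.Eventually.of_forall fun t => Filter.Eventually.of_forall fun x => ?_
      have h1 : ψ (W x) * (cut g W Φ z0 r e t x * A x) * dens g W x =
          cut g W Φ z0 r e t x * (ψ (W x) * A x * dens g W x) := by ring
      rw [h1, norm_mul, Real.norm_eq_abs (cut g W Φ z0 r e t x), abs_of_nonneg (hcut2 t x).1]
      exact mul_le_of_le_one_left (norm_nonneg _) (hcut2 t x).2
    · filter_upwards [hae] with x hx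
      have h1 := hcut3 x hx.1 hx.2
      have h2 := ((h1.mul_const (A x)).const_mul (ψ (W x))).mul_const (dens g W x)
      rw [one_mul] at h2
      exact h2
  have hfin := le_of_tendsto_of_tendsto hlimA (hlim'.add_const _)
    (by filter_upwards [hIoo] with t ht; exact hle t ht.1 ht.2)
  have h1 : ∀ x, ψ (W x) * (curv g W x - lap g W u x)
      * (lin g W φ φ x / (lin g W φ φ x + δ * Real.exp (2 * u x))) * dens g W x =
      ψ (W x) * A x * dens g W x := fun x => by rw [hA]; ring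
  calc _ = ∫ x in U, ψ (W x) * A x * dens g W x := integral_congr_ae (Filter.Eventually.of_forall h1)
    _ ≤ _ := hfin

end Pool.Agent.PFlow.GB


end

section

/-!
# The residual as a function of the gradient and the Hessian
-/

set_option autoImplicit false

namespace Pool.Agent.PFlow

open Pool.Agent.PenroseSph

namespace MCHD

theorem vn_nonneg (p : Cov) : 0 ≤ vn p := Real.sqrt_nonneg _

theorem vsq_nonneg (p : Cov) : 0 ≤ vsq p := Finset.sum_nonneg fun _ _ => sq_nonneg _

theorem vn_sq (p : Cov) : vn p ^ 2 = vsq p := Real.sq_sqrt (vsq_nonneg p)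

theorem abs_le_vn (p : Cov) (i : Fin 3) : |p i| ≤ vn p := by
  unfold vn
  apply Real.abs_le_sqrt
  exact Finset.single_le_sum (f := fun i => p i ^ 2) (fun i _ => sq_nonneg _) (Finset.mem_univ i)

theorem vn_pos (p : Cov) (hp : p ≠ 0) : 0 < vn p := by
  obtain ⟨i, hi⟩ := Function.ne_iff.mp hp
  have h1 : 0 < |p i| := abs_pos.mpr hi
  exact lt_of_lt_of_le h1 (abs_le_vn p i)

theorem abs_le_msq (M : Bil) (i j : Fin 3) : |M i j| ≤ Real.sqrt (msq M) := by
  apply Real.abs_le_sqrt
  calc M i j ^ 2 ≤ ∑ j, M i j ^ 2 :=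
        Finset.single_le_sum (f := fun j => M i j ^ 2) (fun i _ => sq_nonneg _)
          (Finset.mem_univ j)
    _ ≤ ∑ i, ∑ j, M i j ^ 2 :=
        Finset.single_le_sum (f := fun i => ∑ j, M i j ^ 2)
          (fun i _ => Finset.sum_nonneg fun j _ => sq_nonneg _) (Finset.mem_univ i)

theorem sum3 (f : Fin 3 → ℝ) (b : ℝ) (h : ∀ i, |f i| ≤ b) : |∑ i, f i| ≤ 3 * b := by
  calc |∑ i, f i| ≤ ∑ i, |f i| := Finset.abs_sum_le_sum_abs _ _
    _ ≤ ∑ _i : Fin 3, b := Finset.sum_le_sum fun i _ => h i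
    _ = 3 * b := by simp

theorem sum9 (f : Fin 3 → Fin 3 → ℝ) (b : ℝ) (h : ∀ i j, |f i j| ≤ b) :
    |∑ i, ∑ j, f i j| ≤ 9 * b := by
  have := sum3 (fun i => ∑ j, f i j) (3 * b) (fun i => sum3 _ _ (h i))
  linarith

theorem mul_bd {a b A B : ℝ} (ha : |a| ≤ A) (hb : |b| ≤ B) : |a * b| ≤ A * B := by
  rw [abs_mul]
  exact mul_le_mul ha hb (abs_nonneg _) (le_trans (abs_nonneg _) ha)

/-- The bounds at a point. -/
structure Bd (C : ℝ) (g h : TensorField) (x : E3) : Prop where
  one : 1 ≤ C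
  lo : ∀ p, vsq p / C ≤ ev (g x)⁻¹ p p
  hi : ∀ p, ev (g x)⁻¹ p p ≤ C * vsq p
  ch : ∀ k i j, |christoffel g k i j x| ≤ C
  hh : ∀ i j, |h x i j| ≤ C
  inv : ∀ i j, |(g x)⁻¹ i j| ≤ C

/-- The lower order part of the Hessian. -/
noncomputable def gam (g : TensorField) (x : E3) (p : Cov) : Bil :=
  Matrix.of fun i j => ∑ k, christoffel g k i j x * p k

theorem cHess_eq (g : TensorField) (x : E3) (p : Cov) (M : Bil) :
    cHess g x p M = M - gam g x p := by
  ext i j
  simp [cHess, gam]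

theorem gam_sub (g : TensorField) (x : E3) (p q : Cov) :
    gam g x (p - q) = gam g x p - gam g x q := by
  ext i j
  simp [gam, mul_sub, Finset.sum_sub_distrib]

theorem ev_sub (A B : Bil) (v w : Cov) : ev (A - B) v w = ev A v w - ev B v w := by
  simp [ev, sub_mul, Finset.sum_sub_distrib]

theorem trg_sub (g : TensorField) (x : E3) (A B : Bil) :
    trg g x (A - B) = trg g x A - trg g x B := by
  simp [trg, mul_sub, Finset.sum_sub_distrib]

theorem bnn_sub (g : TensorField) (x : E3) (p : Cov) (A B : Bil) :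
    bnn g x p (A - B) = bnn g x p A - bnn g x p B := ev_sub _ _ _ _

theorem beps_sub (ε : ℝ) (g : TensorField) (x : E3) (p : Cov) (A B : Bil) :
    beps ε g x p (A - B) = beps ε g x p A - beps ε g x p B := by
  simp only [beps, trg_sub, bnn_sub]
  ring

theorem ev_bd (B : Bil) (v w : Cov) (β a b : ℝ) (hB : ∀ i j, |B i j| ≤ β) (hv : ∀ i, |v i| ≤ a)
    (hw : ∀ i, |w i| ≤ b) : |ev B v w| ≤ 9 * (β * a * b) :=
  sum9 _ _ fun i j => mul_bd (mul_bd (hB i j) (hv i)) (hw j)

theorem ev_diff (B : Bil) (v w : Cov) (β a d : ℝ) (hB : ∀ i j, |B i j| ≤ β)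
    (hv : ∀ i, |v i| ≤ a) (hw : ∀ i, |w i| ≤ a) (hd : ∀ i, |v i - w i| ≤ d) :
    |ev B v v - ev B w w| ≤ 18 * (β * a * d) := by
  have h1 : ev B v v - ev B w w = ev B (v - w) v + ev B w (v - w) := by
    simp only [ev, ← Finset.sum_sub_distrib, ← Finset.sum_add_distrib, Pi.sub_apply]
    refine Finset.sum_congr rfl fun i _ => Finset.sum_congr rfl fun j _ => ?_
    ring
  rw [h1]
  have h2 := ev_bd B (v - w) v β d a hB (fun i => hd i) hv
  have h3 := ev_bd B w (v - w) β a d hB hw (fun i => hd i)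
  have h4 := abs_add_le (ev B (v - w) v) (ev B w (v - w))
  have h5 : β * d * a = β * a * d := by ring
  rw [h5] at h2
  linarith

section Point

variable {C ε : ℝ} {g h : TensorField} {x : E3}

theorem len_nonneg (g : TensorField) (x : E3) (p : Cov) : 0 ≤ len g x p := Real.sqrt_nonneg _

theorem len_sq (B : Bd C g h x) (p : Cov) : len g x p ^ 2 = ev (g x)⁻¹ p p := by
  apply Real.sq_sqrt
  have h1 := B.lo p
  have h2 : 0 ≤ vsq p / C := div_nonneg (vsq_nonneg p) (by linarith [B.one])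
  linarith

theorem len_le (B : Bd C g h x) (p : Cov) : len g x p ≤ C * vn p := by
  have hC := B.one
  have hv := vn_nonneg p
  have h0 : 0 ≤ C * vn p := by positivity
  refine (pow_le_pow_iff_left₀ (len_nonneg g x p) h0 two_ne_zero).mp ?_
  rw [len_sq B]
  have h1 := B.hi p
  rw [← vn_sq] at h1
  have h2 : 0 ≤ C * (C - 1) * vn p ^ 2 := by
    have : 0 ≤ C - 1 := by linarith
    positivity
  nlinarith

theorem vn_le (B : Bd C g h x) (p : Cov) : vn p ≤ C * len g x p := by
  have hC := B.one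
  have hC0 : 0 < C := by linarith
  have hl := len_nonneg g x p
  have h0 : 0 ≤ C * len g x p := by positivity
  refine (pow_le_pow_iff_left₀ (vn_nonneg p) h0 two_ne_zero).mp ?_
  have h1 := B.lo p
  rw [← len_sq B, ← vn_sq, div_le_iff₀ hC0] at h1
  have h2 : 0 ≤ C * (C - 1) * len g x p ^ 2 := by
    have : 0 ≤ C - 1 := by linarith
    positivity
  nlinarith

theorem len_pos (B : Bd C g h x) (p : Cov) (hp : p ≠ 0) : 0 < len g x p := by
  have h1 := vn_le B p
  have h2 := vn_pos p hp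
  have hC := B.one
  by_contra h3
  have h4 : len g x p ≤ 0 := not_lt.mp h3
  have h5 : C * len g x p ≤ 0 := mul_nonpos_of_nonneg_of_nonpos (by linarith) h4
  linarith

theorem raise_bd (B : Bd C g h x) (p : Cov) (i : Fin 3) : |raise g x p i| ≤ 3 * (C * vn p) :=
  sum3 _ _ fun j => mul_bd (B.inv i j) (abs_le_vn p j)

theorem raise_sub (g : TensorField) (x : E3) (p q : Cov) (i : Fin 3) :
    raise g x (p - q) i = raise g x p i - raise g x q i := by
  simp [raise, mul_sub, Finset.sum_sub_distrib]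

theorem nrm_bd (B : Bd C g h x) (p : Cov) (i : Fin 3) : |nrm g x p i| ≤ 3 * C ^ 2 := by
  have hC := B.one
  have hC0 : 0 < C := by linarith
  by_cases hp : p = 0
  · subst hp
    have : nrm g x 0 i = 0 := by simp [nrm, raise]
    rw [this, abs_zero]
    positivity
  · have hl := len_pos B p hp
    unfold nrm
    rw [abs_div, abs_of_pos hl, div_le_iff₀ hl]
    have h1 := raise_bd B p i
    have h2 := vn_le B p
    have h3 : C * vn p ≤ C * (C * len g x p) := mul_le_mul_of_nonneg_left h2 hC0.le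
    nlinarith

theorem len_diff (B : Bd C g h x) (p q : Cov) :
    |len g x q - len g x p| ≤ 9 * C ^ 2 * vn (q - p) := by
  have hC := B.one
  have hC0 : 0 < C := by linarith
  have hp := len_nonneg g x p
  have hq := len_nonneg g x q
  have hd := vn_nonneg (q - p)
  have h1 : len g x q ^ 2 - len g x p ^ 2 = ev (g x)⁻¹ (q - p) q + ev (g x)⁻¹ p (q - p) := by
    rw [len_sq B, len_sq B]
    simp only [ev, ← Finset.sum_sub_distrib, ← Finset.sum_add_distrib, Pi.sub_apply]
    refine Finset.sum_congr rfl fun i _ => Finset.sum_congr rfl fun j _ => ?_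
    ring
  have h2 := ev_bd (g x)⁻¹ (q - p) q C (vn (q - p)) (vn q) B.inv (abs_le_vn _) (abs_le_vn _)
  have h3 := ev_bd (g x)⁻¹ p (q - p) C (vn p) (vn (q - p)) B.inv (abs_le_vn _) (abs_le_vn _)
  have h4 := abs_add_le (ev (g x)⁻¹ (q - p) q) (ev (g x)⁻¹ p (q - p))
  rw [← h1] at h4
  have h5 := vn_le B p
  have h6 := vn_le B q
  rcases eq_or_lt_of_le (add_nonneg hp hq) with h0 | h0
  · have e1 : len g x p = 0 := by linarith
    have e2 : len g x q = 0 := by linarith
    rw [e1, e2, sub_zero, abs_zero]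
    positivity
  · have h7 : |len g x q - len g x p| * (len g x p + len g x q)
        ≤ 9 * C ^ 2 * vn (q - p) * (len g x p + len g x q) := by
      have h8 : |len g x q - len g x p| * (len g x p + len g x q)
          = |len g x q ^ 2 - len g x p ^ 2| := by
        have e3 : len g x q ^ 2 - len g x p ^ 2
            = (len g x q - len g x p) * (len g x p + len g x q) := by ring
        rw [e3, abs_mul, abs_of_pos h0]
      rw [h8]
      have h9 : C * vn (q - p) * vn q ≤ C * vn (q - p) * (C * len g x q) :=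
        mul_le_mul_of_nonneg_left h6 (by positivity)
      have h10 : C * vn (q - p) * vn p ≤ C * vn (q - p) * (C * len g x p) :=
        mul_le_mul_of_nonneg_left h5 (by positivity)
      have h11 : C * vn p * vn (q - p) = C * vn (q - p) * vn p := by ring
      rw [h11] at h3
      nlinarith
    exact le_of_mul_le_mul_right h7 h0

theorem len_sq_diff (B : Bd C g h x) (p q : Cov) :
    |len g x q ^ 2 - len g x p ^ 2| ≤ 9 * C * (vn (q - p) * (vn p + vn q)) := by
  have h1 : len g x q ^ 2 - len g x p ^ 2 = ev (g x)⁻¹ (q - p) q + ev (g x)⁻¹ p (q - p) := by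
    rw [len_sq B, len_sq B]
    simp only [ev, ← Finset.sum_sub_distrib, ← Finset.sum_add_distrib, Pi.sub_apply]
    refine Finset.sum_congr rfl fun i _ => Finset.sum_congr rfl fun j _ => ?_
    ring
  have h2 := ev_bd (g x)⁻¹ (q - p) q C (vn (q - p)) (vn q) B.inv (abs_le_vn _) (abs_le_vn _)
  have h3 := ev_bd (g x)⁻¹ p (q - p) C (vn p) (vn (q - p)) B.inv (abs_le_vn _) (abs_le_vn _)
  have h4 := abs_add_le (ev (g x)⁻¹ (q - p) q) (ev (g x)⁻¹ p (q - p))
  rw [← h1] at h4
  nlinarith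

/-- `|p| |ν' - ν| ≤ C |p' - p|`. -/
theorem nrm_diff (B : Bd C g h x) (p q : Cov) (hp : p ≠ 0) (hq : q ≠ 0) (i : Fin 3) :
    vn p * |nrm g x q i - nrm g x p i| ≤ 30 * C ^ 5 * vn (q - p) := by
  have hC := B.one
  have hC0 : 0 < C := by linarith
  have hlp := len_pos B p hp
  have hlq := len_pos B q hq
  have hd := vn_nonneg (q - p)
  have h1 : len g x p * (nrm g x q i - nrm g x p i)
      = raise g x (q - p) i + nrm g x q i * (len g x p - len g x q) := by
    rw [raise_sub]
    unfold nrm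
    field_simp
    ring
  have h2 := raise_bd B (q - p) i
  have h3 : |len g x p - len g x q| ≤ 9 * C ^ 2 * vn (q - p) := by
    rw [abs_sub_comm]
    exact len_diff B p q
  have h4 := mul_bd (nrm_bd B q i) h3
  have h5 := abs_add_le (raise g x (q - p) i) (nrm g x q i * (len g x p - len g x q))
  rw [← h1, abs_mul, abs_of_pos hlp] at h5
  have h6 : len g x p * |nrm g x q i - nrm g x p i|
      ≤ 30 * C ^ 4 * vn (q - p) := by
    have h7 : 3 * (C * vn (q - p)) ≤ 3 * (C ^ 4 * vn (q - p)) := by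
      have : C ≤ C ^ 4 := le_self_pow₀ hC (by norm_num)
      have := mul_le_mul_of_nonneg_right this hd
      linarith
    have h8 : 3 * C ^ 2 * (9 * C ^ 2 * vn (q - p)) = 27 * (C ^ 4 * vn (q - p)) := by ring
    rw [h8] at h4
    linarith
  calc vn p * |nrm g x q i - nrm g x p i|
      ≤ C * len g x p * |nrm g x q i - nrm g x p i| :=
        mul_le_mul_of_nonneg_right (vn_le B p) (abs_nonneg _)
    _ = C * (len g x p * |nrm g x q i - nrm g x p i|) := by ring
    _ ≤ C * (30 * C ^ 4 * vn (q - p)) := mul_le_mul_of_nonneg_left h6 hC0.le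
    _ = 30 * C ^ 5 * vn (q - p) := by ring

/-- `|ν' - ν| ≤ C min(1, |p' - p| / |p|)`. -/
theorem nrm_min (B : Bd C g h x) (p q : Cov) (hp : p ≠ 0) (hq : q ≠ 0) (i : Fin 3) :
    |nrm g x q i - nrm g x p i| ≤ 30 * C ^ 5 * min 1 (vn (q - p) / vn p) := by
  have hC := B.one
  have hC0 : 0 < C := by linarith
  have hv := vn_pos p hp
  rw [mul_min_of_nonneg _ _ (by positivity : (0 : ℝ) ≤ 30 * C ^ 5)]
  apply le_min
  · have h1 := nrm_bd B p i
    have h2 := nrm_bd B q i
    have h3 := abs_sub (nrm g x q i) (nrm g x p i)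
    have h4 : C ^ 2 ≤ C ^ 5 := pow_le_pow_right₀ hC (by norm_num)
    have h5 : 0 < C ^ 2 := by positivity
    linarith
  · rw [← mul_div_assoc, le_div_iff₀ hv, mul_comm]
    exact nrm_diff B p q hp hq i

theorem trg_bd (B : Bd C g h x) (A : Bil) (β : ℝ) (hA : ∀ i j, |A i j| ≤ β) :
    |trg g x A| ≤ 9 * (C * β) :=
  sum9 _ _ fun i j => mul_bd (B.inv i j) (hA i j)

theorem bnn_bd (B : Bd C g h x) (p : Cov) (A : Bil) (β : ℝ) (hA : ∀ i j, |A i j| ≤ β) :
    |bnn g x p A| ≤ 81 * (C ^ 4 * β) := by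
  have h1 := ev_bd A (nrm g x p) (nrm g x p) β (3 * C ^ 2) (3 * C ^ 2) hA (nrm_bd B p)
    (nrm_bd B p)
  calc |bnn g x p A| ≤ _ := h1
    _ = 81 * (C ^ 4 * β) := by ring

theorem beps_bd (B : Bd C g h x) (h0 : 0 < ε) (h1 : ε < 1) (p : Cov) (A : Bil) (β : ℝ)
    (hA : ∀ i j, |A i j| ≤ β) : |beps ε g x p A| ≤ 90 * (C ^ 4 * β) := by
  have hC := B.one
  have hβ : 0 ≤ β := le_trans (abs_nonneg _) (hA 0 0)
  have h2 := trg_bd B A β hA
  have h3 := bnn_bd B p A β hA
  have h4 : |(1 - ε) * bnn g x p A| ≤ 1 * (81 * (C ^ 4 * β)) :=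
    mul_bd (by rw [abs_le]; constructor <;> linarith) h3
  have h5 := abs_sub (trg g x A) ((1 - ε) * bnn g x p A)
  have h6 : C * β ≤ C ^ 4 * β :=
    mul_le_mul_of_nonneg_right (le_self_pow₀ hC (by norm_num)) hβ
  unfold beps
  linarith

/-- The weighted trace as a function of `p`. -/
theorem beps_diff (B : Bd C g h x) (h0 : 0 < ε) (h1 : ε < 1) (p q : Cov) (A : Bil) (β d : ℝ)
    (hA : ∀ i j, |A i j| ≤ β) (hd : ∀ i, |nrm g x q i - nrm g x p i| ≤ d) :
    |beps ε g x q A - beps ε g x p A| ≤ 54 * (C ^ 2 * β * d) := by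
  have h2 := ev_diff A (nrm g x q) (nrm g x p) β (3 * C ^ 2) d hA (nrm_bd B q) (nrm_bd B p) hd
  have h3 : beps ε g x q A - beps ε g x p A
      = (-(1 - ε)) * (ev A (nrm g x q) (nrm g x q) - ev A (nrm g x p) (nrm g x p)) := by
    simp only [beps, bnn]
    ring
  rw [h3]
  have h4 : |(-(1 - ε)) * (ev A (nrm g x q) (nrm g x q) - ev A (nrm g x p) (nrm g x p))|
      ≤ 1 * (18 * (β * (3 * C ^ 2) * d)) :=
    mul_bd (by rw [abs_le]; constructor <;> linarith) h2
  calc _ ≤ _ := h4
    _ = 54 * (C ^ 2 * β * d) := by ring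

theorem gam_bd (B : Bd C g h x) (p : Cov) (i j : Fin 3) : |gam g x p i j| ≤ 3 * (C * vn p) :=
  sum3 _ _ fun k => mul_bd (B.ch k i j) (abs_le_vn p k)

/-- Second part. -/
theorem part2 (B : Bd C g h x) (h0 : 0 < ε) (h1 : ε < 1) (p : Cov) (M M' : Bil) :
    |resid ε g h x p M - resid ε g h x p M'| ≤ 90 * C ^ 4 * Real.sqrt (msq (M - M')) := by
  have h2 := beps_bd B h0 h1 p (M - M') _ (abs_le_msq _)
  have h3 : resid ε g h x p M - resid ε g h x p M' = beps ε g x p (M - M') := by
    simp only [resid, cHess_eq, beps_sub]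
    ring
  rw [h3]
  linarith

theorem nrm_div (B : Bd C g h x) (p q : Cov) (hp : p ≠ 0) (hq : q ≠ 0) (i : Fin 3) :
    |nrm g x q i - nrm g x p i| ≤ 30 * C ^ 5 * vn (q - p) / vn p := by
  rw [le_div_iff₀ (vn_pos p hp), mul_comm]
  exact nrm_diff B p q hp hq i

/-- The term with the tensor `h`. -/
theorem part1h (B : Bd C g h x) (h0 : 0 < ε) (h1 : ε < 1) (p q : Cov) (hp : p ≠ 0)
    (hq : q ≠ 0) :
    |len g x q * beps ε g x q (h x) - len g x p * beps ε g x p (h x)|
      ≤ 3000 * C ^ 9 * vn (q - p) := by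
  have hC := B.one
  have hC0 : 0 < C := by linarith
  have hv := vn_pos p hp
  have hd := vn_nonneg (q - p)
  have h2 : len g x q * beps ε g x q (h x) - len g x p * beps ε g x p (h x)
      = (len g x q - len g x p) * beps ε g x q (h x)
        + len g x p * (beps ε g x q (h x) - beps ε g x p (h x)) := by ring
  have h3 := mul_bd (len_diff B p q) (beps_bd B h0 h1 q (h x) C B.hh)
  have h4 := beps_diff B h0 h1 p q (h x) C _ B.hh (nrm_div B p q hp hq)
  have h5 : |len g x p| ≤ C * vn p := by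
    rw [abs_of_nonneg (len_nonneg g x p)]
    exact len_le B p
  have h6 := mul_bd h5 h4
  have h7 : C * vn p * (54 * (C ^ 2 * C * (30 * C ^ 5 * vn (q - p) / vn p)))
      = 1620 * C ^ 9 * vn (q - p) := by
    field_simp
    ring
  rw [h7] at h6
  have h8 : 9 * C ^ 2 * vn (q - p) * (90 * (C ^ 4 * C)) = 810 * (C ^ 7 * vn (q - p)) := by ring
  rw [h8] at h3
  have h9 : C ^ 7 * vn (q - p) ≤ C ^ 9 * vn (q - p) :=
    mul_le_mul_of_nonneg_right (pow_le_pow_right₀ hC (by norm_num)) hd
  have h10 : 0 ≤ C ^ 9 * vn (q - p) := by positivity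
  rw [h2]
  have h11 := abs_add_le ((len g x q - len g x p) * beps ε g x q (h x))
    (len g x p * (beps ε g x q (h x) - beps ε g x p (h x)))
  linarith

/-- The term with the Christoffel symbols. -/
theorem part1g (B : Bd C g h x) (h0 : 0 < ε) (h1 : ε < 1) (p q : Cov) (hp : p ≠ 0)
    (hq : q ≠ 0) :
    |beps ε g x q (gam g x q) - beps ε g x p (gam g x p)|
      ≤ 6000 * C ^ 9 * vn (q - p) := by
  have hC := B.one
  have hC0 : 0 < C := by linarith
  have hv := vn_pos p hp
  have hd := vn_nonneg (q - p)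
  have h2 : beps ε g x q (gam g x q) - beps ε g x p (gam g x p)
      = beps ε g x q (gam g x (q - p))
        + (beps ε g x q (gam g x p) - beps ε g x p (gam g x p)) := by
    rw [gam_sub, beps_sub]
    ring
  have h3 := beps_bd B h0 h1 q (gam g x (q - p)) _ (gam_bd B (q - p))
  have h4 := beps_diff B h0 h1 p q (gam g x p) _ _ (gam_bd B p) (nrm_div B p q hp hq)
  have h7 : 54 * (C ^ 2 * (3 * (C * vn p)) * (30 * C ^ 5 * vn (q - p) / vn p))
      = 4860 * (C ^ 8 * vn (q - p)) := by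
    field_simp
    ring
  rw [h7] at h4
  have h8 : 90 * (C ^ 4 * (3 * (C * vn (q - p)))) = 270 * (C ^ 5 * vn (q - p)) := by ring
  rw [h8] at h3
  have h9 : C ^ 5 * vn (q - p) ≤ C ^ 9 * vn (q - p) :=
    mul_le_mul_of_nonneg_right (pow_le_pow_right₀ hC (by norm_num)) hd
  have h12 : C ^ 8 * vn (q - p) ≤ C ^ 9 * vn (q - p) :=
    mul_le_mul_of_nonneg_right (pow_le_pow_right₀ hC (by norm_num)) hd
  have h10 : 0 ≤ C ^ 9 * vn (q - p) := by positivity
  rw [h2]
  have h11 := abs_add_le (beps ε g x q (gam g x (q - p)))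
    (beps ε g x q (gam g x p) - beps ε g x p (gam g x p))
  linarith

/-- The term with `M`. -/
theorem part1m (B : Bd C g h x) (h0 : 0 < ε) (h1 : ε < 1) (p q : Cov) (M : Bil) (hp : p ≠ 0)
    (hq : q ≠ 0) :
    |beps ε g x q M - beps ε g x p M|
      ≤ 1620 * C ^ 9 * (min 1 (vn (q - p) / vn p) * Real.sqrt (msq M)) := by
  have hC := B.one
  have hC0 : 0 < C := by linarith
  have h2 := beps_diff B h0 h1 p q M _ _ (abs_le_msq M) (nrm_min B p q hp hq)
  have h3 : 54 * (C ^ 2 * Real.sqrt (msq M) * (30 * C ^ 5 * min 1 (vn (q - p) / vn p)))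
      = 1620 * (C ^ 7 * (min 1 (vn (q - p) / vn p) * Real.sqrt (msq M))) := by ring
  rw [h3] at h2
  have h4 : 0 ≤ min 1 (vn (q - p) / vn p) * Real.sqrt (msq M) :=
    mul_nonneg (le_min zero_le_one (div_nonneg (vn_nonneg _) (vn_nonneg _)))
      (Real.sqrt_nonneg _)
  have h5 : C ^ 7 * (min 1 (vn (q - p) / vn p) * Real.sqrt (msq M))
      ≤ C ^ 9 * (min 1 (vn (q - p) / vn p) * Real.sqrt (msq M)) :=
    mul_le_mul_of_nonneg_right (pow_le_pow_right₀ hC (by norm_num)) h4
  linarith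

/-- First part. -/
theorem part1 (B : Bd C g h x) (h0 : 0 < ε) (h1 : ε < 1) (p q : Cov) (M : Bil) (hp : p ≠ 0)
    (hq : q ≠ 0) :
    |resid ε g h x q M - resid ε g h x p M|
      ≤ 10000 * C ^ 9 * (min 1 (vn (q - p) / vn p) * Real.sqrt (msq M)
        + vn (q - p) * (1 + vn p + vn q)) := by
  have hC := B.one
  have hC0 : 0 < C := by linarith
  have hd := vn_nonneg (q - p)
  have hvp := vn_nonneg p
  have hvq := vn_nonneg q
  have h2 := part1m B h0 h1 p q M hp hq
  have h3 := part1g B h0 h1 p q hp hq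
  have h4 := part1h B h0 h1 p q hp hq
  have h5 := len_sq_diff B p q
  have h6 : 0 ≤ C ^ 9 * (min 1 (vn (q - p) / vn p) * Real.sqrt (msq M)) :=
    mul_nonneg (by positivity) (mul_nonneg
      (le_min zero_le_one (div_nonneg (vn_nonneg _) (vn_nonneg _))) (Real.sqrt_nonneg _))
  have h7 : C * (vn (q - p) * (vn p + vn q)) ≤ C ^ 9 * (vn (q - p) * (vn p + vn q)) :=
    mul_le_mul_of_nonneg_right (le_self_pow₀ hC (by norm_num)) (by positivity)
  have h8 : 0 ≤ C ^ 9 * (vn (q - p) * (vn p + vn q)) := by positivity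
  have h9 : 0 ≤ C ^ 9 * vn (q - p) := by positivity
  have h10 : resid ε g h x q M - resid ε g h x p M
      = (beps ε g x q M - beps ε g x p M)
        - (beps ε g x q (gam g x q) - beps ε g x p (gam g x p))
        - (len g x q ^ 2 - len g x p ^ 2)
        - (len g x q * beps ε g x q (h x) - len g x p * beps ε g x p (h x)) := by
    simp only [resid, cHess_eq, beps_sub]
    ring
  rw [h10]
  rw [abs_le] at h2 h3 h4 h5 ⊢
  constructor <;> nlinarith

/-- Third part. -/
theorem part3 (B : Bd C g h x) (h0 : 0 < ε) (h1 : ε < 1) (p : Cov) (M : Bil) :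
    |resid ε g h x p M| ≤ 1000 * C ^ 9 * (Real.sqrt (msq M) + vn p * (1 + vn p)) := by
  have hC := B.one
  have hC0 : 0 < C := by linarith
  have hvp := vn_nonneg p
  have hm := Real.sqrt_nonneg (msq M)
  have h2 := beps_bd B h0 h1 p M _ (abs_le_msq M)
  have h3 := beps_bd B h0 h1 p (gam g x p) _ (gam_bd B p)
  have h5 : |len g x p| ≤ C * vn p := by
    rw [abs_of_nonneg (len_nonneg g x p)]
    exact len_le B p
  have h4 := mul_bd h5 (beps_bd B h0 h1 p (h x) C B.hh)
  have h6 := mul_bd h5 h5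
  have h7 : resid ε g h x p M = beps ε g x p M - beps ε g x p (gam g x p)
      - len g x p * len g x p - len g x p * beps ε g x p (h x) := by
    simp only [resid, cHess_eq, beps_sub]
    ring
  have e1 : C ^ 4 * Real.sqrt (msq M) ≤ C ^ 9 * Real.sqrt (msq M) :=
    mul_le_mul_of_nonneg_right (pow_le_pow_right₀ hC (by norm_num)) hm
  have e2 : C ^ 5 * vn p ≤ C ^ 9 * vn p :=
    mul_le_mul_of_nonneg_right (pow_le_pow_right₀ hC (by norm_num)) hvp
  have e3 : C ^ 6 * vn p ≤ C ^ 9 * vn p :=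
    mul_le_mul_of_nonneg_right (pow_le_pow_right₀ hC (by norm_num)) hvp
  have e4 : C ^ 2 * (vn p * vn p) ≤ C ^ 9 * (vn p * vn p) :=
    mul_le_mul_of_nonneg_right (pow_le_pow_right₀ hC (by norm_num)) (by positivity)
  have f1 : 0 ≤ C ^ 9 * Real.sqrt (msq M) := by positivity
  have f2 : 0 ≤ C ^ 9 * vn p := by positivity
  have f3 : 0 ≤ C ^ 9 * (vn p * vn p) := by positivity
  rw [h7]
  rw [abs_le] at h2 h3 h4 h6 ⊢
  constructor <;> nlinarith

end Point

end MCHD

/-- The residual as a function of `p` and `M`. -/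
theorem CHD (hCT : Stmt_CT) : Stmt_CHD := by
  intro ε U g h h0 h1 hU hg hh K hK hKU
  obtain ⟨C, hC, H⟩ := hCT U g h hU hg hh K hK hKU
  have hC9 : (1 : ℝ) ≤ C ^ 9 := one_le_pow₀ hC
  refine ⟨10000 * C ^ 9, by linarith, fun x hx => ?_⟩
  obtain ⟨H1, _, _, H4, H5, _, _, _, H9, _⟩ := H x hx
  have B : MCHD.Bd C g h x := ⟨hC, fun p => (H1 p).1, fun p => (H1 p).2, H4, H5, H9⟩
  refine ⟨fun p p' M hp hp' => MCHD.part1 B h0 h1 p p' M hp hp', fun p M M' => ?_,
    fun p M => ?_⟩
  · refine (MCHD.part2 B h0 h1 p M M').trans ?_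
    refine mul_le_mul_of_nonneg_right ?_ (Real.sqrt_nonneg _)
    have : C ^ 4 ≤ C ^ 9 := pow_le_pow_right₀ hC (by norm_num)
    linarith
  · refine (MCHD.part3 B h0 h1 p M).trans ?_
    refine mul_le_mul_of_nonneg_right (by linarith) ?_
    have := MCHD.vn_nonneg p
    positivity

end Pool.Agent.PFlow


end
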