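import Mathlib
import Pool.Agent.PFlow.StmtsE2
import Pool.Agent.PenroseM.C06
import Pool.Agent.PenroseM.C07
import Pool.Agent.PenroseM.C18
import Pool.Agent.PenroseM.C19
import Pool.Agent.PenroseM.C20
import Pool.Agent.PenroseM.C21
import Pool.Agent.PenroseM.C25
import Pool.Agent.PenroseM.C29
import Pool.Agent.PenroseM.C32
import Pool.Agent.PenroseM.C35
import Pool.Agent.PenroseM.C44
import Pool.Agent.PenroseM.C48
import Pool.Agent.PenroseM.C49
import Pool.Agent.PenroseM.C50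
import Pool.Agent.PenroseM.C51

/-! Parts: PFlow.P.CptG, PFlow.P.CptU, PFlow.P.DQR, PFlow.P.Dens, PFlow.P.HTwo, PFlow.P.IntP, PFlow.P.KEne, PFlow.P.Lips, PFlow.P.Unif, PFlow.P.AllP, PFlow.E.JUP -/

section

/-!
# Block P: the gradients are a Cauchy sequence in `L²_loc` (CPTG)
-/

open MeasureTheory Filter Topology Set
open scoped ContDiff RealInnerProductSpace

namespace Pool.Agent.PFlow.PB

open Pool.Agent.PenroseSph Pool.Agent.PFlow

namespace CptG

theorem cutoff (K : Set E3) (hK : IsCompact K) : ∃ ζ : E3 → ℝ, Test ζ ∧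
    (∀ x, 0 ≤ ζ x ∧ ζ x ≤ 1) ∧ ∀ x ∈ K, ζ x = 1 := by
  obtain ⟨R, hR⟩ := hK.isBounded.subset_closedBall (0 : E3)
  let f : ContDiffBump (0 : E3) := ⟨|R| + 1, |R| + 2, by positivity, by linarith⟩
  refine ⟨f, ⟨f.contDiff, f.hasCompactSupport⟩, fun x => ⟨f.nonneg, f.le_one⟩, fun x hx => ?_⟩
  apply f.one_of_mem_closedBall
  have := hR hx
  rw [Metric.mem_closedBall] at this ⊢
  have h2 := le_abs_self R
  show dist x 0 ≤ |R| + 1
  linarith

theorem sqv_sub_le (a b : E3 → E3) (ha : MemLp a 2) (hb : MemLp b 2) :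
    sqv (fun x => a x - b x) ≤ 2 * sqv a + 2 * sqv b := by
  unfold sqv
  rw [← integral_const_mul, ← integral_const_mul, ← integral_add ((int_sq a ha).const_mul 2)
    ((int_sq b hb).const_mul 2)]
  refine integral_mono (int_sq _ (ha.sub hb)) (((int_sq a ha).const_mul 2).add
    ((int_sq b hb).const_mul 2)) fun x => ?_
  have h1 := norm_sub_le (a x) (b x)
  have h2 := norm_nonneg (a x - b x)
  have h3 : ‖a x - b x‖ ^ 2 ≤ (‖a x‖ + ‖b x‖) ^ 2 := by gcongr
  show ‖a x - b x‖ ^ 2 ≤ 2 * ‖a x‖ ^ 2 + 2 * ‖b x‖ ^ 2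
  nlinarith [sq_nonneg (‖a x‖ - ‖b x‖)]

theorem int_sq' (f : E3 → ℝ) (hf : MemLp f 2) : Integrable (fun x => f x ^ 2) := by
  have := int_sq f hf
  simpa [Real.norm_eq_abs, sq_abs] using this

theorem gr_zero (ζ : E3 → ℝ) (x : E3) (hx : x ∉ tsupport ζ) (i : Fin 3) : gr ζ x i = 0 := by
  rw [gr_apply, pd_eq, fderiv_of_notMem_tsupport (𝕜 := ℝ) hx]
  rfl

theorem one_comp (h1 : API1) (h2 : API2) (ζ : E3 → ℝ) (hζ : Test ζ) (hζ1 : ∀ x, 0 ≤ ζ x ∧ ζ x ≤ 1)
    (C₁ : ℝ) (hC₁ : 1 ≤ C₁) (hgr : ∀ x, ‖gr ζ x‖ ≤ C₁) (w : E3 → ℝ) (D N : E3 → E3) (i : Fin 3)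
    (hw : H1 w D) (hD : H1 (fun x => D x i) N) (δ : ℝ) (hδ : 0 ≤ δ)
    (hs : ∀ x ∈ tsupport ζ, |w x| ≤ δ) :
    ∫ x, ζ x * (D x i) ^ 2 ≤ δ * ((1 + C₁) * (volume (tsupport ζ)).toReal + sqv N +
      C₁ * sq (fun x => D x i)) := by
  have hS : IsCompact (tsupport ζ) := hζ.cpt
  have hF := h2.mul w D ζ C₁ hw (hζ.one) (fun x => by
    rw [abs_of_nonneg (hζ1 x).1]; linarith [(hζ1 x).2]) hgr
  have hibp := h2.ibp _ _ _ _ hF hD i
  have hind : Integrable ((tsupport ζ).indicator (fun _ : E3 => (1 : ℝ))) := by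
    rw [integrable_indicator_iff (isClosed_tsupport ζ).measurableSet]
    exact integrableOn_const hS.measure_lt_top.ne
  have hindint : ∫ x, (tsupport ζ).indicator (fun _ : E3 => (1 : ℝ)) x =
      (volume (tsupport ζ)).toReal := by
    rw [integral_indicator (isClosed_tsupport ζ).measurableSet, setIntegral_const, smul_eq_mul,
      mul_one]
    rfl
  have hNi : MemLp (fun x => N x i) 2 := memLp_comp N hD.memG i
  have hDi : MemLp (fun x => D x i) 2 := hD.memf
  -- the term with the second derivative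
  have e1 : |∫ x, ζ x * w x * N x i| ≤ δ * ((volume (tsupport ζ)).toReal + sqv N) := by
    have hb : Integrable (fun x => δ * ((tsupport ζ).indicator (fun _ : E3 => (1 : ℝ)) x +
        (N x i) ^ 2)) := (hind.add (int_sq' _ hNi)).const_mul δ
    have hle : ∀ x, ‖ζ x * w x * N x i‖ ≤ δ * ((tsupport ζ).indicator (fun _ : E3 => (1 : ℝ)) x +
        (N x i) ^ 2) := by
      intro x
      by_cases hx : x ∈ tsupport ζ
      · rw [indicator_of_mem hx, Real.norm_eq_abs, abs_mul, abs_mul, abs_of_nonneg (hζ1 x).1]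
        have h3 := hs x hx
        have h4 : |N x i| ≤ 1 + (N x i) ^ 2 := by
          rw [← sq_abs (N x i)]
          nlinarith [sq_nonneg (|N x i| - 1), abs_nonneg (N x i)]
        have h5 : ζ x * |w x| ≤ δ := by
          have := mul_le_mul (hζ1 x).2 h3 (abs_nonneg _) zero_le_one
          linarith
        calc ζ x * |w x| * |N x i| ≤ δ * |N x i| := by gcongr
          _ ≤ _ := by gcongr
      · rw [image_eq_zero_of_notMem_tsupport hx, zero_mul, zero_mul, norm_zero]
        have : 0 ≤ (tsupport ζ).indicator (fun _ : E3 => (1 : ℝ)) x :=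
          indicator_nonneg (fun _ _ => zero_le_one) x
        positivity
    have h6 := norm_integral_le_of_norm_le hb (Eventually.of_forall hle)
    rw [Real.norm_eq_abs, integral_const_mul, integral_add hind (int_sq' _ hNi), hindint] at h6
    refine h6.trans ?_
    have := sq_comp_le N hD.memG i
    unfold sq at this
    gcongr
  -- the main term
  have hFi : MemLp (fun x => (ζ x • D x + w x • gr ζ x) i) 2 := memLp_comp _ hF.memG i
  have hFD : Integrable (fun x => (ζ x • D x + w x • gr ζ x) i * D x i) := int_mul _ _ hFi hDi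
  have hq : Integrable (fun x => δ * C₁ * ((tsupport ζ).indicator (fun _ : E3 => (1 : ℝ)) x +
      (D x i) ^ 2)) := (hind.add (int_sq' _ hDi)).const_mul _
  have e2 : ∫ x, ζ x * (D x i) ^ 2 ≤ ∫ x, ((ζ x • D x + w x • gr ζ x) i * D x i +
      δ * C₁ * ((tsupport ζ).indicator (fun _ : E3 => (1 : ℝ)) x + (D x i) ^ 2)) := by
    apply integral_mono_of_nonneg
    · exact Eventually.of_forall fun x => mul_nonneg (hζ1 x).1 (sq_nonneg _)
    · exact hFD.add hq
    · refine Eventually.of_forall fun x => ?_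
      show ζ x * (D x i) ^ 2 ≤ (ζ x * D x i + w x * gr ζ x i) * D x i +
        δ * C₁ * ((tsupport ζ).indicator (fun _ : E3 => (1 : ℝ)) x + (D x i) ^ 2)
      by_cases hx : x ∈ tsupport ζ
      · rw [indicator_of_mem hx]
        have h3 := hs x hx
        have h4 : |D x i| ≤ 1 + (D x i) ^ 2 := by
          rw [← sq_abs (D x i)]
          nlinarith [sq_nonneg (|D x i| - 1), abs_nonneg (D x i)]
        have h5 : |gr ζ x i| ≤ C₁ := (abs_comp_le _ i).trans (hgr x)
        have h6 : |w x * gr ζ x i * D x i| ≤ δ * C₁ * (1 + (D x i) ^ 2) := by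
          rw [abs_mul, abs_mul]
          gcongr
        have h7 := neg_abs_le (w x * gr ζ x i * D x i)
        nlinarith
      · rw [indicator_of_notMem hx, image_eq_zero_of_notMem_tsupport hx, gr_zero ζ x hx i]
        have : 0 ≤ δ * C₁ * (0 + (D x i) ^ 2) := by positivity
        simpa using this
  rw [integral_add hFD hq, integral_const_mul,
    integral_add hind (int_sq' _ hDi), hindint] at e2
  have e3 : ∫ x, (ζ x • D x + w x • gr ζ x) i * D x i = - ∫ x, ζ x * w x * N x i := by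
    linarith
  rw [e3] at e2
  have e4 := neg_abs_le (∫ x, ζ x * w x * N x i)
  have e5 : ∫ x, (D x i) ^ 2 = sq (fun x => D x i) := rfl
  rw [e5] at e2
  nlinarith

theorem key (h1 : API1) (h2 : API2) (ζ : E3 → ℝ) (hζ : Test ζ) (hζ1 : ∀ x, 0 ≤ ζ x ∧ ζ x ≤ 1)
    (C₁ : ℝ) (hC₁ : 1 ≤ C₁) (hgr : ∀ x, ‖gr ζ x‖ ≤ C₁) (K : Set E3) (hK : IsCompact K)
    (hζK : ∀ x ∈ K, ζ x = 1) (w : E3 → ℝ) (D : E3 → E3) (N : Fin 3 → E3 → E3)
    (hw : H1 w D) (hD : ∀ i, H1 (fun x => D x i) (N i)) (δ : ℝ) (hδ : 0 ≤ δ)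
    (hs : ∀ x ∈ tsupport ζ, |w x| ≤ δ) :
    ∫ x in K, ‖D x‖ ^ 2 ≤ δ * (3 * (1 + C₁) * (volume (tsupport ζ)).toReal + ∑ i, sqv (N i) +
      C₁ * sqv D) := by
  have hDm : MemLp D 2 := hw.memG
  have hDi : ∀ i, MemLp (fun x => D x i) 2 := fun i => memLp_comp D hDm i
  have e0 : ∀ x, ‖D x‖ ^ 2 = ∑ i, (D x i) ^ 2 := fun x => norm_sq_eq _
  have e1 : ∫ x in K, ‖D x‖ ^ 2 = ∑ i, ∫ x in K, (D x i) ^ 2 := by
    rw [← integral_finsetSum _ fun i _ => (int_sq' _ (hDi i)).integrableOn]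
    exact integral_congr_ae (Eventually.of_forall fun x => e0 x)
  have e2 : ∀ i, ∫ x in K, (D x i) ^ 2 ≤ ∫ x, ζ x * (D x i) ^ 2 := by
    intro i
    rw [← integral_indicator hK.measurableSet]
    refine integral_mono ((int_sq' _ (hDi i)).indicator hK.measurableSet) ?_ fun x => ?_
    · refine (int_sq' _ (hDi i)).mono (hζ.smooth.continuous.aestronglyMeasurable.mul
        (int_sq' _ (hDi i)).1) (Eventually.of_forall fun x => ?_)
      rw [norm_mul, Real.norm_eq_abs (ζ x), abs_of_nonneg (hζ1 x).1]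
      have := mul_le_mul_of_nonneg_right (hζ1 x).2 (norm_nonneg ((D x i) ^ 2))
      linarith
    · by_cases hx : x ∈ K
      · rw [indicator_of_mem hx, hζK x hx, one_mul]
      · rw [indicator_of_notMem hx]
        exact mul_nonneg (hζ1 x).1 (sq_nonneg _)
  have e3 : ∀ i, ∫ x in K, (D x i) ^ 2 ≤ δ * ((1 + C₁) * (volume (tsupport ζ)).toReal + sqv (N i) +
      C₁ * sq (fun x => D x i)) := fun i =>
    (e2 i).trans (one_comp h1 h2 ζ hζ hζ1 C₁ hC₁ hgr w D (N i) i hw (hD i) δ hδ hs)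
  have e4 : sqv D = ∑ i, sq (fun x => D x i) := by
    unfold sqv sq
    rw [← integral_finsetSum _ fun i _ => int_sq' _ (hDi i)]
    exact integral_congr_ae (Eventually.of_forall fun x => e0 x)
  rw [e1]
  refine (Finset.sum_le_sum fun i _ => e3 i).trans (le_of_eq ?_)
  rw [← Finset.mul_sum, e4]
  simp only [Fin.sum_univ_three]
  ring

end CptG

open CptG in
theorem cptg_thm (h1 : API1) (h2 : API2) : CPTG := by
  intro u G M C v hH hC hu K hK ε hε
  obtain ⟨ζ, hζ, hζ1, hζK⟩ := cutoff K hK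
  obtain ⟨C₀, hC₀⟩ := (gr_cpt ζ hζ.cpt).exists_bound_of_continuous (gr_cont ζ hζ.one)
  obtain ⟨C₁, hC₁1, hC₁⟩ : ∃ C₁ : ℝ, 1 ≤ C₁ ∧ ∀ x, ‖gr ζ x‖ ≤ C₁ :=
    ⟨max C₀ 1, le_max_right _ _, fun x => (hC₀ x).trans (le_max_left _ _)⟩
  have hS : IsCompact (tsupport ζ) := hζ.cpt
  have hCnn : 0 ≤ C := by
    refine le_trans ?_ (hC 0)
    have := sq_nonneg' (u 0)
    have := sqv_nonneg' (G 0)
    have := Finset.sum_nonneg fun (i : Fin 3) (_ : i ∈ Finset.univ) => sqv_nonneg' (M 0 i)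
    linarith
  have hG : ∀ n, sqv (G n) ≤ C := by
    intro n
    have h3 := hC n
    have := sq_nonneg' (u n)
    have := Finset.sum_nonneg fun (i : Fin 3) (_ : i ∈ Finset.univ) => sqv_nonneg' (M n i)
    linarith
  have hM : ∀ n, ∑ i, sqv (M n i) ≤ C := by
    intro n
    have h3 := hC n
    have := sq_nonneg' (u n)
    have := sqv_nonneg' (G n)
    linarith
  obtain ⟨V, hV⟩ : ∃ V, V = (volume (tsupport ζ)).toReal := ⟨_, rfl⟩
  have hV0 : 0 ≤ V := by rw [hV]; exact ENNReal.toReal_nonneg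
  obtain ⟨B, hB⟩ : ∃ B, B = 3 * (1 + C₁) * V + 4 * C + C₁ * (4 * C) := ⟨_, rfl⟩
  have hB0 : 0 ≤ B := by rw [hB]; positivity
  obtain ⟨δ, hδ, hδB⟩ : ∃ δ > 0, δ * B < ε := by
    refine ⟨ε / (B + 1), by positivity, ?_⟩
    rw [div_mul_eq_mul_div, div_lt_iff₀ (by linarith)]
    nlinarith
  have hun := hu (tsupport ζ) hS
  rw [Metric.tendstoUniformlyOn_iff] at hun
  obtain ⟨N, hN⟩ := eventually_atTop.1 (hun (δ / 2) (by positivity))
  refine ⟨N, fun m hm n hn => lt_of_le_of_lt ?_ hδB⟩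
  have hw : H1 (fun x => u m x - u n x) (fun x => G m x - G n x) :=
    h1.sub _ _ _ _ (hH m).h1 (hH n).h1
  have hD : ∀ i, H1 (fun x => (G m x - G n x) i) (fun x => M m i x - M n i x) := fun i =>
    h1.sub _ _ _ _ ((hH m).h2 i) ((hH n).h2 i)
  have hk := key h1 h2 ζ hζ hζ1 C₁ hC₁1 hC₁ K hK hζK _ _ (fun i x => M m i x - M n i x) hw hD δ
    hδ.le (fun x hx => by
      have e1 := hN m hm x hx
      have e2 := hN n hn x hx
      rw [Real.dist_eq] at e1 e2
      rw [abs_le]
      have := abs_lt.1 e1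
      have := abs_lt.1 e2
      constructor <;> linarith)
  refine hk.trans ?_
  rw [← hV, hB]
  have f1 : sqv (fun x => G m x - G n x) ≤ 4 * C := by
    have := sqv_sub_le _ _ (hH m).h1.memG (hH n).h1.memG
    have := hG m
    have := hG n
    linarith
  have f2 : ∑ i, sqv (fun x => M m i x - M n i x) ≤ 4 * C := by
    have h3 : ∑ i, sqv (fun x => M m i x - M n i x) ≤
        ∑ i, (2 * sqv (M m i) + 2 * sqv (M n i)) := Finset.sum_le_sum fun i _ =>
      sqv_sub_le _ _ ((hH m).h2 i).memG ((hH n).h2 i).memG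
    rw [Finset.sum_add_distrib, ← Finset.mul_sum, ← Finset.mul_sum] at h3
    have := hM m
    have := hM n
    linarith
  gcongr

end Pool.Agent.PFlow.PB


end

section

/-!
# Module CPTU: Arzelà-Ascoli on `E3`
-/

open MeasureTheory Filter Topology Set
open scoped ContDiff RealInnerProductSpace

namespace Pool.Agent.PFlow.PB

open Pool.Agent.PenroseSph Pool.Agent.PFlow

namespace CptU

/-- The family of functions with the given bounds. -/
def fam (C : ℝ) : Set (E3 → ℝ) :=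
  {f | (∀ x, |f x| ≤ C) ∧ ∀ x y, ‖x - y‖ ≤ 1 → |f x - f y| ≤ C * ‖x - y‖ ^ (1 / 4 : ℝ)}

lemma isCompact_fam (C : ℝ) : IsCompact (fam C) := by
  have h1 : IsCompact (Set.univ.pi fun _ : E3 => Set.Icc (-C) C) :=
    isCompact_univ_pi fun _ => isCompact_Icc
  refine h1.of_isClosed_subset ?_ ?_
  · have h2 : fam C = (⋂ x : E3, {f : E3 → ℝ | |f x| ≤ C}) ∩
        ⋂ x : E3, ⋂ y : E3, ⋂ _ : ‖x - y‖ ≤ 1,
          {f : E3 → ℝ | |f x - f y| ≤ C * ‖x - y‖ ^ (1 / 4 : ℝ)} := by
      ext f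
      simp only [fam, Set.mem_inter_iff, Set.mem_iInter, Set.mem_ofPred_eq]
    rw [h2]
    refine IsClosed.inter (isClosed_iInter fun x => ?_)
      (isClosed_iInter fun x => isClosed_iInter fun y => isClosed_iInter fun _ => ?_)
    · exact isClosed_le (continuous_apply x).abs continuous_const
    · exact isClosed_le ((continuous_apply x).sub (continuous_apply y)).abs continuous_const
  · intro f hf x _
    exact abs_le.mp (hf.1 x)

/-- The modulus of continuity. -/
lemma modulus (C : ℝ) {e : ℝ} (he : 0 < e) :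
    ∃ d : ℝ, 0 < d ∧ d ≤ 1 ∧ ∀ t : ℝ, 0 ≤ t → t < d → C * t ^ (1 / 4 : ℝ) < e := by
  have h1 : Continuous fun t : ℝ => C * t ^ (1 / 4 : ℝ) :=
    continuous_const.mul (Real.continuous_rpow_const (by norm_num))
  have h2 : Tendsto (fun t : ℝ => C * t ^ (1 / 4 : ℝ)) (𝓝 0) (𝓝 0) := by
    have h3 := h1.tendsto 0
    rw [Real.zero_rpow (by norm_num), mul_zero] at h3
    exact h3
  obtain ⟨d, hd, hd'⟩ := Metric.eventually_nhds_iff.mp (h2.eventually (gt_mem_nhds he))
  refine ⟨min d 1, lt_min hd one_pos, min_le_right _ _, fun t ht htd => ?_⟩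
  refine hd' ?_
  rw [Real.dist_eq, sub_zero, abs_of_nonneg ht]
  exact lt_of_lt_of_le htd (min_le_left _ _)

lemma continuous_of_mem {C : ℝ} {f : E3 → ℝ} (hf : f ∈ fam C) : Continuous f := by
  rw [Metric.continuous_iff]
  intro x e he
  obtain ⟨d, hd, hd1, h⟩ := modulus C he
  refine ⟨d, hd, fun y hy => ?_⟩
  rw [dist_eq_norm] at hy
  rw [Real.dist_eq]
  exact lt_of_le_of_lt (hf.2 y x (hy.le.trans hd1)) (h _ (norm_nonneg _) hy)

end CptU

open CptU in
/-- **(CPTU)** Arzelà-Ascoli. -/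
theorem cptu_thm : CPTU := by
  intro u C h1 h2
  set S : Set C(E3, ℝ) := {f | (f : E3 → ℝ) ∈ fam C} with hS
  have hS1 : IsCompact (ContinuousMap.toFun '' S) := by
    have h3 : ContinuousMap.toFun '' S = fam C := by
      ext f
      constructor
      · rintro ⟨k, hk, rfl⟩
        exact hk
      · intro hf
        exact ⟨⟨f, continuous_of_mem hf⟩, hf, rfl⟩
    rw [h3]
    exact isCompact_fam C
  have hS2 : Equicontinuous ((↑) : S → E3 → ℝ) := by
    intro x
    rw [Metric.equicontinuousAt_iff]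
    intro e he
    obtain ⟨d, hd, hd1, h⟩ := modulus C he
    refine ⟨d, hd, fun y hy f => ?_⟩
    rw [dist_comm, dist_eq_norm] at hy
    rw [Real.dist_eq]
    exact lt_of_le_of_lt (f.2.2 x y (hy.le.trans hd1)) (h _ (norm_nonneg _) hy)
  have hc : IsCompact S := ArzelaAscoli.isCompact_of_equicontinuous S hS1 hS2
  have hmem : ∀ n, u n ∈ fam C := fun n => ⟨h1 n, h2 n⟩
  obtain ⟨v, -, s, hs, hv⟩ := hc.tendsto_subseq
    (x := fun n => (⟨u n, continuous_of_mem (hmem n)⟩ : C(E3, ℝ))) (fun n => hmem n)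
  refine ⟨s, v, hs, v.continuous, fun K hK => ?_⟩
  exact ContinuousMap.tendsto_iff_forall_isCompact_tendstoUniformlyOn.mp hv K hK

end Pool.Agent.PFlow.PB


end

section

/-!
# Block P, module DQR: functions with bounded difference quotients belong to `H1`
-/

open MeasureTheory Filter Topology Set
open scoped ContDiff RealInnerProductSpace ENNReal

namespace Pool.Agent.PFlow.PB

open Pool.Agent.PenroseSph Pool.Agent.PFlow

namespace DQRm

/-- the step -/
noncomputable def st (i : Fin 3) (n : ℕ) : E3 := ((n : ℝ) + 1)⁻¹ • ee i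

theorem norm_ee (i : Fin 3) : ‖ee i‖ = 1 := by
  simp [ee]

theorem norm_st (i : Fin 3) (n : ℕ) : ‖st i n‖ = ((n : ℝ) + 1)⁻¹ := by
  unfold st
  rw [norm_smul, norm_ee, mul_one, Real.norm_of_nonneg (by positivity)]

/-- the difference quotient -/
noncomputable def dq (f : E3 → ℝ) (i : Fin 3) (n : ℕ) (x : E3) : ℝ :=
  ((n : ℝ) + 1) * (f (x + st i n) - f x)

theorem dq_memLp {f : E3 → ℝ} (hf : MemLp f 2) (i : Fin 3) (n : ℕ) : MemLp (dq f i n) 2 :=
  ((memLp_shift f hf (st i n)).sub hf).const_mul _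

theorem dq_sq {f : E3 → ℝ} {C : ℝ} (hC : ∀ h : E3, sq (fun x => f (x + h) - f x) ≤ C * ‖h‖ ^ 2)
    (i : Fin 3) (n : ℕ) : sq (dq f i n) ≤ C := by
  have h1 : sq (dq f i n) = ((n : ℝ) + 1) ^ 2 * sq (fun x => f (x + st i n) - f x) := by
    unfold sq dq
    rw [← integral_const_mul]
    congr 1
    ext x
    ring
  have h2 := hC (st i n)
  rw [norm_st] at h2
  have hn : (0 : ℝ) < (n : ℝ) + 1 := by positivity
  calc sq (dq f i n) = ((n : ℝ) + 1) ^ 2 * sq (fun x => f (x + st i n) - f x) := h1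
    _ ≤ ((n : ℝ) + 1) ^ 2 * (C * (((n : ℝ) + 1)⁻¹) ^ 2) :=
        mul_le_mul_of_nonneg_left h2 (by positivity)
    _ = C := by
        field_simp

/-- summation by parts -/
theorem int_dq {f : E3 → ℝ} (hf : MemLp f 2) {ψ : E3 → ℝ} (hψ : Test ψ) (i : Fin 3) (n : ℕ) :
    ∫ x, ψ x * dq f i n x = ∫ x, f x * (((n : ℝ) + 1) * (ψ (x - st i n) - ψ x)) := by
  have hm := test_memLp ψ hψ
  have hfs := memLp_shift f hf (st i n)
  have hψs : MemLp (fun x => ψ (x - st i n)) 2 := by
    have h := memLp_shift ψ hm (-st i n)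
    simpa only [sub_eq_add_neg] using h
  have h1 : ∫ x, ψ x * f (x + st i n) = ∫ x, ψ (x - st i n) * f x := by
    have h := integral_add_right_eq_self (μ := (volume : Measure E3))
      (fun x => ψ (x - st i n) * f x) (st i n)
    simp only [add_sub_cancel_right] at h
    exact h
  have e1 : (fun x => ψ x * dq f i n x) =
      fun x => ((n : ℝ) + 1) * (ψ x * f (x + st i n) - ψ x * f x) := by
    funext x
    unfold dq
    ring
  have e2 : (fun x => f x * (((n : ℝ) + 1) * (ψ (x - st i n) - ψ x))) =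
      fun x => ((n : ℝ) + 1) * (ψ (x - st i n) * f x - ψ x * f x) := by
    funext x
    ring
  rw [e1, e2, integral_const_mul, integral_const_mul,
    integral_sub (int_mul _ _ hm hfs) (int_mul _ _ hm hf),
    integral_sub (int_mul _ _ hψs hf) (int_mul _ _ hm hf), h1]

theorem tend_step (ψ : E3 → ℝ) (hψ : Test ψ) (i : Fin 3) (x : E3) :
    Tendsto (fun n : ℕ => ((n : ℝ) + 1) * (ψ (x - st i n) - ψ x)) atTop (𝓝 (-pd i ψ x)) := by
  have hd : HasFDerivAt ψ (fderiv ℝ ψ x) x :=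
    ((hψ.one.differentiable (by norm_num)) x).hasFDerivAt
  have h1 : HasDerivAt (fun t : ℝ => ψ (x + t • ee i)) (fderiv ℝ ψ x (ee i)) 0 :=
    hd.hasLineDerivAt (ee i)
  have h2 := hasDerivAt_iff_tendsto_slope.1 h1
  have h3 : Tendsto (fun n : ℕ => -((n : ℝ) + 1)⁻¹) atTop (𝓝[≠] 0) := by
    rw [tendsto_nhdsWithin_iff]
    constructor
    · have h4 : Tendsto (fun n : ℕ => ((n : ℝ) + 1)⁻¹) atTop (𝓝 0) := by
        have := tendsto_one_div_add_atTop_nhds_zero_nat (𝕜 := ℝ)
        simpa using this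
      simpa using h4.neg
    · refine Filter.Eventually.of_forall fun n => ?_
      have : (0 : ℝ) < (n : ℝ) + 1 := by positivity
      simp only [mem_compl_iff, mem_singleton_iff, neg_eq_zero, inv_eq_zero]
      exact this.ne'
  have h5 := (h2.comp h3).neg
  refine h5.congr fun n => ?_
  simp only [Function.comp, slope_def_field, sub_zero, zero_smul, add_zero]
  have e : x + (-((n : ℝ) + 1)⁻¹) • ee i = x - st i n := by
    unfold st
    rw [neg_smul, sub_eq_add_neg]
  rw [e]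
  have hn : ((n : ℝ) + 1) ≠ 0 := by positivity
  field_simp

theorem tend_dq {f : E3 → ℝ} (hf : MemLp f 2) {ψ : E3 → ℝ} (hψ : Test ψ) (i : Fin 3) :
    Tendsto (fun n => ∫ x, ψ x * dq f i n x) atTop (𝓝 (-∫ x, f x * pd i ψ x)) := by
  simp only [int_dq hf hψ i]
  have e : -∫ x, f x * pd i ψ x = ∫ x, f x * (-pd i ψ x) := by
    rw [← integral_neg]
    congr 1
    ext x
    ring
  rw [e]
  obtain ⟨L, hL⟩ := hψ.one.lipschitzWith_of_hasCompactSupport hψ.cpt (by norm_num)
  have hK : IsCompact (Metric.cthickening 1 (tsupport ψ)) := hψ.cpt.isCompact.cthickening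
  have hloc : LocallyIntegrable f volume := hf.locallyIntegrable (by norm_num)
  have hint : IntegrableOn (fun x => (L : ℝ) * ‖f x‖) (Metric.cthickening 1 (tsupport ψ)) :=
    ((hloc.integrableOn_isCompact hK).norm).const_mul _
  have hst1 : ∀ n, ‖st i n‖ ≤ 1 := by
    intro n
    rw [norm_st]
    apply inv_le_one_of_one_le₀
    have : (0 : ℝ) ≤ n := Nat.cast_nonneg n
    linarith
  apply tendsto_integral_of_dominated_convergence
    ((Metric.cthickening 1 (tsupport ψ)).indicator fun x => (L : ℝ) * ‖f x‖)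
  · intro n
    have hc : Continuous fun x => ((n : ℝ) + 1) * (ψ (x - st i n) - ψ x) := by
      have := hψ.smooth.continuous
      fun_prop
    exact hf.1.mul hc.aestronglyMeasurable
  · exact (integrable_indicator_iff hK.measurableSet).2 hint
  · intro n
    refine Filter.Eventually.of_forall fun x => ?_
    by_cases hx : x ∈ Metric.cthickening 1 (tsupport ψ)
    · rw [indicator_of_mem hx, norm_mul, mul_comm]
      apply mul_le_mul_of_nonneg_right _ (norm_nonneg _)
      have h1 := hL.dist_le_mul (x - st i n) x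
      rw [Real.dist_eq, dist_eq_norm] at h1
      have h2 : x - st i n - x = -st i n := by abel
      rw [h2, norm_neg, norm_st] at h1
      have hn : (0 : ℝ) < (n : ℝ) + 1 := by positivity
      rw [norm_mul, Real.norm_of_nonneg hn.le, Real.norm_eq_abs]
      calc ((n : ℝ) + 1) * |ψ (x - st i n) - ψ x| ≤ ((n : ℝ) + 1) * (L * ((n : ℝ) + 1)⁻¹) :=
            mul_le_mul_of_nonneg_left h1 hn.le
        _ = L := by field_simp
    · rw [indicator_of_notMem hx]
      have h1 : ψ x = 0 := by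
        by_contra h
        exact hx (Metric.self_subset_cthickening _ (subset_tsupport ψ h))
      have h2 : ψ (x - st i n) = 0 := by
        by_contra h
        apply hx
        refine Metric.mem_cthickening_of_dist_le x (x - st i n) 1 _ (subset_tsupport ψ h) ?_
        rw [dist_eq_norm]
        have : x - (x - st i n) = st i n := by abel
        rw [this]
        exact hst1 n
      rw [h1, h2]
      simp
  · refine Filter.Eventually.of_forall fun x => ?_
    exact (tend_step ψ hψ i x).const_mul _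

end DQRm

open DQRm in
/-- R2 (DQR): a function with bounded difference quotients belongs to `H1`. -/
theorem dqr_thm (_h1 : API1) (hw : WH) (hk : WEAKL) : DQR := by
  intro f C hf hC
  have h1 : ∀ i : Fin 3, ∃ g : E3 → ℝ, MemLp g 2 ∧ ∀ ψ, Test ψ →
      ∫ x, ψ x * g x = -∫ x, f x * pd i ψ x := by
    intro i
    obtain ⟨g, hg1, _, hg3⟩ := hk (dq f i) C (dq_memLp hf i) (dq_sq hC i)
      (fun ψ hψ => ⟨_, tend_dq hf hψ i⟩)
    exact ⟨g, hg1, fun ψ hψ => tendsto_nhds_unique (hg3 ψ (test_memLp ψ hψ)) (tend_dq hf hψ i)⟩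
  choose g hg1 hg2 using h1
  refine ⟨fun x => WithLp.toLp 2 fun i => g i x, hw f _ hf ?_ ?_⟩
  · exact memLp_of_comp _ fun i => hg1 i
  · intro φ hφ i
    have h2 := hg2 i φ hφ
    have h3 : ∫ x, (WithLp.toLp 2 (fun i => g i x) : E3) i * φ x = ∫ x, φ x * g i x := by
      congr 1
      ext x
      exact mul_comm _ _
    rw [h3, h2, neg_neg]

end Pool.Agent.PFlow.PB


end

section

/-!
# Block P, module DENS: density of test functions in `H²`
-/

open MeasureTheory Filter Topology Set Metric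
open scoped ContDiff RealInnerProductSpace ENNReal

namespace Pool.Agent.PFlow.PB

open Pool.Agent.PenroseSph Pool.Agent.PFlow

theorem gr_add' (f g : E3 → ℝ) (hf : Differentiable ℝ f) (hg : Differentiable ℝ g) (x : E3) :
    gr (fun x => f x + g x) x = gr f x + gr g x := gr_add f g x (hf x) (hg x)

theorem hs_mul (ζ v : E3 → ℝ) (hζ : ContDiff ℝ ∞ ζ) (hv : ContDiff ℝ ∞ v) (i : Fin 3) (x : E3) :
    hs (fun x => ζ x * v x) i x
      = (ζ x • hs v i x + pd i v x • gr ζ x) + (v x • hs ζ i x + pd i ζ x • gr v x) := by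
  have hzd := hζ.differentiable (by simp)
  have hvd := hv.differentiable (by simp)
  have hzd2 := (pd_C ζ hζ i).differentiable (by simp)
  have hvd2 := (pd_C v hv i).differentiable (by simp)
  have h1 : pd i (fun x => ζ x * v x) = fun x => ζ x * pd i v x + v x * pd i ζ x := by
    ext y
    have := congrArg (fun w : E3 => w i) (gr_mul ζ v y (hzd y) (hvd y))
    simpa [gr_apply] using this
  unfold hs
  rw [h1, gr_add' (fun x => ζ x * pd i v x) (fun x => v x * pd i ζ x) (hzd.mul hvd2)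
    (hvd.mul hzd2) x, gr_mul ζ (pd i v) x (hzd x) (hvd2 x), gr_mul v (pd i ζ) x (hvd x) (hzd2 x)]

/-- cutting off a smooth function of class `H²` -/
theorem cut_H2 (v : E3 → ℝ) (hv : ContDiff ℝ ∞ v) (hm : MemLp v 2) (hg : MemLp (gr v) 2)
    (hh : ∀ i, MemLp (hs v i) 2) :
    Tendsto (fun n => sq (fun x => zc n x * v x - v x)) atTop (𝓝 0) ∧
    Tendsto (fun n => sqv (fun x => gr (fun x => zc n x * v x) x - gr v x)) atTop (𝓝 0) ∧
    ∀ i, Tendsto (fun n => sqv (fun x => hs (fun x => zc n x * v x) i x - hs v i x)) atTop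
      (𝓝 0) := by
  obtain ⟨C, hC0, hC1, hC2⟩ := zc_bounds
  have hd := hv.differentiable (by simp)
  have hzd : ∀ n, Differentiable ℝ (zc n) := fun n => (zc_smooth n).differentiable (by simp)
  have hz1 : ∀ n, ContDiff ℝ 1 (zc n) := fun n => (zc_smooth n).of_le (by exact_mod_cast le_top)
  have hinv : ∀ n : ℕ, C * ((n : ℝ) + 1)⁻¹ ≤ C := by
    intro n
    have : ((n : ℝ) + 1)⁻¹ ≤ 1 := by
      rw [inv_le_one₀ (by positivity)]
      have : (0 : ℝ) ≤ n := Nat.cast_nonneg n
      linarith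
    nlinarith
  have hgz : ∀ n x, ‖gr (zc n) x‖ ≤ C := fun n x => (hC1 n x).trans (hinv n)
  have hhz : ∀ n i x, ‖hs (zc n) i x‖ ≤ C := fun n i x => (hC2 n i x).trans (hinv n)
  have hza : ∀ n x, |zc n x| ≤ 1 := fun n x => by
    rw [abs_of_nonneg (zc_nonneg n x)]
    exact zc_le_one n x
  refine ⟨?_, ?_, fun i => ?_⟩
  · have := zc_tend v hm
    simp only [sq_eq]
    simpa using this
  · have e : ∀ n, sqv (fun x => gr (fun x => zc n x * v x) x - gr v x)
        = sqv (fun x => (zc n x • gr v x - gr v x) + v x • gr (zc n) x) := by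
      intro n
      congr 1
      ext1 x
      rw [gr_mul _ _ x (hzd n x) (hd x)]
      abel
    simp only [e]
    refine tend_add_zero _ _ (fun n => ?_) (fun n => ?_) ?_ ?_
    · exact (memLp_smul_bdd (zc n) (gr v) 1 hg (zc_smooth n).continuous (hza n)).sub hg
    · exact memLp_smul_bdd' v _ C hm (gr_cont _ (hz1 n)) (hgz n)
    · exact zc_tend (gr v) hg
    · exact small_tend v (fun n => gr (zc n)) C hm hC1
  · have hgi : MemLp (pd i v) 2 := memLp_comp (gr v) hg i
    have hpz : ∀ n x, |pd i (zc n) x| ≤ C * ((n : ℝ) + 1)⁻¹ := fun n x =>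
      (abs_comp_le (gr (zc n) x) i).trans (hC1 n x)
    have e : ∀ n, sqv (fun x => hs (fun x => zc n x * v x) i x - hs v i x)
        = sqv (fun x => ((zc n x • hs v i x - hs v i x) + pd i v x • gr (zc n) x)
          + (v x • hs (zc n) i x + pd i (zc n) x • gr v x)) := by
      intro n
      congr 1
      ext1 x
      rw [hs_mul _ _ (zc_smooth n) hv i x]
      abel
    simp only [e]
    have m1 : ∀ n, MemLp (fun x => zc n x • hs v i x - hs v i x) 2 := fun n =>
      (memLp_smul_bdd (zc n) (hs v i) 1 (hh i) (zc_smooth n).continuous (hza n)).sub (hh i)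
    have m2 : ∀ n, MemLp (fun x => pd i v x • gr (zc n) x) 2 := fun n =>
      memLp_smul_bdd' (pd i v) _ C hgi (gr_cont _ (hz1 n)) (hgz n)
    have m3 : ∀ n, MemLp (fun x => v x • hs (zc n) i x) 2 := fun n =>
      memLp_smul_bdd' v _ C hm (hs_cont _ (zc_smooth n) i) (hhz n i)
    have m4 : ∀ n, MemLp (fun x => pd i (zc n) x • gr v x) 2 := fun n =>
      memLp_smul_bdd (pd i (zc n)) (gr v) C hg (pd_cont _ (hz1 n) i)
        (fun x => (hpz n x).trans (hinv n))
    refine tend_add_zero _ _ (fun n => (m1 n).add (m2 n)) (fun n => (m3 n).add (m4 n))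
      (tend_add_zero _ _ m1 m2 ?_ ?_) (tend_add_zero _ _ m3 m4 ?_ ?_)
    · exact zc_tend (hs v i) (hh i)
    · exact small_tend (pd i v) (fun n => gr (zc n)) C hgi hC1
    · exact small_tend v (fun n => hs (zc n) i) C hm (fun n x => hC2 n i x)
    · exact small_tend' (gr v) (fun n => pd i (zc n)) C hg hpz

theorem dens_thm (_h1 : API1) (hm : MOLL) : DENS := by
  obtain ⟨J, hJ⟩ := hm
  intro u G M hu
  have hum := hu.h1.memf
  have hGm := hu.h1.memG
  have hGi := fun i => memLp_comp G hGm i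
  have hMm := fun i => (hu.h2 i).memG
  have hMij := fun i j => memLp_comp (M i) (hMm i) j
  have hw := a1_wgrad u G hu.h1
  have hw2 := fun i => a1_wgrad _ _ (hu.h2 i)
  have hpd : ∀ n i, pd i (J n u) = J n (fun y => G y i) := by
    intro n i
    ext x
    exact hJ.grad u G hum hGm hw n x i
  have hhs : ∀ n i x j, hs (J n u) i x j = J n (fun y => M i y j) x := by
    intro n i x j
    unfold hs
    rw [hpd]
    exact hJ.grad _ (M i) (hGi i) (hMm i) (hw2 i) n x j
  have hgm : ∀ n, MemLp (gr (J n u)) 2 := by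
    intro n
    refine memLp_of_comp _ fun i => ?_
    have e : (fun x => gr (J n u) x i) = J n (fun y => G y i) := hpd n i
    rw [e]
    exact hJ.mem n _ (hGi i)
  have hhm : ∀ n i, MemLp (hs (J n u) i) 2 := by
    intro n i
    refine memLp_of_comp _ fun j => ?_
    have e : (fun x => hs (J n u) i x j) = J n (fun y => M i y j) := by
      ext x
      exact hhs n i x j
    rw [e]
    exact hJ.mem n _ (hMij i j)
  -- convergence of the mollifications
  have t1 := hJ.tend u hum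
  have t2 : Tendsto (fun n => sqv (fun x => gr (J n u) x - G x)) atTop (𝓝 0) := by
    refine tend_of_comp G (fun n => gr (J n u)) hGm hgm fun i => ?_
    refine (hJ.tend _ (hGi i)).congr fun n => ?_
    congr 1
    ext x
    rw [← hpd]
    rfl
  have t3 : ∀ i, Tendsto (fun n => sqv (fun x => hs (J n u) i x - M i x)) atTop (𝓝 0) := by
    intro i
    refine tend_of_comp (M i) (fun n => hs (J n u) i) (hMm i) (fun n => hhm n i) fun j => ?_
    refine (hJ.tend _ (hMij i j)).congr fun n => ?_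
    congr 1
    ext x
    rw [hhs]
  -- choice of the cut-offs
  have hc : ∀ n : ℕ, ∃ m : ℕ, n ≤ m ∧
      sq (fun x => zc m x * J n u x - J n u x) < ((n : ℝ) + 1)⁻¹ ∧
      sqv (fun x => gr (fun x => zc m x * J n u x) x - gr (J n u) x) < ((n : ℝ) + 1)⁻¹ ∧
      ∀ i, sqv (fun x => hs (fun x => zc m x * J n u x) i x - hs (J n u) i x)
        < ((n : ℝ) + 1)⁻¹ := by
    intro n
    obtain ⟨c1, c2, c3⟩ := cut_H2 (J n u) (hJ.smooth n u hum) (hJ.mem n u hum) (hgm n) (hhm n)
    have hp : (0 : ℝ) < ((n : ℝ) + 1)⁻¹ := by positivity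
    have e1 := (tendsto_order.1 c1).2 _ hp
    have e2 := (tendsto_order.1 c2).2 _ hp
    have e3 : ∀ᶠ m in atTop, ∀ i, sqv (fun x => hs (fun x => zc m x * J n u x) i x
        - hs (J n u) i x) < ((n : ℝ) + 1)⁻¹ := by
      rw [eventually_all]
      exact fun i => (tendsto_order.1 (c3 i)).2 _ hp
    obtain ⟨m, hm⟩ := (((eventually_ge_atTop n).and e1).and (e2.and e3)).exists
    exact ⟨m, hm.1.1, hm.1.2, hm.2.1, hm.2.2⟩
  choose m m0 m1 m2 m3 using hc
  have hJs := fun n => hJ.smooth n u hum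
  have hT : ∀ n, Test (fun x => zc (m n) x * J n u x) := fun n =>
    ⟨(zc_smooth _).mul (hJs n), (zc_cpt _).mul_right⟩
  refine ⟨fun n x => zc (m n) x * J n u x, hT, ?_, ?_, fun i => ?_, ?_⟩
  · have b := squeeze_zero (fun n => sq_nonneg' _) (fun n => (m1 n).le) inv_tend
    have := tend_add_zero' (fun n x => zc (m n) x * J n u x - J n u x) (fun n x => J n u x - u x)
      (fun n => (test_memLp _ (hT n)).sub (hJ.mem n u hum)) (fun n => (hJ.mem n u hum).sub hum)
      b t1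
    simpa using this
  · have b := squeeze_zero (fun n => sqv_nonneg' _) (fun n => (m2 n).le) inv_tend
    have := tend_add_zero (fun n x => gr (fun x => zc (m n) x * J n u x) x - gr (J n u) x)
      (fun n x => gr (J n u) x - G x)
      (fun n => (gr_memLp _ (hT n).one (hT n).cpt).sub (hgm n)) (fun n => (hgm n).sub hGm) b t2
    simpa using this
  · have b := squeeze_zero (fun n => sqv_nonneg' _) (fun n => (m3 n i).le) inv_tend
    have hhT : ∀ n, MemLp (hs (fun x => zc (m n) x * J n u x) i) 2 := fun n =>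
      (hs_cont _ (hT n).smooth i).memLp_of_hasCompactSupport (hs_cpt _ (hT n).cpt i)
    have := tend_add_zero (fun n x => hs (fun x => zc (m n) x * J n u x) i x - hs (J n u) i x)
      (fun n x => hs (J n u) i x - M i x)
      (fun n => (hhT n).sub (hhm n i)) (fun n => (hhm n i).sub (hMm i)) b (t3 i)
    simpa using this
  · intro hcu K hK
    have hunif := hJ.unif u hum hcu K hK
    obtain ⟨R, hR⟩ := hK.isBounded.exists_norm_le
    obtain ⟨N, hN⟩ := exists_nat_ge R
    rw [Metric.tendstoUniformlyOn_iff] at hunif ⊢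
    intro ε hε
    filter_upwards [hunif ε hε, eventually_ge_atTop N] with n hn hn2 x hx
    have h1 : ‖x‖ ≤ (m n : ℝ) + 1 := by
      have a1 := hR x hx
      have a2 : (N : ℝ) ≤ n := by exact_mod_cast hn2
      have a3 : (n : ℝ) ≤ m n := by exact_mod_cast m0 n
      linarith
    show dist (u x) (zc (m n) x * J n u x) < ε
    rw [zc_one _ x h1, one_mul]
    exact hn x hx

end Pool.Agent.PFlow.PB


end

section

/-!
# Module HTWO: solutions belong to `H²`
-/

open MeasureTheory Filter Topology Set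
open scoped ContDiff RealInnerProductSpace

namespace Pool.Agent.PFlow.PB

open Pool.Agent.PenroseSph Pool.Agent.PFlow

namespace HTwo

/-- The right-hand side of the equation belongs to `L²`. -/
theorem rhs_memLp {A : E3 → E3 → E3} {B : E3 → E3 → ℝ} {c L r : ℝ} {Θ θ : E3 → ℝ} {T t₀ : ℝ}
    (hA : PCoef A B c L r) (hP : Pen Θ θ T t₀ r) {u : E3 → ℝ} {G : E3 → E3}
    (hu : MemLp u 2) (hG : MemLp G 2) :
    MemLp (fun x => B x (G x) - Θ x * u x + θ x) 2 := by
  have hBm : AEStronglyMeasurable (fun x => B x (G x)) volume :=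
    hA.smoothB.continuous.comp_aestronglyMeasurable
      (aestronglyMeasurable_id.prodMk hG.aestronglyMeasurable)
  have h1 : MemLp (fun x => B x (G x)) 2 := by
    refine hG.of_le_mul (c := L) hBm (Eventually.of_forall fun x => ?_)
    have := hA.lipB x (G x) 0
    rw [hA.B_zero x, sub_zero, sub_zero] at this
    exact this
  have h2 : MemLp (fun x => Θ x * u x) 2 := by
    refine hu.of_le_mul (c := T) (hP.contΘ.aestronglyMeasurable.mul hu.aestronglyMeasurable)
      (Eventually.of_forall fun x => ?_)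
    rw [norm_mul]
    refine mul_le_mul_of_nonneg_right ?_ (norm_nonneg _)
    rw [Real.norm_eq_abs, abs_of_nonneg ((hP.nonneg x).trans (hP.le x))]
    exact hP.bdd x
  have h3 : MemLp θ 2 := by
    have hc : HasCompactSupport θ := by
      refine HasCompactSupport.of_support_subset_isCompact
        (isCompact_closedBall (0 : E3) r) fun x hx => ?_
      rw [Metric.mem_closedBall, dist_zero_right]
      by_contra h
      exact hx (hP.outθ x (not_le.1 h).le)
    exact hP.contθ.memLp_of_hasCompactSupport hc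
  exact (h1.sub h2).add h3

end HTwo

open HTwo in
theorem htwo_thm (_h1 : API1) (hd : DQ) (hr : DQR) : HTWO := by
  intro A B c L r Θ θ T t₀ hA hP u G hu
  obtain ⟨hH, heq⟩ := hu
  have hf := rhs_memLp hA hP hH.memf hH.memG
  have hdq := hd A B c L r hA u G _ hH hf heq
  have key : ∀ i, ∃ N, H1 (fun x => G x i) N := by
    intro i
    have hGi : MemLp (fun x => G x i) 2 := by
      refine hH.memG.of_le_mul (c := 1)
        ((EuclideanSpace.proj (𝕜 := ℝ) i).continuous.comp_aestronglyMeasurable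
          hH.memG.aestronglyMeasurable) (Eventually.of_forall fun x => ?_)
      rw [one_mul]
      exact PiLp.norm_apply_le (G x) i
    refine hr (fun x => G x i) ((2 * L ^ 2 * sqv G +
      2 * sq (fun x => B x (G x) - Θ x * u x + θ x)) / c ^ 2) hGi fun h => ?_
    refine le_trans ?_ (hdq h)
    have hmp : MeasurePreserving (fun x : E3 => x + h) volume volume :=
      measurePreserving_add_right volume h
    have hsh : MemLp (fun x => G (x + h) - G x) 2 :=
      (hH.memG.comp_measurePreserving hmp).sub hH.memG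
    have hi : Integrable (fun x => ‖G (x + h) - G x‖ ^ 2) := by
      exact hsh.integrable_norm_pow two_ne_zero
    unfold sq sqv
    refine integral_mono_of_nonneg (Eventually.of_forall fun x => sq_nonneg _) hi
      (Eventually.of_forall fun x => ?_)
    have hle : |G (x + h) i - G x i| ≤ ‖G (x + h) - G x‖ :=
      PiLp.norm_apply_le (G (x + h) - G x) i
    change (G (x + h) i - G x i) ^ 2 ≤ ‖G (x + h) - G x‖ ^ 2
    rw [← sq_abs]
    exact pow_le_pow_left₀ (abs_nonneg _) hle 2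
  choose M hM using key
  exact ⟨M, ⟨hH, hM⟩⟩

end Pool.Agent.PFlow.PB


end

section

/-!
# Module INTP: interpolation between `u` and its second derivatives
-/

open MeasureTheory Filter Topology Set
open scoped ContDiff RealInnerProductSpace

namespace Pool.Agent.PFlow.PB

open Pool.Agent.PenroseSph Pool.Agent.PFlow

namespace IntPAux

/-- Cauchy-Schwarz. -/
theorem abs_integral_mul_le {f g : E3 → ℝ} (hf : MemLp f 2) (hg : MemLp g 2) :
    |∫ x, f x * g x| ≤ √(sq f) * √(sq g) := by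
  have hpq : Real.HolderConjugate 2 2 := Real.HolderConjugate.two_two
  have hf' : MemLp f (ENNReal.ofReal 2) := by simpa using hf
  have hg' : MemLp g (ENNReal.ofReal 2) := by simpa using hg
  have h := integral_mul_norm_le_Lp_mul_Lq hpq hf' hg'
  have h1 : |∫ x, f x * g x| ≤ ∫ x, ‖f x‖ * ‖g x‖ := by
    refine (abs_integral_le_integral_abs).trans (le_of_eq ?_)
    refine integral_congr_ae (Eventually.of_forall fun x => ?_)
    simp only [Real.norm_eq_abs, abs_mul]
  refine h1.trans (h.trans (le_of_eq ?_))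
  unfold sq
  simp only [Real.norm_eq_abs, Real.rpow_two, sq_abs, Real.sqrt_eq_rpow]

theorem sq_comp_le {M : E3 → E3} (hM : MemLp M 2) (i : Fin 3) (hi : MemLp (fun x => M x i) 2) :
    sq (fun x => M x i) ≤ sqv M := by
  unfold sq sqv
  apply integral_mono hi.integrable_sq (by simpa using hM.integrable_norm_pow (p := 2) two_ne_zero)
  intro x
  have h := PiLp.norm_apply_le (M x) i
  rw [Real.norm_eq_abs] at h
  have h2 : (M x i) ^ 2 = |M x i| ^ 2 := (sq_abs _).symm
  simp only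
  rw [h2]
  gcongr

end IntPAux

open IntPAux in
theorem intp_thm (_h1 : API1) (_hd : DENS) (h2 : API2) : INTP := by
  intro u G M h
  have hG : ∀ i, MemLp (fun x => G x i) 2 := fun i => (h.h2 i).memf
  have hM : ∀ i, MemLp (M i) 2 := fun i => (h.h2 i).memG
  have hMi : ∀ i, MemLp (fun x => M i x i) 2 := fun i => by
    exact (EuclideanSpace.proj (𝕜 := ℝ) i : E3 →L[ℝ] ℝ).comp_memLp' (hM i)
  have e1 : sqv G = ∑ i, ∫ x, G x i * G x i := by
    unfold sqv
    rw [← integral_finsetSum]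
    · refine integral_congr_ae (Eventually.of_forall fun x => ?_)
      simp only [EuclideanSpace.norm_sq_eq, Real.norm_eq_abs, sq_abs]
      exact Finset.sum_congr rfl fun i _ => by ring
    · intro i _
      exact (hG i).integrable_mul (hG i)
  have e2 : ∀ i, ∫ x, G x i * G x i ≤ √(sq u) * √(sqv (M i)) := by
    intro i
    rw [h2.ibp (fun x => G x i) (M i) u G (h.h2 i) h.h1 i]
    have h3 := abs_integral_mul_le (hMi i) h.h1.memf
    have h4 : √(sq (fun x => M i x i)) ≤ √(sqv (M i)) := Real.sqrt_le_sqrt (_root_.Pool.Agent.PFlow.PB.IntPAux.sq_comp_le (hM i) i (hMi i))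
    have h5 := neg_abs_le (∫ x, M i x i * u x)
    have h6 : √(sq (fun x => M i x i)) * √(sq u) ≤ √(sqv (M i)) * √(sq u) :=
      mul_le_mul_of_nonneg_right h4 (Real.sqrt_nonneg _)
    linarith
  have e3 : ∑ i : Fin 3, √(sqv (M i)) ≤ √3 * √(∑ i, sqv (M i)) := by
    have hnn : ∀ i, 0 ≤ sqv (M i) := fun i => integral_nonneg fun x => sq_nonneg _
    rw [← Real.sqrt_mul (by norm_num)]
    apply Real.le_sqrt_of_sq_le
    have h7 : (∑ i : Fin 3, √(sqv (M i))) ^ 2 ≤ 3 * ∑ i, √(sqv (M i)) ^ 2 := by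
      have := sq_sum_le_card_mul_sum_sq (s := (Finset.univ : Finset (Fin 3)))
        (f := fun i => √(sqv (M i)))
      simpa using this
    refine h7.trans (le_of_eq ?_)
    congr 1
    exact Finset.sum_congr rfl fun i _ => Real.sq_sqrt (hnn i)
  calc sqv G = ∑ i, ∫ x, G x i * G x i := e1
    _ ≤ ∑ i, √(sq u) * √(sqv (M i)) := Finset.sum_le_sum fun i _ => e2 i
    _ = √(sq u) * ∑ i, √(sqv (M i)) := by rw [Finset.mul_sum]
    _ ≤ √(sq u) * (√3 * √(∑ i, sqv (M i))) := mul_le_mul_of_nonneg_left e3 (Real.sqrt_nonneg _)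
    _ = √3 * √(sq u) * √(∑ i, sqv (M i)) := by ring

end Pool.Agent.PFlow.PB


end

section

/-!
# Block P, module KENE: the drift is controlled by the energy
-/

open MeasureTheory Filter Topology Set
open scoped ContDiff RealInnerProductSpace

namespace Pool.Agent.PFlow.PB

open Pool.Agent.PenroseSph Pool.Agent.PFlow

namespace KENEM

theorem inner_cA (ht : KTN) {ε δ κ : ℝ} {g : TensorField} {x : E3} (hg : (g x).PosDef) (ξ : E3) :
    ⟪cA ε δ κ g x ξ, ξ⟫ = volDen g x * regA ε δ κ (lsq g x ξ) * lsq g x ξ := by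
  obtain ⟨-, -, -, hr, -⟩ := ht g x hg ξ
  have h1 : ⟪cA ε δ κ g x ξ, ξ⟫ = ∑ i, volDen g x * regA ε δ κ (lsq g x ξ) * raise g x ξ i * ξ i := by
    rw [PiLp.inner_apply]
    apply Finset.sum_congr rfl
    intro i _
    simp only [cA, RCLike.inner_apply, conj_trivial]
    ring
  rw [h1]
  have h2 : lsq g x ξ = ∑ i, raise g x ξ i * ξ i := (hr ξ).symm
  conv_rhs => rw [h2]
  rw [Finset.mul_sum]
  apply Finset.sum_congr rfl
  intro i _
  rw [← h2]
  ring

/-- the scalar inequality for the drift -/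
theorem scal_up {ε s δ : ℝ} (hε : 0 < ε) (hε1 : ε < 1) (hs : 0 ≤ s) :
    (s + δ ^ 2) ^ ((ε - 2) / 2) * s ≤ s ^ (ε / 2) := by
  rcases hs.eq_or_lt with h | h
  · rw [← h, mul_zero]
    exact Real.rpow_nonneg le_rfl _
  · have h1 : (s + δ ^ 2) ^ ((ε - 2) / 2) ≤ s ^ ((ε - 2) / 2) :=
      Real.rpow_le_rpow_of_nonpos h (by nlinarith [sq_nonneg δ]) (by linarith)
    have h2 : s ^ ((ε - 2) / 2) * s = s ^ (ε / 2) := by
      rw [← Real.rpow_add_one h.ne']
      congr 1
      ring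
    calc (s + δ ^ 2) ^ ((ε - 2) / 2) * s ≤ s ^ ((ε - 2) / 2) * s :=
          mul_le_mul_of_nonneg_right h1 h.le
      _ = s ^ (ε / 2) := h2

/-- the scalar inequality for the energy -/
theorem scal_low {ε s D S : ℝ} (hε : 0 < ε) (hε1 : ε < 1) (hs : 0 ≤ s) (hD : 0 ≤ D)
    (hS1 : 1 ≤ S) (hS2 : 4 * D ^ 2 ≤ S) :
    D * s ^ (ε / 2) ≤ (s + 1) ^ ((ε - 1) / 2) * s + D * S := by
  have h0 : 0 ≤ (s + 1) ^ ((ε - 1) / 2) * s := mul_nonneg (Real.rpow_nonneg (by linarith) _) hs
  rcases le_total s S with h | h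
  · have h1 : s ^ (ε / 2) ≤ S ^ (ε / 2) := Real.rpow_le_rpow hs h (by linarith)
    have h2 : S ^ (ε / 2) ≤ S := by
      calc S ^ (ε / 2) ≤ S ^ (1 : ℝ) := Real.rpow_le_rpow_of_exponent_le hS1 (by linarith)
        _ = S := Real.rpow_one S
    have h3 := mul_le_mul_of_nonneg_left (h1.trans h2) hD
    linarith
  · have hs1 : 1 ≤ s := hS1.trans h
    have hs0 : 0 < s := by linarith
    have h1 : (2 * s) ^ ((ε - 1) / 2) ≤ (s + 1) ^ ((ε - 1) / 2) :=
      Real.rpow_le_rpow_of_nonpos (by linarith) (by linarith) (by linarith)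
    have h2 : (2 * s) ^ ((ε - 1) / 2) = 2 ^ ((ε - 1) / 2) * s ^ ((ε - 1) / 2) :=
      Real.mul_rpow (by norm_num) hs0.le
    have h3 : (1 / 2 : ℝ) ≤ 2 ^ ((ε - 1) / 2) := by
      calc (1 / 2 : ℝ) = 2 ^ (-1 : ℝ) := by rw [Real.rpow_neg_one]; norm_num
        _ ≤ 2 ^ ((ε - 1) / 2) := Real.rpow_le_rpow_of_exponent_le (by norm_num) (by linarith)
    have h4 : s ^ ((ε - 1) / 2) * s = s ^ (ε / 2) * Real.sqrt s := by
      rw [← Real.rpow_add_one hs0.ne', Real.sqrt_eq_rpow, ← Real.rpow_add hs0]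
      congr 1
      ring
    have h5 : 2 * D ≤ Real.sqrt s := by
      apply Real.le_sqrt_of_sq_le
      calc (2 * D) ^ 2 = 4 * D ^ 2 := by ring
        _ ≤ S := hS2
        _ ≤ s := h
    have h6 : 0 ≤ s ^ (ε / 2) := Real.rpow_nonneg hs0.le _
    have h7 : D * s ^ (ε / 2) ≤ (s + 1) ^ ((ε - 1) / 2) * s := by
      calc D * s ^ (ε / 2) = 1 / 2 * (s ^ (ε / 2) * (2 * D)) := by ring
        _ ≤ 1 / 2 * (s ^ (ε / 2) * Real.sqrt s) := by
            apply mul_le_mul_of_nonneg_left _ (by norm_num)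
            exact mul_le_mul_of_nonneg_left h5 h6
        _ ≤ 2 ^ ((ε - 1) / 2) * (s ^ (ε / 2) * Real.sqrt s) :=
            mul_le_mul_of_nonneg_right h3 (mul_nonneg h6 (Real.sqrt_nonneg _))
        _ = (2 * s) ^ ((ε - 1) / 2) * s := by rw [← h4, h2]; ring
        _ ≤ (s + 1) ^ ((ε - 1) / 2) * s := mul_le_mul_of_nonneg_right h1 hs0.le
    have h8 : 0 ≤ D * S := mul_nonneg hD (by linarith)
    linarith

end KENEM

open KENEM in
theorem kene_thm (hb : KBND) (ht : KTN) : KENE := by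
  intro ε g h r hε hε1 hG
  obtain ⟨C, hC⟩ := hb g h r hG
  have hC1 := hC.one
  have hC0 : 0 ≤ C := by linarith
  set D : ℝ := 9 * C ^ 2 + Real.sqrt (9 * C ^ 3) with hD
  have hD0 : 0 ≤ D := by positivity
  set S : ℝ := max 1 (4 * D ^ 2) with hS
  have hS1 : 1 ≤ S := le_max_left _ _
  have hS2 : 4 * D ^ 2 ≤ S := le_max_right _ _
  have hS0 : 0 ≤ S := by linarith
  refine ⟨C * (D * S), by positivity, ?_⟩
  intro δ κ hδ hδ1 hκ hκ1 x ξ
  have hg : (g x).PosDef := hG.met.posDef x (mem_univ x)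
  obtain ⟨hs0, -, -, -, -, hB, hnsq, -⟩ := ht g x hg ξ
  have hv : 0 ≤ volDen g x := Real.sqrt_nonneg _
  rw [inner_cA ht hg]
  set s : ℝ := lsq g x ξ with hs
  have hreg : (s + 1) ^ ((ε - 1) / 2) ≤ regA ε δ κ s := by
    unfold regA
    have h1 : (s + 1) ^ ((ε - 1) / 2) ≤ (s + δ ^ 2) ^ ((ε - 1) / 2) := by
      apply Real.rpow_le_rpow_of_nonpos
      · positivity
      · nlinarith
      · linarith
    linarith
  have hreg0 : 0 ≤ regA ε δ κ s :=
    le_trans (Real.rpow_nonneg (by linarith) _) hreg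
  refine ⟨mul_nonneg (mul_nonneg hv hreg0) hs0, ?_⟩
  -- the bound of the tensor
  have htr : |trg g x (h x)| ≤ 9 * C ^ 2 := by
    refine (hC.tr x (h x)).trans ?_
    have h1 : ∑ i, ∑ j, |h x i j| ≤ ∑ _i : Fin 3, ∑ _j : Fin 3, C :=
      Finset.sum_le_sum fun i _ => Finset.sum_le_sum fun j _ => hC.hh x i j
    simp only [Finset.sum_const, Finset.card_univ, Fintype.card_fin, nsmul_eq_mul] at h1
    have h2 := mul_le_mul_of_nonneg_left h1 hC0
    refine h2.trans (le_of_eq ?_)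
    push_cast
    ring
  have hn : nsq g x (h x) ≤ 9 * C ^ 3 := by
    refine (hC.nsqUp x (h x)).trans ?_
    have h1 : ∑ i, ∑ j, h x i j ^ 2 ≤ ∑ _i : Fin 3, ∑ _j : Fin 3, C ^ 2 :=
      Finset.sum_le_sum fun i _ => Finset.sum_le_sum fun j _ => by
        rw [← sq_abs]
        exact pow_le_pow_left₀ (abs_nonneg _) (hC.hh x i j) 2
    simp only [Finset.sum_const, Finset.card_univ, Fintype.card_fin, nsmul_eq_mul] at h1
    have h2 := mul_le_mul_of_nonneg_left h1 hC0
    refine h2.trans (le_of_eq ?_)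
    push_cast
    ring
  have hev : |ev (h x) (raise g x ξ) (raise g x ξ)| ≤ s * Real.sqrt (9 * C ^ 3) := by
    have h1 := hB (h x)
    have h2 : |ev (h x) (raise g x ξ) (raise g x ξ)| ≤ Real.sqrt (s ^ 2 * nsq g x (h x)) := by
      rw [← Real.sqrt_sq_eq_abs]
      exact Real.sqrt_le_sqrt h1
    refine h2.trans ?_
    rw [Real.sqrt_mul (sq_nonneg s), Real.sqrt_sq hs0]
    exact mul_le_mul_of_nonneg_left (Real.sqrt_le_sqrt hn) hs0
  have hmid : |s * trg g x (h x) - (1 - ε) * ev (h x) (raise g x ξ) (raise g x ξ)| ≤ s * D := by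
    have h1 : |s * trg g x (h x)| ≤ s * (9 * C ^ 2) := by
      rw [abs_mul, abs_of_nonneg hs0]
      exact mul_le_mul_of_nonneg_left htr hs0
    have h2 : |(1 - ε) * ev (h x) (raise g x ξ) (raise g x ξ)| ≤ s * Real.sqrt (9 * C ^ 3) := by
      rw [abs_mul, abs_of_nonneg (by linarith : (0 : ℝ) ≤ 1 - ε)]
      calc (1 - ε) * |ev (h x) (raise g x ξ) (raise g x ξ)|
          ≤ 1 * |ev (h x) (raise g x ξ) (raise g x ξ)| :=
            mul_le_mul_of_nonneg_right (by linarith) (abs_nonneg _)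
        _ ≤ s * Real.sqrt (9 * C ^ 3) := by rw [one_mul]; exact hev
    calc |s * trg g x (h x) - (1 - ε) * ev (h x) (raise g x ξ) (raise g x ξ)|
        ≤ |s * trg g x (h x)| + |(1 - ε) * ev (h x) (raise g x ξ) (raise g x ξ)| := abs_sub _ _
      _ ≤ s * (9 * C ^ 2) + s * Real.sqrt (9 * C ^ 3) := add_le_add h1 h2
      _ = s * D := by rw [hD]; ring
  have hBb : |cB ε δ g h x ξ| ≤ volDen g x * (D * s ^ (ε / 2)) := by
    unfold cB
    rw [← hs, abs_mul, abs_mul, abs_of_nonneg hv]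
    have h0 : 0 ≤ (s + δ ^ 2) ^ ((ε - 2) / 2) := Real.rpow_nonneg (by positivity) _
    rw [abs_of_nonneg h0, mul_assoc]
    apply mul_le_mul_of_nonneg_left _ hv
    calc (s + δ ^ 2) ^ ((ε - 2) / 2) *
          |s * trg g x (h x) - (1 - ε) * ev (h x) (raise g x ξ) (raise g x ξ)|
        ≤ (s + δ ^ 2) ^ ((ε - 2) / 2) * (s * D) := mul_le_mul_of_nonneg_left hmid h0
      _ = D * ((s + δ ^ 2) ^ ((ε - 2) / 2) * s) := by ring
      _ ≤ D * s ^ (ε / 2) := mul_le_mul_of_nonneg_left (scal_up hε hε1 hs0) hD0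
  have hlow := scal_low hε hε1 hs0 hD0 hS1 hS2
  calc |cB ε δ g h x ξ| ≤ volDen g x * (D * s ^ (ε / 2)) := hBb
    _ ≤ volDen g x * ((s + 1) ^ ((ε - 1) / 2) * s + D * S) := mul_le_mul_of_nonneg_left hlow hv
    _ = volDen g x * ((s + 1) ^ ((ε - 1) / 2) * s) + volDen g x * (D * S) := by ring
    _ ≤ volDen g x * (regA ε δ κ s * s) + C * (D * S) := by
        apply add_le_add
        · exact mul_le_mul_of_nonneg_left (mul_le_mul_of_nonneg_right hreg hs0) hv
        · exact mul_le_mul_of_nonneg_right (hC.volUp x) (mul_nonneg hD0 hS0)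
    _ = volDen g x * regA ε δ κ s * s + C * (D * S) := by ring

end Pool.Agent.PFlow.PB


end

section

/-!
# Block P, module LIPS: the solution depends on the data in a Lipschitz way
-/

open MeasureTheory Filter Topology Set
open scoped ContDiff RealInnerProductSpace ENNReal

namespace Pool.Agent.PFlow.PB

open Pool.Agent.PenroseSph Pool.Agent.PFlow

namespace Lips

lemma int_inner {F G : E3 → E3} (hF : MemLp F 2) (hG : MemLp G 2) :
    Integrable (fun x => ⟪F x, G x⟫) := by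
  have h1 : Integrable (fun x => ‖F x‖ * ‖G x‖) := hF.norm.integrable_mul hG.norm
  refine h1.mono (hF.1.inner hG.1) (Eventually.of_forall fun x => ?_)
  rw [norm_mul, norm_norm, norm_norm]
  exact norm_inner_le_norm _ _

lemma pt {c L m d w q P Q th : ℝ} (hc : 0 < c) (hm : L ^ 2 / c + 1 ≤ m) (hth : 0 ≤ th)
    (hP : c * d ^ 2 ≤ P) (hQ : Q * w ≤ L * d * |w|) :
    c / 2 * d ^ 2 + 1 / 2 * w ^ 2 - m / 2 * q ^ 2
      ≤ P - (Q - th * w - m * (w - q)) * w := by
  have h3 : L * d * |w| ≤ c / 2 * d ^ 2 + L ^ 2 / (2 * c) * w ^ 2 := by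
    have h4 : 0 ≤ (c * d - L * |w|) ^ 2 / (2 * c) := by positivity
    have h5 : (c * d - L * |w|) ^ 2 / (2 * c)
        = c / 2 * d ^ 2 + L ^ 2 / (2 * c) * |w| ^ 2 - L * d * |w| := by
      field_simp
      ring
    rw [h5, sq_abs] at h4
    linarith
  have hm0 : 0 ≤ m := by
    have : 0 ≤ L ^ 2 / c := by positivity
    linarith
  have h6 : L ^ 2 / (2 * c) * w ^ 2 ≤ (m - 1) / 2 * w ^ 2 := by
    refine mul_le_mul_of_nonneg_right ?_ (sq_nonneg _)
    have e : L ^ 2 / (2 * c) = L ^ 2 / c / 2 := by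
      field_simp
    rw [e]
    linarith
  have h7 : m * (q * w) ≤ m / 2 * q ^ 2 + m / 2 * w ^ 2 := by
    nlinarith [mul_nonneg hm0 (sq_nonneg (q - w))]
  have h8 : 0 ≤ th * w ^ 2 := mul_nonneg hth (sq_nonneg _)
  nlinarith

end Lips

open Lips Step in
/-- Module LIPS. -/
theorem lips_thm (h1 : API1) : LIPS := by
  intro A B c L r Θ θ T t₀ hP hp m hm
  have hc := hP.c_pos
  have hL : 0 < L := hP.c_pos.trans_le hP.c_le
  have hm0 : 0 ≤ m := by
    have : 0 ≤ L ^ 2 / c := by positivity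
    linarith
  refine ⟨m * (1 + 1 / c), fun v₁ v₂ u₁ u₂ G₁ G₂ hv₁ hv₂ h₁ h₂ => ?_⟩
  have hW : H1 (fun x => u₁ x - u₂ x) (fun x => G₁ x - G₂ x) := h1.sub _ _ _ _ h₁.1 h₂.1
  have e1 := h₁.2 _ _ hW
  have e2 := h₂.2 _ _ hW
  have hq : MemLp (fun x => v₁ x - v₂ x) 2 := hv₁.sub hv₂
  have f : ∀ {v u : E3 → ℝ} {G : E3 → E3}, MemLp v 2 → MemLp u 2 → MemLp G 2 →
      MemLp (fun x => B x (G x) - Θ x * u x + θ x - m * (u x - v x)) 2 := fun hv hu hG =>
    (((memB hP hG).sub (memTheta hp hu)).add (memtheta hp)).sub ((hu.sub hv).const_mul m)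
  have i1 := int_inner (memA hP h₁.1.memG) hW.memG
  have i2 := int_inner (memA hP h₂.1.memG) hW.memG
  have i3 := int_mul _ _ (f hv₁ h₁.1.memf h₁.1.memG) hW.memf
  have i4 := int_mul _ _ (f hv₂ h₂.1.memf h₂.1.memG) hW.memf
  have hzero : ∫ x, ((⟪A x (G₁ x), G₁ x - G₂ x⟫ - ⟪A x (G₂ x), G₁ x - G₂ x⟫)
      - ((B x (G₁ x) - Θ x * u₁ x + θ x - m * (u₁ x - v₁ x)) * (u₁ x - u₂ x)
        - (B x (G₂ x) - Θ x * u₂ x + θ x - m * (u₂ x - v₂ x)) * (u₁ x - u₂ x))) = 0 := by
    have a1 : Integrable (fun x => ⟪A x (G₁ x), G₁ x - G₂ x⟫ - ⟪A x (G₂ x), G₁ x - G₂ x⟫) :=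
      i1.sub i2
    have a2 : Integrable (fun x =>
        (B x (G₁ x) - Θ x * u₁ x + θ x - m * (u₁ x - v₁ x)) * (u₁ x - u₂ x)
        - (B x (G₂ x) - Θ x * u₂ x + θ x - m * (u₂ x - v₂ x)) * (u₁ x - u₂ x)) := i3.sub i4
    rw [integral_sub a1 a2, integral_sub i1 i2, integral_sub i3 i4, e1, e2, sub_self]
  have j1 := int_sq _ hW.memG
  have j2 : Integrable (fun x => (u₁ x - u₂ x) ^ 2) := by
    simpa [Real.norm_eq_abs, sq_abs] using int_sq _ hW.memf
  have j3 : Integrable (fun x => (v₁ x - v₂ x) ^ 2) := by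
    simpa [Real.norm_eq_abs, sq_abs] using int_sq _ hq
  have b1 : Integrable (fun x => c / 2 * ‖G₁ x - G₂ x‖ ^ 2) := j1.const_mul _
  have b2 : Integrable (fun x => 1 / 2 * (u₁ x - u₂ x) ^ 2) := j2.const_mul _
  have b3 : Integrable (fun x => m / 2 * (v₁ x - v₂ x) ^ 2) := j3.const_mul _
  have b4 : Integrable (fun x => c / 2 * ‖G₁ x - G₂ x‖ ^ 2 + 1 / 2 * (u₁ x - u₂ x) ^ 2) :=
    b1.add b2
  have hle : ∫ x, (c / 2 * ‖G₁ x - G₂ x‖ ^ 2 + 1 / 2 * (u₁ x - u₂ x) ^ 2
      - m / 2 * (v₁ x - v₂ x) ^ 2) ≤ 0 := by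
    rw [← hzero]
    refine integral_mono (b4.sub b3) ((i1.sub i2).sub (i3.sub i4)) fun x => ?_
    have h3 := hP.mono x (G₁ x) (G₂ x)
    have h4 := hP.lipB x (G₁ x) (G₂ x)
    have h5 : (B x (G₁ x) - B x (G₂ x)) * (u₁ x - u₂ x)
        ≤ L * ‖G₁ x - G₂ x‖ * |u₁ x - u₂ x| := by
      refine (le_abs_self _).trans ?_
      rw [abs_mul]
      exact mul_le_mul_of_nonneg_right h4 (abs_nonneg _)
    have h6 := pt (q := v₁ x - v₂ x) hc hm ((hp.nonneg x).trans (hp.le x)) h3 h5
    refine h6.trans (le_of_eq ?_)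
    rw [inner_sub_left]
    ring
  rw [integral_sub b4 b3, integral_add b1 b2, integral_const_mul, integral_const_mul,
    integral_const_mul] at hle
  have hle' : c / 2 * sqv (fun x => G₁ x - G₂ x) + 1 / 2 * sq (fun x => u₁ x - u₂ x)
      - m / 2 * sq (fun x => v₁ x - v₂ x) ≤ 0 := hle
  have n1 := sqv_nonneg' (fun x => G₁ x - G₂ x)
  have n2 := sq_nonneg' (fun x => u₁ x - u₂ x)
  have n3 := sq_nonneg' (fun x => v₁ x - v₂ x)
  have k1 : sq (fun x => u₁ x - u₂ x) ≤ m * sq (fun x => v₁ x - v₂ x) := by nlinarith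
  have k2 : sqv (fun x => G₁ x - G₂ x) ≤ m * (1 / c) * sq (fun x => v₁ x - v₂ x) := by
    have k3 : c * sqv (fun x => G₁ x - G₂ x) ≤ m * sq (fun x => v₁ x - v₂ x) := by nlinarith
    have e : m * (1 / c) * sq (fun x => v₁ x - v₂ x) = m * sq (fun x => v₁ x - v₂ x) / c := by
      ring
    rw [e, le_div_iff₀ hc, mul_comm]
    exact k3
  calc sq (fun x => u₁ x - u₂ x) + sqv (fun x => G₁ x - G₂ x)
      ≤ m * sq (fun x => v₁ x - v₂ x) + m * (1 / c) * sq (fun x => v₁ x - v₂ x) :=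
        add_le_add k1 k2
    _ = m * (1 + 1 / c) * sq (fun x => v₁ x - v₂ x) := by ring

end Pool.Agent.PFlow.PB


end

section

/-!
# Block P, F4: the uniform bound in `H²`
-/

open MeasureTheory Filter Topology Set
open scoped ContDiff RealInnerProductSpace

namespace Pool.Agent.PFlow.PB

open Pool.Agent.PenroseSph Pool.Agent.PFlow

/-- `m ≤ a √m + b` gives a bound for `m`. -/
theorem unif_quad {m a b : ℝ} (hm : 0 ≤ m) (h : m ≤ a * √m + b) : m ≤ a ^ 2 + 2 * b := by
  have hs : √m ^ 2 = m := Real.sq_sqrt hm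
  nlinarith [sq_nonneg (a - √m)]

theorem unif_sq_nonneg (f : E3 → ℝ) : 0 ≤ sq f := integral_nonneg fun x => sq_nonneg _

theorem unif_sqv_nonneg (f : E3 → E3) : 0 ≤ sqv f := integral_nonneg fun x => sq_nonneg _

theorem unif_sq_int {f : E3 → ℝ} (hf : MemLp f 2) : Integrable fun x => f x ^ 2 :=
  hf.integrable_sq

theorem unif_memTheta {Θ θ : E3 → ℝ} {T t₀ r : ℝ} (hP : Pen Θ θ T t₀ r) : MemLp θ 2 := by
  have hc : HasCompactSupport θ := by
    apply HasCompactSupport.of_support_subset_isCompact (isCompact_closedBall (0 : E3) r)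
    intro x hx
    rw [Metric.mem_closedBall, dist_zero_right]
    by_contra hcon
    exact hx (hP.outθ x (not_le.mp hcon).le)
  exact hP.contθ.memLp_of_hasCompactSupport hc

theorem unif_memF {Θ θ : E3 → ℝ} {T t₀ r : ℝ} (hP : Pen Θ θ T t₀ r) {u : E3 → ℝ}
    (hu : MemLp u 2) : MemLp (fun x => Θ x * u x - θ x) 2 := by
  have h1 : MemLp (fun x => Θ x * u x) 2 := by
    refine MemLp.of_le_mul (c := T) hu ?_ ?_
    · exact hP.contΘ.aestronglyMeasurable.mul hu.1
    · refine Eventually.of_forall fun x => ?_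
      rw [norm_mul]
      have h0 : 0 ≤ Θ x := (hP.nonneg x).trans (hP.le x)
      rw [Real.norm_of_nonneg h0]
      exact mul_le_mul_of_nonneg_right (hP.bdd x) (norm_nonneg _)
  exact h1.sub (unif_memTheta hP)

theorem unif_sqF {Θ θ : E3 → ℝ} {T t₀ r : ℝ} (hP : Pen Θ θ T t₀ r) {u : E3 → ℝ}
    (hu : MemLp u 2) :
    sq (fun x => Θ x * u x - θ x) ≤ 2 * T ^ 2 * sq u + 2 * sq θ := by
  unfold sq
  rw [← integral_const_mul, ← integral_const_mul, ← integral_add]
  · refine integral_mono (unif_sq_int (unif_memF hP hu)) ?_ ?_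
    · exact ((unif_sq_int hu).const_mul _).add ((unif_sq_int (unif_memTheta hP)).const_mul _)
    · intro x
      have h0 : 0 ≤ Θ x := (hP.nonneg x).trans (hP.le x)
      have h1 : (Θ x) ^ 2 ≤ T ^ 2 := pow_le_pow_left₀ h0 (hP.bdd x) 2
      have h2 : (Θ x) ^ 2 * u x ^ 2 ≤ T ^ 2 * u x ^ 2 :=
        mul_le_mul_of_nonneg_right h1 (sq_nonneg _)
      show (Θ x * u x - θ x) ^ 2 ≤ 2 * T ^ 2 * u x ^ 2 + 2 * θ x ^ 2
      nlinarith [sq_nonneg (Θ x * u x + θ x)]
  · exact (unif_sq_int hu).const_mul _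
  · exact (unif_sq_int (unif_memTheta hP)).const_mul _

theorem unif_thm (_h1 : API1) (hb : BRID) (he : ENER) (hn : NDIV) (hk : KCOR) (hc : CORDI)
    (hi : INTP) : UNIF := by
  intro ε g h r Θ θ T t₀ hε hε1 hr hG hP
  obtain ⟨C1, hC1⟩ := he ε g h r Θ θ T t₀ hε hε1 hG hP
  obtain ⟨C0, hC0, hK⟩ := hk ε g h r hε hε1 hG
  obtain ⟨C2, hC2⟩ := hc ε g h r hε hε1 hG C0 T
  set S := max C1 0 with hS
  set A := |C2| * (√3 * √S) with hA
  set B := |C2| * (2 * T ^ 2 * S + 2 * sq θ) with hB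
  refine ⟨S + √3 * √S * (1 + (A ^ 2 + 2 * B)) + (A ^ 2 + 2 * B), ?_⟩
  intro δ κ hδ hδ1 hκ hκ1 u G M hW hH h01
  have hu2 : MemLp u 2 := hH.h1.memf
  have hsu : sq u ≤ S := (hC1 δ κ hδ hδ1 hκ hκ1 u G hW h01).trans (le_max_left _ _)
  have hS0 : 0 ≤ S := le_max_right _ _
  have hsθ : 0 ≤ sq θ := unif_sq_nonneg θ
  obtain ⟨c, L, hPC⟩ := hb.coef ε δ κ g h r hε hε1 hδ hκ hr hG
  have hnd := hn _ _ c L r Θ θ T t₀ hPC hP u G M hW hH
  set F : E3 → ℝ := fun x => Θ x * u x - θ x with hF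
  have hFm : MemLp F 2 := unif_memF hP hu2
  have hFb : ∀ᵐ x, |F x| ≤ T := by
    filter_upwards [h01] with x hx
    have h0 : 0 ≤ Θ x := (hP.nonneg x).trans (hP.le x)
    have h1 := hP.nonneg x
    have h2 := hP.le x
    have h3 := hP.bdd x
    have h4 : Θ x * u x ≤ Θ x := by nlinarith [hx.2]
    have h5 : 0 ≤ Θ x * u x := mul_nonneg h0 hx.1
    rw [abs_le]
    constructor
    · show -T ≤ Θ x * u x - θ x
      linarith
    · show Θ x * u x - θ x ≤ T
      linarith
  have hcord : ∀ᵐ x, trg g x (cHess g x (G x) (mt fun i => M i x)) ^ 2 ≤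
      (1 - ε) * nsq g x (cHess g x (G x) (mt fun i => M i x))
        + C0 * (‖G x‖ ^ 2 + F x ^ 2 * (1 + ‖G x‖ ^ 2)) := by
    filter_upwards [hnd] with x hx
    rw [hb.op ε δ κ g h r hε hε1 hδ hκ hG x (G x) (fun i => M i x)] at hx
    have := hK δ κ hδ hδ1 hκ hκ1 x (G x) (mt fun i => M i x) (F x) hx
    exact this
  have hM := hC2 u G M F hH hFm hFb hcord
  set m := ∑ i, sqv (M i) with hm
  have hm0 : 0 ≤ m := Finset.sum_nonneg fun i _ => unif_sqv_nonneg _
  have hG0 : 0 ≤ sqv G := unif_sqv_nonneg _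
  have hF0 : 0 ≤ sq F := unif_sq_nonneg _
  have hint : sqv G ≤ √3 * √(sq u) * √m := hi u G M hH
  have hint' : sqv G ≤ √3 * √S * √m := by
    have h1 : √(sq u) ≤ √S := Real.sqrt_le_sqrt hsu
    have h2 : √3 * √(sq u) ≤ √3 * √S := mul_le_mul_of_nonneg_left h1 (Real.sqrt_nonneg _)
    exact hint.trans (mul_le_mul_of_nonneg_right h2 (Real.sqrt_nonneg _))
  have hsF : sq F ≤ 2 * T ^ 2 * S + 2 * sq θ := by
    have h1 : sq F ≤ 2 * T ^ 2 * sq u + 2 * sq θ := unif_sqF hP hu2
    have h2 : 2 * T ^ 2 * sq u ≤ 2 * T ^ 2 * S :=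
      mul_le_mul_of_nonneg_left hsu (by positivity)
    linarith
  have hmb : m ≤ A * √m + B := by
    calc m ≤ C2 * (sqv G + sq F) := hM
      _ ≤ |C2| * (sqv G + sq F) :=
          mul_le_mul_of_nonneg_right (le_abs_self _) (add_nonneg hG0 hF0)
      _ ≤ |C2| * (√3 * √S * √m + (2 * T ^ 2 * S + 2 * sq θ)) :=
          mul_le_mul_of_nonneg_left (add_le_add hint' hsF) (abs_nonneg _)
      _ = A * √m + B := by rw [hA, hB]; ring
  have hmq := unif_quad hm0 hmb
  have hsm : √m ≤ 1 + m := by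
    nlinarith [Real.sq_sqrt hm0, sq_nonneg (√m - 1), Real.sqrt_nonneg m]
  have h3S : 0 ≤ √3 * √S := by positivity
  have : sqv G ≤ √3 * √S * (1 + (A ^ 2 + 2 * B)) :=
    hint'.trans (mul_le_mul_of_nonneg_left (hsm.trans (by linarith)) h3S)
  linarith

end Pool.Agent.PFlow.PB


end

section

/-!
# Block P, assembly: all statements except `NDIV`
-/

namespace Pool.Agent.PFlow.PB

open Pool.Agent.PFlow

theorem pMOLL : MOLL := moll_thm
theorem pAPI1 : API1 := api1_thm
theorem pAPI2 : API2 := api2_thm pMOLL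
theorem pWH : WH := wh_thm pAPI1 pAPI2 pMOLL
theorem pDENS : DENS := dens_thm pAPI1 pMOLL
theorem pCHAIN : CHAIN := chain_thm pAPI1 pAPI2
theorem pSYMM : SYMM := symm_thm pAPI1 pCHAIN
theorem pZAR : ZAR := zar_thm
theorem pSTEP : STEP := step_thm pAPI1 pZAR
theorem pORDER : ORDER := order_thm pAPI1 pCHAIN
theorem pLIPS : LIPS := lips_thm pAPI1
theorem pBDD : BDD := bdd_thm pAPI1
theorem pEXI : EXI := exi_thm pAPI1 pSTEP pORDER pLIPS pBDD
theorem pWEAKL : WEAKL := weakl_thm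
theorem pDQ : DQ := dq_thm pAPI1 pAPI2
theorem pDQR : DQR := dqr_thm pAPI1 pWH pWEAKL
theorem pHTWO : HTWO := htwo_thm pAPI1 pDQ pDQR
theorem pSUPB : SUPB := supb_thm
theorem pCONT : CONT := cont_thm pAPI1 pAPI2 pDENS pSUPB
theorem pINTP : INTP := intp_thm pAPI1 pDENS pAPI2
theorem pCID : CID := cid_thm pAPI1 pDENS
theorem pCPTU : CPTU := cptu_thm
theorem pCPTG : CPTG := cptg_thm pAPI1 pAPI2
theorem pCPTA : CPTA := cpta_thm
theorem pCPT : CPT := cpt_thm pAPI1 pCONT pCPTU pCPTG pCPTA pWEAKL pWH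
theorem pLIMEQ : LIMEQ := limeq_thm
theorem pLIMW : LIMW := limw_thm
theorem pCKEY : CKEY := ckey_thm pAPI1 pAPI2 pCHAIN
theorem pCCPT : CCPT := ccpt_thm pAPI1 pAPI2 pCKEY
theorem pCGLO : CGLO := cglo_thm pAPI1 pAPI2 pCHAIN pCKEY
theorem pBRID : BRID := brid_thm kCOEF kJET kSMO
theorem pKENE : KENE := kene_thm kBND kTN
theorem pCORDI : CORDI := cordi_thm pAPI1 pCID kBND kSM
theorem pENER : ENER := ener_thm pAPI1 pBRID pKENE
theorem pUNIF (hn : NDIV) : UNIF := unif_thm pAPI1 pBRID pENER hn kCOR pCORDI pINTP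
theorem pCLOSE : CLOSE := close_thm pBRID kBAR kCUT pCGLO
theorem pFLUXL : FLUXL := fluxl_thm pAPI1 pAPI2 pLIMW kLIM kSMO kTN
theorem pSUBL : SUBL := subl_thm pBRID pCCPT kPOS
theorem pNOISL : NOISL := noisl_thm kEXP
theorem pHTWOON : HTWOON := htwoon_thm pDENS
theorem pLIMX (hn : NDIV) : LIMX :=
  limx_thm pAPI1 pBRID pCLOSE pEXI pHTWO pCONT (pUNIF hn) pCPT

theorem pEQL (hn : NDIV) : EQL := eql_thm pBRID hn pLIMEQ pSYMM kLIMU kSMO kTN

theorem stmt_P_of (hn : NDIV) : Stmt_P :=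
  finp_thm (pEQL hn) pFLUXL pSUBL pNOISL pHTWOON (pLIMX hn)

end Pool.Agent.PFlow.PB


end

section

/-!
# Energy block, module JUP: upper bound for the flux
-/

open MeasureTheory Filter Topology
open scoped ContDiff ENNReal

namespace Pool.Agent.PFlow

open Pool.Agent.PenroseSph

namespace JUPaux

variable {α : Type*} [MeasurableSpace α] {μ : Measure α}

lemma memLp_rpow {F : α → ℝ} {a : ℝ} (ha : 0 < a) (hF : ∀ x, 0 ≤ F x) (hi : Integrable F μ) :
    MemLp (fun x => F x ^ a) (ENNReal.ofReal (1 / a)) μ := by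
  have hm : AEStronglyMeasurable (fun x => F x ^ a) μ :=
    (Real.continuous_rpow_const ha.le).comp_aestronglyMeasurable hi.1
  rw [← integrable_norm_rpow_iff hm (by
    rw [ne_eq, ENNReal.ofReal_eq_zero, not_le]
    positivity) ENNReal.ofReal_ne_top]
  refine hi.congr (Eventually.of_forall fun x => ?_)
  rw [ENNReal.toReal_ofReal (by positivity)]
  show F x = ‖F x ^ a‖ ^ (1 / a)
  rw [Real.norm_of_nonneg (Real.rpow_nonneg (hF x) _),
    ← Real.rpow_mul (hF x), mul_one_div_cancel ha.ne', Real.rpow_one]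

/-- Hölder's inequality for `F ^ a * G ^ b`, `a + b = 1`. -/
lemma holder {F G : α → ℝ} {a b : ℝ} (ha : 0 < a) (hb : 0 < b) (hab : a + b = 1)
    (hF : ∀ x, 0 ≤ F x) (hG : ∀ x, 0 ≤ G x) (hFi : Integrable F μ) (hGi : Integrable G μ) :
    Integrable (fun x => F x ^ a * G x ^ b) μ ∧
      ∫ x, F x ^ a * G x ^ b ∂μ ≤ (∫ x, F x ∂μ) ^ a * (∫ x, G x ∂μ) ^ b := by
  have hc : (1 / a).HolderConjugate (1 / b) := Real.holderConjugate_one_div ha hb hab
  have m1 := memLp_rpow ha hF hFi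
  have m2 := memLp_rpow hb hG hGi
  have h1 := integral_mul_le_Lp_mul_Lq_of_nonneg hc
    (Eventually.of_forall fun x => Real.rpow_nonneg (hF x) a)
    (Eventually.of_forall fun x => Real.rpow_nonneg (hG x) b) m1 m2
  have e1 : ∀ x, (F x ^ a) ^ (1 / a) = F x := fun x => by
    rw [← Real.rpow_mul (hF x), mul_one_div_cancel ha.ne', Real.rpow_one]
  have e2 : ∀ x, (G x ^ b) ^ (1 / b) = G x := fun x => by
    rw [← Real.rpow_mul (hG x), mul_one_div_cancel hb.ne', Real.rpow_one]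
  simp only [e1, e2, one_div_one_div] at h1
  refine ⟨?_, h1⟩
  have : ENNReal.HolderConjugate (ENNReal.ofReal (1 / a)) (ENNReal.ofReal (1 / b)) :=
    Real.HolderConjugate.ennrealOfReal hc
  exact m1.integrable_mul m2

end JUPaux

open JUPaux in
theorem JUP : Stmt_JUP := by
  intro ε β hε hε2 hβ
  obtain ⟨M, hM⟩ : ∃ M : ℝ, ∀ s, β s ≤ M := by
    have hc : HasCompactSupport β := by
      refine HasCompactSupport.intro (isCompact_Icc (a := (1 / 4 : ℝ)) (b := 3 / 4)) fun x hx => ?_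
      rw [Set.mem_Icc, not_and_or, not_le, not_le] at hx
      rcases hx with hx | hx
      · exact hβ.supp x (Or.inl hx.le)
      · exact hβ.supp x (Or.inr hx.le)
    obtain ⟨M, hM⟩ := hc.exists_bound_of_continuous hβ.smooth.continuous
    exact ⟨M, fun s => (le_abs_self _).trans (hM s)⟩
  refine ⟨max M 1, lt_max_of_lt_right one_pos, ?_⟩
  intro Ω vol w X Φ D S sb s₂ sM B₁ B₂ V hA hsb hs2 hsM hV
  set T : Set E3 := Ω ∩ {x | s₂ < w x ∧ w x < s₂ + 1} with hT
  have hTm : MeasurableSet T := by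
    refine hA.measOmega.inter ?_
    exact (measurableSet_lt measurable_const hA.meas_w).inter
      (measurableSet_lt hA.meas_w measurable_const)
  have hTsub : T ⊆ Ω ∩ {x | s₂ ≤ w x ∧ w x ≤ s₂ + 1} := fun x hx => ⟨hx.1, hx.2.1.le, hx.2.2.le⟩
  have iv : IntegrableOn vol T :=
    (hA.int_vol s₂ (s₂ + 1) (by linarith) (by linarith) hsM).mono_set hTsub
  have iX : IntegrableOn (fun x => X x ^ 3 * vol x) T :=
    (hA.int_X s₂ (s₂ + 1) (by linarith) (by linarith) hsM).mono_set hTsub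
  obtain ⟨i1, h1⟩ := holder (μ := volume.restrict T) (a := (1 + ε) / 3) (b := (2 - ε) / 3)
    (by linarith) (by linarith) (by ring)
    (fun x => mul_nonneg (pow_nonneg (hA.X_nonneg x) 3) (hA.vol_nonneg x)) hA.vol_nonneg iX iv
  have e1 : ∀ x, (X x ^ 3 * vol x) ^ ((1 + ε) / 3) * vol x ^ ((2 - ε) / 3)
      = X x ^ (1 + ε) * vol x := by
    intro x
    have hX := hA.X_nonneg x
    have hv := hA.vol_nonneg x
    rw [Real.mul_rpow (pow_nonneg hX 3) hv, mul_assoc, ← Real.rpow_natCast, ← Real.rpow_mul hX,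
      ← Real.rpow_add_of_nonneg hv (by linarith) (by linarith),
      show (1 + ε) / 3 + (2 - ε) / 3 = 1 by ring, Real.rpow_one]
    congr 2
    push_cast
    ring
  simp only [e1] at i1 h1
  have hB : ∫ x in T, X x ^ 3 * vol x ≤ B₁ := hA.window s₂ le_rfl hsM.le
  have hv0 : 0 ≤ ∫ x in T, vol x := integral_nonneg fun x => hA.vol_nonneg x
  have hX0 : 0 ≤ ∫ x in T, X x ^ 3 * vol x :=
    integral_nonneg fun x => mul_nonneg (pow_nonneg (hA.X_nonneg x) 3) (hA.vol_nonneg x)
  have h2 : (∫ x in T, X x ^ 3 * vol x) ^ ((1 + ε) / 3) * (∫ x in T, vol x) ^ ((2 - ε) / 3)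
      ≤ B₁ ^ ((1 + ε) / 3) * V ^ ((2 - ε) / 3) := by
    apply mul_le_mul
    · exact Real.rpow_le_rpow hX0 hB (by linarith)
    · exact Real.rpow_le_rpow hv0 hV (by linarith)
    · positivity
    · exact Real.rpow_nonneg (hX0.trans hB) _
  have hexp := Real.exp_pos (-s₂)
  have hM0 : 0 < max M 1 := lt_max_of_lt_right one_pos
  have h3 : jInf ε β Ω vol w X s₂
      ≤ ∫ x in T, max M 1 * Real.exp (-s₂) * (X x ^ (1 + ε) * vol x) := by
    unfold jInf
    rw [← integral_indicator hTm, ← integral_indicator hA.measOmega]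
    refine integral_mono_of_nonneg (Eventually.of_forall fun x => ?_) ?_
      (Eventually.of_forall fun x => ?_)
    · refine Set.indicator_nonneg (fun x _ => ?_) x
      have := hβ.nonneg (w x - s₂)
      have := hA.vol_nonneg x
      have := Real.rpow_nonneg (hA.X_nonneg x) (1 + ε)
      positivity
    · rw [integrable_indicator_iff hTm]
      exact i1.const_mul _
    · by_cases hx : x ∈ T
      · rw [Set.indicator_of_mem hx, Set.indicator_of_mem hx.1]
        have a1 := hβ.nonneg (w x - s₂)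
        have a2 : β (w x - s₂) ≤ max M 1 := (hM _).trans (le_max_left _ _)
        have a3 : Real.exp (-w x) ≤ Real.exp (-s₂) := by
          apply Real.exp_le_exp.mpr
          linarith [hx.2.1]
        have a4 := Real.rpow_nonneg (hA.X_nonneg x) (1 + ε)
        have a5 := hA.vol_nonneg x
        calc β (w x - s₂) * (Real.exp (-w x) * X x ^ (1 + ε)) * vol x
            = (β (w x - s₂) * Real.exp (-w x)) * (X x ^ (1 + ε) * vol x) := by ring
          _ ≤ (max M 1 * Real.exp (-s₂)) * (X x ^ (1 + ε) * vol x) := by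
            apply mul_le_mul_of_nonneg_right _ (mul_nonneg a4 a5)
            exact mul_le_mul a2 a3 (Real.exp_pos _).le hM0.le
      · have hzero : Ω.indicator (fun x => β (w x - s₂) * (Real.exp (-w x) * X x ^ (1 + ε)) * vol x) x
            = 0 := by
          by_cases hxO : x ∈ Ω
          · rw [Set.indicator_of_mem hxO]
            have : β (w x - s₂) = 0 := by
              apply hβ.supp
              by_contra hcon
              push Not at hcon
              exact hx ⟨hxO, by linarith [hcon.1], by linarith [hcon.2]⟩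
            rw [this]
            ring
          · rw [Set.indicator_of_notMem hxO]
        rw [hzero, Set.indicator_of_notMem hx]
  rw [integral_const_mul] at h3
  calc jInf ε β Ω vol w X s₂ ≤ _ := h3
    _ ≤ max M 1 * Real.exp (-s₂) * (B₁ ^ ((1 + ε) / 3) * V ^ ((2 - ε) / 3)) :=
        mul_le_mul_of_nonneg_left (h1.trans h2) (by positivity)
    _ = _ := by ring

end Pool.Agent.PFlow


end
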