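import Mathlib
import Pool.Agent.PFlow.StmtsE2
import Pool.Agent.PenroseM.C03
import Pool.Agent.PenroseM.C05
import Pool.Agent.PenroseM.C12
import Pool.Agent.PenroseM.C23
import Pool.Agent.PenroseM.C41

/-! Parts: PFlow.G.BO2, PFlow.G.KER, PFlow.G.RHO, PFlow.E.DIVG, PFlow.E.FLXA -/

section

/-!
# (BO2) The two-dimensional Bochner formula
-/

open MeasureTheory Filter Topology
open scoped ContDiff

namespace Pool.Agent.PFlow.GB

open Pool.Agent.PenroseSph Pool.Agent.PFlow Pool.Agent.PenroseConvex.XR3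

namespace BO2aux

/-- The divergence of the vector field `(P, Q) / D`, where `D` is the determinant. -/
noncomputable def dv (D P Q : E3 → ℝ) (y : E3) : ℝ :=
  (pd 0 P y + pd 1 Q y) / D y - (P y * pd 0 D y + Q y * pd 1 D y) / (2 * D y ^ 2)

lemma HP_sqrt {l : Fin 3} {f : E3 → ℝ} {f' : ℝ} {x : E3} (hf : HP l f f' x) (h0 : 0 < f x) :
    HP l (fun y => Real.sqrt (f y)) (f' / (2 * Real.sqrt (f x))) x := by
  refine ⟨hf.diff.sqrt h0.ne', ?_⟩
  unfold pd
  rw [fderiv_sqrt hf.diff h0.ne']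
  have := hf.val
  unfold pd at this
  rw [← this]
  change 1 / (2 * Real.sqrt (f x)) * ((fderiv ℝ f x) (EuclideanSpace.single l 1)) = _
  ring

lemma dv_eq {D P Q : E3 → ℝ} {y : E3} (h0 : 0 < D y) (hD : DifferentiableAt ℝ D y)
    (hP : DifferentiableAt ℝ P y) (hQ : DifferentiableAt ℝ Q y) :
    (pd 0 (fun x => P x / Real.sqrt (D x)) y + pd 1 (fun x => Q x / Real.sqrt (D x)) y)
      / Real.sqrt (D y) = dv D P Q y := by
  have hs : 0 < Real.sqrt (D y) := Real.sqrt_pos.mpr h0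
  have h2 : Real.sqrt (D y) ^ 2 = D y := Real.sq_sqrt h0.le
  have e1 : ∀ (R : E3 → ℝ), (fun x => R x / Real.sqrt (D x))
      = fun x => R x * (Real.sqrt (D x))⁻¹ := by
    intro R
    funext x
    rw [div_eq_mul_inv]
  have k0 : HP 0 (fun x => P x * (Real.sqrt (D x))⁻¹) _ y :=
    (HP.of_diff hP).mul ((HP_sqrt (HP.of_diff hD) h0).inv hs.ne')
  have k1 : HP 1 (fun x => Q x * (Real.sqrt (D x))⁻¹) _ y :=
    (HP.of_diff hQ).mul ((HP_sqrt (HP.of_diff hD) h0).inv hs.ne')
  rw [e1, e1, k0.val, k1.val]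
  unfold dv
  obtain ⟨s, hs'⟩ : ∃ s, s = Real.sqrt (D y) := ⟨_, rfl⟩
  rw [← hs'] at hs h2 ⊢
  rw [← h2]
  have := hs.ne'
  field_simp
  ring

lemma dv_lin {D P Q P' Q' : E3 → ℝ} {y : E3} (c : ℝ)
    (hP : DifferentiableAt ℝ P y) (hQ : DifferentiableAt ℝ Q y)
    (hP' : DifferentiableAt ℝ P' y) (hQ' : DifferentiableAt ℝ Q' y) :
    dv D (fun x => P x * c - P' x) (fun x => Q x * c - Q' x) y
      = dv D P Q y * c - dv D P' Q' y := by
  have k0 : HP 0 (fun x => P x * c - P' x) _ y :=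
    ((HP.of_diff hP).mul (HP.const c)).sub (HP.of_diff hP')
  have k1 : HP 1 (fun x => Q x * c - Q' x) _ y :=
    ((HP.of_diff hQ).mul (HP.const c)).sub (HP.of_diff hQ')
  unfold dv
  rw [k0.val, k1.val]
  ring

lemma dv_mul {D P Q T : E3 → ℝ} {y : E3} (hP : DifferentiableAt ℝ P y)
    (hQ : DifferentiableAt ℝ Q y) (hT : DifferentiableAt ℝ T y) :
    dv D (fun x => T x * P x) (fun x => T x * Q x) y
      = T y * dv D P Q y + (P y * pd 0 T y + Q y * pd 1 T y) / D y := by
  have k0 : HP 0 (fun x => T x * P x) _ y := (HP.of_diff hT).mul (HP.of_diff hP)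
  have k1 : HP 1 (fun x => T x * Q x) _ y := (HP.of_diff hT).mul (HP.of_diff hQ)
  unfold dv
  rw [k0.val, k1.val]
  ring

lemma dv_congr {D P Q P' Q' : E3 → ℝ} {y : E3} (hP : P =ᶠ[𝓝 y] P') (hQ : Q =ᶠ[𝓝 y] Q') :
    dv D P Q y = dv D P' Q' y := by
  unfold dv
  rw [pd_congr hP, pd_congr hQ, hP.eq_of_nhds, hQ.eq_of_nhds]

/-- Regularity of the metric `E, F, G` and the function `φ` at a point. -/
structure Jet (E F G φ : E3 → ℝ) (y : E3) : Prop where
  pos : 0 < E y * G y - F y ^ 2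
  dE : DifferentiableAt ℝ E y
  dF : DifferentiableAt ℝ F y
  dG : DifferentiableAt ℝ G y
  dφ : DifferentiableAt ℝ φ y
  d0 : DifferentiableAt ℝ (pd 0 φ) y
  d1 : DifferentiableAt ℝ (pd 1 φ) y
  comm : pd 1 (pd 0 φ) y = pd 0 (pd 1 φ) y

section

variable (E F G φ : E3 → ℝ)

noncomputable def dt (y : E3) : ℝ := E y * G y - F y ^ 2
noncomputable def u0 (y : E3) : ℝ := (G y * pd 0 φ y - F y * pd 1 φ y) / dt E F G y
noncomputable def u1 (y : E3) : ℝ := (E y * pd 1 φ y - F y * pd 0 φ y) / dt E F G y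
noncomputable def h00 (y : E3) : ℝ :=
  pd 0 (pd 0 φ) y - (1 / 2 * pd 0 E y * u0 E F G φ y
    + (pd 0 F y - 1 / 2 * pd 1 E y) * u1 E F G φ y)
noncomputable def h01 (y : E3) : ℝ :=
  pd 0 (pd 1 φ) y - (1 / 2 * pd 1 E y * u0 E F G φ y + 1 / 2 * pd 0 G y * u1 E F G φ y)
noncomputable def h11 (y : E3) : ℝ :=
  pd 1 (pd 1 φ) y - ((pd 1 F y - 1 / 2 * pd 0 G y) * u0 E F G φ y
    + 1 / 2 * pd 1 G y * u1 E F G φ y)
noncomputable def tt (y : E3) : ℝ :=
  (G y * h00 E F G φ y - 2 * F y * h01 E F G φ y + E y * h11 E F G φ y) / dt E F G y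
noncomputable def ff (y : E3) : ℝ :=
  (G y * (pd 0 φ y * pd 0 φ y) - F y * (pd 0 φ y * pd 1 φ y + pd 1 φ y * pd 0 φ y)
    + E y * (pd 1 φ y * pd 1 φ y)) / dt E F G y

end

variable {E F G φ : E3 → ℝ} {y : E3}

lemma Jet.hdt (h : Jet E F G φ y) (l : Fin 3) :
    HP l (dt E F G) (E y * pd l G y + G y * pd l E y - 2 * F y * pd l F y) y :=
  ((HP.of_diff h.dE).mul (HP.of_diff h.dG)).sub (HP.of_diff h.dF).sq

lemma Jet.dt_pos (h : Jet E F G φ y) : 0 < dt E F G y := h.pos

lemma Jet.hP (h : Jet E F G φ y) (l : Fin 3) :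
    HP l (fun x => G x * pd 0 φ x - F x * pd 1 φ x)
      (G y * pd l (pd 0 φ) y + pd 0 φ y * pd l G y - (F y * pd l (pd 1 φ) y + pd 1 φ y * pd l F y))
      y :=
  ((HP.of_diff h.dG).mul (HP.of_diff h.d0)).sub ((HP.of_diff h.dF).mul (HP.of_diff h.d1))

lemma Jet.hQ (h : Jet E F G φ y) (l : Fin 3) :
    HP l (fun x => E x * pd 1 φ x - F x * pd 0 φ x)
      (E y * pd l (pd 1 φ) y + pd 1 φ y * pd l E y - (F y * pd l (pd 0 φ) y + pd 0 φ y * pd l F y))
      y :=
  ((HP.of_diff h.dE).mul (HP.of_diff h.d1)).sub ((HP.of_diff h.dF).mul (HP.of_diff h.d0))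

/-- The Laplacian is the trace of the Hessian. -/
lemma Jet.lap_eq (h : Jet E F G φ y) :
    dv (dt E F G) (fun x => G x * pd 0 φ x - F x * pd 1 φ x)
      (fun x => E x * pd 1 φ x - F x * pd 0 φ x) y = tt E F G φ y := by
  have h0 := h.dt_pos.ne'
  unfold dv tt h00 h01 h11 u0 u1
  rw [(h.hP 0).val, (h.hQ 1).val, (h.hdt 0).val, (h.hdt 1).val, h.comm]
  have hd : dt E F G y = E y * G y - F y ^ 2 := rfl
  field_simp
  rw [hd]
  ring

/-- The derivative of `f`. -/
lemma Jet.ff_eq (h : Jet E F G φ y) :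
    HP 0 (ff E F G φ) (2 * (u0 E F G φ y * h00 E F G φ y + u1 E F G φ y * h01 E F G φ y)) y ∧
    HP 1 (ff E F G φ) (2 * (u0 E F G φ y * h01 E F G φ y + u1 E F G φ y * h11 E F G φ y)) y := by
  have h0 := h.dt_pos.ne'
  have e1 : ff E F G φ = fun x => (G x * (pd 0 φ x * pd 0 φ x)
      - F x * (pd 0 φ x * pd 1 φ x + pd 1 φ x * pd 0 φ x)
      + E x * (pd 1 φ x * pd 1 φ x)) * (dt E F G x)⁻¹ := by
    funext x
    unfold ff
    rw [div_eq_mul_inv]
  have k := fun l => ((((HP.of_diff (l := l) h.dG).mul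
      ((HP.of_diff h.d0).mul (HP.of_diff h.d0))).sub
      ((HP.of_diff h.dF).mul (((HP.of_diff h.d0).mul (HP.of_diff h.d1)).add
        ((HP.of_diff h.d1).mul (HP.of_diff h.d0))))).add
      ((HP.of_diff h.dE).mul ((HP.of_diff h.d1).mul (HP.of_diff h.d1)))).mul
      ((h.hdt l).inv h0)
  rw [e1]
  have hd : dt E F G y = E y * G y - F y ^ 2 := rfl
  constructor
  · refine ⟨(k 0).diff, ?_⟩
    rw [(k 0).val]
    unfold h00 h01 u0 u1
    field_simp
    rw [hd]
    ring
  · refine ⟨(k 1).diff, ?_⟩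
    rw [(k 1).val, h.comm]
    unfold h01 h11 u0 u1
    field_simp
    rw [hd]
    ring

/-- The vector field `u` in terms of `dφ`. -/
lemma Jet.phi_eq (h : Jet E F G φ y) :
    pd 0 φ y = E y * u0 E F G φ y + F y * u1 E F G φ y ∧
    pd 1 φ y = F y * u0 E F G φ y + G y * u1 E F G φ y := by
  have h0 := h.dt_pos.ne'
  have hd : dt E F G y = E y * G y - F y ^ 2 := rfl
  unfold u0 u1
  constructor
  · field_simp
    rw [hd]
    ring
  · field_simp
    rw [hd]
    ring

/-- The derivatives of `u`. -/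
lemma Jet.u_eq (h : Jet E F G φ y) (l : Fin 3) :
    HP l (u0 E F G φ) ((G y * (pd l (pd 0 φ) y - pd l E y * u0 E F G φ y
        - pd l F y * u1 E F G φ y) - F y * (pd l (pd 1 φ) y - pd l F y * u0 E F G φ y
        - pd l G y * u1 E F G φ y)) * (dt E F G y)⁻¹) y ∧
    HP l (u1 E F G φ) ((E y * (pd l (pd 1 φ) y - pd l F y * u0 E F G φ y
        - pd l G y * u1 E F G φ y) - F y * (pd l (pd 0 φ) y - pd l E y * u0 E F G φ y
        - pd l F y * u1 E F G φ y)) * (dt E F G y)⁻¹) y := by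
  have h0 := h.dt_pos.ne'
  have hd : dt E F G y = E y * G y - F y ^ 2 := rfl
  have e0 : u0 E F G φ = fun x => (G x * pd 0 φ x - F x * pd 1 φ x) * (dt E F G x)⁻¹ := by
    funext x
    unfold u0
    rw [div_eq_mul_inv]
  have e1 : u1 E F G φ = fun x => (E x * pd 1 φ x - F x * pd 0 φ x) * (dt E F G x)⁻¹ := by
    funext x
    unfold u1
    rw [div_eq_mul_inv]
  have k0 := (h.hP l).mul ((h.hdt l).inv h0)
  have k1 := (h.hQ l).mul ((h.hdt l).inv h0)
  rw [← e0] at k0
  rw [← e1] at k1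
  constructor
  · refine ⟨k0.diff, ?_⟩
    rw [k0.val]
    unfold u0 u1
    field_simp
    rw [hd]
    ring
  · refine ⟨k1.diff, ?_⟩
    rw [k1.val]
    unfold u0 u1
    field_simp
    rw [hd]
    ring

/-- The final algebraic identity. -/
lemma alg (e f g w e0 e1 f0 f1 g0 g1 e01 e11 g00 g01 f01 p001 p011 u v p q r : ℝ)
    (hw : w * (e * g - f ^ 2) = 1)
    (u_0 u_1 v_0 v_1 : ℝ)
    (hu0 : u_0 = (g * (p + (1 / 2 * e0 * u + (f0 - 1 / 2 * e1) * v) - e0 * u - f0 * v)
      - f * (q + (1 / 2 * e1 * u + 1 / 2 * g0 * v) - f0 * u - g0 * v)) * w)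
    (hu1 : u_1 = (g * (q + (1 / 2 * e1 * u + 1 / 2 * g0 * v) - e1 * u - f1 * v)
      - f * (r + ((f1 - 1 / 2 * g0) * u + 1 / 2 * g1 * v) - f1 * u - g1 * v)) * w)
    (hv0 : v_0 = (e * (q + (1 / 2 * e1 * u + 1 / 2 * g0 * v) - f0 * u - g0 * v)
      - f * (p + (1 / 2 * e0 * u + (f0 - 1 / 2 * e1) * v) - e0 * u - f0 * v)) * w)
    (hv1 : v_1 = (e * (r + ((f1 - 1 / 2 * g0) * u + 1 / 2 * g1 * v) - f1 * u - g1 * v)
      - f * (q + (1 / 2 * e1 * u + 1 / 2 * g0 * v) - e1 * u - f1 * v)) * w) :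
    (q * (q + (1 / 2 * e1 * u + 1 / 2 * g0 * v))
      + (f * u + g * v) * (p001 - (1 / 2 * e1 * u_0 + u * (1 / 2 * e01)
          + (1 / 2 * g0 * v_0 + v * (1 / 2 * g00))))
      - (r * (p + (1 / 2 * e0 * u + (f0 - 1 / 2 * e1) * v))
        + (e * u + f * v) * (p011 - ((f1 - 1 / 2 * g0) * u_0 + u * (f01 - 1 / 2 * g00)
          + (1 / 2 * g1 * v_0 + v * (1 / 2 * g01)))))
      + (q * (q + (1 / 2 * e1 * u + 1 / 2 * g0 * v))
        + (e * u + f * v) * (p011 - (1 / 2 * e1 * u_1 + u * (1 / 2 * e11)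
          + (1 / 2 * g0 * v_1 + v * (1 / 2 * g01))))
        - (p * (r + ((f1 - 1 / 2 * g0) * u + 1 / 2 * g1 * v))
          + (f * u + g * v) * (p001 - (1 / 2 * e0 * u_1 + u * (1 / 2 * e01)
            + ((f0 - 1 / 2 * e1) * v_1 + v * (f01 - 1 / 2 * e11)))))))
      - ((q * (f * u + g * v) - r * (e * u + f * v)) * (e * g0 + g * e0 - 2 * f * f0)
        + (q * (e * u + f * v) - p * (f * u + g * v)) * (e * g1 + g * e1 - 2 * f * f1))
        * w / 2
    = (-(g00 + e11 - 2 * f01) / 2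
        + w * (g * ((1 / 2 * e1) ^ 2 - 1 / 2 * e0 * (f1 - 1 / 2 * g0))
          - f * (2 * (1 / 2 * e1) * (1 / 2 * g0) - 1 / 2 * e0 * (1 / 2 * g1)
              - (f0 - 1 / 2 * e1) * (f1 - 1 / 2 * g0))
          + e * ((1 / 2 * g0) ^ 2 - (f0 - 1 / 2 * e1) * (1 / 2 * g1))))
      * (e * u ^ 2 + 2 * f * u * v + g * v ^ 2) - 2 * (p * r - q ^ 2) := by
  subst hu0 hu1 hv0 hv1
  linear_combination (-(2 * q * (1 / 2 * e1 * u + 1 / 2 * g0 * v)
    - r * (1 / 2 * e0 * u + (f0 - 1 / 2 * e1) * v)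
    - p * ((f1 - 1 / 2 * g0) * u + 1 / 2 * g1 * v))) * hw

/-- The Gauss curvature. -/
noncomputable def kk (E F G : E3 → ℝ) (y : E3) : ℝ :=
  (-(pd 0 (pd 0 G) y + pd 1 (pd 1 E) y - 2 * pd 0 (pd 1 F) y) / 2
    + (dt E F G y)⁻¹ * (G y * ((1 / 2 * pd 1 E y) ^ 2
          - 1 / 2 * pd 0 E y * (pd 1 F y - 1 / 2 * pd 0 G y))
      - F y * (2 * (1 / 2 * pd 1 E y) * (1 / 2 * pd 0 G y) - 1 / 2 * pd 0 E y * (1 / 2 * pd 1 G y)
          - (pd 0 F y - 1 / 2 * pd 1 E y) * (pd 1 F y - 1 / 2 * pd 0 G y))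
      + E y * ((1 / 2 * pd 0 G y) ^ 2 - (pd 0 F y - 1 / 2 * pd 1 E y) * (1 / 2 * pd 1 G y))))
    / dt E F G y

/-- The inner product. -/
noncomputable def ln (E F G f h : E3 → ℝ) (y : E3) : ℝ :=
  (G y * (pd 0 f y * pd 0 h y) - F y * (pd 0 f y * pd 1 h y + pd 1 f y * pd 0 h y)
    + E y * (pd 1 f y * pd 1 h y)) / dt E F G y

/-- Second order regularity. -/
structure Jet2 (E F G φ : E3 → ℝ) (z : E3) : Prop where
  near : ∀ᶠ y in 𝓝 z, Jet E F G φ y
  dE : ∀ i, DifferentiableAt ℝ (pd i E) z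
  dF : ∀ i, DifferentiableAt ℝ (pd i F) z
  dG : ∀ i, DifferentiableAt ℝ (pd i G) z
  cE : pd 1 (pd 0 E) z = pd 0 (pd 1 E) z
  cF : pd 1 (pd 0 F) z = pd 0 (pd 1 F) z
  cG : pd 1 (pd 0 G) z = pd 0 (pd 1 G) z
  d00 : DifferentiableAt ℝ (pd 0 (pd 0 φ)) z
  d01 : DifferentiableAt ℝ (pd 0 (pd 1 φ)) z
  d11 : DifferentiableAt ℝ (pd 1 (pd 1 φ)) z
  c0 : pd 1 (pd 0 (pd 0 φ)) z = pd 0 (pd 1 (pd 0 φ)) z
  c1 : pd 1 (pd 0 (pd 1 φ)) z = pd 0 (pd 1 (pd 1 φ)) z

variable {z : E3}

/-- The divergence of `(h01 φ_1 - h11 φ_0, h01 φ_0 - h00 φ_1) / D`. -/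
lemma Jet2.div_eq (h : Jet2 E F G φ z) :
    dv (dt E F G) (fun x => h01 E F G φ x * pd 1 φ x - h11 E F G φ x * pd 0 φ x)
      (fun x => h01 E F G φ x * pd 0 φ x - h00 E F G φ x * pd 1 φ x) z
    = kk E F G z * ff E F G φ z
      - 2 * (h00 E F G φ z * h11 E F G φ z - h01 E F G φ z ^ 2) / dt E F G z := by
  have j := h.near.self_of_nhds
  have j0 := j.dt_pos.ne'
  have hd : dt E F G z = E z * G z - F z ^ 2 := rfl
  have c : pd 1 (pd 0 (pd 0 φ)) z = pd 0 (pd 0 (pd 1 φ)) z := by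
    rw [h.c0]
    exact pd_congr (h.near.mono fun y hy => hy.comm)
  have H01 := fun l => (HP.of_diff (l := l) h.d01).sub
    ((((HP.const (1 / 2 : ℝ)).mul (HP.of_diff (h.dE 1))).mul (j.u_eq l).1).add
      (((HP.const (1 / 2 : ℝ)).mul (HP.of_diff (h.dG 0))).mul (j.u_eq l).2))
  have H00 := fun l => (HP.of_diff (l := l) h.d00).sub
    ((((HP.const (1 / 2 : ℝ)).mul (HP.of_diff (h.dE 0))).mul (j.u_eq l).1).add
      (((HP.of_diff (h.dF 0)).sub ((HP.const (1 / 2 : ℝ)).mul (HP.of_diff (h.dE 1)))).mul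
        (j.u_eq l).2))
  have H11 := fun l => (HP.of_diff (l := l) h.d11).sub
    ((((HP.of_diff (h.dF 1)).sub ((HP.const (1 / 2 : ℝ)).mul (HP.of_diff (h.dG 0)))).mul
        (j.u_eq l).1).add
      (((HP.const (1 / 2 : ℝ)).mul (HP.of_diff (h.dG 1))).mul (j.u_eq l).2))
  have Y0 := ((H01 0).mul (HP.of_diff j.d1)).sub ((H11 0).mul (HP.of_diff j.d0))
  have Y1 := ((H01 1).mul (HP.of_diff j.d0)).sub ((H00 1).mul (HP.of_diff j.d1))
  have Y0' : pd 0 (fun x => h01 E F G φ x * pd 1 φ x - h11 E F G φ x * pd 0 φ x) z = _ := Y0.val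
  have Y1' : pd 1 (fun x => h01 E F G φ x * pd 0 φ x - h00 E F G φ x * pd 1 φ x) z = _ := Y1.val
  have f_eq : ff E F G φ z = (E z * u0 E F G φ z ^ 2 + 2 * F z * u0 E F G φ z * u1 E F G φ z
      + G z * u1 E F G φ z ^ 2) := by
    unfold ff
    rw [j.phi_eq.1, j.phi_eq.2]
    field_simp
    rw [hd]
    ring
  have hw : (dt E F G z)⁻¹ * (E z * G z - F z ^ 2) = 1 := by
    rw [← hd]
    exact inv_mul_cancel₀ j0
  have q0 : pd 0 (pd 0 φ) z = h00 E F G φ z + (1 / 2 * pd 0 E z * u0 E F G φ z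
      + (pd 0 F z - 1 / 2 * pd 1 E z) * u1 E F G φ z) := by
    unfold h00
    ring
  have q1 : pd 0 (pd 1 φ) z = h01 E F G φ z + (1 / 2 * pd 1 E z * u0 E F G φ z
      + 1 / 2 * pd 0 G z * u1 E F G φ z) := by
    unfold h01
    ring
  have q2 : pd 1 (pd 1 φ) z = h11 E F G φ z + ((pd 1 F z - 1 / 2 * pd 0 G z) * u0 E F G φ z
      + 1 / 2 * pd 1 G z * u1 E F G φ z) := by
    unfold h11
    ring
  have A := alg (E z) (F z) (G z) (dt E F G z)⁻¹ (pd 0 E z) (pd 1 E z) (pd 0 F z) (pd 1 F z)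
    (pd 0 G z) (pd 1 G z) (pd 0 (pd 1 E) z) (pd 1 (pd 1 E) z) (pd 0 (pd 0 G) z)
    (pd 0 (pd 1 G) z) (pd 0 (pd 1 F) z) (pd 0 (pd 0 (pd 1 φ)) z) (pd 0 (pd 1 (pd 1 φ)) z)
    (u0 E F G φ z) (u1 E F G φ z) (h00 E F G φ z) (h01 E F G φ z) (h11 E F G φ z) hw
    _ _ _ _ rfl rfl rfl rfl
  unfold dv kk
  beta_reduce
  rw [Y0', Y1', (j.hdt 0).val, (j.hdt 1).val, f_eq, c, h.c1, h.cE, h.cF, h.cG, j.comm, q0, q1, q2,
    j.phi_eq.1, j.phi_eq.2]
  simp only [div_eq_mul_inv, mul_inv] at A ⊢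
  linear_combination (dt E F G z)⁻¹ * A

lemma Jet2.diffs (h : Jet2 E F G φ z) : DifferentiableAt ℝ (h00 E F G φ) z ∧
    DifferentiableAt ℝ (h01 E F G φ) z ∧ DifferentiableAt ℝ (h11 E F G φ) z ∧
    DifferentiableAt ℝ (tt E F G φ) z := by
  have j := h.near.self_of_nhds
  have j0 := j.dt_pos.ne'
  have H01 := (HP.of_diff (l := 0) h.d01).sub
    ((((HP.const (1 / 2 : ℝ)).mul (HP.of_diff (h.dE 1))).mul (j.u_eq 0).1).add
      (((HP.const (1 / 2 : ℝ)).mul (HP.of_diff (h.dG 0))).mul (j.u_eq 0).2))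
  have H00 := (HP.of_diff (l := 0) h.d00).sub
    ((((HP.const (1 / 2 : ℝ)).mul (HP.of_diff (h.dE 0))).mul (j.u_eq 0).1).add
      (((HP.of_diff (h.dF 0)).sub ((HP.const (1 / 2 : ℝ)).mul (HP.of_diff (h.dE 1)))).mul
        (j.u_eq 0).2))
  have H11 := (HP.of_diff (l := 0) h.d11).sub
    ((((HP.of_diff (h.dF 1)).sub ((HP.const (1 / 2 : ℝ)).mul (HP.of_diff (h.dG 0)))).mul
        (j.u_eq 0).1).add
      (((HP.const (1 / 2 : ℝ)).mul (HP.of_diff (h.dG 1))).mul (j.u_eq 0).2))
  have d00 : DifferentiableAt ℝ (h00 E F G φ) z := H00.diff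
  have d01 : DifferentiableAt ℝ (h01 E F G φ) z := H01.diff
  have d11 : DifferentiableAt ℝ (h11 E F G φ) z := H11.diff
  refine ⟨d00, d01, d11, ?_⟩
  have e : tt E F G φ = fun y => (G y * h00 E F G φ y - 2 * F y * h01 E F G φ y
      + E y * h11 E F G φ y) * (dt E F G y)⁻¹ := by
    funext y
    unfold tt
    rw [div_eq_mul_inv]
  rw [e]
  exact (((j.dG.mul d00).sub ((j.dF.const_mul 2).mul d01)).add
    (j.dE.mul d11)).mul ((j.hdt 0).inv j0).diff

theorem Jet2.core (h : Jet2 E F G φ z) :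
    kk E F G z * ff E F G φ z ^ 2
      = ff E F G φ z * dv (dt E F G)
          (fun x => G x * pd 0 (ff E F G φ) x - F x * pd 1 (ff E F G φ) x)
          (fun x => E x * pd 1 (ff E F G φ) x - F x * pd 0 (ff E F G φ) x) z / 2
        - ff E F G φ z * ln E F G φ (tt E F G φ) z
        - ff E F G φ z * tt E F G φ z ^ 2
        - ln E F G (ff E F G φ) (ff E F G φ) z / 2
        + tt E F G φ z * ln E F G (ff E F G φ) φ z := by
  have j := h.near.self_of_nhds
  have j0 := j.dt_pos.ne'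
  have hd : dt E F G z = E z * G z - F z ^ 2 := rfl
  obtain ⟨d00, d01, d11, dT⟩ := h.diffs
  have n0 : (fun x => G x * pd 0 (ff E F G φ) x - F x * pd 1 (ff E F G φ) x) =ᶠ[𝓝 z]
      fun x => (tt E F G φ x * (G x * pd 0 φ x - F x * pd 1 φ x)) * 2
        - (-2) * (h01 E F G φ x * pd 1 φ x - h11 E F G φ x * pd 0 φ x) := by
    filter_upwards [h.near] with y hy
    have y0 := hy.dt_pos.ne'
    have hdy : dt E F G y = E y * G y - F y ^ 2 := rfl
    rw [hy.ff_eq.1.val, hy.ff_eq.2.val, hy.phi_eq.1, hy.phi_eq.2]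
    unfold tt
    field_simp
    rw [hdy]
    ring
  have n1 : (fun x => E x * pd 1 (ff E F G φ) x - F x * pd 0 (ff E F G φ) x) =ᶠ[𝓝 z]
      fun x => (tt E F G φ x * (E x * pd 1 φ x - F x * pd 0 φ x)) * 2
        - (-2) * (h01 E F G φ x * pd 0 φ x - h00 E F G φ x * pd 1 φ x) := by
    filter_upwards [h.near] with y hy
    have y0 := hy.dt_pos.ne'
    have hdy : dt E F G y = E y * G y - F y ^ 2 := rfl
    rw [hy.ff_eq.1.val, hy.ff_eq.2.val, hy.phi_eq.1, hy.phi_eq.2]
    unfold tt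
    field_simp
    rw [hdy]
    ring
  have e1 : dv (dt E F G)
          (fun x => G x * pd 0 (ff E F G φ) x - F x * pd 1 (ff E F G φ) x)
          (fun x => E x * pd 1 (ff E F G φ) x - F x * pd 0 (ff E F G φ) x) z
      = 2 * (tt E F G φ z ^ 2 + ln E F G φ (tt E F G φ) z + kk E F G z * ff E F G φ z
        - 2 * (h00 E F G φ z * h11 E F G φ z - h01 E F G φ z ^ 2) / dt E F G z) := by
    have dP := (j.hP 0).diff
    have dQ := (j.hQ 0).diff
    have dY0 : DifferentiableAt ℝ
        (fun x => h01 E F G φ x * pd 1 φ x - h11 E F G φ x * pd 0 φ x) z :=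
      (d01.mul j.d1).sub (d11.mul j.d0)
    have dY1 : DifferentiableAt ℝ
        (fun x => h01 E F G φ x * pd 0 φ x - h00 E F G φ x * pd 1 φ x) z :=
      (d01.mul j.d0).sub (d00.mul j.d1)
    have dTP : DifferentiableAt ℝ
        (fun x => tt E F G φ x * (G x * pd 0 φ x - F x * pd 1 φ x)) z := dT.mul dP
    have dTQ : DifferentiableAt ℝ
        (fun x => tt E F G φ x * (E x * pd 1 φ x - F x * pd 0 φ x)) z := dT.mul dQ
    rw [dv_congr n0 n1, dv_lin 2 dTP dTQ (dY0.const_mul (-2))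
      (dY1.const_mul (-2)), dv_mul dP dQ dT, j.lap_eq]
    have e2 : dv (dt E F G)
        (fun x => -2 * (h01 E F G φ x * pd 1 φ x - h11 E F G φ x * pd 0 φ x))
        (fun x => -2 * (h01 E F G φ x * pd 0 φ x - h00 E F G φ x * pd 1 φ x)) z
        = -2 * dv (dt E F G)
        (fun x => (h01 E F G φ x * pd 1 φ x - h11 E F G φ x * pd 0 φ x))
        (fun x => (h01 E F G φ x * pd 0 φ x - h00 E F G φ x * pd 1 φ x)) z := by
      rw [dv_mul dY0 dY1 (differentiableAt_const (-2 : ℝ)), pd_const, pd_const]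
      ring
    rw [e2, h.div_eq]
    unfold ln
    field_simp
    ring
  rw [e1]
  have e3 : ff E F G φ z = (E z * u0 E F G φ z ^ 2 + 2 * F z * u0 E F G φ z * u1 E F G φ z
      + G z * u1 E F G φ z ^ 2) := by
    unfold ff
    rw [j.phi_eq.1, j.phi_eq.2]
    field_simp
    rw [hd]
    ring
  have e4 : ln E F G (ff E F G φ) φ z
      = 2 * (u0 E F G φ z * h00 E F G φ z + u1 E F G φ z * h01 E F G φ z) * u0 E F G φ z
        + 2 * (u0 E F G φ z * h01 E F G φ z + u1 E F G φ z * h11 E F G φ z)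
          * u1 E F G φ z := by
    unfold ln
    rw [j.ff_eq.1.val, j.ff_eq.2.val, j.phi_eq.1, j.phi_eq.2]
    field_simp
    rw [hd]
    ring
  have e5 : ln E F G (ff E F G φ) (ff E F G φ) z
      = 4 * (G z * (u0 E F G φ z * h00 E F G φ z + u1 E F G φ z * h01 E F G φ z) ^ 2
        - 2 * F z * (u0 E F G φ z * h00 E F G φ z + u1 E F G φ z * h01 E F G φ z)
          * (u0 E F G φ z * h01 E F G φ z + u1 E F G φ z * h11 E F G φ z)
        + E z * (u0 E F G φ z * h01 E F G φ z + u1 E F G φ z * h11 E F G φ z) ^ 2)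
        / dt E F G z := by
    unfold ln
    rw [j.ff_eq.1.val, j.ff_eq.2.val]
    ring
  have e6 : - ff E F G φ z * (2 * (h00 E F G φ z * h11 E F G φ z - h01 E F G φ z ^ 2)
        / dt E F G z) - ln E F G (ff E F G φ) (ff E F G φ) z / 2
        + tt E F G φ z * ln E F G (ff E F G φ) φ z = 0 := by
    rw [e4, e5, e3]
    unfold tt
    field_simp
    ring
  linear_combination -e6

lemma Jet2.of_contDiffAt (hE : ContDiffAt ℝ 3 E z) (hF : ContDiffAt ℝ 3 F z)
    (hG : ContDiffAt ℝ 3 G z) (hφ : ContDiffAt ℝ 4 φ z) (h0 : 0 < E z * G z - F z ^ 2) :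
    Jet2 E F G φ z := by
  have hp : ∀ i, ContDiffAt ℝ 3 (pd i φ) z := fun i => contDiffAt_pd hφ (by norm_num) i
  have hpp : ∀ i j, ContDiffAt ℝ 2 (pd i (pd j φ)) z :=
    fun i j => contDiffAt_pd (hp j) (by norm_num) i
  constructor
  · have e1 : ∀ᶠ y in 𝓝 z, ContDiffAt ℝ 3 E y := hE.eventually (by simp)
    have e2 : ∀ᶠ y in 𝓝 z, ContDiffAt ℝ 3 F y := hF.eventually (by simp)
    have e3 : ∀ᶠ y in 𝓝 z, ContDiffAt ℝ 3 G y := hG.eventually (by simp)
    have e4 : ∀ᶠ y in 𝓝 z, ContDiffAt ℝ 4 φ y := hφ.eventually (by simp)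
    have e5 : ∀ᶠ y in 𝓝 z, 0 < E y * G y - F y ^ 2 := by
      have : ContinuousAt (fun y => E y * G y - F y ^ 2) z :=
        ((hE.continuousAt.mul hG.continuousAt).sub (hF.continuousAt.pow 2))
      exact this.eventually (lt_mem_nhds h0)
    filter_upwards [e1, e2, e3, e4, e5] with y k1 k2 k3 k4 k5
    exact ⟨k5, k1.differentiableAt (by norm_num), k2.differentiableAt (by norm_num),
      k3.differentiableAt (by norm_num), k4.differentiableAt (by norm_num),
      (contDiffAt_pd (m := 3) k4 (by norm_num) 0).differentiableAt (by norm_num),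
      (contDiffAt_pd (m := 3) k4 (by norm_num) 1).differentiableAt (by norm_num),
      pd_comm (k4.of_le (by norm_num)) 1 0⟩
  · exact fun i => (contDiffAt_pd (m := 2) hE (by norm_num) i).differentiableAt (by norm_num)
  · exact fun i => (contDiffAt_pd (m := 2) hF (by norm_num) i).differentiableAt (by norm_num)
  · exact fun i => (contDiffAt_pd (m := 2) hG (by norm_num) i).differentiableAt (by norm_num)
  · exact pd_comm (hE.of_le (by norm_num)) 1 0
  · exact pd_comm (hF.of_le (by norm_num)) 1 0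
  · exact pd_comm (hG.of_le (by norm_num)) 1 0
  · exact (hpp 0 0).differentiableAt (by norm_num)
  · exact (hpp 0 1).differentiableAt (by norm_num)
  · exact (hpp 1 1).differentiableAt (by norm_num)
  · exact pd_comm ((hp 0).of_le (by norm_num)) 1 0
  · exact pd_comm ((hp 1).of_le (by norm_num)) 1 0

end BO2aux

open BO2aux in
theorem BO2 : Stmt_BO2 := by
  intro g z hg hsym h0 φ hφ
  obtain ⟨E, hE⟩ : ∃ E : E3 → ℝ, E = fun y => g y 0 0 := ⟨_, rfl⟩
  obtain ⟨F, hF⟩ : ∃ F : E3 → ℝ, F = fun y => g y 0 1 := ⟨_, rfl⟩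
  obtain ⟨G, hG⟩ : ∃ G : E3 → ℝ, G = fun y => g y 1 1 := ⟨_, rfl⟩
  have cE : ContDiffAt ℝ 3 E z := by rw [hE]; exact (hg 0 0).of_le (WithTop.coe_le_coe.2 le_top)
  have cF : ContDiffAt ℝ 3 F z := by rw [hF]; exact (hg 0 1).of_le (WithTop.coe_le_coe.2 le_top)
  have cG : ContDiffAt ℝ 3 G z := by rw [hG]; exact (hg 1 1).of_le (WithTop.coe_le_coe.2 le_top)
  have cφ : ContDiffAt ℝ 4 φ z := hφ.of_le (WithTop.coe_le_coe.2 le_top)
  have ed : dt2 g = dt E F G := by
    funext y
    unfold dt2 dt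
    rw [hE, hF, hG]
  have e0 : 0 < E z * G z - F z ^ 2 := by
    have : dt2 g z = E z * G z - F z ^ 2 := by rw [ed]; rfl
    rw [← this]
    exact h0
  have h := Jet2.of_contDiffAt cE cF cG cφ e0
  have j := h.near.self_of_nhds
  have eln : ∀ f k : E3 → ℝ, lin2 g f k = ln E F G f k := by
    intro f k
    funext y
    unfold lin2 ln
    rw [ed, hE, hF, hG]
  have eff : lin2 g φ φ = ff E F G φ := by
    rw [eln]
    rfl
  have elap : ∀ (f : E3 → ℝ) (y : E3), Jet E F G φ y →
      DifferentiableAt ℝ (fun x => G x * pd 0 f x - F x * pd 1 f x) y →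
      DifferentiableAt ℝ (fun x => E x * pd 1 f x - F x * pd 0 f x) y →
      lap2 g f y = dv (dt E F G) (fun x => G x * pd 0 f x - F x * pd 1 f x)
        (fun x => E x * pd 1 f x - F x * pd 0 f x) y := by
    intro f y hy h1 h2
    rw [← dv_eq hy.dt_pos (hy.hdt 0).diff h1 h2]
    unfold lap2
    rw [ed, hE, hF, hG]
  have nT : lap2 g φ =ᶠ[𝓝 z] tt E F G φ := by
    filter_upwards [h.near] with y hy
    rw [elap φ y hy (hy.hP 0).diff (hy.hQ 0).diff, hy.lap_eq]
  obtain ⟨d00, d01, d11, dT⟩ := h.diffs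
  have du0 := (j.u_eq 0).1.diff
  have du1 := (j.u_eq 0).2.diff
  have p0 : pd 0 (ff E F G φ) =ᶠ[𝓝 z] fun y =>
      2 * (u0 E F G φ y * h00 E F G φ y + u1 E F G φ y * h01 E F G φ y) := by
    filter_upwards [h.near] with y hy
    exact hy.ff_eq.1.val
  have p1 : pd 1 (ff E F G φ) =ᶠ[𝓝 z] fun y =>
      2 * (u0 E F G φ y * h01 E F G φ y + u1 E F G φ y * h11 E F G φ y) := by
    filter_upwards [h.near] with y hy
    exact hy.ff_eq.2.val
  have dp0 : DifferentiableAt ℝ (pd 0 (ff E F G φ)) z := by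
    have : DifferentiableAt ℝ (fun y =>
      2 * (u0 E F G φ y * h00 E F G φ y + u1 E F G φ y * h01 E F G φ y)) z :=
      ((du0.mul d00).add (du1.mul d01)).const_mul 2
    exact this.congr_of_eventuallyEq p0
  have dp1 : DifferentiableAt ℝ (pd 1 (ff E F G φ)) z := by
    have : DifferentiableAt ℝ (fun y =>
      2 * (u0 E F G φ y * h01 E F G φ y + u1 E F G φ y * h11 E F G φ y)) z :=
      ((du0.mul d01).add (du1.mul d11)).const_mul 2
    exact this.congr_of_eventuallyEq p1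
  have eK : K2 g z = kk E F G z := by
    have s0 : ∀ i, pd i (fun y => g y 1 0) z = pd i (fun y => g y 0 1) z :=
      fun i => pd_congr hsym
    unfold K2 kk gl
    rw [s0, s0, ed, hE, hF, hG]
    ring
  rw [eK, eff, elap (ff E F G φ) z j ((j.dG.mul dp0).sub (j.dF.mul dp1))
    ((j.dE.mul dp1).sub (j.dF.mul dp0)), nT.eq_of_nhds, eln, eln, eln, h.core]
  have e7 : ln E F G φ (lap2 g φ) z = ln E F G φ (tt E F G φ) z := by
    unfold ln
    rw [pd_congr nT, pd_congr nT]
  rw [e7]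

end Pool.Agent.PFlow.GB


end

section

/-!
# Block GB: existence of the family of kernels
-/

open MeasureTheory Filter Topology
open scoped ContDiff

namespace Pool.Agent.PFlow.GB

open Pool.Agent.PenroseSph Pool.Agent.PFlow

namespace KERm

/-! ### The profiles -/

theorem contDiff_eta : ContDiff ℝ ∞ eta := by
  unfold eta
  exact Real.smoothTransition.contDiff.comp (contDiff_const.sub contDiff_id)

theorem eta_nonneg (s : ℝ) : 0 ≤ eta s := Real.smoothTransition.nonneg _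

theorem eta_le_one (s : ℝ) : eta s ≤ 1 := Real.smoothTransition.le_one _

theorem eta_zero {s : ℝ} (h : 1 ≤ s) : eta s = 0 :=
  Real.smoothTransition.zero_of_nonpos (by linarith)

theorem eta_one {s : ℝ} (h : s ≤ 0) : eta s = 1 :=
  Real.smoothTransition.one_of_one_le (by linarith)

theorem contDiff_tht : ContDiff ℝ ∞ tht := by
  unfold tht
  exact Real.smoothTransition.contDiff.comp (contDiff_const.sub (contDiff_id.pow 2))

theorem tht_nonneg (s : ℝ) : 0 ≤ tht s := Real.smoothTransition.nonneg _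

theorem tht_le_one (s : ℝ) : tht s ≤ 1 := Real.smoothTransition.le_one _

theorem tht_even (s : ℝ) : tht (-s) = tht s := by
  unfold tht
  rw [neg_sq]

theorem tht_zero {s : ℝ} (h : 1 ≤ |s|) : tht s = 0 := by
  refine Real.smoothTransition.zero_of_nonpos ?_
  have : 1 ≤ |s| ^ 2 := by nlinarith
  rw [sq_abs] at this
  linarith

theorem contDiff_deriv_eta : ContDiff ℝ ∞ (deriv eta) :=
  ((contDiff_infty_iff_deriv).1 contDiff_eta).2

theorem deriv_eta_compact : HasCompactSupport (deriv eta) := by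
  refine HasCompactSupport.intro (isCompact_Icc (a := (0 : ℝ)) (b := 1)) fun s hs => ?_
  rcases lt_or_ge s 0 with h | h
  · have : eta =ᶠ[𝓝 s] fun _ => 1 := by
      filter_upwards [Iio_mem_nhds h] with u hu
      exact eta_one (le_of_lt hu)
    rw [this.deriv_eq, deriv_const]
  · have h1 : 1 < s := by
      by_contra hc
      exact hs ⟨h, not_lt.1 hc⟩
    have : eta =ᶠ[𝓝 s] fun _ => 0 := by
      filter_upwards [Ioi_mem_nhds h1] with u hu
      exact eta_zero (le_of_lt hu)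
    rw [this.deriv_eq, deriv_const]

theorem exists_bound : ∃ A : ℝ, 0 < A ∧ ∀ s, |deriv eta s| ≤ A ∧ |deriv (deriv eta) s| ≤ A := by
  obtain ⟨A, hA⟩ := contDiff_deriv_eta.continuous.bounded_above_of_compact_support
    deriv_eta_compact
  have h2 : ContDiff ℝ ∞ (deriv (deriv eta)) := ((contDiff_infty_iff_deriv).1 contDiff_deriv_eta).2
  obtain ⟨B, hB⟩ := h2.continuous.bounded_above_of_compact_support deriv_eta_compact.deriv
  refine ⟨max A B + 1, ?_, fun s => ⟨?_, ?_⟩⟩
  · have := (norm_nonneg _).trans (hA 0)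
    have := le_max_left A B
    linarith
  · have h := hA s
    rw [Real.norm_eq_abs] at h
    have := le_max_left A B
    linarith
  · have h := hB s
    rw [Real.norm_eq_abs] at h
    have := le_max_right A B
    linarith

/-! ### Congruence -/

variable {V : Set E3} {g : TensorField} {W : E3 → ℝ} {x y : E3}

theorem lap_congr {f f' : E3 → ℝ} (h : f =ᶠ[𝓝 x] f') : lap g W f x = lap g W f' x := by
  unfold lap ldiv
  congr 1
  refine Finset.sum_congr rfl fun i _ => ?_
  refine pd_congr ?_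
  filter_upwards [h.eventually_nhds] with z hz
  have e : grad f z = grad f' z := by
    funext j
    exact pd_congr hz
  unfold lgrad
  rw [e]

theorem lap_zero : lap g W (fun _ => (0 : ℝ)) x = 0 := by
  have e : ∀ z, grad (fun _ : E3 => (0 : ℝ)) z = 0 := by
    intro z
    funext j
    exact pd_const 0
  have e2 : ∀ z i, lgrad g W (fun _ : E3 => (0 : ℝ)) z i = 0 := by
    intro z i
    unfold lgrad raise
    rw [e]
    simp
  unfold lap ldiv
  simp only [e2, mul_zero, pd_const, Finset.sum_const_zero, zero_div]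

theorem lap_eq_zero {f : E3 → ℝ} (h : f =ᶠ[𝓝 x] fun _ => 0) : lap g W f x = 0 := by
  rw [lap_congr h, lap_zero]

/-! ### The function `q` -/

theorem qf_symm (x y : E3) : qf g x y = qf g y x := by
  unfold qf
  congr 1
  refine Finset.sum_congr rfl fun i _ => Finset.sum_congr rfl fun j _ => ?_
  ring

theorem contDiffAt_coord (i : Fin 3) (z : E3) : ContDiffAt ℝ ∞ (fun y : E3 => y i) z :=
  ((EuclideanSpace.proj i : E3 →L[ℝ] ℝ).contDiff).contDiffAt

theorem contDiffAt_qf (hV : IsOpen V) (hg : MetricOn V g) (hx : x ∈ V) (hy : y ∈ V) :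
    ContDiffAt ℝ ∞ (fun p : E3 × E3 => qf g p.1 p.2) (x, y) := by
  have hg1 : ∀ i j, ContDiffAt ℝ ∞ (fun p : E3 × E3 => g p.1 i j) (x, y) := fun i j =>
    ((hg.smooth i j).contDiffAt (hV.mem_nhds hx)).comp (x, y) contDiffAt_fst
  have hg2 : ∀ i j, ContDiffAt ℝ ∞ (fun p : E3 × E3 => g p.2 i j) (x, y) := fun i j =>
    ((hg.smooth i j).contDiffAt (hV.mem_nhds hy)).comp (x, y) contDiffAt_snd
  have hc1 : ∀ i, ContDiffAt ℝ ∞ (fun p : E3 × E3 => p.1 i) (x, y) := fun i =>
    (contDiffAt_coord i x).comp (x, y) contDiffAt_fst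
  have hc2 : ∀ i, ContDiffAt ℝ ∞ (fun p : E3 × E3 => p.2 i) (x, y) := fun i =>
    (contDiffAt_coord i y).comp (x, y) contDiffAt_snd
  unfold qf
  refine contDiffAt_const.mul (ContDiffAt.sum fun i _ => ContDiffAt.sum fun j _ => ?_)
  exact (((hg1 i j).add (hg2 i j)).mul ((hc1 i).sub (hc2 i))).mul ((hc1 j).sub (hc2 j))

theorem contDiffAt_qf_left (hV : IsOpen V) (hg : MetricOn V g) (hx : x ∈ V) (hy : y ∈ V) :
    ContDiffAt ℝ ∞ (fun z => qf g z y) x :=
  ContDiffAt.comp (g := fun p : E3 × E3 => qf g p.1 p.2) (f := fun z : E3 => (z, y)) x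
    (contDiffAt_qf hV hg hx hy) (contDiffAt_id.prodMk contDiffAt_const)

theorem two_le : (2 : WithTop ℕ∞) ≤ ∞ := WithTop.coe_le_coe.2 le_top

/-! ### The kernel -/

theorem ker_symm (r0 t : ℝ) (x y : E3) : ker g W r0 t x y = ker g W r0 t y x := by
  unfold ker
  rw [dist_comm x y, qf_symm x y]
  have e : tht ((W x - W y) / t) = tht ((W y - W x) / t) := by
    rw [← tht_even]
    congr 1
    ring
  rw [e]

theorem ker_nonneg {r0 t : ℝ} (x y : E3) : 0 ≤ ker g W r0 t x y := by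
  unfold ker
  split_ifs
  · exact div_nonneg (mul_nonneg (eta_nonneg _) (tht_nonneg _)) (sq_nonneg t)
  · exact le_rfl

theorem ker_le {r0 t : ℝ} (x y : E3) : ker g W r0 t x y ≤ 1 / t ^ 2 := by
  unfold ker
  split_ifs
  · refine div_le_div_of_nonneg_right ?_ (sq_nonneg t)
    exact mul_le_one₀ (eta_le_one _) (tht_nonneg _) (tht_le_one _)
  · positivity

theorem ker_zero_W {r0 t : ℝ} (ht : 0 < t) (h : t ≤ |W x - W y|) : ker g W r0 t x y = 0 := by
  unfold ker
  have e : tht ((W x - W y) / t) = 0 := by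
    refine tht_zero ?_
    rw [abs_div, abs_of_pos ht, le_div_iff₀ ht, one_mul]
    exact h
  rw [e]
  split_ifs <;> simp

theorem ker_zero_q {r0 t : ℝ} (ht : 0 < t) (h : dist x y < r0 → t ≤ qf g x y) :
    ker g W r0 t x y = 0 := by
  unfold ker
  split_ifs with h1
  · rw [eta_zero, zero_mul, zero_div]
    rw [le_div_iff₀ ht, one_mul]
    exact h h1
  · rfl

theorem ker_eq {r0 t : ℝ} (h : dist x y < r0) :
    ker g W r0 t x y = tht ((W x - W y) / t) / t ^ 2 * eta (qf g x y / t) := by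
  unfold ker
  rw [if_pos h]
  ring

/-- Everything about the constants. -/
structure Dat (V : Set E3) (a b : ℝ) (g : TensorField) (W : E3 → ℝ) (K K' : Set E3)
    (r0 cq Cq : ℝ) : Prop where
  fol : Fol V a b g W
  sub : K' ⊆ V
  r0_pos : 0 < r0
  cq_pos : 0 < cq
  Cq_pos : 0 < Cq
  near : ∀ x ∈ Metric.thickening r0 K, ∀ y, dist x y < r0 → x ∈ K' ∧ y ∈ K'
  q : ∀ x ∈ K', ∀ y ∈ K', cq * dist x y ^ 2 ≤ qf g x y ∧
      |lin g W (fun z => qf g z y) (fun z => qf g z y) x - 4 * qf g x y|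
        ≤ Cq * (dist x y ^ 4 + (W x - W y) ^ 2) ∧
      |lap g W (fun z => qf g z y) x - 4| ≤ Cq * (dist x y ^ 2 + |W x - W y|)

variable {K K' : Set E3} {a b r0 cq Cq t : ℝ}

theorem R_sq (hc : 0 < cq) (ht : 0 < t) : ((Real.sqrt cq)⁻¹ * Real.sqrt t) ^ 2 = t / cq := by
  rw [mul_pow, inv_pow, Real.sq_sqrt hc.le, Real.sq_sqrt ht.le]
  field_simp

theorem R_lt (hc : 0 < cq) (hr : 0 < r0) (ht : 0 < t) (ht0 : t < cq * (r0 / 2) ^ 2) :
    (Real.sqrt cq)⁻¹ * Real.sqrt t < r0 / 2 := by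
  have h1 := R_sq hc ht
  have h2 : t / cq < (r0 / 2) ^ 2 := by
    rw [div_lt_iff₀ hc, mul_comm]
    exact ht0
  rw [← h1] at h2
  exact lt_of_pow_lt_pow_left₀ 2 (by positivity) h2

theorem lt_of_R_lt (hc : 0 < cq) (ht : 0 < t) {s : ℝ}
    (h : (Real.sqrt cq)⁻¹ * Real.sqrt t < s) : t < cq * s ^ 2 := by
  have h1 := R_sq hc ht
  have h0 : 0 ≤ (Real.sqrt cq)⁻¹ * Real.sqrt t := by positivity
  have h2 : ((Real.sqrt cq)⁻¹ * Real.sqrt t) ^ 2 < s ^ 2 := pow_lt_pow_left₀ h h0 two_ne_zero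
  rw [h1, div_lt_iff₀ hc, mul_comm] at h2
  exact h2

/-- The kernel vanishes for `R √t < |x - y|`. -/
theorem ker_far (D : Dat V a b g W K K' r0 cq Cq) (ht : 0 < t)
    (hx : x ∈ Metric.thickening r0 K) (h : (Real.sqrt cq)⁻¹ * Real.sqrt t < dist x y) :
    ker g W r0 t x y = 0 := by
  refine ker_zero_q ht fun h1 => ?_
  obtain ⟨h2, h3⟩ := D.near x hx y h1
  exact (lt_of_R_lt D.cq_pos ht h).le.trans (D.q x h2 y h3).1

theorem sub_thick (D : Dat V a b g W K K' r0 cq Cq) : Metric.thickening r0 K ⊆ V := fun x hx =>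
  D.sub (D.near x hx x (by rw [dist_self]; exact D.r0_pos)).1

theorem smooth_ker (D : Dat V a b g W K K' r0 cq Cq) (ht : 0 < t)
    (ht0 : t < cq * (r0 / 2) ^ 2) :
    ContDiffOn ℝ ∞ (fun p : E3 × E3 => ker g W r0 t p.1 p.2)
      (Metric.thickening r0 K ×ˢ Set.univ) := by
  rintro ⟨x, y⟩ ⟨hx, -⟩
  simp only at hx
  refine ContDiffAt.contDiffWithinAt ?_
  have hcd : Continuous fun p : E3 × E3 => dist p.1 p.2 := continuous_fst.dist continuous_snd
  rcases lt_or_ge (dist x y) r0 with h | h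
  · obtain ⟨h2, h3⟩ := D.near x hx y h
    have hev : (fun p : E3 × E3 => ker g W r0 t p.1 p.2) =ᶠ[𝓝 (x, y)]
        fun p => tht ((W p.1 - W p.2) / t) / t ^ 2 * eta (qf g p.1 p.2 / t) := by
      have : ∀ᶠ p : E3 × E3 in 𝓝 (x, y), dist p.1 p.2 < r0 :=
        hcd.continuousAt.eventually_lt continuousAt_const h
      filter_upwards [this] with p hp
      exact ker_eq hp
    refine ContDiffAt.congr_of_eventuallyEq ?_ hev
    have hW1 : ContDiffAt ℝ ∞ (fun p : E3 × E3 => W p.1) (x, y) :=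
      (D.fol.contDiffAt (D.sub h2)).comp (x, y) contDiffAt_fst
    have hW2 : ContDiffAt ℝ ∞ (fun p : E3 × E3 => W p.2) (x, y) :=
      (D.fol.contDiffAt (D.sub h3)).comp (x, y) contDiffAt_snd
    have hq := contDiffAt_qf D.fol.isOpen D.fol.metric (D.sub h2) (D.sub h3)
    refine ContDiffAt.mul (ContDiffAt.div_const ?_ _) ?_
    · exact contDiff_tht.contDiffAt.comp (x, y) ((hW1.sub hW2).div_const t)
    · exact contDiff_eta.contDiffAt.comp (x, y) (hq.div_const t)
  · have hev : (fun p : E3 × E3 => ker g W r0 t p.1 p.2) =ᶠ[𝓝 (x, y)] fun _ => 0 := by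
      have h1 : ∀ᶠ p : E3 × E3 in 𝓝 (x, y), (Real.sqrt cq)⁻¹ * Real.sqrt t < dist p.1 p.2 := by
        refine continuousAt_const.eventually_lt hcd.continuousAt ?_
        have := R_lt D.cq_pos D.r0_pos ht ht0
        have := D.r0_pos
        simp only
        linarith
      have h2 : ∀ᶠ p : E3 × E3 in 𝓝 (x, y), p.1 ∈ Metric.thickening r0 K :=
        continuousAt_fst.eventually (Metric.isOpen_thickening.mem_nhds hx)
      filter_upwards [h1, h2] with p hp1 hp2
      exact ker_far D ht hp2 hp1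
    exact contDiffAt_const.congr_of_eventuallyEq hev

theorem loc_ker (D : Dat V a b g W K K' r0 cq Cq) (ht : 0 < t) (hx : x ∈ K)
    (h : ¬ (dist x y ≤ (Real.sqrt cq)⁻¹ * Real.sqrt t ∧ |W x - W y| ≤ t)) :
    lap g W (fun z => ker g W r0 t z y) x = 0 := by
  refine lap_eq_zero ?_
  have hxt : x ∈ Metric.thickening r0 K := Metric.self_subset_thickening D.r0_pos K hx
  rw [not_and_or, not_le, not_le] at h
  rcases h with h | h
  · have h1 : ∀ᶠ z in 𝓝 x, (Real.sqrt cq)⁻¹ * Real.sqrt t < dist z y :=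
      continuousAt_const.eventually_lt (continuous_id.dist continuous_const).continuousAt h
    filter_upwards [h1, Metric.isOpen_thickening.mem_nhds hxt] with z hz1 hz2
    exact ker_far D ht hz2 hz1
  · have hW : ContinuousAt W x := (D.fol.contDiffAt (sub_thick D hxt)).continuousAt
    have h1 : ∀ᶠ z in 𝓝 x, t < |W z - W y| :=
      continuousAt_const.eventually_lt ((hW.sub continuousAt_const).abs) h
    filter_upwards [h1] with z hz
    exact ker_zero_W ht hz.le

theorem lap_ker (hRUL : Stmt_RUL) (D : Dat V a b g W K K' r0 cq Cq) (ht : 0 < t) (hx : x ∈ K)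
    (h : dist x y < r0) :
    lap g W (fun z => ker g W r0 t z y) x = tht ((W x - W y) / t) / t ^ 2 *
      (deriv eta (qf g x y / t) / t * lap g W (fun z => qf g z y) x +
        deriv (deriv eta) (qf g x y / t) / t ^ 2 *
          lin g W (fun z => qf g z y) (fun z => qf g z y) x) := by
  have hxt : x ∈ Metric.thickening r0 K := Metric.self_subset_thickening D.r0_pos K hx
  obtain ⟨h2, h3⟩ := D.near x hxt y h
  have hreg : Reg g W x := D.fol.reg (D.sub h2)
  obtain ⟨-, -, -, -, -, -, -, -, hchain, -, hmulW, -⟩ := hRUL g W x hreg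
  have hq : ContDiffAt ℝ 2 (fun z => qf g z y) x :=
    (contDiffAt_qf_left D.fol.isOpen D.fol.metric (D.sub h2) (D.sub h3)).of_le two_le
  have hev : (fun z => ker g W r0 t z y) =ᶠ[𝓝 x] fun z =>
      (fun s => tht ((s - W y) / t) / t ^ 2) (W z) * (fun z => (fun s => eta (s / t)) (qf g z y)) z := by
    have h1 : ∀ᶠ z in 𝓝 x, dist z y < r0 :=
      (continuous_id.dist continuous_const).continuousAt.eventually_lt continuousAt_const h
    filter_upwards [h1] with z hz
    exact ker_eq hz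
  have hF1 : ContDiff ℝ ∞ (fun s : ℝ => eta (s / t)) := contDiff_eta.comp (contDiff_id.div_const t)
  have hF2 : ContDiff ℝ ∞ (fun s : ℝ => tht ((s - W y) / t) / t ^ 2) :=
    (contDiff_tht.comp ((contDiff_id.sub contDiff_const).div_const t)).div_const _
  have hd1 : deriv (fun s : ℝ => eta (s / t)) = fun s => deriv eta (s / t) / t := by
    funext s
    have h1 : HasDerivAt (fun s : ℝ => s / t) (1 / t) s := (hasDerivAt_id s).div_const t
    have h2 : HasDerivAt eta (deriv eta (s / t)) (s / t) :=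
      ((contDiff_eta.differentiable (by simp)) (s / t)).hasDerivAt
    have h3 := (h2.comp s h1).deriv
    rw [show (fun s : ℝ => eta (s / t)) = eta ∘ fun s => s / t from rfl, h3]
    ring
  have hd2 : deriv (deriv (fun s : ℝ => eta (s / t))) =
      fun s => deriv (deriv eta) (s / t) / t ^ 2 := by
    rw [hd1]
    funext s
    have h1 : HasDerivAt (fun s : ℝ => s / t) (1 / t) s := (hasDerivAt_id s).div_const t
    have h2 : HasDerivAt (deriv eta) (deriv (deriv eta) (s / t)) (s / t) :=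
      ((contDiff_deriv_eta.differentiable (by simp)) (s / t)).hasDerivAt
    have h3 := ((h2.comp s h1).div_const t).deriv
    rw [show (fun s : ℝ => deriv eta (s / t) / t) = fun s => (deriv eta ∘ fun s => s / t) s / t
      from rfl, h3]
    ring
  rw [lap_congr hev, hmulW (fun z => (fun s => eta (s / t)) (qf g z y))
    (fun s => tht ((s - W y) / t) / t ^ 2)
    ((hF1.contDiffAt.of_le two_le).comp x hq) (hF2.contDiffAt.of_le two_le),
    hchain (fun z => qf g z y) (fun s => eta (s / t)) hq (hF1.contDiffAt.of_le two_le), hd2, hd1]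

theorem comm_ker (hRUL : Stmt_RUL) (D : Dat V a b g W K K' r0 cq Cq) {A : ℝ} (hA : 0 < A)
    (hb : ∀ s, |deriv eta s| ≤ A ∧ |deriv (deriv eta) s| ≤ A) (ht : 0 < t)
    (ht0 : t < cq * (r0 / 2) ^ 2) (hx : x ∈ K) (hy : y ∈ K) :
    |lap g W (fun z => ker g W r0 t z y) x - lap g W (fun z => ker g W r0 t z x) y| ≤
      (A * (2 * Cq * (1 / cq + 1)) + A * (2 * Cq * (1 / cq ^ 2 + 1))) / t ^ 2 := by
  have hcq := D.cq_pos
  have hCq := D.Cq_pos
  have hr0 := D.r0_pos
  by_cases h : dist x y ≤ (Real.sqrt cq)⁻¹ * Real.sqrt t ∧ |W x - W y| ≤ t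
  · have hR := R_lt D.cq_pos D.r0_pos ht ht0
    have hd : dist x y < r0 := by linarith [h.1]
    have hd' : dist y x < r0 := by rw [dist_comm]; exact hd
    have hxt : x ∈ Metric.thickening r0 K := Metric.self_subset_thickening D.r0_pos K hx
    obtain ⟨h2, h3⟩ := D.near x hxt y hd
    rw [lap_ker hRUL D ht hx hd, lap_ker hRUL D ht hy hd']
    obtain ⟨-, hq1, hq2⟩ := D.q x h2 y h3
    obtain ⟨-, hq1', hq2'⟩ := D.q y h3 x h2
    rw [qf_symm y x] at hq1' ⊢
    rw [dist_comm y x, abs_sub_comm (W y) (W x)] at hq2'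
    rw [dist_comm y x, show (W y - W x) ^ 2 = (W x - W y) ^ 2 by ring] at hq1'
    have e : tht ((W y - W x) / t) = tht ((W x - W y) / t) := by
      rw [← tht_even]
      congr 1
      ring
    rw [e]
    set Lx := lap g W (fun z => qf g z y) x
    set Ly := lap g W (fun z => qf g z x) y
    set lx := lin g W (fun z => qf g z y) (fun z => qf g z y) x
    set ly := lin g W (fun z => qf g z x) (fun z => qf g z x) y
    set e1 := deriv eta (qf g x y / t)
    set e2 := deriv (deriv eta) (qf g x y / t)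
    set th := tht ((W x - W y) / t)
    have hdist2 : dist x y ^ 2 ≤ t / cq := by
      rw [← R_sq hcq ht]
      exact pow_le_pow_left₀ dist_nonneg h.1 2
    have hdist4 : dist x y ^ 4 ≤ t ^ 2 / cq ^ 2 := by
      have := pow_le_pow_left₀ (sq_nonneg (dist x y)) hdist2 2
      rw [← pow_mul, div_pow] at this
      exact this
    have hW2 : (W x - W y) ^ 2 ≤ t ^ 2 := by
      rw [← sq_abs]
      exact pow_le_pow_left₀ (abs_nonneg _) h.2 2
    have hL : |Lx - Ly| ≤ 2 * Cq * (1 / cq + 1) * t := by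
      have e3 : Lx - Ly = (Lx - 4) - (Ly - 4) := by ring
      rw [e3]
      refine (abs_sub _ _).trans ?_
      have e4 : dist x y ^ 2 + |W x - W y| ≤ (1 / cq + 1) * t := by
        have : (1 / cq + 1) * t = t / cq + t := by ring
        rw [this]
        exact add_le_add hdist2 h.2
      have e5 := mul_le_mul_of_nonneg_left e4 hCq.le
      linarith
    have hl : |lx - ly| ≤ 2 * Cq * (1 / cq ^ 2 + 1) * t ^ 2 := by
      have e3 : lx - ly = (lx - 4 * qf g x y) - (ly - 4 * qf g x y) := by ring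
      rw [e3]
      refine (abs_sub _ _).trans ?_
      have e4 : dist x y ^ 4 + (W x - W y) ^ 2 ≤ (1 / cq ^ 2 + 1) * t ^ 2 := by
        have : (1 / cq ^ 2 + 1) * t ^ 2 = t ^ 2 / cq ^ 2 + t ^ 2 := by ring
        rw [this]
        exact add_le_add hdist4 hW2
      have e5 := mul_le_mul_of_nonneg_left e4 hCq.le
      linarith
    have e6 : th / t ^ 2 * (e1 / t * Lx + e2 / t ^ 2 * lx) -
        th / t ^ 2 * (e1 / t * Ly + e2 / t ^ 2 * ly) =
        th * (e1 * ((Lx - Ly) / t) + e2 * ((lx - ly) / t ^ 2)) / t ^ 2 := by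
      field_simp
      ring
    rw [e6, abs_div, abs_of_pos (pow_pos ht 2)]
    refine div_le_div_of_nonneg_right ?_ (sq_nonneg t)
    rw [abs_mul]
    have hth : |th| ≤ 1 := by
      rw [abs_of_nonneg (tht_nonneg _)]
      exact tht_le_one _
    have h7 : |e1 * ((Lx - Ly) / t) + e2 * ((lx - ly) / t ^ 2)| ≤
        A * (2 * Cq * (1 / cq + 1)) + A * (2 * Cq * (1 / cq ^ 2 + 1)) := by
      refine (abs_add_le _ _).trans (add_le_add ?_ ?_)
      · rw [abs_mul, abs_div, abs_of_pos ht]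
        refine mul_le_mul (hb _).1 ?_ (by positivity) hA.le
        rw [div_le_iff₀ ht]
        exact hL
      · rw [abs_mul, abs_div, abs_of_pos (pow_pos ht 2)]
        refine mul_le_mul (hb _).2 ?_ (by positivity) hA.le
        rw [div_le_iff₀ (pow_pos ht 2)]
        exact hl
    calc |th| * |e1 * ((Lx - Ly) / t) + e2 * ((lx - ly) / t ^ 2)|
        ≤ 1 * |e1 * ((Lx - Ly) / t) + e2 * ((lx - ly) / t ^ 2)| := by gcongr
      _ ≤ _ := by rw [one_mul]; exact h7
  · have h' : ¬ (dist y x ≤ (Real.sqrt cq)⁻¹ * Real.sqrt t ∧ |W y - W x| ≤ t) := by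
      rw [dist_comm, abs_sub_comm]
      exact h
    rw [loc_ker D ht hx h, loc_ker D ht hy h', sub_zero, abs_zero]
    positivity

end KERm

open KERm in
theorem KER (hRUL : Stmt_RUL) (hQ : Stmt_Q) (hVOL : Stmt_VOL) (hMASS : Stmt_MASS) : Stmt_KER := by
  intro V a b g W hF c d hac hcd hdb
  obtain ⟨m0, hm0, hM⟩ := hMASS
  obtain ⟨r1, hr1, hM1⟩ := hM V a b g W hF c d hac hcd hdb
  set K : Set E3 := cslab V W c d with hK
  have hKc : IsCompact K := hF.proper c d hac hdb
  obtain ⟨δ, hδ, hδV⟩ := hKc.exists_cthickening_subset_open hF.isOpen (cslab_subset c d)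
  have hK'c : IsCompact (Metric.cthickening δ K) := hKc.cthickening
  obtain ⟨cq, Cq, hcq, hCq, hq⟩ := hQ V a b g W hF _ hK'c hδV
  set r0 : ℝ := min (δ / 2) (r1 / 2) with hr0def
  have hr0 : 0 < r0 := lt_min (by positivity) (by positivity)
  have hr0δ : r0 ≤ δ / 2 := min_le_left _ _
  have hr0r : r0 < r1 := (min_le_right _ _).trans_lt (by linarith)
  have D : _root_.Pool.Agent.PFlow.GB.KERm.Dat V a b g W K (Metric.cthickening δ K) r0 cq Cq := by
    refine ⟨hF, hδV, hr0, hcq, hCq, ?_, ?_⟩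
    · intro x hx y hxy
      obtain ⟨z, hz, hxz⟩ := Metric.mem_thickening_iff.1 hx
      refine ⟨Metric.thickening_subset_cthickening δ K
        (Metric.mem_thickening_iff.2 ⟨z, hz, by linarith⟩),
        Metric.thickening_subset_cthickening δ K (Metric.mem_thickening_iff.2 ⟨z, hz, ?_⟩)⟩
      have := dist_triangle y x z
      rw [dist_comm y x] at this
      linarith
    · intro x hx y hy
      obtain ⟨h1, -, h3, h4, -, -⟩ := hq x hx y hy
      exact ⟨h1, h3, h4⟩
  obtain ⟨A, hA, hAb⟩ := exists_bound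
  set R : ℝ := (Real.sqrt cq)⁻¹ with hR
  have hRpos : 0 < R := by positivity
  obtain ⟨Cv, tv, hCv, htv, hvol⟩ := hVOL V a b g W hF K R hKc (cslab_subset c d) hRpos
  set C0 : ℝ := A * (2 * Cq * (1 / cq + 1)) + A * (2 * Cq * (1 / cq ^ 2 + 1)) with hC0
  have hC0pos : 0 < C0 := by positivity
  refine ⟨ker g W r0, min (cq * (r0 / 2) ^ 2) tv, R, 1 + C0 + Cv, m0, ?_⟩
  refine ⟨lt_min (by positivity) htv, hRpos, by positivity, hm0, fun t x y => ker_symm r0 t x y,
    fun t x y _ => ker_nonneg x y, ?_, ?_, ?_, ?_, ?_, ?_, ?_, ?_⟩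
  · intro t x y ht
    refine (ker_le x y).trans (div_le_div_of_nonneg_right ?_ (sq_nonneg t))
    linarith
  · intro t ht htt
    exact ⟨Metric.thickening r0 K, Metric.isOpen_thickening, Metric.self_subset_thickening hr0 K,
      sub_thick D, smooth_ker D ht (lt_of_lt_of_le htt (min_le_left _ _))⟩
  · intro t ht htt x hx y hk
    have hxt : x ∈ Metric.thickening r0 K := Metric.self_subset_thickening hr0 K hx
    have h1 : dist x y ≤ R * Real.sqrt t := by
      by_contra h
      exact hk (ker_far D ht hxt (not_le.1 h))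
    have h2 : |W x - W y| < t := by
      by_contra h
      exact hk (ker_zero_W ht (not_lt.1 h))
    have h3 := R_lt hcq hr0 ht (lt_of_lt_of_le htt (min_le_left _ _))
    have h4 : dist x y < r0 := lt_of_le_of_lt h1 (by linarith)
    exact ⟨hδV (D.near x hxt y h4).2, h1, h2⟩
  · intro t ht htt x hx y h1
    have hxt : x ∈ Metric.thickening r0 K := Metric.self_subset_thickening hr0 K hx
    have h3 := R_lt hcq hr0 ht (lt_of_lt_of_le htt (min_le_left _ _))
    have h4 : dist x y < r0 := lt_of_le_of_lt h1 (by linarith)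
    exact hδV (D.near x hxt y h4).2
  · intro t ht htt x hx y hy
    have e : (fun z => ker g W r0 t x z) = fun z => ker g W r0 t z x := by
      funext z
      exact ker_symm r0 t x z
    rw [e]
    refine (comm_ker hRUL D hA hAb ht (lt_of_lt_of_le htt (min_le_left _ _)) hx hy).trans
      (div_le_div_of_nonneg_right ?_ (sq_nonneg t))
    linarith
  · intro t ht htt x hx y hy h
    have e : (fun z => ker g W r0 t x z) = fun z => ker g W r0 t z x := by
      funext z
      exact ker_symm r0 t x z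
    rw [e]
    refine ⟨loc_ker D ht hx h, loc_ker D ht hy ?_⟩
    rw [dist_comm, abs_sub_comm]
    exact h
  · intro t ht htt x hx
    refine (hvol x hx t ht (lt_of_lt_of_le htt (min_le_right _ _))).trans ?_
    refine ENNReal.ofReal_le_ofReal ?_
    gcongr
    linarith
  · intro x hx
    exact hM1 r0 hr0 hr0r x hx

end Pool.Agent.PFlow.GB


end

section

/-!
# `ρ₀` is a weak leafwise divergence

By connectedness of the leaf, `ρ₀ = γ(W) β + NULL` with `β` the indicator function of the chart; as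
the leafwise mean of `ρ₀` vanishes, `γ(W) = 0` almost everywhere on the chart.
-/

open MeasureTheory Filter Topology
open scoped ContDiff

namespace Pool.Agent.PFlow.GB

open Pool.Agent.PenroseSph Pool.Agent.PFlow

namespace Rho

/-- The fundamental lemma for functions of `W`. -/
theorem ae_zero_of_test (T : Set E3) (hT : MeasurableSet T) (W m : E3 → ℝ)
    (hW : ContinuousOn W T) (hm : IntegrableOn m T) (hpos : ∀ x ∈ T, 0 < m x) (U : Set ℝ)
    (hU : IsOpen U) (hTU : ∀ x ∈ T, W x ∈ U) (γ : ℝ → ℝ) (hγ : BddMeasR γ)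
    (h : ∀ ψ : ℝ → ℝ, ContDiff ℝ ∞ ψ → HasCompactSupport ψ → tsupport ψ ⊆ U →
      ∫ x in T, γ (W x) * ψ (W x) * m x = 0) :
    ∀ᵐ x ∂(volume.restrict T), γ (W x) = 0 := by
  set μ0 : Measure E3 := (volume.restrict T).withDensity (fun x => ENNReal.ofReal (m x)) with hμ0
  have hfin : IsFiniteMeasure μ0 := isFiniteMeasure_withDensity_ofReal hm.2
  have hmm : AEMeasurable (fun x => ENNReal.ofReal (m x)) (volume.restrict T) :=
    hm.1.aemeasurable.ennreal_ofReal
  have hWm : AEMeasurable W μ0 :=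
    (hW.aemeasurable hT).mono_ac (withDensity_absolutelyContinuous _ _)
  set μ : Measure ℝ := μ0.map W with hμ
  have hfin' : IsFiniteMeasure μ := by
    rw [hμ]
    infer_instance
  obtain ⟨hγm, B, hB⟩ := hγ
  have hγi : Integrable γ μ :=
    Integrable.of_bound hγm.aestronglyMeasurable B (Eventually.of_forall fun s => by
      rw [Real.norm_eq_abs]; exact hB s)
  have hkey : ∀ᵐ s ∂μ, s ∈ U → γ s = 0 := by
    refine hU.ae_eq_zero_of_integral_contDiff_smul_eq_zero (hγi.locallyIntegrable.locallyIntegrableOn U) ?_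
    intro ψ hψ hψc hψU
    have hms : AEStronglyMeasurable (fun s => ψ s • γ s) (Measure.map W μ0) :=
      (hψ.continuous.measurable.smul hγm).aestronglyMeasurable
    rw [hμ, integral_map hWm hms, hμ0, integral_withDensity_eq_integral_toReal_smul₀ hmm
      (Eventually.of_forall fun x => ENNReal.ofReal_lt_top)]
    rw [← h ψ hψ hψc hψU]
    refine setIntegral_congr_fun hT fun x hx => ?_
    simp only [smul_eq_mul]
    rw [ENNReal.toReal_ofReal (hpos x hx).le]
    ring
  have hset : MeasurableSet {s : ℝ | s ∈ U → γ s = 0} := by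
    have : {s : ℝ | s ∈ U → γ s = 0} = Uᶜ ∪ γ ⁻¹' {0} := by
      ext s
      by_cases hs : s ∈ U <;> simp [hs]
    rw [this]
    exact hU.measurableSet.compl.union (hγm (measurableSet_singleton 0))
  rw [hμ, ae_map_iff hWm hset, hμ0, ae_withDensity_iff' hmm] at hkey
  filter_upwards [hkey, ae_restrict_mem hT] with x hx hxT
  refine hx ?_ (hTU x hxT)
  have := hpos x hxT
  simpa using this

theorem isOpen_obox (z0 : E3) (r e : ℝ) : IsOpen (obox z0 r e) := by
  have h0 : ∀ i : Fin 3, ∀ t : ℝ, IsOpen {z : E3 | |z i - z0 i| < t} := fun i t =>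
    isOpen_lt (by fun_prop) continuous_const
  exact (h0 0 r).inter ((h0 1 r).inter (h0 2 e))

theorem obox_subset (z0 : E3) (r e : ℝ) : obox z0 r e ⊆ box z0 r e := fun _ hz =>
  ⟨hz.1.le, hz.2.1.le, hz.2.2.le⟩

theorem isCompact_box (z0 : E3) (r e : ℝ) : IsCompact (box z0 r e) := by
  have h0 : ∀ i : Fin 3, ∀ t : ℝ, IsClosed {z : E3 | |z i - z0 i| ≤ t} := fun i t =>
    isClosed_le (by fun_prop) continuous_const
  refine Metric.isCompact_of_isClosed_isBounded ((h0 0 r).inter ((h0 1 r).inter (h0 2 e))) ?_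
  refine (Metric.isBounded_closedBall (x := z0) (r := Real.sqrt (r ^ 2 + r ^ 2 + e ^ 2))).subset ?_
  intro z hz
  obtain ⟨h1, h2, h3⟩ := hz
  rw [Metric.mem_closedBall, EuclideanSpace.dist_eq, Fin.sum_univ_three]
  refine Real.sqrt_le_sqrt ?_
  simp only [Real.dist_eq]
  have k1 : |z 0 - z0 0| ^ 2 ≤ r ^ 2 := pow_le_pow_left₀ (abs_nonneg _) h1 2
  have k2 : |z 1 - z0 1| ^ 2 ≤ r ^ 2 := pow_le_pow_left₀ (abs_nonneg _) h2 2
  have k3 : |z 2 - z0 2| ^ 2 ≤ e ^ 2 := pow_le_pow_left₀ (abs_nonneg _) h3 2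
  linarith

/-- A continuous function on the closed box, bounded below by `c`, has parameter integrals over
the horizontal squares at least `4 c r²`. -/
theorem le_integral (z0 : E3) (r e c : ℝ) (hr : 0 < r) (F : E3 → ℝ)
    (hF : ContinuousOn F (box z0 r e)) (hc : ∀ z ∈ box z0 r e, c ≤ F z) (s : ℝ)
    (hs : s ∈ Set.Ioo (z0 2 - e) (z0 2 + e)) :
    c * (2 * r) * (2 * r) ≤ ∫ a in Set.Ioo (z0 0 - r) (z0 0 + r),
      ∫ b in Set.Ioo (z0 1 - r) (z0 1 + r), F (pt a b s) := by
  have hmem : ∀ a ∈ Set.Icc (z0 0 - r) (z0 0 + r), ∀ b ∈ Set.Icc (z0 1 - r) (z0 1 + r),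
      pt a b s ∈ box z0 r e := by
    intro a ha b hb
    refine ⟨?_, ?_, ?_⟩
    · change |a - z0 0| ≤ r
      rw [abs_le]
      exact ⟨by linarith [ha.1], by linarith [ha.2]⟩
    · change |b - z0 1| ≤ r
      rw [abs_le]
      exact ⟨by linarith [hb.1], by linarith [hb.2]⟩
    · change |s - z0 2| ≤ e
      rw [abs_le]
      exact ⟨by linarith [hs.1], by linarith [hs.2]⟩
  have hpt : Continuous fun q : ℝ × ℝ => pt q.1 q.2 s := by
    unfold pt
    fun_prop
  have hcont : ContinuousOn (fun q : ℝ × ℝ => F (pt q.1 q.2 s))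
      (Set.Icc (z0 0 - r) (z0 0 + r) ×ˢ Set.Icc (z0 1 - r) (z0 1 + r)) :=
    hF.comp hpt.continuousOn fun q hq => hmem q.1 hq.1 q.2 hq.2
  have hint : IntegrableOn (fun q : ℝ × ℝ => F (pt q.1 q.2 s))
      (Set.Ioo (z0 0 - r) (z0 0 + r) ×ˢ Set.Ioo (z0 1 - r) (z0 1 + r)) :=
    (hcont.integrableOn_compact (isCompact_Icc.prod isCompact_Icc)).mono_set
      (Set.prod_mono Set.Ioo_subset_Icc_self Set.Ioo_subset_Icc_self)
  have hint' : Integrable (fun q : ℝ × ℝ => F (pt q.1 q.2 s))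
      ((volume.restrict (Set.Ioo (z0 0 - r) (z0 0 + r))).prod
        (volume.restrict (Set.Ioo (z0 1 - r) (z0 1 + r)))) := by
    rw [Measure.prod_restrict]
    exact hint
  have hout := hint'.integral_prod_left
  have hvol : ∀ u : ℝ, volume.real (Set.Ioo (u - r) (u + r)) = 2 * r := by
    intro u
    rw [Real.volume_real_Ioo_of_le (by linarith)]
    ring
  have hin : ∀ a ∈ Set.Ioo (z0 0 - r) (z0 0 + r),
      c * (2 * r) ≤ ∫ b in Set.Ioo (z0 1 - r) (z0 1 + r), F (pt a b s) := by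
    intro a ha
    have h1 : IntegrableOn (fun b => F (pt a b s)) (Set.Ioo (z0 1 - r) (z0 1 + r)) := by
      have h2 : ContinuousOn (fun b : ℝ => F (pt a b s)) (Set.Icc (z0 1 - r) (z0 1 + r)) := by
        have hpt' : Continuous fun b : ℝ => pt a b s := by
          unfold pt
          fun_prop
        exact hF.comp hpt'.continuousOn fun b hb => hmem a (Set.Ioo_subset_Icc_self ha) b hb
      exact (h2.integrableOn_compact isCompact_Icc).mono_set Set.Ioo_subset_Icc_self
    have h3 : ∫ _ in Set.Ioo (z0 1 - r) (z0 1 + r), c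
        ≤ ∫ b in Set.Ioo (z0 1 - r) (z0 1 + r), F (pt a b s) := by
      refine setIntegral_mono_on (integrableOn_const (by simp)) h1 measurableSet_Ioo ?_
      intro b hb
      exact hc _ (hmem a (Set.Ioo_subset_Icc_self ha) b (Set.Ioo_subset_Icc_self hb))
    rw [setIntegral_const, hvol, smul_eq_mul] at h3
    linarith
  have h4 : ∫ _ in Set.Ioo (z0 0 - r) (z0 0 + r), c * (2 * r)
      ≤ ∫ a in Set.Ioo (z0 0 - r) (z0 0 + r), ∫ b in Set.Ioo (z0 1 - r) (z0 1 + r),
        F (pt a b s) :=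
    setIntegral_mono_on (integrableOn_const (by simp)) hout measurableSet_Ioo hin
  rw [setIntegral_const, hvol, smul_eq_mul] at h4
  linarith

end Rho

open Rho in
open Classical in
theorem RHO (hSMO : Stmt_SMO) (hCHX : Stmt_CHX) (hCONN : Stmt_CONN) (hNULL : Stmt_NULL)
    (hPHI0 : Stmt_PHI0) (hMEAN : Stmt_MEAN) : Stmt_RHO := by
  intro V a b g W hF Φ z0 r e hCh hconn t1 hsep
  obtain ⟨ha, hb, -, hsub, hopen, -, -, hjc, c, C, hc, -, hbox, -⟩ := hCHX V a b g W hF Φ z0 r e hCh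
  obtain ⟨hO, -, hsm, -, C1, hC1, hbd⟩ := hPHI0 V a b g W hF Φ z0 r e hCh t1 hsep
  set S := slab V W (z0 2 - e) (z0 2 + e) with hS
  set B := Φ '' obox z0 r e with hB
  have hBopen : IsOpen B := hopen _ (isOpen_obox z0 r e) subset_rfl
  have hBV : B ⊆ V := (Set.image_mono (obox_subset z0 r e)).trans hsub
  have hWB : ∀ z ∈ obox z0 r e, W (Φ z) = z 2 := by
    obtain ⟨N, -, hN1, -, -, -, -, hN2⟩ := hCh.nbhd
    exact fun z hz => hN2 z (hN1 (obox_subset z0 r e hz))
  have hBS : B ⊆ S := by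
    rintro x ⟨z, hz, rfl⟩
    refine ⟨hBV ⟨z, hz, rfl⟩, ?_⟩
    change W (Φ z) ∈ Set.Ioo _ _
    rw [hWB z hz]
    have := abs_lt.mp hz.2.2
    exact ⟨by linarith [this.1], by linarith [this.2]⟩
  have hsingS : sing g W Φ z0 r e ⊆ S := fun x hx => hBS hx.1
  have hWV : ContinuousOn W V := hF.continuousOn
  have hdens : ∀ x ∈ V, 0 < dens g W x := fun x hx => (hSMO.2 g W x (hF.reg hx)).2.2.2.1
  have hdensc : ContinuousOn (dens g W) V := fun x hx => by
    have h1 := (hSMO.2 g W x (hF.reg hx)).2.2.2.2.2.2.2.2.1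
    exact h1.continuousAt.continuousWithinAt
  -- the function `ρ₀` on the slab
  set ρ : E3 → ℝ := Set.indicator S (rho0 g W Φ z0 r e t1) with hρ
  have hρpw : ρ = (S \ sing g W Φ z0 r e).piecewise (lap g W (phi0 g W Φ z0 r e t1)) 0 := by
    ext x
    by_cases hx : x ∈ S
    · by_cases hxs : x ∈ sing g W Φ z0 r e
      · have h1 : x ∉ S \ sing g W Φ z0 r e := fun h => h.2 hxs
        rw [Set.piecewise_eq_of_notMem _ _ _ h1, hρ, Set.indicator_of_mem hx]
        unfold rho0
        rw [if_pos hxs]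
        rfl
      · have h1 : x ∈ S \ sing g W Φ z0 r e := ⟨hx, hxs⟩
        rw [Set.piecewise_eq_of_mem _ _ _ h1, hρ, Set.indicator_of_mem hx]
        unfold rho0
        rw [if_neg hxs]
    · have h1 : x ∉ S \ sing g W Φ z0 r e := fun h => hx h.1
      rw [Set.piecewise_eq_of_notMem _ _ _ h1, hρ, Set.indicator_of_notMem hx]
      rfl
  have hρB : BddMeas ρ := by
    constructor
    · rw [hρpw]
      refine ContinuousOn.measurable_piecewise ?_ continuousOn_const hO.measurableSet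
      intro x hx
      have h1 : ContDiffAt ℝ ∞ (phi0 g W Φ z0 r e t1) x :=
        (hsm x hx).contDiffAt (hO.mem_nhds hx)
      have h2 := (hSMO.2 g W x (hF.reg (slab_subset _ _ hx.1))).2.2.2.2.2.2.2.2.2.2.2.2.1
        _ _ h1 h1
      exact h2.2.1.continuousAt.continuousWithinAt
    · refine ⟨C1, fun x => ?_⟩
      by_cases hx : x ∈ S
      · rw [hρ, Set.indicator_of_mem hx]
        exact hbd x hx
      · rw [hρ, Set.indicator_of_notMem hx, abs_zero]
        exact hC1.le
  -- the indicator function of the chart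
  set β : E3 → ℝ := Set.indicator B (fun _ => (1 : ℝ)) with hβ
  have hβB : BddMeas β := by
    refine ⟨measurable_const.indicator hBopen.measurableSet, 1, fun x => ?_⟩
    by_cases hx : x ∈ B
    · rw [hβ, Set.indicator_of_mem hx, abs_one]
    · rw [hβ, Set.indicator_of_notMem hx, abs_zero]
      exact zero_le_one
  have hcint : ∀ s ∈ Set.Ioo (z0 2 - e) (z0 2 + e),
      c * (2 * r) * (2 * r) ≤ cint g W Φ z0 r β s := by
    intro s hs
    refine (le_integral z0 r e c hCh.r_pos (jac g W Φ) hjc (fun z hz => (hbox z hz).1) s hs).trans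
      (le_of_eq ?_)
    unfold cint
    refine setIntegral_congr_fun measurableSet_Ioo fun x hx => ?_
    refine setIntegral_congr_fun measurableSet_Ioo fun y hy => ?_
    have hmem : pt x y s ∈ obox z0 r e := by
      refine ⟨?_, ?_, ?_⟩
      · change |x - z0 0| < r
        rw [abs_lt]
        exact ⟨by linarith [hx.1], by linarith [hx.2]⟩
      · change |y - z0 1| < r
        rw [abs_lt]
        exact ⟨by linarith [hy.1], by linarith [hy.2]⟩
      · change |s - z0 2| < e
        rw [abs_lt]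
        exact ⟨by linarith [hs.1], by linarith [hs.2]⟩
    have h1 : β (Φ (pt x y s)) = 1 := by
      rw [hβ, Set.indicator_of_mem (Set.mem_image_of_mem Φ hmem)]
    simp only [h1, one_mul]
  have hr := hCh.r_pos
  obtain ⟨e1, he1, he1e, hcon⟩ := hCONN V a b g W hF Φ z0 r e hCh hconn β (c * (2 * r) * (2 * r))
    hβB (fun x hx => by rw [hβ, Set.indicator_of_notMem hx])
    (fun x => Set.indicator_nonneg (fun _ _ => zero_le_one) x) (by positivity) hcint
  refine ⟨e1, he1, he1e, ?_⟩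
  obtain ⟨γ, hγ, hnull⟩ := hcon ρ hρB
  have ha1 : a < z0 2 - e1 := by linarith
  have hb1 : z0 2 + e1 < b := by linarith
  set S1 := slab V W (z0 2 - e1) (z0 2 + e1) with hS1
  have hS1m : MeasurableSet S1 := measurableSet_slab hF _ _
  have hS1V : S1 ⊆ V := slab_subset _ _
  have hS1S : S1 ⊆ S := slab_mono (by linarith) (by linarith)
  have hWS1 : ContinuousOn W S1 := hWV.mono hS1V
  have hdi : IntegrableOn (dens g W) S1 :=
    ((hdensc.mono (cslab_subset _ _)).integrableOn_compact (hF.proper _ _ ha1 hb1)).mono_set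
      (slab_subset_cslab _ _)
  -- integrability of bounded functions
  have hbdint : ∀ (F : E3 → ℝ) (D : ℝ), AEStronglyMeasurable F (volume.restrict S1) →
      (∀ x, |F x| ≤ D) → IntegrableOn (fun x => F x * dens g W x) S1 := by
    intro F D hFm hFb
    exact Integrable.bdd_mul hdi hFm (Eventually.of_forall fun x => by
      rw [Real.norm_eq_abs]; exact hFb x)
  have hcomp : ∀ α : ℝ → ℝ, Measurable α →
      AEStronglyMeasurable (fun x => α (W x)) (volume.restrict S1) := by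
    intro α hα
    exact (hα.comp_aemeasurable (hWS1.aemeasurable hS1m)).aestronglyMeasurable
  obtain ⟨hγm, D, hD⟩ := hγ
  -- the function `γ(W) β`
  have hγβ : BddMeas (fun x => γ (W x) * β x) := by
    constructor
    · have h1 : (fun x => γ (W x) * β x)
          = fun x => γ ((B.piecewise W 0) x) * β x := by
        ext x
        by_cases hx : x ∈ B
        · rw [Set.piecewise_eq_of_mem _ _ _ hx]
        · simp only [hβ, Set.indicator_of_notMem hx, mul_zero]
      rw [h1]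
      exact (hγm.comp (ContinuousOn.measurable_piecewise (hWV.mono hBV) continuousOn_const
        hBopen.measurableSet)).mul hβB.1
    · refine ⟨D, fun x => ?_⟩
      rw [abs_mul]
      have hDx := hD (W x)
      have hD0 : 0 ≤ D := (abs_nonneg _).trans hDx
      by_cases hx : x ∈ B
      · rw [hβ, Set.indicator_of_mem hx, abs_one, mul_one]
        exact hDx
      · rw [hβ, Set.indicator_of_notMem hx, abs_zero, mul_zero]
        exact hD0
  obtain ⟨Bρ, hBρ⟩ := hρB.2
  obtain ⟨Bγ, hBγ⟩ := hγβ.2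
  have hdiff : BddMeas (fun x => ρ x - γ (W x) * β x) :=
    ⟨hρB.1.sub hγβ.1, Bρ + Bγ, fun x => (abs_sub _ _).trans (add_le_add (hBρ x) (hBγ x))⟩
  have hiv := ((hNULL V a b g W hF (z0 2) e1 he1 ha1 hb1).2.2.2 _ hdiff hnull).1
  -- `γ(W) = 0` almost everywhere on the chart
  have hTm : MeasurableSet (S1 ∩ B) := hS1m.inter hBopen.measurableSet
  have hzero : ∀ᵐ x ∂(volume.restrict (S1 ∩ B)), γ (W x) = 0 := by
    refine ae_zero_of_test (S1 ∩ B) hTm W (dens g W) (hWS1.mono Set.inter_subset_left)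
      (hdi.mono_set Set.inter_subset_left) (fun x hx => hdens x (hS1V hx.1))
      (Set.Ioo (z0 2 - e1) (z0 2 + e1)) isOpen_Ioo (fun x hx => hx.1.2) γ ⟨hγm, D, hD⟩ ?_
    intro ψ hψ hψc hψU
    obtain ⟨M, hM⟩ := hψc.exists_bound_of_continuous hψ.continuous
    have hψB : BddMeasR ψ := ⟨hψ.continuous.measurable, M, fun s => by
      rw [← Real.norm_eq_abs]; exact hM s⟩
    have hψUe : tsupport ψ ⊆ Set.Ioo (z0 2 - e) (z0 2 + e) :=
      hψU.trans (Set.Ioo_subset_Ioo (by linarith) (by linarith))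
    have h1 := hMEAN V a b g W hF Φ z0 r e hCh t1 hsep ψ (hψ.of_le (by exact_mod_cast le_top)) hψUe
    have h2 : ∫ x in S1, ρ x * ψ (W x) * dens g W x = 0 := by
      rw [← h1]
      have h3 : ∫ x in S, ψ (W x) * rho0 g W Φ z0 r e t1 x * dens g W x
          = ∫ x in S1, ψ (W x) * rho0 g W Φ z0 r e t1 x * dens g W x := by
        refine (setIntegral_eq_of_subset_of_forall_sdiff_eq_zero (measurableSet_slab hF _ _) hS1S ?_)
        intro x hx
        have h4 : ψ (W x) = 0 := by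
          by_contra hne
          have h5 : W x ∈ Set.Ioo (z0 2 - e1) (z0 2 + e1) := hψU (subset_tsupport ψ hne)
          exact hx.2 ⟨hx.1.1, h5⟩
        rw [h4, zero_mul, zero_mul]
      rw [h3]
      refine setIntegral_congr_fun hS1m fun x hx => ?_
      simp only [hρ, Set.indicator_of_mem (hS1S hx)]
      ring
    have h3 := hiv ψ hψB
    have hi1 : IntegrableOn (fun x => ρ x * ψ (W x) * dens g W x) S1 := by
      refine hbdint (fun x => ρ x * ψ (W x)) (Bρ * M)
        (hρB.1.aestronglyMeasurable.mul (hcomp ψ hψB.1)) ?_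
      intro x
      rw [abs_mul]
      have := hM (W x)
      rw [Real.norm_eq_abs] at this
      exact mul_le_mul (hBρ x) this (abs_nonneg _) ((abs_nonneg _).trans (hBρ x))
    have hi2 : IntegrableOn (fun x => (γ (W x) * β x) * ψ (W x) * dens g W x) S1 := by
      refine hbdint (fun x => (γ (W x) * β x) * ψ (W x)) (Bγ * M)
        (hγβ.1.aestronglyMeasurable.mul (hcomp ψ hψB.1)) ?_
      intro x
      rw [abs_mul]
      have := hM (W x)
      rw [Real.norm_eq_abs] at this
      exact mul_le_mul (hBγ x) this (abs_nonneg _) ((abs_nonneg _).trans (hBγ x))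
    have h4 : ∫ x in S1, (ρ x - γ (W x) * β x) * ψ (W x) * dens g W x
        = (∫ x in S1, ρ x * ψ (W x) * dens g W x)
          - ∫ x in S1, (γ (W x) * β x) * ψ (W x) * dens g W x := by
      rw [← integral_sub hi1 hi2]
      refine integral_congr_ae (Eventually.of_forall fun x => ?_)
      simp only
      ring
    rw [h3, h2, zero_sub, zero_eq_neg] at h4
    rw [← h4, ← setIntegral_indicator hBopen.measurableSet]
    refine setIntegral_congr_fun hS1m fun x _ => ?_
    by_cases hx : x ∈ B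
    · simp only [hβ, Set.indicator_of_mem hx, mul_one]
    · simp only [hβ, Set.indicator_of_notMem hx, mul_zero, zero_mul]
  -- conclusion
  have hzero' : ∀ᵐ x ∂(volume.restrict S1), γ (W x) * β x = 0 := by
    rw [ae_restrict_iff' hTm] at hzero
    rw [ae_restrict_iff' hS1m]
    filter_upwards [hzero] with x hx hxS
    by_cases hxB : x ∈ B
    · rw [hx ⟨hxS, hxB⟩, zero_mul]
    · rw [hβ, Set.indicator_of_notMem hxB, mul_zero]
  obtain ⟨C2, hC2, hN⟩ := hnull
  refine ⟨C2, hC2, fun α hα v hv => ?_⟩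
  refine le_trans (le_of_eq ?_) (hN α hα v hv)
  congr 1
  refine integral_congr_ae ?_
  filter_upwards [hzero'] with x hx
  rw [hx, sub_zero]

end Pool.Agent.PFlow.GB


end

section

/-!
# The divergence theorem on an annulus
-/

open MeasureTheory Filter Topology Set
open scoped ContDiff

namespace Pool.Agent.PFlow

open Pool.Agent.PenroseSph

namespace DIVG

/-- The one dimensional argument: from the weak formulation to the fundamental theorem. -/
theorem one_dim {F G : ℝ → ℝ} (hF : Continuous F) (hG : Continuous G) {d : ℝ} (hd : 0 < d)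
    (hFd : ∀ r, d ≤ r → F r = 0) (hGd : ∀ r, d ≤ r → G r = 0)
    (hw : ∀ h : ℝ → ℝ, ContDiff ℝ 1 h →
      ∫ r in Ioi (0 : ℝ), h r * G r = -∫ r in Ioi (0 : ℝ), deriv h r * F r) :
    ∀ a b : ℝ, 0 ≤ a → a ≤ d → 0 ≤ b → b ≤ d → ∫ r in a..b, G r = F b - F a := by
  set P : ℝ → ℝ := fun r => ∫ t in (0 : ℝ)..r, G t with hP
  have hPd : ∀ r, HasDerivAt P (G r) r := fun r => hG.integral_hasStrictDerivAt 0 r |>.hasDerivAt
  have hPc : Continuous P := continuous_iff_continuousAt.mpr fun r => (hPd r).continuousAt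
  set H : ℝ → ℝ := fun r => F r - P r with hH
  have hHc : Continuous H := hF.sub hPc
  set h : ℝ → ℝ := fun r => ∫ t in (0 : ℝ)..r, H t with hh
  have hhd : ∀ r, HasDerivAt h (H r) r := fun r => hHc.integral_hasStrictDerivAt 0 r |>.hasDerivAt
  have hderiv : deriv h = H := funext fun r => (hhd r).deriv
  have hh1 : ContDiff ℝ 1 h := by
    rw [contDiff_one_iff_deriv]
    exact ⟨fun r => (hhd r).differentiableAt, hderiv ▸ hHc⟩
  have hcut : ∀ g : ℝ → ℝ, (∀ r, d ≤ r → g r = 0) →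
      ∫ r in Ioi (0 : ℝ), g r = ∫ r in (0 : ℝ)..d, g r := by
    intro g hg
    rw [intervalIntegral.integral_of_le hd.le]
    refine setIntegral_eq_of_subset_of_forall_sdiff_eq_zero measurableSet_Ioi
      (fun x hx => hx.1) ?_
    intro x hx
    refine hg x ?_
    by_contra hlt
    exact hx.2 ⟨hx.1, (not_le.mp hlt).le⟩
  have hPdz : P d = 0 := by
    have h1 := hw (fun _ => 1) contDiff_const
    simp only [one_mul, deriv_const, zero_mul, integral_zero, neg_zero] at h1
    rw [hcut G hGd] at h1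
    exact h1
  have h2 := hw h hh1
  rw [hderiv, hcut (fun r => h r * G r) (fun r hr => by rw [hGd r hr, mul_zero]),
    hcut (fun r => H r * F r) (fun r hr => by rw [hFd r hr, mul_zero])] at h2
  have h3 : ∫ r in (0 : ℝ)..d, h r * G r = h d * P d - h 0 * P 0 - ∫ r in (0 : ℝ)..d, H r * P r :=
    intervalIntegral.integral_mul_deriv_eq_deriv_mul (fun r _ => hhd r) (fun r _ => hPd r)
      (hHc.intervalIntegrable _ _) (hG.intervalIntegrable _ _)
  have hh0 : h 0 = 0 := by rw [hh]; simp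
  rw [hPdz, hh0, mul_zero, zero_mul, sub_zero, zero_sub, h2] at h3
  have h4 : ∫ r in (0 : ℝ)..d, H r * H r = 0 := by
    have e : ∀ r, H r * H r = H r * F r - H r * P r := fun r => by
      simp only [hH]; ring
    simp only [e]
    have i1 : IntervalIntegrable (fun r => H r * F r) volume 0 d :=
      (hHc.mul hF).intervalIntegrable _ _
    have i2 : IntervalIntegrable (fun r => H r * P r) volume 0 d :=
      (hHc.mul hPc).intervalIntegrable _ _
    rw [intervalIntegral.integral_sub i1 i2]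
    linarith
  have h5 : ∀ r ∈ Icc (0 : ℝ) d, H r = 0 := by
    by_contra hcon
    push Not at hcon
    obtain ⟨r, hr, hne⟩ := hcon
    have hpos : 0 < ∫ r in (0 : ℝ)..d, H r * H r := by
      refine intervalIntegral.integral_pos hd (hHc.mul hHc).continuousOn
        (fun x _ => mul_self_nonneg _) ⟨r, hr, ?_⟩
      exact mul_self_pos.mpr hne
    exact hpos.ne' h4
  intro a b ha ha' hb hb'
  have h6 := h5 a ⟨ha, ha'⟩
  have h7 := h5 b ⟨hb, hb'⟩
  simp only [hH] at h6 h7
  have h8 : ∫ r in a..b, G r = P b - P a := by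
    simp only [hP]
    rw [intervalIntegral.integral_interval_sub_left (hG.intervalIntegrable _ _)
      (hG.intervalIntegrable _ _)]
  rw [h8]
  linarith

/-- Continuity of spherical integrals. -/
theorem continuous_sphere {G : E3 → ℝ} (hG : Continuous G) :
    Continuous (fun r : ℝ => ∫ θ, G (r • (θ : E3)) ∂sph) := by
  have h1 : Continuous (Function.uncurry
      fun (r : ℝ) (θ : Metric.sphere (0 : E3) 1) => G (r • (θ : E3))) :=
    hG.comp (by fun_prop : Continuous fun p : ℝ × Metric.sphere (0 : E3) 1 => p.1 • (p.2 : E3))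
  have h2 := continuous_parametric_integral_of_continuous (μ := sph) h1
    (isCompact_univ (X := Metric.sphere (0 : E3) 1))
  simpa only [Measure.restrict_univ] using h2

/-- Continuity of weighted spherical integrals. -/
theorem continuous_sphere' {G : Fin 3 → E3 → ℝ} (hG : ∀ i, Continuous (G i)) :
    Continuous (fun r : ℝ => ∫ θ, (∑ i, (θ : E3) i * G i (r • (θ : E3))) ∂sph) := by
  have h1 : Continuous (Function.uncurry
      fun (r : ℝ) (θ : Metric.sphere (0 : E3) 1) => ∑ i, (θ : E3) i * G i (r • (θ : E3))) := by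
    refine continuous_finsetSum _ fun i _ => ?_
    refine Continuous.mul (by fun_prop) ?_
    exact (hG i).comp (by fun_prop : Continuous fun p : ℝ × Metric.sphere (0 : E3) 1 =>
      p.1 • (p.2 : E3))
  have h2 := continuous_parametric_integral_of_continuous (μ := sph) h1
    (isCompact_univ (X := Metric.sphere (0 : E3) 1))
  simpa only [Measure.restrict_univ] using h2

/-- The weak formula for a field supported in a shell. -/
theorem weak {W : Fin 3 → E3 → ℝ} (hW : ∀ i, ContDiff ℝ 1 (W i)) {χ : ℝ → ℝ}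
    (hc : HasCompactSupport χ) (hs : tsupport χ ⊆ Ioi 0)
    (hWs : ∀ i, ∀ x : E3, ‖x‖ ∉ tsupport χ → W i x = 0) {h : ℝ → ℝ} (hh : ContDiff ℝ 1 h) :
    ∫ x : E3, h ‖x‖ * ∑ i, pd i (W i) x = -∫ x : E3, deriv h ‖x‖ * ∑ i, (x i / ‖x‖) * W i x := by
  have hts : ∀ i, ∀ x : E3, x ∈ tsupport (W i) → ‖x‖ ∈ tsupport χ := by
    intro i x hx
    have h1 : tsupport (W i) ⊆ {x : E3 | ‖x‖ ∈ tsupport χ} := by
      refine closure_minimal ?_ ((isClosed_tsupport χ).preimage continuous_norm)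
      intro y hy
      by_contra hcon
      exact hy (hWs i y hcon)
    exact h1 hx
  have hpd0 : ∀ i, ∀ x : E3, ‖x‖ ∉ tsupport χ → pd i (W i) x = 0 := by
    intro i x hx
    have h1 : x ∉ tsupport (W i) := fun h => hx (hts i x h)
    have h2 : W i =ᶠ[𝓝 x] 0 := notMem_tsupport_iff_eventuallyEq.1 h1
    unfold pd
    rw [h2.fderiv_eq]
    simp
  have hpf : ∀ i (x : E3), 0 < ‖x‖ →
      fderiv ℝ (fun y : E3 => h ‖y‖) x (EuclideanSpace.single i 1)
        = deriv h ‖x‖ * (x i / ‖x‖) := by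
    intro i x hx
    rw [(hasFDerivAt_comp_norm hh (norm_pos_iff.mp hx)).fderiv]
    simp [EuclideanSpace.inner_single_right]
    left
    ring
  have hcb : ∀ i, Continuous (fun x => pd i (W i) x) := fun i =>
    ((hW i).continuous_fderiv one_ne_zero).clm_apply continuous_const
  have hhn : Continuous fun x : E3 => h ‖x‖ := hh.continuous.comp continuous_norm
  have hcf : ∀ i, ContinuousOn (fun x : E3 => deriv h ‖x‖ * (x i / ‖x‖)) {x : E3 | 0 < ‖x‖} := by
    intro i
    have h2 : Continuous fun x : E3 => deriv h ‖x‖ :=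
      (hh.continuous_deriv le_rfl).comp continuous_norm
    refine h2.continuousOn.mul (ContinuousOn.div (by fun_prop) continuous_norm.continuousOn ?_)
    intro x hx
    exact (show 0 < ‖x‖ from hx).ne'
  have hi1 : ∀ i, Integrable (fun x : E3 => deriv h ‖x‖ * (x i / ‖x‖) * W i x) := by
    intro i
    have := integrable_shell hc hs (hW i).continuous.continuousOn (hWs i) (hcf i)
    refine this.congr (Eventually.of_forall fun x => ?_)
    simp only []; ring
  have hi1' : ∀ i, ∀ x : E3, fderiv ℝ (fun y : E3 => h ‖y‖) x (EuclideanSpace.single i 1) * W i x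
      = deriv h ‖x‖ * (x i / ‖x‖) * W i x := by
    intro i x
    by_cases hx : ‖x‖ ∈ tsupport χ
    · rw [hpf i x (hs hx)]
    · rw [hWs i x hx, mul_zero, mul_zero]
  have hi2 : ∀ i, Integrable (fun x : E3 => h ‖x‖ * pd i (W i) x) := by
    intro i
    have := integrable_shell hc hs (hcb i).continuousOn (hpd0 i) hhn.continuousOn
    refine this.congr (Eventually.of_forall fun x => ?_)
    simp only []; ring
  have hi3 : ∀ i, Integrable (fun x : E3 => h ‖x‖ * W i x) := by
    intro i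
    have := integrable_shell hc hs (hW i).continuous.continuousOn (hWs i) hhn.continuousOn
    refine this.congr (Eventually.of_forall fun x => ?_)
    simp only []; ring
  have key : ∀ i, ∫ x : E3, h ‖x‖ * pd i (W i) x
      = - ∫ x : E3, deriv h ‖x‖ * (x i / ‖x‖) * W i x := by
    intro i
    have h1 : ∫ x : E3, h ‖x‖ * pd i (W i) x
      = - ∫ x : E3, fderiv ℝ (fun y : E3 => h ‖y‖) x (EuclideanSpace.single i 1) * W i x := by
      refine integral_mul_fderiv_eq_neg_fderiv_mul_of_integrable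
        (f := fun y : E3 => h ‖y‖) (g := W i) (v := EuclideanSpace.single i 1) ?_ (hi2 i) (hi3 i)
        ?_ ?_
      · simp only [hi1' i]
        exact hi1 i
      · intro x hx
        exact (hasFDerivAt_comp_norm hh (norm_pos_iff.mp (hs (hts i x hx)))).differentiableAt
      · exact fun x _ => ((hW i).differentiable one_ne_zero).differentiableAt
    rw [h1]
    simp only [hi1' i]
  have e1 : ∫ x : E3, h ‖x‖ * ∑ i, pd i (W i) x = ∑ i, ∫ x : E3, h ‖x‖ * pd i (W i) x := by
    rw [← integral_finsetSum _ fun i _ => hi2 i]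
    simp only [Finset.mul_sum]
  rw [e1, Finset.sum_congr rfl fun i _ => key i, Finset.sum_neg_distrib,
    ← integral_finsetSum _ fun i _ => hi1 i]
  congr 1
  refine integral_congr_ae (Eventually.of_forall fun x => ?_)
  simp only [Finset.mul_sum]
  exact Finset.sum_congr rfl fun i _ => by ring

/-- The divergence theorem for a field supported in a shell. -/
theorem shell {W : Fin 3 → E3 → ℝ} (hW : ∀ i, ContDiff ℝ 1 (W i)) {χ : ℝ → ℝ}
    (hc : HasCompactSupport χ) (hs : tsupport χ ⊆ Ioi 0)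
    (hWs : ∀ i, ∀ x : E3, ‖x‖ ∉ tsupport χ → W i x = 0) {a b : ℝ} (ha : 0 < a) (hab : a ≤ b) :
    ∫ x in cAnn a b, ∑ i, pd i (W i) x =
      b ^ 2 * ∫ θ, (∑ i, (θ : E3) i * W i (b • (θ : E3))) ∂sph -
      a ^ 2 * ∫ θ, (∑ i, (θ : E3) i * W i (a • (θ : E3))) ∂sph := by
  have hcb : ∀ i, Continuous (fun x => pd i (W i) x) := fun i =>
    ((hW i).continuous_fderiv one_ne_zero).clm_apply continuous_const
  have hcd : Continuous (fun x => ∑ i, pd i (W i) x) := continuous_finsetSum _ fun i _ => hcb i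
  have hts : ∀ i, ∀ x : E3, x ∈ tsupport (W i) → ‖x‖ ∈ tsupport χ := by
    intro i x hx
    have h1 : tsupport (W i) ⊆ {x : E3 | ‖x‖ ∈ tsupport χ} := by
      refine closure_minimal ?_ ((isClosed_tsupport χ).preimage continuous_norm)
      intro y hy
      by_contra hcon
      exact hy (hWs i y hcon)
    exact h1 hx
  have hpd0 : ∀ i, ∀ x : E3, ‖x‖ ∉ tsupport χ → pd i (W i) x = 0 := by
    intro i x hx
    have h1 : x ∉ tsupport (W i) := fun h => hx (hts i x h)
    have h2 : W i =ᶠ[𝓝 x] 0 := notMem_tsupport_iff_eventuallyEq.1 h1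
    unfold pd
    rw [h2.fderiv_eq]
    simp
  obtain ⟨d, hbd, hd⟩ : ∃ d : ℝ, b ≤ d ∧ ∀ r ∈ tsupport χ, r < d := by
    obtain ⟨R, hR⟩ := hc.isBounded.subset_closedBall (0 : ℝ)
    refine ⟨max b (R + 1), le_max_left _ _, fun r hr => ?_⟩
    have h1 := hR hr
    rw [Metric.mem_closedBall, dist_zero_right, Real.norm_eq_abs] at h1
    exact lt_of_lt_of_le (lt_of_le_of_lt ((le_abs_self r).trans h1) (by linarith)) (le_max_right _ _)
  have hd0 : 0 < d := ha.trans_le (hab.trans hbd)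
  set G : ℝ → ℝ := fun r => r ^ 2 * ∫ θ, (∑ i, pd i (W i) (r • (θ : E3))) ∂sph with hG
  set F : ℝ → ℝ := fun r => r ^ 2 * ∫ θ, (∑ i, (θ : E3) i * W i (r • (θ : E3))) ∂sph with hF
  have hGc : Continuous G := (by fun_prop : Continuous fun r : ℝ => r ^ 2).mul (continuous_sphere hcd)
  have hFc : Continuous F := (by fun_prop : Continuous fun r : ℝ => r ^ 2).mul
    (continuous_sphere' fun i => (hW i).continuous)
  have hnorm : ∀ r : ℝ, 0 < r → ∀ θ : Metric.sphere (0 : E3) 1, ‖r • (θ : E3)‖ = r := by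
    intro r hr θ
    rw [norm_smul, norm_eq_of_mem_sphere, mul_one, Real.norm_eq_abs, abs_of_pos hr]
  have hFd : ∀ r, d ≤ r → F r = 0 := by
    intro r hr
    have hr0 : 0 < r := hd0.trans_le hr
    have h1 : ∀ θ : Metric.sphere (0 : E3) 1, (∑ i, (θ : E3) i * W i (r • (θ : E3))) = 0 := by
      intro θ
      refine Finset.sum_eq_zero fun i _ => ?_
      rw [hWs i _ (by rw [hnorm r hr0 θ]; exact fun h => (hd r h).not_ge hr), mul_zero]
    simp only [hF, h1, integral_zero, mul_zero]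
  have hGd : ∀ r, d ≤ r → G r = 0 := by
    intro r hr
    have hr0 : 0 < r := hd0.trans_le hr
    have h1 : ∀ θ : Metric.sphere (0 : E3) 1, (∑ i, pd i (W i) (r • (θ : E3))) = 0 := by
      intro θ
      refine Finset.sum_eq_zero fun i _ => ?_
      rw [hpd0 i _ (by rw [hnorm r hr0 θ]; exact fun h => (hd r h).not_ge hr)]
    simp only [hG, h1, integral_zero, mul_zero]
  have hone := one_dim hFc hGc hd0 hFd hGd ?_ a b ha.le (hab.trans hbd) (ha.le.trans hab) hbd
  · rw [← hone, ← integral_indicator (by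
      unfold cAnn
      exact (isClosed_le continuous_const continuous_norm).measurableSet.inter
        (isClosed_le continuous_norm continuous_const).measurableSet), integral_polar]
    · rw [intervalIntegral.integral_of_le hab, ← integral_Icc_eq_integral_Ioc,
        ← integral_indicator measurableSet_Ioi, ← integral_indicator measurableSet_Icc]
      refine integral_congr_ae (Eventually.of_forall fun r => ?_)
      by_cases hr : 0 < r
      · rw [indicator_of_mem (show r ∈ Ioi (0 : ℝ) from hr)]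
        by_cases hr2 : r ∈ Icc a b
        · rw [indicator_of_mem hr2]
          simp only [hG]
          congr 1
          refine integral_congr_ae (Eventually.of_forall fun θ => ?_)
          simp only []
          rw [indicator_of_mem]
          show a ≤ ‖r • (θ : E3)‖ ∧ ‖r • (θ : E3)‖ ≤ b
          rw [hnorm r hr θ]
          exact hr2
        · rw [indicator_of_notMem hr2]
          have h1 : ∀ θ : Metric.sphere (0 : E3) 1,
              (cAnn a b).indicator (fun x => ∑ i, pd i (W i) x) (r • (θ : E3)) = 0 := by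
            intro θ
            rw [indicator_of_notMem]
            intro hmem
            have hmem : a ≤ ‖r • (θ : E3)‖ ∧ ‖r • (θ : E3)‖ ≤ b := hmem
            rw [hnorm r hr θ] at hmem
            exact hr2 hmem
          simp only [h1, integral_zero, mul_zero]
      · rw [indicator_of_notMem (show r ∉ Ioi (0 : ℝ) from hr), indicator_of_notMem]
        exact fun h => hr (ha.trans_le h.1)
    · have hcomp : IsCompact (cAnn a b) := by
        refine Metric.isCompact_of_isClosed_isBounded ?_ ?_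
        · exact (isClosed_le continuous_const continuous_norm).inter
            (isClosed_le continuous_norm continuous_const)
        · refine (Metric.isBounded_closedBall (x := (0 : E3)) (r := b)).subset ?_
          intro x hx
          rw [mem_closedBall_zero_iff]
          exact hx.2
      rw [integrable_indicator_iff hcomp.measurableSet]
      exact hcd.continuousOn.integrableOn_compact hcomp
  · intro h hh
    have hw := weak hW hc hs hWs hh
    have hhn : Continuous fun x : E3 => h ‖x‖ := hh.continuous.comp continuous_norm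
    have hpdz : ∀ x : E3, ‖x‖ ∉ tsupport χ → ∑ i, pd i (W i) x = 0 := fun x hx =>
      Finset.sum_eq_zero fun i _ => hpd0 i x hx
    have hI1 : Integrable (fun x : E3 => h ‖x‖ * ∑ i, pd i (W i) x) := by
      have := integrable_shell hc hs hcd.continuousOn hpdz hhn.continuousOn
      refine this.congr (Eventually.of_forall fun x => ?_)
      simp only []; ring
    have hI2 : Integrable (fun x : E3 => deriv h ‖x‖ * ∑ i, (x i / ‖x‖) * W i x) := by
      have h2 : Continuous fun x : E3 => deriv h ‖x‖ :=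
        (hh.continuous_deriv le_rfl).comp continuous_norm
      have h3 : ContinuousOn (fun x : E3 => ∑ i, (x i / ‖x‖) * W i x) {x : E3 | 0 < ‖x‖} := by
        refine continuousOn_finsetSum _ fun i _ => ?_
        refine ContinuousOn.mul (ContinuousOn.div (by fun_prop) continuous_norm.continuousOn ?_)
          (hW i).continuous.continuousOn
        intro x hx
        exact (show 0 < ‖x‖ from hx).ne'
      have := integrable_shell hc hs h3 (fun x hx => Finset.sum_eq_zero fun i _ => by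
        rw [hWs i x hx, mul_zero]) h2.continuousOn
      refine this.congr (Eventually.of_forall fun x => ?_)
      simp only []; ring
    rw [integral_polar hI1, integral_polar hI2] at hw
    have e1 : ∫ r in Ioi (0 : ℝ), h r * G r = ∫ r in Ioi (0 : ℝ), r ^ 2 *
        ∫ θ, (h ‖r • (θ : E3)‖ * ∑ i, pd i (W i) (r • (θ : E3))) ∂sph := by
      refine setIntegral_congr_fun measurableSet_Ioi fun r hr => ?_
      have hr0 : 0 < r := hr
      simp only [hnorm r hr0]
      rw [integral_const_mul, hG]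
      ring
    have e2 : ∫ r in Ioi (0 : ℝ), deriv h r * F r = ∫ r in Ioi (0 : ℝ), r ^ 2 *
        ∫ θ, (deriv h ‖r • (θ : E3)‖ * ∑ i, ((r • (θ : E3)) i / ‖r • (θ : E3)‖) *
          W i (r • (θ : E3))) ∂sph := by
      refine setIntegral_congr_fun measurableSet_Ioi fun r hr => ?_
      have hr0 : 0 < r := hr
      have h4 : ∀ (θ : Metric.sphere (0 : E3) 1) (i : Fin 3), (r • (θ : E3)) i / r = (θ : E3) i := by
        intro θ i
        rw [PiLp.smul_apply, smul_eq_mul, mul_div_cancel_left₀ _ hr0.ne']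
      simp only [hnorm r hr0, h4]
      rw [integral_const_mul, hF]
      ring
    rw [e1, e2]
    exact hw

/-- A neighbourhood of the annulus. -/
theorem nbhd {S : Set E3} (hS : IsOpen S) {a b : ℝ} (ha : 0 < a) (hab : a ≤ b)
    (h : cAnn a b ⊆ S) : ∃ ε : ℝ, 0 < ε ∧ ε < a ∧ ∀ x : E3, a - ε < ‖x‖ → ‖x‖ < b + ε → x ∈ S := by
  have hcomp : IsCompact (cAnn a b) := by
    refine Metric.isCompact_of_isClosed_isBounded ?_ ?_
    · exact (isClosed_le continuous_const continuous_norm).inter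
        (isClosed_le continuous_norm continuous_const)
    · refine (Metric.isBounded_closedBall (x := (0 : E3)) (r := b)).subset ?_
      intro x hx
      rw [mem_closedBall_zero_iff]
      exact hx.2
  obtain ⟨δ, hδ, hsub⟩ := hcomp.exists_thickening_subset_open hS h
  refine ⟨min δ (a / 2), by positivity, lt_of_le_of_lt (min_le_right _ _) (by linarith), ?_⟩
  intro x hx1 hx2
  have hm1 : min δ (a / 2) ≤ δ := min_le_left _ _
  have hm2 : min δ (a / 2) ≤ a / 2 := min_le_right _ _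
  have hx0 : 0 < ‖x‖ := by linarith
  apply hsub
  rw [Metric.mem_thickening_iff]
  set t : ℝ := max a (min ‖x‖ b) with ht
  have hta : a ≤ t := le_max_left _ _
  have htb : t ≤ b := max_le hab (min_le_right _ _)
  have ht0 : 0 < t := ha.trans_le hta
  have hdist : |‖x‖ - t| < δ := by
    rw [abs_lt]
    constructor
    · have : t ≤ max a ‖x‖ := max_le_max le_rfl (min_le_left _ _)
      rcases le_total a ‖x‖ with h' | h'
      · rw [max_eq_right h'] at this; linarith
      · rw [max_eq_left h'] at this; linarith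
    · have : min ‖x‖ b ≤ t := le_max_right _ _
      rcases le_total ‖x‖ b with h' | h'
      · rw [min_eq_left h'] at this; linarith
      · rw [min_eq_right h'] at this; linarith
  refine ⟨(t / ‖x‖) • x, ?_, ?_⟩
  · show a ≤ ‖(t / ‖x‖) • x‖ ∧ ‖(t / ‖x‖) • x‖ ≤ b
    rw [norm_smul, Real.norm_of_nonneg (by positivity), div_mul_cancel₀ _ hx0.ne']
    exact ⟨hta, htb⟩
  · rw [dist_eq_norm]
    have : x - (t / ‖x‖) • x = ((‖x‖ - t) / ‖x‖) • x := by
      rw [sub_div, div_self hx0.ne', sub_smul, one_smul]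
    rw [this, norm_smul, Real.norm_eq_abs, abs_div, abs_of_pos hx0, div_mul_cancel₀ _ hx0.ne']
    exact hdist

end DIVG

open DIVG in
/-- Module DIVG. -/
theorem DIVG : Stmt_DIVG := by
  intro V a b ha hab hV
  set S : Set E3 := {x | ∀ i, ContDiffAt ℝ 1 (fun y => V y i) x} with hS
  have hSo : IsOpen S := by
    rw [isOpen_iff_mem_nhds]
    intro x hx
    have : ∀ i, ∀ᶠ y in 𝓝 x, ContDiffAt ℝ 1 (fun y => V y i) y := fun i =>
      (hx i).eventually (by simp)
    exact eventually_all.mpr this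
  obtain ⟨ε, hε, hεa, hn⟩ := nbhd hSo ha hab (fun x hx => hV x hx)
  let χ : ContDiffBump ((a + b) / 2 : ℝ) :=
    ⟨(b - a) / 2 + ε / 3, (b - a) / 2 + 2 * ε / 3, by linarith, by linarith⟩
  have hχ1 : ∀ r : ℝ, a - ε / 3 ≤ r → r ≤ b + ε / 3 → χ r = 1 := by
    intro r h1 h2
    refine χ.one_of_mem_closedBall ?_
    rw [Metric.mem_closedBall, Real.dist_eq, abs_le]
    show -((b - a) / 2 + ε / 3) ≤ r - (a + b) / 2 ∧ r - (a + b) / 2 ≤ (b - a) / 2 + ε / 3
    constructor <;> linarith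
  have hχt : ∀ r ∈ tsupport (χ : ℝ → ℝ), a - ε < r ∧ r < b + ε := by
    intro r hr
    rw [χ.tsupport_eq, Metric.mem_closedBall, Real.dist_eq, abs_le] at hr
    have hr' : -((b - a) / 2 + 2 * ε / 3) ≤ r - (a + b) / 2 ∧
      r - (a + b) / 2 ≤ (b - a) / 2 + 2 * ε / 3 := hr
    constructor <;> linarith [hr'.1, hr'.2]
  have hχs : tsupport (χ : ℝ → ℝ) ⊆ Ioi 0 := by
    intro r hr
    have := (hχt r hr).1
    show 0 < r
    linarith
  have hχc : HasCompactSupport (χ : ℝ → ℝ) := χ.hasCompactSupport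
  have hχd : ContDiff ℝ 1 (χ : ℝ → ℝ) := χ.contDiff
  set W : Fin 3 → E3 → ℝ := fun i x => χ ‖x‖ * V x i with hWdef
  have hWs : ∀ i, ∀ x : E3, ‖x‖ ∉ tsupport (χ : ℝ → ℝ) → W i x = 0 := by
    intro i x hx
    simp only [hWdef]
    rw [image_eq_zero_of_notMem_tsupport hx, zero_mul]
  have hW : ∀ i, ContDiff ℝ 1 (W i) := by
    intro i
    rw [contDiff_iff_contDiffAt]
    intro x
    by_cases hx : ‖x‖ ∈ tsupport (χ : ℝ → ℝ)
    · have hx0 : x ≠ 0 := norm_pos_iff.mp (hχs hx)
      have h1 : x ∈ S := hn x (hχt _ hx).1 (hχt _ hx).2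
      exact (hχd.contDiffAt.comp x (contDiffAt_norm ℝ hx0)).mul (h1 i)
    · have h1 : ∀ᶠ y : E3 in 𝓝 x, W i y = 0 := by
        have : ∀ᶠ y : E3 in 𝓝 x, ‖y‖ ∈ (tsupport (χ : ℝ → ℝ))ᶜ :=
          continuous_norm.continuousAt.eventually
            ((isClosed_tsupport (χ : ℝ → ℝ)).isOpen_compl.mem_nhds hx)
        filter_upwards [this] with y hy
        exact hWs i y hy
      exact contDiffAt_const.congr_of_eventuallyEq (f := fun _ => (0 : ℝ)) h1
  have hmain := shell hW hχc hχs hWs ha hab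
  have hma : MeasurableSet (cAnn a b) := by
    unfold cAnn
    exact (isClosed_le continuous_const continuous_norm).measurableSet.inter
      (isClosed_le continuous_norm continuous_const).measurableSet
  have e1 : ∫ x in cAnn a b, ∑ i, pd i (fun y => V y i) x = ∫ x in cAnn a b, ∑ i, pd i (W i) x := by
    refine setIntegral_congr_fun hma fun x hx => ?_
    refine Finset.sum_congr rfl fun i _ => ?_
    have h1 : (fun y => V y i) =ᶠ[𝓝 x] W i := by
      have h2 : ∀ᶠ y : E3 in 𝓝 x, ‖y‖ ∈ Ioo (a - ε / 3) (b + ε / 3) := by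
        refine continuous_norm.continuousAt.eventually (isOpen_Ioo.mem_nhds ?_)
        have hx' : a ≤ ‖x‖ ∧ ‖x‖ ≤ b := hx
        constructor <;> linarith [hx'.1, hx'.2]
      filter_upwards [h2] with y hy
      simp only [hWdef]
      rw [hχ1 _ hy.1.le hy.2.le, one_mul]
    unfold pd
    rw [h1.fderiv_eq]
  have e2 : ∀ r : ℝ, 0 < r → a ≤ r → r ≤ b →
      ∫ θ : Metric.sphere (0 : E3) 1, (∑ i, V (r • (θ : E3)) i * (θ : E3) i) * r ^ 2
          ∂((volume : Measure E3).toSphere) =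
      r ^ 2 * ∫ θ, (∑ i, (θ : E3) i * W i (r • (θ : E3))) ∂sph := by
    intro r hr h1 h2
    rw [← integral_const_mul]
    refine integral_congr_ae (Eventually.of_forall fun θ => ?_)
    have h3 : ‖r • (θ : E3)‖ = r := by
      rw [norm_smul, norm_eq_of_mem_sphere, mul_one, Real.norm_eq_abs, abs_of_pos hr]
    simp only [hWdef, h3, hχ1 r (by linarith) (by linarith), one_mul]
    rw [mul_comm]
    congr 1
    exact Finset.sum_congr rfl fun i _ => mul_comm _ _
  rw [e1, hmain, e2 b (ha.trans_le hab) hab le_rfl, e2 a ha le_rfl hab]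

end Pool.Agent.PFlow


end

section

/-!
# FLXA: monotonicity of the flux
-/

open MeasureTheory Filter Topology
open scoped ContDiff ENNReal

namespace Pool.Agent.PFlow

open Pool.Agent.PenroseSph

namespace FLXAaux

variable {ε : ℝ} {Ω : Set E3} {vol w X Φ D S : E3 → ℝ} {sb s₂ sM B₁ B₂ : ℝ}

lemma rpow_le_one_add {ε x : ℝ} (h0 : 0 < ε) (h1 : ε ≤ 1 / 2) (hx : 0 ≤ x) :
    x ^ (1 + ε) ≤ 1 + x ^ 3 := by
  rcases le_total x 1 with h | h
  · have : x ^ (1 + ε) ≤ 1 := Real.rpow_le_one hx h (by linarith)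
    have h3 : 0 ≤ x ^ 3 := by positivity
    linarith
  · have : x ^ (1 + ε) ≤ x ^ (3 : ℝ) := Real.rpow_le_rpow_of_exponent_le h (by linarith)
    have h4 : x ^ (3 : ℝ) = x ^ 3 := by
      rw [← Real.rpow_natCast]
      norm_num
    rw [h4] at this
    linarith

lemma int_theta (hA : Abs ε Ω vol w X Φ D S sb s₂ sM B₁ B₂) (h0 : 0 < ε) (h1 : ε ≤ 1 / 2)
    {ϑ : ℝ → ℝ} (hϑ : Continuous ϑ) {s s' : ℝ} (hs : sb / 4 < s) (hss : s < s') (hs' : s' < sM)
    (hsupp : ∀ t, t < s ∨ s' < t → ϑ t = 0) :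
    IntegrableOn (fun x => ϑ (w x) * (Real.exp (-w x) * X x ^ (1 + ε)) * vol x) Ω := by
  have hT : MeasurableSet {x : E3 | s ≤ w x ∧ w x ≤ s'} :=
    hA.meas_w measurableSet_Icc
  have hz : ∀ x ∈ Ω \ (Ω ∩ {x : E3 | s ≤ w x ∧ w x ≤ s'}),
      ϑ (w x) * (Real.exp (-w x) * X x ^ (1 + ε)) * vol x = 0 := by
    rintro x ⟨hx, hx'⟩
    have h2 : w x < s ∨ s' < w x := by
      by_contra hcon
      push Not at hcon
      exact hx' ⟨hx, hcon⟩
    rw [hsupp _ h2, zero_mul, zero_mul]
  refine IntegrableOn.of_forall_sdiff_eq_zero ?_ hA.measOmega hz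
  obtain ⟨K, hK⟩ := (isCompact_Icc (a := s) (b := s')).exists_bound_of_continuousOn
    (f := fun t => ϑ t * Real.exp (-t)) (by fun_prop)
  have hv := hA.int_vol s s' hs hss hs'
  have hX := hA.int_X s s' hs hss hs'
  have hg : IntegrableOn (fun x => K * (vol x + X x ^ 3 * vol x))
      (Ω ∩ {x : E3 | s ≤ w x ∧ w x ≤ s'}) := (hv.add hX).const_mul K
  have hXm : AEStronglyMeasurable X (volume.restrict (Ω ∩ {x : E3 | s ≤ w x ∧ w x ≤ s'})) :=
    hA.meas_X.mono_measure (Measure.restrict_mono Set.inter_subset_left le_rfl)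
  have hXr : AEStronglyMeasurable (fun x => X x ^ (1 + ε))
      (volume.restrict (Ω ∩ {x : E3 | s ≤ w x ∧ w x ≤ s'})) :=
    (hXm.aemeasurable.pow_const _).aestronglyMeasurable
  refine Integrable.mono' hg ?_ ?_
  · refine AEStronglyMeasurable.mul (AEStronglyMeasurable.mul ?_ (AEStronglyMeasurable.mul ?_ hXr))
      hv.aestronglyMeasurable
    · exact (hϑ.measurable.comp hA.meas_w).aestronglyMeasurable
    · exact (Real.measurable_exp.comp hA.meas_w.neg).aestronglyMeasurable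
  · refine (ae_restrict_iff' (hA.measOmega.inter hT)).mpr (Eventually.of_forall ?_)
    rintro x ⟨_, hx⟩
    have k1 := hK (w x) hx
    have k2 := rpow_le_one_add h0 h1 (hA.X_nonneg x)
    have k3 : 0 ≤ X x ^ (1 + ε) := Real.rpow_nonneg (hA.X_nonneg x) _
    have k4 := hA.vol_nonneg x
    have k5 : 0 ≤ K := (norm_nonneg _).trans k1
    calc ‖ϑ (w x) * (Real.exp (-w x) * X x ^ (1 + ε)) * vol x‖
        = ‖ϑ (w x) * Real.exp (-w x)‖ * (X x ^ (1 + ε) * vol x) := by
          rw [← mul_assoc, mul_assoc (ϑ (w x) * Real.exp (-w x)), norm_mul,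
            Real.norm_of_nonneg (mul_nonneg k3 k4)]
      _ ≤ K * ((1 + X x ^ 3) * vol x) :=
          mul_le_mul k1 (mul_le_mul_of_nonneg_right k2 k4) (mul_nonneg k3 k4) k5
      _ = K * (vol x + X x ^ 3 * vol x) := by ring

lemma bump_int {β : ℝ → ℝ} (hβ : IsBump β) (s₂ : ℝ) : ∫ t, β (t - s₂) = 1 := by
  rw [integral_sub_right_eq_self (fun t => β t) s₂]
  exact hβ.integral_eq

lemma bump_cont {β : ℝ → ℝ} (hβ : IsBump β) (s₂ : ℝ) : Continuous fun t => β (t - s₂) :=
  hβ.smooth.continuous.comp (by fun_prop)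

lemma bump_zero {β : ℝ → ℝ} (hβ : IsBump β) {p s s₂ : ℝ} (hp : p ≤ s₂ + 1 / 4)
    (hs : s ≤ s₂ + 1 / 4) : ∫ t in p..s, β (t - s₂) = 0 := by
  have : Set.EqOn (fun t => β (t - s₂)) (fun _ => (0 : ℝ)) (Set.uIcc p s) := by
    intro t ht
    have h1 : t ≤ max p s := ht.2
    have h2 : t ≤ s₂ + 1 / 4 := h1.trans (max_le hp hs)
    exact hβ.supp _ (Or.inl (by linarith))
  rw [intervalIntegral.integral_congr this, intervalIntegral.integral_zero]

lemma bump_one {β : ℝ → ℝ} (hβ : IsBump β) {p s s₂ : ℝ} (hp : p ≤ s₂ + 1 / 4)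
    (hs : s₂ + 3 / 4 ≤ s) : ∫ t in p..s, β (t - s₂) = 1 := by
  rw [intervalIntegral.integral_eq_integral_of_support_subset, bump_int hβ]
  intro t ht
  have h1 : ¬ (t - s₂ ≤ 1 / 4 ∨ 3 / 4 ≤ t - s₂) := fun h => ht (hβ.supp _ h)
  push Not at h1
  exact ⟨by linarith [h1.1], by linarith [h1.2]⟩

lemma bump_le {β : ℝ → ℝ} (hβ : IsBump β) {p s s₂ : ℝ} (hp : p ≤ s₂ + 1 / 4) :
    ∫ t in p..s, β (t - s₂) ≤ 1 := by
  rcases le_total (s₂ + 3 / 4) s with h | h
  · exact (bump_one hβ hp h).le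
  · have hc := bump_cont hβ s₂
    have h1 := intervalIntegral.integral_add_adjacent_intervals
      (hc.intervalIntegrable p s) (hc.intervalIntegrable (μ := volume) s (s₂ + 3 / 4))
    rw [bump_one hβ hp le_rfl] at h1
    have h2 : 0 ≤ ∫ t in s..(s₂ + 3 / 4), β (t - s₂) :=
      intervalIntegral.integral_nonneg h fun t _ => hβ.nonneg _
    linarith

lemma flux_theta (hA : Abs ε Ω vol w X Φ D S sb s₂ sM B₁ B₂) (h0 : 0 < ε) (h1 : ε ≤ 1 / 2)
    {β : ℝ → ℝ} (hβ : IsBump β) (hM : s₂ + 1 < sM) {θ : ℝ → ℝ} (hθ : Continuous θ)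
    (hθ0 : ∀ s, 0 ≤ θ s) {p q : ℝ} (hp : sb / 4 < p) (hpq : p < q) (hq : q ≤ s₂ + 1 / 4)
    (hsupp : ∀ s, s ≤ p ∨ q ≤ s → θ s = 0) :
    ∫ x in Ω, θ (w x) * (Real.exp (-w x) * X x ^ (1 + ε)) * vol x ≤
      (∫ s in p..q, θ s) * jInf ε β Ω vol w X s₂ := by
  set c : ℝ := ∫ s in p..q, θ s with hc
  have hc0 : 0 ≤ c := intervalIntegral.integral_nonneg hpq.le fun s _ => hθ0 s
  have hβc := bump_cont hβ s₂
  have hp4 : p ≤ s₂ + 1 / 4 := hpq.le.trans hq
  set Ψ : ℝ → ℝ := fun s => (∫ t in p..s, θ t) - c * ∫ t in p..s, β (t - s₂) with hΨ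
  have hd : ∀ s, HasDerivAt Ψ (θ s - c * β (s - s₂)) s := by
    intro s
    refine HasDerivAt.sub ?_ (HasDerivAt.const_mul c ?_)
    · exact (hθ.integral_hasStrictDerivAt p s).hasDerivAt
    · exact (hβc.integral_hasStrictDerivAt p s).hasDerivAt
  have hder : deriv Ψ = fun s => θ s - c * β (s - s₂) := funext fun s => (hd s).deriv
  have hC1 : ContDiff ℝ 1 Ψ := by
    rw [contDiff_one_iff_deriv]
    refine ⟨fun s => (hd s).differentiableAt, ?_⟩
    rw [hder]
    exact hθ.sub (continuous_const.mul hβc)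
  have hθlow : ∀ s, s ≤ p → ∫ t in p..s, θ t = 0 := by
    intro s hs
    have : Set.EqOn θ (fun _ => (0 : ℝ)) (Set.uIcc p s) := by
      intro t ht
      have h2 : t ≤ max p s := ht.2
      rw [max_eq_left hs] at h2
      exact hsupp t (Or.inl h2)
    rw [intervalIntegral.integral_congr this, intervalIntegral.integral_zero]
  have hθup : ∀ s, q ≤ s → ∫ t in p..s, θ t = c := by
    intro s hs
    have h2 := intervalIntegral.integral_add_adjacent_intervals
      (hθ.intervalIntegrable p q) (hθ.intervalIntegrable (μ := volume) q s)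
    have : Set.EqOn θ (fun _ => (0 : ℝ)) (Set.uIcc q s) := by
      intro t ht
      have h3 : min q s ≤ t := ht.1
      rw [min_eq_left hs] at h3
      exact hsupp t (Or.inr h3)
    rw [intervalIntegral.integral_congr this, intervalIntegral.integral_zero, add_zero] at h2
    exact h2.symm
  have hΨlow : ∀ s, s ≤ p → Ψ s = 0 := by
    intro s hs
    simp only [hΨ]
    rw [hθlow s hs, bump_zero hβ hp4 (hs.trans hp4)]
    ring
  have hΨup : ∀ s, s₂ + 3 / 4 ≤ s → Ψ s = 0 := by
    intro s hs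
    simp only [hΨ]
    rw [hθup s (by linarith), bump_one hβ hp4 hs]
    ring
  have hΨ0 : ∀ s, 0 ≤ Ψ s := by
    intro s
    rcases le_total s (s₂ + 1 / 4) with h | h
    · rcases le_total s p with h2 | h2
      · exact (hΨlow s h2).ge
      · simp only [hΨ]
        rw [bump_zero hβ hp4 h, mul_zero, sub_zero]
        exact intervalIntegral.integral_nonneg h2 fun t _ => hθ0 t
    · simp only [hΨ]
      rw [hθup s (hq.trans h)]
      have := mul_le_mul_of_nonneg_left (bump_le hβ hp4 (s := s)) hc0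
      linarith
  have hsub : Function.support Ψ ⊆ Set.Icc p (s₂ + 3 / 4) := by
    intro s hs
    constructor
    · by_contra hcon
      exact hs (hΨlow s (le_of_not_ge hcon))
    · by_contra hcon
      exact hs (hΨup s (le_of_not_ge hcon))
  have htsub : tsupport Ψ ⊆ Set.Icc p (s₂ + 3 / 4) := closure_minimal hsub isClosed_Icc
  have hcpt : HasCompactSupport Ψ :=
    isCompact_Icc.of_isClosed_subset (isClosed_tsupport Ψ) htsub
  have hts : tsupport Ψ ⊆ Set.Ioo (sb / 4) sM := htsub.trans fun s hs =>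
    ⟨hp.trans_le hs.1, hs.2.trans_lt (by linarith)⟩
  have hflux := hA.flux Ψ hC1 hΨ0 hcpt hts
  have i1 := int_theta hA h0 h1 hθ hp hpq (by linarith) (fun t ht => hsupp t (ht.imp le_of_lt le_of_lt))
  have i2 := int_theta hA h0 h1 hβc (s := (s₂ + 1 / 4)) (s' := s₂ + 3 / 4) (by linarith)
    (by linarith) (by linarith) (fun t ht => hβ.supp _ (ht.imp (fun h => by linarith)
      (fun h => by linarith)))
  have e1 : ∫ x in Ω, deriv Ψ (w x) * (Real.exp (-w x) * X x ^ (1 + ε)) * vol x =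
      (∫ x in Ω, θ (w x) * (Real.exp (-w x) * X x ^ (1 + ε)) * vol x) -
        c * jInf ε β Ω vol w X s₂ := by
    unfold jInf
    rw [← integral_const_mul, ← integral_sub i1 (i2.const_mul c)]
    refine integral_congr_ae (Eventually.of_forall fun x => ?_)
    simp only [hder]
    ring
  rw [e1] at hflux
  linarith

/-- the trapezoidal function times the exponential -/
noncomputable def trap (σ₁ σ₂ τ s : ℝ) : ℝ :=
  Real.exp s * max 0 (1 - max 0 (max (σ₁ - s) (s - σ₂)) / τ)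

lemma trap_cont (σ₁ σ₂ τ : ℝ) : Continuous (trap σ₁ σ₂ τ) := by
  unfold trap
  fun_prop

lemma trap_nonneg (σ₁ σ₂ τ s : ℝ) : 0 ≤ trap σ₁ σ₂ τ s :=
  mul_nonneg (Real.exp_pos s).le (le_max_left _ _)

lemma trap_le {σ₁ σ₂ τ : ℝ} (hτ : 0 < τ) (s : ℝ) : trap σ₁ σ₂ τ s ≤ Real.exp s := by
  have h1 : 0 ≤ max 0 (max (σ₁ - s) (s - σ₂)) / τ := div_nonneg (le_max_left _ _) hτ.le
  have h2 : max 0 (1 - max 0 (max (σ₁ - s) (s - σ₂)) / τ) ≤ 1 :=
    max_le zero_le_one (by linarith)
  calc trap σ₁ σ₂ τ s ≤ Real.exp s * 1 := mul_le_mul_of_nonneg_left h2 (Real.exp_pos s).le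
    _ = Real.exp s := mul_one _

lemma trap_eq {σ₁ σ₂ τ s : ℝ} (h1 : σ₁ ≤ s) (h2 : s ≤ σ₂) : trap σ₁ σ₂ τ s = Real.exp s := by
  have : max 0 (max (σ₁ - s) (s - σ₂)) = 0 :=
    max_eq_left (max_le (by linarith) (by linarith))
  unfold trap
  rw [this, zero_div, sub_zero, max_eq_right zero_le_one, mul_one]

lemma trap_zero {σ₁ σ₂ τ s : ℝ} (hτ : 0 < τ) (h : s ≤ σ₁ - τ ∨ σ₂ + τ ≤ s) :
    trap σ₁ σ₂ τ s = 0 := by
  have h1 : τ ≤ max 0 (max (σ₁ - s) (s - σ₂)) := by
    rcases h with h | h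
    · exact le_max_of_le_right (le_max_of_le_left (by linarith))
    · exact le_max_of_le_right (le_max_of_le_right (by linarith))
  have h2 : 1 ≤ max 0 (max (σ₁ - s) (s - σ₂)) / τ := by
    rwa [le_div_iff₀ hτ, one_mul]
  unfold trap
  rw [max_eq_left (by linarith), mul_zero]

end FLXAaux

open FLXAaux in
/-- FLXA: monotonicity of the flux. -/
theorem FLXA : Stmt_FLXA := by
  intro ε β h0 h1 hβ Ω vol w X Φ D S sb s₂ sM B₁ B₂ hA hsb hs₂ hM
  have hJ : 0 ≤ jInf ε β Ω vol w X s₂ := by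
    unfold jInf
    refine integral_nonneg fun x => ?_
    have k1 := hβ.nonneg (w x - s₂)
    have k2 : 0 ≤ X x ^ (1 + ε) := Real.rpow_nonneg (hA.X_nonneg x) _
    have k3 := hA.vol_nonneg x
    have k4 := (Real.exp_pos (-w x)).le
    positivity
  refine ⟨hJ, ?_⟩
  intro σ₁ σ₂ hσ₁ hσ hσ₂
  have hT : MeasurableSet {x : E3 | σ₁ ≤ w x ∧ w x ≤ σ₂} := hA.meas_w measurableSet_Icc
  have main : ∀ τ : ℝ, 0 < τ → τ ≤ 1 / 4 → sb / 4 < σ₁ - τ →
      ∫ x in Ω ∩ {x | σ₁ ≤ w x ∧ w x ≤ σ₂}, X x ^ (1 + ε) * vol x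
        ≤ jInf ε β Ω vol w X s₂ * (Real.exp (σ₂ + τ) - Real.exp (σ₁ - τ)) := by
    intro τ hτ hτ4 hτ1
    have hpq : σ₁ - τ < σ₂ + τ := by linarith
    have k1 := flux_theta hA h0 h1 hβ hM (trap_cont σ₁ σ₂ τ) (trap_nonneg σ₁ σ₂ τ) hτ1 hpq
      (by linarith) (fun s hs => trap_zero hτ hs)
    have k2 := int_theta hA h0 h1 (trap_cont σ₁ σ₂ τ) hτ1 hpq (by linarith)
      (fun t ht => trap_zero hτ (ht.imp le_of_lt le_of_lt))
    have k3 : ∫ s in (σ₁ - τ)..(σ₂ + τ), trap σ₁ σ₂ τ s ≤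
        Real.exp (σ₂ + τ) - Real.exp (σ₁ - τ) := by
      rw [← integral_exp]
      exact intervalIntegral.integral_mono_on hpq.le
        ((trap_cont σ₁ σ₂ τ).intervalIntegrable _ _)
        (Real.continuous_exp.intervalIntegrable _ _) (fun s _ => trap_le hτ s)
    calc ∫ x in Ω ∩ {x | σ₁ ≤ w x ∧ w x ≤ σ₂}, X x ^ (1 + ε) * vol x
        = ∫ x in Ω ∩ {x | σ₁ ≤ w x ∧ w x ≤ σ₂},
            trap σ₁ σ₂ τ (w x) * (Real.exp (-w x) * X x ^ (1 + ε)) * vol x := by
          refine setIntegral_congr_fun (hA.measOmega.inter hT) ?_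
          rintro x ⟨_, hx⟩
          simp only
          rw [trap_eq hx.1 hx.2, ← mul_assoc, ← Real.exp_add, add_neg_cancel, Real.exp_zero,
            one_mul]
      _ ≤ ∫ x in Ω, trap σ₁ σ₂ τ (w x) * (Real.exp (-w x) * X x ^ (1 + ε)) * vol x := by
          refine setIntegral_mono_set k2 (Eventually.of_forall fun x => ?_)
            (Eventually.of_forall (Set.inter_subset_left))
          have j1 := trap_nonneg σ₁ σ₂ τ (w x)
          have j2 : 0 ≤ X x ^ (1 + ε) := Real.rpow_nonneg (hA.X_nonneg x) _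
          have j3 := hA.vol_nonneg x
          have j4 := (Real.exp_pos (-w x)).le
          show (0 : ℝ) ≤ _
          positivity
      _ ≤ (∫ s in (σ₁ - τ)..(σ₂ + τ), trap σ₁ σ₂ τ s) * jInf ε β Ω vol w X s₂ := k1
      _ ≤ (Real.exp (σ₂ + τ) - Real.exp (σ₁ - τ)) * jInf ε β Ω vol w X s₂ :=
          mul_le_mul_of_nonneg_right k3 hJ
      _ = _ := mul_comm _ _
  have hlim : Tendsto (fun τ : ℝ => jInf ε β Ω vol w X s₂ *
      (Real.exp (σ₂ + τ) - Real.exp (σ₁ - τ))) (𝓝[>] 0)
      (𝓝 (jInf ε β Ω vol w X s₂ * (Real.exp σ₂ - Real.exp σ₁))) := by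
    have hc : Continuous (fun τ : ℝ => jInf ε β Ω vol w X s₂ *
      (Real.exp (σ₂ + τ) - Real.exp (σ₁ - τ))) := by fun_prop
    have := hc.tendsto 0
    rw [add_zero, sub_zero] at this
    exact this.mono_left nhdsWithin_le_nhds
  refine ge_of_tendsto hlim ?_
  have hpos : 0 < min (1 / 4) (σ₁ - sb / 4) := lt_min (by norm_num) (by linarith)
  filter_upwards [Ioo_mem_nhdsGT hpos] with τ hτ
  exact main τ hτ.1 (hτ.2.le.trans (min_le_left _ _))
    (by linarith [hτ.2.trans_le (min_le_right (1 / 4) (σ₁ - sb / 4))])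

end Pool.Agent.PFlow


end
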