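import Mathlib
import Pool.Agent.PFlow.StmtsM
import Pool.Agent.PenroseM.C05
import Pool.Agent.PenroseM.C12
import Pool.Agent.PenroseM.C21

/-! Parts: PFlow.G.ADAP, PFlow.M_FA, PFlow.M_GAU -/

section

/-!
# The leafwise objects in adapted coordinates, and the Gauss equation
-/

open MeasureTheory Filter Topology
open scoped ContDiff

namespace Pool.Agent.PFlow.GB

open Pool.Agent.PenroseSph Pool.Agent.PFlow
open Pool.Agent.PenroseConvex.COVC (pd_contDiffAt pd_comm)

namespace AD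

lemma posDef_symm {A : Matrix (Fin 3) (Fin 3) ℝ} (hA : A.PosDef) (i j : Fin 3) :
    A i j = A j i := by
  have h := hA.isHermitian.apply j i
  simpa using h

lemma posDef_quad {A : Matrix (Fin 3) (Fin 3) ℝ} (hA : A.PosDef) {v : Fin 3 → ℝ} (hv : v ≠ 0) :
    0 < ∑ i, ∑ j, A i j * v i * v j := by
  have h := hA.dotProduct_mulVec_pos hv
  have e : star v ⬝ᵥ A.mulVec v = ∑ i, ∑ j, A i j * v i * v j := by
    simp only [dotProduct, Matrix.mulVec, Finset.mul_sum]
    refine Finset.sum_congr rfl fun i _ => Finset.sum_congr rfl fun j _ => ?_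
    simp
    ring
  rw [e] at h
  exact h

lemma minor_pos {A : Matrix (Fin 3) (Fin 3) ℝ} (hA : A.PosDef) :
    0 < A 0 0 ∧ 0 < A 0 0 * A 1 1 - A 0 1 ^ 2 := by
  have h10 := posDef_symm hA 1 0
  have h0 : 0 < A 0 0 := by
    have h := posDef_quad hA (v := ![1, 0, 0]) (by
      intro h
      have := congrFun h 0
      simp at this)
    simpa [Fin.sum_univ_three] using h
  refine ⟨h0, ?_⟩
  have h := posDef_quad hA (v := ![-A 0 1, A 0 0, 0]) (by
      intro h
      have := congrFun h 1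
      simp at this
      exact h0.ne' this)
  simp only [Fin.sum_univ_three] at h
  simp [h10] at h
  have h2 : 0 < A 0 0 * (A 0 0 * A 1 1 - A 0 1 ^ 2) := by nlinarith [h]
  exact (pos_iff_pos_of_mul_pos h2).1 h0

lemma det_eq {A : Matrix (Fin 3) (Fin 3) ℝ} (hA : A.PosDef) :
    A.det = A 0 0 * A 1 1 * A 2 2 + 2 * A 0 1 * A 0 2 * A 1 2 - A 0 0 * A 1 2 ^ 2
      - A 1 1 * A 0 2 ^ 2 - A 2 2 * A 0 1 ^ 2 := by
  rw [Matrix.det_fin_three, posDef_symm hA 1 0, posDef_symm hA 2 0, posDef_symm hA 2 1]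
  ring

lemma inv_eq {A : Matrix (Fin 3) (Fin 3) ℝ} (hA : A.PosDef) :
    A⁻¹ 0 0 = (A 1 1 * A 2 2 - A 1 2 ^ 2) / A.det ∧
    A⁻¹ 0 1 = (A 0 2 * A 1 2 - A 0 1 * A 2 2) / A.det ∧
    A⁻¹ 0 2 = (A 0 1 * A 1 2 - A 0 2 * A 1 1) / A.det ∧
    A⁻¹ 1 1 = (A 0 0 * A 2 2 - A 0 2 ^ 2) / A.det ∧
    A⁻¹ 1 2 = (A 0 1 * A 0 2 - A 0 0 * A 1 2) / A.det ∧
    A⁻¹ 2 2 = (A 0 0 * A 1 1 - A 0 1 ^ 2) / A.det := by
  have hs : Ring.inverse A.det = A.det⁻¹ := by simp
  rw [Matrix.inv_def, hs, Matrix.adjugate_fin_three]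
  have h10 := posDef_symm hA 1 0
  have h20 := posDef_symm hA 2 0
  have h21 := posDef_symm hA 2 1
  refine ⟨?_, ?_, ?_, ?_, ?_, ?_⟩ <;> simp [h10, h20, h21] <;> ring

lemma inv_symm {A : Matrix (Fin 3) (Fin 3) ℝ} (hA : A.PosDef) (i j : Fin 3) :
    A⁻¹ i j = A⁻¹ j i := posDef_symm hA.inv i j

lemma grad_two (y : E3) : grad (fun z : E3 => z 2) y = ![0, 0, 1] := by
  funext i
  unfold grad
  rw [pd_coord]
  fin_cases i <;> simp

lemma hess_two (y : E3) (i j : Fin 3) : hess2 (fun z : E3 => z 2) y i j = 0 := by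
  unfold hess2
  simp only [Matrix.of_apply]
  have h : pd j (fun z : E3 => z 2) = fun _ => if j = 2 then 1 else 0 := by
    funext z
    exact pd_coord
  rw [h, pd_const]

lemma len_two (g : TensorField) (y : E3) :
    len g y ![0, 0, 1] = Real.sqrt ((g y)⁻¹ 2 2) := by
  unfold len ev
  simp [Fin.sum_univ_three]

lemma nrm_two (g : TensorField) (y : E3) (i : Fin 3) :
    nrm g y ![0, 0, 1] i = (g y)⁻¹ i 2 / Real.sqrt ((g y)⁻¹ 2 2) := by
  unfold nrm raise
  rw [len_two]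
  simp [Fin.sum_univ_three]

lemma inv22_pos {A : Matrix (Fin 3) (Fin 3) ℝ} (hA : A.PosDef) : 0 < A⁻¹ 2 2 := by
  rw [(inv_eq hA).2.2.2.2.2]
  exact div_pos (minor_pos hA).2 hA.det_pos

/-- The projected inverse metric. -/
lemma proj_eq {A : Matrix (Fin 3) (Fin 3) ℝ} (hA : A.PosDef) :
    A⁻¹ 0 0 - A⁻¹ 0 2 * A⁻¹ 0 2 / A⁻¹ 2 2 = A 1 1 / (A 0 0 * A 1 1 - A 0 1 ^ 2) ∧
    A⁻¹ 0 1 - A⁻¹ 0 2 * A⁻¹ 1 2 / A⁻¹ 2 2 = -A 0 1 / (A 0 0 * A 1 1 - A 0 1 ^ 2) ∧
    A⁻¹ 1 1 - A⁻¹ 1 2 * A⁻¹ 1 2 / A⁻¹ 2 2 = A 0 0 / (A 0 0 * A 1 1 - A 0 1 ^ 2) := by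
  have hD := hA.det_pos
  have hd := (minor_pos hA).2
  have hD' := det_eq hA
  obtain ⟨e00, e01, e02, e11, e12, e22⟩ := inv_eq hA
  rw [e00, e01, e02, e11, e12, e22]
  have hDn : A.det ≠ 0 := hD.ne'
  obtain ⟨q, hq⟩ : ∃ q, q = A 0 0 * A 1 1 - A 0 1 ^ 2 := ⟨_, rfl⟩
  rw [← hq] at hd ⊢
  have hdn : q ≠ 0 := hd.ne'
  refine ⟨?_, ?_, ?_⟩
  · field_simp
    rw [hD', hq]
    ring
  · field_simp
    rw [hD', hq]
    ring
  · field_simp
    rw [hD', hq]
    ring

lemma lip_two {g : TensorField} {y : E3} (hA : (g y).PosDef) (A B : Cov) :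
    lip g y ![0, 0, 1] A B =
      (g y 1 1 * (A 0 * B 0) - g y 0 1 * (A 0 * B 1 + A 1 * B 0) + g y 0 0 * (A 1 * B 1))
        / (g y 0 0 * g y 1 1 - g y 0 1 ^ 2) := by
  obtain ⟨h1, h2, h3⟩ := proj_eq hA
  have hp := inv22_pos hA
  have hs : Real.sqrt ((g y)⁻¹ 2 2) ≠ 0 := (Real.sqrt_pos.2 hp).ne'
  have hss : Real.sqrt ((g y)⁻¹ 2 2) ^ 2 = (g y)⁻¹ 2 2 := Real.sq_sqrt hp.le
  have s10 := inv_symm hA 1 0
  have s20 := inv_symm hA 2 0
  have s21 := inv_symm hA 2 1
  have key : lip g y ![0, 0, 1] A B =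
      ((g y)⁻¹ 0 0 - (g y)⁻¹ 0 2 * (g y)⁻¹ 0 2 / (g y)⁻¹ 2 2) * (A 0 * B 0)
      + ((g y)⁻¹ 0 1 - (g y)⁻¹ 0 2 * (g y)⁻¹ 1 2 / (g y)⁻¹ 2 2) * (A 0 * B 1 + A 1 * B 0)
      + ((g y)⁻¹ 1 1 - (g y)⁻¹ 1 2 * (g y)⁻¹ 1 2 / (g y)⁻¹ 2 2) * (A 1 * B 1) := by
    unfold lip ev
    simp only [nrm_two, Fin.sum_univ_three, s10, s20, s21]
    have hpn := hp.ne'
    generalize (g y)⁻¹ 2 2 = q at *
    generalize Real.sqrt q = s at *
    subst hss
    field_simp
    ring
  rw [key, h1, h2, h3]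
  ring

lemma dens_two {g : TensorField} {y : E3} (hA : (g y).PosDef) :
    dens g (fun z : E3 => z 2) y = Real.sqrt (dt2 g y) := by
  unfold dens volDen dt2
  rw [grad_two, len_two, ← Real.sqrt_mul (inv22_pos hA).le, (inv_eq hA).2.2.2.2.2,
    div_mul_cancel₀ _ hA.det_pos.ne']

lemma lgrad_two {g : TensorField} {y : E3} (hA : (g y).PosDef) (f : E3 → ℝ) :
    lgrad g (fun z : E3 => z 2) f y 0 = (g y 1 1 * pd 0 f y - g y 0 1 * pd 1 f y) / dt2 g y ∧
    lgrad g (fun z : E3 => z 2) f y 1 = (g y 0 0 * pd 1 f y - g y 0 1 * pd 0 f y) / dt2 g y ∧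
    lgrad g (fun z : E3 => z 2) f y 2 = 0 := by
  obtain ⟨h1, h2, h3⟩ := proj_eq hA
  have hp := inv22_pos hA
  have hs : Real.sqrt ((g y)⁻¹ 2 2) ≠ 0 := (Real.sqrt_pos.2 hp).ne'
  have hss : Real.sqrt ((g y)⁻¹ 2 2) ^ 2 = (g y)⁻¹ 2 2 := Real.sq_sqrt hp.le
  have s10 := inv_symm hA 1 0
  have s20 := inv_symm hA 2 0
  have s21 := inv_symm hA 2 1
  have hpn := hp.ne'
  unfold lgrad raise dt2
  simp only [grad_two, nrm_two, Fin.sum_univ_three, s10, s20, s21]
  refine ⟨?_, ?_, ?_⟩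
  · have : (g y 1 1 * pd 0 f y - g y 0 1 * pd 1 f y) / (g y 0 0 * g y 1 1 - g y 0 1 ^ 2) =
        g y 1 1 / (g y 0 0 * g y 1 1 - g y 0 1 ^ 2) * pd 0 f y
          + -g y 0 1 / (g y 0 0 * g y 1 1 - g y 0 1 ^ 2) * pd 1 f y := by ring
    rw [this, ← h1, ← h2]
    unfold grad
    generalize (g y)⁻¹ 2 2 = q at *
    generalize Real.sqrt q = s at *
    subst hss
    field_simp
    ring
  · have : (g y 0 0 * pd 1 f y - g y 0 1 * pd 0 f y) / (g y 0 0 * g y 1 1 - g y 0 1 ^ 2) =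
        g y 0 0 / (g y 0 0 * g y 1 1 - g y 0 1 ^ 2) * pd 1 f y
          + -g y 0 1 / (g y 0 0 * g y 1 1 - g y 0 1 ^ 2) * pd 0 f y := by ring
    rw [this, ← h3, ← h2]
    unfold grad
    generalize (g y)⁻¹ 2 2 = q at *
    generalize Real.sqrt q = s at *
    subst hss
    field_simp
    ring
  · unfold grad
    generalize (g y)⁻¹ 2 2 = q at *
    generalize Real.sqrt q = s at *
    subst hss
    field_simp
    ring

lemma lap_two {g : TensorField} {O : Set E3} (hO : IsOpen O) (hM : ∀ y ∈ O, (g y).PosDef)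
    {z : E3} (hz : z ∈ O) (f : E3 → ℝ) :
    lap g (fun y : E3 => y 2) f z = lap2 g f z := by
  unfold lap ldiv lap2
  rw [Fin.sum_univ_three, dens_two (hM z hz)]
  have hev : ∀ᶠ y in 𝓝 z, y ∈ O := hO.mem_nhds hz
  have e0 : (fun y => dens g (fun y : E3 => y 2) y * lgrad g (fun y : E3 => y 2) f y 0) =ᶠ[𝓝 z]
      fun y => (g y 1 1 * pd 0 f y - g y 0 1 * pd 1 f y) / Real.sqrt (dt2 g y) := by
    filter_upwards [hev] with y hy
    rw [dens_two (hM y hy), (lgrad_two (hM y hy) f).1]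
    have hd : 0 < dt2 g y := (minor_pos (hM y hy)).2
    have h1 : Real.sqrt (dt2 g y) ≠ 0 := (Real.sqrt_pos.2 hd).ne'
    have h2 : Real.sqrt (dt2 g y) ^ 2 = dt2 g y := Real.sq_sqrt hd.le
    generalize dt2 g y = q at *
    generalize Real.sqrt q = s at *
    subst h2
    field_simp
  have e1 : (fun y => dens g (fun y : E3 => y 2) y * lgrad g (fun y : E3 => y 2) f y 1) =ᶠ[𝓝 z]
      fun y => (g y 0 0 * pd 1 f y - g y 0 1 * pd 0 f y) / Real.sqrt (dt2 g y) := by
    filter_upwards [hev] with y hy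
    rw [dens_two (hM y hy), (lgrad_two (hM y hy) f).2.1]
    have hd : 0 < dt2 g y := (minor_pos (hM y hy)).2
    have h1 : Real.sqrt (dt2 g y) ≠ 0 := (Real.sqrt_pos.2 hd).ne'
    have h2 : Real.sqrt (dt2 g y) ^ 2 = dt2 g y := Real.sq_sqrt hd.le
    generalize dt2 g y = q at *
    generalize Real.sqrt q = s at *
    subst h2
    field_simp
  have e2 : (fun y => dens g (fun y : E3 => y 2) y * lgrad g (fun y : E3 => y 2) f y 2) =ᶠ[𝓝 z]
      fun _ => 0 := by
    filter_upwards [hev] with y hy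
    rw [(lgrad_two (hM y hy) f).2.2, mul_zero]
  rw [pd_congr e0, pd_congr e1, pd_congr e2, pd_const, add_zero]

lemma mul_cancel {A B : Matrix (Fin 3) (Fin 3) ℝ} (h : A * B = 1) (F : Fin 3 → ℝ) (n : Fin 3) :
    ∑ k, A n k * ∑ l, B k l * F l = F n := by
  have h1 : A.mulVec (B.mulVec F) = F := by rw [Matrix.mulVec_mulVec, h, Matrix.one_mulVec]
  have h2 := congrFun h1 n
  simpa [Matrix.mulVec, dotProduct] using h2

/-- The lower-index curvature in terms of the metric. -/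
lemma curv_alg (g : Fin 3 → Fin 3 → ℝ) (Γ : Fin 3 → Fin 3 → Fin 3 → ℝ)
    (dΓ : Fin 3 → Fin 3 → Fin 3 → Fin 3 → ℝ) (P L : Fin 3 → Fin 3 → Fin 3 → ℝ)
    (D : Fin 3 → Fin 3 → Fin 3 → Fin 3 → ℝ)
    (hL : ∀ n i j, L n i j = (P i n j + P j n i - P n i j) / 2)
    (hP : ∀ m n k, P m n k = P m k n) (hlow : ∀ n i j, ∑ k, g n k * Γ k i j = L n i j)
    (hd : ∀ m n i j, ∑ k, (g n k * dΓ m k i j + Γ k i j * P m n k)
      = (D m i n j + D m j n i - D m n i j) / 2)
    (hD : ∀ m i n j, D m i n j = D i m n j) (n i m j : Fin 3) :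
    ∑ k, g n k * (dΓ m k i j - dΓ j k i m + ∑ l, (Γ k m l * Γ l i j - Γ k j l * Γ l i m))
      = (D m i n j - D m n i j - D j i n m + D j n i m) / 2
        + ∑ k, (Γ k i m * L k j n - Γ k i j * L k m n) := by
  have h1 := hd m n i j
  have h2 := hd j n i m
  have h3 := fun l => hlow n m l
  have h4 := fun l => hlow n j l
  have h5 : ∀ k, L n m k = P m n k - L k m n := fun k => by
    rw [hL, hL, hP m n k, hP k m n, hP n m k]
    ring
  have h6 : ∀ k, L n j k = P j n k - L k j n := fun k => by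
    rw [hL, hL, hP j n k, hP k j n, hP n j k]
    ring
  have h7 := hD m j n i
  simp only [h5] at h3
  simp only [h6] at h4
  simp only [Fin.sum_univ_three] at *
  linear_combination h1 - h2 + Γ 0 i j * h3 0 + Γ 1 i j * h3 1 + Γ 2 i j * h3 2
    - Γ 0 i m * h4 0 - Γ 1 i m * h4 1 - Γ 2 i m * h4 2 + h7 / 2

lemma alg (G : Fin 3 → Fin 3 → ℝ) (hG : ∀ i j, G i j = G j i)
    (R : Fin 3 → Fin 3 → Fin 3 → Fin 3 → ℝ) (h1 : ∀ n i m j, R n i m j = -R i n m j)
    (h2 : ∀ n i m j, R n i m j = -R n i j m) :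
    (∑ i, ∑ j, G i j * ∑ k, ∑ n, G k n * R n i k j) * G 2 2 / 2 -
      ∑ i, ∑ j, G i 2 * G j 2 * ∑ k, ∑ n, G k n * R n i k j =
    (G 0 0 * G 1 1 * G 2 2 + 2 * G 0 1 * G 0 2 * G 1 2 - G 0 0 * G 1 2 ^ 2 -
      G 1 1 * G 0 2 ^ 2 - G 2 2 * G 0 1 ^ 2) * R 0 1 0 1 := by
  have z1 : ∀ n m j, R n n m j = 0 := fun n m j => by linarith [h1 n n m j]
  have z2 : ∀ n i m, R n i m m = 0 := fun n i m => by linarith [h2 n i m m]
  have s10 : G 1 0 = G 0 1 := hG 1 0
  have s20 : G 2 0 = G 0 2 := hG 2 0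
  have s21 : G 2 1 = G 1 2 := hG 2 1
  have a1 : ∀ m j, R 1 0 m j = -R 0 1 m j := fun m j => h1 1 0 m j
  have a2 : ∀ m j, R 2 0 m j = -R 0 2 m j := fun m j => h1 2 0 m j
  have a3 : ∀ m j, R 2 1 m j = -R 1 2 m j := fun m j => h1 2 1 m j
  have b1 : ∀ n i, R n i 1 0 = -R n i 0 1 := fun n i => h2 n i 1 0
  have b2 : ∀ n i, R n i 2 0 = -R n i 0 2 := fun n i => h2 n i 2 0
  have b3 : ∀ n i, R n i 2 1 = -R n i 1 2 := fun n i => h2 n i 2 1
  simp only [Fin.sum_univ_three, z1, z2, s10, s20, s21, a1, a2, a3, b1, b2, b3]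
  ring

/-- The second fundamental form part. -/
lemma alg2 (G H : Fin 3 → Fin 3 → ℝ) (hG : ∀ i j, G i j = G j i) (hH : ∀ i j, H i j = H j i)
    (hq : G 2 2 ≠ 0) :
    (∑ i, ∑ j, G i j * H i j) ^ 2 - (∑ i, ∑ j, ∑ k, ∑ l, G i k * G j l * H i j * H k l)
      - 2 * ((∑ i, ∑ j, H i j * G i 2 * G j 2) / G 2 2) * (∑ i, ∑ j, G i j * H i j)
      + 2 * ((∑ i, ∑ j, G i j * (∑ k, H i k * G k 2) * (∑ l, H j l * G l 2)) / G 2 2)
    = 2 * (H 0 0 * H 1 1 - H 0 1 ^ 2) *
      (G 0 0 * G 1 1 * G 2 2 + 2 * G 0 1 * G 0 2 * G 1 2 - G 0 0 * G 1 2 ^ 2 -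
      G 1 1 * G 0 2 ^ 2 - G 2 2 * G 0 1 ^ 2) / G 2 2 := by
  have s10 : G 1 0 = G 0 1 := hG 1 0
  have s20 : G 2 0 = G 0 2 := hG 2 0
  have s21 : G 2 1 = G 1 2 := hG 2 1
  have t10 : H 1 0 = H 0 1 := hH 1 0
  have t20 : H 2 0 = H 0 2 := hH 2 0
  have t21 : H 2 1 = H 1 2 := hH 2 1
  simp only [Fin.sum_univ_three, s10, s20, s21, t10, t20, t21]
  generalize G 0 0 = G00 at *
  generalize G 0 1 = G01 at *
  generalize G 0 2 = G02 at *
  generalize G 1 1 = G11 at *
  generalize G 1 2 = G12 at *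
  generalize G 2 2 = G22 at *
  field_simp
  ring

section

variable {g : TensorField} {O : Set E3} {z : E3}

lemma symm_near (hO : IsOpen O) (hM : ∀ y ∈ O, (g y).PosDef) (hz : z ∈ O) (i j : Fin 3) :
    (fun y => g y i j) =ᶠ[𝓝 z] fun y => g y j i := by
  filter_upwards [hO.mem_nhds hz] with y hy
  exact posDef_symm (hM y hy) i j

lemma pd_symm (hO : IsOpen O) (hM : ∀ y ∈ O, (g y).PosDef) (hz : z ∈ O) (m i j : Fin 3) :
    pd m (fun y => g y i j) z = pd m (fun y => g y j i) z :=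
  pd_congr (symm_near hO hM hz i j)

lemma chr_eq (hO : IsOpen O) (hM : ∀ y ∈ O, (g y).PosDef) (hz : z ∈ O) (k i j : Fin 3) :
    christoffel g k i j z = ∑ l, (g z)⁻¹ k l * gl g l i j z := by
  unfold christoffel gl
  rw [Finset.mul_sum]
  refine Finset.sum_congr rfl fun l _ => ?_
  rw [pd_symm hO hM hz i j l, pd_symm hO hM hz j i l]
  ring

lemma chr_symm (hO : IsOpen O) (hM : ∀ y ∈ O, (g y).PosDef) (hz : z ∈ O) (k i j : Fin 3) :
    christoffel g k i j z = christoffel g k j i z := by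
  unfold christoffel
  congr 1
  refine Finset.sum_congr rfl fun l _ => ?_
  rw [pd_symm hO hM hz l i j]
  ring

lemma low_eq (hO : IsOpen O) (hM : ∀ y ∈ O, (g y).PosDef) (hz : z ∈ O) (n i j : Fin 3) :
    ∑ k, g z n k * christoffel g k i j z = gl g n i j z := by
  have h1 : g z * (g z)⁻¹ = 1 := Matrix.mul_nonsing_inv _ (hM z hz).det_pos.ne'.isUnit
  rw [← mul_cancel h1 (fun l => gl g l i j z) n]
  exact Finset.sum_congr rfl fun k _ => by rw [chr_eq hO hM hz]

variable (hO : IsOpen O) (hM : ∀ y ∈ O, (g y).PosDef) (hz : z ∈ O)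
  (hs : ∀ i j, ContDiffAt ℝ ∞ (fun y => g y i j) z)
  (hi : ∀ i j, ContDiffAt ℝ ∞ (fun y => (g y)⁻¹ i j) z)

include hs in
lemma gl_smooth (n i j : Fin 3) : ContDiffAt ℝ ∞ (gl g n i j) z := by
  have h := fun m a b => pd_contDiffAt (hs a b) m
  unfold gl
  exact (((h i n j).add (h j n i)).sub (h n i j)).div_const 2

include hO hM hz hs hi in
lemma chr_smooth (k i j : Fin 3) : ContDiffAt ℝ ∞ (christoffel g k i j) z := by
  have e : christoffel g k i j =ᶠ[𝓝 z] fun y => ∑ l, (g y)⁻¹ k l * gl g l i j y := by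
    filter_upwards [hO.mem_nhds hz] with y hy
    exact chr_eq hO hM hy k i j
  refine ContDiffAt.congr_of_eventuallyEq ?_ e
  exact ContDiffAt.sum fun l _ => (hi k l).mul (gl_smooth hs l i j)

include hs in
lemma pd_gl (m n i j : Fin 3) : pd m (gl g n i j) z =
    (pd m (pd i (fun y => g y n j)) z + pd m (pd j (fun y => g y n i)) z
      - pd m (pd n (fun y => g y i j)) z) / 2 := by
  have h := fun m a b => (pd_contDiffAt (hs a b) m).differentiableAt (by simp)
  have e : gl g n i j = fun y => (pd i (fun y => g y n j) y + pd j (fun y => g y n i) y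
      - pd n (fun y => g y i j) y) * (1 / 2) := by
    funext y
    unfold gl
    ring
  rw [e, pd_mul_const (1 / 2) (((h i n j).fun_add (h j n i)).fun_sub (h n i j)),
    pd_sub ((h i n j).fun_add (h j n i)) (h n i j), pd_add (h i n j) (h j n i)]
  ring

include hO hM hz hs hi in
lemma pd_low (m n i j : Fin 3) :
    ∑ k, (g z n k * pd m (christoffel g k i j) z
      + christoffel g k i j z * pd m (fun y => g y n k) z) =
    (pd m (pd i (fun y => g y n j)) z + pd m (pd j (fun y => g y n i)) z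
      - pd m (pd n (fun y => g y i j)) z) / 2 := by
  rw [← pd_gl hs m n i j]
  have e : (fun y => ∑ k, g y n k * christoffel g k i j y) =ᶠ[𝓝 z] gl g n i j := by
    filter_upwards [hO.mem_nhds hz] with y hy
    exact low_eq hO hM hy n i j
  have hc := fun k => (chr_smooth hO hM hz hs hi k i j).differentiableAt (by simp)
  have hg := fun k => (hs n k).differentiableAt (by simp)
  rw [← pd_congr e, pd_sum _ (fun k y => g y n k * christoffel g k i j y)
    fun k _ => (hg k).fun_mul (hc k)]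
  refine Finset.sum_congr rfl fun k _ => ?_
  rw [pd_mul (hg k) (hc k)]

include hO hM hz in
lemma pd2_symm (m i a b : Fin 3) : pd m (pd i (fun y => g y a b)) z
    = pd m (pd i (fun y => g y b a)) z := by
  refine pd_congr ?_
  filter_upwards [hO.mem_nhds hz] with y hy
  exact pd_symm hO hM hy i a b

/-- The curvature with lower indices. -/
noncomputable def Rl (g : TensorField) (z : E3) (n i m j : Fin 3) : ℝ :=
  (pd m (pd i (fun y => g y n j)) z - pd m (pd n (fun y => g y i j)) z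
    - pd j (pd i (fun y => g y n m)) z + pd j (pd n (fun y => g y i m)) z) / 2
    + ∑ k, ∑ l, (g z)⁻¹ k l * (gl g l i m z * gl g k j n z - gl g l i j z * gl g k m n z)

include hO hM hz hs hi in
lemma ricci_eq (i j : Fin 3) : ricci g i j z = ∑ k, ∑ n, (g z)⁻¹ k n * Rl g z n i k j := by
  have h1 : (g z)⁻¹ * g z = 1 := Matrix.nonsing_inv_mul _ (hM z hz).det_pos.ne'.isUnit
  have key : ∀ n m, ∑ k, g z n k * (pd m (christoffel g k i j) z - pd j (christoffel g k i m) z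
      + ∑ l, (christoffel g k m l z * christoffel g l i j z
        - christoffel g k j l z * christoffel g l i m z)) = Rl g z n i m j := by
    intro n m
    have h := curv_alg (fun a b => g z a b) (fun k i j => christoffel g k i j z)
      (fun m k i j => pd m (christoffel g k i j) z) (fun m a b => pd m (fun y => g y a b) z)
      (fun n i j => gl g n i j z) (fun m i a b => pd m (pd i (fun y => g y a b)) z)
      (fun n i j => rfl) (fun m a b => pd_symm hO hM hz m a b)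
      (fun n i j => low_eq hO hM hz n i j) (fun m n i j => pd_low hO hM hz hs hi m n i j)
      (fun m i a b => pd_comm (hs a b) m i) n i m j
    rw [h]
    unfold Rl
    congr 1
    refine Finset.sum_congr rfl fun k _ => ?_
    rw [chr_eq hO hM hz k i m, chr_eq hO hM hz k i j, Finset.sum_mul, Finset.sum_mul,
      ← Finset.sum_sub_distrib]
    refine Finset.sum_congr rfl fun l _ => ?_
    ring
  unfold ricci
  refine Finset.sum_congr rfl fun k _ => ?_
  have h2 := mul_cancel h1 (fun k' => pd k (christoffel g k' i j) z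
    - pd j (christoffel g k' i k) z + ∑ l, (christoffel g k' k l z * christoffel g l i j z
        - christoffel g k' j l z * christoffel g l i k z)) k
  rw [← h2]
  exact Finset.sum_congr rfl fun n _ => by rw [key n k]

include hO hM hz in
lemma gl_symm (n i j : Fin 3) : gl g n i j z = gl g n j i z := by
  unfold gl
  rw [pd_symm hO hM hz n i j]
  ring

include hO hM hz in
lemma Rl_anti1 (n i m j : Fin 3) : Rl g z n i m j = -Rl g z i n m j := by
  unfold Rl
  have hG := fun a b => inv_symm (hM z hz) a b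
  have hg := fun a b c => gl_symm hO hM hz a b c
  have h : ∑ k, ∑ l, (g z)⁻¹ k l * (gl g l i m z * gl g k j n z - gl g l i j z * gl g k m n z)
      = -∑ k, ∑ l, (g z)⁻¹ k l * (gl g l n m z * gl g k j i z - gl g l n j z * gl g k m i z) := by
    rw [← Finset.sum_neg_distrib, Finset.sum_comm]
    refine Finset.sum_congr rfl fun k _ => ?_
    rw [← Finset.sum_neg_distrib]
    refine Finset.sum_congr rfl fun l _ => ?_
    rw [hG l k, hg k i m, hg l j n, hg k i j, hg l m n]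
    ring
  rw [h]
  ring

lemma Rl_anti2 (n i m j : Fin 3) : Rl g z n i m j = -Rl g z n i j m := by
  unfold Rl
  have h : ∑ k, ∑ l, (g z)⁻¹ k l * (gl g l i m z * gl g k j n z - gl g l i j z * gl g k m n z)
      = -∑ k, ∑ l, (g z)⁻¹ k l * (gl g l i j z * gl g k m n z - gl g l i m z * gl g k j n z) := by
    rw [← Finset.sum_neg_distrib]
    refine Finset.sum_congr rfl fun k _ => ?_
    rw [← Finset.sum_neg_distrib]
    refine Finset.sum_congr rfl fun l _ => ?_
    ring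
  rw [h]
  ring

include hO hM hz hs hi in
/-- The Gauss equation in adapted coordinates. -/
lemma gauss_two : curv g (fun y : E3 => y 2) z = K2 g z := by
  have hA := hM z hz
  have hp := inv22_pos hA
  have hpn := hp.ne'
  have hs0 : Real.sqrt ((g z)⁻¹ 2 2) ≠ 0 := (Real.sqrt_pos.2 hp).ne'
  have hss : Real.sqrt ((g z)⁻¹ 2 2) ^ 2 = (g z)⁻¹ 2 2 := Real.sq_sqrt hp.le
  have hd : 0 < dt2 g z := (minor_pos hA).2
  have hG := fun a b => inv_symm hA a b
  -- the determinant of the inverse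
  have hdet : (g z)⁻¹ 0 0 * (g z)⁻¹ 1 1 * (g z)⁻¹ 2 2
      + 2 * (g z)⁻¹ 0 1 * (g z)⁻¹ 0 2 * (g z)⁻¹ 1 2 - (g z)⁻¹ 0 0 * (g z)⁻¹ 1 2 ^ 2
      - (g z)⁻¹ 1 1 * (g z)⁻¹ 0 2 ^ 2 - (g z)⁻¹ 2 2 * (g z)⁻¹ 0 1 ^ 2
      = (g z)⁻¹ 2 2 / dt2 g z := by
    rw [← det_eq hA.inv, Matrix.det_nonsing_inv, (inv_eq hA).2.2.2.2.2]
    unfold dt2
    unfold dt2 at hd
    have h1 := hA.det_pos.ne'
    rw [Ring.inverse_eq_inv', div_div_cancel_left' hd.ne']
  -- the intrinsic part
  have h1 : scalarCurvature g z / 2 - bnn g z ![0, 0, 1] (ric g z) = Rl g z 0 1 0 1 / dt2 g z := by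
    have ha := alg (fun i j => (g z)⁻¹ i j) hG (Rl g z)
      (fun n i m j => Rl_anti1 hO hM hz n i m j) (fun n i m j => Rl_anti2 n i m j)
    have hr := fun i j => ricci_eq hO hM hz hs hi i j
    simp only [← hr] at ha
    rw [hdet] at ha
    have hb : bnn g z ![0, 0, 1] (ric g z) =
        (∑ i, ∑ j, (g z)⁻¹ i 2 * (g z)⁻¹ j 2 * ricci g i j z) / (g z)⁻¹ 2 2 := by
      unfold bnn ev ric
      simp only [nrm_two, Matrix.of_apply]
      rw [Finset.sum_div]
      refine Finset.sum_congr rfl fun i _ => ?_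
      rw [Finset.sum_div]
      refine Finset.sum_congr rfl fun j _ => ?_
      generalize Real.sqrt ((g z)⁻¹ 2 2) = s at *
      rw [← hss]
      field_simp
    rw [hb]
    unfold scalarCurvature
    generalize (∑ i, ∑ j, (g z)⁻¹ i 2 * (g z)⁻¹ j 2 * ricci g i j z) = S2 at *
    generalize (∑ i, ∑ j, (g z)⁻¹ i j * ricci g i j z) = S1 at *
    field_simp
    field_simp at ha
    linarith
  -- the Hessian
  have hH : ∀ i j, cHess g z ![0, 0, 1] (hess2 (fun y : E3 => y 2) z) i j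
      = -christoffel g 2 i j z := by
    intro i j
    unfold cHess
    simp only [Matrix.of_apply]
    rw [hess_two]
    simp [Fin.sum_univ_three]
  have h2 := alg2 (fun i j => (g z)⁻¹ i j)
    (fun i j => cHess g z ![0, 0, 1] (hess2 (fun y : E3 => y 2) z) i j) hG
    (fun i j => by simp only [hH]; rw [chr_symm hO hM hz]) hpn
  rw [hdet] at h2
  have h3 : (trg g z (cHess g z ![0, 0, 1] (hess2 (fun y : E3 => y 2) z)) ^ 2
      - nsq g z (cHess g z ![0, 0, 1] (hess2 (fun y : E3 => y 2) z))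
      - 2 * bnn g z ![0, 0, 1] (cHess g z ![0, 0, 1] (hess2 (fun y : E3 => y 2) z))
          * trg g z (cHess g z ![0, 0, 1] (hess2 (fun y : E3 => y 2) z))
      + 2 * ev (g z)⁻¹
          (contr (cHess g z ![0, 0, 1] (hess2 (fun y : E3 => y 2) z)) (nrm g z ![0, 0, 1]))
          (contr (cHess g z ![0, 0, 1] (hess2 (fun y : E3 => y 2) z)) (nrm g z ![0, 0, 1])))
      / (2 * len g z ![0, 0, 1] ^ 2) =
      (christoffel g 2 0 0 z * christoffel g 2 1 1 z - christoffel g 2 0 1 z ^ 2)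
        / ((g z)⁻¹ 2 2 * dt2 g z) := by
    simp only [hH] at h2
    generalize cHess g z ![0, 0, 1] (hess2 (fun y : E3 => y 2) z) = H at *
    have hb : bnn g z ![0, 0, 1] H =
        (∑ i, ∑ j, H i j * (g z)⁻¹ i 2 * (g z)⁻¹ j 2) / (g z)⁻¹ 2 2 := by
      unfold bnn ev
      simp only [nrm_two]
      rw [Finset.sum_div]
      refine Finset.sum_congr rfl fun i _ => ?_
      rw [Finset.sum_div]
      refine Finset.sum_congr rfl fun j _ => ?_
      generalize Real.sqrt ((g z)⁻¹ 2 2) = s at *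
      rw [← hss]
      field_simp
    have hc : ev (g z)⁻¹ (contr H (nrm g z ![0, 0, 1])) (contr H (nrm g z ![0, 0, 1])) =
        (∑ i, ∑ j, (g z)⁻¹ i j * (∑ k, H i k * (g z)⁻¹ k 2) * (∑ l, H j l * (g z)⁻¹ l 2))
          / (g z)⁻¹ 2 2 := by
      unfold ev contr
      simp only [nrm_two]
      rw [Finset.sum_div]
      refine Finset.sum_congr rfl fun i _ => ?_
      rw [Finset.sum_div]
      refine Finset.sum_congr rfl fun j _ => ?_
      simp only [Fin.sum_univ_three]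
      generalize Real.sqrt ((g z)⁻¹ 2 2) = s at *
      rw [← hss]
      field_simp
    rw [hb, hc, len_two, hss]
    unfold trg nsq
    simp only [hH]
    rw [h2]
    field_simp
  unfold curv gaussK
  rw [grad_two, h1, h3]
  -- the final identity
  have hd0 := hd.ne'
  obtain ⟨e1, e2, e3⟩ := proj_eq hA
  have hc := fun i j => chr_eq hO hM hz 2 i j
  have s10 := hG 1 0
  have s20 := hG 2 0
  have s21 := hG 2 1
  have c1 : pd 1 (pd 0 (fun y => g y 1 0)) z = pd 0 (pd 1 (fun y => g y 0 1)) z := by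
    rw [pd_comm (hs 1 0) 1 0, pd2_symm hO hM hz 0 1 1 0]
  have g0 := gl_symm hO hM hz 0 1 0
  have g1 := gl_symm hO hM hz 1 1 0
  have g2 := gl_symm hO hM hz 2 1 0
  unfold K2 Rl
  simp only [hc, c1]
  have e1' : (g z)⁻¹ 0 0 = g z 1 1 / dt2 g z + (g z)⁻¹ 0 2 * (g z)⁻¹ 0 2 / (g z)⁻¹ 2 2 := by
    unfold dt2
    rw [← e1]
    ring
  have e2' : (g z)⁻¹ 0 1 = -g z 0 1 / dt2 g z + (g z)⁻¹ 0 2 * (g z)⁻¹ 1 2 / (g z)⁻¹ 2 2 := by
    unfold dt2
    rw [← e2]
    ring
  have e3' : (g z)⁻¹ 1 1 = g z 0 0 / dt2 g z + (g z)⁻¹ 1 2 * (g z)⁻¹ 1 2 / (g z)⁻¹ 2 2 := by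
    unfold dt2
    rw [← e3]
    ring
  simp only [Fin.sum_univ_three, g0, g1, g2, s10, s20, s21, e1', e2', e3']
  generalize (g z)⁻¹ 0 2 = a at *
  generalize (g z)⁻¹ 1 2 = b at *
  generalize (g z)⁻¹ 2 2 = q at *
  generalize dt2 g z = d at *
  field_simp
  ring

end

end AD

theorem ADAP (hSMO : Stmt_SMO) : Stmt_ADAP := by
  intro g z hR
  obtain ⟨-, -, -, -, hs, hi, -⟩ := hSMO.2 g _ z hR
  obtain ⟨O, hO, hz, hm, -, -⟩ := hR
  have hM : ∀ y ∈ O, (g y).PosDef := hm.posDef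
  refine ⟨(AD.minor_pos (hM z hz)).2, ?_, ?_, AD.gauss_two hO hM hz hs hi⟩
  · intro f h _ _
    unfold lin lin2 dt2
    rw [AD.grad_two, AD.lip_two (hM z hz)]
    rfl
  · intro f _
    exact AD.lap_two hO hM hz f

end Pool.Agent.PFlow.GB


end

section

/-!
# FA: the filled functions are Lipschitz and truncated
-/

open MeasureTheory Filter Topology

namespace Pool.Agent.PFlow

open Pool.Agent.PenroseSph

namespace MFA

theorem rank_E3 : 1 < Module.rank ℝ E3 := by
  rw [← Module.finrank_eq_rank, finrank_euclideanSpace, Fintype.card_fin]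
  norm_num

/-- The outside of a ball is preconnected. -/
theorem outside_preconnected {b : ℝ} (hb : 0 < b) : IsPreconnected {x : E3 | b ≤ ‖x‖} := by
  have h1 : IsPreconnected ((Metric.sphere (0 : E3) 1) ×ˢ (Set.Ici b)) :=
    (isPreconnected_sphere rank_E3 0 1).prod isPreconnected_Ici
  have h2 : Continuous fun p : E3 × ℝ => p.2 • p.1 := continuous_snd.smul continuous_fst
  have h3 := h1.image _ h2.continuousOn
  have h4 : (fun p : E3 × ℝ => p.2 • p.1) '' ((Metric.sphere (0 : E3) 1) ×ˢ (Set.Ici b)) =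
      {x : E3 | b ≤ ‖x‖} := by
    ext x
    constructor
    · rintro ⟨⟨u, t⟩, ⟨hu, ht⟩, rfl⟩
      have hu' : ‖u‖ = 1 := by simpa using hu
      have ht' : b ≤ t := ht
      show b ≤ ‖t • u‖
      rw [norm_smul, hu', mul_one, Real.norm_of_nonneg (by linarith)]
      exact ht'
    · intro hx
      have hx' : b ≤ ‖x‖ := hx
      have h0 : 0 < ‖x‖ := by linarith
      refine ⟨(‖x‖⁻¹ • x, ‖x‖), ⟨?_, hx'⟩, ?_⟩
      · show ‖x‖⁻¹ • x ∈ Metric.sphere (0 : E3) 1
        rw [mem_sphere_zero_iff_norm, norm_smul, norm_inv, norm_norm, inv_mul_cancel₀ h0.ne']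
      · show ‖x‖ • (‖x‖⁻¹ • x) = x
        rw [smul_smul, mul_inv_cancel₀ h0.ne', one_smul]
  rwa [h4] at h3

/-- Adding a segment. -/
theorem conn_segment {A A' : Set E3} {y y' z : E3} (h : Conn A y z) (hA : A ⊆ A')
    (hs : segment ℝ y y' ⊆ A') : Conn A' y' z := by
  obtain ⟨S, hS, hp, hy, hz⟩ := h
  exact ⟨S ∪ segment ℝ y y', Set.union_subset (hS.trans hA) hs,
    IsPreconnected.union y hy (left_mem_segment ℝ y y') hp (convex_segment y y').isPreconnected,
    Or.inr (right_mem_segment ℝ y y'), Or.inl hz⟩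

theorem lip_segment {W : E3 → ℝ} {C : NNReal} (h : LipschitzWith C W) {y y' z : E3}
    (hz : z ∈ segment ℝ y y') : |W z - W y| ≤ C * ‖y' - y‖ := by
  have h1 := h.dist_le_mul z y
  rw [Real.dist_eq, dist_eq_norm] at h1
  exact h1.trans (mul_le_mul_of_nonneg_left (norm_sub_le_of_mem_segment hz) C.2)

section A

variable {a' b' s₀ s₁ : ℝ} {W : E3 → ℝ} {C : NNReal} {z₁ : E3}

theorem setA_s0 (hT : Trunc a' b' s₀ s₁ W) (y : E3) :
    s₀ ∈ {c : ℝ | s₀ ≤ c ∧ Conn {z | c ≤ W z} y z₁} :=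
  ⟨le_rfl, Set.univ, fun z _ => hT.lower z, isPreconnected_univ, Set.mem_univ _, Set.mem_univ _⟩

theorem setA_le {c : ℝ} {y : E3} (h : Conn {z | c ≤ W z} y z₁) : c ≤ W y := by
  obtain ⟨S, hS, _, hy, _⟩ := h
  exact hS hy

theorem setA_bdd (y : E3) : BddAbove {c : ℝ | s₀ ≤ c ∧ Conn {z | c ≤ W z} y z₁} :=
  ⟨W y, fun _ hc => setA_le hc.2⟩

theorem fillA_le (hT : Trunc a' b' s₀ s₁ W) (y : E3) : fillA W s₀ z₁ y ≤ W y :=
  csSup_le ⟨s₀, setA_s0 hT y⟩ fun _ hc => setA_le hc.2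

theorem le_fillA {c : ℝ} {y : E3} (h : s₀ ≤ c ∧ Conn {z | c ≤ W z} y z₁) :
    c ≤ fillA W s₀ z₁ y := le_csSup (setA_bdd y) h

theorem s0_le_fillA (hT : Trunc a' b' s₀ s₁ W) (y : E3) : s₀ ≤ fillA W s₀ z₁ y :=
  le_fillA (setA_s0 hT y)

theorem fillA_lip1 (hT : Trunc a' b' s₀ s₁ W) (hL : LipschitzWith C W) (y y' : E3) :
    fillA W s₀ z₁ y - C * ‖y' - y‖ ≤ fillA W s₀ z₁ y' := by
  rw [sub_le_iff_le_add]
  refine csSup_le ⟨s₀, setA_s0 hT y⟩ ?_
  rintro c ⟨hc, hconn⟩
  have h0 : 0 ≤ C * ‖y' - y‖ := mul_nonneg C.2 (norm_nonneg _)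
  have h1 : max s₀ (c - C * ‖y' - y‖) ≤ fillA W s₀ z₁ y' := by
    refine le_fillA ⟨le_max_left _ _, conn_segment hconn ?_ ?_⟩
    · intro z hz
      have hz' : c ≤ W z := hz
      exact max_le (hc.trans hz') (by linarith)
    · intro z hz
      have h2 := lip_segment hL hz
      have h3 := setA_le hconn
      have h4 := (abs_le.1 h2).1
      exact max_le (hT.lower z) (by linarith)
  have h2 := (le_max_right s₀ (c - C * ‖y' - y‖)).trans h1
  linarith

theorem fillA_lip (hT : Trunc a' b' s₀ s₁ W) (hL : LipschitzWith C W) :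
    LipschitzWith C (fillA W s₀ z₁) := by
  refine LipschitzWith.of_dist_le_mul fun y y' => ?_
  rw [Real.dist_eq, dist_eq_norm, abs_le]
  have h1 := fillA_lip1 (z₁ := z₁) hT hL y y'
  have h2 := fillA_lip1 (z₁ := z₁) hT hL y' y
  have h3 : ‖y' - y‖ = ‖y - y'‖ := norm_sub_rev _ _
  rw [h3] at h1
  constructor <;> linarith

theorem fillA_trunc (hT : Trunc a' b' s₀ s₁ W) (hL : LipschitzWith C W) (hz : b' ≤ ‖z₁‖) :
    Trunc a' b' s₀ s₁ (fillA W s₀ z₁) where
  pos := hT.pos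
  lt := hT.lt
  lts := hT.lts
  cont := (fillA_lip hT hL).continuous
  lower := s0_le_fillA hT
  upper := fun x => (fillA_le hT x).trans (hT.upper x)
  inner := fun x hx => le_antisymm ((fillA_le hT x).trans (hT.inner x hx).le) (s0_le_fillA hT x)
  outer := fun x hx => by
    refine le_antisymm ((fillA_le hT x).trans (hT.upper x)) (le_fillA ⟨hT.lts.le, ?_⟩)
    exact ⟨{x | b' ≤ ‖x‖}, fun z hz => (hT.outer z hz).ge,
      outside_preconnected (hT.pos.trans hT.lt), hx, hz⟩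

end A

section B

variable {a' b' s₀ s₁ : ℝ} {W : E3 → ℝ} {C : NNReal}

theorem setB_s1 {z₀ : E3} (hT : Trunc a' b' s₀ s₁ W) (y : E3) :
    s₁ ∈ {c : ℝ | c ≤ s₁ ∧ Conn {z | W z ≤ c} y z₀} :=
  ⟨le_rfl, Set.univ, fun z _ => hT.upper z, isPreconnected_univ, Set.mem_univ _, Set.mem_univ _⟩

theorem setB_ge {z₀ : E3} {c : ℝ} {y : E3} (h : Conn {z | W z ≤ c} y z₀) : W y ≤ c := by
  obtain ⟨S, hS, _, hy, _⟩ := h
  exact hS hy

theorem setB_bdd {z₀ : E3} (y : E3) : BddBelow {c : ℝ | c ≤ s₁ ∧ Conn {z | W z ≤ c} y z₀} :=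
  ⟨W y, fun _ hc => setB_ge hc.2⟩

theorem le_fillB {z₀ : E3} (hT : Trunc a' b' s₀ s₁ W) (y : E3) : W y ≤ fillB W s₁ z₀ y :=
  le_csInf ⟨s₁, setB_s1 hT y⟩ fun _ hc => setB_ge hc.2

theorem fillB_le {z₀ : E3} {c : ℝ} {y : E3} (h : c ≤ s₁ ∧ Conn {z | W z ≤ c} y z₀) :
    fillB W s₁ z₀ y ≤ c := csInf_le (setB_bdd y) h

theorem fillB_le_s1 {z₀ : E3} (hT : Trunc a' b' s₀ s₁ W) (y : E3) : fillB W s₁ z₀ y ≤ s₁ :=
  fillB_le (setB_s1 hT y)

theorem fillB_lip1 {z₀ : E3} (hT : Trunc a' b' s₀ s₁ W) (hL : LipschitzWith C W) (y y' : E3) :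
    fillB W s₁ z₀ y' ≤ fillB W s₁ z₀ y + C * ‖y' - y‖ := by
  rw [← sub_le_iff_le_add]
  refine le_csInf ⟨s₁, setB_s1 hT y⟩ ?_
  rintro c ⟨hc, hconn⟩
  have h0 : 0 ≤ C * ‖y' - y‖ := mul_nonneg C.2 (norm_nonneg _)
  have h1 : fillB W s₁ z₀ y' ≤ min s₁ (c + C * ‖y' - y‖) := by
    refine fillB_le ⟨min_le_left _ _, conn_segment hconn ?_ ?_⟩
    · intro z hz
      have hz' : W z ≤ c := hz
      exact le_min (hz'.trans hc) (by linarith)
    · intro z hz
      have h2 := lip_segment hL hz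
      have h3 := setB_ge hconn
      have h4 := (abs_le.1 h2).2
      exact le_min (hT.upper z) (by linarith)
  have h2 := h1.trans (min_le_right s₁ (c + C * ‖y' - y‖))
  linarith

theorem fillB_lip {z₀ : E3} (hT : Trunc a' b' s₀ s₁ W) (hL : LipschitzWith C W) :
    LipschitzWith C (fillB W s₁ z₀) := by
  refine LipschitzWith.of_dist_le_mul fun y y' => ?_
  rw [Real.dist_eq, dist_eq_norm, abs_le]
  have h1 := fillB_lip1 (z₀ := z₀) hT hL y y'
  have h2 := fillB_lip1 (z₀ := z₀) hT hL y' y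
  have h3 : ‖y' - y‖ = ‖y - y'‖ := norm_sub_rev _ _
  rw [h3] at h1
  constructor <;> linarith

theorem fillB_trunc (hT : Trunc a' b' s₀ s₁ W) (hL : LipschitzWith C W) :
    Trunc a' b' s₀ s₁ (fillB W s₁ 0) where
  pos := hT.pos
  lt := hT.lt
  lts := hT.lts
  cont := (fillB_lip hT hL).continuous
  lower := fun x => (hT.lower x).trans (le_fillB hT x)
  upper := fillB_le_s1 hT
  inner := fun x hx => by
    refine le_antisymm (fillB_le ⟨hT.lts.le, ?_⟩) ((hT.lower x).trans (le_fillB hT x))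
    refine ⟨Metric.closedBall 0 a', fun z hz => ?_, (convex_closedBall 0 a').isPreconnected,
      mem_closedBall_zero_iff.2 hx, Metric.mem_closedBall_self hT.pos.le⟩
    exact (hT.inner z (mem_closedBall_zero_iff.1 hz)).le
  outer := fun x hx => le_antisymm (fillB_le_s1 hT x) ((hT.outer x hx).ge.trans (le_fillB hT x))

end B

end MFA

theorem FA : Stmt_FA := by
  intro a' b' s₀ s₁ W C z₁ hT hL hz
  have h1 := MFA.fillA_lip (z₁ := z₁) hT hL
  have h2 := MFA.fillA_trunc hT hL hz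
  exact ⟨h1, MFA.fillB_lip h2 h1, MFA.fillA_le hT, MFA.le_fillB h2, h2, MFA.fillB_trunc h2 h1⟩

end Pool.Agent.PFlow


end

section

/-!
# Module GAU of block M

The map `r(v) grad v / |grad v|` covers the shell `{|y| - 1 + s₀ in supp}`; the area formula
inequality and polar coordinates give the Willmore inequality integrated over the levels.
-/

open MeasureTheory Filter Topology
open scoped ContDiff

namespace Pool.Agent.PFlow

open Pool.Agent.PenroseSph

namespace MGAU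

/-- The quadratic form of the cofactor matrix. -/
def cofq (p : Cov) (M : Bil) : ℝ :=
  p 0 * p 0 * (M 1 1 * M 2 2 - M 1 2 * M 1 2) + p 1 * p 1 * (M 0 0 * M 2 2 - M 0 2 * M 0 2)
    + p 2 * p 2 * (M 0 0 * M 1 1 - M 0 1 * M 0 1)
    + 2 * (p 0 * p 1 * (M 0 2 * M 1 2 - M 0 1 * M 2 2)
      + p 0 * p 2 * (M 0 1 * M 1 2 - M 0 2 * M 1 1)
      + p 1 * p 2 * (M 0 1 * M 0 2 - M 0 0 * M 1 2))

/-- The discriminant inequality for a positive semidefinite pair. -/
theorem disc (A B C : ℝ) (h : ∀ s t : ℝ, 0 ≤ A * s * s + 2 * B * s * t + C * t * t) :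
    0 ≤ A * C - B * B := by
  have h1 : discrim A (2 * B) C ≤ 0 := by
    refine discrim_le_zero fun x => ?_
    have := h x 1
    nlinarith [this]
  unfold discrim at h1
  nlinarith [h1]

/-- Quadratic form written out. -/
theorem ev_explicit (M : Bil) (v w : Cov) : ev M v w =
    M 0 0 * v 0 * w 0 + M 0 1 * v 0 * w 1 + M 0 2 * v 0 * w 2
    + (M 1 0 * v 1 * w 0 + M 1 1 * v 1 * w 1 + M 1 2 * v 1 * w 2)
    + (M 2 0 * v 2 * w 0 + M 2 1 * v 2 * w 1 + M 2 2 * v 2 * w 2) := by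
  simp only [ev, Fin.sum_univ_three]

theorem cof_nonneg (p : Cov) (M : Bil) (h01 : M 1 0 = M 0 1) (h02 : M 2 0 = M 0 2)
    (h12 : M 2 1 = M 1 2) (hp : 0 < vsq p)
    (h : ∀ t : Cov, p 0 * t 0 + p 1 * t 1 + p 2 * t 2 = 0 → 0 ≤ ev M t t) :
    0 ≤ cofq p M := by
  have key : ∀ f f' : Cov, p 0 * f 0 + p 1 * f 1 + p 2 * f 2 = 0 →
      p 0 * f' 0 + p 1 * f' 1 + p 2 * f' 2 = 0 →
      0 ≤ ev M f f * ev M f' f' - ev M f f' * ev M f f' := by
    intro f f' hf hf'
    refine disc _ _ _ fun s t => ?_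
    have h1 := h (fun i => s * f i + t * f' i) (by
      linear_combination s * hf + t * hf')
    have h2 : ev M (fun i => s * f i + t * f' i) (fun i => s * f i + t * f' i)
        = ev M f f * s * s + 2 * ev M f f' * s * t + ev M f' f' * t * t := by
      simp only [ev_explicit, h01, h02, h12]
      ring
    rw [h2] at h1
    exact h1
  have k0 := key ![p 2, 0, - p 0] ![- p 1, p 0, 0] (by simp; ring) (by simp; ring)
  have k1 := key ![0, - p 2, p 1] ![- p 1, p 0, 0] (by simp; ring) (by simp; ring)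
  have k2 := key ![0, - p 2, p 1] ![p 2, 0, - p 0] (by simp; ring) (by simp; ring)
  have e : vsq p * cofq p M
      = (ev M ![p 2, 0, - p 0] ![p 2, 0, - p 0] * ev M ![- p 1, p 0, 0] ![- p 1, p 0, 0]
        - ev M ![p 2, 0, - p 0] ![- p 1, p 0, 0] * ev M ![p 2, 0, - p 0] ![- p 1, p 0, 0])
      + (ev M ![0, - p 2, p 1] ![0, - p 2, p 1] * ev M ![- p 1, p 0, 0] ![- p 1, p 0, 0]
        - ev M ![0, - p 2, p 1] ![- p 1, p 0, 0] * ev M ![0, - p 2, p 1] ![- p 1, p 0, 0])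
      + (ev M ![0, - p 2, p 1] ![0, - p 2, p 1] * ev M ![p 2, 0, - p 0] ![p 2, 0, - p 0]
        - ev M ![0, - p 2, p 1] ![p 2, 0, - p 0] * ev M ![0, - p 2, p 1] ![p 2, 0, - p 0]) := by
    simp only [ev_explicit, h01, h02, h12, vsq, cofq, Fin.sum_univ_three]
    simp
    ring
  have : 0 ≤ vsq p * cofq p M := by rw [e]; linarith
  exact (mul_nonneg_iff_of_pos_left hp).mp this

theorem cof_le (p : Cov) (M : Bil) (h01 : M 1 0 = M 0 1) (h02 : M 2 0 = M 0 2)
    (h12 : M 2 1 = M 1 2) (hp : 0 < vsq p) :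
    4 * (vsq p * cofq p M) ≤ (vsq p * (∑ i, M i i) - ev M p p) ^ 2 := by
  have e : vsq p ^ 2 * ((vsq p * (∑ i, M i i) - ev M p p) ^ 2 - 4 * (vsq p * cofq p M))
      = 2 * (∑ i, ∑ j, ((∑ k, ∑ l, (vsq p * (if i = k then 1 else 0) - p i * p k) * M k l
          * (vsq p * (if l = j then 1 else 0) - p l * p j))
          - 1 / 2 * (vsq p * (∑ i, M i i) - ev M p p)
            * (vsq p * (if i = j then 1 else 0) - p i * p j)) ^ 2) := by
    simp only [ev_explicit, vsq, cofq, Fin.sum_univ_three, h01, h02, h12]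
    simp
    ring
  have h1 : 0 ≤ vsq p ^ 2 * ((vsq p * (∑ i, M i i) - ev M p p) ^ 2
      - 4 * (vsq p * cofq p M)) := by
    rw [e]
    positivity
  have h2 : 0 < vsq p ^ 2 := by positivity
  have h3 := (mul_nonneg_iff_of_pos_left h2).mp h1
  linarith

theorem det_formula (p c : Cov) (M : Bil) (φ : ℝ) (h01 : M 1 0 = M 0 1) (h02 : M 2 0 = M 0 2)
    (h12 : M 2 1 = M 1 2) (α β : ℝ) (q : ℝ) (hq : q = vsq p)
    (hc : ∀ j, c j = α * p j - β * (∑ i, M j i * p i)) (hb : β * q = φ) :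
    (Matrix.of fun i j => φ * M j i + p i * c j : Bil).det = φ ^ 2 * α * cofq p M := by
  rw [Matrix.det_fin_three]
  have c0 := hc 0
  have c1 := hc 1
  have c2 := hc 2
  simp only [Fin.sum_univ_three, h01, h02, h12] at c0 c1 c2
  simp only [Matrix.of_apply, c0, c1, c2, h01, h02, h12, cofq]
  subst hq
  rw [← hb]
  simp only [vsq, Fin.sum_univ_three]
  ring

/-! ### Integrals over images -/

theorem lintegral_image_le (f : E3 → E3) (f' : E3 → E3 →L[ℝ] E3) (S : Set E3)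
    (hS : MeasurableSet S) (hf : ∀ x ∈ S, HasFDerivWithinAt f (f' x) S x) (g : E3 → ENNReal)
    (hg : Measurable g) :
    ∫⁻ y in f '' S, g y ≤ ∫⁻ x in S, ENNReal.ofReal |(f' x).det| * g (f x) := by
  have hcont : ContinuousOn f S := fun x hx => (hf x hx).continuousWithinAt
  have hdet := aemeasurable_ofReal_abs_det_fderivWithin volume hS hf
  set d : E3 → ENNReal := fun x => ENNReal.ofReal |(f' x).det| with hd
  have hfm : AEMeasurable f (volume.restrict S) := hcont.aemeasurable hS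
  have hfm' : AEMeasurable f ((volume.restrict S).withDensity d) :=
    hfm.mono_ac (withDensity_absolutelyContinuous _ _)
  have hle : volume.restrict (f '' S) ≤ Measure.map f ((volume.restrict S).withDensity d) := by
    refine Measure.le_iff.mpr fun A hA => ?_
    rw [Measure.map_apply_of_aemeasurable hfm' hA, Measure.restrict_apply hA]
    have hmS : MeasurableSet (S ∩ f ⁻¹' A) := by
      have h1 : Measurable (S.domRestrict f) := (continuousOn_iff_continuous_domRestrict.mp hcont).measurable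
      have h2 : MeasurableSet ((S.domRestrict f) ⁻¹' A) := h1 hA
      have h3 := hS.subtype_image h2
      have h5 : S ∩ f ⁻¹' A = Subtype.val '' ((S.domRestrict f) ⁻¹' A) := by
        ext x
        constructor
        · rintro ⟨hx, hy⟩
          exact ⟨⟨x, hx⟩, hy, rfl⟩
        · rintro ⟨⟨y, hy⟩, hy', rfl⟩
          exact ⟨hy, hy'⟩
      rw [h5]
      exact h3
    have h4 : A ∩ f '' S = f '' (S ∩ f ⁻¹' A) := by
      ext y
      constructor
      · rintro ⟨hy, x, hx, rfl⟩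
        exact ⟨x, ⟨hx, hy⟩, rfl⟩
      · rintro ⟨x, ⟨hx, hy⟩, rfl⟩
        exact ⟨hy, x, hx, rfl⟩
    rw [h4]
    calc volume (f '' (S ∩ f ⁻¹' A))
        ≤ ∫⁻ x in S ∩ f ⁻¹' A, ENNReal.ofReal |(f' x).det| :=
          addHaar_image_le_lintegral_abs_det_fderiv volume hmS
            fun x hx => (hf x hx.1).mono Set.inter_subset_left
      _ = ((volume.restrict S).withDensity d) (S ∩ f ⁻¹' A) := by
          rw [withDensity_apply _ hmS, Measure.restrict_restrict hmS]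
          congr 2
          rw [Set.inter_right_comm, Set.inter_self]
      _ ≤ ((volume.restrict S).withDensity d) (f ⁻¹' A) := measure_mono Set.inter_subset_right
  calc ∫⁻ y in f '' S, g y ≤ ∫⁻ y, g y ∂(Measure.map f ((volume.restrict S).withDensity d)) :=
        lintegral_mono' hle le_rfl
    _ = ∫⁻ x, g (f x) ∂((volume.restrict S).withDensity d) :=
        lintegral_map' hg.aemeasurable hfm'
    _ = ∫⁻ x, (d * fun x => g (f x)) x ∂(volume.restrict S) :=
        lintegral_withDensity_eq_lintegral_mul₀ hdet (hg.comp_aemeasurable hfm)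
    _ = ∫⁻ x in S, ENNReal.ofReal |(f' x).det| * g (f x) := rfl

/-! ### Polar coordinates -/

/-- The radial profile. -/
noncomputable def prof (s₀ : ℝ) (ψ : ℝ → ℝ) (ρ : ℝ) : ℝ := ψ (ρ - 1 + s₀) / (max ρ 1) ^ 2

theorem prof_cont (s₀ : ℝ) (ψ : ℝ → ℝ) (h : Continuous ψ) : Continuous (prof s₀ ψ) := by
  unfold prof
  refine Continuous.div (h.comp (by fun_prop)) (by fun_prop) fun x => ?_
  have : (1 : ℝ) ≤ max x 1 := le_max_right _ _
  positivity

theorem polar (s₀ s₁ : ℝ) (ψ : ℝ → ℝ) (h : Continuous ψ) (h0 : ∀ s, 0 ≤ ψ s)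
    (hsupp : tsupport ψ ⊆ Set.Ioo s₀ s₁) :
    ENNReal.ofReal (16 * Real.pi * ∫ s, ψ s)
      = 4 * ∫⁻ y : E3, ENNReal.ofReal (prof s₀ ψ ‖y‖) := by
  have hz : ∀ s, s ∉ Set.Ioo s₀ s₁ → ψ s = 0 := fun s hs' =>
    image_eq_zero_of_notMem_tsupport fun h' => hs' (hsupp h')
  have hnn : ∀ y : E3, 0 ≤ prof s₀ ψ ‖y‖ := fun y => div_nonneg (h0 _) (by positivity)
  have hcs : HasCompactSupport (fun y : E3 => prof s₀ ψ ‖y‖) := by
    refine HasCompactSupport.of_support_subset_isCompact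
      (isCompact_closedBall (0 : E3) (s₁ - s₀ + 1)) fun y hy => ?_
    rw [mem_closedBall_zero_iff]
    by_contra hc
    push Not at hc
    apply hy
    show prof s₀ ψ ‖y‖ = 0
    unfold prof
    rw [hz _ (fun h' => by linarith [h'.2]), zero_div]
  have hint : Integrable (fun y : E3 => prof s₀ ψ ‖y‖) :=
    ((prof_cont s₀ ψ h).comp continuous_norm).integrable_of_hasCompactSupport hcs
  have h1 := integral_fun_norm_addHaar (volume : Measure E3) (prof s₀ ψ)
  have h2 : ∫ y in Set.Ioi (0 : ℝ), y ^ (Module.finrank ℝ E3 - 1) • prof s₀ ψ y = ∫ s, ψ s := by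
    have e1 : ∀ y : ℝ, (Set.Ioi (0 : ℝ)).indicator
        (fun y => y ^ (Module.finrank ℝ E3 - 1) • prof s₀ ψ y) y = ψ (y + (s₀ - 1)) := by
      intro y
      by_cases hy : 0 < y
      · rw [Set.indicator_of_mem (Set.mem_Ioi.mpr hy)]
        have : Module.finrank ℝ E3 - 1 = 2 := by simp
        rw [this, smul_eq_mul]
        unfold prof
        rw [show y - 1 + s₀ = y + (s₀ - 1) by ring]
        by_cases hy1 : 1 < y
        · rw [max_eq_left hy1.le]
          field_simp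
        · rw [hz (y + (s₀ - 1)) (fun h' => by linarith [h'.1])]
          simp
      · rw [Set.indicator_of_notMem (by simpa using hy),
          hz (y + (s₀ - 1)) (fun h' => by linarith [h'.1])]
    rw [← integral_indicator measurableSet_Ioi]
    simp_rw [e1]
    exact integral_add_right_eq_self ψ (s₀ - 1)
  rw [h2] at h1
  have h3 : (volume : Measure E3).real (Metric.ball 0 1) = Real.pi * 4 / 3 := by
    rw [Measure.real, EuclideanSpace.volume_ball_fin_three]
    simp only [ENNReal.ofReal_one, one_pow, one_mul]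
    exact ENNReal.toReal_ofReal (by positivity)
  rw [h3] at h1
  have h4 : Module.finrank ℝ E3 = 3 := by simp
  rw [h4] at h1
  have h5 : 16 * Real.pi * ∫ s, ψ s = 4 * ∫ y : E3, prof s₀ ψ ‖y‖ := by
    rw [h1]
    simp only [nsmul_eq_mul, smul_eq_mul]
    push_cast
    ring
  rw [h5, ENNReal.ofReal_mul (by norm_num),
    ofReal_integral_eq_lintegral_ofReal hint (Filter.Eventually.of_forall hnn)]
  simp

/-! ### The determinant of the map -/

theorem pd_smooth (v : E3 → ℝ) (hv : ContDiff ℝ ∞ v) (i : Fin 3) : ContDiff ℝ ∞ (pd i v) :=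
  (hv.fderiv_right (m := ∞) (by simp)).clm_apply contDiff_const

theorem pd_diff (v : E3 → ℝ) (hv : ContDiff ℝ ∞ v) (i : Fin 3) (x : E3) :
    DifferentiableAt ℝ (pd i v) x := (pd_smooth v hv i).contDiffAt.differentiableAt (by simp)

theorem fderiv_pd (v : E3 → ℝ) (hv : ContDiff ℝ ∞ v) (i : Fin 3) (x u : E3) :
    fderiv ℝ (pd i v) x u = fderiv ℝ (fderiv ℝ v) x u (EuclideanSpace.single i 1) := by
  have h1 : HasFDerivAt (fderiv ℝ v) (fderiv ℝ (fderiv ℝ v) x) x :=
    ((hv.fderiv_right (m := ∞) (by simp)).contDiffAt.differentiableAt (by simp)).hasFDerivAt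
  have h2 : HasFDerivAt (pd i v)
      ((ContinuousLinearMap.apply ℝ ℝ (EuclideanSpace.single i 1 : E3)).comp
        (fderiv ℝ (fderiv ℝ v) x)) x :=
    (ContinuousLinearMap.apply ℝ ℝ (EuclideanSpace.single i 1 : E3)).hasFDerivAt.comp x h1
  rw [h2.fderiv]
  rfl

theorem hess_symm (v : E3 → ℝ) (hv : ContDiff ℝ ∞ v) (i j : Fin 3) (x : E3) :
    hess2 v x i j = hess2 v x j i := by
  have h1 : HasFDerivAt (fderiv ℝ v) (fderiv ℝ (fderiv ℝ v) x) x :=
    ((hv.fderiv_right (m := ∞) (by simp)).contDiffAt.differentiableAt (by simp)).hasFDerivAt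
  have h2 : ∀ y, HasFDerivAt v (fderiv ℝ v y) y := fun y =>
    (hv.contDiffAt.differentiableAt (by simp)).hasFDerivAt
  have h3 := second_derivative_symmetric h2 h1 (EuclideanSpace.single i 1)
    (EuclideanSpace.single j 1)
  show fderiv ℝ (pd j v) x _ = fderiv ℝ (pd i v) x _
  rw [fderiv_pd v hv, fderiv_pd v hv, h3]

theorem pd_mul (f g : E3 → ℝ) (x : E3) (i : Fin 3) (hf : DifferentiableAt ℝ f x)
    (hg : DifferentiableAt ℝ g x) :
    pd i (fun y => f y * g y) x = f x * pd i g x + g x * pd i f x := by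
  have h := (hf.hasFDerivAt.mul hg.hasFDerivAt)
  show fderiv ℝ (fun y => f y * g y) x _ = _
  rw [show (fun y => f y * g y) = f * g from rfl, h.fderiv]
  simp [pd]

/-- The map `Theta`. -/
noncomputable def Th (s₀ : ℝ) (v : E3 → ℝ) (x : E3) : E3 :=
  WithLp.toLp 2 (fun i => (v x - s₀ + 1) / vn (grad v x) * pd i v x)

theorem det_Th (s₀ : ℝ) (v : E3 → ℝ) (hv : ContDiff ℝ ∞ v) (x : E3)
    (hx : 0 < vsq (grad v x)) :
    DifferentiableAt ℝ (Th s₀ v) x ∧ (fderiv ℝ (Th s₀ v) x).det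
      = (v x - s₀ + 1) ^ 2 / vn (grad v x) ^ 3 * cofq (grad v x) (hess2 v x) := by
  have hvd : DifferentiableAt ℝ v x := hv.contDiffAt.differentiableAt (by simp)
  have hPd := fun i => pd_diff v hv i x
  have hvn : 0 < vn (grad v x) := Real.sqrt_pos.mpr hx
  have hsq : vn (grad v x) * vn (grad v x) = vsq (grad v x) := Real.mul_self_sqrt hx.le
  -- the length of the gradient
  have hqd : DifferentiableAt ℝ (fun y => vsq (grad v y)) x := by
    unfold vsq grad
    fun_prop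
  have hnd : DifferentiableAt ℝ (fun y => vn (grad v y)) x := hqd.sqrt hx.ne'
  have hrd : DifferentiableAt ℝ (fun y => v y - s₀ + 1) x := by fun_prop
  have hφd : DifferentiableAt ℝ (fun y => (v y - s₀ + 1) / vn (grad v y)) x :=
    (hrd.mul (hnd.inv hvn.ne')).congr_of_eventuallyEq
      (Filter.Eventually.of_forall fun y => div_eq_mul_inv _ _)
  set φ : E3 → ℝ := fun y => (v y - s₀ + 1) / vn (grad v y) with hφ
  have hΘd : DifferentiableAt ℝ (Th s₀ v) x := by
    rw [differentiableAt_euclidean]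
    intro i
    exact hφd.mul (hPd i)
  refine ⟨hΘd, ?_⟩
  -- derivatives of the length
  have hnear : ∀ᶠ y in 𝓝 x, 0 < vsq (grad v y) :=
    hqd.continuousAt.eventually (lt_mem_nhds hx)
  have hn' : ∀ j, vn (grad v x) * pd j (fun y => vn (grad v y)) x
      = ∑ i, hess2 v x j i * grad v x i := by
    intro j
    have e1 : (fun y => vn (grad v y) * vn (grad v y)) =ᶠ[𝓝 x]
        (fun y => pd 0 v y * pd 0 v y + pd 1 v y * pd 1 v y + pd 2 v y * pd 2 v y) := by
      filter_upwards [hnear] with y hy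
      show Real.sqrt (vsq (grad v y)) * Real.sqrt (vsq (grad v y)) = _
      rw [Real.mul_self_sqrt hy.le]
      simp only [vsq, grad, Fin.sum_univ_three]
      ring
    have e2 : pd j (fun y => vn (grad v y) * vn (grad v y)) x
        = pd j (fun y => pd 0 v y * pd 0 v y + pd 1 v y * pd 1 v y + pd 2 v y * pd 2 v y) x := by
      unfold pd
      rw [e1.fderiv_eq]
      rfl
    rw [pd_mul _ _ _ _ hnd hnd] at e2
    have e3 : pd j (fun y => pd 0 v y * pd 0 v y + pd 1 v y * pd 1 v y + pd 2 v y * pd 2 v y) x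
        = pd j (fun y => pd 0 v y * pd 0 v y) x + pd j (fun y => pd 1 v y * pd 1 v y) x
          + pd j (fun y => pd 2 v y * pd 2 v y) x := by
      have d0 := (hPd 0).mul (hPd 0)
      have d1 := (hPd 1).mul (hPd 1)
      have d2 := (hPd 2).mul (hPd 2)
      have f1 : fderiv ℝ (fun y => pd 0 v y * pd 0 v y + pd 1 v y * pd 1 v y
          + pd 2 v y * pd 2 v y) x = fderiv ℝ (fun y => pd 0 v y * pd 0 v y) x
          + fderiv ℝ (fun y => pd 1 v y * pd 1 v y) x
          + fderiv ℝ (fun y => pd 2 v y * pd 2 v y) x :=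
        ((d0.hasFDerivAt.add d1.hasFDerivAt).add d2.hasFDerivAt).fderiv
      show fderiv ℝ (fun y => pd 0 v y * pd 0 v y + pd 1 v y * pd 1 v y
          + pd 2 v y * pd 2 v y) x _ = _
      rw [f1]
      rfl
    rw [e3, pd_mul _ _ _ _ (hPd 0) (hPd 0), pd_mul _ _ _ _ (hPd 1) (hPd 1),
      pd_mul _ _ _ _ (hPd 2) (hPd 2)] at e2
    simp only [Fin.sum_univ_three, hess2, grad, Matrix.of_apply]
    linarith
  -- derivatives of the factor
  have hc : ∀ j, pd j φ x = 1 / vn (grad v x) * grad v x j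
      - φ x / vsq (grad v x) * ∑ i, hess2 v x j i * grad v x i := by
    intro j
    have e1 : (fun y => φ y * vn (grad v y)) =ᶠ[𝓝 x] (fun y => v y - s₀ + 1) := by
      filter_upwards [hnear] with y hy
      have : 0 < vn (grad v y) := Real.sqrt_pos.mpr hy
      rw [hφ]
      field_simp
    have e2 : pd j (fun y => φ y * vn (grad v y)) x = pd j v x := by
      have : fderiv ℝ (fun y => φ y * vn (grad v y)) x = fderiv ℝ v x := by
        rw [e1.fderiv_eq]
        exact ((hvd.hasFDerivAt.sub_const s₀).add_const 1).fderiv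
      unfold pd
      rw [this]
    rw [pd_mul _ _ _ _ hφd hnd] at e2
    rw [← hn' j, ← hsq]
    have e3 : grad v x j = pd j v x := rfl
    rw [e3, ← e2]
    field_simp
    ring
  -- the determinant
  have hcomp : ∀ i j : Fin 3, (fderiv ℝ (Th s₀ v) x (EuclideanSpace.single j 1)) i
      = φ x * hess2 v x j i + grad v x i * pd j φ x := by
    intro i j
    have h1 : HasFDerivAt (fun y => Th s₀ v y i)
        ((EuclideanSpace.proj i : E3 →L[ℝ] ℝ).comp (fderiv ℝ (Th s₀ v) x)) x :=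
      (EuclideanSpace.proj i : E3 →L[ℝ] ℝ).hasFDerivAt.comp x hΘd.hasFDerivAt
    have h2 : pd j (fun y => Th s₀ v y i) x
        = (fderiv ℝ (Th s₀ v) x (EuclideanSpace.single j 1)) i := by
      unfold pd
      rw [h1.fderiv]
      rfl
    rw [← h2]
    have h3 : (fun y => Th s₀ v y i) = fun y => φ y * pd i v y := rfl
    rw [h3, pd_mul _ _ _ _ hφd (hPd i)]
    rfl
  have hmat : (fderiv ℝ (Th s₀ v) x).det
      = (Matrix.of fun i j => φ x * hess2 v x j i + grad v x i * pd j φ x : Bil).det := by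
    have b := (EuclideanSpace.basisFun (Fin 3) ℝ).toBasis
    show LinearMap.det ((fderiv ℝ (Th s₀ v) x : E3 →L[ℝ] E3) : E3 →ₗ[ℝ] E3) = _
    rw [← LinearMap.det_toMatrix (EuclideanSpace.basisFun (Fin 3) ℝ).toBasis]
    congr 1
    ext i j
    rw [LinearMap.toMatrix_apply]
    simp only [OrthonormalBasis.coe_toBasis, EuclideanSpace.basisFun_apply,
      OrthonormalBasis.coe_toBasis_repr_apply, EuclideanSpace.basisFun_repr,
      Matrix.of_apply, ContinuousLinearMap.coe_coe]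
    exact hcomp i j
  rw [hmat, det_formula (grad v x) (fun j => pd j φ x) (hess2 v x) (φ x) (hess_symm v hv 1 0 x)
    (hess_symm v hv 2 0 x) (hess_symm v hv 2 1 x) (1 / vn (grad v x)) (φ x / vsq (grad v x))
    (vsq (grad v x)) rfl hc (by field_simp)]
  rw [hφ]
  field_simp

/-! ### The map covers the shell -/

theorem fderiv_sum (f : E3 → ℝ) (x t : E3) : fderiv ℝ f x t = ∑ i, t i * pd i f x := by
  have h : t = ∑ i, t i • (EuclideanSpace.single i 1 : E3) := by
    ext j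
    simp [Fin.sum_univ_three]
    fin_cases j <;> simp
  conv_lhs => rw [h]
  rw [map_sum]
  simp [pd]

theorem line_deriv (f : E3 → ℝ) (hf : Differentiable ℝ f) (x t : E3) (τ : ℝ) :
    HasDerivAt (fun σ : ℝ => f (x + σ • t)) (∑ i, t i * pd i f (x + τ • t)) τ := by
  have h1 : HasDerivAt (fun σ : ℝ => x + σ • t) t τ := by
    have := ((hasDerivAt_id τ).smul_const t).const_add x
    simpa using this
  have h2 := (hf (x + τ • t)).hasFDerivAt.comp_hasDerivAt τ h1
  rw [fderiv_sum] at h2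
  exact h2

theorem second_order (h h1 : ℝ → ℝ) (c : ℝ) (hmin : IsLocalMin h 0)
    (hd : ∀ τ, HasDerivAt h (h1 τ) τ) (hd2 : HasDerivAt h1 c 0) : 0 ≤ c := by
  by_contra hc
  push Not at hc
  have e1 : deriv h = h1 := funext fun τ => (hd τ).deriv
  have e2 : deriv (deriv h) 0 = c := by rw [e1]; exact hd2.deriv
  have hmax : IsLocalMax h 0 := isLocalMax_of_deriv_deriv_neg (by rw [e2]; exact hc)
    hmin.deriv_eq_zero (hd 0).continuousAt
  have e3 : h =ᶠ[𝓝 0] fun _ => h 0 := by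
    filter_upwards [hmin, hmax] with τ h2 h3
    exact le_antisymm h3 h2
  have e4 : deriv h =ᶠ[𝓝 0] fun _ => 0 := by
    filter_upwards [e3.eventuallyEq_nhds] with τ h2
    rw [h2.deriv_eq]
    simp
  have e5 : deriv (deriv h) 0 = 0 := by
    rw [e4.deriv_eq]
    simp
  rw [e2] at e5
  linarith

theorem surj (a' b' s₀ s₁ : ℝ) (W v : E3 → ℝ) (K : Set E3) (ψ : ℝ → ℝ)
    (hT : Trunc a' b' s₀ s₁ W) (hv : ContDiff ℝ ∞ v)
    (hag : ∀ x ∈ K, ∀ᶠ y in 𝓝 x, W y = v y) (hsupp : tsupport ψ ⊆ Set.Ioo s₀ s₁)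
    (hK : ∀ x, W x ∈ tsupport ψ → x ∈ K) (y : E3) (hy : 0 < ψ (‖y‖ - 1 + s₀))
    (hcrit : ∀ x ∈ K, grad v x = 0 → v x ≠ ‖y‖ - 1 + s₀) :
    ∃ x ∈ K, 0 < vsq (grad v x) ∧ 0 < ψ (v x) ∧ 0 ≤ cofq (grad v x) (hess2 v x)
      ∧ Th s₀ v x = y := by
  set s := ‖y‖ - 1 + s₀ with hs
  have hst : s ∈ tsupport ψ := subset_tsupport ψ hy.ne'
  have hsI := hsupp hst
  have hy1 : 1 < ‖y‖ := by linarith [hsI.1]
  have hy0 : 0 < ‖y‖ := by linarith
  have hyy : ∑ i, y i * y i = ‖y‖ ^ 2 := by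
    rw [EuclideanSpace.real_norm_sq_eq]
    exact Finset.sum_congr rfl fun i _ => by ring
  have hy2 : 0 < ∑ i, y i * y i := by rw [hyy]; positivity
  -- the linear function
  set ℓ : E3 → ℝ := fun x => ∑ i, x i * y i with hℓ
  have hℓc : Continuous ℓ := by rw [hℓ]; fun_prop
  have hℓa : ∀ (x t : E3) (τ : ℝ), ℓ (x + τ • t) = ℓ x + τ * ℓ t := by
    intro x t τ
    simp only [hℓ, Fin.sum_univ_three, PiLp.add_apply, PiLp.smul_apply, smul_eq_mul]
    ring
  have hvd : Differentiable ℝ v := hv.differentiable (by simp)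
  -- the compact sublevel set
  have hLc : IsCompact {x | W x ≤ s} := by
    refine Metric.isCompact_of_isClosed_isBounded (isClosed_le hT.cont continuous_const) ?_
    refine (Metric.isBounded_closedBall (x := (0 : E3)) (r := b')).subset fun x hx => ?_
    rw [mem_closedBall_zero_iff]
    by_contra hc
    push Not at hc
    have h1 := hT.outer x hc.le
    have h2 : W x ≤ s := hx
    linarith [hsI.2]
  have hLn : ({x | W x ≤ s} : Set E3).Nonempty := by
    refine ⟨0, ?_⟩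
    have h1 := hT.inner 0 (by simpa using hT.pos.le)
    show W 0 ≤ s
    linarith [hsI.1]
  obtain ⟨x₀, hx₀, hmax⟩ := hLc.exists_isMaxOn hLn hℓc.continuousOn
  have hA : ∀ x, ℓ x₀ < ℓ x → s < W x := by
    intro x hx
    by_contra hc
    push Not at hc
    have : ℓ x ≤ ℓ x₀ := hmax hc
    linarith
  have hB : ∀ x, ℓ x₀ ≤ ℓ x → s ≤ W x := by
    intro x hx
    have h1 : Tendsto (fun τ : ℝ => W (x + τ • y)) (𝓝[>] 0) (𝓝 (W x)) := by
      have h2 : Continuous (fun τ : ℝ => W (x + τ • y)) := hT.cont.comp (by fun_prop)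
      have h3 := h2.tendsto 0
      simp only [zero_smul, add_zero] at h3
      exact h3.mono_left nhdsWithin_le_nhds
    refine ge_of_tendsto h1 ?_
    filter_upwards [self_mem_nhdsWithin] with τ hτ
    refine (hA _ ?_).le
    rw [hℓa]
    have : 0 < τ * ℓ y := mul_pos hτ hy2
    linarith
  have hWs : W x₀ = s := le_antisymm hx₀ (hB x₀ le_rfl)
  have hxK : x₀ ∈ K := hK x₀ (by rw [hWs]; exact hst)
  have hnear := hag x₀ hxK
  have hvs : v x₀ = s := by rw [← hnear.self_of_nhds]; exact hWs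
  -- minimality along lines
  have hline : ∀ t : E3, 0 ≤ ℓ t → ∀ᶠ τ in 𝓝 (0 : ℝ), 0 ≤ τ → v x₀ ≤ v (x₀ + τ • t) := by
    intro t ht
    have h1 : Tendsto (fun τ : ℝ => x₀ + τ • t) (𝓝 0) (𝓝 x₀) := by
      have h2 : Continuous (fun τ : ℝ => x₀ + τ • t) := by fun_prop
      have h3 := h2.tendsto 0
      simpa using h3
    filter_upwards [h1.eventually hnear] with τ h2 h3
    rw [hvs, ← h2]
    refine hB _ ?_
    rw [hℓa]
    have := mul_nonneg h3 ht
    linarith
  have hmin : ∀ t : E3, ℓ t = 0 → IsLocalMin (fun τ : ℝ => v (x₀ + τ • t)) 0 := by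
    intro t ht
    have h1 : Tendsto (fun τ : ℝ => x₀ + τ • t) (𝓝 0) (𝓝 x₀) := by
      have h2 : Continuous (fun τ : ℝ => x₀ + τ • t) := by fun_prop
      have h3 := h2.tendsto 0
      simpa using h3
    filter_upwards [h1.eventually hnear] with τ h2
    simp only [zero_smul, add_zero]
    rw [hvs, ← h2]
    refine hB _ ?_
    rw [hℓa, ht]
    linarith
  have hfirst : ∀ t : E3, ℓ t = 0 → ∑ i, t i * pd i v x₀ = 0 := by
    intro t ht
    have h1 := line_deriv v hvd x₀ t 0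
    have h2 := (hmin t ht).hasDerivAt_eq_zero h1
    simpa using h2
  have hsecond : ∀ t : E3, ℓ t = 0 → 0 ≤ ev (hess2 v x₀) (fun i => t i) (fun i => t i) := by
    intro t ht
    have hd2 : HasDerivAt (fun τ : ℝ => ∑ i, t i * pd i v (x₀ + τ • t))
        (∑ i, t i * ∑ j, t j * pd j (pd i v) (x₀ + (0 : ℝ) • t)) 0 := by
      refine HasDerivAt.fun_sum fun i _ => ?_
      exact (line_deriv (pd i v) ((pd_smooth v hv i).differentiable (by simp)) x₀ t 0).const_mul
        (t i)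
    have h2 := second_order _ _ _ (hmin t ht) (fun τ => line_deriv v hvd x₀ t τ) hd2
    have h3 : ev (hess2 v x₀) (fun i => t i) (fun i => t i)
        = ∑ i, t i * ∑ j, t j * pd j (pd i v) (x₀ + (0 : ℝ) • t) := by
      simp only [ev_explicit, hess2, Matrix.of_apply, Fin.sum_univ_three, zero_smul, add_zero]
      ring
    rw [h3]
    exact h2
  -- the gradient is parallel to y
  set lam : ℝ := (∑ i, pd i v x₀ * y i) / ‖y‖ ^ 2 with hlam
  have hpar : ∀ i, grad v x₀ i = lam * y i := by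
    set t : E3 := WithLp.toLp 2 (fun i => pd i v x₀ - lam * y i) with ht
    have hti : ∀ i, t i = pd i v x₀ - lam * y i := fun i => rfl
    have hlam' : lam * ‖y‖ ^ 2 = ∑ i, pd i v x₀ * y i := by
      rw [hlam]
      field_simp
    have h1 : ℓ t = 0 := by
      simp only [hℓ, hti, Fin.sum_univ_three] at hyy hlam' ⊢
      rw [← hyy] at hlam'
      linarith
    have h2 := hfirst t h1
    have h3 : ∑ i, t i * t i = 0 := by
      simp only [hℓ, hti, Fin.sum_univ_three] at h1 h2 ⊢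
      linear_combination h2 - lam * h1
    have h4 : ∀ i ∈ Finset.univ, t i * t i = 0 :=
      (Finset.sum_eq_zero_iff_of_nonneg fun i _ => mul_self_nonneg _).mp h3
    intro i
    have h5 := mul_self_eq_zero.mp (h4 i (Finset.mem_univ i))
    rw [hti] at h5
    show pd i v x₀ = _
    linarith
  have hlam0 : 0 ≤ lam := by
    have h1 := line_deriv v hvd x₀ y 0
    have h2 := h1.tendsto_slope_zero_right
    have h3 : 0 ≤ ∑ i, y i * pd i v (x₀ + (0 : ℝ) • y) := by
      refine ge_of_tendsto h2 ?_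
      have h4 := hline y hy2.le
      filter_upwards [nhdsWithin_le_nhds h4, self_mem_nhdsWithin] with τ h5 h6
      have h7 : (0 : ℝ) < τ := h6
      simp only [zero_add, zero_smul, add_zero, smul_eq_mul]
      have h8 := h5 h7.le
      exact mul_nonneg (by positivity) (by linarith)
    rw [hlam]
    refine div_nonneg ?_ (by positivity)
    simp only [zero_smul, add_zero] at h3
    calc (0 : ℝ) ≤ ∑ i, y i * pd i v x₀ := h3
      _ = _ := Finset.sum_congr rfl fun i _ => by ring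
  have hgne : grad v x₀ ≠ 0 := fun h => hcrit x₀ hxK h hvs
  have hlampos : 0 < lam := by
    refine lt_of_le_of_ne hlam0 fun h => hgne ?_
    funext i
    rw [hpar i, ← h]
    simp
  have hvsq : vsq (grad v x₀) = (lam * ‖y‖) ^ 2 := by
    simp only [vsq, hpar, Fin.sum_univ_three] at hyy ⊢
    linear_combination lam ^ 2 * hyy
  have hvn : vn (grad v x₀) = lam * ‖y‖ := by
    unfold vn
    rw [hvsq]
    exact Real.sqrt_sq (by positivity)
  refine ⟨x₀, hxK, ?_, ?_, ?_, ?_⟩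
  · rw [hvsq]
    positivity
  · rw [hvs]
    exact hy
  · refine cof_nonneg _ _ (hess_symm v hv 1 0 x₀) (hess_symm v hv 2 0 x₀)
      (hess_symm v hv 2 1 x₀) (by rw [hvsq]; positivity) fun t ht => ?_
    refine hsecond (WithLp.toLp 2 t) ?_
    have h1 : lam * ℓ (WithLp.toLp 2 t) = 0 := by
      simp only [hℓ, hpar, Fin.sum_univ_three] at ht ⊢
      linear_combination ht
    exact (mul_eq_zero.mp h1).resolve_left hlampos.ne'
  · ext i
    show (v x₀ - s₀ + 1) / vn (grad v x₀) * pd i v x₀ = y i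
    have h1 : pd i v x₀ = lam * y i := hpar i
    rw [hvs, hvn, h1, hs]
    have h2 : ‖y‖ - 1 + s₀ - s₀ + 1 = ‖y‖ := by ring
    rw [h2]
    field_simp

end MGAU

theorem GAU : Stmt_GAU := by
  intro a' b' s₀ s₁ W v K ψ hT hv hKc hag hfin hψ hψ0 hsupp hK
  rw [MGAU.polar s₀ s₁ ψ hψ hψ0 hsupp]
  have hpc : ∀ i, Continuous (pd i v) := fun i => (MGAU.pd_smooth v hv i).continuous
  have hpc2 : ∀ i j, Continuous (pd i (pd j v)) := fun i j =>
    (MGAU.pd_smooth _ (MGAU.pd_smooth v hv j) i).continuous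
  have hqc : Continuous (fun x => vsq (grad v x)) := by
    unfold vsq grad
    fun_prop
  have hcc : Continuous (fun x => MGAU.cofq (grad v x) (hess2 v x)) := by
    unfold MGAU.cofq grad hess2
    simp only [Matrix.of_apply]
    fun_prop
  set S : Set E3 := {x | x ∈ K ∧ 0 < vsq (grad v x) ∧ 0 < ψ (v x)
    ∧ 0 ≤ MGAU.cofq (grad v x) (hess2 v x)} with hS
  have hSm : MeasurableSet S := by
    refine hKc.isClosed.measurableSet.inter ?_
    refine (measurableSet_lt measurable_const hqc.measurable).inter ?_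
    refine (measurableSet_lt measurable_const (hψ.comp hv.continuous).measurable).inter ?_
    exact measurableSet_le measurable_const hcc.measurable
  have hSK : S ⊆ K := fun x hx => hx.1
  have hd : ∀ x ∈ S, HasFDerivWithinAt (MGAU.Th s₀ v) (fderiv ℝ (MGAU.Th s₀ v) x) S x :=
    fun x hx => (MGAU.det_Th s₀ v hv x hx.2.1).1.hasFDerivAt.hasFDerivWithinAt
  set g : E3 → ENNReal := fun y => ENNReal.ofReal (MGAU.prof s₀ ψ ‖y‖) with hg
  have hgm : Measurable g :=
    (((MGAU.prof_cont s₀ ψ hψ).comp continuous_norm).measurable).ennreal_ofReal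
  have himg := MGAU.lintegral_image_le (MGAU.Th s₀ v) (fun x => fderiv ℝ (MGAU.Th s₀ v) x) S hSm
    hd g hgm
  -- the image of S contains almost all of the support of g
  have hcover : ∫⁻ y, g y ≤ ∫⁻ y in MGAU.Th s₀ v '' S, g y := by
    have hnull : volume (⋃ c ∈ (fun x => v x) '' {x ∈ K | grad v x = 0},
        Metric.sphere (0 : E3) (c - s₀ + 1)) = 0 := by
      refine (measure_biUnion_null_iff (hfin.image _).countable).mpr fun c _ => ?_
      exact Measure.addHaar_sphere volume 0 _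
    have hae : g ≤ᵐ[volume] (MGAU.Th s₀ v '' S).indicator g := by
      have h1 : ∀ᵐ y : E3, y ∉ (⋃ c ∈ (fun x => v x) '' {x ∈ K | grad v x = 0},
        Metric.sphere (0 : E3) (c - s₀ + 1)) := measure_eq_zero_iff_ae_notMem.mp hnull
      filter_upwards [h1] with y hy
      by_cases hpos : 0 < ψ (‖y‖ - 1 + s₀)
      · obtain ⟨x, hxK, hx1, hx2, hx3, hx4⟩ := MGAU.surj a' b' s₀ s₁ W v K ψ hT hv hag hsupp hK
          y hpos (by
            intro x hx hgx hvx
            apply hy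
            refine Set.mem_biUnion (x := v x) ⟨x, ⟨hx, hgx⟩, rfl⟩ ?_
            rw [mem_sphere_zero_iff_norm, hvx]
            ring)
        have hmem : y ∈ MGAU.Th s₀ v '' S := ⟨x, ⟨hxK, hx1, hx2, hx3⟩, hx4⟩
        rw [Set.indicator_of_mem hmem]
      · have h0 : ψ (‖y‖ - 1 + s₀) = 0 := le_antisymm (not_lt.mp hpos) (hψ0 _)
        have h2 : g y = 0 := by
          simp only [hg, MGAU.prof, h0, zero_div, ENNReal.ofReal_zero]
        rw [h2]
        exact bot_le
    calc ∫⁻ y, g y ≤ ∫⁻ y, (MGAU.Th s₀ v '' S).indicator g y := lintegral_mono_ae hae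
      _ ≤ ∫⁻ y in MGAU.Th s₀ v '' S, g y := lintegral_indicator_le _ _
  -- pointwise comparison
  have hpt : ∀ x ∈ S, 4 * (ENNReal.ofReal |(fderiv ℝ (MGAU.Th s₀ v) x).det|
      * g (MGAU.Th s₀ v x)) ≤ ENNReal.ofReal (ψ (v x) * Wd (grad v x) (hess2 v x)) := by
    intro x hx
    obtain ⟨hxK, hx1, hx2, hx3⟩ := hx
    have hvI : v x ∈ Set.Ioo s₀ s₁ := hsupp (subset_tsupport ψ hx2.ne')
    have hr : 1 < v x - s₀ + 1 := by linarith [hvI.1]
    have hvn : 0 < vn (grad v x) := Real.sqrt_pos.mpr hx1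
    have hsq : vn (grad v x) ^ 2 = vsq (grad v x) := Real.sq_sqrt hx1.le
    have hnorm : ‖MGAU.Th s₀ v x‖ = v x - s₀ + 1 := by
      have h1 : ‖MGAU.Th s₀ v x‖ ^ 2 = (v x - s₀ + 1) ^ 2 := by
        rw [EuclideanSpace.real_norm_sq_eq]
        have h2 : ∀ i, (MGAU.Th s₀ v x) i = (v x - s₀ + 1) / vn (grad v x) * grad v x i :=
          fun i => rfl
        simp only [h2]
        have h3 : ∑ i, ((v x - s₀ + 1) / vn (grad v x) * grad v x i) ^ 2
            = ((v x - s₀ + 1) / vn (grad v x)) ^ 2 * vsq (grad v x) := by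
          simp only [vsq, Finset.mul_sum, mul_pow]
        rw [h3, ← hsq]
        field_simp
      have h4 : |‖MGAU.Th s₀ v x‖| = |v x - s₀ + 1| := (sq_eq_sq_iff_abs_eq_abs _ _).mp h1
      rwa [abs_of_nonneg (norm_nonneg _), abs_of_pos (by linarith)] at h4
    rw [(MGAU.det_Th s₀ v hv x hx1).2]
    have hdet0 : 0 ≤ (v x - s₀ + 1) ^ 2 / vn (grad v x) ^ 3
        * MGAU.cofq (grad v x) (hess2 v x) := mul_nonneg (by positivity) hx3
    rw [abs_of_nonneg hdet0]
    have hgx : g (MGAU.Th s₀ v x) = ENNReal.ofReal (ψ (v x) / (v x - s₀ + 1) ^ 2) := by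
      simp only [hg, MGAU.prof, hnorm]
      rw [max_eq_left hr.le, show v x - s₀ + 1 - 1 + s₀ = v x by ring]
    rw [hgx, ← ENNReal.ofReal_mul hdet0, show (4 : ENNReal) = ENNReal.ofReal 4 by simp,
      ← ENNReal.ofReal_mul (by norm_num)]
    refine ENNReal.ofReal_le_ofReal ?_
    have hle := MGAU.cof_le (grad v x) (hess2 v x) (MGAU.hess_symm v hv 1 0 x)
      (MGAU.hess_symm v hv 2 0 x) (MGAU.hess_symm v hv 2 1 x) hx1
    unfold Wd
    set q := vsq (grad v x) with hq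
    set n := vn (grad v x) with hn
    set T := ∑ i, hess2 v x i i with hTr
    set e := ev (hess2 v x) (grad v x) (grad v x) with he
    set cf := MGAU.cofq (grad v x) (hess2 v x) with hcf
    have h5 : 4 * cf / n ^ 3 ≤ (T - e / q) ^ 2 / n := by
      have h6 : (T - e / q) ^ 2 / n = (q * T - e) ^ 2 / (q ^ 2 * n) := by
        field_simp
      have h7 : 4 * cf / n ^ 3 = 4 * (q * cf) / (q ^ 2 * n) := by
        rw [← hsq]
        field_simp
      rw [h6, h7]
      exact div_le_div_of_nonneg_right hle (by positivity)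
    have h8 : 4 * ((v x - s₀ + 1) ^ 2 / n ^ 3 * cf * (ψ (v x) / (v x - s₀ + 1) ^ 2))
        = ψ (v x) * (4 * cf / n ^ 3) := by
      have : v x - s₀ + 1 ≠ 0 := by linarith
      field_simp
    rw [h8]
    exact mul_le_mul_of_nonneg_left h5 (hψ0 _)
  calc 4 * ∫⁻ y, g y ≤ 4 * ∫⁻ x in S, ENNReal.ofReal |(fderiv ℝ (MGAU.Th s₀ v) x).det|
        * g (MGAU.Th s₀ v x) := mul_le_mul_right (hcover.trans himg) _
    _ = ∫⁻ x in S, 4 * (ENNReal.ofReal |(fderiv ℝ (MGAU.Th s₀ v) x).det|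
        * g (MGAU.Th s₀ v x)) := (lintegral_const_mul' _ _ (by simp)).symm
    _ ≤ ∫⁻ x in S, ENNReal.ofReal (ψ (v x) * Wd (grad v x) (hess2 v x)) :=
        setLIntegral_mono' hSm hpt
    _ ≤ ∫⁻ x in K, ENNReal.ofReal (ψ (v x) * Wd (grad v x) (hess2 v x)) :=
        lintegral_mono_set hSK

end Pool.Agent.PFlow


end
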