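import Mathlib
import Pool.Agent.PFlow.StmtsM

/-! Parts: PFlow.M_TR, PFlow.M_BAD, PFlow.M_INT -/

section

/-!
# Module TR: truncation of a smooth approximation
-/

open MeasureTheory Filter Topology
open scoped ContDiff

namespace Pool.Agent.PFlow

open Pool.Agent.PenroseSph

namespace MTR

/-- The truncated approximation. -/
noncomputable def WT (a' b' s₀ s₁ η : ℝ) (w v : E3 → ℝ) (x : E3) : ℝ :=
  if ‖x‖ ≤ a' then s₀ else if b' ≤ ‖x‖ then s₁ else
    if w x < s₀ - η then s₀ else if s₁ + η < w x then s₁ else max s₀ (min s₁ (v x))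

theorem clamp_sub (s₀ s₁ p q e : ℝ) (h : |p - q| ≤ e) :
    |max s₀ (min s₁ p) - max s₀ (min s₁ q)| ≤ e := by
  have h1 : |max s₀ (min s₁ p) - max s₀ (min s₁ q)| ≤ |min s₁ p - min s₁ q| := by
    have := abs_max_sub_max_le_abs (min s₁ p) (min s₁ q) s₀
    rwa [max_comm (min s₁ p) s₀, max_comm (min s₁ q) s₀] at this
  have h2 : |min s₁ p - min s₁ q| ≤ |p - q| := by
    have := abs_min_sub_min_le_max s₁ p s₁ q
    simpa using this
  linarith

variable {a b a' b' s₀ s₁ η e : ℝ} {w v : E3 → ℝ}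

theorem isOpen_Ann : IsOpen (Ann a b) := by
  have : Ann a b = (fun x : E3 => ‖x‖) ⁻¹' Set.Ioo a b := rfl
  rw [this]
  exact isOpen_Ioo.preimage continuous_norm

theorem WT_low (hs : s₀ < s₁) (he : 0 < e) (heη : e < η)
    (hout : ∀ x : E3, b' ≤ ‖x‖ → ‖x‖ < b → s₁ + η ≤ w x)
    (hv : ∀ x ∈ Ann a b, s₀ - η ≤ w x → w x ≤ s₁ + η → |v x - w x| ≤ e)
    (y : E3) (hy : y ∈ Ann a b) (hw : w y < s₀ - e) : WT a' b' s₀ s₁ η w v y = s₀ := by
  unfold WT
  by_cases h1 : ‖y‖ ≤ a'
  · rw [if_pos h1]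
  rw [if_neg h1]
  by_cases h2 : b' ≤ ‖y‖
  · exfalso
    have := hout y h2 hy.2
    linarith
  rw [if_neg h2]
  by_cases h3 : w y < s₀ - η
  · rw [if_pos h3]
  rw [if_neg h3, if_neg (by linarith)]
  push Not at h3
  have h4 := hv y hy h3 (by linarith)
  have h5 := (abs_le.mp h4).2
  rw [min_eq_right (by linarith), max_eq_left (by linarith)]

theorem WT_high (hs : s₀ < s₁) (he : 0 < e) (heη : e < η)
    (hin : ∀ x : E3, a < ‖x‖ → ‖x‖ ≤ a' → w x ≤ s₀ - η)
    (hv : ∀ x ∈ Ann a b, s₀ - η ≤ w x → w x ≤ s₁ + η → |v x - w x| ≤ e)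
    (y : E3) (hy : y ∈ Ann a b) (hw : s₁ + e < w y) : WT a' b' s₀ s₁ η w v y = s₁ := by
  unfold WT
  by_cases h1 : ‖y‖ ≤ a'
  · exfalso
    have := hin y hy.1 h1
    linarith
  rw [if_neg h1]
  by_cases h2 : b' ≤ ‖y‖
  · rw [if_pos h2]
  rw [if_neg h2, if_neg (by linarith)]
  by_cases h3 : s₁ + η < w y
  · rw [if_pos h3]
  rw [if_neg h3]
  push Not at h3
  have h4 := hv y hy (by linarith) h3
  have h5 := (abs_le.mp h4).1
  rw [min_eq_left (by linarith), max_eq_right (by linarith)]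

theorem WT_mid (hin : ∀ x : E3, a < ‖x‖ → ‖x‖ ≤ a' → w x ≤ s₀ - η)
    (hout : ∀ x : E3, b' ≤ ‖x‖ → ‖x‖ < b → s₁ + η ≤ w x)
    (y : E3) (hy : y ∈ Ann a b) (hw : s₀ - η < w y) (hw' : w y < s₁ + η) :
    WT a' b' s₀ s₁ η w v y = max s₀ (min s₁ (v y)) := by
  unfold WT
  rw [if_neg (fun h1 => by have := hin y hy.1 h1; linarith),
    if_neg (fun h1 => by have := hout y h1 hy.2; linarith), if_neg (by linarith),
    if_neg (by linarith)]

theorem WT_cases (ha : a < a') (hb : b' < b) (hs : s₀ < s₁) (he : 0 < e) (heη : e < η)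
    (hcont : ContinuousOn w (Ann a b))
    (hin : ∀ x : E3, a < ‖x‖ → ‖x‖ ≤ a' → w x ≤ s₀ - η)
    (hout : ∀ x : E3, b' ≤ ‖x‖ → ‖x‖ < b → s₁ + η ≤ w x)
    (hv : ∀ x ∈ Ann a b, s₀ - η ≤ w x → w x ≤ s₁ + η → |v x - w x| ≤ e) (hab : a' < b')
    (x : E3) :
    (∀ᶠ y in 𝓝 x, WT a' b' s₀ s₁ η w v y = s₀) ∨ (∀ᶠ y in 𝓝 x, WT a' b' s₀ s₁ η w v y = s₁) ∨
    (∀ᶠ y in 𝓝 x, WT a' b' s₀ s₁ η w v y = max s₀ (min s₁ (v y))) := by
  by_cases hx1 : ‖x‖ < a'
  · left
    have : ∀ᶠ y in 𝓝 x, ‖y‖ < a' := continuous_norm.continuousAt.eventually_lt_const hx1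
    filter_upwards [this] with y hy
    unfold WT
    rw [if_pos hy.le]
  by_cases hx2 : b' < ‖x‖
  · right; left
    have : ∀ᶠ y in 𝓝 x, b' < ‖y‖ := continuous_norm.continuousAt.eventually_const_lt hx2
    filter_upwards [this] with y hy
    unfold WT
    rw [if_neg (by linarith), if_pos hy.le]
  push Not at hx1 hx2
  have hxA : x ∈ Ann a b := ⟨by linarith, by linarith⟩
  have hA : ∀ᶠ y in 𝓝 x, y ∈ Ann a b := isOpen_Ann.mem_nhds hxA
  have hwc : ContinuousAt w x := hcont.continuousAt (isOpen_Ann.mem_nhds hxA)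
  rcases lt_or_ge (w x) (s₀ - e) with h | h
  · left
    filter_upwards [hA, hwc.eventually_lt_const h] with y hy hy2
    exact WT_low hs he heη hout hv y hy hy2
  rcases lt_or_ge (s₁ + e) (w x) with h' | h'
  · right; left
    filter_upwards [hA, hwc.eventually_const_lt h'] with y hy hy2
    exact WT_high hs he heη hin hv y hy hy2
  · right; right
    filter_upwards [hA, hwc.eventually_const_lt (show s₀ - η < w x by linarith),
      hwc.eventually_lt_const (show w x < s₁ + η by linarith)] with y hy hy2 hy3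
    exact WT_mid hin hout y hy hy2 hy3

theorem locLip (hv : ContDiff ℝ ∞ v) (W : E3 → ℝ)
    (h : ∀ x, (∀ᶠ y in 𝓝 x, W y = s₀) ∨ (∀ᶠ y in 𝓝 x, W y = s₁) ∨
      (∀ᶠ y in 𝓝 x, W y = max s₀ (min s₁ (v y)))) : LocallyLipschitz W := by
  have hcl : LocallyLipschitz (fun y => max s₀ (min s₁ (v y))) := by
    have h1 : LocallyLipschitz v := (hv.of_le (by norm_cast)).locallyLipschitz
    exact (h1.const_min s₁).const_max s₀
  have key : ∀ (x : E3) (f : E3 → ℝ), LocallyLipschitz f → (∀ᶠ y in 𝓝 x, W y = f y) →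
      ∃ K, ∃ t ∈ 𝓝 x, LipschitzOnWith K W t := by
    intro x f hf hx
    obtain ⟨K, t, ht, hK⟩ := hf x
    refine ⟨K, t ∩ {y | W y = f y}, inter_mem ht hx, ?_⟩
    intro y hy z hz
    have h1 := hK hy.1 hz.1
    have h2 : W y = f y := hy.2
    have h3 : W z = f z := hz.2
    rw [h2, h3]
    exact h1
  intro x
  rcases h x with h1 | h1 | h1
  · exact key x (fun _ => s₀) (LipschitzWith.const s₀).locallyLipschitz h1
  · exact key x (fun _ => s₁) (LipschitzWith.const s₁).locallyLipschitz h1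
  · exact key x _ hcl h1

theorem globLip (W : E3 → ℝ) (hW : LocallyLipschitz W) (hs : s₀ < s₁) (hlow : ∀ x, s₀ ≤ W x)
    (hup : ∀ x, W x ≤ s₁) (hout : ∀ x : E3, b' ≤ ‖x‖ → W x = s₁) :
    ∃ C : NNReal, LipschitzWith C W := by
  obtain ⟨K, hK⟩ := (hW.locallyLipschitzOn (s := Metric.closedBall (0 : E3) (b' + 1))
    ).exists_lipschitzOnWith_of_compact (isCompact_closedBall _ _)
  have hd : 0 ≤ s₁ - s₀ := by linarith
  refine ⟨K + NNReal.mk (s₁ - s₀) hd, ?_⟩
  have main : ∀ x y : E3, b' + 1 < ‖x‖ → |W x - W y| ≤ (K + (s₁ - s₀)) * dist x y := by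
    intro x y hx
    have hx1 := hout x (by linarith)
    by_cases hy : b' ≤ ‖y‖
    · rw [hx1, hout y hy, sub_self, abs_zero]
      have : (0 : ℝ) ≤ K := K.2
      positivity
    · push Not at hy
      have h1 : 1 ≤ dist x y := by
        rw [dist_eq_norm]
        have := norm_sub_norm_le x y
        linarith
      have h2 : |W x - W y| ≤ s₁ - s₀ := by
        rw [abs_le]
        constructor <;> linarith [hlow x, hup x, hlow y, hup y]
      have h3 : (0 : ℝ) ≤ K := K.2
      have h4 : (s₁ - s₀) * 1 ≤ (K + (s₁ - s₀)) * dist x y := by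
        apply mul_le_mul _ h1 zero_le_one (by positivity)
        linarith
      linarith
  apply LipschitzWith.of_dist_le_mul
  intro x y
  rw [Real.dist_eq, NNReal.coe_add, NNReal.coe_mk]
  by_cases hx : b' + 1 < ‖x‖
  · exact main x y hx
  by_cases hy : b' + 1 < ‖y‖
  · rw [abs_sub_comm, dist_comm]
    exact main y x hy
  push Not at hx hy
  have h1 := hK.dist_le_mul x (by simpa using hx) y (by simpa using hy)
  rw [Real.dist_eq] at h1
  have h2 : (0 : ℝ) ≤ (s₁ - s₀) * dist x y := by positivity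
  linarith [add_mul (K : ℝ) (s₁ - s₀) (dist x y)]

end MTR

open MTR in
theorem TR : Stmt_TR := by
  intro a b a' b' s₀ s₁ η e w v ha0 ha hab hb hs he heη hcont hin hout hsm hv
  have hcases := WT_cases (v := v) ha hb hs he heη hcont hin hout hv hab
  have hloc := locLip hsm _ hcases
  have hlow : ∀ x, s₀ ≤ WT a' b' s₀ s₁ η w v x := by
    intro x
    unfold WT
    split_ifs <;> first | exact le_refl _ | exact hs.le | exact le_max_left _ _
  have hup : ∀ x, WT a' b' s₀ s₁ η w v x ≤ s₁ := by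
    intro x
    unfold WT
    split_ifs <;> first | exact le_refl _ | exact hs.le | exact max_le hs.le (min_le_left _ _)
  have hinner : ∀ x : E3, ‖x‖ ≤ a' → WT a' b' s₀ s₁ η w v x = s₀ := by
    intro x hx
    unfold WT
    rw [if_pos hx]
  have houter : ∀ x : E3, b' ≤ ‖x‖ → WT a' b' s₀ s₁ η w v x = s₁ := by
    intro x hx
    unfold WT
    rw [if_neg (by linarith), if_pos hx]
  obtain ⟨C, hC⟩ := globLip _ hloc hs hlow hup houter
  refine ⟨WT a' b' s₀ s₁ η w v, C, ⟨by linarith, hab, hs, hloc.continuous, hlow, hup, hinner,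
    houter⟩, hC, ?_, ?_⟩
  · intro x
    unfold WT trW
    by_cases h1 : ‖x‖ ≤ a'
    · rw [if_pos h1, if_pos h1, sub_self, abs_zero]
      exact he.le
    rw [if_neg h1, if_neg h1]
    by_cases h2 : b' ≤ ‖x‖
    · rw [if_pos h2, if_pos h2, sub_self, abs_zero]
      exact he.le
    rw [if_neg h2, if_neg h2]
    push Not at h1 h2
    by_cases h3 : w x < s₀ - η
    · rw [if_pos h3, min_eq_right (by linarith), max_eq_left (by linarith), sub_self, abs_zero]
      exact he.le
    rw [if_neg h3]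
    by_cases h4 : s₁ + η < w x
    · rw [if_pos h4, min_eq_left (by linarith), max_eq_right (by linarith), sub_self, abs_zero]
      exact he.le
    rw [if_neg h4]
    push Not at h3 h4
    exact clamp_sub _ _ _ _ _ (hv x ⟨by linarith, by linarith⟩ h3 h4)
  · intro x hx h1 h2
    have hA : ∀ᶠ y in 𝓝 x, y ∈ Ann a b := isOpen_Ann.mem_nhds hx
    have hwc : ContinuousAt w x := hcont.continuousAt (isOpen_Ann.mem_nhds hx)
    filter_upwards [hA, hwc.eventually_const_lt h1, hwc.eventually_lt_const h2] with y hy hy2 hy3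
    rw [WT_mid hin hout y hy (by linarith) (by linarith)]
    have h4 := abs_le.mp (hv y hy (by linarith) (by linarith))
    rw [min_eq_right (by linarith [h4.2]), max_eq_right (by linarith [h4.1])]

end Pool.Agent.PFlow


end

section

/-!
# The filled regions disappear in the limit
-/

open MeasureTheory Filter Topology
open scoped ContDiff ENNReal

namespace Pool.Agent.PFlow

open Pool.Agent.PenroseSph

namespace MBAD

/-- The `L²` norm. -/
noncomputable def N (μ : Measure E3) (φ : E3 → ℝ) : ℝ := (eLpNorm φ 2 μ).toReal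

variable {μ : Measure E3}

lemma N_nonneg (φ : E3 → ℝ) : 0 ≤ N μ φ := ENNReal.toReal_nonneg

lemma N_add {φ ψ : E3 → ℝ} (hφ : MemLp φ 2 μ) (hψ : MemLp ψ 2 μ) :
    N μ (fun x => φ x + ψ x) ≤ N μ φ + N μ ψ := by
  unfold N
  rw [← ENNReal.toReal_add hφ.2.ne hψ.2.ne]
  refine ENNReal.toReal_mono (ENNReal.add_ne_top.2 ⟨hφ.2.ne, hψ.2.ne⟩) ?_
  exact eLpNorm_add_le hφ.1 hψ.1 (by norm_num)

lemma N_mono {φ ψ : E3 → ℝ} (hψ : MemLp ψ 2 μ) (h : ∀ᵐ x ∂μ, |φ x| ≤ |ψ x|) :
    N μ φ ≤ N μ ψ := by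
  unfold N
  refine ENNReal.toReal_mono hψ.2.ne ?_
  exact eLpNorm_mono_ae h

lemma cs {φ ψ : E3 → ℝ} (hφ : MemLp φ 2 μ) (hψ : MemLp ψ 2 μ) :
    Integrable (fun x => φ x * ψ x) μ ∧ ∫ x, |φ x * ψ x| ∂μ ≤ N μ φ * N μ ψ := by
  have h1 : eLpNorm (fun x => φ x * ψ x) 1 μ ≤ eLpNorm φ 2 μ * eLpNorm ψ 2 μ := by
    have h := eLpNorm_le_eLpNorm_mul_eLpNorm_of_nnnorm (p := 2) (q := 2) (r := 1) hφ.1 hψ.1
      (fun a b : ℝ => a * b) 1 (Eventually.of_forall fun x => by
        rw [one_mul, nnnorm_mul])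
    rw [ENNReal.coe_one, one_mul] at h
    exact h
  have hfin : eLpNorm φ 2 μ * eLpNorm ψ 2 μ ≠ ⊤ := ENNReal.mul_ne_top hφ.2.ne hψ.2.ne
  have hm : AEStronglyMeasurable (fun x => φ x * ψ x) μ := hφ.1.mul hψ.1
  have hint : Integrable (fun x => φ x * ψ x) μ := by
    rw [← memLp_one_iff_integrable]
    exact ⟨hm, lt_of_le_of_lt h1 (lt_top_iff_ne_top.2 hfin)⟩
  refine ⟨hint, ?_⟩
  have h2 : ∫ x, |φ x * ψ x| ∂μ = (eLpNorm (fun x => φ x * ψ x) 1 μ).toReal := by
    rw [eLpNorm_one_eq_lintegral_enorm]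
    exact integral_norm_eq_lintegral_enorm hm
  rw [h2]
  unfold N
  rw [← ENNReal.toReal_mul]
  exact ENNReal.toReal_mono hfin h1

/-- Cauchy-Schwarz with a bounded factor. -/
lemma cs3 {c φ ψ : E3 → ℝ} (hφ : MemLp φ 2 μ) (hψ : MemLp ψ 2 μ)
    (hc : AEStronglyMeasurable c μ) (hc1 : ∀ x, |c x| ≤ 1) :
    Integrable (fun x => c x * φ x * ψ x) μ ∧ |∫ x, c x * φ x * ψ x ∂μ| ≤ N μ φ * N μ ψ := by
  have hle : ∀ x, |c x * φ x| ≤ |φ x| := fun x => by
    rw [abs_mul]
    exact mul_le_of_le_one_left (abs_nonneg _) (hc1 x)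
  have h1 : MemLp (fun x => c x * φ x) 2 μ :=
    hφ.mono (hc.mul hφ.1) (Eventually.of_forall hle)
  obtain ⟨h2, h3⟩ := cs h1 hψ
  refine ⟨h2, ?_⟩
  calc |∫ x, c x * φ x * ψ x ∂μ| ≤ ∫ x, |c x * φ x * ψ x| ∂μ := abs_integral_le_integral_abs
    _ ≤ N μ (fun x => c x * φ x) * N μ ψ := h3
    _ ≤ N μ φ * N μ ψ :=
      mul_le_mul_of_nonneg_right (N_mono hφ (Eventually.of_forall hle)) (N_nonneg _)

lemma memLp_cont {K : Set E3} (hK : IsCompact K) {φ : E3 → ℝ} (hφ : Continuous φ) :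
    MemLp φ 2 (volume.restrict K) := by
  have : IsFiniteMeasure (volume.restrict K) := ⟨by
    rw [Measure.restrict_apply_univ]; exact hK.measure_lt_top⟩
  obtain ⟨C, hC⟩ := hK.exists_bound_of_continuousOn hφ.continuousOn
  refine MemLp.of_bound hφ.aestronglyMeasurable C ?_
  exact (ae_restrict_iff' hK.measurableSet).2 (Eventually.of_forall hC)

/-- `L⁴` convergence implies `L²` convergence. -/
lemma l2_of_l4 {K : Set E3} (hK : IsCompact K) (φ : ℕ → E3 → ℝ)
    (hφ : ∀ n, AEStronglyMeasurable (φ n) (volume.restrict K))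
    (h : Tendsto (fun n => eLpNorm (φ n) 4 (volume.restrict K)) atTop (𝓝 0)) :
    Tendsto (fun n => N (volume.restrict K) (φ n)) atTop (𝓝 0) := by
  have hK' : volume.restrict K Set.univ ≠ ⊤ := by
    rw [Measure.restrict_apply_univ]; exact hK.measure_lt_top.ne
  set c : ℝ≥0∞ := (volume.restrict K Set.univ) ^ (1 / (2 : ℝ≥0∞).toReal - 1 / (4 : ℝ≥0∞).toReal)
  have hc : c ≠ ⊤ := by
    refine ENNReal.rpow_ne_top_of_nonneg ?_ hK'
    norm_num
  have h1 : Tendsto (fun n => eLpNorm (φ n) 4 (volume.restrict K) * c) atTop (𝓝 0) := by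
    have := ENNReal.Tendsto.mul_const h (Or.inr hc)
    rwa [zero_mul] at this
  have h2 : Tendsto (fun n => eLpNorm (φ n) 2 (volume.restrict K)) atTop (𝓝 0) := by
    refine tendsto_of_tendsto_of_tendsto_of_le_of_le tendsto_const_nhds h1
      (fun n => bot_le) (fun n => ?_)
    exact eLpNorm_le_eLpNorm_mul_rpow_measure_univ (by norm_num) (hφ n)
  have h3 := (ENNReal.tendsto_toReal ENNReal.zero_ne_top).comp h2
  rw [ENNReal.toReal_zero] at h3
  exact h3

lemma toReal_tendsto {K : Set E3} (φ : ℕ → E3 → ℝ)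
    (h : Tendsto (fun n => eLpNorm (φ n) 2 (volume.restrict K)) atTop (𝓝 0)) :
    Tendsto (fun n => N (volume.restrict K) (φ n)) atTop (𝓝 0) := by
  have h3 := (ENNReal.tendsto_toReal ENNReal.zero_ne_top).comp h
  rw [ENNReal.toReal_zero] at h3
  exact h3

lemma contDiff_pd {u : E3 → ℝ} (hu : ContDiff ℝ ∞ u) (i : Fin 3) : ContDiff ℝ ∞ (pd i u) := by
  unfold pd
  exact (hu.fderiv_right (m := ∞) (by simp)).clm_apply contDiff_const

/-- Integration by parts against a Lipschitz function. -/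
lemma ibp {k u F : E3 → ℝ} {C : NNReal} (hk : ContDiff ℝ ∞ k) (hkc : HasCompactSupport k)
    (hu : ContDiff ℝ ∞ u) (hF : LipschitzWith C F) (i : Fin 3) :
    ∫ x, k x * (pd i u x - pd i F x) = - ∫ x, pd i k x * (u x - F x) := by
  have hk1 : ContDiff ℝ 1 k := hk.of_le (by simp)
  obtain ⟨D, hD⟩ := hk1.lipschitzWith_of_hasCompactSupport hkc (by simp)
  have hdk : HasCompactSupport (pd i k) := hkc.fderiv_apply ℝ _
  have hcdk : Continuous (pd i k) := (contDiff_pd hk i).continuous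
  have hcdu : Continuous (pd i u) := (contDiff_pd hu i).continuous
  have i1 : Integrable (fun x => pd i k x * u x) :=
    (hcdk.mul hu.continuous).integrable_of_hasCompactSupport hdk.mul_right
  have i2 : Integrable (fun x => k x * pd i u x) :=
    (hk.continuous.mul hcdu).integrable_of_hasCompactSupport hkc.mul_right
  have i3 : Integrable (fun x => k x * u x) :=
    (hk.continuous.mul hu.continuous).integrable_of_hasCompactSupport hkc.mul_right
  have i4 : Integrable (fun x => pd i k x * F x) :=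
    (hcdk.mul hF.continuous).integrable_of_hasCompactSupport hdk.mul_right
  have e1 : ∫ x, k x * pd i u x = - ∫ x, pd i k x * u x := by
    unfold pd
    exact integral_mul_fderiv_eq_neg_fderiv_mul_of_integrable i1 i2 i3
      (fun x _ => hk1.differentiable (by simp) x)
      (fun x _ => hu.differentiable (by simp) x)
  have hae : ∀ᵐ x : E3, lineDeriv ℝ F x (EuclideanSpace.single i 1) = pd i F x := by
    filter_upwards [hF.ae_differentiableAt] with x hx
    exact hx.lineDeriv_eq_fderiv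
  have e2 : ∫ x, k x * pd i F x = - ∫ x, pd i k x * F x := by
    have h1 := LipschitzWith.integral_lineDeriv_mul_eq (μ := (volume : Measure E3)) hF hD hkc
      (EuclideanSpace.single i 1)
    have h2 : ∫ x, lineDeriv ℝ F x (EuclideanSpace.single i 1) * k x = ∫ x, k x * pd i F x := by
      refine integral_congr_ae ?_
      filter_upwards [hae] with x hx
      rw [hx, mul_comm]
    have h3 : ∀ x, lineDeriv ℝ k x (-(EuclideanSpace.single i 1)) * F x = -(pd i k x * F x) := by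
      intro x
      rw [(hk1.differentiable (by simp) x).lineDeriv_eq_fderiv, map_neg, neg_mul]
      rfl
    rw [← h2, h1]
    simp_rw [h3]
    rw [integral_neg]
  have i5 : Integrable (fun x => k x * pd i F x) := by
    have h4 : Integrable (fun x => lineDeriv ℝ F x (EuclideanSpace.single i 1) * k x) := by
      have h5 : Integrable (fun x => (C : ℝ) * ‖(EuclideanSpace.single i 1 : E3)‖ * ‖k x‖) :=
        ((hk.continuous.integrable_of_hasCompactSupport hkc).norm).const_mul _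
      refine h5.mono ?_ ?_
      · exact (measurable_lineDeriv hF.continuous).aestronglyMeasurable.mul
          hk.continuous.aestronglyMeasurable
      · refine Eventually.of_forall fun x => ?_
        rw [norm_mul, norm_mul, norm_mul, norm_norm, norm_norm, Real.norm_eq_abs (C : ℝ),
          abs_of_nonneg (NNReal.coe_nonneg C)]
        exact mul_le_mul_of_nonneg_right (norm_lineDeriv_le_of_lipschitz ℝ hF) (norm_nonneg _)
    refine h4.congr ?_
    filter_upwards [hae] with x hx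
    rw [hx, mul_comm]
  simp_rw [mul_sub]
  rw [integral_sub i2 i5, integral_sub i1 i4, e1, e2]
  ring

lemma N_le_add {φ G : E3 → ℝ} (hφ : MemLp φ 2 μ) (hG : MemLp G 2 μ) :
    N μ φ ≤ N μ G + N μ (fun x => φ x - G x) := by
  have h := N_add hG (hφ.sub hG)
  have e : (fun x => G x + (φ - G) x) = φ := by
    funext x
    simp
  rw [e] at h
  exact h

/-- The term with the integration by parts. -/
lemma T1_bound {K S : Set E3} (hK : IsCompact K) {f u v F w : E3 → ℝ} {C : NNReal}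
    (hf : ContDiff ℝ ∞ f) (hfK : tsupport f ⊆ K) (hf0 : ∀ x, 0 ≤ f x) (hf1 : ∀ x, f x ≤ 1)
    (hu : ContDiff ℝ ∞ u) (hF : LipschitzWith C F) (i : Fin 3)
    (hFS : ∀ᵐ x ∂(volume.restrict K), pd i F x = S.indicator (pd i v) x)
    (η e Cf : ℝ) (hη : ∀ x ∈ K, |u x - w x| ≤ η) (he : ∀ x ∈ K, |w x - F x| ≤ e)
    (he0 : 0 ≤ η + e) (hCf0 : 0 ≤ Cf) (hCf : ∀ x ∈ K, |pd i f x| ≤ Cf) :
    |∫ x in K, f x * (pd i u x - S.indicator (pd i v) x) * pd i u x| ≤
      (η + e) * ((Cf * N (volume.restrict K) (pd i u) +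
        N (volume.restrict K) (pd i (pd i u))) * N (volume.restrict K) (fun _ => 1)) := by
  have hcs : HasCompactSupport f := hK.of_isClosed_subset (isClosed_tsupport f) hfK
  set k : E3 → ℝ := fun x => f x * pd i u x with hk
  have hg : ContDiff ℝ ∞ (pd i u) := contDiff_pd hu i
  have hks : ContDiff ℝ ∞ k := hf.mul hg
  have hkc : HasCompactSupport k := hcs.mul_right
  have hkt : tsupport k ⊆ K := (tsupport_mul_subset_left).trans hfK
  have hk0 : ∀ x, x ∉ K → k x = 0 := fun x hx => image_eq_zero_of_notMem_tsupport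
    (fun h => hx (hkt h))
  have hdk0 : ∀ x, x ∉ K → pd i k x = 0 := by
    intro x hx
    have h1 : x ∉ tsupport k := fun h => hx (hkt h)
    have h2 : fderiv ℝ k x = 0 := by
      have h3 : x ∉ tsupport (fderiv ℝ k) := fun h => h1 (tsupport_fderiv_subset ℝ h)
      exact image_eq_zero_of_notMem_tsupport h3
    unfold pd
    rw [h2]
    rfl
  have e1 : ∫ x in K, f x * (pd i u x - S.indicator (pd i v) x) * pd i u x =
      ∫ x in K, k x * (pd i u x - pd i F x) := by
    refine integral_congr_ae ?_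
    filter_upwards [hFS] with x hx
    rw [hx, hk]
    ring
  have e2 : ∫ x in K, k x * (pd i u x - pd i F x) = ∫ x, k x * (pd i u x - pd i F x) :=
    setIntegral_eq_integral_of_forall_compl_eq_zero fun x hx => by rw [hk0 x hx, zero_mul]
  have e3 : ∫ x in K, pd i k x * (u x - F x) = ∫ x, pd i k x * (u x - F x) :=
    setIntegral_eq_integral_of_forall_compl_eq_zero fun x hx => by rw [hdk0 x hx, zero_mul]
  rw [e1, e2, ibp hks hkc hu hF i, ← e3, abs_neg]
  have hdk : ∀ x, pd i k x = pd i f x * pd i u x + f x * pd i (pd i u) x := by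
    intro x
    have hfd : DifferentiableAt ℝ f x := hf.differentiable (by simp) x
    have hgd : DifferentiableAt ℝ (pd i u) x := hg.differentiable (by simp) x
    have h1 : fderiv ℝ k x = f x • fderiv ℝ (pd i u) x + pd i u x • fderiv ℝ f x :=
      fderiv_fun_mul hfd hgd
    unfold pd at h1 ⊢
    rw [h1]
    simp only [add_apply, smul_apply, smul_eq_mul]
    ring
  have cdk : Continuous (pd i k) := (contDiff_pd hks i).continuous
  have m1 : MemLp (pd i u) 2 (volume.restrict K) := memLp_cont hK hg.continuous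
  have m2 : MemLp (pd i (pd i u)) 2 (volume.restrict K) :=
    memLp_cont hK (contDiff_pd hg i).continuous
  have m3 : MemLp (fun _ : E3 => (1 : ℝ)) 2 (volume.restrict K) := memLp_cont hK continuous_const
  obtain ⟨c1, c2⟩ := cs m1 m3
  obtain ⟨c3, c4⟩ := cs m2 m3
  have b1 : ∀ x ∈ K, |pd i k x * (u x - F x)| ≤
      (η + e) * (Cf * |pd i u x * 1| + |pd i (pd i u) x * 1|) := by
    intro x hx
    have h1 : |u x - F x| ≤ η + e := by
      have h2 : u x - F x = (u x - w x) + (w x - F x) := by ring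
      rw [h2]
      exact (abs_add_le _ _).trans (add_le_add (hη x hx) (he x hx))
    have h3 : |pd i k x| ≤ Cf * |pd i u x| + |pd i (pd i u) x| := by
      rw [hdk]
      refine (abs_add_le _ _).trans (add_le_add ?_ ?_)
      · rw [abs_mul]
        exact mul_le_mul_of_nonneg_right (hCf x hx) (abs_nonneg _)
      · rw [abs_mul, abs_of_nonneg (hf0 x)]
        exact mul_le_of_le_one_left (abs_nonneg _) (hf1 x)
    rw [abs_mul, mul_one, mul_one, mul_comm]
    exact mul_le_mul h1 h3 (abs_nonneg _) he0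
  have ib : Integrable (fun x => (η + e) * (Cf * |pd i u x * 1| + |pd i (pd i u) x * 1|))
      (volume.restrict K) := ((c1.abs.const_mul Cf).add c3.abs).const_mul _
  calc |∫ x in K, pd i k x * (u x - F x)| ≤ ∫ x in K, |pd i k x * (u x - F x)| :=
        abs_integral_le_integral_abs
    _ ≤ ∫ x in K, (η + e) * (Cf * |pd i u x * 1| + |pd i (pd i u) x * 1|) := by
        refine setIntegral_mono_on ?_ ib hK.measurableSet b1
        have hc : Continuous fun x => |pd i k x * (u x - F x)| :=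
          (cdk.mul (hu.continuous.sub hF.continuous)).abs
        exact hc.continuousOn.integrableOn_compact hK
    _ = (η + e) * (Cf * (∫ x in K, |pd i u x * 1|) + ∫ x in K, |pd i (pd i u) x * 1|) := by
        rw [integral_const_mul, integral_add (c1.abs.const_mul Cf) c3.abs, integral_const_mul]
    _ ≤ _ := by
        refine mul_le_mul_of_nonneg_left ?_ he0
        rw [add_mul, mul_assoc]
        exact add_le_add (mul_le_mul_of_nonneg_left c2 hCf0) c4

/-- The estimate for one coordinate. -/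
lemma coord {K S : Set E3} (hK : IsCompact K) (hS : MeasurableSet S) {f u v F w : E3 → ℝ}
    {C : NNReal} (hf : ContDiff ℝ ∞ f) (hfK : tsupport f ⊆ K) (hf0 : ∀ x, 0 ≤ f x)
    (hf1 : ∀ x, f x ≤ 1) (hu : ContDiff ℝ ∞ u) (hv : ContDiff ℝ ∞ v) (hF : LipschitzWith C F)
    (i : Fin 3) {G M : E3 → ℝ} (hG : MemLp G 2 (volume.restrict K))
    (hM : MemLp M 2 (volume.restrict K))
    (hFS : ∀ᵐ x ∂(volume.restrict K), pd i F x = S.indicator (pd i v) x)
    {η e Cf δ δ' b : ℝ} (hη : ∀ x ∈ K, |u x - w x| ≤ η) (he : ∀ x ∈ K, |w x - F x| ≤ e)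
    (he0 : 0 ≤ η + e) (hCf0 : 0 ≤ Cf) (hCf : ∀ x ∈ K, |pd i f x| ≤ Cf)
    (hδ : N (volume.restrict K) (fun x => pd i u x - G x) ≤ δ)
    (hδ' : N (volume.restrict K) (fun x => pd i (pd i u) x - M x) ≤ δ')
    (hb : N (volume.restrict K) (fun x => pd i v x - G x) ≤ b) :
    IntegrableOn (fun x => f x * G x ^ 2) (K \ S) ∧
    ∫ x in K \ S, f x * G x ^ 2 ≤
      (η + e) * ((Cf * (N (volume.restrict K) G + δ) + (N (volume.restrict K) M + δ')) *
        N (volume.restrict K) (fun _ => 1)) +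
      δ * (3 * N (volume.restrict K) G + δ + b) + b * N (volume.restrict K) G := by
  set ν := volume.restrict K with hν
  have hg : ContDiff ℝ ∞ (pd i u) := contDiff_pd hu i
  have m1 : MemLp (pd i u) 2 ν := memLp_cont hK hg.continuous
  have m2 : MemLp (pd i (pd i u)) 2 ν := memLp_cont hK (contDiff_pd hg i).continuous
  have m3 : MemLp (pd i v) 2 ν := memLp_cont hK (contDiff_pd hv i).continuous
  have mD : MemLp (S.indicator (pd i v)) 2 ν := m3.indicator hS
  have hfa : ∀ x, |f x| ≤ 1 := fun x => by rw [abs_of_nonneg (hf0 x)]; exact hf1 x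
  have hfm : AEStronglyMeasurable f ν := hf.continuous.aestronglyMeasurable
  have hδ0 : 0 ≤ δ := (N_nonneg _).trans hδ
  have hδ'0 : 0 ≤ δ' := (N_nonneg _).trans hδ'
  have hb0 : 0 ≤ b := (N_nonneg _).trans hb
  -- the three terms
  obtain ⟨j1, -⟩ := cs3 (m1.sub mD) m1 hfm hfa
  obtain ⟨j2, k2⟩ := cs3 (hG.sub m1) ((hG.add m1).sub mD) hfm hfa
  obtain ⟨j3, k3⟩ := cs3 (c := S.indicator f) (m3.sub hG) hG (hfm.indicator hS) (fun x => by
    by_cases hx : x ∈ S
    · rw [Set.indicator_of_mem hx]; exact hfa x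
    · rw [Set.indicator_of_notMem hx, abs_zero]; exact zero_le_one)
  have hpt : ∀ x, (Sᶜ).indicator (fun x => f x * G x ^ 2) x =
      f x * (pd i u - S.indicator (pd i v)) x * pd i u x +
      f x * (G - pd i u) x * (G + pd i u - S.indicator (pd i v)) x +
      S.indicator f x * (pd i v - G) x * G x := by
    intro x
    simp only [Pi.sub_apply, Pi.add_apply]
    by_cases hx : x ∈ S
    · rw [Set.indicator_of_notMem (by simpa using hx), Set.indicator_of_mem hx,
        Set.indicator_of_mem hx]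
      ring
    · rw [Set.indicator_of_mem (by simpa using hx), Set.indicator_of_notMem hx,
        Set.indicator_of_notMem hx]
      ring
  have hint : Integrable ((Sᶜ).indicator (fun x => f x * G x ^ 2)) ν :=
    ((j1.add j2).add j3).congr (Eventually.of_forall fun x => (hpt x).symm)
  have hintS : IntegrableOn (fun x => f x * G x ^ 2) (K \ S) := by
    rw [Set.sdiff_eq, Set.inter_comm, IntegrableOn, ← Measure.restrict_restrict hS.compl]
    exact (integrable_indicator_iff hS.compl).1 hint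
  refine ⟨hintS, ?_⟩
  have hI : ∫ x in K \ S, f x * G x ^ 2 = ∫ x, (Sᶜ).indicator (fun x => f x * G x ^ 2) x ∂ν := by
    rw [hν, setIntegral_indicator hS.compl, Set.sdiff_eq]
  have hsum : ∫ x, (Sᶜ).indicator (fun x => f x * G x ^ 2) x ∂ν =
      (∫ x, f x * (pd i u - S.indicator (pd i v)) x * pd i u x ∂ν) +
      (∫ x, f x * (G - pd i u) x * (G + pd i u - S.indicator (pd i v)) x ∂ν) +
      (∫ x, S.indicator f x * (pd i v - G) x * G x ∂ν) := by
    refine (integral_congr_ae (Eventually.of_forall hpt)).trans ?_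
    refine (integral_add (j1.add j2) j3).trans ?_
    exact congrArg (· + _) (integral_add j1 j2)
  have t1 := T1_bound hK hf hfK hf0 hf1 hu hF i hFS η e Cf hη he he0 hCf0 hCf
  have n1 : N ν (pd i u) ≤ N ν G + δ := (N_le_add m1 hG).trans (by linarith)
  have n2 : N ν (pd i (pd i u)) ≤ N ν M + δ' := (N_le_add m2 hM).trans (by linarith)
  have n3 : N ν (pd i v) ≤ N ν G + b := (N_le_add m3 hG).trans (by linarith)
  have n4 : N ν (S.indicator (pd i v)) ≤ N ν G + b := by
    refine (N_mono m3 (Eventually.of_forall fun x => ?_)).trans n3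
    by_cases hx : x ∈ S
    · rw [Set.indicator_of_mem hx]
    · rw [Set.indicator_of_notMem hx, abs_zero]; exact abs_nonneg _
  have n5 : N ν (G - pd i u) ≤ δ := by
    refine (N_mono (m1.sub hG) (Eventually.of_forall fun x => ?_)).trans hδ
    rw [Pi.sub_apply, Pi.sub_apply, abs_sub_comm]
  have n6 : N ν (G + pd i u - S.indicator (pd i v)) ≤ 3 * N ν G + δ + b := by
    have h1 := N_add (hG.add m1) mD.neg
    have h2 := N_add hG m1
    have h3 : N ν (-S.indicator (pd i v)) ≤ N ν (S.indicator (pd i v)) :=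
      N_mono mD (Eventually.of_forall fun x => by rw [Pi.neg_apply, abs_neg])
    have h4 : (fun x => (G + pd i u) x + (-S.indicator (pd i v)) x) =
        G + pd i u - S.indicator (pd i v) := by
      funext x
      simp only [Pi.sub_apply, Pi.add_apply, Pi.neg_apply]
      ring
    rw [h4] at h1
    have h5 : (fun x => G x + pd i u x) = G + pd i u := rfl
    rw [h5] at h2
    linarith
  have q2 : N ν (G - pd i u) * N ν (G + pd i u - S.indicator (pd i v)) ≤
      δ * (3 * N ν G + δ + b) := mul_le_mul n5 n6 (N_nonneg _) hδ0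
  have q3 : N ν (pd i v - G) * N ν G ≤ b * N ν G :=
    mul_le_mul_of_nonneg_right hb (N_nonneg _)
  have q1 : (η + e) * ((Cf * N ν (pd i u) + N ν (pd i (pd i u))) * N ν (fun _ => 1)) ≤
      (η + e) * ((Cf * (N ν G + δ) + (N ν M + δ')) * N ν (fun _ => 1)) := by
    refine mul_le_mul_of_nonneg_left ?_ he0
    refine mul_le_mul_of_nonneg_right ?_ (N_nonneg _)
    exact add_le_add (mul_le_mul_of_nonneg_left n1 hCf0) n2
  rw [hI, hsum]
  have r1 := le_of_abs_le (t1.trans q1)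
  have r2 := le_of_abs_le (k2.trans q2)
  have r3 := le_of_abs_le (k3.trans q3)
  exact add_le_add (add_le_add r1 r2) r3

end MBAD

theorem BAD (hFA : Stmt_FA) (hFM : Stmt_FM) (hAEG : Stmt_AEG) : Stmt_BAD := by
  intro a b a' b' s₀ s₁ w G M K z₁ v W C e f _ _ _ _ _ hH hK hKU hKw hKx hz₁ hTr hfix hWT hWL hv
    hag he hWe hvG hf hfK hf0 hf1
  set ν := volume.restrict K with hν
  set F : ℕ → E3 → ℝ := fun n => fill (W n) s₀ s₁ 0 z₁ with hFdef
  set S : ℕ → Set E3 := fun n => good (W n) s₀ s₁ 0 z₁ with hSdef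
  have hFL : ∀ n, LipschitzWith (C n) (F n) := fun n =>
    (hFA a' b' s₀ s₁ (W n) (C n) z₁ (hWT n) (hWL n) hz₁).2.1
  have htr : ∀ x ∈ K, trW a' b' s₀ s₁ w x = w x := by
    intro x hx
    obtain ⟨h1, h2⟩ := hKx x hx
    obtain ⟨h3, h4⟩ := hKw x hx
    unfold trW
    rw [if_neg (not_le.2 h1), if_neg (not_le.2 h2), min_eq_right h4.le, max_eq_right h3.le]
  have hFw : ∀ n, ∀ x ∈ K, |w x - F n x| ≤ e n := by
    intro n x hx
    have h1 := hFM a' b' s₀ s₁ (e n) (W n) (trW a' b' s₀ s₁ w) z₁ (hWT n) hTr hz₁ (hWe n) x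
    rw [hfix, htr x hx, abs_sub_comm] at h1
    exact h1
  have hSc : ∀ n, IsClosed (S n) := fun n =>
    (hAEG a' b' s₀ s₁ (W n) (C n) z₁ (hWT n) (hWL n) hz₁).1
  have hFS : ∀ n i, ∀ᵐ x ∂ν, pd i (F n) x = (S n).indicator (pd i (v n)) x := by
    intro n i
    have h1 := (hAEG a' b' s₀ s₁ (W n) (C n) z₁ (hWT n) (hWL n) hz₁).2
    filter_upwards [ae_restrict_of_ae h1, ae_restrict_mem hK.measurableSet] with x hx hxK
    by_cases hxS : x ∈ S n
    · rw [Set.indicator_of_mem hxS]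
      unfold pd
      rw [hx.1 hxS, Filter.EventuallyEq.fderiv_eq (hag n x hxK)]
    · rw [Set.indicator_of_notMem hxS]
      unfold pd
      rw [hx.2 hxS]
      rfl
  obtain ⟨u, hu, huw, huG, huM⟩ := hH.approx K hK hKU
  have : IsFiniteMeasure ν := ⟨by rw [hν, Measure.restrict_apply_univ]; exact hK.measure_lt_top⟩
  have hG : ∀ i, MemLp (fun x => G x i) 2 ν := fun i =>
    (hH.memG K hK hKU i).mono_exponent (by norm_num)
  have hM : ∀ i, MemLp (fun x => M x i i) 2 ν := fun i => hH.memM K hK hKU i i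
  have mu : ∀ m i, MemLp (pd i (u m)) 2 ν := fun m i =>
    MBAD.memLp_cont hK (MBAD.contDiff_pd (hu m) i).continuous
  have mv : ∀ n i, MemLp (pd i (v n)) 2 ν := fun n i =>
    MBAD.memLp_cont hK (MBAD.contDiff_pd (hv n) i).continuous
  have c1 : ∀ i, Tendsto (fun m => MBAD.N ν (fun x => pd i (u m) x - G x i)) atTop (𝓝 0) :=
    fun i => MBAD.l2_of_l4 hK _ (fun m => (mu m i).1.sub (hG i).1) (huG i)
  have c2 : ∀ i, Tendsto (fun m => MBAD.N ν (fun x => pd i (pd i (u m)) x - M x i i)) atTop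
      (𝓝 0) := fun i => MBAD.toReal_tendsto _ (huM i i)
  have c3 : ∀ i, Tendsto (fun n => MBAD.N ν (fun x => pd i (v n) x - G x i)) atTop (𝓝 0) :=
    fun i => MBAD.l2_of_l4 hK _ (fun n => (mv n i).1.sub (hG i).1) (hvG i)
  have hCf : ∀ i, ∃ c : ℝ, 0 ≤ c ∧ ∀ x ∈ K, |pd i f x| ≤ c := by
    intro i
    obtain ⟨c, hc⟩ := hK.exists_bound_of_continuousOn
      (MBAD.contDiff_pd hf i).continuous.continuousOn
    exact ⟨max c 0, le_max_right _ _, fun x hx => (hc x hx).trans (le_max_left _ _)⟩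
  choose cf hcf0 hcf using hCf
  set Q : ℝ := ∑ i : Fin 3, (2 * ((cf i * (MBAD.N ν (fun x => G x i) + 1) +
    (MBAD.N ν (fun x => M x i i) + 1)) * MBAD.N ν (fun _ => 1)) +
    (3 * MBAD.N ν (fun x => G x i) + 2) + MBAD.N ν (fun x => G x i)) with hQ
  have hQ0 : 0 ≤ Q := by
    refine Finset.sum_nonneg fun i _ => ?_
    have h1 := MBAD.N_nonneg (μ := ν) (fun x => G x i)
    have h2 := MBAD.N_nonneg (μ := ν) (fun x => M x i i)
    have h3 := MBAD.N_nonneg (μ := ν) (fun _ => 1)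
    have h4 := hcf0 i
    positivity
  have main : ∀ κ : ℝ, 0 < κ → κ ≤ 1 → ∀ᶠ n in atTop,
      ∫ x in K \ S n, f x * vsq (G x) ≤ κ * Q := by
    intro κ hκ hκ1
    have d1 : ∀ᶠ m in atTop, ∀ i, MBAD.N ν (fun x => pd i (u m) x - G x i) ≤ κ :=
      eventually_all.2 fun i => (c1 i).eventually_le_const hκ
    have d2 : ∀ᶠ m in atTop, ∀ i, MBAD.N ν (fun x => pd i (pd i (u m)) x - M x i i) ≤ 1 :=
      eventually_all.2 fun i => (c2 i).eventually_le_const one_pos
    have d3 : ∀ᶠ m in atTop, ∀ x ∈ K, dist (w x) (u m x) < κ :=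
      Metric.tendstoUniformlyOn_iff.1 huw κ hκ
    obtain ⟨m, hm1, hm2, hm3⟩ := (d1.and (d2.and d3)).exists
    have d4 : ∀ᶠ n in atTop, ∀ i, MBAD.N ν (fun x => pd i (v n) x - G x i) ≤ κ :=
      eventually_all.2 fun i => (c3 i).eventually_le_const hκ
    have d5 : ∀ᶠ n in atTop, e n ≤ κ := he.eventually_le_const hκ
    filter_upwards [d4, d5] with n hn4 hn5
    have hc := fun i => MBAD.coord (w := w) (η := κ) (e := κ) (δ := κ) (δ' := 1) (b := κ) hK
      (hSc n).measurableSet hf hfK hf0 hf1 (hu m) (hv n) (hFL n) i (hG i) (hM i) (hFS n i)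
      (fun x hx => by
        have := hm3 x hx
        rw [dist_comm, Real.dist_eq] at this
        exact this.le)
      (fun x hx => (hFw n x hx).trans hn5) (by linarith) (hcf0 i) (hcf i) (hm1 i) (hm2 i) (hn4 i)
    have e1 : ∫ x in K \ S n, f x * vsq (G x) = ∑ i, ∫ x in K \ S n, f x * G x i ^ 2 := by
      rw [← integral_finsetSum _ (fun i _ => (hc i).1)]
      refine integral_congr_ae (Eventually.of_forall fun x => ?_)
      show f x * vsq (G x) = ∑ i, f x * G x i ^ 2
      unfold vsq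
      rw [Finset.mul_sum]
    rw [e1, hQ, Finset.mul_sum]
    refine Finset.sum_le_sum fun i _ => (hc i).2.trans ?_
    have h1 := MBAD.N_nonneg (μ := ν) (fun x => G x i)
    have h2 := MBAD.N_nonneg (μ := ν) (fun x => M x i i)
    have h3 := MBAD.N_nonneg (μ := ν) (fun _ => 1)
    have h4 := hcf0 i
    have h5 : (cf i * (MBAD.N ν (fun x => G x i) + κ) + (MBAD.N ν (fun x => M x i i) + 1)) *
        MBAD.N ν (fun _ => 1) ≤ (cf i * (MBAD.N ν (fun x => G x i) + 1) +
        (MBAD.N ν (fun x => M x i i) + 1)) * MBAD.N ν (fun _ => 1) := by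
      refine mul_le_mul_of_nonneg_right ?_ h3
      have := mul_le_mul_of_nonneg_left (add_le_add_right hκ1 (MBAD.N ν (fun x => G x i))) h4
      linarith
    have h6 : κ * (3 * MBAD.N ν (fun x => G x i) + κ + κ) ≤
        κ * (3 * MBAD.N ν (fun x => G x i) + 2) :=
      mul_le_mul_of_nonneg_left (by linarith) hκ.le
    have h7 := mul_le_mul_of_nonneg_left h5 (show 0 ≤ κ + κ by linarith)
    calc _ ≤ (κ + κ) * ((cf i * (MBAD.N ν (fun x => G x i) + 1) +
        (MBAD.N ν (fun x => M x i i) + 1)) * MBAD.N ν (fun _ => 1)) +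
        κ * (3 * MBAD.N ν (fun x => G x i) + 2) + κ * MBAD.N ν (fun x => G x i) :=
          add_le_add (add_le_add h7 h6) le_rfl
      _ = _ := by ring
  rw [Metric.tendsto_nhds]
  intro ε hε
  have hκ : 0 < min 1 (ε / (2 * (Q + 1))) := lt_min one_pos (by positivity)
  filter_upwards [main _ hκ (min_le_left _ _)] with n hn
  have h0 : 0 ≤ ∫ x in K \ S n, f x * vsq (G x) := by
    refine integral_nonneg fun x => mul_nonneg (hf0 x) ?_
    unfold vsq
    exact Finset.sum_nonneg fun i _ => sq_nonneg _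
  rw [Real.dist_eq, sub_zero, abs_of_nonneg h0]
  have h1 : min 1 (ε / (2 * (Q + 1))) * Q ≤ ε / (2 * (Q + 1)) * Q :=
    mul_le_mul_of_nonneg_right (min_le_right _ _) hQ0
  have h2 : ε / (2 * (Q + 1)) * Q < ε := by
    rw [div_mul_eq_mul_div, div_lt_iff₀ (by positivity)]
    nlinarith
  exact (hn.trans h1).trans_lt h2

end Pool.Agent.PFlow


end

section

/-!
# Module INT: integrability on compact sets
-/

open MeasureTheory Filter Topology
open scoped ContDiff

namespace Pool.Agent.PFlow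

open Pool.Agent.PenroseSph

namespace MINT

/-! ## Smoothness of the coefficients -/

section smooth

theorem pd_cd (i : Fin 3) {f : E3 → ℝ} {x : E3} (hf : ContDiffAt ℝ ∞ f x) :
    ContDiffAt ℝ ∞ (pd i f) x := by
  unfold pd
  exact (hf.fderiv_right (m := ∞) le_rfl).clm_apply contDiffAt_const

theorem sum_cd {f : Fin 3 → E3 → ℝ} {x : E3} (hf : ∀ i, ContDiffAt ℝ ∞ (f i) x) :
    ContDiffAt ℝ ∞ (fun y => ∑ i, f i y) x :=
  ContDiffAt.sum fun i _ => hf i

variable {U : Set E3} {g h : TensorField} (hU : IsOpen U) (hg : MetricOn U g)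
  (hh : TensorOn U h) {x : E3} (hx : x ∈ U)

include hU hg hx

theorem g_cd (i j : Fin 3) : ContDiffAt ℝ ∞ (fun y => g y i j) x :=
  (hg.smooth i j).contDiffAt (hU.mem_nhds hx)

theorem det_cd : ContDiffAt ℝ ∞ (fun y => (g y).det) x := by
  have h1 : (fun y => (g y).det) = fun y => g y 0 0 * g y 1 1 * g y 2 2
      - g y 0 0 * g y 1 2 * g y 2 1 - g y 0 1 * g y 1 0 * g y 2 2
      + g y 0 1 * g y 1 2 * g y 2 0 + g y 0 2 * g y 1 0 * g y 2 1
      - g y 0 2 * g y 1 1 * g y 2 0 := by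
    funext y
    exact Matrix.det_fin_three _
  rw [h1]
  have c := g_cd hU hg hx
  exact ((((((c 0 0).mul (c 1 1)).mul (c 2 2)).sub (((c 0 0).mul (c 1 2)).mul (c 2 1))).sub
    (((c 0 1).mul (c 1 0)).mul (c 2 2))).add (((c 0 1).mul (c 1 2)).mul (c 2 0)) |>.add
    (((c 0 2).mul (c 1 0)).mul (c 2 1))).sub (((c 0 2).mul (c 1 1)).mul (c 2 0))

theorem adj_cd (i j : Fin 3) : ContDiffAt ℝ ∞ (fun y => (g y).adjugate i j) x := by
  have c := g_cd hU hg hx
  have h1 : ∀ y, (g y).adjugate i j = ((g y).updateRow j (Pi.single i 1)).det := by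
    intro y
    rw [Matrix.adjugate_apply]
  simp only [h1, Matrix.det_fin_three]
  have hc : ∀ a b : Fin 3, ContDiffAt ℝ ∞ (fun y => ((g y).updateRow j (Pi.single i 1)) a b) x := by
    intro a b
    simp only [Matrix.updateRow_apply]
    split_ifs
    · exact contDiffAt_const
    · exact c a b
  exact ((((((hc 0 0).mul (hc 1 1)).mul (hc 2 2)).sub (((hc 0 0).mul (hc 1 2)).mul (hc 2 1))).sub
    (((hc 0 1).mul (hc 1 0)).mul (hc 2 2))).add (((hc 0 1).mul (hc 1 2)).mul (hc 2 0)) |>.add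
    (((hc 0 2).mul (hc 1 0)).mul (hc 2 1))).sub (((hc 0 2).mul (hc 1 1)).mul (hc 2 0))

theorem inv_cd (i j : Fin 3) : ContDiffAt ℝ ∞ (fun y => (g y)⁻¹ i j) x := by
  have h1 : (fun y => (g y)⁻¹ i j) = fun y => ((g y).det)⁻¹ * (g y).adjugate i j := by
    funext y
    rw [Matrix.inv_def, Ring.inverse_eq_inv']
    simp [Matrix.smul_apply]
  rw [h1]
  exact ((det_cd hU hg hx).inv (hg.posDef x hx).det_pos.ne').mul (adj_cd hU hg hx i j)

theorem vol_cd : ContDiffAt ℝ ∞ (volDen g) x := by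
  unfold volDen
  exact (det_cd hU hg hx).sqrt (hg.posDef x hx).det_pos.ne'

theorem chr_cd (k i j : Fin 3) : ContDiffAt ℝ ∞ (christoffel g k i j) x := by
  have c := g_cd hU hg hx
  unfold christoffel
  exact contDiffAt_const.mul (sum_cd fun l => (inv_cd hU hg hx k l).mul
    (((pd_cd i (c j l)).add (pd_cd j (c i l))).sub (pd_cd l (c i j))))

theorem ricci_cd (i j : Fin 3) : ContDiffAt ℝ ∞ (ricci g i j) x := by
  have c := chr_cd hU hg hx
  unfold ricci
  exact sum_cd fun k => (((pd_cd k (c k i j)).sub (pd_cd j (c k i k))).add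
    (sum_cd fun l => ((c k k l).mul (c l i j)).sub ((c k j l).mul (c l i k))))

theorem scal_cd : ContDiffAt ℝ ∞ (scalarCurvature g) x := by
  unfold scalarCurvature
  exact sum_cd fun i => sum_cd fun j => (inv_cd hU hg hx i j).mul (ricci_cd hU hg hx i j)

include hh

theorem trace_cd : ContDiffAt ℝ ∞ (traceWith g h) x := by
  unfold traceWith
  exact sum_cd fun i => sum_cd fun j => (inv_cd hU hg hx i j).mul
    ((hh.smooth i j).contDiffAt (hU.mem_nhds hx))

theorem energy_cd : ContDiffAt ℝ ∞ (energyDensity g h) x := by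
  have c := inv_cd hU hg hx
  have ch : ∀ i j, ContDiffAt ℝ ∞ (fun y => h y i j) x := fun i j =>
    (hh.smooth i j).contDiffAt (hU.mem_nhds hx)
  unfold energyDensity normSqWith
  refine contDiffAt_const.mul (((scal_cd hU hg hx).sub ?_).add
    ((trace_cd hU hg hh hx).pow 2))
  exact sum_cd fun i => sum_cd fun j => sum_cd fun k => sum_cd fun l =>
    (((c i k).mul (c j l)).mul (ch i j)).mul (ch k l)

theorem mom_cd (j : Fin 3) : ContDiffAt ℝ ∞ (momentumDensity g h j) x := by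
  have c := inv_cd hU hg hx
  have cc := chr_cd hU hg hx
  have ch : ∀ i j, ContDiffAt ℝ ∞ (fun y => h y i j) x := fun i j =>
    (hh.smooth i j).contDiffAt (hU.mem_nhds hx)
  have cT : ∀ a b, ContDiffAt ℝ ∞ (fun y => (h y - traceWith g h y • g y) a b) x := by
    intro a b
    have h1 : (fun y => (h y - traceWith g h y • g y) a b) =
        fun y => h y a b - traceWith g h y * g y a b := by
      funext y
      simp [Matrix.sub_apply, Matrix.smul_apply]
    rw [h1]
    exact (ch a b).sub ((trace_cd hU hg hh hx).mul (g_cd hU hg hx a b))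
  unfold momentumDensity divergence covDeriv
  exact sum_cd fun i => sum_cd fun k => (c i k).mul ((pd_cd k (cT i j)).sub
    (sum_cd fun l => ((cc l k i).mul (cT l j)).add ((cc l k j).mul (cT i l))))

end smooth

/-! ## Bounds at a point -/

/-- The bounds of `Stmt_CT` at a point. -/
structure At (C : ℝ) (g h : TensorField) (x : E3) : Prop where
  one : 1 ≤ C
  lo : ∀ p, vsq p / C ≤ ev (g x)⁻¹ p p
  hi : ∀ p, ev (g x)⁻¹ p p ≤ C * vsq p
  ns0 : ∀ H : Bil, msq H / C ≤ nsq g x H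
  ns : ∀ H : Bil, nsq g x H ≤ C * msq H
  chr : ∀ k i j, |christoffel g k i j x| ≤ C
  hb : ∀ i j, |h x i j| ≤ C
  mom : ∀ i, |momV g h x i| ≤ C
  en : |energyDensity g h x| ≤ C
  inv : ∀ i j, |(g x)⁻¹ i j| ≤ C
  vol0 : 0 ≤ volDen g x
  vol : volDen g x ≤ C

theorem vsq_nonneg (p : Cov) : 0 ≤ vsq p := Finset.sum_nonneg fun _ _ => sq_nonneg _

theorem vn_nonneg (p : Cov) : 0 ≤ vn p := Real.sqrt_nonneg _

theorem vn_sq (p : Cov) : vn p ^ 2 = vsq p := Real.sq_sqrt (vsq_nonneg p)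

theorem msq_nonneg (M : Bil) : 0 ≤ msq M :=
  Finset.sum_nonneg fun _ _ => Finset.sum_nonneg fun _ _ => sq_nonneg _

/-- The length of a matrix. -/
noncomputable def mn (M : Bil) : ℝ := Real.sqrt (msq M)

theorem mn_nonneg (M : Bil) : 0 ≤ mn M := Real.sqrt_nonneg _

theorem mn_sq (M : Bil) : mn M ^ 2 = msq M := Real.sq_sqrt (msq_nonneg M)

theorem abs_le_vn (p : Cov) (i : Fin 3) : |p i| ≤ vn p := by
  apply Real.abs_le_sqrt
  exact Finset.single_le_sum (f := fun i => p i ^ 2) (fun j _ => sq_nonneg _) (Finset.mem_univ i)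

theorem abs_le_mn (M : Bil) (i j : Fin 3) : |M i j| ≤ mn M := by
  apply Real.abs_le_sqrt
  calc M i j ^ 2 ≤ ∑ j, M i j ^ 2 :=
        Finset.single_le_sum (f := fun j => M i j ^ 2) (fun j _ => sq_nonneg _) (Finset.mem_univ j)
    _ ≤ msq M := Finset.single_le_sum (f := fun i => ∑ j, M i j ^ 2)
        (fun j _ => Finset.sum_nonneg fun j _ => sq_nonneg _) (Finset.mem_univ i)

theorem abs_sum3 {f : Fin 3 → ℝ} {c : ℝ} (hf : ∀ i, |f i| ≤ c) : |∑ i, f i| ≤ 3 * c := by
  calc |∑ i, f i| ≤ ∑ i, |f i| := Finset.abs_sum_le_sum_abs _ _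
    _ ≤ ∑ _i : Fin 3, c := Finset.sum_le_sum fun i _ => hf i
    _ = 3 * c := by simp

theorem abs_ev {B : Bil} {v : Cov} {b c : ℝ} (hb : 0 ≤ b) (hB : ∀ i j, |B i j| ≤ b)
    (hv : ∀ i, |v i| ≤ c) : |ev B v v| ≤ 9 * b * c ^ 2 := by
  have hc : 0 ≤ c := (abs_nonneg _).trans (hv 0)
  have h1 : ∀ i j, |B i j * v i * v j| ≤ b * c * c := by
    intro i j
    rw [abs_mul, abs_mul]
    exact mul_le_mul (mul_le_mul (hB i j) (hv i) (abs_nonneg _) hb) (hv j) (abs_nonneg _)
      (mul_nonneg hb hc)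
  have h2 : |ev B v v| ≤ 3 * (3 * (b * c * c)) := abs_sum3 fun i => abs_sum3 fun j => h1 i j
  calc |ev B v v| ≤ 3 * (3 * (b * c * c)) := h2
    _ = 9 * b * c ^ 2 := by ring

theorem msq_le {B : Bil} {b : ℝ} (hB : ∀ i j, |B i j| ≤ b) : msq B ≤ 9 * b ^ 2 := by
  have h1 : ∀ i j, |B i j ^ 2| ≤ b ^ 2 := by
    intro i j
    rw [abs_pow]
    exact pow_le_pow_left₀ (abs_nonneg _) (hB i j) 2
  have h2 : |msq B| ≤ 3 * (3 * b ^ 2) := abs_sum3 fun i => abs_sum3 fun j => h1 i j
  calc msq B ≤ |msq B| := le_abs_self _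
    _ ≤ 3 * (3 * b ^ 2) := h2
    _ = 9 * b ^ 2 := by ring

section pt

variable {C : ℝ} {g h : TensorField} {x : E3} (H : At C g h x)

include H

theorem At.pos : 0 < C := lt_of_lt_of_le one_pos H.one

theorem raise_le (p : Cov) (i : Fin 3) : |raise g x p i| ≤ 3 * (C * vn p) := by
  refine abs_sum3 fun j => ?_
  rw [abs_mul]
  exact mul_le_mul (H.inv i j) (abs_le_vn p j) (abs_nonneg _) H.pos.le

theorem len_le (p : Cov) : len g x p ≤ C * vn p := by
  unfold len
  refine Real.sqrt_le_iff.2 ⟨mul_nonneg H.pos.le (vn_nonneg p), ?_⟩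
  rw [mul_pow, vn_sq]
  refine (H.hi p).trans ?_
  refine mul_le_mul_of_nonneg_right ?_ (vsq_nonneg p)
  nlinarith [H.one]

theorem len_ge (p : Cov) : vn p / C ≤ len g x p := by
  unfold len
  refine Real.le_sqrt_of_sq_le ?_
  rw [div_pow, vn_sq]
  refine le_trans ?_ (H.lo p)
  have h1 : C ≤ C ^ 2 := by nlinarith [H.one]
  exact div_le_div_of_nonneg_left (vsq_nonneg p) H.pos h1

omit H in
theorem len_nonneg (p : Cov) : 0 ≤ len g x p := Real.sqrt_nonneg _

theorem len_zero {p : Cov} (hp : vn p = 0) : len g x p = 0 := by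
  have h1 := len_le H p
  rw [hp, mul_zero] at h1
  exact le_antisymm h1 (len_nonneg p)

theorem nrm_le (p : Cov) (i : Fin 3) : |nrm g x p i| ≤ 3 * C ^ 2 := by
  rcases (vn_nonneg p).eq_or_lt with h0 | h0
  · have h1 := len_zero H h0.symm
    unfold nrm
    rw [h1, div_zero, abs_zero]
    positivity
  · have h1 := len_ge H p
    have h2 : 0 < vn p / C := div_pos h0 H.pos
    have h3 : 0 < len g x p := lt_of_lt_of_le h2 h1
    unfold nrm
    rw [abs_div, abs_of_pos h3, div_le_iff₀ h3]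
    calc |raise g x p i| ≤ 3 * (C * vn p) := raise_le H p i
      _ = 3 * C ^ 2 * (vn p / C) := by
        field_simp
      _ ≤ 3 * C ^ 2 * len g x p := mul_le_mul_of_nonneg_left h1 (by positivity)

theorem bnn_le (p : Cov) {B : Bil} {b : ℝ} (hb : 0 ≤ b) (hB : ∀ i j, |B i j| ≤ b) :
    |bnn g x p B| ≤ 81 * C ^ 4 * b := by
  have h1 : |bnn g x p B| ≤ 9 * b * (3 * C ^ 2) ^ 2 := abs_ev hb hB (nrm_le H p)
  calc |bnn g x p B| ≤ 9 * b * (3 * C ^ 2) ^ 2 := h1
    _ = 81 * C ^ 4 * b := by ring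

theorem trg_le {B : Bil} {b : ℝ} (hB : ∀ i j, |B i j| ≤ b) :
    |trg g x B| ≤ 9 * C * b := by
  have h1 : |trg g x B| ≤ 3 * (3 * (C * b)) := abs_sum3 fun i => abs_sum3 fun j => by
    rw [abs_mul]
    exact mul_le_mul (H.inv i j) (hB i j) (abs_nonneg _) H.pos.le
  linarith

theorem btan_le (p : Cov) {B : Bil} {b : ℝ} (hb : 0 ≤ b) (hB : ∀ i j, |B i j| ≤ b) :
    |btan g x p B| ≤ 90 * C ^ 4 * b := by
  have h1 := bnn_le H p hb hB
  have h2 := trg_le H hB
  have h3 : C ≤ C ^ 4 := le_self_pow₀ H.one (by norm_num)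
  have h4 : 9 * C * b ≤ 9 * C ^ 4 * b := by
    apply mul_le_mul_of_nonneg_right _ hb
    linarith
  unfold btan
  calc |trg g x B - bnn g x p B| ≤ |trg g x B| + |bnn g x p B| := abs_sub _ _
    _ ≤ 90 * C ^ 4 * b := by linarith

theorem nsq_le {B : Bil} {b : ℝ} (hB : ∀ i j, |B i j| ≤ b) :
    |nsq g x B| ≤ 9 * C * b ^ 2 := by
  have h1 : 0 ≤ nsq g x B := le_trans (div_nonneg (msq_nonneg B) H.pos.le) (H.ns0 B)
  rw [abs_of_nonneg h1]
  refine (H.ns B).trans ?_
  calc C * msq B ≤ C * (9 * b ^ 2) := mul_le_mul_of_nonneg_left (msq_le hB) H.pos.le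
    _ = 9 * C * b ^ 2 := by ring

theorem cHess_le (p : Cov) (M : Bil) (i j : Fin 3) :
    |cHess g x p M i j| ≤ mn M + 3 * C * vn p := by
  have h1 : |∑ k, christoffel g k i j x * p k| ≤ 3 * (C * vn p) := abs_sum3 fun k => by
    rw [abs_mul]
    exact mul_le_mul (H.chr k i j) (abs_le_vn p k) (abs_nonneg _) H.pos.le
  have h2 : cHess g x p M i j = M i j - ∑ k, christoffel g k i j x * p k := rfl
  rw [h2]
  calc |M i j - ∑ k, christoffel g k i j x * p k| ≤
        |M i j| + |∑ k, christoffel g k i j x * p k| := abs_sub _ _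
    _ ≤ mn M + 3 * C * vn p := by linarith [abs_le_mn M i j]

/-! ### The composite quantities -/

omit H in
theorem pow3_le {v : ℝ} (hv : 0 ≤ v) : v ^ 3 ≤ 1 + v ^ 4 := by
  nlinarith [sq_nonneg (v ^ 2 - v), sq_nonneg (v - 1), sq_nonneg (v ^ 2 - 1), sq_nonneg v,
    mul_nonneg hv (sq_nonneg (v - 1))]

omit H in
theorem pow2_le (v : ℝ) : v ^ 2 ≤ 1 + v ^ 4 := by
  nlinarith [sq_nonneg (v ^ 2 - 1), sq_nonneg (v ^ 2)]

omit H in
theorem pow1_le (v : ℝ) : v ≤ 1 + v ^ 4 := by
  nlinarith [sq_nonneg (v ^ 2 - 1), sq_nonneg (v - 1), sq_nonneg (v ^ 2)]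

omit H in
theorem two_sub {ε : ℝ} (hε : ε < 1) {a : ℝ} (ha : 0 ≤ a) : a / (2 - ε) ≤ a :=
  div_le_self ha (by linarith)

theorem flux_le {ε : ℝ} (hε : ε < 1) (p : Cov) (M : Bil) :
    |flux ε g h x p M| ≤ 1000 * C ^ 6 * (1 + vn p ^ 4 + msq M) := by
  have hC := H.one
  have hC0 := H.pos
  have hv := vn_nonneg p
  have hm := mn_nonneg M
  have hl := len_nonneg (g := g) (x := x) p
  have hl1 := len_le H p
  have b1 := btan_le H p (b := mn M + 3 * C * vn p) (by positivity) (cHess_le H p M)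
  have b2 := trg_le H H.hb
  have b3 : |ev (h x) (raise g x p) (raise g x p)| ≤ 9 * C * (3 * (C * vn p)) ^ 2 :=
    abs_ev hC0.le H.hb (raise_le H p)
  have e1 : |len g x p * btan g x p (cHess g x p M)| ≤
      C * vn p * (90 * C ^ 4 * (mn M + 3 * C * vn p)) := by
    rw [abs_mul, abs_of_nonneg hl]
    exact mul_le_mul hl1 b1 (abs_nonneg _) (by positivity)
  have e2 : |len g x p ^ 3 / (2 - ε)| ≤ (C * vn p) ^ 3 := by
    rw [abs_of_nonneg (div_nonneg (by positivity) (by linarith))]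
    exact (two_sub hε (by positivity)).trans (pow_le_pow_left₀ hl hl1 3)
  have e3 : |len g x p ^ 2 * trg g x (h x)| ≤ (C * vn p) ^ 2 * (9 * C * C) := by
    rw [abs_mul, abs_of_nonneg (by positivity : 0 ≤ len g x p ^ 2)]
    exact mul_le_mul (pow_le_pow_left₀ hl hl1 2) b2 (abs_nonneg _) (by positivity)
  have e4 : |flux ε g h x p M| ≤ C * vn p * (90 * C ^ 4 * (mn M + 3 * C * vn p)) +
      (C * vn p) ^ 3 + ((C * vn p) ^ 2 * (9 * C * C) + 9 * C * (3 * (C * vn p)) ^ 2) := by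
    unfold flux
    refine (abs_sub _ _).trans (add_le_add ((abs_sub _ _).trans (add_le_add e1 e2))
      ((abs_sub _ _).trans (add_le_add e3 b3)))
  refine e4.trans ?_
  have p3 := pow3_le hv
  have p2 := pow2_le (vn p)
  have hvm : vn p * mn M ≤ vn p ^ 2 + mn M ^ 2 := by nlinarith [sq_nonneg (vn p - mn M)]
  have c3 : C ^ 3 ≤ C ^ 6 := pow_le_pow_right₀ hC (by norm_num)
  have c4 : C ^ 4 ≤ C ^ 6 := pow_le_pow_right₀ hC (by norm_num)
  have c5 : C ^ 5 ≤ C ^ 6 := pow_le_pow_right₀ hC (by norm_num)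
  rw [← mn_sq]
  have f1 : C ^ 5 * (vn p * mn M) ≤ C ^ 6 * (vn p ^ 2 + mn M ^ 2) :=
    mul_le_mul c5 hvm (by positivity) (by positivity)
  have f2 : C ^ 3 * vn p ^ 3 ≤ C ^ 6 * (1 + vn p ^ 4) :=
    mul_le_mul c3 p3 (by positivity) (by positivity)
  have f3 : C ^ 6 * vn p ^ 2 ≤ C ^ 6 * (1 + vn p ^ 4) :=
    mul_le_mul_of_nonneg_left p2 (by positivity)
  have f4 : C ^ 4 * vn p ^ 2 ≤ C ^ 6 * (1 + vn p ^ 4) :=
    mul_le_mul c4 p2 (by positivity) (by positivity)
  have f5 : C ^ 3 * vn p ^ 2 ≤ C ^ 6 * (1 + vn p ^ 4) :=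
    mul_le_mul c3 p2 (by positivity) (by positivity)
  have f6 : 0 ≤ C ^ 6 * mn M ^ 2 := by positivity
  have f7 : 0 ≤ C ^ 6 * (1 + vn p ^ 4) := by positivity
  nlinarith [f1, f2, f3, f4, f5, f6, f7]

/-- The bound of the tensor `B`. -/
theorem tenB_le {p : Cov} (hp : 0 < vn p) (M : Bil) (i j : Fin 3) :
    |tenB g h x p M i j| ≤ C * (mn M / vn p) + 4 * C ^ 2 := by
  have hC := H.one
  have hC0 := H.pos
  have h1 := len_ge H p
  have h2 : 0 < vn p / C := div_pos hp H.pos
  have h3 : 0 < len g x p := lt_of_lt_of_le h2 h1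
  have h4 : (len g x p)⁻¹ ≤ C / vn p := by
    rw [inv_le_comm₀ h3 (by positivity), inv_div]
    exact h1
  have h5 : tenB g h x p M i j = (len g x p)⁻¹ * cHess g x p M i j - h x i j := by
    simp [tenB, Matrix.sub_apply, Matrix.smul_apply]
  rw [h5]
  calc |(len g x p)⁻¹ * cHess g x p M i j - h x i j| ≤
        |(len g x p)⁻¹ * cHess g x p M i j| + |h x i j| := abs_sub _ _
    _ ≤ C / vn p * (mn M + 3 * C * vn p) + C := by
        refine add_le_add ?_ (H.hb i j)
        rw [abs_mul, abs_of_pos (inv_pos.2 h3)]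
        exact mul_le_mul h4 (cHess_le H p M i j) (abs_nonneg _) (by positivity)
    _ = C * (mn M / vn p) + 3 * C ^ 2 + C := by
        field_simp
    _ ≤ C * (mn M / vn p) + 4 * C ^ 2 := by nlinarith

theorem dis0_le {ε : ℝ} (hε0 : 0 < ε) (hε : ε < 1) (p : Cov) (M : Bil) :
    |len g x p * dis0 ε g h x p M| ≤
      (1 / ε + 1) * C ^ 13 * 1000000 * (msq M / vn p + (1 + vn p ^ 4)) := by
  have hC := H.one
  have hC0 := H.pos
  rcases (vn_nonneg p).eq_or_lt with h0 | h0
  · rw [len_zero H h0.symm, zero_mul, abs_zero]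
    have := msq_nonneg M
    have := vn_nonneg p
    positivity
  have hm := mn_nonneg M
  have hl := len_nonneg (g := g) (x := x) p
  have hl1 := len_le H p
  set v := vn p with hv
  set b := C * (mn M / v) + 4 * C ^ 2 with hb
  have hb0 : 0 ≤ b := by positivity
  have hB : ∀ i j, |tenB g h x p M i j| ≤ b := tenB_le H h0 M
  have b1 := nsq_le H hB
  have b2 := bnn_le H p hb0 hB
  have b3 := btan_le H p hb0 hB
  have c2 : bnn g x p (tenB g h x p M) ^ 2 ≤ (81 * C ^ 4 * b) ^ 2 := by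
    rw [← sq_abs]
    exact pow_le_pow_left₀ (abs_nonneg _) b2 2
  have c3 : btan g x p (tenB g h x p M) ^ 2 ≤ (90 * C ^ 4 * b) ^ 2 := by
    rw [← sq_abs]
    exact pow_le_pow_left₀ (abs_nonneg _) b3 2
  have hz : |zed ε g h x p M| ≤ 90 * C ^ 4 * b + 2 * (C * v) := by
    unfold zed
    refine (abs_sub _ _).trans (add_le_add b3 ?_)
    rw [abs_of_nonneg (div_nonneg (by positivity) (by linarith))]
    exact (two_sub hε (by positivity)).trans (by linarith)
  have c4 : zed ε g h x p M ^ 2 ≤ 2 * (90 * C ^ 4 * b) ^ 2 + 2 * (2 * (C * v)) ^ 2 := by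
    rw [← sq_abs]
    refine (pow_le_pow_left₀ (abs_nonneg _) hz 2).trans ?_
    nlinarith [sq_nonneg (90 * C ^ 4 * b - 2 * (C * v))]
  have hε1 : 1 ≤ 1 / ε := by
    rw [le_div_iff₀ hε0]
    linarith
  have c5 : |(1 / ε - 1 / 4) * zed ε g h x p M ^ 2| ≤
      (1 / ε) * (2 * (90 * C ^ 4 * b) ^ 2 + 2 * (2 * (C * v)) ^ 2) := by
    rw [abs_mul, abs_of_nonneg (sq_nonneg (zed ε g h x p M)),
      abs_of_nonneg (by linarith : 0 ≤ 1 / ε - 1 / 4)]
    exact mul_le_mul (by linarith) c4 (sq_nonneg _) (by positivity)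
  have c6 : |dis0 ε g h x p M| ≤ 9 * C * b ^ 2 / 2 + (81 * C ^ 4 * b) ^ 2 / 2 +
      (90 * C ^ 4 * b) ^ 2 / 4 + (1 / ε) * (2 * (90 * C ^ 4 * b) ^ 2 + 2 * (2 * (C * v)) ^ 2) := by
    unfold dis0
    refine (abs_add_le _ _).trans (add_le_add ((abs_sub _ _).trans (add_le_add
      ((abs_sub _ _).trans (add_le_add ?_ ?_)) ?_)) c5)
    · rw [abs_div, abs_of_pos (by norm_num : (0 : ℝ) < 2)]
      linarith
    · rw [abs_of_nonneg (by positivity)]
      linarith
    · rw [abs_of_nonneg (by positivity)]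
      linarith
  have k1 : C ≤ C ^ 8 := le_self_pow₀ hC (by norm_num)
  have k2 : C ^ 2 ≤ C ^ 8 := pow_le_pow_right₀ hC (by norm_num)
  have c7 : |dis0 ε g h x p M| ≤ (1 / ε + 1) * C ^ 8 * (22000 * b ^ 2 + 8 * v ^ 2) := by
    refine c6.trans ?_
    have q1 : C * b ^ 2 ≤ C ^ 8 * b ^ 2 := mul_le_mul_of_nonneg_right k1 (sq_nonneg _)
    have q2 : C ^ 2 * v ^ 2 ≤ C ^ 8 * v ^ 2 := mul_le_mul_of_nonneg_right k2 (sq_nonneg _)
    have q3 : 1 / ε * (C ^ 2 * v ^ 2) ≤ 1 / ε * (C ^ 8 * v ^ 2) :=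
      mul_le_mul_of_nonneg_left q2 (by positivity)
    have q4 : 0 ≤ C ^ 8 * b ^ 2 := by positivity
    have q5 : 0 ≤ C ^ 8 * v ^ 2 := by positivity
    have q6 : 0 ≤ 1 / ε * (C ^ 8 * b ^ 2) := by positivity
    have q7 : 0 ≤ 1 / ε * (C ^ 8 * v ^ 2) := by positivity
    have r1 : 9 * C * b ^ 2 / 2 + (81 * C ^ 4 * b) ^ 2 / 2 + (90 * C ^ 4 * b) ^ 2 / 4 +
        (1 / ε) * (2 * (90 * C ^ 4 * b) ^ 2 + 2 * (2 * (C * v)) ^ 2) =
        9 / 2 * (C * b ^ 2) + (6561 / 2 + 2025) * (C ^ 8 * b ^ 2) +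
          16200 * (1 / ε * (C ^ 8 * b ^ 2)) + 8 * (1 / ε * (C ^ 2 * v ^ 2)) := by ring
    have r2 : (1 / ε + 1) * C ^ 8 * (22000 * b ^ 2 + 8 * v ^ 2) =
        22000 * (C ^ 8 * b ^ 2) + 22000 * (1 / ε * (C ^ 8 * b ^ 2)) +
          8 * (C ^ 8 * v ^ 2) + 8 * (1 / ε * (C ^ 8 * v ^ 2)) := by ring
    rw [r1, r2]
    linarith
  have hvb : v * b ^ 2 ≤ 2 * C ^ 2 * (msq M / v) + 32 * C ^ 4 * v := by
    have r0 : b ^ 2 ≤ 2 * (C * (mn M / v)) ^ 2 + 2 * (4 * C ^ 2) ^ 2 := by
      rw [hb]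
      nlinarith [sq_nonneg (C * (mn M / v) - 4 * C ^ 2)]
    calc v * b ^ 2 ≤ v * (2 * (C * (mn M / v)) ^ 2 + 2 * (4 * C ^ 2) ^ 2) :=
          mul_le_mul_of_nonneg_left r0 h0.le
      _ = 2 * C ^ 2 * (mn M ^ 2 / v) + 32 * C ^ 4 * v := by
          field_simp
          ring
      _ = 2 * C ^ 2 * (msq M / v) + 32 * C ^ 4 * v := by rw [mn_sq]
  rw [abs_mul, abs_of_nonneg hl]
  have p3 := pow3_le h0.le
  have p1 := pow1_le v
  have hmv : 0 ≤ msq M / v := div_nonneg (msq_nonneg M) h0.le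
  have j1 : C ^ 11 ≤ C ^ 13 := pow_le_pow_right₀ hC (by norm_num)
  have j2 : C ^ 9 ≤ C ^ 13 := pow_le_pow_right₀ hC (by norm_num)
  calc len g x p * |dis0 ε g h x p M| ≤
        C * v * ((1 / ε + 1) * C ^ 8 * (22000 * b ^ 2 + 8 * v ^ 2)) :=
        mul_le_mul hl1 c7 (abs_nonneg _) (by positivity)
    _ = (1 / ε + 1) * (C ^ 9 * (22000 * (v * b ^ 2) + 8 * v ^ 3)) := by ring
    _ ≤ (1 / ε + 1) * (C ^ 9 * (22000 * (2 * C ^ 2 * (msq M / v) + 32 * C ^ 4 * v) +
          8 * v ^ 3)) := by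
        apply mul_le_mul_of_nonneg_left _ (by positivity)
        apply mul_le_mul_of_nonneg_left _ (by positivity)
        linarith
    _ = (1 / ε + 1) * (44000 * (C ^ 11 * (msq M / v)) + 704000 * (C ^ 13 * v) +
          8 * (C ^ 9 * v ^ 3)) := by ring
    _ ≤ (1 / ε + 1) * (44000 * (C ^ 13 * (msq M / v)) + 704000 * (C ^ 13 * (1 + v ^ 4)) +
          8 * (C ^ 13 * (1 + v ^ 4))) := by
        apply mul_le_mul_of_nonneg_left _ (by positivity)
        have s1 : C ^ 11 * (msq M / v) ≤ C ^ 13 * (msq M / v) :=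
          mul_le_mul_of_nonneg_right j1 hmv
        have s2 : C ^ 13 * v ≤ C ^ 13 * (1 + v ^ 4) :=
          mul_le_mul_of_nonneg_left p1 (by positivity)
        have s3 : C ^ 9 * v ^ 3 ≤ C ^ 13 * (1 + v ^ 4) :=
          mul_le_mul j2 p3 (by positivity) (by positivity)
        linarith
    _ ≤ (1 / ε + 1) * (1000000 * (C ^ 13 * (msq M / v)) +
          1000000 * (C ^ 13 * (1 + v ^ 4))) := by
        apply mul_le_mul_of_nonneg_left _ (by positivity)
        have s1 : 0 ≤ C ^ 13 * (msq M / v) := by positivity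
        have s2 : 0 ≤ C ^ 13 * (1 + v ^ 4) := by positivity
        linarith
    _ = (1 / ε + 1) * C ^ 13 * 1000000 * (msq M / v + (1 + v ^ 4)) := by ring

theorem diss_le {ε : ℝ} (hε0 : 0 < ε) (hε : ε < 1) (p : Cov) (M : Bil) :
    |len g x p * diss ε g h x p M| ≤
      (1 / ε + 1) * C ^ 13 * 2000000 * (msq M / vn p + (1 + vn p ^ 4)) := by
  have hC := H.one
  have hC0 := H.pos
  have hv := vn_nonneg p
  have hl := len_nonneg (g := g) (x := x) p
  have hl1 := len_le H p
  have h1 := dis0_le H hε0 hε p M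
  have b2 := bnn_le H p hC0.le H.hb
  have b3 := btan_le H p hC0.le H.hb
  have h2 : len g x p * diss ε g h x p M = len g x p * dis0 ε g h x p M +
      2 * (bnn g x p (h x) + btan g x p (h x) / 2) * (len g x p * len g x p / (2 - ε)) := by
    unfold diss dis0
    ring
  have h3 : |2 * (bnn g x p (h x) + btan g x p (h x) / 2) * (len g x p * len g x p / (2 - ε))| ≤
      2 * (126 * C ^ 5) * ((C * vn p) * (C * vn p)) := by
    have e1 : |2 * (bnn g x p (h x) + btan g x p (h x) / 2)| ≤ 2 * (126 * C ^ 5) := by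
      rw [abs_mul, abs_of_pos (by norm_num : (0 : ℝ) < 2)]
      apply mul_le_mul_of_nonneg_left _ (by norm_num)
      refine (abs_add_le _ _).trans ?_
      rw [abs_div, abs_of_pos (by norm_num : (0 : ℝ) < 2)]
      have : (126 : ℝ) * C ^ 5 = 81 * C ^ 4 * C + 90 * C ^ 4 * C / 2 := by ring
      rw [this]
      linarith
    have e2 : |len g x p * len g x p / (2 - ε)| ≤ (C * vn p) * (C * vn p) := by
      rw [abs_of_nonneg (div_nonneg (by positivity) (by linarith))]
      exact (two_sub hε (by positivity)).trans (mul_le_mul hl1 hl1 hl (by positivity))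
    rw [abs_mul]
    exact mul_le_mul e1 e2 (abs_nonneg _) (by positivity)
  rw [h2]
  refine (abs_add_le _ _).trans ?_
  have p2 := pow2_le (vn p)
  have j1 : C ^ 7 ≤ C ^ 13 := pow_le_pow_right₀ hC (by norm_num)
  have hmv : 0 ≤ msq M / vn p := div_nonneg (msq_nonneg M) hv
  have k1 : 2 * (126 * C ^ 5) * ((C * vn p) * (C * vn p)) ≤
      (1 / ε + 1) * C ^ 13 * 1000000 * (msq M / vn p + (1 + vn p ^ 4)) := by
    calc 2 * (126 * C ^ 5) * ((C * vn p) * (C * vn p)) = 252 * (C ^ 7 * vn p ^ 2) := by ring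
      _ ≤ 252 * (C ^ 13 * (1 + vn p ^ 4)) := by
          apply mul_le_mul_of_nonneg_left _ (by norm_num)
          exact mul_le_mul j1 p2 (by positivity) (by positivity)
      _ ≤ 1 * (1000000 * (C ^ 13 * (msq M / vn p + (1 + vn p ^ 4)))) := by
          have s1 : 0 ≤ C ^ 13 * (msq M / vn p) := by positivity
          have s2 : 0 ≤ C ^ 13 * (1 + vn p ^ 4) := by positivity
          linarith
      _ ≤ (1 / ε + 1) * (1000000 * (C ^ 13 * (msq M / vn p + (1 + vn p ^ 4)))) := by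
          apply mul_le_mul_of_nonneg_right _ (by positivity)
          have : 0 < 1 / ε := by positivity
          linarith
      _ = _ := by ring
  calc _ ≤ (1 / ε + 1) * C ^ 13 * 1000000 * (msq M / vn p + (1 + vn p ^ 4)) +
        (1 / ε + 1) * C ^ 13 * 1000000 * (msq M / vn p + (1 + vn p ^ 4)) :=
        add_le_add h1 (h3.trans k1)
    _ = _ := by ring

theorem matter_le (p : Cov) : |len g x p * matter g h x p| ≤ 10 * C ^ 4 * (1 + vn p ^ 4) := by
  have hC := H.one
  have hC0 := H.pos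
  have hv := vn_nonneg p
  have hl := len_nonneg (g := g) (x := x) p
  have hl1 := len_le H p
  have h1 : |∑ j, momentumDensity g h j x * nrm g x p j| ≤ 3 * (C * (3 * C ^ 2)) :=
    abs_sum3 fun j => by
      rw [abs_mul]
      exact mul_le_mul (H.mom j) (nrm_le H p j) (abs_nonneg _) hC0.le
  have h2 : |matter g h x p| ≤ C + 9 * C ^ 3 := by
    unfold matter
    refine (abs_sub _ _).trans ?_
    have := H.en
    linarith
  have h3 : C ≤ C ^ 3 := le_self_pow₀ hC (by norm_num)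
  rw [abs_mul, abs_of_nonneg hl]
  calc len g x p * |matter g h x p| ≤ C * vn p * (10 * C ^ 3) :=
        mul_le_mul hl1 (h2.trans (by linarith)) (abs_nonneg _) (by positivity)
    _ = 10 * C ^ 4 * vn p := by ring
    _ ≤ 10 * C ^ 4 * (1 + vn p ^ 4) := mul_le_mul_of_nonneg_left (pow1_le _) (by positivity)

omit H in
theorem Wd_le (p : Cov) (M : Bil) : |Wd p M| ≤ 144 * (msq M / vn p) := by
  have hm := mn_nonneg M
  have h1 : |∑ i, M i i| ≤ 3 * mn M := abs_sum3 fun i => abs_le_mn M i i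
  have h2 : |ev M p p / vsq p| ≤ 9 * mn M := by
    have h3 : |ev M p p| ≤ 9 * mn M * vn p ^ 2 := abs_ev hm (abs_le_mn M) (abs_le_vn p)
    rw [vn_sq] at h3
    rw [abs_div, abs_of_nonneg (vsq_nonneg p)]
    exact div_le_of_le_mul₀ (vsq_nonneg p) (by positivity) h3
  have h3 : ((∑ i, M i i) - ev M p p / vsq p) ^ 2 ≤ (12 * mn M) ^ 2 := by
    rw [← sq_abs]
    refine pow_le_pow_left₀ (abs_nonneg _) ((abs_sub _ _).trans ?_) 2
    linarith
  unfold Wd
  rw [abs_of_nonneg (div_nonneg (sq_nonneg _) (vn_nonneg p))]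
  calc _ ≤ (12 * mn M) ^ 2 / vn p := div_le_div_of_nonneg_right h3 (vn_nonneg p)
    _ = 144 * (mn M ^ 2 / vn p) := by ring
    _ = 144 * (msq M / vn p) := by rw [mn_sq]

end pt

/-! ## Measurability -/

section meas

theorem m_sum {μ : Measure E3} {f : Fin 3 → E3 → ℝ} (hf : ∀ i, AEMeasurable (f i) μ) :
    AEMeasurable (fun x => ∑ i, f i x) μ :=
  Finset.aemeasurable_fun_sum _ fun i _ => hf i

theorem m_ev {μ : Measure E3} {B : E3 → Bil} {v w : E3 → Cov}
    (hB : ∀ i j, AEMeasurable (fun x => B x i j) μ)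
    (hv : ∀ i, AEMeasurable (fun x => v x i) μ) (hw : ∀ i, AEMeasurable (fun x => w x i) μ) :
    AEMeasurable (fun x => ev (B x) (v x) (w x)) μ :=
  m_sum fun i => m_sum fun j => ((hB i j).mul (hv i)).mul (hw j)

/-- Everything is measurable. -/
structure Ms (μ : Measure E3) (g h : TensorField) (G : E3 → Cov) (M : E3 → Bil) : Prop where
  inv : ∀ i j, AEMeasurable (fun x => (g x)⁻¹ i j) μ
  chr : ∀ k i j, AEMeasurable (fun x => christoffel g k i j x) μ
  hm : ∀ i j, AEMeasurable (fun x => h x i j) μ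
  mom : ∀ i, AEMeasurable (fun x => momentumDensity g h i x) μ
  en : AEMeasurable (fun x => energyDensity g h x) μ
  vol : AEMeasurable (fun x => volDen g x) μ
  gm : ∀ i, AEMeasurable (fun x => G x i) μ
  mm : ∀ i j, AEMeasurable (fun x => M x i j) μ

variable {μ : Measure E3} {g h : TensorField} {G : E3 → Cov} {M : E3 → Bil} (S : Ms μ g h G M)

include S

theorem m_vsq : AEMeasurable (fun x => vsq (G x)) μ := m_sum fun i => (S.gm i).pow_const 2

theorem m_vn : AEMeasurable (fun x => vn (G x)) μ := (m_vsq S).sqrt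

theorem m_msq : AEMeasurable (fun x => msq (M x)) μ :=
  m_sum fun i => m_sum fun j => (S.mm i j).pow_const 2

theorem m_raise (i : Fin 3) : AEMeasurable (fun x => raise g x (G x) i) μ :=
  m_sum fun j => (S.inv i j).mul (S.gm j)

theorem m_len : AEMeasurable (fun x => len g x (G x)) μ := (m_ev S.inv S.gm S.gm).sqrt

theorem m_nrm (i : Fin 3) : AEMeasurable (fun x => nrm g x (G x) i) μ :=
  (m_raise S i).div (m_len S)

theorem m_cHess (i j : Fin 3) : AEMeasurable (fun x => cHess g x (G x) (M x) i j) μ :=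
  (S.mm i j).sub (m_sum fun k => (S.chr k i j).mul (S.gm k))

theorem m_trg {B : E3 → Bil} (hB : ∀ i j, AEMeasurable (fun x => B x i j) μ) :
    AEMeasurable (fun x => trg g x (B x)) μ :=
  m_sum fun i => m_sum fun j => (S.inv i j).mul (hB i j)

theorem m_nsq {B : E3 → Bil} (hB : ∀ i j, AEMeasurable (fun x => B x i j) μ) :
    AEMeasurable (fun x => nsq g x (B x)) μ :=
  m_sum fun i => m_sum fun j => m_sum fun k => m_sum fun l =>
    (((S.inv i k).mul (S.inv j l)).mul (hB i j)).mul (hB k l)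

theorem m_bnn {B : E3 → Bil} (hB : ∀ i j, AEMeasurable (fun x => B x i j) μ) :
    AEMeasurable (fun x => bnn g x (G x) (B x)) μ :=
  m_ev hB (m_nrm S) (m_nrm S)

theorem m_btan {B : E3 → Bil} (hB : ∀ i j, AEMeasurable (fun x => B x i j) μ) :
    AEMeasurable (fun x => btan g x (G x) (B x)) μ :=
  (m_trg S hB).sub (m_bnn S hB)

theorem m_tenB (i j : Fin 3) : AEMeasurable (fun x => tenB g h x (G x) (M x) i j) μ := by
  have h1 : (fun x => tenB g h x (G x) (M x) i j) =
      fun x => (len g x (G x))⁻¹ * cHess g x (G x) (M x) i j - h x i j := by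
    funext x
    simp [tenB, Matrix.sub_apply, Matrix.smul_apply]
  rw [h1]
  exact ((m_len S).inv.mul (m_cHess S i j)).sub (S.hm i j)

theorem m_flux (ε : ℝ) : AEMeasurable (fun x => flux ε g h x (G x) (M x)) μ :=
  (((m_len S).mul (m_btan S (m_cHess S))).sub (((m_len S).pow_const 3).div_const _)).sub
    ((((m_len S).pow_const 2).mul (m_trg S S.hm)).sub (m_ev S.hm (m_raise S) (m_raise S)))

theorem m_zed (ε : ℝ) : AEMeasurable (fun x => zed ε g h x (G x) (M x)) μ :=
  (m_btan S (m_tenB S)).sub (((m_len S).const_mul 2).div_const _)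

theorem m_dis0 (ε : ℝ) : AEMeasurable (fun x => dis0 ε g h x (G x) (M x)) μ :=
  ((((m_nsq S (m_tenB S)).div_const 2).sub (((m_bnn S (m_tenB S)).pow_const 2).div_const 2)).sub
    (((m_btan S (m_tenB S)).pow_const 2).div_const 4)).add
    (((m_zed S ε).pow_const 2).const_mul _)

theorem m_diss (ε : ℝ) : AEMeasurable (fun x => diss ε g h x (G x) (M x)) μ :=
  (m_dis0 S ε).add (((((m_bnn S S.hm).add ((m_btan S S.hm).div_const 2)).const_mul 2).mul
    (m_len S)).div_const _)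

theorem m_matter : AEMeasurable (fun x => matter g h x (G x)) μ :=
  S.en.sub (m_sum fun j => (S.mom j).mul (m_nrm S j))

theorem m_Wd : AEMeasurable (fun x => Wd (G x) (M x)) μ :=
  (((m_sum fun i => S.mm i i).sub ((m_ev S.mm S.gm S.gm).div (m_vsq S))).pow_const 2).div (m_vn S)

end meas

theorem dom {f F : E3 → ℝ} {K : Set E3} (hK : IsCompact K) (hF : IntegrableOn F K)
    (hf : AEMeasurable f (volume.restrict K)) (hb : ∀ x ∈ K, |f x| ≤ F x) :
    IntegrableOn f K :=
  Integrable.mono' hF hf.aestronglyMeasurable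
    ((ae_restrict_iff' hK.measurableSet).2 (Eventually.of_forall fun x hx => by
      rw [Real.norm_eq_abs]
      exact hb x hx))

theorem vn4_le (p : Cov) : vn p ^ 4 ≤ 3 * ∑ i, |p i| ^ 4 := by
  have h1 : vn p ^ 4 = vsq p ^ 2 := by
    rw [← vn_sq]
    ring
  have h2 : ∀ i, |p i| ^ 4 = (p i ^ 2) ^ 2 := by
    intro i
    rw [← sq_abs (p i)]
    ring
  rw [h1]
  simp only [h2]
  unfold vsq
  simp only [Fin.sum_univ_three]
  nlinarith [sq_nonneg (p 0 ^ 2 - p 1 ^ 2), sq_nonneg (p 0 ^ 2 - p 2 ^ 2),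
    sq_nonneg (p 1 ^ 2 - p 2 ^ 2)]

end MINT

open MINT in
theorem INT (hL4 : Stmt_L4) (hAPB : Stmt_APB) (hCT : Stmt_CT) : Stmt_INT := by
  intro ε U g h w G M hε0 hε1 hU hg hh hw hE K hK hKU
  have hs := hL4 U w G M hU hw
  have hA := hAPB ε U g h w G M hε0 hε1 hU hg hh hs hE K hK hKU
  obtain ⟨C, hC1, hC⟩ := hCT U g h hU hg hh K hK hKU
  have hC0 : 0 < C := lt_of_lt_of_le one_pos hC1
  have hAt : ∀ x ∈ K, At C g h x := by
    intro x hx
    obtain ⟨a1, a2, -, a4, a5, a6, a7, -, a9, -, a11⟩ := hC x hx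
    exact ⟨hC1, fun p => (a1 p).1, fun p => (a1 p).2, fun B => (a2 B).1, fun B => (a2 B).2,
      a4, a5, a6, a7, a9, Real.sqrt_nonneg _, a11⟩
  have mc : ∀ {f : E3 → ℝ}, (∀ x ∈ U, ContDiffAt ℝ ∞ f x) → AEMeasurable f (volume.restrict K) :=
    fun {f} hf => ContinuousOn.aemeasurable (fun x hx =>
      (hf x (hKU hx)).continuousAt.continuousWithinAt) hK.measurableSet
  have S : Ms (volume.restrict K) g h G M :=
    { inv := fun i j => mc fun x hx => inv_cd hU hg hx i j
      chr := fun k i j => mc fun x hx => chr_cd hU hg hx k i j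
      hm := fun i j => mc fun x hx => (hh.smooth i j).contDiffAt (hU.mem_nhds hx)
      mom := fun j => mc fun x hx => mom_cd hU hg hh hx j
      en := mc fun x hx => energy_cd hU hg hh hx
      vol := mc fun x hx => vol_cd hU hg hx
      gm := fun i => (hs.memG K hK hKU i).1.aemeasurable
      mm := fun i j => (hs.memM K hK hKU i j).1.aemeasurable }
  have ic : IntegrableOn (fun _ : E3 => (1 : ℝ)) K :=
    integrableOn_const hK.measure_lt_top.ne
  have i1 : IntegrableOn (fun x => vn (G x) ^ 4) K := by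
    refine dom hK (F := fun x => 3 * ∑ i, |G x i| ^ 4) ?_ ((m_vn S).pow_const 4) fun x _ => ?_
    · refine (integrable_finsetSum _ fun i _ => ?_).const_mul 3
      have h4 : MemLp (fun x => G x i) ((4 : ℕ) : ENNReal) (volume.restrict K) := by
        exact_mod_cast hs.memG K hK hKU i
      exact h4.integrable_norm_pow (by norm_num)
    · rw [abs_of_nonneg (pow_nonneg (vn_nonneg _) 4)]
      exact vn4_le _
  have i3 : IntegrableOn (fun x => msq (M x)) K :=
    integrable_finsetSum _ fun i _ => integrable_finsetSum _ fun j _ =>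
      (hs.memM K hK hKU i j).integrable_sq
  have i1' : IntegrableOn (fun x => 1 + vn (G x) ^ 4) K := ic.add i1
  have i5 : IntegrableOn (fun x => msq (M x) / vn (G x) + (1 + vn (G x) ^ 4)) K := hA.add i1'
  have i6 : IntegrableOn (fun x => 1 + vn (G x) ^ 4 + msq (M x)) K := i1'.add i3
  have vb : ∀ x ∈ K, ∀ {f F : ℝ}, |f| ≤ F → |f * volDen g x| ≤ C * F := by
    intro x hx f F hf
    have a := hAt x hx
    rw [abs_mul, abs_of_nonneg a.vol0, mul_comm C]
    exact mul_le_mul hf a.vol a.vol0 ((abs_nonneg _).trans hf)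
  refine ⟨i1, ?_, i3, hA, ?_, ?_, ?_, ?_, ?_⟩
  · refine dom hK (i1.const_mul (C * C ^ 4)) (((m_len S).pow_const 4).mul S.vol) fun x hx => ?_
    have a := hAt x hx
    have h1 : |len g x (G x) ^ 4| ≤ (C * vn (G x)) ^ 4 := by
      rw [abs_of_nonneg (pow_nonneg (len_nonneg _) 4)]
      exact pow_le_pow_left₀ (len_nonneg _) (len_le a _) 4
    refine (vb x hx h1).trans (le_of_eq ?_)
    ring
  · refine dom hK (i6.const_mul (C * (1000 * C ^ 6))) ((m_flux S ε).mul S.vol) fun x hx => ?_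
    refine (vb x hx (flux_le (hAt x hx) hε1 _ _)).trans (le_of_eq ?_)
    ring
  · refine dom hK (i5.const_mul (C * ((1 / ε + 1) * C ^ 13 * 2000000)))
      (((m_len S).mul (m_diss S ε)).mul S.vol) fun x hx => ?_
    refine (vb x hx (diss_le (hAt x hx) hε0 hε1 _ _)).trans (le_of_eq ?_)
    ring
  · refine dom hK (i1'.const_mul (C * (10 * C ^ 4)))
      (((m_len S).mul (m_matter S)).mul S.vol) fun x hx => ?_
    refine (vb x hx (matter_le (hAt x hx) _)).trans (le_of_eq ?_)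
    ring
  · exact dom hK (hA.const_mul 144) (m_Wd S) fun x _ => Wd_le _ _
  · refine dom hK (i5.const_mul (C * ((1 / ε + 1) * C ^ 13 * 1000000)))
      (((m_len S).mul (m_dis0 S ε)).mul S.vol) fun x hx => ?_
    refine (vb x hx (dis0_le (hAt x hx) hε0 hε1 _ _)).trans (le_of_eq ?_)
    ring

end Pool.Agent.PFlow


end
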