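import Mathlib
import Pool.Agent.PFlow.StmtsM

/-! Parts: PFlow.M_CR, PFlow.M_AEG -/

section

/-!
# Module CR: the crude inequality
-/

namespace Pool.Agent.PFlow

namespace MCR

/-- the polynomial identity behind the estimate of the tracefree part -/
theorem sos (a b c d e f x y z : ℝ) :
    0 ≤ (x ^ 2 + y ^ 2 + z ^ 2) ^ 4 * (a ^ 2 + d ^ 2 + f ^ 2 + 2 * b ^ 2 + 2 * c ^ 2 + 2 * e ^ 2)
      - 2 * (x ^ 2 + y ^ 2 + z ^ 2) ^ 3 * ((a * x + b * y + c * z) ^ 2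
        + (b * x + d * y + e * z) ^ 2 + (c * x + e * y + f * z) ^ 2)
      + (x ^ 2 + y ^ 2 + z ^ 2) ^ 2 * ((a * x + b * y + c * z) * x + (b * x + d * y + e * z) * y
        + (c * x + e * y + f * z) * z) ^ 2
      - (x ^ 2 + y ^ 2 + z ^ 2) ^ 2 * ((x ^ 2 + y ^ 2 + z ^ 2) * (a + d + f)
        - ((a * x + b * y + c * z) * x + (b * x + d * y + e * z) * y
          + (c * x + e * y + f * z) * z)) ^ 2 / 2 := by
  have h : ∀ (r q t u v w : ℝ), r = x ^ 2 + y ^ 2 + z ^ 2 → u = a * x + b * y + c * z →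
      v = b * x + d * y + e * z → w = c * x + e * y + f * z → q = u * x + v * y + w * z →
      t = a + d + f →
      r ^ 4 * (a ^ 2 + d ^ 2 + f ^ 2 + 2 * b ^ 2 + 2 * c ^ 2 + 2 * e ^ 2)
        - 2 * r ^ 3 * (u ^ 2 + v ^ 2 + w ^ 2) + r ^ 2 * q ^ 2 - r ^ 2 * (r * t - q) ^ 2 / 2 =
      (r ^ 2 * a - 2 * r * (x * u) + q * x ^ 2 - (r * t - q) / 2 * (r - x ^ 2)) ^ 2
        + (r ^ 2 * d - 2 * r * (y * v) + q * y ^ 2 - (r * t - q) / 2 * (r - y ^ 2)) ^ 2
        + (r ^ 2 * f - 2 * r * (z * w) + q * z ^ 2 - (r * t - q) / 2 * (r - z ^ 2)) ^ 2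
        + 2 * (r ^ 2 * b - r * (x * v + u * y) + q * (x * y) + (r * t - q) / 2 * (x * y)) ^ 2
        + 2 * (r ^ 2 * c - r * (x * w + u * z) + q * (x * z) + (r * t - q) / 2 * (x * z)) ^ 2
        + 2 * (r ^ 2 * e - r * (y * w + v * z) + q * (y * z) + (r * t - q) / 2 * (y * z)) ^ 2 := by
    rintro r q t u v w rfl rfl rfl rfl rfl rfl
    ring
  rw [h _ _ _ _ _ _ rfl rfl rfl rfl rfl rfl]
  positivity

/-- the scalar inequality -/
theorem scal {ε l t N W h2 : ℝ} (he : 0 < ε) (he1 : ε ≤ 1) (hl : 0 < l) (hl1 : l ≤ 1)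
    (hs : N ^ 2 ≤ W) (hb : 0 ≤ h2 - 2 * W + N ^ 2 - (t - N) ^ 2 / 2) :
    t ^ 2 - h2 - l * (N * t - W) ≤ -(ε / 8) * h2 + 5 / ε * ((t - N) + ε * N) ^ 2 := by
  obtain ⟨G, hG⟩ : ∃ G, G = (t - N) + ε * N := ⟨_, rfl⟩
  obtain ⟨s, hs'⟩ : ∃ s, s = W - N ^ 2 := ⟨_, rfl⟩
  obtain ⟨b, hb'⟩ : ∃ b, b = h2 - 2 * W + N ^ 2 - (t - N) ^ 2 / 2 := ⟨_, rfl⟩
  have hs0 : 0 ≤ s := by rw [hs']; linarith
  have hb0 : 0 ≤ b := by rw [hb']; exact hb
  rw [← hG]
  have ht : t = G - ε * N + N := by rw [hG]; ring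
  have hW : W = s + N ^ 2 := by rw [hs']; ring
  have hh2 : h2 = b + 2 * s + N ^ 2 + (G - ε * N) ^ 2 / 2 := by
    rw [hb', hs', hG]; ring
  have key : 0 ≤ 5 * G ^ 2 - ε * (t ^ 2 - h2 - l * (N * t - W) + ε / 8 * h2) := by
    obtain ⟨B, hB⟩ : ∃ B, B = (2 - l - ε) - ε ^ 2 / 8 := ⟨_, rfl⟩
    have hB1 : B ≤ 2 := by rw [hB]; nlinarith [sq_nonneg ε]
    have hB2 : -2 ≤ B := by rw [hB]; nlinarith [mul_nonneg he.le (sub_nonneg.2 he1)]
    have e1 : 0 ≤ (2 + B) / 4 * (2 * G - ε * N / 2) ^ 2 +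
        (2 - B) / 4 * (2 * G + ε * N / 2) ^ 2 := by
      have h1 : 0 ≤ (2 + B) / 4 := by linarith
      have h2 : 0 ≤ (2 - B) / 4 := by linarith
      positivity
    have hA : 0 ≤ (1 - ε / 2 - ε ^ 2 / 16) * G ^ 2 := by
      apply mul_nonneg _ (sq_nonneg G)
      nlinarith [mul_nonneg he.le (sub_nonneg.2 he1)]
    have hC : 0 ≤ ((2 - l - ε / 2) - 1 / 8 - ε ^ 2 / 16 - 1 / 4) * (ε * N) ^ 2 := by
      apply mul_nonneg _ (sq_nonneg _)
      nlinarith [mul_nonneg he.le (sub_nonneg.2 he1)]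
    have hS : 0 ≤ s * (ε * (2 - l - ε / 4)) := by
      apply mul_nonneg hs0
      apply mul_nonneg he.le
      linarith
    have hBb : 0 ≤ b * (ε * (1 - ε / 8)) := by
      apply mul_nonneg hb0
      apply mul_nonneg he.le
      linarith
    have hid : 5 * G ^ 2 - ε * (t ^ 2 - h2 - l * (N * t - W) + ε / 8 * h2) =
        ((2 + B) / 4 * (2 * G - ε * N / 2) ^ 2 + (2 - B) / 4 * (2 * G + ε * N / 2) ^ 2) +
        (1 - ε / 2 - ε ^ 2 / 16) * G ^ 2 +
        ((2 - l - ε / 2) - 1 / 8 - ε ^ 2 / 16 - 1 / 4) * (ε * N) ^ 2 +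
        s * (ε * (2 - l - ε / 4)) + b * (ε * (1 - ε / 8)) := by
      rw [ht, hh2, hW, hB]
      ring
    rw [hid]
    linarith
  have h5 : t ^ 2 - h2 - l * (N * t - W) + ε / 8 * h2 ≤ 5 / ε * G ^ 2 := by
    have h6 : 5 / ε * G ^ 2 = (5 * G ^ 2) / ε := by ring
    rw [h6, le_div_iff₀ he]
    linarith
  linarith

end MCR

theorem CR (hFR : Stmt_FR) : Stmt_CR := by
  intro ε P Rc H p d he he1 hP hH hp
  obtain ⟨A, -, -, hev, htr, hdd, hqf, happ, hsym, hne⟩ := hFR P hP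
  obtain ⟨q, hq⟩ : ∃ q, q = plv A p := ⟨_, rfl⟩
  obtain ⟨K, hK⟩ : ∃ K, K = plm A H := ⟨_, rfl⟩
  have hq0 : q ≠ 0 := by rw [hq]; exact hne p hp
  have hKs : K.IsSymm := by rw [hK]; exact hsym H hH
  have k10 : K 1 0 = K 0 1 := hKs.apply 0 1
  have k20 : K 2 0 = K 0 2 := hKs.apply 0 2
  have k21 : K 2 1 = K 1 2 := hKs.apply 1 2
  have hr : ev P p p = q 0 ^ 2 + q 1 ^ 2 + q 2 ^ 2 := by
    rw [hev, ← hq, Fin.sum_univ_three]; ring
  have ht : tr2 P H = K 0 0 + K 1 1 + K 2 2 := by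
    rw [htr, ← hK, Fin.sum_univ_three]
  have hh2 : dd P H H = K 0 0 ^ 2 + K 1 1 ^ 2 + K 2 2 ^ 2 + 2 * K 0 1 ^ 2 + 2 * K 0 2 ^ 2
      + 2 * K 1 2 ^ 2 := by
    rw [hdd, ← hK]
    simp only [Fin.sum_univ_three, k10, k20, k21]
    ring
  have hqfH : qf P H p = (K 0 0 * q 0 + K 0 1 * q 1 + K 0 2 * q 2) * q 0
      + (K 0 1 * q 0 + K 1 1 * q 1 + K 1 2 * q 2) * q 1
      + (K 0 2 * q 0 + K 1 2 * q 1 + K 2 2 * q 2) * q 2 := by
    rw [hqf, ← hK, ← hq]
    simp only [ev, Fin.sum_univ_three, k10, k20, k21]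
    ring
  have hE : ev P (app P H p) (app P H p) = (K 0 0 * q 0 + K 0 1 * q 1 + K 0 2 * q 2) ^ 2
      + (K 0 1 * q 0 + K 1 1 * q 1 + K 1 2 * q 2) ^ 2
      + (K 0 2 * q 0 + K 1 2 * q 1 + K 2 2 * q 2) ^ 2 := by
    rw [hev, happ, ← hK, ← hq]
    simp only [Fin.sum_univ_three, k10, k20, k21]
    ring
  have hrpos : 0 < ev P p p := by
    rw [hr]
    by_contra hcon
    apply hq0
    have h0 : q 0 ^ 2 = 0 := by nlinarith [sq_nonneg (q 0), sq_nonneg (q 1), sq_nonneg (q 2)]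
    have h1 : q 1 ^ 2 = 0 := by nlinarith [sq_nonneg (q 0), sq_nonneg (q 1), sq_nonneg (q 2)]
    have h2 : q 2 ^ 2 = 0 := by nlinarith [sq_nonneg (q 0), sq_nonneg (q 1), sq_nonneg (q 2)]
    funext i
    fin_cases i
    · exact pow_eq_zero_iff (two_ne_zero) |>.1 h0
    · exact pow_eq_zero_iff (two_ne_zero) |>.1 h1
    · exact pow_eq_zero_iff (two_ne_zero) |>.1 h2
  have hL2 : ld P d p ^ 2 = ev P p p + d ^ 2 := by
    unfold ld
    rw [Real.sq_sqrt (by positivity)]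
  have hLpos : 0 < ld P d p := by
    unfold ld
    apply Real.sqrt_pos.2
    positivity
  -- Cauchy-Schwarz and the tracefree part
  have hcs : qf P H p ^ 2 ≤ ev P p p * ev P (app P H p) (app P H p) := by
    rw [hr, hqfH, hE]
    generalize K 0 0 * q 0 + K 0 1 * q 1 + K 0 2 * q 2 = u
    generalize K 0 1 * q 0 + K 1 1 * q 1 + K 1 2 * q 2 = v
    generalize K 0 2 * q 0 + K 1 2 * q 1 + K 2 2 * q 2 = w
    nlinarith [sq_nonneg (u * q 1 - v * q 0), sq_nonneg (u * q 2 - w * q 0),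
      sq_nonneg (v * q 2 - w * q 1)]
  have hsos := MCR.sos (K 0 0) (K 0 1) (K 0 2) (K 1 1) (K 1 2) (K 2 2) (q 0) (q 1) (q 2)
  rw [← hr, ← hE, ← hqfH, ← ht, ← hh2] at hsos
  unfold Dd tn nn
  generalize ev P (app P H p) (app P H p) = E at *
  generalize ev P p p = r at *
  generalize qf P H p = Q at *
  generalize qf P Rc p = Rq at *
  generalize tr2 P H = t at *
  generalize dd P H H = h2 at *
  generalize ld P d p = L at *
  have hl : 0 < r / L ^ 2 := by positivity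
  have hl1 : r / L ^ 2 ≤ 1 := by
    rw [div_le_one (by positivity), hL2]
    nlinarith [sq_nonneg d]
  have hs : (Q / r) ^ 2 ≤ E / r := by
    rw [div_pow, div_le_div_iff₀ (by positivity) hrpos]
    nlinarith
  have hb : 0 ≤ h2 - 2 * (E / r) + (Q / r) ^ 2 - (t - Q / r) ^ 2 / 2 := by
    have h4 : h2 - 2 * (E / r) + (Q / r) ^ 2 - (t - Q / r) ^ 2 / 2 =
        (r ^ 4 * h2 - 2 * r ^ 3 * E + r ^ 2 * Q ^ 2 - r ^ 2 * (r * t - Q) ^ 2 / 2) / r ^ 4 := by
      field_simp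
    rw [h4]
    exact div_nonneg hsos (by positivity)
  have hmain := MCR.scal he he1 hl hl1 hs hb
  have h6 : (t ^ 2 - h2 - Rq) / L - (Q * t - E) / L ^ 3 =
      1 / L * ((t ^ 2 - h2 - r / L ^ 2 * (Q / r * t - E / r)) - Rq) := by
    field_simp
    ring
  rw [h6]
  apply mul_le_mul_of_nonneg_left _ (by positivity)
  linarith

end Pool.Agent.PFlow


end

section

/-!
AEG: the derivative of the filled function, almost everywhere.
-/

open MeasureTheory Set Filter Topology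

namespace Pool.Agent.PFlow

open Pool.Agent.PenroseSph

namespace MAEG

/-- The derivative of a Lipschitz function vanishes at almost every zero. -/
theorem ae_fderiv_zero {h : E3 → ℝ} {C : NNReal} (hh : LipschitzWith C h) :
    ∀ᵐ x : E3, h x = 0 → fderiv ℝ h x = 0 := by
  set s : Set E3 := {x | h x = 0} ∩ {x | DifferentiableAt ℝ h x} with hs
  have hcl : IsClosed {x | h x = 0} := isClosed_eq hh.continuous continuous_const
  have hsm : MeasurableSet s := hcl.measurableSet.inter (measurableSet_of_differentiableAt ℝ h)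
  have hne : ∃ v : E3, v ≠ 0 := by
    refine ⟨EuclideanSpace.single 0 1, ?_⟩
    intro h0
    have h1 := congrArg (fun w : E3 => w 0) h0
    simp at h1
  obtain ⟨v, hv⟩ := hne
  have hA : ApproximatesLinearOn (fun x => h x • v) (0 : E3 →L[ℝ] E3) s 0 := by
    intro x hx y hy
    have hx1 : h x = 0 := hx.1
    have hy1 : h y = 0 := hy.1
    simp [hx1, hy1]
  have h3 := hA.norm_fderiv_sub_le (volume : Measure E3) hsm
    (fun x => (fderiv ℝ h x).smulRight v)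
    (fun x hx => ((hx.2.hasFDerivAt).smul_const v).hasFDerivWithinAt)
  rw [ae_restrict_iff' hsm] at h3
  filter_upwards [h3, hh.ae_differentiableAt] with x hx hd h0
  have h4 := hx ⟨h0, hd⟩
  rw [sub_zero, nonpos_iff_eq_zero, nnnorm_eq_zero] at h4
  ext w
  have h5 := congrArg (fun L : E3 →L[ℝ] E3 => L w) h4
  simp only [ContinuousLinearMap.smulRight_apply, zero_apply, smul_eq_zero]
    at h5
  rcases h5 with h5 | h5
  · rw [h5]
    rfl
  · exact (hv h5).elim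

/-- Two Lipschitz functions have equal derivatives at almost every point where they agree. -/
theorem ae_fderiv_eq {f g : E3 → ℝ} {C D : NNReal} (hf : LipschitzWith C f)
    (hg : LipschitzWith D g) : ∀ᵐ x : E3, f x = g x → fderiv ℝ f x = fderiv ℝ g x := by
  have h1 := ae_fderiv_zero (hf.sub hg)
  filter_upwards [h1, hf.ae_differentiableAt, hg.ae_differentiableAt] with x hx hdf hdg h0
  have h2 := hx (by rw [h0, sub_self])
  rw [fderiv_fun_sub hdf hdg, sub_eq_zero] at h2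
  exact h2

theorem fderiv_of_const {f : E3 → ℝ} {x : E3} (h : ∀ᶠ y in 𝓝 x, f y = f x) :
    fderiv ℝ f x = 0 := by
  have h1 : f =ᶠ[𝓝 x] fun _ => f x := h
  rw [h1.fderiv_eq]
  exact fderiv_const_apply _

end MAEG

open MAEG in
theorem AEG (hFA : Stmt_FA) (hFB : Stmt_FB) : Stmt_AEG := by
  intro a' b' s₀ s₁ W C z₁ hT hL hz
  obtain ⟨hA, hF, -, -, -, -⟩ := hFA a' b' s₀ s₁ W C z₁ hT hL hz
  obtain ⟨hB1, hB2⟩ := hFB a' b' s₀ s₁ W C z₁ hT hL hz
  refine ⟨(isClosed_eq hA.continuous hL.continuous).inter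
    (isClosed_eq hF.continuous hA.continuous), ?_⟩
  filter_upwards [ae_fderiv_eq hF hA, ae_fderiv_eq hA hL] with x h1 h2
  constructor
  · rintro ⟨h3, h4⟩
    rw [h1 h4, h2 h3]
  · intro h3
    by_cases h4 : fill W s₀ s₁ 0 z₁ x = fillA W s₀ z₁ x
    · have h5 : fillA W s₀ z₁ x ≠ W x := fun h5 => h3 ⟨h5, h4⟩
      rw [h1 h4]
      exact fderiv_of_const (hB1 x h5)
    · exact fderiv_of_const (hB2 x h4)

end Pool.Agent.PFlow


end
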