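import Mathlib
import Pool.Agent.PFlow.StmtsM
import Pool.Agent.PenroseM.C05
import Pool.Agent.PenroseM.C12

/-! Parts: PFlow.G.QOd, PFlow.G.QPd, PFlow.G.QAlg, PFlow.G.Q, PFlow.M_FB, PFlow.M_LSB -/

section

/-!
# Block GB: estimates of the function `q` (module Q), part 1: error terms and Taylor's formula
-/

open MeasureTheory Filter Topology
open scoped ContDiff

namespace Pool.Agent.PFlow.GB

open Pool.Agent.PenroseSph Pool.Agent.PFlow

namespace QQ

/-- `E(x, y) = O(|x - y| ^ n)` on `K`. -/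
def Od (K : Set E3) (n : ℕ) (E : E3 → E3 → ℝ) : Prop :=
  ∃ C : ℝ, 0 ≤ C ∧ ∀ x ∈ K, ∀ y ∈ K, |E x y| ≤ C * dist x y ^ n

variable {K : Set E3} {n m : ℕ} {E F : E3 → E3 → ℝ}

lemma Od.congr (h : Od K n E) (hEF : ∀ x ∈ K, ∀ y ∈ K, F x y = E x y) : Od K n F := by
  obtain ⟨C, hC, h⟩ := h
  exact ⟨C, hC, fun x hx y hy => by rw [hEF x hx y hy]; exact h x hx y hy⟩

lemma Od.add (hE : Od K n E) (hF : Od K n F) : Od K n (fun x y => E x y + F x y) := by
  obtain ⟨C, hC, h⟩ := hE
  obtain ⟨D, hD, h'⟩ := hF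
  refine ⟨C + D, by positivity, fun x hx y hy => ?_⟩
  calc |E x y + F x y| ≤ |E x y| + |F x y| := abs_add_le _ _
    _ ≤ C * dist x y ^ n + D * dist x y ^ n := add_le_add (h x hx y hy) (h' x hx y hy)
    _ = (C + D) * dist x y ^ n := by ring

lemma Od.neg (hE : Od K n E) : Od K n (fun x y => - E x y) := by
  obtain ⟨C, hC, h⟩ := hE
  exact ⟨C, hC, fun x hx y hy => by rw [abs_neg]; exact h x hx y hy⟩

lemma Od.sub (hE : Od K n E) (hF : Od K n F) : Od K n (fun x y => E x y - F x y) := by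
  refine (hE.add hF.neg).congr fun x _ y _ => ?_
  ring

lemma Od.mul (hE : Od K n E) (hF : Od K m F) : Od K (n + m) (fun x y => E x y * F x y) := by
  obtain ⟨C, hC, h⟩ := hE
  obtain ⟨D, hD, h'⟩ := hF
  refine ⟨C * D, by positivity, fun x hx y hy => ?_⟩
  rw [abs_mul]
  calc |E x y| * |F x y| ≤ (C * dist x y ^ n) * (D * dist x y ^ m) :=
        mul_le_mul (h x hx y hy) (h' x hx y hy) (abs_nonneg _) (by positivity)
    _ = C * D * dist x y ^ (n + m) := by ring

lemma Od.zero : Od K n (fun _ _ => 0) :=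
  ⟨0, le_refl _, fun x _ y _ => by simp⟩

lemma Od.sum {ι : Type*} (s : Finset ι) {E : ι → E3 → E3 → ℝ} (h : ∀ i ∈ s, Od K n (E i)) :
    Od K n (fun x y => ∑ i ∈ s, E i x y) := by
  classical
  induction s using Finset.induction_on with
  | empty => simpa using Od.zero
  | insert a s ha ih =>
    have h1 := (h a (Finset.mem_insert_self a s)).add
      (ih fun i hi => h i (Finset.mem_insert_of_mem hi))
    refine h1.congr fun x _ y _ => ?_
    rw [Finset.sum_insert ha]

lemma Od.cmul (hE : Od K n E) (c : ℝ) : Od K n (fun x y => c * E x y) := by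
  obtain ⟨C, hC, h⟩ := hE
  refine ⟨|c| * C, by positivity, fun x hx y hy => ?_⟩
  rw [abs_mul, mul_assoc]
  exact mul_le_mul_of_nonneg_left (h x hx y hy) (abs_nonneg c)

lemma Od.mono (hK : IsCompact K) (hE : Od K n E) (hmn : m ≤ n) : Od K m E := by
  obtain ⟨C, hC, h⟩ := hE
  obtain ⟨R, hR⟩ := hK.isBounded.exists_norm_le
  refine ⟨C * (2 * |R|) ^ (n - m), by positivity, fun x hx y hy => (h x hx y hy).trans ?_⟩
  have h1 : dist x y ≤ 2 * |R| := by
    rw [dist_eq_norm]
    have := norm_sub_le x y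
    have h2 := hR x hx
    have h3 := hR y hy
    have h4 := le_abs_self R
    linarith
  have h2 : dist x y ^ n = dist x y ^ (n - m) * dist x y ^ m := by
    rw [← pow_add, Nat.sub_add_cancel hmn]
  rw [h2, mul_assoc]
  refine mul_le_mul_of_nonneg_left ?_ hC
  exact mul_le_mul_of_nonneg_right (pow_le_pow_left₀ dist_nonneg h1 _) (by positivity)

lemma Od.of_cont (hK : IsCompact K) {f : E3 → ℝ} (hf : ContinuousOn f K) :
    Od K 0 (fun x _ => f x) := by
  obtain ⟨C, hC⟩ := hK.exists_bound_of_continuousOn hf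
  refine ⟨|C|, abs_nonneg _, fun x hx y _ => ?_⟩
  rw [pow_zero, mul_one]
  have := hC x hx
  rw [Real.norm_eq_abs] at this
  exact this.trans (le_abs_self C)

lemma Od.of_cont' (hK : IsCompact K) {f : E3 → ℝ} (hf : ContinuousOn f K) :
    Od K 0 (fun _ y => f y) := by
  obtain ⟨C, hC, h⟩ := Od.of_cont hK hf
  exact ⟨C, hC, fun x hx y hy => by simpa using h y hy x hx⟩

lemma Od.coord (i : Fin 3) : Od K 1 (fun x y => x i - y i) := by
  refine ⟨1, zero_le_one, fun x _ y _ => ?_⟩
  rw [one_mul, pow_one, dist_eq_norm]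
  have := PiLp.norm_apply_le (x - y) i
  simpa using this

lemma fderiv_sum (f : E3 → ℝ) (x w : E3) : fderiv ℝ f x w = ∑ p, pd p f x * w p := by
  have h : w = ∑ p, w p • (EuclideanSpace.single p (1 : ℝ) : E3) := by
    ext i
    simp only [WithLp.ofLp_sum, WithLp.ofLp_smul, Finset.sum_apply, Pi.smul_apply, smul_eq_mul,
      PiLp.ofLp_single, Pi.single_apply]
    simp
  conv_lhs => rw [h]
  rw [map_sum]
  refine Finset.sum_congr rfl fun p _ => ?_
  rw [map_smul, smul_eq_mul, mul_comm]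
  rfl

lemma exists_fderiv_bound {F : Type*} [NormedAddCommGroup F] [NormedSpace ℝ F] {h : E3 → F}
    {S : Set E3} (hS : IsCompact S) (hh : ∀ z ∈ S, ContDiffAt ℝ ∞ h z) :
    ∃ M : ℝ, ∀ z ∈ S, ‖fderiv ℝ h z‖ ≤ M := by
  have hd1 : ∀ z ∈ S, ContDiffAt ℝ ∞ (fderiv ℝ h) z := fun z hz =>
    (hh z hz).fderiv_right (m := ∞) (by simp)
  exact hS.exists_bound_of_continuousOn
    (fun z hz => (hd1 z hz).continuousAt.continuousWithinAt)

section Taylor

variable {V : Set E3} {f : E3 → ℝ}

lemma contDiffAt_of (hV : IsOpen V) (hf : ContDiffOn ℝ ∞ f V) {x : E3} (hx : x ∈ V) :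
    ContDiffAt ℝ ∞ f x := (hf x hx).contDiffAt (hV.mem_nhds hx)

lemma contDiffAt_pd {x : E3} (hf : ContDiffAt ℝ ∞ f x) (i : Fin 3) :
    ContDiffAt ℝ ∞ (pd i f) x := by
  unfold pd
  have h : ContDiffAt ℝ ∞ (fderiv ℝ f) x := hf.fderiv_right (m := ∞) (by simp)
  exact h.clm_apply contDiffAt_const

lemma contDiffOn_pd (hV : IsOpen V) (hf : ContDiffOn ℝ ∞ f V) (i : Fin 3) :
    ContDiffOn ℝ ∞ (pd i f) V := fun _ hx =>
  (contDiffAt_pd (contDiffAt_of hV hf hx) i).contDiffWithinAt

lemma taylor (hV : IsOpen V) (hf : ContDiffOn ℝ ∞ f V) (hK : IsCompact K) (hKV : K ⊆ V) :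
    Od K 1 (fun x y => f y - f x) ∧
      Od K 2 (fun x y => f y - f x + ∑ p, pd p f x * (x p - y p)) := by
  obtain ⟨δ, hδ, hsub⟩ := hK.exists_cthickening_subset_open hV hKV
  have hK' : IsCompact (Metric.cthickening δ K) := hK.cthickening
  have hKK : K ⊆ Metric.cthickening δ K := Metric.self_subset_cthickening K
  have hd : ∀ z ∈ Metric.cthickening δ K, ContDiffAt ℝ ∞ f z := fun z hz =>
    contDiffAt_of hV hf (hsub hz)
  have hd1 : ∀ z ∈ Metric.cthickening δ K, ContDiffAt ℝ ∞ (fderiv ℝ f) z := fun z hz =>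
    (hd z hz).fderiv_right (m := ∞) (by simp)
  obtain ⟨M0, h0⟩ := hK'.exists_bound_of_continuousOn
    (fun z hz => (hd z hz).continuousAt.continuousWithinAt)
  obtain ⟨M1, h1⟩ := hK'.exists_bound_of_continuousOn
    (fun z hz => (hd1 z hz).continuousAt.continuousWithinAt)
  obtain ⟨M2, h2⟩ := exists_fderiv_bound hK' hd1
  have hball : ∀ x ∈ K, ∀ y, dist x y ≤ δ →
      Metric.closedBall x (dist x y) ⊆ Metric.cthickening δ K := by
    intro x hx y hxy z hz
    exact Metric.mem_cthickening_of_dist_le z x δ K hx ((Metric.mem_closedBall.mp hz).trans hxy)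
  have hsum : ∀ x y : E3, ∑ p, pd p f x * (x p - y p) = - fderiv ℝ f x (y - x) := by
    intro x y
    rw [fderiv_sum, ← Finset.sum_neg_distrib]
    refine Finset.sum_congr rfl fun p _ => ?_
    simp only [WithLp.ofLp_sub, Pi.sub_apply]
    ring
  have hlin : ∀ x ∈ K, ∀ y : E3, |∑ p, pd p f x * (x p - y p)| ≤ |M1| * dist x y := by
    intro x hx y
    rw [hsum, abs_neg, dist_comm, dist_eq_norm]
    have h3 := (fderiv ℝ f x).le_opNorm (y - x)
    rw [Real.norm_eq_abs] at h3
    refine h3.trans (mul_le_mul_of_nonneg_right ?_ (norm_nonneg _))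
    exact (h1 x (hKK hx)).trans (le_abs_self M1)
  have habs : ∀ x ∈ K, |f x| ≤ |M0| := fun x hx => by
    have := h0 x (hKK hx)
    rw [Real.norm_eq_abs] at this
    exact this.trans (le_abs_self M0)
  have hfar : ∀ x ∈ K, ∀ y ∈ K, |f y - f x| ≤ 2 * |M0| := by
    intro x hx y hy
    have h3 := abs_sub (f y) (f x)
    have h4 := habs x hx
    have h5 := habs y hy
    linarith
  constructor
  · refine ⟨|M1| + 2 * |M0| / δ, by positivity, fun x hx y hy => ?_⟩
    rw [pow_one]
    rcases le_or_gt (dist x y) δ with hxy | hxy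
    · have h3 := (convex_closedBall x (dist x y)).norm_image_sub_le_of_norm_fderiv_le
        (fun z hz => (hd z (hball x hx y hxy hz)).differentiableAt (by simp))
        (fun z hz => (h1 z (hball x hx y hxy hz)).trans (le_abs_self M1))
        (Metric.mem_closedBall_self dist_nonneg) (by rw [Metric.mem_closedBall, dist_comm])
      rw [Real.norm_eq_abs, ← dist_eq_norm, dist_comm y x] at h3
      refine h3.trans (mul_le_mul_of_nonneg_right ?_ dist_nonneg)
      have : 0 ≤ 2 * |M0| / δ := by positivity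
      linarith
    · refine (hfar x hx y hy).trans ?_
      have h4 : 2 * |M0| = 2 * |M0| / δ * δ := by field_simp
      have h5 : 2 * |M0| / δ * δ ≤ 2 * |M0| / δ * dist x y :=
        mul_le_mul_of_nonneg_left hxy.le (by positivity)
      have h6 : 0 ≤ |M1| * dist x y := by positivity
      rw [add_mul]
      linarith
  · refine ⟨|M2| + (2 * |M0| / δ ^ 2 + |M1| / δ), by positivity, fun x hx y hy => ?_⟩
    rcases le_or_gt (dist x y) δ with hxy | hxy
    · have h3 : ∀ z ∈ Metric.closedBall x (dist x y),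
          ‖fderiv ℝ f z - fderiv ℝ f x‖ ≤ |M2| * dist x y := by
        intro z hz
        have h4 := (convex_closedBall x (dist x y)).norm_image_sub_le_of_norm_fderiv_le
          (fun z hz => (hd1 z (hball x hx y hxy hz)).differentiableAt (by simp))
          (fun z hz => (h2 z (hball x hx y hxy hz)).trans (le_abs_self M2))
          (Metric.mem_closedBall_self dist_nonneg) hz
        refine h4.trans (mul_le_mul_of_nonneg_left ?_ (abs_nonneg _))
        rw [← dist_eq_norm]
        exact Metric.mem_closedBall.mp hz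
      have h5 := (convex_closedBall x (dist x y)).norm_image_sub_le_of_norm_fderiv_le'
        (fun z hz => (hd z (hball x hx y hxy hz)).differentiableAt (by simp)) h3
        (Metric.mem_closedBall_self dist_nonneg)
        (by rw [Metric.mem_closedBall, dist_comm] : y ∈ Metric.closedBall x (dist x y))
      rw [Real.norm_eq_abs, ← dist_eq_norm, dist_comm y x] at h5
      change |f y - f x + ∑ p, pd p f x * (x p - y p)| ≤ _
      rw [hsum, ← sub_eq_add_neg]
      refine h5.trans ?_
      have h6 : |M2| * dist x y * dist x y = |M2| * dist x y ^ 2 := by ring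
      rw [h6]
      refine mul_le_mul_of_nonneg_right ?_ (by positivity)
      have : 0 ≤ 2 * |M0| / δ ^ 2 + |M1| / δ := by positivity
      linarith
    · change |f y - f x + ∑ p, pd p f x * (x p - y p)| ≤ _
      have h3 := abs_add_le (f y - f x) (∑ p, pd p f x * (x p - y p))
      have h4 := hfar x hx y hy
      have h5 := hlin x hx y
      have e1 : 2 * |M0| ≤ 2 * |M0| / δ ^ 2 * dist x y ^ 2 := by
        have : 2 * |M0| = 2 * |M0| / δ ^ 2 * δ ^ 2 := by field_simp
        calc 2 * |M0| = 2 * |M0| / δ ^ 2 * δ ^ 2 := this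
          _ ≤ 2 * |M0| / δ ^ 2 * dist x y ^ 2 :=
            mul_le_mul_of_nonneg_left (pow_le_pow_left₀ hδ.le hxy.le 2) (by positivity)
      have e2 : |M1| * dist x y ≤ |M1| / δ * dist x y ^ 2 := by
        have : |M1| * dist x y = |M1| / δ * (δ * dist x y) := by field_simp
        rw [this, pow_two]
        exact mul_le_mul_of_nonneg_left (mul_le_mul_of_nonneg_right hxy.le dist_nonneg)
          (by positivity)
      have e3 : 0 ≤ |M2| * dist x y ^ 2 := by positivity
      rw [add_mul, add_mul]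
      linarith

end Taylor

end QQ

end Pool.Agent.PFlow.GB


end

section

/-!
# Block GB: estimates of the function `q` (module Q), part 2: the derivatives of `q`
-/

open MeasureTheory Filter Topology
open scoped ContDiff

namespace Pool.Agent.PFlow.GB

open Pool.Agent.PenroseSph Pool.Agent.PFlow

namespace QQ

/-- Kronecker symbol -/
def dl (i j : Fin 3) : ℝ := if i = j then 1 else 0

lemma pd_coord_sub (k i : Fin 3) (y x : E3) : pd k (fun z => z i - y i) x = dl k i := by
  rw [pd_sub (differentiableAt_coord i) (differentiableAt_const _), pd_coord, pd_const, sub_zero]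
  rfl

lemma diff_coord_sub (i : Fin 3) (y x : E3) : DifferentiableAt ℝ (fun z : E3 => z i - y i) x :=
  (differentiableAt_coord i).sub (differentiableAt_const _)

lemma pd_term (A : E3 → ℝ) (c : ℝ) (y x : E3) (i j k : Fin 3) (hA : DifferentiableAt ℝ A x) :
    pd k (fun z => (A z + c) * (z i - y i) * (z j - y j)) x =
      pd k A x * (x i - y i) * (x j - y j) +
        (A x + c) * (dl k i * (x j - y j) + (x i - y i) * dl k j) := by
  have h1 : DifferentiableAt ℝ (fun z => A z + c) x := hA.add (differentiableAt_const c)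
  have h2 := diff_coord_sub i y x
  have h3 := diff_coord_sub j y x
  rw [pd_mul (h1.fun_mul h2) h3, pd_mul h1 h2, pd_add hA (differentiableAt_const c), pd_const,
    pd_coord_sub, pd_coord_sub]
  ring

lemma diff_term (A : E3 → ℝ) (c : ℝ) (y x : E3) (i j : Fin 3) (hA : DifferentiableAt ℝ A x) :
    DifferentiableAt ℝ (fun z => (A z + c) * (z i - y i) * (z j - y j)) x :=
  ((hA.add (differentiableAt_const c)).mul (diff_coord_sub i y x)).mul (diff_coord_sub j y x)

lemma pd_term2 (A : E3 → ℝ) (c a b : ℝ) (y x : E3) (i j k : Fin 3)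
    (hA : DifferentiableAt ℝ A x) :
    pd k (fun z => (A z + c) * (a * (z j - y j) + (z i - y i) * b)) x =
      pd k A x * (a * (x j - y j) + (x i - y i) * b) +
        (A x + c) * (a * dl k j + dl k i * b) := by
  have h1 : DifferentiableAt ℝ (fun z => A z + c) x := hA.add (differentiableAt_const c)
  have h2 := diff_coord_sub i y x
  have h3 := diff_coord_sub j y x
  have h4 : DifferentiableAt ℝ (fun z => a * (z j - y j) + (z i - y i) * b) x :=
    (h3.const_mul a).add (h2.mul_const b)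
  rw [pd_mul h1 h4, pd_add hA (differentiableAt_const c), pd_const,
    pd_add (h3.const_mul a) (h2.mul_const b), pd_const_mul a h3, pd_mul_const b h2,
    pd_coord_sub, pd_coord_sub]
  ring

lemma diff_term2 (A : E3 → ℝ) (c a b : ℝ) (y x : E3) (i j : Fin 3)
    (hA : DifferentiableAt ℝ A x) :
    DifferentiableAt ℝ (fun z => (A z + c) * (a * (z j - y j) + (z i - y i) * b)) x :=
  (hA.add (differentiableAt_const c)).mul
    (((diff_coord_sub j y x).const_mul a).add ((diff_coord_sub i y x).mul_const b))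

/-- the first derivatives of `q` -/
lemma pd_qf {g : TensorField} {x : E3} (hg : ∀ i j, DifferentiableAt ℝ (fun z => g z i j) x)
    (y : E3) (k : Fin 3) :
    pd k (fun z => qf g z y) x = (1 / 2) * ∑ i, ∑ j,
      (pd k (fun z => g z i j) x * (x i - y i) * (x j - y j) +
        (g x i j + g y i j) * (dl k i * (x j - y j) + (x i - y i) * dl k j)) := by
  unfold qf
  have h : ∀ i j, DifferentiableAt ℝ
      (fun z => (g z i j + g y i j) * (z i - y i) * (z j - y j)) x := fun i j =>
    diff_term _ _ y x i j (hg i j)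
  have h2 : ∀ i, DifferentiableAt ℝ
      (fun z => ∑ j, (g z i j + g y i j) * (z i - y i) * (z j - y j)) x := fun i =>
    DifferentiableAt.fun_sum fun j _ => h i j
  rw [pd_const_mul _ (DifferentiableAt.fun_sum fun i _ => h2 i), pd_sum _ _ fun i _ => h2 i]
  congr 1
  refine Finset.sum_congr rfl fun i _ => ?_
  rw [pd_sum _ _ fun j _ => h i j]
  refine Finset.sum_congr rfl fun j _ => ?_
  exact pd_term _ _ y x i j k (hg i j)

/-- the second derivatives of `q` -/
lemma pd2_qf {g : TensorField} {V : Set E3} (hV : IsOpen V)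
    (hg : ∀ i j, ContDiffOn ℝ ∞ (fun z => g z i j) V) {x : E3} (hx : x ∈ V)
    (y : E3) (k l : Fin 3) :
    pd k (pd l (fun z => qf g z y)) x = (1 / 2) * ∑ i, ∑ j,
      (pd k (pd l (fun z => g z i j)) x * (x i - y i) * (x j - y j) +
        pd l (fun z => g z i j) x * (dl k i * (x j - y j) + (x i - y i) * dl k j) +
        pd k (fun z => g z i j) x * (dl l i * (x j - y j) + (x i - y i) * dl l j) +
        (g x i j + g y i j) * (dl l i * dl k j + dl k i * dl l j)) := by
  have hd : ∀ z ∈ V, ∀ i j, DifferentiableAt ℝ (fun z => g z i j) z := fun z hz i j =>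
    (contDiffAt_of hV (hg i j) hz).differentiableAt (by simp)
  have hd1 : ∀ i j, DifferentiableAt ℝ (pd l (fun z => g z i j)) x := fun i j =>
    (contDiffAt_pd (contDiffAt_of hV (hg i j) hx) l).differentiableAt (by simp)
  have hev : pd l (fun z => qf g z y) =ᶠ[𝓝 x] fun x => (1 / 2) * ∑ i, ∑ j,
      ((pd l (fun z => g z i j) x + 0) * (x i - y i) * (x j - y j) +
        (g x i j + g y i j) * (dl l i * (x j - y j) + (x i - y i) * dl l j)) := by
    filter_upwards [hV.mem_nhds hx] with z hz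
    rw [pd_qf (hd z hz) y l]
    simp only [add_zero]
  rw [pd_congr hev]
  have h : ∀ i j, DifferentiableAt ℝ
      (fun x => (pd l (fun z => g z i j) x + 0) * (x i - y i) * (x j - y j) +
        (g x i j + g y i j) * (dl l i * (x j - y j) + (x i - y i) * dl l j)) x := fun i j =>
    (diff_term _ 0 y x i j (hd1 i j)).add (diff_term2 _ _ _ _ y x i j (hd x hx i j))
  have h2 : ∀ i, DifferentiableAt ℝ
      (fun x => ∑ j, ((pd l (fun z => g z i j) x + 0) * (x i - y i) * (x j - y j) +
        (g x i j + g y i j) * (dl l i * (x j - y j) + (x i - y i) * dl l j))) x := fun i =>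
    DifferentiableAt.fun_sum fun j _ => h i j
  rw [pd_const_mul _ (DifferentiableAt.fun_sum fun i _ => h2 i), pd_sum _ _ fun i _ => h2 i]
  congr 1
  refine Finset.sum_congr rfl fun i _ => ?_
  rw [pd_sum _ _ fun j _ => h i j]
  refine Finset.sum_congr rfl fun j _ => ?_
  rw [pd_add (diff_term _ 0 y x i j (hd1 i j)) (diff_term2 _ _ _ _ y x i j (hd x hx i j)),
    pd_term _ 0 y x i j k (hd1 i j), pd_term2 _ _ _ _ y x i j k (hd x hx i j)]
  ring

end QQ

end Pool.Agent.PFlow.GB


end

section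

/-!
# Block GB: estimates of the function `q` (module Q), part 3: identities
-/

open MeasureTheory Filter Topology
open scoped ContDiff

namespace Pool.Agent.PFlow.GB

open Pool.Agent.PenroseSph Pool.Agent.PFlow

namespace QQ

/-- the second order part of the first derivatives of `q` -/
noncomputable def er (g : TensorField) (k : Fin 3) (x y : E3) : ℝ :=
  (1 / 2) * ∑ i, ∑ j, pd k (fun z => g z i j) x * (x i - y i) * (x j - y j) +
    ∑ j, (g y k j - g x k j) * (x j - y j)

/-- the remainder of the Taylor expansion of `g` -/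
noncomputable def rem (g : TensorField) (i j : Fin 3) (x y : E3) : ℝ :=
  g y i j - g x i j + ∑ p, pd p (fun z => g z i j) x * (x p - y p)

lemma pd_qf_eq {g : TensorField} {x y : E3} (hg : ∀ i j, DifferentiableAt ℝ (fun z => g z i j) x)
    (hx : ∀ i j, g x i j = g x j i) (hy : ∀ i j, g y i j = g y j i) (k : Fin 3) :
    pd k (fun z => qf g z y) x = 2 * ∑ j, g x k j * (x j - y j) + er g k x y := by
  rw [pd_qf hg y k]
  unfold er dl
  have h1 := hx 1 0
  have h2 := hx 2 0
  have h3 := hx 2 1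
  have h4 := hy 1 0
  have h5 := hy 2 0
  have h6 := hy 2 1
  simp only [Fin.sum_univ_three]
  fin_cases k <;> simp [h1, h2, h3, h4, h5, h6] <;> ring

lemma ev_add_left (B : Bil) (u v w : Cov) : ev B (fun i => u i + v i) w = ev B u w + ev B v w := by
  unfold ev
  simp only [Fin.sum_univ_three]
  ring

/-- `g⁻¹` in the direction `2 g v + e` -/
lemma ev_inv {G : Bil} (hG : ∀ i j, G i j = G j i) (hdet : IsUnit G.det) (v e : Cov) :
    ev G⁻¹ (fun k => 2 * ∑ j, G k j * v j + e k) (fun k => 2 * ∑ j, G k j * v j + e k) =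
      4 * ∑ i, ∑ j, G i j * v i * v j + 4 * ∑ i, v i * e i + ev G⁻¹ e e := by
  have hs : G.transpose = G := by
    ext i j
    exact hG j i
  have hs' : (G⁻¹).transpose = G⁻¹ := by
    rw [Matrix.transpose_nonsing_inv, hs]
  have h1 : ∀ a c, ∑ b, (G⁻¹) a b * G b c = if a = c then 1 else 0 := by
    intro a c
    have := congrFun (congrFun (Matrix.nonsing_inv_mul G hdet) a) c
    rw [Matrix.mul_apply, Matrix.one_apply] at this
    exact this
  have hsym : ∀ a b, (G⁻¹) a b = (G⁻¹) b a := fun a b => by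
    have := congrFun (congrFun hs' b) a
    exact this
  have key : ∀ a, ∑ b, (G⁻¹) a b * (2 * ∑ j, G b j * v j) = 2 * v a := by
    intro a
    have h2 : ∑ b, (G⁻¹) a b * (2 * ∑ j, G b j * v j) =
        2 * ∑ j, (∑ b, (G⁻¹) a b * G b j) * v j := by
      simp only [Fin.sum_univ_three]
      ring
    rw [h2]
    simp only [h1]
    fin_cases a <;> simp
  have k0 := key 0
  have k1 := key 1
  have k2 := key 2
  have e1 : ev G⁻¹ (fun k => 2 * ∑ j, G k j * v j + e k) (fun k => 2 * ∑ j, G k j * v j + e k) =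
      ∑ a, (2 * ∑ j, G a j * v j + e a) * ∑ b, (G⁻¹) a b * (2 * ∑ j, G b j * v j) +
      ∑ a, e a * ∑ b, (G⁻¹) a b * (2 * ∑ j, G b j * v j) + ev G⁻¹ e e := by
    unfold ev
    simp only [Fin.sum_univ_three]
    rw [hsym 1 0, hsym 2 0, hsym 2 1]
    ring
  rw [e1]
  simp only [key]
  simp only [Fin.sum_univ_three]
  ring

/-- the first identity -/
lemma ev_qf {g : TensorField} {x y : E3} (hg : ∀ i j, DifferentiableAt ℝ (fun z => g z i j) x)
    (hx : ∀ i j, g x i j = g x j i) (hy : ∀ i j, g y i j = g y j i)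
    (hdet : IsUnit (g x).det) :
    ev (g x)⁻¹ (grad (fun z => qf g z y) x) (grad (fun z => qf g z y) x) - 4 * qf g x y =
      2 * ∑ i, ∑ j, rem g i j x y * (x i - y i) * (x j - y j) +
        ev (g x)⁻¹ (fun k => er g k x y) (fun k => er g k x y) := by
  have h1 : grad (fun z => qf g z y) x =
      fun k => 2 * ∑ j, g x k j * (x j - y j) + er g k x y := by
    funext k
    exact pd_qf_eq hg hx hy k
  rw [h1, ev_inv hx hdet (fun j => x j - y j) (fun k => er g k x y)]
  generalize ev (g x)⁻¹ (fun k => er g k x y) (fun k => er g k x y) = Z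
  unfold er rem qf
  simp only [Fin.sum_univ_three]
  ring

lemma christoffel_lower {g : TensorField} {x : E3} (hx : ∀ i j, g x i j = g x j i)
    (hdet : IsUnit (g x).det) (k l j : Fin 3) :
    ∑ m, christoffel g m k l x * g x m j =
      (1 / 2) * (pd k (fun z => g z l j) x + pd l (fun z => g z k j) x
        - pd j (fun z => g z k l) x) := by
  have h1 : ∀ a c, ∑ b, g x a b * (g x)⁻¹ b c = if a = c then 1 else 0 := by
    intro a c
    have := congrFun (congrFun (Matrix.mul_nonsing_inv (g x) hdet) a) c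
    rw [Matrix.mul_apply, Matrix.one_apply] at this
    exact this
  have h2 : ∑ m, christoffel g m k l x * g x m j =
      (1 / 2) * ∑ a, (∑ m, g x j m * (g x)⁻¹ m a) *
        (pd k (fun z => g z l a) x + pd l (fun z => g z k a) x - pd a (fun z => g z k l) x) := by
    unfold christoffel
    simp only [Fin.sum_univ_three, hx j 0, hx j 1, hx j 2]
    ring
  rw [h2]
  simp only [h1]
  fin_cases j <;> simp

/-- the second identity -/
lemma hess_qf {g : TensorField} {V : Set E3} (hV : IsOpen V)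
    (hg : ∀ i j, ContDiffOn ℝ ∞ (fun z => g z i j) V) (hs : ∀ z ∈ V, ∀ i j, g z i j = g z j i)
    {x y : E3} (hxV : x ∈ V) (hyV : y ∈ V) (hdet : IsUnit (g x).det) (k l : Fin 3) :
    pd k (pd l (fun z => qf g z y)) x
        - ∑ m, christoffel g m k l x * pd m (fun z => qf g z y) x - 2 * g x k l =
      (1 / 2) * ∑ i, ∑ j, pd k (pd l (fun z => g z i j)) x * (x i - y i) * (x j - y j) +
        rem g k l x y - ∑ m, christoffel g m k l x * er g m x y := by
  have hd : ∀ i j, DifferentiableAt ℝ (fun z => g z i j) x := fun i j =>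
    (contDiffAt_of hV (hg i j) hxV).differentiableAt (by simp)
  have hsd : ∀ a i j, pd a (fun z => g z i j) x = pd a (fun z => g z j i) x := by
    intro a i j
    apply pd_congr
    filter_upwards [hV.mem_nhds hxV] with z hz
    exact hs z hz i j
  have hsum : ∑ m, christoffel g m k l x * pd m (fun z => qf g z y) x =
      2 * ∑ j, (∑ m, christoffel g m k l x * g x m j) * (x j - y j) +
        ∑ m, christoffel g m k l x * er g m x y := by
    simp only [pd_qf_eq hd (hs x hxV) (hs y hyV)]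
    simp only [Fin.sum_univ_three]
    ring
  rw [hsum]
  simp only [christoffel_lower (hs x hxV) hdet]
  rw [pd2_qf hV hg hxV]
  have hx := hs x hxV
  have hy := hs y hyV
  have h1 := hx 1 0
  have h2 := hx 2 0
  have h3 := hx 2 1
  have h4 := hy 1 0
  have h5 := hy 2 0
  have h6 := hy 2 1
  have s1 := fun a => hsd a 1 0
  have s2 := fun a => hsd a 2 0
  have s3 := fun a => hsd a 2 1
  generalize ∑ m, christoffel g m k l x * er g m x y = Z
  unfold rem dl
  simp only [Fin.sum_univ_three]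
  fin_cases k <;> fin_cases l <;> simp [h1, h2, h3, h4, h5, h6, s1, s2, s3] <;> ring

end QQ

end Pool.Agent.PFlow.GB


end

section

/-!
# Block GB: estimates of the function `q` (module Q)
-/

open MeasureTheory Filter Topology
open scoped ContDiff

namespace Pool.Agent.PFlow.GB

open Pool.Agent.PenroseSph Pool.Agent.PFlow

namespace QQ

lemma symm_of {g : TensorField} {x : E3} (h : (g x).PosDef) (i j : Fin 3) :
    g x i j = g x j i := by
  have := h.isHermitian.apply i j
  simpa using this.symm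

/-- uniform ellipticity -/
lemma exists_lower {g : TensorField} {K : Set E3} (hK : IsCompact K)
    (hg : ∀ i j, ContinuousOn (fun z => g z i j) K) (hpos : ∀ x ∈ K, (g x).PosDef) :
    ∃ c : ℝ, 0 < c ∧ ∀ x ∈ K, ∀ w : E3, c * ‖w‖ ^ 2 ≤ ∑ i, ∑ j, g x i j * w i * w j := by
  rcases K.eq_empty_or_nonempty with rfl | hne
  · exact ⟨1, one_pos, fun x hx => absurd hx (Set.notMem_empty x)⟩
  have hc : IsCompact (K ×ˢ Metric.sphere (0 : E3) 1) := hK.prod (isCompact_sphere 0 1)
  have hcont : ContinuousOn (fun p : E3 × E3 => ∑ i, ∑ j, g p.1 i j * p.2 i * p.2 j)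
      (K ×ˢ Metric.sphere (0 : E3) 1) := by
    refine continuousOn_finsetSum _ fun i _ => continuousOn_finsetSum _ fun j _ => ?_
    have h1 : ContinuousOn (fun p : E3 × E3 => g p.1 i j) (K ×ˢ Metric.sphere (0 : E3) 1) :=
      (hg i j).comp continuousOn_fst (fun p hp => hp.1)
    have h2 : ∀ i, Continuous (fun p : E3 × E3 => p.2 i) := fun i => by fun_prop
    exact (h1.mul (h2 i).continuousOn).mul (h2 j).continuousOn
  have hpos' : ∀ x ∈ K, ∀ w : E3, w ≠ 0 → 0 < ∑ i, ∑ j, g x i j * w i * w j := by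
    intro x hx w hw
    have hw' : (WithLp.ofLp w : Fin 3 → ℝ) ≠ 0 := by
      intro h
      apply hw
      ext i
      exact congrFun h i
    have := (hpos x hx).dotProduct_mulVec_pos hw'
    refine lt_of_lt_of_eq this ?_
    simp only [dotProduct, Matrix.mulVec, Fin.sum_univ_three, star_trivial]
    ring
  have hsp : (Metric.sphere (0 : E3) 1).Nonempty := NormedSpace.sphere_nonempty.mpr zero_le_one
  obtain ⟨p, hp, hmin⟩ := hc.exists_isMinOn (hne.prod hsp) hcont
  have hp0 : p.2 ≠ 0 := by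
    intro h
    have h1 : ‖p.2‖ = 1 := by simpa using hp.2
    rw [h, norm_zero] at h1
    exact zero_ne_one h1
  refine ⟨_, hpos' p.1 hp.1 p.2 hp0, fun x hx w => ?_⟩
  rcases eq_or_ne w 0 with rfl | hw
  · simp
  have hn : ‖w‖ ≠ 0 := norm_ne_zero_iff.mpr hw
  have h1 : (x, ‖w‖⁻¹ • w) ∈ K ×ˢ Metric.sphere (0 : E3) 1 := by
    refine ⟨hx, ?_⟩
    simp only [mem_sphere_iff_norm, sub_zero]
    rw [norm_smul, norm_inv, norm_norm, inv_mul_cancel₀ hn]
  have h2 := hmin h1
  simp only [Set.mem_ofPred_eq] at h2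
  have h3 : ∑ i, ∑ j, g x i j * (‖w‖⁻¹ • w) i * (‖w‖⁻¹ • w) j =
      ‖w‖⁻¹ ^ 2 * ∑ i, ∑ j, g x i j * w i * w j := by
    simp only [PiLp.smul_apply, smul_eq_mul, Fin.sum_univ_three]
    ring
  rw [h3] at h2
  calc (∑ i, ∑ j, g p.1 i j * p.2 i * p.2 j) * ‖w‖ ^ 2
      ≤ (‖w‖⁻¹ ^ 2 * ∑ i, ∑ j, g x i j * w i * w j) * ‖w‖ ^ 2 :=
        mul_le_mul_of_nonneg_right h2 (by positivity)
    _ = ∑ i, ∑ j, g x i j * w i * w j := by field_simp

variable {V : Set E3} {a b : ℝ} {g : TensorField} {W : E3 → ℝ} {K : Set E3}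

lemma contDiffAt_qf (hV : IsOpen V) (hg : ∀ i j, ContDiffOn ℝ ∞ (fun z => g z i j) V) {x : E3}
    (hx : x ∈ V) (y : E3) : ContDiffAt ℝ ∞ (fun z => qf g z y) x := by
  unfold qf
  refine contDiffAt_const.mul (ContDiffAt.sum fun i _ => ContDiffAt.sum fun j _ => ?_)
  have h1 : ∀ i, ContDiffAt ℝ ∞ (fun z : E3 => z i - y i) x := fun i => by fun_prop
  exact (((contDiffAt_of hV (hg i j) hx).add contDiffAt_const).mul (h1 i)).mul (h1 j)

/-- `E(x, y) = O(|x - y| ^ 2 + |W(x) - W(y)|)` on `K`. -/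
def Ow (K : Set E3) (W : E3 → ℝ) (E : E3 → E3 → ℝ) : Prop :=
  ∃ C : ℝ, 0 ≤ C ∧ ∀ x ∈ K, ∀ y ∈ K, |E x y| ≤ C * (dist x y ^ 2 + |W x - W y|)

lemma Ow.of_Od {E : E3 → E3 → ℝ} (h : Od K 2 E) : Ow K W E := by
  obtain ⟨C, hC, h⟩ := h
  refine ⟨C, hC, fun x hx y hy => (h x hx y hy).trans ?_⟩
  exact mul_le_mul_of_nonneg_left (le_add_of_nonneg_right (abs_nonneg _)) hC

lemma Ow.self : Ow K W (fun x y => W x - W y) := by
  refine ⟨1, zero_le_one, fun x _ y _ => ?_⟩
  rw [one_mul]
  exact le_add_of_nonneg_left (by positivity)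

lemma Ow.add {E F : E3 → E3 → ℝ} (hE : Ow K W E) (hF : Ow K W F) :
    Ow K W (fun x y => E x y + F x y) := by
  obtain ⟨C, hC, h⟩ := hE
  obtain ⟨D, hD, h'⟩ := hF
  refine ⟨C + D, by positivity, fun x hx y hy => ?_⟩
  have h1 := abs_add_le (E x y) (F x y)
  have h2 := h x hx y hy
  have h3 := h' x hx y hy
  rw [add_mul]
  linarith

lemma Ow.neg {E : E3 → E3 → ℝ} (hE : Ow K W E) : Ow K W (fun x y => - E x y) := by
  obtain ⟨C, hC, h⟩ := hE
  exact ⟨C, hC, fun x hx y hy => by rw [abs_neg]; exact h x hx y hy⟩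

lemma Ow.bmul {E F : E3 → E3 → ℝ} (hE : Od K 0 E) (hF : Ow K W F) :
    Ow K W (fun x y => E x y * F x y) := by
  obtain ⟨C, hC, h⟩ := hE
  obtain ⟨D, hD, h'⟩ := hF
  refine ⟨C * D, by positivity, fun x hx y hy => ?_⟩
  have h2 := h x hx y hy
  rw [pow_zero, mul_one] at h2
  rw [abs_mul, mul_assoc]
  exact mul_le_mul h2 (h' x hx y hy) (abs_nonneg _) hC

lemma Ow.congr {E F : E3 → E3 → ℝ} (h : Ow K W E) (hEF : ∀ x ∈ K, ∀ y ∈ K, F x y = E x y) :
    Ow K W F := by
  obtain ⟨C, hC, h⟩ := h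
  exact ⟨C, hC, fun x hx y hy => by rw [hEF x hx y hy]; exact h x hx y hy⟩

end QQ

open QQ in
/-- MODULE Q -/
theorem Q (hALG : Stmt_ALG) (hSMO : Stmt_SMO) (hLB : Stmt_LB) : Stmt_Q := by
  intro V a b g W hF K hK hKV
  have hV := hF.isOpen
  have hg := hF.metric.smooth
  have hpos : ∀ x ∈ V, (g x).PosDef := hF.metric.posDef
  have hs : ∀ z ∈ V, ∀ i j, g z i j = g z j i := fun z hz => symm_of (hpos z hz)
  have hdet : ∀ x ∈ V, IsUnit (g x).det := fun x hx => (hpos x hx).det_pos.ne'.isUnit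
  have hd : ∀ x ∈ V, ∀ i j, DifferentiableAt ℝ (fun z => g z i j) x := fun x hx i j =>
    (contDiffAt_of hV (hg i j) hx).differentiableAt (by simp)
  -- continuity
  have cg : ∀ i j, ContinuousOn (fun z => g z i j) K := fun i j => (hg i j).continuousOn.mono hKV
  have cdg : ∀ k i j, ContinuousOn (pd k (fun z => g z i j)) K := fun k i j =>
    (contDiffOn_pd hV (hg i j) k).continuousOn.mono hKV
  have cddg : ∀ k l i j, ContinuousOn (pd k (pd l (fun z => g z i j))) K := fun k l i j =>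
    (contDiffOn_pd hV (contDiffOn_pd hV (hg i j) l) k).continuousOn.mono hKV
  have cdW : ∀ k, ContinuousOn (pd k W) K := fun k =>
    (contDiffOn_pd hV hF.smooth k).continuousOn.mono hKV
  have cddW : ∀ k l, ContinuousOn (pd k (pd l W)) K := fun k l =>
    (contDiffOn_pd hV (contDiffOn_pd hV hF.smooth l) k).continuousOn.mono hKV
  have hreg : ∀ x ∈ V, Reg g W x := fun x hx => hF.reg hx
  have cinv : ∀ i j, ContinuousOn (fun y => (g y)⁻¹ i j) K := fun i j x hx =>
    (((hSMO.2 g W x (hreg x (hKV hx))).2.2.2.2.2.1 i j).continuousAt).continuousWithinAt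
  have clen : ContinuousOn (fun y => len g y (grad W y)) K := fun x hx =>
    (((hSMO.2 g W x (hreg x (hKV hx))).2.2.2.2.2.2.1).continuousAt).continuousWithinAt
  have cnrm : ∀ i, ContinuousOn (fun y => nrm g y (grad W y) i) K := fun i x hx =>
    (((hSMO.2 g W x (hreg x (hKV hx))).2.2.2.2.2.2.2.2.2.1 i).continuousAt).continuousWithinAt
  have hlen : ∀ x ∈ V, 0 < len g x (grad W x) := fun x hx =>
    (hSMO.2 g W x (hreg x hx)).2.1
  have cchr : ∀ m k l, ContinuousOn (fun x => christoffel g m k l x) K := by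
    intro m k l
    unfold christoffel
    refine continuousOn_const.mul (continuousOn_finsetSum _ fun c _ => ?_)
    exact (cinv m c).mul (((cdg k l c).add (cdg l k c)).sub (cdg c k l))
  -- error terms
  have hv : ∀ i, Od K 1 (fun x y => x i - y i) := Od.coord
  have hT : ∀ i j, Od K 1 (fun x y => g y i j - g x i j) := fun i j =>
    (taylor hV (hg i j) hK hKV).1
  have hR : ∀ i j, Od K 2 (rem g i j) := fun i j => (taylor hV (hg i j) hK hKV).2
  have he : ∀ k, Od K 2 (er g k) := by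
    intro k
    have h1 : Od K 2 (fun x y => ∑ i, ∑ j,
        pd k (fun z => g z i j) x * (x i - y i) * (x j - y j)) :=
      Od.sum _ fun i _ => Od.sum _ fun j _ => ((Od.of_cont hK (cdg k i j)).mul (hv i)).mul (hv j)
    have h2 : Od K 2 (fun x y => ∑ j, (g y k j - g x k j) * (x j - y j)) :=
      Od.sum _ fun j _ => (hT k j).mul (hv j)
    exact (h1.cmul (1 / 2)).add h2
  have hA : ∀ k, Od K 1 (fun x y => pd k (fun z => qf g z y) x) := by
    intro k
    have h1 : Od K 1 (fun x y => ∑ j, g x k j * (x j - y j)) :=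
      Od.sum _ fun j _ => by
        have := (Od.of_cont hK (cg k j)).mul (hv j)
        simpa using this
    refine ((h1.cmul 2).add ((he k).mono hK one_le_two)).congr fun x hx y hy => ?_
    exact pd_qf_eq (hd x (hKV hx)) (hs x (hKV hx)) (hs y (hKV hy)) k
  have hM2 : ∀ k l, Od K 2 (fun x y => pd k (pd l (fun z => qf g z y)) x
      - ∑ m, christoffel g m k l x * pd m (fun z => qf g z y) x - 2 * g x k l) := by
    intro k l
    have h1 : Od K 2 (fun x y => ∑ i, ∑ j,
        pd k (pd l (fun z => g z i j)) x * (x i - y i) * (x j - y j)) :=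
      Od.sum _ fun i _ => Od.sum _ fun j _ =>
        ((Od.of_cont hK (cddg k l i j)).mul (hv i)).mul (hv j)
    have h2 : Od K 2 (fun x y => ∑ m, christoffel g m k l x * er g m x y) :=
      Od.sum _ fun m _ => by
        have := (Od.of_cont hK (cchr m k l)).mul (he m)
        simpa using this
    refine (((h1.cmul (1 / 2)).add (hR k l)).sub h2).congr fun x hx y hy => ?_
    exact hess_qf hV hg hs (hKV hx) (hKV hy) (hdet x (hKV hx)) k l
  have hM1 : ∀ k l, Od K 1 (fun x y => pd k (pd l (fun z => qf g z y)) x - 2 * g x k l) := by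
    intro k l
    have h2 : Od K 1 (fun x y => ∑ m, christoffel g m k l x * pd m (fun z => qf g z y) x) :=
      Od.sum _ fun m _ => by
        have := (Od.of_cont hK (cchr m k l)).mul (hA m)
        simpa using this
    refine (((hM2 k l).mono hK one_le_two).add h2).congr fun x _ y _ => ?_
    ring
  have hq2 : Od K 2 (fun x y => qf g x y) := by
    unfold qf
    refine Od.cmul (Od.sum _ fun i _ => Od.sum _ fun j _ => ?_) (1 / 2)
    exact (((Od.of_cont hK (cg i j)).add (Od.of_cont' hK (cg i j))).mul (hv i)).mul (hv j)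
  have hev : Od K 4 (fun x y => ev (g x)⁻¹ (grad (fun z => qf g z y) x)
      (grad (fun z => qf g z y) x) - 4 * qf g x y) := by
    have h1 : Od K 4 (fun x y => ∑ i, ∑ j, rem g i j x y * (x i - y i) * (x j - y j)) :=
      Od.sum _ fun i _ => Od.sum _ fun j _ => ((hR i j).mul (hv i)).mul (hv j)
    have h2 : Od K 4 (fun x y => ev (g x)⁻¹ (fun k => er g k x y) (fun k => er g k x y)) := by
      unfold ev
      refine Od.sum _ fun i _ => Od.sum _ fun j _ => ?_
      have := ((Od.of_cont hK (cinv i j)).mul (he i)).mul (he j)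
      simpa using this
    refine ((h1.cmul 2).add h2).congr fun x hx y hy => ?_
    exact ev_qf (hd x (hKV hx)) (hs x (hKV hx)) (hs y (hKV hy)) (hdet x (hKV hx))
  have hnu : Ow K W (fun x y => ∑ i, grad (fun z => qf g z y) x i * nrm g x (grad W x) i) := by
    have h1 : Od K 2 (fun x y => ∑ i, nrm g x (grad W x) i * er g i x y) :=
      Od.sum _ fun i _ => by
        have := (Od.of_cont hK (cnrm i)).mul (he i)
        simpa using this
    have h2 : Od K 2 (fun x y => W y - W x + ∑ p, pd p W x * (x p - y p)) :=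
      (taylor hV hF.smooth hK hKV).2
    have h3 : Ow K W (fun x y => (W x - W y) + (W y - W x + ∑ p, pd p W x * (x p - y p))) :=
      Ow.self.add (Ow.of_Od h2)
    have h4 : Od K 0 (fun x _ => 2 / len g x (grad W x)) :=
      Od.of_cont hK (continuousOn_const.div clen fun x hx => (hlen x (hKV hx)).ne')
    refine ((Ow.bmul h4 h3).add (Ow.of_Od h1)).congr fun x hx y hy => ?_
    have hxV := hKV hx
    have hgn : ∀ j, ∑ i, g x i j * nrm g x (grad W x) i = pd j W x / len g x (grad W x) := by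
      intro j
      have hinv : ∀ a c, ∑ b, g x a b * (g x)⁻¹ b c = if a = c then 1 else 0 := by
        intro a c
        have := congrFun (congrFun (Matrix.mul_nonsing_inv (g x) (hdet x hxV)) a) c
        rw [Matrix.mul_apply, Matrix.one_apply] at this
        exact this
      have h5 : ∑ i, g x i j * nrm g x (grad W x) i =
          (∑ c, (∑ i, g x j i * (g x)⁻¹ i c) * grad W x c) / len g x (grad W x) := by
        unfold nrm raise
        simp only [Fin.sum_univ_three, hs x hxV j 0, hs x hxV j 1, hs x hxV j 2]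
        ring
      rw [h5]
      simp only [hinv]
      congr 1
      simp [grad]
    have h6 : ∑ i, grad (fun z => qf g z y) x i * nrm g x (grad W x) i =
        2 * ∑ j, (∑ i, g x i j * nrm g x (grad W x) i) * (x j - y j) +
          ∑ i, nrm g x (grad W x) i * er g i x y := by
      have h7 : ∀ i, grad (fun z => qf g z y) x i =
          2 * ∑ j, g x i j * (x j - y j) + er g i x y := fun i =>
        pd_qf_eq (hd x hxV) (hs x hxV) (hs y (hKV hy)) i
      simp only [h7, Fin.sum_univ_three]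
      ring
    rw [h6]
    simp only [hgn]
    congr 1
    simp only [Fin.sum_univ_three]
    ring
  -- the Laplacian
  have cprj : ∀ i j, Od K 0 (fun x _ => prj g x (grad W x) i j) := fun i j =>
    Od.of_cont hK ((cinv i j).sub ((cnrm i).mul (cnrm j)))
  have hbt : ∀ (x : E3) (B : Bil), btan g x (grad W x) B =
      ∑ i, ∑ j, prj g x (grad W x) i j * B i j := by
    intro x B
    unfold btan trg bnn ev prj
    simp only [Fin.sum_univ_three]
    ring
  have cH : ContinuousOn (fun x => btan g x (grad W x) (cHess g x (grad W x) (hess2 W x)) /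
      len g x (grad W x)) K := by
    refine ContinuousOn.div ?_ clen fun x hx => (hlen x (hKV hx)).ne'
    simp only [hbt]
    refine continuousOn_finsetSum _ fun i _ => continuousOn_finsetSum _ fun j _ => ?_
    refine ((cinv i j).sub ((cnrm i).mul (cnrm j))).mul ?_
    exact (cddW i j).sub (continuousOn_finsetSum _ fun k _ => (cchr k i j).mul (cdW k))
  have hlap : Ow K W (fun x y => lap g W (fun z => qf g z y) x - 4) := by
    have h1 : Od K 2 (fun x y => ∑ i, ∑ j, prj g x (grad W x) i j *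
        (pd i (pd j (fun z => qf g z y)) x
          - ∑ m, christoffel g m i j x * pd m (fun z => qf g z y) x - 2 * g x i j)) :=
      Od.sum _ fun i _ => Od.sum _ fun j _ => by
        have := (cprj i j).mul (hM2 i j)
        simpa using this
    refine ((Ow.of_Od h1).add (Ow.bmul (Od.of_cont hK cH) hnu).neg).congr fun x hx y hy => ?_
    have hxV := hKV hx
    have hc2 : ContDiffAt ℝ 2 (fun z => qf g z y) x := by
      exact_mod_cast contDiffAt_infty.mp (contDiffAt_qf hV hg hxV y) 2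
    rw [hLB g W x (hreg x hxV) _ hc2, hbt]
    have h2 : ∑ i, ∑ j, prj g x (grad W x) i j * g x i j = 2 :=
      (hALG g x (grad W x) (hpos x hxV) (hF.regular x hxV)).2.2.2.2.2.2.2.1
    have h3 : ∑ i, ∑ j, prj g x (grad W x) i j *
        (pd i (pd j (fun z => qf g z y)) x
          - ∑ m, christoffel g m i j x * pd m (fun z => qf g z y) x - 2 * g x i j) =
        (∑ i, ∑ j, prj g x (grad W x) i j *
          cHess g x (grad (fun z => qf g z y) x) (hess2 (fun z => qf g z y) x) i j) -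
          2 * ∑ i, ∑ j, prj g x (grad W x) i j * g x i j := by
      simp only [Finset.mul_sum, ← Finset.sum_sub_distrib]
      refine Finset.sum_congr rfl fun i _ => Finset.sum_congr rfl fun j _ => ?_
      simp only [cHess, hess2, grad, Matrix.of_apply]
      ring
    rw [h3, h2]
    ring
  -- conclusion
  obtain ⟨c, hc, hlow⟩ := exists_lower hK cg (fun x hx => hpos x (hKV hx))
  obtain ⟨C1, hC1, k1⟩ := hq2
  obtain ⟨C2, hC2, k2⟩ := hev
  obtain ⟨C3, hC3, k3⟩ := hnu
  obtain ⟨C4, hC4, k4⟩ := hlap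
  have hA' : ∃ C : ℝ, 0 ≤ C ∧ ∀ i, ∀ x ∈ K, ∀ y ∈ K,
      |pd i (fun z => qf g z y) x| ≤ C * dist x y := by
    choose D hD hD' using hA
    refine ⟨∑ i, D i, Finset.sum_nonneg fun i _ => hD i, fun i x hx y hy => ?_⟩
    refine (hD' i x hx y hy).trans ?_
    rw [pow_one]
    exact mul_le_mul_of_nonneg_right (Finset.single_le_sum (f := D) (fun i _ => hD i)
      (Finset.mem_univ i)) dist_nonneg
  have hM' : ∃ C : ℝ, 0 ≤ C ∧ ∀ i j, ∀ x ∈ K, ∀ y ∈ K,
      |pd i (pd j (fun z => qf g z y)) x - 2 * g x i j| ≤ C * dist x y := by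
    choose D hD hD' using hM1
    refine ⟨∑ i, ∑ j, D i j, Finset.sum_nonneg fun i _ => Finset.sum_nonneg fun j _ => hD i j,
      fun i j x hx y hy => ?_⟩
    refine (hD' i j x hx y hy).trans ?_
    rw [pow_one]
    refine mul_le_mul_of_nonneg_right ?_ dist_nonneg
    exact (Finset.single_le_sum (f := D i) (fun j _ => hD i j) (Finset.mem_univ j)).trans
      (Finset.single_le_sum (f := fun i => ∑ j, D i j)
        (fun i _ => Finset.sum_nonneg fun j _ => hD i j) (Finset.mem_univ i))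
  obtain ⟨C5, hC5, k5⟩ := hA'
  obtain ⟨C6, hC6, k6⟩ := hM'
  refine ⟨c, C1 + (C2 + 2 * C3 ^ 2) + C4 + C5 + C6 + 1, hc, by positivity, ?_⟩
  intro x hx y hy
  have hC3' : 0 ≤ 2 * C3 ^ 2 := by positivity
  have dd : 0 ≤ dist x y := dist_nonneg
  refine ⟨?_, ?_, ?_, ?_, ?_, ?_⟩
  · have h1 := hlow x hx (x - y)
    have h2 := hlow y hy (x - y)
    rw [← dist_eq_norm] at h1 h2
    have h3 : qf g x y = (1 / 2) * ((∑ i, ∑ j, g x i j * (x - y) i * (x - y) j) +
        ∑ i, ∑ j, g y i j * (x - y) i * (x - y) j) := by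
      unfold qf
      simp only [PiLp.sub_apply, Fin.sum_univ_three]
      ring
    rw [h3]
    linarith
  · refine (le_abs_self _).trans ((k1 x hx y hy).trans ?_)
    refine mul_le_mul_of_nonneg_right ?_ (by positivity)
    linarith
  · have h1 : lin g W (fun z => qf g z y) (fun z => qf g z y) x - 4 * qf g x y =
        (ev (g x)⁻¹ (grad (fun z => qf g z y) x) (grad (fun z => qf g z y) x) - 4 * qf g x y) -
          (∑ i, grad (fun z => qf g z y) x i * nrm g x (grad W x) i) ^ 2 := by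
      unfold lin lip
      ring
    rw [h1]
    have h2 := k2 x hx y hy
    have h3 := k3 x hx y hy
    have h4 : (∑ i, grad (fun z => qf g z y) x i * nrm g x (grad W x) i) ^ 2 ≤
        2 * C3 ^ 2 * (dist x y ^ 4 + (W x - W y) ^ 2) := by
      rw [← sq_abs]
      refine (pow_le_pow_left₀ (abs_nonneg _) h3 2).trans ?_
      have h5 : (dist x y ^ 2 + |W x - W y|) ^ 2 ≤ 2 * (dist x y ^ 4 + (W x - W y) ^ 2) := by
        have := sq_abs (W x - W y)
        nlinarith [sq_nonneg (dist x y ^ 2 - |W x - W y|)]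
      calc (C3 * (dist x y ^ 2 + |W x - W y|)) ^ 2
          = C3 ^ 2 * (dist x y ^ 2 + |W x - W y|) ^ 2 := by ring
        _ ≤ C3 ^ 2 * (2 * (dist x y ^ 4 + (W x - W y) ^ 2)) :=
          mul_le_mul_of_nonneg_left h5 (by positivity)
        _ = 2 * C3 ^ 2 * (dist x y ^ 4 + (W x - W y) ^ 2) := by ring
    have h5 := abs_sub (ev (g x)⁻¹ (grad (fun z => qf g z y) x) (grad (fun z => qf g z y) x)
      - 4 * qf g x y) ((∑ i, grad (fun z => qf g z y) x i * nrm g x (grad W x) i) ^ 2)
    rw [abs_of_nonneg (sq_nonneg (∑ i, grad (fun z => qf g z y) x i * nrm g x (grad W x) i))]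
      at h5
    have h6 : 0 ≤ (W x - W y) ^ 2 := sq_nonneg _
    have h7 : 0 ≤ dist x y ^ 4 := by positivity
    have h8 : C2 * dist x y ^ 4 ≤ C2 * (dist x y ^ 4 + (W x - W y) ^ 2) :=
      mul_le_mul_of_nonneg_left (le_add_of_nonneg_right h6) hC2
    refine (h5.trans (add_le_add (h2.trans h8) h4)).trans ?_
    rw [← add_mul]
    refine mul_le_mul_of_nonneg_right ?_ (by positivity)
    linarith
  · refine (k4 x hx y hy).trans ?_
    refine mul_le_mul_of_nonneg_right ?_ (by positivity)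
    linarith
  · intro i
    refine (k5 i x hx y hy).trans ?_
    refine mul_le_mul_of_nonneg_right ?_ dd
    linarith
  · intro i j
    refine (k6 i j x hx y hy).trans ?_
    refine mul_le_mul_of_nonneg_right ?_ dd
    linarith

end Pool.Agent.PFlow.GB


end

section

/-!
# The filled functions are locally constant where something was filled
-/

open MeasureTheory Filter Topology

namespace Pool.Agent.PFlow

open Pool.Agent.PenroseSph

namespace MFB

/-- Moving the first point inside a preconnected set. -/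
theorem conn_move {A B : Set E3} {x y z : E3} (hB : IsPreconnected B) (hx : x ∈ B) (hy : y ∈ B)
    (hBA : B ⊆ A) (h : Conn A x z) : Conn A y z := by
  obtain ⟨S, hSA, hS, hxS, hzS⟩ := h
  exact ⟨S ∪ B, Set.union_subset hSA hBA, hS.union x hxS hx hB, Or.inr hy, Or.inl hzS⟩

/-- Comparison of the values of `fillA` at two points of a preconnected set. -/
theorem fillA_le {W : E3 → ℝ} {s₀ m : ℝ} {z₁ : E3} (hlow : ∀ x, s₀ ≤ W x) {B : Set E3}
    (hB : IsPreconnected B) (hm : ∀ z ∈ B, m ≤ W z) {x y : E3} (hx : x ∈ B) (hy : y ∈ B)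
    (hxm : fillA W s₀ z₁ x ≤ m) : fillA W s₀ z₁ x ≤ fillA W s₀ z₁ y := by
  have hbdd : ∀ u : E3, BddAbove {c : ℝ | s₀ ≤ c ∧ Conn {z | c ≤ W z} u z₁} := by
    intro u
    refine ⟨W z₁, ?_⟩
    rintro c ⟨-, S, hS, -, -, hz⟩
    exact hS hz
  have hne : {c : ℝ | s₀ ≤ c ∧ Conn {z | c ≤ W z} x z₁}.Nonempty :=
    ⟨s₀, le_rfl, Set.univ, fun z _ => hlow z, isPreconnected_univ, Set.mem_univ _,
      Set.mem_univ _⟩
  refine csSup_le hne ?_
  rintro c ⟨hc0, hc⟩
  have hcx : c ≤ fillA W s₀ z₁ x := le_csSup (hbdd x) ⟨hc0, hc⟩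
  refine le_csSup (hbdd y) ⟨hc0, conn_move hB hx hy ?_ hc⟩
  intro z hz
  exact (hcx.trans hxm).trans (hm z hz)

/-- Comparison of the values of `fillB` at two points of a preconnected set. -/
theorem fillB_le {V : E3 → ℝ} {s₁ m : ℝ} {z₀ : E3} (hup : ∀ x, V x ≤ s₁) {B : Set E3}
    (hB : IsPreconnected B) (hm : ∀ z ∈ B, V z ≤ m) {x y : E3} (hx : x ∈ B) (hy : y ∈ B)
    (hxm : m ≤ fillB V s₁ z₀ x) : fillB V s₁ z₀ y ≤ fillB V s₁ z₀ x := by
  have hbdd : ∀ u : E3, BddBelow {c : ℝ | c ≤ s₁ ∧ Conn {z | V z ≤ c} u z₀} := by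
    intro u
    refine ⟨V z₀, ?_⟩
    rintro c ⟨-, S, hS, -, -, hz⟩
    exact hS hz
  have hne : {c : ℝ | c ≤ s₁ ∧ Conn {z | V z ≤ c} x z₀}.Nonempty :=
    ⟨s₁, le_rfl, Set.univ, fun z _ => hup z, isPreconnected_univ, Set.mem_univ _,
      Set.mem_univ _⟩
  refine le_csInf hne ?_
  rintro c ⟨hc0, hc⟩
  have hcx : fillB V s₁ z₀ x ≤ c := csInf_le (hbdd x) ⟨hc0, hc⟩
  refine csInf_le (hbdd y) ⟨hc0, conn_move hB hx hy ?_ hc⟩
  intro z hz
  exact (hm z hz).trans (hxm.trans hcx)

end MFB

theorem FB (hFA : Stmt_FA) : Stmt_FB := by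
  intro a' b' s₀ s₁ W C z₁ hT hC hz
  obtain ⟨hL1, hL2, hAW, hAF, hT1, hT2⟩ := hFA a' b' s₀ s₁ W C z₁ hT hC hz
  refine ⟨?_, ?_⟩
  · intro x hx
    have hlt : fillA W s₀ z₁ x < W x := lt_of_le_of_ne (hAW x) hx
    obtain ⟨m, hm1, hm2⟩ := exists_between hlt
    have h1 : ∀ᶠ y in 𝓝 x, fillA W s₀ z₁ y < m :=
      hL1.continuous.continuousAt.eventually_lt continuousAt_const hm1
    have h2 : ∀ᶠ y in 𝓝 x, m < W y :=
      continuousAt_const.eventually_lt hT.cont.continuousAt hm2
    obtain ⟨r, hr, hball⟩ := Metric.eventually_nhds_iff_ball.mp (h1.and h2)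
    refine Metric.eventually_nhds_iff_ball.mpr ⟨r, hr, fun y hy => ?_⟩
    have hB : IsPreconnected (Metric.ball x r) := (convex_ball x r).isPreconnected
    have hmB : ∀ z ∈ Metric.ball x r, m ≤ W z := fun z hz => (hball z hz).2.le
    have hxB : x ∈ Metric.ball x r := Metric.mem_ball_self hr
    exact le_antisymm (MFB.fillA_le hT.lower hB hmB hy hxB (hball y hy).1.le)
      (MFB.fillA_le hT.lower hB hmB hxB hy hm1.le)
  · intro x hx
    have hlt : fillA W s₀ z₁ x < fill W s₀ s₁ 0 z₁ x := lt_of_le_of_ne (hAF x) (Ne.symm hx)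
    obtain ⟨m, hm1, hm2⟩ := exists_between hlt
    have h1 : ∀ᶠ y in 𝓝 x, fillA W s₀ z₁ y < m :=
      hL1.continuous.continuousAt.eventually_lt continuousAt_const hm1
    have h2 : ∀ᶠ y in 𝓝 x, m < fill W s₀ s₁ 0 z₁ y :=
      continuousAt_const.eventually_lt hL2.continuous.continuousAt hm2
    obtain ⟨r, hr, hball⟩ := Metric.eventually_nhds_iff_ball.mp (h1.and h2)
    refine Metric.eventually_nhds_iff_ball.mpr ⟨r, hr, fun y hy => ?_⟩
    have hB : IsPreconnected (Metric.ball x r) := (convex_ball x r).isPreconnected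
    have hmB : ∀ z ∈ Metric.ball x r, fillA W s₀ z₁ z ≤ m := fun z hz => (hball z hz).1.le
    have hxB : x ∈ Metric.ball x r := Metric.mem_ball_self hr
    exact le_antisymm (MFB.fillB_le hT1.upper hB hmB hxB hy hm2.le)
      (MFB.fillB_le hT1.upper hB hmB hy hxB (hball y hy).2.le)

end Pool.Agent.PFlow


end

section

/-!
# Module LSB: the limit `d → 0` in the integrated identity
-/

open MeasureTheory Filter Topology
open scoped ContDiff

namespace Pool.Agent.PFlow

open Pool.Agent.PenroseSph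

namespace MLSB

/-! ## Fatou's lemma for real functions -/

theorem fatou_real {α : Type*} [MeasurableSpace α] {μ : Measure α} {F : ℕ → α → ℝ} {f : α → ℝ}
    {a : ℕ → ℝ} {A : ℝ} (hF : ∀ n, Integrable (F n) μ) (h0 : ∀ n, 0 ≤ᵐ[μ] F n)
    (hlim : ∀ᵐ x ∂μ, Tendsto (fun n => F n x) atTop (𝓝 (f x)))
    (ha : ∀ n, ∫ x, F n x ∂μ ≤ a n) (hA : Tendsto a atTop (𝓝 A)) :
    Integrable f μ ∧ ∫ x, f x ∂μ ≤ A := by
  have hfm : AEStronglyMeasurable f μ :=
    aestronglyMeasurable_of_tendsto_ae atTop (fun n => (hF n).aestronglyMeasurable) hlim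
  have hf0 : 0 ≤ᵐ[μ] f := by
    have h1 : ∀ᵐ x ∂μ, ∀ n, 0 ≤ F n x := ae_all_iff.mpr h0
    filter_upwards [h1, hlim] with x hx hl
    exact ge_of_tendsto' hl hx
  have hA0 : 0 ≤ A := ge_of_tendsto' hA fun n => (integral_nonneg_of_ae (h0 n)).trans (ha n)
  have h1 : ∫⁻ x, ENNReal.ofReal (f x) ∂μ ≤ ENNReal.ofReal A := by
    have h2 : ∫⁻ x, ENNReal.ofReal (f x) ∂μ =
        ∫⁻ x, liminf (fun n => ENNReal.ofReal (F n x)) atTop ∂μ := by
      apply lintegral_congr_ae
      filter_upwards [hlim] with x hx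
      exact ((ENNReal.continuous_ofReal.tendsto _).comp hx).liminf_eq.symm
    rw [h2]
    refine (lintegral_liminf_le' fun n =>
      (hF n).aestronglyMeasurable.aemeasurable.ennreal_ofReal).trans ?_
    have h3 : Tendsto (fun n => ENNReal.ofReal (a n)) atTop (𝓝 (ENNReal.ofReal A)) :=
      (ENNReal.continuous_ofReal.tendsto _).comp hA
    rw [← h3.liminf_eq]
    refine liminf_le_liminf (Eventually.of_forall fun n => ?_)
    change ∫⁻ x, ENNReal.ofReal (F n x) ∂μ ≤ ENNReal.ofReal (a n)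
    rw [← ofReal_integral_eq_lintegral_ofReal (hF n) (h0 n)]
    exact ENNReal.ofReal_le_ofReal (ha n)
  have hint : Integrable f μ := ⟨hfm, by
    rw [hasFiniteIntegral_iff_ofReal hf0]
    exact h1.trans_lt ENNReal.ofReal_lt_top⟩
  refine ⟨hint, ?_⟩
  rw [← ofReal_integral_eq_lintegral_ofReal hint hf0] at h1
  exact (ENNReal.ofReal_le_ofReal_iff hA0).mp h1

/-! ## Bounded functions -/

/-- The function is bounded on the set. -/
def Bd (S : Set E3) (f : E3 → ℝ) : Prop := ∃ D : ℝ, 0 ≤ D ∧ ∀ x ∈ S, |f x| ≤ D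

variable {S : Set E3} {f f' : E3 → ℝ}

theorem Bd.const (c : ℝ) : Bd S fun _ => c := ⟨|c|, abs_nonneg _, fun _ _ => le_rfl⟩

theorem Bd.add (h : Bd S f) (h' : Bd S f') : Bd S fun x => f x + f' x := by
  obtain ⟨D, hD, h⟩ := h
  obtain ⟨D', hD', h'⟩ := h'
  exact ⟨D + D', by positivity, fun x hx => (abs_add_le _ _).trans (add_le_add (h x hx) (h' x hx))⟩

theorem Bd.neg (h : Bd S f) : Bd S fun x => - f x := by
  obtain ⟨D, hD, h⟩ := h
  exact ⟨D, hD, fun x hx => by rw [abs_neg]; exact h x hx⟩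

theorem Bd.sub (h : Bd S f) (h' : Bd S f') : Bd S fun x => f x - f' x := by
  have := h.add h'.neg
  simpa only [sub_eq_add_neg] using this

theorem Bd.mul (h : Bd S f) (h' : Bd S f') : Bd S fun x => f x * f' x := by
  obtain ⟨D, hD, h⟩ := h
  obtain ⟨D', hD', h'⟩ := h'
  refine ⟨D * D', by positivity, fun x hx => ?_⟩
  rw [abs_mul]
  exact mul_le_mul (h x hx) (h' x hx) (abs_nonneg _) hD

theorem Bd.sum {f : Fin 3 → E3 → ℝ} (h : ∀ i, Bd S (f i)) : Bd S fun x => ∑ i, f i x := by
  have := ((h 0).add (h 1)).add (h 2)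
  simpa only [Fin.sum_univ_three] using this

theorem Bd.mono {S' : Set E3} (h : Bd S f) (hS : S' ⊆ S) : Bd S' f := by
  obtain ⟨D, hD, h⟩ := h
  exact ⟨D, hD, fun x hx => h x (hS hx)⟩

theorem Bd.congr (h : Bd S f) (he : ∀ x ∈ S, f' x = f x) : Bd S f' := by
  obtain ⟨D, hD, h⟩ := h
  exact ⟨D, hD, fun x hx => by rw [he x hx]; exact h x hx⟩

theorem Bd.of_continuous {K : Set E3} (hK : IsCompact K) (h : ContinuousOn f K) : Bd K f := by
  obtain ⟨D, hD⟩ := hK.exists_bound_of_continuousOn h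
  exact ⟨max D 0, le_max_right _ _, fun x hx => ((Real.norm_eq_abs _) ▸ hD x hx).trans
    (le_max_left _ _)⟩

/-! ## Smooth functions -/

theorem pd_contDiff {f : E3 → ℝ} (h : ContDiff ℝ ∞ f) (i : Fin 3) : ContDiff ℝ ∞ (pd i f) := by
  have h1 : ContDiff ℝ ∞ (fderiv ℝ f) := h.fderiv_right (m := ∞) (by simp)
  exact h1.clm_apply contDiff_const

theorem pd_comm {f : E3 → ℝ} (h : ContDiff ℝ ∞ f) (x : E3) (i j : Fin 3) :
    pd i (pd j f) x = pd j (pd i f) x := by
  have hs : IsSymmSndFDerivAt ℝ f x := h.contDiffAt.isSymmSndFDerivAt (by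
    rw [minSmoothness_of_isRCLikeNormedField]
    exact WithTop.coe_le_coe.2 le_top)
  have hd : DifferentiableAt ℝ (fderiv ℝ f) x :=
    (h.contDiffAt.fderiv_right (m := ∞) (by simp)).differentiableAt (by simp)
  have key : ∀ v w : E3, fderiv ℝ (fun y => fderiv ℝ f y v) x w = fderiv ℝ (fderiv ℝ f) x w v := by
    intro v w
    have h1 : HasFDerivAt (fun y => fderiv ℝ f y v)
        ((ContinuousLinearMap.apply ℝ ℝ v).comp (fderiv ℝ (fderiv ℝ f) x)) x :=
      (ContinuousLinearMap.apply ℝ ℝ v).hasFDerivAt.comp x hd.hasFDerivAt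
    rw [h1.fderiv]
    rfl
  unfold pd
  rw [key, key]
  exact hs _ _

theorem hess2_symm {f : E3 → ℝ} (h : ContDiff ℝ ∞ f) (x : E3) : (hess2 f x).IsSymm := by
  ext i j
  exact pd_comm h x j i

/-! ## Pointwise formulas -/

theorem vsq_nonneg (p : Cov) : 0 ≤ vsq p := Finset.sum_nonneg fun _ _ => sq_nonneg _

theorem vsq_pos {p : Cov} (hp : p ≠ 0) : 0 < vsq p := by
  obtain ⟨i, hi⟩ := Function.ne_iff.mp hp
  exact Finset.sum_pos' (fun _ _ => sq_nonneg _) ⟨i, Finset.mem_univ i, by
    have : p i ≠ 0 := hi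
    positivity⟩

theorem vn_pos {p : Cov} (hp : p ≠ 0) : 0 < vn p := Real.sqrt_pos.mpr (vsq_pos hp)

theorem vn_nonneg (p : Cov) : 0 ≤ vn p := Real.sqrt_nonneg _

theorem vn_sq (p : Cov) : vn p ^ 2 = vsq p := Real.sq_sqrt (vsq_nonneg p)

theorem sum_mul_up (P : Bil) (p q : Cov) : ∑ i, p i * up P q i = ev P p q := by
  unfold up ev
  refine Finset.sum_congr rfl fun i _ => ?_
  rw [Finset.mul_sum]
  refine Finset.sum_congr rfl fun j _ => ?_
  ring

theorem ev_app (P H : Bil) (hP : P.IsSymm) (p : Cov) : ev P p (app P H p) = qf P H p := by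
  have hs : ∀ i j, P i j = P j i := fun i j => hP.apply j i
  unfold qf ev app up
  simp only [Fin.sum_univ_three]
  rw [hs 1 0, hs 2 0, hs 2 1]
  ring

theorem ev_comb (P : Bil) (p q r : Cov) (a b : ℝ) :
    ev P p (fun j => a * q j + b * r j) = a * ev P p q + b * ev P p r := by
  unfold ev
  simp only [Fin.sum_univ_three]
  ring

theorem qf_smul (P H : Bil) (c : ℝ) (p : Cov) :
    qf P H (fun i => c * p i) = c ^ 2 * qf P H p := by
  unfold qf ev up
  simp only [Fin.sum_univ_three]
  ring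

/-- The singular part of the flux. -/
noncomputable def sA (g : TensorField) (x : E3) (p : Cov) (M : Bil) : ℝ :=
  (trg g x (cHess g x p M) * ev (g x)⁻¹ p p - qf (g x)⁻¹ (cHess g x p M) p) / len g x p

/-- The regular part of the flux. -/
noncomputable def sB (ε : ℝ) (g h : TensorField) (x : E3) (p : Cov) : ℝ :=
  - (len g x p / (2 - ε)) * ev (g x)⁻¹ p p + qf (g x)⁻¹ (h x) p
    - trg g x (h x) * ev (g x)⁻¹ p p

theorem ev_nonneg {g : TensorField} {x : E3} (hg : (g x).PosDef) (p : Cov) :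
    0 ≤ ev (g x)⁻¹ p p := by
  have h1 := hg.inv.posSemidef.dotProduct_mulVec_nonneg p
  have h2 : star p ⬝ᵥ ((g x)⁻¹.mulVec p) = ev (g x)⁻¹ p p := by
    unfold ev
    simp only [dotProduct, Matrix.mulVec, star_trivial]
    refine Finset.sum_congr rfl fun i _ => ?_
    rw [Finset.mul_sum]
    refine Finset.sum_congr rfl fun j _ => ?_
    ring
  rwa [h2] at h1

theorem ev_pos {g : TensorField} {x : E3} (hg : (g x).PosDef) {p : Cov} (hp : p ≠ 0) :
    0 < ev (g x)⁻¹ p p := by
  have h1 := hg.inv.dotProduct_mulVec_pos hp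
  have h2 : star p ⬝ᵥ ((g x)⁻¹.mulVec p) = ev (g x)⁻¹ p p := by
    unfold ev
    simp only [dotProduct, Matrix.mulVec, star_trivial]
    refine Finset.sum_congr rfl fun i _ => ?_
    rw [Finset.mul_sum]
    refine Finset.sum_congr rfl fun j _ => ?_
    ring
  rwa [h2] at h1

theorem len_pos {g : TensorField} {x : E3} (hg : (g x).PosDef) {p : Cov} (hp : p ≠ 0) :
    0 < len g x p := Real.sqrt_pos.mpr (ev_pos hg hp)

theorem len_sq {g : TensorField} {x : E3} (hg : (g x).PosDef) (p : Cov) :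
    len g x p ^ 2 = ev (g x)⁻¹ p p := Real.sq_sqrt (ev_nonneg hg p)

theorem inv_symm {g : TensorField} {x : E3} (hg : (g x).PosDef) : (g x)⁻¹.IsSymm := by
  have h := hg.inv.isHermitian
  have h2 : (g x)⁻¹.conjTranspose = (g x)⁻¹.transpose := by
    ext i j
    simp
  rw [Matrix.IsSymm, ← h2]
  exact h

theorem sum_Zf (ε : ℝ) (g h : TensorField) (d : ℝ) (x : E3) (hg : (g x).PosDef) (p : Cov)
    (hp : p ≠ 0) (M : Bil) :
    ∑ i, p i * Zf ε g h d x p M i =
      len g x p / ld (g x)⁻¹ d p * sA g x p M + sB ε g h x p := by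
  have hl : len g x p ≠ 0 := (len_pos hg hp).ne'
  unfold Zf Yf
  simp only [mul_add, Finset.sum_add_distrib, mul_div_assoc', ← Finset.sum_div, sum_mul_up]
  have h1 : ev (g x)⁻¹ p (fun j => trg g x (cHess g x p M) * p j
      - app (g x)⁻¹ (cHess g x p M) p j) =
      trg g x (cHess g x p M) * ev (g x)⁻¹ p p - qf (g x)⁻¹ (cHess g x p M) p := by
    have := ev_comb (g x)⁻¹ p p (app (g x)⁻¹ (cHess g x p M) p) (trg g x (cHess g x p M)) (-1)
    rw [ev_app _ _ (inv_symm hg)] at this
    rw [sub_eq_add_neg, ← neg_one_mul (qf _ _ _), ← this]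
    congr 1
    funext j
    ring
  have h2 : ev (g x)⁻¹ p (fun j => - (len g x p / (2 - ε)) * p j
      + app (g x)⁻¹ (h x) p j - trg g x (h x) * p j) = sB ε g h x p := by
    have := ev_comb (g x)⁻¹ p p (app (g x)⁻¹ (h x) p)
      (- (len g x p / (2 - ε)) - trg g x (h x)) 1
    rw [ev_app _ _ (inv_symm hg)] at this
    unfold sB
    have h3 : (fun j => - (len g x p / (2 - ε)) * p j
      + app (g x)⁻¹ (h x) p j - trg g x (h x) * p j) =
      fun j => (- (len g x p / (2 - ε)) - trg g x (h x)) * p j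
        + 1 * app (g x)⁻¹ (h x) p j := by
      funext j
      ring
    rw [h3, this]
    ring
  rw [h1, h2]
  congr 1
  unfold sA
  field_simp

theorem flux_eq (ε : ℝ) (g h : TensorField) (x : E3) (hg : (g x).PosDef) (p : Cov)
    (hp : p ≠ 0) (M : Bil) : flux ε g h x p M = sA g x p M + sB ε g h x p := by
  have hl : len g x p ≠ 0 := (len_pos hg hp).ne'
  have h1 : bnn g x p (cHess g x p M) = qf (g x)⁻¹ (cHess g x p M) p / len g x p ^ 2 := by
    have e1 : nrm g x p = fun i => (len g x p)⁻¹ * up (g x)⁻¹ p i := by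
      funext i
      unfold nrm
      rw [div_eq_inv_mul]
      rfl
    unfold bnn qf
    rw [e1]
    unfold ev
    simp only [Fin.sum_univ_three]
    field_simp
  have h2 : ev (h x) (raise g x p) (raise g x p) = qf (g x)⁻¹ (h x) p := rfl
  unfold flux btan sA sB
  rw [h1, h2, len_sq hg, ← len_sq hg p]
  field_simp
  ring

theorem ld_zero (g : TensorField) (x : E3) (p : Cov) : ld (g x)⁻¹ 0 p = len g x p := by
  unfold ld len
  congr 1
  ring

theorem ld_pos {g : TensorField} {x : E3} (hg : (g x).PosDef) {p : Cov} (hp : p ≠ 0) (d : ℝ) :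
    0 < ld (g x)⁻¹ d p := by
  have := ev_pos hg hp
  exact Real.sqrt_pos.mpr (by positivity)

theorem len_le_ld {g : TensorField} {x : E3} (p : Cov) (d : ℝ) :
    len g x p ≤ ld (g x)⁻¹ d p :=
  Real.sqrt_le_sqrt (by linarith [sq_nonneg d])

theorem ld_tendsto (g : TensorField) (x : E3) (p : Cov) {d : ℕ → ℝ}
    (hd : Tendsto d atTop (𝓝 0)) :
    Tendsto (fun n => ld (g x)⁻¹ (d n) p) atTop (𝓝 (len g x p)) := by
  have h1 : Continuous fun t : ℝ => ld (g x)⁻¹ t p := by
    unfold ld
    fun_prop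
  have h2 := (h1.tendsto 0).comp hd
  rw [ld_zero] at h2
  exact h2

/-- Convergence of the divergence. -/
theorem DZx_tendsto (ε : ℝ) (g h : TensorField) {x : E3} (hg : (g x).PosDef) {p : Cov}
    (hp : p ≠ 0) (M : Bil) {d : ℕ → ℝ} (hd : Tendsto d atTop (𝓝 0)) :
    Tendsto (fun n => DZx ε g h (d n) x p M) atTop (𝓝 (DZx ε g h 0 x p M)) := by
  have h1 := ld_tendsto g x p hd
  have h2 : len g x p ≠ 0 := (len_pos hg hp).ne'
  have h3 : Tendsto (fun n => Dd (g x)⁻¹ (ric g x) (d n) p (cHess g x p M)) atTop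
      (𝓝 (Dd (g x)⁻¹ (ric g x) 0 p (cHess g x p M))) := by
    unfold Dd
    rw [ld_zero]
    exact (tendsto_const_nhds.div h1 h2).sub (tendsto_const_nhds.div (h1.pow 3) (pow_ne_zero 3 h2))
  unfold DZx DZ
  exact (((h3.sub_const _).add_const _).add_const _).sub_const _

/-- Convergence of the flux. -/
theorem flux_tendsto (ε : ℝ) (g h : TensorField) {x : E3} (hg : (g x).PosDef) {p : Cov}
    (hp : p ≠ 0) (M : Bil) {d : ℕ → ℝ} (hd : Tendsto d atTop (𝓝 0)) :
    Tendsto (fun n => ∑ i, p i * Zf ε g h (d n) x p M i) atTop (𝓝 (flux ε g h x p M)) := by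
  have h1 := ld_tendsto g x p hd
  have h2 : len g x p ≠ 0 := (len_pos hg hp).ne'
  simp only [sum_Zf ε g h _ x hg p hp M]
  rw [flux_eq ε g h x hg p hp M]
  have h3 : Tendsto (fun n => len g x p / ld (g x)⁻¹ (d n) p) atTop (𝓝 1) := by
    have := (tendsto_const_nhds (x := len g x p)).div h1 h2
    rwa [div_self h2] at this
  have h4 := (h3.mul_const (sA g x p M)).add_const (sB ε g h x p)
  rwa [one_mul] at h4

/-! ## Bounds for a smooth function on a compact set -/

section bounds

variable {K : Set E3} {g h : TensorField} {v : E3 → ℝ}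

/-- What is needed of the coefficients. -/
structure Cf (K : Set E3) (g h : TensorField) (C : ℝ) : Prop where
  one_le : 1 ≤ C
  pos : ∀ x ∈ K, (g x).PosDef
  low : ∀ x ∈ K, ∀ p, vsq p / C ≤ ev (g x)⁻¹ p p
  upp : ∀ x ∈ K, ∀ p, ev (g x)⁻¹ p p ≤ C * vsq p
  chr : ∀ x ∈ K, ∀ k i j, |christoffel g k i j x| ≤ C
  ten : ∀ x ∈ K, ∀ i j, |h x i j| ≤ C
  mom : ∀ x ∈ K, ∀ i, |momV g h x i| ≤ C
  inv : ∀ x ∈ K, ∀ i j, |(g x)⁻¹ i j| ≤ C
  vlow : ∀ x ∈ K, 1 / C ≤ volDen g x
  vupp : ∀ x ∈ K, volDen g x ≤ C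

theorem vn_le {C : ℝ} (hc : Cf K g h C) {x : E3} (hx : x ∈ K) (p : Cov) :
    vn p ≤ C * len g x p := by
  have hC := hc.one_le
  have h1 := hc.low x hx p
  rw [div_le_iff₀ (by linarith)] at h1
  rw [← len_sq (hc.pos x hx)] at h1
  have h2 : 0 ≤ len g x p := Real.sqrt_nonneg _
  unfold vn
  rw [Real.sqrt_le_left (by positivity)]
  nlinarith [sq_nonneg (len g x p), mul_nonneg (sq_nonneg (len g x p)) (by linarith : 0 ≤ C - 1)]

theorem len_le {C : ℝ} (hc : Cf K g h C) {x : E3} (hx : x ∈ K) (p : Cov) :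
    len g x p ≤ C * vn p := by
  have hC := hc.one_le
  have h1 := hc.upp x hx p
  rw [← vn_sq] at h1
  have h2 := vn_nonneg p
  unfold len
  rw [Real.sqrt_le_left (by positivity)]
  nlinarith [sq_nonneg (vn p), mul_nonneg (sq_nonneg (vn p)) (by linarith : 0 ≤ C - 1)]

theorem bd_coef {C : ℝ} (hc : Cf K g h C) :
    (∀ i j, Bd K fun x => (g x)⁻¹ i j) ∧ (∀ i j, Bd K fun x => h x i j) ∧
    (∀ i, Bd K fun x => momV g h x i) ∧ (∀ k i j, Bd K (christoffel g k i j)) := by
  have hC : 0 ≤ C := by linarith [hc.one_le]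
  exact ⟨fun i j => ⟨C, hC, fun x hx => hc.inv x hx i j⟩,
    fun i j => ⟨C, hC, fun x hx => hc.ten x hx i j⟩,
    fun i => ⟨C, hC, fun x hx => hc.mom x hx i⟩,
    fun k i j => ⟨C, hC, fun x hx => hc.chr x hx k i j⟩⟩

theorem bd_grad (hK : IsCompact K) (hv : ContDiff ℝ ∞ v) (i : Fin 3) :
    Bd K fun x => grad v x i :=
  Bd.of_continuous hK (pd_contDiff hv i).continuous.continuousOn

theorem bd_hess {C : ℝ} (hc : Cf K g h C) (hK : IsCompact K) (hv : ContDiff ℝ ∞ v)
    (i j : Fin 3) : Bd K fun x => cHess g x (grad v x) (hess2 v x) i j := by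
  have h1 : Bd K fun x => hess2 v x i j :=
    Bd.of_continuous hK (pd_contDiff (pd_contDiff hv j) i).continuous.continuousOn
  exact h1.sub (Bd.sum fun k => ((bd_coef hc).2.2.2 k i j).mul (bd_grad hK hv k))

/-- The normalised differential. -/
noncomputable def nu (g : TensorField) (v : E3 → ℝ) (x : E3) : Cov := fun i =>
  (len g x (grad v x))⁻¹ * grad v x i

/-- The noncritical points. -/
def ncr (K : Set E3) (v : E3 → ℝ) : Set E3 := {x | x ∈ K ∧ grad v x ≠ 0}

theorem ncr_sub : ncr K v ⊆ K := fun _ hx => hx.1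

theorem bd_nu {C : ℝ} (hc : Cf K g h C) (i : Fin 3) : Bd (ncr K v) fun x => nu g v x i := by
  have hC := hc.one_le
  refine ⟨C, by linarith, fun x hx => ?_⟩
  have hl := len_pos (hc.pos x hx.1) hx.2
  have h1 := vn_le hc hx.1 (grad v x)
  have h2 : |grad v x i| ≤ vn (grad v x) := by
    unfold vn
    rw [← Real.sqrt_sq_eq_abs]
    apply Real.sqrt_le_sqrt
    exact Finset.single_le_sum (f := fun i => grad v x i ^ 2) (fun _ _ => sq_nonneg _)
      (Finset.mem_univ i)
  unfold nu
  rw [abs_mul, abs_inv, abs_of_pos hl, inv_mul_le_iff₀ hl]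
  linarith

theorem bd_len {C : ℝ} (hc : Cf K g h C) (hK : IsCompact K) (hv : ContDiff ℝ ∞ v) :
    Bd K fun x => len g x (grad v x) := by
  have h1 : Bd K fun x => vsq (grad v x) := by
    have := Bd.sum (S := K) (f := fun i x => grad v x i * grad v x i)
      fun i => (bd_grad hK hv i).mul (bd_grad hK hv i)
    refine this.congr fun x _ => ?_
    unfold vsq
    exact Finset.sum_congr rfl fun i _ => sq _
  obtain ⟨D, hD, h1⟩ := h1
  have hC := hc.one_le
  refine ⟨C * (D + 1), by positivity, fun x hx => ?_⟩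
  have h0 : 0 ≤ len g x (grad v x) := Real.sqrt_nonneg _
  change |len g x (grad v x)| ≤ _
  rw [abs_of_nonneg h0]
  refine (len_le hc hx _).trans (mul_le_mul_of_nonneg_left ?_ (by linarith))
  unfold vn
  rw [Real.sqrt_le_left (by positivity)]
  have := (le_abs_self _).trans (h1 x hx)
  nlinarith

theorem bd_tr2 {C : ℝ} (hc : Cf K g h C) {H : E3 → Bil} (hH : ∀ i j, Bd K fun x => H x i j) :
    Bd K fun x => tr2 (g x)⁻¹ (H x) :=
  Bd.sum fun i => Bd.sum fun j => ((bd_coef hc).1 i j).mul (hH i j)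

theorem bd_up {C : ℝ} (hc : Cf K g h C) {S : Set E3} (hS : S ⊆ K) {p : E3 → Cov}
    (hp : ∀ i, Bd S fun x => p x i) (i : Fin 3) : Bd S fun x => up (g x)⁻¹ (p x) i :=
  Bd.sum fun j => (((bd_coef hc).1 i j).mono hS).mul (hp j)

theorem bd_qf {C : ℝ} (hc : Cf K g h C) {S : Set E3} (hS : S ⊆ K) {H : E3 → Bil}
    (hH : ∀ i j, Bd K fun x => H x i j) {p : E3 → Cov} (hp : ∀ i, Bd S fun x => p x i) :
    Bd S fun x => qf (g x)⁻¹ (H x) (p x) :=
  Bd.sum fun i => Bd.sum fun j =>
    (((hH i j).mono hS).mul (bd_up hc hS hp i)).mul (bd_up hc hS hp j)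

theorem qf_nu {x : E3} (hg : (g x).PosDef) (hx : grad v x ≠ 0) (H : Bil) :
    qf (g x)⁻¹ H (grad v x) = len g x (grad v x) ^ 2 * qf (g x)⁻¹ H (nu g v x) := by
  have hl := (len_pos hg hx).ne'
  have h1 : nu g v x = fun i => (len g x (grad v x))⁻¹ * grad v x i := rfl
  rw [h1, qf_smul]
  field_simp

/-- The singular part of the flux is bounded. -/
theorem bd_sA {C : ℝ} (hc : Cf K g h C) (hK : IsCompact K) (hv : ContDiff ℝ ∞ v) :
    Bd (ncr K v) fun x => sA g x (grad v x) (hess2 v x) := by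
  have h1 : Bd (ncr K v) fun x => tr2 (g x)⁻¹ (cHess g x (grad v x) (hess2 v x))
      * len g x (grad v x)
      - len g x (grad v x) * qf (g x)⁻¹ (cHess g x (grad v x) (hess2 v x)) (nu g v x) :=
    (((bd_tr2 hc (bd_hess hc hK hv)).mono ncr_sub).mul ((bd_len hc hK hv).mono ncr_sub)).sub
      (((bd_len hc hK hv).mono ncr_sub).mul (bd_qf hc ncr_sub (bd_hess hc hK hv) (bd_nu hc)))
  refine h1.congr fun x hx => ?_
  have hg := hc.pos x hx.1
  have hl := (len_pos hg hx.2).ne'
  have h2 : trg g x (cHess g x (grad v x) (hess2 v x)) =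
    tr2 (g x)⁻¹ (cHess g x (grad v x) (hess2 v x)) := rfl
  unfold sA
  rw [qf_nu hg hx.2, ← len_sq hg, h2]
  field_simp

/-- The regular part of the flux is bounded. -/
theorem bd_sB {C : ℝ} (hc : Cf K g h C) (hK : IsCompact K) (hv : ContDiff ℝ ∞ v) (ε : ℝ) :
    Bd K fun x => sB ε g h x (grad v x) := by
  have he : Bd K fun x => ev (g x)⁻¹ (grad v x) (grad v x) :=
    Bd.sum fun i => Bd.sum fun j =>
      (((bd_coef hc).1 i j).mul (bd_grad hK hv i)).mul (bd_grad hK hv j)
  have h1 : Bd K fun x => - (len g x (grad v x) * (2 - ε)⁻¹)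
      * ev (g x)⁻¹ (grad v x) (grad v x) :=
    ((bd_len hc hK hv).mul (Bd.const _)).neg.mul he
  exact (h1.add (bd_qf hc (subset_refl K) (bd_coef hc).2.1 (bd_grad hK hv))).sub
    ((bd_tr2 hc (bd_coef hc).2.1).mul he)

/-- The difference of the two divergences is bounded. -/
theorem bd_diff {C : ℝ} (hc : Cf K g h C) (hK : IsCompact K) (hv : ContDiff ℝ ∞ v) (ε : ℝ) :
    Bd (ncr K v) fun x => DZx ε g h 0 x (grad v x) (hess2 v x)
      - Ddx g 0 x (grad v x) (hess2 v x) := by
  have hH := bd_hess hc hK hv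
  have hl := (bd_len hc hK hv).mono (ncr_sub (v := v))
  have hn : Bd (ncr K v) fun x =>
      qf (g x)⁻¹ (cHess g x (grad v x) (hess2 v x)) (nu g v x) :=
    bd_qf hc ncr_sub hH (bd_nu hc)
  have h1 : Bd (ncr K v) fun x =>
      (qf (g x)⁻¹ (cHess g x (grad v x) (hess2 v x)) (nu g v x) * len g x (grad v x)
        + len g x (grad v x) * tr2 (g x)⁻¹ (cHess g x (grad v x) (hess2 v x))) * (2 - ε)⁻¹ :=
    ((hn.mul hl).add (hl.mul ((bd_tr2 hc hH).mono ncr_sub))).mul (Bd.const _)
  have h2 : Bd (ncr K v) fun x => ev (g x)⁻¹ (momV g h x) (grad v x) :=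
    (Bd.sum fun i => Bd.sum fun j =>
      (((bd_coef hc).1 i j).mul ((bd_coef hc).2.2.1 i)).mul (bd_grad hK hv j)).mono ncr_sub
  have h3 : Bd (ncr K v) fun x => dd (g x)⁻¹ (h x) (cHess g x (grad v x) (hess2 v x)) :=
    (Bd.sum fun i => Bd.sum fun j => Bd.sum fun k => Bd.sum fun l =>
      ((((bd_coef hc).1 i k).mul ((bd_coef hc).1 j l)).mul ((bd_coef hc).2.1 i j)).mul
        (hH k l)).mono ncr_sub
  have h4 : Bd (ncr K v) fun x => tr2 (g x)⁻¹ (h x)
      * tr2 (g x)⁻¹ (cHess g x (grad v x) (hess2 v x)) :=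
    ((bd_tr2 hc (bd_coef hc).2.1).mul (bd_tr2 hc hH)).mono ncr_sub
  refine (((h1.neg.add h2).add h3).sub h4).congr fun x hx => ?_
  have hg := hc.pos x hx.1
  have hl := (len_pos hg hx.2).ne'
  have e1 : nn (g x)⁻¹ (cHess g x (grad v x) (hess2 v x)) (grad v x) =
      qf (g x)⁻¹ (cHess g x (grad v x) (hess2 v x)) (nu g v x) := by
    unfold nn
    rw [qf_nu hg hx.2, ← len_sq hg]
    field_simp
  have e2 : lp (g x)⁻¹ (grad v x) = len g x (grad v x) := rfl
  unfold DZx Ddx DZ
  rw [e1, e2]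
  ring

theorem getCf (hCT : Stmt_CT) {U : Set E3} (hU : IsOpen U) (hg : MetricOn U g)
    (hh : TensorOn U h) (hK : IsCompact K) (hKU : K ⊆ U) : ∃ C : ℝ, Cf K g h C := by
  obtain ⟨C, hC, hx⟩ := hCT U g h hU hg hh K hK hKU
  exact ⟨C, hC, fun x h => hg.posDef x (hKU h), fun x h p => ((hx x h).1 p).1,
    fun x h p => ((hx x h).1 p).2, fun x h => (hx x h).2.2.2.1, fun x h => (hx x h).2.2.2.2.1,
    fun x h => (hx x h).2.2.2.2.2.1, fun x h => (hx x h).2.2.2.2.2.2.2.2.1,
    fun x h => (hx x h).2.2.2.2.2.2.2.2.2.1, fun x h => (hx x h).2.2.2.2.2.2.2.2.2.2⟩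

theorem cont_vol {U : Set E3} (hg : MetricOn U g) : ContinuousOn (volDen g) U := by
  have h1 : ∀ i j, ContinuousOn (fun x => g x i j) U := fun i j => (hg.smooth i j).continuousOn
  unfold volDen
  simp only [Matrix.det_fin_three]
  fun_prop

theorem cont_Z (hZD : Stmt_ZD) {ε : ℝ} (hε : 0 < ε) (hε1 : ε < 1) {U : Set E3} (hU : IsOpen U)
    (hg : MetricOn U g) (hh : TensorOn U h) (hv : ContDiff ℝ ∞ v) {d : ℝ} (hd : 0 < d) :
    ContinuousOn (fun x => DZx ε g h d x (grad v x) (hess2 v x) * volDen g x) U := by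
  obtain ⟨-, h1, -, h2⟩ := hZD ε U g h v d hε hε1 hU hg hh hv.contDiffOn hd
  have h3 : ContinuousOn (fun x => ∑ i, pd i (fun y => volDen g y
      * Zf ε g h d y (grad v y) (hess2 v y) i) x) U := by
    apply continuousOn_finsetSum
    intro i _
    exact ((h1 i).continuousOn_fderiv_of_isOpen hU le_rfl).clm_apply continuousOn_const
  exact h3.congr fun x hx => (mul_comm _ _).trans (h2 x hx).symm

theorem cont_F (hZD : Stmt_ZD) {ε : ℝ} (hε : 0 < ε) (hε1 : ε < 1) {U : Set E3} (hU : IsOpen U)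
    (hg : MetricOn U g) (hh : TensorOn U h) (hv : ContDiff ℝ ∞ v) {d : ℝ} (hd : 0 < d) :
    ContinuousOn (fun x => (∑ i, pd i v x * Zf ε g h d x (grad v x) (hess2 v x) i)
      * volDen g x) U := by
  obtain ⟨-, h1, -, -⟩ := hZD ε U g h v d hε hε1 hU hg hh hv.contDiffOn hd
  have h3 : ContinuousOn (fun x => ∑ i, pd i v x * (volDen g x
      * Zf ε g h d x (grad v x) (hess2 v x) i)) U := by
    apply continuousOn_finsetSum
    intro i _
    exact (pd_contDiff hv i).continuous.continuousOn.mul (h1 i).continuousOn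
  refine h3.congr fun x _ => ?_
  simp only
  rw [Finset.sum_mul]
  refine Finset.sum_congr rfl fun i _ => ?_
  ring

theorem cont_vsq (hv : ContDiff ℝ ∞ v) : Continuous fun x => vsq (grad v x) := by
  unfold vsq
  exact continuous_finsetSum _ fun i _ => (pd_contDiff hv i).continuous.pow 2

theorem cont_vn (hv : ContDiff ℝ ∞ v) : Continuous fun x => vn (grad v x) :=
  (cont_vsq hv).sqrt

theorem cont_msq (hv : ContDiff ℝ ∞ v) : Continuous fun x => msq (hess2 v x) := by
  unfold msq
  exact continuous_finsetSum _ fun i _ => continuous_finsetSum _ fun j _ =>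
    (pd_contDiff (pd_contDiff hv j) i).continuous.pow 2

/-- The pointwise inequality for the second derivatives. -/
theorem hess_pt {C₁ C₂ D₃ l n m A res s Z Dd' : ℝ} (hC₁ : 1 ≤ C₁) (hC₂ : 1 ≤ C₂) (hl : 0 < l)
    (hn : 0 < n) (h1 : n ≤ C₂ * l) (h2 : l ≤ C₂ * n) (hs : s = n ^ 2) (hm : 0 ≤ m)
    (hup : Dd' ≤ 1 / l * (-(m / C₁) + C₁ * (res ^ 2 + s * (1 + s))))
    (hd : |Z - Dd'| ≤ D₃) (hA : A = C₂ * C₁ * (D₃ - Z + C₁ * C₂ * (res ^ 2 / n + (1 + s) * n))) :
    m / n ≤ A := by
  have hZ : Z - Dd' ≤ D₃ := (abs_le.mp hd).2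
  have e1 : 1 / l ≤ C₂ * (1 / n) := by
    rw [mul_one_div, div_le_div_iff₀ hl hn]
    linarith
  have e2 : 1 / n ≤ C₂ * (1 / l) := by
    rw [mul_one_div, div_le_div_iff₀ hn hl]
    linarith
  have e3 : 1 / l * (m / C₁) ≤ D₃ - Z + C₁ * (1 / l * (res ^ 2 + s * (1 + s))) := by
    nlinarith
  have hs0 : 0 ≤ s := by rw [hs]; positivity
  have e4 : 1 / l * (res ^ 2 + s * (1 + s)) ≤ C₂ * (res ^ 2 / n + (1 + s) * n) := by
    have h3 : C₂ * (res ^ 2 / n + (1 + s) * n) = C₂ * (1 / n) * (res ^ 2 + s * (1 + s)) := by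
      have : s * (1 + s) = (1 + s) * n * n := by rw [hs]; ring
      rw [this]
      field_simp
    rw [h3]
    exact mul_le_mul_of_nonneg_right e1 (by positivity)
  have e5 : 1 / l * (m / C₁) ≤ D₃ - Z + C₁ * C₂ * (res ^ 2 / n + (1 + s) * n) := by
    have := mul_le_mul_of_nonneg_left e4 (by linarith : 0 ≤ C₁)
    linarith
  have e6 : m / n ≤ C₂ * C₁ * (1 / l * (m / C₁)) := by
    have h3 : C₂ * C₁ * (1 / l * (m / C₁)) = C₂ * (1 / l) * m := by
      field_simp
    rw [h3, div_eq_mul_one_div, mul_comm m]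
    exact mul_le_mul_of_nonneg_right e2 hm
  rw [hA]
  exact e6.trans (mul_le_mul_of_nonneg_left e5 (by positivity))

end bounds

end MLSB

open MLSB in
theorem LSB (hLSA : Stmt_LSA) (hUP : Stmt_UP) (hCT : Stmt_CT) (hFA : Stmt_FA)
    (hZD : Stmt_ZD) : Stmt_LSB := by
  intro ε U g h K hε hε1 hU hg hh hK hKU
  obtain ⟨C₂, hc⟩ := getCf hCT hU hg hh hK hKU
  obtain ⟨C₁, hC₁, hup⟩ := hUP ε U g h hε hε1 hU hg hh K hK hKU
  have hC₂ := hc.one_le
  refine ⟨C₁ * C₂, by positivity, ?_⟩
  intro a' b' s₀ s₁ t₀ t₁ W v C z₁ ψ B hD hB hfin hres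
  obtain ⟨hfA, hfB, -⟩ := hFA a' b' s₀ s₁ W C z₁ hD.trunc hD.lip hD.far
  have hv := hD.smooth
  have hlsa := hLSA ε U g h a' b' s₀ s₁ t₀ t₁ W v C z₁ K ψ hε hε1 hD
  have hB0 : 0 ≤ B := (hD.nonneg 0).trans (hB 0)
  -- the sets
  set G := good W s₀ s₁ 0 z₁ with hGdef
  set F := fill W s₀ s₁ 0 z₁ with hFdef
  have hGc : IsClosed G :=
    (isClosed_eq hfA.continuous hD.trunc.cont).inter (isClosed_eq hfB.continuous hfA.continuous)
  have hKm := hK.measurableSet
  have hSm : MeasurableSet (K ∩ G) := hKm.inter hGc.measurableSet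
  have hSK : K ∩ G ⊆ K := Set.inter_subset_left
  set T := badset W s₀ s₁ z₁ ψ with hTdef
  have hTm : MeasurableSet T :=
    ((isClosed_tsupport ψ).preimage hfB.continuous).measurableSet.diff hGc.measurableSet
  have hTK : T ⊆ K \ G := by
    intro x hx
    exact ⟨hD.levels x (Set.Ioo_subset_Icc_self (hD.supp hx.1)), hx.2⟩
  have hTK' : T ⊆ K := fun x hx => (hTK hx).1
  have hWv : ∀ x ∈ K, W x = v x := fun x hx => (hD.agree x hx).self_of_nhds
  have hFv : ∀ x ∈ K ∩ G, F x = v x := fun x hx =>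
    (hx.2.2.trans hx.2.1).trans (hWv x hx.1)
  have hae : ∀ᵐ x ∂(volume.restrict K), x ∈ ncr K v := by
    rw [ae_restrict_iff' hKm]
    have h0 : volume {x ∈ K | grad v x = 0} = 0 := hfin.measure_zero _
    have h1 : ∀ᵐ x : E3, x ∉ {x ∈ K | grad v x = 0} := measure_eq_zero_iff_ae_notMem.mp h0
    filter_upwards [h1] with x hx hxK
    exact ⟨hxK, fun h2 => hx ⟨hxK, h2⟩⟩
  have haeS : ∀ᵐ x ∂(volume.restrict (K ∩ G)), x ∈ ncr K v :=
    ae_mono (Measure.restrict_mono hSK le_rfl) hae
  have haeT : ∀ᵐ x ∂(volume.restrict T), x ∈ ncr K v :=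
    ae_mono (Measure.restrict_mono hTK' le_rfl) hae
  -- continuity
  have hvc : Continuous v := hv.continuous
  have hψc : Continuous ψ := hD.diff.continuous
  have hψ' : Continuous (deriv ψ) := hD.diff.continuous_deriv le_rfl
  have hvol : ContinuousOn (volDen g) K := (cont_vol hg).mono hKU
  have hvol0 : ∀ x, 0 ≤ volDen g x := fun x => Real.sqrt_nonneg _
  have hvsq := cont_vsq hv
  have hvn := cont_vn hv
  set R : E3 → ℝ := fun x => resid ε g h x (grad v x) (hess2 v x) ^ 2 / vn (grad v x) with hR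
  have hR0 : ∀ x, 0 ≤ R x := fun x => div_nonneg (sq_nonneg _) (vn_nonneg _)
  set Z : ℝ → E3 → ℝ := fun d x => DZx ε g h d x (grad v x) (hess2 v x) with hZ
  set Q : E3 → ℝ := fun x => C₁ * (R x + (1 + vsq (grad v x)) * (vn (grad v x) + 1)) with hQ
  have hQi : IntegrableOn (fun x => ψ (v x) * Q x * volDen g x) K := by
    have h1 : IntegrableOn (fun x => (1 + vsq (grad v x)) * (vn (grad v x) + 1)) K :=
      (by fun_prop : Continuous fun x => (1 + vsq (grad v x)) * (vn (grad v x) + 1)).continuousOn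
        |>.integrableOn_compact hK
    have h2 : IntegrableOn Q K := (hres.add h1).const_mul C₁
    have h3 : ContinuousOn (fun x => ψ (v x) * volDen g x) K :=
      (hψc.comp hvc).continuousOn.mul hvol
    have h4 := h2.continuousOn_mul h3 hK
    refine h4.congr (Eventually.of_forall fun x => ?_)
    simp only
    ring
  have hZi : ∀ d, 0 < d → IntegrableOn (fun x => ψ (v x) * Z d x * volDen g x) K := by
    intro d hd
    have h1 := (cont_Z hZD hε hε1 hU hg hh hv hd).mono hKU
    have h2 : ContinuousOn (fun x => ψ (v x) * (Z d x * volDen g x)) K :=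
      (hψc.comp hvc).continuousOn.mul h1
    refine (h2.integrableOn_compact hK).congr (Eventually.of_forall fun x => ?_)
    simp only
    ring
  have hZi' : ∀ d, 0 < d → IntegrableOn (fun x => ψ (F x) * Z d x * volDen g x) K := by
    intro d hd
    have h1 := (cont_Z hZD hε hε1 hU hg hh hv hd).mono hKU
    have h2 : ContinuousOn (fun x => ψ (F x) * (Z d x * volDen g x)) K :=
      (hψc.comp hfB.continuous).continuousOn.mul h1
    refine (h2.integrableOn_compact hK).congr (Eventually.of_forall fun x => ?_)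
    simp only
    ring
  -- the bad set
  set I₁ : ℝ := ∫ x in T, (R x + (1 + vsq (grad v x)) * vn (grad v x)) with hI₁
  set I₂ : ℝ := ∫ x in T, (1 + vsq (grad v x)) with hI₂
  have hi1 : IntegrableOn (fun x => R x + (1 + vsq (grad v x)) * vn (grad v x)) T := by
    have h1 : IntegrableOn (fun x => (1 + vsq (grad v x)) * vn (grad v x)) K :=
      (by fun_prop : Continuous fun x => (1 + vsq (grad v x)) * vn (grad v x)).continuousOn
        |>.integrableOn_compact hK
    exact IntegrableOn.mono_set (hres.add h1) hTK'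
  have hi2 : IntegrableOn (fun x => 1 + vsq (grad v x)) T := by
    have h1 : IntegrableOn (fun x => 1 + vsq (grad v x)) K :=
      (by fun_prop : Continuous fun x => 1 + vsq (grad v x)).continuousOn
        |>.integrableOn_compact hK
    exact h1.mono_set hTK'
  have hbad : ∀ d, 0 < d → d ≤ 1 →
      ∫ x in T, ψ (F x) * Z d x * volDen g x ≤ C₁ * C₂ * B * (I₁ + d * I₂) := by
    intro d hd hd1
    have h1 : ∫ x in T, ψ (F x) * Z d x * volDen g x ≤
        ∫ x in T, C₁ * C₂ * B * ((R x + (1 + vsq (grad v x)) * vn (grad v x))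
          + d * (1 + vsq (grad v x))) := by
      apply integral_mono_ae ((hZi' d hd).mono_set hTK') ((hi1.add (hi2.const_mul d)).const_mul _)
      filter_upwards [haeT] with x hx
      have hu := (hup x hx.1 (grad v x) (hess2 v x) d hx.2 (hess2_symm hv x) hd.le hd1).2
      have hE : 0 ≤ R x + (1 + vsq (grad v x)) * (vn (grad v x) + d) := by
        have := hR0 x
        have := vsq_nonneg (grad v x)
        have := vn_nonneg (grad v x)
        positivity
      have h2 : ψ (F x) * Z d x ≤ B * (C₁ * (R x + (1 + vsq (grad v x)) * (vn (grad v x) + d))) :=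
        (mul_le_mul_of_nonneg_left hu (hD.nonneg _)).trans
          (mul_le_mul_of_nonneg_right (hB _) (by positivity))
      calc ψ (F x) * Z d x * volDen g x
          ≤ B * (C₁ * (R x + (1 + vsq (grad v x)) * (vn (grad v x) + d))) * volDen g x :=
            mul_le_mul_of_nonneg_right h2 (hvol0 x)
        _ ≤ B * (C₁ * (R x + (1 + vsq (grad v x)) * (vn (grad v x) + d))) * C₂ :=
            mul_le_mul_of_nonneg_left (hc.vupp x hx.1) (by positivity)
        _ = _ := by
          simp only [Pi.add_apply]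
          ring
    have h2 : ∫ x in T, C₁ * C₂ * B * ((R x + (1 + vsq (grad v x)) * vn (grad v x))
        + d * (1 + vsq (grad v x))) = C₁ * C₂ * B * (I₁ + d * I₂) := by
      rw [integral_const_mul, integral_add hi1 (hi2.const_mul d), integral_const_mul]
    rw [← h2]
    exact h1
  -- the identity
  set L : ℝ → ℝ := fun d => - ∫ x in K ∩ G, deriv ψ (v x)
    * (∑ i, pd i v x * Zf ε g h d x (grad v x) (hess2 v x) i) * volDen g x with hL
  have hid : ∀ d, 0 < d → ∫ x in K ∩ G, ψ (v x) * Z d x * volDen g x =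
      L d - ∫ x in T, ψ (F x) * Z d x * volDen g x := by
    intro d hd
    have h1 : L d = ∫ x in K, ψ (F x) * Z d x * volDen g x := hlsa d hd
    rw [← integral_inter_add_sdiff hGc.measurableSet (hZi' d hd)] at h1
    have h2 : ∫ x in K \ G, ψ (F x) * Z d x * volDen g x =
        ∫ x in T, ψ (F x) * Z d x * volDen g x := by
      apply setIntegral_eq_of_subset_of_forall_sdiff_eq_zero (hKm.diff hGc.measurableSet) hTK
      intro x hx
      have h3 : F x ∉ tsupport ψ := fun h4 => hx.2 ⟨h4, hx.1.2⟩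
      rw [image_eq_zero_of_notMem_tsupport h3, zero_mul, zero_mul]
    have h3 : ∫ x in K ∩ G, ψ (F x) * Z d x * volDen g x =
        ∫ x in K ∩ G, ψ (v x) * Z d x * volDen g x := by
      apply setIntegral_congr_fun hSm
      intro x hx
      simp only
      rw [hFv x hx]
    rw [h2, h3] at h1
    linarith
  -- the limit of the left side
  obtain ⟨DA, hDA0, hDA⟩ := bd_sA (v := v) hc hK hv
  obtain ⟨DB, hDB0, hDB⟩ := bd_sB (v := v) hc hK hv ε
  obtain ⟨Dψ, hDψ0, hDψ⟩ : Bd K fun x => deriv ψ (v x) :=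
    Bd.of_continuous hK (hψ'.comp hvc).continuousOn
  set dn : ℕ → ℝ := fun n => 1 / ((n : ℝ) + 1) with hdn
  have hdn0 : ∀ n, 0 < dn n := fun n => by positivity
  have hdn1 : ∀ n, dn n ≤ 1 := fun n => by
    rw [hdn]
    simp only
    rw [div_le_one (by positivity)]
    linarith [(Nat.cast_nonneg n : (0 : ℝ) ≤ n)]
  have hdnt : Tendsto dn atTop (𝓝 0) := tendsto_one_div_add_atTop_nhds_zero_nat
  set L₀ : ℝ := - ∫ x in K ∩ G, deriv ψ (v x)
    * flux ε g h x (grad v x) (hess2 v x) * volDen g x with hL₀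
  have hLt : Tendsto (fun n => L (dn n)) atTop (𝓝 L₀) := by
    apply Tendsto.neg
    apply tendsto_integral_of_dominated_convergence (fun _ => Dψ * (DA + DB) * C₂)
    · intro n
      have h1 := (cont_F hZD hε hε1 hU hg hh hv (hdn0 n)).mono (hSK.trans hKU)
      have h2 : ContinuousOn (fun x => deriv ψ (v x) *
          ((∑ i, pd i v x * Zf ε g h (dn n) x (grad v x) (hess2 v x) i) * volDen g x))
          (K ∩ G) := (hψ'.comp hvc).continuousOn.mul h1
      refine (h2.aestronglyMeasurable hSm).congr (Eventually.of_forall fun x => ?_)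
      simp only
      ring
    · exact integrableOn_const (ne_top_of_le_ne_top hK.measure_lt_top.ne (measure_mono hSK))
    · intro n
      filter_upwards [haeS] with x hx
      have hgx := hc.pos x hx.1
      have h1 : |∑ i, pd i v x * Zf ε g h (dn n) x (grad v x) (hess2 v x) i| ≤ DA + DB := by
        have h2 : ∑ i, pd i v x * Zf ε g h (dn n) x (grad v x) (hess2 v x) i =
            len g x (grad v x) / ld (g x)⁻¹ (dn n) (grad v x) * sA g x (grad v x) (hess2 v x)
              + sB ε g h x (grad v x) :=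
          sum_Zf ε g h (dn n) x hgx (grad v x) hx.2 (hess2 v x)
        rw [h2]
        refine (abs_add_le _ _).trans (add_le_add ?_ (hDB x hx.1))
        rw [abs_mul]
        have h3 := ld_pos hgx hx.2 (dn n)
        have h4 := len_pos hgx hx.2
        have h5 : |len g x (grad v x) / ld (g x)⁻¹ (dn n) (grad v x)| ≤ 1 := by
          rw [abs_of_pos (by positivity), div_le_one h3]
          exact len_le_ld _ _
        calc _ ≤ 1 * DA := mul_le_mul h5 (hDA x hx) (abs_nonneg _) zero_le_one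
          _ = DA := one_mul _
      rw [Real.norm_eq_abs, abs_mul, abs_mul, abs_of_nonneg (hvol0 x)]
      exact mul_le_mul (mul_le_mul (hDψ x hx.1) h1 (abs_nonneg _) hDψ0) (hc.vupp x hx.1)
        (hvol0 x) (by positivity)
    · filter_upwards [haeS] with x hx
      have h1 := flux_tendsto ε g h (hc.pos x hx.1) hx.2 (hess2 v x) hdnt
      exact (h1.const_mul _).mul_const _
  -- Fatou
  set IB : ℝ := ∫ x in K ∩ G, ψ (v x) * Q x * volDen g x with hIB
  have hfat := fatou_real (μ := volume.restrict (K ∩ G))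
    (F := fun n x => ψ (v x) * (Q x - Z (dn n) x) * volDen g x)
    (f := fun x => ψ (v x) * (Q x - Z 0 x) * volDen g x)
    (a := fun n => IB - L (dn n) + C₁ * C₂ * B * (I₁ + dn n * I₂))
    (A := IB - L₀ + C₁ * C₂ * B * (I₁ + 0 * I₂))
    (fun n => by
      refine ((hQi.mono_set hSK).sub ((hZi _ (hdn0 n)).mono_set hSK)).congr
        (Eventually.of_forall fun x => ?_)
      simp only [Pi.sub_apply]
      ring)
    (fun n => by
      filter_upwards [haeS] with x hx
      have hu := (hup x hx.1 (grad v x) (hess2 v x) (dn n) hx.2 (hess2_symm hv x)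
        (hdn0 n).le (hdn1 n)).2
      have h1 : Z (dn n) x ≤ Q x := by
        refine hu.trans (mul_le_mul_of_nonneg_left (add_le_add_right ?_ _) (by linarith))
        exact mul_le_mul_of_nonneg_left (by linarith [hdn1 n])
          (by linarith [vsq_nonneg (grad v x)])
      exact mul_nonneg (mul_nonneg (hD.nonneg _) (by linarith)) (hvol0 x))
    (by
      filter_upwards [haeS] with x hx
      have h1 := DZx_tendsto ε g h (hc.pos x hx.1) hx.2 (hess2 v x) hdnt
      exact ((h1.const_sub (Q x)).const_mul _).mul_const _)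
    (fun n => by
      have h1 : ∫ x in K ∩ G, ψ (v x) * (Q x - Z (dn n) x) * volDen g x =
          IB - ∫ x in K ∩ G, ψ (v x) * Z (dn n) x * volDen g x := by
        rw [hIB, ← integral_sub (hQi.mono_set hSK) ((hZi _ (hdn0 n)).mono_set hSK)]
        congr 1
        funext x
        ring
      rw [h1, hid _ (hdn0 n)]
      linarith [hbad _ (hdn0 n) (hdn1 n)])
    ((tendsto_const_nhds.sub hLt).add
      ((tendsto_const_nhds.add (hdnt.mul_const I₂)).const_mul _))
  obtain ⟨hfi, hfle⟩ := hfat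
  have hZ0 : IntegrableOn (fun x => ψ (v x) * Z 0 x * volDen g x) (K ∩ G) := by
    refine ((hQi.mono_set hSK).sub hfi).congr (Eventually.of_forall fun x => ?_)
    simp only [Pi.sub_apply]
    ring
  have hZe : ∫ x in K ∩ G, ψ (v x) * Z 0 x * volDen g x =
      IB - ∫ x in K ∩ G, ψ (v x) * (Q x - Z 0 x) * volDen g x := by
    rw [hIB, ← integral_sub (hQi.mono_set hSK) hfi]
    congr 1
    funext x
    ring
  refine ⟨?_, hZ0, ?_⟩
  · -- second derivatives
    obtain ⟨D₃, hD₃0, hD₃⟩ := bd_diff (v := v) hc hK hv ε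
    have hb1 : IntegrableOn (fun x => ψ (v x) * D₃ * volDen g x) (K ∩ G) :=
      ((((hψc.comp hvc).continuousOn.mul continuousOn_const).mul hvol).integrableOn_compact
        hK).mono_set hSK
    have hb2 : IntegrableOn (fun x => ψ (v x) * (R x + (1 + vsq (grad v x)) * vn (grad v x))
        * volDen g x) (K ∩ G) := by
      have h1 : IntegrableOn (fun x => (1 + vsq (grad v x)) * vn (grad v x)) K :=
        (by fun_prop : Continuous fun x => (1 + vsq (grad v x)) * vn (grad v x)).continuousOn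
          |>.integrableOn_compact hK
      have h2 : IntegrableOn (fun x => R x + (1 + vsq (grad v x)) * vn (grad v x)) K :=
        hres.add h1
      have h3 : ContinuousOn (fun x => ψ (v x) * volDen g x) K :=
        (hψc.comp hvc).continuousOn.mul hvol
      refine ((h2.continuousOn_mul h3 hK).mono_set hSK).congr
        (Eventually.of_forall fun x => ?_)
      simp only
      ring
    have hb3 := (((hb1.sub hZ0).add (hb2.const_mul (C₁ * C₂))).const_mul (C₂ * (C₂ * C₁)))
    refine hb3.mono' ?_ ?_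
    · exact ((hψc.comp hvc).measurable.mul
        ((cont_msq hv).measurable.div hvn.measurable)).aestronglyMeasurable
    · filter_upwards [haeS] with x hx
      have hgx := hc.pos x hx.1
      have hup0 := (hup x hx.1 (grad v x) (hess2 v x) 0 hx.2 (hess2_symm hv x) le_rfl
        zero_le_one).1
      rw [ld_zero] at hup0
      have hm0 : 0 ≤ msq (hess2 v x) :=
        Finset.sum_nonneg fun _ _ => Finset.sum_nonneg fun _ _ => sq_nonneg _
      have h1 := hess_pt hC₁ hC₂ (len_pos hgx hx.2) (vn_pos hx.2) (vn_le hc hx.1 _)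
        (len_le hc hx.1 _) (vn_sq _).symm hm0 hup0 (hD₃ x hx) rfl
      have hv1 : 1 ≤ C₂ * volDen g x := by
        have := hc.vlow x hx.1
        rw [div_le_iff₀ (by linarith)] at this
        linarith
      have hmn : 0 ≤ msq (hess2 v x) / vn (grad v x) := div_nonneg hm0 (vn_nonneg _)
      rw [Real.norm_eq_abs, abs_of_nonneg (mul_nonneg (hD.nonneg _) hmn)]
      have h2 : msq (hess2 v x) / vn (grad v x) ≤
          (C₂ * (C₂ * C₁ * (D₃ - Z 0 x + C₁ * C₂ * (R x + (1 + vsq (grad v x))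
            * vn (grad v x))))) * volDen g x := by
        have h3 := mul_le_mul_of_nonneg_left hv1 (hmn.trans h1)
        refine ((h1.trans_eq (mul_one _).symm).trans h3).trans (le_of_eq ?_)
        simp only [hR, hZ]
        ring
      have h4 := mul_le_mul_of_nonneg_left h2 (hD.nonneg (v x))
      simp only [Pi.add_apply, Pi.sub_apply]
      refine h4.trans (le_of_eq ?_)
      ring
  · rw [hZe]
    have h1 : (∫ x in K ∩ G, ψ (v x) * (Q x - Z 0 x) * volDen g x) ≤
        IB - L₀ + C₁ * C₂ * B * (I₁ + 0 * I₂) := hfle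
    have h2 : L₀ ≤ IB - (∫ x in K ∩ G, ψ (v x) * (Q x - Z 0 x) * volDen g x)
        + C₁ * C₂ * B * I₁ := by
      have h3 : C₁ * C₂ * B * (I₁ + 0 * I₂) = C₁ * C₂ * B * I₁ := by ring
      linarith
    exact h2

end Pool.Agent.PFlow


end
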