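import Mathlib
import Pool.Agent.PenroseM.C12

/-! Parts: PFlow.G.LOC -/

section

/-!
# Module LOC: the local form of the Gauss-Bonnet inequality
-/

open MeasureTheory Filter Topology
open scoped ContDiff

namespace Pool.Agent.PFlow.GB

open Pool.Agent.PenroseSph Pool.Agent.PFlow

namespace MLOC

/-! ### Bounded measurable functions on a set of finite measure -/

/-- Bounded and measurable on `S`. -/
def BM (S : Set E3) (F : E3 → ℝ) : Prop :=
  AEStronglyMeasurable F (volume.restrict S) ∧ ∃ B, ∀ x ∈ S, |F x| ≤ B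

theorem BM.mul {S : Set E3} {F G : E3 → ℝ} (hF : BM S F) (hG : BM S G) :
    BM S (fun x => F x * G x) := by
  obtain ⟨h1, B, hB⟩ := hF
  obtain ⟨h2, C, hC⟩ := hG
  refine ⟨h1.mul h2, B * C, fun x hx => ?_⟩
  rw [abs_mul]
  exact mul_le_mul (hB x hx) (hC x hx) (abs_nonneg _) ((abs_nonneg _).trans (hB x hx))

theorem BM.add {S : Set E3} {F G : E3 → ℝ} (hF : BM S F) (hG : BM S G) :
    BM S (fun x => F x + G x) := by
  obtain ⟨h1, B, hB⟩ := hF
  obtain ⟨h2, C, hC⟩ := hG
  refine ⟨h1.add h2, B + C, fun x hx => ?_⟩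
  exact (abs_add_le _ _).trans (add_le_add (hB x hx) (hC x hx))

theorem BM.sub {S : Set E3} {F G : E3 → ℝ} (hF : BM S F) (hG : BM S G) :
    BM S (fun x => F x - G x) := by
  obtain ⟨h1, B, hB⟩ := hF
  obtain ⟨h2, C, hC⟩ := hG
  refine ⟨h1.sub h2, B + C, fun x hx => ?_⟩
  exact (abs_sub _ _).trans (add_le_add (hB x hx) (hC x hx))

theorem BM.sq {S : Set E3} {F : E3 → ℝ} (hF : BM S F) : BM S (fun x => F x ^ 2) := by
  have := hF.mul hF
  simpa only [pow_two] using this

theorem BM.integrable {S : Set E3} {F : E3 → ℝ} (hF : BM S F) (hS : MeasurableSet S)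
    (hfin : volume S < ⊤) : IntegrableOn F S := by
  obtain ⟨h1, B, hB⟩ := hF
  have : IsFiniteMeasure (volume.restrict S) := ⟨by simpa using hfin⟩
  refine Integrable.of_bound h1 B ?_
  rw [ae_restrict_iff' hS]
  exact Eventually.of_forall fun x hx => by simpa using hB x hx

theorem BM.memLp {S : Set E3} {F : E3 → ℝ} (hF : BM S F) (hS : MeasurableSet S)
    (hfin : volume S < ⊤) : MemLp F 2 (volume.restrict S) := by
  obtain ⟨h1, B, hB⟩ := hF
  have : IsFiniteMeasure (volume.restrict S) := ⟨by simpa using hfin⟩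
  refine MemLp.of_bound h1 B ?_
  rw [ae_restrict_iff' hS]
  exact Eventually.of_forall fun x hx => by simpa using hB x hx

theorem BM.of_continuousOn {S K : Set E3} {F : E3 → ℝ} (hS : MeasurableSet S) (hSK : S ⊆ K)
    (hK : IsCompact K) (hF : ContinuousOn F K) : BM S F := by
  refine ⟨(hF.mono hSK).aestronglyMeasurable hS, ?_⟩
  obtain ⟨B, hB⟩ := hK.exists_bound_of_continuousOn hF
  exact ⟨B, fun x hx => by simpa using hB x (hSK hx)⟩

theorem BM.mono {S T : Set E3} {F : E3 → ℝ} (hF : BM T F) (h : S ⊆ T) : BM S F :=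
  ⟨hF.1.mono_measure (Measure.restrict_mono h le_rfl), hF.2.imp fun _ hB x hx => hB x (h hx)⟩

theorem BM.const {S : Set E3} (c : ℝ) : BM S (fun _ => c) :=
  ⟨aestronglyMeasurable_const, |c|, fun _ _ => le_rfl⟩

/-! ### The inequality -/

/-- The measure theoretic part of the proof. -/
theorem abs_ineq (S : Set E3) (hS : MeasurableSet S) (hfin : volume S < ⊤)
    (P κ Lu ρK θ m G w D ρ1 : E3 → ℝ) (B C1 L w1 w2 ε1 ε2 C2 A η : ℝ)
    (bP : BM S P) (bκ : BM S κ) (bLu : BM S Lu) (bρ : BM S ρK) (bθ : BM S θ) (bm : BM S m)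
    (bD : BM S D) (bρ1 : BM S ρ1) (bw : BM S (fun x => 1 / (2 * w x)))
    (hB : 0 < B) (hC1 : 0 ≤ C1) (hL : 0 < L) (hw2 : 0 < w2) (hη : 0 < η)
    (hP0 : ∀ x ∈ S, 0 ≤ P x) (hPB : ∀ x ∈ S, P x ≤ B) (hθ0 : ∀ x ∈ S, 0 ≤ θ x)
    (hθ1 : ∀ x ∈ S, θ x ≤ 1) (hm : ∀ x ∈ S, 0 ≤ m x) (hκ : ∀ x ∈ S, κ x = G x + ρK x)
    (hG : ∀ x ∈ S, G x * (1 - θ x) ≤ C1 * (8 / L) * (w1 + D x))
    (hw : ∀ x ∈ S, w2 ≤ w x) (hD : ∀ x ∈ S, 0 ≤ D x) (hw1 : 0 ≤ w1)
    (h1 : ∫ x in S, ρK x * P x * m x = 0)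
    (h2 : ∫ x in S, (Lu x - ρK x) ^ 2 * m x ≤ ε1)
    (h3 : ∫ x in S, ρ1 x ^ 2 * m x ≤ ε2)
    (h4 : ∫ x in S, D x * m x ≤ C2)
    (h5 : ∫ x in S, P x * (κ x - Lu x) * θ x * m x
      ≤ A + ∫ x in S, P x * (ρ1 x ^ 2 / (2 * w x)) * m x) :
    ∫ x in S, P x * κ x * m x ≤ A + B * ε2 / (2 * w2)
      + B / 2 * (ε1 / η + η * ∫ x in S, m x)
      + B * C1 * (8 / L) * (w1 * (∫ x in S, m x) + C2) := by
  have i0 : IntegrableOn (fun x => P x * κ x * m x) S := ((bP.mul bκ).mul bm).integrable hS hfin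
  have i1 : IntegrableOn (fun x => ρK x * P x * m x) S := ((bρ.mul bP).mul bm).integrable hS hfin
  have i2 : IntegrableOn (fun x => (Lu x - ρK x) ^ 2 * m x) S :=
    ((bLu.sub bρ).sq.mul bm).integrable hS hfin
  have i3 : IntegrableOn (fun x => ρ1 x ^ 2 * m x) S := (bρ1.sq.mul bm).integrable hS hfin
  have i4 : IntegrableOn (fun x => D x * m x) S := (bD.mul bm).integrable hS hfin
  have i5 : IntegrableOn (fun x => P x * (κ x - Lu x) * θ x * m x) S :=
    (((bP.mul (bκ.sub bLu)).mul bθ).mul bm).integrable hS hfin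
  have i6 : IntegrableOn (fun x => P x * (ρ1 x ^ 2 / (2 * w x)) * m x) S := by
    have : BM S (fun x => P x * (ρ1 x ^ 2 * (1 / (2 * w x))) * m x) :=
      (bP.mul (bρ1.sq.mul bw)).mul bm
    have e : (fun x => P x * (ρ1 x ^ 2 / (2 * w x)) * m x)
        = fun x => P x * (ρ1 x ^ 2 * (1 / (2 * w x))) * m x := by
      funext x; ring
    rw [e]
    exact this.integrable hS hfin
  have i7 : IntegrableOn m S := bm.integrable hS hfin
  -- the pointwise inequality
  have key : ∀ x ∈ S, P x * κ x * m x ≤ ρK x * P x * m x + P x * (κ x - Lu x) * θ x * m x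
      + B * C1 * (8 / L) * (w1 * m x + D x * m x)
      + B / 2 * ((Lu x - ρK x) ^ 2 * m x / η + η * m x) := by
    intro x hx
    have a1 := hP0 x hx
    have a2 := hPB x hx
    have a3 := hθ0 x hx
    have a4 := hθ1 x hx
    have a5 := hm x hx
    have a6 := hκ x hx
    have a7 := hG x hx
    have a8 := hD x hx
    have b1 : P x * (G x * (1 - θ x)) ≤ B * (C1 * (8 / L) * (w1 + D x)) := by
      have c1 : P x * (G x * (1 - θ x)) ≤ P x * (C1 * (8 / L) * (w1 + D x)) :=
        mul_le_mul_of_nonneg_left a7 a1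
      have c2 : 0 ≤ C1 * (8 / L) * (w1 + D x) := by positivity
      exact c1.trans (mul_le_mul_of_nonneg_right a2 c2)
    have b2 : P x * ((Lu x - ρK x) * θ x) ≤ B / 2 * ((Lu x - ρK x) ^ 2 / η + η) := by
      have c1 : (Lu x - ρK x) * θ x ≤ |Lu x - ρK x| := by
        calc (Lu x - ρK x) * θ x ≤ |Lu x - ρK x| * θ x :=
              mul_le_mul_of_nonneg_right (le_abs_self _) a3
          _ ≤ |Lu x - ρK x| * 1 := mul_le_mul_of_nonneg_left a4 (abs_nonneg _)
          _ = _ := mul_one _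
      have c2 : |Lu x - ρK x| ≤ ((Lu x - ρK x) ^ 2 / η + η) / 2 := by
        rw [← sq_abs (Lu x - ρK x)]
        have : 0 ≤ (|Lu x - ρK x| - η) ^ 2 / η := by positivity
        have e : (|Lu x - ρK x| - η) ^ 2 / η
            = |Lu x - ρK x| ^ 2 / η - 2 * |Lu x - ρK x| + η := by
          field_simp
          ring
        linarith
      have c3 : 0 ≤ ((Lu x - ρK x) ^ 2 / η + η) / 2 := by positivity
      calc P x * ((Lu x - ρK x) * θ x) ≤ P x * (((Lu x - ρK x) ^ 2 / η + η) / 2) :=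
            mul_le_mul_of_nonneg_left (c1.trans c2) a1
        _ ≤ B * (((Lu x - ρK x) ^ 2 / η + η) / 2) := mul_le_mul_of_nonneg_right a2 c3
        _ = _ := by ring
    have b3 : P x * κ x = ρK x * P x + P x * (κ x - Lu x) * θ x + P x * (G x * (1 - θ x))
        + P x * ((Lu x - ρK x) * θ x) := by
      rw [a6]; ring
    have b4 : P x * κ x ≤ ρK x * P x + P x * (κ x - Lu x) * θ x
        + B * (C1 * (8 / L) * (w1 + D x)) + B / 2 * ((Lu x - ρK x) ^ 2 / η + η) := by
      rw [b3]; linarith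
    calc P x * κ x * m x ≤ (ρK x * P x + P x * (κ x - Lu x) * θ x
        + B * (C1 * (8 / L) * (w1 + D x)) + B / 2 * ((Lu x - ρK x) ^ 2 / η + η)) * m x :=
          mul_le_mul_of_nonneg_right b4 a5
      _ = _ := by ring
  have key2 := setIntegral_mono_on i0 (((i1.add i5).add
    (((i7.const_mul w1).add i4).const_mul (B * C1 * (8 / L)))).add
    (((i2.div_const η).add (i7.const_mul η)).const_mul (B / 2))) hS key
  have e1 : ∫ x in S, ((((fun x => ρK x * P x * m x) + fun x => P x * (κ x - Lu x) * θ x * m x)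
      + fun x => B * C1 * (8 / L) * (((fun x => w1 * m x) + fun x => D x * m x) x))
      + fun x => B / 2 * (((fun x => (Lu x - ρK x) ^ 2 * m x / η) + fun x => η * m x) x)) x
      = (∫ x in S, ρK x * P x * m x) + (∫ x in S, P x * (κ x - Lu x) * θ x * m x)
        + B * C1 * (8 / L) * (w1 * (∫ x in S, m x) + ∫ x in S, D x * m x)
        + B / 2 * ((∫ x in S, (Lu x - ρK x) ^ 2 * m x) / η + η * ∫ x in S, m x) := by
    rw [integral_add' ((i1.add i5).add
      (((i7.const_mul w1).add i4).const_mul (B * C1 * (8 / L))))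
      (((i2.div_const η).add (i7.const_mul η)).const_mul (B / 2)),
      integral_add' (i1.add i5) (((i7.const_mul w1).add i4).const_mul (B * C1 * (8 / L))),
      integral_add' i1 i5, integral_const_mul, integral_const_mul,
      integral_add' (i7.const_mul w1) i4, integral_add' (i2.div_const η) (i7.const_mul η),
      integral_const_mul, integral_const_mul, integral_div]
  have key3 := key2.trans_eq e1
  have h6 : ∫ x in S, P x * (ρ1 x ^ 2 / (2 * w x)) * m x ≤ B / (2 * w2) * ε2 := by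
    have h7 : ∫ x in S, P x * (ρ1 x ^ 2 / (2 * w x)) * m x
        ≤ ∫ x in S, B / (2 * w2) * (ρ1 x ^ 2 * m x) := by
      refine setIntegral_mono_on i6 (i3.const_mul _) hS fun x hx => ?_
      have a1 := hP0 x hx
      have a2 := hPB x hx
      have a5 := hm x hx
      have a6 := hw x hx
      have c1 : ρ1 x ^ 2 / (2 * w x) ≤ ρ1 x ^ 2 / (2 * w2) := by gcongr
      have c2 : 0 ≤ ρ1 x ^ 2 / (2 * w2) := by positivity
      calc P x * (ρ1 x ^ 2 / (2 * w x)) * m x ≤ P x * (ρ1 x ^ 2 / (2 * w2)) * m x := by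
            gcongr
        _ ≤ B * (ρ1 x ^ 2 / (2 * w2)) * m x := by gcongr
        _ = _ := by ring
    rw [integral_const_mul] at h7
    exact h7.trans (mul_le_mul_of_nonneg_left h3 (by positivity))
  have h8 : (∫ x in S, (Lu x - ρK x) ^ 2 * m x) / η ≤ ε1 / η := by gcongr
  have h9 : B * C1 * (8 / L) * (w1 * (∫ x in S, m x) + ∫ x in S, D x * m x)
      ≤ B * C1 * (8 / L) * (w1 * (∫ x in S, m x) + C2) := by gcongr
  have h10 : B / 2 * ((∫ x in S, (Lu x - ρK x) ^ 2 * m x) / η + η * ∫ x in S, m x)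
      ≤ B / 2 * (ε1 / η + η * ∫ x in S, m x) := by gcongr
  have h11 : B / (2 * w2) * ε2 = B * ε2 / (2 * w2) := by ring
  rw [h1] at key3
  linarith

/-- The pointwise inequality near the pole. -/
theorem pole_ineq {f w D A X r β L : ℝ} (hr : 0 < r) (hw : 0 < w) (hf : 0 ≤ f) (hD : 0 ≤ D)
    (hfA : f = A + 2 * X + D) (hX : X ^ 2 ≤ A * D) (hA : 1 / (2 * r) ≤ A) (hβ : 0 ≤ β)
    (hβr : β * r ≤ 1 / L) : β * (1 - f / (f + w)) ≤ 8 / L * (w + D) := by
  have hA0 : 0 < A := lt_of_lt_of_le (by positivity) hA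
  have h1 : 0 ≤ A + 4 * X + 4 * D := by
    by_contra hneg
    push Not at hneg
    nlinarith [sq_nonneg (A - 4 * D), sq_nonneg (A + 4 * D)]
  have h2 : 1 / (4 * r) ≤ f + D := by
    have e : 1 / (4 * r) = 1 / (2 * r) / 2 := by field_simp; norm_num
    rw [e]
    linarith
  have hfw : 0 < f + w := by linarith
  have h3 : 1 - f / (f + w) = w / (f + w) := by
    field_simp
    ring
  have h4 : w / (f + w) ≤ 8 * r * (w + D) := by
    rw [div_le_iff₀ hfw]
    have h5 : 1 ≤ 4 * r * (f + D) := by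
      rw [div_le_iff₀ (by positivity)] at h2
      linarith
    rcases le_total (1 / 2) (4 * r * f) with h6 | h6
    · have : 0 ≤ r * D * f := by positivity
      have : 0 ≤ r * D * w := by positivity
      have : 0 ≤ r * w * w := by positivity
      nlinarith [mul_le_mul_of_nonneg_right h6 hw.le]
    · have h7 : 1 / 2 ≤ 4 * r * D := by linarith
      have : 0 ≤ r * D * f := by positivity
      have : 0 ≤ r * f * w := by positivity
      have : 0 ≤ r * w * w := by positivity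
      nlinarith [mul_le_mul_of_nonneg_right h7 hw.le]
  rw [h3]
  calc β * (w / (f + w)) ≤ β * (8 * r * (w + D)) := mul_le_mul_of_nonneg_left h4 hβ
    _ = (β * r) * (8 * (w + D)) := by ring
    _ ≤ 1 / L * (8 * (w + D)) := mul_le_mul_of_nonneg_right hβr (by positivity)
    _ = _ := by ring

/-! ### Geometry -/

theorem lin_congr {g : TensorField} {W f f' h h' : E3 → ℝ} {x : E3} (hf : f =ᶠ[𝓝 x] f')
    (hh : h =ᶠ[𝓝 x] h') : lin g W f h x = lin g W f' h' x := by
  have e1 : grad f x = grad f' x := by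
    funext i
    unfold grad pd
    rw [hf.fderiv_eq]
  have e2 : grad h x = grad h' x := by
    funext i
    unfold grad pd
    rw [hh.fderiv_eq]
  unfold lin
  rw [e1, e2]

theorem measurable_ind {F : E3 → ℝ} {O : Set E3} (hO : IsOpen O) (hF : ContinuousOn F O) :
    Measurable (Set.indicator O F) := by
  classical
  rw [← Set.piecewise_eq_indicator]
  exact hF.measurable_piecewise continuousOn_const hO.measurableSet

/-- The leaf is empty. -/
theorem empty_case {V : Set E3} {a b : ℝ} {g : TensorField} {W : E3 → ℝ} (hF : Fol V a b g W)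
    {s0 : ℝ} (ha : a < s0) (hb : s0 < b) (hne : ∀ p0 ∈ V, W p0 ≠ s0) :
    ∃ e : ℝ, 0 < e ∧ a < s0 - e ∧ s0 + e < b ∧ ∀ ψ : ℝ → ℝ, BumpOn (s0 - e) (s0 + e) ψ →
      ∫ x in V, ψ (W x) * curv g W x * dens g W x ≤ 4 * Real.pi * ∫ s, ψ s := by
  set η : ℝ := min (s0 - a) (b - s0) / 2 with hη
  have hη0 : 0 < η := by
    have : 0 < min (s0 - a) (b - s0) := lt_min (by linarith) (by linarith)
    positivity
  have hη1 : η ≤ (s0 - a) / 2 := by
    have := min_le_left (s0 - a) (b - s0)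
    rw [hη]; linarith
  have hη2 : η ≤ (b - s0) / 2 := by
    have := min_le_right (s0 - a) (b - s0)
    rw [hη]; linarith
  have hK := hF.proper (s0 - η) (s0 + η) (by linarith) (by linarith)
  have hc : ContinuousOn (fun x => |W x - s0|) (cslab V W (s0 - η) (s0 + η)) :=
    ((hF.continuousOn.mono (cslab_subset _ _)).sub continuousOn_const).abs
  obtain ⟨e', he', hmin⟩ := hK.exists_forall_le' hc (a := 0) (fun x hx =>
    abs_pos.mpr (sub_ne_zero.mpr (hne x hx.1)))
  refine ⟨min η e', lt_min hη0 he', ?_, ?_, ?_⟩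
  · have := min_le_left η e'
    linarith
  · have := min_le_left η e'
    linarith
  · intro ψ hψ
    have h0 : ∀ x ∈ V, ψ (W x) = 0 := by
      intro x hx
      apply image_eq_zero_of_notMem_tsupport
      intro hmem
      have h1 := hψ.supp hmem
      have h2 := min_le_left η e'
      have h3 := min_le_right η e'
      have hxK : x ∈ cslab V W (s0 - η) (s0 + η) :=
        ⟨hx, by linarith [h1.1], by linarith [h1.2]⟩
      have h4 := hmin x hxK
      have h5 : |W x - s0| < min η e' := abs_lt.mpr ⟨by linarith [h1.1], by linarith [h1.2]⟩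
      linarith
    have h1 : ∫ x in V, ψ (W x) * curv g W x * dens g W x = 0 := by
      rw [setIntegral_congr_fun hF.isOpen.measurableSet (g := fun _ => (0 : ℝ))]
      · simp
      · intro x hx
        simp [h0 x hx]
    rw [h1]
    have h2 : 0 ≤ ∫ s, ψ s := integral_nonneg fun s => hψ.nonneg s
    positivity

end MLOC

open MLOC in
theorem LOC (_hALG : Stmt_ALG) (hSMO : Stmt_SMO) (hRUL : Stmt_RUL) (_hIBP : Stmt_IBP)
    (hNULL : Stmt_NULL) (hSOLVE : Stmt_SOLVE) (hCHART : Stmt_CHART) (hCHX : Stmt_CHX)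
    (hPOLE : Stmt_POLE) (hSEP : Stmt_SEP) (hPHI0 : Stmt_PHI0) (hPUNCT : Stmt_PUNCT)
    (hRHO : Stmt_RHO) (hCONC : Stmt_CONC) : Stmt_LOC := by
  intro V a b g W hF s0 ha hb hconn
  by_cases hne : ∀ p0 ∈ V, W p0 ≠ s0
  · exact empty_case hF ha hb hne
  push Not at hne
  obtain ⟨p0, hp0, hWp⟩ := hne
  obtain ⟨Φ, z0, r, e, hch, -, hz, -⟩ := hCHART V a b g W hF p0 hp0 Set.univ univ_mem
  have hz0 : s0 = z0 2 := by rw [hz, hWp]
  subst hz0
  obtain ⟨hae, heb, -, hPV, -⟩ := hCHX V a b g W hF Φ z0 r e hch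
  have hr := hch.r_pos
  obtain ⟨t2, ht2, hsep⟩ := hSEP V a b g W hF Φ z0 r e hch
  have hτ : |(-(r / 2))| < r := by
    rw [abs_neg, abs_of_pos (by positivity)]
    linarith
  obtain ⟨hrps, cp, Cp, hcp, hCp, hbox, hpl⟩ := hPOLE V a b g W hF Φ z0 r e hch (-(r / 2)) hτ
  set t1 : ℝ := min t2 (4 / Cp) with ht1
  have ht1pos : 0 < t1 := lt_min ht2 (by positivity)
  have hs := hsep t1 ht1pos (min_le_left _ _)
  obtain ⟨hZo, hZ0, hcdphi, hnear, Cρ, hCρ, hρb⟩ := hPHI0 V a b g W hF Φ z0 r e hch t1 hs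
  obtain ⟨e2, he2, he2e, hnullρ⟩ := hRHO V a b g W hF Φ z0 r e hch hconn t1 hs
  obtain ⟨e3, C1, he3, he3e, hC1, hconc⟩ := hCONC V a b g W hF Φ z0 r e hch hconn t1 hs
  have he1 : 0 < min e2 e3 := lt_min he2 he3
  have he12 : min e2 e3 ≤ e2 := min_le_left _ _
  have he13 : min e2 e3 ≤ e3 := min_le_right _ _
  generalize hE : min e2 e3 = e1 at he1 he12 he13
  have he1e : e1 ≤ e := he12.trans he2e
  refine ⟨e1, he1, by linarith, by linarith, ?_⟩
  intro ψ hψ
  -- sets
  set Ue := slab V W (z0 2 - e) (z0 2 + e) with hUe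
  set U := slab V W (z0 2 - e1) (z0 2 + e1) with hU
  set Z := sing g W Φ z0 r e with hZ
  set φ0 := phi0 g W Φ z0 r e t1 with hφ0
  set ρ0 := rho0 g W Φ z0 r e t1 with hρ0
  have hUUe : U ⊆ Ue := slab_mono (by linarith) (by linarith)
  have hUo : IsOpen U := isOpen_slab hF _ _
  have hUeo : IsOpen Ue := isOpen_slab hF _ _
  have hUV : U ⊆ V := slab_subset _ _
  have hUeV : Ue ⊆ V := slab_subset _ _
  have hSo : IsOpen (U \ Z) := by
    have : U \ Z = U ∩ (Ue \ Z) := by
      ext x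
      constructor
      · exact fun hx => ⟨hx.1, hUUe hx.1, hx.2⟩
      · exact fun hx => ⟨hx.1, hx.2.2⟩
    rw [this]
    exact hUo.inter hZo
  have hSm : MeasurableSet (U \ Z) := hSo.measurableSet
  have hSU : (U \ Z : Set E3) =ᵐ[volume] U := sdiff_null_ae_eq_self hZ0
  have hSV : U \ Z ⊆ V := fun x hx => hUV hx.1
  have hSUe : U \ Z ⊆ Ue := fun x hx => hUUe hx.1
  have hK := hF.proper (z0 2 - e) (z0 2 + e) hae heb
  have hKV : cslab V W (z0 2 - e) (z0 2 + e) ⊆ V := cslab_subset _ _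
  have hUeK : Ue ⊆ cslab V W (z0 2 - e) (z0 2 + e) := slab_subset_cslab _ _
  have hSK : U \ Z ⊆ cslab V W (z0 2 - e) (z0 2 + e) := hSUe.trans hUeK
  have hfin : volume (U \ Z) < ⊤ := lt_of_le_of_lt (measure_mono hSK) hK.measure_lt_top
  have hUfin : volume U < ⊤ :=
    lt_of_le_of_lt (measure_mono (hUUe.trans hUeK)) hK.measure_lt_top
  -- smooth functions
  have smo := fun x (hx : x ∈ V) => hSMO.2 g W x (hF.reg hx)
  have cm : ContinuousOn (dens g W) V := fun x hx => by
    obtain ⟨-, -, -, -, -, -, -, -, h1, -⟩ := smo x hx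
    exact h1.continuousAt.continuousWithinAt
  have cκ : ContinuousOn (curv g W) V := fun x hx => by
    obtain ⟨-, -, -, -, -, -, -, -, -, -, -, h1, -⟩ := smo x hx
    exact h1.continuousAt.continuousWithinAt
  have cLap : ∀ f : E3 → ℝ, ContDiff ℝ ∞ f → ContinuousOn (lap g W f) V := fun f hf x hx => by
    obtain ⟨-, -, -, -, -, -, -, -, -, -, -, -, h1, -⟩ := smo x hx
    exact (h1 f f hf.contDiffAt hf.contDiffAt).2.1.continuousAt.continuousWithinAt
  have cLin : ∀ f : E3 → ℝ, ContDiff ℝ ∞ f → ContinuousOn (lin g W f f) V := fun f hf x hx => by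
    obtain ⟨-, -, -, -, -, -, -, -, -, -, -, -, h1, -⟩ := smo x hx
    exact (h1 f f hf.contDiffAt hf.contDiffAt).1.continuousAt.continuousWithinAt
  have mpos : ∀ x ∈ V, 0 < dens g W x := fun x hx => by
    obtain ⟨-, -, -, h1, -⟩ := smo x hx
    exact h1
  have BMc : ∀ F : E3 → ℝ, ContinuousOn F V → BM (U \ Z) F := fun F hFc =>
    BM.of_continuousOn hSm hSK hK (hFc.mono hKV)
  have cψ : Continuous ψ := hψ.smooth.continuous
  have cP : ContinuousOn (fun x => ψ (W x)) V := cψ.comp_continuousOn hF.continuousOn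
  have bP := BMc _ cP
  have bm := BMc _ cm
  have bκ := BMc _ cκ
  obtain ⟨B0, hB0⟩ := bP.2
  set B : ℝ := max B0 1 with hB
  have hBpos : 0 < B := lt_of_lt_of_le one_pos (le_max_right _ _)
  have hψ0 : ∀ x ∈ V, x ∉ U → ψ (W x) = 0 := by
    intro x hx hxU
    apply image_eq_zero_of_notMem_tsupport
    intro hmem
    exact hxU ⟨hx, hψ.supp hmem⟩
  have restr : ∀ T : Set E3, MeasurableSet T → U ⊆ T → T ⊆ V → ∀ F : E3 → ℝ,
      (∀ x ∈ V, x ∉ U → F x = 0) → ∫ x in T, F x = ∫ x in U \ Z, F x := by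
    intro T hT hUT hTV F hF0
    rw [setIntegral_eq_of_subset_of_forall_sdiff_eq_zero hT hUT
      (fun x hx => hF0 x (hTV hx.1) hx.2), setIntegral_congr_set hSU]
  have restrU : ∀ F : E3 → ℝ, ∫ x in U, F x = ∫ x in U \ Z, F x := fun F =>
    (setIntegral_congr_set hSU).symm
  -- the function `ρ₀`
  set R0 : E3 → ℝ := Set.indicator Ue ρ0 with hR0
  have hR0e : R0 = Set.indicator (Ue \ Z) (lap g W φ0) := by
    funext x
    by_cases hx : x ∈ Ue
    · by_cases hxZ : x ∈ Z
      · rw [hR0, Set.indicator_of_mem hx, Set.indicator_of_notMem (fun h => h.2 hxZ)]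
        rw [hρ0]
        unfold rho0
        rw [if_pos hxZ]
      · have hxUZ : x ∈ Ue \ Z := ⟨hx, hxZ⟩
        rw [hR0, Set.indicator_of_mem hx, Set.indicator_of_mem hxUZ]
        rw [hρ0]
        unfold rho0
        rw [if_neg hxZ]
    · rw [hR0, Set.indicator_of_notMem hx, Set.indicator_of_notMem (fun h => hx h.1)]
  have cdφ0 : ∀ x ∈ Ue \ Z, ContDiffAt ℝ ∞ φ0 x := fun x hx =>
    hcdphi.contDiffAt (hZo.mem_nhds hx)
  have hR0b : BddMeas R0 := by
    refine ⟨?_, Cρ, fun x => ?_⟩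
    · rw [hR0e]
      refine measurable_ind hZo fun x hx => ?_
      obtain ⟨-, -, -, -, -, -, -, -, -, -, -, -, h1, -⟩ := smo x (hUeV hx.1)
      exact (h1 _ _ (cdφ0 x hx) (cdφ0 x hx)).2.1.continuousAt.continuousWithinAt
    · by_cases hx : x ∈ Ue
      · rw [hR0, Set.indicator_of_mem hx]
        exact hρb x hx
      · rw [hR0, Set.indicator_of_notMem hx, abs_zero]
        exact hCρ.le
  have bR0 : BM (U \ Z) R0 := ⟨hR0b.1.aestronglyMeasurable, hR0b.2.imp fun _ h x _ => h x⟩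
  have hR0S : ∀ x ∈ U \ Z, R0 x = ρ0 x := fun x hx => by
    rw [hR0, Set.indicator_of_mem (hSUe hx)]
  have nullρ : NullOn V g W (z0 2) e1 R0 :=
    (hNULL V a b g W hF (z0 2) e2 he2 (by linarith) (by linarith)).2.2.1 R0 e1 hR0b he1 he12
      hnullρ
  obtain ⟨-, -, -, hN1⟩ := hNULL V a b g W hF (z0 2) e1 he1 (by linarith) (by linarith)
  obtain ⟨-, C0, hC0, hC0b⟩ := hN1 R0 hR0b nullρ
  have memLpU : ∀ F : E3 → ℝ, BddMeas F → MemLp F 2 (volume.restrict U) := fun F hFb =>
    BM.memLp ⟨hFb.1.aestronglyMeasurable, hFb.2.imp fun _ h x _ => h x⟩ hUo.measurableSet hUfin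
  have hU1 : ∀ ε : ℝ, 0 < ε → ∃ u : E3 → ℝ, TestOn U u ∧
      ∫ x in U \ Z, (R0 x + lap g W u x) ^ 2 * dens g W x ≤ ε ∧
      ∫ x in U \ Z, lin g W u u x * dens g W x ≤ (C0 + 1) ^ 2 := by
    intro ε hε
    obtain ⟨u, hu, hu1, hu2⟩ := hSOLVE V a b g W hF (z0 2 - e1) (z0 2 + e1) (by linarith)
      (by linarith) (by linarith) (fun x => -R0 x) C0 (memLpU R0 hR0b).neg hC0 (by
        intro v hv
        have := hC0b v ((hv.smooth.of_le (by simp)).contDiffOn)
        have e : ∫ x in slab V W (z0 2 - e1) (z0 2 + e1), -R0 x * v x * dens g W x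
            = - ∫ x in slab V W (z0 2 - e1) (z0 2 + e1), R0 x * v x * dens g W x := by
          rw [← integral_neg]
          congr 1
          funext x
          ring
        rw [e, abs_neg]
        exact this) ε hε
    refine ⟨u, hu, ?_, ?_⟩
    · rw [← restrU]
      have e : (fun x => (R0 x + lap g W u x) ^ 2 * dens g W x)
          = fun x => (lap g W u x - -R0 x) ^ 2 * dens g W x := by
        funext x; ring
      rw [e]
      exact hu1
    · rw [← restrU]
      exact hu2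
  -- the integral
  rw [restr V hF.isOpen.measurableSet hUV subset_rfl _
    (fun x hx hxU => by rw [hψ0 x hx hxU]; ring)]
  set M : ℝ := ∫ x in U \ Z, dens g W x with hM
  have hM0 : 0 ≤ M := setIntegral_nonneg hSm fun x hx => (mpos x (hSV hx)).le
  refine le_of_forall_pos_le_add fun η0 hη0 => ?_
  set C2 : ℝ := (C0 + 1) ^ 2 with hC2
  have hC2n : 0 ≤ C2 := by positivity
  set L : ℝ := 24 * B * C1 * (1 + C2) / η0 with hL
  have hLpos : 0 < L := by positivity
  obtain ⟨β, γ, hβb, hβ0, hγm, hγC, hβs, hnullK⟩ := hconc L hLpos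
  set ρK : E3 → ℝ := fun x => Set.indicator Ue (curv g W) x - γ (W x) * β x with hρK
  have hOo : IsOpen (Φ '' obox z0 r e) := by
    obtain ⟨-, -, -, -, h1, -⟩ := hCHX V a b g W hF Φ z0 r e hch
    refine h1 _ ?_ subset_rfl
    unfold obox
    have c0 : Continuous fun z : E3 => |z 0 - z0 0| := by fun_prop
    have c1 : Continuous fun z : E3 => |z 1 - z0 1| := by fun_prop
    have c2 : Continuous fun z : E3 => |z 2 - z0 2| := by fun_prop
    exact (isOpen_lt c0 continuous_const).inter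
      ((isOpen_lt c1 continuous_const).inter (isOpen_lt c2 continuous_const))
  have hOV : Φ '' obox z0 r e ⊆ V := by
    refine subset_trans (Set.image_mono ?_) hPV
    intro z hz
    exact ⟨hz.1.le, hz.2.1.le, hz.2.2.le⟩
  have hGm : Measurable (fun x => γ (W x) * β x) := by
    have hW' : Measurable (Set.indicator (Φ '' obox z0 r e) W) :=
      measurable_ind hOo (hF.continuousOn.mono hOV)
    have e : (fun x => γ (W x) * β x)
        = fun x => γ (Set.indicator (Φ '' obox z0 r e) W x) * β x := by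
      funext x
      by_cases hβx : β x = 0
      · rw [hβx, mul_zero, mul_zero]
      · rw [Set.indicator_of_mem (hβs x hβx).1]
    rw [e]
    exact (hγm.comp hW').mul hβb.1
  have hρKb : BddMeas ρK := by
    obtain ⟨Bβ, hBβ⟩ := hβb.2
    obtain ⟨Bκ, hBκ⟩ := hK.exists_bound_of_continuousOn (cκ.mono hKV)
    refine ⟨(measurable_ind hUeo (cκ.mono hUeV)).sub hGm, |Bκ| + C1 * Bβ, fun x => ?_⟩
    refine (abs_sub _ _).trans (add_le_add ?_ ?_)
    · by_cases hx : x ∈ Ue
      · rw [Set.indicator_of_mem hx]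
        exact (by simpa using hBκ x (hUeK hx) : |curv g W x| ≤ Bκ).trans (le_abs_self _)
      · rw [Set.indicator_of_notMem hx, abs_zero]
        exact abs_nonneg _
    · rw [abs_mul]
      exact mul_le_mul (hγC _) (hBβ x) (abs_nonneg _) hC1.le
  have bρK : BM (U \ Z) ρK := ⟨hρKb.1.aestronglyMeasurable, hρKb.2.imp fun _ h x _ => h x⟩
  have nullK : NullOn V g W (z0 2) e1 ρK :=
    (hNULL V a b g W hF (z0 2) e3 he3 (by linarith) (by linarith)).2.2.1 ρK e1 hρKb he1 he13
      hnullK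
  obtain ⟨hK1, CK, hCK, hCKb⟩ := hN1 ρK hρKb nullK
  have hψb : BddMeasR ψ := by
    refine ⟨cψ.measurable, ?_⟩
    have hc : HasCompactSupport ψ :=
      Metric.isCompact_of_isClosed_isBounded (isClosed_tsupport ψ)
        ((Metric.isBounded_Ioo _ _).subset hψ.supp)
    obtain ⟨C, hC⟩ := cψ.bounded_above_of_compact_support hc
    exact ⟨C, fun s => by simpa using hC s⟩
  have h1 : ∫ x in U \ Z, ρK x * ψ (W x) * dens g W x = 0 := by
    rw [← restrU]
    exact hK1 ψ hψb
  -- the constants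
  set η : ℝ := η0 / (3 * B * (1 + M)) with hη
  have hηpos : 0 < η := by positivity
  obtain ⟨u, hu, hu1, -⟩ := hSOLVE V a b g W hF (z0 2 - e1) (z0 2 + e1) (by linarith)
    (by linarith) (by linarith) ρK CK (memLpU ρK hρKb) hCK
    (fun v hv => hCKb v ((hv.smooth.of_le (by simp)).contDiffOn)) (η ^ 2) (by positivity)
  have h2 : ∫ x in U \ Z, (lap g W u x - ρK x) ^ 2 * dens g W x ≤ η ^ 2 := by
    rw [← restrU]
    exact hu1
  obtain ⟨mu, hmu⟩ := hu.smooth.continuous.bounded_above_of_compact_support hu.compact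
  have hmu' : ∀ x, |u x| ≤ mu := fun x => by simpa using hmu x
  set δ : ℝ := 1 / (Real.exp (2 * mu) * (1 + M)) with hδ
  have hδpos : 0 < δ := by positivity
  set w2 : ℝ := δ * Real.exp (-(2 * mu)) with hw2
  have hw2pos : 0 < w2 := by positivity
  obtain ⟨u1, hu1t, h3, h4⟩ := hU1 (η0 * 2 * w2 / (3 * B)) (by positivity)
  set w : E3 → ℝ := fun x => δ * Real.exp (2 * u x) with hw
  have hwpos : ∀ x, 0 < w x := fun x => by rw [hw]; positivity
  set φ : E3 → ℝ := fun y => φ0 y + u1 y with hφ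
  set θ : E3 → ℝ := fun x => lin g W φ φ x / (lin g W φ φ x + w x) with hθ
  have rul := fun x (hx : x ∈ V) => hRUL g W x (hF.reg hx)
  have linnn : ∀ f : E3 → ℝ, ∀ x ∈ V, 0 ≤ lin g W f f x := fun f x hx => by
    obtain ⟨-, -, h, -⟩ := rul x hx
    exact (h f f).2.1
  have hθ0 : ∀ x ∈ U \ Z, 0 ≤ θ x := fun x hx => by
    have h1 := linnn φ x (hSV hx)
    have h2 := hwpos x
    rw [hθ]
    positivity
  have hθ1 : ∀ x ∈ U \ Z, θ x ≤ 1 := fun x hx => by
    have h1 := linnn φ x (hSV hx)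
    have h2 := hwpos x
    rw [hθ]
    simp only
    rw [div_le_one (by linarith)]
    linarith
  have bθ : BM (U \ Z) θ := by
    refine ⟨ContinuousOn.aestronglyMeasurable ?_ hSm, 1, fun x hx => ?_⟩
    · intro x hx
      have hxV := hSV hx
      obtain ⟨-, -, -, -, -, -, -, -, -, -, -, -, h1, -⟩ := smo x hxV
      have hφx : ContDiffAt ℝ ∞ φ x :=
        (cdφ0 x ⟨hSUe hx, hx.2⟩).add hu1t.smooth.contDiffAt
      have c1 : ContinuousAt (lin g W φ φ) x := (h1 _ _ hφx hφx).1.continuousAt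
      have c2 : ContinuousAt w x := by
        have : Continuous w := by
          rw [hw]
          exact continuous_const.mul (Real.continuous_exp.comp
            (continuous_const.mul hu.smooth.continuous))
        exact this.continuousAt
      have h5 : lin g W φ φ x + w x ≠ 0 := by
        have h6 := linnn φ x hxV
        have h7 := hwpos x
        linarith
      exact (c1.div (c1.add c2) h5).continuousWithinAt
    · rw [abs_of_nonneg (hθ0 x hx)]
      exact hθ1 x hx
  have bu1 : BM (U \ Z) (lap g W u1) := BMc _ (cLap u1 hu1t.smooth)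
  have bw : BM (U \ Z) (fun x => 1 / (2 * w x)) := by
    refine BM.of_continuousOn hSm hSK hK ?_
    have cw : Continuous w := by
      rw [hw]
      exact continuous_const.mul (Real.continuous_exp.comp
        (continuous_const.mul hu.smooth.continuous))
    have c2w : Continuous fun x => 2 * w x := continuous_const.mul cw
    exact (continuous_const.div c2w fun x => (mul_pos two_pos (hwpos x)).ne').continuousOn
  have hwlow : ∀ x, w2 ≤ w x := fun x => by
    rw [hw, hw2]
    have := abs_le.mp (hmu' x)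
    exact mul_le_mul_of_nonneg_left (Real.exp_le_exp.mpr (by linarith [this.1])) hδpos.le
  have hwup : ∀ x, w x ≤ δ * Real.exp (2 * mu) := fun x => by
    rw [hw]
    have := abs_le.mp (hmu' x)
    exact mul_le_mul_of_nonneg_left (Real.exp_le_exp.mpr (by linarith [this.2])) hδpos.le
  -- the inequality near the pole
  have hG : ∀ x ∈ U \ Z, γ (W x) * β x * (1 - θ x)
      ≤ C1 * (8 / L) * (δ * Real.exp (2 * mu) + lin g W u1 u1 x) := by
    intro x hx
    have hxV := hSV hx
    have hDn := linnn u1 x hxV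
    have hfn := linnn φ x hxV
    have hrhs : 0 ≤ C1 * (8 / L) * (δ * Real.exp (2 * mu) + lin g W u1 u1 x) := by positivity
    by_cases hβx : β x = 0
    · rw [hβx, mul_zero, zero_mul]
      exact hrhs
    obtain ⟨hxO, hrlt, hβr⟩ := hβs x hβx
    have hrp0 : 0 ≤ rp g W Φ z0 (-(r / 2)) x := by
      obtain ⟨z, hz, rfl⟩ := hxO
      have h5 := (hbox z ⟨hz.1.le, hz.2.1.le, hz.2.2.le⟩).1
      exact le_trans (by positivity) h5
    have hrpne : rp g W Φ z0 (-(r / 2)) x ≠ 0 := fun h => hx.2 ⟨hxO, Or.inl h⟩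
    have hrp : 0 < rp g W Φ z0 (-(r / 2)) x := lt_of_le_of_ne hrp0 (Ne.symm hrpne)
    set ρ := rp g W Φ z0 (-(r / 2)) with hρ
    have hev := hnear (-(r / 2)) (Or.inr rfl) x hxO hrp hrlt
    have hne' : ¬ (-(r / 2) = r / 2) := by intro h; linarith
    have hev' : φ0 =ᶠ[𝓝 x] fun y => (fun t => Real.log t / 2) (ρ y) := by
      filter_upwards [hev] with y hy
      rw [hy, if_neg hne', one_mul]
    obtain ⟨-, -, hsym, -, -, -, hadd, hchain, -⟩ := rul x hxV
    have dρ : DifferentiableAt ℝ ρ x :=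
      (hrps.contDiffAt (hOo.mem_nhds hxO)).differentiableAt (by simp)
    have hlog : HasDerivAt (fun t => Real.log t / 2) ((ρ x)⁻¹ / 2) (ρ x) :=
      (Real.hasDerivAt_log hrpne).div_const 2
    have hA : lin g W φ0 φ0 x = ((ρ x)⁻¹ / 2) ^ 2 * lin g W ρ ρ x := by
      rw [lin_congr hev' hev', hchain ρ _ _ dρ hlog.differentiableAt, hlog.deriv,
        (hsym ρ (fun y => (fun t => Real.log t / 2) (ρ y))).1,
        hchain ρ ρ _ dρ hlog.differentiableAt, hlog.deriv]
      ring
    have hAl : 1 / (2 * ρ x) ≤ lin g W φ0 φ0 x := by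
      have h5 := (hpl x hxO).1
      have h6 := abs_le.mp h5
      have h7 : ρ x ≤ 2 / Cp := by
        have : t1 ≤ 4 / Cp := min_le_right _ _
        have h8 : t1 / 2 ≤ 2 / Cp := by
          calc t1 / 2 ≤ 4 / Cp / 2 := by gcongr
            _ = 2 / Cp := by ring
        linarith
      have h8 : Cp * ρ x ≤ 2 := by
        rw [le_div_iff₀ hCp] at h7
        linarith
      have h8' : Cp * ρ x ^ 2 ≤ 2 * ρ x := by
        calc Cp * ρ x ^ 2 = Cp * ρ x * ρ x := by ring
          _ ≤ 2 * ρ x := mul_le_mul_of_nonneg_right h8 hrp.le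
      have h9 : 2 * ρ x ≤ lin g W ρ ρ x := by linarith [h6.1]
      rw [hA]
      calc 1 / (2 * ρ x) = ((ρ x)⁻¹ / 2) ^ 2 * (2 * ρ x) := by field_simp
        _ ≤ _ := mul_le_mul_of_nonneg_left h9 (by positivity)
    have dφ0 : DifferentiableAt ℝ φ0 x :=
      (cdφ0 x ⟨hSUe hx, hx.2⟩).differentiableAt (by simp)
    have du1 : DifferentiableAt ℝ u1 x := (hu1t.smooth.differentiable (by simp)) x
    have hfA : lin g W φ φ x
        = lin g W φ0 φ0 x + 2 * lin g W φ0 u1 x + lin g W u1 u1 x := by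
      have dφ : DifferentiableAt ℝ φ x := dφ0.add du1
      have a1 : lin g W φ φ x = lin g W φ0 φ x + lin g W u1 φ x :=
        (hadd φ0 u1 φ dφ0 du1 dφ).1
      have a2 : lin g W φ φ0 x = lin g W φ0 φ0 x + lin g W u1 φ0 x :=
        (hadd φ0 u1 φ0 dφ0 du1 dφ0).1
      have a3 : lin g W φ u1 x = lin g W φ0 u1 x + lin g W u1 u1 x :=
        (hadd φ0 u1 u1 dφ0 du1 du1).1
      rw [a1, (hsym φ0 φ).1, (hsym u1 φ).1, a2, a3, (hsym u1 φ0).1]
      ring
    have hX := (hsym φ0 u1).2.2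
    have h10 := pole_ineq (β := β x) (L := L) hrp (hwpos x) hfn hDn hfA hX hAl (hβ0 x) hβr
    have h11 : β x * (1 - θ x) ≤ 8 / L * (δ * Real.exp (2 * mu) + lin g W u1 u1 x) := by
      refine h10.trans (mul_le_mul_of_nonneg_left ?_ (by positivity))
      linarith [hwup x]
    have h12 : 0 ≤ β x * (1 - θ x) := mul_nonneg (hβ0 x) (by linarith [hθ1 x hx])
    calc γ (W x) * β x * (1 - θ x) = γ (W x) * (β x * (1 - θ x)) := by ring
      _ ≤ |γ (W x)| * (β x * (1 - θ x)) := mul_le_mul_of_nonneg_right (le_abs_self _) h12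
      _ ≤ C1 * (β x * (1 - θ x)) := mul_le_mul_of_nonneg_right (hγC _) h12
      _ ≤ C1 * (8 / L * (δ * Real.exp (2 * mu) + lin g W u1 u1 x)) :=
          mul_le_mul_of_nonneg_left h11 hC1.le
      _ = _ := by ring
  -- the punctured inequality
  have hψe : BumpOn (z0 2 - e) (z0 2 + e) ψ :=
    ⟨hψ.smooth, hψ.nonneg, hψ.supp.trans (Set.Ioo_subset_Ioo (by linarith) (by linarith))⟩
  have hp := hPUNCT V a b g W hF Φ z0 r e hch t1 hs u u1 hu.smooth hu1t.smooth δ hδpos ψ hψe
  rw [restr Ue hUeo.measurableSet hUUe hUeV _ (fun x hx hxU => by rw [hψ0 x hx hxU]; ring),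
    restr Ue hUeo.measurableSet hUUe hUeV _ (fun x hx hxU => by rw [hψ0 x hx hxU]; ring)] at hp
  have h5 : ∫ x in U \ Z, ψ (W x) * (curv g W x - lap g W u x) * θ x * dens g W x
      ≤ 4 * Real.pi * (∫ s, ψ s)
        + ∫ x in U \ Z, ψ (W x) * ((R0 x + lap g W u1 x) ^ 2 / (2 * w x)) * dens g W x := by
    have e1 : ∫ x in U \ Z, ψ (W x) * ((R0 x + lap g W u1 x) ^ 2 / (2 * w x)) * dens g W x
        = ∫ x in U \ Z, ψ (W x) * ((ρ0 x + lap g W u1 x) ^ 2
          / (2 * δ * Real.exp (2 * u x))) * dens g W x := by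
      refine setIntegral_congr_fun hSm fun x hx => ?_
      simp only [hR0S x hx, hw, mul_assoc]
    rw [e1]
    exact hp
  have hfinal := abs_ineq (U \ Z) hSm hfin (fun x => ψ (W x)) (curv g W) (lap g W u) ρK θ
    (dens g W) (fun x => γ (W x) * β x) w (lin g W u1 u1) (fun x => R0 x + lap g W u1 x)
    B C1 L (δ * Real.exp (2 * mu)) w2 (η ^ 2) (η0 * 2 * w2 / (3 * B)) C2
    (4 * Real.pi * ∫ s, ψ s) η bP bκ (BMc _ (cLap u hu.smooth)) bρK bθ bm
    (BMc _ (cLin u1 hu1t.smooth)) (bR0.add bu1) bw hBpos hC1.le hLpos hw2pos hηpos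
    (fun x hx => hψ.nonneg _)
    (fun x hx => ((le_abs_self _).trans (hB0 x hx)).trans (le_max_left _ _)) hθ0 hθ1
    (fun x hx => (mpos x (hSV hx)).le)
    (fun x hx => by
      rw [hρK]
      simp only
      rw [Set.indicator_of_mem (hSUe hx)]
      ring)
    hG (fun x _ => hwlow x) (fun x hx => linnn u1 x (hSV hx)) (by positivity) h1 h2 h3 h4 h5
  refine hfinal.trans ?_
  rw [← hM]
  have a1 : B * (η0 * 2 * w2 / (3 * B)) / (2 * w2) = η0 / 3 := by
    field_simp
  have a2 : B / 2 * (η ^ 2 / η + η * M) ≤ η0 / 3 := by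
    have e : B / 2 * (η ^ 2 / η + η * M) = η0 / 6 := by
      rw [hη]
      field_simp
      norm_num
    rw [e]
    linarith
  have a3 : B * C1 * (8 / L) * (δ * Real.exp (2 * mu) * M + C2) ≤ η0 / 3 := by
    have e : B * C1 * (8 / L) = η0 / (3 * (1 + C2)) := by
      rw [hL]
      field_simp
      norm_num
    have e' : δ * Real.exp (2 * mu) * M ≤ 1 := by
      have : δ * Real.exp (2 * mu) * M = M / (1 + M) := by
        rw [hδ]
        field_simp
      rw [this, div_le_one (by linarith)]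
      linarith
    rw [e]
    calc η0 / (3 * (1 + C2)) * (δ * Real.exp (2 * mu) * M + C2)
        ≤ η0 / (3 * (1 + C2)) * (1 + C2) := by gcongr
      _ = η0 / 3 := by field_simp
  rw [a1]
  linarith

end Pool.Agent.PFlow.GB


end
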