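import Mathlib
import Pool.Agent.PenroseM.C12

/-! Parts: PFlow.G.FLUX -/

section

/-!
# Module FLUX: the flux of `X` at a pole
-/

open MeasureTheory Filter Topology
open scoped ContDiff

namespace Pool.Agent.PFlow.GB

open Pool.Agent.PenroseSph Pool.Agent.PFlow

namespace MFLUX

/-! ## Real numbers -/

theorem mulb {x y X Y : ℝ} (hx : |x| ≤ X) (hy : |y| ≤ Y) : |x * y| ≤ X * Y := by
  rw [abs_mul]
  exact mul_le_mul hx hy (abs_nonneg _) ((abs_nonneg _).trans hx)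

theorem addb {x y X Y : ℝ} (hx : |x| ≤ X) (hy : |y| ≤ Y) : |x + y| ≤ X + Y :=
  (abs_add_le x y).trans (add_le_add hx hy)

theorem subb {x y X Y : ℝ} (hx : |x| ≤ X) (hy : |y| ≤ Y) : |x - y| ≤ X + Y :=
  (abs_sub x y).trans (add_le_add hx hy)

/-- The normalised form. -/
theorem flux_norm {A s σ e α b1 γ L1 d l d1 d2 w : ℝ} (hA : 1 ≤ A) (hs0 : 0 < s)
    (hsA : 6 * A * s ≤ 1) (hσ : |σ| ≤ 1 / 2) (he : |e| ≤ A)
    (hα : |α| ≤ A) (hb : |b1| ≤ A) (hγ : |γ| ≤ A) (hL1 : |L1| ≤ A) (hd : |d| ≤ A)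
    (hl : |l| ≤ A) (hd1 : |d1| ≤ A) (hd2 : |d2| ≤ A) (hw0 : 0 ≤ w) (hw : w ≤ A) :
    (1 / 2 ≤ 1 + s ^ 2 * e / 4 + 2 * σ * α * s + s ^ 2 * b1 + s ^ 2 * w) ∧
    |(d * s / 8 - 2 * (s ^ 2 * e) - (s ^ 2 * e) ^ 2 / 4) + σ * (d1 * s - α * (4 + s ^ 2 * e) * s)
      + s ^ 3 * d2 / 2 - s ^ 2 * ((σ * (l - e) + L1) * (σ * (4 + s ^ 2 * e) + s * α))
      - (1 + s ^ 2 * e / 4 + 2 * σ * α * s + s ^ 2 * b1) * (s * γ)
      + 2 * (s ^ 2 * e / 4 + 2 * σ * α * s + s ^ 2 * b1) + 2 * (s ^ 2 * w)| ≤ 27 * A ^ 2 * s := by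
  have hA0 : 0 < A := lt_of_lt_of_le one_pos hA
  have hs1 : s ≤ 1 := by nlinarith
  have hss : s ^ 2 ≤ s := by nlinarith
  have hs2 : 0 ≤ s ^ 2 := by positivity
  have has : |s| ≤ s := by rw [abs_of_pos hs0]
  have hse : |s ^ 2 * e| ≤ A * s := by
    rw [abs_mul, abs_of_nonneg hs2, mul_comm A]
    exact mul_le_mul hss he (abs_nonneg _) hs0.le
  have hsb : |s ^ 2 * b1| ≤ A * s := by
    rw [abs_mul, abs_of_nonneg hs2, mul_comm A]
    exact mul_le_mul hss hb (abs_nonneg _) hs0.le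
  have hsw : |s ^ 2 * w| ≤ A * s := by
    rw [abs_mul, abs_of_nonneg hs2, abs_of_nonneg hw0, mul_comm A]
    exact mul_le_mul hss hw hw0 hs0.le
  have hσα : |2 * σ * α * s| ≤ A * s := by
    have h2σ : |2 * σ| ≤ 1 := by
      rw [abs_mul, abs_of_pos (by norm_num : (0 : ℝ) < 2)]
      linarith
    have := mulb (mulb h2σ hα) has
    linarith
  have hse4 : |s ^ 2 * e / 4| ≤ A * s / 4 := by
    rw [abs_div, abs_of_pos (by norm_num : (0 : ℝ) < 4)]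
    linarith
  have hf1 : |s ^ 2 * e / 4 + 2 * σ * α * s + s ^ 2 * b1| ≤ A * s / 4 + A * s + A * s :=
    addb (addb hse4 hσα) hsb
  have hAs : A * s ≤ 1 / 6 := by linarith
  have hAs0 : 0 < A * s := by positivity
  have hA2s : A * s ≤ A ^ 2 * s := by nlinarith
  have hA2 : A ≤ A ^ 2 := by nlinarith
  constructor
  · have h1 := (abs_le.1 hf1).1
    have h2 : 0 ≤ s ^ 2 * w := by positivity
    linarith
  · have t1 : |d * s / 8 - 2 * (s ^ 2 * e) - (s ^ 2 * e) ^ 2 / 4| ≤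
        A * s / 8 + 2 * (A * s) + (A * s) ^ 2 / 4 := by
      have q1 : |d * s / 8| ≤ A * s / 8 := by
        rw [abs_div, abs_of_pos (by norm_num : (0 : ℝ) < 8)]
        have := mulb hd has
        linarith
      have q2 : |2 * (s ^ 2 * e)| ≤ 2 * (A * s) := by
        rw [abs_mul, abs_of_pos (by norm_num : (0 : ℝ) < 2)]
        linarith
      have q3 : |(s ^ 2 * e) ^ 2 / 4| ≤ (A * s) ^ 2 / 4 := by
        rw [abs_div, abs_of_pos (by norm_num : (0 : ℝ) < 4), abs_pow]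
        have := pow_le_pow_left₀ (abs_nonneg _) hse 2
        linarith
      exact subb (subb q1 q2) q3
    have h4e : |4 + s ^ 2 * e| ≤ 4 + A * s :=
      addb (by rw [abs_of_pos (by norm_num : (0 : ℝ) < 4)]) hse
    have t2 : |σ * (d1 * s - α * (4 + s ^ 2 * e) * s)| ≤
        1 / 2 * (A * s + A * (4 + A * s) * s) :=
      mulb hσ (subb (mulb hd1 has) (mulb (mulb hα h4e) has))
    have t3 : |s ^ 3 * d2 / 2| ≤ A * s / 2 := by
      rw [abs_div, abs_of_pos (by norm_num : (0 : ℝ) < 2), abs_mul, abs_of_pos (by positivity)]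
      have h3 : s ^ 3 ≤ s := by nlinarith
      have := mul_le_mul h3 hd2 (abs_nonneg _) hs0.le
      linarith
    have t4 : |s ^ 2 * ((σ * (l - e) + L1) * (σ * (4 + s ^ 2 * e) + s * α))| ≤
        s * ((1 / 2 * (A + A) + A) * (1 / 2 * (4 + A * s) + s * A)) := by
      refine mulb ?_ (mulb (addb (mulb hσ (subb hl he)) hL1) (addb (mulb hσ h4e) (mulb has hα)))
      rw [abs_of_nonneg hs2]
      exact hss
    have hf2 : |1 + s ^ 2 * e / 4 + 2 * σ * α * s + s ^ 2 * b1| ≤ 1 + A * s / 4 + A * s + A * s :=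
      addb (addb (addb (by rw [abs_one]) hse4) hσα) hsb
    have t5 : |(1 + s ^ 2 * e / 4 + 2 * σ * α * s + s ^ 2 * b1) * (s * γ)| ≤
        (1 + A * s / 4 + A * s + A * s) * (s * A) := mulb hf2 (mulb has hγ)
    have t6 : |2 * (s ^ 2 * e / 4 + 2 * σ * α * s + s ^ 2 * b1)| ≤
        2 * (A * s / 4 + A * s + A * s) := by
      rw [abs_mul, abs_of_pos (by norm_num : (0 : ℝ) < 2)]
      linarith
    have t7 : |2 * (s ^ 2 * w)| ≤ 2 * (A * s) := by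
      rw [abs_mul, abs_of_pos (by norm_num : (0 : ℝ) < 2)]
      linarith
    have t := addb (addb (subb (subb (addb (addb t1 t2) t3) t4) t5) t6) t7
    refine t.trans ?_
    have k1 : (A * s) ^ 2 ≤ A ^ 2 * s := by nlinarith
    have k2 : A * (4 + A * s) * s ≤ 5 * (A ^ 2 * s) := by nlinarith
    have k3 : s * ((1 / 2 * (A + A) + A) * (1 / 2 * (4 + A * s) + s * A)) ≤ 8 * (A ^ 2 * s) := by
      have : (1 / 2 * (4 + A * s) + s * A) ≤ 3 * A := by nlinarith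
      calc s * ((1 / 2 * (A + A) + A) * (1 / 2 * (4 + A * s) + s * A)) ≤
          s * ((1 / 2 * (A + A) + A) * (3 * A)) := by
            apply mul_le_mul_of_nonneg_left _ hs0.le
            exact mul_le_mul_of_nonneg_left this (by positivity)
        _ = 6 * (A ^ 2 * s) := by ring
        _ ≤ 8 * (A ^ 2 * s) := by
            have : 0 < A ^ 2 * s := by positivity
            linarith
    have k4 : (1 + A * s / 4 + A * s + A * s) * (s * A) ≤ 4 * (A ^ 2 * s) := by nlinarith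
    have k5 : 0 < A ^ 2 * s := by positivity
    nlinarith

theorem flux_real {A s σ F0 Lr a1 b1 c1 L1 D0 D1 D2 w : ℝ} (hA : 1 ≤ A) (hs0 : 0 < s)
    (hsA : 6 * A * s ≤ 1) (hσ : σ = 1 / 2 ∨ σ = -(1 / 2))
    (hF : |F0 - 4 * s ^ 2| ≤ A * s ^ 4) (hL : |Lr - 4| ≤ A * s ^ 2) (ha : |a1| ≤ A * s)
    (hb : |b1| ≤ A) (hc : |c1| ≤ A * s) (hL1 : |L1| ≤ A) (hD0 : |D0 - 16 * s ^ 2| ≤ A * s ^ 3)
    (hD1 : |D1| ≤ A * s) (hD2 : |D2| ≤ A * s) (hw0 : 0 ≤ w) (hw : w ≤ A) {f : ℝ}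
    (hf : f = σ ^ 2 / (s ^ 2) ^ 2 * F0 + 2 * σ / s ^ 2 * a1 + b1) :
    |((F0 * (-2 * σ ^ 2 / (s ^ 2) ^ 3 * F0) + σ ^ 2 / (s ^ 2) ^ 2 * D0
        + (a1 * (-2 * σ / (s ^ 2) ^ 2 * F0) + 2 * σ / s ^ 2 * D1) + D2) / 2
      - (σ / s ^ 2 * Lr + -σ / (s ^ 2) ^ 2 * F0 + L1) * (σ / s ^ 2 * F0 + a1) - f * c1)
      / (f + w) + 2| ≤ 54 * A ^ 2 * s := by
  have hA0 : 0 < A := lt_of_lt_of_le one_pos hA
  have hσ2 : σ ^ 2 = 1 / 4 := by
    rcases hσ with rfl | rfl <;> norm_num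
  have hσ1 : |σ| ≤ 1 / 2 := by
    rcases hσ with rfl | rfl
    · rw [abs_of_pos (by norm_num)]
    · rw [abs_neg, abs_of_pos (by norm_num)]
  -- normalised variables
  have nz : ∀ {x c : ℝ} (n : ℕ), |x| ≤ A * s ^ n → ∃ y, x = y * s ^ n ∧ |y| ≤ A := by
    intro x c n hx
    have hp : 0 < s ^ n := by positivity
    refine ⟨x / s ^ n, by field_simp, ?_⟩
    rw [abs_div, abs_of_pos hp, div_le_iff₀ hp]
    exact hx
  obtain ⟨e, he, he'⟩ := nz (c := 0) 4 hF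
  obtain ⟨l, hl, hl'⟩ := nz (c := 0) 2 hL
  obtain ⟨α, hα, hα'⟩ := nz (c := 0) 1 (by simpa using ha)
  obtain ⟨γ, hγ, hγ'⟩ := nz (c := 0) 1 (by simpa using hc)
  obtain ⟨d, hd, hd'⟩ := nz (c := 0) 3 hD0
  obtain ⟨d1, hd1, hd1'⟩ := nz (c := 0) 1 (by simpa using hD1)
  obtain ⟨d2, hd2, hd2'⟩ := nz (c := 0) 1 (by simpa using hD2)
  obtain ⟨hlow, hup⟩ := flux_norm hA hs0 hsA hσ1 he' hα' hb hγ' hL1 hd' hl' hd1' hd2' hw0 hw
  have eF : F0 = 4 * s ^ 2 + e * s ^ 4 := by linarith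
  have eL : Lr = 4 + l * s ^ 2 := by linarith
  have eD : D0 = 16 * s ^ 2 + d * s ^ 3 := by linarith
  have hs2 : 0 < s ^ 2 := by positivity
  have hsn : s ≠ 0 := hs0.ne'
  have hfe : s ^ 2 * f = 1 + s ^ 2 * e / 4 + 2 * σ * α * s + s ^ 2 * b1 := by
    rw [hf, hσ2, eF, hα]
    field_simp
  have hden : 1 / 2 ≤ s ^ 2 * (f + w) := by
    rw [mul_add, hfe]
    exact hlow
  have hpos : 0 < f + w := by
    by_contra hn
    have : s ^ 2 * (f + w) ≤ 0 := mul_nonpos_of_nonneg_of_nonpos hs2.le (not_lt.1 hn)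
    linarith
  set N := (F0 * (-2 * σ ^ 2 / (s ^ 2) ^ 3 * F0) + σ ^ 2 / (s ^ 2) ^ 2 * D0
        + (a1 * (-2 * σ / (s ^ 2) ^ 2 * F0) + 2 * σ / s ^ 2 * D1) + D2) / 2
      - (σ / s ^ 2 * Lr + -σ / (s ^ 2) ^ 2 * F0 + L1) * (σ / s ^ 2 * F0 + a1) - f * c1 with hN
  have hNe : s ^ 2 * (N + 2 * (f + w)) =
      (d * s / 8 - 2 * (s ^ 2 * e) - (s ^ 2 * e) ^ 2 / 4)
      + σ * (d1 * s - α * (4 + s ^ 2 * e) * s)
      + s ^ 3 * d2 / 2 - s ^ 2 * ((σ * (l - e) + L1) * (σ * (4 + s ^ 2 * e) + s * α))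
      - (1 + s ^ 2 * e / 4 + 2 * σ * α * s + s ^ 2 * b1) * (s * γ)
      + 2 * (s ^ 2 * e / 4 + 2 * σ * α * s + s ^ 2 * b1) + 2 * (s ^ 2 * w) := by
    have h1 : s ^ 2 * (f * c1) = (1 + s ^ 2 * e / 4 + 2 * σ * α * s + s ^ 2 * b1) * (s * γ) := by
      rw [← mul_assoc, hfe, hγ]
      ring
    have h2 : s ^ 2 * (σ / s ^ 2 * Lr + -σ / (s ^ 2) ^ 2 * F0 + L1) * (σ / s ^ 2 * F0 + a1) =
        s ^ 2 * ((σ * (l - e) + L1) * (σ * (4 + s ^ 2 * e) + s * α)) := by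
      have h3 : σ / s ^ 2 * Lr + -σ / (s ^ 2) ^ 2 * F0 = σ * (l - e) := by
        rw [eL, eF]
        field_simp
        ring
      have h4 : σ / s ^ 2 * F0 = σ * (4 + s ^ 2 * e) := by
        rw [eF]
        field_simp
      rw [h3, h4, hα]
      ring
    have h5 : s ^ 2 * ((F0 * (-2 * σ ^ 2 / (s ^ 2) ^ 3 * F0) + σ ^ 2 / (s ^ 2) ^ 2 * D0
        + (a1 * (-2 * σ / (s ^ 2) ^ 2 * F0) + 2 * σ / s ^ 2 * D1) + D2) / 2) =
        (d * s / 8 - 2 * (s ^ 2 * e) - (s ^ 2 * e) ^ 2 / 4) - 2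
        + σ * (d1 * s - α * (4 + s ^ 2 * e) * s) + s ^ 3 * d2 / 2 := by
      rw [hσ2, eF, eD, hα, hd1, hd2]
      field_simp
      ring
    rw [hN]
    calc _ = s ^ 2 * ((F0 * (-2 * σ ^ 2 / (s ^ 2) ^ 3 * F0) + σ ^ 2 / (s ^ 2) ^ 2 * D0
        + (a1 * (-2 * σ / (s ^ 2) ^ 2 * F0) + 2 * σ / s ^ 2 * D1) + D2) / 2)
        - s ^ 2 * (σ / s ^ 2 * Lr + -σ / (s ^ 2) ^ 2 * F0 + L1) * (σ / s ^ 2 * F0 + a1)
        - s ^ 2 * (f * c1) + 2 * (s ^ 2 * f) + 2 * (s ^ 2 * w) := by ring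
      _ = _ := by
        rw [h1, h2, h5, hfe]
        ring
  have h6 : |s ^ 2 * (N + 2 * (f + w))| ≤ 27 * A ^ 2 * s := by
    rw [hNe]
    exact hup
  have h7 : N / (f + w) + 2 = (s ^ 2 * (N + 2 * (f + w))) / (s ^ 2 * (f + w)) := by
    field_simp
  rw [h7, abs_div, abs_of_pos (by linarith : 0 < s ^ 2 * (f + w)), div_le_iff₀ (by linarith)]
  have h8 : 0 ≤ 54 * A ^ 2 * s := by positivity
  calc |s ^ 2 * (N + 2 * (f + w))| ≤ 27 * A ^ 2 * s := h6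
    _ = 54 * A ^ 2 * s * (1 / 2) := by ring
    _ ≤ 54 * A ^ 2 * s * (s ^ 2 * (f + w)) := mul_le_mul_of_nonneg_left hden h8

/-! ## Calculus -/

theorem pd_congr {f f' : E3 → ℝ} {x : E3} (h : f =ᶠ[𝓝 x] f') (i : Fin 3) :
    pd i f x = pd i f' x := by
  unfold pd
  rw [h.fderiv_eq]

theorem pd_mul {f h : E3 → ℝ} {x : E3} (hf : DifferentiableAt ℝ f x)
    (hh : DifferentiableAt ℝ h x) (k : Fin 3) :
    pd k (fun y => f y * h y) x = pd k f x * h x + f x * pd k h x := by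
  unfold pd
  rw [fderiv_fun_mul hf hh]
  simp
  ring

theorem pd_sum {F : Fin 3 → E3 → ℝ} {x : E3} (hF : ∀ i, DifferentiableAt ℝ (F i) x)
    (k : Fin 3) : pd k (fun y => ∑ i, F i y) x = ∑ i, pd k (F i) x := by
  unfold pd
  rw [fderiv_fun_sum fun i _ => hF i]
  simp

theorem pd_cd (i : Fin 3) {f : E3 → ℝ} {x : E3} (hf : ContDiffAt ℝ ∞ f x) :
    ContDiffAt ℝ ∞ (pd i f) x := by
  unfold pd
  exact (hf.fderiv_right (m := ∞) le_rfl).clm_apply contDiffAt_const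

theorem diffAt {f : E3 → ℝ} {x : E3} (hf : ContDiffAt ℝ ∞ f x) : DifferentiableAt ℝ f x :=
  hf.differentiableAt (by simp)

section calc_

variable {g : TensorField} {W : E3 → ℝ} {x : E3}

theorem Reg_pd (hR : Reg g W x) : (g x).PosDef ∧ grad W x ≠ 0 := by
  obtain ⟨O, -, hx, hm, -, hr⟩ := hR
  exact ⟨hm.posDef x hx, hr x hx⟩

theorem lin_eq (hALG : Stmt_ALG) (hR : Reg g W x) (f h : E3 → ℝ) :
    lin g W f h x = ∑ i, ∑ j, prj g x (grad W x) i j * pd i f x * pd j h x := by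
  obtain ⟨h1, h2⟩ := Reg_pd hR
  obtain ⟨-, -, -, -, -, -, -, -, h3, -⟩ := hALG g x (grad W x) h1 h2
  exact h3 (grad f x) (grad h x)

theorem prj_symm (hALG : Stmt_ALG) (hR : Reg g W x) (i j : Fin 3) :
    prj g x (grad W x) i j = prj g x (grad W x) j i := by
  obtain ⟨h1, h2⟩ := Reg_pd hR
  obtain ⟨-, -, -, -, h3, -⟩ := hALG g x (grad W x) h1 h2
  exact h3 i j

theorem prj_cd (hSMO : Stmt_SMO) (hR : Reg g W x) (i j : Fin 3) :
    ContDiffAt ℝ ∞ (fun y => prj g y (grad W y) i j) x := by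
  obtain ⟨-, -, -, -, -, -, -, -, -, -, h, -⟩ := hSMO.2 g W x hR
  exact h i j

theorem reg_ev (hSMO : Stmt_SMO) (hR : Reg g W x) : ∀ᶠ y in 𝓝 x, Reg g W y :=
  (hSMO.2 g W x hR).1

theorem lin_cd (hSMO : Stmt_SMO) (hR : Reg g W x) {f h : E3 → ℝ} (hf : ContDiffAt ℝ ∞ f x)
    (hh : ContDiffAt ℝ ∞ h x) : ContDiffAt ℝ ∞ (lin g W f h) x := by
  obtain ⟨-, -, -, -, -, -, -, -, -, -, -, -, hx, -⟩ := hSMO.2 g W x hR
  exact (hx f h hf hh).1

theorem lap_cd (hSMO : Stmt_SMO) (hR : Reg g W x) {f : E3 → ℝ} (hf : ContDiffAt ℝ ∞ f x) :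
    ContDiffAt ℝ ∞ (lap g W f) x := by
  obtain ⟨-, -, -, -, -, -, -, -, -, -, -, -, hx, -⟩ := hSMO.2 g W x hR
  exact (hx f f hf hf).2.1

theorem pd_lin (hALG : Stmt_ALG) (hSMO : Stmt_SMO) (hR : Reg g W x) {f h : E3 → ℝ}
    (hf : ContDiffAt ℝ ∞ f x) (hh : ContDiffAt ℝ ∞ h x) (k : Fin 3) :
    pd k (lin g W f h) x = ∑ i, ∑ j,
      (pd k (fun y => prj g y (grad W y) i j) x * pd i f x * pd j h x
        + prj g x (grad W x) i j * pd k (pd i f) x * pd j h x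
        + prj g x (grad W x) i j * pd i f x * pd k (pd j h) x) := by
  have h1 : lin g W f h =ᶠ[𝓝 x] fun y => ∑ i, ∑ j, prj g y (grad W y) i j * pd i f y * pd j h y :=
    (reg_ev hSMO hR).mono fun y hy => lin_eq hALG hy f h
  rw [pd_congr h1]
  have dP : ∀ i j, DifferentiableAt ℝ (fun y => prj g y (grad W y) i j) x := fun i j =>
    diffAt (prj_cd hSMO hR i j)
  have df : ∀ i, DifferentiableAt ℝ (pd i f) x := fun i => diffAt (pd_cd i hf)
  have dh : ∀ i, DifferentiableAt ℝ (pd i h) x := fun i => diffAt (pd_cd i hh)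
  have d2 : ∀ i j, DifferentiableAt ℝ (fun y => prj g y (grad W y) i j * pd i f y) x :=
    fun i j => (dP i j).mul (df i)
  have d3 : ∀ i j, DifferentiableAt ℝ
      (fun y => prj g y (grad W y) i j * pd i f y * pd j h y) x :=
    fun i j => (d2 i j).mul (dh j)
  have d4 : ∀ i, DifferentiableAt ℝ
      (fun y => ∑ j, prj g y (grad W y) i j * pd i f y * pd j h y) x :=
    fun i => DifferentiableAt.fun_sum fun j _ => d3 i j
  rw [pd_sum d4]
  refine Finset.sum_congr rfl fun i _ => ?_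
  rw [pd_sum (d3 i)]
  refine Finset.sum_congr rfl fun j _ => ?_
  rw [pd_mul (d2 i j) (dh j), pd_mul (dP i j) (df i)]
  ring

theorem lin_lin (hALG : Stmt_ALG) (hSMO : Stmt_SMO) (hR : Reg g W x) {f h : E3 → ℝ}
    (hf : ContDiffAt ℝ ∞ f x) (hh : ContDiffAt ℝ ∞ h x) (a : E3 → ℝ) :
    lin g W (lin g W f h) a x =
      (∑ k, prv g x (grad W x) (grad a x) k *
        ∑ i, ∑ j, pd k (fun y => prj g y (grad W y) i j) x * pd i f x * pd j h x)
      + (∑ i, ∑ j, hess2 f x i j * prv g x (grad W x) (grad a x) i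
          * prv g x (grad W x) (grad h x) j)
      + (∑ i, ∑ j, hess2 h x i j * prv g x (grad W x) (grad a x) i
          * prv g x (grad W x) (grad f x) j) := by
  rw [lin_eq hALG hR]
  simp only [pd_lin hALG hSMO hR hf hh, prv, grad, hess2, Matrix.of_apply]
  have s10 := prj_symm hALG hR 1 0
  have s20 := prj_symm hALG hR 2 0
  have s21 := prj_symm hALG hR 2 1
  simp only [Fin.sum_univ_three]
  rw [s10, s20, s21]
  ring

theorem lin_congr {f f' : E3 → ℝ} (h : f =ᶠ[𝓝 x] f') (k : E3 → ℝ) :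
    lin g W f k x = lin g W f' k x := by
  have h1 : grad f x = grad f' x := by
    funext i
    exact pd_congr h i
  unfold lin
  rw [h1]

end calc_

/-! ## Bounds -/

theorem abs_sum3 {f : Fin 3 → ℝ} {c : ℝ} (hf : ∀ i, |f i| ≤ c) : |∑ i, f i| ≤ 3 * c := by
  calc |∑ i, f i| ≤ ∑ i, |f i| := Finset.abs_sum_le_sum_abs _ _
    _ ≤ ∑ _i : Fin 3, c := Finset.sum_le_sum fun i _ => hf i
    _ = 3 * c := by simp

theorem abs_sum33 {f : Fin 3 → Fin 3 → ℝ} {c : ℝ} (hf : ∀ i j, |f i j| ≤ c) :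
    |∑ i, ∑ j, f i j| ≤ 9 * c := by
  have := abs_sum3 fun i => abs_sum3 (hf i)
  linarith

section key

variable {g : TensorField} {W : E3 → ℝ} {x : E3} {M s : ℝ} {ρ φ : E3 → ℝ}

theorem prv_le (hP : ∀ i j, |prj g x (grad W x) i j| ≤ M) {A : Cov} {a : ℝ}
    (hA : ∀ i, |A i| ≤ a) (k : Fin 3) : |prv g x (grad W x) A k| ≤ 3 * (M * a) :=
  abs_sum3 fun j => mulb (hP k j) (hA j)

theorem lin_le (hALG : Stmt_ALG) (hR : Reg g W x)
    (hP : ∀ i j, |prj g x (grad W x) i j| ≤ M) {f h : E3 → ℝ} {a b : ℝ}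
    (hf : ∀ i, |pd i f x| ≤ a) (hh : ∀ i, |pd i h x| ≤ b) :
    |lin g W f h x| ≤ 9 * (M * a * b) := by
  rw [lin_eq hALG hR]
  exact abs_sum33 fun i j => mulb (mulb (hP i j) (hf i)) (hh j)

theorem key (hALG : Stmt_ALG) (hSMO : Stmt_SMO) (hR : Reg g W x) (hM : 1 ≤ M) (hs : 0 < s)
    (hs1 : s ≤ 1) (hρ : ContDiffAt ℝ ∞ ρ x) (hφ : ContDiffAt ℝ ∞ φ x)
    (hP : ∀ i j, |prj g x (grad W x) i j| ≤ M)
    (hdP : ∀ k i j, |pd k (fun y => prj g y (grad W y) i j) x| ≤ M)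
    (hφ1 : ∀ i, |pd i φ x| ≤ M) (hφ2 : ∀ i j, |hess2 φ x i j| ≤ M)
    (hρ1 : ∀ i, |pd i ρ x| ≤ M * s)
    (h1 : |lin g W ρ ρ x - 4 * s ^ 2| ≤ M * s ^ 4)
    (h2 : ∀ A B : Cov, |∑ i, ∑ j, hess2 ρ x i j * prv g x (grad W x) A i
        * prv g x (grad W x) B j - 2 * lip g x (grad W x) A B|
        ≤ M * s * Real.sqrt (lip g x (grad W x) A A) * Real.sqrt (lip g x (grad W x) B B)) :
    |lin g W (lin g W ρ ρ) ρ x - 16 * s ^ 2| ≤ 300 * M ^ 5 * s ^ 3 ∧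
    |lin g W (lin g W ρ φ) ρ x| ≤ 300 * M ^ 5 * s ∧
    |lin g W (lin g W φ φ) ρ x| ≤ 300 * M ^ 5 * s ∧
    |lin g W ρ φ x| ≤ 300 * M ^ 5 * s ∧ |lin g W φ φ x| ≤ 300 * M ^ 5 := by
  have hM0 : 0 < M := lt_of_lt_of_le one_pos hM
  have m1 : M ≤ M ^ 5 := le_self_pow₀ hM (by norm_num)
  have m2 : M ^ 2 ≤ M ^ 5 := pow_le_pow_right₀ hM (by norm_num)
  have m3 : M ^ 3 ≤ M ^ 5 := pow_le_pow_right₀ hM (by norm_num)
  have m4 : M ^ 4 ≤ M ^ 5 := pow_le_pow_right₀ hM (by norm_num)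
  have hp := Reg_pd hR
  obtain ⟨-, -, -, -, -, -, -, -, -, -, -, hlip0, -⟩ := hALG g x (grad W x) hp.1 hp.2
  have hss : s ^ 2 ≤ 1 := pow_le_one₀ hs.le hs1
  have hs43 : s ^ 4 ≤ s ^ 3 := pow_le_pow_of_le_one hs.le hs1 (by norm_num)
  have hs42 : s ^ 4 ≤ s ^ 2 := pow_le_pow_of_le_one hs.le hs1 (by norm_num)
  have hs21 : s ^ 2 ≤ s := by nlinarith
  have vρ : ∀ k, |prv g x (grad W x) (grad ρ x) k| ≤ 3 * (M * (M * s)) := prv_le hP hρ1
  have vφ : ∀ k, |prv g x (grad W x) (grad φ x) k| ≤ 3 * (M * M) := prv_le hP hφ1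
  have a1 : |lin g W ρ φ x| ≤ 9 * (M * (M * s) * M) := lin_le hALG hR hP hρ1 hφ1
  have b1 : |lin g W φ φ x| ≤ 9 * (M * M * M) := lin_le hALG hR hP hφ1 hφ1
  have F1 : lin g W ρ ρ x ≤ (4 + M) * s ^ 2 := by
    have := (abs_le.1 h1).2
    nlinarith
  have F0 : 0 ≤ lin g W ρ ρ x := hlip0 (grad ρ x)
  have G0 : 0 ≤ lin g W φ φ x := hlip0 (grad φ x)
  refine ⟨?_, ?_, ?_, ?_, ?_⟩
  · rw [lin_lin hALG hSMO hR hρ hρ]
    set T := ∑ k, prv g x (grad W x) (grad ρ x) k *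
        ∑ i, ∑ j, pd k (fun y => prj g y (grad W y) i j) x * pd i ρ x * pd j ρ x
    set Q := ∑ i, ∑ j, hess2 ρ x i j * prv g x (grad W x) (grad ρ x) i
          * prv g x (grad W x) (grad ρ x) j
    have hT : |T| ≤ 3 * (3 * (M * (M * s)) * (9 * (M * (M * s) * (M * s)))) :=
      abs_sum3 fun k => mulb (vρ k) (abs_sum33 fun i j => mulb (mulb (hdP k i j) (hρ1 i)) (hρ1 j))
    have hQ : |Q - 2 * lin g W ρ ρ x| ≤ M * s * lin g W ρ ρ x := by
      have := h2 (grad ρ x) (grad ρ x)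
      rw [mul_assoc, Real.mul_self_sqrt (hlip0 (grad ρ x))] at this
      exact this
    have e1 : T + Q + Q - 16 * s ^ 2 =
        T + 2 * (Q - 2 * lin g W ρ ρ x) + 4 * (lin g W ρ ρ x - 4 * s ^ 2) := by ring
    rw [e1]
    have hQ2 : |2 * (Q - 2 * lin g W ρ ρ x)| ≤ 2 * (M * s * ((4 + M) * s ^ 2)) := by
      rw [abs_mul, abs_of_pos (by norm_num : (0 : ℝ) < 2)]
      have : M * s * lin g W ρ ρ x ≤ M * s * ((4 + M) * s ^ 2) :=
        mul_le_mul_of_nonneg_left F1 (by positivity)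
      linarith
    have hF2 : |4 * (lin g W ρ ρ x - 4 * s ^ 2)| ≤ 4 * (M * s ^ 3) := by
      rw [abs_mul, abs_of_pos (by norm_num : (0 : ℝ) < 4)]
      have : M * s ^ 4 ≤ M * s ^ 3 := mul_le_mul_of_nonneg_left hs43 hM0.le
      linarith
    refine (addb (addb hT hQ2) hF2).trans ?_
    have q0 : 0 ≤ s ^ 3 := by positivity
    have q1 : M * s ^ 3 ≤ M ^ 5 * s ^ 3 := mul_le_mul_of_nonneg_right m1 q0
    have q2 : M ^ 2 * s ^ 3 ≤ M ^ 5 * s ^ 3 := mul_le_mul_of_nonneg_right m2 q0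
    have q3 : 0 ≤ M ^ 5 * s ^ 3 := by positivity
    have e2 : 3 * (3 * (M * (M * s)) * (9 * (M * (M * s) * (M * s)))) =
        81 * (M ^ 5 * s ^ 3) := by ring
    have e3 : 2 * (M * s * ((4 + M) * s ^ 2)) = 8 * (M * s ^ 3) + 2 * (M ^ 2 * s ^ 3) := by ring
    rw [e2, e3]
    linarith
  · rw [lin_lin hALG hSMO hR hρ hφ]
    set T := ∑ k, prv g x (grad W x) (grad ρ x) k *
        ∑ i, ∑ j, pd k (fun y => prj g y (grad W y) i j) x * pd i ρ x * pd j φ x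
    set Q := ∑ i, ∑ j, hess2 ρ x i j * prv g x (grad W x) (grad ρ x) i
          * prv g x (grad W x) (grad φ x) j
    set R := ∑ i, ∑ j, hess2 φ x i j * prv g x (grad W x) (grad ρ x) i
          * prv g x (grad W x) (grad ρ x) j
    have hT : |T| ≤ 3 * (3 * (M * (M * s)) * (9 * (M * (M * s) * M))) :=
      abs_sum3 fun k => mulb (vρ k) (abs_sum33 fun i j => mulb (mulb (hdP k i j) (hρ1 i)) (hφ1 j))
    have hR' : |R| ≤ 9 * (M * (3 * (M * (M * s))) * (3 * (M * (M * s)))) :=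
      abs_sum33 fun i j => mulb (mulb (hφ2 i j) (vρ i)) (vρ j)
    have hQ : |Q - 2 * lin g W ρ φ x| ≤ M * s * ((4 + M) + 9 * (M * M * M)) := by
      have h3 := h2 (grad ρ x) (grad φ x)
      refine (h3.trans ?_)
      rw [mul_assoc]
      refine mul_le_mul_of_nonneg_left ?_ (by positivity)
      have h4 : Real.sqrt (lip g x (grad W x) (grad ρ x) (grad ρ x)) *
          Real.sqrt (lip g x (grad W x) (grad φ x) (grad φ x)) ≤
          lin g W ρ ρ x + lin g W φ φ x := by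
        have e1 : lin g W ρ ρ x = Real.sqrt (lip g x (grad W x) (grad ρ x) (grad ρ x)) ^ 2 :=
          (Real.sq_sqrt F0).symm
        have e2 : lin g W φ φ x = Real.sqrt (lip g x (grad W x) (grad φ x) (grad φ x)) ^ 2 :=
          (Real.sq_sqrt G0).symm
        rw [e1, e2]
        nlinarith [sq_nonneg (Real.sqrt (lip g x (grad W x) (grad ρ x) (grad ρ x)) -
          Real.sqrt (lip g x (grad W x) (grad φ x) (grad φ x))),
          sq_nonneg (Real.sqrt (lip g x (grad W x) (grad ρ x) (grad ρ x))),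
          sq_nonneg (Real.sqrt (lip g x (grad W x) (grad φ x) (grad φ x)))]
      have h5 : lin g W φ φ x ≤ 9 * (M * M * M) := (le_abs_self _).trans b1
      have h6 : (4 + M) * s ^ 2 ≤ 4 + M := by nlinarith
      linarith
    have e1 : T + Q + R = T + (Q - 2 * lin g W ρ φ x) + 2 * lin g W ρ φ x + R := by ring
    rw [e1]
    have ha2 : |2 * lin g W ρ φ x| ≤ 2 * (9 * (M * (M * s) * M)) := by
      rw [abs_mul, abs_of_pos (by norm_num : (0 : ℝ) < 2)]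
      linarith
    refine (addb (addb (addb hT hQ) ha2) hR').trans ?_
    have e2 : 3 * (3 * (M * (M * s)) * (9 * (M * (M * s) * M))) = 81 * (M ^ 5 * s ^ 2) := by ring
    have e3 : M * s * ((4 + M) + 9 * (M * M * M)) =
        4 * (M * s) + M ^ 2 * s + 9 * (M ^ 4 * s) := by ring
    have e4 : 2 * (9 * (M * (M * s) * M)) = 18 * (M ^ 3 * s) := by ring
    have e5 : 9 * (M * (3 * (M * (M * s))) * (3 * (M * (M * s)))) = 81 * (M ^ 5 * s ^ 2) := by ring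
    rw [e2, e3, e4, e5]
    have q1 : M * s ≤ M ^ 5 * s := mul_le_mul_of_nonneg_right m1 hs.le
    have q2 : M ^ 2 * s ≤ M ^ 5 * s := mul_le_mul_of_nonneg_right m2 hs.le
    have q3 : M ^ 3 * s ≤ M ^ 5 * s := mul_le_mul_of_nonneg_right m3 hs.le
    have q4 : M ^ 4 * s ≤ M ^ 5 * s := mul_le_mul_of_nonneg_right m4 hs.le
    have q5 : M ^ 5 * s ^ 2 ≤ M ^ 5 * s := mul_le_mul_of_nonneg_left hs21 (by positivity)
    have q6 : 0 ≤ M ^ 5 * s := by positivity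
    linarith
  · rw [lin_lin hALG hSMO hR hφ hφ]
    set T := ∑ k, prv g x (grad W x) (grad ρ x) k *
        ∑ i, ∑ j, pd k (fun y => prj g y (grad W y) i j) x * pd i φ x * pd j φ x
    set Q := ∑ i, ∑ j, hess2 φ x i j * prv g x (grad W x) (grad ρ x) i
          * prv g x (grad W x) (grad φ x) j
    have hT : |T| ≤ 3 * (3 * (M * (M * s)) * (9 * (M * M * M))) :=
      abs_sum3 fun k => mulb (vρ k) (abs_sum33 fun i j => mulb (mulb (hdP k i j) (hφ1 i)) (hφ1 j))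
    have hQ : |Q| ≤ 9 * (M * (3 * (M * (M * s))) * (3 * (M * M))) :=
      abs_sum33 fun i j => mulb (mulb (hφ2 i j) (vρ i)) (vφ j)
    refine (addb (addb hT hQ) hQ).trans ?_
    have e2 : 3 * (3 * (M * (M * s)) * (9 * (M * M * M))) = 81 * (M ^ 5 * s) := by ring
    have e3 : 9 * (M * (3 * (M * (M * s))) * (3 * (M * M))) = 81 * (M ^ 5 * s) := by ring
    rw [e2, e3]
    have q6 : 0 ≤ M ^ 5 * s := by positivity
    linarith
  · refine a1.trans ?_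
    have e2 : 9 * (M * (M * s) * M) = 9 * (M ^ 3 * s) := by ring
    rw [e2]
    have q3 : M ^ 3 * s ≤ M ^ 5 * s := mul_le_mul_of_nonneg_right m3 hs.le
    have q6 : 0 ≤ M ^ 5 * s := by positivity
    linarith
  · refine b1.trans ?_
    have e2 : 9 * (M * M * M) = 9 * M ^ 3 := by ring
    rw [e2]
    have q6 : 0 ≤ M ^ 5 := by positivity
    linarith

end key

/-! ## The logarithm -/

section log_

variable {g : TensorField} {W : E3 → ℝ} {x : E3} {σ : ℝ} {ρ φ : E3 → ℝ}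

theorem deriv_slog (σ : ℝ) : deriv (fun s => σ * Real.log s) = fun s => σ * s⁻¹ := by
  funext s
  rw [deriv_const_mul_field, Real.deriv_log]

theorem deriv2_slog (σ : ℝ) {s : ℝ} (hs : 0 < s) :
    deriv (deriv (fun s => σ * Real.log s)) s = -σ / s ^ 2 := by
  rw [deriv_slog, deriv_const_mul_field, deriv_inv]
  field_simp

theorem deriv_inv2 (c : ℝ) {s : ℝ} (hs : 0 < s) :
    deriv (fun s => c / s ^ 2) s = -2 * c / s ^ 3 := by
  have h1 : HasDerivAt (fun s : ℝ => c / s ^ 2) ((0 * s ^ 2 - c * (2 * s ^ (2 - 1) * 1)) / (s ^ 2) ^ 2) s :=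
    (hasDerivAt_const s c).fun_div ((hasDerivAt_id s).fun_pow 2) (by positivity)
  rw [h1.deriv]
  field_simp
  ring

theorem deriv_inv1 (c : ℝ) {s : ℝ} (hs : 0 < s) : deriv (fun s => c / s) s = -c / s ^ 2 := by
  have h1 : HasDerivAt (fun s : ℝ => c / s) ((0 * s - c * 1) / s ^ 2) s :=
    (hasDerivAt_const s c).fun_div (hasDerivAt_id s) hs.ne'
  rw [h1.deriv]
  ring

/-- The differential of `σ log ρ + φ`. -/
theorem exp1 (hRUL : Stmt_RUL) (hR : Reg g W x) (hρ : ContDiffAt ℝ ∞ ρ x)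
    (hφ : ContDiffAt ℝ ∞ φ x) (hpos : 0 < ρ x) {k : E3 → ℝ} (hk : DifferentiableAt ℝ k x) :
    lin g W (fun y => σ * Real.log (ρ y) + φ y) k x =
      σ / ρ x * lin g W ρ k x + lin g W φ k x := by
  obtain ⟨-, -, -, -, -, -, hadd, hcomp, -⟩ := hRUL g W x hR
  have d1 : DifferentiableAt ℝ (fun s => σ * Real.log s) (ρ x) :=
    (Real.differentiableAt_log hpos.ne').const_mul σ
  have d2 : DifferentiableAt ℝ (fun y => σ * Real.log (ρ y)) x :=
    ((diffAt hρ).log hpos.ne').const_mul σ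
  have h1 := (hadd (fun y => σ * Real.log (ρ y)) φ k d2 (diffAt hφ) hk).1
  have h2 := hcomp ρ k (fun s => σ * Real.log s) (diffAt hρ) d1
  rw [h1, h2, deriv_slog]
  ring

theorem lin_comm (hRUL : Stmt_RUL) (hR : Reg g W x) (f h : E3 → ℝ) :
    lin g W f h x = lin g W h f x := by
  obtain ⟨-, -, hs, -⟩ := hRUL g W x hR
  exact (hs f h).1

theorem slog_cd (hρ : ContDiffAt ℝ ∞ ρ x) (hφ : ContDiffAt ℝ ∞ φ x) (hpos : 0 < ρ x) :
    ContDiffAt ℝ ∞ (fun y => σ * Real.log (ρ y) + φ y) x :=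
  (contDiffAt_const.mul (hρ.log hpos.ne')).add hφ

theorem exp2 (hRUL : Stmt_RUL) (hR : Reg g W x) (hρ : ContDiffAt ℝ ∞ ρ x)
    (hφ : ContDiffAt ℝ ∞ φ x) (hpos : 0 < ρ x) :
    lin g W (fun y => σ * Real.log (ρ y) + φ y) (fun y => σ * Real.log (ρ y) + φ y) x =
      σ ^ 2 / ρ x ^ 2 * lin g W ρ ρ x + 2 * σ / ρ x * lin g W ρ φ x + lin g W φ φ x := by
  have dd := diffAt (slog_cd (σ := σ) hρ hφ hpos)
  rw [exp1 hRUL hR hρ hφ hpos dd, lin_comm hRUL hR ρ, lin_comm hRUL hR φ,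
    exp1 hRUL hR hρ hφ hpos (diffAt hρ), exp1 hRUL hR hρ hφ hpos (diffAt hφ),
    lin_comm hRUL hR φ ρ]
  have := hpos.ne'
  field_simp
  ring

theorem exp3 (hSMO : Stmt_SMO) (hRUL : Stmt_RUL) (hR : Reg g W x) (hρ : ContDiffAt ℝ ∞ ρ x)
    (hφ : ContDiffAt ℝ ∞ φ x) (hpos : 0 < ρ x)
    (hρe : ∀ᶠ y in 𝓝 x, ContDiffAt ℝ ∞ ρ y) (hφe : ∀ᶠ y in 𝓝 x, ContDiffAt ℝ ∞ φ y) :
    lin g W (lin g W (fun y => σ * Real.log (ρ y) + φ y) (fun y => σ * Real.log (ρ y) + φ y))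
      ρ x = lin g W ρ ρ x * (-2 * σ ^ 2 / ρ x ^ 3 * lin g W ρ ρ x)
        + σ ^ 2 / ρ x ^ 2 * lin g W (lin g W ρ ρ) ρ x
        + (lin g W ρ φ x * (-2 * σ / ρ x ^ 2 * lin g W ρ ρ x)
          + 2 * σ / ρ x * lin g W (lin g W ρ φ) ρ x) + lin g W (lin g W φ φ) ρ x := by
  have hpe : ∀ᶠ y in 𝓝 x, 0 < ρ y := hρ.continuousAt.eventually (lt_mem_nhds hpos)
  have h1 : lin g W (fun y => σ * Real.log (ρ y) + φ y) (fun y => σ * Real.log (ρ y) + φ y)
      =ᶠ[𝓝 x] fun y => (lin g W ρ ρ y * (σ ^ 2 / ρ y ^ 2) + lin g W ρ φ y * (2 * σ / ρ y))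
        + lin g W φ φ y := by
    filter_upwards [reg_ev hSMO hR, hpe, hρe, hφe] with y h1 h2 h3 h4
    rw [exp2 hRUL h1 h3 h4 h2]
    ring
  rw [lin_congr h1]
  obtain ⟨-, -, -, -, -, -, hadd, hcomp, -⟩ := hRUL g W x hR
  have c1 := lin_cd hSMO hR hρ hρ
  have c2 := lin_cd hSMO hR hρ hφ
  have c3 := lin_cd hSMO hR hφ hφ
  have dG1 : DifferentiableAt ℝ (fun s => σ ^ 2 / s ^ 2) (ρ x) :=
    (differentiableAt_const _).fun_div (differentiableAt_id.fun_pow 2) (by positivity)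
  have dG2 : DifferentiableAt ℝ (fun s => 2 * σ / s) (ρ x) :=
    (differentiableAt_const _).fun_div differentiableAt_id hpos.ne'
  have e0 : DifferentiableAt ℝ (fun y => ρ y ^ 2) x := (diffAt hρ).fun_pow 2
  have e1 : DifferentiableAt ℝ (fun y => σ ^ 2 / ρ y ^ 2) x := by
    simp only [div_eq_mul_inv]
    exact (e0.fun_inv (pow_pos hpos 2).ne').const_mul _
  have e2 : DifferentiableAt ℝ (fun y => 2 * σ / ρ y) x := by
    simp only [div_eq_mul_inv]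
    exact ((diffAt hρ).fun_inv hpos.ne').const_mul _
  have f1 : DifferentiableAt ℝ (fun y => lin g W ρ ρ y * (σ ^ 2 / ρ y ^ 2)) x :=
    (diffAt c1).mul e1
  have f2 : DifferentiableAt ℝ (fun y => lin g W ρ φ y * (2 * σ / ρ y)) x :=
    (diffAt c2).mul e2
  have f3 : DifferentiableAt ℝ (fun y => lin g W ρ ρ y * (σ ^ 2 / ρ y ^ 2)
      + lin g W ρ φ y * (2 * σ / ρ y)) x := f1.add f2
  have dρ := diffAt hρ
  rw [(hadd (fun y => lin g W ρ ρ y * (σ ^ 2 / ρ y ^ 2) + lin g W ρ φ y * (2 * σ / ρ y))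
      (lin g W φ φ) ρ f3 (diffAt c3) dρ).1,
    (hadd (fun y => lin g W ρ ρ y * (σ ^ 2 / ρ y ^ 2)) (fun y => lin g W ρ φ y * (2 * σ / ρ y))
      ρ f1 f2 dρ).1,
    (hadd (lin g W ρ ρ) (fun y => σ ^ 2 / ρ y ^ 2) ρ (diffAt c1) e1 dρ).2,
    (hadd (lin g W ρ φ) (fun y => 2 * σ / ρ y) ρ (diffAt c2) e2 dρ).2,
    hcomp ρ ρ (fun s => σ ^ 2 / s ^ 2) dρ dG1, hcomp ρ ρ (fun s => 2 * σ / s) dρ dG2,
    deriv_inv2 _ hpos, deriv_inv1 _ hpos]
  ring

theorem exp4 (hRUL : Stmt_RUL) (hR : Reg g W x) (hρ : ContDiffAt ℝ ∞ ρ x)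
    (hφ : ContDiffAt ℝ ∞ φ x) (hpos : 0 < ρ x) :
    lap g W (fun y => σ * Real.log (ρ y) + φ y) x =
      σ / ρ x * lap g W ρ x + -σ / ρ x ^ 2 * lin g W ρ ρ x + lap g W φ x := by
  obtain ⟨-, -, -, -, -, hadd, -, -, hcomp, -⟩ := hRUL g W x hR
  have h2 : (2 : WithTop ℕ∞) ≤ ∞ := by decide
  have c1 : ContDiffAt ℝ 2 (fun y => σ * Real.log (ρ y)) x :=
    (contDiffAt_const.mul (hρ.log hpos.ne')).of_le h2
  have c2 : ContDiffAt ℝ 2 (fun s => σ * Real.log s) (ρ x) :=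
    contDiffAt_const.mul (contDiffAt_id.log hpos.ne')
  rw [(hadd (fun y => σ * Real.log (ρ y)) φ c1 (hφ.of_le h2)).1,
    hcomp ρ (fun s => σ * Real.log s) (hρ.of_le h2) c2, deriv2_slog σ hpos, deriv_slog]
  ring

end log_

theorem bd_fam {ι : Type} [Fintype ι] {K : Set E3} (hK : IsCompact K) (f : ι → E3 → ℝ)
    (hf : ∀ i, ContinuousOn (f i) K) : ∃ B : ℝ, 0 ≤ B ∧ ∀ i, ∀ x ∈ K, |f i x| ≤ B := by
  have hc : ContinuousOn (fun x => ∑ i, |f i x|) K :=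
    continuousOn_finsetSum _ fun i _ => (hf i).abs
  obtain ⟨B, hB⟩ := hK.exists_bound_of_continuousOn hc
  refine ⟨max B 0, le_max_right _ _, fun i x hx => ?_⟩
  have h1 := hB x hx
  rw [Real.norm_eq_abs, abs_of_nonneg (Finset.sum_nonneg fun _ _ => abs_nonneg _)] at h1
  exact (Finset.single_le_sum (f := fun i => |f i x|) (fun _ _ => abs_nonneg _)
    (Finset.mem_univ i)).trans (h1.trans (le_max_left _ _))

theorem isOpen_obox (z0 : E3) (r e : ℝ) : IsOpen (obox z0 r e) := by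
  have hc : ∀ i : Fin 3, Continuous fun z : E3 => |z i - z0 i| := by
    intro i
    have : Continuous fun z : E3 => z i := by fun_prop
    exact (this.sub continuous_const).abs
  exact (isOpen_lt (hc 0) continuous_const).inter
    ((isOpen_lt (hc 1) continuous_const).inter (isOpen_lt (hc 2) continuous_const))

theorem obox_sub (z0 : E3) (r e : ℝ) : obox z0 r e ⊆ box z0 r e :=
  fun _ hz => ⟨hz.1.le, hz.2.1.le, hz.2.2.le⟩

end MFLUX

open MFLUX in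
theorem FLUX (hALG : Stmt_ALG) (hSMO : Stmt_SMO) (hRUL : Stmt_RUL) (hCHX : Stmt_CHX)
    (hPOLE : Stmt_POLE) : Stmt_FLUX := by
  intro V a b g W hF Φ z0 r e hC τ σ hτ hσ φ u hφ hu δ hδ
  obtain ⟨-, -, hKc, hKV, hopen, -⟩ := hCHX V a b g W hF Φ z0 r e hC
  obtain ⟨hρs, c, C, -, hC0, -, hP⟩ := hPOLE V a b g W hF Φ z0 r e hC τ hτ
  have hReg : ∀ x ∈ V, Reg g W x := hSMO.1 V a b g W hF
  have hVo : IsOpen V := hF.isOpen
  have hob : IsOpen (Φ '' obox z0 r e) := hopen (obox z0 r e) (isOpen_obox z0 r e) subset_rfl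
  have hoK : Φ '' obox z0 r e ⊆ Φ '' box z0 r e := Set.image_mono (obox_sub z0 r e)
  set K := Φ '' box z0 r e with hKdef
  set ρ := rp g W Φ z0 τ with hρdef
  have hφa : ∀ x ∈ V, ContDiffAt ℝ ∞ φ x := fun x hx => hφ.contDiffAt (hVo.mem_nhds hx)
  have hua : ∀ x ∈ V, ContDiffAt ℝ ∞ u x := fun x hx => hu.contDiffAt (hVo.mem_nhds hx)
  have hρa : ∀ x ∈ Φ '' obox z0 r e, ContDiffAt ℝ ∞ ρ x := fun x hx =>
    hρs.contDiffAt (hob.mem_nhds hx)
  have cK : ∀ {f : E3 → ℝ}, (∀ x ∈ V, ContDiffAt ℝ ∞ f x) → ContinuousOn f K :=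
    fun {f} hf x hx => (hf x (hKV hx)).continuousAt.continuousWithinAt
  obtain ⟨B1, hB1, b1⟩ := bd_fam hKc (fun (q : Fin 3 × Fin 3) x => prj g x (grad W x) q.1 q.2)
    fun q => cK fun x hx => prj_cd hSMO (hReg x hx) q.1 q.2
  obtain ⟨B2, hB2, b2⟩ := bd_fam hKc
    (fun (q : Fin 3 × Fin 3 × Fin 3) x => pd q.1 (fun y => prj g y (grad W y) q.2.1 q.2.2) x)
    fun q => cK fun x hx => pd_cd q.1 (prj_cd hSMO (hReg x hx) q.2.1 q.2.2)
  obtain ⟨B3, hB3, b3⟩ := bd_fam hKc (fun (i : Fin 3) x => pd i φ x)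
    fun i => cK fun x hx => pd_cd i (hφa x hx)
  obtain ⟨B4, hB4, b4⟩ := bd_fam hKc (fun (q : Fin 3 × Fin 3) x => pd q.1 (pd q.2 φ) x)
    fun q => cK fun x hx => pd_cd q.1 (pd_cd q.2 (hφa x hx))
  obtain ⟨B5, hB5, b5⟩ := bd_fam hKc (fun (i : Fin 3) x => pd i u x)
    fun i => cK fun x hx => pd_cd i (hua x hx)
  obtain ⟨B6, hB6, b6⟩ := bd_fam hKc (fun (_ : Unit) x => lap g W φ x)
    fun _ => cK fun x hx => lap_cd hSMO (hReg x hx) (hφa x hx)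
  obtain ⟨B7, hB7, b7⟩ := bd_fam hKc (fun (_ : Unit) x => δ * Real.exp (2 * u x))
    fun _ => cK fun x hx => contDiffAt_const.mul (contDiffAt_const.mul (hua x hx)).exp
  obtain ⟨M, hM⟩ : ∃ M, M = C + B1 + B2 + B3 + B4 + B5 + B6 + B7 + 1 := ⟨_, rfl⟩
  have hM1 : 1 ≤ M := by linarith
  have hM0 : 0 < M := by linarith
  have hM5 : M ≤ M ^ 5 := le_self_pow₀ hM1 (by norm_num)
  have hM3 : M ^ 3 ≤ M ^ 5 := pow_le_pow_right₀ hM1 (by norm_num)
  obtain ⟨A, hA⟩ : ∃ A, A = 300 * M ^ 5 := ⟨_, rfl⟩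
  have hMA : M ≤ A := by
    rw [hA]
    linarith
  have hA1 : 1 ≤ A := hM1.trans hMA
  have hA0 : 0 < A := by linarith
  refine ⟨54 * A ^ 2, 1 / (36 * A ^ 2), by positivity, by positivity, ?_⟩
  intro x hx hpos hlt
  have hxK : x ∈ K := hoK hx
  have hxV : x ∈ V := hKV hxK
  have hR := hReg x hxV
  obtain ⟨q1, q2, q3, q4⟩ := hP x hx
  have hρx := hρa x hx
  have hφx := hφa x hxV
  obtain ⟨s, hs⟩ : ∃ s, s = Real.sqrt (ρ x) := ⟨_, rfl⟩
  have hs0 : 0 < s := hs ▸ Real.sqrt_pos.2 hpos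
  have hs2 : ρ x = s ^ 2 := by rw [hs, Real.sq_sqrt hpos.le]
  have hsA : 6 * A * s ≤ 1 := by
    have h1 : (6 * A * s) ^ 2 ≤ 1 := by
      rw [hs2] at hlt
      have h2 : s ^ 2 * (36 * A ^ 2) < 1 := (lt_div_iff₀ (by positivity)).1 hlt
      calc (6 * A * s) ^ 2 = s ^ 2 * (36 * A ^ 2) := by ring
        _ ≤ 1 := h2.le
    exact (sq_le_one_iff₀ (by positivity)).1 h1
  have hs1 : s ≤ 1 := by nlinarith
  rw [← hs] at q3 q4 ⊢
  rw [hs2] at q1 q2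
  have k1 := key hALG hSMO hR hM1 hs0 hs1 hρx hφx
    (fun i j => (b1 (i, j) x hxK).trans (by linarith))
    (fun k i j => (b2 (k, i, j) x hxK).trans (by linarith))
    (fun i => (b3 i x hxK).trans (by linarith))
    (fun i j => (b4 (i, j) x hxK).trans (by linarith))
    (fun i => (q3 i).trans (mul_le_mul_of_nonneg_right (by linarith) hs0.le))
    (q1.trans (by
      have : C * (s ^ 2) ^ 2 = C * s ^ 4 := by ring
      rw [this]
      exact mul_le_mul_of_nonneg_right (by linarith) (by positivity)))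
    (fun A B => (q4 A B).trans (by
      have : C ≤ M := by linarith
      gcongr))
  rw [← hA] at k1
  obtain ⟨kD0, kD1, kD2, ka, kb⟩ := k1
  have kF : |lin g W ρ ρ x - 4 * s ^ 2| ≤ A * s ^ 4 := by
    refine q1.trans ?_
    have : C * (s ^ 2) ^ 2 = C * s ^ 4 := by ring
    rw [this]
    exact mul_le_mul_of_nonneg_right (by linarith) (by positivity)
  have kL : |lap g W ρ x - 4| ≤ A * s ^ 2 :=
    q2.trans (mul_le_mul_of_nonneg_right (by linarith) (by positivity))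
  have kc : |lin g W u ρ x| ≤ A * s := by
    have h1 : |lin g W u ρ x| ≤ 9 * (M * M * (M * s)) :=
      lin_le hALG hR (fun i j => (b1 (i, j) x hxK).trans (by linarith))
        (fun i => (b5 i x hxK).trans (by linarith))
        (fun i => (q3 i).trans (mul_le_mul_of_nonneg_right (by linarith) hs0.le))
    refine h1.trans ?_
    rw [hA]
    have h2 : 9 * (M * M * (M * s)) = 9 * (M ^ 3 * s) := by ring
    have h3 : M ^ 3 * s ≤ M ^ 5 * s := mul_le_mul_of_nonneg_right hM3 hs0.le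
    have h4 : 0 < M ^ 5 * s := by positivity
    rw [h2]
    linarith
  have kL1 : |lap g W φ x| ≤ A := (b6 () x hxK).trans (by linarith)
  have kw0 : 0 ≤ δ * Real.exp (2 * u x) := by positivity
  have kw : δ * Real.exp (2 * u x) ≤ A := (le_abs_self _).trans ((b7 () x hxK).trans (by linarith))
  have hfe : lin g W (fun y => σ * Real.log (ρ y) + φ y) (fun y => σ * Real.log (ρ y) + φ y) x =
      σ ^ 2 / (s ^ 2) ^ 2 * lin g W ρ ρ x + 2 * σ / s ^ 2 * lin g W ρ φ x + lin g W φ φ x := by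
    rw [exp2 hRUL hR hρx hφx hpos, hs2]
  have main := flux_real hA1 hs0 hsA hσ kF kL ka kb kc kL1 kD0 kD1 kD2 kw0 kw hfe
  have e3 := exp3 (σ := σ) hSMO hRUL hR hρx hφx hpos
    ((hob.eventually_mem hx).mono fun y hy => hρa y hy)
    ((hVo.eventually_mem hxV).mono fun y hy => hφa y hy)
  have e4 := exp4 (σ := σ) hRUL hR hρx hφx hpos
  have e1 := exp1 (σ := σ) hRUL hR hρx hφx hpos (diffAt hρx)
  rw [lin_comm hRUL hR φ ρ] at e1
  rw [hs2] at e1 e3 e4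
  rw [← e1, ← e3, ← e4] at main
  obtain ⟨-, hlg, -⟩ := hRUL g W x hR
  have hX : ∑ i, pd i ρ x * Xf g W (fun y => σ * Real.log (ρ y) + φ y) u δ x i =
      (lin g W (lin g W (fun y => σ * Real.log (ρ y) + φ y)
          (fun y => σ * Real.log (ρ y) + φ y)) ρ x / 2
        - lap g W (fun y => σ * Real.log (ρ y) + φ y) x
          * lin g W (fun y => σ * Real.log (ρ y) + φ y) ρ x
        - lin g W (fun y => σ * Real.log (ρ y) + φ y)
            (fun y => σ * Real.log (ρ y) + φ y) x * lin g W u ρ x) /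
      (lin g W (fun y => σ * Real.log (ρ y) + φ y) (fun y => σ * Real.log (ρ y) + φ y) x
        + δ * Real.exp (2 * u x)) := by
    rw [← hlg (lin g W (fun y => σ * Real.log (ρ y) + φ y)
        (fun y => σ * Real.log (ρ y) + φ y)) ρ,
      ← hlg (fun y => σ * Real.log (ρ y) + φ y) ρ, ← hlg u ρ]
    simp only [Xf, grad, Fin.sum_univ_three]
    ring
  rw [hX]
  exact main

end Pool.Agent.PFlow.GB


end
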