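import Mathlib
import Pool.Agent.PenroseM.C12

/-! Parts: PFlow.G.MASS -/

section

open MeasureTheory Filter Topology
open scoped ContDiff Matrix

namespace Pool.Agent.PFlow.GB

open Pool.Agent.PenroseSph Pool.Agent.PFlow

namespace MassAux

open scoped MatrixOrder in
lemma exists_frame (G : Matrix (Fin 3) (Fin 3) ℝ) (hG : G.PosDef) (p : Fin 3 → ℝ) (hp : p ≠ 0) :
    ∃ (M : Matrix (Fin 3) (Fin 3) ℝ) (l : ℝ), 0 < l ∧ M.transpose * G * M = 1 ∧
      l ^ 2 = ∑ i, ∑ j, G⁻¹ i j * p i * p j ∧ M.transpose *ᵥ p = Pi.single 1 l := by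
  obtain ⟨B, hB⟩ := CStarAlgebra.nonneg_iff_eq_star_mul_self.mp hG.posSemidef.nonneg
  have hB' : G = B.transpose * B := by
    rw [hB, Matrix.star_eq_conjTranspose, Matrix.conjTranspose_eq_transpose_of_trivial]
  have hBu : IsUnit B.det := by
    have h1 : IsUnit G.det := (Matrix.isUnit_iff_isUnit_det _).1 hG.isUnit
    rw [hB', Matrix.det_mul] at h1
    exact isUnit_of_mul_isUnit_right h1
  set q : Fin 3 → ℝ := B⁻¹.transpose *ᵥ p with hq
  have hBB : B⁻¹ * B = 1 := Matrix.nonsing_inv_mul B hBu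
  have hBB' : B * B⁻¹ = 1 := Matrix.mul_nonsing_inv B hBu
  have hq0 : q ≠ 0 := by
    intro h0
    apply hp
    have : B.transpose *ᵥ q = p := by
      rw [hq, Matrix.mulVec_mulVec, ← Matrix.transpose_mul, hBB, Matrix.transpose_one,
        Matrix.one_mulVec]
    rw [← this, h0, Matrix.mulVec_zero]
  set Q : EuclideanSpace ℝ (Fin 3) := WithLp.toLp 2 q with hQ
  have hQ0 : Q ≠ 0 := by
    intro h0
    apply hq0
    funext i
    have := congrArg (fun z : EuclideanSpace ℝ (Fin 3) => z i) h0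
    simpa [hQ] using this
  have hQn : 0 < ‖Q‖ := norm_pos_iff.2 hQ0
  let n : EuclideanSpace ℝ (Fin 3) := ‖Q‖⁻¹ • Q
  have hn : ‖n‖ = 1 := by
    simp only [n, norm_smul, norm_inv, norm_norm]
    exact inv_mul_cancel₀ hQn.ne'
  obtain ⟨b, hb⟩ := Orthonormal.exists_orthonormalBasis_extension_of_card_eq (𝕜 := ℝ)
    (E := EuclideanSpace ℝ (Fin 3)) (ι := Fin 3) (by simp) (v := fun _ => n) (s := {1}) (by
      constructor
      · intro i; exact hn
      · intro i j hij
        exact absurd (Subtype.ext (by rw [i.2, j.2])) hij)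
  have hb1 : b 1 = n := hb 1 rfl
  have horth := b.orthonormal
  let R : Matrix (Fin 3) (Fin 3) ℝ := Matrix.of fun i j => b j i
  have hRR : R.transpose * R = 1 := by
    ext i j
    rw [Matrix.mul_apply, Matrix.one_apply]
    have h2 := (orthonormal_iff_ite.1 horth) i j
    rw [← h2, PiLp.inner_apply]
    refine Finset.sum_congr rfl fun k _ => ?_
    simp [R, mul_comm]
  have hGinv : G⁻¹ = B⁻¹ * B⁻¹.transpose := by
    rw [hB', Matrix.mul_inv_rev, Matrix.transpose_nonsing_inv]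
  refine ⟨B⁻¹ * R, ‖Q‖, hQn, ?_, ?_, ?_⟩
  · rw [hB', Matrix.transpose_mul]
    calc R.transpose * B⁻¹.transpose * (B.transpose * B) * (B⁻¹ * R)
        = R.transpose * (B⁻¹.transpose * B.transpose) * (B * B⁻¹) * R := by
          simp only [Matrix.mul_assoc]
      _ = 1 := by
          rw [← Matrix.transpose_mul, hBB', Matrix.transpose_one, Matrix.mul_one, Matrix.mul_one,
            hRR]
  · rw [EuclideanSpace.norm_eq, Real.sq_sqrt (by positivity)]
    have h3 : ∑ i, ‖Q i‖ ^ 2 = q ⬝ᵥ q := by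
      simp [dotProduct, hQ, pow_two]
    rw [h3]
    have h4 : ∑ i, ∑ j, G⁻¹ i j * p i * p j = p ⬝ᵥ (G⁻¹ *ᵥ p) := by
      simp only [dotProduct, Matrix.mulVec, Finset.mul_sum]
      refine Finset.sum_congr rfl fun i _ => Finset.sum_congr rfl fun j _ => by ring
    rw [h4, hGinv, ← Matrix.mulVec_mulVec, ← hq, Matrix.dotProduct_mulVec p,
      ← Matrix.mulVec_transpose, ← hq]
  · rw [Matrix.transpose_mul, ← Matrix.mulVec_mulVec, ← hq]
    funext i
    have h5 : (R.transpose *ᵥ q) i = inner ℝ (b i) Q := by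
      rw [PiLp.inner_apply]
      simp only [Matrix.mulVec, dotProduct, R, Matrix.transpose_apply, Matrix.of_apply, hQ]
      refine Finset.sum_congr rfl fun k _ => ?_
      simp [mul_comm]
    have h6 : Q = ‖Q‖ • b 1 := by
      rw [hb1]
      simp only [n, smul_smul]
      rw [mul_inv_cancel₀ hQn.ne', one_smul]
    rw [h5]
    conv_lhs => rw [h6]
    rw [inner_smul_right, (orthonormal_iff_ite.1 horth) i 1]
    by_cases hi : i = 1
    · subst hi; simp
    · rw [if_neg hi, Pi.single_eq_of_ne hi]; simp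

lemma taylor_two {W : E3 → ℝ} {x : E3} (hW : ContDiffAt ℝ 2 W x) {ε : ℝ} (hε : 0 < ε) :
    ∃ δ : ℝ, 0 < δ ∧ ∀ v : E3, ‖v‖ < δ →
      |W (x + v) - W x - fderiv ℝ W x v - 1 / 2 * fderiv ℝ (fderiv ℝ W) x v v| ≤ ε * ‖v‖ ^ 2 := by
  have hsymm : IsSymmSndFDerivAt ℝ W x := by
    exact hW.isSymmSndFDerivAt (by simp)
  have hd1 : ContDiffAt ℝ 1 (fderiv ℝ W) x := hW.fderiv_right (by norm_num)
  have hd2 : HasFDerivAt (fderiv ℝ W) (fderiv ℝ (fderiv ℝ W) x) x :=
    (hd1.differentiableAt (by norm_num)).hasFDerivAt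
  have hev : ∀ᶠ y in 𝓝 x, DifferentiableAt ℝ W y := by
    have := hW.eventually (by simp)
    exact this.mono fun y hy => hy.differentiableAt (by norm_num)
  have hlo := hd2.isLittleO
  have hlo' := hlo.def hε
  obtain ⟨δ, hδ, hball⟩ := Metric.eventually_nhds_iff_ball.1 (hlo'.and hev)
  refine ⟨δ, hδ, fun v hv => ?_⟩
  have hseg : ∀ u ∈ segment ℝ (0 : E3) v, ‖u‖ ≤ ‖v‖ := by
    rintro u ⟨α, β, hα, hβ, hαβ, rfl⟩
    rw [smul_zero, zero_add, norm_smul, Real.norm_of_nonneg hβ]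
    have : β ≤ 1 := by linarith
    nlinarith [norm_nonneg v]
  set R : E3 → ℝ := fun u => W (x + u) - W x - fderiv ℝ W x u
    - 1 / 2 * fderiv ℝ (fderiv ℝ W) x u u with hR
  have hR' : ∀ u ∈ segment ℝ (0 : E3) v, HasFDerivWithinAt R
      (fderiv ℝ W (x + u) - fderiv ℝ W x - fderiv ℝ (fderiv ℝ W) x u) (segment ℝ 0 v) u := by
    intro u hu
    have hu' : x + u ∈ Metric.ball x δ := by
      rw [Metric.mem_ball, dist_eq_norm, add_sub_cancel_left]
      exact (hseg u hu).trans_lt hv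
    have h1 : HasFDerivAt (fun u => W (x + u)) (fderiv ℝ W (x + u)) u := by
      have h2 := (hball _ hu').2.hasFDerivAt
      have h3 : HasFDerivAt (fun u : E3 => x + u) (ContinuousLinearMap.id ℝ E3) u :=
        (hasFDerivAt_id u).const_add x
      have h4 := h2.comp u h3
      rw [ContinuousLinearMap.comp_id] at h4
      exact h4
    have h2 : HasFDerivAt (fun u => fderiv ℝ W x u) (fderiv ℝ W x) u :=
      (fderiv ℝ W x).hasFDerivAt
    have h3 : HasFDerivAt (fun u => fderiv ℝ (fderiv ℝ W) x u u)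
        ((fderiv ℝ (fderiv ℝ W) x u) + (fderiv ℝ (fderiv ℝ W) x).flip u) u := by
      have h5 : HasFDerivAt (fun u => fderiv ℝ (fderiv ℝ W) x u) (fderiv ℝ (fderiv ℝ W) x) u :=
        (fderiv ℝ (fderiv ℝ W) x).hasFDerivAt
      have h6 := h5.clm_apply (hasFDerivAt_id u)
      simpa using h6
    have h4 := ((h1.sub_const (W x)).sub h2).sub (h3.const_mul (1 / 2 : ℝ))
    have h7 : (fderiv ℝ W (x + u) - fderiv ℝ W x - (1 / 2 : ℝ) •
        ((fderiv ℝ (fderiv ℝ W) x u) + (fderiv ℝ (fderiv ℝ W) x).flip u))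
        = fderiv ℝ W (x + u) - fderiv ℝ W x - fderiv ℝ (fderiv ℝ W) x u := by
      ext w
      have h8 : fderiv ℝ (fderiv ℝ W) x w u = fderiv ℝ (fderiv ℝ W) x u w := hsymm.eq w u
      simp only [sub_apply, smul_apply,
        add_apply, ContinuousLinearMap.flip_apply, smul_eq_mul]
      rw [h8]; ring
    rw [h7] at h4
    exact h4.hasFDerivWithinAt
  have hbd : ∀ u ∈ segment ℝ (0 : E3) v,
      ‖fderiv ℝ W (x + u) - fderiv ℝ W x - fderiv ℝ (fderiv ℝ W) x u‖ ≤ ε * ‖v‖ := by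
    intro u hu
    have hu' : x + u ∈ Metric.ball x δ := by
      rw [Metric.mem_ball, dist_eq_norm, add_sub_cancel_left]
      exact (hseg u hu).trans_lt hv
    have h1 := (hball _ hu').1
    rw [add_sub_cancel_left] at h1
    exact h1.trans (mul_le_mul_of_nonneg_left (hseg u hu) hε.le)
  have hmv := (convex_segment (0 : E3) v).norm_image_sub_le_of_norm_hasFDerivWithin_le hR' hbd
    (left_mem_segment ℝ 0 v) (right_mem_segment ℝ 0 v)
  have hR0 : R 0 = 0 := by simp [hR]
  rw [hR0, sub_zero, sub_zero, Real.norm_eq_abs] at hmv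
  calc |R v| ≤ ε * ‖v‖ * ‖v‖ := hmv
    _ = ε * ‖v‖ ^ 2 := by ring

lemma taylor_lim {W : E3 → ℝ} {x : E3} (hW : ContDiffAt ℝ 2 W x) {w u : E3}
    (hw : fderiv ℝ W x w = 0) :
    Tendsto (fun s : ℝ => (W (x + (s • w + s ^ 2 • u)) - W x) / s ^ 2) (𝓝[>] 0)
      (𝓝 (fderiv ℝ W x u + 1 / 2 * fderiv ℝ (fderiv ℝ W) x w w)) := by
  set H := fderiv ℝ (fderiv ℝ W) x with hH
  have h1 : Tendsto (fun s : ℝ => fderiv ℝ W x u + 1 / 2 * H (w + s • u) (w + s • u)) (𝓝[>] 0)
      (𝓝 (fderiv ℝ W x u + 1 / 2 * H w w)) := by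
    have hc : Continuous (fun s : ℝ => fderiv ℝ W x u + 1 / 2 * H (w + s • u) (w + s • u)) := by
      fun_prop
    have := (hc.tendsto 0).mono_left (nhdsWithin_le_nhds (s := Set.Ioi (0 : ℝ)))
    simpa using this
  have h2 : Tendsto (fun s : ℝ => (W (x + (s • w + s ^ 2 • u)) - W x) / s ^ 2
      - (fderiv ℝ W x u + 1 / 2 * H (w + s • u) (w + s • u))) (𝓝[>] 0) (𝓝 0) := by
    rw [Metric.tendsto_nhds]
    intro ε hε
    set B : ℝ := (‖w‖ + ‖u‖) ^ 2 + 1 with hB
    have hBpos : 0 < B := by positivity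
    obtain ⟨δ, hδ, hT⟩ := taylor_two hW (ε := ε / (2 * B)) (by positivity)
    have hs1 : ∀ᶠ s : ℝ in 𝓝[>] 0, s < min 1 (δ / (‖w‖ + ‖u‖ + 1)) := by
      refine (eventually_lt_nhds ?_).filter_mono nhdsWithin_le_nhds
      positivity
    filter_upwards [hs1, self_mem_nhdsWithin] with s hs hs0
    have hs0' : (0 : ℝ) < s := hs0
    have hs1' : s < 1 := hs.trans_le (min_le_left _ _)
    have hs2' : s < δ / (‖w‖ + ‖u‖ + 1) := hs.trans_le (min_le_right _ _)
    have hv : s • w + s ^ 2 • u = s • (w + s • u) := by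
      rw [smul_add, smul_smul]; ring_nf
    have hn : ‖w + s • u‖ ≤ ‖w‖ + ‖u‖ := by
      refine (norm_add_le _ _).trans ?_
      rw [norm_smul, Real.norm_of_nonneg hs0'.le]
      nlinarith [norm_nonneg u, norm_nonneg w]
    have hvn : ‖s • w + s ^ 2 • u‖ < δ := by
      rw [hv, norm_smul, Real.norm_of_nonneg hs0'.le]
      rw [lt_div_iff₀ (by positivity)] at hs2'
      nlinarith [norm_nonneg (w + s • u), norm_nonneg u, norm_nonneg w]
    have hTv := hT _ hvn
    rw [hv] at hTv ⊢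
    have hlin : fderiv ℝ W x (s • (w + s • u)) = s ^ 2 * fderiv ℝ W x u := by
      rw [map_smul, map_add, hw, map_smul]
      simp only [smul_eq_mul]; ring
    have hquad : H (s • (w + s • u)) (s • (w + s • u)) = s ^ 2 * H (w + s • u) (w + s • u) := by
      rw [map_smul, map_smul]
      simp only [smul_apply, smul_eq_mul]; ring
    rw [hlin, hquad] at hTv
    rw [dist_zero_right, Real.norm_eq_abs]
    have hss : 0 < s ^ 2 := by positivity
    have e1 : (W (x + s • (w + s • u)) - W x) / s ^ 2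
        - (fderiv ℝ W x u + 1 / 2 * H (w + s • u) (w + s • u))
        = (W (x + s • (w + s • u)) - W x - s ^ 2 * fderiv ℝ W x u
          - 1 / 2 * (s ^ 2 * H (w + s • u) (w + s • u))) / s ^ 2 := by
      field_simp
      ring
    rw [e1, abs_div, abs_of_pos hss, div_lt_iff₀ hss]
    refine hTv.trans_lt ?_
    rw [norm_smul, Real.norm_of_nonneg hs0'.le]
    have h9 : (s * ‖w + s • u‖) ^ 2 ≤ s ^ 2 * B := by
      rw [mul_pow]
      refine mul_le_mul_of_nonneg_left ?_ hss.le
      have : ‖w + s • u‖ ^ 2 ≤ (‖w‖ + ‖u‖) ^ 2 := by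
        exact pow_le_pow_left₀ (norm_nonneg _) hn 2
      linarith
    calc ε / (2 * B) * (s * ‖w + s • u‖) ^ 2 ≤ ε / (2 * B) * (s ^ 2 * B) :=
          mul_le_mul_of_nonneg_left h9 (by positivity)
      _ = ε / 2 * s ^ 2 := by field_simp
      _ < ε * s ^ 2 := by nlinarith
  have h3 := h2.add h1
  rw [zero_add] at h3
  refine h3.congr fun s => ?_
  ring

lemma taylor_bd {W : E3 → ℝ} {x : E3} (hW : ContDiffAt ℝ 2 W x) :
    ∃ δ C : ℝ, 0 < δ ∧ 0 ≤ C ∧ ∀ v : E3, ‖v‖ < δ →
      |W (x + v) - W x - fderiv ℝ W x v| ≤ C * ‖v‖ ^ 2 := by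
  obtain ⟨δ, hδ, hT⟩ := taylor_two hW (ε := 1) one_pos
  set H := fderiv ℝ (fderiv ℝ W) x with hH
  refine ⟨δ, 1 + ‖H‖, hδ, by positivity, fun v hv => ?_⟩
  have h1 := hT v hv
  have h2 : |H v v| ≤ ‖H‖ * ‖v‖ ^ 2 := by
    have := H.le_opNorm₂ v v
    rw [Real.norm_eq_abs] at this
    calc |H v v| ≤ ‖H‖ * ‖v‖ * ‖v‖ := this
      _ = ‖H‖ * ‖v‖ ^ 2 := by ring
  have h3 := abs_le.1 h1
  have h4 := abs_le.1 h2
  have h5 : 0 ≤ ‖H‖ * ‖v‖ ^ 2 := by positivity
  rw [abs_le]
  constructor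
  · nlinarith [h3.1, h3.2, h4.1, h4.2]
  · nlinarith [h3.1, h3.2, h4.1, h4.2]


lemma integral_affine (x : E3) (N : Matrix (Fin 3) (Fin 3) ℝ) (hN : N.det ≠ 0) (F : E3 → ℝ) :
    ∫ y, F y = ∫ z, |N.det| * F (x + Matrix.toEuclideanLin N z) := by
  set L : E3 →L[ℝ] E3 := LinearMap.toContinuousLinearMap (Matrix.toEuclideanLin N) with hL
  have hdet : L.det = N.det := by
    rw [hL, LinearMap.det_toContinuousLinearMap]
    rw [Matrix.toEuclideanLin_eq_toLin_orthonormal, LinearMap.det_toLin]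
  have hu : IsUnit N.det := isUnit_iff_ne_zero.2 hN
  have h1 : ∀ z : E3, Matrix.toEuclideanLin N⁻¹ (Matrix.toEuclideanLin N z) = z := by
    intro z
    ext i
    simp [Matrix.toLpLin_apply, Matrix.mulVec_mulVec, Matrix.nonsing_inv_mul N hu]
  have h2 : ∀ z : E3, Matrix.toEuclideanLin N (Matrix.toEuclideanLin N⁻¹ z) = z := by
    intro z
    ext i
    simp [Matrix.toLpLin_apply, Matrix.mulVec_mulVec, Matrix.mul_nonsing_inv N hu]
  have hinj : Set.InjOn (fun z : E3 => x + L z) Set.univ := by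
    intro z1 _ z2 _ h
    have h3 : Matrix.toEuclideanLin N z1 = Matrix.toEuclideanLin N z2 := add_left_cancel h
    rw [← h1 z1, h3, h1 z2]
  have himg : (fun z : E3 => x + L z) '' Set.univ = Set.univ := by
    rw [Set.image_univ]
    refine Set.range_eq_univ.2 fun y => ⟨Matrix.toEuclideanLin N⁻¹ (y - x), ?_⟩
    change x + Matrix.toEuclideanLin N (Matrix.toEuclideanLin N⁻¹ (y - x)) = y
    rw [h2]; abel
  have hder : ∀ z ∈ (Set.univ : Set E3),
      HasFDerivWithinAt (fun z : E3 => x + L z) L Set.univ z := by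
    intro z _
    exact (L.hasFDerivAt.const_add x).hasFDerivWithinAt
  have key := integral_image_eq_integral_abs_det_fderiv_smul volume MeasurableSet.univ hder hinj F
  rw [himg, setIntegral_univ, setIntegral_univ, hdet] at key
  rw [key]
  rfl

lemma eta_cont : Continuous eta := by
  unfold eta
  exact Real.smoothTransition.continuous.comp (by fun_prop)

lemma tht_cont : Continuous tht := by
  unfold tht
  exact Real.smoothTransition.continuous.comp (by fun_prop)

lemma eta_nonneg (s : ℝ) : 0 ≤ eta s := Real.smoothTransition.nonneg _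
lemma tht_nonneg (s : ℝ) : 0 ≤ tht s := Real.smoothTransition.nonneg _
lemma eta_le_one (s : ℝ) : eta s ≤ 1 := Real.smoothTransition.le_one _
lemma tht_le_one (s : ℝ) : tht s ≤ 1 := Real.smoothTransition.le_one _

lemma eta_zero {s : ℝ} (h : 1 ≤ s) : eta s = 0 :=
  Real.smoothTransition.zero_of_nonpos (by linarith)

lemma tht_zero {s : ℝ} (h : 1 ≤ |s|) : tht s = 0 := by
  refine Real.smoothTransition.zero_of_nonpos ?_
  have : 1 ≤ s ^ 2 := by
    rw [← sq_abs]; nlinarith
  linarith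

lemma eta_one : eta 0 = 1 := by
  unfold eta
  rw [sub_zero]; exact Real.smoothTransition.one_of_one_le le_rfl

lemma tht_one : tht 0 = 1 := by
  unfold tht
  rw [zero_pow two_ne_zero, sub_zero]; exact Real.smoothTransition.one_of_one_le le_rfl

lemma tht_neg (s : ℝ) : tht (-s) = tht s := by
  unfold tht
  rw [neg_sq]

/-- the model integrand -/
noncomputable def mod (l : ℝ) (q : ℝ → ℝ → ℝ) (z : E3) : ℝ :=
  l * (eta (z 0 ^ 2 + z 2 ^ 2) * tht (l * z 1 + q (z 0) (z 2)))

lemma mod_cont (l : ℝ) (q : ℝ → ℝ → ℝ) (hq : Continuous (Function.uncurry q)) :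
    Continuous (mod l q) := by
  unfold mod
  have h1 : Continuous (fun z : E3 => q (z 0) (z 2)) :=
    hq.comp (f := fun z : E3 => (z 0, z 2)) (by fun_prop)
  have h2 : Continuous (fun z : E3 => eta (z 0 ^ 2 + z 2 ^ 2)) :=
    eta_cont.comp (by fun_prop)
  have h3 : Continuous (fun z : E3 => tht (l * z 1 + q (z 0) (z 2))) :=
    tht_cont.comp (by fun_prop)
  exact continuous_const.mul (h2.mul h3)

lemma pt0 (a b s : ℝ) : pt a b s 0 = a := by simp [pt]
lemma pt1 (a b s : ℝ) : pt a b s 1 = b := by simp [pt]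
lemma pt2 (a b s : ℝ) : pt a b s 2 = s := by simp [pt]

lemma mod_iter (hFUB : Stmt_FUB) (l : ℝ) (hl : 0 < l) (q : ℝ → ℝ → ℝ)
    (hq : Continuous (Function.uncurry q)) :
    ∃ R0 : ℝ, 0 < R0 ∧ ∀ R : ℝ, R0 ≤ R → ∫ z, mod l q z = ∫ s in Set.Ioo (0 - R) (0 + R),
      ∫ a in Set.Ioo (0 - R) (0 + R), eta (a ^ 2 + s ^ 2) * ∫ b, tht b := by
  obtain ⟨Cq, hCq⟩ := (((isCompact_Icc (a := (-1 : ℝ)) (b := 1)).prod
    (isCompact_Icc (a := (-1 : ℝ)) (b := 1))).image hq).isBounded.exists_norm_le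
  have hCq' : ∀ a s : ℝ, a ^ 2 + s ^ 2 < 1 → |q a s| ≤ Cq := by
    intro a s has
    have ha : a ∈ Set.Icc (-1 : ℝ) 1 := by
      constructor <;> nlinarith [sq_nonneg s]
    have hs : s ∈ Set.Icc (-1 : ℝ) 1 := by
      constructor <;> nlinarith [sq_nonneg a]
    exact hCq _ ⟨(a, s), ⟨ha, hs⟩, rfl⟩
  have hCq0 : 0 ≤ Cq := (abs_nonneg _).trans (hCq' 0 0 (by norm_num))
  have hout : ∀ a b s : ℝ, (1 + Cq) / l ≤ |b| →
      eta (a ^ 2 + s ^ 2) * tht (l * b + q a s) = 0 := by
    intro a b s hb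
    by_cases has : a ^ 2 + s ^ 2 < 1
    · have h1 := hCq' a s has
      rw [div_le_iff₀ hl] at hb
      have h2 : |l * b| = l * |b| := by rw [abs_mul, abs_of_pos hl]
      have h3 : |l * b| ≤ |l * b + q a s| + |q a s| := by
        have := abs_sub (l * b + q a s) (q a s)
        rwa [add_sub_cancel_right] at this
      rw [tht_zero (by nlinarith), mul_zero]
    · rw [eta_zero (not_lt.1 has), zero_mul]
  refine ⟨max 1 ((1 + Cq) / l), by positivity, fun R hR => ?_⟩
  have hR1 : 1 ≤ R := (le_max_left _ _).trans hR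
  have hR2 : (1 + Cq) / l ≤ R := (le_max_right _ _).trans hR
  have hzero : ∀ z : E3, z ∉ obox 0 R R → mod l q z = 0 := by
    intro z hz
    unfold mod
    by_contra hne
    apply hz
    have h0 : eta (z 0 ^ 2 + z 2 ^ 2) * tht (l * z 1 + q (z 0) (z 2)) ≠ 0 := by
      intro h; exact hne (by rw [h, mul_zero])
    have h1 : z 0 ^ 2 + z 2 ^ 2 < 1 := by
      by_contra h; exact h0 (by rw [eta_zero (not_lt.1 h), zero_mul])
    have h2 : |z 1| < (1 + Cq) / l := by
      by_contra h; exact h0 (hout _ _ _ (not_lt.1 h))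
    have h3 : |z 0| < 1 := by
      rw [abs_lt]; constructor <;> nlinarith [sq_nonneg (z 2)]
    have h4 : |z 2| < 1 := by
      rw [abs_lt]; constructor <;> nlinarith [sq_nonneg (z 0)]
    refine ⟨?_, ?_, ?_⟩
    · simp only [PiLp.zero_apply, sub_zero]; linarith
    · simp only [PiLp.zero_apply, sub_zero]; linarith
    · simp only [PiLp.zero_apply, sub_zero]; linarith
  have hbdd : Bornology.IsBounded (obox (0 : E3) R R) := by
    refine (Metric.isBounded_closedBall (x := (0 : E3)) (r := 3 * R)).subset ?_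
    intro z hz
    obtain ⟨h1, h2, h3⟩ := hz
    simp only [PiLp.zero_apply, sub_zero] at h1 h2 h3
    rw [mem_closedBall_zero_iff, EuclideanSpace.norm_eq]
    refine Real.sqrt_le_iff.2 ⟨by linarith, ?_⟩
    simp only [Fin.sum_univ_three, Real.norm_eq_abs]
    nlinarith [abs_nonneg (z 0), abs_nonneg (z 1), abs_nonneg (z 2)]
  have hint : IntegrableOn (mod l q) (obox 0 R R) := by
    have h1 : IntegrableOn (mod l q) (closure (obox 0 R R)) :=
      (mod_cont l q hq).continuousOn.integrableOn_compact hbdd.isCompact_closure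
    exact h1.mono_set subset_closure
  rw [← setIntegral_eq_integral_of_forall_compl_eq_zero hzero, hFUB 0 R R _ hint]
  simp only [PiLp.zero_apply]
  refine setIntegral_congr_fun measurableSet_Ioo fun s _ => ?_
  refine setIntegral_congr_fun measurableSet_Ioo fun a _ => ?_
  have e1 : ∀ b, mod l q (pt a b s) = l * (eta (a ^ 2 + s ^ 2) * tht (l * b + q a s)) := by
    intro b
    unfold mod
    rw [pt0, pt1, pt2]
  have e2 : ∫ b in Set.Ioo (0 - R) (0 + R), mod l q (pt a b s)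
      = ∫ b, mod l q (pt a b s) := by
    refine setIntegral_eq_integral_of_forall_compl_eq_zero fun b hb => ?_
    rw [e1, hout, mul_zero]
    by_contra h
    rw [not_le, abs_lt] at h
    exact hb ⟨by linarith [h.1], by linarith [h.2]⟩
  rw [e2]
  simp only [e1]
  have e3 : ∫ b, tht (l * b + q a s) = l⁻¹ * ∫ b, tht b := by
    have h1 : ∫ b, tht (l * b + q a s) = |l⁻¹| • ∫ y, tht (y + q a s) :=
      Measure.integral_comp_mul_left (fun y => tht (y + q a s)) l
    rw [h1, integral_add_right_eq_self, abs_of_pos (inv_pos.2 hl), smul_eq_mul]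
  rw [integral_const_mul, integral_const_mul, e3]
  field_simp

/-- the constant -/
noncomputable def m0c : ℝ := ∫ z, mod 1 (fun _ _ => 0) z

lemma mod_int (hFUB : Stmt_FUB) (l : ℝ) (hl : 0 < l) (q : ℝ → ℝ → ℝ)
    (hq : Continuous (Function.uncurry q)) : ∫ z, mod l q z = m0c := by
  obtain ⟨R1, h1, h1'⟩ := mod_iter hFUB l hl q hq
  obtain ⟨R2, h2, h2'⟩ := mod_iter hFUB 1 one_pos (fun _ _ => 0) (by
    exact continuous_const)
  rw [h1' (max R1 R2) (le_max_left _ _)]
  unfold m0c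
  rw [h2' (max R1 R2) (le_max_right _ _)]

lemma m0c_pos : 0 < m0c := by
  unfold m0c
  have hc : Continuous (mod 1 (fun _ _ => 0)) := mod_cont 1 _ continuous_const
  have hcs : HasCompactSupport (mod 1 (fun _ _ => 0)) := by
    refine HasCompactSupport.of_support_subset_isCompact (K := Metric.closedBall (0 : E3) 2)
      (isCompact_closedBall _ _) ?_
    intro z hz
    rw [Function.mem_support] at hz
    unfold mod at hz
    have h1 : z 0 ^ 2 + z 2 ^ 2 < 1 := by
      by_contra h; exact hz (by rw [eta_zero (not_lt.1 h), zero_mul, mul_zero])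
    have h2 : |1 * z 1 + 0| < 1 := by
      by_contra h; exact hz (by rw [tht_zero (not_lt.1 h), mul_zero, mul_zero])
    rw [one_mul, add_zero] at h2
    rw [mem_closedBall_zero_iff, EuclideanSpace.norm_eq]
    refine Real.sqrt_le_iff.2 ⟨by norm_num, ?_⟩
    simp only [Fin.sum_univ_three, Real.norm_eq_abs, sq_abs]
    have h3 : z 1 ^ 2 < 1 := by
      rw [← sq_abs]; nlinarith [abs_nonneg (z 1)]
    linarith
  refine hc.integral_pos_of_hasCompactSupport_nonneg_nonzero hcs ?_ (x := 0) ?_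
  · intro z
    unfold mod
    have := eta_nonneg (z 0 ^ 2 + z 2 ^ 2)
    have := tht_nonneg (1 * z 1 + 0)
    positivity
  · unfold mod
    simp [eta_one, tht_one]


/-- the affine map -/
noncomputable def Lm (M : Matrix (Fin 3) (Fin 3) ℝ) : E3 →ₗ[ℝ] E3 := Matrix.toEuclideanLin M

lemma Lm_apply (M : Matrix (Fin 3) (Fin 3) ℝ) (z : E3) (i : Fin 3) :
    Lm M z i = ∑ j, M i j * z j := by
  simp [Lm, Matrix.toLpLin_apply, Matrix.mulVec, dotProduct]

lemma Lm_cont (M : Matrix (Fin 3) (Fin 3) ℝ) : Continuous (Lm M) :=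
  LinearMap.continuous_of_finiteDimensional _

lemma quad {G M : Matrix (Fin 3) (Fin 3) ℝ} (h : M.transpose * G * M = 1) (ζ : E3) :
    ∑ i, ∑ j, G i j * Lm M ζ i * Lm M ζ j = ζ 0 ^ 2 + ζ 1 ^ 2 + ζ 2 ^ 2 := by
  have h1 : ∑ i, ∑ j, G i j * Lm M ζ i * Lm M ζ j
      = (M *ᵥ ζ.ofLp) ⬝ᵥ (G *ᵥ (M *ᵥ ζ.ofLp)) := by
    have hv : ∀ i, Lm M ζ i = (M *ᵥ ζ.ofLp) i := fun i => Lm_apply M ζ i
    simp only [hv]
    generalize M *ᵥ ζ.ofLp = v
    simp only [dotProduct, Matrix.mulVec, Finset.mul_sum]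
    refine Finset.sum_congr rfl fun i _ => Finset.sum_congr rfl fun j _ => ?_
    ring
  have h2 : (M *ᵥ ζ.ofLp) ⬝ᵥ (G *ᵥ (M *ᵥ ζ.ofLp)) = ζ.ofLp ⬝ᵥ ((M.transpose * G * M) *ᵥ ζ.ofLp) := by
    rw [← Matrix.mulVec_mulVec, ← Matrix.mulVec_mulVec, Matrix.dotProduct_mulVec ζ.ofLp,
      ← Matrix.mulVec_transpose M.transpose, Matrix.transpose_transpose]
  rw [h1, h2, h, Matrix.one_mulVec]
  simp [dotProduct, Fin.sum_univ_three, pow_two]

lemma fderiv_sum (W : E3 → ℝ) (x v : E3) : fderiv ℝ W x v = ∑ i, grad W x i * v i := by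
  have h1 : v = ∑ i, v i • EuclideanSpace.single i (1 : ℝ) := by
    ext j
    simp [Finset.sum_apply, Pi.single_apply]
  conv_lhs => rw [h1]
  rw [map_sum]
  refine Finset.sum_congr rfl fun i _ => ?_
  rw [map_smul, smul_eq_mul, mul_comm]
  rfl

lemma fderiv_Lm {W : E3 → ℝ} {x : E3} {M : Matrix (Fin 3) (Fin 3) ℝ} {l : ℝ}
    (h : M.transpose *ᵥ (grad W x) = Pi.single 1 l) (ζ : E3) :
    fderiv ℝ W x (Lm M ζ) = l * ζ 1 := by
  rw [fderiv_sum]
  have h1 : ∑ i, grad W x i * Lm M ζ i = (M.transpose *ᵥ (grad W x)) ⬝ᵥ ζ.ofLp := by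
    rw [Matrix.mulVec_transpose, ← Matrix.dotProduct_mulVec]
    simp [dotProduct, Matrix.mulVec, Lm_apply]
  rw [h1, h]
  simp

/-- the scaling -/
noncomputable def dil (t : ℝ) (z : E3) : E3 := pt (√t * z 0) (t * z 1) (√t * z 2)

lemma dil_eq (M : Matrix (Fin 3) (Fin 3) ℝ) (t : ℝ) (z : E3) :
    Lm M (dil t z) = Matrix.toEuclideanLin (M * Matrix.diagonal ![√t, t, √t]) z := by
  ext i
  rw [Lm_apply]
  simp [Matrix.toLpLin_apply, Matrix.mulVec, dotProduct, Fin.sum_univ_three, dil, pt,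
    Matrix.mul_apply, Matrix.diagonal_apply]
  ring

lemma dil_split (M : Matrix (Fin 3) (Fin 3) ℝ) {t : ℝ} (ht : 0 ≤ t) (z : E3) :
    Lm M (dil t z) = √t • Lm M (pt (z 0) 0 (z 2)) + (√t) ^ 2 • Lm M (pt 0 (z 1) 0) := by
  rw [← map_smul, ← map_smul, ← map_add]
  congr 1
  ext i
  rw [Real.sq_sqrt ht]
  fin_cases i <;> simp [dil, pt]

lemma det_dil (M : Matrix (Fin 3) (Fin 3) ℝ) {t : ℝ} (ht : 0 ≤ t) :
    (M * Matrix.diagonal ![√t, t, √t]).det = M.det * t ^ 2 := by
  rw [Matrix.det_mul, Matrix.det_diagonal]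
  simp only [Fin.prod_univ_three, Matrix.cons_val_zero, Matrix.cons_val_one, Matrix.cons_val]
  have := Real.mul_self_sqrt ht
  have h2 : √t * t * √t = t ^ 2 := by
    calc √t * t * √t = (√t * √t) * t := by ring
      _ = t ^ 2 := by rw [this]; ring
  rw [h2]

lemma pt_cont_zero (a b s : ℝ) : pt a b s = pt a b s := rfl

lemma Lm_bd (M : Matrix (Fin 3) (Fin 3) ℝ) : ∃ C : ℝ, 0 ≤ C ∧ ∀ z : E3, ‖Lm M z‖ ≤ C * ‖z‖ := by
  refine ⟨‖LinearMap.toContinuousLinearMap (Lm M)‖, norm_nonneg _, fun z => ?_⟩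
  exact (LinearMap.toContinuousLinearMap (Lm M)).le_opNorm z

lemma normsq (z : E3) : ‖z‖ ^ 2 = z 0 ^ 2 + z 1 ^ 2 + z 2 ^ 2 := by
  rw [EuclideanSpace.norm_eq, Real.sq_sqrt (by positivity)]
  simp [Fin.sum_univ_three]

lemma sqrt_tendsto : Tendsto (fun t : ℝ => √t) (𝓝[>] 0) (𝓝[>] 0) := by
  refine tendsto_nhdsWithin_iff.2 ⟨?_, ?_⟩
  · have := (Real.continuous_sqrt.tendsto 0).mono_left (nhdsWithin_le_nhds (s := Set.Ioi (0 : ℝ)))
    simpa using this
  · filter_upwards [self_mem_nhdsWithin] with t ht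
    exact Real.sqrt_pos.2 ht

lemma dil_tendsto (M : Matrix (Fin 3) (Fin 3) ℝ) (x z : E3) :
    Tendsto (fun t : ℝ => x + Lm M (dil t z)) (𝓝[>] 0) (𝓝 x) := by
  have h1 : Tendsto (fun t : ℝ => x + (√t • Lm M (pt (z 0) 0 (z 2))
      + (√t) ^ 2 • Lm M (pt 0 (z 1) 0))) (𝓝[>] 0) (𝓝 x) := by
    have hc : Continuous (fun s : ℝ => x + (s • Lm M (pt (z 0) 0 (z 2))
      + s ^ 2 • Lm M (pt 0 (z 1) 0))) := by fun_prop
    have h2 := ((hc.tendsto 0).mono_left (nhdsWithin_le_nhds (s := Set.Ioi (0 : ℝ)))).comp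
      sqrt_tendsto
    have e0 : x + ((0 : ℝ) • Lm M (pt (z 0) 0 (z 2)) + (0 : ℝ) ^ 2 • Lm M (pt 0 (z 1) 0)) = x := by
      simp
    rw [e0] at h2
    exact h2
  refine h1.congr' ?_
  filter_upwards [self_mem_nhdsWithin] with t ht
  rw [dil_split M (le_of_lt ht)]

lemma q_tendsto {g : TensorField} {x : E3} {M : Matrix (Fin 3) (Fin 3) ℝ}
    (hg : ∀ i j, ContinuousAt (fun y => g y i j) x) (h : M.transpose * g x * M = 1) (z : E3) :
    Tendsto (fun t : ℝ => qf g x (x + Lm M (dil t z)) / t) (𝓝[>] 0)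
      (𝓝 (z 0 ^ 2 + z 2 ^ 2)) := by
  set w := Lm M (pt (z 0) 0 (z 2)) with hw
  set u := Lm M (pt 0 (z 1) 0) with hu
  have h1 : Tendsto (fun t : ℝ => (1 / 2 : ℝ) * ∑ i, ∑ j, (g x i j + g (x + Lm M (dil t z)) i j)
      * (w i + √t * u i) * (w j + √t * u j)) (𝓝[>] 0)
      (𝓝 ((1 / 2 : ℝ) * ∑ i, ∑ j, (g x i j + g x i j) * (w i + 0 * u i) * (w j + 0 * u j))) := by
    have hs : Tendsto (fun t : ℝ => √t) (𝓝[>] 0) (𝓝 0) :=
      sqrt_tendsto.mono_right nhdsWithin_le_nhds
    refine Tendsto.const_mul _ (tendsto_finsetSum _ fun i _ => tendsto_finsetSum _ fun j _ => ?_)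
    refine Tendsto.mul (Tendsto.mul (Tendsto.add tendsto_const_nhds ?_) ?_) ?_
    · exact (hg i j).tendsto.comp (dil_tendsto M x z)
    · exact tendsto_const_nhds.add (hs.mul tendsto_const_nhds)
    · exact tendsto_const_nhds.add (hs.mul tendsto_const_nhds)
  have h2 : (1 / 2 : ℝ) * ∑ i, ∑ j, (g x i j + g x i j) * (w i + 0 * u i) * (w j + 0 * u j)
      = z 0 ^ 2 + z 2 ^ 2 := by
    have h3 := quad h (pt (z 0) 0 (z 2))
    rw [pt0, pt1, pt2] at h3
    rw [← hw] at h3
    have h4 : z 0 ^ 2 + z 2 ^ 2 = z 0 ^ 2 + 0 ^ 2 + z 2 ^ 2 := by ring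
    rw [h4, ← h3, Finset.mul_sum]
    refine Finset.sum_congr rfl fun i _ => ?_
    rw [Finset.mul_sum]
    refine Finset.sum_congr rfl fun j _ => ?_
    ring
  rw [h2] at h1
  refine h1.congr' ?_
  filter_upwards [self_mem_nhdsWithin] with t ht
  have ht' : (0 : ℝ) < t := ht
  unfold qf
  rw [mul_div_assoc]
  congr 1
  rw [Finset.sum_div]
  refine Finset.sum_congr rfl fun i _ => ?_
  rw [Finset.sum_div]
  refine Finset.sum_congr rfl fun j _ => ?_
  have e1 : ∀ k : Fin 3, x k - (x + Lm M (dil t z)) k = -(√t * (w k + √t * u k)) := by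
    intro k
    rw [dil_split M ht'.le, ← hw, ← hu]
    simp only [PiLp.add_apply, PiLp.smul_apply, smul_eq_mul]
    ring
  rw [e1 i, e1 j]
  have hst : √t * √t = t := Real.mul_self_sqrt ht'.le
  rw [eq_div_iff ht'.ne']
  conv_lhs => rw [← hst]
  rw [hst]
  calc (g x i j + g (x + Lm M (dil t z)) i j) * (w i + √t * u i) * (w j + √t * u j) * t
      = (g x i j + g (x + Lm M (dil t z)) i j) * (w i + √t * u i) * (w j + √t * u j)
        * (√t * √t) := by rw [hst]
    _ = _ := by ring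

lemma W_tendsto {W : E3 → ℝ} {x : E3} (hW : ContDiffAt ℝ 2 W x) {M : Matrix (Fin 3) (Fin 3) ℝ}
    {l : ℝ} (h : M.transpose *ᵥ (grad W x) = Pi.single 1 l) (z : E3) :
    Tendsto (fun t : ℝ => (W x - W (x + Lm M (dil t z))) / t) (𝓝[>] 0)
      (𝓝 (-(l * z 1 + 1 / 2 * fderiv ℝ (fderiv ℝ W) x (Lm M (pt (z 0) 0 (z 2)))
        (Lm M (pt (z 0) 0 (z 2)))))) := by
  have h1 : fderiv ℝ W x (Lm M (pt (z 0) 0 (z 2))) = 0 := by
    rw [fderiv_Lm h, pt1, mul_zero]
  have h2 := (taylor_lim hW (u := Lm M (pt 0 (z 1) 0)) h1).comp sqrt_tendsto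
  rw [fderiv_Lm h, pt1] at h2
  refine h2.neg.congr' ?_
  filter_upwards [self_mem_nhdsWithin] with t ht
  have ht' : (0 : ℝ) < t := ht
  simp only [Function.comp]
  rw [← dil_split M ht'.le, Real.sq_sqrt ht'.le]
  ring

lemma qf_lower {g : TensorField} {x y : E3} {M : Matrix (Fin 3) (Fin 3) ℝ} (hy : (g y).PosDef)
    (h : M.transpose * g x * M = 1) {t : ℝ} (ht : 0 ≤ t) {z : E3} (hyz : y = x + Lm M (dil t z)) :
    1 / 2 * (t * (z 0 ^ 2 + z 2 ^ 2 + t * z 1 ^ 2)) ≤ qf g x y := by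
  have h1 := quad h (dil t z)
  have h2 : 0 ≤ ∑ i, ∑ j, g y i j * Lm M (dil t z) i * Lm M (dil t z) j := by
    have h3 := hy.posSemidef.dotProduct_mulVec_nonneg (Lm M (dil t z)).ofLp
    refine h3.trans_eq ?_
    simp only [dotProduct, Matrix.mulVec, Finset.mul_sum]
    refine Finset.sum_congr rfl fun i _ => Finset.sum_congr rfl fun j _ => ?_
    simp only [Pi.star_apply, star_trivial]
    ring
  have h4 : qf g x y = 1 / 2 * (∑ i, ∑ j, g x i j * Lm M (dil t z) i * Lm M (dil t z) j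
      + ∑ i, ∑ j, g y i j * Lm M (dil t z) i * Lm M (dil t z) j) := by
    unfold qf
    congr 1
    rw [← Finset.sum_add_distrib]
    refine Finset.sum_congr rfl fun i _ => ?_
    rw [← Finset.sum_add_distrib]
    refine Finset.sum_congr rfl fun j _ => ?_
    have e1 : ∀ k : Fin 3, x k - y k = -(Lm M (dil t z) k) := by
      intro k
      rw [hyz]
      simp only [PiLp.add_apply]
      ring
    rw [e1 i, e1 j]
    ring
  rw [h4, h1]
  have h5 : dil t z 0 ^ 2 + dil t z 1 ^ 2 + dil t z 2 ^ 2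
      = t * (z 0 ^ 2 + z 2 ^ 2 + t * z 1 ^ 2) := by
    simp only [dil, pt0, pt1, pt2, mul_pow, Real.sq_sqrt ht]
    ring
  rw [h5]
  linarith

end MassAux

open MassAux in
/-- the mass of the kernel tends to a constant -/
theorem MASS (hSMO : Stmt_SMO) (hFUB : Stmt_FUB) : Stmt_MASS := by
  classical
  refine ⟨m0c, m0c_pos, ?_⟩
  intro V a b g W hF c d hac hcd hdb
  refine ⟨1, one_pos, fun r0 hr0 _ x hx => ?_⟩
  have hxV : x ∈ V := hx.1
  have hG : (g x).PosDef := hF.metric.posDef x hxV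
  have hp : grad W x ≠ 0 := hF.regular x hxV
  obtain ⟨M, l, hl, hM, hl2, hMp⟩ := exists_frame (g x) hG (grad W x) hp
  have hW2 : ContDiffAt ℝ 2 W x := (hF.contDiffAt hxV).of_le
    (WithTop.coe_le_coe.2 (le_top : (2 : ℕ∞) ≤ ⊤))
  have hgc : ∀ y ∈ V, ∀ i j, ContinuousAt (fun y => g y i j) y := fun y hy i j =>
    ((hF.metric.smooth i j) y hy).contDiffAt (hF.isOpen.mem_nhds hy) |>.continuousAt
  have hdens : ∀ y ∈ V, ContinuousAt (dens g W) y := fun y hy =>
    (hSMO.2 g W y (hF.reg hy)).2.2.2.2.2.2.2.2.1.continuousAt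
  -- determinants
  have hdetM : M.det ^ 2 * (g x).det = 1 := by
    have h1 := congrArg Matrix.det hM
    rw [Matrix.det_mul, Matrix.det_mul, Matrix.det_transpose, Matrix.det_one] at h1
    rw [← h1]; ring
  have hdetM0 : M.det ≠ 0 := by
    intro h0; rw [h0] at hdetM; norm_num at hdetM
  have hlen : len g x (grad W x) = l := by
    unfold len ev
    rw [← hl2, Real.sqrt_sq hl.le]
  have hMd : |M.det| * dens g W x = l := by
    unfold dens volDen
    rw [hlen]
    have h1 : |M.det| * √(g x).det = 1 := by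
      rw [← Real.sqrt_sq_eq_abs, ← Real.sqrt_mul (sq_nonneg _), hdetM, Real.sqrt_one]
    calc |M.det| * (l * √(g x).det) = l * (|M.det| * √(g x).det) := by ring
      _ = l := by rw [h1, mul_one]
  -- the integrand
  set S : Set E3 := slab V W c d with hS
  have hSo : IsOpen S := isOpen_slab hF c d
  set A : ℝ → E3 → ℝ := fun t y => eta (qf g x y / t) * tht ((W x - W y) / t) / t ^ 2 * dens g W y
    with hA
  set O : Set E3 := S ∩ Metric.ball x r0 with hO
  have hOo : IsOpen O := hSo.inter Metric.isOpen_ball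
  set Fy : ℝ → E3 → ℝ := fun t => O.indicator (A t) with hFy
  have hAc : ∀ t, ContinuousOn (A t) O := by
    intro t y hy
    have hyV : y ∈ V := hy.1.1
    refine ContinuousAt.continuousWithinAt ?_
    have h1 : ContinuousAt (fun y => qf g x y / t) y := by
      unfold qf
      refine ContinuousAt.div_const ?_ _
      refine ContinuousAt.mul continuousAt_const ?_
      refine tendsto_finsetSum _ fun i _ => tendsto_finsetSum _ fun j _ => ?_
      refine ContinuousAt.mul (ContinuousAt.mul (continuousAt_const.add (hgc y hyV i j)) ?_) ?_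
      · fun_prop
      · fun_prop
    have h2 : ContinuousAt (fun y => (W x - W y) / t) y :=
      (continuousAt_const.sub (hF.contDiffAt hyV).continuousAt).div_const _
    exact (((eta_cont.continuousAt.comp h1).mul (tht_cont.continuousAt.comp h2)).div_const _).mul
      (hdens y hyV)
  have hFm : ∀ t, Measurable (Fy t) := by
    intro t
    have h1 : Fy t = O.piecewise (A t) (fun _ => 0) := by
      rw [hFy]; exact (Set.piecewise_eq_indicator).symm
    rw [h1]
    exact ContinuousOn.measurable_piecewise (hAc t) continuousOn_const hOo.measurableSet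
  have hint1 : ∀ t, ∫ y in S, ker g W r0 t x y * dens g W y = ∫ y, Fy t y := by
    intro t
    rw [← integral_indicator hSo.measurableSet]
    congr 1
    funext y
    by_cases hyS : y ∈ S
    · rw [Set.indicator_of_mem hyS]
      by_cases hyr : dist x y < r0
      · have hyO : y ∈ O := ⟨hyS, by rw [Metric.mem_ball, dist_comm]; exact hyr⟩
        simp only [hFy, Set.indicator_of_mem hyO, hA, ker, if_pos hyr]
      · have hyO : y ∉ O := fun h => hyr (by
          have := h.2; rw [Metric.mem_ball, dist_comm] at this; exact this)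
        simp only [hFy, Set.indicator_of_notMem hyO, ker, if_neg hyr, zero_mul]
    · have hyO : y ∉ O := fun h => hyS h.1
      rw [Set.indicator_of_notMem hyS]
      simp only [hFy, Set.indicator_of_notMem hyO]
  set Fz : ℝ → E3 → ℝ := fun t z => |M.det * t ^ 2| * Fy t (x + Lm M (dil t z)) with hFz
  have hint2 : ∀ t, 0 < t → ∫ y, Fy t y = ∫ z, Fz t z := by
    intro t ht
    have h1 := integral_affine x (M * Matrix.diagonal ![√t, t, √t]) (by
      rw [det_dil M ht.le]; exact mul_ne_zero hdetM0 (by positivity)) (Fy t)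
    rw [h1, det_dil M ht.le]
    simp only [hFz, dil_eq]
  have hdilc : ∀ t, Continuous (fun z => x + Lm M (dil t z)) := by
    intro t
    simp only [dil_eq]
    exact continuous_const.add (LinearMap.continuous_of_finiteDimensional _)
  -- the value in terms of `z`
  have hval : ∀ t, 0 < t → ∀ z, x + Lm M (dil t z) ∈ O → Fz t z =
      |M.det| * (eta (qf g x (x + Lm M (dil t z)) / t)
        * tht ((W x - W (x + Lm M (dil t z))) / t) * dens g W (x + Lm M (dil t z))) := by
    intro t ht z hz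
    simp only [hFz, hFy, Set.indicator_of_mem hz, hA, abs_mul]
    rw [abs_of_pos (by positivity : 0 < t ^ 2)]
    field_simp
  -- pointwise limit
  set H := fderiv ℝ (fderiv ℝ W) x with hH
  set q : ℝ → ℝ → ℝ := fun a s => 1 / 2 * H (Lm M (pt a 0 s)) (Lm M (pt a 0 s)) with hq
  have hlim : ∀ z, Tendsto (fun t => Fz t z) (𝓝[>] 0) (𝓝 (mod l q z)) := by
    intro z
    have h1 := dil_tendsto M x z
    have h2 := q_tendsto (hgc x hxV) hM z
    have h3 := W_tendsto hW2 hMp z
    have h4 : Tendsto (fun t => dens g W (x + Lm M (dil t z))) (𝓝[>] 0) (𝓝 (dens g W x)) :=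
      (hdens x hxV).tendsto.comp h1
    have h5 := (((eta_cont.tendsto _).comp h2).mul ((tht_cont.tendsto _).comp h3)).mul h4
    have h6 := h5.const_mul |M.det|
    have e1 : |M.det| * (eta (z 0 ^ 2 + z 2 ^ 2) * tht (-(l * z 1 + 1 / 2 * H
        (Lm M (pt (z 0) 0 (z 2))) (Lm M (pt (z 0) 0 (z 2))))) * dens g W x) = mod l q z := by
      unfold mod
      rw [tht_neg]
      simp only [hq]
      rw [← hMd]
      ring
    rw [e1] at h6
    refine h6.congr' ?_
    have hxO : x ∈ O := ⟨hx, Metric.mem_ball_self hr0⟩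
    filter_upwards [h1.eventually (hOo.mem_nhds hxO), self_mem_nhdsWithin] with t ht ht0
    rw [hval t ht0 z ht]
    rfl
  -- domination
  obtain ⟨CM, hCM0, hCM⟩ := Lm_bd M
  obtain ⟨δ, C, hδ, hC, hT⟩ := taylor_bd hW2
  obtain ⟨ρ, hρ, hdb⟩ := Metric.continuousAt_iff.1 (hdens x hxV) 1 one_pos
  set D : ℝ := |dens g W x| + 1 with hD
  have hD0 : 0 ≤ D := by positivity
  set B1 : ℝ := (1 + C * (CM ^ 2 * 2)) / l with hB1
  have hB10 : 0 ≤ B1 := by positivity
  set η : ℝ := min δ ρ with hη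
  have hη0 : 0 < η := lt_min hδ hρ
  have hsmall : ∀ᶠ t : ℝ in 𝓝[>] 0, t < η ^ 2 / (CM ^ 2 * 2 + 1) := by
    refine (eventually_lt_nhds ?_).filter_mono nhdsWithin_le_nhds
    positivity
  have hdom : ∀ᶠ t : ℝ in 𝓝[>] 0, ∀ z, ‖Fz t z‖ ≤
      (Metric.closedBall (0 : E3) (2 + B1)).indicator (fun _ => |M.det| * D) z := by
    filter_upwards [hsmall, self_mem_nhdsWithin] with t hts ht0
    have ht : (0 : ℝ) < t := ht0
    intro z
    have hbn : 0 ≤ (Metric.closedBall (0 : E3) (2 + B1)).indicator (fun _ => |M.det| * D) z :=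
      Set.indicator_nonneg (fun _ _ => by positivity) z
    by_cases hzO : x + Lm M (dil t z) ∈ O
    · rw [hval t ht z hzO]
      set y := x + Lm M (dil t z) with hy
      by_cases he : eta (qf g x y / t) = 0
      · rw [he]; simpa using hbn
      by_cases hth : tht ((W x - W y) / t) = 0
      · rw [hth]; simpa using hbn
      have hq1 : qf g x y / t < 1 := by
        by_contra h; exact he (eta_zero (not_lt.1 h))
      have hw1 : |(W x - W y) / t| < 1 := by
        by_contra h; exact hth (tht_zero (not_lt.1 h))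
      rw [div_lt_one ht] at hq1
      rw [abs_div, abs_of_pos ht, div_lt_one ht] at hw1
      have hyV : y ∈ V := hzO.1.1
      have hlow := qf_lower (hF.metric.posDef y hyV) hM ht.le hy
      have h1 : z 0 ^ 2 + z 2 ^ 2 + t * z 1 ^ 2 < 2 := by
        have h2 : t * (z 0 ^ 2 + z 2 ^ 2 + t * z 1 ^ 2) < t * 2 := by linarith
        exact lt_of_mul_lt_mul_left h2 ht.le
      have hnd : ‖dil t z‖ ^ 2 ≤ t * 2 := by
        rw [normsq]
        simp only [dil, pt0, pt1, pt2, mul_pow, Real.sq_sqrt ht.le]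
        nlinarith
      have hnv : ‖Lm M (dil t z)‖ ^ 2 ≤ CM ^ 2 * 2 * t := by
        calc ‖Lm M (dil t z)‖ ^ 2 ≤ (CM * ‖dil t z‖) ^ 2 :=
              pow_le_pow_left₀ (norm_nonneg _) (hCM _) 2
          _ = CM ^ 2 * ‖dil t z‖ ^ 2 := by ring
          _ ≤ CM ^ 2 * (t * 2) := mul_le_mul_of_nonneg_left hnd (sq_nonneg _)
          _ = CM ^ 2 * 2 * t := by ring
      have hnη : ‖Lm M (dil t z)‖ < η := by
        rw [lt_div_iff₀ (by positivity)] at hts
        have h3 : ‖Lm M (dil t z)‖ ^ 2 < η ^ 2 := by nlinarith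
        exact lt_of_pow_lt_pow_left₀ 2 hη0.le h3
      have hTv := hT _ (hnη.trans_le (min_le_left _ _))
      rw [← hy, fderiv_Lm hMp] at hTv
      have hd1 : dil t z 1 = t * z 1 := pt1 _ _ _
      rw [hd1] at hTv
      have hz1 : |z 1| ≤ B1 := by
        rw [hB1, le_div_iff₀ hl]
        have h4 : |l * (t * z 1)| ≤ t + C * (CM ^ 2 * 2 * t) := by
          have h5 : l * (t * z 1) = -(W y - W x - l * (t * z 1)) - (W x - W y) := by ring
          rw [h5]
          refine (abs_sub _ _).trans ?_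
          rw [abs_neg]
          have h6 : C * ‖Lm M (dil t z)‖ ^ 2 ≤ C * (CM ^ 2 * 2 * t) :=
            mul_le_mul_of_nonneg_left hnv hC
          linarith
        rw [abs_mul, abs_mul, abs_of_pos hl, abs_of_pos ht] at h4
        have h7 : t * (|z 1| * l) ≤ t * (1 + C * (CM ^ 2 * 2)) := by linarith
        exact le_of_mul_le_mul_left h7 ht
      have hzR : z ∈ Metric.closedBall (0 : E3) (2 + B1) := by
        rw [mem_closedBall_zero_iff]
        have h8 : ‖z‖ ^ 2 ≤ (2 + B1) ^ 2 := by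
          rw [normsq]
          have h9 : z 1 ^ 2 ≤ B1 ^ 2 := by
            rw [← sq_abs]; exact pow_le_pow_left₀ (abs_nonneg _) hz1 2
          nlinarith [mul_nonneg ht.le (sq_nonneg (z 1))]
        exact le_of_sq_le_sq h8 (by positivity)
      rw [Set.indicator_of_mem hzR, Real.norm_eq_abs, abs_mul, abs_abs]
      refine mul_le_mul_of_nonneg_left ?_ (abs_nonneg _)
      have hdy : |dens g W y| ≤ D := by
        have h10 : dist y x < ρ := by
          rw [hy, dist_eq_norm, add_sub_cancel_left]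
          exact hnη.trans_le (min_le_right _ _)
        have h11 := hdb h10
        rw [Real.dist_eq] at h11
        have h12 := abs_sub_abs_le_abs_sub (dens g W y) (dens g W x)
        rw [hD]; linarith
      rw [abs_mul, abs_mul, abs_of_nonneg (eta_nonneg _), abs_of_nonneg (tht_nonneg _)]
      calc eta (qf g x y / t) * tht ((W x - W y) / t) * |dens g W y|
          ≤ 1 * 1 * D := by
            refine mul_le_mul (mul_le_mul (eta_le_one _) (tht_le_one _) (tht_nonneg _)
              zero_le_one) hdy (abs_nonneg _) (by norm_num)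
        _ = D := by ring
    · simp only [hFz, hFy, Set.indicator_of_notMem hzO, mul_zero, norm_zero]
      exact hbn
  have hbint : Integrable ((Metric.closedBall (0 : E3) (2 + B1)).indicator
      (fun _ => |M.det| * D)) volume := by
    rw [integrable_indicator_iff measurableSet_closedBall]
    exact integrableOn_const (isCompact_closedBall (0 : E3) (2 + B1)).measure_lt_top.ne
  have hFzm : ∀ t, AEStronglyMeasurable (Fz t) volume := fun t =>
    (((hFm t).comp (hdilc t).measurable).const_mul _).aestronglyMeasurable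
  have hDCT := tendsto_integral_filter_of_dominated_convergence _
    (Eventually.of_forall hFzm) (hdom.mono fun t ht => Eventually.of_forall ht) hbint
    (Eventually.of_forall hlim)
  have hqc : Continuous (Function.uncurry q) := by
    have h1 : Continuous (fun r : ℝ × ℝ => Lm M (pt r.1 0 r.2)) := by
      refine (Lm_cont M).comp ?_
      unfold pt
      fun_prop
    have h2 : Function.uncurry q = fun r : ℝ × ℝ => 1 / 2 * H (Lm M (pt r.1 0 r.2))
        (Lm M (pt r.1 0 r.2)) := by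
      funext r; rfl
    rw [h2]
    fun_prop
  rw [mod_int hFUB l hl q hqc] at hDCT
  refine hDCT.congr' ?_
  filter_upwards [self_mem_nhdsWithin] with t ht
  rw [hint1 t, hint2 t ht]

end Pool.Agent.PFlow.GB


end
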