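import Mathlib
import Pool.Agent.PFlow.StmtsE2
import Pool.Agent.PFlow.StmtsM
import Pool.Agent.PenroseM.C03
import Pool.Agent.PenroseM.C05
import Pool.Agent.PenroseM.C07
import Pool.Agent.PenroseM.C08
import Pool.Agent.PenroseM.C09
import Pool.Agent.PenroseM.C12
import Pool.Agent.PenroseM.C13
import Pool.Agent.PenroseM.C14
import Pool.Agent.PenroseM.C15
import Pool.Agent.PenroseM.C17
import Pool.Agent.PenroseM.C18
import Pool.Agent.PenroseM.C19
import Pool.Agent.PenroseM.C20
import Pool.Agent.PenroseM.C23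
import Pool.Agent.PenroseM.C25
import Pool.Agent.PenroseM.C27
import Pool.Agent.PenroseM.C29
import Pool.Agent.PenroseM.C30
import Pool.Agent.PenroseM.C31
import Pool.Agent.PenroseM.C32
import Pool.Agent.PenroseM.C33
import Pool.Agent.PenroseM.C34
import Pool.Agent.PenroseM.C35
import Pool.Agent.PenroseM.C37
import Pool.Agent.PenroseM.C38
import Pool.Agent.PenroseM.C41
import Pool.Agent.PenroseM.C42
import Pool.Agent.PenroseM.C44
import Pool.Agent.PenroseM.C45
import Pool.Agent.PenroseM.C46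
import Pool.Agent.PenroseM.C49
import Pool.Agent.PenroseM.C50
import Pool.Agent.PenroseM.C53
import Pool.Agent.PenroseM.C55
import Pool.Agent.PenroseM.C56
import Pool.Agent.PenroseM.C57
import Pool.Agent.PenroseM.C58
import Pool.Agent.PenroseM.C59
import Pool.Agent.PenroseM.C60
import Pool.Agent.PenroseM.C61
import Pool.Agent.PenroseM.C62
import Pool.Agent.PenroseM.C63

/-! Parts: PFlow.G.BOCH, PFlow.G.NULL, PFlow.G.LOW, PFlow.G.GBC, PFlow.G.All, PFlow.M_KER, PFlow.M_H2I, PFlow.M_LSA, PFlow.M_Main, PFlow.E.BARR -/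

section

/-!
# Block GB: (BOCH), the Bochner formula on the leaves

The formula is written in local coordinates adapted to the leaves, where it is (BO2).
-/

open MeasureTheory Filter Topology
open scoped ContDiff

namespace Pool.Agent.PFlow.GB

open Pool.Agent.PenroseSph Pool.Agent.PFlow

namespace BOCHaux

open Pool.Agent.PenroseConvex (pullback ChangeAt)

/-! ### Congruence -/

lemma grad_congr {f f' : E3 → ℝ} {x : E3} (h : f =ᶠ[𝓝 x] f') : grad f x = grad f' x := by
  funext i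
  exact pd_congr h

lemma hess2_congr {f f' : E3 → ℝ} {x : E3} (h : f =ᶠ[𝓝 x] f') : hess2 f x = hess2 f' x := by
  ext i j
  simp only [hess2, Matrix.of_apply]
  refine pd_congr ?_
  filter_upwards [h.eventuallyEq_nhds] with y hy
  exact pd_congr hy

lemma lin_congr {g : TensorField} {W W' f f' h h' : E3 → ℝ} {x : E3} (hW : W =ᶠ[𝓝 x] W')
    (hf : f =ᶠ[𝓝 x] f') (hh : h =ᶠ[𝓝 x] h') : lin g W f h x = lin g W' f' h' x := by
  unfold lin
  rw [grad_congr hW, grad_congr hf, grad_congr hh]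

lemma lap_congr {g : TensorField} {W W' f f' : E3 → ℝ} {x : E3} (hW : W =ᶠ[𝓝 x] W')
    (hf : f =ᶠ[𝓝 x] f') : lap g W f x = lap g W' f' x := by
  have hd : ∀ᶠ y in 𝓝 x, dens g W y = dens g W' y := by
    filter_upwards [hW.eventuallyEq_nhds] with y hy
    unfold dens
    rw [grad_congr hy]
  have hl : ∀ᶠ y in 𝓝 x, lgrad g W f y = lgrad g W' f' y := by
    filter_upwards [hW.eventuallyEq_nhds, hf.eventuallyEq_nhds] with y hy hy'
    unfold lgrad
    rw [grad_congr hy, grad_congr hy']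
  unfold lap ldiv
  rw [hd.self_of_nhds]
  congr 1
  refine Finset.sum_congr rfl fun i _ => ?_
  refine pd_congr ?_
  filter_upwards [hd, hl] with y h1 h2
  rw [h1, h2]

lemma curv_congr {g : TensorField} {W W' : E3 → ℝ} {x : E3} (hW : W =ᶠ[𝓝 x] W') :
    curv g W x = curv g W' x := by
  unfold curv
  rw [grad_congr hW, hess2_congr hW]

lemma lin2_congr {g : TensorField} {f f' h h' : E3 → ℝ} {x : E3}
    (hf : f =ᶠ[𝓝 x] f') (hh : h =ᶠ[𝓝 x] h') : lin2 g f h x = lin2 g f' h' x := by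
  unfold lin2
  rw [pd_congr (i := 0) hf, pd_congr (i := 1) hf, pd_congr (i := 0) hh, pd_congr (i := 1) hh]

lemma lap2_congr {g : TensorField} {f f' : E3 → ℝ} {x : E3}
    (hf : f =ᶠ[𝓝 x] f') : lap2 g f x = lap2 g f' x := by
  have h0 : ∀ i, ∀ᶠ y in 𝓝 x, pd i f y = pd i f' y := by
    intro i
    filter_upwards [hf.eventuallyEq_nhds] with y hy
    exact pd_congr hy
  unfold lap2
  congr 1
  congr 1
  · refine pd_congr ?_
    filter_upwards [h0 0, h0 1] with y h1 h2
    rw [h1, h2]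
  · refine pd_congr ?_
    filter_upwards [h0 0, h0 1] with y h1 h2
    rw [h1, h2]

/-! ### The pull-back metric -/

lemma pullback_apply (Φ : E3 → E3) (G : TensorField) (y : E3) (i j : Fin 3) :
    pullback Φ G y i j = ∑ a, ∑ b, Pool.Agent.PenroseConvex.jac Φ y a i * G (Φ y) a b
      * Pool.Agent.PenroseConvex.jac Φ y b j := by
  rw [pullback, Matrix.mul_apply, Finset.sum_comm]
  refine Finset.sum_congr rfl fun b _ => ?_
  rw [Matrix.mul_apply, Finset.sum_mul]
  rfl

lemma coord_contDiffAt {Φ : E3 → E3} {x : E3} (h : ContDiffAt ℝ ∞ Φ x) (a : Fin 3) :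
    ContDiffAt ℝ ∞ (fun y => Φ y a) x :=
  (EuclideanSpace.proj a : E3 →L[ℝ] ℝ).contDiff.contDiffAt.comp x h

lemma pd_contDiffAt {f : E3 → ℝ} {x : E3} (h : ContDiffAt ℝ ∞ f x) (i : Fin 3) :
    ContDiffAt ℝ ∞ (pd i f) x := by
  have h1 : ContDiffAt ℝ ∞ (fderiv ℝ f) x := h.fderiv_right (m := ∞) (by simp)
  exact h1.clm_apply contDiffAt_const

lemma jac_contDiffAt {Φ : E3 → E3} {x : E3} (h : ContDiffAt ℝ ∞ Φ x) (a i : Fin 3) :
    ContDiffAt ℝ ∞ (fun y => Pool.Agent.PenroseConvex.jac Φ y a i) x := by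
  simp only [Pool.Agent.PenroseConvex.jac, Matrix.of_apply]
  exact pd_contDiffAt (coord_contDiffAt h a) i

lemma pullback_contDiffAt {Φ : E3 → E3} {G : TensorField} {x : E3} (h : ContDiffAt ℝ ∞ Φ x)
    (hG : ∀ i j, ContDiffAt ℝ ∞ (fun y => G y i j) (Φ x)) (i j : Fin 3) :
    ContDiffAt ℝ ∞ (fun y => pullback Φ G y i j) x := by
  simp only [pullback_apply]
  refine ContDiffAt.sum fun a _ => ContDiffAt.sum fun b _ => ?_
  refine ((jac_contDiffAt h a i).mul ?_).mul (jac_contDiffAt h b j)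
  exact ContDiffAt.comp x (hG a b) h

/-- The components of the derivative are the partial derivatives of the components. -/
lemma fderiv_coord {Φ : E3 → E3} {x : E3} (h : DifferentiableAt ℝ Φ x) (v : E3) (c : Fin 3) :
    (fderiv ℝ Φ x v) c = fderiv ℝ (fun y => Φ y c) x v := by
  have h1 : HasFDerivAt (fun y => Φ y c)
      ((EuclideanSpace.proj c : E3 →L[ℝ] ℝ).comp (fderiv ℝ Φ x)) x :=
    (EuclideanSpace.proj c : E3 →L[ℝ] ℝ).hasFDerivAt.comp x h.hasFDerivAt
  rw [h1.fderiv]
  rfl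

lemma det_jac {Φ : E3 → E3} {x : E3} (h : DifferentiableAt ℝ Φ x) :
    (Pool.Agent.PenroseConvex.jac Φ x).det = (fderiv ℝ Φ x).det := by
  have h1 : Pool.Agent.PenroseConvex.jac Φ x = LinearMap.toMatrix
      (EuclideanSpace.basisFun (Fin 3) ℝ).toBasis (EuclideanSpace.basisFun (Fin 3) ℝ).toBasis
      (fderiv ℝ Φ x : E3 →ₗ[ℝ] E3) := by
    ext a i
    rw [LinearMap.toMatrix_apply]
    simp only [Pool.Agent.PenroseConvex.jac, Matrix.of_apply, OrthonormalBasis.coe_toBasis,
      EuclideanSpace.basisFun_apply, OrthonormalBasis.coe_toBasis_repr_apply,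
      EuclideanSpace.basisFun_repr, ContinuousLinearMap.coe_coe]
    rw [fderiv_coord h]
    rfl
  rw [h1, LinearMap.det_toMatrix]

/-- The pull-back of a smooth metric is a change of coordinates. -/
lemma changeAt_of {Φ : E3 → E3} {G : TensorField} {O N : Set E3} (hO : IsOpen O) (hN : IsOpen N)
    (hM : MetricOn O G) (hΦ : ContDiffOn ℝ ∞ Φ N) (hmaps : Set.MapsTo Φ N O)
    (hdet : ∀ z ∈ N, (fderiv ℝ Φ z).det ≠ 0) {y : E3} (hy : y ∈ N) :
    ChangeAt Φ G (pullback Φ G) y := by
  have hs : ContDiffAt ℝ ∞ Φ y := (hΦ y hy).contDiffAt (hN.mem_nhds hy)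
  refine ⟨hs, ?_, ?_, ?_, ?_, Filter.Eventually.of_forall fun _ => rfl⟩
  · intro i j
    exact (hM.smooth i j _ (hmaps hy)).contDiffAt (hO.mem_nhds (hmaps hy))
  · filter_upwards [hO.mem_nhds (hmaps hy)] with z hz
    have h := (hM.posDef z hz).isHermitian
    rw [Matrix.IsHermitian, Matrix.conjTranspose_eq_transpose_of_trivial] at h
    exact h
  · exact (hM.posDef _ (hmaps hy)).det_pos.ne'
  · rw [det_jac (hs.differentiableAt (by simp))]
    exact hdet y hy

lemma pullback_posDef {Φ : E3 → E3} {G : TensorField} {y : E3}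
    (hG : (G (Φ y)).PosDef) (hdet : (Pool.Agent.PenroseConvex.jac Φ y).det ≠ 0) :
    (pullback Φ G y).PosDef := by
  have h := hG.conjTranspose_mul_mul_same (B := Pool.Agent.PenroseConvex.jac Φ y)
    (Matrix.mulVec_injective_of_isUnit
      ((Matrix.isUnit_iff_isUnit_det _).2 (isUnit_iff_ne_zero.2 hdet)))
  rw [Matrix.conjTranspose_eq_transpose_of_trivial] at h
  exact h

lemma reg_pullback {Φ : E3 → E3} {G : TensorField} {O N : Set E3} (hO : IsOpen O) (hN : IsOpen N)
    (hM : MetricOn O G) (hΦ : ContDiffOn ℝ ∞ Φ N) (hmaps : Set.MapsTo Φ N O)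
    (hdet : ∀ z ∈ N, (fderiv ℝ Φ z).det ≠ 0) {y : E3} (hy : y ∈ N) :
    Reg (pullback Φ G) (fun z => z 2) y := by
  refine ⟨N, hN, hy, ⟨?_, ?_⟩, ?_, ?_⟩
  · intro i j z hz
    have hc := changeAt_of hO hN hM hΦ hmaps hdet hz
    exact (pullback_contDiffAt hc.smooth hc.smooth_G i j).contDiffWithinAt
  · intro z hz
    have hc := changeAt_of hO hN hM hΦ hmaps hdet hz
    exact pullback_posDef (hM.posDef _ (hmaps hz)) hc.det_jac
  · exact ((EuclideanSpace.proj 2 : E3 →L[ℝ] ℝ).contDiff).contDiffOn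
  · intro z _ h0
    have h1 := congrFun h0 2
    simp [grad, pd_coord] at h1

lemma two_le_inf : (2 : WithTop ℕ∞) ≤ ∞ := WithTop.coe_le_coe.2 le_top

end BOCHaux

open BOCHaux Pool.Agent.PenroseConvex in
/-- **(BOCH)** -/
theorem BOCH (hSMO : Stmt_SMO) (hCOVG : Stmt_COVG) (hADAP : Stmt_ADAP) (hBO2 : Stmt_BO2)
    (hCHL : Stmt_CHL) : Stmt_BOCH := by
  intro g W x hR φ hφ
  have hsm := (hSMO.2 g W x hR).2.2.2.2.2.2.2.2.2.2.2.2.1
  have hf := (hsm φ φ hφ hφ).1
  have hl := (hsm φ φ hφ hφ).2.1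
  obtain ⟨O, hO, hxO, hM, hW, hgr⟩ := hR
  obtain ⟨Φ, z0, N, hN, hz0, hΦz, -, hΦ, -, hmaps, hdet, hWΦ⟩ :=
    hCHL O W x hO hW hxO (hgr x hxO)
  have hch : ∀ y ∈ N, ChangeAt Φ g (pullback Φ g) y := fun y hy =>
    changeAt_of hO hN hM hΦ hmaps hdet hy
  have hReg : ∀ y ∈ N, Reg g W (Φ y) := fun y hy => ⟨O, hO, hmaps hy, hM, hW, hgr⟩
  have hReg2 : ∀ y ∈ N, Reg (pullback Φ g) (fun z => z 2) y := fun y hy =>
    reg_pullback hO hN hM hΦ hmaps hdet hy
  have hWe : ∀ y ∈ N, (fun z => W (Φ z)) =ᶠ[𝓝 y] fun z => z 2 := fun y hy => by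
    filter_upwards [hN.mem_nhds hy] with z hz
    exact hWΦ z hz
  have hΦc : ∀ y ∈ N, ContDiffAt ℝ ∞ Φ y := fun y hy => (hch y hy).smooth
  have hlin : ∀ y ∈ N, ∀ f h : E3 → ℝ, DifferentiableAt ℝ f (Φ y) → DifferentiableAt ℝ h (Φ y) →
      lin g W f h (Φ y)
        = lin2 (pullback Φ g) (fun z => f (Φ z)) (fun z => h (Φ z)) y := by
    intro y hy f h hfd hhd
    rw [← (hCOVG Φ g (pullback Φ g) y W (hch y hy) (hReg y hy)).1 f h hfd hhd,
      lin_congr (hWe y hy) (EventuallyEq.refl _ _) (EventuallyEq.refl _ _)]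
    have hΦd : DifferentiableAt ℝ Φ y := (hΦc y hy).differentiableAt (by simp)
    exact (hADAP _ y (hReg2 y hy)).2.1 _ _ (hfd.comp y hΦd) (hhd.comp y hΦd)
  have hlap : ∀ y ∈ N, ∀ f : E3 → ℝ, ContDiffAt ℝ 2 f (Φ y) →
      lap g W f (Φ y) = lap2 (pullback Φ g) (fun z => f (Φ z)) y := by
    intro y hy f hfd
    rw [← (hCOVG Φ g (pullback Φ g) y W (hch y hy) (hReg y hy)).2.1 f hfd,
      lap_congr (hWe y hy) (EventuallyEq.refl _ _)]
    have hΦd : ContDiffAt ℝ 2 Φ y := (hΦc y hy).of_le two_le_inf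
    exact (hADAP _ y (hReg2 y hy)).2.2.1 _ (ContDiffAt.comp y hfd hΦd)
  have hcurv : curv g W (Φ z0) = K2 (pullback Φ g) z0 := by
    rw [← (hCOVG Φ g (pullback Φ g) z0 W (hch z0 hz0) (hReg z0 hz0)).2.2,
      curv_congr (hWe z0 hz0)]
    exact (hADAP _ z0 (hReg2 z0 hz0)).2.2.2
  have hcont : Tendsto Φ (𝓝 z0) (𝓝 (Φ z0)) := (hΦc z0 hz0).continuousAt
  have hφ' : ContDiffAt ℝ ∞ φ (Φ z0) := by rw [hΦz]; exact hφ
  have hf' : ContDiffAt ℝ ∞ (lin g W φ φ) (Φ z0) := by rw [hΦz]; exact hf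
  have hl' : ContDiffAt ℝ ∞ (lap g W φ) (Φ z0) := by rw [hΦz]; exact hl
  have le2 := two_le_inf
  have hφ2 : ∀ᶠ y in 𝓝 z0, ContDiffAt ℝ 2 φ (Φ y) :=
    hcont.eventually ((hφ'.of_le le2).eventually (by simp))
  have hNz : ∀ᶠ y in 𝓝 z0, y ∈ N := hN.mem_nhds hz0
  have he1 : (fun z => lin g W φ φ (Φ z)) =ᶠ[𝓝 z0]
      lin2 (pullback Φ g) (fun z => φ (Φ z)) (fun z => φ (Φ z)) := by
    filter_upwards [hφ2, hNz] with y h1 h2
    exact hlin y h2 φ φ (h1.differentiableAt (by norm_num)) (h1.differentiableAt (by norm_num))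
  have he2 : (fun z => lap g W φ (Φ z)) =ᶠ[𝓝 z0] lap2 (pullback Φ g) (fun z => φ (Φ z)) := by
    filter_upwards [hφ2, hNz] with y h1 h2
    exact hlap y h2 φ h1
  have hφd : DifferentiableAt ℝ φ (Φ z0) := hφ'.differentiableAt (by simp)
  have hfd : DifferentiableAt ℝ (lin g W φ φ) (Φ z0) := hf'.differentiableAt (by simp)
  have hld : DifferentiableAt ℝ (lap g W φ) (Φ z0) := hl'.differentiableAt (by simp)
  have e1 := hlin z0 hz0 φ φ hφd hφd
  have e2 := hlap z0 hz0 φ (hφ'.of_le le2)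
  have e3 := hlap z0 hz0 (lin g W φ φ) (hf'.of_le le2)
  have e4 := hlin z0 hz0 φ (lap g W φ) hφd hld
  have e5 := hlin z0 hz0 (lin g W φ φ) (lin g W φ φ) hfd hfd
  have e6 := hlin z0 hz0 (lin g W φ φ) φ hfd hφd
  rw [lap2_congr he1] at e3
  rw [lin2_congr (EventuallyEq.refl _ _) he2] at e4
  rw [lin2_congr he1 he1] at e5
  rw [lin2_congr he1 (EventuallyEq.refl _ _)] at e6
  have key := hBO2 (pullback Φ g) z0
    (fun i j => pullback_contDiffAt (hΦc z0 hz0) (hch z0 hz0).smooth_G i j) (by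
      filter_upwards [hNz] with y hy
      have h := (hch y hy).symm_G.self_of_nhds
      rw [pullback_apply, pullback_apply, Finset.sum_comm]
      refine Finset.sum_congr rfl fun a _ => Finset.sum_congr rfl fun b _ => ?_
      rw [show g (Φ y) b a = g (Φ y) a b from h.apply a b]
      ring)
    (hADAP _ z0 (hReg2 z0 hz0)).1 (fun z => φ (Φ z)) (ContDiffAt.comp z0 hφ' (hΦc z0 hz0))
  rw [← hcurv, ← e1, ← e2, ← e3, ← e4, ← e5, ← e6, hΦz] at key
  exact key

end Pool.Agent.PFlow.GB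


end

section

/-!
# Block GB: (NULL), properties of `NullOn`
-/

open MeasureTheory Filter Topology
open scoped ContDiff

namespace Pool.Agent.PFlow.GB

open Pool.Agent.PenroseSph Pool.Agent.PFlow

namespace NullAux

variable {V : Set E3} {a b : ℝ} {g : TensorField} {W : E3 → ℝ} {c d : ℝ}

/-- Almost everywhere measurable and bounded on the slab. -/
def Adm (V : Set E3) (W : E3 → ℝ) (c d : ℝ) (φ : E3 → ℝ) : Prop :=
  AEStronglyMeasurable φ (volume.restrict (slab V W c d)) ∧
    ∃ B : ℝ, ∀ x ∈ slab V W c d, |φ x| ≤ B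

lemma Adm.int (h : Fol V a b g W) (hc : a < c) (hd : d < b) {φ : E3 → ℝ}
    (hφ : Adm V W c d φ) : IntegrableOn φ (slab V W c d) := by
  obtain ⟨hm, B, hB⟩ := hφ
  refine IntegrableOn.of_bound (volume_slab_lt_top h hc hd) hm B ?_
  rw [ae_restrict_iff' (measurableSet_slab h c d)]
  exact Eventually.of_forall fun x hx => by rw [Real.norm_eq_abs]; exact hB x hx

lemma Adm.mul {φ χ : E3 → ℝ} (hφ : Adm V W c d φ) (hχ : Adm V W c d χ) :
    Adm V W c d (fun x => φ x * χ x) := by
  obtain ⟨hm, B, hB⟩ := hφ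
  obtain ⟨hm', B', hB'⟩ := hχ
  refine ⟨hm.mul hm', B * B', fun x hx => ?_⟩
  rw [abs_mul]
  exact mul_le_mul (hB x hx) (hB' x hx) (abs_nonneg _) ((abs_nonneg _).trans (hB x hx))

lemma Adm.abs {φ : E3 → ℝ} (hφ : Adm V W c d φ) : Adm V W c d (fun x => |φ x|) := by
  obtain ⟨hm, B, hB⟩ := hφ
  refine ⟨hm.norm, B, fun x hx => ?_⟩
  rw [abs_abs]
  exact hB x hx

lemma adm_of_continuousOn (h : Fol V a b g W) (hc : a < c) (hd : d < b) {f : E3 → ℝ}
    (hf : ContinuousOn f V) : Adm V W c d f := by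
  refine ⟨(hf.mono (slab_subset c d)).aestronglyMeasurable (measurableSet_slab h c d), ?_⟩
  obtain ⟨B, hB⟩ := (h.proper c d hc hd).exists_bound_of_continuousOn (hf.mono (cslab_subset c d))
  exact ⟨B, fun x hx => by simpa [Real.norm_eq_abs] using hB x (slab_subset_cslab c d hx)⟩

lemma adm_of_bddMeas {ρ : E3 → ℝ} (hρ : BddMeas ρ) : Adm V W c d ρ := by
  obtain ⟨hm, B, hB⟩ := hρ
  exact ⟨hm.aestronglyMeasurable, B, fun x _ => hB x⟩

lemma adm_comp (h : Fol V a b g W) {α : ℝ → ℝ} (hα : BddMeasR α) :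
    Adm V W c d (fun x => α (W x)) := by
  obtain ⟨hm, B, hB⟩ := hα
  refine ⟨?_, B, fun x _ => hB _⟩
  have hW : AEMeasurable W (volume.restrict (slab V W c d)) :=
    (h.continuousOn.mono (slab_subset c d)).aemeasurable (measurableSet_slab h c d)
  exact (hm.comp_aemeasurable hW).aestronglyMeasurable

lemma continuousOn_lin (hSMO : Stmt_SMO) (h : Fol V a b g W) {v : E3 → ℝ}
    (hv : ContDiffOn ℝ 1 v V) : ContinuousOn (lin g W v v) V := by
  intro x hx
  have hv' : ContDiffAt ℝ ((0 + 1 : ℕ) : WithTop ℕ∞) v x := by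
    simpa using (hv x hx).contDiffAt (h.isOpen.mem_nhds hx)
  obtain ⟨-, -, -, -, -, -, -, -, -, -, -, -, -, hlin, -⟩ := hSMO.2 g W x (h.reg hx)
  exact (hlin 0 v v hv' hv').1.continuousAt.continuousWithinAt

lemma continuousOn_dens (hSMO : Stmt_SMO) (h : Fol V a b g W) : ContinuousOn (dens g W) V := by
  intro x hx
  obtain ⟨-, -, -, -, -, -, -, -, hdens, -⟩ := hSMO.2 g W x (h.reg hx)
  exact hdens.continuousAt.continuousWithinAt

lemma dens_pos (hSMO : Stmt_SMO) (h : Fol V a b g W) {x : E3} (hx : x ∈ V) : 0 < dens g W x := by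
  obtain ⟨-, -, -, hpos, -⟩ := hSMO.2 g W x (h.reg hx)
  exact hpos

lemma lin_nonneg (hRUL : Stmt_RUL) (h : Fol V a b g W) {x : E3} (hx : x ∈ V) (v : E3 → ℝ) :
    0 ≤ lin g W v v x := ((hRUL g W x (h.reg hx)).2.2.1 v v).2.1

lemma lin_const (x : E3) (k : ℝ) : lin g W (fun _ => k) (fun _ => k) x = 0 := by
  have h0 : grad (fun _ : E3 => k) x = 0 := by
    funext i
    simp [grad, pd]
  unfold lin lip ev
  rw [h0]
  simp

lemma adm_sqrt_lin (hSMO : Stmt_SMO) (h : Fol V a b g W) (hc : a < c) (hd : d < b)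
    {v : E3 → ℝ} (hv : ContDiffOn ℝ 1 v V) :
    Adm V W c d (fun x => Real.sqrt (lin g W v v x)) :=
  adm_of_continuousOn h hc hd (continuousOn_lin hSMO h hv).sqrt

/-- The Cauchy-Schwarz inequality for the measure `m dx`. -/
lemma cs (hSMO : Stmt_SMO) (hRUL : Stmt_RUL) (h : Fol V a b g W) (hc : a < c) (hd : d < b)
    {v : E3 → ℝ} (hv : ContDiffOn ℝ 1 v V) :
    ∫ x in slab V W c d, Real.sqrt (lin g W v v x) * dens g W x ≤
      Real.sqrt (∫ x in slab V W c d, dens g W x)
        * Real.sqrt (∫ x in slab V W c d, lin g W v v x * dens g W x) := by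
  have hD : Adm V W c d (dens g W) := adm_of_continuousOn h hc hd (continuousOn_dens hSMO h)
  have hL : Adm V W c d (lin g W v v) := adm_of_continuousOn h hc hd (continuousOn_lin hSMO h hv)
  have hS := adm_sqrt_lin hSMO h hc hd hv
  have iD := hD.int h hc hd
  have iL := (hL.mul hD).int h hc hd
  have iS := (hS.mul hD).int h hc hd
  have hM := measurableSet_slab h c d
  set A := ∫ x in slab V W c d, lin g W v v x * dens g W x with hA
  set D := ∫ x in slab V W c d, dens g W x with hDD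
  set I := ∫ x in slab V W c d, Real.sqrt (lin g W v v x) * dens g W x with hI
  have hquad : ∀ t : ℝ, 0 ≤ A * (t * t) + (-(2 * I)) * t + D := by
    intro t
    have h1 : A * (t * t) + (-(2 * I)) * t + D =
        ∫ x in slab V W c d, (t * Real.sqrt (lin g W v v x) - 1) ^ 2 * dens g W x := by
      have h2 : ∫ x in slab V W c d, (t * Real.sqrt (lin g W v v x) - 1) ^ 2 * dens g W x =
          ∫ x in slab V W c d, ((t * t) * (lin g W v v x * dens g W x)
            + (-(2 * t)) * (Real.sqrt (lin g W v v x) * dens g W x) + dens g W x) := by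
        refine setIntegral_congr_fun hM fun x hx => ?_
        have h3 := Real.sq_sqrt (lin_nonneg hRUL h (slab_subset c d hx) v)
        show (t * Real.sqrt (lin g W v v x) - 1) ^ 2 * dens g W x =
          (t * t) * (lin g W v v x * dens g W x)
            + (-(2 * t)) * (Real.sqrt (lin g W v v x) * dens g W x) + dens g W x
        generalize Real.sqrt (lin g W v v x) = s at *
        rw [← h3]
        ring
      have i1 : IntegrableOn (fun x => (t * t) * (lin g W v v x * dens g W x)) (slab V W c d) :=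
        iL.const_mul _
      have i2 : IntegrableOn (fun x => (-(2 * t)) * (Real.sqrt (lin g W v v x) * dens g W x))
        (slab V W c d) := iS.const_mul _
      have i12 : IntegrableOn (fun x => (t * t) * (lin g W v v x * dens g W x)
        + (-(2 * t)) * (Real.sqrt (lin g W v v x) * dens g W x)) (slab V W c d) := i1.add i2
      rw [h2, integral_add i12 iD, integral_add i1 i2, integral_const_mul, integral_const_mul]
      ring
    rw [h1]
    refine setIntegral_nonneg hM fun x hx => ?_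
    exact mul_nonneg (sq_nonneg _) (dens_pos hSMO h (slab_subset c d hx)).le
  have hdisc := discrim_le_zero hquad
  unfold discrim at hdisc
  have hA0 : 0 ≤ A := setIntegral_nonneg hM fun x hx =>
    mul_nonneg (lin_nonneg hRUL h (slab_subset c d hx) v)
      (dens_pos hSMO h (slab_subset c d hx)).le
  have hD0 : 0 ≤ D := setIntegral_nonneg hM fun x hx =>
    (dens_pos hSMO h (slab_subset c d hx)).le
  rw [← Real.sqrt_mul hD0]
  apply Real.le_sqrt_of_sq_le
  nlinarith

lemma bddMeasR_one : BddMeasR (fun _ => (1 : ℝ)) :=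
  ⟨measurable_const, 1, fun _ => by simp⟩

end NullAux

open NullAux

/-- (NULL) Properties of `NullOn`. -/
theorem NULL (hSMO : Stmt_SMO) (hRUL : Stmt_RUL) : Stmt_NULL := by
  intro V a b g W hF s0 e he hc hd
  have hD : ∀ {e' : ℝ}, e' ≤ e → Adm V W (s0 - e') (s0 + e') (dens g W) := fun {e'} he' =>
    adm_of_continuousOn hF (by linarith) (by linarith) (continuousOn_dens hSMO hF)
  refine ⟨?_, ?_, ?_, ?_⟩
  · rintro ρ1 ρ2 h1 h2 ⟨C1, hC1, hN1⟩ ⟨C2, hC2, hN2⟩
    refine ⟨C1 + C2, add_nonneg hC1 hC2, fun α hα v hv => ?_⟩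
    have hv0 : Adm V W (s0 - e) (s0 + e) v :=
      adm_of_continuousOn hF hc hd hv.continuousOn
    have i1 := ((((adm_of_bddMeas (V := V) (W := W) (c := s0 - e) (d := s0 + e) h1).mul
      (adm_comp hF hα)).mul hv0).mul (hD le_rfl)).int hF hc hd
    have i2 := ((((adm_of_bddMeas (V := V) (W := W) (c := s0 - e) (d := s0 + e) h2).mul
      (adm_comp hF hα)).mul hv0).mul (hD le_rfl)).int hF hc hd
    have h3 : ∫ x in slab V W (s0 - e) (s0 + e), (ρ1 x + ρ2 x) * α (W x) * v x * dens g W x =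
        (∫ x in slab V W (s0 - e) (s0 + e), ρ1 x * α (W x) * v x * dens g W x)
          + ∫ x in slab V W (s0 - e) (s0 + e), ρ2 x * α (W x) * v x * dens g W x := by
      rw [← integral_add i1 i2]
      refine integral_congr_ae (Eventually.of_forall fun x => ?_)
      show (ρ1 x + ρ2 x) * α (W x) * v x * dens g W x =
        ρ1 x * α (W x) * v x * dens g W x + ρ2 x * α (W x) * v x * dens g W x
      ring
    rw [h3, add_mul]
    exact (abs_add_le _ _).trans (add_le_add (hN1 α hα v hv) (hN2 α hα v hv))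
  · rintro ρ γ hρ ⟨hγm, B, hB⟩ ⟨C, hC, hN⟩
    have hB0 : 0 ≤ B := (abs_nonneg _).trans (hB 0)
    refine ⟨C * B, mul_nonneg hC hB0, fun α hα v hv => ?_⟩
    have hα' : BddMeasR (fun s => γ s * α s) := by
      obtain ⟨hm, B', hB'⟩ := hα
      refine ⟨hγm.mul hm, B * B', fun s => ?_⟩
      rw [abs_mul]
      exact mul_le_mul (hB s) (hB' s) (abs_nonneg _) hB0
    have h1 := hN _ hα' v hv
    have h2 : ∫ x in slab V W (s0 - e) (s0 + e), γ (W x) * ρ x * α (W x) * v x * dens g W x =
        ∫ x in slab V W (s0 - e) (s0 + e), ρ x * (γ (W x) * α (W x)) * v x * dens g W x := by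
      refine integral_congr_ae (Eventually.of_forall fun x => ?_)
      show γ (W x) * ρ x * α (W x) * v x * dens g W x =
        ρ x * (γ (W x) * α (W x)) * v x * dens g W x
      ring
    rw [h2]
    refine h1.trans ?_
    rw [mul_assoc, ← integral_const_mul B]
    refine mul_le_mul_of_nonneg_left ?_ hC
    have hS := adm_sqrt_lin hSMO hF hc hd hv
    refine setIntegral_mono_on
      ((((adm_comp hF hα').abs.mul hS).mul (hD le_rfl)).int hF hc hd)
      (((((adm_comp hF hα).abs.mul hS).mul (hD le_rfl)).int hF hc hd).const_mul B)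
      (measurableSet_slab hF _ _) fun x hx => ?_
    have h3 : |γ (W x) * α (W x)| ≤ B * |α (W x)| := by
      rw [abs_mul]
      exact mul_le_mul_of_nonneg_right (hB _) (abs_nonneg _)
    have h4 := (dens_pos hSMO hF (slab_subset _ _ hx)).le
    calc |γ (W x) * α (W x)| * Real.sqrt (lin g W v v x) * dens g W x
        ≤ B * |α (W x)| * Real.sqrt (lin g W v v x) * dens g W x :=
          mul_le_mul_of_nonneg_right (mul_le_mul_of_nonneg_right h3 (Real.sqrt_nonneg _)) h4
      _ = B * (|α (W x)| * Real.sqrt (lin g W v v x) * dens g W x) := by ring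
  · rintro ρ e' hρ he' hee' ⟨C, hC, hN⟩
    refine ⟨C, hC, fun α hα v hv => ?_⟩
    have hα' : BddMeasR (Set.indicator (Set.Ioo (s0 - e') (s0 + e')) α) := by
      obtain ⟨hm, B, hB⟩ := hα
      refine ⟨hm.indicator measurableSet_Ioo, B, fun s => ?_⟩
      by_cases hs : s ∈ Set.Ioo (s0 - e') (s0 + e')
      · rw [Set.indicator_of_mem hs]; exact hB s
      · rw [Set.indicator_of_notMem hs, abs_zero]; exact (abs_nonneg _).trans (hB 0)
    have hsub : slab V W (s0 - e') (s0 + e') ⊆ slab V W (s0 - e) (s0 + e) :=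
      slab_mono (by linarith) (by linarith)
    have hM := measurableSet_slab hF (s0 - e) (s0 + e)
    have hM' := measurableSet_slab hF (s0 - e') (s0 + e')
    have hz : ∀ x ∈ slab V W (s0 - e) (s0 + e) \ slab V W (s0 - e') (s0 + e'),
        Set.indicator (Set.Ioo (s0 - e') (s0 + e')) α (W x) = 0 := by
      intro x hx
      have hn : W x ∉ Set.Ioo (s0 - e') (s0 + e') := fun hx' => hx.2 ⟨hx.1.1, hx'⟩
      exact Set.indicator_of_notMem hn _
    have ho : ∀ x ∈ slab V W (s0 - e') (s0 + e'),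
        Set.indicator (Set.Ioo (s0 - e') (s0 + e')) α (W x) = α (W x) := by
      intro x hx
      have hn : W x ∈ Set.Ioo (s0 - e') (s0 + e') := hx.2
      exact Set.indicator_of_mem hn _
    have h1 := hN _ hα' v hv
    rw [setIntegral_eq_of_subset_of_forall_sdiff_eq_zero hM hsub
        (fun x hx => by rw [hz x hx]; ring),
      setIntegral_eq_of_subset_of_forall_sdiff_eq_zero hM hsub
        (fun x hx => by rw [hz x hx, abs_zero]; ring)] at h1
    have h2 : ∫ x in slab V W (s0 - e') (s0 + e'),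
        ρ x * Set.indicator (Set.Ioo (s0 - e') (s0 + e')) α (W x) * v x * dens g W x =
        ∫ x in slab V W (s0 - e') (s0 + e'), ρ x * α (W x) * v x * dens g W x :=
      setIntegral_congr_fun hM' fun x hx => by
        show ρ x * Set.indicator (Set.Ioo (s0 - e') (s0 + e')) α (W x) * v x * dens g W x =
          ρ x * α (W x) * v x * dens g W x
        rw [ho x hx]
    have h3 : ∫ x in slab V W (s0 - e') (s0 + e'),
        |Set.indicator (Set.Ioo (s0 - e') (s0 + e')) α (W x)| * Real.sqrt (lin g W v v x)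
          * dens g W x =
        ∫ x in slab V W (s0 - e') (s0 + e'),
          |α (W x)| * Real.sqrt (lin g W v v x) * dens g W x :=
      setIntegral_congr_fun hM' fun x hx => by
        show |Set.indicator (Set.Ioo (s0 - e') (s0 + e')) α (W x)| * Real.sqrt (lin g W v v x)
          * dens g W x = |α (W x)| * Real.sqrt (lin g W v v x) * dens g W x
        rw [ho x hx]
    rw [h2, h3] at h1
    exact h1
  · rintro ρ hρ ⟨C, hC, hN⟩
    refine ⟨fun α hα => ?_, ?_⟩
    · have h1 := hN α hα (fun _ => 1) contDiffOn_const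
      have h2 : ∫ x in slab V W (s0 - e) (s0 + e),
          |α (W x)| * Real.sqrt (lin g W (fun _ => 1) (fun _ => 1) x) * dens g W x = 0 := by
        have h3 : ∀ x : E3, |α (W x)| * Real.sqrt (lin g W (fun _ => 1) (fun _ => 1) x)
            * dens g W x = 0 := by
          intro x
          rw [lin_const]
          simp
        simp only [h3, integral_zero]
      rw [h2, mul_zero] at h1
      have h4 := abs_eq_zero.1 (le_antisymm h1 (abs_nonneg _))
      simpa using h4
    · refine ⟨C * Real.sqrt (∫ x in slab V W (s0 - e) (s0 + e), dens g W x),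
        mul_nonneg hC (Real.sqrt_nonneg _), fun v hv => ?_⟩
      have h1 := hN (fun _ => 1) bddMeasR_one v hv
      simp only [mul_one, abs_one, one_mul] at h1
      refine h1.trans ?_
      rw [mul_assoc]
      exact mul_le_mul_of_nonneg_left (cs hSMO hRUL hF hc hd hv) hC

end Pool.Agent.PFlow.GB


end

section

/-!
# Block GB: lower bound of leaf integrals of decreasing functions of the pole function (module LOW)
-/

open MeasureTheory Filter Topology
open scoped ContDiff

namespace Pool.Agent.PFlow.GB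

open Pool.Agent.PenroseSph Pool.Agent.PFlow

namespace MLOW

theorem pt0 (a b s : ℝ) : pt a b s 0 = a := by simp [pt]
theorem pt1 (a b s : ℝ) : pt a b s 1 = b := by simp [pt]
theorem pt2 (a b s : ℝ) : pt a b s 2 = s := by simp [pt]

theorem continuous_pt (s : ℝ) : Continuous (fun q : ℝ × ℝ => pt q.1 q.2 s) := by
  unfold pt
  apply (PiLp.continuous_toLp 2 (fun _ : Fin 3 => ℝ)).comp
  apply continuous_pi
  intro i
  fin_cases i
  · exact continuous_fst
  · exact continuous_snd
  · exact continuous_const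

/-- the substitution -/
theorem subst {h : ℝ → ℝ} (hh : Continuous h) {C δ : ℝ} (hC : 0 < C) (hδ : 0 < δ)
    (hvan : ∀ s, C * δ ^ 2 ≤ s → h s = 0) :
    ∫ u in (0 : ℝ)..δ, u * h (C * u ^ 2) = (1 / (2 * C)) * ∫ t in Set.Ioi (0 : ℝ), h t := by
  have h1 : ∫ u in (0 : ℝ)..δ, (h ∘ fun u => C * u ^ 2) u * (2 * C * u) =
      ∫ t in (C * 0 ^ 2)..(C * δ ^ 2), h t := by
    apply intervalIntegral.integral_comp_mul_deriv
    · intro x _
      have h2 := (hasDerivAt_pow 2 x).const_mul C
      simp only [Nat.add_one_sub_one, pow_one, Nat.cast_ofNat] at h2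
      have h3 : 2 * C * x = C * (2 * x) := by ring
      rw [h3]
      exact h2
    · fun_prop
    · exact hh
  have h2 : ∫ t in (C * 0 ^ 2)..(C * δ ^ 2), h t = ∫ t in Set.Ioi (0 : ℝ), h t := by
    have h3 : C * 0 ^ 2 = 0 := by ring
    have h4 : (0 : ℝ) ≤ C * δ ^ 2 := by positivity
    rw [h3, intervalIntegral.integral_of_le h4]
    symm
    apply setIntegral_eq_of_subset_of_forall_sdiff_eq_zero measurableSet_Ioi
    · exact Set.Ioc_subset_Ioi_self
    · rintro t ⟨ht1, ht2⟩
      apply hvan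
      by_contra hlt
      exact ht2 ⟨ht1, (not_le.mp hlt).le⟩
  rw [← h2, ← h1, ← intervalIntegral.integral_const_mul]
  apply intervalIntegral.integral_congr
  intro u _
  simp only [Function.comp]
  field_simp

end MLOW

open MLOW in
theorem LOW (hCHX : Stmt_CHX) (_hFUB : Stmt_FUB) (hPOLE : Stmt_POLE) : Stmt_LOW := by
  intro V a b g W hF Φ z0 r e hC τ hτ
  obtain ⟨-, -, -, -, -, -, -, hjc, c0, C0, hc0, hC0, hj, -⟩ := hCHX V a b g W hF Φ z0 r e hC
  obtain ⟨hrs, c1, C1, hc1, hC1, hr, -⟩ := hPOLE V a b g W hF Φ z0 r e hC τ hτ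
  obtain ⟨N, -, hbN, hΦ, -⟩ := hC.nbhd
  have hr0 := hC.r_pos
  have hob : obox z0 r e ⊆ box z0 r e := fun z hz => ⟨hz.1.le, hz.2.1.le, hz.2.2.le⟩
  have hδ0 : 0 < r - |τ| := by linarith
  set δ := r - |τ| with hδ
  have hτ1 := neg_abs_le τ
  have hτ2 := le_abs_self τ
  refine ⟨c0 / (4 * C1), 2 * C1 * δ ^ 2, by positivity, by positivity, ?_⟩
  intro h hh h0 hanti hvan s hs
  -- the integrand
  set K : ℝ × ℝ → ℝ := fun q =>
    h (rp g W Φ z0 τ (Φ (pt q.1 q.2 s))) * jac g W Φ (pt q.1 q.2 s) with hK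
  set I : Set ℝ := Set.Ioo (z0 0 - r) (z0 0 + r) with hI
  set J : Set ℝ := Set.Ioo (z0 1 - r) (z0 1 + r) with hJ
  have hmem : ∀ q ∈ I ×ˢ J, pt q.1 q.2 s ∈ obox z0 r e := by
    rintro ⟨x, y⟩ ⟨hx, hy⟩
    refine ⟨?_, ?_, ?_⟩
    · rw [pt0, abs_lt]
      exact ⟨by linarith [hx.1], by linarith [hx.2]⟩
    · rw [pt1, abs_lt]
      exact ⟨by linarith [hy.1], by linarith [hy.2]⟩
    · rw [pt2, abs_lt]
      exact ⟨by linarith [hs.1], by linarith [hs.2]⟩
  have hKc : ContinuousOn K (I ×ˢ J) := by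
    apply ContinuousOn.mul
    · apply hh.comp_continuousOn
      apply hrs.continuousOn.comp (t := Φ '' obox z0 r e)
      · apply hΦ.continuousOn.comp (_root_.Pool.Agent.PFlow.GB.MLOW.continuous_pt s).continuousOn
        intro q hq
        exact hbN (hob (hmem q hq))
      · intro q hq
        exact ⟨_, hmem q hq, rfl⟩
    · apply hjc.comp (_root_.Pool.Agent.PFlow.GB.MLOW.continuous_pt s).continuousOn
      intro q hq
      exact hob (hmem q hq)
  have hrp : ∀ q ∈ I ×ˢ J, 0 ≤ rp g W Φ z0 τ (Φ (pt q.1 q.2 s)) ∧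
      rp g W Φ z0 τ (Φ (pt q.1 q.2 s)) ≤
        C1 * ((q.1 - (z0 0 + τ)) ^ 2 + (q.2 - z0 1) ^ 2) := by
    intro q hq
    have h1 := hr _ (hob (hmem q hq))
    rw [pt0, pt1] at h1
    exact ⟨le_trans (by positivity) h1.1, h1.2⟩
  have hK0 : ∀ q ∈ I ×ˢ J, 0 ≤ K q := by
    intro q hq
    exact mul_nonneg (h0 _) (hc0.le.trans (hj _ (hob (hmem q hq))).1)
  have hKb : ∀ q ∈ I ×ˢ J, K q ≤ h 0 * C0 := by
    intro q hq
    have h1 := hj _ (hob (hmem q hq))
    have h2 : h (rp g W Φ z0 τ (Φ (pt q.1 q.2 s))) ≤ h 0 :=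
      hanti (Set.mem_Ici.mpr le_rfl) (hrp q hq).1 (hrp q hq).1
    exact mul_le_mul h2 h1.2.1 (hc0.le.trans h1.1) (h0 _)
  have hKn : ∀ q ∈ I ×ˢ J, ‖K q‖ ≤ h 0 * C0 := by
    intro q hq
    rw [Real.norm_eq_abs, abs_of_nonneg (hK0 q hq)]
    exact hKb q hq
  have hIJm : MeasurableSet (I ×ˢ J) := measurableSet_Ioo.prod measurableSet_Ioo
  have hKi : Integrable K ((volume.restrict I).prod (volume.restrict J)) := by
    refine Integrable.of_bound ?_ (h 0 * C0) ?_
    · rw [Measure.prod_restrict]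
      exact hKc.aestronglyMeasurable hIJm
    · rw [Measure.prod_restrict, ae_restrict_iff' hIJm]
      exact Filter.Eventually.of_forall hKn
  have hFi : IntegrableOn (fun x => ∫ y in J, K (x, y)) I := hKi.integral_prod_left
  have hKy : ∀ x ∈ I, IntegrableOn (fun y => K (x, y)) J := by
    intro x hx
    refine Integrable.of_bound ?_ (h 0 * C0) ?_
    · apply ContinuousOn.aestronglyMeasurable _ measurableSet_Ioo
      apply hKc.comp (by fun_prop)
      intro y hy
      exact ⟨hx, hy⟩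
    · rw [ae_restrict_iff' measurableSet_Ioo]
      exact Filter.Eventually.of_forall fun y hy => hKn (x, y) ⟨hx, hy⟩
  -- the comparison function
  set A : ℝ := z0 0 + τ with hA
  have hAI : Set.Ioo A (A + δ) ⊆ I := by
    intro x hx
    constructor
    · have := hx.1
      rw [hA] at this
      linarith
    · have := hx.2
      rw [hA, hδ] at this
      linarith
  set G : ℝ → ℝ := fun x => (x - A) * (c0 * h (2 * C1 * (x - A) ^ 2)) with hG
  have hlow : ∀ x ∈ Set.Ioo A (A + δ), G x ≤ ∫ y in J, K (x, y) := by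
    intro x hx
    have hxI := hAI hx
    have hx0 : 0 < x - A := by linarith [hx.1]
    have hxr : x - A ≤ r := by
      have h1 := hx.2
      have h2 := abs_nonneg τ
      rw [hδ] at h1
      linarith
    have hsub : Set.Ioo (z0 1) (z0 1 + (x - A)) ⊆ J := by
      intro y hy
      exact ⟨by linarith [hy.1], by linarith [hy.2]⟩
    have h1 : ∫ y in Set.Ioo (z0 1) (z0 1 + (x - A)), K (x, y) ≤ ∫ y in J, K (x, y) := by
      apply setIntegral_mono_set (hKy x hxI)
      · rw [Filter.EventuallyLE, ae_restrict_iff' measurableSet_Ioo]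
        exact Filter.Eventually.of_forall fun y hy => hK0 (x, y) ⟨hxI, hy⟩
      · exact _root_.LE.le.eventuallyLE hsub
    have h2 : G x = ∫ _ in Set.Ioo (z0 1) (z0 1 + (x - A)), c0 * h (2 * C1 * (x - A) ^ 2) := by
      rw [setIntegral_const, Measure.real, Real.volume_Ioo, ENNReal.toReal_ofReal (by linarith),
        smul_eq_mul, hG]
      ring
    refine le_trans ?_ h1
    rw [h2]
    apply setIntegral_mono_on
    · exact integrableOn_const (by rw [Real.volume_Ioo]; exact ENNReal.ofReal_ne_top)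
    · exact (hKy x hxI).mono_set hsub
    · exact measurableSet_Ioo
    · intro y hy
      have hq : (x, y) ∈ I ×ˢ J := ⟨hxI, hsub hy⟩
      have h3 := hrp (x, y) hq
      have h4 := hj _ (hob (hmem (x, y) hq))
      have h5 : rp g W Φ z0 τ (Φ (pt x y s)) ≤ 2 * C1 * (x - A) ^ 2 := by
        refine h3.2.trans ?_
        simp only
        have h6 : (y - z0 1) ^ 2 ≤ (x - A) ^ 2 := by
          apply pow_le_pow_left₀
          · linarith [hy.1]
          · linarith [hy.2]
        have h7 := mul_le_mul_of_nonneg_left h6 hC1.le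
        linarith
      have h6 : h (2 * C1 * (x - A) ^ 2) ≤ h (rp g W Φ z0 τ (Φ (pt x y s))) :=
        hanti h3.1 (h3.1.trans h5) h5
      change c0 * h (2 * C1 * (x - A) ^ 2) ≤
        h (rp g W Φ z0 τ (Φ (pt x y s))) * jac g W Φ (pt x y s)
      rw [mul_comm]
      exact mul_le_mul h6 h4.1 hc0.le (h0 _)
  have hGc : Continuous G := by
    rw [hG]
    fun_prop
  have hmain : ∫ x in Set.Ioo A (A + δ), G x ≤ ∫ x in I, ∫ y in J, K (x, y) := by
    have h1 : ∫ x in Set.Ioo A (A + δ), (∫ y in J, K (x, y)) ≤ ∫ x in I, ∫ y in J, K (x, y) := by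
      apply setIntegral_mono_set hFi
      · rw [Filter.EventuallyLE, ae_restrict_iff' measurableSet_Ioo]
        refine Filter.Eventually.of_forall fun x hx => ?_
        apply setIntegral_nonneg measurableSet_Ioo
        intro y hy
        exact hK0 (x, y) ⟨hx, hy⟩
      · exact _root_.LE.le.eventuallyLE hAI
    refine le_trans ?_ h1
    apply setIntegral_mono_on
    · exact (hGc.integrableOn_Icc (a := A) (b := A + δ)).mono_set Set.Ioo_subset_Icc_self
    · exact hFi.mono_set hAI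
    · exact measurableSet_Ioo
    · exact hlow
  have hcalc : ∫ x in Set.Ioo A (A + δ), G x = c0 / (4 * C1) * ∫ t in Set.Ioi (0 : ℝ), h t := by
    have h1 : ∫ x in Set.Ioo A (A + δ), G x = ∫ x in A..(A + δ), G x := by
      rw [intervalIntegral.integral_of_le (by linarith), integral_Ioc_eq_integral_Ioo]
    have h2 : ∫ x in A..(A + δ), G x = ∫ u in (0 : ℝ)..δ, u * (c0 * h (2 * C1 * u ^ 2)) := by
      have h3 := intervalIntegral.integral_comp_sub_right
        (fun u : ℝ => u * (c0 * h (2 * C1 * u ^ 2))) (a := A) (b := A + δ) A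
      rw [sub_self, add_sub_cancel_left] at h3
      exact h3
    have h4 : ∫ u in (0 : ℝ)..δ, u * (c0 * h (2 * C1 * u ^ 2)) =
        c0 * ∫ u in (0 : ℝ)..δ, u * h (2 * C1 * u ^ 2) := by
      rw [← intervalIntegral.integral_const_mul]
      apply intervalIntegral.integral_congr
      intro u _
      simp only
      ring
    rw [h1, h2, h4, subst hh (by positivity) hδ0 hvan]
    field_simp
    ring
  rw [← hcalc]
  exact hmain

end Pool.Agent.PFlow.GB


end

section

/-!
GBC: the Gauss-Bonnet inequality for continuous `ψ`.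
-/

open MeasureTheory Filter Topology
open scoped ContDiff

namespace Pool.Agent.PFlow.GB

open Pool.Agent.PenroseSph Pool.Agent.PFlow

namespace GBCaux

/-- Approximation of a continuous nonnegative function by squares of smooth functions. -/
lemma approx {ψ : ℝ → ℝ} (hψ : Continuous ψ) (hnn : ∀ s, 0 ≤ ψ s) :
    ∃ φ : ℕ → ℝ → ℝ, (∀ n, ContDiff ℝ 1 (φ n)) ∧ (∀ n s, 0 ≤ φ n s) ∧
      (∀ n s, φ n s ≠ 0 → ψ s ≠ 0) ∧ (∀ n s, φ n s ≤ (Real.sqrt (ψ s) + 1) ^ 2) ∧
      ∀ s, Tendsto (fun n => φ n s) atTop (𝓝 (ψ s)) := by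
  have hf : Continuous fun s => Real.sqrt (ψ s) := hψ.sqrt
  have h1 : ∀ n : ℕ, ∃ g : ℝ → ℝ, ContDiff ℝ 1 g ∧
      (∀ x, dist (g x) (Real.sqrt (ψ x)) < 1 / ((n : ℝ) + 1)) ∧
      Function.support g ⊆ Function.support fun s => Real.sqrt (ψ s) := fun n =>
    hf.exists_contDiff_approx 1 continuous_const (fun _ => Nat.one_div_pos_of_nat)
  choose g hg1 hg2 hg3 using h1
  refine ⟨fun n s => g n s ^ 2, fun n => (hg1 n).pow 2, fun n s => sq_nonneg _, ?_, ?_, ?_⟩
  · intro n s h2 h3
    have h4 : s ∈ Function.support (g n) := by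
      intro h5
      apply h2
      simp only
      rw [h5]
      norm_num
    apply hg3 n h4
    simp only
    rw [h3, Real.sqrt_zero]
  · intro n s
    have h2 := hg2 n s
    rw [Real.dist_eq] at h2
    have h3 : (1 : ℝ) / ((n : ℝ) + 1) ≤ 1 := by
      rw [div_le_one (by positivity)]
      have : (0 : ℝ) ≤ n := Nat.cast_nonneg n
      linarith
    have h4 : 0 ≤ Real.sqrt (ψ s) := Real.sqrt_nonneg _
    have h5 := abs_lt.mp h2
    simp only
    apply sq_le_sq'
    · linarith
    · linarith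
  · intro s
    have h2 : Tendsto (fun n => g n s) atTop (𝓝 (Real.sqrt (ψ s))) := by
      rw [tendsto_iff_dist_tendsto_zero]
      exact squeeze_zero (fun n => dist_nonneg) (fun n => (hg2 n s).le)
        tendsto_one_div_add_atTop_nhds_zero_nat
    have h3 := h2.pow 2
    rwa [Real.sq_sqrt (hnn s)] at h3

end GBCaux

open GBCaux in
theorem GBC (hSMO : Stmt_SMO) (hGB : Pool.Agent.PFlow.Stmt_GB) : Stmt_GBC := by
  intro V a b g W hF hconn ψ hψ hnn hsupp
  rcases lt_or_ge a b with hab | hab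
  swap
  · have h0 : ∀ s, ψ s = 0 := by
      intro s
      by_contra h
      have h1 := hsupp (subset_tsupport ψ h)
      exact absurd (h1.1.trans h1.2) (not_lt.mpr hab)
    simp [h0]
  obtain ⟨c, d, hac, hcd, hdb, hcd'⟩ := exists_Icc_of_tsupport hab hsupp
  obtain ⟨φ, hφ1, hφ2, hφ3, hφ4, hφ5⟩ := approx hψ hnn
  -- the bound
  obtain ⟨B, hB⟩ := (isCompact_Icc (a := c) (b := d)).exists_bound_of_continuousOn
    hψ.continuousOn
  set N : ℝ := (Real.sqrt B + 1) ^ 2 with hN
  have hφB : ∀ n s, |φ n s| ≤ N := by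
    intro n s
    rw [abs_of_nonneg (hφ2 n s)]
    by_cases h0 : φ n s = 0
    · rw [h0]
      positivity
    · have h1 := hB s (hcd' s (hφ3 n s h0))
      rw [Real.norm_eq_abs, abs_of_nonneg (hnn s)] at h1
      refine (hφ4 n s).trans ?_
      have h2 : Real.sqrt (ψ s) ≤ Real.sqrt B := Real.sqrt_le_sqrt h1
      have h3 : 0 ≤ Real.sqrt (ψ s) := Real.sqrt_nonneg _
      rw [hN]
      gcongr
  have hφ0 : ∀ n s, s ∉ Set.Icc c d → φ n s = 0 := by
    intro n s hs
    by_contra h0
    exact hs (hcd' s (hφ3 n s h0))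
  have hbump : ∀ n, BumpOn a b (φ n) := by
    intro n
    refine ⟨hφ1 n, hφ2 n, ?_⟩
    refine subset_trans (closure_mono ?_) hsupp
    exact fun s hs => hφ3 n s hs
  -- the density
  set F : E3 → ℝ := fun x => curv g W x * dens g W x with hFd
  have hFc : ContinuousOn F V := by
    intro x hx
    have h1 := hSMO.2 g W x (hF.reg hx)
    exact ((h1.2.2.2.2.2.2.2.2.2.2.2.1.continuousAt).mul
      (h1.2.2.2.2.2.2.2.2.1.continuousAt)).continuousWithinAt
  have hWc := hF.continuousOn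
  have hV := hF.isOpen.measurableSet
  have hK := hF.proper c d hac hdb
  have hL : Tendsto (fun n => ∫ x in V, φ n (W x) * F x) atTop (𝓝 (∫ x in V, ψ (W x) * F x)) := by
    refine tendsto_integral_of_dominated_convergence
      ((cslab V W c d).indicator fun x => N * ‖F x‖) ?_ ?_ ?_ ?_
    · intro n
      exact (((hφ1 n).continuous.comp_continuousOn hWc).mul hFc).aestronglyMeasurable hV
    · refine Integrable.restrict ?_
      rw [integrable_indicator_iff hK.measurableSet]
      exact ((hFc.mono (cslab_subset c d)).norm.integrableOn_compact hK).const_mul N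
    · intro n
      filter_upwards [ae_restrict_mem hV] with x hx
      by_cases h0 : W x ∈ Set.Icc c d
      · rw [Set.indicator_of_mem (show x ∈ cslab V W c d from ⟨hx, h0⟩), norm_mul]
        exact mul_le_mul_of_nonneg_right (hφB n (W x)) (norm_nonneg _)
      · rw [hφ0 n (W x) h0, zero_mul, norm_zero, Set.indicator_of_notMem (fun h1 => h0 h1.2)]
    · filter_upwards with x
      exact (hφ5 (W x)).mul_const _
  have hR : Tendsto (fun n => ∫ s, φ n s) atTop (𝓝 (∫ s, ψ s)) := by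
    refine tendsto_integral_of_dominated_convergence
      ((Set.Icc c d).indicator fun _ => N) ?_ ?_ ?_ ?_
    · intro n
      exact (hφ1 n).continuous.aestronglyMeasurable
    · rw [integrable_indicator_iff measurableSet_Icc]
      exact integrableOn_const (by simp)
    · intro n
      filter_upwards with s
      by_cases h0 : s ∈ Set.Icc c d
      · rw [Set.indicator_of_mem h0]
        exact hφB n s
      · rw [hφ0 n s h0, norm_zero, Set.indicator_of_notMem h0]
    · filter_upwards with s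
      exact hφ5 s
  have h1 := le_of_tendsto_of_tendsto' hL (hR.const_mul (4 * Real.pi)) (fun n => by
    have h2 := hGB V a b g W hF hconn (φ n) (hbump n)
    have h3 : ∫ x in V, φ n (W x) * F x =
        ∫ x in V, φ n (W x) * curv g W x * dens g W x := by
      refine integral_congr_ae (Eventually.of_forall fun x => ?_)
      simp only [hFd]
      ring
    rw [h3]
    exact h2)
  have h4 : ∫ x in V, ψ (W x) * curv g W x * dens g W x = ∫ x in V, ψ (W x) * F x := by
    refine integral_congr_ae (Eventually.of_forall fun x => ?_)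
    simp only [hFd]
    ring
  rw [h4]
  exact h1

end Pool.Agent.PFlow.GB


end

section

/-!
# Assembly of the block GB

The Gauss-Bonnet inequality for connected leaves, the connectedness of separating regular level
sets, and the form used in the block MI.
-/

namespace Pool.Agent.PFlow.GB

theorem all_SMO : Stmt_SMO := SMO ALG
theorem all_RUL : Stmt_RUL := RUL ALG all_SMO
theorem all_IBP : Stmt_IBP := IBP ALG all_SMO all_RUL
theorem all_LB : Stmt_LB := LB ALG all_SMO
theorem all_COVG : Stmt_COVG := COVG ALG all_SMO all_LB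
theorem all_ADAP : Stmt_ADAP := ADAP all_SMO
theorem all_BOCH : Stmt_BOCH := BOCH all_SMO all_COVG all_ADAP BO2 CHL
theorem all_XIN : Stmt_XIN := XIN ALG all_SMO all_RUL all_BOCH
theorem all_Q : Stmt_Q := Q ALG all_SMO all_LB
theorem all_VOL : Stmt_VOL := VOL all_SMO
theorem all_MASS : Stmt_MASS := MASS all_SMO FUB
theorem all_KER : Stmt_KER := KER all_RUL all_Q all_VOL all_MASS
theorem all_DU : Stmt_DU := DU all_SMO
theorem all_CONV : Stmt_CONV := CONV all_SMO SCHUR
theorem all_WU : Stmt_WU := WU all_SMO all_RUL all_IBP all_DU all_CONV all_KER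
theorem all_DENS : Stmt_DENS := DENS all_SMO all_WU
theorem all_SOLVE : Stmt_SOLVE := SOLVE all_SMO all_RUL all_IBP all_DENS
theorem all_CHART : Stmt_CHART := CHART CHL
theorem all_CHX : Stmt_CHX := CHX ALG all_SMO
theorem all_NULL : Stmt_NULL := NULL all_SMO all_RUL
theorem all_CL : Stmt_CL := CL all_SMO all_CHX FUB POIN
theorem all_CONN : Stmt_CONN := CONN all_CHART all_CHX all_CL all_NULL
theorem all_POLE : Stmt_POLE := POLE ALG all_SMO all_RUL all_CHX all_Q
theorem all_SCAL : Stmt_SCAL := SCAL ALG all_SMO DET all_CHX FUB all_POLE all_Q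
theorem all_LOW : Stmt_LOW := LOW all_CHX FUB all_POLE
theorem all_SEP : Stmt_SEP := SEP all_POLE
theorem all_PHI0 : Stmt_PHI0 := PHI0 all_SMO all_RUL all_CHX all_POLE all_SCAL
theorem all_CUT : Stmt_CUT := CUT all_SMO all_CHX all_POLE all_SCAL
theorem all_MEAN : Stmt_MEAN := MEAN all_SMO all_RUL all_IBP all_CHX all_POLE all_PHI0 all_CUT
theorem all_FLUX : Stmt_FLUX := FLUX ALG all_SMO all_RUL all_CHX all_POLE
theorem all_PUNCT : Stmt_PUNCT :=
  PUNCT all_SMO all_RUL all_IBP all_XIN all_CHX all_PHI0 all_CUT all_FLUX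
theorem all_RHO : Stmt_RHO := RHO all_SMO all_CHX all_CONN all_NULL all_PHI0 all_MEAN
theorem all_CONC : Stmt_CONC :=
  CONC all_SMO all_CHX all_POLE all_LOW all_CL all_CONN all_NULL
theorem all_LOC : Stmt_LOC :=
  LOC ALG all_SMO all_RUL all_IBP all_NULL all_SOLVE all_CHART all_CHX all_POLE all_SEP all_PHI0
    all_PUNCT all_RHO all_CONC

/-- **(GB)** The Gauss-Bonnet inequality for connected leaves. -/
theorem all_GB : Pool.Agent.PFlow.Stmt_GB := GB all_SMO all_LOC

/-- (GB) for continuous functions of the level. -/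
theorem all_GBC : Stmt_GBC := GBC all_SMO all_GB

/-- **(UNIC)** -/
theorem all_UNIC : Pool.Agent.PFlow.Stmt_UNIC := UNIC

/-- **(GBX)** -/
theorem all_GBX : Stmt_GBX := GBX all_GBC UNIC

end Pool.Agent.PFlow.GB


end

section

/-!
# The kernel estimate

The integral of `1 / |v + a|` over a ball of radius `r` is at most `C r³ / max(r, |v|)`.
-/

open MeasureTheory Filter Topology Set

namespace Pool.Agent.PFlow

open Pool.Agent.PenroseSph

namespace MKER

/-- The integral of `1 / |b|` over the unit ball. -/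
noncomputable def I1 : ENNReal := ∫⁻ b in Metric.ball (0 : E3) 1, ENNReal.ofReal (1 / ‖b‖)

lemma meas_inv : Measurable (fun b : E3 => ENNReal.ofReal (1 / ‖b‖)) := by
  fun_prop

lemma finrank_E3 : Module.finrank ℝ E3 = 3 := by simp [E3]

lemma I1_lt_top : I1 < ⊤ := by
  have hint : IntegrableOn (fun b : E3 => 1 / ‖b‖) (Metric.ball (0 : E3) 1) volume := by
    refine integrableOn_ball_of_norm_le_rpow (C := 1) (α := 1) ?_ ?_ ?_ ?_
    · rw [finrank_E3]; norm_num
    · rw [finrank_E3]; norm_num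
    · refine Filter.Eventually.of_forall fun x => ?_
      rw [Real.rpow_neg_one]
      simp
    · exact (by fun_prop : Measurable (fun b : E3 => 1 / ‖b‖)).aestronglyMeasurable
  have h2 := hint.2
  rw [hasFiniteIntegral_iff_ofReal] at h2
  · exact h2
  · exact Filter.Eventually.of_forall fun x => by positivity

lemma scale {R : ℝ} (hR : 0 < R) :
    ∫⁻ b in Metric.ball (0 : E3) R, ENNReal.ofReal (1 / ‖b‖) = ENNReal.ofReal (R ^ 2) * I1 := by
  have hmap := Measure.map_addHaar_smul (volume : Measure E3) hR.ne'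
  rw [finrank_E3] at hmap
  have h1 : ∫⁻ b in Metric.ball (0 : E3) R, ENNReal.ofReal (1 / ‖b‖)
      ∂(Measure.map (fun x : E3 => R • x) volume)
      = ENNReal.ofReal (1 / R) * I1 := by
    rw [setLIntegral_map Metric.isOpen_ball.measurableSet meas_inv (by fun_prop)]
    have hpre : (fun x : E3 => R • x) ⁻¹' Metric.ball (0 : E3) R = Metric.ball (0 : E3) 1 := by
      ext x
      simp only [mem_preimage, mem_ball_zero_iff, norm_smul, Real.norm_eq_abs, abs_of_pos hR]
      constructor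
      · intro h
        by_contra h'
        push Not at h'
        nlinarith
      · intro h
        nlinarith
    rw [hpre, I1, ← lintegral_const_mul _ meas_inv]
    refine lintegral_congr fun x => ?_
    rw [← ENNReal.ofReal_mul (by positivity)]
    congr 1
    rw [norm_smul, Real.norm_eq_abs, abs_of_pos hR, one_div, one_div, one_div, mul_inv]
  have h2 : ∫⁻ b in Metric.ball (0 : E3) R, ENNReal.ofReal (1 / ‖b‖)
      ∂(Measure.map (fun x : E3 => R • x) volume)
      = ENNReal.ofReal |(R ^ 3)⁻¹| * ∫⁻ b in Metric.ball (0 : E3) R, ENNReal.ofReal (1 / ‖b‖) := by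
    have : (fun x : E3 => R • x) = (R • · : E3 → E3) := rfl
    rw [this, hmap, Measure.restrict_smul, lintegral_smul_measure, smul_eq_mul]
  have h3 : ENNReal.ofReal |(R ^ 3)⁻¹| * ∫⁻ b in Metric.ball (0 : E3) R, ENNReal.ofReal (1 / ‖b‖)
      = ENNReal.ofReal (1 / R) * I1 := by rw [← h2, h1]
  have h4 : ENNReal.ofReal (R ^ 3) * (ENNReal.ofReal |(R ^ 3)⁻¹|
      * ∫⁻ b in Metric.ball (0 : E3) R, ENNReal.ofReal (1 / ‖b‖))
      = ENNReal.ofReal (R ^ 3) * (ENNReal.ofReal (1 / R) * I1) := by rw [h3]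
  rw [← mul_assoc, ← mul_assoc, ← ENNReal.ofReal_mul (by positivity),
    ← ENNReal.ofReal_mul (by positivity), abs_of_pos (by positivity),
    mul_inv_cancel₀ (by positivity), ENNReal.ofReal_one, one_mul] at h4
  rw [h4]
  congr 2
  field_simp

lemma translate (r : ℝ) (v : E3) :
    ∫⁻ a in Metric.ball (0 : E3) r, ENNReal.ofReal (1 / ‖v + a‖)
      = ∫⁻ b in Metric.ball v r, ENNReal.ofReal (1 / ‖b‖) := by
  have hmp : MeasurePreserving (fun a : E3 => v + a) volume volume :=
    measurePreserving_add_left volume v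
  have h := hmp.setLIntegral_comp_preimage (s := Metric.ball v r)
    Metric.isOpen_ball.measurableSet meas_inv
  have hpre : (fun a : E3 => v + a) ⁻¹' Metric.ball v r = Metric.ball (0 : E3) r := by
    ext x
    simp [Metric.mem_ball, dist_eq_norm]
  rw [hpre] at h
  exact h

end MKER

open MKER in
theorem KER : Stmt_KER := by
  have hI : I1 ≠ ⊤ := I1_lt_top.ne
  set V : ENNReal := volume (Metric.ball (0 : E3) 1) with hV
  have hVt : V ≠ ⊤ := measure_ball_lt_top.ne
  obtain ⟨W, hW, hVW⟩ : ∃ W : ℝ, 0 ≤ W ∧ V = ENNReal.ofReal W :=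
    ⟨V.toReal, ENNReal.toReal_nonneg, (ENNReal.ofReal_toReal hVt).symm⟩
  obtain ⟨J, hJ, hIJ⟩ : ∃ J : ℝ, 0 ≤ J ∧ I1 = ENNReal.ofReal J :=
    ⟨I1.toReal, ENNReal.toReal_nonneg, (ENNReal.ofReal_toReal hI).symm⟩
  refine ⟨18 * J + 2 * W + 1, by positivity, ?_⟩
  intro r v hr
  have hmax : 0 < max r ‖v‖ := lt_of_lt_of_le hr (le_max_left _ _)
  rcases le_or_gt (2 * r) ‖v‖ with h | h
  · -- far away
    have hv : 0 < ‖v‖ := by linarith
    have h1 : ∫⁻ a in Metric.ball (0 : E3) r, ENNReal.ofReal (1 / ‖v + a‖)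
        ≤ ∫⁻ _ in Metric.ball (0 : E3) r, ENNReal.ofReal (2 / ‖v‖) := by
      refine setLIntegral_mono' Metric.isOpen_ball.measurableSet fun a ha => ?_
      refine ENNReal.ofReal_le_ofReal ?_
      have ha' : ‖a‖ < r := by simpa using ha
      have h3 : ‖v‖ - ‖a‖ ≤ ‖v + a‖ := by
        have := norm_sub_le (v + a) a
        rw [add_sub_cancel_right] at this
        linarith
      have h4 : ‖v‖ / 2 ≤ ‖v + a‖ := by linarith
      rw [div_le_div_iff₀ (by linarith) hv]
      linarith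
    refine h1.trans ?_
    rw [setLIntegral_const]
    have hball : volume (Metric.ball (0 : E3) r) = ENNReal.ofReal (r ^ 3) * V := by
      have := Measure.addHaar_ball_of_pos (volume : Measure E3) 0 hr
      rw [finrank_E3] at this
      exact this
    rw [hball, hVW, ← ENNReal.ofReal_mul (by positivity),
      ← ENNReal.ofReal_mul (by positivity)]
    refine ENNReal.ofReal_le_ofReal ?_
    have hm : max r ‖v‖ = ‖v‖ := max_eq_right (by linarith)
    rw [hm, le_div_iff₀ hv]
    have hr3 : 0 < r ^ 3 := by positivity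
    calc 2 / ‖v‖ * (r ^ 3 * W) * ‖v‖ = 2 * W * r ^ 3 := by
          field_simp
      _ ≤ _ := by
          refine mul_le_mul_of_nonneg_right ?_ hr3.le
          linarith
  · -- near
    rw [MKER.translate]
    have hsub : Metric.ball v r ⊆ Metric.ball (0 : E3) (3 * r) := by
      intro x hx
      rw [Metric.mem_ball, dist_eq_norm] at hx
      rw [mem_ball_zero_iff]
      have := norm_add_le (x - v) v
      rw [sub_add_cancel] at this
      linarith
    refine (lintegral_mono_set hsub).trans ?_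
    rw [scale (by positivity : (0 : ℝ) < 3 * r), hIJ,
      ← ENNReal.ofReal_mul (by positivity)]
    refine ENNReal.ofReal_le_ofReal ?_
    rw [le_div_iff₀ hmax]
    have hr3 : 0 < r ^ 3 := by positivity
    have hm : max r ‖v‖ ≤ 2 * r := max_le (by linarith) h.le
    calc (3 * r) ^ 2 * J * max r ‖v‖ ≤ (3 * r) ^ 2 * J * (2 * r) :=
          mul_le_mul_of_nonneg_left hm (by positivity)
      _ = 18 * J * r ^ 3 := by ring
      _ ≤ _ := by
          refine mul_le_mul_of_nonneg_right ?_ hr3.le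
          linarith

end Pool.Agent.PFlow


end

section

/-!
# Module H2I: the divergence formula for `Y_d` and Sobolev functions
-/

set_option autoImplicit false

open MeasureTheory Filter Topology
open scoped ContDiff ENNReal

namespace Pool.Agent.PFlow

open Pool.Agent.PenroseSph

namespace MH2I

/-- squares of a uniformly integrable sequence -/
lemma ui_sq {μ : Measure E3} {u : ℕ → E3 → ℝ} (h : UnifIntegrable u 2 μ) :
    UnifIntegrable (fun n x => u n x ^ 2) 1 μ := by
  intro ε hε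
  obtain ⟨δ, hδ, hu⟩ := h (Real.sqrt_pos.2 hε)
  refine ⟨δ, hδ, fun n s hs hμ => ?_⟩
  have h1 := hu n s hs hμ
  have h3 : (s.indicator (fun x => u n x ^ 2)) = fun x => ‖s.indicator (u n) x‖ ^ (2 : ℝ) := by
    funext x
    by_cases hx : x ∈ s <;> simp [hx]
  have h2 : eLpNorm (s.indicator (fun x => u n x ^ 2)) 1 μ =
      eLpNorm (s.indicator (u n)) 2 μ ^ (2 : ℝ) := by
    rw [h3, eLpNorm_norm_rpow _ (by norm_num : (0 : ℝ) < 2)]
    norm_num
  rw [h2]
  calc eLpNorm (s.indicator (u n)) 2 μ ^ (2 : ℝ) ≤ (ENNReal.ofReal (Real.sqrt ε)) ^ (2 : ℝ) :=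
        ENNReal.rpow_le_rpow h1 (by norm_num)
    _ = ENNReal.ofReal ε := by
        rw [ENNReal.ofReal_rpow_of_nonneg (Real.sqrt_nonneg _) (by norm_num)]
        congr 1
        rw [Real.rpow_two, Real.sq_sqrt hε.le]

/-- domination -/
lemma ui_dom {μ : Measure E3} {u v : ℕ → E3 → ℝ} (h : UnifIntegrable u 1 μ)
    (hv : ∀ n, ∀ᵐ x ∂μ, |v n x| ≤ |u n x|) : UnifIntegrable v 1 μ := by
  intro ε hε
  obtain ⟨δ, hδ, hu⟩ := h hε
  refine ⟨δ, hδ, fun n s hs hμ => le_trans (eLpNorm_mono_ae ?_) (hu n s hs hμ)⟩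
  filter_upwards [hv n] with x hx
  by_cases hxs : x ∈ s <;> simp [hxs, hx]

/-- finite sums -/
lemma ui_sum {ι : Type} {μ : Measure E3} (s : Finset ι) {u : ι → ℕ → E3 → ℝ}
    (h : ∀ i, UnifIntegrable (u i) 1 μ) (hm : ∀ i n, AEStronglyMeasurable (u i n) μ) :
    UnifIntegrable (fun n x => ∑ i ∈ s, u i n x) 1 μ := by
  classical
  induction s using Finset.induction_on with
  | empty =>
    simp only [Finset.sum_empty]
    exact unifIntegrable_const le_rfl ENNReal.one_ne_top (by simp)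
  | insert a s ha ih =>
    have : (fun n x => ∑ i ∈ insert a s, u i n x) = u a + fun n x => ∑ i ∈ s, u i n x := by
      funext n x
      rw [Finset.sum_insert ha]
      rfl
    rw [this]
    exact (h a).add ih le_rfl (hm a) (fun n => Finset.aestronglyMeasurable_fun_sum _ (fun i _ => hm i n))

/-- a subsequence converging almost everywhere, for finitely many sequences -/
lemma sub_ae {ι : Type} {μ : Measure E3} (s : Finset ι) (u : ι → ℕ → E3 → ℝ) (g : ι → E3 → ℝ)
    (h : ∀ i, TendstoInMeasure μ (u i) atTop (g i)) :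
    ∃ ns : ℕ → ℕ, StrictMono ns ∧ ∀ i ∈ s, ∀ᵐ x ∂μ,
      Tendsto (fun k => u i (ns k) x) atTop (𝓝 (g i x)) := by
  classical
  induction s using Finset.induction_on with
  | empty => exact ⟨id, strictMono_id, by simp⟩
  | insert a s ha ih =>
    obtain ⟨ns, hns, hs⟩ := ih
    have h1 : TendstoInMeasure μ (fun k => u a (ns k)) atTop (g a) :=
      fun ε hε => (h a ε hε).comp hns.tendsto_atTop
    obtain ⟨ms, hms, h2⟩ := h1.exists_seq_tendsto_ae
    refine ⟨ns ∘ ms, hns.comp hms, fun i hi => ?_⟩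
    rw [Finset.mem_insert] at hi
    rcases hi with rfl | hi
    · exact h2
    · filter_upwards [hs i hi] with x hx
      exact hx.comp hms.tendsto_atTop

/-- generalised dominated convergence -/
theorem gen {μ : Measure E3} [IsFiniteMeasure μ] (P : ℕ → E3 → Cov) (N : ℕ → E3 → Bil)
    (G : E3 → Cov) (M : E3 → Bil)
    (hP : ∀ n i, MemLp (fun x => P n x i) 2 μ) (hN : ∀ n i j, MemLp (fun x => N n x i j) 2 μ)
    (hG : ∀ i, MemLp (fun x => G x i) 2 μ) (hM : ∀ i j, MemLp (fun x => M x i j) 2 μ)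
    (cP : ∀ i, Tendsto (fun n => eLpNorm (fun x => P n x i - G x i) 2 μ) atTop (𝓝 0))
    (cN : ∀ i j, Tendsto (fun n => eLpNorm (fun x => N n x i j - M x i j) 2 μ) atTop (𝓝 0))
    (aP : ∀ i, ∀ᵐ x ∂μ, Tendsto (fun n => P n x i) atTop (𝓝 (G x i)))
    (aN : ∀ i j, ∀ᵐ x ∂μ, Tendsto (fun n => N n x i j) atTop (𝓝 (M x i j)))
    (Φ : E3 → Cov → Bil → ℝ) (C : ℝ)
    (hb : ∀ᵐ x ∂μ, ∀ p m, |Φ x p m| ≤ C * (1 + vsq p + msq m))
    (hc : ∀ᵐ x ∂μ, Continuous fun q : Cov × Bil => Φ x q.1 q.2)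
    (hm : ∀ n, AEStronglyMeasurable (fun x => Φ x (P n x) (N n x)) μ) :
    Integrable (fun x => Φ x (G x) (M x)) μ ∧
      Tendsto (fun n => ∫ x, Φ x (P n x) (N n x) ∂μ) atTop (𝓝 (∫ x, Φ x (G x) (M x) ∂μ)) := by
  have hlim : ∀ᵐ x ∂μ, Tendsto (fun n => Φ x (P n x) (N n x)) atTop (𝓝 (Φ x (G x) (M x))) := by
    have aP' : ∀ᵐ x ∂μ, ∀ i, Tendsto (fun n => P n x i) atTop (𝓝 (G x i)) := ae_all_iff.2 aP
    have aN' : ∀ᵐ x ∂μ, ∀ i j, Tendsto (fun n => N n x i j) atTop (𝓝 (M x i j)) :=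
      ae_all_iff.2 fun i => ae_all_iff.2 fun j => aN i j
    filter_upwards [aP', aN', hc] with x h1 h2 h3
    have h4 : Tendsto (fun n => (P n x, N n x)) atTop (𝓝 (G x, M x)) :=
      (tendsto_pi_nhds.2 h1).prodMk_nhds (tendsto_pi_nhds.2 fun i => tendsto_pi_nhds.2 (h2 i))
    exact (h3.tendsto (G x, M x)).comp h4
  have hmG : AEStronglyMeasurable (fun x => Φ x (G x) (M x)) μ :=
    aestronglyMeasurable_of_tendsto_ae atTop hm hlim
  have hint : ∀ (p : E3 → Cov) (m : E3 → Bil), (∀ i, MemLp (fun x => p x i) 2 μ) →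
      (∀ i j, MemLp (fun x => m x i j) 2 μ) → Integrable (fun x => 1 + vsq (p x) + msq (m x)) μ := by
    intro p m h1 h2
    refine ((integrable_const 1).add ?_).add ?_
    · exact integrable_finsetSum _ fun i _ => (h1 i).integrable_sq
    · exact integrable_finsetSum _ fun i _ => integrable_finsetSum _ fun j _ =>
        (h2 i j).integrable_sq
  have hbd : ∀ (p : E3 → Cov) (m : E3 → Bil), (∀ i, MemLp (fun x => p x i) 2 μ) →
      (∀ i j, MemLp (fun x => m x i j) 2 μ) →
      AEStronglyMeasurable (fun x => Φ x (p x) (m x)) μ → Integrable (fun x => Φ x (p x) (m x)) μ := by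
    intro p m h1 h2 h3
    refine Integrable.mono' ((hint p m h1 h2).const_mul C) h3 ?_
    filter_upwards [hb] with x hx
    exact hx _ _
  have hIG := hbd G M hG hM hmG
  refine ⟨hIG, ?_⟩
  -- uniform integrability
  have huP : ∀ i, UnifIntegrable (fun n x => P n x i ^ 2) 1 μ := fun i =>
    ui_sq (unifIntegrable_of_tendsto_Lp (by norm_num) (by norm_num) (fun n => hP n i) (hG i) (cP i))
  have huN : ∀ i j, UnifIntegrable (fun n x => N n x i j ^ 2) 1 μ := fun i j =>
    ui_sq (unifIntegrable_of_tendsto_Lp (by norm_num) (by norm_num) (fun n => hN n i j) (hM i j)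
      (cN i j))
  have h1 : UnifIntegrable (fun n x => vsq (P n x)) 1 μ :=
    ui_sum Finset.univ huP (fun i n => ((hP n i).1.pow 2))
  have h2 : UnifIntegrable (fun n x => msq (N n x)) 1 μ :=
    ui_sum Finset.univ (fun i => ui_sum Finset.univ (huN i) (fun j n => ((hN n i j).1.pow 2)))
      (fun i n => Finset.aestronglyMeasurable_fun_sum _ fun j _ => (hN n i j).1.pow 2)
  have hmv : ∀ n, AEStronglyMeasurable (fun x => vsq (P n x)) μ := fun n =>
    Finset.aestronglyMeasurable_fun_sum _ fun i _ => (hP n i).1.pow 2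
  have hmm : ∀ n, AEStronglyMeasurable (fun x => msq (N n x)) μ := fun n =>
    Finset.aestronglyMeasurable_fun_sum _ fun i _ =>
      Finset.aestronglyMeasurable_fun_sum _ fun j _ => (hN n i j).1.pow 2
  have h3 : UnifIntegrable (fun (_ : ℕ) (_ : E3) => (1 : ℝ)) 1 μ :=
    unifIntegrable_const le_rfl ENNReal.one_ne_top (memLp_const 1)
  have h4 := (h3.add h1 le_rfl (fun _ => aestronglyMeasurable_const) hmv).add h2 le_rfl
    (fun n => aestronglyMeasurable_const.add (hmv n)) hmm
  have h5 : UnifIntegrable (fun n x => C * (1 + vsq (P n x) + msq (N n x))) 1 μ := by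
    intro ε hε
    obtain ⟨δ, hδ, hu⟩ := h4 (show 0 < ε / (|C| + 1) by positivity)
    refine ⟨δ, hδ, fun n s hs hμ => ?_⟩
    have e1 := hu n s hs hμ
    have e2 : (s.indicator fun x => C * (1 + vsq (P n x) + msq (N n x))) =
        C • (s.indicator fun x => (1 + vsq (P n x) + msq (N n x))) := by
      funext x
      by_cases hx : x ∈ s <;> simp [hx]
    rw [e2, eLpNorm_const_smul]
    refine (mul_le_mul_right e1 _).trans ?_
    rw [Real.enorm_eq_ofReal_abs, ← ENNReal.ofReal_mul (abs_nonneg _)]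
    apply ENNReal.ofReal_le_ofReal
    rw [mul_div_assoc', div_le_iff₀ (by positivity)]
    nlinarith [abs_nonneg C]
  have h6 : UnifIntegrable (fun n x => Φ x (P n x) (N n x)) 1 μ := by
    refine ui_dom h5 fun n => ?_
    filter_upwards [hb] with x hx
    exact (hx _ _).trans (le_abs_self _)
  have h7 := tendsto_Lp_finite_of_tendsto_ae le_rfl ENNReal.one_ne_top hm
    (memLp_one_iff_integrable.2 hIG) h6 hlim
  exact tendsto_integral_of_L1' _ hIG.1
    (Eventually.of_forall fun n => hbd (P n) (N n) (hP n) (hN n) (hm n)) h7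

/-! ### Bounds -/

lemma sum3 (F : Fin 3 → ℝ) (c : ℝ) (h : ∀ i, |F i| ≤ c) : |∑ i, F i| ≤ 3 * c := by
  refine (Finset.abs_sum_le_sum_abs _ _).trans ?_
  refine (Finset.sum_le_sum fun i _ => h i).trans ?_
  simp

lemma mul_le' {x y a b : ℝ} (hx : |x| ≤ a) (hy : |y| ≤ b) : |x * y| ≤ a * b := by
  rw [abs_mul]
  exact mul_le_mul hx hy (abs_nonneg _) ((abs_nonneg _).trans hx)

lemma up_le {P : Bil} {p : Cov} {C a : ℝ} (hP : ∀ i j, |P i j| ≤ C) (hp : ∀ i, |p i| ≤ a)
    (i : Fin 3) : |up P p i| ≤ 3 * (C * a) :=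
  sum3 _ _ fun j => mul_le' (hP i j) (hp j)

lemma tr2_le {P H : Bil} {C h : ℝ} (hP : ∀ i j, |P i j| ≤ C) (hH : ∀ i j, |H i j| ≤ h) :
    |tr2 P H| ≤ 3 * (3 * (C * h)) :=
  sum3 _ _ fun i => sum3 _ _ fun j => mul_le' (hP i j) (hH i j)

lemma ev_le {B : Bil} {v w : Cov} {c a b : ℝ} (hB : ∀ i j, |B i j| ≤ c) (hv : ∀ i, |v i| ≤ a)
    (hw : ∀ i, |w i| ≤ b) : |ev B v w| ≤ 3 * (3 * (c * a * b)) :=
  sum3 _ _ fun i => sum3 _ _ fun j => mul_le' (mul_le' (hB i j) (hv i)) (hw j)

lemma dd_le {P H : Bil} {C h : ℝ} (hP : ∀ i j, |P i j| ≤ C) (hH : ∀ i j, |H i j| ≤ h) :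
    |dd P H H| ≤ 3 * (3 * (3 * (3 * (C * C * h * h)))) :=
  sum3 _ _ fun i => sum3 _ _ fun j => sum3 _ _ fun k => sum3 _ _ fun l =>
    mul_le' (mul_le' (mul_le' (hP i k) (hP j l)) (hH i j)) (hH k l)

lemma app_le {P H : Bil} {p : Cov} {C h a : ℝ} (hP : ∀ i j, |P i j| ≤ C)
    (hH : ∀ i j, |H i j| ≤ h) (hp : ∀ i, |p i| ≤ a) (i : Fin 3) :
    |app P H p i| ≤ 3 * (h * (3 * (C * a))) :=
  sum3 _ _ fun j => mul_le' (hH i j) (up_le hP hp j)

lemma vn_le (p : Cov) (i : Fin 3) : |p i| ≤ vn p := by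
  unfold vn vsq
  rw [← Real.sqrt_sq_eq_abs]
  apply Real.sqrt_le_sqrt
  exact Finset.single_le_sum (f := fun i => p i ^ 2) (fun _ _ => sq_nonneg _) (Finset.mem_univ i)

lemma vsq_nonneg (p : Cov) : 0 ≤ vsq p := Finset.sum_nonneg fun _ _ => sq_nonneg _

lemma msq_nonneg (M : Bil) : 0 ≤ msq M :=
  Finset.sum_nonneg fun _ _ => Finset.sum_nonneg fun _ _ => sq_nonneg _

lemma vn_sq (p : Cov) : vn p ^ 2 = vsq p := Real.sq_sqrt (vsq_nonneg p)

lemma msq_le (M : Bil) (i j : Fin 3) : |M i j| ≤ Real.sqrt (msq M) := by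
  unfold msq
  rw [← Real.sqrt_sq_eq_abs]
  apply Real.sqrt_le_sqrt
  refine le_trans ?_ (Finset.single_le_sum (f := fun i => ∑ j, M i j ^ 2)
    (fun i _ => Finset.sum_nonneg fun j _ => sq_nonneg _) (Finset.mem_univ i))
  exact Finset.single_le_sum (f := fun j => M i j ^ 2) (fun j _ => sq_nonneg _)
    (Finset.mem_univ j)

lemma ld_ge {P : Bil} {d : ℝ} {p : Cov} (h0 : 0 ≤ ev P p p) (_ : 0 < d) : d ≤ ld P d p := by
  unfold ld
  apply Real.le_sqrt_of_sq_le
  linarith

lemma vn_le_ld {P : Bil} {d C : ℝ} {p : Cov} (hC : 1 ≤ C) (h0 : vsq p ≤ C * ev P p p)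
    (h1 : 0 ≤ ev P p p) : vn p ≤ C * ld P d p := by
  have h2 : ld P d p ^ 2 = ev P p p + d ^ 2 := Real.sq_sqrt (by positivity)
  have h3 : 0 ≤ ld P d p := Real.sqrt_nonneg _
  apply le_of_sq_le_sq _ (by positivity)
  rw [vn_sq, mul_pow, h2]
  have : C * ev P p p ≤ C ^ 2 * ev P p p := by
    apply mul_le_mul_of_nonneg_right _ h1
    nlinarith
  nlinarith [sq_nonneg d, sq_nonneg C, mul_nonneg (sq_nonneg C) (sq_nonneg d)]

lemma Dd_le {P Rc H : Bil} {p : Cov} {C h d : ℝ} (hC : 1 ≤ C) (hd : 0 < d)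
    (hP : ∀ i j, |P i j| ≤ C) (hH : ∀ i j, |H i j| ≤ h) (h0 : 0 ≤ ev P p p)
    (h1 : vsq p ≤ C * ev P p p) (hR : |qf P Rc p| ≤ C * vsq p) :
    |Dd P Rc d p H| ≤ (1620 * C ^ 5 * h ^ 2 + C * vsq p) / d := by
  have hh : 0 ≤ h := (abs_nonneg _).trans (hH 0 0)
  obtain ⟨a, ha⟩ : ∃ a, a = vn p := ⟨_, rfl⟩
  have ha0 : 0 ≤ a := by rw [ha]; exact Real.sqrt_nonneg _
  have hpa : ∀ i, |p i| ≤ a := fun i => by rw [ha]; exact vn_le p i
  have hva : vsq p = a ^ 2 := by rw [ha, vn_sq]
  obtain ⟨l, hl⟩ : ∃ l, l = ld P d p := ⟨_, rfl⟩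
  have hld : d ≤ l := by rw [hl]; exact ld_ge h0 hd
  have hl0 : 0 < l := lt_of_lt_of_le hd hld
  have hal : a ≤ C * l := by rw [ha, hl]; exact vn_le_ld hC h1 h0
  have e1 := tr2_le hP hH
  have e2 := dd_le hP hH
  have e3 : |qf P H p| ≤ _ := ev_le hH (up_le hP hpa) (up_le hP hpa)
  have e4 := ev_le hP (app_le hP hH hpa) (app_le hP hH hpa)
  have f1 : |(tr2 P H ^ 2 - dd P H H - qf P Rc p) / ld P d p| ≤
      (162 * C ^ 2 * h ^ 2 + C * a ^ 2) / d := by
    rw [abs_div, ← hl, abs_of_pos hl0]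
    apply div_le_div₀ (by positivity) _ hd hld
    have g1 : |tr2 P H ^ 2| ≤ 81 * C ^ 2 * h ^ 2 := by
      rw [abs_pow]
      refine (pow_le_pow_left₀ (abs_nonneg _) e1 2).trans (le_of_eq (by ring))
    have g2 := abs_sub (tr2 P H ^ 2 - dd P H H) (qf P Rc p)
    have g3 := abs_sub (tr2 P H ^ 2) (dd P H H)
    rw [hva] at hR
    have g4 : 3 * (3 * (3 * (3 * (C * C * h * h)))) = 81 * C ^ 2 * h ^ 2 := by ring
    linarith
  have f2 : |(qf P H p * tr2 P H - ev P (app P H p) (app P H p)) / ld P d p ^ 3| ≤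
      1458 * C ^ 5 * h ^ 2 / d := by
    rw [abs_div, ← hl, abs_of_pos (pow_pos hl0 3), div_le_div_iff₀ (pow_pos hl0 3) hd]
    have g1 : |qf P H p * tr2 P H - ev P (app P H p) (app P H p)| ≤ 1458 * C ^ 3 * h ^ 2 * a ^ 2 := by
      have k1 := abs_sub (qf P H p * tr2 P H) (ev P (app P H p) (app P H p))
      have k2 := mul_le' e3 e1
      have k3 : 3 * (3 * (h * (3 * (C * a)) * (3 * (C * a)))) * (3 * (3 * (C * h))) =
        729 * C ^ 3 * h ^ 2 * a ^ 2 := by ring
      have k4 : 3 * (3 * (C * (3 * (h * (3 * (C * a)))) * (3 * (h * (3 * (C * a)))))) =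
        729 * C ^ 3 * h ^ 2 * a ^ 2 := by ring
      linarith
    have g2 : a ^ 2 ≤ C ^ 2 * l ^ 2 := by
      rw [← mul_pow]; exact pow_le_pow_left₀ ha0 hal 2
    calc |qf P H p * tr2 P H - ev P (app P H p) (app P H p)| * d
        ≤ (1458 * C ^ 3 * h ^ 2 * a ^ 2) * d := mul_le_mul_of_nonneg_right g1 hd.le
      _ ≤ (1458 * C ^ 3 * h ^ 2 * (C ^ 2 * l ^ 2)) * l := by
          apply mul_le_mul _ hld hd.le (by positivity)
          apply mul_le_mul_of_nonneg_left g2 (by positivity)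
      _ = 1458 * C ^ 5 * h ^ 2 * l ^ 3 := by ring
  have f3 := abs_sub ((tr2 P H ^ 2 - dd P H H - qf P Rc p) / ld P d p)
    ((qf P H p * tr2 P H - ev P (app P H p) (app P H p)) / ld P d p ^ 3)
  have f4 : (162 * C ^ 2 * h ^ 2 + C * a ^ 2) / d + 1458 * C ^ 5 * h ^ 2 / d ≤
      (1620 * C ^ 5 * h ^ 2 + C * vsq p) / d := by
    rw [← add_div, hva]
    apply div_le_div_of_nonneg_right _ hd.le
    have : C ^ 2 * h ^ 2 ≤ C ^ 5 * h ^ 2 := by
      apply mul_le_mul_of_nonneg_right _ (by positivity)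
      exact pow_le_pow_right₀ hC (by norm_num)
    nlinarith
  exact f3.trans ((add_le_add f1 f2).trans f4)

lemma Y_le {P H : Bil} {p : Cov} {C h d : ℝ} (hC : 1 ≤ C) (hd : 0 < d)
    (hP : ∀ i j, |P i j| ≤ C) (hH : ∀ i j, |H i j| ≤ h) (h0 : 0 ≤ ev P p p)
    (h1 : vsq p ≤ C * ev P p p) (i : Fin 3) :
    |up P (fun j => tr2 P H * p j - app P H p j) i / ld P d p| ≤ 54 * C ^ 3 * h := by
  have hh : 0 ≤ h := (abs_nonneg _).trans (hH 0 0)
  obtain ⟨a, ha⟩ : ∃ a, a = vn p := ⟨_, rfl⟩
  have ha0 : 0 ≤ a := by rw [ha]; exact Real.sqrt_nonneg _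
  have hpa : ∀ i, |p i| ≤ a := fun i => by rw [ha]; exact vn_le p i
  obtain ⟨l, hl⟩ : ∃ l, l = ld P d p := ⟨_, rfl⟩
  have hld : d ≤ l := by rw [hl]; exact ld_ge h0 hd
  have hl0 : 0 < l := lt_of_lt_of_le hd hld
  have hal : a ≤ C * l := by rw [ha, hl]; exact vn_le_ld hC h1 h0
  have e0 : ∀ j, |tr2 P H * p j - app P H p j| ≤ 18 * C * h * a := by
    intro j
    have e1 := mul_le' (tr2_le hP hH) (hpa j)
    have e2 := app_le hP hH hpa j
    have e3 := abs_sub (tr2 P H * p j) (app P H p j)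
    have e4 : 3 * (3 * (C * h)) * a + 3 * (h * (3 * (C * a))) = 18 * C * h * a := by ring
    linarith
  have e1 := up_le hP e0 i
  rw [abs_div, ← hl, abs_of_pos hl0, div_le_iff₀ hl0]
  refine e1.trans ?_
  have e2 : 3 * (C * (18 * C * h * a)) = 54 * C ^ 2 * h * a := by ring
  rw [e2]
  calc 54 * C ^ 2 * h * a ≤ 54 * C ^ 2 * h * (C * l) := mul_le_mul_of_nonneg_left hal (by positivity)
    _ = 54 * C ^ 3 * h * l := by ring

/-! ### Continuity -/

section cont
variable {X : Type} [TopologicalSpace X] {p : X → Cov} {H : X → Bil}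

lemma c_up (P : Bil) (hp : ∀ i, Continuous fun x => p x i) (i : Fin 3) :
    Continuous fun x => up P (p x) i :=
  continuous_finsetSum _ fun j _ => continuous_const.mul (hp j)

lemma c_tr2 (P : Bil) (hH : ∀ i j, Continuous fun x => H x i j) :
    Continuous fun x => tr2 P (H x) :=
  continuous_finsetSum _ fun i _ => continuous_finsetSum _ fun j _ =>
    continuous_const.mul (hH i j)

lemma c_dd (P : Bil) (hH : ∀ i j, Continuous fun x => H x i j) :
    Continuous fun x => dd P (H x) (H x) :=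
  continuous_finsetSum _ fun i _ => continuous_finsetSum _ fun j _ =>
    continuous_finsetSum _ fun k _ => continuous_finsetSum _ fun l _ =>
      (continuous_const.mul (hH i j)).mul (hH k l)

lemma c_ev {v w : X → Cov} (hH : ∀ i j, Continuous fun x => H x i j)
    (hv : ∀ i, Continuous fun x => v x i) (hw : ∀ i, Continuous fun x => w x i) :
    Continuous fun x => ev (H x) (v x) (w x) :=
  continuous_finsetSum _ fun i _ => continuous_finsetSum _ fun j _ =>
    ((hH i j).mul (hv i)).mul (hw j)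

lemma c_app (P : Bil) (hH : ∀ i j, Continuous fun x => H x i j)
    (hp : ∀ i, Continuous fun x => p x i) (i : Fin 3) :
    Continuous fun x => app P (H x) (p x) i :=
  continuous_finsetSum _ fun j _ => (hH i j).mul (c_up P hp j)

lemma c_ld (P : Bil) (d : ℝ) (hp : ∀ i, Continuous fun x => p x i) :
    Continuous fun x => ld P d (p x) := by
  have h1 : Continuous fun x => ev P (p x) (p x) + d ^ 2 :=
    (c_ev (H := fun _ => P) (fun _ _ => continuous_const) hp hp).add continuous_const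
  exact h1.sqrt

lemma c_Dd (P Rc : Bil) {d : ℝ} (hd : 0 < d) (h0 : ∀ p, 0 ≤ ev P p p)
    (hH : ∀ i j, Continuous fun x => H x i j) (hp : ∀ i, Continuous fun x => p x i) :
    Continuous fun x => Dd P Rc d (p x) (H x) := by
  have hl : ∀ x, ld P d (p x) ≠ 0 := fun x => (lt_of_lt_of_le hd (ld_ge (h0 _) hd)).ne'
  have hap := c_app P hH hp
  refine Continuous.sub (Continuous.div ?_ (c_ld P d hp) hl)
    (Continuous.div ?_ ((c_ld P d hp).pow 3) (fun x => pow_ne_zero 3 (hl x)))
  · exact ((((c_tr2 P hH).pow 2).sub (c_dd P hH)).sub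
      (c_ev (fun _ _ => continuous_const) (c_up P hp) (c_up P hp)))
  · exact ((c_ev hH (c_up P hp) (c_up P hp)).mul (c_tr2 P hH)).sub
      (c_ev (fun _ _ => continuous_const) hap hap)

lemma c_Y (P : Bil) {d : ℝ} (hd : 0 < d) (h0 : ∀ p, 0 ≤ ev P p p)
    (hH : ∀ i j, Continuous fun x => H x i j) (hp : ∀ i, Continuous fun x => p x i) (i : Fin 3) :
    Continuous fun x => up P (fun j => tr2 P (H x) * p x j - app P (H x) (p x) j) i
      / ld P d (p x) := by
  have hl : ∀ x, ld P d (p x) ≠ 0 := fun x => (lt_of_lt_of_le hd (ld_ge (h0 _) hd)).ne'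
  have hap := c_app P hH hp
  refine Continuous.div ?_ (c_ld P d hp) hl
  exact c_up P (p := fun x j => tr2 P (H x) * p x j - app P (H x) (p x) j)
    (fun j => ((c_tr2 P hH).mul (hp j)).sub (hap j)) i

end cont

lemma c_H (g : TensorField) (x : E3) (i j : Fin 3) :
    Continuous fun q : Cov × Bil => cHess g x q.1 q.2 i j := by
  have : (fun q : Cov × Bil => cHess g x q.1 q.2 i j) =
      fun q : Cov × Bil => q.2 i j - ∑ k, christoffel g k i j x * q.1 k := by
    funext q; rfl
  rw [this]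
  exact (continuous_snd.matrix_elem i j).sub (continuous_finsetSum _ fun k _ =>
    continuous_const.mul ((continuous_apply k).comp continuous_fst))

lemma c_p (i : Fin 3) : Continuous fun q : Cov × Bil => q.1 i :=
  (continuous_apply i).comp continuous_fst

/-! ### The geometric quantities on a compact set -/

lemma H_le {g : TensorField} {x : E3} {C : ℝ}
    (hG : ∀ k i j, |christoffel g k i j x| ≤ C) (p : Cov) (M : Bil) (i j : Fin 3) :
    |cHess g x p M i j| ≤ Real.sqrt (msq M) + 3 * (C * vn p) := by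
  have h1 : cHess g x p M i j = M i j - ∑ k, christoffel g k i j x * p k := rfl
  rw [h1]
  have h2 := abs_sub (M i j) (∑ k, christoffel g k i j x * p k)
  have h3 := sum3 (fun k => christoffel g k i j x * p k) _ (fun k => mul_le' (hG k i j) (vn_le p k))
  have h4 := msq_le M i j
  linarith

lemma hsq_le {C : ℝ} (hC : 1 ≤ C) (p : Cov) (M : Bil) :
    (Real.sqrt (msq M) + 3 * (C * vn p)) ^ 2 ≤ 18 * C ^ 2 * (vsq p + msq M) := by
  have h1 : Real.sqrt (msq M) ^ 2 = msq M := Real.sq_sqrt (msq_nonneg M)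
  have h2 := vn_sq p
  have h3 : (Real.sqrt (msq M) + 3 * (C * vn p)) ^ 2 ≤ 2 * msq M + 18 * C ^ 2 * vsq p := by
    have h5 := sq_nonneg (Real.sqrt (msq M) - 3 * (C * vn p))
    have h6 : (Real.sqrt (msq M) + 3 * (C * vn p)) ^ 2 + (Real.sqrt (msq M) - 3 * (C * vn p)) ^ 2 =
        2 * Real.sqrt (msq M) ^ 2 + 18 * C ^ 2 * vn p ^ 2 := by ring
    rw [h1, h2] at h6
    linarith
  have h4 : (1 : ℝ) ≤ C ^ 2 := one_le_pow₀ hC
  nlinarith [msq_nonneg M, vsq_nonneg p]

/-! ### The formula for smooth functions -/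

lemma pd_zero {f : E3 → ℝ} {x : E3} (hx : x ∉ tsupport f) (i : Fin 3) : pd i f x = 0 := by
  unfold pd
  rw [fderiv_of_notMem_tsupport ℝ hx]
  rfl

/-- integration by parts on an open set -/
lemma cut {U : Set E3} (hU : IsOpen U) {f F : E3 → ℝ} (hf : ContDiff ℝ ∞ f)
    (hc : HasCompactSupport f) (hs : tsupport f ⊆ U) (hF : ContDiffOn ℝ 1 F U) (i : Fin 3) :
    ∫ x in tsupport f, (pd i f x * F x + f x * pd i F x) = 0 := by
  have hK : IsCompact (tsupport f) := hc
  have hpdf : Continuous fun x => pd i f x :=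
    (hf.continuous_fderiv (by norm_num)).clm_apply continuous_const
  have hpdF : ContinuousOn (fun x => pd i F x) U :=
    (hF.continuousOn_fderiv_of_isOpen hU le_rfl).clm_apply continuousOn_const
  have i1 : IntegrableOn (fun x => pd i f x * F x) (tsupport f) :=
    (hpdf.continuousOn.mul (hF.continuousOn.mono hs)).integrableOn_compact hK
  have i2 : IntegrableOn (fun x => f x * pd i F x) (tsupport f) :=
    (hf.continuous.continuousOn.mul (hpdF.mono hs)).integrableOn_compact hK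
  have i3 : IntegrableOn (fun x => f x * F x) (tsupport f) :=
    (hf.continuous.continuousOn.mul (hF.continuousOn.mono hs)).integrableOn_compact hK
  have z1 : ∀ x, x ∉ tsupport f → pd i f x * F x = 0 := fun x hx => by
    rw [pd_zero hx, zero_mul]
  have z2 : ∀ x, x ∉ tsupport f → f x * pd i F x = 0 := fun x hx => by
    rw [image_eq_zero_of_notMem_tsupport hx, zero_mul]
  have z3 : ∀ x, x ∉ tsupport f → f x * F x = 0 := fun x hx => by
    rw [image_eq_zero_of_notMem_tsupport hx, zero_mul]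
  have glob : ∀ u : E3 → ℝ, IntegrableOn u (tsupport f) → (∀ x, x ∉ tsupport f → u x = 0) →
      Integrable u := fun u hu hz => by
    rw [← integrableOn_iff_integrable_of_support_subset (s := tsupport f)]
    · exact hu
    · intro x hx
      by_contra h
      exact hx (hz x h)
  have h0 := integral_mul_fderiv_eq_neg_fderiv_mul_of_integrable (μ := volume)
    (f := f) (g := F) (v := EuclideanSpace.single i 1) (glob _ i1 z1) (glob _ i2 z2)
    (glob _ i3 z3) (fun x _ => (hf.differentiable (by norm_num)) x)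
    (fun x hx => (hF.contDiffAt (hU.mem_nhds (hs hx))).differentiableAt (by norm_num))
  rw [integral_add i1 i2, setIntegral_eq_integral_of_forall_compl_eq_zero z1,
    setIntegral_eq_integral_of_forall_compl_eq_zero z2]
  have h1 : ∫ x, f x * pd i F x = - ∫ x, pd i f x * F x := h0
  rw [h1]
  ring

lemma smooth_id (hZD : Stmt_ZD) {U : Set E3} {g : TensorField} (hU : IsOpen U)
    (hg : MetricOn U g) {v : E3 → ℝ} (hv : ContDiff ℝ ∞ v) {f : E3 → ℝ} {d : ℝ}
    (hf : ContDiff ℝ ∞ f) (hc : HasCompactSupport f) (hs : tsupport f ⊆ U) (hd : 0 < d) :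
    ContinuousOn (fun x => f x * Ddx g d x (grad v x) (hess2 v x) * volDen g x) U ∧
    ContinuousOn (fun x => (∑ i, pd i f x * Yf g d x (grad v x) (hess2 v x) i) * volDen g x) U ∧
    ∫ x in tsupport f, f x * Ddx g d x (grad v x) (hess2 v x) * volDen g x =
      - ∫ x in tsupport f, (∑ i, pd i f x * Yf g d x (grad v x) (hess2 v x) i) * volDen g x := by
  have hT : TensorOn U (fun _ => (0 : Bil)) :=
    ⟨fun i j => contDiffOn_const, fun x _ => Matrix.isSymm_zero⟩
  obtain ⟨hY1, -, hY2, -⟩ := hZD (1 / 2) U g (fun _ => 0) v d (by norm_num) (by norm_num) hU hg hT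
    hv.contDiffOn hd
  have hcpd : ∀ i, ContinuousOn
      (fun x => pd i (fun y => volDen g y * Yf g d y (grad v y) (hess2 v y) i) x) U := fun i =>
    ((hY1 i).continuousOn_fderiv_of_isOpen hU le_rfl).clm_apply continuousOn_const
  have hcD : ContinuousOn (fun x => f x * Ddx g d x (grad v x) (hess2 v x) * volDen g x) U := by
    refine (hf.continuous.continuousOn.mul (continuousOn_finsetSum Finset.univ fun i _ => hcpd i)).congr ?_
    intro x hx
    simp only [Pi.mul_apply]
    rw [hY2 x hx]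
    ring
  have hpdf : ∀ i, Continuous fun x => pd i f x := fun i =>
    (hf.continuous_fderiv (by norm_num)).clm_apply continuous_const
  have hcY : ContinuousOn
      (fun x => (∑ i, pd i f x * Yf g d x (grad v x) (hess2 v x) i) * volDen g x) U := by
    refine (continuousOn_finsetSum Finset.univ fun i _ =>
      (hpdf i).continuousOn.mul (hY1 i).continuousOn).congr ?_
    intro x _
    simp only [Pi.mul_apply]
    rw [Finset.sum_mul]
    exact Finset.sum_congr rfl fun i _ => by ring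
  refine ⟨hcD, hcY, ?_⟩
  have hK : IsCompact (tsupport f) := hc
  have hi : ∀ i, IntegrableOn (fun x => pd i f x * (volDen g x * Yf g d x (grad v x) (hess2 v x) i)
      + f x * pd i (fun y => volDen g y * Yf g d y (grad v y) (hess2 v y) i) x) (tsupport f) :=
    fun i => (((hpdf i).continuousOn.mul ((hY1 i).continuousOn.mono hs)).add
      (hf.continuous.continuousOn.mul ((hcpd i).mono hs))).integrableOn_compact hK
  have h1 : ∫ x in tsupport f, ∑ i : Fin 3,
      (pd i f x * (volDen g x * Yf g d x (grad v x) (hess2 v x) i)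
      + f x * pd i (fun y => volDen g y * Yf g d y (grad v y) (hess2 v y) i) x) = 0 := by
    rw [integral_finsetSum _ fun i _ => hi i]
    exact Finset.sum_eq_zero fun i _ => cut hU hf hc hs (hY1 i) i
  have h2 : ∫ x in tsupport f, ((∑ i, pd i f x * Yf g d x (grad v x) (hess2 v x) i) * volDen g x
      + f x * Ddx g d x (grad v x) (hess2 v x) * volDen g x) = 0 := by
    rw [← h1]
    apply setIntegral_congr_fun (isClosed_tsupport f).measurableSet
    intro x hx
    simp only
    rw [Finset.sum_add_distrib, ← Finset.mul_sum, hY2 x (hs hx), Finset.sum_mul]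
    congr 1
    · exact Finset.sum_congr rfl fun i _ => by ring
    · ring
  rw [integral_add ((hcY.mono hs).integrableOn_compact hK)
    ((hcD.mono hs).integrableOn_compact hK)] at h2
  linarith

end MH2I

open MH2I in
/-- The divergence formula for `Y_d` and Sobolev functions. -/
theorem H2I (hZD : Stmt_ZD) (hCT : Stmt_CT) : Stmt_H2I := by
  intro U g w G M hU hg hH f d hf hc hs hd
  have hT : TensorOn U (fun _ => (0 : Bil)) :=
    ⟨fun i j => contDiffOn_const, fun x _ => Matrix.isSymm_zero⟩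
  have hK : IsCompact (tsupport f) := hc
  obtain ⟨C, hC, hCT⟩ := hCT U g (fun _ => 0) hU hg hT (tsupport f) hK hs
  obtain ⟨v, hv, -, cG, cM⟩ := hH.approx (tsupport f) hK hs
  obtain ⟨μ, hμ⟩ : ∃ μ : Measure E3, μ = volume.restrict (tsupport f) := ⟨_, rfl⟩
  have hfin : IsFiniteMeasure μ := by
    rw [hμ]
    exact ⟨by simpa using hK.measure_lt_top⟩
  have hgp : ∀ n i, Continuous fun x => pd i (v n) x := fun n i =>
    ((hv n).continuous_fderiv (by norm_num)).clm_apply continuous_const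
  have hpc : ∀ n i, ContDiff ℝ ∞ fun x => pd i (v n) x := fun n i =>
    ((hv n).fderiv_right (m := ∞) (by simp)).clm_apply contDiff_const
  have hgh : ∀ n i j, Continuous fun x => pd i (pd j (v n)) x := fun n i j =>
    ((hpc n j).continuous_fderiv (by norm_num)).clm_apply continuous_const
  have hbdd : ∀ u : E3 → ℝ, Continuous u → ∀ q : ℝ≥0∞, MemLp u q μ := by
    intro u hu q
    obtain ⟨B, hB⟩ := hK.exists_bound_of_continuousOn hu.continuousOn
    refine MemLp.of_bound hu.aestronglyMeasurable B ?_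
    rw [hμ]
    exact ae_restrict_of_forall_mem hK.measurableSet hB
  have hG2 : ∀ i, MemLp (fun x => G x i) 2 μ := fun i => by
    rw [hμ] at hfin ⊢
    exact (hH.memG _ hK hs i).mono_exponent (by norm_num)
  have hM2 : ∀ i j, MemLp (fun x => M x i j) 2 μ := fun i j => by
    rw [hμ]; exact hH.memM _ hK hs i j
  have cG2 : ∀ i, Tendsto (fun n => eLpNorm (fun x => pd i (v n) x - G x i) 2 μ) atTop
      (𝓝 0) := by
    intro i
    rw [hμ] at hfin hG2 ⊢
    have h1 : ∀ n, eLpNorm (fun x => pd i (v n) x - G x i) 2 (volume.restrict (tsupport f)) ≤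
        eLpNorm (fun x => pd i (v n) x - G x i) 4 (volume.restrict (tsupport f)) *
          (volume.restrict (tsupport f)) Set.univ ^ (1 / (2 : ℝ≥0∞).toReal - 1 / (4 : ℝ≥0∞).toReal) :=
      fun n => eLpNorm_le_eLpNorm_mul_rpow_measure_univ (by norm_num)
        ((hgp n i).aestronglyMeasurable.sub (hG2 i).1)
    refine tendsto_of_tendsto_of_tendsto_of_le_of_le tendsto_const_nhds ?_
      (fun n => zero_le) h1
    have h2 := ENNReal.Tendsto.mul_const (cG i) (b := (volume.restrict (tsupport f)) Set.univ ^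
      (1 / (2 : ℝ≥0∞).toReal - 1 / (4 : ℝ≥0∞).toReal)) (Or.inr (by
        apply ENNReal.rpow_ne_top_of_nonneg
        · norm_num
        · exact measure_ne_top _ _))
    rwa [zero_mul] at h2
  have cM2 : ∀ i j, Tendsto (fun n => eLpNorm (fun x => pd i (pd j (v n)) x - M x i j) 2 μ) atTop
      (𝓝 0) := by
    rw [hμ]; exact cM
  -- a subsequence
  obtain ⟨ns, hns, hae⟩ := sub_ae (μ := μ) (Finset.univ : Finset (Fin 3 ⊕ Fin 3 × Fin 3))
    (Sum.elim (fun i n x => pd i (v n) x) (fun ij n x => pd ij.1 (pd ij.2 (v n)) x))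
    (Sum.elim (fun i x => G x i) (fun ij x => M x ij.1 ij.2)) (by
      rintro (i | ⟨i, j⟩)
      · exact tendstoInMeasure_of_tendsto_eLpNorm (by norm_num)
          (fun n => (hgp n i).aestronglyMeasurable) (hG2 i).1 (cG2 i)
      · exact tendstoInMeasure_of_tendsto_eLpNorm (by norm_num)
          (fun n => (hgh n i j).aestronglyMeasurable) (hM2 i j).1 (cM2 i j))
  -- bounds on the compact set
  obtain ⟨B, hB⟩ : ∃ B : ℝ, 0 ≤ B ∧ ∀ x, |f x| ≤ B ∧ ∀ i, |pd i f x| ≤ B := by
    have hpdf : ∀ i, Continuous fun x => pd i f x := fun i =>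
      (hf.continuous_fderiv (by norm_num)).clm_apply continuous_const
    obtain ⟨B₀, hB₀⟩ := hK.exists_bound_of_continuousOn hf.continuous.continuousOn
    choose B₁ hB₁ using fun i => hK.exists_bound_of_continuousOn (hpdf i).continuousOn
    refine ⟨|B₀| + ∑ i, |B₁ i|, by positivity, fun x => ?_⟩
    by_cases hx : x ∈ tsupport f
    · refine ⟨?_, fun i => ?_⟩
      · have := hB₀ x hx
        rw [Real.norm_eq_abs] at this
        exact this.trans ((le_abs_self _).trans (le_add_of_nonneg_right (by positivity)))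
      · have := hB₁ i x hx
        rw [Real.norm_eq_abs] at this
        refine this.trans ((le_abs_self _).trans ?_)
        exact (Finset.single_le_sum (f := fun i => |B₁ i|) (fun _ _ => abs_nonneg _)
          (Finset.mem_univ i)).trans (le_add_of_nonneg_left (abs_nonneg _))
    · rw [image_eq_zero_of_notMem_tsupport hx]
      refine ⟨by simpa using by positivity, fun i => ?_⟩
      rw [pd_zero hx]
      simpa using by positivity
  obtain ⟨hB0, hB⟩ := hB
  have hev : ∀ x ∈ tsupport f, ∀ p, 0 ≤ ev (g x)⁻¹ p p ∧ vsq p ≤ C * ev (g x)⁻¹ p p := by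
    intro x hx p
    have h1 := ((hCT x hx).1 p).1
    rw [div_le_iff₀ (by linarith)] at h1
    have h2 : 0 ≤ ev (g x)⁻¹ p p := le_trans (div_nonneg (vsq_nonneg p) (by linarith))
      ((hCT x hx).1 p).1
    exact ⟨h2, by linarith⟩
  have hvol : ∀ x ∈ tsupport f, |volDen g x| ≤ C := fun x hx => by
    rw [abs_of_nonneg (show 0 ≤ volDen g x from Real.sqrt_nonneg _)]
    exact (hCT x hx).2.2.2.2.2.2.2.2.2.2
  have hbD : ∀ᵐ x ∂μ, ∀ p m, |f x * Ddx g d x p m * volDen g x| ≤
      (B * ((1620 * C ^ 5 * (18 * C ^ 2) + C) / d) * C) * (1 + vsq p + msq m) := by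
    rw [hμ]
    refine ae_restrict_of_forall_mem hK.measurableSet fun x hx p m => ?_
    obtain ⟨c1, -, c3, c4, -, -, -, -, c9, -, c11⟩ := hCT x hx
    have h1 := Dd_le hC hd c9 (H_le c4 p m) (hev x hx p).1 (hev x hx p).2 (c3 p)
    have h2 := hsq_le hC p m
    have h3 := vsq_nonneg p
    have h4 := msq_nonneg m
    have h5 : |Ddx g d x p m| ≤ ((1620 * C ^ 5 * (18 * C ^ 2) + C) / d) *
        (1 + vsq p + msq m) := by
      refine h1.trans ?_
      rw [div_mul_eq_mul_div]
      apply div_le_div_of_nonneg_right _ hd.le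
      have h6 : 1620 * C ^ 5 * (Real.sqrt (msq m) + 3 * (C * vn p)) ^ 2 ≤
          1620 * C ^ 5 * (18 * C ^ 2 * (vsq p + msq m)) :=
        mul_le_mul_of_nonneg_left h2 (by positivity)
      have h7 : 0 ≤ 1620 * C ^ 5 * (18 * C ^ 2) := by positivity
      nlinarith
    calc |f x * Ddx g d x p m * volDen g x|
        ≤ (B * (((1620 * C ^ 5 * (18 * C ^ 2) + C) / d) * (1 + vsq p + msq m))) * C :=
          mul_le' (mul_le' (hB x).1 h5) (hvol x hx)
      _ = _ := by ring
  have hbY : ∀ᵐ x ∂μ, ∀ p m, |(∑ i, pd i f x * Yf g d x p m i) * volDen g x| ≤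
      ((3 * (B * (54 * C ^ 3 * (18 * C ^ 2)))) * C) * (1 + vsq p + msq m) := by
    rw [hμ]
    refine ae_restrict_of_forall_mem hK.measurableSet fun x hx p m => ?_
    obtain ⟨c1, -, c3, c4, -, -, -, -, c9, -, c11⟩ := hCT x hx
    have h2 := hsq_le hC p m
    have h3 := vsq_nonneg p
    have h4 := msq_nonneg m
    have h5 : ∀ i, |Yf g d x p m i| ≤ 54 * C ^ 3 * (18 * C ^ 2) * (1 + vsq p + msq m) := by
      intro i
      have h1 := Y_le hC hd c9 (H_le c4 p m) (hev x hx p).1 (hev x hx p).2 i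
      refine h1.trans ?_
      rw [mul_assoc (54 * C ^ 3)]
      apply mul_le_mul_of_nonneg_left _ (by positivity)
      have h6 : Real.sqrt (msq m) + 3 * (C * vn p) ≤
          1 + (Real.sqrt (msq m) + 3 * (C * vn p)) ^ 2 := by
        nlinarith [sq_nonneg (Real.sqrt (msq m) + 3 * (C * vn p) - 1),
          sq_nonneg (Real.sqrt (msq m) + 3 * (C * vn p))]
      have h7 : (1 : ℝ) ≤ C ^ 2 := one_le_pow₀ hC
      nlinarith
    calc |(∑ i, pd i f x * Yf g d x p m i) * volDen g x|
        ≤ (3 * (B * (54 * C ^ 3 * (18 * C ^ 2) * (1 + vsq p + msq m)))) * C :=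
          mul_le' (sum3 _ _ fun i => mul_le' ((hB x).2 i) (h5 i)) (hvol x hx)
      _ = _ := by ring
  have hcD : ∀ᵐ x ∂μ, Continuous fun q : Cov × Bil => f x * Ddx g d x q.1 q.2 * volDen g x := by
    rw [hμ]
    refine ae_restrict_of_forall_mem hK.measurableSet fun x hx => ?_
    exact (continuous_const.mul (c_Dd _ _ hd (fun p => (hev x hx p).1) (c_H g x) c_p)).mul
      continuous_const
  have hcY : ∀ᵐ x ∂μ, Continuous fun q : Cov × Bil =>
      (∑ i, pd i f x * Yf g d x q.1 q.2 i) * volDen g x := by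
    rw [hμ]
    refine ae_restrict_of_forall_mem hK.measurableSet fun x hx => ?_
    exact (continuous_finsetSum _ fun i _ => continuous_const.mul
      (c_Y _ hd (fun p => (hev x hx p).1) (c_H g x) c_p i)).mul continuous_const
  have hsm := fun n => smooth_id hZD hU hg (hv n) hf hc hs hd
  have gD := gen (μ := μ) (fun n => grad (v (ns n))) (fun n => hess2 (v (ns n))) G M
    (fun n i => hbdd _ (hgp _ i) 2) (fun n i j => hbdd _ (hgh _ i j) 2) hG2 hM2
    (fun i => (cG2 i).comp hns.tendsto_atTop) (fun i j => (cM2 i j).comp hns.tendsto_atTop)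
    (fun i => hae (Sum.inl i) (Finset.mem_univ _)) (fun i j => hae (Sum.inr (i, j)) (Finset.mem_univ _))
    (fun x p m => f x * Ddx g d x p m * volDen g x) _ hbD hcD
    (fun n => by
      rw [hμ]
      exact ((hsm (ns n)).1.mono hs).aestronglyMeasurable hK.measurableSet)
  have gY := gen (μ := μ) (fun n => grad (v (ns n))) (fun n => hess2 (v (ns n))) G M
    (fun n i => hbdd _ (hgp _ i) 2) (fun n i j => hbdd _ (hgh _ i j) 2) hG2 hM2
    (fun i => (cG2 i).comp hns.tendsto_atTop) (fun i j => (cM2 i j).comp hns.tendsto_atTop)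
    (fun i => hae (Sum.inl i) (Finset.mem_univ _)) (fun i j => hae (Sum.inr (i, j)) (Finset.mem_univ _))
    (fun x p m => (∑ i, pd i f x * Yf g d x p m i) * volDen g x) _ hbY hcY
    (fun n => by
      rw [hμ]
      exact ((hsm (ns n)).2.1.mono hs).aestronglyMeasurable hK.measurableSet)
  rw [hμ] at gD gY
  have hz1 : ∀ x ∈ U \ tsupport f, f x * Ddx g d x (G x) (M x) * volDen g x = 0 := by
    intro x hx
    rw [image_eq_zero_of_notMem_tsupport hx.2]
    ring
  have hz2 : ∀ x ∈ U \ tsupport f,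
      (∑ i, pd i f x * Yf g d x (G x) (M x) i) * volDen g x = 0 := by
    intro x hx
    rw [Finset.sum_eq_zero fun i _ => by rw [pd_zero hx.2, zero_mul], zero_mul]
  refine ⟨?_, ?_, ?_⟩
  · exact IntegrableOn.of_forall_sdiff_eq_zero gD.1 hU.measurableSet hz1
  · exact IntegrableOn.of_forall_sdiff_eq_zero gY.1 hU.measurableSet hz2
  · rw [setIntegral_eq_of_subset_of_forall_sdiff_eq_zero hU.measurableSet hs hz1,
      setIntegral_eq_of_subset_of_forall_sdiff_eq_zero hU.measurableSet hs hz2]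
    have h1 := gD.2
    have h2 := gY.2.neg
    have h3 : (fun n => ∫ x in tsupport f,
        f x * Ddx g d x (grad (v (ns n)) x) (hess2 (v (ns n)) x) * volDen g x) =
        fun n => - ∫ x in tsupport f,
          (∑ i, pd i f x * Yf g d x (grad (v (ns n)) x) (hess2 (v (ns n)) x) i) * volDen g x := by
      funext n
      exact (hsm (ns n)).2.2
    rw [h3] at h1
    exact tendsto_nhds_unique h1 h2

end Pool.Agent.PFlow


end

section

/-!
# Module LSA: integration by parts with `ψ` of the filled function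
-/

open MeasureTheory Filter Topology
open scoped ContDiff

namespace Pool.Agent.PFlow

open Pool.Agent.PenroseSph

theorem LSA (hZD : Stmt_ZD) (hIB : Stmt_IB) (hAEG : Stmt_AEG) (hFA : Stmt_FA) : Stmt_LSA := by
  intro ε U g h a' b' s₀ s₁ t₀ t₁ W v C z₁ K ψ hε hε1 D d hd
  obtain ⟨-, hfillL, -⟩ := hFA a' b' s₀ s₁ W C z₁ D.trunc D.lip D.far
  obtain ⟨hgc, hae⟩ := hAEG a' b' s₀ s₁ W C z₁ D.trunc D.lip D.far
  obtain ⟨-, hZ1, -, hZ2⟩ :=
    hZD ε U g h v d hε hε1 D.openU D.met D.ten D.smooth.contDiffOn hd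
  have hψc : HasCompactSupport ψ :=
    isCompact_Icc.of_isClosed_subset (isClosed_tsupport ψ) (D.supp.trans Set.Ioo_subset_Icc_self)
  obtain ⟨C', hC'⟩ := D.diff.lipschitzWith_of_hasCompactSupport hψc one_ne_zero
  have hfL : LipschitzWith (C' * C) (fun x => ψ (fill W s₀ s₁ 0 z₁ x)) := hC'.comp hfillL
  have hsub : ∀ x, ψ (fill W s₀ s₁ 0 z₁ x) ≠ 0 → x ∈ K := fun x hx =>
    D.levels x (Set.Ioo_subset_Icc_self (D.supp (subset_tsupport ψ hx)))
  have hzero : ∀ x, x ∉ K → ψ (fill W s₀ s₁ 0 z₁ x) = 0 := fun x hx => by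
    by_contra h0
    exact hx (hsub x h0)
  have hts : tsupport (fun x => ψ (fill W s₀ s₁ 0 z₁ x)) ⊆ K :=
    closure_minimal (fun x hx => hsub x hx) D.compact.isClosed
  have hfc : HasCompactSupport (fun x => ψ (fill W s₀ s₁ 0 z₁ x)) :=
    D.compact.of_isClosed_subset (isClosed_tsupport _) hts
  have key := hIB U (fun i y => volDen g y * Zf ε g h d y (grad v y) (hess2 v y) i)
    (fun x => ψ (fill W s₀ s₁ 0 z₁ x)) (C' * C) D.openU hZ1 hfL hfc (hts.trans D.sub)
  have hL : ∫ x, ψ (fill W s₀ s₁ 0 z₁ x) *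
      ∑ i, pd i (fun y => volDen g y * Zf ε g h d y (grad v y) (hess2 v y) i) x =
      ∫ x in K, ψ (fill W s₀ s₁ 0 z₁ x) * DZx ε g h d x (grad v x) (hess2 v x) * volDen g x := by
    rw [← setIntegral_eq_integral_of_forall_compl_eq_zero (s := K)]
    · refine setIntegral_congr_fun D.compact.measurableSet (fun x hx => ?_)
      rw [hZ2 x (D.sub hx)]
      ring
    · intro x hx
      rw [hzero x hx, zero_mul]
  have hR : ∫ x, ∑ i, pd i (fun x => ψ (fill W s₀ s₁ 0 z₁ x)) x *
      (volDen g x * Zf ε g h d x (grad v x) (hess2 v x) i) =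
      ∫ x in K ∩ good W s₀ s₁ 0 z₁,
        deriv ψ (v x) * (∑ i, pd i v x * Zf ε g h d x (grad v x) (hess2 v x) i) * volDen g x := by
    rw [← integral_indicator (D.compact.measurableSet.inter hgc.measurableSet)]
    refine integral_congr_ae ?_
    filter_upwards [hae, hfillL.ae_differentiableAt] with x hx hdiff
    have hfd : HasFDerivAt (fun x => ψ (fill W s₀ s₁ 0 z₁ x))
        (deriv ψ (fill W s₀ s₁ 0 z₁ x) • fderiv ℝ (fill W s₀ s₁ 0 z₁) x) x :=
      ((D.diff.differentiable one_ne_zero).differentiableAt.hasDerivAt).comp_hasFDerivAt x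
        hdiff.hasFDerivAt
    by_cases hK : x ∈ K
    · by_cases hg : x ∈ good W s₀ s₁ 0 z₁
      · rw [Set.indicator_of_mem (show x ∈ K ∩ good W s₀ s₁ 0 z₁ from ⟨hK, hg⟩)]
        have h1 : fderiv ℝ (fill W s₀ s₁ 0 z₁) x = fderiv ℝ v x := by
          rw [hx.1 hg]
          exact Filter.EventuallyEq.fderiv_eq (D.agree x hK)
        have h2 : fill W s₀ s₁ 0 z₁ x = v x := by
          rw [hg.2, hg.1]
          exact (D.agree x hK).self_of_nhds
        have h3 : ∀ i, pd i (fun x => ψ (fill W s₀ s₁ 0 z₁ x)) x = deriv ψ (v x) * pd i v x := by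
          intro i
          unfold pd
          rw [hfd.fderiv, h1, h2]
          rfl
        simp only [h3]
        rw [Finset.mul_sum, Finset.sum_mul]
        refine Finset.sum_congr rfl fun i _ => ?_
        ring
      · rw [Set.indicator_of_notMem (fun h0 => hg h0.2)]
        refine Finset.sum_eq_zero fun i _ => ?_
        have h3 : pd i (fun x => ψ (fill W s₀ s₁ 0 z₁ x)) x = 0 := by
          unfold pd
          rw [hfd.fderiv, hx.2 hg, smul_zero]
          rfl
        rw [h3, zero_mul]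
    · rw [Set.indicator_of_notMem (fun h0 => hK h0.1)]
      refine Finset.sum_eq_zero fun i _ => ?_
      have h4 : (fun x => ψ (fill W s₀ s₁ 0 z₁ x)) =ᶠ[𝓝 x] fun _ => (0 : ℝ) := by
        filter_upwards [D.compact.isClosed.isOpen_compl.mem_nhds hK] with y hy
        exact hzero y hy
      have h3 : pd i (fun x => ψ (fill W s₀ s₁ 0 z₁ x)) x = 0 := by
        unfold pd
        rw [h4.fderiv_eq, fderiv_fun_const]
        rfl
      rw [h3, zero_mul]
  rw [hL, hR] at key
  exact key.symm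

end Pool.Agent.PFlow


end

section

/-!
# Block M: assembly
-/

namespace Pool.Agent.PFlow

namespace AllM

theorem pFR : Stmt_FR := FR
theorem pCR : Stmt_CR := CR pFR
theorem pID : Stmt_ID := ID pFR
theorem pPOS : Stmt_POS := POS pFR
theorem pBO : Stmt_BO := BO
theorem pJD : Stmt_JD := JD
theorem pLD : Stmt_LD := LD
theorem pSD : Stmt_SD := SD
theorem pZD : Stmt_ZD := ZD pBO pJD pLD pSD
theorem pIB : Stmt_IB := IB
theorem pCT : Stmt_CT := CT
theorem pUP : Stmt_UP := UP pCR pCT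
theorem pCHD : Stmt_CHD := CHD pCT
theorem pKER : Stmt_KER := KER
theorem pL4 : Stmt_L4 := L4
theorem pLOGW : Stmt_LOGW := LOGW pL4
theorem pH2I : Stmt_H2I := H2I pZD pCT
theorem pAPB : Stmt_APB := APB pUP pH2I pCT
theorem pAV : Stmt_AV := AV pKER pCHD
theorem pMO : Stmt_MO := MO
theorem pAP : Stmt_AP := AP pAV pMO pCT
theorem pAPW : Stmt_APW := APW pKER pMO
theorem pFA : Stmt_FA := FA
theorem pFM : Stmt_FM := FM
theorem pFB : Stmt_FB := FB pFA
theorem pFC : Stmt_FC := FC pFA
theorem pSM : Stmt_SM := SM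
theorem pFD1 : Stmt_FD1 := FD1
theorem pFD : Stmt_FD := FD pFA pFB pFD1
theorem pAEG : Stmt_AEG := AEG pFA pFB
theorem pFX : Stmt_FX := FX
theorem pTR : Stmt_TR := TR
theorem pLSA : Stmt_LSA := LSA pZD pIB pAEG pFA
theorem pLSB : Stmt_LSB := LSB pLSA pUP pCT pFA pZD
theorem pLSG (hGB : Stmt_GB) (hUNIC : Stmt_UNIC) : Stmt_LSG := LSG hGB hUNIC pFA pFC pFD pSM
theorem pLS (hGB : Stmt_GB) (hUNIC : Stmt_UNIC) : Stmt_LS :=
  LS pLSB (pLSG hGB hUNIC) pID pPOS pUP pCT
theorem pBAD : Stmt_BAD := BAD pFA pFM pAEG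
theorem pSEQ : Stmt_SEQ := SEQ (hAP := pAP) (hFX := pFX) (hTR := pTR) (hFM := pFM) (hBAD := pBAD)
  (hFA := pFA)
theorem pCV : Stmt_CV := CV pCT
theorem pMIT (hGB : Stmt_GB) (hUNIC : Stmt_UNIC) : Stmt_MIT :=
  MIT (pLS hGB hUNIC) pCV pCT pPOS pFA
theorem pINT : Stmt_INT := INT pL4 pAPB pCT
theorem pMI (hGB : Stmt_GB) (hUNIC : Stmt_UNIC) : Stmt_MI :=
  MI (hL4 := pL4) (hAPB := pAPB) (hINT := pINT) (hSEQ := pSEQ) (hMIT := pMIT hGB hUNIC)
theorem pGAU : Stmt_GAU := GAU
theorem pW : Stmt_W := W pL4 pAPW pTR pGAU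

end AllM

/-- The level set inequality. -/
theorem MIfinal : Stmt_MI := AllM.pMI GB.all_GB GB.all_UNIC

/-- Integrability on compact sets. -/
theorem INTfinal : Stmt_INT := AllM.pINT

/-- Willmore's inequality, integrated over the levels. -/
theorem Wfinal : Stmt_W := AllM.pW

/-- The logarithm of the solution. -/
theorem LOGWfinal : Stmt_LOGW := AllM.pLOGW

theorem L4final : Stmt_L4 := AllM.pL4

theorem MOfinal : Stmt_MO := AllM.pMO

theorem LDfinal : Stmt_LD := AllM.pLD

theorem FRfinal : Stmt_FR := AllM.pFR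

end Pool.Agent.PFlow


end

section

/-!
# Module BARR: the barriers are strict sub- and supersolutions
-/

open MeasureTheory Filter Topology
open scoped ContDiff

namespace Pool.Agent.PFlow

open Pool.Agent.PenroseSph

namespace BARRm

lemma contDiffAt_phiDen (ε σ C : ℝ) {r : ℝ} (hr : 0 < r) :
    ContDiffAt ℝ 1 (phiDen ε σ C) r := by
  have h1 : ContDiffAt ℝ 1 (fun t : ℝ => t ^ (pe ε - 1)) r :=
    contDiffAt_id.rpow_const_of_ne hr.ne'
  have h2 : ContDiffAt ℝ 1 (fun t : ℝ => (1 + t ^ 2) ^ (-pe ε)) r :=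
    (contDiffAt_const.add (contDiffAt_id.pow 2)).rpow_const_of_ne
      (by positivity : (1 : ℝ) + r ^ 2 ≠ 0)
  have h3 : ContDiffAt ℝ 1 (fun t : ℝ => Real.exp (-(σ * C * Real.arctan t / ε))) r :=
    (((contDiffAt_const.mul contDiffAt_id.arctan).div_const ε).neg).exp
  exact (h1.mul h2).mul h3

end BARRm

open BARRm in
/-- **(BARR)** The barriers are strict sub- and supersolutions. -/
theorem BARR (hRADN : Stmt_RADN) (hPHI : Stmt_PHI) : Stmt_BARR := by
  intro ε C g h x hε hε2 hC hx hg hb σ hσ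
  have hr : 0 < ‖x‖ := norm_pos_iff.mpr hx
  obtain ⟨-, hd, -⟩ := hPHI ε (C + 1) σ hε hε2 (by linarith) hσ
  have hdF : ∀ r : ℝ, 0 < r → deriv (phiB ε σ (C + 1)) r = -phiDen ε σ (C + 1) r :=
    fun r hr => (hd r hr).2.1.deriv
  have hdF' : deriv (phiB ε σ (C + 1)) =ᶠ[𝓝 ‖x‖] fun r => -phiDen ε σ (C + 1) r := by
    filter_upwards [lt_mem_nhds hr] with r hr'
    exact hdF r hr'
  -- the first two derivatives of `k * F + c`
  have hC2 : ContDiffAt ℝ 2 (phiB ε σ (C + 1)) ‖x‖ := by
    have h1 : ContDiffOn ℝ 2 (phiB ε σ (C + 1)) (Set.Ioi 0) := by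
      have h2 : ContDiffOn ℝ (1 + 1) (phiB ε σ (C + 1)) (Set.Ioi 0) := by
        rw [contDiffOn_succ_iff_deriv_of_isOpen isOpen_Ioi]
        refine ⟨?_, ?_, ?_⟩
        · intro r hr'
          exact (hd r hr').2.1.differentiableAt.differentiableWithinAt
        · intro h3
          exact absurd h3 (by decide)
        · have h3 : ContDiffOn ℝ 1 (fun r => -phiDen ε σ (C + 1) r) (Set.Ioi 0) :=
            fun r hr' => (contDiffAt_phiDen ε σ (C + 1) hr').neg.contDiffWithinAt
          exact h3.congr fun r hr' => hdF r hr'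
      exact h2.of_le (by norm_num)
    exact (h1 ‖x‖ hr).contDiffAt (Ioi_mem_nhds hr)
  have hpos := (hd ‖x‖ hr).1
  have hdd : deriv (deriv (phiB ε σ (C + 1))) ‖x‖
      = phiDen ε σ (C + 1) ‖x‖ * (bE ε ‖x‖ + σ * (C + 1) / (1 + ‖x‖ ^ 2)) / ε := by
    rw [hdF'.deriv_eq]
    have h1 := (hd ‖x‖ hr).2.2.neg
    rw [neg_neg] at h1
    exact h1.deriv
  have hfst : ∀ k c : ℝ, deriv (fun r => k * phiB ε σ (C + 1) r + c) =ᶠ[𝓝 ‖x‖]
      fun r => k * (-phiDen ε σ (C + 1) r) := by
    intro k c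
    filter_upwards [lt_mem_nhds hr] with r hr'
    exact (((hd r hr').2.1.const_mul k).add_const c).deriv
  have hfst' : ∀ k c : ℝ, deriv (fun r => k * phiB ε σ (C + 1) r + c) ‖x‖
      = k * (-phiDen ε σ (C + 1) ‖x‖) := fun k c => (hfst k c).self_of_nhds
  have hsnd : ∀ k c : ℝ, deriv (deriv (fun r => k * phiB ε σ (C + 1) r + c)) ‖x‖
      = k * (phiDen ε σ (C + 1) ‖x‖ * (bE ε ‖x‖ + σ * (C + 1) / (1 + ‖x‖ ^ 2)) / ε) := by
    intro k c
    rw [(hfst k c).deriv_eq]
    have h1 := ((hd ‖x‖ hr).2.2.neg).const_mul k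
    rw [neg_neg] at h1
    exact h1.deriv
  have hop : ∀ k c : ℝ, 0 < k →
      opN ε g h (fun y : E3 => k * phiB ε σ (C + 1) ‖y‖ + c) x
        = len g x (grad rad x) ^ 2 * (k * phiDen ε σ (C + 1) ‖x‖ *
          (bE ε ‖x‖ + σ * (C + 1) / (1 + ‖x‖ ^ 2) - barB ε g h x)) ∧
      0 < len g x (grad rad x) := by
    intro k c hk
    have h1 := hRADN ε g h (fun r => k * phiB ε σ (C + 1) r + c) x hx hg
      ((contDiffAt_const.mul hC2).add contDiffAt_const) (by
        rw [hfst']
        nlinarith)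
    refine ⟨?_, h1.2.1⟩
    rw [h1.2.2, hfst', hsnd]
    have hε0 : ε ≠ 0 := hε.ne'
    field_simp
    ring
  have hab := abs_le.mp hb
  have hq : 0 < 1 + ‖x‖ ^ 2 := by positivity
  have hsplit : (C + 1) / (1 + ‖x‖ ^ 2) = C / (1 + ‖x‖ ^ 2) + 1 / (1 + ‖x‖ ^ 2) := add_div _ _ _
  have hone : 0 < 1 / (1 + ‖x‖ ^ 2) := by positivity
  refine ⟨?_, ?_, ?_, ?_⟩
  · exact hC2.comp x (contDiffAt_norm ℝ hx)
  · exact (hRADN ε g h (phiB ε σ (C + 1)) x hx hg hC2 (by
      rw [hdF _ hr]
      linarith)).1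
  · intro hs k c hk
    have h1 := hop k (-(k * c)) hk
    have h2 : (fun y : E3 => k * (phiB ε σ (C + 1) ‖y‖ - c))
        = fun y : E3 => k * phiB ε σ (C + 1) ‖y‖ + -(k * c) := by
      funext y
      ring
    rw [h2, h1.1]
    have h3 := h1.2
    have h4 : 0 < bE ε ‖x‖ + σ * (C + 1) / (1 + ‖x‖ ^ 2) - barB ε g h x := by
      rw [hs, one_mul, hsplit]
      linarith [hab.2]
    positivity
  · intro hs k c hk
    have h1 := hop k c hk
    rw [h1.1]
    have h3 := h1.2
    have h4 : bE ε ‖x‖ + σ * (C + 1) / (1 + ‖x‖ ^ 2) - barB ε g h x < 0 := by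
      rw [hs, neg_one_mul, neg_div, hsplit]
      linarith [hab.1]
    have h5 : 0 < len g x (grad rad x) ^ 2 := by positivity
    have h6 : 0 < k * phiDen ε σ (C + 1) ‖x‖ := by positivity
    exact mul_neg_of_pos_of_neg h5 (mul_neg_of_pos_of_neg h6 h4)

end Pool.Agent.PFlow


end
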