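import Mathlib
import Pool.Agent.PFlow.StmtsE3
import Pool.Agent.PenroseM.C02
import Pool.Agent.PenroseM.C03
import Pool.Agent.PenroseM.C04
import Pool.Agent.PenroseM.C07
import Pool.Agent.PenroseM.C08
import Pool.Agent.PenroseM.C09
import Pool.Agent.PenroseM.C10
import Pool.Agent.PenroseM.C13
import Pool.Agent.PenroseM.C15
import Pool.Agent.PenroseM.C16
import Pool.Agent.PenroseM.C17
import Pool.Agent.PenroseM.C18
import Pool.Agent.PenroseM.C20
import Pool.Agent.PenroseM.C21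
import Pool.Agent.PenroseM.C23
import Pool.Agent.PenroseM.C24
import Pool.Agent.PenroseM.C25
import Pool.Agent.PenroseM.C26
import Pool.Agent.PenroseM.C29
import Pool.Agent.PenroseM.C30
import Pool.Agent.PenroseM.C31
import Pool.Agent.PenroseM.C32
import Pool.Agent.PenroseM.C33
import Pool.Agent.PenroseM.C34
import Pool.Agent.PenroseM.C35
import Pool.Agent.PenroseM.C36
import Pool.Agent.PenroseM.C37
import Pool.Agent.PenroseM.C38
import Pool.Agent.PenroseM.C39
import Pool.Agent.PenroseM.C41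
import Pool.Agent.PenroseM.C42
import Pool.Agent.PenroseM.C43
import Pool.Agent.PenroseM.C45
import Pool.Agent.PenroseM.C46
import Pool.Agent.PenroseM.C47
import Pool.Agent.PenroseM.C49
import Pool.Agent.PenroseM.C52
import Pool.Agent.PenroseM.C53
import Pool.Agent.PenroseM.C54
import Pool.Agent.PenroseM.C64

/-! Parts: PFlow.P.Main, PFlow.E.BETA, PFlow.E.Asm -/

section

/-!
# Block P: the function `u` exists
-/

namespace Pool.Agent.PFlow

open PB

theorem PB.pNDIV : NDIV := ndiv_thm pAPI1 pAPI2 pDENS pSYMM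

/-- **Block P**: the interface statement `Stmt_P`, without hypotheses. -/
theorem P : Stmt_P := stmt_P_of pNDIV

end Pool.Agent.PFlow


end

section

set_option autoImplicit false

/-!
# BETA: a bump function
-/

open MeasureTheory Filter Topology
open scoped ContDiff

namespace Pool.Agent.PFlow

open Pool.Agent.PenroseSph

theorem BETA : Stmt_BETA := by
  let b : ContDiffBump (1 / 2 : ℝ) :=
    { rIn := 1 / 8, rOut := 1 / 4, rIn_pos := by norm_num, rIn_lt_rOut := by norm_num }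
  refine ⟨b.normed volume, ?_, fun s => b.nonneg_normed s, ?_, b.integral_normed⟩
  · exact b.contDiff_normed
  · intro s hs
    have hsupp : s ∉ Function.support (b.normed volume) := by
      rw [b.support_normed_eq, Metric.mem_ball, Real.dist_eq, not_lt]
      change (1 / 4 : ℝ) ≤ |s - 1 / 2|
      rcases hs with hs | hs
      · rw [abs_sub_comm]
        exact le_trans (by linarith) (le_abs_self _)
      · exact le_trans (by linarith) (le_abs_self _)
    exact Function.notMem_support.1 hsupp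

end Pool.Agent.PFlow


end

section

/-!
# Assembly of the energy block and of the main theorem
-/

namespace Pool.Agent.PFlow

theorem eAFD : Stmt_AFD := AFD
theorem eHATA : Stmt_HATA := HATA
theorem eHATB : Stmt_HATB := HATB eHATA
theorem eJPROD : Stmt_JPROD := JPROD
theorem eHATC : Stmt_HATC := HATC eHATA eHATB eJPROD
theorem eEETA : Stmt_EETA := EETA
theorem eKAP : Stmt_KAP := KAP
theorem eCUTM : Stmt_CUTM := CUTM eHATB eKAP
theorem eCUTD : Stmt_CUTD := CUTD eKAP
theorem eSHELL : Stmt_SHELL := SHELL eHATA eHATC eJPROD eKAP eCUTM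
theorem eSCAL : Stmt_SCAL := SCAL
theorem eDIVG : Stmt_DIVG := DIVG
theorem eDIVA : Stmt_DIVA := DIVA eDIVG
theorem eBARA : Stmt_BARA := BARA
theorem eBARB : Stmt_BARB := BARB
theorem eHSM2 : Stmt_HSM2 := HSM2
theorem eMOD : Stmt_MOD := MOD eAFD eHATA eHATB eHATC eEETA eKAP eCUTM eCUTD eSHELL eSCAL eDIVA eBARA eBARB eHSM2
theorem eMODM : Stmt_MODM := MODM
theorem ePHI : Stmt_PHI := PHI
theorem eRADN : Stmt_RADN := RADN
theorem eBARR : Stmt_BARR := BARR eRADN ePHI
theorem eLOC : Stmt_LOC := LOC ePHI eBARR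
theorem eLOCU : Stmt_LOCU := LOCU ePHI eBARR
theorem eSETW : Stmt_SETW := SETW LOGWfinal
theorem ePTD : Stmt_PTD := PTD
theorem eHSYM : Stmt_HSYM := HSYM
theorem eABSI : Stmt_ABSI := ABSI eSETW INTfinal ePTD eHSYM
theorem eABSM : Stmt_ABSM := ABSM eSETW eABSI MIfinal
theorem eLE1 : Stmt_LE1 := LE1_free
theorem eLE2 : Stmt_LE2 := LE2
theorem eLE : Stmt_LE := LE eLE1 eLE2
theorem eXWO : Stmt_XWO := XWO eSETW eLE
theorem eLEY : Stmt_LEY := LEY eLE
theorem eXID : Stmt_XID := XID LDfinal L4final AllM.pIB AllM.pZD AllM.pCT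
theorem eXWI : Stmt_XWI := XWI eSETW eLEY eXID L4final
theorem eABSX : Stmt_ABSX := ABSX eSETW eXID L4final
theorem eABSW : Stmt_ABSW := ABSW eSETW eABSI Wfinal ePTD eHSYM INTfinal
theorem eFLX : Stmt_FLX := FLX
theorem eABSF : Stmt_ABSF := ABSF eSETW eFLX
theorem eABS : Stmt_ABS := ABS eSETW eABSI eABSM eXWO eXWI eABSX eABSW eABSF
theorem eBETA : Stmt_BETA := BETA
theorem eFLXA : Stmt_FLXA := FLXA
theorem eHOLA : Stmt_HOLA := HOLA
theorem eJUP : Stmt_JUP := JUP
theorem eUPH : Stmt_UPH := UPH eSETW eBETA eFLXA eHOLA eJUP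
theorem eDEFE : Stmt_DEFE := DEFE eSETW eBETA eUPH eFLXA
theorem eEXI1 : Stmt_EXI1 := EXI1 eAFD eMOD eMODM eLOC eLOCU P eABS eDEFE eSETW
theorem eGRADL : Stmt_GRADL := GRADL
theorem ePOI : Stmt_POI := POI
theorem eWGT : Stmt_WGT := WGT ePTD eGRADL ePOI eHSYM
theorem eTSTA : Stmt_TSTA := TSTA
theorem eMATL : Stmt_MATL := MATL eSETW eABSI eBETA eUPH
theorem eENER : Stmt_ENER := ENER eSETW eBETA eTSTA eUPH eMATL
theorem eWGTE : Stmt_WGTE := WGTE eSETW eBETA eABSI eWGT eENER eUPH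
theorem eMSI : Stmt_MSI := MSI eSETW eBETA eTSTA eUPH eMATL
theorem eTSTB : Stmt_TSTB := TSTB
theorem eJL : Stmt_JL := JL
theorem eMSII : Stmt_MSII := MSII eSETW eBETA eTSTB eJL eUPH eMATL
theorem ePERA : Stmt_PERA := PERA
theorem ePER : Stmt_PER := PER ePERA MOfinal
theorem eMSIII : Stmt_MSIII := MSIII eSETW eFLXA eHOLA ePER eABSI
theorem eEPS : Stmt_EPS := EPS eEXI1 eWGTE eMSI eMSII eMSIII eBETA
theorem eLIM : Stmt_LIM := LIM
theorem eJINT : Stmt_JINT := JINT eAFD eSCAL eDIVG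
theorem eTINT : Stmt_TINT := TINT eAFD eHATA eDIVG eJINT
theorem eLIMK2 : Stmt_LIMK2 := LIMK2 eAFD eHATA eTINT
theorem eMAIN2 : Stmt_MAIN2 := MAIN2 eEPS eLIM eLIMK2
theorem eMAIN3 : Stmt_MAIN3 := MAIN3 eMAIN2
theorem eTRD : Stmt_TRD := TRD eAFD
theorem eTFD : Stmt_TFD := TFD

end Pool.Agent.PFlow


end
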