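import Mathlib
import Pool.Agent.PFlow.DefsXH
import Pool.Agent.PFlow.StmtsX2
import Pool.Agent.PenroseM.C03
import Pool.Agent.PenroseM.C04
import Pool.Agent.PenroseM.C05
import Pool.Agent.PenroseM.C08
import Pool.Agent.PenroseM.C18
import Pool.Agent.PenroseM.C24
import Pool.Agent.PenroseM.C31
import Pool.Agent.PenroseM.C37

/-! Parts: PFlow.StmtsX1, PFlow.X.XABSI, PFlow.X.XAFD, PFlow.X.XCLO, PFlow.X.XEXI1, PFlow.X.XHAT, PFlow.X.XLEAD, PFlow.X.XLIMK, PFlow.X.XSUR -/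

section

/-!
# Exterior regions: statements, part 1 (collar geometry and modified data)

Proofs in `E2.md`, section C.
-/

open MeasureTheory Filter Topology
open scoped ContDiff ENNReal

namespace Pool.Agent.PFlow

open Pool.Agent.PenroseSph

/-- XPHI: the profile of the collar. -/
def Stmt_XPHI : Prop :=
  ∀ δ : ℝ, 0 < δ → δ ≤ 1 / 2 → ∃ C : ℝ, 0 < C ∧ ∀ τ : ℝ, 0 < τ → τ ≤ δ / 4 →
    ContDiff ℝ ∞ (phX τ δ) ∧ (∀ t, t ≤ τ / 2 → phX τ δ t = 0) ∧
    (∀ t, 0 ≤ t → 0 ≤ phX τ δ t ∧ phX τ δ t ≤ t ∧ t - τ ≤ phX τ δ t) ∧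
    (∀ t, δ ≤ t → phX τ δ t = t) ∧
    (∀ t, 0 ≤ deriv (phX τ δ) t ∧ deriv (phX τ δ) t ≤ 1 + C * τ) ∧
    (∀ t, t ≤ τ → deriv (phX τ δ) t ≤ 1 ∧ 0 ≤ deriv (deriv (phX τ δ)) t ∧
      deriv (deriv (phX τ δ)) t ≤ C / τ) ∧
    (∀ t, τ ≤ t → |deriv (phX τ δ) t - 1| ≤ C * τ ∧ |deriv (deriv (phX τ δ)) t| ≤ C * τ ∧
      |deriv (deriv (deriv (phX τ δ))) t| ≤ C * τ)

/-- XCOLG: the collar metric. -/
def Stmt_XCOLG : Prop :=
  ∀ (g : TensorField) (δ₀ δ : ℝ), 0 < δ₀ → 0 < δ → δ ≤ 1 / 2 → Real.exp δ < 1 + δ₀ →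
    MetricOn (Outside δ₀) g → Shiftless δ₀ g → ∃ C : ℝ, 0 < C ∧ ∀ τ : ℝ, 0 < τ → τ ≤ δ / 4 →
      MetricOn {0}ᶜ (colG τ δ g) ∧
      (∀ x : E3, x ≠ 0 → inverted (colG τ δ g) x = colG τ δ g x) ∧
      (∀ x : E3, Real.exp δ ≤ ‖x‖ → colG τ δ g x = g x) ∧
      (∀ x : E3, 1 ≤ ‖x‖ → ‖x‖ ≤ 4 → ∀ i j, |colG τ δ g x i j - g x i j| ≤ C * τ) ∧
      (∀ x : E3, 1 / 4 ≤ ‖x‖ → ‖x‖ ≤ 4 → (∀ i j, |colG τ δ g x i j| ≤ C ∧
        ∀ m, |pd m (fun y => colG τ δ g y i j) x| ≤ C) ∧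
        ∀ v : Cov, (∑ i, v i ^ 2) ≤ C * ev (colG τ δ g x) v v ∧
          ev (colG τ δ g x) v v ≤ C * ∑ i, v i ^ 2)

/-- XCOLH: the collar tensor. -/
def Stmt_XCOLH : Prop :=
  ∀ (δ₀ δ : ℝ), 0 < δ₀ → 0 < δ → δ ≤ 1 / 2 → Real.exp δ < 1 + δ₀ → ∃ C : ℝ, 0 < C ∧
    ∀ k : TensorField, TensorOn (Outside δ₀) k → ∀ τ : ℝ, 0 < τ → τ ≤ δ / 4 → τ ≤ 1 →
      TensorOn {0}ᶜ (colH τ δ k) ∧
      (∀ x : E3, x ≠ 0 → inverted (colH τ δ k) x = -colH τ δ k x) ∧
      (∀ x : E3, Real.exp δ ≤ ‖x‖ → colH τ δ k x = k x) ∧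
      (∀ K : ℝ, (∀ x : E3, 1 ≤ ‖x‖ → ‖x‖ ≤ 4 → ∀ i j, |k x i j| ≤ K) →
        ∀ x : E3, 1 / 4 ≤ ‖x‖ → ‖x‖ ≤ 4 → ∀ i j, |colH τ δ k x i j| ≤ C * K) ∧
      (∀ g : TensorField, (∀ x : E3, 1 ≤ ‖x‖ → (g x).PosDef) →
        TwoNonneg {x : E3 | 1 ≤ ‖x‖} g k →
        TwoNonneg {x : E3 | 1 ≤ ‖x‖} (colG τ δ g) (colH τ δ k))

/-- XCLO: outside the collar the modified data are close to the data, with derivatives. -/
def Stmt_XCLO : Prop :=
  ∀ (g k : TensorField) (δ₀ δ : ℝ), 0 < δ₀ → 0 < δ → δ ≤ 1 / 2 → Real.exp δ < 1 + δ₀ →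
    MetricOn (Outside δ₀) g → TensorOn (Outside δ₀) k → ∃ C : ℝ, 0 < C ∧
      ∀ τ : ℝ, 0 < τ → τ ≤ δ / 4 → ∀ x : E3, Real.exp τ < ‖x‖ → ‖x‖ ≤ 4 → ∀ i j,
        |colG τ δ g x i j - g x i j| ≤ C * τ ∧
        (∀ m, |pd m (fun y => colG τ δ g y i j - g y i j) x| ≤ C * τ) ∧
        (∀ m n, |pd m (pd n (fun y => colG τ δ g y i j - g y i j)) x| ≤ C * τ) ∧
        |colH τ δ k x i j - k x i j| ≤ C * τ ∧
        (∀ m, |pd m (fun y => colH τ δ k y i j - k y i j) x| ≤ C * τ)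

/-- XJET: the surplus is a continuous function of the second jet of the metric and the first jet
of the tensor. -/
def Stmt_XJET : Prop :=
  ∃ F : Bil × (Fin 3 → Bil) × (Fin 3 → Fin 3 → Bil) × Bil × (Fin 3 → Bil) → ℝ,
    ContinuousOn F {z | z.1.det ≠ 0} ∧
    ∀ (g k : TensorField) (x : E3), (∀ᶠ y in 𝓝 x, (g y).PosDef) →
      (∀ i j, ContDiffAt ℝ ∞ (fun y => g y i j) x) → (∀ᶠ y in 𝓝 x, (k y).IsSymm) →
      (∀ i j, ContDiffAt ℝ ∞ (fun y => k y i j) x) →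
      surplus g k x = F (g x, fun m => Matrix.of fun i j => pd m (fun y => g y i j) x,
        fun m n => Matrix.of fun i j => pd m (pd n (fun y => g y i j)) x, k x,
        fun m => Matrix.of fun i j => pd m (fun y => k y i j) x)

/-- XSUR: the surplus outside the collar. -/
def Stmt_XSUR : Prop :=
  ∀ (g k : TensorField) (δ₀ δ σ : ℝ), 0 < δ₀ → 0 < δ → δ ≤ 1 / 2 → Real.exp δ < 1 + δ₀ →
    MetricOn (Outside δ₀) g → TensorOn (Outside δ₀) k → 0 < σ → ∃ τ₀ : ℝ, 0 < τ₀ ∧ τ₀ ≤ δ / 4 ∧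
      ∀ τ : ℝ, 0 < τ → τ ≤ τ₀ → ∀ x : E3, Real.exp τ < ‖x‖ → ‖x‖ ≤ 4 →
        surplus g k x - σ ≤ surplus (colG τ δ g) (colH τ δ k) x

/-- XCURV: the leading parts of the scalar curvature and of the momentum density. -/
def Stmt_XCURV : Prop :=
  ∀ Λ : ℝ, 0 < Λ → ∃ C : ℝ, 0 < C ∧ ∀ (g k : TensorField) (x : E3),
    (∀ᶠ y in 𝓝 x, (g y).PosDef) → (∀ i j, ContDiffAt ℝ ∞ (fun y => g y i j) x) →
    (∀ᶠ y in 𝓝 x, (k y).IsSymm) → (∀ i j, ContDiffAt ℝ ∞ (fun y => k y i j) x) →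
    (∀ v : Cov, (∑ i, v i ^ 2) ≤ Λ * ev (g x) v v) →
    (∀ i j, |g x i j| ≤ Λ ∧ (∀ m, |pd m (fun y => g y i j) x| ≤ Λ) ∧ |k x i j| ≤ Λ) →
    |scalarCurvature g x - ∑ i, ∑ j, ∑ m, ∑ n, (g x)⁻¹ i m * (g x)⁻¹ j n *
        (pd i (pd j (fun y => g y m n)) x - pd i (pd m (fun y => g y j n)) x)| ≤ C ∧
    (∀ j, |momentumDensity g k j x - ∑ i, ∑ m, (g x)⁻¹ i m *
        (pd m (fun y => k y i j) x
          - (∑ a, ∑ b, (g x)⁻¹ a b * pd m (fun y => k y a b) x) * g x i j)| ≤ C)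

/-- XMEAN: the mean curvature of the spheres where there is no shift. -/
def Stmt_XMEAN : Prop :=
  ∀ (g : TensorField) (δ₀ : ℝ) (x : E3), MetricOn (Outside δ₀) g → Shiftless δ₀ g → x ≠ 0 →
    1 - δ₀ < ‖x‖ → ‖x‖ < 1 + δ₀ →
    btan g x (grad rad x) (eulG g x) = 2 * ‖x‖ * sphereMean g x / len g x (grad rad x) ∧
    0 < len g x (grad rad x)

/-- XLEAD: the leading parts of the derivatives of the modified data in the collar. -/
def Stmt_XLEAD : Prop :=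
  ∀ (g : TensorField) (δ₀ δ : ℝ), 0 < δ₀ → 0 < δ → δ ≤ 1 / 2 → Real.exp δ < 1 + δ₀ →
    MetricOn (Outside δ₀) g → ∀ k : TensorField, TensorOn (Outside δ₀) k → ∃ C : ℝ, 0 < C ∧
      ∀ τ : ℝ, 0 < τ → τ ≤ δ / 4 → ∀ x : E3, 1 < ‖x‖ → ‖x‖ ≤ Real.exp τ →
        (∀ i j m n, |pd i (pd j (fun y => colG τ δ g y m n)) x
          - deriv (deriv (phX τ δ)) (Real.log ‖x‖) * (x i * x j / ‖x‖ ^ 4) *
            (facX τ δ x ^ 2 * eulG g (facX τ δ x • x) m n)| ≤ C) ∧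
        (∀ i m n, |pd i (fun y => colH τ δ k y m n) x
          - deriv (deriv (phX τ δ)) (Real.log ‖x‖) * (x i / ‖x‖ ^ 2) *
            (facX τ δ x ^ 2 * k (facX τ δ x • x) m n)| ≤ C)

/-- XCOLM: the matter term in the collar. The first constant depends on `k` only through the bound
`K`. -/
def Stmt_XCOLM : Prop :=
  ∀ (g : TensorField) (δ₀ δ K : ℝ), 0 < δ₀ → 0 < δ → δ ≤ 1 / 2 → Real.exp δ < 1 + δ₀ →
    MetricOn (Outside δ₀) g → Shiftless δ₀ g → 0 < K → ∃ C : ℝ, 0 < C ∧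
      ∀ (k : TensorField) (η : ℝ), TensorOn (Outside δ₀) k → TwoNonneg {x : E3 | 1 ≤ ‖x‖} g k →
        (∀ x : E3, 1 ≤ ‖x‖ → ‖x‖ ≤ 4 → ∀ i j, |k x i j| ≤ K) → 0 ≤ η →
        (∀ x : E3, ‖x‖ = 1 → sphereMean g x ≤ sphereTr g k x + η) →
        ∃ C' : ℝ, 0 < C' ∧ ∀ τ : ℝ, 0 < τ → τ ≤ δ / 4 → ∀ x : E3, 1 < ‖x‖ → ‖x‖ ≤ Real.exp τ →
          ∀ p : Cov, -(C / τ * (tanP x p + negP x p) + (C * η / τ + C') * vsz p)
            ≤ len (colG τ δ g) x p * matter (colG τ δ g) (colH τ δ k) x p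

/-- XHAT: the change of sign in the exterior region. -/
def Stmt_XHAT : Prop :=
  ∀ (g k : TensorField) (δ₀ : ℝ), 0 < δ₀ → MetricOn (Outside δ₀) g → TensorOn (Outside δ₀) k →
    PlaneSignX g k → ∀ η : ℝ, 0 < η →
      TensorOn (Outside δ₀) (hat η g k) ∧ TwoNonneg {x : E3 | 1 ≤ ‖x‖} g (hat η g k) ∧
      (∀ (x : E3) (i j : Fin 3), |hat η g k x i j| ≤ |k x i j|) ∧
      (∀ x : E3, 1 < ‖x‖ → surplus g k x - eEta η g k x ≤ surplus g (hat η g k) x ∧
        jlen g (hat η g k) x ≤ jlen g k x + eEta η g k x) ∧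
      (∀ x : E3, ‖x‖ = 1 → |sphereTr g k x| ≤ sphereTr g (hat η g k) x + η)

/-- XEETA: the defect of the change of sign. -/
def Stmt_XEETA : Prop :=
  ∀ (g k : TensorField) (δ₀ : ℝ), 0 < δ₀ → MetricOn (Outside δ₀) g → TensorOn (Outside δ₀) k →
    (∀ η : ℝ, 0 < η → ContinuousOn (eEta η g k) (Outside δ₀) ∧
      ∀ x : E3, 1 ≤ ‖x‖ → 0 ≤ eEta η g k x) ∧
    ∀ l q τ : ℝ, 1 ≤ q → 0 < τ → ∃ η₀ : ℝ, 0 < η₀ ∧ ∀ η : ℝ, 0 < η → η ≤ η₀ →
      ∫ x in cAnn 1 l, eEta η g k x ^ q ≤ τ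

/-- XAFD: constants for the end. -/
def Stmt_XAFD : Prop :=
  ∀ (g k : TensorField) (δ₀ : ℝ), 0 < δ₀ → MetricOn (Outside δ₀) g → TensorOn (Outside δ₀) k →
    (∃ C R : ℝ, DecayFrom C R g k) → ∃ C : ℝ, 0 < C ∧ DecayFrom C 1 g k ∧
      (∀ x : E3, 1 ≤ ‖x‖ → ∀ v : Cov,
        (∑ i, v i ^ 2) ≤ C * ev (g x) v v ∧ ev (g x) v v ≤ C * ∑ i, v i ^ 2)

/-- XSHELL: the surplus in the region `ℓ/2 ≤ |x| ≤ ℓ` where the tensor is cut off. -/
def Stmt_XSHELL : Prop :=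
  ∀ (g k : TensorField) (δ₀ C : ℝ), 0 < δ₀ → MetricOn (Outside δ₀) g → TensorOn (Outside δ₀) k →
    PlaneSignX g k → (∀ x : E3, 1 < ‖x‖ → 0 ≤ surplus g k x) → DecayFrom C 1 g k →
    (∀ x : E3, 1 ≤ ‖x‖ → ∀ v : Cov,
      (∑ i, v i ^ 2) ≤ C * ev (g x) v v ∧ ev (g x) v v ≤ C * ∑ i, v i ^ 2) →
    ∃ C' : ℝ, 0 < C' ∧ ∀ η l : ℝ, 0 < η → 8 ≤ l → ∀ (g' h' : TensorField) (x : E3),
      l / 2 < ‖x‖ → ‖x‖ < l → g' =ᶠ[𝓝 x] g →
      h' =ᶠ[𝓝 x] (fun y => kap (2 * ‖y‖ / l) • hat η g k y) →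
        -eEta η g k x - C' * (msz (k x) / l + msz (k x) ^ 2) ≤ surplus g' h' x

/-- XFAR: the cut-off of the metric far out and near the origin. -/
def Stmt_XFAR : Prop :=
  ∀ (g k : TensorField) (δ₀ C : ℝ), 0 < δ₀ → MetricOn (Outside δ₀) g → TensorOn (Outside δ₀) k →
    DecayFrom C 1 g k →
    (∀ x : E3, 1 ≤ ‖x‖ → ∀ v : Cov,
      (∑ i, v i ^ 2) ≤ C * ev (g x) v v ∧ ev (g x) v v ≤ C * ∑ i, v i ^ 2) →
    ∃ C' l₀ : ℝ, 0 < C' ∧ 8 ≤ l₀ ∧ ∀ l : ℝ, l₀ ≤ l → ∀ g₁ : TensorField, MetricOn {0}ᶜ g₁ →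
      (∀ x : E3, 7 / 4 < ‖x‖ → g₁ x = g x) →
      MetricOn Set.univ (modG l (1 / 4) g₁) ∧ DecayFrom C' 2 (modG l (1 / 4) g₁) 0 ∧
      (∀ x : E3, 2 ≤ ‖x‖ → ∀ v : Cov, (∑ i, v i ^ 2) ≤ C' * ev (modG l (1 / 4) g₁ x) v v ∧
        ev (modG l (1 / 4) g₁ x) v v ≤ C' * ∑ i, v i ^ 2) ∧
      (∀ x : E3, 1 / 4 ≤ ‖x‖ → ‖x‖ ≤ l → modG l (1 / 4) g₁ x = g₁ x) ∧
      (∀ x : E3, 2 * l ≤ ‖x‖ → modG l (1 / 4) g₁ x = 1) ∧
      (∀ x : E3, l < ‖x‖ → ‖x‖ < 2 * l →
        |scalarCurvature (modG l (1 / 4) g₁) x * volDen (modG l (1 / 4) g₁) x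
          - linR (modG l (1 / 4) g₁) x| ≤ C' / l ^ 4 ∧
        |linR (modG l (1 / 4) g₁) x| ≤ C' / l ^ 3) ∧
      ∫ x in cAnn l (2 * l), linR (modG l (1 / 4) g₁) x = -(16 * Real.pi * massIntegral g l)

/-- XMOD: existence of the modified data. -/
def Stmt_XMOD : Prop :=
  ∀ g k : TensorField, (∃ δ : ℝ, 0 < δ ∧ MetricOn (Outside δ) g ∧ TensorOn (Outside δ) k ∧
      Shiftless δ g) → (∃ C R : ℝ, DecayFrom C R g k) → PlaneSignX g k →
    (∀ x : E3, 1 < ‖x‖ → 0 ≤ surplus g k x) →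
    (∀ x : E3, ‖x‖ = 1 → sphereMean g x ≤ |sphereTr g k x|) →
    ∃ C l₀ : ℝ, 0 < C ∧ 8 ≤ l₀ ∧
      (∀ x : E3, 1 ≤ ‖x‖ → ∀ i j, |k x i j| ≤ C / ‖x‖ ^ 2) ∧
      ∀ l κ q σ τ₀ : ℝ, l₀ ≤ l → 0 < κ → 1 ≤ q → 0 < σ → 0 < τ₀ →
        ∃ (τ : ℝ) (g' h' : TensorField) (e : E3 → ℝ), 0 < τ ∧ τ ≤ τ₀ ∧
          ModifiedX g k C l τ κ g' h' e ∧ ∫ x in cAnn 1 l, e x ^ q ≤ σ

end Pool.Agent.PFlow


end

section

set_option autoImplicit false

open MeasureTheory Filter Topology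
open scoped ContDiff ENNReal

namespace Pool.Agent.PFlow

open Pool.Agent.PenroseSph

namespace XABSIaux

theorem isOpen_ann (a b : ℝ) : IsOpen (Ann a b) :=
  (isOpen_lt continuous_const continuous_norm).inter (isOpen_lt continuous_norm continuous_const)

theorem ann_exhaust (a b : ℝ) : ∃ K : ℕ → Set E3, (∀ n, IsCompact (K n)) ∧
    (∀ n, K n ⊆ Ann a b) ∧ ⋃ n, K n = Ann a b := by
  refine ⟨fun n => {x : E3 | a + 1 / ((n : ℝ) + 1) ≤ ‖x‖ ∧ ‖x‖ ≤ b - 1 / ((n : ℝ) + 1)}, ?_, ?_, ?_⟩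
  · intro n
    have h1 : IsClosed {x : E3 | a + 1 / ((n : ℝ) + 1) ≤ ‖x‖ ∧ ‖x‖ ≤ b - 1 / ((n : ℝ) + 1)} :=
      (isClosed_le continuous_const continuous_norm).inter
        (isClosed_le continuous_norm continuous_const)
    refine (isCompact_closedBall (0 : E3) (b - 1 / ((n : ℝ) + 1))).of_isClosed_subset h1 ?_
    intro x hx
    rw [Metric.mem_closedBall, dist_zero_right]
    exact hx.2
  · intro n x hx
    have h0 : 0 < 1 / ((n : ℝ) + 1) := by positivity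
    exact ⟨by linarith [hx.1], by linarith [hx.2]⟩
  · ext x
    rw [Set.mem_iUnion]
    constructor
    · rintro ⟨n, hx⟩
      have h0 : 0 < 1 / ((n : ℝ) + 1) := by positivity
      exact ⟨by linarith [hx.1], by linarith [hx.2]⟩
    · intro hx
      have h1 : ∀ᶠ n : ℕ in atTop, 1 / ((n : ℝ) + 1) < ‖x‖ - a :=
        tendsto_one_div_add_atTop_nhds_zero_nat.eventually_lt_const (by linarith [hx.1])
      have h2 : ∀ᶠ n : ℕ in atTop, 1 / ((n : ℝ) + 1) < b - ‖x‖ :=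
        tendsto_one_div_add_atTop_nhds_zero_nat.eventually_lt_const (by linarith [hx.2])
      obtain ⟨n, hn1, hn2⟩ := (h1.and h2).exists
      exact ⟨n, by constructor <;> linarith⟩

theorem chr_symm {U : Set E3} {g : TensorField} (hU : IsOpen U) (hg : MetricOn U g) {x : E3}
    (hx : x ∈ U) (k i j : Fin 3) : christoffel g k i j x = christoffel g k j i x := by
  have h1 : ∀ a b : Fin 3, (fun y => g y a b) =ᶠ[𝓝 x] fun y => g y b a := by
    intro a b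
    filter_upwards [hU.mem_nhds hx] with y hy
    have := (hg.posDef y hy).isHermitian.apply a b
    simpa using this.symm
  have h2 : ∀ l a b : Fin 3, pd l (fun y => g y a b) x = pd l (fun y => g y b a) x := by
    intro l a b
    unfold pd
    rw [(h1 a b).fderiv_eq]
  unfold christoffel
  congr 1
  refine Finset.sum_congr rfl fun l _ => ?_
  rw [h2 l i j]
  ring

/-- The sum of the absolute values of the components. -/
noncomputable def asum (p : Cov) : ℝ := ∑ i, |p i|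

theorem asum_nonneg (p : Cov) : 0 ≤ asum p := Finset.sum_nonneg fun _ _ => abs_nonneg _

theorem vsz_le_asum (p : Cov) : vsz p ≤ asum p := by
  unfold vsz
  rw [Real.sqrt_le_left (asum_nonneg p)]
  unfold asum
  rw [Fin.sum_univ_three, Fin.sum_univ_three]
  have h : ∀ i, p i ^ 2 = |p i| ^ 2 := fun i => (sq_abs _).symm
  rw [h 0, h 1, h 2]
  nlinarith [abs_nonneg (p 0), abs_nonneg (p 1), abs_nonneg (p 2),
    mul_nonneg (abs_nonneg (p 0)) (abs_nonneg (p 1)),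
    mul_nonneg (abs_nonneg (p 0)) (abs_nonneg (p 2)),
    mul_nonneg (abs_nonneg (p 1)) (abs_nonneg (p 2))]

theorem abs_coord (x : E3) (i : Fin 3) : |x i| ≤ ‖x‖ := by
  have := EuclideanSpace.norm_eq x
  rw [this]
  apply Real.le_sqrt_of_sq_le
  rw [sq_abs]
  have h := Finset.single_le_sum (f := fun i => ‖x i‖ ^ 2) (fun j _ => sq_nonneg _)
    (Finset.mem_univ i)
  simpa [Real.norm_eq_abs, sq_abs] using h

theorem abs_pair_le (x : E3) (p : Cov) : |∑ j, p j * x j| ≤ asum p * ‖x‖ := by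
  unfold asum
  rw [Finset.sum_mul]
  refine (Finset.abs_sum_le_sum_abs _ _).trans (Finset.sum_le_sum fun j _ => ?_)
  rw [abs_mul]
  exact mul_le_mul_of_nonneg_left (abs_coord x j) (abs_nonneg _)

theorem negP_le (x : E3) (p : Cov) : negP x p ≤ asum p := by
  unfold negP
  refine max_le ?_ (asum_nonneg p)
  rcases eq_or_ne x 0 with rfl | hx
  · simp [asum_nonneg]
  · have h0 : 0 < ‖x‖ := norm_pos_iff.2 hx
    rw [← neg_div, div_le_iff₀ h0]
    exact (neg_le_abs _).trans (abs_pair_le x p)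

theorem negP_nonneg (x : E3) (p : Cov) : 0 ≤ negP x p := le_max_right _ _

theorem tanP_nonneg (x : E3) (p : Cov) : 0 ≤ tanP x p := Real.sqrt_nonneg _

theorem tanP_le (x : E3) (p : Cov) : tanP x p ≤ 4 * asum p := by
  unfold tanP
  refine (vsz_le_asum _).trans ?_
  have key : ∀ i, |p i - (∑ j, p j * x j) / ‖x‖ ^ 2 * x i| ≤ |p i| + asum p := by
    intro i
    refine (abs_sub _ _).trans (add_le_add le_rfl ?_)
    rcases eq_or_ne x 0 with rfl | hx
    · simp [asum_nonneg]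
    · have h0 : 0 < ‖x‖ := norm_pos_iff.2 hx
      rw [abs_mul, abs_div, abs_of_pos (pow_pos h0 2), div_mul_eq_mul_div, div_le_iff₀ (by positivity)]
      calc |∑ j, p j * x j| * |x i| ≤ (asum p * ‖x‖) * ‖x‖ :=
            mul_le_mul (abs_pair_le x p) (abs_coord x i) (abs_nonneg _)
              (mul_nonneg (asum_nonneg p) h0.le)
        _ = asum p * ‖x‖ ^ 2 := by ring
  have h1 : asum (fun i => p i - (∑ j, p j * x j) / ‖x‖ ^ 2 * x i) ≤
      ∑ i : Fin 3, (|p i| + asum p) := Finset.sum_le_sum fun i _ => key i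
  refine h1.trans ?_
  rw [Finset.sum_add_distrib, Finset.sum_const, Finset.card_univ, Fintype.card_fin]
  change asum p + 3 • asum p ≤ _
  rw [nsmul_eq_mul]
  push_cast
  linarith

end XABSIaux

open XABSIaux in
theorem XABSI (hXSETW : Stmt_XSETW) (hINT : Stmt_INT) (hPTD : Stmt_PTD) (hHSYM : Stmt_HSYM) :
    Stmt_XABSI := by
  intro P D hs
  obtain ⟨hg, hh, h2n, hH2, hEq, -, -, -, -, -, -, -, -, -, -, hKs, -⟩ := hXSETW P D hs
  have hU : IsOpen (Ann (1 / 2) D.R) := isOpen_ann _ _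
  have hOm : IsOpen D.Om := isOpen_ann _ _
  have hOU : D.Om ⊆ Ann (1 / 2) D.R := fun x hx => ⟨by linarith [hx.1], hx.2⟩
  have heps1 : P.eps < 1 := by linarith [hs.eps_le]
  have hI := hINT P.eps (Ann (1 / 2) D.R) D.g' D.h' (D.w P) (D.Gw P) (D.Mw P) hs.eps_pos heps1 hU
    hg hh hH2 hEq
  have lvl : ∀ f : E3 → ℝ, (∀ K : Set E3, IsCompact K → K ⊆ Ann (1 / 2) D.R →
      IntegrableOn f K) → LvlIntX P D f := by
    intro f hf s' h3
    obtain ⟨K, hK, hKU, hsub⟩ := hKs s' h3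
    exact (hf K hK hKU).mono_set hsub
  have hvol0 : ∀ x, 0 ≤ D.vol x := fun x => Real.sqrt_nonneg _
  have hX0 : ∀ x, 0 ≤ D.X P x := fun x => Real.sqrt_nonneg _
  have hvolc : ∀ K : Set E3, K ⊆ Ann (1 / 2) D.R → ContinuousOn D.vol K := fun K hKU x hx =>
    (MCF.volDen_smooth hU hg (hKU hx)).continuousAt.continuousWithinAt
  have hvol : ∀ K : Set E3, IsCompact K → K ⊆ Ann (1 / 2) D.R → IntegrableOn D.vol K :=
    fun K hK hKU => (hvolc K hKU).integrableOn_compact hK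
  have hX4 : ∀ K : Set E3, IsCompact K → K ⊆ Ann (1 / 2) D.R →
      IntegrableOn (fun x => D.X P x ^ 4 * D.vol x) K := fun K hK hKU => (hI K hK hKU).2.1
  have hGm : ∀ K : Set E3, IsCompact K → K ⊆ Ann (1 / 2) D.R → ∀ i,
      AEMeasurable (fun x => D.Gw P x i) (volume.restrict K) := fun K hK hKU i =>
    (hH2.memG K hK hKU i).1.aemeasurable
  have hXm : ∀ K : Set E3, IsCompact K → K ⊆ Ann (1 / 2) D.R →
      AEMeasurable (D.X P) (volume.restrict K) :=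
    fun K hK hKU => MCF.m_len (MCF.coef hU hg hh hK hKU) (hGm K hK hKU)
  have hvm : ∀ K : Set E3, IsCompact K → K ⊆ Ann (1 / 2) D.R →
      AEMeasurable D.vol (volume.restrict K) :=
    fun K hK hKU => (MCF.coef hU hg hh hK hKU).vol
  have hdom : ∀ K : Set E3, IsCompact K → K ⊆ Ann (1 / 2) D.R →
      IntegrableOn (fun x => D.vol x + D.X P x ^ 4 * D.vol x) K := fun K hK hKU =>
    (hvol K hK hKU).add (hX4 K hK hKU)
  have hXle : ∀ x, D.X P x ≤ 1 + D.X P x ^ 4 := by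
    intro x
    nlinarith [hX0 x, sq_nonneg (D.X P x ^ 2 - 1), sq_nonneg (D.X P x - 1)]
  have hX3le : ∀ x, D.X P x ^ 3 ≤ 1 + D.X P x ^ 4 := by
    intro x
    have h1 := hX0 x
    by_cases hc : D.X P x ≤ 1
    · have : D.X P x ^ 3 ≤ 1 := pow_le_one₀ h1 hc
      have : 0 ≤ D.X P x ^ 4 := by positivity
      linarith
    · push Not at hc
      have : D.X P x ^ 3 ≤ D.X P x ^ 4 := pow_le_pow_right₀ hc.le (by norm_num)
      linarith
  -- the surplus term outside the collar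
  have hsur : ∀ K : Set E3, IsCompact K → K ⊆ Ann (1 / 2) D.R →
      IntegrableOn (fun x => D.X P x * surplus D.g' D.h' x * D.vol x) K := by
    intro K hK hKU
    have hjc : ∀ x ∈ Ann (1 / 2) D.R, ContinuousAt (surplus D.g' D.h') x := by
      intro x hx
      unfold surplus jlen ev
      refine (MCF.energy_smooth hU hg hh hx).continuousAt.sub ?_
      refine Real.continuous_sqrt.continuousAt.comp ?_
      have h1 : ContDiffAt ℝ ∞ (fun x => ∑ i, ∑ j, (D.g' x)⁻¹ i j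
          * momentumDensity D.g' D.h' i x * momentumDensity D.g' D.h' j x) x :=
        ContDiffAt.sum fun i _ => ContDiffAt.sum fun j _ =>
          ((MCF.inv_smooth hU hg hx i j).mul (MCF.mom_smooth hU hg hh hx i)).mul
            (MCF.mom_smooth hU hg hh hx j)
      exact h1.continuousAt
    have hsc : ContinuousOn (surplus D.g' D.h') K := fun x hx =>
      (hjc x (hKU hx)).continuousWithinAt
    obtain ⟨C, hC⟩ := hK.exists_bound_of_continuousOn hsc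
    have hsm : AEMeasurable (surplus D.g' D.h') (volume.restrict K) :=
      (hsc.aestronglyMeasurable hK.measurableSet).aemeasurable
    refine Integrable.mono' ((hdom K hK hKU).const_mul |C|)
      (((hXm K hK hKU).mul hsm).mul (hvm K hK hKU)).aestronglyMeasurable ?_
    refine (ae_restrict_iff' hK.measurableSet).2 (Eventually.of_forall fun x hx => ?_)
    have h1 := hX0 x
    have h2 := hvol0 x
    have h3 : |surplus D.g' D.h' x| ≤ |C| := by
      have := hC x hx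
      rw [Real.norm_eq_abs] at this
      exact this.trans (le_abs_self C)
    show ‖D.X P x * surplus D.g' D.h' x * D.vol x‖ ≤ |C| * (D.vol x + D.X P x ^ 4 * D.vol x)
    rw [norm_mul, norm_mul, Real.norm_of_nonneg h1, Real.norm_of_nonneg h2, Real.norm_eq_abs]
    calc D.X P x * |surplus D.g' D.h' x| * D.vol x
        ≤ (1 + D.X P x ^ 4) * |C| * D.vol x := by
          refine mul_le_mul_of_nonneg_right ?_ h2
          exact mul_le_mul (hXle x) h3 (abs_nonneg _) (by positivity)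
      _ = _ := by ring
  -- the term in the collar
  have hcol : ∀ K : Set E3, IsCompact K → K ⊆ Ann (1 / 2) D.R →
      IntegrableOn (fun x => -(P.C / D.tau * (tanP x (D.Gw P x) + negP x (D.Gw P x)) +
        D.kap / D.tau * vsz (D.Gw P x)) * D.vol x) K := by
    intro K hK hKU
    have hxm : ∀ i, AEMeasurable (fun x : E3 => x i) (volume.restrict K) := fun i =>
      (EuclideanSpace.proj (𝕜 := ℝ) i).continuous.measurable.aemeasurable
    have hnm : AEMeasurable (fun x : E3 => ‖x‖) (volume.restrict K) :=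
      continuous_norm.measurable.aemeasurable
    have hpm : AEMeasurable (fun x : E3 => ∑ j, D.Gw P x j * x j) (volume.restrict K) :=
      Finset.aemeasurable_fun_sum _ fun j _ => (hGm K hK hKU j).mul (hxm j)
    have htm : AEMeasurable (fun x : E3 => tanP x (D.Gw P x)) (volume.restrict K) := by
      unfold tanP vsz
      refine Real.continuous_sqrt.measurable.comp_aemeasurable ?_
      refine Finset.aemeasurable_fun_sum _ fun i _ => AEMeasurable.pow_const ?_ 2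
      exact (hGm K hK hKU i).sub ((hpm.div (hnm.pow_const 2)).mul (hxm i))
    have hnegm : AEMeasurable (fun x : E3 => negP x (D.Gw P x)) (volume.restrict K) := by
      unfold negP
      exact ((hpm.div hnm).neg).max aemeasurable_const
    have hvsm : AEMeasurable (fun x : E3 => vsz (D.Gw P x)) (volume.restrict K) := by
      unfold vsz
      refine Real.continuous_sqrt.measurable.comp_aemeasurable ?_
      exact Finset.aemeasurable_fun_sum _ fun i _ => (hGm K hK hKU i).pow_const 2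
    obtain ⟨V, hV⟩ := hK.exists_bound_of_continuousOn (hvolc K hKU)
    have hfin : IsFiniteMeasure (volume.restrict K) := ⟨by
      rw [Measure.restrict_apply_univ]
      exact hK.measure_lt_top⟩
    have hGi : ∀ i, Integrable (fun x => |D.Gw P x i|) (volume.restrict K) := fun i =>
      ((hH2.memG K hK hKU i).integrable (by norm_num)).abs
    have hS : Integrable (fun x => asum (D.Gw P x)) (volume.restrict K) := by
      unfold asum
      exact integrable_finsetSum _ fun i _ => hGi i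
    have hC := hs.C_pos
    have ht := hs.tau_pos
    have hk := hs.kap_pos
    refine Integrable.mono' (hS.const_mul ((P.C / D.tau * 5 + D.kap / D.tau) * |V|))
      ((((htm.add hnegm).const_mul _).add (hvsm.const_mul _)).neg.mul
        (hvm K hK hKU)).aestronglyMeasurable ?_
    refine (ae_restrict_iff' hK.measurableSet).2 (Eventually.of_forall fun x hx => ?_)
    have h1 := tanP_le x (D.Gw P x)
    have h2 := negP_le x (D.Gw P x)
    have h3 := vsz_le_asum (D.Gw P x)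
    have h4 := asum_nonneg (D.Gw P x)
    have h5 : 0 ≤ vsz (D.Gw P x) := Real.sqrt_nonneg _
    have h6 := tanP_nonneg x (D.Gw P x)
    have h7 := negP_nonneg x (D.Gw P x)
    have h8 : |D.vol x| ≤ |V| := by
      have := hV x hx
      rw [Real.norm_eq_abs] at this
      exact this.trans (le_abs_self V)
    have hCt : 0 ≤ P.C / D.tau := by positivity
    have hkt : 0 ≤ D.kap / D.tau := by positivity
    rw [norm_mul, norm_neg, Real.norm_eq_abs, Real.norm_eq_abs,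
      abs_of_nonneg (add_nonneg (mul_nonneg hCt (add_nonneg h6 h7)) (mul_nonneg hkt h5))]
    calc (P.C / D.tau * (tanP x (D.Gw P x) + negP x (D.Gw P x)) +
          D.kap / D.tau * vsz (D.Gw P x)) * |D.vol x|
        ≤ (P.C / D.tau * (4 * asum (D.Gw P x) + asum (D.Gw P x)) +
          D.kap / D.tau * asum (D.Gw P x)) * |V| := by
          refine mul_le_mul ?_ h8 (abs_nonneg _) ?_
          · exact add_le_add (mul_le_mul_of_nonneg_left (add_le_add h1 h2) hCt)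
              (mul_le_mul_of_nonneg_left h3 hkt)
          · exact add_nonneg (mul_nonneg hCt (by linarith)) (mul_nonneg hkt h4)
      _ = _ := by ring
  refine ⟨lvl _ hvol, lvl _ ?_, lvl _ ?_, lvl _ ?_, lvl _ ?_, lvl _ ?_, ?_, ?_, ?_⟩
  · intro K hK hKU
    refine (hdom K hK hKU).mono' (((hXm K hK hKU).pow_const 3).mul
      (hvm K hK hKU)).aestronglyMeasurable (Eventually.of_forall fun x => ?_)
    have h1 := hX0 x
    have h2 := hvol0 x
    rw [Real.norm_of_nonneg (by positivity)]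
    calc D.X P x ^ 3 * D.vol x ≤ (1 + D.X P x ^ 4) * D.vol x :=
          mul_le_mul_of_nonneg_right (hX3le x) h2
      _ = _ := by ring
  · intro K hK hKU
    exact (hI K hK hKU).2.2.2.2.1
  · intro K hK hKU
    exact (hI K hK hKU).2.2.2.2.2.1
  · intro K hK hKU
    have hcl : IsClosed {x : E3 | ‖x‖ ≤ Real.exp D.tau} := isClosed_le continuous_norm continuous_const
    have hsplit : K = (K ∩ {x : E3 | ‖x‖ ≤ Real.exp D.tau}) ∪
        (K \ {x : E3 | ‖x‖ ≤ Real.exp D.tau}) := (Set.inter_union_diff _ _).symm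
    rw [hsplit]
    refine IntegrableOn.union ?_ ?_
    · refine IntegrableOn.congr_fun ((hcol K hK hKU).mono_set Set.inter_subset_left) ?_
        (hK.measurableSet.inter hcl.measurableSet)
      intro x hx
      have hx2 : ‖x‖ ≤ Real.exp D.tau := hx.2
      simp only [DatX.Su, if_pos hx2]
    · refine IntegrableOn.congr_fun ((hsur K hK hKU).mono_set Set.diff_subset) ?_
        (hK.measurableSet.diff hcl.measurableSet)
      intro x hx
      have hx2 : ¬ ‖x‖ ≤ Real.exp D.tau := hx.2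
      simp only [DatX.Su, if_neg hx2]
  · intro K hK hKU
    exact (hI K hK hKU).2.2.2.2.2.2.1
  · obtain ⟨C, -, hC⟩ := hPTD P.eps hs.eps_pos hs.eps_le
    have hsym := hHSYM (Ann (1 / 2) D.R) (D.w P) (D.Gw P) (D.Mw P) hU hH2
    have hmem : ∀ᵐ x ∂(volume.restrict D.Om), x ∈ D.Om := ae_restrict_mem hOm.measurableSet
    have hsym' := ae_restrict_of_ae_restrict_of_subset hOU hsym
    have hEq' := ae_restrict_of_ae_restrict_of_subset hOU hEq
    filter_upwards [hsym', hEq', hmem] with x hx1 hx2 hx3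
    by_cases h0 : D.Gw P x = 0
    · have h1 : D.X P x = 0 := by
        unfold DatX.X len ev
        rw [h0]
        simp
      unfold DatX.Di
      rw [h1, zero_mul]
    · have h1 := (hC D.g' D.h' x (D.Gw P x) (D.Mw P x) (hg.posDef x (hOU hx3))
        (hh.symm x (hOU hx3)) hx1 (chr_symm hU hg (hOU hx3)) h0 (h2n x hx3) (hx2.1 h0)).1
      exact mul_nonneg (hX0 x) h1
  · intro x hx
    unfold DatX.Su
    split_ifs with hc
    · exact hs.modified.collar x hx.1 hc (D.Gw P x)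
    · exact mul_le_mul_of_nonneg_left
        (ABSMaux.surplus_le D.g' D.h' x (hg.posDef x (hOU hx)) (D.Gw P x)) (hX0 x)
  · obtain ⟨K, hK, hKU, hKe⟩ := ann_exhaust 1 D.R
    have h1 : AEMeasurable (D.X P) (volume.restrict D.Om) := by
      unfold DatX.Om
      rw [← hKe, aemeasurable_iUnion_iff]
      intro n
      exact hXm (K n) (hK n) ((hKU n).trans hOU)
    exact h1.aestronglyMeasurable

end Pool.Agent.PFlow


end

section

/-!
# Module XAFD: constants for the end, from radius one on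
-/

open MeasureTheory Filter Topology
open scoped ContDiff ENNReal

namespace Pool.Agent.PFlow.XAFDaux

open Pool.Agent.PenroseSph Pool.Agent.PFlow
open Pool.Agent.PFlow.AFDaux (isCompact_cAnn decay_mono ev_smul ev_posDef unitCov
  isCompact_unitCov ev_near_one)

theorem isOpen_outside (δ : ℝ) : IsOpen (Outside δ) :=
  isOpen_lt continuous_const continuous_norm

theorem cAnn_subset {δ : ℝ} (hδ : 0 < δ) (b : ℝ) : cAnn 1 b ⊆ Outside δ := by
  intro x hx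
  have h1 : 1 ≤ ‖x‖ := hx.1
  change 1 - δ < ‖x‖
  linarith

theorem contDiffOn_pd {U : Set E3} (hU : IsOpen U) {f : E3 → ℝ} (hf : ContDiffOn ℝ ∞ f U)
    (k : Fin 3) : ContDiffOn ℝ ∞ (pd k f) U := by
  have h1 : ContDiffOn ℝ ∞ (fderiv ℝ f) U := hf.fderiv_of_isOpen hU (by simp)
  unfold pd
  exact h1.clm_apply contDiffOn_const

/-- A finite family of continuous functions on the open set is bounded on annuli. -/
theorem bound_family {ι : Type} [Fintype ι] {δ : ℝ} (hδ : 0 < δ) (F : ι → E3 → ℝ)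
    (hF : ∀ i, ContinuousOn (F i) (Outside δ)) (R : ℝ) :
    ∃ M : ℝ, 0 < M ∧ ∀ i, ∀ x ∈ cAnn 1 R, |F i x| ≤ M := by
  have h1 : ∀ i, ∃ M : ℝ, ∀ x ∈ cAnn 1 R, |F i x| ≤ M := by
    intro i
    obtain ⟨M, hM⟩ := (isCompact_cAnn 1 R).exists_bound_of_continuousOn
      ((hF i).mono (cAnn_subset hδ R))
    exact ⟨M, fun x hx => by simpa [Real.norm_eq_abs] using hM x hx⟩
  choose M hM using h1
  refine ⟨1 + ∑ i, |M i|, by positivity, fun i x hx => ?_⟩
  have h2 : |M i| ≤ ∑ j, |M j| :=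
    Finset.single_le_sum (f := fun j => |M j|) (fun j _ => abs_nonneg _) (Finset.mem_univ i)
  have h3 := hM i x hx
  have h4 := le_abs_self (M i)
  linarith

theorem decay_one {g h : TensorField} {δ : ℝ} (hδ : 0 < δ)
    (hg : ∀ i j, ContDiffOn ℝ ∞ (fun x => g x i j) (Outside δ))
    (hh : ∀ i j, ContDiffOn ℝ ∞ (fun x => h x i j) (Outside δ))
    (hd : ∃ C R : ℝ, DecayFrom C R g h) : ∃ C : ℝ, 0 < C ∧ DecayFrom C 1 g h := by
  obtain ⟨C, R, hd⟩ := hd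
  obtain ⟨M0, hM0, b0⟩ := bound_family (ι := Fin 3 × Fin 3) hδ
    (fun p x => g x p.1 p.2 - (1 : Bil) p.1 p.2)
    (fun p => ((hg p.1 p.2).continuousOn).sub continuousOn_const) (max R 1)
  obtain ⟨M1, hM1, b1⟩ := bound_family (ι := Fin 3 × Fin 3 × Fin 3) hδ
    (fun p x => pd p.2.2 (fun y => g y p.1 p.2.1) x)
    (fun p => (contDiffOn_pd (isOpen_outside δ) (hg p.1 p.2.1) p.2.2).continuousOn) (max R 1)
  obtain ⟨M2, hM2, b2⟩ := bound_family (ι := Fin 3 × Fin 3 × Fin 3 × Fin 3) hδ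
    (fun p x => pd p.2.2.1 (pd p.2.2.2 (fun y => g y p.1 p.2.1)) x)
    (fun p => (contDiffOn_pd (isOpen_outside δ) (contDiffOn_pd (isOpen_outside δ) (hg p.1 p.2.1) p.2.2.2) p.2.2.1).continuousOn)
    (max R 1)
  obtain ⟨N0, hN0, c0⟩ := bound_family (ι := Fin 3 × Fin 3) hδ
    (fun p x => h x p.1 p.2) (fun p => (hh p.1 p.2).continuousOn) (max R 1)
  obtain ⟨N1, hN1, c1⟩ := bound_family (ι := Fin 3 × Fin 3 × Fin 3) hδ
    (fun p x => pd p.2.2 (fun y => h y p.1 p.2.1) x)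
    (fun p => (contDiffOn_pd (isOpen_outside δ) (hh p.1 p.2.1) p.2.2).continuousOn) (max R 1)
  set Q : ℝ := max R 1 with hQ
  have hQ1 : 1 ≤ Q := le_max_right _ _
  have hQR : R ≤ Q := le_max_left _ _
  set M : ℝ := M0 + M1 + M2 + N0 + N1 with hM
  have hMp : 0 < M := by positivity
  refine ⟨|C| + M * Q ^ 3, by positivity, ?_⟩
  intro x hx i j
  have hxp : 0 < ‖x‖ := by linarith
  by_cases hxR : R ≤ ‖x‖
  · obtain ⟨h1, h2, h3, h4, h5⟩ := hd x hxR i j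
    have hCC : C ≤ |C| + M * Q ^ 3 := by
      have : 0 ≤ M * Q ^ 3 := by positivity
      have := le_abs_self C
      linarith
    have hm : ∀ n : ℕ, C / ‖x‖ ^ n ≤ (|C| + M * Q ^ 3) / ‖x‖ ^ n := fun n =>
      div_le_div_of_nonneg_right hCC (by positivity)
    have hm1 : C / ‖x‖ ≤ (|C| + M * Q ^ 3) / ‖x‖ := by simpa using hm 1
    exact ⟨h1.trans hm1, fun k => (h2 k).trans (hm 2), fun k l => (h3 k l).trans (hm 3),
      h4.trans (hm 2), fun k => (h5 k).trans (hm 3)⟩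
  · have hxQ : ‖x‖ ≤ Q := by linarith [not_le.mp hxR]
    have hmem : x ∈ cAnn 1 Q := ⟨hx, hxQ⟩
    have hm : ∀ n : ℕ, n ≤ 3 → ∀ t : ℝ, t ≤ M → t ≤ (|C| + M * Q ^ 3) / ‖x‖ ^ n := by
      intro n hn t ht
      rw [le_div_iff₀ (by positivity)]
      have e1 : ‖x‖ ^ n ≤ Q ^ n := pow_le_pow_left₀ hxp.le hxQ n
      have e2 : Q ^ n ≤ Q ^ 3 := pow_le_pow_right₀ hQ1 hn
      have e3 : t * ‖x‖ ^ n ≤ M * ‖x‖ ^ n := mul_le_mul_of_nonneg_right ht (by positivity)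
      have e4 : M * ‖x‖ ^ n ≤ M * Q ^ 3 := mul_le_mul_of_nonneg_left (e1.trans e2) hMp.le
      have := abs_nonneg C
      linarith
    have hm1 : ∀ t : ℝ, t ≤ M → t ≤ (|C| + M * Q ^ 3) / ‖x‖ := by
      intro t ht
      simpa using hm 1 (by norm_num) t ht
    refine ⟨hm1 _ ?_, fun k => hm 2 (by norm_num) _ ?_, fun k l => hm 3 le_rfl _ ?_,
      hm 2 (by norm_num) _ ?_, fun k => hm 3 le_rfl _ ?_⟩
    · have := b0 (i, j) x hmem
      simp only at this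
      linarith
    · have := b1 (i, j, k) x hmem
      simp only at this
      linarith
    · have := b2 (i, j, k, l) x hmem
      simp only at this
      linarith
    · have := c0 (i, j) x hmem
      simp only at this
      linarith
    · have := c1 (i, j, k) x hmem
      simp only at this
      linarith

theorem elliptic_annulus {g : TensorField} {δ : ℝ} (hδ : 0 < δ) (hg : MetricOn (Outside δ) g) (R : ℝ) :
    ∃ C : ℝ, 0 < C ∧ ∀ x ∈ cAnn 1 R, ∀ v : Cov,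
      (∑ i, v i ^ 2) ≤ C * ev (g x) v v ∧ ev (g x) v v ≤ C * ∑ i, v i ^ 2 := by
  have hcomp : IsCompact (cAnn 1 R ×ˢ unitCov) := (isCompact_cAnn 1 R).prod isCompact_unitCov
  have hcont : ContinuousOn (fun p : E3 × Cov => ev (g p.1) p.2 p.2) (cAnn 1 R ×ˢ unitCov) := by
    unfold ev
    refine continuousOn_finsetSum _ fun i _ => continuousOn_finsetSum _ fun j _ => ?_
    refine (ContinuousOn.mul ?_ ?_).mul ?_
    · exact ((hg.smooth i j).continuousOn.mono (cAnn_subset hδ R)).comp continuousOn_fst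
        (fun p hp => hp.1)
    · exact ((continuous_apply i).comp continuous_snd).continuousOn
    · exact ((continuous_apply j).comp continuous_snd).continuousOn
  have hpos : ∀ p ∈ cAnn 1 R ×ˢ unitCov, 0 < ev (g p.1) p.2 p.2 := by
    intro p hp
    refine ev_posDef (hg.posDef _ (cAnn_subset hδ R hp.1)) ?_
    intro h0
    have h1 : ∑ i, p.2 i ^ 2 = 1 := hp.2
    rw [h0] at h1
    simp at h1
  obtain ⟨M, hM⟩ := hcomp.exists_bound_of_continuousOn hcont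
  obtain ⟨N, hN⟩ := hcomp.exists_bound_of_continuousOn
    (hcont.inv₀ fun p hp => (hpos p hp).ne')
  refine ⟨1 + |M| + |N|, by positivity, ?_⟩
  intro x hx v
  by_cases hv : v = 0
  · subst hv
    simp [ev]
  have hs : 0 < ∑ i, v i ^ 2 := by
    obtain ⟨i, hi⟩ := Function.ne_iff.mp hv
    have h1 : v i ^ 2 ≤ ∑ j, v j ^ 2 :=
      Finset.single_le_sum (f := fun j => v j ^ 2) (fun j _ => sq_nonneg _) (Finset.mem_univ i)
    have h2 : 0 < v i ^ 2 := by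
      have : v i ≠ 0 := by simpa using hi
      positivity
    linarith
  set s : ℝ := Real.sqrt (∑ i, v i ^ 2) with hsdef
  have hsp : 0 < s := Real.sqrt_pos.mpr hs
  have hs2 : s ^ 2 = ∑ i, v i ^ 2 := Real.sq_sqrt hs.le
  have hw : (s⁻¹ • v) ∈ unitCov := by
    show ∑ i, (s⁻¹ • v) i ^ 2 = 1
    have : ∑ i, (s⁻¹ • v) i ^ 2 = (s⁻¹) ^ 2 * ∑ i, v i ^ 2 := by
      rw [Finset.mul_sum]
      refine Finset.sum_congr rfl fun i _ => ?_
      simp only [Pi.smul_apply, smul_eq_mul]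
      ring
    rw [this, ← hs2]
    field_simp
  have hmem : (x, s⁻¹ • v) ∈ cAnn 1 R ×ˢ unitCov := ⟨hx, hw⟩
  have hev : ev (g x) v v = s ^ 2 * ev (g x) (s⁻¹ • v) (s⁻¹ • v) := by
    rw [ev_smul]
    field_simp
  have hp := hpos _ hmem
  have h1 := hM _ hmem
  have h2 := hN _ hmem
  simp only [Real.norm_eq_abs, Pi.inv_apply] at h1 h2 hp
  set E : ℝ := ev (g x) (s⁻¹ • v) (s⁻¹ • v) with hE
  rw [← hs2, hev]
  rw [abs_of_pos hp] at h1
  rw [abs_of_pos (inv_pos.mpr hp)] at h2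
  have h3 : E ≤ 1 + |M| + |N| := by
    have := le_abs_self M
    have := abs_nonneg N
    linarith
  have h4 : 1 ≤ (1 + |M| + |N|) * E := by
    have h5 : E⁻¹ ≤ 1 + |M| + |N| := by
      have := le_abs_self N
      have := abs_nonneg M
      linarith
    calc (1 : ℝ) = E⁻¹ * E := by field_simp
      _ ≤ (1 + |M| + |N|) * E := mul_le_mul_of_nonneg_right h5 hp.le
  constructor
  · nlinarith [sq_nonneg s]
  · nlinarith [sq_nonneg s]

theorem elliptic_one {g h : TensorField} {δ C : ℝ} (hδ : 0 < δ) (hg : MetricOn (Outside δ) g)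
    (hd : DecayFrom C 1 g h) :
    ∃ C' : ℝ, 0 < C' ∧ ∀ x : E3, 1 ≤ ‖x‖ → ∀ v : Cov,
      (∑ i, v i ^ 2) ≤ C' * ev (g x) v v ∧ ev (g x) v v ≤ C' * ∑ i, v i ^ 2 := by
  obtain ⟨A, hA, hA2⟩ := elliptic_annulus hδ hg (max 1 (6 * C))
  have hpos : ∀ x : E3, 1 ≤ ‖x‖ → ∀ v : Cov, 0 ≤ ev (g x) v v := by
    intro x hx v
    by_cases hv : v = 0
    · subst hv; simp [ev]
    · refine (ev_posDef (hg.posDef x ?_) hv).le
      change 1 - δ < ‖x‖
      linarith
  refine ⟨A + 2, by positivity, ?_⟩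
  intro x hx v
  have hn : 0 ≤ ∑ i, v i ^ 2 := Finset.sum_nonneg fun i _ => sq_nonneg _
  have he := hpos x hx v
  by_cases hxR : ‖x‖ ≤ max 1 (6 * C)
  · obtain ⟨h1, h2⟩ := hA2 x ⟨hx, hxR⟩ v
    constructor
    · nlinarith
    · nlinarith
  · have hx6 : 6 * C < ‖x‖ := lt_of_le_of_lt (le_max_right _ _) (not_le.mp hxR)
    have hxp : 0 < ‖x‖ := by linarith
    have hδ' : C / ‖x‖ ≤ 1 / 6 := by
      rw [div_le_iff₀ hxp]
      linarith
    obtain ⟨h1, h2⟩ := ev_near_one hδ' (fun i j => (hd x hx i j).1) v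
    constructor
    · nlinarith
    · nlinarith

end Pool.Agent.PFlow.XAFDaux

namespace Pool.Agent.PFlow

open Pool.Agent.PenroseSph XAFDaux

theorem XAFD : Stmt_XAFD := by
  intro g k δ hδ hg hk hd
  obtain ⟨C1, hC1, d1⟩ := decay_one hδ hg.smooth hk.smooth hd
  obtain ⟨C3, hC3, e1⟩ := elliptic_one hδ hg d1
  refine ⟨C1 + C3, by positivity, AFDaux.decay_mono d1 one_pos (by linarith), ?_⟩
  intro x hx v
  obtain ⟨h1, h2⟩ := e1 x hx v
  have hn : 0 ≤ ∑ i, v i ^ 2 := Finset.sum_nonneg fun i _ => sq_nonneg _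
  have he : 0 ≤ ev (g x) v v := by
    by_contra hneg
    nlinarith
  constructor
  · nlinarith
  · nlinarith

end Pool.Agent.PFlow


end

section

/-!
# Exterior regions: outside the collar the modified data are close to the data (XCLO)
-/

open MeasureTheory Filter Topology
open scoped ContDiff ENNReal

namespace Pool.Agent.PFlow

open Pool.Agent.PenroseSph

namespace XCLOaux

/-! ### Families of functions with bounded derivatives -/

section Families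

variable (P : ℝ → Prop) (A : ℝ → Set E3)

/-- Smooth and uniformly bounded families. -/
def B0 (u : ℝ → E3 → ℝ) : Prop :=
  (∀ τ, P τ → ContDiffOn ℝ ∞ (u τ) (A τ)) ∧ ∃ C : ℝ, ∀ τ, P τ → ∀ x ∈ A τ, |u τ x| ≤ C

/-- Smooth families with uniformly bounded derivatives up to the order `k`. -/
def Bd : ℕ → (ℝ → E3 → ℝ) → Prop
  | 0, u => B0 P A u
  | k + 1, u => B0 P A u ∧ ∀ m, Bd k (fun τ => pd m (u τ))

variable {P A}

theorem Bd.b0 {k : ℕ} {u : ℝ → E3 → ℝ} (h : Bd P A k u) : B0 P A u := by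
  cases k with
  | zero => exact h
  | succ k => exact h.1

theorem Bd.pd {k : ℕ} {u : ℝ → E3 → ℝ} (h : Bd P A (k + 1) u) (m : Fin 3) :
    Bd P A k (fun τ => pd m (u τ)) := h.2 m

theorem Bd.pred {k : ℕ} : ∀ {u : ℝ → E3 → ℝ}, Bd P A (k + 1) u → Bd P A k u := by
  induction k with
  | zero => intro u h; exact h.1
  | succ k ih => intro u h; exact ⟨h.1, fun m => ih (h.2 m)⟩

theorem pd_smooth {U : Set E3} (hU : IsOpen U) {f : E3 → ℝ} (hf : ContDiffOn ℝ ∞ f U)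
    (m : Fin 3) : ContDiffOn ℝ ∞ (PenroseSph.pd m f) U := by
  have h1 : ContDiffOn ℝ ∞ (fderiv ℝ f) U := hf.fderiv_of_isOpen hU (by norm_cast)
  exact h1.clm_apply contDiffOn_const

theorem diffAt {U : Set E3} (hU : IsOpen U) {f : E3 → ℝ} (hf : ContDiffOn ℝ ∞ f U) {x : E3}
    (hx : x ∈ U) : DifferentiableAt ℝ f x :=
  (hf.contDiffAt (hU.mem_nhds hx)).differentiableAt (by simp)

theorem B0.congr {u v : ℝ → E3 → ℝ} (h : ∀ τ, P τ → Set.EqOn (v τ) (u τ) (A τ))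
    (hu : B0 P A u) : B0 P A v := by
  refine ⟨fun τ hτ => (hu.1 τ hτ).congr (h τ hτ), ?_⟩
  obtain ⟨C, hC⟩ := hu.2
  exact ⟨C, fun τ hτ x hx => by rw [h τ hτ hx]; exact hC τ hτ x hx⟩

theorem Bd.congr (hA : ∀ τ, P τ → IsOpen (A τ)) {k : ℕ} : ∀ {u v : ℝ → E3 → ℝ},
    (∀ τ, P τ → Set.EqOn (v τ) (u τ) (A τ)) → Bd P A k u → Bd P A k v := by
  induction k with
  | zero => intro u v h hu; exact B0.congr h hu
  | succ k ih =>
    intro u v h hu
    refine ⟨B0.congr h hu.1, fun m => ih (fun τ hτ x hx => ?_) (hu.2 m)⟩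
    exact pd_congr (Filter.eventuallyEq_of_mem ((hA τ hτ).mem_nhds hx) (h τ hτ))

theorem Bd.add (hA : ∀ τ, P τ → IsOpen (A τ)) {k : ℕ} : ∀ {u v : ℝ → E3 → ℝ},
    Bd P A k u → Bd P A k v → Bd P A k (fun τ x => u τ x + v τ x) := by
  have h0 : ∀ {u v : ℝ → E3 → ℝ}, B0 P A u → B0 P A v → B0 P A (fun τ x => u τ x + v τ x) := by
    intro u v hu hv
    refine ⟨fun τ hτ => (hu.1 τ hτ).add (hv.1 τ hτ), ?_⟩
    obtain ⟨C, hC⟩ := hu.2
    obtain ⟨D, hD⟩ := hv.2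
    exact ⟨C + D, fun τ hτ x hx => (abs_add_le _ _).trans (add_le_add (hC τ hτ x hx) (hD τ hτ x hx))⟩
  induction k with
  | zero => intro u v hu hv; exact h0 hu hv
  | succ k ih =>
    intro u v hu hv
    refine ⟨h0 hu.1 hv.1, fun m => Bd.congr hA ?_ (ih (hu.2 m) (hv.2 m))⟩
    intro τ hτ x hx
    exact pd_add (diffAt (hA τ hτ) (hu.1.1 τ hτ) hx) (diffAt (hA τ hτ) (hv.1.1 τ hτ) hx)

theorem Bd.mul (hA : ∀ τ, P τ → IsOpen (A τ)) {k : ℕ} : ∀ {u v : ℝ → E3 → ℝ},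
    Bd P A k u → Bd P A k v → Bd P A k (fun τ x => u τ x * v τ x) := by
  have h0 : ∀ {u v : ℝ → E3 → ℝ}, B0 P A u → B0 P A v → B0 P A (fun τ x => u τ x * v τ x) := by
    intro u v hu hv
    refine ⟨fun τ hτ => (hu.1 τ hτ).mul (hv.1 τ hτ), ?_⟩
    obtain ⟨C, hC⟩ := hu.2
    obtain ⟨D, hD⟩ := hv.2
    refine ⟨C * D, fun τ hτ x hx => ?_⟩
    rw [abs_mul]
    exact mul_le_mul (hC τ hτ x hx) (hD τ hτ x hx) (abs_nonneg _)
      ((abs_nonneg _).trans (hC τ hτ x hx))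
  induction k with
  | zero => intro u v hu hv; exact h0 hu hv
  | succ k ih =>
    intro u v hu hv
    refine ⟨h0 hu.1 hv.1, fun m => Bd.congr hA ?_
      (Bd.add hA (ih hu.pred (hv.2 m)) (ih hv.pred (hu.2 m)))⟩
    intro τ hτ x hx
    exact pd_mul (diffAt (hA τ hτ) (hu.1.1 τ hτ) hx) (diffAt (hA τ hτ) (hv.1.1 τ hτ) hx)

/-- Bounded constants. -/
theorem Bd.const {c : ℝ → ℝ} (hc : ∃ C : ℝ, ∀ τ, P τ → |c τ| ≤ C) {k : ℕ} :
    Bd P A k (fun τ _ => c τ) := by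
  have h0 : ∀ {c : ℝ → ℝ}, (∃ C : ℝ, ∀ τ, P τ → |c τ| ≤ C) → B0 P A (fun τ _ => c τ) := by
    intro c hc
    obtain ⟨C, hC⟩ := hc
    exact ⟨fun τ _ => contDiffOn_const, C, fun τ hτ x _ => hC τ hτ⟩
  induction k generalizing c with
  | zero => exact h0 hc
  | succ k ih =>
    refine ⟨h0 hc, fun m => ?_⟩
    have h1 : (fun τ => PenroseSph.pd m (fun _ : E3 => c τ)) = fun _ _ => (0 : ℝ) := by
      funext τ x
      exact pd_const (c τ)
    rw [h1]
    exact ih ⟨0, fun τ _ => by simp⟩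

end Families

/-! ### Composition with smooth functions -/

section Comp

/-- The derivative in the direction of the first variable. -/
noncomputable def ds (H : ℝ × E3 → ℝ) (z : ℝ × E3) : ℝ := fderiv ℝ H z (1, 0)

/-- The derivative in the direction of a coordinate of the second variable. -/
noncomputable def dx (m : Fin 3) (H : ℝ × E3 → ℝ) (z : ℝ × E3) : ℝ :=
  fderiv ℝ H z (0, EuclideanSpace.single m 1)

theorem ds_smooth {W : Set (ℝ × E3)} (hW : IsOpen W) {H : ℝ × E3 → ℝ}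
    (hH : ContDiffOn ℝ ∞ H W) : ContDiffOn ℝ ∞ (ds H) W := by
  have h1 : ContDiffOn ℝ ∞ (fderiv ℝ H) W := hH.fderiv_of_isOpen hW (by norm_cast)
  exact h1.clm_apply contDiffOn_const

theorem dx_smooth {W : Set (ℝ × E3)} (hW : IsOpen W) {H : ℝ × E3 → ℝ}
    (hH : ContDiffOn ℝ ∞ H W) (m : Fin 3) : ContDiffOn ℝ ∞ (dx m H) W := by
  have h1 : ContDiffOn ℝ ∞ (fderiv ℝ H) W := hH.fderiv_of_isOpen hW (by norm_cast)
  exact h1.clm_apply contDiffOn_const

theorem pd_comp {H : ℝ × E3 → ℝ} {w : E3 → ℝ} {x : E3}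
    (hH : DifferentiableAt ℝ H (w x, x)) (hw : DifferentiableAt ℝ w x) (m : Fin 3) :
    pd m (fun y => H (w y, y)) x = ds H (w x, x) * pd m w x + dx m H (w x, x) := by
  have h1 : HasFDerivAt (fun y => (w y, y)) ((fderiv ℝ w x).prod (ContinuousLinearMap.id ℝ E3)) x :=
    hw.hasFDerivAt.prodMk (hasFDerivAt_id x)
  have h2 : HasFDerivAt (fun y => H (w y, y)) ((fderiv ℝ H (w x, x)).comp
      ((fderiv ℝ w x).prod (ContinuousLinearMap.id ℝ E3))) x :=
    HasFDerivAt.comp x (g := H) (f := fun y => (w y, y)) hH.hasFDerivAt h1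
  unfold pd ds dx
  rw [h2.fderiv]
  have h3 : ((fderiv ℝ w x).prod (ContinuousLinearMap.id ℝ E3)) (EuclideanSpace.single m 1)
      = (fderiv ℝ w x (EuclideanSpace.single m 1)) • ((1 : ℝ), (0 : E3))
        + ((0 : ℝ), (EuclideanSpace.single m 1 : E3)) := by
    ext <;> simp
  rw [ContinuousLinearMap.comp_apply, h3, map_add, map_smul, smul_eq_mul, mul_comm]

variable {P : ℝ → Prop} {A : ℝ → Set E3}

theorem comp_bd (hA : ∀ τ, P τ → IsOpen (A τ)) {W K : Set (ℝ × E3)} (hW : IsOpen W)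
    (hK : IsCompact K) (hKW : K ⊆ W) {w : ℝ → E3 → ℝ}
    (hwK : ∀ τ, P τ → ∀ x ∈ A τ, (w τ x, x) ∈ K) {k : ℕ} (hw : Bd P A k w) :
    ∀ {H : ℝ × E3 → ℝ}, ContDiffOn ℝ ∞ H W → Bd P A k (fun τ x => H (w τ x, x)) := by
  have h0 : ∀ {H : ℝ × E3 → ℝ}, ContDiffOn ℝ ∞ H W → B0 P A (fun τ x => H (w τ x, x)) := by
    intro H hH
    refine ⟨fun τ hτ => ?_, ?_⟩
    · exact hH.comp ((hw.b0.1 τ hτ).prodMk contDiffOn_id) fun x hx => hKW (hwK τ hτ x hx)
    · obtain ⟨C, hC⟩ := hK.exists_bound_of_continuousOn (hH.continuousOn.mono hKW)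
      exact ⟨C, fun τ hτ x hx => hC _ (hwK τ hτ x hx)⟩
  induction k with
  | zero => intro H hH; exact h0 hH
  | succ k ih =>
    intro H hH
    refine ⟨h0 hH, fun m => Bd.congr hA ?_ (Bd.add hA (Bd.mul hA
      (ih hw.pred (ds_smooth hW hH)) (hw.2 m)) (ih hw.pred (dx_smooth hW hH m)))⟩
    intro τ hτ x hx
    have h1 : DifferentiableAt ℝ H (w τ x, x) :=
      (hH.contDiffAt (hW.mem_nhds (hKW (hwK τ hτ x hx)))).differentiableAt (by simp)
    exact pd_comp h1 (diffAt (hA τ hτ) (hw.b0.1 τ hτ) hx) m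

theorem diff_bd (hA : ∀ τ, P τ → IsOpen (A τ)) (hP : ∀ τ, P τ → 0 < τ) {W K : Set (ℝ × E3)}
    (hW : IsOpen W) (hK : IsCompact K) (hKW : K ⊆ W) {w : ℝ → E3 → ℝ}
    (hwK : ∀ τ, P τ → ∀ x ∈ A τ, ∀ θ : ℝ, 0 ≤ θ → θ ≤ 1 → (θ * w τ x, x) ∈ K) {k : ℕ}
    (hw : Bd P A k w) (hw' : Bd P A k (fun τ x => τ⁻¹ * w τ x)) :
    ∀ {H : ℝ × E3 → ℝ}, ContDiffOn ℝ ∞ H W →
      Bd P A k (fun τ x => τ⁻¹ * (H (w τ x, x) - H (0, x))) := by
  have hw1 : ∀ τ, P τ → ∀ x ∈ A τ, (w τ x, x) ∈ K := fun τ hτ x hx => by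
    have := hwK τ hτ x hx 1 zero_le_one le_rfl
    rwa [one_mul] at this
  have hw0 : ∀ τ, P τ → ∀ x ∈ A τ, ((0 : ℝ), x) ∈ K := fun τ hτ x hx => by
    have := hwK τ hτ x hx 0 le_rfl zero_le_one
    rwa [zero_mul] at this
  have h0 : ∀ {H : ℝ × E3 → ℝ}, ContDiffOn ℝ ∞ H W →
      B0 P A (fun τ x => τ⁻¹ * (H (w τ x, x) - H (0, x))) := by
    intro H hH
    refine ⟨fun τ hτ => ?_, ?_⟩
    · have h1 : ContDiffOn ℝ ∞ (fun x => H (w τ x, x)) (A τ) :=
        hH.comp ((hw.b0.1 τ hτ).prodMk contDiffOn_id) fun x hx => hKW (hw1 τ hτ x hx)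
      have h2 : ContDiffOn ℝ ∞ (fun x => H ((0 : ℝ), x)) (A τ) :=
        hH.comp (contDiffOn_const.prodMk contDiffOn_id) fun x hx => hKW (hw0 τ hτ x hx)
      exact contDiffOn_const.mul (h1.sub h2)
    · obtain ⟨C, hC⟩ := hK.exists_bound_of_continuousOn ((ds_smooth hW hH).continuousOn.mono hKW)
      obtain ⟨D, hD⟩ := hw'.b0.2
      refine ⟨C * D, fun τ hτ x hx => ?_⟩
      have hτ0 := hP τ hτ
      have h1 : ∀ θ ∈ Set.Icc (0 : ℝ) 1, HasDerivWithinAt (fun θ : ℝ => H (θ * w τ x, x))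
          (ds H (θ * w τ x, x) * w τ x) (Set.Icc 0 1) θ := by
        intro θ hθ
        have h2 : DifferentiableAt ℝ H (θ * w τ x, x) :=
          (hH.contDiffAt (hW.mem_nhds (hKW (hwK τ hτ x hx θ hθ.1 hθ.2)))).differentiableAt (by simp)
        have h3 : HasDerivAt (fun θ : ℝ => (θ * w τ x, x)) (w τ x, (0 : E3)) θ := by
          have h4 : HasDerivAt (fun θ : ℝ => θ * w τ x) (w τ x) θ := by
            have h5 := (hasDerivAt_id θ).mul_const (w τ x)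
            rw [one_mul] at h5
            exact h5
          exact h4.prodMk (hasDerivAt_const θ x)
        have h6 : HasDerivAt (fun θ : ℝ => H (θ * w τ x, x))
            (fderiv ℝ H (θ * w τ x, x) (w τ x, (0 : E3))) θ :=
          HasFDerivAt.comp_hasDerivAt (f := fun θ : ℝ => (θ * w τ x, x)) θ h2.hasFDerivAt h3
        have h7 : fderiv ℝ H (θ * w τ x, x) (w τ x, (0 : E3)) = ds H (θ * w τ x, x) * w τ x := by
          have h8 : (w τ x, (0 : E3)) = (w τ x) • ((1 : ℝ), (0 : E3)) := by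
            ext <;> simp
          rw [h8, map_smul, smul_eq_mul, mul_comm]
          rfl
        rw [h7] at h6
        exact h6.hasDerivWithinAt
      have h9 : ∀ θ ∈ Set.Ico (0 : ℝ) 1, ‖ds H (θ * w τ x, x) * w τ x‖ ≤ C * |w τ x| := by
        intro θ hθ
        rw [norm_mul]
        exact mul_le_mul_of_nonneg_right (hC _ (hwK τ hτ x hx θ hθ.1 hθ.2.le)) (norm_nonneg _)
      have h10 := norm_image_sub_le_of_norm_deriv_le_segment_01' h1 h9
      have h11 : |τ⁻¹ * w τ x| ≤ D := hD τ hτ x hx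
      have hC0 : 0 ≤ C := (norm_nonneg _).trans (hC _ (hw0 τ hτ x hx))
      simp only [one_mul, zero_mul, Real.norm_eq_abs] at h10
      rw [abs_mul, abs_of_pos (inv_pos.mpr hτ0)] at h11 ⊢
      calc τ⁻¹ * |H (w τ x, x) - H (0, x)| ≤ τ⁻¹ * (C * |w τ x|) :=
            mul_le_mul_of_nonneg_left h10 (inv_pos.mpr hτ0).le
        _ = C * (τ⁻¹ * |w τ x|) := by ring
        _ ≤ C * D := mul_le_mul_of_nonneg_left h11 hC0
  induction k with
  | zero => intro H hH; exact h0 hH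
  | succ k ih =>
    intro H hH
    refine ⟨h0 hH, fun m => Bd.congr hA ?_ (Bd.add hA (Bd.mul hA
      (comp_bd hA hW hK hKW hw1 hw.pred (ds_smooth hW hH)) (hw'.2 m))
      (ih hw.pred hw'.pred (dx_smooth hW hH m)))⟩
    intro τ hτ x hx
    have h1 : DifferentiableAt ℝ H (w τ x, x) :=
      (hH.contDiffAt (hW.mem_nhds (hKW (hw1 τ hτ x hx)))).differentiableAt (by simp)
    have h2 : DifferentiableAt ℝ H (0, x) :=
      (hH.contDiffAt (hW.mem_nhds (hKW (hw0 τ hτ x hx)))).differentiableAt (by simp)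
    have hwd : DifferentiableAt ℝ (w τ) x := diffAt (hA τ hτ) (hw.b0.1 τ hτ) hx
    have h3 := pd_comp h1 hwd m
    have h4 := pd_comp (w := fun _ => (0 : ℝ)) h2 (differentiableAt_const 0) m
    have d1 : DifferentiableAt ℝ (fun y => H (w τ y, y)) x :=
      DifferentiableAt.comp (g := H) x h1 (hwd.prodMk differentiableAt_id)
    have d2 : DifferentiableAt ℝ (fun y : E3 => H (0, y)) x :=
      DifferentiableAt.comp (g := H) x h2 ((differentiableAt_const (0 : ℝ)).prodMk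
        differentiableAt_id)
    change pd m (fun x => τ⁻¹ * (H (w τ x, x) - H (0, x))) x = ds H (w τ x, x) *
      pd m (fun x => τ⁻¹ * w τ x) x + τ⁻¹ * (dx m H (w τ x, x) - dx m H (0, x))
    have d3 : DifferentiableAt ℝ (fun y => H (w τ y, y) - H (0, y)) x := d1.sub d2
    rw [pd_const_mul _ d3, pd_sub d1 d2, h3, h4, pd_const_mul _ hwd, pd_const]
    ring

/-- Fixed smooth functions. -/
theorem fixed_bd (hA : ∀ τ, P τ → IsOpen (A τ)) {U K : Set E3} (hU : IsOpen U)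
    (hK : IsCompact K) (hKU : K ⊆ U) (hAK : ∀ τ, P τ → A τ ⊆ K) {f : E3 → ℝ}
    (hf : ContDiffOn ℝ ∞ f U) (k : ℕ) : Bd P A k (fun _ => f) := by
  have h1 := comp_bd (P := P) (A := A) hA (W := Set.univ ×ˢ U) (K := {0} ×ˢ K)
    (isOpen_univ.prod hU) (isCompact_singleton.prod hK) (Set.prod_mono (Set.subset_univ _) hKU)
    (w := fun _ _ => 0) (fun τ hτ x hx => ⟨rfl, hAK τ hτ hx⟩) (k := k)
    (Bd.const ⟨0, fun τ _ => by simp⟩) (H := fun z => f z.2)
    (hf.comp contDiffOn_snd fun z hz => hz.2)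
  exact h1

end Comp

/-! ### Radial functions -/

section Radial

variable (P : ℝ → Prop)

/-- One variable families which are bounded for `t ≥ τ`. -/
def V0 (v : ℝ → ℝ → ℝ) : Prop :=
  (∀ τ, P τ → ContDiff ℝ ∞ (v τ)) ∧ ∃ C : ℝ, ∀ τ, P τ → ∀ t, τ ≤ t → |v τ t| ≤ C

/-- One variable families which are bounded for `t ≥ τ` with their derivatives up to the
order `k`. -/
def VB : ℕ → (ℝ → ℝ → ℝ) → Prop
  | 0, v => V0 P v
  | k + 1, v => V0 P v ∧ VB k (fun τ => deriv (v τ))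

variable {P}

theorem VB.v0 {k : ℕ} {v : ℝ → ℝ → ℝ} (h : VB P k v) : V0 P v := by
  cases k with
  | zero => exact h
  | succ k => exact h.1

theorem VB.congr {k : ℕ} : ∀ {v v' : ℝ → ℝ → ℝ}, (∀ τ, P τ → v' τ = v τ) → VB P k v →
    VB P k v' := by
  have h0 : ∀ {v v' : ℝ → ℝ → ℝ}, (∀ τ, P τ → v' τ = v τ) → V0 P v → V0 P v' := by
    intro v v' h hv
    refine ⟨fun τ hτ => by rw [h τ hτ]; exact hv.1 τ hτ, ?_⟩
    obtain ⟨C, hC⟩ := hv.2
    exact ⟨C, fun τ hτ t ht => by rw [h τ hτ]; exact hC τ hτ t ht⟩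
  induction k with
  | zero => intro v v' h hv; exact h0 h hv
  | succ k ih =>
    intro v v' h hv
    exact ⟨h0 h hv.1, ih (fun τ hτ => by rw [h τ hτ]) hv.2⟩

theorem contDiffOn_log_norm : ContDiffOn ℝ ∞ (fun x : E3 => Real.log ‖x‖) {0}ᶜ := by
  intro x hx
  have hx' : x ≠ 0 := hx
  exact ((contDiffAt_norm ℝ hx').log (norm_ne_zero_iff.mpr hx')).contDiffWithinAt

theorem pd_log {v : ℝ → ℝ} {x : E3} (hx : x ≠ 0) (hv : DifferentiableAt ℝ v (Real.log ‖x‖))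
    (m : Fin 3) : pd m (fun y => v (Real.log ‖y‖)) x
      = deriv v (Real.log ‖x‖) * (x m / ‖x‖ ^ 2) := by
  have hn : ‖x‖ ≠ 0 := norm_ne_zero_iff.mpr hx
  have h1 : HasDerivAt (fun r : ℝ => v (Real.log r)) (deriv v (Real.log ‖x‖) * ‖x‖⁻¹) ‖x‖ :=
    HasDerivAt.comp (h₂ := v) ‖x‖ hv.hasDerivAt (Real.hasDerivAt_log hn)
  rw [pd_radial (F := fun r => v (Real.log r)) hx h1]
  field_simp

theorem radial_bd {A : ℝ → Set E3} (hA : ∀ τ, P τ → IsOpen (A τ))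
    (hAK : ∀ τ, P τ → A τ ⊆ {x : E3 | 1 ≤ ‖x‖ ∧ ‖x‖ ≤ 5})
    (hAt : ∀ τ, P τ → ∀ x ∈ A τ, τ ≤ Real.log ‖x‖) {k : ℕ} : ∀ {v : ℝ → ℝ → ℝ}, VB P k v →
      Bd P A k (fun τ x => v τ (Real.log ‖x‖)) := by
  have hne : ∀ τ, P τ → ∀ x ∈ A τ, x ≠ 0 := by
    intro τ hτ x hx h
    have h1 := (hAK τ hτ hx).1
    rw [h, norm_zero] at h1
    linarith
  have h0 : ∀ {v : ℝ → ℝ → ℝ}, V0 P v → B0 P A (fun τ x => v τ (Real.log ‖x‖)) := by
    intro v hv
    refine ⟨fun τ hτ => ?_, ?_⟩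
    · exact (hv.1 τ hτ).comp_contDiffOn (contDiffOn_log_norm.mono fun x hx => hne τ hτ x hx)
    · obtain ⟨C, hC⟩ := hv.2
      exact ⟨C, fun τ hτ x hx => hC τ hτ _ (hAt τ hτ x hx)⟩
  have hKc : IsCompact {x : E3 | 1 ≤ ‖x‖ ∧ ‖x‖ ≤ 5} := by
    refine (isCompact_closedBall (0 : E3) 5).of_isClosed_subset ?_ ?_
    · exact (isClosed_le continuous_const continuous_norm).inter
        (isClosed_le continuous_norm continuous_const)
    · intro x hx
      rw [mem_closedBall_zero_iff]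
      exact hx.2
  have hq : ∀ (m : Fin 3) (k : ℕ), Bd P A k (fun _ x => x m / ‖x‖ ^ 2) := by
    intro m k
    refine fixed_bd hA (U := {0}ᶜ) (K := {x : E3 | 1 ≤ ‖x‖ ∧ ‖x‖ ≤ 5}) isOpen_compl_singleton hKc
      ?_ hAK ?_ k
    · intro x hx h
      have h1 := hx.1
      rw [Set.mem_singleton_iff] at h
      rw [h, norm_zero] at h1
      linarith
    · intro x hx
      have hx' : x ≠ 0 := hx
      have h2 : ContDiffAt ℝ ∞ (fun y : E3 => y m) x := by fun_prop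
      exact (h2.div ((contDiffAt_norm ℝ hx').pow 2)
        (pow_ne_zero 2 (norm_ne_zero_iff.mpr hx'))).contDiffWithinAt
  induction k with
  | zero => intro v hv; exact h0 hv
  | succ k ih =>
    intro v hv
    refine ⟨h0 hv.1, fun m => Bd.congr hA ?_ (Bd.mul hA (ih hv.2) (hq m k))⟩
    intro τ hτ x hx
    exact pd_log (hne τ hτ x hx) ((hv.1.1 τ hτ).contDiffAt.differentiableAt (by simp)) m

end Radial

/-! ### The extraction of constants -/

section Extract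

variable {P : ℝ → Prop} {A : ℝ → Set E3}

theorem extract1 (hA : ∀ τ, P τ → IsOpen (A τ)) (hP : ∀ τ, P τ → 0 < τ)
    {u : ℝ → E3 → ℝ} (h : Bd P A 1 (fun τ x => τ⁻¹ * u τ x)) : ∃ C : ℝ, ∀ τ, P τ → ∀ x ∈ A τ,
      |u τ x| ≤ C * τ ∧ ∀ m, |pd m (u τ) x| ≤ C * τ := by
  have key : ∀ (f : ℝ → E3 → ℝ), B0 P A (fun τ x => τ⁻¹ * f τ x) → ∃ C : ℝ,
      ∀ τ, P τ → ∀ x ∈ A τ, |f τ x| ≤ C * τ := by
    intro f hf
    obtain ⟨C, hC⟩ := hf.2
    refine ⟨C, fun τ hτ x hx => ?_⟩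
    have h1 := hC τ hτ x hx
    have h2 := hP τ hτ
    rw [abs_mul, abs_of_pos (inv_pos.mpr h2), inv_mul_le_iff₀ h2] at h1
    linarith
  have hsm : ∀ τ, P τ → ContDiffOn ℝ ∞ (u τ) (A τ) := by
    intro τ hτ
    have h1 := (contDiffOn_const (c := τ)).mul (h.1.1 τ hτ)
    refine h1.congr fun x _ => ?_
    have h2 := (hP τ hτ).ne'
    field_simp
  obtain ⟨C, hC⟩ := key u h.1
  have h2 : ∀ m, B0 P A (fun τ x => τ⁻¹ * pd m (u τ) x) := by
    intro m
    refine B0.congr ?_ (h.2 m)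
    intro τ hτ x hx
    exact (pd_const_mul τ⁻¹ (diffAt (hA τ hτ) (hsm τ hτ) hx)).symm
  choose D hD using fun m => key (fun τ => pd m (u τ)) (h2 m)
  refine ⟨|C| + ∑ m, |D m|, fun τ hτ x hx => ?_⟩
  have h3 := hP τ hτ
  have h5 : 0 ≤ ∑ m, |D m| := Finset.sum_nonneg fun _ _ => abs_nonneg _
  refine ⟨(hC τ hτ x hx).trans (mul_le_mul_of_nonneg_right ?_ h3.le), fun m =>
    (hD m τ hτ x hx).trans (mul_le_mul_of_nonneg_right ?_ h3.le)⟩
  · linarith [le_abs_self C]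
  · have h4 : |D m| ≤ ∑ m, |D m| :=
      Finset.single_le_sum (f := fun m => |D m|) (fun _ _ => abs_nonneg _) (Finset.mem_univ m)
    linarith [le_abs_self (D m), abs_nonneg C]

theorem extract2 (hA : ∀ τ, P τ → IsOpen (A τ)) (hP : ∀ τ, P τ → 0 < τ)
    {u : ℝ → E3 → ℝ} (h : Bd P A 2 (fun τ x => τ⁻¹ * u τ x)) : ∃ C : ℝ, ∀ τ, P τ → ∀ x ∈ A τ,
      |u τ x| ≤ C * τ ∧ (∀ m, |pd m (u τ) x| ≤ C * τ) ∧
        ∀ m n, |pd m (pd n (u τ)) x| ≤ C * τ := by
  have hsm : ∀ τ, P τ → ContDiffOn ℝ ∞ (u τ) (A τ) := by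
    intro τ hτ
    have h1 := (contDiffOn_const (c := τ)).mul (h.1.1 τ hτ)
    refine h1.congr fun x _ => ?_
    have h2 := (hP τ hτ).ne'
    field_simp
  obtain ⟨C, hC⟩ := extract1 hA hP h.pred
  have h2 : ∀ n, Bd P A 1 (fun τ x => τ⁻¹ * pd n (u τ) x) := by
    intro n
    refine Bd.congr hA ?_ (h.2 n)
    intro τ hτ x hx
    exact (pd_const_mul τ⁻¹ (diffAt (hA τ hτ) (hsm τ hτ) hx)).symm
  choose D hD using fun n => extract1 hA hP (h2 n)
  refine ⟨|C| + ∑ m, |D m|, fun τ hτ x hx => ?_⟩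
  have h3 := hP τ hτ
  have h5 : 0 ≤ ∑ m, |D m| := Finset.sum_nonneg fun _ _ => abs_nonneg _
  have h6 : C * τ ≤ (|C| + ∑ m, |D m|) * τ := by
    refine mul_le_mul_of_nonneg_right ?_ h3.le
    linarith [le_abs_self C]
  refine ⟨(hC τ hτ x hx).1.trans h6, fun m => ((hC τ hτ x hx).2 m).trans h6, fun m n =>
    ((hD n τ hτ x hx).2 m).trans (mul_le_mul_of_nonneg_right ?_ h3.le)⟩
  have h4 : |D n| ≤ ∑ m, |D m| :=
    Finset.single_le_sum (f := fun m => |D m|) (fun _ _ => abs_nonneg _) (Finset.mem_univ n)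
  linarith [le_abs_self (D n), abs_nonneg C]

end Extract

/-! ### The modified data -/

section Data

/-- The admissible widths. -/
def PP (δ τ : ℝ) : Prop := 0 < τ ∧ τ ≤ δ / 4

/-- The region outside the collar. -/
def AA (τ : ℝ) : Set E3 := {x : E3 | Real.exp τ < ‖x‖ ∧ ‖x‖ < 5}

theorem isOpen_AA (τ : ℝ) : IsOpen (AA τ) :=
  (isOpen_lt continuous_const continuous_norm).inter (isOpen_lt continuous_norm continuous_const)

theorem AA_one {τ : ℝ} (hτ : 0 < τ) {x : E3} (hx : x ∈ AA τ) : 1 < ‖x‖ :=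
  (Real.one_lt_exp_iff.mpr hτ).trans hx.1

theorem AA_log {τ : ℝ} (hτ : 0 < τ) {x : E3} (hx : x ∈ AA τ) : τ < Real.log ‖x‖ := by
  rw [Real.lt_log_iff_exp_lt (by linarith [AA_one hτ hx])]
  exact hx.1

/-- The exponent. -/
noncomputable def ww (δ τ : ℝ) (x : E3) : ℝ := phX τ δ (Real.log ‖x‖) - Real.log ‖x‖

theorem facX_eq {τ δ : ℝ} {x : E3} (hx : x ≠ 0) : facX τ δ x = Real.exp (ww δ τ x) := by
  unfold facX ww
  rw [Real.exp_sub, Real.exp_log (norm_pos_iff.mpr hx)]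

/-- The function of two variables. -/
noncomputable def HH (f : E3 → ℝ) (z : ℝ × E3) : ℝ := Real.exp z.1 ^ 2 * f (Real.exp z.1 • z.2)

/-- Its domain. -/
def WW (δ₀ : ℝ) : Set (ℝ × E3) := {z | 1 - δ₀ < ‖Real.exp z.1 • z.2‖}

/-- The compact set. -/
def KK : Set (ℝ × E3) := (Set.Icc (-1) 0 ×ˢ Metric.closedBall (0 : E3) 5) ∩
  {z | 1 ≤ ‖Real.exp z.1 • z.2‖}

theorem cont_map : Continuous (fun z : ℝ × E3 => Real.exp z.1 • z.2) := by fun_prop

theorem isOpen_WW (δ₀ : ℝ) : IsOpen (WW δ₀) := isOpen_lt continuous_const cont_map.norm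

theorem isCompact_KK : IsCompact KK :=
  (isCompact_Icc.prod (isCompact_closedBall (0 : E3) 5)).inter_right
    (isClosed_le continuous_const cont_map.norm)

theorem KK_sub {δ₀ : ℝ} (h : 0 < δ₀) : KK ⊆ WW δ₀ := by
  intro z hz
  have h1 : 1 ≤ ‖Real.exp z.1 • z.2‖ := hz.2
  change 1 - δ₀ < ‖Real.exp z.1 • z.2‖
  linarith

theorem HH_smooth {δ₀ : ℝ} {f : E3 → ℝ} (hf : ContDiffOn ℝ ∞ f (Outside δ₀)) :
    ContDiffOn ℝ ∞ (HH f) (WW δ₀) := by
  have h1 : ContDiff ℝ ∞ (fun z : ℝ × E3 => Real.exp z.1 • z.2) :=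
    (Real.contDiff_exp.comp contDiff_fst).smul contDiff_snd
  have h2 : ContDiff ℝ ∞ (fun z : ℝ × E3 => Real.exp z.1 ^ 2) :=
    (Real.contDiff_exp.comp contDiff_fst).pow 2
  exact h2.contDiffOn.mul (hf.comp h1.contDiffOn fun z hz => hz)

theorem HH_zero (f : E3 → ℝ) (x : E3) : HH f (0, x) = f x := by
  unfold HH
  simp

theorem HH_ww {τ δ : ℝ} (f : E3 → ℝ) {x : E3} (hx : x ≠ 0) :
    HH f (ww δ τ x, x) = facX τ δ x ^ 2 * f (facX τ δ x • x) := by
  unfold HH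
  rw [facX_eq hx]

end Data

end XCLOaux

open XCLOaux in
theorem XCLO (hXPHI : Stmt_XPHI) : Stmt_XCLO := by
  intro g k δ₀ δ hδ₀ hδ hδ1 hexp hg hk
  obtain ⟨C, hC0, hC⟩ := hXPHI δ hδ hδ1
  have hP : ∀ τ, PP δ τ → 0 < τ := fun τ h => h.1
  have hA : ∀ τ, PP δ τ → IsOpen (AA τ) := fun τ _ => isOpen_AA τ
  have hAK : ∀ τ, PP δ τ → AA τ ⊆ {x : E3 | 1 ≤ ‖x‖ ∧ ‖x‖ ≤ 5} := fun τ hτ x hx =>
    ⟨(AA_one hτ.1 hx).le, hx.2.le⟩
  have hAt : ∀ τ, PP δ τ → ∀ x ∈ AA τ, τ ≤ Real.log ‖x‖ := fun τ hτ x hx => (AA_log hτ.1 hx).le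
  have hne : ∀ τ, PP δ τ → ∀ x ∈ AA τ, x ≠ 0 := by
    intro τ hτ x hx h
    have h1 := AA_one hτ.1 hx
    rw [h, norm_zero] at h1
    linarith
  -- one variable estimates
  have hsm : ∀ τ, PP δ τ → ContDiff ℝ ∞ (phX τ δ) := fun τ hτ => (hC τ hτ.1 hτ.2).1
  have hdsm : ∀ τ, PP δ τ → ContDiff ℝ ∞ (deriv (phX τ δ)) := by
    intro τ hτ
    exact (contDiff_infty_iff_deriv.mp (hsm τ hτ)).2
  have hddsm : ∀ τ, PP δ τ → ContDiff ℝ ∞ (deriv (deriv (phX τ δ))) := by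
    intro τ hτ
    exact (contDiff_infty_iff_deriv.mp (hdsm τ hτ)).2
  have v2 : VB (PP δ) 0 (fun τ t => τ⁻¹ * deriv (deriv (phX τ δ)) t) := by
    refine ⟨fun τ hτ => contDiff_const.mul (hddsm τ hτ), C, fun τ hτ t ht => ?_⟩
    have h1 := ((hC τ hτ.1 hτ.2).2.2.2.2.2.2 t ht).2.1
    rw [abs_mul, abs_of_pos (inv_pos.mpr hτ.1), inv_mul_le_iff₀ hτ.1]
    linarith
  have v1 : VB (PP δ) 1 (fun τ t => τ⁻¹ * (deriv (phX τ δ) t - 1)) := by
    refine ⟨⟨fun τ hτ => contDiff_const.mul ((hdsm τ hτ).sub contDiff_const), C,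
      fun τ hτ t ht => ?_⟩, VB.congr ?_ v2⟩
    · have h1 := ((hC τ hτ.1 hτ.2).2.2.2.2.2.2 t ht).1
      rw [abs_mul, abs_of_pos (inv_pos.mpr hτ.1), inv_mul_le_iff₀ hτ.1]
      linarith
    · intro τ hτ
      funext t
      have h1 : DifferentiableAt ℝ (deriv (phX τ δ)) t :=
        (hdsm τ hτ).contDiffAt.differentiableAt (by simp)
      exact ((h1.hasDerivAt.sub_const 1).const_mul τ⁻¹).deriv
  have v0 : VB (PP δ) 2 (fun τ t => τ⁻¹ * (phX τ δ t - t)) := by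
    refine ⟨⟨fun τ hτ => contDiff_const.mul ((hsm τ hτ).sub contDiff_id), 1,
      fun τ hτ t ht => ?_⟩, VB.congr ?_ v1⟩
    · have h1 := (hC τ hτ.1 hτ.2).2.2.1 t (hτ.1.le.trans ht)
      rw [abs_mul, abs_of_pos (inv_pos.mpr hτ.1), inv_mul_le_iff₀ hτ.1, mul_one, abs_le]
      constructor <;> linarith [h1.1, h1.2.1, h1.2.2, hτ.1]
    · intro τ hτ
      funext t
      have h1 : DifferentiableAt ℝ (phX τ δ) t :=
        (hsm τ hτ).contDiffAt.differentiableAt (by simp)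
      exact ((h1.hasDerivAt.sub (hasDerivAt_id t)).const_mul τ⁻¹).deriv
  have bw' : Bd (PP δ) AA 2 (fun τ x => τ⁻¹ * ww δ τ x) := radial_bd hA hAK hAt v0
  have bD : Bd (PP δ) AA 1 (fun τ x => τ⁻¹ * (deriv (phX τ δ) (Real.log ‖x‖) - 1)) :=
    radial_bd hA hAK hAt v1
  have bw : Bd (PP δ) AA 2 (fun τ x => ww δ τ x) := by
    have h1 : Bd (PP δ) AA 2 (fun τ _ => τ) :=
      Bd.const (c := fun τ => τ) ⟨δ / 4, fun τ hτ => by rw [abs_of_pos hτ.1]; exact hτ.2⟩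
    refine Bd.congr hA ?_ (Bd.mul hA h1 bw')
    intro τ hτ x hx
    change ww δ τ x = τ * (τ⁻¹ * ww δ τ x)
    rw [mul_inv_cancel_left₀ hτ.1.ne']
  have seg : ∀ τ, PP δ τ → ∀ x ∈ AA τ, ∀ θ : ℝ, 0 ≤ θ → θ ≤ 1 → (θ * ww δ τ x, x) ∈ KK := by
    intro τ hτ x hx θ hθ0 hθ1
    have hx0 := hne τ hτ x hx
    have hx1 := AA_one hτ.1 hx
    have hl := AA_log hτ.1 hx
    have h1 := (hC τ hτ.1 hτ.2).2.2.1 (Real.log ‖x‖) (hτ.1.le.trans hl.le)
    have h2 : ww δ τ x ≤ 0 := by unfold ww; linarith [h1.2.1]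
    have h3 : -τ ≤ ww δ τ x := by unfold ww; linarith [h1.2.2]
    have h4 : τ ≤ 1 := by linarith [hτ.2]
    have h5 : ww δ τ x ≤ θ * ww δ τ x := by nlinarith
    refine ⟨⟨⟨?_, ?_⟩, ?_⟩, ?_⟩
    · change -1 ≤ θ * ww δ τ x
      linarith
    · change θ * ww δ τ x ≤ 0
      exact mul_nonpos_of_nonneg_of_nonpos hθ0 h2
    · rw [mem_closedBall_zero_iff]
      exact hx.2.le
    · change 1 ≤ ‖Real.exp (θ * ww δ τ x) • x‖
      rw [norm_smul, Real.norm_eq_abs, abs_of_pos (Real.exp_pos _)]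
      have h6 : Real.exp (ww δ τ x) * ‖x‖ = Real.exp (phX τ δ (Real.log ‖x‖)) := by
        unfold ww
        rw [Real.exp_sub, Real.exp_log (by linarith)]
        field_simp
      calc (1 : ℝ) ≤ Real.exp (phX τ δ (Real.log ‖x‖)) := Real.one_le_exp h1.1
        _ = Real.exp (ww δ τ x) * ‖x‖ := h6.symm
        _ ≤ Real.exp (θ * ww δ τ x) * ‖x‖ :=
          mul_le_mul_of_nonneg_right (Real.exp_le_exp.mpr h5) (norm_nonneg _)
  have seg1 : ∀ τ, PP δ τ → ∀ x ∈ AA τ, (ww δ τ x, x) ∈ KK := fun τ hτ x hx => by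
    have := seg τ hτ x hx 1 zero_le_one le_rfl
    rwa [one_mul] at this
  have bdf : ∀ f : E3 → ℝ, ContDiffOn ℝ ∞ f (Outside δ₀) →
      Bd (PP δ) AA 2 (fun τ x => τ⁻¹ * (HH f (ww δ τ x, x) - HH f (0, x))) := fun f hf =>
    diff_bd hA hP (isOpen_WW δ₀) isCompact_KK (KK_sub hδ₀) seg bw bw' (HH_smooth hf)
  -- the metric
  have hG : ∀ i j, ∃ D : ℝ, ∀ τ, PP δ τ → ∀ x ∈ AA τ,
      |colG τ δ g x i j - g x i j| ≤ D * τ ∧
      (∀ m, |pd m (fun y => colG τ δ g y i j - g y i j) x| ≤ D * τ) ∧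
      ∀ m n, |pd m (pd n (fun y => colG τ δ g y i j - g y i j)) x| ≤ D * τ := by
    intro i j
    refine extract2 hA hP (u := fun τ y => colG τ δ g y i j - g y i j)
      (Bd.congr hA ?_ (bdf (fun x => g x i j) (hg.smooth i j)))
    intro τ hτ x hx
    change τ⁻¹ * (colG τ δ g x i j - g x i j) = τ⁻¹ * (HH (fun x => g x i j) (ww δ τ x, x)
      - HH (fun x => g x i j) (0, x))
    rw [HH_ww _ (hne τ hτ x hx), HH_zero]
    unfold colG
    rw [if_pos (AA_one hτ.1 hx).le]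
    rfl
  have hH : ∀ i j, ∃ D : ℝ, ∀ τ, PP δ τ → ∀ x ∈ AA τ,
      |colH τ δ k x i j - k x i j| ≤ D * τ ∧
      ∀ m, |pd m (fun y => colH τ δ k y i j - k y i j) x| ≤ D * τ := by
    intro i j
    refine extract1 hA hP (u := fun τ y => colH τ δ k y i j - k y i j)
      (Bd.congr hA ?_ (Bd.add hA (Bd.mul hA bD (comp_bd hA (isOpen_WW δ₀) isCompact_KK
        (KK_sub hδ₀) seg1 bw.pred (HH_smooth (hk.smooth i j))))
        (bdf (fun x => k x i j) (hk.smooth i j)).pred))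
    intro τ hτ x hx
    change τ⁻¹ * (colH τ δ k x i j - k x i j) = τ⁻¹ * (deriv (phX τ δ) (Real.log ‖x‖) - 1) *
      HH (fun x => k x i j) (ww δ τ x, x) + τ⁻¹ * (HH (fun x => k x i j) (ww δ τ x, x)
        - HH (fun x => k x i j) (0, x))
    rw [HH_ww _ (hne τ hτ x hx), HH_zero]
    unfold colH
    rw [if_pos (AA_one hτ.1 hx).le]
    change τ⁻¹ * (deriv (phX τ δ) (Real.log ‖x‖) * facX τ δ x ^ 2 * k (facX τ δ x • x) i j
      - k x i j) = _
    ring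
  choose D hD using hG
  choose E hE using hH
  have hsum : ∀ i j, |D i j| + |E i j| ≤ ∑ i, ∑ j, (|D i j| + |E i j|) := by
    intro i j
    have h1 : ∀ i j, 0 ≤ |D i j| + |E i j| := fun i j => add_nonneg (abs_nonneg _) (abs_nonneg _)
    calc |D i j| + |E i j| ≤ ∑ j, (|D i j| + |E i j|) :=
          Finset.single_le_sum (f := fun j => |D i j| + |E i j|) (fun _ _ => h1 _ _)
            (Finset.mem_univ j)
      _ ≤ ∑ i, ∑ j, (|D i j| + |E i j|) :=
          Finset.single_le_sum (f := fun i => ∑ j, (|D i j| + |E i j|))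
            (fun _ _ => Finset.sum_nonneg fun _ _ => h1 _ _) (Finset.mem_univ i)
  have hS : 0 ≤ ∑ i, ∑ j, (|D i j| + |E i j|) :=
    Finset.sum_nonneg fun _ _ => Finset.sum_nonneg fun _ _ => add_nonneg (abs_nonneg _)
      (abs_nonneg _)
  refine ⟨1 + ∑ i, ∑ j, (|D i j| + |E i j|), by linarith, fun τ hτ0 hτ1 x hx1 hx2 i j => ?_⟩
  have hx : x ∈ AA τ := ⟨hx1, by linarith⟩
  obtain ⟨g1, g2, g3⟩ := hD i j τ ⟨hτ0, hτ1⟩ x hx
  obtain ⟨k1, k2⟩ := hE i j τ ⟨hτ0, hτ1⟩ x hx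
  have hDle : D i j * τ ≤ (1 + ∑ i, ∑ j, (|D i j| + |E i j|)) * τ := by
    refine mul_le_mul_of_nonneg_right ?_ hτ0.le
    linarith [hsum i j, le_abs_self (D i j), abs_nonneg (E i j)]
  have hEle : E i j * τ ≤ (1 + ∑ i, ∑ j, (|D i j| + |E i j|)) * τ := by
    refine mul_le_mul_of_nonneg_right ?_ hτ0.le
    linarith [hsum i j, le_abs_self (E i j), abs_nonneg (D i j)]
  exact ⟨g1.trans hDle, fun m => (g2 m).trans hDle, fun m n => (g3 m n).trans hDle,
    k1.trans hEle, fun m => (k2 m).trans hEle⟩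

end Pool.Agent.PFlow


end

section

/-!
# Module XEXI1: existence of a setup with a cut in the exterior case
-/

set_option autoImplicit false

open MeasureTheory Filter Topology
open scoped ContDiff ENNReal

namespace Pool.Agent.PFlow

open Pool.Agent.PenroseSph

namespace XEXI1aux

lemma sME_tendsto {ε γ : ℝ} (hε : ε < 2) : Tendsto (fun R : ℝ => sME ε γ R) atTop atTop := by
  unfold sME
  have h1 : Tendsto (fun R : ℝ => R / 2) atTop atTop :=
    tendsto_id.atTop_div_const (by norm_num)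
  have h2 : Tendsto (fun R : ℝ => (2 - ε) * Real.log (R / 2)) atTop atTop :=
    (Real.tendsto_log_atTop.comp h1).const_mul_atTop (by linarith)
  exact tendsto_atTop_add_const_right _ (-γ) h2

lemma lam_pos {ε : ℝ} (hε : 0 < ε) (hε2 : ε ≤ 1 / 2) : 0 < lam ε / 2 - 1 / (2 - ε) := by
  unfold lam
  have h1 : 0 < 2 - ε := by linarith
  have h2 : (4 - ε) / (ε * (2 - ε)) / 2 - 1 / (2 - ε) = (4 - 3 * ε) / (2 * ε * (2 - ε)) := by
    field_simp
    ring
  rw [h2]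
  apply div_pos
  · linarith
  · positivity

lemma err_tendsto {f : ℝ → ℝ} (hf : Tendsto f atTop atTop) {a : ℝ} (ha : 0 < a) (K s : ℝ) :
    Tendsto (fun R : ℝ => Real.exp K * Real.exp (-(a * (f R - 2 - s)))) atTop (𝓝 0) := by
  have h1 : Tendsto (fun R : ℝ => f R - 2 - s) atTop atTop := by
    have := tendsto_atTop_add_const_right atTop (-2 - s) hf
    refine this.congr fun R => ?_
    ring
  have h2 : Tendsto (fun R : ℝ => a * (f R - 2 - s)) atTop atTop := h1.const_mul_atTop ha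
  have h3 := (Real.tendsto_exp_neg_atTop_nhds_zero.comp h2).const_mul (Real.exp K)
  rw [mul_zero] at h3
  exact h3

/-- The determinant of a matrix with bounded entries. -/
lemma det_le {B : Bil} {K : ℝ} (hK : 0 ≤ K) (hB : ∀ i j, |B i j| ≤ K) :
    B.det ≤ 6 * K ^ 3 := by
  have h3 : ∀ a b c : ℝ, |a| ≤ K → |b| ≤ K → |c| ≤ K → |a * b * c| ≤ K ^ 3 := by
    intro a b c ha hb hc
    rw [abs_mul, abs_mul]
    calc |a| * |b| * |c| ≤ K * K * K :=
        mul_le_mul (mul_le_mul ha hb (abs_nonneg _) hK) hc (abs_nonneg _) (mul_nonneg hK hK)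
      _ = K ^ 3 := by ring
  rw [Matrix.det_fin_three]
  have e1 := abs_le.mp (h3 _ _ _ (hB 0 0) (hB 1 1) (hB 2 2))
  have e2 := abs_le.mp (h3 _ _ _ (hB 0 0) (hB 1 2) (hB 2 1))
  have e3 := abs_le.mp (h3 _ _ _ (hB 0 1) (hB 1 0) (hB 2 2))
  have e4 := abs_le.mp (h3 _ _ _ (hB 0 1) (hB 1 2) (hB 2 0))
  have e5 := abs_le.mp (h3 _ _ _ (hB 0 2) (hB 1 0) (hB 2 1))
  have e6 := abs_le.mp (h3 _ _ _ (hB 0 2) (hB 1 1) (hB 2 0))
  linarith [e1.1, e1.2, e2.1, e2.2, e3.1, e3.2, e4.1, e4.2, e5.1, e5.2, e6.1, e6.2]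

/-- The volume density of the modified metric is bounded. -/
lemma vol_le {g k : TensorField} {C l τ κ : ℝ} {g' h' : TensorField} {e : E3 → ℝ} (hC : 0 < C)
    (hM : ModifiedX g k C l τ κ g' h' e) {x : E3} (hx : 1 ≤ ‖x‖) :
    volDen g' x ≤ Real.sqrt (6 * (1 + C) ^ 3) := by
  apply Real.sqrt_le_sqrt
  apply det_le (by linarith)
  intro i j
  rcases lt_or_ge ‖x‖ 2 with h2 | h2
  · exact (hM.bounds x (by linarith) h2 i j).1.trans (by linarith)
  · have h1 := (hM.decay x h2 i j).1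
    have h3 : C / ‖x‖ ≤ C := by
      rw [div_le_iff₀ (by linarith)]
      nlinarith
    have h4 : |(1 : Bil) i j| ≤ 1 := by
      rw [Matrix.one_apply]
      split_ifs <;> simp
    have h5 : g' x i j = (1 : Bil) i j + (g' x i j - (1 : Bil) i j) := by ring
    rw [h5]
    exact (abs_add_le _ _).trans (by linarith)

lemma vol_int {g k : TensorField} {C l τ κ : ℝ} {g' h' : TensorField} {e : E3 → ℝ} (hC : 0 < C)
    (hM : ModifiedX g k C l τ κ g' h' e) (r : ℝ) :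
    ∫ x in cAnn 1 r, volDen g' x ≤
      Real.sqrt (6 * (1 + C) ^ 3) * (volume (Metric.closedBall (0 : E3) r)).toReal := by
  have hsub : cAnn 1 r ⊆ Metric.closedBall (0 : E3) r := by
    intro x hx
    rw [mem_closedBall_zero_iff]
    exact hx.2
  have hfin : volume (Metric.closedBall (0 : E3) r) < ⊤ := measure_closedBall_lt_top
  have hfin2 : volume (cAnn 1 r) < ⊤ := (measure_mono hsub).trans_lt hfin
  have h1 := norm_setIntegral_le_of_norm_le_const (μ := volume) (f := volDen g') hfin2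
    (C := Real.sqrt (6 * (1 + C) ^ 3)) (fun x hx => by
      rw [Real.norm_eq_abs, abs_of_nonneg (show 0 ≤ volDen g' x from Real.sqrt_nonneg _)]
      exact vol_le hC hM hx.1)
  refine (le_abs_self _).trans (h1.trans ?_)
  apply mul_le_mul_of_nonneg_left _ (Real.sqrt_nonneg _)
  exact ENNReal.toReal_mono hfin.ne (measure_mono hsub)

end XEXI1aux

open XEXI1aux in
/-- XEXI1: for given data, `ε` and small error, existence of a setup with a cut. -/
theorem XEXI1 (_hXAFD : Stmt_XAFD) (hXMOD : Stmt_XMOD) (_hXMODM : Stmt_XMODM)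
    (hXLOC : Stmt_XLOC) (hXLOCU : Stmt_XLOCU) (hPX : Stmt_PX) (hXABS : Stmt_XABS)
    (hXDEFE : Stmt_XDEFE) (hXCOLE : Stmt_XCOLE) (_hXSETW : Stmt_XSETW) : Stmt_XEXI1 := by
  intro g k hsm hdec hPS hE htr
  obtain ⟨C, lm, hC0, hlm, hdecay, hmod⟩ := hXMOD g k hsm hdec hPS hE htr
  obtain ⟨r₀, hr₀, hU⟩ := hXLOCU C hC0
  obtain ⟨r, hr⟩ : ∃ r, r = max r₀ 3 := ⟨_, rfl⟩
  have hrr₀ : r₀ ≤ r := by rw [hr]; exact le_max_left _ _
  have hr3 : 3 ≤ r := by rw [hr]; exact le_max_right _ _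
  obtain ⟨V, hV⟩ : ∃ V, V = Real.sqrt (6 * (1 + C) ^ 3) *
      (volume (Metric.closedBall (0 : E3) r)).toReal + 1 := ⟨_, rfl⟩
  have hV0 : 0 < V := by
    rw [hV]
    have : 0 ≤ Real.sqrt (6 * (1 + C) ^ 3) *
      (volume (Metric.closedBall (0 : E3) r)).toReal :=
      mul_nonneg (Real.sqrt_nonneg _) ENNReal.toReal_nonneg
    linarith
  refine ⟨C, r, V, hC0, by linarith, hV0, fun ε hε hε2 => ?_⟩
  obtain ⟨c, γ, τ₁, hc0, hγ, hτ₁, hτ₁', hloc⟩ := hXLOC ε C hε hε2 hC0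
  obtain ⟨RU, hRU⟩ := hU ε hε hε2
  obtain ⟨B, hB, habs⟩ := hXABS ⟨ε, C, c, γ⟩
  obtain ⟨Bc, hBc, hcol⟩ := hXCOLE ⟨ε, C, c, γ⟩
  refine ⟨⟨ε, C, c, γ⟩, B, max 8 (max lm (r + 1)), rfl, hB, le_max_left _ _, ?_,
    fun l σ L hl hσ hL => ?_⟩
  · exact lt_of_lt_of_le (by linarith : r < r + 1)
      ((le_max_right lm (r + 1)).trans (le_max_right 8 _))
  have hl8 : 8 ≤ l := (le_max_left _ _).trans hl
  have hl' := (le_max_right _ _).trans hl
  have hllm : lm ≤ l := (le_max_left _ _).trans hl'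
  have hl0 : 0 < l := by linarith
  obtain ⟨RL, hRL16, hRL⟩ := hloc l hl8
  obtain ⟨B', hB', hdef⟩ := hXDEFE ⟨ε, C, c, γ⟩ B g l
  -- the small numbers
  obtain ⟨t, ht⟩ : ∃ t, t = min σ 1 := ⟨_, rfl⟩
  have ht0 : 0 < t := by rw [ht]; exact lt_min hσ one_pos
  have htσ : t ≤ σ := by rw [ht]; exact min_le_left _ _
  have ht1 : t ≤ 1 := by rw [ht]; exact min_le_right _ _
  have hq1 : 1 ≤ (1 + ε) / ε := by
    rw [le_div_iff₀ hε]
    linarith
  have hσ'0 : 0 < (t / B') ^ ((1 + ε) / ε) := Real.rpow_pos_of_pos (div_pos ht0 hB') _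
  obtain ⟨a, ha⟩ : ∃ a, a = t / (2 * Bc) := ⟨_, rfl⟩
  have ha0 : 0 < a := by rw [ha]; positivity
  obtain ⟨κ, hκ⟩ : ∃ κ, κ = min 1 a := ⟨_, rfl⟩
  have hκ0 : 0 < κ := by rw [hκ]; exact lt_min one_pos ha0
  have hκ1 : κ ≤ 1 := by rw [hκ]; exact min_le_left _ _
  have hκa : κ ≤ a := by rw [hκ]; exact min_le_right _ _
  obtain ⟨τ₂, hτ₂⟩ : ∃ τ₂, τ₂ = min τ₁ (min (σ / C) (a ^ 2)) := ⟨_, rfl⟩
  have hτ₂0 : 0 < τ₂ := by
    rw [hτ₂]
    exact lt_min hτ₁ (lt_min (div_pos hσ hC0) (by positivity))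
  obtain ⟨τ, g', h', e, hτ0, hττ₂, hM, hint⟩ := hmod l κ ((1 + ε) / ε)
    ((t / B') ^ ((1 + ε) / ε)) τ₂ hllm hκ0 hq1 hσ'0 hτ₂0
  have hττ₁ : τ ≤ τ₁ := hττ₂.trans (by rw [hτ₂]; exact min_le_left _ _)
  have hτσ : τ ≤ σ / C := hττ₂.trans (by
    rw [hτ₂]; exact (min_le_right _ _).trans (min_le_left _ _))
  have hτa : τ ≤ a ^ 2 := hττ₂.trans (by
    rw [hτ₂]; exact (min_le_right _ _).trans (min_le_right _ _))
  have hsqτ : Real.sqrt τ ≤ a := by
    rw [Real.sqrt_le_left ha0.le]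
    exact hτa
  -- the choice of `R`
  have hsM := sME_tendsto (ε := ε) (γ := γ) (by linarith)
  have hlam := lam_pos hε hε2
  have e8 := (err_tendsto hsM hlam (s2E ε γ l / (2 - ε)) (s2E ε γ l)).eventually_le_const ht0
  have e6 := hsM.eventually_gt_atTop (s2E ε γ l + L + 1)
  have e7 := hsM.eventually_ge_atTop (s2E ε γ l + 1 + 2 * γ + 2)
  obtain ⟨R, h1, h2, h3, h6, h7, h8⟩ := ((eventually_ge_atTop RL).and
    ((eventually_ge_atTop RU).and ((eventually_ge_atTop (kE ε γ ^ 4 * l)).and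
    (e6.and (e7.and e8))))).exists
  have hR16 : 16 * l ≤ R := hRL16.trans h1
  have hR0 : 0 < R := by linarith
  obtain ⟨u, G, M, hS⟩ := hPX ε R g' h' hε (by linarith) (by linarith) hM.metric hM.tensor
    hM.mirror (by
      intro x hx
      exact ⟨hM.flat x (by linarith), hM.supp x (by linarith)⟩)
  have hbar : ∀ x : E3, 1 ≤ ‖x‖ → |barB ε g' h' x - bE ε ‖x‖| ≤ C / (1 + ‖x‖ ^ 2) :=
    hM.barrier ε hε (by linarith)
  have hL' : LocatedX ε c γ τ l R u :=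
    hRL τ R hτ0 hττ₁ h1 g' h' u G M hM.metric hbar hS
  have hfin := hRU R h2 g' h' u G M hM.metric hbar hS
  obtain ⟨δ, hδ, hgδ, hkδ, -⟩ := hsm
  have hSet : SetupX ⟨ε, C, c, γ⟩ ⟨l, R, τ, κ, g, k, g', h', e, u, G, M⟩ :=
    { eps_pos := hε
      eps_le := hε2
      C_pos := hC0
      c_pos := hc0
      gam_ge := hγ
      l_ge := hl8
      R_ge := h3
      tau_pos := hτ0
      tau_le := hττ₁.trans hτ₁'
      kap_pos := hκ0
      kap_le := hκ1
      smooth0 := ⟨δ, hδ, hgδ, hkδ⟩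
      hdecay := hdecay
      modified := hM
      sol := hS
      located := hL' }
  have hA : AbsOfX ⟨ε, C, c, γ⟩ ⟨l, R, τ, κ, g, k, g', h', e, u, G, M⟩ B := habs _ hSet
  obtain ⟨-, hN0, hN⟩ := hdef _ hSet hA rfl rfl
  have hNt : DatX.Nd ⟨l, R, τ, κ, g, k, g', h', e, u, G, M⟩ ⟨ε, C, c, γ⟩ ≤ t := by
    refine hN.trans ?_
    have hi0 : 0 ≤ ∫ x in cAnn 1 l, e x ^ ((1 + ε) / ε) :=
      integral_nonneg fun x => Real.rpow_nonneg (hM.defect_nonneg x) _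
    have h9 : (∫ x in cAnn 1 l, e x ^ ((1 + ε) / ε)) ^ (ε / (1 + ε)) ≤
        ((t / B') ^ ((1 + ε) / ε)) ^ (ε / (1 + ε)) :=
      Real.rpow_le_rpow hi0 hint (by positivity)
    have h10 : ((t / B') ^ ((1 + ε) / ε)) ^ (ε / (1 + ε)) = t / B' := by
      rw [← Real.rpow_mul (by positivity)]
      have : (1 + ε) / ε * (ε / (1 + ε)) = 1 := by
        have : 1 + ε ≠ 0 := by positivity
        field_simp
      rw [this, Real.rpow_one]
    rw [h10] at h9
    calc B' * (∫ x in cAnn 1 l, e x ^ ((1 + ε) / ε)) ^ (ε / (1 + ε))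
        ≤ B' * (t / B') := mul_le_mul_of_nonneg_left h9 hB'.le
      _ = t := by field_simp
  have hCt : DatX.Cl ⟨l, R, τ, κ, g, k, g', h', e, u, G, M⟩ ⟨ε, C, c, γ⟩ ≤ t := by
    obtain ⟨-, -, hc⟩ := hcol _ hSet
    refine hc.trans ?_
    calc Bc * (κ + Real.sqrt τ) ≤ Bc * (a + a) :=
        mul_le_mul_of_nonneg_left (add_le_add hκa hsqτ) hBc.le
      _ = t := by
        rw [ha]
        field_simp
        ring
  have her : DatX.er ⟨l, R, τ, κ, g, k, g', h', e, u, G, M⟩ ⟨ε, C, c, γ⟩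
      (sME ε γ R - 2) ≤ t := h8
  refine ⟨⟨l, R, τ, κ, g, k, g', h', e, u, G, M⟩, sME ε γ R - 2, rfl, rfl, rfl, hSet,
    hA, ⟨?_, ?_, her.trans ht1, hNt.trans ht1, hCt.trans ht1⟩, hNt.trans htσ, hCt.trans htσ,
    her.trans htσ, ?_, h6, ?_, ?_⟩
  · change s2E ε γ l + 1 + 2 * γ ≤ sME ε γ R - 2
    linarith
  · change sME ε γ R - 2 + 1 < sME ε γ R
    linarith
  · change C * τ ≤ σ
    rw [le_div_iff₀ hC0] at hτσ
    linarith
  · intro x hx hrx
    have h9 := hfin x (hrr₀.trans hrx) hx.2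
    change 1 < wOf ε u x + ε / 4
    linarith
  · change ∫ x in cAnn 1 r, volDen g' x ≤ V
    rw [hV]
    linarith [vol_int hC0 hM r]

end Pool.Agent.PFlow


end

section

/-!
# XHAT: the change of sign in the exterior region
-/

open MeasureTheory Filter Topology
open scoped ContDiff ENNReal

namespace Pool.Agent.PFlow

open Pool.Agent.PenroseSph

namespace XHATm

lemma isOpen_Outside (δ : ℝ) : IsOpen (Outside δ) := isOpen_lt continuous_const continuous_norm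

lemma mem_Outside {δ : ℝ} (hδ : 0 < δ) {x : E3} (hx : 1 ≤ ‖x‖) : x ∈ Outside δ := by
  show 1 - δ < ‖x‖
  linarith

lemma nsq_le (hHATA : Stmt_HATA) {g k : TensorField} {δ : ℝ} (hδ : 0 < δ)
    (hg : MetricOn (Outside δ) g) (hh : TensorOn (Outside δ) k) (hp : PlaneSignX g k) {x : E3}
    (hx : 1 ≤ ‖x‖) : nsq g x (k x) ≤ 3 * trg g x (k x) ^ 2 := by
  have hxU := mem_Outside hδ hx
  rcases hp x hx with h1 | h1
  · exact (hHATA g x (k x) (hg.posDef x hxU) (hh.symm x hxU) h1).2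
  · have h2 := (hHATA g x ((-1 : ℝ) • k x) (hg.posDef x hxU) ?_ ?_).2
    · rw [HATC.nsq_smul, HATC.trg_smul] at h2
      nlinarith
    · have := hh.symm x hxU
      unfold Matrix.IsSymm at this ⊢
      rw [Matrix.transpose_smul, this]
    · intro v hv
      rw [HATC.ev_smul, HATC.trg_smul]
      have := h1 v hv
      linarith

lemma real_ineq {η a : ℝ} (hη : 0 < η) (ha : 0 ≤ a) :
    3 * a * (1 - a / Real.sqrt (a ^ 2 + η ^ 2)) ≤ η := by
  have hd : 0 < a ^ 2 + η ^ 2 := by positivity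
  set S := Real.sqrt (a ^ 2 + η ^ 2) with hS
  have hS0 : 0 < S := Real.sqrt_pos.mpr hd
  have hSS : S ^ 2 = a ^ 2 + η ^ 2 := Real.sq_sqrt hd.le
  have hSη : η ≤ S := by
    apply Real.le_sqrt_of_sq_le
    nlinarith [sq_nonneg a]
  have hSa : a ≤ S := by
    apply Real.le_sqrt_of_sq_le
    nlinarith [sq_nonneg η]
  have e : 3 * a * (1 - a / S) = 3 * a * (S - a) / S := by
    field_simp
  rw [e, div_le_iff₀ hS0]
  have h1 : (S - a) * (S + a) = η ^ 2 := by nlinarith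
  have h2 : 3 * a * η ≤ S * (S + a) := by nlinarith [sq_nonneg (a - η), mul_nonneg ha (sub_nonneg.2 hSη)]
  have h3 : 0 < S + a := by linarith
  have h4 : 3 * a * (S - a) * (S + a) ≤ η * S * (S + a) := by
    have h5 : 3 * a * (S - a) * (S + a) = (3 * a * η) * η := by
      rw [mul_assoc, h1]
      ring
    rw [h5]
    nlinarith
  exact le_of_mul_le_mul_right h4 h3

end XHATm

open XHATm in
/-- XHAT: the change of sign in the exterior region. -/
theorem XHAT (hHATA : Stmt_HATA) (_hHATB : Stmt_HATB) (_hHATC : Stmt_HATC)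
    (hJPROD : Stmt_JPROD) : Stmt_XHAT := by
  intro g k δ hδ hg hk hp η hη
  have hUo : IsOpen (Outside δ) := isOpen_Outside δ
  have htr := HATC.trg_smooth hg hk
  refine ⟨⟨?_, ?_⟩, ?_, ?_, ?_, ?_⟩
  · intro i j
    exact ((HATBaux.contDiff_hatF hη).comp_contDiffOn htr).mul (hk.smooth i j)
  · intro x hx
    exact (hk.symm x hx).smul _
  · intro x hx v hv
    have hx1 : 1 ≤ ‖x‖ := hx
    have hxU := mem_Outside hδ hx1
    unfold hat
    rw [HATBaux.ev_smul, HATBaux.trg_smul]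
    rcases hp x hx1 with h1 | h1
    · have h2 := (hHATA g x (k x) (hg.posDef x hxU) (hk.symm x hxU) h1).1
      exact mul_le_mul_of_nonneg_left (h1 v hv) (HATBaux.hatF_nonneg h2)
    · have h3 := (hHATA g x ((-1 : ℝ) • k x) (hg.posDef x hxU) ((hk.symm x hxU).smul _) (by
        intro w hw
        rw [HATBaux.ev_smul, HATBaux.trg_smul]
        have := h1 w hw
        linarith)).1
      rw [HATBaux.trg_smul] at h3
      exact mul_le_mul_of_nonpos_left (h1 v hv) (HATBaux.hatF_nonpos (by linarith))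
  · intro x i j
    unfold hat
    rw [Matrix.smul_apply, smul_eq_mul, abs_mul]
    have h1 := HATBaux.abs_hatF_le η (trg g x (k x))
    nlinarith [abs_nonneg (k x i j)]
  · intro x hx
    have hxU : x ∈ Outside δ := mem_Outside hδ hx.le
    have hf : ContDiffOn ℝ ∞ (fun y => hatF η (trg g y (k y))) (Outside δ) :=
      (HATC.hatF_smooth hη).comp_contDiffOn htr
    have hJ := (hJPROD (Outside δ) g k (fun y => hatF η (trg g y (k y))) hUo hg hk hf x hxU).2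
    have hdt : DifferentiableAt ℝ (fun y => trg g y (k y)) x :=
      (htr.contDiffAt (hUo.mem_nhds hxU)).differentiableAt (by simp)
    rw [HATC.grad_comp hη hdt, HATC.len_smul g x _ (by positivity)] at hJ
    have hn := XHATm.nsq_le hHATA hδ hg hk hp hx.le
    have hn0 : 0 ≤ nsq g x (k x) := (KTN_thm g x (hg.posDef x hxU) 0).2.2.2.2.2.2.1 (k x)
    set t := trg g x (k x) with ht
    set S := Real.sqrt (t ^ 2 + η ^ 2) with hS
    have hS0 : 0 < S := HATC.sq_pos hη t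
    set L := len g x (grad (fun y => trg g y (k y)) x) with hL
    have hL0 : 0 ≤ L := Real.sqrt_nonneg _
    have hjl : 0 ≤ jlen g k x := Real.sqrt_nonneg _
    have hsq : Real.sqrt (nsq g x (k x) + t ^ 2) ≤ 2 * |t| := by
      have e : 2 * |t| = Real.sqrt ((2 * |t|) ^ 2) := by
        rw [Real.sqrt_sq (by positivity)]
      rw [e]
      apply Real.sqrt_le_sqrt
      rw [mul_pow, sq_abs]
      linarith
    have hJ2 : jlen g (hat η g k) x ≤ jlen g k x + 2 * η ^ 2 * |t| * L / S ^ 3 := by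
      have e1 : jlen g (hat η g k) x ≤ |hatF η t| * jlen g k x
          + Real.sqrt (nsq g x (k x) + t ^ 2) * (η ^ 2 / S ^ 3 * L) := hJ
      have e2 : |hatF η t| * jlen g k x ≤ 1 * jlen g k x :=
        mul_le_mul_of_nonneg_right (HATC.abs_hatF_le hη t) hjl
      have e3 : Real.sqrt (nsq g x (k x) + t ^ 2) * (η ^ 2 / S ^ 3 * L)
          ≤ 2 * |t| * (η ^ 2 / S ^ 3 * L) :=
        mul_le_mul_of_nonneg_right hsq (by positivity)
      have e4 : 2 * |t| * (η ^ 2 / S ^ 3 * L) = 2 * η ^ 2 * |t| * L / S ^ 3 := by ring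
      linarith
    have hE : eEta η g k x = η ^ 2 / 2 + 2 * η ^ 2 * |t| * L / S ^ 3 := rfl
    constructor
    · unfold surplus
      rw [hE, HATC.energy_eq, HATC.energy_eq]
      have e5 : nsq g x (hat η g k x) = hatF η t ^ 2 * nsq g x (k x) := HATC.nsq_smul g x _ _
      have e6 : trg g x (hat η g k x) = hatF η t * t := HATC.trg_smul g x _ _
      rw [e5, e6, ← ht]
      have e7 := HATC.hatF_sq hη t
      have e8 := HATC.hatF_sq_le hη t
      have e9 : 0 ≤ (1 - hatF η t ^ 2) * nsq g x (k x) := mul_nonneg (by linarith) hn0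
      nlinarith
    · rw [hE]
      nlinarith [sq_nonneg η]
  · intro x hx
    have hx1 : 1 ≤ ‖x‖ := hx.ge
    have hxU := mem_Outside hδ hx1
    have hpd := hg.posDef x hxU
    have hx0 : x ≠ 0 := by
      rintro rfl
      rw [norm_zero] at hx
      exact zero_ne_one hx
    have hgr : grad rad x ≠ 0 := RADN.grad_rad_ne hx0
    have hK := KTN_thm g x hpd (grad rad x)
    have hn := XHATm.nsq_le hHATA hδ hg hk hp hx1
    have hl : 0 < lsq g x (grad rad x) := hK.2.1 hgr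
    have hb : (bnn g x (grad rad x) (k x)) ^ 2 ≤ nsq g x (k x) := by
      rw [hK.2.2.2.2.2.2.2 hgr (k x), div_pow, div_le_iff₀ (by positivity)]
      have := hK.2.2.2.2.2.1 (k x)
      linarith [mul_comm (nsq g x (k x)) (lsq g x (grad rad x) ^ 2)]
    set t := trg g x (k x) with ht
    set b := bnn g x (grad rad x) (k x) with hbd
    have hP : sphereTr g k x = t - b := rfl
    have hPh : sphereTr g (hat η g k) x = hatF η t * (t - b) := by
      have e1 : trg g x (hat η g k x) = hatF η t * t := HATC.trg_smul g x _ _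
      have e2 : bnn g x (grad rad x) (hat η g k x) = hatF η t * b := by
        unfold bnn
        exact HATC.ev_smul _ _ _ _
      show trg g x (hat η g k x) - bnn g x (grad rad x) (hat η g k x) = _
      rw [e1, e2]
      ring
    have hb2 : |b| ≤ 2 * |t| := by
      apply abs_le_of_sq_le_sq' _ (by positivity) |> abs_le.2
      rw [mul_pow, sq_abs]
      nlinarith [sq_nonneg t]
    have hP3 : |t - b| ≤ 3 * |t| := by
      have := abs_sub t b
      linarith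
    have hsign : hatF η t * (t - b) = |t| / Real.sqrt (|t| ^ 2 + η ^ 2) * |t - b| := by
      have hev := ABSFm.ev_nrm hpd hgr
      unfold hatF
      rw [sq_abs]
      rcases hp x hx1 with h1 | h1
      · have h2 := (hHATA g x (k x) hpd (hk.symm x hxU) h1).1
        have h3 : b ≤ t := h1 _ hev
        rw [abs_of_nonneg h2, abs_of_nonneg (sub_nonneg.2 h3)]
      · have h3 := (hHATA g x ((-1 : ℝ) • k x) hpd ((hk.symm x hxU).smul _) (by
          intro w hw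
          rw [HATBaux.ev_smul, HATBaux.trg_smul]
          have := h1 w hw
          linarith)).1
        rw [HATBaux.trg_smul] at h3
        have h4 : t ≤ b := h1 _ hev
        rw [abs_of_nonpos (show t ≤ 0 by linarith), abs_of_nonpos (sub_nonpos.2 h4)]
        ring
    rw [hP, hPh, hsign]
    have hr := real_ineq hη (abs_nonneg t)
    have hq : 0 ≤ 1 - |t| / Real.sqrt (|t| ^ 2 + η ^ 2) := by
      rw [sub_nonneg]
      apply div_le_one_of_le₀ _ (Real.sqrt_nonneg _)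
      apply Real.le_sqrt_of_sq_le
      nlinarith [sq_nonneg η]
    have h5 : |t - b| * (1 - |t| / Real.sqrt (|t| ^ 2 + η ^ 2))
        ≤ 3 * |t| * (1 - |t| / Real.sqrt (|t| ^ 2 + η ^ 2)) :=
      mul_le_mul_of_nonneg_right hP3 hq
    linarith

end Pool.Agent.PFlow


end

section

/-!
# Exterior regions: the leading parts of the derivatives of the modified data in the collar
-/

open MeasureTheory Filter Topology
open scoped ContDiff ENNReal

namespace Pool.Agent.PFlow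

open Pool.Agent.PenroseSph

namespace XLEADaux

/-- The domain of the functions `P(s, x)`. -/
def UU (δ₀ : ℝ) : Set (ℝ × E3) := {z | z.2 ≠ 0 ∧ 1 - δ₀ < Real.exp z.1}

/-- A compact part of the domain. -/
def KK : Set (ℝ × E3) := Set.Icc (0 : ℝ) (1 / 8) ×ˢ {x : E3 | 1 ≤ ‖x‖ ∧ ‖x‖ ≤ 2}

lemma isOpen_UU (δ₀ : ℝ) : IsOpen (UU δ₀) := by
  have h1 : IsOpen {z : ℝ × E3 | z.2 ≠ 0} := isOpen_ne.preimage continuous_snd
  have h2 : IsOpen {z : ℝ × E3 | 1 - δ₀ < Real.exp z.1} :=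
    isOpen_lt continuous_const (Real.continuous_exp.comp continuous_fst)
  exact h1.inter h2

lemma isCompact_KK : IsCompact KK := by
  refine isCompact_Icc.prod ?_
  have h1 : {x : E3 | 1 ≤ ‖x‖ ∧ ‖x‖ ≤ 2} = Metric.closedBall (0 : E3) 2 ∩ {x : E3 | 1 ≤ ‖x‖} := by
    ext x
    simp only [Set.mem_ofPred_eq, Set.mem_inter_iff, Metric.mem_closedBall, dist_zero_right]
    tauto
  rw [h1]
  exact (isCompact_closedBall (0 : E3) 2).inter_right (isClosed_le continuous_const continuous_norm)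

lemma KK_subset {δ₀ : ℝ} (hδ : 0 < δ₀) : KK ⊆ UU δ₀ := by
  rintro ⟨s, x⟩ ⟨hs, hx⟩
  simp only [Set.mem_Icc, Set.mem_ofPred_eq] at hs hx
  refine ⟨?_, ?_⟩
  · intro h0
    simp only at h0
    rw [h0, norm_zero] at hx
    linarith [hx.1]
  · have := Real.add_one_le_exp s
    simp only
    linarith [hs.1]

/-- The derivative in the first variable. -/
noncomputable def dS (P : ℝ × E3 → ℝ) (z : ℝ × E3) : ℝ := fderiv ℝ P z (1, 0)

/-- The derivative in the second variable. -/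
noncomputable def dX (i : Fin 3) (P : ℝ × E3 → ℝ) (z : ℝ × E3) : ℝ :=
  fderiv ℝ P z (0, EuclideanSpace.single i 1)

lemma smooth_dir {U : Set (ℝ × E3)} (hU : IsOpen U) {P : ℝ × E3 → ℝ} (hP : ContDiffOn ℝ ∞ P U)
    (v : ℝ × E3) : ContDiffOn ℝ ∞ (fun z => fderiv ℝ P z v) U := by
  have h1 : ContDiffOn ℝ ∞ (fderiv ℝ P) U := hP.fderiv_of_isOpen hU (by simp)
  exact h1.clm_apply contDiffOn_const

lemma smooth_dS {U : Set (ℝ × E3)} (hU : IsOpen U) {P : ℝ × E3 → ℝ} (hP : ContDiffOn ℝ ∞ P U) :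
    ContDiffOn ℝ ∞ (dS P) U := smooth_dir hU hP _

lemma smooth_dX {U : Set (ℝ × E3)} (hU : IsOpen U) {P : ℝ × E3 → ℝ} (hP : ContDiffOn ℝ ∞ P U)
    (i : Fin 3) : ContDiffOn ℝ ∞ (dX i P) U := smooth_dir hU hP _

/-- The function `x_i / |x|²`. -/
noncomputable def QQ (i : Fin 3) (z : ℝ × E3) : ℝ := z.2 i / ‖z.2‖ ^ 2

lemma smooth_QQ (δ₀ : ℝ) (i : Fin 3) : ContDiffOn ℝ ∞ (QQ i) (UU δ₀) := by
  have h1 : ContDiff ℝ ∞ (fun z : ℝ × E3 => z.2 i) := by fun_prop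
  have h2 : ContDiff ℝ ∞ (fun z : ℝ × E3 => ‖z.2‖ ^ 2) := contDiff_snd.norm_sq ℝ
  refine h1.contDiffOn.div h2.contDiffOn ?_
  intro z hz
  have : ‖z.2‖ ≠ 0 := by simpa using hz.1
  positivity

lemma hasFDerivAt_logNorm {x : E3} (hx : x ≠ 0) :
    HasFDerivAt (fun y : E3 => Real.log ‖y‖) ((‖x‖ ^ 2)⁻¹ • (innerSL ℝ x : E3 →L[ℝ] ℝ)) x := by
  have h1 : HasFDerivAt (fun y : E3 => ‖y‖ ^ 2) (2 • (innerSL ℝ x : E3 →L[ℝ] ℝ)) x :=
    (hasStrictFDerivAt_norm_sq x).hasFDerivAt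
  have hx2 : ‖x‖ ^ 2 ≠ 0 := by
    have : ‖x‖ ≠ 0 := by simpa using hx
    positivity
  have h2 := (h1.log hx2).const_mul (1 / 2 : ℝ)
  have h3 : (fun y : E3 => (1 / 2 : ℝ) * Real.log (‖y‖ ^ 2)) = fun y => Real.log ‖y‖ := by
    funext y
    rw [Real.log_pow]
    push_cast
    ring
  rw [h3] at h2
  refine h2.congr_fderiv ?_
  ext v
  simp only [FunLike.coe_smul, Pi.smul_apply, smul_eq_mul, nsmul_eq_mul]
  simp
  ring

lemma hasFDerivAt_pair {φ : ℝ → ℝ} (hφ : ContDiff ℝ ∞ φ) {x : E3} (hx : x ≠ 0) :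
    HasFDerivAt (fun y : E3 => (φ (Real.log ‖y‖), y))
      ((deriv φ (Real.log ‖x‖) • ((‖x‖ ^ 2)⁻¹ • (innerSL ℝ x : E3 →L[ℝ] ℝ))).prod
        (ContinuousLinearMap.id ℝ E3)) x := by
  have h1 : HasDerivAt φ (deriv φ (Real.log ‖x‖)) (Real.log ‖x‖) :=
    ((hφ.differentiable (by simp)) _).hasDerivAt
  exact (h1.comp_hasFDerivAt x (hasFDerivAt_logNorm hx)).prodMk (hasFDerivAt_id x)

lemma inner_single (x : E3) (i : Fin 3) :
    (innerSL ℝ x : E3 →L[ℝ] ℝ) (EuclideanSpace.single i 1) = x i := by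
  simp [EuclideanSpace.inner_single_right]

lemma hasFDerivAt_comp {U : Set (ℝ × E3)} (hU : IsOpen U) {P : ℝ × E3 → ℝ}
    (hP : ContDiffOn ℝ ∞ P U) {φ : ℝ → ℝ} (hφ : ContDiff ℝ ∞ φ) {x : E3} (hx : x ≠ 0)
    (hz : (φ (Real.log ‖x‖), x) ∈ U) :
    DifferentiableAt ℝ (fun y : E3 => P (φ (Real.log ‖y‖), y)) x ∧
    ∀ i, pd i (fun y : E3 => P (φ (Real.log ‖y‖), y)) x
      = deriv φ (Real.log ‖x‖) * (dS P (φ (Real.log ‖x‖), x) * QQ i (φ (Real.log ‖x‖), x))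
        + dX i P (φ (Real.log ‖x‖), x) := by
  have hd : HasFDerivAt P (fderiv ℝ P (φ (Real.log ‖x‖), x)) (φ (Real.log ‖x‖), x) :=
    ((hP.contDiffAt (hU.mem_nhds hz)).differentiableAt (by simp)).hasFDerivAt
  have hc := HasFDerivAt.comp (g := P) (f := fun y : E3 => (φ (Real.log ‖y‖), y)) x hd
    (hasFDerivAt_pair hφ hx)
  refine ⟨hc.differentiableAt, fun i => ?_⟩
  have he : fderiv ℝ (fun y : E3 => P (φ (Real.log ‖y‖), y)) x = _ := hc.fderiv
  unfold pd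
  rw [he]
  simp only [ContinuousLinearMap.comp_apply, ContinuousLinearMap.prod_apply,
    smul_apply, ContinuousLinearMap.id_apply, inner_single, smul_eq_mul]
  have hs : ((deriv φ (Real.log ‖x‖) * ((‖x‖ ^ 2)⁻¹ * x i), EuclideanSpace.single i 1) : ℝ × E3)
      = (deriv φ (Real.log ‖x‖) * ((‖x‖ ^ 2)⁻¹ * x i)) • ((1 : ℝ), (0 : E3))
        + ((0 : ℝ), (EuclideanSpace.single i 1 : E3)) := by
    ext <;> simp
  rw [hs, map_add, map_smul]
  unfold dS dX QQ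
  simp only [smul_eq_mul]
  ring

lemma bound_KK {δ₀ : ℝ} (hδ : 0 < δ₀) {P : ℝ × E3 → ℝ} (hP : ContDiffOn ℝ ∞ P (UU δ₀)) :
    ∃ B : ℝ, 0 ≤ B ∧ ∀ z ∈ KK, |P z| ≤ B := by
  obtain ⟨B, hB⟩ := isCompact_KK.exists_bound_of_continuousOn (hP.continuousOn.mono (KK_subset hδ))
  refine ⟨|B|, abs_nonneg _, fun z hz => ?_⟩
  have h1 := hB z hz
  rw [Real.norm_eq_abs] at h1
  exact h1.trans (le_abs_self _)

/-- The hypotheses on the profile at a point. -/
structure Prof (φ : ℝ → ℝ) (x : E3) : Prop where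
  smooth : ContDiff ℝ ∞ φ
  norm_gt : 1 < ‖x‖
  norm_le : ‖x‖ ≤ 2
  nonneg : 0 ≤ φ (Real.log ‖x‖)
  le : φ (Real.log ‖x‖) ≤ 1 / 8
  deriv_le : |deriv φ (Real.log ‖x‖)| ≤ 1

lemma Prof.ne {φ : ℝ → ℝ} {x : E3} (h : Prof φ x) : x ≠ 0 := by
  intro h0
  have := h.norm_gt
  rw [h0, norm_zero] at this
  linarith

lemma Prof.mem {φ : ℝ → ℝ} {x : E3} (h : Prof φ x) : (φ (Real.log ‖x‖), x) ∈ KK :=
  ⟨⟨h.nonneg, h.le⟩, h.norm_gt.le, h.norm_le⟩

lemma core {δ₀ : ℝ} (hδ : 0 < δ₀) {P : ℝ × E3 → ℝ} (hP : ContDiffOn ℝ ∞ P (UU δ₀)) :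
    ∃ B : ℝ, 0 ≤ B ∧ ∀ (φ : ℝ → ℝ) (x : E3), Prof φ x → ∀ i,
      |pd i (fun y : E3 => P (φ (Real.log ‖y‖), y)) x| ≤ B ∧
      DifferentiableAt ℝ (fun y : E3 => deriv φ (Real.log ‖y‖) * P (φ (Real.log ‖y‖), y)) x ∧
      |pd i (fun y : E3 => deriv φ (Real.log ‖y‖) * P (φ (Real.log ‖y‖), y)) x
        - deriv (deriv φ) (Real.log ‖x‖) * QQ i (φ (Real.log ‖x‖), x)
          * P (φ (Real.log ‖x‖), x)| ≤ B := by
  have hU := isOpen_UU δ₀
  have hb1 : ∀ i, ∃ B : ℝ, 0 ≤ B ∧ ∀ z ∈ KK, |dS P z * QQ i z| ≤ B := fun i =>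
    bound_KK hδ ((smooth_dS hU hP).mul (smooth_QQ δ₀ i))
  have hb2 : ∀ i, ∃ B : ℝ, 0 ≤ B ∧ ∀ z ∈ KK, |dX i P z| ≤ B := fun i =>
    bound_KK hδ (smooth_dX hU hP i)
  choose B1 h10 h1 using hb1
  choose B2 h20 h2 using hb2
  refine ⟨∑ i, (B1 i + B2 i), Finset.sum_nonneg fun i _ => add_nonneg (h10 i) (h20 i), ?_⟩
  intro φ x hx i
  have hmem := KK_subset hδ hx.mem
  obtain ⟨hd, hpd⟩ := hasFDerivAt_comp hU hP hx.smooth hx.ne hmem
  have hle : B1 i + B2 i ≤ ∑ i, (B1 i + B2 i) :=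
    Finset.single_le_sum (f := fun i => B1 i + B2 i)
      (fun i _ => add_nonneg (h10 i) (h20 i)) (Finset.mem_univ i)
  have hW : |pd i (fun y : E3 => P (φ (Real.log ‖y‖), y)) x| ≤ B1 i + B2 i := by
    rw [hpd i]
    refine (abs_add_le _ _).trans (add_le_add ?_ (h2 i _ hx.mem))
    rw [abs_mul]
    calc |deriv φ (Real.log ‖x‖)| * |dS P (φ (Real.log ‖x‖), x) * QQ i (φ (Real.log ‖x‖), x)|
        ≤ 1 * B1 i := mul_le_mul hx.deriv_le (h1 i _ hx.mem) (abs_nonneg _) zero_le_one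
      _ = B1 i := one_mul _
  have hφ' : HasDerivAt (deriv φ) (deriv (deriv φ) (Real.log ‖x‖)) (Real.log ‖x‖) := by
    have h3 : ContDiff ℝ ∞ (deriv φ) := by
      exact (contDiff_infty_iff_deriv.1 hx.smooth).2
    exact ((h3.differentiable (by simp)) _).hasDerivAt
  have hf1 : HasFDerivAt (fun y : E3 => deriv φ (Real.log ‖y‖))
      (deriv (deriv φ) (Real.log ‖x‖) • ((‖x‖ ^ 2)⁻¹ • (innerSL ℝ x : E3 →L[ℝ] ℝ))) x :=
    HasDerivAt.comp_hasFDerivAt (h₂ := deriv φ) (f := fun y : E3 => Real.log ‖y‖) x hφ'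
      (hasFDerivAt_logNorm hx.ne)
  have hf2 : HasFDerivAt (fun y : E3 => deriv φ (Real.log ‖y‖) * P (φ (Real.log ‖y‖), y)) _ x :=
    hf1.mul hd.hasFDerivAt
  refine ⟨hW.trans hle, hf2.differentiableAt, ?_⟩
  have he : pd i (fun y : E3 => deriv φ (Real.log ‖y‖) * P (φ (Real.log ‖y‖), y)) x
        - deriv (deriv φ) (Real.log ‖x‖) * QQ i (φ (Real.log ‖x‖), x)
          * P (φ (Real.log ‖x‖), x)
        = deriv φ (Real.log ‖x‖) * pd i (fun y : E3 => P (φ (Real.log ‖y‖), y)) x := by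
    unfold pd
    rw [hf2.fderiv]
    simp only [add_apply, smul_apply, inner_single,
      smul_eq_mul]
    unfold QQ
    simp only
    ring
  rw [he, abs_mul]
  calc |deriv φ (Real.log ‖x‖)| * |pd i (fun y : E3 => P (φ (Real.log ‖y‖), y)) x|
      ≤ 1 * (B1 i + B2 i) := mul_le_mul hx.deriv_le hW (abs_nonneg _) zero_le_one
    _ = B1 i + B2 i := one_mul _
    _ ≤ _ := hle

/-- The function `F(s, x) = (e^s/|x|)² G(e^s x/|x|)`. -/
noncomputable def FF (G : E3 → ℝ) (z : ℝ × E3) : ℝ :=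
  (Real.exp z.1 / ‖z.2‖) ^ 2 * G ((Real.exp z.1 / ‖z.2‖) • z.2)

lemma smooth_fac (δ₀ : ℝ) :
    ContDiffOn ℝ ∞ (fun z : ℝ × E3 => Real.exp z.1 / ‖z.2‖) (UU δ₀) := by
  have h1 : ContDiff ℝ ∞ (fun z : ℝ × E3 => Real.exp z.1) := Real.contDiff_exp.comp contDiff_fst
  refine h1.contDiffOn.div ?_ ?_
  · intro z hz
    exact (contDiffAt_snd.norm ℝ hz.1).contDiffWithinAt
  · intro z hz
    simpa using hz.1

lemma norm_pt {s : ℝ} {x : E3} (hx : x ≠ 0) : ‖(Real.exp s / ‖x‖) • x‖ = Real.exp s := by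
  have : ‖x‖ ≠ 0 := by simpa using hx
  rw [norm_smul, Real.norm_eq_abs, abs_of_nonneg (by positivity)]
  field_simp

lemma smooth_FF {δ₀ : ℝ} {G : E3 → ℝ} (hG : ContDiffOn ℝ ∞ G (Outside δ₀)) :
    ContDiffOn ℝ ∞ (FF G) (UU δ₀) := by
  have h1 := smooth_fac δ₀
  have h2 : ContDiffOn ℝ ∞ (fun z : ℝ × E3 => (Real.exp z.1 / ‖z.2‖) • z.2) (UU δ₀) :=
    h1.smul contDiff_snd.contDiffOn
  have h3 : Set.MapsTo (fun z : ℝ × E3 => (Real.exp z.1 / ‖z.2‖) • z.2) (UU δ₀) (Outside δ₀) := by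
    intro z hz
    show 1 - δ₀ < ‖(Real.exp z.1 / ‖z.2‖) • z.2‖
    rw [norm_pt hz.1]
    exact hz.2
  exact (h1.pow 2).mul (hG.comp h2 h3)

lemma isOpen_Outside (δ₀ : ℝ) : IsOpen (Outside δ₀) :=
  isOpen_lt continuous_const continuous_norm

lemma fderiv_eq_sum (G : E3 → ℝ) (y v : E3) : fderiv ℝ G y v = ∑ m, v m * pd m G y := by
  have hv : v = ∑ m, v m • (EuclideanSpace.single m 1 : E3) := by
    ext j
    simp [Finset.sum_apply, Pi.single_apply]
  conv_lhs => rw [hv]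
  rw [map_sum]
  refine Finset.sum_congr rfl fun m _ => ?_
  rw [map_smul, smul_eq_mul]
  rfl

lemma dS_FF {δ₀ : ℝ} {G : E3 → ℝ} (hG : ContDiffOn ℝ ∞ G (Outside δ₀)) {s : ℝ} {x : E3}
    (hz : (s, x) ∈ UU δ₀) :
    dS (FF G) (s, x) = (Real.exp s / ‖x‖) ^ 2 * (2 * G ((Real.exp s / ‖x‖) • x)
      + ∑ m, ((Real.exp s / ‖x‖) • x) m * pd m G ((Real.exp s / ‖x‖) • x)) := by
  have hx0 : x ≠ 0 := hz.1
  have hU := isOpen_UU δ₀
  have hd : HasFDerivAt (FF G) (fderiv ℝ (FF G) (s, x)) (s, x) :=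
    (((smooth_FF hG).contDiffAt (hU.mem_nhds hz)).differentiableAt (by simp)).hasFDerivAt
  have h1 : HasDerivAt (fun t : ℝ => (t, x)) ((1 : ℝ), (0 : E3)) s :=
    (hasDerivAt_id s).prodMk (hasDerivAt_const s x)
  have h2 : HasDerivAt (fun t : ℝ => FF G (t, x)) (dS (FF G) (s, x)) s :=
    hd.comp_hasDerivAt (f := fun t : ℝ => (t, x)) s h1
  set y : E3 := (Real.exp s / ‖x‖) • x with hy
  have hyO : y ∈ Outside δ₀ := by
    show 1 - δ₀ < ‖y‖
    rw [hy, norm_pt hx0]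
    exact hz.2
  have hG' : HasFDerivAt G (fderiv ℝ G y) y :=
    ((hG.contDiffAt ((isOpen_Outside δ₀).mem_nhds hyO)).differentiableAt (by simp)).hasFDerivAt
  have h3 : HasDerivAt (fun t : ℝ => Real.exp t / ‖x‖) (Real.exp s / ‖x‖) s :=
    (Real.hasDerivAt_exp s).div_const _
  have h4 : HasDerivAt (fun t : ℝ => (Real.exp t / ‖x‖) • x) y s := h3.smul_const x
  have h5 : HasDerivAt (fun t : ℝ => G ((Real.exp t / ‖x‖) • x)) (fderiv ℝ G y y) s :=
    hG'.comp_hasDerivAt (f := fun t : ℝ => (Real.exp t / ‖x‖) • x) s h4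
  have h6 := (h3.pow 2).mul h5
  have h7 : dS (FF G) (s, x) = _ := h2.unique h6
  rw [h7, ← fderiv_eq_sum]
  simp only [Pi.pow_apply]
  push_cast
  ring

end XLEADaux

open XLEADaux in
theorem XLEAD (hXPHI : Stmt_XPHI) : Stmt_XLEAD := by
  intro g δ₀ δ hδ₀ hδ hδ2 hexp hg k hk
  obtain ⟨C0, hC0, hphi⟩ := hXPHI δ hδ hδ2
  -- the functions
  have hU := isOpen_UU δ₀
  have hPg : ∀ m n, ContDiffOn ℝ ∞ (FF (fun y => g y m n)) (UU δ₀) := fun m n =>
    smooth_FF (hg.smooth m n)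
  have hPk : ∀ m n, ContDiffOn ℝ ∞ (FF (fun y => k y m n)) (UU δ₀) := fun m n =>
    smooth_FF (hk.smooth m n)
  have hc0 : ∀ m n, ∃ B : ℝ, 0 ≤ B ∧ ∀ (φ : ℝ → ℝ) (x : E3), Prof φ x → ∀ i,
      |pd i (fun y : E3 => FF (fun y => k y m n) (φ (Real.log ‖y‖), y)) x| ≤ B ∧
      DifferentiableAt ℝ (fun y : E3 => deriv φ (Real.log ‖y‖)
        * FF (fun y => k y m n) (φ (Real.log ‖y‖), y)) x ∧
      |pd i (fun y : E3 => deriv φ (Real.log ‖y‖)
        * FF (fun y => k y m n) (φ (Real.log ‖y‖), y)) x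
        - deriv (deriv φ) (Real.log ‖x‖) * QQ i (φ (Real.log ‖x‖), x)
          * FF (fun y => k y m n) (φ (Real.log ‖x‖), x)| ≤ B := fun m n => core hδ₀ (hPk m n)
  have hc1 : ∀ j m n, ∃ B : ℝ, 0 ≤ B ∧ ∀ (φ : ℝ → ℝ) (x : E3), Prof φ x → ∀ i,
      |pd i (fun y : E3 => (fun z => dS (FF (fun y => g y m n)) z * QQ j z)
        (φ (Real.log ‖y‖), y)) x| ≤ B ∧
      DifferentiableAt ℝ (fun y : E3 => deriv φ (Real.log ‖y‖)
        * (fun z => dS (FF (fun y => g y m n)) z * QQ j z) (φ (Real.log ‖y‖), y)) x ∧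
      |pd i (fun y : E3 => deriv φ (Real.log ‖y‖)
        * (fun z => dS (FF (fun y => g y m n)) z * QQ j z) (φ (Real.log ‖y‖), y)) x
        - deriv (deriv φ) (Real.log ‖x‖) * QQ i (φ (Real.log ‖x‖), x)
          * (fun z => dS (FF (fun y => g y m n)) z * QQ j z) (φ (Real.log ‖x‖), x)| ≤ B :=
    fun j m n => core hδ₀ ((smooth_dS hU (hPg m n)).mul (smooth_QQ δ₀ j))
  have hc2 : ∀ j m n, ∃ B : ℝ, 0 ≤ B ∧ ∀ (φ : ℝ → ℝ) (x : E3), Prof φ x → ∀ i,
      |pd i (fun y : E3 => dX j (FF (fun y => g y m n)) (φ (Real.log ‖y‖), y)) x| ≤ B ∧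
      DifferentiableAt ℝ (fun y : E3 => deriv φ (Real.log ‖y‖)
        * dX j (FF (fun y => g y m n)) (φ (Real.log ‖y‖), y)) x ∧
      |pd i (fun y : E3 => deriv φ (Real.log ‖y‖)
        * dX j (FF (fun y => g y m n)) (φ (Real.log ‖y‖), y)) x
        - deriv (deriv φ) (Real.log ‖x‖) * QQ i (φ (Real.log ‖x‖), x)
          * dX j (FF (fun y => g y m n)) (φ (Real.log ‖x‖), x)| ≤ B :=
    fun j m n => core hδ₀ (smooth_dX hU (hPg m n) j)
  choose B0 hB00 hB0 using hc0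
  choose B1 hB10 hB1 using hc1
  choose B2 hB20 hB2 using hc2
  have hS0 : ∀ m n, B0 m n ≤ ∑ m, ∑ n, B0 m n := fun m n =>
    (Finset.single_le_sum (f := fun n => B0 m n) (fun n _ => hB00 m n) (Finset.mem_univ n)).trans
      (Finset.single_le_sum (f := fun m => ∑ n, B0 m n)
        (fun m _ => Finset.sum_nonneg fun n _ => hB00 m n) (Finset.mem_univ m))
  have hS12 : ∀ j m n, B1 j m n + B2 j m n ≤ ∑ j, ∑ m, ∑ n, (B1 j m n + B2 j m n) := fun j m n =>
    ((Finset.single_le_sum (f := fun n => B1 j m n + B2 j m n)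
      (fun n _ => add_nonneg (hB10 j m n) (hB20 j m n)) (Finset.mem_univ n)).trans
      (Finset.single_le_sum (f := fun m => ∑ n, (B1 j m n + B2 j m n))
        (fun m _ => Finset.sum_nonneg fun n _ => add_nonneg (hB10 j m n) (hB20 j m n))
        (Finset.mem_univ m))).trans
      (Finset.single_le_sum (f := fun j => ∑ m, ∑ n, (B1 j m n + B2 j m n))
        (fun j _ => Finset.sum_nonneg fun m _ => Finset.sum_nonneg fun n _ =>
          add_nonneg (hB10 j m n) (hB20 j m n)) (Finset.mem_univ j))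
  have hN0 : 0 ≤ ∑ m, ∑ n, B0 m n := (hB00 0 0).trans (hS0 0 0)
  have hN12 : 0 ≤ ∑ j, ∑ m, ∑ n, (B1 j m n + B2 j m n) :=
    (add_nonneg (hB10 0 0 0) (hB20 0 0 0)).trans (hS12 0 0 0)
  refine ⟨1 + ∑ m, ∑ n, B0 m n + ∑ j, ∑ m, ∑ n, (B1 j m n + B2 j m n), by linarith, ?_⟩
  intro τ hτ hτδ x hx1 hxτ
  obtain ⟨hsm, -, hran, -, hder0, hder1, -⟩ := hphi τ hτ hτδ
  have hlogpos : 0 < Real.log ‖x‖ := Real.log_pos hx1
  have hlogle : Real.log ‖x‖ ≤ τ := by
    have := Real.log_le_log (by linarith) hxτ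
    rwa [Real.log_exp] at this
  have hx0 : x ≠ 0 := by
    intro h0
    rw [h0, norm_zero] at hx1
    linarith
  have hnx : ‖x‖ ≠ 0 := by simpa using hx0
  have hprof : Prof (phX τ δ) x := by
    refine ⟨hsm, hx1, ?_, (hran _ hlogpos.le).1, ?_, ?_⟩
    · have h1 : Real.exp τ ≤ Real.exp (1 / 8) := Real.exp_le_exp.2 (by linarith)
      have h2 : Real.exp (1 / 8 : ℝ) ≤ 2 := by
        have h3 := Real.exp_one_lt_d9
        have h4 : Real.exp (1 / 8 : ℝ) ^ 8 = Real.exp 1 := by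
          rw [← Real.exp_nat_mul]
          norm_num
        by_contra h5
        rw [not_le] at h5
        have h6 : (2 : ℝ) ^ 8 < Real.exp (1 / 8 : ℝ) ^ 8 :=
          pow_lt_pow_left₀ h5 (by norm_num) (by norm_num)
        rw [h4] at h6
        norm_num at h6
        linarith
      linarith
    · have := (hran _ hlogpos.le).2.1
      linarith
    · rw [abs_le]
      exact ⟨by linarith [(hder0 (Real.log ‖x‖)).1], (hder1 _ hlogle).1⟩
  -- the neighbourhood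
  have hopen : ∀ᶠ y : E3 in 𝓝 x, 1 < ‖y‖ := (isOpen_lt continuous_const continuous_norm).mem_nhds hx1
  have hUy : ∀ y : E3, 1 < ‖y‖ → (phX τ δ (Real.log ‖y‖), y) ∈ UU δ₀ := by
    intro y hy
    refine ⟨?_, ?_⟩
    · intro h0
      simp only at h0
      rw [h0, norm_zero] at hy
      linarith
    · have h1 := (hran _ (Real.log_pos hy).le).1
      have h2 := Real.add_one_le_exp (phX τ δ (Real.log ‖y‖))
      simp only
      linarith
  have hGeq : ∀ (m n : Fin 3) (y : E3), 1 < ‖y‖ → colG τ δ g y m n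
      = FF (fun y => g y m n) (phX τ δ (Real.log ‖y‖), y) := by
    intro m n y hy
    unfold colG FF facX
    rw [if_pos hy.le]
    simp only [Matrix.smul_apply, smul_eq_mul]
  have hHeq : ∀ (m n : Fin 3) (y : E3), 1 < ‖y‖ → colH τ δ k y m n
      = deriv (phX τ δ) (Real.log ‖y‖) * FF (fun y => k y m n) (phX τ δ (Real.log ‖y‖), y) := by
    intro m n y hy
    unfold colH FF facX
    rw [if_pos hy.le]
    simp only [Matrix.smul_apply, smul_eq_mul]
    ring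
  refine ⟨fun i j m n => ?_, fun i m n => ?_⟩
  · have hpj : ∀ y : E3, 1 < ‖y‖ → pd j (fun y => colG τ δ g y m n) y
        = deriv (phX τ δ) (Real.log ‖y‖) * (fun z => dS (FF (fun y => g y m n)) z * QQ j z)
            (phX τ δ (Real.log ‖y‖), y)
          + dX j (FF (fun y => g y m n)) (phX τ δ (Real.log ‖y‖), y) := by
      intro y hy
      have hy0 : y ≠ 0 := (hUy y hy).1
      have h1 : (fun y => colG τ δ g y m n)
          =ᶠ[𝓝 y] (fun y => FF (fun y => g y m n) (phX τ δ (Real.log ‖y‖), y)) := by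
        have h2 : ∀ᶠ w : E3 in 𝓝 y, 1 < ‖w‖ :=
          (isOpen_lt continuous_const continuous_norm).mem_nhds hy
        filter_upwards [h2] with w hw
        exact hGeq m n w hw
      unfold pd
      rw [h1.fderiv_eq]
      exact (hasFDerivAt_comp hU (hPg m n) hsm hy0 (hUy y hy)).2 j
    have h3 : pd i (pd j (fun y => colG τ δ g y m n)) x
        = pd i (fun y => deriv (phX τ δ) (Real.log ‖y‖)
            * (fun z => dS (FF (fun y => g y m n)) z * QQ j z) (phX τ δ (Real.log ‖y‖), y)) x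
          + pd i (fun y => dX j (FF (fun y => g y m n)) (phX τ δ (Real.log ‖y‖), y)) x := by
      have h4 : pd j (fun y => colG τ δ g y m n) =ᶠ[𝓝 x]
          (fun y => deriv (phX τ δ) (Real.log ‖y‖)
            * (fun z => dS (FF (fun y => g y m n)) z * QQ j z) (phX τ δ (Real.log ‖y‖), y))
          + (fun y => dX j (FF (fun y => g y m n)) (phX τ δ (Real.log ‖y‖), y)) := by
        filter_upwards [hopen] with w hw
        exact hpj w hw
      unfold pd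
      unfold pd at h4
      rw [h4.fderiv_eq, fderiv_add (hB1 j m n _ x hprof i).2.1
        (hasFDerivAt_comp hU (smooth_dX hU (hPg m n) j) hsm hx0 (hUy x hx1)).1]
      rfl
    have h5 := (hB1 j m n _ x hprof i).2.2
    have h6 := (hB2 j m n _ x hprof i).1
    have h7 := hS12 j m n
    have h8 : deriv (deriv (phX τ δ)) (Real.log ‖x‖) * (x i * x j / ‖x‖ ^ 4) *
            (facX τ δ x ^ 2 * eulG g (facX τ δ x • x) m n)
        = deriv (deriv (phX τ δ)) (Real.log ‖x‖) * QQ i (phX τ δ (Real.log ‖x‖), x)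
          * (fun z => dS (FF (fun y => g y m n)) z * QQ j z) (phX τ δ (Real.log ‖x‖), x) := by
      simp only
      rw [dS_FF (hg.smooth m n) (hUy x hx1)]
      unfold QQ facX eulG
      simp only [Matrix.of_apply]
      field_simp
    rw [h3, h8]
    rw [abs_le] at h5 h6 ⊢
    constructor <;> linarith [h5.1, h5.2, h6.1, h6.2]
  · have h1 : (fun y => colH τ δ k y m n)
        =ᶠ[𝓝 x] (fun y => deriv (phX τ δ) (Real.log ‖y‖)
          * FF (fun y => k y m n) (phX τ δ (Real.log ‖y‖), y)) := by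
      filter_upwards [hopen] with w hw
      exact hHeq m n w hw
    have h2 : pd i (fun y => colH τ δ k y m n) x = pd i (fun y => deriv (phX τ δ) (Real.log ‖y‖)
          * FF (fun y => k y m n) (phX τ δ (Real.log ‖y‖), y)) x := by
      unfold pd
      rw [h1.fderiv_eq]
    have h5 := (hB0 m n _ x hprof i).2.2
    have h7 := hS0 m n
    have h8 : deriv (deriv (phX τ δ)) (Real.log ‖x‖) * (x i / ‖x‖ ^ 2) *
            (facX τ δ x ^ 2 * k (facX τ δ x • x) m n)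
        = deriv (deriv (phX τ δ)) (Real.log ‖x‖) * QQ i (phX τ δ (Real.log ‖x‖), x)
          * FF (fun y => k y m n) (phX τ δ (Real.log ‖x‖), x) := rfl
    rw [h2, h8]
    rw [abs_le] at h5 ⊢
    constructor <;> linarith [h5.1, h5.2]

end Pool.Agent.PFlow


end

section

/-!
# Exterior regions: the mean of `|k|` over large shells (XLIMK)
-/

open MeasureTheory Filter Topology
open scoped ContDiff ENNReal

namespace Pool.Agent.PFlow

open Pool.Agent.PenroseSph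

namespace XLK

theorem mem_outside {δ : ℝ} (hδ : 0 < δ) {x : E3} (hx : 1 ≤ ‖x‖) : x ∈ Outside δ := by
  show 1 - δ < ‖x‖
  linarith

theorem nsq_h (hH : Stmt_HATA) {g k : TensorField} {δ : ℝ} (hδ : 0 < δ)
    (hg : MetricOn (Outside δ) g) (hk : TensorOn (Outside δ) k) (hS : PlaneSignX g k)
    {x : E3} (hx : 1 ≤ ‖x‖) : nsq g x (k x) ≤ 3 * trg g x (k x) ^ 2 := by
  have hgx := hg.posDef x (mem_outside hδ hx)
  have hs := hk.symm x (mem_outside hδ hx)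
  rcases hS x hx with h1 | h1
  · exact (hH g x (k x) hgx hs h1).2
  · have h2 := (hH g x (-k x) hgx hs.neg fun v hv => by
      rw [LK.ev_neg, LK.trg_neg]
      exact neg_le_neg (h1 v hv)).2
    rw [LK.nsq_neg, LK.trg_neg, neg_sq] at h2
    exact h2

end XLK

/-- XLIMK: the mean of `|k|` over large shells. -/
theorem XLIMK (hXAFD : Stmt_XAFD) (hHATA : Stmt_HATA) (hXTINT : Stmt_XTINT) : Stmt_XLIMK := by
  intro g k δ₀ hδ hg hk hdec hD hS hF
  rcases hF with hF | hF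
  swap
  · exact hF
  obtain ⟨C, hC, -, hell⟩ := hXAFD g k δ₀ hδ hg hk hdec
  have hI := hXTINT g k δ₀ hδ hg hk hdec hD hS hF
  have hpt : ∀ x : E3, 1 ≤ ‖x‖ → msz (k x) ≤ 2 * C * |trg g x (k x)| := by
    intro x hx
    have h1 := LK.msq_le hC (hg.posDef x (XLK.mem_outside hδ hx)) (fun v => (hell x hx v).2) (k x)
    have h2 := XLK.nsq_h hHATA hδ hg hk hS hx
    unfold msz
    rw [Real.sqrt_le_left (by positivity)]
    have h3 := sq_abs (trg g x (k x))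
    have h4 := mul_le_mul_of_nonneg_left h2 (sq_nonneg C)
    have h5 : 0 ≤ C ^ 2 * trg g x (k x) ^ 2 := by positivity
    calc ∑ i, ∑ j, k x i j ^ 2 ≤ C ^ 2 * nsq g x (k x) := h1
      _ ≤ C ^ 2 * (3 * trg g x (k x) ^ 2) := h4
      _ ≤ 4 * (C ^ 2 * trg g x (k x) ^ 2) := by linarith
      _ = (2 * C * |trg g x (k x)|) ^ 2 := by rw [mul_pow, mul_pow, h3]; ring
  have hlim := (LK.shell_tendsto hI).const_mul (2 * C)
  rw [mul_zero] at hlim
  refine squeeze_zero' ?_ ?_ hlim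
  · filter_upwards [eventually_gt_atTop (0 : ℝ)] with l hl
    refine integral_nonneg fun x => ?_
    unfold msz
    positivity
  · filter_upwards [eventually_ge_atTop (2 : ℝ)] with l hl
    have hA : MeasurableSet (cAnn (l / 2) l) :=
      (measurableSet_le measurable_const measurable_norm).inter
        (measurableSet_le measurable_norm measurable_const)
    rw [← integral_const_mul]
    refine integral_mono_of_nonneg ?_ ?_ ?_
    · refine Eventually.of_forall fun x => ?_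
      simp only [Pi.zero_apply]
      unfold msz
      positivity
    · refine Integrable.const_mul ?_ _
      refine hI.mono_set fun x hx => ?_
      have h1 : l / 2 ≤ ‖x‖ := hx.1
      show 1 ≤ ‖x‖
      linarith
    · refine (ae_restrict_mem hA).mono fun x hx => ?_
      have h1 : l / 2 ≤ ‖x‖ := hx.1
      have h2 : ‖x‖ ≤ l := hx.2
      have h3 : 0 < ‖x‖ := by linarith
      simp only
      calc msz (k x) / l ≤ (2 * C * |trg g x (k x)|) / l := by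
            gcongr
            exact hpt x (by linarith)
        _ ≤ (2 * C * |trg g x (k x)|) / ‖x‖ := by gcongr
        _ = _ := by ring

end Pool.Agent.PFlow


end

section

/-!
# PX_XSUR: the surplus outside the collar
-/

open MeasureTheory Filter Topology
open scoped ContDiff ENNReal

namespace Pool.Agent.PFlow

open Pool.Agent.PenroseSph

namespace XSURaux

/-- Plain arrays. -/
abbrev M3 := Fin 3 → Fin 3 → ℝ

/-- The space of jets, with its metric. -/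
abbrev Z := M3 × (Fin 3 → M3) × (Fin 3 → Fin 3 → M3) × M3 × (Fin 3 → M3)

/-- The jet. -/
noncomputable def jet (g k : TensorField) (x : E3) : Z :=
  (fun i j => g x i j, fun m i j => pd m (fun y => g y i j) x,
    fun m n i j => pd m (pd n (fun y => g y i j)) x, fun i j => k x i j,
    fun m i j => pd m (fun y => k y i j) x)

lemma pd_smooth {f : E3 → ℝ} {x : E3} (hf : ContDiffAt ℝ ∞ f x) (m : Fin 3) :
    ContDiffAt ℝ ∞ (pd m f) x := by
  have h : ContDiffAt ℝ ∞ (fderiv ℝ f) x := hf.fderiv_right (m := ∞) (by simp)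
  exact h.clm_apply contDiffAt_const

lemma pd_sub {f h : E3 → ℝ} {x : E3} (hf : DifferentiableAt ℝ f x)
    (hh : DifferentiableAt ℝ h x) (m : Fin 3) :
    pd m (fun y => f y - h y) x = pd m f x - pd m h x := by
  unfold pd
  rw [fderiv_fun_sub hf hh]
  rfl

lemma diff_ev {f : E3 → ℝ} {x : E3} (hf : ContDiffAt ℝ ∞ f x) :
    ∀ᶠ y in 𝓝 x, DifferentiableAt ℝ f y := by
  have h1 : ContDiffAt ℝ 1 f x := hf.of_le (by exact_mod_cast le_top)
  filter_upwards [h1.eventually (by simp)] with y hy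
  exact hy.differentiableAt (by simp)

lemma pd2_sub {f h : E3 → ℝ} {x : E3} (hf : ContDiffAt ℝ ∞ f x) (hh : ContDiffAt ℝ ∞ h x)
    (m n : Fin 3) :
    pd m (pd n (fun y => f y - h y)) x = pd m (pd n f) x - pd m (pd n h) x := by
  have h1 : pd n (fun y => f y - h y) =ᶠ[𝓝 x] fun y => pd n f y - pd n h y := by
    filter_upwards [diff_ev hf, diff_ev hh] with y hy1 hy2
    exact pd_sub hy1 hy2 n
  have h2 : pd m (pd n (fun y => f y - h y)) x = pd m (fun y => pd n f y - pd n h y) x := by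
    unfold pd at h1 ⊢
    rw [h1.fderiv_eq]
  rw [h2]
  exact pd_sub ((pd_smooth hf n).differentiableAt (by simp))
    ((pd_smooth hh n).differentiableAt (by simp)) m

lemma jet_cont {g k : TensorField} {x : E3} (hg : ∀ i j, ContDiffAt ℝ ∞ (fun y => g y i j) x)
    (hk : ∀ i j, ContDiffAt ℝ ∞ (fun y => k y i j) x) : ContinuousAt (jet g k) x := by
  unfold jet
  refine ContinuousAt.prodMk ?_ (ContinuousAt.prodMk ?_ (ContinuousAt.prodMk ?_
    (ContinuousAt.prodMk ?_ ?_)))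
  · exact continuousAt_pi.2 fun i => continuousAt_pi.2 fun j => (hg i j).continuousAt
  · exact continuousAt_pi.2 fun m => continuousAt_pi.2 fun i => continuousAt_pi.2 fun j =>
      (pd_smooth (hg i j) m).continuousAt
  · exact continuousAt_pi.2 fun m => continuousAt_pi.2 fun n => continuousAt_pi.2 fun i =>
      continuousAt_pi.2 fun j => (pd_smooth (pd_smooth (hg i j) n) m).continuousAt
  · exact continuousAt_pi.2 fun i => continuousAt_pi.2 fun j => (hk i j).continuousAt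
  · exact continuousAt_pi.2 fun m => continuousAt_pi.2 fun i => continuousAt_pi.2 fun j =>
      (pd_smooth (hk i j) m).continuousAt

lemma dist_le {z w : Z} {r : ℝ} (hr : 0 ≤ r) (h1 : ∀ i j, |z.1 i j - w.1 i j| ≤ r)
    (h2 : ∀ m i j, |z.2.1 m i j - w.2.1 m i j| ≤ r)
    (h3 : ∀ m n i j, |z.2.2.1 m n i j - w.2.2.1 m n i j| ≤ r)
    (h4 : ∀ i j, |z.2.2.2.1 i j - w.2.2.2.1 i j| ≤ r)
    (h5 : ∀ m i j, |z.2.2.2.2 m i j - w.2.2.2.2 m i j| ≤ r) : dist z w ≤ r := by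
  rw [Prod.dist_eq, Prod.dist_eq, Prod.dist_eq, Prod.dist_eq]
  refine max_le ?_ (max_le ?_ (max_le ?_ (max_le ?_ ?_)))
  · exact (dist_pi_le_iff hr).2 fun i => (dist_pi_le_iff hr).2 fun j => by
      rw [Real.dist_eq]; exact h1 i j
  · exact (dist_pi_le_iff hr).2 fun m => (dist_pi_le_iff hr).2 fun i =>
      (dist_pi_le_iff hr).2 fun j => by rw [Real.dist_eq]; exact h2 m i j
  · exact (dist_pi_le_iff hr).2 fun m => (dist_pi_le_iff hr).2 fun n =>
      (dist_pi_le_iff hr).2 fun i => (dist_pi_le_iff hr).2 fun j => by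
        rw [Real.dist_eq]; exact h3 m n i j
  · exact (dist_pi_le_iff hr).2 fun i => (dist_pi_le_iff hr).2 fun j => by
      rw [Real.dist_eq]; exact h4 i j
  · exact (dist_pi_le_iff hr).2 fun m => (dist_pi_le_iff hr).2 fun i =>
      (dist_pi_le_iff hr).2 fun j => by rw [Real.dist_eq]; exact h5 m i j

lemma isOpen_outside (δ : ℝ) : IsOpen (Outside δ) := by
  unfold Outside
  exact isOpen_lt continuous_const continuous_norm

lemma facX_smooth {τ δ : ℝ} (hφ : ContDiff ℝ ∞ (phX τ δ)) {x : E3} (hx : x ≠ 0) :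
    ContDiffAt ℝ ∞ (facX τ δ) x := by
  have hn : ContDiffAt ℝ ∞ (fun y : E3 => ‖y‖) x := contDiffAt_norm ℝ hx
  have hn0 : ‖x‖ ≠ 0 := norm_ne_zero_iff.2 hx
  have hl : ContDiffAt ℝ ∞ (fun y : E3 => Real.log ‖y‖) x := hn.log hn0
  have h1 : ContDiffAt ℝ ∞ (fun y : E3 => phX τ δ (Real.log ‖y‖)) x :=
    (hφ.contDiffAt).comp x hl
  exact h1.exp.div hn hn0

lemma facX_pos (τ δ : ℝ) {x : E3} (hx : x ≠ 0) : 0 < facX τ δ x :=
  div_pos (Real.exp_pos _) (norm_pos_iff.2 hx)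

lemma map_mem {τ δ δ₀ : ℝ} (hδ₀ : 0 < δ₀) (hφ : ∀ t, 0 ≤ t → 0 ≤ phX τ δ t) {x : E3}
    (hx : 1 ≤ ‖x‖) : facX τ δ x • x ∈ Outside δ₀ := by
  have hx0 : x ≠ 0 := norm_pos_iff.1 (by linarith)
  have hn : ‖facX τ δ x • x‖ = Real.exp (phX τ δ (Real.log ‖x‖)) := by
    rw [norm_smul, Real.norm_of_nonneg (facX_pos τ δ hx0).le]
    unfold facX
    rw [div_mul_cancel₀]
    exact norm_ne_zero_iff.2 hx0
  have h1 : (1 : ℝ) ≤ Real.exp (phX τ δ (Real.log ‖x‖)) :=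
    Real.one_le_exp (hφ _ (Real.log_nonneg hx))
  change 1 - δ₀ < ‖facX τ δ x • x‖
  rw [hn]
  linarith

lemma map_smooth {τ δ : ℝ} (hφ : ContDiff ℝ ∞ (phX τ δ)) {x : E3} (hx : x ≠ 0) :
    ContDiffAt ℝ ∞ (fun y : E3 => facX τ δ y • y) x :=
  (facX_smooth hφ hx).smul contDiffAt_id

lemma pull_smooth {τ δ δ₀ : ℝ} (hδ₀ : 0 < δ₀) (hφ : ContDiff ℝ ∞ (phX τ δ))
    (hφ0 : ∀ t, 0 ≤ t → 0 ≤ phX τ δ t) {f : E3 → ℝ} (hf : ContDiffOn ℝ ∞ f (Outside δ₀))
    {x : E3} (hx : 1 < ‖x‖) : ContDiffAt ℝ ∞ (fun y : E3 => f (facX τ δ y • y)) x := by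
  have hx0 : x ≠ 0 := norm_pos_iff.1 (by linarith)
  have h1 : ContDiffAt ℝ ∞ f (facX τ δ x • x) :=
    hf.contDiffAt ((isOpen_outside δ₀).mem_nhds (map_mem hδ₀ hφ0 hx.le))
  exact ContDiffAt.comp (g := f) (f := fun y : E3 => facX τ δ y • y) x h1 (map_smooth hφ hx0)

lemma ev_norm {x : E3} (hx : 1 < ‖x‖) : ∀ᶠ y in 𝓝 x, 1 < ‖y‖ :=
  (isOpen_lt continuous_const continuous_norm).mem_nhds hx

lemma colG_ev (τ δ : ℝ) (g : TensorField) {x : E3} (hx : 1 < ‖x‖) :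
    ∀ᶠ y in 𝓝 x, colG τ δ g y = facX τ δ y ^ 2 • g (facX τ δ y • y) := by
  filter_upwards [ev_norm hx] with y hy
  unfold colG
  rw [if_pos hy.le]

lemma colH_ev (τ δ : ℝ) (k : TensorField) {x : E3} (hx : 1 < ‖x‖) :
    ∀ᶠ y in 𝓝 x, colH τ δ k y =
      (deriv (phX τ δ) (Real.log ‖y‖) * facX τ δ y ^ 2) • k (facX τ δ y • y) := by
  filter_upwards [ev_norm hx] with y hy
  unfold colH
  rw [if_pos hy.le]

lemma colG_smooth {τ δ δ₀ : ℝ} (hδ₀ : 0 < δ₀) (hφ : ContDiff ℝ ∞ (phX τ δ))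
    (hφ0 : ∀ t, 0 ≤ t → 0 ≤ phX τ δ t) {g : TensorField} (hg : MetricOn (Outside δ₀) g)
    {x : E3} (hx : 1 < ‖x‖) (i j : Fin 3) :
    ContDiffAt ℝ ∞ (fun y => colG τ δ g y i j) x := by
  have hx0 : x ≠ 0 := norm_pos_iff.1 (by linarith)
  have h1 : ContDiffAt ℝ ∞ (fun y => facX τ δ y ^ 2 * g (facX τ δ y • y) i j) x :=
    ((facX_smooth hφ hx0).pow 2).mul (pull_smooth hδ₀ hφ hφ0 (hg.smooth i j) hx)
  refine h1.congr_of_eventuallyEq ?_
  filter_upwards [colG_ev τ δ g hx] with y hy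
  rw [hy]
  rfl

lemma deriv_smooth {φ : ℝ → ℝ} (hφ : ContDiff ℝ ∞ φ) : ContDiff ℝ ∞ (deriv φ) := by
  have h : ContDiff ℝ ((∞ : WithTop ℕ∞) + 1) φ := by simpa using hφ
  exact (contDiff_succ_iff_deriv.1 h).2.2

lemma colH_smooth {τ δ δ₀ : ℝ} (hδ₀ : 0 < δ₀) (hφ : ContDiff ℝ ∞ (phX τ δ))
    (hφ0 : ∀ t, 0 ≤ t → 0 ≤ phX τ δ t) {k : TensorField} (hk : TensorOn (Outside δ₀) k)
    {x : E3} (hx : 1 < ‖x‖) (i j : Fin 3) :
    ContDiffAt ℝ ∞ (fun y => colH τ δ k y i j) x := by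
  have hx0 : x ≠ 0 := norm_pos_iff.1 (by linarith)
  have hn0 : ‖x‖ ≠ 0 := norm_ne_zero_iff.2 hx0
  have hl : ContDiffAt ℝ ∞ (fun y : E3 => Real.log ‖y‖) x := (contDiffAt_norm ℝ hx0).log hn0
  have hd : ContDiffAt ℝ ∞ (fun y : E3 => deriv (phX τ δ) (Real.log ‖y‖)) x :=
    ((deriv_smooth hφ).contDiffAt).comp x hl
  have h1 : ContDiffAt ℝ ∞ (fun y => (deriv (phX τ δ) (Real.log ‖y‖) * facX τ δ y ^ 2) *
      k (facX τ δ y • y) i j) x :=
    (hd.mul ((facX_smooth hφ hx0).pow 2)).mul (pull_smooth hδ₀ hφ hφ0 (hk.smooth i j) hx)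
  refine h1.congr_of_eventuallyEq ?_
  filter_upwards [colH_ev τ δ k hx] with y hy
  rw [hy]
  rfl

lemma colG_pos {τ δ δ₀ : ℝ} (hδ₀ : 0 < δ₀) (hφ0 : ∀ t, 0 ≤ t → 0 ≤ phX τ δ t)
    {g : TensorField} (hg : MetricOn (Outside δ₀) g) {x : E3} (hx : 1 < ‖x‖) :
    ∀ᶠ y in 𝓝 x, (colG τ δ g y).PosDef := by
  filter_upwards [colG_ev τ δ g hx, ev_norm hx] with y hy hy1
  have hy0 : y ≠ 0 := norm_pos_iff.1 (by linarith)
  rw [hy]
  exact (hg.posDef _ (map_mem hδ₀ hφ0 hy1.le)).smul (pow_pos (facX_pos τ δ hy0) 2)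

lemma colH_symm {τ δ δ₀ : ℝ} (hδ₀ : 0 < δ₀) (hφ0 : ∀ t, 0 ≤ t → 0 ≤ phX τ δ t)
    {k : TensorField} (hk : TensorOn (Outside δ₀) k) {x : E3} (hx : 1 < ‖x‖) :
    ∀ᶠ y in 𝓝 x, (colH τ δ k y).IsSymm := by
  filter_upwards [colH_ev τ δ k hx, ev_norm hx] with y hy hy1
  rw [hy]
  exact (hk.symm _ (map_mem hδ₀ hφ0 hy1.le)).smul _

end XSURaux

open XSURaux in
theorem XSUR (hXPHI : Stmt_XPHI) (hXJET : Stmt_XJET) (hXCLO : Stmt_XCLO) : Stmt_XSUR := by
  intro g k δ₀ δ σ hδ₀ hδ hδ2 hexp hg hk hσ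
  obtain ⟨F, hF, hFe⟩ := hXJET
  obtain ⟨C, hC, hclo⟩ := hXCLO g k δ₀ δ hδ₀ hδ hδ2 hexp hg hk
  obtain ⟨C1, hC1, hphi⟩ := hXPHI δ hδ hδ2
  -- the compact set
  have hA : IsCompact {x : E3 | 1 ≤ ‖x‖ ∧ ‖x‖ ≤ 4} := by
    refine (isCompact_closedBall (0 : E3) 4).of_isClosed_subset ?_ ?_
    · exact (isClosed_le continuous_const continuous_norm).inter
        (isClosed_le continuous_norm continuous_const)
    · intro x hx
      rw [mem_closedBall_zero_iff]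
      exact hx.2
  have hin : ∀ x : E3, 1 ≤ ‖x‖ → x ∈ Outside δ₀ := by
    intro x hx
    change 1 - δ₀ < ‖x‖
    linarith
  have hgs : ∀ x : E3, 1 ≤ ‖x‖ → ∀ i j, ContDiffAt ℝ ∞ (fun y => g y i j) x := fun x hx i j =>
    (hg.smooth i j).contDiffAt ((isOpen_outside δ₀).mem_nhds (hin x hx))
  have hks : ∀ x : E3, 1 ≤ ‖x‖ → ∀ i j, ContDiffAt ℝ ∞ (fun y => k y i j) x := fun x hx i j =>
    (hk.smooth i j).contDiffAt ((isOpen_outside δ₀).mem_nhds (hin x hx))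
  have hKc : IsCompact (jet g k '' {x : E3 | 1 ≤ ‖x‖ ∧ ‖x‖ ≤ 4}) :=
    hA.image_of_continuousOn fun x hx =>
      (jet_cont (hgs x hx.1) (hks x hx.1)).continuousWithinAt
  let F' : Z → ℝ := F
  have hF' : ContinuousOn F' {z : Z | (Matrix.of z.1 : Bil).det ≠ 0} := hF
  have hopen : IsOpen {z : Z | (Matrix.of z.1 : Bil).det ≠ 0} := by
    refine isOpen_ne_fun ?_ continuous_const
    have h1 : Continuous fun z : Z => (Matrix.of z.1 : Bil) := continuous_fst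
    exact h1.matrix_det
  have hcont : ∀ z ∈ jet g k '' {x : E3 | 1 ≤ ‖x‖ ∧ ‖x‖ ≤ 4}, ContinuousAt F' z := by
    rintro z ⟨x, hx, rfl⟩
    refine hF'.continuousAt (hopen.mem_nhds ?_)
    have h1 : (Matrix.of (jet g k x).1 : Bil) = g x := rfl
    change (Matrix.of (jet g k x).1 : Bil).det ≠ 0
    rw [h1]
    exact (hg.posDef x (hin x hx.1)).det_pos.ne'
  have hunif := hKc.uniformContinuousAt_of_continuousAt F' hcont (Metric.dist_mem_uniformity hσ)
  obtain ⟨η, hη, hu⟩ := Metric.mem_uniformity_dist.1 hunif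
  refine ⟨min (δ / 4) (η / (2 * C)), by positivity, min_le_left _ _, ?_⟩
  intro τ hτ hτ0 x hx1 hx4
  have hτ4 : τ ≤ δ / 4 := hτ0.trans (min_le_left _ _)
  have hτη : C * τ ≤ η / 2 := by
    have h1 : τ ≤ η / (2 * C) := hτ0.trans (min_le_right _ _)
    rw [le_div_iff₀ (by positivity)] at h1
    linarith
  have hx : 1 < ‖x‖ := lt_of_le_of_lt (Real.one_le_exp hτ.le) hx1
  obtain ⟨hφs, -, hφb, -⟩ := hphi τ hτ hτ4
  have hφ0 : ∀ t, 0 ≤ t → 0 ≤ phX τ δ t := fun t ht => (hφb t ht).1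
  have hgev : ∀ᶠ y in 𝓝 x, (g y).PosDef := by
    filter_upwards [(isOpen_outside δ₀).mem_nhds (hin x hx.le)] with y hy
    exact hg.posDef y hy
  have hkev : ∀ᶠ y in 𝓝 x, (k y).IsSymm := by
    filter_upwards [(isOpen_outside δ₀).mem_nhds (hin x hx.le)] with y hy
    exact hk.symm y hy
  have e1 : surplus g k x = F' (jet g k x) := hFe g k x hgev (hgs x hx.le) hkev (hks x hx.le)
  have e2 : surplus (colG τ δ g) (colH τ δ k) x = F' (jet (colG τ δ g) (colH τ δ k) x) :=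
    hFe _ _ x (colG_pos hδ₀ hφ0 hg hx) (colG_smooth hδ₀ hφs hφ0 hg hx)
      (colH_symm hδ₀ hφ0 hk hx) (colH_smooth hδ₀ hφs hφ0 hk hx)
  have hd : dist (jet g k x) (jet (colG τ δ g) (colH τ δ k) x) ≤ C * τ := by
    rw [dist_comm]
    refine dist_le (by positivity) ?_ ?_ ?_ ?_ ?_
    · intro i j
      exact (hclo τ hτ hτ4 x hx1 hx4 i j).1
    · intro m i j
      have h1 := (hclo τ hτ hτ4 x hx1 hx4 i j).2.1 m
      rw [_root_.Pool.Agent.PFlow.XSURaux.pd_sub ((colG_smooth hδ₀ hφs hφ0 hg hx i j).differentiableAt (by simp))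
        ((hgs x hx.le i j).differentiableAt (by simp)) m] at h1
      exact h1
    · intro m n i j
      have h1 := (hclo τ hτ hτ4 x hx1 hx4 i j).2.2.1 m n
      rw [pd2_sub (colG_smooth hδ₀ hφs hφ0 hg hx i j) (hgs x hx.le i j) m n] at h1
      exact h1
    · intro i j
      exact (hclo τ hτ hτ4 x hx1 hx4 i j).2.2.2.1
    · intro m i j
      have h1 := (hclo τ hτ hτ4 x hx1 hx4 i j).2.2.2.2 m
      rw [_root_.Pool.Agent.PFlow.XSURaux.pd_sub ((colH_smooth hδ₀ hφs hφ0 hk hx i j).differentiableAt (by simp))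
        ((hks x hx.le i j).differentiableAt (by simp)) m] at h1
      exact h1
  have h3 : (jet g k x, jet (colG τ δ g) (colH τ δ k) x) ∈ _ :=
    hu (lt_of_le_of_lt hd (by linarith))
  have h4 := h3 ⟨x, ⟨hx.le, hx4⟩, rfl⟩
  have h5 : dist (F' (jet g k x)) (F' (jet (colG τ δ g) (colH τ δ k) x)) < σ := h4
  rw [e1, e2]
  rw [Real.dist_eq] at h5
  have h6 := abs_lt.1 h5
  linarith [h6.1, h6.2]

end Pool.Agent.PFlow


end
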