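import Mathlib
import Pool.Agent.PFlow.DefsXH
import Pool.Agent.PFlow.StmtsE2
import Pool.Agent.PFlow.StmtsM
import Pool.Agent.PFlow.StmtsX2
import Pool.Agent.PenroseM.C08
import Pool.Agent.PenroseM.C24
import Pool.Agent.PenroseM.C37

/-! Parts: PFlow.StmtsHX, PFlow.HX.COLE, PFlow.HX.HXBT, PFlow.X.XMSI -/

section

/-!
# Exterior regions: statements of the block HX (helper43)

`H²` bound near the boundary sphere (LEG), estimates in the collar (COLE), level set inequality up to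
the boundary (MIX). Proofs in `HX.md`.
-/

open MeasureTheory Filter Topology
open scoped ContDiff ENNReal

namespace Pool.Agent.PFlow

open Pool.Agent.PenroseSph

/-! ## The `H²` bound near the unit sphere -/

/-- The metric, its first derivatives, the tensor and the inverse metric are bounded by `Λ` at `x`. -/
structure BdAt (Λ : ℝ) (g h : TensorField) (x : E3) : Prop where
  posDef : (g x).PosDef
  metric : ∀ i j, |g x i j| ≤ Λ
  deriv : ∀ i j m, |pd m (fun y => g y i j) x| ≤ Λ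
  tensor : ∀ i j, |h x i j| ≤ Λ
  elliptic : ∀ v : Cov, (∑ i, v i ^ 2) ≤ Λ * ev (g x) v v

/-- HXA: Cordes' inequality at a point, with the raw second derivatives. -/
def Stmt_HXA : Prop :=
  ∀ ε Λ : ℝ, 0 < ε → ε < 1 → 0 < Λ → ∃ c C : ℝ, 0 < c ∧ 0 < C ∧
    ∀ (g h : TensorField) (x : E3) (p : Cov) (M : Bil), BdAt Λ g h x →
      (p ≠ 0 → beps ε g x p (cHess g x p M) + len g x p * beps ε g x p (h x) = 0) →
      (p = 0 → M = 0) →
      c * msz M ^ 2 ≤ volDen g x * (nsq g x M - trg g x M ^ 2) + C * vsz p ^ 2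

/-- A cut-off function in the annulus `1/2 < |x| < 2`. -/
structure CutZ (ζ : E3 → ℝ) : Prop where
  smooth : ContDiff ℝ ∞ ζ
  compact : HasCompactSupport ζ
  supp : tsupport ζ ⊆ Ann (1 / 2) 2
  nonneg : ∀ x, 0 ≤ ζ x
  le_one : ∀ x, ζ x ≤ 1

/-- HXCUT: there is a cut-off function which is `1` for `3/4 ≤ |x| ≤ 4/3`. -/
def Stmt_HXCUT : Prop := ∃ ζ : E3 → ℝ, CutZ ζ ∧ ∀ x ∈ cAnn (3 / 4) (4 / 3), ζ x = 1

/-- HXBS: integration by parts for the quadratic form of second derivatives, smooth functions. -/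
def Stmt_HXBS : Prop :=
  ∀ (Λ : ℝ) (ζ : E3 → ℝ), 0 < Λ → CutZ ζ → ∃ C : ℝ, 0 < C ∧
    ∀ (g h : TensorField) (v : E3 → ℝ),
      MetricOn (Ann (1 / 2) 2) g → (∀ x ∈ Ann (1 / 2) 2, BdAt Λ g h x) → ContDiff ℝ ∞ v →
      ∫ x in Ann (1 / 2) 2,
          ζ x ^ 4 * (volDen g x * (nsq g x (hess2 v x) - trg g x (hess2 v x) ^ 2))
        ≤ C * ∫ x in Ann (1 / 2) 2, ζ x ^ 3 * (vsz (grad v x) * msz (hess2 v x))

/-- HXB: integration by parts for the quadratic form of second derivatives. -/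
def Stmt_HXB : Prop :=
  ∀ (Λ : ℝ) (ζ : E3 → ℝ), 0 < Λ → CutZ ζ → ∃ C : ℝ, 0 < C ∧
    ∀ (g h : TensorField) (u : E3 → ℝ) (G : E3 → Cov) (M : E3 → Bil),
      MetricOn (Ann (1 / 2) 2) g → (∀ x ∈ Ann (1 / 2) 2, BdAt Λ g h x) →
      H2On (Ann (1 / 2) 2) u G M →
      IntegrableOn (fun x => ζ x ^ 4 * (volDen g x * (nsq g x (M x) - trg g x (M x) ^ 2)))
        (Ann (1 / 2) 2) ∧
      ∫ x in Ann (1 / 2) 2, ζ x ^ 4 * (volDen g x * (nsq g x (M x) - trg g x (M x) ^ 2))
        ≤ C * (Real.sqrt (∫ x in Ann (1 / 2) 2, ζ x ^ 4 * msz (M x) ^ 2)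
          * Real.sqrt (∫ x in Ann (1 / 2) 2, ζ x ^ 2 * vsz (G x) ^ 2))

/-- HXC: the first derivatives are controlled by the second ones. -/
def Stmt_HXC : Prop :=
  ∀ (S : ℝ) (ζ : E3 → ℝ), 0 < S → CutZ ζ → ∃ C : ℝ, 0 < C ∧
    ∀ (u : E3 → ℝ) (G : E3 → Cov) (M : E3 → Bil),
      H2On (Ann (1 / 2) 2) u G M → (∀ x ∈ Ann (1 / 2) 2, |u x| ≤ S) →
      IntegrableOn (fun x => ζ x ^ 2 * vsz (G x) ^ 2) (Ann (1 / 2) 2) ∧
      IntegrableOn (fun x => ζ x ^ 4 * msz (M x) ^ 2) (Ann (1 / 2) 2) ∧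
      ∫ x in Ann (1 / 2) 2, ζ x ^ 2 * vsz (G x) ^ 2
        ≤ C * (Real.sqrt (∫ x in Ann (1 / 2) 2, ζ x ^ 4 * msz (M x) ^ 2)
          + Real.sqrt (∫ x in Ann (1 / 2) 2, ζ x ^ 2 * vsz (G x) ^ 2))

/-- LEG: the uniform `H²` bound near the unit sphere. -/
def Stmt_LEG : Prop :=
  ∀ ε Λ S : ℝ, 0 < ε → ε < 1 → 0 < Λ → 0 < S → ∃ C : ℝ, 0 < C ∧
    ∀ (g h : TensorField) (u : E3 → ℝ) (G : E3 → Cov) (M : E3 → Bil),
      MetricOn (Ann (1 / 2) 2) g → (∀ x ∈ Ann (1 / 2) 2, BdAt Λ g h x) →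
      H2On (Ann (1 / 2) 2) u G M → EqU (Ann (1 / 2) 2) ε g h G M →
      (∀ x ∈ Ann (1 / 2) 2, |u x| ≤ S) →
      ∫ x in cAnn (3 / 4) (4 / 3), (vsz (G x) ^ 2 + msz (M x) ^ 2) ≤ C

/-! ## The collar -/

/-- HXRAY: estimates in the collar for a smooth function which is `1` on the unit sphere. -/
def Stmt_HXRAY : Prop :=
  ∀ (v : E3 → ℝ) (τ : ℝ), ContDiff ℝ ∞ v → (∀ x : E3, ‖x‖ = 1 → v x = 1) → 0 < τ → τ ≤ 1 / 10 →
    (∫ x in cAnn 1 (Real.exp τ), tanP x (grad v x))
      ≤ 4 * τ * (∫ x in cAnn 1 (Real.exp τ), msz (hess2 v x)) ∧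
    ∀ δ : ℝ, 0 < δ → δ < τ →
      (∫ x in cAnn (Real.exp δ) (Real.exp τ), negP x (-grad v x))
        ≤ (∫ x in cAnn (Real.exp δ) (Real.exp τ), max ((v x - 1) / (‖x‖ - 1)) 0)
          + 4 * τ * (∫ x in cAnn 1 (Real.exp τ), msz (hess2 v x))

/-- HXTR: the first derivatives in the collar. -/
def Stmt_HXTR : Prop :=
  ∀ (v : E3 → ℝ) (τ : ℝ), ContDiff ℝ ∞ v → 0 < τ → τ ≤ 1 / 10 →
    (∫ x in cAnn 1 (Real.exp τ), vsz (grad v x))
      ≤ 100 * τ * (∫ x in cAnn 1 (4 / 3), (vsz (grad v x) + msz (hess2 v x)))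

/-- HXUNI: the derivatives of a function of class `H²` are unique. -/
def Stmt_HXUNI : Prop :=
  ∀ (U : Set E3) (w : E3 → ℝ) (G G' : E3 → Cov) (M M' : E3 → Bil), IsOpen U →
    H2On U w G M → H2On U w G' M' →
    (∀ᵐ x ∂(volume.restrict U), G x = G' x) ∧ (∀ᵐ x ∂(volume.restrict U), M x = M' x)

/-- HXANTI: functions which are odd under the inversion, up to the constant `1`. -/
def Stmt_HXANTI : Prop :=
  ∀ (u : E3 → ℝ) (G : E3 → Cov) (M : E3 → Bil), H2On (Ann (1 / 2) 2) u G M →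
    (∀ x ∈ Ann (1 / 2) 2, u (inversion x) = 2 - u x) →
    (∀ᵐ x ∂(volume.restrict (Ann (1 / 2) 2)), ∀ i,
      ∑ a, inversionJac x a i * G (inversion x) a = -G x i) ∧
    ∃ v : ℕ → E3 → ℝ, (∀ n, ContDiff ℝ ∞ (v n)) ∧ (∀ n, ∀ x : E3, ‖x‖ = 1 → v n x = 1) ∧
      TendstoUniformlyOn v u atTop (cAnn (3 / 4) (4 / 3)) ∧
      (∀ i, Tendsto (fun n => ∫ x in cAnn (3 / 4) (4 / 3), (pd i (v n) x - G x i) ^ 2) atTop
        (𝓝 0)) ∧
      (∀ i j, Tendsto (fun n => ∫ x in cAnn (3 / 4) (4 / 3), (pd i (pd j (v n)) x - M x i j) ^ 2)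
        atTop (𝓝 0))

/-- COLE: the gradient in the collar. -/
def Stmt_COLE : Prop :=
  ∃ C : ℝ, 0 < C ∧ ∀ (u : E3 → ℝ) (G : E3 → Cov) (M : E3 → Bil) (A : ℝ),
    H2On (Ann (1 / 2) 2) u G M → (∀ x ∈ Ann (1 / 2) 2, u (inversion x) = 2 - u x) →
    (∀ x : E3, 1 ≤ ‖x‖ → ‖x‖ < 2 → u x ≤ 1) →
    ∫ x in cAnn (3 / 4) (4 / 3), (vsz (G x) ^ 2 + msz (M x) ^ 2) ≤ A →
    ∀ τ : ℝ, 0 < τ → τ ≤ 1 / 10 →
      IntegrableOn (fun x => tanP x (G x)) (cAnn 1 (Real.exp τ)) ∧
      IntegrableOn (fun x => negP x (-G x)) (cAnn 1 (Real.exp τ)) ∧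
      IntegrableOn (fun x => vsz (G x)) (cAnn 1 (Real.exp τ)) ∧
      (∫ x in cAnn 1 (Real.exp τ), tanP x (G x)) ≤ C * τ * Real.sqrt τ * Real.sqrt A ∧
      (∫ x in cAnn 1 (Real.exp τ), negP x (-G x)) ≤ C * τ * Real.sqrt τ * Real.sqrt A ∧
      (∫ x in cAnn 1 (Real.exp τ), vsz (G x)) ≤ C * τ * Real.sqrt A

/-! ## The level set inequality up to the boundary -/

/-- HXLEV: the levels close to that of the boundary. -/
def Stmt_HXLEV : Prop :=
  ∀ (ε R c s₁ : ℝ) (g h : TensorField) (u : E3 → ℝ) (G : E3 → Cov) (M : E3 → Bil),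
    0 < ε → ε ≤ 1 / 2 → 8 ≤ R → 0 < c → 0 < s₁ → SolX ε R g h u G M →
    (∀ x ∈ Ann (1 / 2) R, 0 < u x) → (∀ x : E3, 1 < ‖x‖ → ‖x‖ < R → u x < 1) →
    (∀ x : E3, 1 / 2 < ‖x‖ → ‖x‖ ≤ 2 / 3 → 1 + c ≤ u x) →
    (∃ r : ℝ, 1 < r ∧ r < R ∧ ∀ x : E3, r ≤ ‖x‖ → ‖x‖ < R → s₁ < wOf ε u x) →
    (∀ x ∈ Ann (1 / 2) R, (u x < 1 ↔ 1 < ‖x‖) ∧ (u x = 1 ↔ ‖x‖ = 1) ∧ (0 < wOf ε u x ↔ 1 < ‖x‖)) ∧
    ∃ σ₀ : ℝ, 0 < σ₀ ∧ σ₀ ≤ 1 / 2 ∧ ∀ x ∈ Ann (1 / 2) R, |u x - 1| ≤ σ₀ → x ∈ cAnn (2 / 3) (3 / 2)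

/-- HXSYM: integrals of odd quantities vanish. -/
def Stmt_HXSYM : Prop :=
  ∀ (ε : ℝ) (g h : TensorField) (u : E3 → ℝ) (G : E3 → Cov) (M : E3 → Bil),
    MetricOn Set.univ g → TensorOn Set.univ h → Mirror g h → H2On (Ann (1 / 2) 2) u G M →
    (∀ x ∈ Ann (1 / 2) 2, u (inversion x) = 2 - u x) →
    (∀ F : ℝ → ℝ, (∀ s, F (2 - s) = -F s) →
      ∫ x in Ann (1 / 2) 2, F (u x) * len g x (G x) ^ 3 * volDen g x = 0) ∧
    (∀ L : ℝ → ℝ, (∀ s, L (2 - s) = L s) →
      ∫ x in Ann (1 / 2) 2, L (u x) * len g x (G x) ^ 2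
        * (2 / (2 - ε) * beps ε g x (G x) (h x) - btan g x (G x) (h x)) * volDen g x = 0)

/-- A rise at the level `u = 1`: `lam' = L(u) u² / ε²` with `u = e^{-s/ε}` and a function `L` which is
even about `u = 1`. -/
structure Rise (ε σ : ℝ) (L lam : ℝ → ℝ) : Prop where
  smoothL : ContDiff ℝ ∞ L
  nonneg : ∀ t, 0 ≤ L t
  even : ∀ t, L (2 - t) = L t
  suppL : ∀ t, σ < |t - 1| → L t = 0
  smooth : ContDiff ℝ ∞ lam
  deriv : ∀ s, deriv lam s = L (Real.exp (-s / ε)) * Real.exp (-s / ε) ^ 2 / ε ^ 2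
  zero : ∀ s, s ≤ -ε * Real.log (1 + σ) → lam s = 0
  one : ∀ s, -ε * Real.log (1 - σ) ≤ s → lam s = 1
  mem : ∀ s, 0 ≤ lam s ∧ lam s ≤ 1

/-- HXLAM: existence of the rise. -/
def Stmt_HXLAM : Prop :=
  ∀ ε σ : ℝ, 0 < ε → ε ≤ 1 / 2 → 0 < σ → σ ≤ 1 / 2 → ∃ L lam : ℝ → ℝ, Rise ε σ L lam

/-- HXBT: the boundary term has a sign. -/
def Stmt_HXBT : Prop :=
  ∀ (ε R σ : ℝ) (g h : TensorField) (u : E3 → ℝ) (G : E3 → Cov) (M : E3 → Bil) (L lam : ℝ → ℝ),
    0 < ε → ε ≤ 1 / 2 → 8 ≤ R → 0 < σ → σ ≤ 1 / 2 → MetricOn Set.univ g →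
    TensorOn Set.univ h → Mirror g h → SolX ε R g h u G M → (∀ x ∈ Ann (1 / 2) R, 0 < u x) →
    (∀ x ∈ Ann (1 / 2) R, |u x - 1| ≤ σ → x ∈ cAnn (2 / 3) (3 / 2)) → Rise ε σ L lam →
    ∫ x in Ann (1 / 2) R, deriv lam (wOf ε u x) *
      flux ε g h x (gOf ε u G x) (mOf ε u G M x) * volDen g x ≤ 0

end Pool.Agent.PFlow


end

section

/-!
# COLE: the gradient in the collar
-/

open MeasureTheory Filter Topology
open scoped ContDiff ENNReal

namespace Pool.Agent.PFlow.HX

open Pool.Agent.PenroseSph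

namespace COLEaux

/-! ### Algebra -/

theorem vsz_eq (p : Cov) : vsz p = ‖(WithLp.toLp 2 p : E3)‖ := by
  rw [EuclideanSpace.norm_eq]
  unfold vsz
  congr 1
  apply Finset.sum_congr rfl
  intro i _
  simp [Real.norm_eq_abs, sq_abs]

theorem vsz_nonneg (p : Cov) : 0 ≤ vsz p := Real.sqrt_nonneg _

theorem vsz_sub (p q : Cov) : |vsz p - vsz q| ≤ vsz (p - q) := by
  rw [vsz_eq, vsz_eq, vsz_eq, WithLp.toLp_sub]
  exact abs_norm_sub_norm_le _ _

theorem sqrt_sum_le {ι : Type} [Fintype ι] (a : ι → ℝ) :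
    Real.sqrt (∑ i, a i ^ 2) ≤ ∑ i, |a i| := by
  rw [Real.sqrt_le_left (Finset.sum_nonneg fun i _ => abs_nonneg _)]
  have h : ∀ s : Finset ι, ∑ i ∈ s, a i ^ 2 ≤ (∑ i ∈ s, |a i|) ^ 2 := by
    classical
    intro s
    induction s using Finset.induction_on with
    | empty => simp
    | insert i s hi ih =>
      rw [Finset.sum_insert hi, Finset.sum_insert hi]
      have h1 : 0 ≤ |a i| := abs_nonneg _
      have h2 : 0 ≤ ∑ j ∈ s, |a j| := Finset.sum_nonneg fun _ _ => abs_nonneg _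
      have h3 : a i ^ 2 = |a i| ^ 2 := (sq_abs _).symm
      nlinarith [mul_nonneg h1 h2]
  exact h Finset.univ

theorem vsz_le (p : Cov) : vsz p ≤ ∑ i, |p i| := sqrt_sum_le p

theorem msz_nonneg (B : Bil) : 0 ≤ msz B := Real.sqrt_nonneg _

theorem msz_eq (B : Bil) : msz B =
    ‖(WithLp.toLp 2 (fun z : Fin 3 × Fin 3 => B z.1 z.2) : EuclideanSpace ℝ (Fin 3 × Fin 3))‖ := by
  rw [EuclideanSpace.norm_eq]
  unfold msz
  congr 1
  rw [Fintype.sum_prod_type]
  apply Finset.sum_congr rfl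
  intro i _
  apply Finset.sum_congr rfl
  intro j _
  simp [Real.norm_eq_abs, sq_abs]

theorem msz_sub (A B : Bil) : |msz A - msz B| ≤ ∑ z : Fin 3 × Fin 3, |A z.1 z.2 - B z.1 z.2| := by
  rw [msz_eq, msz_eq]
  refine (abs_norm_sub_norm_le _ _).trans ?_
  rw [← WithLp.toLp_sub, EuclideanSpace.norm_eq]
  refine le_trans (le_of_eq ?_) (sqrt_sum_le (fun z : Fin 3 × Fin 3 => A z.1 z.2 - B z.1 z.2))
  congr 1
  apply Finset.sum_congr rfl
  intro z _
  simp [Real.norm_eq_abs, sq_abs]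

theorem norm_sq (x : E3) : ‖x‖ ^ 2 = ∑ i, x i ^ 2 := by
  rw [EuclideanSpace.norm_sq_eq]
  apply Finset.sum_congr rfl
  intro i _
  rw [Real.norm_eq_abs, sq_abs]

theorem tanP_le (x : E3) (p : Cov) : tanP x p ≤ vsz p := by
  unfold tanP vsz
  apply Real.sqrt_le_sqrt
  have h1 := norm_sq x
  rcases eq_or_ne (‖x‖ ^ 2) 0 with h0 | h0
  · rw [h0]
    simp
  · set t := (∑ j, p j * x j) / ‖x‖ ^ 2 with ht
    have h2 : ∑ j, p j * x j = t * ‖x‖ ^ 2 := by rw [ht, div_mul_cancel₀ _ h0]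
    have h3 : ∑ i, (p i - t * x i) ^ 2 = ∑ i, p i ^ 2 - 2 * t * (∑ j, p j * x j) +
        t ^ 2 * ∑ i, x i ^ 2 := by
      rw [Finset.mul_sum, Finset.mul_sum, ← Finset.sum_sub_distrib, ← Finset.sum_add_distrib]
      apply Finset.sum_congr rfl
      intro i _
      ring
    rw [h3, h2, ← h1]
    nlinarith [mul_nonneg (sq_nonneg t) (sq_nonneg ‖x‖)]

theorem tanP_sub (x : E3) (p q : Cov) : |tanP x p - tanP x q| ≤ ∑ i, |p i - q i| := by
  have h1 : tanP x (p - q) ≤ ∑ i, |p i - q i| := (tanP_le x _).trans (vsz_le _)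
  refine le_trans ?_ h1
  unfold tanP
  refine (vsz_sub _ _).trans (le_of_eq ?_)
  congr 1
  funext i
  simp only [Pi.sub_apply, sub_mul, Finset.sum_sub_distrib, sub_div]
  ring

theorem coord_le (x : E3) (i : Fin 3) : |x i| ≤ ‖x‖ := by
  have h1 := norm_sq x
  have h2 : x i ^ 2 ≤ ∑ j, x j ^ 2 :=
    Finset.single_le_sum (f := fun j => x j ^ 2) (fun j _ => sq_nonneg _) (Finset.mem_univ i)
  rw [← h1] at h2
  exact abs_le_of_sq_le_sq h2 (norm_nonneg _)

theorem negP_sub (x : E3) (p q : Cov) : |negP x p - negP x q| ≤ ∑ i, |p i - q i| := by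
  unfold negP
  refine (abs_max_sub_max_le_max _ _ _ _).trans ?_
  rw [sub_self, abs_zero]
  apply max_le
  · have h1 : -((∑ j, p j * x j) / ‖x‖) - -((∑ j, q j * x j) / ‖x‖)
        = ∑ j, (q j - p j) * (x j / ‖x‖) := by
      simp only [sub_mul, Finset.sum_sub_distrib, mul_div_assoc', ← Finset.sum_div]
      ring
    rw [h1]
    refine (Finset.abs_sum_le_sum_abs _ _).trans ?_
    apply Finset.sum_le_sum
    intro j _
    rw [abs_mul, abs_sub_comm]
    have h2 : |x j / ‖x‖| ≤ 1 := by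
      rw [abs_div, abs_norm]
      exact div_le_one_of_le₀ (coord_le x j) (norm_nonneg _)
    exact mul_le_of_le_one_right (abs_nonneg _) h2
  · exact Finset.sum_nonneg fun _ _ => abs_nonneg _

theorem measurable_tanP : Measurable (fun z : E3 × Cov => tanP z.1 z.2) := by
  unfold tanP vsz
  fun_prop

theorem measurable_negP : Measurable (fun z : E3 × Cov => negP z.1 z.2) := by
  unfold negP
  fun_prop

theorem measurable_vsz : Measurable vsz := by
  unfold vsz
  fun_prop

theorem measurable_msz : Measurable (fun z : Fin 3 → Fin 3 → ℝ => msz (Matrix.of z)) := by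
  unfold msz
  simp only [Matrix.of_apply]
  fun_prop

/-! ### Measure theory -/

/-- Cauchy-Schwarz. -/
theorem cs {α : Type} [MeasurableSpace α] (μ : Measure α) [IsFiniteMeasure μ] {f : α → ℝ}
    (hf : MemLp f 2 μ) :
    ∫ x, f x ∂μ ≤ Real.sqrt (μ.real Set.univ) * Real.sqrt (∫ x, f x ^ 2 ∂μ) := by
  set m := μ.real Set.univ with hm
  set a := ∫ x, f x ∂μ with ha
  set b := ∫ x, f x ^ 2 ∂μ with hb
  have hm0 : 0 ≤ m := measureReal_nonneg
  have hi : Integrable f μ := hf.integrable (by norm_num)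
  have hi2 : Integrable (fun x => f x ^ 2) μ := hf.integrable_sq
  have key : ∀ c : ℝ, 0 ≤ b - 2 * c * a + c ^ 2 * m := by
    intro c
    have h1 : 0 ≤ ∫ x, (f x - c) ^ 2 ∂μ := integral_nonneg fun x => sq_nonneg _
    have h2 : ∫ x, (f x - c) ^ 2 ∂μ = b - 2 * c * a + c ^ 2 * m := by
      have e : (fun x => (f x - c) ^ 2) = fun x => (f x ^ 2 - 2 * c * f x) + c ^ 2 := by
        funext x; ring
      have hi3 : Integrable (fun x => 2 * c * f x) μ := hi.const_mul (2 * c)
      have hi4 : Integrable (fun x => f x ^ 2 - 2 * c * f x) μ := hi2.sub hi3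
      rw [e, integral_add hi4 (integrable_const _), integral_sub hi2 hi3, integral_const_mul,
        integral_const, smul_eq_mul]
      ring
    rwa [h2] at h1
  rcases hm0.eq_or_lt with h0 | h0
  · rw [← h0, Real.sqrt_zero, zero_mul]
    by_contra hcon
    rw [not_le] at hcon
    have := key (b / a)
    rw [← h0] at this
    have h3 : b / a * a = b := div_mul_cancel₀ _ hcon.ne'
    have hb0 := key 0
    have := key ((b + 1) / a)
    rw [← h0] at this
    have h4 : (b + 1) / a * a = b + 1 := div_mul_cancel₀ _ hcon.ne'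
    nlinarith
  · have h1 := key (a / m)
    rw [← Real.sqrt_mul hm0]
    apply Real.le_sqrt_of_sq_le
    have h2 : a / m * m = a := div_mul_cancel₀ _ h0.ne'
    have h3 : (a / m) ^ 2 * m = a / m * a := by rw [sq, mul_assoc, h2]
    rw [h3] at h1
    have h4 : a / m * a ≤ b := by linarith
    have h5 : a ^ 2 = (a / m * a) * m := by
      rw [mul_right_comm, h2]; ring
    rw [h5, mul_comm m b]
    exact mul_le_mul_of_nonneg_right h4 h0.le

theorem tendsto_L1 {S K : Set E3} (hK : IsCompact K) (hSK : S ⊆ K) (f : ℕ → E3 → ℝ)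
    (hf : ∀ n, MemLp (f n) 2 (volume.restrict K))
    (h : Tendsto (fun n => ∫ x in K, f n x ^ 2) atTop (𝓝 0)) :
    Tendsto (fun n => ∫ x in S, |f n x|) atTop (𝓝 0) := by
  have : IsFiniteMeasure (volume.restrict K) := isFiniteMeasure_restrict.2 hK.measure_lt_top.ne
  have h1 : Tendsto (fun n => Real.sqrt ((volume.restrict K).real Set.univ) *
      Real.sqrt (∫ x in K, f n x ^ 2)) atTop (𝓝 0) := by
    have := (Real.continuous_sqrt.tendsto 0).comp h
    rw [Real.sqrt_zero] at this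
    have h2 := this.const_mul (Real.sqrt ((volume.restrict K).real Set.univ))
    rw [mul_zero] at h2
    exact h2
  refine squeeze_zero (fun n => integral_nonneg fun x => abs_nonneg _) (fun n => ?_) h1
  have h2 : MemLp (fun x => |f n x|) 2 (volume.restrict K) := (hf n).abs
  have h3 := cs (volume.restrict K) h2
  have h4 : ∫ x in K, |f n x| ^ 2 = ∫ x in K, f n x ^ 2 := by
    apply integral_congr_ae
    filter_upwards with x
    exact sq_abs _
  rw [h4] at h3
  refine le_trans ?_ h3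
  exact setIntegral_mono_set (h2.integrable (by norm_num))
    (Eventually.of_forall fun x => abs_nonneg _) (LE.le.eventuallyLE hSK)

theorem tendsto_int {ι : Type} [Fintype ι] {S K : Set E3} (hK : IsCompact K) (hSK : S ⊆ K)
    (f : ℕ → ι → E3 → ℝ) (hf : ∀ n i, MemLp (f n i) 2 (volume.restrict K))
    (h : ∀ i, Tendsto (fun n => ∫ x in K, f n i x ^ 2) atTop (𝓝 0))
    (Φ : ℕ → E3 → ℝ) (Ψ : E3 → ℝ) (hΦ : ∀ n, IntegrableOn (Φ n) S) (hΨ : IntegrableOn Ψ S)
    (hb : ∀ n x, |Φ n x - Ψ x| ≤ ∑ i, |f n i x|) :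
    Tendsto (fun n => ∫ x in S, Φ n x) atTop (𝓝 (∫ x in S, Ψ x)) := by
  have : IsFiniteMeasure (volume.restrict K) := isFiniteMeasure_restrict.2 hK.measure_lt_top.ne
  rw [tendsto_iff_dist_tendsto_zero]
  have h1 : Tendsto (fun n => ∑ i, ∫ x in S, |f n i x|) atTop (𝓝 0) := by
    have := tendsto_finsetSum (Finset.univ : Finset ι)
      (fun i _ => tendsto_L1 hK hSK (fun n => f n i) (fun n => hf n i) (h i))
    simpa using this
  refine squeeze_zero (fun n => dist_nonneg) (fun n => ?_) h1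
  have hint : ∀ i, IntegrableOn (fun x => |f n i x|) S := fun i =>
    IntegrableOn.mono_set ((hf n i).abs.integrable (by norm_num)) hSK
  rw [Real.dist_eq, ← integral_sub (hΦ n) hΨ, ← integral_finsetSum _ (fun i _ => hint i)]
  have h2 : |∫ x in S, (Φ n x - Ψ x)| ≤ ∫ x in S, |Φ n x - Ψ x| := abs_integral_le_integral_abs
  refine h2.trans ?_
  have h3 : Integrable (fun x => |Φ n x - Ψ x|) (volume.restrict S) := ((hΦ n).sub hΨ).abs
  have h4 : Integrable (fun x => ∑ i, |f n i x|) (volume.restrict S) :=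
    integrable_finsetSum _ (fun i _ => hint i)
  exact integral_mono h3 h4 (fun x => hb n x)

/-! ### The collar -/

theorem exp_le {τ : ℝ} (h0 : 0 < τ) (h : τ ≤ 1 / 10) :
    Real.exp τ ≤ 1 + 10 / 9 * τ ∧ 1 < Real.exp τ := by
  refine ⟨?_, Real.one_lt_exp_iff.2 h0⟩
  have h1 : 1 - τ ≤ Real.exp (-τ) := by
    have := Real.add_one_le_exp (-τ)
    linarith
  have h2 : Real.exp τ * Real.exp (-τ) = 1 := by rw [← Real.exp_add]; simp
  have h3 := Real.exp_pos τ
  have h4 : Real.exp τ * (1 - τ) ≤ 1 := by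
    have h5 := mul_le_mul_of_nonneg_left h1 h3.le
    rwa [h2] at h5
  nlinarith

theorem isCompact_cAnn (a b : ℝ) : IsCompact (cAnn a b) := by
  have h1 : IsClosed (cAnn a b) := by
    have : cAnn a b = {x : E3 | a ≤ ‖x‖} ∩ {x : E3 | ‖x‖ ≤ b} := by
      ext x; simp [cAnn]
    rw [this]
    exact (isClosed_le continuous_const continuous_norm).inter
      (isClosed_le continuous_norm continuous_const)
  refine IsCompact.of_isClosed_subset (isCompact_closedBall (0 : E3) b) h1 ?_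
  intro x hx
  simpa [Metric.mem_closedBall, dist_zero_right] using hx.2

theorem vol_collar {τ : ℝ} (h0 : 0 < τ) (h : τ ≤ 1 / 10) :
    volume.real (cAnn 1 (Real.exp τ)) ≤ 5 * τ * volume.real (Metric.ball (0 : E3) 1) := by
  obtain ⟨h1, h2⟩ := exp_le h0 h
  set y := Real.exp τ with hy
  have e1 : cAnn 1 y = Metric.closedBall (0 : E3) y \ Metric.ball 0 1 := by
    ext x
    simp only [cAnn, Set.mem_ofPred_eq, Set.mem_sdiff, Metric.mem_closedBall, dist_zero_right,
      Metric.mem_ball, not_lt]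
    tauto
  have e2 : volume.real (Metric.closedBall (0 : E3) y) =
      y ^ 3 * volume.real (Metric.ball (0 : E3) 1) := by
    have := Measure.addHaar_closedBall (volume : Measure E3) 0 (by linarith : (0 : ℝ) ≤ y)
    unfold Measure.real
    rw [this, finrank_euclideanSpace_fin, ENNReal.toReal_mul, ENNReal.toReal_ofReal (by positivity)]
  have hsub : Metric.ball (0 : E3) 1 ⊆ Metric.closedBall 0 y :=
    Metric.ball_subset_closedBall.trans (Metric.closedBall_subset_closedBall h2.le)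
  have hfin : volume (Metric.closedBall (0 : E3) y) ≠ ⊤ :=
    (isCompact_closedBall (0 : E3) y).measure_lt_top.ne
  rw [e1, measureReal_sdiff hsub measurableSet_ball hfin, e2]
  have hB : 0 ≤ volume.real (Metric.ball (0 : E3) 1) := measureReal_nonneg
  have h3 : y ^ 3 - 1 ≤ 5 * τ := by
    have h4 : y ^ 3 - 1 = (y - 1) * (y ^ 2 + y + 1) := by ring
    have h5 : y ≤ 10 / 9 := by linarith
    have h6 : y ^ 2 + y + 1 ≤ 4 := by nlinarith
    rw [h4]
    have h7 : (y - 1) * (y ^ 2 + y + 1) ≤ (10 / 9 * τ) * 4 := by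
      apply mul_le_mul (by linarith) h6 (by positivity) (by positivity)
    linarith
  nlinarith

theorem contDiff_pd {f : E3 → ℝ} (hf : ContDiff ℝ ∞ f) (i : Fin 3) : ContDiff ℝ ∞ (pd i f) := by
  unfold pd
  exact (hf.fderiv_right (m := ∞) (by simp)).clm_apply contDiff_const

/-! ### Integrability -/

theorem aemeas {S : Set E3} {p : E3 → Cov} (hp : ∀ i, IntegrableOn (fun x => p x i) S) :
    AEMeasurable p (volume.restrict S) :=
  aemeasurable_pi_iff.2 fun i => (hp i).aemeasurable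

theorem int_sum {S : Set E3} {p : E3 → Cov} (hp : ∀ i, IntegrableOn (fun x => p x i) S) :
    IntegrableOn (fun x => ∑ i, |p x i|) S :=
  integrable_finsetSum _ fun i _ => (hp i).abs

theorem int_tan {S : Set E3} {p : E3 → Cov} (hp : ∀ i, IntegrableOn (fun x => p x i) S) :
    IntegrableOn (fun x => tanP x (p x)) S := by
  refine Integrable.mono' (int_sum hp) ?_ ?_
  · exact (measurable_tanP.comp_aemeasurable
      (aemeasurable_id.prodMk (aemeas hp))).aestronglyMeasurable
  · filter_upwards with x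
    rw [Real.norm_eq_abs, abs_of_nonneg (show 0 ≤ tanP x (p x) from vsz_nonneg _)]
    exact (tanP_le x _).trans (vsz_le _)

theorem int_neg {S : Set E3} {p : E3 → Cov} (hp : ∀ i, IntegrableOn (fun x => p x i) S) :
    IntegrableOn (fun x => negP x (-p x)) S := by
  refine Integrable.mono' (int_sum hp) ?_ ?_
  · exact (measurable_negP.comp_aemeasurable
      (aemeasurable_id.prodMk (aemeas hp).neg)).aestronglyMeasurable
  · filter_upwards with x
    have h1 := negP_sub x (-p x) 0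
    have h2 : negP x 0 = 0 := by simp [negP]
    rw [h2, sub_zero] at h1
    rw [Real.norm_eq_abs]
    refine h1.trans (le_of_eq ?_)
    apply Finset.sum_congr rfl
    intro i _
    simp

theorem int_vsz {S : Set E3} {p : E3 → Cov} (hp : ∀ i, IntegrableOn (fun x => p x i) S) :
    IntegrableOn (fun x => vsz (p x)) S := by
  refine Integrable.mono' (int_sum hp) ?_ ?_
  · exact (measurable_vsz.comp_aemeasurable (aemeas hp)).aestronglyMeasurable
  · filter_upwards with x
    rw [Real.norm_eq_abs, abs_of_nonneg (vsz_nonneg _)]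
    exact vsz_le _

theorem aemeas_msz {S : Set E3} {B : E3 → Bil} (hB : ∀ i j, AEMeasurable (fun x => B x i j)
    (volume.restrict S)) : AEMeasurable (fun x => msz (B x)) (volume.restrict S) := by
  have h1 : AEMeasurable (fun x => (fun i j => B x i j : Fin 3 → Fin 3 → ℝ))
      (volume.restrict S) :=
    aemeasurable_pi_iff.2 fun i => aemeasurable_pi_iff.2 fun j => hB i j
  exact measurable_msz.comp_aemeasurable h1

theorem int_msz {S : Set E3} {B : E3 → Bil} (hB : ∀ i j, IntegrableOn (fun x => B x i j) S) :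
    IntegrableOn (fun x => msz (B x)) S := by
  have hs : IntegrableOn (fun x => ∑ z : Fin 3 × Fin 3, |B x z.1 z.2|) S :=
    integrable_finsetSum _ fun z _ => (hB z.1 z.2).abs
  refine Integrable.mono' hs ?_ ?_
  · exact (aemeas_msz fun i j => (hB i j).aemeasurable).aestronglyMeasurable
  · filter_upwards with x
    rw [Real.norm_eq_abs, abs_of_nonneg (msz_nonneg _)]
    have h1 := msz_sub (B x) 0
    have h2 : msz 0 = 0 := by simp [msz]
    rw [h2, sub_zero, abs_of_nonneg (msz_nonneg _)] at h1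
    refine h1.trans (le_of_eq ?_)
    apply Finset.sum_congr rfl
    intro z _
    simp

end COLEaux

open COLEaux in
/-- **COLE**: the gradient in the collar. -/
theorem COLE (hHXRAY : Stmt_HXRAY) (hHXTR : Stmt_HXTR) (hHXANTI : Stmt_HXANTI) : Stmt_COLE := by
  set vB := volume.real (Metric.ball (0 : E3) 1) with hvB
  set vK := volume.real (cAnn 1 (4 / 3)) with hvK
  have hvB0 : 0 ≤ vB := measureReal_nonneg
  have hvK0 : 0 ≤ vK := measureReal_nonneg
  refine ⟨4 * Real.sqrt (5 * vB) + 100 * Real.sqrt (2 * vK) + 1, by positivity, ?_⟩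
  intro u G M A hH hanti hle hA τ hτ0 hτ1
  obtain ⟨-, v, hv, hv1, hvu, hvG, hvM⟩ := hHXANTI u G M hH hanti
  obtain ⟨hy1, hy2⟩ := exp_le hτ0 hτ1
  set K := cAnn (3 / 4) (4 / 3) with hKdef
  have hK : IsCompact K := isCompact_cAnn _ _
  have hKsub : K ⊆ Ann (1 / 2) 2 := fun x hx => ⟨by linarith [hx.1], by linarith [hx.2]⟩
  have : IsFiniteMeasure (volume.restrict K) := isFiniteMeasure_restrict.2 hK.measure_lt_top.ne
  have hG : ∀ i, MemLp (fun x => G x i) 2 (volume.restrict K) := hH.memG K hK hKsub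
  have hM : ∀ i j, MemLp (fun x => M x i j) 2 (volume.restrict K) := hH.memM K hK hKsub
  have hgc : ∀ n i, Continuous (pd i (v n)) := fun n i => (contDiff_pd (hv n) i).continuous
  have hhc : ∀ n i j, Continuous (pd i (pd j (v n))) := fun n i j =>
    (contDiff_pd (contDiff_pd (hv n) j) i).continuous
  have hcL : ∀ f : E3 → ℝ, Continuous f → MemLp f 2 (volume.restrict K) := by
    intro f hf
    obtain ⟨C, hC⟩ := hK.exists_bound_of_continuousOn hf.continuousOn
    refine MemLp.of_bound hf.aestronglyMeasurable C ?_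
    exact (ae_restrict_iff' hK.measurableSet).2 (Eventually.of_forall fun x hx => hC x hx)
  have hfG : ∀ n i, MemLp (fun x => pd i (v n) x - G x i) 2 (volume.restrict K) := fun n i =>
    (hcL _ (hgc n i)).sub (hG i)
  have hfM : ∀ n (z : Fin 3 × Fin 3),
      MemLp (fun x => pd z.1 (pd z.2 (v n)) x - M x z.1 z.2) 2 (volume.restrict K) := fun n z =>
    (hcL _ (hhc n z.1 z.2)).sub (hM z.1 z.2)
  -- sets
  set S := cAnn 1 (Real.exp τ) with hSdef
  set S' := cAnn 1 (4 / 3) with hS'def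
  have hS'K : S' ⊆ K := fun x hx => ⟨by linarith [hx.1], hx.2⟩
  have hSS' : S ⊆ S' := fun x hx => ⟨hx.1, by linarith [hx.2]⟩
  have hSK : S ⊆ K := hSS'.trans hS'K
  -- integrability on `K`
  have hGi : ∀ i, IntegrableOn (fun x => G x i) K := fun i => (hG i).integrable (by norm_num)
  have hMi : ∀ i j, IntegrableOn (fun x => M x i j) K := fun i j =>
    (hM i j).integrable (by norm_num)
  have hgi : ∀ n i, IntegrableOn (fun x => grad (v n) x i) K := fun n i =>
    (hgc n i).continuousOn.integrableOn_compact hK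
  have hhi : ∀ n i j, IntegrableOn (fun x => hess2 (v n) x i j) K := fun n i j =>
    (hhc n i j).continuousOn.integrableOn_compact hK
  -- limits
  have T1 : Tendsto (fun n => ∫ x in S, tanP x (grad (v n) x)) atTop
      (𝓝 (∫ x in S, tanP x (G x))) :=
    tendsto_int hK hSK (fun n i x => pd i (v n) x - G x i) hfG hvG _ _
      (fun n => (int_tan (hgi n)).mono_set hSK) ((int_tan hGi).mono_set hSK)
      (fun n x => tanP_sub x _ _)
  have T2 : ∀ T : Set E3, T ⊆ K → Tendsto (fun n => ∫ x in T, negP x (-grad (v n) x)) atTop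
      (𝓝 (∫ x in T, negP x (-G x))) := fun T hT =>
    tendsto_int hK hT (fun n i x => pd i (v n) x - G x i) hfG hvG _ _
      (fun n => (int_neg (hgi n)).mono_set hT) ((int_neg hGi).mono_set hT)
      (fun n x => (negP_sub x _ _).trans (le_of_eq (by
        apply Finset.sum_congr rfl
        intro i _
        show |-(pd i (v n) x) - -(G x i)| = |pd i (v n) x - G x i|
        rw [← neg_sub', abs_neg])))
  have T3 : ∀ T : Set E3, T ⊆ K → Tendsto (fun n => ∫ x in T, vsz (grad (v n) x)) atTop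
      (𝓝 (∫ x in T, vsz (G x))) := fun T hT =>
    tendsto_int hK hT (fun n i x => pd i (v n) x - G x i) hfG hvG _ _
      (fun n => (int_vsz (hgi n)).mono_set hT) ((int_vsz hGi).mono_set hT)
      (fun n x => (vsz_sub _ _).trans (vsz_le _))
  have T4 : ∀ T : Set E3, T ⊆ K → Tendsto (fun n => ∫ x in T, msz (hess2 (v n) x)) atTop
      (𝓝 (∫ x in T, msz (M x))) := fun T hT =>
    tendsto_int hK hT (fun n (z : Fin 3 × Fin 3) x => pd z.1 (pd z.2 (v n)) x - M x z.1 z.2)
      hfM (fun z => hvM z.1 z.2) _ _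
      (fun n => (int_msz (hhi n)).mono_set hT) ((int_msz hMi).mono_set hT)
      (fun n x => msz_sub _ _)
  -- the squares
  have hsqG : ∀ x, vsz (G x) ^ 2 = ∑ i, G x i ^ 2 := fun x =>
    Real.sq_sqrt (Finset.sum_nonneg fun _ _ => sq_nonneg _)
  have hsqM : ∀ x, msz (M x) ^ 2 = ∑ i, ∑ j, M x i j ^ 2 := fun x =>
    Real.sq_sqrt (Finset.sum_nonneg fun _ _ => Finset.sum_nonneg fun _ _ => sq_nonneg _)
  have hiG2 : IntegrableOn (fun x => vsz (G x) ^ 2) K := by
    simp only [hsqG]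
    exact integrable_finsetSum _ fun i _ => (hG i).integrable_sq
  have hiM2 : IntegrableOn (fun x => msz (M x) ^ 2) K := by
    simp only [hsqM]
    exact integrable_finsetSum _ fun i _ => integrable_finsetSum _ fun j _ =>
      (hM i j).integrable_sq
  have hLG : MemLp (fun x => vsz (G x)) 2 (volume.restrict K) :=
    (memLp_two_iff_integrable_sq (int_vsz hGi).aestronglyMeasurable).2 hiG2
  have hLM : MemLp (fun x => msz (M x)) 2 (volume.restrict K) :=
    (memLp_two_iff_integrable_sq (int_msz hMi).aestronglyMeasurable).2 hiM2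
  have hAint : IntegrableOn (fun x => vsz (G x) ^ 2 + msz (M x) ^ 2) K := hiG2.add hiM2
  have hA0 : 0 ≤ A := le_trans (integral_nonneg fun x => by positivity) hA
  have hbd : ∀ (T : Set E3), MeasurableSet T → T ⊆ K → ∀ f : E3 → ℝ, ∀ c : ℝ, 0 ≤ c →
      MemLp f 2 (volume.restrict K) → (∀ x, f x ^ 2 ≤ c * (vsz (G x) ^ 2 + msz (M x) ^ 2)) →
      ∫ x in T, f x ≤ Real.sqrt (volume.real T) * Real.sqrt (c * A) := by
    intro T hTm hT f c hc hf hfc
    have hfT : MemLp f 2 (volume.restrict T) := hf.mono_measure (Measure.restrict_mono hT le_rfl)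
    have : IsFiniteMeasure (volume.restrict T) :=
      isFiniteMeasure_restrict.2 ((measure_mono hT).trans_lt hK.measure_lt_top).ne
    have h1 := cs (volume.restrict T) hfT
    have h2 : (volume.restrict T).real Set.univ = volume.real T := by
      simp [Measure.real]
    rw [h2] at h1
    refine h1.trans ?_
    apply mul_le_mul_of_nonneg_left _ (Real.sqrt_nonneg _)
    apply Real.sqrt_le_sqrt
    have h3 : ∫ x in T, f x ^ 2 ≤ ∫ x in K, c * (vsz (G x) ^ 2 + msz (M x) ^ 2) := by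
      refine (setIntegral_mono_set hf.integrable_sq
        (Eventually.of_forall fun x => sq_nonneg _) (LE.le.eventuallyLE hT)).trans ?_
      exact integral_mono hf.integrable_sq (hAint.const_mul c) hfc
    refine h3.trans ?_
    rw [integral_const_mul]
    exact mul_le_mul_of_nonneg_left hA hc
  have hSm : MeasurableSet S := (isCompact_cAnn _ _).measurableSet
  have hS'm : MeasurableSet S' := (isCompact_cAnn _ _).measurableSet
  -- the integral of the second derivatives over the collar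
  have hB : ∫ x in S, msz (M x) ≤ Real.sqrt (5 * vB) * Real.sqrt τ * Real.sqrt A := by
    have h1 := hbd S hSm hSK (fun x => msz (M x)) 1 zero_le_one hLM
      (fun x => by rw [one_mul]; nlinarith [sq_nonneg (vsz (G x))])
    rw [one_mul] at h1
    refine h1.trans ?_
    apply mul_le_mul_of_nonneg_right _ (Real.sqrt_nonneg _)
    rw [← Real.sqrt_mul (by positivity)]
    apply Real.sqrt_le_sqrt
    have := vol_collar hτ0 hτ1
    calc volume.real S ≤ 5 * τ * vB := this
      _ = 5 * vB * τ := by ring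
  have hB' : 4 * τ * (∫ x in S, msz (M x)) ≤
      (4 * Real.sqrt (5 * vB) + 100 * Real.sqrt (2 * vK) + 1) * τ * Real.sqrt τ * Real.sqrt A := by
    have h1 := mul_le_mul_of_nonneg_left hB (by positivity : 0 ≤ 4 * τ)
    have h2 : 0 ≤ τ * Real.sqrt τ * Real.sqrt A := by positivity
    have h3 : 0 ≤ Real.sqrt (2 * vK) := Real.sqrt_nonneg _
    nlinarith [mul_nonneg h3 h2]
  refine ⟨(int_tan hGi).mono_set hSK, (int_neg hGi).mono_set hSK, (int_vsz hGi).mono_set hSK,
    ?_, ?_, ?_⟩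
  · -- tangential part
    refine le_trans ?_ hB'
    exact le_of_tendsto_of_tendsto' T1 ((T4 S hSK).const_mul (4 * τ))
      (fun n => (hHXRAY (v n) τ (hv n) (hv1 n) hτ0 hτ1).1)
  · -- radial part
    refine le_trans ?_ hB'
    have key : ∀ δ : ℝ, 0 < δ → δ < τ →
        ∫ x in cAnn (Real.exp δ) (Real.exp τ), negP x (-G x) ≤ 4 * τ * (∫ x in S, msz (M x)) := by
      intro δ hδ0 hδτ
      have hδ1 : 1 < Real.exp δ := Real.one_lt_exp_iff.2 hδ0
      set T := cAnn (Real.exp δ) (Real.exp τ) with hTdef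
      have hTS : T ⊆ S := fun x hx => ⟨by linarith [hx.1], hx.2⟩
      have hTK : T ⊆ K := hTS.trans hSK
      have hTfin : volume T < ⊤ := (isCompact_cAnn _ _).measure_lt_top
      have h0 : Tendsto (fun n => ∫ x in T, max ((v n x - 1) / (‖x‖ - 1)) 0) atTop (𝓝 0) := by
        rw [Metric.tendsto_atTop]
        intro e he
        set w := volume.real T with hw
        have hw0 : 0 ≤ w := measureReal_nonneg
        set e' := e * (Real.exp δ - 1) / (2 * (w + 1)) with he'
        have he'0 : 0 < e' := by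
          apply div_pos (mul_pos he (by linarith)) (by linarith)
        have h1 := Metric.tendstoUniformlyOn_iff.1 hvu e' he'0
        obtain ⟨N, hN⟩ := eventually_atTop.1 h1
        refine ⟨N, fun n hn => ?_⟩
        rw [Real.dist_eq, sub_zero]
        have h2 : ∀ x ∈ T, ‖max ((v n x - 1) / (‖x‖ - 1)) 0‖ ≤ e' / (Real.exp δ - 1) := by
          intro x hx
          have h3 := hN n hn x (hTK hx)
          rw [Real.dist_eq, abs_lt] at h3
          have h4 : u x ≤ 1 := hle x (hTS hx).1 (by linarith [hx.2])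
          have h5 : Real.exp δ - 1 ≤ ‖x‖ - 1 := by linarith [hx.1]
          rw [Real.norm_eq_abs, abs_of_nonneg (le_max_right _ _)]
          apply max_le
          · have h6 : (v n x - 1) / (‖x‖ - 1) ≤ e' / (‖x‖ - 1) :=
              div_le_div_of_nonneg_right (by linarith [h3.1]) (by linarith)
            exact h6.trans (div_le_div_of_nonneg_left he'0.le (by linarith) h5)
          · exact div_nonneg he'0.le (by linarith)
        have h3 := norm_setIntegral_le_of_norm_le_const hTfin h2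
        rw [Real.norm_eq_abs] at h3
        refine lt_of_le_of_lt h3 ?_
        have h4 : e' / (Real.exp δ - 1) * w = e * (w / (2 * (w + 1))) := by
          rw [he']
          have h5 : Real.exp δ - 1 ≠ 0 := by linarith
          field_simp
        show e' / (Real.exp δ - 1) * w < e
        rw [h4]
        have h5 : w / (2 * (w + 1)) < 1 := by
          rw [div_lt_one (by linarith)]
          linarith
        nlinarith
      have h1 := h0.add ((T4 S hSK).const_mul (4 * τ))
      rw [zero_add] at h1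
      exact le_of_tendsto_of_tendsto' (T2 T hTK) h1
        (fun n => (hHXRAY (v n) τ (hv n) (hv1 n) hτ0 hτ1).2 δ hδ0 hδτ)
    -- exhaustion
    set s : ℕ → Set E3 := fun n => cAnn (Real.exp (τ / (n + 2))) (Real.exp τ) with hs
    have hsm : ∀ n, MeasurableSet (s n) := fun n => (isCompact_cAnn _ _).measurableSet
    have hmono : Monotone s := by
      intro m n hmn x hx
      refine ⟨le_trans ?_ hx.1, hx.2⟩
      apply Real.exp_le_exp.2
      apply div_le_div_of_nonneg_left hτ0.le (by positivity)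
      have : (m : ℝ) ≤ n := by exact_mod_cast hmn
      linarith
    have hU : (⋃ n, s n) = S \ Metric.sphere 0 1 := by
      ext x
      constructor
      · intro hx
        obtain ⟨n, hn⟩ := Set.mem_iUnion.1 hx
        have h1 : 1 < Real.exp (τ / (n + 2)) := Real.one_lt_exp_iff.2 (by positivity)
        have h2 : 1 < ‖x‖ := lt_of_lt_of_le h1 hn.1
        refine ⟨⟨h2.le, hn.2⟩, ?_⟩
        rw [mem_sphere_zero_iff_norm]
        exact h2.ne'
      · rintro ⟨hx, hx1⟩
        rw [mem_sphere_zero_iff_norm] at hx1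
        have h2 : 1 < ‖x‖ := lt_of_le_of_ne hx.1 (Ne.symm hx1)
        have h3 : 0 < Real.log ‖x‖ := Real.log_pos h2
        obtain ⟨n, hn⟩ := exists_nat_gt (τ / Real.log ‖x‖)
        apply Set.mem_iUnion.2
        refine ⟨n, ?_, hx.2⟩
        rw [← Real.le_log_iff_exp_le (by linarith), div_le_iff₀ (by positivity)]
        rw [div_lt_iff₀ h3] at hn
        nlinarith
    have hUae : (⋃ n, s n) =ᵐ[volume] S := by
      rw [hU]
      apply sdiff_null_ae_eq_self
      exact Measure.addHaar_sphere _ _ _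
    have hint : IntegrableOn (fun x => negP x (-G x)) (⋃ n, s n) := by
      rw [hU]
      exact ((int_neg hGi).mono_set hSK).mono_set Set.sdiff_subset
    have hlim := tendsto_setIntegral_of_monotone hsm hmono hint
    rw [setIntegral_congr_set hUae] at hlim
    refine le_of_tendsto' hlim (fun n => key _ (by positivity) ?_)
    apply div_lt_self hτ0
    have : (0 : ℝ) ≤ n := by positivity
    linarith
  · -- all derivatives
    have h1 : Tendsto (fun n => ∫ x in S', (vsz (grad (v n) x) + msz (hess2 (v n) x))) atTop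
        (𝓝 (∫ x in S', (vsz (G x) + msz (M x)))) := by
      have h2 := (T3 S' hS'K).add (T4 S' hS'K)
      rw [← integral_add ((int_vsz hGi).mono_set hS'K) ((int_msz hMi).mono_set hS'K)] at h2
      refine h2.congr fun n => ?_
      rw [← integral_add ((int_vsz (hgi n)).mono_set hS'K) ((int_msz (hhi n)).mono_set hS'K)]
    have h2 : ∫ x in S, vsz (G x) ≤ 100 * τ * (∫ x in S', (vsz (G x) + msz (M x))) :=
      le_of_tendsto_of_tendsto' (T3 S hSK) (h1.const_mul (100 * τ))
        (fun n => hHXTR (v n) τ (hv n) hτ0 hτ1)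
    have h3 := hbd S' hS'm hS'K (fun x => vsz (G x) + msz (M x)) 2 zero_le_two (hLG.add hLM)
      (fun x => by nlinarith [sq_nonneg (vsz (G x) - msz (M x))])
    have h4 : Real.sqrt (volume.real S') * Real.sqrt (2 * A) =
        Real.sqrt (2 * vK) * Real.sqrt A := by
      rw [← Real.sqrt_mul hvK0, ← Real.sqrt_mul (by positivity)]
      congr 1
      ring
    rw [h4] at h3
    have h5 := mul_le_mul_of_nonneg_left h3 (by positivity : 0 ≤ 100 * τ)
    have h6 : 0 ≤ τ * Real.sqrt A := by positivity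
    have h7 : 0 ≤ Real.sqrt (5 * vB) := Real.sqrt_nonneg _
    refine h2.trans (h5.trans ?_)
    nlinarith [mul_nonneg h7 h6]

end Pool.Agent.PFlow.HX


end

section

/-!
# HXBT: the boundary term has a sign
-/

open MeasureTheory Filter Topology
open scoped ContDiff ENNReal

namespace Pool.Agent.PFlow.HX

open Pool.Agent.PenroseSph

namespace HXBTaux

theorem isOpen_Ann (a b : ℝ) : IsOpen (Ann a b) :=
  (isOpen_lt continuous_const continuous_norm).inter (isOpen_lt continuous_norm continuous_const)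

/-- the derivative of an even function about `1` -/
theorem deriv_odd {L : ℝ → ℝ} (hL : ∀ t, L (2 - t) = L t) (t : ℝ) :
    deriv L (2 - t) = -deriv L t := by
  have h1 : deriv (fun s => L (2 - s)) t = -deriv L (2 - t) := deriv_comp_const_sub L 2 t
  have h2 : (fun s => L (2 - s)) = L := funext hL
  rw [h2] at h1
  linarith

/-- the derivatives of the rise -/
theorem deriv2 {ε σ : ℝ} {L lam : ℝ → ℝ} (hε : 0 < ε) (hR : Rise ε σ L lam) (s : ℝ) :
    ε * deriv (deriv lam) s = -(deriv L (Real.exp (-s / ε)) * Real.exp (-s / ε) ^ 3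
      + 2 * (L (Real.exp (-s / ε)) * Real.exp (-s / ε) ^ 2)) / ε ^ 2 := by
  have h0 : deriv lam = fun s => L (Real.exp (-s / ε)) * Real.exp (-s / ε) ^ 2 / ε ^ 2 :=
    funext hR.deriv
  have h1 : HasDerivAt (fun s : ℝ => Real.exp (-s / ε)) (Real.exp (-s / ε) * (-1 / ε)) s := by
    have h2 : HasDerivAt (fun s : ℝ => -s / ε) (-1 / ε) s := by
      have := ((hasDerivAt_id s).neg).div_const ε
      simpa using this
    exact h2.exp
  have h3 : HasDerivAt L (deriv L (Real.exp (-s / ε))) (Real.exp (-s / ε)) :=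
    (hR.smoothL.differentiable (by simp) _).hasDerivAt
  have h4 : HasDerivAt (fun s : ℝ => L (Real.exp (-s / ε)))
      (deriv L (Real.exp (-s / ε)) * (Real.exp (-s / ε) * (-1 / ε))) s := h3.comp s h1
  have h5 := (h4.mul (h1.pow 2)).div_const (ε ^ 2)
  have h6 : HasDerivAt (deriv lam) (-(deriv L (Real.exp (-s / ε)) * Real.exp (-s / ε) ^ 3
      + 2 * (L (Real.exp (-s / ε)) * Real.exp (-s / ε) ^ 2)) / (ε * ε ^ 2)) s := by
    rw [h0]
    refine h5.congr_deriv ?_
    simp only [Pi.pow_apply]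
    push_cast
    field_simp
    ring
  rw [h6.deriv]
  field_simp

/-- the identity at a point -/
theorem point {ε σ : ℝ} {g h : TensorField} {x : E3} {u : E3 → ℝ} {G : E3 → Cov} {L lam : ℝ → ℝ}
    (hε : 0 < ε) (hu : 0 < u x) (hR : Rise ε σ L lam) :
    Real.exp (-wOf ε u x / ε) = u x ∧
    deriv lam (wOf ε u x) = L (u x) * u x ^ 2 / ε ^ 2 ∧
    deriv lam (wOf ε u x) + ε * deriv (deriv lam) (wOf ε u x)
      = -(deriv L (u x) * u x ^ 3 + L (u x) * u x ^ 2) / ε ^ 2 ∧
    len g x (G x) = u x / ε * len g x (gOf ε u G x) ∧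
    beps ε g x (gOf ε u G x) (h x) = beps ε g x (G x) (h x) ∧
    btan g x (gOf ε u G x) (h x) = btan g x (G x) (h x) := by
  have e1 : Real.exp (-wOf ε u x / ε) = u x := by
    unfold wOf
    have : -(-ε * Real.log (u x)) / ε = Real.log (u x) := by
      field_simp
    rw [this, Real.exp_log hu]
  have e2 : deriv lam (wOf ε u x) = L (u x) * u x ^ 2 / ε ^ 2 := by
    rw [hR.deriv, e1]
  have hc : -ε / u x < 0 := div_neg_of_neg_of_pos (by linarith) hu
  have e4 : gOf ε u G x = fun i => -ε / u x * G x i := by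
    funext i
    unfold gOf
    ring
  refine ⟨e1, e2, ?_, ?_, ?_, ?_⟩
  · have e3 := deriv2 hε hR (wOf ε u x)
    rw [e1] at e3
    rw [e2, e3]
    ring
  · rw [e4, RADN.len_smul, abs_of_neg hc]
    field_simp
  · rw [e4, RADN.beps_smul ε g x hc]
  · unfold btan
    rw [e4, RADN.bnn_smul g x hc]

theorem tsupport_sub {ε σ : ℝ} {L lam : ℝ → ℝ} (hR : Rise ε σ L lam) {s : ℝ}
    (hs : s ∈ tsupport (deriv lam)) : |Real.exp (-s / ε) - 1| ≤ σ := by
  have hcl : IsClosed {s : ℝ | |Real.exp (-s / ε) - 1| ≤ σ} := by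
    refine isClosed_le ?_ continuous_const
    fun_prop
  refine closure_minimal (fun t ht => ?_) hcl hs
  by_contra hcon
  have h1 : L (Real.exp (-t / ε)) = 0 := hR.suppL _ (not_le.mp hcon)
  exact ht (by rw [hR.deriv, h1]; ring)

theorem derivL_zero {ε σ : ℝ} {L lam : ℝ → ℝ} (hR : Rise ε σ L lam) {t : ℝ}
    (ht : σ < |t - 1|) : deriv L t = 0 := by
  have hop : IsOpen {t : ℝ | σ < |t - 1|} := by
    refine isOpen_lt continuous_const ?_
    fun_prop
  have h1 : L =ᶠ[𝓝 t] fun _ => (0 : ℝ) := by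
    filter_upwards [hop.mem_nhds ht] with s hs
    exact hR.suppL s hs
  rw [h1.deriv_eq]
  exact deriv_const t (0 : ℝ)

theorem vn_eq (p : Cov) : vn p = vsz p := rfl

/-- the cubic term is integrable -/
theorem cubic_int (hINT : Stmt_INT) (hL4 : Stmt_L4) {ε : ℝ} {U K : Set E3} {g h : TensorField}
    {w : E3 → ℝ} {G : E3 → Cov} {M : E3 → Bil} (hε : 0 < ε) (hε1 : ε < 1) (hU : IsOpen U)
    (hg : MetricOn U g) (hh : TensorOn U h) (hw : H2On U w G M) (hEq : EqW U ε g h G M)
    (hK : IsCompact K) (hKU : K ⊆ U) :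
    IntegrableOn (fun x => len g x (G x) ^ 3 * volDen g x) K := by
  obtain ⟨-, i4, -⟩ := hINT ε U g h w G M hε hε1 hU hg hh hw hEq K hK hKU
  have hGK := (hL4 U w G M hU hw).memG K hK hKU
  have hc := MCF.coef hU hg hh hK hKU
  have mG : ∀ i, AEMeasurable (fun x => G x i) (volume.restrict K) := fun i =>
    (hGK i).aestronglyMeasurable.aemeasurable
  have hvc : ContinuousOn (fun x => volDen g x) K := fun x hx =>
    (MCF.volDen_smooth hU hg (hKU hx)).continuousAt.continuousWithinAt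
  have hvi : IntegrableOn (fun x => volDen g x) K := hvc.integrableOn_compact hK
  refine (hvi.add i4).mono' (((MCF.m_len hc mG).pow_const 3).mul hc.vol).aestronglyMeasurable ?_
  refine (ae_restrict_iff' hK.measurableSet).mpr (Eventually.of_forall fun x hx => ?_)
  have hv : 0 < volDen g x := MCF.volDen_pos hg (hKU hx)
  have hl : 0 ≤ len g x (G x) := Real.sqrt_nonneg _
  rw [Real.norm_eq_abs, abs_of_nonneg (by positivity)]
  simp only [Pi.add_apply]
  have h3 : len g x (G x) ^ 3 ≤ 1 + len g x (G x) ^ 4 := by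
    rcases le_total (len g x (G x)) 1 with h1 | h1
    · have := pow_le_one₀ hl h1 (n := 3)
      have := pow_nonneg hl 4
      linarith
    · have : len g x (G x) ^ 3 ≤ len g x (G x) ^ 4 := pow_le_pow_right₀ h1 (by norm_num)
      linarith
  calc len g x (G x) ^ 3 * volDen g x ≤ (1 + len g x (G x) ^ 4) * volDen g x :=
        mul_le_mul_of_nonneg_right h3 hv.le
    _ = _ := by ring

end HXBTaux

open HXBTaux in
/-- HXBT: the boundary term has a sign. -/
theorem HXBT (hHXSYM : Stmt_HXSYM) (hXID : Stmt_XID) (hLOGW : Stmt_LOGW) (hINT : Stmt_INT)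
    (hL4 : Stmt_L4) : Stmt_HXBT := by
  intro ε R σ g h u G M L lam hε hε2 hR hσ hσ2 hg hh hMir hS hpos hloc hRise
  have hε1 : ε < 1 := by linarith
  set U := Ann (1 / 2) R with hUdef
  set K := cAnn (2 / 3) (3 / 2) with hKdef
  have hU : IsOpen U := isOpen_Ann _ _
  have hgU : MetricOn U g := ⟨fun i j => (hg.smooth i j).mono (Set.subset_univ _),
    fun x _ => hg.posDef x (Set.mem_univ x)⟩
  have hhU : TensorOn U h := ⟨fun i j => (hh.smooth i j).mono (Set.subset_univ _),
    fun x _ => hh.symm x (Set.mem_univ x)⟩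
  obtain ⟨hw, hEq, -⟩ := hLOGW ε U g h u G M hε hε1 hU hgU hhU hS.h2 hpos hS.eq
  have hK : IsCompact K := by
    have h1 : K = Metric.closedBall (0 : E3) (3 / 2) ∩ {x : E3 | 2 / 3 ≤ ‖x‖} := by
      ext x
      simp only [hKdef, cAnn, Set.mem_ofPred_eq, Set.mem_inter_iff, mem_closedBall_zero_iff]
      tauto
    rw [h1]
    exact (isCompact_closedBall _ _).inter_right (isClosed_le continuous_const continuous_norm)
  have hA2 : Ann (1 / 2) 2 ⊆ U := fun x hx => ⟨hx.1, lt_of_lt_of_le hx.2 (by linarith)⟩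
  have hKA : K ⊆ Ann (1 / 2) 2 := fun x hx =>
    ⟨lt_of_lt_of_le (by norm_num) hx.1, lt_of_le_of_lt hx.2 (by norm_num)⟩
  have hKU : K ⊆ U := hKA.trans hA2
  have hpt := fun (x : E3) (hx : x ∈ U) => point (g := g) (h := h) (G := G) (u := u) (x := x)
    hε (hpos x hx) hRise
  have hx1 := hXID ε (1 / 2) R g h (wOf ε u) (gOf ε u G) (mOf ε u G M) hε hε1 (by norm_num)
    (by linarith) hgU hhU hw hEq (fun K' hK' hK'U =>
      (hINT ε U g h _ _ _ hε hε1 hU hgU hhU hw hEq K' hK' hK'U).1) (deriv lam) K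
    ((hRise.smooth.iterate_deriv 1).of_le (by norm_cast)) hK hKU (fun x hx hs => by
      have h1 := tsupport_sub hRise hs
      rw [(hpt x hx).1] at h1
      exact hloc x hx h1)
  rw [hx1]
  -- zero outside
  have hout : ∀ x ∈ U, x ∉ K → σ < |u x - 1| := fun x hx hxK => by
    by_contra hcon
    exact hxK (hloc x hx (not_lt.mp hcon))
  obtain ⟨hs1, hs2⟩ := hHXSYM ε g h u G M hg hh hMir
    ⟨hS.h2.cont.mono hA2, fun K' hK' hK'U => hS.h2.memG K' hK' (hK'U.trans hA2),
      fun K' hK' hK'U => hS.h2.memM K' hK' (hK'U.trans hA2),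
      fun K' hK' hK'U => hS.h2.approx K' hK' (hK'U.trans hA2)⟩ hS.refl
  have hA2m : MeasurableSet (Ann (1 / 2) 2) := (isOpen_Ann _ _).measurableSet
  -- the second integral
  have hB : ∫ x in U, deriv lam (wOf ε u x) * len g x (gOf ε u G x) ^ 2
      * (2 / (2 - ε) * beps ε g x (gOf ε u G x) (h x) - btan g x (gOf ε u G x) (h x))
      * volDen g x = 0 := by
    rw [setIntegral_eq_of_subset_of_forall_sdiff_eq_zero hU.measurableSet hA2 fun x hx => by
      have h1 : L (u x) = 0 := hRise.suppL _ (hout x hx.1 fun hc => hx.2 (hKA hc))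
      rw [(hpt x hx.1).2.1, h1]
      ring]
    rw [← hs2 L hRise.even]
    refine setIntegral_congr_fun hA2m fun x hx => ?_
    obtain ⟨-, e2, -, e4, e5, e6⟩ := hpt x (hA2 hx)
    rw [e2, e5, e6, e4]
    field_simp
  rw [hB, add_zero]
  -- the first integral
  have hcub : IntegrableOn (fun x => len g x (gOf ε u G x) ^ 3 * volDen g x) K :=
    cubic_int hINT hL4 hε hε1 hU hgU hhU hw hEq hK hKU
  have hucont : ContinuousOn u K := hS.cont.continuousOn
  have c1 : ContinuousOn (fun x => deriv L (u x) * u x ^ 3) K :=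
    ((hRise.smoothL.continuous_deriv (by simp)).comp_continuousOn hucont).mul (hucont.pow 3)
  have c2 : ContinuousOn (fun x => L (u x) * u x ^ 2) K :=
    (hRise.smoothL.continuous.comp_continuousOn hucont).mul (hucont.pow 2)
  have i1 := hcub.continuousOn_mul c1 hK
  have i2 := hcub.continuousOn_mul c2 hK
  have hA : ∫ x in U, (deriv lam (wOf ε u x) + ε * deriv (deriv lam) (wOf ε u x))
      * len g x (gOf ε u G x) ^ 3 * volDen g x =
      -(1 / ε ^ 2) * ((∫ x in K, deriv L (u x) * u x ^ 3 *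
          (len g x (gOf ε u G x) ^ 3 * volDen g x))
        + ∫ x in K, L (u x) * u x ^ 2 * (len g x (gOf ε u G x) ^ 3 * volDen g x)) := by
    rw [setIntegral_eq_of_subset_of_forall_sdiff_eq_zero hU.measurableSet hKU fun x hx => by
      have h0 := hout x hx.1 hx.2
      rw [(hpt x hx.1).2.2.1, hRise.suppL _ h0, derivL_zero hRise h0]
      ring]
    rw [← integral_add i1 i2, ← integral_const_mul]
    refine setIntegral_congr_fun hK.measurableSet fun x hx => ?_
    obtain ⟨-, -, e3, -⟩ := hpt x (hKU hx)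
    rw [e3]
    ring
  have hI1 : ∫ x in K, deriv L (u x) * u x ^ 3 * (len g x (gOf ε u G x) ^ 3 * volDen g x) = 0 := by
    have h1 : ∫ x in K, deriv L (u x) * u x ^ 3 * (len g x (gOf ε u G x) ^ 3 * volDen g x)
        = ε ^ 3 * ∫ x in K, deriv L (u x) * len g x (G x) ^ 3 * volDen g x := by
      rw [← integral_const_mul]
      refine setIntegral_congr_fun hK.measurableSet fun x hx => ?_
      obtain ⟨-, -, -, e4, -⟩ := hpt x (hKU hx)
      rw [e4]
      field_simp
    have h2 : ∫ x in Ann (1 / 2) 2, deriv L (u x) * len g x (G x) ^ 3 * volDen g x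
        = ∫ x in K, deriv L (u x) * len g x (G x) ^ 3 * volDen g x :=
      setIntegral_eq_of_subset_of_forall_sdiff_eq_zero hA2m hKA fun x hx => by
        rw [derivL_zero hRise (hout x (hA2 hx.1) hx.2)]
        ring
    rw [h1, ← h2, hs1 (deriv L) (deriv_odd hRise.even), mul_zero]
  have hI2 : 0 ≤ ∫ x in K, L (u x) * u x ^ 2 * (len g x (gOf ε u G x) ^ 3 * volDen g x) := by
    refine setIntegral_nonneg hK.measurableSet fun x hx => ?_
    have h1 : 0 ≤ L (u x) := hRise.nonneg _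
    have h2 : 0 ≤ volDen g x := Real.sqrt_nonneg _
    have h3 : 0 ≤ len g x (gOf ε u G x) := Real.sqrt_nonneg _
    positivity
  rw [hA, hI1, zero_add]
  have h2 : 0 < 2 - ε := by linarith
  have h3 : 0 ≤ 1 / (2 - ε) * (1 / ε ^ 2) := by positivity
  have h4 := mul_nonneg h3 hI2
  linarith

end Pool.Agent.PFlow.HX


end

section

/-!
# The mass inequality (i), exterior case
-/

set_option autoImplicit false

open MeasureTheory Filter Topology
open scoped ContDiff ENNReal

namespace Pool.Agent.PFlow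

open Pool.Agent.PenroseSph

namespace XMSIaux

/-- A bounded measurable function of `w` times a function integrable over the level regions. -/
theorem int_mul {Om : Set E3} {w : E3 → ℝ} {a b : ℝ} {f : E3 → ℝ}
    (hf : ∀ s s', a < s → s < s' → s' < b → IntegrableOn f (Om ∩ {x | s ≤ w x ∧ w x ≤ s'}))
    (hw : Measurable w) (hm : MeasurableSet Om) (hlt : a < b) {ψ : ℝ → ℝ} (hc : Continuous ψ)
    (hcs : HasCompactSupport ψ) (hsupp : tsupport ψ ⊆ Set.Ioo a b) :
    IntegrableOn (fun x => ψ (w x) * f x) Om := by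
  obtain ⟨s, s', h1, h2, h3, h4⟩ : ∃ s s', a < s ∧ s < s' ∧ s' < b ∧
      tsupport ψ ⊆ Set.Icc s s' := by
    by_cases hne : (tsupport ψ).Nonempty
    · have hK : IsCompact (tsupport ψ) := hcs
      obtain ⟨p, hp, hpmin⟩ := hK.exists_isLeast hne
      obtain ⟨q, hq, hqmax⟩ := hK.exists_isGreatest hne
      have hp' := hsupp hp
      have hq' := hsupp hq
      have hpq : p ≤ q := hpmin hq
      refine ⟨(a + p) / 2, (q + b) / 2, by linarith [hp'.1], ?_, by linarith [hq'.2], ?_⟩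
      · linarith [hp'.1, hq'.2]
      · intro x hx
        have e1 := hpmin hx
        have e2 := hqmax hx
        exact ⟨by linarith [hp'.1], by linarith [hq'.2]⟩
    · rw [Set.not_nonempty_iff_eq_empty] at hne
      refine ⟨(2 * a + b) / 3, (a + 2 * b) / 3, by linarith, by linarith, by linarith, ?_⟩
      rw [hne]
      exact Set.empty_subset _
  set S : Set E3 := Om ∩ {x | s ≤ w x ∧ w x ≤ s'} with hS
  have hSm : MeasurableSet S :=
    hm.inter ((measurableSet_le measurable_const hw).inter (measurableSet_le hw measurable_const))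
  obtain ⟨C, hC⟩ := hc.bounded_above_of_compact_support hcs
  have hi : IntegrableOn (fun x => ψ (w x) * f x) S := by
    refine Integrable.bdd_mul (c := C) (hf s s' h1 h2 h3)
      (hc.measurable.comp hw).aestronglyMeasurable ?_
    exact Eventually.of_forall fun x => hC _
  have hz : ∀ x ∈ Om \ S, ψ (w x) * f x = 0 := by
    intro x hx
    have hnot : w x ∉ tsupport ψ := fun hmem => hx.2 ⟨hx.1, h4 hmem⟩
    rw [image_eq_zero_of_notMem_tsupport hnot, zero_mul]
  exact hi.of_forall_sdiff_eq_zero hm hz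

theorem cont_msz {δ : ℝ} {k : TensorField} (hk : TensorOn (Outside δ) k) {a : ℝ} (b : ℝ)
    (ha : 1 - δ < a) : ContinuousOn (fun x => msz (k x)) (cAnn a b) := by
  have hsub : cAnn a b ⊆ Outside δ := fun x hx => lt_of_lt_of_le ha hx.1
  unfold msz
  refine ContinuousOn.sqrt ?_
  refine continuousOn_finsetSum _ fun i _ => continuousOn_finsetSum _ fun j _ => ?_
  exact (((hk.smooth i j).continuousOn).mono hsub).pow 2

end XMSIaux

open MSIaux in
theorem XMSI (hXSETW : Stmt_XSETW) (hBETA : Stmt_BETA) (hTSTA : Stmt_TSTA) (hXUPH : Stmt_XUPH)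
    (hXMATL : Stmt_XMATL) : Stmt_XMSI := by
  intro P B B₃
  by_cases hex : ∃ D : DatX, SetupX P D
  swap
  · exact ⟨1, one_pos, fun D hD => absurd ⟨D, hD⟩ hex⟩
  obtain ⟨D₀, hD₀⟩ := hex
  have he0 := hD₀.eps_pos
  have he1 := hD₀.eps_le
  have hC0 := hD₀.C_pos
  have hc0 := hD₀.c_pos
  obtain ⟨β, hβ⟩ := hBETA
  obtain ⟨BU, hBU, hU⟩ := hXUPH P B β hβ
  obtain ⟨BM, hBM, hM⟩ := hXMATL P B
  obtain ⟨CT, hCT, hT⟩ := hTSTA P.eps he0 he1
  set V : ℝ := volume.real (Metric.ball (0 : E3) 1) with hV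
  have hV0 : 0 ≤ V := measureReal_nonneg
  set C := P.C with hCdef
  -- the constant of the weight estimate
  set K : ℝ := (|B₃| + (2 * BU + 2 * |B₃| * (8 * V))) / 2 with hK
  have hK0 : 0 < K := by positivity
  set c₁ : ℝ := 12 * C + 144 * C ^ 2 with hc₁
  have hc₁0 : 0 < c₁ := by positivity
  refine ⟨CT * (1 + |B|) + 1 + BM * (|B₃| + |B₃| * (144 * C ^ 2 * V) + c₁ * K)
    + C * K + BM * BU, by positivity, ?_⟩
  intro D hS hA se lm hCut hLam
  obtain ⟨-, -, -, -, -, -, hw, -, -, -, -, -, -, -, -, -, hs2, hsM, hKR, hlK⟩ := hXSETW P D hS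
  have hl := hS.l_ge
  have hgam := hS.gam_ge
  have hl0 : 0 < D.l := by linarith
  have hlm0 := hLam.nonneg
  have hlmB : lm ≤ |B₃| := hLam.le.trans (le_abs_self _)
  -- the square root of `l`
  set r := Real.sqrt D.l with hr
  have hr0 : 0 < r := Real.sqrt_pos.mpr hl0
  have hr2 : r ^ 2 = D.l := Real.sq_sqrt hl0.le
  have hr1 : 1 ≤ r := by
    rw [hr]
    exact Real.one_le_sqrt.mpr (by linarith)
  have hrl : r ≤ D.l := by
    rw [← hr2]
    exact le_self_pow₀ hr1 (by norm_num)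
  have hrp : D.l ^ (-(1 / 2 : ℝ)) = 1 / r := by
    rw [Real.rpow_neg hl0.le, ← Real.sqrt_eq_rpow, one_div]
  -- nonnegativity
  have hB0 : 0 ≤ B := by
    refine le_trans ?_ (hA.window (D.s2 P) le_rfl (by linarith))
    exact integral_nonneg fun x => mul_nonneg (pow_nonneg (hA.X_nonneg x) 3) (hA.vol_nonneg x)
  have hph : ∀ x, 0 ≤ D.ph P x := fun x => mul_nonneg (Real.exp_pos _).le (hA.X_nonneg x)
  have hth : 0 ≤ D.th := integral_nonneg fun x => div_nonneg (msz_nonneg _) hl0.le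
  have hNd : 0 ≤ D.Nd P := integral_nonneg fun x =>
    mul_nonneg (mul_nonneg (hph x) (hS.modified.defect_nonneg x)) (hA.vol_nonneg x)
  have hCl : 0 ≤ D.Cl P := integral_nonneg fun x =>
    mul_nonneg (mul_nonneg (Real.exp_pos _).le (abs_nonneg _)) (hA.vol_nonneg x)
  have her : 0 ≤ D.er P se := mul_nonneg (Real.exp_pos _).le (Real.exp_pos _).le
  have hOm : MeasurableSet D.Om := hA.measOmega
  have hlt : P.eps / 4 / 4 < D.sM P := by linarith
  -- the test function
  obtain ⟨χ, hχc, hχ01, hχ0, hχ1, -, hχe, hmain⟩ := hT D.Om D.vol (D.w P) (D.X P) (D.Phi P)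
    (D.Di P) (D.Su P) (P.eps / 4) (D.s2 P) (D.sM P) B 0 hA (by linarith) (by linarith)
    (by linarith) hB0 le_rfl se (by linarith [hCut.lower, hS.gam_ge]) hCut.upper
  obtain ⟨hM1, -⟩ := hM D hS hA
  have hMa := hM1 χ se hχc hχ01 hχ1 hCut.upper hχe
  obtain ⟨-, hphI, hphB⟩ := hU D hS hA
  -- integrability of the terms with the test function
  set ψ : ℝ → ℝ := fun s => χ s * Real.exp (s / (2 - P.eps)) with hψ
  have hψc : Continuous ψ := hχc.mul (Real.continuous_exp.comp (continuous_id.div_const _))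
  have hψs : Function.support ψ ⊆ Set.Icc (P.eps / 4 / 2) (se + 1) := by
    intro s hs
    rw [Function.mem_support] at hs
    constructor
    · by_contra hlt'
      push Not at hlt'
      exact hs (by simp only [hψ, hχ0 s hlt'.le, zero_mul])
    · by_contra hlt'
      push Not at hlt'
      exact hs (by simp only [hψ, hχe s hlt'.le, zero_mul])
  have hψt : tsupport ψ ⊆ Set.Icc (P.eps / 4 / 2) (se + 1) := closure_minimal hψs isClosed_Icc
  have hψk : HasCompactSupport ψ := isCompact_Icc.of_isClosed_subset (isClosed_tsupport _) hψt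
  have hψI : tsupport ψ ⊆ Set.Ioo (P.eps / 4 / 4) (D.sM P) := by
    intro s hs
    have := hψt hs
    exact ⟨by linarith [this.1], by linarith [this.2, hCut.upper]⟩
  have hiS := XMSIaux.int_mul hA.int_S hw hOm hlt hψc hψk hψI
  have hiD := XMSIaux.int_mul hA.int_D hw hOm hlt hψc hψk hψI
  have hSD : (∫ x in D.Om, χ (D.w P x) * Real.exp (D.w P x / (2 - P.eps)) * D.Su P x * D.vol x)
      ≤ ∫ x in D.Om, χ (D.w P x) * Real.exp (D.w P x / (2 - P.eps)) * (D.Su P x + D.Di P x / 2)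
        * D.vol x := by
    refine integral_mono_ae ?_ ?_ ?_
    · refine Integrable.congr hiS (Eventually.of_forall fun x => ?_)
      simp only [hψ]
      ring
    · refine (Integrable.add hiS (hiD.div_const 2)).congr (Eventually.of_forall fun x => ?_)
      simp only [hψ, Pi.add_apply]
      ring
    · filter_upwards [hA.D_nonneg] with x hx
      have h1 := (hχ01 (D.w P x)).1
      have h2 := (Real.exp_pos (D.w P x / (2 - P.eps))).le
      have h3 := hA.vol_nonneg x
      refine mul_le_mul_of_nonneg_right (mul_le_mul_of_nonneg_left ?_ (mul_nonneg h1 h2)) h3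
      linarith
  -- inclusions
  have hs1 : cAnn (D.l / 2) D.l ⊆ cAnn (D.l / 2) (D.Kl P) := cAnn_mono le_rfl (by linarith)
  have hs2' : cAnn D.l (2 * D.l) ⊆ cAnn (D.l / 2) (D.Kl P) := cAnn_mono (by linarith) (by linarith)
  have hs3 : cAnn (D.l / 2) (D.Kl P) ⊆ cAnn (D.l / 4) (D.Kl P) := cAnn_mono (by linarith) le_rfl
  -- the weight estimate for a subset
  have key : ∀ (T : Set E3) (q : E3 → ℝ) (c : ℝ), MeasurableSet T →
      T ⊆ cAnn (D.l / 2) (D.Kl P) → T ⊆ cAnn 0 (2 * D.l) →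
      AEStronglyMeasurable q (volume.restrict T) →
      (∀ᵐ x ∂(volume.restrict T), |q x| ≤ c / D.l ^ 3) → 0 ≤ c →
      |(∫ x in T, D.ph P x * q x) - lm * ∫ x in T, q x| ≤ c * K / r := by
    intro T q c hTm hT1 hT2 hq hqb hc
    have h1 : (∫ x in T, (Real.sqrt (D.ph P x) - Real.sqrt lm) ^ 2) ≤ |B₃| * D.l ^ 2 := by
      refine (setIntegral_mono_set hLam.int (Eventually.of_forall fun x => sq_nonneg _)
        (Eventually.of_forall hT1)).trans ?_
      exact hLam.close.trans (mul_le_mul_of_nonneg_right (le_abs_self _) (sq_nonneg _))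
    have h2 : (∫ x in T, D.ph P x) ≤ BU * D.l ^ 3 := by
      refine (setIntegral_mono_set hphI (Eventually.of_forall hph)
        (Eventually.of_forall (hT1.trans hs3))).trans hphB
    have h3 : volume.real T ≤ 8 * V * D.l ^ 3 := by
      refine (measureReal_mono hT2 (cAnn_lt_top _ _).ne).trans ?_
      refine (cAnn_vol 0 (by positivity)).trans (le_of_eq ?_)
      ring
    have h4 := weight_est (T := T) hr0 hph hlm0 (hphI.mono_set (hT1.trans hs3))
      (hLam.int.mono_set hT1) h1 h2 ((measure_mono hT2).trans_lt (cAnn_lt_top _ _)) h3 hq hqb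
      (by positivity)
    refine h4.trans ?_
    rw [← hr2]
    have e1 : c / (r ^ 2) ^ 3 * ((r * (|B₃| * (r ^ 2) ^ 2)
        + (2 * (BU * (r ^ 2) ^ 3) + 2 * lm * (8 * V * (r ^ 2) ^ 3)) / r) / 2)
        = c * ((|B₃| + (2 * BU + 2 * lm * (8 * V))) / 2) / r := by
      field_simp
    rw [e1]
    refine div_le_div_of_nonneg_right (mul_le_mul_of_nonneg_left ?_ hc) hr0.le
    rw [hK]
    have : 2 * lm * (8 * V) ≤ 2 * |B₃| * (8 * V) :=
      mul_le_mul_of_nonneg_right (by linarith) (by positivity)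
    linarith
  -- the transition region
  have hL := key (cAnn D.l (2 * D.l)) (linR D.g') C (cAnn_measurable _ _) hs2'
    (cAnn_mono hl0.le le_rfl) (cont_linR hS.modified.metric).aestronglyMeasurable
    (ae_interior hl0 (by positivity) hS.modified.trans_sup) hC0.le
  rw [hS.modified.mass] at hL
  -- the shell
  have hmb : ∀ x ∈ cAnn (D.l / 2) D.l, msz (D.k x) ≤ 12 * C / D.l ^ 2 := by
    intro x hx
    have hx1 : D.l / 2 ≤ ‖x‖ := hx.1
    have hx0 : 0 < ‖x‖ := by linarith
    have h1 : ∀ i j, |D.k x i j| ≤ 4 * C / D.l ^ 2 := by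
      intro i j
      exact (hS.hdecay x (by linarith) i j).trans (dec_le hl0 hx1 hC0.le)
    refine (msz_le (by positivity) h1).trans (le_of_eq ?_)
    ring
  have hcm : ContinuousOn (fun x => msz (D.k x)) (cAnn (D.l / 2) D.l) := by
    obtain ⟨δ, hδ, -, hk⟩ := hS.smooth0
    exact XMSIaux.cont_msz hk _ (by linarith)
  have hfin : volume (cAnn (D.l / 2) D.l) < ⊤ := cAnn_lt_top _ _
  have hqm1 : AEStronglyMeasurable (fun x => msz (D.k x) / D.l)
      (volume.restrict (cAnn (D.l / 2) D.l)) :=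
    (hcm.div_const _).aestronglyMeasurable (cAnn_measurable _ _)
  have hqm2 : AEStronglyMeasurable (fun x => msz (D.k x) ^ 2)
      (volume.restrict (cAnn (D.l / 2) D.l)) :=
    (hcm.pow 2).aestronglyMeasurable (cAnn_measurable _ _)
  have hl3 : D.l ^ 3 ≤ D.l ^ 4 := pow_le_pow_right₀ (by linarith) (by norm_num)
  have hb1 : ∀ x ∈ cAnn (D.l / 2) D.l, msz (D.k x) / D.l ≤ 12 * C / D.l ^ 3 := by
    intro x hx
    have := hmb x hx
    rw [div_le_iff₀ hl0]
    refine this.trans (le_of_eq ?_)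
    field_simp
  have hb2 : ∀ x ∈ cAnn (D.l / 2) D.l, msz (D.k x) ^ 2 ≤ 144 * C ^ 2 / D.l ^ 4 := by
    intro x hx
    have h1 := hmb x hx
    have h2 := msz_nonneg (D.k x)
    refine (pow_le_pow_left₀ h2 h1 2).trans (le_of_eq ?_)
    field_simp
    norm_num
  have hb3 : 144 * C ^ 2 / D.l ^ 4 ≤ 144 * C ^ 2 / D.l ^ 3 :=
    div_le_div_of_nonneg_left (by positivity) (by positivity) hl3
  have hH := key (cAnn (D.l / 2) D.l) (fun x => msz (D.k x) / D.l + msz (D.k x) ^ 2) c₁
    (cAnn_measurable _ _) hs1 (cAnn_mono (by positivity) (by linarith)) (hqm1.add hqm2)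
    ((ae_restrict_iff' (cAnn_measurable _ _)).mpr (Eventually.of_forall fun x hx => by
      have h1 := hb1 x hx
      have h2 := (hb2 x hx).trans hb3
      have h3 := msz_nonneg (D.k x)
      rw [abs_of_nonneg (by positivity), hc₁, add_div]
      linarith)) hc₁0.le
  have hfm : IsFiniteMeasure (volume.restrict (cAnn (D.l / 2) D.l)) :=
    ⟨by rwa [Measure.restrict_apply_univ]⟩
  have hi1 : IntegrableOn (fun x => msz (D.k x) / D.l) (cAnn (D.l / 2) D.l) := by
    refine Integrable.of_bound hqm1 (12 * C / D.l ^ 3) ?_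
    refine (ae_restrict_iff' (cAnn_measurable _ _)).mpr (Eventually.of_forall fun x hx => ?_)
    rw [Real.norm_eq_abs, abs_of_nonneg (div_nonneg (msz_nonneg _) hl0.le)]
    exact hb1 x hx
  have hi2 : IntegrableOn (fun x => msz (D.k x) ^ 2) (cAnn (D.l / 2) D.l) := by
    refine Integrable.of_bound hqm2 (144 * C ^ 2 / D.l ^ 4) ?_
    refine (ae_restrict_iff' (cAnn_measurable _ _)).mpr (Eventually.of_forall fun x hx => ?_)
    rw [Real.norm_eq_abs, abs_of_nonneg (sq_nonneg _)]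
    exact hb2 x hx
  have hq : (∫ x in cAnn (D.l / 2) D.l, (msz (D.k x) / D.l + msz (D.k x) ^ 2))
      ≤ D.th + 144 * C ^ 2 * V / r := by
    rw [integral_add hi1 hi2]
    refine add_le_add le_rfl ?_
    have h1 : (∫ x in cAnn (D.l / 2) D.l, msz (D.k x) ^ 2)
        ≤ ∫ _x in cAnn (D.l / 2) D.l, 144 * C ^ 2 / D.l ^ 4 :=
      setIntegral_mono_on hi2 (integrable_const _) (cAnn_measurable _ _) hb2
    refine h1.trans ?_
    rw [integral_const]
    simp only [measureReal_restrict_apply_univ, smul_eq_mul]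
    have h2 : volume.real (cAnn (D.l / 2) D.l) ≤ D.l ^ 3 * V := cAnn_vol _ hl0.le
    have h3 : volume.real (cAnn (D.l / 2) D.l) * (144 * C ^ 2 / D.l ^ 4)
        ≤ D.l ^ 3 * V * (144 * C ^ 2 / D.l ^ 4) := mul_le_mul_of_nonneg_right h2 (by positivity)
    refine h3.trans ?_
    have h4 : D.l ^ 3 * V * (144 * C ^ 2 / D.l ^ 4) = 144 * C ^ 2 * V / D.l := by
      field_simp
    rw [h4]
    exact div_le_div_of_nonneg_left (by positivity) hr0 hrl
  -- the integral of the weight
  have hP : (∫ x in cAnn D.l (2 * D.l), D.ph P x) ≤ BU * D.l ^ 3 :=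
    (setIntegral_mono_set hphI (Eventually.of_forall hph)
      (Eventually.of_forall (hs2'.trans hs3))).trans hphB
  have hP' : BM / D.l ^ 4 * (∫ x in cAnn D.l (2 * D.l), D.ph P x) ≤ BM * BU / r := by
    have h1 : BM / D.l ^ 4 * (∫ x in cAnn D.l (2 * D.l), D.ph P x)
        ≤ BM / D.l ^ 4 * (BU * D.l ^ 3) := mul_le_mul_of_nonneg_left hP (by positivity)
    refine h1.trans ?_
    have h4 : BM / D.l ^ 4 * (BU * D.l ^ 3) = BM * BU / D.l := by
      field_simp
    rw [h4]
    exact div_le_div_of_nonneg_left (by positivity) hr0 hrl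
  -- collect
  have hcol : 4 * Real.pi * (2 - P.eps) ≤ CT * ((1 + B) * D.er P se)
      + (D.Nd P + D.Cl P + BM * (∫ x in cAnn (D.l / 2) D.l,
            D.ph P x * (msz (D.k x) / D.l + msz (D.k x) ^ 2))
          - 1 / 2 * (∫ x in cAnn D.l (2 * D.l), D.ph P x * linR D.g' x)
          + BM / D.l ^ 4 * (∫ x in cAnn D.l (2 * D.l), D.ph P x)) := by
    have h1 : (0 : ℝ) / (P.eps / 4) ^ 2 + (1 + B) * Real.exp (D.s2 P / (2 - P.eps))
        * Real.exp (-((lam P.eps / 2 - 1 / (2 - P.eps)) * (se - D.s2 P)))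
        = (1 + B) * D.er P se := by
      unfold DatX.er
      ring
    rw [h1] at hmain
    linarith
  have hIh : (∫ x in cAnn (D.l / 2) D.l, D.ph P x * (msz (D.k x) / D.l + msz (D.k x) ^ 2))
      ≤ |B₃| * D.th + (|B₃| * (144 * C ^ 2 * V) + c₁ * K) / r := by
    have h1 := (abs_le.mp hH).2
    have hqn : 0 ≤ ∫ x in cAnn (D.l / 2) D.l, (msz (D.k x) / D.l + msz (D.k x) ^ 2) :=
      integral_nonneg fun x => add_nonneg (div_nonneg (msz_nonneg _) hl0.le) (sq_nonneg _)
    have h2 : lm * (∫ x in cAnn (D.l / 2) D.l, (msz (D.k x) / D.l + msz (D.k x) ^ 2))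
        ≤ |B₃| * (D.th + 144 * C ^ 2 * V / r) := by
      refine mul_le_mul hlmB hq hqn (abs_nonneg _)
    have h3 : (|B₃| * (144 * C ^ 2 * V) + c₁ * K) / r
        = |B₃| * (144 * C ^ 2 * V / r) + c₁ * K / r := by ring
    rw [h3]
    linarith
  have hIL : -(1 / 2 * (∫ x in cAnn D.l (2 * D.l), D.ph P x * linR D.g' x))
      ≤ 8 * Real.pi * massIntegral D.g D.l * lm + C * K / r := by
    have h1 := (abs_le.mp hL).1
    have h3 : 0 ≤ C * K / r := by positivity
    linarith
  have hIh' : BM * (∫ x in cAnn (D.l / 2) D.l,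
      D.ph P x * (msz (D.k x) / D.l + msz (D.k x) ^ 2))
      ≤ BM * (|B₃| * D.th + (|B₃| * (144 * C ^ 2 * V) + c₁ * K) / r) :=
    mul_le_mul_of_nonneg_left hIh hBM.le
  rw [hrp]
  have hBabs : |B| = B := abs_of_nonneg hB0
  rw [hBabs]
  -- nonnegative pieces
  have p2 : 0 ≤ CT * (1 + B) := by positivity
  have p3 : 0 ≤ BM * |B₃| := by positivity
  have p4 : 0 ≤ BM * (|B₃| * (144 * C ^ 2 * V) + c₁ * K) := by positivity
  have p5 : 0 ≤ C * K := by positivity
  have p6 : 0 ≤ BM * BU := by positivity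
  set ir := 1 / r with hir
  have hir0 : 0 ≤ ir := by positivity
  have f2 : (|B₃| * (144 * C ^ 2 * V) + c₁ * K) / r
      = (|B₃| * (144 * C ^ 2 * V) + c₁ * K) * ir := by rw [hir]; ring
  have f3 : C * K / r = C * K * ir := by rw [hir]; ring
  have f4 : BM * BU / r = BM * BU * ir := by rw [hir]; ring
  rw [f2] at hIh'
  rw [f3] at hIL
  rw [f4] at hP'
  set A₂ := CT * (1 + B) with hA₂
  set A₄ := |B₃| * (144 * C ^ 2 * V) + c₁ * K with hA₄
  have g1 : CT * ((1 + B) * D.er P se) = A₂ * D.er P se := by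
    rw [hA₂]
    ring
  rw [g1] at hcol
  have total : 4 * Real.pi * (2 - P.eps) ≤ 8 * Real.pi * massIntegral D.g D.l * lm
      + (BM * A₄ + C * K + BM * BU) * ir + BM * |B₃| * D.th + D.Nd P + D.Cl P
      + A₂ * D.er P se := by
    linarith [hcol, hIh', hIL, hP']
  have hfin2 : (BM * A₄ + C * K + BM * BU) * ir + BM * |B₃| * D.th + D.Nd P + D.Cl P
      + A₂ * D.er P se ≤ (A₂ + 1 + BM * (|B₃| + A₄) + C * K + BM * BU)
        * (ir + D.th + D.Nd P + D.Cl P + D.er P se) := by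
    have q1 : 0 ≤ (A₂ + 1 + BM * |B₃|) * ir := by positivity
    have q2 : 0 ≤ (A₂ + 1 + BM * A₄ + C * K + BM * BU) * D.th := by positivity
    have q3 : 0 ≤ (A₂ + BM * (|B₃| + A₄) + C * K + BM * BU) * D.Nd P := by positivity
    have q5 : 0 ≤ (A₂ + BM * (|B₃| + A₄) + C * K + BM * BU) * D.Cl P := by positivity
    have q4 : 0 ≤ (1 + BM * (|B₃| + A₄) + C * K + BM * BU) * D.er P se := by positivity
    linarith [q1, q2, q3, q4, q5]
  have hform : A₂ + 1 + BM * (|B₃| + |B₃| * (144 * C ^ 2 * V) + c₁ * K) + C * K + BM * BU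
      = A₂ + 1 + BM * (|B₃| + A₄) + C * K + BM * BU := by
    rw [hA₄]
    ring
  rw [hform]
  linarith

end Pool.Agent.PFlow


end
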