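import Mathlib
import Pool.Agent.PFlow.StmtsX2
import Pool.Agent.PenroseM.C03
import Pool.Agent.PenroseM.C04
import Pool.Agent.PenroseM.C07
import Pool.Agent.PenroseM.C10
import Pool.Agent.PenroseM.C30
import Pool.Agent.PenroseM.C38
import Pool.Agent.PenroseM.C51
import Pool.Agent.PenroseM.C56
import Pool.Agent.PenroseM.C66
import Pool.Agent.PenroseM.C67

/-! Parts: PFlow.HX.HXA, PFlow.HX.HXB, PFlow.HX.HXCUT, PFlow.X.XFAR, PFlow.X.XLOCU, PFlow.X.XTINT, PFlow.X.XXWO -/

section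

/-!
# HXA: Cordes' inequality at a point, with the raw second derivatives
-/

open MeasureTheory Filter Topology
open scoped ContDiff Matrix

namespace Pool.Agent.PFlow.HX

open Pool.Agent.PenroseSph Pool.Agent.PFlow

namespace HXAaux

theorem det_bound {B : Bil} {L : ℝ} (h : ∀ i j, |B i j| ≤ L) : B.det ≤ 6 * L ^ 3 := by
  have hL : 0 ≤ L := (abs_nonneg _).trans (h 0 0)
  have key : ∀ i j k l m n : Fin 3, |B i j * B k l * B m n| ≤ L ^ 3 := by
    intro i j k l m n
    rw [abs_mul, abs_mul]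
    calc |B i j| * |B k l| * |B m n| ≤ L * L * L := by
          gcongr
          · exact h i j
          · exact h k l
          · exact h m n
      _ = L ^ 3 := by ring
  rw [Matrix.det_fin_three]
  have k1 := (abs_le.1 (key 0 0 1 1 2 2)).2
  have k2 := (abs_le.1 (key 0 0 1 2 2 1)).1
  have k3 := (abs_le.1 (key 0 1 1 0 2 2)).1
  have k4 := (abs_le.1 (key 0 1 1 2 2 0)).2
  have k5 := (abs_le.1 (key 0 2 1 0 2 1)).2
  have k6 := (abs_le.1 (key 0 2 1 1 2 0)).1
  linarith

theorem sq_entry {g : TensorField} {x : E3} (hg : (g x).PosDef) {L : ℝ}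
    (h : ∀ i j, |g x i j| ≤ L) (B : Bil) (i j : Fin 3) : B i j ^ 2 ≤ L ^ 2 * nsq g x B := by
  have hL : 0 ≤ L := (abs_nonneg _).trans (h 0 0)
  have hG : (g x)⁻¹.PosDef := hg.inv
  have hs : ((g x)⁻¹)ᵀ = (g x)⁻¹ := by
    have := hG.isHermitian
    rwa [Matrix.IsHermitian, Matrix.conjTranspose_eq_transpose_of_trivial] at this
  have hi : (g x)⁻¹ * g x = 1 := Matrix.nonsing_inv_mul _ hg.det_pos.ne'.isUnit
  have hi' : g x * (g x)⁻¹ = 1 := Matrix.mul_nonsing_inv _ hg.det_pos.ne'.isUnit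
  have hgs : (g x)ᵀ = g x := by
    have := hg.isHermitian
    rwa [Matrix.IsHermitian, Matrix.conjTranspose_eq_transpose_of_trivial] at this
  set D : Bil := g x * Matrix.single i j 1 * g x with hD
  have hc := KTN.bin_cs hG.posSemidef B D
  have e0 : (g x)⁻¹ * D * (g x)⁻¹ = Matrix.single i j 1 := by
    have : (g x)⁻¹ * D * (g x)⁻¹ =
        ((g x)⁻¹ * g x) * Matrix.single i j 1 * (g x * (g x)⁻¹) := by
      rw [hD]
      simp only [Matrix.mul_assoc]
    rw [this, hi, hi', Matrix.one_mul, Matrix.mul_one]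
  have e1 : KTN.bin (g x)⁻¹ B D = B i j := by
    unfold KTN.bin
    rw [e0]
    simp only [Matrix.trace, Matrix.diag_apply, Matrix.mul_apply, Matrix.transpose_apply,
      Matrix.single_apply]
    rw [Finset.sum_eq_single j, Finset.sum_eq_single i]
    · simp
    · intro b _ hb
      simp [hb.symm]
    · simp
    · intro b _ hb
      refine Finset.sum_eq_zero fun a _ => ?_
      simp [hb.symm]
    · simp
  have e2 : KTN.bin (g x)⁻¹ D D = g x i i * g x j j := by
    unfold KTN.bin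
    rw [e0]
    have hDij : D i j = g x i i * g x j j := by
      rw [hD]
      simp only [Matrix.mul_apply, Matrix.single_apply]
      rw [Finset.sum_eq_single j, Finset.sum_eq_single i]
      · simp
      · intro b _ hb
        simp [hb.symm]
      · simp
      · intro b _ hb
        rw [Finset.sum_eq_zero, zero_mul]
        intro a _
        simp [hb.symm]
      · simp
    rw [← hDij]
    simp only [Matrix.trace, Matrix.diag_apply, Matrix.mul_apply, Matrix.transpose_apply,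
      Matrix.single_apply]
    rw [Finset.sum_eq_single j, Finset.sum_eq_single i]
    · simp
    · intro b _ hb
      simp [hb.symm]
    · simp
    · intro b _ hb
      refine Finset.sum_eq_zero fun a _ => ?_
      simp [hb.symm]
    · simp
  have e3 : KTN.bin (g x)⁻¹ B B = nsq g x B := by
    rw [KTN.bin_eq _ _ _ hs]
    rfl
  rw [e1, e2, e3] at hc
  have hn := XWI.nsq_nonneg hg B
  have h1 : g x i i * g x j j ≤ L ^ 2 := by
    have a1 := h i i
    have a2 := h j j
    calc g x i i * g x j j ≤ |g x i i * g x j j| := le_abs_self _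
      _ = |g x i i| * |g x j j| := abs_mul _ _
      _ ≤ L * L := mul_le_mul a1 a2 (abs_nonneg _) hL
      _ = L ^ 2 := by ring
  calc B i j ^ 2 ≤ nsq g x B * (g x i i * g x j j) := hc
    _ ≤ nsq g x B * L ^ 2 := mul_le_mul_of_nonneg_left h1 hn
    _ = L ^ 2 * nsq g x B := by ring

theorem vsz_sq (p : Cov) : vsz p ^ 2 = ∑ i, p i ^ 2 :=
  Real.sq_sqrt (Finset.sum_nonneg fun _ _ => sq_nonneg _)

theorem abs_le_vsz (p : Cov) (i : Fin 3) : |p i| ≤ vsz p := by
  unfold vsz
  apply Real.abs_le_sqrt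
  exact Finset.single_le_sum (f := fun i => p i ^ 2) (fun _ _ => sq_nonneg _) (Finset.mem_univ i)

theorem msz_sq (B : Bil) : msz B ^ 2 = ∑ i, ∑ j, B i j ^ 2 :=
  Real.sq_sqrt (Finset.sum_nonneg fun _ _ => Finset.sum_nonneg fun _ _ => sq_nonneg _)

theorem msz_le {g : TensorField} {x : E3} (hg : (g x).PosDef) {L : ℝ}
    (h : ∀ i j, |g x i j| ≤ L) (B : Bil) : msz B ^ 2 ≤ 9 * L ^ 2 * nsq g x B := by
  rw [msz_sq]
  have h1 : ∑ i, ∑ j, B i j ^ 2 ≤ ∑ _i : Fin 3, ∑ _j : Fin 3, L ^ 2 * nsq g x B :=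
    Finset.sum_le_sum fun i _ => Finset.sum_le_sum fun j _ => sq_entry hg h B i j
  refine h1.trans (le_of_eq ?_)
  simp
  ring

theorem vol_bounds {g : TensorField} {x : E3} (hg : (g x).PosDef) {L : ℝ} (hL : 0 < L)
    (h : ∀ i j, |g x i j| ≤ L) (hi : ∀ i j, |(g x)⁻¹ i j| ≤ L) :
    (Real.sqrt (6 * L ^ 3))⁻¹ ≤ volDen g x ∧ volDen g x ≤ Real.sqrt (6 * L ^ 3) := by
  have h1 := det_bound h
  have h2 := det_bound hi
  have hd := hg.det_pos
  have hdi : (g x)⁻¹.det * (g x).det = 1 := by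
    rw [← Matrix.det_mul, Matrix.nonsing_inv_mul _ hd.ne'.isUnit, Matrix.det_one]
  constructor
  · unfold volDen
    rw [← Real.sqrt_inv]
    apply Real.sqrt_le_sqrt
    have h3 : 0 < 6 * L ^ 3 := by positivity
    rw [inv_le_iff_one_le_mul₀ h3]
    calc (1 : ℝ) = (g x)⁻¹.det * (g x).det := hdi.symm
      _ ≤ (6 * L ^ 3) * (g x).det := mul_le_mul_of_nonneg_right h2 hd.le
      _ = (g x).det * (6 * L ^ 3) := mul_comm _ _
  · unfold volDen
    exact Real.sqrt_le_sqrt h1

theorem chr_bound {g : TensorField} {x : E3} {L : ℝ}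
    (hi : ∀ i j, |(g x)⁻¹ i j| ≤ L) (hd : ∀ i j m, |pd m (fun y => g y i j) x| ≤ L)
    (k i j : Fin 3) : |christoffel g k i j x| ≤ 5 * L ^ 2 := by
  have hL : 0 ≤ L := (abs_nonneg _).trans (hi 0 0)
  have key : ∀ l : Fin 3, |(g x)⁻¹ k l * (pd i (fun y => g y j l) x + pd j (fun y => g y i l) x
      - pd l (fun y => g y i j) x)| ≤ 3 * L ^ 2 := by
    intro l
    rw [abs_mul]
    have h1 : |pd i (fun y => g y j l) x + pd j (fun y => g y i l) x
        - pd l (fun y => g y i j) x| ≤ 3 * L := by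
      have a1 := abs_le.1 (hd j l i)
      have a2 := abs_le.1 (hd i l j)
      have a3 := abs_le.1 (hd i j l)
      rw [abs_le]
      constructor <;> linarith
    calc _ ≤ L * (3 * L) := mul_le_mul (hi k l) h1 (abs_nonneg _) hL
      _ = 3 * L ^ 2 := by ring
  unfold christoffel
  rw [abs_mul]
  have h2 := Finset.abs_sum_le_sum_abs (fun l => (g x)⁻¹ k l * (pd i (fun y => g y j l) x
    + pd j (fun y => g y i l) x - pd l (fun y => g y i j) x)) Finset.univ
  have h3 : ∑ l : Fin 3, |(g x)⁻¹ k l * (pd i (fun y => g y j l) x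
    + pd j (fun y => g y i l) x - pd l (fun y => g y i j) x)| ≤ ∑ _l : Fin 3, 3 * L ^ 2 :=
    Finset.sum_le_sum fun l _ => key l
  have h4 : ∑ _l : Fin 3, 3 * L ^ 2 = 9 * L ^ 2 := by
    simp
    ring
  rw [h4] at h3
  have h5 : |(1 / 2 : ℝ)| = 1 / 2 := abs_of_pos (by norm_num)
  rw [h5]
  nlinarith [h2.trans h3, sq_nonneg L]

/-- the algebra of the final estimate -/
theorem alg {ε n N t T e f : ℝ} (hε : 0 < ε) (hε1 : ε < 1) (hn : 0 ≤ n) (he : 0 ≤ e)
    (hf : 0 ≤ f)
    (h1 : N ≤ (1 + ε / 4) * n + (1 + 4 / ε) * e)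
    (h2 : T ^ 2 ≤ (1 - ε) * N + f)
    (h3 : t ^ 2 ≤ (1 + ε / 4) * T ^ 2 + (1 + 4 / ε) * e) :
    ε / 2 * n - (3 * ((1 + 4 / ε) * e) + 2 * f) ≤ n - t ^ 2 := by
  set q := (1 + 4 / ε) * e with hq
  have hq0 : 0 ≤ q := by positivity
  have a1 : (1 - ε) * N ≤ (1 - ε) * ((1 + ε / 4) * n + q) :=
    mul_le_mul_of_nonneg_left h1 (by linarith)
  have a2 : T ^ 2 ≤ (1 - ε) * ((1 + ε / 4) * n + q) + f := by linarith
  have a3 : (1 + ε / 4) * T ^ 2 ≤ (1 + ε / 4) * ((1 - ε) * ((1 + ε / 4) * n + q) + f) :=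
    mul_le_mul_of_nonneg_left a2 (by linarith)
  have a4 : (1 + ε / 4) * (1 - ε) * (1 + ε / 4) ≤ 1 - ε / 2 := by nlinarith [sq_nonneg ε]
  have a5 : (1 + ε / 4) * (1 - ε) * (1 + ε / 4) * n ≤ (1 - ε / 2) * n :=
    mul_le_mul_of_nonneg_right a4 hn
  have a6 : (1 + ε / 4) * (1 - ε) ≤ 2 := by nlinarith [sq_nonneg ε]
  have a7 : (1 + ε / 4) * (1 - ε) * q ≤ 2 * q := mul_le_mul_of_nonneg_right a6 hq0
  have a8 : (1 + ε / 4) * f ≤ 2 * f := mul_le_mul_of_nonneg_right (by linarith) hf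
  nlinarith

end HXAaux

open HXAaux in
theorem HXA : Stmt_HXA := by
  intro ε Λ hε hε1 hΛ
  set v := Real.sqrt (6 * Λ ^ 3) with hv
  have hv0 : 0 < v := Real.sqrt_pos.2 (by positivity)
  set K1 : ℝ := 18225 * Λ ^ 6 with hK1
  set K2 : ℝ := 324 * Λ ^ 5 with hK2
  set K3 : ℝ := 3 * ((1 + 4 / ε) * K1) + 2 * ((1 + 1 / ε) * K2) with hK3
  have hK10 : 0 ≤ K1 := by positivity
  have hK20 : 0 ≤ K2 := by positivity
  have hK30 : 0 ≤ K3 := by positivity
  refine ⟨v⁻¹ * (ε / 2) / (9 * Λ ^ 2), v * K3 + 1, by positivity, by positivity, ?_⟩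
  intro g h x p M hb heq hzero
  have hg := hb.posDef
  have hinv : ∀ i j, |(g x)⁻¹ i j| ≤ Λ := EShell.inv_entry hg hb.elliptic
  obtain ⟨hvl, hvu⟩ := vol_bounds hg hΛ hb.metric hinv
  by_cases hp : p = 0
  · have hM := hzero hp
    have e1 : msz M = 0 := by
      rw [hM]
      simp [msz]
    have e2 : nsq g x M = 0 := by
      rw [hM]
      simp [nsq]
    have e3 : trg g x M = 0 := by
      rw [hM]
      simp [trg]
    rw [e1, e2, e3]
    have : 0 ≤ (v * K3 + 1) * vsz p ^ 2 := by positivity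
    simpa using this
  · set P := vsz p with hP
    have hP0 : 0 ≤ P := Real.sqrt_nonneg _
    set H : Bil := cHess g x p M with hH
    set E : Bil := M - H with hE
    have hEe : ∀ i j, E i j = ∑ k, christoffel g k i j x * p k := by
      intro i j
      simp only [hE, hH, cHess, Matrix.sub_apply, Matrix.of_apply]
      ring
    have hEb : ∀ i j, |E i j| ≤ 15 * Λ ^ 2 * P := by
      intro i j
      rw [hEe]
      refine (Finset.abs_sum_le_sum_abs _ _).trans ?_
      calc ∑ k, |christoffel g k i j x * p k| ≤ ∑ _k : Fin 3, 5 * Λ ^ 2 * P := by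
            refine Finset.sum_le_sum fun k _ => ?_
            rw [abs_mul]
            exact mul_le_mul (chr_bound hinv hb.deriv k i j) (abs_le_vsz p k) (abs_nonneg _)
              (by positivity)
        _ = 15 * Λ ^ 2 * P := by simp; ring
    have hnn : ∀ B : Bil, 0 ≤ nsq g x B := XWI.nsq_nonneg hg
    have hEn : nsq g x E ≤ K1 * P ^ 2 := by
      have h1 := (le_abs_self _).trans (EShell.nsq_le E hinv hEb)
      refine h1.trans (le_of_eq ?_)
      rw [hK1]
      ring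
    have hEt : trg g x E ^ 2 ≤ K1 * P ^ 2 := by
      have h1 := EShell.trg_le E hinv hEb
      have h2 : trg g x E ^ 2 ≤ (9 * (Λ * (15 * Λ ^ 2 * P))) ^ 2 :=
        sq_le_sq' (by linarith [neg_abs_le (trg g x E)]) ((le_abs_self _).trans h1)
      refine h2.trans (le_of_eq ?_)
      rw [hK1]
      ring
    -- the equation
    set F : ℝ := len g x p * beps ε g x p (h x) with hF
    have hlen : len g x p ^ 2 ≤ Λ * P ^ 2 := by
      obtain ⟨h1, h2⟩ := EShell.ev_inv_le hg hb.elliptic p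
      unfold len
      rw [Real.sq_sqrt h1, hP, vsz_sq]
      exact h2
    have hbh : beps ε g x p (h x) ^ 2 ≤ 324 * Λ ^ 4 := by
      have h1 := EShell.trg_le (h x) hinv hb.tensor
      have h2 := XWI.bnn_abs hg p (h x)
      have h3 := (le_abs_self _).trans (EShell.nsq_le (h x) hinv hb.tensor)
      have h4 : Real.sqrt (nsq g x (h x)) ≤ 9 * (Λ * Λ) := by
        apply Real.sqrt_le_iff.mpr
        refine ⟨by positivity, h3.trans (le_of_eq (by ring))⟩
      have h5 : |beps ε g x p (h x)| ≤ 18 * Λ ^ 2 := by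
        unfold beps
        calc |trg g x (h x) - (1 - ε) * bnn g x p (h x)|
            ≤ |trg g x (h x)| + |(1 - ε) * bnn g x p (h x)| := abs_sub _ _
          _ ≤ 9 * (Λ * Λ) + 1 * (9 * (Λ * Λ)) := by
              refine add_le_add h1 ?_
              rw [abs_mul]
              refine mul_le_mul ?_ (h2.trans h4) (abs_nonneg _) zero_le_one
              rw [abs_le]
              constructor <;> linarith
          _ = 18 * Λ ^ 2 := by ring
      have h6 := sq_le_sq' (by linarith [neg_abs_le (beps ε g x p (h x))])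
        ((le_abs_self _).trans h5)
      refine h6.trans (le_of_eq (by ring))
    have hF2 : F ^ 2 ≤ K2 * P ^ 2 := by
      rw [hF, mul_pow]
      calc len g x p ^ 2 * beps ε g x p (h x) ^ 2 ≤ (Λ * P ^ 2) * (324 * Λ ^ 4) :=
            mul_le_mul hlen hbh (sq_nonneg _) (by positivity)
        _ = K2 * P ^ 2 := by rw [hK2]; ring
    have hT : trg g x H = (1 - ε) * bnn g x p H - F := by
      have h1 := heq hp
      rw [beps] at h1
      linarith
    have hT2 : trg g x H ^ 2 ≤ (1 - ε) * nsq g x H + (1 + 1 / ε) * K2 * P ^ 2 := by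
      have hs0 : 0 < √ε := Real.sqrt_pos.2 hε
      have hy := PB.CordI.sq_young ((1 - ε) * bnn g x p H) F hs0
      rw [Real.sq_sqrt hε.le] at hy
      rw [← hT] at hy
      have h1 : bnn g x p H ^ 2 ≤ nsq g x H := by
        have := XWI.bnn_abs hg p H
        have h2 := sq_le_sq' (by linarith [neg_abs_le (bnn g x p H)])
          ((le_abs_self _).trans this)
        rwa [Real.sq_sqrt (hnn H)] at h2
      have h2 : (1 + ε) * ((1 - ε) * bnn g x p H) ^ 2 ≤ (1 - ε) * nsq g x H := by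
        have h3 : (1 + ε) * ((1 - ε) * bnn g x p H) ^ 2 =
            ((1 - ε ^ 2) * (1 - ε)) * bnn g x p H ^ 2 := by ring
        rw [h3]
        calc ((1 - ε ^ 2) * (1 - ε)) * bnn g x p H ^ 2
            ≤ (1 * (1 - ε)) * bnn g x p H ^ 2 := by
              refine mul_le_mul_of_nonneg_right ?_ (sq_nonneg _)
              refine mul_le_mul_of_nonneg_right ?_ (by linarith)
              nlinarith [sq_nonneg ε]
          _ = (1 - ε) * bnn g x p H ^ 2 := by ring
          _ ≤ (1 - ε) * nsq g x H := mul_le_mul_of_nonneg_left h1 (by linarith)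
      have h4 : (1 + ε⁻¹) * F ^ 2 ≤ (1 + 1 / ε) * K2 * P ^ 2 := by
        rw [one_div, mul_assoc]
        exact mul_le_mul_of_nonneg_left hF2 (by positivity)
      linarith
    -- Young
    set s : ℝ := √ε / 2 with hs
    have hs0 : 0 < s := by
      have := Real.sqrt_pos.2 hε
      positivity
    have hs2 : s ^ 2 = ε / 4 := by
      rw [hs, div_pow, Real.sq_sqrt hε.le]
      norm_num
    have hs3 : (s ^ 2)⁻¹ = 4 / ε := by
      rw [hs2, inv_div]
    have hneg : nsq g x (-E) = nsq g x E := by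
      unfold nsq
      refine Finset.sum_congr rfl fun i _ => Finset.sum_congr rfl fun j _ =>
        Finset.sum_congr rfl fun k _ => Finset.sum_congr rfl fun l _ => ?_
      rw [Matrix.neg_apply, Matrix.neg_apply]
      ring
    have hy1 := PB.CordI.nsq_young g x hnn M (-E) hs0
    have hME : M + -E = H := by rw [hE]; abel
    rw [hME, hs3, hs2, hneg] at hy1
    have htr : trg g x M = trg g x H - -trg g x E := by
      have h1 : M = H + E := by rw [hE]; abel
      have : trg g x (H + E) = trg g x H + trg g x E := by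
        simp only [trg, Matrix.add_apply, mul_add, Finset.sum_add_distrib]
      rw [← h1] at this
      linarith
    have hy2 := PB.CordI.sq_young (trg g x H) (-trg g x E) hs0
    rw [← htr, hs3, hs2, neg_sq] at hy2
    have h14 : 0 ≤ 1 + 4 / ε := by positivity
    have k1 : nsq g x H ≤ (1 + ε / 4) * nsq g x M + (1 + 4 / ε) * (K1 * P ^ 2) :=
      hy1.trans (by linarith [mul_le_mul_of_nonneg_left hEn h14])
    have k3 : trg g x M ^ 2 ≤ (1 + ε / 4) * trg g x H ^ 2 + (1 + 4 / ε) * (K1 * P ^ 2) :=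
      hy2.trans (by linarith [mul_le_mul_of_nonneg_left hEt h14])
    have key := alg hε hε1 (hnn M) (by positivity) (by positivity) k1 hT2 k3
    have hmm := msz_le hg hb.metric M
    have hm2 : msz M ^ 2 / (9 * Λ ^ 2) ≤ nsq g x M := by
      rw [div_le_iff₀ (by positivity)]
      linarith
    have hkey : ε / 2 * nsq g x M - K3 * P ^ 2 ≤ nsq g x M - trg g x M ^ 2 := by
      refine le_trans (le_of_eq ?_) key
      rw [hK3]
      ring
    have hvn : 0 ≤ volDen g x := Real.sqrt_nonneg _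
    have f1 := mul_le_mul_of_nonneg_left hkey hvn
    have f2 : v⁻¹ * (ε / 2 * nsq g x M) ≤ volDen g x * (ε / 2 * nsq g x M) :=
      mul_le_mul_of_nonneg_right hvl (mul_nonneg (by positivity) (hnn M))
    have f3 : volDen g x * (K3 * P ^ 2) ≤ v * (K3 * P ^ 2) :=
      mul_le_mul_of_nonneg_right hvu (by positivity)
    have f4 : v⁻¹ * (ε / 2) / (9 * Λ ^ 2) * msz M ^ 2 ≤ v⁻¹ * (ε / 2 * nsq g x M) := by
      calc v⁻¹ * (ε / 2) / (9 * Λ ^ 2) * msz M ^ 2
          = v⁻¹ * (ε / 2) * (msz M ^ 2 / (9 * Λ ^ 2)) := by ring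
        _ ≤ v⁻¹ * (ε / 2) * nsq g x M := mul_le_mul_of_nonneg_left hm2 (by positivity)
        _ = v⁻¹ * (ε / 2 * nsq g x M) := by ring
    have f5 : 0 ≤ P ^ 2 := sq_nonneg _
    rw [mul_sub] at f1
    linarith

end Pool.Agent.PFlow.HX


end

section

/-!
# HXB: integration by parts for the quadratic form of second derivatives
-/

open MeasureTheory Filter Topology
open scoped ContDiff ENNReal

namespace Pool.Agent.PFlow.HX

open Pool.Agent.PenroseSph

namespace HXBaux

variable {μ : Measure E3}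

theorem N_eq {φ : E3 → ℝ} (hφ : MemLp φ 2 μ) : MBAD.N μ φ = Real.sqrt (∫ x, φ x ^ 2 ∂μ) := by
  unfold MBAD.N
  rw [ML4.eLp2 hφ, ENNReal.toReal_ofReal (Real.sqrt_nonneg _)]

/-- Cauchy-Schwarz. -/
theorem cs {φ ψ : E3 → ℝ} (hφ : MemLp φ 2 μ) (hψ : MemLp ψ 2 μ) :
    Integrable (fun x => φ x * ψ x) μ ∧ ∫ x, |φ x * ψ x| ∂μ
      ≤ Real.sqrt (∫ x, φ x ^ 2 ∂μ) * Real.sqrt (∫ x, ψ x ^ 2 ∂μ) := by
  have h := MBAD.cs hφ hψ
  rwa [N_eq hφ, N_eq hψ] at h

/-- Limits of integrals of products. -/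
theorem prod_lim {c : E3 → ℝ} {B : ℝ} (hc : AEStronglyMeasurable c μ)
    (hB : ∀ᵐ x ∂μ, |c x| ≤ B) {f g : ℕ → E3 → ℝ} {f' g' : E3 → ℝ}
    (hf : ∀ n, MemLp (f n) 2 μ) (hf' : MemLp f' 2 μ) (hg : ∀ n, MemLp (g n) 2 μ)
    (hg' : MemLp g' 2 μ) (tf : Tendsto (fun n => ∫ x, (f n x - f' x) ^ 2 ∂μ) atTop (𝓝 0))
    (tg : Tendsto (fun n => ∫ x, (g n x - g' x) ^ 2 ∂μ) atTop (𝓝 0)) :
    (∀ n, Integrable (fun x => c x * (f n x * g n x)) μ) ∧
    Integrable (fun x => c x * (f' x * g' x)) μ ∧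
    Tendsto (fun n => ∫ x, c x * (f n x * g n x) ∂μ) atTop (𝓝 (∫ x, c x * (f' x * g' x) ∂μ)) := by
  have hB' : ∀ᵐ x ∂μ, ‖c x‖ ≤ B := hB
  have i1 : ∀ n, Integrable (fun x => c x * (f n x * g n x)) μ := fun n =>
    (cs (hf n) (hg n)).1.bdd_mul hc hB'
  have i2 : Integrable (fun x => c x * (f' x * g' x)) μ := (cs hf' hg').1.bdd_mul hc hB'
  refine ⟨i1, i2, ?_⟩
  rcases isEmpty_or_nonempty E3 with he | he
  · exact absurd (he.false 0) id
  have ha : ∀ n, MemLp (fun x => f n x - f' x) 2 μ := fun n => (hf n).sub hf'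
  have hb : ∀ n, MemLp (fun x => g n x - g' x) 2 μ := fun n => (hg n).sub hg'
  rw [tendsto_iff_norm_sub_tendsto_zero]
  have hlim : Tendsto (fun n => |B| * (Real.sqrt (∫ x, (f n x - f' x) ^ 2 ∂μ)
      * Real.sqrt (∫ x, (g n x - g' x) ^ 2 ∂μ)
      + Real.sqrt (∫ x, (f n x - f' x) ^ 2 ∂μ) * Real.sqrt (∫ x, g' x ^ 2 ∂μ)
      + Real.sqrt (∫ x, f' x ^ 2 ∂μ) * Real.sqrt (∫ x, (g n x - g' x) ^ 2 ∂μ))) atTop (𝓝 0) := by
    have t1 : Tendsto (fun n => Real.sqrt (∫ x, (f n x - f' x) ^ 2 ∂μ)) atTop (𝓝 0) := by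
      have := (Real.continuous_sqrt.tendsto 0).comp tf
      rwa [Real.sqrt_zero] at this
    have t2 : Tendsto (fun n => Real.sqrt (∫ x, (g n x - g' x) ^ 2 ∂μ)) atTop (𝓝 0) := by
      have := (Real.continuous_sqrt.tendsto 0).comp tg
      rwa [Real.sqrt_zero] at this
    have t3 := (((t1.mul t2).add (t1.mul_const (Real.sqrt (∫ x, g' x ^ 2 ∂μ)))).add
      (t2.const_mul (Real.sqrt (∫ x, f' x ^ 2 ∂μ)))).const_mul |B|
    simpa using t3
  refine squeeze_zero (fun n => norm_nonneg _) (fun n => ?_) hlim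
  obtain ⟨j1, k1⟩ := cs (ha n) (hb n)
  obtain ⟨j2, k2⟩ := cs (ha n) hg'
  obtain ⟨j3, k3⟩ := cs hf' (hb n)
  rw [← integral_sub (i1 n) i2]
  have h1 : ‖∫ x, (c x * (f n x * g n x) - c x * (f' x * g' x)) ∂μ‖ ≤
      ∫ x, |B| * (|(f n x - f' x) * (g n x - g' x)| + |(f n x - f' x) * g' x|
        + |f' x * (g n x - g' x)|) ∂μ := by
    refine norm_integral_le_of_norm_le (((j1.abs.add j2.abs).add j3.abs).const_mul _) ?_
    filter_upwards [hB] with x hx
    have e : c x * (f n x * g n x) - c x * (f' x * g' x) = c x * ((f n x - f' x) * (g n x - g' x)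
        + (f n x - f' x) * g' x + f' x * (g n x - g' x)) := by ring
    rw [e, Real.norm_eq_abs, abs_mul]
    refine mul_le_mul (hx.trans (le_abs_self B)) ?_ (abs_nonneg _) (abs_nonneg _)
    exact (abs_add_le _ _).trans (add_le_add_left (abs_add_le _ _) _)
  refine h1.trans ?_
  have e1 : ∫ x, (|(f n x - f' x) * (g n x - g' x)| + |(f n x - f' x) * g' x|
      + |f' x * (g n x - g' x)|) ∂μ = ∫ x, |(f n x - f' x) * (g n x - g' x)| ∂μ
      + ∫ x, |(f n x - f' x) * g' x| ∂μ + ∫ x, |f' x * (g n x - g' x)| ∂μ := by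
    have e2 := integral_add (μ := μ) (f := fun x => |(f n x - f' x) * (g n x - g' x)|
      + |(f n x - f' x) * g' x|) (g := fun x => |f' x * (g n x - g' x)|) (j1.abs.add j2.abs) j3.abs
    have e3 := integral_add (μ := μ) (f := fun x => |(f n x - f' x) * (g n x - g' x)|)
      (g := fun x => |(f n x - f' x) * g' x|) j1.abs j2.abs
    rw [e2, e3]
  rw [integral_const_mul, e1]
  gcongr

/-- Limits of integrals of quadratic expressions. -/
theorem quad_lim {ι : Type} [Fintype ι] {c : ι → ι → E3 → ℝ} {B : ℝ}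
    (hc : ∀ i j, AEStronglyMeasurable (c i j) μ) (hB : ∀ i j, ∀ᵐ x ∂μ, |c i j x| ≤ B)
    {f : ℕ → ι → E3 → ℝ} {f' : ι → E3 → ℝ} (hf : ∀ n i, MemLp (f n i) 2 μ)
    (hf' : ∀ i, MemLp (f' i) 2 μ)
    (tf : ∀ i, Tendsto (fun n => ∫ x, (f n i x - f' i x) ^ 2 ∂μ) atTop (𝓝 0)) :
    (∀ n, Integrable (fun x => ∑ i, ∑ j, c i j x * (f n i x * f n j x)) μ) ∧
    Integrable (fun x => ∑ i, ∑ j, c i j x * (f' i x * f' j x)) μ ∧
    Tendsto (fun n => ∫ x, ∑ i, ∑ j, c i j x * (f n i x * f n j x) ∂μ) atTop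
      (𝓝 (∫ x, ∑ i, ∑ j, c i j x * (f' i x * f' j x) ∂μ)) := by
  have H : ∀ i j, _ := fun i j => prod_lim (hc i j) (hB i j) (fun n => hf n i) (hf' i)
    (fun n => hf n j) (hf' j) (tf i) (tf j)
  refine ⟨fun n => integrable_finsetSum _ fun i _ => integrable_finsetSum _ fun j _ =>
    (H i j).1 n, integrable_finsetSum _ fun i _ => integrable_finsetSum _ fun j _ =>
    (H i j).2.1, ?_⟩
  have e : ∀ n, ∫ x, ∑ i, ∑ j, c i j x * (f n i x * f n j x) ∂μ =
      ∑ i, ∑ j, ∫ x, c i j x * (f n i x * f n j x) ∂μ := by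
    intro n
    rw [integral_finsetSum _ fun i _ => integrable_finsetSum _ fun j _ => (H i j).1 n]
    exact Finset.sum_congr rfl fun i _ => integral_finsetSum _ fun j _ => (H i j).1 n
  have e' : ∫ x, ∑ i, ∑ j, c i j x * (f' i x * f' j x) ∂μ =
      ∑ i, ∑ j, ∫ x, c i j x * (f' i x * f' j x) ∂μ := by
    rw [integral_finsetSum _ fun i _ => integrable_finsetSum _ fun j _ => (H i j).2.1]
    exact Finset.sum_congr rfl fun i _ => integral_finsetSum _ fun j _ => (H i j).2.1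
  simp only [e]
  rw [e']
  exact tendsto_finsetSum _ fun i _ => tendsto_finsetSum _ fun j _ => (H i j).2.2

theorem msz_sq (B : Bil) : msz B ^ 2 = ∑ i, ∑ j, B i j ^ 2 :=
  Real.sq_sqrt (Finset.sum_nonneg fun _ _ => Finset.sum_nonneg fun _ _ => sq_nonneg _)

theorem vsz_sq (p : Cov) : vsz p ^ 2 = ∑ i, p i ^ 2 :=
  Real.sq_sqrt (Finset.sum_nonneg fun _ _ => sq_nonneg _)

theorem quad_eq (g : TensorField) (x : E3) (B : Bil) (z : ℝ) :
    z * (volDen g x * (nsq g x B - trg g x B ^ 2)) = ∑ a : Fin 3 × Fin 3, ∑ b : Fin 3 × Fin 3,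
      z * (volDen g x * ((g x)⁻¹ a.1 b.1 * (g x)⁻¹ a.2 b.2 - (g x)⁻¹ a.1 a.2 * (g x)⁻¹ b.1 b.2))
        * (B a.1 a.2 * B b.1 b.2) := by
  have h1 : nsq g x B = ∑ a : Fin 3 × Fin 3, ∑ b : Fin 3 × Fin 3,
      (g x)⁻¹ a.1 b.1 * (g x)⁻¹ a.2 b.2 * (B a.1 a.2 * B b.1 b.2) := by
    unfold nsq
    simp only [Fintype.sum_prod_type]
    refine Finset.sum_congr rfl fun i _ => Finset.sum_congr rfl fun j _ =>
      Finset.sum_congr rfl fun k _ => Finset.sum_congr rfl fun l _ => ?_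
    ring
  have h2 : trg g x B ^ 2 = ∑ a : Fin 3 × Fin 3, ∑ b : Fin 3 × Fin 3,
      (g x)⁻¹ a.1 a.2 * (g x)⁻¹ b.1 b.2 * (B a.1 a.2 * B b.1 b.2) := by
    have h3 : trg g x B = ∑ a : Fin 3 × Fin 3, (g x)⁻¹ a.1 a.2 * B a.1 a.2 := by
      unfold trg
      rw [Fintype.sum_prod_type]
    rw [h3, sq, Finset.sum_mul_sum]
    refine Finset.sum_congr rfl fun a _ => Finset.sum_congr rfl fun b _ => ?_
    ring
  rw [h1, h2, ← Finset.sum_sub_distrib, Finset.mul_sum, Finset.mul_sum]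
  refine Finset.sum_congr rfl fun a _ => ?_
  rw [← Finset.sum_sub_distrib, Finset.mul_sum, Finset.mul_sum]
  refine Finset.sum_congr rfl fun b _ => ?_
  ring

theorem msz_eq (B : Bil) (z : ℝ) : z * msz B ^ 2 = ∑ a : Fin 3 × Fin 3, ∑ b : Fin 3 × Fin 3,
    (if a = b then z else 0) * (B a.1 a.2 * B b.1 b.2) := by
  have h : ∀ a : Fin 3 × Fin 3, ∑ b : Fin 3 × Fin 3,
      (if a = b then z else 0) * (B a.1 a.2 * B b.1 b.2) = z * B a.1 a.2 ^ 2 := by
    intro a
    rw [Finset.sum_eq_single a]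
    · rw [if_pos rfl, sq]
    · intro b _ hb
      rw [if_neg hb.symm, zero_mul]
    · exact fun h => absurd (Finset.mem_univ _) h
  simp only [h]
  rw [msz_sq, ← Finset.mul_sum, Fintype.sum_prod_type]

theorem vsz_eq (p : Cov) (z : ℝ) : z * vsz p ^ 2 = ∑ a : Fin 3, ∑ b : Fin 3,
    (if a = b then z else 0) * (p a * p b) := by
  have h : ∀ a : Fin 3, ∑ b : Fin 3, (if a = b then z else 0) * (p a * p b) = z * p a ^ 2 := by
    intro a
    rw [Finset.sum_eq_single a]
    · rw [if_pos rfl, sq]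
    · intro b _ hb
      rw [if_neg hb.symm, zero_mul]
    · exact fun h => absurd (Finset.mem_univ _) h
  simp only [h]
  rw [vsz_sq, ← Finset.mul_sum]

theorem coef {K : Set E3} (hK : IsCompact K) {c : E3 → ℝ} (hc : ContinuousOn c K) :
    AEStronglyMeasurable c (volume.restrict K) ∧ ∃ B : ℝ, ∀ x ∈ K, |c x| ≤ B := by
  refine ⟨hc.aestronglyMeasurable hK.measurableSet, ?_⟩
  obtain ⟨B, hB⟩ := hK.exists_bound_of_continuousOn hc
  exact ⟨B, hB⟩

theorem coef2 {ι : Type} [Fintype ι] {K : Set E3} (hK : IsCompact K) {c : ι → ι → E3 → ℝ}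
    (hc : ∀ i j, ContinuousOn (c i j) K) :
    (∀ i j, AEStronglyMeasurable (c i j) (volume.restrict K)) ∧
      ∃ B : ℝ, ∀ i j, ∀ᵐ x ∂(volume.restrict K), |c i j x| ≤ B := by
  refine ⟨fun i j => (coef hK (hc i j)).1, ?_⟩
  choose B hB using fun i j => (coef hK (hc i j)).2
  refine ⟨∑ i, ∑ j, |B i j|, fun i j => (ae_restrict_iff' hK.measurableSet).2
    (Eventually.of_forall fun x hx => ?_)⟩
  refine (hB i j x hx).trans ((le_abs_self _).trans ?_)
  refine le_trans (Finset.single_le_sum (f := fun j => |B i j|) (fun _ _ => abs_nonneg _)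
    (Finset.mem_univ j)) ?_
  exact Finset.single_le_sum (f := fun i => ∑ j, |B i j|)
    (fun _ _ => Finset.sum_nonneg fun _ _ => abs_nonneg _) (Finset.mem_univ i)

end HXBaux

open HXBaux in
/-- HXB: integration by parts for the quadratic form of second derivatives. -/
theorem HXB (hHXBS : Stmt_HXBS) : Stmt_HXB := by
  intro Λ ζ hΛ hζ
  obtain ⟨C, hC, H⟩ := hHXBS Λ ζ hΛ hζ
  refine ⟨C, hC, ?_⟩
  intro g h u G M hg hb hu
  have hK : IsCompact (tsupport ζ) := hζ.compact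
  have hKA : tsupport ζ ⊆ Ann (1 / 2) 2 := hζ.supp
  have hAo : IsOpen (Ann (1 / 2) 2) :=
    (isOpen_lt continuous_const continuous_norm).inter (isOpen_lt continuous_norm continuous_const)
  have hζK : ∀ x, x ∉ tsupport ζ → ζ x = 0 := fun x hx => image_eq_zero_of_notMem_tsupport hx
  have hζc : Continuous ζ := hζ.smooth.continuous
  obtain ⟨v, hv, -, hv1, hv2⟩ := hu.approx _ hK hKA
  have red : ∀ F : E3 → ℝ, (∀ x, x ∉ tsupport ζ → F x = 0) →
      ∫ x in Ann (1 / 2) 2, F x = ∫ x in tsupport ζ, F x := fun F hF =>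
    setIntegral_eq_of_subset_of_forall_diff_eq_zero hAo.measurableSet hKA fun x hx => hF x hx.2
  have mG : ∀ i, MemLp (fun x => G x i) 2 (volume.restrict (tsupport ζ)) := hu.memG _ hK hKA
  have mM : ∀ i j, MemLp (fun x => M x i j) 2 (volume.restrict (tsupport ζ)) := hu.memM _ hK hKA
  have mv1 : ∀ n i, MemLp (pd i (v n)) 2 (volume.restrict (tsupport ζ)) := fun n i =>
    MBAD.memLp_cont hK (MBAD.contDiff_pd (hv n) i).continuous
  have mv2 : ∀ n i j, MemLp (pd i (pd j (v n))) 2 (volume.restrict (tsupport ζ)) := fun n i j =>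
    MBAD.memLp_cont hK (MBAD.contDiff_pd (MBAD.contDiff_pd (hv n) j) i).continuous
  -- the quadratic form
  have hinv : ∀ i j, ContinuousOn (fun x => (g x)⁻¹ i j) (tsupport ζ) := fun i j x hx =>
    (MINT.inv_cd hAo hg (hKA hx) i j).continuousAt.continuousWithinAt
  have hvol : ContinuousOn (fun x => volDen g x) (tsupport ζ) := fun x hx =>
    (MINT.vol_cd hAo hg (hKA hx)).continuousAt.continuousWithinAt
  have hcQ : ∀ a b : Fin 3 × Fin 3, ContinuousOn (fun x => ζ x ^ 4 * (volDen g x *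
      ((g x)⁻¹ a.1 b.1 * (g x)⁻¹ a.2 b.2 - (g x)⁻¹ a.1 a.2 * (g x)⁻¹ b.1 b.2))) (tsupport ζ) :=
    fun a b => (hζc.continuousOn.pow 4).mul (hvol.mul
      (((hinv _ _).mul (hinv _ _)).sub ((hinv _ _).mul (hinv _ _))))
  obtain ⟨q1, BQ, q2⟩ := coef2 hK hcQ
  obtain ⟨-, Q2, Q3⟩ := quad_lim (f := fun n (a : Fin 3 × Fin 3) x => pd a.1 (pd a.2 (v n)) x)
    (f' := fun a x => M x a.1 a.2) q1 q2 (fun n a => mv2 n a.1 a.2) (fun a => mM a.1 a.2)
    (fun a => hv2 a.1 a.2)
  -- the squares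
  have hcM : ∀ a b : Fin 3 × Fin 3, ContinuousOn (fun x => if a = b then ζ x ^ 4 else 0)
      (tsupport ζ) := by
    intro a b
    split_ifs
    · exact (hζc.pow 4).continuousOn
    · exact continuousOn_const
  obtain ⟨m1, BM, m2⟩ := coef2 hK hcM
  obtain ⟨-, -, M3⟩ := quad_lim (f := fun n (a : Fin 3 × Fin 3) x => pd a.1 (pd a.2 (v n)) x)
    (f' := fun a x => M x a.1 a.2) m1 m2 (fun n a => mv2 n a.1 a.2) (fun a => mM a.1 a.2)
    (fun a => hv2 a.1 a.2)
  have hcG : ∀ a b : Fin 3, ContinuousOn (fun x => if a = b then ζ x ^ 2 else 0)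
      (tsupport ζ) := by
    intro a b
    split_ifs
    · exact (hζc.pow 2).continuousOn
    · exact continuousOn_const
  obtain ⟨g1, BG, g2⟩ := coef2 hK hcG
  obtain ⟨-, -, G3⟩ := quad_lim (f := fun n (a : Fin 3) x => pd a (v n) x)
    (f' := fun a x => G x a) g1 g2 mv1 mG hv1
  have eQ : ∀ n x, ζ x ^ 4 * (volDen g x * (nsq g x (hess2 (v n) x)
      - trg g x (hess2 (v n) x) ^ 2)) = _ := fun n x => quad_eq g x (hess2 (v n) x) (ζ x ^ 4)
  have eQ' : ∀ x, ζ x ^ 4 * (volDen g x * (nsq g x (M x) - trg g x (M x) ^ 2)) = _ :=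
    fun x => quad_eq g x (M x) (ζ x ^ 4)
  have eM : ∀ n x, ζ x ^ 4 * msz (hess2 (v n) x) ^ 2 = _ := fun n x =>
    msz_eq (hess2 (v n) x) (ζ x ^ 4)
  have eM' : ∀ x, ζ x ^ 4 * msz (M x) ^ 2 = _ := fun x => msz_eq (M x) (ζ x ^ 4)
  have eG : ∀ n x, ζ x ^ 2 * vsz (grad (v n) x) ^ 2 = _ := fun n x =>
    vsz_eq (grad (v n) x) (ζ x ^ 2)
  have eG' : ∀ x, ζ x ^ 2 * vsz (G x) ^ 2 = _ := fun x => vsz_eq (G x) (ζ x ^ 2)
  have tQ : Tendsto (fun n => ∫ x in tsupport ζ, ζ x ^ 4 * (volDen g x *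
      (nsq g x (hess2 (v n) x) - trg g x (hess2 (v n) x) ^ 2))) atTop
      (𝓝 (∫ x in tsupport ζ, ζ x ^ 4 * (volDen g x * (nsq g x (M x) - trg g x (M x) ^ 2)))) := by
    simp only [eQ, eQ']
    exact Q3
  have tM : Tendsto (fun n => ∫ x in tsupport ζ, ζ x ^ 4 * msz (hess2 (v n) x) ^ 2) atTop
      (𝓝 (∫ x in tsupport ζ, ζ x ^ 4 * msz (M x) ^ 2)) := by
    simp only [eM, eM']
    exact M3
  have tG : Tendsto (fun n => ∫ x in tsupport ζ, ζ x ^ 2 * vsz (grad (v n) x) ^ 2) atTop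
      (𝓝 (∫ x in tsupport ζ, ζ x ^ 2 * vsz (G x) ^ 2)) := by
    simp only [eG, eG']
    exact G3
  have iQ : IntegrableOn (fun x => ζ x ^ 4 * (volDen g x * (nsq g x (M x) - trg g x (M x) ^ 2)))
      (tsupport ζ) := by
    simp only [eQ']
    exact Q2
  constructor
  · refine iQ.of_forall_diff_eq_zero hAo.measurableSet fun x hx => ?_
    rw [hζK x hx.2]
    ring
  · rw [red _ fun x hx => by rw [hζK x hx]; ring, red _ fun x hx => by rw [hζK x hx]; ring,
      red _ fun x hx => by rw [hζK x hx]; ring]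
    refine le_of_tendsto_of_tendsto' tQ (((Real.continuous_sqrt.tendsto _).comp tM).mul
      ((Real.continuous_sqrt.tendsto _).comp tG) |>.const_mul C) fun n => ?_
    have h1 := H g h (v n) hg hb (hv n)
    rw [red _ fun x hx => by rw [hζK x hx]; ring, red _ fun x hx => by rw [hζK x hx]; ring] at h1
    refine h1.trans (mul_le_mul_of_nonneg_left ?_ hC.le)
    have c1 : Continuous fun x => msz (hess2 (v n) x) := by
      unfold msz
      refine Real.continuous_sqrt.comp (continuous_finsetSum _ fun i _ =>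
        continuous_finsetSum _ fun j _ => Continuous.pow ?_ 2)
      exact (MBAD.contDiff_pd (MBAD.contDiff_pd (hv n) j) i).continuous
    have c2 : Continuous fun x => vsz (grad (v n) x) := by
      unfold vsz
      refine Real.continuous_sqrt.comp (continuous_finsetSum _ fun i _ => Continuous.pow ?_ 2)
      exact (MBAD.contDiff_pd (hv n) i).continuous
    obtain ⟨h2, h3⟩ := cs (φ := fun x => ζ x ^ 2 * msz (hess2 (v n) x))
      (ψ := fun x => ζ x * vsz (grad (v n) x)) (MBAD.memLp_cont hK ((hζc.pow 2).mul c1))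
      (MBAD.memLp_cont hK (hζc.mul c2))
    have e1 : ∀ x, (ζ x ^ 2 * msz (hess2 (v n) x)) ^ 2 = ζ x ^ 4 * msz (hess2 (v n) x) ^ 2 :=
      fun x => by ring
    have e2 : ∀ x, (ζ x * vsz (grad (v n) x)) ^ 2 = ζ x ^ 2 * vsz (grad (v n) x) ^ 2 :=
      fun x => by ring
    simp only [e1, e2] at h3
    refine le_trans ?_ h3
    refine le_trans (le_of_eq ?_) (integral_mono h2 h2.abs fun x => le_abs_self _)
    refine integral_congr_ae (Eventually.of_forall fun x => ?_)
    show ζ x ^ 3 * (vsz (grad (v n) x) * msz (hess2 (v n) x)) =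
      ζ x ^ 2 * msz (hess2 (v n) x) * (ζ x * vsz (grad (v n) x))
    ring

end Pool.Agent.PFlow.HX


end

section

/-!
# HXCUT: a cut-off function near the unit sphere
-/

open MeasureTheory Filter Topology
open scoped ContDiff ENNReal

namespace Pool.Agent.PFlow.HX

open Pool.Agent.PenroseSph Pool.Agent.PFlow

theorem HXCUT : Stmt_HXCUT := by
  set ζ : E3 → ℝ := fun x => Real.smoothTransition (5 * (‖x‖ ^ 2 - 1 / 3)) *
    Real.smoothTransition (3 - ‖x‖ ^ 2) with hζ
  have hsm : ContDiff ℝ ∞ ζ := by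
    have h1 : ContDiff ℝ ∞ (fun x : E3 => ‖x‖ ^ 2) := contDiff_norm_sq ℝ
    exact (Real.smoothTransition.contDiff.comp (contDiff_const.mul (h1.sub contDiff_const))).mul
      (Real.smoothTransition.contDiff.comp (contDiff_const.sub h1))
  have hsub : Function.support ζ ⊆ {x : E3 | 1 / 3 ≤ ‖x‖ ^ 2 ∧ ‖x‖ ^ 2 ≤ 3} := by
    intro x hx
    rw [Function.mem_support] at hx
    constructor
    · by_contra hc
      apply hx
      rw [hζ]
      simp only
      rw [Real.smoothTransition.zero_of_nonpos (by linarith [not_le.mp hc]), zero_mul]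
    · by_contra hc
      apply hx
      rw [hζ]
      simp only
      rw [Real.smoothTransition.zero_of_nonpos (x := 3 - ‖x‖ ^ 2) (by linarith [not_le.mp hc]),
        mul_zero]
  have hcl : IsClosed {x : E3 | 1 / 3 ≤ ‖x‖ ^ 2 ∧ ‖x‖ ^ 2 ≤ 3} :=
    (isClosed_le continuous_const (continuous_norm.pow 2)).inter
      (isClosed_le (continuous_norm.pow 2) continuous_const)
  have hts : tsupport ζ ⊆ {x : E3 | 1 / 3 ≤ ‖x‖ ^ 2 ∧ ‖x‖ ^ 2 ≤ 3} := closure_minimal hsub hcl
  refine ⟨ζ, ⟨hsm, ?_, ?_, ?_, ?_⟩, ?_⟩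
  · refine IsCompact.of_isClosed_subset (isCompact_closedBall (0 : E3) 2) (isClosed_tsupport ζ) ?_
    intro x hx
    have h1 := (hts hx).2
    rw [mem_closedBall_zero_iff]
    nlinarith [norm_nonneg x]
  · intro x hx
    have h1 := hts hx
    refine ⟨?_, ?_⟩
    · nlinarith [norm_nonneg x, h1.1]
    · nlinarith [norm_nonneg x, h1.2]
  · intro x
    exact mul_nonneg (Real.smoothTransition.nonneg _) (Real.smoothTransition.nonneg _)
  · intro x
    exact mul_le_one₀ (Real.smoothTransition.le_one _) (Real.smoothTransition.nonneg _)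
      (Real.smoothTransition.le_one _)
  · intro x hx
    have h1 : (3 : ℝ) / 4 ≤ ‖x‖ := hx.1
    have h2 : ‖x‖ ≤ 4 / 3 := hx.2
    rw [hζ]
    simp only
    rw [Real.smoothTransition.one_of_one_le (by nlinarith), Real.smoothTransition.one_of_one_le
      (by nlinarith), one_mul]

end Pool.Agent.PFlow.HX


end

section

/-!
# XFAR: the cut-off of the metric far out and near the origin
-/

open MeasureTheory Filter Topology
open scoped ContDiff ENNReal

namespace Pool.Agent.PFlow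

open Pool.Agent.PenroseSph

namespace XFARL

/-- The collar cut-off: `0` for `|x| ≤ 1 - δ/2`, `1` for `|x| ≥ 1 - δ/4`. -/
noncomputable def cc (δ : ℝ) (x : E3) : ℝ := 1 - kap (4 / δ * (‖x‖ - 1) + 3)

/-- The metric continued to the punctured space. -/
noncomputable def gz (δ : ℝ) (g : TensorField) : TensorField := fun x => 1 + cc δ x • (g x - 1)

lemma cc_nonneg (h : Stmt_KAP) (δ : ℝ) (x : E3) : 0 ≤ cc δ x := by
  unfold cc
  linarith [CUTM.kap_le_one h (4 / δ * (‖x‖ - 1) + 3)]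

lemma cc_le_one (h : Stmt_KAP) (δ : ℝ) (x : E3) : cc δ x ≤ 1 := by
  unfold cc
  linarith [CUTM.kap_nonneg h (4 / δ * (‖x‖ - 1) + 3)]

lemma cc_zero (h : Stmt_KAP) {δ : ℝ} (hδ : 0 < δ) {x : E3} (hx : ‖x‖ ≤ 1 - δ / 2) :
    cc δ x = 0 := by
  have h1 : 4 / δ * (‖x‖ - 1) ≤ 4 / δ * (-(δ / 2)) :=
    mul_le_mul_of_nonneg_left (by linarith) (by positivity)
  have h2 : 4 / δ * (-(δ / 2)) = -2 := by
    field_simp
    norm_num
  unfold cc
  rw [h.2.2.1 _ (by linarith), sub_self]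

lemma cc_one (h : Stmt_KAP) {δ : ℝ} (hδ : 0 < δ) {x : E3} (hx : 1 - δ / 4 ≤ ‖x‖) :
    cc δ x = 1 := by
  have h1 : 4 / δ * (-(δ / 4)) ≤ 4 / δ * (‖x‖ - 1) :=
    mul_le_mul_of_nonneg_left (by linarith) (by positivity)
  have h2 : 4 / δ * (-(δ / 4)) = -1 := by
    field_simp
  unfold cc
  rw [h.2.2.2.1 _ (by linarith), sub_zero]

lemma cc_smooth (h : Stmt_KAP) (δ : ℝ) {x : E3} (hx : x ≠ 0) : ContDiffAt ℝ ∞ (cc δ) x := by
  have h1 : ContDiffAt ℝ ∞ (fun y : E3 => 4 / δ * (‖y‖ - 1) + 3) x :=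
    (contDiffAt_const.mul ((contDiffAt_norm ℝ hx).sub contDiffAt_const)).add contDiffAt_const
  exact contDiffAt_const.sub ((h.1.contDiffAt).comp x h1)

lemma isOpen_outside (δ : ℝ) : IsOpen (Outside δ) :=
  isOpen_lt continuous_const continuous_norm

lemma gz_eq (h : Stmt_KAP) {δ : ℝ} (hδ : 0 < δ) (g : TensorField) {x : E3}
    (hx : 1 - δ / 4 ≤ ‖x‖) : gz δ g x = g x := by
  unfold gz
  rw [cc_one h hδ hx, one_smul, add_sub_cancel]

lemma gz_ev (h : Stmt_KAP) {δ : ℝ} (hδ : 0 < δ) (g : TensorField) {x : E3}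
    (hx : 1 ≤ ‖x‖) : gz δ g =ᶠ[𝓝 x] g := by
  have ho : IsOpen {y : E3 | 1 - δ / 4 < ‖y‖} := isOpen_lt continuous_const continuous_norm
  have hm : x ∈ {y : E3 | 1 - δ / 4 < ‖y‖} := by
    change 1 - δ / 4 < ‖x‖
    linarith
  filter_upwards [ho.mem_nhds hm] with y hy
  exact gz_eq h hδ g (le_of_lt hy)

lemma gz_metric (h : Stmt_KAP) {δ δ₀ : ℝ} (hδ : 0 < δ) (hδ₀ : δ ≤ δ₀) {g : TensorField}
    (hg : MetricOn (Outside δ₀) g) : MetricOn {0}ᶜ (gz δ g) := by
  have hmem : ∀ x : E3, ¬ ‖x‖ ≤ 1 - δ / 2 → x ∈ Outside δ₀ := by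
    intro x hx
    push Not at hx
    change 1 - δ₀ < ‖x‖
    linarith
  refine ⟨fun i j x hx => ?_, fun x hx => ?_⟩
  · have hx0 : x ≠ 0 := hx
    apply ContDiffAt.contDiffWithinAt
    by_cases hc : ‖x‖ < 1 - δ / 2
    · have ho : IsOpen {y : E3 | ‖y‖ < 1 - δ / 2} := isOpen_lt continuous_norm continuous_const
      have h1 : (fun y => gz δ g y i j) =ᶠ[𝓝 x] fun _ => (1 : Bil) i j := by
        filter_upwards [ho.mem_nhds hc] with y hy
        unfold gz
        rw [cc_zero h hδ (le_of_lt hy), zero_smul, add_zero]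
      exact contDiffAt_const.congr_of_eventuallyEq h1
    · have hxo : x ∈ Outside δ₀ := by
        push Not at hc
        change 1 - δ₀ < ‖x‖
        linarith
      have h2 : ContDiffAt ℝ ∞ (fun y => g y i j) x :=
        (hg.smooth i j).contDiffAt ((isOpen_outside δ₀).mem_nhds hxo)
      exact contDiffAt_const.add ((cc_smooth h δ hx0).mul (h2.sub contDiffAt_const))
  · by_cases hc : ‖x‖ ≤ 1 - δ / 2
    · have e : gz δ g x = 1 := by
        unfold gz
        rw [cc_zero h hδ hc, zero_smul, add_zero]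
      rw [e]
      exact Matrix.PosDef.one
    · exact CUTM.posDef_comb (hg.posDef x (hmem x hc)) (cc_nonneg h δ x) (cc_le_one h δ x)

/-- Decay depends only on the germs of the metric. -/
lemma decay_ev {C R : ℝ} {g g' h : TensorField}
    (he : ∀ x : E3, R ≤ ‖x‖ → g' =ᶠ[𝓝 x] g) (H : DecayFrom C R g h) : DecayFrom C R g' h := by
  intro x hx i j
  obtain ⟨h1, h2, h3, h4, h5⟩ := H x hx i j
  have e := he x hx
  refine ⟨?_, fun k => ?_, fun k l => ?_, h4, h5⟩
  · rw [e.self_of_nhds]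
    exact h1
  · rw [(MODL.pd_ev (MODL.comp_ev e i j) k)]
    exact h2 k
  · rw [(MODL.pd_ev (MODL.pd_ev' (MODL.comp_ev e i j) l) k)]
    exact h3 k l

/-- The mass integral depends only on the germs along the sphere. -/
lemma mass_ev {g g' : TensorField} {l : ℝ} (hl : 0 < l)
    (he : ∀ x : E3, ‖x‖ = l → g' =ᶠ[𝓝 x] g) : massIntegral g' l = massIntegral g l := by
  unfold massIntegral
  congr 1
  refine integral_congr_ae (Eventually.of_forall fun θ => ?_)
  have hθ : ‖(θ : E3)‖ = 1 := by simp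
  have hn : ‖l • (θ : E3)‖ = l := by
    rw [norm_smul, hθ, mul_one, Real.norm_eq_abs, abs_of_pos hl]
  have key : ∀ k i j : Fin 3, pd k (fun y => g' y i j) (l • (θ : E3)) =
      pd k (fun y => g y i j) (l • (θ : E3)) := fun k i j =>
    MODL.pd_ev (MODL.comp_ev (he _ hn) i j) k
  simp only [key]

end XFARL

open XFARL MODL in
theorem XFAR (hKAP : Stmt_KAP) (_hCUTM : Stmt_CUTM) (hCUTD : Stmt_CUTD) (hSCAL : Stmt_SCAL)
    (hDIVA : Stmt_DIVA) : Stmt_XFAR := by
  intro g k δ₀ C hδ₀ hgM hk hdec hell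
  -- the continued metric
  obtain ⟨δ, hδdef⟩ : ∃ δ : ℝ, δ = min δ₀ 1 := ⟨_, rfl⟩
  have hδ : 0 < δ := by
    rw [hδdef]
    exact lt_min hδ₀ one_pos
  have hδ' : δ ≤ δ₀ := by
    rw [hδdef]
    exact min_le_left _ _
  have hM0 : MetricOn {0}ᶜ (gz δ g) := gz_metric hKAP hδ hδ' hgM
  have hd0 : DecayFrom C 1 (gz δ g) k := decay_ev (fun x hx => gz_ev hKAP hδ g hx) hdec
  have he0 : ∀ x : E3, 1 ≤ ‖x‖ → ∀ v : Cov,
      (∑ i, v i ^ 2) ≤ C * ev (gz δ g x) v v ∧ ev (gz δ g x) v v ≤ C * ∑ i, v i ^ 2 := by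
    intro x hx
    rw [(gz_ev hKAP hδ g hx).self_of_nhds]
    exact hell x hx
  obtain ⟨C₂, hC₂, hcut⟩ := hCUTD (gz δ g) k C hM0 hd0 he0
  obtain ⟨C₄, ρ₀, hC₄, hρ₀, hsc⟩ := hSCAL C₂
  obtain ⟨C', hC'def⟩ : ∃ C' : ℝ, C' = C₂ + C₄ + 1 := ⟨_, rfl⟩
  refine ⟨C', max 8 ρ₀, by linarith, le_max_left _ _, fun l hl g₁ hg₁ hsame => ?_⟩
  have hl8 : 8 ≤ l := (le_max_left _ _).trans hl
  have hlρ : ρ₀ ≤ l := (le_max_right _ _).trans hl
  have hl0 : 0 < l := by linarith
  have hR : (0 : ℝ) < 1 / 4 := by norm_num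
  have hkl : ContDiff ℝ ∞ (fun y : E3 => kap (‖y‖ / l)) := hKAP.2.2.2.2.2.1 l hl0
  have hkin : ContDiff ℝ ∞ (kin (1 / 4)) := hKAP.2.2.2.2.2.2 (1 / 4) hR
  obtain ⟨dM, elM⟩ := hcut l (4 * l) (by linarith) le_rfl
  -- the factor
  let c : E3 → ℝ := fun x => kap (‖x‖ / l) * kin (1 / 4) x
  have hc : ContDiff ℝ ∞ c := hkl.mul hkin
  have hkz : ∀ x : E3, ‖x‖ ≤ 1 / 8 → kin (1 / 4) x = 0 := fun x hx =>
    CUTM.kin_zero hKAP hR (hx.trans (by norm_num))
  have hko : ∀ x : E3, 1 / 4 ≤ ‖x‖ → kin (1 / 4) x = 1 := fun x hx =>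
    CUTM.kin_one hKAP hR (le_trans (by norm_num) hx)
  have hcz : ∀ x : E3, ‖x‖ ≤ 1 / 8 → c x = 0 := by
    intro x hx
    change kap (‖x‖ / l) * kin (1 / 4) x = 0
    rw [hkz x hx, mul_zero]
  have hc0 : ∀ x, 0 ≤ c x := fun x =>
    mul_nonneg (CUTM.kap_nonneg hKAP _) (CUTM.kin_nonneg hKAP _ _)
  have hc1 : ∀ x, c x ≤ 1 := fun x =>
    mul_le_one₀ (CUTM.kap_le_one hKAP _) (CUTM.kin_nonneg hKAP _ _) (CUTM.kin_le_one hKAP _ _)
  -- the metric
  have m1 : MetricOn Set.univ (modG l (1 / 4) g₁) := by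
    refine ⟨fun i j => ?_, fun x _ => ?_⟩
    · have h1 : ContDiff ℝ ∞ (fun x => c x * (g₁ x i j - (1 : Bil) i j)) :=
        CUTM.smooth_of (a := 1 / 8) (by norm_num) hc hcz ((hg₁.smooth i j).sub contDiffOn_const)
      exact (contDiff_const.add h1).contDiffOn
    · by_cases hx : x = 0
      · have e : modG l (1 / 4) g₁ x = 1 := by
          change 1 + c x • (g₁ x - 1) = 1
          rw [hcz x (by rw [hx, norm_zero]; norm_num), zero_smul, add_zero]
        rw [e]
        exact Matrix.PosDef.one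
      · exact CUTM.posDef_comb (hg₁.posDef x hx) (hc0 x) (hc1 x)
  have m4 : ∀ x : E3, 1 / 4 ≤ ‖x‖ → ‖x‖ ≤ l → modG l (1 / 4) g₁ x = g₁ x := by
    intro x h1 h2
    change 1 + (kap (‖x‖ / l) * kin (1 / 4) x) • (g₁ x - 1) = g₁ x
    rw [hko x h1, hKAP.2.2.1 _ ?_, one_mul, one_smul, add_sub_cancel]
    rw [div_le_one hl0]
    exact h2
  have m5 : ∀ x : E3, 2 * l ≤ ‖x‖ → modG l (1 / 4) g₁ x = 1 := by
    intro x hx
    change 1 + (kap (‖x‖ / l) * kin (1 / 4) x) • (g₁ x - 1) = 1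
    rw [hKAP.2.2.2.1 _ ?_, zero_mul, zero_smul, add_zero]
    rw [le_div_iff₀ hl0]
    linarith
  -- comparison with the earlier modification
  have evM : ∀ x : E3, 2 ≤ ‖x‖ → modG l (1 / 4) g₁ =ᶠ[𝓝 x] modG l (4 * l) (gz δ g) := by
    intro x hx
    have ho : IsOpen {y : E3 | 7 / 4 < ‖y‖} := isOpen_lt continuous_const continuous_norm
    have hm : x ∈ {y : E3 | 7 / 4 < ‖y‖} := by
      change 7 / 4 < ‖x‖
      linarith
    filter_upwards [ho.mem_nhds hm] with y hy
    have hy' : 7 / 4 < ‖y‖ := hy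
    have e1 : kin (1 / 4) y = 1 := hko y (by linarith)
    have e2 : kin (4 * l) y = 1 := by
      refine CUTM.kin_one hKAP (by linarith) (le_trans ?_ hy'.le)
      rw [div_le_iff₀ (by positivity)]
      linarith
    have e3 : gz δ g y = g₁ y := by
      rw [hsame y hy']
      exact gz_eq hKAP hδ g (by linarith)
    change 1 + (kap (‖y‖ / l) * kin (1 / 4) y) • (g₁ y - 1) =
      1 + (kap (‖y‖ / l) * kin (4 * l) y) • (gz δ g y - 1)
    rw [e1, e2, e3]
  have hsmooth : ∀ x : E3, ∀ i j, ContDiffAt ℝ ∞ (fun y => modG l (1 / 4) g₁ y i j) x :=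
    fun x i j => (m1.smooth i j).contDiffAt Filter.univ_mem
  have d2 : DecayFrom C₂ 2 (modG l (1 / 4) g₁) 0 := by
    refine decay_ev evM ?_
    intro x hx i j
    exact dM x (by linarith) i j
  have hsc' : ∀ x : E3, l < ‖x‖ →
      |scalarCurvature (modG l (1 / 4) g₁) x * volDen (modG l (1 / 4) g₁) x
        - linR (modG l (1 / 4) g₁) x| ≤ C₄ / ‖x‖ ^ 4 ∧
      |linR (modG l (1 / 4) g₁) x| ≤ C₄ / ‖x‖ ^ 3 := by
    intro x hx
    refine hsc (modG l (1 / 4) g₁) x (hlρ.trans hx.le)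
      (Eventually.of_forall fun y => symm_of_posDef (m1.posDef y (Set.mem_univ _)))
      (hsmooth x) (fun i j => ?_)
    obtain ⟨d1, d2', d3, -, -⟩ := d2 x (by linarith) i j
    exact ⟨d1, d2', d3⟩
  refine ⟨m1, decay_mono d2 (by linarith), ?_, m4, m5, ?_, ?_⟩
  · intro x hx
    rw [(evM x hx).self_of_nhds]
    exact ell_mono hC₂ (by linarith) (elM x (by linarith))
  · intro x hx1 _
    obtain ⟨h1, h2⟩ := hsc' x hx1
    constructor
    · refine h1.trans ?_
      have h3 : C₄ / ‖x‖ ^ 4 ≤ C₄ / l ^ 4 := by gcongr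
      refine h3.trans ?_
      gcongr
      linarith
    · refine h2.trans ?_
      have h3 : C₄ / ‖x‖ ^ 3 ≤ C₄ / l ^ 3 := by gcongr
      refine h3.trans ?_
      gcongr
      linarith
  · rw [hDIVA (modG l (1 / 4) g₁) l hl0 (fun x _ => hsmooth x) m5]
    have h1 : massIntegral (modG l (1 / 4) g₁) l = massIntegral g₁ l := by
      refine mass_eq (a := 1 / 4) (by norm_num) (by linarith) (fun x hx i j => ?_)
        (fun x i j => (hsmooth x i j).of_le (by exact_mod_cast le_top))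
        (fun x hx1 hx2 => m4 x hx1.le hx2.le)
      exact (((hg₁.smooth i j).contDiffAt (isOpen_compl_singleton.mem_nhds hx)).of_le
        (by exact_mod_cast le_top))
    have h2 : massIntegral g₁ l = massIntegral g l := by
      refine mass_ev hl0 (fun x hx => ?_)
      have ho : IsOpen {y : E3 | 7 / 4 < ‖y‖} := isOpen_lt continuous_const continuous_norm
      have hm : x ∈ {y : E3 | 7 / 4 < ‖y‖} := by
        change 7 / 4 < ‖x‖
        linarith
      filter_upwards [ho.mem_nhds hm] with y hy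
      exact hsame y hy
    rw [h1, h2]

end Pool.Agent.PFlow


end

section

/-!
# XLOCU: location of the level sets, uniformly in `ε` (exterior regions)
-/

open MeasureTheory Filter Topology
open scoped ContDiff

namespace Pool.Agent.PFlow

open Pool.Agent.PenroseSph

namespace XLOCU

/-- The gradient of `k f + c`. -/
theorem grad_affine {f : E3 → ℝ} {x : E3} (k c : ℝ) (hf : DifferentiableAt ℝ f x) :
    grad (fun y => k * f y + c) x = k • grad f x := by
  funext i
  have h1 : HasFDerivAt (fun y => k * f y + c) (k • fderiv ℝ f x) x :=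
    (hf.hasFDerivAt.const_mul k).add_const c
  simp only [grad, pd, h1.fderiv, Pi.smul_apply]
  simp

/-- The barrier integrals are strictly decreasing. -/
theorem strictAnti (hPHI : Stmt_PHI) {ε C σ : ℝ} (hε : 0 < ε) (hε2 : ε ≤ 1 / 2) (hC : 0 ≤ C)
    (hσ : σ = 1 ∨ σ = -1) : StrictAntiOn (phiB ε σ C) (Set.Ioi 0) := by
  obtain ⟨-, h2, -⟩ := hPHI ε C σ hε hε2 hC hσ
  apply strictAntiOn_of_deriv_neg (convex_Ioi 0)
  · intro r hr
    exact (h2 r hr).2.1.continuousAt.continuousWithinAt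
  · intro r hr
    rw [interior_Ioi] at hr
    rw [(h2 r hr).2.1.deriv]
    have := (h2 r hr).1
    linarith

/-- Comparison with the lower barrier. -/
theorem lower (hPHI : Stmt_PHI) (hBARR : Stmt_BARR) {ε C R : ℝ} {g h : TensorField}
    {u : E3 → ℝ} {G : E3 → Cov} {M : E3 → Bil} (hC : 0 < C) (hε : 0 < ε) (hε2 : ε ≤ 1 / 2)
    (hR : 1 < R) (hg : MetricOn Set.univ g)
    (hbar : ∀ x : E3, 1 ≤ ‖x‖ → |barB ε g h x - bE ε ‖x‖| ≤ C / (1 + ‖x‖ ^ 2))
    (hsol : SolX ε R g h u G M) {x : E3} (hx1 : 1 ≤ ‖x‖) (hx2 : ‖x‖ < R) :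
    0 < u x := by
  have hR0 : 0 < R := by linarith
  have hanti := strictAnti hPHI hε hε2 (by linarith : 0 ≤ C + 1) (Or.inl rfl)
  have hD : 0 < phiB ε 1 (C + 1) 1 - phiB ε 1 (C + 1) (2 * R) := by
    have := hanti (Set.mem_Ioi.2 one_pos) (Set.mem_Ioi.2 (by linarith : 0 < 2 * R))
      (by linarith)
    linarith
  set D := phiB ε 1 (C + 1) 1 - phiB ε 1 (C + 1) (2 * R) with hDdef
  set k := 1 / D with hk
  have hkpos : 0 < k := div_pos one_pos hD
  have hpt : ∀ y : E3, 1 ≤ ‖y‖ → ContDiffAt ℝ 2 (fun y : E3 => phiB ε 1 (C + 1) ‖y‖) y ∧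
      grad (fun y : E3 => phiB ε 1 (C + 1) ‖y‖) y ≠ 0 ∧
      0 < opN ε g h (fun y : E3 => k * (phiB ε 1 (C + 1) ‖y‖ - phiB ε 1 (C + 1) (2 * R))) y := by
    intro y hy
    have hy0 : y ≠ 0 := by
      intro h0
      rw [h0, norm_zero] at hy
      linarith
    obtain ⟨h1, h2, h3, -⟩ := hBARR ε C g h y hε hε2 hC.le hy0 (hg.posDef y (Set.mem_univ y))
      (hbar y hy) 1 (Or.inl rfl)
    exact ⟨h1, h2, h3 rfl k _ hkpos⟩
  have h4 := hsol.sub
    (fun y => k * (phiB ε 1 (C + 1) ‖y‖ - phiB ε 1 (C + 1) (2 * R))) ?_ ?_ ?_ x hx1 hx2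
  · refine lt_of_lt_of_le ?_ h4
    apply mul_pos hkpos
    have := hanti (Set.mem_Ioi.2 (by linarith : 0 < ‖x‖)) (Set.mem_Ioi.2 (by linarith : 0 < 2 * R))
      (by linarith)
    linarith
  · intro y hy1 _
    refine ⟨contDiffAt_const.mul ((hpt y hy1).1.sub contDiffAt_const), ?_, (hpt y hy1).2.2⟩
    have hd : DifferentiableAt ℝ (fun y : E3 => phiB ε 1 (C + 1) ‖y‖) y :=
      (hpt y hy1).1.differentiableAt (by norm_num)
    have hg2 := grad_affine k (-(k * phiB ε 1 (C + 1) (2 * R))) hd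
    have heq : (fun y : E3 => k * (phiB ε 1 (C + 1) ‖y‖ - phiB ε 1 (C + 1) (2 * R)))
        = fun y : E3 => k * phiB ε 1 (C + 1) ‖y‖ + -(k * phiB ε 1 (C + 1) (2 * R)) := by
      funext y; ring
    rw [heq, hg2]
    exact smul_ne_zero hkpos.ne' (hpt y hy1).2.1
  · intro y hy
    show k * (phiB ε 1 (C + 1) ‖y‖ - phiB ε 1 (C + 1) (2 * R)) ≤ 1
    rw [hy, ← hDdef, hk, one_div, inv_mul_cancel₀ hD.ne']
  · intro y hy
    show k * (phiB ε 1 (C + 1) ‖y‖ - phiB ε 1 (C + 1) (2 * R)) ≤ 0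
    rw [hy, sub_self, mul_zero]

/-- Comparison with the upper barrier. -/
theorem upper (hPHI : Stmt_PHI) (hBARR : Stmt_BARR) {ε C R : ℝ} {g h : TensorField}
    {u : E3 → ℝ} {G : E3 → Cov} {M : E3 → Bil} (hC : 0 < C) (hε : 0 < ε) (hε2 : ε ≤ 1 / 2)
    (hR : 1 < R) (hg : MetricOn Set.univ g)
    (hbar : ∀ x : E3, 1 ≤ ‖x‖ → |barB ε g h x - bE ε ‖x‖| ≤ C / (1 + ‖x‖ ^ 2))
    (hsol : SolX ε R g h u G M) (hpos : ∀ r, 1 ≤ r → 0 < phiB ε (-1) (C + 1) r) {x : E3}
    (hx1 : 1 ≤ ‖x‖) (hx2 : ‖x‖ < R) :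
    u x ≤ phiB ε (-1) (C + 1) ‖x‖ / phiB ε (-1) (C + 1) 1 := by
  have hpos1 := hpos 1 le_rfl
  set k := 1 / phiB ε (-1) (C + 1) 1 with hk
  have hkpos : 0 < k := div_pos one_pos hpos1
  have hpt : ∀ y : E3, 1 ≤ ‖y‖ →
      ContDiffAt ℝ 2 (fun y : E3 => phiB ε (-1) (C + 1) ‖y‖) y ∧
      grad (fun y : E3 => phiB ε (-1) (C + 1) ‖y‖) y ≠ 0 ∧
      opN ε g h (fun y : E3 => k * phiB ε (-1) (C + 1) ‖y‖ + 0) y < 0 := by
    intro y hy
    have hy0 : y ≠ 0 := by
      intro h0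
      rw [h0, norm_zero] at hy
      linarith
    obtain ⟨h1, h2, -, h3⟩ := hBARR ε C g h y hε hε2 hC.le hy0 (hg.posDef y (Set.mem_univ y))
      (hbar y hy) (-1) (Or.inr rfl)
    exact ⟨h1, h2, h3 rfl k _ hkpos⟩
  have h4 := hsol.super (fun y => k * phiB ε (-1) (C + 1) ‖y‖ + 0) ?_ ?_ ?_ x hx1 hx2
  · rw [add_zero, hk, div_mul_eq_mul_div, one_mul] at h4
    exact h4
  · intro y hy1 _
    refine ⟨(contDiffAt_const.mul (hpt y hy1).1).add contDiffAt_const, ?_, (hpt y hy1).2.2⟩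
    have hd : DifferentiableAt ℝ (fun y : E3 => phiB ε (-1) (C + 1) ‖y‖) y :=
      (hpt y hy1).1.differentiableAt (by norm_num)
    rw [grad_affine k 0 hd]
    exact smul_ne_zero hkpos.ne' (hpt y hy1).2.1
  · intro y hy
    show 1 ≤ k * phiB ε (-1) (C + 1) ‖y‖ + 0
    rw [hy, hk, one_div, inv_mul_cancel₀ hpos1.ne', add_zero]
  · intro y hy
    show 0 ≤ k * phiB ε (-1) (C + 1) ‖y‖ + 0
    have h6 : 0 < k * phiB ε (-1) (C + 1) ‖y‖ := by
      rw [hy]; exact mul_pos hkpos (hpos _ (by linarith))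
    linarith

end XLOCU

open XLOCU in
/-- **XLOCU**: location of the level sets, uniformly in `ε`. -/
theorem XLOCU (hPHI : Stmt_PHI) (hBARR : Stmt_BARR) : Stmt_XLOCU := by
  intro C hC
  have hπ := Real.pi_pos
  set Q := Real.exp ((C + 1) * Real.pi) with hQ
  have hQ0 : 0 < Q := Real.exp_pos _
  have hQ1 : 1 ≤ Q := Real.one_le_exp (by positivity)
  have he1 : 1 < Real.exp 1 := by
    have := Real.add_one_lt_exp (one_ne_zero)
    linarith
  have he0 : 0 < Real.exp 1 := Real.exp_pos _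
  refine ⟨8 * (Real.exp 1 * Q), ?_, ?_⟩
  · nlinarith
  intro ε hε hε2
  refine ⟨0, ?_⟩
  intro R _ g h u G M hg hbar hsol x hxr hxR
  have hx1 : 1 ≤ ‖x‖ := by
    refine le_trans ?_ hxr
    nlinarith
  have hR1 : 1 < R := by linarith
  set p := pe ε with hp
  have hpdef : p = 2 / ε - 1 := rfl
  have hinv : 2 ≤ 1 / ε := by
    rw [le_div_iff₀ hε]; linarith
  have hp3 : 3 ≤ p := by
    rw [hpdef, show 2 / ε = 2 * (1 / ε) by ring]; linarith
  have hp0 : 0 < p := by linarith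
  have hεp : 1 / ε ≤ p := by
    rw [hpdef, show 2 / ε = 2 * (1 / ε) by ring]; linarith
  -- the exponential
  set E := Real.exp ((C + 1) * Real.pi / (2 * ε)) with hE
  have hE0 : 0 < E := Real.exp_pos _
  have hEneg : Real.exp (-((C + 1) * Real.pi / (2 * ε))) = E⁻¹ := by
    rw [Real.exp_neg]
  have hE2 : E ^ 2 ≤ Q ^ p := by
    rw [hE, ← Real.exp_nat_mul, hQ, ← Real.exp_mul]
    apply Real.exp_le_exp.2
    have : ((2 : ℕ) : ℝ) * ((C + 1) * Real.pi / (2 * ε)) = (C + 1) * Real.pi * (1 / ε) := by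
      push_cast; field_simp
    rw [this]
    exact mul_le_mul_of_nonneg_left hεp (by positivity)
  have hep : Real.exp (-p) = (Real.exp 1) ^ (-p) := by
    rw [← Real.exp_mul, one_mul]
  have h4p : (4 : ℝ) ^ (-p) ≤ 1 / 64 := by
    have h1 : (4 : ℝ) ^ (-p) ≤ (4 : ℝ) ^ (-(3 : ℝ)) :=
      Real.rpow_le_rpow_of_exponent_le (by norm_num) (by linarith)
    refine h1.trans ?_
    rw [Real.rpow_neg (by norm_num), show (3 : ℝ) = ((3 : ℕ) : ℝ) by norm_num,
      Real.rpow_natCast]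
    norm_num
  have hC1 : 0 ≤ C + 1 := by linarith
  -- the barrier integrals
  obtain ⟨-, -, -, hPm1, hPm2⟩ := hPHI ε (C + 1) (-1) hε hε2 hC1 (Or.inr rfl)
  rw [hEneg] at hPm1 hPm2
  have hposm : ∀ r, 1 ≤ r → 0 < phiB ε (-1) (C + 1) r := by
    intro r hr
    refine lt_of_lt_of_le ?_ (hPm1 r hr).1
    have : 0 < r := by linarith
    positivity
  have hupos : 0 < u x := lower hPHI hBARR hC hε hε2 hR1 hg hbar hsol hx1 hxR
  have hup := upper hPHI hBARR hC hε hε2 hR1 hg hbar hsol hposm hx1 hxR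
  have hden : 2 ^ (-p) * E⁻¹ / p ≤ phiB ε (-1) (C + 1) 1 := by
    have h1 := (hPm1 1 le_rfl).1
    rw [Real.one_rpow, mul_one] at h1
    exact h1
  have hnum : phiB ε (-1) (C + 1) ‖x‖ ≤ E * ‖x‖ ^ (-p) / p := (hPm1 ‖x‖ hx1).2
  have hexp0 := Real.exp_pos (-p)
  have hnum2 : E * ‖x‖ ^ (-p) / p ≤ Real.exp (-p) / 8 * (2 ^ (-p) * E⁻¹ / p) := by
    have h2 : ‖x‖ ^ (-p) ≤ (8 * (Real.exp 1 * Q)) ^ (-p) :=
      Real.rpow_le_rpow_of_nonpos (by positivity) hxr (by linarith)
    have h3 : (8 * (Real.exp 1 * Q)) ^ (-p) = 2 ^ (-p) * 4 ^ (-p) * (Real.exp (-p) * (Q ^ p)⁻¹) := by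
      rw [show 8 * (Real.exp 1 * Q) = 2 * 4 * (Real.exp 1 * Q) by ring,
        Real.mul_rpow (by positivity) (by positivity),
        Real.mul_rpow (by positivity) (by positivity),
        Real.mul_rpow (by positivity) (by positivity), ← hep, Real.rpow_neg hQ0.le]
    have hQp : 0 < Q ^ p := by positivity
    have h4 : (Q ^ p)⁻¹ ≤ (E ^ 2)⁻¹ := inv_anti₀ (by positivity) hE2
    have h5 : E * ‖x‖ ^ (-p) ≤ E * (2 ^ (-p) * (1 / 64) * (Real.exp (-p) * (E ^ 2)⁻¹)) := by
      rw [h3] at h2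
      gcongr
      refine h2.trans ?_
      gcongr
    have h6 : E * (2 ^ (-p) * (1 / 64) * (Real.exp (-p) * (E ^ 2)⁻¹))
        = 1 / 64 * (Real.exp (-p) * (2 ^ (-p) * E⁻¹)) := by
      field_simp
    rw [h6] at h5
    have h7 : Real.exp (-p) / 8 * (2 ^ (-p) * E⁻¹ / p)
        = 1 / 8 * (Real.exp (-p) * (2 ^ (-p) * E⁻¹)) / p := by
      ring
    rw [h7]
    have h8 : 0 < Real.exp (-p) * (2 ^ (-p) * E⁻¹) := by positivity
    exact div_le_div_of_nonneg_right (by linarith) hp0.le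
  have hratio : phiB ε (-1) (C + 1) ‖x‖ / phiB ε (-1) (C + 1) 1 ≤ Real.exp (-p) / 8 := by
    rw [div_le_iff₀ (hposm 1 le_rfl)]
    refine hnum.trans (hnum2.trans ?_)
    gcongr
  have hux : u x < Real.exp (-p) := by linarith
  have h1 : Real.log (u x) < -p := by
    rw [Real.log_lt_iff_lt_exp hupos]
    exact hux
  have h2 : Real.log (u x) < -(1 / ε) := by linarith
  show 1 < -ε * Real.log (u x)
  have h3 : ε * Real.log (u x) < ε * -(1 / ε) := mul_lt_mul_of_pos_left h2 hε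
  have h4 : ε * -(1 / ε) = -1 := by field_simp
  linarith

end Pool.Agent.PFlow


end

section

/-!
# XTINT: the trace divided by the radius is integrable, for the exterior region
-/

open MeasureTheory Filter Topology
open scoped ContDiff

namespace Pool.Agent.PFlow

open Pool.Agent.PenroseSph

namespace XTINTm

open BARBm (nu dl)
open TINTm (pit nu_smooth VV abs_le_hat four int5 far)

section Smooth

variable {U : Set E3} {g h : TensorField} {x : E3}

theorem cd_inv (hU : IsOpen U) (hg : MetricOn U g) (hx : x ∈ U) (i j : Fin 3) :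
    ContDiffAt ℝ ∞ (fun y => (g y)⁻¹ i j) x :=
  EEtaAux.contDiffAt_inv (fun i j => (hg.smooth i j).contDiffAt (hU.mem_nhds hx))
    (hg.posDef x hx).det_pos.ne' i j

theorem cd_tr (hU : IsOpen U) (hg : MetricOn U g) (hh : TensorOn U h) (hx : x ∈ U) :
    ContDiffAt ℝ ∞ (fun y => trg g y (h y)) x := by
  unfold trg
  refine ContDiffAt.sum fun i _ => ContDiffAt.sum fun j _ => (cd_inv hU hg hx i j).mul ?_
  exact (hh.smooth i j).contDiffAt (hU.mem_nhds hx)

theorem cont_len (hU : IsOpen U) (hg : MetricOn U g) (hh : TensorOn U h) (hx : x ∈ U) :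
    ContinuousAt (fun y => len g y (grad (fun z => trg g z (h z)) y)) x := by
  unfold len
  refine ContinuousAt.sqrt ?_
  unfold ev
  refine tendsto_finsetSum _ fun i _ => tendsto_finsetSum _ fun j _ => ?_
  exact (((cd_inv hU hg hx i j).continuousAt).mul
    (EEtaAux.cont_pd (cd_tr hU hg hh hx) i)).mul (EEtaAux.cont_pd (cd_tr hU hg hh hx) j)

theorem cont_eEta (hU : IsOpen U) (hg : MetricOn U g) (hh : TensorOn U h) {η : ℝ} (hη : 0 < η)
    (hx : x ∈ U) : ContinuousAt (eEta η g h) x := by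
  unfold eEta
  have ht := (cd_tr hU hg hh hx).continuousAt
  have h1 : ContinuousAt (fun y => Real.sqrt (trg g y (h y) ^ 2 + η ^ 2)) x :=
    ((ht.pow 2).add continuousAt_const).sqrt
  have h2 : (Real.sqrt (trg g x (h x) ^ 2 + η ^ 2)) ^ 3 ≠ 0 := by
    have : 0 < trg g x (h x) ^ 2 + η ^ 2 := by positivity
    positivity
  exact continuousAt_const.add (((continuousAt_const.mul ht.abs).mul
    (cont_len hU hg hh hx)).div (h1.pow 3) h2)

theorem pit_smooth (hU : IsOpen U) (hg : MetricOn U g) (hh : TensorOn U h) (hx : x ∈ U)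
    (i j : Fin 3) : ContDiffAt ℝ ∞ (fun y => pit g h y i j) x :=
  ((hh.smooth i j).contDiffAt (hU.mem_nhds hx)).sub
    ((cd_tr hU hg hh hx).mul ((hg.smooth i j).contDiffAt (hU.mem_nhds hx)))

theorem VV_smooth (hU : IsOpen U) (hg : MetricOn U g) (hh : TensorOn U h) (hx : x ∈ U)
    (hx0 : x ≠ 0) {η : ℝ} (hη : 0 < η) (i : Fin 3) :
    ContDiffAt ℝ ∞ (fun y => VV η g h y i) x := by
  have h1 : ContDiffAt ℝ ∞ (fun y => hatF η (trg g y (h y))) x :=
    (HATC.hatF_smooth hη).contDiffAt.comp x (cd_tr hU hg hh hx)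
  exact h1.mul (ContDiffAt.sum fun j _ => (pit_smooth hU hg hh hx i j).mul (nu_smooth hx0 j))

theorem cont_jlen (hU : IsOpen U) (hg : MetricOn U g) (hh : TensorOn U h) (hx : x ∈ U) :
    ContinuousAt (jlen g h) x := by
  unfold jlen ev
  refine ContinuousAt.sqrt ?_
  refine tendsto_finsetSum _ fun i _ => tendsto_finsetSum _ fun j _ => ?_
  exact ((cd_inv hU hg hx i j).continuousAt.mul
    (MCF.mom_smooth hU hg hh hx i).continuousAt).mul
    (MCF.mom_smooth hU hg hh hx j).continuousAt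

end Smooth

theorem ne_zero_of_one {x : E3} (hx : 1 ≤ ‖x‖) : x ≠ 0 := by
  rintro rfl
  rw [norm_zero] at hx
  linarith

theorem mem_out {δ : ℝ} (hδ : 0 < δ) {x : E3} (hx : 1 ≤ ‖x‖) : x ∈ Outside δ := by
  change 1 - δ < ‖x‖
  linarith

theorem isOpen_out (δ : ℝ) : IsOpen (Outside δ) := isOpen_lt continuous_const continuous_norm

theorem integrable_cAnn {a b : ℝ} (ha : 1 ≤ a) {F : E3 → ℝ}
    (hF : ∀ x : E3, 1 ≤ ‖x‖ → ContinuousAt F x) : IntegrableOn F (cAnn a b) :=
  ContinuousOn.integrableOn_compact (EEtaAux.isCompact_cAnn a b)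
    fun _ hx => (hF _ (ha.trans hx.1)).continuousWithinAt

theorem nsq_le (hHATA : Stmt_HATA) {U : Set E3} {g h : TensorField} (hg : MetricOn U g)
    (hh : TensorOn U h) {x : E3} (hx : x ∈ U)
    (hp : (∀ v : Cov, ev (g x) v v = 1 → ev (h x) v v ≤ trg g x (h x)) ∨
      (∀ v : Cov, ev (g x) v v = 1 → trg g x (h x) ≤ ev (h x) v v)) :
    nsq g x (h x) ≤ 3 * trg g x (h x) ^ 2 := by
  rcases hp with h1 | h1
  · exact (hHATA g x (h x) (hg.posDef x hx) (hh.symm x hx) h1).2
  · have h2 := (hHATA g x ((-1 : ℝ) • h x) (hg.posDef x hx) ?_ ?_).2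
    · rw [HATC.nsq_smul, HATC.trg_smul] at h2
      nlinarith
    · have := hh.symm x hx
      unfold Matrix.IsSymm at this ⊢
      rw [Matrix.transpose_smul, this]
    · intro v hv
      rw [HATC.ev_smul, HATC.trg_smul]
      have := h1 v hv
      linarith

end XTINTm

open TINTm (Hy abs_le_hat four int5 far VV) in
open XTINTm in
/-- XTINT: the trace divided by the radius is integrable. -/
theorem XTINT (hXAFD : Stmt_XAFD) (hHATA : Stmt_HATA) (hDIVG : Stmt_DIVG)
    (hXJINT : Stmt_XJINT) : Stmt_XTINT := by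
  intro g h d₀ hd₀ hg hh hDec hsur hPS hFS
  obtain ⟨C₀, hC₀, hdec, hell⟩ := hXAFD g h d₀ hd₀ hg hh hDec
  obtain ⟨CJ, hCJ⟩ := hXJINT g h d₀ hd₀ hg hh hDec hsur
  obtain ⟨K₄, hK₄0, hK₄⟩ := four
  obtain ⟨δ₀, R, hδ₀, hfar⟩ := hFS
  set C := max C₀ 1 with hC
  have hC1 : 1 ≤ C := le_max_right _ _
  have hCC : C₀ ≤ C := le_max_left _ _
  set δ := min δ₀ 1 with hδ
  have hδ0 : 0 < δ := lt_min hδ₀ one_pos
  have hδ1 : δ ≤ 1 := min_le_right _ _
  have hδδ : δ ≤ δ₀ := min_le_left _ _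
  set a := max R 1 with ha
  have ha1 : 1 ≤ a := le_max_right _ _
  have haR : R ≤ a := le_max_left _ _
  have ha0 : 0 < a := by linarith
  have ho : IsOpen (Outside d₀) := isOpen_out d₀
  -- the bounds at a point
  have hHy : ∀ x : E3, 1 ≤ ‖x‖ → Hy C (1 / ‖x‖) g h x := by
    intro x hx
    have hx0 : x ≠ 0 := by
      rintro rfl
      rw [norm_zero] at hx
      linarith
    have hn : 0 < ‖x‖ := by linarith
    have hx' : x ∈ Outside d₀ := mem_out hd₀ hx
    have hd := hdec x hx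
    refine ⟨hC1, by positivity, ?_, MJD.pt_of ho hg hx', fun i j =>
      ((hh.smooth i j).contDiffAt (ho.mem_nhds hx')).differentiableAt (by norm_num), ?_, ?_, ?_,
      ?_, ?_⟩
    · rw [div_le_one hn]; exact hx
    · intro i j
      refine (hd i j).1.trans ?_
      rw [mul_one_div]
      exact div_le_div_of_nonneg_right hCC hn.le
    · intro k i j
      refine ((hd i j).2.1 k).trans ?_
      rw [div_pow, one_pow, mul_one_div]
      exact div_le_div_of_nonneg_right hCC (by positivity)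
    · intro i j
      refine ((hd i j).2.2.2.1).trans ?_
      rw [div_pow, one_pow, mul_one_div]
      exact div_le_div_of_nonneg_right hCC (by positivity)
    · intro k i j
      refine ((hd i j).2.2.2.2 k).trans ?_
      rw [div_pow, one_pow, mul_one_div]
      exact div_le_div_of_nonneg_right hCC (by positivity)
    · intro i j
      exact (EShell.inv_entry (hg.posDef x hx') (fun v => (hell x hx v).1) i j).trans hCC
  -- the pointwise inequality
  have hpt : ∀ η : ℝ, 0 < η → ∀ x : E3, a ≤ ‖x‖ →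
      δ * (hatF η (trg g x (h x)) * trg g x (h x) * (1 / ‖x‖)) ≤
        18 * C * jlen g h x + 351 * C ^ 2 * eEta η g h x + 3699 * C ^ 5 * (1 / ‖x‖) ^ 4
          - ∑ i, pd i (fun y => VV η g h y i) x := by
    intro η hη x hx
    have hx1 : 1 ≤ ‖x‖ := ha1.trans hx
    have hx0 : x ≠ 0 := by
      rintro rfl
      rw [norm_zero] at hx1
      linarith
    have hx' : x ∈ Outside d₀ := mem_out hd₀ hx1
    have hH := hHy x hx1
    obtain ⟨hf1, hf2⟩ := hfar x (haR.trans hx)
    have hev : 0 ≤ ev (g x) (fun i => x i) (fun i => x i) := by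
      have h1 := (hell x hx1 (fun i => x i)).1
      have h2 : 0 ≤ ∑ i, (x i) ^ 2 := Finset.sum_nonneg fun i _ => sq_nonneg _
      by_contra hc
      rw [not_le] at hc
      nlinarith
    have := hH.point (hg.posDef x hx') hx0 (nsq_le hHATA hg hh hx' (hPS x hx1)) hη hδ0.le hδ1 rfl
      (far hx0 hη hδδ hev hf1 hf2)
    linarith
  -- the area of the unit sphere
  set A := ((volume : Measure E3).toSphere).real Set.univ with hA
  have hA0 : 0 ≤ A := measureReal_nonneg
  -- boundary terms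
  have hbd : ∀ η : ℝ, 0 < η → ∀ b : ℝ, 1 ≤ b →
      |∫ θ : Metric.sphere (0 : E3) 1, (∑ i, VV η g h (b • (θ : E3)) i * (θ : E3) i) * b ^ 2
        ∂((volume : Measure E3).toSphere)| ≤ 171 * C ^ 3 * A := by
    intro η hη b hb
    rw [← Real.norm_eq_abs]
    refine norm_integral_le_of_norm_le_const (Eventually.of_forall fun θ => ?_)
    have hb0 : 0 < b := by linarith
    have hθ : ‖(θ : E3)‖ = 1 := mem_sphere_zero_iff_norm.1 θ.2
    have hθ0 : (θ : E3) ≠ 0 := by
      intro hc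
      rw [hc, norm_zero] at hθ
      linarith
    have hnb : ‖b • (θ : E3)‖ = b := by
      rw [norm_smul, hθ, mul_one, Real.norm_of_nonneg hb0.le]
    have hne : b • (θ : E3) ≠ 0 := smul_ne_zero hb0.ne' hθ0
    have hH := hHy (b • (θ : E3)) (by rw [hnb]; exact hb)
    rw [hnb] at hH
    have hθi : ∀ i, |(θ : E3) i| ≤ 1 := by
      intro i
      have := BARBm.n_le (BARBm.nu_sq hθ0) i
      unfold BARBm.nu at this
      rwa [hθ, div_one] at this
    rw [Real.norm_eq_abs]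
    refine (BARBm.mul_le (BARBm.sum1_le fun i => BARBm.mul_le (hH.VV_le hne hη i) (hθi i))
      (le_refl |b ^ 2|)).trans (le_of_eq ?_)
    rw [abs_of_nonneg (by positivity : 0 ≤ b ^ 2)]
    field_simp
    norm_num
  -- the constant
  set K := 18 * C * |CJ| + 3699 * C ^ 5 * K₄ + 342 * C ^ 3 * A with hK
  -- the integral inequality for fixed `η`
  have hint : ∀ b : ℝ, a ≤ b → ∀ η : ℝ, 0 < η →
      δ * ∫ x in cAnn a b, |trg g x (h x)| / ‖x‖ ≤
        K + 351 * C ^ 2 * (∫ x in cAnn a b, eEta η g h x) + η * (volume (cAnn a b)).toReal := by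
    intro b hab η hη
    have hKc := EEtaAux.isCompact_cAnn a b
    have hms := hKc.measurableSet
    have hVc : ∀ i, ∀ x : E3, 1 ≤ ‖x‖ → ContinuousAt (pd i (fun y => VV η g h y i)) x :=
      fun i x hx => EEtaAux.cont_pd
        (VV_smooth ho hg hh (mem_out hd₀ hx) (ne_zero_of_one hx) hη i) i
    have i1 : IntegrableOn (fun x => jlen g h x) (cAnn a b) :=
      integrable_cAnn ha1 fun x hx => cont_jlen ho hg hh (mem_out hd₀ hx)
    have i2 : IntegrableOn (fun x => eEta η g h x) (cAnn a b) :=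
      integrable_cAnn ha1 fun x hx => cont_eEta ho hg hh hη (mem_out hd₀ hx)
    have i3 : IntegrableOn (fun x : E3 => (1 / ‖x‖) ^ 4) (cAnn a b) :=
      integrable_cAnn ha1 fun x hx =>
        ((continuousAt_const.div continuousAt_id.norm
          (norm_ne_zero_iff.2 (ne_zero_of_one hx))).pow 4)
    have i4 : IntegrableOn (fun x => ∑ i, pd i (fun y => VV η g h y i) x) (cAnn a b) :=
      integrable_cAnn ha1 fun x hx => tendsto_finsetSum _ fun i _ => hVc i x hx
    have i5 : IntegrableOn (fun x => |trg g x (h x)| / ‖x‖) (cAnn a b) :=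
      integrable_cAnn ha1 fun x hx => (cd_tr ho hg hh (mem_out hd₀ hx)).continuousAt.abs.div
        continuousAt_id.norm (norm_ne_zero_iff.2 (ne_zero_of_one hx))
    have i6 : IntegrableOn (fun _ : E3 => η) (cAnn a b) := by
      exact integrableOn_const hKc.measure_lt_top.ne
    have h1 : ∫ x in cAnn a b, δ * (|trg g x (h x)| / ‖x‖) ≤
        ∫ x in cAnn a b, (18 * C * jlen g h x + 351 * C ^ 2 * eEta η g h x
          + 3699 * C ^ 5 * (1 / ‖x‖) ^ 4 - ∑ i, pd i (fun y => VV η g h y i) x + η) := by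
      refine setIntegral_mono_on (i5.const_mul δ) (((((i1.const_mul _).add (i2.const_mul _)).add
        (i3.const_mul _)).sub i4).add i6) hms fun x hx => ?_
      have h2 := hpt η hη x hx.1
      have h3 := abs_le_hat hη (trg g x (h x))
      have hx1 : 1 ≤ ‖x‖ := ha1.trans hx.1
      have h4 : |trg g x (h x)| / ‖x‖ ≤
          hatF η (trg g x (h x)) * trg g x (h x) * (1 / ‖x‖) + η := by
        have h5 : |trg g x (h x)| / ‖x‖ ≤ (hatF η (trg g x (h x)) * trg g x (h x) + η) / ‖x‖ :=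
          div_le_div_of_nonneg_right h3 (by positivity)
        have h6 : η / ‖x‖ ≤ η := div_le_self hη.le hx1
        have h7 : (hatF η (trg g x (h x)) * trg g x (h x) + η) / ‖x‖ =
          hatF η (trg g x (h x)) * trg g x (h x) * (1 / ‖x‖) + η / ‖x‖ := by ring
        linarith
      have h8 := mul_le_mul_of_nonneg_left h4 hδ0.le
      have h9 : δ * η ≤ η := by nlinarith
      have h10 : δ * (hatF η (trg g x (h x)) * trg g x (h x) * (1 / ‖x‖) + η) =
        δ * (hatF η (trg g x (h x)) * trg g x (h x) * (1 / ‖x‖)) + δ * η := by ring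
      linarith
    have e1 : ∫ x in cAnn a b, (18 * C * jlen g h x + 351 * C ^ 2 * eEta η g h x
          + 3699 * C ^ 5 * (1 / ‖x‖) ^ 4 - ∑ i, pd i (fun y => VV η g h y i) x + η) =
        18 * C * (∫ x in cAnn a b, jlen g h x) + 351 * C ^ 2 * (∫ x in cAnn a b, eEta η g h x)
          + 3699 * C ^ 5 * (∫ x in cAnn a b, (1 / ‖x‖) ^ 4)
          - (∫ x in cAnn a b, ∑ i, pd i (fun y => VV η g h y i) x)
          + η * (volume (cAnn a b)).toReal := by
      rw [int5 _ _ _ η i1 i2 i3 i4 i6, setIntegral_const, smul_eq_mul, mul_comm _ η]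
      rfl
    rw [integral_const_mul, e1] at h1
    -- the divergence
    have h2 := hDIVG (VV η g h) a b ha0 hab fun x hx i =>
      (VV_smooth ho hg hh (mem_out hd₀ (ha1.trans hx.1)) (ne_zero_of_one (ha1.trans hx.1)) hη
        i).of_le (by norm_num)
    have h3 := abs_le.1 (hbd η hη b (ha1.trans hab))
    have h4 := abs_le.1 (hbd η hη a ha1)
    have h5 : -(∫ x in cAnn a b, ∑ i, pd i (fun y => VV η g h y i) x) ≤ 342 * C ^ 3 * A := by
      rw [h2]
      linarith [h3.1, h4.2]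
    -- the momentum density
    have h6 : ∫ x in cAnn a b, jlen g h x ≤ |CJ| := by
      refine le_trans ?_ ((hCJ b (ha1.trans hab)).trans (le_abs_self _))
      refine setIntegral_mono_set ?_ ?_ ?_
      · exact integrable_cAnn le_rfl fun x hx => cont_jlen ho hg hh (mem_out hd₀ hx)
      · exact Eventually.of_forall fun x => Real.sqrt_nonneg _
      · exact LE.le.eventuallyLE fun x hx => ⟨ha1.trans hx.1, hx.2⟩
    have h7 := hK₄ b a ha1
    have h8 := mul_le_mul_of_nonneg_left h6 (by positivity : 0 ≤ 18 * C)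
    have h9 := mul_le_mul_of_nonneg_left h7 (by positivity : 0 ≤ 3699 * C ^ 5)
    rw [hK]
    linarith
  -- the limit `η → 0`
  have hbnd : ∀ b : ℝ, a ≤ b → ∫ x in cAnn a b, |trg g x (h x)| / ‖x‖ ≤ K / δ := by
    intro b hab
    have hKc := EEtaAux.isCompact_cAnn a b
    have hcont : ContinuousOn (fun y => len g y (grad (fun z => trg g z (h z)) y)) (cAnn a b) :=
      fun x hx => (cont_len ho hg hh (mem_out hd₀ (ha1.trans hx.1))).continuousWithinAt
    obtain ⟨B, hB⟩ := hKc.exists_bound_of_continuousOn hcont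
    have hlim : Tendsto (fun n : ℕ => ∫ x in cAnn a b, eEta (1 / ((n : ℝ) + 1)) g h x)
        atTop (𝓝 (∫ x in cAnn a b, (0 : ℝ))) := by
      refine tendsto_integral_of_dominated_convergence (fun _ => (1 / 2 + 2 * |B|)) ?_ ?_ ?_ ?_
      · intro n
        have h1 : (0 : ℝ) < 1 / ((n : ℝ) + 1) := by positivity
        exact (integrable_cAnn ha1 fun x hx =>
          cont_eEta ho hg hh h1 (mem_out hd₀ hx)).aestronglyMeasurable
      · have : IntegrableOn (fun _ : E3 => (1 / 2 + 2 * |B|)) (cAnn a b) volume :=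
          integrableOn_const hKc.measure_lt_top.ne
        exact this
      · intro n
        rw [ae_restrict_iff' hKc.measurableSet]
        refine Eventually.of_forall fun x hx => ?_
        have h1 : (0 : ℝ) < 1 / ((n : ℝ) + 1) := by positivity
        have h2 : 1 / ((n : ℝ) + 1) ≤ 1 := by
          rw [div_le_one (by positivity)]
          have : (0 : ℝ) ≤ n := Nat.cast_nonneg n
          linarith
        have h3 := EEtaAux.eEta_le (g := g) (h := h) h1 h2 x
        have h4 := hB x hx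
        rw [Real.norm_eq_abs] at h4
        rw [Real.norm_eq_abs, abs_of_nonneg (EEtaAux.eEta_nonneg _ x)]
        have h5 := (le_abs_self _).trans (h4.trans (le_abs_self B))
        linarith
      · exact Eventually.of_forall fun x => EEtaAux.tendsto_eEta x
    rw [integral_zero] at hlim
    have h0 : Tendsto (fun n : ℕ => 1 / ((n : ℝ) + 1)) atTop (𝓝 0) :=
      tendsto_one_div_add_atTop_nhds_zero_nat
    have hlim2 : Tendsto (fun n : ℕ => K
        + 351 * C ^ 2 * (∫ x in cAnn a b, eEta (1 / ((n : ℝ) + 1)) g h x)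
        + 1 / ((n : ℝ) + 1) * (volume (cAnn a b)).toReal) atTop
        (𝓝 (K + 351 * C ^ 2 * 0 + 0 * (volume (cAnn a b)).toReal)) :=
      (tendsto_const_nhds.add (hlim.const_mul _)).add (h0.mul_const _)
    have h1 := ge_of_tendsto' hlim2 fun n => hint b hab _ (by positivity)
    rw [le_div_iff₀ hδ0]
    linarith
  -- integrability
  have hcont : ∀ x : E3, 1 ≤ ‖x‖ → ContinuousAt (fun x => |trg g x (h x)| / ‖x‖) x :=
    fun x hx => (cd_tr ho hg hh (mem_out hd₀ hx)).continuousAt.abs.div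
        continuousAt_id.norm (norm_ne_zero_iff.2 (ne_zero_of_one hx))
  have hI : IntegrableOn (fun x => |trg g x (h x)| / ‖x‖) {x : E3 | a ≤ ‖x‖} := by
    have hcov : AECover (volume.restrict {x : E3 | a ≤ ‖x‖}) atTop
        (fun n : ℕ => Metric.closedBall (0 : E3) (n : ℝ)) :=
      aecover_closedBall tendsto_natCast_atTop_atTop
    have hset : ∀ n : ℕ, Metric.closedBall (0 : E3) (n : ℝ) ∩ {x : E3 | a ≤ ‖x‖} =
        cAnn a n := by
      intro n
      ext x
      simp only [cAnn, Set.mem_inter_iff, Metric.mem_closedBall, dist_zero_right]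
      exact and_comm
    have hres : ∀ n : ℕ, (volume.restrict {x : E3 | a ≤ ‖x‖}).restrict
        (Metric.closedBall (0 : E3) (n : ℝ)) = volume.restrict (cAnn a n) := by
      intro n
      rw [Measure.restrict_restrict Metric.isClosed_closedBall.measurableSet, hset]
    refine hcov.integrable_of_integral_bounded_of_nonneg_ae (K / δ) ?_ ?_ ?_
    · intro n
      unfold IntegrableOn
      rw [hres]
      exact integrable_cAnn ha1 hcont
    · exact Eventually.of_forall fun x => by positivity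
    · filter_upwards [eventually_ge_atTop ⌈a⌉₊] with n hn
      rw [hres]
      exact hbnd n ((Nat.le_ceil a).trans (by exact_mod_cast hn))
  have hI2 : IntegrableOn (fun x => |trg g x (h x)| / ‖x‖) (cAnn 1 a) :=
    integrable_cAnn le_rfl hcont
  refine (hI2.union hI).mono_set fun x hx => ?_
  rcases le_total ‖x‖ a with h1 | h1
  · exact Or.inl ⟨hx, h1⟩
  · exact Or.inr h1

end Pool.Agent.PFlow


end

section

/-!
# Module XXWO: the cubic integral over the outer windows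
-/

open MeasureTheory Filter Topology
open scoped ContDiff ENNReal

namespace Pool.Agent.PFlow

open Pool.Agent.PenroseSph

namespace XXWOm

/-! ## The flat metric -/

lemma isOpen_Ann (a b : ℝ) : IsOpen (Ann a b) :=
  (isOpen_lt continuous_const continuous_norm).inter (isOpen_lt continuous_norm continuous_const)

lemma christoffel_flat {g : TensorField} {x : E3} (h : ∀ᶠ y in 𝓝 x, g y = 1) (k i j : Fin 3) :
    christoffel g k i j x = 0 := by
  have h1 : ∀ a b c : Fin 3, pd c (fun y => g y a b) x = 0 := by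
    intro a b c
    have h2 : (fun y => g y a b) =ᶠ[𝓝 x] fun _ => (1 : Bil) a b := by
      filter_upwards [h] with y hy
      rw [hy]
    unfold pd
    rw [h2.fderiv_eq]
    simp
  simp [christoffel, h1]

lemma cHess_flat {g : TensorField} {x : E3} (h : ∀ᶠ y in 𝓝 x, g y = 1) (p : Cov) (M : Bil) :
    cHess g x p M = M := by
  ext i j
  simp [cHess, christoffel_flat h]

lemma len_flat {g : TensorField} {x : E3} (h : g x = 1) (p : Cov) : len g x p = vsz p := by
  simp only [len, vsz, h, inv_one, ev]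
  congr 1
  refine Finset.sum_congr rfl fun i _ => ?_
  rw [Finset.sum_eq_single i]
  · rw [Matrix.one_apply_eq]
    ring
  · intro j _ hj
    rw [Matrix.one_apply_ne (Ne.symm hj)]
    ring
  · intro h
    exact absurd (Finset.mem_univ i) h

lemma volDen_flat {g : TensorField} {x : E3} (h : g x = 1) : volDen g x = 1 := by
  simp [volDen, h]

lemma trg_flat {g : TensorField} {x : E3} (h : g x = 1) (B : Bil) : trg g x B = ∑ i, B i i := by
  simp only [trg, h, inv_one]
  refine Finset.sum_congr rfl fun i _ => ?_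
  rw [Finset.sum_eq_single i]
  · rw [Matrix.one_apply_eq, one_mul]
  · intro j _ hj
    rw [Matrix.one_apply_ne (Ne.symm hj), zero_mul]
  · intro h
    exact absurd (Finset.mem_univ i) h

lemma raise_flat {g : TensorField} {x : E3} (h : g x = 1) (p : Cov) : raise g x p = p := by
  funext i
  simp only [raise, h, inv_one]
  rw [Finset.sum_eq_single i]
  · rw [Matrix.one_apply_eq, one_mul]
  · intro j _ hj
    rw [Matrix.one_apply_ne (Ne.symm hj), zero_mul]
  · intro h
    exact absurd (Finset.mem_univ i) h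

lemma vsz_sq (p : Cov) : vsz p ^ 2 = ∑ i, p i ^ 2 :=
  Real.sq_sqrt (Finset.sum_nonneg fun i _ => sq_nonneg _)

lemma msz_sq (B : Bil) : msz B ^ 2 = ∑ i, ∑ j, B i j ^ 2 :=
  Real.sq_sqrt (Finset.sum_nonneg fun i _ => Finset.sum_nonneg fun j _ => sq_nonneg _)

lemma vsz_nonneg (p : Cov) : 0 ≤ vsz p := Real.sqrt_nonneg _

lemma msz_nonneg (B : Bil) : 0 ≤ msz B := Real.sqrt_nonneg _

lemma vsz_pos {p : Cov} (h : p ≠ 0) : 0 < vsz p := by
  apply Real.sqrt_pos.mpr
  by_contra h1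
  apply h
  have h2 : ∑ i, p i ^ 2 = 0 :=
    le_antisymm (not_lt.mp h1) (Finset.sum_nonneg fun i _ => sq_nonneg _)
  rw [Finset.sum_eq_zero_iff_of_nonneg (fun i _ => sq_nonneg _)] at h2
  funext i
  have h3 := h2 i (Finset.mem_univ i)
  exact pow_eq_zero_iff (two_ne_zero) |>.mp h3

lemma vsz_smul (c : ℝ) (p : Cov) : vsz (fun i => c * p i) = |c| * vsz p := by
  have h1 : ∑ i, (c * p i) ^ 2 = c ^ 2 * ∑ i, p i ^ 2 := by
    rw [Finset.mul_sum]
    exact Finset.sum_congr rfl fun i _ => by ring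
  simp only [vsz]
  rw [h1, Real.sqrt_mul (sq_nonneg c), Real.sqrt_sq_eq_abs]

/-- Cauchy-Schwarz. -/
lemma abs_ev_le (B : Bil) (n : Cov) (hn : ∑ i, n i ^ 2 = 1) : |ev B n n| ≤ msz B := by
  have h1 : ev B n n = ∑ i, n i * ∑ j, B i j * n j := by
    simp only [ev]
    refine Finset.sum_congr rfl fun i _ => ?_
    rw [Finset.mul_sum]
    exact Finset.sum_congr rfl fun j _ => by ring
  have h2 : ev B n n ^ 2 ≤ msz B ^ 2 := by
    rw [h1, msz_sq]
    refine (Finset.sum_mul_sq_le_sq_mul_sq _ _ _).trans ?_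
    rw [hn, one_mul]
    refine Finset.sum_le_sum fun i _ => ?_
    refine (Finset.sum_mul_sq_le_sq_mul_sq _ _ _).trans ?_
    rw [hn, mul_one]
  exact abs_le_of_sq_le_sq h2 (msz_nonneg B)

lemma bnn_flat {g : TensorField} {x : E3} (h : g x = 1) {p : Cov} (hp : p ≠ 0) (B : Bil) :
    |bnn g x p B| ≤ msz B := by
  refine abs_ev_le B _ ?_
  have h1 : ∀ i, nrm g x p i ^ 2 = p i ^ 2 / vsz p ^ 2 := by
    intro i
    simp only [nrm, raise_flat h, len_flat h]
    rw [div_pow]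
  rw [Finset.sum_congr rfl (fun i _ => h1 i), ← Finset.sum_div, ← vsz_sq]
  exact div_self (pow_ne_zero 2 (vsz_pos hp).ne')

lemma H2On_mono {U V : Set E3} {w : E3 → ℝ} {G : E3 → Cov} {M : E3 → Bil} (h : H2On U w G M)
    (hV : V ⊆ U) : H2On V w G M :=
  ⟨h.cont.mono hV, fun K hK hKV => h.memG K hK (hKV.trans hV),
    fun K hK hKV => h.memM K hK (hKV.trans hV), fun K hK hKV => h.approx K hK (hKV.trans hV)⟩

end XXWOm

open XXWOm in
/-- **(XXWO)** The cubic integral over the outer windows. -/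
theorem XXWO (hXSETW : Stmt_XSETW) (hLE : Stmt_LE) : Stmt_XXWO := by
  intro P
  by_cases hP : 0 < P.eps ∧ P.eps ≤ 1 / 2 ∧ 2 ≤ P.gam
  swap
  · exact ⟨1, one_pos, fun D S => absurd ⟨S.eps_pos, S.eps_le, S.gam_ge⟩ hP⟩
  obtain ⟨hε, hε2, hγ2⟩ := hP
  have hγ : 0 < P.gam := by linarith
  have h2ε : 0 < 2 - P.eps := by linarith
  set a := Real.exp (-P.gam / (2 - P.eps)) with ha
  set b := Real.exp ((1 + P.gam) / (2 - P.eps)) with hb
  have ha0 : 0 < a := Real.exp_pos _
  have hb0 : 0 < b := Real.exp_pos _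
  have hab : a < b := by
    apply Real.exp_lt_exp.mpr
    exact (div_lt_div_iff_of_pos_right h2ε).mpr (by linarith)
  obtain ⟨C, hC, hLE'⟩ := hLE P.eps 0 (a / 2) a b (2 * b) hε (by linarith) le_rfl
    (by linarith) (by linarith) hab (by linarith)
  refine ⟨P.eps ^ 3 * C * Real.exp ((1 + 2 * P.gam + (2 - P.eps) * Real.log 2) / P.eps) ^ 3,
    by positivity, ?_⟩
  intro D S s hs hs1
  obtain ⟨-, -, -, -, -, -, hmeas, -, -, -, -, hR2, h4l, -⟩ := hXSETW P D S
  have hl : 8 ≤ D.l := S.l_ge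
  have hR0 : 0 < D.R := by
    have h1 := S.R_ge
    have h2 : 0 < kE P.eps P.gam ^ 4 * D.l := by
      have h3 : 0 < kE P.eps P.gam := by
        unfold kE
        positivity
      positivity
    linarith
  set ρ := Real.exp (s / (2 - P.eps)) with hρ
  have hρ0 : 0 < ρ := Real.exp_pos _
  have haρ : a * ρ = Real.exp ((s - P.gam) / (2 - P.eps)) := by
    rw [ha, hρ, ← Real.exp_add]
    congr 1
    ring
  have hbρ : b * ρ = Real.exp ((s + 1 + P.gam) / (2 - P.eps)) := by
    rw [hb, hρ, ← Real.exp_add]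
    congr 1
    ring
  have h4 : 4 * D.l ≤ a * ρ := by
    rw [haρ, ← Real.log_le_iff_le_exp (by linarith), le_div_iff₀ h2ε]
    have h1 : D.s2 P = (2 - P.eps) * Real.log (4 * D.l) + P.gam := rfl
    rw [h1] at hs
    linarith
  have hbR : b * ρ ≤ D.R / 2 := by
    rw [hbρ, ← Real.le_log_iff_exp_le (by linarith), div_le_iff₀ h2ε]
    have h1 : D.sM P = (2 - P.eps) * Real.log (D.R / 2) - P.gam := rfl
    rw [h1] at hs1
    linarith
  -- the big annulus
  have hbig : ∀ x ∈ Ann (a / 2 * ρ) (2 * b * ρ), 2 * D.l < ‖x‖ ∧ ‖x‖ < D.R := by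
    intro x hx
    constructor
    · have h1 := hx.1
      nlinarith
    · have h1 := hx.2
      nlinarith
  have hsub : Ann (a / 2 * ρ) (2 * b * ρ) ⊆ Ann (1 / 2) D.R := by
    intro x hx
    obtain ⟨h1, h2⟩ := hbig x hx
    exact ⟨by linarith, h2⟩
  have hflat : ∀ x : E3, 2 * D.l < ‖x‖ → ∀ᶠ y in 𝓝 x, D.g' y = 1 := by
    intro x hx
    filter_upwards [(isOpen_lt continuous_const continuous_norm).mem_nhds hx] with y hy
    exact S.modified.flat y (le_of_lt hy)
  have hh0 : ∀ x : E3, 2 * D.l < ‖x‖ → D.h' x = 0 := by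
    intro x hx
    exact S.modified.supp x (by linarith)
  have hsol := S.sol
  have hloc := S.located
  -- the bound for `u`
  set T := Real.exp ((2 * P.gam + (2 - P.eps) * Real.log 2 - s) / P.eps) with hT
  have hT0 : 0 < T := Real.exp_pos _
  have hub : ∀ x ∈ Ann (a / 2 * ρ) (2 * b * ρ), |D.u x| ≤ T := by
    intro x hx
    obtain ⟨h1, h2⟩ := hbig x hx
    have hu : 0 < D.u x := hloc.pos x (hsub hx)
    rw [abs_of_pos hu, hT, ← Real.log_le_iff_le_exp hu, le_div_iff₀ hε]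
    have h3 := hloc.outer_low x (by linarith) h2
    have h5 : wOf P.eps D.u x = -P.eps * Real.log (D.u x) := rfl
    rw [h5] at h3
    have hx0 : 0 < ‖x‖ := by linarith
    have h6 : (s - P.gam) / (2 - P.eps) - Real.log 2 ≤ Real.log ‖x‖ := by
      rw [Real.le_log_iff_exp_le hx0, Real.exp_sub, Real.exp_log two_pos, ← haρ]
      have h7 := hx.1
      linarith
    have h7 : (2 - P.eps) * ((s - P.gam) / (2 - P.eps) - Real.log 2)
        = s - P.gam - (2 - P.eps) * Real.log 2 := by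
      field_simp
    have h8 := mul_le_mul_of_nonneg_left h6 h2ε.le
    rw [h7] at h8
    linarith
  -- the equation in the flat region
  have heq : ∀ᵐ x ∂(volume.restrict (Ann (a / 2 * ρ) (2 * b * ρ))),
      |∑ i, D.M x i i| ≤ (1 - P.eps) * msz (D.M x) + 0 / ρ * vsz (D.G x) := by
    have h1 : ∀ᵐ x ∂(volume.restrict (Ann (a / 2 * ρ) (2 * b * ρ))), _ :=
      ae_restrict_of_ae_restrict_of_subset hsub hsol.eq
    filter_upwards [h1, ae_restrict_mem (isOpen_Ann _ _).measurableSet] with x hx hxA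
    obtain ⟨h2, -⟩ := hbig x hxA
    have hg := hflat x h2
    have hg1 : D.g' x = 1 := hg.self_of_nhds
    rw [zero_div, zero_mul, add_zero]
    by_cases hG : D.G x = 0
    · rw [hx.2 hG]
      simp only [Matrix.zero_apply, Finset.sum_const_zero, abs_zero]
      exact mul_nonneg (by linarith) (msz_nonneg _)
    · have h3 := hx.1 hG
      rw [cHess_flat hg, hh0 x h2] at h3
      have h5 : beps P.eps D.g' x (D.G x) (0 : Bil) = 0 := by
        simp [beps, trg, bnn, ev]
      rw [h5, mul_zero, add_zero, beps, trg_flat hg1] at h3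
      have h6 : ∑ i, D.M x i i = (1 - P.eps) * bnn D.g' x (D.G x) (D.M x) := by linarith
      rw [h6, abs_mul, abs_of_nonneg (by linarith : (0 : ℝ) ≤ 1 - P.eps)]
      exact mul_le_mul_of_nonneg_left (bnn_flat hg1 hG _) (by linarith)
  obtain ⟨hint, hle⟩ := hLE' ρ T D.u D.G D.M hρ0 hT0.le (H2On_mono hsol.h2 hsub) hub heq
  -- the window
  set Wn : Set E3 := D.Om ∩ {x | s < D.w P x ∧ D.w P x < s + 1} with hWn
  have hWm : MeasurableSet Wn := by
    refine (isOpen_Ann _ _).measurableSet.inter ?_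
    exact (measurableSet_lt measurable_const hmeas).inter (measurableSet_lt hmeas measurable_const)
  have hWsub : Wn ⊆ cAnn (a * ρ) (b * ρ) := by
    rintro x ⟨hxO, hx1, hx2⟩
    have h1 := hR2 x hxO (by linarith)
    have h2 := h4l x hxO (by linarith)
    have h3 := abs_le.mp (hloc.outer x (by linarith) h1.le)
    have h5 : D.w P x = wOf P.eps D.u x + P.eps / 4 := rfl
    have hx0 : 0 < ‖x‖ := by linarith
    constructor
    · rw [haρ, ← Real.le_log_iff_exp_le hx0, div_le_iff₀ h2ε]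
      linarith [h3.2]
    · rw [hbρ, ← Real.log_le_iff_le_exp hx0, le_div_iff₀ h2ε]
      linarith [h3.1]
  set k := P.eps * Real.exp ((s + 1) / P.eps) with hk
  have hk0 : 0 < k := by positivity
  have hpt : ∀ x ∈ Wn, D.X P x ^ 3 * D.vol x ≤ k ^ 3 * vsz (D.G x) ^ 3 := by
    intro x hxW
    obtain ⟨hxO, hx1, hx2⟩ := id hxW
    have h2 := h4l x hxO (by linarith)
    have hg1 : D.g' x = 1 := (hflat x (by linarith)).self_of_nhds
    have hu : 0 < D.u x := hloc.pos x ⟨by linarith [hxO.1], hxO.2⟩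
    have h3 : D.vol x = 1 := volDen_flat hg1
    have h5 : D.X P x = P.eps / D.u x * vsz (D.G x) := by
      have h6 : D.X P x = vsz (D.Gw P x) := len_flat hg1 _
      have h7 : D.Gw P x = fun i => -(P.eps / D.u x) * D.G x i := by
        funext i
        change -P.eps * (D.G x i / D.u x) = _
        ring
      rw [h6, h7, vsz_smul, abs_neg, abs_of_pos (by positivity)]
    have h6 : P.eps / D.u x ≤ k := by
      rw [hk, div_eq_mul_inv]
      refine mul_le_mul_of_nonneg_left ?_ hε.le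
      have h7 : Real.exp (-((s + 1) / P.eps)) ≤ D.u x := by
        rw [← Real.le_log_iff_exp_le hu]
        have h8 : D.w P x = -P.eps * Real.log (D.u x) + P.eps / 4 := rfl
        rw [h8] at hx2
        have h9 : -((s + 1) / P.eps) * P.eps = -(s + 1) := by
          field_simp
        have h10 : -((s + 1) / P.eps) * P.eps ≤ Real.log (D.u x) * P.eps := by
          rw [h9]
          linarith
        exact le_of_mul_le_mul_right h10 hε
      have h8 := inv_anti₀ (Real.exp_pos _) h7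
      rwa [Real.exp_neg, inv_inv] at h8
    rw [h3, mul_one, ← mul_pow, h5]
    refine pow_le_pow_left₀ (mul_nonneg (by positivity) (vsz_nonneg _)) ?_ 3
    exact mul_le_mul_of_nonneg_right h6 (vsz_nonneg _)
  have hnn : ∀ x ∈ Wn, 0 ≤ D.X P x ^ 3 * D.vol x := by
    intro x _
    have h1 : 0 ≤ D.X P x := Real.sqrt_nonneg _
    have h2 : 0 ≤ D.vol x := Real.sqrt_nonneg _
    positivity
  have hI : IntegrableOn (fun x => k ^ 3 * vsz (D.G x) ^ 3) (cAnn (a * ρ) (b * ρ)) :=
    hint.const_mul _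
  have h1 : ∫ x in Wn, D.X P x ^ 3 * D.vol x ≤ ∫ x in Wn, k ^ 3 * vsz (D.G x) ^ 3 := by
    refine integral_mono_of_nonneg ?_ (hI.mono_set hWsub) ?_
    · exact ae_restrict_of_forall_mem hWm hnn
    · exact ae_restrict_of_forall_mem hWm hpt
  have h2 : ∫ x in Wn, k ^ 3 * vsz (D.G x) ^ 3
      ≤ ∫ x in cAnn (a * ρ) (b * ρ), k ^ 3 * vsz (D.G x) ^ 3 := by
    refine setIntegral_mono_set hI ?_ (HasSubset.Subset.eventuallyLE hWsub)
    refine Filter.Eventually.of_forall fun x => ?_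
    have h3 := vsz_nonneg (D.G x)
    change 0 ≤ k ^ 3 * vsz (D.G x) ^ 3
    positivity
  refine h1.trans (h2.trans ?_)
  rw [integral_const_mul]
  refine (mul_le_mul_of_nonneg_left hle (by positivity)).trans (le_of_eq ?_)
  have h3 : Real.exp ((1 + 2 * P.gam + (2 - P.eps) * Real.log 2) / P.eps)
      = Real.exp ((s + 1) / P.eps) * T := by
    rw [hT, ← Real.exp_add]
    congr 1
    ring
  rw [h3, hk]
  ring

end Pool.Agent.PFlow


end
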