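import Mathlib
import Pool.Agent.PFlow.StmtsX2
import Pool.Agent.PenroseM.C05
import Pool.Agent.PenroseM.C13
import Pool.Agent.PenroseM.C14
import Pool.Agent.PenroseM.C33
import Pool.Agent.PenroseM.C41
import Pool.Agent.PenroseM.C56
import Pool.Agent.PenroseM.C66
import Pool.Agent.PenroseM.C67

/-! Parts: PFlow.HX.HXC, PFlow.HX.HXLAM, PFlow.X.XABS, PFlow.X.XDEFE, PFlow.X.XCOLE, PFlow.X.XJINT, PFlow.X.XWGTE -/

section

/-!
# HXC: the first derivatives are controlled by the second ones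
-/

open MeasureTheory Filter Topology
open scoped ContDiff ENNReal

namespace Pool.Agent.PFlow.HX

open Pool.Agent.PenroseSph Pool.Agent.PFlow

namespace HXCaux

variable {μ : Measure E3}

theorem N_sq {φ : E3 → ℝ} (hφ : MemLp φ 2 μ) : MBAD.N μ φ ^ 2 = ∫ x, φ x ^ 2 ∂μ := by
  unfold MBAD.N
  rw [hφ.eLpNorm_eq_integral_rpow_norm (by norm_num) (by norm_num)]
  have h0 : 0 ≤ ∫ x, φ x ^ 2 ∂μ := integral_nonneg fun x => sq_nonneg _
  have h1 : ∫ x, ‖φ x‖ ^ (2 : ℝ≥0∞).toReal ∂μ = ∫ x, φ x ^ 2 ∂μ := by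
    refine integral_congr_ae (Eventually.of_forall fun x => ?_)
    show ‖φ x‖ ^ (2 : ℝ≥0∞).toReal = φ x ^ 2
    rw [ENNReal.toReal_ofNat, Real.rpow_ofNat, Real.norm_eq_abs, sq_abs]
  rw [h1, ENNReal.toReal_ofReal (by positivity), ENNReal.toReal_ofNat, ← Real.rpow_natCast,
    ← Real.rpow_mul h0]
  norm_num

theorem N_eq {φ : E3 → ℝ} (hφ : MemLp φ 2 μ) :
    MBAD.N μ φ = Real.sqrt (∫ x, φ x ^ 2 ∂μ) := by
  rw [← N_sq hφ, Real.sqrt_sq (MBAD.N_nonneg _)]

/-- Convergence of weighted squares. -/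
theorem tendsto_wsq {c : E3 → ℝ} {f : ℕ → E3 → ℝ} {F : E3 → ℝ}
    (hc : AEStronglyMeasurable c μ) (hc1 : ∀ x, |c x| ≤ 1) (hf : ∀ n, MemLp (f n) 2 μ)
    (hF : MemLp F 2 μ) (h : Tendsto (fun n => ∫ x, (f n x - F x) ^ 2 ∂μ) atTop (𝓝 0)) :
    Tendsto (fun n => ∫ x, (c x * f n x) ^ 2 ∂μ) atTop (𝓝 (∫ x, (c x * F x) ^ 2 ∂μ)) := by
  have hm : ∀ {φ : E3 → ℝ}, MemLp φ 2 μ → MemLp (fun x => c x * φ x) 2 μ := by
    intro φ hφ
    refine hφ.mono (hc.mul hφ.1) (Eventually.of_forall fun x => ?_)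
    rw [norm_mul]
    exact mul_le_of_le_one_left (norm_nonneg _) (hc1 x)
  have hd : ∀ n, MemLp (fun x => f n x - F x) 2 μ := fun n => (hf n).sub hF
  have hle : ∀ n, MBAD.N μ (fun x => c x * (f n x - F x)) ≤ MBAD.N μ (fun x => f n x - F x) := by
    intro n
    refine MBAD.N_mono (hd n) (Eventually.of_forall fun x => ?_)
    rw [abs_mul]
    exact mul_le_of_le_one_left (abs_nonneg _) (hc1 x)
  have h0 : Tendsto (fun n => MBAD.N μ (fun x => f n x - F x)) atTop (𝓝 0) := by
    have h1 := (Real.continuous_sqrt.tendsto 0).comp h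
    rw [Real.sqrt_zero] at h1
    refine h1.congr fun n => ?_
    rw [N_eq (hd n)]
    rfl
  have hN : Tendsto (fun n => MBAD.N μ (fun x => c x * f n x)) atTop
      (𝓝 (MBAD.N μ (fun x => c x * F x))) := by
    rw [tendsto_iff_norm_sub_tendsto_zero]
    refine squeeze_zero (fun n => norm_nonneg _) (fun n => ?_) h0
    refine le_trans ?_ (hle n)
    rw [Real.norm_eq_abs, abs_sub_le_iff]
    constructor
    · have e : (fun x => c x * f n x) = fun x => c x * F x + c x * (f n x - F x) := by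
        funext x
        ring
      have := MBAD.N_add (hm hF) (hm (hd n))
      rw [← e] at this
      linarith
    · have e : (fun x => c x * F x) = fun x => c x * f n x + -(c x * (f n x - F x)) := by
        funext x
        ring
      have h2 := MBAD.N_add (hm (hf n)) (hm (hd n)).neg
      have h3 : MBAD.N μ (-fun x => c x * (f n x - F x)) =
          MBAD.N μ (fun x => c x * (f n x - F x)) := by
        unfold MBAD.N
        rw [eLpNorm_neg]
      rw [h3] at h2
      have h4 : (fun x => c x * f n x + (-fun x => c x * (f n x - F x)) x) =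
          fun x => c x * F x := by
        rw [e]
        rfl
      rw [h4] at h2
      linarith
  have := hN.pow 2
  rw [N_sq (hm hF)] at this
  refine this.congr fun n => ?_
  rw [N_sq (hm (hf n))]

/-- The estimate for smooth functions. -/
theorem smooth_est {ζ : E3 → ℝ} (hζ : CutZ ζ) {v : E3 → ℝ} (hv : ContDiff ℝ ∞ v) {T Z : ℝ}
    (hT0 : 0 ≤ T) (hT : ∀ x ∈ tsupport ζ, |v x| ≤ T) (hZ : ∀ i x, |pd i ζ x| ≤ Z) (i : Fin 3) :
    ∫ x in tsupport ζ, (ζ x * pd i v x) ^ 2 ≤ T * (MBAD.N (volume.restrict (tsupport ζ)) (fun _ => 1) *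
      (2 * Z * MBAD.N (volume.restrict (tsupport ζ)) (fun x => ζ x * pd i v x) +
        MBAD.N (volume.restrict (tsupport ζ)) (fun x => ζ x ^ 2 * pd i (pd i v) x))) := by
  set K := tsupport ζ with hK
  have hKc : IsCompact K := hζ.compact
  have hg : ContDiff ℝ ∞ (pd i v) := MBAD.contDiff_pd hv i
  have hgg : ContDiff ℝ ∞ (pd i (pd i v)) := MBAD.contDiff_pd hg i
  have hpz : ContDiff ℝ ∞ (pd i ζ) := MBAD.contDiff_pd hζ.smooth i
  have hZ0 : 0 ≤ Z := (abs_nonneg _).trans (hZ i 0)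
  set k : E3 → ℝ := fun x => ζ x * (ζ x * pd i v x) with hk
  have hks : ContDiff ℝ ∞ k := hζ.smooth.mul (hζ.smooth.mul hg)
  have hkc : HasCompactSupport k := hζ.compact.mul_right
  have hk1 : ContDiff ℝ 1 k := hks.of_le (by simp)
  have hdk : HasCompactSupport (pd i k) := hkc.fderiv_apply ℝ _
  have hcdk : Continuous (pd i k) := (MBAD.contDiff_pd hks i).continuous
  have i1 : Integrable (fun x => pd i k x * v x) :=
    (hcdk.mul hv.continuous).integrable_of_hasCompactSupport hdk.mul_right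
  have i2 : Integrable (fun x => k x * pd i v x) :=
    (hks.continuous.mul hg.continuous).integrable_of_hasCompactSupport hkc.mul_right
  have i3 : Integrable (fun x => k x * v x) :=
    (hks.continuous.mul hv.continuous).integrable_of_hasCompactSupport hkc.mul_right
  have e1 : ∫ x, k x * pd i v x = - ∫ x, pd i k x * v x := by
    unfold pd
    exact integral_mul_fderiv_eq_neg_fderiv_mul_of_integrable i1 i2 i3
      (fun x _ => hk1.differentiable (by simp) x)
      (fun x _ => hv.differentiable (by simp) x)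
  have hz0 : ∀ x, x ∉ K → ζ x = 0 := fun x hx => image_eq_zero_of_notMem_tsupport hx
  have hdk0 : ∀ x, x ∉ K → pd i k x = 0 := by
    intro x hx
    have : x ∉ tsupport (fderiv ℝ k) := fun h => hx ((tsupport_mul_subset_left
      (f := ζ) (g := fun x => ζ x * pd i v x)) (tsupport_fderiv_subset ℝ h))
    unfold pd
    rw [image_eq_zero_of_notMem_tsupport this]
    rfl
  have e2 : ∫ x in K, (ζ x * pd i v x) ^ 2 = ∫ x, k x * pd i v x := by
    rw [setIntegral_eq_integral_of_forall_compl_eq_zero]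
    · refine integral_congr_ae (Eventually.of_forall fun x => ?_)
      show (ζ x * pd i v x) ^ 2 = ζ x * (ζ x * pd i v x) * pd i v x
      ring
    · intro x hx
      rw [hz0 x hx, zero_mul]
      norm_num
  have e3 : ∫ x, pd i k x * v x = ∫ x in K, pd i k x * v x := by
    rw [setIntegral_eq_integral_of_forall_compl_eq_zero]
    intro x hx
    rw [hdk0 x hx, zero_mul]
  have e4 : ∀ x, pd i k x = 2 * pd i ζ x * (ζ x * pd i v x) + ζ x ^ 2 * pd i (pd i v) x := by
    intro x
    have d1 : DifferentiableAt ℝ ζ x := hζ.smooth.differentiable (by simp) x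
    have d2 : DifferentiableAt ℝ (pd i v) x := hg.differentiable (by simp) x
    have h1 : pd i k x = ζ x * pd i (fun y => ζ y * pd i v y) x + ζ x * pd i v x * pd i ζ x :=
      pd_mul d1 (d1.mul d2)
    have h2 : pd i (fun y => ζ y * pd i v y) x = ζ x * pd i (pd i v) x + pd i v x * pd i ζ x :=
      pd_mul d1 d2
    rw [h1, h2]
    ring
  have m1 : MemLp (fun _ : E3 => (1 : ℝ)) 2 (volume.restrict K) :=
    MBAD.memLp_cont hKc continuous_const
  have m2 : MemLp (fun x => ζ x * pd i v x) 2 (volume.restrict K) :=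
    MBAD.memLp_cont hKc (hζ.smooth.continuous.mul hg.continuous)
  have m3 : MemLp (fun x => ζ x ^ 2 * pd i (pd i v) x) 2 (volume.restrict K) :=
    MBAD.memLp_cont hKc ((hζ.smooth.continuous.pow 2).mul hgg.continuous)
  obtain ⟨j2, c2⟩ := MBAD.cs m1 m2
  obtain ⟨j3, c3⟩ := MBAD.cs m1 m3
  rw [e2, e1, e3]
  have hpt : ∀ x ∈ K, |pd i k x * v x| ≤
      T * (2 * Z * |1 * (ζ x * pd i v x)| + |1 * (ζ x ^ 2 * pd i (pd i v) x)|) := by
    intro x hx
    rw [abs_mul, mul_comm, one_mul, one_mul]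
    refine mul_le_mul (hT x hx) ?_ (abs_nonneg _) hT0
    rw [e4]
    refine (abs_add_le _ _).trans (add_le_add_left ?_ _)
    rw [abs_mul, abs_mul, abs_of_pos (by norm_num : (0 : ℝ) < 2)]
    exact mul_le_mul_of_nonneg_right (mul_le_mul_of_nonneg_left (hZ i x) (by norm_num))
      (abs_nonneg _)
  have hb : Integrable (fun x => T * (2 * Z * |1 * (ζ x * pd i v x)| +
      |1 * (ζ x ^ 2 * pd i (pd i v) x)|)) (volume.restrict K) :=
    ((j2.abs.const_mul _).add j3.abs).const_mul _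
  calc -∫ x in K, pd i k x * v x ≤ |∫ x in K, pd i k x * v x| := neg_le_abs _
    _ ≤ ∫ x in K, |pd i k x * v x| := abs_integral_le_integral_abs
    _ ≤ ∫ x in K, T * (2 * Z * |1 * (ζ x * pd i v x)| + |1 * (ζ x ^ 2 * pd i (pd i v) x)|) := by
        refine integral_mono_ae i1.abs.integrableOn hb ?_
        filter_upwards [ae_restrict_mem hKc.measurableSet] with x hx
        exact hpt x hx
    _ = T * (2 * Z * (∫ x in K, |1 * (ζ x * pd i v x)|) +
          ∫ x in K, |1 * (ζ x ^ 2 * pd i (pd i v) x)|) := by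
        rw [integral_const_mul, integral_add (j2.abs.const_mul _) j3.abs, integral_const_mul]
    _ ≤ _ := by
        refine mul_le_mul_of_nonneg_left ?_ hT0
        have h1 := mul_le_mul_of_nonneg_left c2 (by positivity : 0 ≤ 2 * Z)
        have h2 : MBAD.N (volume.restrict K) (fun _ => 1) *
            (2 * Z * MBAD.N (volume.restrict K) (fun x => ζ x * pd i v x) +
              MBAD.N (volume.restrict K) (fun x => ζ x ^ 2 * pd i (pd i v) x)) =
            2 * Z * (MBAD.N (volume.restrict K) (fun _ => 1) *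
              MBAD.N (volume.restrict K) (fun x => ζ x * pd i v x)) +
            MBAD.N (volume.restrict K) (fun _ => 1) *
              MBAD.N (volume.restrict K) (fun x => ζ x ^ 2 * pd i (pd i v) x) := by
          ring
        rw [h2]
        exact add_le_add h1 c3

theorem measurable_ann (a b : ℝ) : MeasurableSet (Ann a b) :=
  ((isOpen_lt continuous_const continuous_norm).inter
    (isOpen_lt continuous_norm continuous_const)).measurableSet

theorem sq_vsz (p : Cov) : vsz p ^ 2 = ∑ i, p i ^ 2 :=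
  Real.sq_sqrt (Finset.sum_nonneg fun _ _ => sq_nonneg _)

theorem sq_msz (M : Bil) : msz M ^ 2 = ∑ i, ∑ j, M i j ^ 2 :=
  Real.sq_sqrt (Finset.sum_nonneg fun _ _ => Finset.sum_nonneg fun _ _ => sq_nonneg _)

end HXCaux

/-- The first derivatives are controlled by the second ones. -/
theorem HXC : Stmt_HXC := by
  intro S ζ hS hζ
  set K := tsupport ζ with hK
  have hKc : IsCompact K := hζ.compact
  have hz0 : ∀ x, x ∉ K → ζ x = 0 := fun x hx => image_eq_zero_of_notMem_tsupport hx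
  obtain ⟨Z, hZ⟩ : ∃ Z : ℝ, ∀ (i : Fin 3) (x : E3), |pd i ζ x| ≤ Z := by
    have h1 : ∀ i : Fin 3, ∃ Z : ℝ, ∀ x : E3, |pd i ζ x| ≤ Z := by
      intro i
      have hc : Continuous (pd i ζ) := (MBAD.contDiff_pd hζ.smooth i).continuous
      have hcs : HasCompactSupport (pd i ζ) := hζ.compact.fderiv_apply ℝ _
      exact hc.bounded_above_of_compact_support hcs
    choose Z hZ using h1
    refine ⟨∑ i, |Z i|, fun i x => (hZ i x).trans ((le_abs_self _).trans ?_)⟩
    exact Finset.single_le_sum (f := fun i => |Z i|) (fun _ _ => abs_nonneg _) (Finset.mem_univ i)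
  have hZ0 : 0 ≤ Z := (abs_nonneg _).trans (hZ 0 0)
  set V := MBAD.N (volume.restrict K) (fun _ => 1) with hV
  have hV0 : 0 ≤ V := MBAD.N_nonneg _
  refine ⟨(S + 1) * ((V + 1) * (6 * Z + 3)), by positivity, ?_⟩
  intro u G M h hu
  have hsub : K ⊆ Ann (1 / 2) 2 := hζ.supp
  have hG := h.memG K hKc hsub
  have hM := h.memM K hKc hsub
  obtain ⟨v, hv, hunif, hGt, hMt⟩ := h.approx K hKc hsub
  have hAm := HXCaux.measurable_ann (1 / 2) 2
  have hζ1 : ∀ x, |ζ x| ≤ 1 := fun x => by
    rw [abs_of_nonneg (hζ.nonneg x)]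
    exact hζ.le_one x
  have hζ2 : ∀ x, |ζ x ^ 2| ≤ 1 := fun x => by
    rw [abs_pow]
    exact pow_le_one₀ (abs_nonneg _) (hζ1 x)
  have hcm : AEStronglyMeasurable ζ (volume.restrict K) :=
    hζ.smooth.continuous.aestronglyMeasurable
  have hcm2 : AEStronglyMeasurable (fun x => ζ x ^ 2) (volume.restrict K) :=
    (hζ.smooth.continuous.pow 2).aestronglyMeasurable
  have hm : ∀ {c φ : E3 → ℝ}, AEStronglyMeasurable c (volume.restrict K) → (∀ x, |c x| ≤ 1) →
      MemLp φ 2 (volume.restrict K) → MemLp (fun x => c x * φ x) 2 (volume.restrict K) := by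
    intro c φ hc hc1 hφ
    refine hφ.mono (hc.mul hφ.1) (Eventually.of_forall fun x => ?_)
    rw [norm_mul]
    exact mul_le_of_le_one_left (norm_nonneg _) (hc1 x)
  have i1 : ∀ i, IntegrableOn (fun x => (ζ x * G x i) ^ 2) K := fun i =>
    (hm hcm hζ1 (hG i)).integrable_sq
  have i2 : ∀ i j, IntegrableOn (fun x => (ζ x ^ 2 * M x i j) ^ 2) K := fun i j =>
    (hm hcm2 hζ2 (hM i j)).integrable_sq
  have eA : (fun x => ζ x ^ 2 * vsz (G x) ^ 2) = fun x => ∑ i, (ζ x * G x i) ^ 2 := by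
    funext x
    rw [HXCaux.sq_vsz, Finset.mul_sum]
    exact Finset.sum_congr rfl fun i _ => by ring
  have eB : (fun x => ζ x ^ 4 * msz (M x) ^ 2) = fun x => ∑ i, ∑ j, (ζ x ^ 2 * M x i j) ^ 2 := by
    funext x
    rw [HXCaux.sq_msz, Finset.mul_sum]
    refine Finset.sum_congr rfl fun i _ => ?_
    rw [Finset.mul_sum]
    exact Finset.sum_congr rfl fun j _ => by ring
  have zA : ∀ x ∈ Ann (1 / 2) 2 \ K, ∑ i, (ζ x * G x i) ^ 2 = 0 := by
    intro x hx
    refine Finset.sum_eq_zero fun i _ => ?_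
    rw [hz0 x hx.2, zero_mul]
    norm_num
  have zB : ∀ x ∈ Ann (1 / 2) 2 \ K, ∑ i, ∑ j, (ζ x ^ 2 * M x i j) ^ 2 = 0 := by
    intro x hx
    refine Finset.sum_eq_zero fun i _ => Finset.sum_eq_zero fun j _ => ?_
    rw [hz0 x hx.2]
    norm_num
  have jA : IntegrableOn (fun x => ∑ i, (ζ x * G x i) ^ 2) K :=
    integrable_finsetSum _ fun i _ => i1 i
  have jB : IntegrableOn (fun x => ∑ i, ∑ j, (ζ x ^ 2 * M x i j) ^ 2) K :=
    integrable_finsetSum _ fun i _ => integrable_finsetSum _ fun j _ => i2 i j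
  have intA : ∫ x in Ann (1 / 2) 2, ∑ i, (ζ x * G x i) ^ 2 = ∑ i, ∫ x in K, (ζ x * G x i) ^ 2 := by
    rw [setIntegral_eq_of_subset_of_forall_diff_eq_zero hAm hsub zA]
    exact integral_finsetSum _ fun i _ => i1 i
  have intB : ∫ x in Ann (1 / 2) 2, ∑ i, ∑ j, (ζ x ^ 2 * M x i j) ^ 2 =
      ∑ i, ∑ j, ∫ x in K, (ζ x ^ 2 * M x i j) ^ 2 := by
    rw [setIntegral_eq_of_subset_of_forall_diff_eq_zero hAm hsub zB]
    rw [integral_finsetSum _ fun i _ => integrable_finsetSum _ fun j _ => i2 i j]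
    exact Finset.sum_congr rfl fun i _ => integral_finsetSum _ fun j _ => i2 i j
  refine ⟨?_, ?_, ?_⟩
  · rw [eA]
    exact jA.of_forall_diff_eq_zero hAm zA
  · rw [eB]
    exact jB.of_forall_diff_eq_zero hAm zB
  rw [eA, eB, intA, intB]
  -- the sequences
  set a : ℕ → ℝ := fun n => ∑ i, ∫ x in K, (ζ x * pd i (v n) x) ^ 2 with ha
  set b : ℕ → ℝ := fun n => ∑ i, ∑ j, ∫ x in K, (ζ x ^ 2 * pd i (pd j (v n)) x) ^ 2 with hb
  have mG : ∀ n i, MemLp (pd i (v n)) 2 (volume.restrict K) := fun n i =>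
    MBAD.memLp_cont hKc (MBAD.contDiff_pd (hv n) i).continuous
  have mM : ∀ n i j, MemLp (pd i (pd j (v n))) 2 (volume.restrict K) := fun n i j =>
    MBAD.memLp_cont hKc (MBAD.contDiff_pd (MBAD.contDiff_pd (hv n) j) i).continuous
  have ta : Tendsto a atTop (𝓝 (∑ i, ∫ x in K, (ζ x * G x i) ^ 2)) :=
    tendsto_finsetSum _ fun i _ =>
      HXCaux.tendsto_wsq hcm hζ1 (fun n => mG n i) (hG i) (hGt i)
  have tb : Tendsto b atTop (𝓝 (∑ i, ∑ j, ∫ x in K, (ζ x ^ 2 * M x i j) ^ 2)) :=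
    tendsto_finsetSum _ fun i _ => tendsto_finsetSum _ fun j _ =>
      HXCaux.tendsto_wsq hcm2 hζ2 (fun n => mM n i j) (hM i j) (hMt i j)
  have tsa := (Real.continuous_sqrt.tendsto _).comp ta
  have tsb := (Real.continuous_sqrt.tendsto _).comp tb
  refine le_of_tendsto_of_tendsto ta ((tsb.add tsa).const_mul _) ?_
  have hev : ∀ᶠ n in atTop, ∀ x ∈ K, dist (u x) (v n x) < 1 :=
    Metric.tendstoUniformlyOn_iff.1 hunif 1 one_pos
  filter_upwards [hev] with n hn
  have hT : ∀ x ∈ K, |v n x| ≤ S + 1 := by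
    intro x hx
    have h1 := hn x hx
    have h2 := hu x (hsub hx)
    rw [Real.dist_eq] at h1
    have h3 : |v n x| ≤ |u x| + |u x - v n x| := by
      have := abs_sub_abs_le_abs_sub (v n x) (u x)
      rw [abs_sub_comm (v n x)] at this
      linarith
    linarith
  have key : ∀ i : Fin 3, ∫ x in K, (ζ x * pd i (v n) x) ^ 2 ≤
      (S + 1) * (V * (2 * Z * Real.sqrt (a n) + Real.sqrt (b n))) := by
    intro i
    refine (HXCaux.smooth_est hζ (hv n) (by positivity) hT hZ i).trans ?_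
    rw [HXCaux.N_eq (hm hcm hζ1 (mG n i)), HXCaux.N_eq (hm hcm2 hζ2 (mM n i i))]
    have h1 : Real.sqrt (∫ x in K, (ζ x * pd i (v n) x) ^ 2) ≤ Real.sqrt (a n) :=
      Real.sqrt_le_sqrt (Finset.single_le_sum
        (f := fun i => ∫ x in K, (ζ x * pd i (v n) x) ^ 2)
        (fun _ _ => integral_nonneg fun _ => sq_nonneg _) (Finset.mem_univ i))
    have h2 : Real.sqrt (∫ x in K, (ζ x ^ 2 * pd i (pd i (v n)) x) ^ 2) ≤ Real.sqrt (b n) := by
      refine Real.sqrt_le_sqrt (le_trans ?_ (Finset.single_le_sum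
        (f := fun i => ∑ j, ∫ x in K, (ζ x ^ 2 * pd i (pd j (v n)) x) ^ 2)
        (fun _ _ => Finset.sum_nonneg fun _ _ => integral_nonneg fun _ => sq_nonneg _)
        (Finset.mem_univ i)))
      exact Finset.single_le_sum
        (f := fun j => ∫ x in K, (ζ x ^ 2 * pd i (pd j (v n)) x) ^ 2)
        (fun _ _ => integral_nonneg fun _ => sq_nonneg _) (Finset.mem_univ i)
    refine mul_le_mul_of_nonneg_left ?_ (by positivity)
    refine mul_le_mul_of_nonneg_left ?_ hV0
    exact add_le_add (mul_le_mul_of_nonneg_left h1 (by positivity)) h2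
  have hsum : a n ≤ 3 * ((S + 1) * (V * (2 * Z * Real.sqrt (a n) + Real.sqrt (b n)))) := by
    have := Finset.sum_le_sum fun (i : Fin 3) (_ : i ∈ Finset.univ) => key i
    rw [Finset.sum_const, Finset.card_univ, Fintype.card_fin, nsmul_eq_mul] at this
    exact_mod_cast this
  refine hsum.trans ?_
  have s1 : 0 ≤ Real.sqrt (a n) := Real.sqrt_nonneg _
  have s2 : 0 ≤ Real.sqrt (b n) := Real.sqrt_nonneg _
  show _ ≤ (S + 1) * ((V + 1) * (6 * Z + 3)) * (Real.sqrt (b n) + Real.sqrt (a n))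
  have e : (S + 1) * ((V + 1) * (6 * Z + 3)) * (Real.sqrt (b n) + Real.sqrt (a n)) -
      3 * ((S + 1) * (V * (2 * Z * Real.sqrt (a n) + Real.sqrt (b n)))) =
      (S + 1) * ((6 * Z + 3) * (Real.sqrt (b n) + Real.sqrt (a n)) +
        V * (6 * Z * Real.sqrt (b n) + 3 * Real.sqrt (a n))) := by
    ring
  have h0 : 0 ≤ (S + 1) * ((6 * Z + 3) * (Real.sqrt (b n) + Real.sqrt (a n)) +
        V * (6 * Z * Real.sqrt (b n) + 3 * Real.sqrt (a n))) := by positivity
  linarith

end Pool.Agent.PFlow.HX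


end

section

/-!
# HXLAM: the rise function
-/

open MeasureTheory Filter Topology
open scoped ContDiff ENNReal

namespace Pool.Agent.PFlow.HX

namespace HXLAMaux

/-- The even bump at `0` with integral `1`. -/
theorem exists_bump {σ : ℝ} (hσ : 0 < σ) : ∃ ρ : ℝ → ℝ, ContDiff ℝ ∞ ρ ∧ (∀ t, 0 ≤ ρ t) ∧
    (∀ t, ρ (-t) = ρ t) ∧ (∀ t, σ ≤ |t| → ρ t = 0) ∧ ∫ t, ρ t = 1 := by
  let f : ContDiffBump (0 : ℝ) := ⟨σ / 2, σ, by linarith, by linarith⟩
  refine ⟨f.normed volume, f.contDiff_normed, fun t => f.nonneg_normed t, fun t => ?_, fun t ht => ?_,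
    f.integral_normed⟩
  · exact f.normed_neg t
  · by_contra hne
    have h1 : t ∈ Function.support (f.normed volume) := hne
    rw [f.support_normed_eq] at h1
    have h2 : dist t 0 < σ := h1
    rw [Real.dist_eq, sub_zero] at h2
    linarith

theorem integral_shift {σ : ℝ} {ρ : ℝ → ℝ} (hc : Continuous ρ) (he : ∀ t, ρ (-t) = ρ t)
    (hs : ∀ t, σ ≤ |t| → ρ t = 0) (hi : ∫ t, ρ t = 1) : ∫ t, ρ (t - 1) * t = 1 := by
  have hcs : HasCompactSupport ρ := by
    apply HasCompactSupport.intro (isCompact_Icc (a := -σ) (b := σ))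
    intro x hx
    apply hs
    by_contra hcon
    push Not at hcon
    exact hx ⟨(abs_lt.1 hcon).1.le, (abs_lt.1 hcon).2.le⟩
  have h1 : ∫ t, ρ (t - 1) * t = ∫ t, ρ t * (t + 1) := by
    rw [← integral_sub_right_eq_self (fun t => ρ t * (t + 1)) 1]
    simp
  have hint1 : Integrable ρ := hc.integrable_of_hasCompactSupport hcs
  have hint2 : Integrable (fun t => ρ t * t) :=
    (hc.mul continuous_id).integrable_of_hasCompactSupport (hcs.mul_right)
  have h2 : ∫ t, ρ t * t = 0 := by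
    have h3 : ∫ t, ρ (-t) * (-t) = ∫ t, ρ t * t := integral_neg_eq_self (fun t => ρ t * t) volume
    have h4 : ∫ t, ρ (-t) * (-t) = -∫ t, ρ t * t := by
      rw [← integral_neg]
      refine integral_congr_ae (Filter.Eventually.of_forall fun t => ?_)
      simp only [he]
      ring
    linarith
  rw [h1]
  have h5 : ∀ t, ρ t * (t + 1) = ρ t * t + ρ t := fun t => by ring
  simp only [h5]
  rw [integral_add hint2 hint1, h2, hi, zero_add]

end HXLAMaux

open HXLAMaux in
/-- HXLAM: existence of the rise. -/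
theorem HXLAM : Stmt_HXLAM := by
  intro ε σ hε _ hσ hσ2
  obtain ⟨ρ, hρ, hρ0, hρe, hρs, hρi⟩ := exists_bump hσ
  have hone := integral_shift hρ.continuous hρe hρs hρi
  set L : ℝ → ℝ := fun t => ε * ρ (t - 1) with hL
  have hLs : ContDiff ℝ ∞ L := contDiff_const.mul (hρ.comp (contDiff_id.sub contDiff_const))
  have hL0 : ∀ t, σ ≤ |t - 1| → L t = 0 := by
    intro t ht
    simp only [hL]
    rw [hρs _ ht, mul_zero]
  have hLn : ∀ t, 0 ≤ L t := fun t => mul_nonneg hε.le (hρ0 _)
  set q : ℝ → ℝ := fun t => L t * t with hq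
  have hqs : ContDiff ℝ ∞ q := hLs.mul contDiff_id
  set F : ℝ → ℝ := fun x => ∫ t in x..2, q t with hF
  have hFd : ∀ x, HasDerivAt F (-q x) x := by
    intro x
    exact intervalIntegral.integral_hasDerivAt_left (hqs.continuous.intervalIntegrable _ _)
      hqs.continuous.aestronglyMeasurable.stronglyMeasurableAtFilter hqs.continuous.continuousAt
  have hFs : ContDiff ℝ ∞ F := by
    rw [contDiff_infty_iff_deriv]
    refine ⟨fun x => (hFd x).differentiableAt, ?_⟩
    have h1 : deriv F = fun x => -q x := funext fun x => (hFd x).deriv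
    rw [h1]
    exact hqs.neg
  set E : ℝ → ℝ := fun s => Real.exp (-s / ε) with hE
  have hEs : ContDiff ℝ ∞ E := Real.contDiff_exp.comp (contDiff_id.neg.div_const ε)
  have hEd : ∀ s, HasDerivAt E (-(E s / ε)) s := by
    intro s
    have h1 : HasDerivAt (fun s : ℝ => -s / ε) (-1 / ε) s := (hasDerivAt_id s).neg.div_const ε
    have h2 := h1.exp
    have h3 : -(E s / ε) = Real.exp (-s / ε) * (-1 / ε) := by
      simp only [hE]
      ring
    rw [h3]
    exact h2
  set lam : ℝ → ℝ := fun s => ε⁻¹ * F (E s) with hlam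
  have hlams : ContDiff ℝ ∞ lam := contDiff_const.mul (hFs.comp hEs)
  have hlamd : ∀ s, HasDerivAt lam (L (E s) * E s ^ 2 / ε ^ 2) s := by
    intro s
    have h1 := ((hFd (E s)).comp s (hEd s)).const_mul ε⁻¹
    have h2 : L (E s) * E s ^ 2 / ε ^ 2 = ε⁻¹ * (-q (E s) * -(E s / ε)) := by
      simp only [hq]
      field_simp
    rw [h2]
    exact h1
  have hzero : ∀ s, s ≤ -ε * Real.log (1 + σ) → lam s = 0 := by
    intro s hs
    have h1 : 1 + σ ≤ E s := by
      simp only [hE]
      rw [← Real.exp_log (show 0 < 1 + σ by linarith)]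
      apply Real.exp_le_exp.2
      rw [le_div_iff₀ hε]
      linarith
    have h2 : F (E s) = 0 := by
      simp only [hF]
      rw [intervalIntegral.integral_congr (g := fun _ => 0) ?_]
      · simp
      · intro t ht
        have h3 : 1 + σ ≤ t := by
          have h4 := ht.1
          rcases min_choice (E s) 2 with h5 | h5
          · rw [h5] at h4
            linarith
          · rw [h5] at h4
            linarith
        simp only [hq]
        rw [hL0 t (by rw [abs_of_nonneg (by linarith)]; linarith), zero_mul]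
    simp only [hlam]
    rw [h2, mul_zero]
  have hoone : ∀ s, -ε * Real.log (1 - σ) ≤ s → lam s = 1 := by
    intro s hs
    have h1 : E s ≤ 1 - σ := by
      simp only [hE]
      rw [← Real.exp_log (show 0 < 1 - σ by linarith)]
      apply Real.exp_le_exp.2
      rw [div_le_iff₀ hε]
      linarith
    have h2 : F (E s) = ε := by
      simp only [hF]
      rw [intervalIntegral.integral_of_le (by linarith),
        setIntegral_eq_integral_of_forall_compl_eq_zero]
      · simp only [hq, hL]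
        have h3 : ∀ t, ε * ρ (t - 1) * t = ε * (ρ (t - 1) * t) := fun t => by ring
        simp only [h3]
        rw [integral_const_mul, hone, mul_one]
      · intro t ht
        simp only [hq]
        rw [hL0 t ?_, zero_mul]
        by_contra hcon
        push Not at hcon
        have h4 := abs_lt.1 hcon
        exact ht ⟨by linarith [h4.1], by linarith [h4.2]⟩
    simp only [hlam]
    rw [h2]
    exact inv_mul_cancel₀ hε.ne'
  have hmono : Monotone lam := by
    apply monotone_of_deriv_nonneg (fun s => (hlamd s).differentiableAt)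
    intro s
    rw [(hlamd s).deriv]
    have := hLn (E s)
    positivity
  refine ⟨L, lam, hLs, hLn, ?_, fun t ht => hL0 t ht.le, hlams, fun s => (hlamd s).deriv, hzero,
    hoone, fun s => ⟨?_, ?_⟩⟩
  · intro t
    simp only [hL]
    rw [← hρe]
    congr 2
    ring
  · have h1 := hmono (min_le_left s (-ε * Real.log (1 + σ)))
    rw [hzero _ (min_le_right _ _)] at h1
    exact h1
  · have h1 := hmono (le_max_left s (-ε * Real.log (1 - σ)))
    rw [hoone _ (le_max_right _ _)] at h1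
    exact h1

end Pool.Agent.PFlow.HX


end

section

/-!
# (XABS) Assembly of the structure `Abs` for exterior regions
-/

open MeasureTheory Filter Topology
open scoped ContDiff ENNReal

namespace Pool.Agent.PFlow

open Pool.Agent.PenroseSph

namespace XABSaux

/-- Integrability over the regions between two levels. -/
theorem between {P : ParX} {D : DatX} {f : E3 → ℝ} (h : LvlIntX P D f) :
    ∀ s s', P.eps / 4 / 4 < s → s < s' → s' < D.sM P →
      IntegrableOn f (D.Om ∩ {x | s ≤ D.w P x ∧ D.w P x ≤ s'}) := by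
  intro s s' _ _ h3
  refine (h s' h3).mono_set ?_
  rintro x ⟨hx, _, hx2⟩
  exact ⟨hx, hx2⟩

end XABSaux

/-- XABS: the abstract facts. -/
theorem XABS (hXSETW : Stmt_XSETW) (hXABSI : Stmt_XABSI) (hXABSM : Stmt_XABSM)
    (hXXWO : Stmt_XXWO) (hXABSX : Stmt_XABSX) (hXABSW : Stmt_XABSW) (hXABSF : Stmt_XABSF) :
    Stmt_XABS := by
  intro P
  obtain ⟨B, hB, hO⟩ := hXXWO P
  refine ⟨B, hB, fun D hD => ?_⟩
  obtain ⟨-, -, -, -, -, -, hmw, -, -, hpos, -⟩ := hXSETW P D hD
  obtain ⟨h1, h2, h3, h4, h5, -, h7, -, h8⟩ := hXABSI P D hD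
  exact
    { measOmega := by
        have h1 : IsOpen {x : E3 | 1 < ‖x‖} := isOpen_lt continuous_const continuous_norm
        have h2 : IsOpen {x : E3 | ‖x‖ < D.R} := isOpen_lt continuous_norm continuous_const
        exact (h1.inter h2).measurableSet
      vol_nonneg := fun x => Real.sqrt_nonneg _
      X_nonneg := fun x => Real.sqrt_nonneg _
      D_nonneg := h7
      meas_w := hmw
      int_vol := XABSaux.between h1
      int_X := XABSaux.between h2
      meas_X := h8
      int_Phi := XABSaux.between h3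
      int_D := XABSaux.between h4
      int_S := XABSaux.between h5
      mi := by
        intro ψ hψ hn hc hs
        have hs' : tsupport ψ ⊆ Set.Iio (D.sM P) := fun x hx => (hs hx).2
        refine (hXABSM P D hD ψ hψ hn hc hs').trans ?_
        have hint : Integrable ψ := hψ.continuous.integrable_of_hasCompactSupport hc
        have hle : (∫ s in Set.Ioi (P.eps / 4), ψ s) ≤ ∫ s, ψ s :=
          setIntegral_le_integral hint (Filter.Eventually.of_forall hn)
        have hpi : (0 : ℝ) ≤ 4 * Real.pi := by positivity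
        have := mul_le_mul_of_nonneg_left hle hpi
        linarith
      xid := hXABSX P D hD
      window := fun s hs hs' => hO D hD s hs hs'
      inner := by
        intro ψ A hψ hc hs hA
        have hz : ∫ x in D.Om, ψ (D.w P x) * D.Phi P x * D.vol x = 0 := by
          have hm : MeasurableSet D.Om := by
            have h1 : IsOpen {x : E3 | 1 < ‖x‖} := isOpen_lt continuous_const continuous_norm
            have h2 : IsOpen {x : E3 | ‖x‖ < D.R} := isOpen_lt continuous_norm continuous_const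
            exact (h1.inter h2).measurableSet
          refine setIntegral_eq_zero_of_forall_eq_zero fun x hx => ?_
          have hx' := hpos x hx
          have h0 : ψ (D.w P x) = 0 := by
            by_contra hne
            have := hs (subset_tsupport _ (Function.mem_support.mpr hne))
            exact absurd this.2 (not_lt.mpr hx'.le)
          rw [h0, zero_mul, zero_mul]
        rw [hz, abs_zero, zero_mul]
      willmore := hXABSW P D hD
      flux := by
        intro ψ hψ hn hc hs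
        exact hXABSF P D hD ψ hψ hn hc (fun x hx => (hs hx).2) }

end Pool.Agent.PFlow


end

section

/-!
# XDEFE: the total defect is small (exterior regions)
-/

open MeasureTheory Filter Topology
open scoped ContDiff ENNReal

namespace Pool.Agent.PFlow

open Pool.Agent.PenroseSph

namespace XEDEFE

lemma det_le (A : ℝ) (B : Bil) (hA : 0 ≤ A) (hB : ∀ i j, |B i j| ≤ A) : B.det ≤ 6 * A ^ 3 := by
  have key : ∀ a b c : ℝ, |a| ≤ A → |b| ≤ A → |c| ≤ A → |a * b * c| ≤ A ^ 3 := by
    intro a b c ha hb hc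
    rw [abs_mul, abs_mul]
    calc |a| * |b| * |c| ≤ A * A * A := by
          refine mul_le_mul (mul_le_mul ha hb (abs_nonneg _) hA) hc (abs_nonneg _) ?_
          positivity
      _ = A ^ 3 := by ring
  rw [Matrix.det_fin_three]
  have h1 := abs_le.mp (key _ _ _ (hB 0 0) (hB 1 1) (hB 2 2))
  have h2 := abs_le.mp (key _ _ _ (hB 0 0) (hB 1 2) (hB 2 1))
  have h3 := abs_le.mp (key _ _ _ (hB 0 1) (hB 1 0) (hB 2 2))
  have h4 := abs_le.mp (key _ _ _ (hB 0 1) (hB 1 2) (hB 2 0))
  have h5 := abs_le.mp (key _ _ _ (hB 0 2) (hB 1 0) (hB 2 1))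
  have h6 := abs_le.mp (key _ _ _ (hB 0 2) (hB 1 1) (hB 2 0))
  linarith [h1.2, h2.1, h3.1, h4.2, h5.2, h6.1]

lemma vol_le (A : ℝ) (g : TensorField) (x : E3) (hA : 0 ≤ A) (hB : ∀ i j, |g x i j| ≤ A) :
    volDen g x ≤ Real.sqrt (6 * A ^ 3) := Real.sqrt_le_sqrt (det_le A _ hA hB)

end XEDEFE

theorem XDEFE (hXSETW : Stmt_XSETW) (hBETA : Stmt_BETA) (hXUPH : Stmt_XUPH)
    (hFLXA : Stmt_FLXA) : Stmt_XDEFE := by
  intro P B g l
  by_cases hex : ∃ D : DatX, SetupX P D ∧ D.g = g ∧ D.l = l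
  swap
  · refine ⟨1, one_pos, fun D hD _ h1 h2 => ?_⟩
    exact absurd ⟨D, hD, h1, h2⟩ hex
  obtain ⟨D₀, hD₀, hg₀, hl₀⟩ := hex
  obtain ⟨β, hβ⟩ := hBETA
  obtain ⟨BU, hBU, hU⟩ := hXUPH P B β hβ
  have hε := hD₀.eps_pos
  have hε2 := hD₀.eps_le
  have hC := hD₀.C_pos
  have hl4 : 8 ≤ l := hl₀ ▸ hD₀.l_ge
  have hl : 0 < l := by linarith
  -- the volume density is bounded
  set V : ℝ := Real.sqrt (6 * (1 + P.C) ^ 3) with hVdef
  have hV0 : 0 ≤ V := Real.sqrt_nonneg _
  set q := (1 + P.eps) / P.eps with hq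
  have hq0 : 0 < q := by
    rw [hq]
    have : 0 < 1 + P.eps := by linarith
    positivity
  set s₂ := s2E P.eps P.gam l with hs₂
  set A : ℝ := Real.exp ((1 + P.eps) * s₂ / (2 - P.eps)) * (BU * Real.exp s₂) with hA
  have hA0 : 0 ≤ A := by positivity
  refine ⟨A ^ (1 / (1 + P.eps)) * V ^ (P.eps / (1 + P.eps)) + 1, ?_, ?_⟩
  · have h1 := Real.rpow_nonneg hA0 (1 / (1 + P.eps))
    have h2 := Real.rpow_nonneg hV0 (P.eps / (1 + P.eps))
    have := mul_nonneg h1 h2
    linarith
  intro D hD hAbs hDg hDl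
  obtain ⟨w1, w2, w3, w4, w5, w6, wmeas, w8, w9, w10, w11, w12, w13, w14, w15, w16, s21, s2M,
    w21, w22⟩ := hXSETW P D hD
  obtain ⟨hJ, _, _⟩ := hU D hD hAbs
  have hs2D : D.s2 P = s₂ := by rw [hs₂, ← hDl]; rfl
  have hγ := hD.gam_ge
  obtain ⟨hJ0, hflx⟩ := hFLXA P.eps β hε hε2 hβ _ _ _ _ _ _ _ _ _ _ _ _ hAbs (by linarith)
    (by linarith) (by linarith)
  -- the region
  set T := cAnn 1 D.l ∩ {x | 1 < ‖x‖} with hT
  have hTm : MeasurableSet T := by
    refine MeasurableSet.inter (EDEFE.isCompact_cAnn _ _).measurableSet ?_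
    exact measurableSet_lt measurable_const measurable_norm
  have hTae : (T : Set E3) =ᵐ[volume] cAnn 1 D.l := by
    have hsph : volume (Metric.sphere (0 : E3) 1) = 0 := Measure.addHaar_sphere _ _ _
    have h1 : ∀ᵐ x ∂(volume : Measure E3), x ∉ Metric.sphere (0 : E3) 1 :=
      measure_eq_zero_iff_ae_notMem.mp hsph
    filter_upwards [h1] with x hx
    apply propext
    constructor
    · intro h
      exact h.1
    · intro h
      refine ⟨h, lt_of_le_of_ne h.1 ?_⟩
      intro h2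
      exact hx (by rw [mem_sphere_zero_iff_norm]; exact h2.symm)
  have hlR : l < D.R := by
    rw [hDl] at w22
    linarith
  have hTOm : T ⊆ D.Om := by
    rintro x ⟨h1, h2⟩
    have h3 := h1.2
    rw [hDl] at h3
    exact ⟨h2, lt_of_le_of_lt h3 hlR⟩
  set L := D.Om ∩ {x | P.eps / 8 ≤ D.w P x ∧ D.w P x ≤ D.s2 P} with hL
  have hTs : T ⊆ L := by
    intro x hx
    refine ⟨hTOm hx, ?_, ?_⟩
    · have := w10 x (hTOm hx)
      linarith
    · have h3 := hx.1.2
      have h4 := hD.located.mid x hx.1.1 (by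
        have : 0 < D.l := hDl ▸ hl
        linarith)
      exact h4.le
  have hint3 := hAbs.int_X (P.eps / 8) (D.s2 P) (by linarith) (by linarith) (by linarith)
  have hintv := hAbs.int_vol (P.eps / 8) (D.s2 P) (by linarith) (by linarith) (by linarith)
  have hOmm := hAbs.measOmega
  have hLm : MeasurableSet L := by
    refine hOmm.inter ?_
    exact (measurableSet_le measurable_const wmeas).inter
      (measurableSet_le wmeas measurable_const)
  have hXm : AEStronglyMeasurable (D.X P) (volume.restrict L) :=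
    hAbs.meas_X.mono_measure (Measure.restrict_mono Set.inter_subset_left le_rfl)
  have hIX : IntegrableOn (fun x => D.X P x ^ (1 + P.eps) * D.vol x) L := by
    refine Integrable.mono' (hint3.add hintv)
      ((hXm.aemeasurable.pow_const _).aestronglyMeasurable.mul hintv.aestronglyMeasurable)
      (Eventually.of_forall fun x => ?_)
    have hx0 := hAbs.X_nonneg x
    have hv0 := hAbs.vol_nonneg x
    rw [Real.norm_eq_abs, abs_of_nonneg (mul_nonneg (Real.rpow_nonneg hx0 _) hv0)]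
    show D.X P x ^ (1 + P.eps) * D.vol x ≤ D.X P x ^ 3 * D.vol x + D.vol x
    have := mul_le_mul_of_nonneg_right
      (EDEFE.rpow_le_cube (p := 1 + P.eps) hx0 (by linarith) (by linarith)) hv0
    linarith
  -- the weight
  have hph0 : ∀ x, 0 ≤ D.ph P x := fun x => mul_nonneg (Real.exp_pos _).le (hAbs.X_nonneg x)
  have hphp : ∀ x, D.ph P x ^ (1 + P.eps) =
      Real.exp ((1 + P.eps) * D.w P x / (2 - P.eps)) * D.X P x ^ (1 + P.eps) := by
    intro x
    show (Real.exp (D.w P x / (2 - P.eps)) * D.X P x) ^ (1 + P.eps) = _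
    rw [Real.mul_rpow (Real.exp_pos _).le (hAbs.X_nonneg x), ← Real.exp_mul]
    congr 2
    ring
  have hphm : AEStronglyMeasurable (D.ph P) (volume.restrict L) := by
    have h1 : Measurable fun x => Real.exp (D.w P x / (2 - P.eps)) :=
      Real.measurable_exp.comp (wmeas.div_const _)
    exact h1.aestronglyMeasurable.mul hXm
  have hexp : ∀ x ∈ L, Real.exp ((1 + P.eps) * D.w P x / (2 - P.eps)) ≤
      Real.exp ((1 + P.eps) * s₂ / (2 - P.eps)) := by
    rintro x ⟨_, _, hx⟩
    apply Real.exp_le_exp.mpr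
    have h2 : 0 < 2 - P.eps := by linarith
    rw [← hs2D]
    refine div_le_div_of_nonneg_right ?_ h2.le
    exact mul_le_mul_of_nonneg_left hx (by linarith)
  have hIP : IntegrableOn (fun x => D.ph P x ^ (1 + P.eps) * D.vol x) L := by
    refine Integrable.mono' (hIX.const_mul (Real.exp ((1 + P.eps) * s₂ / (2 - P.eps))))
      ((hphm.aemeasurable.pow_const _).aestronglyMeasurable.mul hintv.aestronglyMeasurable) ?_
    rw [ae_restrict_iff' hLm]
    refine Eventually.of_forall fun x hx => ?_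
    have hx0 := Real.rpow_nonneg (hAbs.X_nonneg x) (1 + P.eps)
    have hv0 := hAbs.vol_nonneg x
    rw [Real.norm_eq_abs, abs_of_nonneg (mul_nonneg (Real.rpow_nonneg (hph0 x) _) hv0), hphp,
      mul_assoc]
    exact mul_le_mul_of_nonneg_right (hexp x hx) (mul_nonneg hx0 hv0)
  have hIPle : (∫ x in T, D.ph P x ^ (1 + P.eps) * D.vol x) ≤ A := by
    have h1 : (∫ x in T, D.ph P x ^ (1 + P.eps) * D.vol x) ≤
        ∫ x in L, D.ph P x ^ (1 + P.eps) * D.vol x :=
      setIntegral_mono_set hIP (Eventually.of_forall fun x =>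
        mul_nonneg (Real.rpow_nonneg (hph0 x) _) (hAbs.vol_nonneg x)) (LE.le.eventuallyLE hTs)
    have h2 : (∫ x in L, D.ph P x ^ (1 + P.eps) * D.vol x) ≤
        ∫ x in L, Real.exp ((1 + P.eps) * s₂ / (2 - P.eps)) *
          (D.X P x ^ (1 + P.eps) * D.vol x) := by
      refine setIntegral_mono_on hIP (hIX.const_mul _) hLm fun x hx => ?_
      rw [hphp, mul_assoc]
      exact mul_le_mul_of_nonneg_right (hexp x hx)
        (mul_nonneg (Real.rpow_nonneg (hAbs.X_nonneg x) _) (hAbs.vol_nonneg x))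
    rw [integral_const_mul] at h2
    have h3 := hflx (P.eps / 8) (D.s2 P) (by linarith) (by linarith) le_rfl
    have h4 : jInf P.eps β D.Om D.vol (D.w P) (D.X P) (D.s2 P) *
        (Real.exp (D.s2 P) - Real.exp (P.eps / 8)) ≤ BU * Real.exp s₂ := by
      rw [hs2D] at hJ0 hJ ⊢
      have h5 : Real.exp s₂ - Real.exp (P.eps / 8) ≤ Real.exp s₂ := by
        linarith [Real.exp_pos (P.eps / 8)]
      exact (mul_le_mul_of_nonneg_left h5 hJ0).trans
        (mul_le_mul_of_nonneg_right hJ (Real.exp_pos _).le)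
    refine h1.trans (h2.trans ?_)
    exact mul_le_mul_of_nonneg_left (h3.trans h4) (Real.exp_pos _).le
  -- the defect
  have he := hD.modified.defect_cont
  have he0 := hD.modified.defect_nonneg
  obtain ⟨E, hE⟩ := (EDEFE.isCompact_cAnn 1 D.l).bddAbove_image he.continuousOn
  have hLv : IntegrableOn D.vol T := hintv.mono_set hTs
  obtain ⟨c1, c2, c3⟩ := EDEFE.core P.eps T (D.ph P) D.e D.vol A E hε hTm hAbs.vol_nonneg hph0
    he0 (fun x hx => hE ⟨x, hx.1, rfl⟩) hLv (hIP.mono_set hTs)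
    (hphm.mono_measure (Measure.restrict_mono hTs le_rfl)) he.aestronglyMeasurable hIPle
  have hNd : D.Nd P = ∫ x in T, D.ph P x * D.e x * D.vol x := by
    show (∫ x in cAnn 1 D.l, D.ph P x * D.e x * D.vol x) = _
    exact (setIntegral_congr_set hTae).symm
  refine ⟨c1.congr_set_ae hTae.symm, ?_, ?_⟩
  · exact integral_nonneg fun x => mul_nonneg (mul_nonneg (hph0 x) (he0 x)) (hAbs.vol_nonneg x)
  -- the integral of the defect
  have hIe : IntegrableOn (fun x => D.e x ^ q) (cAnn 1 D.l) := by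
    refine ContinuousOn.integrableOn_compact (EDEFE.isCompact_cAnn _ _) ?_
    exact (he.rpow_const fun x => Or.inr hq0.le).continuousOn
  have hvolV : ∀ x ∈ T, D.vol x ≤ V := by
    intro x hx
    refine XEDEFE.vol_le (1 + P.C) D.g' x (by linarith) fun i j => ?_
    rcases lt_or_ge ‖x‖ 2 with h | h
    · have := (hD.modified.bounds x (by linarith [hx.1.1]) h i j).1
      linarith
    · have h1 := (hD.modified.decay x h i j).1
      have h2 : P.C / ‖x‖ ≤ P.C / 2 := div_le_div_of_nonneg_left hC.le (by norm_num) h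
      have h3 : |(1 : Bil) i j| ≤ 1 := by
        rw [Matrix.one_apply]
        split_ifs <;> simp
      have h4 : |D.g' x i j| ≤ |D.g' x i j - (1 : Bil) i j| + |(1 : Bil) i j| := by
        have := abs_add_le (D.g' x i j - (1 : Bil) i j) ((1 : Bil) i j)
        simpa using this
      linarith
  have hI2 : (∫ x in T, D.e x ^ q * D.vol x) ≤ V * ∫ x in cAnn 1 D.l, D.e x ^ q := by
    have h1 : (∫ x in T, D.e x ^ q * D.vol x) ≤ ∫ x in T, V * D.e x ^ q := by
      refine setIntegral_mono_on c2 ((hIe.mono_set Set.inter_subset_left).const_mul V) hTm ?_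
      intro x hx
      rw [mul_comm V]
      exact mul_le_mul_of_nonneg_left (hvolV x hx) (Real.rpow_nonneg (he0 x) _)
    rw [integral_const_mul] at h1
    refine h1.trans (mul_le_mul_of_nonneg_left ?_ hV0)
    exact setIntegral_mono_set hIe (Eventually.of_forall fun x => Real.rpow_nonneg (he0 x) _)
      (LE.le.eventuallyLE Set.inter_subset_left)
  have hIe0 : 0 ≤ ∫ x in cAnn 1 D.l, D.e x ^ q :=
    integral_nonneg fun x => Real.rpow_nonneg (he0 x) _
  have hex0 : 0 ≤ P.eps / (1 + P.eps) := by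
    have : 0 < 1 + P.eps := by linarith
    positivity
  have h9 : (∫ x in T, D.e x ^ q * D.vol x) ^ (P.eps / (1 + P.eps)) ≤
      V ^ (P.eps / (1 + P.eps)) *
        (∫ x in cAnn 1 D.l, D.e x ^ q) ^ (P.eps / (1 + P.eps)) := by
    rw [← Real.mul_rpow hV0 hIe0]
    refine Real.rpow_le_rpow ?_ hI2 hex0
    exact integral_nonneg fun x => mul_nonneg (Real.rpow_nonneg (he0 x) _) (hAbs.vol_nonneg x)
  have h10 := Real.rpow_nonneg hA0 (1 / (1 + P.eps))
  have h11 := Real.rpow_nonneg hIe0 (P.eps / (1 + P.eps))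
  rw [hNd]
  refine c3.trans ?_
  refine (mul_le_mul_of_nonneg_left h9 h10).trans ?_
  rw [← mul_assoc]
  exact mul_le_mul_of_nonneg_right (by linarith) h11

end Pool.Agent.PFlow


end

section

/-!
# XCOLE: the collar error is small (exterior regions)
-/

open MeasureTheory Filter Topology
open scoped ContDiff ENNReal

namespace Pool.Agent.PFlow

open Pool.Agent.PenroseSph

namespace XCOLEm

lemma vsz_smul (c : ℝ) (p : Cov) : vsz (fun i => c * p i) = |c| * vsz p := by
  unfold vsz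
  have h : ∑ i, (c * p i) ^ 2 = c ^ 2 * ∑ i, p i ^ 2 := by
    rw [Finset.mul_sum]
    exact Finset.sum_congr rfl fun i _ => by ring
  rw [h, Real.sqrt_mul (sq_nonneg c), Real.sqrt_sq_eq_abs]

lemma tanP_smul (x : E3) (c : ℝ) (p : Cov) : tanP x (fun i => c * p i) = |c| * tanP x p := by
  unfold tanP
  rw [← vsz_smul]
  congr 1
  funext i
  have h : ∑ j, c * p j * x j = c * ∑ j, p j * x j := by
    rw [Finset.mul_sum]
    exact Finset.sum_congr rfl fun j _ => by ring
  rw [h]
  ring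

lemma negP_smul (x : E3) {c : ℝ} (hc : 0 ≤ c) (p : Cov) :
    negP x (fun i => -c * p i) = c * negP x (-p) := by
  unfold negP
  have h : ∑ j, -c * p j * x j = c * ∑ j, (-p) j * x j := by
    rw [Finset.mul_sum]
    refine Finset.sum_congr rfl fun j _ => ?_
    rw [Pi.neg_apply]
    ring
  rw [h, mul_max_of_nonneg _ _ hc, mul_zero]
  congr 1
  ring

lemma vsz_nonneg (p : Cov) : 0 ≤ vsz p := Real.sqrt_nonneg _

lemma tanP_nonneg (x : E3) (p : Cov) : 0 ≤ tanP x p := Real.sqrt_nonneg _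

lemma negP_nonneg (x : E3) (p : Cov) : 0 ≤ negP x p := le_max_right _ _

lemma h2_mono {U V : Set E3} (hUV : U ⊆ V) {w : E3 → ℝ} {G : E3 → Cov} {M : E3 → Bil}
    (h : H2On V w G M) : H2On U w G M where
  cont := h.cont.mono hUV
  memG K hK hKU := h.memG K hK (hKU.trans hUV)
  memM K hK hKU := h.memM K hK (hKU.trans hUV)
  approx K hK hKU := h.approx K hK (hKU.trans hUV)

lemma norm_inversion {x : E3} (hx : 0 < ‖x‖) : ‖inversion x‖ = ‖x‖⁻¹ := by
  unfold inversion
  rw [norm_smul, norm_inv, norm_pow, norm_norm]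
  field_simp

end XCOLEm

open XCOLEm in
theorem XCOLE (hXSETW : Stmt_XSETW) (hLEG : Stmt_LEG) (hCOLE : Stmt_COLE) : Stmt_XCOLE := by
  intro P
  by_cases hex : ∃ D : DatX, SetupX P D
  swap
  · exact ⟨1, one_pos, fun D hD => absurd ⟨D, hD⟩ hex⟩
  obtain ⟨D₀, hD₀⟩ := hex
  have hε := hD₀.eps_pos
  have hε2 := hD₀.eps_le
  have hC := hD₀.C_pos
  obtain ⟨A, hA, hleg⟩ := hLEG P.eps P.C 2 hε (by linarith) hC two_pos
  obtain ⟨C0, hC0, hcole⟩ := hCOLE
  obtain ⟨V, hVdef⟩ : ∃ V, V = Real.sqrt (6 * P.C ^ 3) := ⟨_, rfl⟩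
  have hV0 : 0 ≤ V := hVdef ▸ Real.sqrt_nonneg _
  obtain ⟨q, hq⟩ : ∃ q, q = Real.sqrt A := ⟨_, rfl⟩
  have hq0 : 0 ≤ q := hq ▸ Real.sqrt_nonneg _
  refine ⟨2 * V * C0 * q * (2 * P.C + 1) + 1, by positivity, fun D hD => ?_⟩
  obtain ⟨w1, w2, w3, w4, w5, w6, wmeas, w8, w9, w10, w11, w12, w13, w14, w15, w16, s21, s2M,
    w21, w22⟩ := hXSETW P D hD
  have hl := hD.l_ge
  have hR : 2 < D.R := by linarith
  have hτ := hD.tau_pos
  have hτ2 := hD.tau_le
  have hκ := hD.kap_pos
  have hlog2 : (0.6931471803 : ℝ) < Real.log 2 := Real.log_two_gt_d9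
  have hexpτ : Real.exp D.tau < 2 := by
    have h1 : D.tau < Real.log 2 := by
      refine lt_of_le_of_lt hτ2 (lt_trans ?_ hlog2)
      norm_num
    have h2 := Real.exp_lt_exp.mpr h1
    rwa [Real.exp_log two_pos] at h2
  have hsub : Ann (1 / 2) 2 ⊆ Ann (1 / 2) D.R := fun x hx => ⟨hx.1, hx.2.trans hR⟩
  have hH2 : H2On (Ann (1 / 2) 2) D.u D.G D.M := h2_mono hsub hD.sol.h2
  have hEq : EqU (Ann (1 / 2) 2) P.eps D.g' D.h' D.G D.M :=
    ae_restrict_of_ae_restrict_of_subset hsub hD.sol.eq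
  have hmet : MetricOn (Ann (1 / 2) 2) D.g' :=
    ⟨fun i j => (hD.modified.metric.smooth i j).mono (Set.subset_univ _),
      fun x _ => hD.modified.metric.posDef x (Set.mem_univ x)⟩
  have hbd : ∀ x ∈ Ann (1 / 2) 2, BdAt P.C D.g' D.h' x := fun x hx =>
    { posDef := hD.modified.metric.posDef x (Set.mem_univ x)
      metric := fun i j => (hD.modified.bounds x hx.1 hx.2 i j).1
      deriv := fun i j m => (hD.modified.bounds x hx.1 hx.2 i j).2.1 m
      tensor := fun i j => (hD.modified.bounds x hx.1 hx.2 i j).2.2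
      elliptic := fun v => (hD.modified.elliptic x hx.1 v).1 }
  have hinv : ∀ x ∈ Ann (1 / 2) 2, D.u (inversion x) = 2 - D.u x := hD.sol.refl
  have hu1 : ∀ x : E3, 1 ≤ ‖x‖ → ‖x‖ < 2 → D.u x ≤ 1 := fun x h1 h2 =>
    hD.sol.le_one x h1 (h2.trans hR)
  have hu0 : ∀ x : E3, 1 ≤ ‖x‖ → ‖x‖ < 2 → 0 ≤ D.u x := fun x h1 h2 =>
    hD.sol.nonneg x h1 (h2.trans hR)
  have huS : ∀ x ∈ Ann (1 / 2) 2, |D.u x| ≤ 2 := by
    intro x hx
    rcases le_or_gt 1 ‖x‖ with h | h
    · rw [abs_of_nonneg (hu0 x h hx.2)]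
      linarith [hu1 x h hx.2]
    · have hx0 : 0 < ‖x‖ := lt_trans (by norm_num) hx.1
      have h1 : 1 ≤ ‖inversion x‖ := by
        rw [norm_inversion hx0]
        exact (one_le_inv₀ hx0).mpr h.le
      have h2 : ‖inversion x‖ < 2 := by
        rw [norm_inversion hx0]
        have := (inv_lt_inv₀ hx0 (by norm_num : (0 : ℝ) < 1 / 2)).mpr hx.1
        norm_num at this
        exact this
      have h3 := hinv x hx
      have h4 := hu0 _ h1 h2
      have h5 := hu1 _ h1 h2
      rw [abs_le]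
      constructor <;> linarith
  have hA' := hleg D.g' D.h' D.u D.G D.M hmet hbd hH2 hEq huS
  obtain ⟨i1, i2, i3, b1, b2, b3⟩ := hcole D.u D.G D.M A hH2 hinv hu1 hA' D.tau hτ hτ2
  rw [← hq] at b1 b2 b3
  -- the collar
  set K := cAnn 1 (Real.exp D.tau) with hKdef
  have hKc : IsCompact K := EDEFE.isCompact_cAnn _ _
  have hKm : MeasurableSet K := hKc.measurableSet
  have hK2 : ∀ x ∈ K, ‖x‖ < 2 := fun x hx => hx.2.trans_lt hexpτ
  have hKA : ∀ x ∈ K, x ∈ Ann (1 / 2) D.R := fun x hx =>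
    ⟨lt_of_lt_of_le (by norm_num) hx.1, (hK2 x hx).trans hR⟩
  have hu_half : ∀ x ∈ K, 1 / 2 < D.u x := by
    intro x hx
    have h0 := hD.located.pos x (hKA x hx)
    have h1 := hD.located.near x hx.1 hx.2
    unfold wOf at h1
    have h2 : -(1 / 2) < Real.log (D.u x) := by
      by_contra hcon
      push Not at hcon
      have h3 : P.eps / 2 ≤ -P.eps * Real.log (D.u x) := by nlinarith
      linarith
    have h3 : Real.log (1 / 2) < Real.log (D.u x) := by
      rw [one_div, Real.log_inv]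
      linarith
    exact (Real.log_lt_log_iff (by norm_num) h0).mp h3
  have hcu : ∀ x ∈ K, 0 ≤ P.eps / D.u x ∧ P.eps / D.u x ≤ 1 := by
    intro x hx
    have h1 := hu_half x hx
    have h2 : 0 < D.u x := by linarith
    refine ⟨by positivity, ?_⟩
    rw [div_le_one h2]
    linarith
  have hexpw : ∀ x ∈ K, Real.exp (D.w P x / (2 - P.eps)) ≤ 2 := by
    intro x hx
    have h1 := w11 x hx.1 hx.2
    have h2 : D.w P x / (2 - P.eps) ≤ Real.log 2 := by
      rw [div_le_iff₀ (by linarith)]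
      nlinarith
    have h3 := Real.exp_le_exp.mpr h2
    rwa [Real.exp_log two_pos] at h3
  have hvol0 : ∀ x, 0 ≤ D.vol x := fun x => Real.sqrt_nonneg _
  have hvolV : ∀ x ∈ K, D.vol x ≤ V := by
    intro x hx
    rw [hVdef]
    exact XEDEFE.vol_le P.C D.g' x hC.le fun i j =>
      (hD.modified.bounds x (lt_of_lt_of_le (by norm_num) hx.1) (hK2 x hx) i j).1
  -- the integrand
  obtain ⟨F, hF⟩ : ∃ F : E3 → ℝ, F = fun x =>
      Real.exp (D.w P x / (2 - P.eps)) * (P.eps / D.u x) * D.vol x := ⟨_, rfl⟩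
  obtain ⟨T, hT⟩ : ∃ T : E3 → ℝ, T = fun x =>
      P.C / D.tau * (tanP x (D.G x) + negP x (-D.G x)) + D.kap / D.tau * vsz (D.G x) := ⟨_, rfl⟩
  have hT0 : ∀ x, 0 ≤ T x := by
    intro x
    rw [hT]
    have h1 := tanP_nonneg x (D.G x)
    have h2 := negP_nonneg x (-D.G x)
    have h3 := vsz_nonneg (D.G x)
    have h4 : 0 ≤ P.C / D.tau := by positivity
    have h5 : 0 ≤ D.kap / D.tau := by positivity
    show 0 ≤ P.C / D.tau * (tanP x (D.G x) + negP x (-D.G x)) + D.kap / D.tau * vsz (D.G x)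
    have h6 := mul_nonneg h4 (add_nonneg h1 h2)
    have h7 := mul_nonneg h5 h3
    linarith
  have hF0 : ∀ x ∈ K, 0 ≤ F x ∧ F x ≤ 2 * V := by
    intro x hx
    rw [hF]
    have h1 := hexpw x hx
    have h2 := (hcu x hx).1
    have h3 := (hcu x hx).2
    have h4 := (Real.exp_pos (D.w P x / (2 - P.eps))).le
    refine ⟨mul_nonneg (mul_nonneg h4 h2) (hvol0 x), ?_⟩
    show Real.exp (D.w P x / (2 - P.eps)) * (P.eps / D.u x) * D.vol x ≤ 2 * V
    have h5 : Real.exp (D.w P x / (2 - P.eps)) * (P.eps / D.u x) ≤ 2 * 1 :=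
      mul_le_mul h1 h3 h2 zero_le_two
    have h6 := mul_le_mul h5 (hvolV x hx) (hvol0 x) (by norm_num)
    linarith
  have hN : ∀ x ∈ K, Real.exp (D.w P x / (2 - P.eps)) * |D.Su P x| * D.vol x = F x * T x := by
    intro x hx
    have hc := (hcu x hx).1
    have e0 : D.Gw P x = fun i => -(P.eps / D.u x) * D.G x i := by
      funext i
      show -P.eps * (D.G x i / D.u x) = _
      ring
    have e1 : tanP x (D.Gw P x) = P.eps / D.u x * tanP x (D.G x) := by
      rw [e0, tanP_smul, abs_neg, abs_of_nonneg hc]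
    have e2 : negP x (D.Gw P x) = P.eps / D.u x * negP x (-D.G x) := by
      rw [e0, negP_smul x hc]
    have e3 : vsz (D.Gw P x) = P.eps / D.u x * vsz (D.G x) := by
      rw [e0, vsz_smul, abs_neg, abs_of_nonneg hc]
    have e4 : D.Su P x = -(P.eps / D.u x * T x) := by
      unfold DatX.Su
      rw [if_pos hx.2, e1, e2, e3, hT]
      ring
    rw [e4, abs_neg, abs_of_nonneg (mul_nonneg hc (hT0 x)), hF]
    ring
  have hTi : IntegrableOn T K := by
    rw [hT]
    exact ((i1.add i2).const_mul _).add (i3.const_mul _)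
  have hucont : ContinuousOn (fun x => P.eps / D.u x) K :=
    continuousOn_const.div hD.sol.cont.continuousOn fun x hx => by
      have := hu_half x hx
      linarith
  have hvc : ContinuousOn D.vol K := by
    have h1 : ContinuousOn (fun x => (D.g' x).det) K :=
      (MCT.smooth_det hD.modified.metric.smooth).continuousOn.mono (Set.subset_univ _)
    exact h1.sqrt
  have hFm : AEStronglyMeasurable F (volume.restrict K) := by
    rw [hF]
    have h1 : Measurable fun x => Real.exp (D.w P x / (2 - P.eps)) :=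
      Real.measurable_exp.comp (wmeas.div_const _)
    exact (h1.aestronglyMeasurable.mul (hucont.aestronglyMeasurable hKm)).mul
      (hvc.aestronglyMeasurable hKm)
  have hFT : IntegrableOn (fun x => F x * T x) K := by
    refine Integrable.mono' (hTi.const_mul (2 * V)) (hFm.mul hTi.aestronglyMeasurable) ?_
    refine (ae_restrict_iff' hKm).mpr (ae_of_all _ fun x hx => ?_)
    rw [Real.norm_of_nonneg (mul_nonneg (hF0 x hx).1 (hT0 x))]
    exact mul_le_mul_of_nonneg_right (hF0 x hx).2 (hT0 x)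
  have hNi : IntegrableOn (fun x => Real.exp (D.w P x / (2 - P.eps)) * |D.Su P x| * D.vol x) K :=
    hFT.congr_fun (fun x hx => (hN x hx).symm) hKm
  refine ⟨hNi, ?_, ?_⟩
  · exact integral_nonneg fun x =>
      mul_nonneg (mul_nonneg (Real.exp_pos _).le (abs_nonneg _)) (hvol0 x)
  -- the estimate
  have h1 : D.Cl P = ∫ x in K, F x * T x := setIntegral_congr_fun hKm fun x hx => hN x hx
  have h2 : (∫ x in K, F x * T x) ≤ ∫ x in K, 2 * V * T x :=
    setIntegral_mono_on hFT (hTi.const_mul _) hKm fun x hx =>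
      mul_le_mul_of_nonneg_right (hF0 x hx).2 (hT0 x)
  have h3 : (∫ x in K, T x) = P.C / D.tau * ((∫ x in K, tanP x (D.G x)) +
      ∫ x in K, negP x (-D.G x)) + D.kap / D.tau * ∫ x in K, vsz (D.G x) := by
    have i12 : IntegrableOn (fun x => tanP x (D.G x) + negP x (-D.G x)) K := i1.add i2
    have e1 : (∫ x in K, (P.C / D.tau * (tanP x (D.G x) + negP x (-D.G x)) +
        D.kap / D.tau * vsz (D.G x))) =
        (∫ x in K, P.C / D.tau * (tanP x (D.G x) + negP x (-D.G x))) +
          ∫ x in K, D.kap / D.tau * vsz (D.G x) :=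
      integral_add (i12.const_mul _) (i3.const_mul _)
    have e2 : (∫ x in K, (tanP x (D.G x) + negP x (-D.G x))) =
        (∫ x in K, tanP x (D.G x)) + ∫ x in K, negP x (-D.G x) := integral_add i1 i2
    rw [hT]
    show (∫ x in K, (P.C / D.tau * (tanP x (D.G x) + negP x (-D.G x)) +
        D.kap / D.tau * vsz (D.G x))) = _
    rw [e1, integral_const_mul, integral_const_mul, e2]
  have h4 : (∫ x in K, T x) ≤ C0 * q * (2 * P.C * Real.sqrt D.tau + D.kap) := by
    rw [h3]
    have e1 : P.C / D.tau * ((∫ x in K, tanP x (D.G x)) + ∫ x in K, negP x (-D.G x)) ≤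
        P.C / D.tau * (C0 * D.tau * Real.sqrt D.tau * q + C0 * D.tau * Real.sqrt D.tau * q) :=
      mul_le_mul_of_nonneg_left (add_le_add b1 b2) (by positivity)
    have e2 : D.kap / D.tau * (∫ x in K, vsz (D.G x)) ≤ D.kap / D.tau * (C0 * D.tau * q) :=
      mul_le_mul_of_nonneg_left b3 (by positivity)
    have e3 : P.C / D.tau * (C0 * D.tau * Real.sqrt D.tau * q +
        C0 * D.tau * Real.sqrt D.tau * q) + D.kap / D.tau * (C0 * D.tau * q) =
        C0 * q * (2 * P.C * Real.sqrt D.tau + D.kap) := by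
      field_simp
      ring
    linarith
  rw [integral_const_mul] at h2
  have h5 : 2 * V * (∫ x in K, T x) ≤ 2 * V * (C0 * q * (2 * P.C * Real.sqrt D.tau + D.kap)) :=
    mul_le_mul_of_nonneg_left h4 (by positivity)
  have hs0 : 0 ≤ Real.sqrt D.tau := Real.sqrt_nonneg _
  have h6 : 2 * P.C * Real.sqrt D.tau + D.kap ≤
      (2 * P.C + 1) * (D.kap + Real.sqrt D.tau) := by nlinarith
  have h7 : 2 * V * (C0 * q * (2 * P.C * Real.sqrt D.tau + D.kap)) ≤
      2 * V * (C0 * q * ((2 * P.C + 1) * (D.kap + Real.sqrt D.tau))) :=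
    mul_le_mul_of_nonneg_left (mul_le_mul_of_nonneg_left h6 (by positivity)) (by positivity)
  rw [h1]
  have h8 : (2 * V * C0 * q * (2 * P.C + 1) + 1) * (D.kap + Real.sqrt D.tau) =
      2 * V * (C0 * q * ((2 * P.C + 1) * (D.kap + Real.sqrt D.tau))) +
        (D.kap + Real.sqrt D.tau) := by ring
  rw [h8]
  linarith

end Pool.Agent.PFlow


end

section

/-!
# The momentum density is integrable in the exterior region (module XJINT)
-/

open MeasureTheory Filter Topology
open scoped ContDiff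

namespace Pool.Agent.PFlow

open Pool.Agent.PenroseSph

namespace MXJINT

open MJINT (isClosed_cAnn isCompact_cAnn jlen_nonneg int_inv4 bdry)

theorem isOpen_outside (δ : ℝ) : IsOpen (Outside δ) :=
  isOpen_lt continuous_const continuous_norm

theorem mem_outside {δ : ℝ} (hδ : 0 < δ) {x : E3} (hx : 1 ≤ ‖x‖) : x ∈ Outside δ := by
  change 1 - δ < ‖x‖
  linarith

theorem cAnn_sub {δ : ℝ} (hδ : 0 < δ) {a b : ℝ} (ha : 1 ≤ a) : cAnn a b ⊆ Outside δ :=
  fun _ hx => mem_outside hδ (le_trans ha hx.1)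

theorem jlen_cont {U : Set E3} (hU : IsOpen U) {g h : TensorField} (hg : MetricOn U g)
    (hh : TensorOn U h) : ContinuousOn (jlen g h) U := by
  intro x hx
  have h1 : ContinuousAt (fun x => ev (g x)⁻¹ (fun i => momentumDensity g h i x)
      (fun i => momentumDensity g h i x)) x := by
    unfold ev
    refine tendsto_finsetSum _ fun i _ => tendsto_finsetSum _ fun j _ => ?_
    exact (((MCF.inv_smooth hU hg hx i j).continuousAt).mul
      (MCF.mom_smooth hU hg hh hx i).continuousAt).mul (MCF.mom_smooth hU hg hh hx j).continuousAt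
  exact (Real.continuous_sqrt.continuousAt.comp h1).continuousWithinAt

theorem linR_cont {U : Set E3} (hU : IsOpen U) {g : TensorField} (hg : MetricOn U g) :
    ContinuousOn (linR g) U := by
  intro x hx
  have h1 : ContinuousAt (fun x => linR g x) x := by
    unfold linR
    refine tendsto_finsetSum _ fun i _ => tendsto_finsetSum _ fun j _ => ?_
    exact ((MCF.pd_smooth (MCF.pd_smooth (MCF.g_smooth hU hg hx i j) j) i).continuousAt).sub
      (MCF.pd_smooth (MCF.pd_smooth (MCF.g_smooth hU hg hx i i) j) j).continuousAt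
  exact h1.continuousWithinAt

/-- The pointwise inequality far out. -/
theorem point {g h : TensorField} {C C' : ℝ} {x : E3} (hC : 0 < C)
    (h7 : jlen g h x ≤ energyDensity g h x) (hx0 : 0 < ‖x‖) (hx : 100 * C ≤ ‖x‖)
    (hS : |scalarCurvature g x * volDen g x - linR g x| ≤ C' / ‖x‖ ^ 4)
    (hd : 0 < (g x).det)
    (hb : ∀ i j, |g x i j - (1 : Bil) i j| ≤ C / ‖x‖ ∧ |h x i j| ≤ C / ‖x‖ ^ 2) :
    jlen g h x ≤ linR g x + (C' + 700 * C ^ 2) * (1 / ‖x‖ ^ 4) := by
  have hη : C / ‖x‖ ≤ 1 / 100 := by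
    rw [div_le_div_iff₀ hx0 (by norm_num)]
    linarith
  have h1 := (ESCAL.inv_bound hη fun i j => (hb i j).1).1
  have h2 : |volDen g x - 1| ≤ 4 * (C / ‖x‖) :=
    ESCAL.sqrt_bound (ESCAL.det_bound hη fun i j => (hb i j).1) hd.le
  have hv := abs_le.1 h2
  have hv1 : 96 / 100 ≤ volDen g x := by linarith
  have hv2 : volDen g x ≤ 104 / 100 := by linarith
  set T := C / ‖x‖ ^ 2 with hT
  have hT0 : 0 ≤ T := by positivity
  have h3 : |traceWith g h x| ≤ 3 * (3 * (2 * T)) :=
    ESCAL.s3 fun i => ESCAL.s3 fun j => ESCAL.p2 (h1 i j) (hb i j).2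
  have h4 : |normSqWith g h x| ≤ 3 * (3 * (3 * (3 * (2 * 2 * T * T)))) :=
    ESCAL.s3 fun i => ESCAL.s3 fun j => ESCAL.s3 fun k => ESCAL.s3 fun l =>
      ESCAL.p2 (ESCAL.p2 (ESCAL.p2 (h1 i k) (h1 j l)) (hb i j).2) (hb k l).2
  have h5 : traceWith g h x ^ 2 ≤ 324 * T ^ 2 := by
    have := pow_le_pow_left₀ (abs_nonneg _) h3 2
    rw [sq_abs] at this
    nlinarith
  have h6 : -(324 * T ^ 2) ≤ normSqWith g h x := by
    have := (abs_le.1 h4).1
    nlinarith
  have h8 : scalarCurvature g x * volDen g x ≤ linR g x + C' / ‖x‖ ^ 4 := by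
    linarith [(abs_le.1 hS).2]
  have h9 : T ^ 2 = C ^ 2 * (1 / ‖x‖ ^ 4) := by
    rw [hT]
    field_simp
  have hj := jlen_nonneg g h x
  have h10 : jlen g h x ≤ 2 * volDen g x * jlen g h x := by nlinarith
  have h11 : 2 * volDen g x * jlen g h x ≤ 2 * volDen g x * energyDensity g h x :=
    mul_le_mul_of_nonneg_left h7 (by linarith)
  have h12 : 2 * volDen g x * energyDensity g h x =
      scalarCurvature g x * volDen g x + volDen g x * (traceWith g h x ^ 2 - normSqWith g h x) := by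
    unfold energyDensity
    ring
  have h13 : volDen g x * (traceWith g h x ^ 2 - normSqWith g h x) ≤ 104 / 100 * (648 * T ^ 2) := by
    have h14 : traceWith g h x ^ 2 - normSqWith g h x ≤ 648 * T ^ 2 := by linarith
    calc volDen g x * (traceWith g h x ^ 2 - normSqWith g h x)
        ≤ volDen g x * (648 * T ^ 2) := mul_le_mul_of_nonneg_left h14 (by linarith)
      _ ≤ 104 / 100 * (648 * T ^ 2) := mul_le_mul_of_nonneg_right hv2 (by positivity)
  have h15 : 104 / 100 * (648 * T ^ 2) ≤ 700 * T ^ 2 := by nlinarith [sq_nonneg T]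
  have h16 : C' / ‖x‖ ^ 4 = C' * (1 / ‖x‖ ^ 4) := by ring
  rw [h16] at h8
  rw [h9] at h15 h13
  nlinarith

end MXJINT

open MJINT (isClosed_cAnn isCompact_cAnn jlen_nonneg int_inv4 bdry) in
/-- XJINT: the momentum density is integrable. -/
theorem XJINT (hXAFD : Stmt_XAFD) (hSCAL : Stmt_SCAL) (hDIVG : Stmt_DIVG) : Stmt_XJINT := by
  intro g h δ₀ hδ hg hh hdecay hdec
  obtain ⟨C, hC, hd1, -⟩ := hXAFD g h δ₀ hδ hg hh hdecay
  obtain ⟨C', r₀, hC', hr₀, hS⟩ := hSCAL C
  have hU : IsOpen (Outside δ₀) := MXJINT.isOpen_outside δ₀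
  set r₁ := max (max r₀ (100 * C)) 2 with hr₁
  have hr₁2 : 2 ≤ r₁ := le_max_right _ _
  have hr₁1 : 1 ≤ r₁ := by linarith
  have hr₁a : r₀ ≤ r₁ := le_trans (le_max_left _ _) (le_max_left _ _)
  have hr₁b : 100 * C ≤ r₁ := le_trans (le_max_right _ _) (le_max_left _ _)
  have hjint : ∀ a b : ℝ, 1 ≤ a → IntegrableOn (jlen g h) (cAnn a b) := fun a b ha =>
    ((MXJINT.jlen_cont hU hg hh).mono (MXJINT.cAnn_sub hδ ha)).integrableOn_compact
      (isCompact_cAnn a b)
  have hlint : ∀ a b : ℝ, 1 ≤ a → IntegrableOn (linR g) (cAnn a b) := fun a b ha =>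
    ((MXJINT.linR_cont hU hg).mono (MXJINT.cAnn_sub hδ ha)).integrableOn_compact
      (isCompact_cAnn a b)
  have hpt : ∀ x : E3, r₁ ≤ ‖x‖ →
      jlen g h x ≤ linR g x + (C' + 700 * C ^ 2) * (1 / ‖x‖ ^ 4) := by
    intro x hx
    have hx1 : 1 ≤ ‖x‖ := le_trans hr₁1 hx
    have hx0 : x ∈ Outside δ₀ := MXJINT.mem_outside hδ hx1
    have hs := hS g x (le_trans hr₁a hx)
      (by
        filter_upwards [hU.mem_nhds hx0] with y hy
        have h1 := (hg.posDef y hy).1
        exact Matrix.isHermitian_iff_isSymm.1 h1)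
      (fun i j => MCF.g_smooth hU hg hx0 i j)
      (fun i j => ⟨(hd1 x hx1 i j).1, (hd1 x hx1 i j).2.1, (hd1 x hx1 i j).2.2.1⟩)
    have h7 : jlen g h x ≤ energyDensity g h x := by
      have h8 := hdec x (by linarith)
      unfold surplus at h8
      linarith
    exact MXJINT.point hC h7 (by linarith) (le_trans hr₁b hx) hs.1
      (hg.posDef x hx0).det_pos (fun i j => ⟨(hd1 x hx1 i j).1, (hd1 x hx1 i j).2.2.2.1⟩)
  have hpd : ∀ x : E3, 1 ≤ ‖x‖ → ∀ i j k, |pd k (fun y => g y i j) x| ≤ C / ‖x‖ ^ 2 :=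
    fun x hx i j k => (hd1 x hx i j).2.1 k
  set σ := ((volume : Measure E3).toSphere).real Set.univ with hσ
  set J := ∫ x in {x : E3 | 1 ≤ ‖x‖}, 1 / ‖x‖ ^ 4 with hJ
  refine ⟨(∫ x in cAnn 1 r₁, jlen g h x) + (36 * C * σ + (C' + 700 * C ^ 2) * J), ?_⟩
  intro R hR
  -- the outer part
  have hout : ∀ b : ℝ, r₁ ≤ b → ∫ x in cAnn r₁ b, jlen g h x ≤
      36 * C * σ + (C' + 700 * C ^ 2) * J := by
    intro b hb
    have hr₁0 : 0 < r₁ := by linarith
    have hsub : cAnn r₁ b ⊆ {x : E3 | 1 ≤ ‖x‖} := fun x hx => le_trans hr₁1 hx.1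
    have hin : ∀ x ∈ cAnn r₁ b, x ∈ Outside δ₀ := fun x hx => MXJINT.cAnn_sub hδ hr₁1 hx
    have h4 : IntegrableOn (fun x : E3 => 1 / ‖x‖ ^ 4) (cAnn r₁ b) := int_inv4.mono_set hsub
    have h1 : ∫ x in cAnn r₁ b, jlen g h x ≤
        ∫ x in cAnn r₁ b, (linR g x + (C' + 700 * C ^ 2) * (1 / ‖x‖ ^ 4)) :=
      setIntegral_mono_on (hjint r₁ b hr₁1) ((hlint r₁ b hr₁1).add (h4.const_mul _))
        (isClosed_cAnn r₁ b).measurableSet fun x hx => hpt x hx.1
    have h2 : ∫ x in cAnn r₁ b, (linR g x + (C' + 700 * C ^ 2) * (1 / ‖x‖ ^ 4)) =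
        (∫ x in cAnn r₁ b, linR g x) + (C' + 700 * C ^ 2) * ∫ x in cAnn r₁ b, 1 / ‖x‖ ^ 4 := by
      rw [integral_add (hlint r₁ b hr₁1) (h4.const_mul _), integral_const_mul]
    have h3 : ∫ x in cAnn r₁ b, 1 / ‖x‖ ^ 4 ≤ J :=
      setIntegral_mono_set int_inv4 (Eventually.of_forall fun x => by positivity)
        (LE.le.eventuallyLE hsub)
    have h5 : ∫ x in cAnn r₁ b, linR g x =
        ∫ x in cAnn r₁ b, ∑ i, pd i (fun y => MDIVA.VV g y i) x := by
      refine setIntegral_congr_fun (isClosed_cAnn r₁ b).measurableSet fun x hx => ?_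
      exact (MDIVA.div_VV fun i j => MCF.g_smooth hU hg (hin x hx) i j).symm
    have h6 := hDIVG (MDIVA.VV g) r₁ b hr₁0 hb
      (fun x hx i => MDIVA.contDiffAt_VV
        (fun i j => MCF.g_smooth hU hg (hin x hx) i j) i)
    have h7 := abs_le.1 (bdry hpd (le_trans hr₁1 hb))
    have h8 := abs_le.1 (bdry hpd hr₁1)
    have h9 : ∫ x in cAnn r₁ b, linR g x ≤ 36 * C * σ := by
      rw [h5, h6]
      linarith [h7.2, h8.1]
    have h10 : (C' + 700 * C ^ 2) * (∫ x in cAnn r₁ b, 1 / ‖x‖ ^ 4) ≤ (C' + 700 * C ^ 2) * J :=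
      mul_le_mul_of_nonneg_left h3 (by positivity)
    rw [h2] at h1
    linarith
  have hout0 : 0 ≤ 36 * C * σ + (C' + 700 * C ^ 2) * J :=
    le_trans (integral_nonneg fun x => jlen_nonneg g h x) (hout r₁ le_rfl)
  have hsplit := integral_inter_add_sdiff (μ := volume) (f := jlen g h) (s := cAnn 1 R)
    (isClosed_cAnn 1 r₁).measurableSet (hjint 1 R le_rfl)
  rw [← hsplit]
  refine add_le_add ?_ ?_
  · exact setIntegral_mono_set (hjint 1 r₁ le_rfl)
      (Eventually.of_forall fun x => jlen_nonneg g h x)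
      (LE.le.eventuallyLE Set.inter_subset_right)
  · by_cases hRr : r₁ ≤ R
    · refine le_trans ?_ (hout R hRr)
      refine setIntegral_mono_set (hjint r₁ R hr₁1)
        (Eventually.of_forall fun x => jlen_nonneg g h x)
        (LE.le.eventuallyLE fun x hx => ?_)
      refine ⟨?_, hx.1.2⟩
      by_contra hc
      exact hx.2 ⟨hx.1.1, (not_le.1 hc).le⟩
    · have hempty : cAnn 1 R \ cAnn 1 r₁ = ∅ := by
        ext x
        constructor
        · rintro ⟨h1, h2⟩
          exact h2 ⟨h1.1, le_trans h1.2 (not_le.1 hRr).le⟩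
        · intro hx
          exact absurd hx (Set.notMem_empty x)
      rw [hempty, setIntegral_empty]
      exact hout0

end Pool.Agent.PFlow


end

section

/-!
# XWGTE: the weight is almost constant (exterior case)

Adaptation of `E/WGTE.lean`.
-/

set_option autoImplicit false

open MeasureTheory Filter Topology
open scoped ContDiff ENNReal

namespace Pool.Agent.PFlow

open Pool.Agent.PenroseSph

namespace EXWGTE

theorem h2On_mono {U V : Set E3} {w : E3 → ℝ} {G : E3 → Cov} {M : E3 → Bil} (h : H2On U w G M)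
    (hVU : V ⊆ U) : H2On V w G M :=
  ⟨h.cont.mono hVU, fun K hK hKV => h.memG K hK (hKV.trans hVU),
    fun K hK hKV => h.memM K hK (hKV.trans hVU), fun K hK hKV => h.approx K hK (hKV.trans hVU)⟩

end EXWGTE

theorem XWGTE (hXSETW : Stmt_XSETW) (hBETA : Stmt_BETA) (hXABSI : Stmt_XABSI) (hWGT : Stmt_WGT)
    (hXENER : Stmt_XENER) (hXUPH : Stmt_XUPH) : Stmt_XWGTE := by
  have _ := hXABSI
  intro P B
  by_cases hP : 0 < P.eps ∧ P.eps ≤ 1 / 2 ∧ 0 < P.C ∧ 2 ≤ P.gam
  swap
  · exact ⟨1, one_pos, fun D hs => absurd ⟨hs.eps_pos, hs.eps_le, hs.C_pos, hs.gam_ge⟩ hP⟩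
  obtain ⟨heps, heps2, hC, hgam2⟩ := hP
  have hgam : 0 < P.gam := by linarith
  have h2e : 0 < 2 - P.eps := by linarith
  have hkE : 4 ≤ kE P.eps P.gam := by
    unfold kE
    have h1 : 1 ≤ Real.exp ((1 + 2 * P.gam) / (2 - P.eps)) := by
      apply Real.one_le_exp
      positivity
    linarith
  obtain ⟨β, hβ⟩ := hBETA
  obtain ⟨C₁, hC₁, hW⟩ := hWGT P.eps (1 / 2) (kE P.eps P.gam) P.C heps heps2 (by norm_num)
    (by linarith) hC
  obtain ⟨B₁, hB₁, hE⟩ := hXENER P B
  obtain ⟨B₂, hB₂, hU⟩ := hXUPH P B β hβ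
  obtain ⟨c, hc, hvolA⟩ := EWGTE.vol_ann
  -- the bound of the volume density
  set V : ℝ := Real.sqrt (6 * (1 + P.C) ^ 3) with hV
  have hV0 : 0 ≤ V := Real.sqrt_nonneg _
  set N : ℝ := 81 * (P.C * (16 * P.C)) ^ 2 with hN
  have hN0 : 0 ≤ N := by positivity
  refine ⟨C₁ * (B₁ + N * V * B₂) + B₂ / c, by positivity, ?_⟩
  intro D hs hA se hcut
  obtain ⟨hg₀, hh₀, h2n, hH2₀, hEq₀, -, -, -, -, -, -, -, -, -, -, -, -, -, hKR, hKl⟩ :=
    hXSETW P D hs
  obtain ⟨hEi, hEb⟩ := hE D hs hA se hcut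
  obtain ⟨-, hphi, hphb⟩ := hU D hs hA
  have hl : 8 ≤ D.l := hs.l_ge
  have hl0 : 0 < D.l := by linarith
  have hKlpos : 4 * D.l ≤ D.Kl P := hKl
  have hOm : D.Om ⊆ Ann (1 / 2) D.R := fun x hx => ⟨by linarith [hx.1], hx.2⟩
  have hg : MetricOn D.Om D.g' :=
    ⟨fun i j => (hg₀.smooth i j).mono hOm, fun x hx => hg₀.posDef x (hOm hx)⟩
  have hh : TensorOn D.Om D.h' :=
    ⟨fun i j => (hh₀.smooth i j).mono hOm, fun x hx => hh₀.symm x (hOm hx)⟩
  have hH2 : H2On D.Om (D.w P) (D.Gw P) (D.Mw P) := EXWGTE.h2On_mono hH2₀ hOm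
  have hEq : EqW D.Om P.eps D.g' D.h' (D.Gw P) (D.Mw P) := ae_restrict_of_ae_restrict_of_subset hOm hEq₀
  have hUo : IsOpen D.Om := EABSI.isOpen_ann _ _
  have hR : 1 < D.R := by linarith
  have hsub : cAnn (D.l / 4) (D.Kl P) ⊆ D.Om := by
    intro x hx
    exact ⟨by linarith [hx.1], by linarith [hx.2]⟩
  have ha : 1 / 2 * D.l / 2 = D.l / 4 := by ring
  have ha2 : 1 / 2 * D.l = D.l / 2 := by ring
  have hb : kE P.eps P.gam * D.l = D.Kl P := rfl
  have hX0 : ∀ x, 0 ≤ D.X P x := fun x => Real.sqrt_nonneg _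
  have hph0 : ∀ x, 0 ≤ D.ph P x := fun x => mul_nonneg (Real.exp_pos _).le (hX0 x)
  have hvol0 : ∀ x, 0 ≤ D.vol x := fun x => Real.sqrt_nonneg _
  -- the region
  set K : Set E3 := cAnn (D.l / 4) (D.Kl P) with hK
  have hKc : IsCompact K := EWGTE.isCompact_cAnn _ _
  have hK2 : ∀ x ∈ K, 2 ≤ ‖x‖ := fun x hx => by linarith [hx.1]
  have hK1 : ∀ x ∈ K, 1 ≤ ‖x‖ := fun x hx => by linarith [hK2 x hx]
  have hvolb : ∀ x ∈ K, D.vol x ≤ V := by
    intro x hx
    have hx1 := hK1 x hx
    apply Real.sqrt_le_sqrt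
    apply EWGTE.det_bound
    intro i j
    have h1 := (hs.modified.decay x (hK2 x hx) i j).1
    have h2 : P.C / ‖x‖ ≤ P.C := div_le_self hC.le hx1
    have h3 : |(1 : Bil) i j| ≤ 1 := by
      rw [Matrix.one_apply]
      split_ifs <;> simp
    calc |D.g' x i j| = |(D.g' x i j - (1 : Bil) i j) + (1 : Bil) i j| := by ring_nf
      _ ≤ |D.g' x i j - (1 : Bil) i j| + |(1 : Bil) i j| := abs_add_le _ _
      _ ≤ 1 + P.C := by linarith
  have hnsq : ∀ x ∈ K, |nsq D.g' x (D.h' x)| ≤ N / D.l ^ 4 := by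
    intro x hx
    have hx1 := hK1 x hx
    have hinv : ∀ i j, |(D.g' x)⁻¹ i j| ≤ P.C := fun i j =>
      EShell.inv_entry (hg.posDef x (hsub hx))
        (fun v => (hs.modified.elliptic x (by linarith) v).1) i j
    have hh' : ∀ i j, |D.h' x i j| ≤ 16 * P.C / D.l ^ 2 := by
      intro i j
      refine (hs.modified.hsmall x hx1 i j).trans ?_
      rw [div_le_div_iff₀ (by positivity) (by positivity)]
      have h1 : D.l / 4 ≤ ‖x‖ := hx.1
      have h2 : D.l ^ 2 ≤ 16 * ‖x‖ ^ 2 := by nlinarith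
      nlinarith
    refine (EShell.nsq_le (D.h' x) hinv hh').trans (le_of_eq ?_)
    rw [hN]
    field_simp
  -- the energy
  have hcoef := MCF.coef hUo hg hh hKc hsub
  have hnm : AEMeasurable (fun x => nsq D.g' x (D.h' x)) (volume.restrict K) :=
    MCF.m_nsq hcoef hcoef.ten
  have hvm : AEMeasurable D.vol (volume.restrict K) := hcoef.vol
  have hi2 : IntegrableOn (fun x => D.ph P x * nsq D.g' x (D.h' x) * D.vol x) K := by
    refine Integrable.mono' (hphi.const_mul (N / D.l ^ 4 * V))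
      ((hphi.1.aemeasurable.mul hnm).mul hvm).aestronglyMeasurable ?_
    refine (ae_restrict_iff' hKc.measurableSet).2 (Eventually.of_forall fun x hx => ?_)
    rw [norm_mul, norm_mul, Real.norm_of_nonneg (hph0 x), Real.norm_of_nonneg (hvol0 x),
      Real.norm_eq_abs]
    calc D.ph P x * |nsq D.g' x (D.h' x)| * D.vol x
        ≤ D.ph P x * (N / D.l ^ 4) * V := by
          refine mul_le_mul (mul_le_mul_of_nonneg_left (hnsq x hx) (hph0 x)) (hvolb x hx)
            (hvol0 x) ?_
          exact mul_nonneg (hph0 x) (by positivity)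
      _ = _ := by ring
  have hi2b : ∫ x in K, D.ph P x * nsq D.g' x (D.h' x) * D.vol x ≤ N * V * B₂ := by
    calc ∫ x in K, D.ph P x * nsq D.g' x (D.h' x) * D.vol x
        ≤ ∫ x in K, (N / D.l ^ 4 * V) * D.ph P x := by
          refine setIntegral_mono_on hi2 (hphi.const_mul _) hKc.measurableSet fun x hx => ?_
          have h1 : nsq D.g' x (D.h' x) ≤ N / D.l ^ 4 := (le_abs_self _).trans (hnsq x hx)
          calc D.ph P x * nsq D.g' x (D.h' x) * D.vol x
              ≤ D.ph P x * (N / D.l ^ 4) * D.vol x :=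
                mul_le_mul_of_nonneg_right (mul_le_mul_of_nonneg_left h1 (hph0 x)) (hvol0 x)
            _ ≤ D.ph P x * (N / D.l ^ 4) * V :=
                mul_le_mul_of_nonneg_left (hvolb x hx) (mul_nonneg (hph0 x) (by positivity))
            _ = _ := by ring
      _ = (N / D.l ^ 4 * V) * ∫ x in K, D.ph P x := by rw [integral_const_mul]
      _ ≤ (N / D.l ^ 4 * V) * (B₂ * D.l ^ 3) :=
          mul_le_mul_of_nonneg_left hphb (by positivity)
      _ = N * V * B₂ * (1 / D.l) := by field_simp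
      _ ≤ N * V * B₂ * 1 := by
          refine mul_le_mul_of_nonneg_left ?_ (by positivity)
          rw [div_le_one hl0]
          linarith
      _ = _ := by ring
  have hfun : ∀ x, Real.exp (D.w P x / (2 - P.eps)) * len D.g' x (D.Gw P x)
        * (diss P.eps D.g' D.h' x (D.Gw P x) (D.Mw P x) + nsq D.g' x (D.h' x)) * volDen D.g' x
      = Real.exp (D.w P x / (2 - P.eps)) * D.Di P x * D.vol x
        + D.ph P x * nsq D.g' x (D.h' x) * D.vol x := by
    intro x
    unfold DatX.Di DatX.ph DatX.X DatX.vol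
    ring
  obtain ⟨lm, hlm, hmean, hclose⟩ := hW D.l D.Om D.g' D.h' (D.w P) (D.Gw P) (D.Mw P) hl0 hUo
    (by rw [ha, hb]; exact hsub) hg hh h2n
    (by
      rw [ha, hb]
      intro x hx v
      exact hs.modified.elliptic x (by linarith [hK1 x hx]) v)
    hH2 hEq (by
      rw [ha, hb]
      simp only [hfun]
      exact hEi.add hi2)
  rw [ha, ha2, hb] at hclose
  rw [ha2, hb] at hmean
  simp only [hfun] at hclose
  rw [integral_add hEi hi2] at hclose
  -- the annulus
  have hsub2 : cAnn (D.l / 2) (D.Kl P) ⊆ K := by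
    intro x hx
    exact ⟨by linarith [hx.1], hx.2⟩
  have hfin : IsFiniteMeasure (volume.restrict (cAnn (D.l / 2) (D.Kl P))) :=
    ⟨by rw [Measure.restrict_apply_univ]; exact (EWGTE.isCompact_cAnn _ _).measure_lt_top⟩
  obtain ⟨hint, hle⟩ := EWGTE.lm_bound (μ := volume.restrict (cAnn (D.l / 2) (D.Kl P)))
    (f := D.ph P) (hphi.mono_set hsub2) hph0 hlm hmean
  have hle2 : ∫ x in cAnn (D.l / 2) (D.Kl P), D.ph P x ≤ B₂ * D.l ^ 3 := by
    refine le_trans ?_ hphb
    exact setIntegral_mono_set hphi (Eventually.of_forall hph0) hsub2.eventuallyLE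
  have hone : ∫ _x in cAnn (D.l / 2) (D.Kl P), (1 : ℝ)
      = (volume (cAnn (D.l / 2) (D.Kl P))).toReal := by
    rw [setIntegral_const, smul_eq_mul, mul_one]
    rfl
  have hvA := hvolA D.l (D.Kl P) hl0 (by linarith)
  refine ⟨lm, hlm, ?_, hint, ?_⟩
  · -- the bound of lm
    have h1 : lm * (c * D.l ^ 3) ≤ B₂ * D.l ^ 3 := by
      refine le_trans (mul_le_mul_of_nonneg_left hvA hlm) ?_
      rw [← hone]
      exact hle.trans hle2
    have h2 : lm * c ≤ B₂ := by
      have h3 : 0 < D.l ^ 3 := by positivity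
      have h4 : (lm * c) * D.l ^ 3 ≤ B₂ * D.l ^ 3 := by linarith
      exact le_of_mul_le_mul_right h4 h3
    have h5 : lm ≤ B₂ / c := by
      rw [le_div_iff₀ hc]
      exact h2
    have h6 : 0 ≤ C₁ * (B₁ + N * V * B₂) := by positivity
    linarith
  · refine hclose.trans ?_
    have h1 : (∫ x in K, Real.exp (D.w P x / (2 - P.eps)) * D.Di P x * D.vol x)
        + (∫ x in K, D.ph P x * nsq D.g' x (D.h' x) * D.vol x) ≤ B₁ + N * V * B₂ :=
      add_le_add hEb hi2b
    calc C₁ * D.l ^ 2 * ((∫ x in K, Real.exp (D.w P x / (2 - P.eps)) * D.Di P x * D.vol x)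
          + (∫ x in K, D.ph P x * nsq D.g' x (D.h' x) * D.vol x))
        ≤ C₁ * D.l ^ 2 * (B₁ + N * V * B₂) := mul_le_mul_of_nonneg_left h1 (by positivity)
      _ = C₁ * (B₁ + N * V * B₂) * D.l ^ 2 := by ring
      _ ≤ (C₁ * (B₁ + N * V * B₂) + B₂ / c) * D.l ^ 2 := by
          refine mul_le_mul_of_nonneg_right ?_ (by positivity)
          have : 0 ≤ B₂ / c := by positivity
          linarith

end Pool.Agent.PFlow


end
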