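import Mathlib
import Pool.Agent.PFlow.DefsX
import Pool.Agent.PenroseM.C03
import Pool.Agent.PenroseM.C06
import Pool.Agent.PenroseM.C18
import Pool.Agent.PenroseM.C19
import Pool.Agent.PenroseM.C46
import Pool.Agent.PenroseM.C48

/-! Parts: PFlow.StmtsPX, PFlow.PX.Byp, PFlow.PX.CmL, PFlow.PX.Cov, PFlow.PX.FluxL, PFlow.PX.Inv, PFlow.PX.Lips, PFlow.PX.NDv, PFlow.PX.NoIsl, PFlow.PX.Prd, PFlow.PX.Step, PFlow.PX.SubL -/

section

/-!
# Block PX: statements of the modules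

Existence of the function `u` on an exterior region with the boundary values `1` on `|x| = 1`, and
its reflection. Proofs in `PX.md`. The general part of block P (`StmtsP.lean`, `StmtsK.lean`) is
available; every module proves one of the statements below and takes the ones it needs as
hypotheses.
-/

open MeasureTheory Filter Topology Set
open scoped ContDiff RealInnerProductSpace

namespace Pool.Agent.PFlow.PB

open Pool.Agent.PenroseSph Pool.Agent.PFlow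

/-! ### Definitions -/

/-- The set where the boundary values are prescribed. -/
def ZS (b : ℝ) : Set E3 := {x : E3 | ‖x‖ ≤ 1 ∨ b ≤ ‖x‖}

/-- The weak form of `div A(x, ∇u) + B(x, ∇u) = 0` outside `Z`, with `u = w₀` on `Z`. -/
def WSolZ (A : E3 → E3 → E3) (B : E3 → E3 → ℝ) (Z : Set E3) (w₀ u : E3 → ℝ) (G : E3 → E3) :
    Prop :=
  H1 u G ∧ (∀ᵐ x, x ∈ Z → u x = w₀ x) ∧
    ∀ φ Φ, H1 φ Φ → (∀ᵐ x, x ∈ Z → φ x = 0) → ∫ x, ⟪A x (G x), Φ x⟫ = ∫ x, B x (G x) * φ x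

/-- The weak form of `div A(x, ∇u) + B(x, ∇u) = m (u - v)` outside `Z`, with `u = w₀` on `Z`. -/
def StepZ (A : E3 → E3 → E3) (B : E3 → E3 → ℝ) (Z : Set E3) (w₀ : E3 → ℝ) (m : ℝ)
    (v u : E3 → ℝ) (G : E3 → E3) : Prop :=
  H1 u G ∧ (∀ᵐ x, x ∈ Z → u x = w₀ x) ∧
    ∀ φ Φ, H1 φ Φ → (∀ᵐ x, x ∈ Z → φ x = 0) →
      ∫ x, ⟪A x (G x), Φ x⟫ = ∫ x, (B x (G x) - m * (u x - v x)) * φ x

/-- `u` is a weak solution of `div A(x, ∇u) + B(x, ∇u) = 0` in the open set `U`. -/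
def LSol (A : E3 → E3 → E3) (B : E3 → E3 → ℝ) (U : Set E3) (u : E3 → ℝ) (G : E3 → E3) : Prop :=
  H1 u G ∧ ∀ φ Φ, H1 φ Φ → (∃ K : Set E3, IsCompact K ∧ K ⊆ U ∧ ∀ᵐ x, x ∉ K → φ x = 0) →
    ∫ x, ⟪A x (G x), Φ x⟫ = ∫ x, B x (G x) * φ x

/-- The transposed Jacobian matrix of the inversion, applied to a covector. -/
noncomputable def JT (x ξ : E3) : E3 := vec fun i => ∑ a, inversionJac x a i * ξ a

/-! ### E: the Dirichlet problem for the regularised equation -/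

/-- XSTEP: the problem with the additional term `m (u - v)`. -/
def XSTEP : Prop := ∀ A B c L r, PCoef A B c L r → ∀ (Z : Set E3) (w₀ : E3 → ℝ), Test w₀ →
  ∀ m, L ^ 2 / c + 2 ≤ m → ∀ v, MemLp v 2 → ∃ u G, StepZ A B Z w₀ m v u G

/-- XORD: comparison for the problem with the additional term. -/
structure XORD : Prop where
  mono : ∀ A B c L r, PCoef A B c L r → ∀ (Z : Set E3) (w₀ : E3 → ℝ), Test w₀ →
    ∀ m, L ^ 2 / c + 2 ≤ m → ∀ v₁ v₂ u₁ u₂ G₁ G₂, MemLp v₁ 2 → MemLp v₂ 2 →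
    StepZ A B Z w₀ m v₁ u₁ G₁ → StepZ A B Z w₀ m v₂ u₂ G₂ → (∀ᵐ x, v₁ x ≤ v₂ x) →
    ∀ᵐ x, u₁ x ≤ u₂ x
  nonneg : ∀ A B c L r, PCoef A B c L r → ∀ (Z : Set E3) (w₀ : E3 → ℝ), Test w₀ →
    (∀ x, 0 ≤ w₀ x) → ∀ m, L ^ 2 / c + 2 ≤ m → ∀ v u G, MemLp v 2 → StepZ A B Z w₀ m v u G →
    (∀ᵐ x, 0 ≤ v x) → ∀ᵐ x, 0 ≤ u x
  le_one : ∀ A B c L r, PCoef A B c L r → ∀ (Z : Set E3) (w₀ : E3 → ℝ), Test w₀ →
    (∀ x, w₀ x ≤ 1) → ∀ m, L ^ 2 / c + 2 ≤ m → ∀ v u G, MemLp v 2 → StepZ A B Z w₀ m v u G →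
    (∀ᵐ x, v x ≤ 1) → ∀ᵐ x, u x ≤ 1

/-- XLIPS: the solution depends on `v` in a Lipschitz way. -/
def XLIPS : Prop := ∀ A B c L r, PCoef A B c L r → ∀ m, L ^ 2 / c + 2 ≤ m → ∃ C,
  ∀ (Z : Set E3) (w₀ : E3 → ℝ), Test w₀ → ∀ v₁ v₂ u₁ u₂ G₁ G₂, MemLp v₁ 2 → MemLp v₂ 2 →
    StepZ A B Z w₀ m v₁ u₁ G₁ → StepZ A B Z w₀ m v₂ u₂ G₂ →
    sq (fun x => u₁ x - u₂ x) + sqv (fun x => G₁ x - G₂ x) ≤ C * sq (fun x => v₁ x - v₂ x)

/-- XEXI: existence for the regularised equation. -/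
def XEXI : Prop := ∀ A B c L r, PCoef A B c L r → ∀ (Z : Set E3) (w₀ : E3 → ℝ), Test w₀ →
  (∀ x, 0 ≤ w₀ x ∧ w₀ x ≤ 1) → (∃ ρ : ℝ, ∀ x : E3, ρ ≤ ‖x‖ → x ∈ Z) →
  ∃ u G, WSolZ A B Z w₀ u G ∧ ∀ᵐ x, 0 ≤ u x ∧ u x ≤ 1

/-! ### C: comparison -/

/-- XCKEY: the main comparison lemma; `s = 1` (lower) or `s = -1` (upper). -/
def XCKEY : Prop := ∀ A B c L r, PCoef A B c L r → ∀ u G, H1 u G → ∀ s : ℝ, (s = 1 ∨ s = -1) →
  ∀ f : E3 → ℝ, ContDiff ℝ 2 f → HasCompactSupport (gr f) →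
  ∀ v V, H1 v V → ∀ T : ℝ, (∀ᵐ x, |v x| ≤ T) →
  (∀ φ Φ, H1 φ Φ → (∀ᵐ x, v x ≤ 0 → φ x = 0) →
    ∫ x, ⟪A x (G x), Φ x⟫ = ∫ x, B x (G x) * φ x) →
  (∀ᵐ x, 0 < v x → V x = s • (gr f x - G x)) → ∀ σ > 0,
  (∀ᵐ x, 0 < v x → σ ≤ s * (opA A x (gr f x) (fun i => hs f i x) + B x (gr f x))) →
  ∀ᵐ x, v x ≤ 0

/-- XCCPT: comparison on a compact set. -/
def XCCPT : Prop := ∀ A B c L r, PCoef A B c L r → ∀ (U : Set E3) u G, LSol A B U u G →
  Continuous u → ∀ s : ℝ, (s = 1 ∨ s = -1) →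
  ∀ (K : Set E3) (f : E3 → ℝ), IsCompact K → K ⊆ U → (∀ x ∈ K, ContDiffAt ℝ 2 f x) →
  ∀ σ > 0, (∀ x ∈ K, 0 < s * (f x - u x) →
    σ ≤ s * (opA A x (gr f x) (fun i => hs f i x) + B x (gr f x))) →
  (∀ x ∈ frontier K, s * (f x - u x) ≤ 0) → ∀ x ∈ K, s * (f x - u x) ≤ 0

/-- XCMP: comparison up to the boundary. -/
def XCMP : Prop := ∀ A B c L r, PCoef A B c L r → ∀ (b : ℝ) (w₀ : E3 → ℝ), 1 < b → Test w₀ →
  (∀ x : E3, ‖x‖ ≤ 1 → w₀ x = 1) → (∀ x : E3, b ≤ ‖x‖ → w₀ x = 0) → ∀ u G,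
  WSolZ A B (ZS b) w₀ u G → (∀ᵐ x, 0 ≤ u x ∧ u x ≤ 1) → ∀ s : ℝ, (s = 1 ∨ s = -1) →
  ∀ f : E3 → ℝ, (∀ x : E3, 1 ≤ ‖x‖ → ‖x‖ ≤ b → ContDiffAt ℝ 2 f x) → ∀ σ > 0,
  (∀ x : E3, 1 ≤ ‖x‖ → ‖x‖ ≤ b →
    σ ≤ s * (opA A x (gr f x) (fun i => hs f i x) + B x (gr f x))) →
  (∀ x : E3, ‖x‖ = 1 → s * (f x - 1) ≤ 0) → (∀ x : E3, ‖x‖ = b → s * f x ≤ 0) →
  ∀ᵐ x : E3, 1 ≤ ‖x‖ → ‖x‖ ≤ b → s * (f x - u x) ≤ 0

/-! ### R: reflection -/

/-- XINV: the coefficients under the inversion (for symmetric data). -/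
def XINV : Prop := ∀ (ε δ κ : ℝ) (g h : TensorField) (r : ℝ), 0 < δ → GData g h r →
  Mirror g h → ∀ x : E3, 1 / 4 < ‖x‖ → ‖x‖ < 4 →
  (∀ ξ η : E3, ⟪cA ε δ κ g x (-JT x ξ), JT x η⟫ =
    -((‖x‖ ^ 6)⁻¹ * ⟪cA ε δ κ g (inversion x) ξ, η⟫)) ∧
  ∀ ξ : E3, cB ε δ g h x (-JT x ξ) = -((‖x‖ ^ 6)⁻¹ * cB ε δ g h (inversion x) ξ)

/-- XCOV: change of variables. -/
structure XCOV : Prop where
  null : ∀ P : E3 → Prop, (∀ᵐ x, P x) → ∀ᵐ x, P (inversion x)
  int : ∀ (a b : ℝ), 0 < a → a < b → ∀ k : E3 → ℝ, IntegrableOn k (Ann b⁻¹ a⁻¹) →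
    IntegrableOn (fun x => (‖x‖ ^ 6)⁻¹ * k (inversion x)) (Ann a b) ∧
    ∫ x in Ann a b, (‖x‖ ^ 6)⁻¹ * k (inversion x) = ∫ x in Ann b⁻¹ a⁻¹, k x
  mem : ∀ (a b : ℝ), 0 < a → a < b → ∃ C : ℝ, 0 ≤ C ∧
    (∀ f : E3 → ℝ, MemLp f 2 → (∀ᵐ x, x ∉ Ann a b → f x = 0) →
      MemLp (fun x => f (inversion x)) 2 ∧ sq (fun x => f (inversion x)) ≤ C * sq f) ∧
    ∀ F : E3 → E3, MemLp F 2 → (∀ᵐ x, x ∉ Ann a b → F x = 0) →
      MemLp (fun x => JT x (F (inversion x))) 2 ∧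
      sqv (fun x => JT x (F (inversion x))) ≤ C * sqv F

/-- XH1I: the composition with the inversion belongs to `H¹`. -/
def XH1I : Prop := ∀ (a b : ℝ), 0 < a → a < b → ∀ f F, H1 f F →
  (∀ᵐ x, x ∉ Ann a b → f x = 0) →
  H1 (fun x => f (inversion x)) (fun x => JT x (F (inversion x)))

/-- XODT: a function of class `C¹` which vanishes on the unit sphere, continued by zero. -/
def XODT : Prop := ∀ ψ : E3 → ℝ, ContDiff ℝ 1 ψ → HasCompactSupport ψ →
  (∀ x : E3, ‖x‖ = 1 → ψ x = 0) →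
  H1 ({x : E3 | 1 < ‖x‖}.indicator ψ) ({x : E3 | 1 < ‖x‖}.indicator (gr ψ))

/-- XODD: the odd part of a test function, continued by zero. -/
def XODD : Prop := ∀ (a b : ℝ), 0 < a → a < 1 → 1 < b → ∀ φ Φ, H1 φ Φ →
  (∀ᵐ x, x ∉ Ann a b → φ x = 0) →
  H1 ({x : E3 | 1 < ‖x‖}.indicator fun x => φ x - φ (inversion x))
    ({x : E3 | 1 < ‖x‖}.indicator fun x => Φ x - JT x (Φ (inversion x)))

/-- XREF: the reflected function is a weak solution across the sphere `|x| = 1`. -/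
def XREF : Prop := ∀ (ε δ κ R : ℝ) (g h : TensorField) (w₀ : E3 → ℝ), 0 < ε → ε < 1 →
  0 < δ → 0 < κ → 8 ≤ R → GData g h (R / 2) → Mirror g h →
  (∀ x : E3, ‖x‖ ≤ 1 → w₀ x = 1) → (∀ x : E3, 2 * R ≤ ‖x‖ → w₀ x = 0) → ∀ u G,
  WSolZ (cA ε δ κ g) (cB ε δ g h) (ZS (2 * R)) w₀ u G → (∀ᵐ x, 0 ≤ u x ∧ u x ≤ 1) →
  ∃ y Y, LSol (cA ε δ κ g) (cB ε δ g h) (Ann (1 / 3) (2 * R)) y Y ∧
    (∀ᵐ x, 0 ≤ y x ∧ y x ≤ 2) ∧ (∀ᵐ x : E3, 1 ≤ ‖x‖ → y x = u x) ∧
    ∀ᵐ x : E3, x ∈ Ann (1 / 3) 3 → y (inversion x) = 2 - y x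

/-! ### L: local regularity -/

/-- XLCG: weak solutions which agree on an open set. -/
def XLCG : Prop := ∀ A B c L r, PCoef A B c L r → ∀ (U O : Set E3) u G w W, LSol A B U u G →
  H1 w W → O ⊆ U → (∀ᵐ x, x ∈ O → w x = u x) → LSol A B O w W

/-- XDQ: second derivatives of weak solutions. -/
def XDQ : Prop := ∀ A B c L r, PCoef A B c L r → ∀ (U : Set E3) u G, IsOpen U →
  LSol A B U u G → ∀ ζ : E3 → ℝ, Test ζ → tsupport ζ ⊆ U → ∀ i, ∃ N, H1 (fun x => ζ x * G x i) N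

/-- XHTW: weak solutions belong to `H²` locally. -/
def XHTW : Prop := ∀ A B c L r, PCoef A B c L r → ∀ (U : Set E3) u G, IsOpen U →
  LSol A B U u G → ∀ ζ : E3 → ℝ, Test ζ → tsupport ζ ⊆ U →
  ∃ N, H2 (fun x => ζ x * u x) (fun x => ζ x • G x + u x • gr ζ x) N

/-- XDVF: the divergence of `A(x, ∇w)`. -/
def XDVF : Prop := ∀ A B c L r, PCoef A B c L r → ∀ w W N, H2 w W N →
  MemLp (fun x => opA A x (W x) (fun i => N i x)) 2 ∧ ∀ φ, Test φ →
    ∫ x, ⟪A x (W x), gr φ x⟫ = - ∫ x, opA A x (W x) (fun i => N i x) * φ x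

/-- XNDV: the equation in nondivergence form. -/
def XNDV : Prop := ∀ A B c L r, PCoef A B c L r → ∀ (O : Set E3) w W N, IsOpen O →
  LSol A B O w W → H2 w W N →
  ∀ᵐ x, x ∈ O → opA A x (W x) (fun i => N i x) + B x (W x) = 0

/-! ### U: the uniform estimate -/

/-- XCRD: the integrated Cordes inequality with an integrable error term. -/
def XCRD : Prop := ∀ (ε : ℝ) (g h : TensorField) (r : ℝ), 0 < ε → ε < 1 → GData g h r →
  ∀ C₀ : ℝ, ∃ C : ℝ, ∀ u G M (E : E3 → ℝ), H2 u G M → Integrable E → (∀ᵐ x, 0 ≤ E x) →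
    (∀ᵐ x, trg g x (cHess g x (G x) (mt fun i => M i x)) ^ 2 ≤
      (1 - ε) * nsq g x (cHess g x (G x) (mt fun i => M i x)) + C₀ * (‖G x‖ ^ 2 + E x)) →
    ∑ i, sqv (M i) ≤ C * (sqv G + ∫ x, E x)

/-- XPRD: the product with the square of a cut-off function. -/
def XPRD : Prop := ∀ ζ : E3 → ℝ, Test ζ → (∀ x, 0 ≤ ζ x ∧ ζ x ≤ 1) → ∃ C : ℝ, 0 ≤ C ∧
  ∀ w W N, H2 w W N → (∀ᵐ x, |w x| ≤ 2) →
  ∃ Z P, H2 (fun x => ζ x ^ 2 * w x) Z P ∧
    (∀ᵐ x, ‖Z x - ζ x ^ 2 • W x‖ ≤ C * (tsupport ζ).indicator (fun _ => 1) x) ∧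
    ∀ᵐ x, ∀ i, ‖P i x - ζ x ^ 2 • N i x‖ ≤
      C * (ζ x * ‖W x‖ + (tsupport ζ).indicator (fun _ => 1) x)

/-- XPTW: the pointwise Cordes inequality for the product. -/
def XPTW : Prop := ∀ (ε : ℝ) (g h : TensorField) (r : ℝ), 0 < ε → ε < 1 → GData g h r →
  ∀ C₁ : ℝ, ∃ C₀ : ℝ, 0 ≤ C₀ ∧ ∀ (x : E3) (t χ : ℝ) (W Z : E3) (N P : Fin 3 → E3),
    0 ≤ t → t ≤ 1 → 0 ≤ χ →
    trg g x (cHess g x W (mt N)) ^ 2 ≤
      (1 - ε) * nsq g x (cHess g x W (mt N)) + C₁ * ‖W‖ ^ 2 →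
    ‖Z - t ^ 2 • W‖ ≤ C₁ * χ → (∀ i, ‖P i - t ^ 2 • N i‖ ≤ C₁ * (t * ‖W‖ + χ)) →
    trg g x (cHess g x Z (mt P)) ^ 2 ≤
      (1 - ε / 2) * nsq g x (cHess g x Z (mt P)) + C₀ * (t ^ 2 * ‖W‖ ^ 2 + χ ^ 2)

/-- XBYP: integration by parts for the first derivatives. -/
def XBYP : Prop := ∀ ζ : E3 → ℝ, Test ζ → (∀ x, 0 ≤ ζ x ∧ ζ x ≤ 1) → ∃ C : ℝ, 0 ≤ C ∧
  ∀ w W N, H2 w W N → (∀ᵐ x, |w x| ≤ 2) →
  ∫ x, ζ x ^ 2 * ‖W x‖ ^ 2 ≤ C * (1 + √(∫ x, ζ x ^ 4 * ∑ i, ‖N i x‖ ^ 2))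

/-- XUNIF: local bound in `H²`, uniform in `δ, κ`. -/
def XUNIF : Prop := ∀ (ε : ℝ) (g h : TensorField) (r : ℝ) (U : Set E3) (ζ : E3 → ℝ),
  0 < ε → ε < 1 → 0 < r → GData g h r → IsOpen U → Test ζ → (∀ x, 0 ≤ ζ x ∧ ζ x ≤ 1) →
  tsupport ζ ⊆ U → ∃ C : ℝ, ∀ δ κ : ℝ, 0 < δ → δ ≤ 1 → 0 < κ → κ ≤ 1 → ∀ u G,
    LSol (cA ε δ κ g) (cB ε δ g h) U u G → (∀ᵐ x, |u x| ≤ 2) →
    ∃ Z N, H2 (fun x => ζ x ^ 2 * u x) Z N ∧
      sq (fun x => ζ x ^ 2 * u x) + sqv Z + ∑ i, sqv (N i) ≤ C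

/-! ### F: the limit -/

/-- The limit `δ, κ → 0`: everything that is known about the sequence of regularised solutions
`u n`, their continuous reflected versions `v n`, and the limit `w`. -/
structure LimX (ε R : ℝ) (g h : TensorField) (w₀ : E3 → ℝ) (δ κ : ℕ → ℝ) (u : ℕ → E3 → ℝ)
    (G : ℕ → E3 → E3) (v : ℕ → E3 → ℝ) (V : ℕ → E3 → E3) (M : ℕ → Fin 3 → E3 → E3) (C : ℝ)
    (w : E3 → ℝ) (F : E3 → E3) (N : Fin 3 → E3 → E3) : Prop where
  eps_pos : 0 < ε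
  eps_lt : ε < 1
  hR : 8 ≤ R
  data : GData g h (R / 2)
  test : Test w₀
  w₀_in : ∀ x : E3, ‖x‖ ≤ 1 → w₀ x = 1
  w₀_out : ∀ x : E3, 2 * R ≤ ‖x‖ → w₀ x = 0
  δ_pos : ∀ n, 0 < δ n
  δ_le : ∀ n, δ n ≤ 1
  δ_tend : Tendsto δ atTop (𝓝 0)
  κ_pos : ∀ n, 0 < κ n
  κ_le : ∀ n, κ n ≤ 1
  κ_tend : Tendsto κ atTop (𝓝 0)
  sol : ∀ n, WSolZ (cA ε (δ n) (κ n) g) (cB ε (δ n) g h) (ZS (2 * R)) w₀ (u n) (G n)
  bdd : ∀ n, ∀ᵐ x, 0 ≤ u n x ∧ u n x ≤ 1
  loc : ∀ n, LSol (cA ε (δ n) (κ n) g) (cB ε (δ n) g h) (Ann (2 / 5) (3 * R / 2)) (v n) (V n)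
  h2 : ∀ n, H2 (v n) (V n) (M n)
  cont : ∀ n, Continuous (v n)
  out : ∀ n, ∀ᵐ x : E3, 1 ≤ ‖x‖ → ‖x‖ < 3 * R / 2 → v n x = u n x
  refl : ∀ n, ∀ x ∈ Ann (1 / 2) 2, v n (inversion x) = 2 - v n x
  bound : ∀ n, sq (v n) + sqv (V n) + ∑ i, sqv (M n i) ≤ C
  h2w : H2 w F N
  contw : Continuous w
  unif : ∀ K : Set E3, IsCompact K → TendstoUniformlyOn v w atTop K
  strong : ∀ K : Set E3, IsCompact K →
    Tendsto (fun n => ∫ x in K, ‖V n x - F x‖ ^ 2) atTop (𝓝 0)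
  ae : ∀ᵐ x, Tendsto (fun n => V n x) atTop (𝓝 (F x))
  weak : ∀ ψ : E3 → ℝ, MemLp ψ 2 → ∀ i j,
    Tendsto (fun n => ∫ x, ψ x * M n i x j) atTop (𝓝 (∫ x, ψ x * N i x j))

/-- XLIM: existence of the sequence and its limit. -/
def XLIM : Prop := ∀ (ε R : ℝ) (g h : TensorField), 0 < ε → ε < 1 → 8 ≤ R →
  GData g h (R / 2) → Mirror g h →
  ∃ w₀ δ κ u G v V M C w F N, LimX ε R g h w₀ δ κ u G v V M C w F N

/-- XEQL: the equation of the limit. -/
def XEQL : Prop := ∀ ε R g h w₀ δ κ u G v V M C w F N,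
  LimX ε R g h w₀ δ κ u G v V M C w F N → EqU (Ann (1 / 2) R) ε g h (fun x => F x) (mat N)

/-- XFLX: the flux identity of the limit. -/
def XFLX : Prop := ∀ ε R g h w₀ δ κ u G v V M C w F N,
  LimX ε R g h w₀ δ κ u G v V M C w F N →
  ∀ χ : E3 → ℝ, ContDiff ℝ 1 χ → HasCompactSupport χ → tsupport χ ⊆ Ann (1 / 2) R →
    ∫ x, len g x (F x) ^ (ε - 1) * ev (g x)⁻¹ (F x) (grad χ x) * volDen g x
      = ∫ x, len g x (F x) ^ ε * beps ε g x (F x) (h x) * χ x * volDen g x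

/-- XSUB: comparison for the limit, on compact sets. -/
def XSUB : Prop := ∀ ε R g h w₀ δ κ u G v V M C w F N,
  LimX ε R g h w₀ δ κ u G v V M C w F N →
  ∀ K : Set E3, IsCompact K → K ⊆ Ann (2 / 5) (3 * R / 2) → ∀ f : E3 → ℝ,
    (∀ x ∈ K, ContDiffAt ℝ 2 f x) →
    ((∀ x ∈ K, grad f x ≠ 0 ∧ 0 < opN ε g h f x) →
      (∀ x ∈ frontier K, f x ≤ w x) → ∀ x ∈ K, f x ≤ w x) ∧
    ((∀ x ∈ K, grad f x ≠ 0 ∧ opN ε g h f x < 0) →
      (∀ x ∈ frontier K, w x ≤ f x) → ∀ x ∈ K, w x ≤ f x)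

/-- XNOI: no islands, from the comparison principle. -/
def XNOI : Prop := ∀ (ε r : ℝ) (U : Set E3) (g h : TensorField) (w : E3 → ℝ), 0 < ε → ε < 1 →
  GData g h r → Continuous w →
  (∀ K : Set E3, IsCompact K → K ⊆ U → ∀ f : E3 → ℝ, (∀ x ∈ K, ContDiffAt ℝ 2 f x) →
    ((∀ x ∈ K, grad f x ≠ 0 ∧ 0 < opN ε g h f x) →
      (∀ x ∈ frontier K, f x ≤ w x) → ∀ x ∈ K, f x ≤ w x) ∧
    ((∀ x ∈ K, grad f x ≠ 0 ∧ opN ε g h f x < 0) →
      (∀ x ∈ frontier K, w x ≤ f x) → ∀ x ∈ K, w x ≤ f x)) →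
  NoIsland U w

/-- XCML: comparison for the limit, up to the boundary. -/
def XCML : Prop := ∀ ε R g h w₀ δ κ u G v V M C w F N,
  LimX ε R g h w₀ δ κ u G v V M C w F N → ∀ f : E3 → ℝ,
  ((∀ x : E3, 1 ≤ ‖x‖ → ‖x‖ ≤ 2 * R → ContDiffAt ℝ 2 f x ∧ grad f x ≠ 0 ∧
      0 < opN ε g h f x) → (∀ x : E3, ‖x‖ = 1 → f x ≤ 1) → (∀ x : E3, ‖x‖ = 2 * R → f x ≤ 0) →
    ∀ x : E3, 1 ≤ ‖x‖ → ‖x‖ < R → f x ≤ w x) ∧
  ((∀ x : E3, 1 ≤ ‖x‖ → ‖x‖ ≤ 2 * R → ContDiffAt ℝ 2 f x ∧ grad f x ≠ 0 ∧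
      opN ε g h f x < 0) → (∀ x : E3, ‖x‖ = 1 → 1 ≤ f x) → (∀ x : E3, ‖x‖ = 2 * R → 0 ≤ f x) →
    ∀ x : E3, 1 ≤ ‖x‖ → ‖x‖ < R → w x ≤ f x)

/-- XFIN: the main theorem of block PX. -/
def XFIN : Prop := XEQL → XFLX → XSUB → XNOI → XCML → HTWOON → XLIM → Stmt_PX

end Pool.Agent.PFlow.PB


end

section

/-!
# Block PX, module XBYP: integration by parts for the first derivatives
-/

open MeasureTheory Filter Topology Set
open scoped ContDiff RealInnerProductSpace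

namespace Pool.Agent.PFlow.PB

open Pool.Agent.PenroseSph Pool.Agent.PFlow

namespace PXByp

theorem inner_le (W Z : E3) : |∑ i, W i * Z i| ≤ ‖W‖ * ‖Z‖ := by
  have h := abs_real_inner_le_norm Z W
  rw [PiLp.inner_apply] at h
  have e : ∑ i, ⟪Z i, W i⟫ = ∑ i, W i * Z i := Finset.sum_congr rfl fun i _ => by simp
  rw [e, mul_comm] at h
  exact h

theorem tr_sq (N : Fin 3 → E3) : (∑ i, N i i) ^ 2 ≤ 3 * ∑ i, ‖N i‖ ^ 2 := by
  have h1 : ∀ i, (N i i) ^ 2 ≤ ‖N i‖ ^ 2 := fun i => by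
    rw [← sq_abs (N i i)]
    have := abs_comp_le (N i) i
    have := abs_nonneg (N i i)
    gcongr
  have h2 : (∑ i, N i i) ^ 2 ≤ 3 * ∑ i, (N i i) ^ 2 := by
    have := sq_sum_le_card_mul_sum_sq (s := (Finset.univ : Finset (Fin 3))) (f := fun i => N i i)
    simpa using this
  refine h2.trans ?_
  have := Finset.sum_le_sum fun i (_ : i ∈ Finset.univ) => h1 i
  linarith

/-- the pointwise inequality -/
theorem pw {z w s k : ℝ} (W Z : E3) (N : Fin 3 → E3) (hs : 0 < s) (hz : 0 ≤ z) (hw : |w| ≤ 2)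
    (hk : z ≠ 0 → k = 1) (hk0 : 0 ≤ k) :
    -∑ i, (z ^ 2 • N i + W i • ((2 * z) • Z)) i * w ≤
      3 * s * (z ^ 4 * ∑ i, ‖N i‖ ^ 2) + s⁻¹ * k + (1 / 2 * (z ^ 2 * ‖W‖ ^ 2) + 8 * ‖Z‖ ^ 2) := by
  have e : -∑ i, (z ^ 2 • N i + W i • ((2 * z) • Z)) i * w
      = -(z ^ 2 * ∑ i, N i i) * w + -(2 * z * ∑ i, W i * Z i) * w := by
    have h1 : ∀ i, (z ^ 2 • N i + W i • ((2 * z) • Z)) i * w
        = (z ^ 2 * N i i) * w + (2 * z * (W i * Z i)) * w := fun i => by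
      simp only [PiLp.add_apply, PiLp.smul_apply, smul_eq_mul]
      ring
    rw [Finset.sum_congr rfl fun i _ => h1 i, Finset.sum_add_distrib, ← Finset.sum_mul,
      ← Finset.sum_mul, ← Finset.mul_sum, ← Finset.mul_sum]
    ring
  rw [e]
  set T := ∑ i, N i i with hT
  set D := ∑ i, W i * Z i with hD
  have hw' := abs_le.1 hw
  have h1 : -(z ^ 2 * T) * w ≤ 2 * |z ^ 2 * T| := by
    have h : |-(z ^ 2 * T) * w| ≤ |z ^ 2 * T| * 2 := by
      rw [abs_mul, abs_neg]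
      exact mul_le_mul_of_nonneg_left hw (abs_nonneg _)
    have := le_abs_self (-(z ^ 2 * T) * w)
    linarith
  have h2 : 2 * |z ^ 2 * T| ≤ s * (z ^ 2 * T) ^ 2 + s⁻¹ * k := by
    by_cases h0 : z = 0
    · have : z ^ 2 * T = 0 := by rw [h0]; ring
      rw [this]
      simp only [abs_zero, mul_zero, ne_eq, OfNat.ofNat_ne_zero, not_false_eq_true, zero_pow,
        zero_add]
      positivity
    · rw [hk h0, mul_one]
      have h3 : 0 ≤ (s * |z ^ 2 * T| - 1) ^ 2 := sq_nonneg _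
      have h4 : s * (s * (z ^ 2 * T) ^ 2 + s⁻¹ - 2 * |z ^ 2 * T|) = (s * |z ^ 2 * T| - 1) ^ 2 := by
        have h5 : (z ^ 2 * T) ^ 2 = |z ^ 2 * T| ^ 2 := (sq_abs _).symm
        rw [h5]
        field_simp
        ring
      have h6 : 0 ≤ s * (z ^ 2 * T) ^ 2 + s⁻¹ - 2 * |z ^ 2 * T| := by
        by_contra hc
        push Not at hc
        have := mul_neg_of_pos_of_neg hs hc
        linarith
      linarith
  have h3 : s * (z ^ 2 * T) ^ 2 ≤ 3 * s * (z ^ 4 * ∑ i, ‖N i‖ ^ 2) := by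
    have h4 := tr_sq N
    rw [← hT] at h4
    have h5 : s * (z ^ 2 * T) ^ 2 = s * z ^ 4 * T ^ 2 := by ring
    have h6 : 3 * s * (z ^ 4 * ∑ i, ‖N i‖ ^ 2) = s * z ^ 4 * (3 * ∑ i, ‖N i‖ ^ 2) := by ring
    rw [h5, h6]
    exact mul_le_mul_of_nonneg_left h4 (by positivity)
  have h4 : -(2 * z * D) * w ≤ 4 * (z * (‖W‖ * ‖Z‖)) := by
    have h : |-(2 * z * D) * w| ≤ (2 * z * (‖W‖ * ‖Z‖)) * 2 := by
      rw [abs_mul, abs_neg, abs_mul, abs_of_nonneg (by positivity : (0 : ℝ) ≤ 2 * z)]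
      have := inner_le W Z
      gcongr
    have := le_abs_self (-(2 * z * D) * w)
    linarith
  have h5 : 4 * (z * (‖W‖ * ‖Z‖)) ≤ 1 / 2 * (z ^ 2 * ‖W‖ ^ 2) + 8 * ‖Z‖ ^ 2 := by
    have : 0 ≤ (z * ‖W‖ - 4 * ‖Z‖) ^ 2 := sq_nonneg _
    nlinarith
  linarith

end PXByp

open PXByp

/-- XBYP: integration by parts for the first derivatives. -/
theorem xbyp_thm (h1 : API1) (h2 : API2) : XBYP := by
  intro ζ hζ h01
  -- the data of the test function
  have hζ1 : ContDiff ℝ 1 ζ := hζ.one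
  have hζc : Continuous ζ := hζ1.continuous
  set K : Set E3 := tsupport ζ with hK
  have hKc : IsCompact K := hζ.cpt
  have hKm : MeasurableSet K := hKc.measurableSet
  have hKf : volume K ≠ ⊤ := hKc.measure_lt_top.ne
  have hz2 : ContDiff ℝ 1 (fun x => ζ x ^ 2) := hζ1.pow 2
  have hg2 : ∀ x, gr (fun x => ζ x ^ 2) x = (2 * ζ x) • gr ζ x := by
    intro x
    have e : (fun x => ζ x ^ 2) = fun x => ζ x * ζ x := by
      ext y
      ring
    rw [e, gr_mul ζ ζ x (hζ.diff x) (hζ.diff x), ← add_smul]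
    congr 1
    ring
  obtain ⟨C₁, hC₁⟩ := (gr_cpt ζ hζ.cpt).exists_bound_of_continuous (gr_cont ζ hζ1)
  have hC₁0 : 0 ≤ C₁ := (norm_nonneg _).trans (hC₁ 0)
  have hb1 : ∀ x, |ζ x ^ 2| ≤ 1 + 2 * C₁ := by
    intro x
    rw [abs_of_nonneg (by positivity)]
    have := pow_le_one₀ (n := 2) (h01 x).1 (h01 x).2
    linarith
  have hb2 : ∀ x, ‖gr (fun x => ζ x ^ 2) x‖ ≤ 1 + 2 * C₁ := by
    intro x
    rw [hg2, norm_smul, Real.norm_eq_abs, abs_of_nonneg (by linarith [(h01 x).1])]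
    have h3 := hC₁ x
    have h4 := (h01 x).2
    have h5 := (h01 x).1
    calc 2 * ζ x * ‖gr ζ x‖ ≤ 2 * 1 * C₁ := by gcongr
      _ ≤ _ := by linarith
  set D : ℝ := ∫ x, ‖gr ζ x‖ ^ 2 with hD
  have hD0 : 0 ≤ D := integral_nonneg fun x => by positivity
  set v : ℝ := (volume K).toReal with hv
  have hv0 : 0 ≤ v := ENNReal.toReal_nonneg
  refine ⟨2 * (3 + v) + 16 * D, by positivity, ?_⟩
  intro w W N hH hw
  have hW : MemLp W 2 := hH.h1.memG
  have hN : ∀ i, MemLp (N i) 2 := fun i => (hH.h2 i).memG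
  set a : ℝ := √(∫ x, ζ x ^ 4 * ∑ i, ‖N i x‖ ^ 2) with ha
  have ha0 : 0 ≤ a := Real.sqrt_nonneg _
  set b : ℝ := ∫ x, ζ x ^ 2 * ‖W x‖ ^ 2 with hb
  -- integrability
  have i1 : Integrable (fun x => ζ x ^ 2 * ‖W x‖ ^ 2) := by
    refine (int_sq W hW).bdd_mul (c := 1 + 2 * C₁) (hz2.continuous.aestronglyMeasurable)
      (Eventually.of_forall fun x => ?_)
    rw [Real.norm_eq_abs]
    exact hb1 x
  have i2 : Integrable (fun x => ζ x ^ 4 * ∑ i, ‖N i x‖ ^ 2) := by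
    refine (integrable_finsetSum _ fun i _ => int_sq (N i) (hN i)).bdd_mul (c := 1)
      ((hζc.pow 4).aestronglyMeasurable) (Eventually.of_forall fun x => ?_)
    rw [Real.norm_eq_abs, abs_of_nonneg (by positivity)]
    exact pow_le_one₀ (h01 x).1 (h01 x).2
  have i3 : Integrable (fun x => K.indicator (fun _ => (1 : ℝ)) x) := by
    rw [integrable_indicator_iff hKm]
    exact integrableOn_const hKf
  have i4 : Integrable (fun x => ‖gr ζ x‖ ^ 2) := int_sq _ (gr_memLp ζ hζ1 hζ.cpt)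
  have e2 : ∫ x, ζ x ^ 4 * ∑ i, ‖N i x‖ ^ 2 = a ^ 2 := by
    rw [ha, Real.sq_sqrt]
    exact integral_nonneg fun x => by positivity
  have e3 : ∫ x, K.indicator (fun _ => (1 : ℝ)) x = v := by
    rw [integral_indicator hKm]
    simp [hv, Measure.real]
  -- integration by parts
  set F : Fin 3 → E3 → E3 := fun i x => ζ x ^ 2 • N i x + W x i • gr (fun x => ζ x ^ 2) x with hF
  have hHF : ∀ i, H1 (fun x => ζ x ^ 2 * W x i) (F i) := fun i =>
    h2.mul _ _ _ _ (hH.h2 i) hz2 hb1 hb2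
  have hibp : ∀ i, ∫ x, ζ x ^ 2 * W x i * W x i = -∫ x, F i x i * w x := fun i =>
    h2.ibp _ _ _ _ (hHF i) hH.h1 i
  have j1 : ∀ i, Integrable (fun x => ζ x ^ 2 * W x i * W x i) := fun i =>
    int_mul _ _ (hHF i).memf (memLp_comp W hW i)
  have j2 : ∀ i, Integrable (fun x => F i x i * w x) := fun i =>
    int_mul _ _ (memLp_comp (F i) (hHF i).memG i) hH.h1.memf
  have hbe : b = ∫ x, -∑ i, F i x i * w x := by
    rw [integral_neg, integral_finsetSum _ fun i _ => j2 i, ← Finset.sum_neg_distrib]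
    rw [← Finset.sum_congr rfl fun i _ => hibp i, ← integral_finsetSum _ fun i _ => j1 i, hb]
    congr 1
    ext x
    rw [norm_sq_eq, Finset.mul_sum]
    exact Finset.sum_congr rfl fun i _ => by ring
  set s : ℝ := (1 + a)⁻¹ with hs
  have hs0 : 0 < s := by positivity
  have hmain : b ≤ ∫ x, (3 * s * (ζ x ^ 4 * ∑ i, ‖N i x‖ ^ 2)
      + s⁻¹ * K.indicator (fun _ => (1 : ℝ)) x
      + (1 / 2 * (ζ x ^ 2 * ‖W x‖ ^ 2) + 8 * ‖gr ζ x‖ ^ 2)) := by
    rw [hbe]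
    refine integral_mono_ae (integrable_finsetSum _ fun i _ => j2 i).neg
      (((i2.const_mul _).add (i3.const_mul _)).add ((i1.const_mul _).add (i4.const_mul _))) ?_
    filter_upwards [hw] with x hx
    have := pw (z := ζ x) (w := w x) (s := s) (k := K.indicator (fun _ => (1 : ℝ)) x) (W x)
      (gr ζ x) (fun i => N i x) hs0 (h01 x).1 hx (fun h => by
        rw [Set.indicator_of_mem (subset_tsupport _ h)])
      (Set.indicator_nonneg (fun _ _ => zero_le_one) _)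
    simpa only [hF, hg2] using this
  have hval : ∫ x, (3 * s * (ζ x ^ 4 * ∑ i, ‖N i x‖ ^ 2)
      + s⁻¹ * K.indicator (fun _ => (1 : ℝ)) x
      + (1 / 2 * (ζ x ^ 2 * ‖W x‖ ^ 2) + 8 * ‖gr ζ x‖ ^ 2))
      = 3 * s * a ^ 2 + s⁻¹ * v + (1 / 2 * b + 8 * D) := by
    have k2 : Integrable (fun x => 3 * s * (ζ x ^ 4 * ∑ i, ‖N i x‖ ^ 2)) := i2.const_mul _
    have k3 : Integrable (fun x => s⁻¹ * K.indicator (fun _ => (1 : ℝ)) x) := i3.const_mul _
    have k1 : Integrable (fun x => 1 / 2 * (ζ x ^ 2 * ‖W x‖ ^ 2)) := i1.const_mul _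
    have k4 : Integrable (fun x => 8 * ‖gr ζ x‖ ^ 2) := i4.const_mul _
    have k23 : Integrable (fun x => 3 * s * (ζ x ^ 4 * ∑ i, ‖N i x‖ ^ 2)
      + s⁻¹ * K.indicator (fun _ => (1 : ℝ)) x) := k2.add k3
    have k14 : Integrable (fun x => 1 / 2 * (ζ x ^ 2 * ‖W x‖ ^ 2) + 8 * ‖gr ζ x‖ ^ 2) :=
      k1.add k4
    rw [integral_add k23 k14, integral_add k2 k3, integral_add k1 k4, integral_const_mul,
      integral_const_mul, integral_const_mul, integral_const_mul, e2, e3]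
  rw [hval] at hmain
  have hsa : 3 * s * a ^ 2 ≤ 3 * (1 + a) := by
    have h5 : s * a ^ 2 ≤ 1 + a := by
      rw [hs, inv_mul_le_iff₀ (by positivity)]
      nlinarith
    linarith
  have hsi : s⁻¹ * v = (1 + a) * v := by rw [hs, inv_inv]
  rw [hsi] at hmain
  have h6 : 0 ≤ D * a := mul_nonneg hD0 ha0
  nlinarith

end Pool.Agent.PFlow.PB


end

section

/-!
# XCML: comparison for the limit, up to the boundary
-/

open MeasureTheory Filter Topology Set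
open scoped ContDiff RealInnerProductSpace

namespace Pool.Agent.PFlow.PB

open Pool.Agent.PenroseSph Pool.Agent.PFlow

namespace PXCmL

/-- An inequality which holds almost everywhere on an open set holds everywhere on it. -/
lemma ae_open {U : Set E3} (hU : IsOpen U) {k : E3 → ℝ} (hk : ContinuousOn k U)
    (h : ∀ᵐ x : E3, x ∈ U → k x ≤ 0) : ∀ x ∈ U, k x ≤ 0 := by
  intro x hx
  by_contra hc
  push Not at hc
  have h1 : {y | 0 < k y} ∈ 𝓝 x :=
    (hk.continuousAt (hU.mem_nhds hx)).eventually_const_lt hc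
  have h2 : {y | 0 < k y} ∩ U ∈ 𝓝 x := inter_mem h1 (hU.mem_nhds hx)
  obtain ⟨W, hW1, hW2, hW3⟩ := mem_nhds_iff.mp h2
  have h3 : (volume : Measure E3) W = 0 := by
    refine measure_mono_null (fun y hy => ?_) (ae_iff.mp h)
    intro hcon
    have h4 := hW1 hy
    have h5 := hcon h4.2
    have h6 : 0 < k y := h4.1
    linarith
  exact (hW2.measure_pos volume ⟨x, hW3⟩).ne' h3

/-- From the open set `1 < |x| < b` to `|x| = 1`. -/
lemma closure_one {b : ℝ} (hb : 1 < b) {k : E3 → ℝ}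
    (hk : ∀ x : E3, 1 ≤ ‖x‖ → ‖x‖ < b → ContinuousAt k x)
    (h : ∀ x : E3, 1 < ‖x‖ → ‖x‖ < b → k x ≤ 0) : ∀ x : E3, 1 ≤ ‖x‖ → ‖x‖ < b → k x ≤ 0 := by
  intro x hx1 hx2
  rcases hx1.lt_or_eq with h1 | h1
  · exact h x h1 hx2
  · have hc : Tendsto (fun t : ℝ => k (t • x)) (𝓝[>] 1) (𝓝 (k x)) := by
      have e1 : Tendsto (fun t : ℝ => t • x) (𝓝[>] 1) (𝓝 x) := by
        have e2 : Tendsto (fun t : ℝ => t • x) (𝓝 1) (𝓝 ((1 : ℝ) • x)) :=
          (continuous_id.smul continuous_const).tendsto 1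
        rw [one_smul] at e2
        exact e2.mono_left nhdsWithin_le_nhds
      exact (hk x hx1 hx2).tendsto.comp e1
    refine le_of_tendsto hc ?_
    have e3 : ∀ᶠ t : ℝ in 𝓝[>] 1, t < b := by
      exact nhdsWithin_le_nhds (Iio_mem_nhds hb)
    have e4 : ∀ᶠ t : ℝ in 𝓝[>] 1, 1 < t := self_mem_nhdsWithin
    filter_upwards [e3, e4] with t h3 h4
    have e5 : ‖t • x‖ = t := by
      rw [norm_smul, ← h1, mul_one, Real.norm_of_nonneg (by linarith)]
    exact h _ (by rw [e5]; exact h4) (by rw [e5]; exact h3)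

lemma compS (b : ℝ) : IsCompact {x : E3 | 1 ≤ ‖x‖ ∧ ‖x‖ ≤ b} := by
  have h1 : IsClosed {x : E3 | 1 ≤ ‖x‖ ∧ ‖x‖ ≤ b} :=
    (isClosed_le continuous_const continuous_norm).inter
      (isClosed_le continuous_norm continuous_const)
  refine (isCompact_closedBall (0 : E3) b).of_isClosed_subset h1 (fun x hx => ?_)
  rw [Metric.mem_closedBall, dist_zero_right]
  exact hx.2

lemma key (hb : BRID) (hc : XCMP) {ε R : ℝ} {g h : TensorField} {w₀ : E3 → ℝ} {δ κ : ℕ → ℝ}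
    {u : ℕ → E3 → ℝ} {G : ℕ → E3 → E3} {v : ℕ → E3 → ℝ} {V : ℕ → E3 → E3}
    {M : ℕ → Fin 3 → E3 → E3} {C : ℝ} {w : E3 → ℝ} {F : E3 → E3} {N : Fin 3 → E3 → E3}
    (H : LimX ε R g h w₀ δ κ u G v V M C w F N) (s : ℝ) (hs1 : s = 1 ∨ s = -1)
    (f : E3 → ℝ) (hf : ∀ x : E3, 1 ≤ ‖x‖ → ‖x‖ ≤ 2 * R → ContDiffAt ℝ 2 f x)
    (σ δ₀ : ℝ) (hσ : 0 < σ) (hδ₀ : 0 < δ₀)
    (hop : ∀ δ κ : ℝ, 0 < δ → δ ≤ δ₀ → 0 < κ → κ ≤ δ₀ → ∀ x : E3, 1 ≤ ‖x‖ → ‖x‖ ≤ 2 * R →
      σ ≤ s * (opL ε δ κ g x (grad f x) (hess2 f x) + cB ε δ g h x (vec (grad f x))))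
    (h1 : ∀ x : E3, ‖x‖ = 1 → s * (f x - 1) ≤ 0) (h2 : ∀ x : E3, ‖x‖ = 2 * R → s * f x ≤ 0) :
    ∀ x : E3, 1 ≤ ‖x‖ → ‖x‖ < R → s * (f x - w x) ≤ 0 := by
  have hR8 := H.hR
  have hR0 : 0 < R / 2 := by linarith
  have e1 : ∀ᶠ n in atTop, δ n < δ₀ := H.δ_tend.eventually_lt_const hδ₀
  have e2 : ∀ᶠ n in atTop, κ n < δ₀ := H.κ_tend.eventually_lt_const hδ₀
  have hstep : ∀ n, δ n < δ₀ → κ n < δ₀ →
      ∀ᵐ x : E3, 1 ≤ ‖x‖ → ‖x‖ < R → s * (f x - v n x) ≤ 0 := by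
    intro n hn1 hn2
    obtain ⟨c, L, hP⟩ := hb.coef ε (δ n) (κ n) g h (R / 2) H.eps_pos H.eps_lt (H.δ_pos n)
      (H.κ_pos n) hR0 H.data
    have m1 := hc _ _ c L (R / 2) hP (2 * R) w₀ (by linarith) H.test H.w₀_in H.w₀_out
      (u n) (G n) (H.sol n) (H.bdd n) s hs1 f hf σ hσ ?_ h1 h2
    · filter_upwards [m1, H.out n] with x k1 k2 k3 k4
      rw [k2 k3 (by linarith)]
      exact k1 k3 (by linarith)
    · intro y hy1 hy2
      obtain ⟨j1, j2⟩ := hb.jet f y (hf y hy1 hy2)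
      rw [hb.op ε (δ n) (κ n) g h (R / 2) H.eps_pos H.eps_lt (H.δ_pos n) (H.κ_pos n) H.data,
        j1, j2]
      have h5 := hop (δ n) (κ n) (H.δ_pos n) hn1.le (H.κ_pos n) hn2.le y hy1 hy2
      have h7 : (vec (grad f y)).ofLp = grad f y := rfl
      rw [h7]
      exact h5
  have hlim : ∀ x : E3, Tendsto (fun n => v n x) atTop (𝓝 (w x)) := fun x =>
    (H.unif {x} isCompact_singleton).tendsto_at (mem_singleton x)
  have hae : ∀ᵐ x : E3, ∀ n, δ n < δ₀ → κ n < δ₀ → 1 ≤ ‖x‖ → ‖x‖ < R →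
      s * (f x - v n x) ≤ 0 := by
    rw [ae_all_iff]
    intro n
    by_cases k1 : δ n < δ₀
    · by_cases k2 : κ n < δ₀
      · filter_upwards [hstep n k1 k2] with x hx _ _ k3 k4
        exact hx k3 k4
      · exact Eventually.of_forall fun x _ k => absurd k k2
    · exact Eventually.of_forall fun x k => absurd k k1
  have hae2 : ∀ᵐ x : E3, 1 ≤ ‖x‖ → ‖x‖ < R → s * (f x - w x) ≤ 0 := by
    filter_upwards [hae] with x hx k3 k4
    have t1 : Tendsto (fun n => s * (f x - v n x)) atTop (𝓝 (s * (f x - w x))) :=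
      (tendsto_const_nhds.sub (hlim x)).const_mul s
    refine le_of_tendsto t1 ?_
    filter_upwards [e1, e2] with n k1 k2
    exact hx n k1 k2 k3 k4
  have hcont : ∀ x : E3, 1 ≤ ‖x‖ → ‖x‖ < R → ContinuousAt (fun x => s * (f x - w x)) x := by
    intro x k1 k2
    exact continuousAt_const.mul
      (((hf x k1 (by linarith)).continuousAt).sub H.contw.continuousAt)
  have hopen : IsOpen {x : E3 | 1 < ‖x‖ ∧ ‖x‖ < R} :=
    (isOpen_lt continuous_const continuous_norm).inter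
      (isOpen_lt continuous_norm continuous_const)
  refine closure_one (by linarith : (1 : ℝ) < R) hcont ?_
  intro x k1 k2
  refine ae_open hopen (fun y hy => (hcont y hy.1.le hy.2).continuousWithinAt) ?_ x ⟨k1, k2⟩
  filter_upwards [hae2] with y hy hy2
  exact hy hy2.1.le hy2.2

end PXCmL

open PXCmL in
/-- XCML: comparison for the limit, up to the boundary. -/
theorem xcml_thm (hb : BRID) (hc : XCMP) (hk : KPOS) : XCML := by
  intro ε R g h w₀ δ κ u G v V M C w F N H f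
  constructor
  · intro hpos h1 h2 x hx1 hx2
    obtain ⟨σ, δ₀, hσ, hδ₀, hop⟩ :=
      (hk ε g h (R / 2) H.eps_pos H.eps_lt H.data {x : E3 | 1 ≤ ‖x‖ ∧ ‖x‖ ≤ 2 * R} f
        (compS (2 * R)) (fun y hy => (hpos y hy.1 hy.2).1)).1
        (fun y hy => (hpos y hy.1 hy.2).2)
    have main := key hb hc H 1 (Or.inl rfl) f (fun y k1 k2 => (hpos y k1 k2).1) σ δ₀ hσ hδ₀
      ?_ ?_ ?_ x hx1 hx2
    · linarith
    · intro δ' κ' k1 k2 k3 k4 y l1 l2
      rw [one_mul]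
      exact hop δ' κ' k1 k2 k3 k4 y ⟨l1, l2⟩
    · intro y hy
      have := h1 y hy
      linarith
    · intro y hy
      have := h2 y hy
      linarith
  · intro hneg h1 h2 x hx1 hx2
    obtain ⟨σ, δ₀, hσ, hδ₀, hop⟩ :=
      (hk ε g h (R / 2) H.eps_pos H.eps_lt H.data {x : E3 | 1 ≤ ‖x‖ ∧ ‖x‖ ≤ 2 * R} f
        (compS (2 * R)) (fun y hy => (hneg y hy.1 hy.2).1)).2
        (fun y hy => (hneg y hy.1 hy.2).2)
    have main := key hb hc H (-1) (Or.inr rfl) f (fun y k1 k2 => (hneg y k1 k2).1) σ δ₀ hσ hδ₀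
      ?_ ?_ ?_ x hx1 hx2
    · linarith
    · intro δ' κ' k1 k2 k3 k4 y l1 l2
      have := hop δ' κ' k1 k2 k3 k4 y ⟨l1, l2⟩
      linarith
    · intro y hy
      have := h1 y hy
      linarith
    · intro y hy
      have := h2 y hy
      linarith

end Pool.Agent.PFlow.PB


end

section

/-!
# Module XCOV: change of variables for the inversion
-/

set_option autoImplicit false

open MeasureTheory Filter Topology Set
open scoped ContDiff RealInnerProductSpace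

namespace Pool.Agent.PFlow.PB

open Pool.Agent.PenroseSph Pool.Agent.PFlow

namespace XCovAux

theorem isOpen_Ann (a b : ℝ) : IsOpen (Ann a b) :=
  (isOpen_lt continuous_const continuous_norm).inter (isOpen_lt continuous_norm continuous_const)

theorem measurableSet_Ann (a b : ℝ) : MeasurableSet (Ann a b) := (isOpen_Ann a b).measurableSet

theorem Ann_sub {a b : ℝ} (ha : 0 < a) : Ann a b ⊆ ({0}ᶜ : Set E3) := by
  intro x hx h0
  have h1 : x = 0 := h0
  subst h1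
  have h2 : a < ‖(0 : E3)‖ := hx.1
  rw [norm_zero] at h2
  linarith

theorem mapsTo {a b : ℝ} (ha : 0 < a) (hab : a < b) {x : E3} (hx : x ∈ Ann a b) :
    inversion x ∈ Ann b⁻¹ a⁻¹ := by
  have h0 : x ≠ 0 := Ann_sub ha hx
  have hn := HSM2.norm_inversion x h0
  have h1 : a < ‖x‖ := hx.1
  have h2 : ‖x‖ < b := hx.2
  refine ⟨?_, ?_⟩
  · show b⁻¹ < ‖inversion x‖
    rw [hn]
    exact (inv_lt_inv₀ (ha.trans hab) (ha.trans h1)).2 h2
  · show ‖inversion x‖ < a⁻¹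
    rw [hn]
    exact (inv_lt_inv₀ (ha.trans h1) ha).2 h1

theorem image {a b : ℝ} (ha : 0 < a) (hab : a < b) : inversion '' (Ann a b) = Ann b⁻¹ a⁻¹ := by
  have hb : 0 < b := ha.trans hab
  ext y
  constructor
  · rintro ⟨x, hx, rfl⟩
    exact mapsTo ha hab hx
  · intro hy
    have h1 := mapsTo (a := b⁻¹) (b := a⁻¹) (inv_pos.2 hb) ((inv_lt_inv₀ hb ha).2 hab) hy
    rw [inv_inv, inv_inv] at h1
    exact ⟨inversion y, h1, HSM2.inversion_inversion y (Ann_sub (inv_pos.2 hb) hy)⟩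

theorem null (P : E3 → Prop) (h : ∀ᵐ x, P x) : ∀ᵐ x, P (inversion x) := LEYaux.qmp.ae h

/-- A function which vanishes outside the annulus is carried to a function which vanishes outside
the inverted annulus. -/
theorem off {a b : ℝ} (ha : 0 < a) (hab : a < b) {P : E3 → Prop}
    (h : ∀ᵐ x, x ∉ Ann a b → P x) : ∀ᵐ x, x ∉ Ann b⁻¹ a⁻¹ → P (inversion x) := by
  filter_upwards [null _ h] with x hx hx'
  exact hx fun hc => hx' (by
    have h0 : x ≠ 0 := by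
      rintro rfl
      rw [LEYaux.inversion_zero] at hc
      exact Ann_sub ha hc rfl
    have h1 := mapsTo ha hab hc
    rwa [HSM2.inversion_inversion x h0] at h1)

theorem int {a b : ℝ} (ha : 0 < a) (k : E3 → ℝ) (hab : a < b)
    (hk : IntegrableOn k (Ann b⁻¹ a⁻¹)) :
    IntegrableOn (fun x => (‖x‖ ^ 6)⁻¹ * k (inversion x)) (Ann a b) ∧
    ∫ x in Ann a b, (‖x‖ ^ 6)⁻¹ * k (inversion x) = ∫ x in Ann b⁻¹ a⁻¹, k x := by
  have hm := measurableSet_Ann a b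
  have hK := Ann_sub (b := b) ha
  constructor
  · rw [← image ha hab] at hk
    refine ((LEYaux.integrableOn_image hm hK k).1 hk).congr_fun (fun x hx => ?_) hm
    show |(inversionJac x).det| * k (inversion x) = _
    rw [LEYaux.abs_det (hK hx)]
  · rw [← image ha hab, LEYaux.integral_image hm hK]
    refine setIntegral_congr_fun hm (fun x hx => ?_)
    show _ = |(inversionJac x).det| * k (inversion x)
    rw [LEYaux.abs_det (hK hx)]

/-- Composition of nonnegative integrable functions. -/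
theorem comp {a b : ℝ} (ha : 0 < a) (hab : a < b) {F : E3 → ℝ} (hF0 : ∀ x, 0 ≤ F x)
    (hF : Integrable F) (hz : ∀ᵐ x, x ∉ Ann a b → F x = 0) :
    Integrable (fun x => F (inversion x)) ∧ ∫ x, F (inversion x) ≤ (a ^ 6)⁻¹ * ∫ x, F x := by
  have hb : 0 < b := ha.trans hab
  have hba : b⁻¹ < a⁻¹ := (inv_lt_inv₀ hb ha).2 hab
  have hbi : 0 < b⁻¹ := inv_pos.2 hb
  have hm := measurableSet_Ann b⁻¹ a⁻¹
  have h1 := int hbi F hba (by rw [inv_inv, inv_inv]; exact hF.integrableOn)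
  rw [inv_inv, inv_inv] at h1
  have hoff : ∀ᵐ x, x ∉ Ann b⁻¹ a⁻¹ → F (inversion x) = 0 := off ha hab (P := fun x => F x = 0) hz
  have hmeas : AEStronglyMeasurable (fun x => F (inversion x)) volume :=
    hF.1.comp_quasiMeasurePreserving LEYaux.qmp
  have hle : ∀ x ∈ Ann b⁻¹ a⁻¹, F (inversion x) ≤ (a ^ 6)⁻¹ * ((‖x‖ ^ 6)⁻¹ * F (inversion x)) := by
    intro x hx
    have h3 : 0 < ‖x‖ := hbi.trans hx.1
    have h4 : ‖x‖ ^ 6 ≤ (a ^ 6)⁻¹ := by
      rw [← inv_pow]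
      exact pow_le_pow_left₀ h3.le hx.2.le 6
    have h5 : 1 ≤ (a ^ 6)⁻¹ * (‖x‖ ^ 6)⁻¹ := by
      rw [← div_eq_mul_inv, one_le_div (by positivity)]
      exact h4
    have h6 := hF0 (inversion x)
    nlinarith
  have hi : IntegrableOn (fun x => F (inversion x)) (Ann b⁻¹ a⁻¹) := by
    refine Integrable.mono' (h1.1.const_mul (a ^ 6)⁻¹) hmeas.restrict ?_
    filter_upwards [ae_restrict_mem hm] with x hx
    rw [Real.norm_of_nonneg (hF0 _)]
    exact hle x hx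
  refine ⟨hi.integrable_of_ae_notMem_eq_zero hoff, ?_⟩
  rw [← setIntegral_eq_integral_of_ae_compl_eq_zero hoff]
  calc ∫ x in Ann b⁻¹ a⁻¹, F (inversion x)
      ≤ ∫ x in Ann b⁻¹ a⁻¹, (a ^ 6)⁻¹ * ((‖x‖ ^ 6)⁻¹ * F (inversion x)) :=
        setIntegral_mono_on hi (h1.1.const_mul _) hm hle
    _ = (a ^ 6)⁻¹ * ∫ x in Ann a b, F x := by rw [integral_const_mul, h1.2]
    _ = (a ^ 6)⁻¹ * ∫ x, F x := by rw [setIntegral_eq_integral_of_ae_compl_eq_zero hz]

/-- The norm of the transposed Jacobian. -/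
theorem norm_JT {x : E3} (hx : x ≠ 0) (ξ : E3) : ‖JT x ξ‖ ^ 2 = (‖x‖ ^ 4)⁻¹ * ‖ξ‖ ^ 2 := by
  have hn : ‖x‖ ≠ 0 := norm_ne_zero_iff.mpr hx
  have hs : ‖x‖ ^ 2 = x 0 ^ 2 + x 1 ^ 2 + x 2 ^ 2 := by
    rw [EuclideanSpace.norm_sq_eq]
    simp [Fin.sum_univ_three]
  have hs0 : x 0 ^ 2 + x 1 ^ 2 + x 2 ^ 2 ≠ 0 := by
    rw [← hs]
    positivity
  have h4 : ‖x‖ ^ 4 = (x 0 ^ 2 + x 1 ^ 2 + x 2 ^ 2) ^ 2 := by
    rw [← hs]
    ring
  rw [h4, EuclideanSpace.norm_sq_eq, EuclideanSpace.norm_sq_eq]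
  simp only [JT, vec, inversionJac, Matrix.of_apply, Fin.sum_univ_three, Real.norm_eq_abs, sq_abs,
    hs]
  simp
  field_simp
  ring

theorem measurable_coord (i : Fin 3) : Measurable fun x : E3 => x i :=
  (EuclideanSpace.proj i : E3 →L[ℝ] ℝ).continuous.measurable

theorem measurable_jac (a i : Fin 3) : Measurable fun x : E3 => inversionJac x a i := by
  unfold inversionJac
  simp only [Matrix.of_apply]
  exact ((measurable_const.sub (((measurable_const.mul (measurable_coord a)).mul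
    (measurable_coord i)).div (measurable_norm.pow_const 2))).div (measurable_norm.pow_const 2))

theorem aesm_JT {F : E3 → E3} (hF : AEStronglyMeasurable F volume) :
    AEStronglyMeasurable (fun x => JT x (F (inversion x))) volume := by
  have h1 : AEStronglyMeasurable (fun x => F (inversion x)) volume :=
    hF.comp_quasiMeasurePreserving LEYaux.qmp
  have h2 : ∀ a : Fin 3, AEMeasurable (fun x => F (inversion x) a) volume := fun a =>
    (measurable_coord a).comp_aemeasurable h1.aemeasurable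
  have h3 : AEMeasurable (fun x => (fun i => ∑ a, inversionJac x a i * F (inversion x) a :
      Fin 3 → ℝ)) volume := by
    refine aemeasurable_pi_lambda _ fun i => ?_
    exact Finset.aemeasurable_fun_sum _ fun a _ => (measurable_jac a i).aemeasurable.mul (h2 a)
  exact ((WithLp.measurable_toLp 2 (Fin 3 → ℝ)).comp_aemeasurable h3).aestronglyMeasurable

end XCovAux

open XCovAux in
theorem xcov_thm : XCOV where
  null := XCovAux.null
  int := fun a b ha hab k hk => XCovAux.int ha k hab hk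
  mem := by
    intro a b ha hab
    have hb : 0 < b := ha.trans hab
    have hbi : 0 < b⁻¹ := inv_pos.2 hb
    refine ⟨(1 + b ^ 4) * (a ^ 6)⁻¹, by positivity, ?_, ?_⟩
    · intro f hf hz
      have hsq := (memLp_two_iff_integrable_sq hf.1).1 hf
      have hz2 : ∀ᵐ x, x ∉ Ann a b → f x ^ 2 = 0 := by
        filter_upwards [hz] with x hx hx'
        rw [hx hx']
        norm_num
      obtain ⟨h1, h2⟩ := comp ha hab (fun x => sq_nonneg (f x)) hsq hz2
      refine ⟨(memLp_two_iff_integrable_sq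
        (hf.1.comp_quasiMeasurePreserving LEYaux.qmp)).2 h1, ?_⟩
      have h3 : 0 ≤ (a ^ 6)⁻¹ * ∫ x, f x ^ 2 :=
        mul_nonneg (by positivity) (integral_nonneg fun x => sq_nonneg _)
      have h4 : 0 ≤ b ^ 4 * ((a ^ 6)⁻¹ * ∫ x, f x ^ 2) := mul_nonneg (by positivity) h3
      show ∫ x, f (inversion x) ^ 2 ≤ (1 + b ^ 4) * (a ^ 6)⁻¹ * ∫ x, f x ^ 2
      refine h2.trans ?_
      nlinarith
    · intro F hF hz
      have hsq := (memLp_two_iff_integrable_sq_norm hF.1).1 hF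
      have hz2 : ∀ᵐ x, x ∉ Ann a b → ‖F x‖ ^ 2 = 0 := by
        filter_upwards [hz] with x hx hx'
        rw [hx hx', norm_zero]
        norm_num
      obtain ⟨h1, h2⟩ := comp ha hab (fun x => sq_nonneg ‖F x‖) hsq hz2
      have hoff := off ha hab (P := fun x => ‖F x‖ ^ 2 = 0) hz2
      have hle : ∀ᵐ x, ‖JT x (F (inversion x))‖ ^ 2 ≤ b ^ 4 * ‖F (inversion x)‖ ^ 2 := by
        have hne : ∀ᵐ x : E3, x ≠ 0 := by
          rw [ae_iff]
          simp
        filter_upwards [hoff, hne] with x hx hx0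
        rw [norm_JT hx0]
        by_cases hA : x ∈ Ann b⁻¹ a⁻¹
        · have h3 : b⁻¹ < ‖x‖ := hA.1
          have h4 : (‖x‖ ^ 4)⁻¹ ≤ b ^ 4 := by
            rw [← inv_pow]
            refine pow_le_pow_left₀ (by positivity) ?_ 4
            rw [inv_le_comm₀ (hbi.trans h3) hb]
            exact h3.le
          exact mul_le_mul_of_nonneg_right h4 (by positivity)
        · rw [hx hA]
          simp
      have hm := aesm_JT hF.1
      have hi : Integrable (fun x => ‖JT x (F (inversion x))‖ ^ 2) := by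
        refine Integrable.mono' (h1.const_mul (b ^ 4)) (hm.norm.pow 2) ?_
        filter_upwards [hle] with x hx
        rw [Real.norm_of_nonneg (by positivity)]
        exact hx
      refine ⟨(memLp_two_iff_integrable_sq_norm hm).2 hi, ?_⟩
      have h3 : ∫ x, ‖JT x (F (inversion x))‖ ^ 2 ≤ b ^ 4 * ∫ x, ‖F (inversion x)‖ ^ 2 := by
        rw [← integral_const_mul]
        exact integral_mono_ae hi (h1.const_mul _) hle
      have h4 : b ^ 4 * ∫ x, ‖F (inversion x)‖ ^ 2 ≤ b ^ 4 * ((a ^ 6)⁻¹ * ∫ x, ‖F x‖ ^ 2) :=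
        mul_le_mul_of_nonneg_left h2 (by positivity)
      have h5 : 0 ≤ (a ^ 6)⁻¹ * ∫ x, ‖F x‖ ^ 2 :=
        mul_nonneg (by positivity) (integral_nonneg fun x => sq_nonneg _)
      show ∫ x, ‖JT x (F (inversion x))‖ ^ 2 ≤ (1 + b ^ 4) * (a ^ 6)⁻¹ * ∫ x, ‖F x‖ ^ 2
      nlinarith

end Pool.Agent.PFlow.PB


end

section

/-!
# Block PX: the flux identity of the limit (module XFLX)
-/

open MeasureTheory Filter Topology Set
open scoped ContDiff RealInnerProductSpace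

namespace Pool.Agent.PFlow.PB

open Pool.Agent.PenroseSph Pool.Agent.PFlow

namespace PXFlx

lemma rpow_le {ε t : ℝ} (h0 : 0 < ε) (h1 : ε < 1) (ht : 0 ≤ t) : t ^ ε ≤ 1 + t := by
  rcases le_total t 1 with h | h
  · exact (Real.rpow_le_one ht h h0.le).trans (by linarith)
  · calc t ^ ε ≤ t ^ (1 : ℝ) := Real.rpow_le_rpow_of_exponent_le h h1.le
      _ = t := Real.rpow_one t
      _ ≤ 1 + t := by linarith

lemma inner_cA0 (ht : KTN) {g : TensorField} {x : E3} (hx : (g x).PosDef) (ε : ℝ) (ξ : E3)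
    (χ : E3 → ℝ) : ⟪cA0 ε g x ξ, gr χ x⟫ =
      len g x ξ ^ (ε - 1) * ev (g x)⁻¹ ξ (grad χ x) * volDen g x := by
  obtain ⟨-, -, -, h1, -⟩ := ht g x hx ξ
  rw [← h1 (grad χ x), PiLp.inner_apply]
  simp only [cA0, gr, grad, RCLike.inner_apply, conj_trivial]
  rw [Finset.mul_sum, Finset.sum_mul]
  refine Finset.sum_congr rfl fun i _ => ?_
  ring

/-- The annulus of the flux identity is contained in the annulus of the equation. -/
lemma ann_sub {R : ℝ} (hR : 8 ≤ R) : Ann (1 / 2) R ⊆ Ann (2 / 5) (3 * R / 2) := by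
  intro x hx
  have h1 : 1 / 2 < ‖x‖ := hx.1
  have h2 : ‖x‖ < R := hx.2
  exact ⟨by linarith, by linarith⟩

end PXFlx

/-- XFLX: the flux identity of the limit. -/
theorem xflx_thm (_h1 : API1) (h2 : API2) (hl : LIMW) (hk : KLIM) (hm : KSMO) (ht : KTN) :
    XFLX := by
  intro ε R g h w₀ δ κ u G v V M C w F N L χ hχ hχc hχs
  obtain ⟨⟨C₁, hC₁, hgr⟩, hconv⟩ := hk ε g h (R / 2) L.eps_pos L.eps_lt L.data
  have hsm := fun n => hm ε (δ n) (κ n) g h (R / 2) L.eps_pos L.eps_lt (L.δ_pos n) (L.κ_pos n)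
    L.data
  have hH1 : H1 χ (gr χ) := h2.ofC1 χ hχ hχc
  have key := hl V F (fun n => cA ε (δ n) (κ n) g) (fun n => cB ε (δ n) g h) (cA0 ε g)
    (cB0 ε g h) (2 * C₁) (fun n => (L.h2 n).h1.memG) L.h2w.h1.memG L.strong L.ae
    (fun n => (hsm n).1.continuous.measurable) (fun n => (hsm n).2.1.continuous.measurable)
    ?_ ?_ ?_ χ hχ hχc ?_
  · have e1 : ∀ x, ⟪cA0 ε g x (F x), gr χ x⟫ =
        len g x (F x) ^ (ε - 1) * ev (g x)⁻¹ (F x) (grad χ x) * volDen g x := fun x =>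
      PXFlx.inner_cA0 ht (L.data.met.posDef x (Set.mem_univ x)) ε (F x) χ
    have e2 : ∀ x, cB0 ε g h x (F x) * χ x =
        len g x (F x) ^ ε * beps ε g x (F x) (h x) * χ x * volDen g x := fun x => by
      unfold cB0
      ring
    simp only [e1, e2] at key
    exact key
  · intro n x ξ
    have h3 := (hgr (δ n) (κ n) (L.δ_pos n) (L.δ_le n) (L.κ_pos n) (L.κ_le n) x ξ).1
    refine h3.trans ?_
    have h4 := PXFlx.rpow_le L.eps_pos L.eps_lt (norm_nonneg ξ)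
    have h5 : κ n * ‖ξ‖ ≤ 1 * ‖ξ‖ := mul_le_mul_of_nonneg_right (L.κ_le n) (norm_nonneg ξ)
    calc C₁ * (‖ξ‖ ^ ε + κ n * ‖ξ‖) ≤ C₁ * ((1 + ‖ξ‖) + (1 + ‖ξ‖)) := by
          apply mul_le_mul_of_nonneg_left _ hC₁
          linarith
      _ = _ := by ring
  · intro n x ξ
    have h3 := (hgr (δ n) (κ n) (L.δ_pos n) (L.δ_le n) (L.κ_pos n) (L.κ_le n) x ξ).2
    refine h3.trans ?_
    have h4 := PXFlx.rpow_le L.eps_pos L.eps_lt (norm_nonneg ξ)
    calc C₁ * ‖ξ‖ ^ ε ≤ C₁ * ((1 + ‖ξ‖) + (1 + ‖ξ‖)) := by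
          apply mul_le_mul_of_nonneg_left _ hC₁
          linarith [norm_nonneg ξ]
      _ = _ := by ring
  · intro x ξ p hp
    exact hconv x δ κ p ξ L.δ_pos L.κ_pos L.δ_tend L.κ_tend hp
  · intro n
    exact (L.loc n).2 χ (gr χ) hH1 ⟨tsupport χ, hχc, hχs.trans (PXFlx.ann_sub L.hR),
      Filter.Eventually.of_forall fun x hx => image_eq_zero_of_notMem_tsupport hx⟩

end Pool.Agent.PFlow.PB


end

section

/-!
# The coefficients under the inversion

For data which are symmetric under the inversion, `g(x) = Jᵀ g(y) J` and `h(x) = -Jᵀ h(y) J` with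
`y = x / |x|²` and the Jacobian matrix `J`; the coefficients transform accordingly.
-/

open MeasureTheory Filter Topology Set
open scoped ContDiff RealInnerProductSpace

namespace Pool.Agent.PFlow.PB

open Pool.Agent.PenroseSph Pool.Agent.PFlow

namespace PXInv

theorem ev_dot (B : Bil) (v w : Cov) : ev B v w = v ⬝ᵥ (B.mulVec w) := by
  unfold ev
  simp only [dotProduct, Matrix.mulVec, Finset.mul_sum]
  refine Finset.sum_congr rfl fun i _ => Finset.sum_congr rfl fun j _ => ?_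
  ring

theorem raise_mul (g : TensorField) (x : E3) (p : Cov) : raise g x p = (g x)⁻¹.mulVec p := rfl

theorem trg_trace (g : TensorField) (x : E3) (B : Bil) :
    trg g x B = ((g x)⁻¹ * B.transpose).trace := by
  unfold trg Matrix.trace
  simp only [Matrix.diag_apply, Matrix.mul_apply, Matrix.transpose_apply]

theorem jt_mul (x ξ : E3) :
    (JT x ξ : Cov) = (inversionJac x).transpose.mulVec (ξ : Cov) := by
  unfold JT
  rfl

theorem dot_cancel {J : Bil} (hJ : IsUnit J.det) (v w : Cov) :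
    (J⁻¹.mulVec v) ⬝ᵥ (J.transpose.mulVec w) = v ⬝ᵥ w := by
  rw [Matrix.dotProduct_mulVec, Matrix.vecMul_transpose, Matrix.mulVec_mulVec,
    Matrix.mul_nonsing_inv J hJ, Matrix.one_mulVec]

variable {g h : TensorField} {x : E3}

theorem inv_eq
    (hg : g x = (inversionJac x).transpose * g (inversion x) * inversionJac x) :
    (g x)⁻¹ = (inversionJac x)⁻¹ * (g (inversion x))⁻¹ * ((inversionJac x).transpose)⁻¹ := by
  rw [hg, Matrix.mul_inv_rev, Matrix.mul_inv_rev, Matrix.mul_assoc]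

theorem raise_eq (hJ : IsUnit (inversionJac x).det)
    (hg : g x = (inversionJac x).transpose * g (inversion x) * inversionJac x) (ξ : Cov) :
    raise g x ((inversionJac x).transpose.mulVec ξ) =
      (inversionJac x)⁻¹.mulVec (raise g (inversion x) ξ) := by
  have hJt : IsUnit (inversionJac x).transpose.det := by rwa [Matrix.det_transpose]
  rw [raise_mul, raise_mul, inv_eq hg, Matrix.mulVec_mulVec, Matrix.mulVec_mulVec,
    Matrix.mul_assoc, Matrix.nonsing_inv_mul _ hJt, Matrix.mul_one]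

theorem lsq_eq (hJ : IsUnit (inversionJac x).det)
    (hg : g x = (inversionJac x).transpose * g (inversion x) * inversionJac x) (ξ : Cov) :
    lsq g x ((inversionJac x).transpose.mulVec ξ) = lsq g (inversion x) ξ := by
  unfold lsq
  rw [ev_dot, ev_dot, ← raise_mul, ← raise_mul, raise_eq hJ hg, dotProduct_comm,
    dot_cancel hJ, dotProduct_comm]

theorem ev_cov (hJ : IsUnit (inversionJac x).det)
    (hh : h x = -((inversionJac x).transpose * h (inversion x) * inversionJac x)) (r : Cov) :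
    ev (h x) ((inversionJac x)⁻¹.mulVec r) ((inversionJac x)⁻¹.mulVec r) =
      -ev (h (inversion x)) r r := by
  rw [ev_dot, ev_dot, hh, Matrix.neg_mulVec, dotProduct_neg, Matrix.mulVec_mulVec,
    Matrix.mul_assoc, Matrix.mul_nonsing_inv _ hJ, Matrix.mul_one, ← Matrix.mulVec_mulVec,
    dot_cancel hJ]

theorem trg_cov (hJ : IsUnit (inversionJac x).det)
    (hg : g x = (inversionJac x).transpose * g (inversion x) * inversionJac x)
    (hh : h x = -((inversionJac x).transpose * h (inversion x) * inversionJac x)) :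
    trg g x (h x) = -trg g (inversion x) (h (inversion x)) := by
  have hJt : IsUnit (inversionJac x).transpose.det := by rwa [Matrix.det_transpose]
  have h1 : (g x)⁻¹ * (h x).transpose =
      -((inversionJac x)⁻¹ * ((g (inversion x))⁻¹ * (h (inversion x)).transpose) *
        inversionJac x) := by
    rw [inv_eq hg, hh, Matrix.transpose_neg, Matrix.transpose_mul, Matrix.transpose_mul,
      Matrix.transpose_transpose, Matrix.mul_neg]
    congr 1
    calc (inversionJac x)⁻¹ * (g (inversion x))⁻¹ * ((inversionJac x).transpose)⁻¹ *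
          ((inversionJac x).transpose * ((h (inversion x)).transpose * inversionJac x))
        = (inversionJac x)⁻¹ * (g (inversion x))⁻¹ * (((inversionJac x).transpose)⁻¹ *
          (inversionJac x).transpose) * ((h (inversion x)).transpose * inversionJac x) := by
          simp only [Matrix.mul_assoc]
      _ = _ := by
          rw [Matrix.nonsing_inv_mul _ hJt, Matrix.mul_one]
          simp only [Matrix.mul_assoc]
  rw [trg_trace, trg_trace, h1, Matrix.trace_neg, Matrix.trace_mul_comm, ← Matrix.mul_assoc,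
    Matrix.mul_nonsing_inv _ hJ, Matrix.one_mul]

theorem det_abs (hx : x ≠ 0) : |(inversionJac x).det| = (‖x‖ ^ 6)⁻¹ := by
  have h1 := congrArg Matrix.det (HSM2.jac_sq x hx)
  rw [Matrix.det_mul, Matrix.det_smul, Matrix.det_one, Fintype.card_fin, mul_one] at h1
  have h2 : |(inversionJac x).det| ^ 2 = ((‖x‖ ^ 6)⁻¹) ^ 2 := by
    rw [sq_abs, pow_two, h1]
    ring
  exact (pow_left_inj₀ (abs_nonneg _) (by positivity) (by norm_num)).1 h2

theorem volDen_cov (hx : x ≠ 0)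
    (hg : g x = (inversionJac x).transpose * g (inversion x) * inversionJac x) :
    volDen g x = (‖x‖ ^ 6)⁻¹ * volDen g (inversion x) := by
  unfold volDen
  have h1 : (g x).det = (inversionJac x).det ^ 2 * (g (inversion x)).det := by
    rw [hg, Matrix.det_mul, Matrix.det_mul, Matrix.det_transpose]
    ring
  rw [h1, Real.sqrt_mul (sq_nonneg _), Real.sqrt_sq_eq_abs, det_abs hx]

theorem raise_neg (g : TensorField) (x : E3) (p : Cov) : raise g x (-p) = -raise g x p := by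
  rw [raise_mul, raise_mul, Matrix.mulVec_neg]

theorem lsq_neg (g : TensorField) (x : E3) (p : Cov) : lsq g x (-p) = lsq g x p := by
  unfold lsq
  rw [ev_dot, ev_dot, Matrix.mulVec_neg, neg_dotProduct, dotProduct_neg, neg_neg]

theorem ev_neg_neg (B : Bil) (p : Cov) : ev B (-p) (-p) = ev B p p := by
  rw [ev_dot, ev_dot, Matrix.mulVec_neg, neg_dotProduct, dotProduct_neg, neg_neg]

theorem inner_cov (a b : E3) : ⟪a, b⟫ = (a : Cov) ⬝ᵥ (b : Cov) := by
  rw [PiLp.inner_apply]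
  simp only [dotProduct, RCLike.inner_apply, conj_trivial]
  refine Finset.sum_congr rfl fun i _ => ?_
  ring

end PXInv

open PXInv in
/-- The coefficients under the inversion. -/
theorem xinv_thm : XINV := by
  intro ε δ κ g h r hδ hd hm x hx1 hx2
  have hx0 : x ≠ 0 := by
    intro h0
    rw [h0, norm_zero] at hx1
    norm_num at hx1
  have hJ : IsUnit (inversionJac x).det := HSM2.jac_unit x hx0
  obtain ⟨hg0, hh0⟩ := hm x hx1 hx2
  have hg : g x = (inversionJac x).transpose * g (inversion x) * inversionJac x := hg0.symm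
  have hh : h x = -((inversionJac x).transpose * h (inversion x) * inversionJac x) := by
    have h1 : (inversionJac x).transpose * h (inversion x) * inversionJac x = -h x := hh0
    rw [h1, neg_neg]
  have hc : ∀ ξ : E3, ((-JT x ξ : E3) : Cov) =
      -((inversionJac x).transpose.mulVec (ξ : Cov)) := fun ξ => rfl
  have hl : ∀ ξ : E3, lsq g x (-JT x ξ : E3) = lsq g (inversion x) ξ := by
    intro ξ
    rw [hc, lsq_neg, lsq_eq hJ hg]
  have hr : ∀ ξ : E3, raise g x (-JT x ξ : E3) =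
      -((inversionJac x)⁻¹.mulVec (raise g (inversion x) ξ)) := by
    intro ξ
    rw [hc, raise_neg, raise_eq hJ hg]
  refine ⟨fun ξ η => ?_, fun ξ => ?_⟩
  · have h1 : ((cA ε δ κ g x (-JT x ξ) : E3) : Cov) =
        -((volDen g x * regA ε δ κ (lsq g (inversion x) ξ)) •
          ((inversionJac x)⁻¹.mulVec (raise g (inversion x) ξ))) := by
      funext i
      change volDen g x * regA ε δ κ (lsq g x (-JT x ξ : E3)) * raise g x (-JT x ξ : E3) i = _
      rw [hl, hr]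
      simp only [Pi.neg_apply, Pi.smul_apply, smul_eq_mul]
      ring
    have h2 : ((cA ε δ κ g (inversion x) ξ : E3) : Cov) =
        (volDen g (inversion x) * regA ε δ κ (lsq g (inversion x) ξ)) •
          (raise g (inversion x) ξ) := by
      funext i
      change volDen g (inversion x) * regA ε δ κ (lsq g (inversion x) ξ) *
        raise g (inversion x) ξ i = _
      simp only [Pi.smul_apply, smul_eq_mul]
    rw [inner_cov, inner_cov, h1, h2, jt_mul, neg_dotProduct, smul_dotProduct, smul_dotProduct,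
      dot_cancel hJ, volDen_cov hx0 hg]
    simp only [smul_eq_mul]
    ring
  · unfold cB
    rw [hl, hr, ev_neg_neg, ev_cov hJ hh, trg_cov hJ hg hh, volDen_cov hx0 hg]
    ring

end Pool.Agent.PFlow.PB


end

section

/-!
# Block PX, module LIPS: the solution depends on `v` in a Lipschitz way
-/

open MeasureTheory Filter Topology Set
open scoped ContDiff RealInnerProductSpace ENNReal

namespace Pool.Agent.PFlow.PB

open Pool.Agent.PenroseSph Pool.Agent.PFlow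

namespace PXLips

lemma int_inner {F G : E3 → E3} (hF : MemLp F 2) (hG : MemLp G 2) :
    Integrable (fun x => ⟪F x, G x⟫) := by
  have h1 : Integrable (fun x => ‖F x‖ * ‖G x‖) := hF.norm.integrable_mul hG.norm
  refine h1.mono (hF.1.inner hG.1) (Eventually.of_forall fun x => ?_)
  rw [norm_mul, norm_norm, norm_norm]
  exact norm_inner_le_norm _ _

lemma pt {c L m d w q P Q : ℝ} (hc : 0 < c) (hm : L ^ 2 / c + 1 ≤ m)
    (hP : c * d ^ 2 ≤ P) (hQ : Q * w ≤ L * d * |w|) :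
    c / 2 * d ^ 2 + 1 / 2 * w ^ 2 - m / 2 * q ^ 2
      ≤ P - (Q - m * (w - q)) * w := by
  have h3 : L * d * |w| ≤ c / 2 * d ^ 2 + L ^ 2 / (2 * c) * w ^ 2 := by
    have h4 : 0 ≤ (c * d - L * |w|) ^ 2 / (2 * c) := by positivity
    have h5 : (c * d - L * |w|) ^ 2 / (2 * c)
        = c / 2 * d ^ 2 + L ^ 2 / (2 * c) * |w| ^ 2 - L * d * |w| := by
      field_simp
      ring
    rw [h5, sq_abs] at h4
    linarith
  have hm0 : 0 ≤ m := by
    have : 0 ≤ L ^ 2 / c := by positivity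
    linarith
  have h6 : L ^ 2 / (2 * c) * w ^ 2 ≤ (m - 1) / 2 * w ^ 2 := by
    refine mul_le_mul_of_nonneg_right ?_ (sq_nonneg _)
    have e : L ^ 2 / (2 * c) = L ^ 2 / c / 2 := by
      field_simp
    rw [e]
    linarith
  have h7 : m * (q * w) ≤ m / 2 * q ^ 2 + m / 2 * w ^ 2 := by
    nlinarith [mul_nonneg hm0 (sq_nonneg (q - w))]
  nlinarith

end PXLips

open PXLips Step in
/-- Module XLIPS. -/
theorem xlips_thm (h1 : API1) : XLIPS := by
  intro A B c L r hP m hm'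
  have hm : L ^ 2 / c + 1 ≤ m := by linarith
  have hc := hP.c_pos
  have hL : 0 < L := hP.c_pos.trans_le hP.c_le
  have hm0 : 0 ≤ m := by
    have : 0 ≤ L ^ 2 / c := by positivity
    linarith
  refine ⟨m * (1 + 1 / c), fun Z w₀ _ v₁ v₂ u₁ u₂ G₁ G₂ hv₁ hv₂ h₁ h₂ => ?_⟩
  have hW : H1 (fun x => u₁ x - u₂ x) (fun x => G₁ x - G₂ x) := h1.sub _ _ _ _ h₁.1 h₂.1
  have hZ : ∀ᵐ x, x ∈ Z → (fun x => u₁ x - u₂ x) x = 0 := by
    filter_upwards [h₁.2.1, h₂.2.1] with x k1 k2 hx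
    show u₁ x - u₂ x = 0
    rw [k1 hx, k2 hx, sub_self]
  have e1 := h₁.2.2 _ _ hW hZ
  have e2 := h₂.2.2 _ _ hW hZ
  have hq : MemLp (fun x => v₁ x - v₂ x) 2 := hv₁.sub hv₂
  have f : ∀ {v u : E3 → ℝ} {G : E3 → E3}, MemLp v 2 → MemLp u 2 → MemLp G 2 →
      MemLp (fun x => B x (G x) - m * (u x - v x)) 2 := fun hv hu hG =>
    (memB hP hG).sub ((hu.sub hv).const_mul m)
  have i1 := int_inner (memA hP h₁.1.memG) hW.memG
  have i2 := int_inner (memA hP h₂.1.memG) hW.memG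
  have i3 := int_mul _ _ (f hv₁ h₁.1.memf h₁.1.memG) hW.memf
  have i4 := int_mul _ _ (f hv₂ h₂.1.memf h₂.1.memG) hW.memf
  have hzero : ∫ x, ((⟪A x (G₁ x), G₁ x - G₂ x⟫ - ⟪A x (G₂ x), G₁ x - G₂ x⟫)
      - ((B x (G₁ x) - m * (u₁ x - v₁ x)) * (u₁ x - u₂ x)
        - (B x (G₂ x) - m * (u₂ x - v₂ x)) * (u₁ x - u₂ x))) = 0 := by
    have a1 : Integrable (fun x => ⟪A x (G₁ x), G₁ x - G₂ x⟫ - ⟪A x (G₂ x), G₁ x - G₂ x⟫) :=
      i1.sub i2
    have a2 : Integrable (fun x =>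
        (B x (G₁ x) - m * (u₁ x - v₁ x)) * (u₁ x - u₂ x)
        - (B x (G₂ x) - m * (u₂ x - v₂ x)) * (u₁ x - u₂ x)) := i3.sub i4
    rw [integral_sub a1 a2, integral_sub i1 i2, integral_sub i3 i4, e1, e2, sub_self]
  have j1 := int_sq _ hW.memG
  have j2 : Integrable (fun x => (u₁ x - u₂ x) ^ 2) := by
    simpa [Real.norm_eq_abs, sq_abs] using int_sq _ hW.memf
  have j3 : Integrable (fun x => (v₁ x - v₂ x) ^ 2) := by
    simpa [Real.norm_eq_abs, sq_abs] using int_sq _ hq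
  have b1 : Integrable (fun x => c / 2 * ‖G₁ x - G₂ x‖ ^ 2) := j1.const_mul _
  have b2 : Integrable (fun x => 1 / 2 * (u₁ x - u₂ x) ^ 2) := j2.const_mul _
  have b3 : Integrable (fun x => m / 2 * (v₁ x - v₂ x) ^ 2) := j3.const_mul _
  have b4 : Integrable (fun x => c / 2 * ‖G₁ x - G₂ x‖ ^ 2 + 1 / 2 * (u₁ x - u₂ x) ^ 2) :=
    b1.add b2
  have hle : ∫ x, (c / 2 * ‖G₁ x - G₂ x‖ ^ 2 + 1 / 2 * (u₁ x - u₂ x) ^ 2
      - m / 2 * (v₁ x - v₂ x) ^ 2) ≤ 0 := by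
    rw [← hzero]
    refine integral_mono (b4.sub b3) ((i1.sub i2).sub (i3.sub i4)) fun x => ?_
    have h3 := hP.mono x (G₁ x) (G₂ x)
    have h4 := hP.lipB x (G₁ x) (G₂ x)
    have h5 : (B x (G₁ x) - B x (G₂ x)) * (u₁ x - u₂ x)
        ≤ L * ‖G₁ x - G₂ x‖ * |u₁ x - u₂ x| := by
      refine (le_abs_self _).trans ?_
      rw [abs_mul]
      exact mul_le_mul_of_nonneg_right h4 (abs_nonneg _)
    have h6 := pt (q := v₁ x - v₂ x) hc hm h3 h5
    refine h6.trans (le_of_eq ?_)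
    rw [inner_sub_left]
    ring
  rw [integral_sub b4 b3, integral_add b1 b2, integral_const_mul, integral_const_mul,
    integral_const_mul] at hle
  have hle' : c / 2 * sqv (fun x => G₁ x - G₂ x) + 1 / 2 * sq (fun x => u₁ x - u₂ x)
      - m / 2 * sq (fun x => v₁ x - v₂ x) ≤ 0 := hle
  have n1 := sqv_nonneg' (fun x => G₁ x - G₂ x)
  have n2 := sq_nonneg' (fun x => u₁ x - u₂ x)
  have n3 := sq_nonneg' (fun x => v₁ x - v₂ x)
  have k1 : sq (fun x => u₁ x - u₂ x) ≤ m * sq (fun x => v₁ x - v₂ x) := by nlinarith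
  have k2 : sqv (fun x => G₁ x - G₂ x) ≤ m * (1 / c) * sq (fun x => v₁ x - v₂ x) := by
    have k3 : c * sqv (fun x => G₁ x - G₂ x) ≤ m * sq (fun x => v₁ x - v₂ x) := by nlinarith
    have e : m * (1 / c) * sq (fun x => v₁ x - v₂ x) = m * sq (fun x => v₁ x - v₂ x) / c := by
      ring
    rw [e, le_div_iff₀ hc, mul_comm]
    exact k3
  calc sq (fun x => u₁ x - u₂ x) + sqv (fun x => G₁ x - G₂ x)
      ≤ m * sq (fun x => v₁ x - v₂ x) + m * (1 / c) * sq (fun x => v₁ x - v₂ x) :=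
        add_le_add k1 k2
    _ = m * (1 + 1 / c) * sq (fun x => v₁ x - v₂ x) := by ring

end Pool.Agent.PFlow.PB


end

section

/-!
# Block PX, module XNDV: the equation in nondivergence form in an open set
-/

open MeasureTheory Filter Topology Set
open scoped ContDiff RealInnerProductSpace ENNReal

namespace Pool.Agent.PFlow.PB

open Pool.Agent.PenroseSph Pool.Agent.PFlow

theorem xndv_thm (h1 : API1) (hd : XDVF) : XNDV := by
  intro A B c L r hP O w W N hO hS hH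
  obtain ⟨hFm, hkey⟩ := hd A B c L r hP w W N hH
  have hBb : ∀ x ξ, |B x ξ| ≤ L * ‖ξ‖ := by
    intro x ξ
    have := hP.lipB x ξ 0
    rwa [hP.B_zero, sub_zero, sub_zero] at this
  have hBm : MemLp (fun x => B x (W x)) 2 := by
    refine MemLp.of_le_mul (c := L) hH.h1.memG ?_ (Eventually.of_forall fun x => hBb x (W x))
    exact hP.smoothB.continuous.comp_aestronglyMeasurable
      (aestronglyMeasurable_id.prodMk hH.h1.memG.1)
  have hRm : MemLp (fun x => opA A x (W x) (fun i => N i x) + B x (W x)) 2 := hFm.add hBm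
  refine hO.ae_eq_zero_of_integral_contDiff_smul_eq_zero
    ((hRm.locallyIntegrable (by norm_num)).locallyIntegrableOn O) fun φ hφ hc hsupp => ?_
  have hT : Test φ := ⟨hφ, hc⟩
  have hφm := test_memLp φ hT
  have e1 := hkey φ hT
  have e2 := hS.2 φ (gr φ) (h1.ofTest φ hT) ⟨tsupport φ, hc, hsupp,
    Eventually.of_forall fun x hx => image_eq_zero_of_notMem_tsupport hx⟩
  have e3 : ∫ x, φ x • (opA A x (W x) (fun i => N i x) + B x (W x)) =
      (∫ x, opA A x (W x) (fun i => N i x) * φ x) + ∫ x, B x (W x) * φ x := by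
    rw [← integral_add (int_mul _ _ hFm hφm) (int_mul (fun x => B x (W x)) _ hBm hφm)]
    refine integral_congr_ae (Eventually.of_forall fun x => ?_)
    simp only [smul_eq_mul]
    ring
  rw [e3]
  linarith

end Pool.Agent.PFlow.PB


end

section

/-!
XNOI: no islands, from the comparison principle.
-/

open MeasureTheory Filter Topology Set
open scoped ContDiff

namespace Pool.Agent.PFlow.PB

open Pool.Agent.PenroseSph Pool.Agent.PFlow

namespace PXNoIslAux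

theorem pd_const_add (c : ℝ) (F : E3 → ℝ) (i : Fin 3) : pd i (fun y => c + F y) = pd i F := by
  funext x
  unfold pd
  rw [fderiv_const_add]

theorem opN_const_add (ε : ℝ) (g h : TensorField) (c : ℝ) (F : E3 → ℝ) (x : E3) :
    grad (fun y => c + F y) x = grad F x ∧
      opN ε g h (fun y => c + F y) x = opN ε g h F x := by
  have h1 : grad (fun y => c + F y) x = grad F x := by
    funext i
    rw [grad, grad, pd_const_add]
  have h2 : hess2 (fun y => c + F y) x = hess2 F x := by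
    ext i j
    rw [hess2, hess2, Matrix.of_apply, Matrix.of_apply, pd_const_add]
  exact ⟨h1, by rw [opN, opN, h1, h2]⟩

theorem contDiff_e (τ α : ℝ) : ContDiff ℝ 2 (fun y : E3 => τ * Real.exp (α * y 0)) := by
  have h1 : ContDiff ℝ 2 (fun y : E3 => y 0) :=
    (EuclideanSpace.proj (0 : Fin 3) : E3 →L[ℝ] ℝ).contDiff
  exact contDiff_const.mul (contDiff_const.mul h1).exp

theorem limit {m v P : ℝ} (hP : 0 ≤ P) (h : ∀ τ > 0, m ≤ v + τ * P) : m ≤ v := by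
  refine le_of_forall_pos_le_add fun η hη => ?_
  have h1 := h (η / (P + 1)) (by positivity)
  have h2 : η / (P + 1) * P ≤ η := by
    rw [div_mul_eq_mul_div, div_le_iff₀ (by positivity)]
    nlinarith
  linarith

end PXNoIslAux

open PXNoIslAux in
theorem xnoi_thm (hk : KEXP) : XNOI := by
  intro ε r U g h v hε hε1 hg hv hcmp D hD hDc hDs x hx
  obtain ⟨α, hα, hexp⟩ := hk ε g h r hε hε1 hg
  obtain ⟨hsub', hsup'⟩ : (∀ K : Set E3, IsCompact K → K ⊆ U →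
      ∀ f : E3 → ℝ, (∀ x ∈ K, ContDiffAt ℝ 2 f x) →
        (∀ x ∈ K, grad f x ≠ 0 ∧ 0 < opN ε g h f x) →
        (∀ x ∈ frontier K, f x ≤ v x) → ∀ x ∈ K, f x ≤ v x) ∧
      (∀ K : Set E3, IsCompact K → K ⊆ U →
        ∀ f : E3 → ℝ, (∀ x ∈ K, ContDiffAt ℝ 2 f x) →
          (∀ x ∈ K, grad f x ≠ 0 ∧ opN ε g h f x < 0) →
          (∀ x ∈ frontier K, v x ≤ f x) → ∀ x ∈ K, v x ≤ f x) :=
    ⟨fun K hK hKU f hf => (hcmp K hK hKU f hf).1, fun K hK hKU f hf => (hcmp K hK hKU f hf).2⟩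
  -- the frontier
  have hne : (frontier D).Nonempty := by
    rw [nonempty_frontier_iff]
    refine ⟨⟨x, hx⟩, ?_⟩
    intro h1
    rw [h1, closure_univ] at hDc
    exact noncompact_univ E3 hDc
  have hfc : IsCompact (frontier D) :=
    hDc.of_isClosed_subset isClosed_frontier frontier_subset_closure
  have hff : frontier (closure D) ⊆ frontier D := frontier_closure_subset
  have hxK : x ∈ closure D := subset_closure hx
  have hcont : Continuous fun y : E3 => Real.exp (α * y 0) := by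
    have h1 : Continuous fun y : E3 => y 0 :=
      (EuclideanSpace.proj (0 : Fin 3) : E3 →L[ℝ] ℝ).continuous
    exact (continuous_const.mul h1).rexp
  obtain ⟨E, hE⟩ := hDc.exists_bound_of_continuousOn hcont.continuousOn
  have hE' : ∀ y ∈ closure D, Real.exp (α * y 0) ≤ E := fun y hy =>
    (le_abs_self _).trans (hE y hy)
  have hP : 0 ≤ E - Real.exp (α * x 0) := sub_nonneg.mpr (hE' x hxK)
  constructor
  · obtain ⟨y, hy, hy'⟩ := hfc.exists_isMaxOn hne hv.continuousOn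
    refine ⟨y, hy, limit hP fun τ hτ => ?_⟩
    have h1 := hsup' (closure D) hDc hDs
      (fun z => (v y + τ * E) + (-τ) * Real.exp (α * z 0))
      (fun z _ => (contDiff_const.add (contDiff_e (-τ) α)).contDiffAt)
      (fun z _ => by
        obtain ⟨h2, h3, -⟩ := hexp z (-τ) (neg_ne_zero.mpr hτ.ne')
        obtain ⟨h4, h5⟩ := opN_const_add ε g h (v y + τ * E)
          (fun z => (-τ) * Real.exp (α * z 0)) z
        refine ⟨by rw [h4]; exact h2, ?_⟩
        rw [h5]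
        by_contra h6
        push Not at h6
        nlinarith)
      (fun z hz => by
        have h2 : v z ≤ v y := hy' (hff hz)
        have h3 := hE' z (frontier_subset_closure (hff hz))
        nlinarith) x hxK
    simp only at h1
    linarith
  · obtain ⟨y, hy, hy'⟩ := hfc.exists_isMinOn hne hv.continuousOn
    refine ⟨y, hy, limit hP fun τ hτ => ?_⟩
    have h1 := hsub' (closure D) hDc hDs
      (fun z => (v y - τ * E) + τ * Real.exp (α * z 0))
      (fun z _ => (contDiff_const.add (contDiff_e τ α)).contDiffAt)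
      (fun z _ => by
        obtain ⟨h2, h3, -⟩ := hexp z τ hτ.ne'
        obtain ⟨h4, h5⟩ := opN_const_add ε g h (v y - τ * E)
          (fun z => τ * Real.exp (α * z 0)) z
        refine ⟨by rw [h4]; exact h2, ?_⟩
        rw [h5]
        exact (mul_pos_iff_of_pos_left hτ).mp h3)
      (fun z hz => by
        have h2 : v y ≤ v z := hy' (hff hz)
        have h3 := hE' z (frontier_subset_closure (hff hz))
        nlinarith) x hxK
    simp only at h1
    linarith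

end Pool.Agent.PFlow.PB


end

section

/-!
# Block PX, XPRD: the product with the square of a cut-off function
-/

open MeasureTheory Filter Topology Set
open scoped ContDiff RealInnerProductSpace

namespace Pool.Agent.PFlow.PB

open Pool.Agent.PenroseSph Pool.Agent.PFlow

namespace PXPrd

theorem pd_test {f : E3 → ℝ} (hf : Test f) (i : Fin 3) : Test (pd i f) where
  smooth := by
    have h1 : ContDiff ℝ ∞ (fderiv ℝ f) := hf.smooth.fderiv_right (m := ∞) le_rfl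
    exact h1.clm_apply contDiff_const
  cpt := hf.cpt.fderiv_apply (𝕜 := ℝ) _

theorem sq_test {f : E3 → ℝ} (hf : Test f) : Test (fun x => f x ^ 2) where
  smooth := hf.smooth.pow 2
  cpt := by
    refine hf.cpt.mono ?_
    intro x hx
    rw [Function.mem_support] at hx ⊢
    intro h0
    apply hx
    rw [h0]
    ring

theorem gr_bdd {f : E3 → ℝ} (hf : Test f) : ∃ C : ℝ, ∀ x, ‖gr f x‖ ≤ C :=
  (gr_cont f hf.one).bounded_above_of_compact_support (gr_cpt f hf.cpt)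

theorem bdd {f : E3 → ℝ} (hf : Test f) : ∃ C : ℝ, ∀ x, |f x| ≤ C := by
  obtain ⟨C, hC⟩ := hf.smooth.continuous.bounded_above_of_compact_support hf.cpt
  exact ⟨C, fun x => by rw [← Real.norm_eq_abs]; exact hC x⟩

theorem gr_sq {f : E3 → ℝ} (hf : Test f) (x : E3) :
    gr (fun x => f x ^ 2) x = (2 * f x) • gr f x := by
  have hd : DifferentiableAt ℝ f x := hf.smooth.differentiable (by simp) x
  ext i
  rw [gr_apply, pd_eq, PiLp.smul_apply, gr_apply, pd_eq, smul_eq_mul]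
  have h1 : HasFDerivAt (fun x => f x ^ 2) ((2 * f x) • fderiv ℝ f x) x := by
    have h2 := hd.hasFDerivAt.pow 2
    have h3 : (2 • f x ^ (2 - 1)) • fderiv ℝ f x = (2 * f x) • fderiv ℝ f x := by
      congr 1
      simp
    rw [h3] at h2
    exact h2
  rw [h1.fderiv]
  rfl

theorem gr_off {f : E3 → ℝ} {x : E3} (hx : ∀ᶠ y in 𝓝 x, f y = 0) : gr f x = 0 := by
  have h1 : f =ᶠ[𝓝 x] fun _ => 0 := hx
  ext i
  rw [gr_apply, pd_eq, h1.fderiv_eq, fderiv_fun_const]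
  rfl

/-- Second derivatives of the square vanish off the support. -/
theorem hs_off {f : E3 → ℝ} {x : E3} (hx : x ∉ tsupport f) (i : Fin 3) :
    gr (pd i (fun x => f x ^ 2)) x = 0 := by
  have h0 : ∀ᶠ y in 𝓝 x, f y = 0 := notMem_tsupport_iff_eventuallyEq.mp hx
  apply gr_off
  filter_upwards [h0.eventually_nhds] with y hy
  have h1 : ∀ᶠ z in 𝓝 y, (fun x => f x ^ 2) z = 0 := by
    filter_upwards [hy] with z hz
    rw [hz]
    ring
  have h2 := gr_off h1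
  rw [← gr_apply, h2]
  rfl

end PXPrd

open PXPrd in
theorem xprd_thm (h1 : API1) (h2 : API2) : XPRD := by
  intro ζ hζ hζ1
  have hη := sq_test hζ
  obtain ⟨C₁, hC₁⟩ := gr_bdd hζ
  obtain ⟨C₂, hC₂⟩ := gr_bdd hη
  have hpd := fun i => pd_test hη i
  choose C₃ hC₃ using fun i => gr_bdd (hpd i)
  choose C₄ hC₄ using fun i => bdd (hpd i)
  have hC₁0 : 0 ≤ C₁ := (norm_nonneg _).trans (hC₁ 0)
  have hC₃0 : ∀ i, 0 ≤ C₃ i := fun i => (norm_nonneg _).trans (hC₃ i 0)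
  have hind : ∀ x : E3, 0 ≤ (tsupport ζ).indicator (fun _ => (1 : ℝ)) x := fun x =>
    indicator_nonneg (fun _ _ => zero_le_one) x
  refine ⟨4 * C₁ + 2 * ∑ i, C₃ i, by
    have := Finset.sum_nonneg fun i (_ : i ∈ Finset.univ) => hC₃0 i
    positivity, fun w W N hw hw2 => ?_⟩
  -- the function
  have e1 : H1 (fun x => ζ x ^ 2 * w x) (fun x => ζ x ^ 2 • W x + w x •
      gr (fun x => ζ x ^ 2) x) := by
    refine h2.mul w W (fun x => ζ x ^ 2) (max 1 C₂) hw.h1 hη.one (fun x => ?_) (fun x => ?_)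
    · obtain ⟨a, b⟩ := hζ1 x
      refine le_trans ?_ (le_max_left _ _)
      rw [abs_of_nonneg (by positivity)]
      nlinarith
    · exact (hC₂ x).trans (le_max_right _ _)
  -- its derivatives
  have e2 : ∀ i, H1 (fun x => (ζ x ^ 2 • W x + w x • gr (fun x => ζ x ^ 2) x) i)
      (fun x => (ζ x ^ 2 • N i x + W x i • gr (fun x => ζ x ^ 2) x) +
        (pd i (fun x => ζ x ^ 2) x • W x + w x • gr (pd i (fun x => ζ x ^ 2)) x)) := by
    intro i
    have a1 := h2.mul (fun x => W x i) (N i) (fun x => ζ x ^ 2) (max 1 C₂) (hw.h2 i) hη.one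
      (fun x => by
        obtain ⟨a, b⟩ := hζ1 x
        refine le_trans ?_ (le_max_left _ _)
        rw [abs_of_nonneg (by positivity)]
        nlinarith) (fun x => (hC₂ x).trans (le_max_right _ _))
    have a2 := h2.mul w W (pd i (fun x => ζ x ^ 2)) (max (C₄ i) (C₃ i)) hw.h1 (hpd i).one
      (fun x => (hC₄ i x).trans (le_max_left _ _)) (fun x => (hC₃ i x).trans (le_max_right _ _))
    have a3 := h1.add _ _ _ _ a1 a2
    have a4 : (fun x => (ζ x ^ 2 • W x + w x • gr (fun x => ζ x ^ 2) x) i) =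
        fun x => ζ x ^ 2 * W x i + pd i (fun x => ζ x ^ 2) x * w x := by
      funext x
      rw [PiLp.add_apply, PiLp.smul_apply, PiLp.smul_apply, gr_apply, smul_eq_mul, smul_eq_mul,
        mul_comm (w x)]
    rw [a4]
    exact a3
  refine ⟨_, _, ⟨e1, e2⟩, ?_, ?_⟩
  · filter_upwards [hw2] with x hx
    rw [add_sub_cancel_left, gr_sq hζ, norm_smul, norm_smul, Real.norm_eq_abs, Real.norm_eq_abs]
    obtain ⟨a, b⟩ := hζ1 x
    have hs := Finset.sum_nonneg fun i (_ : i ∈ Finset.univ) => hC₃0 i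
    by_cases hxs : x ∈ tsupport ζ
    · rw [indicator_of_mem hxs, mul_one, abs_of_nonneg (by positivity : 0 ≤ 2 * ζ x)]
      have b1 : 2 * ζ x * ‖gr ζ x‖ ≤ 2 * C₁ := by
        have := hC₁ x
        have := norm_nonneg (gr ζ x)
        nlinarith
      have b2 : |w x| * (2 * ζ x * ‖gr ζ x‖) ≤ 2 * (2 * C₁) :=
        mul_le_mul hx b1 (by positivity) (by norm_num)
      linarith
    · have b1 : ζ x = 0 := image_eq_zero_of_notMem_tsupport hxs
      rw [b1, indicator_of_notMem hxs]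
      simp
  · filter_upwards [hw2] with x hx
    intro i
    obtain ⟨a, b⟩ := hζ1 x
    have hs := Finset.sum_nonneg fun i (_ : i ∈ Finset.univ) => hC₃0 i
    have hsi : C₃ i ≤ ∑ i, C₃ i :=
      Finset.single_le_sum (fun i _ => hC₃0 i) (Finset.mem_univ i)
    have c1 : ‖gr (fun x => ζ x ^ 2) x‖ ≤ 2 * C₁ * ζ x := by
      rw [gr_sq hζ, norm_smul, Real.norm_eq_abs, abs_of_nonneg (by positivity : 0 ≤ 2 * ζ x)]
      have := hC₁ x
      nlinarith
    have c2 : |W x i| ≤ ‖W x‖ := by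
      rw [← Real.norm_eq_abs]
      exact PiLp.norm_apply_le (W x) i
    have c3 : |pd i (fun x => ζ x ^ 2) x| ≤ 2 * C₁ * ζ x := by
      rw [← gr_apply, ← Real.norm_eq_abs]
      exact (PiLp.norm_apply_le (gr (fun x => ζ x ^ 2) x) i).trans c1
    have c4 : ‖gr (pd i (fun x => ζ x ^ 2)) x‖ ≤
        (∑ i, C₃ i) * (tsupport ζ).indicator (fun _ => (1 : ℝ)) x := by
      by_cases hxs : x ∈ tsupport ζ
      · rw [indicator_of_mem hxs, mul_one]
        exact (hC₃ i x).trans hsi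
      · rw [hs_off hxs, norm_zero, indicator_of_notMem hxs, mul_zero]
    have d0 : (ζ x ^ 2 • N i x + W x i • gr (fun x => ζ x ^ 2) x) +
        (pd i (fun x => ζ x ^ 2) x • W x + w x • gr (pd i (fun x => ζ x ^ 2)) x) -
        ζ x ^ 2 • N i x = W x i • gr (fun x => ζ x ^ 2) x +
        (pd i (fun x => ζ x ^ 2) x • W x + w x • gr (pd i (fun x => ζ x ^ 2)) x) := by
      abel
    rw [d0]
    refine (norm_add_le _ _).trans ?_
    have d1 : ‖W x i • gr (fun x => ζ x ^ 2) x‖ ≤ ‖W x‖ * (2 * C₁ * ζ x) := by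
      rw [norm_smul, Real.norm_eq_abs]
      exact mul_le_mul c2 c1 (norm_nonneg _) (norm_nonneg _)
    have d2 : ‖pd i (fun x => ζ x ^ 2) x • W x‖ ≤ 2 * C₁ * ζ x * ‖W x‖ := by
      rw [norm_smul, Real.norm_eq_abs]
      exact mul_le_mul_of_nonneg_right c3 (norm_nonneg _)
    have d3 : ‖w x • gr (pd i (fun x => ζ x ^ 2)) x‖ ≤
        2 * ((∑ i, C₃ i) * (tsupport ζ).indicator (fun _ => (1 : ℝ)) x) := by
      rw [norm_smul, Real.norm_eq_abs]
      exact mul_le_mul hx c4 (norm_nonneg _) (by norm_num)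
    have d4 := norm_add_le (pd i (fun x => ζ x ^ 2) x • W x)
      (w x • gr (pd i (fun x => ζ x ^ 2)) x)
    have d5 : 0 ≤ (∑ i, C₃ i) * (ζ x * ‖W x‖) := by positivity
    have d6 : 0 ≤ C₁ * (tsupport ζ).indicator (fun _ => (1 : ℝ)) x := mul_nonneg hC₁0 (hind x)
    nlinarith

end Pool.Agent.PFlow.PB


end

section

/-!
# Block PX, module XSTEP: the strongly monotone problem with boundary values
-/

open MeasureTheory Filter Topology Set
open scoped ContDiff RealInnerProductSpace ENNReal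

namespace Pool.Agent.PFlow.PB

open Pool.Agent.PenroseSph Pool.Agent.PFlow

namespace PXStep

open Step

/-- The closed subspace of the pairs `(φ, Φ)` in `H¹` with `φ = 0` on `Z`. -/
def SZ (h1 : API1) (Z : Set E3) : Submodule ℝ X where
  carrier := {p | p ∈ S h1 ∧ ∀ᵐ x, x ∈ Z → p.fst x = 0}
  zero_mem' := by
    refine ⟨(S h1).zero_mem, ?_⟩
    filter_upwards [Lp.coeFn_zero ℝ 2 (volume : Measure E3)] with x hx _
    exact hx
  add_mem' := by
    intro p q hp hq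
    refine ⟨(S h1).add_mem hp.1 hq.1, ?_⟩
    filter_upwards [Lp.coeFn_add p.fst q.fst, hp.2, hq.2] with x hx h1 h2 hZ
    have h3 : (p + q).fst x = p.fst x + q.fst x := hx
    rw [h3, h1 hZ, h2 hZ, add_zero]
  smul_mem' := by
    intro c p hp
    refine ⟨(S h1).smul_mem c hp.1, ?_⟩
    filter_upwards [Lp.coeFn_smul c p.fst, hp.2] with x hx h1 hZ
    have h3 : (c • p).fst x = c • p.fst x := hx
    rw [h3, h1 hZ, smul_zero]

lemma mem_SZ (h1 : API1) (Z : Set E3) (p : X) :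
    p ∈ SZ h1 Z ↔ p ∈ S h1 ∧ ∀ᵐ x, x ∈ Z → p.fst x = 0 := Iff.rfl

lemma closed_SZ (h1 : API1) (Z : Set E3) : IsClosed (SZ h1 Z : Set X) := by
  refine IsSeqClosed.isClosed fun p q hp hq => ?_
  have hpS : ∀ n, p n ∈ S h1 := fun n => (hp n).1
  have hpZ : ∀ n, ∀ᵐ x, x ∈ Z → (p n).fst x = 0 := fun n => (hp n).2
  refine ⟨(closed_S h1).mem_of_tendsto hq (Eventually.of_forall hpS), ?_⟩
  have hf : Tendsto (fun n => (p n).fst) atTop (𝓝 q.fst) :=
    ((WithLp.continuous_fst 2 _ _).tendsto q).comp hq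
  have hm : TendstoInMeasure (volume : Measure E3) (fun n => ((p n).fst : E3 → ℝ)) atTop
      (q.fst : E3 → ℝ) := tendstoInMeasure_of_tendsto_Lp hf
  obtain ⟨ns, -, hns⟩ := hm.exists_seq_tendsto_ae
  filter_upwards [hns, ae_all_iff.mpr hpZ] with x h2 h3 hZ
  refine tendsto_nhds_unique h2 ?_
  have h4 : (fun i => ((p (ns i)).fst : E3 → ℝ) x) = fun _ => (0 : ℝ) := by
    funext i
    exact h3 (ns i) hZ
  rw [h4]
  exact tendsto_const_nhds

lemma pen_one (r : ℝ) : Pen (fun _ => 1) (fun _ => 0) 1 1 r where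
  contΘ := continuous_const
  contθ := continuous_const
  nonneg := fun _ => le_rfl
  le := fun _ => zero_le_one
  bdd := fun _ => le_rfl
  t₀_pos := one_pos
  outΘ := fun _ _ => le_rfl
  outθ := fun _ _ => rfl

end PXStep

open PXStep Step in
/-- Module XSTEP. -/
theorem xstep_thm (h1 : API1) (hz : ZAR) : XSTEP := by
  intro A B c L r hP Z w₀ hw₀ m hm v hv
  have hL : 0 < L := hP.c_pos.trans_le hP.c_le
  have hp := pen_one r
  have hLc : 0 ≤ L ^ 2 / c := div_nonneg (sq_nonneg _) hP.c_pos.le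
  have hm1 : L ^ 2 / c + 1 ≤ m - 1 := by linarith
  have hm0 : 0 ≤ m - 1 := by linarith
  have hmne : m - 1 ≠ 0 := by
    intro h
    rw [h] at hm1
    linarith
  have hv1 : MemLp (fun x => m / (m - 1) * v x) 2 := hv.const_mul _
  have hW0 : H1 w₀ (gr w₀) := h1.ofTest w₀ hw₀
  let W : X := WithLp.toLp 2 (hW0.memf.toLp, hW0.memG.toLp)
  have hWS : W ∈ S h1 := by
    show H1 _ _
    exact h1.congr _ _ _ _ hW0 hW0.memf.coeFn_toLp.symm hW0.memG.coeFn_toLp.symm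
  have : CompleteSpace (SZ h1 Z) := (closed_SZ h1 Z).completeSpace_coe
  have key : ∀ p q : SZ h1 Z,
      ⟪(SZ h1 Z).orthogonalProjectionOnto (N hP hp (m - 1) hv1 ((p : X) + W)), q⟫
      = ⟪N hP hp (m - 1) hv1 ((p : X) + W), (q : X)⟫ :=
    fun p q => (SZ h1 Z).inner_orthogonalProjectionOnto_eq_of_mem_right q _
  obtain ⟨p, hp0⟩ := hz (SZ h1 Z)
    (fun p => (SZ h1 Z).orthogonalProjectionOnto (N hP hp (m - 1) hv1 ((p : X) + W)))
    (min (c / 2) 1) (2 * (L + 1 + (m - 1))) (lt_min (half_pos hP.c_pos) one_pos)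
    (by
      intro p q
      have h2 := mono_N hP hp hm1 hv1 ((p : X) + W) ((q : X) + W)
      rw [add_sub_add_right_eq_sub] at h2
      rw [inner_sub_left, key, key, ← inner_sub_left]
      exact h2)
    (by
      intro p q
      show ‖(SZ h1 Z).orthogonalProjectionOnto (N hP hp (m - 1) hv1 ((p : X) + W))
        - (SZ h1 Z).orthogonalProjectionOnto (N hP hp (m - 1) hv1 ((q : X) + W))‖ ≤ _
      rw [← map_sub]
      have h2 := lip_N hP hp hm0 hv1 ((p : X) + W) ((q : X) + W)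
      rw [add_sub_add_right_eq_sub] at h2
      exact ((SZ h1 Z).norm_orthogonalProjectionOnto_apply_le _).trans h2) 0
  refine ⟨((p : X) + W).fst, ((p : X) + W).snd, (S h1).add_mem p.2.1 hWS, ?_, ?_⟩
  · filter_upwards [Lp.coeFn_add (p : X).fst W.fst, p.2.2, hW0.memf.coeFn_toLp] with x hx h2 h3 hZ
    have h4 : ((p : X) + W).fst x = (p : X).fst x + W.fst x := hx
    have h5 : W.fst x = w₀ x := h3
    rw [h4, h5, h2 hZ, zero_add]
  intro φ Φ hφ hφZ
  have hq : WithLp.toLp 2 (hφ.memf.toLp, hφ.memG.toLp) ∈ SZ h1 Z := by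
    refine ⟨?_, ?_⟩
    · show H1 _ _
      exact h1.congr _ _ _ _ hφ hφ.memf.coeFn_toLp.symm hφ.memG.coeFn_toLp.symm
    · filter_upwards [hφ.memf.coeFn_toLp, hφZ] with x hx h2 hZ
      show (hφ.memf.toLp : Lp ℝ 2 (volume : Measure E3)) x = 0
      rw [hx, h2 hZ]
  have h0 := key p ⟨_, hq⟩
  rw [hp0, inner_zero_left, inner_N] at h0
  have h2 : (∫ x, -(B x (((p : X) + W).snd x) - 1 * ((p : X) + W).fst x + 0
      - (m - 1) * (((p : X) + W).fst x - m / (m - 1) * v x))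
        * (WithLp.toLp 2 (hφ.memf.toLp, hφ.memG.toLp) : X).fst x)
      = - ∫ x, (B x (((p : X) + W).snd x) - m * (((p : X) + W).fst x - v x)) * φ x := by
    rw [← integral_neg]
    refine integral_congr_ae ?_
    filter_upwards [hφ.memf.coeFn_toLp] with x hx
    show _ * (hφ.memf.toLp : Lp ℝ 2 (volume : Measure E3)) x = _
    rw [hx]
    have h5 : (m - 1) * (m / (m - 1) * v x) = m * v x := by
      rw [← mul_assoc, mul_div_cancel₀ _ hmne]
    have h6 : (m - 1) * (((p : X) + W).fst x - m / (m - 1) * v x)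
        = (m - 1) * ((p : X) + W).fst x - m * v x := by
      rw [mul_sub, h5]
    rw [h6]
    ring
  have h3 : (∫ x, ⟪A x (((p : X) + W).snd x),
      (WithLp.toLp 2 (hφ.memf.toLp, hφ.memG.toLp) : X).snd x⟫)
      = ∫ x, ⟪A x (((p : X) + W).snd x), Φ x⟫ := by
    refine integral_congr_ae ?_
    filter_upwards [hφ.memG.coeFn_toLp] with x hx
    show ⟪_, (hφ.memG.toLp : Lp E3 2 (volume : Measure E3)) x⟫ = _
    rw [hx]
  rw [h2, h3] at h0
  linarith

end Pool.Agent.PFlow.PB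


end

section

/-!
# XSUB: comparison for the limit, on compact sets
-/

open MeasureTheory Filter Topology Set
open scoped ContDiff RealInnerProductSpace

namespace Pool.Agent.PFlow.PB

open Pool.Agent.PenroseSph Pool.Agent.PFlow

namespace PXSubL

lemma pd_add_const (f : E3 → ℝ) (d : ℝ) (i : Fin 3) : pd i (fun x => f x + d) = pd i f := by
  funext x
  simp only [pd, fderiv_add_const]

lemma gr_add_const (f : E3 → ℝ) (d : ℝ) : gr (fun x => f x + d) = gr f := by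
  funext x
  simp only [gr, pd_add_const]

lemma hs_add_const (f : E3 → ℝ) (d : ℝ) (i : Fin 3) : hs (fun x => f x + d) i = hs f i := by
  funext x
  simp only [hs, pd_add_const]

lemma key (hb : BRID) (hc : XCCPT) {ε R : ℝ} {g h : TensorField} {w₀ : E3 → ℝ} {δ κ : ℕ → ℝ}
    {u : ℕ → E3 → ℝ} {G : ℕ → E3 → E3} {v : ℕ → E3 → ℝ} {V : ℕ → E3 → E3}
    {M : ℕ → Fin 3 → E3 → E3} {C : ℝ} {w : E3 → ℝ} {F : E3 → E3} {N : Fin 3 → E3 → E3}
    (H : LimX ε R g h w₀ δ κ u G v V M C w F N) (s : ℝ) (hs1 : s = 1 ∨ s = -1)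
    (K : Set E3) (hK : IsCompact K) (hKU : K ⊆ Ann (2 / 5) (3 * R / 2)) (f : E3 → ℝ)
    (hf : ∀ x ∈ K, ContDiffAt ℝ 2 f x)
    (σ δ₀ : ℝ) (hσ : 0 < σ) (hδ₀ : 0 < δ₀)
    (hop : ∀ δ κ : ℝ, 0 < δ → δ ≤ δ₀ → 0 < κ → κ ≤ δ₀ → ∀ x ∈ K,
      σ ≤ s * (opL ε δ κ g x (grad f x) (hess2 f x) + cB ε δ g h x (vec (grad f x))))
    (hfr : ∀ x ∈ frontier K, s * (f x - w x) ≤ 0) : ∀ x ∈ K, s * (f x - w x) ≤ 0 := by
  intro x hx
  refine le_of_forall_pos_le_add fun η hη => ?_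
  have hss : s * s = 1 := by
    rcases hs1 with h | h <;> rw [h] <;> norm_num
  have hsa : |s| = 1 := by
    rcases hs1 with h | h <;> rw [h] <;> norm_num
  have e1 : ∀ᶠ n in atTop, δ n < δ₀ := H.δ_tend.eventually_lt_const hδ₀
  have e2 : ∀ᶠ n in atTop, κ n < δ₀ := H.κ_tend.eventually_lt_const hδ₀
  have e3 : ∀ᶠ n in atTop, ∀ y ∈ K, dist (w y) (v n y) < η / 2 :=
    (Metric.tendstoUniformlyOn_iff.mp (H.unif K hK)) (η / 2) (by linarith)
  obtain ⟨n, h1, h2, h3⟩ := (e1.and (e2.and e3)).exists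
  have h3' : ∀ y ∈ K, |s * (v n y - w y)| ≤ η / 2 := by
    intro y hy
    rw [abs_mul, hsa, one_mul, abs_sub_comm, ← Real.dist_eq]
    exact (h3 y hy).le
  have hR0 : 0 < R / 2 := by
    have := H.hR
    linarith
  obtain ⟨c, L, hP⟩ := hb.coef ε (δ n) (κ n) g h (R / 2) H.eps_pos H.eps_lt (H.δ_pos n)
    (H.κ_pos n) hR0 H.data
  have hfr' : frontier K ⊆ K := hK.isClosed.frontier_subset
  have main := hc _ _ c L (R / 2) hP (Ann (2 / 5) (3 * R / 2)) (v n) (V n) (H.loc n) (H.cont n)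
    s hs1 K (fun y => f y + (-(s * (η / 2)))) hK hKU
    (fun y hy => (hf y hy).add contDiffAt_const) σ hσ ?_ ?_ x hx
  · have h4 := abs_le.mp (h3' x hx)
    have e4 : s * (f x + -(s * (η / 2)) - v n x) =
        s * (f x - w x) - s * (v n x - w x) - (s * s) * (η / 2) := by ring
    rw [e4, hss] at main
    linarith [h4.1, h4.2]
  · intro y hy _
    rw [gr_add_const]
    simp only [hs_add_const]
    obtain ⟨j1, j2⟩ := hb.jet f y (hf y hy)
    rw [hb.op ε (δ n) (κ n) g h (R / 2) H.eps_pos H.eps_lt (H.δ_pos n) (H.κ_pos n) H.data, j1, j2]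
    have h5 := hop (δ n) (κ n) (H.δ_pos n) h1.le (H.κ_pos n) h2.le y hy
    have h7 : (vec (grad f y)).ofLp = grad f y := rfl
    rw [h7]
    exact h5
  · intro y hy
    have h4 := abs_le.mp (h3' y (hfr' hy))
    have h5 := hfr y hy
    have e4 : s * (f y + -(s * (η / 2)) - v n y) =
        s * (f y - w y) - s * (v n y - w y) - (s * s) * (η / 2) := by ring
    rw [e4, hss]
    linarith [h4.1, h4.2]

end PXSubL

open PXSubL in
/-- XSUB: comparison for the limit, on compact sets. -/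
theorem xsub_thm (hb : BRID) (hc : XCCPT) (hk : KPOS) : XSUB := by
  intro ε R g h w₀ δ κ u G v V M C w F N H K hK hKs f hf
  constructor
  · intro hpos hfr x hx
    obtain ⟨σ, δ₀, hσ, hδ₀, hop⟩ :=
      (hk ε g h (R / 2) H.eps_pos H.eps_lt H.data K f hK hf).1 hpos
    have main := key hb hc H 1 (Or.inl rfl) K hK hKs f hf σ δ₀ hσ hδ₀ ?_ ?_ x hx
    · linarith
    · intro δ' κ' k1 k2 k3 k4 y hy
      rw [one_mul]
      exact hop δ' κ' k1 k2 k3 k4 y hy
    · intro y hy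
      have := hfr y hy
      linarith
  · intro hneg hfr x hx
    obtain ⟨σ, δ₀, hσ, hδ₀, hop⟩ :=
      (hk ε g h (R / 2) H.eps_pos H.eps_lt H.data K f hK hf).2 hneg
    have main := key hb hc H (-1) (Or.inr rfl) K hK hKs f hf σ δ₀ hσ hδ₀ ?_ ?_ x hx
    · linarith
    · intro δ' κ' k1 k2 k3 k4 y hy
      have := hop δ' κ' k1 k2 k3 k4 y hy
      linarith
    · intro y hy
      have := hfr y hy
      linarith

end Pool.Agent.PFlow.PB


end
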