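import Mathlib
import Pool.Agent.PFlow.StmtsX2
import Pool.Agent.PenroseM.C14
import Pool.Agent.PenroseM.C16
import Pool.Agent.PenroseM.C18
import Pool.Agent.PenroseM.C29
import Pool.Agent.PenroseM.C31
import Pool.Agent.PenroseM.C66
import Pool.Agent.PenroseM.C71

/-! Parts: PFlow.PX.OddT, PFlow.X.XEPS, PFlow.X.XPERA, PFlow.X.XPHI, PFlow.X.XTRD -/

section

/-!
# Block PX, module XODT: a function which vanishes on the unit sphere, continued by zero
-/

open MeasureTheory Filter Topology Set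
open scoped ContDiff RealInnerProductSpace

namespace Pool.Agent.PFlow.PB

open Pool.Agent.PenroseSph Pool.Agent.PFlow

namespace PXOddT

/-- The function `t S(t² - 1)`. -/
noncomputable def P (t : ℝ) : ℝ := t * Real.smoothTransition (t ^ 2 - 1)

theorem P_smooth : ContDiff ℝ 1 P :=
  contDiff_id.mul (Real.smoothTransition.contDiff.comp ((contDiff_id.pow 2).sub contDiff_const))

theorem P_zero {t : ℝ} (h : t ^ 2 ≤ 1) : P t = 0 := by
  unfold P
  rw [Real.smoothTransition.zero_of_nonpos (by linarith), mul_zero]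

theorem P_id {t : ℝ} (h : 2 ≤ t ^ 2) : P t = t := by
  unfold P
  rw [Real.smoothTransition.one_of_one_le (by linarith), mul_one]

theorem P_sub (t : ℝ) : |P t - t| ≤ |t| := by
  have h1 := Real.smoothTransition.nonneg (t ^ 2 - 1)
  have h2 := Real.smoothTransition.le_one (t ^ 2 - 1)
  have e : P t - t = t * (Real.smoothTransition (t ^ 2 - 1) - 1) := by
    unfold P
    ring
  rw [e, abs_mul]
  refine mul_le_of_le_one_right (abs_nonneg _) ?_
  rw [abs_le]
  constructor <;> linarith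

theorem P_deriv_one {t : ℝ} (h : 2 < t ^ 2) : deriv P t = 1 := by
  have h1 : P =ᶠ[𝓝 t] id := by
    have h2 : ∀ᶠ s in 𝓝 t, 2 < s ^ 2 :=
      (continuous_pow 2).continuousAt.eventually (lt_mem_nhds h)
    filter_upwards [h2] with s hs
    exact P_id hs.le
  rw [h1.deriv_eq, deriv_id]

theorem P_deriv_zero : deriv P 0 = 0 := by
  have h1 : P =ᶠ[𝓝 0] fun _ => 0 := by
    have h2 : ∀ᶠ s : ℝ in 𝓝 0, s ^ 2 < 1 :=
      (continuous_pow 2).continuousAt.eventually (gt_mem_nhds (by norm_num))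
    filter_upwards [h2] with s hs
    exact P_zero hs.le
  rw [h1.deriv_eq, deriv_const]

theorem P_bdd : ∃ C, 1 ≤ C ∧ ∀ t, |deriv P t| ≤ C := by
  obtain ⟨C, hC⟩ := (isCompact_Icc (a := (-2 : ℝ)) (b := 2)).exists_bound_of_continuousOn
    (f := deriv P) (P_smooth.continuous_deriv (by norm_num)).continuousOn
  refine ⟨max C 1, le_max_right _ _, fun t => ?_⟩
  by_cases ht : t ∈ Icc (-2 : ℝ) 2
  · exact (hC t ht).trans (le_max_left _ _)
  · have h : 2 < t ^ 2 := by
      by_contra hcon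
      push Not at hcon
      exact ht ⟨by nlinarith, by nlinarith⟩
    rw [P_deriv_one h, abs_one]
    exact le_max_right _ _

/-- The truncation at the height `1/(k+1)`. -/
noncomputable def Q (k : ℕ) (t : ℝ) : ℝ := ((k : ℝ) + 1)⁻¹ * P (((k : ℝ) + 1) * t)

theorem Q_smooth (k : ℕ) : ContDiff ℝ 1 (Q k) :=
  contDiff_const.mul (P_smooth.comp (contDiff_const.mul contDiff_id))

theorem Q_zero (k : ℕ) {t : ℝ} (h : (((k : ℝ) + 1) * t) ^ 2 ≤ 1) : Q k t = 0 := by
  unfold Q
  rw [P_zero h, mul_zero]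

theorem Q_sub (k : ℕ) (t : ℝ) : |Q k t - t| ≤ |t| := by
  have hk : (0 : ℝ) < (k : ℝ) + 1 := by positivity
  have e : Q k t - t = ((k : ℝ) + 1)⁻¹ * (P (((k : ℝ) + 1) * t) - ((k : ℝ) + 1) * t) := by
    unfold Q
    field_simp
  rw [e, abs_mul, abs_of_pos (inv_pos.2 hk), inv_mul_le_iff₀ hk]
  refine (P_sub _).trans ?_
  rw [abs_mul, abs_of_pos hk]

theorem Q_deriv (k : ℕ) (t : ℝ) : deriv (Q k) t = deriv P (((k : ℝ) + 1) * t) := by
  have hk : (0 : ℝ) < (k : ℝ) + 1 := by positivity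
  have h1 : HasDerivAt P (deriv P (((k : ℝ) + 1) * t)) (((k : ℝ) + 1) * t) :=
    (P_smooth.differentiable (by norm_num) _).hasDerivAt
  have h2 : HasDerivAt (fun s : ℝ => ((k : ℝ) + 1) * s) ((k : ℝ) + 1) t := by
    simpa using (hasDerivAt_id t).const_mul ((k : ℝ) + 1)
  have h3 := (h1.comp t h2).const_mul (((k : ℝ) + 1)⁻¹)
  have h4 : deriv (Q k) t = _ := h3.deriv
  rw [h4]
  field_simp

theorem ev_large {t : ℝ} (ht : t ≠ 0) : ∀ᶠ k : ℕ in atTop, 2 < (((k : ℝ) + 1) * t) ^ 2 := by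
  have h1 : Tendsto (fun k : ℕ => (k : ℝ) + 1) atTop atTop :=
    tendsto_atTop_add_const_right _ _ tendsto_natCast_atTop_atTop
  have h2 := h1.eventually_gt_atTop (2 / t ^ 2)
  filter_upwards [h2, h1.eventually_ge_atTop 1] with k hk hk1
  have ht2 : 0 < t ^ 2 := by positivity
  rw [div_lt_iff₀ ht2] at hk
  rw [mul_pow]
  nlinarith [mul_le_mul_of_nonneg_left hk1 (mul_nonneg (zero_le_one.trans hk1) ht2.le)]

theorem Q_tend (t : ℝ) : Tendsto (fun k => Q k t) atTop (𝓝 t) := by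
  by_cases ht : t = 0
  · have e : ∀ k, Q k t = t := fun k => by
      rw [Q_zero k (by rw [ht]; norm_num), ht]
    simp only [e]
    exact tendsto_const_nhds
  · refine tendsto_const_nhds.congr' ?_
    filter_upwards [ev_large ht] with k hk
    have hk' : (0 : ℝ) < (k : ℝ) + 1 := by positivity
    unfold Q
    rw [P_id hk.le]
    field_simp

theorem Q_deriv_tend {t : ℝ} (ht : t ≠ 0) : Tendsto (fun k => deriv (Q k) t) atTop (𝓝 1) := by
  refine tendsto_const_nhds.congr' ?_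
  filter_upwards [ev_large ht] with k hk
  rw [Q_deriv, P_deriv_one hk]

theorem gr_congr {f g : E3 → ℝ} {x : E3} (h : f =ᶠ[𝓝 x] g) : gr f x = gr g x := by
  ext i
  simp only [gr_apply, pd_eq, h.fderiv_eq]

theorem gr_zero (x : E3) : gr (fun _ => 0) x = 0 := by
  ext i
  simp only [gr_apply, pd_eq]
  simp

/-- The exterior of the unit ball. -/
def O : Set E3 := {x : E3 | 1 < ‖x‖}

theorem O_open : IsOpen O := isOpen_lt continuous_const continuous_norm

variable {ψ : E3 → ℝ}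

/-- The approximation of `1_{|x|>1} ψ`. -/
noncomputable def f (ψ : E3 → ℝ) (k : ℕ) : E3 → ℝ := O.indicator fun x => Q k (ψ x)

theorem f_out (k : ℕ) {x : E3} (hx : x ∈ O) : f ψ k =ᶠ[𝓝 x] fun y => Q k (ψ y) := by
  filter_upwards [O_open.mem_nhds hx] with y hy
  exact indicator_of_mem hy _

theorem f_in (hψ : Continuous ψ) (h0 : ∀ x : E3, ‖x‖ = 1 → ψ x = 0) (k : ℕ) {x : E3}
    (hx : x ∉ O) : f ψ k =ᶠ[𝓝 x] fun _ => 0 := by
  rcases lt_or_eq_of_le (not_lt.1 hx : ‖x‖ ≤ 1) with h | h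
  · have h1 : ∀ᶠ y : E3 in 𝓝 x, ‖y‖ < 1 :=
      continuous_norm.continuousAt.eventually (gt_mem_nhds h)
    filter_upwards [h1] with y hy
    have hy' : y ∉ O := fun hy' => lt_asymm hy hy'
    exact indicator_of_notMem hy' _
  · have h1 : ∀ᶠ y : E3 in 𝓝 x, (((k : ℝ) + 1) * ψ y) ^ 2 < 1 := by
      have hc : Continuous fun y => (((k : ℝ) + 1) * ψ y) ^ 2 :=
        (continuous_const.mul hψ).pow 2
      refine hc.continuousAt.eventually (gt_mem_nhds ?_)
      show (((k : ℝ) + 1) * ψ x) ^ 2 < 1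
      rw [h0 x h]
      norm_num
    filter_upwards [h1] with y hy
    unfold f indicator
    split_ifs
    · exact Q_zero k hy.le
    · rfl

theorem f_smooth (hψ : ContDiff ℝ 1 ψ) (h0 : ∀ x : E3, ‖x‖ = 1 → ψ x = 0) (k : ℕ) :
    ContDiff ℝ 1 (f ψ k) := by
  rw [contDiff_iff_contDiffAt]
  intro x
  by_cases hx : x ∈ O
  · exact (((Q_smooth k).comp hψ).contDiffAt).congr_of_eventuallyEq (f_out k hx)
  · exact (contDiff_const.contDiffAt).congr_of_eventuallyEq (f_in hψ.continuous h0 k hx)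

theorem f_cpt (hc : HasCompactSupport ψ) (k : ℕ) : HasCompactSupport (f ψ k) := by
  refine hc.mono fun x hx => ?_
  rw [Function.mem_support] at hx ⊢
  intro h
  refine hx ?_
  unfold f indicator
  split_ifs
  · show Q k (ψ x) = 0
    rw [h]
    exact Q_zero k (by norm_num)
  · rfl

theorem gr_f (hψ : ContDiff ℝ 1 ψ) (h0 : ∀ x : E3, ‖x‖ = 1 → ψ x = 0) (k : ℕ) (x : E3) :
    gr (f ψ k) x = O.indicator (fun x => deriv (Q k) (ψ x) • gr ψ x) x := by
  by_cases hx : x ∈ O
  · rw [indicator_of_mem hx, gr_congr (f_out k hx)]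
    exact gr_comp (Q k) (Q_smooth k) ψ x (hψ.differentiable (by norm_num) x)
  · rw [indicator_of_notMem hx, gr_congr (f_in hψ.continuous h0 k hx), gr_zero]

end PXOddT

open PXOddT in
/-- XODT. -/
theorem xodt_thm (h1 : API1) (h2 : API2) (hc : CHAIN) : XODT := by
  intro ψ hψ hcs h0
  have hH := h2.ofC1 ψ hψ hcs
  have hm : MeasurableSet O := O_open.measurableSet
  have hf : MemLp (O.indicator ψ) 2 := hH.memf.indicator hm
  have hG : MemLp (O.indicator (gr ψ)) 2 := hH.memG.indicator hm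
  have hk : ∀ k, H1 (f ψ k) (gr (f ψ k)) := fun k =>
    h2.ofC1 _ (f_smooth hψ h0 k) (f_cpt hcs k)
  obtain ⟨C, hC1, hC⟩ := P_bdd
  refine h1.closed _ _ (fun k => f ψ k) (fun k => gr (f ψ k)) hk hf hG ?_ ?_
  · simp only [sq_eq]
    refine dom_tend _ (fun x => ‖ψ x‖) (fun k => ((hk k).memf.sub hf).1) hH.memf.norm
      (fun k => Eventually.of_forall fun x => ?_) (Eventually.of_forall fun x => ?_)
    · show ‖f ψ k x - O.indicator ψ x‖ ≤ _
      unfold f indicator
      split_ifs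
      · exact Q_sub k _
      · simp
    · show Tendsto (fun k => f ψ k x - O.indicator ψ x) atTop (𝓝 0)
      unfold f indicator
      split_ifs
      · have := (Q_tend (ψ x)).sub_const (ψ x)
        rwa [sub_self] at this
      · simp
  · show Tendsto (fun k => ∫ x, ‖gr (f ψ k) x - O.indicator (gr ψ) x‖ ^ 2) atTop (𝓝 0)
    refine dom_tend _ (fun x => (C + 1) * ‖gr ψ x‖) (fun k => ((hk k).memG.sub hG).1)
      (hH.memG.norm.const_mul _) (fun k => Eventually.of_forall fun x => ?_) ?_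
    · show ‖gr (f ψ k) x - O.indicator (gr ψ) x‖ ≤ _
      rw [gr_f hψ h0]
      unfold indicator
      split_ifs
      · rw [add_mul, one_mul]
        refine (norm_sub_le _ _).trans (add_le_add_left ?_ _)
        rw [norm_smul, Real.norm_eq_abs, Q_deriv]
        exact mul_le_mul_of_nonneg_right (hC _) (norm_nonneg _)
      · rw [sub_zero, norm_zero]
        positivity
    · filter_upwards [hc.zero ψ (gr ψ) hH] with x hx
      show Tendsto (fun k => gr (f ψ k) x - O.indicator (gr ψ) x) atTop (𝓝 0)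
      simp only [gr_f hψ h0]
      unfold indicator
      split_ifs
      · by_cases h : ψ x = 0
        · simp [hx h]
        · have := ((Q_deriv_tend h).smul_const (gr ψ x)).sub_const (gr ψ x)
          rwa [one_smul, sub_self] at this
      · simp

end Pool.Agent.PFlow.PB


end

section

/-!
# (XEPS) The three inequalities for fixed `ε`, exterior regions
-/

open MeasureTheory Filter Topology
open scoped ContDiff ENNReal

namespace Pool.Agent.PFlow

open Pool.Agent.PenroseSph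

namespace XEPSm

lemma exists_theta (a c τ : ℝ) (hτ : 0 < τ) : ∃ θ : ℝ, 0 < θ ∧ θ < 1 ∧
    θ ^ (-a) * c ≤ c + τ := by
  have h1 : ContinuousAt (fun θ : ℝ => θ ^ (-a) * c) 1 :=
    (Real.continuousAt_rpow_const 1 (-a) (Or.inl one_ne_zero)).mul continuousAt_const
  have h2 : ∀ᶠ θ in 𝓝 (1 : ℝ), θ ^ (-a) * c < c + τ := by
    refine h1.eventually (gt_mem_nhds ?_)
    simp only [Real.one_rpow, one_mul]
    linarith
  have h3 : ∀ᶠ θ in 𝓝[<] (1 : ℝ), θ ^ (-a) * c < c + τ := h2.filter_mono nhdsWithin_le_nhds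
  have h4 : ∀ᶠ θ in 𝓝[<] (1 : ℝ), 0 < θ :=
    (lt_mem_nhds (zero_lt_one (α := ℝ))).filter_mono nhdsWithin_le_nhds
  obtain ⟨θ, ⟨h5, h6⟩, h7⟩ := ((h3.and h4).and self_mem_nhdsWithin).exists
  exact ⟨θ, h6, h7, h5.le⟩

end XEPSm

open XEPSm in
theorem XEPS (hXEXI1 : Stmt_XEXI1) (hXMSI : Stmt_XMSI) (hXMSII : Stmt_XMSII)
    (hXMSIII : Stmt_XMSIII) (hXWGTE : Stmt_XWGTE) (hBETA : Stmt_BETA) : Stmt_XEPS := by
  intro g k m hsm hdec hps hsur htrap hth hm
  obtain ⟨C, r, V, hC, hr2, hV, hex⟩ := hXEXI1 g k hsm hdec hps hsur htrap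
  refine ⟨V, hV, ?_⟩
  intro ε τ hε hε2 hτ
  obtain ⟨P, B, l0, hPε, hB, hl08, hrl, hex⟩ := hex ε hε hε2
  obtain ⟨B3, hB3, hW⟩ := hXWGTE P B
  obtain ⟨B1, hB1, hI⟩ := hXMSI P B B3
  obtain ⟨β, hβ⟩ := hBETA
  obtain ⟨θ, hθ0, hθ1, hθ⟩ := exists_theta (2 * (2 - ε)) (4 * Real.pi * (2 - ε) ^ 2) (τ / 2)
    (by linarith)
  obtain ⟨B2, hB2, hII⟩ := hXMSII P B B3 θ β hθ0 hθ1 hβ
  -- the length of the window
  obtain ⟨L, hL1, hL⟩ : ∃ L : ℝ, 1 ≤ L ∧ B2 * Real.exp (-(L / ε)) ≤ τ / 4 := by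
    have h1 : Tendsto (fun L : ℝ => B2 * Real.exp (-(L / ε))) atTop (𝓝 (B2 * 0)) := by
      refine Tendsto.const_mul B2 (Real.tendsto_exp_neg_atTop_nhds_zero.comp ?_)
      exact tendsto_id.atTop_div_const hε
    rw [mul_zero] at h1
    obtain ⟨L, h2, h3⟩ := ((h1.eventually (gt_mem_nhds (by linarith : (0 : ℝ) < τ / 4))).and
      (eventually_ge_atTop (1 : ℝ))).exists
    exact ⟨L, h3, h2.le⟩
  -- the radius
  obtain ⟨μ, hμ⟩ : ∃ μ, μ = min τ 1 := ⟨_, rfl⟩
  have hμ0 : 0 < μ := by rw [hμ]; exact lt_min hτ one_pos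
  have hμ1 : μ ≤ 1 := by rw [hμ]; exact min_le_right _ _
  have hμτ : μ ≤ τ := by rw [hμ]; exact min_le_left _ _
  obtain ⟨l, hl0, hl1, hl2⟩ : ∃ l : ℝ, l0 ≤ l ∧ B2 * (1 / l) ≤ τ / 4 ∧
      B1 * (l ^ (-(1 / 2 : ℝ)) + ∫ x in cAnn (l / 2) l, msz (k x) / l)
        + 8 * Real.pi * B3 * |massIntegral g l - m| ≤ μ / 4 := by
    have t1 : Tendsto (fun l : ℝ => B2 * (1 / l)) atTop (𝓝 (B2 * 0)) := by
      refine Tendsto.const_mul B2 (tendsto_inv_atTop_zero.congr fun x => ?_)
      rw [one_div]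
    have t2 : Tendsto (fun l : ℝ => l ^ (-(1 / 2 : ℝ))) atTop (𝓝 0) :=
      tendsto_rpow_neg_atTop (by norm_num)
    have t3 : Tendsto (fun l : ℝ => |massIntegral g l - m|) atTop (𝓝 |m - m|) :=
      (hm.sub_const m).abs
    have t4 := ((t2.add hth).const_mul B1).add (t3.const_mul (8 * Real.pi * B3))
    rw [mul_zero] at t1
    simp only [sub_self, abs_zero, mul_zero, add_zero] at t4
    obtain ⟨l, ⟨e1, e2⟩, e3⟩ := (((t1.eventually (gt_mem_nhds (by linarith : (0 : ℝ) < τ / 4))).and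
      (t4.eventually (gt_mem_nhds (by linarith : (0 : ℝ) < μ / 4)))).and
      (eventually_ge_atTop l0)).exists
    exact ⟨l, e3, e1.le, e2.le⟩
  -- the size of the errors
  obtain ⟨σ, hσ⟩ : ∃ σ, σ = min τ (μ / (4 * B1)) := ⟨_, rfl⟩
  have hσ0 : 0 < σ := by rw [hσ]; exact lt_min hτ (by positivity)
  have hστ : σ ≤ τ := by rw [hσ]; exact min_le_left _ _
  have hσB : B1 * σ ≤ μ / 4 := by
    have h1 : σ ≤ μ / (4 * B1) := by rw [hσ]; exact min_le_right _ _
    have h2 : B1 * (μ / (4 * B1)) = μ / 4 := by field_simp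
    rw [← h2]
    exact mul_le_mul_of_nonneg_left h1 hB1.le
  obtain ⟨D, se, hDg, hDk, hDl, hS, hA, hcut, hNd, hCl, her, hCt, hsM, hlev, hVD⟩ :=
    hex l σ L hl0 hσ0 hL1
  obtain ⟨lm, hlm⟩ := hW D hS hA se hcut
  have i1 := hI D hS hA se lm hcut hlm
  have i2 := hII D hS hA se lm L hcut hlm hL1 hsM
  have i3 := hXMSIII P B β hβ D hS hA r hr2 (by rw [hDl]; linarith) hlev
  obtain ⟨J, hJ⟩ : ∃ J, J = jInf P.eps β D.Om D.vol (D.w P) (D.X P) (D.s2 P) := ⟨_, rfl⟩
  rw [← hJ] at i2 i3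
  rw [hPε] at i1 i2 i3
  rw [hDg, hDl] at i1
  have hthD : D.th = ∫ x in cAnn (l / 2) l, msz (k x) / l := by
    unfold DatX.th
    rw [hDk, hDl]
  rw [hthD] at i1
  -- the first inequality
  have hlm0 := hlm.nonneg
  have e2 : B1 * D.Nd P ≤ μ / 4 := (mul_le_mul_of_nonneg_left hNd hB1.le).trans hσB
  have e3 : B1 * D.er P se ≤ μ / 4 := (mul_le_mul_of_nonneg_left her hB1.le).trans hσB
  have e3' : B1 * D.Cl P ≤ μ / 4 := (mul_le_mul_of_nonneg_left hCl hB1.le).trans hσB
  have e4 : 8 * Real.pi * massIntegral g l * lm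
      ≤ 8 * Real.pi * m * lm + 8 * Real.pi * B3 * |massIntegral g l - m| := by
    have a1 : (massIntegral g l - m) * lm ≤ |massIntegral g l - m| * B3 :=
      mul_le_mul (le_abs_self _) hlm.le hlm0 (abs_nonneg _)
    have a2 := mul_le_mul_of_nonneg_left a1 (by positivity : (0 : ℝ) ≤ 8 * Real.pi)
    linarith
  have j1 : 4 * Real.pi * (2 - ε) ≤ 8 * Real.pi * m * lm + μ := by
    have : B1 * (l ^ (-(1 / 2 : ℝ)) + (∫ x in cAnn (l / 2) l, msz (k x) / l) + D.Nd P
        + D.Cl P + D.er P se) = B1 * (l ^ (-(1 / 2 : ℝ)) + ∫ x in cAnn (l / 2) l, msz (k x) / l)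
        + B1 * D.Nd P + B1 * D.Cl P + B1 * D.er P se := by ring
    linarith
  have hlmpos : 0 < lm := by
    rcases hlm0.lt_or_eq with h5 | h5
    · exact h5
    · exfalso
      rw [← h5, mul_zero, zero_add] at j1
      have := Real.pi_gt_three
      nlinarith
  refine ⟨lm, J, hlmpos, i3.1, by linarith, ?_, ?_⟩
  · have e5 : B2 * (1 / D.l + Real.exp (-(L / ε)))
        = B2 * (1 / l) + B2 * Real.exp (-(L / ε)) := by
      rw [hDl]
      ring
    linarith
  · intro s0 s1 A h1 h2 h3 h4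
    have h5 := i3.2 s0 s1 A h1 h2 h3 (by rw [hDg]; exact h4)
    have h6 : 0 ≤ ∫ x in cAnn 1 r, volDen D.g' x :=
      integral_nonneg fun x => Real.sqrt_nonneg _
    have h7 : 0 ≤ J * (Real.exp s1 - Real.exp s0) :=
      mul_nonneg i3.1 (sub_nonneg.mpr (Real.exp_le_exp.mpr h2.le))
    have h8 : 0 ≤ (J * (Real.exp s1 - Real.exp s0)) ^ (1 / (1 + ε)) := Real.rpow_nonneg h7 _
    have h9 : (∫ x in cAnn 1 r, volDen D.g' x) ^ (ε / (1 + ε)) ≤ V ^ (ε / (1 + ε)) :=
      Real.rpow_le_rpow h6 hVD (by positivity)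
    have h10 : 0 ≤ (∫ x in cAnn 1 r, volDen D.g' x) ^ (ε / (1 + ε)) := Real.rpow_nonneg h6 _
    refine h5.trans ?_
    have h11 : P.C * D.tau ≤ τ := hCt.trans hστ
    exact mul_le_mul (by linarith) (mul_le_mul_of_nonneg_left h9 h8) (mul_nonneg h8 h10)
      (by linarith)

end Pool.Agent.PFlow


end

section

set_option autoImplicit false

/-!
# XPERA: perimeter of the sublevel sets of a smooth function, exterior region
-/

open MeasureTheory Filter Topology
open scoped ContDiff ENNReal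

namespace Pool.Agent.PFlow

open Pool.Agent.PenroseSph

namespace XPERAaux

open PERAaux (ev_nonneg abs_le_len cd_det cont_pd prim prim_nonneg prim_le prim_ge prim_anti zt
  zt_deriv ar ar_nonneg isCompact_cAnn jj trap trap_cont trap_prim jj_nonneg chain)

/-! ### Smoothness -/

theorem cd_vol {g : TensorField} (hg : MetricOn {x : E3 | 1 < ‖x‖} g) {x : E3} (hx : 1 < ‖x‖) :
    ContDiffAt ℝ ∞ (volDen g) x := by
  have h1 : ∀ i j, ContDiffAt ℝ ∞ (fun y => g y i j) x := fun i j =>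
    (hg.smooth i j).contDiffAt ((isOpen_lt continuous_const continuous_norm).mem_nhds hx)
  exact (cd_det h1).sqrt (hg.posDef x hx).det_pos.ne'

theorem cd_inv {g : TensorField} (hg : MetricOn {x : E3 | 1 < ‖x‖} g) {x : E3} (hx : 1 < ‖x‖) (k l : Fin 3) :
    ContDiffAt ℝ ∞ (fun y => (g y)⁻¹ k l) x := by
  have h1 : ∀ i j, ContDiffAt ℝ ∞ (fun y => g y i j) x := fun i j =>
    (hg.smooth i j).contDiffAt ((isOpen_lt continuous_const continuous_norm).mem_nhds hx)
  have hd := cd_det h1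
  have ha : ContDiffAt ℝ ∞ (fun y => (g y).adjugate k l) x := by
    simp only [Matrix.adjugate_fin_three]
    fin_cases k <;> fin_cases l <;>
      simp <;> fun_prop
  have h2 : (fun y => (g y)⁻¹ k l) = fun y => ((g y).det)⁻¹ * (g y).adjugate k l := by
    funext y
    rw [Matrix.inv_def, Ring.inverse_eq_inv', Matrix.smul_apply, smul_eq_mul]
  rw [h2]
  exact (hd.inv (hg.posDef x hx).det_pos.ne').mul ha

theorem cont_len {g : TensorField} (hg : MetricOn {x : E3 | 1 < ‖x‖} g) {W : E3 → ℝ} (hW : ContDiff ℝ ∞ W)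
    {x : E3} (hx : 1 < ‖x‖) : ContinuousAt (fun y => len g y (grad W y) * volDen g y) x := by
  refine ContinuousAt.mul ?_ (cd_vol hg hx).continuousAt
  unfold len
  refine ContinuousAt.sqrt ?_
  unfold ev
  refine tendsto_finsetSum _ fun i _ => tendsto_finsetSum _ fun j _ => ?_
  exact (((cd_inv hg hx i j).continuousAt).mul (cont_pd hW i).continuousAt).mul
    (cont_pd hW j).continuousAt

/-! ### The field -/

section Field

variable {g : TensorField} {X : E3 → Cov}

theorem Y_smooth (hg : MetricOn {x : E3 | 1 < ‖x‖} g) (hX : TestFieldX g X) (i : Fin 3) :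
    ContDiff ℝ ∞ (fun y => volDen g y * X y i) := by
  rw [contDiff_iff_contDiffAt]
  intro x
  by_cases hx : x ∈ tsupport X
  · have hx0 : 1 < ‖x‖ := hX.outside hx
    exact (cd_vol hg hx0).mul (hX.smooth i).contDiffAt
  · have h1 : X =ᶠ[𝓝 x] 0 := by
      rwa [← notMem_tsupport_iff_eventuallyEq]
    have h2 : (fun y => volDen g y * X y i) =ᶠ[𝓝 x] fun _ => 0 := by
      filter_upwards [h1] with y hy
      rw [hy]
      simp
    exact contDiffAt_const.congr_of_eventuallyEq h2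

theorem Y_supp (hX : TestFieldX g X) (i : Fin 3) :
    HasCompactSupport (fun y => volDen g y * X y i) := by
  refine hX.compact.mono ?_
  intro x hx
  rw [Function.mem_support] at hx ⊢
  intro h
  apply hx
  rw [h]
  simp

theorem D_cont (hg : MetricOn {x : E3 | 1 < ‖x‖} g) (hX : TestFieldX g X) :
    Continuous (fun x => ∑ i, pd i (fun y => volDen g y * X y i) x) :=
  continuous_finsetSum _ fun i _ => cont_pd (Y_smooth hg hX i) i

theorem pdY_int (hg : MetricOn {x : E3 | 1 < ‖x‖} g) (hX : TestFieldX g X) (i : Fin 3) :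
    Integrable (pd i (fun y => volDen g y * X y i)) := by
  refine (cont_pd (Y_smooth hg hX i) i).integrable_of_hasCompactSupport ?_
  have h := (Y_supp hX i).fderiv (𝕜 := ℝ)
  refine h.mono ?_
  intro x hx
  rw [Function.mem_support] at hx ⊢
  intro h0
  apply hx
  unfold pd
  rw [h0]
  simp

theorem D_int (hg : MetricOn {x : E3 | 1 < ‖x‖} g) (hX : TestFieldX g X) :
    Integrable (fun x => ∑ i, pd i (fun y => volDen g y * X y i) x) :=
  integrable_finsetSum _ fun i _ => pdY_int hg hX i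

end Field

/-! ### The sublevel sets -/

/-- The sublevel set. -/
def Us (W : E3 → ℝ) (ρ r s : ℝ) : Set E3 := {x | ‖x‖ < ρ ∨ (‖x‖ < r ∧ W x < s)}

section Sub

variable {W : E3 → ℝ} {ρ r s₀ s₁ : ℝ}

theorem isOpen_Us (hW : Continuous W) (s : ℝ) : IsOpen (Us W ρ r s) := by
  have h1 : Us W ρ r s = {x | ‖x‖ < ρ} ∪ ({x | ‖x‖ < r} ∩ {x | W x < s}) := rfl
  rw [h1]
  exact (isOpen_lt continuous_norm continuous_const).union
    ((isOpen_lt continuous_norm continuous_const).inter (isOpen_lt hW continuous_const))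

theorem Us_mono {s t : ℝ} (h : s ≤ t) : Us W ρ r s ⊆ Us W ρ r t := fun _ hx =>
  hx.imp id fun h' => ⟨h'.1, h'.2.trans_le h⟩

theorem encloses_Us (hW : ContDiff ℝ ∞ W) (hρ : 1 < ρ) (hρr : ρ < r)
    (h0 : ∀ x ∈ cAnn ρ r, ‖x‖ = ρ → W x < s₀) (h1 : ∀ x ∈ cAnn ρ r, ‖x‖ = r → s₁ < W x)
    {s : ℝ} (hs0 : s₀ ≤ s) (hs1 : s ≤ s₁)
    (hreg : ∀ x ∈ cAnn ρ r, W x = s → fderiv ℝ W x ≠ 0) : Encloses (Us W ρ r s) where
  isOpen := isOpen_Us hW.continuous s
  contains := fun x hx => Or.inl (hx.trans_lt hρ)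
  bounded := ⟨r, fun x hx => hx.elim (fun h => h.trans hρr) fun h => h.1⟩
  smooth := by
    intro x hx
    have hcl : x ∈ closure (Us W ρ r s) := frontier_subset_closure hx
    have hnU : x ∉ Us W ρ r s := by
      intro h
      rw [frontier, (isOpen_Us hW.continuous s).interior_eq] at hx
      exact hx.2 h
    have hle : x ∈ {x : E3 | ‖x‖ ≤ ρ} ∪ ({x : E3 | ‖x‖ ≤ r} ∩ {x | W x ≤ s}) := by
      have hclosed : IsClosed ({x : E3 | ‖x‖ ≤ ρ} ∪ ({x : E3 | ‖x‖ ≤ r} ∩ {x | W x ≤ s})) :=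
        (isClosed_le continuous_norm continuous_const).union
          ((isClosed_le continuous_norm continuous_const).inter
            (isClosed_le hW.continuous continuous_const))
      refine closure_minimal ?_ hclosed hcl
      intro y hy
      rcases hy with h | h
      · exact Or.inl h.le
      · exact Or.inr ⟨h.1.le, h.2.le⟩
    have hnρ : ¬ ‖x‖ < ρ := fun h => hnU (Or.inl h)
    have hnρ' : ‖x‖ ≠ ρ := by
      intro h
      have h2 := h0 x ⟨h.ge, by rw [h]; exact hρr.le⟩ h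
      exact hnU (Or.inr ⟨by rw [h]; exact hρr, h2.trans_le hs0⟩)
    have hρx : ρ < ‖x‖ := lt_of_le_of_ne (not_lt.1 hnρ) (Ne.symm hnρ')
    rcases hle with hle | hle
    · exact absurd hle (not_le.2 hρx)
    have hxr : ‖x‖ < r := by
      refine lt_of_le_of_ne hle.1 ?_
      intro h
      have h2 := h1 x ⟨hρx.le, h.le⟩ h
      exact absurd hle.2 (not_le.2 (hs1.trans_lt h2))
    have hWs : W x = s := by
      refine le_antisymm hle.2 ?_
      by_contra h
      exact hnU (Or.inr ⟨hxr, not_le.1 h⟩)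
    refine ⟨fun y => W y - s, (hW.sub contDiff_const).contDiffAt, ?_, ?_⟩
    · rw [fderiv_sub_const]
      exact hreg x ⟨hρx.le, hxr.le⟩ hWs
    · have e1 : ∀ᶠ y : E3 in 𝓝 x, ρ < ‖y‖ :=
        (isOpen_lt continuous_const continuous_norm).mem_nhds hρx
      have e2 : ∀ᶠ y : E3 in 𝓝 x, ‖y‖ < r :=
        (isOpen_lt continuous_norm continuous_const).mem_nhds hxr
      filter_upwards [e1, e2] with y hy1 hy2
      constructor
      · intro hy
        rcases hy with h | h
        · exact absurd h (not_lt.2 hy1.le)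
        · linarith [h.2]
      · intro hy
        refine Or.inr ⟨hy2, ?_⟩
        linarith

end Sub

theorem ar_int {g : TensorField} (hg : MetricOn {x : E3 | 1 < ‖x‖} g) {W : E3 → ℝ} (hW : ContDiff ℝ ∞ W)
    {ρ r : ℝ} (hρ : 1 < ρ) : IntegrableOn (ar g W) (cAnn ρ r) := by
  refine ContinuousOn.integrableOn_compact (isCompact_cAnn ρ r) (fun x hx => ?_)
  exact (cont_len hg hW (hρ.trans_le hx.1)).continuousWithinAt

/-- The main estimate: the flux of the test field. -/
theorem flux_le {g : TensorField} (hg : MetricOn {x : E3 | 1 < ‖x‖} g) {W : E3 → ℝ} (hW : ContDiff ℝ ∞ W)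
    {X : E3 → Cov} (hX : TestFieldX g X) {φ : ℝ → ℝ} {ρ r a b : ℝ} (hρ : 1 < ρ) (hρr : ρ < r)
    (hφ : Continuous φ) (hφ0 : ∀ t, 0 ≤ φ t) (hφ1 : ∀ t, φ t ≤ 1)
    (hza : ∀ t, t ≤ a → φ t = 0) (hzb : ∀ t, b ≤ t → φ t = 0)
    (h0 : ∀ x : E3, ‖x‖ = ρ → W x < a) (h1 : ∀ x : E3, ‖x‖ = r → b < W x) :
    ∫ x, zt W φ ρ r a b x * ∑ i, pd i (fun y => volDen g y * X y i) x
      ≤ ∫ x in cAnn ρ r ∩ {x | a ≤ W x ∧ W x < b}, ar g W x := by
  classical
  have hA := isCompact_cAnn ρ r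
  have hAm : MeasurableSet (cAnn ρ r) := hA.measurableSet
  have hzd := fun x => zt_deriv hW hφ hza hzb hρr h0 h1 x
  have hzdiff : ∀ x, DifferentiableAt ℝ (zt W φ ρ r a b) x := fun x => (hzd x).differentiableAt
  have hzc : Continuous (zt W φ ρ r a b) := by
    rw [continuous_iff_continuousAt]
    exact fun x => (hzdiff x).continuousAt
  have hpd : ∀ i x, fderiv ℝ (zt W φ ρ r a b) x (EuclideanSpace.single i 1)
      = (cAnn ρ r).indicator (fun x => -(φ (W x) * pd i W x)) x := by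
    intro i x
    rw [(hzd x).fderiv]
    by_cases hx : x ∈ cAnn ρ r
    · rw [if_pos hx, Set.indicator_of_mem hx]
      simp [pd]
    · rw [if_neg hx, Set.indicator_of_notMem hx]
      simp
  have hYc : ∀ i, Continuous (fun y => volDen g y * X y i) := fun i => (Y_smooth hg hX i).continuous
  -- integration by parts
  have hibp : ∀ i, ∫ x, zt W φ ρ r a b x * pd i (fun y => volDen g y * X y i) x
      = ∫ x in cAnn ρ r, φ (W x) * pd i W x * (volDen g x * X x i) := by
    intro i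
    have i1 : Integrable (fun x => fderiv ℝ (zt W φ ρ r a b) x (EuclideanSpace.single i 1)
        * (volDen g x * X x i)) := by
      have h2 : (fun x => fderiv ℝ (zt W φ ρ r a b) x (EuclideanSpace.single i 1)
          * (volDen g x * X x i)) = (cAnn ρ r).indicator
            (fun x => -(φ (W x) * pd i W x) * (volDen g x * X x i)) := by
        funext x
        rw [hpd i x]
        by_cases hx : x ∈ cAnn ρ r
        · rw [Set.indicator_of_mem hx, Set.indicator_of_mem hx]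
        · rw [Set.indicator_of_notMem hx, Set.indicator_of_notMem hx, zero_mul]
      rw [h2]
      refine Integrable.indicator ?_ hAm
      refine Continuous.integrable_of_hasCompactSupport ?_ (Y_supp hX i).mul_left
      exact (((hφ.comp hW.continuous).mul (cont_pd hW i)).neg).mul (hYc i)
    have i2 : Integrable (fun x => zt W φ ρ r a b x
        * fderiv ℝ (fun y => volDen g y * X y i) x (EuclideanSpace.single i 1)) := by
      refine Continuous.integrable_of_hasCompactSupport ?_ ?_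
      · exact hzc.mul (cont_pd (Y_smooth hg hX i) i)
      · refine HasCompactSupport.mul_left ?_
        have h := (Y_supp hX i).fderiv (𝕜 := ℝ)
        refine h.mono ?_
        intro x hx
        rw [Function.mem_support] at hx ⊢
        intro h0
        apply hx
        rw [h0]
        simp
    have i3 : Integrable (fun x => zt W φ ρ r a b x * (volDen g x * X x i)) :=
      Continuous.integrable_of_hasCompactSupport (hzc.mul (hYc i)) (Y_supp hX i).mul_left
    have h3 := integral_mul_fderiv_eq_neg_fderiv_mul_of_integrable i1 i2 i3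
      (fun x _ => hzdiff x)
      (fun x _ => ((Y_smooth hg hX i).differentiable (by simp)).differentiableAt)
    have h4 : ∫ x, zt W φ ρ r a b x * pd i (fun y => volDen g y * X y i) x
        = -∫ x, fderiv ℝ (zt W φ ρ r a b) x (EuclideanSpace.single i 1)
        * (volDen g x * X x i) := h3
    rw [h4, ← integral_neg, ← integral_indicator hAm]
    refine integral_congr_ae (Eventually.of_forall fun x => ?_)
    simp only
    rw [hpd i x]
    by_cases hx : x ∈ cAnn ρ r
    · rw [Set.indicator_of_mem hx, Set.indicator_of_mem hx]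
      ring
    · rw [Set.indicator_of_notMem hx, Set.indicator_of_notMem hx]
      ring
  have hint : ∀ i, Integrable (fun x => zt W φ ρ r a b x
      * pd i (fun y => volDen g y * X y i) x) := by
    intro i
    refine Continuous.integrable_of_hasCompactSupport (hzc.mul (cont_pd (Y_smooth hg hX i) i)) ?_
    refine HasCompactSupport.mul_left ?_
    have h := (Y_supp hX i).fderiv (𝕜 := ℝ)
    refine h.mono ?_
    intro x hx
    rw [Function.mem_support] at hx ⊢
    intro h0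
    apply hx
    unfold pd
    rw [h0]
    simp
  have hint2 : ∀ i, IntegrableOn (fun x => φ (W x) * pd i W x * (volDen g x * X x i))
      (cAnn ρ r) := by
    intro i
    exact (((hφ.comp hW.continuous).mul (cont_pd hW i)).mul (hYc i)).continuousOn.integrableOn_compact
      hA
  have hsum : ∫ x, zt W φ ρ r a b x * ∑ i, pd i (fun y => volDen g y * X y i) x
      = ∫ x in cAnn ρ r, ∑ i, φ (W x) * pd i W x * (volDen g x * X x i) := by
    rw [integral_finsetSum _ (fun i _ => hint2 i)]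
    rw [← Finset.sum_congr rfl (fun i _ => hibp i), ← integral_finsetSum _ (fun i _ => hint i)]
    refine integral_congr_ae (Eventually.of_forall fun x => ?_)
    simp only
    rw [Finset.mul_sum]
  rw [hsum]
  have hBm : MeasurableSet {x | a ≤ W x ∧ W x < b} :=
    (measurableSet_le measurable_const hW.continuous.measurable).inter
      (measurableSet_lt hW.continuous.measurable measurable_const)
  have e2 : ∫ x in cAnn ρ r ∩ {x | a ≤ W x ∧ W x < b}, ar g W x
      = ∫ x in cAnn ρ r, {x | a ≤ W x ∧ W x < b}.indicator (ar g W) x := by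
    rw [setIntegral_indicator hBm]
  rw [e2]
  refine setIntegral_mono_on (integrable_finsetSum _ fun i _ => hint2 i)
    ((ar_int hg hW hρ).indicator hBm) hAm fun x hx => ?_
  have hx0 : 1 < ‖x‖ := hρ.trans_le hx.1
  have e3 : ∑ i, φ (W x) * pd i W x * (volDen g x * X x i)
      = φ (W x) * volDen g x * ∑ i, grad W x i * X x i := by
    rw [Finset.mul_sum]
    refine Finset.sum_congr rfl fun i _ => ?_
    unfold grad
    ring
  rw [e3]
  have hv : 0 ≤ volDen g x := Real.sqrt_nonneg _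
  by_cases hab : a ≤ W x ∧ W x < b
  · rw [Set.indicator_of_mem (show x ∈ {x | a ≤ W x ∧ W x < b} from hab)]
    have h5 : ∑ i, grad W x i * X x i ≤ len g x (grad W x) :=
      (le_abs_self _).trans (abs_le_len (hg.posDef x hx0) _ _ (hX.short x hx0))
    have h6 : 0 ≤ len g x (grad W x) := Real.sqrt_nonneg _
    calc φ (W x) * volDen g x * ∑ i, grad W x i * X x i
        ≤ φ (W x) * volDen g x * len g x (grad W x) :=
          mul_le_mul_of_nonneg_left h5 (mul_nonneg (hφ0 _) hv)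
      _ ≤ 1 * volDen g x * len g x (grad W x) := by
          refine mul_le_mul_of_nonneg_right (mul_le_mul_of_nonneg_right (hφ1 _) hv) h6
      _ = ar g W x := by unfold ar; ring
  · rw [Set.indicator_of_notMem (show x ∉ {x | a ≤ W x ∧ W x < b} from hab)]
    have h7 : φ (W x) = 0 := by
      rcases lt_or_ge (W x) a with h | h
      · exact hza _ h.le
      · exact hzb _ (not_lt.1 fun h' => hab ⟨h, h'⟩)
    rw [h7]
    simp

/-- The local estimate. -/
theorem local_left {g : TensorField} (hg : MetricOn {x : E3 | 1 < ‖x‖} g) {W : E3 → ℝ} (hW : ContDiff ℝ ∞ W)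
    {X : E3 → Cov} (hX : TestFieldX g X) {ρ r s₀ s₁ s A' : ℝ} (hρ : 1 < ρ) (hρr : ρ < r)
    (h0 : ∀ x : E3, ‖x‖ = ρ → W x < s₀) (h1 : ∀ x : E3, ‖x‖ = r → s₁ < W x) (hs0 : s₀ < s)
    (hs1 : s ≤ s₁) (hA0 : 0 ≤ A')
    (hA : A' < ∫ x in Us W ρ r s, ∑ i, pd i (fun y => volDen g y * X y i) x) :
    ∃ t, s₀ ≤ t ∧ t < s ∧ ∀ a, t ≤ a → a < s → A' * (s - a) ≤ jj g W ρ r a s := by
  have hDc := D_cont hg hX
  have hDi := D_int hg hX
  set D : E3 → ℝ := fun x => ∑ i, pd i (fun y => volDen g y * X y i) x with hD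
  have hUm : ∀ t, MeasurableSet (Us W ρ r t) := fun t => (isOpen_Us hW.continuous t).measurableSet
  -- the sets shrink to the empty set
  set T : ℕ → Set E3 := fun n => Us W ρ r s \ Us W ρ r (s - 1 / ((n : ℝ) + 1)) with hT
  have hTm : ∀ n, MeasurableSet (T n) := fun n => (hUm _).diff (hUm _)
  have hTa : Antitone T := by
    intro m n hmn
    refine Set.sdiff_subset_sdiff_right (Us_mono ?_)
    have h2 : 1 / ((n : ℝ) + 1) ≤ 1 / ((m : ℝ) + 1) :=
      one_div_le_one_div_of_le (by positivity) (by exact_mod_cast Nat.succ_le_succ hmn)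
    linarith
  have hTi : ⋂ n, T n = ∅ := by
    rw [Set.eq_empty_iff_forall_notMem]
    intro x hx
    rw [Set.mem_iInter] at hx
    have hx0 := hx 0
    rcases hx0.1 with h | h
    · exact hx0.2 (Or.inl h)
    · obtain ⟨n, hn⟩ := exists_nat_one_div_lt (sub_pos.2 h.2)
      refine (hx n).2 (Or.inr ⟨h.1, ?_⟩)
      linarith
  have hlim := tendsto_setIntegral_of_antitone (μ := volume) hTm hTa
    ⟨0, (hDi.norm.integrableOn (s := T 0))⟩
  rw [hTi, Measure.restrict_empty, integral_zero_measure] at hlim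
  have hgap : 0 < (∫ x in Us W ρ r s, D x) - A' := sub_pos.2 hA
  obtain ⟨n, hn⟩ := (hlim.eventually (gt_mem_nhds hgap)).exists
  have hnp : (0 : ℝ) < 1 / ((n : ℝ) + 1) := by positivity
  refine ⟨max s₀ (s - 1 / ((n : ℝ) + 1)), le_max_left _ _, max_lt hs0 (by linarith), ?_⟩
  intro a ha has
  have ha0 : s₀ ≤ a := (le_max_left _ _).trans ha
  have han : s - 1 / ((n : ℝ) + 1) ≤ a := (le_max_right _ _).trans ha
  refine le_of_forall_pos_le_add fun ε hε => ?_
  set κ : ℝ := min ((s - a) / 4) (ε / (2 * (A' + 1))) with hκ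
  have hκ0 : 0 < κ := lt_min (by linarith) (by positivity)
  have hκ1 : κ ≤ (s - a) / 4 := min_le_left _ _
  have hκ2 : κ ≤ ε / (2 * (A' + 1)) := min_le_right _ _
  have hφ0 : ∀ t, 0 ≤ trap a s κ t := fun t => le_max_left _ _
  have hφ1 : ∀ t, trap a s κ t ≤ 1 := fun t => max_le zero_le_one (min_le_left _ _)
  have hza : ∀ t, t ≤ a → trap a s κ t = 0 := by
    intro t ht
    unfold trap
    refine max_eq_left ((min_le_right _ _).trans ((min_le_left _ _).trans ?_))
    exact div_nonpos_of_nonpos_of_nonneg (by linarith) hκ0.le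
  have hzb : ∀ t, s ≤ t → trap a s κ t = 0 := by
    intro t ht
    unfold trap
    refine max_eq_left ((min_le_right _ _).trans ((min_le_right _ _).trans ?_))
    exact div_nonpos_of_nonpos_of_nonneg (by linarith) hκ0.le
  have hc := trap_cont a s κ
  have hfl := flux_le hg hW hX hρ hρr hc hφ0 hφ1 hza hzb
    (fun x hx => (h0 x hx).trans_le ha0) (fun x hx => hs1.trans_lt (h1 x hx))
  set I : ℝ := prim (trap a s κ) s a with hI
  have hI0 : 0 ≤ I := prim_nonneg hφ0 hzb a
  have hI1 : s - a - 2 * κ ≤ I := trap_prim hκ0 (by linarith)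
  -- lower bound of the integral
  have hlow : I * A' ≤ ∫ x, zt W (trap a s κ) ρ r a s x * D x := by
    have b1 : I * A' ≤ I * ((∫ x in Us W ρ r s, D x) - ∫ x in T n, ‖D x‖) := by
      refine mul_le_mul_of_nonneg_left ?_ hI0
      linarith
    have b2 : I * ((∫ x in Us W ρ r s, D x) - ∫ x in T n, ‖D x‖)
        = ∫ x, (I * (Us W ρ r s).indicator D x - I * (T n).indicator (fun x => ‖D x‖) x) := by
      rw [integral_sub ((hDi.indicator (hUm s)).const_mul I)
        ((hDi.norm.indicator (hTm n)).const_mul I), integral_const_mul, integral_const_mul,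
        integral_indicator (hUm s), integral_indicator (hTm n)]
      ring
    rw [b2] at b1
    refine b1.trans ?_
    have hzd := fun x => zt_deriv hW hc hza hzb hρr
      (fun x hx => (h0 x hx).trans_le ha0) (fun x hx => hs1.trans_lt (h1 x hx)) x
    have hzc : Continuous (zt W (trap a s κ) ρ r a s) := by
      classical
      rw [continuous_iff_continuousAt]
      exact fun x => (hzd x).differentiableAt.continuousAt
    have hDcs : HasCompactSupport D := by
      have h2 : ∀ i, HasCompactSupport (fun x => pd i (fun y => volDen g y * X y i) x) := by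
        intro i
        have h := (Y_supp hX i).fderiv (𝕜 := ℝ)
        refine h.mono ?_
        intro x hx
        rw [Function.mem_support] at hx ⊢
        intro h0
        apply hx
        unfold pd
        rw [h0]
        simp
      have h3 : D = fun x => pd 0 (fun y => volDen g y * X y 0) x
          + pd 1 (fun y => volDen g y * X y 1) x + pd 2 (fun y => volDen g y * X y 2) x := by
        funext x
        rw [hD]
        simp only [Fin.sum_univ_three]
      rw [h3]
      exact ((h2 0).add (h2 1)).add (h2 2)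
    refine integral_mono_ae (((hDi.indicator (hUm s)).const_mul I).sub
      ((hDi.norm.indicator (hTm n)).const_mul I))
      ((hzc.mul hDc).integrable_of_hasCompactSupport hDcs.mul_left) ?_
    refine Eventually.of_forall fun x => ?_
    simp only
    have hzz : 0 ≤ zt W (trap a s κ) ρ r a s x ∧ zt W (trap a s κ) ρ r a s x ≤ I := by
      unfold zt
      split_ifs with c1 c2
      · exact ⟨hI0, le_rfl⟩
      · refine ⟨prim_nonneg hφ0 hzb _, ?_⟩
        rcases le_total (W x) a with h | h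
        · rw [prim_le hc hza h]
        · exact prim_anti hc hφ0 h
      · exact ⟨le_rfl, hI0⟩
    by_cases hxs : x ∈ Us W ρ r s
    · rw [Set.indicator_of_mem hxs]
      by_cases hxa : x ∈ Us W ρ r a
      · have e : zt W (trap a s κ) ρ r a s x = I := by
          unfold zt
          rcases hxa with h | h
          · rw [if_pos h]
          · split_ifs with c1 c2
            · rfl
            · exact prim_le hc hza h.2.le
            · exact absurd h.1 c2
        rw [e]
        have h2 : 0 ≤ I * (T n).indicator (fun x => ‖D x‖) x :=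
          mul_nonneg hI0 (Set.indicator_nonneg (fun _ _ => norm_nonneg _) _)
        linarith
      · have hxT : x ∈ T n := ⟨hxs, fun h => hxa (Us_mono han h)⟩
        rw [Set.indicator_of_mem hxT]
        have h2 : -|D x| ≤ D x := neg_abs_le _
        have h3 : D x ≤ |D x| := le_abs_self _
        have h4 : I * D x - I * ‖D x‖ ≤ zt W (trap a s κ) ρ r a s x * D x := by
          rw [Real.norm_eq_abs]
          rcases le_total 0 (D x) with h | h
          · rw [abs_of_nonneg h]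
            have := mul_nonneg hzz.1 h
            linarith
          · rw [abs_of_nonpos h]
            nlinarith [mul_le_mul_of_nonpos_right hzz.2 h, mul_nonneg hI0 (neg_nonneg.2 h)]
        exact h4
    · rw [Set.indicator_of_notMem hxs]
      have hxT : x ∉ T n := fun h => hxs h.1
      rw [Set.indicator_of_notMem hxT]
      have e : zt W (trap a s κ) ρ r a s x = 0 := by
        unfold zt
        split_ifs with c1 c2
        · exact absurd (Or.inl c1) hxs
        · refine prim_ge hzb ?_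
          by_contra h
          exact hxs (Or.inr ⟨c2, not_le.1 h⟩)
        · rfl
      rw [e]
      simp
  have hJ : I * A' ≤ jj g W ρ r a s := hlow.trans hfl
  have hA1 : (s - a - 2 * κ) * A' ≤ I * A' := mul_le_mul_of_nonneg_right hI1 hA0
  have hA2 : 2 * κ * A' ≤ ε := by
    have h2 : 2 * κ * A' ≤ 2 * (ε / (2 * (A' + 1))) * A' := by
      refine mul_le_mul_of_nonneg_right ?_ hA0
      linarith
    have h3 : 2 * (ε / (2 * (A' + 1))) * A' = ε * (A' / (A' + 1)) := by
      field_simp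
    have h4 : A' / (A' + 1) ≤ 1 := by
      rw [div_le_one (by linarith)]
      linarith
    have h5 : ε * (A' / (A' + 1)) ≤ ε * 1 := mul_le_mul_of_nonneg_left h4 hε.le
    linarith
  nlinarith

theorem jj_add {g : TensorField} (hg : MetricOn {x : E3 | 1 < ‖x‖} g) {W : E3 → ℝ} (hW : ContDiff ℝ ∞ W)
    {ρ r a b c : ℝ} (hρ : 1 < ρ) (hab : a ≤ b) (hbc : b ≤ c) :
    jj g W ρ r a c = jj g W ρ r a b + jj g W ρ r b c := by
  have hAm : MeasurableSet (cAnn ρ r) := (isCompact_cAnn ρ r).measurableSet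
  have hBm : ∀ a b : ℝ, MeasurableSet {x | a ≤ W x ∧ W x < b} := fun a b =>
    (measurableSet_le measurable_const hW.continuous.measurable).inter
      (measurableSet_lt hW.continuous.measurable measurable_const)
  unfold jj
  have h1 : cAnn ρ r ∩ {x | a ≤ W x ∧ W x < c}
      = (cAnn ρ r ∩ {x | a ≤ W x ∧ W x < b}) ∪ (cAnn ρ r ∩ {x | b ≤ W x ∧ W x < c}) := by
    ext x
    constructor
    · rintro ⟨h2, h3, h4⟩
      rcases lt_or_ge (W x) b with h | h
      · exact Or.inl ⟨h2, h3, h⟩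
      · exact Or.inr ⟨h2, h, h4⟩
    · rintro (⟨h2, h3, h4⟩ | ⟨h2, h3, h4⟩)
      · exact ⟨h2, h3, h4.trans_le hbc⟩
      · exact ⟨h2, hab.trans h3, h4⟩
  rw [h1]
  refine setIntegral_union ?_ (hAm.inter (hBm b c)) ((ar_int hg hW hρ).mono_set
    Set.inter_subset_left) ((ar_int hg hW hρ).mono_set Set.inter_subset_left)
  rw [Set.disjoint_left]
  intro x hx hx'
  exact absurd hx'.2.1 (not_le.2 hx.2.2)

end XPERAaux

open PERAaux (ar_nonneg isCompact_cAnn jj jj_nonneg chain)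
open XPERAaux

/-- XPERA: perimeter of the sublevel sets of a smooth function. -/
theorem XPERA : Stmt_XPERA := by
  intro g W ρ r s₀ s₁ hg hρ hρr hs hW h0 h1 hfin A hA
  have h0' : ∀ x : E3, ‖x‖ = ρ → W x < s₀ := fun x hx =>
    h0 x ⟨hx.ge, by rw [hx]; exact hρr.le⟩ hx
  have h1' : ∀ x : E3, ‖x‖ = r → s₁ < W x := fun x hx =>
    h1 x ⟨by rw [hx]; exact hρr.le, hx.le⟩ hx
  have hRHS : 0 ≤ ∫ x in cAnn ρ r ∩ {x | s₀ ≤ W x ∧ W x ≤ s₁}, len g x (grad W x) * volDen g x :=
    integral_nonneg fun x => ar_nonneg g W x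
  have hAm : MeasurableSet (cAnn ρ r) := (isCompact_cAnn ρ r).measurableSet
  have hJR : jj g W ρ r s₀ s₁
      ≤ ∫ x in cAnn ρ r ∩ {x | s₀ ≤ W x ∧ W x ≤ s₁}, len g x (grad W x) * volDen g x := by
    unfold jj
    refine setIntegral_mono_set ((ar_int hg hW hρ).mono_set Set.inter_subset_left)
      (Eventually.of_forall fun x => ar_nonneg g W x) ?_
    refine (HasSubset.Subset.eventuallyLE ?_)
    exact Set.inter_subset_inter_right _ fun x hx => ⟨hx.1, hx.2.le⟩
  rcases le_or_gt A 0 with hA0 | hA0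
  · have : A * (s₁ - s₀) ≤ 0 := mul_nonpos_of_nonpos_of_nonneg hA0 (by linarith)
    linarith
  by_contra hcon
  rw [not_le] at hcon
  set R : ℝ := ∫ x in cAnn ρ r ∩ {x | s₀ ≤ W x ∧ W x ≤ s₁}, len g x (grad W x) * volDen g x
    with hR
  have hd : 0 < s₁ - s₀ := sub_pos.2 hs
  set A' : ℝ := (A + R / (s₁ - s₀)) / 2 with hA'
  have hq : R / (s₁ - s₀) < A := by
    rw [div_lt_iff₀ hd]
    exact hcon
  have hq0 : 0 ≤ R / (s₁ - s₀) := div_nonneg hRHS hd.le
  have hA'0 : 0 ≤ A' := by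
    rw [hA']
    linarith
  have hA'A : A' < A := by
    rw [hA']
    linarith
  have hch : A' * (s₁ - s₀) ≤ jj g W ρ r s₀ s₁ := by
    refine chain hs.le hA'0 (fun a b => jj_nonneg g W ρ r a b)
      (fun a b c hab hbc => jj_add hg hW hρ hab hbc) hfin ?_
    intro s hs0 hs1 hsC
    have hreg : ∀ x ∈ cAnn ρ r, W x = s → fderiv ℝ W x ≠ 0 := fun x hx hxs hd0 =>
      hsC ⟨hs0.le, hs1, x, hx, hxs, hd0⟩
    have hsep := encloses_Us hW hρ hρr h0 h1 hs0.le hs1 hreg
    have hlt : ENNReal.ofReal A' < perimeterX g (Us W ρ r s) :=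
      lt_of_lt_of_le ((ENNReal.ofReal_lt_ofReal_iff_of_nonneg hA'0).2 hA'A) (hA _ hsep)
    unfold perimeterX at hlt
    rw [lt_iSup_iff] at hlt
    obtain ⟨X, hlt⟩ := hlt
    rw [lt_iSup_iff] at hlt
    obtain ⟨hX, hlt⟩ := hlt
    rw [ENNReal.ofReal_lt_ofReal_iff_of_nonneg hA'0] at hlt
    obtain ⟨t, ht0, hts, ht⟩ := local_left hg hW hX hρ hρr h0' h1' hs0 hs1 hA'0 hlt
    exact ⟨t, ht0, hts, ht t le_rfl hts⟩
  have h5 : A' * (s₁ - s₀) = (A * (s₁ - s₀) + R) / 2 := by
    rw [hA']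
    field_simp
  linarith

end Pool.Agent.PFlow


end

section

/-!
XPHI: the profile of the collar.
-/

open MeasureTheory Filter Topology
open scoped ContDiff ENNReal

namespace Pool.Agent.PFlow

open Pool.Agent.PenroseSph

namespace XPHI

/-- The smooth transition. -/
noncomputable abbrev S : ℝ → ℝ := Real.smoothTransition

theorem S_smooth : ContDiff ℝ ∞ S := Real.smoothTransition.contDiff

theorem S_symm (x : ℝ) : S x + S (1 - x) = 1 := by
  have h1 := Real.smoothTransition.pos_denom x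
  show expNegInvGlue x / (expNegInvGlue x + expNegInvGlue (1 - x)) +
    expNegInvGlue (1 - x) / (expNegInvGlue (1 - x) + expNegInvGlue (1 - (1 - x))) = 1
  rw [show 1 - (1 - x) = x by ring, add_comm (expNegInvGlue (1 - x)) (expNegInvGlue x),
    ← add_div, div_self h1.ne']

theorem deriv_smooth {f : ℝ → ℝ} (hf : ContDiff ℝ ∞ f) : ContDiff ℝ ∞ (deriv f) :=
  (contDiff_infty_iff_deriv.mp hf).2

theorem hasDeriv {f : ℝ → ℝ} (hf : ContDiff ℝ ∞ f) (x : ℝ) : HasDerivAt f (deriv f x) x :=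
  ((contDiff_infty_iff_deriv.mp hf).1 x).hasDerivAt

theorem hcomp {f g : ℝ → ℝ} {f' g' t : ℝ} (hf : HasDerivAt f f' (g t)) (hg : HasDerivAt g g' t) :
    HasDerivAt (fun t => f (g t)) (f' * g') t := HasDerivAt.comp t hf hg

theorem deriv_le {f : ℝ → ℝ} (hf : ContDiff ℝ ∞ f) {a c : ℝ} (h : ∀ x ≤ a, f x = c) :
    ∀ x ≤ a, deriv f x = 0 := by
  intro x hx
  have h1 : HasDerivWithinAt f (deriv f x) (Set.Iic a) x := (hasDeriv hf x).hasDerivWithinAt
  have h2 : HasDerivWithinAt f 0 (Set.Iic a) x :=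
    (hasDerivWithinAt_const x (Set.Iic a) c).congr (fun y hy => h y hy) (h x hx)
  exact (uniqueDiffOn_Iic a x hx).eq_deriv _ h1 h2

theorem deriv_ge {f : ℝ → ℝ} (hf : ContDiff ℝ ∞ f) {a c : ℝ} (h : ∀ x, a ≤ x → f x = c) :
    ∀ x, a ≤ x → deriv f x = 0 := by
  intro x hx
  have h1 : HasDerivWithinAt f (deriv f x) (Set.Ici a) x := (hasDeriv hf x).hasDerivWithinAt
  have h2 : HasDerivWithinAt f 0 (Set.Ici a) x :=
    (hasDerivWithinAt_const x (Set.Ici a) c).congr (fun y hy => h y hy) (h x hx)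
  exact (uniqueDiffOn_Ici a x hx).eq_deriv _ h1 h2

theorem exists_bound {f : ℝ → ℝ} (hf : ContDiff ℝ ∞ f) (h0 : ∀ x ≤ 0, f x = 0)
    (h1 : ∀ x, 1 ≤ x → f x = 0) : ∃ M : ℝ, 0 ≤ M ∧ ∀ x, |f x| ≤ M := by
  obtain ⟨M, hM⟩ := (isCompact_Icc (a := (0 : ℝ)) (b := 1)).exists_bound_of_continuousOn
    hf.continuous.continuousOn
  refine ⟨max M 0, le_max_right _ _, fun x => ?_⟩
  by_cases hx0 : x ≤ 0
  · rw [h0 x hx0, abs_zero]
    exact le_max_right _ _
  · by_cases hx1 : 1 ≤ x
    · rw [h1 x hx1, abs_zero]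
      exact le_max_right _ _
    · exact (hM x ⟨(not_le.mp hx0).le, (not_le.mp hx1).le⟩).trans (le_max_left _ _)

/-- The first derivative of the smooth transition. -/
noncomputable abbrev S1 : ℝ → ℝ := deriv S
/-- The second derivative of the smooth transition. -/
noncomputable abbrev S2 : ℝ → ℝ := deriv S1
/-- The third derivative of the smooth transition. -/
noncomputable abbrev S3 : ℝ → ℝ := deriv S2

theorem S1_smooth : ContDiff ℝ ∞ S1 := deriv_smooth S_smooth
theorem S2_smooth : ContDiff ℝ ∞ S2 := deriv_smooth S1_smooth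
theorem S3_smooth : ContDiff ℝ ∞ S3 := deriv_smooth S2_smooth

theorem S_le : ∀ x ≤ 0, S x = 0 := fun _ hx => Real.smoothTransition.zero_of_nonpos hx
theorem S_ge : ∀ x, 1 ≤ x → S x = 1 := fun _ hx => Real.smoothTransition.one_of_one_le hx
theorem S1_le : ∀ x ≤ 0, S1 x = 0 := deriv_le S_smooth S_le
theorem S1_ge : ∀ x, 1 ≤ x → S1 x = 0 := deriv_ge S_smooth S_ge
theorem S2_le : ∀ x ≤ 0, S2 x = 0 := deriv_le S1_smooth S1_le
theorem S2_ge : ∀ x, 1 ≤ x → S2 x = 0 := deriv_ge S1_smooth S1_ge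
theorem S3_le : ∀ x ≤ 0, S3 x = 0 := deriv_le S2_smooth S2_le
theorem S3_ge : ∀ x, 1 ≤ x → S3 x = 0 := deriv_ge S2_smooth S2_ge

theorem S1_nonneg (x : ℝ) : 0 ≤ S1 x := Real.smoothTransition.monotone.deriv_nonneg

/-- The integrand of `thX`. -/
theorem cont_int : Continuous fun v : ℝ => S (2 * v - 1) :=
  S_smooth.continuous.comp (by fun_prop)

theorem hasDerivAt_th (s : ℝ) : HasDerivAt thX (S (2 * s - 1)) s := by
  have h := intervalIntegral.integral_hasDerivAt_right (a := 0) (b := s)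
    (cont_int.intervalIntegrable _ _) (cont_int.stronglyMeasurableAtFilter _ _) cont_int.continuousAt
  exact h

theorem deriv_th : deriv thX = fun s => S (2 * s - 1) := by
  funext s
  exact (hasDerivAt_th s).deriv

theorem th_smooth : ContDiff ℝ ∞ thX := by
  rw [contDiff_infty_iff_deriv, deriv_th]
  exact ⟨fun s => (hasDerivAt_th s).differentiableAt, S_smooth.comp (by fun_prop)⟩

theorem th_zero : thX 0 = 0 := by
  unfold thX
  rw [intervalIntegral.integral_same]

theorem th_le (s : ℝ) (hs : s ≤ 1 / 2) : thX s = 0 := by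
  have h1 : ∀ x ≤ (1 / 2 : ℝ), deriv thX x = 0 := by
    intro x hx
    rw [deriv_th]
    exact S_le _ (by linarith)
  rcases le_total 0 s with h0 | h0
  · have h2 : thX s - thX 0 = ∫ v in (0 : ℝ)..s, S (2 * v - 1) := by
      rw [th_zero, sub_zero]
      rfl
    rw [th_zero, sub_zero] at h2
    rw [h2]
    have h3 : Set.EqOn (fun v : ℝ => S (2 * v - 1)) (fun _ => 0) (Set.uIcc 0 s) := by
      intro v hv
      rw [Set.uIcc_of_le h0] at hv
      exact S_le _ (by linarith [hv.2])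
    rw [intervalIntegral.integral_congr h3]
    simp
  · unfold thX
    have h3 : Set.EqOn (fun v : ℝ => S (2 * v - 1)) (fun _ => 0) (Set.uIcc 0 s) := by
      intro v hv
      rw [Set.uIcc_of_ge h0] at hv
      exact S_le _ (by linarith [hv.2])
    rw [intervalIntegral.integral_congr h3]
    simp

theorem int_S : ∫ v in (0 : ℝ)..1, S v = 1 / 2 := by
  have h1 : ∫ v in (0 : ℝ)..1, S (1 - v) = ∫ v in (0 : ℝ)..1, S v := by
    rw [intervalIntegral.integral_comp_sub_left (a := 0) (b := 1) S 1, sub_self, sub_zero]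
  have h2 : (∫ v in (0 : ℝ)..1, S v) + ∫ v in (0 : ℝ)..1, S (1 - v) = 1 := by
    rw [← intervalIntegral.integral_add]
    · simp only [S_symm]
      simp
    · exact S_smooth.continuous.intervalIntegrable _ _
    · exact (S_smooth.continuous.comp (by fun_prop)).intervalIntegrable _ _
  rw [h1] at h2
  linarith

theorem th_one : thX 1 = 1 / 4 := by
  have h0 : thX 1 = (∫ v in (0 : ℝ)..(1 / 2), S (2 * v - 1)) +
      ∫ v in (1 / 2 : ℝ)..1, S (2 * v - 1) := by
    rw [intervalIntegral.integral_add_adjacent_intervals]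
    · rfl
    · exact cont_int.intervalIntegrable _ _
    · exact cont_int.intervalIntegrable _ _
  have h1 : (∫ v in (0 : ℝ)..(1 / 2), S (2 * v - 1)) = 0 := th_le (1 / 2) le_rfl
  have h2 : ∫ v in (1 / 2 : ℝ)..1, S (2 * v - 1) = 1 / 4 := by
    have h3 := intervalIntegral.integral_comp_mul_sub (a := 1 / 2) (b := 1) (c := 2) S
      two_ne_zero 1
    rw [h3]
    norm_num
    rw [int_S]
    norm_num
  rw [h0, h1, h2]
  norm_num

theorem th_ge (s : ℝ) (hs : 1 ≤ s) : thX s = s - 3 / 4 := by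
  have h0 : thX s = thX 1 + ∫ v in (1 : ℝ)..s, S (2 * v - 1) := by
    unfold thX
    rw [intervalIntegral.integral_add_adjacent_intervals]
    · exact cont_int.intervalIntegrable _ _
    · exact cont_int.intervalIntegrable _ _
  have h3 : Set.EqOn (fun v : ℝ => S (2 * v - 1)) (fun _ => 1) (Set.uIcc 1 s) := by
    intro v hv
    rw [Set.uIcc_of_le hs] at hv
    exact S_ge _ (by linarith [hv.1])
  rw [h0, th_one, intervalIntegral.integral_congr h3]
  simp
  ring

theorem th_nonneg (s : ℝ) (hs : 0 ≤ s) : 0 ≤ thX s := by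
  unfold thX
  exact intervalIntegral.integral_nonneg hs fun v _ => Real.smoothTransition.nonneg _

theorem th_le_self (s : ℝ) (hs : 0 ≤ s) : thX s ≤ s := by
  have h1 : thX s ≤ ∫ _ in (0 : ℝ)..s, (1 : ℝ) := by
    unfold thX
    refine intervalIntegral.integral_mono_on hs (cont_int.intervalIntegrable _ _)
      (continuous_const.intervalIntegrable _ _) fun v _ => Real.smoothTransition.le_one _
  simpa using h1

section

variable {τ δ : ℝ}

theorem ph_smooth : ContDiff ℝ ∞ (phX τ δ) := by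
  have h1 : ContDiff ℝ ∞ fun t : ℝ => thX (t / τ) := th_smooth.comp (by fun_prop)
  have h2 : ContDiff ℝ ∞ fun t : ℝ => S (2 * t / δ - 1) := S_smooth.comp (by fun_prop)
  exact (contDiff_const.mul h1).add (contDiff_const.mul h2)

theorem hasDeriv_lin1 (t : ℝ) : HasDerivAt (fun t : ℝ => 2 * (t / τ) - 1) (2 / τ) t := by
  have h := (((hasDerivAt_id t).div_const τ).const_mul 2).sub_const 1
  refine h.congr_deriv ?_
  ring

theorem hasDeriv_lin2 (t : ℝ) : HasDerivAt (fun t : ℝ => 2 * t / δ - 1) (2 / δ) t := by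
  have h := (((hasDerivAt_id t).const_mul 2).div_const δ).sub_const 1
  refine h.congr_deriv ?_
  simp

theorem ph_deriv (hτ : τ ≠ 0) : deriv (phX τ δ) = fun t =>
    S (2 * (t / τ) - 1) + 3 * τ / 4 * (S1 (2 * t / δ - 1) * (2 / δ)) := by
  funext t
  apply HasDerivAt.deriv
  have h1 : HasDerivAt (fun t : ℝ => t / τ) (1 / τ) t := (hasDerivAt_id t).div_const τ
  have h2 : HasDerivAt (fun t : ℝ => thX (t / τ)) (S (2 * (t / τ) - 1) * (1 / τ)) t :=
    hcomp (hasDerivAt_th (t / τ)) h1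
  have h3 : HasDerivAt (fun t : ℝ => S (2 * t / δ - 1)) (S1 (2 * t / δ - 1) * (2 / δ)) t :=
    hcomp (hasDeriv S_smooth (2 * t / δ - 1)) (hasDeriv_lin2 t)
  have h4 := (h2.const_mul τ).add (h3.const_mul (3 * τ / 4))
  refine h4.congr_deriv ?_
  congr 1
  field_simp

theorem ph_deriv2 (hτ : τ ≠ 0) : deriv (deriv (phX τ δ)) = fun t =>
    S1 (2 * (t / τ) - 1) * (2 / τ) +
      3 * τ / 4 * (S2 (2 * t / δ - 1) * (2 / δ) * (2 / δ)) := by
  rw [ph_deriv hτ]
  funext t
  apply HasDerivAt.deriv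
  have h1 : HasDerivAt (fun t : ℝ => S (2 * (t / τ) - 1)) (S1 (2 * (t / τ) - 1) * (2 / τ)) t :=
    hcomp (hasDeriv S_smooth (2 * (t / τ) - 1)) (hasDeriv_lin1 t)
  have h2 : HasDerivAt (fun t : ℝ => S1 (2 * t / δ - 1)) (S2 (2 * t / δ - 1) * (2 / δ)) t :=
    hcomp (hasDeriv S1_smooth (2 * t / δ - 1)) (hasDeriv_lin2 t)
  exact h1.add ((h2.mul_const (2 / δ)).const_mul (3 * τ / 4))

theorem ph_deriv3 (hτ : τ ≠ 0) : deriv (deriv (deriv (phX τ δ))) = fun t =>
    S2 (2 * (t / τ) - 1) * (2 / τ) * (2 / τ) +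
      3 * τ / 4 * (S3 (2 * t / δ - 1) * (2 / δ) * (2 / δ) * (2 / δ)) := by
  rw [ph_deriv2 hτ]
  funext t
  apply HasDerivAt.deriv
  have h1 : HasDerivAt (fun t : ℝ => S1 (2 * (t / τ) - 1)) (S2 (2 * (t / τ) - 1) * (2 / τ)) t :=
    hcomp (hasDeriv S1_smooth (2 * (t / τ) - 1)) (hasDeriv_lin1 t)
  have h2 : HasDerivAt (fun t : ℝ => S2 (2 * t / δ - 1)) (S3 (2 * t / δ - 1) * (2 / δ)) t :=
    hcomp (hasDeriv S2_smooth (2 * t / δ - 1)) (hasDeriv_lin2 t)
  exact (h1.mul_const (2 / τ)).add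
    (((h2.mul_const (2 / δ)).mul_const (2 / δ)).const_mul (3 * τ / 4))

end

end XPHI

open XPHI in
theorem XPHI_thm : Stmt_XPHI := by
  intro δ hδ hδ2
  obtain ⟨M1, hM1, hb1⟩ := exists_bound S1_smooth S1_le S1_ge
  obtain ⟨M2, hM2, hb2⟩ := exists_bound S2_smooth S2_le S2_ge
  obtain ⟨M3, hM3, hb3⟩ := exists_bound S3_smooth S3_le S3_ge
  obtain ⟨C1, hC1⟩ : ∃ C1 : ℝ, C1 = 3 / 4 * (M1 * (2 / δ)) := ⟨_, rfl⟩
  obtain ⟨C2, hC2⟩ : ∃ C2 : ℝ, C2 = 3 / 4 * (M2 * (2 / δ) * (2 / δ)) := ⟨_, rfl⟩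
  obtain ⟨C3, hC3⟩ : ∃ C3 : ℝ, C3 = 3 / 4 * (M3 * (2 / δ) * (2 / δ) * (2 / δ)) := ⟨_, rfl⟩
  have hd : 0 < 2 / δ := by positivity
  have hC1' : 0 ≤ C1 := by rw [hC1]; positivity
  have hC2' : 0 ≤ C2 := by rw [hC2]; positivity
  have hC3' : 0 ≤ C3 := by rw [hC3]; positivity
  refine ⟨C1 + C2 + C3 + 2 * M1 + 1, by positivity, fun τ hτ hτδ => ?_⟩
  have hb1' : ∀ x, |3 * τ / 4 * (S1 x * (2 / δ))| ≤ C1 * τ := by
    intro x
    rw [abs_mul, abs_mul, abs_of_pos hd, abs_of_pos (by positivity : 0 < 3 * τ / 4), hC1]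
    have h1 : |S1 x| * (2 / δ) ≤ M1 * (2 / δ) := mul_le_mul_of_nonneg_right (hb1 x) hd.le
    have h2 := mul_le_mul_of_nonneg_left h1 (by positivity : 0 ≤ 3 * τ / 4)
    linarith
  have hb2' : ∀ x, |3 * τ / 4 * (S2 x * (2 / δ) * (2 / δ))| ≤ C2 * τ := by
    intro x
    rw [abs_mul, abs_mul, abs_mul, abs_of_pos hd, abs_of_pos (by positivity : 0 < 3 * τ / 4), hC2]
    have h1 : |S2 x| * (2 / δ) * (2 / δ) ≤ M2 * (2 / δ) * (2 / δ) :=
      mul_le_mul_of_nonneg_right (mul_le_mul_of_nonneg_right (hb2 x) hd.le) hd.le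
    have h2 := mul_le_mul_of_nonneg_left h1 (by positivity : 0 ≤ 3 * τ / 4)
    linarith
  have hb3' : ∀ x, |3 * τ / 4 * (S3 x * (2 / δ) * (2 / δ) * (2 / δ))| ≤ C3 * τ := by
    intro x
    rw [abs_mul, abs_mul, abs_mul, abs_mul, abs_of_pos hd,
      abs_of_pos (by positivity : 0 < 3 * τ / 4), hC3]
    have h1 : |S3 x| * (2 / δ) * (2 / δ) * (2 / δ) ≤ M3 * (2 / δ) * (2 / δ) * (2 / δ) :=
      mul_le_mul_of_nonneg_right (mul_le_mul_of_nonneg_right
        (mul_le_mul_of_nonneg_right (hb3 x) hd.le) hd.le) hd.le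
    have h2 := mul_le_mul_of_nonneg_left h1 (by positivity : 0 ≤ 3 * τ / 4)
    linarith
  have hx1 : ∀ t, t ≤ τ → 2 * t / δ - 1 ≤ 0 := by
    intro t ht
    have : 2 * t / δ ≤ 1 := by
      rw [div_le_one hδ]
      linarith
    linarith
  have hx2 : ∀ t, τ ≤ t → 1 ≤ 2 * (t / τ) - 1 := by
    intro t ht
    have : 1 ≤ t / τ := (one_le_div hτ).mpr ht
    linarith
  have hval1 : ∀ t, t ≤ τ → phX τ δ t = τ * thX (t / τ) := by
    intro t ht
    show τ * thX (t / τ) + 3 * τ / 4 * S (2 * t / δ - 1) = _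
    rw [S_le _ (hx1 t ht)]
    ring
  have hval2 : ∀ t, τ ≤ t → phX τ δ t = t - 3 * τ / 4 + 3 * τ / 4 * S (2 * t / δ - 1) := by
    intro t ht
    show τ * thX (t / τ) + 3 * τ / 4 * S (2 * t / δ - 1) = _
    rw [th_ge _ ((one_le_div hτ).mpr ht)]
    field_simp
  have hCτ : ∀ a : ℝ, a ≤ C1 + C2 + C3 + 2 * M1 + 1 → a * τ ≤
      (C1 + C2 + C3 + 2 * M1 + 1) * τ := fun a ha => mul_le_mul_of_nonneg_right ha hτ.le
  have hc1 := hCτ C1 (by linarith)
  have hc2 := hCτ C2 (by linarith)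
  have hc3 := hCτ C3 (by linarith)
  refine ⟨ph_smooth, ?_, ?_, ?_, ?_, ?_, ?_⟩
  · intro t ht
    rw [hval1 t (by linarith), th_le _ (by rw [div_le_iff₀ hτ]; linarith), mul_zero]
  · intro t ht
    rcases le_total t τ with h | h
    · have h1 : 0 ≤ thX (t / τ) := th_nonneg _ (by positivity)
      have h2 : thX (t / τ) ≤ t / τ := th_le_self _ (by positivity)
      have h3 : τ * (t / τ) = t := by field_simp
      have h4 := mul_le_mul_of_nonneg_left h2 hτ.le
      have h5 := mul_nonneg hτ.le h1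
      rw [hval1 t h]
      refine ⟨h5, by linarith, by linarith⟩
    · have h1 : 0 ≤ S (2 * t / δ - 1) := Real.smoothTransition.nonneg _
      have h2 : S (2 * t / δ - 1) ≤ 1 := Real.smoothTransition.le_one _
      have h3 := mul_le_mul_of_nonneg_left h2 (by positivity : 0 ≤ 3 * τ / 4)
      have h4 := mul_nonneg (by positivity : 0 ≤ 3 * τ / 4) h1
      rw [hval2 t h]
      refine ⟨by linarith, by linarith, by linarith⟩
  · intro t ht
    rw [hval2 t (by linarith), S_ge]
    · ring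
    · have : 2 ≤ 2 * t / δ := by
        rw [le_div_iff₀ hδ]
        linarith
      linarith
  · intro t
    rw [ph_deriv hτ.ne']
    have h1 : 0 ≤ S (2 * (t / τ) - 1) := Real.smoothTransition.nonneg _
    have h2 : S (2 * (t / τ) - 1) ≤ 1 := Real.smoothTransition.le_one _
    have h3 : 0 ≤ 3 * τ / 4 * (S1 (2 * t / δ - 1) * (2 / δ)) :=
      mul_nonneg (by positivity) (mul_nonneg (S1_nonneg _) hd.le)
    have h4 := (abs_le.mp (hb1' (2 * t / δ - 1))).2
    exact ⟨add_nonneg h1 h3, by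
      show S (2 * (t / τ) - 1) + 3 * τ / 4 * (S1 (2 * t / δ - 1) * (2 / δ)) ≤ _
      linarith⟩
  · intro t ht
    rw [ph_deriv2 hτ.ne', ph_deriv hτ.ne']
    have h2 : S (2 * (t / τ) - 1) ≤ 1 := Real.smoothTransition.le_one _
    have h3 : 0 ≤ S1 (2 * (t / τ) - 1) := S1_nonneg _
    have h4 : S1 (2 * (t / τ) - 1) ≤ M1 := (abs_le.mp (hb1 _)).2
    have hτ2 : 0 < 2 / τ := by positivity
    refine ⟨?_, ?_, ?_⟩
    · show S (2 * (t / τ) - 1) + 3 * τ / 4 * (S1 (2 * t / δ - 1) * (2 / δ)) ≤ 1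
      rw [S1_le _ (hx1 t ht)]
      linarith
    · show 0 ≤ S1 (2 * (t / τ) - 1) * (2 / τ) +
        3 * τ / 4 * (S2 (2 * t / δ - 1) * (2 / δ) * (2 / δ))
      rw [S2_le _ (hx1 t ht)]
      have := mul_nonneg h3 hτ2.le
      linarith
    · show S1 (2 * (t / τ) - 1) * (2 / τ) +
        3 * τ / 4 * (S2 (2 * t / δ - 1) * (2 / δ) * (2 / δ)) ≤ _
      rw [S2_le _ (hx1 t ht)]
      have h5 := mul_le_mul_of_nonneg_right h4 hτ2.le
      have h6 : 2 * M1 / τ ≤ (C1 + C2 + C3 + 2 * M1 + 1) / τ :=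
        div_le_div_of_nonneg_right (by linarith) hτ.le
      have h7 : M1 * (2 / τ) = 2 * M1 / τ := by ring
      linarith
  · intro t ht
    rw [ph_deriv3 hτ.ne', ph_deriv2 hτ.ne', ph_deriv hτ.ne']
    refine ⟨?_, ?_, ?_⟩
    · show |S (2 * (t / τ) - 1) + 3 * τ / 4 * (S1 (2 * t / δ - 1) * (2 / δ)) - 1| ≤ _
      rw [S_ge _ (hx2 t ht), add_sub_cancel_left]
      exact (hb1' _).trans hc1
    · show |S1 (2 * (t / τ) - 1) * (2 / τ) +
        3 * τ / 4 * (S2 (2 * t / δ - 1) * (2 / δ) * (2 / δ))| ≤ _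
      rw [S1_ge _ (hx2 t ht), zero_mul, zero_add]
      exact (hb2' _).trans hc2
    · show |S2 (2 * (t / τ) - 1) * (2 / τ) * (2 / τ) +
        3 * τ / 4 * (S3 (2 * t / δ - 1) * (2 / δ) * (2 / δ) * (2 / δ))| ≤ _
      rw [S2_ge _ (hx2 t ht), zero_mul, zero_mul, zero_add]
      exact (hb3' _).trans hc3

end Pool.Agent.PFlow


end

section

/-!
# Module XTRD: competitors in the trace-dominated case, exterior regions
-/

open MeasureTheory Filter Topology
open scoped ContDiff ENNReal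

namespace Pool.Agent.PFlow

open Pool.Agent.PenroseSph

namespace XTRDm

open TRDm

open BARBm in
/-- The decay of `(tr h / 3) g`. -/
theorem decay_tt {U : Set E3} (hUo : IsOpen U) (hUx : ∀ x : E3, 1 ≤ ‖x‖ → x ∈ U)
    {g h : TensorField} {C : ℝ} (hg : MetricOn U g) (hh : TensorOn U h)
    (hC : 0 < C) (hd : DecayFrom C 1 g h)
    (he : ∀ x : E3, 1 ≤ ‖x‖ → ∀ v : Cov, (∑ i, v i ^ 2) ≤ C * ev (g x) v v) :
    ∃ C' : ℝ, DecayFrom C' 1 g (traceTensor g h) := by
  refine ⟨C + 3 * C ^ 2 * (1 + C) + 3 * C * (C + 27 * C ^ 3) * (1 + C) + 3 * C ^ 3, ?_⟩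
  set K : ℝ := C + 3 * C ^ 2 * (1 + C) + 3 * C * (C + 27 * C ^ 3) * (1 + C) + 3 * C ^ 3 with hK
  have hKC : C ≤ K := by
    have : 0 ≤ 3 * C ^ 2 * (1 + C) + 3 * C * (C + 27 * C ^ 3) * (1 + C) + 3 * C ^ 3 := by
      positivity
    linarith
  intro x hx i j
  have hx0 : x ∈ U := hUx x hx
  have hU : U ∈ 𝓝 x := hUo.mem_nhds hx0
  have hp : MJD.Pt g x := MJD.pt_of hUo hg hx0
  have hr : 0 < ‖x‖ := by linarith
  obtain ⟨a, ha⟩ : ∃ a : ℝ, a = ‖x‖⁻¹ := ⟨_, rfl⟩
  have ha0 : 0 < a := by rw [ha]; positivity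
  have ha1 : a ≤ 1 := by rw [ha]; exact inv_le_one_of_one_le₀ hx
  have hd' := fun i j => hd x hx i j
  have e1 : ∀ M : ℝ, M / ‖x‖ = M * a := fun M => by rw [ha, div_eq_mul_inv]
  have e2 : ∀ M : ℝ, M / ‖x‖ ^ 2 = M * a ^ 2 := fun M => by rw [ha, div_eq_mul_inv, inv_pow]
  have e3 : ∀ M : ℝ, M / ‖x‖ ^ 3 = M * a ^ 3 := fun M => by rw [ha, div_eq_mul_inv, inv_pow]
  simp only [e1, e2, e3] at hd' ⊢
  have hinv : ∀ i j, |(g x)⁻¹ i j| ≤ C := fun i j =>
    EShell.inv_entry (hg.posDef x hx0) (he x hx) i j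
  have hgb : ∀ i j, |g x i j| ≤ 1 + C := by
    intro i j
    have h1 := (hd' i j).1
    have h2 : |(1 : Bil) i j| ≤ 1 := by
      rw [Matrix.one_apply]
      split_ifs <;> simp
    have h3 : g x i j = (1 : Bil) i j + (g x i j - (1 : Bil) i j) := by ring
    rw [h3]
    refine (add_le h2 h1).trans ?_
    have : C * a ≤ C * 1 := mul_le_mul_of_nonneg_left ha1 hC.le
    linarith
  have hdg : ∀ k i j, |pd k (fun y => g y i j) x| ≤ C * a ^ 2 := fun k i j => (hd' i j).2.1 k
  have hhb : ∀ i j, |h x i j| ≤ C * a ^ 2 := fun i j => (hd' i j).2.2.2.1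
  have hdh : ∀ k i j, |pd k (fun y => h y i j) x| ≤ C * a ^ 3 := fun k i j => (hd' i j).2.2.2.2 k
  have hhd : ∀ i j, DifferentiableAt ℝ (fun y => h y i j) x := fun i j =>
    ((hh.smooth i j).contDiffAt hU).differentiableAt (by simp)
  have htd : DifferentiableAt ℝ (fun y => trg g y (h y)) x := MJD.diffTr hp h hhd
  have ht : |trg g x (h x)| ≤ 9 * (C * (C * a ^ 2)) :=
    sum2_le fun i j => mul_le (hinv i j) (hhb i j)
  have ha4 : a ^ 4 ≤ a ^ 3 := by
    calc a ^ 4 = a ^ 3 * a := by ring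
      _ ≤ a ^ 3 * 1 := mul_le_mul_of_nonneg_left ha1 (by positivity)
      _ = a ^ 3 := by ring
  have hdt : ∀ k, |pd k (fun y => trg g y (h y)) x| ≤ 9 * C * (C + 27 * C ^ 3) * a ^ 3 := by
    intro k
    refine (pd_tr_le hp hhd hinv hdg hhb hdh k).trans ?_
    have h1 : 27 * C ^ 3 * a ^ 4 ≤ 27 * C ^ 3 * a ^ 3 :=
      mul_le_mul_of_nonneg_left ha4 (by positivity)
    calc 9 * (C * (C * a ^ 3 + 27 * (C * (C * a ^ 2) * (C * a ^ 2))))
        = 9 * C * (C * a ^ 3 + 27 * C ^ 3 * a ^ 4) := by ring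
      _ ≤ 9 * C * (C * a ^ 3 + 27 * C ^ 3 * a ^ 3) := by gcongr
      _ = 9 * C * (C + 27 * C ^ 3) * a ^ 3 := by ring
  refine ⟨(hd' i j).1.trans (by gcongr), fun k => ((hd' i j).2.1 k).trans (by gcongr),
    fun k l => ((hd' i j).2.2.1 k l).trans (by gcongr), ?_, fun k => ?_⟩
  · rw [tt_apply]
    have h1 : |trg g x (h x) / 3| ≤ 3 * C ^ 2 * a ^ 2 := by
      rw [abs_div, abs_of_pos (by norm_num : (0 : ℝ) < 3), div_le_iff₀ (by norm_num)]
      refine ht.trans (le_of_eq ?_)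
      ring
    refine (mul_le h1 (hgb i j)).trans ?_
    have h2 : 3 * C ^ 2 * (1 + C) ≤ K := by
      have : 0 ≤ C + 3 * C * (C + 27 * C ^ 3) * (1 + C) + 3 * C ^ 3 := by positivity
      linarith
    calc 3 * C ^ 2 * a ^ 2 * (1 + C) = 3 * C ^ 2 * (1 + C) * a ^ 2 := by ring
      _ ≤ K * a ^ 2 := by gcongr
  · rw [pd_tt hp.diff htd]
    have h1 : |trg g x (h x) / 3| ≤ 3 * C ^ 2 * a ^ 2 := by
      rw [abs_div, abs_of_pos (by norm_num : (0 : ℝ) < 3), div_le_iff₀ (by norm_num)]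
      refine ht.trans (le_of_eq ?_)
      ring
    have h2 : |pd k (fun y => trg g y (h y)) x / 3| ≤ 3 * C * (C + 27 * C ^ 3) * a ^ 3 := by
      rw [abs_div, abs_of_pos (by norm_num : (0 : ℝ) < 3), div_le_iff₀ (by norm_num)]
      refine (hdt k).trans (le_of_eq ?_)
      ring
    refine (add_le (mul_le h1 (hdg k i j)) (mul_le h2 (hgb i j))).trans ?_
    have h3 : 3 * C ^ 3 * a ^ 4 ≤ 3 * C ^ 3 * a ^ 3 :=
      mul_le_mul_of_nonneg_left ha4 (by positivity)
    have h4 : 3 * C ^ 3 + 3 * C * (C + 27 * C ^ 3) * (1 + C) ≤ K := by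
      have : 0 ≤ C + 3 * C ^ 2 * (1 + C) := by positivity
      linarith
    calc 3 * C ^ 2 * a ^ 2 * (C * a ^ 2) + 3 * C * (C + 27 * C ^ 3) * a ^ 3 * (1 + C)
        = 3 * C ^ 3 * a ^ 4 + 3 * C * (C + 27 * C ^ 3) * (1 + C) * a ^ 3 := by ring
      _ ≤ 3 * C ^ 3 * a ^ 3 + 3 * C * (C + 27 * C ^ 3) * (1 + C) * a ^ 3 := by linarith
      _ = (3 * C ^ 3 + 3 * C * (C + 27 * C ^ 3) * (1 + C)) * a ^ 3 := by ring
      _ ≤ K * a ^ 3 := by gcongr

theorem isOpen_outside (δ : ℝ) : IsOpen (Outside δ) := isOpen_lt continuous_const continuous_norm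

theorem cd_tr {U : Set E3} (hU : IsOpen U) {g h : TensorField} {x : E3} (hg : MetricOn U g)
    (hh : TensorOn U h) (hx : x ∈ U) : ContDiffAt ℝ ∞ (fun y => trg g y (h y)) x := by
  unfold trg
  refine ContDiffAt.sum fun i _ => ContDiffAt.sum fun j _ => ?_
  refine ContDiffAt.mul (EEtaAux.contDiffAt_inv
    (fun i j => (hg.smooth i j).contDiffAt (hU.mem_nhds hx)) (hg.posDef x hx).det_pos.ne' i j) ?_
  exact (hh.smooth i j).contDiffAt (hU.mem_nhds hx)

theorem nu_ne {x : E3} (hx : x ≠ 0) : grad rad x ≠ 0 := by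
  rw [BARBm.grad_rad hx]
  intro h0
  have h1 := BARBm.nu_sq hx
  rw [h0] at h1
  simp at h1

/-- The trace over the tangent plane of a sphere. -/
theorem sphereTr_tt {g h : TensorField} {x : E3} (hp : MJD.Pt g x) (hg : (g x).PosDef)
    (hx : x ≠ 0) : sphereTr g (traceTensor g h) x = 2 / 3 * trg g x (h x) := by
  unfold sphereTr btan bnn
  rw [trg_tt h hp, ev_tt, ABSFm.ev_nrm hg (nu_ne hx)]
  ring

end XTRDm

open TRDm XTRDm in
theorem XTRD (hXAFD : Stmt_XAFD) : Stmt_XTRD := by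
  intro g h hT hdom htrap
  obtain ⟨δ, hδ, hg, hh, -⟩ := hT.smooth
  obtain ⟨C, hC, hd1, he1⟩ := hXAFD g h δ hδ hg hh hT.decay
  have hUo : IsOpen (Outside δ) := isOpen_outside δ
  have hUx : ∀ x : E3, 1 ≤ ‖x‖ → x ∈ Outside δ := by
    intro x hx
    change 1 - δ < ‖x‖
    linarith
  have hpt : ∀ x : E3, x ∈ Outside δ → MJD.Pt g x := fun x hx => MJD.pt_of hUo hg hx
  have hev : ∀ x : E3, x ∈ Outside δ → ∀ v : Cov, 0 ≤ ev (g x) v v := by
    intro x hx v
    by_cases hv : v = 0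
    · subst hv
      simp [ev]
    · exact (AFDaux.ev_posDef (hg.posDef x hx) hv).le
  constructor
  · refine ⟨δ, hδ, ?_⟩
    constructor
    · intro i j
      have h1 : (fun x => traceTensor g h x i j) = fun x => trg g x (h x) / 3 * g x i j := by
        funext x
        exact tt_apply g h x i j
      rw [h1]
      intro x hx
      have h2 : ContDiffAt ℝ ∞ (fun y => trg g y (h y)) x := cd_tr hUo hg hh hx
      exact ((h2.div_const (3 : ℝ)).contDiffWithinAt).mul (hg.smooth i j x hx)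
    · intro x hx
      have h1 : (g x).IsSymm := (hpt x hx).symm.self_of_nhds
      unfold traceTensor
      exact h1.smul _
  · obtain ⟨C', hC'⟩ := XTRDm.decay_tt hUo hUx hg hh hC hd1 fun x hx v => (he1 x hx v).1
    exact ⟨C', 1, hC'⟩
  · intro x hx
    rw [trg_tt h (hpt x (hUx x hx))]
    rcases le_total 0 (trg g x (h x)) with h0 | h0
    · left
      intro v hv
      rw [ev_tt, hv]
      linarith
    · right
      intro v hv
      rw [ev_tt, hv]
      linarith
  · left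
    refine ⟨2 / 3, 1, by norm_num, ?_⟩
    intro x hx
    have hx0 : x ∈ Outside δ := hUx x hx
    rw [trg_tt h (hpt x hx0), ev_tt]
    have hE := hev x hx0 (fun i => x i)
    constructor
    · intro h0
      have := mul_nonneg h0 hE
      nlinarith
    · intro h0
      have := mul_nonneg (neg_nonneg.2 h0) hE
      nlinarith
  · intro x hx
    have hx0 : x ∈ Outside δ := hUx x hx.le
    have hp := hpt x hx0
    have htd : DifferentiableAt ℝ (fun y => trg g y (h y)) x :=
      (cd_tr hUo hg hh hx0).differentiableAt (by simp)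
    have hev' : ∀ᶠ y in 𝓝 x, MJD.Pt g y := by
      filter_upwards [hUo.mem_nhds hx0] with y hy
      exact hpt y hy
    unfold required
    rw [nsq_tt h hp, trg_tt h hp, jlen_tt hp hev' htd]
    have h1 := hdom x hx
    linarith
  · intro x hx
    have hx0 : x ∈ Outside δ := hUx x hx.ge
    have hxn : x ≠ 0 := by
      rintro rfl
      rw [norm_zero] at hx
      linarith
    rw [sphereTr_tt (hpt x hx0) (hg.posDef x hx0) hxn, abs_mul,
      abs_of_pos (by norm_num : (0 : ℝ) < 2 / 3)]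
    exact htrap x hx

end Pool.Agent.PFlow


end
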