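import Mathlib
import Pool.Agent.PFlow.StmtsX2
import Pool.Agent.PenroseM.C03
import Pool.Agent.PenroseM.C06
import Pool.Agent.PenroseM.C18
import Pool.Agent.PenroseM.C32
import Pool.Agent.PenroseM.C46
import Pool.Agent.PenroseM.C71

/-! Parts: PFlow.PX.CKey, PFlow.PX.Cmp, PFlow.PX.Fin, PFlow.PX.H1I, PFlow.PX.Lim, PFlow.PX.Odd, PFlow.PX.Ref, PFlow.X.XABSM, PFlow.X.XMODM, PFlow.X.XTFD -/

section

/-!
# XCKEY: the main comparison lemma, without a penalty term
-/

open MeasureTheory Filter Topology Set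
open scoped ContDiff RealInnerProductSpace

namespace Pool.Agent.PFlow.PB

open Pool.Agent.PenroseSph Pool.Agent.PFlow

open CKEYP in
/-- XCKEY: the main comparison lemma. -/
theorem xckey_thm (_h1 : API1) (h2 : API2) (hc : CHAIN) : XCKEY := by
  intro A B c L r hP u G hu s hs f hf hfc v V hv T' hT' hsol hV σ hσ hσv
  have hcpos := hP.c_pos
  set β : ℝ := L ^ 2 / (2 * c * σ) with hβ
  have hβ0 : 0 ≤ β := by positivity
  have hs2 : s * s = 1 := by rcases hs with rfl | rfl <;> norm_num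
  -- the test function
  have hφ : H1 (fun x => psi β (v x)) (fun x => deriv (psi β) (v x) • V x) :=
    hc.bdd v V (psi β) T' hv hT' (contDiff_psi β) (psi_of_nonpos β le_rfl)
  have hd : ∀ t, deriv (psi β) t = psi' β t := fun t => (hasDerivAt_psi β t).deriv
  simp only [hd] at hφ
  set φ : E3 → ℝ := fun x => psi β (v x) with hφdef
  set Φ : E3 → E3 := fun x => psi' β (v x) • V x with hΦdef
  have e1 := hsol φ Φ hφ (ae_of_all _ fun x hx => psi_of_nonpos β hx)
  -- the field
  set X : E3 → E3 := fun x => A x (gr f x) with hX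
  have hXd : ContDiff ℝ 1 X := contDiff_field hP.smoothA hf
  have hXc : HasCompactSupport X := by
    refine hfc.mono fun x hx => ?_
    rw [Function.mem_support] at hx ⊢
    intro h
    apply hx
    rw [hX]
    show A x (gr f x) = 0
    rw [h, hP.A_zero]
  have e2 := h2.ibpv X hXd hXc φ Φ hφ
  have hdvc : Continuous (dv X) := by
    have h := hXd.continuous_fderiv (by norm_num)
    unfold dv
    refine continuous_finsetSum _ fun i _ => ?_
    exact (EuclideanSpace.proj i : E3 →L[ℝ] ℝ).continuous.comp (h.clm_apply continuous_const)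
  have hdvs : HasCompactSupport (dv X) := by
    refine (hXc.fderiv ℝ).mono fun x hx => ?_
    rw [Function.mem_support] at hx ⊢
    intro h
    apply hx
    unfold dv
    refine Finset.sum_eq_zero fun i _ => ?_
    rw [h]
    rfl
  -- integrability
  have m1 : MemLp X 2 := hXd.continuous.memLp_of_hasCompactSupport hXc
  have m2 : MemLp (dv X) 2 := hdvc.memLp_of_hasCompactSupport hdvs
  have m3 := memLp_A hP hu.memG
  have m4 := memLp_B hP hu.memG
  have i1 : Integrable (fun x => ⟪X x, Φ x⟫) := integrable_inner m1 hφ.memG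
  have i2 : Integrable (fun x => ⟪A x (G x), Φ x⟫) := integrable_inner m3 hφ.memG
  have i3 : Integrable (fun x => dv X x * φ x) := m2.integrable_mul hφ.memf
  have i4 : Integrable (fun x => B x (G x) * φ x) := m4.integrable_mul hφ.memf
  -- the function with integral zero
  set P : E3 → ℝ := fun x => s * ((⟪X x, Φ x⟫ - ⟪A x (G x), Φ x⟫) +
    (dv X x * φ x + B x (G x) * φ x)) with hPdef
  have iP : Integrable P := ((i1.sub i2).add (i3.add i4)).const_mul s
  have hP0 : ∫ x, P x = 0 := by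
    have j1 : ∫ x, (⟪X x, Φ x⟫ - ⟪A x (G x), Φ x⟫) =
        (∫ x, ⟪X x, Φ x⟫) - ∫ x, ⟪A x (G x), Φ x⟫ := integral_sub i1 i2
    have j2 : ∫ x, (dv X x * φ x + B x (G x) * φ x) =
        (∫ x, dv X x * φ x) + ∫ x, B x (G x) * φ x := integral_add i3 i4
    have j3 : ∫ x, ((⟪X x, Φ x⟫ - ⟪A x (G x), Φ x⟫) +
        (dv X x * φ x + B x (G x) * φ x)) =
        (∫ x, (⟪X x, Φ x⟫ - ⟪A x (G x), Φ x⟫)) +
        ∫ x, (dv X x * φ x + B x (G x) * φ x) :=
      integral_add (i1.sub i2) (i3.add i4)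
    rw [hPdef, integral_const_mul, j3, j1, j2, e1, e2]
    ring
  -- the pointwise inequality
  have hpt : ∀ᵐ x, σ / 2 * φ x ≤ P x := by
    filter_upwards [hV, hσv] with x hVx hσx
    rcases le_or_gt (v x) 0 with h | h
    · have h3 : φ x = 0 := psi_of_nonpos β h
      have h4 : Φ x = 0 := by
        rw [hΦdef]
        show psi' β (v x) • V x = 0
        rw [psi'_of_nonpos β h, zero_smul]
      rw [hPdef]
      show σ / 2 * φ x ≤ s * ((⟪X x, Φ x⟫ - ⟪A x (G x), Φ x⟫) +
        (dv X x * φ x + B x (G x) * φ x))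
      rw [h3, h4, inner_zero_right, inner_zero_right]
      simp
    · have hVx := hVx h
      have hσx := hσx h
      have h0 : 0 ≤ φ x := psi_nonneg β _
      have h3 : Φ x = psi' β (v x) • (s • (gr f x - G x)) := by
        rw [hΦdef]
        show psi' β (v x) • V x = _
        rw [hVx]
      have h4 : s * (⟪X x, Φ x⟫ - ⟪A x (G x), Φ x⟫) =
          psi' β (v x) * ⟪A x (gr f x) - A x (G x), gr f x - G x⟫ := by
        rw [← inner_sub_left, h3, inner_smul_right, inner_smul_right]
        calc s * (psi' β (v x) * (s * ⟪A x (gr f x) - A x (G x), gr f x - G x⟫)) =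
            (s * s) * (psi' β (v x) * ⟪A x (gr f x) - A x (G x), gr f x - G x⟫) := by ring
          _ = _ := by rw [hs2, one_mul]
      have h5 := hP.mono x (gr f x) (G x)
      have h6 : |s * (B x (gr f x) - B x (G x))| ≤ L * ‖gr f x - G x‖ := by
        rw [abs_mul]
        have : |s| = 1 := by rcases hs with rfl | rfl <;> simp
        rw [this, one_mul]
        exact hP.lipB x _ _
      have h7 := (abs_le.1 h6).2
      have h8 := psi'_ge β (v x)
      have h9 : 0 ≤ psi' β (v x) := le_trans (mul_nonneg hβ0 (psi_nonneg β _)) h8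
      rw [← dv_field hP.smoothA hf x] at hσx
      show σ / 2 * φ x ≤ s * ((⟪X x, Φ x⟫ - ⟪A x (G x), Φ x⟫) +
        (dv X x * φ x + B x (G x) * φ x))
      rw [mul_add, h4]
      set d := ‖gr f x - G x‖ with hd'
      have f1 : c * d ^ 2 * (β * φ x) ≤
          psi' β (v x) * ⟪A x (gr f x) - A x (G x), gr f x - G x⟫ := by
        calc c * d ^ 2 * (β * φ x) ≤ c * d ^ 2 * psi' β (v x) :=
              mul_le_mul_of_nonneg_left h8 (by positivity)
          _ ≤ ⟪A x (gr f x) - A x (G x), gr f x - G x⟫ * psi' β (v x) :=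
              mul_le_mul_of_nonneg_right h5 h9
          _ = _ := mul_comm _ _
      have f2 : (σ - L * d) * φ x ≤
          s * (dv X x * φ x + B x (G x) * φ x) := by
        have : s * (dv X x * φ x + B x (G x) * φ x) =
            (s * (dv X x + B x (gr f x)) - s * (B x (gr f x) - B x (G x))) * φ x := by ring
        rw [this]
        refine mul_le_mul_of_nonneg_right ?_ h0
        linarith
      have f3 : σ / 2 ≤ c * d ^ 2 * β + (σ - L * d) := by
        have : c * d ^ 2 * β + (σ - L * d) - σ / 2 = (L * d - σ) ^ 2 / (2 * σ) := by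
          rw [hβ]
          field_simp
          ring
        have h10 : 0 ≤ (L * d - σ) ^ 2 / (2 * σ) := by positivity
        linarith
      calc σ / 2 * φ x ≤ (c * d ^ 2 * β + (σ - L * d)) * φ x :=
            mul_le_mul_of_nonneg_right f3 h0
        _ = c * d ^ 2 * (β * φ x) + (σ - L * d) * φ x := by ring
        _ ≤ _ := add_le_add f1 f2
  have hPnn : 0 ≤ᵐ[volume] P := by
    filter_upwards [hpt] with x hx
    have : 0 ≤ σ / 2 * φ x := mul_nonneg (by linarith) (psi_nonneg β _)
    exact this.trans hx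
  have hPz := (integral_eq_zero_iff_of_nonneg_ae hPnn iP).1 hP0
  filter_upwards [hpt, hPz] with x hx hz
  by_contra h
  push Not at h
  have h3 : 0 < φ x := psi_pos β h
  have h4 : P x = 0 := hz
  rw [h4] at hx
  have h5 : 0 < σ / 2 * φ x := by positivity
  linarith

end Pool.Agent.PFlow.PB


end

section

/-!
# Block PX, module XCMP: comparison up to the boundary
-/

open MeasureTheory Filter Topology Set
open scoped ContDiff RealInnerProductSpace Manifold

namespace Pool.Agent.PFlow.PB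

open Pool.Agent.PenroseSph Pool.Agent.PFlow

namespace PXCmp

/-- Smooth cutoff functions. -/
lemma cutoff {S O : Set E3} (hS : IsClosed S) (hO : IsOpen O) (hSO : S ⊆ O) :
    ∃ ζ : E3 → ℝ, ContDiff ℝ ∞ ζ ∧ (∀ x ∈ S, ∀ᶠ y in 𝓝 x, ζ y = 1) ∧ tsupport ζ ⊆ O ∧
      ∀ x, 0 ≤ ζ x ∧ ζ x ≤ 1 := by
  obtain ⟨ζ, h0, h1, h2⟩ := exists_contMDiffMap_zero_one_nhds_of_isClosed (n := ⊤)
    (𝓘(ℝ, E3)) hO.isClosed_compl hS (by
      rw [Set.disjoint_left]
      exact fun x hx hxS => hx (hSO hxS))
  refine ⟨ζ, ζ.contMDiff.contDiff, fun x hx => ?_, fun x hx => ?_, fun x => h2 x⟩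
  · exact h1.filter_mono (nhds_le_nhdsSet hx)
  · by_contra hxO
    have h3 : ∀ᶠ y in 𝓝 x, ζ y = 0 := h0.filter_mono (nhds_le_nhdsSet hxO)
    exact (notMem_tsupport_iff_eventuallyEq.2 h3) hx

lemma pd_congr {f g : E3 → ℝ} {x : E3} (h : f =ᶠ[𝓝 x] g) (i : Fin 3) :
    pd i f =ᶠ[𝓝 x] pd i g := by
  filter_upwards [h.fderiv (𝕜 := ℝ)] with y hy
  unfold pd
  rw [hy]

lemma gr_congr {f g : E3 → ℝ} {x : E3} (h : f =ᶠ[𝓝 x] g) : gr f x = gr g x := by
  unfold gr
  congr 1
  funext i
  exact (pd_congr h i).eq_of_nhds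

lemma hs_congr {f g : E3 → ℝ} {x : E3} (h : f =ᶠ[𝓝 x] g) (i : Fin 3) : hs f i x = hs g i x :=
  gr_congr (pd_congr h i)

lemma gr_const {f : E3 → ℝ} {x : E3} {c : ℝ} (h : ∀ᶠ y in 𝓝 x, f y = c) : gr f x = 0 := by
  have h1 : f =ᶠ[𝓝 x] fun _ => c := h
  rw [gr_congr h1]
  unfold gr pd
  ext i
  simp

lemma gr_cpt {f : E3 → ℝ} (hf : HasCompactSupport f) : HasCompactSupport (gr f) := by
  refine HasCompactSupport.intro hf.isCompact fun x hx => ?_
  exact gr_const (c := 0) (notMem_tsupport_iff_eventuallyEq.1 hx)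

/-- The truncation `S(4t/τ - 1)(t - τ)`. -/
noncomputable def psi (τ t : ℝ) : ℝ := Real.smoothTransition (4 * t / τ - 1) * (t - τ)

lemma psi_smooth (τ : ℝ) : ContDiff ℝ 1 (psi τ) := by
  unfold psi
  refine ContDiff.mul ?_ (contDiff_id.sub contDiff_const)
  refine Real.smoothTransition.contDiff.comp ?_
  exact ((contDiff_const.mul contDiff_id).div_const _).sub contDiff_const

lemma psi_low {τ t : ℝ} (hτ : 0 < τ) (ht : t ≤ τ / 4) : psi τ t = 0 := by
  unfold psi
  rw [Real.smoothTransition.zero_of_nonpos, zero_mul]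
  have : 4 * t / τ ≤ 1 := by
    rw [div_le_one hτ]
    linarith
  linarith

lemma psi_high {τ t : ℝ} (hτ : 0 < τ) (ht : τ / 2 ≤ t) : psi τ t = t - τ := by
  unfold psi
  rw [Real.smoothTransition.one_of_one_le, one_mul]
  have : 2 ≤ 4 * t / τ := by
    rw [le_div_iff₀ hτ]
    linarith
  linarith

lemma psi_abs (τ t : ℝ) : |psi τ t| ≤ |t| + |τ| := by
  unfold psi
  rw [abs_mul, abs_of_nonneg (Real.smoothTransition.nonneg _)]
  calc Real.smoothTransition (4 * t / τ - 1) * |t - τ| ≤ 1 * |t - τ| :=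
        mul_le_mul_of_nonneg_right (Real.smoothTransition.le_one _) (abs_nonneg _)
    _ = |t - τ| := one_mul _
    _ ≤ |t| + |τ| := by
        have := abs_add_le t (-τ)
        rw [abs_neg] at this
        exact this

lemma psi_pos {τ t : ℝ} (h : 0 < psi τ t) : τ < t := by
  by_contra hcon
  push Not at hcon
  have : psi τ t ≤ 0 := by
    unfold psi
    exact mul_nonpos_of_nonneg_of_nonpos (Real.smoothTransition.nonneg _) (by linarith)
  linarith

lemma psi_deriv {τ t : ℝ} (hτ : 0 < τ) (ht : τ < t) : deriv (psi τ) t = 1 := by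
  have h1 : psi τ =ᶠ[𝓝 t] fun t => t - τ := by
    filter_upwards [lt_mem_nhds (show τ / 2 < t by linarith)] with y hy
    exact psi_high hτ hy.le
  rw [h1.deriv_eq]
  simp

end PXCmp

open PXCmp

/-- XCMP. -/
theorem xcmp_thm (h1 : API1) (h2 : API2) (hc : CHAIN) (hk : XCKEY) : XCMP := by
  intro A B c L r hP b w₀ hb hw₀ hw1 hw2 u G hW hu01 s hs f hf σ hσ hineq hf1 hfb
  -- it is enough to prove the inequality up to `τ`
  suffices key : ∀ τ : ℝ, 0 < τ → ∀ᵐ x : E3, 1 ≤ ‖x‖ → ‖x‖ ≤ b → s * (f x - u x) ≤ τ by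
    have h3 : ∀ᵐ x : E3, ∀ n : ℕ, 1 ≤ ‖x‖ → ‖x‖ ≤ b → s * (f x - u x) ≤ 1 / ((n : ℝ) + 1) :=
      ae_all_iff.2 fun n => key _ (by positivity)
    filter_upwards [h3] with x hx hx1 hx2
    exact ge_of_tendsto' tendsto_one_div_add_atTop_nhds_zero_nat fun n => hx n hx1 hx2
  intro τ hτ
  have hs1 : |s| = 1 := by rcases hs with rfl | rfl <;> simp
  have hw₀c : Continuous w₀ := hw₀.smooth.continuous
  set S : Set E3 := {x : E3 | 1 ≤ ‖x‖ ∧ ‖x‖ ≤ b} with hS
  have hScl : IsClosed S :=
    (isClosed_le continuous_const continuous_norm).inter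
      (isClosed_le continuous_norm continuous_const)
  -- the open set where `f` is of class `C²`
  set W : Set E3 := {x : E3 | ContDiffAt ℝ 2 f x} with hWdef
  have hWo : IsOpen W := by
    rw [isOpen_iff_mem_nhds]
    intro x hx
    exact (show ContDiffAt ℝ 2 f x from hx).eventually (by simp)
  have hfW : ContinuousOn f W := fun x hx =>
    (show ContDiffAt ℝ 2 f x from hx).continuousAt.continuousWithinAt
  set O₁ : Set E3 := {x : E3 | 1 < ‖x‖ ∧ ‖x‖ < b} with hO₁
  have hO₁o : IsOpen O₁ :=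
    (isOpen_lt continuous_const continuous_norm).inter (isOpen_lt continuous_norm continuous_const)
  set O₂ : Set E3 := W ∩ (fun x => s * (f x - w₀ x)) ⁻¹' Set.Iio (τ / 4) with hO₂
  have hO₂o : IsOpen O₂ :=
    (continuousOn_const.mul (hfW.sub hw₀c.continuousOn)).isOpen_inter_preimage hWo isOpen_Iio
  set W' : Set E3 := (W ∩ (O₁ ∪ O₂)) ∩ Metric.ball 0 (b + 1) with hW'
  have hW'o : IsOpen W' := (hWo.inter (hO₁o.union hO₂o)).inter Metric.isOpen_ball
  have hSW' : S ⊆ W' := by
    rintro x ⟨hx1, hx2⟩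
    have hxW : x ∈ W := hf x hx1 hx2
    refine ⟨⟨hxW, ?_⟩, ?_⟩
    · rcases hx1.eq_or_lt with h3 | h3
      · right
        refine ⟨hxW, ?_⟩
        show s * (f x - w₀ x) < τ / 4
        rw [hw1 x h3.symm.le]
        linarith [hf1 x h3.symm]
      · rcases hx2.eq_or_lt with h4 | h4
        · right
          refine ⟨hxW, ?_⟩
          show s * (f x - w₀ x) < τ / 4
          rw [hw2 x h4.symm.le, sub_zero]
          linarith [hfb x h4]
        · left
          exact ⟨h3, h4⟩
    · rw [mem_ball_zero_iff]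
      linarith
  have hW'Z : ∀ x ∈ W', x ∈ ZS b → s * (f x - w₀ x) < τ / 4 := by
    rintro x ⟨⟨-, h3⟩, -⟩ hxZ
    rcases h3 with h3 | h3
    · exfalso
      rcases hxZ with h4 | h4
      · linarith [h3.1]
      · linarith [h3.2]
    · exact h3.2
  obtain ⟨ζ, hζ, hζ1, hζt, hζ01⟩ := cutoff hScl hW'o hSW'
  have hζball : tsupport ζ ⊆ Metric.closedBall (0 : E3) (b + 1) :=
    hζt.trans (inter_subset_right.trans Metric.ball_subset_closedBall)
  have hζc : HasCompactSupport ζ :=
    (isCompact_closedBall _ _).of_isClosed_subset (isClosed_tsupport _) hζball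
  have hζW : tsupport ζ ⊆ W := fun x hx => (hζt hx).1.1
  -- the comparison function
  set F : E3 → ℝ := fun x => w₀ x + ζ x * (f x - w₀ x) with hF
  have hmulc : HasCompactSupport (fun x => ζ x * (f x - w₀ x)) := hζc.mul_right
  have hFc : HasCompactSupport F := hw₀.cpt.add hmulc
  have hFs : ContDiff ℝ 2 F := by
    rw [contDiff_iff_contDiffAt]
    intro x
    have hw₀2 : ContDiffAt ℝ 2 w₀ x := hw₀.smooth.contDiffAt.of_le (WithTop.coe_le_coe.2 le_top)
    by_cases hx : x ∈ tsupport ζ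
    · exact hw₀2.add ((hζ.contDiffAt.of_le (WithTop.coe_le_coe.2 le_top)).mul
        ((show ContDiffAt ℝ 2 f x from hζW hx).sub hw₀2))
    · have h3 : ∀ᶠ y in 𝓝 x, ζ y = 0 := notMem_tsupport_iff_eventuallyEq.1 hx
      have h4 : F =ᶠ[𝓝 x] w₀ := by
        filter_upwards [h3] with y hy
        rw [hF]
        simp only [hy, zero_mul, add_zero]
      exact hw₀2.congr_of_eventuallyEq h4
  have hFf : ∀ x ∈ S, F =ᶠ[𝓝 x] f := by
    intro x hx
    filter_upwards [hζ1 x hx] with y hy
    rw [hF]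
    simp only [hy, one_mul]
    ring
  have hFZ : ∀ x ∈ ZS b, s * (F x - w₀ x) ≤ τ / 4 := by
    intro x hx
    have h3 : s * (F x - w₀ x) = ζ x * (s * (f x - w₀ x)) := by rw [hF]; ring
    rw [h3]
    by_cases hζx : ζ x = 0
    · rw [hζx, zero_mul]
      linarith
    · have h4 : x ∈ W' := hζt (subset_tsupport _ hζx)
      have h5 := hW'Z x h4 hx
      rcases le_or_gt (s * (f x - w₀ x)) 0 with h6 | h6
      · have := mul_nonpos_of_nonneg_of_nonpos (hζ01 x).1 h6
        linarith
      · calc ζ x * (s * (f x - w₀ x)) ≤ 1 * (s * (f x - w₀ x)) :=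
              mul_le_mul_of_nonneg_right (hζ01 x).2 h6.le
          _ ≤ τ / 4 := by linarith
  -- the difference and the test function
  have hH0 : H1 (fun x => s * (F x - u x)) (fun x => s • (gr F x - G x)) :=
    h1.smul s _ _ (h1.sub _ _ _ _ (h2.ofC1 F (hFs.of_le (by norm_num)) hFc) hW.1)
  obtain ⟨C, hC⟩ := hFc.exists_bound_of_continuous hFs.continuous
  have hbd : ∀ᵐ x, |s * (F x - u x)| ≤ C + 1 := by
    filter_upwards [hu01] with x hx
    rw [abs_mul, hs1, one_mul]
    have h3 := abs_add_le (F x) (-u x)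
    rw [abs_neg, abs_of_nonneg hx.1] at h3
    have h4 : |F x| ≤ C := by simpa [Real.norm_eq_abs] using hC x
    have h5 : F x + -u x = F x - u x := by ring
    rw [h5] at h3
    linarith [hx.2]
  have hψ0 : psi τ 0 = 0 := psi_low hτ (by linarith)
  have hH := hc.bdd _ _ (psi τ) (C + 1) hH0 hbd (psi_smooth τ) hψ0
  have hvbd : ∀ᵐ x, |psi τ (s * (F x - u x))| ≤ C + 1 + |τ| := by
    filter_upwards [hbd] with x hx
    exact (psi_abs _ _).trans (by linarith)
  -- where the test function is positive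
  have hZ0 : ∀ᵐ x, x ∈ ZS b → psi τ (s * (F x - u x)) = 0 := by
    filter_upwards [hW.2.1] with x hx hxZ
    rw [hx hxZ]
    exact psi_low hτ (hFZ x hxZ)
  have hpos : ∀ᵐ x, 0 < psi τ (s * (F x - u x)) → x ∈ S := by
    filter_upwards [hZ0] with x hx h3
    by_contra hxS
    have hxZ : x ∈ ZS b := by
      by_contra hxZ
      apply hxS
      have h4 : ¬ ‖x‖ ≤ 1 ∧ ¬ b ≤ ‖x‖ := not_or.1 hxZ
      exact ⟨(not_le.1 h4.1).le, (not_le.1 h4.2).le⟩
    rw [hx hxZ] at h3
    exact lt_irrefl _ h3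
  have hle := hk A B c L r hP u G hW.1 s hs F hFs (_root_.Pool.Agent.PFlow.PB.PXCmp.gr_cpt hFc)
    (fun x => psi τ (s * (F x - u x)))
    (fun x => deriv (psi τ) (s * (F x - u x)) • (s • (gr F x - G x))) hH (C + 1 + |τ|) hvbd
    (by
      intro φ Φ hφ hφ0
      refine hW.2.2 φ Φ hφ ?_
      filter_upwards [hφ0, hZ0] with x h3 h4 h5
      exact h3 (h4 h5).le)
    (by
      refine Eventually.of_forall fun x hx => ?_
      rw [psi_deriv hτ (psi_pos hx), one_smul])
    σ hσ
    (by
      filter_upwards [hpos] with x h3 h4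
      have h5 := h3 h4
      have h6 := hineq x h5.1 h5.2
      rw [gr_congr (hFf x h5)]
      have h8 : (fun i => PB.hs F i x) = fun i => PB.hs f i x :=
        funext fun i => hs_congr (hFf x h5) i
      rw [h8]
      exact h6)
  filter_upwards [hle] with x hx hx1 hx2
  by_contra hcon
  push Not at hcon
  have h3 : F x = f x := (hFf x ⟨hx1, hx2⟩).eq_of_nhds
  rw [h3, psi_high hτ (by linarith)] at hx
  linarith

end Pool.Agent.PFlow.PB


end

section

/-!
# Block PX, module XFIN: the main theorem of block PX from its parts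
-/

open MeasureTheory Filter Topology Set
open scoped ContDiff RealInnerProductSpace

namespace Pool.Agent.PFlow.PB

open Pool.Agent.PenroseSph Pool.Agent.PFlow

namespace PXFin

theorem isOpen_Ann (a b : ℝ) : IsOpen (Ann a b) :=
  (isOpen_lt continuous_const continuous_norm).inter
    (isOpen_lt continuous_norm continuous_const)

/-- A closed condition which holds almost everywhere on an open set holds on its closure. -/
theorem closure_of_ae {U : Set E3} {p : E3 → Prop} (hU : IsOpen U) (hp : IsClosed {x | p x})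
    (h : ∀ᵐ x, x ∈ U → p x) : ∀ x ∈ closure U, p x := by
  have h1 : IsOpen (U ∩ {x | p x}ᶜ) := hU.inter hp.isOpen_compl
  have h2 : volume (U ∩ {x | p x}ᶜ) = 0 := by
    refine measure_mono_null ?_ h
    intro x hx
    show ¬ (x ∈ U → p x)
    intro h3
    exact hx.2 (h3 hx.1)
  have h3 : U ∩ {x | p x}ᶜ = ∅ := (h1.measure_eq_zero_iff volume).1 h2
  have h4 : U ⊆ {x | p x} := by
    intro x hx
    by_contra h5
    have : x ∈ U ∩ {x | p x}ᶜ := ⟨hx, h5⟩
    rw [h3] at this
    exact this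
  exact fun x hx => (closure_minimal h4 hp) hx

theorem mem_closure_Ann {b : ℝ} {x : E3} (h1 : 1 ≤ ‖x‖) (h2 : ‖x‖ < b) :
    x ∈ closure (Ann 1 b) := by
  have ht : Tendsto (fun t : ℝ => (1 + t) • x) (𝓝[>] 0) (𝓝 x) := by
    have hc : Continuous fun t : ℝ => (1 + t) • x :=
      (continuous_const.add continuous_id).smul continuous_const
    have := (hc.tendsto 0).mono_left (nhdsWithin_le_nhds (s := Ioi (0 : ℝ)))
    simpa using this
  have hn : Tendsto (fun t : ℝ => ‖(1 + t) • x‖) (𝓝[>] 0) (𝓝 ‖x‖) := ht.norm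
  refine mem_closure_of_tendsto ht ?_
  filter_upwards [self_mem_nhdsWithin, hn.eventually_lt_const h2] with t ht0 htb
  refine ⟨?_, htb⟩
  have h3 : (0 : ℝ) < t := ht0
  rw [norm_smul, Real.norm_eq_abs, abs_of_pos (by linarith)]
  nlinarith

end PXFin

open PXFin in
/-- XFIN. -/
theorem xfin_thm : XFIN := by
  intro hE hF hS hN hC hH hL ε R g h hε hε1 hR hg hh hmir hflat
  have hd : GData g h (R / 2) := ⟨hg, hh, hflat⟩
  obtain ⟨w₀, δ, κ, u, G, v, V, M, C, w, F, N, lim⟩ := hL ε R g h hε hε1 hR hd hmir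
  have htend : ∀ x, Tendsto (fun n => v n x) atTop (𝓝 (w x)) := fun x =>
    (lim.unif {x} isCompact_singleton).tendsto_at (mem_singleton x)
  have hout : ∀ᵐ x : E3, ∀ n, 1 ≤ ‖x‖ → ‖x‖ < 3 * R / 2 → v n x = u n x :=
    ae_all_iff.2 lim.out
  have hbdd : ∀ᵐ x : E3, ∀ n, 0 ≤ u n x ∧ u n x ≤ 1 := ae_all_iff.2 lim.bdd
  have h01 : ∀ᵐ x : E3, x ∈ Ann 1 (3 * R / 2) → 0 ≤ w x ∧ w x ≤ 1 := by
    filter_upwards [hout, hbdd] with x h1 h2 hx
    have h3 : ∀ n, 0 ≤ v n x ∧ v n x ≤ 1 := by
      intro n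
      rw [h1 n hx.1.le hx.2]
      exact h2 n
    exact ⟨ge_of_tendsto' (htend x) fun n => (h3 n).1, le_of_tendsto' (htend x) fun n => (h3 n).2⟩
  have hcl : IsClosed {x : E3 | 0 ≤ w x ∧ w x ≤ 1} :=
    (isClosed_le continuous_const lim.contw).inter (isClosed_le lim.contw continuous_const)
  have hall := closure_of_ae (isOpen_Ann 1 (3 * R / 2)) hcl h01
  have hin : ∀ x : E3, 1 ≤ ‖x‖ → ‖x‖ < R → x ∈ closure (Ann 1 (3 * R / 2)) := fun x h1 h2 =>
    mem_closure_Ann h1 (by linarith)
  have hsub : Ann (1 / 2) R ⊆ Ann (2 / 5) (3 * R / 2) := by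
    rintro x ⟨h1, h2⟩
    exact ⟨by linarith, by linarith⟩
  refine ⟨w, fun x => F x, mat N, ?_⟩
  exact
    { cont := lim.contw
      refl := by
        intro x hx
        have h1 := (htend x).const_sub 2
        refine tendsto_nhds_unique (htend (inversion x)) (h1.congr fun n => ?_)
        exact (lim.refl n x hx).symm
      nonneg := fun x h1 h2 => (hall x (hin x h1 h2)).1
      le_one := fun x h1 h2 => (hall x (hin x h1 h2)).2
      h2 := hH w F N _ (isOpen_Ann _ _) lim.h2w lim.contw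
      eq := hE _ _ _ _ _ _ _ _ _ _ _ _ _ _ _ _ lim
      flux := hF _ _ _ _ _ _ _ _ _ _ _ _ _ _ _ _ lim
      sub := fun f => (hC _ _ _ _ _ _ _ _ _ _ _ _ _ _ _ _ lim f).1
      super := fun f => (hC _ _ _ _ _ _ _ _ _ _ _ _ _ _ _ _ lim f).2
      noIsland := hN ε (R / 2) _ g h w hε hε1 hd lim.contw fun K hK hKU =>
        hS _ _ _ _ _ _ _ _ _ _ _ _ _ _ _ _ lim K hK (hKU.trans hsub) }

end Pool.Agent.PFlow.PB


end

section

/-!
# Block PX, module XH1I: the composition of an `H¹` function with the inversion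
-/

open MeasureTheory Filter Topology Set
open scoped ContDiff RealInnerProductSpace

namespace Pool.Agent.PFlow.PB

open Pool.Agent.PenroseSph Pool.Agent.PFlow

namespace PXH1I

/-! ### The cut-off function -/

/-- The cut-off function. -/
noncomputable def eta (a b : ℝ) (x : E3) : ℝ :=
  Real.smoothTransition ((‖x‖ ^ 2 - a ^ 2 / 3) / (2 * a ^ 2 / 3)) *
    Real.smoothTransition ((3 * b ^ 2 - ‖x‖ ^ 2) / (2 * b ^ 2))

theorem eta_one {a b : ℝ} (ha : 0 < a) (hab : a < b) {x : E3} (hx : x ∈ Ann a b) :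
    eta a b x = 1 := by
  have hb : 0 < b := ha.trans hab
  have h1 : a ^ 2 ≤ ‖x‖ ^ 2 := pow_le_pow_left₀ ha.le hx.1.le 2
  have h2 : ‖x‖ ^ 2 ≤ b ^ 2 := pow_le_pow_left₀ (norm_nonneg x) hx.2.le 2
  unfold eta
  rw [Real.smoothTransition.one_of_one_le, Real.smoothTransition.one_of_one_le, one_mul]
  · rw [le_div_iff₀ (by positivity)]
    nlinarith
  · rw [le_div_iff₀ (by positivity)]
    nlinarith

theorem eta_zero {a b : ℝ} (ha : 0 < a) (hab : a < b) {x : E3} (hx : ‖x‖ ≤ a / 2 ∨ 2 * b ≤ ‖x‖) :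
    eta a b x = 0 := by
  have hb : 0 < b := ha.trans hab
  unfold eta
  rcases hx with hx | hx
  · have h1 : ‖x‖ ^ 2 ≤ (a / 2) ^ 2 := pow_le_pow_left₀ (norm_nonneg x) hx 2
    rw [Real.smoothTransition.zero_of_nonpos, zero_mul]
    refine div_nonpos_of_nonpos_of_nonneg ?_ (by positivity)
    nlinarith
  · have h1 : (2 * b) ^ 2 ≤ ‖x‖ ^ 2 := pow_le_pow_left₀ (by positivity) hx 2
    rw [Real.smoothTransition.zero_of_nonpos (x := (3 * b ^ 2 - ‖x‖ ^ 2) / (2 * b ^ 2)), mul_zero]
    refine div_nonpos_of_nonpos_of_nonneg ?_ (by positivity)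
    nlinarith

theorem eta_smooth (a b : ℝ) : ContDiff ℝ ∞ (eta a b) := by
  have h : ContDiff ℝ ∞ (fun x : E3 => ‖x‖ ^ 2) := contDiff_norm_sq ℝ
  unfold eta
  refine ContDiff.mul ?_ ?_
  · exact Real.smoothTransition.contDiff.comp ((h.sub contDiff_const).div_const _)
  · exact Real.smoothTransition.contDiff.comp ((contDiff_const.sub h).div_const _)

theorem eta_test {a b : ℝ} (ha : 0 < a) (hab : a < b) : Test (eta a b) := by
  refine ⟨eta_smooth a b, HasCompactSupport.intro (isCompact_closedBall (0 : E3) (2 * b)) ?_⟩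
  intro x hx
  refine eta_zero ha hab (Or.inr ?_)
  rw [Metric.mem_closedBall, dist_zero_right, not_le] at hx
  exact hx.le

theorem not_ann {a b : ℝ} {x : E3} (hx : x ∉ Ann a b) : ‖x‖ ≤ a ∨ b ≤ ‖x‖ := by
  by_contra h
  rw [not_or, not_le, not_le] at h
  exact hx h

/-! ### Composition of smooth functions with the inversion -/

theorem JT_add (x ξ η : E3) : JT x (ξ + η) = JT x ξ + JT x η := by
  ext i
  simp [JT, mul_add, Finset.sum_add_distrib]

theorem JT_sub (x ξ η : E3) : JT x (ξ - η) = JT x ξ - JT x η := by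
  ext i
  simp [JT, mul_sub, Finset.sum_sub_distrib]

theorem norm_inv (x : E3) : ‖inversion x‖ = ‖x‖⁻¹ := by
  rcases eq_or_ne x 0 with rfl | hx
  · simp [inversion]
  · exact HSM2.norm_inversion x hx

/-- The gradient of the composition. -/
theorem gr_comp {ψ : E3 → ℝ} (hψ : Differentiable ℝ ψ) {x : E3} (hx : x ≠ 0) :
    gr (fun y => ψ (inversion y)) x = JT x (gr ψ (inversion x)) := by
  ext i
  have h1 := PenroseConvex.CovR.pd_chain inversion ψ x i (hψ _)
    ((LEYaux.inversion_contDiffAt hx).differentiableAt (by simp))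
  have h2 : ∀ a, pd i (fun y => inversion y a) x = inversionJac x a i := by
    intro a
    rw [← LEYaux.jac_inversion hx]
    rfl
  change pd i (fun y => ψ (inversion y)) x = ∑ a, inversionJac x a i * pd a ψ (inversion x)
  rw [h1]
  refine Finset.sum_congr rfl fun a _ => ?_
  rw [h2 a, mul_comm]

/-- Smooth functions which vanish near the origin and far out. -/
theorem comp_test (h1 : API1) (h2 : API2) {a b : ℝ} (ha : 0 < a) (hab : a < b) {ψ : E3 → ℝ}
    (hψ : ContDiff ℝ 1 ψ) (h0 : ∀ x : E3, (‖x‖ ≤ a ∨ b ≤ ‖x‖) → ψ x = 0) :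
    H1 (fun x => ψ (inversion x)) (fun x => JT x (gr ψ (inversion x))) := by
  have hb : 0 < b := ha.trans hab
  have hs : ContDiff ℝ 1 (fun x => ψ (inversion x)) := by
    rw [contDiff_iff_contDiffAt]
    intro x
    rcases eq_or_ne x 0 with rfl | hx
    · have h3 : (fun y => ψ (inversion y)) =ᶠ[𝓝 (0 : E3)] fun _ => 0 := by
        have h4 : ∀ᶠ y : E3 in 𝓝 0, ‖y‖ < b⁻¹ := by
          have := Metric.ball_mem_nhds (0 : E3) (inv_pos.mpr hb)
          filter_upwards [this] with y hy
          rwa [Metric.mem_ball, dist_zero_right] at hy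
        filter_upwards [h4] with y hy
        rcases eq_or_ne y 0 with rfl | hy0
        · apply h0
          left
          rw [LEYaux.inversion_zero, norm_zero]
          exact ha.le
        · apply h0
          right
          rw [norm_inv]
          have hyp : 0 < ‖y‖ := norm_pos_iff.mpr hy0
          rw [le_inv_comm₀ hb hyp]
          exact hy.le
      exact contDiffAt_const.congr_of_eventuallyEq h3
    · exact hψ.contDiffAt.comp x ((LEYaux.inversion_contDiffAt hx).of_le (by exact_mod_cast le_top))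
  have hc : HasCompactSupport (fun x => ψ (inversion x)) := by
    refine HasCompactSupport.intro (isCompact_closedBall (0 : E3) a⁻¹) ?_
    intro x hx
    rw [Metric.mem_closedBall, dist_zero_right, not_le] at hx
    apply h0
    left
    rw [norm_inv]
    have hxp : 0 < ‖x‖ := (inv_pos.mpr ha).trans hx
    rw [inv_le_comm₀ hxp ha]
    exact hx.le
  refine h1.congr _ _ _ _ (h2.ofC1 _ hs hc) (EventuallyEq.refl _ _) ?_
  have h5 : ∀ᵐ x : E3, x ≠ 0 := by
    rw [ae_iff]
    simp
  filter_upwards [h5] with x hx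
  exact gr_comp (hψ.differentiable (by norm_num)) hx

end PXH1I

open PXH1I in
/-- XH1I: the composition with the inversion belongs to `H¹`. -/
theorem xh1i_thm (h1 : API1) (h2 : API2) (hv : XCOV) : XH1I := by
  intro a b ha hab f F hf hf0
  have hb : 0 < b := ha.trans hab
  have ha2 : 0 < a / 2 := by positivity
  have hab2 : a / 2 < 2 * b := by linarith
  obtain ⟨φ, a1, a2, a3⟩ := hf.approx
  have hη := eta_test ha hab
  obtain ⟨C1, hC1⟩ := hη.smooth.continuous.bounded_above_of_compact_support hη.cpt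
  obtain ⟨C2, hC2⟩ := (gr_cont _ hη.one).bounded_above_of_compact_support (gr_cpt _ hη.cpt)
  set C : ℝ := max C1 C2 with hC
  have b1 : ∀ x, |eta a b x| ≤ C := fun x => (hC1 x).trans (le_max_left _ _)
  have b2 : ∀ x, ‖gr (eta a b) x‖ ≤ C := fun x => (hC2 x).trans (le_max_right _ _)
  have hηc := hη.smooth.continuous
  have hgc := gr_cont _ hη.one
  -- the cut-off functions
  have hT : ∀ n, Test (fun x => eta a b x * φ n x) := fun n =>
    ⟨hη.smooth.mul (a1 n).smooth, (a1 n).cpt.mul_left⟩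
  have hzero : ∀ (u : E3 → ℝ) (x : E3), (‖x‖ ≤ a / 2 ∨ 2 * b ≤ ‖x‖) → eta a b x * u x = 0 := by
    intro u x hx
    rw [eta_zero ha hab hx, zero_mul]
  have hH : ∀ n, H1 (fun x => eta a b (inversion x) * φ n (inversion x))
      (fun x => JT x (gr (fun x => eta a b x * φ n x) (inversion x))) := fun n =>
    comp_test h1 h2 ha2 hab2 (hT n).one (hzero (φ n))
  -- the limit
  have hmul := h2.mul f F (eta a b) C hf hη.one b1 b2
  have hff : (fun x => eta a b x * f x) =ᵐ[volume] f := by
    filter_upwards [hf0] with x hx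
    by_cases hxa : x ∈ Ann a b
    · rw [eta_one ha hab hxa, one_mul]
    · rw [hx hxa, mul_zero]
  have hFF : F =ᵐ[volume] fun x => eta a b x • F x + f x • gr (eta a b) x := by
    refine h1.unique f _ _ hf (h1.congr _ _ _ _ hmul hff (EventuallyEq.refl _ _))
  have hgr : ∀ n x, gr (fun x => eta a b x * φ n x) x =
      eta a b x • gr (φ n) x + φ n x • gr (eta a b) x := fun n x =>
    gr_mul _ _ x (hη.one.differentiable (by norm_num) x) ((a1 n).one.differentiable (by norm_num) x)
  have hfm := fun n => test_memLp _ (a1 n)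
  have hgm := fun n => gr_memLp _ (a1 n).one (a1 n).cpt
  -- convergence
  have c1 : Tendsto (fun n => sq (fun x => eta a b x * φ n x - f x)) atTop (𝓝 0) := by
    have h3 := a2.const_mul (C ^ 2)
    rw [mul_zero] at h3
    refine squeeze_zero (fun n => sq_nonneg' _) (fun n => ?_) h3
    have := sq_mul_le (eta a b) (fun x => φ n x - f x) C ((hfm n).sub hf.memf) b1
    refine le_trans (le_of_eq ?_) this
    refine integral_congr_ae ?_
    filter_upwards [hff] with x hx
    have e : eta a b x * (φ n x - f x) = eta a b x * φ n x - f x := by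
      rw [mul_sub, hx]
    show (eta a b x * φ n x - f x) ^ 2 = (eta a b x * (φ n x - f x)) ^ 2
    rw [e]
  have c2 : Tendsto (fun n => sqv (fun x => gr (fun x => eta a b x * φ n x) x - F x)) atTop
      (𝓝 0) := by
    have h4 := tend_add_sqv (fun x => eta a b x • F x) (fun x => f x • gr (eta a b) x)
      (fun n x => eta a b x • gr (φ n) x) (fun n x => φ n x • gr (eta a b) x)
      (memLp_smul_bdd _ F C hf.memG hηc b1) (memLp_smul_bdd' f _ C hf.memf hgc b2)
      (fun n => memLp_smul_bdd _ _ C (hgm n) hηc b1)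
      (fun n => memLp_smul_bdd' _ _ C (hfm n) hgc b2) ?_ ?_
    · refine h4.congr fun n => ?_
      refine integral_congr_ae ?_
      filter_upwards [hFF] with x hx
      rw [hgr n x]
      conv_rhs => rw [hx]
    · have h3 := a3.const_mul (C ^ 2)
      rw [mul_zero] at h3
      refine squeeze_zero (fun n => sqv_nonneg' _) (fun n => ?_) h3
      have := sqv_smul_le (eta a b) (fun x => gr (φ n) x - F x) C ((hgm n).sub hf.memG) b1
      refine le_trans (le_of_eq ?_) this
      congr 1
      ext1 x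
      rw [smul_sub]
    · have h3 := a2.const_mul (C ^ 2)
      rw [mul_zero] at h3
      refine squeeze_zero (fun n => sqv_nonneg' _) (fun n => ?_) h3
      have := sqv_smul_le' (fun x => φ n x - f x) (gr (eta a b)) C ((hfm n).sub hf.memf) b2
      refine le_trans (le_of_eq ?_) this
      congr 1
      ext1 x
      rw [sub_smul]
  -- change of variables
  obtain ⟨D, hD, hD1, hD2⟩ := hv.mem (a / 2) (2 * b) ha2 hab2
  have z1 : ∀ᵐ x, x ∉ Ann (a / 2) (2 * b) → f x = 0 := by
    filter_upwards [hf0] with x hx hxa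
    apply hx
    intro hxb
    apply hxa
    exact ⟨by linarith [hxb.1], by linarith [hxb.2]⟩
  have gz : ∀ x : E3, x ∉ Ann (a / 2) (2 * b) → gr (eta a b) x = 0 := by
    intro x hx
    -- `η ≥ 0` has a minimum at `x`
    have hmin : IsLocalMin (eta a b) x := by
      refine Eventually.of_forall fun y => ?_
      rw [eta_zero ha hab (not_ann hx)]
      unfold eta
      exact mul_nonneg (Real.smoothTransition.nonneg _) (Real.smoothTransition.nonneg _)
    have h5 := hmin.fderiv_eq_zero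
    ext i
    change fderiv ℝ (eta a b) x _ = 0
    rw [h5]
    rfl
  have z2 : ∀ᵐ x, x ∉ Ann (a / 2) (2 * b) → F x = 0 := by
    filter_upwards [hFF] with x hx hxa
    rw [hx, gz x hxa, eta_zero ha hab (not_ann hxa), zero_smul, smul_zero, add_zero]
  obtain ⟨m1, -⟩ := hD1 f hf.memf z1
  obtain ⟨m2, -⟩ := hD2 F hf.memG z2
  refine h1.closed _ _ _ _ hH m1 m2 ?_ ?_
  · have h3 := c1.const_mul D
    rw [mul_zero] at h3
    refine squeeze_zero (fun n => sq_nonneg' _) (fun n => ?_) h3
    refine (hD1 (fun x => eta a b x * φ n x - f x) ((test_memLp _ (hT n)).sub hf.memf) ?_).2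
    filter_upwards [z1] with x hx hxa
    rw [hx hxa, hzero (φ n) x (not_ann hxa), sub_zero]
  · have h3 := c2.const_mul D
    rw [mul_zero] at h3
    refine squeeze_zero (fun n => sqv_nonneg' _) (fun n => ?_) h3
    have h4 := (hD2 (fun x => gr (fun x => eta a b x * φ n x) x - F x)
      ((gr_memLp _ (hT n).one (hT n).cpt).sub hf.memG) ?_).2
    · refine le_trans (le_of_eq ?_) h4
      congr 1
      funext x
      rw [JT_sub]
    · filter_upwards [z2] with x hx hxa
      rw [hx hxa, hgr n x, gz x hxa, eta_zero ha hab (not_ann hxa), zero_smul, smul_zero, add_zero,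
        sub_zero]

end Pool.Agent.PFlow.PB


end

section

/-!
# Block PX, module XLIM: existence of the sequence of reflected solutions and of its limit
-/

open MeasureTheory Filter Topology Set
open scoped ContDiff RealInnerProductSpace ENNReal

namespace Pool.Agent.PFlow.PB

open Pool.Agent.PenroseSph Pool.Agent.PFlow

namespace PXLim

theorem cont_of_holder {w : E3 → ℝ} {A : ℝ}
    (h : ∀ x y, ‖x - y‖ ≤ 1 → |w x - w y| ≤ A * ‖x - y‖ ^ (1 / 4 : ℝ)) : Continuous w := by
  rw [continuous_iff_continuousAt]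
  intro x
  unfold ContinuousAt
  rw [tendsto_iff_norm_sub_tendsto_zero]
  have h1 : Tendsto (fun y => A * ‖y - x‖ ^ (1 / 4 : ℝ)) (𝓝 x) (𝓝 0) := by
    have h2 : Tendsto (fun y => ‖y - x‖) (𝓝 x) (𝓝 0) := by
      have := (continuous_id.sub continuous_const).norm.tendsto x (f := fun y : E3 => ‖y - x‖)
      simpa using this
    have h3 := (h2.rpow_const (p := (1 / 4 : ℝ)) (Or.inr (by norm_num))).const_mul A
    rw [Real.zero_rpow (by norm_num), mul_zero] at h3
    exact h3
  have h4 : ∀ᶠ y in 𝓝 x, ‖y - x‖ ≤ 1 := by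
    filter_upwards [Metric.closedBall_mem_nhds x one_pos] with y hy
    rwa [mem_closedBall_iff_norm] at hy
  refine squeeze_zero' (Filter.Eventually.of_forall fun y => norm_nonneg _) ?_ h1
  filter_upwards [h4] with y hy
  rw [Real.norm_eq_abs]
  exact h y x hy

theorem h2_congr (h1 : API1) {u w : E3 → ℝ} {G : E3 → E3} {M : Fin 3 → E3 → E3}
    (h : H2 u G M) (hw : w =ᵐ[volume] u) : H2 w G M :=
  ⟨h1.congr _ _ _ _ h.h1 hw.symm (Filter.EventuallyEq.refl _ _), h.h2⟩

theorem sq_congr {u w : E3 → ℝ} (hw : w =ᵐ[volume] u) : sq w = sq u := by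
  apply integral_congr_ae
  filter_upwards [hw] with x hx
  rw [hx]

/-- The boundary function. -/
theorem exists_w0 (b : ℝ) (hb : 1 < b) : ∃ w₀ : E3 → ℝ, Test w₀ ∧ (∀ x, 0 ≤ w₀ x ∧ w₀ x ≤ 1) ∧
    (∀ x : E3, ‖x‖ ≤ 1 → w₀ x = 1) ∧ (∀ x : E3, b ≤ ‖x‖ → w₀ x = 0) := by
  let f : ContDiffBump (0 : E3) := ⟨1, b, one_pos, hb⟩
  refine ⟨f, ⟨f.contDiff, f.hasCompactSupport⟩, fun x => ⟨f.nonneg, f.le_one⟩, ?_, ?_⟩
  · intro x hx
    apply f.one_of_mem_closedBall
    rw [mem_closedBall_zero_iff]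
    exact hx
  · intro x hx
    apply f.zero_of_le_dist
    rw [dist_zero_right]
    exact hx

/-- The cut-off function. -/
theorem exists_zeta (R : ℝ) (hR : 8 ≤ R) : ∃ ζ : E3 → ℝ, Test ζ ∧ (∀ x, 0 ≤ ζ x ∧ ζ x ≤ 1) ∧
    (∀ x : E3, 2 / 5 ≤ ‖x‖ → ‖x‖ ≤ 3 * R / 2 → ζ x = 1) ∧
    tsupport ζ ⊆ Ann (1 / 3) (2 * R) := by
  let f : ContDiffBump (0 : E3) := ⟨3 * R / 2, 7 * R / 4, by linarith, by linarith⟩
  let k : ContDiffBump (0 : E3) := ⟨9 / 25, 2 / 5, by norm_num, by norm_num⟩
  refine ⟨fun x => f x * (1 - k x), ⟨?_, ?_⟩, ?_, ?_, ?_⟩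
  · exact f.contDiff.mul (contDiff_const.sub k.contDiff)
  · exact f.hasCompactSupport.mul_right
  · intro x
    have h1 : 0 ≤ f x := f.nonneg
    have h2 : f x ≤ 1 := f.le_one
    have h3 : 0 ≤ k x := k.nonneg
    have h4 : k x ≤ 1 := k.le_one
    constructor
    · exact mul_nonneg h1 (by linarith)
    · nlinarith
  · intro x hx1 hx2
    have h1 : f x = 1 := by
      apply f.one_of_mem_closedBall
      rw [mem_closedBall_zero_iff]
      exact hx2
    have h2 : k x = 0 := by
      apply k.zero_of_le_dist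
      rw [dist_zero_right]
      exact hx1
    simp only [h1, h2]
    norm_num
  · have hcl : IsClosed {x : E3 | 9 / 25 ≤ ‖x‖ ∧ ‖x‖ ≤ 7 * R / 4} :=
      (isClosed_le continuous_const continuous_norm).inter
        (isClosed_le continuous_norm continuous_const)
    have hsub : tsupport (fun x => f x * (1 - k x)) ⊆ {x : E3 | 9 / 25 ≤ ‖x‖ ∧ ‖x‖ ≤ 7 * R / 4} := by
      apply closure_minimal _ hcl
      intro x hx
      rw [Function.mem_support] at hx
      constructor
      · by_contra hlt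
        push Not at hlt
        apply hx
        have h2 : k x = 1 := by
          apply k.one_of_mem_closedBall
          rw [mem_closedBall_zero_iff]
          exact hlt.le
        rw [h2, sub_self, mul_zero]
      · by_contra hlt
        push Not at hlt
        apply hx
        have h2 : f x = 0 := by
          apply f.zero_of_le_dist
          rw [dist_zero_right]
          exact hlt.le
        rw [h2, zero_mul]
    intro x hx
    obtain ⟨h3, h4⟩ := hsub hx
    exact ⟨by linarith, by linarith⟩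

theorem norm_inversion (x : E3) : ‖inversion x‖ = ‖x‖⁻¹ := by
  unfold inversion
  rw [norm_smul, norm_inv, norm_pow, norm_norm]
  by_cases hx : ‖x‖ = 0
  · rw [hx]
    simp
  · field_simp

theorem inv_mem {x : E3} (hx : x ∈ Ann (1 / 2) 2) : inversion x ∈ Ann (1 / 2) 2 := by
  obtain ⟨h1, h2⟩ := hx
  have h0 : 0 < ‖x‖ := by linarith
  have hn := norm_inversion x
  refine ⟨?_, ?_⟩
  · rw [hn, one_div]
    exact inv_strictAnti₀ h0 h2
  · rw [hn, inv_lt_comm₀ h0 two_pos, ← one_div]
    exact h1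

theorem inv_cont : ContinuousOn inversion (Ann (1 / 2) 2) := by
  intro x hx
  have h0 : ‖x‖ ^ 2 ≠ 0 := by
    have : 0 < ‖x‖ := by linarith [hx.1]
    positivity
  apply ContinuousAt.continuousWithinAt
  exact ((continuous_norm.pow 2).continuousAt.inv₀ h0).smul continuousAt_id

theorem ann_open (a b : ℝ) : IsOpen (Ann a b) :=
  (isOpen_lt continuous_const continuous_norm).inter (isOpen_lt continuous_norm continuous_const)

end PXLim

open PXLim in
/-- XLIM: existence of the sequence and its limit. -/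
theorem xlim_thm (h1 : API1) (_hch : CHAIN) (hb : BRID) (hco : CONT) (hp : CPT) (he : XEXI)
    (hr : XREF) (hv : XCOV) (hl : XLCG) (hu : XUNIF) : XLIM := by
  intro ε R g h hε hε1 hR hd hm
  obtain ⟨w₀, hw₀, hw01, hwin, hwout⟩ := exists_w0 (2 * R) (by linarith)
  obtain ⟨ζ, hζ, hζ01, hζ1, hζs⟩ := exists_zeta R hR
  have hr2 : 0 < R / 2 := by linarith
  obtain ⟨C, hC⟩ := hu ε g h (R / 2) (Ann (1 / 3) (2 * R)) ζ hε hε1 hr2 hd (ann_open _ _) hζ hζ01 hζs
  -- the solutions for fixed parameters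
  have hex : ∀ δ : ℝ, 0 < δ → δ ≤ 1 → ∃ (u : E3 → ℝ) (G : E3 → E3) (v : E3 → ℝ) (V : E3 → E3)
      (M : Fin 3 → E3 → E3),
      WSolZ (cA ε δ δ g) (cB ε δ g h) (ZS (2 * R)) w₀ u G ∧ (∀ᵐ x, 0 ≤ u x ∧ u x ≤ 1) ∧
      LSol (cA ε δ δ g) (cB ε δ g h) (Ann (2 / 5) (3 * R / 2)) v V ∧ H2 v V M ∧ Continuous v ∧
      (∀ᵐ x : E3, 1 ≤ ‖x‖ → ‖x‖ < 3 * R / 2 → v x = u x) ∧
      (∀ x ∈ Ann (1 / 2) 2, v (inversion x) = 2 - v x) ∧
      sq v + sqv V + ∑ i, sqv (M i) ≤ C := by
    intro δ hδ hδ1
    obtain ⟨c, L, hcoef⟩ := hb.coef ε δ δ g h (R / 2) hε hε1 hδ hδ hr2 hd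
    obtain ⟨u, G, hsol, hbdd⟩ := he _ _ c L _ hcoef (ZS (2 * R)) w₀ hw₀ hw01
      ⟨2 * R, fun x hx => Or.inr hx⟩
    obtain ⟨y, Y, hy, hy2, hyu, hyi⟩ := hr ε δ δ R g h w₀ hε hε1 hδ hδ hR hd hm hwin hwout u G hsol hbdd
    have hyabs : ∀ᵐ x, |y x| ≤ 2 := by
      filter_upwards [hy2] with x hx
      rw [abs_le]
      exact ⟨by linarith [hx.1], hx.2⟩
    obtain ⟨Z, N, hZ, hZC⟩ := hC δ δ hδ hδ1 hδ hδ1 y Y hy hyabs
    obtain ⟨C', _, hC'⟩ := hco
    obtain ⟨v, hv1, _, hv3⟩ := hC' _ _ _ hZ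
    have hvc : Continuous v := cont_of_holder hv3
    have hvH : H2 v Z N := h2_congr h1 hZ hv1
    have hvy : ∀ᵐ x : E3, 2 / 5 ≤ ‖x‖ → ‖x‖ ≤ 3 * R / 2 → v x = y x := by
      filter_upwards [hv1] with x hx ha hb
      rw [hx, hζ1 x ha hb, one_pow, one_mul]
    refine ⟨u, G, v, Z, N, hsol, hbdd, ?_, hvH, hvc, ?_, ?_, ?_⟩
    · refine hl _ _ c L _ hcoef (Ann (1 / 3) (2 * R)) _ y Y v Z hy hvH.h1 ?_ ?_
      · intro x hx
        exact ⟨by linarith [hx.1], by linarith [hx.2]⟩
      · filter_upwards [hvy] with x hx hx2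
        exact hx hx2.1.le hx2.2.le
    · filter_upwards [hvy, hyu] with x hx hx2 ha hb
      rw [hx (by linarith) hb.le, hx2 ha]
    · -- reflection
      have hinv := hv.null _ hvy
      have hae : ∀ᵐ x : E3, x ∈ Ann (1 / 2) 2 → v (inversion x) = 2 - v x := by
        filter_upwards [hvy, hinv, hyi] with x hx hx2 hx3 hxa
        have hxi := inv_mem hxa
        rw [hx2 (by linarith [hxi.1]) (by linarith [hxi.2]),
          hx3 ⟨by linarith [hxa.1], by linarith [hxa.2]⟩,
          hx (by linarith [hxa.1]) (by linarith [hxa.2])]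
      have hres : (fun x => v (inversion x)) =ᵐ[volume.restrict (Ann (1 / 2) 2)]
          fun x => 2 - v x := by
        rw [Filter.EventuallyEq, ae_restrict_iff' (ann_open _ _).measurableSet]
        exact hae
      exact Measure.eqOn_open_of_ae_eq hres (ann_open _ _)
        (hvc.comp_continuousOn inv_cont) (continuous_const.sub hvc).continuousOn
    · rw [sq_congr hv1]
      exact hZC
  have hδpos : ∀ n : ℕ, (0 : ℝ) < 1 / ((n : ℝ) + 1) := fun n => by positivity
  have hδle : ∀ n : ℕ, 1 / ((n : ℝ) + 1) ≤ (1 : ℝ) := by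
    intro n
    rw [div_le_one (by positivity)]
    have : (0 : ℝ) ≤ n := Nat.cast_nonneg n
    linarith
  have hδt : Tendsto (fun n : ℕ => 1 / ((n : ℝ) + 1)) atTop (𝓝 0) :=
    tendsto_one_div_add_atTop_nhds_zero_nat
  choose u G v V M hsol hbdd hloc hH2 hcont hout hrefl hbound using
    fun n : ℕ => hex (1 / ((n : ℝ) + 1)) (hδpos n) (hδle n)
  obtain ⟨s, w, F, N, hs, hw, hwc, hunif, hstrong, hae, hweak⟩ := hp v V M C hH2 hcont hbound
  refine ⟨w₀, fun n => 1 / ((s n : ℝ) + 1), fun n => 1 / ((s n : ℝ) + 1),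
    fun n => u (s n), fun n => G (s n), fun n => v (s n), fun n => V (s n), fun n => M (s n),
    C, w, F, N, ?_⟩
  exact
    { eps_pos := hε
      eps_lt := hε1
      hR := hR
      data := hd
      test := hw₀
      w₀_in := hwin
      w₀_out := hwout
      δ_pos := fun n => hδpos (s n)
      δ_le := fun n => hδle (s n)
      δ_tend := hδt.comp hs.tendsto_atTop
      κ_pos := fun n => hδpos (s n)
      κ_le := fun n => hδle (s n)
      κ_tend := hδt.comp hs.tendsto_atTop
      sol := fun n => hsol (s n)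
      bdd := fun n => hbdd (s n)
      loc := fun n => hloc (s n)
      h2 := fun n => hH2 (s n)
      cont := fun n => hcont (s n)
      out := fun n => hout (s n)
      refl := fun n => hrefl (s n)
      bound := fun n => hbound (s n)
      h2w := hw
      contw := hwc
      unif := hunif
      strong := hstrong
      ae := hae
      weak := hweak }

end Pool.Agent.PFlow.PB


end

section

/-!
# Block PX, module XODD: the odd part of a test function, continued by zero
-/

open MeasureTheory Filter Topology Set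
open scoped ContDiff RealInnerProductSpace Manifold

namespace Pool.Agent.PFlow.PB

open Pool.Agent.PenroseSph Pool.Agent.PFlow

namespace PXOdd

/-- Smooth cutoff functions. -/
lemma cutoff {S O : Set E3} (hS : IsClosed S) (hO : IsOpen O) (hSO : S ⊆ O) :
    ∃ ζ : E3 → ℝ, ContDiff ℝ ∞ ζ ∧ (∀ x ∈ S, ζ x = 1) ∧ tsupport ζ ⊆ O ∧
      ∀ x, 0 ≤ ζ x ∧ ζ x ≤ 1 := by
  obtain ⟨ζ, h0, h1, h2⟩ := exists_contMDiffMap_zero_one_nhds_of_isClosed (n := ⊤)
    (𝓘(ℝ, E3)) hO.isClosed_compl hS (by
      rw [Set.disjoint_left]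
      exact fun x hx hxS => hx (hSO hxS))
  refine ⟨ζ, ζ.contMDiff.contDiff, fun x hx => ?_, fun x hx => ?_, fun x => h2 x⟩
  · exact (h1.filter_mono (nhds_le_nhdsSet hx)).self_of_nhds
  · by_contra hxO
    have h3 : ∀ᶠ y in 𝓝 x, ζ y = 0 := h0.filter_mono (nhds_le_nhdsSet hxO)
    exact (notMem_tsupport_iff_eventuallyEq.2 h3) hx

lemma inv_contDiffAt {y : E3} (hy : y ≠ 0) : ContDiffAt ℝ ∞ inversion y := by
  have h0 : ‖y‖ ^ 2 ≠ 0 := pow_ne_zero 2 (norm_ne_zero_iff.2 hy)
  exact (((contDiff_norm_sq ℝ).contDiffAt (x := y)).inv h0).smul contDiffAt_id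

lemma norm_inv' (y : E3) : ‖inversion y‖ = ‖y‖⁻¹ := by
  unfold inversion
  rw [norm_smul, norm_inv, norm_pow, norm_norm]
  rcases eq_or_ne ‖y‖ 0 with h | h
  · rw [h]; simp
  · field_simp

lemma inv_sphere {y : E3} (hy : ‖y‖ = 1) : inversion y = y := by
  unfold inversion
  rw [hy]
  simp

lemma JT_sub (x ξ η : E3) : JT x (ξ - η) = JT x ξ - JT x η := by
  ext i
  simp [JT, vec, mul_sub, Finset.sum_sub_distrib]

lemma gr_zero {ζ : E3 → ℝ} {x : E3} (hx : x ∉ tsupport ζ) : gr ζ x = 0 := by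
  ext i
  rw [gr_apply, pd_eq, fderiv_of_notMem_tsupport (𝕜 := ℝ) hx]
  simp

/-- An estimate in `L²`. -/
lemma est {F : Type*} [NormedAddCommGroup F] (S : Set E3) (u v : E3 → F) (hu : MemLp u 2)
    (hv : MemLp v 2) :
    ∫ x, ‖S.indicator (fun x => u x - v x) x‖ ^ 2
      ≤ 2 * (∫ x, ‖u x‖ ^ 2) + 2 * ∫ x, ‖v x‖ ^ 2 := by
  have i1 := (int_sq u hu).const_mul 2
  have i2 := (int_sq v hv).const_mul 2
  rw [← integral_const_mul, ← integral_const_mul, ← integral_add i1 i2]
  refine integral_mono_of_nonneg (ae_of_all _ fun x => pow_nonneg (norm_nonneg _) 2) (i1.add i2)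
    (ae_of_all _ fun x => ?_)
  show ‖S.indicator (fun x => u x - v x) x‖ ^ 2 ≤ 2 * ‖u x‖ ^ 2 + 2 * ‖v x‖ ^ 2
  by_cases hx : x ∈ S
  · rw [indicator_of_mem hx]
    have h := norm_sub_le (u x) (v x)
    have h' : ‖u x - v x‖ ^ 2 ≤ (‖u x‖ + ‖v x‖) ^ 2 := pow_le_pow_left₀ (norm_nonneg _) h 2
    nlinarith [sq_nonneg (‖u x‖ - ‖v x‖)]
  · rw [indicator_of_notMem hx, norm_zero]
    have p1 : 0 ≤ ‖u x‖ ^ 2 := pow_nonneg (norm_nonneg _) 2
    have p2 : 0 ≤ ‖v x‖ ^ 2 := pow_nonneg (norm_nonneg _) 2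
    linarith

lemma meas_ext : MeasurableSet {x : E3 | 1 < ‖x‖} :=
  measurableSet_lt measurable_const measurable_norm

/-- The limit. -/
lemma lim (h1 : API1) (hv : XCOV) (hi : XH1I) {a b : ℝ} (ha : 0 < a) (hab : a < b)
    (f : E3 → ℝ) (F : E3 → E3) (hf : H1 f F) (hf0 : ∀ᵐ x, x ∉ Ann a b → f x = 0)
    (hF0 : ∀ᵐ x, x ∉ Ann a b → F x = 0)
    (fn : ℕ → E3 → ℝ) (Fn : ℕ → E3 → E3) (hn : ∀ n, H1 (fn n) (Fn n))
    (hn0 : ∀ n, ∀ᵐ x, x ∉ Ann a b → fn n x = 0) (hN0 : ∀ n, ∀ᵐ x, x ∉ Ann a b → Fn n x = 0)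
    (t1 : Tendsto (fun n => sq (fun x => fn n x - f x)) atTop (𝓝 0))
    (t2 : Tendsto (fun n => sqv (fun x => Fn n x - F x)) atTop (𝓝 0))
    (ht : ∀ n, H1 ({x : E3 | 1 < ‖x‖}.indicator fun x => fn n x - fn n (inversion x))
      ({x : E3 | 1 < ‖x‖}.indicator fun x => Fn n x - JT x (Fn n (inversion x)))) :
    H1 ({x : E3 | 1 < ‖x‖}.indicator fun x => f x - f (inversion x))
      ({x : E3 | 1 < ‖x‖}.indicator fun x => F x - JT x (F (inversion x))) := by
  have h := h1.sub _ _ _ _ hf (hi a b ha hab f F hf hf0)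
  obtain ⟨C, hC, m1, m2⟩ := hv.mem a b ha hab
  refine h1.closed _ _ _ _ ht (h.memf.indicator meas_ext) (h.memG.indicator meas_ext) ?_ ?_
  · have l : Tendsto (fun n => (2 + 2 * C) * sq (fun x => fn n x - f x)) atTop (𝓝 0) := by
      simpa using t1.const_mul (2 + 2 * C)
    refine squeeze_zero (fun n => sq_nonneg' _) (fun n => ?_) l
    have d := (hn n).memf.sub hf.memf
    have d' : MemLp (fun x => fn n x - f x) 2 := d
    obtain ⟨m3, m4⟩ := m1 (fun x => fn n x - f x) d' (by
      filter_upwards [hf0, hn0 n] with x hx hx' h'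
      rw [hx h', hx' h', sub_zero])
    have e := est {x : E3 | 1 < ‖x‖} _ _ d' m3
    rw [sq_eq]
    rw [sq_eq, sq_eq] at m4
    calc ∫ x, ‖({x : E3 | 1 < ‖x‖}.indicator fun x => fn n x - fn n (inversion x)) x
          - ({x : E3 | 1 < ‖x‖}.indicator fun x => f x - f (inversion x)) x‖ ^ 2
        = ∫ x, ‖{x : E3 | 1 < ‖x‖}.indicator
            (fun x => (fn n x - f x) - (fn n (inversion x) - f (inversion x))) x‖ ^ 2 := by
          congr 1
          funext x
          by_cases hx : x ∈ {x : E3 | 1 < ‖x‖}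
          · rw [indicator_of_mem hx, indicator_of_mem hx, indicator_of_mem hx]
            congr 2
            ring
          · rw [indicator_of_notMem hx, indicator_of_notMem hx, indicator_of_notMem hx, sub_zero]
      _ ≤ _ := e
      _ ≤ (2 + 2 * C) * sq (fun x => fn n x - f x) := by
          rw [sq_eq]
          linarith
  · have l : Tendsto (fun n => (2 + 2 * C) * sqv (fun x => Fn n x - F x)) atTop (𝓝 0) := by
      simpa using t2.const_mul (2 + 2 * C)
    refine squeeze_zero (fun n => sqv_nonneg' _) (fun n => ?_) l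
    have d' : MemLp (fun x => Fn n x - F x) 2 := (hn n).memG.sub hf.memG
    obtain ⟨m3, m4⟩ := m2 (fun x => Fn n x - F x) d' (by
      filter_upwards [hF0, hN0 n] with x hx hx' h'
      rw [hx h', hx' h', sub_zero])
    have e := est {x : E3 | 1 < ‖x‖} _ _ d' m3
    calc sqv (fun x => ({x : E3 | 1 < ‖x‖}.indicator
            fun x => Fn n x - JT x (Fn n (inversion x))) x
          - ({x : E3 | 1 < ‖x‖}.indicator fun x => F x - JT x (F (inversion x))) x)
        = ∫ x, ‖{x : E3 | 1 < ‖x‖}.indicator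
            (fun x => (Fn n x - F x) - JT x (Fn n (inversion x) - F (inversion x))) x‖ ^ 2 := by
          unfold sqv
          congr 1
          funext x
          beta_reduce
          by_cases hx : x ∈ {x : E3 | 1 < ‖x‖}
          · rw [indicator_of_mem hx, indicator_of_mem hx, indicator_of_mem hx]
            rw [JT_sub]
            congr 2
            abel
          · rw [indicator_of_notMem hx, indicator_of_notMem hx, indicator_of_notMem hx, sub_zero]
      _ ≤ _ := e
      _ ≤ (2 + 2 * C) * sqv (fun x => Fn n x - F x) := by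
          unfold sqv at m4 ⊢
          linarith

/-- The composition of a test function with the inversion is smooth. -/
lemma comp_smooth {g : E3 → ℝ} (hg : ContDiff ℝ ∞ g) {p q : ℝ} (hp : 0 < p) (hq : 0 < q)
    (h0 : ∀ x, x ∉ Ann p q → g x = 0) : ContDiff ℝ ∞ (fun x => g (inversion x)) := by
  rw [contDiff_iff_contDiffAt]
  intro x
  rcases eq_or_ne x 0 with rfl | hx
  · have h3 : (fun y => g (inversion y)) =ᶠ[𝓝 (0 : E3)] fun _ => 0 := by
      filter_upwards [Metric.ball_mem_nhds (0 : E3) (inv_pos.2 hq)] with z hz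
      rw [mem_ball_zero_iff] at hz
      refine h0 _ fun hA => ?_
      have h4 : p < ‖inversion z‖ ∧ ‖inversion z‖ < q := hA
      rw [norm_inv'] at h4
      have hz0 : 0 < ‖z‖ := by
        rcases (norm_nonneg z).eq_or_lt with h | h
        · rw [← h, inv_zero] at h4
          linarith [h4.1]
        · exact h
      have h5 := (inv_lt_comm₀ hz0 hq).1 h4.2
      linarith
    exact contDiffAt_const.congr_of_eventuallyEq h3
  · exact hg.contDiffAt.comp x (inv_contDiffAt hx)

/-- The composition of a test function with the inversion has compact support. -/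
lemma comp_cpt {g : E3 → ℝ} {p q : ℝ} (hp : 0 < p)
    (h0 : ∀ x, x ∉ Ann p q → g x = 0) : HasCompactSupport (fun x => g (inversion x)) := by
  refine HasCompactSupport.intro (isCompact_closedBall (0 : E3) p⁻¹) fun x hx => ?_
  rw [mem_closedBall_zero_iff, not_le] at hx
  refine h0 _ fun hA => ?_
  have h4 : p < ‖inversion x‖ ∧ ‖inversion x‖ < q := hA
  rw [norm_inv'] at h4
  have hx0 : 0 < ‖x‖ := (inv_pos.2 hp).trans hx
  have h5 := (inv_lt_comm₀ hp hx0).1 hx
  linarith [h4.1]

/-- The case of a test function. -/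
lemma smooth_case (h1 : API1) (h2 : API2) (hi : XH1I) (ht : XODT) {p q : ℝ} (hp : 0 < p)
    (hpq : p < q) (g : E3 → ℝ) (G : E3 → E3) (hg : Test g) (h0 : ∀ x, x ∉ Ann p q → g x = 0)
    (hG : H1 g G) :
    H1 ({x : E3 | 1 < ‖x‖}.indicator fun x => g x - g (inversion x))
      ({x : E3 | 1 < ‖x‖}.indicator fun x => G x - JT x (G (inversion x))) := by
  have c1 : ContDiff ℝ ∞ (fun x => g x - g (inversion x)) :=
    hg.smooth.sub (comp_smooth hg.smooth hp (hp.trans hpq) h0)
  have c2 : ContDiff ℝ 1 (fun x => g x - g (inversion x)) := c1.of_le (by exact_mod_cast le_top)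
  have c3 : HasCompactSupport (fun x => g x - g (inversion x)) := hg.cpt.sub (comp_cpt hp h0)
  have c4 := ht _ c2 c3 (fun x hx => by rw [inv_sphere hx, sub_self])
  have c5 := h2.ofC1 _ c2 c3
  have c6 := h1.sub _ _ _ _ hG (hi p q hp hpq g G hG (ae_of_all _ h0))
  have c7 := h1.unique _ _ _ c5 c6
  refine h1.congr _ _ _ _ c4 (EventuallyEq.refl _ _) ?_
  filter_upwards [c7] with x hx
  by_cases hxS : x ∈ {x : E3 | 1 < ‖x‖}
  · rw [indicator_of_mem hxS, indicator_of_mem hxS, hx]
  · rw [indicator_of_notMem hxS, indicator_of_notMem hxS]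

end PXOdd

open PXOdd in
/-- XODD. -/
theorem xodd_thm (h1 : API1) (h2 : API2) (hv : XCOV) (hi : XH1I) (ht : XODT) : XODD := by
  intro a b ha ha1 hb φ Φ hφ hφ0
  have ha' : 0 < a / 2 := by positivity
  have hab' : a / 2 < 2 * b := by linarith
  obtain ⟨η, hη, hη1, hηs, hη01⟩ := cutoff (S := {x : E3 | a ≤ ‖x‖ ∧ ‖x‖ ≤ b})
    (O := Ann (a / 2) (2 * b))
    ((isClosed_le continuous_const continuous_norm).inter
      (isClosed_le continuous_norm continuous_const))
    ((isOpen_lt continuous_const continuous_norm).inter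
      (isOpen_lt continuous_norm continuous_const))
    (fun x hx => ⟨by linarith [hx.1], by linarith [hx.2]⟩)
  have hη0 : ∀ x, x ∉ Ann (a / 2) (2 * b) → η x = 0 := fun x hx =>
    image_eq_zero_of_notMem_tsupport fun h => hx (hηs h)
  have hgη0 : ∀ x, x ∉ Ann (a / 2) (2 * b) → gr η x = 0 := fun x hx =>
    gr_zero fun h => hx (hηs h)
  have hηc : HasCompactSupport η := by
    refine HasCompactSupport.intro (isCompact_closedBall (0 : E3) (2 * b)) fun x hx => ?_
    rw [mem_closedBall_zero_iff, not_le] at hx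
    exact hη0 x fun h => absurd h.2 (not_lt.2 hx.le)
  have hηT : Test η := ⟨hη, hηc⟩
  have hηC : ContDiff ℝ 1 η := hη.of_le (by exact_mod_cast le_top)
  obtain ⟨C, hC⟩ : ∃ C, ∀ x, ‖gr η x‖ ≤ C :=
    (gr_cpt η hηc).exists_bound_of_continuous (h1.gr_cont η hηC)
  have b1 : ∀ x, |η x| ≤ max 1 C := fun x => by
    rw [abs_of_nonneg (hη01 x).1]
    exact (hη01 x).2.trans (le_max_left _ _)
  have b2 : ∀ x, ‖gr η x‖ ≤ max 1 C := fun x => (hC x).trans (le_max_right _ _)
  set D : ℝ := max 1 C with hD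
  have hD0 : 0 ≤ D := le_trans zero_le_one (le_max_left _ _)
  obtain ⟨φn, t0, t1, t2⟩ := hφ.approx
  have m1 := h2.mul φ Φ η D hφ hηC b1 b2
  have e1 : (fun x => η x * φ x) =ᵐ[volume] φ := by
    filter_upwards [hφ0] with x hx
    by_cases hA : x ∈ Ann a b
    · rw [hη1 x ⟨hA.1.le, hA.2.le⟩, one_mul]
    · rw [hx hA, mul_zero]
  have m2 : H1 φ (fun x => η x • Φ x + φ x • gr η x) :=
    h1.congr _ _ _ _ m1 e1 (EventuallyEq.refl _ _)
  have e2 : Φ =ᵐ[volume] fun x => η x • Φ x + φ x • gr η x := h1.unique φ Φ _ hφ m2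
  have m3 : ∀ n, H1 (fun x => η x * φn n x) (fun x => η x • gr (φn n) x + φn n x • gr η x) :=
    fun n => h2.mul _ _ η D (h1.ofTest _ (t0 n)) hηC b1 b2
  have hT : ∀ n, Test (fun x => η x * φn n x) := fun n => ⟨hη.mul (t0 n).smooth, hηc.mul_right⟩
  have key := lim h1 hv hi ha' hab' φ (fun x => η x • Φ x + φ x • gr η x) m2
    (by
      filter_upwards [hφ0] with x hx hA
      exact hx fun h => hA ⟨by linarith [h.1], by linarith [h.2]⟩)
    (ae_of_all _ fun x hx => by rw [hη0 x hx, hgη0 x hx, zero_smul, smul_zero, add_zero])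
    (fun n x => η x * φn n x) (fun n x => η x • gr (φn n) x + φn n x • gr η x) m3
    (fun n => ae_of_all _ fun x hx => by rw [hη0 x hx, zero_mul])
    (fun n => ae_of_all _ fun x hx => by
      rw [hη0 x hx, hgη0 x hx, zero_smul, smul_zero, add_zero])
    ?_ ?_ (fun n => smooth_case h1 h2 hi ht ha' hab' _ _ (hT n)
      (fun x hx => by rw [hη0 x hx, zero_mul]) (m3 n))
  · refine h1.congr _ _ _ _ key (EventuallyEq.refl _ _) ?_
    filter_upwards [e2, hv.null _ e2] with x hx hx'
    by_cases hxS : x ∈ {x : E3 | 1 < ‖x‖}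
    · rw [indicator_of_mem hxS, indicator_of_mem hxS, ← hx', ← hx]
    · rw [indicator_of_notMem hxS, indicator_of_notMem hxS]
  · have l : Tendsto (fun n => D ^ 2 * sq (fun x => φn n x - φ x)) atTop (𝓝 0) := by
      simpa using t1.const_mul (D ^ 2)
    refine squeeze_zero (fun n => sq_nonneg' _) (fun n => ?_) l
    have d' : MemLp (fun x => φn n x - φ x) 2 := (test_memLp _ (t0 n)).sub hφ.memf
    have i1 := (int_sq _ d').const_mul (D ^ 2)
    rw [sq_eq, sq_eq, ← integral_const_mul]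
    refine integral_mono_of_nonneg (ae_of_all _ fun x => pow_nonneg (norm_nonneg _) 2) i1 ?_
    filter_upwards [e1] with x hx
    show ‖η x * φn n x - φ x‖ ^ 2 ≤ D ^ 2 * ‖φn n x - φ x‖ ^ 2
    have e3 : η x * φn n x - φ x = η x * (φn n x - φ x) := by
      have : η x * φ x = φ x := hx
      rw [mul_sub, this]
    rw [e3, norm_mul, mul_pow]
    have := b1 x
    rw [← Real.norm_eq_abs] at this
    gcongr
  · have l : Tendsto (fun n => 2 * (D ^ 2 * sqv (fun x => gr (φn n) x - Φ x))
        + 2 * (D ^ 2 * sq (fun x => φn n x - φ x))) atTop (𝓝 0) := by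
      simpa using ((t2.const_mul (D ^ 2)).const_mul 2).add ((t1.const_mul (D ^ 2)).const_mul 2)
    refine squeeze_zero (fun n => sqv_nonneg' _) (fun n => ?_) l
    have d1 : MemLp (fun x => φn n x - φ x) 2 := (test_memLp _ (t0 n)).sub hφ.memf
    have d2 : MemLp (fun x => gr (φn n) x - Φ x) 2 :=
      (h1.ofTest _ (t0 n)).memG.sub hφ.memG
    have i1 := ((int_sq _ d1).const_mul (D ^ 2)).const_mul 2
    have i2 := ((int_sq _ d2).const_mul (D ^ 2)).const_mul 2
    rw [sq_eq]
    unfold sqv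
    rw [← integral_const_mul, ← integral_const_mul, ← integral_const_mul, ← integral_const_mul,
      ← integral_add i2 i1]
    refine integral_mono_of_nonneg (ae_of_all _ fun x => pow_nonneg (norm_nonneg _) 2) (i2.add i1)
      (ae_of_all _ fun x => ?_)
    show ‖(η x • gr (φn n) x + φn n x • gr η x) - (η x • Φ x + φ x • gr η x)‖ ^ 2
      ≤ 2 * (D ^ 2 * ‖gr (φn n) x - Φ x‖ ^ 2) + 2 * (D ^ 2 * ‖φn n x - φ x‖ ^ 2)
    have e3 : (η x • gr (φn n) x + φn n x • gr η x) - (η x • Φ x + φ x • gr η x)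
        = η x • (gr (φn n) x - Φ x) + (φn n x - φ x) • gr η x := by
      rw [smul_sub, sub_smul]
      abel
    rw [e3]
    have h3 := norm_add_le (η x • (gr (φn n) x - Φ x)) ((φn n x - φ x) • gr η x)
    rw [norm_smul, norm_smul] at h3
    have h4 : ‖η x‖ * ‖gr (φn n) x - Φ x‖ ≤ D * ‖gr (φn n) x - Φ x‖ := by
      have := b1 x
      rw [← Real.norm_eq_abs] at this
      gcongr
    have h5 : ‖φn n x - φ x‖ * ‖gr η x‖ ≤ D * ‖φn n x - φ x‖ := by
      rw [mul_comm]
      have := b2 x
      gcongr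
    have h6 : ‖η x • (gr (φn n) x - Φ x) + (φn n x - φ x) • gr η x‖
        ≤ D * ‖gr (φn n) x - Φ x‖ + D * ‖φn n x - φ x‖ := by linarith
    have h7 := pow_le_pow_left₀ (norm_nonneg _) h6 2
    nlinarith [sq_nonneg (D * ‖gr (φn n) x - Φ x‖ - D * ‖φn n x - φ x‖)]

end Pool.Agent.PFlow.PB


end

section

/-!
# Block PX, module XREF: the reflected function is a weak solution
-/

open MeasureTheory Filter Topology Set
open scoped ContDiff RealInnerProductSpace

namespace Pool.Agent.PFlow.PB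

open Pool.Agent.PenroseSph Pool.Agent.PFlow

namespace PXRef

/-! ### The inversion -/

theorem jac_inv {x : E3} (hx : x ≠ 0) :
    inversionJac (inversion x) = (‖x‖ ^ 2) ^ 2 • inversionJac x := by
  have h0 : ‖x‖ ≠ 0 := norm_ne_zero_iff.2 hx
  ext a i
  have h1 : ∀ k : Fin 3, inversion x k = (‖x‖ ^ 2)⁻¹ * x k := fun k => rfl
  simp only [inversionJac, Matrix.of_apply, Matrix.smul_apply, smul_eq_mul, h1,
    HSM2.norm_inversion x hx]
  field_simp

theorem jac_mul {x : E3} (hx : x ≠ 0) : inversionJac (inversion x) * inversionJac x = 1 := by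
  have h0 : ‖x‖ ≠ 0 := norm_ne_zero_iff.2 hx
  rw [jac_inv hx, Matrix.smul_mul, HSM2.jac_sq x hx, smul_smul]
  have : (‖x‖ ^ 2) ^ 2 * (‖x‖ ^ 2)⁻¹ ^ 2 = 1 := by
    field_simp
  rw [this, one_smul]

theorem JT_JT {x : E3} (hx : x ≠ 0) (v : E3) : JT x (JT (inversion x) v) = v := by
  ext i
  have h1 : ∀ b, ∑ a, inversionJac (inversion x) b a * inversionJac x a i =
      (1 : Bil) b i := by
    intro b
    rw [← jac_mul hx, Matrix.mul_apply]
  show ∑ a, inversionJac x a i * (∑ b, inversionJac (inversion x) b a * v b) = v i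
  calc ∑ a, inversionJac x a i * (∑ b, inversionJac (inversion x) b a * v b)
      = ∑ a, ∑ b, inversionJac (inversion x) b a * inversionJac x a i * v b := by
        refine Finset.sum_congr rfl fun a _ => ?_
        rw [Finset.mul_sum]
        exact Finset.sum_congr rfl fun b _ => by ring
    _ = ∑ b, ∑ a, inversionJac (inversion x) b a * inversionJac x a i * v b := Finset.sum_comm
    _ = ∑ b, (1 : Bil) b i * v b := by
        refine Finset.sum_congr rfl fun b _ => ?_
        rw [← Finset.sum_mul, h1]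
    _ = v i := by
        rw [Finset.sum_eq_single i]
        · rw [Matrix.one_apply_eq, one_mul]
        · intro b _ hb
          rw [Matrix.one_apply_ne hb, zero_mul]
        · intro h
          exact absurd (Finset.mem_univ i) h

theorem inv_inv (x : E3) : inversion (inversion x) = x := by
  by_cases hx : x = 0
  · subst hx
    simp [inversion]
  · exact HSM2.inversion_inversion x hx

theorem norm_inv (x : E3) : ‖inversion x‖ = ‖x‖⁻¹ := by
  by_cases hx : x = 0
  · subst hx
    simp [inversion]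
  · exact HSM2.norm_inversion x hx

theorem JT_zero (x : E3) : JT x 0 = 0 := by
  ext i
  show ∑ a, inversionJac x a i * (0 : E3) a = 0
  simp

/-! ### Integrability -/

theorem memA {A : E3 → E3 → E3} {B : E3 → E3 → ℝ} {c L r : ℝ} (hP : PCoef A B c L r)
    {G : E3 → E3} (hG : MemLp G 2) : MemLp (fun x => A x (G x)) 2 := by
  refine hG.of_le_mul (c := L) ?_ (ae_of_all _ fun x => ?_)
  · exact hP.smoothA.continuous.comp_aestronglyMeasurable
      (aestronglyMeasurable_id.prodMk hG.1)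
  · have := hP.lipA x (G x) 0
    rwa [hP.A_zero x, sub_zero, sub_zero] at this

theorem memB {A : E3 → E3 → E3} {B : E3 → E3 → ℝ} {c L r : ℝ} (hP : PCoef A B c L r)
    {G : E3 → E3} (hG : MemLp G 2) : MemLp (fun x => B x (G x)) 2 := by
  refine hG.of_le_mul (c := L) ?_ (ae_of_all _ fun x => ?_)
  · exact hP.smoothB.continuous.comp_aestronglyMeasurable
      (aestronglyMeasurable_id.prodMk hG.1)
  · have := hP.lipB x (G x) 0
    rwa [hP.B_zero x, sub_zero, sub_zero] at this

theorem int_inner {X Y : E3 → E3} (hX : MemLp X 2) (hY : MemLp Y 2) :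
    Integrable (fun x => ⟪X x, Y x⟫) := by
  refine (hX.norm.integrable_mul hY.norm).mono' (hX.1.inner hY.1) (ae_of_all _ fun x => ?_)
  exact norm_inner_le_norm (X x) (Y x)

theorem int_mulr {f g : E3 → ℝ} (hf : MemLp f 2) (hg : MemLp g 2) :
    Integrable (fun x => f x * g x) := hf.integrable_mul hg

/-- The cut-off function. -/
noncomputable def cut : ContDiffBump (0 : E3) where
  rIn := 3
  rOut := 4
  rIn_pos := by norm_num
  rIn_lt_rOut := by norm_num

theorem cut_test : Test (cut : E3 → ℝ) := ⟨cut.contDiff, cut.hasCompactSupport⟩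

theorem cut_one {x : E3} (hx : ‖x‖ ≤ 3) : cut x = 1 :=
  cut.one_of_mem_closedBall (by rwa [Metric.mem_closedBall, dist_zero_right])

theorem cut_zero {x : E3} (hx : 4 ≤ ‖x‖) : cut x = 0 :=
  cut.zero_of_le_dist (by rwa [dist_zero_right])

theorem gr_cut {x : E3} (hx : ‖x‖ < 3) : gr (cut : E3 → ℝ) x = 0 := by
  have h1 : (cut : E3 → ℝ) =ᶠ[𝓝 x] fun _ => 1 := by
    have h2 : ∀ᶠ y in 𝓝 x, ‖y‖ < 3 := (continuous_norm.tendsto x).eventually_lt_const hx
    filter_upwards [h2] with y hy
    exact cut_one hy.le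
  ext i
  show pd i (cut : E3 → ℝ) x = 0
  unfold pd
  rw [h1.fderiv_eq]
  simp

theorem ae_ne_one : ∀ᵐ x : E3, ‖x‖ ≠ 1 := by
  have h := Measure.addHaar_sphere (volume : Measure E3) 0 1
  refine measure_mono_null ?_ h
  intro x hx
  have h3 : ¬ ‖x‖ ≠ 1 := hx
  rw [Metric.mem_sphere, dist_zero_right]
  exact not_not.1 h3

theorem isOpen_Ann (a b : ℝ) : IsOpen (Ann a b) :=
  (isOpen_lt continuous_const continuous_norm).inter
    (isOpen_lt continuous_norm continuous_const)

end PXRef

open PXRef in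
/-- XREF. -/
theorem xref_thm (h1 : API1) (h2 : API2) (hc : CHAIN) (hb : BRID) (hn : XINV) (hv : XCOV)
    (hi : XH1I) (ho : XODD) : XREF := by
  intro ε δ κ R g h w₀ hε hε1 hδ hκ hR hd hmir hw1 hw0 u G hs h01
  obtain ⟨c, L, hP⟩ := hb.coef ε δ κ g h (R / 2) hε hε1 hδ hκ (by linarith) hd
  obtain ⟨hu, huZ, hweak⟩ := hs
  set A := cA ε δ κ g with hA
  set B := cB ε δ g h with hB
  have huin : ∀ᵐ x : E3, ‖x‖ ≤ 1 → u x = 1 := by
    filter_upwards [huZ] with x hx h3
    rw [hx (Or.inl h3), hw1 x h3]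
  -- bounds of the cut-off function
  obtain ⟨C, hC1, hC2⟩ : ∃ C, (∀ x, |(cut : E3 → ℝ) x| ≤ C) ∧
      ∀ x, ‖gr (cut : E3 → ℝ) x‖ ≤ C := by
    obtain ⟨C1, hC1⟩ := (gr_cpt _ cut_test.cpt).exists_bound_of_continuous
      (gr_cont _ cut_test.one)
    refine ⟨max C1 1, fun x => ?_, fun x => (hC1 x).trans (le_max_left _ _)⟩
    rw [abs_of_nonneg cut.nonneg]
    exact cut.le_one.trans (le_max_right _ _)
  obtain ⟨f, hf⟩ : ∃ f : E3 → ℝ, f = fun x => cut x * u x - cut x := ⟨_, rfl⟩
  obtain ⟨F, hF⟩ : ∃ F : E3 → E3, F = fun x =>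
      (cut x • G x + u x • gr (cut : E3 → ℝ) x) - gr (cut : E3 → ℝ) x := ⟨_, rfl⟩
  have hfx : ∀ x, f x = cut x * u x - cut x := fun x => by rw [hf]
  have hFx : ∀ x, F x = (cut x • G x + u x • gr (cut : E3 → ℝ) x) - gr (cut : E3 → ℝ) x :=
    fun x => by rw [hF]
  have hfF : H1 f F := by
    rw [hf, hF]
    exact h1.sub _ _ _ _ (h2.mul u G cut C hu cut_test.one hC1 hC2) (h1.ofTest _ cut_test)
  have hf0 : ∀ᵐ x : E3, x ∉ Ann (1 / 2) 5 → f x = 0 := by
    filter_upwards [huin] with x hx hxA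
    rw [hfx]
    by_cases h3 : ‖x‖ ≤ 1
    · rw [hx h3]
      ring
    · have h4 : 5 ≤ ‖x‖ := by
        by_contra h5
        push Not at h5 h3
        exact hxA ⟨by linarith, h5⟩
      rw [cut_zero (by linarith)]
      ring
  have hq := hi (1 / 2) 5 (by norm_num) (by norm_num) f F hfF hf0
  obtain ⟨y, hyd⟩ : ∃ y : E3 → ℝ, y = fun x => u x - f (inversion x) := ⟨_, rfl⟩
  obtain ⟨Y, hYd⟩ : ∃ Y : E3 → E3, Y = fun x => G x - JT x (F (inversion x)) := ⟨_, rfl⟩
  have hyx : ∀ x, y x = u x - f (inversion x) := fun x => by rw [hyd]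
  have hYx : ∀ x, Y x = G x - JT x (F (inversion x)) := fun x => by rw [hYd]
  have hy : H1 y Y := by
    rw [hyd, hYd]
    exact h1.sub _ _ _ _ hu hq
  -- the values of `y`
  have hf1 : ∀ᵐ x : E3, 1 ≤ ‖x‖ → f (inversion x) = 0 := by
    filter_upwards [hv.null _ huin] with x hx h3
    have h4 : ‖inversion x‖ ≤ 1 := by
      rw [norm_inv]
      exact inv_le_one_of_one_le₀ h3
    rw [hfx, hx h4]
    ring
  have hyout : ∀ᵐ x : E3, 1 ≤ ‖x‖ → y x = u x := by
    filter_upwards [hf1] with x hx h3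
    rw [hyx, hx h3, sub_zero]
  have hyin : ∀ᵐ x : E3, 1 / 3 < ‖x‖ → ‖x‖ < 1 → y x = 2 - u (inversion x) := by
    filter_upwards [huin] with x hx h3 h4
    have h5 : ‖inversion x‖ ≤ 3 := by
      rw [norm_inv]
      rw [inv_le_comm₀ (by linarith) (by norm_num)]
      linarith
    rw [hyx, hx h4.le, hfx, cut_one h5]
    ring
  have hy02 : ∀ᵐ x, 0 ≤ y x ∧ y x ≤ 2 := by
    filter_upwards [huin, hyout, h01, hv.null _ h01] with x h3 h4 h5 h6
    by_cases h7 : 1 ≤ ‖x‖
    · rw [h4 h7]
      exact ⟨h5.1, by linarith [h5.2]⟩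
    · push Not at h7
      rw [hyx, h3 h7.le, hfx]
      have h8 : 0 ≤ cut (inversion x) := cut.nonneg
      have h9 : cut (inversion x) ≤ 1 := cut.le_one
      constructor
      · nlinarith [h6.1, h6.2]
      · nlinarith [h6.1, h6.2]
  have hyrefl : ∀ᵐ x : E3, x ∈ Ann (1 / 3) 3 → y (inversion x) = 2 - y x := by
    filter_upwards [hyout, hyin, hv.null _ hyout, hv.null _ hyin, ae_ne_one] with
      x h3 h4 h5 h6 h7 h8
    have hx0 : 0 < ‖x‖ := by
      have := h8.1
      linarith
    rcases lt_or_gt_of_ne h7 with h9 | h9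
    · have h10 : 1 ≤ ‖inversion x‖ := by
        rw [norm_inv]
        exact (one_le_inv₀ hx0).2 h9.le
      rw [h5 h10, h4 h8.1 h9]
      ring
    · have h10 : ‖inversion x‖ < 1 := by
        rw [norm_inv]
        exact inv_lt_one_of_one_lt₀ h9
      have h11 : 1 / 3 < ‖inversion x‖ := by
        rw [norm_inv, lt_inv_comm₀ (by norm_num) hx0]
        have := h8.2
        linarith
      rw [h6 h11 h10, h3 h9.le, inv_inv]
  -- the gradient of `y`
  have hYout : ∀ᵐ x : E3, 1 ≤ ‖x‖ → Y x = G x := by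
    filter_upwards [hf1, hc.zero _ _ hq] with x h3 h4 h5
    rw [hYx, h4 (h3 h5), sub_zero]
  have hGin : ∀ᵐ x : E3, ‖x‖ ≤ 1 → G x = 0 := by
    filter_upwards [huin, hc.zero _ _ (h1.sub _ _ _ _ hu (h1.ofTest _ cut_test))] with x h3 h4 h5
    have h6 := h4 (by rw [h3 h5, cut_one (by linarith), sub_self])
    rwa [gr_cut (by linarith), sub_zero] at h6
  have hYin : ∀ᵐ x : E3, 1 / 3 < ‖x‖ → ‖x‖ < 1 → Y x = -JT x (G (inversion x)) := by
    filter_upwards [hGin] with x h3 h4 h5
    have h6 : ‖inversion x‖ < 3 := by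
      rw [norm_inv]
      rw [inv_lt_comm₀ (by linarith) (by norm_num)]
      linarith
    rw [hYx, h3 h5.le, hFx, cut_one h6.le, gr_cut h6, one_smul, smul_zero, add_zero, sub_zero,
      zero_sub]
  refine ⟨y, Y, ⟨hy, ?_⟩, hy02, hyout, hyrefl⟩
  rintro φ Φ hφ ⟨K, hK, hKU, hφK⟩
  have hφA : ∀ᵐ x, x ∉ Ann (1 / 3) (2 * R) → φ x = 0 := by
    filter_upwards [hφK] with x hx h3
    exact hx fun h4 => h3 (hKU h4)
  have hΦA : ∀ᵐ x, x ∉ Ann (1 / 3) (2 * R) → Φ x = 0 := by
    filter_upwards [hφA, hc.zero φ Φ hφ] with x h3 h4 h5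
    exact h4 (h3 h5)
  have hψ := ho (1 / 3) (2 * R) (by norm_num) (by norm_num) (by linarith) φ Φ hφ hφA
  obtain ⟨O, hO⟩ : ∃ O : Set E3, O = {x : E3 | 1 < ‖x‖} := ⟨_, rfl⟩
  rw [← hO] at hψ
  have hOx : ∀ x, x ∈ O ↔ 1 < ‖x‖ := fun x => by rw [hO]; rfl
  have hOm : MeasurableSet O := by
    rw [hO]
    exact (isOpen_lt continuous_const continuous_norm).measurableSet
  have hfar : ∀ x : E3, 3 ≤ ‖x‖ → inversion x ∉ Ann (1 / 3) (2 * R) := by
    rintro x hx ⟨h8, -⟩
    rw [norm_inv, lt_inv_comm₀ (by norm_num) (by linarith)] at h8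
    linarith
  have hψZ : ∀ᵐ x, x ∈ ZS (2 * R) → O.indicator (fun x => φ x - φ (inversion x)) x = 0 := by
    filter_upwards [hφA, hv.null _ hφA] with x h3 h4 h5
    by_cases h6 : x ∈ O
    · rw [indicator_of_mem h6]
      have h7 : 2 * R ≤ ‖x‖ := by
        rcases h5 with h5 | h5
        · exact absurd ((hOx x).1 h6) (not_lt.2 h5)
        · exact h5
      rw [h3 (fun h8 => absurd h8.2 (not_lt.2 h7)), h4 (hfar x (by linarith)), sub_zero]
    · exact indicator_of_notMem h6 _
  have e0 := hweak _ _ hψ hψZ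
  -- the integrands
  have mAG := memA hP hu.memG
  have mBG := memB hP hu.memG
  have mAY := memA hP hy.memG
  have mBY := memB hP hy.memG
  obtain ⟨D1, hD1⟩ : ∃ D1 : E3 → ℝ, D1 = fun x => ⟪A x (G x), Φ x⟫ - B x (G x) * φ x := ⟨_, rfl⟩
  obtain ⟨kk, hkk⟩ : ∃ kk : E3 → ℝ, kk = fun x =>
    ⟪A x (G x), JT x (Φ (inversion x))⟫ - B x (G x) * φ (inversion x) := ⟨_, rfl⟩
  obtain ⟨D, hD⟩ : ∃ D : E3 → ℝ, D = fun x => ⟪A x (Y x), Φ x⟫ - B x (Y x) * φ x := ⟨_, rfl⟩
  obtain ⟨E0, hE0⟩ : ∃ E0 : E3 → ℝ, E0 = fun x =>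
    ⟪A x (G x), O.indicator (fun x => Φ x - JT x (Φ (inversion x))) x⟫ -
      B x (G x) * O.indicator (fun x => φ x - φ (inversion x)) x := ⟨_, rfl⟩
  have iD1 : Integrable D1 := by
    rw [hD1]
    exact (int_inner mAG hφ.memG).sub (int_mulr mBG hφ.memf)
  have iD : Integrable D := by
    rw [hD]
    exact (int_inner mAY hφ.memG).sub (int_mulr mBY hφ.memf)
  have iE0 : Integrable E0 := by
    rw [hE0]
    exact (int_inner mAG hψ.memG).sub (int_mulr mBG hψ.memf)
  have hE0z : ∫ x, E0 x = 0 := by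
    rw [hE0]
    rw [integral_sub (int_inner mAG hψ.memG) (int_mulr mBG hψ.memf), e0, sub_self]
  have hE0O : ∀ x ∈ O, E0 x = D1 x - kk x := by
    intro x hx
    simp only [hE0, hD1, hkk]
    rw [indicator_of_mem hx, indicator_of_mem hx, inner_sub_right]
    ring
  have hE0c : ∀ x, x ∉ O → E0 x = 0 := by
    intro x hx
    simp only [hE0]
    rw [indicator_of_notMem hx, indicator_of_notMem hx, inner_zero_right]
    ring
  have ikk : IntegrableOn kk O := by
    refine (iD1.integrableOn.sub iE0.integrableOn).congr_fun (fun x hx => ?_) hOm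
    show D1 x - E0 x = kk x
    rw [hE0O x hx]
    ring
  have f1 : ∫ x in O, kk x = ∫ x in O, D1 x := by
    have f2 : ∫ x in O, E0 x = 0 := by
      rw [setIntegral_eq_integral_of_forall_compl_eq_zero hE0c, hE0z]
    have f3 : ∫ x in O, E0 x = ∫ x in O, (D1 x - kk x) :=
      setIntegral_congr_fun hOm hE0O
    rw [f3, integral_sub iD1.integrableOn ikk] at f2
    linarith
  -- the integral outside of the unit ball
  have g1 : ∫ x in O, D x = ∫ x in O, D1 x := by
    refine setIntegral_congr_ae hOm ?_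
    filter_upwards [hYout] with x hx hxO
    simp only [hD, hD1]
    rw [hx ((hOx x).1 hxO).le]
  -- the integral inside
  have g2 : ∫ x in Oᶜ, D x = ∫ x in Ann (1 / 3) 1, D x := by
    refine setIntegral_eq_of_subset_of_ae_sdiff_eq_zero hOm.compl.nullMeasurableSet ?_ ?_
    · intro x hx hxO
      exact absurd ((hOx x).1 hxO) (not_lt.2 hx.2.le)
    · filter_upwards [hφA, hΦA, ae_ne_one] with x h3 h4 h5 h6
      have h7 : ‖x‖ < 1 := by
        refine lt_of_le_of_ne ?_ h5
        have := h6.1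
        rw [mem_compl_iff, hOx, not_lt] at this
        exact this
      have h8 : x ∉ Ann (1 / 3) (2 * R) := fun h9 => h6.2 ⟨h9.1, h7⟩
      simp only [hD]
      rw [h3 h8, h4 h8, inner_zero_right, mul_zero, sub_zero]
  have g3 : ∫ x in Ann (1 / 3) 1, D x =
      ∫ x in Ann (1 / 3) 1, -((‖x‖ ^ 6)⁻¹ * kk (inversion x)) := by
    refine setIntegral_congr_ae (isOpen_Ann _ _).measurableSet ?_
    filter_upwards [hYin] with x hx hxA
    have hx0 : x ≠ 0 := by
      rw [← norm_pos_iff]
      have := hxA.1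
      linarith
    obtain ⟨k1, k2⟩ := hn ε δ κ g h (R / 2) hδ hd hmir x (by linarith [hxA.1])
      (by linarith [hxA.2])
    simp only [hD, hkk]
    rw [hx hxA.1 hxA.2, hB, k2 (G (inversion x)), inv_inv]
    have h3 : ⟪A x (-JT x (G (inversion x))), Φ x⟫ =
        -((‖x‖ ^ 6)⁻¹ * ⟪A (inversion x) (G (inversion x)), JT (inversion x) (Φ x)⟫) := by
      have h4 := k1 (G (inversion x)) (JT (inversion x) (Φ x))
      rw [JT_JT hx0] at h4
      exact h4
    rw [h3]
    ring
  have hAnn : Ann (1 : ℝ)⁻¹ (1 / 3 : ℝ)⁻¹ = Ann 1 3 := by norm_num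
  have g4 : ∫ x in O, kk x = ∫ x in Ann 1 3, kk x := by
    refine setIntegral_eq_of_subset_of_ae_sdiff_eq_zero hOm.nullMeasurableSet ?_ ?_
    · intro x hx
      exact (hOx x).2 hx.1
    · filter_upwards [hv.null _ hφA, hv.null _ hΦA] with x h3 h4 h6
      have h7 : 3 ≤ ‖x‖ := by
        by_contra h8
        exact h6.2 ⟨(hOx x).1 h6.1, not_le.1 h8⟩
      simp only [hkk]
      rw [h3 (hfar x h7), h4 (hfar x h7), JT_zero, inner_zero_right, mul_zero, sub_zero]
  have g5 := (hv.int (1 / 3) 1 (by norm_num) (by norm_num) kk (by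
    rw [hAnn]
    exact ikk.mono_set fun x hx => (hOx x).2 hx.1)).2
  rw [hAnn] at g5
  have g6 : ∫ x, D x = 0 := by
    rw [← integral_add_compl hOm iD, g1, g2, g3, integral_neg, g5, ← g4, f1]
    ring
  rw [hD, integral_sub (int_inner mAY hφ.memG) (int_mulr mBY hφ.memf)] at g6
  linarith

end Pool.Agent.PFlow.PB


end

section

/-!
# Exterior regions: the level set inequality for a setup
-/

set_option autoImplicit false

open MeasureTheory Filter Topology
open scoped ContDiff ENNReal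

namespace Pool.Agent.PFlow

open Pool.Agent.PenroseSph

namespace XABSMaux

/-- A bounded measurable function of `w` times a function integrable over the level regions. -/
theorem int_mul {P : ParX} {D : DatX} {f : E3 → ℝ} (hf : LvlIntX P D f) (hw : Measurable (D.w P))
    (hm : MeasurableSet D.Om) {ψ : ℝ → ℝ} (hc : Continuous ψ)
    (hcs : HasCompactSupport ψ) {s' : ℝ} (hs' : s' < D.sM P) (h4 : tsupport ψ ⊆ Set.Iic s') :
    IntegrableOn (fun x => ψ (D.w P x) * f x) D.Om := by
  set S : Set E3 := D.Om ∩ {x | D.w P x ≤ s'} with hS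
  have hSm : MeasurableSet S := hm.inter (measurableSet_le hw measurable_const)
  obtain ⟨C, hC⟩ := hc.bounded_above_of_compact_support hcs
  have hi : IntegrableOn (fun x => ψ (D.w P x) * f x) S := by
    refine Integrable.bdd_mul (c := C) (hf s' hs')
      (hc.measurable.comp hw).aestronglyMeasurable ?_
    exact Eventually.of_forall fun x => hC _
  have hz : ∀ x ∈ D.Om \ S, ψ (D.w P x) * f x = 0 := by
    intro x hx
    have hnot : D.w P x ∉ tsupport ψ := fun hmem => hx.2 ⟨hx.1, h4 hmem⟩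
    rw [image_eq_zero_of_notMem_tsupport hnot, zero_mul]
  exact hi.of_forall_sdiff_eq_zero hm hz

end XABSMaux

open XABSMaux in
theorem XABSM (hXSETW : Stmt_XSETW) (hXABSI : Stmt_XABSI) (hMIX : Stmt_MIX) : Stmt_XABSM := by
  intro P D hS ψ hψ hψ0 hcs hsupp
  obtain ⟨-, -, -, -, -, -, hw, -, -, -, -, hR2, -, -, -, -, hs2, hsM, hKR,
    hlK⟩ := hXSETW P D hS
  obtain ⟨-, -, -, hDi, hSu, hMat, -, hSuMat, -⟩ := hXABSI P D hS
  have hl := hS.l_ge
  have hgam := hS.gam_ge
  have heps := hS.eps_pos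
  have heps' := hS.eps_le
  have hR : 64 ≤ D.R := by linarith
  have hOm : MeasurableSet D.Om := by
    unfold DatX.Om Ann
    exact (measurableSet_lt measurable_const measurable_norm).inter
      (measurableSet_lt measurable_norm measurable_const)
  obtain ⟨s', hs1, hs', h4⟩ : ∃ s', 1 < s' ∧ s' < D.sM P ∧ tsupport ψ ⊆ Set.Iio s' := by
    by_cases hne : (tsupport ψ).Nonempty
    · have hK : IsCompact (tsupport ψ) := hcs
      obtain ⟨b, hb, hbmax⟩ := hK.exists_isGreatest hne
      have hb' : b < D.sM P := hsupp hb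
      refine ⟨(max b 1 + D.sM P) / 2, ?_, ?_, ?_⟩
      · have := le_max_right b 1
        linarith
      · have : max b 1 < D.sM P := max_lt hb' (by linarith)
        linarith
      · intro x hx
        have e2 : x ≤ b := hbmax hx
        have e3 := le_max_left b 1
        have : max b 1 < D.sM P := max_lt hb' (by linarith)
        show x < _
        linarith
    · rw [Set.not_nonempty_iff_eq_empty] at hne
      refine ⟨(1 + D.sM P) / 2, by linarith, by linarith, ?_⟩
      rw [hne]
      exact Set.empty_subset _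
  have hII : Set.Iio s' ⊆ Set.Iic s' := Set.Iio_subset_Iic_self
  -- the shifted function
  set φ : ℝ → ℝ := fun s => ψ (s + P.eps / 4) with hφ
  have hφc : ContDiff ℝ 1 φ := hψ.comp (contDiff_id.add contDiff_const)
  have hφ0 : ∀ s, 0 ≤ φ s := fun s => hψ0 _
  have hφcs : HasCompactSupport φ :=
    hcs.comp_homeomorph (Homeomorph.addRight (P.eps / 4))
  have hφs : tsupport φ ⊆ Set.Iio (s' - P.eps / 4) := by
    have h1 : tsupport φ ⊆ (fun s => s + P.eps / 4) ⁻¹' tsupport ψ :=
      tsupport_comp_subset_preimage ψ (by fun_prop)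
    intro x hx
    have h2 : x + P.eps / 4 < s' := h4 (h1 hx)
    show x < _
    linarith
  have hder : ∀ s, deriv φ s = deriv ψ (s + P.eps / 4) := fun s =>
    deriv_comp_add_const ψ (P.eps / 4) s
  have hint : ∫ s in Set.Ioi 0, φ s = ∫ s in Set.Ioi (P.eps / 4), ψ s := by
    have h1 := (measurePreserving_add_right volume (P.eps / 4)).setIntegral_preimage_emb
      (measurableEmbedding_addRight (P.eps / 4)) ψ (Set.Ioi (P.eps / 4))
    have h2 : (fun s : ℝ => s + P.eps / 4) ⁻¹' Set.Ioi (P.eps / 4) = Set.Ioi 0 := by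
      ext s
      simp
    rw [h2] at h1
    exact h1
  have hm := hMIX P.eps D.R P.c (s' - P.eps / 4) D.g' D.h' D.u D.G D.M heps heps' (by linarith)
    hS.c_pos (by linarith) hS.modified.metric hS.modified.tensor hS.modified.mirror hS.sol
    hS.located.pos hS.located.strict hS.located.inner
    ⟨D.R / 2, by linarith, by linarith, fun x hx1 hx2 => by
      by_contra hcon
      push Not at hcon
      have h1 : D.w P x < D.sM P := by
        unfold DatX.w
        linarith
      have h2 : x ∈ D.Om := ⟨by show (1:ℝ) < ‖x‖; linarith, hx2⟩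
      have := hR2 x h2 h1
      linarith⟩ φ hφc hφ0 hφcs hφs
  simp only [hder] at hm
  rw [hint] at hm
  have hiDi := int_mul hDi hw hOm hψ.continuous hcs hs' (h4.trans hII)
  have hiSu := int_mul hSu hw hOm hψ.continuous hcs hs' (h4.trans hII)
  have hiMat := int_mul hMat hw hOm hψ.continuous hcs hs' (h4.trans hII)
  have hle : ∫ x in D.Om, ψ (D.w P x) * (D.Su P x + D.Di P x) * D.vol x
      ≤ ∫ x in D.Om, ψ (D.w P x) * (len D.g' x (D.Gw P x)
          * (matter D.g' D.h' x (D.Gw P x) + diss P.eps D.g' D.h' x (D.Gw P x) (D.Mw P x)))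
          * volDen D.g' x := by
    refine setIntegral_mono_on ?_ ?_ hOm ?_
    · refine (hiSu.add hiDi).congr (Eventually.of_forall fun x => ?_)
      simp only [Pi.add_apply]
      ring
    · refine (hiMat.add hiDi).congr (Eventually.of_forall fun x => ?_)
      simp only [Pi.add_apply, DatX.Di, DatX.X, DatX.vol]
      ring
    · intro x hx
      have h3 : 0 ≤ volDen D.g' x := Real.sqrt_nonneg _
      have h4 : D.Su P x + D.Di P x ≤ len D.g' x (D.Gw P x)
          * (matter D.g' D.h' x (D.Gw P x) + diss P.eps D.g' D.h' x (D.Gw P x) (D.Mw P x)) := by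
        have := hSuMat x hx
        simp only [DatX.Di, DatX.X] at this ⊢
        linarith
      exact mul_le_mul_of_nonneg_right (mul_le_mul_of_nonneg_left h4 (hψ0 _)) h3
  change -(∫ x in Ann 1 D.R, deriv ψ (D.w P x) * D.Phi P x * D.vol x) ≤ _
  change _ ≤ 4 * Real.pi * (∫ s in Set.Ioi (P.eps / 4), ψ s)
    - 1 / (2 - P.eps) * (∫ x in Ann 1 D.R, ψ (D.w P x) * D.Phi P x * D.vol x)
    - ∫ x in Ann 1 D.R, ψ (D.w P x) * (D.Su P x + D.Di P x) * D.vol x
  refine hm.trans ?_
  exact sub_le_sub_left hle _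

end Pool.Agent.PFlow


end

section

/-!
# XMODM: the constant of the modified data of the exterior case may be increased
-/

open MeasureTheory Filter Topology
open scoped ContDiff

namespace Pool.Agent.PFlow

open Pool.Agent.PenroseSph

namespace XEMODM

lemma decay_mono {C C' R : ℝ} {g h : TensorField} (hR : 0 < R) (hC : C ≤ C')
    (hd : DecayFrom C R g h) : DecayFrom C' R g h := by
  intro x hx i j
  have hr : 0 < ‖x‖ := by linarith
  obtain ⟨h1, h2, h3, h4, h5⟩ := hd x hx i j
  have hm : ∀ n : ℕ, C / ‖x‖ ^ n ≤ C' / ‖x‖ ^ n := fun n =>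
    div_le_div_of_nonneg_right hC (by positivity)
  have hm1 : C / ‖x‖ ≤ C' / ‖x‖ := div_le_div_of_nonneg_right hC hr.le
  exact ⟨h1.trans hm1, fun k => (h2 k).trans (hm 2), fun k l => (h3 k l).trans (hm 3),
    h4.trans (hm 2), fun k => (h5 k).trans (hm 3)⟩

lemma ev_nonneg {B : Bil} (hB : B.PosDef) (v : Cov) : 0 ≤ ev B v v := by
  have h := hB.posSemidef.dotProduct_mulVec_nonneg v
  have e : ev B v v = star v ⬝ᵥ (B.mulVec v) := by
    simp only [ev, dotProduct, Matrix.mulVec, Pi.star_apply, star_trivial]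
    refine Finset.sum_congr rfl fun i _ => ?_
    rw [Finset.mul_sum]
    refine Finset.sum_congr rfl fun j _ => ?_
    ring
  rw [e]
  exact h

end XEMODM

theorem XMODM : Stmt_XMODM := by
  intro g k C C' l τ κ g' h' e hC0 hl hτ hC hM
  refine { hM with
    bounds := ?_
    elliptic := ?_
    area := ?_
    barrier := ?_
    decay := XEMODM.decay_mono (by norm_num) hC hM.decay
    hsmall := ?_
    collar := ?_
    shell := ?_
    trans := ?_
    trans_sup := ?_ }
  · intro x hx hx1 i j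
    obtain ⟨h1, h2, h3⟩ := hM.bounds x hx hx1 i j
    exact ⟨h1.trans hC, fun m => (h2 m).trans hC, h3.trans hC⟩
  · intro x hx v
    obtain ⟨h1, h2⟩ := hM.elliptic x hx v
    have h3 := XEMODM.ev_nonneg (hM.metric.posDef x (Set.mem_univ x)) v
    have h4 : 0 ≤ ∑ i, v i ^ 2 := Finset.sum_nonneg fun i _ => sq_nonneg _
    exact ⟨h1.trans (mul_le_mul_of_nonneg_right hC h3),
      h2.trans (mul_le_mul_of_nonneg_right hC h4)⟩
  · intro x hx hx1 p
    have h1 := hM.area x hx hx1 p
    have h2 : 0 ≤ len g' x p * volDen g' x := mul_nonneg (Real.sqrt_nonneg _) (Real.sqrt_nonneg _)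
    have h3 : C * τ ≤ C' * τ := mul_le_mul_of_nonneg_right hC hτ.le
    exact h1.trans (mul_le_mul_of_nonneg_right (by linarith) h2)
  · intro ε h1 h2 x hx
    exact (hM.barrier ε h1 h2 x hx).trans (div_le_div_of_nonneg_right hC (by positivity))
  · intro x hx i j
    exact (hM.hsmall x hx i j).trans (div_le_div_of_nonneg_right hC (by positivity))
  · intro x hx hx1 p
    have h1 := hM.collar x hx hx1 p
    have h2 : 0 ≤ tanP x p + negP x p := add_nonneg (Real.sqrt_nonneg _) (le_max_right _ _)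
    have h3 : C / τ ≤ C' / τ := div_le_div_of_nonneg_right hC hτ.le
    have h4 := mul_le_mul_of_nonneg_right h3 h2
    linarith
  · intro x hx hx1
    have h1 := hM.shell x hx hx1
    have h2 : 0 ≤ msz (k x) / l + msz (k x) ^ 2 := by
      have : 0 ≤ msz (k x) := Real.sqrt_nonneg _
      positivity
    have h3 := mul_le_mul_of_nonneg_right hC h2
    linarith
  · intro x hx hx1
    exact (hM.trans x hx hx1).trans (div_le_div_of_nonneg_right hC (by positivity))
  · intro x hx hx1
    exact (hM.trans_sup x hx hx1).trans (div_le_div_of_nonneg_right hC (by positivity))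

end Pool.Agent.PFlow


end

section

/-!
# XTFD: data with divergence-free trace-free part are trace-dominated (exterior regions)
-/

open MeasureTheory Filter Topology
open scoped ContDiff ENNReal

namespace Pool.Agent.PFlow

open Pool.Agent.PenroseSph

theorem XTFD : Stmt_XTFD := by
  intro g h hext hdiv x hx
  obtain ⟨δ, hδ, hg, hh, -⟩ := hext.smooth
  have hU : IsOpen ({x : E3 | 1 - δ < ‖x‖}) := isOpen_lt continuous_const continuous_norm
  have hxU : x ∈ ({x : E3 | 1 - δ < ‖x‖}) := by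
    show 1 - δ < ‖x‖
    linarith
  have hpos := hg.posDef x hxU
  have h0 : (g x).det ≠ 0 := hpos.det_pos.ne'
  have hgd : ∀ i j, DifferentiableAt ℝ (fun y => g y i j) x :=
    fun i j => JPRODm.diffAt hU (hg.smooth i j) hxU
  have hhd : ∀ i j, DifferentiableAt ℝ (fun y => h y i j) x :=
    fun i j => JPRODm.diffAt hU (hh.smooth i j) hxU
  have htd : DifferentiableAt ℝ (fun y => traceWith g h y) x := JPRODm.trace_diff hgd hhd h0
  have hs : ∀ᶠ y in 𝓝 x, (g y).IsSymm := by
    filter_upwards [hU.mem_nhds hxU] with y hy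
    ext i j
    exact LIMK.symm_of_pos (hg.posDef y hy) j i
  -- the momentum density
  have hJ : ∀ j, momentumDensity g h j x
      = -(2 / 3) * grad (fun y => trg g y (h y)) x j := by
    intro j
    have e1 : (fun y => h y - traceWith g h y • g y) = fun y =>
        (h y - traceTensor g h y) + (-(2 / 3) * traceWith g h y) • g y := by
      funext y
      have e2 : traceTensor g h y = (traceWith g h y / 3) • g y := rfl
      rw [e2]
      ext i k
      simp only [Matrix.sub_apply, Matrix.add_apply, Matrix.smul_apply, smul_eq_mul]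
      ring
    have d1 : ∀ i j, DifferentiableAt ℝ (fun y => (h y - traceTensor g h y) i j) x := by
      intro i k
      show DifferentiableAt ℝ (fun y => h y i k - traceWith g h y / 3 * g y i k) x
      have htd3 : DifferentiableAt ℝ (fun y => traceWith g h y / 3) x := by
        simp only [div_eq_mul_inv]
        exact htd.mul_const _
      exact (hhd i k).sub (htd3.mul (hgd i k))
    have d2 : DifferentiableAt ℝ (fun y => -(2 / 3) * traceWith g h y) x := htd.const_mul _
    have d3 : ∀ i j, DifferentiableAt ℝ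
        (fun y => ((-(2 / 3) * traceWith g h y) • g y) i j) x := by
      intro i k
      show DifferentiableAt ℝ (fun y => (-(2 / 3) * traceWith g h y) * g y i k) x
      exact d2.mul (hgd i k)
    unfold momentumDensity
    rw [e1, TFDm.div_add j d1 d3, hdiv x hx j, zero_add,
      LIMK.div_mul hpos hs hgd d2 j]
    have e3 : pd j (fun y => -(2 / 3) * traceWith g h y) x
        = -(2 / 3) * pd j (fun y => traceWith g h y) x := by
      unfold pd
      rw [fderiv_const_mul htd]
      rfl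
    rw [e3]
    rfl
  have hlen : jlen g h x = 2 / 3 * len g x (grad (fun y => trg g y (h y)) x) := by
    unfold jlen len
    have e4 : ev (g x)⁻¹ (fun i => momentumDensity g h i x) (fun i => momentumDensity g h i x)
        = (2 / 3) ^ 2 * ev (g x)⁻¹ (grad (fun y => trg g y (h y)) x)
          (grad (fun y => trg g y (h y)) x) := by
      unfold ev
      rw [Finset.mul_sum]
      refine Finset.sum_congr rfl fun i _ => ?_
      rw [Finset.mul_sum]
      refine Finset.sum_congr rfl fun k _ => ?_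
      have e5 := hJ i
      have e6 := hJ k
      show (g x)⁻¹ i k * momentumDensity g h i x * momentumDensity g h k x = _
      rw [e5, e6]
      ring
    rw [e4, Real.sqrt_mul (by norm_num), Real.sqrt_sq (by norm_num)]
  have hcs := TFDm.trg_sq_le hpos.inv (h x)
  have hcs2 : trg g x (h x) ^ 2 ≤ 3 * nsq g x (h x) := hcs
  rw [hlen]
  linarith

end Pool.Agent.PFlow


end
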