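import Mathlib
import Pool.Agent.PenroseM.C10
import Pool.Agent.PenroseM.C66

/-! Parts: PFlow.X.XSHELL -/

section

/-!
# Module XSHELL: the surplus in the region where the tensor is cut off (exterior regions)
-/

open MeasureTheory Filter Topology
open scoped ContDiff

namespace Pool.Agent.PFlow

open Pool.Agent.PenroseSph

open EShell in
theorem XSHELL (_hHATA : Stmt_HATA) (hJPROD : Stmt_JPROD) (hKAP : Stmt_KAP)
    (hXHAT : Stmt_XHAT) : Stmt_XSHELL := by
  intro g h δ₀ C hδ hg hh hPS hsur _hdec hell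
  obtain ⟨_, hk01, hk1, hk2, ⟨K, hK0, hK⟩, hksm, _⟩ := hKAP
  have hOut : ∀ x : E3, 1 ≤ ‖x‖ → x ∈ Outside δ₀ := by
    intro x hx
    change 1 - δ₀ < ‖x‖
    linarith
  have hCpos : 0 ≤ C := by
    have hx : (1 : ℝ) ≤ ‖(EuclideanSpace.single 0 1 : E3)‖ := by simp
    have h1 := inv_entry (hg.posDef _ (hOut _ hx)) (C := C)
      (fun v => ((hell (EuclideanSpace.single 0 1) hx v).1)) 0 0
    exact (abs_nonneg _).trans h1
  refine ⟨122 * C ^ 2 + 108 * (C * (1 + C)) * K + 1, by positivity, ?_⟩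
  intro η l hη hl g' h' x hx1 hx2 hg' hh'
  have hl0 : 0 < l := by linarith
  have hxn1 : 1 < ‖x‖ := by linarith
  have hxn : 1 ≤ ‖x‖ := hxn1.le
  have hgx := hg.posDef x (hOut x hxn)
  obtain ⟨hhatU, _, _, hHC, _⟩ := hXHAT g h δ₀ hδ hg hh hPS η hη
  set f : E3 → ℝ := fun y => kap (‖y‖ / (l / 2)) with hf
  have hUo : IsOpen (Outside δ₀) := by
    have : Outside δ₀ = (fun y : E3 => ‖y‖) ⁻¹' Set.Ioi (1 - δ₀) := rfl
    rw [this]
    exact isOpen_Ioi.preimage continuous_norm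
  have hfsm : ContDiff ℝ ∞ f := hksm (l / 2) (by positivity)
  have e2 : h' =ᶠ[𝓝 x] fun y => f y • hat η g h y := by
    filter_upwards [hh'] with y hy
    have h2 : 2 * ‖y‖ / l = ‖y‖ / (l / 2) := by field_simp
    rw [hy, h2]
  rw [surplus_congr hg' e2]
  -- the ingredients
  have hJ := (hJPROD (Outside δ₀) g (hat η g h) f hUo hg hhatU hfsm.contDiffOn x
    (hOut x hxn)).2
  have hC' := (hHC x hxn1).2
  have hD : jlen g h x ≤ energyDensity g h x := by
    have h0 := hsur x hxn1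
    unfold surplus at h0
    linarith
  have hinv : ∀ i j, |(g x)⁻¹ i j| ≤ C := inv_entry hgx fun v => (hell x hxn v).1
  have hM : ∀ i j, |h x i j| ≤ msz (h x) := abs_entry_le_msz _
  have hm0 : 0 ≤ msz (h x) := msz_nonneg _
  have ht := trg_le (h x) hinv hM
  have hn := nsq_le (h x) hinv hM
  have hlen : len g x (grad f x) ≤ 3 * (1 + C) * (K / (l / 2)) :=
    len_le _ hinv fun i => (hK (l / 2) (by positivity) x).1 i
  set t := trg g x (h x) with ht'
  set N := nsq g x (h x) with hN'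
  set m := msz (h x) with hm'
  have hf0 : 0 ≤ f x := (hk01 _).1
  have hf1 : f x ≤ 1 := (hk01 _).2
  set F := hatF η t with hF'
  have hF2 : F ^ 2 ≤ 1 := hatF_sq_le η t hη
  have hF0 : 0 ≤ F ^ 2 := sq_nonneg _
  have hhat : hat η g h x = F • h x := rfl
  have hnh : nsq g x (hat η g h x) = F ^ 2 * N := by rw [hhat, nsq_smul]
  have hth : trg g x (hat η g h x) = F * t := by rw [hhat, trg_smul]
  have ht2 : t ^ 2 ≤ 81 * (C * m) ^ 2 := by
    have h1 : t ^ 2 = |t| ^ 2 := (sq_abs t).symm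
    rw [h1]
    have h2 : |t| ^ 2 ≤ (9 * (C * m)) ^ 2 := by gcongr
    linarith [h2, (by ring : (9 * (C * m)) ^ 2 = 81 * (C * m) ^ 2)]
  have hNabs := abs_le.mp hn
  -- the energy density
  have hE : energyDensity g (fun y => f y • hat η g h y) x
      = (1 / 2) * (scalarCurvature g x - f x ^ 2 * (F ^ 2 * N) + (f x * (F * t)) ^ 2) := by
    have h1 : normSqWith g (fun y => f y • hat η g h y) x = f x ^ 2 * (F ^ 2 * N) := by
      have : normSqWith g (fun y => f y • hat η g h y) x = nsq g x (f x • hat η g h x) := rfl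
      rw [this, nsq_smul, hnh]
    have h2 : traceWith g (fun y => f y • hat η g h y) x = f x * (F * t) := by
      have : traceWith g (fun y => f y • hat η g h y) x = trg g x (f x • hat η g h x) := rfl
      rw [this, trg_smul, hth]
    unfold energyDensity
    rw [h1, h2]
  have hE0 : energyDensity g h x = (1 / 2) * (scalarCurvature g x - N + t ^ 2) := rfl
  have hc : f x ^ 2 * F ^ 2 ≤ 1 := by
    have : f x ^ 2 ≤ 1 := by nlinarith
    nlinarith [sq_nonneg (f x)]
  have hc0 : 0 ≤ f x ^ 2 * F ^ 2 := by positivity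
  have hA0 : 0 ≤ 81 * (C * m) ^ 2 := by positivity
  have hfN : f x ^ 2 * (F ^ 2 * N) ≤ 81 * (C * m) ^ 2 := by
    have : f x ^ 2 * (F ^ 2 * N) = (f x ^ 2 * F ^ 2) * N := by ring
    rw [this]
    nlinarith [hNabs.2]
  have hsq : Real.sqrt (nsq g x (hat η g h x) + trg g x (hat η g h x) ^ 2) ≤ 18 * (C * m) := by
    rw [hnh, hth]
    apply Real.sqrt_le_iff.mpr
    refine ⟨by positivity, ?_⟩
    have h1 : F ^ 2 * N ≤ 81 * (C * m) ^ 2 := by nlinarith [hNabs.2]
    have h2 : (F * t) ^ 2 ≤ 81 * (C * m) ^ 2 := by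
      rw [mul_pow]
      nlinarith [sq_nonneg t]
    nlinarith
  have hsl : Real.sqrt (nsq g x (hat η g h x) + trg g x (hat η g h x) ^ 2) * len g x (grad f x)
      ≤ (18 * (C * m)) * (3 * (1 + C) * (K / (l / 2))) :=
    mul_le_mul hsq hlen (Real.sqrt_nonneg _) (by positivity)
  have hj0 : 0 ≤ jlen g (hat η g h) x := Real.sqrt_nonneg _
  have hfj : |f x| * jlen g (hat η g h) x ≤ jlen g (hat η g h) x := by
    rw [abs_of_nonneg hf0]
    nlinarith
  have hfin : (18 * (C * m)) * (3 * (1 + C) * (K / (l / 2))) = 108 * (C * (1 + C)) * K * (m / l) := by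
    field_simp
    ring
  rw [hfin] at hsl
  have hexp : (122 * C ^ 2 + 108 * (C * (1 + C)) * K + 1) * (m / l + m ^ 2)
      ≥ 122 * C ^ 2 * m ^ 2 + 108 * (C * (1 + C)) * K * (m / l) := by
    have h1 : 0 ≤ m / l := by positivity
    have h2 : 0 ≤ C ^ 2 * (m / l) := by positivity
    have h3 : 0 ≤ (C * (1 + C)) * K * m ^ 2 := by positivity
    have h4 : 0 ≤ m ^ 2 := by positivity
    nlinarith
  unfold surplus
  rw [hE]
  rw [hE0] at hD
  have hpos : 0 ≤ (f x * (F * t)) ^ 2 := sq_nonneg _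
  nlinarith [hNabs.1, hNabs.2]

end Pool.Agent.PFlow


end
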