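import Mathlib
import Pool.Agent.PFlow.StmtsX2
import Pool.Agent.PenroseM.C03
import Pool.Agent.PenroseM.C45
import Pool.Agent.PenroseM.C66
import Pool.Agent.PenroseM.C71

/-! Parts: PFlow.PX.Dvf, PFlow.X.XABSW, PFlow.X.XCOLH, PFlow.X.XSETW -/

section

/-!
# Block PX, module DVF: the divergence of `A(x, ∇w)`
-/

open MeasureTheory Filter Topology Set
open scoped ContDiff RealInnerProductSpace ENNReal

namespace Pool.Agent.PFlow.PB

open Pool.Agent.PenroseSph Pool.Agent.PFlow

open NDivAux in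
theorem xdvf_thm (h1 : API1) (h2 : API2) (hd : DENS) : XDVF := by
  intro A B c L r hP u G M hH
  have hL : 0 ≤ L := hP.c_pos.le.trans hP.c_le
  have hA : ContDiff ℝ ∞ (jt A) := hP.smoothA
  have hAc : Continuous (jt A) := hA.continuous
  have hAb : ∀ x ξ, ‖A x ξ‖ ≤ L * ‖ξ‖ := by
    intro x ξ
    have := hP.lipA x ξ 0
    rwa [hP.A_zero, sub_zero, sub_zero] at this
  obtain ⟨φn, hT, -, hgr, hhs, -⟩ := hd u G M hH
  have hGm : MemLp G 2 := hH.h1.memG
  have hMm : ∀ i, MemLp (M i) 2 := fun i => (hH.h2 i).memG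
  have hgm : ∀ n, MemLp (gr (φn n)) 2 := fun n => gr_memLp _ (hT n).one (hT n).cpt
  have hpdT : ∀ n i, Test (pd i (φn n)) := fun n i =>
    ⟨((hT n).smooth.fderiv_right (m := ∞) (by simp)).clm_apply contDiff_const,
      pd_cpt _ (hT n).cpt i⟩
  have hhm : ∀ n i, MemLp (hs (φn n) i) 2 := fun n i =>
    gr_memLp _ (hpdT n i).one (hpdT n i).cpt
  -- the functions `D` and `d n`
  let D : E3 → ℝ := fun x => ‖G x‖ + ∑ i, ‖M i x‖
  let dn : ℕ → E3 → ℝ := fun n x => ‖gr (φn n) x - G x‖ + ∑ i, ‖hs (φn n) i x - M i x‖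
  have hDm : MemLp D 2 := by
    have e : D = fun x => ‖G x‖ + (‖M 0 x‖ + ‖M 1 x‖ + ‖M 2 x‖) := by
      funext x
      simp only [D, Fin.sum_univ_three]
    rw [e]
    exact hGm.norm.add (((hMm 0).norm.add (hMm 1).norm).add (hMm 2).norm)
  have hdm : ∀ n, MemLp (dn n) 2 := by
    intro n
    have e : dn n = fun x => ‖gr (φn n) x - G x‖ + (‖hs (φn n) 0 x - M 0 x‖ +
        ‖hs (φn n) 1 x - M 1 x‖ + ‖hs (φn n) 2 x - M 2 x‖) := by
      funext x
      simp only [dn, Fin.sum_univ_three]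
    rw [e]
    exact ((hgm n).sub hGm).norm.add (((((hhm n 0).sub (hMm 0)).norm.add
      ((hhm n 1).sub (hMm 1)).norm)).add ((hhm n 2).sub (hMm 2)).norm)
  have hd0 : ∀ n x, 0 ≤ dn n x := fun n x => by positivity
  have hD0 : ∀ x, 0 ≤ D x := fun x => by positivity
  have hdt : Tendsto (fun n => sq (dn n)) atTop (𝓝 0) := by
    have e1 : Tendsto (fun n => 4 * (sqv (fun x => gr (φn n) x - G x) +
        (sqv (fun x => hs (φn n) 0 x - M 0 x) + sqv (fun x => hs (φn n) 1 x - M 1 x) +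
          sqv (fun x => hs (φn n) 2 x - M 2 x)))) atTop (𝓝 0) := by
      have := (hgr.add (((hhs 0).add (hhs 1)).add (hhs 2))).const_mul 4
      simpa using this
    refine squeeze_zero (fun n => sq_nonneg' _) (fun n => ?_) e1
    have i0 : Integrable (fun x => ‖gr (φn n) x - G x‖ ^ 2) := int_sq _ ((hgm n).sub hGm)
    have ii : ∀ i, Integrable (fun x => ‖hs (φn n) i x - M i x‖ ^ 2) := fun i =>
      int_sq _ ((hhm n i).sub (hMm i))
    have i1 := ii 0
    have i2 := ii 1
    have i3 := ii 2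
    have i12 : Integrable (fun x => ‖hs (φn n) 0 x - M 0 x‖ ^ 2 + ‖hs (φn n) 1 x - M 1 x‖ ^ 2) :=
      i1.add i2
    have i123 : Integrable (fun x => ‖hs (φn n) 0 x - M 0 x‖ ^ 2 + ‖hs (φn n) 1 x - M 1 x‖ ^ 2 +
        ‖hs (φn n) 2 x - M 2 x‖ ^ 2) := i12.add i3
    have e2 : 4 * (sqv (fun x => gr (φn n) x - G x) +
        (sqv (fun x => hs (φn n) 0 x - M 0 x) + sqv (fun x => hs (φn n) 1 x - M 1 x) +
          sqv (fun x => hs (φn n) 2 x - M 2 x))) =
        ∫ x, 4 * (‖gr (φn n) x - G x‖ ^ 2 + (‖hs (φn n) 0 x - M 0 x‖ ^ 2 +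
          ‖hs (φn n) 1 x - M 1 x‖ ^ 2 + ‖hs (φn n) 2 x - M 2 x‖ ^ 2)) := by
      rw [integral_const_mul]
      congr 1
      show (∫ x, ‖gr (φn n) x - G x‖ ^ 2) + ((∫ x, ‖hs (φn n) 0 x - M 0 x‖ ^ 2) +
        (∫ x, ‖hs (φn n) 1 x - M 1 x‖ ^ 2) + ∫ x, ‖hs (φn n) 2 x - M 2 x‖ ^ 2) = _
      rw [← integral_add i1 i2, ← integral_add i12 i3, ← integral_add i0 i123]
    rw [e2]
    unfold sq
    refine integral_mono ?_ ?_ ?_
    · have := int_sq _ (hdm n)
      simpa [Real.norm_eq_abs, sq_abs] using this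
    · exact (i0.add i123).const_mul 4
    · intro x
      simp only [dn, Fin.sum_univ_three]
      have p0 := norm_nonneg (gr (φn n) x - G x)
      have p1 := norm_nonneg (hs (φn n) 0 x - M 0 x)
      have p2 := norm_nonneg (hs (φn n) 1 x - M 1 x)
      have p3 := norm_nonneg (hs (φn n) 2 x - M 2 x)
      nlinarith [sq_nonneg (‖gr (φn n) x - G x‖ - ‖hs (φn n) 0 x - M 0 x‖),
        sq_nonneg (‖gr (φn n) x - G x‖ - ‖hs (φn n) 1 x - M 1 x‖),
        sq_nonneg (‖gr (φn n) x - G x‖ - ‖hs (φn n) 2 x - M 2 x‖),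
        sq_nonneg (‖hs (φn n) 0 x - M 0 x‖ - ‖hs (φn n) 1 x - M 1 x‖),
        sq_nonneg (‖hs (φn n) 0 x - M 0 x‖ - ‖hs (φn n) 2 x - M 2 x‖),
        sq_nonneg (‖hs (φn n) 1 x - M 1 x‖ - ‖hs (φn n) 2 x - M 2 x‖)]
  -- an a.e. convergent subsequence
  obtain ⟨ns, hns, hae⟩ : ∃ ns : ℕ → ℕ, StrictMono ns ∧
      ∀ᵐ x, Tendsto (fun k => dn (ns k) x) atTop (𝓝 0) := by
    have e1 : Tendsto (fun n => eLpNorm (dn n - 0) 2 volume) atTop (𝓝 0) := by
      refine (tend_iff (0 : E3 → ℝ) dn MemLp.zero hdm).1 ?_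
      refine hdt.congr fun n => ?_
      rw [sq_eq]
      simp
    have e2 := tendstoInMeasure_of_tendsto_eLpNorm (by norm_num) (fun n => (hdm n).1)
      aestronglyMeasurable_zero e1
    exact e2.exists_seq_tendsto_ae
  let F : E3 → ℝ := fun x => opA A x (G x) (fun i => M i x)
  let Fn : ℕ → E3 → ℝ := fun n x => opA A x (gr (φn n) x) (fun i => hs (φn n) i x)
  have hmeas := opA_meas A hA
  have hFb : ∀ x, |F x| ≤ 3 * L * D x := fun x => opA_bound hP _ _ _
  have hFm : MemLp F 2 := by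
    refine MemLp.of_le_mul (c := 3 * L) hDm (hmeas G M hGm hMm) (Eventually.of_forall fun x => ?_)
    rw [Real.norm_eq_abs, Real.norm_eq_abs, abs_of_nonneg (hD0 x)]
    exact hFb x
  have hFnb : ∀ n x, |Fn n x| ≤ 3 * L * (dn n x + D x) := by
    intro n x
    refine (opA_bound hP _ _ _).trans ?_
    refine mul_le_mul_of_nonneg_left ?_ (by positivity)
    have t0 : ‖gr (φn n) x‖ ≤ ‖gr (φn n) x - G x‖ + ‖G x‖ := by
      have := norm_add_le (gr (φn n) x - G x) (G x)
      rwa [sub_add_cancel] at this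
    have t1 : ∀ i, ‖hs (φn n) i x‖ ≤ ‖hs (φn n) i x - M i x‖ + ‖M i x‖ := by
      intro i
      have := norm_add_le (hs (φn n) i x - M i x) (M i x)
      rwa [sub_add_cancel] at this
    have t2 := Finset.sum_le_sum fun i (_ : i ∈ Finset.univ) => t1 i
    rw [Finset.sum_add_distrib] at t2
    show _ ≤ (‖gr (φn n) x - G x‖ + ∑ i, ‖hs (φn n) i x - M i x‖) + (‖G x‖ + ∑ i, ‖M i x‖)
    linarith
  have hFnm : ∀ n, MemLp (Fn n) 2 := by
    intro n
    refine MemLp.of_le_mul (c := 3 * L) ((hdm n).add hDm) (hmeas _ _ (hgm n) (hhm n))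
      (Eventually.of_forall fun x => ?_)
    rw [Real.norm_eq_abs, Real.norm_eq_abs, abs_of_nonneg
      (show 0 ≤ (dn n + D) x from add_nonneg (hd0 n x) (hD0 x))]
    exact hFnb n x
  have hFae : ∀ᵐ x, Tendsto (fun k => Fn (ns k) x) atTop (𝓝 (F x)) := by
    filter_upwards [hae] with x hx
    have c1 : Tendsto (fun k => gr (φn (ns k)) x) atTop (𝓝 (G x)) := by
      rw [tendsto_iff_norm_sub_tendsto_zero]
      refine squeeze_zero (fun k => norm_nonneg _) (fun k => ?_) hx
      have : 0 ≤ ∑ i, ‖hs (φn (ns k)) i x - M i x‖ := by positivity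
      show _ ≤ ‖gr (φn (ns k)) x - G x‖ + ∑ i, ‖hs (φn (ns k)) i x - M i x‖
      linarith
    have c2 : ∀ i, Tendsto (fun k => hs (φn (ns k)) i x) atTop (𝓝 (M i x)) := by
      intro i
      rw [tendsto_iff_norm_sub_tendsto_zero]
      refine squeeze_zero (fun k => norm_nonneg _) (fun k => ?_) hx
      have e1 : ‖hs (φn (ns k)) i x - M i x‖ ≤ ∑ i, ‖hs (φn (ns k)) i x - M i x‖ :=
        Finset.single_le_sum (f := fun i => ‖hs (φn (ns k)) i x - M i x‖)
          (fun i _ => norm_nonneg _) (Finset.mem_univ i)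
      show _ ≤ ‖gr (φn (ns k)) x - G x‖ + ∑ i, ‖hs (φn (ns k)) i x - M i x‖
      have := norm_nonneg (gr (φn (ns k)) x - G x)
      linarith
    exact opA_tendsto A hA x (fun k => gr (φn (ns k)) x) (G x)
      (fun k i => hs (φn (ns k)) i x) (fun i => M i x) c1 c2
  -- the identity for test functions
  have key : ∀ φ : E3 → ℝ, Test φ → ∫ x, ⟪A x (G x), gr φ x⟫ = - ∫ x, F x * φ x := by
    intro φ hφ
    have hφm : MemLp φ 2 := test_memLp φ hφ
    have hφa : MemLp (fun x => |φ x|) 2 := hφm.norm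
    have hgφ : MemLp (gr φ) 2 := gr_memLp φ hφ.one hφ.cpt
    -- left side
    have hAm : ∀ X : E3 → E3, MemLp X 2 → MemLp (fun x => A x (X x)) 2 := by
      intro X hX
      refine MemLp.of_le_mul (c := L) hX ?_ (Eventually.of_forall fun x => hAb x (X x))
      exact hAc.comp_aestronglyMeasurable (aestronglyMeasurable_id.prodMk hX.1)
    have hinner : ∀ X Y : E3 → E3, MemLp X 2 → MemLp Y 2 → Integrable (fun x => ⟪X x, Y x⟫) := by
      intro X Y hX hY
      have h3 := (hX.norm).integrable_mul (hY.norm)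
      refine h3.mono' (hX.1.inner hY.1) (Eventually.of_forall fun x => ?_)
      exact norm_inner_le_norm _ _
    have tl : Tendsto (fun k => ∫ x, ⟪A x (gr (φn (ns k)) x), gr φ x⟫) atTop
        (𝓝 (∫ x, ⟪A x (G x), gr φ x⟫)) := by
      rw [tendsto_iff_norm_sub_tendsto_zero]
      have e1 : Tendsto (fun k => L * (√(sq (dn (ns k))) * √(sq (fun x => ‖gr φ x‖)))) atTop
          (𝓝 0) := by
        have := (((Real.continuous_sqrt.tendsto 0).comp (hdt.comp hns.tendsto_atTop)).mul_const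
          (√(sq (fun x => ‖gr φ x‖)))).const_mul L
        simpa using this
      refine squeeze_zero (fun k => norm_nonneg _) (fun k => ?_) e1
      rw [← integral_sub (hinner _ _ (hAm _ (hgm _)) hgφ) (hinner _ _ (hAm _ hGm) hgφ)]
      have e2 : Integrable (fun x => L * (dn (ns k) x * ‖gr φ x‖)) :=
        ((int_mul _ _ (hdm _) hgφ.norm)).const_mul L
      refine (norm_integral_le_of_norm_le e2 (Eventually.of_forall fun x => ?_)).trans ?_
      · rw [← inner_sub_left]
        refine (norm_inner_le_norm _ _).trans ?_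
        have e3 := hP.lipA x (gr (φn (ns k)) x) (G x)
        have e4 : ‖gr (φn (ns k)) x - G x‖ ≤ dn (ns k) x := by
          have : 0 ≤ ∑ i, ‖hs (φn (ns k)) i x - M i x‖ := by positivity
          show _ ≤ ‖gr (φn (ns k)) x - G x‖ + ∑ i, ‖hs (φn (ns k)) i x - M i x‖
          linarith
        have e5 := mul_le_mul_of_nonneg_left e4 hL
        calc _ ≤ L * dn (ns k) x * ‖gr φ x‖ :=
              mul_le_mul_of_nonneg_right (e3.trans e5) (norm_nonneg _)
          _ = _ := by ring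
      · rw [integral_const_mul]
        exact mul_le_mul_of_nonneg_left ((le_abs_self _).trans (cs _ _ (hdm _) hgφ.norm)) hL
    -- right side
    have tr : Tendsto (fun k => ∫ x, Fn (ns k) x * φ x) atTop (𝓝 (∫ x, F x * φ x)) := by
      rw [tendsto_iff_norm_sub_tendsto_zero]
      let rk : ℕ → E3 → ℝ := fun k x =>
        max (|Fn (ns k) x - F x| - 3 * L * dn (ns k) x) 0
      have r0 : ∀ k x, 0 ≤ rk k x := fun k x => le_max_right _ _
      have r1 : ∀ k x, rk k x ≤ 6 * L * D x := by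
        intro k x
        refine max_le ?_ (by have := hD0 x; positivity)
        have a1 := hFnb (ns k) x
        have a2 := hFb x
        have a3 := abs_sub (Fn (ns k) x) (F x)
        nlinarith
      have r2 : ∀ᵐ x, Tendsto (fun k => rk k x) atTop (𝓝 0) := by
        filter_upwards [hFae] with x hx
        have a1 : Tendsto (fun k => |Fn (ns k) x - F x|) atTop (𝓝 0) := by
          have := (hx.sub_const (F x)).abs
          simpa using this
        refine squeeze_zero (fun k => r0 k x) (fun k => ?_) a1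
        refine max_le ?_ (abs_nonneg _)
        have := hd0 (ns k) x
        nlinarith [mul_nonneg hL this]
      have rm : ∀ k, AEStronglyMeasurable (rk k) volume := fun k =>
        ((((hFnm (ns k)).1.sub hFm.1).norm.sub ((hdm (ns k)).1.const_mul (3 * L)))).sup
          aestronglyMeasurable_const
      have bI : Integrable (fun x => 6 * L * D x * |φ x|) :=
        int_mul (fun x => 6 * L * D x) _ (hDm.const_mul (6 * L)) hφa
      have rI : ∀ k, Integrable (fun x => rk k x * |φ x|) := by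
        intro k
        refine bI.mono' ((rm k).mul hφa.1) (Eventually.of_forall fun x => ?_)
        rw [Real.norm_eq_abs, abs_of_nonneg (mul_nonneg (r0 k x) (abs_nonneg _))]
        exact mul_le_mul_of_nonneg_right (r1 k x) (abs_nonneg _)
      have rt : Tendsto (fun k => ∫ x, rk k x * |φ x|) atTop (𝓝 0) := by
        have := tendsto_integral_of_dominated_convergence (μ := (volume : Measure E3))
          (F := fun k x => rk k x * |φ x|) (f := fun _ => (0 : ℝ)) (fun x => 6 * L * D x * |φ x|)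
          (fun k => (rm k).mul hφa.1) bI (fun k => Eventually.of_forall fun x => ?_) ?_
        · simpa using this
        · rw [Real.norm_eq_abs, abs_of_nonneg (mul_nonneg (r0 k x) (abs_nonneg _))]
          exact mul_le_mul_of_nonneg_right (r1 k x) (abs_nonneg _)
        · filter_upwards [r2] with x hx
          have := hx.mul_const |φ x|
          simpa using this
      have e1 : Tendsto (fun k => (∫ x, rk k x * |φ x|) +
          3 * L * (√(sq (dn (ns k))) * √(sq (fun x => |φ x|)))) atTop (𝓝 0) := by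
        have := rt.add ((((Real.continuous_sqrt.tendsto 0).comp
          (hdt.comp hns.tendsto_atTop)).mul_const (√(sq (fun x => |φ x|)))).const_mul (3 * L))
        simpa using this
      refine squeeze_zero (fun k => norm_nonneg _) (fun k => ?_) e1
      rw [← integral_sub (int_mul _ _ (hFnm _) hφm) (int_mul _ _ hFm hφm)]
      have e2 : Integrable (fun x => rk k x * |φ x| + 3 * L * (dn (ns k) x * |φ x|)) :=
        (rI k).add ((int_mul _ _ (hdm _) hφa).const_mul (3 * L))
      refine (norm_integral_le_of_norm_le e2 (Eventually.of_forall fun x => ?_)).trans ?_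
      · have e3 : Fn (ns k) x * φ x - F x * φ x = (Fn (ns k) x - F x) * φ x := by ring
        rw [e3, norm_mul, Real.norm_eq_abs, Real.norm_eq_abs]
        have e4 : |Fn (ns k) x - F x| ≤ rk k x + 3 * L * dn (ns k) x := by
          have := le_max_left (|Fn (ns k) x - F x| - 3 * L * dn (ns k) x) 0
          show _ ≤ max (|Fn (ns k) x - F x| - 3 * L * dn (ns k) x) 0 + 3 * L * dn (ns k) x
          linarith
        calc _ ≤ (rk k x + 3 * L * dn (ns k) x) * |φ x| :=
              mul_le_mul_of_nonneg_right e4 (abs_nonneg _)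
          _ = _ := by ring
      · rw [integral_add (rI k) ((int_mul _ _ (hdm _) hφa).const_mul (3 * L)),
          integral_const_mul]
        have e5 := (le_abs_self _).trans (cs _ _ (hdm (ns k)) hφa)
        have e6 := mul_le_mul_of_nonneg_left e5 (show 0 ≤ 3 * L by positivity)
        linarith
    have eqn : ∀ n, ∫ x, ⟪A x (gr (φn n) x), gr φ x⟫ = - ∫ x, Fn n x * φ x := by
      intro n
      have hg := gr_diff (φn n) (hT n).smooth
      have hX : ContDiff ℝ 1 (fun x => A x (gr (φn n) x)) :=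
        (hA.comp (contDiff_id.prodMk hg)).of_le (by exact_mod_cast le_top)
      have hXc : HasCompactSupport (fun x => A x (gr (φn n) x)) := by
        refine (gr_cpt _ (hT n).cpt).mono ?_
        intro x hx
        rw [Function.mem_support] at hx ⊢
        intro h0
        apply hx
        show A x (gr (φn n) x) = 0
        rw [h0, hP.A_zero]
      rw [h2.ibpv _ hX hXc φ (gr φ) (h1.ofTest φ hφ)]
      congr 1
      refine integral_congr_ae (Eventually.of_forall fun x => ?_)
      show dv (fun y => A y (gr (φn n) y)) x * φ x = Fn n x * φ x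
      rw [dv_comp hA (hT n).smooth]
    exact tendsto_nhds_unique tl (tr.neg.congr fun k => (eqn (ns k)).symm)
  exact ⟨hFm, key⟩

end Pool.Agent.PFlow.PB


end

section

/-!
# XABSW: Willmore's inequality in the flat region
-/

open MeasureTheory Filter Topology
open scoped ContDiff ENNReal

namespace Pool.Agent.PFlow

open Pool.Agent.PenroseSph

namespace XEABSW

lemma isOpen_Ann (a b : ℝ) : IsOpen (Ann a b) := by
  have h1 : IsOpen {x : E3 | a < ‖x‖} := isOpen_lt continuous_const continuous_norm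
  have h2 : IsOpen {x : E3 | ‖x‖ < b} := isOpen_lt continuous_norm continuous_const
  exact h1.inter h2

lemma h2On_mono {U V : Set E3} {w : E3 → ℝ} {G : E3 → Cov} {M : E3 → Bil} (hUV : V ⊆ U)
    (h : H2On U w G M) : H2On V w G M where
  cont := h.cont.mono hUV
  memG := fun K hK hKV => h.memG K hK (hKV.trans hUV)
  memM := fun K hK hKV => h.memM K hK (hKV.trans hUV)
  approx := fun K hK hKV => h.approx K hK (hKV.trans hUV)

/-! ### The flat metric -/

lemma ev_one (p q : Cov) : ev 1 p q = ∑ i, p i * q i := by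
  unfold ev
  refine Finset.sum_congr rfl fun i _ => ?_
  rw [Finset.sum_eq_single i]
  · rw [Matrix.one_apply_eq, one_mul]
  · intro j _ hj
    rw [Matrix.one_apply_ne (Ne.symm hj), zero_mul, zero_mul]
  · intro h
    exact absurd (Finset.mem_univ i) h

lemma len_flat {g : TensorField} {x : E3} (hg : g x = 1) (p : Cov) : len g x p = vn p := by
  rw [len, hg, inv_one, ev_one, vn, vsq]
  congr 1
  refine Finset.sum_congr rfl fun i _ => ?_
  ring

lemma raise_flat {g : TensorField} {x : E3} (hg : g x = 1) (p : Cov) : raise g x p = p := by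
  funext i
  rw [raise, hg, inv_one, Finset.sum_eq_single i]
  · rw [Matrix.one_apply_eq, one_mul]
  · intro j _ hj
    rw [Matrix.one_apply_ne (Ne.symm hj), zero_mul]
  · intro h
    exact absurd (Finset.mem_univ i) h

lemma trg_flat {g : TensorField} {x : E3} (hg : g x = 1) (B : Bil) :
    trg g x B = ∑ i, B i i := by
  rw [trg, hg, inv_one]
  refine Finset.sum_congr rfl fun i _ => ?_
  rw [Finset.sum_eq_single i]
  · rw [Matrix.one_apply_eq, one_mul]
  · intro j _ hj
    rw [Matrix.one_apply_ne (Ne.symm hj), zero_mul]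
  · intro h
    exact absurd (Finset.mem_univ i) h

lemma ev_smul (B : Bil) (c : ℝ) (p : Cov) :
    ev B (fun i => p i / c) (fun i => p i / c) = ev B p p / c ^ 2 := by
  unfold ev
  rw [Finset.sum_div]
  refine Finset.sum_congr rfl fun i _ => ?_
  rw [Finset.sum_div]
  refine Finset.sum_congr rfl fun j _ => ?_
  show B i j * (p i / c) * (p j / c) = B i j * p i * p j / c ^ 2
  rw [div_eq_mul_inv, div_eq_mul_inv, div_eq_mul_inv, ← inv_pow]
  ring

lemma vsq_nonneg (p : Cov) : 0 ≤ vsq p := Finset.sum_nonneg fun i _ => sq_nonneg _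

lemma vn_sq (p : Cov) : vn p ^ 2 = vsq p := Real.sq_sqrt (vsq_nonneg p)

lemma btan_flat {g : TensorField} {x : E3} (hg : g x = 1) (p : Cov) (B : Bil) :
    btan g x p B = (∑ i, B i i) - ev B p p / vsq p := by
  rw [btan, trg_flat hg, bnn]
  have h : nrm g x p = fun i => p i / vn p := by
    funext i
    rw [nrm, raise_flat hg, len_flat hg]
  rw [h, ev_smul, vn_sq]

lemma volDen_flat {g : TensorField} {x : E3} (hg : g x = 1) : volDen g x = 1 := by
  rw [volDen, hg, Matrix.det_one, Real.sqrt_one]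

lemma chr_flat {g : TensorField} {x : E3} (hg : ∀ᶠ y in 𝓝 x, g y = 1) (k i j : Fin 3) :
    christoffel g k i j x = 0 := by
  have h : ∀ l a b : Fin 3, pd l (fun y => g y a b) x = 0 := by
    intro l a b
    have h1 : (fun y => g y a b) =ᶠ[𝓝 x] fun _ => (1 : Bil) a b := by
      filter_upwards [hg] with y hy
      rw [hy]
    rw [pd, h1.fderiv_eq, fderiv_fun_const]
    rfl
  rw [christoffel]
  simp only [h]
  simp

lemma cHess_flat {g : TensorField} {x : E3} (hg : ∀ᶠ y in 𝓝 x, g y = 1) (p : Cov) (M : Bil) :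
    cHess g x p M = M := by
  ext i j
  rw [cHess, Matrix.of_apply]
  simp only [chr_flat hg]
  simp

/-! ### The test function -/

lemma support_bounds {ψ : ℝ → ℝ} {s₀ s₁ : ℝ} (hs : s₀ < s₁) (hc : HasCompactSupport ψ)
    (ht : tsupport ψ ⊆ Set.Ioo s₀ s₁) :
    ∃ s s', s₀ < s ∧ s < s' ∧ s' < s₁ ∧ ∀ t, ψ t ≠ 0 → s ≤ t ∧ t ≤ s' := by
  rcases (tsupport ψ).eq_empty_or_nonempty with h | h
  · refine ⟨s₀ + (s₁ - s₀) / 3, s₀ + 2 * (s₁ - s₀) / 3, by linarith, by linarith, by linarith, ?_⟩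
    intro t h1
    have h2 : t ∈ tsupport ψ := subset_tsupport _ h1
    rw [h] at h2
    exact absurd h2 (Set.notMem_empty t)
  · obtain ⟨u, hu, hu'⟩ := hc.isCompact.exists_isLeast h
    obtain ⟨v, hv, hv'⟩ := hc.isCompact.exists_isGreatest h
    have h1 := ht hu
    have h2 := ht hv
    have huv : u ≤ v := hu' hv
    refine ⟨(s₀ + u) / 2, (v + s₁) / 2, by linarith [h1.1], by linarith [h1.1, h2.2],
      by linarith [h2.2], ?_⟩
    intro t h3
    have h4 : t ∈ tsupport ψ := subset_tsupport _ h3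
    exact ⟨by linarith [hu' h4, h1.1], by linarith [hv' h4, h2.2]⟩

lemma integrable_test {P : ParX} {D : DatX} {f : E3 → ℝ} (hf : LvlIntX P D f)
    (hw : Measurable (D.w P)) {ψ : ℝ → ℝ} (hψ : Continuous ψ) (hc : HasCompactSupport ψ)
    {s' : ℝ} (h3 : s' < D.sM P) (h4 : ∀ t, ψ t ≠ 0 → t ≤ s') :
    IntegrableOn (fun x => ψ (D.w P x) * f x) D.Om := by
  obtain ⟨C, hC⟩ := hc.exists_bound_of_continuous hψ
  have hOm : MeasurableSet D.Om := (isOpen_Ann _ _).measurableSet
  have h5 : IntegrableOn (fun x => ψ (D.w P x) * f x) (D.Om ∩ {x | D.w P x ≤ s'}) := by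
    refine Integrable.bdd_mul (c := C) (hf s' h3) ?_ ?_
    · exact (hψ.measurable.comp hw).aestronglyMeasurable
    · exact Eventually.of_forall fun x => hC _
  refine h5.of_forall_sdiff_eq_zero hOm fun x hx => ?_
  have : ψ (D.w P x) = 0 := by
    by_contra h
    exact hx.2 ⟨hx.1, h4 _ h⟩
  rw [this, zero_mul]

end XEABSW

open XEABSW in
/-- XABSW: Willmore's inequality in the flat region. -/
theorem XABSW (hXSETW : Stmt_XSETW) (hXABSI : Stmt_XABSI) (hW : Stmt_W) (hPTD : Stmt_PTD)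
    (hHSYM : Stmt_HSYM) (hINT : Stmt_INT) : Stmt_XABSW := by
  intro P D hS ψ hψ hψ0 hψc hψt
  obtain ⟨hmet, hten, htwo, hH2, hEq, -, hwm, -, hSep, -, -, -, h4l, -, -, -, hs2,
    hs2M, hKlR, h4Kl⟩ := hXSETW P D hS
  obtain ⟨-, -, iPhi, iDi, -, -, -, -, -⟩ := hXABSI P D hS
  have hl := hS.l_ge
  have hR : 8 * D.l ≤ D.R := by linarith
  have hRpos : 0 < D.R := by linarith
  have hε0 := hS.eps_pos
  have hε1 := hS.eps_le
  have hlt : D.s2 P < D.sM P := by linarith [hS.gam_ge]
  set U : Set E3 := Ann (2 * D.l) D.R with hU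
  have hUo : IsOpen U := isOpen_Ann _ _
  have hOo : IsOpen D.Om := isOpen_Ann _ _
  have hUO : U ⊆ D.Om := by
    intro x hx
    refine ⟨?_, hx.2⟩
    have h2 : 2 * D.l < ‖x‖ := hx.1
    linarith
  have hAo : IsOpen (Ann (1 / 2) D.R) := isOpen_Ann _ _
  have hUA : U ⊆ Ann (1 / 2) D.R := by
    intro x hx
    refine ⟨?_, hx.2⟩
    have h2 : 2 * D.l < ‖x‖ := hx.1
    linarith
  have hflat : ∀ x ∈ U, D.g' x = 1 := fun x hx => hS.modified.flat x hx.1.le
  have hflat' : ∀ x ∈ U, ∀ᶠ y in 𝓝 x, D.g' y = 1 := fun x hx => by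
    filter_upwards [hUo.mem_nhds hx] with y hy
    exact hflat y hy
  have hh0 : ∀ x ∈ U, D.h' x = 0 := fun x hx => hS.modified.supp x (by
    have : 2 * D.l < ‖x‖ := hx.1
    linarith)
  -- Willmore's inequality
  have hEqU : ∀ᵐ x ∂(volume.restrict U),
      (D.Gw P x ≠ 0 → beps P.eps D.g' x (D.Gw P x) (cHess D.g' x (D.Gw P x) (D.Mw P x))
        = len D.g' x (D.Gw P x) ^ 2
          + len D.g' x (D.Gw P x) * beps P.eps D.g' x (D.Gw P x) (D.h' x)) ∧
      (D.Gw P x = 0 → D.Mw P x = 0) := ae_restrict_of_ae_restrict_of_subset hUA hEq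
  have hmsq : ∀ K : Set E3, IsCompact K → K ⊆ U →
      IntegrableOn (fun x => msq (D.Mw P x) / vn (D.Gw P x)) K := by
    intro K hK hKU
    exact (hINT P.eps (Ann (1 / 2) D.R) D.g' D.h' (D.w P) (D.Gw P) (D.Mw P) hε0 (by linarith)
      hAo hmet hten hH2 hEq K hK (hKU.trans hUA)).2.2.2.1
  have hWil := hW (2 * D.l) D.R (D.s2 P) (D.sM P) (D.w P) (D.Gw P) (D.Mw P) (by linarith)
    (by linarith) hlt (h2On_mono hUA hH2) (hEqU.mono fun x hx => hx.2) hmsq hSep ψ hψ hψc hψt hψ0
  -- the pointwise inequality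
  obtain ⟨C, hC0, hC⟩ := hPTD P.eps hε0 hε1
  have hsym := ae_restrict_of_ae_restrict_of_subset hUA (hHSYM (Ann (1 / 2) D.R) (D.w P)
    (D.Gw P) (D.Mw P) hAo hH2)
  have hlam : 0 < lam P.eps := by
    unfold lam
    have : 0 < 2 - P.eps := by linarith
    have : 0 < 4 - P.eps := by linarith
    positivity
  have hpt : ∀ᵐ x ∂(volume.restrict U), (2 - P.eps) / 4 * Wd (D.Gw P x) (D.Mw P x) ≤
      D.Phi P x * D.vol x + 1 / lam P.eps * (D.Di P x * D.vol x) := by
    rw [ae_restrict_iff' hUo.measurableSet] at hEqU hsym ⊢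
    filter_upwards [hEqU, hsym] with x hx hsx hxU
    have hx := hx hxU
    have hsx := hsx hxU
    have hv : D.vol x = 1 := volDen_flat (hflat x hxU)
    rw [hv, mul_one, mul_one]
    by_cases hp : D.Gw P x = 0
    · have hM := hx.2 hp
      have h1 : Wd (D.Gw P x) (D.Mw P x) = 0 := by
        rw [hp, hM, Wd]
        have h2 : vn (0 : Cov) = 0 := by simp [vn, vsq]
        rw [h2, div_zero]
      have h2 : len D.g' x (D.Gw P x) = 0 := by
        rw [hp, len_flat (hflat x hxU)]
        simp [vn, vsq]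
      have h3 : D.Phi P x = 0 := by
        show flux P.eps D.g' D.h' x (D.Gw P x) (D.Mw P x) = 0
        rw [flux, h2, hh0 x hxU]
        simp [ev, trg]
      have h4 : D.Di P x = 0 := by
        show len D.g' x (D.Gw P x) * _ = 0
        rw [h2, zero_mul]
      rw [h1, h3, h4]
      simp
    · have h1 := hC D.g' D.h' x (D.Gw P x) (D.Mw P x) (hmet.posDef x (hUA hxU))
        (hten.symm x (hUA hxU)) hsx
        (fun k i j => by rw [chr_flat (hflat' x hxU), chr_flat (hflat' x hxU)]) hp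
        (htwo x (hUO hxU)) (hx.1 hp)
      obtain ⟨-, -, h2⟩ := h1
      obtain ⟨h3, h4⟩ := h2 (hh0 x hxU)
      have h5 : btan D.g' x (D.Gw P x) (cHess D.g' x (D.Gw P x) (D.Mw P x)) ^ 2
          / len D.g' x (D.Gw P x) = Wd (D.Gw P x) (D.Mw P x) := by
        rw [cHess_flat (hflat' x hxU), btan_flat (hflat x hxU), len_flat (hflat x hxU), Wd]
      have h6 : D.Phi P x = flux P.eps D.g' D.h' x (D.Gw P x) (D.Mw P x) := rfl
      have h7 : D.Di P x = len D.g' x (D.Gw P x) *
        diss P.eps D.g' D.h' x (D.Gw P x) (D.Mw P x) := rfl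
      rw [h6, h3, h5, h7]
      linarith
  -- integrability
  obtain ⟨s, s', hs, hss', hs', hsup⟩ := support_bounds hlt hψc hψt
  have j1 := integrable_test iPhi hwm hψ hψc hs' fun t ht => (hsup t ht).2
  have j2 := integrable_test iDi hwm hψ hψc hs' fun t ht => (hsup t ht).2
  have hzero : ∀ f : E3 → ℝ, ∫ x in D.Om, ψ (D.w P x) * f x = ∫ x in U, ψ (D.w P x) * f x := by
    intro f
    refine (setIntegral_eq_of_subset_of_forall_sdiff_eq_zero hOo.measurableSet hUO
      fun x hx => ?_)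
    have h0 : ψ (D.w P x) = 0 := by
      by_contra h
      have h1 := (hsup _ h).1
      have h2 := h4l x hx.1 (by linarith)
      refine hx.2 ⟨?_, hx.1.2⟩
      have : 4 * D.l ≤ ‖x‖ := h2
      linarith
    rw [h0, zero_mul]
  have k1 : IntegrableOn (fun x => ψ (D.w P x) * (D.Phi P x * D.vol x)) U := j1.mono_set hUO
  have k2 : IntegrableOn (fun x => ψ (D.w P x) * (D.Di P x * D.vol x)) U := j2.mono_set hUO
  -- comparison of the integrals
  have hmono : ∫ x in U, (2 - P.eps) / 4 * (ψ (D.w P x) * Wd (D.Gw P x) (D.Mw P x)) ≤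
      ∫ x in U, (ψ (D.w P x) * (D.Phi P x * D.vol x) +
        1 / lam P.eps * (ψ (D.w P x) * (D.Di P x * D.vol x))) := by
    refine integral_mono_of_nonneg ?_ (k1.add (k2.const_mul _)) ?_
    · refine Eventually.of_forall fun x => ?_
      have h1 : 0 ≤ Wd (D.Gw P x) (D.Mw P x) := div_nonneg (sq_nonneg _) (Real.sqrt_nonneg _)
      have h2 : 0 ≤ (2 - P.eps) / 4 := by linarith
      exact mul_nonneg h2 (mul_nonneg (hψ0 _) h1)
    · filter_upwards [hpt] with x hx
      calc (2 - P.eps) / 4 * (ψ (D.w P x) * Wd (D.Gw P x) (D.Mw P x))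
          = ψ (D.w P x) * ((2 - P.eps) / 4 * Wd (D.Gw P x) (D.Mw P x)) := by ring
        _ ≤ ψ (D.w P x) * (D.Phi P x * D.vol x + 1 / lam P.eps * (D.Di P x * D.vol x)) :=
            mul_le_mul_of_nonneg_left hx (hψ0 _)
        _ = _ := by ring
  have hR1 : ∫ x in U, (ψ (D.w P x) * (D.Phi P x * D.vol x) +
        1 / lam P.eps * (ψ (D.w P x) * (D.Di P x * D.vol x))) =
      (∫ x in U, ψ (D.w P x) * (D.Phi P x * D.vol x)) +
        1 / lam P.eps * ∫ x in U, ψ (D.w P x) * (D.Di P x * D.vol x) := by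
    rw [← integral_const_mul]
    exact integral_add k1 (k2.const_mul _)
  rw [integral_const_mul, hR1] at hmono
  have e1 : ∫ x in D.Om, ψ (D.w P x) * D.Phi P x * D.vol x =
      ∫ x in U, ψ (D.w P x) * (D.Phi P x * D.vol x) := by
    rw [← hzero]
    simp only [mul_assoc]
  have e2 : ∫ x in D.Om, ψ (D.w P x) * D.Di P x * D.vol x =
      ∫ x in U, ψ (D.w P x) * (D.Di P x * D.vol x) := by
    rw [← hzero]
    simp only [mul_assoc]
  rw [e1, e2]
  have h2 : 0 ≤ (2 - P.eps) / 4 := by linarith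
  have h3 := mul_le_mul_of_nonneg_left hWil h2
  have h4 : (2 - P.eps) / 4 * (16 * Real.pi * ∫ s, ψ s) =
      4 * Real.pi * (2 - P.eps) * ∫ s, ψ s := by ring
  rw [h4] at h3
  linarith

end Pool.Agent.PFlow


end

section

/-!
# XCOLH: the collar tensor
-/

open MeasureTheory Filter Topology
open scoped ContDiff ENNReal

namespace Pool.Agent.PFlow

open Pool.Agent.PenroseSph

namespace XCOLHaux

open AFDaux

theorem norm_inversion' {x : E3} (hx : x ≠ 0) : ‖inversion x‖ = ‖x‖⁻¹ := by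
  unfold inversion
  have hn : 0 < ‖x‖ := norm_pos_iff.2 hx
  rw [norm_smul, Real.norm_of_nonneg (by positivity)]
  field_simp

theorem inversion_inversion' {x : E3} (hx : x ≠ 0) : inversion (inversion x) = x := by
  have hn : 0 < ‖x‖ := norm_pos_iff.2 hx
  have h : inversion (inversion x) = (‖inversion x‖ ^ 2)⁻¹ • inversion x := rfl
  rw [h, norm_inversion' hx]
  unfold inversion
  rw [smul_smul]
  have : ((‖x‖⁻¹) ^ 2)⁻¹ * (‖x‖ ^ 2)⁻¹ = 1 := by field_simp
  rw [this, one_smul]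

theorem jac_inversion' {x : E3} (hx : x ≠ 0) :
    inversionJac (inversion x) = (‖x‖ ^ 2) ^ 2 • inversionJac x := by
  have hn : 0 < ‖x‖ := norm_pos_iff.2 hx
  ext a i
  simp only [inversionJac, Matrix.of_apply, Matrix.smul_apply, smul_eq_mul, norm_inversion' hx]
  have h : ∀ b : Fin 3, (inversion x) b = (‖x‖ ^ 2)⁻¹ * x b := fun b => by
    simp [inversion]
  rw [h a, h i]
  field_simp

theorem jac_mul' {x : E3} (hx : x ≠ 0) : inversionJac (inversion x) * inversionJac x = 1 := by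
  have hn : 0 < ‖x‖ := norm_pos_iff.2 hx
  rw [jac_inversion' hx, Matrix.smul_mul, jac_sq hx, smul_smul]
  have : (‖x‖ ^ 2) ^ 2 * ((‖x‖ ^ 2)⁻¹ ^ 2) = 1 := by field_simp
  rw [this, one_smul]

theorem conj_jac' {x : E3} (hx : x ≠ 0) (A : Bil) :
    (inversionJac x).transpose * ((inversionJac (inversion x)).transpose * A *
      inversionJac (inversion x)) * inversionJac x = A := by
  have e2 : (inversionJac x).transpose *
      ((inversionJac (inversion x)).transpose * A * inversionJac (inversion x)) *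
        inversionJac x = (inversionJac (inversion x) * inversionJac x).transpose * A *
        (inversionJac (inversion x) * inversionJac x) := by
    rw [Matrix.transpose_mul]
    simp only [Matrix.mul_assoc]
  rw [e2, jac_mul' hx, Matrix.transpose_one, Matrix.one_mul, Matrix.mul_one]

/-- The tensor `φ'(log r) (ρ/r)² k(ρν)`. -/
noncomputable def FX (τ δ : ℝ) (k : TensorField) : TensorField := fun y =>
  (deriv (phX τ δ) (Real.log ‖y‖) * facX τ δ y ^ 2) • k (facX τ δ y • y)

theorem colH_out {τ δ : ℝ} {k : TensorField} {x : E3} (hx : 1 ≤ ‖x‖) :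
    colH τ δ k x = FX τ δ k x := by
  unfold colH FX
  rw [if_pos hx]

theorem colH_in {τ δ : ℝ} {k : TensorField} {x : E3} (hx : ‖x‖ < 1) :
    colH τ δ k x = -inverted (FX τ δ k) x := by
  unfold colH FX
  rw [if_neg (not_le.2 hx)]

theorem inverted_def (g : TensorField) (y : E3) : inverted g y =
    (inversionJac y).transpose * g (inversion y) * inversionJac y := rfl

/-- The properties of the profile. -/
structure Prof (τ δ C : ℝ) : Prop where
  smooth : ContDiff ℝ ∞ (phX τ δ)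
  zero : ∀ t, t ≤ τ / 2 → phX τ δ t = 0
  bd : ∀ t, 0 ≤ t → 0 ≤ phX τ δ t ∧ phX τ δ t ≤ t
  id : ∀ t, δ ≤ t → phX τ δ t = t
  der : ∀ t, 0 ≤ deriv (phX τ δ) t ∧ deriv (phX τ δ) t ≤ 1 + C

variable {τ δ C : ℝ}

theorem Prof.derS (P : Prof τ δ C) : ContDiff ℝ ∞ (deriv (phX τ δ)) :=
  (contDiff_infty_iff_deriv.mp P.smooth).2

theorem Prof.hasDeriv (P : Prof τ δ C) (t : ℝ) :
    HasDerivAt (phX τ δ) (deriv (phX τ δ) t) t :=
  ((contDiff_infty_iff_deriv.mp P.smooth).1 t).hasDerivAt

theorem Prof.der_zero (P : Prof τ δ C) {t : ℝ} (ht : t < τ / 2) : deriv (phX τ δ) t = 0 := by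
  have h : phX τ δ =ᶠ[𝓝 t] fun _ => (0 : ℝ) := by
    filter_upwards [Iio_mem_nhds ht] with s hs
    exact P.zero s (le_of_lt hs)
  rw [h.deriv_eq, deriv_const]

theorem Prof.der_one (P : Prof τ δ C) {t : ℝ} (ht : δ ≤ t) : deriv (phX τ δ) t = 1 := by
  have h1 : HasDerivWithinAt (phX τ δ) (deriv (phX τ δ) t) (Set.Ici δ) t :=
    (P.hasDeriv t).hasDerivWithinAt
  have h2 : HasDerivWithinAt (phX τ δ) 1 (Set.Ici δ) t :=
    (hasDerivWithinAt_id t (Set.Ici δ)).congr (fun y hy => P.id y hy) (P.id t ht)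
  exact (uniqueDiffOn_Ici δ t ht).eq_deriv _ h1 h2

theorem fac_pos {x : E3} (hx : x ≠ 0) : 0 < facX τ δ x := by
  unfold facX
  have hn : 0 < ‖x‖ := norm_pos_iff.2 hx
  positivity

theorem norm_fac {x : E3} (hx : x ≠ 0) :
    ‖facX τ δ x • x‖ = Real.exp (phX τ δ (Real.log ‖x‖)) := by
  have hn : 0 < ‖x‖ := norm_pos_iff.2 hx
  rw [norm_smul, Real.norm_of_nonneg (fac_pos hx).le]
  unfold facX
  field_simp

theorem ne_zero_of_one_le {x : E3} (hx : 1 ≤ ‖x‖) : x ≠ 0 :=
  norm_pos_iff.1 (lt_of_lt_of_le one_pos hx)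

theorem Prof.norm_ge (P : Prof τ δ C) {x : E3} (hx : 1 ≤ ‖x‖) : 1 ≤ ‖facX τ δ x • x‖ := by
  rw [norm_fac (ne_zero_of_one_le hx)]
  exact Real.one_le_exp (P.bd _ (Real.log_nonneg hx)).1

theorem Prof.norm_le (P : Prof τ δ C) {x : E3} (hx : 1 ≤ ‖x‖) : ‖facX τ δ x • x‖ ≤ ‖x‖ := by
  rw [norm_fac (ne_zero_of_one_le hx)]
  calc Real.exp (phX τ δ (Real.log ‖x‖)) ≤ Real.exp (Real.log ‖x‖) :=
        Real.exp_le_exp.2 (P.bd _ (Real.log_nonneg hx)).2
    _ = ‖x‖ := Real.exp_log (lt_of_lt_of_le one_pos hx)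

theorem Prof.fac_le (P : Prof τ δ C) {x : E3} (hx : 1 ≤ ‖x‖) : facX τ δ x ≤ 1 := by
  have h := P.norm_le hx
  have hx0 := ne_zero_of_one_le hx
  rw [norm_smul, Real.norm_of_nonneg (fac_pos hx0).le] at h
  have hn : 0 < ‖x‖ := norm_pos_iff.2 hx0
  exact le_of_mul_le_mul_right (by linarith) hn

theorem Prof.fac_eq_one (P : Prof τ δ C) {x : E3} (hx : 1 ≤ ‖x‖) (hd : δ ≤ Real.log ‖x‖) :
    facX τ δ x = 1 := by
  unfold facX
  rw [P.id _ hd, Real.exp_log (lt_of_lt_of_le one_pos hx), div_self]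
  exact (lt_of_lt_of_le one_pos hx).ne'

/-- `F` vanishes where `log |x| < τ/2`. -/
theorem Prof.FX_zero (P : Prof τ δ C) (k : TensorField) {x : E3} (hx : Real.log ‖x‖ < τ / 2) :
    FX τ δ k x = 0 := by
  unfold FX
  rw [P.der_zero hx, zero_mul, zero_smul]

theorem cd_log {x : E3} (hx : x ≠ 0) : ContDiffAt ℝ ∞ (fun y : E3 => Real.log ‖y‖) x :=
  (contDiffAt_norm ℝ hx).log (norm_ne_zero_iff.2 hx)

theorem Prof.cd_fac (P : Prof τ δ C) {x : E3} (hx : x ≠ 0) :
    ContDiffAt ℝ ∞ (fun y : E3 => facX τ δ y) x := by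
  unfold facX
  exact ((P.smooth.contDiffAt.comp x (cd_log hx)).exp).div (contDiffAt_norm ℝ hx)
    (norm_ne_zero_iff.2 hx)

theorem isOpen_outside (r : ℝ) : IsOpen (Outside r) := by
  unfold Outside
  exact isOpen_lt continuous_const continuous_norm

theorem Prof.cd_FX (P : Prof τ δ C) {r : ℝ} (hr : 0 < r) {k : TensorField}
    (hk : TensorOn (Outside r) k) {x : E3} (hx : 1 ≤ ‖x‖) (i j : Fin 3) :
    ContDiffAt ℝ ∞ (fun y : E3 => FX τ δ k y i j) x := by
  have hx0 := ne_zero_of_one_le hx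
  have h0 : (fun y : E3 => FX τ δ k y i j) = fun y : E3 =>
      (deriv (phX τ δ) (Real.log ‖y‖) * facX τ δ y ^ 2) * k (facX τ δ y • y) i j := by
    funext y
    simp only [FX, Matrix.smul_apply, smul_eq_mul]
  rw [h0]
  have hm : facX τ δ x • x ∈ Outside r := by
    have := P.norm_ge hx
    show 1 - r < _
    linarith
  have hkx : ContDiffAt ℝ ∞ (fun y => k y i j) (facX τ δ x • x) :=
    (hk.smooth i j).contDiffAt ((isOpen_outside r).mem_nhds hm)
  have h1 : ContDiffAt ℝ ∞ (fun y : E3 => deriv (phX τ δ) (Real.log ‖y‖)) x :=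
    P.derS.contDiffAt.comp x (cd_log hx0)
  have h2 := P.cd_fac hx0
  have h3 : ContDiffAt ℝ ∞ (fun y : E3 => facX τ δ y • y) x := h2.smul contDiffAt_id
  have h4 : ContDiffAt ℝ ∞ (fun y : E3 => k (facX τ δ y • y) i j) x :=
    ContDiffAt.comp (g := fun y : E3 => k y i j) (f := fun y : E3 => facX τ δ y • y) x hkx h3
  exact (h1.mul (h2.pow 2)).mul h4

theorem Prof.zero_nhds (P : Prof τ δ C) (hτ : 0 < τ) (k : TensorField) {x : E3}
    (hx : ‖x‖ = 1) : ∀ᶠ y in 𝓝 x, colH τ δ k y = 0 := by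
  have hx0 : x ≠ 0 := ne_zero_of_one_le hx.ge
  have hc : ContinuousAt (fun y : E3 => Real.log ‖y‖) x := (cd_log hx0).continuousAt
  have h1 : ∀ᶠ y in 𝓝 x, Real.log ‖y‖ < τ / 2 := by
    refine hc.eventually_lt continuousAt_const ?_
    rw [hx, Real.log_one]
    positivity
  have h2 : ∀ᶠ y in 𝓝 x, -(τ / 2) < Real.log ‖y‖ := by
    refine continuousAt_const.eventually_lt hc ?_
    rw [hx, Real.log_one]
    linarith
  filter_upwards [h1, h2, isOpen_compl_singleton.mem_nhds hx0] with y hy1 hy2 hy0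
  have hy0' : y ≠ 0 := hy0
  rcases le_or_gt 1 ‖y‖ with h | h
  · rw [colH_out h, P.FX_zero k hy1]
  · rw [colH_in h, inverted_def, P.FX_zero k, Matrix.mul_zero, Matrix.zero_mul, neg_zero]
    rw [norm_inversion' hy0', Real.log_inv]
    linarith

theorem Prof.tensorOn (P : Prof τ δ C) (hτ : 0 < τ) {r : ℝ} (hr : 0 < r) {k : TensorField}
    (hk : TensorOn (Outside r) k) : TensorOn {0}ᶜ (colH τ δ k) where
  smooth := by
    intro i j x hx
    have hx0 : x ≠ 0 := hx
    refine ContDiffAt.contDiffWithinAt ?_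
    rcases lt_trichotomy ‖x‖ 1 with h | h | h
    · have h1 : (fun y => colH τ δ k y i j) =ᶠ[𝓝 x] fun y => -(∑ b, (∑ a, inversionJac y a i *
          FX τ δ k (inversion y) a b) * inversionJac y b j) := by
        have ho : IsOpen {y : E3 | ‖y‖ < 1} := isOpen_lt continuous_norm continuous_const
        filter_upwards [ho.mem_nhds h] with y hy
        rw [colH_in hy, Matrix.neg_apply, inverted_apply]
      refine ContDiffAt.congr_of_eventuallyEq ?_ h1
      have hinv : ContDiffAt ℝ ∞ inversion x :=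
        contDiffOn_inversion.contDiffAt (isOpen_compl_singleton.mem_nhds hx0)
      have hJ : ∀ a b : Fin 3, ContDiffAt ℝ ∞ (fun y : E3 => inversionJac y a b) x := fun a b =>
        (contDiffOn_jac a b).contDiffAt (isOpen_compl_singleton.mem_nhds hx0)
      have hn : 0 < ‖x‖ := norm_pos_iff.2 hx0
      have hge : 1 ≤ ‖inversion x‖ := by
        rw [norm_inversion' hx0]
        exact (one_le_inv₀ hn).2 h.le
      refine ContDiffAt.neg (ContDiffAt.sum fun b _ => ContDiffAt.mul
        (ContDiffAt.sum fun a _ => (hJ a i).mul ?_) (hJ b j))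
      exact ContDiffAt.comp x (P.cd_FX hr hk hge a b) hinv
    · have h1 : (fun y => colH τ δ k y i j) =ᶠ[𝓝 x] fun _ => (0 : ℝ) := by
        filter_upwards [P.zero_nhds hτ k h] with y hy
        rw [hy]
        rfl
      exact contDiffAt_const.congr_of_eventuallyEq h1
    · have h1 : (fun y => colH τ δ k y i j) =ᶠ[𝓝 x] fun y => FX τ δ k y i j := by
        have ho : IsOpen {y : E3 | 1 < ‖y‖} := isOpen_lt continuous_const continuous_norm
        filter_upwards [ho.mem_nhds h] with y hy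
        rw [colH_out (le_of_lt hy)]
      exact (P.cd_FX hr hk h.le i j).congr_of_eventuallyEq h1
  symm := by
    intro x hx
    have hx0 : x ≠ 0 := hx
    have hF : ∀ y : E3, 1 ≤ ‖y‖ → (FX τ δ k y).transpose = FX τ δ k y := by
      intro y hy
      have hm : facX τ δ y • y ∈ Outside r := by
        have := P.norm_ge hy
        show 1 - r < _
        linarith
      have := hk.symm _ hm
      unfold Matrix.IsSymm at this
      unfold FX
      rw [Matrix.transpose_smul, this]
    unfold Matrix.IsSymm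
    rcases le_or_gt 1 ‖x‖ with h | h
    · rw [colH_out h, hF x h]
    · have hn : 0 < ‖x‖ := norm_pos_iff.2 hx0
      have hge : 1 ≤ ‖inversion x‖ := by
        rw [norm_inversion' hx0]
        exact (one_le_inv₀ hn).2 h.le
      rw [colH_in h, inverted_def, Matrix.transpose_neg, Matrix.transpose_mul,
        Matrix.transpose_mul, Matrix.transpose_transpose, hF _ hge, Matrix.mul_assoc]

theorem Prof.mirror (P : Prof τ δ C) (hτ : 0 < τ) (k : TensorField) {x : E3} (hx : x ≠ 0) :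
    inverted (colH τ δ k) x = -colH τ δ k x := by
  have hn : 0 < ‖x‖ := norm_pos_iff.2 hx
  rcases lt_trichotomy ‖x‖ 1 with h | h | h
  · have hge : 1 ≤ ‖inversion x‖ := by
      rw [norm_inversion' hx]
      exact (one_le_inv₀ hn).2 h.le
    rw [colH_in h, neg_neg, inverted_def, inverted_def, colH_out hge]
  · have h1 : inversion x = x := by
      unfold inversion
      rw [h]
      simp
    have h2 : colH τ δ k x = 0 := (P.zero_nhds hτ k h).self_of_nhds
    rw [inverted_def, h1, h2, Matrix.mul_zero, Matrix.zero_mul, neg_zero]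
  · have hlt : ‖inversion x‖ < 1 := by
      rw [norm_inversion' hx]
      exact inv_lt_one_of_one_lt₀ h
    rw [inverted_def, colH_in hlt, inverted_def, inversion_inversion' hx, Matrix.mul_neg,
      Matrix.neg_mul, conj_jac' hx, colH_out h.le]

theorem Prof.same (P : Prof τ δ C) (hδ : 0 < δ) (k : TensorField) {x : E3}
    (hx : Real.exp δ ≤ ‖x‖) : colH τ δ k x = k x := by
  have h1 : 1 ≤ ‖x‖ := (Real.one_le_exp hδ.le).trans hx
  have h2 : δ ≤ Real.log ‖x‖ := (Real.le_log_iff_exp_le (lt_of_lt_of_le one_pos h1)).2 hx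
  rw [colH_out h1]
  unfold FX
  rw [P.der_one h2, P.fac_eq_one h1 h2]
  simp

theorem jac_bound {x : E3} (hx : 1 / 4 ≤ ‖x‖) (a i : Fin 3) : |inversionJac x a i| ≤ 48 := by
  have hn : 0 < ‖x‖ := by linarith
  have hc : ∀ b : Fin 3, |x b| ≤ ‖x‖ := fun b => by
    have := PiLp.norm_apply_le x b
    rwa [Real.norm_eq_abs] at this
  have h1 : |2 * x a * x i / ‖x‖ ^ 2| ≤ 2 := by
    rw [abs_div, abs_of_pos (by positivity : (0 : ℝ) < ‖x‖ ^ 2), div_le_iff₀ (by positivity)]
    rw [abs_mul, abs_mul, abs_of_pos (by norm_num : (0 : ℝ) < 2)]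
    have := mul_le_mul (hc a) (hc i) (abs_nonneg _) hn.le
    nlinarith
  have h2 : |(if a = i then (1 : ℝ) else 0)| ≤ 1 := by
    split_ifs <;> simp
  have h3 : |(if a = i then (1 : ℝ) else 0) - 2 * x a * x i / ‖x‖ ^ 2| ≤ 3 := by
    have := abs_sub (if a = i then (1 : ℝ) else 0) (2 * x a * x i / ‖x‖ ^ 2)
    linarith
  simp only [inversionJac, Matrix.of_apply]
  rw [abs_div, abs_of_pos (by positivity : (0 : ℝ) < ‖x‖ ^ 2), div_le_iff₀ (by positivity)]
  nlinarith

theorem Prof.FX_bound (P : Prof τ δ C) (hC : 0 ≤ C) {k : TensorField} {K : ℝ}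
    (hK : ∀ x : E3, 1 ≤ ‖x‖ → ‖x‖ ≤ 4 → ∀ i j, |k x i j| ≤ K) {x : E3} (hx : 1 ≤ ‖x‖)
    (hx4 : ‖x‖ ≤ 4) (i j : Fin 3) : |FX τ δ k x i j| ≤ (1 + C) * K := by
  have hx0 := ne_zero_of_one_le hx
  have h1 := hK _ (P.norm_ge hx) ((P.norm_le hx).trans hx4) i j
  have hK0 : 0 ≤ K := (abs_nonneg _).trans h1
  have h2 := P.der (Real.log ‖x‖)
  have h3 := P.fac_le hx
  have h4 : 0 < facX τ δ x := fac_pos hx0
  have h5 : facX τ δ x ^ 2 ≤ 1 := pow_le_one₀ h4.le h3
  simp only [FX, Matrix.smul_apply, smul_eq_mul]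
  rw [abs_mul, abs_mul, abs_of_nonneg h2.1, abs_of_nonneg (by positivity : 0 ≤ facX τ δ x ^ 2)]
  have h6 : deriv (phX τ δ) (Real.log ‖x‖) * facX τ δ x ^ 2 ≤ 1 + C := by
    calc deriv (phX τ δ) (Real.log ‖x‖) * facX τ δ x ^ 2 ≤ (1 + C) * 1 :=
          mul_le_mul h2.2 h5 (by positivity) (by linarith)
      _ = 1 + C := mul_one _
  exact mul_le_mul h6 h1 (abs_nonneg _) (by linarith)

theorem Prof.bound (P : Prof τ δ C) (hC : 0 ≤ C) {k : TensorField} {K : ℝ}
    (hK : ∀ x : E3, 1 ≤ ‖x‖ → ‖x‖ ≤ 4 → ∀ i j, |k x i j| ≤ K) {x : E3} (hx : 1 / 4 ≤ ‖x‖)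
    (hx4 : ‖x‖ ≤ 4) (i j : Fin 3) : |colH τ δ k x i j| ≤ (20736 * (1 + C)) * K := by
  have hn : 0 < ‖x‖ := by linarith
  have hx0 : x ≠ 0 := norm_pos_iff.1 hn
  rcases le_or_gt 1 ‖x‖ with h | h
  · rw [colH_out h]
    have h1 := P.FX_bound hC hK h hx4 i j
    have h2 : 0 ≤ (1 + C) * K := (abs_nonneg _).trans h1
    nlinarith
  · have hge : 1 ≤ ‖inversion x‖ := by
      rw [norm_inversion' hx0]
      exact (one_le_inv₀ hn).2 h.le
    have hle : ‖inversion x‖ ≤ 4 := by
      rw [norm_inversion' hx0]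
      rw [inv_le_comm₀ hn (by norm_num)]
      linarith
    have h1 := fun a b => P.FX_bound hC hK hge hle a b
    have h2 : 0 ≤ (1 + C) * K := (abs_nonneg _).trans (h1 0 0)
    rw [colH_in h, Matrix.neg_apply, abs_neg, inverted_apply]
    have h3 : ∀ b, |∑ a, inversionJac x a i * FX τ δ k (inversion x) a b| ≤
        3 * (48 * ((1 + C) * K)) := by
      intro b
      refine (Finset.abs_sum_le_sum_abs _ _).trans ?_
      have : ∀ a ∈ (Finset.univ : Finset (Fin 3)),
          |inversionJac x a i * FX τ δ k (inversion x) a b| ≤ 48 * ((1 + C) * K) := by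
        intro a _
        rw [abs_mul]
        exact mul_le_mul (jac_bound hx a i) (h1 a b) (abs_nonneg _) (by norm_num)
      refine (Finset.sum_le_card_nsmul _ _ _ this).trans ?_
      simp
    refine (Finset.abs_sum_le_sum_abs _ _).trans ?_
    have : ∀ b ∈ (Finset.univ : Finset (Fin 3)),
        |(∑ a, inversionJac x a i * FX τ δ k (inversion x) a b) * inversionJac x b j| ≤
          (3 * (48 * ((1 + C) * K))) * 48 := by
      intro b _
      rw [abs_mul]
      exact mul_le_mul (h3 b) (jac_bound hx b j) (abs_nonneg _) (by positivity)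
    refine (Finset.sum_le_card_nsmul _ _ _ this).trans ?_
    simp only [Finset.card_univ, Fintype.card_fin, nsmul_eq_mul]
    push_cast
    nlinarith

theorem ev_smul_right (B : Bil) (c : ℝ) (v : Cov) :
    ev B (fun i => c * v i) (fun i => c * v i) = c ^ 2 * ev B v v := by
  unfold ev
  rw [Finset.mul_sum]
  refine Finset.sum_congr rfl fun i _ => ?_
  rw [Finset.mul_sum]
  refine Finset.sum_congr rfl fun j _ => ?_
  ring

theorem ev_smul_left (B : Bil) (c : ℝ) (v : Cov) : ev (c • B) v v = c * ev B v v := by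
  unfold ev
  rw [Finset.mul_sum]
  refine Finset.sum_congr rfl fun i _ => ?_
  rw [Finset.mul_sum]
  refine Finset.sum_congr rfl fun j _ => ?_
  rw [Matrix.smul_apply, smul_eq_mul]
  ring

theorem Prof.twoNonneg (P : Prof τ δ C) {g k : TensorField}
    (hg : ∀ x : E3, 1 ≤ ‖x‖ → (g x).PosDef) (h2 : TwoNonneg {x : E3 | 1 ≤ ‖x‖} g k) :
    TwoNonneg {x : E3 | 1 ≤ ‖x‖} (colG τ δ g) (colH τ δ k) := by
  intro x hx v hv
  have hx1 : 1 ≤ ‖x‖ := hx
  have hx0 := ne_zero_of_one_le hx1
  have hf : 0 < facX τ δ x := fac_pos hx0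
  have hG : colG τ δ g x = facX τ δ x ^ 2 • g (facX τ δ x • x) := by
    unfold colG
    rw [if_pos hx1]
  rw [hG, ev_smul_left] at hv
  have h3 : ev (g (facX τ δ x • x)) (fun i => facX τ δ x * v i) (fun i => facX τ δ x * v i) = 1 := by
    rw [ev_smul_right, hv]
  have h4 := h2 (facX τ δ x • x) (P.norm_ge hx1) _ h3
  rw [ev_smul_right] at h4
  have hdet : IsUnit (g (facX τ δ x • x)).det :=
    (hg _ (P.norm_ge hx1)).det_pos.ne'.isUnit
  have hinv : (facX τ δ x ^ 2 • g (facX τ δ x • x))⁻¹ =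
      (facX τ δ x ^ 2)⁻¹ • (g (facX τ δ x • x))⁻¹ := by
    refine Matrix.inv_eq_right_inv ?_
    rw [Matrix.smul_mul, Matrix.mul_smul, smul_smul, Matrix.mul_nonsing_inv _ hdet,
      mul_inv_cancel₀ (by positivity), one_smul]
  have h5 : trg (colG τ δ g) x (colH τ δ k x) =
      deriv (phX τ δ) (Real.log ‖x‖) * trg g (facX τ δ x • x) (k (facX τ δ x • x)) := by
    unfold trg
    rw [hG, hinv, colH_out hx1, Finset.mul_sum]
    refine Finset.sum_congr rfl fun i _ => ?_
    rw [Finset.mul_sum]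
    refine Finset.sum_congr rfl fun j _ => ?_
    simp only [FX, Matrix.smul_apply, smul_eq_mul]
    field_simp
  have h6 : ev (colH τ δ k x) v v = deriv (phX τ δ) (Real.log ‖x‖) *
      (facX τ δ x ^ 2 * ev (k (facX τ δ x • x)) v v) := by
    rw [colH_out hx1]
    unfold FX
    rw [ev_smul_left]
    ring
  rw [h5, h6]
  exact mul_le_mul_of_nonneg_left h4 (P.der _).1

end XCOLHaux

/-- **XCOLH.** -/
theorem XCOLH (hXPHI : Stmt_XPHI) : Stmt_XCOLH := by
  intro δ₀ δ h0 hδ hδ2 _
  obtain ⟨C, hC, hφ⟩ := hXPHI δ hδ hδ2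
  refine ⟨20736 * (1 + C), by positivity, ?_⟩
  intro k hk τ hτ hτδ hτ1
  obtain ⟨a1, a2, a3, a4, a5, -, -⟩ := hφ τ hτ hτδ
  have P : XCOLHaux.Prof τ δ C :=
    { smooth := a1
      zero := a2
      bd := fun t ht => ⟨(a3 t ht).1, (a3 t ht).2.1⟩
      id := a4
      der := fun t => ⟨(a5 t).1, (a5 t).2.trans (by nlinarith)⟩ }
  refine ⟨P.tensorOn hτ h0 hk, fun x hx => P.mirror hτ k hx, fun x hx => P.same hδ k hx, ?_, ?_⟩
  · intro K hK x hx hx4 i j
    exact P.bound hC.le hK hx hx4 i j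
  · intro g hg h2
    exact P.twoNonneg hg h2

end Pool.Agent.PFlow


end

section

/-!
# XSETW: the function `w` and its levels (exterior case)
-/

set_option autoImplicit false

open MeasureTheory Filter Topology
open scoped ContDiff ENNReal

namespace Pool.Agent.PFlow

open Pool.Agent.PenroseSph

namespace XSETWaux

theorem isOpen_Ann (a b : ℝ) : IsOpen (Ann a b) :=
  (isOpen_lt continuous_const continuous_norm).inter (isOpen_lt continuous_norm continuous_const)

theorem isCompact_cAnn (a b : ℝ) : IsCompact (cAnn a b) := by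
  have h1 : IsClosed (cAnn a b) :=
    (isClosed_le continuous_const continuous_norm).inter
      (isClosed_le continuous_norm continuous_const)
  refine (isCompact_closedBall (0 : E3) b).of_isClosed_subset h1 fun x hx => ?_
  rw [mem_closedBall_zero_iff]
  exact hx.2

theorem log_ge : (2.7 : ℝ) < Real.log 16 := by
  have h : Real.log 16 = 4 * Real.log 2 := by
    rw [show (16 : ℝ) = 2 ^ (4 : ℕ) by norm_num, Real.log_pow]
    norm_num
  rw [h]
  have := Real.log_two_gt_d9
  linarith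

/-- The numerical relations between the parameters. -/
theorem numbers {P : ParX} {D : DatX} (hS : SetupX P D) :
    0 < D.R ∧ 16 * D.l ≤ D.R ∧ 1 ≤ D.R / 2 ∧
    1 < D.s2 P ∧ D.s2 P + 4 + 4 * P.gam < D.sM P ∧
    2 * D.Kl P ≤ D.R ∧ 4 * D.l ≤ D.Kl P ∧
    (2 - P.eps) * Real.log (D.Kl P) = (2 - P.eps) * Real.log (4 * D.l) + 1 + 2 * P.gam := by
  have he := hS.eps_pos
  have he2 := hS.eps_le
  have hg := hS.gam_ge
  have hl := hS.l_ge
  have hl0 : 0 < D.l := by linarith
  have h2e : 0 < 2 - P.eps := by linarith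
  obtain ⟨K, hK⟩ : ∃ K, K = kE P.eps P.gam := ⟨_, rfl⟩
  have hKlog : (2 - P.eps) * Real.log K = (2 - P.eps) * Real.log 4 + 1 + 2 * P.gam := by
    rw [hK, kE, Real.log_mul (by norm_num) (Real.exp_pos _).ne', Real.log_exp]
    field_simp
    ring
  have hK4 : 4 ≤ K := by
    rw [hK, kE]
    have h0 : 0 ≤ (1 + 2 * P.gam) / (2 - P.eps) := div_nonneg (by linarith) h2e.le
    have : 1 ≤ Real.exp ((1 + 2 * P.gam) / (2 - P.eps)) := Real.one_le_exp h0
    linarith
  have hK0 : 0 < K := by linarith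
  have hRK := hS.R_ge
  rw [← hK] at hRK
  have hR16 : 16 * D.l ≤ D.R := by
    have h1 : (16 : ℝ) ≤ K ^ 4 := by
      have : (4 : ℝ) ^ 4 ≤ K ^ 4 := by gcongr
      linarith
    nlinarith
  have hR0 : 0 < D.R := by linarith
  have hs2 : D.s2 P = (2 - P.eps) * Real.log (4 * D.l) + P.gam := rfl
  have hsM : D.sM P = (2 - P.eps) * Real.log (D.R / 2) - P.gam := rfl
  have hlog16 : (2.7 : ℝ) < Real.log (4 * D.l) := by
    refine log_ge.trans_le (Real.log_le_log (by norm_num) (by linarith))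
  have hs21 : 1 < D.s2 P := by
    rw [hs2]
    nlinarith
  have hKl : D.Kl P = K * D.l := by rw [hK]; rfl
  have hKl0 : 0 < D.Kl P := by rw [hKl]; positivity
  have hKllog : (2 - P.eps) * Real.log (D.Kl P)
      = (2 - P.eps) * Real.log (4 * D.l) + 1 + 2 * P.gam := by
    rw [hKl, Real.log_mul hK0.ne' hl0.ne', Real.log_mul (by norm_num) hl0.ne', mul_add, hKlog]
    ring
  have h2K : 2 * D.Kl P ≤ D.R := by
    rw [hKl]
    have h1 : 2 * K ≤ K ^ 4 := by
      have h3 : (4 : ℝ) ^ 3 ≤ K ^ 3 := by gcongr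
      nlinarith
    nlinarith
  have h4l : 4 * D.l ≤ D.Kl P := by
    rw [hKl]
    nlinarith
  have hsMs2 : D.s2 P + 4 + 4 * P.gam < D.sM P := by
    rw [hs2, hsM]
    have h1 : K ^ 4 * D.l / 2 ≤ D.R / 2 := by linarith
    have h3 : Real.log (K ^ 4 * D.l / 2) ≤ Real.log (D.R / 2) :=
      Real.log_le_log (by positivity) h1
    have h4 : Real.log (K ^ 4 * D.l / 2) = 4 * Real.log K + Real.log D.l - Real.log 2 := by
      rw [Real.log_div (by positivity) (by norm_num), Real.log_mul (by positivity) hl0.ne',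
        Real.log_pow]
      norm_num
    have h5 : Real.log (4 * D.l) = 2 * Real.log 2 + Real.log D.l := by
      rw [Real.log_mul (by norm_num) hl0.ne', show (4 : ℝ) = 2 ^ (2 : ℕ) by norm_num,
        Real.log_pow]
      norm_num
    have h6 : Real.log 4 = 2 * Real.log 2 := by
      rw [show (4 : ℝ) = 2 ^ (2 : ℕ) by norm_num, Real.log_pow]
      norm_num
    have h7 := Real.log_two_gt_d9
    have h8 : (2 - P.eps) * Real.log (K ^ 4 * D.l / 2) ≤ (2 - P.eps) * Real.log (D.R / 2) := by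
      gcongr
    rw [h4] at h8
    rw [h5]
    rw [h6] at hKlog
    nlinarith
  exact ⟨hR0, hR16, by linarith, hs21, hsMs2, h2K, h4l, hKllog⟩

theorem pd_add_const (i : Fin 3) (f : E3 → ℝ) (c : ℝ) :
    pd i (fun x => f x + c) = pd i f := by
  funext x
  show fderiv ℝ (fun x => f x + c) x _ = fderiv ℝ f x _
  rw [fderiv_add_const]

/-- Adding a constant to a function of class `H²`. -/
theorem h2_add_const {U : Set E3} {w : E3 → ℝ} {G : E3 → Cov} {M : E3 → Bil}
    (h : H2On U w G M) (c : ℝ) : H2On U (fun x => w x + c) G M := by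
  refine ⟨h.cont.add continuousOn_const, h.memG, h.memM, ?_⟩
  intro K hK hKU
  obtain ⟨v, hv1, hv2, hv3, hv4⟩ := h.approx K hK hKU
  refine ⟨fun n x => v n x + c, fun n => (hv1 n).add contDiff_const, ?_, ?_, ?_⟩
  · rw [Metric.tendstoUniformlyOn_iff] at hv2 ⊢
    intro ε hε
    filter_upwards [hv2 ε hε] with n hn x hx
    have h1 := hn x hx
    rw [Real.dist_eq] at h1 ⊢
    have h2 : w x + c - (v n x + c) = w x - v n x := by ring
    rw [h2]
    exact h1
  · intro i
    simp only [pd_add_const]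
    exact hv3 i
  · intro i j
    simp only [pd_add_const]
    exact hv4 i j

end XSETWaux

open XSETWaux in
theorem XSETW (hLOGW : Stmt_LOGW) : Stmt_XSETW := by
  intro P D hS
  obtain ⟨hR0, hR16, hR2, hs21, hsMs2, h2K, h4l, hKllog⟩ := numbers hS
  have he := hS.eps_pos
  have he2 := hS.eps_le
  have hg := hS.gam_ge
  have hl := hS.l_ge
  have hl0 : 0 < D.l := by linarith
  have h2e : 0 < 2 - P.eps := by linarith
  have hloc := hS.located
  have hOm : IsOpen (Ann (1 / 2) D.R) := isOpen_Ann _ _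
  have hMet : MetricOn (Ann (1 / 2) D.R) D.g' :=
    ⟨fun i j => (hS.modified.metric.smooth i j).mono (Set.subset_univ _),
      fun x _ => hS.modified.metric.posDef x trivial⟩
  have hTen : TensorOn (Ann (1 / 2) D.R) D.h' :=
    ⟨fun i j => (hS.modified.tensor.smooth i j).mono (Set.subset_univ _),
      fun x _ => hS.modified.tensor.symm x trivial⟩
  have hsM : D.sM P = (2 - P.eps) * Real.log (D.R / 2) - P.gam := rfl
  have hs2 : D.s2 P = (2 - P.eps) * Real.log (4 * D.l) + P.gam := rfl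
  have hw : ∀ x, D.w P x = wOf P.eps D.u x + P.eps / 4 := fun x => rfl
  obtain ⟨hw1, hw2, hw3⟩ := hLOGW P.eps (Ann (1 / 2) D.R) D.g' D.h' D.u D.G D.M he (by linarith)
    hOm hMet hTen hS.sol.h2 hloc.pos hS.sol.eq
  -- near the outer boundary
  have hout : ∀ x : E3, D.R / 2 ≤ ‖x‖ → ‖x‖ < D.R → D.sM P ≤ D.w P x := by
    intro x hx1 hx2
    have h1 := hloc.outer_low x (by linarith) hx2
    have h3 : Real.log (D.R / 2) ≤ Real.log ‖x‖ := Real.log_le_log (by linarith) hx1
    have h4 : (2 - P.eps) * Real.log (D.R / 2) ≤ (2 - P.eps) * Real.log ‖x‖ := by gcongr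
    rw [hw, hsM]
    linarith
  have hmid : ∀ x ∈ D.Om, D.s2 P ≤ D.w P x → 4 * D.l ≤ ‖x‖ := by
    intro x hx h
    by_contra hc
    have := hloc.mid x hx.1.le (not_le.1 hc)
    exact absurd h (not_le.2 this)
  have hsmall : ∀ x ∈ D.Om, D.w P x < D.sM P → ‖x‖ < D.R / 2 := by
    intro x hx h
    by_contra hc
    exact absurd h (not_lt.2 (hout x (not_lt.1 hc) hx.2))
  refine ⟨hMet, hTen, fun x hx => hS.modified.twoNonneg x hx.1.le, h2_add_const hw1 _, hw2, ?_,
    ?_, ?_, ?_, ?_, ?_, hsmall, hmid, ?_, ?_, ?_, hs21, hsMs2, h2K, h4l⟩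
  · -- no islands
    intro E hE1 hE2 hE3 x hx
    obtain ⟨⟨y, hy, hy'⟩, ⟨z, hz, hz'⟩⟩ := hw3 hS.sol.noIsland E hE1 hE2 hE3 x hx
    refine ⟨⟨y, hy, ?_⟩, ⟨z, hz, ?_⟩⟩
    · rw [hw, hw]
      exact add_le_add_left hy' _
    · rw [hw, hw]
      exact add_le_add_left hz' _
  · exact ((Real.measurable_log.comp hS.sol.cont.measurable).const_mul (-P.eps)).add_const _
  · -- Sep on the whole annulus
    have hc := hS.c_pos
    refine ⟨P.eps * Real.log (1 + P.c), mul_pos he (Real.log_pos (by linarith)),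
      2 / 3, D.R / 2, by norm_num, by linarith, by linarith, ?_, hout⟩
    intro x hx1 hx2
    have h1 := hloc.inner x hx1 hx2
    have h2 : Real.log (1 + P.c) ≤ Real.log (D.u x) := Real.log_le_log (by linarith) h1
    have h3 : P.eps * Real.log (1 + P.c) ≤ P.eps * Real.log (D.u x) := by gcongr
    rw [hw]
    unfold wOf
    linarith
  · -- Sep on the outer part
    refine ⟨3 * D.l, D.R / 2, by linarith, by linarith, by linarith, ?_, hout⟩
    intro x hx1 hx2
    exact (hloc.mid x (by linarith) (by linarith)).le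
  · intro x hx
    have h1 := hloc.strict x hx.1 hx.2
    have h2 := hloc.pos x ⟨by linarith [hx.1], hx.2⟩
    have h3 : Real.log (D.u x) < 0 := Real.log_neg h2 h1
    rw [hw]
    unfold wOf
    nlinarith
  · intro x hx1 hx2
    have := hloc.near x hx1 hx2
    rw [hw]
    linarith
  · intro x hx1 hx2
    have h1 : 1 ≤ ‖x‖ := by linarith
    have h3 := hloc.outer x h1 (by linarith)
    have h4 := (abs_le.1 h3).2
    have h5 : Real.log ‖x‖ ≤ Real.log (D.Kl P) := Real.log_le_log (by linarith) hx2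
    have h6 : (2 - P.eps) * Real.log ‖x‖ ≤ (2 - P.eps) * Real.log (D.Kl P) := by gcongr
    rw [hw, hs2]
    linarith
  · intro x hx h
    by_contra hc
    have hc' := not_le.1 hc
    have h3 := hloc.outer_low x hx.1.le hx.2
    have h5 : Real.log (D.Kl P) ≤ Real.log ‖x‖ := Real.log_le_log (by linarith) hc'.le
    have h6 : (2 - P.eps) * Real.log (D.Kl P) ≤ (2 - P.eps) * Real.log ‖x‖ := by gcongr
    rw [hw, hs2] at h
    linarith
  · intro s' hs'
    refine ⟨cAnn 1 (D.R / 2), isCompact_cAnn _ _, ?_, ?_⟩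
    · intro x hx
      exact ⟨lt_of_lt_of_le (by norm_num) hx.1, lt_of_le_of_lt hx.2 (by linarith)⟩
    · rintro x ⟨hxO, hx2⟩
      exact ⟨hxO.1.le, (hsmall x hxO (lt_of_le_of_lt hx2 hs')).le⟩

end Pool.Agent.PFlow


end
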