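import Mathlib
import Pool.Agent.PFlow.StmtsX2
import Pool.Agent.PenroseM.C07
import Pool.Agent.PenroseM.C35

/-! Parts: PFlow.X.XMATL, PFlow.X.XPER -/

section

/-!
# Lower bound for the matter term (module XMATL)
-/

open MeasureTheory Filter Topology
open scoped ContDiff ENNReal

namespace Pool.Agent.PFlow

open Pool.Agent.PenroseSph

namespace XMATLM

/-- The determinant of a `3 × 3` matrix with entries of size at most `c`. -/
theorem det_le (A : Bil) (c : ℝ) (h : ∀ i j, |A i j| ≤ c) : A.det ≤ 6 * c ^ 3 := by
  have hc : 0 ≤ c := (abs_nonneg _).trans (h 0 0)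
  have t : ∀ i j k l m n : Fin 3, |A i j * A k l * A m n| ≤ c ^ 3 := by
    intro i j k l m n
    rw [abs_mul, abs_mul]
    calc |A i j| * |A k l| * |A m n| ≤ c * c * c := by
          have h1 := h i j
          have h2 := h k l
          have h3 := h m n
          gcongr
      _ = c ^ 3 := by ring
  rw [Matrix.det_fin_three]
  have a1 := (abs_le.1 (t 0 0 1 1 2 2))
  have a2 := (abs_le.1 (t 0 0 1 2 2 1))
  have a3 := (abs_le.1 (t 0 1 1 0 2 2))
  have a4 := (abs_le.1 (t 0 1 1 2 2 0))
  have a5 := (abs_le.1 (t 0 2 1 0 2 1))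
  have a6 := (abs_le.1 (t 0 2 1 1 2 0))
  linarith [a1.1, a1.2, a2.1, a2.2, a3.1, a3.2, a4.1, a4.2, a5.1, a5.2, a6.1, a6.2]

theorem isCompact_cann (a b : ℝ) : IsCompact (cAnn a b) := by
  refine (isCompact_closedBall (0 : E3) b).of_isClosed_subset ?_ ?_
  · exact (isClosed_le continuous_const continuous_norm).inter
      (isClosed_le continuous_norm continuous_const)
  · intro x hx
    rw [mem_closedBall_zero_iff]
    exact hx.2

theorem cont_entry {g : TensorField} (hg : MetricOn Set.univ g) (i j : Fin 3) :
    ContDiff ℝ ∞ (fun x => g x i j) := contDiffOn_univ.1 (hg.smooth i j)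

theorem cont_vol {g : TensorField} (hg : MetricOn Set.univ g) : Continuous (volDen g) := by
  unfold volDen
  refine Real.continuous_sqrt.comp ?_
  have h : ∀ i j, Continuous (fun x => g x i j) := fun i j => (cont_entry hg i j).continuous
  simp only [Matrix.det_fin_three]
  have h00 := h 0 0
  have h01 := h 0 1
  have h02 := h 0 2
  have h10 := h 1 0
  have h11 := h 1 1
  have h12 := h 1 2
  have h20 := h 2 0
  have h21 := h 2 1
  have h22 := h 2 2
  fun_prop

theorem contDiff_pd' {f : E3 → ℝ} (h : ContDiff ℝ ∞ f) (i : Fin 3) : ContDiff ℝ ∞ (pd i f) := by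
  have h1 : ContDiff ℝ ∞ (fderiv ℝ f) := h.fderiv_right (m := ∞) (by simp)
  exact h1.clm_apply contDiff_const

theorem cont_linR {g : TensorField} (hg : MetricOn Set.univ g) : Continuous (linR g) := by
  unfold linR
  refine continuous_finsetSum _ fun i _ => continuous_finsetSum _ fun j _ => ?_
  exact (contDiff_pd' (contDiff_pd' (cont_entry hg i j) j) i).continuous.sub
    (contDiff_pd' (contDiff_pd' (cont_entry hg i i) j) j).continuous

theorem msz_nonneg (B : Bil) : 0 ≤ msz B := Real.sqrt_nonneg _

theorem msz_le (B : Bil) (c : ℝ) (h : ∀ i j, |B i j| ≤ c) : msz B ≤ 3 * c := by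
  have hc : 0 ≤ c := (abs_nonneg _).trans (h 0 0)
  unfold msz
  rw [Real.sqrt_le_left (by positivity)]
  have h1 : ∀ i j, B i j ^ 2 ≤ c ^ 2 := fun i j => sq_le_sq' (abs_le.1 (h i j)).1 (abs_le.1 (h i j)).2
  calc ∑ i, ∑ j, B i j ^ 2 ≤ ∑ _i : Fin 3, ∑ _j : Fin 3, c ^ 2 :=
        Finset.sum_le_sum fun i _ => Finset.sum_le_sum fun j _ => h1 i j
    _ = (3 * c) ^ 2 := by
        simp only [Finset.sum_const, Finset.card_univ, Fintype.card_fin]
        ring

theorem ae_spheres (l : ℝ) : ∀ᵐ x : E3, ‖x‖ ≠ l / 2 ∧ ‖x‖ ≠ l ∧ ‖x‖ ≠ 2 * l := by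
  have h : ∀ r : ℝ, ∀ᵐ x : E3, ‖x‖ ≠ r := by
    intro r
    have h1 : (volume : Measure E3) (Metric.sphere (0 : E3) r) = 0 := Measure.addHaar_sphere _ _ _
    refine (measure_eq_zero_iff_ae_notMem.1 h1).mono fun x hx => ?_
    intro h2
    exact hx (by simpa using h2)
  filter_upwards [h (l / 2), h l, h (2 * l)] with x h1 h2 h3
  exact ⟨h1, h2, h3⟩

/-- The facts used below. -/
structure Fa (P : ParX) (D : DatX) : Prop where
  l_ge : 8 ≤ D.l
  R_pos : 0 < D.R
  lR : 8 * D.l ≤ D.R
  wm : Measurable (D.w P)
  lt_s2 : ∀ x ∈ D.Om, ‖x‖ < 4 * D.l → D.w P x < D.s2 P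
  gt : ∀ x ∈ D.Om, P.eps / 4 < D.w P x
  ex2 : Real.exp D.tau ≤ 2
  ex1 : 1 ≤ Real.exp D.tau
  eps_s2 : P.eps / 4 ≤ D.s2 P
  s2_sM : D.s2 P < D.sM P
  Kl_l : 4 * D.l ≤ D.Kl P
  X0 : ∀ x, 0 ≤ D.X P x
  ph0 : ∀ x, 0 ≤ D.ph P x
  vol0 : ∀ x, 0 ≤ D.vol x
  volc : Continuous D.vol
  volle : ∀ x : E3, 2 ≤ ‖x‖ → D.vol x ≤ Real.sqrt (6 * (1 + P.C) ^ 3)

theorem fa (hSETW : Stmt_XSETW) (P : ParX) (D : DatX) (hS : SetupX P D) : Fa P D := by
  obtain ⟨hmet, hten, h2n, hH2, hEq, hNI, hwm, hSep1, hSep2, hgt, hnear, hRhalf, hs2, hup, hKl,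
    hcpt, s2_1, s2_sM, Kl_R, Kl_l⟩ := hSETW P D hS
  have hl : 8 ≤ D.l := hS.l_ge
  have hl0 : 0 < D.l := by linarith
  have hR : 8 * D.l ≤ D.R := by linarith
  have hR0 : 0 < D.R := by linarith
  have hg := hS.gam_ge
  have heps := hS.eps_le
  refine ⟨hl, hR0, hR, hwm, ?_, hgt, ?_, ?_, ?_, ?_, Kl_l, ?_, ?_, ?_, ?_, ?_⟩
  · intro x hx hx4
    by_contra hc
    push Not at hc
    have := hs2 x hx hc
    linarith
  · have h1 : D.tau ≤ Real.log 2 := by
      have := Real.log_two_gt_d9
      have := hS.tau_le
      linarith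
    calc Real.exp D.tau ≤ Real.exp (Real.log 2) := Real.exp_le_exp.2 h1
      _ = 2 := Real.exp_log (by norm_num)
  · exact Real.one_le_exp hS.tau_pos.le
  · linarith
  · linarith
  · intro x
    exact Real.sqrt_nonneg _
  · intro x
    exact mul_nonneg (Real.exp_pos _).le (Real.sqrt_nonneg _)
  · intro x
    exact Real.sqrt_nonneg _
  · exact cont_vol hS.modified.metric
  · intro x hx
    refine Real.sqrt_le_sqrt (det_le _ _ fun i j => ?_)
    have h1 := (hS.modified.decay x hx i j).1
    have hC := hS.C_pos
    have h2 : P.C / ‖x‖ ≤ P.C := div_le_self hC.le (by linarith)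
    have h3 : |(1 : Bil) i j| ≤ 1 := by
      rw [Matrix.one_apply]
      split_ifs <;> simp
    have h4 : |D.g' x i j| ≤ |D.g' x i j - (1 : Bil) i j| + |(1 : Bil) i j| := by
      have := abs_add_le (D.g' x i j - (1 : Bil) i j) ((1 : Bil) i j)
      simpa using this
    linarith

theorem measOm (D : DatX) : MeasurableSet D.Om :=
  ((isOpen_lt continuous_const continuous_norm).inter
    (isOpen_lt continuous_norm continuous_const)).measurableSet

theorem intXvol (hABSI : Stmt_XABSI) {P : ParX} {D : DatX} (hS : SetupX P D) (hF : Fa P D) :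
    LvlIntX P D (fun x => D.X P x * D.vol x) := by
  obtain ⟨i1, i2, -, -, -, -, -, -, hm⟩ := hABSI P D hS
  intro s' h3
  have hsub : D.Om ∩ {x | D.w P x ≤ s'} ⊆ D.Om := Set.inter_subset_left
  refine Integrable.mono' ((i1 s' h3).add (i2 s' h3)) ?_ ?_
  · exact (hm.mono_set hsub).mul hF.volc.aestronglyMeasurable
  · refine Eventually.of_forall fun x => ?_
    have hX := hF.X0 x
    have hv := hF.vol0 x
    rw [Real.norm_eq_abs, abs_of_nonneg (mul_nonneg hX hv)]
    show D.X P x * D.vol x ≤ D.vol x + D.X P x ^ 3 * D.vol x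
    have h4 : D.X P x ≤ 1 + D.X P x ^ 3 := by
      by_cases h5 : D.X P x ≤ 1
      · have : 0 ≤ D.X P x ^ 3 := by positivity
        linarith
      · push Not at h5
        have h6 : 1 ≤ D.X P x ^ 2 := by nlinarith
        nlinarith [mul_le_mul_of_nonneg_left h6 hX]
    nlinarith

theorem cann_sub {P : ParX} {D : DatX} (hF : Fa P D) {a b : ℝ} (ha : 1 < a)
    (hb : b ≤ 4 * D.l) : cAnn a b ⊆ D.Om := by
  intro x hx
  have h3 := hF.lR
  have h4 := hF.l_ge
  exact ⟨by linarith [hx.1], by linarith [hx.2]⟩

theorem cann_ae {P : ParX} {D : DatX} (hF : Fa P D) {b : ℝ} (hb : b ≤ 4 * D.l) :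
    (D.Om ∩ cAnn 1 b : Set E3) =ᵐ[volume] (cAnn 1 b : Set E3) := by
  have h1 : (volume : Measure E3) (Metric.sphere (0 : E3) 1) = 0 := Measure.addHaar_sphere _ _ _
  rw [Filter.eventuallyEq_set]
  filter_upwards [measure_eq_zero_iff_ae_notMem.1 h1] with x hx
  constructor
  · exact fun h => h.2
  · intro h
    have h3 := hF.lR
    have h4 := hF.l_ge
    have h5 : ‖x‖ ≠ 1 := fun h6 => hx (by simpa using h6)
    exact ⟨⟨lt_of_le_of_ne h.1 (Ne.symm h5), by linarith [h.2]⟩, h⟩

/-- Integrals over `Om` of functions supported in a smaller set. -/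
theorem int_ind {D : DatX} {A : Set E3} (hA : MeasurableSet A)
    (hsub : (D.Om ∩ A : Set E3) =ᵐ[volume] A) (F : E3 → ℝ) :
    ∫ x in D.Om, A.indicator F x = ∫ x in A, F x := by
  rw [setIntegral_indicator hA, setIntegral_congr_set hsub]

theorem ae_of_sub {D : DatX} {A : Set E3} (h : A ⊆ D.Om) :
    (D.Om ∩ A : Set E3) =ᵐ[volume] A := by
  have e : (D.Om ∩ A : Set E3) = A := Set.inter_eq_right.2 h
  exact Filter.EventuallyEq.of_eq e

theorem ind_int {A B : Set E3} (hA : MeasurableSet A) {F : E3 → ℝ} (h : IntegrableOn F A) :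
    Integrable (A.indicator F) (volume.restrict B) :=
  ((integrable_indicator_iff hA).2 h).restrict

theorem A_sub {P : ParX} {D : DatX} (hF : Fa P D) {b : ℝ} (hb : b ≤ D.l) :
    (D.Om ∩ cAnn 1 b) ⊆ D.Om ∩ {x | D.w P x ≤ D.s2 P} := by
  intro x hx
  have h4 := hF.l_ge
  refine ⟨hx.1, (hF.lt_s2 x hx.1 ?_).le⟩
  linarith [hx.2.2]

theorem int_defect (hABSI : Stmt_XABSI) {P : ParX} {D : DatX} (hS : SetupX P D) (hF : Fa P D) :
    IntegrableOn (fun x => D.ph P x * D.e x * D.vol x) (cAnn 1 D.l) := by
  have h4' := hF.l_ge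
  have h1 := intXvol hABSI hS hF (D.s2 P) hF.s2_sM
  have h2 := h1.mono_set (A_sub hF le_rfl)
  obtain ⟨Me, hMe⟩ := (isCompact_cann 1 D.l).exists_bound_of_continuousOn
    hS.modified.defect_cont.continuousOn
  have he : 0 < 2 - P.eps := by linarith [hS.eps_le]
  have mQ : MeasurableSet (D.Om ∩ cAnn 1 D.l) :=
    (measOm D).inter (isCompact_cann _ _).measurableSet
  have h3 : ∀ x ∈ (D.Om ∩ cAnn 1 D.l), ‖Real.exp (D.w P x / (2 - P.eps)) * D.e x‖
      ≤ Real.exp (D.s2 P / (2 - P.eps)) * Me := by
    intro x hx
    rw [norm_mul, Real.norm_eq_abs, abs_of_pos (Real.exp_pos _)]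
    refine mul_le_mul ?_ (hMe x hx.2) (norm_nonneg _) (Real.exp_pos _).le
    refine Real.exp_le_exp.2 (div_le_div_of_nonneg_right ?_ he.le)
    exact (A_sub hF le_rfl hx).2
  have h4 : IntegrableOn (fun x => (Real.exp (D.w P x / (2 - P.eps)) * D.e x)
      * (D.X P x * D.vol x)) (D.Om ∩ cAnn 1 D.l) := by
    refine Integrable.bdd_mul h2 ?_ ((ae_restrict_iff' mQ).2 (Eventually.of_forall h3))
    exact ((hF.wm.div_const _).exp.mul
      hS.modified.defect_cont.measurable).aestronglyMeasurable
  have h5 : IntegrableOn (fun x => D.ph P x * D.e x * D.vol x) (D.Om ∩ cAnn 1 D.l) := by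
    refine h4.congr (Eventually.of_forall fun x => ?_)
    show _ = D.ph P x * D.e x * D.vol x
    unfold DatX.ph
    ring
  exact h5.congr_set_ae (cann_ae hF (by linarith)).symm

theorem int_col (hABSI : Stmt_XABSI) {P : ParX} {D : DatX} (hS : SetupX P D) (hF : Fa P D) :
    IntegrableOn (fun x => Real.exp (D.w P x / (2 - P.eps)) * |D.Su P x| * D.vol x)
      (cAnn 1 (Real.exp D.tau)) := by
  have h4' := hF.l_ge
  have hx2 := hF.ex2
  obtain ⟨-, -, -, -, i5, -, -, -, -⟩ := hABSI P D hS
  have h1 := i5 (D.s2 P) hF.s2_sM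
  have hsub := A_sub (P := P) hF (b := Real.exp D.tau) (by linarith)
  have h2 := (h1.mono_set hsub).norm
  have he : 0 < 2 - P.eps := by linarith [hS.eps_le]
  have mQ : MeasurableSet (D.Om ∩ cAnn 1 (Real.exp D.tau)) :=
    (measOm D).inter (isCompact_cann _ _).measurableSet
  have h3 : ∀ x ∈ (D.Om ∩ cAnn 1 (Real.exp D.tau)), ‖Real.exp (D.w P x / (2 - P.eps))‖
      ≤ Real.exp (D.s2 P / (2 - P.eps)) := by
    intro x hx
    rw [Real.norm_eq_abs, abs_of_pos (Real.exp_pos _)]
    refine Real.exp_le_exp.2 (div_le_div_of_nonneg_right ?_ he.le)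
    exact (hsub hx).2
  have h4 : IntegrableOn (fun x => Real.exp (D.w P x / (2 - P.eps))
      * ‖D.Su P x * D.vol x‖) (D.Om ∩ cAnn 1 (Real.exp D.tau)) := by
    refine Integrable.bdd_mul h2 ?_ ((ae_restrict_iff' mQ).2 (Eventually.of_forall h3))
    exact (hF.wm.div_const _).exp.aestronglyMeasurable
  have h5 : IntegrableOn (fun x => Real.exp (D.w P x / (2 - P.eps)) * |D.Su P x| * D.vol x)
      (D.Om ∩ cAnn 1 (Real.exp D.tau)) := by
    refine h4.congr (Eventually.of_forall fun x => ?_)
    show Real.exp (D.w P x / (2 - P.eps)) * ‖D.Su P x * D.vol x‖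
      = Real.exp (D.w P x / (2 - P.eps)) * |D.Su P x| * D.vol x
    rw [norm_mul, Real.norm_eq_abs, Real.norm_eq_abs, abs_of_nonneg (hF.vol0 x)]
    ring
  exact h5.congr_set_ae (cann_ae hF (by linarith)).symm

theorem int_msz {P : ParX} {D : DatX} (hS : SetupX P D) (hF : Fa P D)
    (hp : IntegrableOn (D.ph P) (cAnn (D.l / 4) (D.Kl P))) :
    IntegrableOn (fun x => D.ph P x * (msz (D.k x) / D.l + msz (D.k x) ^ 2))
      (cAnn (D.l / 2) D.l) := by
  have h4 := hF.l_ge
  have hKl := hF.Kl_l
  have hsub : cAnn (D.l / 2) D.l ⊆ cAnn (D.l / 4) (D.Kl P) := fun x hx =>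
    ⟨by linarith [hx.1], by linarith [hx.2]⟩
  have h1 := hp.mono_set hsub
  have hc : ContinuousOn (fun x => msz (D.k x)) (cAnn (D.l / 2) D.l) := by
    unfold msz
    refine Real.continuous_sqrt.comp_continuousOn ?_
    refine continuousOn_finsetSum _ fun i _ => continuousOn_finsetSum _ fun j _ => ?_
    obtain ⟨δ, hδ, -, hk⟩ := hS.smooth0
    refine ((hk.smooth i j).continuousOn.pow 2).mono ?_
    intro x hx
    have hx1 := hx.1
    show 1 - δ < ‖x‖
    linarith
  have hc2 : ContinuousOn (fun x => msz (D.k x) / D.l + msz (D.k x) ^ 2)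
      (cAnn (D.l / 2) D.l) := (hc.div_const _).add (hc.pow 2)
  obtain ⟨Mh, hMh⟩ := (isCompact_cann (D.l / 2) D.l).exists_bound_of_continuousOn hc2
  have h5 : IntegrableOn (fun x => (msz (D.k x) / D.l + msz (D.k x) ^ 2) * D.ph P x)
      (cAnn (D.l / 2) D.l) := by
    refine Integrable.bdd_mul h1 ?_ ((ae_restrict_iff'
      (isCompact_cann _ _).measurableSet).2 (Eventually.of_forall hMh))
    exact hc2.aestronglyMeasurable (isCompact_cann _ _).measurableSet
  refine h5.congr (Eventually.of_forall fun x => ?_)
  show _ = D.ph P x * (msz (D.k x) / D.l + msz (D.k x) ^ 2)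
  ring

theorem int_linR {P : ParX} {D : DatX} (hS : SetupX P D) (hF : Fa P D)
    (hp : IntegrableOn (D.ph P) (cAnn (D.l / 4) (D.Kl P))) :
    IntegrableOn (fun x => D.ph P x * linR D.g' x) (cAnn D.l (2 * D.l)) := by
  have h4 := hF.l_ge
  have hKl := hF.Kl_l
  have hsub : cAnn D.l (2 * D.l) ⊆ cAnn (D.l / 4) (D.Kl P) := fun x hx =>
    ⟨by linarith [hx.1], by linarith [hx.2]⟩
  have hc := cont_linR hS.modified.metric
  obtain ⟨Mh, hMh⟩ := (isCompact_cann D.l (2 * D.l)).exists_bound_of_continuousOn
    hc.continuousOn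
  have h5 : IntegrableOn (fun x => linR D.g' x * D.ph P x) (cAnn D.l (2 * D.l)) := by
    refine Integrable.bdd_mul (hp.mono_set hsub) hc.aestronglyMeasurable ((ae_restrict_iff'
      (isCompact_cann _ _).measurableSet).2 (Eventually.of_forall hMh))
  refine h5.congr (Eventually.of_forall fun x => ?_)
  show _ = D.ph P x * linR D.g' x
  ring

end XMATLM

open XMATLM in
/-- Module XMATL. -/
theorem XMATL (hXSETW : Stmt_XSETW) (hXABSI : Stmt_XABSI) (hBETA : Stmt_BETA)
    (hXUPH : Stmt_XUPH) : Stmt_XMATL := by
  intro P B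
  obtain ⟨β, hβ⟩ := hBETA
  obtain ⟨B₂, hB₂, hU⟩ := hXUPH P B β hβ
  set V : ℝ := Real.sqrt (6 * (1 + P.C) ^ 3) with hV
  have hV0 : 0 ≤ V := Real.sqrt_nonneg _
  set B' : ℝ := |P.C| * (V + 1) * (1 + 12 * |P.C| + 144 * P.C ^ 2) + 1 with hB'
  have hB'0 : 0 < B' := by positivity
  refine ⟨B', hB'0, ?_⟩
  intro D hS hAbs
  have hF := fa hXSETW P D hS
  obtain ⟨-, iph, -⟩ := hU D hS hAbs
  have hC := hS.C_pos
  have hCabs : |P.C| = P.C := abs_of_pos hC
  have hl4 := hF.l_ge
  have hl0 : 0 < D.l := by linarith
  have he : 0 < 2 - P.eps := by linarith [hS.eps_le]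
  have hB1 : P.C * V ≤ B' := by
    rw [hB', hCabs]
    have h1 : P.C * V ≤ P.C * (V + 1) := by nlinarith
    have h2 : P.C * (V + 1) * 1 ≤ P.C * (V + 1) * (1 + 12 * P.C + 144 * P.C ^ 2) := by
      refine mul_le_mul_of_nonneg_left ?_ (by positivity)
      nlinarith [sq_nonneg P.C]
    linarith
  have hB2 : P.C ≤ B' := by
    rw [hB', hCabs]
    have h1 : P.C ≤ P.C * (V + 1) := by nlinarith
    have h2 : P.C * (V + 1) * 1 ≤ P.C * (V + 1) * (1 + 12 * P.C + 144 * P.C ^ 2) := by
      refine mul_le_mul_of_nonneg_left ?_ (by positivity)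
      nlinarith [sq_nonneg P.C]
    linarith
  have hB3 : P.C * V * (12 * P.C + 144 * P.C ^ 2) ≤ B' := by
    rw [hB', hCabs]
    have h1 : P.C * V * (12 * P.C + 144 * P.C ^ 2)
        ≤ P.C * (V + 1) * (1 + 12 * P.C + 144 * P.C ^ 2) := by
      have h2 : P.C * V ≤ P.C * (V + 1) := by nlinarith
      have h3 : 12 * P.C + 144 * P.C ^ 2 ≤ 1 + 12 * P.C + 144 * P.C ^ 2 := by linarith
      exact mul_le_mul h2 h3 (by positivity) (by positivity)
    linarith
  -- the sets
  have hx2 := hF.ex2
  have hx1 := hF.ex1
  set A := cAnn 1 D.l with hA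
  set Z := cAnn 1 (Real.exp D.tau) with hZ
  set S := cAnn (D.l / 2) D.l with hSdef
  set T := cAnn D.l (2 * D.l) with hT
  set cf : E3 → ℝ := fun x => Real.exp (D.w P x / (2 - P.eps)) * |D.Su P x| * D.vol x with hcf
  have cf0 : ∀ x, 0 ≤ cf x := fun x =>
    mul_nonneg (mul_nonneg (Real.exp_pos _).le (abs_nonneg _)) (hF.vol0 x)
  have mA : MeasurableSet A := (isCompact_cann _ _).measurableSet
  have mZ : MeasurableSet Z := (isCompact_cann _ _).measurableSet
  have mS : MeasurableSet S := (isCompact_cann _ _).measurableSet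
  have mT : MeasurableSet T := (isCompact_cann _ _).measurableSet
  have sA : (D.Om ∩ A : Set E3) =ᵐ[volume] A := cann_ae hF (by linarith)
  have sZ : (D.Om ∩ Z : Set E3) =ᵐ[volume] Z := cann_ae hF (by linarith)
  have sS : (D.Om ∩ S : Set E3) =ᵐ[volume] S :=
    ae_of_sub (cann_sub hF (by linarith) (by linarith))
  have sT : (D.Om ∩ T : Set E3) =ᵐ[volume] T :=
    ae_of_sub (cann_sub hF (by linarith) (by linarith))
  have iA := int_defect hXABSI hS hF
  have iZ : IntegrableOn cf Z := int_col hXABSI hS hF
  have iS := int_msz hS hF iph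
  have iT := int_linR hS hF iph
  have hKl := hF.Kl_l
  have iP : IntegrableOn (D.ph P) T := iph.mono_set fun x hx =>
    ⟨by linarith [hx.1], by linarith [hx.2]⟩
  have hM := hS.modified
  have hSu : ∀ x, ¬ ‖x‖ ≤ Real.exp D.tau → D.Su P x = D.X P x * surplus D.g' D.h' x :=
    fun x hx => if_neg hx
  constructor
  · -- the lower bound
    intro χ se χc χ01 χmid hse χhi
    set f : E3 → ℝ := fun x =>
      χ (D.w P x) * Real.exp (D.w P x / (2 - P.eps)) * D.Su P x * D.vol x with hf
    have hfe : ∀ x, ¬ ‖x‖ ≤ Real.exp D.tau →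
        f x = χ (D.w P x) * (D.ph P x * (surplus D.g' D.h' x * D.vol x)) := by
      intro x hx
      simp only [hf, DatX.ph, hSu x hx]
      ring
    -- integrability
    have fint : IntegrableOn f D.Om := by
      obtain ⟨-, -, -, -, i5, -, -, -, -⟩ := hXABSI P D hS
      have h1 := i5 (se + 1) hse
      set Q := D.Om ∩ {x | D.w P x ≤ se + 1} with hQ
      have mQ : MeasurableSet Q := (measOm D).inter (measurableSet_le hF.wm measurable_const)
      have h2 : IntegrableOn (fun x => (χ (D.w P x) * Real.exp (D.w P x / (2 - P.eps)))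
          * (D.Su P x * D.vol x)) Q := by
        refine Integrable.bdd_mul (c := Real.exp ((se + 1) / (2 - P.eps))) h1 ?_
          ((ae_restrict_iff' mQ).2 (Eventually.of_forall fun x hx => ?_))
        · exact ((χc.measurable.comp hF.wm).mul
            (hF.wm.div_const _).exp).aestronglyMeasurable
        · rw [norm_mul, Real.norm_eq_abs, Real.norm_eq_abs, abs_of_pos (Real.exp_pos _),
            abs_of_nonneg (χ01 _).1]
          calc χ (D.w P x) * Real.exp (D.w P x / (2 - P.eps))
              ≤ 1 * Real.exp ((se + 1) / (2 - P.eps)) := by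
                refine mul_le_mul (χ01 _).2 ?_ (Real.exp_pos _).le zero_le_one
                exact Real.exp_le_exp.2 (div_le_div_of_nonneg_right hx.2 he.le)
            _ = _ := one_mul _
      have h3 : IntegrableOn f Q := by
        refine h2.congr (Eventually.of_forall fun x => ?_)
        simp only [hf]
        ring
      refine h3.of_forall_sdiff_eq_zero (measOm D) fun x hx => ?_
      have h4 : χ (D.w P x) = 0 := by
        by_cases h6 : se + 1 ≤ D.w P x
        · exact χhi _ h6
        · exfalso
          push Not at h6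
          exact hx.2 ⟨hx.1, h6.le⟩
      simp only [hf, h4, zero_mul]
    -- pointwise
    have hpt : ∀ᵐ x ∂(volume.restrict D.Om),
        -(A.indicator (fun x => D.ph P x * D.e x * D.vol x) x)
          - Z.indicator cf x
          - B' * (S.indicator (fun x => D.ph P x * (msz (D.k x) / D.l + msz (D.k x) ^ 2)) x)
          + 1 / 2 * (T.indicator (fun x => D.ph P x * linR D.g' x) x)
          - B' / D.l ^ 4 * (T.indicator (D.ph P) x) ≤ f x := by
      rw [ae_restrict_iff' (measOm D)]
      filter_upwards [ae_spheres D.l] with x hx hxO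
      obtain ⟨n1, n2, n3⟩ := hx
      have hph := hF.ph0 x
      have hv := hF.vol0 x
      have he0 := hM.defect_nonneg x
      have hA0 : 0 ≤ A.indicator (fun x => D.ph P x * D.e x * D.vol x) x := by
        refine Set.indicator_nonneg (fun y _ => ?_) x
        have h1 := hF.ph0 y
        have h2 := hF.vol0 y
        have h3 := hM.defect_nonneg y
        positivity
      have hZ0 : 0 ≤ Z.indicator cf x := Set.indicator_nonneg (fun y _ => cf0 y) x
      have hS0 : 0 ≤ S.indicator
          (fun x => D.ph P x * (msz (D.k x) / D.l + msz (D.k x) ^ 2)) x := by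
        refine Set.indicator_nonneg (fun y _ => ?_) x
        have h1 := hF.ph0 y
        have h2 := msz_nonneg (D.k y)
        positivity
      have hS1 : 0 ≤ B' * (S.indicator
          (fun x => D.ph P x * (msz (D.k x) / D.l + msz (D.k x) ^ 2)) x) :=
        mul_nonneg hB'0.le hS0
      have hT0 : 0 ≤ T.indicator (D.ph P) x := Set.indicator_nonneg (fun y _ => hF.ph0 y) x
      have hx0 : 1 < ‖x‖ := hxO.1
      by_cases hT1 : x ∈ T
      · -- transition region
        have h1 : D.l < ‖x‖ := lt_of_le_of_ne hT1.1 (Ne.symm n2)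
        have h2 : ‖x‖ < 2 * D.l := lt_of_le_of_ne hT1.2 n3
        have hnc : ¬ ‖x‖ ≤ Real.exp D.tau := by
          intro h
          linarith
        have h3 : χ (D.w P x) = 1 :=
          χmid _ (hF.gt x hxO).le (hF.lt_s2 x hxO (by linarith)).le
        have h4 := (abs_le.1 (hM.trans x h1 h2)).1
        rw [hfe x hnc, h3, one_mul]
        have h6 : D.ph P x * (linR D.g' x / 2 - P.C / D.l ^ 4)
            ≤ D.ph P x * (surplus D.g' D.h' x * D.vol x) := by
          refine mul_le_mul_of_nonneg_left ?_ hph
          have : D.vol x = volDen D.g' x := rfl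
          rw [this]
          linarith
        have h7 : P.C / D.l ^ 4 * D.ph P x ≤ B' / D.l ^ 4 * D.ph P x :=
          mul_le_mul_of_nonneg_right (div_le_div_of_nonneg_right hB2 (by positivity)) hph
        rw [Set.indicator_of_mem hT1, Set.indicator_of_mem hT1]
        linarith
      · rw [Set.indicator_of_notMem hT1, Set.indicator_of_notMem hT1]
        by_cases hx2' : 2 * D.l < ‖x‖
        · -- flat region
          have hnc : ¬ ‖x‖ ≤ Real.exp D.tau := by
            intro h
            linarith
          rw [hfe x hnc, hM.flat_surplus x hx2']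
          linarith
        · have hxl : ‖x‖ < D.l := by
            by_contra hc
            push Not at hc hx2'
            exact hT1 ⟨hc, hx2'⟩
          have hxA : x ∈ A := ⟨hx0.le, hxl.le⟩
          obtain ⟨c0, c1⟩ := χ01 (D.w P x)
          by_cases hcol : ‖x‖ ≤ Real.exp D.tau
          · -- collar
            have hxZ : x ∈ Z := ⟨hx0.le, hcol⟩
            rw [Set.indicator_of_mem hxZ]
            have h1 : -(cf x) ≤ f x := by
              have h2 : f x = χ (D.w P x) *
                  (Real.exp (D.w P x / (2 - P.eps)) * D.Su P x * D.vol x) := by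
                simp only [hf]
                ring
              have h3 : |Real.exp (D.w P x / (2 - P.eps)) * D.Su P x * D.vol x| = cf x := by
                rw [abs_mul, abs_mul, abs_of_pos (Real.exp_pos _), abs_of_nonneg hv]
              have h4 := neg_abs_le (Real.exp (D.w P x / (2 - P.eps)) * D.Su P x * D.vol x)
              rw [h3] at h4
              have h5 := cf0 x
              rw [h2]
              nlinarith
            linarith
          · rw [hfe x hcol]
            push Not at hcol
            rw [Set.indicator_of_mem hxA]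
            by_cases hh : ‖x‖ < D.l / 2
            · have h1 := hM.core x hcol hh
              have h3 : -(D.ph P x * (D.e x * D.vol x))
                  ≤ D.ph P x * (surplus D.g' D.h' x * D.vol x) := by
                rw [← mul_neg]
                refine mul_le_mul_of_nonneg_left ?_ hph
                rw [← neg_mul]
                exact mul_le_mul_of_nonneg_right h1 hv
              have h4 : 0 ≤ D.ph P x * (D.e x * D.vol x) := by positivity
              have h5 : -(D.ph P x * (D.e x * D.vol x))
                  ≤ χ (D.w P x) * (D.ph P x * (surplus D.g' D.h' x * D.vol x)) := by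
                nlinarith
              have h6 : D.ph P x * D.e x * D.vol x = D.ph P x * (D.e x * D.vol x) := by ring
              rw [h6]
              linarith
            · have hh' : D.l / 2 < ‖x‖ := by
                push Not at hh
                exact lt_of_le_of_ne hh (Ne.symm n1)
              have h1 := hM.shell x hh' hxl
              have h2 : x ∈ S := ⟨hh'.le, hxl.le⟩
              rw [Set.indicator_of_mem h2] at hS1 ⊢
              have hvle := hF.volle x (by linarith)
              have hm0 := msz_nonneg (D.k x)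
              set q : ℝ := msz (D.k x) / D.l + msz (D.k x) ^ 2 with hq
              have hq0 : 0 ≤ q := by positivity
              have h3 : -(D.ph P x * ((D.e x + P.C * q) * D.vol x))
                  ≤ D.ph P x * (surplus D.g' D.h' x * D.vol x) := by
                rw [← mul_neg]
                refine mul_le_mul_of_nonneg_left ?_ hph
                rw [← neg_mul]
                refine mul_le_mul_of_nonneg_right ?_ hv
                linarith
              have h4 : 0 ≤ D.ph P x * ((D.e x + P.C * q) * D.vol x) := by positivity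
              have h5 : -(D.ph P x * ((D.e x + P.C * q) * D.vol x))
                  ≤ χ (D.w P x) * (D.ph P x * (surplus D.g' D.h' x * D.vol x)) := by
                nlinarith
              have h6 : D.ph P x * ((D.e x + P.C * q) * D.vol x)
                  = D.ph P x * D.e x * D.vol x + (P.C * D.vol x) * (D.ph P x * q) := by ring
              have h7 : (P.C * D.vol x) * (D.ph P x * q) ≤ B' * (D.ph P x * q) := by
                refine mul_le_mul_of_nonneg_right ?_ (by positivity)
                calc P.C * D.vol x ≤ P.C * V := mul_le_mul_of_nonneg_left hvle hC.le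
                  _ ≤ B' := hB1
              linarith
    have jA : Integrable (fun x => -(A.indicator (fun x => D.ph P x * D.e x * D.vol x) x))
        (volume.restrict D.Om) := (ind_int (B := D.Om) mA iA).neg
    have jZ : Integrable (fun x => Z.indicator cf x) (volume.restrict D.Om) :=
      ind_int (B := D.Om) mZ iZ
    have jS := (ind_int (B := D.Om) mS iS).const_mul B'
    have jT := (ind_int (B := D.Om) mT iT).const_mul (1 / 2)
    have jP := (ind_int (B := D.Om) mT iP).const_mul (B' / D.l ^ 4)
    have k0 : Integrable (fun x => -(A.indicator (fun x => D.ph P x * D.e x * D.vol x) x)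
        - Z.indicator cf x) (volume.restrict D.Om) := jA.sub jZ
    have k1 : Integrable (fun x => -(A.indicator (fun x => D.ph P x * D.e x * D.vol x) x)
        - Z.indicator cf x
        - B' * (S.indicator (fun x => D.ph P x * (msz (D.k x) / D.l + msz (D.k x) ^ 2)) x))
        (volume.restrict D.Om) := k0.sub jS
    have k2 : Integrable (fun x => -(A.indicator (fun x => D.ph P x * D.e x * D.vol x) x)
        - Z.indicator cf x
        - B' * (S.indicator (fun x => D.ph P x * (msz (D.k x) / D.l + msz (D.k x) ^ 2)) x)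
        + 1 / 2 * (T.indicator (fun x => D.ph P x * linR D.g' x) x))
        (volume.restrict D.Om) := k1.add jT
    have h1 := integral_mono_ae (k2.sub jP) fint hpt
    have h2 : ∫ x in D.Om, (-(A.indicator (fun x => D.ph P x * D.e x * D.vol x) x)
          - Z.indicator cf x
          - B' * (S.indicator (fun x => D.ph P x * (msz (D.k x) / D.l + msz (D.k x) ^ 2)) x)
          + 1 / 2 * (T.indicator (fun x => D.ph P x * linR D.g' x) x)
          - B' / D.l ^ 4 * (T.indicator (D.ph P) x))
        = -(∫ x in A, D.ph P x * D.e x * D.vol x)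
          - (∫ x in Z, cf x)
          - B' * (∫ x in S, D.ph P x * (msz (D.k x) / D.l + msz (D.k x) ^ 2))
          + 1 / 2 * (∫ x in T, D.ph P x * linR D.g' x)
          - B' / D.l ^ 4 * ∫ x in T, D.ph P x := by
      rw [integral_sub k2 jP, integral_add k1 jT, integral_sub k0 jS, integral_sub jA jZ]
      rw [integral_neg, integral_const_mul, integral_const_mul, integral_const_mul,
        int_ind mA sA, int_ind mZ sZ, int_ind mS sS, int_ind mT sT, int_ind mT sT]
    have h3 : D.Nd P = ∫ x in A, D.ph P x * D.e x * D.vol x := rfl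
    have h4 : D.Cl P = ∫ x in Z, cf x := rfl
    rw [h3, h4, ← h2]
    exact h1
  · -- the upper bound
    intro t ht
    set W := cAnn (D.l / 2) (2 * D.l) with hW
    have mW : MeasurableSet W := (isCompact_cann _ _).measurableSet
    have iW : IntegrableOn (D.ph P) W := iph.mono_set fun x hx =>
      ⟨by linarith [hx.1], by linarith [hx.2]⟩
    set Q := D.Om ∩ {x | P.eps / 8 < D.w P x ∧ D.w P x < t} with hQ
    have mQ : MeasurableSet Q := (measOm D).inter
      ((measurableSet_lt measurable_const hF.wm).inter (measurableSet_lt hF.wm measurable_const))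
    have jA := (integrable_indicator_iff mA).2 iA
    have jZ := (integrable_indicator_iff mZ).2 iZ
    have jW := ((integrable_indicator_iff mW).2 iW).const_mul (B' / D.l ^ 3)
    have hpt : ∀ᵐ x ∂(volume.restrict Q),
        Real.exp (D.w P x / (2 - P.eps)) * max (-D.Su P x) 0 * D.vol x
          ≤ A.indicator (fun x => D.ph P x * D.e x * D.vol x) x
            + Z.indicator cf x
            + B' / D.l ^ 3 * (W.indicator (D.ph P) x) := by
      rw [ae_restrict_iff' mQ]
      filter_upwards [ae_spheres D.l] with x hx hxQ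
      obtain ⟨n1, n2, n3⟩ := hx
      obtain ⟨hxO, hw, -⟩ := hxQ
      have hph := hF.ph0 x
      have hv := hF.vol0 x
      have hX := hF.X0 x
      have he0 := hM.defect_nonneg x
      have hx0 : 1 < ‖x‖ := hxO.1
      have hA0 : 0 ≤ A.indicator (fun x => D.ph P x * D.e x * D.vol x) x := by
        refine Set.indicator_nonneg (fun y _ => ?_) x
        have h1 := hF.ph0 y
        have h2 := hF.vol0 y
        have h3 := hM.defect_nonneg y
        positivity
      have hZ0 : 0 ≤ Z.indicator cf x := Set.indicator_nonneg (fun y _ => cf0 y) x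
      have hW0 : 0 ≤ B' / D.l ^ 3 * (W.indicator (D.ph P) x) :=
        mul_nonneg (by positivity) (Set.indicator_nonneg (fun y _ => hF.ph0 y) x)
      by_cases hcol : ‖x‖ ≤ Real.exp D.tau
      · have hxZ : x ∈ Z := ⟨hx0.le, hcol⟩
        rw [Set.indicator_of_mem hxZ]
        have h1 : max (-D.Su P x) 0 ≤ |D.Su P x| := max_le (neg_le_abs _) (abs_nonneg _)
        have h2 : Real.exp (D.w P x / (2 - P.eps)) * max (-D.Su P x) 0 * D.vol x ≤ cf x :=
          mul_le_mul_of_nonneg_right (mul_le_mul_of_nonneg_left h1 (Real.exp_pos _).le) hv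
        linarith
      · have key : Real.exp (D.w P x / (2 - P.eps)) * max (-D.Su P x) 0 * D.vol x
            = D.ph P x * (max (-surplus D.g' D.h' x) 0 * D.vol x) := by
          have h1 : max (-D.Su P x) 0 = D.X P x * max (-surplus D.g' D.h' x) 0 := by
            rw [mul_max_of_nonneg _ _ hX, mul_zero, hSu x hcol, mul_neg]
          rw [h1]
          unfold DatX.ph
          ring
        rw [key]
        push Not at hcol
        by_cases hx2' : 2 * D.l < ‖x‖
        · rw [hM.flat_surplus x hx2']
          simp only [neg_zero, max_self, zero_mul, mul_zero]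
          linarith
        · push Not at hx2'
          by_cases hxl : ‖x‖ < D.l
          · have hxA : x ∈ A := ⟨hx0.le, hxl.le⟩
            rw [Set.indicator_of_mem hxA]
            by_cases hh : ‖x‖ < D.l / 2
            · have h1 := hM.core x hcol hh
              have h2 : max (-surplus D.g' D.h' x) 0 ≤ D.e x := max_le (by linarith) he0
              have h3 : D.ph P x * (max (-surplus D.g' D.h' x) 0 * D.vol x)
                  ≤ D.ph P x * (D.e x * D.vol x) :=
                mul_le_mul_of_nonneg_left (mul_le_mul_of_nonneg_right h2 hv) hph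
              have h4 : D.ph P x * (D.e x * D.vol x) = D.ph P x * D.e x * D.vol x := by ring
              linarith
            · have hh' : D.l / 2 < ‖x‖ := by
                push Not at hh
                exact lt_of_le_of_ne hh (Ne.symm n1)
              have h1 := hM.shell x hh' hxl
              have h2 : x ∈ W := ⟨hh'.le, hx2'⟩
              rw [Set.indicator_of_mem h2]
              have hvle := hF.volle x (by linarith)
              have hm0 := msz_nonneg (D.k x)
              have hm : msz (D.k x) ≤ 12 * P.C / D.l ^ 2 := by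
                have hx0 : 0 < ‖x‖ := by linarith
                have h3 : ∀ i j, |D.k x i j| ≤ 4 * P.C / D.l ^ 2 := by
                  intro i j
                  refine (hS.hdecay x (by linarith) i j).trans ?_
                  rw [div_le_div_iff₀ (by positivity) (by positivity)]
                  have h4 : D.l ^ 2 ≤ 4 * ‖x‖ ^ 2 := by nlinarith
                  nlinarith
                refine (msz_le _ _ h3).trans (le_of_eq ?_)
                ring
              have hq : msz (D.k x) / D.l + msz (D.k x) ^ 2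
                  ≤ (12 * P.C + 144 * P.C ^ 2) / D.l ^ 3 := by
                have h3 : msz (D.k x) / D.l ≤ 12 * P.C / D.l ^ 3 := by
                  calc msz (D.k x) / D.l ≤ 12 * P.C / D.l ^ 2 / D.l :=
                        div_le_div_of_nonneg_right hm hl0.le
                    _ = 12 * P.C / D.l ^ 3 := by rw [div_div]; congr 1
                have h4 : msz (D.k x) ^ 2 ≤ 144 * P.C ^ 2 / D.l ^ 3 := by
                  calc msz (D.k x) ^ 2 ≤ (12 * P.C / D.l ^ 2) ^ 2 := by gcongr
                    _ = 144 * P.C ^ 2 / D.l ^ 4 := by rw [div_pow]; ring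
                    _ ≤ 144 * P.C ^ 2 / D.l ^ 3 := by
                        refine div_le_div_of_nonneg_left (by positivity) (by positivity) ?_
                        exact pow_le_pow_right₀ (by linarith) (by norm_num)
                calc _ ≤ 12 * P.C / D.l ^ 3 + 144 * P.C ^ 2 / D.l ^ 3 := add_le_add h3 h4
                  _ = _ := by rw [add_div]
              have h5 : max (-surplus D.g' D.h' x) 0
                  ≤ D.e x + P.C * ((12 * P.C + 144 * P.C ^ 2) / D.l ^ 3) := by
                refine max_le ?_ (by positivity)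
                have h6 := mul_le_mul_of_nonneg_left hq hC.le
                linarith
              have h6 : max (-surplus D.g' D.h' x) 0 * D.vol x
                  ≤ D.e x * D.vol x + B' / D.l ^ 3 := by
                calc max (-surplus D.g' D.h' x) 0 * D.vol x
                    ≤ (D.e x + P.C * ((12 * P.C + 144 * P.C ^ 2) / D.l ^ 3)) * D.vol x :=
                      mul_le_mul_of_nonneg_right h5 hv
                  _ = D.e x * D.vol x
                      + D.vol x * (P.C * ((12 * P.C + 144 * P.C ^ 2) / D.l ^ 3)) := by ring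
                  _ ≤ D.e x * D.vol x
                      + V * (P.C * ((12 * P.C + 144 * P.C ^ 2) / D.l ^ 3)) := by
                      have := mul_le_mul_of_nonneg_right hvle
                        (show 0 ≤ P.C * ((12 * P.C + 144 * P.C ^ 2) / D.l ^ 3) by positivity)
                      linarith
                  _ = D.e x * D.vol x
                      + P.C * V * (12 * P.C + 144 * P.C ^ 2) / D.l ^ 3 := by ring
                  _ ≤ D.e x * D.vol x + B' / D.l ^ 3 := by
                      have := div_le_div_of_nonneg_right hB3 (show 0 ≤ D.l ^ 3 by positivity)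
                      linarith
              have h7 := mul_le_mul_of_nonneg_left h6 hph
              calc _ ≤ D.ph P x * (D.e x * D.vol x + B' / D.l ^ 3) := h7
                _ = D.ph P x * D.e x * D.vol x + B' / D.l ^ 3 * D.ph P x := by ring
                _ ≤ _ := by linarith
          · -- transition region
            have hT2 : D.l < ‖x‖ := by
              push Not at hxl
              exact lt_of_le_of_ne hxl (Ne.symm n2)
            have hT3 : ‖x‖ < 2 * D.l := lt_of_le_of_ne hx2' n3
            have h2 : x ∈ W := ⟨by linarith, hx2'⟩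
            rw [Set.indicator_of_mem h2]
            have h3 := (abs_le.1 (hM.trans x hT2 hT3)).1
            have h4 := (abs_le.1 (hM.trans_sup x hT2 hT3)).1
            have h5 : P.C / D.l ^ 4 ≤ P.C / D.l ^ 3 / 2 := by
              rw [div_div, div_le_div_iff₀ (by positivity) (by positivity)]
              have h6 : D.l ^ 3 * 2 ≤ D.l ^ 4 := by nlinarith [pow_pos hl0 3]
              nlinarith
            have h6 : max (-surplus D.g' D.h' x) 0 * D.vol x ≤ P.C / D.l ^ 3 := by
              rw [max_mul_of_nonneg _ _ hv, zero_mul]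
              refine max_le ?_ (by positivity)
              have : D.vol x = volDen D.g' x := rfl
              rw [this]
              linarith
            have h7 : P.C / D.l ^ 3 ≤ B' / D.l ^ 3 :=
              div_le_div_of_nonneg_right hB2 (by positivity)
            have h8 := mul_le_mul_of_nonneg_left (h6.trans h7) hph
            calc _ ≤ D.ph P x * (B' / D.l ^ 3) := h8
              _ = B' / D.l ^ 3 * D.ph P x := by ring
              _ ≤ _ := by linarith
    have hG0 : 0 ≤ fun x => A.indicator (fun x => D.ph P x * D.e x * D.vol x) x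
        + Z.indicator cf x
        + B' / D.l ^ 3 * (W.indicator (D.ph P) x) := by
      intro x
      refine add_nonneg (add_nonneg (Set.indicator_nonneg (fun y _ => ?_) x)
        (Set.indicator_nonneg (fun y _ => cf0 y) x))
        (mul_nonneg (by positivity) (Set.indicator_nonneg (fun y _ => hF.ph0 y) x))
      have h1 := hF.ph0 y
      have h2 := hF.vol0 y
      have h3 := hM.defect_nonneg y
      positivity
    have hnn : 0 ≤ᵐ[volume.restrict Q] fun x =>
        Real.exp (D.w P x / (2 - P.eps)) * max (-D.Su P x) 0 * D.vol x := by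
      refine Eventually.of_forall fun x => ?_
      have h1 := hF.vol0 x
      have h2 : 0 ≤ max (-D.Su P x) 0 := le_max_right _ _
      show 0 ≤ Real.exp (D.w P x / (2 - P.eps)) * max (-D.Su P x) 0 * D.vol x
      positivity
    have jAZ : Integrable (fun x => A.indicator (fun x => D.ph P x * D.e x * D.vol x) x
        + Z.indicator cf x) := jA.add jZ
    have jAll : Integrable (fun x => A.indicator (fun x => D.ph P x * D.e x * D.vol x) x
        + Z.indicator cf x + B' / D.l ^ 3 * (W.indicator (D.ph P) x)) := jAZ.add jW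
    calc ∫ x in Q, Real.exp (D.w P x / (2 - P.eps)) * max (-D.Su P x) 0 * D.vol x
        ≤ ∫ x in Q, (A.indicator (fun x => D.ph P x * D.e x * D.vol x) x
            + Z.indicator cf x
            + B' / D.l ^ 3 * (W.indicator (D.ph P) x)) :=
          integral_mono_of_nonneg hnn jAll.restrict hpt
      _ ≤ ∫ x, (A.indicator (fun x => D.ph P x * D.e x * D.vol x) x
            + Z.indicator cf x
            + B' / D.l ^ 3 * (W.indicator (D.ph P) x)) :=
          setIntegral_le_integral jAll (Eventually.of_forall hG0)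
      _ = D.Nd P + D.Cl P + B' / D.l ^ 3 * ∫ x in W, D.ph P x := by
          rw [integral_add jAZ jW, integral_add jA jZ, integral_const_mul, integral_indicator mA,
            integral_indicator mZ, integral_indicator mW]
          rfl

end Pool.Agent.PFlow


end

section

/-!
# (XPER) Exterior regions: the infimum of the areas is at most the mean area of the level sets
-/

open MeasureTheory Filter Topology
open scoped ContDiff ENNReal

namespace Pool.Agent.PFlow

open Pool.Agent.PenroseSph

open PERm in
theorem XPER (hXPERA : Stmt_XPERA) : Stmt_XPER := by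
  intro g w G M α ρ r β s₀ s₁ hg hα hαρ hρr hrβ hs hw hin hout A hA
  have hρ1 : 1 < ρ := hα.trans_lt hαρ
  have hρ : 0 < ρ := one_pos.trans hρ1
  set K := cAnn ρ r with hK
  have hKc : IsCompact K := isCompact_cAnn ρ r
  have hKm : MeasurableSet K := hKc.isClosed.measurableSet
  have hKA : K ⊆ Ann α β := fun x hx => ⟨hαρ.trans_le hx.1, hx.2.trans_lt hrβ⟩
  have hK0 : K ⊆ {x : E3 | 1 < ‖x‖} := fun x hx => hρ1.trans_le hx.1
  have : IsFiniteMeasure (volume.restrict K) := ⟨by
    rw [Measure.restrict_apply_univ]
    exact hKc.measure_lt_top⟩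
  have hci : ∀ i j, ContinuousOn (fun x => (g x)⁻¹ i j) K := fun i j =>
    (MCT.smooth_inv hg i j).continuousOn.mono hK0
  have hcv : ContinuousOn (volDen g) K := by
    unfold volDen
    exact ((MCT.smooth_det hg.smooth).continuousOn.mono hK0).sqrt
  obtain ⟨c1, h1, b1⟩ := MCT.exists_bd hKc (fun (ij : Fin 3 × Fin 3) x => (g x)⁻¹ ij.1 ij.2)
    (fun ij => hci ij.1 ij.2)
  obtain ⟨c2, h2, b2⟩ := MCT.exists_bd hKc (fun (_ : Unit) x => volDen g x) (fun _ => hcv)
  have hG2 := hw.memG K hKc hKA
  have hGi : ∀ i, Integrable (fun x => G x i) (volume.restrict K) := fun i =>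
    (hG2 i).integrable one_le_two
  set c : ℝ := Real.sqrt (3 * c1) with hc
  have hc0 : 0 ≤ c := Real.sqrt_nonneg _
  have hlen : ∀ x ∈ K, ∀ p : Cov, len g x p * volDen g x ≤ c * c2 * ∑ i, |p i| := by
    intro x hx p
    have e1 := len_le (g := g) (x := x) (by linarith : (0 : ℝ) ≤ c1) (fun i j => b1 x hx (i, j)) p
    have e2 := b2 x hx ()
    have e3 : 0 ≤ volDen g x := Real.sqrt_nonneg _
    rw [abs_of_nonneg e3] at e2
    have e4 : 0 ≤ ∑ i, |p i| := Finset.sum_nonneg fun _ _ => abs_nonneg _
    calc len g x p * volDen g x ≤ (c * ∑ i, |p i|) * c2 :=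
          mul_le_mul e1 e2 e3 (by positivity)
      _ = _ := by ring
  -- the integrand is integrable
  have hI : Integrable (fun x => len g x (G x) * volDen g x) (volume.restrict K) := by
    refine Integrable.mono' (g := fun x => c * c2 * ∑ i, |G x i|) ?_
      (len_aesm hKc hci hcv fun i => (hGi i).aestronglyMeasurable) ?_
    · refine Integrable.const_mul ?_ _
      exact integrable_finsetSum _ fun i _ => (hGi i).abs
    · refine (ae_restrict_iff' hKm).mpr (ae_of_all _ fun x hx => ?_)
      rw [Real.norm_of_nonneg (mul_nonneg (len_nonneg g x (G x)) (volDen_nonneg g x))]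
      exact hlen x hx _
  set S : Set E3 := K ∩ {x | s₀ ≤ w x ∧ w x ≤ s₁} with hS
  have hSm : MeasurableSet S := by
    have : S = K ∩ w ⁻¹' Set.Icc s₀ s₁ := rfl
    rw [this]
    exact ((hw.cont.mono hKA).preimage_isClosed_of_isClosed hKc.isClosed isClosed_Icc).measurableSet
  -- the key inequality
  have key : ∀ e : ℝ, 0 < e → e < (s₁ - s₀) / 2 → A * (s₁ - s₀ - 2 * e) ≤
      (∫ x in S, len g x (G x) * volDen g x) + c * c2 * (3 * e) := by
    intro e he he2
    obtain ⟨v, hvs, hvu, hv1, -⟩ := hw.approx K hKc hKA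
    obtain ⟨V, hV⟩ : ∃ V : ℝ, V = (volume.restrict K).real Set.univ := ⟨_, rfl⟩
    have hV0 : 0 ≤ V := by rw [hV]; exact measureReal_nonneg
    -- choose n
    have hi : ∀ i, Tendsto (fun n => Real.sqrt V * Real.sqrt (∫ x in K, (pd i (v n) x - G x i) ^ 2))
        atTop (𝓝 0) := by
      intro i
      have := ((Real.continuous_sqrt.tendsto 0).comp (hv1 i)).const_mul (Real.sqrt V)
      simpa using this
    have hev : ∀ᶠ n in atTop, (∀ x ∈ K, dist (w x) (v n x) < e / 2) ∧
        ∀ i, Real.sqrt V * Real.sqrt (∫ x in K, (pd i (v n) x - G x i) ^ 2) < e / 2 := by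
      refine ((Metric.tendstoUniformlyOn_iff.mp hvu) (e / 2) (by linarith)).and ?_
      exact eventually_all.mpr fun i => (hi i).eventually (gt_mem_nhds (by linarith))
    obtain ⟨n, hn1, hn2⟩ := hev.exists
    -- choose the linear perturbation
    have hdense := MeasureTheory.Measure.dense_of_ae (MO (v n) K (hvs n) hKc)
    have hr0 : 0 < r := hρ.trans hρr
    obtain ⟨δ, hδ, hδ1, hδ2⟩ : ∃ δ : ℝ, 0 < δ ∧ δ * r < e / 2 ∧ δ * V < e / 2 := by
      refine ⟨e / 2 / (2 * (r + V + 1)), by positivity, ?_, ?_⟩
      · rw [div_mul_eq_mul_div, div_lt_iff₀ (by positivity)]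
        nlinarith
      · rw [div_mul_eq_mul_div, div_lt_iff₀ (by positivity)]
        nlinarith
    obtain ⟨a, ha, had⟩ := hdense.exists_dist_lt 0 hδ
    have han : ‖a‖ < δ := by simpa [dist_comm] using had
    have hai : ∀ i, |a i| ≤ δ := fun i => (PiLp.norm_apply_le a i).trans han.le
    obtain ⟨W, hW⟩ : ∃ W : E3 → ℝ, W = fun x => v n x + ∑ i, a i * x i := ⟨_, rfl⟩
    have hco : ∀ i, ContDiff ℝ ∞ (fun x : E3 => x i) := fun i => by fun_prop
    have hlin : ContDiff ℝ ∞ (fun x : E3 => ∑ i, a i * x i) :=
      ContDiff.sum fun i _ => contDiff_const.mul (hco i)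
    have hWs : ContDiff ℝ ∞ W := by
      rw [hW]
      exact (hvs n).add hlin
    have hpl : ∀ i x, pd i (fun x : E3 => ∑ j, a j * x j) x = a i := by
      intro i x
      rw [pd_sum _ _ (fun j _ => (differentiableAt_coord j).const_mul _)]
      simp only [pd_const_mul _ (differentiableAt_coord _), pd_coord]
      simp
    have hpd : ∀ i x, pd i W x = pd i (v n) x + a i := by
      intro i x
      rw [hW, pd_add ((hvs n).differentiable (by simp) x) (hlin.differentiable (by simp) x), hpl]
    have hclose : ∀ x ∈ K, |W x - w x| < e := by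
      intro x hx
      have e1 := hn1 x hx
      rw [Real.dist_eq, abs_sub_comm] at e1
      have e2 : |∑ i, a i * x i| ≤ ‖a‖ * ‖x‖ := by
        have := abs_real_inner_le_norm a x
        rw [PiLp.inner_apply] at this
        have e3 : ∑ i, inner ℝ (a i) (x i) = ∑ i, a i * x i :=
          Finset.sum_congr rfl fun i _ => by simp [mul_comm]
        rwa [e3] at this
      have e4 : ‖a‖ * ‖x‖ < e / 2 :=
        lt_of_le_of_lt (mul_le_mul han.le hx.2 (norm_nonneg _) hδ.le) hδ1
      have e5 : W x - w x = (v n x - w x) + ∑ i, a i * x i := by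
        rw [hW]
        ring
      rw [e5]
      calc |(v n x - w x) + ∑ i, a i * x i| ≤ |v n x - w x| + |∑ i, a i * x i| := abs_add_le _ _
        _ < e := by linarith
    have hfin : Set.Finite {s : ℝ | s₀ + e ≤ s ∧ s ≤ s₁ - e ∧
        ∃ x ∈ cAnn ρ r, W x = s ∧ fderiv ℝ W x = 0} := by
      refine (ha.image W).subset ?_
      rintro s ⟨-, -, x, hx, hxs, hx0⟩
      refine ⟨x, ⟨hx, fun i => ?_⟩, hxs⟩
      rw [← hpd]
      unfold pd
      rw [hx0]
      rfl
    have hP := hXPERA g W ρ r (s₀ + e) (s₁ - e) hg hρ1 hρr (by linarith) hWs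
      (fun x hx hxρ => by
        have e1 := abs_lt.mp (hclose x hx)
        have e2 := hin x (hKA hx) hxρ.le
        linarith [e1.2])
      (fun x hx hxr => by
        have e1 := abs_lt.mp (hclose x hx)
        have e2 := hout x (hKA hx) hxr.ge
        linarith [e1.1]) hfin A hA
    -- the difference of the gradients
    obtain ⟨D, hD⟩ : ∃ D : Fin 3 → E3 → ℝ, D = fun i x => pd i W x - G x i := ⟨_, rfl⟩
    have hvc : ∀ i, ContinuousOn (pd i (v n)) K := fun i =>
      (((hvs n).continuous_fderiv (by simp)).clm_apply continuous_const).continuousOn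
    have hWc : ∀ i, ContinuousOn (pd i W) K := fun i =>
      ((hWs.continuous_fderiv (by simp)).clm_apply continuous_const).continuousOn
    have hWi : ∀ i, Integrable (pd i W) (volume.restrict K) := fun i =>
      (hWc i).integrableOn_compact hKc
    have hvm : ∀ i, MemLp (fun x => pd i (v n) x - G x i) 2 (volume.restrict K) := by
      intro i
      refine MemLp.sub ?_ (hG2 i)
      obtain ⟨B, hB⟩ := hKc.exists_bound_of_continuousOn (hvc i)
      refine MemLp.of_bound ((hvc i).aestronglyMeasurable hKm) B ?_
      exact (ae_restrict_iff' hKm).mpr (ae_of_all _ hB)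
    have hDi : ∀ i, Integrable (fun x => |D i x|) (volume.restrict K) := fun i => by
      rw [hD]
      exact ((hWi i).sub (hGi i)).abs
    have hDb : ∀ i, ∫ x in K, |D i x| ≤ e := by
      intro i
      have e1 := integral_abs_le (hvm i)
      rw [← hV] at e1
      have e2 : ∫ x in K, |D i x| ≤ ∫ x in K, (|pd i (v n) x - G x i| + |a i|) := by
        refine integral_mono (hDi i) (((hvm i).integrable one_le_two).abs.add
          (integrable_const _)) fun x => ?_
        rw [hD]
        simp only [hpd]
        have : pd i (v n) x + a i - G x i = (pd i (v n) x - G x i) + a i := by ring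
        rw [this]
        exact abs_add_le _ _
      rw [integral_add ((hvm i).integrable one_le_two).abs (integrable_const _),
        integral_const, ← hV, smul_eq_mul] at e2
      have e3 : V * |a i| ≤ δ * V := by
        rw [mul_comm]
        exact mul_le_mul_of_nonneg_right (hai i) hV0
      have e4 := hn2 i
      linarith
    have hWI : Integrable (fun x => len g x (grad W x) * volDen g x) (volume.restrict K) := by
      refine Integrable.mono' (g := fun x => c * c2 * ∑ i, |grad W x i|) ?_
        (len_aesm hKc hci hcv fun i => (hWi i).aestronglyMeasurable) ?_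
      · refine Integrable.const_mul ?_ _
        exact integrable_finsetSum _ fun i _ => (hWi i).abs
      · refine (ae_restrict_iff' hKm).mpr (ae_of_all _ fun x hx => ?_)
        rw [Real.norm_of_nonneg (mul_nonneg (len_nonneg g x _) (volDen_nonneg g x))]
        exact hlen x hx _
    have hSK : S ⊆ K := Set.inter_subset_left
    have hsub : cAnn ρ r ∩ {x | s₀ + e ≤ W x ∧ W x ≤ s₁ - e} ⊆ S := by
      rintro x ⟨hx, hx1, hx2⟩
      have e1 := abs_lt.mp (hclose x hx)
      exact ⟨hx, by linarith [e1.2], by linarith [e1.1]⟩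
    have step1 : ∫ x in cAnn ρ r ∩ {x | s₀ + e ≤ W x ∧ W x ≤ s₁ - e},
        len g x (grad W x) * volDen g x ≤ ∫ x in S, len g x (grad W x) * volDen g x := by
      refine setIntegral_mono_set (hWI.mono_measure (Measure.restrict_mono hSK le_rfl)) ?_
        (LE.le.eventuallyLE hsub)
      exact ae_of_all _ fun x => mul_nonneg (len_nonneg g x _) (volDen_nonneg g x)
    have hsumi : Integrable (fun x => c * c2 * ∑ i, |D i x|) (volume.restrict K) := by
      refine Integrable.const_mul ?_ _
      exact integrable_finsetSum _ fun i _ => hDi i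
    have step2 : ∫ x in S, len g x (grad W x) * volDen g x ≤
        ∫ x in S, (len g x (G x) * volDen g x + c * c2 * ∑ i, |D i x|) := by
      refine setIntegral_mono_on (hWI.mono_measure (Measure.restrict_mono hSK le_rfl))
        ((hI.add hsumi).mono_measure (Measure.restrict_mono hSK le_rfl)) hSm fun x hx => ?_
      have e1 := len_add_le (hg.posDef x (hK0 (hSK hx))) (G x) (fun i => D i x)
      have e2 : (fun i => G x i + D i x) = grad W x := by
        funext i
        rw [hD]
        change G x i + (pd i W x - G x i) = pd i W x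
        ring
      rw [e2] at e1
      have e3 := hlen x (hSK hx) (fun i => D i x)
      have e4 := mul_le_mul_of_nonneg_right e1 (volDen_nonneg g x)
      linarith [add_mul (len g x (G x)) (len g x fun i => D i x) (volDen g x)]
    have step3 : ∫ x in S, (len g x (G x) * volDen g x + c * c2 * ∑ i, |D i x|)
        ≤ (∫ x in S, len g x (G x) * volDen g x) + c * c2 * (3 * e) := by
      rw [integral_add (hI.mono_measure (Measure.restrict_mono hSK le_rfl))
        (hsumi.mono_measure (Measure.restrict_mono hSK le_rfl))]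
      have e1 : ∫ x in S, c * c2 * ∑ i, |D i x| ≤ ∫ x in K, c * c2 * ∑ i, |D i x| := by
        refine setIntegral_mono_set hsumi ?_ (LE.le.eventuallyLE hSK)
        refine ae_of_all _ fun x => ?_
        have : 0 ≤ ∑ i, |D i x| := Finset.sum_nonneg fun _ _ => abs_nonneg _
        exact mul_nonneg (mul_nonneg hc0 (by linarith)) this
      have e2 : ∫ x in K, c * c2 * ∑ i, |D i x| = c * c2 * ∑ i, ∫ x in K, |D i x| := by
        rw [integral_const_mul, integral_finsetSum _ fun i _ => hDi i]
      have e3 : ∑ i, ∫ x in K, |D i x| ≤ 3 * e := by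
        calc ∑ i, ∫ x in K, |D i x| ≤ ∑ _i : Fin 3, e := Finset.sum_le_sum fun i _ => hDb i
          _ = 3 * e := by simp
      have e4 : c * c2 * ∑ i, ∫ x in K, |D i x| ≤ c * c2 * (3 * e) :=
        mul_le_mul_of_nonneg_left e3 (mul_nonneg hc0 (by linarith))
      linarith
    have e9 : s₁ - e - (s₀ + e) = s₁ - s₀ - 2 * e := by ring
    rw [e9] at hP
    exact hP.trans (step1.trans (step2.trans step3))
  by_contra hcon
  push Not at hcon
  obtain ⟨I, hIe⟩ : ∃ I, I = ∫ x in S, len g x (G x) * volDen g x := ⟨_, rfl⟩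
  rw [← hIe] at hcon key
  have hT : 0 < 3 * (c * c2) + 2 * |A| + 1 := by
    have : 0 ≤ c * c2 := mul_nonneg hc0 (by linarith)
    positivity
  obtain ⟨e, he⟩ : ∃ e, e = min ((s₁ - s₀) / 4)
      ((A * (s₁ - s₀) - I) / (3 * (c * c2) + 2 * |A| + 1)) := ⟨_, rfl⟩
  have he0 : 0 < e := by
    rw [he]
    exact lt_min (by linarith) (div_pos (by linarith) hT)
  have he1 : e < (s₁ - s₀) / 2 := by
    have : e ≤ (s₁ - s₀) / 4 := by rw [he]; exact min_le_left _ _
    linarith
  have he2 : e * (3 * (c * c2) + 2 * |A| + 1) ≤ A * (s₁ - s₀) - I := by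
    have : e ≤ (A * (s₁ - s₀) - I) / (3 * (c * c2) + 2 * |A| + 1) := by
      rw [he]; exact min_le_right _ _
    rwa [le_div_iff₀ hT] at this
  have h5 := key e he0 he1
  have h6 : A * e ≤ |A| * e := mul_le_mul_of_nonneg_right (le_abs_self A) he0.le
  nlinarith

end Pool.Agent.PFlow


end
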