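import Mathlib
import Pool.Agent.PFlow.StmtsX2
import Pool.Agent.PenroseM.C06
import Pool.Agent.PenroseM.C19
import Pool.Agent.PenroseM.C21
import Pool.Agent.PenroseM.C66
import Pool.Agent.PenroseM.C67
import Pool.Agent.PenroseM.C71

/-! Parts: PFlow.HX.HXRAY, PFlow.PX.CCpt, PFlow.PX.Order, PFlow.X.XCOLG, PFlow.X.XMSIII -/

section

/-!
# HXRAY: estimates in the collar for smooth functions equal to `1` on the sphere
-/

open MeasureTheory Filter Topology
open scoped ContDiff ENNReal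

namespace Pool.Agent.PFlow.HX.HXRAYaux

open Pool.Agent.PenroseSph Pool.Agent.PFlow

theorem fderiv_sum (f : E3 → ℝ) (x t : E3) : fderiv ℝ f x t = ∑ i, t i * pd i f x := by
  have h1 : t = ∑ i, t i • EuclideanSpace.single i (1 : ℝ) := by
    ext j
    simp [Fin.sum_univ_three]
    fin_cases j <;> simp
  conv_lhs => rw [h1]
  rw [map_sum]
  refine Finset.sum_congr rfl fun i _ => ?_
  rw [map_smul, smul_eq_mul]
  rfl

theorem pd_contDiff {v : E3 → ℝ} (hv : ContDiff ℝ ∞ v) (i : Fin 3) : ContDiff ℝ ∞ (pd i v) := by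
  unfold pd
  exact (hv.fderiv_right (m := ∞) (by simp)).clm_apply contDiff_const

theorem hess_cont {v : E3 → ℝ} (hv : ContDiff ℝ ∞ v) :
    Continuous (fun x => msz (hess2 v x)) := by
  unfold msz
  refine Real.continuous_sqrt.comp ?_
  refine continuous_finsetSum _ fun i _ => continuous_finsetSum _ fun j _ => ?_
  exact ((pd_contDiff (pd_contDiff hv j) i).continuous).pow 2

theorem msz_nonneg (M : Bil) : 0 ≤ msz M := Real.sqrt_nonneg _

theorem norm_sq (x : E3) : ‖x‖ ^ 2 = ∑ i, x i ^ 2 := by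
  rw [EuclideanSpace.norm_sq_eq]
  simp

/-- Cauchy-Schwarz. -/
theorem bil_le (M : Bil) (p q : Cov) :
    ∑ i, p i * ∑ j, q j * M j i ≤ vsz p * vsz q * msz M := by
  have h1 : ∑ i, p i * ∑ j, q j * M j i = ∑ x : Fin 3 × Fin 3, (p x.1 * q x.2) * M x.2 x.1 := by
    rw [Fintype.sum_prod_type]
    refine Finset.sum_congr rfl fun i _ => ?_
    rw [Finset.mul_sum]
    refine Finset.sum_congr rfl fun j _ => ?_
    ring
  have h2 : (∑ x : Fin 3 × Fin 3, (p x.1 * q x.2) * M x.2 x.1) ^ 2 ≤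
      (∑ x : Fin 3 × Fin 3, (p x.1 * q x.2) ^ 2) * ∑ x : Fin 3 × Fin 3, M x.2 x.1 ^ 2 :=
    Finset.sum_mul_sq_le_sq_mul_sq _ _ _
  have h3 : ∑ x : Fin 3 × Fin 3, (p x.1 * q x.2) ^ 2 = (∑ i, p i ^ 2) * ∑ j, q j ^ 2 := by
    rw [Fintype.sum_prod_type, Finset.sum_mul_sum]
    refine Finset.sum_congr rfl fun i _ => Finset.sum_congr rfl fun j _ => ?_
    ring
  have h4 : ∑ x : Fin 3 × Fin 3, M x.2 x.1 ^ 2 = ∑ i, ∑ j, M i j ^ 2 := by
    rw [Fintype.sum_prod_type, Finset.sum_comm]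
  rw [h1]
  unfold vsz msz
  rw [← Real.sqrt_mul (Finset.sum_nonneg fun _ _ => sq_nonneg _),
    ← Real.sqrt_mul (mul_nonneg (Finset.sum_nonneg fun _ _ => sq_nonneg _)
      (Finset.sum_nonneg fun _ _ => sq_nonneg _))]
  rw [h3, h4] at h2
  exact Real.le_sqrt_of_sq_le h2

/-- The derivative of a smooth function along a ray. -/
theorem line_deriv {f : E3 → ℝ} (hf : ContDiff ℝ ∞ f) (x : E3) (s : ℝ) :
    HasDerivAt (fun s : ℝ => f (s • x)) (∑ j, x j * pd j f (s • x)) s := by
  have h1 : HasFDerivAt f (fderiv ℝ f (s • x)) (s • x) :=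
    ((hf.differentiable (by simp)).differentiableAt).hasFDerivAt
  have h2 : HasDerivAt (fun s : ℝ => s • x) x s := by
    simpa using (hasDerivAt_id s).smul_const x
  have h3 := h1.comp_hasDerivAt s h2
  rw [fderiv_sum] at h3
  exact h3

theorem ray_cont {v : E3 → ℝ} (hv : ContDiff ℝ ∞ v) (x : E3) :
    Continuous (fun s : ℝ => ‖x‖ * msz (hess2 v (s • x))) := by
  refine continuous_const.mul ((hess_cont hv).comp ?_)
  exact continuous_id.smul continuous_const

/-- The basic estimate along a ray. -/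
theorem ray {v : E3 → ℝ} (hv : ContDiff ℝ ∞ v) (x : E3) (n : Cov) (hn : vsz n ≤ 1) {a : ℝ}
    (ha : a ≤ 1) :
    ∑ i, n i * pd i v x ≤ (∑ i, n i * pd i v (a • x)) +
      ∫ s in a..1, ‖x‖ * msz (hess2 v (s • x)) := by
  have hvx : vsz (fun i => x i) = ‖x‖ := by
    unfold vsz
    rw [← norm_sq, Real.sqrt_sq (norm_nonneg x)]
  have h1 : ∀ s : ℝ, HasDerivAt (fun s : ℝ => ∑ i, n i * pd i v (s • x))
      (∑ i, n i * ∑ j, x j * pd j (pd i v) (s • x)) s := by
    intro s
    have h2 := HasDerivAt.fun_sum (u := Finset.univ)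
      (A := fun (i : Fin 3) (s : ℝ) => n i * pd i v (s • x))
      (A' := fun i => n i * ∑ j, x j * pd j (pd i v) (s • x)) (x := s)
      (fun i _ => (line_deriv (pd_contDiff hv i) x s).const_mul (n i))
    exact h2
  have hc : Continuous (fun s : ℝ => ∑ i, n i * ∑ j, x j * pd j (pd i v) (s • x)) := by
    refine continuous_finsetSum _ fun i _ => continuous_const.mul
      (continuous_finsetSum _ fun j _ => continuous_const.mul ?_)
    exact (pd_contDiff (pd_contDiff hv i) j).continuous.comp (continuous_id.smul continuous_const)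
  have h3 := intervalIntegral.integral_eq_sub_of_hasDerivAt (a := a) (b := 1)
    (fun s _ => h1 s) (hc.intervalIntegrable _ _)
  have h4 : ∫ s in a..1, (∑ i, n i * ∑ j, x j * pd j (pd i v) (s • x)) ≤
      ∫ s in a..1, ‖x‖ * msz (hess2 v (s • x)) := by
    refine intervalIntegral.integral_mono_on ha (hc.intervalIntegrable _ _)
      ((ray_cont hv x).intervalIntegrable _ _) fun s _ => ?_
    have h5 := bil_le (hess2 v (s • x)) n (fun i => x i)
    rw [hvx] at h5
    have h6 : ∑ i, n i * ∑ j, x j * pd j (pd i v) (s • x) =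
        ∑ i, n i * ∑ j, (fun i => x i) j * hess2 v (s • x) j i := rfl
    rw [h6]
    refine h5.trans ?_
    have h7 : 0 ≤ ‖x‖ * msz (hess2 v (s • x)) := mul_nonneg (norm_nonneg _) (msz_nonneg _)
    nlinarith
  simp only [one_smul] at h3
  linarith

/-- The tangential derivatives vanish on the unit sphere. -/
theorem tan_zero {v : E3 → ℝ} (hv : ContDiff ℝ ∞ v) (h1 : ∀ x : E3, ‖x‖ = 1 → v x = 1)
    (w n : E3) (hw : ‖w‖ = 1) (hn : ∑ i, n i * w i = 0) : ∑ i, n i * pd i v w = 0 := by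
  have hw2 : ∑ i, w i ^ 2 = 1 := by rw [← norm_sq, hw]; norm_num
  have hnorm : ∀ t : ℝ, ‖w + t • n‖ ^ 2 = 1 + t ^ 2 * ∑ i, n i ^ 2 := by
    intro t
    rw [norm_sq]
    have e : ∀ i, (w + t • n) i ^ 2 = w i ^ 2 + 2 * t * (n i * w i) + t ^ 2 * n i ^ 2 := by
      intro i
      simp only [PiLp.add_apply, PiLp.smul_apply, smul_eq_mul]
      ring
    simp only [e, Finset.sum_add_distrib, ← Finset.mul_sum]
    rw [hw2, hn]
    ring
  set c : ℝ := ∑ i, n i ^ 2 with hc
  have hc0 : 0 ≤ c := Finset.sum_nonneg fun _ _ => sq_nonneg _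
  have hpos : ∀ t : ℝ, 0 < 1 + t ^ 2 * c := fun t => by positivity
  have hsq : ∀ t : ℝ, ‖w + t • n‖ = Real.sqrt (1 + t ^ 2 * c) := by
    intro t
    rw [← hnorm t, Real.sqrt_sq (norm_nonneg _)]
  -- the curve
  have hd1 : HasDerivAt (fun t : ℝ => 1 + t ^ 2 * c) 0 0 := by
    have h2 := ((hasDerivAt_id (0 : ℝ)).pow 2).mul_const c
    have h3 := h2.const_add 1
    simpa using h3
  have hd2 : HasDerivAt (fun t : ℝ => (Real.sqrt (1 + t ^ 2 * c))⁻¹) 0 0 := by
    have h2 := hd1.sqrt (by simp)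
    have h3 : HasDerivAt (fun t : ℝ => (Real.sqrt (1 + t ^ 2 * c))⁻¹) _ 0 := h2.inv (by simp)
    exact h3.congr_deriv (by simp)
  have hd3 : HasDerivAt (fun t : ℝ => w + t • n) n 0 := by
    simpa using ((hasDerivAt_id (0 : ℝ)).smul_const n).const_add w
  have hd4 : HasDerivAt (fun t : ℝ => (Real.sqrt (1 + t ^ 2 * c))⁻¹ • (w + t • n)) n 0 := by
    have h2 : HasDerivAt (fun t : ℝ => (Real.sqrt (1 + t ^ 2 * c))⁻¹ • (w + t • n)) _ 0 :=
      hd2.smul hd3
    exact h2.congr_deriv (by simp)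
  have hv1 : HasFDerivAt v (fderiv ℝ v w) ((fun t : ℝ => (Real.sqrt (1 + t ^ 2 * c))⁻¹ •
      (w + t • n)) 0) := by
    have e : (fun t : ℝ => (Real.sqrt (1 + t ^ 2 * c))⁻¹ • (w + t • n)) 0 = w := by simp
    rw [e]
    exact ((hv.differentiable (by simp)).differentiableAt).hasFDerivAt
  have h5 := hv1.comp_hasDerivAt 0 hd4
  have h6 : (v ∘ fun t : ℝ => (Real.sqrt (1 + t ^ 2 * c))⁻¹ • (w + t • n)) = fun _ => 1 := by
    funext t
    refine h1 _ ?_
    rw [norm_smul, hsq, Real.norm_eq_abs, abs_of_nonneg (inv_nonneg.2 (Real.sqrt_nonneg _))]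
    exact inv_mul_cancel₀ (Real.sqrt_pos.2 (hpos t)).ne'
  rw [h6] at h5
  have h7 := h5.unique (hasDerivAt_const (0 : ℝ) (1 : ℝ))
  rw [fderiv_sum] at h7
  exact h7

theorem int_nonneg {v : E3 → ℝ} (x : E3) {a : ℝ} (ha : a ≤ 1) :
    0 ≤ ∫ s in a..1, ‖x‖ * msz (hess2 v (s • x)) :=
  intervalIntegral.integral_nonneg ha fun _ _ => mul_nonneg (norm_nonneg _) (msz_nonneg _)

/-- The pointwise estimate of the tangential part. -/
theorem tan_le {v : E3 → ℝ} (hv : ContDiff ℝ ∞ v) (h1 : ∀ x : E3, ‖x‖ = 1 → v x = 1) (x : E3)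
    (hx : 1 ≤ ‖x‖) : tanP x (grad v x) ≤ ∫ s in (1 / ‖x‖)..1, ‖x‖ * msz (hess2 v (s • x)) := by
  have hx0 : 0 < ‖x‖ := by linarith
  have ha : 1 / ‖x‖ ≤ 1 := by rw [div_le_one hx0]; exact hx
  set q : Cov := fun i => grad v x i - (∑ j, grad v x j * x j) / ‖x‖ ^ 2 * x i with hq
  change vsz q ≤ _
  rcases eq_or_ne (vsz q) 0 with h0 | h0
  · rw [h0]
    exact int_nonneg x ha
  have hq0 : 0 < vsz q := lt_of_le_of_ne (Real.sqrt_nonneg _) (Ne.symm h0)
  have hqq : vsz q ^ 2 = ∑ i, q i ^ 2 := Real.sq_sqrt (Finset.sum_nonneg fun _ _ => sq_nonneg _)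
  have hqx : ∑ i, q i * x i = 0 := by
    have e : ∀ i, q i * x i = grad v x i * x i - (∑ j, grad v x j * x j) / ‖x‖ ^ 2 * x i ^ 2 := by
      intro i
      rw [hq]
      ring
    simp only [e, Finset.sum_sub_distrib, ← Finset.mul_sum]
    rw [← norm_sq]
    field_simp
    ring
  have hqp : ∑ i, q i * grad v x i = vsz q ^ 2 := by
    rw [hqq]
    have e : ∀ i, q i * grad v x i = q i ^ 2 + (∑ j, grad v x j * x j) / ‖x‖ ^ 2 * (q i * x i) := by
      intro i
      have e2 : grad v x i = q i + (∑ j, grad v x j * x j) / ‖x‖ ^ 2 * x i := by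
        rw [hq]
        ring
      conv_lhs => rw [e2]
      ring
    simp only [e, Finset.sum_add_distrib, ← Finset.mul_sum]
    rw [hqx]
    ring
  set n : Cov := fun i => q i / vsz q with hn
  have hn1 : vsz n ≤ 1 := by
    have e : ∑ i, n i ^ 2 = 1 := by
      have e2 : ∀ i, n i ^ 2 = q i ^ 2 / vsz q ^ 2 := fun i => by rw [hn, div_pow]
      simp only [e2, ← Finset.sum_div]
      rw [← hqq]
      exact div_self (pow_ne_zero _ h0)
    unfold vsz
    rw [e, Real.sqrt_one]
  have h2 := ray hv x n hn1 ha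
  have h3 : ∑ i, n i * pd i v x = vsz q := by
    have e : ∀ i, n i * pd i v x = q i * grad v x i / vsz q := by
      intro i
      rw [hn]
      change q i / vsz q * pd i v x = q i * pd i v x / vsz q
      ring
    simp only [e, ← Finset.sum_div]
    rw [hqp, pow_two, mul_div_assoc, div_self h0, mul_one]
  have h4 : ∑ i, n i * pd i v ((1 / ‖x‖) • x) = 0 := by
    refine tan_zero hv h1 ((1 / ‖x‖) • x) (WithLp.toLp 2 n) ?_ ?_
    · rw [norm_smul, Real.norm_eq_abs, abs_of_pos (by positivity)]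
      field_simp
    · have e : ∀ i, (WithLp.toLp 2 n : E3) i * ((1 / ‖x‖) • x) i = (1 / (vsz q * ‖x‖)) * (q i * x i) := by
        intro i
        change q i / vsz q * (1 / ‖x‖ * x i) = _
        field_simp
      simp only [e, ← Finset.mul_sum]
      rw [hqx, mul_zero]
  rw [h3, h4, zero_add] at h2
  exact h2

/-- The pointwise estimate of the radial part. -/
theorem neg_le {v : E3 → ℝ} (hv : ContDiff ℝ ∞ v) (h1 : ∀ x : E3, ‖x‖ = 1 → v x = 1) (x : E3)
    (hx : 1 < ‖x‖) : negP x (-grad v x) ≤ max ((v x - 1) / (‖x‖ - 1)) 0 +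
      ∫ s in (1 / ‖x‖)..1, ‖x‖ * msz (hess2 v (s • x)) := by
  have hx0 : 0 < ‖x‖ := by linarith
  have ha : 1 / ‖x‖ < 1 := by rw [div_lt_one hx0]; exact hx
  have hI := int_nonneg (v := v) x ha.le
  -- mean value
  have hdv : ∀ s : ℝ, HasDerivAt (fun s : ℝ => v (s • x)) (∑ j, x j * pd j v (s • x)) s :=
    fun s => line_deriv hv x s
  obtain ⟨s₀, hs₀, hs₀'⟩ := exists_hasDerivAt_eq_slope (fun s : ℝ => v (s • x))
    (fun s => ∑ j, x j * pd j v (s • x)) ha
    (fun s _ => (hdv s).continuousAt.continuousWithinAt) (fun s _ => hdv s)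
  have hw : v ((1 / ‖x‖) • x) = 1 := by
    refine h1 _ ?_
    rw [norm_smul, Real.norm_eq_abs, abs_of_pos (by positivity)]
    field_simp
  rw [one_smul, hw] at hs₀'
  set n : Cov := fun i => x i / ‖x‖ with hn
  have hn1 : vsz n ≤ 1 := by
    have e : ∑ i, n i ^ 2 = 1 := by
      have e2 : ∀ i, n i ^ 2 = x i ^ 2 / ‖x‖ ^ 2 := fun i => by rw [hn, div_pow]
      simp only [e2, ← Finset.sum_div]
      rw [← norm_sq]
      exact div_self (pow_ne_zero _ hx0.ne')
    unfold vsz
    rw [e, Real.sqrt_one]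
  have hns : ∀ y : E3, ∑ i, n i * pd i v y = (∑ i, x i * pd i v y) / ‖x‖ := by
    intro y
    rw [Finset.sum_div]
    refine Finset.sum_congr rfl fun i _ => ?_
    rw [hn]
    ring
  have h2 := ray hv x n hn1 hs₀.2.le
  rw [hns, hns, hs₀'] at h2
  have h3 : (v x - 1) / (1 - 1 / ‖x‖) / ‖x‖ = (v x - 1) / (‖x‖ - 1) := by
    have e1 : 1 - 1 / ‖x‖ ≠ 0 := by
      have : 0 < 1 - 1 / ‖x‖ := by linarith
      exact this.ne'
    have e2 : ‖x‖ - 1 ≠ 0 := by
      have : 0 < ‖x‖ - 1 := by linarith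
      exact this.ne'
    rw [div_div]
    congr 1
    field_simp
  rw [h3] at h2
  have h4 : ∫ s in s₀..1, ‖x‖ * msz (hess2 v (s • x)) ≤
      ∫ s in (1 / ‖x‖)..1, ‖x‖ * msz (hess2 v (s • x)) := by
    have h5 := intervalIntegral.integral_add_adjacent_intervals (μ := volume) (a := 1 / ‖x‖)
      (b := s₀) (c := 1)
      ((ray_cont hv x).intervalIntegrable _ _) ((ray_cont hv x).intervalIntegrable _ _)
    have h6 : 0 ≤ ∫ s in (1 / ‖x‖)..s₀, ‖x‖ * msz (hess2 v (s • x)) :=
      intervalIntegral.integral_nonneg hs₀.1.le fun _ _ =>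
        mul_nonneg (norm_nonneg _) (msz_nonneg _)
    linarith
  have h5 : -((∑ j, (-grad v x) j * x j) / ‖x‖) = (∑ i, x i * pd i v x) / ‖x‖ := by
    rw [← neg_div, ← Finset.sum_neg_distrib]
    congr 1
    refine Finset.sum_congr rfl fun i _ => ?_
    change -(-(pd i v x) * x i) = _
    ring
  unfold negP
  rw [h5]
  refine max_le ?_ (add_nonneg (le_max_right _ _) hI)
  have h6 := le_max_left ((v x - 1) / (‖x‖ - 1)) 0
  linarith

/-! ### Integration over the collar -/

theorem closed_cAnn (a b : ℝ) : IsClosed (cAnn a b) :=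
  (isClosed_le continuous_const continuous_norm).inter
    (isClosed_le continuous_norm continuous_const)

theorem compact_cAnn (a b : ℝ) : IsCompact (cAnn a b) := by
  refine Metric.isCompact_of_isClosed_isBounded (closed_cAnn a b) ?_
  refine (Metric.isBounded_closedBall (x := (0 : E3)) (r := b)).subset fun x hx => ?_
  rw [mem_closedBall_zero_iff]
  exact hx.2

/-- The majorant. -/
noncomputable def KK (R : ℝ) (h : E3 → ℝ) (x : E3) : ℝ :=
  R * ∫ s in Set.Icc (1 / R) 1, (cAnn 1 R).indicator h (s • x)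

section
variable {h : E3 → ℝ} (hc : Continuous h) (h0 : ∀ x, 0 ≤ h x) {R : ℝ} (hR : 1 ≤ R)

include hc

theorem ind_meas : Measurable ((cAnn 1 R).indicator h) :=
  hc.measurable.indicator (closed_cAnn 1 R).measurableSet

theorem ind_bound : ∃ B : ℝ, ∀ y, ‖(cAnn 1 R).indicator h y‖ ≤ B := by
  obtain ⟨B, hB⟩ := (compact_cAnn 1 R).exists_bound_of_continuousOn hc.continuousOn
  refine ⟨max B 0, fun y => ?_⟩
  by_cases hy : y ∈ cAnn 1 R
  · rw [Set.indicator_of_mem hy]
    exact (hB y hy).trans (le_max_left _ _)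
  · rw [Set.indicator_of_notMem hy, norm_zero]
    exact le_max_right _ _

theorem prod_int : Integrable (Function.uncurry fun (x : E3) (s : ℝ) =>
    (cAnn 1 R).indicator h (s • x))
    ((volume.restrict (cAnn 1 R)).prod (volume.restrict (Set.Icc (1 / R) 1))) := by
  obtain ⟨B, hB⟩ := ind_bound hc (R := R)
  have : IsFiniteMeasure (volume.restrict (cAnn 1 R) : Measure E3) :=
    ⟨by rw [Measure.restrict_apply_univ]; exact (compact_cAnn 1 R).measure_lt_top⟩
  have hm : Measurable (Function.uncurry fun (x : E3) (s : ℝ) =>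
      (cAnn 1 R).indicator h (s • x)) :=
    (ind_meas hc).comp (measurable_snd.smul measurable_fst)
  exact Integrable.of_bound hm.aestronglyMeasurable B (Eventually.of_forall fun z => hB _)

theorem slice_int (x : E3) : IntegrableOn (fun s : ℝ => (cAnn 1 R).indicator h (s • x))
    (Set.Icc (1 / R) 1) := by
  obtain ⟨B, hB⟩ := ind_bound hc (R := R)
  have hm : Measurable (fun s : ℝ => (cAnn 1 R).indicator h (s • x)) :=
    (ind_meas hc).comp (measurable_id.smul_const x)
  exact Integrable.of_bound hm.aestronglyMeasurable B (Eventually.of_forall fun z => hB _)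

theorem KK_int : IntegrableOn (KK R h) (cAnn 1 R) := by
  have h1 := (prod_int hc (R := R)).integral_prod_left
  exact h1.const_mul R

include h0 hR

theorem le_KK (x : E3) (hx : x ∈ cAnn 1 R) :
    ∫ s in (1 / ‖x‖)..1, ‖x‖ * h (s • x) ≤ KK R h x := by
  have hx0 : 0 < ‖x‖ := by linarith [hx.1]
  have ha : 1 / ‖x‖ ≤ 1 := by rw [div_le_one hx0]; exact hx.1
  rw [intervalIntegral.integral_of_le ha]
  unfold KK
  rw [← integral_const_mul]
  have hsub : Set.Ioc (1 / ‖x‖) 1 ⊆ Set.Icc (1 / R) 1 := by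
    intro s hs
    refine ⟨?_, hs.2⟩
    exact (one_div_le_one_div_of_le hx0 hx.2).trans hs.1.le
  have h1 : ∀ s : ℝ, 0 ≤ R * (cAnn 1 R).indicator h (s • x) := fun s =>
    mul_nonneg (by linarith) (Set.indicator_nonneg (fun y _ => h0 y) _)
  refine le_trans ?_ (setIntegral_mono_set ((slice_int hc x).const_mul R)
    (Eventually.of_forall h1) (LE.le.eventuallyLE hsub))
  refine setIntegral_mono_on ?_ (((slice_int hc x).mono_set hsub).const_mul R) measurableSet_Ioc
    fun s hs => ?_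
  · have h2 : Continuous fun s : ℝ => ‖x‖ * h (s • x) :=
      continuous_const.mul (hc.comp (continuous_id.smul continuous_const))
    exact (h2.integrableOn_Icc (a := 1 / ‖x‖) (b := 1)).mono_set Set.Ioc_subset_Icc_self
  · have hs0 : 0 < s := lt_trans (by positivity) hs.1
    have hmem : s • x ∈ cAnn 1 R := by
      have e : ‖s • x‖ = s * ‖x‖ := by rw [norm_smul, Real.norm_eq_abs, abs_of_pos hs0]
      constructor
      · rw [e]
        have := hs.1
        rw [div_lt_iff₀ hx0] at this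
        exact this.le
      · rw [e]
        calc s * ‖x‖ ≤ 1 * ‖x‖ := mul_le_mul_of_nonneg_right hs.2 hx0.le
          _ ≤ R := by rw [one_mul]; exact hx.2
    rw [Set.indicator_of_mem hmem]
    exact mul_le_mul_of_nonneg_right hx.2 (h0 _)

theorem KK_nonneg (x : E3) : 0 ≤ KK R h x :=
  mul_nonneg (by linarith) (integral_nonneg fun s => Set.indicator_nonneg (fun y _ => h0 y) _)

theorem KK_le : ∫ x in cAnn 1 R, KK R h x ≤ (R - 1) * R ^ 3 * ∫ x in cAnn 1 R, h x := by
  have hR0 : 0 < R := by linarith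
  have : IsFiniteMeasure (volume.restrict (cAnn 1 R) : Measure E3) :=
    ⟨by rw [Measure.restrict_apply_univ]; exact (compact_cAnn 1 R).measure_lt_top⟩
  set H := ∫ x in cAnn 1 R, h x with hH
  have hH0 : 0 ≤ H := integral_nonneg fun x => h0 x
  have e1 : ∫ x in cAnn 1 R, KK R h x = R * ∫ s in Set.Icc (1 / R) 1, ∫ x in cAnn 1 R,
      (cAnn 1 R).indicator h (s • x) := by
    unfold KK
    rw [integral_const_mul]
    congr 1
    exact integral_integral_swap (prod_int hc)
  have hi : ∫ y, (cAnn 1 R).indicator h y = H := by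
    rw [integral_indicator (closed_cAnn 1 R).measurableSet]
  have hint : Integrable ((cAnn 1 R).indicator h) :=
    (integrable_indicator_iff (closed_cAnn 1 R).measurableSet).2
      (hc.continuousOn.integrableOn_compact (compact_cAnn 1 R))
  have h2 : ∀ s ∈ Set.Icc (1 / R) 1, ∫ x in cAnn 1 R, (cAnn 1 R).indicator h (s • x) ≤
      R ^ 3 * H := by
    intro s hs
    have hs0 : 0 < s := lt_of_lt_of_le (by positivity) hs.1
    have hint' : Integrable (fun x : E3 => (cAnn 1 R).indicator h (s • x)) :=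
      hint.comp_smul hs0.ne'
    calc ∫ x in cAnn 1 R, (cAnn 1 R).indicator h (s • x)
        ≤ ∫ x : E3, (cAnn 1 R).indicator h (s • x) :=
          setIntegral_le_integral hint' (Eventually.of_forall fun x =>
            Set.indicator_nonneg (fun y _ => h0 y) _)
      _ = |(s ^ 3)⁻¹| * H := by
          rw [Measure.integral_comp_smul, finrank_euclideanSpace, Fintype.card_fin, hi,
            smul_eq_mul]
      _ ≤ R ^ 3 * H := by
          refine mul_le_mul_of_nonneg_right ?_ hH0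
          rw [abs_of_pos (by positivity)]
          rw [inv_le_comm₀ (by positivity) (by positivity)]
          calc (R ^ 3)⁻¹ = (1 / R) ^ 3 := by rw [one_div, inv_pow]
            _ ≤ s ^ 3 := pow_le_pow_left₀ (by positivity) hs.1 3
  have hI := (prod_int hc (R := R)).swap.integral_prod_left
  have h3 : ∫ s in Set.Icc (1 / R) 1, ∫ x in cAnn 1 R, (cAnn 1 R).indicator h (s • x) ≤
      ∫ s in Set.Icc (1 / R) 1, R ^ 3 * H := by
    refine setIntegral_mono_on hI ?_ measurableSet_Icc h2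
    exact integrableOn_const (by simp)
  have h4 : ∫ s in Set.Icc (1 / R) 1, R ^ 3 * H = (1 - 1 / R) * (R ^ 3 * H) := by
    rw [setIntegral_const, smul_eq_mul, Real.volume_real_Icc_of_le (by
      rw [div_le_one hR0]; exact hR)]
  rw [e1]
  rw [h4] at h3
  calc R * ∫ s in Set.Icc (1 / R) 1, ∫ x in cAnn 1 R, (cAnn 1 R).indicator h (s • x)
      ≤ R * ((1 - 1 / R) * (R ^ 3 * H)) := mul_le_mul_of_nonneg_left h3 hR0.le
    _ = (R - 1) * R ^ 3 * H := by
        field_simp

end

theorem exp_bd {τ : ℝ} (h0 : 0 < τ) (h1 : τ ≤ 1 / 10) :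
    (Real.exp τ - 1) * Real.exp τ ^ 3 ≤ 4 * τ := by
  have h2 : 1 - τ ≤ Real.exp (-τ) := by
    have := Real.add_one_le_exp (-τ)
    linarith
  have h3 : Real.exp τ * (1 - τ) ≤ 1 := by
    calc Real.exp τ * (1 - τ) ≤ Real.exp τ * Real.exp (-τ) :=
          mul_le_mul_of_nonneg_left h2 (Real.exp_pos _).le
      _ = 1 := by rw [← Real.exp_add, add_neg_cancel, Real.exp_zero]
  have h4 : 1 ≤ Real.exp τ := Real.one_le_exp h0.le
  have h5 : Real.exp τ ≤ 10 / 9 := by nlinarith
  have h6 : Real.exp τ - 1 ≤ 10 / 9 * τ := by nlinarith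
  have h7 : Real.exp τ ^ 3 ≤ (10 / 9) ^ 3 := pow_le_pow_left₀ (by linarith) h5 3
  calc (Real.exp τ - 1) * Real.exp τ ^ 3 ≤ (10 / 9 * τ) * (10 / 9) ^ 3 :=
        mul_le_mul h6 h7 (by positivity) (by positivity)
    _ ≤ 4 * τ := by nlinarith

theorem rad_cont {v : E3 → ℝ} (hv : ContDiff ℝ ∞ v) {a b : ℝ} (ha : 0 < a) :
    ContinuousOn (fun x : E3 => ∑ j, grad v x j * x j) (cAnn a b) := by
  refine Continuous.continuousOn ?_
  refine continuous_finsetSum _ fun j _ => ?_
  exact (pd_contDiff hv j).continuous.mul (by fun_prop)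

theorem tanP_cont {v : E3 → ℝ} (hv : ContDiff ℝ ∞ v) {a b : ℝ} (ha : 0 < a) :
    ContinuousOn (fun x : E3 => tanP x (grad v x)) (cAnn a b) := by
  unfold tanP vsz
  refine Real.continuous_sqrt.comp_continuousOn ?_
  refine continuousOn_finsetSum _ fun i _ => ContinuousOn.pow ?_ 2
  refine ((pd_contDiff hv i).continuous.continuousOn).sub (ContinuousOn.mul ?_ (by fun_prop))
  refine (rad_cont hv ha).div (by fun_prop) fun x hx => ?_
  have : 0 < ‖x‖ := lt_of_lt_of_le ha hx.1
  positivity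

theorem negP_cont {v : E3 → ℝ} (hv : ContDiff ℝ ∞ v) {a b : ℝ} (ha : 0 < a) :
    ContinuousOn (fun x : E3 => negP x (-grad v x)) (cAnn a b) := by
  unfold negP
  refine ContinuousOn.sup (ContinuousOn.neg ?_) continuousOn_const
  refine ContinuousOn.div ?_ continuous_norm.continuousOn fun x hx => ?_
  · refine Continuous.continuousOn ?_
    refine continuous_finsetSum _ fun j _ => ?_
    exact (pd_contDiff hv j).continuous.neg.mul (by fun_prop)
  · have : 0 < ‖x‖ := lt_of_lt_of_le ha hx.1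
    exact this.ne'

theorem quot_cont {v : E3 → ℝ} (hv : ContDiff ℝ ∞ v) {a b : ℝ} (ha : 1 < a) :
    ContinuousOn (fun x : E3 => max ((v x - 1) / (‖x‖ - 1)) 0) (cAnn a b) := by
  refine ContinuousOn.sup ?_ continuousOn_const
  refine ContinuousOn.div ((hv.continuous.sub continuous_const).continuousOn)
    ((continuous_norm.sub continuous_const).continuousOn) fun x hx => ?_
  have : 0 < ‖x‖ - 1 := by linarith [hx.1]
  exact this.ne'

end Pool.Agent.PFlow.HX.HXRAYaux

namespace Pool.Agent.PFlow.HX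

open Pool.Agent.PenroseSph Pool.Agent.PFlow

open HXRAYaux in
/-- HXRAY. -/
theorem HXRAY : Stmt_HXRAY := by
  intro v τ hv h1 h0 hτ
  have hR : 1 ≤ Real.exp τ := Real.one_le_exp h0.le
  have hc := hess_cont hv
  have hn : ∀ x, 0 ≤ msz (hess2 v x) := fun x => msz_nonneg _
  have hK := KK_le hc hn hR
  have hKi := KK_int hc (R := Real.exp τ)
  have hH0 : 0 ≤ ∫ x in cAnn 1 (Real.exp τ), msz (hess2 v x) := integral_nonneg fun x => hn x
  have hK' : ∫ x in cAnn 1 (Real.exp τ), KK (Real.exp τ) (fun x => msz (hess2 v x)) x ≤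
      4 * τ * ∫ x in cAnn 1 (Real.exp τ), msz (hess2 v x) :=
    hK.trans (mul_le_mul_of_nonneg_right (exp_bd h0 hτ) hH0)
  refine ⟨?_, ?_⟩
  · refine le_trans ?_ hK'
    refine setIntegral_mono_on ((tanP_cont hv one_pos).integrableOn_compact (compact_cAnn _ _)) hKi
      (closed_cAnn _ _).measurableSet fun x hx => ?_
    exact (tan_le hv h1 x hx.1).trans (le_KK hc hn hR x hx)
  · intro δ hδ hδτ
    have hδ1 : 1 < Real.exp δ := Real.one_lt_exp_iff.2 hδ
    have hsub : cAnn (Real.exp δ) (Real.exp τ) ⊆ cAnn 1 (Real.exp τ) := fun x hx =>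
      ⟨hδ1.le.trans hx.1, hx.2⟩
    have hqi : IntegrableOn (fun x : E3 => max ((v x - 1) / (‖x‖ - 1)) 0)
        (cAnn (Real.exp δ) (Real.exp τ)) :=
      (quot_cont hv hδ1).integrableOn_compact (compact_cAnn _ _)
    have h2 : ∫ x in cAnn (Real.exp δ) (Real.exp τ), negP x (-grad v x) ≤
        ∫ x in cAnn (Real.exp δ) (Real.exp τ), (max ((v x - 1) / (‖x‖ - 1)) 0 +
          KK (Real.exp τ) (fun x => msz (hess2 v x)) x) := by
      refine setIntegral_mono_on ((negP_cont hv (by linarith)).integrableOn_compact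
        (compact_cAnn _ _)) (hqi.add (hKi.mono_set hsub)) (closed_cAnn _ _).measurableSet
        fun x hx => ?_
      have h3 := neg_le hv h1 x (hδ1.trans_le hx.1)
      have h4 := le_KK hc hn hR x (hsub hx)
      linarith
    rw [integral_add hqi (hKi.mono_set hsub)] at h2
    have h5 : ∫ x in cAnn (Real.exp δ) (Real.exp τ),
        KK (Real.exp τ) (fun x => msz (hess2 v x)) x ≤
        ∫ x in cAnn 1 (Real.exp τ), KK (Real.exp τ) (fun x => msz (hess2 v x)) x :=
      setIntegral_mono_set hKi (Eventually.of_forall fun x => KK_nonneg hc hn hR x)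
        (LE.le.eventuallyLE hsub)
    linarith

end Pool.Agent.PFlow.HX


end

section

/-!
# Block PX: comparison on a compact set
-/

open MeasureTheory Filter Topology Set
open scoped ContDiff RealInnerProductSpace Manifold

namespace Pool.Agent.PFlow.PB

open Pool.Agent.PenroseSph Pool.Agent.PFlow

theorem xccpt_thm (h1 : API1) (h2 : API2) (hk : XCKEY) : XCCPT := by
  intro A B c L r hP U u G hW hu s hs K f hK hKU hf σ hσ hineq hfr
  by_contra hcon
  push Not at hcon
  obtain ⟨x₀, hx₀K, hx₀⟩ := hcon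
  set m : ℝ := s * (f x₀ - u x₀) / 2 with hm
  have hm0 : 0 < m := by rw [hm]; linarith
  have hfK : ContinuousOn f K := fun x hx => (hf x hx).continuousAt.continuousWithinAt
  -- the set where the difference is large
  set S : Set E3 := K ∩ (fun x => s * (f x - u x)) ⁻¹' Set.Ici m with hS
  have hScl : IsClosed S := by
    refine ContinuousOn.preimage_isClosed_of_isClosed ?_ hK.isClosed isClosed_Ici
    exact continuousOn_const.mul (hfK.sub hu.continuousOn)
  have hSint : S ⊆ interior K := by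
    intro x hx
    by_contra hxi
    have h3 : x ∈ frontier K := by
      rw [hK.isClosed.frontier_eq]
      exact ⟨hx.1, hxi⟩
    have h4 := hfr x h3
    have h5 : m ≤ s * (f x - u x) := hx.2
    linarith
  obtain ⟨ζ, hζ, hζ1, hζt, hζ01⟩ := CCpt.cutoff hScl isOpen_interior hSint
  obtain ⟨ζ₂, hζ₂, hζ₂1, hζ₂t, -⟩ := CCpt.cutoff (isClosed_tsupport ζ) isOpen_interior hζt
  set F : E3 → ℝ := fun x => ζ₂ x * f x with hF
  have hζK : tsupport ζ ⊆ K := hζt.trans interior_subset
  have hζ₂K : tsupport ζ₂ ⊆ K := hζ₂t.trans interior_subset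
  have hζc : HasCompactSupport ζ := hK.of_isClosed_subset (isClosed_tsupport _) hζK
  have hFt : tsupport F ⊆ K := (tsupport_mul_subset_left).trans hζ₂K
  have hFc : HasCompactSupport F := hK.of_isClosed_subset (isClosed_tsupport _) hFt
  have hFs : ContDiff ℝ 2 F := by
    rw [contDiff_iff_contDiffAt]
    intro x
    by_cases hx : x ∈ tsupport ζ₂
    · exact (hζ₂.contDiffAt.of_le (WithTop.coe_le_coe.2 le_top)).mul (hf x (hζ₂K hx))
    · have h3 : ∀ᶠ y in 𝓝 x, ζ₂ y = 0 := notMem_tsupport_iff_eventuallyEq.1 hx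
      have h4 : F =ᶠ[𝓝 x] fun _ => (0 : ℝ) := by
        filter_upwards [h3] with y hy
        rw [hF]
        simp only [hy, zero_mul]
      exact contDiffAt_const.congr_of_eventuallyEq h4
  have hFf : ∀ x ∈ tsupport ζ, F =ᶠ[𝓝 x] f := by
    intro x hx
    filter_upwards [hζ₂1 x hx] with y hy
    rw [hF]
    simp only [hy, one_mul]
  -- the test function
  set v : E3 → ℝ := fun x => ζ x * (s * (F x - u x)) - m * ζ x with hv
  set V : E3 → E3 := fun x => (ζ x • (s • (gr F x - G x)) + (s * (F x - u x)) • gr ζ x) -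
    m • gr ζ x with hV
  have hgc : Continuous (gr ζ) := h1.gr_cont ζ (hζ.of_le (by simp))
  obtain ⟨C, hC⟩ := (CCpt.gr_cpt hK hζK).exists_bound_of_continuous hgc
  have hTζ : Test ζ := ⟨hζ, hζc⟩
  have hH : H1 v V := by
    have a1 := h2.ofC1 F (hFs.of_le (by norm_num)) hFc
    have a2 := h1.smul s _ _ (h1.sub _ _ _ _ a1 hW.1)
    have a3 := h2.mul _ _ ζ (max C 1) a2 (hζ.of_le (by simp))
      (fun x => by
        rw [abs_of_nonneg (hζ01 x).1]
        exact (hζ01 x).2.trans (le_max_right _ _))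
      (fun x => (hC x).trans (le_max_left _ _))
    exact h1.sub _ _ _ _ a3 (h1.smul m _ _ (h1.ofTest ζ hTζ))
  have hvc : Continuous v :=
    (hζ.continuous.mul (continuous_const.mul (hFs.continuous.sub hu))).sub
      (continuous_const.mul hζ.continuous)
  have hvcs : HasCompactSupport v := by
    refine HasCompactSupport.intro hK fun x hx => ?_
    have : ζ x = 0 := image_eq_zero_of_notMem_tsupport fun h' => hx (hζK h')
    rw [hv]
    simp only [this, zero_mul, mul_zero, sub_zero]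
  obtain ⟨T', hT'⟩ := hvcs.exists_bound_of_continuous hvc
  -- where `v` is positive
  have hpos : ∀ x, 0 < v x → x ∈ S ∧ x ∈ tsupport ζ := by
    intro x hx
    have h3 : ζ x * (s * (F x - u x) - m) = v x := by rw [hv]; ring
    rw [← h3] at hx
    have hζ0 : 0 < ζ x := by
      rcases (hζ01 x).1.eq_or_lt with h4 | h4
      · rw [← h4, zero_mul] at hx
        exact absurd hx (lt_irrefl 0)
      · exact h4
    have h5 : 0 < s * (F x - u x) - m := (mul_pos_iff_of_pos_left hζ0).1 hx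
    have h6 : x ∈ tsupport ζ := subset_tsupport _ hζ0.ne'
    have h7 : F x = f x := (hFf x h6).eq_of_nhds
    rw [h7] at h5
    exact ⟨⟨hζK h6, show m ≤ s * (f x - u x) by linarith⟩, h6⟩
  have hle := hk A B c L r hP u G hW.1 s hs F hFs (CCpt.gr_cpt hK hFt) v V hH T'
    (Eventually.of_forall hT')
    (fun φ Φ hφ hφv => hW.2 φ Φ hφ ⟨K, hK, hKU, by
      filter_upwards [hφv] with x hx hxK
      refine hx (not_lt.1 fun h => ?_)
      exact hxK (hpos x h).1.1⟩)
    (Eventually.of_forall fun x hx => by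
      obtain ⟨h3, -⟩ := hpos x hx
      have h4 := hζ1 x h3
      rw [hV]
      simp only [CCpt.gr_const h4, h4.self_of_nhds, one_smul, smul_zero, add_zero, sub_zero])
    σ hσ
    (Eventually.of_forall fun x hx => by
      obtain ⟨h3, h4⟩ := hpos x hx
      have h5 := hFf x h4
      have h6 : 0 < s * (f x - u x) := lt_of_lt_of_le hm0 h3.2
      have h7 := hineq x h3.1 h6
      rw [CCpt.gr_congr h5]
      have h8 : (fun i => PB.hs F i x) = fun i => PB.hs f i x :=
        funext fun i => CCpt.hs_congr h5 i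
      rw [h8]
      exact h7)
  -- contradiction at `x₀`
  have hx₀S : x₀ ∈ S := ⟨hx₀K, show m ≤ s * (f x₀ - u x₀) by linarith⟩
  have hx₀ζ : ζ x₀ = 1 := (hζ1 x₀ hx₀S).self_of_nhds
  have hx₀t : x₀ ∈ tsupport ζ := subset_tsupport _ (by
    rw [Function.mem_support, hx₀ζ]; exact one_ne_zero)
  have hx₀F : F x₀ = f x₀ := (hFf x₀ hx₀t).eq_of_nhds
  have hvx₀ : 0 < v x₀ := by
    rw [hv]
    simp only [hx₀ζ, hx₀F]
    linarith
  have hopen : IsOpen {x | 0 < v x} := isOpen_lt continuous_const hvc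
  have hmeas := hopen.measure_pos volume ⟨x₀, hvx₀⟩
  have hzero : volume {x | 0 < v x} = 0 := by
    have h9 : {x | 0 < v x} = {x | ¬ v x ≤ 0} := by
      ext x
      simp
    rw [h9]
    exact hle
  rw [hzero] at hmeas
  exact absurd hmeas (lt_irrefl _)

end Pool.Agent.PFlow.PB


end

section

/-!
# Block PX, module XORD: comparison for the problem with the additional term
-/

open MeasureTheory Filter Topology Set
open scoped ContDiff RealInnerProductSpace ENNReal

namespace Pool.Agent.PFlow.PB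

open Pool.Agent.PenroseSph Pool.Agent.PFlow

namespace PXOrder

open OrderP Step

/-- The common argument, with test functions which vanish on `Z`. -/
lemma core (hc : CHAIN) {c L m k : ℝ} (hc0 : 0 < c) (hm : L ^ 2 / c + 1 ≤ m) (hk : 0 ≤ k)
    {w : E3 → ℝ} {W a : E3 → E3} {b : E3 → ℝ} (hw : H1 w W) (ha : MemLp a 2) (hb : MemLp b 2)
    {Z : Set E3} (hZ : ∀ᵐ x, x ∈ Z → w x ≤ k)
    (hE : ∀ φ Φ, H1 φ Φ → (∀ᵐ x, x ∈ Z → φ x = 0) → ∫ x, ⟪a x, Φ x⟫ = ∫ x, b x * φ x)
    (hA : ∀ᵐ x, c * ‖W x‖ ^ 2 ≤ ⟪a x, W x⟫)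
    (hB : ∀ᵐ x, k < w x → b x ≤ L * ‖W x‖ - m * (w x - k)) : ∀ᵐ x, w x ≤ k := by
  have hd : ∀ t, deriv (fun t => Psi (t - k)) t = psi (t - k) := by
    intro t
    have := ((hasDeriv_Psi (t - k)).comp t ((hasDerivAt_id t).sub_const k)).deriv
    rw [mul_one] at this
    exact this
  have hH := hc.lip w W (fun t => Psi (t - k)) 1 hw
    (contDiff_Psi.comp (contDiff_id.sub contDiff_const)) (Psi_nonpos (by linarith)) (by
      intro t
      rw [hd, abs_of_nonneg (psi_nonneg _)]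
      exact psi_le_one _)
  simp only [hd] at hH
  have hint := hE _ _ hH (by
    filter_upwards [hZ] with x hx hxZ
    exact Psi_nonpos (by linarith [hx hxZ]))
  have i1 := int_inner ha hH.memG
  have i2 := int_mul _ _ hb hH.memf
  have hzero : ∫ x, (⟪a x, psi (w x - k) • W x⟫ - b x * Psi (w x - k)) = 0 := by
    rw [integral_sub i1 i2, hint, sub_self]
  have hpt : ∀ᵐ x, 0 ≤ ⟪a x, psi (w x - k) • W x⟫ - b x * Psi (w x - k) ∧
      (k < w x → 0 < ⟪a x, psi (w x - k) • W x⟫ - b x * Psi (w x - k)) := by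
    filter_upwards [hA, hB] with x hx1 hx2
    have hpos : k < w x → 0 < ⟪a x, psi (w x - k) • W x⟫ - b x * Psi (w x - k) := by
      intro hkx
      have h1 : 0 < w x - k := by linarith
      have h2 := key (d := ‖W x‖) hc0 hm h1
      have h3 := hx2 hkx
      have h4 := psi_pos h1
      have h5 := Psi_pos h1
      rw [real_inner_smul_right]
      have h6 : c * ‖W x‖ ^ 2 * psi (w x - k) ≤ psi (w x - k) * ⟪a x, W x⟫ := by
        rw [mul_comm]
        exact mul_le_mul_of_nonneg_left hx1 h4.le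
      have h7 : b x * Psi (w x - k) ≤ (L * ‖W x‖ - m * (w x - k)) * Psi (w x - k) :=
        mul_le_mul_of_nonneg_right h3 h5.le
      nlinarith
    refine ⟨?_, hpos⟩
    by_cases hkx : k < w x
    · exact (hpos hkx).le
    · rw [not_lt] at hkx
      rw [psi_nonpos (by linarith), Psi_nonpos (by linarith)]
      simp
  have hnn : 0 ≤ᵐ[volume] fun x => ⟪a x, psi (w x - k) • W x⟫ - b x * Psi (w x - k) := by
    filter_upwards [hpt] with x hx
    exact hx.1
  have hz := (integral_eq_zero_iff_of_nonneg_ae hnn (i1.sub i2)).mp hzero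
  filter_upwards [hpt, hz] with x hx hx0
  by_contra hcon
  rw [not_le] at hcon
  have := hx.2 hcon
  change _ = (0 : ℝ) at hx0
  linarith

end PXOrder

open OrderP Step in
/-- XORD: comparison for the problem with the additional term. -/
theorem xord_thm (h1 : API1) (hc : CHAIN) : XORD where
  mono := by
    intro A B c L r hP Z w₀ _ m hm v₁ v₂ u₁ u₂ G₁ G₂ hv₁ hv₂ hs₁ hs₂ hv
    obtain ⟨hu₁, hz₁, he₁⟩ := hs₁
    obtain ⟨hu₂, hz₂, he₂⟩ := hs₂
    have hmp : 0 < m := by
      have := hP.c_pos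
      have : 0 ≤ L ^ 2 / c := by positivity
      linarith
    have hm' : L ^ 2 / c + 1 ≤ m := by linarith
    have ma₁ := memA hP hu₁.memG
    have ma₂ := memA hP hu₂.memG
    have mb₁ : MemLp (fun x => B x (G₁ x) - m * (u₁ x - v₁ x)) 2 :=
      (memB hP hu₁.memG).sub ((hu₁.memf.sub hv₁).const_mul m)
    have mb₂ : MemLp (fun x => B x (G₂ x) - m * (u₂ x - v₂ x)) 2 :=
      (memB hP hu₂.memG).sub ((hu₂.memf.sub hv₂).const_mul m)
    have := PXOrder.core hc (L := L) hP.c_pos hm' le_rfl (h1.sub _ _ _ _ hu₁ hu₂) (ma₁.sub ma₂)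
      (mb₁.sub mb₂) (Z := Z) (by
        filter_upwards [hz₁, hz₂] with x hx1 hx2 hxZ
        change u₁ x - u₂ x ≤ 0
        rw [hx1 hxZ, hx2 hxZ, sub_self]) (by
        intro φ Φ hφ hφZ
        have e1 : ∫ x, ⟪((fun x => A x (G₁ x)) - fun x => A x (G₂ x)) x, Φ x⟫
            = ∫ x, (⟪A x (G₁ x), Φ x⟫ - ⟪A x (G₂ x), Φ x⟫) := by
          refine integral_congr_ae (Eventually.of_forall fun x => ?_)
          simp only [Pi.sub_apply]
          rw [inner_sub_left]
        rw [e1, integral_sub (int_inner ma₁ hφ.memG) (int_inner ma₂ hφ.memG), he₁ φ Φ hφ hφZ,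
          he₂ φ Φ hφ hφZ, ← integral_sub (int_mul _ _ mb₁ hφ.memf) (int_mul _ _ mb₂ hφ.memf)]
        refine integral_congr_ae (Eventually.of_forall fun x => ?_)
        simp only [Pi.sub_apply]
        ring) (Eventually.of_forall fun x => hP.mono x _ _) (by
        filter_upwards [hv] with x hx hpos
        simp only [Pi.sub_apply]
        have h2 := (le_abs_self _).trans (hP.lipB x (G₁ x) (G₂ x))
        have h5 : 0 ≤ m * (v₂ x - v₁ x) := mul_nonneg hmp.le (by linarith)
        nlinarith)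
    filter_upwards [this] with x hx
    linarith
  nonneg := by
    intro A B c L r hP Z w₀ _ hw₀ m hm v u G hv hs hvn
    obtain ⟨hu, hz, he⟩ := hs
    have hmp : 0 < m := by
      have := hP.c_pos
      have : 0 ≤ L ^ 2 / c := by positivity
      linarith
    have hm' : L ^ 2 / c + 1 ≤ m := by linarith
    have ma := memA hP hu.memG
    have mb : MemLp (fun x => B x (G x) - m * (u x - v x)) 2 :=
      (memB hP hu.memG).sub ((hu.memf.sub hv).const_mul m)
    have := PXOrder.core hc (L := L) hP.c_pos hm' le_rfl (h1.smul (-1) _ _ hu) ma.neg mb.neg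
      (Z := Z) (by
        filter_upwards [hz] with x hx hxZ
        rw [hx hxZ]
        have := hw₀ x
        linarith) (by
        intro φ Φ hφ hφZ
        have e1 : ∫ x, ⟪(-fun x => A x (G x)) x, Φ x⟫ = - ∫ x, ⟪A x (G x), Φ x⟫ := by
          rw [← integral_neg]
          refine integral_congr_ae (Eventually.of_forall fun x => ?_)
          simp only [Pi.neg_apply]
          rw [inner_neg_left]
        rw [e1, he φ Φ hφ hφZ, ← integral_neg]
        refine integral_congr_ae (Eventually.of_forall fun x => ?_)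
        simp only [Pi.neg_apply]
        ring) (Eventually.of_forall fun x => by
          have h2 := hP.mono x (G x) 0
          rw [hP.A_zero, sub_zero, sub_zero] at h2
          simp only [Pi.neg_apply]
          rw [neg_one_smul, inner_neg_neg, norm_neg]
          exact h2) (by
        filter_upwards [hvn] with x hx hpos
        simp only [Pi.neg_apply]
        rw [neg_one_smul, norm_neg]
        have h2 := (neg_abs_le _).trans' (neg_le_neg (hP.lipB x (G x) 0))
        rw [hP.B_zero, sub_zero, sub_zero] at h2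
        have h5 : 0 ≤ m * v x := mul_nonneg hmp.le hx
        nlinarith)
    filter_upwards [this] with x hx
    linarith
  le_one := by
    intro A B c L r hP Z w₀ _ hw₀ m hm v u G hv hs hv1
    obtain ⟨hu, hz, he⟩ := hs
    have hmp : 0 < m := by
      have := hP.c_pos
      have : 0 ≤ L ^ 2 / c := by positivity
      linarith
    have hm' : L ^ 2 / c + 1 ≤ m := by linarith
    have ma := memA hP hu.memG
    have mb : MemLp (fun x => B x (G x) - m * (u x - v x)) 2 :=
      (memB hP hu.memG).sub ((hu.memf.sub hv).const_mul m)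
    exact PXOrder.core hc (L := L) hP.c_pos hm' zero_le_one hu ma mb (Z := Z) (by
        filter_upwards [hz] with x hx hxZ
        rw [hx hxZ]
        exact hw₀ x) he
      (Eventually.of_forall fun x => by
          have h2 := hP.mono x (G x) 0
          rw [hP.A_zero, sub_zero, sub_zero] at h2
          exact h2) (by
        filter_upwards [hv1] with x hx hpos
        have h2 := (le_abs_self _).trans (hP.lipB x (G x) 0)
        rw [hP.B_zero, sub_zero, sub_zero] at h2
        have h5 : 0 ≤ m * (1 - v x) := mul_nonneg hmp.le (by linarith)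
        nlinarith)

end Pool.Agent.PFlow.PB


end

section

/-!
# Module XCOLG: the collar metric
-/

open MeasureTheory Filter Topology
open scoped ContDiff ENNReal

namespace Pool.Agent.PFlow

open Pool.Agent.PenroseSph

namespace XCOLGm

open BARBm

/-! ### The factor -/

/-- the facts on the profile which are used -/
structure Prof (τ δ C₁ : ℝ) : Prop where
  smooth : ContDiff ℝ ∞ (phX τ δ)
  zero : ∀ t, t ≤ τ / 2 → phX τ δ t = 0
  bd : ∀ t, 0 ≤ t → 0 ≤ phX τ δ t ∧ phX τ δ t ≤ t ∧ t - τ ≤ phX τ δ t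
  one : ∀ t, δ ≤ t → phX τ δ t = t
  der : ∀ t, 0 ≤ deriv (phX τ δ) t ∧ deriv (phX τ δ) t ≤ 1 + C₁ * τ

variable {τ δ C₁ : ℝ}

theorem phX_nonneg (hτ : 0 < τ) (P : Prof τ δ C₁) (t : ℝ) : 0 ≤ phX τ δ t := by
  rcases le_or_gt 0 t with h | h
  · exact (P.bd t h).1
  · rw [P.zero t (by linarith)]

theorem fac_pos {x : E3} (hx : x ≠ 0) : 0 < facX τ δ x := by
  unfold facX
  have : 0 < ‖x‖ := norm_pos_iff.2 hx
  positivity

theorem norm_fx {x : E3} (hx : x ≠ 0) :
    ‖facX τ δ x • x‖ = Real.exp (phX τ δ (Real.log ‖x‖)) := by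
  have hn : 0 < ‖x‖ := norm_pos_iff.2 hx
  rw [norm_smul, Real.norm_of_nonneg (fac_pos hx).le]
  unfold facX
  field_simp

theorem one_le_norm_fx (hτ : 0 < τ) (P : Prof τ δ C₁) {x : E3} (hx : x ≠ 0) :
    1 ≤ ‖facX τ δ x • x‖ := by
  rw [norm_fx hx]
  exact Real.one_le_exp (phX_nonneg hτ P _)

theorem norm_fx_le (P : Prof τ δ C₁) {x : E3} (hx : 1 ≤ ‖x‖) :
    ‖facX τ δ x • x‖ ≤ ‖x‖ := by
  have hn : 0 < ‖x‖ := by linarith
  rw [norm_fx (norm_pos_iff.1 hn), ← Real.exp_log hn]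
  rw [Real.exp_log hn]
  calc Real.exp (phX τ δ (Real.log ‖x‖)) ≤ Real.exp (Real.log ‖x‖) :=
        Real.exp_le_exp.2 (P.bd _ (Real.log_nonneg hx)).2.1
    _ = ‖x‖ := Real.exp_log hn

theorem fac_near (P : Prof τ δ C₁) {x : E3} (hx : x ≠ 0) (h : ‖x‖ ≤ Real.exp (τ / 2)) :
    facX τ δ x = ‖x‖⁻¹ := by
  have hn : 0 < ‖x‖ := norm_pos_iff.2 hx
  have h1 : Real.log ‖x‖ ≤ τ / 2 := by
    rw [← Real.log_exp (τ / 2)]
    exact Real.log_le_log hn h
  unfold facX
  rw [P.zero _ h1, Real.exp_zero, one_div]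

theorem fac_far (P : Prof τ δ C₁) {x : E3} (h : Real.exp δ ≤ ‖x‖) : facX τ δ x = 1 := by
  have hn : 0 < ‖x‖ := (Real.exp_pos _).trans_le h
  have h1 : δ ≤ Real.log ‖x‖ := by
    rw [← Real.log_exp δ]
    exact Real.log_le_log (Real.exp_pos _) h
  unfold facX
  rw [P.one _ h1, Real.exp_log hn, div_self hn.ne']

theorem fac_le_one (P : Prof τ δ C₁) {x : E3} (h : 1 ≤ ‖x‖) : facX τ δ x ≤ 1 := by
  have hn : 0 < ‖x‖ := by linarith
  have hx : x ≠ 0 := norm_pos_iff.1 hn
  have h1 := norm_fx_le P h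
  rw [norm_smul, Real.norm_of_nonneg (fac_pos hx).le] at h1
  have h2 : facX τ δ x * ‖x‖ ≤ 1 * ‖x‖ := by linarith
  exact le_of_mul_le_mul_right h2 hn

theorem fac_ge (hτ : 0 < τ) (P : Prof τ δ C₁) {x : E3} (hx : x ≠ 0) :
    1 - τ ≤ facX τ δ x := by
  have hn : 0 < ‖x‖ := norm_pos_iff.2 hx
  rcases le_or_gt 1 ‖x‖ with h | h
  · have h1 := (P.bd _ (Real.log_nonneg h)).2.2
    have h2 : facX τ δ x = Real.exp (phX τ δ (Real.log ‖x‖) - Real.log ‖x‖) := by
      unfold facX
      rw [Real.exp_sub, Real.exp_log hn]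
    rw [h2]
    have h3 : Real.exp (-τ) ≤ Real.exp (phX τ δ (Real.log ‖x‖) - Real.log ‖x‖) :=
      Real.exp_le_exp.2 (by linarith)
    have h4 := Real.add_one_le_exp (-τ)
    linarith
  · have h1 : ‖x‖ ≤ Real.exp (τ / 2) := h.le.trans (Real.one_le_exp (by linarith))
    rw [fac_near P hx h1]
    have h2 : 1 ≤ ‖x‖⁻¹ := (one_le_inv₀ hn).2 h.le
    linarith

theorem fac_le_four (hτ : 0 < τ) (P : Prof τ δ C₁) {x : E3} (h : 1 / 4 ≤ ‖x‖) :
    facX τ δ x ≤ 4 := by
  have hn : 0 < ‖x‖ := by linarith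
  have hx : x ≠ 0 := norm_pos_iff.1 hn
  rcases le_or_gt 1 ‖x‖ with h' | h'
  · linarith [fac_le_one P h']
  · have h1 : ‖x‖ ≤ Real.exp (τ / 2) := h'.le.trans (Real.one_le_exp (by linarith))
    rw [fac_near P hx h1, inv_le_comm₀ hn (by norm_num)]
    linarith

theorem norm_fx_le_four (hτ : 0 < τ) (P : Prof τ δ C₁) {x : E3} (h : 1 / 4 ≤ ‖x‖)
    (h4 : ‖x‖ ≤ 4) : ‖facX τ δ x • x‖ ≤ 4 := by
  have hn : 0 < ‖x‖ := by linarith
  have hx : x ≠ 0 := norm_pos_iff.1 hn
  rcases le_or_gt 1 ‖x‖ with h' | h'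
  · linarith [norm_fx_le P h']
  · have h1 : ‖x‖ ≤ Real.exp (τ / 2) := h'.le.trans (Real.one_le_exp (by linarith))
    rw [norm_smul, Real.norm_of_nonneg (fac_pos hx).le, fac_near P hx h1,
      inv_mul_cancel₀ hn.ne']
    norm_num

/-- the radial profile of the factor -/
noncomputable def rr (τ δ r : ℝ) : ℝ := Real.exp (phX τ δ (Real.log r)) / r

theorem hasDerivAt_rr (P : Prof τ δ C₁) {r : ℝ} (hr : 0 < r) :
    HasDerivAt (rr τ δ)
      (Real.exp (phX τ δ (Real.log r)) * (deriv (phX τ δ) (Real.log r) - 1) / r ^ 2) r := by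
  have h1 : HasDerivAt (phX τ δ) (deriv (phX τ δ) (Real.log r)) (Real.log r) :=
    ((P.smooth.differentiable (by simp)) _).hasDerivAt
  have h2 := ((h1.comp r (Real.hasDerivAt_log hr.ne')).exp).div (hasDerivAt_id r) hr.ne'
  refine h2.congr_deriv ?_
  simp only [Function.comp, id]
  field_simp

theorem contDiffAt_fac (P : Prof τ δ C₁) {x : E3} (hx : x ≠ 0) :
    ContDiffAt ℝ ∞ (facX τ δ) x := by
  have hn : ‖x‖ ≠ 0 := norm_ne_zero_iff.2 hx
  unfold facX
  have h0 : ContDiffAt ℝ ∞ (fun y : E3 => ‖y‖) x := contDiffAt_norm ℝ hx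
  have h1 : ContDiffAt ℝ ∞ (fun y : E3 => phX τ δ (Real.log ‖y‖)) x :=
    P.smooth.contDiffAt.comp x (h0.log hn)
  exact h1.exp.div h0 hn

theorem pd_fac (P : Prof τ δ C₁) {x : E3} (hx : x ≠ 0) (m : Fin 3) :
    pd m (facX τ δ) x = Real.exp (phX τ δ (Real.log ‖x‖)) *
      (deriv (phX τ δ) (Real.log ‖x‖) - 1) / ‖x‖ ^ 2 * (x m / ‖x‖) :=
  pd_radial hx (hasDerivAt_rr P (norm_pos_iff.2 hx))

theorem abs_coord_le (x : E3) (m : Fin 3) : |x m| ≤ ‖x‖ := by
  have h := norm_sq_eq x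
  have h1 : x m ^ 2 ≤ ‖x‖ ^ 2 := by
    rw [h]
    fin_cases m <;> simp <;> nlinarith [sq_nonneg (x 0), sq_nonneg (x 1), sq_nonneg (x 2)]
  exact abs_le_of_sq_le_sq h1 (norm_nonneg x)

theorem pd_fac_le (hτ : 0 < τ) (hτ1 : τ ≤ 1) (hC : 0 < C₁) (P : Prof τ δ C₁) {x : E3}
    (h : 1 / 4 ≤ ‖x‖) (h4 : ‖x‖ ≤ 4) (m : Fin 3) :
    |pd m (facX τ δ) x| ≤ 64 * (1 + C₁) := by
  have hn : 0 < ‖x‖ := by linarith
  have hx : x ≠ 0 := norm_pos_iff.1 hn
  rw [pd_fac P hx]
  have e1 : |Real.exp (phX τ δ (Real.log ‖x‖))| ≤ 4 := by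
    rw [abs_of_pos (Real.exp_pos _), ← norm_fx hx]
    exact norm_fx_le_four hτ P h h4
  have e2 : |deriv (phX τ δ) (Real.log ‖x‖) - 1| ≤ 1 + C₁ := by
    obtain ⟨a, b⟩ := P.der (Real.log ‖x‖)
    have : C₁ * τ ≤ C₁ * 1 := mul_le_mul_of_nonneg_left hτ1 hC.le
    rw [abs_le]
    constructor <;> linarith
  have e3 : |(‖x‖ ^ 2)⁻¹| ≤ 16 := by
    rw [abs_of_pos (by positivity), inv_le_comm₀ (by positivity) (by norm_num)]
    nlinarith
  have e4 : |x m / ‖x‖| ≤ 1 := by
    rw [abs_div, abs_of_pos hn, div_le_one hn]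
    exact abs_coord_le x m
  rw [div_eq_mul_inv]
  refine (mul_le (mul_le (mul_le e1 e2) e3) e4).trans (le_of_eq ?_)
  ring

/-! ### The field F -/

/-- the stretched metric -/
noncomputable def FF (τ δ : ℝ) (g : TensorField) : TensorField := fun x =>
  facX τ δ x ^ 2 • g (facX τ δ x • x)

theorem isOpen_outside (δ₀ : ℝ) : IsOpen (Outside δ₀) :=
  isOpen_lt continuous_const continuous_norm

theorem mem_outside {δ₀ : ℝ} (h : 0 < δ₀) {y : E3} (hy : 1 ≤ ‖y‖) : y ∈ Outside δ₀ := by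
  show 1 - δ₀ < ‖y‖
  linarith

theorem contDiffAt_fx (P : Prof τ δ C₁) {x : E3} (hx : x ≠ 0) :
    ContDiffAt ℝ ∞ (fun y : E3 => facX τ δ y • y) x :=
  (contDiffAt_fac P hx).smul contDiffAt_id

theorem contDiffAt_g {g : TensorField} {δ₀ : ℝ} (hδ₀ : 0 < δ₀)
    (hg : ∀ i j, ContDiffOn ℝ ∞ (fun x => g x i j) (Outside δ₀)) {y : E3} (hy : 1 ≤ ‖y‖)
    (i j : Fin 3) : ContDiffAt ℝ ∞ (fun z => g z i j) y :=
  (hg i j).contDiffAt ((isOpen_outside δ₀).mem_nhds (mem_outside hδ₀ hy))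

theorem FF_contDiffAt {g : TensorField} {δ₀ : ℝ} (hδ₀ : 0 < δ₀)
    (hg : ∀ i j, ContDiffOn ℝ ∞ (fun x => g x i j) (Outside δ₀)) (hτ : 0 < τ)
    (P : Prof τ δ C₁) {x : E3} (hx : x ≠ 0) (i j : Fin 3) :
    ContDiffAt ℝ ∞ (fun y => FF τ δ g y i j) x := by
  have h1 : (fun y => FF τ δ g y i j) = fun y => facX τ δ y ^ 2 *
      g (facX τ δ y • y) i j := by
    funext y
    simp only [FF, Matrix.smul_apply, smul_eq_mul]
  rw [h1]
  refine ((contDiffAt_fac P hx).pow 2).mul ?_
  exact ContDiffAt.comp x (g := fun z => g z i j)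
    (contDiffAt_g hδ₀ hg (one_le_norm_fx hτ P hx) i j) (contDiffAt_fx P hx)

theorem FF_metric {g : TensorField} {δ₀ : ℝ} (hδ₀ : 0 < δ₀) (hg : MetricOn (Outside δ₀) g)
    (hτ : 0 < τ) (P : Prof τ δ C₁) : MetricOn {0}ᶜ (FF τ δ g) where
  smooth := fun i j x hx =>
    (FF_contDiffAt hδ₀ hg.smooth hτ P (by simpa using hx) i j).contDiffWithinAt
  posDef := by
    intro x hx
    have hx0 : x ≠ 0 := by simpa using hx
    exact (hg.posDef _ (mem_outside hδ₀ (one_le_norm_fx hτ P hx0))).smul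
      (pow_pos (fac_pos hx0) 2)

/-! ### The reflection -/

theorem reflect {B : Bil} {n : Cov} (hn : n 0 ^ 2 + n 1 ^ 2 + n 2 ^ 2 = 1) (hB : B.IsSymm)
    (hs : ∀ v : Cov, ∑ i, n i * v i = 0 → ∑ i, ∑ j, B i j * n i * v j = 0) (i j : Fin 3) :
    ∑ b, (∑ a, Sr n a i * B a b) * Sr n b j = B i j := by
  set l : ℝ := ∑ p, ∑ q, B p q * n p * n q with hl
  have e0 : ∑ p, n p * n p = 1 := by
    rw [Fin.sum_univ_three]
    nlinarith
  have e1 : ∀ b, ∑ a, n a * B a b = l * n b := by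
    intro b
    have h1 := hs (fun k => _root_.Pool.Agent.PFlow.BARBm.dl b k - n b * n k) (by
      have : ∑ k, n k * (_root_.Pool.Agent.PFlow.BARBm.dl b k - n b * n k) = (∑ k, _root_.Pool.Agent.PFlow.BARBm.dl b k * n k) - n b * ∑ k, n k * n k := by
        rw [Finset.mul_sum, ← Finset.sum_sub_distrib]
        exact Finset.sum_congr rfl fun k _ => by ring
      rw [this, dl_sum', e0]
      ring)
    have h2 : ∑ p, ∑ q, B p q * n p * (_root_.Pool.Agent.PFlow.BARBm.dl b q - n b * n q) =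
        (∑ p, ∑ q, _root_.Pool.Agent.PFlow.BARBm.dl b q * (B p q * n p)) - n b * ∑ p, ∑ q, B p q * n p * n q := by
      rw [Finset.mul_sum, ← Finset.sum_sub_distrib]
      refine Finset.sum_congr rfl fun p _ => ?_
      rw [Finset.mul_sum, ← Finset.sum_sub_distrib]
      exact Finset.sum_congr rfl fun q _ => by ring
    rw [h2, ← hl] at h1
    have h3 : ∑ p, ∑ q, _root_.Pool.Agent.PFlow.BARBm.dl b q * (B p q * n p) = ∑ a, n a * B a b := by
      refine Finset.sum_congr rfl fun p _ => ?_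
      rw [dl_sum' (fun q => B p q * n p)]
      ring
    rw [h3] at h1
    linarith
  have hsym : ∀ a b, B a b = B b a := fun a b => by
    have := congrFun (congrFun hB b) a
    rw [Matrix.transpose_apply] at this
    exact this
  have e2 : ∀ b, ∑ a, Sr n a i * B a b = B i b - 2 * n i * (l * n b) := by
    intro b
    rw [← e1 b]
    have : ∑ a, Sr n a i * B a b = (∑ a, _root_.Pool.Agent.PFlow.BARBm.dl i a * B a b) - 2 * n i * ∑ a, n a * B a b := by
      rw [Finset.mul_sum, ← Finset.sum_sub_distrib]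
      refine Finset.sum_congr rfl fun a _ => ?_
      unfold Sr
      have e : _root_.Pool.Agent.PFlow.BARBm.dl a i = _root_.Pool.Agent.PFlow.BARBm.dl i a := by unfold _root_.Pool.Agent.PFlow.BARBm.dl; simp only [eq_comm]
      rw [e]
      ring
    rw [this, dl_sum' (fun a => B a b)]
  have e3 : ∀ f : Fin 3 → ℝ, ∑ b, f b * Sr n b j = f j - 2 * n j * ∑ b, f b * n b := by
    intro f
    have : ∑ b, f b * Sr n b j = (∑ b, _root_.Pool.Agent.PFlow.BARBm.dl j b * f b) - 2 * n j * ∑ b, f b * n b := by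
      rw [Finset.mul_sum, ← Finset.sum_sub_distrib]
      refine Finset.sum_congr rfl fun b _ => ?_
      unfold Sr
      have e : _root_.Pool.Agent.PFlow.BARBm.dl b j = _root_.Pool.Agent.PFlow.BARBm.dl j b := by unfold _root_.Pool.Agent.PFlow.BARBm.dl; simp only [eq_comm]
      rw [e]
      ring
    rw [this, dl_sum' f]
  have e4 : ∑ b, B i b * n b = l * n i := by
    rw [← e1 i]
    refine Finset.sum_congr rfl fun b _ => ?_
    rw [hsym i b]
    ring
  rw [Finset.sum_congr rfl fun b _ => by rw [e2 b], e3 (fun b => B i b - 2 * n i * (l * n b))]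
  have e5 : ∑ b, (B i b - 2 * n i * (l * n b)) * n b = l * n i - 2 * n i * l * ∑ p, n p * n p := by
    rw [← e4, Finset.mul_sum, ← Finset.sum_sub_distrib]
    exact Finset.sum_congr rfl fun b _ => by ring
  rw [e5, e0]
  ring

theorem exp_neg_inv (t : ℝ) : Real.exp (-t) = (Real.exp t)⁻¹ := Real.exp_neg t

theorem FF_near (P : Prof τ δ C₁) (g : TensorField) {x : E3} (hx : x ≠ 0)
    (h : ‖x‖ ≤ Real.exp (τ / 2)) : FF τ δ g x = (‖x‖⁻¹) ^ 2 • g (‖x‖⁻¹ • x) := by
  unfold FF
  rw [fac_near P hx h]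

theorem FF_reflect {g : TensorField} {δ₀ : ℝ} (hδ₀ : 0 < δ₀) (hg : MetricOn (Outside δ₀) g)
    (hsh : Shiftless δ₀ g) (P : Prof τ δ C₁) {x : E3} (hx : x ≠ 0)
    (h1 : Real.exp (-(τ / 2)) ≤ ‖x‖) (h2 : ‖x‖ ≤ Real.exp (τ / 2)) :
    inverted (FF τ δ g) x = FF τ δ g x := by
  have hn : 0 < ‖x‖ := norm_pos_iff.2 hx
  have hι : inversion x ≠ 0 := HSM2.inversion_ne x hx
  have hιn : ‖inversion x‖ = ‖x‖⁻¹ := HSM2.norm_inversion x hx
  have h3 : ‖inversion x‖ ≤ Real.exp (τ / 2) := by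
    rw [hιn, inv_le_comm₀ hn (Real.exp_pos _), ← Real.exp_neg]
    exact h1
  have hy : ‖‖x‖⁻¹ • x‖ = 1 := by
    rw [norm_smul, norm_inv, norm_norm, inv_mul_cancel₀ hn.ne']
  have h4 : ‖inversion x‖⁻¹ • inversion x = ‖x‖⁻¹ • x := by
    rw [hιn, inv_inv]
    unfold inversion
    rw [smul_smul]
    congr 1
    field_simp
  ext i j
  rw [AFDaux.inverted_apply, FF_near P g hx h2, Matrix.smul_apply, smul_eq_mul,
    FF_near P g hι h3, h4, hιn, inv_inv]
  have hyc : ∀ k, (‖x‖⁻¹ • x) k = nu x k := fun k => by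
    unfold nu
    rw [PiLp.smul_apply, smul_eq_mul]
    ring
  have hpd := hg.posDef (‖x‖⁻¹ • x) (mem_outside hδ₀ hy.ge)
  have hsym : (g (‖x‖⁻¹ • x)).IsSymm := by
    have := hpd.1
    rwa [Matrix.IsHermitian, Matrix.conjTranspose_eq_transpose_of_trivial] at this
  have key := reflect (nu_sq hx) hsym (by
    intro v hv
    have := hsh (‖x‖⁻¹ • x) (by rw [hy]; linarith) (by rw [hy]; linarith) v (by
      rw [← hv]
      exact Finset.sum_congr rfl fun k _ => by rw [hyc])
    rw [← this]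
    exact Finset.sum_congr rfl fun k _ => Finset.sum_congr rfl fun l _ => by rw [hyc]) i j
  rw [← key, Finset.mul_sum]
  refine Finset.sum_congr rfl fun b _ => ?_
  rw [jac_eq hx b j, Finset.sum_mul, Finset.sum_mul, Finset.mul_sum]
  refine Finset.sum_congr rfl fun a _ => ?_
  rw [jac_eq hx a i, Matrix.smul_apply, smul_eq_mul]
  field_simp

theorem inverted_inverted (g : TensorField) {x : E3} (hx : x ≠ 0) :
    inverted (inverted g) x = g x := by
  ext i j
  rw [AFDaux.inverted_apply]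
  exact (g_eq g hx i j).symm

theorem inverted_congr {g g' : TensorField} {x : E3} (h : g (inversion x) = g' (inversion x)) :
    inverted g x = inverted g' x := by
  unfold inverted
  rw [h]

/-! ### The collar metric -/

section Col

variable {g : TensorField} {δ₀ : ℝ}

theorem col_ge {x : E3} (h : 1 ≤ ‖x‖) : colG τ δ g x = FF τ δ g x := by
  unfold colG FF
  rw [if_pos h]

theorem col_lt {x : E3} (h : ‖x‖ < 1) : colG τ δ g x = inverted (FF τ δ g) x := by
  unfold colG
  rw [if_neg (not_le.2 h)]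
  rfl

theorem col_near (hδ₀ : 0 < δ₀) (hg : MetricOn (Outside δ₀) g) (hτ : 0 < τ)
    (hsh : Shiftless δ₀ g) (P : Prof τ δ C₁) {x : E3}
    (h1 : Real.exp (-(τ / 2)) ≤ ‖x‖) : colG τ δ g x = FF τ δ g x := by
  rcases le_or_gt 1 ‖x‖ with h | h
  · exact col_ge h
  · have hx : x ≠ 0 := norm_pos_iff.1 ((Real.exp_pos _).trans_le h1)
    rw [col_lt h]
    exact FF_reflect hδ₀ hg hsh P hx h1 (h.le.trans (Real.one_le_exp (by linarith)))

theorem exp_lt_one (hτ : 0 < τ) : Real.exp (-(τ / 2)) < 1 := by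
  rw [← Real.exp_zero]
  exact Real.exp_lt_exp.2 (by linarith)

/-- near a point outside the open unit ball the collar metric is F -/
theorem col_ev_ge (hδ₀ : 0 < δ₀) (hg : MetricOn (Outside δ₀) g) (hτ : 0 < τ)
    (hsh : Shiftless δ₀ g) (P : Prof τ δ C₁) {x : E3} (h : 1 ≤ ‖x‖) :
    ∀ᶠ y in 𝓝 x, colG τ δ g y = FF τ δ g y := by
  have h1 : ∀ᶠ y in 𝓝 x, Real.exp (-(τ / 2)) < ‖y‖ :=
    (isOpen_lt continuous_const continuous_norm).mem_nhds ((exp_lt_one hτ).trans_le h)
  filter_upwards [h1] with y hy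
  exact col_near hδ₀ hg hτ hsh P hy.le

theorem col_ev_lt {x : E3} (h : ‖x‖ < 1) :
    ∀ᶠ y in 𝓝 x, colG τ δ g y = inverted (FF τ δ g) y := by
  have h1 : ∀ᶠ y in 𝓝 x, ‖y‖ < 1 := (isOpen_lt continuous_norm continuous_const).mem_nhds h
  filter_upwards [h1] with y hy
  exact col_lt hy

theorem col_metric (hδ₀ : 0 < δ₀) (hg : MetricOn (Outside δ₀) g) (hτ : 0 < τ)
    (hsh : Shiftless δ₀ g) (P : Prof τ δ C₁) : MetricOn {0}ᶜ (colG τ δ g) := by
  have hF := FF_metric hδ₀ hg hτ P
  have hI := AFDaux.inverted_metric hF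
  constructor
  · intro i j x hx
    have hx0 : x ∈ ({0}ᶜ : Set E3) := hx
    refine ContDiffAt.contDiffWithinAt ?_
    rcases le_or_gt 1 ‖x‖ with h | h
    · refine ((hF.smooth i j).contDiffAt (isOpen_compl_singleton.mem_nhds hx0)).congr_of_eventuallyEq ?_
      filter_upwards [col_ev_ge hδ₀ hg hτ hsh P h] with y hy
      rw [hy]
    · refine ((hI.smooth i j).contDiffAt (isOpen_compl_singleton.mem_nhds hx0)).congr_of_eventuallyEq ?_
      filter_upwards [col_ev_lt (τ := τ) (δ := δ) (g := g) h] with y hy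
      rw [hy]
  · intro x hx
    rcases le_or_gt 1 ‖x‖ with h | h
    · rw [col_ge h]
      exact hF.posDef x hx
    · rw [col_lt h]
      exact hI.posDef x hx

theorem col_inverted (hδ₀ : 0 < δ₀) (hg : MetricOn (Outside δ₀) g) (hτ : 0 < τ)
    (hsh : Shiftless δ₀ g) (P : Prof τ δ C₁) {x : E3} (hx : x ≠ 0) :
    inverted (colG τ δ g) x = colG τ δ g x := by
  have hn : 0 < ‖x‖ := norm_pos_iff.2 hx
  have hιn : ‖inversion x‖ = ‖x‖⁻¹ := HSM2.norm_inversion x hx
  rcases lt_trichotomy ‖x‖ 1 with h | h | h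
  · have h1 : 1 ≤ ‖inversion x‖ := by
      rw [hιn]
      exact (one_le_inv₀ hn).2 h.le
    rw [col_lt h]
    exact inverted_congr (col_ge h1)
  · have h1 : 1 ≤ ‖inversion x‖ := by
      rw [hιn, h, inv_one]
    rw [col_ge h.ge, inverted_congr (col_ge h1)]
    exact FF_reflect hδ₀ hg hsh P hx (by rw [h]; exact (exp_lt_one hτ).le)
      (by rw [h]; exact Real.one_le_exp (by linarith))
  · have h1 : ‖inversion x‖ < 1 := by
      rw [hιn]
      exact inv_lt_one_of_one_lt₀ h
    rw [col_ge h.le, inverted_congr (col_lt h1)]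
    exact inverted_inverted _ hx

end Col

/-! ### Bounds -/

theorem bdK {ι : Type} [Fintype ι] {K : Set E3} (hK : IsCompact K) (F : ι → E3 → ℝ)
    (hF : ∀ i, ContinuousOn (F i) K) : ∃ M : ℝ, 0 < M ∧ ∀ i, ∀ x ∈ K, |F i x| ≤ M := by
  have h1 : ∀ i, ∃ M : ℝ, ∀ x ∈ K, |F i x| ≤ M := by
    intro i
    obtain ⟨M, hM⟩ := hK.exists_bound_of_continuousOn (hF i)
    exact ⟨M, fun x hx => by simpa [Real.norm_eq_abs] using hM x hx⟩
  choose M hM using h1
  refine ⟨1 + ∑ i, |M i|, by positivity, fun i x hx => ?_⟩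
  have h2 : |M i| ≤ ∑ j, |M j| :=
    Finset.single_le_sum (f := fun j => |M j|) (fun j _ => abs_nonneg _) (Finset.mem_univ i)
  have h3 := hM i x hx
  have h4 := le_abs_self (M i)
  linarith

theorem ellK {U K : Set E3} (hK : IsCompact K) (hKU : K ⊆ U) {g : TensorField}
    (hg : MetricOn U g) : ∃ C : ℝ, 0 < C ∧ ∀ x ∈ K, ∀ v : Cov,
      (∑ i, v i ^ 2) ≤ C * ev (g x) v v := by
  have hcomp : IsCompact (K ×ˢ AFDaux.unitCov) := hK.prod AFDaux.isCompact_unitCov
  have hcont : ContinuousOn (fun p : E3 × Cov => ev (g p.1) p.2 p.2) (K ×ˢ AFDaux.unitCov) := by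
    unfold ev
    refine continuousOn_finsetSum _ fun i _ => continuousOn_finsetSum _ fun j _ => ?_
    refine (ContinuousOn.mul ?_ ?_).mul ?_
    · exact ((hg.smooth i j).continuousOn.mono hKU).comp continuousOn_fst (fun p hp => hp.1)
    · exact ((continuous_apply i).comp continuous_snd).continuousOn
    · exact ((continuous_apply j).comp continuous_snd).continuousOn
  have hpos : ∀ p ∈ K ×ˢ AFDaux.unitCov, 0 < ev (g p.1) p.2 p.2 := by
    intro p hp
    refine AFDaux.ev_posDef (hg.posDef _ (hKU hp.1)) ?_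
    intro h0
    have h1 : ∑ i, p.2 i ^ 2 = 1 := hp.2
    rw [h0] at h1
    simp at h1
  obtain ⟨N, hN⟩ := hcomp.exists_bound_of_continuousOn
    (hcont.inv₀ fun p hp => (hpos p hp).ne')
  refine ⟨1 + |N|, by positivity, ?_⟩
  intro x hx v
  by_cases hv : v = 0
  · subst hv
    simp [ev]
  have hs : 0 < ∑ i, v i ^ 2 := by
    obtain ⟨i, hi⟩ := Function.ne_iff.mp hv
    have h1 : v i ^ 2 ≤ ∑ j, v j ^ 2 :=
      Finset.single_le_sum (f := fun j => v j ^ 2) (fun j _ => sq_nonneg _) (Finset.mem_univ i)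
    have h2 : 0 < v i ^ 2 := by
      have : v i ≠ 0 := by simpa using hi
      positivity
    linarith
  set s : ℝ := Real.sqrt (∑ i, v i ^ 2) with hsdef
  have hsp : 0 < s := Real.sqrt_pos.mpr hs
  have hs2 : s ^ 2 = ∑ i, v i ^ 2 := Real.sq_sqrt hs.le
  have hw : (s⁻¹ • v) ∈ AFDaux.unitCov := by
    show ∑ i, (s⁻¹ • v) i ^ 2 = 1
    have : ∑ i, (s⁻¹ • v) i ^ 2 = (s⁻¹) ^ 2 * ∑ i, v i ^ 2 := by
      rw [Finset.mul_sum]
      refine Finset.sum_congr rfl fun i _ => ?_
      simp only [Pi.smul_apply, smul_eq_mul]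
      ring
    rw [this, ← hs2]
    field_simp
  have hmem : (x, s⁻¹ • v) ∈ K ×ˢ AFDaux.unitCov := ⟨hx, hw⟩
  have hev : ev (g x) v v = s ^ 2 * ev (g x) (s⁻¹ • v) (s⁻¹ • v) := by
    rw [AFDaux.ev_smul]
    field_simp
  have hp := hpos _ hmem
  have h2 := hN _ hmem
  simp only [Real.norm_eq_abs, Pi.inv_apply] at h2 hp
  set E : ℝ := ev (g x) (s⁻¹ • v) (s⁻¹ • v) with hE
  rw [← hs2, hev]
  rw [abs_of_pos (inv_pos.mpr hp)] at h2
  have h4 : 1 ≤ (1 + |N|) * E := by
    have h5 : E⁻¹ ≤ 1 + |N| := by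
      have := le_abs_self N
      linarith
    calc (1 : ℝ) = E⁻¹ * E := by field_simp
      _ ≤ (1 + |N|) * E := mul_le_mul_of_nonneg_right h5 hp.le
  nlinarith [sq_nonneg s]

theorem ev_le {B : Bil} {M : ℝ} (hB : ∀ i j, |B i j| ≤ M) (v : Cov) :
    ev B v v ≤ 3 * M * ∑ i, v i ^ 2 := by
  have hM : 0 ≤ M := (abs_nonneg _).trans (hB 0 0)
  have h1 : ev B v v ≤ ∑ i, ∑ j, M * (|v i| * |v j|) := by
    unfold ev
    refine Finset.sum_le_sum fun i _ => Finset.sum_le_sum fun j _ => ?_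
    refine (le_abs_self _).trans ?_
    rw [abs_mul, abs_mul, mul_assoc]
    exact mul_le_mul_of_nonneg_right (hB i j) (by positivity)
  refine h1.trans ?_
  simp only [Fin.sum_univ_three]
  have q0 := sq_abs (v 0)
  have q1 := sq_abs (v 1)
  have q2 := sq_abs (v 2)
  have k1 := mul_nonneg hM (sq_nonneg (|v 0| - |v 1|))
  have k2 := mul_nonneg hM (sq_nonneg (|v 0| - |v 2|))
  have k3 := mul_nonneg hM (sq_nonneg (|v 1| - |v 2|))
  rw [← q0, ← q1, ← q2]
  nlinarith

theorem ev_conj (A B : Bil) (v : Cov) :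
    ev (A.transpose * B * A) v v = ev B (A.mulVec v) (A.mulVec v) := by
  simp only [ev, Matrix.mul_apply, Matrix.transpose_apply, Matrix.mulVec, dotProduct,
    Fin.sum_univ_three]
  ring

theorem sum_sq_mulVec {x : E3} (hx : x ≠ 0) (v : Cov) :
    ∑ i, ((inversionJac x).mulVec v) i ^ 2 = (‖x‖ ^ 2)⁻¹ ^ 2 * ∑ i, v i ^ 2 := by
  have h1 : ∑ i, ((inversionJac x).mulVec v) i ^ 2 =
      ev 1 ((inversionJac x).mulVec v) ((inversionJac x).mulVec v) := by
    simp only [ev, Fin.sum_univ_three, Matrix.one_apply]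
    simp
    ring
  rw [h1, ← ev_conj, Matrix.mul_one, AFDaux.jac_transpose, AFDaux.jac_sq hx]
  simp only [ev, Fin.sum_univ_three, Matrix.one_apply, Matrix.smul_apply, smul_eq_mul]
  simp
  ring

/-- the bounds for the data on the compact annulus -/
structure Bds (g : TensorField) (M Λ : ℝ) : Prop where
  pos : 0 < M
  posL : 0 < Λ
  val : ∀ y : E3, 1 ≤ ‖y‖ → ‖y‖ ≤ 4 → ∀ i j, |g y i j| ≤ M
  der : ∀ y : E3, 1 ≤ ‖y‖ → ‖y‖ ≤ 4 → ∀ i j m, |pd m (fun z => g z i j) y| ≤ M
  fd : ∀ y : E3, 1 ≤ ‖y‖ → ‖y‖ ≤ 4 → ∀ i j, ‖fderiv ℝ (fun z => g z i j) y‖ ≤ M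
  ell : ∀ y : E3, 1 ≤ ‖y‖ → ‖y‖ ≤ 4 → ∀ v : Cov, (∑ i, v i ^ 2) ≤ Λ * ev (g y) v v

theorem exists_bds {g : TensorField} {δ₀ : ℝ} (hδ₀ : 0 < δ₀) (hg : MetricOn (Outside δ₀) g) :
    ∃ M Λ : ℝ, Bds g M Λ := by
  have hK := AFDaux.isCompact_cAnn 1 4
  have hKU : cAnn 1 4 ⊆ Outside δ₀ := fun y hy => mem_outside hδ₀ hy.1
  have hO := isOpen_outside δ₀
  have hfd : ∀ i j, ContDiffOn ℝ ∞ (fderiv ℝ (fun z => g z i j)) (Outside δ₀) := fun i j =>
    (hg.smooth i j).fderiv_of_isOpen hO (by simp)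
  obtain ⟨M0, hM0, b0⟩ := bdK (ι := Fin 3 × Fin 3) hK (fun p x => g x p.1 p.2)
    (fun p => (hg.smooth p.1 p.2).continuousOn.mono hKU)
  obtain ⟨M1, hM1, b1⟩ := bdK (ι := Fin 3 × Fin 3 × Fin 3) hK
    (fun p x => pd p.2.2 (fun z => g z p.1 p.2.1) x) (fun p => by
      have h : ContDiffOn ℝ ∞ (pd p.2.2 (fun z => g z p.1 p.2.1)) (Outside δ₀) := by
        unfold pd
        exact (hfd p.1 p.2.1).clm_apply contDiffOn_const
      exact h.continuousOn.mono hKU)
  obtain ⟨M2, hM2, b2⟩ := bdK (ι := Fin 3 × Fin 3) hK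
    (fun p x => ‖fderiv ℝ (fun z => g z p.1 p.2) x‖)
    (fun p => ((hfd p.1 p.2).continuousOn.mono hKU).norm)
  obtain ⟨Λ, hΛ, hell⟩ := ellK hK hKU hg
  refine ⟨M0 + M1 + M2, Λ, by positivity, hΛ, ?_, ?_, ?_, ?_⟩
  · intro y h1 h2 i j
    have := b0 (i, j) y ⟨h1, h2⟩
    simp only at this
    linarith
  · intro y h1 h2 i j m
    have := b1 (i, j, m) y ⟨h1, h2⟩
    simp only at this
    linarith
  · intro y h1 h2 i j
    have := b2 (i, j) y ⟨h1, h2⟩
    simp only [abs_norm] at this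
    linarith
  · intro y h1 h2 v
    exact hell y ⟨h1, h2⟩ v

section Fin

variable {g : TensorField} {δ₀ M Λ : ℝ}

theorem FF_le (hτ : 0 < τ) (P : Prof τ δ C₁) (B : Bds g M Λ) {x : E3} (h : 1 / 4 ≤ ‖x‖)
    (h4 : ‖x‖ ≤ 4) (i j : Fin 3) : |FF τ δ g x i j| ≤ 16 * M := by
  have hx : x ≠ 0 := norm_pos_iff.1 (by linarith)
  simp only [FF, Matrix.smul_apply, smul_eq_mul]
  have e1 : |facX τ δ x| ≤ 4 := by
    rw [abs_of_pos (fac_pos hx)]
    exact fac_le_four hτ P h
  have e2 : |facX τ δ x ^ 2| ≤ 16 := by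
    rw [pow_two]
    exact (mul_le e1 e1).trans (by norm_num)
  exact mul_le e2 (B.val _ (one_le_norm_fx hτ P hx) (norm_fx_le_four hτ P h h4) i j)

theorem FF_pd_le (hδ₀ : 0 < δ₀) (hg : MetricOn (Outside δ₀) g) (hτ : 0 < τ) (hτ1 : τ ≤ 1)
    (hC : 0 < C₁) (P : Prof τ δ C₁) (B : Bds g M Λ) {x : E3} (h : 1 / 4 ≤ ‖x‖)
    (h4 : ‖x‖ ≤ 4) (i j m : Fin 3) : |pd m (fun y => FF τ δ g y i j) x| ≤
      512 * (1 + C₁) * M + 48 * M * (256 * (1 + C₁) + 4) := by
  have hx : x ≠ 0 := norm_pos_iff.1 (by linarith)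
  have hy1 := one_le_norm_fx hτ P hx
  have hy4 := norm_fx_le_four hτ P h h4
  have h1 : (fun y => FF τ δ g y i j) = fun y => (facX τ δ y * facX τ δ y) *
      (fun z => g z i j) (facX τ δ y • y) := by
    funext y
    simp only [FF, Matrix.smul_apply, smul_eq_mul, pow_two]
  have dfac : DifferentiableAt ℝ (facX τ δ) x := (contDiffAt_fac P hx).differentiableAt (by simp)
  have dfx : DifferentiableAt ℝ (fun y : E3 => facX τ δ y • y) x :=
    (contDiffAt_fx P hx).differentiableAt (by simp)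
  have dg : DifferentiableAt ℝ (fun z => g z i j) (facX τ δ x • x) :=
    (contDiffAt_g hδ₀ hg.smooth hy1 i j).differentiableAt (by simp)
  have dc : DifferentiableAt ℝ (fun y : E3 => (fun z => g z i j) (facX τ δ y • y)) x :=
    DifferentiableAt.comp x (f := fun y : E3 => facX τ δ y • y) (g := fun z => g z i j) dg dfx
  have hfac : |facX τ δ x| ≤ 4 := by
    rw [abs_of_pos (fac_pos hx)]
    exact fac_le_four hτ P h
  have hD := pd_fac_le hτ hτ1 hC P h h4 m
  rw [h1, pd_mul (dfac.fun_mul dfac) dc, pd_mul dfac dfac,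
    PenroseConvex.COVC.pd_comp (f := fun z => g z i j) (Φ := fun y : E3 => facX τ δ y • y)
      dg dfx]
  have e1 : ∀ c, |PenroseConvex.jac (fun y : E3 => facX τ δ y • y) x c m| ≤
      256 * (1 + C₁) + 4 := by
    intro c
    have h2 : PenroseConvex.jac (fun y : E3 => facX τ δ y • y) x c m =
        pd m (fun y => facX τ δ y * y c) x := by
      simp only [PenroseConvex.jac, Matrix.of_apply]
      rfl
    rw [h2, pd_mul dfac (differentiableAt_coord c), pd_coord]
    have h3 : |if m = c then (1 : ℝ) else 0| ≤ 1 := by split_ifs <;> norm_num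
    have h5 : |x c| ≤ 4 := (abs_coord_le x c).trans h4
    first
      | exact (add_le (mul_le hD h5) (mul_le hfac h3)).trans (le_of_eq (by ring))
      | exact (add_le (mul_le hfac h3) (mul_le h5 hD)).trans (le_of_eq (by ring))
      | exact (add_le (mul_le hfac h3) (mul_le hD h5)).trans (le_of_eq (by ring))
      | exact (add_le (mul_le hD h5) (mul_le h3 hfac)).trans (le_of_eq (by ring))
  have e2 := sum1_le fun c => mul_le (B.der _ hy1 hy4 i j c) (e1 c)
  have e3 := B.val _ hy1 hy4 i j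
  have f1 := add_le (mul_le hfac hD) (mul_le hfac hD)
  have f2 := add_le (mul_le hD hfac) (mul_le hD hfac)
  have f3 := add_le (mul_le hD hfac) (mul_le hfac hD)
  have f4 := add_le (mul_le hfac hD) (mul_le hD hfac)
  have e5 := mul_le hfac hfac
  first
    | exact (add_le (mul_le f1 e3) (mul_le e5 e2)).trans (le_of_eq (by ring))
    | exact (add_le (mul_le f2 e3) (mul_le e5 e2)).trans (le_of_eq (by ring))
    | exact (add_le (mul_le f3 e3) (mul_le e5 e2)).trans (le_of_eq (by ring))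
    | exact (add_le (mul_le f4 e3) (mul_le e5 e2)).trans (le_of_eq (by ring))
    | exact (add_le (mul_le e5 e2) (mul_le e3 f1)).trans (le_of_eq (by ring))
    | exact (add_le (mul_le e5 e2) (mul_le e3 f2)).trans (le_of_eq (by ring))
    | exact (add_le (mul_le e5 e2) (mul_le e3 f3)).trans (le_of_eq (by ring))
    | exact (add_le (mul_le e5 e2) (mul_le e3 f4)).trans (le_of_eq (by ring))

theorem FF_ell (hτ : 0 < τ) (hτ1 : τ ≤ 1 / 2) (P : Prof τ δ C₁) (B : Bds g M Λ) {x : E3}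
    (h : 1 / 4 ≤ ‖x‖) (h4 : ‖x‖ ≤ 4) (v : Cov) :
    (∑ i, v i ^ 2) ≤ 4 * Λ * ev (FF τ δ g x) v v := by
  have hx : x ≠ 0 := norm_pos_iff.1 (by linarith)
  have h1 : ev (FF τ δ g x) v v = facX τ δ x ^ 2 * ev (g (facX τ δ x • x)) v v := by
    simp only [ev, FF, Matrix.smul_apply, smul_eq_mul, Fin.sum_univ_three]
    ring
  have h2 := B.ell _ (one_le_norm_fx hτ P hx) (norm_fx_le_four hτ P h h4) v
  have h3 : 1 / 2 ≤ facX τ δ x := by
    have := fac_ge hτ P hx
    linarith
  have h5 : 1 / 4 ≤ facX τ δ x ^ 2 := by nlinarith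
  have h6 : 0 ≤ Λ * ev (g (facX τ δ x • x)) v v :=
    (Finset.sum_nonneg fun i _ => sq_nonneg (v i)).trans h2
  rw [h1]
  nlinarith

theorem inv_le (hδ₀ : 0 < δ₀) (hg : MetricOn (Outside δ₀) g) (hτ : 0 < τ) (P : Prof τ δ C₁)
    {x : E3} (h : 1 / 4 ≤ ‖x‖) (h1 : ‖x‖ ≤ 1) {B0 B1 : ℝ}
    (hB0 : ∀ a b, |FF τ δ g (inversion x) a b| ≤ B0)
    (hB1 : ∀ c a b, |pd c (fun y => FF τ δ g y a b) (inversion x)| ≤ B1) (i j : Fin 3) :
    |inverted (FF τ δ g) x i j| ≤ 20736 * B0 ∧
    ∀ m, |pd m (fun y => inverted (FF τ δ g) y i j) x| ≤ 774144 * B0 + 2985984 * B1 := by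
  have hn : 0 < ‖x‖ := by linarith
  have hx : x ≠ 0 := norm_pos_iff.1 hn
  have hι : inversion x ≠ 0 := HSM2.inversion_ne x hx
  have hnu := nu_sq hx
  have i2 : |(‖x‖ ^ 2)⁻¹| ≤ 16 := by
    rw [abs_of_pos (by positivity), inv_le_comm₀ (by positivity) (by norm_num)]
    nlinarith
  have i3 : |(‖x‖ ^ 3)⁻¹| ≤ 64 := by
    rw [abs_of_pos (by positivity), inv_le_comm₀ (by positivity) (by norm_num)]
    have : (1 / 4 : ℝ) ^ 3 ≤ ‖x‖ ^ 3 := pow_le_pow_left₀ (by norm_num) h 3
    linarith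
  have s1 : ∀ a b, |Sr (nu x) a b / ‖x‖ ^ 2| ≤ 48 := fun a b => by
    rw [div_eq_mul_inv]
    exact (mul_le (Sr_le hnu a b) i2).trans (by norm_num)
  have s2 : ∀ k a b, |kp (nu x) k a b / ‖x‖ ^ 3| ≤ 896 := fun k a b => by
    rw [div_eq_mul_inv]
    exact (mul_le (kp_le hnu k a b) i3).trans (by norm_num)
  constructor
  · rw [AFDaux.inverted_apply]
    have e : ∀ b, |(∑ a, inversionJac x a i * FF τ δ g (inversion x) a b) *
        inversionJac x b j| ≤ 3 * (48 * B0) * 48 := by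
      intro b
      have q : ∀ a b, |inversionJac x a b| ≤ 48 := fun a b => by
        rw [jac_eq hx]
        exact s1 a b
      exact mul_le (sum1_le fun a => mul_le (q a i) (hB0 a b)) (q b j)
    exact (sum1_le e).trans (le_of_eq (by ring))
  · intro m
    have hF := FF_metric hδ₀ hg hτ P
    have hI := AFDaux.inverted_metric hF
    have e0 : ∀ a b, |inverted (inverted (FF τ δ g)) (inversion x) a b| ≤ B0 := fun a b => by
      rw [inverted_inverted _ hι]
      exact hB0 a b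
    have e1 : ∀ c a b, |pd c (fun y => inverted (inverted (FF τ δ g)) y a b) (inversion x)|
        ≤ B1 := fun c a b => by
      have : (fun y => inverted (inverted (FF τ δ g)) y a b) =ᶠ[𝓝 (inversion x)]
          fun y => FF τ δ g y a b := by
        filter_upwards [isOpen_compl_singleton.mem_nhds hι] with y hy
        rw [inverted_inverted _ hy]
      rw [pd_congr this]
      exact hB1 c a b
    rw [pd_g hI hx]
    refine (sum1_le fun b => add_le
      (mul_le (sum1_le fun a => mul_le (s1 a i) (e0 a b)) (s2 m b j))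
      (mul_le (s1 b j) (sum1_le fun a => add_le
        (mul_le (s1 a i) (sum1_le fun c => mul_le (e1 c a b) (s1 c m)))
        (mul_le (e0 a b) (s2 m a i))))).trans (le_of_eq ?_)
    ring

theorem inv_ell {x : E3} (h : 1 / 4 ≤ ‖x‖) (h1 : ‖x‖ ≤ 1) {F : TensorField} {L : ℝ}
    (hL : ∀ w : Cov, (∑ i, w i ^ 2) ≤ L * ev (F (inversion x)) w w) (v : Cov) :
    (∑ i, v i ^ 2) ≤ L * ev (inverted F x) v v := by
  have hn : 0 < ‖x‖ := by linarith
  have hx : x ≠ 0 := norm_pos_iff.1 hn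
  have e1 : ev (inverted F x) v v =
      ev (F (inversion x)) ((inversionJac x).mulVec v) ((inversionJac x).mulVec v) :=
    ev_conj _ _ v
  have e2 := hL ((inversionJac x).mulVec v)
  rw [sum_sq_mulVec hx] at e2
  rw [e1]
  refine le_trans ?_ e2
  have h3 : 1 ≤ (‖x‖ ^ 2)⁻¹ := by
    rw [one_le_inv₀ (by positivity)]
    nlinarith
  have h4 : 1 ≤ (‖x‖ ^ 2)⁻¹ ^ 2 := by nlinarith
  have h5 : 0 ≤ ∑ i, v i ^ 2 := Finset.sum_nonneg fun i _ => sq_nonneg (v i)
  nlinarith

theorem FF_close (hδ₀ : 0 < δ₀) (hg : MetricOn (Outside δ₀) g) (hτ : 0 < τ)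
    (P : Prof τ δ C₁) (B : Bds g M Λ) {x : E3} (h : 1 ≤ ‖x‖) (h4 : ‖x‖ ≤ 4) (i j : Fin 3) :
    |FF τ δ g x i j - g x i j| ≤ 6 * M * τ := by
  have hn : 0 < ‖x‖ := by linarith
  have hx : x ≠ 0 := norm_pos_iff.1 hn
  have hy1 := one_le_norm_fx hτ P hx
  have hf0 := fac_pos (τ := τ) (δ := δ) hx
  have hf1 := fac_le_one P h
  have hf2 := fac_ge hτ P hx
  have hny : ‖facX τ δ x • x‖ = facX τ δ x * ‖x‖ := by
    rw [norm_smul, Real.norm_of_nonneg hf0.le]
  have hseg : ∀ z ∈ segment ℝ (facX τ δ x • x) x, 1 ≤ ‖z‖ ∧ ‖z‖ ≤ 4 := by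
    rintro z ⟨a, b, ha, hb, hab, rfl⟩
    have h1 : a • facX τ δ x • x + b • x = (a * facX τ δ x + b) • x := by
      rw [smul_smul, ← add_smul]
    have h2 : 0 ≤ a * facX τ δ x + b := by positivity
    rw [h1, norm_smul, Real.norm_of_nonneg h2]
    have h3 : facX τ δ x ≤ a * facX τ δ x + b := by nlinarith
    have h5 : a * facX τ δ x + b ≤ 1 := by nlinarith
    rw [hny] at hy1
    constructor
    · nlinarith
    · nlinarith
  have key := Convex.norm_image_sub_le_of_norm_fderiv_le (𝕜 := ℝ)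
    (f := fun z => g z i j) (C := M) (s := segment ℝ (facX τ δ x • x) x)
    (x := facX τ δ x • x) (y := x)
    (fun z hz => (contDiffAt_g hδ₀ hg.smooth (hseg z hz).1 i j).differentiableAt (by simp))
    (fun z hz => B.fd z (hseg z hz).1 (hseg z hz).2 i j) (convex_segment _ _)
    (left_mem_segment ℝ _ _) (right_mem_segment ℝ _ _)
  have hd : ‖x - facX τ δ x • x‖ = (1 - facX τ δ x) * ‖x‖ := by
    have : x - facX τ δ x • x = (1 - facX τ δ x) • x := by rw [sub_smul, one_smul]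
    rw [this, norm_smul, Real.norm_of_nonneg (by linarith)]
  rw [hd, Real.norm_eq_abs] at key
  have hv := B.val _ hy1 (norm_fx_le_four hτ P (by linarith) h4) i j
  simp only [FF, Matrix.smul_apply, smul_eq_mul]
  have e1 : facX τ δ x ^ 2 * g (facX τ δ x • x) i j - g x i j =
      -((1 - facX τ δ x) * (1 + facX τ δ x) * g (facX τ δ x • x) i j) -
        (g x i j - g (facX τ δ x • x) i j) := by ring
  have e2 : |(1 - facX τ δ x) * (1 + facX τ δ x) * g (facX τ δ x • x) i j| ≤ τ * 2 * M := by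
    refine mul_le (mul_le ?_ ?_) hv
    · rw [abs_of_nonneg (by linarith)]
      linarith
    · rw [abs_of_nonneg (by linarith)]
      linarith
  have e3 : M * ((1 - facX τ δ x) * ‖x‖) ≤ M * (τ * 4) := by
    refine mul_le_mul_of_nonneg_left ?_ B.pos.le
    exact mul_le_mul (by linarith) h4 hn.le hτ.le
  rw [e1]
  refine (sub_le (A := τ * 2 * M) (B := M * (τ * 4)) (by rwa [abs_neg]) (key.trans e3)).trans
    (le_of_eq ?_)
  ring

end Fin

end XCOLGm

open XCOLGm BARBm in
/-- XCOLG: the collar metric. -/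
theorem XCOLG (hXPHI : Stmt_XPHI) : Stmt_XCOLG := by
  intro g δ₀ δ hδ₀ hδ hδ2 hexp hg hsh
  obtain ⟨C₁, hC₁, hphi⟩ := hXPHI δ hδ hδ2
  obtain ⟨M, Λ, B⟩ := exists_bds hδ₀ hg
  have hM := B.pos
  have hΛ := B.posL
  set B0 : ℝ := 16 * M with hB0
  set B1 : ℝ := 512 * (1 + C₁) * M + 48 * M * (256 * (1 + C₁) + 4) with hB1
  have hB0p : 0 < B0 := by positivity
  have hB1p : 0 < B1 := by positivity
  set N : ℝ := 20736 * B0 + (774144 * B0 + 2985984 * B1) with hN
  have hNp : 0 < N := by positivity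
  refine ⟨3 * N + 4 * Λ, by positivity, ?_⟩
  intro τ hτ hτδ
  obtain ⟨p1, p2, p3, p4, p5, -, -⟩ := hphi τ hτ hτδ
  have P : Prof τ δ C₁ := ⟨p1, p2, p3, p4, p5⟩
  have hτ1 : τ ≤ 1 / 8 := by linarith
  refine ⟨col_metric hδ₀ hg hτ hsh P, fun x hx => col_inverted hδ₀ hg hτ hsh P hx, ?_, ?_, ?_⟩
  · intro x hx
    have h1 : 1 ≤ ‖x‖ := (Real.one_le_exp hδ.le).trans hx
    rw [col_ge h1]
    unfold FF
    rw [fac_far P hx, one_pow, one_smul, one_smul]
  · intro x h1 h4 i j
    rw [col_ge h1]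
    refine (FF_close hδ₀ hg hτ P B h1 h4 i j).trans ?_
    refine mul_le_mul_of_nonneg_right ?_ hτ.le
    rw [hN, hB0]
    linarith
  · intro x hx h4
    have hn : 0 < ‖x‖ := by linarith
    have hx0 : x ≠ 0 := norm_pos_iff.1 hn
    -- the bounds by N
    have key : (∀ i j, |colG τ δ g x i j| ≤ N ∧
        ∀ m, |pd m (fun y => colG τ δ g y i j) x| ≤ N) ∧
        ∀ v : Cov, (∑ i, v i ^ 2) ≤ 4 * Λ * ev (colG τ δ g x) v v := by
      rcases le_or_gt 1 ‖x‖ with h | h
      · refine ⟨fun i j => ⟨?_, fun m => ?_⟩, fun v => ?_⟩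
        · rw [col_ge h]
          refine (FF_le hτ P B hx h4 i j).trans ?_
          rw [hN]
          linarith
        · have he : (fun y => colG τ δ g y i j) =ᶠ[𝓝 x] fun y => FF τ δ g y i j := by
            filter_upwards [col_ev_ge hδ₀ hg hτ hsh P h] with y hy
            rw [hy]
          rw [pd_congr he]
          refine (FF_pd_le hδ₀ hg hτ (by linarith) hC₁ P B hx h4 i j m).trans ?_
          rw [hN]
          linarith
        · rw [col_ge h]
          exact FF_ell hτ (by linarith) P B hx h4 v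
      · have hιn : ‖inversion x‖ = ‖x‖⁻¹ := HSM2.norm_inversion x hx0
        have hι1 : 1 ≤ ‖inversion x‖ := by
          rw [hιn]
          exact (one_le_inv₀ hn).2 h.le
        have hι4 : ‖inversion x‖ ≤ 4 := by
          rw [hιn, inv_le_comm₀ hn (by norm_num)]
          linarith
        have hb := fun i j => inv_le hδ₀ hg hτ P hx h.le (B0 := B0) (B1 := B1)
          (fun a b => FF_le hτ P B (by linarith) hι4 a b)
          (fun c a b => FF_pd_le hδ₀ hg hτ (by linarith) hC₁ P B (by linarith) hι4 a b c) i j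
        refine ⟨fun i j => ⟨?_, fun m => ?_⟩, fun v => ?_⟩
        · rw [col_lt h]
          refine (hb i j).1.trans ?_
          rw [hN]
          linarith
        · have he : (fun y => colG τ δ g y i j) =ᶠ[𝓝 x]
              fun y => inverted (FF τ δ g) y i j := by
            filter_upwards [col_ev_lt (τ := τ) (δ := δ) (g := g) h] with y hy
            rw [hy]
          rw [pd_congr he]
          refine ((hb i j).2 m).trans ?_
          rw [hN]
          linarith
        · rw [col_lt h]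
          exact inv_ell hx h.le (fun w => FF_ell hτ (by linarith) P B (by linarith) hι4 w) v
    obtain ⟨k1, k2⟩ := key
    refine ⟨fun i j => ⟨(k1 i j).1.trans (by linarith), fun m => ((k1 i j).2 m).trans
      (by linarith)⟩, fun v => ⟨?_, ?_⟩⟩
    · have e1 := k2 v
      have e2 : 0 ≤ ∑ i, v i ^ 2 := Finset.sum_nonneg fun i _ => sq_nonneg (v i)
      have e3 : 0 ≤ ev (colG τ δ g x) v v := by
        have h6 : 0 ≤ 4 * Λ * ev (colG τ δ g x) v v := e2.trans e1
        by_contra hneg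
        push Not at hneg
        nlinarith
      nlinarith
    · have e2 : 0 ≤ ∑ i, v i ^ 2 := Finset.sum_nonneg fun i _ => sq_nonneg (v i)
      refine (ev_le (fun i j => (k1 i j).1) v).trans ?_
      refine mul_le_mul_of_nonneg_right ?_ e2
      linarith

end Pool.Agent.PFlow


end

section

/-!
# XMSIII: the inequality (iii) for the area, exterior case
-/

open MeasureTheory Filter Topology
open scoped ContDiff ENNReal

namespace Pool.Agent.PFlow

open Pool.Agent.PenroseSph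

namespace XMSIIIaux

/-- The volume density of a smooth metric is continuous. -/
theorem continuousOn_volDen {g : TensorField} {U : Set E3} (hg : MetricOn U g) :
    ContinuousOn (volDen g) U := by
  have h1 : ContinuousOn (fun x => (g x).det) U := by
    have : ContinuousOn (fun x => g x) U := by
      refine continuousOn_pi.2 fun i => continuousOn_pi.2 fun j => (hg.smooth i j).continuousOn
    exact (Continuous.matrix_det continuous_id).comp_continuousOn this
  exact h1.sqrt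

/-- A closed annulus is compact. -/
theorem isCompact_cAnn (a b : ℝ) : IsCompact (cAnn a b) := by
  have h1 : IsClosed (cAnn a b) :=
    (isClosed_le continuous_const continuous_norm).inter
      (isClosed_le continuous_norm continuous_const)
  refine (isCompact_closedBall (0 : E3) b).of_isClosed_subset h1 fun x hx => ?_
  rw [mem_closedBall_zero_iff]
  exact hx.2

/-- Restriction of the class `H2On`. -/
theorem h2On_mono {U V : Set E3} {w : E3 → ℝ} {G : E3 → Cov} {M : E3 → Bil} (h : H2On U w G M)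
    (hVU : V ⊆ U) : H2On V w G M where
  cont := h.cont.mono hVU
  memG K hK hKV i := h.memG K hK (hKV.trans hVU) i
  memM K hK hKV i j := h.memM K hK (hKV.trans hVU) i j
  approx K hK hKV := h.approx K hK (hKV.trans hVU)

end XMSIIIaux

open XMSIIIaux in
theorem XMSIII (hXSETW : Stmt_XSETW) (hXPER : Stmt_XPER) (_hBETA : Stmt_BETA)
    (hFLXA : Stmt_FLXA) (hHOLA : Stmt_HOLA) : Stmt_XMSIII := by
  intro P B β hβ D hS hA r hr1 hr2 hloc
  obtain ⟨-, -, -, hH2, -, -, hwm, -, -, -, hcol, -, -, -, -, -, hs1, hs2M, hKlR, hKll⟩ :=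
    hXSETW P D hS
  have he0 := hS.eps_pos
  have he1 := hS.eps_le
  have hgam := hS.gam_ge
  have hl := hS.l_ge
  have htau := hS.tau_pos
  have hlR : D.l ≤ D.R := by linarith
  have hF := hFLXA P.eps β he0 he1 hβ _ _ _ _ _ _ _ _ _ _ _ _ hA (by linarith) (by linarith)
    (by linarith)
  refine ⟨hF.1, ?_⟩
  intro s₀ s₁ A hs0 hs01 hs1' hAU
  set ρ : ℝ := Real.exp D.tau with hρ
  have hρ1 : 1 < ρ := by
    rw [hρ]
    exact Real.one_lt_exp_iff.2 htau
  have hρ2 : ρ < 2 := by
    have h1 : ρ ≤ Real.exp (1 / 2) := by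
      rw [hρ]
      exact Real.exp_le_exp.2 (by linarith [hS.tau_le])
    have h2 : Real.exp (1 / 2) < 2 := by
      have h3 : Real.exp (1 / 2) * Real.exp (1 / 2) = Real.exp 1 := by
        rw [← Real.exp_add]
        norm_num
      have h4 := Real.exp_one_lt_d9
      have h5 := Real.exp_pos (1 / 2)
      nlinarith
    linarith
  have hρ0 : 0 < ρ := by linarith
  have hρr : ρ < r := by linarith
  -- the metric on `|x| > 1`
  have hg : MetricOn {x : E3 | 1 < ‖x‖} D.g := by
    obtain ⟨δ, hδ, hm, -⟩ := hS.smooth0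
    have hsub : {x : E3 | 1 < ‖x‖} ⊆ Outside δ := by
      intro x hx
      have hx' : 1 < ‖x‖ := hx
      show 1 - δ < ‖x‖
      linarith
    exact ⟨fun i j => (hm.smooth i j).mono hsub, fun x hx => hm.posDef x (hsub hx)⟩
  have hH2' : H2On (Ann 1 D.R) (D.w P) (D.Gw P) (D.Mw P) := by
    refine h2On_mono hH2 fun x hx => ⟨?_, hx.2⟩
    have := hx.1
    linarith
  -- the perimeter inequality
  have hP := hXPER D.g (D.w P) (D.Gw P) (D.Mw P) 1 ρ r D.R s₀ s₁ hg le_rfl hρ1 hρr
    (by linarith) hs01 hH2'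
    (fun x hx hxρ => by
      have := hcol x hx.1.le hxρ
      linarith)
    (fun x hx hxr => by
      have := hloc x hx hxr
      linarith) A hAU
  set T : Set E3 := cAnn ρ r ∩ {x | s₀ ≤ D.w P x ∧ D.w P x ≤ s₁} with hT
  have hcO : cAnn ρ r ⊆ D.Om := fun x hx => ⟨lt_of_lt_of_le hρ1 hx.1, by
    have := hx.2
    show ‖x‖ < D.R
    linarith⟩
  have hTO : D.Om ∩ {x | s₀ ≤ D.w P x ∧ D.w P x ≤ s₁} = T := by
    apply Set.Subset.antisymm
    · rintro x ⟨hxO, hx1, hx2⟩
      refine ⟨⟨?_, ?_⟩, hx1, hx2⟩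
      · by_contra hc
        push Not at hc
        have := hcol x hxO.1.le hc.le
        linarith
      · by_contra hc
        push Not at hc
        have := hloc x hxO hc.le
        linarith
    · rintro x ⟨hxc, hx⟩
      exact ⟨hcO hxc, hx⟩
  have hTm : MeasurableSet T := by
    rw [hT]
    exact (isCompact_cAnn ρ r).measurableSet.inter
      ((measurableSet_le measurable_const hwm).inter (measurableSet_le hwm measurable_const))
  -- integrability
  have hs0' : P.eps / 4 / 4 < s₀ := by linarith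
  have hs1'' : s₁ < D.sM P := by linarith
  have hiv : IntegrableOn D.vol T := by
    have := hA.int_vol s₀ s₁ hs0' hs01 hs1''
    rwa [hTO] at this
  have hiX : IntegrableOn (fun x => D.X P x ^ 3 * D.vol x) T := by
    have := hA.int_X s₀ s₁ hs0' hs01 hs1''
    rwa [hTO] at this
  have hTsub : T ⊆ D.Om := fun x hx => hcO hx.1
  have hmX : AEStronglyMeasurable (D.X P) (volume.restrict T) :=
    hA.meas_X.mono_measure (Measure.restrict_mono hTsub le_rfl)
  have hmXe : AEStronglyMeasurable (fun x => D.X P x ^ (1 + P.eps)) (volume.restrict T) := by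
    have : Measurable fun t : ℝ => t ^ (1 + P.eps) := by fun_prop
    exact (this.comp_aemeasurable hmX.aemeasurable).aestronglyMeasurable
  have hiXe : IntegrableOn (fun x => D.X P x ^ (1 + P.eps) * D.vol x) T := by
    refine Integrable.mono' (hiv.add hiX) (hmXe.mul hiv.aestronglyMeasurable) ?_
    refine Filter.Eventually.of_forall fun x => ?_
    have hX0 := hA.X_nonneg x
    have hv0 := hA.vol_nonneg x
    have h1 : D.X P x ^ (1 + P.eps) ≤ 1 + D.X P x ^ 3 := by
      rcases le_total (D.X P x) 1 with h | h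
      · have h2 : D.X P x ^ (1 + P.eps) ≤ 1 := Real.rpow_le_one hX0 h (by linarith)
        have h3 : 0 ≤ D.X P x ^ 3 := pow_nonneg hX0 3
        linarith
      · have h2 : D.X P x ^ (1 + P.eps) ≤ D.X P x ^ (3 : ℝ) :=
          Real.rpow_le_rpow_of_exponent_le h (by linarith)
        have h3 : D.X P x ^ (3 : ℝ) = D.X P x ^ (3 : ℕ) := by
          rw [← Real.rpow_natCast]; norm_num
        rw [h3] at h2
        linarith
    have h0 : 0 ≤ D.X P x ^ (1 + P.eps) * D.vol x := mul_nonneg (Real.rpow_nonneg hX0 _) hv0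
    rw [Real.norm_eq_abs, abs_of_nonneg h0]
    calc D.X P x ^ (1 + P.eps) * D.vol x ≤ (1 + D.X P x ^ 3) * D.vol x :=
          mul_le_mul_of_nonneg_right h1 hv0
      _ = (D.vol + fun x => D.X P x ^ 3 * D.vol x) x := by
          simp only [Pi.add_apply]; ring
  -- the flux
  have hI : (∫ x in T, D.X P x ^ (1 + P.eps) * D.vol x)
      ≤ jInf P.eps β D.Om D.vol (D.w P) (D.X P) (D.s2 P) * (Real.exp s₁ - Real.exp s₀) := by
    have := hF.2 s₀ s₁ hs0' hs01.le (by linarith)
    rwa [hTO] at this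
  -- the volume
  have hV : (∫ x in T, D.vol x) ≤ ∫ x in cAnn 1 r, volDen D.g' x := by
    refine setIntegral_mono_set ?_ ?_ ?_
    · refine ContinuousOn.integrableOn_compact (isCompact_cAnn 1 r) ?_
      exact (continuousOn_volDen hS.modified.metric).mono (Set.subset_univ _)
    · exact Filter.Eventually.of_forall fun x => Real.sqrt_nonneg _
    · exact Filter.Eventually.of_forall fun x hx => ⟨hρ1.le.trans hx.1.1, hx.1.2⟩
  have hH := hHOLA P.eps T D.vol (D.X P) _ _ he0 (by linarith) hTm hA.vol_nonneg hA.X_nonneg hiv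
    hiXe hmX hI hV
  -- comparison of the two metrics
  have hC : 0 ≤ 1 + P.C * D.tau := by
    have := mul_pos hS.C_pos htau
    linarith
  have hcmp : ∫ x in T, len D.g x (D.Gw P x) * volDen D.g x
      ≤ (1 + P.C * D.tau) * ∫ x in T, D.X P x * D.vol x := by
    rw [← integral_const_mul]
    refine integral_mono_of_nonneg ?_ (hH.1.const_mul _) ?_
    · refine Filter.Eventually.of_forall fun x => ?_
      exact mul_nonneg (Real.sqrt_nonneg _) (Real.sqrt_nonneg _)
    · refine (ae_restrict_iff' hTm).2 (Filter.Eventually.of_forall fun x hx => ?_)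
      exact hS.modified.area x (hρ1.le.trans hx.1.1) (lt_of_le_of_lt hx.1.2 hr2) (D.Gw P x)
  exact hP.trans (hcmp.trans (mul_le_mul_of_nonneg_left hH.2 hC))

end Pool.Agent.PFlow


end
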