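import Mathlib
import Pool.Agent.PFlow.StmtsX2
import Pool.Agent.PenroseM.C08
import Pool.Agent.PenroseM.C23
import Pool.Agent.PenroseM.C33
import Pool.Agent.PenroseM.C34
import Pool.Agent.PenroseM.C47
import Pool.Agent.PenroseM.C66
import Pool.Agent.PenroseM.C67

/-! Parts: PFlow.X.XCURV, PFlow.HX.HXBS, PFlow.StmtsX3, PFlow.X.XMOM, PFlow.X.XMSII -/

section

/-!
# XCURV: the leading parts of the scalar curvature and of the momentum density
-/

open MeasureTheory Filter Topology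
open scoped ContDiff

namespace Pool.Agent.PFlow

open Pool.Agent.PenroseSph

namespace XXCURV

open MJD (Pt)
open Pool.Agent.PenroseConvex (CovR.contDiffAt_pd CovR.pd_comm)

/-! ### Elementary bounds -/

lemma s3 {f : Fin 3 → ℝ} {B : ℝ} (h : ∀ l, |f l| ≤ B) : |∑ l, f l| ≤ 3 * B := by
  refine (Finset.abs_sum_le_sum_abs _ _).trans ?_
  rw [Fin.sum_univ_three]
  linarith [h 0, h 1, h 2]

lemma p2 {a b A B : ℝ} (ha : |a| ≤ A) (hb : |b| ≤ B) : |a * b| ≤ A * B := by
  rw [abs_mul]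
  exact mul_le_mul ha hb (abs_nonneg _) ((abs_nonneg _).trans ha)

lemma a2 {a b A B : ℝ} (ha : |a| ≤ A) (hb : |b| ≤ B) : |a + b| ≤ A + B :=
  (abs_add_le a b).trans (add_le_add ha hb)

lemma m2 {a b A B : ℝ} (ha : |a| ≤ A) (hb : |b| ≤ B) : |a - b| ≤ A + B :=
  (abs_sub a b).trans (add_le_add ha hb)

lemma half {a A : ℝ} (ha : |a| ≤ A) : |1 / 2 * a| ≤ A / 2 := by
  rw [abs_mul, abs_of_pos (by norm_num : (0 : ℝ) < 1 / 2)]
  linarith

/-- Entries of the inverse of an elliptic matrix. -/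
lemma inv_le {g : TensorField} {x : E3} (h : Pt g x) {Λ : ℝ} (hΛ : 0 < Λ)
    (he : ∀ v : Cov, (∑ i, v i ^ 2) ≤ Λ * ev (g x) v v) (i j : Fin 3) : |(g x)⁻¹ i j| ≤ Λ := by
  have h1 := he fun i => (g x)⁻¹ i j
  have h2 : ev (g x) (fun i => (g x)⁻¹ i j) (fun i => (g x)⁻¹ i j) = (g x)⁻¹ j j := by
    unfold ev
    have h3 : ∀ i, ∑ k, g x i k * (g x)⁻¹ i j * (g x)⁻¹ k j =
        (g x)⁻¹ i j * if i = j then 1 else 0 := by
      intro i
      rw [← h.mul_inv i j, Finset.mul_sum]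
      refine Finset.sum_congr rfl fun k _ => ?_
      ring
    simp only [h3]
    simp
  rw [h2] at h1
  have h4 : ∀ i, (g x)⁻¹ i j ^ 2 ≤ ∑ i, (g x)⁻¹ i j ^ 2 := fun i =>
    Finset.single_le_sum (f := fun i => (g x)⁻¹ i j ^ 2) (fun i _ => sq_nonneg _)
      (Finset.mem_univ i)
  have h5 : (g x)⁻¹ j j ≤ Λ := by
    by_contra hcon
    push Not at hcon
    have h6 := (h4 j).trans h1
    nlinarith
  have h7 : (g x)⁻¹ i j ^ 2 ≤ Λ ^ 2 := by
    have := (h4 i).trans h1
    nlinarith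
  exact abs_le_of_sq_le_sq h7 hΛ.le

section

variable {g : TensorField} {x : E3} {Λ : ℝ}

/-- the second derivatives -/
noncomputable def D2 (g : TensorField) (x : E3) (k l i j : Fin 3) : ℝ :=
  pd k (pd l (fun y => g y i j)) x

/-- `∂_i g_jl + ∂_j g_il - ∂_l g_ij` -/
noncomputable def T (g : TensorField) (i j l : Fin 3) (y : E3) : ℝ :=
  pd i (fun y => g y j l) y + pd j (fun y => g y i l) y - pd l (fun y => g y i j) y

/-- its derivative -/
noncomputable def T' (g : TensorField) (x : E3) (m i j l : Fin 3) : ℝ :=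
  D2 g x m i j l + D2 g x m j i l - D2 g x m l i j

/-- The hypotheses at a point. -/
structure Hyp (g : TensorField) (x : E3) (Λ : ℝ) : Prop where
  pt : Pt g x
  smooth : ∀ i j, ContDiffAt ℝ ∞ (fun y => g y i j) x
  pos : 0 < Λ
  bA : ∀ i j, |(g x)⁻¹ i j| ≤ Λ
  b0 : ∀ i j, |g x i j| ≤ Λ
  b1 : ∀ k i j, |pd k (fun y => g y i j) x| ≤ Λ

variable (h : Hyp g x Λ)

include h

lemma Hyp.diffPd (k i j : Fin 3) : DifferentiableAt ℝ (pd k fun y => g y i j) x :=
  (CovR.contDiffAt_pd (n := 1) (h.smooth i j) (by norm_cast)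
    k).differentiableAt (by norm_num)

lemma Hyp.diffT (i j l : Fin 3) : DifferentiableAt ℝ (T g i j l) x :=
  ((h.diffPd i j l).add (h.diffPd j i l)).sub (h.diffPd l i j)

lemma Hyp.pdT (m i j l : Fin 3) : pd m (T g i j l) x = T' g x m i j l := by
  have e : T g i j l = fun y => (pd i (fun y => g y j l) y + pd j (fun y => g y i l) y) -
      pd l (fun y => g y i j) y := rfl
  have h1 : DifferentiableAt ℝ
      (fun y => pd i (fun y => g y j l) y + pd j (fun y => g y i l) y) x :=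
    (h.diffPd i j l).add (h.diffPd j i l)
  rw [e, pd_sub h1 (h.diffPd l i j), pd_add (h.diffPd i j l) (h.diffPd j i l)]
  rfl

lemma Hyp.bT (i j l : Fin 3) : |T g i j l x| ≤ 3 * Λ := by
  have := m2 (a2 (h.b1 i j l) (h.b1 j i l)) (h.b1 l i j)
  unfold T
  linarith

omit h in
lemma chr_eq (k i j : Fin 3) (y : E3) :
    christoffel g k i j y = 1 / 2 * ∑ l, (g y)⁻¹ k l * T g i j l y := rfl

lemma Hyp.bG (k i j : Fin 3) : |christoffel g k i j x| ≤ 5 * Λ ^ 2 := by
  rw [chr_eq]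
  have h1 : ∀ l, |(g x)⁻¹ k l * T g i j l x| ≤ Λ * (3 * Λ) := fun l =>
    p2 (h.bA k l) (h.bT i j l)
  have := half (s3 h1)
  nlinarith [sq_nonneg Λ]

lemma Hyp.bA' (m k l : Fin 3) : |pd m (fun y => (g y)⁻¹ k l) x| ≤ 30 * Λ ^ 3 := by
  rw [h.pt.pd_inv, abs_neg]
  have h1 : ∀ a, |christoffel g k m a x * (g x)⁻¹ a l + christoffel g l m a x * (g x)⁻¹ k a| ≤
      5 * Λ ^ 2 * Λ + 5 * Λ ^ 2 * Λ := fun a =>
    a2 (p2 (h.bG _ _ _) (h.bA _ _)) (p2 (h.bG _ _ _) (h.bA _ _))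
  have := s3 h1
  linarith

lemma Hyp.pdG (m k i j : Fin 3) : pd m (christoffel g k i j) x =
    1 / 2 * ∑ l, ((g x)⁻¹ k l * T' g x m i j l + T g i j l x * pd m (fun y => (g y)⁻¹ k l) x) := by
  have e : christoffel g k i j = fun y => 1 / 2 * ∑ l, (g y)⁻¹ k l * T g i j l y := by
    funext y
    exact chr_eq k i j y
  have hd : ∀ l, DifferentiableAt ℝ (fun y => (g y)⁻¹ k l * T g i j l y) x := fun l =>
    (h.pt.diffInv k l).mul (h.diffT i j l)
  rw [e, pd_const_mul _ (DifferentiableAt.fun_sum fun l _ => hd l), pd_sum _ _ fun l _ => hd l]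
  congr 1
  refine Finset.sum_congr rfl fun l _ => ?_
  rw [pd_mul (h.pt.diffInv k l) (h.diffT i j l), h.pdT]

/-- the derivative of the Christoffel symbol up to quadratic terms -/
lemma Hyp.bG' (m k i j : Fin 3) : |pd m (christoffel g k i j) x
    - 1 / 2 * ∑ l, (g x)⁻¹ k l * T' g x m i j l| ≤ 135 * Λ ^ 4 := by
  have e : pd m (christoffel g k i j) x - 1 / 2 * ∑ l, (g x)⁻¹ k l * T' g x m i j l =
      1 / 2 * ∑ l, T g i j l x * pd m (fun y => (g y)⁻¹ k l) x := by
    rw [h.pdG, Finset.sum_add_distrib]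
    ring
  rw [e]
  have h1 : ∀ l, |T g i j l x * pd m (fun y => (g y)⁻¹ k l) x| ≤
      3 * Λ * (30 * Λ ^ 3) := fun l => p2 (h.bT _ _ _) (h.bA' _ _ _)
  have h2 := half (s3 h1)
  refine h2.trans (le_of_eq ?_)
  ring

/-- the leading part of the Ricci curvature -/
noncomputable def R0 (g : TensorField) (x : E3) (i j : Fin 3) : ℝ :=
  ∑ k, (1 / 2 * (∑ l, (g x)⁻¹ k l * T' g x k i j l) - 1 / 2 * ∑ l, (g x)⁻¹ k l * T' g x j i k l)

omit h in
lemma ricci_eq (i j : Fin 3) : ricci g i j x =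
    ∑ k, (pd k (christoffel g k i j) x - pd j (christoffel g k i k) x
    + ∑ l, (christoffel g k k l x * christoffel g l i j x
      - christoffel g k j l x * christoffel g l i k x)) := rfl

lemma Hyp.bRic (i j : Fin 3) : |ricci g i j x - R0 g x i j| ≤ 1260 * Λ ^ 4 := by
  have e : ricci g i j x - R0 g x i j =
      ∑ k, (((pd k (christoffel g k i j) x - 1 / 2 * ∑ l, (g x)⁻¹ k l * T' g x k i j l) -
        (pd j (christoffel g k i k) x - 1 / 2 * ∑ l, (g x)⁻¹ k l * T' g x j i k l)) +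
      ∑ l, (christoffel g k k l x * christoffel g l i j x
      - christoffel g k j l x * christoffel g l i k x)) := by
    rw [ricci_eq, R0, ← Finset.sum_sub_distrib]
    refine Finset.sum_congr rfl fun k _ => ?_
    ring
  rw [e]
  have h1 : ∀ k : Fin 3,
      |((pd k (christoffel g k i j) x - 1 / 2 * ∑ l, (g x)⁻¹ k l * T' g x k i j l) -
        (pd j (christoffel g k i k) x - 1 / 2 * ∑ l, (g x)⁻¹ k l * T' g x j i k l)) +
      ∑ l, (christoffel g k k l x * christoffel g l i j x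
      - christoffel g k j l x * christoffel g l i k x)| ≤
      (135 * Λ ^ 4 + 135 * Λ ^ 4) +
        3 * (5 * Λ ^ 2 * (5 * Λ ^ 2) + 5 * Λ ^ 2 * (5 * Λ ^ 2)) := fun k =>
    a2 (m2 (h.bG' _ _ _ _) (h.bG' _ _ _ _)) (s3 fun l =>
      m2 (p2 (h.bG _ _ _) (h.bG _ _ _)) (p2 (h.bG _ _ _) (h.bG _ _ _)))
  refine (s3 h1).trans (le_of_eq ?_)
  ring

omit h in
lemma scal_eq : scalarCurvature g x = ∑ i, ∑ j, (g x)⁻¹ i j * ricci g i j x := rfl

lemma Hyp.bScal0 : |scalarCurvature g x - ∑ i, ∑ j, (g x)⁻¹ i j * R0 g x i j| ≤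
    11340 * Λ ^ 5 := by
  have e : scalarCurvature g x - ∑ i, ∑ j, (g x)⁻¹ i j * R0 g x i j =
      ∑ i, ∑ j, (g x)⁻¹ i j * (ricci g i j x - R0 g x i j) := by
    rw [scal_eq, ← Finset.sum_sub_distrib]
    refine Finset.sum_congr rfl fun i _ => ?_
    rw [← Finset.sum_sub_distrib]
    refine Finset.sum_congr rfl fun j _ => ?_
    ring
  rw [e]
  refine (s3 fun i => s3 fun j => p2 (h.bA i j) (h.bRic i j)).trans (le_of_eq ?_)
  ring

omit h in
/-- the algebraic identity -/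
lemma alg (A : Fin 3 → Fin 3 → ℝ) (D : Fin 3 → Fin 3 → Fin 3 → Fin 3 → ℝ)
    (hA : ∀ i j, A i j = A j i) (hD : ∀ k l i j, D k l i j = D l k i j) :
    ∑ i, ∑ j, A i j * ∑ k, (1 / 2 * (∑ l, A k l * (D k i j l + D k j i l - D k l i j)) -
      1 / 2 * ∑ l, A k l * (D j i k l + D j k i l - D j l i k)) =
    ∑ i, ∑ j, ∑ m, ∑ n, A i m * A j n * (D i j m n - D i m j n) := by
  set S : (Fin 3 → Fin 3 → Fin 3 → Fin 3 → ℝ) → ℝ := fun F => ∑ i, ∑ j, ∑ k, ∑ l, F i j k l
    with hS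
  have c12 : ∀ F, S F = S fun i j k l => F j i k l := by
    intro F
    simp only [hS]
    rw [Finset.sum_comm]
  have c23 : ∀ F, S F = S fun i j k l => F i k j l := by
    intro F
    simp only [hS]
    refine Finset.sum_congr rfl fun i _ => ?_
    rw [Finset.sum_comm]
  have c34 : ∀ F, S F = S fun i j k l => F i j l k := by
    intro F
    simp only [hS]
    refine Finset.sum_congr rfl fun i _ => Finset.sum_congr rfl fun j _ => ?_
    rw [Finset.sum_comm]
  have hadd : ∀ F F', S (fun i j k l => F i j k l + F' i j k l) = S F + S F' := by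
    intro F F'
    simp only [hS, Finset.sum_add_distrib]
  have hsub : ∀ F F', S (fun i j k l => F i j k l - F' i j k l) = S F - S F' := by
    intro F F'
    simp only [hS, Finset.sum_sub_distrib]
  have hmul : ∀ F, S (fun i j k l => 1 / 2 * F i j k l) = 1 / 2 * S F := by
    intro F
    simp only [hS, Finset.mul_sum]
  -- the six sums
  have eL : ∑ i, ∑ j, A i j * ∑ k, (1 / 2 * (∑ l, A k l * (D k i j l + D k j i l - D k l i j)) -
      1 / 2 * ∑ l, A k l * (D j i k l + D j k i l - D j l i k)) =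
      1 / 2 * (S (fun i j k l => A i j * A k l * D k i j l)
        + S (fun i j k l => A i j * A k l * D k j i l)
        - S (fun i j k l => A i j * A k l * D k l i j)
        - S (fun i j k l => A i j * A k l * D j i k l)
        - S (fun i j k l => A i j * A k l * D j k i l)
        + S (fun i j k l => A i j * A k l * D j l i k)) := by
    rw [← hadd, ← hsub, ← hsub, ← hsub, ← hadd, ← hmul]
    simp only [hS]
    refine Finset.sum_congr rfl fun i _ => Finset.sum_congr rfl fun j _ => ?_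
    rw [Finset.mul_sum]
    refine Finset.sum_congr rfl fun k _ => ?_
    rw [mul_sub, Finset.mul_sum, Finset.mul_sum, Finset.mul_sum, Finset.mul_sum,
      ← Finset.sum_sub_distrib]
    refine Finset.sum_congr rfl fun l _ => ?_
    ring
  have eR : ∑ i, ∑ j, ∑ m, ∑ n, A i m * A j n * (D i j m n - D i m j n) =
      S (fun i j k l => A i k * A j l * D i j k l) - S (fun i j k l => A i k * A j l * D i k j l) := by
    rw [← hsub]
    simp only [hS]
    refine Finset.sum_congr rfl fun i _ => Finset.sum_congr rfl fun j _ =>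
      Finset.sum_congr rfl fun k _ => Finset.sum_congr rfl fun l _ => ?_
    ring
  have f1 : S (fun i j k l => A i j * A k l * D k i j l) =
      S (fun i j k l => A i k * A j l * D i j k l) := by
    rw [c23]
    congr 1
    funext i j k l
    rw [hD j i]
  have f2 : S (fun i j k l => A i j * A k l * D k l i j) =
      S (fun i j k l => A i k * A j l * D i k j l) := by
    rw [c23, c12, c34]
    congr 1
    funext i j k l
    ring
  have f3 : S (fun i j k l => A i j * A k l * D j i k l) =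
      S (fun i j k l => A i k * A j l * D i k j l) := by
    rw [c23]
    congr 1
    funext i j k l
    rw [hD k i]
  have f4 : S (fun i j k l => A i j * A k l * D j k i l) =
      S (fun i j k l => A i j * A k l * D k j i l) := by
    congr 1
    funext i j k l
    rw [hD j k]
  have f5 : S (fun i j k l => A i j * A k l * D j l i k) =
      S (fun i j k l => A i k * A j l * D i j k l) := by
    rw [c12, c34, c23]
    congr 1
    funext i j k l
    rw [hA k i, hA l j]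
  rw [eL, eR, f1, f2, f3, f4, f5]
  ring

lemma Hyp.D2_symm (k l i j : Fin 3) : D2 g x k l i j = D2 g x l k i j :=
  CovR.pd_comm ((h.smooth i j).of_le (by norm_cast)) k l

lemma Hyp.bScal : |scalarCurvature g x - ∑ i, ∑ j, ∑ m, ∑ n, (g x)⁻¹ i m * (g x)⁻¹ j n *
    (D2 g x i j m n - D2 g x i m j n)| ≤ 11340 * Λ ^ 5 := by
  have h1 := h.bScal0
  have h2 := alg (fun i j => (g x)⁻¹ i j) (D2 g x) (fun i j => h.pt.inv_symm i j) h.D2_symm
  rw [← h2]
  exact h1

variable {k : TensorField} (hk : ∀ i j, DifferentiableAt ℝ (fun y => k y i j) x)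
  (hb : ∀ i j, |k x i j| ≤ Λ)

include hk hb

omit hk in
lemma Hyp.bTr : |traceWith g k x| ≤ 9 * Λ ^ 2 := by
  unfold traceWith
  refine (s3 fun i => s3 fun j => p2 (h.bA i j) (hb i j)).trans (le_of_eq ?_)
  ring

omit hb in
lemma Hyp.diffTr : DifferentiableAt ℝ (traceWith g k) x := by
  unfold traceWith
  exact DifferentiableAt.fun_sum fun i _ => DifferentiableAt.fun_sum fun j _ =>
    (h.pt.diffInv i j).fun_mul (hk i j)

omit hb in
lemma Hyp.pdTr (m : Fin 3) : pd m (traceWith g k) x =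
    (∑ a, ∑ b, (g x)⁻¹ a b * pd m (fun y => k y a b) x) +
      ∑ a, ∑ b, k x a b * pd m (fun y => (g y)⁻¹ a b) x := by
  unfold traceWith
  rw [pd_sum _ _ fun a _ => DifferentiableAt.fun_sum fun b _ => (h.pt.diffInv a b).fun_mul (hk a b),
    ← Finset.sum_add_distrib]
  refine Finset.sum_congr rfl fun a _ => ?_
  rw [pd_sum _ _ fun b _ => (h.pt.diffInv a b).fun_mul (hk a b), ← Finset.sum_add_distrib]
  refine Finset.sum_congr rfl fun b _ => ?_
  rw [pd_mul (h.pt.diffInv a b) (hk a b)]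

lemma Hyp.bMom (j : Fin 3) : |momentumDensity g k j x - ∑ i, ∑ m, (g x)⁻¹ i m *
        (pd m (fun y => k y i j) x
          - (∑ a, ∑ b, (g x)⁻¹ a b * pd m (fun y => k y a b) x) * g x i j)| ≤
    9 * (Λ * (270 * Λ ^ 5 + 9 * Λ ^ 3 + 30 * Λ ^ 2 * (Λ + 9 * Λ ^ 3))) := by
  have e : momentumDensity g k j x - ∑ i, ∑ m, (g x)⁻¹ i m *
        (pd m (fun y => k y i j) x
          - (∑ a, ∑ b, (g x)⁻¹ a b * pd m (fun y => k y a b) x) * g x i j) =
      ∑ i, ∑ m, (g x)⁻¹ i m * (-(((∑ a, ∑ b, k x a b * pd m (fun y => (g y)⁻¹ a b) x) * g x i j) +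
        traceWith g k x * pd m (fun y => g y i j) x) -
        ∑ l, (christoffel g l m i x * (k x l j - traceWith g k x * g x l j) +
          christoffel g l m j x * (k x i l - traceWith g k x * g x i l))) := by
    have e1 : momentumDensity g k j x = ∑ i, ∑ m, (g x)⁻¹ i m *
        (pd m (fun y => k y i j - traceWith g k y * g y i j) x -
        ∑ l, (christoffel g l m i x * (k x l j - traceWith g k x * g x l j) +
          christoffel g l m j x * (k x i l - traceWith g k x * g x i l))) := rfl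
    rw [e1, ← Finset.sum_sub_distrib]
    refine Finset.sum_congr rfl fun i _ => ?_
    rw [← Finset.sum_sub_distrib]
    refine Finset.sum_congr rfl fun m _ => ?_
    rw [pd_sub (hk i j) ((h.diffTr hk).fun_mul (h.pt.diff i j)),
      pd_mul (h.diffTr hk) (h.pt.diff i j), h.pdTr hk]
    ring
  rw [e]
  have hT : ∀ a b, |k x a b - traceWith g k x * g x a b| ≤ Λ + 9 * Λ ^ 2 * Λ := fun a b =>
    m2 (hb a b) (p2 (h.bTr hb) (h.b0 a b))
  have h1 : ∀ i m, |(-(((∑ a, ∑ b, k x a b * pd m (fun y => (g y)⁻¹ a b) x) * g x i j) +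
        traceWith g k x * pd m (fun y => g y i j) x) -
        ∑ l, (christoffel g l m i x * (k x l j - traceWith g k x * g x l j) +
          christoffel g l m j x * (k x i l - traceWith g k x * g x i l)))| ≤
      (3 * (3 * (Λ * (30 * Λ ^ 3))) * Λ + 9 * Λ ^ 2 * Λ) +
        3 * (5 * Λ ^ 2 * (Λ + 9 * Λ ^ 2 * Λ) + 5 * Λ ^ 2 * (Λ + 9 * Λ ^ 2 * Λ)) := by
    intro i m
    refine m2 ?_ (s3 fun l => a2 (p2 (h.bG _ _ _) (hT _ _)) (p2 (h.bG _ _ _) (hT _ _)))
    rw [abs_neg]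
    exact a2 (p2 (s3 fun a => s3 fun b => p2 (hb a b) (h.bA' m a b)) (h.b0 i j))
      (p2 (h.bTr hb) (h.b1 m i j))
  refine (s3 fun i => s3 fun m => p2 (h.bA i m) (h1 i m)).trans (le_of_eq ?_)
  ring

end

end XXCURV

theorem XCURV : Stmt_XCURV := by
  intro Λ hΛ
  refine ⟨11340 * Λ ^ 5 + 9 * (Λ * (270 * Λ ^ 5 + 9 * Λ ^ 3 + 30 * Λ ^ 2 * (Λ + 9 * Λ ^ 3))),
    by positivity, ?_⟩
  intro g k x hpos hsm _ hksm hell hb
  have hpt : MJD.Pt g x :=
    { diff := fun i j => (hsm i j).differentiableAt (by simp)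
      symm := by
        filter_upwards [hpos] with y hy
        have h := hy.isHermitian
        rw [Matrix.IsHermitian, Matrix.conjTranspose_eq_transpose_of_trivial] at h
        exact h
      pos := by
        filter_upwards [hpos] with y hy
        exact hy.det_pos }
  have H : XXCURV.Hyp g x Λ :=
    { pt := hpt
      smooth := hsm
      pos := hΛ
      bA := XXCURV.inv_le hpt hΛ hell
      b0 := fun i j => (hb i j).1
      b1 := fun m i j => (hb i j).2.1 m }
  constructor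
  · refine H.bScal.trans ?_
    have : 0 ≤ 9 * (Λ * (270 * Λ ^ 5 + 9 * Λ ^ 3 + 30 * Λ ^ 2 * (Λ + 9 * Λ ^ 3))) := by positivity
    linarith
  · intro j
    refine (H.bMom (fun i j => (hksm i j).differentiableAt (by simp)) (fun i j => (hb i j).2.2)
      j).trans ?_
    have : 0 ≤ 11340 * Λ ^ 5 := by positivity
    linarith

end Pool.Agent.PFlow


end

section

/-!
# HXBS: integration by parts for the quadratic form of second derivatives
-/

open MeasureTheory Filter Topology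
open scoped ContDiff

namespace Pool.Agent.PFlow.HX

open Pool.Agent.PenroseSph Pool.Agent.PFlow

namespace HXBSaux

open Pool.Agent.PFlow.XXCURV (Hyp p2 a2 m2 s3)

theorem isOpen_Ann (a b : ℝ) : IsOpen (Ann a b) :=
  (isOpen_lt continuous_const continuous_norm).inter (isOpen_lt continuous_norm continuous_const)

/-- Every point lies in the annulus or off the support of the cut-off function. -/
theorem mem_or {ζ : E3 → ℝ} (hζ : CutZ ζ) (x : E3) :
    x ∈ Ann (1 / 2) 2 ∨ x ∉ tsupport ζ := by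
  by_cases h : x ∈ tsupport ζ
  · exact Or.inl (hζ.supp h)
  · exact Or.inr h

theorem ev_zero {ζ : E3 → ℝ} {x : E3} (h : x ∉ tsupport ζ) : ζ =ᶠ[𝓝 x] 0 :=
  notMem_tsupport_iff_eventuallyEq.mp h

theorem smooth_mul {ζ ψ : E3 → ℝ} (hζ : CutZ ζ)
    (hψ : ∀ x ∈ Ann (1 / 2) 2, ContDiffAt ℝ ∞ ψ x) :
    ContDiff ℝ ∞ (fun x => ζ x ^ 4 * ψ x) := by
  rw [contDiff_iff_contDiffAt]
  intro x
  rcases mem_or hζ x with h | h
  · exact (hζ.smooth.contDiffAt.pow 4).mul (hψ x h)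
  · have h1 : (fun x => ζ x ^ 4 * ψ x) =ᶠ[𝓝 x] fun _ => 0 := by
      filter_upwards [ev_zero h] with y hy
      simp [hy]
    exact contDiffAt_const.congr_of_eventuallyEq h1

theorem compact_mul {ζ ψ : E3 → ℝ} (hζ : CutZ ζ) :
    HasCompactSupport (fun x => ζ x ^ 4 * ψ x) := by
  refine HasCompactSupport.intro hζ.compact fun x hx => ?_
  simp [image_eq_zero_of_notMem_tsupport hx]

theorem pd_bound {ζ : E3 → ℝ} (hζ : CutZ ζ) : ∃ Z : ℝ, 0 ≤ Z ∧ ∀ m x, |pd m ζ x| ≤ Z := by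
  have h1 : ∀ m : Fin 3, ∃ Z : ℝ, ∀ x, |pd m ζ x| ≤ Z := by
    intro m
    have hc : Continuous (pd m ζ) :=
      (hζ.smooth.continuous_fderiv (by simp)).clm_apply continuous_const
    have hs : HasCompactSupport (pd m ζ) := hζ.compact.fderiv_apply ℝ _
    obtain ⟨C, hC⟩ := hc.bounded_above_of_compact_support hs
    exact ⟨C, fun x => by simpa using hC x⟩
  choose Z hZ using h1
  refine ⟨|Z 0| + |Z 1| + |Z 2|, by positivity, fun m x => (hZ m x).trans ?_⟩
  have a0 := le_abs_self (Z 0)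
  have a1 := le_abs_self (Z 1)
  have a2 := le_abs_self (Z 2)
  have b0 := abs_nonneg (Z 0)
  have b1 := abs_nonneg (Z 1)
  have b2 := abs_nonneg (Z 2)
  fin_cases m <;> simp <;> linarith

theorem vol_bound {g : TensorField} {x : E3} {Λ : ℝ} (h : ∀ i j, |g x i j| ≤ Λ) :
    volDen g x ≤ √(6 * Λ ^ 3) := by
  unfold volDen
  refine Real.sqrt_le_sqrt ?_
  have h3 : ∀ a b c : ℝ, |a| ≤ Λ → |b| ≤ Λ → |c| ≤ Λ → |a * b * c| ≤ Λ ^ 3 := by
    intro a b c ha hb hc
    have := p2 (p2 ha hb) hc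
    calc _ ≤ Λ * Λ * Λ := this
      _ = Λ ^ 3 := by ring
  rw [Matrix.det_fin_three]
  have e1 := abs_le.mp (h3 _ _ _ (h 0 0) (h 1 1) (h 2 2))
  have e2 := abs_le.mp (h3 _ _ _ (h 0 0) (h 1 2) (h 2 1))
  have e3 := abs_le.mp (h3 _ _ _ (h 0 1) (h 1 0) (h 2 2))
  have e4 := abs_le.mp (h3 _ _ _ (h 0 1) (h 1 2) (h 2 0))
  have e5 := abs_le.mp (h3 _ _ _ (h 0 2) (h 1 0) (h 2 1))
  have e6 := abs_le.mp (h3 _ _ _ (h 0 2) (h 1 1) (h 2 0))
  linarith [e1.2, e2.1, e3.1, e4.2, e5.2, e6.1]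

/-- The weight. -/
noncomputable def q (ζ : E3 → ℝ) (g : TensorField) (i j k l : Fin 3) (x : E3) : ℝ :=
  ζ x ^ 4 * (volDen g x * ((g x)⁻¹ i k * (g x)⁻¹ j l))

theorem hyp_of {Λ : ℝ} {g h : TensorField} (hΛ : 0 < Λ) (hg : MetricOn (Ann (1 / 2) 2) g)
    (hb : ∀ x ∈ Ann (1 / 2) 2, BdAt Λ g h x) {x : E3} (hx : x ∈ Ann (1 / 2) 2) : Hyp g x Λ := by
  have ho : IsOpen (Ann (1 / 2) 2) := isOpen_Ann _ _
  have hp := MJD.pt_of ho hg hx
  exact ⟨hp, fun i j => (hg.smooth i j).contDiffAt (ho.mem_nhds hx), hΛ,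
    fun i j => XXCURV.inv_le hp hΛ (hb x hx).elliptic i j, (hb x hx).metric,
    fun k i j => (hb x hx).deriv i j k⟩

theorem q_smooth {ζ : E3 → ℝ} {g : TensorField} (hζ : CutZ ζ) (hg : MetricOn (Ann (1 / 2) 2) g)
    (i j k l : Fin 3) : ContDiff ℝ ∞ (q ζ g i j k l) := by
  have ho : IsOpen (Ann (1 / 2) 2) := isOpen_Ann _ _
  exact smooth_mul hζ fun x hx => (MCF.volDen_smooth ho hg hx).mul
    ((MCF.inv_smooth ho hg hx i k).mul (MCF.inv_smooth ho hg hx j l))

theorem q_compact {ζ : E3 → ℝ} {g : TensorField} (hζ : CutZ ζ) (i j k l : Fin 3) :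
    HasCompactSupport (q ζ g i j k l) := compact_mul hζ

theorem q_pd {ζ : E3 → ℝ} {g : TensorField} {Λ Z : ℝ} (hζ : CutZ ζ)
    (hZ : ∀ m x, |pd m ζ x| ≤ Z) (i j k l m : Fin 3) {x : E3} (h : Hyp g x Λ) :
    |pd m (q ζ g i j k l) x| ≤ √(6 * Λ ^ 3) * (4 * Z * Λ ^ 2 + 75 * Λ ^ 4) * ζ x ^ 3 := by
  set V := √(6 * Λ ^ 3) with hV
  have hV0 : 0 ≤ V := Real.sqrt_nonneg _
  have hΛ := h.pos
  have hv : |volDen g x| ≤ V := by
    have h0 : 0 ≤ volDen g x := Real.sqrt_nonneg _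
    rw [abs_of_nonneg h0]
    exact vol_bound h.b0
  have hdζ : DifferentiableAt ℝ ζ x := hζ.smooth.contDiffAt.differentiableAt (by simp)
  have hd4 : DifferentiableAt ℝ (fun y => ζ y ^ 4) x := hdζ.pow 4
  have hdV : DifferentiableAt ℝ (volDen g) x := h.pt.diffVol
  have hdI : DifferentiableAt ℝ (fun y => (g y)⁻¹ i k * (g y)⁻¹ j l) x :=
    (h.pt.diffInv i k).mul (h.pt.diffInv j l)
  have e : pd m (q ζ g i j k l) x =
      ζ x ^ 4 * (volDen g x * ((g x)⁻¹ i k * pd m (fun y => (g y)⁻¹ j l) x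
        + (g x)⁻¹ j l * pd m (fun y => (g y)⁻¹ i k) x)
        + ((g x)⁻¹ i k * (g x)⁻¹ j l) * pd m (volDen g) x)
      + (volDen g x * ((g x)⁻¹ i k * (g x)⁻¹ j l)) * pd m (fun y => ζ y ^ 4) x := by
    unfold q
    rw [GB.IBP.pd_mul hd4 (hdV.fun_mul hdI), GB.IBP.pd_mul hdV hdI,
      GB.IBP.pd_mul (h.pt.diffInv i k) (h.pt.diffInv j l)]
  have e4 : pd m (fun y => ζ y ^ 4) x = ζ x ^ 3 * (4 * pd m ζ x) := by
    have h1 := GB.IBP.pd_comp (F := fun t : ℝ => t ^ 4) (W := ζ) (x := x)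
      (differentiableAt_id.pow 4) hdζ m
    rw [h1]
    have h2 : deriv (fun t : ℝ => t ^ 4) (ζ x) = 4 * ζ x ^ 3 := by
      simp
    rw [h2]
    ring
  have hvol' : |pd m (volDen g) x| ≤ V * (3 * (5 * Λ ^ 2)) := by
    rw [h.pt.pd_vol]
    exact p2 hv (s3 fun l => h.bG l m l)
  have hz3 : 0 ≤ ζ x ^ 3 := pow_nonneg (hζ.nonneg x) 3
  have hz4 : ζ x ^ 4 ≤ ζ x ^ 3 := by
    have : ζ x ^ 4 = ζ x ^ 3 * ζ x := by ring
    rw [this]
    exact mul_le_of_le_one_right hz3 (hζ.le_one x)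
  have hz4' : |ζ x ^ 4| ≤ ζ x ^ 3 := by
    rw [abs_of_nonneg (pow_nonneg (hζ.nonneg x) 4)]
    exact hz4
  rw [e, e4]
  have b1 : |ζ x ^ 4 * (volDen g x * ((g x)⁻¹ i k * pd m (fun y => (g y)⁻¹ j l) x
        + (g x)⁻¹ j l * pd m (fun y => (g y)⁻¹ i k) x)
        + ((g x)⁻¹ i k * (g x)⁻¹ j l) * pd m (volDen g) x)| ≤
      ζ x ^ 3 * (V * (Λ * (30 * Λ ^ 3) + Λ * (30 * Λ ^ 3)) + (Λ * Λ) * (V * (3 * (5 * Λ ^ 2)))) :=
    p2 hz4' (a2 (p2 hv (a2 (p2 (h.bA _ _) (h.bA' _ _ _)) (p2 (h.bA _ _) (h.bA' _ _ _))))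
      (p2 (p2 (h.bA _ _) (h.bA _ _)) hvol'))
  have b2 : |(volDen g x * ((g x)⁻¹ i k * (g x)⁻¹ j l)) * (ζ x ^ 3 * (4 * pd m ζ x))| ≤
      (V * (Λ * Λ)) * (ζ x ^ 3 * (4 * Z)) :=
    p2 (p2 hv (p2 (h.bA _ _) (h.bA _ _))) (p2 (le_of_eq (abs_of_nonneg hz3))
      (p2 (by norm_num) (hZ m x)))
  refine (a2 b1 b2).trans (le_of_eq ?_)
  ring

theorem q_pd' {ζ : E3 → ℝ} {g h : TensorField} {Λ Z : ℝ} (hΛ : 0 < Λ) (hζ : CutZ ζ)
    (hZ : ∀ m x, |pd m ζ x| ≤ Z) (hg : MetricOn (Ann (1 / 2) 2) g)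
    (hb : ∀ x ∈ Ann (1 / 2) 2, BdAt Λ g h x) (i j k l m : Fin 3) (x : E3) :
    |pd m (q ζ g i j k l) x| ≤ √(6 * Λ ^ 3) * (4 * Z * Λ ^ 2 + 75 * Λ ^ 4) * ζ x ^ 3 := by
  rcases mem_or hζ x with hx | hx
  · exact q_pd hζ hZ i j k l m (hyp_of hΛ hg hb hx)
  · have h1 : q ζ g i j k l =ᶠ[𝓝 x] fun _ => 0 := by
      filter_upwards [ev_zero hx] with y hy
      simp [q, hy]
    rw [GB.IBP.pd_congr h1]
    have h2 : ζ x = 0 := image_eq_zero_of_notMem_tsupport hx
    have h3 : pd m (fun _ : E3 => (0 : ℝ)) x = 0 := by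
      simp [pd]
    rw [h3, h2]
    simp

theorem le_vsz (p : Cov) (i : Fin 3) : |p i| ≤ vsz p := by
  unfold vsz
  rw [← Real.sqrt_sq_eq_abs]
  exact Real.sqrt_le_sqrt (Finset.single_le_sum (f := fun i => p i ^ 2)
    (fun i _ => sq_nonneg _) (Finset.mem_univ i))

theorem le_msz (B : Bil) (i j : Fin 3) : |B i j| ≤ msz B := by
  unfold msz
  rw [← Real.sqrt_sq_eq_abs]
  refine Real.sqrt_le_sqrt ((Finset.single_le_sum (f := fun j => B i j ^ 2)
    (fun j _ => sq_nonneg _) (Finset.mem_univ j)).trans ?_)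
  exact Finset.single_le_sum (f := fun i => ∑ j, B i j ^ 2)
    (fun i _ => Finset.sum_nonneg fun j _ => sq_nonneg _) (Finset.mem_univ i)

theorem contDiff_pd {f : E3 → ℝ} (h : ContDiff ℝ ∞ f) (i : Fin 3) : ContDiff ℝ ∞ (pd i f) :=
  contDiff_iff_contDiffAt.mpr fun _ => MCF.pd_smooth h.contDiffAt i

theorem cont_vsz {v : E3 → ℝ} (hv : ContDiff ℝ ∞ v) : Continuous fun x => vsz (grad v x) := by
  unfold vsz grad
  exact (continuous_finsetSum _ fun i _ => (contDiff_pd hv i).continuous.pow 2).sqrt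

theorem cont_msz {v : E3 → ℝ} (hv : ContDiff ℝ ∞ v) : Continuous fun x => msz (hess2 v x) := by
  unfold msz hess2
  exact (continuous_finsetSum _ fun i _ => continuous_finsetSum _ fun j _ =>
    (contDiff_pd (contDiff_pd hv j) i).continuous.pow 2).sqrt

theorem rhs_int {v ζ : E3 → ℝ} (hv : ContDiff ℝ ∞ v) (hζ : CutZ ζ) :
    Integrable fun x => ζ x ^ 3 * (vsz (grad v x) * msz (hess2 v x)) := by
  have hc : Continuous fun x => ζ x ^ 3 * (vsz (grad v x) * msz (hess2 v x)) :=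
    (hζ.smooth.continuous.pow 3).mul ((cont_vsz hv).mul (cont_msz hv))
  refine hc.integrable_of_hasCompactSupport (HasCompactSupport.intro hζ.compact fun x hx => ?_)
  simp [image_eq_zero_of_notMem_tsupport hx]

/-- One term. -/
theorem term {q v : E3 → ℝ} {ζ : E3 → ℝ} {K : ℝ} (hq : ContDiff ℝ ∞ q) (hqc : HasCompactSupport q)
    (hv : ContDiff ℝ ∞ v) (hζ : CutZ ζ) (hK : ∀ m x, |pd m q x| ≤ K * ζ x ^ 3)
    (i j k l : Fin 3) :
    Integrable (fun x => q x * (hess2 v x i j * hess2 v x k l - hess2 v x i k * hess2 v x j l)) ∧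
    ∫ x, q x * (hess2 v x i j * hess2 v x k l - hess2 v x i k * hess2 v x j l) ≤
      2 * K * ∫ x, ζ x ^ 3 * (vsz (grad v x) * msz (hess2 v x)) := by
  have hv1 : ∀ a, ContDiff ℝ ∞ (pd a v) := fun a => contDiff_pd hv a
  have hv2 : ∀ a b, ContDiff ℝ ∞ (pd a (pd b v)) := fun a b => contDiff_pd (hv1 b) a
  have hdq : Differentiable ℝ q := hq.differentiable (by simp)
  have hd1 : ∀ a, Differentiable ℝ (pd a v) := fun a => (hv1 a).differentiable (by simp)
  have hd2 : ∀ a b, Differentiable ℝ (pd a (pd b v)) := fun a b =>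
    (hv2 a b).differentiable (by simp)
  have hT : ∀ a b m : Fin 3, Integrable (pd m fun x => q x * (pd i v x * pd a (pd b v) x)) ∧
      ∫ x, pd m (fun x => q x * (pd i v x * pd a (pd b v) x)) x = 0 := by
    intro a b m
    refine GB.IBP.integral_pd_zero ((hq.mul ((hv1 i).mul (hv2 a b))).of_le (by simp)) ?_ m
    exact HasCompactSupport.intro hqc fun x hx => by
      simp [image_eq_zero_of_notMem_tsupport hx]
  have hR : ∀ a b m : Fin 3, Integrable fun x => pd m q x * (pd i v x * pd a (pd b v) x) := by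
    intro a b m
    have hc : Continuous fun x => pd m q x * (pd i v x * pd a (pd b v) x) :=
      (contDiff_pd hq m).continuous.mul ((hv1 i).continuous.mul (hv2 a b).continuous)
    refine hc.integrable_of_hasCompactSupport ?_
    have h1 : HasCompactSupport (pd m q) := hqc.fderiv_apply ℝ _
    exact HasCompactSupport.intro h1 fun x hx => by
      simp [image_eq_zero_of_notMem_tsupport hx]
  have hpt : ∀ x, q x * (hess2 v x i j * hess2 v x k l - hess2 v x i k * hess2 v x j l) =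
      (pd j (fun x => q x * (pd i v x * pd k (pd l v) x)) x
        - pd k (fun x => q x * (pd i v x * pd j (pd l v) x)) x)
      - (pd j q x * (pd i v x * pd k (pd l v) x) - pd k q x * (pd i v x * pd j (pd l v) x)) := by
    intro x
    rw [GB.IBP.pd_mul (hdq x) ((hd1 i x).fun_mul (hd2 k l x)),
      GB.IBP.pd_mul (hd1 i x) (hd2 k l x),
      GB.IBP.pd_mul (hdq x) ((hd1 i x).fun_mul (hd2 j l x)),
      GB.IBP.pd_mul (hd1 i x) (hd2 j l x)]
    have c1 : pd j (pd k (pd l v)) x = pd k (pd j (pd l v)) x :=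
      ML4.pd_comm (hv1 l).contDiffAt j k
    have c2 : pd j (pd i v) x = pd i (pd j v) x := ML4.pd_comm hv.contDiffAt j i
    have c3 : pd k (pd i v) x = pd i (pd k v) x := ML4.pd_comm hv.contDiffAt k i
    rw [c1, c2, c3]
    simp only [hess2, Matrix.of_apply]
    ring
  have hI : Integrable (fun x => (pd j (fun x => q x * (pd i v x * pd k (pd l v) x)) x
        - pd k (fun x => q x * (pd i v x * pd j (pd l v) x)) x)
      - (pd j q x * (pd i v x * pd k (pd l v) x) - pd k q x * (pd i v x * pd j (pd l v) x))) :=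
    ((hT k l j).1.sub (hT j l k).1).sub ((hR k l j).sub (hR j l k))
  simp only [hpt]
  refine ⟨hI, ?_⟩
  have e1 := integral_sub (f := fun x => pd j (fun x => q x * (pd i v x * pd k (pd l v) x)) x
        - pd k (fun x => q x * (pd i v x * pd j (pd l v) x)) x)
      (g := fun x => pd j q x * (pd i v x * pd k (pd l v) x)
        - pd k q x * (pd i v x * pd j (pd l v) x))
      ((hT k l j).1.sub (hT j l k).1) ((hR k l j).sub (hR j l k))
  have e2 := integral_sub (hT k l j).1 (hT j l k).1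
  rw [e1, e2, (hT k l j).2, (hT j l k).2, sub_zero, zero_sub,
    ← integral_neg, ← integral_const_mul]
  refine integral_mono ((hR k l j).sub (hR j l k)).neg ((rhs_int hv hζ).const_mul _) fun x => ?_
  have hz3 : 0 ≤ ζ x ^ 3 := pow_nonneg (hζ.nonneg x) 3
  have hpv : |pd i v x| ≤ vsz (grad v x) := le_vsz (grad v x) i
  have hb1 : |pd k (pd l v) x| ≤ msz (hess2 v x) := le_msz (hess2 v x) k l
  have hb2 : |pd j (pd l v) x| ≤ msz (hess2 v x) := le_msz (hess2 v x) j l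
  have h1 := m2 (p2 (hK j x) (p2 hpv hb1)) (p2 (hK k x) (p2 hpv hb2))
  have h2 := (neg_abs_le _).trans_eq' rfl |>.trans' (neg_le_neg h1)
  show -(pd j q x * (pd i v x * pd k (pd l v) x) - pd k q x * (pd i v x * pd j (pd l v) x)) ≤
    2 * K * (ζ x ^ 3 * (vsz (grad v x) * msz (hess2 v x)))
  linarith

end HXBSaux

open HXBSaux in
theorem HXBS : Stmt_HXBS := by
  intro Λ ζ hΛ hζ
  obtain ⟨Z, hZ0, hZ⟩ := pd_bound hζ
  set K := √(6 * Λ ^ 3) * (4 * Z * Λ ^ 2 + 75 * Λ ^ 4) with hKdef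
  have hK0 : 0 ≤ K := by positivity
  refine ⟨162 * K + 1, by positivity, fun g h v hg hb hv => ?_⟩
  have hvan : ∀ x, x ∉ Ann (1 / 2) 2 → ζ x = 0 := fun x hx =>
    image_eq_zero_of_notMem_tsupport fun h => hx (hζ.supp h)
  rw [setIntegral_eq_integral_of_forall_compl_eq_zero (fun x hx => by simp [hvan x hx]),
    setIntegral_eq_integral_of_forall_compl_eq_zero (fun x hx => by simp [hvan x hx])]
  have ht : ∀ i j k l : Fin 3, _ := fun i j k l =>
    term (q_smooth hζ hg i j k l) (q_compact hζ i j k l) hv hζ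
      (fun m x => q_pd' hΛ hζ hZ hg hb i j k l m x) i j k l
  have hpt : ∀ x, ζ x ^ 4 * (volDen g x * (nsq g x (hess2 v x) - trg g x (hess2 v x) ^ 2)) =
      ∑ i, ∑ j, ∑ k, ∑ l, q ζ g i j k l x *
        (hess2 v x i j * hess2 v x k l - hess2 v x i k * hess2 v x j l) := by
    intro x
    have e1 : trg g x (hess2 v x) ^ 2 = ∑ i, ∑ j, ∑ k, ∑ l,
        (g x)⁻¹ i k * (g x)⁻¹ j l * (hess2 v x i k * hess2 v x j l) := by
      have e2 : trg g x (hess2 v x) ^ 2 = (∑ i, ∑ k, (g x)⁻¹ i k * hess2 v x i k) *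
          (∑ j, ∑ l, (g x)⁻¹ j l * hess2 v x j l) := by
        rw [sq]
        rfl
      rw [e2, Finset.sum_mul_sum]
      refine Finset.sum_congr rfl fun i _ => Finset.sum_congr rfl fun j _ => ?_
      rw [Finset.sum_mul_sum]
      refine Finset.sum_congr rfl fun k _ => Finset.sum_congr rfl fun l _ => ?_
      ring
    rw [e1]
    unfold nsq q
    simp only [← Finset.sum_sub_distrib, Finset.mul_sum]
    refine Finset.sum_congr rfl fun i _ => Finset.sum_congr rfl fun j _ =>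
      Finset.sum_congr rfl fun k _ => Finset.sum_congr rfl fun l _ => ?_
    ring
  simp only [hpt]
  set J := ∫ x, ζ x ^ 3 * (vsz (grad v x) * msz (hess2 v x)) with hJ
  have hJ0 : 0 ≤ J := integral_nonneg fun x => by
    have := hζ.nonneg x
    unfold vsz msz
    positivity
  rw [integral_finsetSum _ fun i _ => integrable_finsetSum _ fun j _ =>
    integrable_finsetSum _ fun k _ => integrable_finsetSum _ fun l _ => (ht i j k l).1]
  have hsum : ∀ f : Fin 3 → ℝ, ∀ B : ℝ, (∀ i, f i ≤ B) → ∑ i, f i ≤ 3 * B := by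
    intro f B hf
    rw [Fin.sum_univ_three]
    linarith [hf 0, hf 1, hf 2]
  have h1 : ∑ i : Fin 3, ∫ x, ∑ j, ∑ k, ∑ l, q ζ g i j k l x *
        (hess2 v x i j * hess2 v x k l - hess2 v x i k * hess2 v x j l) ≤
      3 * (3 * (3 * (3 * (2 * K * J)))) := by
    refine hsum _ _ fun i => ?_
    rw [integral_finsetSum _ fun j _ =>
      integrable_finsetSum _ fun k _ => integrable_finsetSum _ fun l _ => (ht i j k l).1]
    refine hsum _ _ fun j => ?_
    rw [integral_finsetSum _ fun k _ => integrable_finsetSum _ fun l _ => (ht i j k l).1]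
    refine hsum _ _ fun k => ?_
    rw [integral_finsetSum _ fun l _ => (ht i j k l).1]
    exact hsum _ _ fun l => (ht i j k l).2
  refine h1.trans ?_
  nlinarith

end Pool.Agent.PFlow.HX


end

section

/-!
# Exterior regions: the momentum of the end
-/

open MeasureTheory Filter Topology
open scoped ContDiff ENNReal

namespace Pool.Agent.PFlow

open Pool.Agent.PenroseSph

/-- `P` is the ADM momentum of the end at infinity,
`P_i = (1/8π) lim ∫ (h_ij - (tr_g h) g_ij) ν^j dA` over the coordinate spheres `|x| = ρ`. -/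
def IsMomentum (g h : TensorField) (P : Fin 3 → ℝ) : Prop :=
  ∀ i : Fin 3, Tendsto (fun ρ : ℝ => 1 / (8 * Real.pi) * ∫ θ : Metric.sphere (0 : E3) 1,
    (∑ j, (h (ρ • (θ : E3)) i j - trg g (ρ • (θ : E3)) (h (ρ • (θ : E3))) * g (ρ • (θ : E3)) i j)
      * (θ : E3) j) * ρ ^ 2 ∂((volume : Measure E3).toSphere)) atTop (𝓝 (P i))

/-- XMOM: if the mean of `|k|` over large shells is small then the momentum vanishes. -/
def Stmt_XMOM : Prop :=
  ∀ (g k : TensorField) (δ₀ : ℝ) (P : Fin 3 → ℝ), 0 < δ₀ → MetricOn (Outside δ₀) g →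
    TensorOn (Outside δ₀) k → (∃ C R : ℝ, DecayFrom C R g k) →
    Tendsto (fun l : ℝ => ∫ x in cAnn (l / 2) l, msz (k x) / l) atTop (𝓝 0) →
    IsMomentum g k P → P = 0

end Pool.Agent.PFlow


end

section

/-!
XMOM: if the mean of `|k|` over large shells is small then the momentum vanishes.
-/

open MeasureTheory Filter Topology Set
open scoped ContDiff ENNReal

namespace Pool.Agent.PFlow

open Pool.Agent.PenroseSph

namespace MXMOM

/-- The measure of the sphere. -/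
noncomputable abbrev sg : Measure (Metric.sphere (0 : E3) 1) := (volume : Measure E3).toSphere

/-- Polar coordinates for an integrable function. -/
theorem integral_polar {F : E3 → ℝ} (hF : Integrable F (volume : Measure E3)) :
    ∫ x, F x = ∫ r in Ioi (0 : ℝ), r ^ 2 * ∫ w, F (r • (w : E3)) ∂sg := by
  have hdim : Module.finrank ℝ E3 - 1 = 2 := by simp
  have h1 : ∫ x, F x = ∫ x : ({(0 : E3)}ᶜ : Set E3), F x.1 ∂((volume : Measure E3).comap (↑)) := by
    rw [integral_subtype_comap (measurableSet_singleton _).compl fun x : E3 ↦ F x,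
      restrict_compl_singleton]
  have h2 : ∫ x : ({(0 : E3)}ᶜ : Set E3), F x.1 ∂((volume : Measure E3).comap (↑))
      = ∫ p : Metric.sphere (0 : E3) 1 × Ioi (0 : ℝ), F (p.2.1 • (p.1 : E3))
        ∂(sg.prod (.volumeIoiPow 2)) := by
    have := (volume : Measure E3).measurePreserving_homeomorphUnitSphereProd.integral_comp
      (Homeomorph.measurableEmbedding _) (fun p => F (p.2.1 • (p.1 : E3)))
    rw [hdim] at this
    rw [← this]
    refine integral_congr_ae (Eventually.of_forall fun x => ?_)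
    simp only [homeomorphUnitSphereProd_apply_snd_coe, homeomorphUnitSphereProd_apply_fst_coe]
    congr 1
    have : ‖(x : E3)‖ ≠ 0 := norm_ne_zero_iff.2 x.2
    rw [smul_smul, mul_inv_cancel₀ this, one_smul]
  have hint : Integrable (fun p : Metric.sphere (0 : E3) 1 × Ioi (0 : ℝ) => F (p.2.1 • (p.1 : E3)))
      (sg.prod (.volumeIoiPow 2)) := by
    have := (volume : Measure E3).measurePreserving_homeomorphUnitSphereProd.integrable_comp_emb
      (Homeomorph.measurableEmbedding _) (g := fun p => F (p.2.1 • (p.1 : E3)))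
    rw [hdim] at this
    rw [← this]
    have h3 : Integrable (fun x : ({(0 : E3)}ᶜ : Set E3) => F x.1)
        ((volume : Measure E3).comap (↑)) := by
      have h4 := (integrableOn_iff_comap_subtypeVal (μ := (volume : Measure E3)) (f := F)
        (measurableSet_singleton (0 : E3)).compl).1 hF.integrableOn
      exact h4
    refine h3.congr (Eventually.of_forall fun x => ?_)
    simp only [Function.comp_apply, homeomorphUnitSphereProd_apply_snd_coe,
      homeomorphUnitSphereProd_apply_fst_coe]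
    congr 1
    have : ‖(x : E3)‖ ≠ 0 := norm_ne_zero_iff.2 x.2
    rw [smul_smul, mul_inv_cancel₀ this, one_smul]
  rw [h1, h2, integral_prod_symm _ hint]
  simp only [Measure.volumeIoiPow, ENNReal.ofReal]
  rw [integral_withDensity_eq_integral_smul,
    integral_subtype_comap measurableSet_Ioi
      fun a ↦ Real.toNNReal (a ^ 2) • ∫ w, F (a • (w : E3)) ∂sg,
    setIntegral_congr_fun measurableSet_Ioi fun x hx ↦ ?_]
  · rw [NNReal.smul_def, Real.coe_toNNReal _ (pow_nonneg (le_of_lt hx) _), smul_eq_mul]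
  · exact (measurable_subtype_coe.pow_const _).real_toNNReal

/-- Continuity of spherical integrals. -/
theorem continuousOn_sphere_integral {ρ₁ : ℝ} {G : E3 → ℝ}
    (hG : ContinuousOn G {x : E3 | ρ₁ < ‖x‖}) (h0 : 0 ≤ ρ₁) :
    ContinuousOn (fun r : ℝ => ∫ w, G (r • (w : E3)) ∂sg) (Ioi ρ₁) := by
  rw [continuousOn_iff_continuous_domRestrict]
  have h1 : Continuous (Function.uncurry
      fun (r : Ioi ρ₁) (w : Metric.sphere (0 : E3) 1) => G (r.1 • (w : E3))) := by
    refine hG.comp_continuous (f := fun p : Ioi ρ₁ × Metric.sphere (0 : E3) 1 =>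
      p.1.1 • (p.2 : E3)) (by fun_prop) ?_
    rintro ⟨r, w⟩
    have hr : ρ₁ < r.1 := r.2
    simp only [mem_ofPred_eq, norm_smul, norm_eq_of_mem_sphere w, mul_one]
    rwa [Real.norm_eq_abs, abs_of_pos (lt_of_le_of_lt h0 hr)]
  have : LocallyCompactSpace (Ioi ρ₁) := isOpen_Ioi.isOpenEmbedding_subtypeVal.locallyCompactSpace
  have h2 := continuous_parametric_integral_of_continuous (μ := sg) h1
    (isCompact_univ (X := Metric.sphere (0 : E3) 1))
  simp only [Measure.restrict_univ] at h2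
  exact h2

theorem norm_smul_sphere {r : ℝ} (hr : 0 < r) (θ : Metric.sphere (0 : E3) 1) :
    ‖r • (θ : E3)‖ = r := by
  rw [norm_smul, norm_eq_of_mem_sphere, mul_one, Real.norm_eq_abs, abs_of_pos hr]

theorem msz_nonneg (B : Bil) : 0 ≤ msz B := Real.sqrt_nonneg _

theorem abs_le_msz (B : Bil) (i j : Fin 3) : |B i j| ≤ msz B := by
  unfold msz
  refine Real.abs_le_sqrt ?_
  have h1 : B i j ^ 2 ≤ ∑ j, B i j ^ 2 :=
    Finset.single_le_sum (f := fun j => B i j ^ 2) (fun j _ => sq_nonneg _) (Finset.mem_univ j)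
  have h2 : ∑ j, B i j ^ 2 ≤ ∑ i, ∑ j, B i j ^ 2 :=
    Finset.single_le_sum (f := fun i => ∑ j, B i j ^ 2)
      (fun i _ => Finset.sum_nonneg fun j _ => sq_nonneg _) (Finset.mem_univ i)
  exact h1.trans h2

theorem abs_coord (θ : Metric.sphere (0 : E3) 1) (i : Fin 3) : |(θ : E3) i| ≤ 1 := by
  have h1 := EuclideanSpace.norm_eq (θ : E3)
  rw [norm_eq_of_mem_sphere] at h1
  have h2 : (θ : E3) i ^ 2 ≤ ∑ j, ‖(θ : E3) j‖ ^ 2 := by
    have h3 := Finset.single_le_sum (f := fun j => ‖(θ : E3) j‖ ^ 2)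
      (fun j _ => sq_nonneg _) (Finset.mem_univ i)
    simpa [Real.norm_eq_abs, sq_abs] using h3
  have h4 : ∑ j, ‖(θ : E3) j‖ ^ 2 = 1 := by
    have h5 : 0 ≤ ∑ j, ‖(θ : E3) j‖ ^ 2 := Finset.sum_nonneg fun _ _ => sq_nonneg _
    rw [← Real.sq_sqrt h5, ← h1]
    norm_num
  rw [h4] at h2
  exact (sq_le_one_iff_abs_le_one _).1 h2

theorem sum3 {f : Fin 3 → ℝ} {b : ℝ} (h : ∀ i, |f i| ≤ b) : |∑ i, f i| ≤ 3 * b := by
  refine (Finset.abs_sum_le_sum_abs _ _).trans ?_
  refine (Finset.sum_le_sum fun i _ => h i).trans ?_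
  rw [Finset.sum_const, Finset.card_univ, Fintype.card_fin, nsmul_eq_mul]
  norm_num

theorem mul2 {a b A B : ℝ} (ha : |a| ≤ A) (hb : |b| ≤ B) : |a * b| ≤ A * B := by
  rw [abs_mul]
  exact mul_le_mul ha hb (abs_nonneg _) ((abs_nonneg _).trans ha)

/-- The pointwise bound of the momentum integrand. -/
theorem point {G K : Bil} {η : ℝ} (hη : η ≤ 1 / 100) (h : ∀ i j, |G i j - (1 : Bil) i j| ≤ η)
    (i : Fin 3) (θ : Metric.sphere (0 : E3) 1) :
    |∑ j, (K i j - (∑ a, ∑ b, G⁻¹ a b * K a b) * G i j) * (θ : E3) j| ≤ 111 * msz K := by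
  have h1 := (ESCAL.inv_bound hη h).1
  have hm := msz_nonneg K
  have h2 : |∑ a, ∑ b, G⁻¹ a b * K a b| ≤ 3 * (3 * (2 * msz K)) :=
    sum3 fun a => sum3 fun b => mul2 (h1 a b) (abs_le_msz K a b)
  have h3 : ∀ j, |G i j| ≤ 2 := by
    intro j
    have h4 : |(1 : Bil) i j| ≤ 1 := by
      rw [Matrix.one_apply]
      split_ifs
      · rw [abs_one]
      · rw [abs_zero]
        exact zero_le_one
    have h5 := abs_add_le (G i j - (1 : Bil) i j) ((1 : Bil) i j)
    rw [sub_add_cancel] at h5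
    have h6 := h i j
    linarith
  have h7 : ∀ j, |K i j - (∑ a, ∑ b, G⁻¹ a b * K a b) * G i j| ≤ 37 * msz K := by
    intro j
    have h8 := abs_sub (K i j) ((∑ a, ∑ b, G⁻¹ a b * K a b) * G i j)
    have h9 := mul2 h2 (h3 j)
    have h10 := abs_le_msz K i j
    linarith
  have h11 := sum3 fun j => mul2 (h7 j) (abs_coord θ j)
  linarith

theorem isCompact_cAnn (a b : ℝ) : IsCompact (cAnn a b) := by
  have h1 : IsClosed (cAnn a b) :=
    (isClosed_le continuous_const continuous_norm).inter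
      (isClosed_le continuous_norm continuous_const)
  refine Metric.isCompact_of_isClosed_isBounded h1 ?_
  refine (Metric.isBounded_closedBall (x := (0 : E3)) (r := b)).subset fun x hx => ?_
  rw [mem_closedBall_zero_iff]
  exact hx.2

theorem msz_cont {k : TensorField} {U : Set E3} (hk : ∀ i j, ContDiffOn ℝ ∞ (fun x => k x i j) U) :
    ContinuousOn (fun x => msz (k x)) U := by
  unfold msz
  refine Real.continuous_sqrt.comp_continuousOn ?_
  refine continuousOn_finsetSum _ fun i _ => continuousOn_finsetSum _ fun j _ => ?_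
  exact ((hk i j).continuousOn).pow 2

/-- The integral over a shell. -/
theorem shell {f : E3 → ℝ} (hf : ContinuousOn f {x : E3 | 1 < ‖x‖}) {l c : ℝ} (hl : 2 < l)
    (hc : ∀ r : ℝ, l / 2 ≤ r → c ≤ r ^ 2 * ∫ w, f (r • (w : E3)) ∂sg) :
    c / 2 ≤ ∫ x in cAnn (l / 2) l, f x / l := by
  have hl0 : 0 < l := by linarith
  have hmc := isCompact_cAnn (l / 2) l
  have hms : MeasurableSet (cAnn (l / 2) l) := hmc.isClosed.measurableSet
  have hsub : cAnn (l / 2) l ⊆ {x : E3 | 1 < ‖x‖} := by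
    intro x hx
    have := hx.1
    show 1 < ‖x‖
    linarith
  have hi : IntegrableOn (fun x => f x / l) (cAnn (l / 2) l) :=
    ((hf.mono hsub).div_const l).integrableOn_compact hmc
  have hF : Integrable ((cAnn (l / 2) l).indicator fun x => f x / l) :=
    (integrable_indicator_iff hms).mpr hi
  rw [← integral_indicator hms, integral_polar hF]
  have h1 : ∫ r in Ioi (0 : ℝ), r ^ 2 * ∫ w, (cAnn (l / 2) l).indicator (fun x => f x / l)
      (r • (w : E3)) ∂sg = ∫ r in Ioi (0 : ℝ), (Icc (l / 2) l).indicator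
        (fun r => r ^ 2 * ∫ w, f (r • (w : E3)) / l ∂sg) r := by
    refine setIntegral_congr_fun measurableSet_Ioi fun r hr => ?_
    have hr0 : 0 < r := hr
    by_cases h : r ∈ Icc (l / 2) l
    · have h2 : ∀ w : Metric.sphere (0 : E3) 1, (cAnn (l / 2) l).indicator (fun x => f x / l)
          (r • (w : E3)) = f (r • (w : E3)) / l := by
        intro w
        refine indicator_of_mem ?_ _
        show l / 2 ≤ ‖r • (w : E3)‖ ∧ ‖r • (w : E3)‖ ≤ l
        rw [norm_smul_sphere hr0]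
        exact h
      simp only [h2]
      rw [indicator_of_mem h]
    · have h2 : ∀ w : Metric.sphere (0 : E3) 1, (cAnn (l / 2) l).indicator (fun x => f x / l)
          (r • (w : E3)) = 0 := by
        intro w
        refine indicator_of_notMem (fun h3 => h ?_) _
        have h4 : l / 2 ≤ ‖r • (w : E3)‖ ∧ ‖r • (w : E3)‖ ≤ l := h3
        rw [norm_smul_sphere hr0] at h4
        exact h4
      simp only [h2]
      rw [indicator_of_notMem h, integral_zero, mul_zero]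
  rw [h1, setIntegral_indicator measurableSet_Icc]
  have h3 : Ioi (0 : ℝ) ∩ Icc (l / 2) l = Icc (l / 2) l := by
    refine inter_eq_right.mpr fun r hr => ?_
    have := hr.1
    show 0 < r
    linarith
  rw [h3]
  have h4 : ContinuousOn (fun r : ℝ => r ^ 2 * ∫ w, f (r • (w : E3)) / l ∂sg)
      (Icc (l / 2) l) := by
    refine (continuousOn_id.pow 2).mul ?_
    refine (continuousOn_sphere_integral (ρ₁ := 1) (G := fun x => f x / l)
      (hf.div_const l) zero_le_one).mono fun r hr => ?_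
    have := hr.1
    show 1 < r
    linarith
  have h5 : ∫ _ in Icc (l / 2) l, c / l ≤
      ∫ r in Icc (l / 2) l, r ^ 2 * ∫ w, f (r • (w : E3)) / l ∂sg := by
    refine setIntegral_mono_on ?_ (h4.integrableOn_compact isCompact_Icc) measurableSet_Icc ?_
    · exact continuousOn_const.integrableOn_compact isCompact_Icc
    · intro r hr
      rw [integral_div, ← mul_div_assoc]
      exact div_le_div_of_nonneg_right (hc r hr.1) hl0.le
  have h6 : ∫ _ in Icc (l / 2) l, c / l = c / 2 := by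
    rw [setIntegral_const, smul_eq_mul, Real.volume_real_Icc_of_le (by linarith)]
    field_simp
    ring
  rw [h6] at h5
  exact h5

end MXMOM

open MXMOM in
/-- XMOM: if the mean of `|k|` over large shells is small then the momentum vanishes. -/
theorem XMOM : Stmt_XMOM := by
  intro g k δ₀ P hδ hg hk ⟨C, R, hdec⟩ hlim hmom
  by_contra hP
  obtain ⟨i, hi⟩ : ∃ i, P i ≠ 0 := by
    by_contra h
    push Not at h
    exact hP (funext h)
  have hPi : 0 < |P i| := abs_pos.mpr hi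
  have hout : {x : E3 | 1 < ‖x‖} ⊆ Outside δ₀ := by
    intro x hx
    have h1 : 1 < ‖x‖ := hx
    show 1 - δ₀ < ‖x‖
    linarith
  have hcont : ContinuousOn (fun x => msz (k x)) {x : E3 | 1 < ‖x‖} :=
    (msz_cont hk.smooth).mono hout
  obtain ⟨r₁, hr₁⟩ : ∃ r₁ : ℝ, r₁ = max (max R 2) (100 * |C|) := ⟨_, rfl⟩
  have hR : R ≤ r₁ := by rw [hr₁]; exact (le_max_left _ _).trans (le_max_left _ _)
  have h2 : 2 ≤ r₁ := by rw [hr₁]; exact (le_max_right _ _).trans (le_max_left _ _)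
  have hC : 100 * |C| ≤ r₁ := by rw [hr₁]; exact le_max_right _ _
  have hpt : ∀ ρ : ℝ, r₁ ≤ ρ → ∀ θ : Metric.sphere (0 : E3) 1,
      |(∑ j, (k (ρ • (θ : E3)) i j - trg g (ρ • (θ : E3)) (k (ρ • (θ : E3))) *
        g (ρ • (θ : E3)) i j) * (θ : E3) j) * ρ ^ 2| ≤ 111 * msz (k (ρ • (θ : E3))) * ρ ^ 2 := by
    intro ρ hρ θ
    have hρ0 : 0 < ρ := by linarith
    have hn := norm_smul_sphere hρ0 θ
    rw [abs_mul, abs_of_nonneg (sq_nonneg ρ)]
    refine mul_le_mul_of_nonneg_right ?_ (sq_nonneg ρ)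
    have hη : C / ‖ρ • (θ : E3)‖ ≤ 1 / 100 := by
      rw [hn, div_le_div_iff₀ hρ0 (by norm_num)]
      have := le_abs_self C
      linarith
    exact point hη (fun a b => (hdec _ (by rw [hn]; linarith) a b).1) i θ
  have hsc : ∀ ρ : ℝ, r₁ ≤ ρ → Continuous fun θ : Metric.sphere (0 : E3) 1 =>
      msz (k (ρ • (θ : E3))) := by
    intro ρ hρ
    have hρ0 : 0 < ρ := by linarith
    refine hcont.comp_continuous (f := fun θ : Metric.sphere (0 : E3) 1 => ρ • (θ : E3))
      (by fun_prop) fun θ => ?_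
    show 1 < ‖ρ • (θ : E3)‖
    rw [norm_smul_sphere hρ0]
    linarith
  have hbd : ∀ ρ : ℝ, r₁ ≤ ρ → |1 / (8 * Real.pi) * ∫ θ : Metric.sphere (0 : E3) 1,
      (∑ j, (k (ρ • (θ : E3)) i j - trg g (ρ • (θ : E3)) (k (ρ • (θ : E3))) *
        g (ρ • (θ : E3)) i j) * (θ : E3) j) * ρ ^ 2 ∂((volume : Measure E3).toSphere)| ≤
      111 * (ρ ^ 2 * ∫ θ, msz (k (ρ • (θ : E3))) ∂sg) := by
    intro ρ hρ
    have hint : Integrable (fun θ : Metric.sphere (0 : E3) 1 =>
        111 * msz (k (ρ • (θ : E3))) * ρ ^ 2) sg := by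
      refine ((continuous_const.mul (hsc ρ hρ)).mul continuous_const).integrable_of_hasCompactSupport
        (HasCompactSupport.of_compactSpace _)
    have h3 := norm_integral_le_of_norm_le hint (Eventually.of_forall fun θ => by
      rw [Real.norm_eq_abs]
      exact hpt ρ hρ θ)
    have h4 : ∫ θ : Metric.sphere (0 : E3) 1, 111 * msz (k (ρ • (θ : E3))) * ρ ^ 2 ∂sg =
        111 * (ρ ^ 2 * ∫ θ, msz (k (ρ • (θ : E3))) ∂sg) := by
      rw [integral_mul_const, integral_const_mul]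
      ring
    rw [h4, Real.norm_eq_abs] at h3
    rw [abs_mul]
    have h5 : |1 / (8 * Real.pi)| ≤ 1 := by
      rw [abs_of_pos (by positivity), div_le_one (by positivity)]
      have := Real.pi_gt_three
      linarith
    have h6 : 0 ≤ 111 * (ρ ^ 2 * ∫ θ, msz (k (ρ • (θ : E3))) ∂sg) := (abs_nonneg _).trans h3
    calc |1 / (8 * Real.pi)| * |∫ θ : Metric.sphere (0 : E3) 1, (∑ j, (k (ρ • (θ : E3)) i j -
          trg g (ρ • (θ : E3)) (k (ρ • (θ : E3))) * g (ρ • (θ : E3)) i j) * (θ : E3) j) * ρ ^ 2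
          ∂((volume : Measure E3).toSphere)|
        ≤ 1 * (111 * (ρ ^ 2 * ∫ θ, msz (k (ρ • (θ : E3))) ∂sg)) :=
          mul_le_mul h5 h3 (abs_nonneg _) zero_le_one
      _ = _ := one_mul _
  have hev : ∀ᶠ ρ : ℝ in atTop, |P i| / 2 < |1 / (8 * Real.pi) *
      ∫ θ : Metric.sphere (0 : E3) 1,
      (∑ j, (k (ρ • (θ : E3)) i j - trg g (ρ • (θ : E3)) (k (ρ • (θ : E3))) *
        g (ρ • (θ : E3)) i j) * (θ : E3) j) * ρ ^ 2 ∂((volume : Measure E3).toSphere)| := by
    refine ((hmom i).abs).eventually (lt_mem_nhds ?_)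
    linarith
  obtain ⟨r₂, hr₂⟩ := eventually_atTop.mp (hev.and (eventually_ge_atTop r₁))
  have hlow : ∀ ρ : ℝ, r₂ ≤ ρ → |P i| / 222 ≤ ρ ^ 2 * ∫ θ, msz (k (ρ • (θ : E3))) ∂sg := by
    intro ρ hρ
    obtain ⟨h3, h4⟩ := hr₂ ρ hρ
    have h5 := hbd ρ h4
    linarith
  have hev2 : ∀ᶠ l : ℝ in atTop, |P i| / 222 / 2 ≤ ∫ x in cAnn (l / 2) l, msz (k x) / l := by
    filter_upwards [eventually_gt_atTop 2, eventually_ge_atTop (2 * r₂)] with l hl hl2
    refine shell hcont hl fun r hr => hlow r ?_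
    linarith
  have h7 := ge_of_tendsto hlim hev2
  linarith

end Pool.Agent.PFlow


end

section

/-!
XMSII: the inequality (ii) for the flux, exterior regions.
-/

open MeasureTheory Filter Topology
open scoped ContDiff ENNReal

namespace Pool.Agent.PFlow

open Pool.Agent.PenroseSph

namespace XMSIIAux

lemma cont_vol {g : TensorField} (hg : MetricOn Set.univ g) : Continuous (volDen g) := by
  have h : ∀ i j, Continuous fun x => g x i j := fun i j =>
    continuousOn_univ.mp (hg.smooth i j).continuousOn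
  unfold volDen
  refine Real.continuous_sqrt.comp ?_
  simp only [Matrix.det_fin_three]
  exact ((((((h 0 0).mul (h 1 1)).mul (h 2 2)).sub (((h 0 0).mul (h 1 2)).mul (h 2 1))).sub
    (((h 0 1).mul (h 1 0)).mul (h 2 2))).add (((h 0 1).mul (h 1 2)).mul (h 2 0))).add
    (((h 0 2).mul (h 1 0)).mul (h 2 1)) |>.sub (((h 0 2).mul (h 1 1)).mul (h 2 0))

lemma vol_le {g h : TensorField} {C : ℝ} (hC : 0 ≤ C) (hd : DecayFrom C 2 g h) {x : E3}
    (hx2 : 2 ≤ ‖x‖) : volDen g x ≤ 6 * (1 + C) ^ 3 + 1 := by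
  have hx : 1 ≤ ‖x‖ := by linarith
  have hb : ∀ i j, |g x i j| ≤ 1 + C := by
    intro i j
    have h1 := (hd x hx2 i j).1
    have h2 : C / ‖x‖ ≤ C := div_le_self hC hx
    have h3 : |(1 : Bil) i j| ≤ 1 := by
      rw [Matrix.one_apply]; split_ifs <;> simp
    have h4 : |g x i j| ≤ |g x i j - (1 : Bil) i j| + |(1 : Bil) i j| := by
      have := abs_add_le (g x i j - (1 : Bil) i j) ((1 : Bil) i j)
      simpa using this
    linarith
  have h0 : (0 : ℝ) ≤ 1 + C := by linarith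
  have ht : ∀ a b c : ℝ, |a| ≤ 1 + C → |b| ≤ 1 + C → |c| ≤ 1 + C → |a * b * c| ≤ (1 + C) ^ 3 := by
    intro a b c ha hb hc
    rw [abs_mul, abs_mul]
    calc |a| * |b| * |c| ≤ (1 + C) * (1 + C) * (1 + C) := by gcongr
      _ = (1 + C) ^ 3 := by ring
  have hdet : (g x).det ≤ 6 * (1 + C) ^ 3 := by
    rw [Matrix.det_fin_three]
    have a1 := abs_le.mp (ht _ _ _ (hb 0 0) (hb 1 1) (hb 2 2))
    have a2 := abs_le.mp (ht _ _ _ (hb 0 0) (hb 1 2) (hb 2 1))
    have a3 := abs_le.mp (ht _ _ _ (hb 0 1) (hb 1 0) (hb 2 2))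
    have a4 := abs_le.mp (ht _ _ _ (hb 0 1) (hb 1 2) (hb 2 0))
    have a5 := abs_le.mp (ht _ _ _ (hb 0 2) (hb 1 0) (hb 2 1))
    have a6 := abs_le.mp (ht _ _ _ (hb 0 2) (hb 1 1) (hb 2 0))
    linarith [a1.2, a2.1, a3.1, a4.2, a5.2, a6.1]
  have h5 : (0 : ℝ) ≤ 6 * (1 + C) ^ 3 := by positivity
  unfold volDen
  calc Real.sqrt (g x).det ≤ Real.sqrt (6 * (1 + C) ^ 3) := Real.sqrt_le_sqrt hdet
    _ ≤ 6 * (1 + C) ^ 3 + 1 := by
      rw [Real.sqrt_le_left (by positivity)]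
      nlinarith

lemma isCompact_cAnn (a b : ℝ) : IsCompact (cAnn a b) := by
  have : cAnn a b = Metric.closedBall 0 b ∩ {x : E3 | a ≤ ‖x‖} := by
    ext x; simp only [cAnn, Set.mem_setOf_eq, Set.mem_inter_iff, mem_closedBall_zero_iff]; tauto
  rw [this]
  exact (isCompact_closedBall _ _).inter_right (isClosed_le continuous_const continuous_norm)

lemma exp_bound {ε γ l : ℝ} (hε : 0 < ε) (hε2 : ε ≤ 1 / 2) (hγ : 0 < γ) (hl : 1 ≤ l) :
    Real.exp (-(s2E ε γ l / (2 - ε))) ≤ 1 / l := by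
  have hl0 : 0 < l := by linarith
  have h2 : 0 < 2 - ε := by linarith
  have h1 : Real.log l ≤ s2E ε γ l / (2 - ε) := by
    rw [le_div_iff₀ h2]
    unfold s2E
    have : Real.log l ≤ Real.log (4 * l) := Real.log_le_log hl0 (by linarith)
    nlinarith
  calc Real.exp (-(s2E ε γ l / (2 - ε))) ≤ Real.exp (-Real.log l) := Real.exp_le_exp.mpr (by linarith)
    _ = 1 / l := by rw [Real.exp_neg, Real.exp_log hl0, one_div]

end XMSIIAux

open XMSIIAux

theorem XMSII (hXSETW : Stmt_XSETW) (_hXABSI : Stmt_XABSI) (_hBETA : Stmt_BETA)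
    (hTSTB : Stmt_TSTB) (hXUPH : Stmt_XUPH) (hXMATL : Stmt_XMATL) (hJL : Stmt_JL) :
    Stmt_XMSII := by
  intro P B B₃ θ β hθ hθ1 hβ
  by_cases hP : 0 < P.eps ∧ P.eps ≤ 1 / 2
  swap
  · exact ⟨1, one_pos, fun D hS => absurd ⟨hS.eps_pos, hS.eps_le⟩ hP⟩
  obtain ⟨hε, hε2⟩ := hP
  obtain ⟨C₁, hC₁, hT⟩ := hTSTB P.eps β hε hε2 hβ
  obtain ⟨C₂, hC₂, hJ⟩ := hJL P.eps θ β hε hε2 hθ hθ1 hβ
  obtain ⟨BU, hBU, hU⟩ := hXUPH P B β hβ
  obtain ⟨BM, hBM, hM⟩ := hXMATL P B
  set T : ℝ := θ ^ (-(2 * (2 - P.eps))) with hTdef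
  have hT0 : 0 < T := Real.rpow_pos_of_pos hθ _
  set N₀ : ℝ := 2 + BM * BU with hN₀
  set Cv : ℝ := 6 * (1 + |P.C|) ^ 3 + 1 with hCv
  have hCv0 : 0 < Cv := by positivity
  refine ⟨T * C₁ * (N₀ + |B|) + C₂ * Cv * |B₃| ^ 3 + 1, by positivity, ?_⟩
  intro D hS hA se lm L hcut hlam hL hLM
  obtain ⟨-, -, -, -, -, -, hmw, -, -, hsb, -, -, hs4, hup, hKl, -, hs21, hs2M, hKR, hlK⟩ :=
    hXSETW P D hS
  have hl4 : 8 ≤ D.l := hS.l_ge
  have hl0 : 0 < D.l := by linarith
  have hγ := hS.gam_ge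
  have hvol : Continuous D.vol := cont_vol hS.modified.metric
  have hvol0 : ∀ x, 0 ≤ D.vol x := fun x => Real.sqrt_nonneg _
  have hX0 : ∀ x, 0 ≤ D.X P x := hA.X_nonneg
  have hph0 : ∀ x, 0 ≤ D.ph P x := fun x => mul_nonneg (Real.exp_pos _).le (hX0 x)
  -- `B` is nonnegative
  have hB0 : 0 ≤ B := by
    refine le_trans ?_ (hA.window (D.s2 P) le_rfl (by linarith))
    exact integral_nonneg fun x => mul_nonneg (pow_nonneg (hX0 x) 3) (hvol0 x)
  have hB₃ : 0 ≤ B₃ := hlam.nonneg.trans hlam.le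
  -- the bound for the matter term
  have hphi : ∫ x in cAnn (D.l / 2) (2 * D.l), D.ph P x ≤ BU * D.l ^ 3 := by
    obtain ⟨-, h1, h2⟩ := hU D hS hA
    refine le_trans (setIntegral_mono_set h1 (Eventually.of_forall fun x => hph0 x) ?_) h2
    refine (HasSubset.Subset.eventuallyLE ?_)
    rintro x ⟨hx1, hx2⟩
    exact ⟨by linarith, by linarith⟩
  have hN : (∫ x in D.Om ∩ {x | P.eps / 4 / 2 < D.w P x ∧ D.w P x < D.s2 P + L + 1},
      Real.exp (D.w P x / (2 - P.eps)) * max (-D.Su P x) 0 * D.vol x) ≤ N₀ := by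
    have h8 : P.eps / 4 / 2 = P.eps / 8 := by ring
    rw [h8]
    refine ((hM D hS hA).2 (D.s2 P + L + 1) hLM).trans ?_
    have h1 := hcut.def_le
    have h1' := hcut.col_le
    have h2 : BM / D.l ^ 3 * ∫ x in cAnn (D.l / 2) (2 * D.l), D.ph P x ≤ BM * BU := by
      calc BM / D.l ^ 3 * ∫ x in cAnn (D.l / 2) (2 * D.l), D.ph P x
          ≤ BM / D.l ^ 3 * (BU * D.l ^ 3) := by gcongr
        _ = BM * BU := by field_simp
    linarith
  -- TSTB
  have hI := hT D.Om D.vol (D.w P) (D.X P) (D.Phi P) (D.Di P) (D.Su P) (P.eps / 4) (D.s2 P)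
    (D.sM P) B 0 hA (by linarith) (by linarith) (by linarith) hB0 le_rfl L N₀ hL hLM hN
  set I : ℝ := ∫ x in D.Om, β (D.w P x - D.s2 P) * D.X P x ^ 3 * D.vol x with hIdef
  have hexp : Real.exp (-(D.s2 P / (2 - P.eps))) ≤ 1 / D.l :=
    exp_bound hε hε2 (by linarith) (by linarith)
  have hN₀0 : 0 < N₀ := by positivity
  have hI2 : I ≤ 4 * Real.pi * (2 - P.eps) ^ 2
      + C₁ * (1 / D.l * N₀ + Real.exp (-(L / P.eps)) * B) := by
    refine hI.trans ?_
    have h1 : Real.exp (-(D.s2 P / (2 - P.eps))) * (N₀ + 0 / (P.eps / 4) ^ 2) ≤ 1 / D.l * N₀ := by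
      rw [zero_div, add_zero]
      exact mul_le_mul_of_nonneg_right hexp hN₀0.le
    have h2 := mul_le_mul_of_nonneg_left h1 hC₁.le
    linarith [mul_add C₁ (Real.exp (-(D.s2 P / (2 - P.eps))) * (N₀ + 0 / (P.eps / 4) ^ 2))
        (Real.exp (-(L / P.eps)) * B),
      mul_add C₁ (1 / D.l * N₀) (Real.exp (-(L / P.eps)) * B)]
  -- JL
  have hcomp := isCompact_cAnn (D.l / 2) (D.Kl P)
  have hsub : cAnn (D.l / 2) (D.Kl P) ⊆ D.Om := by
    rintro x ⟨hx1, hx2⟩
    exact ⟨by linarith, by linarith⟩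
  have hnorm : ∀ x ∈ cAnn (D.l / 2) (D.Kl P), 2 ≤ ‖x‖ := fun x hx => by
    have := hx.1
    linarith
  have hvle : ∀ x ∈ cAnn (D.l / 2) (D.Kl P), D.vol x ≤ Cv := by
    intro x hx
    have h1 := vol_le (g := D.g') (h := 0) hS.C_pos.le hS.modified.decay (hnorm x hx)
    rw [hCv, abs_of_pos hS.C_pos]; exact h1
  have hlev : cAnn (D.l / 2) (D.Kl P)
      ⊆ D.Om ∩ {x | P.eps / 8 ≤ D.w P x ∧ D.w P x ≤ D.s2 P + 1 + 2 * P.gam} := by
    intro x hx
    refine ⟨hsub hx, ?_, hup x (by linarith [hx.1]) hx.2⟩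
    have := hsb x (hsub hx)
    linarith
  have hX3 : IntegrableOn (fun x => D.X P x ^ 3 * D.vol x) (cAnn (D.l / 2) (D.Kl P)) :=
    (hA.int_X (P.eps / 8) (D.s2 P + 1 + 2 * P.gam) (by linarith) (by linarith)
      (by linarith)).mono_set hlev
  have hfi := hlam.int
  have hmeas : MeasurableSet (cAnn (D.l / 2) (D.Kl P)) := hcomp.measurableSet
  have hfv : IntegrableOn (fun x => (Real.sqrt (D.ph P x) - Real.sqrt lm) ^ 2 * D.vol x)
      (cAnn (D.l / 2) (D.Kl P)) := by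
    refine Integrable.mono' (hfi.const_mul Cv)
      (hfi.aestronglyMeasurable.mul hvol.aestronglyMeasurable.restrict) ?_
    refine (ae_restrict_iff' hmeas).mpr (Eventually.of_forall fun x hx => ?_)
    rw [Real.norm_of_nonneg (mul_nonneg (sq_nonneg _) (hvol0 x)), mul_comm]
    exact mul_le_mul_of_nonneg_right (hvle x hx) (sq_nonneg _)
  have hfc : (∫ x in cAnn (D.l / 2) (D.Kl P), (Real.sqrt (D.ph P x) - Real.sqrt lm) ^ 2 * D.vol x)
      ≤ Cv * (B₃ * D.l ^ 2) := by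
    calc (∫ x in cAnn (D.l / 2) (D.Kl P), (Real.sqrt (D.ph P x) - Real.sqrt lm) ^ 2 * D.vol x)
        ≤ ∫ x in cAnn (D.l / 2) (D.Kl P), Cv * (Real.sqrt (D.ph P x) - Real.sqrt lm) ^ 2 := by
          refine setIntegral_mono_on hfv (hfi.const_mul Cv) hmeas fun x hx => ?_
          rw [mul_comm]
          exact mul_le_mul_of_nonneg_right (hvle x hx) (sq_nonneg _)
      _ = Cv * ∫ x in cAnn (D.l / 2) (D.Kl P), (Real.sqrt (D.ph P x) - Real.sqrt lm) ^ 2 :=
          integral_const_mul _ _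
      _ ≤ Cv * (B₃ * D.l ^ 2) := by gcongr; exact hlam.close
  have hJL' := hJ D.Om (cAnn (D.l / 2) (D.Kl P)) D.vol (D.w P) (D.X P) (D.s2 P) lm
    (Cv * (B₃ * D.l ^ 2)) hA.measOmega hmeas hvol0 hX0 hmw hvol.measurable hA.meas_X hsub
    (by
      rintro x ⟨hx, hx1, hx2⟩
      exact ⟨by linarith [hs4 x hx hx1.le], hKl x hx hx2⟩)
    hlam.nonneg (hvol.continuousOn.integrableOn_compact hcomp) hX3 hfv hfc
  have h3 : Real.exp (-(3 * D.s2 P / (2 - P.eps))) ≤ (1 / D.l) ^ 3 := by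
    have e1 : Real.exp (-(3 * D.s2 P / (2 - P.eps))) = Real.exp (-(D.s2 P / (2 - P.eps))) ^ 3 := by
      rw [← Real.exp_nat_mul]; congr 1; push_cast; ring
    rw [e1]
    exact pow_le_pow_left₀ (Real.exp_pos _).le hexp 3
  have h4 : C₂ * Real.exp (-(3 * D.s2 P / (2 - P.eps))) * lm ^ 2 * (Cv * (B₃ * D.l ^ 2))
      ≤ C₂ * Cv * |B₃| ^ 3 * (1 / D.l) := by
    have hlm2 : lm ^ 2 ≤ B₃ ^ 2 := pow_le_pow_left₀ hlam.nonneg hlam.le 2
    calc C₂ * Real.exp (-(3 * D.s2 P / (2 - P.eps))) * lm ^ 2 * (Cv * (B₃ * D.l ^ 2))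
        ≤ C₂ * (1 / D.l) ^ 3 * B₃ ^ 2 * (Cv * (B₃ * D.l ^ 2)) := by gcongr
      _ = C₂ * Cv * |B₃| ^ 3 * (1 / D.l) := by
          rw [abs_of_nonneg hB₃]; field_simp
  have h5 : T * I ≤ T * (4 * Real.pi * (2 - P.eps) ^ 2)
      + T * C₁ * (N₀ + |B|) * (1 / D.l + Real.exp (-(L / P.eps))) := by
    refine (mul_le_mul_of_nonneg_left hI2 hT0.le).trans ?_
    rw [abs_of_nonneg hB0]
    have e1 : 0 < 1 / D.l := by positivity
    have e2 := Real.exp_pos (-(L / P.eps))
    have e3 : 1 / D.l * N₀ + Real.exp (-(L / P.eps)) * B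
        ≤ (N₀ + B) * (1 / D.l + Real.exp (-(L / P.eps))) := by
      have f1 : 0 ≤ B * (1 / D.l) := by positivity
      have f2 : 0 ≤ N₀ * Real.exp (-(L / P.eps)) := by positivity
      nlinarith
    have e4 := mul_le_mul_of_nonneg_left e3 (mul_pos hT0 hC₁).le
    linarith [mul_add T (4 * Real.pi * (2 - P.eps) ^ 2) (C₁ * (1 / D.l * N₀ + Real.exp (-(L / P.eps)) * B)),
      mul_assoc T C₁ (1 / D.l * N₀ + Real.exp (-(L / P.eps)) * B),
      mul_assoc (T * C₁) (N₀ + B) (1 / D.l + Real.exp (-(L / P.eps)))]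
  have e1 : 0 < 1 / D.l := by positivity
  have e2 := Real.exp_pos (-(L / P.eps))
  have e5 : 0 ≤ C₂ * Cv * |B₃| ^ 3 * Real.exp (-(L / P.eps)) := by positivity
  refine hJL'.trans ?_
  nlinarith [h4, h5, e1, e2, e5]

end Pool.Agent.PFlow


end
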