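import Mathlib
import Pool.Agent.PenroseM.C05
import Pool.Agent.PenroseM.C46
import Pool.Agent.PenroseM.C66
import Pool.Agent.PenroseM.C67

/-! Parts: PFlow.HX.HXSYM, PFlow.HX.MIX, PFlow.X.XMEAN -/

section

/-!
# HXSYM: integrals of odd quantities vanish
-/

set_option autoImplicit false

open MeasureTheory Filter Topology
open scoped ContDiff ENNReal

namespace Pool.Agent.PFlow.HX

open Pool.Agent.PenroseSph Pool.Agent.PFlow Pool.Agent.PFlow.GB.COVGm
open Pool.Agent.PFlow.LEYaux

namespace HXSYMaux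

theorem ne_zero {x : E3} (hx : x ∈ Ann (1 / 2) 2) : x ≠ 0 := by
  rintro rfl
  have := hx.1
  rw [norm_zero] at this
  linarith

theorem maps {x : E3} (hx : x ∈ Ann (1 / 2) 2) : inversion x ∈ Ann (1 / 2) 2 := by
  have h0 := ne_zero hx
  have hn : 0 < ‖x‖ := norm_pos_iff.2 h0
  obtain ⟨h1, h2⟩ := hx
  refine ⟨?_, ?_⟩
  · rw [HSM2.norm_inversion x h0, lt_inv_comm₀ (by norm_num) hn]
    linarith
  · rw [HSM2.norm_inversion x h0, inv_lt_comm₀ hn (by norm_num)]
    linarith

theorem image_eq : inversion '' Ann (1 / 2) 2 = Ann (1 / 2) 2 := by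
  ext x
  constructor
  · rintro ⟨y, hy, rfl⟩
    exact maps hy
  · intro hx
    exact ⟨inversion x, maps hx, HSM2.inversion_inversion x (ne_zero hx)⟩

theorem isOpen_ann : IsOpen (Ann (1 / 2) 2) :=
  (isOpen_lt continuous_const continuous_norm).inter (isOpen_lt continuous_norm continuous_const)

/-- An odd quantity has integral zero. -/
theorem integral_odd {q : E3 → ℝ}
    (h : ∀ᵐ x ∂(volume.restrict (Ann (1 / 2) 2)),
      |(inversionJac x).det| * q (inversion x) = -q x) :
    ∫ x in Ann (1 / 2) 2, q x = 0 := by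
  have hm : MeasurableSet (Ann (1 / 2) 2) := isOpen_ann.measurableSet
  have h1 : ∫ x in Ann (1 / 2) 2, q x = ∫ x in Ann (1 / 2) 2, -q x := by
    conv_lhs => rw [← image_eq]
    rw [integral_image hm (fun x hx => ne_zero hx)]
    exact integral_congr_ae h
  rw [integral_neg] at h1
  linarith

section

variable {g h : TensorField} (hg : MetricOn Set.univ g) (hM : Mirror g h)

include hg hM

omit hg in
theorem metric0 {x : E3} (hx : x ∈ Ann (1 / 2) 2) : inverted g x = g x :=
  (hM x (by linarith [hx.1]) (by linarith [hx.2])).1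

omit hg in
theorem tensor0 {x : E3} (hx : x ∈ Ann (1 / 2) 2) :
    pb (PenroseConvex.jac inversion x) (h (inversion x)) = -h x := by
  rw [pb_eq, jac_inversion (ne_zero hx)]
  exact (hM x (by linarith [hx.1]) (by linarith [hx.2])).2

omit hg in
theorem vol0 {x : E3} (hx : x ∈ Ann (1 / 2) 2) :
    |(inversionJac x).det| * volDen g (inversion x) = volDen g x := by
  have h1 : (g x).det = (inversionJac x).det ^ 2 * (g (inversion x)).det := by
    rw [← metric0 hM hx]
    unfold inverted
    rw [Matrix.det_mul, Matrix.det_mul, Matrix.det_transpose]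
    ring
  unfold volDen
  rw [h1, Real.sqrt_mul (sq_nonneg _), Real.sqrt_sq_eq_abs]

omit hM in
theorem on0 : MetricOn {0}ᶜ g where
  smooth := fun i j => (hg.smooth i j).mono (Set.subset_univ _)
  posDef := fun x _ => hg.posDef x (Set.mem_univ _)

theorem len0 {x : E3} (hx : x ∈ Ann (1 / 2) 2) (p : Cov) :
    len g (inversion x) p = len g x (pc (PenroseConvex.jac inversion x) p) := by
  rw [← len_pc (rel_chg (chg_inversion (on0 hg) (ne_zero hx)))]
  exact len_congr (metric0 hM hx) _

theorem beps0 {x : E3} (hx : x ∈ Ann (1 / 2) 2) (ε : ℝ) {p q : Cov}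
    (hp : pc (PenroseConvex.jac inversion x) p = -q) :
    beps ε g (inversion x) p (h (inversion x)) = -beps ε g x q (h x) := by
  rw [← beps_inv (on0 hg) (ne_zero hx), beps_congr (metric0 hM hx), hp,
    tensor0 hM hx, beps_neg]

end

theorem btan_eq (g : TensorField) (x : E3) (p : Cov) (B : Bil) :
    btan g x p B = beps 0 g x p B := by
  unfold btan beps
  ring

end HXSYMaux

open HXSYMaux

theorem HXSYM (hHXANTI : Stmt_HXANTI) : Stmt_HXSYM := by
  intro ε g h u G M hg _ hM hu hodd
  have hG := (hHXANTI u G M hu hodd).1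
  have hmem : ∀ᵐ x ∂(volume.restrict (Ann (1 / 2) 2)), x ∈ Ann (1 / 2) 2 :=
    ae_restrict_mem isOpen_ann.measurableSet
  have hpc : ∀ {x : E3}, x ∈ Ann (1 / 2) 2 →
      (∀ i, ∑ a, inversionJac x a i * G (inversion x) a = -G x i) →
      pc (PenroseConvex.jac inversion x) (G (inversion x)) = -G x := by
    intro x hx h1
    funext i
    rw [Pi.neg_apply, ← h1 i]
    unfold pc
    rw [jac_inversion (ne_zero hx)]
    exact Finset.sum_congr rfl fun a _ => mul_comm _ _
  refine ⟨fun F hF => integral_odd ?_, fun L hL => integral_odd ?_⟩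
  · filter_upwards [hG, hmem] with x h1 hx
    have e1 := hpc hx h1
    rw [hodd x hx, hF, len0 hg hM hx, e1, len_neg]
    have e2 := vol0 hM hx
    linear_combination (-(F (u x)) * len g x (G x) ^ 3) * e2
  · filter_upwards [hG, hmem] with x h1 hx
    have e1 := hpc hx h1
    rw [hodd x hx, hL, len0 hg hM hx, e1, len_neg, btan_eq, btan_eq, beps0 hg hM hx ε e1,
      beps0 hg hM hx 0 e1]
    have e2 := vol0 hM hx
    linear_combination (L (u x) * len g x (G x) ^ 2 *
      (2 / (2 - ε) * -beps ε g x (G x) (h x) - -beps 0 g x (G x) (h x))) * e2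

end Pool.Agent.PFlow.HX


end

section

/-!
# The level set inequality up to the boundary
-/

set_option autoImplicit false

open MeasureTheory Filter Topology
open scoped ContDiff ENNReal

namespace Pool.Agent.PFlow.HX

open Pool.Agent.PenroseSph Pool.Agent.PFlow

namespace MIXaux

lemma isOpen_Ann (a b : ℝ) : IsOpen (Ann a b) := by
  have h1 : IsOpen {x : E3 | a < ‖x‖} := isOpen_lt continuous_const continuous_norm
  have h2 : IsOpen {x : E3 | ‖x‖ < b} := isOpen_lt continuous_norm continuous_const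
  exact h1.inter h2

lemma measurableSet_Ann (a b : ℝ) : MeasurableSet (Ann a b) := (isOpen_Ann a b).measurableSet

lemma isCompact_cAnn (a b : ℝ) : IsCompact (cAnn a b) := by
  have h1 : IsClosed (cAnn a b) :=
    (isClosed_le continuous_const continuous_norm).inter
      (isClosed_le continuous_norm continuous_const)
  have h2 : cAnn a b ⊆ Metric.closedBall (0 : E3) b := fun x hx => by
    rw [mem_closedBall_zero_iff]
    exact hx.2
  exact (isCompact_closedBall (0 : E3) b).of_isClosed_subset h1 h2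

/-- The second cut-off. -/
noncomputable def mu (a s : ℝ) : ℝ := Real.smoothTransition (s / a - 1)

lemma mu_zero {a s : ℝ} (ha : 0 < a) (hs : s ≤ a) : mu a s = 0 := by
  refine Real.smoothTransition.zero_of_nonpos ?_
  have : s / a ≤ 1 := (div_le_one ha).mpr hs
  linarith

lemma mu_one {a s : ℝ} (ha : 0 < a) (hs : 2 * a ≤ s) : mu a s = 1 := by
  refine Real.smoothTransition.one_of_one_le ?_
  have : 2 ≤ s / a := (le_div_iff₀ ha).mpr hs
  linarith

lemma mu_nonneg (a s : ℝ) : 0 ≤ mu a s := Real.smoothTransition.nonneg _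

lemma mu_le_one (a s : ℝ) : mu a s ≤ 1 := Real.smoothTransition.le_one _

lemma mu_contDiff (a : ℝ) : ContDiff ℝ 1 (mu a) :=
  Real.smoothTransition.contDiff.comp ((contDiff_id.div_const a).sub contDiff_const)

lemma hasDerivAt_mu (a s : ℝ) :
    HasDerivAt (mu a) (deriv Real.smoothTransition (s / a - 1) * (1 / a)) s := by
  have h1 : HasDerivAt (fun s : ℝ => s / a - 1) (1 / a) s :=
    ((hasDerivAt_id s).div_const a).sub_const 1
  have h2 : HasDerivAt Real.smoothTransition (deriv Real.smoothTransition (s / a - 1))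
      (s / a - 1) :=
    ((Real.smoothTransition.contDiff (n := 1)).differentiable (by simp) _).hasDerivAt
  exact h2.comp s h1

lemma deriv_mu_left {a s : ℝ} (ha : 0 < a) (hs : s < a) : deriv (mu a) s = 0 := by
  have h : mu a =ᶠ[𝓝 s] fun _ => (0 : ℝ) := by
    filter_upwards [Iio_mem_nhds hs] with t ht
    exact mu_zero ha (le_of_lt ht)
  rw [h.deriv_eq]
  simp

lemma deriv_mu_right {a s : ℝ} (ha : 0 < a) (hs : 2 * a < s) : deriv (mu a) s = 0 := by
  have h : mu a =ᶠ[𝓝 s] fun _ => (1 : ℝ) := by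
    filter_upwards [Ioi_mem_nhds hs] with t ht
    exact mu_one ha (le_of_lt ht)
  rw [h.deriv_eq]
  simp

lemma exists_bound_st : ∃ D : ℝ, 0 ≤ D ∧ ∀ t ∈ Set.Icc (0 : ℝ) 1,
    |deriv Real.smoothTransition t| ≤ D := by
  have hc : Continuous (deriv Real.smoothTransition) :=
    (Real.smoothTransition.contDiff (n := 1)).continuous_deriv (by simp)
  obtain ⟨D, hD⟩ := isCompact_Icc.exists_bound_of_continuousOn
    (hc.continuousOn (s := Set.Icc (0 : ℝ) 1))
  refine ⟨max D 0, le_max_right _ _, fun t ht => (hD t ht).trans (le_max_left _ _)⟩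

/-- The product `(ψ - ψ(0)) μ'` is bounded uniformly in `a`. -/
lemma exists_bound {ψ : ℝ → ℝ} (hψ : ContDiff ℝ 1 ψ) (hc : HasCompactSupport ψ) :
    ∃ C : ℝ, 0 ≤ C ∧ ∀ a : ℝ, 0 < a → ∀ s, |(ψ s - ψ 0) * deriv (mu a) s| ≤ C := by
  obtain ⟨Lp, hL⟩ := hψ.lipschitzWith_of_hasCompactSupport hc (by simp)
  obtain ⟨D, hD0, hD⟩ := exists_bound_st
  refine ⟨Lp * 2 * D, by positivity, fun a ha s => ?_⟩
  rcases lt_or_ge s a with h1 | h1
  · rw [deriv_mu_left ha h1, mul_zero, abs_zero]
    positivity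
  rcases lt_or_ge (2 * a) s with h2 | h2
  · rw [deriv_mu_right ha h2, mul_zero, abs_zero]
    positivity
  have e1 : |ψ s - ψ 0| ≤ Lp * (2 * a) := by
    have := hL.dist_le_mul s 0
    rw [Real.dist_eq, Real.dist_eq, sub_zero, abs_of_nonneg (by linarith : 0 ≤ s)] at this
    exact this.trans (mul_le_mul_of_nonneg_left h2 Lp.2)
  have e2 : |deriv (mu a) s| ≤ D / a := by
    rw [(hasDerivAt_mu a s).deriv, abs_mul, abs_of_pos (by positivity : 0 < 1 / a)]
    have h3 : s / a - 1 ∈ Set.Icc (0 : ℝ) 1 := by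
      constructor
      · have : 1 ≤ s / a := (le_div_iff₀ ha).mpr (by linarith)
        linarith
      · have : s / a ≤ 2 := (div_le_iff₀ ha).mpr h2
        linarith
    have := hD _ h3
    rw [mul_one_div]
    exact div_le_div_of_nonneg_right this ha.le
  rw [abs_mul]
  calc |ψ s - ψ 0| * |deriv (mu a) s| ≤ (Lp * (2 * a)) * (D / a) :=
        mul_le_mul e1 e2 (abs_nonneg _) (by positivity)
    _ = Lp * 2 * D := by
        field_simp

/-- Dominated convergence for functions of `w`. -/
lemma lim_int {K : Set E3} (hK : IsCompact K) {w F : E3 → ℝ} (hwc : ContinuousOn w K)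
    (hF : IntegrableOn F K) {f : ℕ → ℝ → ℝ} (hf : ∀ n, Continuous (f n)) {f' : ℝ → ℝ} {C : ℝ}
    (hC : ∀ n s, |f n s| ≤ C)
    (hlim : ∀ᵐ x ∂(volume.restrict K), Tendsto (fun n => f n (w x)) atTop (𝓝 (f' (w x)))) :
    Tendsto (fun n => ∫ x in K, f n (w x) * F x) atTop (𝓝 (∫ x in K, f' (w x) * F x)) := by
  refine tendsto_integral_of_dominated_convergence (fun x => C * |F x|) ?_ ?_ ?_ ?_
  · intro n
    exact (((hf n).comp_continuousOn hwc).aestronglyMeasurable hK.measurableSet).mul
      hF.aestronglyMeasurable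
  · exact hF.abs.const_mul C
  · intro n
    refine Eventually.of_forall fun x => ?_
    rw [Real.norm_eq_abs, abs_mul]
    exact mul_le_mul_of_nonneg_right (hC n _) (abs_nonneg _)
  · filter_upwards [hlim] with x hx
    exact hx.mul_const _

lemma int_mul {K : Set E3} (hK : IsCompact K) {w F : E3 → ℝ} (hwc : ContinuousOn w K)
    (hF : IntegrableOn F K) {f : ℝ → ℝ} (hf : Continuous f) :
    IntegrableOn (fun x => f (w x) * F x) K := by
  have h1 : ContinuousOn (fun x => f (w x)) K := hf.comp_continuousOn hwc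
  obtain ⟨B, hB⟩ := hK.exists_bound_of_continuousOn h1
  exact Integrable.bdd_mul hF (h1.aestronglyMeasurable hK.measurableSet)
    ((ae_restrict_iff' hK.measurableSet).mpr (Filter.Eventually.of_forall hB))

lemma setInt_eq {A K : Set E3} (hA : MeasurableSet A) (hK : K ⊆ A) (F : E3 → ℝ)
    (hF : ∀ x ∈ A, x ∉ K → F x = 0) : ∫ x in A, F x = ∫ x in K, F x :=
  setIntegral_eq_of_subset_of_forall_sdiff_eq_zero hA hK fun x hx => hF x hx.1 hx.2

end MIXaux

open MIXaux in
theorem MIX (hMI : Stmt_MI) (hINT : Stmt_INT) (hLOGW : Stmt_LOGW) (hHXLEV : Stmt_HXLEV)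
    (hHXLAM : Stmt_HXLAM) (hHXBT : Stmt_HXBT) : Stmt_MIX := by
  intro ε R c s₁ g h u G M hε0 hε2 hR hc hs₁ hg hh hmir hsol hup hu1 huc hr ψ hψ hψ0 hψc hψs
  obtain ⟨hlev, σ₀, hσ₀, hσ₀h, hσlev⟩ := hHXLEV ε R c s₁ g h u G M hε0 hε2 hR hc hs₁ hsol hup hu1
    huc hr
  obtain ⟨r, hr1, hrR, hrw⟩ := hr
  have hε1 : ε < 1 := by linarith
  have hUo := isOpen_Ann (1 / 2) R
  have hgA : MetricOn (Ann (1 / 2) R) g :=
    ⟨fun i j => (hg.smooth i j).mono (Set.subset_univ _), fun x _ => hg.posDef x (Set.mem_univ _)⟩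
  have hhA : TensorOn (Ann (1 / 2) R) h :=
    ⟨fun i j => (hh.smooth i j).mono (Set.subset_univ _), fun x _ => hh.symm x (Set.mem_univ _)⟩
  obtain ⟨hH2, hEq, hNI0⟩ := hLOGW ε (Ann (1 / 2) R) g h u G M hε0 hε1 hUo hgA hhA hsol.h2 hup
    hsol.eq
  have hNI := hNI0 hsol.noIsland
  change H2On (Ann (1 / 2) R) (wOf ε u) (gOf ε u G) (mOf ε u G M) at hH2
  change EqW (Ann (1 / 2) R) ε g h (gOf ε u G) (mOf ε u G M) at hEq
  change NoIsland (Ann (1 / 2) R) (wOf ε u) at hNI
  set w := wOf ε u with hw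
  set Gw := gOf ε u G
  set Mw := mOf ε u G M
  set s₀ : ℝ := -ε * Real.log (1 + c) with hs₀
  have hlogc : 0 < Real.log (1 + c) := Real.log_pos (by linarith)
  have hs₀neg : s₀ < 0 := by
    rw [hs₀]
    nlinarith
  -- inner and outer region
  have hin : ∀ x : E3, 1 / 2 < ‖x‖ → ‖x‖ ≤ 2 / 3 → w x ≤ s₀ := by
    intro x h1 h2
    have h3 := huc x h1 h2
    have h4 : Real.log (1 + c) ≤ Real.log (u x) := Real.log_le_log (by linarith) h3
    rw [hs₀, hw]
    unfold wOf
    nlinarith
  have hSep : Sep (1 / 2) R s₀ s₁ w := by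
    refine ⟨2 / 3, r, by norm_num, by linarith, hrR, hin, fun x h1 h2 => (hrw x h1 h2).le⟩
  set K := cAnn (2 / 3) r with hK
  have hKc : IsCompact K := isCompact_cAnn _ _
  have hKA : K ⊆ Ann (1 / 2) R := fun x hx => ⟨by linarith [hx.1], by linarith [hx.2]⟩
  have hoff : ∀ x ∈ Ann (1 / 2) R, x ∉ K → w x ∉ Set.Ioo s₀ s₁ := by
    intro x hx hxK hws
    apply hxK
    constructor
    · by_contra hcon
      push Not at hcon
      have := hin x hx.1 hcon.le
      linarith [hws.1]
    · by_contra hcon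
      push Not at hcon
      have := hrw x hcon.le hx.2
      linarith [hws.2]
  have hwc : ContinuousOn w K := hH2.cont.mono hKA
  obtain ⟨-, -, -, -, hI5, hI6, hI7, -, -⟩ :=
    hINT ε (Ann (1 / 2) R) g h w Gw Mw hε0 hε1 hUo hgA hhA hH2 hEq K hKc hKA
  set Fl : E3 → ℝ := fun x => flux ε g h x (Gw x) (Mw x) * volDen g x with hFl
  set Mt : E3 → ℝ := fun x => (len g x (Gw x) * (matter g h x (Gw x)
    + diss ε g h x (Gw x) (Mw x))) * volDen g x with hMt
  have hMti : IntegrableOn Mt K := by
    refine (hI7.add hI6).congr (Eventually.of_forall fun x => ?_)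
    simp only [hMt, Pi.add_apply]
    ring
  -- the sequence
  set σb : ℝ := min (min σ₀ (c / 2)) (1 - Real.exp (-(s₁ / (4 * ε)))) with hσb
  have hexp : Real.exp (-(s₁ / (4 * ε))) < 1 := by
    rw [Real.exp_lt_one_iff]
    have : 0 < s₁ / (4 * ε) := by positivity
    linarith
  have hσb0 : 0 < σb := by
    refine lt_min (lt_min hσ₀ (by linarith)) (by linarith)
  set σ : ℕ → ℝ := fun n => σb / (n + 1) with hσ
  have hσ0 : ∀ n, 0 < σ n := fun n => by positivity
  have hσle : ∀ n, σ n ≤ σb := fun n => by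
    refine div_le_self hσb0.le ?_
    have : (0 : ℝ) ≤ n := Nat.cast_nonneg n
    linarith
  have hσlim : Tendsto σ atTop (𝓝 0) := by
    have h1 : Tendsto (fun n : ℕ => σb * (1 / ((n : ℝ) + 1))) atTop (𝓝 (σb * 0)) :=
      tendsto_one_div_add_atTop_nhds_zero_nat.const_mul σb
    rw [mul_zero] at h1
    refine h1.congr fun n => ?_
    simp only [hσ]
    ring
  have hσ₀' : ∀ n, σ n ≤ σ₀ := fun n => (hσle n).trans ((min_le_left _ _).trans (min_le_left _ _))
  have hσh : ∀ n, σ n ≤ 1 / 2 := fun n => (hσ₀' n).trans hσ₀h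
  have hσc : ∀ n, σ n ≤ c / 2 := fun n =>
    (hσle n).trans ((min_le_left _ _).trans (min_le_right _ _))
  have hσe : ∀ n, σ n ≤ 1 - Real.exp (-(s₁ / (4 * ε))) := fun n =>
    (hσle n).trans (min_le_right _ _)
  choose L lam hrise using fun n => hHXLAM ε (σ n) hε0 hε2 (hσ0 n) (hσh n)
  set a : ℕ → ℝ := fun n => -ε * Real.log (1 - σ n) with ha
  have ha0 : ∀ n, 0 < a n := fun n => by
    have h1 : Real.log (1 - σ n) < 0 := Real.log_neg (by linarith [hσh n]) (by linarith [hσ0 n])
    simp only [ha]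
    nlinarith
  have ha2 : ∀ n, 2 * a n < s₁ := fun n => by
    have h1 : -(s₁ / (4 * ε)) ≤ Real.log (1 - σ n) := by
      rw [← Real.log_exp (-(s₁ / (4 * ε)))]
      exact Real.log_le_log (Real.exp_pos _) (by linarith [hσe n])
    have h2 : ε * (s₁ / (4 * ε)) = s₁ / 4 := by
      field_simp
    simp only [ha]
    nlinarith
  have halim : Tendsto a atTop (𝓝 0) := by
    have h1 : Tendsto (fun n => 1 - σ n) atTop (𝓝 (1 - 0)) := hσlim.const_sub 1
    have h2 : Tendsto (fun n => Real.log (1 - σ n)) atTop (𝓝 (Real.log (1 - 0))) :=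
      (Real.continuousAt_log (by norm_num)).tendsto.comp h1
    have h3 := h2.const_mul (-ε)
    rw [sub_zero, Real.log_one, mul_zero] at h3
    exact h3
  have hb : ∀ n, s₀ < -ε * Real.log (1 + σ n) := fun n => by
    have h1 : Real.log (1 + σ n) < Real.log (1 + c) :=
      Real.log_lt_log (by linarith [hσ0 n]) (by linarith [hσc n])
    rw [hs₀]
    nlinarith
  have hblim : Tendsto (fun n => -ε * Real.log (1 + σ n)) atTop (𝓝 0) := by
    have h1 : Tendsto (fun n => 1 + σ n) atTop (𝓝 (1 + 0)) := hσlim.const_add 1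
    have h2 : Tendsto (fun n => Real.log (1 + σ n)) atTop (𝓝 (Real.log (1 + 0))) :=
      (Real.continuousAt_log (by norm_num)).tendsto.comp h1
    have h3 := h2.const_mul (-ε)
    rw [add_zero, Real.log_one, mul_zero] at h3
    exact h3
  set χ : ℕ → ℝ → ℝ := fun n s => ψ 0 * (lam n s - mu (a n) s) + ψ s * mu (a n) s with hχ
  have hlamC : ∀ n, ContDiff ℝ 1 (lam n) := fun n => (hrise n).smooth.of_le (by simp)
  have hχC : ∀ n, ContDiff ℝ 1 (χ n) := fun n =>
    (contDiff_const.mul ((hlamC n).sub (mu_contDiff _))).add (hψ.mul (mu_contDiff _))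
  have hχ0 : ∀ n s, 0 ≤ χ n s := by
    intro n s
    have h1 : mu (a n) s ≤ lam n s := by
      rcases le_or_gt s (a n) with h | h
      · rw [mu_zero (ha0 n) h]
        exact ((hrise n).mem s).1
      · rw [(hrise n).one s h.le]
        exact mu_le_one _ _
    have h2 := mul_nonneg (hψ0 0) (sub_nonneg.mpr h1)
    have h3 := mul_nonneg (hψ0 s) (mu_nonneg (a n) s)
    simp only [hχ]
    linarith
  have hχleft : ∀ n s, s ≤ -ε * Real.log (1 + σ n) → χ n s = 0 := by
    intro n s hs
    have h1 : s ≤ a n := by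
      have : 0 < Real.log (1 + σ n) := Real.log_pos (by linarith [hσ0 n])
      nlinarith [ha0 n]
    simp only [hχ]
    rw [(hrise n).zero s hs, mu_zero (ha0 n) h1]
    ring
  have hχright : ∀ n s, 2 * a n ≤ s → χ n s = ψ s := by
    intro n s hs
    simp only [hχ]
    rw [(hrise n).one s (by linarith [ha0 n]), mu_one (ha0 n) hs]
    ring
  obtain ⟨sm, hsm1, hsm2⟩ : ∃ sm, sm < s₁ ∧ ∀ s, sm ≤ s → s ∉ tsupport ψ ∨ s = sm := by
    by_cases hne : (tsupport ψ).Nonempty
    · obtain ⟨b, hb1, hb2⟩ := (show IsCompact (tsupport ψ) from hψc).exists_isGreatest hne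
      refine ⟨b, hψs hb1, fun s hs => ?_⟩
      by_cases h : s ∈ tsupport ψ
      · exact Or.inr (le_antisymm (hb2 h) hs)
      · exact Or.inl h
    · rw [Set.not_nonempty_iff_eq_empty] at hne
      refine ⟨s₁ - 1, by linarith, fun s _ => Or.inl ?_⟩
      rw [hne]
      exact Set.notMem_empty s
  have hsupp : ∀ n, tsupport (χ n) ⊆ Set.Icc (-ε * Real.log (1 + σ n)) (max (2 * a n) sm) := by
    intro n
    refine closure_minimal ?_ isClosed_Icc
    intro s hs
    rw [Function.mem_support] at hs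
    constructor
    · by_contra hcon
      push Not at hcon
      exact hs (hχleft n s hcon.le)
    · by_contra hcon
      push Not at hcon
      have h1 : 2 * a n < s := lt_of_le_of_lt (le_max_left _ _) hcon
      have h2 : sm < s := lt_of_le_of_lt (le_max_right _ _) hcon
      apply hs
      rw [hχright n s h1.le]
      rcases hsm2 s h2.le with h3 | h3
      · exact image_eq_zero_of_notMem_tsupport h3
      · exact absurd h3 h2.ne'
  have hsuppI : ∀ n, tsupport (χ n) ⊆ Set.Ioo s₀ s₁ := by
    intro n s hs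
    have h1 := hsupp n hs
    exact ⟨lt_of_lt_of_le (hb n) h1.1, lt_of_le_of_lt h1.2 (max_lt (ha2 n) hsm1)⟩
  have hχcs : ∀ n, HasCompactSupport (χ n) := fun n =>
    isCompact_Icc.of_isClosed_subset (isClosed_tsupport _) (hsupp n)
  have hmain : ∀ n, - ∫ x in Ann (1 / 2) R, deriv (χ n) (w x) * flux ε g h x (Gw x) (Mw x)
        * volDen g x
      ≤ 4 * Real.pi * (∫ s, χ n s)
        - 1 / (2 - ε) * (∫ x in Ann (1 / 2) R, χ n (w x) * flux ε g h x (Gw x) (Mw x)
            * volDen g x)
        - ∫ x in Ann (1 / 2) R, χ n (w x) * (len g x (Gw x)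
            * (matter g h x (Gw x) + diss ε g h x (Gw x) (Mw x))) * volDen g x := fun n =>
    hMI ε (1 / 2) R s₀ s₁ g h w Gw Mw hε0 hε1 (by norm_num) (by linarith) (by linarith) hgA hhA
      hH2 hEq hNI hSep (χ n) (hχC n) (hχcs n) (hsuppI n) (hχ0 n)
  -- reduction to `K`
  have hAm := measurableSet_Ann (1 / 2) R
  have hz0 : ∀ n, ∀ x ∈ Ann (1 / 2) R, x ∉ K → χ n (w x) = 0 := fun n x hx hxK =>
    image_eq_zero_of_notMem_tsupport fun hmem => hoff x hx hxK (hsuppI n hmem)
  have hz1 : ∀ n, ∀ x ∈ Ann (1 / 2) R, x ∉ K → deriv (χ n) (w x) = 0 := by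
    intro n x hx hxK
    have h1 : w x ∉ tsupport (χ n) := fun hmem => hoff x hx hxK (hsuppI n hmem)
    rw [(notMem_tsupport_iff_eventuallyEq.mp h1).deriv_eq]
    simp
  have hlamz : ∀ n, ∀ x ∈ Ann (1 / 2) R, x ∉ K → deriv (lam n) (w x) = 0 := by
    intro n x hx hxK
    have h1 := hoff x hx hxK
    rcases le_or_gt (w x) s₀ with h2 | h2
    · have h3 : lam n =ᶠ[𝓝 (w x)] fun _ => (0 : ℝ) := by
        filter_upwards [Iio_mem_nhds (lt_of_le_of_lt h2 (hb n))] with t ht
        exact (hrise n).zero t (le_of_lt ht)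
      rw [h3.deriv_eq]
      simp
    · have h4 : s₁ ≤ w x := by
        by_contra hcon
        push Not at hcon
        exact h1 ⟨h2, hcon⟩
      have h3 : lam n =ᶠ[𝓝 (w x)] fun _ => (1 : ℝ) := by
        have h5 : a n < w x := by linarith [ha2 n, ha0 n]
        filter_upwards [Ioi_mem_nhds h5] with t ht
        exact (hrise n).one t (le_of_lt ht)
      rw [h3.deriv_eq]
      simp
  set B : ℕ → ℝ → ℝ := fun n s => (ψ s - ψ 0) * deriv (mu (a n)) s + deriv ψ s * mu (a n) s
    with hB
  have hdχ : ∀ n s, deriv (χ n) s = ψ 0 * deriv (lam n) s + B n s := by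
    intro n s
    have h1 : HasDerivAt (lam n) (deriv (lam n) s) s :=
      ((hlamC n).differentiable (by simp) s).hasDerivAt
    have h2 : HasDerivAt (mu (a n)) (deriv (mu (a n)) s) s :=
      ((mu_contDiff (a n)).differentiable (by simp) s).hasDerivAt
    have h3 : HasDerivAt ψ (deriv ψ s) s := (hψ.differentiable (by simp) s).hasDerivAt
    have h4 := ((h1.sub h2).const_mul (ψ 0)).add (h3.mul h2)
    have h5 : HasDerivAt (χ n) (ψ 0 * (deriv (lam n) s - deriv (mu (a n)) s)
        + (deriv ψ s * mu (a n) s + ψ s * deriv (mu (a n)) s)) s := h4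
    rw [h5.deriv]
    simp only [hB]
    ring
  have hdψc : Continuous (deriv ψ) := hψ.continuous_deriv (by simp)
  have hdmuc : ∀ n, Continuous (deriv (mu (a n))) := fun n =>
    (mu_contDiff (a n)).continuous_deriv (by simp)
  have hdlamc : ∀ n, Continuous (deriv (lam n)) := fun n => (hlamC n).continuous_deriv (by simp)
  have hBc : ∀ n, Continuous (B n) := fun n =>
    ((hψ.continuous.sub continuous_const).mul (hdmuc n)).add
      (hdψc.mul (mu_contDiff (a n)).continuous)
  -- the inequality on `K`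
  have hKineq : ∀ n, -(∫ x in K, B n (w x) * Fl x)
      ≤ 4 * Real.pi * (∫ s, χ n s) - 1 / (2 - ε) * (∫ x in K, χ n (w x) * Fl x)
        - ∫ x in K, χ n (w x) * Mt x := by
    intro n
    have h1 := hmain n
    have e1 : ∫ x in Ann (1 / 2) R, deriv (χ n) (w x) * flux ε g h x (Gw x) (Mw x) * volDen g x
        = ψ 0 * (∫ x in K, deriv (lam n) (w x) * Fl x) + ∫ x in K, B n (w x) * Fl x := by
      rw [setInt_eq hAm hKA _ (fun x hx hxK => by rw [hz1 n x hx hxK]; ring),
        ← integral_const_mul, ← integral_add]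
      · refine integral_congr_ae (Eventually.of_forall fun x => ?_)
        simp only [hFl]
        rw [hdχ]
        ring
      · exact (int_mul hKc hwc hI5 (hdlamc n)).const_mul _
      · exact int_mul hKc hwc hI5 (hBc n)
    have e2 : ∫ x in Ann (1 / 2) R, χ n (w x) * flux ε g h x (Gw x) (Mw x) * volDen g x
        = ∫ x in K, χ n (w x) * Fl x := by
      rw [setInt_eq hAm hKA _ (fun x hx hxK => by rw [hz0 n x hx hxK]; ring)]
      refine integral_congr_ae (Eventually.of_forall fun x => ?_)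
      simp only [hFl]
      ring
    have e3 : ∫ x in Ann (1 / 2) R, χ n (w x) * (len g x (Gw x)
            * (matter g h x (Gw x) + diss ε g h x (Gw x) (Mw x))) * volDen g x
        = ∫ x in K, χ n (w x) * Mt x := by
      rw [setInt_eq hAm hKA _ (fun x hx hxK => by rw [hz0 n x hx hxK]; ring)]
      refine integral_congr_ae (Eventually.of_forall fun x => ?_)
      simp only [hMt]
      ring
    have e4 : ∫ x in K, deriv (lam n) (w x) * Fl x ≤ 0 := by
      have h2 := hHXBT ε R (σ n) g h u G M (L n) (lam n) hε0 hε2 hR (hσ0 n) (hσh n) hg hh hmir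
        hsol hup (fun x hx hxσ => hσlev x hx (hxσ.trans (hσ₀' n))) (hrise n)
      have e5 : ∫ x in Ann (1 / 2) R, deriv (lam n) (wOf ε u x) *
          flux ε g h x (gOf ε u G x) (mOf ε u G M x) * volDen g x
          = ∫ x in K, deriv (lam n) (w x) * Fl x := by
        rw [setInt_eq hAm hKA _ (fun x hx hxK => by
          have := hlamz n x hx hxK
          rw [hw] at this
          rw [this]; ring)]
        refine integral_congr_ae (Eventually.of_forall fun x => ?_)
        simp only [hFl]
        ring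
      rw [← e5]
      exact h2
    rw [e1, e2, e3] at h1
    have h3 := mul_nonneg (hψ0 0) (neg_nonneg.mpr e4)
    linarith
  -- the limits
  obtain ⟨Cb, hCb0, hCb⟩ := exists_bound hψ hψc
  obtain ⟨Cψ, hCψ⟩ := hψ.continuous.bounded_above_of_compact_support hψc
  obtain ⟨Cd, hCd⟩ := hdψc.bounded_above_of_compact_support hψc.deriv
  have hCψ0 : 0 ≤ Cψ := (norm_nonneg _).trans (hCψ 0)
  have hCd0 : 0 ≤ Cd := (norm_nonneg _).trans (hCd 0)
  have hBb : ∀ n s, |B n s| ≤ Cb + Cd := by
    intro n s
    have h1 := hCb (a n) (ha0 n) s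
    have h2 : |deriv ψ s * mu (a n) s| ≤ Cd := by
      rw [abs_mul, abs_of_nonneg (mu_nonneg _ _)]
      have h3 : |deriv ψ s| ≤ Cd := hCd s
      calc |deriv ψ s| * mu (a n) s ≤ |deriv ψ s| * 1 :=
            mul_le_mul_of_nonneg_left (mu_le_one _ _) (abs_nonneg _)
        _ ≤ Cd := by rw [mul_one]; exact h3
    exact (abs_add_le _ _).trans (add_le_add h1 h2)
  have hχb : ∀ n s, |χ n s| ≤ 2 * Cψ := by
    intro n s
    rw [abs_of_nonneg (hχ0 n s)]
    have h1 : ψ 0 ≤ Cψ := (le_abs_self _).trans (hCψ 0)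
    have h2 : ψ s ≤ Cψ := (le_abs_self _).trans (hCψ s)
    have h3 : lam n s - mu (a n) s ≤ 1 := by
      linarith [((hrise n).mem s).2, mu_nonneg (a n) s]
    have h4 : ψ 0 * (lam n s - mu (a n) s) ≤ ψ 0 * 1 := mul_le_mul_of_nonneg_left h3 (hψ0 0)
    have h5 : ψ s * mu (a n) s ≤ ψ s * 1 := mul_le_mul_of_nonneg_left (mu_le_one _ _) (hψ0 s)
    simp only [hχ]
    linarith
  have hBlim : ∀ s, Tendsto (fun n => B n s) atTop (𝓝 (if 0 < s then deriv ψ s else 0)) := by
    intro s
    rcases lt_or_ge 0 s with h0 | h0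
    · rw [if_pos h0]
      refine tendsto_const_nhds.congr' ?_
      have h1 : ∀ᶠ n in atTop, a n < s / 2 := halim.eventually (gt_mem_nhds (by linarith))
      filter_upwards [h1] with n hn
      simp only [hB]
      rw [deriv_mu_right (ha0 n) (by linarith), mu_one (ha0 n) (by linarith)]
      ring
    · rw [if_neg (not_lt.mpr h0)]
      refine tendsto_const_nhds.congr fun n => ?_
      simp only [hB]
      rw [deriv_mu_left (ha0 n) (lt_of_le_of_lt h0 (ha0 n)), mu_zero (ha0 n) (h0.trans (ha0 n).le)]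
      ring
  have hχlim : ∀ s, s ≠ 0 → Tendsto (fun n => χ n s) atTop (𝓝 (if 0 < s then ψ s else 0)) := by
    intro s hs
    rcases lt_or_ge 0 s with h0 | h0
    · rw [if_pos h0]
      refine tendsto_const_nhds.congr' ?_
      have h1 : ∀ᶠ n in atTop, a n < s / 2 := halim.eventually (gt_mem_nhds (by linarith))
      filter_upwards [h1] with n hn
      exact (hχright n s (by linarith)).symm
    · rw [if_neg (not_lt.mpr h0)]
      refine tendsto_const_nhds.congr' ?_
      have hs' : s < 0 := lt_of_le_of_ne h0 hs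
      have h1 : ∀ᶠ n in atTop, s < -ε * Real.log (1 + σ n) := hblim.eventually (lt_mem_nhds hs')
      filter_upwards [h1] with n hn
      exact (hχleft n s hn.le).symm
  have hsph : ∀ᵐ x ∂(volume.restrict K), ‖x‖ ≠ 1 := by
    have h1 : volume (Metric.sphere (0 : E3) 1) = 0 := Measure.addHaar_sphere volume 0 1
    have h2 : ∀ᵐ x ∂(volume : Measure E3), x ∉ Metric.sphere (0 : E3) 1 :=
      compl_mem_ae_iff.mpr h1
    filter_upwards [ae_restrict_of_ae h2] with x hx hx1
    exact hx (by rw [mem_sphere_zero_iff_norm]; exact hx1)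
  have hwne : ∀ᵐ x ∂(volume.restrict K), w x ≠ 0 := by
    filter_upwards [hsph, ae_restrict_mem hKc.measurableSet] with x hx hxK hx0
    obtain ⟨h1, h2, h3⟩ := hlev x (hKA hxK)
    have hu : u x = 1 := by
      have hpos := hup x (hKA hxK)
      have h4 : Real.log (u x) = 0 := by
        rw [hw] at hx0
        unfold wOf at hx0
        rcases mul_eq_zero.mp hx0 with h5 | h5
        · linarith
        · exact h5
      rcases Real.log_eq_zero.mp h4 with h5 | h5 | h5
      · linarith
      · exact h5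
      · linarith
    exact hx (h2.mp hu)
  have lim1 := lim_int hKc hwc hI5 hBc hBb (Eventually.of_forall fun x => hBlim (w x))
    (f' := fun s => if 0 < s then deriv ψ s else 0)
  have hχcont : ∀ n, Continuous (χ n) := fun n => (hχC n).continuous
  have lim2 := lim_int hKc hwc hI5 hχcont hχb (by
    filter_upwards [hwne] with x hx
    exact hχlim (w x) hx) (f' := fun s => if 0 < s then ψ s else 0)
  have lim3 := lim_int hKc hwc hMti hχcont hχb (by
    filter_upwards [hwne] with x hx
    exact hχlim (w x) hx) (f' := fun s => if 0 < s then ψ s else 0)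
  have lim4 : Tendsto (fun n => ∫ s, χ n s) atTop (𝓝 (∫ s in Set.Ioi 0, ψ s)) := by
    have e : ∫ s in Set.Ioi 0, ψ s = ∫ s, (if 0 < s then ψ s else 0) := by
      rw [← integral_indicator measurableSet_Ioi]
      refine integral_congr_ae (Eventually.of_forall fun s => ?_)
      simp only [Set.indicator, Set.mem_Ioi]
    rw [e]
    refine tendsto_integral_of_dominated_convergence
      (Set.indicator (Set.Icc s₀ s₁) fun _ => 2 * Cψ) ?_ ?_ ?_ ?_
    · exact fun n => (hχcont n).aestronglyMeasurable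
    · rw [integrable_indicator_iff measurableSet_Icc]
      exact integrableOn_const (by simp)
    · intro n
      refine Eventually.of_forall fun s => ?_
      by_cases hs : s ∈ Set.Icc s₀ s₁
      · rw [Set.indicator_of_mem hs]
        exact hχb n s
      · rw [Set.indicator_of_notMem hs, image_eq_zero_of_notMem_tsupport (fun hmem =>
          hs (Set.Ioo_subset_Icc_self (hsuppI n hmem)))]
        simp
    · have h0 : ∀ᵐ s : ℝ, s ≠ 0 := by
        have : volume ({0} : Set ℝ) = 0 := Real.volume_singleton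
        exact compl_mem_ae_iff.mpr this
      filter_upwards [h0] with s hs
      exact hχlim s hs
  have hfin := le_of_tendsto_of_tendsto' lim1.neg
    (((lim4.const_mul (4 * Real.pi)).sub (lim2.const_mul (1 / (2 - ε)))).sub lim3) hKineq
  -- back to `Ann 1 R`
  have hback : ∀ (f : ℝ → ℝ) (F : E3 → ℝ), (∀ s, s₁ ≤ s → f s = 0) →
      ∫ x in K, (if 0 < w x then f (w x) else 0) * F x = ∫ x in Ann 1 R, f (w x) * F x := by
    intro f F hf
    have h1 : ∫ x in Ann (1 / 2) R, (if 0 < w x then f (w x) else 0) * F x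
        = ∫ x in K, (if 0 < w x then f (w x) else 0) * F x := by
      refine setInt_eq hAm hKA _ fun x hx hxK => ?_
      by_cases hw0 : 0 < w x
      · rw [if_pos hw0]
        have h2 : s₁ ≤ w x := by
          by_contra hcon
          push Not at hcon
          exact hoff x hx hxK ⟨by linarith, hcon⟩
        rw [hf _ h2, zero_mul]
      · rw [if_neg hw0, zero_mul]
    have hsub : Ann 1 R ⊆ Ann (1 / 2) R := fun x hx => ⟨by linarith [hx.1], hx.2⟩
    have h2 : ∫ x in Ann (1 / 2) R, (if 0 < w x then f (w x) else 0) * F x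
        = ∫ x in Ann 1 R, (if 0 < w x then f (w x) else 0) * F x := by
      refine setInt_eq hAm hsub _ fun x hx hxK => ?_
      have h3 : ¬ 0 < w x := fun h4 => hxK ⟨(hlev x hx).2.2.mp h4, hx.2⟩
      rw [if_neg h3, zero_mul]
    rw [← h1, h2]
    refine setIntegral_congr_fun (measurableSet_Ann 1 R) fun x hx => ?_
    have h3 : 0 < w x := (hlev x (hsub hx)).2.2.mpr hx.1
    simp only [if_pos h3]
  have hψz : ∀ s, s₁ ≤ s → ψ s = 0 := fun s hs =>
    image_eq_zero_of_notMem_tsupport fun hmem => absurd (hψs hmem) (not_lt.mpr hs)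
  have hdψz : ∀ s, s₁ ≤ s → deriv ψ s = 0 := by
    intro s hs
    have h1 : s ∉ tsupport ψ := fun hmem => absurd (hψs hmem) (not_lt.mpr hs)
    rw [(notMem_tsupport_iff_eventuallyEq.mp h1).deriv_eq]
    simp
  rw [hback (deriv ψ) Fl hdψz, hback ψ Fl hψz, hback ψ Mt hψz] at hfin
  have f1 : ∫ x in Ann 1 R, deriv ψ (wOf ε u x) * flux ε g h x (gOf ε u G x) (mOf ε u G M x)
      * volDen g x = ∫ x in Ann 1 R, deriv ψ (w x) * Fl x := by
    refine integral_congr_ae (Eventually.of_forall fun x => ?_)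
    simp only [hFl, hw]
    ring
  have f2 : ∫ x in Ann 1 R, ψ (wOf ε u x) * flux ε g h x (gOf ε u G x) (mOf ε u G M x)
      * volDen g x = ∫ x in Ann 1 R, ψ (w x) * Fl x := by
    refine integral_congr_ae (Eventually.of_forall fun x => ?_)
    simp only [hFl, hw]
    ring
  have f3 : ∫ x in Ann 1 R, ψ (wOf ε u x) * (len g x (gOf ε u G x)
      * (matter g h x (gOf ε u G x) + diss ε g h x (gOf ε u G x) (mOf ε u G M x))) * volDen g x
      = ∫ x in Ann 1 R, ψ (w x) * Mt x := by
    refine integral_congr_ae (Eventually.of_forall fun x => ?_)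
    simp only [hMt, hw]
    ring
  rw [f1, f2, f3]
  exact hfin

end Pool.Agent.PFlow.HX


end

section

/-!
# XMEAN: the mean curvature of the spheres where there is no shift
-/

open MeasureTheory Filter Topology
open scoped ContDiff ENNReal

namespace Pool.Agent.PFlow

open Pool.Agent.PenroseSph

namespace XMEANm

/-! ### Derivatives of the radius -/

/-- the unit vector -/
noncomputable def nu (x : E3) : Cov := fun i => x i / ‖x‖

/-- the Kronecker symbol -/
def dl (i j : Fin 3) : ℝ := if i = j then 1 else 0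

theorem grad_rad {x : E3} (hx : x ≠ 0) : grad rad x = nu x := by
  funext i
  unfold grad nu
  have := pd_radial (i := i) (F := fun t => t) (F' := 1) hx (hasDerivAt_id _)
  rw [one_mul] at this
  exact this

theorem pd_inv_norm {x : E3} (hx : x ≠ 0) (k : Fin 3) :
    pd k (fun y => ‖y‖⁻¹) x = -(1 / ‖x‖ ^ 2) * nu x k := by
  have hn : ‖x‖ ≠ 0 := norm_ne_zero_iff.2 hx
  have h1 : HasDerivAt (fun t : ℝ => t⁻¹) (-(‖x‖ ^ 2)⁻¹) ‖x‖ := hasDerivAt_inv hn
  rw [pd_radial hx h1, nu, one_div]

theorem diff_inv_norm {x : E3} (hx : x ≠ 0) : DifferentiableAt ℝ (fun y : E3 => ‖y‖⁻¹) x :=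
  (differentiableAt_norm hx).fun_inv (norm_ne_zero_iff.2 hx)

theorem hess_rad {x : E3} (hx : x ≠ 0) (i j : Fin 3) :
    hess2 rad x i j = 1 / ‖x‖ * (dl i j - nu x i * nu x j) := by
  have hn : ‖x‖ ≠ 0 := norm_ne_zero_iff.2 hx
  have h1 : pd j rad =ᶠ[𝓝 x] fun y => y j * ‖y‖⁻¹ := by
    filter_upwards [isOpen_compl_singleton.mem_nhds hx] with y hy
    have := congrFun (grad_rad (x := y) hy) j
    unfold grad nu at this
    rw [this, div_eq_mul_inv]
  unfold hess2
  rw [Matrix.of_apply, pd_congr h1, pd_mul (differentiableAt_coord j) (diff_inv_norm hx),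
    pd_coord, pd_inv_norm hx]
  unfold dl nu
  field_simp
  ring

/-! ### Linear algebra -/

/-- the trace over a plane only sees tangential components -/
theorem tan_zero {Q D : Bil} {n : Cov} (hQ : ∀ j, ∑ i, Q i j * n i = 0)
    (hQ' : ∀ i, ∑ j, Q i j * n j = 0) (hn : ∑ i, n i * n i = 1)
    (hD : ∀ v w : Cov, ∑ i, n i * v i = 0 → ∑ i, n i * w i = 0 →
      ∑ i, ∑ j, D i j * v i * w j = 0) :
    ∑ i, ∑ j, Q i j * D i j = 0 := by
  have hDab : ∀ a b : Fin 3, D a b = n a * (∑ i, n i * D i b) + n b * (∑ j, D a j * n j)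
      - n a * n b * (∑ i, ∑ j, D i j * n i * n j) := by
    intro a b
    have hz : ∀ a : Fin 3, ∑ i, n i * (dl a i - n a * n i) = 0 := by
      intro a
      simp only [Fin.sum_univ_three] at hn ⊢
      fin_cases a <;> simp [dl]
      · linear_combination (-(n 0)) * hn
      · linear_combination (-(n 1)) * hn
      · linear_combination (-(n 2)) * hn
    have h := hD (fun i => dl a i - n a * n i) (fun i => dl b i - n b * n i) (hz a) (hz b)
    simp only [Fin.sum_univ_three] at h ⊢
    fin_cases a <;> fin_cases b <;> simp [dl] at h ⊢ <;> linear_combination h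
  calc ∑ i, ∑ j, Q i j * D i j
      = ∑ a, ∑ b, Q a b * (n a * (∑ i, n i * D i b) + n b * (∑ j, D a j * n j)
        - n a * n b * (∑ i, ∑ j, D i j * n i * n j)) := by
        refine Finset.sum_congr rfl fun a _ => Finset.sum_congr rfl fun b _ => ?_
        rw [← hDab a b]
    _ = (∑ b, (∑ a, Q a b * n a) * (∑ i, n i * D i b))
        + (∑ a, (∑ b, Q a b * n b) * (∑ j, D a j * n j))
        - (∑ a, n a * (∑ b, Q a b * n b)) * (∑ i, ∑ j, D i j * n i * n j) := by
        simp only [Fin.sum_univ_three]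
        ring
    _ = 0 := by simp [hQ, hQ']

theorem cross {g : Bil} {x : Cov}
    (h : ∀ v : Cov, ∑ i, x i * v i = 0 → ∑ i, ∑ j, g i j * x i * v j = 0) (j l : Fin 3) :
    (∑ i, g i j * x i) * x l - (∑ i, g i l * x i) * x j = 0 := by
  have h1 := h (fun k => dl j k * x l - dl l k * x j) (by
    simp only [Fin.sum_univ_three]
    fin_cases j <;> fin_cases l <;> simp [dl] <;> ring)
  simp only [Fin.sum_univ_three] at h1 ⊢
  fin_cases j <;> fin_cases l <;> simp [dl] at h1 ⊢ <;> linear_combination h1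

theorem eigen {g : Bil} {x : Cov} {s : ℝ} (hs : ∑ i, x i * x i = s) (hs0 : s ≠ 0)
    (h : ∀ v : Cov, ∑ i, x i * v i = 0 → ∑ i, ∑ j, g i j * x i * v j = 0) (j : Fin 3) :
    ∑ i, g i j * x i = (∑ i, ∑ k, g i k * x i * x k) / s * x j := by
  have h0 := cross h j 0
  have h1 := cross h j 1
  have h2 := cross h j 2
  simp only [Fin.sum_univ_three] at hs h0 h1 h2 ⊢
  rw [div_mul_eq_mul_div, eq_div_iff hs0, ← hs]
  linear_combination x 0 * h0 + x 1 * h1 + x 2 * h2

theorem contract {A a x w : Cov} {s lam : ℝ} {m : Fin 3} (hs : ∑ i, x i * x i = s) (hs0 : s ≠ 0)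
    (ha : ∀ j, a j = lam * x j) (hw : ∑ i, x i * w i = 0)
    (hA : ∀ j l : Fin 3, A j * x l + a j * dl m l - (A l * x j + a l * dl m j) = 0) :
    ∑ j, A j * w j = lam * w m := by
  have h01 := hA 0 1
  have h02 := hA 0 2
  have h10 := hA 1 0
  have h12 := hA 1 2
  have h20 := hA 2 0
  have h21 := hA 2 1
  simp only [ha] at h01 h02 h10 h12 h20 h21
  simp only [Fin.sum_univ_three] at hs hw ⊢
  have key : s * (A 0 * w 0 + A 1 * w 1 + A 2 * w 2) = s * (lam * w m) := by
    rw [← hs]
    have hm : m = 0 ∨ m = 1 ∨ m = 2 := by fin_cases m <;> simp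
    rcases hm with rfl | rfl | rfl <;> simp [dl] at h01 h02 h10 h12 h20 h21
    · linear_combination w 0 * x 1 * h01 + w 0 * x 2 * h02
        + w 1 * x 0 * h10 + w 1 * x 2 * h12
        + w 2 * x 0 * h20 + w 2 * x 1 * h21
        + (A 0 * x 0 + A 1 * x 1 + A 2 * x 2 - lam * x 0) * hw
    · linear_combination w 0 * x 1 * h01 + w 0 * x 2 * h02
        + w 1 * x 0 * h10 + w 1 * x 2 * h12
        + w 2 * x 0 * h20 + w 2 * x 1 * h21
        + (A 0 * x 0 + A 1 * x 1 + A 2 * x 2 - lam * x 1) * hw
    · linear_combination w 0 * x 1 * h01 + w 0 * x 2 * h02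
        + w 1 * x 0 * h10 + w 1 * x 2 * h12
        + w 2 * x 0 * h20 + w 2 * x 1 * h21
        + (A 0 * x 0 + A 1 * x 1 + A 2 * x 2 - lam * x 2) * hw
  exact mul_left_cancel₀ hs0 key

/-! ### The derivative of the shift -/

theorem differentiableAt_comp {g : TensorField} {δ : ℝ} {x : E3} (hg : MetricOn (Outside δ) g)
    (hx : 1 - δ < ‖x‖) (i j : Fin 3) : DifferentiableAt ℝ (fun y => g y i j) x := by
  have ho : IsOpen (Outside δ) := isOpen_lt continuous_const continuous_norm
  exact ((hg.smooth i j).contDiffAt (ho.mem_nhds hx)).differentiableAt (by simp)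

theorem pd_low {g : TensorField} {x : E3} (hd : ∀ i j, DifferentiableAt ℝ (fun y => g y i j) x)
    (m j : Fin 3) : pd m (fun y => ∑ i, g y i j * y i) x
      = g x m j + ∑ i, x i * pd m (fun y => g y i j) x := by
  rw [pd_sum _ _ (fun i _ => (hd i j).fun_mul (differentiableAt_coord i))]
  have : ∀ i : Fin 3, pd m (fun y => g y i j * y i) x
      = g x i j * (if m = i then 1 else 0) + x i * pd m (fun y => g y i j) x := by
    intro i
    rw [pd_mul (hd i j) (differentiableAt_coord i), pd_coord]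
  simp only [this, Finset.sum_add_distrib]
  simp

theorem diff_low {g : TensorField} {x : E3} (hd : ∀ i j, DifferentiableAt ℝ (fun y => g y i j) x)
    (j : Fin 3) : DifferentiableAt ℝ (fun y : E3 => ∑ i, g y i j * y i) x :=
  DifferentiableAt.fun_sum fun i _ => (hd i j).fun_mul (differentiableAt_coord i)

theorem near {δ : ℝ} {x : E3} (h1 : 1 - δ < ‖x‖) (h2 : ‖x‖ < 1 + δ) :
    ∀ᶠ y in 𝓝 x, 1 - δ < ‖y‖ ∧ ‖y‖ < 1 + δ := by
  filter_upwards [(isOpen_lt continuous_const continuous_norm).mem_nhds h1,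
    (isOpen_lt continuous_norm continuous_const).mem_nhds h2] with y a b
  exact ⟨a, b⟩

theorem norm_sum (x : E3) : ∑ i, x i * x i = ‖x‖ ^ 2 := by
  rw [norm_sq_eq, Fin.sum_univ_three]; ring

theorem deriv_shift {g : TensorField} {δ : ℝ} {x : E3} (hg : MetricOn (Outside δ) g)
    (hs : Shiftless δ g) (hx : x ≠ 0) (h1 : 1 - δ < ‖x‖) (h2 : ‖x‖ < 1 + δ) {lam : ℝ}
    (hl : ∀ j, ∑ i, g x i j * x i = lam * x j) (m : Fin 3) (w : Cov)
    (hw : ∑ i, x i * w i = 0) :
    ∑ j, (g x m j + ∑ i, x i * pd m (fun y => g y i j) x) * w j = lam * w m := by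
  have hn : ‖x‖ ≠ 0 := norm_ne_zero_iff.2 hx
  have hd := fun i j => differentiableAt_comp hg h1 i j
  refine contract (x := fun i => x i) (norm_sum x) (pow_ne_zero 2 hn)
    (a := fun j => ∑ i, g x i j * x i) hl hw ?_
  intro j l
  have hc : (fun y : E3 => (∑ i, g y i j * y i) * y l - (∑ i, g y i l * y i) * y j)
      =ᶠ[𝓝 x] fun _ => (0 : ℝ) := by
    filter_upwards [near h1 h2] with y hy
    exact cross (g := g y) (x := fun i => y i) (fun v hv => hs y hy.1 hy.2 v hv) j l
  have h3 := pd_congr (i := m) hc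
  rw [pd_const, pd_sub ((diff_low hd j).fun_mul (differentiableAt_coord l))
    ((diff_low hd l).fun_mul (differentiableAt_coord j)),
    pd_mul (diff_low hd j) (differentiableAt_coord l),
    pd_mul (diff_low hd l) (differentiableAt_coord j), pd_coord, pd_coord, pd_low hd m j,
    pd_low hd m l] at h3
  unfold dl
  linarith

/-- the second fundamental form of the spheres -/
theorem second {g : TensorField} {δ : ℝ} {x : E3} (hg : MetricOn (Outside δ) g)
    (hs : Shiftless δ g) (hx : x ≠ 0) (h1 : 1 - δ < ‖x‖) (h2 : ‖x‖ < 1 + δ) {lam c μ : ℝ}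
    (hl : ∀ j, ∑ i, g x i j * x i = lam * x j) (hμ : lam * μ = 1)
    (hsym : ∀ i j, g x i j = g x j i)
    (hG : ∀ m i j, pd m (fun y => g y i j) x = pd m (fun y => g y j i) x)
    {D : Bil} (hD : ∀ i j, D i j = c * (dl i j - (c * x i) * (c * x j))
      - 1 / 2 * ∑ l, μ * (c * x l) * (pd i (fun y => g y j l) x + pd j (fun y => g y i l) x
        - pd l (fun y => g y i j) x)
      - 1 / 2 * (c * μ) * (2 * g x i j + ∑ m, x m * pd m (fun y => g y i j) x))
    {v w : Cov} (hv : ∑ i, x i * v i = 0) (hw : ∑ i, x i * w i = 0) :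
    ∑ i, ∑ j, D i j * v i * w j = 0 := by
  have ew := fun m => deriv_shift hg hs hx h1 h2 hl m w hw
  have ev' := fun m => deriv_shift hg hs hx h1 h2 hl m v hv
  set G : Fin 3 → Fin 3 → Fin 3 → ℝ := fun m i j => pd m (fun y => g y i j) x with hGd
  have hG' : ∀ m i j, G m i j = G m j i := hG
  have ew' : ∀ m, ∑ j, (g x m j + ∑ i, x i * G m j i) * w j = lam * w m := by
    intro m
    rw [← ew m]
    refine Finset.sum_congr rfl fun j _ => ?_
    congr 2
    exact Finset.sum_congr rfl fun i _ => by rw [hG' m j i]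
  have ev'' : ∀ m, ∑ j, (g x m j + ∑ i, x i * G m j i) * v j = lam * v m := by
    intro m
    rw [← ev' m]
    refine Finset.sum_congr rfl fun j _ => ?_
    congr 2
    exact Finset.sum_congr rfl fun i _ => by rw [hG' m j i]
  have hD' : ∀ i j, D i j = c * (dl i j - (c * x i) * (c * x j))
      - 1 / 2 * ∑ l, μ * (c * x l) * (G i j l + G j i l - G l i j)
      - 1 / 2 * (c * μ) * (2 * g x i j + ∑ m, x m * G m i j) := hD
  clear_value G
  have w0 := ew' 0
  have w1 := ew' 1
  have w2 := ew' 2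
  have v0 := ev'' 0
  have v1 := ev'' 1
  have v2 := ev'' 2
  have s10 := hsym 1 0
  have s20 := hsym 2 0
  have s21 := hsym 2 1
  simp only [Fin.sum_univ_three] at w0 w1 w2 v0 v1 v2 hv hw ⊢
  simp only [hD', Fin.sum_univ_three, dl]
  simp only [Fin.isValue, reduceIte, zero_ne_one, one_ne_zero, Fin.reduceEq]
  rw [s10, s20, s21] at *
  linear_combination (-(1 / 2) * μ * c) * (v 0 * w0 + v 1 * w1 + v 2 * w2
    + w 0 * v0 + w 1 * v1 + w 2 * v2) - c ^ 3 * (x 0 * v 0 + x 1 * v 1 + x 2 * v 2) * hw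
    - c * (v 0 * w 0 + v 1 * w 1 + v 2 * w 2) * hμ

/-- the inverse metric on the radial direction -/
theorem inv_low {g gi : Bil} (hgi : gi * g = 1) (hsym : ∀ i j, g i j = g j i) {x : Cov}
    {lam : ℝ} (hl : ∀ j, ∑ i, g i j * x i = lam * x j) (hlam : lam ≠ 0) (i : Fin 3) :
    ∑ j, gi i j * x j = x i / lam := by
  rw [eq_div_iff hlam, Finset.sum_mul]
  have h1 : ∀ i k, ∑ j, gi i j * g j k = if i = k then 1 else 0 := by
    intro i k
    have := congrFun (congrFun hgi i) k
    rwa [Matrix.mul_apply, Matrix.one_apply] at this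
  calc ∑ j, gi i j * x j * lam = ∑ j, gi i j * ∑ k, g j k * x k := by
        refine Finset.sum_congr rfl fun j _ => ?_
        have h2 : ∑ k, g j k * x k = lam * x j := by
          rw [← hl j]
          exact Finset.sum_congr rfl fun k _ => by rw [hsym j k]
        rw [h2]; ring
    _ = ∑ k, (∑ j, gi i j * g j k) * x k := by
        simp only [Fin.sum_univ_three]; ring
    _ = x i := by simp [h1]

end XMEANm

open XMEANm in
theorem XMEAN : Stmt_XMEAN := by
  intro g δ x hg hs hx h1 h2
  have hn : ‖x‖ ≠ 0 := norm_ne_zero_iff.2 hx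
  have hr : 0 < ‖x‖ := norm_pos_iff.2 hx
  have hpd := hg.posDef x h1
  have hsymy : ∀ y : E3, 1 - δ < ‖y‖ → ∀ i j, g y i j = g y j i := by
    intro y hy i j
    have := (hg.posDef y hy).isHermitian.apply j i
    simpa using this
  have hsym := hsymy x h1
  have hG : ∀ m i j, pd m (fun y => g y i j) x = pd m (fun y => g y j i) x := by
    intro m i j
    refine pd_congr ?_
    filter_upwards [near h1 h2] with y hy
    exact hsymy y hy.1 i j
  set lam := (∑ i, ∑ k, g x i k * x i * x k) / ‖x‖ ^ 2 with hlamd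
  have hquad : 0 < ∑ i, ∑ k, g x i k * x i * x k := by
    have hx' : (fun i => x i : Fin 3 → ℝ) ≠ 0 := by
      intro h
      refine hx ?_
      ext i
      exact congrFun h i
    have := hpd.dotProduct_mulVec_pos hx'
    simp only [dotProduct, Matrix.mulVec, star_trivial, Finset.mul_sum] at this
    refine this.trans_eq ?_
    refine Finset.sum_congr rfl fun i _ => Finset.sum_congr rfl fun k _ => ?_
    ring
  have hlam : 0 < lam := by positivity
  have hl : ∀ j, ∑ i, g x i j * x i = lam * x j := fun j =>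
    eigen (g := g x) (x := fun i => x i) (norm_sum x) (pow_ne_zero 2 hn)
      (fun v hv => hs x h1 h2 v hv) j
  clear_value lam
  have hdet : IsUnit (g x).det := hpd.det_pos.ne'.isUnit
  have hgi : (g x)⁻¹ * g x = 1 := Matrix.nonsing_inv_mul _ hdet
  have hisym : ∀ i j, (g x)⁻¹ i j = (g x)⁻¹ j i := by
    intro i j
    have := hpd.inv.isHermitian.apply j i
    simpa using this
  have hilow := inv_low hgi hsym (x := fun i => x i) hl hlam.ne'
  rw [grad_rad hx]
  have hnn : ∑ i, nu x i * nu x i = 1 := by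
    unfold nu
    have := norm_sum x
    simp only [Fin.sum_univ_three] at this ⊢
    field_simp
    linarith
  have hinu : ∀ i, ∑ j, (g x)⁻¹ i j * nu x j = nu x i / lam := by
    intro i
    have := hilow i
    unfold nu
    simp only [Fin.sum_univ_three] at this ⊢
    field_simp
    field_simp at this
    linarith
  have hev : ev (g x)⁻¹ (nu x) (nu x) = 1 / lam := by
    unfold ev
    calc ∑ i, ∑ j, (g x)⁻¹ i j * nu x i * nu x j
        = ∑ i, nu x i * ∑ j, (g x)⁻¹ i j * nu x j := by
          simp only [Fin.sum_univ_three]; ring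
      _ = ∑ i, nu x i * (nu x i / lam) := by simp only [hinu]
      _ = (∑ i, nu x i * nu x i) / lam := by
          simp only [Fin.sum_univ_three]; ring
      _ = 1 / lam := by rw [hnn]
  have hlen2 : len g x (nu x) ^ 2 = 1 / lam := by
    unfold len
    rw [hev, Real.sq_sqrt (by positivity)]
  have hlen0 : 0 < len g x (nu x) := by
    unfold len
    rw [hev]
    exact Real.sqrt_pos.2 (by positivity)
  refine ⟨?_, hlen0⟩
  -- the trace over the plane
  have hbtan : ∀ B : Bil, btan g x (nu x) B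
      = ∑ i, ∑ j, ((g x)⁻¹ i j - nu x i * nu x j / lam) * B i j := by
    intro B
    unfold btan bnn trg ev nrm raise
    simp only [hinu]
    have hL : len g x (nu x) ≠ 0 := hlen0.ne'
    have e : ∀ i j, B i j * (nu x i / lam / len g x (nu x)) * (nu x j / lam / len g x (nu x))
        = nu x i * nu x j / lam * B i j := by
      intro i j
      have e1 : B i j * (nu x i / lam / len g x (nu x)) * (nu x j / lam / len g x (nu x))
          = B i j * nu x i * nu x j / (lam ^ 2 * len g x (nu x) ^ 2) := by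
        field_simp
      rw [e1, hlen2]
      field_simp
    simp only [e, sub_mul, Finset.sum_sub_distrib]
  -- the difference of the two forms
  have hkey : btan g x (nu x) (cHess g x (nu x) (hess2 rad x)
      - (1 / 2 * (‖x‖⁻¹ * lam⁻¹)) • eulG g x) = 0 := by
    rw [hbtan]
    refine tan_zero (Q := Matrix.of fun i j => (g x)⁻¹ i j - nu x i * nu x j / lam)
      (n := nu x) ?_ ?_ hnn ?_
    · intro j
      have := hinu j
      simp only [Matrix.of_apply]
      calc ∑ i, ((g x)⁻¹ i j - nu x i * nu x j / lam) * nu x i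
          = (∑ i, (g x)⁻¹ j i * nu x i) - (∑ i, nu x i * nu x i) * (nu x j / lam) := by
            simp only [hisym j, Fin.sum_univ_three]; ring
        _ = 0 := by rw [this, hnn]; ring
    · intro i
      have := hinu i
      simp only [Matrix.of_apply]
      calc ∑ j, ((g x)⁻¹ i j - nu x i * nu x j / lam) * nu x j
          = (∑ j, (g x)⁻¹ i j * nu x j) - (∑ j, nu x j * nu x j) * (nu x i / lam) := by
            simp only [Fin.sum_univ_three]; ring
        _ = 0 := by rw [this, hnn]; ring
    · intro v w hv hw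
      have hx1 : ∀ u : Cov, ∑ i, nu x i * u i = 0 → ∑ i, x i * u i = 0 := by
        intro u hu
        unfold nu at hu
        simp only [Fin.sum_univ_three] at hu ⊢
        field_simp at hu
        linarith
      refine second hg hs hx h1 h2 (lam := lam) (c := ‖x‖⁻¹) (μ := lam⁻¹) hl
        (mul_inv_cancel₀ hlam.ne') hsym hG (fun i j => ?_) (hx1 v hv) (hx1 w hw)
      rw [Matrix.sub_apply, Matrix.smul_apply, smul_eq_mul, cHess, Matrix.of_apply, hess_rad hx,
        eulG, Matrix.of_apply]
      have hch : ∑ k, christoffel g k i j x * nu x k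
          = 1 / 2 * ∑ l, lam⁻¹ * (‖x‖⁻¹ * x l) * (pd i (fun y => g y j l) x
            + pd j (fun y => g y i l) x - pd l (fun y => g y i j) x) := by
        unfold christoffel
        calc ∑ k, (1 / 2 * ∑ l, (g x)⁻¹ k l * (pd i (fun y => g y j l) x
              + pd j (fun y => g y i l) x - pd l (fun y => g y i j) x)) * nu x k
            = 1 / 2 * ∑ l, (∑ k, (g x)⁻¹ l k * nu x k) * (pd i (fun y => g y j l) x
              + pd j (fun y => g y i l) x - pd l (fun y => g y i j) x) := by
              simp only [Fin.sum_univ_three, hisym 1 0, hisym 2 0, hisym 2 1]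
              ring
          _ = 1 / 2 * ∑ l, lam⁻¹ * (‖x‖⁻¹ * x l) * (pd i (fun y => g y j l) x
            + pd j (fun y => g y i l) x - pd l (fun y => g y i j) x) := by
              congr 1
              refine Finset.sum_congr rfl fun l _ => ?_
              rw [hinu l, nu]
              ring
      rw [hch]
      unfold nu
      ring
  have hlin : btan g x (nu x) (cHess g x (nu x) (hess2 rad x))
      = 1 / 2 * (‖x‖⁻¹ * lam⁻¹) * btan g x (nu x) (eulG g x) := by
    rw [hbtan] at hkey
    rw [hbtan, hbtan]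
    simp only [Matrix.sub_apply, Matrix.smul_apply, smul_eq_mul, mul_sub,
      Finset.sum_sub_distrib] at hkey
    rw [Finset.mul_sum]
    simp only [Finset.mul_sum]
    rw [sub_eq_zero] at hkey
    rw [hkey]
    refine Finset.sum_congr rfl fun i _ => Finset.sum_congr rfl fun j _ => ?_
    ring
  unfold sphereMean
  rw [grad_rad hx, hlin]
  have e2 : 2 * ‖x‖ * (1 / 2 * (‖x‖⁻¹ * lam⁻¹) * btan g x (nu x) (eulG g x)
      / len g x (nu x)) / len g x (nu x)
      = lam⁻¹ * btan g x (nu x) (eulG g x) / len g x (nu x) ^ 2 := by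
    field_simp
  rw [e2, hlen2]
  field_simp

end Pool.Agent.PFlow


end
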