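import Mathlib
import Pool.Agent.PFlow.StmtsX2
import Pool.Agent.PenroseM.C31
import Pool.Agent.PenroseM.C43

/-! Parts: PFlow.X.XABSF, PFlow.X.XLOC -/

section

/-!
# XABSF: the flux inequality, exterior case
-/

open MeasureTheory Filter Topology
open scoped ContDiff ENNReal Matrix MatrixOrder

namespace Pool.Agent.PFlow

open Pool.Agent.PenroseSph

namespace XABSFm

open ABSFm

lemma measurableSet_Ann (a b : ℝ) : MeasurableSet (Ann a b) := by
  have : Ann a b = (fun x : E3 => ‖x‖) ⁻¹' Set.Ioo a b := rfl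
  rw [this]
  exact measurableSet_Ioo.preimage continuous_norm.measurable

lemma deriv_zero {f : ℝ → ℝ} {t : ℝ} (h : t ∉ tsupport f) : deriv f t = 0 := by
  by_contra hne
  exact h (support_deriv_subset (Function.mem_support.mpr hne))

lemma exists_bound {ψ : ℝ → ℝ} {b : ℝ} (hc : HasCompactSupport ψ)
    (hs : tsupport ψ ⊆ Set.Iio b) : ∃ s', s' < b ∧ ∀ t ∈ tsupport ψ, t ≤ s' := by
  rcases (tsupport ψ).eq_empty_or_nonempty with he | hne
  · exact ⟨b - 1, by linarith, by simp [he]⟩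
  · obtain ⟨s', hs1', hs2'⟩ := hc.isCompact.exists_isGreatest hne
    exact ⟨s', hs hs1', fun t ht => hs2' ht⟩

lemma one_le_u {ε R : ℝ} {g h : TensorField} {u : E3 → ℝ} {G : E3 → Cov} {M : E3 → Bil}
    (hR : 8 ≤ R) (hs : SolX ε R g h u G M) {x : E3} (h1 : 1 / 2 < ‖x‖) (h2 : ‖x‖ ≤ 1) :
    1 ≤ u x := by
  have h0 : 0 < ‖x‖ := by linarith
  have h3 : ‖inversion x‖ = ‖x‖⁻¹ := by
    rw [inversion, norm_smul, norm_inv, norm_pow, norm_norm]
    field_simp
  have h4 : 1 ≤ ‖inversion x‖ := by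
    rw [h3]
    exact (one_le_inv₀ h0).mpr h2
  have h5 : ‖inversion x‖ < R := by
    rw [h3]
    have : ‖x‖⁻¹ < 2 := by
      rw [inv_lt_comm₀ h0 (by norm_num)]
      linarith
    linarith
  have h6 := hs.le_one _ h4 h5
  have h7 := hs.refl x ⟨h1, by linarith⟩
  linarith

/-- The flux inequality for test functions supported above the level of the boundary. -/
lemma core (hXSETW : Stmt_XSETW) (hFLX : Stmt_FLX) (P : ParX) (D : DatX) (hD : SetupX P D)
    (ψ : ℝ → ℝ) (hψ : ContDiff ℝ 1 ψ) (hψ0 : ∀ s, 0 ≤ ψ s) (hψc : HasCompactSupport ψ)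
    (hψs : tsupport ψ ⊆ Set.Ioo (P.eps / 4) (D.sM P)) :
    ∫ x in D.Om, deriv ψ (D.w P x) * (Real.exp (-D.w P x) * D.X P x ^ (1 + P.eps)) * D.vol x
      ≤ 0 := by
  obtain ⟨-, -, -, -, -, -, -, -, -, -, -, -, -, -, -, hK, -⟩ := hXSETW P D hD
  have hε := hD.eps_pos
  have hε2 := hD.eps_le
  have hε1 : P.eps < 1 := by linarith
  -- the shifted test function
  set q : ℝ → ℝ := fun s => ψ (s + P.eps / 4) with hq
  have hqd : ContDiff ℝ 1 q := hψ.comp (contDiff_id.add contDiff_const)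
  have hqt : ∀ t, t ∈ tsupport q → t + P.eps / 4 ∈ tsupport ψ := by
    intro t ht
    by_contra hn
    rw [notMem_tsupport_iff_eventuallyEq] at hn
    apply (notMem_tsupport_iff_eventuallyEq (f := q) (x := t)).2 ?_ ht
    have hc : ContinuousAt (fun t : ℝ => t + P.eps / 4) t := by fun_prop
    filter_upwards [hc.eventually hn] with s hs
    exact hs
  have hqder : ∀ t, deriv q t = deriv ψ (t + P.eps / 4) := fun t =>
    deriv_comp_add_const ψ (P.eps / 4) t
  obtain ⟨s, s', hs1, hs2, hs3⟩ := exists_bounds hψc hψs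
  obtain ⟨K, hKc, hKs, hK1⟩ := hK s' hs2
  -- `R ≥ 8`
  have hR : 8 ≤ D.R := by
    have h1 : (4 : ℝ) ≤ kE P.eps P.gam := by
      unfold kE
      have : (1 : ℝ) ≤ Real.exp ((1 + 2 * P.gam) / (2 - P.eps)) := by
        apply Real.one_le_exp
        have := hD.gam_ge
        have h2 : 0 < 2 - P.eps := by linarith
        positivity
      linarith
    have h2 : (1 : ℝ) ≤ kE P.eps P.gam ^ 4 := one_le_pow₀ (by linarith)
    have h3 := hD.R_ge
    have h4 := hD.l_ge
    nlinarith
  have hpos : ∀ x ∈ Ann (1 / 2) D.R, 0 < D.u x := fun x hx => hD.located.pos x hx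
  have hsub : D.Om ⊆ Ann (1 / 2) D.R := fun x hx => ⟨by have := hx.1; linarith, hx.2⟩
  -- the support
  have hS : ∀ t, s' - P.eps / 4 < t → q t = 0 := by
    intro t ht
    by_contra hne
    have := (hs3 _ (hqt t (subset_tsupport _ hne))).2
    linarith
  have hlow : ∀ x ∈ Ann (1 / 2) D.R, ‖x‖ ≤ 1 → -P.eps * Real.log (D.u x) ∉ tsupport q := by
    intro x hx hx1 hn
    have h1 := (hs3 _ (hqt _ hn)).1
    have h2 := one_le_u hR hD.sol hx.1 hx1
    have h3 := Real.log_nonneg h2
    nlinarith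
  have key := hFLX P.eps (1 / 2) D.R D.g' D.h' D.u D.G D.M hε hε1 (by norm_num) (by linarith)
    hD.modified.metric hD.modified.tensor hD.sol.h2 hD.sol.flux (psi1 P.eps q) K
    (psi1_contDiff hε hqd hS) hKc hKs (by
      intro x hx hux
      have h1 := psi1_tsupport (hpos x hx) hux
      have h2 : 1 < ‖x‖ := by
        by_contra hn
        exact hlow x hx (not_lt.mp hn) h1
      have h3 := (hs3 _ (hqt _ h1)).2
      exact hK1 ⟨⟨h2, hx.2⟩, h3⟩)
  -- the right side is nonnegative
  have hr : 0 ≤ ∫ x in Ann (1 / 2) D.R,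
      len D.g' x (D.G x) ^ P.eps * beps P.eps D.g' x (D.G x) (D.h' x) * psi1 P.eps q (D.u x)
        * volDen D.g' x := by
    apply setIntegral_nonneg (measurableSet_Ann _ _)
    intro x hx
    have h2 : 0 ≤ volDen D.g' x := Real.sqrt_nonneg _
    by_cases hx1 : ‖x‖ ≤ 1
    · have h1 : psi1 P.eps q (D.u x) = 0 := by
        unfold psi1
        rw [if_pos (hpos x hx)]
        exact image_eq_zero_of_notMem_tsupport (hlow x hx hx1)
      rw [h1, mul_zero, zero_mul]
    · have h1 : 0 ≤ psi1 P.eps q (D.u x) := by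
        unfold psi1
        split_ifs
        · exact hψ0 _
        · exact le_refl _
      have h3 : 0 ≤ len D.g' x (D.G x) ^ P.eps * beps P.eps D.g' x (D.G x) (D.h' x) := by
        rcases eq_or_ne (D.G x) 0 with h0 | h0
        · have : len D.g' x (D.G x) = 0 := by
            rw [h0]
            simp [len, ev]
          rw [this, Real.zero_rpow hε.ne', zero_mul]
        · refine mul_nonneg (Real.rpow_nonneg (Real.sqrt_nonneg _) _) ?_
          exact beps_nonneg hε hε1 (hD.modified.metric.posDef x trivial)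
            (hD.modified.tensor.symm x trivial)
            (hD.modified.twoNonneg x (not_le.mp hx1).le) h0
      exact mul_nonneg (mul_nonneg h3 h1) h2
  -- the left side
  have hl0 : ∫ x in Ann (1 / 2) D.R,
      deriv (psi1 P.eps q) (D.u x) * len D.g' x (D.G x) ^ (1 + P.eps) * volDen D.g' x
      = ∫ x in D.Om,
      deriv (psi1 P.eps q) (D.u x) * len D.g' x (D.G x) ^ (1 + P.eps) * volDen D.g' x := by
    apply setIntegral_eq_of_subset_of_forall_sdiff_eq_zero (measurableSet_Ann _ _) hsub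
    intro x hx
    have hx1 : ‖x‖ ≤ 1 := by
      by_contra hn
      exact hx.2 ⟨not_le.mp hn, hx.1.2⟩
    rw [psi1_deriv hqd (hpos x hx.1), deriv_zero (hlow x hx.1 hx1)]
    ring
  have hl : ∫ x in D.Om,
      deriv (psi1 P.eps q) (D.u x) * len D.g' x (D.G x) ^ (1 + P.eps) * volDen D.g' x
      = -(P.eps ^ (-P.eps) * Real.exp (P.eps / 4)) * ∫ x in D.Om,
        deriv ψ (D.w P x) * (Real.exp (-D.w P x) * D.X P x ^ (1 + P.eps)) * D.vol x := by
    rw [← integral_const_mul]
    refine setIntegral_congr_fun (measurableSet_Ann _ _) fun x hx => ?_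
    have hu := hpos x (hsub hx)
    have hX : D.X P x = P.eps / D.u x * len D.g' x (D.G x) := by
      have e : D.Gw P x = (-(P.eps / D.u x)) • D.G x := by
        funext i
        simp only [DatX.Gw, gOf, Pi.smul_apply, smul_eq_mul]
        ring
      rw [DatX.X, e, len_smul, abs_neg, abs_of_pos (div_pos hε hu)]
    have hw : Real.exp (-D.w P x) = D.u x ^ P.eps * Real.exp (-(P.eps / 4)) := by
      rw [DatX.w, wOf, Real.rpow_def_of_pos hu, ← Real.exp_add]
      congr 1
      ring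
    have hw' : -P.eps * Real.log (D.u x) + P.eps / 4 = D.w P x := rfl
    change deriv (psi1 P.eps q) (D.u x) * len D.g' x (D.G x) ^ (1 + P.eps) * volDen D.g' x
      = -(P.eps ^ (-P.eps) * Real.exp (P.eps / 4)) * (deriv ψ (D.w P x)
        * (Real.exp (-D.w P x) * D.X P x ^ (1 + P.eps)) * D.vol x)
    have hlen0 : 0 ≤ len D.g' x (D.G x) := Real.sqrt_nonneg _
    rw [psi1_deriv hqd hu, hqder, hX, hw, hw', Real.mul_rpow (div_pos hε hu).le hlen0,
      Real.div_rpow hε.le hu.le, Real.rpow_add hε, Real.rpow_one, Real.rpow_add hu, Real.rpow_one,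
      Real.rpow_neg hε.le, Real.exp_neg]
    have e1 : P.eps ^ P.eps ≠ 0 := (Real.rpow_pos_of_pos hε _).ne'
    have e2 : D.u x ^ P.eps ≠ 0 := (Real.rpow_pos_of_pos hu _).ne'
    have e3 : D.u x ≠ 0 := hu.ne'
    have e4 : Real.exp (P.eps / 4) ≠ 0 := (Real.exp_pos _).ne'
    change _ = -((P.eps ^ P.eps)⁻¹ * _) * (_ * _ * volDen D.g' x)
    field_simp
  rw [hl0, hl] at key
  have hc : 0 < P.eps ^ (-P.eps) * Real.exp (P.eps / 4) :=
    mul_pos (Real.rpow_pos_of_pos hε _) (Real.exp_pos _)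
  have h5 : 0 ≤ -(P.eps ^ (-P.eps) * Real.exp (P.eps / 4)) * ∫ x in D.Om,
        deriv ψ (D.w P x) * (Real.exp (-D.w P x) * D.X P x ^ (1 + P.eps)) * D.vol x := by
    rw [key]
    exact hr
  nlinarith

/-- The cut-off: `0` for `s ≤ a + 1/(n+1)`, `1` for `s ≥ a + 2/(n+1)`. -/
noncomputable def cut (a : ℝ) (n : ℕ) (s : ℝ) : ℝ :=
  Real.smoothTransition ((n + 1 : ℝ) * (s - a) - 1)

lemma cut_contDiff (a : ℝ) (n : ℕ) : ContDiff ℝ 1 (cut a n) := by
  have h : ContDiff ℝ 1 (fun s : ℝ => (n + 1 : ℝ) * (s - a) - 1) := by fun_prop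
  exact Real.smoothTransition.contDiff.comp h

lemma cut_nonneg (a : ℝ) (n : ℕ) (s : ℝ) : 0 ≤ cut a n s := Real.smoothTransition.nonneg _

lemma cut_le_one (a : ℝ) (n : ℕ) (s : ℝ) : cut a n s ≤ 1 := Real.smoothTransition.le_one _

lemma cut_mono (a : ℝ) (n : ℕ) : Monotone (cut a n) := by
  intro s t hst
  apply Real.smoothTransition.monotone
  have : (0 : ℝ) ≤ (n + 1 : ℝ) := by positivity
  nlinarith

lemma cut_deriv_nonneg (a : ℝ) (n : ℕ) (s : ℝ) : 0 ≤ deriv (cut a n) s :=
  (cut_mono a n).deriv_nonneg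

lemma cut_zero {a : ℝ} {n : ℕ} {s : ℝ} (h : s ≤ a + 1 / (n + 1)) : cut a n s = 0 := by
  apply Real.smoothTransition.zero_of_nonpos
  have h0 : (0 : ℝ) < (n + 1 : ℝ) := by positivity
  have h1 : (n + 1 : ℝ) * (s - a) ≤ (n + 1 : ℝ) * (1 / (n + 1)) :=
    mul_le_mul_of_nonneg_left (by linarith) h0.le
  rw [mul_one_div_cancel h0.ne'] at h1
  linarith

lemma cut_tendsto {a s : ℝ} (h : a < s) :
    Tendsto (fun n : ℕ => cut a n s) atTop (𝓝 1) := by
  obtain ⟨N, hN⟩ := exists_nat_gt (2 / (s - a))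
  have h0 : 0 < s - a := by linarith
  refine tendsto_const_nhds.congr' ?_
  filter_upwards [eventually_ge_atTop N] with n hn
  symm
  apply Real.smoothTransition.one_of_one_le
  have h1 : (N : ℝ) ≤ n := by exact_mod_cast hn
  rw [div_lt_iff₀ h0] at hN
  nlinarith

end XABSFm

open ABSFm XABSFm in
theorem XABSF (hXSETW : Stmt_XSETW) (hFLX : Stmt_FLX) (hXABSI : Stmt_XABSI) : Stmt_XABSF := by
  intro P D hD ψ hψ hψ0 hψc hψs
  obtain ⟨-, -, -, -, -, -, hwm, -, -, hpos, -⟩ := hXSETW P D hD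
  obtain ⟨hI1, hI3, -, -, -, -, -, -, hXm⟩ := hXABSI P D hD
  have hε := hD.eps_pos
  have hε2 := hD.eps_le
  have hOm : MeasurableSet D.Om := measurableSet_Ann _ _
  set F : E3 → ℝ := fun x => (Real.exp (-D.w P x) * D.X P x ^ (1 + P.eps)) * D.vol x with hF
  have hX0 : ∀ x, 0 ≤ D.X P x := fun x => Real.sqrt_nonneg _
  have hv0 : ∀ x, 0 ≤ D.vol x := fun x => Real.sqrt_nonneg _
  have hF0 : ∀ x, 0 ≤ F x := fun x =>
    mul_nonneg (mul_nonneg (Real.exp_pos _).le (Real.rpow_nonneg (hX0 x) _)) (hv0 x)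
  have hass : ∀ (f : E3 → ℝ), (∫ x in D.Om, f x * (Real.exp (-D.w P x) *
      D.X P x ^ (1 + P.eps)) * D.vol x) = ∫ x in D.Om, f x * F x := by
    intro f
    refine setIntegral_congr_fun hOm fun x _ => ?_
    simp only [hF]
    ring
  rw [hass (fun x => deriv ψ (D.w P x))]
  by_cases hint : IntegrableOn (fun x => deriv ψ (D.w P x) * F x) D.Om
  swap
  · rw [integral_undef hint]
  obtain ⟨s', hs', hsb⟩ := exists_bound hψc hψs
  -- measurability
  have hvm : AEStronglyMeasurable D.vol (volume.restrict D.Om) := by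
    have hdet : Continuous fun x => (D.g' x).det := by
      apply Continuous.matrix_det
      refine continuous_matrix fun i j => ?_
      exact (contDiffOn_univ.mp (hD.modified.metric.smooth i j)).continuous
    exact (Real.continuous_sqrt.comp hdet).aestronglyMeasurable
  have hFm : AEStronglyMeasurable F (volume.restrict D.Om) := by
    have h1 : AEStronglyMeasurable (fun x => Real.exp (-D.w P x)) (volume.restrict D.Om) :=
      (Real.measurable_exp.comp hwm.neg).aestronglyMeasurable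
    have h2 : AEStronglyMeasurable (fun x => D.X P x ^ (1 + P.eps)) (volume.restrict D.Om) := by
      have hc : Continuous fun t : ℝ => t ^ (1 + P.eps) :=
        Real.continuous_rpow_const (by linarith)
      exact hc.comp_aestronglyMeasurable hXm
    exact (h1.mul h2).mul hvm
  have hFb : ∀ x ∈ D.Om, F x ≤ D.vol x + D.X P x ^ 3 * D.vol x := by
    intro x hx
    have h1 : Real.exp (-D.w P x) ≤ 1 := by
      rw [Real.exp_le_one_iff]
      have := hpos x hx
      linarith
    have h2 : D.X P x ^ (1 + P.eps) ≤ 1 + D.X P x ^ 3 := by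
      rcases le_total (D.X P x) 1 with h | h
      · have h3 : D.X P x ^ (1 + P.eps) ≤ 1 := Real.rpow_le_one (hX0 x) h (by linarith)
        have h4 : 0 ≤ D.X P x ^ 3 := pow_nonneg (hX0 x) 3
        linarith
      · have h3 : D.X P x ^ (1 + P.eps) ≤ D.X P x ^ (3 : ℝ) :=
          Real.rpow_le_rpow_of_exponent_le h (by linarith)
        have h4 : D.X P x ^ (3 : ℝ) = D.X P x ^ 3 := by
          rw [← Real.rpow_natCast]
          norm_num
        rw [h4] at h3
        linarith
    have h3 : Real.exp (-D.w P x) * D.X P x ^ (1 + P.eps) ≤ 1 + D.X P x ^ 3 := by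
      have h4 : 0 ≤ D.X P x ^ (1 + P.eps) := Real.rpow_nonneg (hX0 x) _
      nlinarith [Real.exp_pos (-D.w P x)]
    calc F x ≤ (1 + D.X P x ^ 3) * D.vol x := mul_le_mul_of_nonneg_right h3 (hv0 x)
      _ = D.vol x + D.X P x ^ 3 * D.vol x := by ring
  -- the approximations
  have hn : ∀ n : ℕ, ∫ x in D.Om, deriv ψ (D.w P x) * F x * cut (P.eps / 4) n (D.w P x) ≤ 0 := by
    intro n
    set χ := cut (P.eps / 4) n with hχ
    have hχd : ContDiff ℝ 1 χ := cut_contDiff _ _
    have hc1 : HasCompactSupport (fun t => ψ t * χ t) := hψc.mul_right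
    have hts : tsupport (fun t => ψ t * χ t) ⊆ Set.Ioo (P.eps / 4) (D.sM P) := by
      intro t ht
      refine ⟨?_, hψs (tsupport_mul_subset_left ht)⟩
      have h1 : tsupport χ ⊆ Set.Ici (P.eps / 4 + 1 / (n + 1)) := by
        apply closure_minimal _ isClosed_Ici
        intro s hs
        by_contra hlt
        exact hs (cut_zero (not_le.mp hlt).le)
      have h2 := h1 (tsupport_mul_subset_right ht)
      have h3 : (0 : ℝ) < 1 / (n + 1) := by positivity
      have h4 : P.eps / 4 + 1 / ((n : ℝ) + 1) ≤ t := h2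
      linarith
    have hcore := core hXSETW hFLX P D hD (fun t => ψ t * χ t) (hψ.mul hχd)
      (fun s => mul_nonneg (hψ0 s) (cut_nonneg _ _ _)) hc1 hts
    rw [hass (fun x => deriv (fun t => ψ t * χ t) (D.w P x))] at hcore
    have hder : ∀ t, deriv (fun t => ψ t * χ t) t = deriv ψ t * χ t + ψ t * deriv χ t := by
      intro t
      exact deriv_fun_mul (hψ.differentiable (by norm_num)).differentiableAt
        (hχd.differentiable (by norm_num)).differentiableAt
    -- the two parts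
    have hp1 : IntegrableOn (fun x => deriv ψ (D.w P x) * F x * χ (D.w P x)) D.Om := by
      refine hint.mul_bdd (c := 1) ?_ ?_
      · exact (hχd.continuous.measurable.comp hwm).aestronglyMeasurable
      · refine Eventually.of_forall fun x => ?_
        rw [Real.norm_eq_abs, abs_of_nonneg (cut_nonneg _ _ _)]
        exact cut_le_one _ _ _
    have hcont : Continuous (fun t => ψ t * deriv χ t) :=
      hψ.continuous.mul (hχd.continuous_deriv le_rfl)
    have hcs : HasCompactSupport (fun t => ψ t * deriv χ t) := hψc.mul_right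
    obtain ⟨B, hB⟩ := hcs.exists_bound_of_continuous hcont
    have hp2 : IntegrableOn (fun x => (ψ (D.w P x) * deriv χ (D.w P x)) * F x) D.Om := by
      have hsm : D.Om ∩ {x | D.w P x ≤ s'} ⊆ D.Om := Set.inter_subset_left
      have hmeas : MeasurableSet (D.Om ∩ {x | D.w P x ≤ s'}) :=
        hOm.inter (measurableSet_le hwm measurable_const)
      have h1 : IntegrableOn (fun x => (ψ (D.w P x) * deriv χ (D.w P x)) * F x)
          (D.Om ∩ {x | D.w P x ≤ s'}) := by
        have hb := ((hI1 s' hs').add (hI3 s' hs')).const_mul B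
        refine Integrable.mono' hb ?_ ?_
        · refine AEStronglyMeasurable.mul ?_ (hFm.mono_measure (Measure.restrict_mono hsm le_rfl))
          exact (hcont.measurable.comp hwm).aestronglyMeasurable
        · refine (ae_restrict_iff' hmeas).mpr (Eventually.of_forall fun x hx => ?_)
          rw [norm_mul, Real.norm_eq_abs (F x), abs_of_nonneg (hF0 x)]
          exact mul_le_mul (hB _) (hFb x hx.1) (hF0 x) ((norm_nonneg _).trans (hB 0))
      refine h1.of_forall_sdiff_eq_zero hOm fun x hx => ?_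
      have h2 : D.w P x ∉ tsupport ψ := by
        intro hin
        exact hx.2 ⟨hx.1, hsb _ hin⟩
      rw [image_eq_zero_of_notMem_tsupport h2]
      ring
    have hsplit : ∫ x in D.Om, deriv (fun t => ψ t * χ t) (D.w P x) * F x =
        (∫ x in D.Om, deriv ψ (D.w P x) * F x * χ (D.w P x)) +
          ∫ x in D.Om, (ψ (D.w P x) * deriv χ (D.w P x)) * F x := by
      rw [← integral_add hp1 hp2]
      refine setIntegral_congr_fun hOm fun x _ => ?_
      simp only [hder]
      ring
    have hp3 : 0 ≤ ∫ x in D.Om, (ψ (D.w P x) * deriv χ (D.w P x)) * F x := by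
      apply integral_nonneg
      intro x
      exact mul_nonneg (mul_nonneg (hψ0 _) (cut_deriv_nonneg _ _ _)) (hF0 x)
    rw [hsplit] at hcore
    linarith
  -- the limit
  have hlim : Tendsto (fun n : ℕ => ∫ x in D.Om,
      deriv ψ (D.w P x) * F x * cut (P.eps / 4) n (D.w P x)) atTop
      (𝓝 (∫ x in D.Om, deriv ψ (D.w P x) * F x)) := by
    refine tendsto_integral_of_dominated_convergence
      (fun x => ‖deriv ψ (D.w P x) * F x‖) ?_ hint.norm ?_ ?_
    · intro n
      refine hint.aestronglyMeasurable.mul ?_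
      exact ((cut_contDiff _ _).continuous.measurable.comp hwm).aestronglyMeasurable
    · intro n
      refine Eventually.of_forall fun x => ?_
      rw [norm_mul]
      have h1 : ‖cut (P.eps / 4) n (D.w P x)‖ ≤ 1 := by
        rw [Real.norm_eq_abs, abs_of_nonneg (cut_nonneg _ _ _)]
        exact cut_le_one _ _ _
      exact mul_le_of_le_one_right (norm_nonneg _) h1
    · refine (ae_restrict_iff' hOm).mpr (Eventually.of_forall fun x hx => ?_)
      have h1 := (cut_tendsto (hpos x hx)).const_mul (deriv ψ (D.w P x) * F x)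
      rw [mul_one] at h1
      exact h1
  exact le_of_tendsto' hlim hn

end Pool.Agent.PFlow


end

section

/-!
# Location of the level sets in the exterior case

The solution is compared with the radial barriers `(Φ₊(|x|) - Φ₊(2R)) / Φ₊(1)` (from below)
and `Φ₋(|x|) / Φ₋(1)` (from above).
-/

open MeasureTheory Filter Topology
open scoped ContDiff ENNReal

namespace Pool.Agent.PFlow

open Pool.Agent.PenroseSph

namespace XLoc

open Loc

theorem norm_inversion' (x : E3) (hx : x ≠ 0) : ‖inversion x‖ = ‖x‖⁻¹ := by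
  unfold inversion
  rw [norm_smul, norm_inv, norm_pow, norm_norm]
  have : ‖x‖ ≠ 0 := norm_ne_zero_iff.mpr hx
  field_simp

variable {p q E : ℝ} {Φ : ℝ → ℝ}

/-- Lower bound of the lower barrier far out. -/
theorem lower_out (h : Facts p q E Φ) (hp : 1 ≤ p) (hq : 0 < q) (hE : 0 < E) {r R : ℝ}
    (hr : 1 ≤ r) (hR : 2 * r ≤ R) :
    q / (8 * E) * r ^ (-p) ≤ 1 / Φ 1 * (Φ r - Φ (2 * R)) := by
  have hp0 : 0 < p := by linarith
  have h1 := h.dlow1 r (2 * R) hr (by linarith)
  have h0 : 0 < Φ 1 := h.pos hp0 hq zero_le_one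
  have h0u := h.upp 1 le_rfl
  rw [Real.one_rpow, mul_one] at h0u
  have hr0 : 0 < r := by linarith
  have h3 : (2 * R) ^ (-p) ≤ r ^ (-p) / 2 := by
    calc (2 * R) ^ (-p) ≤ (2 * r) ^ (-p) :=
          Real.rpow_le_rpow_of_nonpos (by positivity) (by linarith) (by linarith)
      _ = 2 ^ (-p) * r ^ (-p) := Real.mul_rpow (by norm_num) (by linarith)
      _ ≤ 2 ^ (-(1 : ℝ)) * r ^ (-p) := by
          gcongr
          norm_num
      _ = r ^ (-p) / 2 := by
          rw [Real.rpow_neg_one]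
          ring
  have hsp : 0 < r ^ (-p) := by positivity
  have h4 : q * r ^ (-p) / (2 * p) ≤ Φ r - Φ (2 * R) := by
    have h5 : q * (r ^ (-p) / 2) / p ≤ q * (r ^ (-p) - (2 * R) ^ (-p)) / p := by
      gcongr
      linarith
    have h6 : q * (r ^ (-p) / 2) / p = q * r ^ (-p) / (2 * p) := by ring
    linarith
  have h5 : p / (4 * E) ≤ 1 / Φ 1 := by
    rw [div_le_div_iff₀ (by positivity) h0]
    have h6 : p * Φ 1 ≤ E := by
      have := mul_le_mul_of_nonneg_left h0u hp0.le
      have h7 : p * (E / p) = E := by field_simp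
      linarith
    linarith
  calc q / (8 * E) * r ^ (-p) = p / (4 * E) * (q * r ^ (-p) / (2 * p)) := by
        field_simp
        ring
    _ ≤ 1 / Φ 1 * (Φ r - Φ (2 * R)) := by
        gcongr

/-- Upper bound of the upper barrier far out. -/
theorem upper_out (h : Facts p q E Φ) (hp : 1 ≤ p) (hq : 0 < q) (hE : 0 < E) {r : ℝ}
    (hr : 1 ≤ r) : 1 / Φ 1 * Φ r ≤ E / q * r ^ (-p) := by
  have hp0 : 0 < p := by linarith
  have h1 := h.upp r hr
  have h3 := h.low 1 le_rfl
  rw [Real.one_rpow, mul_one] at h3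
  have h0 : 0 < Φ 1 := h.pos hp0 hq zero_le_one
  have h5 : 0 < q / p := by positivity
  have h6 : 1 / Φ 1 ≤ p / q := by
    rw [div_le_div_iff₀ h0 hq]
    have h7 : q / p * p ≤ Φ 1 * p := mul_le_mul_of_nonneg_right (by linarith) hp0.le
    have h8 : q / p * p = q := by field_simp
    linarith
  have h7 : 0 < Φ r := h.pos hp0 hq (by linarith)
  have h8 : 1 / Φ 1 * Φ r ≤ p / q * (E * r ^ (-p) / p) := by gcongr
  have h9 : p / q * (E * r ^ (-p) / p) = E / q * r ^ (-p) := by field_simp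
  rw [h9] at h8
  exact h8

end XLoc

open Loc XLoc in
theorem XLOC (hPHI : Stmt_PHI) (hBARR : Stmt_BARR) : Stmt_XLOC := by
  intro ε C hε hε1 hC
  have hp3 := pe_ge ε hε hε1
  have hεp := mul_pe ε hε
  set p := pe ε with hp
  set q := 2 ^ (-p) * Real.exp (-((C + 1) * Real.pi / (2 * ε))) with hq
  set E := Real.exp ((C + 1) * Real.pi / (2 * ε)) with hE
  have hC1 : 0 ≤ C + 1 := by linarith
  have hp0 : 0 < p := by linarith
  have hp1 : 1 ≤ p := by linarith
  have hq0 : 0 < q := by positivity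
  have hE1 : 1 ≤ E := Real.one_le_exp (by positivity)
  have hE0 : 0 < E := by linarith
  have hq1 : q ≤ 1 := by
    have h1 : (2 : ℝ) ^ (-p) ≤ 1 := Real.rpow_le_one_of_one_le_of_nonpos (by norm_num) (by linarith)
    have h2 : Real.exp (-((C + 1) * Real.pi / (2 * ε))) ≤ 1 := by
      rw [Real.exp_le_one_iff]
      have : 0 ≤ (C + 1) * Real.pi / (2 * ε) := by positivity
      linarith
    calc q ≤ 1 * 1 := by
          rw [hq]
          gcongr
      _ = 1 := by ring
  have hFp : Facts p q E (phiB ε 1 (C + 1)) := facts hPHI ε (C + 1) 1 hε hε1 hC1 (Or.inl rfl)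
  have hFm : Facts p q E (phiB ε (-1) (C + 1)) :=
    facts hPHI ε (C + 1) (-1) hε hε1 hC1 (Or.inr rfl)
  have hcont : ContinuousAt (phiB ε 1 (C + 1)) 1 :=
    ((hPHI ε (C + 1) 1 hε hε1 hC1 (Or.inl rfl)).2.1 1 one_pos).2.1.continuousAt
  set Φp := phiB ε 1 (C + 1) with hΦp
  set Φm := phiB ε (-1) (C + 1) with hΦm
  have hP1 : 0 < Φp 1 := hFp.pos hp0 hq0 zero_le_one
  have hM1 : 0 < Φm 1 := hFm.pos hp0 hq0 zero_le_one
  -- the constants
  set A : ℝ := 8 * E / q with hA
  have hA1 : 1 ≤ A := by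
    rw [hA, le_div_iff₀ hq0]
    linarith
  have hlogA : 0 ≤ Real.log A := Real.log_nonneg hA1
  set γ : ℝ := ε * Real.log A + 2 with hγ
  set c : ℝ := 1 - 1 / Φm 1 * Φm (3 / 2) with hc
  have hc0 : 0 < c := by
    have h1 : Φm (3 / 2) < Φm 1 := hFm.anti 1 (3 / 2) zero_le_one (by norm_num)
    have h2 : 1 / Φm 1 * Φm (3 / 2) < 1 := by
      rw [one_div, inv_mul_lt_iff₀ hM1, mul_one]
      exact h1
    linarith
  set a : ℝ := Real.exp (-(1 / 2)) with ha
  have ha0 : 0 < a := Real.exp_pos _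
  have ha1 : a < 1 := by
    rw [ha, Real.exp_lt_one_iff]
    norm_num
  set b : ℝ := (1 + a) / 2 with hb
  have hab : a < b := by
    rw [hb]
    linarith
  have hb1 : b < 1 := by
    rw [hb]
    linarith
  obtain ⟨τ₀, hτ₀, hτ₀1, hτ₀b⟩ : ∃ τ₀ : ℝ, 0 < τ₀ ∧ τ₀ ≤ 1 / 10 ∧
      b * Φp 1 < Φp (Real.exp τ₀) := by
    have hcont' : ContinuousAt Φp (Real.exp 0) := by
      rw [Real.exp_zero]
      exact hcont
    have h1 : ContinuousAt (fun t : ℝ => Φp (Real.exp t)) 0 :=
      ContinuousAt.comp (g := Φp) (f := Real.exp) hcont' Real.continuous_exp.continuousAt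
    have h2 : b * Φp 1 < (fun t : ℝ => Φp (Real.exp t)) 0 := by
      simp only [Real.exp_zero]
      nlinarith
    have h3 : ∀ᶠ t in 𝓝 (0 : ℝ), b * Φp 1 < Φp (Real.exp t) := h1.eventually (lt_mem_nhds h2)
    obtain ⟨δ, hδ, h4⟩ := Metric.eventually_nhds_iff.mp h3
    refine ⟨min (δ / 2) (1 / 10), by positivity, min_le_right _ _, h4 ?_⟩
    rw [Real.dist_eq, sub_zero, abs_of_pos (by positivity)]
    exact (min_le_left _ _).trans_lt (by linarith)
  refine ⟨c, γ, τ₀, hc0, by have := mul_nonneg hε.le hlogA; linarith, hτ₀, hτ₀1, ?_⟩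
  intro l hl
  have hl0 : 0 < l := by linarith
  refine ⟨16 * l + E / ((b - a) * q), ?_, ?_⟩
  · have h1 : 0 ≤ E / ((b - a) * q) :=
      div_nonneg hE0.le (mul_nonneg (by linarith) hq0.le)
    linarith
  intro τ R hτ hττ hR g h u G M hg hbar sol
  have hba : 0 < b - a := by linarith
  have hRa : 16 * l ≤ R := by
    have h1 : 0 ≤ E / ((b - a) * q) := by positivity
    linarith
  have hRb : E / ((b - a) * q) ≤ R := by linarith
  have hR16 : 128 ≤ R := by linarith
  have hR0 : 0 < R := by linarith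
  -- the lower barrier
  have hx0 : ∀ x : E3, 1 ≤ ‖x‖ → x ≠ 0 := by
    intro x hx h0
    rw [h0, norm_zero] at hx
    linarith
  have hlower : ∀ x : E3, 1 ≤ ‖x‖ → ‖x‖ < R → 1 / Φp 1 * (Φp ‖x‖ - Φp (2 * R)) ≤ u x := by
    have hk : 0 < 1 / Φp 1 := by positivity
    refine sol.sub (fun y => 1 / Φp 1 * (Φp ‖y‖ - Φp (2 * R))) ?_ ?_ ?_
    · intro y hy1 hy2
      have h1 := hBARR ε C g h y hε hε1 hC.le (hx0 y hy1) (hg.posDef y (Set.mem_univ y))
        (hbar y hy1) 1 (Or.inl rfl)
      refine ⟨contDiffAt_const.mul (h1.1.sub contDiffAt_const), ?_, h1.2.2.1 rfl _ _ hk⟩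
      have h2 := grad_affine (fun y : E3 => phiB ε 1 (C + 1) ‖y‖) y (1 / Φp 1)
        (-(1 / Φp 1 * Φp (2 * R))) (h1.1.differentiableAt (by norm_num)) hk.ne' h1.2.1
      have h3 : (fun y : E3 => 1 / Φp 1 * phiB ε 1 (C + 1) ‖y‖
          + -(1 / Φp 1 * Φp (2 * R))) = fun y => 1 / Φp 1 * (Φp ‖y‖ - Φp (2 * R)) := by
        ext y
        rw [hΦp]
        ring
      rwa [h3] at h2
    · intro y hy
      have h3 : 0 < Φp (2 * R) := hFp.pos hp0 hq0 (by linarith)
      simp only [hy]
      rw [one_div, inv_mul_le_iff₀ hP1, mul_one]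
      linarith
    · intro y hy
      simp only [hy, sub_self, mul_zero, le_refl]
  -- the upper barrier
  have hupper : ∀ x : E3, 1 ≤ ‖x‖ → ‖x‖ < R → u x ≤ 1 / Φm 1 * Φm ‖x‖ := by
    have hk : 0 < 1 / Φm 1 := by positivity
    intro x hx1 hx2
    have h0 := sol.super (fun y => 1 / Φm 1 * Φm ‖y‖ + 0) ?_ ?_ ?_ x hx1 hx2
    · simpa only [add_zero] using h0
    · intro y hy1 hy2
      have h1 := hBARR ε C g h y hε hε1 hC.le (hx0 y hy1) (hg.posDef y (Set.mem_univ y))
        (hbar y hy1) (-1) (Or.inr rfl)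
      exact ⟨(contDiffAt_const.mul h1.1).add contDiffAt_const,
        grad_affine (fun y : E3 => phiB ε (-1) (C + 1) ‖y‖) y (1 / Φm 1) 0
        (h1.1.differentiableAt (by norm_num)) hk.ne' h1.2.1, h1.2.2.2 rfl _ _ hk⟩
    · intro y hy
      simp only [hy, add_zero]
      rw [one_div, inv_mul_cancel₀ hM1.ne']
    · intro y hy
      have h3 : 0 < Φm ‖y‖ := hFm.pos hp0 hq0 (norm_nonneg y)
      simp only [add_zero]
      positivity
  -- positivity
  have hpos1 : ∀ x : E3, 1 ≤ ‖x‖ → ‖x‖ < R → 0 < u x := by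
    intro x hx1 hx2
    refine lt_of_lt_of_le ?_ (hlower x hx1 hx2)
    have h1 := hFp.anti ‖x‖ (2 * R) (norm_nonneg x) (by linarith)
    exact mul_pos (by positivity) (by linarith)
  have hrefl : ∀ x : E3, 1 / 2 < ‖x‖ → ‖x‖ < 1 →
      u x = 2 - u (inversion x) ∧ ‖inversion x‖ = ‖x‖⁻¹ ∧ 1 ≤ ‖x‖⁻¹ ∧ ‖x‖⁻¹ < R := by
    intro x hx1 hx2
    have hxp : 0 < ‖x‖ := by linarith
    have hxn : x ≠ 0 := norm_pos_iff.mp hxp
    have h1 := sol.refl x ⟨hx1, by linarith⟩
    refine ⟨by linarith, norm_inversion' x hxn, ?_, ?_⟩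
    · exact (one_le_inv₀ hxp).mpr hx2.le
    · have h2 : ‖x‖⁻¹ < (1 / 2 : ℝ)⁻¹ := inv_strictAnti₀ (by norm_num) hx1
      have h3 : ((1 : ℝ) / 2)⁻¹ = 2 := by norm_num
      rw [h3] at h2
      linarith
  have hpos : ∀ x ∈ Ann (1 / 2) R, 0 < u x := by
    intro x hx
    rcases lt_or_ge ‖x‖ 1 with h1 | h1
    · obtain ⟨h2, h3, h4, h5⟩ := hrefl x hx.1 h1
      have h6 := sol.le_one (inversion x) (by rw [h3]; exact h4) (by rw [h3]; exact h5)
      linarith
    · exact hpos1 x h1 hx.2
  -- (A) upper bound of w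
  have hwA : ∀ x : E3, 1 ≤ ‖x‖ → 2 * ‖x‖ ≤ R →
      wOf ε u x ≤ (2 - ε) * Real.log ‖x‖ + ε * Real.log A := by
    intro x hx1 hsR
    have h1 := lower_out hFp hp1 hq0 hE0 hx1 hsR
    have h2 := hlower x hx1 (by linarith)
    have h3 : q / (8 * E) * ‖x‖ ^ (-p) ≤ u x := h1.trans h2
    have hs0 : 0 < ‖x‖ := by linarith
    have h4 : Real.log (q / (8 * E) * ‖x‖ ^ (-p)) ≤ Real.log (u x) :=
      Real.log_le_log (by positivity) h3
    have h5 : Real.log (q / (8 * E) * ‖x‖ ^ (-p)) = -Real.log A - p * Real.log ‖x‖ := by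
      rw [Real.log_mul (by positivity) (by positivity), Real.log_rpow hs0]
      have h6 : q / (8 * E) = A⁻¹ := by rw [hA, inv_div]
      rw [h6, Real.log_inv]
      ring
    unfold wOf
    rw [h5] at h4
    calc -ε * Real.log (u x) ≤ -ε * (-Real.log A - p * Real.log ‖x‖) := by
          have := mul_le_mul_of_nonneg_left h4 hε.le
          linarith
      _ = ε * p * Real.log ‖x‖ + ε * Real.log A := by ring
      _ = (2 - ε) * Real.log ‖x‖ + ε * Real.log A := by rw [hεp]
  -- (B) lower bound of w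
  have hwB : ∀ x : E3, 1 ≤ ‖x‖ → ‖x‖ < R →
      (2 - ε) * Real.log ‖x‖ - ε * Real.log A ≤ wOf ε u x := by
    intro x hx1 hx2
    have hx0 : 0 < ‖x‖ := by linarith
    have h1 := upper_out hFm hp1 hq0 hE0 hx1
    have h2 := hupper x hx1 hx2
    have hux : 0 < u x := hpos1 x hx1 hx2
    have h3 : u x ≤ A * ‖x‖ ^ (-p) := by
      refine (h2.trans h1).trans ?_
      have h4 : E / q ≤ A := by
        have h5 : A = 8 * (E / q) := by
          rw [hA]
          ring
        have h6 : 0 < E / q := by positivity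
        linarith
      gcongr
    have h4 : Real.log (u x) ≤ Real.log (A * ‖x‖ ^ (-p)) := Real.log_le_log hux h3
    have h5 : Real.log (A * ‖x‖ ^ (-p)) = Real.log A - p * Real.log ‖x‖ := by
      rw [Real.log_mul (by positivity) (by positivity), Real.log_rpow hx0]
      ring
    unfold wOf
    rw [h5] at h4
    calc (2 - ε) * Real.log ‖x‖ - ε * Real.log A
        = -ε * (Real.log A - p * Real.log ‖x‖) := by
          rw [← hεp]
          ring
      _ ≤ -ε * Real.log (u x) := by
          have := mul_le_mul_of_nonneg_left h4 hε.le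
          linarith
  refine ⟨hpos, ?_, ?_, ?_, ?_, ?_, ?_⟩
  · intro x hx1 hx2
    have h1 := hwA x hx1 (by linarith)
    have h2 := hwB x hx1 (by linarith)
    rw [abs_le]
    constructor <;> linarith
  · intro x hx1 hx2
    have h2 := hwB x hx1 hx2
    linarith
  · intro x hx1 hx2
    refine lt_of_le_of_lt (hupper x hx1.le hx2) ?_
    rw [one_div, inv_mul_lt_iff₀ hM1, mul_one]
    exact hFm.anti 1 ‖x‖ zero_le_one hx1
  · intro x hx1 hx2
    obtain ⟨h2, h3, h4, h5⟩ := hrefl x hx1 (by linarith)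
    have hxp : 0 < ‖x‖ := by linarith
    have h6 := hupper (inversion x) (by rw [h3]; exact h4) (by rw [h3]; exact h5)
    have h7 : (3 / 2 : ℝ) ≤ ‖inversion x‖ := by
      rw [h3]
      have h8 : (2 / 3 : ℝ)⁻¹ ≤ ‖x‖⁻¹ := inv_anti₀ hxp hx2
      have h9 : (2 / 3 : ℝ)⁻¹ = 3 / 2 := by norm_num
      linarith
    have h8 : Φm ‖inversion x‖ ≤ Φm (3 / 2) := hFm.anti' (by norm_num) h7
    have h9 : 1 / Φm 1 * Φm ‖inversion x‖ ≤ 1 / Φm 1 * Φm (3 / 2) := by gcongr
    linarith
  · intro x hx1 hx2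
    have hexp : Real.exp τ ≤ Real.exp τ₀ := Real.exp_le_exp.mpr hττ
    have hexp2 : Real.exp τ₀ < 2 := by
      have h1 : Real.exp τ₀ ≤ Real.exp (1 / 10) := Real.exp_le_exp.mpr hτ₀1
      have h2 : Real.exp (1 / 10) < 2 := by
        have h3 : Real.exp (1 / 10) ≤ 1 / (1 - 1 / 10) :=
          Real.exp_bound_div_one_sub_of_interval (by norm_num) (by norm_num)
        have h4 : (1 : ℝ) / (1 - 1 / 10) < 2 := by norm_num
        linarith
      linarith
    have h1 := hlower x hx1 (by linarith)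
    have h2 : Φp (Real.exp τ₀) ≤ Φp ‖x‖ := hFp.anti' (norm_nonneg x) (hx2.trans hexp)
    have h3 : Φp (2 * R) < (b - a) * Φp 1 := by
      have h4 := hFp.upp (2 * R) (by linarith)
      have h5 := hFp.low 1 le_rfl
      rw [Real.one_rpow, mul_one] at h5
      have h6 : (2 * R) ^ (-p) ≤ (2 * R) ^ (-(1 : ℝ)) :=
        Real.rpow_le_rpow_of_exponent_le (by linarith) (by linarith)
      rw [Real.rpow_neg_one] at h6
      have h7 : E * (2 * R) ^ (-p) / p ≤ E * (2 * R)⁻¹ / p := by gcongr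
      have h8 : E ≤ R * ((b - a) * q) := by
        rwa [div_le_iff₀ (by positivity)] at hRb
      have h9 : E * (2 * R)⁻¹ ≤ (b - a) * q / 2 := by
        rw [← div_eq_mul_inv, div_le_iff₀ (by positivity)]
        linarith
      have h10 : E * (2 * R)⁻¹ / p ≤ (b - a) * q / 2 / p := by gcongr
      have h11 : (b - a) * q / 2 / p < (b - a) * (q / p) := by
        have h12 : 0 < (b - a) * (q / p) := by positivity
        have h13 : (b - a) * q / 2 / p = (b - a) * (q / p) / 2 := by ring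
        linarith
      have h14 : (b - a) * (q / p) ≤ (b - a) * Φp 1 := by gcongr
      linarith
    have h4 : a < u x := by
      refine lt_of_lt_of_le ?_ h1
      rw [one_div, lt_inv_mul_iff₀ hP1]
      nlinarith
    have h5 : -(1 / 2) < Real.log (u x) := by
      rw [Real.lt_log_iff_exp_lt (by linarith)]
      exact h4
    unfold wOf
    nlinarith
  · intro x hx1 hx2
    have hx0 : 0 < ‖x‖ := by linarith
    have h1 := hwA x hx1 (by linarith)
    have h2 : Real.log ‖x‖ ≤ Real.log (4 * l) := Real.log_le_log hx0 hx2.le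
    have h3 : (2 - ε) * Real.log ‖x‖ ≤ (2 - ε) * Real.log (4 * l) :=
      mul_le_mul_of_nonneg_left h2 (by linarith)
    unfold s2E
    linarith

end Pool.Agent.PFlow


end
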