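import Mathlib
import Pool.Agent.PenroseM.C05
import Pool.Agent.PenroseM.C06
import Pool.Agent.PenroseM.C41
import Pool.Agent.PenroseM.C44
import Pool.Agent.PenroseM.C46
import Pool.Agent.PenroseM.C51
import Pool.Agent.PenroseM.C66
import Pool.Agent.PenroseM.C67
import Pool.Agent.PenroseM.C71

/-! Parts: PFlow.HX.HXANTI, PFlow.HX.HXLEV, PFlow.HX.HXTR, PFlow.HX.HXUNI, PFlow.HX.LEG, PFlow.PX.Crd, PFlow.PX.Exi, PFlow.X.XJET -/

section

/-!
# Module HXANTI: functions odd under the inversion, approximations equal to `1` on the sphere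
-/

set_option autoImplicit false
set_option maxHeartbeats 400000

open MeasureTheory Filter Topology
open scoped ContDiff ENNReal Manifold

namespace Pool.Agent.PFlow.HX

open Pool.Agent.PenroseSph Pool.Agent.PFlow Pool.Agent.PFlow.GB.COVGm
open Pool.Agent.PenroseConvex.CovR (D2 Chg chg_eventually)

namespace HXANTIaux

open Pool.Agent.PFlow.LEYaux

/-- A function which is equal to `2 - u`. -/
theorem h2_two_sub {U : Set E3} {u w : E3 → ℝ} {G : E3 → Cov} {M : E3 → Bil}
    (hu : H2On U u G M) (hw : ∀ x ∈ U, w x = 2 - u x) :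
    H2On U w (fun x => -G x) (fun x => -M x) := by
  refine ⟨(continuousOn_const.sub hu.cont).congr hw, ?_, ?_, ?_⟩
  · intro K hK hKU i
    exact (hu.memG K hK hKU i).neg
  · intro K hK hKU i j
    exact (hu.memM K hK hKU i j).neg
  · intro K hK hKU
    obtain ⟨v, hv, hvu, hvG, hvM⟩ := hu.approx K hK hKU
    have e1 : ∀ n i, pd i (fun x => 2 - v n x) = fun x => - pd i (v n) x := by
      intro n i
      funext x
      have := pd_sub (i := i) (f := fun _ => (2 : ℝ)) (f' := v n) (x := x)
        (differentiableAt_const _) ((hv n).contDiffAt.differentiableAt (by simp))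
      rw [this, pd_const, zero_sub]
    have e2 : ∀ n i j, pd i (pd j (fun x => 2 - v n x)) = fun x => - pd i (pd j (v n)) x := by
      intro n i j
      rw [e1]
      funext x
      unfold pd
      rw [fderiv_fun_neg]
      rfl
    refine ⟨fun n x => 2 - v n x, fun n => contDiff_const.sub (hv n), ?_, ?_, ?_⟩
    · rw [Metric.tendstoUniformlyOn_iff] at hvu ⊢
      intro δ hδ
      filter_upwards [hvu δ hδ] with n hn x hx
      have := hn x hx
      rw [Real.dist_eq] at this ⊢
      rw [hw x (hKU hx), show 2 - u x - (2 - v n x) = -(u x - v n x) by ring, abs_neg]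
      exact this
    · intro i
      refine (hvG i).congr fun n => ?_
      congr 1
      funext x
      rw [e1]
      simp only [Pi.neg_apply]
      ring
    · intro i j
      refine (hvM i j).congr fun n => ?_
      congr 1
      funext x
      rw [e2]
      simp only [Matrix.neg_apply]
      ring

theorem pd_contDiff {f : E3 → ℝ} (hf : ContDiff ℝ ∞ f) (i : Fin 3) : ContDiff ℝ ∞ (pd i f) := by
  have h4 : ContDiff ℝ ∞ (fderiv ℝ f) := hf.fderiv_right (m := ∞) (by simp)
  exact h4.clm_apply contDiff_const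

theorem memLp_cont {K : Set E3} (hKc : IsCompact K) {f : E3 → ℝ} (hf : Continuous f) :
    MemLp f 2 (volume.restrict K) := by
  have : MemLp (fun x => f x * (fun _ => (1 : ℝ)) x) 2 (volume.restrict K) :=
    memLp_bdd_mul hKc hf.continuousOn (by
      have : IsFiniteMeasure (volume.restrict K) :=
        ⟨by rw [Measure.restrict_apply_univ]; exact hKc.measure_lt_top⟩
      exact memLp_const 1)
  simpa using this

/-- Convergence of the transformed functions. -/
theorem conv_inv {K : Set E3} (hKc : IsCompact K) (hK : K ⊆ {0}ᶜ) {G : E3 → Cov} {M : E3 → Bil}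
    (hmG : ∀ a, MemLp (fun x => G x a) 2 (volume.restrict (inversion '' K)))
    (hmM : ∀ a b, MemLp (fun x => M x a b) 2 (volume.restrict (inversion '' K)))
    {v : ℕ → E3 → ℝ} (hv : ∀ n, ContDiff ℝ ∞ (v n))
    (hvG : ∀ i, Tendsto (fun n => ∫ x in inversion '' K, (pd i (v n) x - G x i) ^ 2) atTop (𝓝 0))
    (hvM : ∀ i j, Tendsto (fun n => ∫ x in inversion '' K,
      (pd i (pd j (v n)) x - M x i j) ^ 2) atTop (𝓝 0))
    {χ : E3 → ℝ} (hχ1 : ∀ y ∈ K, ∀ᶠ z in 𝓝 y, χ z = 1) :
    (∀ i, Tendsto (fun n => ∫ y in K, (pd i (fun z => χ z * v n (inversion z)) y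
      - gy G y i) ^ 2) atTop (𝓝 0)) ∧
    (∀ i j, Tendsto (fun n => ∫ y in K, (pd i (pd j (fun z => χ z * v n (inversion z))) y
      - my G M y i j) ^ 2) atTop (𝓝 0)) := by
  have hKc' := isCompact_image hKc hK
  have e : ∀ n, ∀ y ∈ K, (fun z => χ z * v n (inversion z)) =ᶠ[𝓝 y]
      fun z => v n (inversion z) := by
    intro n y hy
    filter_upwards [hχ1 y hy] with z hz
    rw [hz, one_mul]
  have hpdc : ∀ n a, ContDiff ℝ ∞ (pd a (v n)) := fun n a => pd_contDiff (hv n) a
  refine ⟨?_, ?_⟩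
  · intro i
    have h1 := tendsto_sum hKc hK (fun (a : Fin 3) y => PenroseConvex.jac inversion y a i)
      (fun a => jac_continuousOn hK a i) (fun n a x => pd a (v n) x - G x a)
      (fun n a => (memLp_cont hKc' (hpdc n a).continuous).sub (hmG a)) hvG
    refine h1.congr fun n => setIntegral_congr_fun hKc.measurableSet fun y hy => ?_
    have h2 : pd i (fun y => χ y * v n (inversion y)) y
        = ∑ a, pd a (v n) (inversion y) * PenroseConvex.jac inversion y a i := by
      rw [pd_congr (e n y hy)]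
      have h3 := congrFun (grad_comp (Φ := inversion) (f := v n) (y := y)
        ((hv n).contDiffAt.differentiableAt (by simp))
        ((inversion_contDiffAt (hK hy)).differentiableAt (by simp))) i
      exact h3
    have h4 : gy G y i = ∑ a, G (inversion y) a * PenroseConvex.jac inversion y a i := rfl
    show (∑ a, PenroseConvex.jac inversion y a i
      * (pd a (v n) (inversion y) - G (inversion y) a)) ^ 2 = _
    rw [h2, h4, ← Finset.sum_sub_distrib]
    congr 1
    exact Finset.sum_congr rfl fun a _ => by ring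
  · intro i j
    have h1 := tendsto_sum hKc hK
      (fun (s : (Fin 3 × Fin 3) ⊕ Fin 3) y => Sum.elim
        (fun p : Fin 3 × Fin 3 => PenroseConvex.jac inversion y p.1 i
          * PenroseConvex.jac inversion y p.2 j) (fun a => D2 inversion a i j y) s)
      (by
        rintro (p | a)
        · exact (jac_continuousOn hK p.1 i).mul (jac_continuousOn hK p.2 j)
        · exact D2_continuousOn hK a i j)
      (fun n (s : (Fin 3 × Fin 3) ⊕ Fin 3) x => Sum.elim
        (fun p : Fin 3 × Fin 3 => pd p.1 (pd p.2 (v n)) x - M x p.1 p.2)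
        (fun a => pd a (v n) x - G x a) s)
      (by
        rintro n (p | a)
        · exact (memLp_cont hKc' (pd_contDiff (hpdc n p.2) p.1).continuous).sub (hmM p.1 p.2)
        · exact (memLp_cont hKc' (hpdc n a).continuous).sub (hmG a))
      (by
        rintro (p | a)
        · exact hvM p.1 p.2
        · exact hvG a)
    refine h1.congr fun n => setIntegral_congr_fun hKc.measurableSet fun y hy => ?_
    have h2 : pd i (pd j (fun y => χ y * v n (inversion y))) y
        = (∑ b, ∑ c, hess2 (v n) (inversion y) b c * PenroseConvex.jac inversion y b i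
            * PenroseConvex.jac inversion y c j)
          + ∑ a, grad (v n) (inversion y) a * D2 inversion a i j y := by
      have h5 : pd j (fun y => χ y * v n (inversion y)) =ᶠ[𝓝 y]
          pd j (fun z => v n (inversion z)) := by
        filter_upwards [(e n y hy).eventuallyEq_nhds] with z hz
        exact pd_congr hz
      rw [pd_congr h5]
      exact hess_comp (Φ := inversion) (f := v n)
        (((hv n).contDiffAt).of_le (WithTop.coe_le_coe.2 le_top))
        ((inversion_contDiffAt (hK hy)).of_le (WithTop.coe_le_coe.2 le_top)) i j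
    simp only [Fintype.sum_sum_type, Sum.elim_inl, Sum.elim_inr, Fintype.sum_prod_type]
    rw [h2]
    simp only [my, Matrix.of_apply, hess2, grad]
    congr 1
    have h6 : (∑ b, ∑ c, pd b (pd c (v n)) (inversion y) * PenroseConvex.jac inversion y b i
            * PenroseConvex.jac inversion y c j)
        + (∑ a, pd a (v n) (inversion y) * D2 inversion a i j y)
        - ((∑ b, ∑ c, M (inversion y) b c * PenroseConvex.jac inversion y b i
            * PenroseConvex.jac inversion y c j)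
          + ∑ a, G (inversion y) a * D2 inversion a i j y)
        = ((∑ b, ∑ c, pd b (pd c (v n)) (inversion y) * PenroseConvex.jac inversion y b i
            * PenroseConvex.jac inversion y c j)
            - (∑ b, ∑ c, M (inversion y) b c * PenroseConvex.jac inversion y b i
            * PenroseConvex.jac inversion y c j))
          + ((∑ a, pd a (v n) (inversion y) * D2 inversion a i j y)
            - ∑ a, G (inversion y) a * D2 inversion a i j y) := by ring
    rw [h6, ← Finset.sum_sub_distrib, ← Finset.sum_sub_distrib]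
    congr 1
    · refine Finset.sum_congr rfl fun b _ => ?_
      rw [← Finset.sum_sub_distrib]
      refine Finset.sum_congr rfl fun c _ => ?_
      ring
    · refine Finset.sum_congr rfl fun a _ => ?_
      ring

/-- Half the difference of two convergent sequences. -/
theorem tendsto_half {K : Set E3} (hKm : MeasurableSet K) (f g w : ℕ → E3 → ℝ)
    (F F' : E3 → ℝ)
    (hf : ∀ n, MemLp (fun x => f n x - F x) 2 (volume.restrict K))
    (hg : ∀ n, MemLp (fun x => g n x - F' x) 2 (volume.restrict K))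
    (h1 : Tendsto (fun n => ∫ x in K, (f n x - F x) ^ 2) atTop (𝓝 0))
    (h2 : Tendsto (fun n => ∫ x in K, (g n x - F' x) ^ 2) atTop (𝓝 0))
    (hF : ∀ᵐ x ∂(volume.restrict K), F' x = -F x)
    (hw : ∀ n, ∀ x ∈ K, w n x = (f n x - g n x) / 2) :
    Tendsto (fun n => ∫ x in K, (w n x - F x) ^ 2) atTop (𝓝 0) := by
  have i1 : ∀ n, IntegrableOn (fun x => (f n x - F x) ^ 2) K := fun n =>
    (memLp_two_iff_integrable_sq (hf n).1).1 (hf n)
  have i2 : ∀ n, IntegrableOn (fun x => (g n x - F' x) ^ 2) K := fun n =>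
    (memLp_two_iff_integrable_sq (hg n).1).1 (hg n)
  have hb : ∀ n, ∫ x in K, (w n x - F x) ^ 2
      ≤ (∫ x in K, (f n x - F x) ^ 2) + ∫ x in K, (g n x - F' x) ^ 2 := by
    intro n
    rw [← integral_add (i1 n) (i2 n)]
    have hle : ∀ᵐ x ∂(volume.restrict K),
        (w n x - F x) ^ 2 ≤ (f n x - F x) ^ 2 + (g n x - F' x) ^ 2 := by
      filter_upwards [hF, ae_restrict_mem hKm] with x hx hxK
      rw [hw n x hxK, hx]
      nlinarith [sq_nonneg (f n x - F x), sq_nonneg (g n x - -F x),
        sq_nonneg ((f n x - F x) + (g n x - -F x))]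
    exact integral_mono_of_nonneg (Eventually.of_forall fun x => sq_nonneg _)
      ((i1 n).add (i2 n)) hle
  refine squeeze_zero (fun n => integral_nonneg fun x => sq_nonneg _) hb ?_
  simpa using h1.add h2

theorem cAnn_sub : cAnn (3 / 4) (4 / 3) ⊆ Ann (1 / 2) 2 := by
  intro x hx
  obtain ⟨h1, h2⟩ := hx
  constructor <;> linarith

theorem ann_sub : Ann (1 / 2) 2 ⊆ ({0}ᶜ : Set E3) := by
  intro x hx h0
  rw [Set.mem_singleton_iff] at h0
  have := hx.1
  rw [h0, norm_zero] at this
  linarith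

theorem isOpen_ann : IsOpen (Ann (1 / 2) 2) :=
  (isOpen_lt continuous_const continuous_norm).inter (isOpen_lt continuous_norm continuous_const)

theorem mapsTo_ann : Set.MapsTo inversion (Ann (1 / 2) 2) (Ann (1 / 2) 2) := by
  intro x hx
  have h0 : x ≠ 0 := ann_sub hx
  have hp : 0 < ‖x‖ := norm_pos_iff.2 h0
  obtain ⟨h1, h2⟩ := hx
  refine ⟨?_, ?_⟩
  · rw [HSM2.norm_inversion x h0, inv_eq_one_div, div_lt_div_iff₀ (by norm_num) hp]
    linarith
  · rw [HSM2.norm_inversion x h0, inv_eq_one_div, div_lt_iff₀ hp]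
    linarith

theorem mapsTo_cAnn : Set.MapsTo inversion (cAnn (3 / 4) (4 / 3)) (cAnn (3 / 4) (4 / 3)) := by
  intro x hx
  have h0 : x ≠ 0 := ann_sub (cAnn_sub hx)
  have hp : 0 < ‖x‖ := norm_pos_iff.2 h0
  obtain ⟨h1, h2⟩ := hx
  refine ⟨?_, ?_⟩
  · rw [HSM2.norm_inversion x h0, inv_eq_one_div, div_le_div_iff₀ (by norm_num) hp]
    linarith
  · rw [HSM2.norm_inversion x h0, inv_eq_one_div, div_le_iff₀ hp]
    linarith

theorem image_cAnn : inversion '' (cAnn (3 / 4) (4 / 3)) = cAnn (3 / 4) (4 / 3) := by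
  apply Set.Subset.antisymm mapsTo_cAnn.image_subset
  intro x hx
  exact ⟨inversion x, mapsTo_cAnn hx, HSM2.inversion_inversion x (ann_sub (cAnn_sub hx))⟩

theorem isCompact_K : IsCompact (cAnn (3 / 4) (4 / 3)) := by
  refine (isCompact_closedBall (0 : E3) (4 / 3)).of_isClosed_subset ?_ ?_
  · exact (isClosed_le continuous_const continuous_norm).inter
      (isClosed_le continuous_norm continuous_const)
  · intro x hx
    rw [mem_closedBall_zero_iff]
    exact hx.2

end HXANTIaux

open HXANTIaux LEYaux in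
theorem HXANTI (hHXUNI : Stmt_HXUNI) : Stmt_HXANTI := by
  intro u G M hu hodd
  have hinv := h2_inv ann_sub mapsTo_ann hu
  have hneg := h2_two_sub (w := fun x => u (inversion x)) hu hodd
  obtain ⟨hG, hM⟩ := hHXUNI _ _ _ _ _ _ isOpen_ann hinv hneg
  refine ⟨?_, ?_⟩
  · filter_upwards [hG, ae_restrict_mem isOpen_ann.measurableSet] with x hx hxA i
    have h1 := congrFun hx i
    have h2 : gy G x i = ∑ a, G (inversion x) a * PenroseConvex.jac inversion x a i := rfl
    rw [h2, jac_inversion (ann_sub hxA)] at h1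
    simp only [Pi.neg_apply] at h1
    rw [← h1]
    exact Finset.sum_congr rfl fun a _ => by ring
  · have hK : cAnn (3 / 4) (4 / 3) ⊆ ({0}ᶜ : Set E3) := cAnn_sub.trans ann_sub
    obtain ⟨V, hV, hVu, hVG, hVM⟩ := hu.approx _ isCompact_K cAnn_sub
    obtain ⟨χ, hχ, hχ0, hχ1⟩ := exists_ext isCompact_K hK
    have hmG := fun a => hu.memG _ isCompact_K cAnn_sub a
    have hmM := fun a b => hu.memM _ isCompact_K cAnn_sub a b
    have hext : ∀ n, ContDiff ℝ ∞ (fun y => χ y * V n (inversion y)) := fun n =>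
      ext_contDiff hχ hχ0 (hV n)
    obtain ⟨hcG, hcM⟩ := conv_inv (G := G) (M := M) (v := V) (χ := χ) isCompact_K hK
      (by rw [image_cAnn]; exact hmG) (by rw [image_cAnn]; exact hmM) hV
      (by rw [image_cAnn]; exact hVG) (by rw [image_cAnn]; exact hVM) hχ1
    have hGK : ∀ᵐ x ∂(volume.restrict (cAnn (3 / 4) (4 / 3))), gy G x = -G x :=
      ae_mono (Measure.restrict_mono cAnn_sub le_rfl) hG
    have hMK : ∀ᵐ x ∂(volume.restrict (cAnn (3 / 4) (4 / 3))), my G M x = -M x :=
      ae_mono (Measure.restrict_mono cAnn_sub le_rfl) hM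
    set v : ℕ → E3 → ℝ := fun n y => 1 + (χ y * V n y - χ y * V n (inversion y)) / 2 with hvdef
    have hvs : ∀ n, ContDiff ℝ ∞ (v n) := fun n =>
      contDiff_const.add (((hχ.mul (hV n)).sub (hext n)).div_const 2)
    have hnear : ∀ n, ∀ y ∈ cAnn (3 / 4) (4 / 3), v n =ᶠ[𝓝 y]
        fun z => 1 + (V n z - χ z * V n (inversion z)) * (1 / 2) := by
      intro n y hy
      filter_upwards [hχ1 y hy] with z hz
      rw [hvdef]
      simp only [hz]
      ring
    have hd1 : ∀ n (z : E3) i, pd i (fun z => 1 + (V n z - χ z * V n (inversion z)) * (1 / 2)) z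
        = (pd i (V n) z - pd i (fun z => χ z * V n (inversion z)) z) / 2 := by
      intro n z i
      have d1 : DifferentiableAt ℝ (V n) z := (hV n).contDiffAt.differentiableAt (by simp)
      have d2 : DifferentiableAt ℝ (fun z => χ z * V n (inversion z)) z :=
        (hext n).contDiffAt.differentiableAt (by simp)
      have h := ((d1.hasFDerivAt.fun_sub d2.hasFDerivAt).mul_const (1 / 2 : ℝ)).const_add (1 : ℝ)
      unfold pd
      rw [h.fderiv]
      simp
      ring
    have hd2 : ∀ n (z : E3) i j,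
        pd i (pd j (fun z => 1 + (V n z - χ z * V n (inversion z)) * (1 / 2))) z
        = (pd i (pd j (V n)) z - pd i (pd j (fun z => χ z * V n (inversion z))) z) / 2 := by
      intro n z i j
      have e : pd j (fun z => 1 + (V n z - χ z * V n (inversion z)) * (1 / 2))
          = fun z => (pd j (V n) z - pd j (fun z => χ z * V n (inversion z)) z) * (1 / 2) := by
        funext y
        rw [hd1 n y j]
        ring
      have d1 : DifferentiableAt ℝ (pd j (V n)) z :=
        (pd_contDiff (hV n) j).contDiffAt.differentiableAt (by simp)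
      have d2 : DifferentiableAt ℝ (pd j (fun z => χ z * V n (inversion z))) z :=
        (pd_contDiff (hext n) j).contDiffAt.differentiableAt (by simp)
      rw [e]
      show fderiv ℝ _ z _ = (fderiv ℝ _ z _ - fderiv ℝ _ z _) / 2
      have h := (d1.hasFDerivAt.fun_sub d2.hasFDerivAt).mul_const (1 / 2 : ℝ)
      rw [h.fderiv]
      simp
      ring
    refine ⟨v, hvs, ?_, ?_, ?_, ?_⟩
    · intro n x hx
      have hix : inversion x = x := by
        unfold inversion
        rw [hx]
        simp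
      rw [hvdef]
      simp only [hix]
      ring
    · rw [Metric.tendstoUniformlyOn_iff] at hVu ⊢
      intro δ hδ
      filter_upwards [hVu δ hδ] with n hn y hy
      have h1 := hn y hy
      have h2 := hn _ (mapsTo_cAnn hy)
      rw [hodd y (cAnn_sub hy)] at h2
      rw [(hnear n y hy).self_of_nhds]
      show dist (u y) (1 + (V n y - χ y * V n (inversion y)) * (1 / 2)) < δ
      rw [(hχ1 y hy).self_of_nhds]
      rw [Real.dist_eq, abs_lt] at h1 h2 ⊢
      obtain ⟨h11, h12⟩ := h1
      obtain ⟨h21, h22⟩ := h2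
      constructor <;> linarith
    · intro i
      refine tendsto_half isCompact_K.measurableSet (fun n x => pd i (V n) x)
        (fun n x => pd i (fun z => χ z * V n (inversion z)) x)
        (fun n x => pd i (v n) x) (fun x => G x i) (fun x => gy G x i) ?_ ?_ (hVG i) (hcG i) ?_ ?_
      · intro n
        exact (memLp_cont isCompact_K (pd_contDiff (hV n) i).continuous).sub (hmG i)
      · intro n
        exact (memLp_cont isCompact_K (pd_contDiff (hext n) i).continuous).sub
          (memLp_gy isCompact_K hK (by rw [image_cAnn]; exact hmG) i)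
      · filter_upwards [hGK] with x hx
        rw [hx]
        rfl
      · intro n x hx
        rw [pd_congr (hnear n x hx), hd1]
    · intro i j
      refine tendsto_half isCompact_K.measurableSet (fun n x => pd i (pd j (V n)) x)
        (fun n x => pd i (pd j (fun z => χ z * V n (inversion z))) x)
        (fun n x => pd i (pd j (v n)) x) (fun x => M x i j) (fun x => my G M x i j) ?_ ?_
        (hVM i j) (hcM i j) ?_ ?_
      · intro n
        exact (memLp_cont isCompact_K (pd_contDiff (pd_contDiff (hV n) j) i).continuous).sub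
          (hmM i j)
      · intro n
        exact (memLp_cont isCompact_K (pd_contDiff (pd_contDiff (hext n) j) i).continuous).sub
          (memLp_my isCompact_K hK (by rw [image_cAnn]; exact hmG)
            (by rw [image_cAnn]; exact hmM) i j)
      · filter_upwards [hMK] with x hx
        rw [hx]
        rfl
      · intro n x hx
        have h5 : pd j (v n) =ᶠ[𝓝 x]
            pd j (fun z => 1 + (V n z - χ z * V n (inversion z)) * (1 / 2)) := by
          filter_upwards [(hnear n x hx).eventuallyEq_nhds] with z hz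
          exact pd_congr hz
        rw [pd_congr h5, hd2]

end Pool.Agent.PFlow.HX


end

section

/-!
# HXLEV: the levels of `u` close to the boundary level `1`
-/

open MeasureTheory Filter Topology

namespace Pool.Agent.PFlow.HX

open Pool.Agent.PenroseSph

private theorem norm_inv' (x : E3) : ‖inversion x‖ = ‖x‖⁻¹ := by
  unfold inversion
  rw [norm_smul, Real.norm_eq_abs, abs_of_nonneg (by positivity)]
  rcases eq_or_ne ‖x‖ 0 with h | h
  · simp [h]
  · field_simp

private theorem inv_eq' (x : E3) (hx : ‖x‖ = 1) : inversion x = x := by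
  unfold inversion
  rw [hx]
  simp

/-- HXLEV: levels close to the boundary level. -/
theorem HXLEV : Stmt_HXLEV := by
  intro ε R c s₁ g h u G M hε hε2 hR hc hs hS hpos hlt hup hr
  obtain ⟨r, hr1, hrR, hr⟩ := hr
  have hw : ∀ x ∈ Ann (1 / 2) R, (0 < wOf ε u x ↔ u x < 1) := by
    intro x hx
    unfold wOf
    have hu := hpos x hx
    constructor
    · intro h0
      by_contra hge
      have hge' : 1 ≤ u x := not_lt.1 hge
      have h1 : 0 ≤ Real.log (u x) := Real.log_nonneg hge'
      nlinarith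
    · intro h1
      have h2 : Real.log (u x) < 0 := Real.log_neg hu h1
      nlinarith
  have hone : ∀ x : E3, ‖x‖ = 1 → u x = 1 := by
    intro x hx
    have h1 := hS.refl x ⟨by rw [hx]; norm_num, by rw [hx]; norm_num⟩
    rw [inv_eq' x hx] at h1
    linarith
  have hin : ∀ x : E3, 1 / 2 < ‖x‖ → ‖x‖ < 1 → 1 < u x := by
    intro x h1 h2
    have hx := hS.refl x ⟨h1, by linarith⟩
    have h3 : 1 < ‖inversion x‖ := by
      rw [norm_inv']
      exact (one_lt_inv₀ (by linarith)).2 h2
    have h4 : ‖inversion x‖ < R := by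
      rw [norm_inv']
      have h5 : ‖x‖⁻¹ < 2 := by
        rw [inv_lt_comm₀ (by linarith) (by norm_num)]
        linarith
      linarith
    have h6 := hlt _ h3 h4
    linarith
  have hA : ∀ x ∈ Ann (1 / 2) R, (u x < 1 ↔ 1 < ‖x‖) := by
    intro x hx
    constructor
    · intro h1
      by_contra h2
      rcases lt_or_eq_of_le (not_lt.1 h2) with h3 | h3
      · have h4 := hin x hx.1 h3
        linarith
      · have h4 := hone x h3
        linarith
    · intro h1
      exact hlt x h1 hx.2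
  have hB : ∀ x ∈ Ann (1 / 2) R, (u x = 1 ↔ ‖x‖ = 1) := by
    intro x hx
    constructor
    · intro h1
      rcases lt_trichotomy ‖x‖ 1 with h3 | h3 | h3
      · have h4 := hin x hx.1 h3
        linarith
      · exact h3
      · have h4 := hlt x h3 hx.2
        linarith
    · intro h1
      exact hone x h1
  refine ⟨fun x hx => ⟨hA x hx, hB x hx, (hw x hx).trans (hA x hx)⟩, ?_⟩
  set e₁ : ℝ := Real.exp (-(s₁ / ε)) with he₁
  have he1 : e₁ < 1 := by
    rw [he₁]
    have : 0 < s₁ / ε := div_pos hs hε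
    exact Real.exp_lt_one_iff.2 (by linarith)
  -- far away
  have hfar : ∀ x : E3, r ≤ ‖x‖ → ‖x‖ < R → u x ≤ e₁ := by
    intro x h1 h2
    have hx : x ∈ Ann (1 / 2) R := ⟨by linarith, h2⟩
    have h3 := hr x h1 h2
    unfold wOf at h3
    have hu := hpos x hx
    have h4 : Real.log (u x) < -(s₁ / ε) := by
      have h5 : s₁ / ε < -Real.log (u x) := by
        rw [div_lt_iff₀ hε]
        linarith
      linarith
    have h6 := (Real.log_lt_iff_lt_exp hu).1 h4
    exact h6.le
  -- the sphere of radius 3/2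
  have hmid : ∀ x : E3, ‖x‖ = 3 / 2 → u x ≤ 1 - c := by
    intro x hx
    have h1 := hS.refl x ⟨by rw [hx]; norm_num, by rw [hx]; norm_num⟩
    have h2 : ‖inversion x‖ = 2 / 3 := by
      rw [norm_inv', hx]
      norm_num
    have h3 := hup (inversion x) (by rw [h2]; norm_num) (by rw [h2])
    linarith
  obtain ⟨R', hR'1, hR'2⟩ := exists_between (max_lt hrR (by linarith : (2 : ℝ) < R))
  have hR'r : r < R' := lt_of_le_of_lt (le_max_left _ _) hR'1
  have hR'2' : 2 < R' := lt_of_le_of_lt (le_max_right _ _) hR'1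
  have hout : ∀ x : E3, 3 / 2 < ‖x‖ → ‖x‖ < R → u x ≤ max (1 - c) e₁ := by
    intro x h1 h2
    by_cases h3 : r ≤ ‖x‖
    · exact (hfar x h3 h2).trans (le_max_right _ _)
    · have h3' : ‖x‖ < r := not_le.1 h3
      have hcont : Continuous (fun y : E3 => ‖y‖) := continuous_norm
      have hDo : IsOpen (Ann (3 / 2) R') := by
        have : Ann (3 / 2) R' = {y : E3 | 3 / 2 < ‖y‖} ∩ {y : E3 | ‖y‖ < R'} := by
          ext y
          rfl
        rw [this]
        exact (isOpen_lt continuous_const hcont).inter (isOpen_lt hcont continuous_const)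
      have hCc : IsClosed (cAnn (3 / 2) R') := by
        have : cAnn (3 / 2) R' = {y : E3 | 3 / 2 ≤ ‖y‖} ∩ {y : E3 | ‖y‖ ≤ R'} := by
          ext y
          rfl
        rw [this]
        exact (isClosed_le continuous_const hcont).inter (isClosed_le hcont continuous_const)
      have hcl : closure (Ann (3 / 2) R') ⊆ cAnn (3 / 2) R' :=
        closure_minimal (fun y hy => ⟨hy.1.le, hy.2.le⟩) hCc
      have hcc : IsCompact (closure (Ann (3 / 2) R')) := by
        apply (isCompact_closedBall (0 : E3) R').of_isClosed_subset isClosed_closure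
        intro y hy
        have := hcl hy
        rw [mem_closedBall_zero_iff]
        exact this.2
      have hsub : closure (Ann (3 / 2) R') ⊆ Ann (1 / 2) R := by
        intro y hy
        have := hcl hy
        exact ⟨by linarith [this.1], by linarith [this.2]⟩
      obtain ⟨⟨y, hy, hxy⟩, -⟩ := hS.noIsland _ hDo hcc hsub x ⟨h1, h3'.trans hR'r⟩
      have hy1 : y ∈ cAnn (3 / 2) R' := hcl hy.1
      have hy2 : y ∉ Ann (3 / 2) R' := by
        have := hy.2
        rwa [hDo.interior_eq] at this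
      rcases lt_or_eq_of_le hy1.1 with h4 | h4
      · have h5 : R' ≤ ‖y‖ := by
          by_contra h6
          exact hy2 ⟨h4, not_le.1 h6⟩
        have h6 := hfar y (by linarith) (by linarith [hy1.2])
        exact (hxy.trans h6).trans (le_max_right _ _)
      · exact (hxy.trans (hmid y h4.symm)).trans (le_max_left _ _)
  refine ⟨min (min c (1 - e₁)) 1 / 2, ?_, ?_, ?_⟩
  · have : 0 < min (min c (1 - e₁)) 1 := lt_min (lt_min hc (by linarith)) one_pos
    linarith
  · have : min (min c (1 - e₁)) 1 ≤ 1 := min_le_right _ _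
    linarith
  · intro x hx hux
    have hm0 : 0 < min (min c (1 - e₁)) 1 := lt_min (lt_min hc (by linarith)) one_pos
    have hm1 : min (min c (1 - e₁)) 1 ≤ c := (min_le_left _ _).trans (min_le_left _ _)
    have hm2 : min (min c (1 - e₁)) 1 ≤ 1 - e₁ := (min_le_left _ _).trans (min_le_right _ _)
    have habs := abs_le.1 hux
    constructor
    · by_contra h1
      have h2 := hup x hx.1 (not_le.1 h1).le
      linarith [habs.2]
    · by_contra h1
      have h2 := hout x (not_le.1 h1) hx.2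
      rcases le_max_iff.1 h2 with h3 | h3
      · linarith [habs.1]
      · linarith [habs.1]

end Pool.Agent.PFlow.HX


end

section

/-!
# HXTR: the first derivatives in the collar, smooth functions
-/

open MeasureTheory Filter Topology Set
open scoped ContDiff ENNReal

namespace Pool.Agent.PFlow.HX

open Pool.Agent.PenroseSph

namespace HXTRaux

/-! ### Polar coordinates -/

theorem polar_prod {F : E3 → ℝ} (hF : Integrable F (volume : Measure E3)) :
    Integrable (fun p : Metric.sphere (0 : E3) 1 × Ioi (0 : ℝ) => F (p.2.1 • (p.1 : E3)))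
      (sph.prod (.volumeIoiPow 2)) ∧
    ∫ x, F x = ∫ p : Metric.sphere (0 : E3) 1 × Ioi (0 : ℝ), F (p.2.1 • (p.1 : E3))
        ∂(sph.prod (.volumeIoiPow 2)) := by
  have hdim : Module.finrank ℝ E3 - 1 = 2 := by simp
  have h1 : ∫ x, F x = ∫ x : ({(0 : E3)}ᶜ : Set E3), F x.1 ∂((volume : Measure E3).comap (↑)) := by
    rw [integral_subtype_comap (measurableSet_singleton _).compl fun x ↦ F x,
      restrict_compl_singleton]
  have h2 : ∫ x : ({(0 : E3)}ᶜ : Set E3), F x.1 ∂((volume : Measure E3).comap (↑))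
      = ∫ p : Metric.sphere (0 : E3) 1 × Ioi (0 : ℝ), F (p.2.1 • (p.1 : E3))
        ∂(sph.prod (.volumeIoiPow 2)) := by
    have := (volume : Measure E3).measurePreserving_homeomorphUnitSphereProd.integral_comp
      (Homeomorph.measurableEmbedding _) (fun p => F (p.2.1 • (p.1 : E3)))
    rw [hdim] at this
    rw [← this]
    refine integral_congr_ae (Eventually.of_forall fun x => ?_)
    simp only [homeomorphUnitSphereProd_apply_snd_coe, homeomorphUnitSphereProd_apply_fst_coe]
    congr 1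
    have : ‖(x : E3)‖ ≠ 0 := norm_ne_zero_iff.2 x.2
    rw [smul_smul, mul_inv_cancel₀ this, one_smul]
  refine ⟨?_, h1.trans h2⟩
  have := (volume : Measure E3).measurePreserving_homeomorphUnitSphereProd.integrable_comp_emb
    (Homeomorph.measurableEmbedding _) (g := fun p => F (p.2.1 • (p.1 : E3)))
  rw [hdim] at this
  rw [← this]
  have h3 : Integrable (fun x : ({(0 : E3)}ᶜ : Set E3) => F x.1)
      ((volume : Measure E3).comap (↑)) := by
    have h4 := (integrableOn_iff_comap_subtypeVal (μ := (volume : Measure E3)) (f := F)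
      (measurableSet_singleton (0 : E3)).compl).1 hF.integrableOn
    exact h4
  refine h3.congr (Eventually.of_forall fun x => ?_)
  simp only [Function.comp_apply, homeomorphUnitSphereProd_apply_snd_coe,
    homeomorphUnitSphereProd_apply_fst_coe]
  congr 1
  have : ‖(x : E3)‖ ≠ 0 := norm_ne_zero_iff.2 x.2
  rw [smul_smul, mul_inv_cancel₀ this, one_smul]

theorem inner_eq (F : E3 → ℝ) (q : Metric.sphere (0 : E3) 1) :
    ∫ r : Ioi (0 : ℝ), F (r.1 • (q : E3)) ∂(Measure.volumeIoiPow 2) =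
      ∫ r in Ioi (0 : ℝ), r ^ 2 * F (r • (q : E3)) := by
  simp only [Measure.volumeIoiPow, ENNReal.ofReal]
  rw [integral_withDensity_eq_integral_smul,
    integral_subtype_comap measurableSet_Ioi
      fun a ↦ Real.toNNReal (a ^ 2) • F (a • (q : E3)),
    setIntegral_congr_fun measurableSet_Ioi fun x hx ↦ ?_]
  · rw [NNReal.smul_def, Real.coe_toNNReal _ (pow_nonneg (le_of_lt hx) _), smul_eq_mul]
  · exact (measurable_subtype_coe.pow_const _).real_toNNReal

theorem polar_le {F H : E3 → ℝ} (hF : Integrable F (volume : Measure E3))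
    (hH : Integrable H (volume : Measure E3))
    (h : ∀ q : Metric.sphere (0 : E3) 1, ∫ r in Ioi (0 : ℝ), r ^ 2 * F (r • (q : E3)) ≤
      ∫ r in Ioi (0 : ℝ), r ^ 2 * H (r • (q : E3))) : ∫ x, F x ≤ ∫ x, H x := by
  obtain ⟨i1, e1⟩ := polar_prod hF
  obtain ⟨i2, e2⟩ := polar_prod hH
  rw [e1, e2, integral_prod _ i1, integral_prod _ i2]
  refine integral_mono i1.integral_prod_left i2.integral_prod_left fun q => ?_
  show ∫ r : Ioi (0 : ℝ), F (r.1 • (q : E3)) ∂(Measure.volumeIoiPow 2) ≤
    ∫ r : Ioi (0 : ℝ), H (r.1 • (q : E3)) ∂(Measure.volumeIoiPow 2)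
  rw [inner_eq, inner_eq]
  exact h q

theorem smul_mem_cAnn {a b r : ℝ} (hr : 0 ≤ r) (q : Metric.sphere (0 : E3) 1) :
    r • (q : E3) ∈ cAnn a b ↔ r ∈ Icc a b := by
  show (a ≤ ‖r • (q : E3)‖ ∧ ‖r • (q : E3)‖ ≤ b) ↔ a ≤ r ∧ r ≤ b
  rw [norm_smul, norm_eq_of_mem_sphere, mul_one, Real.norm_eq_abs, abs_of_nonneg hr]

theorem inner_indicator (f : E3 → ℝ) {a b : ℝ} (ha : 0 < a) (hab : a ≤ b)
    (q : Metric.sphere (0 : E3) 1) :
    ∫ r in Ioi (0 : ℝ), r ^ 2 * (cAnn a b).indicator f (r • (q : E3)) =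
      ∫ r in a..b, r ^ 2 * f (r • (q : E3)) := by
  rw [intervalIntegral.integral_of_le hab, ← integral_Icc_eq_integral_Ioc,
    ← integral_indicator measurableSet_Ioi, ← integral_indicator measurableSet_Icc]
  congr 1
  funext r
  by_cases hr : 0 < r
  · rw [indicator_of_mem (show r ∈ Ioi (0 : ℝ) from hr)]
    by_cases h : r ∈ Icc a b
    · rw [indicator_of_mem h, indicator_of_mem ((smul_mem_cAnn hr.le q).2 h)]
    · rw [indicator_of_notMem h, indicator_of_notMem (fun h' => h ((smul_mem_cAnn hr.le q).1 h')),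
        mul_zero]
  · rw [indicator_of_notMem (show r ∉ Ioi (0 : ℝ) from hr), indicator_of_notMem]
    intro h
    exact hr (lt_of_lt_of_le ha h.1)

theorem isClosed_cAnn (a b : ℝ) : IsClosed (cAnn a b) :=
  (isClosed_le continuous_const continuous_norm).inter
    (isClosed_le continuous_norm continuous_const)

theorem isCompact_cAnn (a b : ℝ) : IsCompact (cAnn a b) := by
  refine Metric.isCompact_of_isClosed_isBounded (isClosed_cAnn a b) ?_
  refine (Metric.isBounded_closedBall (x := (0 : E3)) (r := b)).subset fun x hx => ?_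
  rw [mem_closedBall_zero_iff]
  exact hx.2

/-! ### One dimensional inequality -/

theorem one_dim {a b : ℝ → ℝ} (ha : Continuous a) (hb : Continuous b) (ha0 : ∀ r, 0 ≤ a r)
    (hb0 : ∀ r, 0 ≤ b r) {τ : ℝ} (hτ : 0 < τ) (hτ' : τ ≤ 1 / 10)
    (h : ∀ r ∈ Icc (1 : ℝ) (4 / 3), ∀ s ∈ Icc (1 : ℝ) (4 / 3),
      a r ≤ a s + ∫ σ in (1 : ℝ)..(4 / 3), b σ) :
    ∫ r in (1 : ℝ)..Real.exp τ, r ^ 2 * a r ≤
      100 * τ * ∫ r in (1 : ℝ)..(4 / 3), r ^ 2 * (a r + b r) := by
  obtain ⟨J, hJ⟩ : ∃ J, J = ∫ r in (1 : ℝ)..(4 / 3), r ^ 2 * (a r + b r) := ⟨_, rfl⟩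
  have hexp1 : Real.exp τ - 1 ≤ 2 * τ := by
    have h1 := Real.abs_exp_sub_one_le (x := τ) (by rw [abs_of_pos hτ]; linarith)
    rw [abs_of_pos hτ] at h1
    exact (le_abs_self _).trans h1
  have hexp2 : 1 ≤ Real.exp τ := Real.one_le_exp hτ.le
  have hexp3 : Real.exp τ ≤ 4 / 3 := by linarith
  have hia : IntervalIntegrable a volume (1 : ℝ) (4 / 3) := ha.intervalIntegrable _ _
  have hib : IntervalIntegrable b volume (1 : ℝ) (4 / 3) := hb.intervalIntegrable _ _
  have hJ1 : (∫ r in (1 : ℝ)..(4 / 3), a r) + ∫ r in (1 : ℝ)..(4 / 3), b r ≤ J := by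
    rw [← intervalIntegral.integral_add hia hib, hJ]
    refine intervalIntegral.integral_mono_on (by norm_num) (hia.add hib)
      (Continuous.intervalIntegrable (by fun_prop) _ _) fun r hr => ?_
    have e1 : 1 ≤ r ^ 2 := by nlinarith [hr.1]
    have e2 := ha0 r
    have e3 := hb0 r
    nlinarith
  have hJb : 0 ≤ ∫ r in (1 : ℝ)..(4 / 3), b r :=
    intervalIntegral.integral_nonneg (by norm_num) fun r _ => hb0 r
  have hJa : 0 ≤ ∫ r in (1 : ℝ)..(4 / 3), a r :=
    intervalIntegral.integral_nonneg (by norm_num) fun r _ => ha0 r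
  -- the mean value
  have hmean : ∀ r ∈ Icc (1 : ℝ) (4 / 3), a r ≤ 3 * J := by
    intro r hr
    have e1 : ∫ _s in (1 : ℝ)..(4 / 3), a r ≤
        ∫ s in (1 : ℝ)..(4 / 3), (a s + ∫ σ in (1 : ℝ)..(4 / 3), b σ) :=
      intervalIntegral.integral_mono_on (by norm_num) intervalIntegrable_const
        (hia.add intervalIntegrable_const) fun s hs => h r hr s hs
    rw [intervalIntegral.integral_add hia intervalIntegrable_const,
      intervalIntegral.integral_const, intervalIntegral.integral_const, smul_eq_mul,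
      smul_eq_mul] at e1
    linarith
  have hJ0 : 0 ≤ J := by linarith
  have e2 : ∫ r in (1 : ℝ)..Real.exp τ, r ^ 2 * a r ≤
      ∫ _r in (1 : ℝ)..Real.exp τ, (16 / 9) * (3 * J) := by
    refine intervalIntegral.integral_mono_on hexp2
      (Continuous.intervalIntegrable (by fun_prop) _ _) intervalIntegrable_const fun r hr => ?_
    have e3 := hmean r ⟨hr.1, hr.2.trans hexp3⟩
    have e4 : r ^ 2 ≤ 16 / 9 := by
      have : r ≤ 4 / 3 := hr.2.trans hexp3
      nlinarith [hr.1]
    exact mul_le_mul e4 e3 (ha0 r) (by norm_num)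
  rw [intervalIntegral.integral_const, smul_eq_mul] at e2
  rw [← hJ]
  have e5 : (Real.exp τ - 1) * (16 / 9 * (3 * J)) ≤ (2 * τ) * (16 / 9 * (3 * J)) :=
    mul_le_mul_of_nonneg_right hexp1 (by linarith)
  nlinarith [mul_nonneg hτ.le hJ0]

/-! ### Derivatives along rays -/

theorem fderiv_sum (f : E3 → ℝ) (x v : E3) : fderiv ℝ f x v = ∑ i, v i * pd i f x := by
  have h1 : v = ∑ i, v i • EuclideanSpace.single i (1 : ℝ) := by
    ext j
    simp [Pi.single_apply]
  conv_lhs => rw [h1]
  rw [map_sum]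
  refine Finset.sum_congr rfl fun i _ => ?_
  rw [map_smul, smul_eq_mul]
  rfl

theorem contDiff_pd {f : E3 → ℝ} (hf : ContDiff ℝ ∞ f) (i : Fin 3) : ContDiff ℝ ∞ (pd i f) := by
  have h1 : ContDiff ℝ ∞ (fderiv ℝ f) := hf.fderiv_right (by norm_cast)
  exact h1.clm_apply contDiff_const

theorem cs_bound (e w : Fin 3 → ℝ) (B : Bil) (he : ∑ i, e i ^ 2 ≤ 1) (hw : ∑ i, w i ^ 2 ≤ 1) :
    |∑ i, e i * ∑ j, w j * B j i| ≤ msz B := by
  apply Real.abs_le_sqrt
  have h1 : (∑ i, e i * ∑ j, w j * B j i) ^ 2 ≤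
      (∑ i, e i ^ 2) * ∑ i, (∑ j, w j * B j i) ^ 2 := Finset.sum_mul_sq_le_sq_mul_sq _ _ _
  have h2 : ∀ i, (∑ j, w j * B j i) ^ 2 ≤ ∑ j, B j i ^ 2 := by
    intro i
    have h3 : (∑ j, w j * B j i) ^ 2 ≤ (∑ j, w j ^ 2) * ∑ j, B j i ^ 2 :=
      Finset.sum_mul_sq_le_sq_mul_sq _ _ _
    have h4 : 0 ≤ ∑ j, B j i ^ 2 := Finset.sum_nonneg fun j _ => sq_nonneg _
    nlinarith
  have h5 : ∑ i, (∑ j, w j * B j i) ^ 2 ≤ ∑ i, ∑ j, B j i ^ 2 := Finset.sum_le_sum fun i _ => h2 i
  have h6 : 0 ≤ ∑ i, (∑ j, w j * B j i) ^ 2 := Finset.sum_nonneg fun i _ => sq_nonneg _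
  have h7 : ∑ i, ∑ j, B j i ^ 2 = ∑ i, ∑ j, B i j ^ 2 := Finset.sum_comm
  nlinarith

theorem ray_le {v : E3 → ℝ} (hv : ContDiff ℝ ∞ v) (q : Metric.sphere (0 : E3) 1)
    {r s : ℝ} (hr : r ∈ Icc (1 : ℝ) (4 / 3)) (hs : s ∈ Icc (1 : ℝ) (4 / 3))
    (hc : Continuous fun σ : ℝ => msz (hess2 v (σ • (q : E3)))) :
    vsz (grad v (r • (q : E3))) ≤ vsz (grad v (s • (q : E3))) +
      ∫ σ in (1 : ℝ)..(4 / 3), msz (hess2 v (σ • (q : E3))) := by
  have hm0 : 0 ≤ ∫ σ in (1 : ℝ)..(4 / 3), msz (hess2 v (σ • (q : E3))) :=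
    intervalIntegral.integral_nonneg (by norm_num) fun σ _ => Real.sqrt_nonneg _
  rcases eq_or_lt_of_le (Real.sqrt_nonneg (∑ i, grad v (r • (q : E3)) i ^ 2)) with h0 | h0
  · have e1 : vsz (grad v (r • (q : E3))) = 0 := h0.symm
    have e2 : 0 ≤ vsz (grad v (s • (q : E3))) := Real.sqrt_nonneg _
    linarith
  obtain ⟨N, hN⟩ : ∃ N, N = vsz (grad v (r • (q : E3))) := ⟨_, rfl⟩
  have hN0 : 0 < N := by rw [hN]; exact h0
  have hNsq : N ^ 2 = ∑ i, grad v (r • (q : E3)) i ^ 2 := by
    rw [hN]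
    exact Real.sq_sqrt (Finset.sum_nonneg fun i _ => sq_nonneg _)
  obtain ⟨e, he⟩ : ∃ e : Fin 3 → ℝ, e = fun i => grad v (r • (q : E3)) i / N := ⟨_, rfl⟩
  have hesq : ∑ i, e i ^ 2 = 1 := by
    simp only [he, div_pow]
    rw [← Finset.sum_div, ← hNsq, div_self (by positivity)]
  have hwsq : ∑ i, (q : E3) i ^ 2 = 1 := by
    have h1 := EuclideanSpace.norm_sq_eq (q : E3)
    rw [norm_eq_of_mem_sphere] at h1
    simpa using h1.symm
  -- the function
  obtain ⟨φ, hφ⟩ : ∃ φ : ℝ → ℝ, φ = fun σ => ∑ i, e i * pd i v (σ • (q : E3)) := ⟨_, rfl⟩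
  have hd : ∀ σ : ℝ, HasDerivAt φ (∑ i, e i * ∑ j, (q : E3) j * hess2 v (σ • (q : E3)) j i) σ := by
    intro σ
    rw [hφ]
    refine HasDerivAt.fun_sum fun i _ => ?_
    refine HasDerivAt.const_mul _ ?_
    have h1 : HasDerivAt (fun σ : ℝ => σ • (q : E3)) (q : E3) σ := by
      simpa using (hasDerivAt_id σ).smul_const (q : E3)
    have h2 : HasFDerivAt (pd i v) (fderiv ℝ (pd i v) (σ • (q : E3))) (σ • (q : E3)) :=
      ((contDiff_pd hv i).differentiable (by norm_num)).differentiableAt.hasFDerivAt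
    have h3 := h2.comp_hasDerivAt σ h1
    rw [fderiv_sum] at h3
    exact h3
  have hcont : Continuous fun σ : ℝ => ∑ i, e i * ∑ j, (q : E3) j * hess2 v (σ • (q : E3)) j i := by
    refine continuous_finsetSum _ fun i _ => continuous_const.mul
      (continuous_finsetSum _ fun j _ => continuous_const.mul ?_)
    exact (contDiff_pd (contDiff_pd hv i) j).continuous.comp (continuous_id.smul continuous_const)
  have hφr : φ r = N := by
    rw [hφ, he]
    show ∑ i, pd i v (r • (q : E3)) / N * pd i v (r • (q : E3)) = N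
    have h1 : ∀ i, pd i v (r • (q : E3)) / N * pd i v (r • (q : E3)) =
        grad v (r • (q : E3)) i ^ 2 / N := by
      intro i
      show _ = pd i v (r • (q : E3)) ^ 2 / N
      ring
    simp only [h1]
    rw [← Finset.sum_div, ← hNsq]
    field_simp
  have hφs : φ s ≤ vsz (grad v (s • (q : E3))) := by
    rw [hφ]
    refine (le_abs_self _).trans (Real.abs_le_sqrt ?_)
    have h1 : (∑ i, e i * pd i v (s • (q : E3))) ^ 2 ≤
        (∑ i, e i ^ 2) * ∑ i, pd i v (s • (q : E3)) ^ 2 := Finset.sum_mul_sq_le_sq_mul_sq _ _ _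
    rw [hesq, one_mul] at h1
    exact h1
  have hint : ∫ σ in s..r, (∑ i, e i * ∑ j, (q : E3) j * hess2 v (σ • (q : E3)) j i) =
      φ r - φ s := intervalIntegral.integral_eq_sub_of_hasDerivAt (fun σ _ => hd σ)
        (hcont.intervalIntegrable _ _)
  have hbd : ‖∫ σ in s..r, (∑ i, e i * ∑ j, (q : E3) j * hess2 v (σ • (q : E3)) j i)‖ ≤
      |∫ σ in s..r, msz (hess2 v (σ • (q : E3)))| := by
    refine intervalIntegral.norm_integral_le_abs_of_norm_le (Eventually.of_forall fun σ => ?_)
      (hc.intervalIntegrable _ _)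
    exact cs_bound e (fun j => (q : E3) j) (hess2 v (σ • (q : E3))) hesq.le hwsq.le
  have hsub : uIoc s r ⊆ uIoc (1 : ℝ) (4 / 3) := by
    rw [uIoc_of_le (by norm_num : (1 : ℝ) ≤ 4 / 3)]
    intro σ hσ
    rcases mem_uIoc.1 hσ with h | h
    · exact ⟨lt_of_le_of_lt hs.1 h.1, h.2.trans hr.2⟩
    · exact ⟨lt_of_le_of_lt hr.1 h.1, h.2.trans hs.2⟩
  have hmono := intervalIntegral.abs_integral_mono_interval (μ := volume)
    (f := fun σ : ℝ => msz (hess2 v (σ • (q : E3)))) hsub
    (Eventually.of_forall fun σ => Real.sqrt_nonneg _) (hc.intervalIntegrable _ _)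
  rw [abs_of_nonneg hm0] at hmono
  rw [hint, Real.norm_eq_abs] at hbd
  have h9 := (le_abs_self _).trans (hbd.trans hmono)
  rw [← hN]
  linarith

/-! ### Continuity -/

theorem cont_grad {v : E3 → ℝ} (hv : ContDiff ℝ ∞ v) : Continuous fun x : E3 => vsz (grad v x) := by
  refine Real.continuous_sqrt.comp ?_
  refine continuous_finsetSum _ fun i _ => ?_
  exact (contDiff_pd hv i).continuous.pow 2

theorem cont_hess {v : E3 → ℝ} (hv : ContDiff ℝ ∞ v) :
    Continuous fun x : E3 => msz (hess2 v x) := by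
  refine Real.continuous_sqrt.comp ?_
  refine continuous_finsetSum _ fun i _ => continuous_finsetSum _ fun j _ => ?_
  exact (contDiff_pd (contDiff_pd hv j) i).continuous.pow 2

end HXTRaux

/-- HXTR. -/
theorem HXTR : Stmt_HXTR := by
  intro v τ hv hτ hτ'
  have c1 := HXTRaux.cont_grad hv
  have c2 := HXTRaux.cont_hess hv
  have m1 : ∀ a b : ℝ, MeasurableSet (cAnn a b) := fun a b =>
    (HXTRaux.isClosed_cAnn a b).measurableSet
  have i1 : Integrable ((cAnn 1 (Real.exp τ)).indicator fun x => vsz (grad v x)) :=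
    (c1.continuousOn.integrableOn_compact (HXTRaux.isCompact_cAnn _ _)).integrable_indicator
      (m1 _ _)
  have i2 : Integrable ((cAnn 1 (4 / 3)).indicator fun x => vsz (grad v x) + msz (hess2 v x)) :=
    ((c1.add c2).continuousOn.integrableOn_compact
      (HXTRaux.isCompact_cAnn _ _)).integrable_indicator (m1 _ _)
  rw [← integral_indicator (m1 _ _), ← integral_indicator (m1 _ _), ← integral_const_mul]
  refine HXTRaux.polar_le i1 (i2.const_mul _) fun q => ?_
  have e1 : ∀ r : ℝ, r ^ 2 * (100 * τ * (cAnn 1 (4 / 3)).indicator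
      (fun x => vsz (grad v x) + msz (hess2 v x)) (r • (q : E3))) =
      100 * τ * (r ^ 2 * (cAnn 1 (4 / 3)).indicator
      (fun x => vsz (grad v x) + msz (hess2 v x)) (r • (q : E3))) := fun r => by ring
  simp only [e1]
  rw [integral_const_mul, HXTRaux.inner_indicator _ one_pos (Real.one_le_exp hτ.le),
    HXTRaux.inner_indicator _ one_pos (by norm_num)]
  have hray : Continuous fun r : ℝ => r • (q : E3) := continuous_id.smul continuous_const
  exact HXTRaux.one_dim (a := fun r => vsz (grad v (r • (q : E3))))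
    (b := fun r => msz (hess2 v (r • (q : E3)))) (c1.comp hray) (c2.comp hray)
    (fun r => Real.sqrt_nonneg _) (fun r => Real.sqrt_nonneg _) hτ hτ'
    fun r hr s hs => HXTRaux.ray_le hv q hr hs (c2.comp hray)

end Pool.Agent.PFlow.HX


end

section

set_option autoImplicit false

/-!
# HXUNI: the derivatives of a function of class `H²` are unique
-/

open MeasureTheory Filter Topology
open scoped ContDiff ENNReal

namespace Pool.Agent.PFlow.HX

open Pool.Agent.PenroseSph Pool.Agent.PFlow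

namespace HXUNIaux

lemma memLp_cont {K : Set E3} (hK : IsCompact K) {f : E3 → ℝ} (hf : ContinuousOn f K) :
    MemLp f 2 (volume.restrict K) := by
  have : Fact (volume K < ⊤) := ⟨hK.measure_lt_top⟩
  obtain ⟨C, hC⟩ := hK.exists_bound_of_continuousOn hf
  refine MemLp.of_bound (hf.aestronglyMeasurable hK.measurableSet) C ?_
  exact (ae_restrict_iff' hK.measurableSet).mpr (ae_of_all _ hC)

lemma abs_int_le {μ : Measure E3} {f g : E3 → ℝ} (hf : MemLp f 2 μ) (hg : MemLp g 2 μ) :
    |∫ x, f x * g x ∂μ| ≤ Real.sqrt (∫ x, f x ^ 2 ∂μ) * Real.sqrt (∫ x, g x ^ 2 ∂μ) := by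
  have h1 := integral_mul_norm_le_Lp_mul_Lq (μ := μ) (f := f) (g := g) (p := 2) (q := 2)
    Real.HolderConjugate.two_two (by simpa using hf) (by simpa using hg)
  have h2 : |∫ x, f x * g x ∂μ| ≤ ∫ x, ‖f x‖ * ‖g x‖ ∂μ := by
    rw [← Real.norm_eq_abs]
    refine (norm_integral_le_integral_norm _).trans (le_of_eq ?_)
    simp only [norm_mul]
  refine h2.trans (h1.trans (le_of_eq ?_))
  have e : ∀ k : E3 → ℝ, (∫ x, ‖k x‖ ^ (2 : ℝ) ∂μ) ^ (1 / 2 : ℝ) = Real.sqrt (∫ x, k x ^ 2 ∂μ) := by
    intro k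
    rw [Real.sqrt_eq_rpow]
    congr 1
    refine integral_congr_ae (ae_of_all _ fun x => ?_)
    simp only [Real.norm_eq_abs, Real.rpow_two, sq_abs]
  rw [e, e]

/-- Convergence in `L²(K)` implies convergence of the integrals against a continuous function. -/
lemma tendsto_int {K : Set E3} (hK : IsCompact K) {f : ℕ → E3 → ℝ} {F ψ : E3 → ℝ}
    (hf : ∀ n, Continuous (f n)) (hF : MemLp F 2 (volume.restrict K)) (hψ : Continuous ψ)
    (h : Tendsto (fun n => ∫ x in K, (f n x - F x) ^ 2) atTop (𝓝 0)) :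
    Tendsto (fun n => ∫ x in K, f n x * ψ x) atTop (𝓝 (∫ x in K, F x * ψ x)) := by
  have hψ2 := memLp_cont hK hψ.continuousOn
  have hf2 := fun n => memLp_cont hK (hf n).continuousOn
  rw [← tendsto_sub_nhds_zero_iff]
  have e : ∀ n, (∫ x in K, f n x * ψ x) - ∫ x in K, F x * ψ x
      = ∫ x in K, (f n x - F x) * ψ x := by
    intro n
    rw [← integral_sub]
    · refine integral_congr_ae (ae_of_all _ fun x => ?_)
      simp only
      ring
    · exact (hf2 n).integrable_mul hψ2
    · exact hF.integrable_mul hψ2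
  simp only [e]
  refine squeeze_zero_norm (fun n => ?_) (?_ : Tendsto (fun n =>
    Real.sqrt (∫ x in K, (f n x - F x) ^ 2) * Real.sqrt (∫ x in K, ψ x ^ 2)) atTop (𝓝 0))
  · rw [Real.norm_eq_abs]
    exact abs_int_le ((hf2 n).sub hF) hψ2
  · have h1 := (Real.continuous_sqrt.tendsto 0).comp h
    rw [Real.sqrt_zero] at h1
    simpa using h1.mul_const (Real.sqrt (∫ x in K, ψ x ^ 2))

/-- Uniform convergence on `K` implies convergence in `L²(K)`. -/
lemma tendsto_unif {K : Set E3} (hK : IsCompact K) {f : ℕ → E3 → ℝ} {w : E3 → ℝ}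
    (h : TendstoUniformlyOn f w atTop K) :
    Tendsto (fun n => ∫ x in K, (f n x - w x) ^ 2) atTop (𝓝 0) := by
  have : Fact (volume K < ⊤) := ⟨hK.measure_lt_top⟩
  rw [Metric.tendsto_atTop]
  intro ε hε
  set V := (volume K).toReal with hV
  have hV0 : 0 ≤ V := ENNReal.toReal_nonneg
  set δ := Real.sqrt (ε / (V + 1)) with hδ
  have hδ0 : 0 < δ := Real.sqrt_pos.mpr (by positivity)
  have hδ2 : δ ^ 2 = ε / (V + 1) := Real.sq_sqrt (by positivity)
  obtain ⟨N, hN⟩ := eventually_atTop.mp (Metric.tendstoUniformlyOn_iff.mp h δ hδ0)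
  refine ⟨N, fun n hn => ?_⟩
  rw [Real.dist_0_eq_abs]
  have h1 : ‖∫ x in K, (f n x - w x) ^ 2‖ ≤ δ ^ 2 * volume.real K := by
    refine norm_setIntegral_le_of_norm_le_const hK.measure_lt_top fun x hx => ?_
    rw [Real.norm_eq_abs, abs_of_nonneg (sq_nonneg _)]
    have h2 := hN n hn x hx
    rw [dist_comm, Real.dist_eq] at h2
    rw [← sq_abs]
    exact pow_le_pow_left₀ (abs_nonneg _) h2.le 2
  rw [Real.norm_eq_abs] at h1
  have h3 : volume.real K = V := rfl
  rw [h3, hδ2] at h1
  refine lt_of_le_of_lt h1 ?_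
  rw [div_mul_eq_mul_div, div_lt_iff₀ (by positivity)]
  nlinarith

lemma smooth_pd {f : E3 → ℝ} (hf : ContDiff ℝ ∞ f) (i : Fin 3) : ContDiff ℝ ∞ (pd i f) := by
  have h1 : ContDiff ℝ ∞ (fderiv ℝ f) := hf.fderiv_right (by simp)
  exact h1.clm_apply contDiff_const

lemma pd_zero {φ : E3 → ℝ} {x : E3} (hx : x ∉ tsupport φ) (i : Fin 3) : pd i φ x = 0 := by
  have h0 : φ =ᶠ[𝓝 x] fun _ => 0 := by
    have : (tsupport φ)ᶜ ∈ 𝓝 x := (isClosed_tsupport φ).isOpen_compl.mem_nhds hx
    filter_upwards [this] with y hy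
    exact image_eq_zero_of_notMem_tsupport hy
  unfold pd
  rw [h0.fderiv_eq]
  simp

/-- Integration by parts. -/
lemma ibp {f φ : E3 → ℝ} (hf : ContDiff ℝ ∞ f) (hφ : ContDiff ℝ ∞ φ) (hc : HasCompactSupport φ)
    (i : Fin 3) :
    ∫ x in tsupport φ, pd i f x * φ x = - ∫ x in tsupport φ, f x * pd i φ x := by
  have hfc := hf.continuous
  have hφc := hφ.continuous
  have hpf := (smooth_pd hf i).continuous
  have hpφ := (smooth_pd hφ i).continuous
  have hsp : HasCompactSupport (pd i φ) := by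
    refine HasCompactSupport.intro hc fun x hx => pd_zero hx i
  have i1 : Integrable (fun x => pd i f x * φ x) :=
    (hpf.mul hφc).integrable_of_hasCompactSupport hc.mul_left
  have i2 : Integrable (fun x => f x * pd i φ x) :=
    (hfc.mul hpφ).integrable_of_hasCompactSupport hsp.mul_left
  have i3 : Integrable (fun x => f x * φ x) :=
    (hfc.mul hφc).integrable_of_hasCompactSupport hc.mul_left
  have h := integral_mul_fderiv_eq_neg_fderiv_mul_of_integrable (μ := (volume : Measure E3))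
    (f := f) (g := φ) (v := EuclideanSpace.single i 1) i1 i2 i3
    (fun x _ => (hf.differentiable (by simp)).differentiableAt)
    (fun x _ => (hφ.differentiable (by simp)).differentiableAt)
  rw [setIntegral_eq_integral_of_forall_compl_eq_zero
      (fun x hx => by rw [image_eq_zero_of_notMem_tsupport hx, mul_zero]),
    setIntegral_eq_integral_of_forall_compl_eq_zero
      (fun x hx => by rw [pd_zero hx, mul_zero])]
  have h' : ∫ x, f x * pd i φ x = - ∫ x, pd i f x * φ x := h
  rw [h', neg_neg]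

/-- The first weak derivatives. -/
lemma weak1 {U : Set E3} {w : E3 → ℝ} {G : E3 → Cov} {M : E3 → Bil} (h : H2On U w G M)
    {φ : E3 → ℝ} (hφ : ContDiff ℝ ∞ φ) (hc : HasCompactSupport φ) (hs : tsupport φ ⊆ U)
    (i : Fin 3) :
    ∫ x in tsupport φ, G x i * φ x = - ∫ x in tsupport φ, w x * pd i φ x := by
  obtain ⟨v, hv, hu, h1, -⟩ := h.approx (tsupport φ) hc hs
  have a := tendsto_int hc (fun n => (smooth_pd (hv n) i).continuous)
    (h.memG (tsupport φ) hc hs i) hφ.continuous (h1 i)
  have b := tendsto_int hc (fun n => (hv n).continuous)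
    (memLp_cont hc (h.cont.mono hs)) (smooth_pd hφ i).continuous (tendsto_unif hc hu)
  have c : (fun n => ∫ x in tsupport φ, pd i (v n) x * φ x)
      = fun n => - ∫ x in tsupport φ, v n x * pd i φ x := funext fun n => ibp (hv n) hφ hc i
  rw [c] at a
  exact tendsto_nhds_unique a b.neg

/-- The second weak derivatives. -/
lemma weak2 {U : Set E3} {w : E3 → ℝ} {G : E3 → Cov} {M : E3 → Bil} (h : H2On U w G M)
    {φ : E3 → ℝ} (hφ : ContDiff ℝ ∞ φ) (hc : HasCompactSupport φ) (hs : tsupport φ ⊆ U)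
    (i j : Fin 3) :
    ∫ x in tsupport φ, M x i j * φ x = - ∫ x in tsupport φ, G x j * pd i φ x := by
  obtain ⟨v, hv, -, h1, h2⟩ := h.approx (tsupport φ) hc hs
  have a := tendsto_int hc (fun n => (smooth_pd (smooth_pd (hv n) j) i).continuous)
    (h.memM (tsupport φ) hc hs i j) hφ.continuous (h2 i j)
  have b := tendsto_int hc (fun n => (smooth_pd (hv n) j).continuous)
    (h.memG (tsupport φ) hc hs j) (smooth_pd hφ i).continuous (h1 j)
  have c : (fun n => ∫ x in tsupport φ, pd i (pd j (v n)) x * φ x)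
      = fun n => - ∫ x in tsupport φ, pd j (v n) x * pd i φ x :=
    funext fun n => ibp (smooth_pd (hv n) j) hφ hc i
  rw [c] at a
  exact tendsto_nhds_unique a b.neg

/-- Two functions in `L²_loc(U)` with the same integrals against test functions agree. -/
lemma ae_eq_of_test {U : Set E3} (hU : IsOpen U) {f g : E3 → ℝ}
    (hf : ∀ K : Set E3, IsCompact K → K ⊆ U → MemLp f 2 (volume.restrict K))
    (hg : ∀ K : Set E3, IsCompact K → K ⊆ U → MemLp g 2 (volume.restrict K))
    (h : ∀ φ : E3 → ℝ, ContDiff ℝ ∞ φ → HasCompactSupport φ → tsupport φ ⊆ U →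
      ∫ x in tsupport φ, f x * φ x = ∫ x in tsupport φ, g x * φ x) :
    ∀ᵐ x ∂(volume.restrict U), f x = g x := by
  have hloc : LocallyIntegrableOn (fun x => f x - g x) U := by
    rw [locallyIntegrableOn_iff hU.isLocallyClosed]
    intro K hKU hK
    have : Fact (volume K < ⊤) := ⟨hK.measure_lt_top⟩
    exact ((hf K hK hKU).sub (hg K hK hKU)).integrable (by norm_num)
  have h0 := hU.ae_eq_zero_of_integral_contDiff_smul_eq_zero hloc fun φ hφ hc hs => by
    have h1 := h φ hφ hc hs
    have hφ2 := memLp_cont hc hφ.continuous.continuousOn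
    rw [← setIntegral_eq_integral_of_forall_compl_eq_zero (s := tsupport φ)
      (fun x hx => by rw [image_eq_zero_of_notMem_tsupport hx, zero_smul])]
    have e : ∫ x in tsupport φ, φ x • (f x - g x)
        = (∫ x in tsupport φ, f x * φ x) - ∫ x in tsupport φ, g x * φ x := by
      rw [← integral_sub]
      · refine integral_congr_ae (ae_of_all _ fun x => ?_)
        simp only [smul_eq_mul]
        ring
      · exact (hf _ hc hs).integrable_mul hφ2
      · exact (hg _ hc hs).integrable_mul hφ2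
    rw [e, h1, sub_self]
  rw [ae_restrict_iff' hU.measurableSet]
  filter_upwards [h0] with x hx hxU
  exact sub_eq_zero.mp (hx hxU)

end HXUNIaux

open HXUNIaux

/-- **HXUNI**: the derivatives of a function of class `H²` are unique. -/
theorem HXUNI : Stmt_HXUNI := by
  intro U w G G' M M' hU h h'
  have hG : ∀ i, ∀ᵐ x ∂(volume.restrict U), G x i = G' x i := fun i =>
    ae_eq_of_test hU (fun K hK hKU => h.memG K hK hKU i) (fun K hK hKU => h'.memG K hK hKU i)
      fun φ hφ hc hs => by rw [weak1 h hφ hc hs, weak1 h' hφ hc hs]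
  have hM : ∀ i j, ∀ᵐ x ∂(volume.restrict U), M x i j = M' x i j := fun i j =>
    ae_eq_of_test hU (fun K hK hKU => h.memM K hK hKU i j)
      (fun K hK hKU => h'.memM K hK hKU i j)
      fun φ hφ hc hs => by
        rw [weak2 h hφ hc hs, weak2 h' hφ hc hs]
        congr 1
        refine integral_congr_ae ?_
        have h1 := ae_restrict_of_ae_restrict_of_subset hs (hG j)
        filter_upwards [h1] with x hx
        rw [hx]
  refine ⟨?_, ?_⟩
  · filter_upwards [ae_all_iff.mpr hG] with x hx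
    exact funext hx
  · filter_upwards [ae_all_iff.mpr fun i => ae_all_iff.mpr (hM i)] with x hx
    exact Matrix.ext hx

end Pool.Agent.PFlow.HX


end

section

/-!
# The uniform `H²` bound near the unit sphere: assembly
-/

open MeasureTheory Filter Topology
open scoped ContDiff ENNReal

namespace Pool.Agent.PFlow.HX

open Pool.Agent.PenroseSph

namespace LEGaux

lemma isOpen_ann (a b : ℝ) : IsOpen (Ann a b) :=
  (isOpen_lt continuous_const continuous_norm).inter (isOpen_lt continuous_norm continuous_const)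

lemma isClosed_cann (a b : ℝ) : IsClosed (cAnn a b) :=
  (isClosed_le continuous_const continuous_norm).inter
    (isClosed_le continuous_norm continuous_const)

lemma cann_sub : cAnn (3 / 4) (4 / 3) ⊆ Ann (1 / 2) 2 := by
  rintro x ⟨h1, h2⟩
  exact ⟨by linarith, by linarith⟩

/-- The algebra: `c a² ≤ C₂ a b + C₁ b²` and `b² ≤ C₃ (a + b)` bound `a` and `b`. -/
lemma alg (c C1 C2 C3 : ℝ) (hc : 0 < c) (hC1 : 0 < C1) (hC2 : 0 < C2) (hC3 : 0 < C3) :
    ∃ C : ℝ, 0 < C ∧ ∀ a b : ℝ, 0 ≤ a → 0 ≤ b → c * a ^ 2 ≤ C2 * (a * b) + C1 * b ^ 2 →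
      b ^ 2 ≤ C3 * (a + b) → a ^ 2 + b ^ 2 ≤ C := by
  have hK0 : 0 < 2 * (C1 + C2 ^ 2 / (2 * c)) / c := by positivity
  refine ⟨(2 * (C1 + C2 ^ 2 / (2 * c)) / c + 1) *
    (C3 * (Real.sqrt (2 * (C1 + C2 ^ 2 / (2 * c)) / c) + 1)) ^ 2, by positivity, ?_⟩
  intro a b ha hb h1 h2
  have hK : a ^ 2 ≤ 2 * (C1 + C2 ^ 2 / (2 * c)) / c * b ^ 2 := by
    have h3 : C2 * (a * b) ≤ c / 2 * a ^ 2 + C2 ^ 2 / (2 * c) * b ^ 2 := by
      have h4 : c / 2 * a ^ 2 + C2 ^ 2 / (2 * c) * b ^ 2 - C2 * (a * b)
          = (c * a - C2 * b) ^ 2 / (2 * c) := by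
        field_simp
        ring
      have h5 : 0 ≤ (c * a - C2 * b) ^ 2 / (2 * c) := by positivity
      linarith
    have h6 : c / 2 * a ^ 2 ≤ (C1 + C2 ^ 2 / (2 * c)) * b ^ 2 := by nlinarith
    have h7 : a ^ 2 = 2 / c * (c / 2 * a ^ 2) := by field_simp
    have h8 : 2 * (C1 + C2 ^ 2 / (2 * c)) / c * b ^ 2
        = 2 / c * ((C1 + C2 ^ 2 / (2 * c)) * b ^ 2) := by ring
    rw [h7, h8]
    exact mul_le_mul_of_nonneg_left h6 (by positivity)
  generalize 2 * (C1 + C2 ^ 2 / (2 * c)) / c = K at hK hK0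
  have ha' : a ≤ Real.sqrt K * b := by
    have h9 : Real.sqrt (a ^ 2) ≤ Real.sqrt (K * b ^ 2) := Real.sqrt_le_sqrt hK
    rw [Real.sqrt_sq ha, Real.sqrt_mul hK0.le, Real.sqrt_sq hb] at h9
    exact h9
  have hs : 0 ≤ Real.sqrt K := Real.sqrt_nonneg K
  have hB : b ≤ C3 * (Real.sqrt K + 1) := by
    rcases hb.eq_or_lt with h0 | hpos
    · rw [← h0]; positivity
    · have h10 : b * b ≤ C3 * (Real.sqrt K + 1) * b := by nlinarith
      exact le_of_mul_le_mul_right h10 hpos
  have hb2 : b ^ 2 ≤ (C3 * (Real.sqrt K + 1)) ^ 2 := pow_le_pow_left₀ hb hB 2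
  calc a ^ 2 + b ^ 2 ≤ K * b ^ 2 + b ^ 2 := by linarith
    _ = (K + 1) * b ^ 2 := by ring
    _ ≤ (K + 1) * (C3 * (Real.sqrt K + 1)) ^ 2 :=
        mul_le_mul_of_nonneg_left hb2 (by positivity)

end LEGaux

open LEGaux

theorem LEG (hHXA : Stmt_HXA) (hHXCUT : Stmt_HXCUT) (hHXB : Stmt_HXB) (hHXC : Stmt_HXC) :
    Stmt_LEG := by
  intro ε Λ S hε hε1 hΛ hS
  obtain ⟨c, C1, hc, hC1, hA⟩ := hHXA ε Λ hε hε1 hΛ
  obtain ⟨ζ, hζ, hζ1⟩ := hHXCUT
  obtain ⟨C2, hC2, hB⟩ := hHXB Λ ζ hΛ hζ
  obtain ⟨C3, hC3, hCC⟩ := hHXC S ζ hS hζ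
  obtain ⟨C, hC, hfin⟩ := alg c C1 C2 C3 hc hC1 hC2 hC3
  refine ⟨C, hC, ?_⟩
  intro g h u G M hg hbd hH2 hEq hu
  obtain ⟨hiB, hB'⟩ := hB g h u G M hg hbd hH2
  obtain ⟨hiG, hiM, hC'⟩ := hCC u G M hH2 hu
  have hmeas : MeasurableSet (Ann (1 / 2) 2) := (isOpen_ann _ _).measurableSet
  have hm0 : 0 ≤ ∫ x in Ann (1 / 2) 2, ζ x ^ 4 * msz (M x) ^ 2 :=
    integral_nonneg fun x => by positivity
  have hγ0 : 0 ≤ ∫ x in Ann (1 / 2) 2, ζ x ^ 2 * vsz (G x) ^ 2 :=
    integral_nonneg fun x => by positivity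
  -- the integrated inequality
  have hint : c * (∫ x in Ann (1 / 2) 2, ζ x ^ 4 * msz (M x) ^ 2)
      ≤ (∫ x in Ann (1 / 2) 2, ζ x ^ 4 * (volDen g x * (nsq g x (M x) - trg g x (M x) ^ 2)))
        + C1 * ∫ x in Ann (1 / 2) 2, ζ x ^ 2 * vsz (G x) ^ 2 := by
    rw [← integral_const_mul, ← integral_const_mul, ← integral_add hiB (hiG.const_mul C1)]
    refine integral_mono_ae (hiM.const_mul c) (hiB.add (hiG.const_mul C1)) ?_
    have hmem : ∀ᵐ x ∂(volume.restrict (Ann (1 / 2) 2)), x ∈ Ann (1 / 2) 2 :=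
      ae_restrict_mem hmeas
    filter_upwards [hEq, hmem] with x hx hxA
    have h1 := hA g h x (G x) (M x) (hbd x hxA) hx.1 hx.2
    have hz0 := hζ.nonneg x
    have hz1 := hζ.le_one x
    have hz4 : ζ x ^ 4 ≤ ζ x ^ 2 := pow_le_pow_of_le_one hz0 hz1 (by norm_num)
    have h2 : ζ x ^ 4 * (c * msz (M x) ^ 2)
        ≤ ζ x ^ 4 * (volDen g x * (nsq g x (M x) - trg g x (M x) ^ 2) + C1 * vsz (G x) ^ 2) :=
      mul_le_mul_of_nonneg_left h1 (by positivity)
    have h3 : ζ x ^ 4 * (C1 * vsz (G x) ^ 2) ≤ ζ x ^ 2 * (C1 * vsz (G x) ^ 2) :=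
      mul_le_mul_of_nonneg_right hz4 (by positivity)
    change c * (ζ x ^ 4 * msz (M x) ^ 2)
      ≤ ζ x ^ 4 * (volDen g x * (nsq g x (M x) - trg g x (M x) ^ 2))
        + C1 * (ζ x ^ 2 * vsz (G x) ^ 2)
    linarith
  have ha2 := Real.sq_sqrt hm0
  have hb2 := Real.sq_sqrt hγ0
  have hbound := hfin (Real.sqrt (∫ x in Ann (1 / 2) 2, ζ x ^ 4 * msz (M x) ^ 2))
    (Real.sqrt (∫ x in Ann (1 / 2) 2, ζ x ^ 2 * vsz (G x) ^ 2)) (Real.sqrt_nonneg _)
    (Real.sqrt_nonneg _) (by rw [ha2, hb2]; linarith) (by rw [hb2]; exact hC')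
  rw [ha2, hb2] at hbound
  -- the restriction to the smaller annulus
  have hlast : ∫ x in cAnn (3 / 4) (4 / 3), (vsz (G x) ^ 2 + msz (M x) ^ 2)
      ≤ ∫ x in Ann (1 / 2) 2, (ζ x ^ 2 * vsz (G x) ^ 2 + ζ x ^ 4 * msz (M x) ^ 2) := by
    have h1 : ∫ x in cAnn (3 / 4) (4 / 3), (vsz (G x) ^ 2 + msz (M x) ^ 2)
        = ∫ x in cAnn (3 / 4) (4 / 3), (ζ x ^ 2 * vsz (G x) ^ 2 + ζ x ^ 4 * msz (M x) ^ 2) := by
      refine setIntegral_congr_fun (isClosed_cann _ _).measurableSet fun x hx => ?_
      change vsz (G x) ^ 2 + msz (M x) ^ 2 = ζ x ^ 2 * vsz (G x) ^ 2 + ζ x ^ 4 * msz (M x) ^ 2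
      rw [hζ1 x hx]
      ring
    rw [h1]
    refine setIntegral_mono_set (hiG.add hiM) ?_ (Eventually.of_forall cann_sub)
    exact Eventually.of_forall fun x => by
      change (0 : ℝ) ≤ ζ x ^ 2 * vsz (G x) ^ 2 + ζ x ^ 4 * msz (M x) ^ 2
      positivity
  have hsum := integral_add hiG hiM
  calc ∫ x in cAnn (3 / 4) (4 / 3), (vsz (G x) ^ 2 + msz (M x) ^ 2)
      ≤ ∫ x in Ann (1 / 2) 2, (ζ x ^ 2 * vsz (G x) ^ 2 + ζ x ^ 4 * msz (M x) ^ 2) := hlast
    _ = (∫ x in Ann (1 / 2) 2, ζ x ^ 2 * vsz (G x) ^ 2)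
        + ∫ x in Ann (1 / 2) 2, ζ x ^ 4 * msz (M x) ^ 2 := hsum
    _ ≤ C := by linarith

end Pool.Agent.PFlow.HX


end

section

/-!
# XCRD: the integrated Cordes inequality with an integrable error term
-/

open MeasureTheory Filter Topology Set
open scoped ContDiff RealInnerProductSpace

namespace Pool.Agent.PFlow.PB

open Pool.Agent.PenroseSph Pool.Agent.PFlow

open CordI in
/-- XCRD: the integrated Cordes inequality with an integrable error term. -/
theorem xcrd_thm (_h1 : API1) (hc : CID) (hb : KBND) (hs : KSM) : XCRD := by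
  intro ε g h r hε hε1 hg C₀
  obtain ⟨C, hC⟩ := hb g h r hg
  obtain ⟨s1, s2, -⟩ := hs g h r hg
  have hC1 : 1 ≤ C := hC.one
  have hC0 : 0 < C := by linarith
  set D : ℝ := 3 * C ^ 3 with hD
  have hD0 : 0 < D := by positivity
  set η : ℝ := ε / (4 * C ^ 2 * (162 * D)) with hη
  have hη0 : 0 < η := by positivity
  set K3 : ℝ := 162 * D / (4 * η) with hK3
  have hK30 : 0 < K3 := by positivity
  set K1 : ℝ := C * K0 C C₀ 0 ε with hK1
  have hK10 : 0 ≤ K1 := mul_nonneg hC0.le (K0_nonneg hC1 hε)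
  refine ⟨4 * C ^ 2 / ε * (K1 + K3), ?_⟩
  intro u G M F hu iF hF0 hcor
  have mM : ∀ i, MemLp (M i) 2 := fun i => (hu.h2 i).memG
  have mG : MemLp G 2 := hu.h1.memG
  have mMc : ∀ i j, MemLp (fun x => M i x j) 2 := fun i j => memLp_apply (mM i) j
  -- `∑ sqv (M i)` is the integral of `QQ`
  have iM : ∀ i j, Integrable (fun x => mt (fun i => M i x) i j ^ 2) :=
    fun i j => (mMc i j).integrable_sq
  have iQ : Integrable (fun x => QQ (mt fun i => M i x)) := by
    unfold QQ
    exact integrable_finsetSum _ fun i _ => integrable_finsetSum _ fun j _ => iM i j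
  have hQ : ∑ i, sqv (M i) = ∫ x, QQ (mt fun i => M i x) := by
    unfold QQ
    rw [integral_finsetSum _ fun i _ => integrable_finsetSum _ fun j _ => iM i j]
    refine Finset.sum_congr rfl fun i _ => ?_
    unfold sqv
    refine integral_congr_ae (ae_of_all _ fun x => ?_)
    simp only [mt, Matrix.of_apply]
    rw [EuclideanSpace.norm_sq_eq]
    refine Finset.sum_congr rfl fun j _ => ?_
    rw [Real.norm_eq_abs, sq_abs]
  have iG : Integrable (fun x => ‖G x‖ ^ 2) := by
    exact mG.norm.integrable_sq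
  -- the quadratic form
  set Y : E3 → ℝ := fun x => ∑ i, ∑ k, ∑ j, ∑ l,
    qq g i k j l x * (M i x j * M k x l - M i x k * M j x l) with hY
  set X : E3 → ℝ := fun x => ∑ i, ∑ k, ∑ j, ∑ l,
    (pd j (qq g i k j l) x * G x i * M k x l - pd k (qq g i k j l) x * G x i * M j x l) with hX
  have hqs : ∀ i k j l, ContDiff ℝ ∞ (qq g i k j l) := fun i k j l =>
    (s2.mul (s1 i k)).mul (s1 j l)
  have hqpd : ∀ m i k j l x, |pd m (qq g i k j l) x| ≤ D := fun m i k j l x =>
    qq_pd hC s1 s2 m i k j l x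
  have hcid : ∫ x, Y x = - ∫ x, X x := by
    refine hc (qq g) (3 * D) (fun i k j l => (hqs i k j l).of_le ENat.LEInfty.out)
      (fun i k j l x => (qq_abs hC i k j l x).trans ?_)
      (fun i k j l x => gr_le hD0.le (fun m => hqpd m i k j l x)) u G M hu
    rw [hD]
    nlinarith [pow_pos hC0 3]
  have hYe : ∀ x, Y x = volDen g x * (nsq g x (mt fun i => M i x) -
      trg g x (mt fun i => M i x) ^ 2) := by
    intro x
    have e1 : nsq g x (mt fun i => M i x) = ∑ i, ∑ k, ∑ j, ∑ l,
        (g x)⁻¹ i k * (g x)⁻¹ j l * M i x j * M k x l :=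
      Finset.sum_congr rfl fun i _ => Finset.sum_comm
    have e2 : trg g x (mt fun i => M i x) ^ 2 = ∑ i, ∑ k, ∑ j, ∑ l,
        (g x)⁻¹ i k * M i x k * ((g x)⁻¹ j l * M j x l) := by
      unfold trg
      rw [pow_two, Finset.sum_mul_sum]
      refine Finset.sum_congr rfl fun i _ => ?_
      rw [Finset.sum_comm]
      simp only [Finset.sum_mul_sum]
      rfl
    rw [e1, e2]
    simp only [hY, qq, ← Finset.sum_sub_distrib, Finset.mul_sum]
    refine Finset.sum_congr rfl fun i _ => Finset.sum_congr rfl fun k _ =>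
      Finset.sum_congr rfl fun j _ => Finset.sum_congr rfl fun l _ => ?_
    ring
  have iY : Integrable Y := by
    refine integrable_finsetSum _ fun i _ => integrable_finsetSum _ fun k _ =>
      integrable_finsetSum _ fun j _ => integrable_finsetSum _ fun l _ => ?_
    have i1 : Integrable (fun x => M i x j * M k x l - M i x k * M j x l) :=
      ((mMc i j).integrable_mul (mMc k l)).sub ((mMc i k).integrable_mul (mMc j l))
    exact i1.bdd_mul (c := C ^ 3) (hqs i k j l).continuous.aestronglyMeasurable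
      (ae_of_all _ fun x => qq_abs hC i k j l x)
  -- pointwise bound of X
  have hXb : ∀ x, |X x| ≤ ε / (4 * C ^ 2) * QQ (mt fun i => M i x) + K3 * ‖G x‖ ^ 2 := by
    intro x
    set q : ℝ := QQ (mt fun i => M i x) with hq
    have hterm : ∀ (m : Fin 3) (i k j l a b : Fin 3),
        |pd m (qq g i k j l) x * G x i * M a x b| ≤ D * (η * q + ‖G x‖ ^ 2 / (4 * η)) := by
      intro m i k j l a b
      rw [mul_assoc, abs_mul]
      refine mul_le_mul (hqpd m i k j l x) ?_ (abs_nonneg _) hD0.le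
      have e1 : M a x b ^ 2 ≤ q := sq_le_QQ (mt fun i => M i x) a b
      have e2 : G x i ^ 2 ≤ ‖G x‖ ^ 2 := by
        rw [← sq_abs]
        exact pow_le_pow_left₀ (abs_nonneg _) (abs_apply_le _ _) 2
      rw [abs_mul]
      have e3 : |G x i| * |M a x b| ≤ η * |M a x b| ^ 2 + |G x i| ^ 2 / (4 * η) := by
        have e4 : η * |M a x b| ^ 2 + |G x i| ^ 2 / (4 * η) - |G x i| * |M a x b| =
            (2 * η * |M a x b| - |G x i|) ^ 2 / (4 * η) := by
          field_simp
          ring
        have e5 : 0 ≤ (2 * η * |M a x b| - |G x i|) ^ 2 / (4 * η) := by positivity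
        linarith
      rw [sq_abs, sq_abs] at e3
      have e6 : η * M a x b ^ 2 ≤ η * q := mul_le_mul_of_nonneg_left e1 hη0.le
      have e7 : G x i ^ 2 / (4 * η) ≤ ‖G x‖ ^ 2 / (4 * η) :=
        div_le_div_of_nonneg_right e2 (by positivity)
      linarith
    calc |X x| ≤ ∑ _i : Fin 3, ∑ _k : Fin 3, ∑ _j : Fin 3, ∑ _l : Fin 3,
          (2 * (D * (η * q + ‖G x‖ ^ 2 / (4 * η)))) := by
          refine (Finset.abs_sum_le_sum_abs _ _).trans (Finset.sum_le_sum fun i _ => ?_)
          refine (Finset.abs_sum_le_sum_abs _ _).trans (Finset.sum_le_sum fun k _ => ?_)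
          refine (Finset.abs_sum_le_sum_abs _ _).trans (Finset.sum_le_sum fun j _ => ?_)
          refine (Finset.abs_sum_le_sum_abs _ _).trans (Finset.sum_le_sum fun l _ => ?_)
          refine (abs_sub _ _).trans ?_
          have t1 := hterm j i k j l k l
          have t2 := hterm k i k j l j l
          linarith
      _ = 162 * D * (η * q + ‖G x‖ ^ 2 / (4 * η)) := by
          simp only [Finset.sum_const, Finset.card_univ, Fintype.card_fin, nsmul_eq_mul]
          push_cast
          ring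
      _ = ε / (4 * C ^ 2) * q + K3 * ‖G x‖ ^ 2 := by
          have e8 : 162 * D * η = ε / (4 * C ^ 2) := by
            rw [hη]
            field_simp
          rw [← e8, hK3]
          field_simp
  have hXi : |∫ x, X x| ≤ ∫ x, (ε / (4 * C ^ 2) * QQ (mt fun i => M i x) + K3 * ‖G x‖ ^ 2) := by
    rw [← Real.norm_eq_abs]
    exact norm_integral_le_of_norm_le ((iQ.const_mul _).add (iG.const_mul _))
      (ae_of_all _ fun x => hXb x)
  rw [integral_add (iQ.const_mul _) (iG.const_mul _), integral_const_mul, integral_const_mul]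
    at hXi
  -- integrate the pointwise inequality
  have hint : ∫ x, ε / (2 * C ^ 2) * QQ (mt fun i => M i x) ≤
      ∫ x, (Y x + K1 * (‖G x‖ ^ 2 + F x)) := by
    refine integral_mono_ae (iQ.const_mul _) (iY.add ((iG.add iF).const_mul _)) ?_
    filter_upwards [hF0, hcor] with x hx1 hx2
    show ε / (2 * C ^ 2) * QQ (mt fun i => M i x) ≤ Y x + K1 * (‖G x‖ ^ 2 + F x)
    rw [hYe]
    have hp0 : 0 ≤ ‖G x‖ ^ 2 + F x := by positivity
    have hp : ∀ k, |G x k| ≤ √(‖G x‖ ^ 2 + F x) := fun k => by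
      refine (abs_apply_le _ _).trans (Real.le_sqrt_of_sq_le ?_)
      linarith
    have hp2 : √(‖G x‖ ^ 2 + F x) ^ 2 = ‖G x‖ ^ 2 + F x := Real.sq_sqrt hp0
    have hpt := pointwise hC x (G x) (mt fun i => M i x) (F := 0) (T := 0) (C0 := C₀)
      (P := √(‖G x‖ ^ 2 + F x)) hε hε1 hp (by simp) (by
        rw [hp2]
        simpa using hx2)
    rw [hp2] at hpt
    simpa using hpt
  have i2 : Integrable (fun x => K1 * (‖G x‖ ^ 2 + F x)) := (iG.add iF).const_mul _
  rw [integral_const_mul, integral_add iY i2, integral_const_mul, integral_add iG iF, hcid]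
    at hint
  -- conclusion
  rw [hQ]
  have hsG : sqv G = ∫ x, ‖G x‖ ^ 2 := rfl
  rw [hsG]
  set IQ := ∫ x, QQ (mt fun i => M i x) with hIQ
  set IG := ∫ x, ‖G x‖ ^ 2 with hIG
  set IF := ∫ x, F x with hIF
  have hIF0 : 0 ≤ IF := integral_nonneg_of_ae hF0
  have hIG0 : 0 ≤ IG := integral_nonneg fun x => sq_nonneg _
  have hx := (abs_le.1 hXi).1
  have e1 : ε / (2 * C ^ 2) * IQ = 2 * (ε / (4 * C ^ 2) * IQ) := by ring
  have e2 : ε / (4 * C ^ 2) * IQ ≤ (K1 + K3) * (IG + IF) := by
    nlinarith [mul_nonneg hK30.le hIF0]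
  have e3 : IQ = 4 * C ^ 2 / ε * (ε / (4 * C ^ 2) * IQ) := by
    field_simp
  rw [e3, mul_assoc]
  exact mul_le_mul_of_nonneg_left e2 (by positivity)

end Pool.Agent.PFlow.PB


end

section

/-!
# Block PX: existence for the regularised equation by monotone iteration (XEXI)
-/

open MeasureTheory Filter Topology Set
open scoped ContDiff RealInnerProductSpace ENNReal

namespace Pool.Agent.PFlow.PB

open Pool.Agent.PenroseSph Pool.Agent.PFlow

namespace PXExi

theorem exists_ae_sub (f : E3 → ℝ) (fn : ℕ → E3 → ℝ) (hf : MemLp f 2) (hn : ∀ n, MemLp (fn n) 2)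
    (h : Tendsto (fun n => sq (fun x => fn n x - f x)) atTop (𝓝 0)) :
    ∃ ns : ℕ → ℕ, StrictMono ns ∧ ∀ᵐ x, Tendsto (fun k => fn (ns k) x) atTop (𝓝 (f x)) := by
  simp only [sq_eq] at h
  rw [tend_iff f fn hf hn] at h
  have h2 := tendstoInMeasure_of_tendsto_eLpNorm (by norm_num) (fun n => (hn n).1) hf.1 h
  obtain ⟨ns, h3, h4⟩ := h2.exists_seq_tendsto_ae
  exact ⟨ns, h3, h4⟩

/-- The majorant of the squares of the approximations. -/
noncomputable def maj (ρ : ℝ) (w₀ : E3 → ℝ) (x : E3) : ℝ :=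
  (Metric.closedBall (0 : E3) ρ).indicator (fun _ => (1 : ℝ)) x + w₀ x ^ 2

theorem maj_int (ρ : ℝ) {w₀ : E3 → ℝ} (h : Test w₀) : Integrable (maj ρ w₀) := by
  refine Integrable.add ?_ ?_
  · rw [integrable_indicator_iff measurableSet_closedBall]
    exact integrableOn_const (measure_closedBall_lt_top (x := (0 : E3)) (r := ρ)).ne
  · exact (h.smooth.continuous.memLp_of_hasCompactSupport (p := 2) h.cpt).integrable_sq

theorem le_maj {ρ : ℝ} {w₀ : E3 → ℝ} {Z : Set E3} (hZ : ∀ x : E3, ρ ≤ ‖x‖ → x ∈ Z) {u : E3 → ℝ}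
    {x : E3} (h0 : 0 ≤ u x) (h1 : u x ≤ 1) (hz : x ∈ Z → u x = w₀ x) : u x ^ 2 ≤ maj ρ w₀ x := by
  unfold maj
  by_cases hx : ‖x‖ ≤ ρ
  · rw [indicator_of_mem (mem_closedBall_zero_iff.2 hx)]
    have := sq_nonneg (w₀ x)
    nlinarith
  · rw [indicator_of_notMem (fun h => hx (mem_closedBall_zero_iff.1 h)), zero_add,
      hz (hZ x (not_le.1 hx).le)]

end PXExi

open MEXI PXExi in
/-- XEXI: existence for the regularised equation. -/
theorem xexi_thm (h1 : API1) (hs : XSTEP) (ho : XORD) (hl : XLIPS) : XEXI := by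
  intro A B c L r hC Z w₀ hT hw01 ⟨ρ, hρ⟩
  set m : ℝ := L ^ 2 / c + 2 with hm
  have hm' : L ^ 2 / c + 2 ≤ m := le_rfl
  have hc0 := hC.c_pos
  have hm0 : 0 ≤ m := by positivity
  have hS : ∀ v : {v : E3 → ℝ // MemLp v 2}, ∃ (u : E3 → ℝ) (G : E3 → E3),
      StepZ A B Z w₀ m v.1 u G := fun v => hs A B c L r hC Z w₀ hT m hm' v.1 v.2
  choose S GS hSG using hS
  let w : ℕ → {v : E3 → ℝ // MemLp v 2} := fun k =>
    Nat.rec ⟨0, MemLp.zero⟩ (fun _ v => ⟨S v, (hSG v).1.memf⟩) k
  have w0 : (w 0).1 = 0 := rfl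
  have ws : ∀ k, (w (k + 1)).1 = S (w k) := fun _ => rfl
  have weq : ∀ k, StepZ A B Z w₀ m (w k).1 (w (k + 1)).1 (GS (w k)) := fun k => hSG (w k)
  -- order
  have hnn : ∀ k, ∀ᵐ x, 0 ≤ (w k).1 x := by
    intro k
    induction k with
    | zero => exact Eventually.of_forall fun x => by rw [w0]; exact le_rfl
    | succ k ih =>
      exact ho.nonneg A B c L r hC Z w₀ hT (fun x => (hw01 x).1) m hm' _ _ _ (w k).2
        (weq k) ih
  have hle1 : ∀ k, ∀ᵐ x, (w k).1 x ≤ 1 := by
    intro k
    induction k with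
    | zero => exact Eventually.of_forall fun x => by rw [w0]; exact zero_le_one
    | succ k ih =>
      exact ho.le_one A B c L r hC Z w₀ hT (fun x => (hw01 x).2) m hm' _ _ _ (w k).2
        (weq k) ih
  have hmon : ∀ k, ∀ᵐ x, (w k).1 x ≤ (w (k + 1)).1 x := by
    intro k
    induction k with
    | zero =>
      filter_upwards [hnn 1] with x hx
      rw [w0]
      exact hx
    | succ k ih =>
      exact ho.mono A B c L r hC Z w₀ hT m hm' _ _ _ _ _ _ (w k).2 (w (k + 1)).2
        (weq k) (weq (k + 1)) ih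
  have hmono : ∀ j k, k ≤ j → ∀ᵐ x, (w k).1 x ≤ (w j).1 x := by
    intro j k hkj
    induction j, hkj using Nat.le_induction with
    | base => exact Eventually.of_forall fun x => le_rfl
    | succ j _ ih =>
      filter_upwards [ih, hmon j] with x hx hx'
      exact hx.trans hx'
  have hsub : ∀ j k, k ≤ j → sq (fun x => (w j).1 x - (w k).1 x) ≤ sq (w j).1 - sq (w k).1 :=
    fun j k hkj => sq_sub_le (w j).2 (w k).2 (hnn k) (hmono j k hkj)
  have hbd : ∀ k, sq (w (k + 1)).1 ≤ ∫ x, maj ρ w₀ x := fun k => by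
    refine integral_mono_ae (isq (w (k + 1)).2) (maj_int ρ hT) ?_
    filter_upwards [hnn (k + 1), hle1 (k + 1), (weq k).2.1] with x hx0 hx1 hxz
    exact le_maj hρ hx0 hx1 hxz
  have hsm : Monotone fun k => sq (w k).1 := by
    refine monotone_nat_of_le_succ fun k => ?_
    have := hsub (k + 1) k (Nat.le_succ k)
    have h2 := sq_nn (fun x => (w (k + 1)).1 x - (w k).1 x)
    linarith
  have hbdd : BddAbove (Set.range fun k => sq (w k).1) := by
    refine ⟨∫ x, maj ρ w₀ x, ?_⟩
    rintro _ ⟨k, rfl⟩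
    exact (hsm (Nat.le_succ k)).trans (hbd k)
  have hconv := tendsto_atTop_ciSup hsm hbdd
  have hcau : ∀ ε > 0, ∃ N, ∀ i ≥ N, ∀ j ≥ N, sq (fun x => (w i).1 x - (w j).1 x) < ε := by
    intro ε hε
    obtain ⟨N, hN⟩ := Metric.cauchySeq_iff.mp hconv.cauchySeq ε hε
    refine ⟨N, fun i hi j hj => ?_⟩
    have h3 := hN i hi j hj
    rw [Real.dist_eq] at h3
    rcases le_total j i with hij | hij
    · exact (hsub i j hij).trans_lt ((le_abs_self _).trans_lt h3)
    · rw [sq_comm]
      rw [abs_sub_comm] at h3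
      exact (hsub j i hij).trans_lt ((le_abs_self _).trans_lt h3)
  obtain ⟨u, hu, hul⟩ := h1.complete (fun k => (w k).1) (fun k => (w k).2) hcau
  -- gradients
  obtain ⟨C', hC'⟩ := hl A B c L r hC m hm'
  have hgr : ∀ i j, sqv (fun x => GS (w i) x - GS (w j) x) ≤
      (|C'| + 1) * sq (fun x => (w i).1 x - (w j).1 x) := by
    intro i j
    have h3 := hC' Z w₀ hT _ _ _ _ _ _ (w i).2 (w j).2 (weq i) (weq j)
    have h4 := sq_nn (fun x => (w (i + 1)).1 x - (w (j + 1)).1 x)
    have h5 := sq_nn (fun x => (w i).1 x - (w j).1 x)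
    have h6 : C' * sq (fun x => (w i).1 x - (w j).1 x) ≤
        (|C'| + 1) * sq (fun x => (w i).1 x - (w j).1 x) :=
      mul_le_mul_of_nonneg_right ((le_abs_self C').trans (by linarith)) h5
    linarith
  have hGm : ∀ k, MemLp (GS (w k)) 2 := fun k => (weq k).1.memG
  obtain ⟨G, hG, hGl⟩ := h1.completev (fun k => GS (w k)) hGm (by
    intro ε hε
    have hpos : 0 < |C'| + 1 := by positivity
    obtain ⟨N, hN⟩ := hcau (ε / (|C'| + 1)) (by positivity)
    refine ⟨N, fun i hi j hj => (hgr i j).trans_lt ?_⟩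
    have := hN i hi j hj
    rw [lt_div_iff₀ hpos] at this
    linarith)
  have hul1 : Tendsto (fun k => sq (fun x => (w (k + 1)).1 x - u x)) atTop (𝓝 0) :=
    (tendsto_add_atTop_iff_nat 1).mpr hul
  have hH1 : H1 u G := h1.closed u G (fun k => (w (k + 1)).1) (fun k => GS (w k))
    (fun k => (weq k).1) hu hG hul1 hGl
  have hstep : Tendsto (fun k => sq (fun x => (w (k + 1)).1 x - (w k).1 x)) atTop (𝓝 0) := by
    rw [Metric.tendsto_atTop]
    intro ε hε
    obtain ⟨N, hN⟩ := hcau ε hε
    refine ⟨N, fun k hk => ?_⟩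
    rw [Real.dist_eq, sub_zero, abs_of_nonneg (sq_nn _)]
    exact hN (k + 1) (hk.trans (Nat.le_succ k)) k hk
  have huz : ∀ᵐ x, x ∈ Z → u x = w₀ x := by
    obtain ⟨ns, -, hns⟩ := _root_.Pool.Agent.PFlow.PB.PXExi.exists_ae_sub u (fun k => (w (k + 1)).1) hu
      (fun k => (w (k + 1)).2) hul1
    filter_upwards [hns, ae_all_iff.2 fun k => (weq k).2.1] with x hx hxz hz
    refine tendsto_nhds_unique hx ?_
    refine tendsto_const_nhds.congr fun k => ?_
    exact (hxz (ns k) hz).symm
  refine ⟨u, G, ⟨hH1, huz, ?_⟩, ?_⟩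
  · intro φ Φ hφ hφz
    have L0 := L_nn hC
    -- the left-hand side
    have hleft : Tendsto (fun k => ∫ x, ⟪A x (GS (w k) x), Φ x⟫) atTop
        (𝓝 (∫ x, ⟪A x (G x), Φ x⟫)) := by
      refine int_lim _ _ (fun k x => L * ‖GS (w k) x - G x‖) (fun x => ‖Φ x‖) ?_ ?_ ?_ ?_ ?_ ?_
      · exact fun k => int_inner (memA hC (hGm k)) hφ.memG
      · exact int_inner (memA hC hG) hφ.memG
      · exact isqv hφ.memG
      · exact fun k => isq (((hGm k).sub hG).norm.const_mul L)
      · intro k x
        rw [← inner_sub_left]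
        refine (abs_real_inner_le_norm _ _).trans ?_
        exact mul_le_mul_of_nonneg_right (hC.lipA x _ _) (norm_nonneg _)
      · have h7 : ∀ k, ∫ x, (L * ‖GS (w k) x - G x‖) ^ 2 =
            L ^ 2 * sqv (fun x => GS (w k) x - G x) := by
          intro k
          unfold sqv
          rw [← integral_const_mul]
          refine integral_congr_ae (Eventually.of_forall fun x => ?_)
          simp only
          ring
        simp only [h7]
        have := hGl.const_mul (L ^ 2)
        rwa [mul_zero] at this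
    have hright : Tendsto (fun k => ∫ x, (B x (GS (w k) x)
          - m * ((w (k + 1)).1 x - (w k).1 x)) * φ x) atTop
        (𝓝 (∫ x, B x (G x) * φ x)) := by
      have mR : ∀ k, MemLp (fun x => B x (GS (w k) x)
          - m * ((w (k + 1)).1 x - (w k).1 x)) 2 := fun k =>
        (memB hC (hGm k)).sub (((w (k + 1)).2.sub (w k).2).const_mul m)
      have mR0 : MemLp (fun x => B x (G x)) 2 := memB hC hG
      have ma : ∀ k, MemLp (fun x => L * ‖GS (w k) x - G x‖ +
          m * |(w (k + 1)).1 x - (w k).1 x|) 2 := fun k =>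
        (((hGm k).sub hG).norm.const_mul L).add
          (((w (k + 1)).2.sub (w k).2).norm.const_mul m)
      refine int_lim _ _ (fun k x => L * ‖GS (w k) x - G x‖ +
          m * |(w (k + 1)).1 x - (w k).1 x|) (fun x => |φ x|) ?_ ?_ ?_ ?_ ?_ ?_
      · exact fun k => (mR k).integrable_mul hφ.memf
      · exact mR0.integrable_mul hφ.memf
      · exact isq hφ.memf.norm
      · exact fun k => isq (ma k)
      · intro k x
        rw [← sub_mul, abs_mul]
        refine mul_le_mul_of_nonneg_right ?_ (abs_nonneg _)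
        have e : B x (GS (w k) x)
            - m * ((w (k + 1)).1 x - (w k).1 x) - B x (G x) =
            (B x (GS (w k) x) - B x (G x)) -
              m * ((w (k + 1)).1 x - (w k).1 x) := by ring
        rw [e]
        refine (abs_sub _ _).trans (add_le_add ?_ ?_)
        · exact hC.lipB x _ _
        · rw [abs_mul, abs_of_nonneg hm0]
      · have hup : ∀ k, ∫ x, (L * ‖GS (w k) x - G x‖ +
            m * |(w (k + 1)).1 x - (w k).1 x|) ^ 2 ≤
            2 * L ^ 2 * sqv (fun x => GS (w k) x - G x) +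
              2 * m ^ 2 * sq (fun x => (w (k + 1)).1 x - (w k).1 x) := by
          intro k
          have i1 : Integrable fun x => 2 * L ^ 2 * ‖GS (w k) x - G x‖ ^ 2 :=
            (isqv ((hGm k).sub hG)).const_mul _
          have i3 : Integrable fun x => 2 * m ^ 2 * ((w (k + 1)).1 x - (w k).1 x) ^ 2 :=
            (isq ((w (k + 1)).2.sub (w k).2)).const_mul _
          have e : 2 * L ^ 2 * sqv (fun x => GS (w k) x - G x) +
              2 * m ^ 2 * sq (fun x => (w (k + 1)).1 x - (w k).1 x) =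
              ∫ x, (2 * L ^ 2 * ‖GS (w k) x - G x‖ ^ 2 +
                2 * m ^ 2 * ((w (k + 1)).1 x - (w k).1 x) ^ 2) := by
            rw [integral_add i1 i3, integral_const_mul, integral_const_mul]
            rfl
          rw [e]
          refine integral_mono (isq (ma k)) (i1.add i3) fun x => ?_
          simp only
          have q2 := sq_abs ((w (k + 1)).1 x - (w k).1 x)
          rw [← q2]
          nlinarith [sq_nonneg (L * ‖GS (w k) x - G x‖ - m * |(w (k + 1)).1 x - (w k).1 x|)]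
        have hz : Tendsto (fun k => 2 * L ^ 2 * sqv (fun x => GS (w k) x - G x) +
              2 * m ^ 2 * sq (fun x => (w (k + 1)).1 x - (w k).1 x)) atTop (𝓝 0) := by
          have := (hGl.const_mul (2 * L ^ 2)).add (hstep.const_mul (2 * m ^ 2))
          simpa using this
        exact squeeze_zero (fun k => integral_nonneg fun x => sq_nonneg _) hup hz
    refine tendsto_nhds_unique hleft ?_
    refine hright.congr fun k => ?_
    exact ((weq k).2.2 φ Φ hφ hφz).symm
  · -- the limit is between 0 and 1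
    have hq : ∀ k, ∀ᵐ x, max (u x - 1) 0 ^ 2 + max (-u x) 0 ^ 2 ≤ ((w k).1 x - u x) ^ 2 := by
      intro k
      filter_upwards [hnn k, hle1 k] with x hx0 hx1
      rcases le_total (u x) 0 with h | h
      · rw [max_eq_right (by linarith), max_eq_left (by linarith)]
        nlinarith
      · rcases le_total (u x) 1 with h' | h'
        · rw [max_eq_right (by linarith), max_eq_right (by linarith)]
          nlinarith [sq_nonneg ((w k).1 x - u x)]
        · rw [max_eq_left (by linarith), max_eq_right (by linarith)]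
          nlinarith
    have hqm : AEStronglyMeasurable (fun x => max (u x - 1) 0 ^ 2 + max (-u x) 0 ^ 2) volume := by
      have hum := hu.aestronglyMeasurable
      have g : Continuous fun t : ℝ => max (t - 1) 0 ^ 2 + max (-t) 0 ^ 2 := by fun_prop
      exact g.comp_aestronglyMeasurable hum
    have hqi : Integrable (fun x => max (u x - 1) 0 ^ 2 + max (-u x) 0 ^ 2) := by
      refine (isq ((w 0).2.sub hu)).mono' hqm ?_
      filter_upwards [hq 0] with x hx
      rw [Real.norm_of_nonneg (by positivity)]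
      exact hx
    have hq0 : ∫ x, (max (u x - 1) 0 ^ 2 + max (-u x) 0 ^ 2) = 0 := by
      refine le_antisymm ?_ (integral_nonneg fun x => by positivity)
      refine ge_of_tendsto hul (Eventually.of_forall fun k => ?_)
      exact integral_mono_ae hqi (isq ((w k).2.sub hu)) (hq k)
    have hq1 := (integral_eq_zero_iff_of_nonneg (fun x => by positivity) hqi).mp hq0
    filter_upwards [hq1] with x hx
    simp only [Pi.zero_apply] at hx
    have a1 : max (u x - 1) 0 ^ 2 = 0 := by
      have := sq_nonneg (max (u x - 1) 0)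
      have := sq_nonneg (max (-u x) 0)
      linarith
    have a2 : max (-u x) 0 ^ 2 = 0 := by
      have := sq_nonneg (max (u x - 1) 0)
      have := sq_nonneg (max (-u x) 0)
      linarith
    have b1 := le_max_left (u x - 1) 0
    have b2 := le_max_left (-u x) 0
    rw [pow_eq_zero_iff two_ne_zero] at a1 a2
    constructor
    · linarith
    · linarith

end Pool.Agent.PFlow.PB


end

section

/-!
# Module XJET: the surplus is a continuous function of the jets
-/

open MeasureTheory Filter Topology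
open scoped ContDiff

namespace Pool.Agent.PFlow

open Pool.Agent.PenroseSph

namespace XJET

/-- The jets. -/
abbrev Jt := Bil × (Fin 3 → Bil) × (Fin 3 → Fin 3 → Bil) × Bil × (Fin 3 → Bil)

/-- Inverse metric. -/
noncomputable def jiv (z : Jt) (i j : Fin 3) : ℝ := (z.1)⁻¹ i j

/-- Derivative of the inverse metric. -/
noncomputable def jdiv (z : Jt) (m i j : Fin 3) : ℝ :=
  -∑ b, (∑ a, jiv z i a * z.2.1 m a b) * jiv z b j

/-- Christoffel symbols with a lower index. -/
noncomputable def jlow (z : Jt) (i j l : Fin 3) : ℝ :=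
  z.2.1 i j l + z.2.1 j i l - z.2.1 l i j

/-- Derivatives of `jlow`. -/
noncomputable def jdlow (z : Jt) (m i j l : Fin 3) : ℝ :=
  z.2.2.1 m i j l + z.2.2.1 m j i l - z.2.2.1 m l i j

/-- Christoffel symbols. -/
noncomputable def jchr (z : Jt) (k i j : Fin 3) : ℝ :=
  (1 / 2) * ∑ l, jiv z k l * jlow z i j l

/-- Derivatives of Christoffel symbols. -/
noncomputable def jdchr (z : Jt) (m k i j : Fin 3) : ℝ :=
  (1 / 2) * ∑ l, (jiv z k l * jdlow z m i j l + jlow z i j l * jdiv z m k l)

/-- Ricci curvature. -/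
noncomputable def jric (z : Jt) (i j : Fin 3) : ℝ :=
  ∑ k, (jdchr z k k i j - jdchr z j k i k
    + ∑ l, (jchr z k k l * jchr z l i j - jchr z k j l * jchr z l i k))

/-- Scalar curvature. -/
noncomputable def jscal (z : Jt) : ℝ := ∑ i, ∑ j, jiv z i j * jric z i j

/-- Trace. -/
noncomputable def jtr (z : Jt) : ℝ := ∑ i, ∑ j, jiv z i j * z.2.2.2.1 i j

/-- Squared norm. -/
noncomputable def jnsq (z : Jt) : ℝ :=
  ∑ i, ∑ j, ∑ k, ∑ l, jiv z i k * jiv z j l * z.2.2.2.1 i j * z.2.2.2.1 k l

/-- Derivative of the trace. -/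
noncomputable def jdtr (z : Jt) (m : Fin 3) : ℝ :=
  ∑ i, ∑ j, (jiv z i j * z.2.2.2.2 m i j + z.2.2.2.1 i j * jdiv z m i j)

/-- The tensor `h - tr h g`. -/
noncomputable def jT (z : Jt) (i j : Fin 3) : ℝ := z.2.2.2.1 i j - jtr z * z.1 i j

/-- The derivative of the tensor `h - tr h g`. -/
noncomputable def jdT (z : Jt) (m i j : Fin 3) : ℝ :=
  z.2.2.2.2 m i j - (jtr z * z.2.1 m i j + z.1 i j * jdtr z m)

/-- Covariant derivative of `T`. -/
noncomputable def jcov (z : Jt) (k i j : Fin 3) : ℝ :=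
  jdT z k i j - ∑ l, (jchr z l k i * jT z l j + jchr z l k j * jT z i l)

/-- Momentum density. -/
noncomputable def jmom (z : Jt) (j : Fin 3) : ℝ := ∑ i, ∑ k, jiv z i k * jcov z k i j

/-- The surplus. -/
noncomputable def jsur (z : Jt) : ℝ :=
  (1 / 2) * (jscal z - jnsq z + jtr z ^ 2) -
    Real.sqrt (∑ i, ∑ j, jiv z i j * jmom z i * jmom z j)

/-! ### Continuity -/

section Cont

variable {z₀ : Jt} (h0 : z₀.1.det ≠ 0)

theorem ca_sum {F : Fin 3 → Jt → ℝ} {z₀ : Jt} (h : ∀ a, ContinuousAt (F a) z₀) :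
    ContinuousAt (fun z => ∑ a, F a z) z₀ :=
  tendsto_finset_sum _ fun a _ => h a

theorem ca_g (i j : Fin 3) : ContinuousAt (fun z : Jt => z.1 i j) z₀ := by
  have : Continuous (fun z : Jt => z.1 i j) := by fun_prop
  exact this.continuousAt

theorem ca_dg (m i j : Fin 3) : ContinuousAt (fun z : Jt => z.2.1 m i j) z₀ := by
  have : Continuous (fun z : Jt => z.2.1 m i j) := by fun_prop
  exact this.continuousAt

theorem ca_ddg (m n i j : Fin 3) : ContinuousAt (fun z : Jt => z.2.2.1 m n i j) z₀ := by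
  have : Continuous (fun z : Jt => z.2.2.1 m n i j) := by fun_prop
  exact this.continuousAt

theorem ca_h (i j : Fin 3) : ContinuousAt (fun z : Jt => z.2.2.2.1 i j) z₀ := by
  have : Continuous (fun z : Jt => z.2.2.2.1 i j) := by fun_prop
  exact this.continuousAt

theorem ca_dh (m i j : Fin 3) : ContinuousAt (fun z : Jt => z.2.2.2.2 m i j) z₀ := by
  have : Continuous (fun z : Jt => z.2.2.2.2 m i j) := by fun_prop
  exact this.continuousAt

include h0

theorem ca_iv (i j : Fin 3) : ContinuousAt (fun z => jiv z i j) z₀ := by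
  have h1 : (fun z : Jt => jiv z i j) = fun z => (z.1.det)⁻¹ * z.1.adjugate i j := by
    funext z
    unfold jiv
    rw [Matrix.inv_def, Ring.inverse_eq_inv', Matrix.smul_apply, smul_eq_mul]
  rw [h1]
  have h2 : Continuous (fun z : Jt => z.1.det) := continuous_fst.matrix_det
  have h3 : Continuous (fun z : Jt => z.1.adjugate) := continuous_fst.matrix_adjugate
  have h4 : Continuous (fun z : Jt => z.1.adjugate i j) :=
    (continuous_apply_apply i j).comp h3
  exact (h2.continuousAt.inv₀ h0).mul h4.continuousAt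

theorem ca_div (m i j : Fin 3) : ContinuousAt (fun z => jdiv z m i j) z₀ := by
  unfold jdiv
  exact (ca_sum fun b => (ca_sum fun a => (ca_iv h0 i a).mul (ca_dg m a b)).mul
    (ca_iv h0 b j)).neg

omit h0 in
theorem ca_low (i j l : Fin 3) : ContinuousAt (fun z => jlow z i j l) z₀ := by
  unfold jlow
  exact ((ca_dg i j l).add (ca_dg j i l)).sub (ca_dg l i j)

omit h0 in
theorem ca_dlow (m i j l : Fin 3) : ContinuousAt (fun z => jdlow z m i j l) z₀ := by
  unfold jdlow
  exact ((ca_ddg m i j l).add (ca_ddg m j i l)).sub (ca_ddg m l i j)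

theorem ca_chr (k i j : Fin 3) : ContinuousAt (fun z => jchr z k i j) z₀ := by
  unfold jchr
  exact continuousAt_const.mul (ca_sum fun l => (ca_iv h0 k l).mul (ca_low i j l))

theorem ca_dchr (m k i j : Fin 3) : ContinuousAt (fun z => jdchr z m k i j) z₀ := by
  unfold jdchr
  exact continuousAt_const.mul (ca_sum fun l => ((ca_iv h0 k l).mul (ca_dlow m i j l)).add
    ((ca_low i j l).mul (ca_div h0 m k l)))

theorem ca_ric (i j : Fin 3) : ContinuousAt (fun z => jric z i j) z₀ := by
  unfold jric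
  exact ca_sum fun k => ((ca_dchr h0 k k i j).sub (ca_dchr h0 j k i k)).add
    (ca_sum fun l => ((ca_chr h0 k k l).mul (ca_chr h0 l i j)).sub
      ((ca_chr h0 k j l).mul (ca_chr h0 l i k)))

theorem ca_scal : ContinuousAt jscal z₀ := by
  unfold jscal
  exact ca_sum fun i => ca_sum fun j => (ca_iv h0 i j).mul (ca_ric h0 i j)

theorem ca_tr : ContinuousAt jtr z₀ := by
  unfold jtr
  exact ca_sum fun i => ca_sum fun j => (ca_iv h0 i j).mul (ca_h i j)

theorem ca_nsq : ContinuousAt jnsq z₀ := by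
  unfold jnsq
  exact ca_sum fun i => ca_sum fun j => ca_sum fun k => ca_sum fun l =>
    (((ca_iv h0 i k).mul (ca_iv h0 j l)).mul (ca_h i j)).mul (ca_h k l)

theorem ca_dtr (m : Fin 3) : ContinuousAt (fun z => jdtr z m) z₀ := by
  unfold jdtr
  exact ca_sum fun i => ca_sum fun j => ((ca_iv h0 i j).mul (ca_dh m i j)).add
    ((ca_h i j).mul (ca_div h0 m i j))

theorem ca_T (i j : Fin 3) : ContinuousAt (fun z => jT z i j) z₀ := by
  unfold jT
  exact (ca_h i j).sub ((ca_tr h0).mul (ca_g i j))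

theorem ca_dT (m i j : Fin 3) : ContinuousAt (fun z => jdT z m i j) z₀ := by
  unfold jdT
  exact (ca_dh m i j).sub (((ca_tr h0).mul (ca_dg m i j)).add ((ca_g i j).mul (ca_dtr h0 m)))

theorem ca_cov (k i j : Fin 3) : ContinuousAt (fun z => jcov z k i j) z₀ := by
  unfold jcov
  exact (ca_dT h0 k i j).sub (ca_sum fun l => ((ca_chr h0 l k i).mul (ca_T h0 l j)).add
    ((ca_chr h0 l k j).mul (ca_T h0 i l)))

theorem ca_mom (j : Fin 3) : ContinuousAt (fun z => jmom z j) z₀ := by
  unfold jmom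
  exact ca_sum fun i => ca_sum fun k => (ca_iv h0 i k).mul (ca_cov h0 k i j)

theorem ca_sur : ContinuousAt jsur z₀ := by
  unfold jsur
  exact (continuousAt_const.mul (((ca_scal h0).sub (ca_nsq h0)).add ((ca_tr h0).pow 2))).sub
    (Real.continuous_sqrt.continuousAt.comp (ca_sum fun i => ca_sum fun j =>
      ((ca_iv h0 i j).mul (ca_mom h0 i)).mul (ca_mom h0 j)))

end Cont

/-! ### Calculus -/

theorem cd_pd {f : E3 → ℝ} {x : E3} (h : ContDiffAt ℝ ∞ f x) (i : Fin 3) :
    ContDiffAt ℝ ∞ (pd i f) x := by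
  have h1 : ContDiffAt ℝ ∞ (fderiv ℝ f) x := h.fderiv_right (m := ∞) (by simp)
  exact h1.clm_apply contDiffAt_const

theorem df {f : E3 → ℝ} {x : E3} (h : ContDiffAt ℝ ∞ f x) : DifferentiableAt ℝ f x :=
  h.differentiableAt (by simp)

/-- `f` is differentiable at `x` with `∂_l f = f'`. -/
structure HP (l : Fin 3) (f : E3 → ℝ) (f' : ℝ) (x : E3) : Prop where
  diff : DifferentiableAt ℝ f x
  val : pd l f x = f'

section HP

variable {l : Fin 3} {f g : E3 → ℝ} {f' g' : ℝ} {x : E3}

theorem HP.add (hf : HP l f f' x) (hg : HP l g g' x) :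
    HP l (fun y => f y + g y) (f' + g') x :=
  ⟨hf.diff.add hg.diff, by rw [pd_add hf.diff hg.diff, hf.val, hg.val]⟩

theorem HP.sub (hf : HP l f f' x) (hg : HP l g g' x) :
    HP l (fun y => f y - g y) (f' - g') x :=
  ⟨hf.diff.sub hg.diff, by rw [pd_sub hf.diff hg.diff, hf.val, hg.val]⟩

theorem HP.mul (hf : HP l f f' x) (hg : HP l g g' x) :
    HP l (fun y => f y * g y) (f x * g' + g x * f') x :=
  ⟨hf.diff.mul hg.diff, by rw [pd_mul hf.diff hg.diff, hf.val, hg.val]⟩

theorem HP.cmul (c : ℝ) (hf : HP l f f' x) : HP l (fun y => c * f y) (c * f') x :=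
  ⟨hf.diff.const_mul c, by rw [pd_const_mul c hf.diff, hf.val]⟩

theorem HP.sum {F : Fin 3 → E3 → ℝ} {F' : Fin 3 → ℝ} (h : ∀ a, HP l (F a) (F' a) x) :
    HP l (fun y => ∑ a, F a y) (∑ a, F' a) x := by
  refine ⟨DifferentiableAt.fun_sum fun a _ => (h a).diff, ?_⟩
  rw [pd_sum _ F fun a _ => (h a).diff]
  exact Finset.sum_congr rfl fun a _ => (h a).val

end HP

section Jet

variable {g k : TensorField} {x : E3} (hp : ∀ᶠ y in 𝓝 x, (g y).PosDef)
  (hg : ∀ i j, ContDiffAt ℝ ∞ (fun y => g y i j) x)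
  (hk : ∀ i j, ContDiffAt ℝ ∞ (fun y => k y i j) x)

/-- The jet of the data. -/
noncomputable def jet (g k : TensorField) (x : E3) : Jt :=
  (g x, fun m => Matrix.of fun i j => pd m (fun y => g y i j) x,
    fun m n => Matrix.of fun i j => pd m (pd n (fun y => g y i j)) x, k x,
    fun m => Matrix.of fun i j => pd m (fun y => k y i j) x)

include hp hg

theorem cd_iv (i j : Fin 3) : ContDiffAt ℝ ∞ (fun y => (g y)⁻¹ i j) x := by
  have hd0 : (g x).det ≠ 0 := hp.self_of_nhds.det_pos.ne'
  have hd : ContDiffAt ℝ ∞ (fun y => (g y).det) x := by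
    simp only [Matrix.det_fin_three]
    fun_prop
  have ha : ContDiffAt ℝ ∞ (fun y => (g y).adjugate i j) x := by
    simp only [Matrix.adjugate_fin_three]
    fin_cases i <;> fin_cases j <;>
      simp <;> fun_prop
  have h1 : (fun y => (g y)⁻¹ i j) = fun y => ((g y).det)⁻¹ * (g y).adjugate i j := by
    funext y
    rw [Matrix.inv_def, Ring.inverse_eq_inv', Matrix.smul_apply, smul_eq_mul]
  rw [h1]
  exact (hd.inv hd0).mul ha

theorem hp_iv (m i j : Fin 3) :
    HP m (fun y => (g y)⁻¹ i j) (jdiv (jet g k x) m i j) x := by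
  refine ⟨df (cd_iv hp hg i j), ?_⟩
  set E : Bil := Matrix.of fun i j => pd m (fun y => (g y)⁻¹ i j) x with hE
  set D : Bil := Matrix.of fun i j => pd m (fun y => g y i j) x with hD
  have hprod : g x * E + D * (g x)⁻¹ = 0 := by
    ext a j
    have h1 : HP m (fun y => ∑ b, g y a b * (g y)⁻¹ b j)
        (∑ b, (g x a b * E b j + (g x)⁻¹ b j * D a b)) x :=
      HP.sum fun b => HP.mul ⟨df (hg a b), rfl⟩ ⟨df (cd_iv hp hg b j), rfl⟩
    have h2 : (fun y => ∑ b, g y a b * (g y)⁻¹ b j) =ᶠ[𝓝 x] fun _ => (1 : Bil) a j := by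
      filter_upwards [hp] with y hy
      have : (g y * (g y)⁻¹) a j = (1 : Bil) a j := by
        rw [Matrix.mul_nonsing_inv _ (isUnit_iff_ne_zero.2 hy.det_pos.ne')]
      rw [← this, Matrix.mul_apply]
    have h3 : pd m (fun y => ∑ b, g y a b * (g y)⁻¹ b j) x = 0 := by
      rw [pd_congr h2, pd_const]
    rw [h1.val] at h3
    rw [Matrix.add_apply, Matrix.mul_apply, Matrix.mul_apply, Matrix.zero_apply, ← h3,
      ← Finset.sum_add_distrib]
    exact Finset.sum_congr rfl fun b _ => by ring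
  have hunit : IsUnit (g x).det := isUnit_iff_ne_zero.2 hp.self_of_nhds.det_pos.ne'
  have hEe : E = -((g x)⁻¹ * D * (g x)⁻¹) := by
    have h1 : (g x)⁻¹ * (g x * E + D * (g x)⁻¹) = 0 := by rw [hprod, Matrix.mul_zero]
    rw [Matrix.mul_add, ← Matrix.mul_assoc, Matrix.nonsing_inv_mul _ hunit, Matrix.one_mul,
      ← Matrix.mul_assoc] at h1
    exact eq_neg_of_add_eq_zero_left h1
  have h4 : pd m (fun y => (g y)⁻¹ i j) x = E i j := rfl
  rw [h4, hEe, Matrix.neg_apply, Matrix.mul_apply]
  unfold jdiv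
  congr 1

theorem hp_low (m i j l : Fin 3) :
    HP m (fun y => pd i (fun y => g y j l) y + pd j (fun y => g y i l) y
      - pd l (fun y => g y i j) y) (jdlow (jet g k x) m i j l) x :=
  HP.sub (HP.add ⟨df (cd_pd (hg j l) i), rfl⟩ ⟨df (cd_pd (hg i l) j), rfl⟩)
    ⟨df (cd_pd (hg i j) l), rfl⟩

theorem hp_chr (m c i j : Fin 3) :
    HP m (christoffel g c i j) (jdchr (jet g k x) m c i j) x := by
  have h : HP m (fun y => (1 / 2) * ∑ l, (g y)⁻¹ c l * (pd i (fun y => g y j l) y
      + pd j (fun y => g y i l) y - pd l (fun y => g y i j) y))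
      (jdchr (jet g k x) m c i j) x :=
    HP.cmul _ (HP.sum fun l => HP.mul (hp_iv hp hg m c l) (hp_low hp hg m i j l))
  exact h

omit hp hg in
theorem chr_eq (c i j : Fin 3) : christoffel g c i j x = jchr (jet g k x) c i j := rfl

theorem ric_eq (i j : Fin 3) : ricci g i j x = jric (jet g k x) i j := by
  unfold ricci jric
  refine Finset.sum_congr rfl fun c _ => ?_
  rw [(hp_chr (k := k) hp hg c c i j).val, (hp_chr (k := k) hp hg j c i c).val]
  rfl

theorem scal_eq : scalarCurvature g x = jscal (jet g k x) := by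
  unfold scalarCurvature jscal
  refine Finset.sum_congr rfl fun i _ => Finset.sum_congr rfl fun j _ => ?_
  rw [ric_eq (k := k) hp hg]
  rfl

include hk

theorem hp_tr (m : Fin 3) : HP m (traceWith g k) (jdtr (jet g k x) m) x := by
  have h : HP m (fun y => ∑ i, ∑ j, (g y)⁻¹ i j * k y i j) (jdtr (jet g k x) m) x :=
    HP.sum fun i => HP.sum fun j => HP.mul (hp_iv hp hg m i j) ⟨df (hk i j), rfl⟩
  exact h

theorem hp_T (m i j : Fin 3) :
    HP m (fun y => (k y - traceWith g k y • g y) i j) (jdT (jet g k x) m i j) x := by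
  have h : HP m (fun y => k y i j - traceWith g k y * g y i j) (jdT (jet g k x) m i j) x :=
    HP.sub ⟨df (hk i j), rfl⟩ (HP.mul (hp_tr hp hg hk m) ⟨df (hg i j), rfl⟩)
  exact h

theorem mom_eq (j : Fin 3) : momentumDensity g k j x = jmom (jet g k x) j := by
  unfold momentumDensity divergence jmom
  refine Finset.sum_congr rfl fun i _ => Finset.sum_congr rfl fun c _ => ?_
  unfold covDeriv
  rw [(hp_T hp hg hk c i j).val]
  rfl

theorem sur_eq : surplus g k x = jsur (jet g k x) := by
  unfold surplus energyDensity jlen ev jsur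
  rw [scal_eq (k := k) hp hg]
  simp only [mom_eq hp hg hk]
  rfl

end Jet

end XJET

/-- The surplus is a continuous function of the jets. -/
theorem XJET : Stmt_XJET := by
  refine ⟨XJET.jsur, fun z hz => (XJET.ca_sur hz).continuousWithinAt, ?_⟩
  intro g k x hp hg _ hk
  exact XJET.sur_eq hp hg hk

end Pool.Agent.PFlow


end
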