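import Mathlib
import Pool.Agent.PenroseM.C66

/-! Parts: PFlow.X.XEETA -/

section

/-!
# Module XEETA: the defect of the change of sign is small (exterior regions)
-/

open MeasureTheory Filter Topology
open scoped ContDiff ENNReal

namespace Pool.Agent.PFlow

open Pool.Agent.PenroseSph

namespace XEEtaAux

variable {g h : TensorField} {x : E3} {U : Set E3}

theorem contDiffAt_inv {M : E3 → Bil} {x : E3}
    (hM : ∀ i j, ContDiffAt ℝ ∞ (fun y => M y i j) x) (hdet : (M x).det ≠ 0)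
    (k l : Fin 3) : ContDiffAt ℝ ∞ (fun y => (M y)⁻¹ k l) x := by
  have hd : ContDiffAt ℝ ∞ (fun y => (M y).det) x := by
    simp only [Matrix.det_fin_three]
    fun_prop
  have ha : ContDiffAt ℝ ∞ (fun y => (M y).adjugate k l) x := by
    simp only [Matrix.adjugate_fin_three]
    fin_cases k <;> fin_cases l <;>
      simp <;> fun_prop
  have h1 : (fun y => (M y)⁻¹ k l) = fun y => ((M y).det)⁻¹ * (M y).adjugate k l := by
    funext y
    rw [Matrix.inv_def, Ring.inverse_eq_inv', Matrix.smul_apply, smul_eq_mul]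
  rw [h1]
  exact (hd.inv hdet).mul ha

theorem cd_inv (hU : IsOpen U) (hg : MetricOn U g) (hx : x ∈ U) (i j : Fin 3) :
    ContDiffAt ℝ ∞ (fun y => (g y)⁻¹ i j) x :=
  contDiffAt_inv (fun i j => (hg.smooth i j).contDiffAt (hU.mem_nhds hx))
    (hg.posDef x hx).det_pos.ne' i j

theorem cd_tr (hU : IsOpen U) (hg : MetricOn U g) (hh : TensorOn U h) (hx : x ∈ U) :
    ContDiffAt ℝ ∞ (fun y => trg g y (h y)) x := by
  unfold trg
  refine ContDiffAt.sum fun i _ => ContDiffAt.sum fun j _ => (cd_inv hU hg hx i j).mul ?_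
  exact (hh.smooth i j).contDiffAt (hU.mem_nhds hx)

theorem cont_pd {f : E3 → ℝ} (hf : ContDiffAt ℝ ∞ f x) (i : Fin 3) : ContinuousAt (pd i f) x := by
  have h1 : ContDiffAt ℝ 1 f x := hf.of_le (show ((1 : ℕ∞) : WithTop ℕ∞) ≤
    ((⊤ : ℕ∞) : WithTop ℕ∞) from WithTop.coe_le_coe.2 le_top)
  have h2 : ContDiffAt ℝ 0 (fderiv ℝ f) x := h1.fderiv_right (by norm_num)
  exact h2.continuousAt.clm_apply continuousAt_const

theorem cont_len (hU : IsOpen U) (hg : MetricOn U g) (hh : TensorOn U h) (hx : x ∈ U) :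
    ContinuousAt (fun y => len g y (grad (fun z => trg g z (h z)) y)) x := by
  unfold len
  refine ContinuousAt.sqrt ?_
  unfold ev
  refine tendsto_finsetSum _ fun i _ => tendsto_finsetSum _ fun j _ => ?_
  exact (((cd_inv hU hg hx i j).continuousAt).mul (cont_pd (cd_tr hU hg hh hx) i)).mul
    (cont_pd (cd_tr hU hg hh hx) j)

theorem cont_eEta (hU : IsOpen U) (hg : MetricOn U g) (hh : TensorOn U h) {η : ℝ} (hη : 0 < η)
    (hx : x ∈ U) : ContinuousAt (eEta η g h) x := by
  unfold eEta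
  have ht := (cd_tr hU hg hh hx).continuousAt
  have h1 : ContinuousAt (fun y => Real.sqrt (trg g y (h y) ^ 2 + η ^ 2)) x :=
    ((ht.pow 2).add continuousAt_const).sqrt
  have h2 : (Real.sqrt (trg g x (h x) ^ 2 + η ^ 2)) ^ 3 ≠ 0 := by
    have : 0 < trg g x (h x) ^ 2 + η ^ 2 := by positivity
    positivity
  exact continuousAt_const.add (((continuousAt_const.mul ht.abs).mul
    (cont_len hU hg hh hx)).div (h1.pow 3) h2)

theorem eEta_nonneg (η : ℝ) (x : E3) : 0 ≤ eEta η g h x := by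
  unfold eEta len
  positivity

theorem eEta_le {η : ℝ} (hη : 0 < η) (hη1 : η ≤ 1) (x : E3) :
    eEta η g h x ≤ 1 / 2 + 2 * len g x (grad (fun y => trg g y (h y)) x) := by
  unfold eEta
  set t := trg g x (h x)
  set D := len g x (grad (fun y => trg g y (h y)) x) with hD
  have hD0 : 0 ≤ D := by rw [hD]; unfold len; positivity
  have hpos : 0 < t ^ 2 + η ^ 2 := by positivity
  set s := Real.sqrt (t ^ 2 + η ^ 2) with hs
  have hs0 : 0 < s := Real.sqrt_pos.2 hpos
  have hss : s ^ 2 = t ^ 2 + η ^ 2 := Real.sq_sqrt hpos.le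
  have h1 : |t| ≤ s := by
    rw [hs]
    apply Real.abs_le_sqrt
    nlinarith [sq_nonneg η]
  have h2 : η ^ 2 ≤ s ^ 2 := by rw [hss]; nlinarith [sq_nonneg t]
  have h3 : η ^ 2 * |t| ≤ s ^ 3 := by
    calc η ^ 2 * |t| ≤ s ^ 2 * s := mul_le_mul h2 h1 (abs_nonneg _) (by positivity)
      _ = s ^ 3 := by ring
  have h4 : 2 * η ^ 2 * |t| * D / s ^ 3 ≤ 2 * D := by
    rw [div_le_iff₀ (by positivity)]
    have h5 := mul_le_mul_of_nonneg_right h3 hD0
    nlinarith
  have h5 : η ^ 2 / 2 ≤ 1 / 2 := by nlinarith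
  linarith

theorem tendsto_eEta (x : E3) :
    Tendsto (fun η : ℝ => eEta η g h x) (𝓝[>] 0) (𝓝 0) := by
  have h1 : ContinuousAt (fun η : ℝ => eEta η g h x) 0 := by
    unfold eEta
    by_cases ht : trg g x (h x) = 0
    · rw [ht]
      simp only [abs_zero, mul_zero, zero_mul, zero_div, add_zero]
      fun_prop
    · have h2 : (Real.sqrt (trg g x (h x) ^ 2 + (0 : ℝ) ^ 2)) ^ 3 ≠ 0 := by
        have : 0 < trg g x (h x) ^ 2 + (0 : ℝ) ^ 2 := by positivity
        positivity
      have h3 : ContinuousAt (fun η : ℝ => (Real.sqrt (trg g x (h x) ^ 2 + η ^ 2)) ^ 3) 0 := by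
        fun_prop
      have h4 : ContinuousAt (fun η : ℝ => 2 * η ^ 2 * |trg g x (h x)| *
          len g x (grad (fun y => trg g y (h y)) x)) 0 := by
        fun_prop
      have h5 : ContinuousAt (fun η : ℝ => η ^ 2 / 2) 0 := by fun_prop
      exact h5.add (h4.div h3 h2)
  have h2 : eEta 0 g h x = 0 := by
    unfold eEta
    simp
  have h3 := h1.tendsto
  simp only [h2] at h3
  exact h3.mono_left nhdsWithin_le_nhds

theorem isCompact_cAnn (a b : ℝ) : IsCompact (cAnn a b) := by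
  have h1 : cAnn a b = Metric.closedBall (0 : E3) b ∩ {x | a ≤ ‖x‖} := by
    ext x
    simp only [cAnn, Set.mem_setOf_eq, Set.mem_inter_iff, Metric.mem_closedBall, dist_zero_right]
    exact and_comm
  rw [h1]
  exact (isCompact_closedBall _ _).inter_right (isClosed_le continuous_const continuous_norm)

theorem isOpen_Outside (δ : ℝ) : IsOpen (Outside δ) :=
  isOpen_lt continuous_const continuous_norm

end XEEtaAux

open XEEtaAux in
theorem XEETA : Stmt_XEETA := by
  intro g k δ₀ hδ hg hk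
  have hU := isOpen_Outside δ₀
  refine ⟨fun η hη => ⟨fun x hx => (cont_eEta hU hg hk hη hx).continuousWithinAt,
    fun x _ => eEta_nonneg η x⟩, ?_⟩
  intro l q τ hq hτ
  have hK := isCompact_cAnn 1 l
  have hsub : ∀ x ∈ cAnn 1 l, x ∈ Outside δ₀ := by
    rintro x ⟨hx, -⟩
    show 1 - δ₀ < ‖x‖
    linarith
  have hcont : ContinuousOn (fun y => len g y (grad (fun z => trg g z (k z)) y)) (cAnn 1 l) :=
    fun x hx => (cont_len hU hg hk (hsub x hx)).continuousWithinAt
  obtain ⟨B, hB⟩ := hK.exists_bound_of_continuousOn hcont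
  have hbound : ∀ η : ℝ, 0 < η → η ≤ 1 → ∀ x ∈ cAnn 1 l,
      eEta η g k x ≤ 1 / 2 + 2 * |B| := by
    intro η h1 h2 x hx
    have h3 := eEta_le (g := g) (h := k) h1 h2 x
    have h4 := hB x hx
    rw [Real.norm_eq_abs] at h4
    have h5 := (le_abs_self _).trans (h4.trans (le_abs_self B))
    linarith
  have hev : ∀ᶠ η : ℝ in 𝓝[>] 0, 0 < η ∧ η ≤ 1 := by
    have h1 : Set.Ioc (0 : ℝ) 1 ∈ 𝓝[>] (0 : ℝ) := Ioc_mem_nhdsGT one_pos
    exact h1
  have hlim : Tendsto (fun η : ℝ => ∫ x in cAnn 1 l, eEta η g k x ^ q)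
      (𝓝[>] 0) (𝓝 (∫ x in cAnn 1 l, (0 : ℝ))) := by
    refine tendsto_integral_filter_of_dominated_convergence (fun _ => (1 / 2 + 2 * |B|) ^ q)
      ?_ ?_ ?_ ?_
    · filter_upwards [hev] with η hη
      have h2 : ContinuousOn (fun x => eEta η g k x ^ q) (cAnn 1 l) := by
        refine ContinuousOn.rpow_const
          (fun x hx => (cont_eEta hU hg hk hη.1 (hsub x hx)).continuousWithinAt) ?_
        intro x _
        right
        linarith
      exact h2.aestronglyMeasurable hK.measurableSet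
    · filter_upwards [hev] with η hη
      rw [ae_restrict_iff' hK.measurableSet]
      refine Eventually.of_forall fun x hx => ?_
      rw [Real.norm_eq_abs, abs_of_nonneg (Real.rpow_nonneg (eEta_nonneg _ x) _)]
      exact Real.rpow_le_rpow (eEta_nonneg _ x) (hbound η hη.1 hη.2 x hx) (by linarith)
    · have : IntegrableOn (fun _ : E3 => (1 / 2 + 2 * |B|) ^ q) (cAnn 1 l) volume :=
        integrableOn_const hK.measure_lt_top.ne
      exact this
    · refine Eventually.of_forall fun x => ?_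
      have h1 := (tendsto_eEta (g := g) (h := k) x).rpow_const (p := q) (Or.inr (by linarith))
      rw [Real.zero_rpow (by linarith)] at h1
      exact h1
  rw [integral_zero] at hlim
  have h1 : {η : ℝ | ∫ x in cAnn 1 l, eEta η g k x ^ q < τ} ∈ 𝓝[>] (0 : ℝ) :=
    hlim.eventually (gt_mem_nhds hτ)
  obtain ⟨η₀, h0, h2⟩ := mem_nhdsGT_iff_exists_Ioc_subset.1 h1
  refine ⟨η₀, h0, fun η hη hη' => ?_⟩
  have h3 : ∫ x in cAnn 1 l, eEta η g k x ^ q < τ := h2 ⟨hη, hη'⟩
  exact h3.le

end Pool.Agent.PFlow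


end
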