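import Mathlib
import Pool.Agent.PenroseM.C06
import Pool.Agent.PenroseM.C71

/-! Parts: PFlow.PX.Unif -/

section

/-!
# Block PX, module XUNIF: local bound in `H²`, uniform in `δ, κ`
-/

open MeasureTheory Filter Topology Set
open scoped ContDiff RealInnerProductSpace

namespace Pool.Agent.PFlow.PB

open Pool.Agent.PenroseSph Pool.Agent.PFlow

namespace PXUnif

/-- A cut-off function in an open set which is one on a neighbourhood of a compact set. -/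
lemma cut {K U : Set E3} (hK : IsCompact K) (hU : IsOpen U) (hKU : K ⊆ U) :
    ∃ (η : E3 → ℝ) (O : Set E3), Test η ∧ (∀ x, 0 ≤ η x ∧ η x ≤ 1) ∧ IsOpen O ∧ K ⊆ O ∧ O ⊆ U ∧
      tsupport η ⊆ U ∧ ∀ x ∈ O, η x = 1 := by
  obtain ⟨L, hL, hKL, hLU⟩ := exists_compact_between hK hU hKU
  obtain ⟨η, h1, h2, h3, h4⟩ := CCpt.cutoff hK.isClosed isOpen_interior hKL
  have h5 : tsupport η ⊆ L := h3.trans interior_subset
  refine ⟨η, {x | ∀ᶠ y in 𝓝 x, η y = 1} ∩ U, ⟨h1, ?_⟩, h4, ?_, ?_, inter_subset_right,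
    h5.trans hLU, ?_⟩
  · exact HasCompactSupport.of_support_subset_isCompact hL ((subset_tsupport η).trans h5)
  · exact isOpen_setOfPred_eventually_nhds.inter hU
  · exact fun x hx => ⟨h2 x hx, hKU hx⟩
  · exact fun x hx => hx.1.self_of_nhds

/-- `m ≤ a √m + b` gives a bound for `m`. -/
lemma quad {m a b : ℝ} (hm : 0 ≤ m) (h : m ≤ a * √m + b) : m ≤ a ^ 2 + 2 * b := by
  have hs : √m ^ 2 = m := Real.sq_sqrt hm
  nlinarith [sq_nonneg (a - √m)]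

lemma sqrt_le {m : ℝ} (hm : 0 ≤ m) : √m ≤ 1 + m := by
  nlinarith [Real.sq_sqrt hm, sq_nonneg (√m - 1), Real.sqrt_nonneg m]

/-- The numerical part. -/
lemma num {a b q s D P B V : ℝ} (ha : 0 ≤ a) (hD : 0 ≤ D) (hB : 0 ≤ B)
    (hs : s ≤ 2 * b + 2 * P ^ 2 * V) (hq : q ≤ D * (s + (b + V)))
    (hab : a ≤ 2 * q + 12 * P ^ 2 * (b + V)) (hba : b ≤ B * (1 + √a)) :
    ∃ T, T = (B * (6 * D + 12 * P ^ 2)) ^ 2 + 2 * (B * (6 * D + 12 * P ^ 2) +
      (2 * (D * ((2 * P ^ 2 + 1) * V)) + 12 * P ^ 2 * V)) ∧ a ≤ T ∧ b ≤ B * (2 + T) ∧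
      q ≤ D * (3 * (B * (2 + T)) + (2 * P ^ 2 + 1) * V) := by
  refine ⟨_, rfl, ?_⟩
  set β : ℝ := 2 * (D * ((2 * P ^ 2 + 1) * V)) + 12 * P ^ 2 * V with hβ
  set α : ℝ := 6 * D + 12 * P ^ 2 with hα
  have hα0 : 0 ≤ α := by positivity
  have hq2 : q ≤ D * (3 * b + (2 * P ^ 2 + 1) * V) := by
    refine hq.trans (mul_le_mul_of_nonneg_left ?_ hD)
    linarith
  have ha1 : a ≤ α * b + β := by
    have : 2 * q + 12 * P ^ 2 * (b + V) ≤ α * b + β := by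
      have e : α * b + β = 2 * (D * (3 * b + (2 * P ^ 2 + 1) * V)) + 12 * P ^ 2 * (b + V) := by
        rw [hα, hβ]; ring
      rw [e]
      linarith
    linarith
  have ha2 : a ≤ (B * α) * √a + (B * α + β) := by
    have := mul_le_mul_of_nonneg_left hba hα0
    calc a ≤ α * b + β := ha1
      _ ≤ α * (B * (1 + √a)) + β := by linarith
      _ = _ := by ring
  have ha3 := quad ha ha2
  have hb2 : b ≤ B * (2 + ((B * α) ^ 2 + 2 * (B * α + β))) := by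
    refine hba.trans (mul_le_mul_of_nonneg_left ?_ hB)
    have := sqrt_le ha
    linarith
  refine ⟨ha3, hb2, hq2.trans (mul_le_mul_of_nonneg_left ?_ hD)⟩
  linarith

/-- the covariant Hessian of the zero jet -/
lemma cHess_zero (g : TensorField) (x : E3) (W : E3) (N : Fin 3 → E3) (hW : W = 0)
    (hN : ∀ i, N i = 0) : cHess g x W (mt N) = 0 := by
  ext i j
  simp [cHess, mt, hW, hN]

lemma trg_zero (g : TensorField) (x : E3) : trg g x 0 = 0 := by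
  simp [trg]

lemma nsq_zero (g : TensorField) (x : E3) : nsq g x 0 = 0 := by
  simp [nsq]

/-- the indicator function of a compact set is integrable -/
lemma int_ind {K : Set E3} (hK : IsCompact K) :
    Integrable (K.indicator (fun _ => (1 : ℝ))) :=
  (integrable_indicator_iff hK.measurableSet).2
    (integrableOn_const (hs := hK.measure_lt_top.ne) (hC := by simp))

lemma ind_sq (K : Set E3) (x : E3) :
    K.indicator (fun _ => (1 : ℝ)) x ^ 2 = K.indicator (fun _ => (1 : ℝ)) x := by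
  by_cases h : x ∈ K <;> simp [h]

lemma ind_nonneg (K : Set E3) (x : E3) : 0 ≤ K.indicator (fun _ => (1 : ℝ)) x := by
  by_cases h : x ∈ K <;> simp [h]

/-- squares of three terms -/
lemma norm_sq_le {a b : E3} {d : ℝ} (h : ‖a - b‖ ≤ d) : ‖a‖ ^ 2 ≤ 2 * ‖b‖ ^ 2 + 2 * d ^ 2 := by
  have h1 : ‖a‖ ≤ ‖b‖ + d := by
    calc ‖a‖ = ‖b + (a - b)‖ := by congr 1; abel
      _ ≤ ‖b‖ + ‖a - b‖ := norm_add_le _ _
      _ ≤ ‖b‖ + d := by linarith
  have h2 : ‖a‖ ^ 2 ≤ (‖b‖ + d) ^ 2 := pow_le_pow_left₀ (norm_nonneg _) h1 2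
  nlinarith [sq_nonneg (‖b‖ - d)]

end PXUnif

open PXUnif in
/-- XUNIF: local bound in `H²`, uniform in `δ, κ`. -/
theorem xunif_thm (_h1 : API1) (hb : BRID) (hk : KCOR) (hh : XHTW) (hl : XLCG) (hn : XNDV)
    (hp : XPRD) (hw : XPTW) (hy : XBYP) (hc : XCRD) : XUNIF := by
  intro ε g h r U ζ hε hε1 hr hG hU hζ hζ1 hζU
  -- the constants
  obtain ⟨CK, hCK, hK⟩ := hk ε g h r hε hε1 hG
  obtain ⟨CP, hCP, hP⟩ := hp ζ hζ hζ1
  obtain ⟨CB, hCB, hB⟩ := hy ζ hζ hζ1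
  set C₁ : ℝ := CK + CP with hC₁
  obtain ⟨C₀, hC₀, hT⟩ := hw ε g h r hε hε1 hG C₁
  obtain ⟨CD, hD⟩ := hc (ε / 2) g h r (by linarith) (by linarith) hG C₀
  set K : Set E3 := tsupport ζ with hKdef
  have hKc : IsCompact K := hζ.cpt
  set χ : E3 → ℝ := K.indicator (fun _ => (1 : ℝ)) with hχ
  have hχi : Integrable χ := int_ind hKc
  have hχsq : ∀ x, χ x ^ 2 = χ x := ind_sq K
  have hχ0 : ∀ x, 0 ≤ χ x := ind_nonneg K
  have hχ1 : ∀ x ∈ K, χ x = 1 := fun x hx => by simp [hχ, hx]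
  have hχn : ∀ x, x ∉ K → χ x = 0 := fun x hx => by simp [hχ, hx]
  have hζn : ∀ x, x ∉ K → ζ x = 0 := fun x hx => image_eq_zero_of_notMem_tsupport hx
  have hζχ : ∀ x, ζ x ^ 2 ≤ χ x := by
    intro x
    by_cases hx : x ∈ K
    · rw [hχ1 x hx]
      have := hζ1 x
      nlinarith [this.1, this.2]
    · rw [hχn x hx, hζn x hx]
      norm_num
  set V : ℝ := ∫ x, χ x with hV
  have hV0 : 0 ≤ V := integral_nonneg hχ0
  set T : ℝ := (CB * (6 * |CD| + 12 * CP ^ 2)) ^ 2 + 2 * (CB * (6 * |CD| + 12 * CP ^ 2) +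
      (2 * (|CD| * ((2 * CP ^ 2 + 1) * V)) + 12 * CP ^ 2 * V)) with hTdef
  obtain ⟨η, O, hη, hη1, hO, hKO, hOU, hηU, hηO⟩ := cut hKc hU hζU
  refine ⟨4 * V + (2 * (CB * (2 + T)) + 2 * CP ^ 2 * V) +
    |CD| * (3 * (CB * (2 + T)) + (2 * CP ^ 2 + 1) * V), ?_⟩
  intro δ κ hδ hδ1 hκ hκ1 u G hS hu
  obtain ⟨c, L, hPC⟩ := hb.coef ε δ κ g h r hε hε1 hδ hκ hr hG
  obtain ⟨N, hN⟩ := hh _ _ c L r hPC U u G hU hS η hη hηU
  set w : E3 → ℝ := fun x => η x * u x with hw'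
  set W : E3 → E3 := fun x => η x • G x + u x • gr η x with hW'
  have hw2 : ∀ᵐ x, |w x| ≤ 2 := by
    filter_upwards [hu] with x hx
    rw [hw', abs_mul, abs_of_nonneg (hη1 x).1]
    calc η x * |u x| ≤ 1 * 2 := mul_le_mul (hη1 x).2 hx (abs_nonneg _) zero_le_one
      _ = 2 := one_mul 2
  -- the equation on `O`
  have hL : LSol (cA ε δ κ g) (cB ε δ g h) O w W :=
    hl _ _ c L r hPC U O u G w W hS hN.h1 hOU
      (Eventually.of_forall fun x hx => by simp only [hw', hηO x hx, one_mul])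
  have heq := hn _ _ c L r hPC O w W N hO hL hN
  -- the product
  obtain ⟨Z, P, hZ, hZb, hPb⟩ := hP w W N hN hw2
  have hfun : (fun x => ζ x ^ 2 * w x) = fun x => ζ x ^ 2 * u x := by
    funext x
    by_cases hx : x ∈ K
    · simp only [hw', hηO x (hKO hx), one_mul]
    · simp only [hζn x hx]
      ring
  rw [hfun] at hZ
  refine ⟨Z, P, hZ, ?_⟩
  -- integrability
  have mW : MemLp W 2 := hN.h1.memG
  have mN : ∀ i, MemLp (N i) 2 := fun i => (hN.h2 i).memG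
  have mP : ∀ i, MemLp (P i) 2 := fun i => (hZ.h2 i).memG
  have mZ : MemLp Z 2 := hZ.h1.memG
  have hζc : Continuous ζ := hζ.smooth.continuous
  have iW : Integrable fun x => ζ x ^ 2 * ‖W x‖ ^ 2 := by
    refine (int_sq W mW).bdd_mul (c := 1) (hζc.pow 2).aestronglyMeasurable
      (ae_of_all _ fun x => ?_)
    rw [Real.norm_of_nonneg (sq_nonneg _)]
    nlinarith [(hζ1 x).1, (hζ1 x).2]
  have iN : Integrable fun x => ζ x ^ 4 * ∑ i, ‖N i x‖ ^ 2 := by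
    refine (integrable_finsetSum _ fun i _ => int_sq (N i) (mN i)).bdd_mul (c := 1)
      (hζc.pow 4).aestronglyMeasurable (ae_of_all _ fun x => ?_)
    rw [Real.norm_of_nonneg (pow_nonneg (hζ1 x).1 4)]
    exact pow_le_one₀ (hζ1 x).1 (hζ1 x).2
  have iE : Integrable fun x => ζ x ^ 2 * ‖W x‖ ^ 2 + χ x := iW.add hχi
  set b : ℝ := ∫ x, ζ x ^ 2 * ‖W x‖ ^ 2 with hbdef
  set a : ℝ := ∫ x, ζ x ^ 4 * ∑ i, ‖N i x‖ ^ 2 with hadef
  have hb0 : 0 ≤ b := integral_nonneg fun x => by positivity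
  have ha0 : 0 ≤ a := integral_nonneg fun x =>
    mul_nonneg (pow_nonneg (hζ1 x).1 4) (Finset.sum_nonneg fun i _ => sq_nonneg _)
  have hEi : ∫ x, (ζ x ^ 2 * ‖W x‖ ^ 2 + χ x) = b + V := integral_add iW hχi
  -- the pointwise inequality
  have hpt : ∀ᵐ x, trg g x (cHess g x (Z x) (mt fun i => P i x)) ^ 2 ≤
      (1 - ε / 2) * nsq g x (cHess g x (Z x) (mt fun i => P i x)) +
        C₀ * (‖Z x‖ ^ 2 + (ζ x ^ 2 * ‖W x‖ ^ 2 + χ x)) := by
    filter_upwards [heq, hZb, hPb] with x h1 h2 h3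
    by_cases hx : x ∈ K
    · have h4 := h1 (hKO hx)
      rw [hb.op ε δ κ g h r hε hε1 hδ hκ hG x (W x) (fun i => N i x)] at h4
      have h5 : trg g x (cHess g x (W x) (mt fun i => N i x)) ^ 2 ≤
          (1 - ε) * nsq g x (cHess g x (W x) (mt fun i => N i x)) +
            CK * (‖W x‖ ^ 2 + (0 : ℝ) ^ 2 * (1 + ‖W x‖ ^ 2)) :=
        hK δ κ hδ hδ1 hκ hκ1 x (W x) (mt fun i => N i x) 0 h4
      have h6 : CK * (‖W x‖ ^ 2 + (0 : ℝ) ^ 2 * (1 + ‖W x‖ ^ 2)) ≤ C₁ * ‖W x‖ ^ 2 := by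
        have : CK * (‖W x‖ ^ 2 + (0 : ℝ) ^ 2 * (1 + ‖W x‖ ^ 2)) = CK * ‖W x‖ ^ 2 := by ring
        rw [this]
        exact mul_le_mul_of_nonneg_right (by rw [hC₁]; linarith) (sq_nonneg _)
      have h7 := hT x (ζ x) (χ x) (W x) (Z x) (fun i => N i x) (fun i => P i x) (hζ1 x).1
        (hζ1 x).2 (hχ0 x) (h5.trans (by linarith))
        (h2.trans (mul_le_mul_of_nonneg_right (by rw [hC₁]; linarith) (hχ0 x)))
        (fun i => (h3 i).trans (mul_le_mul_of_nonneg_right (by rw [hC₁]; linarith)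
          (add_nonneg (mul_nonneg (hζ1 x).1 (norm_nonneg _)) (hχ0 x))))
      rw [hχsq] at h7
      have h8 : C₀ * (ζ x ^ 2 * ‖W x‖ ^ 2 + χ x) ≤
          C₀ * (‖Z x‖ ^ 2 + (ζ x ^ 2 * ‖W x‖ ^ 2 + χ x)) :=
        mul_le_mul_of_nonneg_left (by linarith [sq_nonneg ‖Z x‖]) hC₀
      linarith
    · have e1 : χ x = 0 := hχn x hx
      have e2 : ζ x = 0 := hζn x hx
      have e3 : Z x = 0 := by
        have h4 : ‖Z x - ζ x ^ 2 • W x‖ ≤ CP * χ x := h2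
        rw [e1, e2] at h4
        simpa using h4
      have e4 : ∀ i, P i x = 0 := by
        intro i
        have h4 : ‖P i x - ζ x ^ 2 • N i x‖ ≤ CP * (ζ x * ‖W x‖ + χ x) := h3 i
        rw [e1, e2] at h4
        simpa using h4
      rw [cHess_zero g x (Z x) (fun i => P i x) e3 e4, trg_zero, nsq_zero, e1, e2, e3]
      simp
  -- the integrated Cordes inequality
  have hQ := hD (fun x => ζ x ^ 2 * u x) Z P (fun x => ζ x ^ 2 * ‖W x‖ ^ 2 + χ x) hZ iE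
    (ae_of_all _ fun x => add_nonneg (by positivity) (hχ0 x)) hpt
  rw [hEi] at hQ
  set Q : ℝ := ∑ i, sqv (P i) with hQdef
  have hsZ0 : 0 ≤ sqv Z := sqv_nonneg' Z
  have hQ' : Q ≤ |CD| * (sqv Z + (b + V)) :=
    hQ.trans (mul_le_mul_of_nonneg_right (le_abs_self _) (by linarith))
  -- the bound of `Z`
  have hsZ : sqv Z ≤ 2 * b + 2 * CP ^ 2 * V := by
    have e : ∫ x, (2 * (ζ x ^ 2 * ‖W x‖ ^ 2) + 2 * CP ^ 2 * χ x) = 2 * b + 2 * CP ^ 2 * V := by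
      rw [integral_add (iW.const_mul _) (hχi.const_mul _), integral_const_mul,
        integral_const_mul]
    rw [← e]
    unfold sqv
    refine integral_mono_ae (int_sq Z mZ) ((iW.const_mul _).add (hχi.const_mul _)) ?_
    filter_upwards [hZb] with x h2
    have h3 := norm_sq_le h2
    have h4 : ‖ζ x ^ 2 • W x‖ ^ 2 ≤ ζ x ^ 2 * ‖W x‖ ^ 2 := by
      rw [norm_smul, Real.norm_of_nonneg (sq_nonneg _), mul_pow]
      refine mul_le_mul_of_nonneg_right ?_ (sq_nonneg _)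
      have h5 : ζ x ^ 2 ≤ 1 := pow_le_one₀ (hζ1 x).1 (hζ1 x).2
      nlinarith [sq_nonneg (ζ x)]
    have h6 : (CP * χ x) ^ 2 = CP ^ 2 * χ x := by rw [mul_pow, hχsq]
    show ‖Z x‖ ^ 2 ≤ 2 * (ζ x ^ 2 * ‖W x‖ ^ 2) + 2 * CP ^ 2 * χ x
    have h7 : ‖Z x‖ ^ 2 ≤ 2 * ‖ζ x ^ 2 • W x‖ ^ 2 + 2 * (CP * χ x) ^ 2 := h3
    rw [h6] at h7
    linarith
  -- the bound of `N`
  have hab : a ≤ 2 * Q + 12 * CP ^ 2 * (b + V) := by
    have iPs : Integrable fun x => ∑ i, ‖P i x‖ ^ 2 :=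
      integrable_finsetSum _ fun i _ => int_sq (P i) (mP i)
    have e : ∫ x, (2 * (∑ i, ‖P i x‖ ^ 2) + 12 * CP ^ 2 * (ζ x ^ 2 * ‖W x‖ ^ 2 + χ x)) =
        2 * Q + 12 * CP ^ 2 * (b + V) := by
      rw [integral_add (iPs.const_mul _) (iE.const_mul _), integral_const_mul,
        integral_const_mul, hEi, integral_finsetSum _ fun i _ => int_sq (P i) (mP i)]
      rfl
    rw [← e]
    refine integral_mono_ae iN ((iPs.const_mul _).add (iE.const_mul _)) ?_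
    filter_upwards [hPb] with x h3
    show ζ x ^ 4 * ∑ i, ‖N i x‖ ^ 2 ≤
      2 * (∑ i, ‖P i x‖ ^ 2) + 12 * CP ^ 2 * (ζ x ^ 2 * ‖W x‖ ^ 2 + χ x)
    have hi : ∀ i, ζ x ^ 4 * ‖N i x‖ ^ 2 ≤
        2 * ‖P i x‖ ^ 2 + 4 * CP ^ 2 * (ζ x ^ 2 * ‖W x‖ ^ 2 + χ x) := by
      intro i
      have h4 : ‖ζ x ^ 2 • N i x - P i x‖ ≤ CP * (ζ x * ‖W x‖ + χ x) := by
        rw [norm_sub_rev]
        exact h3 i
      have h5 := norm_sq_le h4
      have h6 : ‖ζ x ^ 2 • N i x‖ ^ 2 = ζ x ^ 4 * ‖N i x‖ ^ 2 := by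
        rw [norm_smul, Real.norm_of_nonneg (sq_nonneg _), mul_pow]
        ring
      rw [h6] at h5
      have h7 : (CP * (ζ x * ‖W x‖ + χ x)) ^ 2 ≤
          2 * CP ^ 2 * (ζ x ^ 2 * ‖W x‖ ^ 2 + χ x) := by
        have h8 : (ζ x * ‖W x‖ + χ x) ^ 2 ≤ 2 * (ζ x ^ 2 * ‖W x‖ ^ 2 + χ x) := by
          have := hχsq x
          nlinarith [sq_nonneg (ζ x * ‖W x‖ - χ x)]
        calc (CP * (ζ x * ‖W x‖ + χ x)) ^ 2 = CP ^ 2 * (ζ x * ‖W x‖ + χ x) ^ 2 := by ring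
          _ ≤ CP ^ 2 * (2 * (ζ x ^ 2 * ‖W x‖ ^ 2 + χ x)) :=
              mul_le_mul_of_nonneg_left h8 (sq_nonneg _)
          _ = _ := by ring
      linarith
    have h9 : ∑ i, ζ x ^ 4 * ‖N i x‖ ^ 2 ≤
        ∑ i : Fin 3, (2 * ‖P i x‖ ^ 2 + 4 * CP ^ 2 * (ζ x ^ 2 * ‖W x‖ ^ 2 + χ x)) :=
      Finset.sum_le_sum fun i _ => hi i
    rw [← Finset.mul_sum, Finset.sum_add_distrib, ← Finset.mul_sum, Finset.sum_const,
      Finset.card_univ, Fintype.card_fin, nsmul_eq_mul] at h9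
    push_cast at h9
    linarith
  have hba : b ≤ CB * (1 + √a) := hB w W N hN hw2
  obtain ⟨T', hT', -, hbT, hqT⟩ := num ha0 (abs_nonneg CD) hCB hsZ hQ' hab hba
  rw [← hTdef] at hT'
  rw [hT'] at hbT hqT
  -- the bound of the function
  have hsu : sq (fun x => ζ x ^ 2 * u x) ≤ 4 * V := by
    have e : ∫ x, 4 * χ x = 4 * V := integral_const_mul _ _
    rw [← e]
    unfold sq
    refine integral_mono_ae hZ.h1.memf.integrable_sq (hχi.const_mul _) ?_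
    filter_upwards [hu] with x hx
    show (ζ x ^ 2 * u x) ^ 2 ≤ 4 * χ x
    have h2 : u x ^ 2 ≤ 4 := by
      have := abs_le.1 hx
      nlinarith [this.1, this.2]
    have h3 : (ζ x ^ 2) ^ 2 ≤ χ x := by
      have h5 : ζ x ^ 2 ≤ 1 := pow_le_one₀ (hζ1 x).1 (hζ1 x).2
      nlinarith [sq_nonneg (ζ x), hζχ x]
    calc (ζ x ^ 2 * u x) ^ 2 = (ζ x ^ 2) ^ 2 * u x ^ 2 := by ring
      _ ≤ χ x * 4 := mul_le_mul h3 h2 (sq_nonneg _) (hχ0 x)
      _ = 4 * χ x := by ring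
  have hZf : sqv Z ≤ 2 * (CB * (2 + T)) + 2 * CP ^ 2 * V := by linarith
  linarith

end Pool.Agent.PFlow.PB


end
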