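import Mathlib
import Pool.Agent.PenroseM.C51
import Pool.Agent.PenroseM.C71

/-! Parts: PFlow.PX.Ptw -/

section

/-!
# Block PX, module XPTW: the pointwise Cordes inequality for the product
-/

open MeasureTheory Filter Topology Set
open scoped ContDiff RealInnerProductSpace

namespace Pool.Agent.PFlow.PB

open Pool.Agent.PenroseSph Pool.Agent.PFlow

namespace PXPtw

lemma trg_add (g : TensorField) (x : E3) (A B : Bil) :
    trg g x (A + B) = trg g x A + trg g x B := by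
  simp only [trg, Matrix.add_apply, mul_add, Finset.sum_add_distrib]

lemma trg_smul (g : TensorField) (x : E3) (c : ℝ) (A : Bil) :
    trg g x (c • A) = c * trg g x A := by
  simp only [trg, Matrix.smul_apply, smul_eq_mul, Finset.mul_sum]
  refine Finset.sum_congr rfl fun i _ => Finset.sum_congr rfl fun j _ => ?_
  ring

lemma nsq_smul (g : TensorField) (x : E3) (c : ℝ) (A : Bil) :
    nsq g x (c • A) = c ^ 2 * nsq g x A := by
  simp only [nsq, Matrix.smul_apply, smul_eq_mul, Finset.mul_sum]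
  refine Finset.sum_congr rfl fun i _ => Finset.sum_congr rfl fun j _ =>
    Finset.sum_congr rfl fun k _ => Finset.sum_congr rfl fun l _ => ?_
  ring

lemma nsq_neg (g : TensorField) (x : E3) (A : Bil) : nsq g x (-A) = nsq g x A := by
  have h := nsq_smul g x (-1) A
  rw [neg_one_smul] at h
  rw [h]
  ring

/-- the remainder -/
noncomputable def RR (g : TensorField) (x : E3) (t : ℝ) (W Z : E3) (N P : Fin 3 → E3) : Bil :=
  cHess g x (Z - t ^ 2 • W : E3) (mt fun i => P i - t ^ 2 • N i)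

lemma split (g : TensorField) (x : E3) (t : ℝ) (W Z : E3) (N P : Fin 3 → E3) :
    cHess g x Z (mt P) = t ^ 2 • cHess g x W (mt N) + RR g x t W Z N P := by
  ext i j
  simp only [RR, cHess, mt, Matrix.of_apply, Matrix.add_apply, Matrix.smul_apply, smul_eq_mul,
    PiLp.sub_apply, PiLp.smul_apply, Fin.sum_univ_three]
  ring

lemma entry {g h : TensorField} {C : ℝ} (hb : GBound g h C) (x : E3) {t χ C₁ : ℝ} {W Z : E3}
    {N P : Fin 3 → E3} (hZ : ‖Z - t ^ 2 • W‖ ≤ C₁ * χ)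
    (hP : ∀ i, ‖P i - t ^ 2 • N i‖ ≤ C₁ * (t * ‖W‖ + χ)) (i j : Fin 3) :
    |RR g x t W Z N P i j| ≤ C₁ * (t * ‖W‖ + χ) + 3 * (C * (C₁ * χ)) := by
  have hC0 : 0 ≤ C := zero_le_one.trans hb.one
  have h1 : |(P i - t ^ 2 • N i) j| ≤ C₁ * (t * ‖W‖ + χ) :=
    (CordI.abs_apply_le _ _).trans (hP i)
  have h2 : |∑ k, christoffel g k i j x * (Z - t ^ 2 • W) k| ≤ 3 * (C * (C₁ * χ)) := by
    refine (Finset.abs_sum_le_sum_abs _ _).trans ?_
    calc ∑ k, |christoffel g k i j x * (Z - t ^ 2 • W) k| ≤ ∑ _k : Fin 3, C * (C₁ * χ) := by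
          refine Finset.sum_le_sum fun k _ => ?_
          rw [abs_mul]
          exact mul_le_mul (hb.chr x k i j) ((CordI.abs_apply_le _ _).trans hZ) (abs_nonneg _) hC0
      _ = 3 * (C * (C₁ * χ)) := by simp
  have h3 : RR g x t W Z N P i j = (P i - t ^ 2 • N i) j -
      ∑ k, christoffel g k i j x * (Z - t ^ 2 • W) k := rfl
  rw [h3]
  exact (abs_sub _ _).trans (add_le_add h1 h2)

lemma nsq_le {g h : TensorField} {C : ℝ} (hb : GBound g h C) (x : E3) (A : Bil) {ρ : ℝ}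
    (hA : ∀ i j, |A i j| ≤ ρ) : nsq g x A ≤ 9 * C * ρ ^ 2 := by
  have hC0 : 0 ≤ C := zero_le_one.trans hb.one
  refine (hb.nsqUp x A).trans ?_
  have h1 : ∑ i, ∑ j, A i j ^ 2 ≤ ∑ _i : Fin 3, ∑ _j : Fin 3, ρ ^ 2 :=
    Finset.sum_le_sum fun i _ => Finset.sum_le_sum fun j _ =>
      sq_le_sq' (by linarith [neg_abs_le (A i j), hA i j]) ((le_abs_self _).trans (hA i j))
  have h2 : ∑ _i : Fin 3, ∑ _j : Fin 3, ρ ^ 2 = 9 * ρ ^ 2 := by
    simp
    ring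
  rw [h2] at h1
  calc C * ∑ i, ∑ j, A i j ^ 2 ≤ C * (9 * ρ ^ 2) := mul_le_mul_of_nonneg_left h1 hC0
    _ = _ := by ring

lemma trg_le {g h : TensorField} {C : ℝ} (hb : GBound g h C) (x : E3) (A : Bil) {ρ : ℝ}
    (hA : ∀ i j, |A i j| ≤ ρ) : trg g x A ^ 2 ≤ 81 * C ^ 2 * ρ ^ 2 := by
  have hC0 : 0 ≤ C := zero_le_one.trans hb.one
  have h1 : |trg g x A| ≤ 9 * C * ρ := by
    refine (hb.tr x A).trans ?_
    have h2 : ∑ i, ∑ j, |A i j| ≤ ∑ _i : Fin 3, ∑ _j : Fin 3, ρ :=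
      Finset.sum_le_sum fun i _ => Finset.sum_le_sum fun j _ => hA i j
    have h3 : ∑ _i : Fin 3, ∑ _j : Fin 3, ρ = 9 * ρ := by
      simp
      ring
    rw [h3] at h2
    calc C * ∑ i, ∑ j, |A i j| ≤ C * (9 * ρ) := mul_le_mul_of_nonneg_left h2 hC0
      _ = _ := by ring
  have h4 : trg g x A ^ 2 ≤ (9 * C * ρ) ^ 2 :=
    sq_le_sq' (by linarith [neg_abs_le (trg g x A)]) ((le_abs_self _).trans h1)
  calc trg g x A ^ 2 ≤ (9 * C * ρ) ^ 2 := h4
    _ = _ := by ring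

end PXPtw

open PXPtw CordI in
/-- XPTW: the pointwise Cordes inequality for the product. -/
theorem xptw_thm (hb : KBND) (ht : KTN) : XPTW := by
  intro ε g h r hε hε1 hg C₁
  obtain ⟨C, hC⟩ := hb g h r hg
  have hC1 : 1 ≤ C := hC.one
  have hC0 : 0 < C := by linarith
  set K : ℝ := |C₁| * (1 + 3 * C) with hK
  have hK0 : 0 ≤ K := by positivity
  set C₀ : ℝ := (1 + ε / 4) * ((1 + 4 / ε) * (9 * C * (2 * K ^ 2))) + (1 + ε / 4) * |C₁| +
    (1 + 4 / ε) * (81 * C ^ 2 * (2 * K ^ 2)) with hC₀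
  refine ⟨C₀, by positivity, ?_⟩
  intro x t χ W Z N P h0 h1 hχ hH hZ hP
  have hn : ∀ A : Bil, 0 ≤ nsq g x A := fun A =>
    (ht g x (hg.met.posDef x (Set.mem_univ x)) 0).2.2.2.2.2.2.1 A
  have hW0 : 0 ≤ ‖W‖ := norm_nonneg _
  have hZ' : ‖Z - t ^ 2 • W‖ ≤ |C₁| * χ :=
    hZ.trans (mul_le_mul_of_nonneg_right (le_abs_self _) hχ)
  have hP' : ∀ i, ‖P i - t ^ 2 • N i‖ ≤ |C₁| * (t * ‖W‖ + χ) := fun i =>
    (hP i).trans (mul_le_mul_of_nonneg_right (le_abs_self _) (by positivity))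
  set E : ℝ := t ^ 2 * ‖W‖ ^ 2 + χ ^ 2 with hE
  have hE0 : 0 ≤ E := by positivity
  set ρ : ℝ := K * (t * ‖W‖ + χ) with hρ
  have hρ2 : ρ ^ 2 ≤ 2 * K ^ 2 * E := by
    have e1 : (t * ‖W‖ + χ) ^ 2 ≤ 2 * E := by
      rw [hE]
      nlinarith [sq_nonneg (t * ‖W‖ - χ)]
    calc ρ ^ 2 = K ^ 2 * (t * ‖W‖ + χ) ^ 2 := by rw [hρ]; ring
      _ ≤ K ^ 2 * (2 * E) := mul_le_mul_of_nonneg_left e1 (sq_nonneg _)
      _ = _ := by ring
  set H : Bil := cHess g x W (mt N) with hHd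
  set H' : Bil := cHess g x Z (mt P) with hHd'
  set R : Bil := RR g x t W Z N P with hR
  have hsplit : H' = t ^ 2 • H + R := split g x t W Z N P
  have hRe : ∀ i j, |R i j| ≤ ρ := by
    intro i j
    refine (entry hC x hZ' hP' i j).trans ?_
    rw [hρ, hK]
    have e1 : 0 ≤ |C₁| * (3 * C) * (t * ‖W‖) := by positivity
    nlinarith
  have hRn : nsq g x R ≤ 9 * C * (2 * K ^ 2) * E := by
    refine (nsq_le hC x R hRe).trans ?_
    calc 9 * C * ρ ^ 2 ≤ 9 * C * (2 * K ^ 2 * E) := mul_le_mul_of_nonneg_left hρ2 (by positivity)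
      _ = _ := by ring
  have hRt : trg g x R ^ 2 ≤ 81 * C ^ 2 * (2 * K ^ 2) * E := by
    refine (trg_le hC x R hRe).trans ?_
    calc 81 * C ^ 2 * ρ ^ 2 ≤ 81 * C ^ 2 * (2 * K ^ 2 * E) :=
          mul_le_mul_of_nonneg_left hρ2 (by positivity)
      _ = _ := by ring
  -- Young
  set s : ℝ := √ε / 2 with hs
  have hs0 : 0 < s := by
    have := Real.sqrt_pos.2 hε
    positivity
  have hs2 : s ^ 2 = ε / 4 := by
    rw [hs, div_pow, Real.sq_sqrt hε.le]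
    norm_num
  have hs3 : (s ^ 2)⁻¹ = 4 / ε := by
    rw [hs2, inv_div]
  have hy1 := nsq_young g x hn H' (-R) hs0
  have e0 : H' + -R = t ^ 2 • H := by rw [hsplit]; abel
  rw [e0, nsq_smul, nsq_neg, hs3, hs2] at hy1
  have hy2 := sq_young (t ^ 2 * trg g x H) (-trg g x R) hs0
  have e1 : t ^ 2 * trg g x H - -trg g x R = trg g x H' := by
    rw [hsplit, trg_add, trg_smul]
    ring
  have e2 : (-trg g x R) ^ 2 = trg g x R ^ 2 := by ring
  rw [e1, e2, hs3, hs2] at hy2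
  -- the hypothesis, multiplied by `t ^ 4`
  have e3 : (t ^ 2 * trg g x H) ^ 2 ≤ (1 - ε) * ((t ^ 2) ^ 2 * nsq g x H) + |C₁| * E := by
    have f1 := mul_le_mul_of_nonneg_left hH (by positivity : 0 ≤ t ^ 4)
    have f2 : t ^ 4 * (C₁ * ‖W‖ ^ 2) ≤ |C₁| * E := by
      have f3 : C₁ * ‖W‖ ^ 2 ≤ |C₁| * ‖W‖ ^ 2 :=
        mul_le_mul_of_nonneg_right (le_abs_self _) (by positivity)
      have f4 : t ^ 4 ≤ t ^ 2 := pow_le_pow_of_le_one h0 h1 (by norm_num)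
      calc t ^ 4 * (C₁ * ‖W‖ ^ 2) ≤ t ^ 4 * (|C₁| * ‖W‖ ^ 2) :=
            mul_le_mul_of_nonneg_left f3 (by positivity)
        _ ≤ t ^ 2 * (|C₁| * ‖W‖ ^ 2) := mul_le_mul_of_nonneg_right f4 (by positivity)
        _ = |C₁| * (t ^ 2 * ‖W‖ ^ 2) := by ring
        _ ≤ |C₁| * E := mul_le_mul_of_nonneg_left (by rw [hE]; nlinarith [sq_nonneg χ])
            (abs_nonneg _)
    calc (t ^ 2 * trg g x H) ^ 2 = t ^ 4 * trg g x H ^ 2 := by ring
      _ ≤ t ^ 4 * ((1 - ε) * nsq g x H + C₁ * ‖W‖ ^ 2) := f1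
      _ = (1 - ε) * ((t ^ 2) ^ 2 * nsq g x H) + t ^ 4 * (C₁ * ‖W‖ ^ 2) := by ring
      _ ≤ _ := by linarith
  have h4ε : 0 < 1 + 4 / ε := by positivity
  have e4 : (1 - ε) * ((t ^ 2) ^ 2 * nsq g x H) ≤ (1 - ε) * ((1 + ε / 4) * nsq g x H') +
      (1 + 4 / ε) * (9 * C * (2 * K ^ 2)) * E := by
    have f1 : (1 - ε) * ((t ^ 2) ^ 2 * nsq g x H) ≤ (1 - ε) * ((1 + ε / 4) * nsq g x H' +
        (1 + 4 / ε) * nsq g x R) := mul_le_mul_of_nonneg_left hy1 (by linarith)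
    have f2 : (1 - ε) * ((1 + 4 / ε) * nsq g x R) ≤ (1 + 4 / ε) * (9 * C * (2 * K ^ 2)) * E := by
      calc (1 - ε) * ((1 + 4 / ε) * nsq g x R) ≤ 1 * ((1 + 4 / ε) * nsq g x R) :=
            mul_le_mul_of_nonneg_right (by linarith) (mul_nonneg h4ε.le (hn R))
        _ = (1 + 4 / ε) * nsq g x R := one_mul _
        _ ≤ (1 + 4 / ε) * (9 * C * (2 * K ^ 2) * E) := mul_le_mul_of_nonneg_left hRn h4ε.le
        _ = _ := by ring
    linarith
  have e5 : (1 + ε / 4) * (t ^ 2 * trg g x H) ^ 2 ≤ (1 + ε / 4) *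
      ((1 - ε) * ((1 + ε / 4) * nsq g x H') + (1 + 4 / ε) * (9 * C * (2 * K ^ 2)) * E +
        |C₁| * E) := mul_le_mul_of_nonneg_left (by linarith) (by linarith)
  have e6 : (1 + 4 / ε) * trg g x R ^ 2 ≤ (1 + 4 / ε) * (81 * C ^ 2 * (2 * K ^ 2)) * E := by
    calc (1 + 4 / ε) * trg g x R ^ 2 ≤ (1 + 4 / ε) * (81 * C ^ 2 * (2 * K ^ 2) * E) :=
          mul_le_mul_of_nonneg_left hRt h4ε.le
      _ = _ := by ring
  have e7 : (1 + ε / 4) * ((1 - ε) * ((1 + ε / 4) * nsq g x H')) ≤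
      (1 - ε / 2) * nsq g x H' := by
    have f1 : (1 + ε / 4) * ((1 - ε) * (1 + ε / 4)) ≤ 1 - ε / 2 := by
      nlinarith [sq_nonneg ε, pow_pos hε 3]
    calc (1 + ε / 4) * ((1 - ε) * ((1 + ε / 4) * nsq g x H')) =
          (1 + ε / 4) * ((1 - ε) * (1 + ε / 4)) * nsq g x H' := by ring
      _ ≤ _ := mul_le_mul_of_nonneg_right f1 (hn H')
  have e8 : C₀ * E = (1 + ε / 4) * ((1 + 4 / ε) * (9 * C * (2 * K ^ 2)) * E + |C₁| * E) +
      (1 + 4 / ε) * (81 * C ^ 2 * (2 * K ^ 2)) * E := by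
    rw [hC₀]
    ring
  rw [e8]
  linarith

end Pool.Agent.PFlow.PB


end
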