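import Mathlib
import Pool.Agent.PenroseM.C71

/-! Parts: PFlow.PX.DQ -/

section

/-!
# Local difference quotients (module XDQ)
-/

open MeasureTheory Filter Topology Set
open scoped ContDiff RealInnerProductSpace

namespace Pool.Agent.PFlow.PB

open Pool.Agent.PenroseSph Pool.Agent.PFlow

namespace XDQm

theorem int_inner {F D : E3 → E3} (hF : MemLp F 2) (hD : MemLp D 2) :
    Integrable (fun x => ⟪F x, D x⟫) := by
  have h1 : Integrable (fun x => ‖F x‖ * ‖D x‖) := hF.norm.integrable_mul hD.norm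
  refine h1.mono' (hF.aestronglyMeasurable.inner hD.aestronglyMeasurable)
    (Eventually.of_forall fun x => ?_)
  exact norm_inner_le_norm _ _

theorem memLp_shift {E : Type*} [NormedAddCommGroup E] {F : E3 → E} (hF : MemLp F 2) (h : E3) :
    MemLp (fun x => F (x + h)) 2 :=
  hF.comp_measurePreserving (measurePreserving_add_right volume h)

theorem int_sq {F : E3 → E3} (hF : MemLp F 2) : Integrable (fun x => ‖F x‖ ^ 2) :=
  hF.integrable_norm_pow (by norm_num)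

theorem memLp_smul {ζ : E3 → ℝ} (hζ : Continuous ζ) {M : ℝ} (hM : ∀ x, |ζ x| ≤ M) {F : E3 → E3}
    (hF : MemLp F 2) : MemLp (fun x => ζ x • F x) 2 := by
  refine hF.of_le_mul (c := M) (hζ.aestronglyMeasurable.smul hF.aestronglyMeasurable)
    (Eventually.of_forall fun x => ?_)
  rw [norm_smul, Real.norm_eq_abs]
  exact mul_le_mul_of_nonneg_right (hM x) (norm_nonneg _)

/-- The pointwise lower bound. -/
theorem low_aux {c L M t a w dd : ℝ} {P Q W Z : E3} (hc : 0 < c) (hL : 0 ≤ L) (hM : 0 ≤ M)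
    (ha : 0 ≤ a) (ht : 0 ≤ t) (hw : w = ‖W‖)
    (hP : ‖P‖ ≤ M * L * t * a) (hQ : ‖Q‖ ≤ L * w) (hQW : c * w ^ 2 ≤ ⟪Q, W⟫)
    (hZ : ‖Z‖ ≤ M * dd) :
    c / 2 * w ^ 2 - (M ^ 2 * L ^ 2 / c + M ^ 2 * L ^ 2) * t ^ 2 * a ^ 2 -
      (M ^ 2 + 4 * L ^ 2 * M ^ 2 / c) * dd ^ 2 ≤ ⟪P + Q, W + (2 : ℝ) • Z⟫ := by
  have hw0 : 0 ≤ w := by rw [hw]; exact norm_nonneg _
  have e : ⟪P + Q, W + (2 : ℝ) • Z⟫ = ⟪P, W⟫ + ⟪Q, W⟫ + 2 * ⟪P, Z⟫ + 2 * ⟪Q, Z⟫ := by
    rw [inner_add_left, inner_add_right, inner_add_right, inner_smul_right, inner_smul_right]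
    ring
  have b1 : -(‖P‖ * ‖W‖) ≤ ⟪P, W⟫ := by
    have := neg_abs_le ⟪P, W⟫
    have h2 := abs_real_inner_le_norm P W
    linarith
  have b2 : -(‖P‖ * ‖Z‖) ≤ ⟪P, Z⟫ := by
    have := neg_abs_le ⟪P, Z⟫
    have h2 := abs_real_inner_le_norm P Z
    linarith
  have b3 : -(‖Q‖ * ‖Z‖) ≤ ⟪Q, Z⟫ := by
    have := neg_abs_le ⟪Q, Z⟫
    have h2 := abs_real_inner_le_norm Q Z
    linarith
  set p := M * L * t * a with hp
  have hp0 : 0 ≤ p := by positivity
  have c1 : ‖P‖ * ‖W‖ ≤ p * w := by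
    rw [← hw]
    exact mul_le_mul_of_nonneg_right hP hw0
  have c2 : ‖P‖ * ‖Z‖ ≤ p * (M * dd) := mul_le_mul hP hZ (norm_nonneg _) hp0
  have c3 : ‖Q‖ * ‖Z‖ ≤ (L * w) * (M * dd) := mul_le_mul hQ hZ (norm_nonneg _) (by positivity)
  have d1 : p * w ≤ c / 4 * w ^ 2 + p ^ 2 / c := by
    have q : 0 ≤ (p - c / 2 * w) ^ 2 / c := by positivity
    have q2 : (p - c / 2 * w) ^ 2 / c = p ^ 2 / c - p * w + c / 4 * w ^ 2 := by
      field_simp
      ring
    linarith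
  have d2 : 2 * (p * (M * dd)) ≤ p ^ 2 + M ^ 2 * dd ^ 2 := by
    nlinarith [sq_nonneg (p - M * dd)]
  have d3 : 2 * ((L * w) * (M * dd)) ≤ c / 4 * w ^ 2 + 4 * L ^ 2 * M ^ 2 / c * dd ^ 2 := by
    have q : 0 ≤ (c / 2 * w - 2 * (L * M * dd)) ^ 2 / c := by positivity
    have q2 : (c / 2 * w - 2 * (L * M * dd)) ^ 2 / c =
        c / 4 * w ^ 2 - 2 * ((L * w) * (M * dd)) + 4 * L ^ 2 * M ^ 2 / c * dd ^ 2 := by
      field_simp
      ring
    linarith
  have e2 : (M ^ 2 * L ^ 2 / c + M ^ 2 * L ^ 2) * t ^ 2 * a ^ 2 = p ^ 2 / c + p ^ 2 := by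
    rw [hp]
    field_simp
  rw [e, e2]
  linarith

/-- The local estimate. -/
theorem local_est (h1 : API1) (h2 : API2) {A : E3 → E3 → E3} {B : E3 → E3 → ℝ} {c L r : ℝ}
    (hC : PCoef A B c L r) {U : Set E3} {u : E3 → ℝ} {G : E3 → E3} (hU : LSol A B U u G)
    {ζ : E3 → ℝ} (hζ : Test ζ) {M : ℝ} (hM : 1 ≤ M) (hζM : ∀ x, |ζ x| ≤ M)
    (hgM : ∀ x, ‖gr ζ x‖ ≤ M) {h : E3} {K : Set E3} (hK : IsCompact K) (hKU : K ⊆ U)
    (hout : ∀ x, x ∉ K → ζ x = 0 ∧ ζ (x + -h) = 0) :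
    sqv (fun x => ζ x • (G (x + h) - G x)) ≤
      4 / c * ((M ^ 2 * L ^ 2 / c + M ^ 2 * L ^ 2) + (M ^ 2 + 4 * L ^ 2 * M ^ 2 / c) +
        2 * M ^ 2 * L ^ 2 / c + c * M ^ 2) * sqv G * ‖h‖ ^ 2 := by
  by_cases hh : h = 0
  · subst hh
    simp [sqv]
  have hc := hC.c_pos
  have hL : 0 < L := lt_of_lt_of_le hc hC.c_le
  have hM0 : 0 < M := by linarith
  have hhn : 0 < ‖h‖ := norm_pos_iff.2 hh
  have hu := hU.1
  set D : E3 → ℝ := fun x => u (x + h) - u x with hDdef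
  set DG : E3 → E3 := fun x => G (x + h) - G x with hDGdef
  have hD : H1 D DG := h1.sub _ _ _ _ (h2.shift u G hu h) hu
  have hζ1 : ContDiff ℝ 1 ζ := hζ.smooth.of_le (by norm_num)
  have hζc : Continuous ζ := hζ1.continuous
  have hE1 : H1 (fun x => ζ x * D x) (fun x => ζ x • DG x + D x • gr ζ x) :=
    h2.mul D DG ζ M hD hζ1 hζM hgM
  have hE0 := h2.mul _ _ ζ M hE1 hζ1 hζM hgM
  set E : E3 → ℝ := fun x => ζ x * (ζ x * D x) with hEdef
  set W : E3 → E3 := fun x => ζ x • DG x with hWdef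
  set Z : E3 → E3 := fun x => D x • gr ζ x with hZdef
  set EG : E3 → E3 := fun x => ζ x • (W x + (2 : ℝ) • Z x) with hEGdef
  have hE : H1 E EG := by
    refine h1.congr _ _ _ _ hE0 EventuallyEq.rfl (Eventually.of_forall fun x => ?_)
    simp only [hEGdef, hWdef, hZdef]
    module
  have hEs : H1 (fun x => E (x + -h)) (fun x => EG (x + -h)) := h2.shift E EG hE (-h)
  have hφ : H1 (fun x => E (x + -h) - E x) (fun x => EG (x + -h) - EG x) :=
    h1.sub _ _ _ _ hEs hE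
  have key := hU.2 _ _ hφ ⟨K, hK, hKU, Eventually.of_forall fun x hx => by
    obtain ⟨k1, k2⟩ := hout x hx
    simp only [hEdef, k1, k2, zero_mul, sub_zero]⟩
  have tr := h2.trans E EG hE (-h)
  rw [norm_neg] at tr
  -- the function A x (G x)
  have hAn : ∀ x ξ, ‖A x ξ‖ ≤ L * ‖ξ‖ := by
    intro x ξ
    have := hC.lipA x ξ 0
    rw [hC.A_zero x, sub_zero, sub_zero] at this
    exact this
  have hBn : ∀ x ξ, |B x ξ| ≤ L * ‖ξ‖ := by
    intro x ξ
    have := hC.lipB x ξ 0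
    rw [hC.B_zero x, sub_zero, sub_zero] at this
    exact this
  have hAc : Continuous (fun z : E3 × E3 => A z.1 z.2) := hC.smoothA.continuous
  have hBc : Continuous (fun z : E3 × E3 => B z.1 z.2) := hC.smoothB.continuous
  have mG := hu.memG
  have mA : MemLp (fun x => A x (G x)) 2 := by
    refine mG.of_le_mul (c := L) ?_ (Eventually.of_forall fun x => hAn x (G x))
    exact hAc.comp_aestronglyMeasurable
      (aestronglyMeasurable_id.prodMk mG.aestronglyMeasurable)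
  have mB : MemLp (fun x => B x (G x)) 2 := by
    refine mG.of_le_mul (c := L) ?_ (Eventually.of_forall fun x => hBn x (G x))
    exact hBc.comp_aestronglyMeasurable
      (aestronglyMeasurable_id.prodMk mG.aestronglyMeasurable)
  have mAs : MemLp (fun x => A (x + h) (G (x + h))) 2 := memLp_shift mA h
  have mGs : MemLp (fun x => G (x + h)) 2 := memLp_shift mG h
  have mDG : MemLp DG 2 := hD.memG
  have mW : MemLp W 2 := memLp_smul hζc hζM mDG
  have mD : MemLp D 2 := hD.memf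
  have mEG : MemLp EG 2 := hE.memG
  have iW : Integrable (fun x => ‖W x‖ ^ 2) := int_sq mW
  have iGs : Integrable (fun x => ‖G (x + h)‖ ^ 2) := int_sq mGs
  have iD : Integrable (fun x => D x ^ 2) := mD.integrable_sq
  -- the left side
  have e1 : ∫ x, ⟪A x (G x), EG (x + -h) - EG x⟫
      = ∫ x, ⟪A (x + h) (G (x + h)) - A x (G x), EG x⟫ := by
    have f1 : ∫ x, ⟪A x (G x), EG (x + -h) - EG x⟫
        = (∫ x, ⟪A x (G x), EG (x + -h)⟫) - ∫ x, ⟪A x (G x), EG x⟫ := by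
      rw [← integral_sub (int_inner mA hEs.memG) (int_inner mA mEG)]
      refine integral_congr_ae (Eventually.of_forall fun x => ?_)
      exact inner_sub_right _ _ _
    have f2 : ∫ x, ⟪A x (G x), EG (x + -h)⟫ = ∫ x, ⟪A (x + h) (G (x + h)), EG x⟫ := by
      rw [← integral_add_right_eq_self (fun x => ⟪A x (G x), EG (x + -h)⟫) h]
      refine integral_congr_ae (Eventually.of_forall fun x => ?_)
      simp only [add_neg_cancel_right]
    rw [f1, f2, ← integral_sub (int_inner mAs mEG) (int_inner mA mEG)]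
    refine integral_congr_ae (Eventually.of_forall fun x => ?_)
    exact (inner_sub_left _ _ _).symm
  rw [e1] at key
  set C1 := M ^ 2 * L ^ 2 / c + M ^ 2 * L ^ 2 with hC1
  set C2 := M ^ 2 + 4 * L ^ 2 * M ^ 2 / c with hC2
  have hZn : ∀ x, ‖Z x‖ ≤ M * |D x| := by
    intro x
    simp only [hZdef]
    rw [norm_smul, Real.norm_eq_abs, mul_comm]
    exact mul_le_mul_of_nonneg_right (hgM x) (abs_nonneg _)
  -- pointwise lower bound of the left side
  have low : ∀ x, c / 2 * ‖W x‖ ^ 2 - C1 * ‖h‖ ^ 2 * ‖G (x + h)‖ ^ 2 - C2 * D x ^ 2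
      ≤ ⟪A (x + h) (G (x + h)) - A x (G x), EG x⟫ := by
    intro x
    have s0 : ⟪A (x + h) (G (x + h)) - A x (G x), EG x⟫ =
        ⟪ζ x • (A (x + h) (G (x + h)) - A x (G (x + h))) +
          ζ x • (A x (G (x + h)) - A x (G x)), W x + (2 : ℝ) • Z x⟫ := by
      simp only [hEGdef]
      rw [inner_smul_right, ← smul_add, real_inner_smul_left]
      congr 2
      abel
    rw [s0, ← sq_abs (D x)]
    refine low_aux hc hL.le hM0.le (norm_nonneg _) (norm_nonneg _) rfl ?_ ?_ ?_ (hZn x)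
    · rw [norm_smul, Real.norm_eq_abs]
      have m3 : ‖A (x + h) (G (x + h)) - A x (G (x + h))‖ ≤ L * ‖h‖ * ‖G (x + h)‖ := by
        have := hC.lipx (x + h) x (G (x + h))
        rwa [add_sub_cancel_left] at this
      calc |ζ x| * ‖A (x + h) (G (x + h)) - A x (G (x + h))‖
          ≤ M * (L * ‖h‖ * ‖G (x + h)‖) := mul_le_mul (hζM x) m3 (norm_nonneg _) hM0.le
        _ = M * L * ‖h‖ * ‖G (x + h)‖ := by ring
    · simp only [hWdef]
      rw [norm_smul, norm_smul, Real.norm_eq_abs]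
      have m3 := hC.lipA x (G (x + h)) (G x)
      have := mul_le_mul_of_nonneg_left m3 (abs_nonneg (ζ x))
      calc |ζ x| * ‖A x (G (x + h)) - A x (G x)‖ ≤ |ζ x| * (L * ‖G (x + h) - G x‖) := this
        _ = L * (|ζ x| * ‖DG x‖) := by simp only [hDGdef]; ring
    · simp only [hWdef]
      rw [real_inner_smul_left, inner_smul_right, norm_smul, mul_pow, Real.norm_eq_abs, sq_abs]
      have m1 := hC.mono x (G (x + h)) (G x)
      have := mul_le_mul_of_nonneg_left m1 (sq_nonneg (ζ x))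
      calc c * (ζ x ^ 2 * ‖DG x‖ ^ 2) = ζ x ^ 2 * (c * ‖G (x + h) - G x‖ ^ 2) := by
            simp only [hDGdef]; ring
        _ ≤ ζ x ^ 2 * ⟪A x (G (x + h)) - A x (G x), G (x + h) - G x⟫ := this
        _ = ζ x * (ζ x * ⟪A x (G (x + h)) - A x (G x), DG x⟫) := by
            simp only [hDGdef]; ring
  have lowi : c / 2 * sqv W - C1 * ‖h‖ ^ 2 * sqv G - C2 * sq D
      ≤ ∫ x, ⟪A (x + h) (G (x + h)) - A x (G x), EG x⟫ := by
    have g1 : sqv G = ∫ x, ‖G (x + h)‖ ^ 2 :=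
      (integral_add_right_eq_self (fun x => ‖G x‖ ^ 2) h).symm
    have i12 : Integrable (fun x => c / 2 * ‖W x‖ ^ 2 - C1 * ‖h‖ ^ 2 * ‖G (x + h)‖ ^ 2) :=
      (iW.const_mul _).sub (iGs.const_mul _)
    have g2 : ∫ x, (c / 2 * ‖W x‖ ^ 2 - C1 * ‖h‖ ^ 2 * ‖G (x + h)‖ ^ 2 - C2 * D x ^ 2) =
        c / 2 * sqv W - C1 * ‖h‖ ^ 2 * (∫ x, ‖G (x + h)‖ ^ 2) - C2 * sq D := by
      rw [integral_sub i12 (iD.const_mul _), integral_sub (iW.const_mul _) (iGs.const_mul _),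
        integral_const_mul, integral_const_mul, integral_const_mul]
      rfl
    rw [g1, ← g2]
    exact integral_mono (i12.sub (iD.const_mul _)) (int_inner (mAs.sub mA) mEG) low
  have trD : sq D ≤ ‖h‖ ^ 2 * sqv G := h2.trans u G hu h
  -- the gradient of `E`
  have hEGn : sqv EG ≤ 2 * M ^ 2 * sqv W + 8 * M ^ 4 * sq D := by
    unfold sqv sq
    rw [← integral_const_mul, ← integral_const_mul,
      ← integral_add (iW.const_mul _) (iD.const_mul _)]
    refine integral_mono (int_sq mEG) ((iW.const_mul _).add (iD.const_mul _)) fun x => ?_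
    simp only [hEGdef]
    rw [norm_smul, mul_pow, Real.norm_eq_abs]
    have k1 : |ζ x| ^ 2 ≤ M ^ 2 := pow_le_pow_left₀ (abs_nonneg _) (hζM x) 2
    have k2 : ‖W x + (2 : ℝ) • Z x‖ ≤ ‖W x‖ + 2 * (M * |D x|) := by
      refine (norm_add_le _ _).trans ?_
      have k6 : ‖(2 : ℝ) • Z x‖ = 2 * ‖Z x‖ := by
        rw [norm_smul, Real.norm_eq_abs, abs_of_pos (by norm_num : (0 : ℝ) < 2)]
      rw [k6]
      have := hZn x
      linarith
    have k3 : ‖W x + (2 : ℝ) • Z x‖ ^ 2 ≤ 2 * ‖W x‖ ^ 2 + 8 * (M ^ 2 * D x ^ 2) := by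
      have k4 := pow_le_pow_left₀ (norm_nonneg _) k2 2
      have k5 : (‖W x‖ + 2 * (M * |D x|)) ^ 2 ≤ 2 * ‖W x‖ ^ 2 + 8 * (M ^ 2 * |D x| ^ 2) := by
        nlinarith [sq_nonneg (‖W x‖ - 2 * (M * |D x|))]
      rw [sq_abs] at k5
      linarith
    calc |ζ x| ^ 2 * ‖W x + (2 : ℝ) • Z x‖ ^ 2
        ≤ M ^ 2 * (2 * ‖W x‖ ^ 2 + 8 * (M ^ 2 * D x ^ 2)) :=
          mul_le_mul k1 k3 (sq_nonneg _) (sq_nonneg _)
      _ = 2 * M ^ 2 * ‖W x‖ ^ 2 + 8 * M ^ 4 * D x ^ 2 := by ring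
  -- upper bound of the right side
  set f : E3 → ℝ := fun x => B x (G x) with hfdef
  have mφ : MemLp (fun x => E (x + -h) - E x) 2 := hφ.memf
  have ifs : Integrable (fun x => f x ^ 2) := mB.integrable_sq
  have iφs : Integrable (fun x => (E (x + -h) - E x) ^ 2) := mφ.integrable_sq
  have sqf : sq f ≤ L ^ 2 * sqv G := by
    unfold sq sqv
    rw [← integral_const_mul]
    refine integral_mono ifs ((int_sq mG).const_mul _) fun x => ?_
    have := pow_le_pow_left₀ (abs_nonneg _) (hBn x (G x)) 2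
    rw [sq_abs, mul_pow] at this
    exact this
  have upi : ∫ x, f x * (E (x + -h) - E x) ≤
      (2 * M ^ 2 / c * ‖h‖ ^ 2) * sq f + (c / (8 * M ^ 2)) * sqv EG := by
    have g1 : ∫ x, f x * (E (x + -h) - E x)
        ≤ ∫ x, ((2 * M ^ 2 / c * ‖h‖ ^ 2) * f x ^ 2 +
          (c / (8 * M ^ 2 * ‖h‖ ^ 2)) * (E (x + -h) - E x) ^ 2) := by
      refine integral_mono (mB.integrable_mul mφ) ((ifs.const_mul _).add (iφs.const_mul _)) ?_
      intro x
      simp only
      have q : 0 ≤ (4 * M ^ 2 * ‖h‖ ^ 2 * f x - c * (E (x + -h) - E x)) ^ 2 /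
          (8 * c * M ^ 2 * ‖h‖ ^ 2) := by positivity
      have q2 : (4 * M ^ 2 * ‖h‖ ^ 2 * f x - c * (E (x + -h) - E x)) ^ 2 /
          (8 * c * M ^ 2 * ‖h‖ ^ 2)
          = (2 * M ^ 2 / c * ‖h‖ ^ 2) * f x ^ 2 - f x * (E (x + -h) - E x)
            + (c / (8 * M ^ 2 * ‖h‖ ^ 2)) * (E (x + -h) - E x) ^ 2 := by
        field_simp
        ring
      rw [q2] at q
      linarith
    rw [integral_add (ifs.const_mul _) (iφs.const_mul _), integral_const_mul,
      integral_const_mul] at g1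
    have g2 : (c / (8 * M ^ 2 * ‖h‖ ^ 2)) * (∫ x, (E (x + -h) - E x) ^ 2)
        ≤ (c / (8 * M ^ 2 * ‖h‖ ^ 2)) * (‖h‖ ^ 2 * sqv EG) :=
      mul_le_mul_of_nonneg_left tr (by positivity)
    have g3 : (c / (8 * M ^ 2 * ‖h‖ ^ 2)) * (‖h‖ ^ 2 * sqv EG) = (c / (8 * M ^ 2)) * sqv EG := by
      field_simp
    rw [g3] at g2
    exact g1.trans (add_le_add le_rfl g2)
  rw [key] at lowi
  have n1 : 0 ≤ sqv G := integral_nonneg fun x => sq_nonneg _
  have u1 : (2 * M ^ 2 / c * ‖h‖ ^ 2) * sq f ≤ (2 * M ^ 2 / c * ‖h‖ ^ 2) * (L ^ 2 * sqv G) :=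
    mul_le_mul_of_nonneg_left sqf (by positivity)
  have u2 : (c / (8 * M ^ 2)) * sqv EG ≤ c / 4 * sqv W + c * M ^ 2 * (‖h‖ ^ 2 * sqv G) := by
    calc (c / (8 * M ^ 2)) * sqv EG
        ≤ (c / (8 * M ^ 2)) * (2 * M ^ 2 * sqv W + 8 * M ^ 4 * (‖h‖ ^ 2 * sqv G)) := by
          refine mul_le_mul_of_nonneg_left (hEGn.trans ?_) (by positivity)
          exact add_le_add le_rfl (mul_le_mul_of_nonneg_left trD (by positivity))
      _ = c / 4 * sqv W + c * M ^ 2 * (‖h‖ ^ 2 * sqv G) := by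
          field_simp
          ring
  have hC2' : 0 ≤ C2 := by positivity
  have u3 : C2 * sq D ≤ C2 * (‖h‖ ^ 2 * sqv G) := mul_le_mul_of_nonneg_left trD hC2'
  have fin : c / 4 * sqv W ≤ (C1 + C2 + 2 * M ^ 2 * L ^ 2 / c + c * M ^ 2) *
      (‖h‖ ^ 2 * sqv G) := by
    have e5 : (2 * M ^ 2 / c * ‖h‖ ^ 2) * (L ^ 2 * sqv G) =
        (2 * M ^ 2 * L ^ 2 / c) * (‖h‖ ^ 2 * sqv G) := by
      field_simp
    rw [e5] at u1
    have e6 : C1 * ‖h‖ ^ 2 * sqv G = C1 * (‖h‖ ^ 2 * sqv G) := by ring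
    rw [e6] at lowi
    have := lowi.trans upi
    linarith
  have e4 : sqv W = (4 / c) * ((c / 4) * sqv W) := by
    field_simp
  change sqv W ≤ _
  rw [e4]
  calc (4 / c) * ((c / 4) * sqv W) ≤ (4 / c) * ((C1 + C2 + 2 * M ^ 2 * L ^ 2 / c + c * M ^ 2) *
      (‖h‖ ^ 2 * sqv G)) := mul_le_mul_of_nonneg_left fin (by positivity)
    _ = _ := by ring

/-- The squares of the shifted function and of the function. -/
theorem sq_shift_le {f : E3 → ℝ} (hf : MemLp f 2) (h : E3) :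
    sq (fun x => f (x + h) - f x) ≤ 4 * sq f := by
  have m1 : MemLp (fun x => f (x + h)) 2 := memLp_shift hf h
  have i1 := m1.integrable_sq
  have i2 := hf.integrable_sq
  have g1 : ∫ x, f (x + h) ^ 2 = sq f := integral_add_right_eq_self (fun x => f x ^ 2) h
  have g2 : sq (fun x => f (x + h) - f x) ≤ ∫ x, (2 * f (x + h) ^ 2 + 2 * f x ^ 2) := by
    refine integral_mono (m1.sub hf).integrable_sq ((i1.const_mul _).add (i2.const_mul _))
      fun x => ?_
    simp only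
    nlinarith [sq_nonneg (f (x + h) + f x)]
  rw [integral_add (i1.const_mul _) (i2.const_mul _), integral_const_mul, integral_const_mul,
    g1] at g2
  have : sq f = ∫ x, f x ^ 2 := rfl
  linarith

end XDQm

open XDQm

theorem xdq_thm (h1 : API1) (h2 : API2) (hr : DQR) : XDQ := by
  intro A B c L r hC U u G hUo hU ζ hζ hsub i
  have hζ1 : ContDiff ℝ 1 ζ := hζ.smooth.of_le (by norm_num)
  have hζc : Continuous ζ := hζ1.continuous
  have hK : IsCompact (tsupport ζ) := hζ.cpt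
  have hu := hU.1
  have mG := hu.memG
  obtain ⟨h₀, hh₀, hth⟩ := hK.exists_cthickening_subset_open hUo hsub
  have hKc : IsCompact (Metric.cthickening h₀ (tsupport ζ)) := hK.cthickening
  -- the bound `M`
  obtain ⟨M1, hM1⟩ := hζc.bounded_above_of_compact_support hζ.cpt
  have hgs : HasCompactSupport (gr ζ) := by
    refine HasCompactSupport.intro hK fun x hx => ?_
    have h3 : fderiv ℝ ζ x = 0 := by
      by_contra h4
      exact hx (support_fderiv_subset ℝ h4)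
    apply ext_inner_right ℝ
    intro v
    rw [h1.gr_inner, h3, inner_zero_left]
    rfl
  obtain ⟨M2, hM2⟩ := (h1.gr_cont ζ hζ1).bounded_above_of_compact_support hgs
  obtain ⟨M3, hM3⟩ := hζ1.lipschitzWith_of_hasCompactSupport hζ.cpt (by norm_num)
  set M : ℝ := 1 + |M1| + |M2| + M3 with hMdef
  have hM3' : (0 : ℝ) ≤ M3 := M3.2
  have hM : 1 ≤ M := by
    have := abs_nonneg M1
    have := abs_nonneg M2
    linarith
  have hζM : ∀ x, |ζ x| ≤ M := by
    intro x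
    have k1 := hM1 x
    rw [Real.norm_eq_abs] at k1
    have := le_abs_self M1
    have := abs_nonneg M2
    linarith
  have hgM : ∀ x, ‖gr ζ x‖ ≤ M := by
    intro x
    have k1 := hM2 x
    have := le_abs_self M2
    have := abs_nonneg M1
    linarith
  have hlip : ∀ x h : E3, |ζ (x + h) - ζ x| ≤ M * ‖h‖ := by
    intro x h
    have k1 := hM3.dist_le_mul (x + h) x
    rw [Real.dist_eq, dist_eq_norm, add_sub_cancel_left] at k1
    have k2 : (M3 : ℝ) ≤ M := by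
      have := abs_nonneg M1
      have := abs_nonneg M2
      linarith
    exact k1.trans (mul_le_mul_of_nonneg_right k2 (norm_nonneg _))
  have hM0 : 0 < M := by linarith
  set C := 4 / c * ((M ^ 2 * L ^ 2 / c + M ^ 2 * L ^ 2) + (M ^ 2 + 4 * L ^ 2 * M ^ 2 / c) +
        2 * M ^ 2 * L ^ 2 / c + c * M ^ 2) * sqv G with hCdef
  set f : E3 → ℝ := fun x => ζ x * G x i with hfdef
  have hcomp : ∀ v : E3, |v i| ≤ ‖v‖ := by
    intro v
    have := PiLp.norm_apply_le v i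
    rwa [Real.norm_eq_abs] at this
  have mf : MemLp f 2 := by
    have k1 := memLp_smul hζc hζM mG
    refine k1.of_le_mul (c := 1) ?_ (Eventually.of_forall fun x => ?_)
    · have k2 : AEStronglyMeasurable (fun x => G x i) :=
        ((EuclideanSpace.proj i : E3 →L[ℝ] ℝ).continuous.comp_aestronglyMeasurable
          mG.aestronglyMeasurable)
      exact hζc.aestronglyMeasurable.mul k2
    · simp only [hfdef]
      rw [one_mul, norm_mul, norm_smul]
      exact mul_le_mul_of_nonneg_left (PiLp.norm_apply_le (G x) i) (norm_nonneg _)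
  have n1 : 0 ≤ sqv G := integral_nonneg fun x => sq_nonneg _
  have nf : 0 ≤ sq f := integral_nonneg fun x => sq_nonneg _
  have hc := hC.c_pos
  have hC0 : 0 ≤ C := by
    rw [hCdef]
    have : 0 ≤ M ^ 2 * L ^ 2 / c := by positivity
    have : 0 ≤ 4 * L ^ 2 * M ^ 2 / c := by positivity
    have : 0 ≤ 2 * M ^ 2 * L ^ 2 / c := by positivity
    positivity
  refine hr f (2 * M ^ 2 * sqv G + 2 * C + 4 * sq f / h₀ ^ 2) mf fun h => ?_
  have hn2 : 0 ≤ ‖h‖ ^ 2 := sq_nonneg _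
  by_cases hh : ‖h‖ ≤ h₀
  · have hloc := local_est h1 h2 hC hU hζ hM hζM hgM (h := h) hKc hth (by
      intro x hx
      have k1 : x ∉ tsupport ζ := fun k => hx (Metric.self_subset_cthickening _ k)
      refine ⟨image_eq_zero_of_notMem_tsupport k1, ?_⟩
      refine image_eq_zero_of_notMem_tsupport fun k => hx ?_
      refine Metric.mem_cthickening_of_dist_le x (x + -h) h₀ _ k ?_
      rw [dist_eq_norm]
      have : x - (x + -h) = h := by abel
      rw [this]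
      exact hh)
    have mW : MemLp (fun x => ζ x • (G (x + h) - G x)) 2 :=
      memLp_smul hζc hζM ((_root_.Pool.Agent.PFlow.PB.XDQm.memLp_shift mG h).sub mG)
    have mGs : MemLp (fun x => G (x + h)) 2 := _root_.Pool.Agent.PFlow.PB.XDQm.memLp_shift mG h
    have g1 : sqv G = ∫ x, ‖G (x + h)‖ ^ 2 :=
      (integral_add_right_eq_self (fun x => ‖G x‖ ^ 2) h).symm
    have g2 : sq (fun x => f (x + h) - f x) ≤
        ∫ x, (2 * M ^ 2 * ‖h‖ ^ 2 * ‖G (x + h)‖ ^ 2 +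
          2 * ‖ζ x • (G (x + h) - G x)‖ ^ 2) := by
      refine integral_mono ((_root_.Pool.Agent.PFlow.PB.XDQm.memLp_shift mf h).sub mf).integrable_sq
        (((_root_.Pool.Agent.PFlow.PB.XDQm.int_sq mGs).const_mul _).add ((_root_.Pool.Agent.PFlow.PB.XDQm.int_sq mW).const_mul _)) fun x => ?_
      simp only
      have s1 : f (x + h) - f x = (ζ (x + h) - ζ x) * G (x + h) i +
          (ζ x • (G (x + h) - G x)) i := by
        simp only [hfdef, PiLp.smul_apply, PiLp.sub_apply, smul_eq_mul]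
        ring
      have s2 : ((ζ (x + h) - ζ x) * G (x + h) i) ^ 2 ≤ M ^ 2 * ‖h‖ ^ 2 * ‖G (x + h)‖ ^ 2 := by
        rw [mul_pow]
        have t1 := pow_le_pow_left₀ (abs_nonneg _) (hlip x h) 2
        have t2 := pow_le_pow_left₀ (abs_nonneg _) (hcomp (G (x + h))) 2
        rw [sq_abs, mul_pow] at t1
        rw [sq_abs] at t2
        exact mul_le_mul t1 t2 (sq_nonneg _) (by positivity)
      have s3 : ((ζ x • (G (x + h) - G x)) i) ^ 2 ≤ ‖ζ x • (G (x + h) - G x)‖ ^ 2 := by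
        have t2 := pow_le_pow_left₀ (abs_nonneg _) (hcomp (ζ x • (G (x + h) - G x))) 2
        rwa [sq_abs] at t2
      rw [s1]
      nlinarith [sq_nonneg ((ζ (x + h) - ζ x) * G (x + h) i - (ζ x • (G (x + h) - G x)) i)]
    rw [integral_add ((_root_.Pool.Agent.PFlow.PB.XDQm.int_sq mGs).const_mul _) ((_root_.Pool.Agent.PFlow.PB.XDQm.int_sq mW).const_mul _), integral_const_mul,
      integral_const_mul, ← g1] at g2
    have g3 : ∫ x, ‖ζ x • (G (x + h) - G x)‖ ^ 2 ≤ C * ‖h‖ ^ 2 := hloc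
    have g4 : 0 ≤ 4 * sq f / h₀ ^ 2 * ‖h‖ ^ 2 := by positivity
    calc sq (fun x => f (x + h) - f x) ≤
        2 * M ^ 2 * ‖h‖ ^ 2 * sqv G + 2 * ∫ x, ‖ζ x • (G (x + h) - G x)‖ ^ 2 := g2
      _ ≤ 2 * M ^ 2 * ‖h‖ ^ 2 * sqv G + 2 * (C * ‖h‖ ^ 2) + 4 * sq f / h₀ ^ 2 * ‖h‖ ^ 2 := by
          linarith
      _ = _ := by ring
  · push Not at hh
    have g1 := sq_shift_le mf h
    have g2 : 4 * sq f ≤ 4 * sq f / h₀ ^ 2 * ‖h‖ ^ 2 := by
      have k1 : h₀ ^ 2 ≤ ‖h‖ ^ 2 := pow_le_pow_left₀ hh₀.le hh.le 2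
      have k2 : 4 * sq f = 4 * sq f / h₀ ^ 2 * h₀ ^ 2 := by field_simp
      calc 4 * sq f = 4 * sq f / h₀ ^ 2 * h₀ ^ 2 := k2
        _ ≤ 4 * sq f / h₀ ^ 2 * ‖h‖ ^ 2 := mul_le_mul_of_nonneg_left k1 (by positivity)
    have g3 : 0 ≤ (2 * M ^ 2 * sqv G + 2 * C) * ‖h‖ ^ 2 := by positivity
    have e : (2 * M ^ 2 * sqv G + 2 * C + 4 * sq f / h₀ ^ 2) * ‖h‖ ^ 2 =
      (2 * M ^ 2 * sqv G + 2 * C) * ‖h‖ ^ 2 + 4 * sq f / h₀ ^ 2 * ‖h‖ ^ 2 := by ring
    rw [e]
    linarith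

end Pool.Agent.PFlow.PB


end
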