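import Mathlib
import Pool.Agent.PenroseM.C06
import Pool.Agent.PenroseM.C48
import Pool.Agent.PenroseM.C52
import Pool.Agent.PenroseM.C71
import Pool.Agent.PenroseM.C72
import Pool.Agent.PenroseM.C73
import Pool.Agent.PenroseM.C75
import Pool.Agent.PenroseM.C77
import Pool.Agent.PenroseM.C84
import Pool.Agent.PenroseM.C86
import Pool.Agent.PenroseM.C87
import Pool.Agent.PenroseM.C88

/-! Parts: PFlow.PX.EqL, PFlow.PX.HTw, PFlow.PX.LCg, PFlow.PX.Main -/

section

/-!
# Block PX, module XEQL: the equation of the limit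
-/

open MeasureTheory Filter Topology Set
open scoped ContDiff RealInnerProductSpace

namespace Pool.Agent.PFlow.PB

open Pool.Agent.PenroseSph Pool.Agent.PFlow

open EQLAux

theorem xeql_thm (hb : BRID) (hn : XNDV) (hl : LIMEQ) (hs : SYMM) (hk : KLIMU) (hm : KSMO)
    (ht : KTN) : XEQL := by
  intro ε R g h w₀ δ κ u₀ G₀ u G M C v F N L
  have hRpos : 0 < R := by linarith [L.hR]
  have hr : (0 : ℝ) < R / 2 := by linarith
  have hD : GData g h (R / 2) := L.data
  have hgc : ∀ i j, Continuous fun x => g x i j := fun i j =>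
    (contDiffOn_univ.1 (L.data.met.smooth i j)).continuous
  have hreg : ∀ n x ξ, 0 < regA ε (δ n) (κ n) (lsq g x ξ) := by
    intro n x ξ
    have h1 : 0 ≤ lsq g x ξ := (ht g x (L.data.met.posDef x (mem_univ x)) ξ).1
    unfold regA
    have h2 : 0 < (lsq g x ξ + δ n ^ 2) ^ ((ε - 1) / 2) :=
      Real.rpow_pos_of_pos (by have := L.δ_pos n; positivity) _
    have := L.κ_pos n
    positivity
  obtain ⟨⟨C₁, hC₁, hbd⟩, hconv⟩ := hk ε g h _ L.eps_pos L.eps_lt hD
  -- the coefficients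
  set α : ℕ → E3 → E3 → Fin 3 → Fin 3 → ℝ := fun n x ξ i j =>
    (opL ε (δ n) (κ n) g x ξ (eu i j) - opL ε (δ n) (κ n) g x ξ 0) /
      regA ε (δ n) (κ n) (lsq g x ξ) with hα
  set β : ℕ → E3 → E3 → ℝ := fun n x ξ =>
    (opL ε (δ n) (κ n) g x ξ 0 + cB ε (δ n) g h x ξ) /
      regA ε (δ n) (κ n) (lsq g x ξ) with hβ
  set α₀ : E3 → E3 → Fin 3 → Fin 3 → ℝ := fun x ξ i j =>
    volDen g x * beps ε g x ξ (cHess g x ξ (eu i j)) -
      volDen g x * beps ε g x ξ (cHess g x ξ 0) with hα₀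
  set β₀ : E3 → E3 → ℝ := fun x ξ =>
    volDen g x * beps ε g x ξ (cHess g x ξ 0) +
      volDen g x * (len g x ξ * beps ε g x ξ (h x)) with hβ₀
  set C₂ : ℝ := max C (2 * C₁) with hC₂
  have hCle : C ≤ C₂ := le_max_left _ _
  have hC1le : 2 * C₁ ≤ C₂ := le_max_right _ _
  have hM2 : ∀ n i, MemLp (M n i) 2 := fun n i => ((L.h2 n).h2 i).memG
  have hmeasL : ∀ n (X : Bil), Measurable fun z : E3 × E3 =>
      opL ε (δ n) (κ n) g z.1 z.2 X := by
    intro n X
    have h1 := (cont_opA (hm ε (δ n) (κ n) g h _ L.eps_pos L.eps_lt (L.δ_pos n) (L.κ_pos n) hD).1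
      (fun i => WithLp.toLp 2 (X i))).measurable
    have h2 : (fun z : E3 × E3 => opL ε (δ n) (κ n) g z.1 z.2 X) = fun z : E3 × E3 =>
        opA (cA ε (δ n) (κ n) g) z.1 z.2 (fun i => WithLp.toLp 2 (X i)) := by
      funext z
      rw [hb.op ε (δ n) (κ n) g h _ L.eps_pos L.eps_lt (L.δ_pos n) (L.κ_pos n) hD]
      rfl
    rw [h2]
    exact h1
  have hmeasR : ∀ n, Measurable fun z : E3 × E3 =>
      regA ε (δ n) (κ n) (lsq g z.1 z.2) := fun n => meas_regA hgc _ _ _
  have hsq : ∀ n, sqv (G n) ≤ C := by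
    intro n
    have h1 := L.bound n
    have h2 := _root_.Pool.Agent.PFlow.PB.EQLAux.sq_nonneg' (u n)
    have h3 : 0 ≤ ∑ i, sqv (M n i) := Finset.sum_nonneg fun i _ => sqv_nonneg _
    linarith
  have hsM : ∀ n, ∑ i, sqv (M n i) ≤ C := by
    intro n
    have h1 := L.bound n
    have h2 := _root_.Pool.Agent.PFlow.PB.EQLAux.sq_nonneg' (u n)
    have h3 := sqv_nonneg (G n)
    linarith
  have key := hl (Ann (1 / 2) R) G M F N α β α₀ β₀ C₂ (isOpen_Ann (1 / 2) R) hM2
    (fun i => (L.h2w.h2 i).memG) (fun n => (L.h2 n).h1.memG) L.h2w.h1.memG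
    (fun n => (hsM n).trans hCle) (fun n => (hsq n).trans hCle) L.ae L.weak ?_ ?_ ?_ ?_ ?_ ?_
  · -- conclusion
    obtain ⟨hsym, hzero⟩ := hs v F N L.h2w
    rw [EqU, ae_restrict_iff' (isOpen_Ann (1 / 2) R).measurableSet]
    filter_upwards [key, hsym, hzero] with x hx hsx hzx hxU
    have hmt : mat N x = mt fun i => N i x := by
      ext i j
      exact (hsx i j).symm
    refine ⟨fun hF => ?_, fun hF => ?_⟩
    · have hF' : F x ≠ 0 := by
        intro h0
        apply hF
        funext i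
        show (F x) i = 0
        rw [h0]
        rfl
      have h1 := hx hxU hF'
      have haff := ((aff_beps ε g x (F x)).mul (volDen g x)).expand (mt fun i => N i x)
      have hvol : 0 < volDen g x :=
        Real.sqrt_pos.2 (L.data.met.posDef x (mem_univ x)).det_pos
      have h2 : volDen g x * beps ε g x (F x) (cHess g x (F x) (mt fun i => N i x)) +
          volDen g x * (len g x (F x) * beps ε g x (F x) (h x)) = 0 := by
        rw [haff, add_assoc]
        exact h1
      rw [hmt]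
      have h3 : volDen g x * (beps ε g x (F x) (cHess g x (F x) (mt fun i => N i x)) +
          len g x (F x) * beps ε g x (F x) (h x)) = 0 := by
        rw [mul_add]
        exact h2
      exact (mul_eq_zero.1 h3).resolve_left hvol.ne'
    · have hF' : F x = 0 := by
        ext i
        exact congrFun hF i
      have h1 := hzx hF'
      rw [hmt]
      ext i j
      show N i x j = 0
      rw [h1 i]
      rfl
  · -- the equation
    intro n
    obtain ⟨c, L', hc⟩ := hb.coef ε (δ n) (κ n) g h _ L.eps_pos L.eps_lt (L.δ_pos n) (L.κ_pos n)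
      hr hD
    filter_upwards [hn _ _ _ _ _ hc _ _ _ _ (isOpen_Ann (2 / 5) (3 * R / 2)) (L.loc n) (L.h2 n)]
      with x hx0 hxU
    have hx1 : (2 / 5 : ℝ) < ‖x‖ := by linarith [hxU.1]
    have hx2 : ‖x‖ < 3 * R / 2 := by linarith [hxU.2]
    have hx := hx0 ⟨hx1, hx2⟩
    rw [hb.op ε (δ n) (κ n) g h _ L.eps_pos L.eps_lt (L.δ_pos n) (L.κ_pos n) hD,
      (aff_opL ε (δ n) (κ n) g x (G n x)).expand] at hx
    have hR := hreg n x (G n x)
    simp only [hα, hβ]
    have h1 : ∑ i, ∑ j, (opL ε (δ n) (κ n) g x (G n x) (eu i j) -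
        opL ε (δ n) (κ n) g x (G n x) 0) / regA ε (δ n) (κ n) (lsq g x (G n x)) * M n i x j =
        (∑ i, ∑ j, (opL ε (δ n) (κ n) g x (G n x) (eu i j) -
        opL ε (δ n) (κ n) g x (G n x) 0) * M n i x j) /
          regA ε (δ n) (κ n) (lsq g x (G n x)) := by
      rw [Finset.sum_div]
      refine Finset.sum_congr rfl fun i _ => ?_
      rw [Finset.sum_div]
      exact Finset.sum_congr rfl fun j _ => by ring
    rw [h1, ← add_div, ← add_assoc]
    rw [div_eq_zero_iff]
    left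
    exact hx
  · intro n i j
    exact ((hmeasL n _).sub (hmeasL n _)).div (hmeasR n)
  · intro n
    refine ((hmeasL n _).add ?_).div (hmeasR n)
    exact (hm ε (δ n) (κ n) g h _ L.eps_pos L.eps_lt (L.δ_pos n) (L.κ_pos n)
      hD).2.1.continuous.measurable
  · -- the bound of α
    intro n x ξ i j
    have hb1 := fun X => (hbd (δ n) (κ n) (L.δ_pos n) (L.δ_le n) (L.κ_pos n) (L.κ_le n) x ξ X).1
    have h0 := hb1 0
    simp only [Matrix.zero_apply, abs_zero, Finset.sum_const_zero, add_zero] at h0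
    have ht1 : ∀ t : ℝ, 0 < t → t * |α n x ξ i j| ≤ C₁ * t + 2 * C₁ * ‖ξ‖ := by
      intro t htp
      have h1 := hb1 (t • eu i j)
      have h2 : ∑ k, ∑ l, |(t • eu i j) k l| = t := by
        rw [Finset.sum_eq_single i]
        · rw [Finset.sum_eq_single j]
          · simp [eu, abs_of_pos htp]
          · intro l _ hl
            simp [eu, hl]
          · simp
        · intro k _ hk
          refine Finset.sum_eq_zero fun l _ => ?_
          simp [eu, hk]
        · simp
      rw [h2] at h1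
      have h3 := (aff_opL ε (δ n) (κ n) g x ξ).scale i j t
      have h4 : t * α n x ξ i j = opL ε (δ n) (κ n) g x ξ (t • eu i j) /
          regA ε (δ n) (κ n) (lsq g x ξ) - opL ε (δ n) (κ n) g x ξ 0 /
          regA ε (δ n) (κ n) (lsq g x ξ) := by
        rw [← sub_div, h3]
        simp only [hα]
        ring
      have h5 : t * |α n x ξ i j| = |t * α n x ξ i j| := by
        rw [abs_mul, abs_of_pos htp]
      rw [h5, h4]
      refine (abs_sub _ _).trans ?_
      linarith
    have hle : |α n x ξ i j| ≤ C₁ := by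
      by_contra hcon
      push Not at hcon
      have h1 := ht1 ((2 * C₁ * ‖ξ‖ + 1) / (|α n x ξ i j| - C₁)) (by
        apply div_pos
        · positivity
        · linarith)
      have h2 : 0 < |α n x ξ i j| - C₁ := by linarith
      have h3 : (2 * C₁ * ‖ξ‖ + 1) / (|α n x ξ i j| - C₁) * (|α n x ξ i j| - C₁) =
          2 * C₁ * ‖ξ‖ + 1 := div_mul_cancel₀ _ h2.ne'
      nlinarith
    linarith
  · -- the bound of β
    intro n x ξ
    have hb1 := hbd (δ n) (κ n) (L.δ_pos n) (L.δ_le n) (L.κ_pos n) (L.κ_le n) x ξ 0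
    have h0 := hb1.1
    simp only [Matrix.zero_apply, abs_zero, Finset.sum_const_zero, add_zero] at h0
    simp only [hβ]
    rw [add_div]
    refine (abs_add_le _ _).trans ?_
    have h1 := hb1.2.1
    have h2 : 2 * C₁ * ‖ξ‖ ≤ C₂ * ‖ξ‖ := mul_le_mul_of_nonneg_right hC1le (norm_nonneg _)
    linarith
  · -- convergence
    intro x ξ p hξ hp
    have hξ' : (WithLp.ofLp ξ) ≠ 0 := by
      intro h0
      apply hξ
      ext i
      exact congrFun h0 i
    obtain ⟨h1, h2⟩ := hconv x δ κ p ξ L.δ_pos L.κ_pos L.δ_tend L.κ_tend hp hξ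
    refine ⟨fun i j => ?_, ?_⟩
    · have h3 := (h1 (eu i j)).sub (h1 0)
      refine h3.congr fun n => ?_
      simp only [hα, sub_div]
    · have h3 := (h1 0).add h2
      refine h3.congr fun n => ?_
      simp only [hβ, add_div]

end Pool.Agent.PFlow.PB


end

section

/-!
# Block PX, XHTW: weak solutions belong to `H²` locally
-/

open MeasureTheory Filter Topology Set
open scoped ContDiff RealInnerProductSpace

namespace Pool.Agent.PFlow.PB

open Pool.Agent.PenroseSph Pool.Agent.PFlow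

namespace PXHTw

theorem pd_test {f : E3 → ℝ} (hf : Test f) (i : Fin 3) : Test (pd i f) where
  smooth := by
    have h1 : ContDiff ℝ ∞ (fderiv ℝ f) := hf.smooth.fderiv_right (m := ∞) le_rfl
    exact h1.clm_apply contDiff_const
  cpt := hf.cpt.fderiv_apply (𝕜 := ℝ) _

/-- A common bound for a test function and its gradient. -/
theorem bdd {f : E3 → ℝ} (hf : Test f) : ∃ C : ℝ, (∀ x, |f x| ≤ C) ∧ ∀ x, ‖gr f x‖ ≤ C := by
  obtain ⟨C, hC⟩ := hf.smooth.continuous.bounded_above_of_compact_support hf.cpt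
  obtain ⟨C', hC'⟩ := (gr_cont f hf.one).bounded_above_of_compact_support (gr_cpt f hf.cpt)
  exact ⟨max C C', fun x => (hC x).trans (le_max_left _ _),
    fun x => (hC' x).trans (le_max_right _ _)⟩

end PXHTw

open PXHTw in
theorem xhtw_thm (h1 : API1) (h2 : API2) (hd : XDQ) : XHTW := by
  intro A B c L r hp U u G hU hu ζ hζ hs
  obtain ⟨C, hC1, hC2⟩ := bdd hζ
  choose N hN using fun i => hd A B c L r hp U u G hU hu ζ hζ hs i
  have hpd := fun i => pd_test hζ i
  choose C' hC1' hC2' using fun i => bdd (hpd i)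
  refine ⟨fun i x => N i x + (pd i ζ x • G x + u x • gr (pd i ζ) x),
    h2.mul u G ζ C hu.1 hζ.one hC1 hC2, fun i => ?_⟩
  have a1 := h1.add _ _ _ _ (hN i) (h2.mul u G (pd i ζ) (C' i) hu.1 (hpd i).one (hC1' i) (hC2' i))
  have a2 : (fun x => (ζ x • G x + u x • gr ζ x) i) =
      fun x => ζ x * G x i + pd i ζ x * u x := by
    funext x
    rw [PiLp.add_apply, PiLp.smul_apply, PiLp.smul_apply, gr_apply, smul_eq_mul, smul_eq_mul,
      mul_comm (u x)]
  rw [a2]
  exact a1

end Pool.Agent.PFlow.PB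


end

section

/-!
# Block PX, module XLCG: weak solutions which agree on an open set
-/

open MeasureTheory Filter Topology Set
open scoped ContDiff RealInnerProductSpace

namespace Pool.Agent.PFlow.PB

open Pool.Agent.PenroseSph Pool.Agent.PFlow

/-- XLCG. -/
theorem xlcg_thm (h1 : API1) (hc : CHAIN) : XLCG := by
  intro A B c L r hP U O u G w W hU hw hOU hwu
  refine ⟨hw, ?_⟩
  rintro φ Φ hφ ⟨K, hK, hKO, hφK⟩
  have h := hU.2 φ Φ hφ ⟨K, hK, hKO.trans hOU, hφK⟩
  have hz := hc.zero φ Φ hφ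
  have hd := hc.zero _ _ (h1.sub _ _ _ _ hw hU.1)
  have e1 : ∫ x, ⟪A x (W x), Φ x⟫ = ∫ x, ⟪A x (G x), Φ x⟫ := by
    refine integral_congr_ae ?_
    filter_upwards [hφK, hz, hd, hwu] with x h3 h4 h5 h6
    by_cases hx : x ∈ K
    · have h7 : W x - G x = 0 := h5 (by rw [h6 (hKO hx), sub_self])
      rw [sub_eq_zero.1 h7]
    · rw [h4 (h3 hx), inner_zero_right, inner_zero_right]
  have e2 : ∫ x, B x (W x) * φ x = ∫ x, B x (G x) * φ x := by
    refine integral_congr_ae ?_
    filter_upwards [hφK, hd, hwu] with x h3 h5 h6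
    by_cases hx : x ∈ K
    · have h7 : W x - G x = 0 := h5 (by rw [h6 (hKO hx), sub_self])
      rw [sub_eq_zero.1 h7]
    · rw [h3 hx, mul_zero, mul_zero]
  rw [e1, e2, h]

end Pool.Agent.PFlow.PB


end

section

/-!
# Block PX, assembly: the function `u` exists on an exterior region
-/

namespace Pool.Agent.PFlow.PB

open Pool.Agent.PFlow

theorem pXSTEP : XSTEP := xstep_thm pAPI1 pZAR
theorem pXORD : XORD := xord_thm pAPI1 pCHAIN
theorem pXLIPS : XLIPS := xlips_thm pAPI1
theorem pXEXI : XEXI := xexi_thm pAPI1 pXSTEP pXORD pXLIPS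
theorem pXCKEY : XCKEY := xckey_thm pAPI1 pAPI2 pCHAIN
theorem pXCCPT : XCCPT := xccpt_thm pAPI1 pAPI2 pXCKEY
theorem pXCMP : XCMP := xcmp_thm pAPI1 pAPI2 pCHAIN pXCKEY
theorem pXINV : XINV := xinv_thm
theorem pXCOV : XCOV := xcov_thm
theorem pXH1I : XH1I := xh1i_thm pAPI1 pAPI2 pXCOV
theorem pXODT : XODT := xodt_thm pAPI1 pAPI2 pCHAIN
theorem pXODD : XODD := xodd_thm pAPI1 pAPI2 pXCOV pXH1I pXODT
theorem pXREF : XREF := xref_thm pAPI1 pAPI2 pCHAIN pBRID pXINV pXCOV pXH1I pXODD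
theorem pXLCG : XLCG := xlcg_thm pAPI1 pCHAIN
theorem pXDQ : XDQ := xdq_thm pAPI1 pAPI2 pDQR
theorem pXHTW : XHTW := xhtw_thm pAPI1 pAPI2 pXDQ
theorem pXDVF : XDVF := xdvf_thm pAPI1 pAPI2 pDENS
theorem pXNDV : XNDV := xndv_thm pAPI1 pXDVF
theorem pXCRD : XCRD := xcrd_thm pAPI1 pCID kBND kSM
theorem pXPRD : XPRD := xprd_thm pAPI1 pAPI2
theorem pXPTW : XPTW := xptw_thm kBND kTN
theorem pXBYP : XBYP := xbyp_thm pAPI1 pAPI2
theorem pXUNIF : XUNIF :=
  xunif_thm pAPI1 pBRID kCOR pXHTW pXLCG pXNDV pXPRD pXPTW pXBYP pXCRD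
theorem pXLIM : XLIM :=
  xlim_thm pAPI1 pCHAIN pBRID pCONT pCPT pXEXI pXREF pXCOV pXLCG pXUNIF
theorem pXEQL : XEQL := xeql_thm pBRID pXNDV pLIMEQ pSYMM kLIMU kSMO kTN
theorem pXFLX : XFLX := xflx_thm pAPI1 pAPI2 pLIMW kLIM kSMO kTN
theorem pXSUB : XSUB := xsub_thm pBRID pXCCPT kPOS
theorem pXNOI : XNOI := xnoi_thm kEXP
theorem pXCML : XCML := xcml_thm pBRID pXCMP kPOS

end Pool.Agent.PFlow.PB

namespace Pool.Agent.PFlow

open PB

/-- **Block PX**: the interface statement `Stmt_PX`, without hypotheses. -/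
theorem PX : Stmt_PX := xfin_thm pXEQL pXFLX pXSUB pXNOI pXCML pHTWOON pXLIM

end Pool.Agent.PFlow


end
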